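import Pool.Agent.Lib.MP_72e2e6_nt.PeStmt

/-!
# MP_72e2e6_nt: quadratic character sums of polynomials
-/

namespace MP72e2e6

open Polynomial

universe u

/-- The condition for the existence of the auxiliary polynomial. -/
private theorem pechr_arith1 (Q m s A J : ℕ) (hm : 1 ≤ m) (hs : 4 ≤ s) (hsQ : s * s ≤ Q)
    (hQ : 20 * m < Q) (hA : Q ≤ 2 * A + m + 1) (hJ : s + 4 * m + 1 ≤ 2 * J)
    (hJ' : 2 * J ≤ s + 4 * m + 2) : s * (A + s * m + J) < 2 * A * J := by
  zify at *
  have h1 : (0 : ℤ) ≤ (2 * A - (Q - m - 1)) * (2 * J - s) :=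
    mul_nonneg (by linarith) (by linarith)
  have h2 : (0 : ℤ) ≤ (Q - m - 1) * (2 * J - s - (4 * m + 1)) :=
    mul_nonneg (by linarith) (by linarith)
  have h3 : (s : ℤ) * (2 * J) ≤ s * (s + 4 * m + 2) :=
    mul_le_mul_of_nonneg_left hJ' (by linarith)
  have h4 : (s * s : ℤ) * (2 * m + 1) ≤ Q * (2 * m + 1) :=
    mul_le_mul_of_nonneg_right hsQ (by linarith)
  have h5 : (4 : ℤ) * s ≤ s * s := mul_le_mul_of_nonneg_right hs (by linarith)
  have h6 : (0 : ℤ) < m * (4 * Q - 12 * s - 20 * m) := by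
    apply mul_pos (by linarith)
    linarith
  have h7 : (0 : ℤ) ≤ (m - 1) * (s : ℤ) := mul_nonneg (by linarith) (by linarith)
  have h8 : (0 : ℤ) ≤ (m - 1) * (m : ℤ) := mul_nonneg (by linarith) (by linarith)
  nlinarith

/-- The bound for one of the two numbers. -/
private theorem pechr_arith2 (Q m s A J c N : ℕ) (hm : 1 ≤ m) (hs : 4 ≤ s)
    (hsQ : Q ≤ s * s + 2 * s) (hA : 2 * A + m ≤ Q) (hJ : 2 * J ≤ s + 4 * m + 2)
    (hc : 2 * c + 1 = Q) (hN : N * s ≤ s * m + A + c * m + J * Q) :
    2 * N ≤ Q + 2 * m + 12 * m * s := by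
  have h0 : 2 * N * s ≤ (Q + 2 * m + 12 * m * s) * s := by
    zify at *
    have h1 : (2 * J : ℤ) * Q ≤ (s + 4 * m + 2) * Q := mul_le_mul_of_nonneg_right hJ (by linarith)
    have h2 : (2 * (c : ℤ) + 1) * m = Q * m := by rw [hc]
    have h3 : (0 : ℤ) ≤ (m - 1) * (Q : ℤ) := mul_nonneg (by linarith) (by linarith)
    have h4 : (8 * m : ℤ) * Q ≤ 8 * m * (s * s + 2 * s) :=
      mul_le_mul_of_nonneg_left hsQ (by linarith)
    have h5 : (0 : ℤ) ≤ m * s * (s - 4) := mul_nonneg (by positivity) (by linarith)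
    nlinarith
  exact Nat.le_of_mul_le_mul_right h0 (by omega)

private theorem pechr_char (k : Type u) [Field k] [Fintype k] (c : ℕ)
    (hc : 2 * c + 1 = Nat.card k) : ringChar k ≠ 2 ∧ Fintype.card k / 2 = c := by
  rw [Nat.card_eq_fintype_card] at hc
  refine ⟨fun h => ?_, by omega⟩
  have h1 := FiniteField.even_card_iff_char_two.1 h
  omega

open Classical in
/-- The bound for the numbers of the `y` such that `f y` is a square, not a square. -/
private theorem pechr_count (h1 : StmtPeSte.{u}) (k : Type u) [Field k] [Fintype k] (c : ℕ)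
    (hc : 2 * c + 1 = Nat.card k) (f : k[X]) (hf : f.Monic) (hm : 1 ≤ f.natDegree)
    (hns : ∀ (x : k) (g : k[X]), f ≠ C x * g ^ 2) (h20 : 20 * f.natDegree < Nat.card k)
    (h16 : 16 ≤ Nat.card k) (h0 : f.eval 0 ≠ 0) (x : k) (hx : x ≠ 0) :
    2 * (Finset.univ.filter fun y : k => f.eval y ^ c = x).card ≤
      Nat.card k + 2 * f.natDegree + 12 * f.natDegree * Nat.sqrt (Nat.card k) := by
  obtain ⟨Q, hQ⟩ : ∃ Q, Q = Nat.card k := ⟨_, rfl⟩
  obtain ⟨m, hmd⟩ : ∃ m, m = f.natDegree := ⟨_, rfl⟩
  obtain ⟨s, hsd⟩ : ∃ s, s = Nat.sqrt Q := ⟨_, rfl⟩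
  rw [← hQ, ← hmd] at h20
  rw [← hQ] at h16 hc
  rw [← hmd] at hm
  have hs4 : 4 ≤ s := by
    rw [hsd, Nat.le_sqrt]
    exact h16
  have hsQ : s * s ≤ Q := by
    rw [hsd]
    exact Nat.sqrt_le Q
  have hsQ' : Q ≤ s * s + 2 * s := by
    rw [hsd]
    have := Nat.sqrt_le_add Q
    omega
  have key := h1 k c (by rw [← hQ]; exact hc) f hf hns h0 ((Q - m) / 2) (s / 2 + 2 * m + 1) s
    (by rw [← hmd, ← hQ]; omega) (by omega) (by rw [← hQ]; nlinarith)
    (by
      rw [← hmd]
      exact pechr_arith1 Q m s _ _ hm hs4 hsQ h20 (by omega) (by omega) (by omega)) x hx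
  rw [← hQ, ← hmd] at key
  rw [← hQ, ← hmd, ← hsd]
  exact pechr_arith2 Q m s _ _ c _ hm hs4 hsQ' (by omega) (by omega) hc key

/-- The number of roots. -/
private theorem pechr_roots (k : Type u) [Field k] [Fintype k] [DecidableEq k] (f : k[X])
    (hf : f ≠ 0) : (Finset.univ.filter fun y : k => f.eval y = 0).card ≤ f.natDegree := by
  have h1 : (Finset.univ.filter fun y : k => f.eval y = 0) ⊆ f.roots.toFinset := by
    intro y hy
    rw [Multiset.mem_toFinset, mem_roots hf]
    exact (Finset.mem_filter.1 hy).2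
  exact (Finset.card_le_card h1).trans ((Multiset.toFinset_card_le _).trans (card_roots' f))

private theorem pechr_zero (h1 : StmtPeSte.{u}) (k : Type u) [Field k] [Fintype k]
    [DecidableEq k] (hodd : Odd (Nat.card k)) (f : k[X]) (hf : f.Monic) (hm : 1 ≤ f.natDegree)
    (hns : ∀ (x : k) (g : k[X]), f ≠ C x * g ^ 2) (h20 : 20 * f.natDegree < Nat.card k)
    (h16 : 16 ≤ Nat.card k) (h0 : f.eval 0 ≠ 0) :
    |∑ y : k, quadraticChar k (f.eval y)| ≤
      ((15 * f.natDegree * Nat.sqrt (Nat.card k) : ℕ) : ℤ) := by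
  obtain ⟨c, hc⟩ := hodd
  have hc' : 2 * c + 1 = Nat.card k := hc.symm
  obtain ⟨hchar, hc2⟩ := pechr_char k c hc'
  have hone : (1 : k) ≠ -1 := Ring.neg_one_ne_one_of_char_ne_two hchar |>.symm
  have hN1 := pechr_count h1 k c hc' f hf hm hns h20 h16 h0 1 one_ne_zero
  have hN2 := pechr_count h1 k c hc' f hf hm hns h20 h16 h0 (-1) (neg_ne_zero.2 one_ne_zero)
  have hr := pechr_roots k f hf.ne_zero
  have hc0 : c ≠ 0 := by omega
  -- the three parts
  have hval : ∀ z : k, (quadraticChar k z = (if z ^ c = 1 then 1 else 0) -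
      (if z ^ c = -1 then 1 else 0)) ∧
      ((1 : ℤ) = (if z ^ c = 1 then 1 else 0) + (if z ^ c = -1 then 1 else 0) +
        (if z = 0 then 1 else 0)) := by
    intro z
    by_cases hz : z = 0
    · subst hz
      rw [zero_pow hc0, if_neg (zero_ne_one), if_neg (fun h => by
        rw [eq_comm, neg_eq_zero] at h
        exact one_ne_zero h), if_pos rfl]
      simp
    · have h2 := quadraticChar_eq_pow_of_char_ne_two' hchar z
      rw [hc2] at h2
      rcases quadraticChar_dichotomy hz with h | h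
      · rw [h, Int.cast_one] at h2
        rw [h, ← h2, if_pos rfl, if_neg hone, if_neg hz]
        norm_num
      · rw [h, Int.cast_neg, Int.cast_one] at h2
        rw [h, ← h2, if_neg hone.symm, if_pos rfl, if_neg hz]
        norm_num
  have hS : ∑ y : k, quadraticChar k (f.eval y) =
      ((Finset.univ.filter fun y : k => f.eval y ^ c = 1).card : ℤ) -
        ((Finset.univ.filter fun y : k => f.eval y ^ c = -1).card : ℤ) := by
    rw [Finset.sum_congr rfl fun y _ => (hval (f.eval y)).1, Finset.sum_sub_distrib,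
      Finset.card_filter, Finset.card_filter]
    push_cast
    rfl
  have hT : (Nat.card k : ℤ) =
      ((Finset.univ.filter fun y : k => f.eval y ^ c = 1).card : ℤ) +
        ((Finset.univ.filter fun y : k => f.eval y ^ c = -1).card : ℤ) +
        ((Finset.univ.filter fun y : k => f.eval y = 0).card : ℤ) := by
    have h2 : (Nat.card k : ℤ) = ∑ y : k, (1 : ℤ) := by
      rw [Finset.sum_const, Finset.card_univ, Nat.card_eq_fintype_card, nsmul_one]
    rw [h2, Finset.sum_congr rfl fun y _ => (hval (f.eval y)).2, Finset.sum_add_distrib,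
      Finset.sum_add_distrib, Finset.card_filter, Finset.card_filter, Finset.card_filter]
    push_cast
    rfl
  have hs4 : 4 ≤ Nat.sqrt (Nat.card k) := by
    rw [Nat.le_sqrt]
    exact h16
  have hms : f.natDegree ≤ f.natDegree * Nat.sqrt (Nat.card k) :=
    Nat.le_mul_of_pos_right _ (by omega)
  have hN1' : 2 * (Finset.univ.filter fun y : k => f.eval y ^ c = 1).card ≤
      Nat.card k + 2 * f.natDegree + 12 * f.natDegree * Nat.sqrt (Nat.card k) := by
    refine le_trans (le_of_eq ?_) hN1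
    congr 2
    exact (Finset.filter_congr_decidable _ _ _).symm
  have hN2' : 2 * (Finset.univ.filter fun y : k => f.eval y ^ c = -1).card ≤
      Nat.card k + 2 * f.natDegree + 12 * f.natDegree * Nat.sqrt (Nat.card k) := by
    refine le_trans (le_of_eq ?_) hN2
    congr 2
    exact (Finset.filter_congr_decidable _ _ _).symm
  rw [hS, abs_le]
  generalize (Finset.univ.filter fun y : k => f.eval y ^ c = 1).card = N1 at *
  generalize (Finset.univ.filter fun y : k => f.eval y ^ c = -1).card = N2 at *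
  generalize (Finset.univ.filter fun y : k => f.eval y = 0).card = N3 at *
  generalize Nat.card k = Q at *
  generalize f.natDegree = m at *
  generalize Nat.sqrt Q = s at *
  have e1 : 12 * m * s = 12 * (m * s) := by ring
  have e2 : 15 * m * s = 15 * (m * s) := by ring
  rw [e1] at hN1' hN2'
  rw [e2]
  generalize m * s = w at *
  push_cast
  constructor <;> omega

theorem tPeChr.{v} (h1 : StmtPeSte.{v}) : StmtPeChr.{v} := by
  intro k _ _ _ hodd f hf hm hns h20 h16
  obtain ⟨z, hz⟩ : ∃ z : k, f.eval z ≠ 0 := by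
    by_contra hcon
    push Not at hcon
    have h2 := pechr_roots k f hf.ne_zero
    rw [Finset.filter_true_of_mem fun y _ => hcon y, Finset.card_univ,
      ← Nat.card_eq_fintype_card] at h2
    omega
  have hd : (f.comp (X + C z)).natDegree = f.natDegree := by
    rw [natDegree_comp, natDegree_X_add_C, mul_one]
  have hS : ∑ y : k, quadraticChar k ((f.comp (X + C z)).eval y) =
      ∑ y : k, quadraticChar k (f.eval y) := by
    refine Fintype.sum_equiv (Equiv.addRight z) _ _ fun y => ?_
    rw [eval_comp, eval_add, eval_X, eval_C, Equiv.coe_addRight]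
  have key := pechr_zero h1 k hodd (f.comp (X + C z)) (hf.comp_X_add_C z) (by rw [hd]; exact hm)
    (by
      intro x g h
      apply hns x (g.comp (X - C z))
      have h3 : f = (f.comp (X + C z)).comp (X - C z) := by
        rw [comp_assoc, add_comp, X_comp, C_comp, sub_add_cancel, comp_X]
      rw [h3, h, mul_comp, C_comp, pow_comp])
    (by rw [hd]; exact h20) h16 (by
      rw [eval_comp, eval_add, eval_X, eval_C, zero_add]
      exact hz)
  rw [hS, hd] at key
  exact key

end MP72e2e6
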