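import Pool.Agent.Lib.MP_72e2e6_nt.PeStmt

/-!
# MP_72e2e6_nt, package Pe: Hasse derivatives
-/

set_option autoImplicit false

namespace MP72e2e6

open Polynomial

universe u

theorem pehas_one {k : Type u} [Field k] [Finite k] (h : k[X]) (n : ℕ) (hn : n < Nat.card k) :
    hasseDeriv n (h * X ^ Nat.card k) = hasseDeriv n h * X ^ Nat.card k := by
  have : Fintype k := Fintype.ofFinite k
  obtain ⟨p, hp⟩ := CharP.exists k
  obtain ⟨e, hprime, hcard⟩ := FiniteField.card k p
  rw [Nat.card_eq_fintype_card, hcard] at hn ⊢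
  rw [hasseDeriv_mul, Finset.sum_eq_single (n, 0)]
  · rw [hasseDeriv_zero, LinearMap.id_apply]
  · rintro ⟨i, j⟩ hij hne
    rw [Finset.HasAntidiagonal.mem_antidiagonal] at hij
    simp only at hij
    have hj : j ≠ 0 := by
      rintro rfl
      exact hne (by rw [← hij, add_zero])
    have hjp : j ≠ p ^ (e : ℕ) := by omega
    have h1 : p ∣ (p ^ (e : ℕ)).choose j := hprime.dvd_choose_pow hj hjp
    have h2 : (((p ^ (e : ℕ)).choose j : ℕ) : k) = 0 := (CharP.cast_eq_zero_iff k p _).mpr h1
    simp only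
    rw [X_pow_eq_monomial, hasseDeriv_monomial, h2, zero_mul, monomial_zero_right, mul_zero]
  · intro h
    exact absurd (Finset.HasAntidiagonal.mem_antidiagonal.mpr (add_zero n)) h

theorem pehas_two {k : Type u} [Field k] (f : k[X]) (N : ℕ) : ∀ (h : k[X]) (n : ℕ), n ≤ N →
    f ^ (N - n) ∣ hasseDeriv n (f ^ N * h) := by
  induction N with
  | zero =>
    intro h n hn
    rw [Nat.zero_sub, pow_zero]
    exact one_dvd _
  | succ N ih =>
    intro h n hn
    rw [pow_succ', mul_assoc, hasseDeriv_mul]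
    refine Finset.dvd_sum ?_
    rintro ⟨i, j⟩ hij
    rw [Finset.HasAntidiagonal.mem_antidiagonal] at hij
    simp only at hij ⊢
    rcases Nat.eq_zero_or_pos i with rfl | hi
    · rw [hasseDeriv_zero, LinearMap.id_apply]
      by_cases hnN : n ≤ N
      · have h1 : N + 1 - n = (N - n) + 1 := by omega
        have h2 : j = n := by omega
        rw [h1, pow_succ', h2]
        exact mul_dvd_mul_left f (ih h n hnN)
      · have h1 : N + 1 - n = 0 := by omega
        rw [h1, pow_zero]
        exact one_dvd _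
    · have h1 : f ^ (N + 1 - n) ∣ f ^ (N - j) := pow_dvd_pow f (by omega)
      exact Dvd.dvd.mul_left (h1.trans (ih h j (by omega))) _

theorem tPeHas : StmtPeHas.{u} := by
  intro k _ _
  refine ⟨?_, fun f h N n hn => pehas_two f N h n hn, ?_, ?_⟩
  · intro h j n hn
    induction j with
    | zero => simp
    | succ j ih =>
      rw [add_mul, one_mul, pow_add, ← mul_assoc, pehas_one _ _ hn, ih, mul_assoc]
  · intro r x ℓ h
    rw [X_sub_C_pow_dvd_iff, X_pow_dvd_iff]
    intro d hd
    rw [← taylor_apply, taylor_coeff]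
    exact h d hd
  · intro r S ℓ hr h
    have h1 : (∏ x ∈ S, (X - C x) ^ ℓ) ∣ r := by
      refine Finset.prod_dvd_of_coprime ?_ h
      intro x _ y _ hxy
      exact (isCoprime_X_sub_C_of_isUnit_sub (sub_ne_zero.mpr hxy).isUnit).pow
    have h2 := natDegree_le_of_dvd h1 hr
    rw [natDegree_prod_of_monic _ _ fun x _ => (monic_X_sub_C x).pow ℓ] at h2
    simp only [natDegree_pow, natDegree_X_sub_C, mul_one, Finset.sum_const, smul_eq_mul] at h2
    exact h2

end MP72e2e6
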