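import Pool.Agent.Lib.MP_72e2e6_nt.PeStmt

/-!
# MP_72e2e6_nt: quadratic twists, the auxiliary polynomial of Stepanov
-/

set_option autoImplicit false

namespace MP72e2e6

open Polynomial

universe u

section

variable {k : Type u} [Field k]

theorem peste_deg {A : ℕ} (hA : 1 ≤ A) {r : k[X]} (h : r.degree < A) : r.natDegree ≤ A - 1 := by
  by_cases hr : r = 0
  · rw [hr, natDegree_zero]
    exact Nat.zero_le _
  · have h1 := (natDegree_lt_iff_degree_lt hr).2 h
    omega

/-- The polynomials `P n`. -/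
noncomputable def peste_P (f : k[X]) (c ℓ J A : ℕ) (x : k) (n : ℕ) :
    ((Fin J → degreeLT k A) × (Fin J → degreeLT k A)) →ₗ[k] k[X] where
  toFun e := ∑ j : Fin J, X ^ (j : ℕ) * (f ^ c * hasseDeriv n (f ^ ℓ * (e.1 j : k[X])) +
    C x * hasseDeriv n (f ^ (ℓ + c) * (e.2 j : k[X])))
  map_add' e e' := by
    rw [← Finset.sum_add_distrib]
    refine Finset.sum_congr rfl fun j _ => ?_
    have h1 : ((e + e').1 j : k[X]) = (e.1 j : k[X]) + (e'.1 j : k[X]) := rfl
    have h2 : ((e + e').2 j : k[X]) = (e.2 j : k[X]) + (e'.2 j : k[X]) := rfl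
    rw [h1, h2, mul_add (f ^ ℓ), mul_add (f ^ (ℓ + c)), map_add, map_add]
    ring
  map_smul' a e := by
    rw [RingHom.id_apply, Finset.smul_sum]
    refine Finset.sum_congr rfl fun j _ => ?_
    have h1 : ((a • e).1 j : k[X]) = a • (e.1 j : k[X]) := rfl
    have h2 : ((a • e).2 j : k[X]) = a • (e.2 j : k[X]) := rfl
    rw [h1, h2, mul_smul_comm, mul_smul_comm, map_smul, map_smul, mul_smul_comm, mul_smul_comm,
      ← smul_add, mul_smul_comm]

theorem peste_P_apply (f : k[X]) (c ℓ J A : ℕ) (x : k) (n : ℕ)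
    (e : (Fin J → degreeLT k A) × (Fin J → degreeLT k A)) :
    peste_P f c ℓ J A x n e = ∑ j : Fin J, X ^ (j : ℕ) *
      (f ^ c * hasseDeriv n (f ^ ℓ * (e.1 j : k[X])) +
        C x * hasseDeriv n (f ^ (ℓ + c) * (e.2 j : k[X]))) := rfl

theorem peste_hasse_deg (g : k[X]) (n D : ℕ) (h : g.natDegree ≤ D) :
    (hasseDeriv n g).natDegree ≤ D :=
  (natDegree_hasseDeriv_le g n).trans ((Nat.sub_le _ _).trans h)

theorem peste_mem (h2 : ∀ (f h : k[X]) (N n : ℕ), n ≤ N → f ^ (N - n) ∣ hasseDeriv n (f ^ N * h))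
    {f : k[X]} (hf : f.Monic) {c ℓ J A : ℕ} (hA : 1 ≤ A) (x : k) {n : ℕ} (hn : n < ℓ)
    (e : (Fin J → degreeLT k A) × (Fin J → degreeLT k A)) :
    peste_P f c ℓ J A x n e ∈ (degreeLT k (A + ℓ * f.natDegree + J)).map
      (LinearMap.mulLeft k (f ^ (ℓ + c - n))) := by
  set m := f.natDegree with hm
  have hdvd : f ^ (ℓ + c - n) ∣ peste_P f c ℓ J A x n e := by
    rw [peste_P_apply]
    refine Finset.dvd_sum fun j _ => Dvd.dvd.mul_left (dvd_add ?_ ?_) _
    · have h3 := h2 f (e.1 j : k[X]) ℓ n hn.le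
      have h4 : ℓ + c - n = c + (ℓ - n) := by omega
      rw [h4, pow_add]
      exact mul_dvd_mul_left _ h3
    · exact Dvd.dvd.mul_left (h2 f (e.2 j : k[X]) (ℓ + c) n (by omega)) _
  have hdeg : (peste_P f c ℓ J A x n e).natDegree ≤ (J - 1) + ((ℓ + c) * m + (A - 1)) := by
    rw [peste_P_apply]
    refine natDegree_sum_le_of_forall_le _ _ fun j _ => ?_
    have hr : ((e.1 j : k[X])).natDegree ≤ A - 1 := peste_deg hA (mem_degreeLT.1 (e.1 j).2)
    have hs : ((e.2 j : k[X])).natDegree ≤ A - 1 := peste_deg hA (mem_degreeLT.1 (e.2 j).2)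
    have h3 : (hasseDeriv n (f ^ ℓ * (e.1 j : k[X]))).natDegree ≤ ℓ * m + (A - 1) :=
      peste_hasse_deg _ _ _ (natDegree_mul_le.trans (add_le_add natDegree_pow_le hr))
    have h4 : (hasseDeriv n (f ^ (ℓ + c) * (e.2 j : k[X]))).natDegree ≤
        (ℓ + c) * m + (A - 1) :=
      peste_hasse_deg _ _ _ (natDegree_mul_le.trans (add_le_add natDegree_pow_le hs))
    have h5 : (f ^ c * hasseDeriv n (f ^ ℓ * (e.1 j : k[X]))).natDegree ≤
        (ℓ + c) * m + (A - 1) := by
      refine (natDegree_mul_le.trans (add_le_add natDegree_pow_le h3)).trans (le_of_eq ?_)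
      ring
    have h6 : (C x * hasseDeriv n (f ^ (ℓ + c) * (e.2 j : k[X]))).natDegree ≤
        (ℓ + c) * m + (A - 1) := (natDegree_C_mul_le _ _).trans h4
    refine natDegree_mul_le.trans (add_le_add ((natDegree_X_pow_le _).trans ?_)
      (natDegree_add_le_of_degree_le h5 h6))
    have := j.2
    omega
  obtain ⟨σ, hσ⟩ := hdvd
  rw [Submodule.mem_map]
  by_cases h0 : σ = 0
  · refine ⟨0, Submodule.zero_mem _, ?_⟩
    rw [hσ, h0, map_zero, mul_zero]
  · refine ⟨σ, ?_, hσ.symm⟩
    rw [mem_degreeLT, ← natDegree_lt_iff_degree_lt h0]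
    have h3 : (peste_P f c ℓ J A x n e).natDegree = (ℓ + c - n) * m + σ.natDegree := by
      rw [hσ, (hf.pow _).natDegree_mul' h0, hf.natDegree_pow]
    rw [h3] at hdeg
    obtain ⟨t, rfl⟩ : ∃ t, ℓ = n + t := ⟨ℓ - n, by omega⟩
    have h4 : n + t + c - n = t + c := by omega
    rw [h4] at hdeg
    have h5 : (n + t + c) * m = (t + c) * m + n * m := by ring
    have h6 : (n + t) * m = n * m + t * m := by ring
    rw [h5] at hdeg
    rw [h6]
    generalize (t + c) * m = a at *
    generalize n * m = b at *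
    generalize t * m = d at *
    by_cases hJ : J = 0
    · subst hJ
      omega
    · omega

theorem peste_finrank (N : ℕ) : Module.finrank k (degreeLT k N) = N := by
  rw [(degreeLTEquiv k N).finrank_eq, Module.finrank_fin_fun]

theorem peste_exists
    (h2 : ∀ (f h : k[X]) (N n : ℕ), n ≤ N → f ^ (N - n) ∣ hasseDeriv n (f ^ N * h))
    {f : k[X]} (hf : f.Monic) {c ℓ J A : ℕ} (hA : 1 ≤ A) (x : k)
    (hlt : ℓ * (A + ℓ * f.natDegree + J) < 2 * A * J) :
    ∃ e : (Fin J → degreeLT k A) × (Fin J → degreeLT k A), e ≠ 0 ∧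
      ∀ n, n < ℓ → peste_P f c ℓ J A x n e = 0 := by
  classical
  have hfd : ∀ N, FiniteDimensional k (degreeLT k N) := fun N =>
    LinearEquiv.finiteDimensional (degreeLTEquiv k N).symm
  let M : Fin ℓ → Submodule k k[X] := fun n =>
    (degreeLT k (A + ℓ * f.natDegree + J)).map (LinearMap.mulLeft k (f ^ (ℓ + c - n)))
  have hfM : ∀ n, FiniteDimensional k (M n) := fun n => by
    have := hfd (A + ℓ * f.natDegree + J)
    infer_instance
  let Φ : ((Fin J → degreeLT k A) × (Fin J → degreeLT k A)) →ₗ[k] (∀ n, M n) :=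
    LinearMap.pi fun n => (peste_P f c ℓ J A x n).codRestrict (M n)
      fun e => peste_mem h2 hf hA x n.2 e
  have h3 : Module.finrank k (∀ n, M n) ≤ ℓ * (A + ℓ * f.natDegree + J) := by
    rw [Module.finrank_pi_fintype]
    have h4 : ∀ n ∈ (Finset.univ : Finset (Fin ℓ)), Module.finrank k (M n) ≤
        A + ℓ * f.natDegree + J := by
      intro n _
      have := hfd (A + ℓ * f.natDegree + J)
      exact (Submodule.finrank_map_le _ _).trans (le_of_eq (peste_finrank _))
    refine (Finset.sum_le_sum h4).trans ?_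
    rw [Finset.sum_const, Finset.card_univ, Fintype.card_fin, smul_eq_mul]
  have h5 : Module.finrank k ((Fin J → degreeLT k A) × (Fin J → degreeLT k A)) =
      2 * A * J := by
    have := hfd A
    rw [Module.finrank_prod, Module.finrank_pi_fintype]
    simp only [peste_finrank, Finset.sum_const, Finset.card_univ, Fintype.card_fin, smul_eq_mul]
    ring
  have h6 : Module.finrank k (∀ n, M n) <
      Module.finrank k ((Fin J → degreeLT k A) × (Fin J → degreeLT k A)) := by
    rw [h5]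
    exact h3.trans_lt hlt
  have := hfd A
  obtain ⟨e, he, he0⟩ := (Submodule.ne_bot_iff _).1 (Φ.ker_ne_bot_of_finrank_lt h6)
  refine ⟨e, he0, fun n hn => ?_⟩
  have h7 : Φ e = 0 := he
  have h8 := congrFun h7 ⟨n, hn⟩
  exact congrArg Subtype.val h8

end

theorem tPeSte (h1 : StmtPeHas.{u}) (h2 : StmtPeNon.{u}) : StmtPeSte.{u} := by
  classical
  intro k _ _ c hc f hf hsq hf0 A J ℓ hA2 hℓ1 hℓQ hlt x hx
  obtain ⟨hh1, hh2, hh3, hh4⟩ := h1 k
  set Q := Nat.card k with hQ
  set m := f.natDegree with hm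
  have hA : 1 ≤ A := by
    rcases Nat.eq_zero_or_pos A with h | h
    · rw [h, mul_zero, zero_mul] at hlt
      omega
    · exact h
  obtain ⟨e, he0, he⟩ := peste_exists hh2 hf (c := c) hA x hlt
  let r : ℕ → k[X] := fun j => if h : j < J then (e.1 ⟨j, h⟩ : k[X]) else 0
  let s : ℕ → k[X] := fun j => if h : j < J then (e.2 ⟨j, h⟩ : k[X]) else 0
  have hr : ∀ j (h : j < J), r j = (e.1 ⟨j, h⟩ : k[X]) := fun j h => dif_pos h
  have hs : ∀ j (h : j < J), s j = (e.2 ⟨j, h⟩ : k[X]) := fun j h => dif_pos h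
  have hrd : ∀ j, j < J → (r j).degree < A ∧ (s j).degree < A := by
    intro j hj
    rw [hr j hj, hs j hj]
    exact ⟨mem_degreeLT.1 (e.1 ⟨j, hj⟩).2, mem_degreeLT.1 (e.2 ⟨j, hj⟩).2⟩
  set G : k[X] := ∑ j ∈ Finset.range J, (r j + s j * f ^ c) * X ^ (j * Q) with hG
  have hG0 : G ≠ 0 := by
    intro h
    have h3 := h2 k c hc f hsq hf0 A J hA2 r s hrd h
    apply he0
    refine Prod.ext (funext fun j => Subtype.ext ?_) (funext fun j => Subtype.ext ?_)
    · exact (hr j.1 j.2).symm.trans (h3 j.1 j.2).1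
    · exact (hs j.1 j.2).symm.trans (h3 j.1 j.2).2
  set R : k[X] := f ^ ℓ * G with hR
  have hR0 : R ≠ 0 := mul_ne_zero (pow_ne_zero _ hf.ne_zero) hG0
  have hRsum : R = ∑ j ∈ Finset.range J, (f ^ ℓ * r j + f ^ (ℓ + c) * s j) * X ^ (j * Q) := by
    rw [hR, hG, Finset.mul_sum]
    refine Finset.sum_congr rfl fun j _ => ?_
    rw [pow_add]
    ring
  have hvan : ∀ y ∈ (Finset.univ.filter fun y : k => f.eval y ^ c = x), ∀ n, n < ℓ →
      (hasseDeriv n R).eval y = 0 := by
    intro y hy n hn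
    have hy' : f.eval y ^ c = x := (Finset.mem_filter.1 hy).2
    have h3 : hasseDeriv n R = ∑ j ∈ Finset.range J,
        (hasseDeriv n (f ^ ℓ * r j) + hasseDeriv n (f ^ (ℓ + c) * s j)) * X ^ (j * Q) := by
      rw [hRsum, map_sum]
      refine Finset.sum_congr rfl fun j _ => ?_
      rw [hh1 _ j n (hn.trans_le hℓQ), map_add]
    have hpow : ∀ j : ℕ, y ^ (j * Q) = y ^ j := by
      intro j
      rw [mul_comm, pow_mul, hQ, Nat.card_eq_fintype_card, FiniteField.pow_card]
    have h4 : (peste_P f c ℓ J A x n e).eval y = x * (hasseDeriv n R).eval y := by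
      rw [h3, peste_P_apply, eval_finsetSum, eval_finsetSum, Finset.sum_range, Finset.mul_sum]
      refine Finset.sum_congr rfl fun j _ => ?_
      rw [hr j.1 j.2, hs j.1 j.2]
      simp only [eval_mul, eval_add, eval_pow, eval_X, eval_C, hpow, hy']
      ring
    rw [he n hn, eval_zero] at h4
    exact (mul_eq_zero.1 h4.symm).resolve_left hx
  have hfin := hh4 R (Finset.univ.filter fun y : k => f.eval y ^ c = x) ℓ hR0
    fun y hy => hh3 R y ℓ (hvan y hy)
  refine hfin.trans ?_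
  have hGd : G.natDegree ≤ A + c * m + J * Q := by
    refine natDegree_sum_le_of_forall_le _ _ fun j hj => ?_
    have hj' : j < J := Finset.mem_range.1 hj
    have h3 : (r j).natDegree ≤ A := (peste_deg hA (hrd j hj').1).trans (Nat.sub_le _ _)
    have h4 : (s j).natDegree ≤ A := (peste_deg hA (hrd j hj').2).trans (Nat.sub_le _ _)
    have h5 : (s j * f ^ c).natDegree ≤ A + c * m :=
      natDegree_mul_le.trans (add_le_add h4 natDegree_pow_le)
    refine natDegree_mul_le.trans (add_le_add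
      (natDegree_add_le_of_degree_le (h3.trans (Nat.le_add_right _ _)) h5)
      ((natDegree_X_pow_le _).trans (Nat.mul_le_mul_right _ hj'.le)))
  calc R.natDegree ≤ ℓ * m + (A + c * m + J * Q) :=
        natDegree_mul_le.trans (add_le_add natDegree_pow_le hGd)
    _ = ℓ * m + A + c * m + J * Q := by ring

end MP72e2e6
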