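import Pool.Agent.Lib.MP_72e2e6_nt.SuStmt

/-!
# MP_72e2e6_nt: counting multiples (SuMon)
-/

namespace MP72e2e6

open Polynomial IsDedekindDomain

universe u

theorem tSuMon : StmtSuMon.{u} := by
  intro F _ _ k n d hd hk f
  classical
  rw [← Finset.sum_filter]
  symm
  obtain ⟨hd1, hd2⟩ := mem_mon.1 hd
  refine Finset.sum_bij (fun e _ => d * e) ?_ ?_ ?_ ?_
  · intro e he
    obtain ⟨he1, he2⟩ := mem_mon.1 he
    rw [Finset.mem_filter, mem_mon]
    refine ⟨⟨hd1.mul he1, ?_⟩, dvd_mul_right _ _⟩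
    rw [hd1.natDegree_mul he1]
    omega
  · intro e _ e' _ h
    exact mul_left_cancel₀ hd1.ne_zero h
  · intro h hh
    obtain ⟨hh1, e, rfl⟩ := Finset.mem_filter.1 hh
    obtain ⟨hh2, hh3⟩ := mem_mon.1 hh1
    have he1 : e.Monic := hd1.of_mul_monic_left hh2
    rw [hd1.natDegree_mul he1] at hh3
    exact ⟨e, mem_mon.2 ⟨he1, by omega⟩, rfl⟩
  · intro e _
    rfl

end MP72e2e6
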