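import Pool.Agent.Lib.MP_72e2e6_nt.TwStmt

/-!
# MP_72e2e6_nt: the sum over prime powers
-/

namespace MP72e2e6

open Polynomial

universe u

theorem twpsi_mem_irr {F : Type u} [Field F] [Finite F] {n : ℕ} {P : F[X]} :
    P ∈ irr F n ↔ (P.Monic ∧ P.natDegree = n) ∧ Irreducible P := by
  classical
  rw [irr, Finset.mem_filter, mem_mon]

/-- Exchange of the order of summation. -/
theorem twpsi_sum_divisors (N : ℕ) (f : ℕ → ℕ → ℤ) :
    ∑ k ∈ Finset.Icc 1 N, ∑ d ∈ k.divisors, f d (k / d) =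
      ∑ d ∈ Finset.Icc 1 N, ∑ j ∈ Finset.Icc 1 (N / d), f d j := by
  rw [Finset.sum_sigma', Finset.sum_sigma']
  refine Finset.sum_bij' (fun x _ => ⟨x.2, x.1 / x.2⟩) (fun x _ => ⟨x.1 * x.2, x.1⟩) ?_ ?_ ?_ ?_ ?_
  · rintro ⟨k, d⟩ h
    rw [Finset.mem_sigma, Finset.mem_Icc, Nat.mem_divisors] at h
    dsimp only at h ⊢
    obtain ⟨⟨h1, h2⟩, ⟨c, rfl⟩, h4⟩ := h
    have hd : 0 < d := Nat.pos_of_ne_zero (fun h0 => h4 (by rw [h0, zero_mul]))
    have hc : 0 < c := Nat.pos_of_ne_zero (fun h0 => h4 (by rw [h0, mul_zero]))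
    rw [Finset.mem_sigma, Finset.mem_Icc, Finset.mem_Icc]
    dsimp only
    rw [Nat.mul_div_cancel_left _ hd]
    refine ⟨⟨hd, le_trans (Nat.le_mul_of_pos_right d hc) h2⟩, hc, ?_⟩
    rw [Nat.le_div_iff_mul_le hd, mul_comm]
    exact h2
  · rintro ⟨d, j⟩ h
    rw [Finset.mem_sigma, Finset.mem_Icc, Finset.mem_Icc] at h
    dsimp only at h ⊢
    obtain ⟨⟨h1, h2⟩, h3, h4⟩ := h
    rw [Finset.mem_sigma, Finset.mem_Icc, Nat.mem_divisors]
    dsimp only
    rw [Nat.le_div_iff_mul_le h1, mul_comm] at h4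
    have hp : 0 < d * j := Nat.mul_pos h1 h3
    exact ⟨⟨hp, h4⟩, Dvd.intro j rfl, hp.ne'⟩
  · rintro ⟨k, d⟩ h
    rw [Finset.mem_sigma, Finset.mem_Icc, Nat.mem_divisors] at h
    dsimp only at h ⊢
    rw [Nat.mul_div_cancel' h.2.1]
  · rintro ⟨d, j⟩ h
    rw [Finset.mem_sigma, Finset.mem_Icc, Finset.mem_Icc] at h
    dsimp only at h ⊢
    rw [Nat.mul_div_cancel_left _ h.1.1]
  · rintro ⟨k, d⟩ h
    rfl

theorem twpsi_fin {F : Type u} [Field F] {P h : F[X]} (hP : Irreducible P) (hh : h ≠ 0) :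
    FiniteMultiplicity P h := FiniteMultiplicity.of_not_isUnit hP.not_isUnit hh

/-- The degree is the sum of the degrees of the prime factors with multiplicity. -/
theorem twpsi_deg {F : Type u} [Field F] [Finite F] (N : ℕ) (h : F[X]) (hm : h.Monic)
    (hN : h.natDegree ≤ N) :
    (h.natDegree : ℤ) = ∑ d ∈ Finset.Icc 1 N, ∑ P ∈ irr F d, (d : ℤ) * multiplicity P h := by
  classical
  obtain ⟨n, hn⟩ : ∃ n, h.natDegree = n := ⟨_, rfl⟩
  induction n using Nat.strong_induction_on generalizing h with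
  | _ n ih =>
    by_cases h0 : n = 0
    · have h1 : h = 1 := hm.natDegree_eq_zero.mp (hn.trans h0)
      rw [h1, natDegree_one, Nat.cast_zero]
      refine (Finset.sum_eq_zero (fun d _ => Finset.sum_eq_zero (fun P hP => ?_))).symm
      rw [multiplicity_of_one_right (twpsi_mem_irr.mp hP).2.not_isUnit, Nat.cast_zero, mul_zero]
    · have hu : ¬ IsUnit h := by
        intro hu
        exact h0 (by rw [← hn]; exact natDegree_eq_zero_of_isUnit hu)
      obtain ⟨P₀, hP₀m, hP₀, g, hg⟩ := exists_monic_irreducible_factor h hu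
      have hgm : g.Monic := hP₀m.of_mul_monic_left (hg ▸ hm)
      have hdeg : h.natDegree = P₀.natDegree + g.natDegree := by
        rw [hg, hP₀m.natDegree_mul hgm]
      have hpos : 0 < P₀.natDegree := hP₀.natDegree_pos
      have h2 := ih g.natDegree (by omega) g hgm (by omega) rfl
      have h3 : (P₀.natDegree : ℤ) = ∑ d ∈ Finset.Icc 1 N, ∑ P ∈ irr F d,
          (d : ℤ) * multiplicity P P₀ := by
        rw [Finset.sum_eq_single P₀.natDegree]
        · rw [Finset.sum_eq_single P₀]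
          · have h4 : multiplicity P₀ P₀ = 1 := by
              rw [(twpsi_fin hP₀ hP₀m.ne_zero).multiplicity_eq_iff, pow_one]
              refine ⟨dvd_rfl, fun h5 => hP₀.not_isUnit (isUnit_of_dvd_one ?_)⟩
              rw [pow_succ, pow_one] at h5
              exact (mul_dvd_mul_iff_left hP₀m.ne_zero).mp (by rwa [mul_one])
            rw [h4, Nat.cast_one, mul_one]
          · intro P hP hne
            have hP' := twpsi_mem_irr.mp hP
            have h4 : multiplicity P P₀ = 0 := by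
              rw [multiplicity_eq_zero, hP'.2.dvd_irreducible_iff_associated hP₀]
              intro ha
              exact hne (eq_of_monic_of_associated hP'.1.1 hP₀m ha)
            rw [h4, Nat.cast_zero, mul_zero]
          · intro hnot
            exact absurd (twpsi_mem_irr.mpr ⟨⟨hP₀m, rfl⟩, hP₀⟩) hnot
        · intro d _ hd
          refine Finset.sum_eq_zero (fun P hP => ?_)
          have hP' := twpsi_mem_irr.mp hP
          have h4 : multiplicity P P₀ = 0 := by
            rw [multiplicity_eq_zero, hP'.2.dvd_irreducible_iff_associated hP₀]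
            intro ha
            exact hd (by rw [← hP'.1.2, eq_of_monic_of_associated hP'.1.1 hP₀m ha])
          rw [h4, Nat.cast_zero, mul_zero]
        · intro hnot
          exact absurd (Finset.mem_Icc.mpr ⟨hpos, by omega⟩) hnot
      rw [hdeg, Nat.cast_add, h2, h3, ← Finset.sum_add_distrib]
      refine Finset.sum_congr rfl (fun d _ => ?_)
      rw [← Finset.sum_add_distrib]
      refine Finset.sum_congr rfl (fun P hP => ?_)
      have hP' := twpsi_mem_irr.mp hP
      have h5 : multiplicity P h = multiplicity P P₀ + multiplicity P g := by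
        have h6 := twpsi_fin hP'.2 hm.ne_zero
        rw [hg] at h6 ⊢
        exact multiplicity_mul hP'.2.prime h6
      rw [h5, Nat.cast_add, mul_add]

/-- The multiplicity counts the powers dividing `h`. -/
theorem twpsi_mult {F : Type u} [Field F] {P h : F[X]} (hP : Irreducible P) (hh : h ≠ 0)
    (M : ℕ) (hM : multiplicity P h ≤ M) [DecidablePred fun j => P ^ j ∣ h] :
    (multiplicity P h : ℤ) = ∑ j ∈ Finset.Icc 1 M, if P ^ j ∣ h then (1 : ℤ) else 0 := by
  rw [Finset.sum_boole]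
  congr 1
  have h1 : Finset.filter (fun j => P ^ j ∣ h) (Finset.Icc 1 M) =
      Finset.Icc 1 (multiplicity P h) := by
    ext j
    rw [Finset.mem_filter, Finset.mem_Icc, Finset.mem_Icc,
      (twpsi_fin hP hh).pow_dvd_iff_le_multiplicity]
    constructor
    · rintro ⟨⟨a, b⟩, c⟩
      exact ⟨a, c⟩
    · rintro ⟨a, b⟩
      exact ⟨⟨a, b.trans hM⟩, b⟩
  rw [h1, Nat.card_Icc]
  omega

open Classical in
theorem twpsi_key {F : Type u} [Field F] [Finite F] (h : F[X]) (hm : h.Monic) :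
    (h.natDegree : ℤ) = ∑ k ∈ Finset.Icc 1 h.natDegree, ∑ d ∈ k.divisors, ∑ P ∈ irr F d,
      (d : ℤ) * (if P ^ (k / d) ∣ h then 1 else 0) := by
  rw [twpsi_sum_divisors h.natDegree
    (fun d j => ∑ P ∈ irr F d, (d : ℤ) * (if P ^ j ∣ h then 1 else 0))]
  conv_lhs => rw [twpsi_deg h.natDegree h hm le_rfl]
  refine Finset.sum_congr rfl (fun d hd => ?_)
  rw [Finset.sum_comm]
  refine Finset.sum_congr rfl (fun P hP => ?_)
  have hP' := twpsi_mem_irr.mp hP
  have hd0 : 0 < d := (Finset.mem_Icc.mp hd).1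
  rw [← Finset.mul_sum, ← twpsi_mult hP'.2 hm.ne_zero]
  rw [Nat.le_div_iff_mul_le hd0]
  obtain ⟨g, hg⟩ := pow_multiplicity_dvd P h
  have hPm := hP'.1.1.pow (multiplicity P h)
  have hgm : g.Monic := hPm.of_mul_monic_left (hg ▸ hm)
  have h1 : h.natDegree = multiplicity P h * d + g.natDegree := by
    conv_lhs => rw [hg]
    rw [hPm.natDegree_mul hgm, hP'.1.1.natDegree_pow, hP'.1.2]
  omega

theorem twpsi_one {F : Type u} [Field F] [Finite F] (hMon : StmtTwMon.{u}) {χ : F[X] → ℤ}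
    (hχ : IsChar χ) (n : ℕ) :
    (n : ℤ) * av χ n = ∑ k ∈ Finset.Icc 1 n, psi χ k * av χ (n - k) := by
  classical
  have h1 : (n : ℤ) * av χ n = ∑ h ∈ mon F n, ∑ k ∈ Finset.Icc 1 n, ∑ d ∈ k.divisors,
      ∑ P ∈ irr F d, (d : ℤ) * (if P ^ (k / d) ∣ h then χ h else 0) := by
    rw [av, Finset.mul_sum]
    refine Finset.sum_congr rfl (fun h hh => ?_)
    obtain ⟨hm, hn⟩ := mem_mon.mp hh
    conv_lhs => rw [← hn, twpsi_key h hm, hn]
    rw [Finset.sum_mul]
    refine Finset.sum_congr rfl (fun k _ => ?_)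
    rw [Finset.sum_mul]
    refine Finset.sum_congr rfl (fun d _ => ?_)
    rw [Finset.sum_mul]
    refine Finset.sum_congr rfl (fun P _ => ?_)
    split_ifs <;> ring
  rw [h1, Finset.sum_comm]
  refine Finset.sum_congr rfl (fun k hk => ?_)
  rw [Finset.mem_Icc] at hk
  rw [Finset.sum_comm, psi, Finset.sum_mul]
  refine Finset.sum_congr rfl (fun d hd => ?_)
  rw [Finset.sum_comm, Finset.sum_mul]
  refine Finset.sum_congr rfl (fun P hP => ?_)
  have hP' := twpsi_mem_irr.mp hP
  rw [Nat.mem_divisors] at hd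
  have hPk : P ^ (k / d) ∈ mon F k := by
    rw [mem_mon]
    refine ⟨hP'.1.1.pow _, ?_⟩
    rw [hP'.1.1.natDegree_pow, hP'.1.2, Nat.div_mul_cancel hd.1]
  rw [← Finset.mul_sum]
  have h2 := ((hMon F).2 k n _ hPk).1 hk.2 χ
  have h3 : ∑ e ∈ mon F (n - k), χ (P ^ (k / d) * e) = χ P ^ (k / d) * av χ (n - k) := by
    rw [av, Finset.mul_sum]
    refine Finset.sum_congr rfl (fun e he => ?_)
    rw [hχ.mul _ _ (hP'.1.1.pow _) (mem_mon.mp he).1]
    congr 1
    generalize k / d = j
    induction j with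
    | zero => rw [pow_zero, pow_zero, hχ.one]
    | succ j ih => rw [pow_succ, pow_succ, hχ.mul _ _ (hP'.1.1.pow _) hP'.1.1, ih]
  rw [h3] at h2
  rw [mul_assoc, ← h2]

theorem twpsi_isChar_one (F : Type u) [Field F] : IsChar (fun _ : F[X] => (1 : ℤ)) :=
  ⟨rfl, fun _ _ _ _ => (one_mul 1).symm, fun _ => Or.inr (Or.inl rfl)⟩

theorem twpsi_two {F : Type u} [Field F] [Finite F] (hMon : StmtTwMon.{u}) (k : ℕ) (hk : 1 ≤ k) :
    psi (fun _ : F[X] => (1 : ℤ)) k = (Nat.card F : ℤ) ^ k := by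
  have hav : ∀ n, av (fun _ : F[X] => (1 : ℤ)) n = (Nat.card F : ℤ) ^ n := by
    intro n
    rw [av, Finset.sum_const, (hMon F).1 n, nsmul_eq_mul, mul_one, Nat.cast_pow]
  induction k using Nat.strong_induction_on with
  | _ k ih =>
    have h1 := twpsi_one hMon (twpsi_isChar_one F) k
    obtain ⟨m, rfl⟩ : ∃ m, k = m + 1 := ⟨k - 1, by omega⟩
    rw [hav, Finset.sum_Icc_succ_top (by omega), Nat.sub_self, hav 0, pow_zero, mul_one] at h1
    have h2 : ∑ j ∈ Finset.Icc 1 m, psi (fun _ : F[X] => (1 : ℤ)) j *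
        av (fun _ : F[X] => (1 : ℤ)) (m + 1 - j) = (m : ℤ) * (Nat.card F : ℤ) ^ (m + 1) := by
      have h3 : ∀ j ∈ Finset.Icc 1 m, psi (fun _ : F[X] => (1 : ℤ)) j *
          av (fun _ : F[X] => (1 : ℤ)) (m + 1 - j) = (Nat.card F : ℤ) ^ (m + 1) := by
        intro j hj
        rw [Finset.mem_Icc] at hj
        rw [ih j (by omega) hj.1, hav, ← pow_add]
        congr 1
        omega
      rw [Finset.sum_congr rfl h3, Finset.sum_const, Nat.card_Icc, nsmul_eq_mul,
        Nat.add_sub_cancel]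
    rw [h2] at h1
    push_cast at h1
    linarith

theorem tTwPsi (hMon : StmtTwMon.{u}) : StmtTwPsi.{u} := by
  intro F _ _
  refine ⟨fun χ hχ n => twpsi_one hMon hχ n, twpsi_two hMon, ?_, ?_⟩
  · intro χ hχ k hk
    rw [← twpsi_two hMon k hk, psi, psi]
    refine (Finset.abs_sum_le_sum_abs _ _).trans (Finset.sum_le_sum (fun d _ => ?_))
    refine (Finset.abs_sum_le_sum_abs _ _).trans (Finset.sum_le_sum (fun P _ => ?_))
    rw [abs_mul, abs_pow, Nat.abs_cast]
    refine mul_le_mul_of_nonneg_left ?_ (Nat.cast_nonneg _)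
    refine pow_le_pow_left₀ (abs_nonneg _) ?_ _
    rcases hχ.val P with h | h | h <;> rw [h] <;> norm_num
  · intro k hk
    rw [← twpsi_two hMon k hk, psi, psi, Finset.mul_sum]
    refine Finset.sum_congr rfl (fun d hd => ?_)
    rw [Finset.mul_sum]
    refine Finset.sum_congr rfl (fun P hP => ?_)
    have hP' := twpsi_mem_irr.mp hP
    rw [Nat.mem_divisors] at hd
    rw [hP'.1.2, ← pow_mul, Nat.mul_div_cancel' hd.1, one_pow]
    ring

end MP72e2e6
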