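import Pool.Agent.Lib.MP_72e2e6_nt.SuStmt
import Pool.Agent.Lib.MP_72e2e6_nt.TwPsi

/-!
# MP_72e2e6_nt: the sum over prime powers, complex values (SuPsi)
-/

namespace MP72e2e6

open Polynomial IsDedekindDomain

universe u

open Classical in
theorem supsi_key {F : Type u} [Field F] [Finite F] (h : F[X]) (hm : h.Monic) :
    (h.natDegree : ℂ) = ∑ k ∈ Finset.Icc 1 h.natDegree, ∑ d ∈ k.divisors, ∑ P ∈ irr F d,
      (d : ℂ) * (if P ^ (k / d) ∣ h then 1 else 0) := by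
  have h1 := congrArg (fun z : ℤ => (z : ℂ)) (twpsi_key h hm)
  rw [Int.cast_natCast] at h1
  rw [h1, Int.cast_sum]
  refine Finset.sum_congr rfl fun k _ => ?_
  rw [Int.cast_sum]
  refine Finset.sum_congr rfl fun d _ => ?_
  rw [Int.cast_sum]
  refine Finset.sum_congr rfl fun P _ => ?_
  rw [Int.cast_mul, Int.cast_natCast]
  congr 1
  split_ifs <;> simp

theorem supsi_one {F : Type u} [Field F] [Finite F] (hMon : StmtSuMon.{u}) {ℓ : ℕ}
    {φ : F[X] → ℂ} (hφ : IsChL ℓ φ) (n : ℕ) :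
    (n : ℂ) * avC φ n = ∑ k ∈ Finset.Icc 1 n, psiC φ k * avC φ (n - k) := by
  classical
  have h1 : (n : ℂ) * avC φ n = ∑ h ∈ mon F n, ∑ k ∈ Finset.Icc 1 n, ∑ d ∈ k.divisors,
      ∑ P ∈ irr F d, (d : ℂ) * (if P ^ (k / d) ∣ h then φ h else 0) := by
    rw [avC, Finset.mul_sum]
    refine Finset.sum_congr rfl (fun h hh => ?_)
    obtain ⟨hm, hn⟩ := mem_mon.mp hh
    conv_lhs => rw [← hn, supsi_key h hm, hn]
    rw [Finset.sum_mul]
    refine Finset.sum_congr rfl (fun k _ => ?_)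
    rw [Finset.sum_mul]
    refine Finset.sum_congr rfl (fun d _ => ?_)
    rw [Finset.sum_mul]
    refine Finset.sum_congr rfl (fun P _ => ?_)
    split_ifs <;> ring
  rw [h1, Finset.sum_comm]
  refine Finset.sum_congr rfl (fun k hk => ?_)
  rw [Finset.mem_Icc] at hk
  rw [Finset.sum_comm, psiC, Finset.sum_mul]
  refine Finset.sum_congr rfl (fun d hd => ?_)
  rw [Finset.sum_comm, Finset.sum_mul]
  refine Finset.sum_congr rfl (fun P hP => ?_)
  have hP' := twpsi_mem_irr.mp hP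
  rw [Nat.mem_divisors] at hd
  have hPk : P ^ (k / d) ∈ mon F k := by
    rw [mem_mon]
    refine ⟨hP'.1.1.pow _, ?_⟩
    rw [hP'.1.1.natDegree_pow, hP'.1.2, Nat.div_mul_cancel hd.1]
  rw [← Finset.mul_sum]
  have h2 := hMon F k n _ hPk hk.2 φ
  have h3 : ∑ e ∈ mon F (n - k), φ (P ^ (k / d) * e) = φ P ^ (k / d) * avC φ (n - k) := by
    rw [avC, Finset.mul_sum]
    refine Finset.sum_congr rfl (fun e he => ?_)
    rw [hφ.mul _ _ (hP'.1.1.pow _) (mem_mon.mp he).1]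
    congr 1
    generalize k / d = j
    induction j with
    | zero => rw [pow_zero, pow_zero, hφ.one]
    | succ j ih => rw [pow_succ, pow_succ, hφ.mul _ _ (hP'.1.1.pow _) hP'.1.1, ih]
  rw [h3] at h2
  rw [mul_assoc, ← h2]

theorem supsi_cast {F : Type u} [Field F] [Finite F] (hPsi : StmtTwPsi.{u}) (k : ℕ) (hk : 1 ≤ k) :
    ∑ d ∈ k.divisors, ∑ _P ∈ irr F d, d = Nat.card F ^ k := by
  have h1 := (hPsi F).2.1 k hk
  rw [psi] at h1
  have h2 : ((∑ d ∈ k.divisors, ∑ _P ∈ irr F d, d : ℕ) : ℤ) = ((Nat.card F ^ k : ℕ) : ℤ) := by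
    rw [Nat.cast_pow, ← h1, Nat.cast_sum]
    refine Finset.sum_congr rfl fun d _ => ?_
    rw [Nat.cast_sum]
    refine Finset.sum_congr rfl fun P _ => ?_
    rw [one_pow, mul_one]
  exact_mod_cast h2

theorem supsi_norm {F : Type u} [Field F] {ℓ : ℕ} (hℓ : ℓ.Prime) {φ : F[X] → ℂ}
    (hφ : IsChL ℓ φ) (P : F[X]) : ‖φ P‖ ≤ 1 := by
  rcases hφ.val P with h | h
  · rw [h, norm_zero]
    exact zero_le_one
  · exact (Complex.norm_eq_one_of_pow_eq_one h hℓ.ne_zero).le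

theorem tSuPsi (_hTwMon : StmtTwMon.{u}) (hTwPsi : StmtTwPsi.{u}) (hSuMon : StmtSuMon.{u}) :
    StmtSuPsi.{u} := by
  intro F _ _ ℓ hℓ
  refine ⟨fun φ hφ n => supsi_one hSuMon hφ n, ?_, ?_, ?_, ?_⟩
  · intro k hk
    have h1 := supsi_cast (F := F) hTwPsi k hk
    have h2 : ((∑ d ∈ k.divisors, ∑ _P ∈ irr F d, d : ℕ) : ℂ) = ((Nat.card F ^ k : ℕ) : ℂ) := by
      rw [h1]
    rw [Nat.cast_pow] at h2
    rw [← h2, psiC, Nat.cast_sum]
    refine Finset.sum_congr rfl fun d _ => ?_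
    rw [Nat.cast_sum]
    refine Finset.sum_congr rfl fun P _ => ?_
    rw [one_pow, mul_one]
  · intro φ hφ k hk
    have h1 := supsi_cast (F := F) hTwPsi k hk
    have h2 : ((∑ d ∈ k.divisors, ∑ _P ∈ irr F d, d : ℕ) : ℝ) = ((Nat.card F ^ k : ℕ) : ℝ) := by
      rw [h1]
    rw [Nat.cast_pow] at h2
    rw [← h2, psiC, Nat.cast_sum]
    refine (norm_sum_le _ _).trans (Finset.sum_le_sum fun d _ => ?_)
    rw [Nat.cast_sum]
    refine (norm_sum_le _ _).trans (Finset.sum_le_sum fun P _ => ?_)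
    rw [norm_mul, norm_pow, Complex.norm_natCast]
    calc (d : ℝ) * ‖φ P‖ ^ (k / d) ≤ (d : ℝ) * 1 :=
          mul_le_mul_of_nonneg_left (pow_le_one₀ (norm_nonneg _) (supsi_norm hℓ hφ P))
            (Nat.cast_nonneg _)
      _ = d := mul_one _
  · intro ω φ k
    rw [psiC, psiC, Finset.mul_sum]
    refine Finset.sum_congr rfl (fun d hd => ?_)
    rw [Finset.mul_sum]
    refine Finset.sum_congr rfl (fun P hP => ?_)
    have hP' := twpsi_mem_irr.mp hP
    rw [Nat.mem_divisors] at hd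
    rw [hP'.1.2, mul_pow, ← pow_mul, Nat.mul_div_cancel' hd.1]
    ring
  · intro d hd
    rw [← supsi_cast (F := F) hTwPsi d hd]
    have h1 : ∑ _P ∈ irr F d, d = d * (irr F d).card := by
      rw [Finset.sum_const, smul_eq_mul, mul_comm]
    rw [← h1]
    exact Finset.single_le_sum (f := fun d => ∑ _P ∈ irr F d, d) (fun _ _ => Nat.zero_le _)
      (Nat.mem_divisors_self d (by omega))

end MP72e2e6
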