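import Pool.Agent.Lib.MP_72e2e6_nt.TwStmt

/-!
# MP_72e2e6_nt: counting monic polynomials (TwMon)
-/

namespace MP72e2e6

open Polynomial IsDedekindDomain

universe u

section

variable {F : Type u} [Field F] [Finite F]

theorem twmon_card (n : ℕ) : (mon F n).card = Nat.card F ^ n := by
  classical
  have := Fintype.ofFinite F
  have h1 : Nat.card {p : F[X] // p.Monic ∧ p.natDegree = n} = Nat.card F ^ n := by
    rw [Nat.card_congr ((monicEquivDegreeLT n).trans (degreeLTEquiv F n).toEquiv),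
      Nat.card_fun, Nat.card_eq_fintype_card (α := Fin n), Fintype.card_fin]
  rw [← h1, mon]
  exact (Nat.card_eq_card_finite_toFinset (finite_mon F n)).symm

open Classical in
theorem twmon_sum (k n : ℕ) (d : F[X]) (hd : d ∈ mon F k) (hk : k ≤ n) (f : F[X] → ℤ) :
    (∑ h ∈ mon F n, if d ∣ h then f h else 0) = ∑ e ∈ mon F (n - k), f (d * e) := by
  rw [← Finset.sum_filter]
  symm
  obtain ⟨hd1, hd2⟩ := mem_mon.1 hd
  refine Finset.sum_bij (fun e _ => d * e) ?_ ?_ ?_ ?_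
  · intro e he
    obtain ⟨he1, he2⟩ := mem_mon.1 he
    simp only [Finset.mem_filter, mem_mon]
    refine ⟨⟨hd1.mul he1, ?_⟩, dvd_mul_right _ _⟩
    rw [hd1.natDegree_mul he1]
    omega
  · intro e _ e' _ h
    exact mul_left_cancel₀ hd1.ne_zero h
  · intro h hh
    obtain ⟨hh1, e, rfl⟩ := Finset.mem_filter.1 hh
    obtain ⟨hh2, hh3⟩ := mem_mon.1 hh1
    have he1 : e.Monic := hd1.of_mul_monic_left hh2
    rw [hd1.natDegree_mul he1] at hh3
    exact ⟨e, mem_mon.2 ⟨he1, by omega⟩, rfl⟩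
  · intro e _
    rfl

theorem twmon_not_dvd (k n : ℕ) (d : F[X]) (hd : d ∈ mon F k) (hk : n < k) (h : F[X])
    (hh : h ∈ mon F n) : ¬ d ∣ h := by
  obtain ⟨hd1, hd2⟩ := mem_mon.1 hd
  obtain ⟨hh1, hh2⟩ := mem_mon.1 hh
  intro h'
  have := natDegree_le_of_dvd h' hh1.ne_zero
  omega

end

theorem tTwMon : StmtTwMon.{u} := by
  intro F _ _
  exact ⟨twmon_card, fun k n d hd => ⟨fun hk f => twmon_sum k n d hd hk f,
    fun hk h hh => twmon_not_dvd k n d hd hk h hh⟩⟩

end MP72e2e6
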