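import Pool.Agent.Lib.MP_72e2e6_nt.PeStmt
import Pool.Agent.Lib.MP_72e2e6_nt.PpAn

/-!
# MP_72e2e6_nt: positive proportion of quadratic twists, module PeAn
-/

set_option autoImplicit false

namespace MP72e2e6

open Polynomial

universe u

open Classical in
theorem tPeAn.{v} (hPpErr : StmtPeErr.{v}) (hPpFul : StmtPpFul.{v}) (hPpHal : StmtPpHal.{v}) :
    StmtPeAn.{v} := by
  intro F _ _ hq4 hq χ hχ hr V U _ _ _ pr hpr α αi B N hU ε hε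
  have hN : (N : ℂ) ≠ 0 := by
    have := hU.two
    exact_mod_cast (show N ≠ 0 by omega)
  set K : ℝ := ((Finset.univ : Finset (Finset U)).card : ℝ) + 1 with hK
  have hK0 : 0 < K := by positivity
  obtain ⟨n₁, h1⟩ := hPpErr F hq4 hq χ hχ hr V U pr hpr α αi B N hU (ε / 2) (by positivity)
  -- the sets
  set Z : Finset (Finset U) := (Finset.univ : Finset (Finset U)).filter (fun 𝓥 => 𝓥.card = N ∧
        (∀ w ∈ 𝓥, ∀ w' ∈ 𝓥, B w w' + B w' w = 0) ∧ ∀ w ∈ 𝓥, ∀ v, α v w = 0) with hZ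
  let f : Finset U → ℕ → ℂ := fun 𝓥 n => ∑ ν ∈ 𝓥.piAntidiag n, Tnu χ pr α αi B N ν
  let g : Finset U → ℕ → ℂ := fun 𝓥 n => if Adm B N α αi 𝓥 then
    (N : ℂ)⁻¹ * ∑ w ∈ 𝓥, ZMod.stdAddChar (αi w * (n : ZMod 2)) * ((gs F pr n).card : ℂ) else 0
  have key : ∀ 𝓥 : Finset U, ∃ n₀ : ℕ, 𝓥 ∈ Z → ∀ n, n₀ ≤ n →
      ‖f 𝓥 n - g 𝓥 n‖ ≤ ε / (2 * K) * (Nat.card F : ℝ) ^ n := by
    intro 𝓥
    by_cases h𝓥 : 𝓥 ∈ Z
    swap
    · exact ⟨0, fun h => absurd h h𝓥⟩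
    obtain ⟨hc, hu, ha⟩ := (Finset.mem_filter.1 h𝓥).2
    have hf : ∀ n, f 𝓥 n = ∑ t ∈ gs F pr n, ∏ P ∈ t,
        ((N : ℂ)⁻¹ * ∑ w ∈ 𝓥, ZMod.stdAddChar (αi w * (P.natDegree : ZMod 2))) := fun n =>
      hPpFul F 2 Nat.prime_two hq χ hχ hr V U pr α αi B N hU.diag 𝓥 hu ha n
    by_cases hconst : ∀ w ∈ 𝓥, ∀ w' ∈ 𝓥, αi w = αi w'
    · refine ⟨0, fun _ n _ => ?_⟩
      have hAdm : Adm B N α αi 𝓥 := ⟨hc, hu, ha, hconst⟩
      have hne : 𝓥.Nonempty := by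
        rw [← Finset.card_pos, hc]
        have := hU.two
        omega
      obtain ⟨w₀, hw₀⟩ := hne
      have hsum : ∀ j : ℕ, (N : ℂ)⁻¹ * ∑ w ∈ 𝓥, ZMod.stdAddChar (αi w * (j : ZMod 2)) =
          ZMod.stdAddChar (αi w₀ * (j : ZMod 2)) := by
        intro j
        rw [Finset.sum_congr rfl fun w hw => by rw [hconst w hw w₀ hw₀], Finset.sum_const, hc,
          nsmul_eq_mul, inv_mul_cancel_left₀ hN]
      have h2 : f 𝓥 n = g 𝓥 n := by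
        simp only [g, if_pos hAdm]
        rw [← Finset.sum_mul, ← mul_assoc, hsum, hf]
        have h3 : ∀ t ∈ gs F pr n, ∏ P ∈ t,
            ((N : ℂ)⁻¹ * ∑ w ∈ 𝓥, ZMod.stdAddChar (αi w * (P.natDegree : ZMod 2))) =
            ZMod.stdAddChar (αi w₀ * (n : ZMod 2)) := by
          intro t ht
          rw [Finset.prod_congr rfl fun P _ => hsum P.natDegree]
          have h4 := (mem_ps.1 (ppan_mem_gs.1 ht).1).2
          rw [← h4, Nat.cast_sum, Finset.mul_sum]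
          exact (ppan_map_sum _ _ _).symm
        rw [Finset.sum_congr rfl h3, Finset.sum_const, nsmul_eq_mul, mul_comm]
      rw [h2, sub_self, norm_zero]
      positivity
    · push Not at hconst
      obtain ⟨w, hw, w', hw', hne⟩ := hconst
      obtain ⟨n₀, h0⟩ := hPpHal F 2 Nat.prime_two V U pr αi N 𝓥 hc ⟨w, hw, w', hw', hne⟩ (ε / (2 * K))
        (by positivity)
      refine ⟨n₀, fun _ n hn => ?_⟩
      have hg : g 𝓥 n = 0 := if_neg fun h => hne (h.inf w hw w' hw')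
      rw [hg, sub_zero, hf]
      exact h0 n hn
  choose N₀ hN₀ using key
  refine ⟨max n₁ ((Finset.univ : Finset (Finset U)).sup N₀), fun n hn => ?_⟩
  have e1 := h1 n ((le_max_left _ _).trans hn)
  have e2 : ‖∑ 𝓥 ∈ Z, f 𝓥 n - ∑ 𝓥 ∈ Z, g 𝓥 n‖ ≤ ε / 2 * (Nat.card F : ℝ) ^ n := by
    rw [← Finset.sum_sub_distrib]
    refine (norm_sum_le _ _).trans ?_
    have h2 : ∀ 𝓥 ∈ Z, ‖f 𝓥 n - g 𝓥 n‖ ≤ ε / (2 * K) * (Nat.card F : ℝ) ^ n := fun 𝓥 h =>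
      hN₀ 𝓥 h n ((Finset.le_sup (Finset.mem_univ 𝓥)).trans ((le_max_right _ _).trans hn))
    refine (Finset.sum_le_sum h2).trans ?_
    rw [Finset.sum_const, nsmul_eq_mul]
    have h3 : (Z.card : ℝ) ≤ K := by
      have h4 : Z.card ≤ (Finset.univ : Finset (Finset U)).card :=
        Finset.card_le_card (Finset.subset_univ _)
      have h5 : (Z.card : ℝ) ≤ ((Finset.univ : Finset (Finset U)).card : ℝ) := by
        exact_mod_cast h4
      linarith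
    calc (Z.card : ℝ) * (ε / (2 * K) * (Nat.card F : ℝ) ^ n) ≤
        K * (ε / (2 * K) * (Nat.card F : ℝ) ^ n) := by gcongr
      _ = ε / 2 * (Nat.card F : ℝ) ^ n := by field_simp
  have e3 : (∑ 𝓥 ∈ (Finset.univ : Finset (Finset U)).filter (Adm B N α αi),
        (N : ℂ)⁻¹ * ∑ w ∈ 𝓥, ZMod.stdAddChar (αi w * (n : ZMod 2))) * ((gs F pr n).card : ℂ) =
      ∑ 𝓥 ∈ Z, g 𝓥 n := by
    rw [Finset.sum_mul]
    simp only [g]
    rw [← Finset.sum_filter]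
    have h2 : (Finset.univ : Finset (Finset U)).filter (Adm B N α αi) =
        Z.filter (Adm B N α αi) := by
      ext 𝓥
      simp only [Finset.mem_filter, Finset.mem_univ, true_and, hZ]
      exact ⟨fun h => ⟨⟨h.card, h.unl, h.bad⟩, h⟩, fun h => h.2⟩
    rw [h2]
    refine Finset.sum_congr rfl fun 𝓥 _ => ?_
    rw [← Finset.sum_mul, ← mul_assoc]
  rw [e3]
  have e4 : TT χ pr α αi B N n - ∑ 𝓥 ∈ Z, g 𝓥 n =
      (TT χ pr α αi B N n - ∑ 𝓥 ∈ Z, f 𝓥 n) + (∑ 𝓥 ∈ Z, f 𝓥 n - ∑ 𝓥 ∈ Z, g 𝓥 n) := by ring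
  rw [e4]
  refine (norm_add_le _ _).trans ?_
  have e5 : ε * (Nat.card F : ℝ) ^ n = ε / 2 * (Nat.card F : ℝ) ^ n +
      ε / 2 * (Nat.card F : ℝ) ^ n := by ring
  rw [e5]
  exact add_le_add e1 e2

end MP72e2e6
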