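import Pool.Agent.Lib.MP_72e2e6_nt.PeStmt

/-!
# MP_72e2e6_nt: positive proportion of twists, module PeEB
-/

namespace MP72e2e6

open Polynomial

universe u

theorem tPeEB.{v} (hPpRec : StmtPpRec.{v}) (hPpSB : StmtPpSB) (hPpInn : StmtPeInn.{v}) :
    StmtPeEB.{v} := by
  intro F _ _ hq4 hq χ hχ hr V U _ _ _ pr hpr α αi B N hU n hn hthr 𝓥 h𝓥 hunl
  classical
  have hN1 : 1 ≤ N := by
    have := hU.two
    omega
  have hF0 : (0 : ℝ) < (Nat.card F : ℝ) := by exact_mod_cast Nat.card_pos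
  set τ := thr U n with hτ
  have hτ1 : 1 ≤ τ := by
    rw [hτ, thr]
    have h1 : 0 < Fintype.card U + 2 := by omega
    have h2 : 0 < Nat.log 2 (n + 2) + 1 := by omega
    have := Nat.mul_pos h1 h2
    omega
  set a : ℕ → ℝ := fun k => GG F (1 / N : ℝ) k / (Nat.card F : ℝ) ^ k with ha
  have haR : RecS (1 / N : ℝ) a := (hPpRec F (1 / N : ℝ) (by positivity)).2
  have hGG : ∀ k, GG F (1 / N : ℝ) k = a k * (Nat.card F : ℝ) ^ k := fun k => by
    simp only [ha]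
    have : (Nat.card F : ℝ) ^ k ≠ 0 := (pow_pos hF0 k).ne'
    field_simp
  set Y : ℝ := ((∑ v, (pr v).natDegree + Fintype.card U * τ + 1 : ℕ) : ℝ) ^ 2 +
          (Nat.log 2 (∑ v, (pr v).natDegree + n + 2) : ℝ) with hY
  have hY0 : 0 ≤ Y := by positivity
  have hterm0 : ∀ (ν : U → ℕ) (w₀ : U), 0 ≤ (Nat.card F : ℝ) ^ n * (160 * Y *
      ((∏ w ∈ Finset.univ.erase w₀, a (ν w)) / (ν w₀ : ℝ))) := by
    intro ν w₀
    have h1 : 0 ≤ ∏ w ∈ Finset.univ.erase w₀, a (ν w) :=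
      Finset.prod_nonneg fun w _ => haR.nonneg _
    positivity
  -- the bound for one `ν`
  have key : ∀ ν ∈ ((Finset.univ : Finset U).piAntidiag n).filter (fun ν : U → ℕ =>
        (∀ w, (τ ≤ ν w ↔ w ∈ 𝓥)) ∧
          ((∃ w ∈ 𝓥, ∃ v, α v w ≠ 0) ∨ ∃ w, w ∉ 𝓥 ∧ 1 ≤ ν w)),
      ‖Tnu χ pr α αi B N ν‖ ≤ ∑ w₀ ∈ 𝓥, (Nat.card F : ℝ) ^ n * (160 * Y *
        ((∏ w ∈ Finset.univ.erase w₀, a (ν w)) / (ν w₀ : ℝ))) := by
    intro ν hν
    obtain ⟨h1, h2, h3⟩ := Finset.mem_filter.1 hν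
    have hsum : ∑ x, ν x = n := (Finset.mem_piAntidiag.1 h1).1
    have hex : ∃ w₀ ∈ 𝓥, (∃ v, α v w₀ ≠ 0) ∨ ∃ w, B w₀ w + B w w₀ ≠ 0 ∧ 1 ≤ ν w := by
      rcases h3 with ⟨w, hw, v, hv⟩ | ⟨w, hw, hν1⟩
      · exact ⟨w, hw, Or.inl ⟨v, hv⟩⟩
      · by_contra hcon
        push Not at hcon
        have h4 : ∀ w₀ ∈ 𝓥, B w₀ w + B w w₀ = 0 := by
          intro w₀ hw₀
          by_contra h5
          have := (hcon w₀ hw₀).2 w h5
          omega
        have h5 := hU.card (insert w 𝓥) (by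
          intro x hx y hy
          rcases Finset.mem_insert.1 hx with hx' | hx'
          · rcases Finset.mem_insert.1 hy with hy' | hy'
            · rw [hx', hy', hU.diag, add_zero]
            · rw [hx', add_comm]
              exact h4 y hy'
          · rcases Finset.mem_insert.1 hy with hy' | hy'
            · rw [hy']
              exact h4 x hx'
            · exact hunl x hx' y hy')
        rw [Finset.card_insert_of_notMem hw, h𝓥] at h5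
        omega
    obtain ⟨w₀, hw₀, hw₀'⟩ := hex
    have hν0 : τ ≤ ν w₀ := (h2 w₀).2 hw₀
    have hb := hPpInn F hq4 hq χ hχ hr V U pr hpr α αi B N hN1 hU.diag ν w₀ τ
      (hτ1.trans hν0) (fun w hw => by
        by_contra hlt
        have hw𝓥 : w ∈ 𝓥 := (h2 w).1 (by omega)
        exact hw (hunl w₀ hw₀ w hw𝓥)) hw₀'
    rw [hsum, ← hY] at hb
    refine hb.trans ?_
    refine le_trans (le_of_eq ?_) (Finset.single_le_sum (f := fun w₀ => (Nat.card F : ℝ) ^ n *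
      (160 * Y * ((∏ w ∈ Finset.univ.erase w₀, a (ν w)) / (ν w₀ : ℝ))))
      (fun w _ => hterm0 ν w) hw₀)
    rw [Finset.prod_congr rfl fun w _ => hGG (ν w), Finset.prod_mul_distrib,
      Finset.prod_pow_eq_pow_sum]
    have h4 : (Nat.card F : ℝ) ^ n = (Nat.card F : ℝ) ^ (∑ w ∈ Finset.univ.erase w₀, ν w) *
        (Nat.card F : ℝ) ^ ν w₀ := by
      rw [← pow_add, Finset.sum_erase_add _ _ (Finset.mem_univ w₀), hsum]
    rw [h4]
    ring
  refine (Finset.sum_le_sum key).trans ?_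
  rw [Finset.sum_comm]
  have hS : ∀ w₀ ∈ 𝓥, ∑ ν ∈ ((Finset.univ : Finset U).piAntidiag n).filter (fun ν : U → ℕ =>
        (∀ w, (τ ≤ ν w ↔ w ∈ 𝓥)) ∧
          ((∃ w ∈ 𝓥, ∃ v, α v w ≠ 0) ∨ ∃ w, w ∉ 𝓥 ∧ 1 ≤ ν w)),
      (Nat.card F : ℝ) ^ n * (160 * Y *
        ((∏ w ∈ Finset.univ.erase w₀, a (ν w)) / (ν w₀ : ℝ))) ≤
      (Nat.card F : ℝ) ^ n * (160 * Y * ((((τ : ℝ) + 1) ^ Fintype.card U *
          (((n : ℝ) / 4) ^ (-(1 / N : ℝ)) * (6 + Real.log n))))) := by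
    intro w₀ hw₀
    have hb := hPpSB U N hU.two a haR τ n hn hτ1 hthr 𝓥 w₀ hw₀ h𝓥
    rw [← Finset.mul_sum, ← Finset.mul_sum]
    refine mul_le_mul_of_nonneg_left (mul_le_mul_of_nonneg_left (le_trans ?_ hb)
      (by positivity)) (by positivity)
    refine Finset.sum_le_sum_of_subset_of_nonneg ?_ fun ν _ _ =>
      div_nonneg (Finset.prod_nonneg fun w _ => haR.nonneg _) (Nat.cast_nonneg _)
    intro ν hν
    obtain ⟨h1, h2, -⟩ := Finset.mem_filter.1 hν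
    exact Finset.mem_filter.2 ⟨h1, h2⟩
  refine (Finset.sum_le_sum hS).trans (le_of_eq ?_)
  rw [Finset.sum_const, h𝓥, nsmul_eq_mul]
  ring

end MP72e2e6
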