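import Pool.Agent.Lib.MP_72e2e6_nt.TwStmt

/-!
# MP_72e2e6_nt: the equations satisfied by a Selmer element
-/

namespace MP72e2e6

open Polynomial IsDedekindDomain

universe u

section

variable {F : Type u} [Field F]

/-- additive on nonzero polynomials -/
def tweq_Add (f : F[X] → ZMod 2) : Prop := ∀ g h : F[X], g ≠ 0 → h ≠ 0 → f (g * h) = f g + f h

theorem tweq_one {f : F[X] → ZMod 2} (hf : tweq_Add f) : f 1 = 0 := by
  have h := hf 1 1 one_ne_zero one_ne_zero
  rw [mul_one] at h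
  exact left_eq_add.1 h

theorem tweq_zmod (z : ZMod 2) : z = 0 ∨ z = 1 := by
  revert z
  decide

theorem tweq_pow {f : F[X] → ZMod 2} (hf : tweq_Add f) (h : F[X]) (z : ZMod 2) :
    f (h ^ z.val) = z * f h := by
  rcases tweq_zmod z with rfl | rfl
  · rw [ZMod.val_zero, pow_zero, tweq_one hf, zero_mul]
  · rw [ZMod.val_one, pow_one, one_mul]

theorem tweq_prod {f : F[X] → ZMod 2} (hf : tweq_Add f) {ι : Type} (s : Finset ι) (g : ι → F[X])
    (hg : ∀ i ∈ s, g i ≠ 0) : f (∏ i ∈ s, g i) = ∑ i ∈ s, f (g i) := by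
  classical
  induction s using Finset.induction_on with
  | empty => rw [Finset.prod_empty, Finset.sum_empty, tweq_one hf]
  | insert a s ha ih =>
    rw [Finset.prod_insert ha, Finset.sum_insert ha, hf _ _ (hg a (Finset.mem_insert_self _ _))
      (Finset.prod_ne_zero_iff.2 fun i hi => hg i (Finset.mem_insert_of_mem hi)),
      ih fun i hi => hg i (Finset.mem_insert_of_mem hi)]

theorem tweq_tau_ne {m : ℕ} {E : F[X]} (hE : E ≠ 0) {a : Fin m → F[X]}
    (ha : Function.Injective a) (c : Fin m → ZMod 2) (i k : Fin m) :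
    (a i - a k) ^ (c i + c k).val ≠ 0 := by
  by_cases h : i = k
  · subst h
    rw [CharTwo.add_self_eq_zero, ZMod.val_zero, pow_zero]
    exact one_ne_zero
  · exact pow_ne_zero _ (sub_ne_zero.2 fun h' => h (ha h'))

theorem tweq_tau {f : F[X] → ZMod 2} (hf : tweq_Add f) {m : ℕ} {E : F[X]} (hE : E ≠ 0)
    {a : Fin m → F[X]} (ha : Function.Injective a) (c : Fin m → ZMod 2) (i : Fin m) :
    tau E a c i ≠ 0 ∧ f (tau E a c i) = c i * f (-E) + ∑ k, (c i + c k) * f (a i - a k) := by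
  have h1 : (-E) ^ (c i).val ≠ 0 := pow_ne_zero _ (neg_ne_zero.2 hE)
  have h2 : ∏ k, (a i - a k) ^ (c i + c k).val ≠ 0 :=
    Finset.prod_ne_zero_iff.2 fun k _ => tweq_tau_ne hE ha c i k
  refine ⟨mul_ne_zero h1 h2, ?_⟩
  rw [tau, hf _ _ h1 h2, tweq_pow hf, tweq_prod hf _ _ fun k _ => tweq_tau_ne hE ha c i k]
  congr 1
  exact Finset.sum_congr rfl fun k _ => tweq_pow hf _ _

theorem tweq_tw_ne {ι : Type} [Fintype ι] {pr : ι → F[X]} (hpr : Fam pr) (ρ : ι → ZMod 2) {x : F}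
    (hx : x ≠ 0) : tw pr ρ x ≠ 0 :=
  mul_ne_zero (C_ne_zero.2 hx)
    (Finset.prod_ne_zero_iff.2 fun b _ => pow_ne_zero _ (hpr.monic b).ne_zero)

theorem tweq_tw {f : F[X] → ZMod 2} (hf : tweq_Add f) {ι : Type} [Fintype ι] {pr : ι → F[X]}
    (hpr : Fam pr) (ρ : ι → ZMod 2) {x : F} (hx : x ≠ 0) :
    f (-tw pr ρ x) = f (C (-x)) + ∑ b, ρ b * f (pr b) := by
  have h1 : -tw pr ρ x = C (-x) * ∏ b, pr b ^ (ρ b).val := by
    rw [tw, C_neg, neg_mul]
  rw [h1, hf _ _ (C_ne_zero.2 (neg_ne_zero.2 hx))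
    (Finset.prod_ne_zero_iff.2 fun b _ => pow_ne_zero _ (hpr.monic b).ne_zero),
    tweq_prod hf _ _ fun b _ => pow_ne_zero _ (hpr.monic b).ne_zero]
  congr 1
  exact Finset.sum_congr rfl fun b _ => tweq_pow hf _ _

theorem tweq_inj {m n : ℕ} {a : Fin m → F[X]} (ha : Pts m n a) : Function.Injective a := by
  intro i j hij
  by_contra h
  have h1 := ha.deg i j h
  rw [hij, sub_self, degree_zero] at h1
  exact absurd h1.symm (WithBot.coe_ne_bot)

theorem tweq_ndvd {ι : Type} {pr : ι → F[X]} (hpr : Fam pr) {b b' : ι} (h : b' ≠ b) :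
    ¬ pr b ∣ pr b' := by
  intro hd
  have h1 : Associated (pr b) (pr b') := (hpr.irr b).associated_of_dvd (hpr.irr b') hd
  exact h (hpr.inj (eq_of_monic_of_associated (hpr.monic b) (hpr.monic b') h1)).symm

end

open Classical in
theorem tTwEq.{w} (hSy : StmtTwSy.{w}) (hFac : StmtTwFac.{w}) (hNu : StmtTwNu.{w})
    (hSel : StmtTwSel.{w}) : StmtTwEq.{w} := by
  intro F _ _ hodd m n a ha ι _ pr hpr hP ρ x₀ hx₀ hdeg hspl d hd
  obtain ⟨δ, hδ0, hδ2, hδ3, hδ4, hδ5, hδ6⟩ :=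
    hSel F hodd m n a ha ι pr hpr hP ρ x₀ hx₀ hdeg hspl d hd
  have hinj := tweq_inj ha
  have hE := tweq_tw_ne hpr ρ hx₀
  have hvp : ∀ b, tweq_Add (vp (pr b)) := fun b g h hg hh =>
    (((hSy F hodd).2 (pr b) (hpr.monic b) (hpr.irr b)).1 g h hg hh).1
  have hsy : ∀ b, tweq_Add (sy (pr b)) := fun b g h hg hh =>
    (((hSy F hodd).2 (pr b) (hpr.monic b) (hpr.irr b)).1 g h hg hh).2
  have hnd : ∀ b, ∀ h : F[X], ¬ pr b ∣ h → vp (pr b) h = 0 := fun b h hh =>
    (((hSy F hodd).2 (pr b) (hpr.monic b) (hpr.irr b)).2.1 h hh).1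
  have hvpP : ∀ b, vp (pr b) (pr b) = 1 := fun b =>
    ((hSy F hodd).2 (pr b) (hpr.monic b) (hpr.irr b)).2.2.1
  have hC : ∀ b, ∀ x : F, x ≠ 0 → vp (pr b) (C x) = 0 ∧
      sy (pr b) (C x) = (pr b).natDegree * cs x := fun b =>
    ((hSy F hodd).2 (pr b) (hpr.monic b) (hpr.irr b)).2.2.2.2
  have hfac := fun i => hFac F hodd ι pr hpr (δ i) (hδ0 i) fun P h1 h2 h3 => hδ2 P h1 h2 h3 i
  have hsyδ : ∀ b i, sy (pr b) (δ i) = ∑ b', vp (pr b') (δ i) * sy (pr b) (pr b') := by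
    intro b i
    rw [(hfac i).1 b, (hδ3 i).2, mul_zero, zero_add]
  let c : ι → Fin m → ZMod 2 := fun b =>
    if h : ρ b = 1 then (hδ4 b h).choose else 0
  have hc : ∀ b (h : ρ b = 1), ∑ i, c b i = 0 ∧ ∀ i,
      vp (pr b) (δ i * tau (tw pr ρ x₀) a (c b) i) = 0 ∧
      sy (pr b) (δ i * tau (tw pr ρ x₀) a (c b) i) = 0 := by
    intro b h
    have h1 : c b = (hδ4 b h).choose := dif_pos h
    rw [h1]
    exact (hδ4 b h).choose_spec
  refine ⟨fun b i => vp (pr b) (δ i), c, ⟨?_, ?_, ?_, ?_, ?_⟩, ?_⟩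
  · intro b hb
    exact (hc b hb).1
  · intro i
    have h1 := (hfac i).2.1
    rw [(hδ3 i).1] at h1
    exact h1.symm
  · intro b hb i
    have h1 := ((hc b hb).2 i).1
    obtain ⟨h2, h3⟩ := tweq_tau (hvp b) hE hinj (c b) i
    have h4 : vp (pr b) (-tw pr ρ x₀) = 1 := by
      rw [tweq_tw (hvp b) hpr ρ hx₀, (hC b _ (neg_ne_zero.2 hx₀)).1, zero_add,
        Finset.sum_eq_single b]
      · rw [hvpP, mul_one, hb]
      · intro b' _ hb'
        rw [hnd b _ (tweq_ndvd hpr hb'), mul_zero]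
      · intro h
        exact absurd (Finset.mem_univ _) h
    rw [hvp b _ _ (hδ0 i) h2, h3, h4, mul_one] at h1
    exact CharTwo.add_eq_zero.1 h1
  · intro b hb i
    have h1 := ((hc b hb).2 i).2
    obtain ⟨h2, h3⟩ := tweq_tau (hsy b) hE hinj (c b) i
    rw [hsy b _ _ (hδ0 i) h2, h3, tweq_tw (hsy b) hpr ρ hx₀, (hC b _ (neg_ne_zero.2 hx₀)).2,
      hsyδ] at h1
    rw [← h1]
    have h4 : ∑ b', sy (pr b) (pr b') * (vp (pr b') (δ i) + ρ b' * c b i) =
        ∑ b', vp (pr b') (δ i) * sy (pr b) (pr b') +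
          c b i * ∑ b', ρ b' * sy (pr b) (pr b') := by
      rw [Finset.mul_sum, ← Finset.sum_add_distrib]
      exact Finset.sum_congr rfl fun b' _ => by ring
    rw [h4]
    ring
  · intro b hb
    obtain ⟨j, k, hjk, hv, -⟩ := hspl b hb
    have hdvd : pr b ∣ a j - a k := by
      by_contra h
      rw [hnd b _ h] at hv
      exact zero_ne_one hv
    have hnu := ((hNu F hodd m n a ha (pr b) (hpr.monic b) (hpr.irr b)).2.2.1 j k hjk).1 hv
    obtain ⟨h1, h2, h3⟩ := hδ5 b hb j k hjk hdvd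
    refine ⟨⟨vp (pr b) (δ j), fun i => ?_⟩, ?_⟩
    · rw [hnu, Pi.add_apply]
      by_cases hij : i = j
      · subst hij
        rw [Pi.single_eq_same, Pi.single_eq_of_ne hjk, add_zero, mul_one]
      · by_cases hik : i = k
        · subst hik
          rw [Pi.single_eq_same, Pi.single_eq_of_ne hij, zero_add, mul_one, h2]
        · rw [Pi.single_eq_of_ne hij, Pi.single_eq_of_ne hik, add_zero, mul_zero, h1 i hij hik]
    · have h4 : ∀ i, ∑ b', sy (pr b) (pr b') * vp (pr b') (δ i) = sy (pr b) (δ i) := by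
        intro i
        rw [hsyδ]
        exact Finset.sum_congr rfl fun b' _ => mul_comm _ _
      simp only [h4, hnu, Pi.add_apply, add_mul, Finset.sum_add_distrib]
      rw [Finset.sum_eq_single j, Finset.sum_eq_single k, Pi.single_eq_same, Pi.single_eq_same,
        one_mul, one_mul, h3, CharTwo.add_self_eq_zero]
      · intro i _ hi
        rw [Pi.single_eq_of_ne hi, zero_mul]
      · intro h
        exact absurd (Finset.mem_univ _) h
      · intro i _ hi
        rw [Pi.single_eq_of_ne hi, zero_mul]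
      · intro h
        exact absurd (Finset.mem_univ _) h
  · intro hx
    exact hδ6 fun i => (hfac i).2.2 (hδ3 i).2 fun b => hx b i

end MP72e2e6
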