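import Pool.Agent.Lib.MP_72e2e6_nt.PeStmtB
import Pool.Agent.Lib.MP_72e2e6_nt.TwEq

/-!
# MP_72e2e6_nt: the equations satisfied by a Selmer element, for positive proportion
-/

set_option autoImplicit false

namespace MP72e2e6

open Polynomial IsDedekindDomain

universe u

open Classical in
theorem tPeEq.{w} (hSy : StmtTwSy.{w}) (hFac : StmtTwFac.{w}) (_ : StmtTwNu.{w})
    (hSel : StmtPeSel.{w}) : StmtPeEq.{w} := by
  intro F _ _ hodd m n a ha ι _ pr hpr hP hdeg d hd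
  obtain ⟨δ, hδ0, hδ2, hδ3, hδ4', hδ5⟩ := hSel F hodd m n a ha ι pr hpr hP hdeg d hd
  have hx₀ : (1 : F) ≠ 0 := one_ne_zero
  obtain ⟨ρ, hρ⟩ : ∃ ρ : ι → ZMod 2, ρ = 1 := ⟨_, rfl⟩
  have hρ1 : ∀ b, ρ b = 1 := fun b => by rw [hρ]; rfl
  rw [← hρ] at hdeg hd hδ4' hδ5 ⊢
  have hδ4 : ∀ b, ρ b = 1 → ∃ c : Fin m → ZMod 2, ∑ i, c i = 0 ∧ ∀ i,
      vp (pr b) (δ i * tau (tw pr ρ 1) a c i) = 0 ∧
      sy (pr b) (δ i * tau (tw pr ρ 1) a c i) = 0 := fun b _ => hδ4' b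
  have hinj := tweq_inj ha
  have hE := tweq_tw_ne hpr ρ hx₀
  have hvp : ∀ b, tweq_Add (vp (pr b)) := fun b g h hg hh =>
    (((hSy F hodd).2 (pr b) (hpr.monic b) (hpr.irr b)).1 g h hg hh).1
  have hsy : ∀ b, tweq_Add (sy (pr b)) := fun b g h hg hh =>
    (((hSy F hodd).2 (pr b) (hpr.monic b) (hpr.irr b)).1 g h hg hh).2
  have hnd : ∀ b, ∀ h : F[X], ¬ pr b ∣ h → vp (pr b) h = 0 := fun b h hh =>
    (((hSy F hodd).2 (pr b) (hpr.monic b) (hpr.irr b)).2.1 h hh).1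
  have hvpP : ∀ b, vp (pr b) (pr b) = 1 := fun b =>
    ((hSy F hodd).2 (pr b) (hpr.monic b) (hpr.irr b)).2.2.1
  have hC : ∀ b, ∀ x : F, x ≠ 0 → vp (pr b) (C x) = 0 ∧
      sy (pr b) (C x) = (pr b).natDegree * cs x := fun b =>
    ((hSy F hodd).2 (pr b) (hpr.monic b) (hpr.irr b)).2.2.2.2
  have hfac := fun i => hFac F hodd ι pr hpr (δ i) (hδ0 i) fun P h1 h2 h3 => hδ2 P h1 h2 h3 i
  have hsyδ : ∀ b i, sy (pr b) (δ i) = ∑ b', vp (pr b') (δ i) * sy (pr b) (pr b') := by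
    intro b i
    rw [(hfac i).1 b, (hδ3 i).2, mul_zero, zero_add]
  let c : ι → Fin m → ZMod 2 := fun b =>
    if h : ρ b = 1 then (hδ4 b h).choose else 0
  have hc : ∀ b (h : ρ b = 1), ∑ i, c b i = 0 ∧ ∀ i,
      vp (pr b) (δ i * tau (tw pr ρ 1) a (c b) i) = 0 ∧
      sy (pr b) (δ i * tau (tw pr ρ 1) a (c b) i) = 0 := by
    intro b h
    have h1 : c b = (hδ4 b h).choose := dif_pos h
    rw [h1]
    exact (hδ4 b h).choose_spec
  refine ⟨fun b i => vp (pr b) (δ i), c, ⟨?_, ?_, ?_, ?_, ?_⟩, ?_⟩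
  · intro b hb
    exact (hc b hb).1
  · intro i
    have h1 := (hfac i).2.1
    rw [(hδ3 i).1] at h1
    exact h1.symm
  · intro b hb i
    have h1 := ((hc b hb).2 i).1
    obtain ⟨h2, h3⟩ := tweq_tau (hvp b) hE hinj (c b) i
    have h4 : vp (pr b) (-tw pr ρ 1) = 1 := by
      rw [tweq_tw (hvp b) hpr ρ hx₀, (hC b _ (neg_ne_zero.2 hx₀)).1, zero_add,
        Finset.sum_eq_single b]
      · rw [hvpP, mul_one, hb]
      · intro b' _ hb'
        rw [hnd b _ (tweq_ndvd hpr hb'), mul_zero]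
      · intro h
        exact absurd (Finset.mem_univ _) h
    rw [hvp b _ _ (hδ0 i) h2, h3, h4, mul_one] at h1
    exact CharTwo.add_eq_zero.1 h1
  · intro b hb i
    have h1 := ((hc b hb).2 i).2
    obtain ⟨h2, h3⟩ := tweq_tau (hsy b) hE hinj (c b) i
    rw [hsy b _ _ (hδ0 i) h2, h3, tweq_tw (hsy b) hpr ρ hx₀, (hC b _ (neg_ne_zero.2 hx₀)).2,
      hsyδ] at h1
    rw [← h1]
    have h4 : ∑ b', sy (pr b) (pr b') * (vp (pr b') (δ i) + ρ b' * c b i) =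
        ∑ b', vp (pr b') (δ i) * sy (pr b) (pr b') +
          c b i * ∑ b', ρ b' * sy (pr b) (pr b') := by
      rw [Finset.mul_sum, ← Finset.sum_add_distrib]
      exact Finset.sum_congr rfl fun b' _ => by ring
    rw [h4]
    ring
  · intro b hb
    exact absurd ((hρ1 b).symm.trans hb) one_ne_zero
  · exact ⟨δ, fun i => ⟨hδ0 i, (hδ3 i).2⟩, hδ2, fun _ _ => rfl, hδ5⟩

end MP72e2e6
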