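import Pool.Agent.Lib.MP_72e2e6_nt.PpStmt

/-!
# MP_72e2e6_nt: all the error terms together
-/

namespace MP72e2e6

open Polynomial

universe u

section sort

variable {ℓ : ℕ} {V U : Type} [Fintype V] [Fintype U] [DecidableEq U]

open Classical in
/-- Sorting the functions `ν`. -/
theorem pperr_sort (α : V → U → ZMod ℓ) (B : U → U → ZMod ℓ) (N : ℕ) (hU : Unl B N)
    (f : (U → ℕ) → ℂ) (n τ : ℕ) (hτ : 1 ≤ τ) :
    ‖∑ ν ∈ (Finset.univ : Finset U).piAntidiag n, f ν -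
      ∑ 𝓥 ∈ (Finset.univ : Finset (Finset U)).filter (fun 𝓥 => 𝓥.card = N ∧
        (∀ w ∈ 𝓥, ∀ w' ∈ 𝓥, B w w' + B w' w = 0) ∧ ∀ w ∈ 𝓥, ∀ v, α v w = 0),
        ∑ ν ∈ 𝓥.piAntidiag n, f ν‖ ≤
    (2 : ℝ) ^ Fintype.card U *
      (∑ ν ∈ ((Finset.univ : Finset U).piAntidiag n).filter (fun ν : U → ℕ =>
          ∃ w w', τ ≤ ν w ∧ τ ≤ ν w' ∧ B w w' + B w' w ≠ 0), ‖f ν‖ +
        ∑ ν ∈ ((Finset.univ : Finset U).piAntidiag n).filter (fun ν : U → ℕ =>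
          (Finset.univ.filter fun w => τ ≤ ν w).card < N), ‖f ν‖ +
        ∑ 𝓥 ∈ (Finset.univ : Finset (Finset U)).filter (fun 𝓥 => 𝓥.card = N ∧
          (∀ w ∈ 𝓥, ∀ w' ∈ 𝓥, B w w' + B w' w = 0)),
          ∑ ν ∈ ((Finset.univ : Finset U).piAntidiag n).filter (fun ν : U → ℕ =>
            (∀ w, (τ ≤ ν w ↔ w ∈ 𝓥)) ∧
              ((∃ w ∈ 𝓥, ∃ v, α v w ≠ 0) ∨ ∃ w, w ∉ 𝓥 ∧ 1 ≤ ν w)), ‖f ν‖) := by
  set P := (Finset.univ : Finset U).piAntidiag n with hP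
  set 𝒱 := (Finset.univ : Finset (Finset U)).filter (fun 𝓥 => 𝓥.card = N ∧
        (∀ w ∈ 𝓥, ∀ w' ∈ 𝓥, B w w' + B w' w = 0) ∧ ∀ w ∈ 𝓥, ∀ v, α v w = 0) with h𝒱
  set 𝒲 := (Finset.univ : Finset (Finset U)).filter (fun 𝓥 => 𝓥.card = N ∧
        (∀ w ∈ 𝓥, ∀ w' ∈ 𝓥, B w w' + B w' w = 0)) with h𝒲
  -- the multiplicities
  let c : (U → ℕ) → ℕ := fun ν => (𝒱.filter fun 𝓥 => ∀ w, ν w ≠ 0 → w ∈ 𝓥).card
  have h1 : ∑ 𝓥 ∈ 𝒱, ∑ ν ∈ 𝓥.piAntidiag n, f ν = ∑ ν ∈ P, (c ν : ℂ) * f ν := by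
    have e1 : ∀ 𝓥 : Finset U, ∑ ν ∈ 𝓥.piAntidiag n, f ν =
        ∑ ν ∈ P, if ∀ w, ν w ≠ 0 → w ∈ 𝓥 then f ν else 0 := by
      intro 𝓥
      rw [← Finset.sum_filter]
      refine Finset.sum_congr ?_ fun _ _ => rfl
      ext ν
      rw [Finset.mem_filter, hP, Finset.mem_piAntidiag, Finset.mem_piAntidiag]
      constructor
      · rintro ⟨h1, h2⟩
        refine ⟨⟨?_, fun _ _ => Finset.mem_univ _⟩, h2⟩
        rw [← h1]
        refine (Finset.sum_subset (Finset.subset_univ _) ?_).symm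
        intro w _ hw
        by_contra h3
        exact hw (h2 w h3)
      · rintro ⟨⟨h1, -⟩, h2⟩
        refine ⟨?_, h2⟩
        rw [← h1]
        refine Finset.sum_subset (Finset.subset_univ _) ?_
        intro w _ hw
        by_contra h3
        exact hw (h2 w h3)
    rw [Finset.sum_congr rfl fun 𝓥 _ => e1 𝓥, Finset.sum_comm]
    refine Finset.sum_congr rfl fun ν _ => ?_
    rw [← Finset.sum_filter, Finset.sum_const, nsmul_eq_mul]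
  have hcard : (Finset.univ : Finset (Finset U)).card = 2 ^ Fintype.card U := by
    rw [Finset.card_univ, Fintype.card_finset]
  have hc : ∀ ν, c ν ≤ 2 ^ Fintype.card U := by
    intro ν
    rw [← hcard]
    exact (Finset.card_le_card (Finset.filter_subset _ _)).trans
      (Finset.card_le_card (Finset.filter_subset _ _))
  have hM1 : (1 : ℝ) ≤ 2 ^ Fintype.card U := one_le_pow₀ (by norm_num)
  have h1c : ∀ ν, ‖(1 : ℂ) - c ν‖ ≤ 2 ^ Fintype.card U := by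
    intro ν
    have e2 : ((1 : ℂ) - c ν) = (((1 : ℝ) - c ν : ℝ) : ℂ) := by push_cast; ring
    rw [e2, Complex.norm_real, Real.norm_eq_abs, abs_le]
    have e3 : (c ν : ℝ) ≤ 2 ^ Fintype.card U := by exact_mod_cast hc ν
    have e4 : (0 : ℝ) ≤ c ν := Nat.cast_nonneg _
    constructor <;> linarith
  -- the key estimate
  have key : ∀ ν ∈ P, ‖((1 : ℂ) - c ν) * f ν‖ ≤ (2 : ℝ) ^ Fintype.card U *
      ((if ∃ w w', τ ≤ ν w ∧ τ ≤ ν w' ∧ B w w' + B w' w ≠ 0 then ‖f ν‖ else 0) +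
        (if (Finset.univ.filter fun w => τ ≤ ν w).card < N then ‖f ν‖ else 0) +
        ∑ 𝓥 ∈ 𝒲, if (∀ w, (τ ≤ ν w ↔ w ∈ 𝓥)) ∧
              ((∃ w ∈ 𝓥, ∃ v, α v w ≠ 0) ∨ ∃ w, w ∉ 𝓥 ∧ 1 ≤ ν w) then ‖f ν‖ else 0) := by
    intro ν _
    have hf : (0 : ℝ) ≤ ‖f ν‖ := norm_nonneg _
    have hs : (0 : ℝ) ≤ ∑ 𝓥 ∈ 𝒲, if (∀ w, (τ ≤ ν w ↔ w ∈ 𝓥)) ∧
              ((∃ w ∈ 𝓥, ∃ v, α v w ≠ 0) ∨ ∃ w, w ∉ 𝓥 ∧ 1 ≤ ν w) then ‖f ν‖ else 0 := by
      refine Finset.sum_nonneg fun 𝓥 _ => ?_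
      split_ifs
      · exact hf
      · exact le_rfl
    have hbd : ‖((1 : ℂ) - c ν) * f ν‖ ≤ (2 : ℝ) ^ Fintype.card U * ‖f ν‖ := by
      rw [norm_mul]
      exact mul_le_mul_of_nonneg_right (h1c ν) hf
    by_cases hA : ∃ w w', τ ≤ ν w ∧ τ ≤ ν w' ∧ B w w' + B w' w ≠ 0
    · refine hbd.trans (mul_le_mul_of_nonneg_left ?_ (by positivity))
      rw [if_pos hA]
      have : (0 : ℝ) ≤ if (Finset.univ.filter fun w => τ ≤ ν w).card < N then ‖f ν‖ else 0 := by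
        split_ifs
        · exact hf
        · exact le_rfl
      linarith
    by_cases hB : (Finset.univ.filter fun w => τ ≤ ν w).card < N
    · refine hbd.trans (mul_le_mul_of_nonneg_left ?_ (by positivity))
      rw [if_neg hA, if_pos hB]
      linarith
    have hunl : ∀ w ∈ (Finset.univ.filter fun w => τ ≤ ν w), ∀ w' ∈ (Finset.univ.filter fun w =>
        τ ≤ ν w), B w w' + B w' w = 0 := by
      intro w hw w' hw'
      by_contra h3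
      exact hA ⟨w, w', (Finset.mem_filter.mp hw).2, (Finset.mem_filter.mp hw').2, h3⟩
    have hWN : (Finset.univ.filter fun w => τ ≤ ν w).card = N :=
      le_antisymm (hU.card _ hunl) (not_lt.mp hB)
    have hWmem : (Finset.univ.filter fun w => τ ≤ ν w) ∈ 𝒲 := by
      rw [h𝒲, Finset.mem_filter]
      exact ⟨Finset.mem_univ _, hWN, hunl⟩
    by_cases hC : (∃ w ∈ (Finset.univ.filter fun w => τ ≤ ν w), ∃ v, α v w ≠ 0) ∨
        ∃ w, w ∉ (Finset.univ.filter fun w => τ ≤ ν w) ∧ 1 ≤ ν w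
    · refine hbd.trans (mul_le_mul_of_nonneg_left ?_ (by positivity))
      rw [if_neg hA, if_neg hB, zero_add, zero_add]
      have h4 := Finset.single_le_sum (f := fun 𝓥 : Finset U => if (∀ w, (τ ≤ ν w ↔ w ∈ 𝓥)) ∧
              ((∃ w ∈ 𝓥, ∃ v, α v w ≠ 0) ∨ ∃ w, w ∉ 𝓥 ∧ 1 ≤ ν w) then ‖f ν‖ else 0)
              (s := 𝒲) (fun 𝓥 _ => by
                split_ifs
                · exact hf
                · exact le_rfl) hWmem
      refine le_trans ?_ h4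
      rw [if_pos ⟨fun w => by simp, hC⟩]
    · push Not at hC
      obtain ⟨hC1, hC2⟩ := hC
      have hc1 : c ν = 1 := by
        change (𝒱.filter fun 𝓥 => ∀ w, ν w ≠ 0 → w ∈ 𝓥).card = 1
        rw [Finset.card_eq_one]
        refine ⟨Finset.univ.filter fun w => τ ≤ ν w, ?_⟩
        ext 𝓥
        rw [Finset.mem_filter, Finset.mem_singleton, h𝒱, Finset.mem_filter]
        constructor
        · rintro ⟨⟨-, h5, -, -⟩, h6⟩
          symm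
          refine Finset.eq_of_subset_of_card_le ?_ (by rw [h5, hWN])
          intro w hw
          have := (Finset.mem_filter.mp hw).2
          exact h6 w (by omega)
        · rintro rfl
          refine ⟨⟨Finset.mem_univ _, hWN, hunl, fun w hw v => hC1 w hw v⟩, ?_⟩
          intro w hw
          by_contra h7
          have := hC2 w h7
          omega
      rw [hc1, Nat.cast_one, sub_self, zero_mul, norm_zero]
      refine mul_nonneg (by positivity) ?_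
      rw [if_neg hA, if_neg hB, zero_add, zero_add]
      exact hs
  rw [h1, ← Finset.sum_sub_distrib]
  have h2 : ∀ ν ∈ P, f ν - (c ν : ℂ) * f ν = ((1 : ℂ) - c ν) * f ν := fun ν _ => by ring
  rw [Finset.sum_congr rfl h2]
  refine (norm_sum_le _ _).trans ((Finset.sum_le_sum key).trans ?_)
  rw [← Finset.mul_sum, Finset.sum_add_distrib, Finset.sum_add_distrib, Finset.sum_comm]
  simp only [Finset.sum_filter]
  exact le_rfl

end sort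

/-- The constants. -/
theorem pperr_rpow {n : ℕ} {s : ℝ} (hs1 : s ≤ 1) {b : ℝ} (hb : 1 ≤ b) :
    ((n : ℝ) / b) ^ (-s) ≤ b * (n : ℝ) ^ (-s) := by
  have hb0 : (0 : ℝ) < b := by linarith
  rw [Real.div_rpow (Nat.cast_nonneg _) hb0.le]
  have h1 : b⁻¹ ≤ b ^ (-s) := by
    rw [← Real.rpow_neg_one]
    exact Real.rpow_le_rpow_of_exponent_le hb (by linarith)
  have h2 : (0 : ℝ) < b ^ (-s) := Real.rpow_pos_of_pos hb0 _
  have h3 : (0 : ℝ) ≤ (n : ℝ) ^ (-s) := Real.rpow_nonneg (Nat.cast_nonneg _) _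
  rw [div_le_iff₀ h2]
  have h4 : 1 ≤ b * b ^ (-s) := by
    have := mul_le_mul_of_nonneg_left h1 hb0.le
    rwa [mul_inv_cancel₀ hb0.ne'] at this
  calc (n : ℝ) ^ (-s) = (n : ℝ) ^ (-s) * 1 := (mul_one _).symm
    _ ≤ (n : ℝ) ^ (-s) * (b * b ^ (-s)) := mul_le_mul_of_nonneg_left h4 h3
    _ = b * (n : ℝ) ^ (-s) * b ^ (-s) := by ring

/-- The inequality of the constants. -/
theorem pperr_real (d : ℕ) (L R T D lg l6 r1 r2 r4 C1 C2 E M N : ℝ) (hL1 : 1 ≤ L) (hR0 : 0 ≤ R)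
    (hT0 : 0 ≤ T) (hτ : T + 1 ≤ C1 * L) (hD0 : 0 ≤ D) (hD : D ≤ C2 * L) (hlg : lg ≤ E * L)
    (hE : 0 ≤ E) (_ : 0 ≤ lg) (h60 : 0 ≤ l6) (h6 : l6 ≤ 7 * L) (hr1 : r1 ≤ R) (hr20 : 0 ≤ r2)
    (hr2 : r2 ≤ 2 * R) (hr40 : 0 ≤ r4) (hr4 : r4 ≤ 4 * R) (hM : 0 ≤ M) (hN : 0 ≤ N)
    (hC1 : 0 ≤ C1) (_ : 0 ≤ C2) :
    r1 + (2 * (T + 1)) ^ d * r2 + M * (N * (160 * (D ^ 2 + lg) * ((T + 1) ^ d * (r4 * l6)))) ≤
    (1 + (2 * C1) ^ d * 2 + M * (N * (160 * (C2 ^ 2 + E) * (C1 ^ d * (4 * 7))))) *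
      (L ^ (d + 3) * R) := by
  have hL0 : 0 ≤ L := by linarith
  have hLp : L ^ d ≤ L ^ (d + 3) := pow_le_pow_right₀ hL1 (by omega)
  have t1 : r1 ≤ 1 * (L ^ (d + 3) * R) := by
    have e1 : 1 ≤ L ^ (d + 3) := one_le_pow₀ hL1
    have e2 := mul_le_mul_of_nonneg_right e1 hR0
    rw [one_mul] at e2 ⊢
    exact hr1.trans e2
  have t2 : (2 * (T + 1)) ^ d * r2 ≤ ((2 * C1) ^ d * 2) * (L ^ (d + 3) * R) := by
    have e1 : (2 * (T + 1)) ^ d ≤ (2 * (C1 * L)) ^ d :=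
      pow_le_pow_left₀ (by positivity) (mul_le_mul_of_nonneg_left hτ (by norm_num)) _
    have e2 : (2 * (T + 1)) ^ d * r2 ≤ (2 * (C1 * L)) ^ d * (2 * R) :=
      mul_le_mul e1 hr2 hr20 (by positivity)
    have e3 : (2 * (C1 * L)) ^ d * (2 * R) = ((2 * C1) ^ d * 2) * (L ^ d * R) := by
      rw [← mul_assoc 2 C1 L, mul_pow (2 * C1) L]; ring
    rw [e3] at e2
    refine e2.trans (mul_le_mul_of_nonneg_left ?_ (by positivity))
    exact mul_le_mul_of_nonneg_right hLp hR0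
  have t3 : M * (N * (160 * (D ^ 2 + lg) * ((T + 1) ^ d * (r4 * l6)))) ≤
      (M * (N * (160 * (C2 ^ 2 + E) * (C1 ^ d * (4 * 7))))) * (L ^ (d + 3) * R) := by
    have e1 : D ^ 2 + lg ≤ (C2 ^ 2 + E) * L ^ 2 := by
      have e2 : D ^ 2 ≤ (C2 * L) ^ 2 := pow_le_pow_left₀ hD0 hD _
      have e3 : E * L ≤ E * L ^ 2 := by
        refine mul_le_mul_of_nonneg_left ?_ hE
        nlinarith
      rw [mul_pow] at e2
      linarith
    have e4 : (T + 1) ^ d ≤ (C1 * L) ^ d := pow_le_pow_left₀ (by positivity) hτ _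
    have e5 : r4 * l6 ≤ (4 * R) * (7 * L) := mul_le_mul hr4 h6 h60 (by positivity)
    have e6 : (T + 1) ^ d * (r4 * l6) ≤ (C1 * L) ^ d * ((4 * R) * (7 * L)) :=
      mul_le_mul e4 e5 (mul_nonneg hr40 h60) (by positivity)
    have e7 : 160 * (D ^ 2 + lg) * ((T + 1) ^ d * (r4 * l6)) ≤
        160 * ((C2 ^ 2 + E) * L ^ 2) * ((C1 * L) ^ d * ((4 * R) * (7 * L))) :=
      mul_le_mul (mul_le_mul_of_nonneg_left e1 (by norm_num)) e6
        (mul_nonneg (by positivity) (mul_nonneg hr40 h60)) (by positivity)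
    refine (mul_le_mul_of_nonneg_left (mul_le_mul_of_nonneg_left e7 hN) hM).trans (le_of_eq ?_)
    rw [mul_pow C1 L]
    ring
  rw [add_mul, add_mul]
  exact add_le_add (add_le_add t1 t2) t3

/-- The logarithms. -/
theorem pperr_log (n D₀ : ℕ) (hn : 1 ≤ n) :
    (Nat.log 2 (D₀ + n + 2) : ℝ) ≤ ((D₀ : ℝ) + 1) * ((Nat.log 2 (n + 2) : ℝ) + 1) ∧
      6 + Real.log n ≤ 7 * ((Nat.log 2 (n + 2) : ℝ) + 1) := by
  obtain ⟨l, hl⟩ : ∃ l, l = Nat.log 2 (n + 2) := ⟨_, rfl⟩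
  have e0 : n + 2 < 2 ^ (l + 1) := by rw [hl]; exact Nat.lt_pow_succ_log_self (by norm_num) _
  rw [← hl]
  have hl0 : (0 : ℝ) ≤ l := Nat.cast_nonneg _
  have hD0 : (0 : ℝ) ≤ D₀ := Nat.cast_nonneg _
  constructor
  · have e1 : Nat.log 2 (D₀ + n + 2) < D₀ + (l + 1) := by
      apply Nat.log_lt_of_lt_pow (by omega)
      have e3 : D₀ < 2 ^ D₀ := Nat.lt_two_pow_self
      have e4 : (D₀ + 1) * (n + 2) ≤ 2 ^ D₀ * (n + 2) := Nat.mul_le_mul_right _ e3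
      have e5 : 2 ^ D₀ * (n + 2) < 2 ^ D₀ * 2 ^ (l + 1) :=
        Nat.mul_lt_mul_of_pos_left e0 (by positivity)
      rw [pow_add]
      refine lt_of_le_of_lt ?_ (lt_of_le_of_lt e4 e5)
      nlinarith
    have e2 : (Nat.log 2 (D₀ + n + 2) : ℝ) ≤ (D₀ : ℝ) + (l + 1) := by exact_mod_cast e1.le
    nlinarith
  · have hnR : (1 : ℝ) ≤ n := by exact_mod_cast hn
    have e2 : (n : ℝ) ≤ 2 ^ (l + 1) := by
      have e4 : n ≤ 2 ^ (l + 1) := by omega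
      exact_mod_cast e4
    have e5 := Real.log_le_log (by linarith) e2
    rw [Real.log_pow] at e5
    have e6 : Real.log 2 ≤ 1 := by
      have := Real.log_le_sub_one_of_pos (show (0 : ℝ) < 2 by norm_num)
      linarith
    have e8 : (0 : ℝ) ≤ ((l + 1 : ℕ) : ℝ) := Nat.cast_nonneg _
    have e9 : ((l + 1 : ℕ) : ℝ) * Real.log 2 ≤ ((l + 1 : ℕ) : ℝ) * 1 :=
      mul_le_mul_of_nonneg_left e6 e8
    push_cast at e5 e9
    linarith

/-- The limit. -/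
theorem pperr_lim (hLim : StmtPpLim) (d N D₀ : ℕ) (hN : 2 ≤ N) (M : ℝ) (hM : 1 ≤ M) (ε : ℝ)
    (hε : 0 < ε) : ∃ n₀ : ℕ, ∀ n : ℕ, n₀ ≤ n → ∀ τ : ℕ,
      τ = 4 * ((d + 2) * (Nat.log 2 (n + 2) + 1)) → 1 ≤ n ∧ 2 * (d * τ) ≤ n ∧
      M * (1 / ((n : ℝ) + 2) + (2 * ((τ : ℝ) + 1)) ^ d * ((n : ℝ) / 2) ^ (-(1 / N : ℝ)) +
        M * (N * (160 * (((D₀ + d * τ + 1 : ℕ) : ℝ) ^ 2 +
          (Nat.log 2 (D₀ + n + 2) : ℝ)) * (((τ : ℝ) + 1) ^ d *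
          (((n : ℝ) / 4) ^ (-(1 / N : ℝ)) * (6 + Real.log n)))))) ≤ ε := by
  have hN0 : (0 : ℝ) < N := by
    have : 0 < N := by omega
    exact_mod_cast this
  obtain ⟨s, hs⟩ : ∃ s : ℝ, s = 1 / N := ⟨_, rfl⟩
  have hs0 : 0 < s := by rw [hs]; positivity
  have hs1 : s ≤ 1 := by
    rw [hs, div_le_one hN0]
    have : 1 ≤ N := by omega
    exact_mod_cast this
  rw [← hs]
  have hd0 : (0 : ℝ) ≤ d := Nat.cast_nonneg _
  have hD0 : (0 : ℝ) ≤ D₀ := Nat.cast_nonneg _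
  -- the constants
  obtain ⟨C1, hC1⟩ : ∃ C1 : ℝ, C1 = 4 * (d + 2) + 1 := ⟨_, rfl⟩
  obtain ⟨C2, hC2⟩ : ∃ C2 : ℝ, C2 = D₀ + d * (4 * (d + 2)) + 1 := ⟨_, rfl⟩
  have hC1p : 0 ≤ C1 := by rw [hC1]; positivity
  have hC2p : 0 ≤ C2 := by rw [hC2]; positivity
  obtain ⟨C6, hC6⟩ : ∃ C6 : ℝ, C6 = 1 + (2 * C1) ^ d * 2 +
    M * (N * (160 * (C2 ^ 2 + (D₀ + 1)) * (C1 ^ d * (4 * 7)))) := ⟨_, rfl⟩
  have hC6p : 0 < C6 := by rw [hC6]; positivity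
  obtain ⟨n₁, h₁⟩ := hLim (d + 3) s (ε / (M * C6)) hs0 (by positivity)
  obtain ⟨n₂, h₂⟩ := hLim 1 1 (1 / (8 * d * (d + 2) + 1)) one_pos (by positivity)
  refine ⟨max (max n₁ n₂) 1, fun n hn τ hτe => ?_⟩
  have hn1 : n₁ ≤ n := (le_max_left _ _).trans ((le_max_left _ _).trans hn)
  have hn2 : n₂ ≤ n := (le_max_right _ _).trans ((le_max_left _ _).trans hn)
  have hn3 : 1 ≤ n := (le_max_right _ _).trans hn
  have hnR : (1 : ℝ) ≤ n := by exact_mod_cast hn3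
  have hnp : (0 : ℝ) < n := by linarith
  have h₁' := h₁ n hn1
  have h₂' := h₂ n hn2
  obtain ⟨hlog, hln⟩ := pperr_log n D₀ hn3
  obtain ⟨l, hl⟩ : ∃ l, l = Nat.log 2 (n + 2) := ⟨_, rfl⟩
  rw [← hl] at hτe h₁' h₂' hlog hln
  obtain ⟨L, hL⟩ : ∃ L : ℝ, L = (l : ℝ) + 1 := ⟨_, rfl⟩
  rw [← hL] at h₁' h₂' hlog hln
  have hl0 : (0 : ℝ) ≤ l := Nat.cast_nonneg _
  have hL1 : 1 ≤ L := by rw [hL]; linarith
  have hτR : (τ : ℝ) = 4 * ((d + 2) * L) := by rw [hτe, hL]; push_cast; ring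
  have hτ0 : (0 : ℝ) ≤ τ := Nat.cast_nonneg _
  refine ⟨hn3, ?_, ?_⟩
  · rw [pow_one, Real.rpow_neg_one] at h₂'
    rw [mul_inv_le_iff₀ hnp, div_mul_eq_mul_div, one_mul, le_div_iff₀ (by positivity)] at h₂'
    have h3 : 2 * ((d : ℝ) * τ) ≤ (n : ℝ) := by
      rw [hτR]
      nlinarith
    exact_mod_cast h3
  · obtain ⟨R, hR⟩ : ∃ R : ℝ, R = (n : ℝ) ^ (-s) := ⟨_, rfl⟩
    have hR0 : 0 ≤ R := by rw [hR]; exact Real.rpow_nonneg hnp.le _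
    rw [← hR] at h₁'
    have hr2 : ((n : ℝ) / 2) ^ (-s) ≤ 2 * R := by rw [hR]; exact pperr_rpow hs1 (by norm_num)
    have hr4 : ((n : ℝ) / 4) ^ (-s) ≤ 4 * R := by rw [hR]; exact pperr_rpow hs1 (by norm_num)
    have hr1 : 1 / ((n : ℝ) + 2) ≤ R := by
      have e1 : (n : ℝ)⁻¹ ≤ R := by
        rw [hR, ← Real.rpow_neg_one]
        exact Real.rpow_le_rpow_of_exponent_le hnR (by linarith)
      refine le_trans ?_ e1
      rw [one_div]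
      exact inv_anti₀ hnp (by linarith)
    have hτ : (τ : ℝ) + 1 ≤ C1 * L := by
      rw [hτR, hC1]
      linarith
    have hD : ((D₀ + d * τ + 1 : ℕ) : ℝ) ≤ C2 * L := by
      push_cast
      rw [hτR, hC2]
      nlinarith
    have hln0 : 0 ≤ 6 + Real.log n := by
      have := Real.log_nonneg hnR
      linarith
    have hfin := pperr_real d L R τ ((D₀ + d * τ + 1 : ℕ) : ℝ) (Nat.log 2 (D₀ + n + 2) : ℝ)
      (6 + Real.log n) (1 / ((n : ℝ) + 2)) (((n : ℝ) / 2) ^ (-s)) (((n : ℝ) / 4) ^ (-s)) C1 C2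
      (D₀ + 1) M N hL1 hR0 hτ0 hτ (Nat.cast_nonneg _) hD hlog (by positivity) (Nat.cast_nonneg _)
      hln0 hln hr1 (Real.rpow_nonneg (by positivity) _) hr2 (Real.rpow_nonneg (by positivity) _)
      hr4 (by linarith) hN0.le hC1p hC2p
    rw [← hC6] at hfin
    refine (mul_le_mul_of_nonneg_left hfin (by linarith)).trans ?_
    rw [← mul_assoc]
    refine (mul_le_mul_of_nonneg_left h₁' (by positivity)).trans ?_
    rw [mul_div_cancel₀ _ (by positivity)]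

theorem tPpErr.{v} (hPpRec : StmtPpRec.{v}) (hPpSA : StmtPpSA) (hPpLim : StmtPpLim)
    (hPpTri : StmtPpTri.{v}) (hPpEA : StmtPpEA.{v}) (hPpEB : StmtPpEB.{v}) : StmtPpErr.{v} := by
  classical
  intro F _ _ ℓ _ hℓ hℓ2 hdvd χ hχ hR V U _ _ _ pr hpr α αi B N hU ε hε
  obtain ⟨n₀, hn₀⟩ := pperr_lim hPpLim (Fintype.card U) N (∑ v, (pr v).natDegree) hU.two
    (2 ^ Fintype.card U) (one_le_pow₀ (by norm_num)) ε hε
  refine ⟨n₀, fun n hn => ?_⟩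
  obtain ⟨hn1, hn2, hn3⟩ := hn₀ n hn (thr U n) (by rw [thr])
  have hq0 : (0 : ℝ) < (Nat.card F : ℝ) := by exact_mod_cast Nat.card_pos
  have hτ1 : 1 ≤ thr U n := by
    rw [thr]
    have : 0 < 4 * ((Fintype.card U + 2) * (Nat.log 2 (n + 2) + 1)) := by positivity
    exact this
  have hA := hPpEA F ℓ hℓ hdvd χ hχ hR V U pr α αi B N (le_trans one_le_two hU.two) hU.diag n
  have hB' := fun hrec => hPpSA U N hU.two (fun n => GG F (1 / N : ℝ) n / (Nat.card F : ℝ) ^ n)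
    hrec (thr U n) n hn1 hn2
  have hC' := fun 𝓥 => hPpEB F ℓ hℓ hℓ2 hdvd χ hχ hR V U pr hpr α αi B N hU n hn1 hn2 𝓥
  generalize thr U n = τ at *
  refine (pperr_sort α B N hU (fun ν => Tnu χ pr α αi B N ν) n τ hτ1).trans ?_
  have hB : ∑ ν ∈ ((Finset.univ : Finset U).piAntidiag n).filter (fun ν : U → ℕ =>
          (Finset.univ.filter fun w => τ ≤ ν w).card < N), ‖Tnu χ pr α αi B N ν‖ ≤
        (Nat.card F : ℝ) ^ n * ((2 * ((τ : ℝ) + 1)) ^ Fintype.card U *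
          ((n : ℝ) / 2) ^ (-(1 / N : ℝ))) := by
    obtain ⟨-, hrec⟩ := hPpRec F (1 / N : ℝ) (by positivity)
    have h1 := hB' hrec
    refine le_trans ?_ (mul_le_mul_of_nonneg_left h1 (by positivity))
    rw [Finset.mul_sum]
    refine Finset.sum_le_sum fun ν hν => ?_
    refine (hPpTri F ℓ χ V U pr α αi B N ν).trans (le_of_eq ?_)
    have h2 : ∑ w, ν w = n := (Finset.mem_piAntidiag.mp (Finset.mem_filter.mp hν).1).1
    rw [Finset.prod_div_distrib, Finset.prod_pow_eq_pow_sum, h2,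
      mul_div_cancel₀ _ (pow_ne_zero _ hq0.ne')]
  obtain ⟨Z, hZ⟩ : ∃ Z : ℝ, Z = (N * (160 *
        (((∑ v, (pr v).natDegree + Fintype.card U * τ + 1 : ℕ) : ℝ) ^ 2 +
          (Nat.log 2 (∑ v, (pr v).natDegree + n + 2) : ℝ)) *
        (((τ : ℝ) + 1) ^ Fintype.card U *
          (((n : ℝ) / 4) ^ (-(1 / N : ℝ)) * (6 + Real.log n))))) := ⟨_, rfl⟩
  have hZ0 : 0 ≤ Z := by
    have h1 : 0 ≤ Real.log n := Real.log_nonneg (by exact_mod_cast hn1)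
    rw [hZ]; positivity
  have hC : ∀ 𝓥 ∈ (Finset.univ : Finset (Finset U)).filter (fun 𝓥 => 𝓥.card = N ∧
          (∀ w ∈ 𝓥, ∀ w' ∈ 𝓥, B w w' + B w' w = 0)),
          ∑ ν ∈ ((Finset.univ : Finset U).piAntidiag n).filter (fun ν : U → ℕ =>
            (∀ w, (τ ≤ ν w ↔ w ∈ 𝓥)) ∧
              ((∃ w ∈ 𝓥, ∃ v, α v w ≠ 0) ∨ ∃ w, w ∉ 𝓥 ∧ 1 ≤ ν w)), ‖Tnu χ pr α αi B N ν‖ ≤
      (Nat.card F : ℝ) ^ n * Z := by
    intro 𝓥 h𝓥
    rw [Finset.mem_filter] at h𝓥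
    rw [hZ]
    exact hC' 𝓥 h𝓥.2.1 h𝓥.2.2
  rw [← hZ] at hn3
  have hcard : (((Finset.univ : Finset (Finset U)).filter (fun 𝓥 => 𝓥.card = N ∧
          (∀ w ∈ 𝓥, ∀ w' ∈ 𝓥, B w w' + B w' w = 0))).card : ℝ) ≤ 2 ^ Fintype.card U := by
    have h1 : ((Finset.univ : Finset (Finset U)).filter (fun 𝓥 => 𝓥.card = N ∧
          (∀ w ∈ 𝓥, ∀ w' ∈ 𝓥, B w w' + B w' w = 0))).card ≤ 2 ^ Fintype.card U := by
      rw [← Fintype.card_finset, ← Finset.card_univ]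
      exact Finset.card_le_card (Finset.filter_subset _ _)
    exact_mod_cast h1
  have hCC := Finset.sum_le_sum hC
  rw [Finset.sum_const, nsmul_eq_mul] at hCC
  have hCD := hCC.trans (mul_le_mul_of_nonneg_right hcard (by positivity))
  refine (mul_le_mul_of_nonneg_left (add_le_add (add_le_add hA hB) hCD) (by positivity)).trans ?_
  refine le_trans (le_of_eq ?_) (mul_le_mul_of_nonneg_right hn3 (by positivity :
    (0 : ℝ) ≤ (Nat.card F : ℝ) ^ n))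
  ring

end MP72e2e6
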