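import Pool.Agent.Lib.MP_72e2e6_nt.PeStmt
import Pool.Agent.Lib.MP_72e2e6_nt.PpErr

/-!
# MP_72e2e6_nt: positive proportion of quadratic twists, module PeErr
-/

set_option autoImplicit false

namespace MP72e2e6

open Polynomial

universe u

theorem tPeErr.{v} (hPpRec : StmtPpRec.{v}) (hPpSA : StmtPpSA) (hPpLim : StmtPpLim)
    (hPpTri : StmtPpTri.{v}) (hPpEA : StmtPpEA.{v}) (hPpEB : StmtPeEB.{v}) : StmtPeErr.{v} := by
  classical
  intro F _ _ hq4 hdvd χ hχ hR V U _ _ _ pr hpr α αi B N hU ε hε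
  obtain ⟨n₀, hn₀⟩ := pperr_lim hPpLim (Fintype.card U) N (∑ v, (pr v).natDegree) hU.two
    (2 ^ Fintype.card U) (one_le_pow₀ (by norm_num)) ε hε
  refine ⟨n₀, fun n hn => ?_⟩
  obtain ⟨hn1, hn2, hn3⟩ := hn₀ n hn (thr U n) (by rw [thr])
  have hq0 : (0 : ℝ) < (Nat.card F : ℝ) := by exact_mod_cast Nat.card_pos
  have hτ1 : 1 ≤ thr U n := by
    rw [thr]
    have : 0 < 4 * ((Fintype.card U + 2) * (Nat.log 2 (n + 2) + 1)) := by positivity
    exact this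
  have hA := hPpEA F 2 Nat.prime_two hdvd χ hχ hR V U pr α αi B N (le_trans one_le_two hU.two) hU.diag n
  have hB' := fun hrec => hPpSA U N hU.two (fun n => GG F (1 / N : ℝ) n / (Nat.card F : ℝ) ^ n)
    hrec (thr U n) n hn1 hn2
  have hC' := fun 𝓥 => hPpEB F hq4 hdvd χ hχ hR V U pr hpr α αi B N hU n hn1 hn2 𝓥
  generalize thr U n = τ at *
  refine (pperr_sort α B N hU (fun ν => Tnu χ pr α αi B N ν) n τ hτ1).trans ?_
  have hB : ∑ ν ∈ ((Finset.univ : Finset U).piAntidiag n).filter (fun ν : U → ℕ =>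
          (Finset.univ.filter fun w => τ ≤ ν w).card < N), ‖Tnu χ pr α αi B N ν‖ ≤
        (Nat.card F : ℝ) ^ n * ((2 * ((τ : ℝ) + 1)) ^ Fintype.card U *
          ((n : ℝ) / 2) ^ (-(1 / N : ℝ))) := by
    obtain ⟨-, hrec⟩ := hPpRec F (1 / N : ℝ) (by positivity)
    have h1 := hB' hrec
    refine le_trans ?_ (mul_le_mul_of_nonneg_left h1 (by positivity))
    rw [Finset.mul_sum]
    refine Finset.sum_le_sum fun ν hν => ?_
    refine (hPpTri F 2 χ V U pr α αi B N ν).trans (le_of_eq ?_)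
    have h2 : ∑ w, ν w = n := (Finset.mem_piAntidiag.mp (Finset.mem_filter.mp hν).1).1
    rw [Finset.prod_div_distrib, Finset.prod_pow_eq_pow_sum, h2,
      mul_div_cancel₀ _ (pow_ne_zero _ hq0.ne')]
  obtain ⟨Z, hZ⟩ : ∃ Z : ℝ, Z = (N * (160 *
        (((∑ v, (pr v).natDegree + Fintype.card U * τ + 1 : ℕ) : ℝ) ^ 2 +
          (Nat.log 2 (∑ v, (pr v).natDegree + n + 2) : ℝ)) *
        (((τ : ℝ) + 1) ^ Fintype.card U *
          (((n : ℝ) / 4) ^ (-(1 / N : ℝ)) * (6 + Real.log n))))) := ⟨_, rfl⟩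
  have hZ0 : 0 ≤ Z := by
    have h1 : 0 ≤ Real.log n := Real.log_nonneg (by exact_mod_cast hn1)
    rw [hZ]; positivity
  have hC : ∀ 𝓥 ∈ (Finset.univ : Finset (Finset U)).filter (fun 𝓥 => 𝓥.card = N ∧
          (∀ w ∈ 𝓥, ∀ w' ∈ 𝓥, B w w' + B w' w = 0)),
          ∑ ν ∈ ((Finset.univ : Finset U).piAntidiag n).filter (fun ν : U → ℕ =>
            (∀ w, (τ ≤ ν w ↔ w ∈ 𝓥)) ∧
              ((∃ w ∈ 𝓥, ∃ v, α v w ≠ 0) ∨ ∃ w, w ∉ 𝓥 ∧ 1 ≤ ν w)), ‖Tnu χ pr α αi B N ν‖ ≤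
      (Nat.card F : ℝ) ^ n * Z := by
    intro 𝓥 h𝓥
    rw [Finset.mem_filter] at h𝓥
    rw [hZ]
    exact hC' 𝓥 h𝓥.2.1 h𝓥.2.2
  rw [← hZ] at hn3
  have hcard : (((Finset.univ : Finset (Finset U)).filter (fun 𝓥 => 𝓥.card = N ∧
          (∀ w ∈ 𝓥, ∀ w' ∈ 𝓥, B w w' + B w' w = 0))).card : ℝ) ≤ 2 ^ Fintype.card U := by
    have h1 : ((Finset.univ : Finset (Finset U)).filter (fun 𝓥 => 𝓥.card = N ∧
          (∀ w ∈ 𝓥, ∀ w' ∈ 𝓥, B w w' + B w' w = 0))).card ≤ 2 ^ Fintype.card U := by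
      rw [← Fintype.card_finset, ← Finset.card_univ]
      exact Finset.card_le_card (Finset.filter_subset _ _)
    exact_mod_cast h1
  have hCC := Finset.sum_le_sum hC
  rw [Finset.sum_const, nsmul_eq_mul] at hCC
  have hCD := hCC.trans (mul_le_mul_of_nonneg_right hcard (by positivity))
  refine (mul_le_mul_of_nonneg_left (add_le_add (add_le_add hA hB) hCD) (by positivity)).trans ?_
  refine le_trans (le_of_eq ?_) (mul_le_mul_of_nonneg_right hn3 (by positivity :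
    (0 : ℝ) ≤ (Nat.card F : ℝ) ^ n))
  ring

end MP72e2e6
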