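import Pool.Agent.Lib.MP_72e2e6_nt.PeStmt
import Mathlib.RingTheory.Norm.Transitivity
import Mathlib.FieldTheory.Finite.GaloisField
import Mathlib.NumberTheory.LegendreSymbol.QuadraticChar.Basic

/-!
# MP_72e2e6_nt: quadratic twists, the sum over the prime powers as a sum over a finite field
-/

set_option autoImplicit false

namespace MP72e2e6

open Polynomial

universe u

/-- The norm of the value of a polynomial. -/
theorem peext_norm {F : Type u} [Field F] {K : Type} [Field K] [Algebra F K]
    [FiniteDimensional F K] (x : K) (h : F[X]) :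
    Algebra.norm F (aeval x h) =
      nm (minpoly F x) h ^ (Module.finrank F K / (minpoly F x).natDegree) := by
  have hx : IsIntegral F x := IsIntegral.of_finite F x
  have hirr : Fact (Irreducible (minpoly F x)) := ⟨minpoly.irreducible hx⟩
  have hP0 : minpoly F x ≠ 0 := minpoly.ne_zero hx
  have h0 : (minpoly F x).eval₂ (Algebra.ofId F K) x = 0 := minpoly.aeval F x
  let φ : AdjoinRoot (minpoly F x) →ₐ[F] K :=
    AdjoinRoot.liftAlgHom (minpoly F x) (Algebra.ofId F K) x h0
  letI : Algebra (AdjoinRoot (minpoly F x)) K := φ.toRingHom.toAlgebra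
  have hst : IsScalarTower F (AdjoinRoot (minpoly F x)) K :=
    IsScalarTower.of_algebraMap_eq fun r => (φ.commutes r).symm
  have hfin : FiniteDimensional F (AdjoinRoot (minpoly F x)) :=
    (AdjoinRoot.powerBasis hP0).finite
  have hfin2 : FiniteDimensional (AdjoinRoot (minpoly F x)) K :=
    FiniteDimensional.right F (AdjoinRoot (minpoly F x)) K
  have hr : Module.finrank F (AdjoinRoot (minpoly F x)) = (minpoly F x).natDegree := by
    rw [(AdjoinRoot.powerBasis hP0).finrank, AdjoinRoot.powerBasis_dim]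
  have hr2 := Module.finrank_mul_finrank F (AdjoinRoot (minpoly F x)) K
  rw [hr] at hr2
  have hpos : 0 < (minpoly F x).natDegree := minpoly.natDegree_pos hx
  have hr3 : Module.finrank F K / (minpoly F x).natDegree =
      Module.finrank (AdjoinRoot (minpoly F x)) K := by
    rw [← hr2, Nat.mul_div_cancel_left _ hpos]
  have h1 : aeval x h = algebraMap (AdjoinRoot (minpoly F x)) K (AdjoinRoot.mk _ h) := rfl
  rw [h1, ← Algebra.norm_norm (R := F) (S := AdjoinRoot (minpoly F x)),
    Algebra.norm_algebraMap, map_pow, hr3]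
  rfl

theorem peext_psi_one : (ZMod.stdAddChar (1 : ZMod 2) : ℂ) = -1 := by
  have h1 : (ZMod.stdAddChar (1 : ZMod 2) : ℂ) * ZMod.stdAddChar (1 : ZMod 2) = 1 := by
    rw [← AddChar.map_add_eq_mul]
    have h2 : (1 : ZMod 2) + 1 = 0 := by decide
    rw [h2, AddChar.map_zero_eq_one]
  rcases mul_self_eq_one_iff.1 h1 with h | h
  · exfalso
    rw [← AddChar.map_zero_eq_one (ZMod.stdAddChar (N := 2))] at h
    exact absurd (ZMod.injective_stdAddChar h) (by decide)
  · exact h

/-- The quadratic character of an extension. -/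
theorem peext_qc {F : Type u} [Field F] [Finite F] (h2 : 2 ∣ Nat.card F - 1) {χ : F → ZMod 2}
    (hχ : IsLg 2 χ) {K : Type} [Field K] [Fintype K] [DecidableEq K] [Algebra F K] (z : K)
    (hz : z ≠ 0) :
    ((quadraticChar K z : ℤ) : ℂ) = ZMod.stdAddChar (χ (Algebra.norm F z)) := by
  classical
  letI : Fintype F := Fintype.ofFinite F
  have hfd : FiniteDimensional F K := Module.Finite.of_finite
  obtain ⟨m, hm⟩ := h2
  have hq2 : 2 ≤ Nat.card F := by
    have := Finite.one_lt_card (α := F)
    omega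
  have hKc : Nat.card K = Nat.card F ^ Module.finrank F K := Module.natCard_eq_pow_finrank
  have hdvd : Nat.card F - 1 ∣ Nat.card K - 1 := by
    rw [hKc]
    have := Nat.sub_dvd_pow_sub_pow (Nat.card F) 1 (Module.finrank F K)
    rwa [one_pow] at this
  obtain ⟨c, hc⟩ := hdvd
  have hKpos : 1 < Nat.card K := Finite.one_lt_card
  have hmpos : 0 < m := by omega
  have hFodd : Fintype.card F / 2 = m := by
    rw [← Nat.card_eq_fintype_card]
    omega
  have hKdiv : Fintype.card K / 2 = c * m := by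
    rw [← Nat.card_eq_fintype_card]
    have h3 : Nat.card K = 2 * (c * m) + 1 := by
      have h4 : (Nat.card F - 1) * c = 2 * (c * m) := by rw [hm]; ring
      omega
    omega
  have hF2 : ringChar F ≠ 2 := by
    intro h
    have h3 := FiniteField.even_card_of_char_two h
    rw [← Nat.card_eq_fintype_card] at h3
    omega
  have hK2 : ringChar K ≠ 2 := by
    intro h
    have h3 := FiniteField.even_card_of_char_two h
    rw [← Nat.card_eq_fintype_card] at h3
    have h4 : (Nat.card F - 1) * c = 2 * (c * m) := by rw [hm]; ring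
    omega
  have hy : Algebra.norm F z ≠ 0 := by
    rw [Ne, Algebra.norm_eq_zero_iff]
    exact hz
  have hnorm : algebraMap F K (Algebra.norm F z) = z ^ c := by
    rw [FiniteField.algebraMap_norm_eq_pow, hc, Nat.mul_div_cancel_left _ (by omega)]
  have hsq : IsSquare z ↔ χ (Algebra.norm F z) = 0 := by
    rw [FiniteField.isSquare_iff hK2 hz, hKdiv, pow_mul, ← hnorm, ← map_pow,
      map_eq_one_iff _ (algebraMap F K).injective, ← hFodd, ← FiniteField.isSquare_iff hF2 hy,
      hχ.ker _ hy]
    constructor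
    · rintro ⟨r, hr⟩
      exact ⟨r, by rw [hr, pow_two]⟩
    · rintro ⟨r, hr⟩
      exact ⟨r, by rw [hr, pow_two]⟩
  by_cases h : χ (Algebra.norm F z) = 0
  · rw [(quadraticChar_one_iff_isSquare hz).2 (hsq.2 h), h, AddChar.map_zero_eq_one]
    norm_num
  · have h3 : χ (Algebra.norm F z) = 1 := by
      have h4 : ∀ t : ZMod 2, t ≠ 0 → t = 1 := by decide
      exact h4 _ h
    rw [quadraticChar_neg_one_iff_not_isSquare.2 fun h5 => h (hsq.1 h5), h3, peext_psi_one]
    norm_num

theorem peext_chi_pow {F : Type u} [Field F] {χ : F → ZMod 2} (hχ : IsLg 2 χ) (h1 : χ 1 = 0)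
    {y : F} (hy : y ≠ 0) (n : ℕ) : χ (y ^ n) = n * χ y := by
  induction n with
  | zero => rw [pow_zero, h1, Nat.cast_zero, zero_mul]
  | succ n ih =>
    rw [pow_succ, hχ.mul _ _ (pow_ne_zero _ hy) hy, ih, Nat.cast_succ]
    ring

/-- One factor. -/
theorem peext_loc {F : Type u} [Field F] [Finite F] (h2 : 2 ∣ Nat.card F - 1) {χ : F → ZMod 2}
    (hχ : IsLg 2 χ) (hSy : StmtSuSy.{u}) (hR : Rcp χ) {K : Type} [Field K] [Fintype K]
    [DecidableEq K] [Algebra F K] (x : K) {p : F[X]} (hpm : p.Monic) (hpi : Irreducible p) :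
    lgc χ 1 p (minpoly F x) ^ (Module.finrank F K / (minpoly F x).natDegree) =
      ((quadraticChar K (aeval x p) : ℤ) : ℂ) := by
  have hfd : FiniteDimensional F K := Module.Finite.of_finite
  have hx : IsIntegral F x := IsIntegral.of_finite F x
  have hPi : Irreducible (minpoly F x) := minpoly.irreducible hx
  have hPm : (minpoly F x).Monic := minpoly.monic hx
  have hpos : 0 < (minpoly F x).natDegree := minpoly.natDegree_pos hx
  have hdvd : (minpoly F x).natDegree ∣ Module.finrank F K := minpoly.degree_dvd hx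
  have hj : 0 < Module.finrank F K / (minpoly F x).natDegree :=
    Nat.div_pos (Nat.le_of_dvd Module.finrank_pos hdvd) hpos
  obtain ⟨hχ1, _, hSy'⟩ := hSy F 2 Nat.prime_two h2 χ hχ
  by_cases hP : p = minpoly F x
  · have h1 : aeval x p = 0 := by rw [hP, minpoly.aeval]
    rw [h1, lgc, if_pos (by rw [← hP]), zero_pow hj.ne', quadraticChar_zero, Int.cast_zero]
  · have hn1 : ¬ p ∣ minpoly F x := by
      intro h
      exact hP (eq_of_monic_of_associated hpm hPm (hpi.associated_of_dvd hPi h))
    have hn2 : ¬ minpoly F x ∣ p := by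
      intro h
      exact hP (eq_of_monic_of_associated hpm hPm (hPi.associated_of_dvd hpi h).symm)
    have h1 : aeval x p ≠ 0 := fun h => hn2 (minpoly.dvd F x h)
    obtain ⟨_, ha2, ha3, _⟩ := (hSy' p hpm hpi).2.1 (minpoly F x) hn1
    obtain ⟨_, hb2, hb3, _⟩ := (hSy' (minpoly F x) hPm hPi).2.1 p hn2
    have h3 : χ (nm p (minpoly F x)) = χ (nm (minpoly F x) p) := by
      rw [← ha3, ← hb3]
      exact hR p (minpoly F x) hpm hpi hPm hPi hP
    rw [lgc, if_neg hn1, one_mul, ← AddChar.map_nsmul_eq_pow, peext_qc h2 hχ _ h1, peext_norm,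
      peext_chi_pow hχ hχ1 hb2, h3, nsmul_eq_mul]

theorem tPeExt (h1 : StmtSuSy.{u}) (h2 : StmtSuPsi.{u}) : StmtPeExt.{u} := by
  classical
  intro F _ _ hF χ hχ hR ι _ pr hpr κ K _ _ _ _ k hk hKk
  have hfd : FiniteDimensional F K := Module.Finite.of_finite
  let PP : Finset F[X] := k.divisors.biUnion fun d => irr F d
  have hmem : ∀ P, P ∈ PP ↔ P.Monic ∧ Irreducible P ∧ P.natDegree ∣ k := by
    intro P
    rw [Finset.mem_biUnion]
    constructor
    · rintro ⟨d, hd, hP⟩
      rw [irr, Finset.mem_filter, mem_mon] at hP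
      obtain ⟨⟨h3, rfl⟩, h4⟩ := hP
      exact ⟨h3, h4, Nat.dvd_of_mem_divisors hd⟩
    · rintro ⟨h3, h4, h5⟩
      refine ⟨P.natDegree, Nat.mem_divisors.2 ⟨h5, by omega⟩, ?_⟩
      rw [irr, Finset.mem_filter, mem_mon]
      exact ⟨⟨h3, rfl⟩, h4⟩
  have hdisj : (k.divisors : Set ℕ).PairwiseDisjoint fun d => irr F d := by
    intro d _ d' _ hdd
    rw [Function.onFun, Finset.disjoint_left]
    intro P hP hP'
    rw [irr, Finset.mem_filter, mem_mon] at hP hP'
    exact hdd (hP.1.2.symm.trans hP'.1.2)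
  have hpsi : ∀ φ : F[X] → ℂ, psiC φ k =
      ∑ P ∈ PP, (P.natDegree : ℂ) * φ P ^ (k / P.natDegree) := by
    intro φ
    rw [psiC, Finset.sum_biUnion hdisj]
    refine Finset.sum_congr rfl fun d _ => Finset.sum_congr rfl fun P hP => ?_
    rw [irr, Finset.mem_filter, mem_mon] at hP
    rw [hP.1.2]
  have hmaps : ∀ x ∈ (Finset.univ : Finset K), minpoly F x ∈ PP := by
    intro x _
    have hx : IsIntegral F x := IsIntegral.of_finite F x
    exact (hmem _).2 ⟨minpoly.monic hx, minpoly.irreducible hx, hKk ▸ minpoly.degree_dvd hx⟩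
  have hle : ∀ P ∈ PP, (Finset.univ.filter fun x : K => minpoly F x = P).card ≤ P.natDegree := by
    intro P hP
    obtain ⟨hPm, hPi, _⟩ := (hmem P).1 hP
    have h3 : (Finset.univ.filter fun x : K => minpoly F x = P) ⊆ (P.aroots K).toFinset := by
      intro x hx
      rw [Multiset.mem_toFinset, mem_aroots]
      refine ⟨hPi.ne_zero, ?_⟩
      rw [← (Finset.mem_filter.1 hx).2, minpoly.aeval]
    refine (Finset.card_le_card h3).trans ((Multiset.toFinset_card_le _).trans ?_)
    refine (card_roots' _).trans (le_of_eq ?_)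
    exact natDegree_map _
  have hsum : ∑ P ∈ PP, (Finset.univ.filter fun x : K => minpoly F x = P).card =
      ∑ P ∈ PP, P.natDegree := by
    rw [← Finset.card_eq_sum_card_fiberwise hmaps, Finset.card_univ]
    have h3 := (h2 F 2 Nat.prime_two).2.1 k hk
    rw [hpsi] at h3
    have h4 : ((∑ P ∈ PP, P.natDegree : ℕ) : ℂ) = ((Nat.card F ^ k : ℕ) : ℂ) := by
      rw [Nat.cast_sum, Nat.cast_pow, ← h3]
      refine Finset.sum_congr rfl fun P _ => ?_
      rw [one_pow, mul_one]
    rw [Nat.cast_inj.1 h4, ← Nat.card_eq_fintype_card, ← hKk, Module.natCard_eq_pow_finrank (K := F)]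
  have heq : ∀ P ∈ PP, (Finset.univ.filter fun x : K => minpoly F x = P).card = P.natDegree :=
    (Finset.sum_eq_sum_iff_of_le hle).1 hsum
  rw [hpsi]
  have hfib : ∑ P ∈ PP, (P.natDegree : ℂ) * phE χ pr κ P ^ (k / P.natDegree) =
      ∑ x : K, phE χ pr κ (minpoly F x) ^ (k / (minpoly F x).natDegree) := by
    rw [← Finset.sum_fiberwise_of_maps_to hmaps]
    refine Finset.sum_congr rfl fun P hP => ?_
    rw [← heq P hP, Finset.sum_congr rfl fun x hx => by rw [(Finset.mem_filter.1 hx).2],
      Finset.sum_const, nsmul_eq_mul, heq P hP]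
  rw [hfib, Int.cast_sum, Finset.mul_sum]
  refine Finset.sum_congr rfl fun x _ => ?_
  have hx : IsIntegral F x := IsIntegral.of_finite F x
  have hdvd : (minpoly F x).natDegree ∣ k := hKk ▸ minpoly.degree_dvd hx
  rw [phE, mul_pow, ← pow_mul, Nat.mul_div_cancel' hdvd, ← Finset.prod_pow, map_prod, map_prod,
    Int.cast_prod]
  congr 1
  refine Finset.prod_congr rfl fun b _ => ?_
  rw [← peext_loc hF hχ h1 hR x (hpr.monic b) (hpr.irr b), hKk]

end MP72e2e6
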