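import Pool.Agent.Lib.MP_72e2e6_nt.PpStmtB

/-!
# MP_72e2e6_nt: the number of solutions as an exponential sum
-/

namespace MP72e2e6

open Polynomial IsDedekindDomain

universe u

section characters

variable {ℓ : ℕ} [NeZero ℓ] {W : Type} [AddCommGroup W] [Module (ZMod ℓ) W] [Fintype W]
  [Fintype (Module.Dual (ZMod ℓ) W)]

theorem ppfou_card (hℓ : ℓ.Prime) :
    Fintype.card (Module.Dual (ZMod ℓ) W) = Fintype.card W := by
  have : Fact ℓ.Prime := ⟨hℓ⟩
  have : Module.Finite (ZMod ℓ) W := Module.Finite.of_finite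
  rw [Module.card_eq_pow_finrank (K := ZMod ℓ) (V := W),
    Module.card_eq_pow_finrank (K := ZMod ℓ) (V := Module.Dual (ZMod ℓ) W),
    Subspace.dual_finrank_eq]

open Classical in
theorem ppfou_orth (hℓ : ℓ.Prime) (z : W) :
    ∑ e : Module.Dual (ZMod ℓ) W, ZMod.stdAddChar (e z) =
      if z = 0 then (Fintype.card W : ℂ) else 0 := by
  have : Fact ℓ.Prime := ⟨hℓ⟩
  by_cases hz : z = 0
  · subst hz
    rw [if_pos rfl]
    simp only [map_zero, AddChar.map_zero_eq_one, Finset.sum_const, Finset.card_univ,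
      nsmul_eq_mul, mul_one]
    rw [ppfou_card hℓ]
  · rw [if_neg hz]
    have h1 : ¬ ∀ φ : Module.Dual (ZMod ℓ) W, φ z = 0 := fun h =>
      hz ((Module.forall_dual_apply_eq_zero_iff (ZMod ℓ) z).1 h)
    push Not at h1
    obtain ⟨e₀, he₀⟩ := h1
    set S := ∑ e : Module.Dual (ZMod ℓ) W, ZMod.stdAddChar (e z) with hS
    have h2 : S = S * ZMod.stdAddChar (e₀ z) := by
      rw [hS, Finset.sum_mul]
      refine Fintype.sum_equiv (Equiv.subRight e₀) _ _ fun e => ?_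
      rw [← AddChar.map_add_eq_mul]
      congr 1
      show e z = (e - e₀) z + e₀ z
      rw [LinearMap.sub_apply, sub_add_cancel]
    have h3 : (ZMod.stdAddChar (e₀ z) : ℂ) ≠ 1 := by
      intro h
      apply he₀
      apply ZMod.injective_stdAddChar
      rw [h, AddChar.map_zero_eq_one]
    have h4 : S * (1 - ZMod.stdAddChar (e₀ z)) = 0 := by
      rw [mul_sub, mul_one, ← h2, sub_self]
    rcases mul_eq_zero.1 h4 with h5 | h5
    · exact h5
    · exact absurd (sub_eq_zero.1 h5).symm h3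

omit [AddCommGroup W] [Module (ZMod ℓ) W] [Fintype W] [Fintype (Module.Dual (ZMod ℓ) W)] in
theorem ppfou_msum {ι : Type*} (s : Finset ι) (f : ι → ZMod ℓ) :
    (ZMod.stdAddChar (∑ i ∈ s, f i) : ℂ) = ∏ i ∈ s, ZMod.stdAddChar (f i) := by
  classical
  refine Finset.induction_on s ?_ ?_
  · rw [Finset.sum_empty, Finset.prod_empty, AddChar.map_zero_eq_one]
  · intro a s ha ih
    rw [Finset.sum_insert ha, Finset.prod_insert ha, AddChar.map_add_eq_mul, ih]

theorem ppfou_prod {ι : Type*} [Fintype ι] [DecidableEq ι] (z : ι → W) :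
    ∏ i, (∑ e : Module.Dual (ZMod ℓ) W, (ZMod.stdAddChar (e (z i)) : ℂ)) =
      ∑ d : ι → Module.Dual (ZMod ℓ) W, ZMod.stdAddChar (∑ i, d i (z i)) := by
  rw [Finset.prod_univ_sum, Fintype.piFinset_univ]
  refine Finset.sum_congr rfl fun d _ => ?_
  rw [ppfou_msum]

theorem ppfou_ind (hℓ : ℓ.Prime) {ι : Type*} [Fintype ι] [DecidableEq ι] (z : ι → W)
    [Decidable (∀ i, z i = 0)] :
    (if ∀ i, z i = 0 then (Fintype.card W : ℂ) ^ Fintype.card ι else 0) =
      ∑ d : ι → Module.Dual (ZMod ℓ) W, ZMod.stdAddChar (∑ i, d i (z i)) := by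
  rw [← ppfou_prod]
  by_cases h : ∀ i, z i = 0
  · rw [if_pos h, Finset.prod_congr rfl fun i _ => (ppfou_orth hℓ (z i)).trans (if_pos (h i)),
      Finset.prod_const, Finset.card_univ]
  · rw [if_neg h]
    push Not at h
    obtain ⟨i, hi⟩ := h
    exact (Finset.prod_eq_zero (Finset.mem_univ i)
      ((ppfou_orth hℓ (z i)).trans (if_neg hi))).symm

/-- the three kinds of equations at once -/
theorem ppfou_ind3 (hℓ : ℓ.Prime) {ι κ : Type*} [Fintype ι] [Fintype κ] [DecidableEq ι]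
    [DecidableEq κ] (p : Prop) [Decidable p] (x : W) (y : ι → W) (z : κ → W)
    (hp : p ↔ x = 0 ∧ (∀ i, y i = 0) ∧ ∀ j, z j = 0) :
    (if p then (1 : ℂ) else 0) *
        ((Fintype.card W : ℂ) ^ (Fintype.card ι + 1) * (Fintype.card W : ℂ) ^ Fintype.card κ) =
      ∑ d : ι → Module.Dual (ZMod ℓ) W, ∑ η : Module.Dual (ZMod ℓ) W,
        ∑ e : κ → Module.Dual (ZMod ℓ) W,
          ZMod.stdAddChar (η x + ∑ i, d i (y i) + ∑ j, e j (z j)) := by
  have h1 : ∀ d : ι → Module.Dual (ZMod ℓ) W, ∀ η : Module.Dual (ZMod ℓ) W,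
      ∑ e : κ → Module.Dual (ZMod ℓ) W,
          ZMod.stdAddChar (η x + ∑ i, d i (y i) + ∑ j, e j (z j)) =
        (ZMod.stdAddChar (∑ i, d i (y i)) * ZMod.stdAddChar (η x)) *
          ∑ e : κ → Module.Dual (ZMod ℓ) W, (ZMod.stdAddChar (∑ j, e j (z j)) : ℂ) := by
    intro d η
    rw [Finset.mul_sum]
    refine Finset.sum_congr rfl fun e _ => ?_
    rw [AddChar.map_add_eq_mul, AddChar.map_add_eq_mul]
    ring
  simp only [h1]
  simp only [← Finset.sum_mul, ← Finset.mul_sum]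
  have hdy : Decidable (∀ i, y i = 0) := Classical.propDecidable _
  have hdz : Decidable (∀ i, z i = 0) := Classical.propDecidable _
  rw [← ppfou_ind hℓ y, ← ppfou_ind hℓ z, ppfou_orth hℓ x]
  by_cases hpp : p
  · obtain ⟨h2, h3, h4⟩ := hp.1 hpp
    rw [if_pos hpp, if_pos h2, if_pos h3, if_pos h4]
    ring
  · rw [if_neg hpp, zero_mul]
    have h2 : ¬ (x = 0 ∧ (∀ i, y i = 0) ∧ ∀ j, z j = 0) := fun h => hpp (hp.2 h)
    by_cases h3 : x = 0
    · by_cases h4 : ∀ i, y i = 0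
      · have h5 : ¬ ∀ j, z j = 0 := fun h => h2 ⟨h3, h4, h⟩
        rw [if_neg h5, mul_zero]
      · rw [if_neg h4, zero_mul, zero_mul]
    · rw [if_neg h3, mul_zero, zero_mul]

end characters

section fibres

variable {β U : Type*} [DecidableEq U] [Fintype U]

theorem ppfou_mem {t : Finset β} {g : t → U} {w : U} {P : β} :
    P ∈ fib t g w ↔ ∃ h : P ∈ t, g ⟨P, h⟩ = w := by
  rw [fib, Finset.mem_map]
  constructor
  · rintro ⟨Q, hQ, rfl⟩
    rw [Finset.mem_filter] at hQ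
    exact ⟨Q.2, hQ.2⟩
  · rintro ⟨h, hg⟩
    exact ⟨⟨P, h⟩, Finset.mem_filter.2 ⟨Finset.mem_univ _, hg⟩, rfl⟩

theorem ppfou_disj {t : Finset β} {g : t → U} (w w' : U) (h : w ≠ w') :
    Disjoint (fib t g w) (fib t g w') := by
  rw [Finset.disjoint_left]
  intro P hP hP'
  obtain ⟨h1, h2⟩ := ppfou_mem.1 hP
  obtain ⟨h3, h4⟩ := ppfou_mem.1 hP'
  exact h (h2.symm.trans h4)

theorem ppfou_fprod {M : Type*} [CommMonoid M] (t : Finset β) (g : t → U) (φ : U → β → M) :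
    ∏ w, ∏ P ∈ fib t g w, φ w P = ∏ P : t, φ (g P) P.1 := by
  rw [← Finset.prod_fiberwise (s := Finset.univ) (g := g) (f := fun P : t => φ (g P) P.1)]
  refine Finset.prod_congr rfl fun w _ => ?_
  rw [fib, Finset.prod_map]
  refine Finset.prod_congr rfl fun P hP => ?_
  rw [(Finset.mem_filter.1 hP).2]
  rfl

theorem ppfou_fsum {M : Type*} [AddCommMonoid M] (t : Finset β) (g : t → U) (φ : U → β → M) :
    ∑ w, ∑ P ∈ fib t g w, φ w P = ∑ P : t, φ (g P) P.1 := by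
  rw [← Finset.sum_fiberwise (s := Finset.univ) (g := g) (f := fun P : t => φ (g P) P.1)]
  refine Finset.sum_congr rfl fun w _ => ?_
  rw [fib, Finset.sum_map]
  refine Finset.sum_congr rfl fun P hP => ?_
  rw [(Finset.mem_filter.1 hP).2]
  rfl

end fibres

section weights

variable {F : Type u} [Field F] {ℓ : ℕ} [NeZero ℓ] {V U : Type} [Fintype V] [Fintype U]
  [DecidableEq U]

/-- the weight of a colouring -/
theorem ppfou_wgt (χ : F → ZMod ℓ) (pr : V → F[X]) (α : V → U → ZMod ℓ) (αi : U → ZMod ℓ)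
    (B : U → U → ZMod ℓ) (N : ℕ) (t : Finset F[X]) (ht : ∀ P ∈ t, ∀ v, pr v ≠ P) (g : t → U) :
    wgt χ pr α αi B N (fib t g) = ((N : ℂ)⁻¹) ^ t.card *
      ZMod.stdAddChar (∑ P : t, (∑ v, α v (g P) * syl χ (pr v) P.1 +
          αi (g P) * (P.1.natDegree : ZMod ℓ)) +
        ∑ P : t, ∑ Q : t, B (g P) (g Q) * syl χ P.1 Q.1) := by
  rw [wgt, if_pos (fun w w' h => ppfou_disj w w' h), ppfou_fprod, Finset.prod_mul_distrib,
    Finset.prod_const, Finset.card_univ, Fintype.card_coe, AddChar.map_add_eq_mul, mul_assoc]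
  congr 2
  · rw [ppfou_msum]
    refine Finset.prod_congr rfl fun P _ => ?_
    rw [chc, if_neg]
    rintro ⟨v, hv⟩
    exact ht P.1 P.2 v hv
  · congr 1
    have h1 : ∀ w w' : U, B w w' * sys χ (fib t g w) (fib t g w') =
        ∑ P ∈ fib t g w, ∑ Q ∈ fib t g w', B w w' * syl χ P Q := by
      intro w w'
      rw [sys, Finset.mul_sum]
      exact Finset.sum_congr rfl fun P _ => Finset.mul_sum _ _ _
    simp only [h1]
    have h2 : ∀ w : U, ∑ w', ∑ P ∈ fib t g w, ∑ Q ∈ fib t g w', B w w' * syl χ P Q =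
        ∑ P ∈ fib t g w, ∑ Q : t, B w (g Q) * syl χ P Q.1 := by
      intro w
      rw [Finset.sum_comm]
      refine Finset.sum_congr rfl fun P _ => ?_
      exact ppfou_fsum t g (fun w' Q => B w w' * syl χ P Q)
    simp only [h2]
    exact ppfou_fsum t g (fun w P => ∑ Q : t, B w (g Q) * syl χ P Q.1)

end weights

section exponent

variable {F : Type u} [Field F] {ℓ : ℕ} {V W : Type} [Fintype V] [AddCommGroup W]
  [Module (ZMod ℓ) W]

/-- the exponent -/
theorem ppfou_exp (χ : F → ZMod ℓ) (pr : V → F[X]) (σ : V → Module.End (ZMod ℓ) W)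
    (Λ : Module.End (ZMod ℓ) W) (t : Finset F[X])
    (hsym : ∀ P ∈ t, ∀ v, syl χ P (pr v) = syl χ (pr v) P)
    (c : V → W) (d : V → Module.Dual (ZMod ℓ) W) (η : Module.Dual (ZMod ℓ) W)
    (g : t → W × Module.Dual (ZMod ℓ) W) :
    thW χ pr σ Λ c d η +
      (∑ P : t, (∑ v, alW σ c d v (g P) * syl χ (pr v) P.1 +
          aiW Λ η (g P) * (P.1.natDegree : ZMod ℓ)) +
        ∑ P : t, ∑ Q : t, BW (g P) (g Q) * syl χ P.1 Q.1) =
    η (∑ v, ((pr v).natDegree : ZMod ℓ) • σ v (c v) +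
        ∑ P : t, (P.1.natDegree : ZMod ℓ) • (g P).1) +
      ∑ v, d v ((∑ v', syl χ (pr v) (pr v') • σ v' (c v' - c v) +
        ∑ P : t, syl χ (pr v) P.1 • ((g P).1 - c v)) -
          ((pr v).natDegree : ZMod ℓ) • Λ (c v)) +
      ∑ P : t, (g P).2 ((∑ v, syl χ P.1 (pr v) • σ v (c v - (g P).1) +
        ∑ Q : t, syl χ P.1 Q.1 • ((g Q).1 - (g P).1)) -
          (P.1.natDegree : ZMod ℓ) • Λ (g P).1) := by
  have e1 : η (∑ v, ((pr v).natDegree : ZMod ℓ) • σ v (c v) +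
        ∑ P : t, (P.1.natDegree : ZMod ℓ) • (g P).1) =
      η (∑ v, ((pr v).natDegree : ZMod ℓ) • σ v (c v)) +
        ∑ P : t, (P.1.natDegree : ZMod ℓ) * η (g P).1 := by
    rw [map_add, map_sum (g := η) (s := (Finset.univ : Finset t))]
    congr 1
    exact Finset.sum_congr rfl fun P _ => by rw [map_smul, smul_eq_mul]
  have e2 : ∀ v, d v ((∑ v', syl χ (pr v) (pr v') • σ v' (c v' - c v) +
        ∑ P : t, syl χ (pr v) P.1 • ((g P).1 - c v)) -
          ((pr v).natDegree : ZMod ℓ) • Λ (c v)) =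
      d v (∑ v', syl χ (pr v) (pr v') • σ v' (c v' - c v) -
          ((pr v).natDegree : ZMod ℓ) • Λ (c v)) +
        ∑ P : t, d v ((g P).1 - c v) * syl χ (pr v) P.1 := by
    intro v
    have h1 : ∑ P : t, d v ((g P).1 - c v) * syl χ (pr v) P.1 =
        d v (∑ P : t, syl χ (pr v) P.1 • ((g P).1 - c v)) := by
      rw [map_sum]
      exact Finset.sum_congr rfl fun P _ => by rw [map_smul, smul_eq_mul, mul_comm]
    rw [h1, ← map_add]
    congr 1
    abel
  have e3 : ∀ P : t, (g P).2 ((∑ v, syl χ P.1 (pr v) • σ v (c v - (g P).1) +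
        ∑ Q : t, syl χ P.1 Q.1 • ((g Q).1 - (g P).1)) -
          (P.1.natDegree : ZMod ℓ) • Λ (g P).1) =
      ∑ v, (g P).2 (σ v (c v - (g P).1)) * syl χ (pr v) P.1 +
        ∑ Q : t, BW (g P) (g Q) * syl χ P.1 Q.1 -
          (g P).2 (Λ (g P).1) * (P.1.natDegree : ZMod ℓ) := by
    intro P
    rw [map_sub, map_add, map_sum, map_sum, map_smul, smul_eq_mul,
      mul_comm (P.1.natDegree : ZMod ℓ)]
    congr 2
    · refine Finset.sum_congr rfl fun v _ => ?_
      rw [map_smul, smul_eq_mul, mul_comm, hsym P.1 P.2 v]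
    · refine Finset.sum_congr rfl fun Q _ => ?_
      rw [map_smul, smul_eq_mul, mul_comm]
      rfl
  rw [e1]
  simp only [e2, e3, Finset.sum_add_distrib, Finset.sum_sub_distrib]
  have e4 : ∑ P : t, ∑ v, alW σ c d v (g P) * syl χ (pr v) P.1 =
      ∑ v, ∑ P : t, d v ((g P).1 - c v) * syl χ (pr v) P.1 +
        ∑ P : t, ∑ v, (g P).2 (σ v (c v - (g P).1)) * syl χ (pr v) P.1 := by
    rw [Finset.sum_comm (s := (Finset.univ : Finset V)) (t := (Finset.univ : Finset t)),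
      ← Finset.sum_add_distrib]
    refine Finset.sum_congr rfl fun P _ => ?_
    rw [← Finset.sum_add_distrib]
    refine Finset.sum_congr rfl fun v _ => ?_
    rw [alW, add_mul]
  have e5 : ∑ P : t, aiW Λ η (g P) * (P.1.natDegree : ZMod ℓ) =
      ∑ P : t, (P.1.natDegree : ZMod ℓ) * η (g P).1 -
        ∑ P : t, (g P).2 (Λ (g P).1) * (P.1.natDegree : ZMod ℓ) := by
    rw [← Finset.sum_sub_distrib]
    refine Finset.sum_congr rfl fun P _ => ?_
    rw [aiW, sub_mul, mul_comm (η (g P).1)]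
  rw [e4, e5, thW]
  ring

end exponent

theorem ppfou_gs {F : Type u} [Field F] [Finite F] {V : Type} {pr : V → F[X]} {n : ℕ}
    {t : Finset F[X]} (ht : t ∈ gs F pr n) : t ∈ ps F n ∧ ∀ P ∈ t, ∀ v, pr v ≠ P := by
  classical
  have h := (Finset.mem_filter (p := fun t : Finset F[X] => ∀ P ∈ t, ∀ v, pr v ≠ P)
    (s := ps F n) (a := t)).1 (by simpa only [gs, Finset.mem_filter] using ht)
  exact h

section sums

variable {V κ W D : Type*} [Fintype V] [Fintype κ] [DecidableEq V] [DecidableEq κ] [Fintype W]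
  [Fintype D]

theorem ppfou_exch (Φ : (V → W) → (κ → W) → (V → D) → D → (κ → D) → ℂ) :
    ∑ c : V → W, ∑ f : κ → W, ∑ d : V → D, ∑ η : D, ∑ e : κ → D, Φ c f d η e =
      ∑ c : V → W, ∑ d : V → D, ∑ η : D, ∑ g : κ → W × D,
        Φ c (fun P => (g P).1) d η (fun P => (g P).2) := by
  refine Finset.sum_congr rfl fun c _ => ?_
  rw [Finset.sum_comm]
  refine Finset.sum_congr rfl fun d _ => ?_
  rw [Finset.sum_comm]
  refine Finset.sum_congr rfl fun η _ => ?_
  rw [← Fintype.sum_prod_type']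
  exact (Fintype.sum_equiv (Equiv.arrowProdEquivProdArrow κ (fun _ => W) (fun _ => D))
    _ _ fun g => rfl).symm

end sums

section cnt

variable {F : Type u} [Field F] {ℓ : ℕ} {V W : Type} [Fintype V] [AddCommGroup W]
  [Module (ZMod ℓ) W] [Fintype W]

open Classical in
theorem ppfou_cnt (χ : F → ZMod ℓ) (pr : V → F[X]) (σ : V → Module.End (ZMod ℓ) W)
    (Λ : Module.End (ZMod ℓ) W) (t : Finset F[X]) :
    (nSol χ pr σ Λ t : ℂ) =
      ∑ c : V → W, ∑ f : t → W, if SolW χ pr σ Λ t c f then (1 : ℂ) else 0 := by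
  unfold nSol
  rw [Nat.card_eq_fintype_card, Fintype.card_subtype, ← Finset.sum_boole,
    Fintype.sum_prod_type]

end cnt

section vectors

variable {F : Type u} [Field F] {ℓ : ℕ} {V W : Type} [Fintype V] [AddCommGroup W]
  [Module (ZMod ℓ) W]

/-- the equation at infinity -/
noncomputable def ppfou_x (pr : V → F[X]) (σ : V → Module.End (ZMod ℓ) W) (t : Finset F[X])
    (c : V → W) (f : t → W) : W :=
  ∑ v, ((pr v).natDegree : ZMod ℓ) • σ v (c v) + ∑ P : t, (P.1.natDegree : ZMod ℓ) • f P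

/-- the equations at the primes of the family -/
noncomputable def ppfou_y (χ : F → ZMod ℓ) (pr : V → F[X]) (σ : V → Module.End (ZMod ℓ) W)
    (Λ : Module.End (ZMod ℓ) W) (t : Finset F[X]) (c : V → W) (f : t → W) (v : V) : W :=
  (∑ v', syl χ (pr v) (pr v') • σ v' (c v' - c v) +
        ∑ P : t, syl χ (pr v) P.1 • (f P - c v)) - ((pr v).natDegree : ZMod ℓ) • Λ (c v)

/-- the equations at the primes of the set -/
noncomputable def ppfou_z (χ : F → ZMod ℓ) (pr : V → F[X]) (σ : V → Module.End (ZMod ℓ) W)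
    (Λ : Module.End (ZMod ℓ) W) (t : Finset F[X]) (c : V → W) (f : t → W) (P : t) : W :=
  (∑ v, syl χ P.1 (pr v) • σ v (c v - f P) +
        ∑ Q : t, syl χ P.1 Q.1 • (f Q - f P)) - (P.1.natDegree : ZMod ℓ) • Λ (f P)

theorem ppfou_sol (χ : F → ZMod ℓ) (pr : V → F[X]) (σ : V → Module.End (ZMod ℓ) W)
    (Λ : Module.End (ZMod ℓ) W) (t : Finset F[X]) (c : V → W) (f : t → W) :
    SolW χ pr σ Λ t c f ↔
      ppfou_x pr σ t c f = 0 ∧ (∀ v, ppfou_y χ pr σ Λ t c f v = 0) ∧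
        ∀ P, ppfou_z χ pr σ Λ t c f P = 0 := by
  constructor
  · intro h
    exact ⟨h.inf, fun v => sub_eq_zero.2 (h.bad v), fun P => sub_eq_zero.2 (h.good P)⟩
  · rintro ⟨h1, h2, h3⟩
    exact ⟨h1, fun v => sub_eq_zero.1 (h2 v), fun P => sub_eq_zero.1 (h3 P)⟩

/-- the terms -/
noncomputable def ppfou_phi [NeZero ℓ] (χ : F → ZMod ℓ) (pr : V → F[X])
    (σ : V → Module.End (ZMod ℓ) W)
    (Λ : Module.End (ZMod ℓ) W) (t : Finset F[X]) (c : V → W) (f : t → W)
    (d : V → Module.Dual (ZMod ℓ) W) (η : Module.Dual (ZMod ℓ) W)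
    (e : t → Module.Dual (ZMod ℓ) W) : ℂ :=
  ZMod.stdAddChar (η (ppfou_x pr σ t c f) + ∑ i, d i (ppfou_y χ pr σ Λ t c f i) +
    ∑ j, e j (ppfou_z χ pr σ Λ t c f j))

variable [NeZero ℓ] [Fintype W] [Fintype (Module.Dual (ZMod ℓ) W)]

theorem ppfou_term (χ : F → ZMod ℓ) (pr : V → F[X]) (σ : V → Module.End (ZMod ℓ) W)
    (Λ : Module.End (ZMod ℓ) W) (t : Finset F[X])
    (hsym : ∀ P ∈ t, ∀ v, syl χ P (pr v) = syl χ (pr v) P) (ht2 : ∀ P ∈ t, ∀ v, pr v ≠ P)
    (c : V → W) (d : V → Module.Dual (ZMod ℓ) W) (η : Module.Dual (ZMod ℓ) W)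
    (g : t → W × Module.Dual (ZMod ℓ) W) [DecidableEq (W × Module.Dual (ZMod ℓ) W)] :
    ZMod.stdAddChar (thW χ pr σ Λ c d η) *
        wgt χ pr (alW σ c d) (aiW Λ η) BW (Fintype.card W) (fib t g) *
          (Fintype.card W : ℂ) ^ Fintype.card t =
      ppfou_phi χ pr σ Λ t c (fun P => (g P).1) d η (fun P => (g P).2) := by
  have hN0 : (Fintype.card W : ℂ) ≠ 0 := by
    rw [Nat.cast_ne_zero]
    exact Fintype.card_ne_zero
  rw [ppfou_wgt χ pr _ _ _ _ t ht2 g, Fintype.card_coe]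
  have h1 : ((Fintype.card W : ℂ)⁻¹) ^ t.card * (Fintype.card W : ℂ) ^ t.card = 1 := by
    rw [← mul_pow, inv_mul_cancel₀ hN0, one_pow]
  have h2 : ∀ a b : ℂ, a * (((Fintype.card W : ℂ)⁻¹) ^ t.card * b) *
      (Fintype.card W : ℂ) ^ t.card = a * b := by
    intro a b
    calc _ = a * b * (((Fintype.card W : ℂ)⁻¹) ^ t.card * (Fintype.card W : ℂ) ^ t.card) := by
          ring
      _ = a * b := by rw [h1, mul_one]
  rw [h2, ← AddChar.map_add_eq_mul, ppfou_exp χ pr σ Λ t hsym c d η g]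
  rfl

end vectors

section main

variable {F : Type u} [Field F] {ℓ : ℕ} {V W : Type} [Fintype V] [AddCommGroup W]
  [Module (ZMod ℓ) W] [NeZero ℓ] [Fintype W] [Fintype (Module.Dual (ZMod ℓ) W)]

open Classical in
theorem ppfou_left (hℓ : ℓ.Prime) (χ : F → ZMod ℓ) (pr : V → F[X])
    (σ : V → Module.End (ZMod ℓ) W) (Λ : Module.End (ZMod ℓ) W) (t : Finset F[X]) :
    (nSol χ pr σ Λ t : ℂ) * (Fintype.card W : ℂ) ^ (Fintype.card V + 1) *
        (Fintype.card W : ℂ) ^ Fintype.card t =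
      ∑ c : V → W, ∑ f : t → W, ∑ d : V → Module.Dual (ZMod ℓ) W,
        ∑ η : Module.Dual (ZMod ℓ) W, ∑ e : t → Module.Dual (ZMod ℓ) W,
          ppfou_phi χ pr σ Λ t c f d η e := by
  rw [ppfou_cnt, mul_assoc, Finset.sum_mul]
  refine Finset.sum_congr rfl fun c _ => ?_
  rw [Finset.sum_mul]
  refine Finset.sum_congr rfl fun f _ => ?_
  exact ppfou_ind3 hℓ _ (ppfou_x pr σ t c f) (ppfou_y χ pr σ Λ t c f)
    (ppfou_z χ pr σ Λ t c f) (ppfou_sol χ pr σ Λ t c f)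

open Classical in
theorem ppfou_right (χ : F → ZMod ℓ) (pr : V → F[X])
    (σ : V → Module.End (ZMod ℓ) W) (Λ : Module.End (ZMod ℓ) W) (t : Finset F[X])
    (hsym : ∀ P ∈ t, ∀ v, syl χ P (pr v) = syl χ (pr v) P) (ht2 : ∀ P ∈ t, ∀ v, pr v ≠ P) :
    (∑ c : V → W, ∑ d : V → Module.Dual (ZMod ℓ) W, ∑ η : Module.Dual (ZMod ℓ) W,
        ZMod.stdAddChar (thW χ pr σ Λ c d η) *
          ∑ g : t → W × Module.Dual (ZMod ℓ) W,
            wgt χ pr (alW σ c d) (aiW Λ η) BW (Fintype.card W) (fib t g)) *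
        (Fintype.card W : ℂ) ^ Fintype.card t =
      ∑ c : V → W, ∑ d : V → Module.Dual (ZMod ℓ) W, ∑ η : Module.Dual (ZMod ℓ) W,
        ∑ g : t → W × Module.Dual (ZMod ℓ) W,
          ppfou_phi χ pr σ Λ t c (fun P => (g P).1) d η (fun P => (g P).2) := by
  rw [Finset.sum_mul]
  refine Finset.sum_congr rfl fun c _ => ?_
  rw [Finset.sum_mul]
  refine Finset.sum_congr rfl fun d _ => ?_
  rw [Finset.sum_mul]
  refine Finset.sum_congr rfl fun η _ => ?_
  rw [Finset.mul_sum, Finset.sum_mul]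
  refine Finset.sum_congr rfl fun g _ => ?_
  exact ppfou_term χ pr σ Λ t hsym ht2 c d η g

end main

open Classical in
theorem tPpFou.{v} (hSuSy : StmtSuSy.{v}) (hSuRec : StmtSuRec.{v}) : StmtPpFou.{v} := by
  intro F _ _ ℓ _ hℓ hℓ2 hdvd χ hχ V W _ _ _ _ _ pr hpr σ Λ n t ht
  have _ := hSuSy
  obtain ⟨ht1, ht2⟩ := ppfou_gs ht
  have ht3 := (mem_ps.1 ht1).1
  have hsym : ∀ P ∈ t, ∀ v, syl χ P (pr v) = syl χ (pr v) P := fun P hP v =>
    hSuRec F ℓ hℓ hℓ2 hdvd χ hχ P (pr v) (ht3 P hP).1 (ht3 P hP).2 (hpr.monic v) (hpr.irr v)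
      (fun h => ht2 P hP v h.symm)
  have hN0 : (Fintype.card W : ℂ) ≠ 0 := by
    rw [Nat.cast_ne_zero]
    exact Fintype.card_ne_zero
  have hcard : (Fintype.card W : ℂ) ^ Fintype.card t ≠ 0 := pow_ne_zero _ hN0
  have h1 := ppfou_left hℓ χ pr σ Λ t
  have h2 := ppfou_right χ pr σ Λ t hsym ht2
  have h3 := ppfou_exch (ppfou_phi χ pr σ Λ t)
  exact mul_right_cancel₀ hcard (h1.trans (h3.trans h2.symm))

end MP72e2e6
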