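import Pool.Agent.Lib.MP_72e2e6_nt.PeStmtB
import Pool.Agent.Lib.MP_72e2e6_nt.PpFou

/-!
# MP_72e2e6_nt: positive proportion of quadratic twists, module PeFou
-/

set_option autoImplicit false

namespace MP72e2e6

open Polynomial

universe u

open Classical in
theorem tPeFou.{v} (hSuSy : StmtSuSy.{v}) : StmtPeFou.{v} := by
  intro F _ _ hdvd χ hχ hR V W _ _ _ _ _ pr hpr σ Λ n t ht
  have _ := hSuSy
  obtain ⟨ht1, ht2⟩ := ppfou_gs ht
  have ht3 := (mem_ps.1 ht1).1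
  have hsym : ∀ P ∈ t, ∀ v, syl χ P (pr v) = syl χ (pr v) P := fun P hP v =>
    hR P (pr v) (ht3 P hP).1 (ht3 P hP).2 (hpr.monic v) (hpr.irr v)
      (fun h => ht2 P hP v h.symm)
  have hN0 : (Fintype.card W : ℂ) ≠ 0 := by
    rw [Nat.cast_ne_zero]
    exact Fintype.card_ne_zero
  have hcard : (Fintype.card W : ℂ) ^ Fintype.card t ≠ 0 := pow_ne_zero _ hN0
  have h1 := ppfou_left Nat.prime_two χ pr σ Λ t
  have h2 := ppfou_right χ pr σ Λ t hsym ht2
  have h3 := ppfou_exch (ppfou_phi χ pr σ Λ t)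
  exact mul_right_cancel₀ hcard (h1.trans (h3.trans h2.symm))

end MP72e2e6
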