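import Pool.Agent.Lib.MP_72e2e6_nt.PpStmtB

set_option autoImplicit false

open Polynomial

namespace MP72e2e6

universe u

section PpFrm

variable {ℓ : ℕ} [Fact ℓ.Prime] {W : Type} [AddCommGroup W] [Module (ZMod ℓ) W]

theorem ppfrm_half (h2 : ℓ ≠ 2) {a : ZMod ℓ} (h : a = -a) : a = 0 := by
  have h3 : (2 : ZMod ℓ) ≠ 0 := by
    intro h4
    have h5 : ((2 : ℕ) : ZMod ℓ) = 0 := by exact_mod_cast h4
    rw [ZMod.natCast_eq_zero_iff] at h5
    exact h2 ((Nat.prime_dvd_prime_iff_eq (Fact.out : ℓ.Prime) Nat.prime_two).mp h5)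
  have h4 : (2 : ZMod ℓ) * a = 0 := by
    rw [two_mul]
    nth_rewrite 2 [h]
    exact add_neg_cancel a
  exact (mul_eq_zero.mp h4).resolve_left h3

/-- alternating forms are antisymmetric -/
theorem ppfrm_skew {Y : Type u} [AddCommGroup Y] [Module (ZMod ℓ) Y]
    {f : Y →ₗ[ZMod ℓ] Module.Dual (ZMod ℓ) Y} (hf : ∀ x, f x x = 0) (x y : Y) :
    f x y = - f y x := by
  have h := hf (x + y)
  simp only [map_add, LinearMap.add_apply, hf, zero_add, add_zero] at h
  exact eq_neg_of_add_eq_zero_left ((add_comm _ _).trans h)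

theorem ppfrm_adj {f : W →ₗ[ZMod ℓ] Module.Dual (ZMod ℓ) W} (hf : ∀ x, f x x = 0)
    {A : Module.End (ZMod ℓ) W} (hA : ∀ x, f x (A x) = 0) (x y : W) :
    f (A x) y = f x (A y) := by
  have h := hA (x + y)
  simp only [map_add, LinearMap.add_apply, hA, zero_add, add_zero] at h
  rw [ppfrm_skew hf (A x) y]
  exact (eq_neg_of_add_eq_zero_right h).symm

theorem ppfrm_card {ι : Type u} [Fintype ι] [Finite W] (g : (ι → W) →ₗ[ZMod ℓ] W)
    (hg : Function.Surjective g) (h0 : Nonempty ι) :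
    Nat.card (LinearMap.ker g) = Nat.card W ^ (Fintype.card ι - 1) := by
  have h1 := Submodule.card_eq_card_quotient_mul_card (LinearMap.ker g)
  have h2 : Nat.card ((ι → W) ⧸ LinearMap.ker g) = Nat.card W :=
    Nat.card_congr (g.quotKerEquivOfSurjective hg).toEquiv
  rw [h2, Nat.card_fun, Nat.card_eq_fintype_card (α := ι)] at h1
  have h3 : 0 < Nat.card W := Nat.card_pos
  have h4 : 1 ≤ Fintype.card ι := Fintype.card_pos
  obtain ⟨k, hk⟩ := Nat.exists_eq_add_of_le h4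
  rw [hk] at h1 ⊢
  rw [pow_add, pow_one] at h1
  rw [Nat.add_sub_cancel_left]
  have h5 := Nat.eq_of_mul_eq_mul_left h3 (h1.trans (mul_comm _ _))
  exact h5.symm

/-- the functional `y ↦ ∑ f (y β) (z β)` -/
noncomputable def ppfrm_fn {ι : Type u} [Fintype ι] (f : W →ₗ[ZMod ℓ] Module.Dual (ZMod ℓ) W) :
    (ι → W) →ₗ[ZMod ℓ] (ι → W) →ₗ[ZMod ℓ] ZMod ℓ :=
  ∑ β, (f.compl₁₂ (LinearMap.proj β) (LinearMap.proj β))

theorem ppfrm_fn_apply {ι : Type u} [Fintype ι] (f : W →ₗ[ZMod ℓ] Module.Dual (ZMod ℓ) W)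
    (y z : ι → W) : ppfrm_fn f y z = ∑ β, f (y β) (z β) := by
  unfold ppfrm_fn
  simp [LinearMap.sum_apply]

theorem ppfrm_fn_single {ι : Type u} [Fintype ι] [DecidableEq ι]
    (f : W →ₗ[ZMod ℓ] Module.Dual (ZMod ℓ) W) (β : ι) (x : W) (z : ι → W) :
    ppfrm_fn f (Pi.single β x) z = f x (z β) := by
  rw [ppfrm_fn_apply, Finset.sum_eq_single β]
  · rw [Pi.single_eq_same]
  · intro γ _ hγ
    rw [Pi.single_eq_of_ne hγ, map_zero, LinearMap.zero_apply]
  · intro h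
    exact absurd (Finset.mem_univ _) h

/-- the data of the statement -/
structure PpfrmD (ℓ : ℕ) [Fact ℓ.Prime] (K : Type) [Field K] (ι : Type u) [Fintype ι] (W : Type)
    [AddCommGroup W] [Module (ZMod ℓ) W] where
  h2 : ℓ ≠ 2
  ρ : K →+* Module.End (ZMod ℓ) W
  f : W →ₗ[ZMod ℓ] Module.Dual (ZMod ℓ) W
  nd : ∀ x, (∀ y, f x y = 0) → x = 0
  alt : ∀ x, f x x = 0
  frho : ∀ κ x y, f (ρ κ x) y = f x (ρ κ y)
  σ : ι → Module.End (ZMod ℓ) W
  Λ : Module.End (ZMod ℓ) W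
  fσ : ∀ β x, f x (σ β x) = 0
  fΛ : ∀ x, f x (Λ x) = 0
  ρσ : ∀ κ β x, ρ κ (σ β x) = σ β (ρ κ x)
  ρΛ : ∀ κ x, ρ κ (Λ x) = Λ (ρ κ x)
  τ : ι → Module.End (ZMod ℓ) W
  στ : ∀ β x, σ β (τ β x) = x
  τσ : ∀ β x, τ β (σ β x) = x
  l : ι → ι → ZMod ℓ
  lsymm : ∀ β β', l β β' = l β' β
  D : ι → ZMod ℓ
  com : ∀ β y, σ β (∑ β', l β β' • σ β' y + D β • Λ y) =
      ∑ β', l β β' • σ β' (σ β y) + D β • Λ (σ β y)
  inj : ∀ y, ∑ β, D β • σ β y = 0 → y = 0

namespace PpfrmD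

variable {K : Type} [Field K] {ι : Type u} [Fintype ι] (d : PpfrmD ℓ K ι W)

/-- the operator `M β` -/
noncomputable def M (β : ι) : Module.End (ZMod ℓ) W := ∑ β', d.l β β' • d.σ β' + d.D β • d.Λ

theorem M_apply (β : ι) (y : W) : d.M β y = ∑ β', d.l β β' • d.σ β' y + d.D β • d.Λ y := by
  simp [M, LinearMap.sum_apply]

theorem σM (β : ι) (y : W) : d.σ β (d.M β y) = d.M β (d.σ β y) := by
  rw [M_apply, M_apply]
  exact d.com β y

theorem ρM (κ : K) (β : ι) (y : W) : d.ρ κ (d.M β y) = d.M β (d.ρ κ y) := by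
  rw [M_apply, M_apply, map_add, map_sum, map_smul, d.ρΛ]
  congr 1
  refine Finset.sum_congr rfl fun β' _ => ?_
  rw [map_smul, d.ρσ]

theorem ρτ (κ : K) (β : ι) (y : W) : d.ρ κ (d.τ β y) = d.τ β (d.ρ κ y) := by
  have h : d.σ β (d.ρ κ (d.τ β y)) = d.ρ κ y := by rw [← d.ρσ, d.στ]
  rw [← h, d.τσ]

theorem skew (x y : W) : d.f x y = - d.f y x := ppfrm_skew d.alt x y

theorem adjσ (β : ι) (x y : W) : d.f (d.σ β x) y = d.f x (d.σ β y) := ppfrm_adj d.alt (d.fσ β) x y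

theorem adjΛ (x y : W) : d.f (d.Λ x) y = d.f x (d.Λ y) := ppfrm_adj d.alt d.fΛ x y

theorem adjM (β : ι) (x y : W) : d.f (d.M β x) y = d.f x (d.M β y) := by
  rw [M_apply, M_apply, map_add, LinearMap.add_apply, map_sum, LinearMap.sum_apply, map_add, map_sum]
  congr 1
  · refine Finset.sum_congr rfl fun β' _ => ?_
    rw [map_smul, LinearMap.smul_apply, map_smul, d.adjσ]
  · rw [map_smul, LinearMap.smul_apply, map_smul, d.adjΛ]

/-- the operator `T` -/
noncomputable def T : (ι → W) →ₗ[ZMod ℓ] (ι → W) :=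
  LinearMap.pi fun β => ∑ β', d.l β β' • LinearMap.proj β' - (d.M β).comp ((d.τ β).comp (LinearMap.proj β))

theorem T_apply (y : ι → W) (β : ι) : d.T y β = ∑ β', d.l β β' • y β' - d.M β (d.τ β (y β)) := by
  simp [T, LinearMap.sum_apply]

/-- `∑ D β • y β` -/
noncomputable def g : (ι → W) →ₗ[ZMod ℓ] W := ∑ β, d.D β • LinearMap.proj β

theorem g_apply (y : ι → W) : d.g y = ∑ β, d.D β • y β := by
  simp [g, LinearMap.sum_apply]

/-- the pointwise action of `K` -/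
noncomputable def R : K →+* Module.End (ZMod ℓ) (ι → W) where
  toFun κ := (d.ρ κ).compLeft ι
  map_one' := by
    ext y β
    simp
  map_mul' a b := by
    ext y β
    simp
  map_zero' := by
    ext y β
    simp
  map_add' a b := by
    ext y β
    simp

theorem R_apply (κ : K) (y : ι → W) (β : ι) : d.R κ y β = d.ρ κ (y β) := rfl

theorem T_R (κ : K) (y : ι → W) : d.T (d.R κ y) = d.R κ (d.T y) := by
  funext β
  rw [R_apply, T_apply, T_apply, map_sub, d.ρM, d.ρτ, R_apply, map_sum]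
  congr 1
  refine Finset.sum_congr rfl fun β' _ => ?_
  rw [R_apply, map_smul]

theorem g_R (κ : K) (y : ι → W) : d.g (d.R κ y) = d.ρ κ (d.g y) := by
  rw [g_apply, g_apply, map_sum]
  refine Finset.sum_congr rfl fun β' _ => ?_
  rw [R_apply, map_smul]

/-- the form `∑ f (y β) ((T y') β)` on all functions -/
theorem alt_B (κ : K) (y : ι → W) : ppfrm_fn d.f y (d.T (d.R κ y)) = 0 := by
  rw [ppfrm_fn_apply]
  have h1 : ∀ β, d.f (y β) (d.T (d.R κ y) β) =
      ∑ β', d.l β β' * d.f (y β) (d.ρ κ (y β')) - d.f (y β) (d.M β (d.τ β (d.ρ κ (y β)))) := by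
    intro β
    rw [T_apply, map_sub, map_sum, R_apply]
    congr 1
    refine Finset.sum_congr rfl fun β' _ => ?_
    rw [R_apply, map_smul, smul_eq_mul]
  have h2 : ∀ β, d.f (y β) (d.M β (d.τ β (d.ρ κ (y β)))) = 0 := by
    intro β
    obtain ⟨z, hz⟩ : ∃ z, y β = d.σ β z := ⟨d.τ β (y β), (d.στ β (y β)).symm⟩
    rw [hz, d.ρσ, d.τσ]
    refine ppfrm_half d.h2 ?_
    calc d.f (d.σ β z) (d.M β (d.ρ κ z)) = d.f (d.M β (d.σ β z)) (d.ρ κ z) := (d.adjM β _ _).symm
      _ = d.f (d.ρ κ (d.M β (d.σ β z))) z := (d.frho κ _ _).symm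
      _ = d.f (d.M β (d.ρ κ (d.σ β z))) z := by rw [d.ρM]
      _ = d.f (d.M β (d.σ β (d.ρ κ z))) z := by rw [d.ρσ]
      _ = d.f (d.σ β (d.M β (d.ρ κ z))) z := by rw [d.σM]
      _ = d.f (d.M β (d.ρ κ z)) (d.σ β z) := d.adjσ β _ _
      _ = - d.f (d.σ β z) (d.M β (d.ρ κ z)) := d.skew _ _
  simp only [h1, h2, sub_zero]
  refine ppfrm_half d.h2 ?_
  calc ∑ β, ∑ β', d.l β β' * d.f (y β) (d.ρ κ (y β')) =
      ∑ β', ∑ β, d.l β β' * d.f (y β) (d.ρ κ (y β')) := Finset.sum_comm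
    _ = ∑ β', ∑ β, - (d.l β' β * d.f (y β') (d.ρ κ (y β))) := by
      refine Finset.sum_congr rfl fun β' _ => Finset.sum_congr rfl fun β _ => ?_
      rw [d.lsymm β β', ← d.frho, d.skew, mul_neg]
    _ = - ∑ β, ∑ β', d.l β β' * d.f (y β) (d.ρ κ (y β')) := by
      simp only [Finset.sum_neg_distrib]

theorem B_R (κ : K) (y y' : ι → W) :
    ppfrm_fn d.f (d.R κ y) (d.T y') = ppfrm_fn d.f y (d.T (d.R κ y')) := by
  rw [T_R, ppfrm_fn_apply, ppfrm_fn_apply]
  exact Finset.sum_congr rfl fun β _ => d.frho κ _ _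

theorem T_zero (y' : ι → W) (hy : d.g y' = 0)
    (h : ∀ y, d.g y = 0 → ppfrm_fn d.f y (d.T y') = 0) (β₀ : ι) (h0 : d.D β₀ ≠ 0) : d.T y' = 0 := by
  classical
  have h1 : ∀ β, d.T y' β = d.D β • ((d.D β₀)⁻¹ • d.T y' β₀) := by
    intro β
    rw [← sub_eq_zero]
    refine d.nd _ fun x => ?_
    rw [d.skew, neg_eq_zero]
    have h2 := h (Pi.single β x - Pi.single β₀ ((d.D β * (d.D β₀)⁻¹) • x)) (by
      rw [map_sub, sub_eq_zero, g_apply, g_apply, Finset.sum_eq_single β, Finset.sum_eq_single β₀]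
      · rw [Pi.single_eq_same, Pi.single_eq_same, smul_smul]
        congr 1
        field_simp
      · intro γ _ hγ
        rw [Pi.single_eq_of_ne hγ, smul_zero]
      · intro h
        exact absurd (Finset.mem_univ _) h
      · intro γ _ hγ
        rw [Pi.single_eq_of_ne hγ, smul_zero]
      · intro h
        exact absurd (Finset.mem_univ _) h)
    rw [map_sub, LinearMap.sub_apply, ppfrm_fn_single, ppfrm_fn_single, map_smul,
      LinearMap.smul_apply] at h2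
    rw [map_sub, map_smul, map_smul, smul_smul]
    exact h2
  have h3 : ∑ β, d.σ β (d.T y' β) = 0 := by
    have h4 : ∀ β, d.σ β (d.T y' β) = ∑ β', d.l β β' • d.σ β (y' β') -
        (∑ β', d.l β β' • d.σ β' (y' β) + d.D β • d.Λ (y' β)) := by
      intro β
      rw [T_apply, map_sub, d.σM, d.στ, M_apply, map_sum]
      congr 1
      refine Finset.sum_congr rfl fun β' _ => ?_
      rw [map_smul]
    simp only [h4, Finset.sum_sub_distrib, Finset.sum_add_distrib]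
    have h5 : ∑ β, ∑ β', d.l β β' • d.σ β (y' β') = ∑ β, ∑ β', d.l β β' • d.σ β' (y' β) := by
      rw [Finset.sum_comm]
      refine Finset.sum_congr rfl fun β _ => Finset.sum_congr rfl fun β' _ => ?_
      rw [d.lsymm]
    have h6 : ∑ β, d.D β • d.Λ (y' β) = 0 := by
      have h7 : ∑ β, d.D β • d.Λ (y' β) = d.Λ (d.g y') := by
        rw [g_apply, map_sum]
        exact Finset.sum_congr rfl fun β _ => (map_smul _ _ _).symm
      rw [h7, hy, map_zero]
    rw [h5, h6, add_zero, sub_self]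
  have h8 : (d.D β₀)⁻¹ • d.T y' β₀ = 0 := by
    refine d.inj _ ?_
    rw [← h3]
    refine Finset.sum_congr rfl fun β _ => ?_
    rw [h1 β]
    simp only [map_smul]
  funext β
  rw [h1 β, h8, smul_zero]
  rfl

/-- the form on the kernel of `g` -/
noncomputable def B : LinearMap.ker d.g →ₗ[ZMod ℓ] Module.Dual (ZMod ℓ) (LinearMap.ker d.g) :=
  (ppfrm_fn d.f).compl₁₂ (LinearMap.ker d.g).subtype (d.T.comp (LinearMap.ker d.g).subtype)

theorem B_apply (y y' : LinearMap.ker d.g) : d.B y y' = ppfrm_fn d.f y.1 (d.T y'.1) := rfl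

/-- the action of `K` on the kernel of `g` -/
noncomputable def R' : K →+* Module.End (ZMod ℓ) (LinearMap.ker d.g) where
  toFun κ := (d.R κ).restrict (p := LinearMap.ker d.g) (q := LinearMap.ker d.g) (by
    intro y hy
    rw [LinearMap.mem_ker] at hy ⊢
    rw [d.g_R, hy, map_zero])
  map_one' := by
    ext y β
    simp
  map_mul' a b := by
    ext y β
    simp
  map_zero' := by
    ext y β
    simp
  map_add' a b := by
    ext y β
    simp

theorem R'_apply (κ : K) (y : LinearMap.ker d.g) : (d.R' κ y).1 = d.R κ y.1 := rfl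

theorem B_ker (β₀ : ι) (h0 : d.D β₀ ≠ 0) (y : LinearMap.ker d.g) :
    y ∈ LinearMap.ker d.B ↔ d.T y.1 = 0 := by
  have hB : ∀ y, d.B y y = 0 := by
    intro y
    have h := d.alt_B 1 y.1
    rw [map_one] at h
    exact h
  rw [LinearMap.mem_ker]
  constructor
  · intro h
    refine d.T_zero y.1 y.2 (fun y' hy' => ?_) β₀ h0
    have h1 := ppfrm_skew hB ⟨y', hy'⟩ y
    rw [h, LinearMap.zero_apply, neg_zero] at h1
    exact h1
  · intro h
    refine LinearMap.ext fun y' => ?_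
    rw [ppfrm_skew hB y y', B_apply, h, map_zero, neg_zero, LinearMap.zero_apply]

theorem g_surj (β₀ : ι) (h0 : d.D β₀ ≠ 0) : Function.Surjective d.g := by
  classical
  intro w
  refine ⟨Pi.single β₀ ((d.D β₀)⁻¹ • w), ?_⟩
  rw [g_apply, Finset.sum_eq_single β₀]
  · rw [Pi.single_eq_same, smul_smul, mul_inv_cancel₀ h0, one_smul]
  · intro γ _ hγ
    rw [Pi.single_eq_of_ne hγ, smul_zero]
  · intro h
    exact absurd (Finset.mem_univ _) h

/-- the solutions and the kernel of `B` -/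
theorem card_sol (β₀ : ι) (h0 : d.D β₀ ≠ 0) :
    Nat.card {c : ι → W // ∑ β, d.D β • d.σ β (c β) = 0 ∧
      ∀ β, ∑ β', d.l β β' • d.σ β' (c β' - c β) = d.D β • d.Λ (c β)} =
    Nat.card (LinearMap.ker d.B) := by
  have key : ∀ c : ι → W, (∀ β, ∑ β', d.l β β' • d.σ β' (c β' - c β) = d.D β • d.Λ (c β)) ↔
      d.T (fun β => d.σ β (c β)) = 0 := by
    intro c
    rw [funext_iff]
    refine forall_congr' fun β => ?_
    rw [T_apply, d.τσ, M_apply, Pi.zero_apply, sub_eq_zero]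
    simp only [map_sub, smul_sub, Finset.sum_sub_distrib]
    rw [sub_eq_iff_eq_add, add_comm]
  refine Nat.card_congr ⟨fun c => ⟨⟨fun β => d.σ β (c.1 β), ?_⟩, ?_⟩,
    fun y => ⟨fun β => d.τ β (y.1.1 β), ?_, ?_⟩, fun c => ?_, fun y => ?_⟩
  · rw [LinearMap.mem_ker, g_apply]
    exact c.2.1
  · exact (d.B_ker β₀ h0 _).mpr ((key c.1).mp c.2.2)
  · have h1 : d.g y.1.1 = 0 := y.1.2
    rw [g_apply] at h1
    simpa only [d.στ] using h1
  · rw [key]
    have h1 := (d.B_ker β₀ h0 _).mp y.2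
    simpa only [d.στ] using h1
  · refine Subtype.ext (funext fun β => ?_)
    exact d.τσ β _
  · refine Subtype.ext (Subtype.ext (funext fun β => ?_))
    exact d.στ β _

end PpfrmD

theorem ppfrm_arith {x q i j n : ℕ} (hq : 2 ≤ q) (h : (q ^ (2 * i)) ^ n = x * q ^ (2 * j)) :
    ∃ a : ℕ, x = q ^ (2 * a) := by
  have h1 : (q ^ (2 * i)) ^ n = q ^ (2 * (i * n)) := by
    rw [← pow_mul, mul_assoc]
  rw [h1] at h
  have h2 : q ^ (2 * j) ∣ q ^ (2 * (i * n)) := ⟨x, by rw [h, mul_comm]⟩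
  have h3 : 2 * j ≤ 2 * (i * n) := (Nat.pow_dvd_pow_iff_le_right (by omega)).mp h2
  refine ⟨i * n - j, ?_⟩
  have h4 : 2 * (i * n) = 2 * (i * n - j) + 2 * j := by omega
  rw [h4, pow_add] at h
  exact (Nat.eq_of_mul_eq_mul_right (by positivity) h).symm

end PpFrm

theorem tPpFrm.{v} (hPpEvn0 : StmtPpEvn.{0}) (hPpEvn : StmtPpEvn.{v}) : StmtPpFrm.{v} := by
  intro ℓ _ h2 K _ _ ι W _ _ _ _ ρ f nd alt frho σ Λ fσ fΛ ρσ ρΛ σinj l lsymm D com inj
  have hbij : ∀ β, Function.Bijective (σ β) := fun β => by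
    have h := (injective_iff_map_eq_zero (σ β)).mpr (σinj β)
    exact ⟨h, Finite.injective_iff_surjective.mp h⟩
  let d : PpfrmD ℓ K ι W :=
    { h2 := h2, ρ := ρ, f := f, nd := nd, alt := alt, frho := frho, σ := σ, Λ := Λ, fσ := fσ, fΛ := fΛ
      ρσ := ρσ, ρΛ := ρΛ
      τ := fun β => (LinearEquiv.ofBijective (σ β) (hbij β)).symm.toLinearMap
      στ := fun β x => (LinearEquiv.ofBijective (σ β) (hbij β)).apply_symm_apply x
      τσ := fun β x => (LinearEquiv.ofBijective (σ β) (hbij β)).symm_apply_apply x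
      l := l, lsymm := lsymm, D := D, com := com, inj := inj }
  by_cases h0 : ∃ β₀, D β₀ ≠ 0
  · obtain ⟨β₀, h0⟩ := h0
    obtain ⟨i, hi⟩ := hPpEvn0 ℓ K W ρ f frho (fun κ x => by
      refine ppfrm_half h2 ?_
      nth_rewrite 1 [← frho]
      exact d.skew _ _)
    obtain ⟨j, hj⟩ := hPpEvn ℓ K (LinearMap.ker d.g) d.R' d.B
      (fun κ x y => d.B_R κ x.1 y.1) (fun κ x => d.alt_B κ x.1)
    have hker : Nat.card (LinearMap.ker f) = 1 := by
      have : LinearMap.ker f = ⊥ := by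
        rw [eq_bot_iff]
        intro x hx
        rw [LinearMap.mem_ker] at hx
        rw [Submodule.mem_bot]
        exact nd x fun y => by rw [hx, LinearMap.zero_apply]
      rw [this]
      exact Nat.card_unique
    rw [hker, one_mul] at hi
    rw [ppfrm_card d.g (d.g_surj β₀ h0) ⟨β₀⟩, hi] at hj
    obtain ⟨a, ha⟩ := ppfrm_arith Finite.one_lt_card hj
    exact ⟨a, (d.card_sol β₀ h0).trans ha⟩
  · refine ⟨0, ?_⟩
    have h1 : ∀ y : W, y = 0 := by
      intro y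
      refine inj y (Finset.sum_eq_zero fun β _ => ?_)
      have h3 : D β = 0 := by
        by_contra h4
        exact h0 ⟨β, h4⟩
      rw [h3, zero_smul]
    have hs : Subsingleton W := ⟨fun a b => (h1 a).trans (h1 b).symm⟩
    rw [Nat.mul_zero, pow_zero, Nat.card_eq_one_iff_unique]
    refine ⟨⟨fun a b => Subtype.ext (Subsingleton.elim _ _)⟩, ⟨⟨0, ?_, fun β => ?_⟩⟩⟩
    · exact Subsingleton.elim _ _
    · exact Subsingleton.elim _ _

end MP72e2e6
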