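import Pool.Agent.Lib.MP_72e2e6_nt.PeStmtB
import Pool.Agent.Lib.MP_72e2e6_nt.PpFrm

set_option autoImplicit false

open Polynomial

namespace MP72e2e6

universe u

section PeFrm

theorem pefrm_add_self {Y : Type u} [AddCommGroup Y] [Module (ZMod 2) Y] (x : Y) : x + x = 0 := by
  rw [← two_smul (ZMod 2) x]
  have h : (2 : ZMod 2) = 0 := by decide
  rw [h, zero_smul]

theorem pefrm_eq {Y : Type u} [AddCommGroup Y] [Module (ZMod 2) Y] {x y : Y} :
    x + y = 0 ↔ x = y := by
  constructor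
  · intro h
    have h1 : x + y + y = y := by rw [h, zero_add]
    rwa [add_assoc, pefrm_add_self, add_zero] at h1
  · rintro rfl
    exact pefrm_add_self x

theorem pefrm_sub {Y : Type u} [AddCommGroup Y] [Module (ZMod 2) Y] (x y : Y) :
    x - y = x + y := by
  rw [sub_eq_iff_eq_add, add_assoc, pefrm_add_self, add_zero]

theorem pefrm_sq (s : ZMod 2) : s * s = s := by
  revert s
  decide

theorem pefrm_symm {Y : Type u} [AddCommGroup Y] [Module (ZMod 2) Y]
    {f : Y →ₗ[ZMod 2] Module.Dual (ZMod 2) Y} (hf : ∀ x, f x x = 0) (x y : Y) :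
    f x y = f y x := by
  have h := hf (x + y)
  simp only [map_add, LinearMap.add_apply, hf, zero_add, add_zero] at h
  exact (pefrm_eq.mp h).symm

theorem pefrm_double {ι : Type u} [Fintype ι] (u : ι → ι → ZMod 2)
    (h1 : ∀ β β', u β β' = u β' β) (h2 : ∀ β, u β β = 0) : ∑ β, ∑ β', u β β' = 0 := by
  rw [← Fintype.sum_prod_type']
  refine Finset.sum_involution (fun p _ => (p.2, p.1)) ?_ ?_ ?_ ?_
  · rintro ⟨β, β'⟩ _
    change u β β' + u β' β = 0
    rw [h1]
    exact pefrm_add_self _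
  · rintro ⟨β, β'⟩ _ h3 h4
    have h5 : β' = β := (Prod.mk.inj h4).1
    refine h3 ?_
    change u β β' = 0
    rw [h5, h2]
  · intro p _
    exact Finset.mem_univ _
  · rintro ⟨β, β'⟩ _
    rfl

/-- the data of the statement -/
structure PefrmD (ι : Type u) [Fintype ι] (W : Type) [AddCommGroup W] [Module (ZMod 2) W] where
  f : W →ₗ[ZMod 2] Module.Dual (ZMod 2) W
  nd : ∀ x, (∀ y, f x y = 0) → x = 0
  alt : ∀ x, f x x = 0
  ν : ι → W
  h : W
  σ : ι → Module.End (ZMod 2) W
  Λ : Module.End (ZMod 2) W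
  trans : ∀ β y, σ β y = y + f (ν β) y • ν β
  self : ∀ x y, f x (Λ y) = f (Λ x) y
  diag : ∀ x, f x (Λ x) = f h x
  l : ι → ι → ZMod 2
  lsymm : ∀ β β', l β β' = l β' β
  D : ι → ZMod 2
  μ : ι → ZMod 2
  com : ∀ β, ∑ β', l β β' • σ β' (ν β) + D β • Λ (ν β) = μ β • ν β
  deg : ∑ β, D β • ν β = 0
  inj : ∀ y, ∑ β, D β • σ β y = 0 → y = 0

namespace PefrmD

variable {W : Type} [AddCommGroup W] [Module (ZMod 2) W]
variable {ι : Type u} [Fintype ι] (d : PefrmD ι W)

/-- the operator `M β` -/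
noncomputable def M (β : ι) : Module.End (ZMod 2) W := ∑ β', d.l β β' • d.σ β' + d.D β • d.Λ

theorem M_apply (β : ι) (y : W) : d.M β y = ∑ β', d.l β β' • d.σ β' y + d.D β • d.Λ y := by
  simp [M, LinearMap.sum_apply]

theorem symm (x y : W) : d.f x y = d.f y x := pefrm_symm d.alt x y

theorem σσ (β : ι) (y : W) : d.σ β (d.σ β y) = y := by
  rw [d.trans, d.trans, map_add, map_smul, d.alt, smul_zero, add_zero, add_assoc, pefrm_add_self,
    add_zero]

theorem σν (β : ι) : d.σ β (d.ν β) = d.ν β := by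
  rw [d.trans, d.alt, zero_smul, add_zero]

theorem Mν (β : ι) : d.M β (d.ν β) = d.μ β • d.ν β := by
  rw [M_apply]
  exact d.com β

theorem adjσ (β : ι) (x y : W) : d.f (d.σ β x) y = d.f x (d.σ β y) := by
  rw [d.trans, d.trans, map_add, map_add, map_smul, map_smul, LinearMap.add_apply,
    LinearMap.smul_apply, smul_eq_mul, smul_eq_mul, mul_comm, d.symm (d.ν β) x]

theorem adjM (β : ι) (x y : W) : d.f (d.M β x) y = d.f x (d.M β y) := by
  rw [M_apply, M_apply, map_add, LinearMap.add_apply, map_sum, LinearMap.sum_apply, map_add, map_sum]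
  congr 1
  · refine Finset.sum_congr rfl fun β' _ => ?_
    rw [map_smul, LinearMap.smul_apply, map_smul, d.adjσ]
  · rw [map_smul, LinearMap.smul_apply, map_smul, d.self]

theorem Mσ (β : ι) (y : W) :
    d.M β (d.σ β y) = d.M β y + (d.f (d.ν β) y * d.μ β) • d.ν β := by
  rw [d.trans, map_add, map_smul, d.Mν, smul_smul]

theorem σM (β : ι) (y : W) : d.σ β (d.M β y) = d.M β (d.σ β y) := by
  rw [d.Mσ, d.trans, ← d.adjM, d.Mν, map_smul, LinearMap.smul_apply, smul_eq_mul, mul_comm]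

theorem fσ (β : ι) (y : W) : d.f y (d.σ β y) = d.f (d.ν β) y := by
  rw [d.trans, map_add, d.alt, zero_add, map_smul, smul_eq_mul, d.symm y, pefrm_sq]

theorem fM (β : ι) (y : W) : d.f y (d.M β y) =
    ∑ β', d.l β β' * d.f (d.ν β') y + d.D β * d.f d.h y := by
  rw [M_apply, map_add, map_sum, map_smul, d.diag, smul_eq_mul]
  congr 1
  refine Finset.sum_congr rfl fun β' _ => ?_
  rw [map_smul, d.fσ, smul_eq_mul]

/-- the operator `T` -/
noncomputable def T : (ι → W) →ₗ[ZMod 2] (ι → W) :=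
  LinearMap.pi fun β => ∑ β', d.l β β' • LinearMap.proj β' +
    (d.M β).comp ((d.σ β).comp (LinearMap.proj β))

theorem T_apply (y : ι → W) (β : ι) : d.T y β = ∑ β', d.l β β' • y β' + d.M β (d.σ β (y β)) := by
  simp [T, LinearMap.sum_apply]

/-- `∑ D β • y β` -/
noncomputable def g : (ι → W) →ₗ[ZMod 2] W := ∑ β, d.D β • LinearMap.proj β

theorem g_apply (y : ι → W) : d.g y = ∑ β, d.D β • y β := by
  simp [g, LinearMap.sum_apply]

/-- the form is symmetric -/
theorem symm_B (y y' : ι → W) : ppfrm_fn d.f y (d.T y') = ppfrm_fn d.f y' (d.T y) := by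
  have h1 : ∀ y y' : ι → W, ppfrm_fn d.f y (d.T y') =
      ∑ β, ∑ β', d.l β β' * d.f (y β) (y' β') + ∑ β, d.f (y β) (d.M β (d.σ β (y' β))) := by
    intro y y'
    rw [ppfrm_fn_apply, ← Finset.sum_add_distrib]
    refine Finset.sum_congr rfl fun β _ => ?_
    rw [T_apply, map_add, map_sum]
    congr 1
    refine Finset.sum_congr rfl fun β' _ => ?_
    rw [map_smul, smul_eq_mul]
  rw [h1, h1]
  congr 1
  · rw [Finset.sum_comm]
    refine Finset.sum_congr rfl fun β _ => Finset.sum_congr rfl fun β' _ => ?_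
    rw [d.lsymm, d.symm]
  · refine Finset.sum_congr rfl fun β _ => ?_
    rw [← d.adjM, ← d.adjσ, d.σM, d.symm]

theorem T_ν (β : ι) : d.T d.ν β = ∑ β', d.l β β' • d.ν β' + d.μ β • d.ν β := by
  rw [T_apply, d.σν, d.Mν]

theorem B_ν (y : ι → W) : ppfrm_fn d.f y (d.T d.ν) =
    ∑ β, (∑ β', d.l β β' * d.f (d.ν β') (y β) + d.μ β * d.f (d.ν β) (y β)) := by
  rw [ppfrm_fn_apply]
  refine Finset.sum_congr rfl fun β _ => ?_
  rw [T_ν, map_add, map_sum, map_smul, smul_eq_mul, d.symm (y β)]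
  congr 1
  refine Finset.sum_congr rfl fun β' _ => ?_
  rw [map_smul, smul_eq_mul, d.symm (y β)]

/-- the diagonal of the form -/
theorem diag_B (y : ι → W) (hy : d.g y = 0) :
    ppfrm_fn d.f y (d.T y) = ppfrm_fn d.f y (d.T d.ν) := by
  have h1 : ppfrm_fn d.f y (d.T y) =
      ∑ β, ∑ β', d.l β β' * d.f (y β) (y β') + ∑ β, d.f (y β) (d.M β (d.σ β (y β))) := by
    rw [ppfrm_fn_apply, ← Finset.sum_add_distrib]
    refine Finset.sum_congr rfl fun β _ => ?_
    rw [T_apply, map_add, map_sum]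
    congr 1
    refine Finset.sum_congr rfl fun β' _ => ?_
    rw [map_smul, smul_eq_mul]
  have h2 : ∑ β, ∑ β', d.l β β' * d.f (y β) (y β') = 0 := by
    refine pefrm_double _ (fun β β' => ?_) fun β => ?_
    · rw [d.lsymm, d.symm]
    · rw [d.alt, mul_zero]
  have h3 : ∀ β, d.f (y β) (d.M β (d.σ β (y β))) =
      (∑ β', d.l β β' * d.f (d.ν β') (y β) + d.μ β * d.f (d.ν β) (y β)) +
        d.D β * d.f d.h (y β) := by
    intro β
    rw [d.Mσ, map_add, d.fM, map_smul, smul_eq_mul, d.symm (y β) (d.ν β)]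
    have h4 : d.f (d.ν β) (y β) * d.μ β * d.f (d.ν β) (y β) = d.μ β * d.f (d.ν β) (y β) := by
      rw [mul_comm _ (d.μ β), mul_assoc, pefrm_sq]
    rw [h4]
    ring
  have h5 : ∑ β, d.D β * d.f d.h (y β) = 0 := by
    have h6 : ∑ β, d.D β * d.f d.h (y β) = d.f d.h (d.g y) := by
      rw [g_apply, map_sum]
      refine Finset.sum_congr rfl fun β _ => ?_
      rw [map_smul, smul_eq_mul]
    rw [h6, hy, map_zero]
  rw [h1, h2, zero_add, B_ν]
  simp only [h3]
  rw [Finset.sum_add_distrib, h5, add_zero]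

theorem B_νν : ppfrm_fn d.f d.ν (d.T d.ν) = 0 := by
  rw [B_ν, Finset.sum_add_distrib]
  have h1 : ∑ β, ∑ β', d.l β β' * d.f (d.ν β') (d.ν β) = 0 := by
    refine pefrm_double _ (fun β β' => ?_) fun β => ?_
    · rw [d.lsymm, d.symm]
    · rw [d.alt, mul_zero]
  rw [h1, zero_add]
  refine Finset.sum_eq_zero fun β _ => ?_
  rw [d.alt, mul_zero]

theorem T_zero (y' : ι → W) (hy : d.g y' = 0)
    (h : ∀ y, d.g y = 0 → ppfrm_fn d.f y (d.T y') = 0) (β₀ : ι) (h0 : d.D β₀ ≠ 0) : d.T y' = 0 := by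
  classical
  have h1 : ∀ β, d.T y' β = d.D β • ((d.D β₀)⁻¹ • d.T y' β₀) := by
    intro β
    rw [← sub_eq_zero]
    refine d.nd _ fun x => ?_
    rw [d.symm]
    have h2 := h (Pi.single β x - Pi.single β₀ ((d.D β * (d.D β₀)⁻¹) • x)) (by
      rw [map_sub, sub_eq_zero, g_apply, g_apply, Finset.sum_eq_single β, Finset.sum_eq_single β₀]
      · rw [Pi.single_eq_same, Pi.single_eq_same, smul_smul]
        congr 1
        field_simp
      · intro γ _ hγ
        rw [Pi.single_eq_of_ne hγ, smul_zero]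
      · intro h
        exact absurd (Finset.mem_univ _) h
      · intro γ _ hγ
        rw [Pi.single_eq_of_ne hγ, smul_zero]
      · intro h
        exact absurd (Finset.mem_univ _) h)
    rw [map_sub, LinearMap.sub_apply, ppfrm_fn_single, ppfrm_fn_single, map_smul,
      LinearMap.smul_apply] at h2
    rw [map_sub, map_smul, map_smul, smul_smul]
    exact h2
  have h3 : ∑ β, d.σ β (d.T y' β) = 0 := by
    have h4 : ∀ β, d.σ β (d.T y' β) = ∑ β', d.l β β' • d.σ β (y' β') +
        (∑ β', d.l β β' • d.σ β' (y' β) + d.D β • d.Λ (y' β)) := by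
      intro β
      rw [T_apply, map_add, d.σM, d.σσ, M_apply, map_sum]
      congr 1
      refine Finset.sum_congr rfl fun β' _ => ?_
      rw [map_smul]
    simp only [h4, Finset.sum_add_distrib]
    have h5 : ∑ β, ∑ β', d.l β β' • d.σ β (y' β') = ∑ β, ∑ β', d.l β β' • d.σ β' (y' β) := by
      rw [Finset.sum_comm]
      refine Finset.sum_congr rfl fun β _ => Finset.sum_congr rfl fun β' _ => ?_
      rw [d.lsymm]
    have h6 : ∑ β, d.D β • d.Λ (y' β) = 0 := by
      have h7 : ∑ β, d.D β • d.Λ (y' β) = d.Λ (d.g y') := by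
        rw [g_apply, map_sum]
        exact Finset.sum_congr rfl fun β _ => (map_smul _ _ _).symm
      rw [h7, hy, map_zero]
    rw [h5, h6, add_zero, pefrm_add_self]
  have h8 : (d.D β₀)⁻¹ • d.T y' β₀ = 0 := by
    refine d.inj _ ?_
    rw [← h3]
    refine Finset.sum_congr rfl fun β _ => ?_
    rw [h1 β]
    simp only [map_smul]
  funext β
  rw [h1 β, h8, smul_zero]
  rfl

/-- the form on the kernel of `g` -/
noncomputable def B : LinearMap.ker d.g →ₗ[ZMod 2] Module.Dual (ZMod 2) (LinearMap.ker d.g) :=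
  (ppfrm_fn d.f).compl₁₂ (LinearMap.ker d.g).subtype (d.T.comp (LinearMap.ker d.g).subtype)

theorem B_apply (y y' : LinearMap.ker d.g) : d.B y y' = ppfrm_fn d.f y.1 (d.T y'.1) := rfl

theorem B_symm (y y' : LinearMap.ker d.g) : d.B y y' = d.B y' y := by
  rw [B_apply, B_apply, d.symm_B]

/-- the vector `ν` in the kernel of `g` -/
noncomputable def z : LinearMap.ker d.g := ⟨d.ν, by
  rw [LinearMap.mem_ker, g_apply]
  exact d.deg⟩

theorem B_diag (y : LinearMap.ker d.g) : d.B y y = d.B y d.z := d.diag_B y.1 y.2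

theorem B_zz : d.B d.z d.z = 0 := d.B_νν

/-- the functional `y ↦ B y z` -/
noncomputable def φ : Module.Dual (ZMod 2) (LinearMap.ker d.g) := d.B d.z

theorem φ_apply (y : LinearMap.ker d.g) : d.φ y = d.B y d.z := d.B_symm _ _

/-- the alternating form -/
noncomputable def G : LinearMap.ker d.g →ₗ[ZMod 2] Module.Dual (ZMod 2) (LinearMap.ker d.g) :=
  d.B + d.φ.smulRight d.φ

theorem G_apply (y y' : LinearMap.ker d.g) : d.G y y' = d.B y y' + d.B y d.z * d.B y' d.z := by
  rw [← d.φ_apply, ← d.φ_apply]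
  rfl

theorem G_alt (y : LinearMap.ker d.g) : d.G y y = 0 := by
  rw [G_apply, d.B_diag, pefrm_sq]
  exact pefrm_add_self _

theorem G_ker (y : LinearMap.ker d.g) : y ∈ LinearMap.ker d.G ↔ ∀ y', d.B y y' = 0 := by
  rw [LinearMap.mem_ker]
  constructor
  · intro h
    have h1 : ∀ y', d.B y y' + d.B y d.z * d.B y' d.z = 0 := by
      intro y'
      rw [← G_apply, h, LinearMap.zero_apply]
    have h2 : d.B y d.z = 0 := by
      have h3 := h1 d.z
      rwa [d.B_zz, mul_zero, add_zero] at h3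
    intro y'
    have h3 := h1 y'
    rwa [h2, zero_mul, add_zero] at h3
  · intro h
    refine LinearMap.ext fun y' => ?_
    rw [G_apply, h, h, zero_mul, add_zero, LinearMap.zero_apply]

theorem B_ker (β₀ : ι) (h0 : d.D β₀ ≠ 0) (y : LinearMap.ker d.g) :
    y ∈ LinearMap.ker d.G ↔ d.T y.1 = 0 := by
  rw [G_ker]
  constructor
  · intro h
    refine d.T_zero y.1 y.2 (fun y' hy' => ?_) β₀ h0
    rw [← h ⟨y', hy'⟩, d.B_symm]
    rfl
  · intro h y'
    rw [d.B_symm, B_apply, h, map_zero]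

theorem g_surj (β₀ : ι) (h0 : d.D β₀ ≠ 0) : Function.Surjective d.g := by
  classical
  intro w
  refine ⟨Pi.single β₀ ((d.D β₀)⁻¹ • w), ?_⟩
  rw [g_apply, Finset.sum_eq_single β₀]
  · rw [Pi.single_eq_same, smul_smul, mul_inv_cancel₀ h0, one_smul]
  · intro γ _ hγ
    rw [Pi.single_eq_of_ne hγ, smul_zero]
  · intro h
    exact absurd (Finset.mem_univ _) h

/-- the solutions and the kernel of `G` -/
theorem card_sol (β₀ : ι) (h0 : d.D β₀ ≠ 0) :
    Nat.card {c : ι → W // ∑ β, d.D β • d.σ β (c β) = 0 ∧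
      ∀ β, ∑ β', d.l β β' • d.σ β' (c β' - c β) = d.D β • d.Λ (c β)} =
    Nat.card (LinearMap.ker d.G) := by
  have key : ∀ c : ι → W, (∀ β, ∑ β', d.l β β' • d.σ β' (c β' - c β) = d.D β • d.Λ (c β)) ↔
      d.T (fun β => d.σ β (c β)) = 0 := by
    intro c
    rw [funext_iff]
    refine forall_congr' fun β => ?_
    rw [T_apply, d.σσ, M_apply, Pi.zero_apply]
    simp only [map_sub, smul_sub, Finset.sum_sub_distrib]
    rw [sub_eq_iff_eq_add, add_comm, pefrm_eq]
  refine Nat.card_congr ⟨fun c => ⟨⟨fun β => d.σ β (c.1 β), ?_⟩, ?_⟩,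
    fun y => ⟨fun β => d.σ β (y.1.1 β), ?_, ?_⟩, fun c => ?_, fun y => ?_⟩
  · rw [LinearMap.mem_ker, g_apply]
    exact c.2.1
  · exact (d.B_ker β₀ h0 _).mpr ((key c.1).mp c.2.2)
  · have h1 : d.g y.1.1 = 0 := y.1.2
    rw [g_apply] at h1
    simpa only [d.σσ] using h1
  · rw [key]
    have h1 := (d.B_ker β₀ h0 _).mp y.2
    simpa only [d.σσ] using h1
  · refine Subtype.ext (funext fun β => ?_)
    exact d.σσ β _
  · refine Subtype.ext (Subtype.ext (funext fun β => ?_))
    exact d.σσ β _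

end PefrmD

end PeFrm

theorem tPeFrm.{v} (hPpEvn0 : StmtPpEvn.{0}) (hPpEvn : StmtPpEvn.{v}) : StmtPeFrm.{v} := by
  intro ι W _ _ _ _ f nd alt ν h σ Λ trans self diag l lsymm D com deg inj
  choose μ com using com
  let d : PefrmD ι W :=
    { f := f, nd := nd, alt := alt, ν := ν, h := h, σ := σ, Λ := Λ, trans := trans, self := self
      diag := diag, l := l, lsymm := lsymm, D := D, μ := μ, com := com, deg := deg, inj := inj }
  by_cases h0 : ∃ β₀, D β₀ ≠ 0
  · obtain ⟨β₀, h0⟩ := h0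
    obtain ⟨i, hi⟩ := hPpEvn0 2 (ZMod 2) W (algebraMap (ZMod 2) (Module.End (ZMod 2) W)) f
      (fun κ x y => by
        rw [Module.algebraMap_end_apply, Module.algebraMap_end_apply, map_smul, map_smul,
          LinearMap.smul_apply])
      (fun κ x => by
        rw [Module.algebraMap_end_apply, map_smul, alt, smul_zero])
    obtain ⟨j, hj⟩ := hPpEvn 2 (ZMod 2) (LinearMap.ker d.g)
      (algebraMap (ZMod 2) (Module.End (ZMod 2) (LinearMap.ker d.g))) d.G
      (fun κ x y => by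
        rw [Module.algebraMap_end_apply, Module.algebraMap_end_apply, map_smul, map_smul,
          LinearMap.smul_apply])
      (fun κ x => by
        rw [Module.algebraMap_end_apply, map_smul, d.G_alt, smul_zero])
    have hker : Nat.card (LinearMap.ker f) = 1 := by
      have : LinearMap.ker f = ⊥ := by
        rw [eq_bot_iff]
        intro x hx
        rw [LinearMap.mem_ker] at hx
        rw [Submodule.mem_bot]
        exact nd x fun y => by rw [hx, LinearMap.zero_apply]
      rw [this]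
      exact Nat.card_unique
    rw [hker, one_mul] at hi
    rw [ppfrm_card d.g (d.g_surj β₀ h0) ⟨β₀⟩, hi] at hj
    obtain ⟨a, ha⟩ := ppfrm_arith Finite.one_lt_card hj
    refine ⟨a, (d.card_sol β₀ h0).trans ?_⟩
    rw [ha, Nat.card_zmod, pow_mul]
    norm_num
  · refine ⟨0, ?_⟩
    have h1 : ∀ y : W, y = 0 := by
      intro y
      refine inj y (Finset.sum_eq_zero fun β _ => ?_)
      have h3 : D β = 0 := by
        by_contra h4
        exact h0 ⟨β, h4⟩
      rw [h3, zero_smul]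
    have hs : Subsingleton W := ⟨fun a b => (h1 a).trans (h1 b).symm⟩
    rw [pow_zero, Nat.card_eq_one_iff_unique]
    refine ⟨⟨fun a b => Subtype.ext (Subsingleton.elim _ _)⟩, ⟨⟨0, ?_, fun β => ?_⟩⟩⟩
    · exact Subsingleton.elim _ _
    · exact Subsingleton.elim _ _

end MP72e2e6
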