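import Pool.Agent.Lib.MP_72e2e6_nt.PeStmtB

/-!
# MP_72e2e6_nt: positive proportion of quadratic twists, the hypotheses hold for the curves
-/

set_option autoImplicit false

namespace MP72e2e6

open Polynomial IsDedekindDomain

universe u

theorem pehyp_two (e : ZMod 2) : e = 0 ∨ e = 1 := by
  revert e
  decide

theorem pehyp_sq (e : ZMod 2) : e * e = e := by
  revert e
  decide

/-- symmetric functions with zero diagonal have sum zero -/
theorem pehyp_sym {κ : Type} [Fintype κ] (g : κ → κ → ZMod 2) (hg : ∀ i k, g i k = g k i)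
    (h0 : ∀ i, g i i = 0) : ∑ i, ∑ k, g i k = 0 := by
  rw [← Finset.sum_product' Finset.univ Finset.univ g]
  refine Finset.sum_involution (fun x _ => (x.2, x.1)) ?_ ?_ ?_ ?_
  · rintro ⟨i, k⟩ _
    change g i k + g k i = 0
    rw [hg k i]
    exact CharTwo.add_self_eq_zero _
  · rintro ⟨i, k⟩ _ h1 h2
    have h3 : k = i := congrArg Prod.fst h2
    subst h3
    exact h1 (h0 k)
  · intro x _
    simp
  · intro x _
    rfl

/-! ### The operators -/

theorem pehyp_trE {m : ℕ} (ν y : Ev m) (i : Fin m) :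
    (trE ν y : Fin m → ZMod 2) i = (y : Fin m → ZMod 2) i +
      ip (ν : Fin m → ZMod 2) (y : Fin m → ZMod 2) * (ν : Fin m → ZMod 2) i := rfl

theorem pehyp_lapE {m : ℕ} (e : Fin m → Fin m → ZMod 2) (he : ∀ i k, e i k = e k i) (c : Ev m)
    (i : Fin m) : (lapE e he c : Fin m → ZMod 2) i =
      ∑ k, ((c : Fin m → ZMod 2) i + (c : Fin m → ZMod 2) k) * e i k := rfl

theorem pehyp_sum {m : ℕ} (c : Ev m) : ∑ i, (c : Fin m → ZMod 2) i = 0 := c.2

theorem pehyp_single {m : ℕ} (j k : Fin m) :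
    (Pi.single j 1 + Pi.single k 1 : Fin m → ZMod 2) ∈ Ev m := by
  classical
  change ∑ i, (Pi.single j 1 + Pi.single k 1 : Fin m → ZMod 2) i = 0
  simp only [Pi.add_apply, Finset.sum_add_distrib, Finset.sum_pi_single']
  simp only [Finset.mem_univ, if_true]
  exact CharTwo.add_self_eq_zero _

theorem pehyp_ip_single {m : ℕ} (x : Fin m → ZMod 2) (j k : Fin m) :
    ip x (Pi.single j 1 + Pi.single k 1) = x j + x k := by
  classical
  simp only [ip, Pi.add_apply, mul_add, Finset.sum_add_distrib, Pi.single_apply, mul_ite, mul_one,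
    mul_zero, Finset.sum_ite_eq', Finset.mem_univ, if_true]

theorem pehyp_mod {m : ℕ} (hm : Odd m) : (m : ZMod 2) = 1 := by
  rw [← Nat.cast_one, ZMod.natCast_eq_natCast_iff]
  exact Nat.odd_iff.1 hm

theorem pehyp_alt {m : ℕ} (x : Ev m) : ipE m x x = 0 := by
  rw [ipE_apply, ip, Finset.sum_congr rfl fun i _ => pehyp_sq _]
  exact x.2

theorem pehyp_nondeg {m : ℕ} (hm : Odd m) (x : Ev m) (h : ∀ y, ipE m x y = 0) : x = 0 := by
  have h1 : ∀ i j, (x : Fin m → ZMod 2) i = (x : Fin m → ZMod 2) j := by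
    intro i j
    have h2 := h ⟨_, pehyp_single i j⟩
    rw [ipE_apply] at h2
    change ip (x : Fin m → ZMod 2) (Pi.single i 1 + Pi.single j 1) = 0 at h2
    rw [pehyp_ip_single] at h2
    exact CharTwo.add_eq_zero.1 h2
  refine Subtype.ext (funext fun i => ?_)
  have h3 := pehyp_sum x
  rw [Finset.sum_congr rfl fun j _ => h1 j i, Finset.sum_const, Finset.card_univ,
    Fintype.card_fin, nsmul_eq_mul, pehyp_mod hm, one_mul] at h3
  exact h3

theorem pehyp_self {m : ℕ} (e : Fin m → Fin m → ZMod 2) (he : ∀ i k, e i k = e k i)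
    (x y : Ev m) : ipE m x (lapE e he y) = ipE m (lapE e he x) y := by
  rw [ipE_apply, ipE_apply, ip, ip]
  simp only [pehyp_lapE, Finset.mul_sum, Finset.sum_mul]
  have h1 : ∑ i, ∑ k, (x : Fin m → ZMod 2) i * (y : Fin m → ZMod 2) k * e i k =
      ∑ i, ∑ k, (x : Fin m → ZMod 2) k * (y : Fin m → ZMod 2) i * e i k := by
    rw [Finset.sum_comm]
    exact Finset.sum_congr rfl fun i _ => Finset.sum_congr rfl fun k _ => by rw [he]
  have h2 : ∀ i k, (x : Fin m → ZMod 2) i * (((y : Fin m → ZMod 2) i +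
      (y : Fin m → ZMod 2) k) * e i k) = (x : Fin m → ZMod 2) i * (y : Fin m → ZMod 2) i * e i k +
      (x : Fin m → ZMod 2) i * (y : Fin m → ZMod 2) k * e i k := fun i k => by ring
  have h3 : ∀ i k, ((x : Fin m → ZMod 2) i + (x : Fin m → ZMod 2) k) * e i k *
      (y : Fin m → ZMod 2) i = (x : Fin m → ZMod 2) i * (y : Fin m → ZMod 2) i * e i k +
      (x : Fin m → ZMod 2) k * (y : Fin m → ZMod 2) i * e i k := fun i k => by ring
  simp only [h2, h3, Finset.sum_add_distrib]
  rw [h1]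

theorem pehyp_diag {m : ℕ} (e : Fin m → Fin m → ZMod 2) (he : ∀ i k, e i k = e k i)
    (he0 : ∀ i, e i i = 0) (h : Ev m) (hh : ∀ i, (h : Fin m → ZMod 2) i = ∑ k, e i k)
    (x : Ev m) : ipE m x (lapE e he x) = ipE m h x := by
  rw [ipE_apply, ipE_apply, ip, ip]
  simp only [pehyp_lapE, hh, Finset.mul_sum, Finset.sum_mul]
  have h1 : ∑ i, ∑ k, (x : Fin m → ZMod 2) i * (x : Fin m → ZMod 2) k * e i k = 0 :=
    pehyp_sym _ (fun i k => by rw [he]; ring) (fun i => by rw [he0, mul_zero])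
  have h2 : ∀ i k, (x : Fin m → ZMod 2) i * (((x : Fin m → ZMod 2) i +
      (x : Fin m → ZMod 2) k) * e i k) = e i k * (x : Fin m → ZMod 2) i +
      (x : Fin m → ZMod 2) i * (x : Fin m → ZMod 2) k * e i k := fun i k => by
    rw [add_mul, mul_add, ← mul_assoc, pehyp_sq, mul_comm (e i k)]
    ring
  simp only [h2, Finset.sum_add_distrib]
  rw [h1, add_zero]

section curves

variable {F : Type u} [Field F] [Finite F] {m n₀ : ℕ} {a : Fin m → F[X]}

theorem pehyp_card_odd (hF : 4 ∣ Nat.card F - 1) : Odd (Nat.card F) := by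
  obtain ⟨k, hk⟩ := hF
  have h1 : 1 < Nat.card F := Finite.one_lt_card
  exact ⟨2 * k, by omega⟩

omit [Field F] [Finite F] in
theorem pehyp_card_two (hF : 4 ∣ Nat.card F - 1) : 2 ∣ Nat.card F - 1 :=
  (by norm_num : 2 ∣ 4).trans hF

omit [Finite F] in
theorem pehyp_inj (ha : Pts m n₀ a) : Function.Injective a := by
  intro i j hij
  by_contra hne
  have h1 := ha.deg i j hne
  rw [hij, sub_self, degree_zero] at h1
  exact absurd h1 (by simp)

omit [Finite F] in
theorem pehyp_cs_zero : cs (0 : F) = 0 := by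
  rw [cs, if_pos ⟨0, by simp⟩]

theorem pehyp_lc (hSy : StmtTwSy.{u}) (hSyl : StmtPeSyl.{u}) (hF : 4 ∣ Nat.card F - 1)
    (ha : Function.Injective a) (i k : Fin m) :
    cs (a i - a k).leadingCoeff = cs (a k - a i).leadingCoeff := by
  obtain ⟨-, -, h1⟩ := hSyl F (pehyp_card_two hF)
  by_cases hik : i = k
  · rw [hik]
  · have h2 : (a k - a i).leadingCoeff ≠ 0 :=
      leadingCoeff_ne_zero.2 (sub_ne_zero.2 fun h => hik (ha h).symm)
    rw [← neg_sub (a k) (a i), leadingCoeff_neg, ← neg_one_mul,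
      (hSy F (pehyp_card_odd hF)).1 _ _ (neg_ne_zero.2 one_ne_zero) h2, (h1 hF).1, zero_add]

omit [Finite F] in
theorem pehyp_laE (h : ∀ i k, cs (a i - a k).leadingCoeff = cs (a k - a i).leadingCoeff) :
    laE a = lapE (fun i k => cs (a i - a k).leadingCoeff) h := dif_pos h

theorem pehyp_nuE (hNu : StmtTwNu.{u}) (hF : Odd (Nat.card F)) (ha : Pts m n₀ a) {P : F[X]}
    (hP : P.Monic) (hPi : Irreducible P) : (nuE P a : Fin m → ZMod 2) = nu P a := by
  have h1 : nu P a ∈ Ev m := by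
    rcases (hNu F hF m n₀ a ha P hP hPi).1 with h | ⟨j, k, -, h⟩
    · rw [h]
      exact Submodule.zero_mem _
    · rw [h]
      exact pehyp_single j k
  rw [nuE, dif_pos h1]

/-- the transvection of a prime -/
theorem pehyp_tr (hNu : StmtTwNu.{u}) (hF : Odd (Nat.card F)) (ha : Pts m n₀ a) {P : F[X]}
    (hP : P.Monic) (hPi : Irreducible P) (y : Ev m) (i : Fin m) :
    (trE (nuE P a) y : Fin m → ZMod 2) i = (y : Fin m → ZMod 2) i +
      ∑ k, ((y : Fin m → ZMod 2) i + (y : Fin m → ZMod 2) k) * vp P (a i - a k) := by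
  rw [pehyp_trE, pehyp_nuE hNu hF ha hP hPi, (hNu F hF m n₀ a ha P hP hPi).2.2.2.1]

variable {ι : Type} [Fintype ι] {pr : ι → F[X]}

/-- sums of the operators -/
theorem pehyp_ops (hNu : StmtTwNu.{u}) (hF : Odd (Nat.card F)) (ha : Pts m n₀ a)
    (hpr : Fam pr) (s : ι → ZMod 2) (y : Ev m) (i : Fin m) :
    ∑ β, s β * (trE (nuE (pr β) a) y : Fin m → ZMod 2) i =
      (∑ β, s β) * (y : Fin m → ZMod 2) i +
      ∑ k, ((y : Fin m → ZMod 2) i + (y : Fin m → ZMod 2) k) *
        ∑ β, vp (pr β) (a i - a k) * s β := by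
  have h1 : ∀ β, s β * (trE (nuE (pr β) a) y : Fin m → ZMod 2) i =
      s β * (y : Fin m → ZMod 2) i +
      ∑ k, ((y : Fin m → ZMod 2) i + (y : Fin m → ZMod 2) k) *
        (vp (pr β) (a i - a k) * s β) := by
    intro β
    rw [pehyp_tr hNu hF ha (hpr.monic β) (hpr.irr β), mul_add, Finset.mul_sum]
    congr 1
    exact Finset.sum_congr rfl fun k _ => by ring
  rw [Finset.sum_congr rfl fun β _ => h1 β, Finset.sum_add_distrib, Finset.sum_mul,
    Finset.sum_comm]
  congr 1
  exact Finset.sum_congr rfl fun k _ => by rw [Finset.mul_sum]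

/-- the factorization of the differences -/
theorem pehyp_fac (hFac : StmtTwFac.{u}) (hSy : StmtTwSy.{u}) (hF : Odd (Nat.card F))
    (ha : Function.Injective a) (hpr : Fam pr)
    (hcov : ∀ P : F[X], P.Monic → Irreducible P → ∀ i j, i ≠ j → P ∣ a i - a j →
      ∃ v, pr v = P) {i k : Fin m} (hik : i ≠ k) :
    (∀ β, sy (pr β) (a i - a k) = (pr β).natDegree * cs (a i - a k).leadingCoeff +
      ∑ β', vp (pr β') (a i - a k) * sy (pr β) (pr β')) ∧
    ((a i - a k).natDegree : ZMod 2) = ∑ β, (pr β).natDegree * vp (pr β) (a i - a k) := by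
  have h0 : a i - a k ≠ 0 := sub_ne_zero.2 fun h => hik (ha h)
  obtain ⟨h1, h2, -⟩ := hFac F hF ι pr hpr (a i - a k) h0 (fun P hP hPi hne =>
    (((hSy F hF).2 P hP hPi).2.1 _ fun h3 => by
      obtain ⟨v, hv⟩ := hcov P hP hPi i k hik h3
      exact hne v hv).1)
  exact ⟨h1, h2⟩

/-- the operator of a prime of the family -/
theorem pehyp_op (hFac : StmtTwFac.{u}) (hSy : StmtTwSy.{u}) (hNu : StmtTwNu.{u})
    (hSyl : StmtPeSyl.{u}) (hF : 4 ∣ Nat.card F - 1) (ha : Pts m n₀ a) (hpr : Fam pr)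
    (hcov : ∀ P : F[X], P.Monic → Irreducible P → ∀ i j, i ≠ j → P ∣ a i - a j →
      ∃ v, pr v = P) (β : ι) (y : Ev m) (i : Fin m) :
    ∑ β', sy (pr β) (pr β') * (trE (nuE (pr β') a) y : Fin m → ZMod 2) i +
      ((pr β).natDegree : ZMod 2) * (laE a y : Fin m → ZMod 2) i =
      (∑ β', sy (pr β) (pr β')) * (y : Fin m → ZMod 2) i +
      ∑ k, ((y : Fin m → ZMod 2) i + (y : Fin m → ZMod 2) k) * sy (pr β) (a i - a k) := by
  have hodd := pehyp_card_odd hF
  have hinj := pehyp_inj ha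
  rw [pehyp_ops hNu hodd ha hpr, pehyp_laE (pehyp_lc hSy hSyl hF hinj), pehyp_lapE, add_assoc,
    Finset.mul_sum, ← Finset.sum_add_distrib]
  congr 1
  refine Finset.sum_congr rfl fun k _ => ?_
  by_cases hik : i = k
  · subst hik
    rw [CharTwo.add_self_eq_zero, zero_mul, zero_mul, zero_mul, mul_zero, add_zero]
  · rw [(pehyp_fac hFac hSy hodd hinj hpr hcov hik).1 β]
    ring

/-- the degrees -/
theorem pehyp_deg (hFac : StmtTwFac.{u}) (hSy : StmtTwSy.{u}) (hNu : StmtTwNu.{u})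
    (hF : Odd (Nat.card F)) (ha : Pts m n₀ a) (hpr : Fam pr)
    (hcov : ∀ P : F[X], P.Monic → Irreducible P → ∀ i j, i ≠ j → P ∣ a i - a j →
      ∃ v, pr v = P) (y : Ev m) (i : Fin m) :
    ∑ β, ((pr β).natDegree : ZMod 2) * (trE (nuE (pr β) a) y : Fin m → ZMod 2) i =
      (∑ β, ((pr β).natDegree : ZMod 2) + n₀) * (y : Fin m → ZMod 2) i := by
  have hinj := pehyp_inj ha
  rw [pehyp_ops hNu hF ha hpr, add_mul]
  congr 1
  have h1 : ∀ k, ((y : Fin m → ZMod 2) i + (y : Fin m → ZMod 2) k) *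
      ∑ β, vp (pr β) (a i - a k) * ((pr β).natDegree : ZMod 2) =
      ((y : Fin m → ZMod 2) i + (y : Fin m → ZMod 2) k) * n₀ := by
    intro k
    by_cases hik : i = k
    · subst hik
      rw [CharTwo.add_self_eq_zero, zero_mul, zero_mul]
    · have h2 := (pehyp_fac hFac hSy hF hinj hpr hcov hik).2
      have h3 : (a i - a k).natDegree = n₀ := natDegree_eq_of_degree_eq_some (ha.deg i k hik)
      rw [h3] at h2
      rw [h2]
      congr 1
      exact Finset.sum_congr rfl fun β _ => mul_comm _ _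
  rw [Finset.sum_congr rfl fun k _ => h1 k, ← Finset.sum_mul, Finset.sum_add_distrib,
    pehyp_sum y, add_zero, Finset.sum_const, Finset.card_univ, Fintype.card_fin, nsmul_eq_mul,
    pehyp_mod ha.odd, one_mul, mul_comm]

theorem pehyp_degnu (hFac : StmtTwFac.{u}) (hSy : StmtTwSy.{u}) (hNu : StmtTwNu.{u})
    (hF : Odd (Nat.card F)) (ha : Pts m n₀ a) (hpr : Fam pr)
    (hcov : ∀ P : F[X], P.Monic → Irreducible P → ∀ i j, i ≠ j → P ∣ a i - a j →
      ∃ v, pr v = P) : ∑ β, ((pr β).natDegree : ZMod 2) • nuE (pr β) a = 0 := by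
  have hinj := pehyp_inj ha
  refine Subtype.ext (funext fun i => ?_)
  rw [AddSubmonoidClass.coe_finsetSum, Finset.sum_apply]
  have h1 : ∀ β, (((((pr β).natDegree : ZMod 2) • nuE (pr β) a : Ev m)) : Fin m → ZMod 2) i =
      ∑ k, ((pr β).natDegree : ZMod 2) * vp (pr β) (a i - a k) := by
    intro β
    rw [Submodule.coe_smul, Pi.smul_apply, smul_eq_mul,
      pehyp_nuE hNu hF ha (hpr.monic β) (hpr.irr β), nu, Finset.mul_sum]
  rw [Finset.sum_congr rfl fun β _ => h1 β, Finset.sum_comm]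
  classical
  have h2 : ∀ k, ∑ β, ((pr β).natDegree : ZMod 2) * vp (pr β) (a i - a k) =
      (n₀ : ZMod 2) + if k = i then (n₀ : ZMod 2) else 0 := by
    intro k
    by_cases hik : k = i
    · subst hik
      rw [if_pos rfl, CharTwo.add_self_eq_zero]
      refine Finset.sum_eq_zero fun β _ => ?_
      rw [sub_self, vp, if_pos rfl, mul_zero]
    · have h2 := (pehyp_fac hFac hSy hF hinj hpr hcov (Ne.symm hik)).2
      have h3 : (a i - a k).natDegree = n₀ :=
        natDegree_eq_of_degree_eq_some (ha.deg i k (Ne.symm hik))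
      rw [h3] at h2
      rw [if_neg hik, add_zero, h2]
  rw [Finset.sum_congr rfl fun k _ => h2 k, Finset.sum_add_distrib, Finset.sum_const,
    Finset.card_univ, Fintype.card_fin, nsmul_eq_mul, pehyp_mod ha.odd, one_mul,
    Finset.sum_ite_eq', if_pos (Finset.mem_univ _)]
  exact CharTwo.add_self_eq_zero _

omit [Fintype ι] in
theorem pehyp_sy_congr (hSy : StmtTwSy.{u}) (hF : Odd (Nat.card F)) {P : F[X]} (hP : P.Monic)
    (hPi : Irreducible P) {g h : F[X]} (hg : ¬ P ∣ g) (hgh : P ∣ g - h) : sy P g = sy P h := by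
  have h1 := ((hSy F hF).2 P hP hPi).2.1
  have hh : ¬ P ∣ h := fun h2 => hg ((dvd_iff_dvd_of_dvd_sub hgh).2 h2)
  have h2 := (h1 g hg).2
  have h3 := (h1 h hh).2
  have h4 : AdjoinRoot.mk P g = AdjoinRoot.mk P h := AdjoinRoot.mk_eq_mk.2 hgh
  rw [h4] at h2
  have h5 : sy P g = 0 ↔ sy P h = 0 := h2.trans h3.symm
  rcases pehyp_two (sy P g) with h6 | h6 <;> rcases pehyp_two (sy P h) with h7 | h7
  · rw [h6, h7]
  · exact absurd (h5.1 h6) (by rw [h7]; exact one_ne_zero)
  · exact absurd (h5.2 h7) (by rw [h6]; exact one_ne_zero)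
  · rw [h6, h7]

theorem pehyp_com (hFac : StmtTwFac.{u}) (hSy : StmtTwSy.{u}) (hNu : StmtTwNu.{u})
    (hSyl : StmtPeSyl.{u}) (hF : 4 ∣ Nat.card F - 1) (ha : Pts m n₀ a) (hpr : Fam pr)
    (hcov : ∀ P : F[X], P.Monic → Irreducible P → ∀ i j, i ≠ j → P ∣ a i - a j →
      ∃ v, pr v = P) (β : ι) :
    ∃ μ : ZMod 2, ∑ β', sy (pr β) (pr β') • trE (nuE (pr β') a) (nuE (pr β) a) +
      ((pr β).natDegree : ZMod 2) • laE a (nuE (pr β) a) = μ • nuE (pr β) a := by
  classical
  have hodd := pehyp_card_odd hF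
  have hinj := pehyp_inj ha
  have hP := hpr.monic β
  have hPi := hpr.irr β
  obtain ⟨h1, -, h3, -, -⟩ := hNu F hodd m n₀ a ha (pr β) hP hPi
  have hcoe := pehyp_nuE hNu hodd ha hP hPi
  rcases h1 with h1 | ⟨j, k, hjk, h1⟩
  · have h2 : nuE (pr β) a = 0 := Subtype.ext (by rw [hcoe, h1]; rfl)
    refine ⟨0, ?_⟩
    rw [h2]
    simp only [map_zero, smul_zero, Finset.sum_const_zero, add_zero]
  · have hdvd : pr β ∣ a j - a k := by
      by_contra h4
      have h5 := (((hSy F hodd).2 _ hP hPi).2.1 _ h4).1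
      rw [(h3 j k hjk).2 h1] at h5
      exact one_ne_zero h5
    -- no other difference is divisible
    have hnd : ∀ i l, i ≠ l → ¬ (i = j ∧ l = k) → ¬ (i = k ∧ l = j) → ¬ pr β ∣ a i - a l := by
      intro i l hil h4 h5 h6
      exact hPi.not_isUnit ((ha.cop j k i l hjk hil (fun h => h4 ⟨h.1.symm, h.2.symm⟩)
        (fun h => h5 ⟨h.2.symm, h.1.symm⟩)).isUnit_of_dvd' hdvd h6)
    set ν : Fin m → ZMod 2 := nu (pr β) a with hν
    have hνj : ν j = 1 := by
      rw [h1, Pi.add_apply, Pi.single_eq_same, Pi.single_eq_of_ne hjk, add_zero]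
    have hνk : ν k = 1 := by
      rw [h1, Pi.add_apply, Pi.single_eq_same, Pi.single_eq_of_ne (Ne.symm hjk), zero_add]
    have hνi : ∀ i, i ≠ j → i ≠ k → ν i = 0 := fun i hij hik => by
      rw [h1, Pi.add_apply, Pi.single_eq_of_ne hij, Pi.single_eq_of_ne hik, add_zero]
    have hswap : ∑ l, (1 + ν l) * sy (pr β) (a k - a l) =
        ∑ l, (1 + ν l) * sy (pr β) (a j - a l) := by
      refine Finset.sum_congr rfl fun l _ => ?_
      by_cases hlj : l = j
      · rw [hlj, hνj, CharTwo.add_self_eq_zero, zero_mul, zero_mul]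
      · by_cases hlk : l = k
        · rw [hlk, hνk, CharTwo.add_self_eq_zero, zero_mul, zero_mul]
        · rw [pehyp_sy_congr hSy hodd hP hPi (g := a k - a l) (h := a j - a l)
            (hnd k l (Ne.symm hlk) (fun h => hjk h.1.symm) (fun h => hlj h.2)) (by
              have h4 : a k - a l - (a j - a l) = -(a j - a k) := by ring
              rw [h4]
              exact (dvd_neg).2 hdvd)]
    refine ⟨∑ β', sy (pr β) (pr β') + ∑ l, (1 + ν l) * sy (pr β) (a j - a l), ?_⟩
    refine Subtype.ext (funext fun i => ?_)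
    rw [Submodule.coe_add, AddSubmonoidClass.coe_finsetSum, Pi.add_apply, Finset.sum_apply,
      Submodule.coe_smul, Submodule.coe_smul, Pi.smul_apply, Pi.smul_apply, smul_eq_mul,
      smul_eq_mul]
    have h5 := pehyp_op hFac hSy hNu hSyl hF ha hpr hcov β (nuE (pr β) a) i
    rw [hcoe] at h5
    rw [hcoe]
    refine Eq.trans ?_ (h5.trans ?_)
    · rfl
    · rw [add_mul]
      congr 1
      by_cases hij : i = j
      · rw [hij, hνj, mul_one]
      · by_cases hik : i = k
        · rw [hik, hνk, mul_one, hswap]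
        · rw [hνi i hij hik, mul_zero]
          have h6 : ∀ l, (0 + ν l) * sy (pr β) (a i - a l) =
              (if l = j then sy (pr β) (a i - a j) else 0) +
                (if l = k then sy (pr β) (a i - a k) else 0) := by
            intro l
            by_cases hlj : l = j
            · subst hlj
              rw [if_pos rfl, if_neg hjk, hνj]
              ring
            · by_cases hlk : l = k
              · subst hlk
                rw [if_pos rfl, if_neg (Ne.symm hjk), hνk]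
                ring
              · rw [if_neg hlj, if_neg hlk, hνi l hlj hlk]
                ring
          rw [Finset.sum_congr rfl fun l _ => h6 l, Finset.sum_add_distrib, Finset.sum_ite_eq',
            Finset.sum_ite_eq', if_pos (Finset.mem_univ _), if_pos (Finset.mem_univ _),
            pehyp_sy_congr hSy hodd hP hPi (g := a i - a j) (h := a i - a k)
              (hnd i j hij (fun h => hij h.1) (fun h => hik h.1)) (by
                have h4 : a i - a j - (a i - a k) = -(a j - a k) := by ring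
                rw [h4]
                exact (dvd_neg).2 hdvd)]
          exact CharTwo.add_self_eq_zero _

end curves

theorem tPeHyp.{w} (hSy : StmtTwSy.{w}) (hFac : StmtTwFac.{w}) (hNu : StmtTwNu.{w})
    (hSyl : StmtPeSyl.{w}) : StmtPeHyp.{w} := by
  intro F _ _ hF m n₀ a ha V _ pr hpr hcov hns
  have hodd := pehyp_card_odd hF
  have hinj := pehyp_inj ha
  have hlc := pehyp_lc hSy hSyl hF hinj
  have he0 : ∀ i, cs (a i - a i).leadingCoeff = 0 := fun i => by
    rw [sub_self, leadingCoeff_zero, pehyp_cs_zero]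
  obtain ⟨-, hsyl, -⟩ := hSyl F (pehyp_card_two hF)
  have hh : (fun i => ∑ k, cs (a i - a k).leadingCoeff) ∈ Ev m :=
    pehyp_sym (fun i k => cs (a i - a k).leadingCoeff) hlc he0
  refine ⟨⟨⟨_, hh⟩, pehyp_alt, pehyp_nondeg ha.odd, fun v y => rfl, fun x y => ?_, fun x => ?_,
    fun v => ?_, ?_⟩, fun n hn y hy => ?_, fun s hs hsu => ?_⟩
  · rw [pehyp_laE hlc]
    exact pehyp_self _ _ x y
  · rw [pehyp_laE hlc]
    exact pehyp_diag _ _ he0 _ (fun i => rfl) x
  · obtain ⟨μ, hμ⟩ := pehyp_com hFac hSy hNu hSyl hF ha hpr hcov v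
    refine ⟨μ, ?_⟩
    rw [← hμ]
    congr 1
    refine Finset.sum_congr rfl fun v' _ => ?_
    rw [hsyl _ _ (hpr.monic v) (hpr.irr v) (hpr.irr v').ne_zero]
  · exact pehyp_degnu hFac hSy hNu hodd ha hpr hcov
  · refine Subtype.ext (funext fun i => ?_)
    have h1 := congrFun (congrArg Subtype.val hy) i
    have h2 : ∑ v, ((pr v).natDegree : ZMod 2) * (trE (nuE (pr v) a) y : Fin m → ZMod 2) i +
        (n : ZMod 2) * (y : Fin m → ZMod 2) i = 0 := by
      rw [Submodule.coe_add, AddSubmonoidClass.coe_finsetSum, Pi.add_apply,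
        Finset.sum_apply] at h1
      exact h1
    rw [pehyp_deg hFac hSy hNu hodd ha hpr hcov, ← add_mul] at h2
    have h3 : ∑ v, ((pr v).natDegree : ZMod 2) + n₀ + n = 1 := by
      have h4 := pehyp_mod hn
      push_cast at h4
      rw [← h4]
      ring
    rw [h3, one_mul] at h2
    exact h2
  · obtain ⟨i, hi, j, hj, hij⟩ := hns s hs hsu
    have hne : i ≠ j := fun h => hj (h ▸ hi)
    have h0 : a i - a j ≠ 0 := sub_ne_zero.2 fun h => hne (hinj h)
    refine ⟨i, hi, j, hj, ?_⟩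
    by_contra hcon
    push Not at hcon
    have hv : ∀ v, vp (pr v) (a i - a j) = 0 := by
      intro v
      rcases pehyp_two (vp (pr v) (a i - a j)) with h | h
      · exact h
      · exact absurd ((pehyp_nuE hNu hodd ha (hpr.monic v) (hpr.irr v)).trans
          (((hNu F hodd m n₀ a ha (pr v) (hpr.monic v) (hpr.irr v)).2.2.1 i j hne).1 h)) (hcon v)
    set c := (a i - a j).leadingCoeff with hc
    have hc0 : c ≠ 0 := leadingCoeff_ne_zero.2 h0
    have hC0 : C c⁻¹ ≠ 0 := C_ne_zero.2 (inv_ne_zero hc0)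
    have hvp : ∀ P : F[X], P.Monic → Irreducible P →
        vp P (C c⁻¹ * (a i - a j)) = vp P (a i - a j) := by
      intro P hP hPi
      obtain ⟨hmul, -, -, -, hC⟩ := (hSy F hodd).2 P hP hPi
      rw [(hmul _ _ hC0 h0).1, (hC _ (inv_ne_zero hc0)).1, zero_add]
    obtain ⟨-, -, h5⟩ := hFac F hodd V pr hpr (C c⁻¹ * (a i - a j)) (mul_ne_zero hC0 h0)
      (fun P hP hPi hne' => by
        rw [hvp P hP hPi]
        exact (((hSy F hodd).2 P hP hPi).2.1 _ fun h3 => by
          obtain ⟨v, hv⟩ := hcov P hP hPi i j hne h3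
          exact hne' v hv).1)
    obtain ⟨g, hg⟩ := h5 (by
      rw [leadingCoeff_mul, leadingCoeff_C, ← hc, inv_mul_cancel₀ hc0, cs,
        if_pos ⟨1, by simp⟩]) (fun v => by rw [hvp _ (hpr.monic v) (hpr.irr v), hv])
    refine hij c g ?_
    rw [pow_two, ← hg, ← mul_assoc, ← C_mul, mul_inv_cancel₀ hc0, C_1, one_mul]

end MP72e2e6
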