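import Pool.Agent.Lib.MP_72e2e6_nt.SuAsm

/-!
# MP_72e2e6_nt: twists of superelliptic curves, the Selmer group for a network of primes
-/

namespace MP72e2e6

open Polynomial IsDedekindDomain

universe u

open Classical in
theorem torsionGroup_le_su {F : Type u} [Field F] {ℓ m : ℕ} (hℓ : ℓ.Prime) {E : F[X]} (hE : E ≠ 0)
    {a : Fin m → F[X]} (ha : Function.Injective a) {b : Fin m → ℕ}
    (hb : ∀ i, Nat.Coprime (b i) ℓ) :
    torsionGroup ℓ (pts E a) b ≤
      placesSelmer F[X] (RatFunc.inftyValuation F) ℓ (pts E a) b := by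
  intro t ht
  have hinj := pts_injective hE ha
  refine Subgroup.mem_inf.2 ⟨?_, Subgroup.mem_inf.2 ⟨Subgroup.mem_iInf.2 fun v => ?_, ?_⟩⟩
  · obtain ⟨z, hz⟩ := exists_prod_eq_pow_torsion hinj ht
    have hz0 : z ≠ 0 := by
      rintro rfl
      rw [zero_pow hℓ.ne_zero] at hz
      exact Finset.prod_ne_zero_iff.2 (fun i _ => pow_ne_zero _ (t i).ne_zero) hz
    refine ⟨Units.mk0 z hz0, ?_⟩
    ext
    rw [Units.coe_prod, Units.val_pow_eq_pow_val, Units.val_mk0, ← hz]
    exact Finset.prod_congr rfl fun i _ => Units.val_pow_eq_pow_val _ _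
  · exact baseChange_mem_localImage hℓ hinj hb _ ht
  · exact baseChange_mem_localImage hℓ hinj hb _ ht

/-- the auxiliary primes and the pendants -/
abbrev SuK (V U J : Type) := (V × U) ⊕ ((V × U) ⊕ J)

/-- the symbols with the primes of the first kind -/
def suA {ℓ : ℕ} {V U J : Type} [DecidableEq V] : SuK V U J → Option V → ZMod ℓ
  | Sum.inl p, some w => if w = p.1 then 1 else 0
  | Sum.inl _, none => 0
  | Sum.inr _, some _ => 0
  | Sum.inr _, none => 1

/-- the symbols between the auxiliary primes -/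
def suL {ℓ : ℕ} {V U J : Type} [DecidableEq V] [DecidableEq U] : SuK V U J → SuK V U J → ZMod ℓ
  | Sum.inl p, Sum.inr (Sum.inl p') => if p = p' then 1 else 0
  | Sum.inr (Sum.inl p), Sum.inl p' => if p = p' then 1 else 0
  | Sum.inl _, Sum.inl _ => 0
  | Sum.inl _, Sum.inr (Sum.inr _) => 0
  | Sum.inr (Sum.inl _), Sum.inr _ => 0
  | Sum.inr (Sum.inr _), _ => 0

theorem suL_symm {ℓ : ℕ} {V U J : Type} [DecidableEq V] [DecidableEq U] (k k' : SuK V U J) :
    (suL k k' : ZMod ℓ) = suL k' k := by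
  rcases k with p | p | j <;> rcases k' with p' | p' | j' <;> simp [suL, eq_comm]

theorem suL_self {ℓ : ℕ} {V U J : Type} [DecidableEq V] [DecidableEq U] (k : SuK V U J) :
    (suL k k : ZMod ℓ) = 0 := by
  rcases k with p | p | j <;> rfl

/-- A network of primes. -/
structure SuNet {F : Type u} [Field F] {ℓ m : ℕ} (χ : F → ZMod ℓ) (a : Fin m → F[X])
    {V U J : Type} [DecidableEq V] [DecidableEq U] (pr : Option V ⊕ SuK V U J → F[X]) : Prop where
  fam : Fam pr
  cov : ∀ P : F[X], P.Monic → Irreducible P → ∀ i j, i ≠ j → P ∣ a i - a j →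
    ∃ v, pr (Sum.inl (some v)) = P
  deg : ∀ k, ((pr (Sum.inr k)).natDegree : ZMod ℓ) = 0
  symA : ∀ k o, syl χ (pr (Sum.inl o)) (pr (Sum.inr k)) = suA k o
  symL : ∀ k k', k ≠ k' → syl χ (pr (Sum.inr k)) (pr (Sum.inr k')) = suL k k'

/-- the exponents of the primes in the twisting polynomial -/
def suflag {ℓ : ℕ} {V J : Type} (e : V → ZMod ℓ) (f : J → ZMod ℓ) :
    Option V ⊕ SuK V (ZMod ℓ)ˣ J → ZMod ℓ
  | Sum.inl none => 1
  | Sum.inl (some v) => e v
  | Sum.inr (Sum.inl _) => 1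
  | Sum.inr (Sum.inr (Sum.inl p)) => -2 * (p.2 : ZMod ℓ)
  | Sum.inr (Sum.inr (Sum.inr j)) => f j

theorem sg_good {ℓ m : ℕ} {b : Fin m → ℕ} {ρ : ZMod ℓ} {w : Fin m → Fin m → ZMod ℓ}
    (hw : ∀ i k, i ≠ k → w i k = 0) (c : Fin m → ZMod ℓ) (i : Fin m) :
    sg b ρ w c i = ρ * c i := by
  rw [sg_congr (w' := fun _ _ => 0) hw, sg]
  simp

theorem sg_zero_vec {ℓ m : ℕ} (b : Fin m → ℕ) (ρ : ZMod ℓ) (w : Fin m → Fin m → ZMod ℓ)
    (i : Fin m) : sg b ρ w 0 i = 0 := by
  simp [sg]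

section linear

variable {F : Type u} [Field F] [Finite F] {ℓ m : ℕ} [Fact ℓ.Prime]

theorem su_linear (hSy : StmtSuSy.{u}) (hRec : StmtSuRec.{u}) (hFac : StmtSuFac.{u})
    (hFrob : StmtSuFrob) (hInj : StmtSuInj) (hStar : StmtSuStar) (hℓ2 : ℓ ≠ 2)
    (hq : ℓ ∣ Nat.card F - 1) {χ : F → ZMod ℓ} (hχ : IsLg ℓ χ) {a : Fin m → F[X]}
    (ha : Function.Injective a) {b : Fin m → ℕ} {V J : Type} [Fintype V]
    [DecidableEq V] [Fintype J] {e : V → ZMod ℓ} {f : J → ZMod ℓ} {pr : Option V ⊕ SuK V (ZMod ℓ)ˣ J → F[X]}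
    (hN : SuNet χ a pr)
    (hT : ∀ v, Tame ℓ b (wP (pr (Sum.inl (some v))) a) ((e v).val : ℤ))
    (hI : Tame ℓ b (wI a) (-((twl pr (suflag e f)).natDegree : ℤ)))
    {x c : Option V ⊕ SuK V (ZMod ℓ)ˣ J → Fin m → ZMod ℓ}
    (hE : EqL χ b a pr (suflag e f) x c) : ∀ β i, x β i = 0 := by
  have hℓ : ℓ.Prime := Fact.out
  have hfam := hN.fam
  obtain ⟨hχ1, hχn, hSyP⟩ := hSy F ℓ hℓ hq χ hχ
  -- the symbols
  have hSself : ∀ β, syl χ (pr β) (pr β) = 0 := fun β =>
    (hSyP (pr β) (hfam.monic β) (hfam.irr β)).2.2.2.1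
  have hSsymm : ∀ β β', syl χ (pr β) (pr β') = syl χ (pr β') (pr β) := by
    intro β β'
    by_cases h : β = β'
    · rw [h]
    · exact hRec F ℓ hℓ hℓ2 hq χ hχ _ _ (hfam.monic β) (hfam.irr β) (hfam.monic β')
        (hfam.irr β') fun h' => h (hfam.inj h')
  have hA : ∀ k o, syl χ (pr (Sum.inr k)) (pr (Sum.inl o)) = suA k o := fun k o => by
    rw [hSsymm, hN.symA]
  have hL : ∀ k k', syl χ (pr (Sum.inr k)) (pr (Sum.inr k')) = suL k k' := by
    intro k k'
    by_cases h : k = k'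
    · rw [h, hSself, suL_self]
    · exact hN.symL k k' h
  -- good primes
  have hgood : ∀ β, (∀ v, β ≠ Sum.inl (some v)) → ∀ i k, i ≠ k →
      vl ℓ (pr β) (a i - a k) = 0 := by
    intro β hβ i k hik
    have h1 : ¬ pr β ∣ a i - a k := by
      intro h
      obtain ⟨v, hv⟩ := hN.cov _ (hfam.monic β) (hfam.irr β) i k hik h
      exact hβ v (hfam.inj hv.symm)
    rw [vl, if_neg (sub_ne_zero.2 fun h => hik (ha h)), multiplicity_eq_zero.2 h1, Nat.cast_zero]
  have hg0 : ∀ i k, i ≠ k → vl ℓ (pr (Sum.inl none)) (a i - a k) = 0 :=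
    hgood _ fun v h => by simp at h
  have hgk : ∀ κ, ∀ i k, i ≠ k → vl ℓ (pr (Sum.inr κ)) (a i - a k) = 0 := fun κ =>
    hgood _ fun v h => by simp at h
  -- the operators
  let wv : V → Fin m → Fin m → ZMod ℓ := fun v i k => vl ℓ (pr (Sum.inl (some v))) (a i - a k)
  have hwv : ∀ v i k, wv v i k = wv v k i := fun v i k => vl_symm _ a i k
  have hwc : ∀ v i k, i ≠ k → wv v i k = ((wP (pr (Sum.inl (some v))) a i k : ℤ) : ZMod ℓ) :=
    fun v i k hik => vl_eq_wP ha hik
  let σ : V → Module.End (ZMod ℓ) (Vs ℓ b) := fun v => sgV b (e v) (wv v) (hwv v)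
  have hσ : ∀ v, σ v ^ ℓ = σ v := by
    intro v
    refine sgV_pow (hwv v) ?_
    rw [sgM_congr (hwc v)]
    exact hFrob ℓ m b _ (ultra_wP (hfam.irr _) ha) (hT v).ball (e v)
  have hσi : ∀ v y, σ v y = 0 → y = 0 := by
    intro v y hy
    refine Subtype.ext (funext fun i => ?_)
    refine hInj ℓ m b _ (ultra_wP (hfam.irr _) ha) _ (hT v) y y.2 (fun i => ?_) i
    have h1 : sg b (e v) (wv v) y i = 0 := congrFun (congrArg Subtype.val hy) i
    rw [sg_congr (hwc v)] at h1
    rw [Int.cast_natCast, ZMod.natCast_val, ZMod.cast_id', id]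
    exact h1
  -- the operator of the leading coefficients
  have hlc : ∀ i k, χ (a i - a k).leadingCoeff = χ (a k - a i).leadingCoeff := by
    intro i k
    by_cases hik : i = k
    · rw [hik]
    · have h1 : (a k - a i).leadingCoeff ≠ 0 :=
        leadingCoeff_ne_zero.2 (sub_ne_zero.2 fun h => hik (ha h).symm)
      rw [← neg_sub (a k) (a i), leadingCoeff_neg, ← neg_one_mul,
        hχ.mul _ _ (neg_ne_zero.2 one_ne_zero) h1, hχn hℓ2, zero_add]
  let Λ : Module.End (ZMod ℓ) (Vs ℓ b) := sgV b 0 (fun i k => χ (a i - a k).leadingCoeff) hlc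
  -- the product formula
  let D : V → ZMod ℓ := fun v => ((pr (Sum.inl (some v))).natDegree : ZMod ℓ)
  let D₀ : ZMod ℓ := ((pr (Sum.inl none)).natDegree : ZMod ℓ)
  have hfamV : Fam (fun v => pr (Sum.inl (some v))) :=
    ⟨fun v w h => by simpa using hfam.inj h, fun v => hfam.monic _, fun v => hfam.irr _⟩
  have hdiff : ∀ i k, i ≠ k → ∑ v, D v * wv v i k = ((a i - a k).natDegree : ZMod ℓ) := by
    intro i k hik
    have h0 : a i - a k ≠ 0 := sub_ne_zero.2 fun h => hik (ha h)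
    exact ((hFac F ℓ hℓ hq χ hχ V _ hfamV (a i - a k) h0 (fun P hP hPi hne => by
      have h2 : ¬ P ∣ a i - a k := by
        intro h2
        obtain ⟨v, hv⟩ := hN.cov P hP hPi i k hik h2
        exact hne v hv
      rw [vl, if_neg h0, multiplicity_eq_zero.2 h2, Nat.cast_zero])).2.1).symm
  have hdegE : ((twl pr (suflag e f)).natDegree : ZMod ℓ) = ∑ v, D v * e v + D₀ := by
    have : NeZero ℓ := ⟨hℓ.ne_zero⟩
    rw [natDegree_twl hfam, Fintype.sum_sum_type, Fintype.sum_option,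
      Finset.sum_eq_zero (s := (Finset.univ : Finset (SuK V (ZMod ℓ)ˣ J)))
        (fun k _ => by rw [hN.deg, mul_zero]), add_zero]
    simp only [suflag, one_mul]
    rw [add_comm]
    congr 1
    exact Finset.sum_congr rfl fun v _ => mul_comm _ _
  have hprod : ∀ (y : Vs ℓ b) (i : Fin m), (∑ v, D v • σ v y + D₀ • y : Vs ℓ b).1 i =
      - sg b ((-((twl pr (suflag e f)).natDegree : ℤ) : ℤ) : ZMod ℓ)
        (fun i k => ((wI a i k : ℤ) : ZMod ℓ)) y i := by
    intro y i
    have h1 : (∑ v, D v • σ v y + D₀ • y : Vs ℓ b).1 i =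
        ∑ v, D v * sg b (e v) (wv v) y i + D₀ * y.1 i := by
      simp only [Submodule.coe_add, Submodule.coe_sum, Submodule.coe_smul, Pi.add_apply,
        Finset.sum_apply, Pi.smul_apply, smul_eq_mul]
      rfl
    rw [h1]
    simp only [sg, wI]
    push_cast
    rw [hdegE]
    have h2 : ∀ k, (b k : ZMod ℓ) * -((a i - a k).natDegree : ZMod ℓ) * (y.1 i - y.1 k) =
        - ∑ v, D v * ((b k : ZMod ℓ) * wv v i k * (y.1 i - y.1 k)) := by
      intro k
      by_cases hik : i = k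
      · subst hik
        simp
      · rw [← hdiff i k hik]
        have h3 : ∀ v, D v * ((b k : ZMod ℓ) * wv v i k * (y.1 i - y.1 k)) =
            (b k : ZMod ℓ) * (y.1 i - y.1 k) * (D v * wv v i k) := fun v => by ring
        rw [Finset.sum_congr rfl fun v _ => h3 v, ← Finset.mul_sum]
        ring
    rw [Finset.sum_congr rfl fun k _ => h2 k, Finset.sum_neg_distrib, Finset.sum_comm]
    simp only [mul_add, Finset.sum_add_distrib, ← Finset.mul_sum]
    have h4 : ∀ v, D v * (e v * y.1 i) = (D v * e v) * y.1 i := fun v => by ring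
    have h5 : ∀ v, D v * ((∑ k, (b k : ZMod ℓ))⁻¹ * ∑ k, (b k : ZMod ℓ) * wv v i k *
        (y.1 i - y.1 k)) = (∑ k, (b k : ZMod ℓ))⁻¹ * (D v * ∑ k, (b k : ZMod ℓ) * wv v i k *
        (y.1 i - y.1 k)) := fun v => by ring
    rw [Finset.sum_congr rfl fun v _ => h4 v, Finset.sum_congr rfl fun v _ => h5 v,
      ← Finset.sum_mul, ← Finset.mul_sum]
    ring
  have hD : ∀ y : Vs ℓ b, ∑ v, D v • σ v y + D₀ • y = 0 → y = 0 := by
    intro y hy
    refine Subtype.ext (funext fun i => ?_)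
    refine hInj ℓ m b _ ultra_wI _ hI y y.2 (fun i => ?_) i
    have h1 := hprod y i
    rw [hy] at h1
    exact neg_eq_zero.1 h1.symm
  -- the unknowns
  let cc : Option V ⊕ SuK V (ZMod ℓ)ˣ J → Vs ℓ b := fun β => ⟨c β, hE.mem β⟩
  have hx : ∀ β i, x β i = sg b (suflag e f β) (fun i k => vl ℓ (pr β) (a i - a k)) (c β) i :=
    hE.val
  have hdif : ∀ β β' i, x β' i - sg b (suflag e f β')
      (fun i k => vl ℓ (pr β') (a i - a k)) (c β) i =
      sg b (suflag e f β') (fun i k => vl ℓ (pr β') (a i - a k)) (c β' - c β) i := by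
    intro β β' i
    rw [hx, sg_sub]
  have hsym : ∀ β i, ∑ v, syl χ (pr β) (pr (Sum.inl (some v))) *
        sg b (e v) (wv v) (c (Sum.inl (some v)) - c β) i +
      syl χ (pr β) (pr (Sum.inl none)) * (c (Sum.inl none) i - c β i) +
      (∑ p, syl χ (pr β) (pr (Sum.inr (Sum.inl p))) * (c (Sum.inr (Sum.inl p)) i - c β i) +
        (∑ p : V × (ZMod ℓ)ˣ, syl χ (pr β) (pr (Sum.inr (Sum.inr (Sum.inl p)))) *
            (-2 * (p.2 : ZMod ℓ) * (c (Sum.inr (Sum.inr (Sum.inl p))) i - c β i)) +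
          ∑ j, syl χ (pr β) (pr (Sum.inr (Sum.inr (Sum.inr j)))) *
            (f j * (c (Sum.inr (Sum.inr (Sum.inr j))) i - c β i)))) =
      ((pr β).natDegree : ZMod ℓ) * sg b 0 (fun i k => χ (a i - a k).leadingCoeff) (c β) i := by
    intro β i
    rw [← hE.sym β i, Fintype.sum_sum_type, Fintype.sum_option, Fintype.sum_sum_type,
      Fintype.sum_sum_type]
    simp only [hdif]
    simp only [suflag]
    simp only [sg_good hg0, sg_good (hgk _), Pi.sub_apply, one_mul]
    rw [add_comm (∑ v, _)]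
  -- the equations at the auxiliary primes
  have hQ : ∀ v μ, σ v (cc (Sum.inl (some v)) - cc (Sum.inr (Sum.inl (v, μ)))) +
      (-2 * (μ : ZMod ℓ)) • (cc (Sum.inr (Sum.inr (Sum.inl (v, μ)))) -
        cc (Sum.inr (Sum.inl (v, μ)))) = 0 := by
    intro v μ
    refine Subtype.ext (funext fun i => ?_)
    have h1 := hsym (Sum.inr (Sum.inl (v, μ))) i
    simp only [hA, hL, suA, suL, hN.deg, zero_mul, add_zero, zero_add, ite_mul, one_mul,
      Finset.sum_ite_eq, Finset.sum_ite_eq', Finset.mem_univ, if_true,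
      Finset.sum_const_zero] at h1
    exact h1
  have hQ' : ∀ v μ, (cc (Sum.inl none) - cc (Sum.inr (Sum.inr (Sum.inl (v, μ))))) +
      (cc (Sum.inr (Sum.inl (v, μ))) - cc (Sum.inr (Sum.inr (Sum.inl (v, μ))))) = 0 := by
    intro v μ
    refine Subtype.ext (funext fun i => ?_)
    have h1 := hsym (Sum.inr (Sum.inr (Sum.inl (v, μ)))) i
    simp only [hA, hL, suA, suL, hN.deg, zero_mul, add_zero, zero_add, ite_mul, one_mul,
      Finset.sum_ite_eq, Finset.mem_univ, if_true, Finset.sum_const_zero] at h1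
    exact h1
  have hR : ∀ j, cc (Sum.inl none) - cc (Sum.inr (Sum.inr (Sum.inr j))) = 0 := by
    intro j
    refine Subtype.ext (funext fun i => ?_)
    have h1 := hsym (Sum.inr (Sum.inr (Sum.inr j))) i
    simp only [hA, hL, suA, suL, hN.deg, zero_mul, add_zero, zero_add, one_mul,
      Finset.sum_const_zero] at h1
    exact h1
  have hV : ∀ v, ∑ w, syl χ (pr (Sum.inl (some v))) (pr (Sum.inl (some w))) •
        σ w (cc (Sum.inl (some w)) - cc (Sum.inl (some v))) +
      syl χ (pr (Sum.inl (some v))) (pr (Sum.inl none)) •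
        (cc (Sum.inl none) - cc (Sum.inl (some v))) +
      ∑ μ : (ZMod ℓ)ˣ, (cc (Sum.inr (Sum.inl (v, μ))) - cc (Sum.inl (some v))) =
      D v • Λ (cc (Sum.inl (some v))) := by
    intro v
    refine Subtype.ext (funext fun i => ?_)
    have h1 := hsym (Sum.inl (some v)) i
    simp only [hN.symA, suA, zero_mul, add_zero, Finset.sum_const_zero, ite_mul, one_mul] at h1
    rw [Fintype.sum_prod_type_right] at h1
    simp only [Finset.sum_ite_eq, Finset.mem_univ, if_true] at h1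
    simp only [Submodule.coe_add, Submodule.coe_sum, Submodule.coe_smul, Submodule.coe_sub,
      Pi.add_apply, Finset.sum_apply, Pi.smul_apply, Pi.sub_apply, smul_eq_mul]
    exact h1
  have hinf : ∑ v, D v • σ v (cc (Sum.inl (some v))) + D₀ • cc (Sum.inl none) = 0 := by
    refine Subtype.ext (funext fun i => ?_)
    have h1 := hE.inf i
    simp only [hx] at h1
    rw [Fintype.sum_sum_type, Fintype.sum_option,
      Finset.sum_eq_zero (s := (Finset.univ : Finset (SuK V (ZMod ℓ)ˣ J)))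
        (fun k _ => by rw [hN.deg, zero_mul]), add_zero, sg_good hg0] at h1
    simp only [suflag, one_mul] at h1
    simp only [Submodule.coe_add, Submodule.coe_sum, Submodule.coe_smul, Pi.add_apply,
      Finset.sum_apply, Pi.smul_apply, smul_eq_mul]
    rw [add_comm]
    exact h1
  obtain ⟨z1, z2, z3, z4⟩ := hStar ℓ hℓ2 (Vs ℓ b) V J σ hσ hσi D D₀ hD
    (fun v w => syl χ (pr (Sum.inl (some v))) (pr (Sum.inl (some w))))
    (fun v => syl χ (pr (Sum.inl (some v))) (pr (Sum.inl none))) Λ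
    (fun v => cc (Sum.inl (some v))) (cc (Sum.inl none))
    (fun v μ => cc (Sum.inr (Sum.inl (v, μ)))) (fun v μ => cc (Sum.inr (Sum.inr (Sum.inl (v, μ)))))
    (fun j => cc (Sum.inr (Sum.inr (Sum.inr j)))) hQ hQ' hR hV hinf
  have hc0 : ∀ β, c β = 0 := by
    intro β
    have h1 : cc β = 0 := by
      rcases β with ((_ | v) | (p | p | j))
      · exact z2
      · exact z1 v
      · exact (z3 p.1 p.2).1
      · exact (z3 p.1 p.2).2
      · exact z4 j
    exact congrArg Subtype.val h1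
  intro β i
  rw [hx, hc0, sg_zero_vec]

open Classical in
theorem su_core (hSy : StmtSuSy.{u}) (hRec : StmtSuRec.{u}) (hFac : StmtSuFac.{u})
    (hEq : StmtSuEq.{u}) (hFrob : StmtSuFrob) (hInj : StmtSuInj) (hStar : StmtSuStar)
    (hℓ2 : ℓ ≠ 2) (hq : ℓ ∣ Nat.card F - 1) {χ : F → ZMod ℓ} (hχ : IsLg ℓ χ) (hm : 0 < m)
    {a : Fin m → F[X]} (ha : Function.Injective a) {b : Fin m → ℕ} {V J : Type} [Fintype V]
    [DecidableEq V] [Fintype J] {e : V → ZMod ℓ} {f : J → ZMod ℓ} (hf : ∀ j, f j ≠ 0)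
    {pr : Option V ⊕ SuK V (ZMod ℓ)ˣ J → F[X]} (hN : SuNet χ a pr)
    (hT : ∀ v, Tame ℓ b (wP (pr (Sum.inl (some v))) a) ((e v).val : ℤ))
    (hI : Tame ℓ b (wI a) (-((twl pr (suflag e f)).natDegree : ℤ))) :
    placesSelmer F[X] (RatFunc.inftyValuation F) ℓ (pts (twl pr (suflag e f)) a) b =
      torsionGroup ℓ (pts (twl pr (suflag e f)) a) b := by
  have hℓ : ℓ.Prime := Fact.out
  have : NeZero ℓ := ⟨hℓ.ne_zero⟩
  have hfam := hN.fam
  have hb : ∀ i, Nat.Coprime (b i) ℓ := fun i => ((hℓ.coprime_iff_not_dvd).2 (hI.not_dvd i)).symm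
  refine le_antisymm ?_ (torsionGroup_le_su hℓ (twl_ne_zero hfam _) ha hb)
  intro d hd
  have hcov : ∀ P : F[X], P.Monic → Irreducible P → ∀ i j, i ≠ j → P ∣ a i - a j →
      ∃ β, pr β = P := by
    intro P hP hPi i j hij hdvd
    obtain ⟨v, hv⟩ := hN.cov P hP hPi i j hij hdvd
    exact ⟨_, hv⟩
  have hne : ∀ β, (∀ v, β ≠ Sum.inl (some v)) → suflag e f β ≠ 0 := by
    rintro ((_ | v) | (p | p | j)) h
    · exact one_ne_zero
    · exact absurd rfl (h v)
    · exact one_ne_zero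
    · have h2 : (2 : ZMod ℓ) ≠ 0 := by
        intro h2
        have h3 : ((2 : ℕ) : ZMod ℓ) = 0 := by exact_mod_cast h2
        rw [ZMod.natCast_eq_zero_iff] at h3
        exact hℓ2 ((Nat.prime_dvd_prime_iff_eq hℓ Nat.prime_two).1 h3)
      exact mul_ne_zero (neg_ne_zero.2 h2) p.2.ne_zero
    · exact hf j
  have hTame : ∀ β, Tame ℓ b (wP (pr β) a) ((suflag e f β).val : ℤ) := by
    intro β
    by_cases hβ : ∃ v, β = Sum.inl (some v)
    · obtain ⟨v, rfl⟩ := hβ
      exact hT v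
    · push Not at hβ
      refine tame_good hℓ (hI.not_dvd_sum hm) (fun i => hI.not_dvd i) ?_ ?_
      · intro i k hik
        have h1 : ¬ pr β ∣ a i - a k := by
          intro h
          obtain ⟨v, hv⟩ := hN.cov _ (hfam.monic β) (hfam.irr β) i k hik h
          exact hβ v (hfam.inj hv.symm)
        rw [wP, multiplicity_eq_zero.2 h1, Nat.cast_zero]
      · intro h
        rw [Int.natCast_dvd_natCast, ← ZMod.natCast_eq_zero_iff, ZMod.natCast_val, ZMod.cast_id',
          id] at h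
        exact hne β hβ h
  obtain ⟨x, c, hE, hfin⟩ := hEq F ℓ hℓ hℓ2 hq χ hχ m hm a ha b _ pr hfam hcov (suflag e f)
    hTame hI d hd
  exact hfin (su_linear hSy hRec hFac hFrob hInj hStar hℓ2 hq hχ ha hN hT hI hE)

end linear

end MP72e2e6
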