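import Pool.Agent.Lib.MP_72e2e6_nt.PpStmtB
import Pool.Agent.Lib.MP_72e2e6_nt.SuCore

/-!
# MP_72e2e6_nt: positive proportion of twists, module PpLnk
-/

namespace MP72e2e6

open Polynomial IsDedekindDomain

universe u

section lnk

variable {F : Type u} [Field F] {ℓ m : ℕ}

theorem pplnk_mem_gs [Finite F] {V : Type} {pr : V → F[X]} {n : ℕ} {t : Finset F[X]} :
    t ∈ gs F pr n ↔ t ∈ ps F n ∧ ∀ P ∈ t, ∀ v, pr v ≠ P := by
  simp [gs]

/-- the family of the primes of the twist -/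
noncomputable def pplnkPr {V : Type} (pr : V → F[X]) (t : Finset F[X]) : V ⊕ Fin t.card → F[X] :=
  Sum.elim pr fun i => (t.equivFin.symm i).1

/-- the exponents -/
def pplnkRho {V : Type} (e : V → ZMod ℓ) (t : Finset F[X]) : V ⊕ Fin t.card → ZMod ℓ :=
  Sum.elim e fun _ => 1

theorem pplnk_fam {V : Type} {pr : V → F[X]} (hpr : Fam pr) {t : Finset F[X]}
    (ht : ∀ P ∈ t, P.Monic ∧ Irreducible P) (htp : ∀ P ∈ t, ∀ v, pr v ≠ P) :
    Fam (pplnkPr pr t) := by
  refine ⟨?_, ?_, ?_⟩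
  · rintro (v | i) (w | j) h
    · exact congrArg Sum.inl (hpr.inj h)
    · exact absurd h (htp _ (t.equivFin.symm j).2 v)
    · exact absurd h.symm (htp _ (t.equivFin.symm i).2 w)
    · exact congrArg Sum.inr (t.equivFin.symm.injective (Subtype.ext h))
  · rintro (v | i)
    · exact hpr.monic v
    · exact (ht _ (t.equivFin.symm i).2).1
  · rintro (v | i)
    · exact hpr.irr v
    · exact (ht _ (t.equivFin.symm i).2).2

theorem pplnk_twl [Fact ℓ.Prime] {V : Type} [Fintype V] (pr : V → F[X]) (e : V → ZMod ℓ)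
    (t : Finset F[X]) :
    twl (pplnkPr pr t) (pplnkRho e t) = twl pr e * ∏ P ∈ t, P := by
  have h1 : ((1 : ZMod ℓ)).val = 1 := ZMod.val_one _
  rw [twl, twl, Fintype.prod_sum_type]
  congr 1
  simp only [pplnkPr, pplnkRho, Sum.elim_inr, h1, pow_one]
  rw [← Finset.prod_coe_sort t (fun P => P)]
  exact Fintype.prod_equiv t.equivFin.symm _ _ fun i => rfl

/-- sums over the family -/
theorem pplnk_sum {V : Type} [Fintype V] {M : Type*} [AddCommMonoid M] (t : Finset F[X])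
    (f : V ⊕ Fin t.card → M) :
    ∑ β, f β = ∑ v, f (Sum.inl v) + ∑ P : t, f (Sum.inr (t.equivFin P)) := by
  rw [Fintype.sum_sum_type]
  congr 1
  exact (Fintype.sum_equiv t.equivFin _ _ fun i => rfl).symm

theorem pplnk_lamV [Fact ℓ.Prime] {χ : F → ZMod ℓ} {b : Fin m → ℕ} {a : Fin m → F[X]}
    (h : ∀ i k, χ (a i - a k).leadingCoeff = χ (a k - a i).leadingCoeff) :
    lamV χ b a = sgV b 0 (fun i k => χ (a i - a k).leadingCoeff) h := dif_pos h

theorem pplnk_lc [Finite F] (hSy : StmtSuSy.{u}) [Fact ℓ.Prime] (hℓ2 : ℓ ≠ 2)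
    (hq : ℓ ∣ Nat.card F - 1) {χ : F → ZMod ℓ} (hχ : IsLg ℓ χ) {a : Fin m → F[X]}
    (ha : Function.Injective a) (i k : Fin m) :
    χ (a i - a k).leadingCoeff = χ (a k - a i).leadingCoeff := by
  obtain ⟨-, hχn, -⟩ := hSy F ℓ Fact.out hq χ hχ
  by_cases hik : i = k
  · rw [hik]
  · have h1 : (a k - a i).leadingCoeff ≠ 0 :=
      leadingCoeff_ne_zero.2 (sub_ne_zero.2 fun h => hik (ha h).symm)
    rw [← neg_sub (a k) (a i), leadingCoeff_neg, ← neg_one_mul,
      hχ.mul _ _ (neg_ne_zero.2 one_ne_zero) h1, hχn hℓ2, zero_add]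

/-- the solution attached to the equations -/
theorem pplnk_sol [Finite F] (hSy : StmtSuSy.{u}) [Fact ℓ.Prime] (hℓ2 : ℓ ≠ 2)
    (hq : ℓ ∣ Nat.card F - 1) {χ : F → ZMod ℓ} (hχ : IsLg ℓ χ) {a : Fin m → F[X]}
    (ha : Function.Injective a) {b : Fin m → ℕ} {V : Type} [Fintype V] {pr : V → F[X]}
    (hcov : ∀ P : F[X], P.Monic → Irreducible P → ∀ i j, i ≠ j → P ∣ a i - a j → ∃ v, pr v = P)
    {e : V → ZMod ℓ} {t : Finset F[X]}
    (ht : ∀ P ∈ t, P.Monic ∧ Irreducible P) (htp : ∀ P ∈ t, ∀ v, pr v ≠ P)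
    {x c : V ⊕ Fin t.card → Fin m → ZMod ℓ}
    (hE : EqL χ b a (pplnkPr pr t) (pplnkRho e t) x c) :
    SolW χ pr (fun v => sigV b a (pr v) (e v)) (lamV χ b a) t
      (fun v => ⟨c (Sum.inl v), hE.mem _⟩)
      (fun P => ⟨c (Sum.inr (t.equivFin P)), hE.mem _⟩) := by
  -- good primes
  have hg : ∀ P : t, ∀ i k, i ≠ k → vl ℓ P.1 (a i - a k) = 0 := by
    intro P i k hik
    have h1 : ¬ P.1 ∣ a i - a k := by
      intro h
      obtain ⟨v, hv⟩ := hcov P.1 (ht _ P.2).1 (ht _ P.2).2 i k hik h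
      exact htp _ P.2 v hv
    rw [vl, if_neg (sub_ne_zero.2 fun h => hik (ha h)), multiplicity_eq_zero.2 h1, Nat.cast_zero]
  have hprP : ∀ P : t, pplnkPr pr t (Sum.inr (t.equivFin P)) = P.1 := fun P => by
    simp [pplnkPr]
  have hprv : ∀ v, pplnkPr pr t (Sum.inl v) = pr v := fun v => rfl
  have hρP : ∀ P : t, pplnkRho e t (Sum.inr (t.equivFin P)) = 1 := fun P => rfl
  have hρv : ∀ v, pplnkRho e t (Sum.inl v) = e v := fun v => rfl
  have hlc := pplnk_lc (m := m) hSy hℓ2 hq hχ ha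
  rw [pplnk_lamV hlc]
  -- the operators
  have hσ : ∀ v (y : Vs ℓ b) (i : Fin m), (sigV b a (pr v) (e v) y).1 i =
      sg b (e v) (fun i k => vl ℓ (pr v) (a i - a k)) y i := fun v y i => rfl
  have hxv : ∀ v i, x (Sum.inl v) i = sg b (e v) (fun i k => vl ℓ (pr v) (a i - a k))
      (c (Sum.inl v)) i := fun v i => hE.val _ i
  have hxP : ∀ (P : t) i, x (Sum.inr (t.equivFin P)) i = c (Sum.inr (t.equivFin P)) i := by
    intro P i
    rw [hE.val, hρP, hprP, sg_good (hg P), one_mul]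
  have hdv : ∀ β v i, x (Sum.inl v) i - sg b (pplnkRho e t (Sum.inl v))
      (fun i k => vl ℓ (pplnkPr pr t (Sum.inl v)) (a i - a k)) (c β) i =
      sg b (e v) (fun i k => vl ℓ (pr v) (a i - a k)) (c (Sum.inl v) - c β) i := by
    intro β v i
    rw [hxv, ← sg_sub]
    rfl
  have hdP : ∀ β (P : t) i, x (Sum.inr (t.equivFin P)) i -
      sg b (pplnkRho e t (Sum.inr (t.equivFin P)))
      (fun i k => vl ℓ (pplnkPr pr t (Sum.inr (t.equivFin P))) (a i - a k)) (c β) i =
      c (Sum.inr (t.equivFin P)) i - c β i := by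
    intro β P i
    rw [hxP, hρP, hprP, sg_good (hg P), one_mul]
  have hsym : ∀ β i, ∑ v, syl χ (pplnkPr pr t β) (pr v) *
        sg b (e v) (fun i k => vl ℓ (pr v) (a i - a k)) (c (Sum.inl v) - c β) i +
      ∑ P : t, syl χ (pplnkPr pr t β) P.1 * (c (Sum.inr (t.equivFin P)) i - c β i) =
      ((pplnkPr pr t β).natDegree : ZMod ℓ) *
        sg b 0 (fun i k => χ (a i - a k).leadingCoeff) (c β) i := by
    intro β i
    rw [← hE.sym β i, pplnk_sum]
    simp only [hdv, hdP]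
    simp only [hprP, hprv]
  refine ⟨?_, fun v => ?_, fun P => ?_⟩
  · refine Subtype.ext (funext fun i => ?_)
    have h1 := hE.inf i
    rw [pplnk_sum] at h1
    simp only [hxv, hxP, hprP, hprv] at h1
    simp only [Submodule.coe_add, Submodule.coe_sum, Submodule.coe_smul, Pi.add_apply,
      Finset.sum_apply, Pi.smul_apply, smul_eq_mul]
    exact h1
  · refine Subtype.ext (funext fun i => ?_)
    have h1 := hsym (Sum.inl v) i
    simp only [Submodule.coe_add, Submodule.coe_sum, Submodule.coe_smul, Submodule.coe_sub,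
      Pi.add_apply, Finset.sum_apply, Pi.smul_apply, Pi.sub_apply, smul_eq_mul]
    exact h1
  · refine Subtype.ext (funext fun i => ?_)
    have h1 := hsym (Sum.inr (t.equivFin P)) i
    simp only [hprP] at h1
    simp only [Submodule.coe_add, Submodule.coe_sum, Submodule.coe_smul, Submodule.coe_sub,
      Pi.add_apply, Finset.sum_apply, Pi.smul_apply, Pi.sub_apply, smul_eq_mul]
    exact h1

theorem pplnk_zero {V W : Type} [Fintype V] [AddCommGroup W] [Module (ZMod ℓ) W]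
    (χ : F → ZMod ℓ) (pr : V → F[X]) (σ : V → Module.End (ZMod ℓ) W)
    (Λ : Module.End (ZMod ℓ) W) (t : Finset F[X]) :
    SolW χ pr σ Λ t 0 0 where
  inf := by simp
  bad := fun v => by simp
  good := fun P => by simp

open Classical in
theorem tPpLnk.{v} (hSuSy : StmtSuSy.{v}) (_hSuRec : StmtSuRec.{v}) (hSuEq : StmtSuEq.{v}) :
    StmtPpLnk.{v} := by
  intro F _ _ ℓ _ hℓ2 hq χ hχ m hm a ha b V _ pr hpr hcov e hT n t ht hI hS
  have hℓ : ℓ.Prime := Fact.out
  have : NeZero ℓ := ⟨hℓ.ne_zero⟩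
  obtain ⟨ht1, htp⟩ := pplnk_mem_gs.1 ht
  obtain ⟨htm, htd⟩ := mem_ps.1 ht1
  have hfam := pplnk_fam hpr htm htp
  have htw := pplnk_twl pr e t
  have hb : ∀ i, Nat.Coprime (b i) ℓ := fun i => ((hℓ.coprime_iff_not_dvd).2 (hI.not_dvd i)).symm
  have hdeg : (twl pr e * ∏ P ∈ t, P).natDegree = (twl pr e).natDegree + n := by
    rw [(monic_twl hpr e).natDegree_mul (monic_prod_of_monic _ _ fun P hP => (htm P hP).1),
      natDegree_prod_of_monic _ _ fun P hP => (htm P hP).1, htd]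
  rw [← htw]
  refine le_antisymm ?_ (torsionGroup_le_su hℓ (twl_ne_zero hfam _) ha hb)
  intro d hd
  have hTame : ∀ β, Tame ℓ b (wP (pplnkPr pr t β) a) ((pplnkRho e t β).val : ℤ) := by
    rintro (v | i)
    · exact hT v
    · refine tame_good hℓ (hI.not_dvd_sum hm) (fun i => hI.not_dvd i) ?_ ?_
      · intro j k hjk
        have h1 : ¬ pplnkPr pr t (Sum.inr i) ∣ a j - a k := by
          intro h
          obtain ⟨v, hv⟩ := hcov _ (hfam.monic _) (hfam.irr _) j k hjk h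
          exact htp _ (t.equivFin.symm i).2 v hv
        rw [wP, multiplicity_eq_zero.2 h1, Nat.cast_zero]
      · intro h
        have h2 : (pplnkRho e t (Sum.inr i)).val = 1 := ZMod.val_one _
        rw [h2, Nat.cast_one] at h
        have h3 := Int.eq_one_of_dvd_one (Int.natCast_nonneg _) h
        have h4 := hℓ.two_le
        omega
  obtain ⟨x, c, hE, hfin⟩ := hSuEq F ℓ hℓ hℓ2 hq χ hχ m hm a ha b _ (pplnkPr pr t) hfam
    (fun P hP hPi i j hij hd => by
      obtain ⟨v, hv⟩ := hcov P hP hPi i j hij hd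
      exact ⟨Sum.inl v, hv⟩) (pplnkRho e t)
    hTame (by rw [htw, hdeg]; exact hI) d hd
  refine hfin fun β i => ?_
  have hsol := pplnk_sol hSuSy hℓ2 hq hχ ha hcov htm htp hE
  have hz := pplnk_zero χ pr (fun v => sigV b a (pr v) (e v)) (lamV χ b a) t
  have hsub : Subsingleton {x : (V → Vs ℓ b) × (t → Vs ℓ b) //
      SolW χ pr (fun v => sigV b a (pr v) (e v)) (lamV χ b a) t x.1 x.2} :=
    (Nat.card_eq_one_iff_unique.1 hS).1
  have h1 := congrArg Subtype.val (hsub.elim ⟨(_, _), hsol⟩ ⟨(0, 0), hz⟩)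
  have hc0 : ∀ β, c β = 0 := by
    rintro (v | j)
    · exact congrArg Subtype.val (congrFun (congrArg Prod.fst h1) v)
    · have h2 := congrArg Subtype.val (congrFun (congrArg Prod.snd h1) (t.equivFin.symm j))
      simpa using h2
  rw [hE.val, hc0, sg_zero_vec]

end lnk

end MP72e2e6
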