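import Pool.Agent.Lib.MP_72e2e6_nt.TwStmt

/-!
# The torsion group in terms of `tau`
-/

namespace MP72e2e6

open Polynomial IsDedekindDomain

universe u

section rel

variable {K : Type*} [Field K]

/-- equality up to nonzero squares -/
def twtor_R (x y : K) : Prop := ∃ z : K, z ≠ 0 ∧ x = y * z ^ 2

theorem twtor_refl (x : K) : twtor_R x x := ⟨1, one_ne_zero, by ring⟩

theorem twtor_of_eq {x y : K} (h : x = y) : twtor_R x y := h ▸ twtor_refl x

theorem twtor_symm {x y : K} (h : twtor_R x y) : twtor_R y x := by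
  obtain ⟨z, hz, rfl⟩ := h
  exact ⟨z⁻¹, inv_ne_zero hz, by field_simp⟩

theorem twtor_trans {x y z : K} (h : twtor_R x y) (h' : twtor_R y z) : twtor_R x z := by
  obtain ⟨s, hs, rfl⟩ := h
  obtain ⟨t, ht, rfl⟩ := h'
  exact ⟨s * t, mul_ne_zero hs ht, by ring⟩

theorem twtor_mul {x y x' y' : K} (h : twtor_R x y) (h' : twtor_R x' y') :
    twtor_R (x * x') (y * y') := by
  obtain ⟨s, hs, rfl⟩ := h
  obtain ⟨t, ht, rfl⟩ := h'
  exact ⟨s * t, mul_ne_zero hs ht, by ring⟩

theorem twtor_inv {x : K} (hx : x ≠ 0) : twtor_R x⁻¹ x := ⟨x⁻¹, inv_ne_zero hx, by field_simp⟩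

theorem twtor_prod {ι : Type*} (s : Finset ι) (f g : ι → K) (h : ∀ i ∈ s, twtor_R (f i) (g i)) :
    twtor_R (∏ i ∈ s, f i) (∏ i ∈ s, g i) := by
  classical
  induction s using Finset.induction_on with
  | empty => simpa using twtor_refl (1 : K)
  | insert a s ha ih =>
    rw [Finset.prod_insert ha, Finset.prod_insert ha]
    exact twtor_mul (h a (Finset.mem_insert_self _ _))
      (ih fun i hi => h i (Finset.mem_insert_of_mem hi))

theorem twtor_pow (x : K) (s t : ZMod 2) (h : x ≠ 0 ∨ (s = 0 ∧ t = 0)) :
    twtor_R (x ^ (s + t).val) (x ^ s.val * x ^ t.val) := by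
  by_cases hst : s = 1 ∧ t = 1
  · obtain ⟨rfl, rfl⟩ := hst
    have hx : x ≠ 0 := h.resolve_right (by decide)
    refine ⟨x⁻¹, inv_ne_zero hx, ?_⟩
    rw [show ((1 : ZMod 2) + 1).val = 0 from rfl, show (1 : ZMod 2).val = 1 from rfl]
    field_simp
  · apply twtor_of_eq
    rw [← pow_add]
    congr 1
    clear h
    revert s t
    decide

end rel

section tau

variable {F : Type u} [Field F] {m : ℕ} {E : F[X]} {a : Fin m → F[X]}

/-- the vector of a torsion tuple -/
def twtor_e (j i : Fin m) : ZMod 2 := 1 + if i = j then 1 else 0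

theorem twtor_phi_ne {h : F[X]} (hh : h ≠ 0) : algebraMap F[X] (RatFunc F) h ≠ 0 :=
  (map_ne_zero_iff _ (RatFunc.algebraMap_injective F)).2 hh

theorem twtor_tau_add (hE : E ≠ 0) (ha : Function.Injective a) (c c' : Fin m → ZMod 2)
    (i : Fin m) :
    twtor_R (algebraMap F[X] (RatFunc F) (tau E a (c + c') i))
      (algebraMap F[X] (RatFunc F) (tau E a c i) *
        algebraMap F[X] (RatFunc F) (tau E a c' i)) := by
  unfold tau
  simp only [map_mul, map_pow, map_prod, Pi.add_apply]
  rw [mul_mul_mul_comm, ← Finset.prod_mul_distrib]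
  refine twtor_mul (twtor_pow _ _ _ (Or.inl (twtor_phi_ne (neg_ne_zero.2 hE))))
    (twtor_prod _ _ _ fun k _ => ?_)
  rw [show c i + c' i + (c k + c' k) = (c i + c k) + (c' i + c' k) by ring]
  refine twtor_pow _ _ _ ?_
  by_cases hk : k = i
  · subst hk
    exact Or.inr ⟨CharTwo.add_self_eq_zero _, CharTwo.add_self_eq_zero _⟩
  · exact Or.inl (twtor_phi_ne (sub_ne_zero.2 fun h => hk (ha h).symm))

theorem twtor_tau_ne (hE : E ≠ 0) (ha : Function.Injective a) (c : Fin m → ZMod 2) (i : Fin m) :
    algebraMap F[X] (RatFunc F) (tau E a c i) ≠ 0 := by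
  apply twtor_phi_ne
  unfold tau
  refine mul_ne_zero (pow_ne_zero _ (neg_ne_zero.2 hE)) (Finset.prod_ne_zero_iff.2 fun k _ => ?_)
  by_cases hk : k = i
  · subst hk
    rw [CharTwo.add_self_eq_zero, ZMod.val_zero, pow_zero]
    exact one_ne_zero
  · exact pow_ne_zero _ (sub_ne_zero.2 fun h => hk (ha h).symm)

theorem twtor_tau_zero (i : Fin m) : tau E a 0 i = 1 := by
  simp [tau]

theorem twtor_tuple (hm : Odd m) (hE : E ≠ 0) (ha : Function.Injective a) (j i : Fin m) :
    twtor_R (torsionTuple (pts E a) (fun _ => 1) j i)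
      (algebraMap F[X] (RatFunc F) (tau E a (twtor_e j) i)) := by
  classical
  have hpt : ∀ i k, pts E a i - pts E a k = algebraMap F[X] (RatFunc F) E *
      algebraMap F[X] (RatFunc F) (a i - a k) := by
    intro i k
    unfold pts
    rw [← map_sub, ← map_mul]
    congr 1
    ring
  have hEn := twtor_phi_ne hE
  unfold torsionTuple tau
  by_cases hij : i = j
  · subst hij
    rw [if_pos rfl]
    have h0 : twtor_e i i = 0 := by
      rw [twtor_e, if_pos rfl]
      decide
    have h1 : ∏ k, (a i - a k) ^ (twtor_e i i + twtor_e i k).val =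
        ∏ k ∈ Finset.univ.erase i, (a i - a k) := by
      rw [← Finset.mul_prod_erase _ _ (Finset.mem_univ i), h0]
      rw [show ((0 : ZMod 2) + 0).val = 0 from rfl, pow_zero, one_mul]
      refine Finset.prod_congr rfl fun k hk => ?_
      rw [twtor_e, if_neg (Finset.ne_of_mem_erase hk), show ((0 : ZMod 2) + (1 + 0)).val = 1 from rfl,
        pow_one]
    rw [h1, h0, ZMod.val_zero, pow_zero, one_mul, map_prod]
    have h2 : ∏ k ∈ Finset.univ.erase i, (pts E a i - pts E a k) ^ 1 ≠ 0 := by
      refine Finset.prod_ne_zero_iff.2 fun k hk => ?_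
      rw [pow_one, hpt]
      exact mul_ne_zero hEn (twtor_phi_ne (sub_ne_zero.2 fun h =>
        (Finset.ne_of_mem_erase hk) (ha h).symm))
    refine twtor_trans (twtor_inv h2) ?_
    obtain ⟨t, ht⟩ := hm
    have h3 : (Finset.univ.erase i).card = 2 * t := by
      rw [Finset.card_erase_of_mem (Finset.mem_univ i), Finset.card_univ, Fintype.card_fin]
      omega
    have h4 : ∏ k ∈ Finset.univ.erase i, (pts E a i - pts E a k) ^ 1 =
        (∏ k ∈ Finset.univ.erase i, algebraMap F[X] (RatFunc F) (a i - a k)) *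
          (algebraMap F[X] (RatFunc F) E ^ t) ^ 2 := by
      rw [Finset.prod_congr rfl fun k _ => (pow_one _).trans (hpt i k), Finset.prod_mul_distrib,
        Finset.prod_const, h3]
      ring
    exact ⟨_, pow_ne_zero _ hEn, h4⟩
  · rw [if_neg hij]
    apply twtor_of_eq
    have h0 : twtor_e j i = 1 := by
      rw [twtor_e, if_neg hij, add_zero]
    have h1 : ∏ k, (a i - a k) ^ (twtor_e j i + twtor_e j k).val = a i - a j := by
      rw [Finset.prod_eq_single j, h0, twtor_e, if_pos rfl,
        show ((1 : ZMod 2) + (1 + 1)).val = 1 from rfl, pow_one]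
      · intro k _ hk
        rw [h0, twtor_e, if_neg hk, show ((1 : ZMod 2) + (1 + 0)).val = 0 from rfl, pow_zero]
      · intro h
        exact absurd (Finset.mem_univ j) h
    rw [h1, h0, pow_one, hpt, ← map_mul, show (1 : ZMod 2).val = 1 from rfl, pow_one]
    congr 1
    ring

theorem twtor_e_sum (hm : Odd m) (j : Fin m) : ∑ i, twtor_e j i = 0 := by
  unfold twtor_e
  rw [Finset.sum_add_distrib, Finset.sum_ite_eq' Finset.univ j, if_pos (Finset.mem_univ j),
    Finset.sum_const, Finset.card_univ, Fintype.card_fin, nsmul_eq_mul, mul_one,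
    (ZMod.natCast_eq_one_iff_odd).2 hm]
  decide

theorem twtor_decomp (c : Fin m → ZMod 2) (hc : ∑ i, c i = 0) :
    c = ∑ j ∈ Finset.univ.filter (fun j => c j = 1), twtor_e j := by
  funext i
  rw [Finset.sum_apply, Finset.sum_filter]
  have h1 : ∀ j, (if c j = 1 then twtor_e j i else 0) = c j + if i = j then c j else 0 := by
    intro j
    unfold twtor_e
    generalize c j = z
    by_cases hij : i = j
    · rw [if_pos hij, if_pos hij]
      revert z
      decide
    · rw [if_neg hij, if_neg hij]
      revert z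
      decide
  rw [Finset.sum_congr rfl fun j _ => h1 j, Finset.sum_add_distrib, hc,
    Finset.sum_ite_eq Finset.univ i, if_pos (Finset.mem_univ i), zero_add]

end tau

theorem tTwTor : StmtTwTor.{u} := by
  intro F _ m hm E hE a ha
  classical
  have hpi : Function.Injective (pts E a) := by
    intro i k h
    unfold pts at h
    exact ha (mul_left_cancel₀ hE (RatFunc.algebraMap_injective F h))
  constructor
  · intro t ht
    let H : Subgroup (Fin m → (RatFunc F)ˣ) :=
      { carrier := {t | ∃ c : Fin m → ZMod 2, ∑ i, c i = 0 ∧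
          ∀ i, twtor_R (t i : RatFunc F) (algebraMap F[X] (RatFunc F) (tau E a c i))}
        mul_mem' := by
          rintro s t ⟨c, hc, h⟩ ⟨c', hc', h'⟩
          refine ⟨c + c', ?_, fun i => ?_⟩
          · simp only [Pi.add_apply]
            rw [Finset.sum_add_distrib, hc, hc', add_zero]
          · rw [Pi.mul_apply, Units.val_mul]
            exact twtor_trans (twtor_mul (h i) (h' i)) (twtor_symm (twtor_tau_add hE ha c c' i))
        one_mem' := ⟨0, by simp, fun i => by
          rw [twtor_tau_zero, map_one, Pi.one_apply, Units.val_one]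
          exact twtor_refl _⟩
        inv_mem' := by
          rintro t ⟨c, hc, h⟩
          refine ⟨c, hc, fun i => ?_⟩
          rw [Pi.inv_apply, Units.val_inv_eq_inv_val]
          exact twtor_trans (twtor_inv (t i).ne_zero) (h i) }
    have hle : torsionGroup 2 (pts E a) (fun _ => 1) ≤ H := by
      rw [torsionGroup, Subgroup.closure_le]
      rintro d (⟨z, rfl⟩ | ⟨j, hj⟩)
      · refine ⟨0, by simp, fun i => ⟨(z i : RatFunc F), (z i).ne_zero, ?_⟩⟩
        rw [twtor_tau_zero, map_one, one_mul, Pi.pow_apply, Units.val_pow_eq_pow_val]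
      · refine ⟨twtor_e j, twtor_e_sum hm j, fun i => ?_⟩
        rw [hj i]
        exact twtor_tuple hm hE ha j i
    obtain ⟨c, hc, h⟩ := hle ht
    exact ⟨c, hc, fun i => ⟨(h i).choose, (h i).choose_spec.2⟩⟩
  · intro c hc t ht
    have key : ∀ (S : Finset (Fin m)) (t : Fin m → (RatFunc F)ˣ),
        (∀ i, twtor_R (t i : RatFunc F)
          (algebraMap F[X] (RatFunc F) (tau E a (∑ j ∈ S, twtor_e j) i))) →
        t ∈ torsionGroup 2 (pts E a) (fun _ => 1) := by
      intro S
      induction S using Finset.induction_on with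
      | empty =>
        intro t ht
        choose z hz0 hz using ht
        have h1 : t = (fun i => Units.mk0 (z i) (hz0 i)) ^ 2 := by
          funext i
          ext
          rw [hz i, Finset.sum_empty, twtor_tau_zero, map_one, one_mul, Pi.pow_apply,
            Units.val_pow_eq_pow_val, Units.val_mk0]
        rw [h1]
        exact mem_torsionGroup_pow _
      | insert j S hj ih =>
        intro t ht
        let u : Fin m → (RatFunc F)ˣ := fun i =>
          Units.mk0 (torsionTuple (pts E a) (fun _ => 1) j i)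
            (torsionTuple_ne_zero hpi (fun _ => 1) j i)
        have hu : u ∈ torsionGroup 2 (pts E a) (fun _ => 1) :=
          Subgroup.subset_closure (Or.inr ⟨j, fun i => rfl⟩)
        have h1 : t * u⁻¹ ∈ torsionGroup 2 (pts E a) (fun _ => 1) := by
          refine ih _ fun i => ?_
          rw [Pi.mul_apply, Units.val_mul, Pi.inv_apply, Units.val_inv_eq_inv_val]
          have h2 : twtor_R (t i : RatFunc F)
              (algebraMap F[X] (RatFunc F) (tau E a (twtor_e j) i) *
                algebraMap F[X] (RatFunc F) (tau E a (∑ j ∈ S, twtor_e j) i)) := by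
            have h3 := ht i
            rw [Finset.sum_insert hj] at h3
            exact twtor_trans h3 (twtor_tau_add hE ha _ _ i)
          have h4 : twtor_R ((u i : RatFunc F)⁻¹)
              (algebraMap F[X] (RatFunc F) (tau E a (twtor_e j) i)) :=
            twtor_trans (twtor_inv (u i).ne_zero) (twtor_tuple hm hE ha j i)
          refine twtor_trans (twtor_mul h2 h4) ?_
          refine ⟨algebraMap F[X] (RatFunc F) (tau E a (twtor_e j) i),
            twtor_tau_ne hE ha _ i, ?_⟩
          ring
        have h5 := mul_mem h1 hu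
        rwa [inv_mul_cancel_right] at h5
    refine key (Finset.univ.filter (fun j => c j = 1)) t fun i => ?_
    rw [← twtor_decomp c hc]
    obtain ⟨z, hz⟩ := ht i
    refine ⟨z, ?_, hz⟩
    rintro rfl
    exact (t i).ne_zero (by rw [hz]; ring)

end MP72e2e6
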