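import Pool.Agent.Lib.MP_72e2e6_nt.PeHyp
import Pool.Agent.Lib.MP_72e2e6_nt.PpLnk
import Pool.Agent.Lib.MP_72e2e6_nt.TwTor

/-!
# MP_72e2e6_nt: positive proportion of quadratic twists, the order of the Selmer group
-/

set_option autoImplicit false

namespace MP72e2e6

open Polynomial IsDedekindDomain

universe u

section sol

variable {F : Type u} [Field F] [Finite F] {m n₀ : ℕ} {a : Fin m → F[X]}

theorem peinj_trE_zero {m : ℕ} (y : Ev m) : trE 0 y = y := by
  rw [trE_apply, smul_zero, add_zero]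

variable {ι : Type} [Fintype ι] {pr : ι → F[X]}

/-- the equations for the family -/
theorem peinj_eqs (hSy : StmtTwSy.{u}) (hFac : StmtTwFac.{u}) (hNu : StmtTwNu.{u})
    (hSyl : StmtPeSyl.{u}) (hF : 4 ∣ Nat.card F - 1) (ha : Pts m n₀ a) (hpr : Fam pr)
    (hcov : ∀ P : F[X], P.Monic → Irreducible P → ∀ i j, i ≠ j → P ∣ a i - a j →
      ∃ v, pr v = P) {x c : ι → Fin m → ZMod 2} (hE : EqSys a pr 1 1 x c) :
    ∃ y : ι → Ev m, (∀ β, (y β : Fin m → ZMod 2) = c β) ∧
      ∑ β, ((pr β).natDegree : ZMod 2) • trE (nuE (pr β) a) (y β) = 0 ∧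
      ∀ β, ∑ β', sy (pr β) (pr β') • trE (nuE (pr β') a) (y β' - y β) =
        ((pr β).natDegree : ZMod 2) • laE a (y β) := by
  have hodd := pehyp_card_odd hF
  obtain ⟨y, hy⟩ : ∃ y : ι → Ev m, ∀ β, (y β : Fin m → ZMod 2) = c β :=
    ⟨fun β => ⟨c β, hE.even β rfl⟩, fun β => rfl⟩
  have hx : ∀ β i, x β i = (trE (nuE (pr β) a) (y β) : Fin m → ZMod 2) i := by
    intro β i
    rw [pehyp_tr hNu hodd ha (hpr.monic β) (hpr.irr β), hy, hE.val β rfl i]
  refine ⟨y, hy, ?_, fun β => ?_⟩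
  · refine Subtype.ext (funext fun i => ?_)
    rw [AddSubmonoidClass.coe_finsetSum, Finset.sum_apply]
    have h1 := hE.inf i
    rw [Finset.sum_congr rfl fun β _ => congrArg (((pr β).natDegree : ZMod 2) * ·) (hx β i)] at h1
    exact h1
  · refine Subtype.ext (funext fun i => ?_)
    rw [AddSubmonoidClass.coe_finsetSum, Finset.sum_apply]
    have h1 := hE.sym β rfl i
    have h2 : cs (-1 : F) = 0 := ((hSyl F (pehyp_card_two hF)).2.2 hF).1
    rw [h2, mul_zero, mul_zero, add_zero] at h1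
    have h3 := pehyp_op hFac hSy hNu hSyl hF ha hpr hcov β (y β) i
    have h4 : ∑ β', sy (pr β) (pr β') * (x β' i + (1 : ι → ZMod 2) β' * c β i) =
        ∑ β', sy (pr β) (pr β') * x β' i + (∑ β', sy (pr β) (pr β')) * c β i := by
      rw [Finset.sum_mul, ← Finset.sum_add_distrib]
      exact Finset.sum_congr rfl fun β' _ => by rw [Pi.one_apply]; ring
    rw [h4] at h1
    rw [hy] at h3
    have h5 : ∀ β', ((sy (pr β) (pr β') • trE (nuE (pr β') a) (y β' - y β) : Ev m) :
        Fin m → ZMod 2) i = sy (pr β) (pr β') * x β' i -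
          sy (pr β) (pr β') * (trE (nuE (pr β') a) (y β) : Fin m → ZMod 2) i := by
      intro β'
      rw [Submodule.coe_smul, Pi.smul_apply, smul_eq_mul, map_sub, Submodule.coe_sub,
        Pi.sub_apply, hx]
      ring
    rw [Finset.sum_congr rfl fun β' _ => h5 β', Finset.sum_sub_distrib, Submodule.coe_smul,
      Pi.smul_apply, smul_eq_mul]
    generalize ∑ β', sy (pr β) (pr β') * x β' i = A at h1 ⊢
    generalize ∑ β', sy (pr β) (pr β') * (trE (nuE (pr β') a) (y β) : Fin m → ZMod 2) i = B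
      at h3 ⊢
    generalize (∑ β', sy (pr β) (pr β')) * c β i = D at h1 h3
    generalize ∑ k, (c β i + c β k) * sy (pr β) (a i - a k) = G at h1 h3
    generalize ((pr β).natDegree : ZMod 2) * (laE a (y β) : Fin m → ZMod 2) i = K at h3 ⊢
    rw [add_assoc, ← h3] at h1
    rw [sub_eq_iff_eq_add, CharTwo.add_eq_zero.1 h1, add_comm]

/-- the solution attached to the equations -/
theorem peinj_sol (hSy : StmtTwSy.{u}) (hFac : StmtTwFac.{u}) (hNu : StmtTwNu.{u})
    (hSyl : StmtPeSyl.{u}) (hF : 4 ∣ Nat.card F - 1) (ha : Pts m n₀ a) {V : Type} [Fintype V]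
    {pr : V → F[X]} (hpr : Fam pr)
    (hcov : ∀ P : F[X], P.Monic → Irreducible P → ∀ i j, i ≠ j → P ∣ a i - a j →
      ∃ v, pr v = P) {t : Finset F[X]}
    (ht : ∀ P ∈ t, P.Monic ∧ Irreducible P) (htp : ∀ P ∈ t, ∀ v, pr v ≠ P)
    {x c : V ⊕ Fin t.card → Fin m → ZMod 2} (hE : EqSys a (pplnkPr pr t) 1 1 x c) :
    ∃ y : V ⊕ Fin t.card → Ev m, (∀ β, (y β : Fin m → ZMod 2) = c β) ∧
      SolW cs pr (fun v => trE (nuE (pr v) a)) (laE a) t
        (fun v => y (Sum.inl v)) (fun P => y (Sum.inr (t.equivFin P))) := by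
  have hodd := pehyp_card_odd hF
  have hfam := pplnk_fam hpr ht htp
  obtain ⟨y, hy, h1, h2⟩ := peinj_eqs hSy hFac hNu hSyl hF ha hfam
    (fun P hP hPi i j hij hd => by
      obtain ⟨v, hv⟩ := hcov P hP hPi i j hij hd
      exact ⟨Sum.inl v, hv⟩) hE
  obtain ⟨-, hsyl, -⟩ := hSyl F (pehyp_card_two hF)
  have hprP : ∀ P : t, pplnkPr pr t (Sum.inr (t.equivFin P)) = P.1 := fun P => by
    simp [pplnkPr]
  have hprv : ∀ v, pplnkPr pr t (Sum.inl v) = pr v := fun v => rfl
  have hnu : ∀ P : t, nuE P.1 a = 0 := by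
    intro P
    have h3 : nu P.1 a = 0 := (hNu F hodd m n₀ a ha P.1 (ht _ P.2).1 (ht _ P.2).2).2.1
      (fun i j hij h => by
        obtain ⟨v, hv⟩ := hcov P.1 (ht _ P.2).1 (ht _ P.2).2 i j hij h
        exact htp _ P.2 v hv)
    refine Subtype.ext ?_
    rw [pehyp_nuE hNu hodd ha (ht _ P.2).1 (ht _ P.2).2, h3]
    rfl
  have h3 : ∀ β, ∑ v, sy (pplnkPr pr t β) (pr v) • trE (nuE (pr v) a) (y (Sum.inl v) - y β) +
      ∑ P : t, sy (pplnkPr pr t β) P.1 • (y (Sum.inr (t.equivFin P)) - y β) =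
      ((pplnkPr pr t β).natDegree : ZMod 2) • laE a (y β) := by
    intro β
    rw [← h2 β, pplnk_sum]
    congr 1
    refine Finset.sum_congr rfl fun P _ => ?_
    rw [hprP, hnu, peinj_trE_zero]
  refine ⟨y, hy, ⟨?_, fun v => ?_, fun P => ?_⟩⟩
  · rw [pplnk_sum] at h1
    rw [← h1]
    congr 1
    refine Finset.sum_congr rfl fun P _ => ?_
    rw [hprP, hnu, peinj_trE_zero]
  · rw [← hprv v, ← h3 (Sum.inl v)]
    congr 1
    · refine Finset.sum_congr rfl fun v' _ => ?_
      rw [hsyl _ _ (hfam.monic _) (hfam.irr _) (hpr.irr v').ne_zero]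
    · refine Finset.sum_congr rfl fun P _ => ?_
      rw [hsyl _ _ (hfam.monic _) (hfam.irr _) (ht _ P.2).2.ne_zero]
  · have h4 := h3 (Sum.inr (t.equivFin P))
    rw [hprP] at h4
    rw [← h4]
    congr 1
    · refine Finset.sum_congr rfl fun v' _ => ?_
      rw [hsyl _ _ (ht _ P.2).1 (ht _ P.2).2 (hpr.irr v').ne_zero]
    · refine Finset.sum_congr rfl fun Q _ => ?_
      rw [hsyl _ _ (ht _ P.2).1 (ht _ P.2).2 (ht _ Q.2).2.ne_zero]

omit [Finite F] in
theorem peinj_tw {V : Type} [Fintype V] (pr : V → F[X]) (t : Finset F[X]) :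
    tw (pplnkPr pr t) 1 1 = (∏ v, pr v) * ∏ P ∈ t, P := by
  have h1 : ((1 : ZMod 2)).val = 1 := rfl
  simp only [tw, Pi.one_apply, h1, pow_one, C_1, one_mul]
  rw [Fintype.prod_sum_type]
  congr 1
  simp only [pplnkPr, Sum.elim_inr]
  rw [← Finset.prod_coe_sort t (fun P => P)]
  exact Fintype.prod_equiv t.equivFin.symm _ _ fun i => rfl

end sol

open Classical in
theorem tPeInj.{w} (hSy : StmtTwSy.{w}) (hFac : StmtTwFac.{w}) (hNu : StmtTwNu.{w})
    (hTor : StmtTwTor.{w}) (hSyl : StmtPeSyl.{w}) (hPeEq : StmtPeEq.{w}) : StmtPeInj.{w} := by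
  intro F _ _ hF m n₀ a ha V _ pr hpr hcov n t ht hn
  have hodd := pehyp_card_odd hF
  have hinj := pehyp_inj ha
  obtain ⟨ht1, htp⟩ := pplnk_mem_gs.1 ht
  obtain ⟨htm, htd⟩ := mem_ps.1 ht1
  have hfam := pplnk_fam hpr htm htp
  have htw := peinj_tw pr t
  have hdeg : (tw (pplnkPr pr t) 1 1).natDegree = ∑ v, (pr v).natDegree + n := by
    rw [htw, (monic_prod_of_monic _ _ fun v _ => hpr.monic v).natDegree_mul
      (monic_prod_of_monic _ _ fun P hP => (htm P hP).1),
      natDegree_prod_of_monic _ _ fun P hP => (htm P hP).1,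
      natDegree_prod_of_monic _ _ fun v _ => hpr.monic v, htd]
  have key := hPeEq F hodd m n₀ a ha _ (pplnkPr pr t) hfam
    (fun P hP hPi i j hij hd => by
      obtain ⟨v, hv⟩ := hcov P hP hPi i j hij hd
      exact ⟨Sum.inl v, hv⟩) (by rw [hdeg]; exact hn)
  have hE0 : tw (pplnkPr pr t) 1 1 ≠ 0 := by
    rw [htw]
    exact mul_ne_zero (monic_prod_of_monic _ _ fun v _ => hpr.monic v).ne_zero
      (monic_prod_of_monic _ _ fun P hP => (htm P hP).1).ne_zero
  rw [← htw]
  set E := tw (pplnkPr pr t) 1 1 with hE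
  set S := placesSelmer F[X] (RatFunc.inftyValuation F) 2 (pts E a) (fun _ => 1) with hS
  set T := torsionGroup 2 (pts E a) (fun _ => 1) with hTT
  choose! x c hEq δ hδ hδ2 hδ3 c₀ hc₀ hd using key
  -- the map
  let Sol := {x : (V → Ev m) × (t → Ev m) //
      SolW cs pr (fun v => trE (nuE (pr v) a)) (laE a) t x.1 x.2}
  have hsol := fun d : S => peinj_sol hSy hFac hNu hSyl hF ha hpr hcov htm htp (hEq d.1 d.2)
  choose y hy hsl using hsol
  let Φ : S → Sol := fun d => ⟨(_, _), hsl d⟩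
  have hΦ : ∀ d d' : S, Φ d = Φ d' → ∀ β, c d.1 β = c d'.1 β := by
    intro d d' h
    have h1 := congrArg Subtype.val h
    have h3 : ∀ β, y d β = y d' β := by
      rintro (v | j)
      · exact congrFun (congrArg Prod.fst h1) v
      · have h2 : y d (Sum.inr (t.equivFin (t.equivFin.symm j))) =
            y d' (Sum.inr (t.equivFin (t.equivFin.symm j))) :=
          congrFun (congrArg Prod.snd h1) (t.equivFin.symm j)
        rwa [Equiv.apply_symm_apply] at h2
    intro β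
    rw [← hy, ← hy, h3]
  -- elements with the same solution
  have hmem : ∀ d d' : S, Φ d = Φ d' → (d.1 / d'.1) ∈ T := by
    intro d d' h
    have hcc := hΦ d d' h
    have hxx : ∀ β i, x d.1 β i = x d'.1 β i := by
      intro β i
      rw [(hEq d.1 d.2).val β rfl, (hEq d'.1 d'.2).val β rfl, hcc]
    refine (hTor F m ha.odd E hE0 a hinj).2 (c₀ d.1 + c₀ d'.1) ?_ _ fun i => ?_
    · simp only [Pi.add_apply, Finset.sum_add_distrib]
      rw [hc₀ d.1 d.2, hc₀ d'.1 d'.2, add_zero]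
    · have h1 := (hδ d.1 d.2 i).1
      have h2 := (hδ d'.1 d'.2 i).1
      obtain ⟨z, hz⟩ : IsSquare (δ d.1 i * δ d'.1 i) := by
        refine (hFac F hodd _ (pplnkPr pr t) hfam _ (mul_ne_zero h1 h2)
          (fun P hP hPi hne => ?_)).2.2 ?_ (fun β => ?_)
        · rw [(((hSy F hodd).2 P hP hPi).1 _ _ h1 h2).1,
            hδ2 d.1 d.2 P hP hPi hne, hδ2 d'.1 d'.2 P hP hPi hne, add_zero]
        · rw [leadingCoeff_mul, (hSy F hodd).1 _ _ (leadingCoeff_ne_zero.2 h1)
            (leadingCoeff_ne_zero.2 h2), (hδ d.1 d.2 i).2, (hδ d'.1 d'.2 i).2, add_zero]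
        · rw [(((hSy F hodd).2 _ (hfam.monic β) (hfam.irr β)).1 _ _ h1 h2).1,
            hδ3 d.1 d.2, hδ3 d'.1 d'.2, hxx]
          exact CharTwo.add_self_eq_zero _
      have hR : ∀ d : S, twtor_R (d.1 i : RatFunc F)
          (algebraMap F[X] (RatFunc F) (δ d.1 i) *
            algebraMap F[X] (RatFunc F) (tau E a (c₀ d.1) i)) := by
        intro d
        obtain ⟨z, hz⟩ := hd d.1 d.2 i
        refine ⟨z, ?_, ?_⟩
        · rintro rfl
          rw [zero_pow two_ne_zero, mul_zero] at hz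
          exact (d.1 i).ne_zero hz
        · rw [hz, map_mul]
      have hdd : ((d.1 / d'.1) i : (RatFunc F)ˣ) = d.1 i / d'.1 i := rfl
      have hz0 : z ≠ 0 := by
        rintro rfl
        rw [mul_zero] at hz
        exact mul_ne_zero h1 h2 hz
      have hsq : twtor_R (algebraMap F[X] (RatFunc F) (δ d.1 i) *
          algebraMap F[X] (RatFunc F) (δ d'.1 i)) 1 :=
        ⟨algebraMap F[X] (RatFunc F) z, twtor_phi_ne hz0, by
          rw [← map_mul, hz, map_mul, one_mul, pow_two]⟩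
      have h3 : twtor_R ((d.1 i : RatFunc F) * (d'.1 i : RatFunc F)⁻¹)
          (algebraMap F[X] (RatFunc F) (tau E a (c₀ d.1 + c₀ d'.1) i)) := by
        refine twtor_trans (twtor_mul (twtor_refl _) (twtor_inv (d'.1 i).ne_zero)) ?_
        refine twtor_trans (twtor_mul (hR d) (hR d')) ?_
        rw [mul_mul_mul_comm]
        refine twtor_trans (twtor_mul hsq (twtor_refl _)) ?_
        rw [one_mul]
        exact twtor_symm (twtor_tau_add hE0 hinj _ _ i)
      obtain ⟨w, -, hw⟩ := h3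
      refine ⟨w, ?_⟩
      rw [hdd, Units.val_div_eq_div_val, div_eq_mul_inv, hw]
  -- the index
  have hfin : Finite Sol := Subtype.finite
  have hle : Function.Injective (fun q : S ⧸ T.subgroupOf S => Φ q.out) := by
    intro q q' h
    have h1 := hmem q'.out q.out h.symm
    have h2 : (q.out⁻¹ * q'.out) ∈ T.subgroupOf S := by
      rw [Subgroup.mem_subgroupOf]
      have h3 : ((q.out⁻¹ * q'.out : S) : Fin m → (RatFunc F)ˣ) = q'.out.1 / q.out.1 := by
        rw [div_eq_mul_inv, mul_comm]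
        rfl
      rw [h3]
      exact h1
    rw [← QuotientGroup.out_eq' q, ← QuotientGroup.out_eq' q']
    exact QuotientGroup.eq.2 h2
  have hfq : Finite (S ⧸ T.subgroupOf S) := Finite.of_injective _ hle
  rw [Subgroup.relIndex, Subgroup.index]
  exact ⟨Nat.card_pos.ne', Nat.card_le_card_of_injective _ hle⟩

end MP72e2e6
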