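import Pool.Agent.Lib.MP_72e2e6_nt.TwStmt

/-!
# MP_72e2e6_nt: TwPrime, a prime with prescribed quadratic symbols
-/

namespace MP72e2e6

open Polynomial

universe u

/-- The sign of an element of `ZMod 2`. -/
def twprime_sgn (x : ZMod 2) : ℤ := if x = 0 then 1 else -1

theorem twprime_sgn_add (x y : ZMod 2) :
    twprime_sgn (x + y) = twprime_sgn x * twprime_sgn y := by
  revert x y
  decide

theorem twprime_sgn_or (x : ZMod 2) : twprime_sgn x = 1 ∨ twprime_sgn x = -1 := by
  revert x
  decide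

theorem twprime_sgn_ne (x y : ZMod 2) (h : x ≠ y) :
    1 + twprime_sgn x * twprime_sgn y = 0 := by
  revert x y
  decide

theorem twprime_sgn_ne0 (x : ZMod 2) (h : x ≠ 0) : 1 + twprime_sgn x = 0 := by
  revert x
  decide

theorem twprime_neg_one_pow (n : ℕ) : (-1 : ℤ) ^ n = twprime_sgn (n : ZMod 2) := by
  induction n with
  | zero => simp [twprime_sgn]
  | succ n ih =>
    rw [pow_succ, ih]
    push_cast
    rw [twprime_sgn_add]
    rfl

theorem twprime_geom (q : ℝ) (hq : 2 ≤ q) (M : ℕ) :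
    ∑ k ∈ Finset.Icc 1 M, 1 / q ^ k ≤ 1 - 1 / q ^ M := by
  induction M with
  | zero => simp
  | succ M ih =>
    rw [Finset.sum_Icc_succ_top (by omega)]
    have hq0 : (0 : ℝ) < q := by linarith
    have h1 : 1 / q ^ (M + 1) + 1 / q ^ (M + 1) ≤ 1 / q ^ M := by
      rw [← add_div, div_le_div_iff₀ (by positivity) (by positivity), pow_succ]
      have : 0 < q ^ M := by positivity
      nlinarith
    linarith

theorem twprime_alt (M : ℕ) : |∑ k ∈ Finset.Icc 1 M, (-1 : ℝ) ^ k| ≤ 1 := by
  have h : ∑ k ∈ Finset.Icc 1 M, (-1 : ℝ) ^ k = if Even M then 0 else -1 := by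
    induction M with
    | zero => simp
    | succ M ih =>
      rw [Finset.sum_Icc_succ_top (by omega), ih]
      by_cases hM : Even M
      · have h2 : ¬ Even (M + 1) := by
          rw [Nat.even_add_one]
          exact not_not.mpr hM
        rw [if_pos hM, if_neg h2, pow_succ, hM.neg_one_pow]
        norm_num
      · have h2 : Even (M + 1) := by
          rw [Nat.even_add_one]
          exact hM
        rw [if_neg hM, if_pos h2, h2.neg_one_pow]
        norm_num
  rw [h]
  split_ifs <;> norm_num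

section main

variable {F : Type u} [Field F] [Finite F] {ι : Type} [Fintype ι]

/-- The characters. -/
noncomputable def twprime_chi (pr : ι → F[X]) (p : Finset ι × Bool) (h : F[X]) : ℤ :=
  (∏ b ∈ p.1, leg (pr b) h) * (if p.2 then (-1) ^ h.natDegree else 1)

/-- The signs. -/
noncomputable def twprime_sig (t : ι → ZMod 2) (θ : ZMod 2) (p : Finset ι × Bool) : ℤ :=
  (∏ b ∈ p.1, twprime_sgn (t b)) * (if p.2 then twprime_sgn θ else 1)

theorem twprime_expand (t : ι → ZMod 2) (θ : ZMod 2) (a : ι → ℤ) (c : ℤ) :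
    ∑ p : Finset ι × Bool, twprime_sig t θ p * ((∏ b ∈ p.1, a b) * (if p.2 then c else 1)) =
      (∏ b, (1 + twprime_sgn (t b) * a b)) * (1 + twprime_sgn θ * c) := by
  classical
  rw [Fintype.sum_prod_type]
  have h1 : ∀ T : Finset ι, ∑ η : Bool, twprime_sig t θ (T, η) *
      ((∏ b ∈ T, a b) * (if η then c else 1)) =
      (∏ b ∈ T, twprime_sgn (t b) * a b) * (1 + twprime_sgn θ * c) := by
    intro T
    rw [Fintype.sum_bool]
    unfold twprime_sig
    simp only [if_true, Bool.false_eq_true, if_false]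
    rw [Finset.prod_mul_distrib]
    ring
  have h2 : ∀ T : Finset ι, ∑ η : Bool, twprime_sig t θ (T, η) *
      ((∏ b ∈ (T, η).1, a b) * (if (T, η).2 then c else 1)) =
      (∏ b ∈ T, twprime_sgn (t b) * a b) * (1 + twprime_sgn θ * c) := h1
  rw [Finset.sum_congr rfl fun T _ => h2 T, ← Finset.sum_mul, Finset.prod_one_add,
    Finset.powerset_univ]

theorem twprime_leg (hSy : StmtTwSy.{u}) (hF : Odd (Nat.card F)) (P : F[X]) (hP : P.Monic)
    (hi : Irreducible P) :
    (∀ h : F[X], ¬ P ∣ h → leg P h = twprime_sgn (sy P h)) ∧ leg P 1 = 1 ∧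
    (∀ g h : F[X], leg P (g * h) = leg P g * leg P h) ∧
    ∀ h : F[X], leg P h = 0 ∨ leg P h = 1 ∨ leg P h = -1 := by
  classical
  obtain ⟨hB, hC, -⟩ := (hSy F hF).2 P hP hi
  have h1 : ∀ h : F[X], ¬ P ∣ h → leg P h = twprime_sgn (sy P h) := by
    intro h hh
    have h2 := (hC h hh).2
    unfold leg twprime_sgn
    rw [if_neg hh]
    by_cases h3 : IsSquare (AdjoinRoot.mk P h)
    · rw [if_pos h3, if_pos (h2.mpr h3)]
    · rw [if_neg h3, if_neg (fun h4 => h3 (h2.mp h4))]
  have h10 : ¬ P ∣ 1 := fun h => hi.not_isUnit (isUnit_of_dvd_one h)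
  refine ⟨h1, ?_, ?_, ?_⟩
  · unfold leg
    rw [if_neg h10, if_pos]
    rw [map_one]
    exact ⟨1, by simp⟩
  · intro g h
    by_cases hg : P ∣ g
    · have : leg P g = 0 := by
        unfold leg
        rw [if_pos hg]
      rw [this, zero_mul]
      unfold leg
      rw [if_pos (hg.mul_right h)]
    · by_cases hh : P ∣ h
      · have : leg P h = 0 := by
          unfold leg
          rw [if_pos hh]
        rw [this, mul_zero]
        unfold leg
        rw [if_pos (hh.mul_left g)]
      · have hgh : ¬ P ∣ g * h := by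
          intro h2
          rcases hi.prime.dvd_or_dvd h2 with h3 | h3
          · exact hg h3
          · exact hh h3
        have hg0 : g ≠ 0 := by
          rintro rfl
          exact hg (dvd_zero _)
        have hh0 : h ≠ 0 := by
          rintro rfl
          exact hh (dvd_zero _)
        rw [h1 _ hgh, h1 _ hg, h1 _ hh, (hB g h hg0 hh0).2, twprime_sgn_add]
  · intro h
    by_cases hh : P ∣ h
    · left
      unfold leg
      rw [if_pos hh]
    · right
      rw [h1 h hh]
      exact twprime_sgn_or _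

theorem twprime_val_mul {x y : ℤ} (hx : x = 0 ∨ x = 1 ∨ x = -1) (hy : y = 0 ∨ y = 1 ∨ y = -1) :
    x * y = 0 ∨ x * y = 1 ∨ x * y = -1 := by
  rcases hx with rfl | rfl | rfl <;> rcases hy with rfl | rfl | rfl <;> simp

theorem twprime_isChar (hSy : StmtTwSy.{u}) (hF : Odd (Nat.card F)) (pr : ι → F[X])
    (hpr : Fam pr) (p : Finset ι × Bool) : IsChar (twprime_chi pr p) := by
  classical
  have hl := fun b => twprime_leg hSy hF (pr b) (hpr.monic b) (hpr.irr b)
  refine ⟨?_, ?_, ?_⟩
  · unfold twprime_chi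
    rw [Finset.prod_congr rfl fun b _ => (hl b).2.1, Finset.prod_const_one, one_mul]
    split_ifs <;> simp
  · intro g h hg hh
    unfold twprime_chi
    rw [Finset.prod_congr rfl fun b _ => (hl b).2.2.1 g h, Finset.prod_mul_distrib,
      hg.natDegree_mul hh]
    split_ifs
    · rw [pow_add]
      ring
    · ring
  · intro h
    unfold twprime_chi
    refine twprime_val_mul ?_ ?_
    · refine Finset.prod_induction (fun b => leg (pr b) h) (fun x => x = 0 ∨ x = 1 ∨ x = -1)
        (fun x y hx hy => twprime_val_mul hx hy) (by simp) (fun b _ => (hl b).2.2.2 h)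
    · split_ifs
      · rcases neg_one_pow_eq_or ℤ h.natDegree with h1 | h1
        · rw [h1]
          simp
        · rw [h1]
          simp
      · simp

/-- The weight of `P ^ j`. -/
noncomputable def twprime_W (pr : ι → F[X]) (t : ι → ZMod 2) (θ : ZMod 2) (P : F[X]) (j : ℕ) : ℤ :=
  (∏ b, (1 + twprime_sgn (t b) * leg (pr b) P ^ j)) *
    (1 + twprime_sgn θ * ((-1) ^ P.natDegree) ^ j)

theorem twprime_W_eq (pr : ι → F[X]) (t : ι → ZMod 2) (θ : ZMod 2) (P : F[X]) (j : ℕ) :
    ∑ p : Finset ι × Bool, twprime_sig t θ p * twprime_chi pr p P ^ j = twprime_W pr t θ P j := by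
  unfold twprime_W
  rw [← twprime_expand]
  refine Finset.sum_congr rfl fun p _ => ?_
  unfold twprime_chi
  rw [mul_pow, Finset.prod_pow, ite_pow, one_pow]

theorem twprime_W_le (hSy : StmtTwSy.{u}) (hF : Odd (Nat.card F)) (pr : ι → F[X])
    (hpr : Fam pr) (t : ι → ZMod 2) (θ : ZMod 2) (P : F[X]) (j : ℕ) :
    |twprime_W pr t θ P j| ≤ 2 ^ (Fintype.card ι + 1) := by
  have hl := fun b => twprime_leg hSy hF (pr b) (hpr.monic b) (hpr.irr b)
  have hs : ∀ (x : ZMod 2) (y : ℤ), |y| ≤ 1 → |1 + twprime_sgn x * y| ≤ 2 := by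
    intro x y hy
    rcases twprime_sgn_or x with h | h <;> rw [h] <;> rw [abs_le] at hy ⊢ <;> constructor <;>
      linarith [hy.1, hy.2]
  unfold twprime_W
  rw [abs_mul, pow_succ]
  refine mul_le_mul ?_ ?_ (abs_nonneg _) (by positivity)
  · rw [Finset.abs_prod]
    calc ∏ b, |1 + twprime_sgn (t b) * leg (pr b) P ^ j| ≤ ∏ _b : ι, (2 : ℤ) := by
          refine Finset.prod_le_prod (fun b _ => abs_nonneg _) fun b _ => hs _ _ ?_
          rw [abs_pow]
          refine pow_le_one₀ (abs_nonneg _) ?_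
          rcases (hl b).2.2.2 P with h | h | h <;> rw [h] <;> simp
      _ = 2 ^ Fintype.card ι := by
          rw [Finset.prod_const, Finset.card_univ]
  · refine hs _ _ ?_
    rw [abs_pow, abs_pow]
    simp

theorem twprime_W_zero (hSy : StmtTwSy.{u}) (hF : Odd (Nat.card F)) (pr : ι → F[X])
    (hpr : Fam pr) (t : ι → ZMod 2) (θ : ZMod 2) (h0 : θ ≠ 0 ∨ ∃ b, t b ≠ 0) (P : F[X])
    (hP : P.Monic) (hi : Irreducible P) (hne : ∀ b, pr b ≠ P)
    (hno : ¬ ((P.natDegree : ZMod 2) = θ ∧ ∀ b, sy (pr b) P = t b)) (j : ℕ) :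
    twprime_W pr t θ P j = 0 := by
  have hl := fun b => twprime_leg hSy hF (pr b) (hpr.monic b) (hpr.irr b)
  have hdvd : ∀ b, ¬ pr b ∣ P := by
    intro b h
    apply hne b
    exact eq_of_monic_of_associated (hpr.monic b) hP
      (((hpr.irr b).dvd_irreducible_iff_associated hi).mp h)
  have hleg : ∀ b, leg (pr b) P = twprime_sgn (sy (pr b) P) := fun b => (hl b).1 P (hdvd b)
  have hsq : ∀ x : ZMod 2, twprime_sgn x ^ 2 = 1 := by decide
  unfold twprime_W
  rcases Nat.even_or_odd' j with ⟨c, hc | hc⟩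
  · have h1 : ∀ b, leg (pr b) P ^ j = 1 := by
      intro b
      rw [hleg, hc, pow_mul, hsq, one_pow]
    have h2 : ((-1 : ℤ) ^ P.natDegree) ^ j = 1 := by
      rw [twprime_neg_one_pow, hc, pow_mul, hsq, one_pow]
    rw [h2]
    rcases h0 with h0 | ⟨b, hb⟩
    · rw [mul_one, twprime_sgn_ne0 θ h0, mul_zero]
    · rw [Finset.prod_eq_zero (Finset.mem_univ b), zero_mul]
      rw [h1, mul_one, twprime_sgn_ne0 _ hb]
  · have h1 : ∀ b, leg (pr b) P ^ j = leg (pr b) P := by
      intro b
      rw [hleg, hc, pow_succ, pow_mul, hsq, one_pow, one_mul]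
    have h2 : ((-1 : ℤ) ^ P.natDegree) ^ j = (-1) ^ P.natDegree := by
      rw [twprime_neg_one_pow, hc, pow_succ, pow_mul, hsq, one_pow, one_mul]
    rw [h2]
    by_cases h3 : (P.natDegree : ZMod 2) = θ
    · have h4 : ∃ b, sy (pr b) P ≠ t b := by
        by_contra hcon
        push Not at hcon
        exact hno ⟨h3, hcon⟩
      obtain ⟨b, hb⟩ := h4
      rw [Finset.prod_eq_zero (Finset.mem_univ b), zero_mul]
      rw [h1, hleg, twprime_sgn_ne _ _ hb.symm]
    · rw [twprime_neg_one_pow, twprime_sgn_ne _ _ (Ne.symm h3), mul_zero]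

theorem twprime_mem_irr {d : ℕ} {P : F[X]} :
    P ∈ irr F d ↔ (P.Monic ∧ P.natDegree = d) ∧ Irreducible P := by
  classical
  unfold irr
  simp only [Finset.mem_filter, mem_mon]

theorem twprime_psi_bound (hSy : StmtTwSy.{u}) (hF : Odd (Nat.card F)) (pr : ι → F[X])
    (hpr : Fam pr) (t : ι → ZMod 2) (θ : ZMod 2) (h0 : θ ≠ 0 ∨ ∃ b, t b ≠ 0)
    (hno : ∀ P : F[X], P.Monic → Irreducible P → (∀ b, pr b ≠ P) →
      ¬ ((P.natDegree : ZMod 2) = θ ∧ ∀ b, sy (pr b) P = t b)) (k : ℕ) :
    |∑ p : Finset ι × Bool, twprime_sig t θ p * psi (twprime_chi pr p) k| ≤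
      ∑ b, ((pr b).natDegree : ℤ) * 2 ^ (Fintype.card ι + 1) := by
  classical
  have e1 : ∑ p : Finset ι × Bool, twprime_sig t θ p * psi (twprime_chi pr p) k =
      ∑ d ∈ k.divisors, ∑ P ∈ irr F d, (d : ℤ) * twprime_W pr t θ P (k / d) := by
    unfold psi
    simp_rw [Finset.mul_sum]
    rw [Finset.sum_comm]
    refine Finset.sum_congr rfl fun d _ => ?_
    rw [Finset.sum_comm]
    refine Finset.sum_congr rfl fun P _ => ?_
    rw [← twprime_W_eq, Finset.mul_sum]
    refine Finset.sum_congr rfl fun p _ => ?_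
    ring
  rw [e1]
  have e2 : ∀ d ∈ k.divisors, ∀ P ∈ irr F d, |(d : ℤ) * twprime_W pr t θ P (k / d)| ≤
      ∑ b, if pr b = P then ((pr b).natDegree : ℤ) * 2 ^ (Fintype.card ι + 1) else 0 := by
    intro d _ P hP
    obtain ⟨⟨hP1, hP2⟩, hP3⟩ := twprime_mem_irr.mp hP
    by_cases hr : ∃ b, pr b = P
    · obtain ⟨b, hb⟩ := hr
      have h1 : ((pr b).natDegree : ℤ) * 2 ^ (Fintype.card ι + 1) ≤
          ∑ b, if pr b = P then ((pr b).natDegree : ℤ) * 2 ^ (Fintype.card ι + 1) else 0 := by
        have h2 := Finset.single_le_sum (f := fun b => if pr b = P then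
          ((pr b).natDegree : ℤ) * 2 ^ (Fintype.card ι + 1) else 0) (s := Finset.univ)
          (fun b _ => by
            split_ifs
            · positivity
            · exact le_rfl) (Finset.mem_univ b)
        rw [if_pos hb] at h2
        exact h2
      refine le_trans ?_ h1
      rw [hb, hP2, abs_mul, Nat.abs_cast]
      exact mul_le_mul_of_nonneg_left (twprime_W_le hSy hF pr hpr t θ P _) (by positivity)
    · push Not at hr
      rw [twprime_W_zero hSy hF pr hpr t θ h0 P hP1 hP3 hr (hno P hP1 hP3 hr), mul_zero, abs_zero]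
      refine Finset.sum_nonneg fun b _ => ?_
      split_ifs
      · positivity
      · exact le_rfl
  calc |∑ d ∈ k.divisors, ∑ P ∈ irr F d, (d : ℤ) * twprime_W pr t θ P (k / d)|
      ≤ ∑ d ∈ k.divisors, |∑ P ∈ irr F d, (d : ℤ) * twprime_W pr t θ P (k / d)| :=
        Finset.abs_sum_le_sum_abs _ _
    _ ≤ ∑ d ∈ k.divisors, ∑ P ∈ irr F d, |(d : ℤ) * twprime_W pr t θ P (k / d)| :=
        Finset.sum_le_sum fun d _ => Finset.abs_sum_le_sum_abs _ _
    _ ≤ ∑ d ∈ k.divisors, ∑ P ∈ irr F d,
        ∑ b, (if pr b = P then ((pr b).natDegree : ℤ) * 2 ^ (Fintype.card ι + 1) else 0) :=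
        Finset.sum_le_sum fun d hd => Finset.sum_le_sum fun P hP => e2 d hd P hP
    _ = ∑ b, ∑ d ∈ k.divisors, ∑ P ∈ irr F d,
        (if pr b = P then ((pr b).natDegree : ℤ) * 2 ^ (Fintype.card ι + 1) else 0) := by
        rw [Finset.sum_congr rfl fun d _ => Finset.sum_comm, Finset.sum_comm]
    _ ≤ ∑ b, ((pr b).natDegree : ℤ) * 2 ^ (Fintype.card ι + 1) := by
        refine Finset.sum_le_sum fun b _ => ?_
        have h3 : ∀ d ∈ k.divisors, ∑ P ∈ irr F d,
            (if pr b = P then ((pr b).natDegree : ℤ) * 2 ^ (Fintype.card ι + 1) else 0) =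
            if (pr b).natDegree = d then
              ((pr b).natDegree : ℤ) * 2 ^ (Fintype.card ι + 1) else 0 := by
          intro d _
          rw [Finset.sum_ite_eq]
          by_cases h4 : (pr b).natDegree = d
          · rw [if_pos h4, if_pos (twprime_mem_irr.mpr ⟨⟨hpr.monic b, h4⟩, hpr.irr b⟩)]
          · rw [if_neg h4, if_neg (fun h5 => h4 (twprime_mem_irr.mp h5).1.2)]
        rw [Finset.sum_congr rfl h3, Finset.sum_ite_eq]
        split_ifs
        · exact le_rfl
        · positivity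

open Classical in
/-- The main term. -/
noncomputable def twprime_ind (p : Finset ι × Bool) (M : ℝ) : ℝ :=
  if p = (∅, false) then M else 0

omit [Fintype ι] in
theorem twprime_ind_self (M : ℝ) : twprime_ind (ι := ι) (∅, false) M = M := by
  unfold twprime_ind
  rw [if_pos rfl]

omit [Fintype ι] in
theorem twprime_ind_ne (p : Finset ι × Bool) (M : ℝ) (h : p ≠ (∅, false)) :
    twprime_ind p M = 0 := by
  unfold twprime_ind
  rw [if_neg h]

theorem twprime_bdd (hSy : StmtTwSy.{u}) (hPsi : StmtTwPsi.{u}) (hBdd : StmtTwBdd.{u})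
    (hZero : StmtTwZero.{u}) (hF : Odd (Nat.card F)) (pr : ι → F[X])
    (hpr : Fam pr) (p : Finset ι × Bool) :
    ∃ B : ℝ, ∀ M : ℕ, |∑ k ∈ Finset.Icc 1 M, (psi (twprime_chi pr p) k : ℝ) /
      (Nat.card F : ℝ) ^ k - twprime_ind p (M : ℝ)| ≤ B := by
  classical
  have hq : (1 : ℝ) < Nat.card F := by
    exact_mod_cast Finite.one_lt_card
  obtain ⟨-, hp1, -, hp2⟩ := hPsi F
  obtain ⟨T, η⟩ := p
  by_cases hT : T = ∅
  · subst hT
    cases η with
    | false =>
      refine ⟨0, fun M => ?_⟩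
      have h1 : twprime_chi pr (∅, false) = fun _ => 1 := by
        funext h
        unfold twprime_chi
        simp
      rw [h1, twprime_ind_self]
      have h2 : ∀ k ∈ Finset.Icc 1 M, (psi (fun _ : F[X] => (1 : ℤ)) k : ℝ) /
          (Nat.card F : ℝ) ^ k = 1 := by
        intro k hk
        rw [hp1 k (Finset.mem_Icc.mp hk).1]
        push_cast
        exact div_self (by positivity)
      rw [Finset.sum_congr rfl h2]
      simp
    | true =>
      refine ⟨1, fun M => ?_⟩
      have h1 : twprime_chi pr (∅, true) = fun h => (-1) ^ h.natDegree := by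
        funext h
        unfold twprime_chi
        simp
      rw [h1, twprime_ind_ne _ _ (by simp), sub_zero]
      have h2 : ∀ k ∈ Finset.Icc 1 M, (psi (fun h : F[X] => (-1 : ℤ) ^ h.natDegree) k : ℝ) /
          (Nat.card F : ℝ) ^ k = (-1) ^ k := by
        intro k hk
        rw [hp2 k (Finset.mem_Icc.mp hk).1]
        push_cast
        rw [mul_div_assoc, div_self (by positivity), mul_one]
      rw [Finset.sum_congr rfl h2]
      exact twprime_alt M
  · have hchar := twprime_isChar hSy hF pr hpr (T, η)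
    obtain ⟨B, hB⟩ := hBdd F (twprime_chi pr (T, η)) hchar (∑ b ∈ T, (pr b).natDegree) (by
      intro n hn
      have h1 := hZero F hF ι pr hpr T (Finset.nonempty_iff_ne_empty.mpr hT) n hn
      unfold av twprime_chi
      have h2 : ∀ h ∈ mon F n, (∏ b ∈ T, leg (pr b) h) *
          (if η = true then (-1 : ℤ) ^ h.natDegree else 1) = (∏ b ∈ T, leg (pr b) h) *
          (if η = true then (-1) ^ n else 1) := by
        intro h hh
        rw [(mem_mon.mp hh).2]
      refine (Finset.sum_congr rfl h2).trans ?_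
      rw [← Finset.sum_mul, h1, zero_mul])
    refine ⟨B, fun M => ?_⟩
    rw [twprime_ind_ne _ _ (by
      intro h
      exact hT (Prod.mk.inj h).1), sub_zero]
    exact hB M

end main

theorem tTwPrime (hSy : StmtTwSy.{u}) (_hMon : StmtTwMon.{u}) (hPsi : StmtTwPsi.{u})
    (hBdd : StmtTwBdd.{u}) (hZero : StmtTwZero.{u}) : StmtTwPrime.{u} := by
  classical
  intro F _ _ hF ι _ pr hpr t θ h0
  by_contra hcon
  have hno : ∀ P : F[X], P.Monic → Irreducible P → (∀ b, pr b ≠ P) →
      ¬ ((P.natDegree : ZMod 2) = θ ∧ ∀ b, sy (pr b) P = t b) := by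
    intro P h1 h2 h3 h4
    exact hcon ⟨P, h1, h2, h3, h4.1, h4.2⟩
  have hq1 : (2 : ℝ) ≤ Nat.card F := by
    have := Finite.one_lt_card (α := F)
    exact_mod_cast this
  choose B hB using fun p => twprime_bdd hSy hPsi hBdd hZero hF pr hpr p
  set q : ℝ := (Nat.card F : ℝ) with hqdef
  set K : ℝ := ∑ b, ((pr b).natDegree : ℝ) * 2 ^ (Fintype.card ι + 1) with hK
  have hK0 : 0 ≤ K := by positivity
  -- the sum
  have hup : ∀ M : ℕ, |∑ p : Finset ι × Bool, (twprime_sig t θ p : ℝ) *
      ∑ k ∈ Finset.Icc 1 M, (psi (twprime_chi pr p) k : ℝ) / q ^ k| ≤ K := by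
    intro M
    have e1 : ∑ p : Finset ι × Bool, (twprime_sig t θ p : ℝ) *
        ∑ k ∈ Finset.Icc 1 M, (psi (twprime_chi pr p) k : ℝ) / q ^ k =
        ∑ k ∈ Finset.Icc 1 M, ((∑ p : Finset ι × Bool, twprime_sig t θ p *
          psi (twprime_chi pr p) k : ℤ) : ℝ) / q ^ k := by
      simp_rw [Finset.mul_sum]
      rw [Finset.sum_comm]
      refine Finset.sum_congr rfl fun k _ => ?_
      push_cast
      rw [Finset.sum_div]
      refine Finset.sum_congr rfl fun p _ => ?_
      ring
    rw [e1]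
    calc |∑ k ∈ Finset.Icc 1 M, ((∑ p : Finset ι × Bool, twprime_sig t θ p *
          psi (twprime_chi pr p) k : ℤ) : ℝ) / q ^ k|
        ≤ ∑ k ∈ Finset.Icc 1 M, |((∑ p : Finset ι × Bool, twprime_sig t θ p *
          psi (twprime_chi pr p) k : ℤ) : ℝ) / q ^ k| := Finset.abs_sum_le_sum_abs _ _
      _ ≤ ∑ k ∈ Finset.Icc 1 M, K * (1 / q ^ k) := by
          refine Finset.sum_le_sum fun k _ => ?_
          have hqk : (0 : ℝ) < q ^ k := by positivity
          rw [abs_div, abs_of_pos hqk, mul_one_div]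
          refine div_le_div_of_nonneg_right ?_ hqk.le
          have h1 := twprime_psi_bound hSy hF pr hpr t θ h0 hno k
          have h2 : ((|∑ p : Finset ι × Bool, twprime_sig t θ p *
            psi (twprime_chi pr p) k| : ℤ) : ℝ) ≤
            ((∑ b, ((pr b).natDegree : ℤ) * 2 ^ (Fintype.card ι + 1) : ℤ) : ℝ) := by
            exact_mod_cast h1
          rw [Int.cast_abs] at h2
          refine h2.trans (le_of_eq ?_)
          rw [hK]
          push_cast
          rfl
      _ = K * ∑ k ∈ Finset.Icc 1 M, 1 / q ^ k := by rw [Finset.mul_sum]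
      _ ≤ K * 1 := by
          refine mul_le_mul_of_nonneg_left ?_ hK0
          have h1 := twprime_geom q hq1 M
          have h2 : 0 < 1 / q ^ M := by positivity
          linarith
      _ = K := mul_one K
  have hsig : ∀ p, |(twprime_sig t θ p : ℝ)| = 1 := by
    intro p
    have h1 : |twprime_sig t θ p| = 1 := by
      unfold twprime_sig
      rw [abs_mul, Finset.abs_prod]
      have h2 : ∀ b ∈ p.1, |twprime_sgn (t b)| = 1 := by
        intro b _
        rcases twprime_sgn_or (t b) with h | h <;> rw [h] <;> simp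
      rw [Finset.prod_congr rfl h2, Finset.prod_const_one, one_mul]
      split_ifs
      · rcases twprime_sgn_or θ with h | h <;> rw [h] <;> simp
      · simp
    rw [← Int.cast_abs, h1, Int.cast_one]
  have hlow : ∀ M : ℕ, (M : ℝ) - ∑ p : Finset ι × Bool, B p ≤
      ∑ p : Finset ι × Bool, (twprime_sig t θ p : ℝ) *
      ∑ k ∈ Finset.Icc 1 M, (psi (twprime_chi pr p) k : ℝ) / q ^ k := by
    intro M
    have e1 : (M : ℝ) = ∑ p : Finset ι × Bool, (twprime_sig t θ p : ℝ) *
        twprime_ind p (M : ℝ) := by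
      rw [Finset.sum_eq_single (∅, false)]
      · rw [twprime_ind_self]
        unfold twprime_sig
        simp
      · intro b _ hb
        rw [twprime_ind_ne _ _ hb, mul_zero]
      · intro h
        exact absurd (Finset.mem_univ _) h
    have e2 : ∑ p : Finset ι × Bool, ((twprime_sig t θ p : ℝ) *
        twprime_ind p (M : ℝ) - (twprime_sig t θ p : ℝ) *
        ∑ k ∈ Finset.Icc 1 M, (psi (twprime_chi pr p) k : ℝ) / q ^ k) ≤
        ∑ p : Finset ι × Bool, B p := by
      refine Finset.sum_le_sum fun p _ => ?_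
      rw [← mul_sub]
      refine (le_abs_self _).trans ?_
      rw [abs_mul, hsig, one_mul, abs_sub_comm]
      exact hB p M
    rw [Finset.sum_sub_distrib, ← e1] at e2
    linarith
  obtain ⟨M, hM⟩ := exists_nat_gt (K + ∑ p : Finset ι × Bool, B p)
  have h1 := hup M
  have h2 := hlow M
  have h3 := (le_abs_self _).trans h1
  linarith

end MP72e2e6
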