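import Pool.Agent.Lib.MP_72e2e6_nt.SuStmt
import Pool.Agent.Lib.MP_72e2e6_nt.TwPrime

/-!
# MP_72e2e6_nt: SuPrime, a prime with prescribed power residue symbols and degree
-/

namespace MP72e2e6

open Polynomial

universe u

/-- zero or a root of unity -/
def suprime_ru (ℓ : ℕ) (z : ℂ) : Prop := z = 0 ∨ z ^ ℓ = 1

theorem suprime_ru_one (ℓ : ℕ) : suprime_ru ℓ 1 := Or.inr (one_pow ℓ)

theorem suprime_ru_mul {ℓ : ℕ} {x y : ℂ} (hx : suprime_ru ℓ x) (hy : suprime_ru ℓ y) :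
    suprime_ru ℓ (x * y) := by
  rcases hx with hx | hx
  · left
    rw [hx, zero_mul]
  · rcases hy with hy | hy
    · left
      rw [hy, mul_zero]
    · right
      rw [mul_pow, hx, hy, one_mul]

theorem suprime_ru_norm {ℓ : ℕ} (hℓ : ℓ ≠ 0) {x : ℂ} (hx : suprime_ru ℓ x) : ‖x‖ ≤ 1 := by
  rcases hx with hx | hx
  · rw [hx, norm_zero]
    exact zero_le_one
  · exact (Complex.norm_eq_one_of_pow_eq_one hx hℓ).le

section psi

variable {ℓ : ℕ} [NeZero ℓ]

theorem suprime_std_pow (x : ZMod ℓ) (n : ℕ) :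
    (ZMod.stdAddChar x : ℂ) ^ n = ZMod.stdAddChar ((n : ZMod ℓ) * x) := by
  rw [← AddChar.map_nsmul_eq_pow, nsmul_eq_mul]

theorem suprime_std_ell (x : ZMod ℓ) : (ZMod.stdAddChar x : ℂ) ^ ℓ = 1 := by
  rw [suprime_std_pow, ZMod.natCast_self, zero_mul, AddChar.map_zero_eq_one]

theorem suprime_std_norm (x : ZMod ℓ) : ‖(ZMod.stdAddChar x : ℂ)‖ = 1 :=
  Complex.norm_eq_one_of_pow_eq_one (suprime_std_ell x) (NeZero.ne ℓ)

theorem suprime_std_ne {x : ZMod ℓ} (hx : x ≠ 0) : (ZMod.stdAddChar x : ℂ) ≠ 1 := by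
  intro h
  rw [← AddChar.map_zero_eq_one (ZMod.stdAddChar (N := ℓ))] at h
  exact hx (ZMod.injective_stdAddChar h)

theorem suprime_std_sum {κ : Type} (T : Finset κ) (f : κ → ZMod ℓ) :
    (∏ b ∈ T, ZMod.stdAddChar (f b) : ℂ) = ZMod.stdAddChar (∑ b ∈ T, f b) := by
  classical
  induction T using Finset.induction_on with
  | empty => rw [Finset.prod_empty, Finset.sum_empty, AddChar.map_zero_eq_one]
  | insert a T ha ih =>
    rw [Finset.prod_insert ha, Finset.sum_insert ha, AddChar.map_add_eq_mul, ih]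

end psi

section main

variable {F : Type u} [Field F] [Finite F] {ι : Type} [Fintype ι] [DecidableEq ι] {ℓ : ℕ} [NeZero ℓ]

/-- The characters. -/
noncomputable def suprime_chi (χ : F → ZMod ℓ) (pr : ι → F[X]) (p : (ι → ZMod ℓ) × ZMod ℓ)
    (h : F[X]) : ℂ :=
  (ZMod.stdAddChar p.2 : ℂ) ^ h.natDegree *
    ∏ b ∈ Finset.univ.filter (fun b => p.1 b ≠ 0), lgc χ (p.1 b) (pr b) h

/-- The coefficients. -/
noncomputable def suprime_sig (t : ι → ZMod ℓ) (θ : ZMod ℓ) (p : (ι → ZMod ℓ) × ZMod ℓ) : ℂ :=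
  ZMod.stdAddChar (-(∑ b, p.1 b * t b + p.2 * θ))

theorem suprime_lgc (hSy : StmtSuSy.{u}) (hℓ : ℓ.Prime) (hd : ℓ ∣ Nat.card F - 1)
    (χ : F → ZMod ℓ) (hχ : IsLg ℓ χ) (P : F[X]) (hP : P.Monic) (hi : Irreducible P) :
    (∀ (s : ZMod ℓ) (h : F[X]), ¬ P ∣ h → lgc χ s P h = ZMod.stdAddChar (s * syl χ P h)) ∧
    (∀ s : ZMod ℓ, lgc χ s P 1 = 1) ∧
    (∀ (s : ZMod ℓ) (g h : F[X]), lgc χ s P (g * h) = lgc χ s P g * lgc χ s P h) ∧
    (∀ (s : ZMod ℓ) (h : F[X]), suprime_ru ℓ (lgc χ s P h)) ∧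
    ∀ (s : ZMod ℓ) (h : F[X]) (j : ℕ), 1 ≤ j → lgc χ s P h ^ j = lgc χ (j * s) P h := by
  classical
  obtain ⟨hB, hC, -⟩ := (hSy F ℓ hℓ hd χ hχ).2.2 P hP hi
  have h1 : ∀ (s : ZMod ℓ) (h : F[X]), ¬ P ∣ h →
      lgc χ s P h = ZMod.stdAddChar (s * syl χ P h) := by
    intro s h hh
    unfold lgc
    rw [if_neg hh, (hC h hh).2.2.1]
  have h0 : ∀ (s : ZMod ℓ) (h : F[X]), P ∣ h → lgc χ s P h = 0 := by
    intro s h hh
    unfold lgc
    rw [if_pos hh]
  have h10 : ¬ P ∣ 1 := fun h => hi.not_isUnit (isUnit_of_dvd_one h)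
  refine ⟨h1, ?_, ?_, ?_, ?_⟩
  · intro s
    have h2 := (hB 1 1 one_ne_zero one_ne_zero).2
    rw [mul_one] at h2
    rw [h1 s 1 h10, left_eq_add.1 h2, mul_zero, AddChar.map_zero_eq_one]
  · intro s g h
    by_cases hg : P ∣ g
    · rw [h0 s g hg, zero_mul, h0 s _ (hg.mul_right h)]
    · by_cases hh : P ∣ h
      · rw [h0 s h hh, mul_zero, h0 s _ (hh.mul_left g)]
      · have hgh : ¬ P ∣ g * h := by
          intro h2
          rcases hi.prime.dvd_or_dvd h2 with h3 | h3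
          · exact hg h3
          · exact hh h3
        have hg0 : g ≠ 0 := by
          rintro rfl
          exact hg (dvd_zero _)
        have hh0 : h ≠ 0 := by
          rintro rfl
          exact hh (dvd_zero _)
        rw [h1 s _ hgh, h1 s _ hg, h1 s _ hh, (hB g h hg0 hh0).2, mul_add,
          AddChar.map_add_eq_mul]
  · intro s h
    by_cases hh : P ∣ h
    · left
      exact h0 s h hh
    · right
      rw [h1 s h hh]
      exact suprime_std_ell _
  · intro s h j hj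
    by_cases hh : P ∣ h
    · rw [h0 s h hh, h0 _ h hh, zero_pow (by omega)]
    · rw [h1 s h hh, h1 _ h hh, suprime_std_pow, mul_assoc]

theorem suprime_isCh (hSy : StmtSuSy.{u}) (hℓ : ℓ.Prime) (hd : ℓ ∣ Nat.card F - 1)
    (χ : F → ZMod ℓ) (hχ : IsLg ℓ χ) (pr : ι → F[X]) (hpr : Fam pr)
    (p : (ι → ZMod ℓ) × ZMod ℓ) : IsChL ℓ (suprime_chi χ pr p) := by
  classical
  have hl := fun b => suprime_lgc hSy hℓ hd χ hχ (pr b) (hpr.monic b) (hpr.irr b)
  refine ⟨?_, ?_, ?_⟩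
  · unfold suprime_chi
    rw [Finset.prod_congr rfl fun b _ => (hl b).2.1 (p.1 b), Finset.prod_const_one, mul_one,
      natDegree_one, pow_zero]
  · intro g h hg hh
    unfold suprime_chi
    rw [Finset.prod_congr rfl fun b _ => (hl b).2.2.1 (p.1 b) g h, Finset.prod_mul_distrib,
      hg.natDegree_mul hh, pow_add]
    ring
  · intro h
    unfold suprime_chi
    refine suprime_ru_mul (Or.inr ?_) ?_
    · rw [← pow_mul, mul_comm, pow_mul, suprime_std_ell, one_pow]
    · exact Finset.prod_induction (fun b => lgc χ (p.1 b) (pr b) h) (suprime_ru ℓ)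
        (fun x y hx hy => suprime_ru_mul hx hy) (suprime_ru_one ℓ)
        (fun b _ => (hl b).2.2.2.1 (p.1 b) h)

/-- The weight of `P ^ j`. -/
noncomputable def suprime_W (χ : F → ZMod ℓ) (pr : ι → F[X]) (t : ι → ZMod ℓ) (θ : ZMod ℓ)
    (P : F[X]) (j : ℕ) : ℂ :=
  ∑ p : (ι → ZMod ℓ) × ZMod ℓ, suprime_sig t θ p * suprime_chi χ pr p P ^ j

/-- the number of the characters -/
noncomputable def suprime_K (ι : Type) [Fintype ι] [DecidableEq ι] (ℓ : ℕ) [NeZero ℓ] : ℝ :=
  (Fintype.card ((ι → ZMod ℓ) × ZMod ℓ) : ℝ)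

theorem suprime_K_nonneg : 0 ≤ suprime_K ι ℓ := by
  unfold suprime_K
  positivity

theorem suprime_W_le (hSy : StmtSuSy.{u}) (hℓ : ℓ.Prime) (hd : ℓ ∣ Nat.card F - 1)
    (χ : F → ZMod ℓ) (hχ : IsLg ℓ χ) (pr : ι → F[X])
    (hpr : Fam pr) (t : ι → ZMod ℓ) (θ : ZMod ℓ) (P : F[X]) (j : ℕ) :
    ‖suprime_W χ pr t θ P j‖ ≤ suprime_K ι ℓ := by
  classical
  unfold suprime_W
  refine (norm_sum_le _ _).trans ?_
  calc ∑ p : (ι → ZMod ℓ) × ZMod ℓ, ‖suprime_sig t θ p * suprime_chi χ pr p P ^ j‖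
      ≤ ∑ _p : (ι → ZMod ℓ) × ZMod ℓ, (1 : ℝ) := by
        refine Finset.sum_le_sum fun p _ => ?_
        rw [norm_mul, norm_pow]
        unfold suprime_sig
        rw [suprime_std_norm, one_mul]
        exact pow_le_one₀ (norm_nonneg _)
          (suprime_ru_norm hℓ.ne_zero ((suprime_isCh hSy hℓ hd χ hχ pr hpr p).val P))
    _ = suprime_K ι ℓ := by
        rw [Finset.sum_const, Finset.card_univ, nsmul_eq_mul, mul_one]
        unfold suprime_K
        rfl

theorem suprime_W_zero (hSy : StmtSuSy.{u}) (hℓ : ℓ.Prime) (hd : ℓ ∣ Nat.card F - 1)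
    (χ : F → ZMod ℓ) (hχ : IsLg ℓ χ) (pr : ι → F[X])
    (hpr : Fam pr) (t : ι → ZMod ℓ) (θ : ZMod ℓ) (P : F[X])
    (hP : P.Monic) (hi : Irreducible P) (hne : ∀ b, pr b ≠ P)
    (hno : ¬ ((P.natDegree : ZMod ℓ) = θ ∧ ∀ b, syl χ (pr b) P = t b)) :
    suprime_W χ pr t θ P 1 = 0 := by
  classical
  have hl := fun b => suprime_lgc hSy hℓ hd χ hχ (pr b) (hpr.monic b) (hpr.irr b)
  have hdvd : ∀ b, ¬ pr b ∣ P := by
    intro b h
    apply hne b
    exact eq_of_monic_of_associated (hpr.monic b) hP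
      (((hpr.irr b).dvd_irreducible_iff_associated hi).mp h)
  -- the linear form
  let L : ((ι → ZMod ℓ) × ZMod ℓ) →+ ZMod ℓ :=
    { toFun := fun p => ∑ b, p.1 b * (syl χ (pr b) P - t b) +
        p.2 * ((P.natDegree : ZMod ℓ) - θ)
      map_zero' := by simp
      map_add' := by
        intro p p'
        simp only [Prod.fst_add, Prod.snd_add, Pi.add_apply, add_mul, Finset.sum_add_distrib]
        ring }
  have e1 : ∀ p : (ι → ZMod ℓ) × ZMod ℓ, suprime_sig t θ p * suprime_chi χ pr p P ^ 1 =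
      (ZMod.stdAddChar (N := ℓ)).compAddMonoidHom L p := by
    intro p
    rw [pow_one]
    unfold suprime_sig suprime_chi
    have e2 : (∏ b ∈ Finset.univ.filter (fun b => p.1 b ≠ 0), lgc χ (p.1 b) (pr b) P) =
        ZMod.stdAddChar (∑ b, p.1 b * syl χ (pr b) P) := by
      rw [Finset.prod_congr rfl fun b _ => (hl b).1 (p.1 b) P (hdvd b), suprime_std_sum]
      congr 1
      rw [Finset.sum_filter]
      refine Finset.sum_congr rfl fun b _ => ?_
      split_ifs with h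
      · rfl
      · rw [not_ne_iff.1 h, zero_mul]
    rw [e2, suprime_std_pow, ← AddChar.map_add_eq_mul, ← AddChar.map_add_eq_mul]
    show ZMod.stdAddChar _ = ZMod.stdAddChar (∑ b, p.1 b * (syl χ (pr b) P - t b) +
        p.2 * ((P.natDegree : ZMod ℓ) - θ))
    congr 1
    simp only [mul_sub, Finset.sum_sub_distrib]
    ring
  unfold suprime_W
  rw [Finset.sum_congr rfl fun p _ => e1 p, AddChar.sum_eq_zero_iff_ne_zero]
  intro h0
  have h1 : ∀ p, (ZMod.stdAddChar (N := ℓ)) (L p) = 1 := by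
    intro p
    have h2 := DFunLike.congr_fun h0 p
    exact h2
  have h2 : ∀ p, L p = 0 := by
    intro p
    by_contra h3
    exact suprime_std_ne h3 (h1 p)
  apply hno
  constructor
  · have h3 : (∑ b : ι, (0 : ZMod ℓ) * (syl χ (pr b) P - t b)) +
        1 * ((P.natDegree : ZMod ℓ) - θ) = 0 := h2 (0, 1)
    simp only [zero_mul, Finset.sum_const_zero, zero_add, one_mul] at h3
    exact sub_eq_zero.1 h3
  · intro b
    have h3 : (∑ b' : ι, (Pi.single b 1 : ι → ZMod ℓ) b' * (syl χ (pr b') P - t b')) +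
        0 * ((P.natDegree : ZMod ℓ) - θ) = 0 := h2 (Pi.single b 1, 0)
    rw [zero_mul, add_zero, Finset.sum_eq_single b] at h3
    · rw [Pi.single_eq_same, one_mul] at h3
      exact sub_eq_zero.1 h3
    · intro b' _ hb'
      rw [Pi.single_eq_of_ne hb', zero_mul]
    · intro h4
      exact absurd (Finset.mem_univ b) h4

theorem suprime_geom_le (q : ℝ) (hq : 2 ≤ q) (n : ℕ) :
    ∑ d ∈ Finset.range (n + 1), q ^ d ≤ 2 * q ^ n := by
  induction n with
  | zero => simp
  | succ n ih =>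
    rw [Finset.sum_range_succ]
    have h1 : 2 * q ^ n ≤ q ^ (n + 1) := by
      rw [pow_succ, mul_comm]
      exact mul_le_mul_of_nonneg_left hq (by positivity)
    linarith

theorem suprime_psi_bound (hSy : StmtSuSy.{u}) (hPsi : StmtSuPsi.{u}) (hℓ : ℓ.Prime)
    (hd : ℓ ∣ Nat.card F - 1) (χ : F → ZMod ℓ) (hχ : IsLg ℓ χ) (pr : ι → F[X])
    (hpr : Fam pr) (t : ι → ZMod ℓ) (θ : ZMod ℓ)
    (hno : ∀ P : F[X], P.Monic → Irreducible P → (∀ b, pr b ≠ P) →
      ¬ ((P.natDegree : ZMod ℓ) = θ ∧ ∀ b, syl χ (pr b) P = t b)) (k : ℕ) (hk : 1 ≤ k) :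
    ‖∑ p : (ι → ZMod ℓ) × ZMod ℓ, suprime_sig t θ p * psiC (suprime_chi χ pr p) k‖ ≤
      suprime_K ι ℓ * (∑ b, ((pr b).natDegree : ℝ) + 2 * (Nat.card F : ℝ) ^ (k / 2)) := by
  classical
  have hq2 : (2 : ℝ) ≤ Nat.card F := by
    have := Finite.one_lt_card (α := F)
    exact_mod_cast this
  have e1 : ∑ p : (ι → ZMod ℓ) × ZMod ℓ, suprime_sig t θ p * psiC (suprime_chi χ pr p) k =
      ∑ d ∈ k.divisors, ∑ P ∈ irr F d, (d : ℂ) * suprime_W χ pr t θ P (k / d) := by
    unfold psiC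
    simp_rw [Finset.mul_sum]
    rw [Finset.sum_comm]
    refine Finset.sum_congr rfl fun d _ => ?_
    rw [Finset.sum_comm]
    refine Finset.sum_congr rfl fun P _ => ?_
    unfold suprime_W
    rw [Finset.mul_sum]
    refine Finset.sum_congr rfl fun p _ => ?_
    ring
  rw [e1]
  have hK0 : 0 ≤ suprime_K ι ℓ := suprime_K_nonneg
  have e2 : ∀ d ∈ k.divisors, ∀ P ∈ irr F d, ‖(d : ℂ) * suprime_W χ pr t θ P (k / d)‖ ≤
      (∑ b, if pr b = P then ((pr b).natDegree : ℝ) * suprime_K ι ℓ else 0) +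
        (if d < k then (d : ℝ) * suprime_K ι ℓ else 0) := by
    intro d hdk P hP
    obtain ⟨⟨hP1, hP2⟩, hP3⟩ := twprime_mem_irr.mp hP
    have hs0 : 0 ≤ ∑ b, (if pr b = P then ((pr b).natDegree : ℝ) * suprime_K ι ℓ else 0) := by
      refine Finset.sum_nonneg fun b _ => ?_
      split_ifs
      · positivity
      · exact le_rfl
    have hs1 : 0 ≤ (if d < k then (d : ℝ) * suprime_K ι ℓ else 0) := by
      split_ifs
      · positivity
      · exact le_rfl
    have hWle : ‖(d : ℂ) * suprime_W χ pr t θ P (k / d)‖ ≤ (d : ℝ) * suprime_K ι ℓ := by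
      rw [norm_mul, Complex.norm_natCast]
      exact mul_le_mul_of_nonneg_left (suprime_W_le hSy hℓ hd χ hχ pr hpr t θ P _)
        (by positivity)
    by_cases hr : ∃ b, pr b = P
    · obtain ⟨b, hb⟩ := hr
      have h1 : ((pr b).natDegree : ℝ) * suprime_K ι ℓ ≤
          ∑ b, if pr b = P then ((pr b).natDegree : ℝ) * suprime_K ι ℓ else 0 := by
        have h2 := Finset.single_le_sum (f := fun b => if pr b = P then
          ((pr b).natDegree : ℝ) * suprime_K ι ℓ else 0) (s := Finset.univ)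
          (fun b _ => by
            split_ifs
            · positivity
            · exact le_rfl) (Finset.mem_univ b)
        rw [if_pos hb] at h2
        exact h2
      rw [hb, hP2] at h1
      linarith
    · push Not at hr
      by_cases hdk' : d < k
      · rw [if_pos hdk'] at hs1 ⊢
        linarith
      · have h3 : d = k := le_antisymm (Nat.divisor_le hdk) (not_lt.1 hdk')
        rw [h3, Nat.div_self (by omega),
          suprime_W_zero hSy hℓ hd χ hχ pr hpr t θ P hP1 hP3 hr (hno P hP1 hP3 hr), mul_zero,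
          norm_zero]
        rw [h3] at hs1
        exact add_nonneg hs0 hs1
  have e3 : ∑ d ∈ k.divisors, ∑ P ∈ irr F d,
      (∑ b, if pr b = P then ((pr b).natDegree : ℝ) * suprime_K ι ℓ else 0) ≤
      suprime_K ι ℓ * ∑ b, ((pr b).natDegree : ℝ) := by
    calc ∑ d ∈ k.divisors, ∑ P ∈ irr F d,
          (∑ b, if pr b = P then ((pr b).natDegree : ℝ) * suprime_K ι ℓ else 0)
        = ∑ b, ∑ d ∈ k.divisors, ∑ P ∈ irr F d,
        (if pr b = P then ((pr b).natDegree : ℝ) * suprime_K ι ℓ else 0) := by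
          rw [Finset.sum_congr rfl fun d _ => Finset.sum_comm, Finset.sum_comm]
      _ ≤ ∑ b, ((pr b).natDegree : ℝ) * suprime_K ι ℓ := by
        refine Finset.sum_le_sum fun b _ => ?_
        have h3 : ∀ d ∈ k.divisors, ∑ P ∈ irr F d,
            (if pr b = P then ((pr b).natDegree : ℝ) * suprime_K ι ℓ else 0) =
            if (pr b).natDegree = d then
              ((pr b).natDegree : ℝ) * suprime_K ι ℓ else 0 := by
          intro d _
          rw [Finset.sum_ite_eq]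
          by_cases h4 : (pr b).natDegree = d
          · rw [if_pos h4, if_pos (twprime_mem_irr.mpr ⟨⟨hpr.monic b, h4⟩, hpr.irr b⟩)]
          · rw [if_neg h4, if_neg (fun h5 => h4 (twprime_mem_irr.mp h5).1.2)]
        rw [Finset.sum_congr rfl h3, Finset.sum_ite_eq]
        split_ifs
        · exact le_rfl
        · positivity
      _ = suprime_K ι ℓ * ∑ b, ((pr b).natDegree : ℝ) := by
        rw [Finset.mul_sum]
        exact Finset.sum_congr rfl fun b _ => mul_comm _ _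
  have e4 : ∑ d ∈ k.divisors, ∑ _P ∈ irr F d,
      (if d < k then (d : ℝ) * suprime_K ι ℓ else 0) ≤
      suprime_K ι ℓ * (2 * (Nat.card F : ℝ) ^ (k / 2)) := by
    have h5 := (hPsi F ℓ hℓ).2.2.2.2
    calc ∑ d ∈ k.divisors, ∑ _P ∈ irr F d, (if d < k then (d : ℝ) * suprime_K ι ℓ else 0)
        ≤ ∑ d ∈ k.divisors, (if d < k then (Nat.card F : ℝ) ^ d * suprime_K ι ℓ else 0) := by
          refine Finset.sum_le_sum fun d hdk => ?_
          rw [Finset.sum_const, nsmul_eq_mul]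
          have hd1 : 1 ≤ d := Nat.pos_of_mem_divisors hdk
          split_ifs
          · have h6 : ((d * (irr F d).card : ℕ) : ℝ) ≤ ((Nat.card F ^ d : ℕ) : ℝ) := by
              exact_mod_cast h5 d hd1
            push_cast at h6
            calc ((irr F d).card : ℝ) * ((d : ℝ) * suprime_K ι ℓ)
                = ((d : ℝ) * (irr F d).card) * suprime_K ι ℓ := by ring
              _ ≤ (Nat.card F : ℝ) ^ d * suprime_K ι ℓ :=
                mul_le_mul_of_nonneg_right h6 hK0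
          · rw [mul_zero]
      _ = ∑ d ∈ k.divisors.filter (fun d => d < k), (Nat.card F : ℝ) ^ d * suprime_K ι ℓ := by
          rw [Finset.sum_filter]
      _ ≤ ∑ d ∈ Finset.range (k / 2 + 1), (Nat.card F : ℝ) ^ d * suprime_K ι ℓ := by
          refine Finset.sum_le_sum_of_subset_of_nonneg ?_ fun d _ _ => by positivity
          intro d hdk
          rw [Finset.mem_filter] at hdk
          rw [Finset.mem_range]
          obtain ⟨c, hc⟩ := Nat.dvd_of_mem_divisors hdk.1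
          have hd1 : 1 ≤ d := Nat.pos_of_mem_divisors hdk.1
          have hc2 : 2 ≤ c := by
            by_contra hcon
            have hc1 : c = 0 ∨ c = 1 := by omega
            rcases hc1 with rfl | rfl
            · omega
            · rw [mul_one] at hc
              omega
          have h6 : d * 2 ≤ k := by
            rw [hc]
            exact Nat.mul_le_mul_left d hc2
          omega
      _ = (∑ d ∈ Finset.range (k / 2 + 1), (Nat.card F : ℝ) ^ d) * suprime_K ι ℓ := by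
          rw [Finset.sum_mul]
      _ ≤ (2 * (Nat.card F : ℝ) ^ (k / 2)) * suprime_K ι ℓ :=
          mul_le_mul_of_nonneg_right (suprime_geom_le _ hq2 _) hK0
      _ = suprime_K ι ℓ * (2 * (Nat.card F : ℝ) ^ (k / 2)) := mul_comm _ _
  calc ‖∑ d ∈ k.divisors, ∑ P ∈ irr F d, (d : ℂ) * suprime_W χ pr t θ P (k / d)‖
      ≤ ∑ d ∈ k.divisors, ∑ P ∈ irr F d, ‖(d : ℂ) * suprime_W χ pr t θ P (k / d)‖ :=
        (norm_sum_le _ _).trans (Finset.sum_le_sum fun d _ => norm_sum_le _ _)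
    _ ≤ ∑ d ∈ k.divisors, ∑ P ∈ irr F d,
        ((∑ b, if pr b = P then ((pr b).natDegree : ℝ) * suprime_K ι ℓ else 0) +
        (if d < k then (d : ℝ) * suprime_K ι ℓ else 0)) :=
        Finset.sum_le_sum fun d hd => Finset.sum_le_sum fun P hP => e2 d hd P hP
    _ = (∑ d ∈ k.divisors, ∑ P ∈ irr F d,
        (∑ b, if pr b = P then ((pr b).natDegree : ℝ) * suprime_K ι ℓ else 0)) +
        ∑ d ∈ k.divisors, ∑ _P ∈ irr F d,
        (if d < k then (d : ℝ) * suprime_K ι ℓ else 0) := by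
        simp only [Finset.sum_add_distrib]
    _ ≤ suprime_K ι ℓ * ∑ b, ((pr b).natDegree : ℝ) +
        suprime_K ι ℓ * (2 * (Nat.card F : ℝ) ^ (k / 2)) := add_le_add e3 e4
    _ = _ := by ring

open Classical in
/-- The main term. -/
noncomputable def suprime_ind (p : (ι → ZMod ℓ) × ZMod ℓ) (M : ℂ) : ℂ :=
  if p = 0 then M else 0

theorem suprime_ind_self (M : ℂ) : suprime_ind (ι := ι) (ℓ := ℓ) 0 M = M := by
  unfold suprime_ind
  rw [if_pos rfl]

theorem suprime_ind_ne (p : (ι → ZMod ℓ) × ZMod ℓ) (M : ℂ) (h : p ≠ 0) :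
    suprime_ind p M = 0 := by
  unfold suprime_ind
  rw [if_neg h]

omit [Finite F] in
theorem suprime_geom_bdd (ω : ℂ) (h1 : ω ≠ 1) (h2 : ‖ω‖ = 1) (M : ℕ) :
    ‖∑ k ∈ Finset.Icc 1 M, ω ^ k‖ ≤ 2 / ‖ω - 1‖ := by
  have h3 : ∑ k ∈ Finset.Icc 1 M, ω ^ k = (ω ^ (M + 1) - ω ^ 1) / (ω - 1) := by
    rw [← geom_sum_Ico h1 (by omega)]
    rfl
  rw [h3, norm_div]
  refine div_le_div_of_nonneg_right ?_ (norm_nonneg _)
  refine (norm_sub_le _ _).trans ?_
  rw [norm_pow, norm_pow, h2, one_pow, one_pow]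
  norm_num

theorem suprime_bdd (hSy : StmtSuSy.{u}) (hPsi : StmtSuPsi.{u}) (hBdd : StmtSuBdd.{u})
    (hZero : StmtSuZero.{u}) (hℓ : ℓ.Prime) (hd : ℓ ∣ Nat.card F - 1)
    (χ : F → ZMod ℓ) (hχ : IsLg ℓ χ) (pr : ι → F[X])
    (hpr : Fam pr) (p : (ι → ZMod ℓ) × ZMod ℓ) :
    ∃ B : ℝ, ∀ M : ℕ, ‖∑ k ∈ Finset.Icc 1 M, psiC (suprime_chi χ pr p) k /
      (Nat.card F : ℂ) ^ k - suprime_ind p (M : ℂ)‖ ≤ B := by
  classical
  have hfact : Fact ℓ.Prime := ⟨hℓ⟩
  have hq0 : (Nat.card F : ℂ) ≠ 0 := by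
    exact_mod_cast (Nat.card_pos (α := F)).ne'
  obtain ⟨-, hp1, -, hp2, -⟩ := hPsi F ℓ hℓ
  obtain ⟨s, η⟩ := p
  by_cases hs : s = 0
  · subst hs
    have h1 : suprime_chi χ pr (0, η) =
        fun h => (ZMod.stdAddChar η : ℂ) ^ h.natDegree * (fun _ : F[X] => (1 : ℂ)) h := by
      funext h
      unfold suprime_chi
      congr 1
      rw [Finset.filter_false_of_mem, Finset.prod_empty]
      intro b _
      simp
    have h3 : ∀ M : ℕ, ∑ k ∈ Finset.Icc 1 M, psiC (suprime_chi χ pr (0, η)) k /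
        (Nat.card F : ℂ) ^ k = ∑ k ∈ Finset.Icc 1 M, (ZMod.stdAddChar η : ℂ) ^ k := by
      intro M
      refine Finset.sum_congr rfl fun k hk => ?_
      rw [h1, hp2, hp1 k (Finset.mem_Icc.mp hk).1, mul_div_assoc,
        div_self (pow_ne_zero _ hq0), mul_one]
    by_cases hη : η = 0
    · subst hη
      refine ⟨0, fun M => ?_⟩
      rw [h3]
      have h4 : suprime_ind ((0, 0) : (ι → ZMod ℓ) × ZMod ℓ) (M : ℂ) = M :=
        suprime_ind_self _
      rw [h4, AddChar.map_zero_eq_one]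
      simp
    · refine ⟨2 / ‖(ZMod.stdAddChar η : ℂ) - 1‖, fun M => ?_⟩
      rw [h3, suprime_ind_ne _ _ (fun h => hη (Prod.mk.inj h).2), sub_zero]
      exact suprime_geom_bdd _ (suprime_std_ne hη) (suprime_std_norm η) M
  · have hl := fun b => suprime_lgc hSy hℓ hd χ hχ (pr b) (hpr.monic b) (hpr.irr b)
    set T : Finset ι := Finset.univ.filter (fun b => s b ≠ 0) with hT
    have hTne : T.Nonempty := by
      by_contra h
      rw [Finset.not_nonempty_iff_eq_empty] at h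
      apply hs
      funext b
      by_contra h1
      have h2 : b ∈ T := Finset.mem_filter.2 ⟨Finset.mem_univ b, h1⟩
      rw [h] at h2
      exact absurd h2 (Finset.notMem_empty b)
    have hchar := suprime_isCh hSy hℓ hd χ hχ pr hpr (s, η)
    obtain ⟨B, hB⟩ := hBdd F ℓ hℓ (suprime_chi χ pr (s, η)) hchar (∑ b ∈ T, (pr b).natDegree) (by
      intro j hj1 hj2 n hn
      have hj0 : (j : ZMod ℓ) ≠ 0 := by
        intro h
        have h1 := (ZMod.natCast_eq_zero_iff j ℓ).1 h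
        have h2 := Nat.le_of_dvd (by omega) h1
        omega
      have h1 := hZero F ℓ hℓ hd χ hχ ι pr hpr T hTne (fun b => (j : ZMod ℓ) * s b)
        (fun b hb => mul_ne_zero hj0 (Finset.mem_filter.1 hb).2) n hn
      unfold avC
      have h2 : ∀ h ∈ mon F n, suprime_chi χ pr (s, η) h ^ j =
          ((ZMod.stdAddChar η : ℂ) ^ n) ^ j *
            ∏ b ∈ T, lgc χ ((j : ZMod ℓ) * s b) (pr b) h := by
        intro h hh
        unfold suprime_chi
        rw [(mem_mon.mp hh).2, mul_pow, ← Finset.prod_pow]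
        congr 1
        exact Finset.prod_congr rfl fun b _ => (hl b).2.2.2.2 (s b) h j hj1
      rw [Finset.sum_congr rfl h2, ← Finset.mul_sum, h1, mul_zero])
    refine ⟨B, fun M => ?_⟩
    rw [suprime_ind_ne _ _ (fun h => hs (Prod.mk.inj h).1), sub_zero]
    exact hB M

end main

theorem suprime_half (q : ℝ) (hq : 4 ≤ q) (k : ℕ) :
    q ^ (k / 2) / q ^ k ≤ 1 / 2 ^ k := by
  have hq0 : (0 : ℝ) < q := by linarith
  have h1 : q ^ k = q ^ (k / 2) * q ^ (k - k / 2) := by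
    rw [← pow_add]
    congr 1
    omega
  have h2 : (2 : ℝ) ^ k ≤ q ^ (k - k / 2) := by
    have h3 : ((2 : ℝ) ^ k) ^ 2 ≤ (q ^ (k - k / 2)) ^ 2 := by
      calc ((2 : ℝ) ^ k) ^ 2 = 4 ^ k := by
            rw [← pow_mul, mul_comm, pow_mul]
            norm_num
        _ ≤ q ^ k := pow_le_pow_left₀ (by norm_num) hq k
        _ ≤ q ^ (2 * (k - k / 2)) := pow_le_pow_right₀ (by linarith) (by omega)
        _ = (q ^ (k - k / 2)) ^ 2 := by
            rw [← pow_mul, mul_comm]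
    exact le_of_sq_le_sq h3 (by positivity)
  rw [h1, div_le_div_iff₀ (by positivity) (by positivity), one_mul]
  exact mul_le_mul_of_nonneg_left h2 (by positivity)

theorem tSuPrime (hSuSy : StmtSuSy.{u}) (hSuPsi : StmtSuPsi.{u}) (hSuBdd : StmtSuBdd.{u})
    (hSuZero : StmtSuZero.{u}) : StmtSuPrime.{u} := by
  classical
  intro F _ _ ℓ hℓ hℓ2 hd χ hχ ι _ pr hpr t θ
  have hnz : NeZero ℓ := ⟨hℓ.ne_zero⟩
  by_contra hcon
  have hno : ∀ P : F[X], P.Monic → Irreducible P → (∀ b, pr b ≠ P) →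
      ¬ ((P.natDegree : ZMod ℓ) = θ ∧ ∀ b, syl χ (pr b) P = t b) := by
    intro P h1 h2 h3 h4
    exact hcon ⟨P, h1, h2, h3, h4.1, h4.2⟩
  have hq4 : (4 : ℝ) ≤ Nat.card F := by
    have h1 := Finite.one_lt_card (α := F)
    have h2 : ℓ ≤ Nat.card F - 1 := Nat.le_of_dvd (by omega) hd
    have h3 : 3 ≤ ℓ := by
      have := hℓ.two_le
      omega
    have h4 : 4 ≤ Nat.card F := by omega
    exact_mod_cast h4
  choose B hB using fun p => suprime_bdd hSuSy hSuPsi hSuBdd hSuZero hℓ hd χ hχ pr hpr p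
  set q : ℝ := (Nat.card F : ℝ) with hqdef
  have hq0 : 0 < q := by linarith
  set C₀ : ℝ := ∑ b, ((pr b).natDegree : ℝ) with hC₀
  have hC0 : 0 ≤ C₀ := by positivity
  have hK0 : 0 ≤ suprime_K ι ℓ := suprime_K_nonneg
  set K' : ℝ := suprime_K ι ℓ * (C₀ + 2) with hK'
  -- the upper bound
  have hup : ∀ M : ℕ, ‖∑ p : (ι → ZMod ℓ) × ZMod ℓ, suprime_sig t θ p *
      ∑ k ∈ Finset.Icc 1 M, psiC (suprime_chi χ pr p) k / (Nat.card F : ℂ) ^ k‖ ≤ K' := by
    intro M
    have e1 : ∑ p : (ι → ZMod ℓ) × ZMod ℓ, suprime_sig t θ p *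
        ∑ k ∈ Finset.Icc 1 M, psiC (suprime_chi χ pr p) k / (Nat.card F : ℂ) ^ k =
        ∑ k ∈ Finset.Icc 1 M, (∑ p : (ι → ZMod ℓ) × ZMod ℓ, suprime_sig t θ p *
          psiC (suprime_chi χ pr p) k) / (Nat.card F : ℂ) ^ k := by
      simp_rw [Finset.mul_sum]
      rw [Finset.sum_comm]
      refine Finset.sum_congr rfl fun k _ => ?_
      rw [Finset.sum_div]
      refine Finset.sum_congr rfl fun p _ => ?_
      ring
    rw [e1]
    calc ‖∑ k ∈ Finset.Icc 1 M, (∑ p : (ι → ZMod ℓ) × ZMod ℓ, suprime_sig t θ p *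
          psiC (suprime_chi χ pr p) k) / (Nat.card F : ℂ) ^ k‖
        ≤ ∑ k ∈ Finset.Icc 1 M, ‖(∑ p : (ι → ZMod ℓ) × ZMod ℓ, suprime_sig t θ p *
          psiC (suprime_chi χ pr p) k) / (Nat.card F : ℂ) ^ k‖ := norm_sum_le _ _
      _ ≤ ∑ k ∈ Finset.Icc 1 M, (suprime_K ι ℓ * C₀ * (1 / q ^ k) +
          suprime_K ι ℓ * 2 * (1 / 2 ^ k)) := by
          refine Finset.sum_le_sum fun k hk => ?_
          have hqk : (0 : ℝ) < q ^ k := by positivity
          rw [norm_div, norm_pow, Complex.norm_natCast]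
          have h1 := suprime_psi_bound hSuSy hSuPsi hℓ hd χ hχ pr hpr t θ hno k
            (Finset.mem_Icc.mp hk).1
          have h2 := suprime_half q hq4 k
          calc ‖∑ p : (ι → ZMod ℓ) × ZMod ℓ, suprime_sig t θ p *
                psiC (suprime_chi χ pr p) k‖ / q ^ k
              ≤ (suprime_K ι ℓ * (C₀ + 2 * q ^ (k / 2))) / q ^ k :=
                div_le_div_of_nonneg_right h1 hqk.le
            _ = suprime_K ι ℓ * C₀ * (1 / q ^ k) +
                suprime_K ι ℓ * 2 * (q ^ (k / 2) / q ^ k) := by ring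
            _ ≤ suprime_K ι ℓ * C₀ * (1 / q ^ k) + suprime_K ι ℓ * 2 * (1 / 2 ^ k) := by
                have h3 : 0 ≤ suprime_K ι ℓ * 2 := by positivity
                have h4 := mul_le_mul_of_nonneg_left h2 h3
                linarith
      _ = suprime_K ι ℓ * C₀ * ∑ k ∈ Finset.Icc 1 M, 1 / q ^ k +
          suprime_K ι ℓ * 2 * ∑ k ∈ Finset.Icc 1 M, 1 / (2 : ℝ) ^ k := by
          rw [Finset.sum_add_distrib, ← Finset.mul_sum, ← Finset.mul_sum]
      _ ≤ suprime_K ι ℓ * C₀ * 1 + suprime_K ι ℓ * 2 * 1 := by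
          have h1 := twprime_geom q (by linarith) M
          have h2 : 0 < 1 / q ^ M := by positivity
          have h3 := twprime_geom 2 le_rfl M
          have h4 : (0 : ℝ) < 1 / 2 ^ M := by positivity
          refine add_le_add ?_ ?_
          · exact mul_le_mul_of_nonneg_left (by linarith) (by positivity)
          · exact mul_le_mul_of_nonneg_left (by linarith) (by positivity)
      _ = K' := by
          rw [hK']
          ring
  have hsig : ∀ p, ‖suprime_sig t θ p‖ = 1 := by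
    intro p
    unfold suprime_sig
    exact suprime_std_norm _
  have hlow : ∀ M : ℕ, (M : ℝ) - ∑ p : (ι → ZMod ℓ) × ZMod ℓ, B p ≤
      ‖∑ p : (ι → ZMod ℓ) × ZMod ℓ, suprime_sig t θ p *
      ∑ k ∈ Finset.Icc 1 M, psiC (suprime_chi χ pr p) k / (Nat.card F : ℂ) ^ k‖ := by
    intro M
    have e1 : (M : ℂ) = ∑ p : (ι → ZMod ℓ) × ZMod ℓ, suprime_sig t θ p *
        suprime_ind p (M : ℂ) := by
      rw [Finset.sum_eq_single 0]
      · rw [suprime_ind_self]
        unfold suprime_sig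
        simp
      · intro b _ hb
        rw [suprime_ind_ne _ _ hb, mul_zero]
      · intro h
        exact absurd (Finset.mem_univ _) h
    have e2 : ‖∑ p : (ι → ZMod ℓ) × ZMod ℓ, suprime_sig t θ p *
        ∑ k ∈ Finset.Icc 1 M, psiC (suprime_chi χ pr p) k / (Nat.card F : ℂ) ^ k - (M : ℂ)‖ ≤
        ∑ p : (ι → ZMod ℓ) × ZMod ℓ, B p := by
      rw [e1, ← Finset.sum_sub_distrib]
      refine (norm_sum_le _ _).trans (Finset.sum_le_sum fun p _ => ?_)
      rw [← mul_sub, norm_mul, hsig, one_mul]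
      have h5 := hB p M
      exact h5
    have e3 : ‖(M : ℂ)‖ = M := Complex.norm_natCast M
    have e4 := norm_sub_norm_le (M : ℂ) (∑ p : (ι → ZMod ℓ) × ZMod ℓ, suprime_sig t θ p *
        ∑ k ∈ Finset.Icc 1 M, psiC (suprime_chi χ pr p) k / (Nat.card F : ℂ) ^ k)
    rw [e3, norm_sub_rev] at e4
    linarith
  obtain ⟨M, hM⟩ := exists_nat_gt (K' + ∑ p : (ι → ZMod ℓ) × ZMod ℓ, B p)
  have h1 := hup M
  have h2 := hlow M
  linarith

end MP72e2e6
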