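import Pool.Agent.Lib.MP_72e2e6_nt.PpStmt
import Pool.Agent.Lib.MP_72e2e6_nt.SuPrime

/-!
# MP_72e2e6_nt, module PpInn: the pieces with a nontrivial character
-/

namespace MP72e2e6

open Polynomial

universe u

section inn

variable {F : Type u} [Field F] {ℓ : ℕ} [NeZero ℓ]

theorem ppinn_std_prod {ι : Type*} (s : Finset ι) (f : ι → ZMod ℓ) :
    (∏ i ∈ s, ZMod.stdAddChar (f i) : ℂ) = ZMod.stdAddChar (∑ i ∈ s, f i) := by
  classical
  induction s using Finset.induction_on with
  | empty => rw [Finset.prod_empty, Finset.sum_empty, AddChar.map_zero_eq_one]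
  | insert a s ha ih =>
    rw [Finset.prod_insert ha, Finset.sum_insert ha, AddChar.map_add_eq_mul, ih]

open Classical in
/-- the sum over the sets of primes prime to `R` -/
theorem ppinn_bound [Finite F] (hSuSy : StmtSuSy.{u}) (hSuZero : StmtSuZero.{u})
    (hPpZer : StmtPpZer.{u}) (hPpIn : StmtPpIn.{u}) (hℓ : ℓ.Prime) (h2 : ℓ ≠ 2)
    (hd : ℓ ∣ Nat.card F - 1) (χ : F → ZMod ℓ) (hχ : IsLg ℓ χ) (R : Finset F[X])
    (hR : ∀ P ∈ R, P.Monic ∧ Irreducible P) (s : F[X] → ZMod ℓ) (η : ZMod ℓ)
    (hne : ∃ Q ∈ R, s Q ≠ 0) (D : ℕ)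
    (hD : ∑ Q ∈ R.filter (fun Q => s Q ≠ 0), Q.natDegree < D) (z : ℝ) (hz0 : 0 ≤ z)
    (hz1 : z ≤ 1) (k m : ℕ) (hk : 1 ≤ k) (hm : k + ∑ P ∈ R, P.natDegree ≤ m) :
    ‖∑ t ∈ (ps F k).filter (fun t => Disjoint t R), (z : ℂ) ^ t.card * ∏ P ∈ t,
      ZMod.stdAddChar (∑ Q ∈ R, s Q * syl χ Q P + η * (P.natDegree : ZMod ℓ))‖ ≤
      160 * (Nat.card F : ℝ) ^ k * ((D : ℝ) ^ 2 + (Nat.log 2 (m + 2) : ℝ)) / k := by
  set pr' : Fin R.card → F[X] := fun i => (R.equivFin.symm i).1 with hpr'
  have hfam : Fam pr' := by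
    refine ⟨?_, fun i => (hR _ (R.equivFin.symm i).2).1, fun i => (hR _ (R.equivFin.symm i).2).2⟩
    intro i j hij
    exact R.equivFin.symm.injective (Subtype.ext hij)
  have hsum : ∀ {M : Type} [AddCommMonoid M] (f : F[X] → M),
      ∑ i, f (pr' i) = ∑ Q ∈ R, f Q := by
    intro M _ f
    rw [← Finset.sum_coe_sort R f]
    exact Equiv.sum_comp R.equivFin.symm (fun Q : R => f Q.1)
  set p : (Fin R.card → ZMod ℓ) × ZMod ℓ := (fun i => s (pr' i), η) with hp
  have hl := fun b => suprime_lgc hSuSy hℓ hd χ hχ (pr' b) (hfam.monic b) (hfam.irr b)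
  have hch : IsChL ℓ (suprime_chi χ pr' p) := suprime_isCh hSuSy hℓ hd χ hχ pr' hfam p
  set T : Finset (Fin R.card) := Finset.univ.filter (fun b => p.1 b ≠ 0) with hT
  have hTne : T.Nonempty := by
    obtain ⟨Q, hQ, hsQ⟩ := hne
    refine ⟨R.equivFin ⟨Q, hQ⟩, Finset.mem_filter.2 ⟨Finset.mem_univ _, ?_⟩⟩
    rw [hp, hpr']
    simp only [Equiv.symm_apply_apply]
    exact hsQ
  have hTdeg : ∑ b ∈ T, (pr' b).natDegree < D := by
    refine lt_of_le_of_lt (le_of_eq ?_) hD
    rw [hT, Finset.sum_filter, Finset.sum_filter]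
    exact hsum (fun Q => if s Q ≠ 0 then Q.natDegree else 0)
  have hD1 : 1 ≤ D := by omega
  have hq4 : 4 ≤ Nat.card F := by
    have h3 : 3 ≤ ℓ := by
      have := hℓ.two_le
      omega
    have h4 : 1 < Nat.card F := Finite.one_lt_card
    have h5 := Nat.le_of_dvd (by omega) hd
    omega
  have hpsi : ∀ J, ∑ k ∈ Finset.Icc 1 J, ‖psiC (suprime_chi χ pr' p) k‖ / (Nat.card F : ℝ) ^ k ≤
      40 * (D : ℝ) ^ 2 := by
    refine hPpZer F ℓ hℓ h2 (suprime_chi χ pr' p) hch D ?_
    intro j hj1 hj2 n hn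
    have hfact : Fact ℓ.Prime := ⟨hℓ⟩
    have hj0 : (j : ZMod ℓ) ≠ 0 := by
      intro h
      have h1 := (ZMod.natCast_eq_zero_iff j ℓ).1 h
      have h2 := Nat.le_of_dvd (by omega) h1
      omega
    have h1 := hSuZero F ℓ hℓ hd χ hχ (Fin R.card) pr' hfam T hTne
      (fun b => (j : ZMod ℓ) * p.1 b)
      (fun b hb => mul_ne_zero hj0 (Finset.mem_filter.1 hb).2) n (by omega)
    unfold avC
    have h2 : ∀ h ∈ mon F n, suprime_chi χ pr' p h ^ j =
        ((ZMod.stdAddChar η : ℂ) ^ n) ^ j *
          ∏ b ∈ T, lgc χ ((j : ZMod ℓ) * p.1 b) (pr' b) h := by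
      intro h hh
      unfold suprime_chi
      rw [(mem_mon.mp hh).2, mul_pow, ← Finset.prod_pow]
      congr 1
      exact Finset.prod_congr rfl fun b _ => (hl b).2.2.2.2 (p.1 b) h j hj1
    rw [Finset.sum_congr rfl h2, ← Finset.mul_sum, h1, mul_zero]
  have hY : (1 : ℝ) ≤ 40 * (D : ℝ) ^ 2 := by
    have h1 : (1 : ℝ) ≤ D := by exact_mod_cast hD1
    nlinarith
  have hmain := hPpIn F ℓ hℓ hq4 (suprime_chi χ pr' p) hch (40 * (D : ℝ) ^ 2) hY hpsi z hz0 hz1
    R k m hk hm
  have hval : ∑ t ∈ (ps F k).filter (fun t => Disjoint t R), (z : ℂ) ^ t.card *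
      ∏ P ∈ t, ZMod.stdAddChar (∑ Q ∈ R, s Q * syl χ Q P + η * (P.natDegree : ZMod ℓ)) =
      ∑ t ∈ (ps F k).filter (fun t => Disjoint t R), (z : ℂ) ^ t.card *
        ∏ P ∈ t, suprime_chi χ pr' p P := by
    refine Finset.sum_congr rfl fun t ht => ?_
    rw [Finset.mem_filter, mem_ps] at ht
    congr 1
    refine Finset.prod_congr rfl fun P hP => ?_
    have hdvd : ∀ b, ¬ pr' b ∣ P := by
      intro b h
      have h1 : pr' b = P := eq_of_monic_of_associated (hfam.monic b) (ht.1.1 P hP).1
        (((hfam.irr b).dvd_irreducible_iff_associated (ht.1.1 P hP).2).mp h)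
      have h3 : P ∈ R := by
        rw [← h1]
        exact (R.equivFin.symm b).2
      exact Finset.disjoint_left.1 ht.2 hP h3
    have e2 : (∏ b ∈ Finset.univ.filter (fun b => p.1 b ≠ 0), lgc χ (p.1 b) (pr' b) P) =
        ZMod.stdAddChar (∑ b, p.1 b * syl χ (pr' b) P) := by
      rw [Finset.prod_congr rfl fun b _ => (hl b).1 (p.1 b) P (hdvd b), suprime_std_sum]
      congr 1
      rw [Finset.sum_filter]
      refine Finset.sum_congr rfl fun b _ => ?_
      split_ifs with h
      · rfl
      · rw [not_ne_iff.1 h, zero_mul]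
    unfold suprime_chi
    rw [e2, suprime_std_pow, ← AddChar.map_add_eq_mul]
    congr 1
    rw [← hsum (fun Q => s Q * syl χ Q P), add_comm]
    congr 1
    exact mul_comm _ _
  rw [hval]
  refine hmain.trans ?_
  refine div_le_div_of_nonneg_right ?_ (Nat.cast_nonneg _)
  have hL : (0 : ℝ) ≤ (Nat.log 2 (m + 2) : ℝ) := Nat.cast_nonneg _
  have hq : (0 : ℝ) ≤ (Nat.card F : ℝ) ^ k := by positivity
  nlinarith [mul_nonneg hq hL]

theorem ppinn_norm_chc {V U : Type} [Fintype V] (χ : F → ZMod ℓ) (pr : V → F[X])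
    (α : V → U → ZMod ℓ) (αi : U → ZMod ℓ) (w : U) (P : F[X]) :
    ‖chc χ pr α αi w P‖ ≤ 1 := by
  unfold chc
  split_ifs
  · simp
  · exact (AddChar.norm_apply _ _).le

theorem ppinn_norm_wgt {V U : Type} [Fintype V] [Fintype U] (χ : F → ZMod ℓ) (pr : V → F[X])
    (α : V → U → ZMod ℓ) (αi : U → ZMod ℓ) (B : U → U → ZMod ℓ) (N : ℕ)
    (p : U → Finset F[X]) :
    ‖wgt χ pr α αi B N p‖ ≤ ∏ w, (1 / N : ℝ) ^ (p w).card := by
  classical
  have hN : (0 : ℝ) ≤ 1 / (N : ℝ) := by positivity
  unfold wgt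
  split_ifs with h
  · rw [norm_mul, AddChar.norm_apply, mul_one, norm_prod]
    refine Finset.prod_le_prod (fun w _ => norm_nonneg _) fun w _ => ?_
    rw [norm_prod]
    calc ∏ P ∈ p w, ‖(N : ℂ)⁻¹ * chc χ pr α αi w P‖ ≤ ∏ _P ∈ p w, (1 / N : ℝ) := by
          refine Finset.prod_le_prod (fun _ _ => norm_nonneg _) fun P _ => ?_
          rw [norm_mul, norm_inv, Complex.norm_natCast, ← one_div]
          exact mul_le_of_le_one_right hN (ppinn_norm_chc χ pr α αi w P)
      _ = _ := by rw [Finset.prod_const]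
  · rw [norm_zero]
    exact Finset.prod_nonneg fun w _ => pow_nonneg hN _

omit [NeZero ℓ] in
theorem ppinn_sys_comm {χ : F → ZMod ℓ} (hR : Rcp χ) {x y : Finset F[X]}
    (hx : ∀ P ∈ x, P.Monic ∧ Irreducible P) (hy : ∀ P ∈ y, P.Monic ∧ Irreducible P)
    (hd : Disjoint x y) : sys χ x y = sys χ y x := by
  unfold sys
  rw [Finset.sum_comm]
  refine Finset.sum_congr rfl fun Q hQ => Finset.sum_congr rfl fun P hP => ?_
  refine hR P Q (hx P hP).1 (hx P hP).2 (hy Q hQ).1 (hy Q hQ).2 ?_
  rintro rfl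
  exact Finset.disjoint_left.1 hd hP hQ

/-- the weight with one more coordinate -/
theorem ppinn_wgt {V U : Type} [Fintype V] [Fintype U] [DecidableEq U] {χ : F → ZMod ℓ}
    (hR : Rcp χ) (pr : V → F[X]) (α : V → U → ZMod ℓ) (αi : U → ZMod ℓ) (B : U → U → ZMod ℓ)
    (N : ℕ) (p : U → Finset F[X]) (w₀ : U) (hB : B w₀ w₀ = 0) (hp0 : p w₀ = ∅)
    (x : Finset F[X]) (hx : ∀ P ∈ x, P.Monic ∧ Irreducible P)
    (hp : ∀ w, ∀ P ∈ p w, P.Monic ∧ Irreducible P)
    (hdis : ∀ w w', w ≠ w' → Disjoint (p w) (p w')) (hxp : ∀ w, Disjoint x (p w))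
    (hxv : ∀ P ∈ x, ∀ v, pr v ≠ P) :
    wgt χ pr α αi B N (Function.update p w₀ x) = wgt χ pr α αi B N p *
      ((N : ℂ)⁻¹ ^ x.card * ∏ P ∈ x, ZMod.stdAddChar (∑ v, α v w₀ * syl χ (pr v) P +
        ∑ w, (B w₀ w + B w w₀) * ∑ Q ∈ p w, syl χ Q P + αi w₀ * (P.natDegree : ZMod ℓ))) := by
  classical
  have hdis' : ∀ w w', w ≠ w' →
      Disjoint (Function.update p w₀ x w) (Function.update p w₀ x w') := by
    intro w w' hww
    by_cases h1 : w = w₀
    · subst h1
      rw [Function.update_self, Function.update_of_ne hww.symm]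
      exact hxp w'
    · rw [Function.update_of_ne h1]
      by_cases h2 : w' = w₀
      · subst h2
        rw [Function.update_self]
        exact (hxp w).symm
      · rw [Function.update_of_ne h2]
        exact hdis w w' hww
  unfold wgt
  rw [if_pos hdis', if_pos hdis]
  -- the product
  have e1 : ∏ w, ∏ P ∈ Function.update p w₀ x w, ((N : ℂ)⁻¹ * chc χ pr α αi w P) =
      (∏ w, ∏ P ∈ p w, ((N : ℂ)⁻¹ * chc χ pr α αi w P)) *
        ∏ P ∈ x, ((N : ℂ)⁻¹ * chc χ pr α αi w₀ P) := by
    rw [← Finset.mul_prod_erase Finset.univ _ (Finset.mem_univ w₀), Function.update_self,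
      ← Finset.mul_prod_erase Finset.univ (fun w => ∏ P ∈ p w, ((N : ℂ)⁻¹ * chc χ pr α αi w P))
        (Finset.mem_univ w₀), hp0, Finset.prod_empty, one_mul, mul_comm]
    congr 1
    refine Finset.prod_congr rfl fun w hw => ?_
    rw [Function.update_of_ne (Finset.ne_of_mem_erase hw)]
  -- the phase
  have e2 : ∀ w w', sys χ (Function.update p w₀ x w) (Function.update p w₀ x w') =
      sys χ (p w) (p w') + (if w = w₀ then sys χ x (p w') else 0) +
        (if w' = w₀ then sys χ (p w) x else 0) +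
        (if w = w₀ then if w' = w₀ then sys χ x x else 0 else 0) := by
    have e0 : ∀ t : Finset F[X], sys χ ∅ t = 0 := fun t => by
      unfold sys
      rw [Finset.sum_empty]
    have e0' : ∀ t : Finset F[X], sys χ t ∅ = 0 := fun t => by
      unfold sys
      simp
    intro w w'
    by_cases h1 : w = w₀
    · by_cases h2 : w' = w₀
      · rw [h1, h2, Function.update_self, hp0]
        simp [e0, e0']
      · rw [h1, Function.update_self, Function.update_of_ne h2, hp0]
        simp [e0, h2]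
    · by_cases h2 : w' = w₀
      · rw [h2, Function.update_self, Function.update_of_ne h1, hp0]
        simp [e0', h1]
      · rw [Function.update_of_ne h1, Function.update_of_ne h2]
        simp [h1, h2]
  have e3 : ∑ w, ∑ w', B w w' * sys χ (Function.update p w₀ x w) (Function.update p w₀ x w') =
      ∑ w, ∑ w', B w w' * sys χ (p w) (p w') +
        ∑ w, (B w₀ w + B w w₀) * sys χ (p w) x := by
    simp only [e2, mul_add, Finset.sum_add_distrib, mul_ite, mul_zero, Finset.sum_ite_eq',
      Finset.sum_ite_irrel, Finset.sum_const_zero, Finset.mem_univ, if_true, hB, zero_mul,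
      add_zero, add_mul]
    rw [add_assoc]
    congr 2
    refine Finset.sum_congr rfl fun w _ => ?_
    rw [ppinn_sys_comm hR hx (hp w) (hxp w)]
  have e4 : ∑ w, (B w₀ w + B w w₀) * sys χ (p w) x =
      ∑ P ∈ x, ∑ w, (B w₀ w + B w w₀) * ∑ Q ∈ p w, syl χ Q P := by
    rw [Finset.sum_comm]
    refine Finset.sum_congr rfl fun w _ => ?_
    rw [← Finset.mul_sum]
    unfold sys
    rw [Finset.sum_comm]
  have e5 : ∏ P ∈ x, ((N : ℂ)⁻¹ * chc χ pr α αi w₀ P) = (N : ℂ)⁻¹ ^ x.card *
      ∏ P ∈ x, ZMod.stdAddChar (∑ v, α v w₀ * syl χ (pr v) P +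
        αi w₀ * (P.natDegree : ZMod ℓ)) := by
    rw [Finset.prod_mul_distrib, Finset.prod_const]
    congr 1
    refine Finset.prod_congr rfl fun P hP => ?_
    unfold chc
    rw [if_neg]
    rintro ⟨v, hv⟩
    exact hxv P hP v hv
  rw [e1, e3, e4, e5, AddChar.map_add_eq_mul, ← ppinn_std_prod x]
  have e6 : ∀ P : F[X], (ZMod.stdAddChar (∑ v, α v w₀ * syl χ (pr v) P +
        ∑ w, (B w₀ w + B w w₀) * ∑ Q ∈ p w, syl χ Q P +
        αi w₀ * (P.natDegree : ZMod ℓ)) : ℂ) =
      ZMod.stdAddChar (∑ v, α v w₀ * syl χ (pr v) P + αi w₀ * (P.natDegree : ZMod ℓ)) *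
        ZMod.stdAddChar (∑ w, (B w₀ w + B w w₀) * ∑ Q ∈ p w, syl χ Q P) := by
    intro P
    rw [← AddChar.map_add_eq_mul]
    congr 1
    ring
  simp only [e6]
  rw [Finset.prod_mul_distrib]
  ring

end inn

theorem tPpInn (hSuSy : StmtSuSy.{u}) (hSuZero : StmtSuZero.{u}) (hPpZer : StmtPpZer.{u})
    (hPpIn : StmtPpIn.{u}) : StmtPpInn.{u} := by
  classical
  intro F _ _ ℓ _ hℓ h2 hd χ hχ hR V U _ _ _ pr hpr α αi B N hN hB ν w₀ τ hν hτ hnt
  set c : U → ZMod ℓ := fun w => B w₀ w + B w w₀ with hc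
  set q : ℝ := (Nat.card F : ℝ) with hq
  set D : ℕ := ∑ v, (pr v).natDegree + Fintype.card U * τ + 1 with hD
  set L : ℕ := Nat.log 2 (∑ v, (pr v).natDegree + ∑ w, ν w + 2) with hL
  set E : ℝ := 160 * q ^ ν w₀ * ((D : ℝ) ^ 2 + (L : ℝ)) / (ν w₀ : ℝ) with hE
  have hq0 : 0 ≤ q := Nat.cast_nonneg _
  have hE0 : 0 ≤ E := by
    rw [hE]
    positivity
  have hz0 : (0 : ℝ) ≤ 1 / (N : ℝ) := by positivity
  have hz1 : (1 / (N : ℝ)) ≤ 1 := by
    have h1 : (1 : ℝ) ≤ N := by exact_mod_cast hN
    rw [div_le_one (by linarith)]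
    exact h1
  have hmain : ∀ p ∈ Fintype.piFinset
      (Function.update (fun w => ps F (ν w)) w₀ {(∅ : Finset F[X])}),
      ‖∑ x ∈ ps F (ν w₀), wgt χ pr α αi B N (Function.update p w₀ x)‖ ≤
        (∏ w, (1 / N : ℝ) ^ (p w).card) * E := by
    intro p hp
    rw [Fintype.mem_piFinset] at hp
    have hp0 : p w₀ = ∅ := by
      have h1 := hp w₀
      rw [Function.update_self, Finset.mem_singleton] at h1
      exact h1
    have hpne : ∀ w, w ≠ w₀ → p w ∈ ps F (ν w) := by
      intro w hw
      have h1 := hp w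
      rw [Function.update_of_ne hw] at h1
      exact h1
    have hpMI : ∀ w, ∀ P ∈ p w, P.Monic ∧ Irreducible P := by
      intro w P hP
      by_cases hw : w = w₀
      · rw [hw, hp0] at hP
        exact absurd hP (Finset.notMem_empty _)
      · exact (mem_ps.1 (hpne w hw)).1 P hP
    have hprod0 : 0 ≤ ∏ w, (1 / N : ℝ) ^ (p w).card :=
      Finset.prod_nonneg fun w _ => pow_nonneg hz0 _
    by_cases hgood : (∀ w w', w ≠ w' → Disjoint (p w) (p w')) ∧ ∀ w, ∀ P ∈ p w, ∀ v, pr v ≠ P
    swap
    · -- all the weights vanish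
      have h0 : ∀ x ∈ ps F (ν w₀), wgt χ pr α αi B N (Function.update p w₀ x) = 0 := by
        intro x _
        unfold wgt
        by_cases hdis : ∀ w w', w ≠ w' →
            Disjoint (Function.update p w₀ x w) (Function.update p w₀ x w')
        · rw [if_pos hdis]
          have h3 : ∀ w w', w ≠ w' → Disjoint (p w) (p w') := by
            intro w w' hww
            by_cases h4 : w = w₀
            · rw [h4, hp0]
              exact Finset.disjoint_empty_left _
            · by_cases h5 : w' = w₀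
              · rw [h5, hp0]
                exact Finset.disjoint_empty_right _
              · have h6 := hdis w w' hww
                rwa [Function.update_of_ne h4, Function.update_of_ne h5] at h6
          have h7 : ∃ w, ∃ P ∈ p w, ∃ v, pr v = P := by
            by_contra h8
            push Not at h8
            exact hgood ⟨h3, h8⟩
          obtain ⟨w, P, hP, v, hv⟩ := h7
          have hw : w ≠ w₀ := by
            rintro rfl
            rw [hp0] at hP
            exact absurd hP (Finset.notMem_empty _)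
          have h9 : ∏ P ∈ Function.update p w₀ x w, ((N : ℂ)⁻¹ * chc χ pr α αi w P) = 0 := by
            rw [Function.update_of_ne hw]
            refine Finset.prod_eq_zero hP ?_
            unfold chc
            rw [if_pos ⟨v, hv⟩, mul_zero]
          rw [Finset.prod_eq_zero (Finset.mem_univ w) h9, zero_mul]
        · rw [if_neg hdis]
      rw [Finset.sum_eq_zero h0, norm_zero]
      exact mul_nonneg hprod0 hE0
    obtain ⟨hdis, hbad⟩ := hgood
    set R : Finset F[X] := Finset.univ.image pr ∪ Finset.univ.biUnion p with hRdef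
    have hRmem : ∀ P, P ∈ R ↔ (∃ v, pr v = P) ∨ ∃ w, P ∈ p w := by
      intro P
      rw [hRdef, Finset.mem_union, Finset.mem_image, Finset.mem_biUnion]
      simp
    have hRMI : ∀ P ∈ R, P.Monic ∧ Irreducible P := by
      intro P hP
      rcases (hRmem P).1 hP with ⟨v, rfl⟩ | ⟨w, hw⟩
      · exact ⟨hpr.monic v, hpr.irr v⟩
      · exact hpMI w P hw
    set s : F[X] → ZMod ℓ := fun Q => (∑ v, if pr v = Q then α v w₀ else 0) +
      ∑ w, if Q ∈ p w then c w else 0 with hs
    have hsv : ∀ v, s (pr v) = α v w₀ := by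
      intro v
      rw [hs]
      simp only
      rw [Finset.sum_eq_single v, if_pos rfl, Finset.sum_eq_zero, add_zero]
      · intro w _
        rw [if_neg]
        intro h
        exact hbad w (pr v) h v rfl
      · intro v' _ hv'
        rw [if_neg fun h => hv' (hpr.inj h)]
      · intro h
        exact absurd (Finset.mem_univ v) h
    have hsw : ∀ w, ∀ Q ∈ p w, s Q = c w := by
      intro w Q hQ
      rw [hs]
      simp only
      rw [Finset.sum_eq_zero, zero_add, Finset.sum_eq_single w, if_pos hQ]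
      · intro w' _ hw'
        rw [if_neg]
        intro h
        exact Finset.disjoint_left.1 (hdis w' w hw') h hQ
      · intro h
        exact absurd (Finset.mem_univ w) h
      · intro v _
        rw [if_neg (hbad w Q hQ v)]
    have hne : ∃ Q ∈ R, s Q ≠ 0 := by
      rcases hnt with ⟨v, hv⟩ | ⟨w, hw1, hw2⟩
      · exact ⟨pr v, (hRmem _).2 (Or.inl ⟨v, rfl⟩), by rwa [hsv]⟩
      · have hww : w ≠ w₀ := by
          rintro rfl
          rw [hB, add_zero] at hw1
          exact hw1 rfl
        have h3 := (mem_ps.1 (hpne w hww)).2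
        have h4 : (p w).Nonempty := by
          by_contra h5
          rw [Finset.not_nonempty_iff_eq_empty] at h5
          rw [h5, Finset.sum_empty] at h3
          omega
        obtain ⟨Q, hQ⟩ := h4
        exact ⟨Q, (hRmem _).2 (Or.inr ⟨w, hQ⟩), by rw [hsw w Q hQ]; exact hw1⟩
    have hdegw : ∀ w, ∑ P ∈ p w, P.natDegree ≤ ν w := by
      intro w
      by_cases hw : w = w₀
      · rw [hw, hp0, Finset.sum_empty]
        exact Nat.zero_le _
      · exact (mem_ps.1 (hpne w hw)).2.le
    have himg : ∑ P ∈ Finset.univ.image pr, P.natDegree = ∑ v, (pr v).natDegree :=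
      Finset.sum_image fun v _ v' _ h => hpr.inj h
    have hDs : ∑ Q ∈ R.filter (fun Q => s Q ≠ 0), Q.natDegree < D := by
      have h3 : R.filter (fun Q => s Q ≠ 0) ⊆ Finset.univ.image pr ∪
          (Finset.univ.filter fun w => c w ≠ 0).biUnion p := by
        intro Q hQ
        rw [Finset.mem_filter] at hQ
        rw [Finset.mem_union, Finset.mem_image, Finset.mem_biUnion]
        rcases (hRmem Q).1 hQ.1 with ⟨v, hv⟩ | ⟨w, hw⟩
        · exact Or.inl ⟨v, Finset.mem_univ v, hv⟩
        · right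
          refine ⟨w, Finset.mem_filter.2 ⟨Finset.mem_univ w, ?_⟩, hw⟩
          rw [← hsw w Q hw]
          exact hQ.2
      have h4 : ∑ Q ∈ R.filter (fun Q => s Q ≠ 0), Q.natDegree ≤
          ∑ Q ∈ Finset.univ.image pr, Q.natDegree +
            ∑ Q ∈ (Finset.univ.filter fun w => c w ≠ 0).biUnion p, Q.natDegree := by
        refine (Finset.sum_le_sum_of_subset h3).trans ?_
        rw [← Finset.sum_union_inter]
        exact Nat.le_add_right _ _
      have h5 : ∑ Q ∈ (Finset.univ.filter fun w => c w ≠ 0).biUnion p, Q.natDegree ≤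
          Fintype.card U * τ := by
        rw [Finset.sum_biUnion fun w _ w' _ hww => hdis w w' hww]
        calc ∑ w ∈ Finset.univ.filter (fun w => c w ≠ 0), ∑ Q ∈ p w, Q.natDegree ≤
            ∑ _w ∈ Finset.univ.filter (fun w => c w ≠ 0), τ := by
              refine Finset.sum_le_sum fun w hw => ?_
              exact (hdegw w).trans (hτ w (Finset.mem_filter.1 hw).2)
          _ ≤ ∑ _w : U, τ := Finset.sum_le_sum_of_subset (Finset.filter_subset _ _)
          _ = _ := by rw [Finset.sum_const, Finset.card_univ, smul_eq_mul]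
      rw [himg] at h4
      omega
    have hm : ν w₀ + ∑ P ∈ R, P.natDegree ≤ ∑ v, (pr v).natDegree + ∑ w, ν w := by
      have h4 : ∑ Q ∈ R, Q.natDegree ≤ ∑ Q ∈ Finset.univ.image pr, Q.natDegree +
            ∑ Q ∈ Finset.univ.biUnion p, Q.natDegree := by
        rw [← Finset.sum_union_inter]
        exact Nat.le_add_right _ _
      have h5 : ∑ Q ∈ Finset.univ.biUnion p, Q.natDegree ≤ ∑ w ∈ Finset.univ.erase w₀, ν w := by
        rw [Finset.sum_biUnion fun w _ w' _ hww => hdis w w' hww,
          ← Finset.add_sum_erase Finset.univ _ (Finset.mem_univ w₀), hp0,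
          Finset.sum_empty, zero_add]
        exact Finset.sum_le_sum fun w _ => hdegw w
      have h6 := Finset.add_sum_erase Finset.univ ν (Finset.mem_univ w₀)
      rw [himg] at h4
      omega
    have hb := ppinn_bound hSuSy hSuZero hPpZer hPpIn hℓ h2 hd χ hχ R hRMI s (αi w₀) hne D hDs
      (1 / N : ℝ) hz0 hz1 (ν w₀) _ hν hm
    -- the sum over `x`
    have hsumx : ∑ x ∈ ps F (ν w₀), wgt χ pr α αi B N (Function.update p w₀ x) =
        wgt χ pr α αi B N p * ∑ x ∈ (ps F (ν w₀)).filter (fun x => Disjoint x R),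
          ((1 / N : ℝ) : ℂ) ^ x.card * ∏ P ∈ x, ZMod.stdAddChar (∑ Q ∈ R, s Q * syl χ Q P +
            αi w₀ * (P.natDegree : ZMod ℓ)) := by
      rw [Finset.mul_sum, Finset.sum_filter]
      refine Finset.sum_congr rfl fun x hx => ?_
      have hxMI := (mem_ps.1 hx).1
      split_ifs with hxR
      · have hxp : ∀ w, Disjoint x (p w) := by
          intro w
          rw [Finset.disjoint_left]
          intro P hP hPw
          exact Finset.disjoint_left.1 hxR hP ((hRmem P).2 (Or.inr ⟨w, hPw⟩))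
        have hxv : ∀ P ∈ x, ∀ v, pr v ≠ P := by
          intro P hP v hv
          exact Finset.disjoint_left.1 hxR hP ((hRmem P).2 (Or.inl ⟨v, hv⟩))
        rw [ppinn_wgt hR pr α αi B N p w₀ (hB w₀) hp0 x hxMI hpMI hdis hxp hxv]
        congr 1
        have e1 : ((1 / N : ℝ) : ℂ) = (N : ℂ)⁻¹ := by
          push_cast
          rw [one_div]
        rw [e1]
        congr 1
        refine Finset.prod_congr rfl fun P _ => ?_
        congr 2
        -- the formal identity
        have e2 : ∀ Q, s Q * syl χ Q P = (∑ v, if pr v = Q then α v w₀ * syl χ (pr v) P else 0) +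
            ∑ w, if Q ∈ p w then c w * syl χ Q P else 0 := by
          intro Q
          rw [hs]
          simp only
          rw [add_mul, Finset.sum_mul, Finset.sum_mul]
          congr 1
          · refine Finset.sum_congr rfl fun v _ => ?_
            split_ifs with h
            · rw [h]
            · rw [zero_mul]
          · refine Finset.sum_congr rfl fun w _ => ?_
            split_ifs with h
            · rfl
            · rw [zero_mul]
        simp only [e2]
        rw [Finset.sum_add_distrib]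
        congr 1
        · rw [Finset.sum_comm]
          refine Finset.sum_congr rfl fun v _ => ?_
          rw [Finset.sum_ite_eq, if_pos ((hRmem _).2 (Or.inl ⟨v, rfl⟩))]
        · rw [Finset.sum_comm]
          refine Finset.sum_congr rfl fun w _ => ?_
          rw [Finset.mul_sum, ← Finset.sum_filter]
          refine Finset.sum_congr ?_ fun _ _ => rfl
          ext Q
          rw [Finset.mem_filter]
          constructor
          · exact fun h => ⟨(hRmem Q).2 (Or.inr ⟨w, h⟩), h⟩
          · exact fun h => h.2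
      · -- the weight vanishes
        rw [Finset.not_disjoint_iff] at hxR
        obtain ⟨P, hPx, hPR⟩ := hxR
        rcases (hRmem P).1 hPR with ⟨v, hv⟩ | ⟨w, hw⟩
        · unfold wgt
          split_ifs with hdd
          · have h9 : ∏ P ∈ Function.update p w₀ x w₀,
                ((N : ℂ)⁻¹ * chc χ pr α αi w₀ P) = 0 := by
              rw [Function.update_self]
              refine Finset.prod_eq_zero hPx ?_
              unfold chc
              rw [if_pos ⟨v, hv⟩, mul_zero]
            rw [Finset.prod_eq_zero (Finset.mem_univ w₀) h9, zero_mul]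
          · rfl
        · have hww : w ≠ w₀ := by
            rintro rfl
            rw [hp0] at hw
            exact absurd hw (Finset.notMem_empty _)
          unfold wgt
          rw [if_neg]
          intro hdd
          have h3 := hdd w₀ w hww.symm
          rw [Function.update_self, Function.update_of_ne hww] at h3
          exact Finset.disjoint_left.1 h3 hPx hw
    rw [hsumx, norm_mul]
    exact mul_le_mul (ppinn_norm_wgt χ pr α αi B N p) hb (norm_nonneg _) hprod0
  have hprod : ∑ p ∈ Fintype.piFinset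
      (Function.update (fun w => ps F (ν w)) w₀ {(∅ : Finset F[X])}),
      ∏ w, (1 / N : ℝ) ^ (p w).card = ∏ w ∈ Finset.univ.erase w₀, GG F (1 / N : ℝ) (ν w) := by
    have e1 := Finset.prod_univ_sum (Function.update (fun w => ps F (ν w)) w₀ {(∅ : Finset F[X])})
      (fun (_ : U) (t : Finset F[X]) => (1 / N : ℝ) ^ t.card)
    rw [← e1, ← Finset.mul_prod_erase Finset.univ _ (Finset.mem_univ w₀),
      Function.update_self, Finset.sum_singleton, Finset.card_empty, pow_zero, one_mul]
    refine Finset.prod_congr rfl fun w hw => ?_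
    rw [Function.update_of_ne (Finset.ne_of_mem_erase hw)]
    rfl
  unfold Tnu
  rw [sum_pi_split _ w₀ (∅ : Finset F[X])]
  refine (norm_sum_le _ _).trans ((Finset.sum_le_sum hmain).trans ?_)
  rw [← Finset.sum_mul, hprod, hE]

end MP72e2e6
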