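import Pool.Agent.Lib.MP_72e2e6_nt.PeStmt
import Pool.Agent.Lib.MP_72e2e6_nt.PpInn

/-!
# MP_72e2e6_nt: positive proportion of quadratic twists, module PeInn
-/

set_option autoImplicit false

namespace MP72e2e6

open Polynomial

universe u

theorem peinn_one {s : ZMod 2} (h : s ≠ 0) : s = 1 := by
  revert s
  decide

open Classical in
/-- the sum over the sets of primes prime to `R` -/
theorem peinn_bound {F : Type u} [Field F] [Finite F] (hSuSy : StmtSuSy.{u})
    (hPeWei : StmtPeWei.{u}) (hPpIn : StmtPpIn.{u}) (hq4 : 4 ≤ Nat.card F)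
    (hd : 2 ∣ Nat.card F - 1) (χ : F → ZMod 2) (hχ : IsLg 2 χ) (hRcp : Rcp χ) (R : Finset F[X])
    (hR : ∀ P ∈ R, P.Monic ∧ Irreducible P) (s : F[X] → ZMod 2) (η : ZMod 2)
    (hne : ∃ Q ∈ R, s Q ≠ 0) (D : ℕ)
    (hD : ∑ Q ∈ R.filter (fun Q => s Q ≠ 0), Q.natDegree < D) (z : ℝ) (hz0 : 0 ≤ z)
    (hz1 : z ≤ 1) (k m : ℕ) (hk : 1 ≤ k) (hm : k + ∑ P ∈ R, P.natDegree ≤ m) :
    ‖∑ t ∈ (ps F k).filter (fun t => Disjoint t R), (z : ℂ) ^ t.card * ∏ P ∈ t,
      ZMod.stdAddChar (∑ Q ∈ R, s Q * syl χ Q P + η * (P.natDegree : ZMod 2))‖ ≤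
      160 * (Nat.card F : ℝ) ^ k * ((D : ℝ) ^ 2 + (Nat.log 2 (m + 2) : ℝ)) / k := by
  obtain ⟨S, hS⟩ : ∃ S, S = R.filter (fun Q => s Q ≠ 0) := ⟨_, rfl⟩
  have hSR : ∀ Q ∈ S, Q ∈ R := fun Q hQ => by
    rw [hS] at hQ
    exact (Finset.mem_filter.1 hQ).1
  set pr' : Fin S.card → F[X] := fun i => (S.equivFin.symm i).1 with hpr'
  have hfam : Fam pr' := by
    refine ⟨?_, fun i => (hR _ (hSR _ (S.equivFin.symm i).2)).1,
      fun i => (hR _ (hSR _ (S.equivFin.symm i).2)).2⟩
    intro i j hij
    exact S.equivFin.symm.injective (Subtype.ext hij)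
  have hsum : ∀ {M : Type} [AddCommMonoid M] (f : F[X] → M),
      ∑ i, f (pr' i) = ∑ Q ∈ S, f Q := by
    intro M _ f
    rw [← Finset.sum_coe_sort S f]
    exact Equiv.sum_comp S.equivFin.symm (fun Q : S => f Q.1)
  set p : (Fin S.card → ZMod 2) × ZMod 2 := (fun _ => 1, η) with hp
  have hl := fun b => suprime_lgc hSuSy Nat.prime_two hd χ hχ (pr' b) (hfam.monic b) (hfam.irr b)
  have hch : IsChL 2 (suprime_chi χ pr' p) :=
    suprime_isCh hSuSy Nat.prime_two hd χ hχ pr' hfam p
  have hphi : suprime_chi χ pr' p = phE χ pr' η := by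
    funext h
    unfold suprime_chi phE
    congr 1
    rw [Finset.filter_true_of_mem]
    intro b _
    exact one_ne_zero
  have hnon : Nonempty (Fin S.card) := by
    obtain ⟨Q, hQ, hsQ⟩ := hne
    exact ⟨S.equivFin ⟨Q, by rw [hS]; exact Finset.mem_filter.2 ⟨hQ, hsQ⟩⟩⟩
  have hTdeg : ∑ b, (pr' b).natDegree < D := by
    rw [hsum (fun Q => Q.natDegree), hS]
    exact hD
  have hD1 : 1 ≤ D := by omega
  have hpsi : ∀ J, ∑ k ∈ Finset.Icc 1 J, ‖psiC (suprime_chi χ pr' p) k‖ / (Nat.card F : ℝ) ^ k ≤
      40 * (D : ℝ) ^ 2 := by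
    intro J
    rw [hphi]
    exact hPeWei F hq4 hd χ hχ hRcp (Fin S.card) pr' hfam η D hTdeg J
  have hY : (1 : ℝ) ≤ 40 * (D : ℝ) ^ 2 := by
    have h1 : (1 : ℝ) ≤ D := by exact_mod_cast hD1
    nlinarith
  have hmain := hPpIn F 2 Nat.prime_two hq4 (suprime_chi χ pr' p) hch (40 * (D : ℝ) ^ 2) hY hpsi
    z hz0 hz1 R k m hk hm
  have hval : ∑ t ∈ (ps F k).filter (fun t => Disjoint t R), (z : ℂ) ^ t.card *
      ∏ P ∈ t, ZMod.stdAddChar (∑ Q ∈ R, s Q * syl χ Q P + η * (P.natDegree : ZMod 2)) =
      ∑ t ∈ (ps F k).filter (fun t => Disjoint t R), (z : ℂ) ^ t.card *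
        ∏ P ∈ t, suprime_chi χ pr' p P := by
    refine Finset.sum_congr rfl fun t ht => ?_
    rw [Finset.mem_filter, mem_ps] at ht
    congr 1
    refine Finset.prod_congr rfl fun P hP => ?_
    have hdvd : ∀ b, ¬ pr' b ∣ P := by
      intro b h
      have h1 : pr' b = P := eq_of_monic_of_associated (hfam.monic b) (ht.1.1 P hP).1
        (((hfam.irr b).dvd_irreducible_iff_associated (ht.1.1 P hP).2).mp h)
      have h3 : P ∈ R := by
        rw [← h1]
        exact hSR _ (S.equivFin.symm b).2
      exact Finset.disjoint_left.1 ht.2 hP h3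
    have e2 : (∏ b ∈ Finset.univ.filter (fun b => p.1 b ≠ 0), lgc χ (p.1 b) (pr' b) P) =
        ZMod.stdAddChar (∑ b, syl χ (pr' b) P) := by
      rw [Finset.prod_congr rfl fun b _ => (hl b).1 (p.1 b) P (hdvd b), suprime_std_sum,
        Finset.filter_true_of_mem fun b _ => one_ne_zero]
      congr 1
      exact Finset.sum_congr rfl fun b _ => one_mul _
    have e3 : ∑ Q ∈ R, s Q * syl χ Q P = ∑ Q ∈ S, syl χ Q P := by
      rw [hS, Finset.sum_filter]
      refine Finset.sum_congr rfl fun Q _ => ?_
      split_ifs with h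
      · rw [peinn_one h, one_mul]
      · rw [not_ne_iff.1 h, zero_mul]
    unfold suprime_chi
    rw [e2, suprime_std_pow, ← AddChar.map_add_eq_mul]
    congr 1
    rw [hsum (fun Q => syl χ Q P), e3, add_comm]
    congr 1
    exact mul_comm _ _
  rw [hval]
  refine hmain.trans ?_
  refine div_le_div_of_nonneg_right ?_ (Nat.cast_nonneg _)
  have hL : (0 : ℝ) ≤ (Nat.log 2 (m + 2) : ℝ) := Nat.cast_nonneg _
  have hq : (0 : ℝ) ≤ (Nat.card F : ℝ) ^ k := by positivity
  nlinarith [mul_nonneg hq hL]

theorem tPeInn (hSuSy : StmtSuSy.{u}) (hPeWei : StmtPeWei.{u})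
    (hPpIn : StmtPpIn.{u}) : StmtPeInn.{u} := by
  classical
  intro F _ _ hq4 hd χ hχ hR V U _ _ _ pr hpr α αi B N hN hB ν w₀ τ hν hτ hnt
  set c : U → ZMod 2 := fun w => B w₀ w + B w w₀ with hc
  set q : ℝ := (Nat.card F : ℝ) with hq
  set D : ℕ := ∑ v, (pr v).natDegree + Fintype.card U * τ + 1 with hD
  set L : ℕ := Nat.log 2 (∑ v, (pr v).natDegree + ∑ w, ν w + 2) with hL
  set E : ℝ := 160 * q ^ ν w₀ * ((D : ℝ) ^ 2 + (L : ℝ)) / (ν w₀ : ℝ) with hE
  have hq0 : 0 ≤ q := Nat.cast_nonneg _
  have hE0 : 0 ≤ E := by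
    rw [hE]
    positivity
  have hz0 : (0 : ℝ) ≤ 1 / (N : ℝ) := by positivity
  have hz1 : (1 / (N : ℝ)) ≤ 1 := by
    have h1 : (1 : ℝ) ≤ N := by exact_mod_cast hN
    rw [div_le_one (by linarith)]
    exact h1
  have hmain : ∀ p ∈ Fintype.piFinset
      (Function.update (fun w => ps F (ν w)) w₀ {(∅ : Finset F[X])}),
      ‖∑ x ∈ ps F (ν w₀), wgt χ pr α αi B N (Function.update p w₀ x)‖ ≤
        (∏ w, (1 / N : ℝ) ^ (p w).card) * E := by
    intro p hp
    rw [Fintype.mem_piFinset] at hp
    have hp0 : p w₀ = ∅ := by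
      have h1 := hp w₀
      rw [Function.update_self, Finset.mem_singleton] at h1
      exact h1
    have hpne : ∀ w, w ≠ w₀ → p w ∈ ps F (ν w) := by
      intro w hw
      have h1 := hp w
      rw [Function.update_of_ne hw] at h1
      exact h1
    have hpMI : ∀ w, ∀ P ∈ p w, P.Monic ∧ Irreducible P := by
      intro w P hP
      by_cases hw : w = w₀
      · rw [hw, hp0] at hP
        exact absurd hP (Finset.notMem_empty _)
      · exact (mem_ps.1 (hpne w hw)).1 P hP
    have hprod0 : 0 ≤ ∏ w, (1 / N : ℝ) ^ (p w).card :=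
      Finset.prod_nonneg fun w _ => pow_nonneg hz0 _
    by_cases hgood : (∀ w w', w ≠ w' → Disjoint (p w) (p w')) ∧ ∀ w, ∀ P ∈ p w, ∀ v, pr v ≠ P
    swap
    · -- all the weights vanish
      have h0 : ∀ x ∈ ps F (ν w₀), wgt χ pr α αi B N (Function.update p w₀ x) = 0 := by
        intro x _
        unfold wgt
        by_cases hdis : ∀ w w', w ≠ w' →
            Disjoint (Function.update p w₀ x w) (Function.update p w₀ x w')
        · rw [if_pos hdis]
          have h3 : ∀ w w', w ≠ w' → Disjoint (p w) (p w') := by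
            intro w w' hww
            by_cases h4 : w = w₀
            · rw [h4, hp0]
              exact Finset.disjoint_empty_left _
            · by_cases h5 : w' = w₀
              · rw [h5, hp0]
                exact Finset.disjoint_empty_right _
              · have h6 := hdis w w' hww
                rwa [Function.update_of_ne h4, Function.update_of_ne h5] at h6
          have h7 : ∃ w, ∃ P ∈ p w, ∃ v, pr v = P := by
            by_contra h8
            push Not at h8
            exact hgood ⟨h3, h8⟩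
          obtain ⟨w, P, hP, v, hv⟩ := h7
          have hw : w ≠ w₀ := by
            rintro rfl
            rw [hp0] at hP
            exact absurd hP (Finset.notMem_empty _)
          have h9 : ∏ P ∈ Function.update p w₀ x w, ((N : ℂ)⁻¹ * chc χ pr α αi w P) = 0 := by
            rw [Function.update_of_ne hw]
            refine Finset.prod_eq_zero hP ?_
            unfold chc
            rw [if_pos ⟨v, hv⟩, mul_zero]
          rw [Finset.prod_eq_zero (Finset.mem_univ w) h9, zero_mul]
        · rw [if_neg hdis]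
      rw [Finset.sum_eq_zero h0, norm_zero]
      exact mul_nonneg hprod0 hE0
    obtain ⟨hdis, hbad⟩ := hgood
    set R : Finset F[X] := Finset.univ.image pr ∪ Finset.univ.biUnion p with hRdef
    have hRmem : ∀ P, P ∈ R ↔ (∃ v, pr v = P) ∨ ∃ w, P ∈ p w := by
      intro P
      rw [hRdef, Finset.mem_union, Finset.mem_image, Finset.mem_biUnion]
      simp
    have hRMI : ∀ P ∈ R, P.Monic ∧ Irreducible P := by
      intro P hP
      rcases (hRmem P).1 hP with ⟨v, rfl⟩ | ⟨w, hw⟩
      · exact ⟨hpr.monic v, hpr.irr v⟩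
      · exact hpMI w P hw
    set s : F[X] → ZMod 2 := fun Q => (∑ v, if pr v = Q then α v w₀ else 0) +
      ∑ w, if Q ∈ p w then c w else 0 with hs
    have hsv : ∀ v, s (pr v) = α v w₀ := by
      intro v
      rw [hs]
      simp only
      rw [Finset.sum_eq_single v, if_pos rfl, Finset.sum_eq_zero, add_zero]
      · intro w _
        rw [if_neg]
        intro h
        exact hbad w (pr v) h v rfl
      · intro v' _ hv'
        rw [if_neg fun h => hv' (hpr.inj h)]
      · intro h
        exact absurd (Finset.mem_univ v) h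
    have hsw : ∀ w, ∀ Q ∈ p w, s Q = c w := by
      intro w Q hQ
      rw [hs]
      simp only
      rw [Finset.sum_eq_zero, zero_add, Finset.sum_eq_single w, if_pos hQ]
      · intro w' _ hw'
        rw [if_neg]
        intro h
        exact Finset.disjoint_left.1 (hdis w' w hw') h hQ
      · intro h
        exact absurd (Finset.mem_univ w) h
      · intro v _
        rw [if_neg (hbad w Q hQ v)]
    have hne : ∃ Q ∈ R, s Q ≠ 0 := by
      rcases hnt with ⟨v, hv⟩ | ⟨w, hw1, hw2⟩
      · exact ⟨pr v, (hRmem _).2 (Or.inl ⟨v, rfl⟩), by rwa [hsv]⟩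
      · have hww : w ≠ w₀ := by
          rintro rfl
          rw [hB, add_zero] at hw1
          exact hw1 rfl
        have h3 := (mem_ps.1 (hpne w hww)).2
        have h4 : (p w).Nonempty := by
          by_contra h5
          rw [Finset.not_nonempty_iff_eq_empty] at h5
          rw [h5, Finset.sum_empty] at h3
          omega
        obtain ⟨Q, hQ⟩ := h4
        exact ⟨Q, (hRmem _).2 (Or.inr ⟨w, hQ⟩), by rw [hsw w Q hQ]; exact hw1⟩
    have hdegw : ∀ w, ∑ P ∈ p w, P.natDegree ≤ ν w := by
      intro w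
      by_cases hw : w = w₀
      · rw [hw, hp0, Finset.sum_empty]
        exact Nat.zero_le _
      · exact (mem_ps.1 (hpne w hw)).2.le
    have himg : ∑ P ∈ Finset.univ.image pr, P.natDegree = ∑ v, (pr v).natDegree :=
      Finset.sum_image fun v _ v' _ h => hpr.inj h
    have hDs : ∑ Q ∈ R.filter (fun Q => s Q ≠ 0), Q.natDegree < D := by
      have h3 : R.filter (fun Q => s Q ≠ 0) ⊆ Finset.univ.image pr ∪
          (Finset.univ.filter fun w => c w ≠ 0).biUnion p := by
        intro Q hQ
        rw [Finset.mem_filter] at hQ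
        rw [Finset.mem_union, Finset.mem_image, Finset.mem_biUnion]
        rcases (hRmem Q).1 hQ.1 with ⟨v, hv⟩ | ⟨w, hw⟩
        · exact Or.inl ⟨v, Finset.mem_univ v, hv⟩
        · right
          refine ⟨w, Finset.mem_filter.2 ⟨Finset.mem_univ w, ?_⟩, hw⟩
          rw [← hsw w Q hw]
          exact hQ.2
      have h4 : ∑ Q ∈ R.filter (fun Q => s Q ≠ 0), Q.natDegree ≤
          ∑ Q ∈ Finset.univ.image pr, Q.natDegree +
            ∑ Q ∈ (Finset.univ.filter fun w => c w ≠ 0).biUnion p, Q.natDegree := by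
        refine (Finset.sum_le_sum_of_subset h3).trans ?_
        rw [← Finset.sum_union_inter]
        exact Nat.le_add_right _ _
      have h5 : ∑ Q ∈ (Finset.univ.filter fun w => c w ≠ 0).biUnion p, Q.natDegree ≤
          Fintype.card U * τ := by
        rw [Finset.sum_biUnion fun w _ w' _ hww => hdis w w' hww]
        calc ∑ w ∈ Finset.univ.filter (fun w => c w ≠ 0), ∑ Q ∈ p w, Q.natDegree ≤
            ∑ _w ∈ Finset.univ.filter (fun w => c w ≠ 0), τ := by
              refine Finset.sum_le_sum fun w hw => ?_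
              exact (hdegw w).trans (hτ w (Finset.mem_filter.1 hw).2)
          _ ≤ ∑ _w : U, τ := Finset.sum_le_sum_of_subset (Finset.filter_subset _ _)
          _ = _ := by rw [Finset.sum_const, Finset.card_univ, smul_eq_mul]
      rw [himg] at h4
      omega
    have hm : ν w₀ + ∑ P ∈ R, P.natDegree ≤ ∑ v, (pr v).natDegree + ∑ w, ν w := by
      have h4 : ∑ Q ∈ R, Q.natDegree ≤ ∑ Q ∈ Finset.univ.image pr, Q.natDegree +
            ∑ Q ∈ Finset.univ.biUnion p, Q.natDegree := by
        rw [← Finset.sum_union_inter]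
        exact Nat.le_add_right _ _
      have h5 : ∑ Q ∈ Finset.univ.biUnion p, Q.natDegree ≤ ∑ w ∈ Finset.univ.erase w₀, ν w := by
        rw [Finset.sum_biUnion fun w _ w' _ hww => hdis w w' hww,
          ← Finset.add_sum_erase Finset.univ _ (Finset.mem_univ w₀), hp0,
          Finset.sum_empty, zero_add]
        exact Finset.sum_le_sum fun w _ => hdegw w
      have h6 := Finset.add_sum_erase Finset.univ ν (Finset.mem_univ w₀)
      rw [himg] at h4
      omega
    have hb := peinn_bound hSuSy hPeWei hPpIn hq4 hd χ hχ hR R hRMI s (αi w₀) hne D hDs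
      (1 / N : ℝ) hz0 hz1 (ν w₀) _ hν hm
    -- the sum over `x`
    have hsumx : ∑ x ∈ ps F (ν w₀), wgt χ pr α αi B N (Function.update p w₀ x) =
        wgt χ pr α αi B N p * ∑ x ∈ (ps F (ν w₀)).filter (fun x => Disjoint x R),
          ((1 / N : ℝ) : ℂ) ^ x.card * ∏ P ∈ x, ZMod.stdAddChar (∑ Q ∈ R, s Q * syl χ Q P +
            αi w₀ * (P.natDegree : ZMod 2)) := by
      rw [Finset.mul_sum, Finset.sum_filter]
      refine Finset.sum_congr rfl fun x hx => ?_
      have hxMI := (mem_ps.1 hx).1
      split_ifs with hxR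
      · have hxp : ∀ w, Disjoint x (p w) := by
          intro w
          rw [Finset.disjoint_left]
          intro P hP hPw
          exact Finset.disjoint_left.1 hxR hP ((hRmem P).2 (Or.inr ⟨w, hPw⟩))
        have hxv : ∀ P ∈ x, ∀ v, pr v ≠ P := by
          intro P hP v hv
          exact Finset.disjoint_left.1 hxR hP ((hRmem P).2 (Or.inl ⟨v, hv⟩))
        rw [ppinn_wgt hR pr α αi B N p w₀ (hB w₀) hp0 x hxMI hpMI hdis hxp hxv]
        congr 1
        have e1 : ((1 / N : ℝ) : ℂ) = (N : ℂ)⁻¹ := by
          push_cast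
          rw [one_div]
        rw [e1]
        congr 1
        refine Finset.prod_congr rfl fun P _ => ?_
        congr 2
        -- the formal identity
        have e2 : ∀ Q, s Q * syl χ Q P = (∑ v, if pr v = Q then α v w₀ * syl χ (pr v) P else 0) +
            ∑ w, if Q ∈ p w then c w * syl χ Q P else 0 := by
          intro Q
          rw [hs]
          simp only
          rw [add_mul, Finset.sum_mul, Finset.sum_mul]
          congr 1
          · refine Finset.sum_congr rfl fun v _ => ?_
            split_ifs with h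
            · rw [h]
            · rw [zero_mul]
          · refine Finset.sum_congr rfl fun w _ => ?_
            split_ifs with h
            · rfl
            · rw [zero_mul]
        simp only [e2]
        rw [Finset.sum_add_distrib]
        congr 1
        · rw [Finset.sum_comm]
          refine Finset.sum_congr rfl fun v _ => ?_
          rw [Finset.sum_ite_eq, if_pos ((hRmem _).2 (Or.inl ⟨v, rfl⟩))]
        · rw [Finset.sum_comm]
          refine Finset.sum_congr rfl fun w _ => ?_
          rw [Finset.mul_sum, ← Finset.sum_filter]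
          refine Finset.sum_congr ?_ fun _ _ => rfl
          ext Q
          rw [Finset.mem_filter]
          constructor
          · exact fun h => ⟨(hRmem Q).2 (Or.inr ⟨w, h⟩), h⟩
          · exact fun h => h.2
      · -- the weight vanishes
        rw [Finset.not_disjoint_iff] at hxR
        obtain ⟨P, hPx, hPR⟩ := hxR
        rcases (hRmem P).1 hPR with ⟨v, hv⟩ | ⟨w, hw⟩
        · unfold wgt
          split_ifs with hdd
          · have h9 : ∏ P ∈ Function.update p w₀ x w₀,
                ((N : ℂ)⁻¹ * chc χ pr α αi w₀ P) = 0 := by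
              rw [Function.update_self]
              refine Finset.prod_eq_zero hPx ?_
              unfold chc
              rw [if_pos ⟨v, hv⟩, mul_zero]
            rw [Finset.prod_eq_zero (Finset.mem_univ w₀) h9, zero_mul]
          · rfl
        · have hww : w ≠ w₀ := by
            rintro rfl
            rw [hp0] at hw
            exact absurd hw (Finset.notMem_empty _)
          unfold wgt
          rw [if_neg]
          intro hdd
          have h3 := hdd w₀ w hww.symm
          rw [Function.update_self, Function.update_of_ne hww] at h3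
          exact Finset.disjoint_left.1 h3 hPx hw
    rw [hsumx, norm_mul]
    exact mul_le_mul (ppinn_norm_wgt χ pr α αi B N p) hb (norm_nonneg _) hprod0
  have hprod : ∑ p ∈ Fintype.piFinset
      (Function.update (fun w => ps F (ν w)) w₀ {(∅ : Finset F[X])}),
      ∏ w, (1 / N : ℝ) ^ (p w).card = ∏ w ∈ Finset.univ.erase w₀, GG F (1 / N : ℝ) (ν w) := by
    have e1 := Finset.prod_univ_sum (Function.update (fun w => ps F (ν w)) w₀ {(∅ : Finset F[X])})
      (fun (_ : U) (t : Finset F[X]) => (1 / N : ℝ) ^ t.card)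
    rw [← e1, ← Finset.mul_prod_erase Finset.univ _ (Finset.mem_univ w₀),
      Function.update_self, Finset.sum_singleton, Finset.card_empty, pow_zero, one_mul]
    refine Finset.prod_congr rfl fun w hw => ?_
    rw [Function.update_of_ne (Finset.ne_of_mem_erase hw)]
    rfl
  unfold Tnu
  rw [sum_pi_split _ w₀ (∅ : Finset F[X])]
  refine (norm_sum_le _ _).trans ((Finset.sum_le_sum hmain).trans ?_)
  rw [← Finset.sum_mul, hprod, hE]

end MP72e2e6
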