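import Pool.Agent.Lib.MP_72e2e6_nt.PeStmtB

/-!
# MP_72e2e6_nt, module PeIrr: irreducibility and self-adjoint forms
-/

namespace MP72e2e6

open Polynomial

section peirr

variable {m : ℕ}

theorem peirr_two (x : ZMod 2) : x + x = 0 := by
  revert x
  decide

theorem peirr_ne {x y : ZMod 2} (h : x ≠ y) : x + y = 1 := by
  revert x y
  decide

/-- The vectors of the edges. -/
def peirr_r (i j : Fin m) : Ev m :=
  ⟨Pi.single i 1 + Pi.single j 1, by
    change ∑ k, ((Pi.single i 1 : Fin m → ZMod 2) k + (Pi.single j 1 : Fin m → ZMod 2) k) = 0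
    rw [Finset.sum_add_distrib, Finset.sum_pi_single' i 1, Finset.sum_pi_single' j 1,
      if_pos (Finset.mem_univ _), if_pos (Finset.mem_univ _)]
    decide⟩

theorem peirr_r_apply (i j k : Fin m) : (peirr_r i j : Fin m → ZMod 2) k =
    (if k = i then 1 else 0) + (if k = j then 1 else 0) := by
  change (Pi.single i 1 : Fin m → ZMod 2) k + (Pi.single j 1 : Fin m → ZMod 2) k = _
  rw [Pi.single_apply, Pi.single_apply]

theorem peirr_r_self (i : Fin m) : peirr_r i i = 0 := by
  refine Subtype.ext (funext fun k => ?_)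
  rw [peirr_r_apply, peirr_two]
  rfl

theorem peirr_r_rel (i k l : Fin m) : peirr_r i l = peirr_r i k + peirr_r k l := by
  refine Subtype.ext (funext fun x => ?_)
  change _ = (peirr_r i k : Fin m → ZMod 2) x + (peirr_r k l : Fin m → ZMod 2) x
  rw [peirr_r_apply, peirr_r_apply, peirr_r_apply]
  linear_combination -(peirr_two (if x = k then (1 : ZMod 2) else 0))

theorem peirr_ip (i j : Fin m) (y : Ev m) :
    ipE m (peirr_r i j) y = (y : Fin m → ZMod 2) i + (y : Fin m → ZMod 2) j := by
  rw [ipE_apply, ip]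
  have h : ∀ k, (peirr_r i j : Fin m → ZMod 2) k * (y : Fin m → ZMod 2) k =
      (if k = i then (y : Fin m → ZMod 2) k else 0) +
        (if k = j then (y : Fin m → ZMod 2) k else 0) := by
    intro k
    rw [peirr_r_apply]
    split_ifs <;> ring
  rw [Finset.sum_congr rfl fun k _ => h k, Finset.sum_add_distrib, Finset.sum_ite_eq',
    Finset.sum_ite_eq', if_pos (Finset.mem_univ _), if_pos (Finset.mem_univ _)]

/-- The vectors `r i k` generate. -/
theorem peirr_gen (i : Fin m) (c : Ev m) :
    c = ∑ k, (c : Fin m → ZMod 2) k • peirr_r i k := by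
  have hc : ∑ k, (c : Fin m → ZMod 2) k = 0 := c.2
  refine Subtype.ext (funext fun x => ?_)
  rw [AddSubmonoidClass.coe_finsetSum, Finset.sum_apply]
  have h2 : ∀ k, ((((c : Fin m → ZMod 2) k • peirr_r i k : Ev m)) : Fin m → ZMod 2) x =
      (if x = i then 1 else 0) * (c : Fin m → ZMod 2) k +
        (if x = k then (c : Fin m → ZMod 2) k else 0) := by
    intro k
    change (c : Fin m → ZMod 2) k * (peirr_r i k : Fin m → ZMod 2) x = _
    rw [peirr_r_apply]
    split_ifs <;> ring
  rw [Finset.sum_congr rfl fun k _ => h2 k, Finset.sum_add_distrib, ← Finset.mul_sum, hc,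
    mul_zero, zero_add, Finset.sum_ite_eq, if_pos (Finset.mem_univ _)]

theorem peirr_top (A : Submodule (ZMod 2) (Ev m)) (i : Fin m) (h : ∀ k, peirr_r i k ∈ A) :
    A = ⊤ := by
  rw [eq_top_iff]
  intro c _
  rw [peirr_gen i c]
  exact A.sum_mem fun k _ => A.smul_mem _ (h k)

theorem peirr_r_left {i j : Fin m} (h : i ≠ j) : (peirr_r i j : Fin m → ZMod 2) i = 1 := by
  rw [peirr_r_apply, if_pos rfl, if_neg h, add_zero]

theorem peirr_r_right {i j : Fin m} (h : i ≠ j) : (peirr_r i j : Fin m → ZMod 2) j = 1 := by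
  rw [peirr_r_apply, if_neg h.symm, if_pos rfl, zero_add]

theorem peirr_r_other {i j l : Fin m} (h : l ≠ i) (h' : l ≠ j) :
    (peirr_r i j : Fin m → ZMod 2) l = 0 := by
  rw [peirr_r_apply, if_neg h, if_neg h', add_zero]

/-- An invariant subspace contains the vectors of the edges. -/
theorem peirr_mem (A : Submodule (ZMod 2) (Ev m)) {i j : Fin m}
    (hA : ∀ y ∈ A, trE (peirr_r i j) y ∈ A) {c : Ev m} (hc : c ∈ A)
    (h : (c : Fin m → ZMod 2) i ≠ (c : Fin m → ZMod 2) j) : peirr_r i j ∈ A := by
  have h1 := hA c hc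
  rw [trE_apply, peirr_ip, peirr_ne h, one_smul] at h1
  exact (A.add_mem_iff_right hc).1 h1

/-- The number of an edge. -/
theorem peirr_num (hm : 3 ≤ m) {g : Ev m →ₗ[ZMod 2] Module.Dual (ZMod 2) (Ev m)} {i j : Fin m}
    (hij : i ≠ j) (hg : ∀ x y, g x (trE (peirr_r i j) y) = g (trE (peirr_r i j) x) y) :
    ∃ γ : ZMod 2, ∀ y : Ev m, g (peirr_r i j) y =
      γ * ((y : Fin m → ZMod 2) i + (y : Fin m → ZMod 2) j) := by
  obtain ⟨k, hk⟩ : ∃ k, k ∉ ({i, j} : Finset (Fin m)) := by
    by_contra hcon
    push Not at hcon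
    have h1 : (Finset.univ : Finset (Fin m)) ⊆ {i, j} := fun k _ => hcon k
    have h2 := Finset.card_le_card h1
    rw [Finset.card_univ, Fintype.card_fin, Finset.card_pair hij] at h2
    omega
  have hki : k ≠ i := fun h => hk (by rw [h]; exact Finset.mem_insert_self _ _)
  have hkj : k ≠ j := fun h => hk (by
    rw [h]
    exact Finset.mem_insert_of_mem (Finset.mem_singleton_self _))
  refine ⟨g (peirr_r i k) (peirr_r i j), fun y => ?_⟩
  have h1 := hg (peirr_r i k) y
  rw [trE_apply, trE_apply, map_add, map_add, map_smul, map_smul, LinearMap.add_apply,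
    LinearMap.smul_apply, peirr_ip, peirr_ip, peirr_r_left hki.symm,
    peirr_r_other hij.symm hkj.symm, smul_eq_mul, add_zero, one_smul] at h1
  have h2 := add_left_cancel h1
  rw [← h2]
  ring

end peirr

theorem tPeIrr : StmtPeIrr := by
  classical
  intro m hm hm3 V ν hedge' Λ
  have hedge : ∀ s : Finset (Fin m), s.Nonempty → s ≠ Finset.univ → ∃ i ∈ s, ∃ j, j ∉ s ∧
      ∃ v, ν v = peirr_r i j := by
    intro s hs hs'
    obtain ⟨i, hi, j, hj, v, hv⟩ := hedge' s hs hs'
    exact ⟨i, hi, j, hj, v, Subtype.ext hv⟩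
  refine ⟨⟨?_, ?_⟩, ?_⟩
  · -- nontrivial
    have h01 : (⟨0, by omega⟩ : Fin m) ≠ ⟨1, by omega⟩ := by
      intro h
      exact absurd (congrArg Fin.val h) (by simp)
    refine ⟨peirr_r ⟨0, by omega⟩ ⟨1, by omega⟩, 0, fun h => ?_⟩
    have h1 := congrFun (congrArg Subtype.val h) (⟨0, by omega⟩ : Fin m)
    rw [peirr_r_left h01] at h1
    change (1 : ZMod 2) = 0 at h1
    exact absurd h1 (by decide)
  · -- irreducible
    intro A hA _
    by_cases hbot : A = ⊥
    · exact Or.inl hbot
    right
    obtain ⟨c, hc, hc0⟩ := A.ne_bot_iff.1 hbot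
    have hcs : ∑ k, (c : Fin m → ZMod 2) k = 0 := c.2
    let k₀ : Fin m := ⟨0, by omega⟩
    obtain ⟨i, hi, j, hj, v, hv⟩ := hedge
      (Finset.univ.filter fun k => (c : Fin m → ZMod 2) k = (c : Fin m → ZMod 2) k₀)
      ⟨k₀, Finset.mem_filter.2 ⟨Finset.mem_univ _, rfl⟩⟩ (by
        intro huniv
        have h1 : ∀ k, (c : Fin m → ZMod 2) k = (c : Fin m → ZMod 2) k₀ := by
          intro k
          have h0 := Finset.mem_univ k
          rw [← huniv, Finset.mem_filter] at h0
          exact h0.2
        rw [Finset.sum_congr rfl fun k _ => h1 k, Finset.sum_const, Finset.card_univ,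
          Fintype.card_fin, nsmul_eq_mul] at hcs
        have h2 : (m : ZMod 2) = 1 := ZMod.natCast_eq_one_iff_odd.2 hm
        rw [h2, one_mul] at hcs
        exact hc0 (Subtype.ext (funext fun k => (h1 k).trans hcs)))
    have hci : (c : Fin m → ZMod 2) i = (c : Fin m → ZMod 2) k₀ := (Finset.mem_filter.1 hi).2
    have hcj : (c : Fin m → ZMod 2) j ≠ (c : Fin m → ZMod 2) k₀ := fun h =>
      hj (Finset.mem_filter.2 ⟨Finset.mem_univ _, h⟩)
    have hij : i ≠ j := fun h => hj (h ▸ hi)
    have hrij : peirr_r i j ∈ A := peirr_mem A (hv ▸ hA v) hc fun h => hcj (h ▸ hci)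
    refine peirr_top A i ?_
    by_contra hcon
    push Not at hcon
    obtain ⟨k₁, hk₁⟩ := hcon
    obtain ⟨k, hk, l, hl, v', hv'⟩ := hedge
      (Finset.univ.filter fun k => peirr_r i k ∈ A)
      ⟨i, Finset.mem_filter.2 ⟨Finset.mem_univ _, by rw [peirr_r_self]; exact A.zero_mem⟩⟩ (by
        intro huniv
        have h1 := Finset.mem_univ k₁
        rw [← huniv, Finset.mem_filter] at h1
        exact hk₁ h1.2)
    have hkl : k ≠ l := fun h => hl (h ▸ hk)
    have hk' := (Finset.mem_filter.1 hk).2
    have hl' : peirr_r i l ∉ A := fun h => hl (Finset.mem_filter.2 ⟨Finset.mem_univ _, h⟩)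
    have hli : l ≠ i := by
      rintro rfl
      exact hl' (by rw [peirr_r_self]; exact A.zero_mem)
    by_cases hki : k = i
    · subst hki
      have hjl : l ≠ j := fun h => hl' (by rw [h]; exact hrij)
      refine hl' (peirr_mem A (hv' ▸ hA v') hrij ?_)
      rw [peirr_r_left hij, peirr_r_other hli hjl]
      exact one_ne_zero
    · refine hl' ?_
      rw [peirr_r_rel i k l]
      refine A.add_mem hk' (peirr_mem A (hv' ▸ hA v') hk' ?_)
      rw [peirr_r_right (Ne.symm hki), peirr_r_other hli hkl.symm]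
      exact one_ne_zero
  · -- self-adjoint forms
    rintro g ⟨hg1, hg2, -⟩
    have hsymm : ∀ x y, g x y = g y x := by
      intro x y
      have h1 := hg1 (x + y)
      rw [map_add g, LinearMap.add_apply, map_add, map_add, hg1, hg1, zero_add, add_zero] at h1
      by_contra h2
      rw [peirr_ne h2] at h1
      exact one_ne_zero h1
    have hnum : ∀ (i j : Fin m) (v : V), i ≠ j → ν v = peirr_r i j → ∃ γ : ZMod 2,
        ∀ y : Ev m, g (peirr_r i j) y =
          γ * ((y : Fin m → ZMod 2) i + (y : Fin m → ZMod 2) j) := by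
      intro i j v hij hv
      refine peirr_num hm3 hij fun x y => ?_
      have h1 := hg2 v x y
      simp only [hv] at h1
      exact h1
    let k₀ : Fin m := ⟨0, by omega⟩
    obtain ⟨i, hi, j, hj, v, hv⟩ := hedge {k₀} (Finset.singleton_nonempty _) (by
      intro h
      have h1 := congrArg Finset.card h
      rw [Finset.card_singleton, Finset.card_univ, Fintype.card_fin] at h1
      omega)
    have hij : i ≠ j := fun h => hj (h ▸ hi)
    obtain ⟨γ, hγ⟩ := hnum i j v hij hv
    have hall : ∀ k, ∀ y : Ev m, g (peirr_r i k) y =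
        γ * ((y : Fin m → ZMod 2) i + (y : Fin m → ZMod 2) k) := by
      by_contra hcon
      rw [not_forall] at hcon
      obtain ⟨k₁, hk₁⟩ := hcon
      have his : ∀ y : Ev m, g (peirr_r i i) y =
          γ * ((y : Fin m → ZMod 2) i + (y : Fin m → ZMod 2) i) := by
        intro y
        rw [peirr_r_self, map_zero, LinearMap.zero_apply, peirr_two, mul_zero]
      obtain ⟨k, hk, l, hl, v', hv'⟩ := hedge
        (Finset.univ.filter fun k => ∀ y : Ev m, g (peirr_r i k) y =
          γ * ((y : Fin m → ZMod 2) i + (y : Fin m → ZMod 2) k))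
        ⟨i, Finset.mem_filter.2 ⟨Finset.mem_univ _, his⟩⟩ (by
          intro huniv
          have h1 := Finset.mem_univ k₁
          rw [← huniv, Finset.mem_filter] at h1
          exact hk₁ h1.2)
      have hkl : k ≠ l := fun h => hl (h ▸ hk)
      have hk' := (Finset.mem_filter.1 hk).2
      have hl' : ¬ ∀ y : Ev m, g (peirr_r i l) y =
          γ * ((y : Fin m → ZMod 2) i + (y : Fin m → ZMod 2) l) :=
        fun h => hl (Finset.mem_filter.2 ⟨Finset.mem_univ _, h⟩)
      have hli : l ≠ i := by
        rintro rfl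
        exact hl' his
      obtain ⟨γ', hγ'⟩ := hnum k l v' hkl hv'
      by_cases hki : k = i
      · subst hki
        have hjl : l ≠ j := by
          rintro rfl
          exact hl' hγ
        have h1 := hγ (peirr_r k l)
        have h2 := hγ' (peirr_r k j)
        rw [hsymm, h2, peirr_r_left hij, peirr_r_other hli hjl, peirr_r_left hkl,
          peirr_r_other hij.symm hjl.symm, add_zero, mul_one, mul_one] at h1
        rw [h1] at hγ'
        exact hl' hγ'
      · have h1 := hk' (peirr_r k l)
        have h2 := hγ' (peirr_r i k)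
        rw [hsymm, h2, peirr_r_right (Ne.symm hki), peirr_r_other hli hkl.symm,
          peirr_r_other (Ne.symm hki) hli.symm, peirr_r_left hkl, add_zero, zero_add, mul_one,
          mul_one] at h1
        rw [h1] at hγ'
        refine hl' fun y => ?_
        rw [peirr_r_rel i k l, map_add, LinearMap.add_apply, hk' y, hγ' y]
        linear_combination γ * peirr_two ((y : Fin m → ZMod 2) k)
    have hfin : g = γ • ipE m := by
      refine LinearMap.ext fun c => LinearMap.ext fun y => ?_
      rw [LinearMap.smul_apply, LinearMap.smul_apply, smul_eq_mul]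
      conv_lhs => rw [peirr_gen i c]
      conv_rhs => rw [peirr_gen i c]
      rw [map_sum, map_sum, LinearMap.sum_apply, LinearMap.sum_apply, Finset.mul_sum]
      refine Finset.sum_congr rfl fun k _ => ?_
      rw [map_smul, map_smul, LinearMap.smul_apply, LinearMap.smul_apply, hall k y, peirr_ip,
        smul_eq_mul, smul_eq_mul]
      ring
    have hγ2 : ∀ t : ZMod 2, t = 0 ∨ t = 1 := by decide
    rcases hγ2 γ with h | h
    · left
      rw [hfin, h, zero_smul]
    · right
      rw [hfin, h, one_smul]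

end MP72e2e6
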