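import Pool.Agent.Lib.MP_72e2e6_nt.PpStmtB

/-!
# MP_72e2e6_nt: positive proportion of twists, the main term
-/

set_option autoImplicit false

namespace MP72e2e6

open Polynomial

universe u

section

theorem ppmt_two {ℓ : ℕ} [Fact ℓ.Prime] (h2 : ℓ ≠ 2) {a : ZMod ℓ} (h : a = -a) : a = 0 := by
  have h3 : (2 : ZMod ℓ) * a = 0 := by linear_combination h
  rcases mul_eq_zero.1 h3 with h4 | h4
  · exfalso
    have h5 : ((2 : ℕ) : ZMod ℓ) = 0 := by exact_mod_cast h4
    rw [ZMod.natCast_eq_zero_iff] at h5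
    exact h2 ((Nat.prime_dvd_prime_iff_eq (Fact.out) Nat.prime_two).1 h5)
  · exact h4

theorem ppmt_norm {ℓ : ℕ} [NeZero ℓ] (x : ZMod ℓ) : ‖(ZMod.stdAddChar x : ℂ)‖ = 1 := by
  refine Complex.norm_eq_one_of_pow_eq_one (n := ℓ) ?_ (NeZero.ne ℓ)
  rw [← AddChar.map_nsmul_eq_pow, nsmul_eq_mul, ZMod.natCast_self, zero_mul,
    AddChar.map_zero_eq_one]

variable {ℓ : ℕ} [Fact ℓ.Prime] {V W : Type} [AddCommGroup W] [Module (ZMod ℓ) W]

/-- The sum over the dual space. -/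
theorem ppmt_sum [Fintype (Module.Dual (ZMod ℓ) W)] (z : W) (hz : z ≠ 0) :
    ∑ η : Module.Dual (ZMod ℓ) W, (ZMod.stdAddChar (η z) : ℂ) = 0 := by
  classical
  let L : Module.Dual (ZMod ℓ) W →+ ZMod ℓ :=
    { toFun := fun η => η z, map_zero' := rfl, map_add' := fun _ _ => rfl }
  have h1 : ∃ η : Module.Dual (ZMod ℓ) W, η z ≠ 0 := by
    by_contra h
    push Not at h
    exact hz ((Module.forall_dual_apply_eq_zero_iff (ZMod ℓ) z).1 h)
  obtain ⟨η₀, hη₀⟩ := h1
  have h2 : (ZMod.stdAddChar (N := ℓ)).compAddMonoidHom L ≠ 0 := by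
    intro h
    have h3 := congrArg (fun ψ : AddChar (Module.Dual (ZMod ℓ) W) ℂ => ψ η₀) h
    have h4 : (ZMod.stdAddChar (η₀ z) : ℂ) = 1 := h3
    rw [← AddChar.map_zero_eq_one (ZMod.stdAddChar (N := ℓ))] at h4
    exact hη₀ (ZMod.injective_stdAddChar h4)
  have h3 := AddChar.sum_eq_ite ((ZMod.stdAddChar (N := ℓ)).compAddMonoidHom L)
  rw [if_neg h2] at h3
  exact h3

/-- The structure of the admissible sets. -/
theorem ppmt_dich (hPpTS : StmtPpTS) (h2 : ℓ ≠ 2) [Fintype W]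
    {σ : V → Module.End (ZMod ℓ) W} {Λ : Module.End (ZMod ℓ) W} (hI : IrrW σ Λ)
    {c : V → W} {d : V → Module.Dual (ZMod ℓ) W} {η : Module.Dual (ZMod ℓ) W}
    {𝓥 : Finset (W × Module.Dual (ZMod ℓ) W)}
    (hA : Adm BW (Fintype.card W) (alW σ c d) (aiW Λ η) 𝓥) :
    (∃ c₀ : W, Λ c₀ = 0 ∧ (∀ v, σ v (c v - c₀) = 0) ∧ ∀ u, u ∈ 𝓥 ↔ u.1 = c₀) ∨
    (∃ g ∈ Sk σ Λ, ∃ d₀ : Module.Dual (ZMod ℓ) W, (∀ v, d v = (d₀ + g (c v)) ∘ₗ σ v) ∧
      η = d₀ ∘ₗ Λ ∧ ∀ u, u ∈ 𝓥 ↔ u.2 = d₀ + g u.1) := by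
  have hcard : 𝓥.card = Nat.card W := by rw [hA.card, Nat.card_eq_fintype_card]
  have hne : 𝓥.Nonempty := by
    rw [← Finset.card_pos, hA.card]
    exact Fintype.card_pos
  obtain ⟨⟨c₀, δ₀⟩, hu₀⟩ := hne
  obtain ⟨L, hmem, hQ, hE⟩ := (hPpTS ℓ W 𝓥 hA.unl).2 hcard _ hu₀
  set A : Submodule (ZMod ℓ) W := L.map (LinearMap.fst (ZMod ℓ) W (Module.Dual (ZMod ℓ) W))
    with hAd
  have hmA : ∀ y, y ∈ A ↔ ∃ e, (y, e) ∈ L := by
    intro y
    rw [hAd, Submodule.mem_map]
    constructor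
    · rintro ⟨⟨a, e⟩, h, rfl⟩
      exact ⟨e, h⟩
    · rintro ⟨e, h⟩
      exact ⟨(y, e), h, rfl⟩
  have hL𝓥 : ∀ x ∈ L, ((c₀, δ₀) + x) ∈ 𝓥 := by
    intro x hx
    rw [hmem, add_sub_cancel_left]
    exact hx
  have hkey : ∀ e : Module.Dual (ZMod ℓ) W, (∀ y ∈ A, e y = 0) → ∀ y ∈ A,
      (∀ v, e (σ v (c v - c₀ - y)) = 0) ∧ e (Λ (c₀ + y)) = 0 := by
    intro e he y hy
    obtain ⟨x2, hx⟩ := (hmA y).1 hy
    have hx' : (y, x2 + e) ∈ L := by
      have h1 : ((0 : W), e) ∈ L := hE e fun x hx => he x.1 ((hmA _).2 ⟨x.2, hx⟩)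
      have h3 := L.add_mem hx h1
      rwa [Prod.mk_add_mk, add_zero] at h3
    have hu := hL𝓥 _ hx
    have hu' := hL𝓥 _ hx'
    rw [Prod.mk_add_mk] at hu hu'
    refine ⟨fun v => ?_, ?_⟩
    · have h3 := hA.bad _ hu v
      have h4 := hA.bad _ hu' v
      simp only [alW, LinearMap.add_apply] at h3 h4
      have h5 : c v - c₀ - y = c v - (c₀ + y) := by abel
      rw [h5]
      linear_combination h4 - h3
    · have h3 := hA.inf _ hu _ hu'
      simp only [aiW, LinearMap.add_apply] at h3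
      linear_combination h3
  have hk1 : ∀ v, ∀ y ∈ A, σ v (c v - c₀ - y) ∈ A := by
    intro v y hy
    refine (Subspace.forall_mem_dualAnnihilator_apply_eq_zero_iff A _).1 fun e he => ?_
    exact ((hkey e ((Submodule.mem_dualAnnihilator e).1 he) y hy).1 v)
  have hk2 : ∀ y ∈ A, Λ (c₀ + y) ∈ A := by
    intro y hy
    refine (Subspace.forall_mem_dualAnnihilator_apply_eq_zero_iff A _).1 fun e he => ?_
    exact (hkey e ((Submodule.mem_dualAnnihilator e).1 he) y hy).2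
  have hσA : ∀ v, ∀ y ∈ A, σ v y ∈ A := by
    intro v y hy
    have h3 := A.sub_mem (hk1 v 0 A.zero_mem) (hk1 v y hy)
    rw [← map_sub] at h3
    have h4 : c v - c₀ - 0 - (c v - c₀ - y) = y := by abel
    rwa [h4] at h3
  have hΛA : ∀ y ∈ A, Λ y ∈ A := by
    intro y hy
    have h3 := A.sub_mem (hk2 y hy) (hk2 0 A.zero_mem)
    rw [← map_sub] at h3
    have h4 : c₀ + y - (c₀ + 0) = y := by abel
    rwa [h4] at h3
  rcases hI.irr A hσA hΛA with hbot | htop
  · left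
    refine ⟨c₀, ?_, fun v => ?_, fun u => ?_⟩
    · have h3 := hk2 0 A.zero_mem
      rwa [hbot, Submodule.mem_bot, add_zero] at h3
    · have h3 := hk1 v 0 A.zero_mem
      rwa [hbot, Submodule.mem_bot, sub_zero] at h3
    · rw [hmem]
      constructor
      · intro h
        have h3 : (u - (c₀, δ₀)).1 ∈ A := (hmA _).2 ⟨_, h⟩
        rw [hbot, Submodule.mem_bot] at h3
        exact sub_eq_zero.1 h3
      · intro h
        have h3 : u - (c₀, δ₀) = (0, u.2 - δ₀) := by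
          refine Prod.ext ?_ rfl
          change u.1 - c₀ = 0
          rw [h, sub_self]
        rw [h3]
        refine hE _ fun x hx => ?_
        have h4 : x.1 ∈ A := (hmA _).2 ⟨x.2, hx⟩
        rw [hbot, Submodule.mem_bot] at h4
        rw [h4, map_zero]
  · right
    have h0 : ∀ e, ((0 : W), e) ∈ L → e = 0 := by
      intro e he
      apply LinearMap.ext
      intro y
      have hy : y ∈ A := by
        rw [htop]
        exact Submodule.mem_top
      obtain ⟨x2, hx⟩ := (hmA y).1 hy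
      have h3 := hQ _ hx
      have h4 := hQ _ (L.add_mem hx he)
      rw [Prod.mk_add_mk, add_zero] at h4
      simp only [LinearMap.add_apply] at h3 h4
      rw [h3, zero_add] at h4
      exact h4
    let φ : L →ₗ[ZMod ℓ] W := LinearMap.fst (ZMod ℓ) W (Module.Dual (ZMod ℓ) W) ∘ₗ L.subtype
    have hφ : Function.Bijective φ := by
      constructor
      · rw [← LinearMap.ker_eq_bot, Submodule.eq_bot_iff]
        rintro ⟨⟨x1, x2⟩, hx⟩ h
        have h3 : x1 = 0 := h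
        subst h3
        have h4 := h0 x2 hx
        subst h4
        rfl
      · intro y
        have hy : y ∈ A := by
          rw [htop]
          exact Submodule.mem_top
        obtain ⟨x2, hx⟩ := (hmA y).1 hy
        exact ⟨⟨(y, x2), hx⟩, rfl⟩
    let E := LinearEquiv.ofBijective φ hφ
    let g : W →ₗ[ZMod ℓ] Module.Dual (ZMod ℓ) W :=
      LinearMap.snd (ZMod ℓ) W (Module.Dual (ZMod ℓ) W) ∘ₗ L.subtype ∘ₗ
        (E.symm : W →ₗ[ZMod ℓ] L)
    have hg : ∀ x : W, (x, g x) ∈ L := by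
      intro x
      have h3 : ((E.symm x : L) : W × Module.Dual (ZMod ℓ) W) = (x, g x) := by
        refine Prod.ext ?_ rfl
        exact E.apply_symm_apply x
      rw [← h3]
      exact (E.symm x).2
    have hg' : ∀ x e, (x, e) ∈ L ↔ e = g x := by
      intro x e
      constructor
      · intro h
        have h3 := L.sub_mem h (hg x)
        rw [Prod.mk_sub_mk, sub_self] at h3
        exact sub_eq_zero.1 (h0 _ h3)
      · rintro rfl
        exact hg x
    have hgx : ∀ x, g x x = 0 := fun x => hQ _ (hg x)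
    set d₀ : Module.Dual (ZMod ℓ) W := δ₀ - g c₀ with hd₀
    have h𝓥 : ∀ u, u ∈ 𝓥 ↔ u.2 = d₀ + g u.1 := by
      rintro ⟨u1, u2⟩
      rw [hmem, Prod.mk_sub_mk, hg', map_sub, hd₀]
      constructor
      · intro h
        change u2 = δ₀ - g c₀ + g u1
        rw [← sub_add_cancel u2 δ₀, h]
        abel
      · intro h
        have h3 : u2 = δ₀ - g c₀ + g u1 := h
        rw [h3]
        abel
    have hbad : ∀ v y, d v y - (d₀ + g (c v)) (σ v y) = g y (σ v y) := by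
      intro v y
      have h3 := hA.bad (c v + y, d₀ + g (c v + y)) ((h𝓥 _).2 rfl) v
      simp only [alW, map_add, LinearMap.add_apply, add_sub_cancel_left, sub_add_cancel_left,
        map_neg] at h3
      rw [LinearMap.add_apply]
      linear_combination h3
    have hodd : ∀ v y, d v y - (d₀ + g (c v)) (σ v y) = 0 := by
      intro v y
      apply ppmt_two h2
      have h3 := hbad v y
      have h4 := hbad v (-y)
      simp only [map_neg, LinearMap.neg_apply, neg_neg] at h4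
      linear_combination h3 - h4
    have hinf : ∀ x, η x - d₀ (Λ x) = g x (Λ x) := by
      intro x
      have h3 := hA.inf (x, d₀ + g x) ((h𝓥 _).2 rfl) (0, d₀ + g 0) ((h𝓥 _).2 rfl)
      simp only [aiW, map_zero, LinearMap.add_apply, sub_zero] at h3
      linear_combination h3
    have hodd' : ∀ x, η x - d₀ (Λ x) = 0 := by
      intro x
      apply ppmt_two h2
      have h3 := hinf x
      have h4 := hinf (-x)
      simp only [map_neg, LinearMap.neg_apply, neg_neg] at h4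
      linear_combination h3 - h4
    refine ⟨g, fun x => ⟨hgx x, fun v => ?_, ?_⟩, d₀, fun v => ?_, ?_, h𝓥⟩
    · rw [← hbad v x, hodd v x]
    · rw [← hinf x, hodd' x]
    · apply LinearMap.ext
      intro y
      exact sub_eq_zero.1 (hodd v y)
    · apply LinearMap.ext
      intro y
      exact sub_eq_zero.1 (hodd' y)

end

theorem ppmt_card {ℓ : ℕ} [Fact ℓ.Prime] {W : Type} [AddCommGroup W] [Module (ZMod ℓ) W]
    [Fintype W] [Fintype (Module.Dual (ZMod ℓ) W)] :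
    Fintype.card (Module.Dual (ZMod ℓ) W) = Fintype.card W := by
  have h1 : Module.finrank (ZMod ℓ) (Module.Dual (ZMod ℓ) W) = Module.finrank (ZMod ℓ) W :=
    Subspace.dual_finrank_eq
  exact Fintype.card_congr (LinearEquiv.ofFinrankEq _ _ h1).toEquiv

theorem tPpMT (hPpTS : StmtPpTS) : StmtPpMT.{u} := by
  intro F _ ℓ _ hℓ V W _ _ _ _ _ χ pr σ Λ hI hinj n hInf
  classical
  have hW : Nontrivial W := hI.nontriv
  set N : ℕ := Fintype.card W with hN
  have hD : Fintype.card (Module.Dual (ZMod ℓ) W) = N := ppmt_card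
  have hN0 : (N : ℂ) ≠ 0 := Nat.cast_ne_zero.2 Fintype.card_ne_zero
  have hN0' : (N : ℝ) ≠ 0 := Nat.cast_ne_zero.2 Fintype.card_ne_zero
  let U : Type := W × Module.Dual (ZMod ℓ) W
  let Pr : Finset U → Prop := fun 𝓥 => ∃ c₀ : W, ∀ u, u ∈ 𝓥 ↔ u.1 = c₀
  let VA : W → Finset U := fun c₀ => Finset.univ.filter fun u => u.1 = c₀
  have hVA : ∀ c₀ u, u ∈ VA c₀ ↔ u.1 = c₀ := fun c₀ u => by
    rw [Finset.mem_filter]
    exact and_iff_right (Finset.mem_univ u)
  have hVAcard : ∀ c₀, (VA c₀).card = N := by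
    intro c₀
    rw [← hD, ← Finset.card_univ]
    refine Finset.card_bij' (fun u _ => u.2) (fun e _ => (c₀, e)) ?_ ?_ ?_ ?_
    · intro u _
      exact Finset.mem_univ _
    · intro e _
      exact (hVA _ _).2 rfl
    · intro u hu
      exact Prod.ext ((hVA _ _).1 hu).symm rfl
    · intro e _
      rfl
  let S : (V → W) → (V → Module.Dual (ZMod ℓ) W) → Module.Dual (ZMod ℓ) W → Finset (Finset U) :=
    fun c d η => (Finset.univ : Finset (Finset U)).filter
      (Adm BW N (alW σ c d) (aiW Λ η))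
  let T : (V → W) → (V → Module.Dual (ZMod ℓ) W) → Module.Dual (ZMod ℓ) W → Finset U → ℂ :=
    fun c d η 𝓥 => ZMod.stdAddChar (thW χ pr σ Λ c d η) *
      ((N : ℂ)⁻¹ * ∑ w ∈ 𝓥, ZMod.stdAddChar (aiW Λ η w * (n : ZMod ℓ)))
  have hmS : ∀ c d η 𝓥, 𝓥 ∈ S c d η ↔ Adm BW N (alW σ c d) (aiW Λ η) 𝓥 := fun c d η 𝓥 => by
    rw [Finset.mem_filter]
    exact and_iff_right (Finset.mem_univ 𝓥)
  let z : W → W := fun y => ∑ v, ((pr v).natDegree : ZMod ℓ) • σ v y + (n : ZMod ℓ) • y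
  -- the sets with constant first coordinate
  have hAdmA : ∀ c d η c₀, Adm BW N (alW σ c d) (aiW Λ η) (VA c₀) ↔
      Λ c₀ = 0 ∧ c = fun _ => c₀ := by
    intro c d η c₀
    constructor
    · intro h
      rcases ppmt_dich hPpTS hℓ hI h with ⟨c₁, h1, h3, h4⟩ | ⟨g, _, d₀, _, _, h4⟩
      · have h5 : c₀ = c₁ := (h4 (c₀, 0)).1 ((hVA _ _).2 rfl)
        subst h5
        exact ⟨h1, funext fun v => sub_eq_zero.1 (hinj v _ (h3 v))⟩
      · exfalso
        obtain ⟨x, hx⟩ := exists_ne c₀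
        exact hx ((hVA c₀ (x, d₀ + g x)).1 ((h4 _).2 rfl))
    · rintro ⟨h1, rfl⟩
      refine ⟨hVAcard c₀, ?_, ?_, ?_⟩
      · intro w hw w' hw'
        rw [BW, BW, (hVA _ _).1 hw, (hVA _ _).1 hw', sub_self, map_zero, map_zero, add_zero]
      · intro w hw v
        rw [alW, (hVA _ _).1 hw, sub_self, map_zero, map_zero, map_zero, add_zero]
      · intro w hw w' hw'
        rw [aiW, aiW, (hVA _ _).1 hw, (hVA _ _).1 hw', h1, map_zero, map_zero]
  have hTA : ∀ d η c₀, Λ c₀ = 0 → T (fun _ => c₀) d η (VA c₀) = ZMod.stdAddChar (η (z c₀)) := by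
    intro d η c₀ h1
    have h3 : ∀ w ∈ VA c₀, (ZMod.stdAddChar (aiW Λ η w * (n : ZMod ℓ)) : ℂ) =
        ZMod.stdAddChar (η c₀ * (n : ZMod ℓ)) := by
      intro w hw
      rw [aiW, (hVA _ _).1 hw, h1, map_zero, sub_zero]
    change ZMod.stdAddChar (thW χ pr σ Λ (fun _ => c₀) d η) * ((N : ℂ)⁻¹ * _) = _
    rw [Finset.sum_congr rfl h3, Finset.sum_const, hVAcard, nsmul_eq_mul, ← mul_assoc (N : ℂ)⁻¹,
      inv_mul_cancel₀ hN0, one_mul, ← AddChar.map_add_eq_mul]
    have h4 : thW χ pr σ Λ (fun _ => c₀) d η + η c₀ * (n : ZMod ℓ) = η (z c₀) := by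
      rw [thW, map_add, map_smul, smul_eq_mul, mul_comm (η c₀)]
      have h5 : ∀ v : V, d v (∑ v', syl χ (pr v) (pr v') • σ v' (c₀ - c₀) -
          ((pr v).natDegree : ZMod ℓ) • Λ c₀) = 0 := by
        intro v
        rw [h1, smul_zero, sub_zero]
        have h6 : ∀ v' ∈ (Finset.univ : Finset V),
            syl χ (pr v) (pr v') • σ v' (c₀ - c₀) = 0 := by
          intro v' _
          rw [sub_self, map_zero, smul_zero]
        rw [Finset.sum_eq_zero h6, map_zero]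
      rw [Finset.sum_eq_zero fun v _ => h5 v, add_zero]
    rw [h4]
  have hA1 : ∀ c d η, ∑ 𝓥 ∈ (S c d η).filter Pr, T c d η 𝓥 =
      ∑ c₀ : W, if Λ c₀ = 0 ∧ c = (fun _ => c₀) then
        (ZMod.stdAddChar (η (z c₀)) : ℂ) else 0 := by
    intro c d η
    rw [← Finset.sum_filter]
    symm
    refine Finset.sum_bij (fun c₀ _ => VA c₀) ?_ ?_ ?_ ?_
    · intro c₀ h
      rw [Finset.mem_filter] at h
      rw [Finset.mem_filter, hmS]
      exact ⟨(hAdmA c d η c₀).2 h.2, c₀, hVA c₀⟩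
    · intro c₀ _ c₁ _ h
      have h3 : ((c₀, 0) : U) ∈ VA c₀ := (hVA _ _).2 rfl
      rw [h] at h3
      exact (hVA _ _).1 h3
    · intro 𝓥 h
      rw [Finset.mem_filter, hmS] at h
      obtain ⟨h1, c₀, h3⟩ := h
      have h4 : VA c₀ = 𝓥 := Finset.ext fun u => (hVA c₀ u).trans (h3 u).symm
      subst h4
      refine ⟨c₀, ?_, rfl⟩
      rw [Finset.mem_filter]
      exact ⟨Finset.mem_univ _, (hAdmA c d η c₀).1 h1⟩
    · intro c₀ h
      rw [Finset.mem_filter] at h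
      obtain ⟨_, h1, h3⟩ := h
      subst h3
      exact (hTA d η c₀ h1).symm
  have hAtot : ∑ c, ∑ d, ∑ η, ∑ 𝓥 ∈ (S c d η).filter Pr, T c d η 𝓥 =
      (N : ℂ) ^ (Fintype.card V + 1) := by
    have hz0 : z 0 = 0 := by
      change ∑ v, ((pr v).natDegree : ZMod ℓ) • σ v 0 + (n : ZMod ℓ) • (0 : W) = 0
      rw [smul_zero, add_zero]
      exact Finset.sum_eq_zero fun v _ => by rw [map_zero, smul_zero]
    have hη : ∀ c d, ∑ η, ∑ 𝓥 ∈ (S c d η).filter Pr, T c d η 𝓥 =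
        if c = (fun _ => (0 : W)) then (N : ℂ) else 0 := by
      intro c d
      rw [Finset.sum_congr rfl (fun η _ => hA1 c d η), Finset.sum_comm]
      rw [Finset.sum_eq_single (0 : W)]
      · by_cases hc : c = fun _ => (0 : W)
        · rw [if_pos hc]
          have h3 : ∀ η ∈ (Finset.univ : Finset (Module.Dual (ZMod ℓ) W)),
              (if Λ 0 = 0 ∧ c = (fun _ => (0 : W)) then
                (ZMod.stdAddChar (η (z 0)) : ℂ) else 0) = 1 := by
            intro η _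
            rw [if_pos ⟨map_zero Λ, hc⟩, hz0, map_zero, AddChar.map_zero_eq_one]
          rw [Finset.sum_congr rfl h3, Finset.sum_const, Finset.card_univ, hD, nsmul_eq_mul,
            mul_one]
        · rw [if_neg hc]
          exact Finset.sum_eq_zero fun η _ => if_neg fun h => hc h.2
      · intro c₀ _ h0
        by_cases hp : Λ c₀ = 0 ∧ c = fun _ => c₀
        · rw [Finset.sum_congr rfl fun η _ => if_pos hp]
          exact ppmt_sum (z c₀) fun h => h0 (hInf c₀ h)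
        · exact Finset.sum_eq_zero fun η _ => if_neg hp
      · intro h
        exact absurd (Finset.mem_univ _) h
    have hd : ∀ c, ∑ d, ∑ η, ∑ 𝓥 ∈ (S c d η).filter Pr, T c d η 𝓥 =
        if c = (fun _ => (0 : W)) then (N : ℂ) ^ (Fintype.card V + 1) else 0 := by
      intro c
      rw [Finset.sum_congr rfl fun d _ => hη c d, Finset.sum_const, Finset.card_univ,
        Fintype.card_fun, hD, nsmul_eq_mul]
      by_cases hc : c = fun _ => (0 : W)
      · rw [if_pos hc, if_pos hc, Nat.cast_pow, pow_succ]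
      · rw [if_neg hc, if_neg hc, mul_zero]
    rw [Finset.sum_congr rfl fun c _ => hd c, Finset.sum_ite_eq' Finset.univ,
      if_pos (Finset.mem_univ _)]
  have hBtot : ‖∑ c, ∑ d, ∑ η, ∑ 𝓥 ∈ (S c d η).filter (fun 𝓥 => ¬ Pr 𝓥), T c d η 𝓥‖ ≤
      (N : ℝ) ^ (Fintype.card V + 1) * Nat.card (Sk σ Λ) := by
    have hT1 : ∀ c d η 𝓥, 𝓥 ∈ S c d η → ‖T c d η 𝓥‖ ≤ 1 := by
      intro c d η 𝓥 h
      have hA := (hmS c d η 𝓥).1 h
      change ‖ZMod.stdAddChar (thW χ pr σ Λ c d η) * ((N : ℂ)⁻¹ *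
        ∑ w ∈ 𝓥, ZMod.stdAddChar (aiW Λ η w * (n : ZMod ℓ)))‖ ≤ 1
      rw [norm_mul, ppmt_norm, one_mul, norm_mul, norm_inv, Complex.norm_natCast]
      have h3 : ‖∑ w ∈ 𝓥, (ZMod.stdAddChar (aiW Λ η w * (n : ZMod ℓ)) : ℂ)‖ ≤ (N : ℝ) := by
        refine (norm_sum_le _ _).trans ?_
        rw [Finset.sum_congr rfl fun w _ => ppmt_norm _, Finset.sum_const, nsmul_eq_mul, mul_one,
          hA.card]
      calc (N : ℝ)⁻¹ * ‖∑ w ∈ 𝓥, (ZMod.stdAddChar (aiW Λ η w * (n : ZMod ℓ)) : ℂ)‖ ≤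
            (N : ℝ)⁻¹ * N := mul_le_mul_of_nonneg_left h3 (inv_nonneg.2 (Nat.cast_nonneg _))
        _ = 1 := inv_mul_cancel₀ hN0'
    have hfin : Finite (W →ₗ[ZMod ℓ] Module.Dual (ZMod ℓ) W) :=
      Finite.of_injective
        (fun g : W →ₗ[ZMod ℓ] Module.Dual (ZMod ℓ) W => (g : W → Module.Dual (ZMod ℓ) W))
        DFunLike.coe_injective
    have hfinS : Finite (Sk σ Λ) := Subtype.finite
    letI : Fintype (Sk σ Λ) := Fintype.ofFinite _
    have hcount : ∀ c, ∑ d, ∑ η, (((S c d η).filter (fun 𝓥 => ¬ Pr 𝓥)).card : ℝ) ≤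
        (Nat.card (Sk σ Λ) : ℝ) * N := by
      intro c
      let Q : Type := (V → Module.Dual (ZMod ℓ) W) × Module.Dual (ZMod ℓ) W × Finset U
      let SC : Finset Q := Finset.univ.filter fun q =>
        q.2.2 ∈ (S c q.1 q.2.1).filter (fun 𝓥 => ¬ Pr 𝓥)
      let Ψ : (Sk σ Λ) × Module.Dual (ZMod ℓ) W → Q := fun q =>
        (fun v => (q.2 + q.1.1 (c v)) ∘ₗ σ v, q.2 ∘ₗ Λ,
          Finset.univ.filter fun u => u.2 = q.2 + q.1.1 u.1)
      have h1 : SC ⊆ Finset.univ.image Ψ := by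
        rintro ⟨d, η, 𝓥⟩ hq
        rw [Finset.mem_filter] at hq
        have h3 : 𝓥 ∈ (S c d η).filter (fun 𝓥 => ¬ Pr 𝓥) := hq.2
        rw [Finset.mem_filter, hmS] at h3
        rcases ppmt_dich hPpTS hℓ hI h3.1 with ⟨c₁, _, _, h4⟩ | ⟨g, hg, d₀, h4, h5, h6⟩
        · exact absurd ⟨c₁, h4⟩ h3.2
        · rw [Finset.mem_image]
          refine ⟨(⟨g, hg⟩, d₀), Finset.mem_univ _, ?_⟩
          refine Prod.ext (funext fun v => (h4 v).symm) (Prod.ext h5.symm ?_)
          refine Finset.ext fun u => ?_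
          rw [h6]
          change u ∈ Finset.univ.filter (fun u : U => u.2 = d₀ + g u.1) ↔ _
          rw [Finset.mem_filter]
          exact and_iff_right (Finset.mem_univ u)
      have h3 : SC.card ≤ Nat.card (Sk σ Λ) * N := by
        refine (Finset.card_le_card h1).trans (Finset.card_image_le.trans ?_)
        rw [Finset.card_univ, Fintype.card_prod, hD, Nat.card_eq_fintype_card]
      have h4 : ((SC.card : ℕ) : ℝ) =
          ∑ d, ∑ η, (((S c d η).filter (fun 𝓥 => ¬ Pr 𝓥)).card : ℝ) := by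
        rw [Finset.card_filter, Fintype.sum_prod_type, Nat.cast_sum]
        refine Finset.sum_congr rfl fun d _ => ?_
        rw [Fintype.sum_prod_type, Nat.cast_sum]
        refine Finset.sum_congr rfl fun η _ => ?_
        rw [← Finset.card_filter]
        congr 2
        refine Finset.ext fun 𝓥 => ?_
        rw [Finset.mem_filter]
        exact and_iff_right (Finset.mem_univ 𝓥)
      rw [← h4]
      exact_mod_cast h3
    refine (norm_sum_le_of_le Finset.univ fun c _ =>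
      norm_sum_le_of_le Finset.univ fun d _ =>
        norm_sum_le_of_le Finset.univ fun η _ =>
          norm_sum_le_of_le _ fun 𝓥 h𝓥 => hT1 c d η 𝓥 (Finset.mem_filter.1 h𝓥).1).trans ?_
    have h5 : ∀ c ∈ (Finset.univ : Finset (V → W)), ∑ d, ∑ η,
        ∑ _𝓥 ∈ (S c d η).filter (fun 𝓥 => ¬ Pr 𝓥), (1 : ℝ) ≤ (Nat.card (Sk σ Λ) : ℝ) * N := by
      intro c _
      refine le_trans (le_of_eq ?_) (hcount c)
      refine Finset.sum_congr rfl fun d _ => Finset.sum_congr rfl fun η _ => ?_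
      rw [Finset.sum_const, nsmul_eq_mul, mul_one]
    refine (Finset.sum_le_sum h5).trans (le_of_eq ?_)
    rw [Finset.sum_const, Finset.card_univ, Fintype.card_fun, nsmul_eq_mul, Nat.cast_pow,
      pow_succ]
    ring
  have hsplit : ∑ c : V → W, ∑ d : V → Module.Dual (ZMod ℓ) W, ∑ η : Module.Dual (ZMod ℓ) W,
      ZMod.stdAddChar (thW χ pr σ Λ c d η) *
        ∑ 𝓥 ∈ (Finset.univ : Finset (Finset (W × Module.Dual (ZMod ℓ) W))).filter
            (Adm BW N (alW σ c d) (aiW Λ η)),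
          ((N : ℂ)⁻¹ * ∑ w ∈ 𝓥, ZMod.stdAddChar (aiW Λ η w * (n : ZMod ℓ))) =
      ∑ c, ∑ d, ∑ η, ∑ 𝓥 ∈ (S c d η).filter Pr, T c d η 𝓥 +
      ∑ c, ∑ d, ∑ η, ∑ 𝓥 ∈ (S c d η).filter (fun 𝓥 => ¬ Pr 𝓥), T c d η 𝓥 := by
    rw [← Finset.sum_add_distrib]
    refine Finset.sum_congr rfl fun c _ => ?_
    rw [← Finset.sum_add_distrib]
    refine Finset.sum_congr rfl fun d _ => ?_
    rw [← Finset.sum_add_distrib]
    refine Finset.sum_congr rfl fun η _ => ?_
    rw [Finset.sum_filter_add_sum_filter_not, Finset.mul_sum]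
  rw [hsplit]
  refine (norm_add_le _ _).trans ?_
  rw [hAtot, norm_pow, Complex.norm_natCast, mul_add, mul_one]
  exact add_le_add le_rfl hBtot

end MP72e2e6
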