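import Pool.Agent.Lib.MP_72e2e6_nt.PeStmtB

/-!
# MP_72e2e6_nt: positive proportion of quadratic twists, module PeMar
-/

namespace MP72e2e6

open Polynomial

open Classical in
theorem tPeMar.{u} (hPeFM : StmtPeFM.{u}) (hPePar : StmtPePar.{u}) : StmtPeMar.{u} := by
  intro F _ _ hq4 hq χ hχ hR V W _ _ _ _ pr hpr σ Λ f ν h hH hirr hSa ε hε
  have hinj : ∀ v y, σ v y = 0 → y = 0 := by
    intro v y hy
    rw [hH.trans] at hy
    have h1 := congrArg (fun z => f (ν v) z) hy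
    simp only [map_add, map_smul, map_zero, hH.alt, smul_zero, add_zero] at h1
    rwa [h1, zero_smul, add_zero] at hy
  have hcard : Nat.card (Sa σ Λ) ≤ 2 := by
    have h1 : ((Sa σ Λ : Submodule (ZMod 2) (W →ₗ[ZMod 2] Module.Dual (ZMod 2) W)) :
        Set (W →ₗ[ZMod 2] Module.Dual (ZMod 2) W)) ⊆ {0, f} := by
      intro g hg
      rcases hSa g hg with h2 | h2
      · rw [h2]
        exact Set.mem_insert _ _
      · rw [h2]
        exact Set.mem_insert_of_mem _ rfl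
    have h2 := Set.ncard_le_ncard h1 (Set.toFinite _)
    have h3 := h2.trans (Set.ncard_insert_le _ _)
    rw [Set.ncard_singleton] at h3
    exact h3
  have hcard' : (Nat.card (Sa σ Λ) : ℝ) ≤ 2 := by exact_mod_cast hcard
  obtain ⟨n₀, h0⟩ := hPeFM F hq4 hq χ hχ hR V W pr hpr σ Λ hirr hinj ε hε
  refine ⟨n₀, fun n hn hI => ?_⟩
  have h1 := h0 n hn hI
  obtain ⟨G, hG⟩ : ∃ G, G = gs F pr n := ⟨_, rfl⟩
  have hPar : ∀ t ∈ G, nSol χ pr σ Λ t = 1 ∨ 4 ≤ nSol χ pr σ Λ t := by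
    rw [hG]
    exact hPePar F hq χ hχ hR V W pr hpr σ Λ f ν h hH n hI
  rw [← hG] at h1 ⊢
  have hq0 : 0 ≤ ε * (Nat.card F : ℝ) ^ n := by positivity
  have hG0 : (0 : ℝ) ≤ G.card := Nat.cast_nonneg _
  have h2 : ∑ t ∈ G, (nSol χ pr σ Λ t : ℝ) ≤ 3 * (G.card : ℝ) + ε * (Nat.card F : ℝ) ^ n := by
    have h3 : (1 + (Nat.card (Sa σ Λ) : ℝ)) * (G.card : ℝ) ≤ 3 * G.card :=
      mul_le_mul_of_nonneg_right (by linarith) hG0
    linarith
  refine ⟨h2, ?_⟩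
  obtain ⟨bad, hbad⟩ : ∃ bad, bad = G.filter fun t => nSol χ pr σ Λ t ≠ 1 := ⟨_, rfl⟩
  rw [← hbad]
  have hge : ∀ t ∈ G, (1 : ℝ) ≤ (nSol χ pr σ Λ t : ℝ) := by
    intro t ht
    have h3 : 1 ≤ nSol χ pr σ Λ t := by
      rcases hPar t ht with h4 | h4 <;> omega
    exact_mod_cast h3
  have hbad4 : ∀ t ∈ bad, (4 : ℝ) ≤ (nSol χ pr σ Λ t : ℝ) := by
    intro t ht
    rw [hbad, Finset.mem_filter] at ht
    have h3 : 4 ≤ nSol χ pr σ Λ t := (hPar t ht.1).resolve_left ht.2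
    exact_mod_cast h3
  have hsub : bad ⊆ G := by
    rw [hbad]
    exact Finset.filter_subset _ _
  have key : (bad.card : ℝ) * 3 + G.card ≤ ∑ t ∈ G, (nSol χ pr σ Λ t : ℝ) := by
    have h3 : ∑ t ∈ G, (nSol χ pr σ Λ t : ℝ) =
        ∑ t ∈ G, ((nSol χ pr σ Λ t : ℝ) - 1) + G.card := by
      rw [Finset.sum_sub_distrib, Finset.sum_const, nsmul_eq_mul, mul_one]
      ring
    have h4 : (bad.card : ℝ) * 3 ≤ ∑ t ∈ G, ((nSol χ pr σ Λ t : ℝ) - 1) := by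
      calc (bad.card : ℝ) * 3 = ∑ t ∈ bad, (3 : ℝ) := by
            rw [Finset.sum_const, nsmul_eq_mul]
        _ ≤ ∑ t ∈ bad, ((nSol χ pr σ Λ t : ℝ) - 1) :=
            Finset.sum_le_sum fun t ht => by linarith [hbad4 t ht]
        _ ≤ ∑ t ∈ G, ((nSol χ pr σ Λ t : ℝ) - 1) :=
            Finset.sum_le_sum_of_subset_of_nonneg hsub fun t ht _ => by linarith [hge t ht]
    linarith
  have hb0 : (0 : ℝ) ≤ bad.card := Nat.cast_nonneg _
  linarith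

end MP72e2e6
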