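import Pool.Agent.Lib.MP_72e2e6_nt.PeStmt

/-!
# MP_72e2e6_nt: the auxiliary polynomial of Stepanov is not zero
-/

namespace MP72e2e6

open Polynomial

universe u

theorem penon_expand {k : Type u} [Field k] [Finite k] (f : k[X]) :
    ∃ G : k[X], f ^ Nat.card k = C (f.coeff 0) + X ^ Nat.card k * G := by
  classical
  have : Fintype k := Fintype.ofFinite k
  refine ⟨expand k (Nat.card k) (divX f), ?_⟩
  rw [Nat.card_eq_fintype_card, ← FiniteField.expand_card]
  conv_lhs => rw [← divX_mul_X_add f]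
  rw [map_add, map_mul, expand_X, expand_C]
  ring

theorem penon_key {k : Type u} [Field k] [Finite k] (c : ℕ) (hc : 2 * c + 1 = Nat.card k)
    (f : k[X]) (hf : ∀ (x : k) (g : k[X]), f ≠ C x * g ^ 2) (hf0 : f.eval 0 ≠ 0) (A : ℕ)
    (hA : 2 * A + f.natDegree ≤ Nat.card k + 1) (r s G₀ G₁ : k[X])
    (hr : r.degree < A) (hs : s.degree < A)
    (h : (r + X ^ Nat.card k * G₀) + (s + X ^ Nat.card k * G₁) * f ^ c = 0) :
    r = 0 ∧ s = 0 := by
  rcases Nat.eq_zero_or_pos A with hA0 | hA0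
  · subst hA0
    rw [Nat.cast_zero, ← not_le, zero_le_degree_iff, not_not] at hr hs
    exact ⟨hr, hs⟩
  obtain ⟨G₂, hG₂⟩ := penon_expand f
  have hfc : f.coeff 0 ≠ 0 := by
    rwa [coeff_zero_eq_eval_zero]
  have e1 : f * (r + X ^ Nat.card k * G₀) ^ 2 =
      f ^ Nat.card k * (s + X ^ Nat.card k * G₁) ^ 2 := by
    have e2 : r + X ^ Nat.card k * G₀ = -((s + X ^ Nat.card k * G₁) * f ^ c) :=
      eq_neg_of_add_eq_zero_left h
    rw [e2, ← hc]
    ring
  rw [hG₂] at e1
  have hdvd : (X : k[X]) ^ Nat.card k ∣ f * r ^ 2 - C (f.coeff 0) * s ^ 2 := by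
    set M : k[X] := X ^ Nat.card k with hM
    refine ⟨G₂ * (s + M * G₁) ^ 2 + C (f.coeff 0) * (2 * s * G₁ + M * G₁ ^ 2) -
      f * (2 * r * G₀ + M * G₀ ^ 2), ?_⟩
    linear_combination e1
  have hrn : r.natDegree ≤ A - 1 := by
    by_cases h0 : r = 0
    · rw [h0, natDegree_zero]
      exact Nat.zero_le _
    · have := (natDegree_lt_iff_degree_lt h0).2 hr
      omega
  have hsn : s.natDegree ≤ A - 1 := by
    by_cases h0 : s = 0
    · rw [h0, natDegree_zero]
      exact Nat.zero_le _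
    · have := (natDegree_lt_iff_degree_lt h0).2 hs
      omega
  have hdeg : (f * r ^ 2 - C (f.coeff 0) * s ^ 2).natDegree < Nat.card k := by
    have d1 : (f * r ^ 2).natDegree ≤ f.natDegree + 2 * r.natDegree :=
      natDegree_mul_le.trans (Nat.add_le_add_left natDegree_pow_le _)
    have d2 : (C (f.coeff 0) * s ^ 2).natDegree ≤ 2 * s.natDegree :=
      (natDegree_C_mul_le _ _).trans natDegree_pow_le
    have d3 := natDegree_sub_le (f * r ^ 2) (C (f.coeff 0) * s ^ 2)
    have d4 : max (f * r ^ 2).natDegree (C (f.coeff 0) * s ^ 2).natDegree ≤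
        f.natDegree + 2 * (A - 1) := by
      refine max_le ?_ ?_
      · omega
      · omega
    have := d3.trans d4
    omega
  have hT : f * r ^ 2 - C (f.coeff 0) * s ^ 2 = 0 := by
    by_contra hne
    have := natDegree_le_of_dvd hdvd hne
    rw [natDegree_X_pow] at this
    omega
  have hT' : f * r ^ 2 = C (f.coeff 0) * s ^ 2 := sub_eq_zero.1 hT
  have hC : (C (f.coeff 0) : k[X]) ≠ 0 := fun h0 => hfc (C_eq_zero.1 h0)
  by_cases hr0 : r = 0
  · refine ⟨hr0, ?_⟩
    rw [hr0, zero_pow two_ne_zero, mul_zero] at hT'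
    rcases mul_eq_zero.1 hT'.symm with h0 | h0
    · exact absurd h0 hC
    · exact pow_eq_zero_iff two_ne_zero |>.1 h0
  · exfalso
    have hu : IsUnit (C (f.coeff 0) : k[X]) := isUnit_C.2 (IsUnit.mk0 _ hfc)
    have h1 : r ^ 2 ∣ s ^ 2 := by
      have h2 : r ^ 2 ∣ C (f.coeff 0) * s ^ 2 := ⟨f, by rw [← hT', mul_comm]⟩
      exact (hu.dvd_mul_left).1 h2
    have h3 : r ∣ s := (IsIntegrallyClosed.pow_dvd_pow_iff two_ne_zero).1 h1
    obtain ⟨w, hw⟩ := h3
    refine hf (f.coeff 0) w (mul_right_cancel₀ (pow_ne_zero 2 hr0) ?_)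
    rw [hT', hw]
    ring

theorem penon_zero {k : Type u} [Field k] [Finite k] (c : ℕ) (hc : 2 * c + 1 = Nat.card k)
    (f : k[X]) (hf : ∀ (x : k) (g : k[X]), f ≠ C x * g ^ 2) (hf0 : f.eval 0 ≠ 0) (A J : ℕ)
    (hA : 2 * A + f.natDegree ≤ Nat.card k + 1) (r s : ℕ → k[X])
    (hr : (r 0).degree < A) (hs : (s 0).degree < A)
    (h : ∑ j ∈ Finset.range (J + 1), (r j + s j * f ^ c) * X ^ (j * Nat.card k) = 0) :
    r 0 = 0 ∧ s 0 = 0 := by
  refine penon_key c hc f hf hf0 A hA (r 0) (s 0)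
    (∑ j ∈ Finset.range J, r (j + 1) * X ^ (j * Nat.card k))
    (∑ j ∈ Finset.range J, s (j + 1) * X ^ (j * Nat.card k)) hr hs ?_
  rw [Finset.sum_range_succ'] at h
  rw [← h, Finset.mul_sum, Finset.mul_sum, zero_mul, pow_zero, mul_one]
  have h1 : ∀ a b c d e : k[X], a + b + (c + d) * e = (b + d * e) + (a + c * e) := by
    intro a b c d e
    ring
  rw [h1]
  congr 1
  rw [Finset.sum_mul, ← Finset.sum_add_distrib]
  refine Finset.sum_congr rfl fun j _ => ?_
  rw [add_mul j 1 (Nat.card k), one_mul, pow_add]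
  ring

theorem tPeNon.{v} : StmtPeNon.{v} := by
  intro k _ _ c hc f hf hf0 A J hA r s hrs hsum j
  induction j using Nat.strong_induction_on with
  | _ j ih =>
  intro hj
  have h1 : ∑ i ∈ Finset.range (J - j),
      (r (j + i) + s (j + i) * f ^ c) * X ^ (i * Nat.card k) = 0 := by
    have h2 : ∑ i ∈ Finset.range J, (r i + s i * f ^ c) * X ^ (i * Nat.card k) =
        ∑ i ∈ Finset.range j, (r i + s i * f ^ c) * X ^ (i * Nat.card k) +
          ∑ i ∈ Finset.range (J - j),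
            (r (j + i) + s (j + i) * f ^ c) * X ^ ((j + i) * Nat.card k) := by
      rw [← Finset.sum_range_add_sum_Ico _ hj.le, Finset.sum_Ico_eq_sum_range]
    have h3 : ∑ i ∈ Finset.range j, (r i + s i * f ^ c) * X ^ (i * Nat.card k) = 0 := by
      refine Finset.sum_eq_zero fun i hi => ?_
      have hi' := Finset.mem_range.1 hi
      obtain ⟨e1, e2⟩ := ih i hi' (hi'.trans hj)
      rw [e1, e2, zero_mul, add_zero, zero_mul]
    rw [hsum, h3, zero_add] at h2
    have h4 : (X : k[X]) ^ (j * Nat.card k) * ∑ i ∈ Finset.range (J - j),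
        (r (j + i) + s (j + i) * f ^ c) * X ^ (i * Nat.card k) = 0 := by
      rw [h2, Finset.mul_sum]
      refine Finset.sum_congr rfl fun i _ => ?_
      rw [add_mul j i (Nat.card k), pow_add]
      ring
    exact (mul_eq_zero.1 h4).resolve_left (pow_ne_zero _ X_ne_zero)
  obtain ⟨n, hn⟩ : ∃ n, J - j = n + 1 := ⟨J - j - 1, by omega⟩
  rw [hn] at h1
  exact penon_zero c hc f hf hf0 A n hA (fun i => r (j + i)) (fun i => s (j + i))
    (hrs j hj).1 (hrs j hj).2 h1

end MP72e2e6
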