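import Pool.Agent.Lib.MP_72e2e6_nt.PeStmtB

/-!
# MP_72e2e6_nt: positive proportion of quadratic twists, module PePar
-/

namespace MP72e2e6

open Polynomial

private theorem pepar_mem_gs.{u} {F : Type u} [Field F] [Finite F] {V : Type} {pr : V → F[X]}
    {n : ℕ} {t : Finset F[X]} : t ∈ gs F pr n ↔ t ∈ ps F n ∧ ∀ P ∈ t, ∀ v, pr v ≠ P := by
  simp [gs]

theorem tPePar.{u} (_h1 : StmtSuSy.{u}) (hPeFrm : StmtPeFrm.{u}) : StmtPePar.{u} := by
  intro F _ _ hq χ hχ hR V W _ _ _ _ pr hpr σ Λ f ν h hH n hI t ht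
  obtain ⟨ht1, htp⟩ := pepar_mem_gs.1 ht
  obtain ⟨htm, htd⟩ := mem_ps.1 ht1
  let pr' : V ⊕ t → F[X] := Sum.elim pr (fun P => P.1)
  let σ' : V ⊕ t → Module.End (ZMod 2) W := Sum.elim σ (fun _ => 1)
  let ν' : V ⊕ t → W := Sum.elim ν (fun _ => 0)
  have hm : ∀ β, (pr' β).Monic := by
    rintro (v | P)
    · exact hpr.monic v
    · exact (htm P.1 P.2).1
  have hi : ∀ β, Irreducible (pr' β) := by
    rintro (v | P)
    · exact hpr.irr v
    · exact (htm P.1 P.2).2
  have hsym : ∀ β β', syl χ (pr' β) (pr' β') = syl χ (pr' β') (pr' β) := by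
    intro β β'
    by_cases h : pr' β = pr' β'
    · rw [h]
    · exact hR _ _ (hm β) (hi β) (hm β') (hi β') h
  obtain ⟨a, ha⟩ := hPeFrm (V ⊕ t) W f hH.nondeg hH.alt ν' h σ' Λ
    (by
      rintro (v | P) y
      · exact hH.trans v y
      · simp only [σ', ν', Sum.elim_inr, Module.End.one_apply, smul_zero, add_zero])
    hH.self hH.diag (fun β β' => syl χ (pr' β) (pr' β')) hsym
    (fun β => ((pr' β).natDegree : ZMod 2))
    (by
      rintro (v | P)
      · obtain ⟨μ, hμ⟩ := hH.com v
        refine ⟨μ + ∑ P : t, syl χ (pr v) P.1, ?_⟩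
        simp only [Fintype.sum_sum_type]
        simp only [pr', σ', ν', Sum.elim_inl, Sum.elim_inr, Module.End.one_apply]
        rw [add_right_comm, hμ, add_smul, Finset.sum_smul]
      · refine ⟨0, ?_⟩
        simp only [ν', Sum.elim_inr, map_zero, smul_zero, Finset.sum_const_zero, add_zero])
    (by
      rw [Fintype.sum_sum_type]
      simp only [pr', ν', Sum.elim_inl, Sum.elim_inr, smul_zero, Finset.sum_const_zero, add_zero]
      exact hH.deg)
    (by
      intro y hy
      refine hI y ?_
      rw [Fintype.sum_sum_type] at hy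
      simp only [pr', σ', Sum.elim_inl, Sum.elim_inr, Module.End.one_apply] at hy
      rw [← Finset.sum_smul] at hy
      rw [← hy, ← htd]
      congr 2
      rw [Nat.cast_sum, ← Finset.sum_coe_sort t (fun P => ((P.natDegree : ℕ) : ZMod 2))])
  have hN : nSol χ pr σ Λ t = 4 ^ a := by
    rw [← ha, nSol]
    refine Nat.card_congr (Equiv.subtypeEquiv (Equiv.sumArrowEquivProdArrow V t W).symm ?_)
    rintro ⟨c, g⟩
    have e1 : ∀ v, (Equiv.sumArrowEquivProdArrow V t W).symm (c, g) (Sum.inl v) = c v :=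
      fun v => rfl
    have e2 : ∀ P, (Equiv.sumArrowEquivProdArrow V t W).symm (c, g) (Sum.inr P) = g P :=
      fun P => rfl
    constructor
    · intro h
      refine ⟨?_, ?_⟩
      · rw [Fintype.sum_sum_type]
        simp only [e1, e2]
        exact h.inf
      · rintro (v | P)
        · rw [Fintype.sum_sum_type]
          simp only [e1, e2]
          exact h.bad v
        · rw [Fintype.sum_sum_type]
          simp only [e1, e2]
          exact h.good P
    · rintro ⟨h1, h2⟩
      refine ⟨?_, fun v => ?_, fun P => ?_⟩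
      · rw [Fintype.sum_sum_type] at h1
        simp only [e1, e2] at h1
        exact h1
      · have h3 := h2 (Sum.inl v)
        rw [Fintype.sum_sum_type] at h3
        simp only [e1, e2] at h3
        exact h3
      · have h3 := h2 (Sum.inr P)
        rw [Fintype.sum_sum_type] at h3
        simp only [e1, e2] at h3
        exact h3
  rw [hN]
  rcases Nat.eq_zero_or_pos a with h0 | h0
  · left
    rw [h0, pow_zero]
  · right
    calc 4 = 4 ^ 1 := (pow_one 4).symm
      _ ≤ 4 ^ a := Nat.pow_le_pow_right (by norm_num) h0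

end MP72e2e6
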