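import Pool.Agent.Lib.MP_72e2e6_nt.TwStmt

/-!
# MP_72e2e6_nt: the Selmer conditions in terms of polynomials
-/

set_option autoImplicit false

namespace MP72e2e6

open Polynomial IsDedekindDomain WithZero

universe u

section symbols

variable {F : Type u} [Field F]

theorem twsel_two (e : ZMod 2) : e = 0 ∨ e = 1 := by
  revert e
  decide

variable {f : F[X] → ZMod 2} (hf : ∀ g h : F[X], g ≠ 0 → h ≠ 0 → f (g * h) = f g + f h)

include hf

theorem twsel_one : f 1 = 0 := by
  have h := hf 1 1 one_ne_zero one_ne_zero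
  rw [mul_one] at h
  exact left_eq_add.1 h

theorem twsel_pow {x : F[X]} (hx : x ≠ 0) (e : ZMod 2) : f (x ^ e.val) = e * f x := by
  rcases twsel_two e with rfl | rfl
  · rw [ZMod.val_zero, pow_zero, twsel_one hf, zero_mul]
  · rw [ZMod.val_one, pow_one, one_mul]

theorem twsel_prod {κ : Type} (s : Finset κ) (g : κ → F[X]) (hg : ∀ k ∈ s, g k ≠ 0) :
    f (∏ k ∈ s, g k) = ∑ k ∈ s, f (g k) := by
  classical
  induction s using Finset.induction_on with
  | empty => rw [Finset.prod_empty, Finset.sum_empty, twsel_one hf]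
  | insert k s hk ih =>
    rw [Finset.prod_insert hk, Finset.sum_insert hk,
      hf _ _ (hg k (Finset.mem_insert_self k s))
        (Finset.prod_ne_zero_iff.2 fun l hl => hg l (Finset.mem_insert_of_mem hl)),
      ih fun l hl => hg l (Finset.mem_insert_of_mem hl)]

omit hf in
theorem twsel_fac_ne {m : ℕ} {a : Fin m → F[X]} (ha : Function.Injective a)
    (c : Fin m → ZMod 2) (i k : Fin m) : (a i - a k) ^ (c i + c k).val ≠ 0 := by
  by_cases h : i = k
  · subst h
    rw [CharTwo.add_self_eq_zero, ZMod.val_zero, pow_zero]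
    exact one_ne_zero
  · exact pow_ne_zero _ (sub_ne_zero.2 fun h' => h (ha h'))

omit hf in
theorem twsel_tau_ne {m : ℕ} {E : F[X]} (hE : E ≠ 0) {a : Fin m → F[X]}
    (ha : Function.Injective a) (c : Fin m → ZMod 2) (i : Fin m) : tau E a c i ≠ 0 := by
  rw [tau]
  exact mul_ne_zero (pow_ne_zero _ (neg_ne_zero.2 hE))
    (Finset.prod_ne_zero_iff.2 fun k _ => twsel_fac_ne ha c i k)

theorem twsel_tau {m : ℕ} {E : F[X]} (hE : E ≠ 0) {a : Fin m → F[X]}
    (ha : Function.Injective a) (c : Fin m → ZMod 2) (i : Fin m) :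
    f (tau E a c i) = c i * f (-E) + ∑ k, (c i + c k) * f (a i - a k) := by
  rw [tau, hf _ _ (pow_ne_zero _ (neg_ne_zero.2 hE))
    (Finset.prod_ne_zero_iff.2 fun k _ => twsel_fac_ne ha c i k),
    twsel_pow hf (neg_ne_zero.2 hE), twsel_prod hf _ _ fun k _ => twsel_fac_ne ha c i k]
  congr 1
  refine Finset.sum_congr rfl fun k _ => ?_
  by_cases h : i = k
  · subst h
    rw [CharTwo.add_self_eq_zero, ZMod.val_zero, pow_zero, twsel_one hf, zero_mul]
  · exact twsel_pow hf (sub_ne_zero.2 fun h' => h (ha h')) _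

theorem twsel_tau_add {m : ℕ} {E : F[X]} (hE : E ≠ 0) {a : Fin m → F[X]}
    (ha : Function.Injective a) (c c' : Fin m → ZMod 2) (i : Fin m) :
    f (tau E a (c + c') i) = f (tau E a c i) + f (tau E a c' i) := by
  rw [twsel_tau hf hE ha, twsel_tau hf hE ha, twsel_tau hf hE ha]
  have h1 : ∀ k, ((c + c') i + (c + c') k) * f (a i - a k) =
      (c i + c k) * f (a i - a k) + (c' i + c' k) * f (a i - a k) := by
    intro k
    rw [Pi.add_apply, Pi.add_apply]
    ring
  rw [Finset.sum_congr rfl fun k _ => h1 k, Finset.sum_add_distrib, Pi.add_apply]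
  ring

end symbols

section places

variable {F : Type u} [Field F]

theorem twsel_log {v : HeightOneSpectrum F[X]} {P : F[X]} (hP : Irreducible P)
    (hv : v.asIdeal = Ideal.span {P}) {h : F[X]} (h0 : h ≠ 0) :
    WithZero.log (v.valuation (RatFunc F) (algebraMap F[X] (RatFunc F) h)) =
      -(multiplicity P h : ℤ) := by
  rw [HeightOneSpectrum.valuation_of_algebraMap]
  have hfin : FiniteMultiplicity P h := FiniteMultiplicity.of_not_isUnit hP.not_isUnit h0
  have hx : v.intValuation h ≠ 0 := v.intValuation_ne_zero _ h0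
  have h1 : ∀ n : ℕ, WithZero.log (v.intValuation h) ≤ -(n : ℤ) ↔ P ^ n ∣ h := by
    intro n
    rw [WithZero.log_le_iff_le_exp hx, v.intValuation_le_pow_iff_mem, hv,
      Ideal.span_singleton_pow, Ideal.mem_span_singleton]
  have h2 := (h1 (multiplicity P h)).2 (pow_multiplicity_dvd P h)
  have h3 : ¬ WithZero.log (v.intValuation h) ≤ -((multiplicity P h + 1 : ℕ) : ℤ) := by
    rw [h1]
    exact hfin.not_pow_dvd_of_multiplicity_lt (Nat.lt_succ_self _)
  push_cast at h3
  omega

theorem twsel_vp {v : HeightOneSpectrum F[X]} {P : F[X]} (hP : Irreducible P)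
    (hv : v.asIdeal = Ideal.span {P}) {h : F[X]} (h0 : h ≠ 0)
    (hd : (2 : ℤ) ∣ WithZero.log (v.valuation (RatFunc F) (algebraMap F[X] (RatFunc F) h))) :
    vp P h = 0 := by
  rw [vp, if_neg h0, ZMod.natCast_eq_zero_iff]
  rw [twsel_log hP hv h0] at hd
  omega

/-- the place of a monic irreducible polynomial -/
theorem twsel_place {P : F[X]} (hP : Irreducible P) :
    ∃ v : HeightOneSpectrum F[X], v.asIdeal = Ideal.span {P} :=
  ⟨⟨Ideal.span {P}, (Ideal.span_singleton_prime hP.ne_zero).2 hP.prime,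
    fun h => hP.ne_zero (Ideal.span_singleton_eq_bot.1 h)⟩, rfl⟩

theorem twsel_eq {P Q : F[X]} (hP : P.Monic) (hPi : Irreducible P) (hQ : Q.Monic)
    (hQi : Irreducible Q) (h : P ∣ Q) : P = Q :=
  eq_of_monic_of_associated hP hQ (hPi.associated_of_dvd hQi h)

variable {ι : Type} [Fintype ι] {pr : ι → F[X]} (hpr : Fam pr) {ρ : ι → ZMod 2} {x₀ : F}
  (hx : x₀ ≠ 0)

include hpr hx

theorem twsel_tw_ne : tw pr ρ x₀ ≠ 0 := by
  rw [tw]
  exact mul_ne_zero (C_ne_zero.2 hx)
    (Finset.prod_ne_zero_iff.2 fun b _ => pow_ne_zero _ (hpr.irr b).ne_zero)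

omit hpr in
theorem twsel_not_dvd_C {P : F[X]} (hP : Irreducible P) : ¬ P ∣ C x₀ := fun h =>
  hP.not_isUnit (isUnit_of_dvd_unit h (isUnit_C.2 (isUnit_iff_ne_zero.2 hx)))

theorem twsel_dvd_tw {P : F[X]} (hP : P.Monic) (hPi : Irreducible P) (h : P ∣ tw pr ρ x₀) :
    ∃ b, pr b = P ∧ ρ b = 1 := by
  rw [tw] at h
  have h1 := (hPi.prime.dvd_or_dvd h).resolve_left (twsel_not_dvd_C hx hPi)
  obtain ⟨b, -, hb⟩ := (hPi.prime.dvd_finsetProd_iff _).1 h1
  refine ⟨b, (twsel_eq hP hPi (hpr.monic b) (hpr.irr b) (hPi.prime.dvd_of_dvd_pow hb)).symm, ?_⟩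
  rcases twsel_two (ρ b) with h2 | h2
  · rw [h2, ZMod.val_zero, pow_zero] at hb
    exact absurd (isUnit_of_dvd_one hb) hPi.not_isUnit
  · exact h2

theorem twsel_not_dvd {b : ι} (hb : ρ b = 0) : ¬ pr b ∣ tw pr ρ x₀ := by
  intro h
  obtain ⟨b', h1, h2⟩ := twsel_dvd_tw hpr hx (hpr.monic b) (hpr.irr b) h
  rw [hpr.inj h1, hb] at h2
  exact absurd h2 (by decide)

omit hpr hx in
theorem twsel_dvd {b : ι} (hb : ρ b = 1) : pr b ∣ tw pr ρ x₀ := by
  rw [tw]
  refine Dvd.dvd.mul_left ?_ _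
  have h1 : pr b ∣ pr b ^ (ρ b).val := by
    rw [hb, ZMod.val_one, pow_one]
  exact h1.trans (Finset.dvd_prod_of_mem (fun b => pr b ^ (ρ b).val) (Finset.mem_univ b))

theorem twsel_sq {b : ι} (hb : ρ b = 1) : ¬ pr b ^ 2 ∣ tw pr ρ x₀ := by
  classical
  intro h
  rw [tw, ← Finset.mul_prod_erase Finset.univ _ (Finset.mem_univ b), hb, ZMod.val_one, pow_one,
    mul_left_comm, sq] at h
  have h1 := (mul_dvd_mul_iff_left (hpr.irr b).ne_zero).1 h
  have h2 := ((hpr.irr b).prime.dvd_or_dvd h1).resolve_left (twsel_not_dvd_C hx (hpr.irr b))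
  obtain ⟨b', hb', h3⟩ := ((hpr.irr b).prime.dvd_finsetProd_iff _).1 h2
  have h4 := twsel_eq (hpr.monic b) (hpr.irr b) (hpr.monic b') (hpr.irr b')
    ((hpr.irr b).prime.dvd_of_dvd_pow h3)
  exact Finset.ne_of_mem_erase hb' (hpr.inj h4).symm

end places

section more

variable {F : Type u} [Field F]

theorem twsel_inj (F : Type u) [Field F] : Function.Injective (algebraMap F[X] (RatFunc F)) :=
  RatFunc.algebraMap_injective F

theorem twsel_log_sq (v : Valuation (RatFunc F) (WithZero (Multiplicative ℤ))) {x y : RatFunc F}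
    (hx : x ≠ 0) (hy : y ≠ 0) :
    WithZero.log (v (x * y ^ 2)) = WithZero.log (v x) + 2 * WithZero.log (v y) := by
  rw [map_mul, map_pow, WithZero.log_mul ((Valuation.ne_zero_iff _).2 hx)
    (pow_ne_zero _ ((Valuation.ne_zero_iff _).2 hy)), WithZero.log_pow, nsmul_eq_mul]
  push_cast
  rfl

theorem twsel_num (x : RatFunc F) : algebraMap F[X] (RatFunc F) (x.num * x.denom) =
    x * algebraMap F[X] (RatFunc F) x.denom ^ 2 := by
  have h1 : algebraMap F[X] (RatFunc F) x.denom ≠ 0 := by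
    rw [Ne, map_eq_zero_iff _ (twsel_inj F)]
    exact RatFunc.denom_ne_zero x
  have h2 : algebraMap F[X] (RatFunc F) x.num = x * algebraMap F[X] (RatFunc F) x.denom :=
    (div_eq_iff h1).1 (RatFunc.num_div_denom x)
  rw [map_mul, h2]
  ring

theorem twsel_cop {m n : ℕ} {a : Fin m → F[X]} (ha : Pts m n a) {P : F[X]} (hP : Irreducible P)
    {i j k l : Fin m} (hij : i ≠ j) (hkl : k ≠ l) (h1 : P ∣ a i - a j) (h2 : P ∣ a k - a l) :
    (i = k ∧ j = l) ∨ (i = l ∧ j = k) := by
  by_contra hcon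
  rw [not_or] at hcon
  exact hP.not_isUnit ((ha.cop i j k l hij hkl hcon.1 hcon.2).isUnit_of_dvd' h1 h2)

theorem twsel_pts_sub {m : ℕ} (E : F[X]) (a : Fin m → F[X]) (i k : Fin m) :
    pts E a i - pts E a k = algebraMap F[X] (RatFunc F) (E * (a i - a k)) := by
  rw [pts, pts, ← map_sub, mul_sub]

theorem twsel_pts_inj {m : ℕ} {E : F[X]} (hE : E ≠ 0) {a : Fin m → F[X]}
    (ha : Function.Injective a) : Function.Injective (pts E a) := by
  intro i k h
  have h1 := twsel_inj F h
  exact ha (mul_left_cancel₀ hE h1)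

/-- A prime which divides neither the twist nor the differences. -/
theorem twsel_good {m : ℕ} (hm : Odd m) {E : F[X]} {a : Fin m → F[X]}
    {v : HeightOneSpectrum F[X]} {P : F[X]} (hP : Irreducible P)
    (hv : v.asIdeal = Ideal.span {P}) (hPE : ¬ P ∣ E) (hPa : ∀ i j, i ≠ j → ¬ P ∣ a i - a j)
    {d : Fin m → (RatFunc F)ˣ}
    (hd : baseChange (v.adicCompletion (RatFunc F)) d ∈
      localImage 2 (pts E a) (fun _ => 1) (v.adicCompletion (RatFunc F))) (i : Fin m) :
    vp P ((d i : RatFunc F).num * (d i : RatFunc F).denom) = 0 := by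
  have h1 := log_dvd_of_mem_localImage (M := v.adicCompletion (RatFunc F)) (nontriv_adic v)
    two_ne_zero (a := fun k => algebraMap (RatFunc F) (v.adicCompletion (RatFunc F)) (pts E a k))
    (b := fun _ => 1) (by simpa using hm) (fun k => ?_) i (by simp) (fun k hk => ?_) hd
  · have h2 : ((baseChange (v.adicCompletion (RatFunc F)) d i :
        (v.adicCompletion (RatFunc F))ˣ) : v.adicCompletion (RatFunc F)) =
        algebraMap (RatFunc F) (v.adicCompletion (RatFunc F)) (d i : RatFunc F) := rfl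
    rw [h2, valued_adic] at h1
    refine twsel_vp hP hv (mul_ne_zero (RatFunc.num_ne_zero (d i).ne_zero)
      (RatFunc.denom_ne_zero _)) ?_
    have h3 : algebraMap F[X] (RatFunc F) (d i : RatFunc F).denom ≠ 0 := by
      rw [Ne, map_eq_zero_iff _ (twsel_inj F)]
      exact RatFunc.denom_ne_zero _
    rw [twsel_num, twsel_log_sq _ (d i).ne_zero h3]
    exact dvd_add (by exact_mod_cast h1) (dvd_mul_right _ _)
  · rw [valued_adic]
    exact v.valuation_le_one _
  · rw [← map_sub, valued_adic, twsel_pts_sub, HeightOneSpectrum.valuation_eq_one_iff_notMem, hv,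
      Ideal.mem_span_singleton]
    intro h
    rcases hP.prime.dvd_or_dvd h with h | h
    · exact hPE h
    · exact hPa i k hk.symm h

end more

theorem tTwSel (hSy : StmtTwSy.{u}) (hLocF : StmtTwLocF.{u}) (hLocI : StmtTwLocI.{u})
    (hSplF : StmtTwSplF.{u}) (hSqF : StmtTwSqF.{u}) (hSqI : StmtTwSqI.{u})
    (hTor : StmtTwTor.{u}) : StmtTwSel.{u} := by
  classical
  intro F _ _ hodd m n a ha ι _ pr hpr hcov ρ x₀ hx₀ hdeg hspl d hd
  have hE0 : tw pr ρ x₀ ≠ 0 := twsel_tw_ne hpr hx₀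
  have hEdvd : ∀ P : F[X], P.Monic → Irreducible P → P ∣ tw pr ρ x₀ → ∃ b, pr b = P ∧ ρ b = 1 :=
    fun P hP hPi h => twsel_dvd_tw hpr hx₀ hP hPi h
  have hE1 : ∀ b, ρ b = 1 → pr b ∣ tw pr ρ x₀ ∧ ¬ pr b ^ 2 ∣ tw pr ρ x₀ :=
    fun b hb => ⟨twsel_dvd hb, twsel_sq hpr hx₀ hb⟩
  have hE2 : ∀ b, ρ b = 0 → ¬ pr b ∣ tw pr ρ x₀ := fun b hb => twsel_not_dvd hpr hx₀ hb
  generalize tw pr ρ x₀ = E at hE0 hEdvd hE1 hE2 hdeg hspl hd ⊢
  have hainj : Function.Injective a := by
    intro i j hij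
    by_contra hne
    have h1 := ha.deg i j hne
    rw [hij, sub_self, degree_zero] at h1
    exact absurd h1 (by simp)
  obtain ⟨-, hsyP⟩ := hSy F hodd
  obtain ⟨-, hd'⟩ := Subgroup.mem_inf.1 hd
  obtain ⟨hdfin, hdinf⟩ := Subgroup.mem_inf.1 hd'
  have hdv : ∀ v : HeightOneSpectrum F[X], baseChange (v.adicCompletion (RatFunc F)) d ∈
      localImage 2 (pts E a) (fun _ => 1) (v.adicCompletion (RatFunc F)) :=
    fun v => (Subgroup.mem_iInf.1 hdfin) v
  -- the torsion class at infinity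
  obtain ⟨t, ht, z, hz⟩ := hLocI F hodd m n ha.odd ha.three E hE0 a ha.deg hdeg _ hdinf
  obtain ⟨c₀, hc₀, hc₀'⟩ := (hTor F m ha.odd E hE0 a hainj).1 t ht
  choose z' hz' using hc₀'
  have hAinj := twsel_inj F
  have hND0 : ∀ i, (d i : RatFunc F).num * (d i : RatFunc F).denom ≠ 0 := fun i =>
    mul_ne_zero (RatFunc.num_ne_zero (d i).ne_zero) (RatFunc.denom_ne_zero _)
  have hD0 : ∀ i, algebraMap F[X] (RatFunc F) (d i : RatFunc F).denom ≠ 0 := by
    intro i
    rw [Ne, map_eq_zero_iff _ hAinj]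
    exact RatFunc.denom_ne_zero _
  have htau0 : ∀ c i, tau E a c i ≠ 0 := fun c i => twsel_tau_ne hE0 hainj c i
  have hz'0 : ∀ i, z' i ≠ 0 := by
    intro i h0
    have h1 := hz' i
    rw [h0, zero_pow two_ne_zero, mul_zero] at h1
    exact (t i).ne_zero h1
  -- the polynomials
  have hδ0 : ∀ i, (d i : RatFunc F).num * (d i : RatFunc F).denom * tau E a c₀ i ≠ 0 :=
    fun i => mul_ne_zero (hND0 i) (htau0 c₀ i)
  have hy0 : ∀ i, algebraMap F[X] (RatFunc F) (d i : RatFunc F).denom / z' i ≠ 0 := fun i =>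
    div_ne_zero (hD0 i) (hz'0 i)
  have hδ : ∀ i, algebraMap F[X] (RatFunc F)
      ((d i : RatFunc F).num * (d i : RatFunc F).denom * tau E a c₀ i) =
      (d i : RatFunc F) * (t i : RatFunc F) *
        (algebraMap F[X] (RatFunc F) (d i : RatFunc F).denom / z' i) ^ 2 := by
    intro i
    have h1 := hz'0 i
    rw [map_mul, twsel_num, hz' i]
    field_simp
  refine ⟨fun i => (d i : RatFunc F).num * (d i : RatFunc F).denom * tau E a c₀ i, hδ0,
    ?_, ?_, ?_, ?_, ?_⟩
  · -- primes outside of the family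
    intro P hP hPi hPb i
    obtain ⟨hadd, hnd, -, -, -⟩ := hsyP P hP hPi
    have hvp : ∀ g h : F[X], g ≠ 0 → h ≠ 0 → vp P (g * h) = vp P g + vp P h :=
      fun g h hg hh => (hadd g h hg hh).1
    have hPE : ¬ P ∣ E := fun h => by
      obtain ⟨b, hb, -⟩ := hEdvd P hP hPi h
      exact hPb b hb
    have hPa : ∀ i j, i ≠ j → ¬ P ∣ a i - a j := fun i j hij h => by
      obtain ⟨b, hb⟩ := hcov P hP hPi i j hij h
      exact hPb b hb
    obtain ⟨v, hv⟩ := twsel_place hPi
    have h1 := twsel_good ha.odd hPi hv hPE hPa (hdv v) i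
    rw [hvp _ _ (hND0 i) (htau0 c₀ i), h1, zero_add, twsel_tau hvp hE0 hainj,
      (hnd (-E) (by rwa [dvd_neg])).1, mul_zero, zero_add]
    refine Finset.sum_eq_zero fun k _ => ?_
    by_cases hik : i = k
    · rw [hik, CharTwo.add_self_eq_zero, zero_mul]
    · rw [(hnd _ (hPa i k hik)).1, mul_zero]
  · -- infinity
    intro i
    refine hSqI F _ (hδ0 i) (algebraMap (RatFunc F) (RatFunc.inftyValuation F).Completion
      (t i : RatFunc F) * (z i : (RatFunc.inftyValuation F).Completion) *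
      algebraMap (RatFunc F) (RatFunc.inftyValuation F).Completion
        (algebraMap F[X] (RatFunc F) (d i : RatFunc F).denom / z' i)) ?_
    have h1 : algebraMap (RatFunc F) (RatFunc.inftyValuation F).Completion (d i : RatFunc F) =
        algebraMap (RatFunc F) (RatFunc.inftyValuation F).Completion (t i : RatFunc F) *
          (z i : (RatFunc.inftyValuation F).Completion) ^ 2 := by
      have h2 := congrArg Units.val (congrFun hz i)
      exact h2
    rw [hδ i, map_mul, map_mul, map_pow, h1]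
    ring
  · -- primes dividing the twist
    intro b hb
    obtain ⟨hadd, hnd, -, -, -⟩ := hsyP (pr b) (hpr.monic b) (hpr.irr b)
    have hvp : ∀ g h : F[X], g ≠ 0 → h ≠ 0 → vp (pr b) (g * h) = vp (pr b) g + vp (pr b) h :=
      fun g h hg hh => (hadd g h hg hh).1
    have hsy : ∀ g h : F[X], g ≠ 0 → h ≠ 0 → sy (pr b) (g * h) = sy (pr b) g + sy (pr b) h :=
      fun g h hg hh => (hadd g h hg hh).2
    obtain ⟨v, hv⟩ := twsel_place (hpr.irr b)
    obtain ⟨t₁, ht₁, w, hw⟩ := hLocF F hodd m ha.odd ha.three E hE0 a hainj v (pr b)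
      (hpr.monic b) (hpr.irr b) hv (hE1 b hb).1 (hE1 b hb).2
      (fun i j k l hij hkl h1 h2 => twsel_cop ha (hpr.irr b) hij hkl h1 h2) _ (hdv v)
    obtain ⟨c₁, hc₁, hc₁'⟩ := (hTor F m ha.odd E hE0 a hainj).1 t₁ ht₁
    choose w' hw' using hc₁'
    refine ⟨c₀ + c₁, ?_, fun i => ?_⟩
    · simp only [Pi.add_apply]
      rw [Finset.sum_add_distrib, hc₀, hc₁, add_zero]
    have h1 : algebraMap (RatFunc F) (v.adicCompletion (RatFunc F)) (d i : RatFunc F) =
        algebraMap (RatFunc F) (v.adicCompletion (RatFunc F)) (t₁ i : RatFunc F) *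
          (w i : v.adicCompletion (RatFunc F)) ^ 2 := by
      have h2 := congrArg Units.val (congrFun hw i)
      exact h2
    have h3 := hSqF F hodd v (pr b) (hpr.monic b) (hpr.irr b) hv
      ((d i : RatFunc F).num * (d i : RatFunc F).denom * tau E a c₁ i)
      (mul_ne_zero (hND0 i) (htau0 c₁ i))
      (algebraMap (RatFunc F) (v.adicCompletion (RatFunc F))
        (algebraMap F[X] (RatFunc F) (tau E a c₁ i)) *
        algebraMap (RatFunc F) (v.adicCompletion (RatFunc F)) (w' i) *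
        (w i : v.adicCompletion (RatFunc F)) *
        algebraMap (RatFunc F) (v.adicCompletion (RatFunc F))
          (algebraMap F[X] (RatFunc F) (d i : RatFunc F).denom)) (by
        rw [map_mul, twsel_num, map_mul, map_mul, map_pow, h1, hw' i, map_mul, map_pow]
        ring)
    have key : ∀ f : F[X] → ZMod 2, (∀ g h : F[X], g ≠ 0 → h ≠ 0 → f (g * h) = f g + f h) →
        f ((d i : RatFunc F).num * (d i : RatFunc F).denom * tau E a c₁ i) = 0 →
        f ((d i : RatFunc F).num * (d i : RatFunc F).denom * tau E a c₀ i *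
          tau E a (c₀ + c₁) i) = 0 := by
      intro f hf h0
      rw [hf _ _ (hND0 i) (htau0 c₁ i)] at h0
      rw [hf _ _ (hδ0 i) (htau0 _ i), hf _ _ (hND0 i) (htau0 c₀ i),
        twsel_tau_add hf hE0 hainj]
      have h4 : f (tau E a c₀ i) + f (tau E a c₀ i) = 0 := CharTwo.add_self_eq_zero _
      linear_combination h0 + h4
    exact ⟨key _ hvp h3.1, key _ hsy h3.2⟩
  · -- split primes
    intro b hb j k hjk hjkP
    obtain ⟨hadd, hnd, -, -, -⟩ := hsyP (pr b) (hpr.monic b) (hpr.irr b)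
    have hvp : ∀ g h : F[X], g ≠ 0 → h ≠ 0 → vp (pr b) (g * h) = vp (pr b) g + vp (pr b) h :=
      fun g h hg hh => (hadd g h hg hh).1
    have hsy : ∀ g h : F[X], g ≠ 0 → h ≠ 0 → sy (pr b) (g * h) = sy (pr b) g + sy (pr b) h :=
      fun g h hg hh => (hadd g h hg hh).2
    obtain ⟨v, hv⟩ := twsel_place (hpr.irr b)
    obtain ⟨j', k', hjk', hvp1, hsum⟩ := hspl b hb
    have hj'k'P : pr b ∣ a j' - a k' := by
      by_contra h
      rw [(hnd _ h).1] at hvp1
      exact absurd hvp1 (by decide)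
    have hno : ∀ i l, i ≠ l → ¬ (i = j' ∧ l = k') → ¬ (i = k' ∧ l = j') → ¬ pr b ∣ a i - a l := by
      intro i l hil h1 h2 h3
      rcases twsel_cop ha (hpr.irr b) hil hjk' h3 hj'k'P with h | h
      · exact h1 h
      · exact h2 h
    have hprod0 : ∏ i ∈ (Finset.univ.erase j').erase k', (a j' - a i) ≠ 0 :=
      Finset.prod_ne_zero_iff.2 fun i hi => sub_ne_zero.2 fun h =>
        (Finset.ne_of_mem_erase (Finset.mem_of_mem_erase hi)) (hainj h).symm
    have hndiv : ¬ pr b ∣ E * ∏ i ∈ (Finset.univ.erase j').erase k', (a j' - a i) := by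
      intro h
      rcases (hpr.irr b).prime.dvd_or_dvd h with h | h
      · exact hE2 b hb h
      · obtain ⟨i, hi, h⟩ := ((hpr.irr b).prime.dvd_finsetProd_iff _).1 h
        have hi1 : i ≠ k' := Finset.ne_of_mem_erase hi
        have hi2 : i ≠ j' := Finset.ne_of_mem_erase (Finset.mem_of_mem_erase hi)
        exact hno j' i hi2.symm (fun h' => hi1 h'.2) (fun h' => hjk' h'.1) h
    have hsq : IsSquare (AdjoinRoot.mk (pr b)
        (E * ∏ i ∈ (Finset.univ.erase j').erase k', (a j' - a i))) := by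
      rw [← (hnd _ hndiv).2, hsy _ _ hE0 hprod0, twsel_prod hsy _ _ (fun i hi =>
        sub_ne_zero.2 fun h =>
          (Finset.ne_of_mem_erase (Finset.mem_of_mem_erase hi)) (hainj h).symm)]
      exact hsum
    have hdt : baseChange (v.adicCompletion (RatFunc F)) (d * t) ∈
        localImage 2 (pts E a) (fun _ => 1) (v.adicCompletion (RatFunc F)) := by
      rw [map_mul]
      exact mul_mem (hdv v) (baseChange_mem_localImage Nat.prime_two (twsel_pts_inj hE0 hainj)
        (fun _ => Nat.coprime_one_left 2) _ ht)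
    obtain ⟨⟨w, hw⟩, hval⟩ := hSplF F hodd m ha.odd ha.three E a v (pr b) (hpr.monic b)
      (hpr.irr b) hv (hE2 b hb) j' k' hjk' hno hj'k'P hsq (d * t) hdt
    have r1 : ∀ i, i ≠ j' → i ≠ k' →
        vp (pr b) ((d i : RatFunc F).num * (d i : RatFunc F).denom * tau E a c₀ i) = 0 := by
      intro i h1 h2
      refine twsel_vp (hpr.irr b) hv (hδ0 i) ?_
      rw [hδ i, twsel_log_sq _ (mul_ne_zero (d i).ne_zero (t i).ne_zero) (hy0 i)]
      exact dvd_add (hval i h1 h2) (dvd_mul_right _ _)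
    have r2 := hSqF F hodd v (pr b) (hpr.monic b) (hpr.irr b) hv
      (((d j' : RatFunc F).num * (d j' : RatFunc F).denom * tau E a c₀ j') *
        ((d k' : RatFunc F).num * (d k' : RatFunc F).denom * tau E a c₀ k'))
      (mul_ne_zero (hδ0 j') (hδ0 k'))
      (w * algebraMap (RatFunc F) (v.adicCompletion (RatFunc F))
          (algebraMap F[X] (RatFunc F) (d j' : RatFunc F).denom / z' j') *
        algebraMap (RatFunc F) (v.adicCompletion (RatFunc F))
          (algebraMap F[X] (RatFunc F) (d k' : RatFunc F).denom / z' k')) (by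
        have h1 : algebraMap F[X] (RatFunc F)
            (((d j' : RatFunc F).num * (d j' : RatFunc F).denom * tau E a c₀ j') *
              ((d k' : RatFunc F).num * (d k' : RatFunc F).denom * tau E a c₀ k')) =
            (((d * t) j' : (RatFunc F)ˣ) : RatFunc F) * (((d * t) k' : (RatFunc F)ˣ) : RatFunc F) *
              (algebraMap F[X] (RatFunc F) (d j' : RatFunc F).denom / z' j' *
                (algebraMap F[X] (RatFunc F) (d k' : RatFunc F).denom / z' k')) ^ 2 := by
          rw [map_mul, hδ j', hδ k', Pi.mul_apply, Pi.mul_apply, Units.val_mul, Units.val_mul]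
          ring
        rw [h1, map_mul, hw, map_pow, map_mul]
        ring)
    have r3 : vp (pr b) ((d j' : RatFunc F).num * (d j' : RatFunc F).denom * tau E a c₀ j') =
        vp (pr b) ((d k' : RatFunc F).num * (d k' : RatFunc F).denom * tau E a c₀ k') := by
      have h1 := r2.1
      rw [hvp _ _ (hδ0 j') (hδ0 k')] at h1
      exact CharTwo.add_eq_zero.1 h1
    have r4 : sy (pr b) ((d j' : RatFunc F).num * (d j' : RatFunc F).denom * tau E a c₀ j') =
        sy (pr b) ((d k' : RatFunc F).num * (d k' : RatFunc F).denom * tau E a c₀ k') := by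
      have h1 := r2.2
      rw [hsy _ _ (hδ0 j') (hδ0 k')] at h1
      exact CharTwo.add_eq_zero.1 h1
    rcases twsel_cop ha (hpr.irr b) hjk hjk' hjkP hj'k'P with ⟨rfl, rfl⟩ | ⟨rfl, rfl⟩
    · exact ⟨r1, r3, r4⟩
    · exact ⟨fun i h1 h2 => r1 i h2 h1, r3.symm, r4.symm⟩
  · -- the case of squares
    intro hsq
    refine (hTor F m ha.odd E hE0 a hainj).2 c₀ hc₀ d fun i => ?_
    obtain ⟨r, hr⟩ := hsq i
    have h1 : algebraMap F[X] (RatFunc F) (tau E a c₀ i) ≠ 0 := by
      rw [Ne, map_eq_zero_iff _ hAinj]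
      exact htau0 c₀ i
    have h2 := congrArg (algebraMap F[X] (RatFunc F)) hr
    simp only at h2
    rw [map_mul, twsel_num, map_mul] at h2
    have h3 := hD0 i
    refine ⟨algebraMap F[X] (RatFunc F) r / (algebraMap F[X] (RatFunc F) (tau E a c₀ i) *
      algebraMap F[X] (RatFunc F) (d i : RatFunc F).denom), ?_⟩
    field_simp
    linear_combination h2

end MP72e2e6
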