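import Pool.Agent.Lib.MP_72e2e6_nt.PeStmtB
import Pool.Agent.Lib.MP_72e2e6_nt.TwSel

/-!
# MP_72e2e6_nt: the Selmer conditions in terms of polynomials, for positive proportion
-/

set_option autoImplicit false

namespace MP72e2e6

open Polynomial IsDedekindDomain WithZero

universe u

theorem tPeSel (hSy : StmtTwSy.{u}) (hLocF : StmtTwLocF.{u}) (hLocI : StmtTwLocI.{u})
    (hSqF : StmtTwSqF.{u}) (hSqI : StmtTwSqI.{u}) (hTor : StmtTwTor.{u}) : StmtPeSel.{u} := by
  classical
  intro F _ _ hodd m n a ha ι _ pr hpr hcov hdeg d hd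
  have hx₀ : (1 : F) ≠ 0 := one_ne_zero
  obtain ⟨ρ, hρ⟩ : ∃ ρ : ι → ZMod 2, ρ = 1 := ⟨_, rfl⟩
  have hρ1 : ∀ b, ρ b = 1 := fun b => by rw [hρ]; rfl
  rw [← hρ] at hdeg hd ⊢
  have hE0 : tw pr ρ 1 ≠ 0 := twsel_tw_ne hpr hx₀
  have hEdvd : ∀ P : F[X], P.Monic → Irreducible P → P ∣ tw pr ρ 1 → ∃ b, pr b = P ∧ ρ b = 1 :=
    fun P hP hPi h => twsel_dvd_tw hpr hx₀ hP hPi h
  have hE1 : ∀ b, ρ b = 1 → pr b ∣ tw pr ρ 1 ∧ ¬ pr b ^ 2 ∣ tw pr ρ 1 :=
    fun b hb => ⟨twsel_dvd hb, twsel_sq hpr hx₀ hb⟩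
  generalize tw pr ρ 1 = E at hE0 hEdvd hE1 hdeg hd ⊢
  have hainj : Function.Injective a := by
    intro i j hij
    by_contra hne
    have h1 := ha.deg i j hne
    rw [hij, sub_self, degree_zero] at h1
    exact absurd h1 (by simp)
  obtain ⟨-, hsyP⟩ := hSy F hodd
  obtain ⟨-, hd'⟩ := Subgroup.mem_inf.1 hd
  obtain ⟨hdfin, hdinf⟩ := Subgroup.mem_inf.1 hd'
  have hdv : ∀ v : HeightOneSpectrum F[X], baseChange (v.adicCompletion (RatFunc F)) d ∈
      localImage 2 (pts E a) (fun _ => 1) (v.adicCompletion (RatFunc F)) :=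
    fun v => (Subgroup.mem_iInf.1 hdfin) v
  -- the torsion class at infinity
  obtain ⟨t, ht, z, hz⟩ := hLocI F hodd m n ha.odd ha.three E hE0 a ha.deg hdeg _ hdinf
  obtain ⟨c₀, hc₀, hc₀'⟩ := (hTor F m ha.odd E hE0 a hainj).1 t ht
  choose z' hz' using hc₀'
  have hAinj := twsel_inj F
  have hND0 : ∀ i, (d i : RatFunc F).num * (d i : RatFunc F).denom ≠ 0 := fun i =>
    mul_ne_zero (RatFunc.num_ne_zero (d i).ne_zero) (RatFunc.denom_ne_zero _)
  have hD0 : ∀ i, algebraMap F[X] (RatFunc F) (d i : RatFunc F).denom ≠ 0 := by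
    intro i
    rw [Ne, map_eq_zero_iff _ hAinj]
    exact RatFunc.denom_ne_zero _
  have htau0 : ∀ c i, tau E a c i ≠ 0 := fun c i => twsel_tau_ne hE0 hainj c i
  have hz'0 : ∀ i, z' i ≠ 0 := by
    intro i h0
    have h1 := hz' i
    rw [h0, zero_pow two_ne_zero, mul_zero] at h1
    exact (t i).ne_zero h1
  -- the polynomials
  have hδ0 : ∀ i, (d i : RatFunc F).num * (d i : RatFunc F).denom * tau E a c₀ i ≠ 0 :=
    fun i => mul_ne_zero (hND0 i) (htau0 c₀ i)
  have hy0 : ∀ i, algebraMap F[X] (RatFunc F) (d i : RatFunc F).denom / z' i ≠ 0 := fun i =>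
    div_ne_zero (hD0 i) (hz'0 i)
  have hδ : ∀ i, algebraMap F[X] (RatFunc F)
      ((d i : RatFunc F).num * (d i : RatFunc F).denom * tau E a c₀ i) =
      (d i : RatFunc F) * (t i : RatFunc F) *
        (algebraMap F[X] (RatFunc F) (d i : RatFunc F).denom / z' i) ^ 2 := by
    intro i
    have h1 := hz'0 i
    rw [map_mul, twsel_num, hz' i]
    field_simp
  refine ⟨fun i => (d i : RatFunc F).num * (d i : RatFunc F).denom * tau E a c₀ i, hδ0,
    ?_, ?_, ?_, ?_⟩
  · -- primes outside of the family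
    intro P hP hPi hPb i
    obtain ⟨hadd, hnd, -, -, -⟩ := hsyP P hP hPi
    have hvp : ∀ g h : F[X], g ≠ 0 → h ≠ 0 → vp P (g * h) = vp P g + vp P h :=
      fun g h hg hh => (hadd g h hg hh).1
    have hPE : ¬ P ∣ E := fun h => by
      obtain ⟨b, hb, -⟩ := hEdvd P hP hPi h
      exact hPb b hb
    have hPa : ∀ i j, i ≠ j → ¬ P ∣ a i - a j := fun i j hij h => by
      obtain ⟨b, hb⟩ := hcov P hP hPi i j hij h
      exact hPb b hb
    obtain ⟨v, hv⟩ := twsel_place hPi
    have h1 := twsel_good ha.odd hPi hv hPE hPa (hdv v) i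
    rw [hvp _ _ (hND0 i) (htau0 c₀ i), h1, zero_add, twsel_tau hvp hE0 hainj,
      (hnd (-E) (by rwa [dvd_neg])).1, mul_zero, zero_add]
    refine Finset.sum_eq_zero fun k _ => ?_
    by_cases hik : i = k
    · rw [hik, CharTwo.add_self_eq_zero, zero_mul]
    · rw [(hnd _ (hPa i k hik)).1, mul_zero]
  · -- infinity
    intro i
    refine hSqI F _ (hδ0 i) (algebraMap (RatFunc F) (RatFunc.inftyValuation F).Completion
      (t i : RatFunc F) * (z i : (RatFunc.inftyValuation F).Completion) *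
      algebraMap (RatFunc F) (RatFunc.inftyValuation F).Completion
        (algebraMap F[X] (RatFunc F) (d i : RatFunc F).denom / z' i)) ?_
    have h1 : algebraMap (RatFunc F) (RatFunc.inftyValuation F).Completion (d i : RatFunc F) =
        algebraMap (RatFunc F) (RatFunc.inftyValuation F).Completion (t i : RatFunc F) *
          (z i : (RatFunc.inftyValuation F).Completion) ^ 2 := by
      have h2 := congrArg Units.val (congrFun hz i)
      exact h2
    rw [hδ i, map_mul, map_mul, map_pow, h1]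
    ring
  · -- primes dividing the twist
    intro b
    have hb := hρ1 b
    obtain ⟨hadd, hnd, -, -, -⟩ := hsyP (pr b) (hpr.monic b) (hpr.irr b)
    have hvp : ∀ g h : F[X], g ≠ 0 → h ≠ 0 → vp (pr b) (g * h) = vp (pr b) g + vp (pr b) h :=
      fun g h hg hh => (hadd g h hg hh).1
    have hsy : ∀ g h : F[X], g ≠ 0 → h ≠ 0 → sy (pr b) (g * h) = sy (pr b) g + sy (pr b) h :=
      fun g h hg hh => (hadd g h hg hh).2
    obtain ⟨v, hv⟩ := twsel_place (hpr.irr b)
    obtain ⟨t₁, ht₁, w, hw⟩ := hLocF F hodd m ha.odd ha.three E hE0 a hainj v (pr b)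
      (hpr.monic b) (hpr.irr b) hv (hE1 b hb).1 (hE1 b hb).2
      (fun i j k l hij hkl h1 h2 => twsel_cop ha (hpr.irr b) hij hkl h1 h2) _ (hdv v)
    obtain ⟨c₁, hc₁, hc₁'⟩ := (hTor F m ha.odd E hE0 a hainj).1 t₁ ht₁
    choose w' hw' using hc₁'
    refine ⟨c₀ + c₁, ?_, fun i => ?_⟩
    · simp only [Pi.add_apply]
      rw [Finset.sum_add_distrib, hc₀, hc₁, add_zero]
    have h1 : algebraMap (RatFunc F) (v.adicCompletion (RatFunc F)) (d i : RatFunc F) =
        algebraMap (RatFunc F) (v.adicCompletion (RatFunc F)) (t₁ i : RatFunc F) *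
          (w i : v.adicCompletion (RatFunc F)) ^ 2 := by
      have h2 := congrArg Units.val (congrFun hw i)
      exact h2
    have h3 := hSqF F hodd v (pr b) (hpr.monic b) (hpr.irr b) hv
      ((d i : RatFunc F).num * (d i : RatFunc F).denom * tau E a c₁ i)
      (mul_ne_zero (hND0 i) (htau0 c₁ i))
      (algebraMap (RatFunc F) (v.adicCompletion (RatFunc F))
        (algebraMap F[X] (RatFunc F) (tau E a c₁ i)) *
        algebraMap (RatFunc F) (v.adicCompletion (RatFunc F)) (w' i) *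
        (w i : v.adicCompletion (RatFunc F)) *
        algebraMap (RatFunc F) (v.adicCompletion (RatFunc F))
          (algebraMap F[X] (RatFunc F) (d i : RatFunc F).denom)) (by
        rw [map_mul, twsel_num, map_mul, map_mul, map_pow, h1, hw' i, map_mul, map_pow]
        ring)
    have key : ∀ f : F[X] → ZMod 2, (∀ g h : F[X], g ≠ 0 → h ≠ 0 → f (g * h) = f g + f h) →
        f ((d i : RatFunc F).num * (d i : RatFunc F).denom * tau E a c₁ i) = 0 →
        f ((d i : RatFunc F).num * (d i : RatFunc F).denom * tau E a c₀ i *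
          tau E a (c₀ + c₁) i) = 0 := by
      intro f hf h0
      rw [hf _ _ (hND0 i) (htau0 c₁ i)] at h0
      rw [hf _ _ (hδ0 i) (htau0 _ i), hf _ _ (hND0 i) (htau0 c₀ i),
        twsel_tau_add hf hE0 hainj]
      have h4 : f (tau E a c₀ i) + f (tau E a c₀ i) = 0 := CharTwo.add_self_eq_zero _
      linear_combination h0 + h4
    exact ⟨key _ hvp h3.1, key _ hsy h3.2⟩
  · -- the elements of the Selmer group
    refine ⟨c₀, hc₀, fun i => ?_⟩
    have h1 : algebraMap F[X] (RatFunc F) (tau E a c₀ i) ≠ 0 := by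
      rw [Ne, map_eq_zero_iff _ hAinj]
      exact htau0 c₀ i
    have h3 := hD0 i
    refine ⟨(algebraMap F[X] (RatFunc F) (d i : RatFunc F).denom *
      algebraMap F[X] (RatFunc F) (tau E a c₀ i))⁻¹, ?_⟩
    rw [map_mul, map_mul, twsel_num]
    field_simp

end MP72e2e6
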