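import Pool.Agent.Lib.MP_72e2e6_nt.PeStmt
import Pool.Agent.Lib.MP_72e2e6_nt.SuPrime

/-!
# MP_72e2e6_nt, module PeWei: the bound for the logarithmic derivative
-/

namespace MP72e2e6

open Polynomial

universe u

section pewei

variable {F : Type u} [Field F]

theorem pewei_phE {ι : Type} [Fintype ι] [DecidableEq ι] (χ : F → ZMod 2) (pr : ι → F[X])
    (κ : ZMod 2) : phE χ pr κ = suprime_chi χ pr (fun _ => 1, κ) := by
  funext h
  unfold phE suprime_chi
  congr 1
  rw [Finset.filter_true_of_mem fun b _ => one_ne_zero]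

theorem pewei_natDegree {ι : Type} [Fintype ι] {pr : ι → F[X]} (hpr : Fam pr) :
    (∏ b, pr b).natDegree = ∑ b, (pr b).natDegree :=
  natDegree_prod_of_monic _ _ fun b _ => hpr.monic b

theorem pewei_sep [Finite F] {ι : Type} [Fintype ι] {pr : ι → F[X]} (hpr : Fam pr) :
    (∏ b, pr b).Separable := by
  refine separable_prod' (fun a _ b _ hab => ?_)
    (fun b _ => PerfectField.separable_of_irreducible (hpr.irr b))
  rw [(hpr.irr a).coprime_iff_not_dvd]
  intro h
  exact hab (hpr.inj (eq_of_monic_of_associated (hpr.monic a) (hpr.monic b)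
    ((hpr.irr a).associated_of_dvd (hpr.irr b) h)))

theorem pewei_sq {K : Type} [Field K] {f : K[X]} (hf : f.Separable) (hd : 1 ≤ f.natDegree)
    (x : K) (g : K[X]) : f ≠ C x * g ^ 2 := by
  intro h
  have h1 : IsUnit g := hf.squarefree g ⟨C x, by rw [h]; ring⟩
  have h2 : (C x * g ^ 2).natDegree ≤ 0 := by
    refine natDegree_mul_le.trans ?_
    rw [natDegree_C, natDegree_pow, natDegree_eq_zero_of_isUnit h1]
  rw [h] at hd
  omega

/-- The good `k`. -/
theorem pewei_good [Finite F] (h3 : StmtPeChr.{0}) (h4 : StmtPeExt.{u})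
    (hq : 2 ∣ Nat.card F - 1) (χ : F → ZMod 2) (hχ : IsLg 2 χ) (hR : Rcp χ) {ι : Type}
    [Fintype ι] (pr : ι → F[X]) (hpr : Fam pr) (κ : ZMod 2) (k : ℕ) (hk : 1 ≤ k)
    (hm : 1 ≤ (∏ b, pr b).natDegree) (hm20 : 20 * (∏ b, pr b).natDegree < Nat.card F ^ k)
    (h16 : 16 ≤ Nat.card F ^ k) :
    ‖psiC (phE χ pr κ) k‖ ≤ 15 * ((∏ b, pr b).natDegree : ℝ) * Nat.sqrt (Nat.card F ^ k) := by
  classical
  obtain ⟨p, hp⟩ := CharP.exists F
  have hpp : Fact p.Prime := ⟨(CharP.char_is_prime_or_zero F p).resolve_right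
    (CharP.char_ne_zero_of_finite F p)⟩
  have : NeZero k := ⟨by omega⟩
  let K : Type := FiniteField.Extension F p k
  let _ : Fintype K := Fintype.ofFinite K
  have hcard : Nat.card K = Nat.card F ^ k := FiniteField.natCard_extension F p k
  have hodd : Odd (Nat.card K) := by
    rw [hcard]
    apply Odd.pow
    have h1 : 1 ≤ Nat.card F := Nat.card_pos
    obtain ⟨c, hc⟩ := hq
    exact ⟨c, by omega⟩
  set f : F[X] := ∏ b, pr b with hf
  have hmon : f.Monic := monic_prod_of_monic _ _ fun b _ => hpr.monic b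
  have hdeg : (f.map (algebraMap F K)).natDegree = f.natDegree :=
    natDegree_map_eq_of_injective (algebraMap F K).injective f
  have hsep : (f.map (algebraMap F K)).Separable := (pewei_sep hpr).map
  have hb := h3 K hodd (f.map (algebraMap F K)) (hmon.map _) (by rw [hdeg]; exact hm)
    (pewei_sq hsep (by rw [hdeg]; exact hm)) (by rw [hdeg, hcard]; exact hm20)
    (by rw [hcard]; exact h16)
  have he := h4 F hq χ hχ hR ι pr hpr κ K k hk (FiniteField.finrank_extension F p k)
  have hev : ∀ x : K, aeval x (∏ b, pr b) = (f.map (algebraMap F K)).eval x := by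
    intro x
    rw [aeval_def, eval₂_eq_eval_map]
  rw [Finset.sum_congr rfl fun x _ => by rw [hev x]] at he
  rw [he, norm_mul, norm_pow, suprime_std_norm, one_pow, one_mul, Complex.norm_intCast]
  rw [hdeg, hcard] at hb
  have hb' : ((|∑ x : K, quadraticChar K ((f.map (algebraMap F K)).eval x)| : ℤ) : ℝ) ≤
      (((15 * f.natDegree * Nat.sqrt (Nat.card F ^ k) : ℕ) : ℤ) : ℝ) := by
    exact_mod_cast hb
  rw [Int.cast_abs] at hb'
  refine hb'.trans (le_of_eq ?_)
  push_cast
  ring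

theorem pewei_geom (J : ℕ) : ∑ k ∈ Finset.Icc 1 J, ((1 : ℝ) / 2) ^ k ≤ 1 := by
  have h : ∀ J : ℕ, ∑ k ∈ Finset.Icc 1 J, ((1 : ℝ) / 2) ^ k = 1 - (1 / 2) ^ J := by
    intro J
    induction J with
    | zero => simp
    | succ J ih =>
      rw [Finset.sum_Icc_succ_top (by omega), ih, pow_succ]
      ring
  rw [h]
  have h1 : (0 : ℝ) ≤ (1 / 2) ^ J := by positivity
  linarith

end pewei

theorem tPeWei.{v} (h1 : StmtSuSy.{v}) (h2 : StmtSuPsi.{v}) (h3 : StmtPeChr.{0})
    (h4 : StmtPeExt.{v}) : StmtPeWei.{v} := by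
  classical
  intro F _ _ hq4 hq χ hχ hR ι _ _ pr hpr κ D hD J
  set m : ℕ := (∏ b, pr b).natDegree with hm
  have hmD : m < D := by
    rw [hm, pewei_natDegree hpr]
    exact hD
  have hm1 : 1 ≤ m := by
    rw [hm, pewei_natDegree hpr]
    obtain ⟨b⟩ := ‹Nonempty ι›
    exact (Nat.succ_le_of_lt (hpr.irr b).natDegree_pos).trans
      (Finset.single_le_sum (f := fun b => (pr b).natDegree) (fun _ _ => Nat.zero_le _)
        (Finset.mem_univ b))
  have hch : IsChL 2 (phE χ pr κ) := by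
    rw [pewei_phE]
    exact suprime_isCh h1 Nat.prime_two hq χ hχ pr hpr _
  have hone := (h2 F 2 Nat.prime_two).2.2.1 (phE χ pr κ) hch
  have hq0 : (0 : ℝ) < Nat.card F := by
    have h5 : 0 < Nat.card F := by omega
    exact_mod_cast h5
  have hterm : ∀ k ∈ Finset.Icc 1 J, ‖psiC (phE χ pr κ) k‖ / (Nat.card F : ℝ) ^ k ≤
      15 * (m : ℝ) * (1 / 2) ^ k + (if k < 20 * m then 1 else 0) := by
    intro k hk
    have hk1 := (Finset.mem_Icc.1 hk).1
    have hqk : (0 : ℝ) < (Nat.card F : ℝ) ^ k := pow_pos hq0 k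
    by_cases hgood : 20 * m < Nat.card F ^ k ∧ 16 ≤ Nat.card F ^ k
    · have h5 := pewei_good h3 h4 hq χ hχ hR pr hpr κ k hk1 hm1 hgood.1 hgood.2
      rw [← hm] at h5
      set s := Nat.sqrt (Nat.card F ^ k) with hs
      have h6 : 2 ^ k ≤ s := by
        rw [hs, Nat.le_sqrt]
        calc 2 ^ k * 2 ^ k = 4 ^ k := by rw [← mul_pow]; norm_num
          _ ≤ Nat.card F ^ k := Nat.pow_le_pow_left hq4 k
      have h7 : s * s ≤ Nat.card F ^ k := Nat.sqrt_le _
      have h6' : (2 : ℝ) ^ k ≤ s := by exact_mod_cast h6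
      have h7' : (s : ℝ) * s ≤ (Nat.card F : ℝ) ^ k := by exact_mod_cast h7
      have h8 : (0 : ℝ) < 2 ^ k := by positivity
      have hs0 : (0 : ℝ) < s := h8.trans_le h6'
      have h9 : ‖psiC (phE χ pr κ) k‖ / (Nat.card F : ℝ) ^ k ≤ 15 * (m : ℝ) * (1 / 2) ^ k := by
        rw [div_le_iff₀ hqk]
        refine h5.trans ?_
        have h10 : (s : ℝ) ≤ (1 / 2) ^ k * (Nat.card F : ℝ) ^ k := by
          rw [one_div, inv_pow]
          rw [inv_mul_eq_div, le_div_iff₀ h8]
          exact (mul_le_mul_of_nonneg_left h6' hs0.le).trans h7'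
        calc 15 * (m : ℝ) * s ≤ 15 * (m : ℝ) * ((1 / 2) ^ k * (Nat.card F : ℝ) ^ k) :=
              mul_le_mul_of_nonneg_left h10 (by positivity)
          _ = _ := by ring
      refine h9.trans (le_add_of_nonneg_right ?_)
      split_ifs <;> norm_num
    · have h5 : k < 20 * m := by
        have h6 : k < 2 ^ k := Nat.lt_two_pow_self
        have h7 : 2 ^ k ≤ Nat.card F ^ k := Nat.pow_le_pow_left (by omega) k
        by_cases h8 : 20 * m < Nat.card F ^ k
        · have h9 : Nat.card F ^ k < 16 := by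
            by_contra h10
            exact hgood ⟨h8, by omega⟩
          omega
        · omega
      rw [if_pos h5]
      have h6 : ‖psiC (phE χ pr κ) k‖ / (Nat.card F : ℝ) ^ k ≤ 1 := by
        rw [div_le_one hqk]
        exact hone k hk1
      refine h6.trans (le_add_of_nonneg_left ?_)
      positivity
  refine (Finset.sum_le_sum hterm).trans ?_
  rw [Finset.sum_add_distrib, ← Finset.mul_sum]
  have h5 : ∑ k ∈ Finset.Icc 1 J, (if k < 20 * m then (1 : ℝ) else 0) ≤ 20 * m := by
    rw [← Finset.sum_filter, Finset.sum_const, nsmul_eq_mul, mul_one]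
    have h6 : ((Finset.Icc 1 J).filter (fun k => k < 20 * m)).card ≤ 20 * m := by
      calc ((Finset.Icc 1 J).filter (fun k => k < 20 * m)).card ≤ (Finset.range (20 * m)).card :=
            Finset.card_le_card fun k hk => Finset.mem_range.2 (Finset.mem_filter.1 hk).2
        _ = 20 * m := Finset.card_range _
    exact_mod_cast h6
  have h6 : 15 * (m : ℝ) * ∑ k ∈ Finset.Icc 1 J, ((1 : ℝ) / 2) ^ k ≤ 15 * m := by
    have h7 := mul_le_mul_of_nonneg_left (pewei_geom J) (by positivity : (0 : ℝ) ≤ 15 * m)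
    rwa [mul_one] at h7
  have h7 : (m : ℝ) ≤ (D : ℝ) ^ 2 := by
    have h8 : m ≤ D ^ 2 := by nlinarith
    exact_mod_cast h8
  linarith

end MP72e2e6
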