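import Pool.Agent.Lib.MP_72e2e6_nt.PpStmtB

/-!
# MP_72e2e6_nt: positive proportion of twists, module PpBij
-/

namespace MP72e2e6

open Polynomial

universe u

theorem ppbij_eq {F : Type u} [Field F] {P Q : F[X]} (hP : P.Monic ∧ Irreducible P)
    (hQ : Q.Monic ∧ Irreducible Q) (h : P ∣ Q) : P = Q :=
  Polynomial.eq_of_monic_of_associated hP.1 hQ.1 (hP.2.associated_of_dvd hQ.2 h)

theorem ppbij_dvd {F : Type u} [Field F] {P : F[X]} (hP : P.Monic ∧ Irreducible P)
    {t : Finset F[X]} (ht : ∀ Q ∈ t, Q.Monic ∧ Irreducible Q) (h : P ∣ ∏ Q ∈ t, Q) : P ∈ t := by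
  obtain ⟨Q, hQ, hPQ⟩ := (hP.2.prime.dvd_finsetProd_iff _).1 h
  rw [ppbij_eq hP (ht Q hQ) hPQ]
  exact hQ

theorem tPpBij.{v} : StmtPpBij.{v} := by
  intro F _ _ V pr hpr n
  have hgs : ∀ t : Finset F[X], t ∈ (gs F pr n : Set (Finset F[X])) ↔
      t ∈ ps F n ∧ ∀ P ∈ t, ∀ v, pr v ≠ P := by
    intro t
    simp [gs]
  refine ⟨?_, ?_, ?_⟩
  · intro t ht
    obtain ⟨h1, h2⟩ := (hgs t).1 ht
    obtain ⟨h3, h4⟩ := mem_ps.1 h1
    refine ⟨monic_prod_of_monic _ _ fun P hP => (h3 P hP).1, ?_, ?_, ?_⟩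
    · rw [natDegree_prod_of_monic _ _ fun P hP => (h3 P hP).1, h4]
    · refine Finset.squarefree_prod_of_pairwise_isCoprime ?_ fun P hP => (h3 P hP).2.squarefree
      intro P hP Q hQ hne
      have h5 : IsCoprime P Q := (h3 P hP).2.coprime_iff_not_dvd.2 fun h =>
        hne (ppbij_eq (h3 P hP) (h3 Q hQ) h)
      exact h5.isRelPrime
    · intro v hv
      exact h2 _ (ppbij_dvd ⟨hpr.monic v, hpr.irr v⟩ h3 hv) v rfl
  · intro t ht t' ht' h
    have h1 := (mem_ps.1 ((hgs t).1 ht).1).1
    have h2 := (mem_ps.1 ((hgs t').1 ht').1).1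
    have h' : ∏ P ∈ t, P = ∏ P ∈ t', P := h
    ext P
    constructor
    · intro hP
      refine ppbij_dvd (h1 P hP) h2 ?_
      rw [← h']
      exact Finset.dvd_prod_of_mem _ hP
    · intro hP
      refine ppbij_dvd (h2 P hP) h1 ?_
      rw [h']
      exact Finset.dvd_prod_of_mem _ hP
  · rintro M ⟨hM, hMn, hMs, hMv⟩
    classical
    have hM0 := hM.ne_zero
    have hnd := (UniqueFactorizationMonoid.squarefree_iff_nodup_normalizedFactors hM0).1 hMs
    have hprod : ∏ P ∈ (UniqueFactorizationMonoid.normalizedFactors M).toFinset, P = M := by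
      have h1 : ∏ P ∈ (UniqueFactorizationMonoid.normalizedFactors M).toFinset, P =
          (UniqueFactorizationMonoid.normalizedFactors M).prod := by
        rw [Finset.prod_eq_multiset_prod, Multiset.toFinset_val, hnd.dedup, Multiset.map_id']
      rw [h1, UniqueFactorizationMonoid.prod_normalizedFactors_eq hM0, hM.normalize_eq_self]
    have hmem : ∀ P ∈ (UniqueFactorizationMonoid.normalizedFactors M).toFinset,
        P.Monic ∧ Irreducible P := by
      intro P hP
      rw [Multiset.mem_toFinset] at hP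
      have hirr := UniqueFactorizationMonoid.irreducible_of_normalized_factor P hP
      refine ⟨?_, hirr⟩
      have := UniqueFactorizationMonoid.normalize_normalized_factor P hP
      exact (Polynomial.normalize_eq_self_iff_monic hirr.ne_zero).1 this
    refine ⟨(UniqueFactorizationMonoid.normalizedFactors M).toFinset, (hgs _).2 ⟨?_, ?_⟩, hprod⟩
    · refine mem_ps.2 ⟨hmem, ?_⟩
      rw [← natDegree_prod_of_monic _ _ fun P hP => (hmem P hP).1, hprod, hMn]
    · intro P hP v hv
      apply hMv v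
      rw [hv, ← hprod]
      exact Finset.dvd_prod_of_mem _ hP

end MP72e2e6
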