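import Pool.Agent.Lib.MP_72e2e6_nt.SuStmt

/-!
# MP_72e2e6_nt, module SuZero: character sums over monic polynomials vanish
-/

namespace MP72e2e6

open Polynomial IsDedekindDomain

universe u

section suzero

variable {F : Type u} [Field F] {ℓ : ℕ}

theorem suzero_lgc_congr [NeZero ℓ] (χ : F → ZMod ℓ) (s : ZMod ℓ) (P g h : F[X])
    (hgh : P ∣ g - h) : lgc χ s P g = lgc χ s P h := by
  have h1 : AdjoinRoot.mk P g = AdjoinRoot.mk P h := by
    rw [← sub_eq_zero, ← map_sub, AdjoinRoot.mk_eq_zero]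
    exact hgh
  have h2 : P ∣ g ↔ P ∣ h := by
    rw [← AdjoinRoot.mk_eq_zero, ← AdjoinRoot.mk_eq_zero, h1]
  unfold lgc nm
  rw [h1]
  by_cases h3 : P ∣ h
  · rw [if_pos (h2.mpr h3), if_pos h3]
  · rw [if_neg fun h => h3 (h2.mp h), if_neg h3]

theorem suzero_one {χ : F → ZMod ℓ} (hχ : IsLg ℓ χ) : χ 1 = 0 := by
  have h1 := hχ.mul 1 1 one_ne_zero one_ne_zero
  rw [mul_one] at h1
  exact (add_eq_left.mp h1.symm)

theorem suzero_nm_ne (P : F[X]) (hP : P.Monic) (hi : Irreducible P) (h : F[X])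
    (hh : ¬ P ∣ h) : nm P h ≠ 0 := by
  have : Fact (Irreducible P) := ⟨hi⟩
  have : Module.Finite F (AdjoinRoot P) := hP.finite_adjoinRoot
  unfold nm
  rw [Algebra.norm_ne_zero_iff]
  intro h0
  exact hh (AdjoinRoot.mk_eq_zero.mp h0)

theorem suzero_lgc_mul [NeZero ℓ] {χ : F → ZMod ℓ} (hχ : IsLg ℓ χ) (s : ZMod ℓ) (P : F[X])
    (hP : P.Monic) (hi : Irreducible P) (g h : F[X]) :
    lgc χ s P (g * h) = lgc χ s P g * lgc χ s P h := by
  unfold lgc
  by_cases h1 : P ∣ g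
  · rw [if_pos h1, if_pos (Dvd.dvd.mul_right h1 h), zero_mul]
  · by_cases h2 : P ∣ h
    · rw [if_pos h2, if_pos (Dvd.dvd.mul_left h2 g), mul_zero]
    · have h3 : ¬ P ∣ g * h := fun h4 => (hi.prime.dvd_or_dvd h4).elim h1 h2
      rw [if_neg h1, if_neg h2, if_neg h3, ← AddChar.map_add_eq_mul, ← mul_add]
      congr 2
      have h4 : nm P (g * h) = nm P g * nm P h := by
        unfold nm
        rw [map_mul, map_mul]
      rw [h4, hχ.mul _ _ (suzero_nm_ne P hP hi g h1) (suzero_nm_ne P hP hi h h2)]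

theorem suzero_lgc_one [NeZero ℓ] {χ : F → ZMod ℓ} (hχ : IsLg ℓ χ) (s : ZMod ℓ) (P : F[X])
    (hi : Irreducible P) : lgc χ s P 1 = 1 := by
  unfold lgc
  rw [if_neg fun h => hi.not_isUnit (isUnit_of_dvd_one h)]
  have h1 : nm P 1 = 1 := by
    unfold nm
    rw [map_one, map_one]
  rw [h1, suzero_one hχ, mul_zero, AddChar.map_zero_eq_one]

theorem suzero_exists [Finite F] [NeZero ℓ] {χ : F → ZMod ℓ} (hχ : IsLg ℓ χ) (s : ZMod ℓ)
    (P : F[X]) (hP : P.Monic) (hi : Irreducible P) :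
    ∃ g : F[X], lgc χ s P g = ZMod.stdAddChar s := by
  have : Fact (Irreducible P) := ⟨hi⟩
  have : Module.Finite F (AdjoinRoot P) := hP.finite_adjoinRoot
  have : Finite (AdjoinRoot P) := Module.finite_of_finite F
  obtain ⟨x, hx0, hx⟩ := hχ.surj 1
  obtain ⟨y, hy⟩ := FiniteField.norm_surjective F (AdjoinRoot P) x
  obtain ⟨g, rfl⟩ := AdjoinRoot.mk_surjective y
  refine ⟨g, ?_⟩
  have h1 : ¬ P ∣ g := by
    intro h
    rw [AdjoinRoot.mk_eq_zero.mpr h, Algebra.norm_zero] at hy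
    exact hx0 hy.symm
  unfold lgc
  rw [if_neg h1]
  have h2 : nm P g = x := hy
  rw [h2, hx, mul_one]

end suzero

theorem tSuZero (_hSuSy : StmtSuSy.{u}) : StmtSuZero.{u} := by
  classical
  intro F _ _ ℓ _ hℓ _ χ hχ ι _ pr hpr T hT s hs n hn
  obtain ⟨b₀, hb₀⟩ := hT
  have hcop : ∀ b b', b ≠ b' → IsCoprime (pr b) (pr b') := by
    intro b b' hbb
    rw [(hpr.irr b).coprime_iff_not_dvd]
    intro hd
    have h1 : Associated (pr b) (pr b') := (hpr.irr b).associated_of_dvd (hpr.irr b') hd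
    exact hbb (hpr.inj (Polynomial.eq_of_monic_of_associated (hpr.monic b) (hpr.monic b') h1))
  set f : F[X] := ∏ b ∈ T, pr b with hf
  have hfm : f.Monic := monic_prod_of_monic _ _ fun b _ => hpr.monic b
  have hfd : f.natDegree ≤ n := by
    rw [hf, natDegree_prod_of_monic _ _ fun b _ => hpr.monic b]
    exact hn
  -- the multiplier
  obtain ⟨g, hg0, hg⟩ : ∃ g : F[X], lgc χ (s b₀) (pr b₀) g = ZMod.stdAddChar (s b₀) ∧
      ∀ b ∈ T, b ≠ b₀ → lgc χ (s b) (pr b) g = 1 := by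
    obtain ⟨g₀, hg₀⟩ := suzero_exists hχ (s b₀) (pr b₀) (hpr.monic b₀) (hpr.irr b₀)
    have h1 : IsCoprime (∏ b ∈ T.erase b₀, pr b) (pr b₀) :=
      IsCoprime.prod_left fun b hb => hcop b b₀ (Finset.ne_of_mem_erase hb)
    obtain ⟨u, v, huv⟩ := h1
    refine ⟨1 + u * (∏ b ∈ T.erase b₀, pr b) * (g₀ - 1), ?_, fun b hb hbb => ?_⟩
    · rw [← hg₀]
      refine suzero_lgc_congr _ _ _ _ _ ⟨- v * (g₀ - 1), ?_⟩
      linear_combination (g₀ - 1) * huv
    · rw [← suzero_lgc_one hχ (s b) (pr b) (hpr.irr b)]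
      refine suzero_lgc_congr _ _ _ _ _ ?_
      have h2 : pr b ∣ ∏ b ∈ T.erase b₀, pr b :=
        Finset.dvd_prod_of_mem pr (Finset.mem_erase.mpr ⟨hbb, hb⟩)
      rw [add_sub_cancel_left]
      exact Dvd.dvd.mul_right (Dvd.dvd.mul_left h2 u) _
  have hχg : ∏ b ∈ T, lgc χ (s b) (pr b) g = ZMod.stdAddChar (s b₀) := by
    rw [← Finset.mul_prod_erase T _ hb₀, hg0,
      Finset.prod_eq_one fun b hb => hg b (Finset.mem_of_mem_erase hb) (Finset.ne_of_mem_erase hb),
      mul_one]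
  have hgf : IsCoprime f g := by
    rw [hf]
    refine IsCoprime.prod_left fun b hb => ?_
    rw [(hpr.irr b).coprime_iff_not_dvd]
    intro hd
    have h1 : lgc χ (s b) (pr b) g = 0 := by
      unfold lgc
      rw [if_pos hd]
    by_cases hbb : b = b₀
    · rw [hbb, hg0] at h1
      have h2 := AddChar.map_add_eq_mul (ZMod.stdAddChar (N := ℓ)) (s b₀) (-(s b₀))
      rw [h1, zero_mul, add_neg_cancel, AddChar.map_zero_eq_one] at h2
      exact one_ne_zero h2
    · rw [hg b hb hbb] at h1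
      exact one_ne_zero h1
  -- the permutation
  let Φ : F[X] → F[X] := fun h => h - h %ₘ f + (g * h) %ₘ f
  have hΦ1 : ∀ h, f ∣ Φ h - g * h := by
    intro h
    have e1 := modByMonic_add_div h f
    have e2 := modByMonic_add_div (g * h) f
    refine ⟨h /ₘ f - (g * h) /ₘ f, ?_⟩
    change h - h %ₘ f + (g * h) %ₘ f - g * h = _
    linear_combination (-1 : F[X]) * e1 + e2
  have hΦm : ∀ h ∈ mon F n, Φ h ∈ mon F n := by
    intro h hh
    rw [mem_mon] at hh ⊢
    have hne : f ≠ 1 := by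
      intro h1
      have h2 : pr b₀ ∣ 1 := h1 ▸ Finset.dvd_prod_of_mem pr hb₀
      exact (hpr.irr b₀).not_isUnit (isUnit_of_dvd_one h2)
    have h1 : (-(h %ₘ f) + (g * h) %ₘ f).degree < h.degree := by
      have e1 : (-(h %ₘ f) + (g * h) %ₘ f).degree < f.degree := by
        refine (degree_add_le _ _).trans_lt (max_lt ?_ ?_)
        · rw [degree_neg]
          exact degree_modByMonic_lt _ hfm
        · exact degree_modByMonic_lt _ hfm
      refine e1.trans_le ?_
      rw [degree_eq_natDegree hfm.ne_zero, degree_eq_natDegree hh.1.ne_zero, hh.2]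
      exact_mod_cast hfd
    have h2 : Φ h = h + (-(h %ₘ f) + (g * h) %ₘ f) := by
      change h - h %ₘ f + (g * h) %ₘ f = _
      ring
    rw [h2]
    refine ⟨hh.1.add_of_left h1, ?_⟩
    rw [natDegree_add_eq_left_of_degree_lt h1, hh.2]
  have hΦi : ∀ h h', Φ h = Φ h' → h = h' := by
    intro h h' hhh
    have e1 : f ∣ g * (h - h') := by
      have e2 := dvd_sub (hΦ1 h') (hΦ1 h)
      have e3 : Φ h' - g * h' - (Φ h - g * h) = g * (h - h') := by
        rw [hhh]
        ring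
      rwa [e3] at e2
    have e2 : f ∣ h - h' := hgf.dvd_of_dvd_mul_left e1
    have e3 : h %ₘ f = h' %ₘ f := by
      rw [← sub_eq_zero, ← sub_modByMonic]
      exact (modByMonic_eq_zero_iff_dvd hfm).mpr e2
    have e4 : (g * h) %ₘ f = (g * h') %ₘ f := by
      rw [← sub_eq_zero, ← sub_modByMonic, ← mul_sub]
      exact (modByMonic_eq_zero_iff_dvd hfm).mpr e1
    have e5 : h - h %ₘ f + (g * h) %ₘ f = h' - h' %ₘ f + (g * h') %ₘ f := hhh
    rw [e3, e4] at e5
    linear_combination e5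
  have himg : (mon F n).image Φ = mon F n := by
    refine Finset.eq_of_subset_of_card_le ?_ ?_
    · intro x hx
      obtain ⟨h, hh, rfl⟩ := Finset.mem_image.mp hx
      exact hΦm h hh
    · rw [Finset.card_image_of_injective _ fun h h' hh => hΦi h h' hh]
  have hsum : ∑ h ∈ mon F n, ∏ b ∈ T, lgc χ (s b) (pr b) h =
      ZMod.stdAddChar (s b₀) * ∑ h ∈ mon F n, ∏ b ∈ T, lgc χ (s b) (pr b) h := by
    conv_lhs => rw [← himg]
    rw [Finset.sum_image fun h _ h' _ hh => hΦi h h' hh, Finset.mul_sum]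
    refine Finset.sum_congr rfl fun h _ => ?_
    have e1 : ∀ b ∈ T, lgc χ (s b) (pr b) (Φ h) =
        lgc χ (s b) (pr b) g * lgc χ (s b) (pr b) h := by
      intro b hb
      rw [← suzero_lgc_mul hχ (s b) (pr b) (hpr.monic b) (hpr.irr b)]
      exact suzero_lgc_congr _ _ _ _ _ ((Finset.dvd_prod_of_mem pr hb).trans (hΦ1 h))
    rw [Finset.prod_congr rfl e1, Finset.prod_mul_distrib, hχg]
  have hne : ZMod.stdAddChar (s b₀) ≠ 1 := by
    intro h1
    rw [← AddChar.map_zero_eq_one (ZMod.stdAddChar (N := ℓ))] at h1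
    exact hs b₀ hb₀ (ZMod.injective_stdAddChar h1)
  by_contra h0
  exact hne (mul_right_cancel₀ h0 (by rw [one_mul]; exact hsum.symm))

end MP72e2e6
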