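import Pool.Agent.Lib.MP_72e2e6_nt.PpStmt
import Pool.Agent.Lib.MP_72e2e6_nt.SuZero

/-!
# MP_72e2e6_nt, module PpBil: bilinear sums (the large sieve)
-/

namespace MP72e2e6

open Polynomial

universe u

section abstractPart

open ComplexConjugate

/-- fourth powers and Cauchy-Schwarz -/
theorem ppbil_four {α : Type*} (X : Finset α) (r : α → ℝ) :
    (∑ x ∈ X, r x) ^ 4 ≤ (X.card : ℝ) ^ 3 * ∑ x ∈ X, r x ^ 4 := by
  have h1 : (∑ x ∈ X, r x) ^ 2 ≤ (X.card : ℝ) * ∑ x ∈ X, r x ^ 2 := sq_sum_le_card_mul_sum_sq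
  have h2 : (∑ x ∈ X, r x ^ 2) ^ 2 ≤ (X.card : ℝ) * ∑ x ∈ X, (r x ^ 2) ^ 2 :=
    sq_sum_le_card_mul_sum_sq
  have h3 : ∀ x, (r x ^ 2) ^ 2 = r x ^ 4 := fun x => by ring
  simp only [h3] at h2
  calc (∑ x ∈ X, r x) ^ 4 = ((∑ x ∈ X, r x) ^ 2) ^ 2 := by ring
    _ ≤ ((X.card : ℝ) * ∑ x ∈ X, r x ^ 2) ^ 2 := pow_le_pow_left₀ (sq_nonneg _) h1 2
    _ = (X.card : ℝ) ^ 2 * (∑ x ∈ X, r x ^ 2) ^ 2 := by ring
    _ ≤ (X.card : ℝ) ^ 2 * ((X.card : ℝ) * ∑ x ∈ X, r x ^ 4) :=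
        mul_le_mul_of_nonneg_left h2 (by positivity)
    _ = _ := by ring

/-- the dual large sieve inequality -/
theorem ppbil_dual {α γ : Type*} (X : Finset α) (M : Finset γ) (ξ : α → γ → ℂ)
    (hξ : ∀ x ∈ X, ∀ G ∈ M, ‖ξ x G‖ ≤ 1)
    (hort : ∀ x ∈ X, ∀ x' ∈ X, x ≠ x' → ∑ G ∈ M, ξ x G * conj (ξ x' G) = 0)
    (c : α → ℂ) :
    ∑ G ∈ M, ‖∑ x ∈ X, c x * ξ x G‖ ^ 2 ≤ (M.card : ℝ) * ∑ x ∈ X, ‖c x‖ ^ 2 := by
  classical
  have h1 : ((∑ G ∈ M, ‖∑ x ∈ X, c x * ξ x G‖ ^ 2 : ℝ) : ℂ) =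
      ∑ x ∈ X, ((‖c x‖ ^ 2 * ∑ G ∈ M, ‖ξ x G‖ ^ 2 : ℝ) : ℂ) := by
    have e1 : ((∑ G ∈ M, ‖∑ x ∈ X, c x * ξ x G‖ ^ 2 : ℝ) : ℂ) =
        ∑ G ∈ M, ∑ x ∈ X, ∑ x' ∈ X, (c x * conj (c x')) * (ξ x G * conj (ξ x' G)) := by
      rw [Complex.ofReal_sum]
      refine Finset.sum_congr rfl fun G _ => ?_
      rw [Complex.ofReal_pow, ← Complex.mul_conj', map_sum, Finset.sum_mul_sum]
      refine Finset.sum_congr rfl fun x _ => Finset.sum_congr rfl fun x' _ => ?_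
      rw [map_mul]
      ring
    rw [e1, Finset.sum_comm]
    refine Finset.sum_congr rfl fun x hx => ?_
    rw [Finset.sum_comm]
    have e2 : ∀ x' ∈ X, x' ≠ x →
        ∑ G ∈ M, (c x * conj (c x')) * (ξ x G * conj (ξ x' G)) = 0 := by
      intro x' hx' hne
      rw [← Finset.mul_sum, hort x hx x' hx' hne.symm, mul_zero]
    rw [Finset.sum_eq_single_of_mem x hx e2, ← Finset.mul_sum]
    push_cast
    rw [Complex.mul_conj']
    congr 1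
    exact Finset.sum_congr rfl fun G _ => Complex.mul_conj' _
  have h2 : ∑ G ∈ M, ‖∑ x ∈ X, c x * ξ x G‖ ^ 2 =
      ∑ x ∈ X, ‖c x‖ ^ 2 * ∑ G ∈ M, ‖ξ x G‖ ^ 2 := by
    exact_mod_cast h1
  rw [h2, Finset.mul_sum]
  refine Finset.sum_le_sum fun x hx => ?_
  rw [mul_comm]
  refine mul_le_mul_of_nonneg_right ?_ (by positivity)
  calc ∑ G ∈ M, ‖ξ x G‖ ^ 2 ≤ ∑ _G ∈ M, (1 : ℝ) :=
        Finset.sum_le_sum fun G hG => pow_le_one₀ (norm_nonneg _) (hξ x hx G hG)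
    _ = M.card := by simp

/-- the large sieve inequality -/
theorem ppbil_sieve {α γ : Type*} (X : Finset α) (M : Finset γ) (ξ : α → γ → ℂ)
    (hξ : ∀ x ∈ X, ∀ G ∈ M, ‖ξ x G‖ ≤ 1)
    (hort : ∀ x ∈ X, ∀ x' ∈ X, x ≠ x' → ∑ G ∈ M, ξ x G * conj (ξ x' G) = 0)
    (A : γ → ℂ) :
    ∑ x ∈ X, ‖∑ G ∈ M, A G * ξ x G‖ ^ 2 ≤ (M.card : ℝ) * ∑ G ∈ M, ‖A G‖ ^ 2 := by
  classical
  set T : α → ℂ := fun x => ∑ G ∈ M, A G * ξ x G with hT
  set D : ℝ := ∑ x ∈ X, ‖T x‖ ^ 2 with hD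
  have hD0 : 0 ≤ D := Finset.sum_nonneg fun x _ => by positivity
  have hA0 : 0 ≤ ∑ G ∈ M, ‖A G‖ ^ 2 := Finset.sum_nonneg fun x _ => by positivity
  set b : γ → ℂ := fun G => ∑ x ∈ X, conj (T x) * ξ x G with hb
  have h1 : (D : ℂ) = ∑ G ∈ M, A G * b G := by
    rw [hD, Complex.ofReal_sum]
    have e1 : ∀ x ∈ X, ((‖T x‖ ^ 2 : ℝ) : ℂ) = ∑ G ∈ M, conj (T x) * (A G * ξ x G) := by
      intro x _
      rw [← Finset.mul_sum, Complex.ofReal_pow, ← Complex.conj_mul']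
    rw [Finset.sum_congr rfl e1, Finset.sum_comm]
    refine Finset.sum_congr rfl fun G _ => ?_
    rw [hb]
    simp only
    rw [Finset.mul_sum]
    exact Finset.sum_congr rfl fun x _ => by ring
  have h2 : D ≤ ∑ G ∈ M, ‖A G‖ * ‖b G‖ := by
    calc D = ‖(D : ℂ)‖ := by rw [Complex.norm_real, Real.norm_of_nonneg hD0]
      _ = ‖∑ G ∈ M, A G * b G‖ := by rw [h1]
      _ ≤ ∑ G ∈ M, ‖A G * b G‖ := norm_sum_le _ _
      _ = _ := Finset.sum_congr rfl fun G _ => norm_mul _ _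
  have h3 : (∑ G ∈ M, ‖A G‖ * ‖b G‖) ^ 2 ≤ (∑ G ∈ M, ‖A G‖ ^ 2) * ∑ G ∈ M, ‖b G‖ ^ 2 :=
    Finset.sum_mul_sq_le_sq_mul_sq _ _ _
  have h4 : ∑ G ∈ M, ‖b G‖ ^ 2 ≤ (M.card : ℝ) * D := by
    have e1 := ppbil_dual X M ξ hξ hort (fun x => conj (T x))
    simp only [RCLike.norm_conj] at e1
    exact e1
  have h5 : D ^ 2 ≤ (∑ G ∈ M, ‖A G‖ ^ 2) * ((M.card : ℝ) * D) :=
    (pow_le_pow_left₀ hD0 h2 2).trans (h3.trans (mul_le_mul_of_nonneg_left h4 hA0))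
  rcases hD0.eq_or_lt with h6 | h6
  · rw [← h6]
    positivity
  · have h7 : D * D ≤ ((M.card : ℝ) * ∑ G ∈ M, ‖A G‖ ^ 2) * D := by nlinarith [h5]
    exact le_of_mul_le_mul_right h7 h6

/-- the number of collisions -/
theorem ppbil_coll {β γ : Type*} [DecidableEq γ] (P : Finset β) (M : Finset γ) (m : β → γ)
    (hm : ∀ y ∈ P, m y ∈ M) :
    ∑ G ∈ M, ((P.filter fun y => m y = G).card : ℝ) ^ 2 =
      (((P ×ˢ P).filter fun x => m x.1 = m x.2).card : ℝ) := by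
  have h1 : ∑ G ∈ M, (P.filter fun y => m y = G).card ^ 2 =
      ((P ×ˢ P).filter fun x => m x.1 = m x.2).card := by
    rw [Finset.card_eq_sum_card_fiberwise (f := fun x => m x.1) (t := M)]
    · refine Finset.sum_congr rfl fun G _ => ?_
      rw [sq, ← Finset.card_product]
      congr 1
      ext x
      simp only [Finset.mem_product, Finset.mem_filter]
      constructor
      · rintro ⟨⟨h1, h2⟩, h3, h4⟩
        exact ⟨⟨⟨h1, h3⟩, h2.trans h4.symm⟩, h2⟩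
      · rintro ⟨⟨⟨h1, h3⟩, h4⟩, h2⟩
        exact ⟨⟨h1, h2⟩, h3, h4.symm.trans h2⟩
    · intro x hx
      rw [Finset.mem_coe, Finset.mem_filter, Finset.mem_product] at hx
      exact hm _ hx.1.1
  exact_mod_cast h1

theorem ppbil_abs {α β γ : Type*} [DecidableEq γ] (X : Finset α) (Y : Finset β) (M : Finset γ)
    (m : β × β → γ) (hm : ∀ y ∈ Y ×ˢ Y, m y ∈ M) (ξ : α → γ → ℂ)
    (hξ : ∀ x ∈ X, ∀ G ∈ M, ‖ξ x G‖ ≤ 1)
    (hort : ∀ x ∈ X, ∀ x' ∈ X, x ≠ x' → ∑ G ∈ M, ξ x G * conj (ξ x' G) = 0)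
    (η : α → β → ℂ) (hmul : ∀ x ∈ X, ∀ y ∈ Y ×ˢ Y, ξ x (m y) = η x y.1 * η x y.2)
    (f : α → ℂ) (hf : ∀ x, ‖f x‖ ≤ 1) (g : β → ℂ) (hg : ∀ y, ‖g y‖ ≤ 1) :
    ‖∑ x ∈ X, f x * ∑ y ∈ Y, g y * η x y‖ ^ 4 ≤ (X.card : ℝ) ^ 3 * ((M.card : ℝ) *
      ((((Y ×ˢ Y) ×ˢ (Y ×ˢ Y)).filter fun x => m x.1 = m x.2).card : ℝ)) := by
  classical
  set S : α → ℂ := fun x => ∑ y ∈ Y, g y * η x y with hS
  set A : γ → ℂ := fun G => ∑ y ∈ (Y ×ˢ Y).filter (fun y => m y = G), g y.1 * g y.2 with hA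
  have h1 : ‖∑ x ∈ X, f x * S x‖ ≤ ∑ x ∈ X, ‖S x‖ := by
    refine (norm_sum_le _ _).trans (Finset.sum_le_sum fun x _ => ?_)
    rw [norm_mul]
    exact mul_le_of_le_one_left (norm_nonneg _) (hf x)
  have h2 : ∀ x ∈ X, S x ^ 2 = ∑ G ∈ M, A G * ξ x G := by
    intro x hx
    have e1 : S x ^ 2 = ∑ y ∈ Y ×ˢ Y, (g y.1 * g y.2) * ξ x (m y) := by
      rw [sq, hS]
      simp only
      rw [Finset.sum_mul_sum, ← Finset.sum_product']
      refine Finset.sum_congr rfl fun y hy => ?_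
      rw [hmul x hx y hy]
      ring
    rw [e1, ← Finset.sum_fiberwise_of_maps_to hm]
    refine Finset.sum_congr rfl fun G _ => ?_
    rw [hA]
    simp only
    rw [Finset.sum_mul]
    refine Finset.sum_congr rfl fun y hy => ?_
    rw [(Finset.mem_filter.1 hy).2]
  have h3 : ∑ x ∈ X, ‖S x‖ ^ 4 ≤ (M.card : ℝ) * ∑ G ∈ M, ‖A G‖ ^ 2 := by
    have e1 := ppbil_sieve X M ξ hξ hort A
    refine le_trans (le_of_eq (Finset.sum_congr rfl fun x hx => ?_)) e1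
    rw [← h2 x hx, norm_pow]
    ring
  have h4 : ∑ G ∈ M, ‖A G‖ ^ 2 ≤
      ((((Y ×ˢ Y) ×ˢ (Y ×ˢ Y)).filter fun x => m x.1 = m x.2).card : ℝ) := by
    rw [← ppbil_coll (Y ×ˢ Y) M m hm]
    refine Finset.sum_le_sum fun G _ => pow_le_pow_left₀ (norm_nonneg _) ?_ 2
    calc ‖A G‖ ≤ ∑ y ∈ (Y ×ˢ Y).filter (fun y => m y = G), ‖g y.1 * g y.2‖ := norm_sum_le _ _
      _ ≤ ∑ _y ∈ (Y ×ˢ Y).filter (fun y => m y = G), (1 : ℝ) := by
          refine Finset.sum_le_sum fun y _ => ?_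
          rw [norm_mul]
          exact mul_le_one₀ (hg _) (norm_nonneg _) (hg _)
      _ = _ := by simp
  calc ‖∑ x ∈ X, f x * S x‖ ^ 4 ≤ (∑ x ∈ X, ‖S x‖) ^ 4 :=
        pow_le_pow_left₀ (norm_nonneg _) h1 4
    _ ≤ (X.card : ℝ) ^ 3 * ∑ x ∈ X, ‖S x‖ ^ 4 := ppbil_four X _
    _ ≤ (X.card : ℝ) ^ 3 * ((M.card : ℝ) *
      ((((Y ×ˢ Y) ×ˢ (Y ×ˢ Y)).filter fun x => m x.1 = m x.2).card : ℝ)) := by
        refine mul_le_mul_of_nonneg_left (h3.trans ?_) (by positivity)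
        exact mul_le_mul_of_nonneg_left h4 (by positivity)

end abstractPart

section concrete

variable {F : Type u} [Field F] {ℓ : ℕ} [NeZero ℓ]

/-- the product of a set of primes is monic, of the total degree -/
theorem ppbil_prod_mem [Finite F] {n : ℕ} {t : Finset F[X]} (ht : t ∈ ps F n) :
    ∏ P ∈ t, P ∈ mon F n := by
  rw [mem_ps] at ht
  rw [mem_mon]
  refine ⟨monic_prod_of_monic _ _ fun P hP => (ht.1 P hP).1, ?_⟩
  rw [natDegree_prod_of_monic _ _ fun P hP => (ht.1 P hP).1, ht.2]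

theorem ppbil_dvd [Finite F] {n : ℕ} {t : Finset F[X]} (ht : t ∈ ps F n) {P : F[X]}
    (hP : P.Monic) (hi : Irreducible P) : P ∣ ∏ Q ∈ t, Q ↔ P ∈ t := by
  rw [mem_ps] at ht
  constructor
  · intro h
    obtain ⟨Q, hQ, hPQ⟩ := (Prime.dvd_finsetProd_iff hi.prime _).1 h
    have h1 : Associated P Q := hi.associated_of_dvd (ht.1 Q hQ).2 hPQ
    rw [Polynomial.eq_of_monic_of_associated hP (ht.1 Q hQ).1 h1]
    exact hQ
  · exact fun h => Finset.dvd_prod_of_mem _ h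

/-- unique factorization -/
theorem ppbil_inj [Finite F] (n : ℕ) :
    Set.InjOn (fun t : Finset F[X] => ∏ P ∈ t, P) (ps F n : Set (Finset F[X])) := by
  intro s hs t ht hst
  rw [Finset.mem_coe] at hs ht
  have hst' : ∏ P ∈ s, P = ∏ P ∈ t, P := hst
  have key : ∀ s t : Finset F[X], s ∈ ps F n → t ∈ ps F n → ∏ P ∈ s, P = ∏ P ∈ t, P →
      s ⊆ t := by
    intro s t hs ht hst P hP
    have h1 := (mem_ps.1 hs).1 P hP
    rw [← ppbil_dvd ht h1.1 h1.2, ← hst, ppbil_dvd hs h1.1 h1.2]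
    exact hP
  exact Finset.Subset.antisymm (key s t hs ht hst') (key t s ht hs hst'.symm)

theorem ppbil_norm_lgc (χ : F → ZMod ℓ) (s : ZMod ℓ) (P h : F[X]) : ‖lgc χ s P h‖ ≤ 1 := by
  unfold lgc
  split_ifs
  · simp
  · exact (AddChar.norm_apply _ _).le

theorem ppbil_std_prod {ι : Type*} (s : Finset ι) (f : ι → ZMod ℓ) :
    (∏ i ∈ s, ZMod.stdAddChar (f i) : ℂ) = ZMod.stdAddChar (∑ i ∈ s, f i) := by
  classical
  induction s using Finset.induction_on with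
  | empty => rw [Finset.prod_empty, Finset.sum_empty, AddChar.map_zero_eq_one]
  | insert a s ha ih =>
    rw [Finset.prod_insert ha, Finset.sum_insert ha, AddChar.map_add_eq_mul, ih]

theorem ppbil_conj_lgc (χ : F → ZMod ℓ) (s : ZMod ℓ) (P h : F[X]) :
    (starRingEnd ℂ) (lgc χ s P h) = lgc χ (-s) P h := by
  unfold lgc
  split_ifs
  · exact map_zero _
  · rw [← AddChar.map_neg_eq_conj, neg_mul]

omit [NeZero ℓ] in
theorem ppbil_sys_comm [Finite F] {χ : F → ZMod ℓ} (hR : Rcp χ) {a b : ℕ} {x y : Finset F[X]}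
    (hx : x ∈ ps F a) (hy : y ∈ ps F b) (hd : Disjoint x y) : sys χ x y = sys χ y x := by
  rw [mem_ps] at hx hy
  unfold sys
  rw [Finset.sum_comm]
  refine Finset.sum_congr rfl fun Q hQ => Finset.sum_congr rfl fun P hP => ?_
  refine hR P Q (hx.1 P hP).1 (hx.1 P hP).2 (hy.1 Q hQ).1 (hy.1 Q hQ).2 ?_
  rintro rfl
  exact Finset.disjoint_left.1 hd hP hQ

/-- the value of the character at a product of primes -/
theorem ppbil_eval [Finite F] (hSuSy : StmtSuSy.{u}) (hℓ : ℓ.Prime)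
    (hd : ℓ ∣ Nat.card F - 1) {χ : F → ZMod ℓ} (hχ : IsLg ℓ χ) (κ : ZMod ℓ) {a b : ℕ}
    {x y : Finset F[X]} (hx : x ∈ ps F a) (hy : y ∈ ps F b) :
    (Disjoint x y → ∏ P ∈ x, lgc χ κ P (∏ Q ∈ y, Q) = ZMod.stdAddChar (κ * sys χ x y)) ∧
    (¬ Disjoint x y → ∏ P ∈ x, lgc χ κ P (∏ Q ∈ y, Q) = 0) := by
  classical
  have hx' := mem_ps.1 hx
  have hy' := mem_ps.1 hy
  have key : ∀ P ∈ x, P ∉ y →
      lgc χ κ P (∏ Q ∈ y, Q) = ZMod.stdAddChar (κ * ∑ Q ∈ y, syl χ P Q) := by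
    intro P hP hPy
    obtain ⟨-, -, h3⟩ := hSuSy F ℓ hℓ hd χ hχ
    obtain ⟨h4, h5, -⟩ := h3 P (hx'.1 P hP).1 (hx'.1 P hP).2
    have e1 : ¬ P ∣ ∏ Q ∈ y, Q := fun h => hPy ((ppbil_dvd hy (hx'.1 P hP).1 (hx'.1 P hP).2).1 h)
    have e2 : syl χ P (∏ Q ∈ y, Q) = ∑ Q ∈ y, syl χ P Q := by
      have hne : ∀ Q ∈ y, Q ≠ 0 := fun Q hQ => (hy'.1 Q hQ).1.ne_zero
      clear e1 hy' hPy
      have h6 : syl χ P 1 = 0 := by
        have e3 := (h4 1 1 one_ne_zero one_ne_zero).2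
        rw [mul_one] at e3
        exact left_eq_add.1 e3
      clear hy
      induction y using Finset.induction_on with
      | empty => rw [Finset.prod_empty, Finset.sum_empty, h6]
      | insert Q y hQy ih =>
        rw [Finset.prod_insert hQy, Finset.sum_insert hQy,
          (h4 Q _ (hne Q (Finset.mem_insert_self _ _))
            (Finset.prod_ne_zero_iff.2 fun R hR => hne R (Finset.mem_insert_of_mem hR))).2,
          ih fun R hR => hne R (Finset.mem_insert_of_mem hR)]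
    unfold lgc
    rw [if_neg e1, ← (h5 _ e1).2.2.1, e2]
  constructor
  · intro hxy
    rw [Finset.prod_congr rfl fun P hP => key P hP (Finset.disjoint_left.1 hxy hP)]
    rw [ppbil_std_prod, ← Finset.mul_sum]
    rfl
  · intro hxy
    rw [Finset.not_disjoint_iff] at hxy
    obtain ⟨P, hP, hPy⟩ := hxy
    refine Finset.prod_eq_zero hP ?_
    unfold lgc
    rw [if_pos ((ppbil_dvd hy (hx'.1 P hP).1 (hx'.1 P hP).2).2 hPy)]

end concrete

open Classical in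
/-- the case `a ≤ b` -/
theorem ppbil_half (hSuSy : StmtSuSy.{u}) (hTwMon : StmtTwMon.{u}) (hPpCmp : StmtPpCmp.{u})
    (hPpEn : StmtPpEn.{u}) (F : Type u) [Field F] [Finite F] (ℓ : ℕ) [NeZero ℓ] (hℓ : ℓ.Prime)
    (hd : ℓ ∣ Nat.card F - 1) (χ : F → ZMod ℓ) (hχ : IsLg ℓ χ) (κ : ZMod ℓ)
    (hκ : κ ≠ 0) (a b : ℕ) (hab : a ≤ b) (f g : Finset F[X] → ℂ) (hf : ∀ t, ‖f t‖ ≤ 1)
    (hg : ∀ t, ‖g t‖ ≤ 1) :
    ‖∑ x ∈ ps F a, ∑ y ∈ ps F b, if Disjoint x y then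
        f x * g y * ZMod.stdAddChar (κ * sys χ x y) else 0‖ ^ 4 ≤
      (Nat.card F : ℝ) ^ (3 * a + 4 * b) * ((b : ℝ) + 1) := by
  have hcard : ∀ n, (mon F n).card = Nat.card F ^ n := (hTwMon F).1
  have hpsle : (ps F a).card ≤ Nat.card F ^ a := by
    rw [← hcard a]
    exact Finset.card_le_card_of_injOn _ (fun t ht => ppbil_prod_mem ht) (ppbil_inj a)
  set ξ : Finset F[X] → F[X] → ℂ := fun x H => ∏ P ∈ x, lgc χ κ P H with hξ
  have h1 := ppbil_abs (ps F a) (ps F b) (mon F (2 * b))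
    (fun y => (∏ P ∈ y.1, P) * ∏ P ∈ y.2, P) (by
      intro y hy
      rw [Finset.mem_product] at hy
      have e1 := mem_mon.1 (ppbil_prod_mem hy.1)
      have e2 := mem_mon.1 (ppbil_prod_mem hy.2)
      rw [mem_mon]
      refine ⟨e1.1.mul e2.1, ?_⟩
      rw [e1.1.natDegree_mul e2.1, e1.2, e2.2]
      ring) ξ (by
      intro x _ G _
      rw [hξ]
      simp only
      rw [norm_prod]
      exact Finset.prod_le_one (fun _ _ => norm_nonneg _) fun P _ => ppbil_norm_lgc χ κ P G) (by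
      intro x hx x' hx' hne
      rw [← hPpCmp F ℓ hℓ hd χ hχ κ hκ a (2 * b) x x' hx hx' hne (by omega)]
      refine Finset.sum_congr rfl fun G _ => ?_
      rw [hξ]
      simp only
      rw [map_prod]
      congr 1
      exact Finset.prod_congr rfl fun P _ => ppbil_conj_lgc χ κ P G)
    (fun x y => ξ x (∏ Q ∈ y, Q)) (by
      intro x hx y _
      rw [hξ]
      simp only
      rw [← Finset.prod_mul_distrib]
      refine Finset.prod_congr rfl fun P hP => ?_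
      have hP' := (mem_ps.1 hx).1 P hP
      exact suzero_lgc_mul hχ κ P hP'.1 hP'.2 _ _) f hf g hg
  have h2 : ∑ x ∈ ps F a, f x * ∑ y ∈ ps F b, g y * ξ x (∏ Q ∈ y, Q) =
      ∑ x ∈ ps F a, ∑ y ∈ ps F b, if Disjoint x y then
        f x * g y * ZMod.stdAddChar (κ * sys χ x y) else 0 := by
    refine Finset.sum_congr rfl fun x hx => ?_
    rw [Finset.mul_sum]
    refine Finset.sum_congr rfl fun y hy => ?_
    have e1 := ppbil_eval hSuSy hℓ hd hχ κ hx hy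
    by_cases hxy : Disjoint x y
    · rw [if_pos hxy, ← e1.1 hxy, hξ]
      ring
    · rw [if_neg hxy]
      have e2 : ξ x (∏ Q ∈ y, Q) = 0 := e1.2 hxy
      rw [e2, mul_zero, mul_zero]
  rw [h2] at h1
  refine h1.trans ?_
  have h3 : (((ps F b ×ˢ ps F b) ×ˢ (ps F b ×ˢ ps F b)).filter
      fun x => (∏ P ∈ x.1.1, P) * ∏ P ∈ x.1.2, P = (∏ P ∈ x.2.1, P) * ∏ P ∈ x.2.2, P).card ≤
      (b + 1) * Nat.card F ^ (2 * b) := by
    refine le_trans ?_ (hPpEn F b)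
    refine Finset.card_le_card_of_injOn
      (fun x => ((∏ P ∈ x.1.1, P, ∏ P ∈ x.1.2, P), (∏ P ∈ x.2.1, P, ∏ P ∈ x.2.2, P))) ?_ ?_
    · intro x hx
      rw [Finset.mem_coe, Finset.mem_filter, Finset.mem_product, Finset.mem_product,
        Finset.mem_product] at hx
      rw [Finset.mem_coe, Finset.mem_filter, Finset.mem_product, Finset.mem_product,
        Finset.mem_product]
      exact ⟨⟨⟨ppbil_prod_mem hx.1.1.1, ppbil_prod_mem hx.1.1.2⟩,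
        ⟨ppbil_prod_mem hx.1.2.1, ppbil_prod_mem hx.1.2.2⟩⟩, hx.2⟩
    · intro x hx y hy hxy
      rw [Finset.mem_coe, Finset.mem_filter, Finset.mem_product, Finset.mem_product,
        Finset.mem_product] at hx hy
      simp only [Prod.mk.injEq] at hxy
      obtain ⟨⟨e1, e2⟩, e3, e4⟩ := hxy
      refine Prod.ext (Prod.ext ?_ ?_) (Prod.ext ?_ ?_)
      · exact ppbil_inj b hx.1.1.1 hy.1.1.1 e1
      · exact ppbil_inj b hx.1.1.2 hy.1.1.2 e2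
      · exact ppbil_inj b hx.1.2.1 hy.1.2.1 e3
      · exact ppbil_inj b hx.1.2.2 hy.1.2.2 e4
  have h4 : ((((ps F b ×ˢ ps F b) ×ˢ (ps F b ×ˢ ps F b)).filter
      fun x => (∏ P ∈ x.1.1, P) * ∏ P ∈ x.1.2, P =
        (∏ P ∈ x.2.1, P) * ∏ P ∈ x.2.2, P).card : ℝ) ≤
      ((b : ℝ) + 1) * (Nat.card F : ℝ) ^ (2 * b) := by
    exact_mod_cast h3
  have h5 : ((ps F a).card : ℝ) ≤ (Nat.card F : ℝ) ^ a := by exact_mod_cast hpsle
  have h6 : ((mon F (2 * b)).card : ℝ) = (Nat.card F : ℝ) ^ (2 * b) := by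
    rw [hcard]
    push_cast
    ring
  rw [h6]
  calc ((ps F a).card : ℝ) ^ 3 * ((Nat.card F : ℝ) ^ (2 * b) * _) ≤
      ((Nat.card F : ℝ) ^ a) ^ 3 * ((Nat.card F : ℝ) ^ (2 * b) *
        (((b : ℝ) + 1) * (Nat.card F : ℝ) ^ (2 * b))) := by
        refine mul_le_mul (pow_le_pow_left₀ (by positivity) h5 3) ?_ (by positivity)
          (by positivity)
        exact mul_le_mul_of_nonneg_left h4 (by positivity)
    _ = (Nat.card F : ℝ) ^ (3 * a + 4 * b) * ((b : ℝ) + 1) := by ring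

theorem tPpBil (hSuSy : StmtSuSy.{u}) (hTwMon : StmtTwMon.{u}) (hPpCmp : StmtPpCmp.{u})
    (hPpEn : StmtPpEn.{u}) : StmtPpBil.{u} := by
  classical
  intro F _ _ ℓ _ hℓ hd χ hχ hR κ hκ a b f g hf hg
  rcases le_total a b with hab | hab
  · refine (ppbil_half hSuSy hTwMon hPpCmp hPpEn F ℓ hℓ hd χ hχ κ hκ a b hab f g hf hg).trans
      (le_of_eq ?_)
    have e1 : 4 * (a + b) - min a b = 3 * a + 4 * b := by
      rw [min_eq_left hab]
      omega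
    rw [e1, max_eq_right hab]
  · have h1 := ppbil_half hSuSy hTwMon hPpCmp hPpEn F ℓ hℓ hd χ hχ κ hκ b a hab g f hg hf
    have e1 : 4 * (a + b) - min a b = 3 * b + 4 * a := by
      rw [min_eq_right hab]
      omega
    rw [e1, max_eq_left hab]
    refine le_trans (le_of_eq ?_) h1
    congr 2
    rw [Finset.sum_comm]
    refine Finset.sum_congr rfl fun y hy => Finset.sum_congr rfl fun x hx => ?_
    by_cases hxy : Disjoint x y
    · rw [if_pos hxy, if_pos hxy.symm, ppbil_sys_comm hR hx hy hxy]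
      ring
    · rw [if_neg hxy, if_neg fun h => hxy h.symm]

end MP72e2e6
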