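import Pool.Agent.Lib.MP_72e2e6_nt.PpStmt
import Pool.Agent.Lib.MP_72e2e6_nt.SuZero

/-!
# MP_72e2e6_nt, module PpCmp: orthogonality of the characters
-/

namespace MP72e2e6

open Polynomial IsDedekindDomain

universe u

theorem ppcmp_sub {F : Type u} [Field F] [Finite F] {a : ℕ} {s s' : Finset F[X]}
    (hs : s ∈ ps F a) (hs' : s' ∈ ps F a) (hne : s ≠ s') : ∃ P ∈ s, P ∉ s' := by
  classical
  by_contra h
  push Not at h
  have h1 : s ⊂ s' := Finset.ssubset_iff_subset_ne.mpr ⟨h, hne⟩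
  obtain ⟨Q, hQ, hQ'⟩ := Finset.exists_of_ssubset h1
  rw [mem_ps] at hs hs'
  have h2 : ∑ P ∈ insert Q s, P.natDegree ≤ ∑ P ∈ s', P.natDegree :=
    Finset.sum_le_sum_of_subset (Finset.insert_subset hQ h)
  rw [Finset.sum_insert hQ', hs.2, hs'.2] at h2
  have h3 := (hs'.1 Q hQ).2.natDegree_pos
  omega

theorem tPpCmp.{v} : StmtPpCmp.{v} := by
  classical
  intro F _ _ ℓ _ hℓ _ χ hχ κ hκ a n s s' hs hs' hne hn
  obtain ⟨P₀, hP₀, hP₀'⟩ := ppcmp_sub hs hs' hne
  rw [mem_ps] at hs hs'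
  have hmem : ∀ P ∈ s ∪ s', P.Monic ∧ Irreducible P := by
    intro P hP
    rw [Finset.mem_union] at hP
    exact hP.elim (hs.1 P) (hs'.1 P)
  have hcop : ∀ P ∈ s ∪ s', ∀ Q ∈ s ∪ s', P ≠ Q → IsCoprime P Q := by
    intro P hP Q hQ hPQ
    rw [(hmem P hP).2.coprime_iff_not_dvd]
    intro hd
    have h1 : Associated P Q := (hmem P hP).2.associated_of_dvd (hmem Q hQ).2 hd
    exact hPQ (Polynomial.eq_of_monic_of_associated (hmem P hP).1 (hmem Q hQ).1 h1)
  have hP₀u : P₀ ∈ s ∪ s' := Finset.mem_union_left _ hP₀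
  set f : F[X] := ∏ P ∈ s ∪ s', P with hf
  have hfm : f.Monic := monic_prod_of_monic _ _ fun P hP => (hmem P hP).1
  have hfd : f.natDegree ≤ n := by
    rw [hf, natDegree_prod_of_monic _ _ fun P hP => (hmem P hP).1]
    have h1 : ∑ P ∈ s ∪ s', P.natDegree ≤ ∑ P ∈ s, P.natDegree + ∑ P ∈ s', P.natDegree := by
      rw [← Finset.sum_union_inter]
      exact Nat.le_add_right _ _
    rw [hs.2, hs'.2] at h1
    omega
  -- the multiplier
  obtain ⟨g, hg0, hg⟩ : ∃ g : F[X], lgc χ κ P₀ g = ZMod.stdAddChar κ ∧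
      ∀ P ∈ s ∪ s', P ≠ P₀ → ∀ t, lgc χ t P g = 1 := by
    obtain ⟨g₀, hg₀⟩ := suzero_exists hχ κ P₀ (hmem P₀ hP₀u).1 (hmem P₀ hP₀u).2
    have h1 : IsCoprime (∏ P ∈ (s ∪ s').erase P₀, P) P₀ :=
      IsCoprime.prod_left fun P hP =>
        hcop P (Finset.mem_of_mem_erase hP) P₀ hP₀u (Finset.ne_of_mem_erase hP)
    obtain ⟨u, v, huv⟩ := h1
    refine ⟨1 + u * (∏ P ∈ (s ∪ s').erase P₀, P) * (g₀ - 1), ?_, fun P hP hPP t => ?_⟩
    · rw [← hg₀]
      refine suzero_lgc_congr _ _ _ _ _ ⟨- v * (g₀ - 1), ?_⟩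
      linear_combination (g₀ - 1) * huv
    · rw [← suzero_lgc_one hχ t P (hmem P hP).2]
      refine suzero_lgc_congr _ _ _ _ _ ?_
      have h2 : P ∣ ∏ P ∈ (s ∪ s').erase P₀, P :=
        Finset.dvd_prod_of_mem (fun P => P) (Finset.mem_erase.mpr ⟨hPP, hP⟩)
      rw [add_sub_cancel_left]
      exact Dvd.dvd.mul_right (Dvd.dvd.mul_left h2 u) _
  have hχg : (∏ P ∈ s, lgc χ κ P g) * ∏ P ∈ s', lgc χ (-κ) P g = ZMod.stdAddChar κ := by
    rw [← Finset.mul_prod_erase s _ hP₀, hg0,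
      Finset.prod_eq_one fun P hP => hg P (Finset.mem_union_left _ (Finset.mem_of_mem_erase hP))
        (Finset.ne_of_mem_erase hP) κ,
      Finset.prod_eq_one fun P hP => hg P (Finset.mem_union_right _ hP)
        (fun h => hP₀' (h ▸ hP)) (-κ), mul_one, mul_one]
  have hgf : IsCoprime f g := by
    rw [hf]
    refine IsCoprime.prod_left fun P hP => ?_
    rw [(hmem P hP).2.coprime_iff_not_dvd]
    intro hd
    have h1 : lgc χ κ P g = 0 := by
      unfold lgc
      rw [if_pos hd]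
    by_cases hPP : P = P₀
    · rw [hPP, hg0] at h1
      have h2 := AddChar.map_add_eq_mul (ZMod.stdAddChar (N := ℓ)) κ (-κ)
      rw [h1, zero_mul, add_neg_cancel, AddChar.map_zero_eq_one] at h2
      exact one_ne_zero h2
    · rw [hg P hP hPP] at h1
      exact one_ne_zero h1
  -- the permutation
  let Φ : F[X] → F[X] := fun h => h - h %ₘ f + (g * h) %ₘ f
  have hΦ1 : ∀ h, f ∣ Φ h - g * h := by
    intro h
    have e1 := modByMonic_add_div h f
    have e2 := modByMonic_add_div (g * h) f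
    refine ⟨h /ₘ f - (g * h) /ₘ f, ?_⟩
    change h - h %ₘ f + (g * h) %ₘ f - g * h = _
    linear_combination (-1 : F[X]) * e1 + e2
  have hΦm : ∀ h ∈ mon F n, Φ h ∈ mon F n := by
    intro h hh
    rw [mem_mon] at hh ⊢
    have h1 : (-(h %ₘ f) + (g * h) %ₘ f).degree < h.degree := by
      have e1 : (-(h %ₘ f) + (g * h) %ₘ f).degree < f.degree := by
        refine (degree_add_le _ _).trans_lt (max_lt ?_ ?_)
        · rw [degree_neg]
          exact degree_modByMonic_lt _ hfm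
        · exact degree_modByMonic_lt _ hfm
      refine e1.trans_le ?_
      rw [degree_eq_natDegree hfm.ne_zero, degree_eq_natDegree hh.1.ne_zero, hh.2]
      exact_mod_cast hfd
    have h2 : Φ h = h + (-(h %ₘ f) + (g * h) %ₘ f) := by
      change h - h %ₘ f + (g * h) %ₘ f = _
      ring
    rw [h2]
    refine ⟨hh.1.add_of_left h1, ?_⟩
    rw [natDegree_add_eq_left_of_degree_lt h1, hh.2]
  have hΦi : ∀ h h', Φ h = Φ h' → h = h' := by
    intro h h' hhh
    have e1 : f ∣ g * (h - h') := by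
      have e2 := dvd_sub (hΦ1 h') (hΦ1 h)
      have e3 : Φ h' - g * h' - (Φ h - g * h) = g * (h - h') := by
        rw [hhh]
        ring
      rwa [e3] at e2
    have e3 : h %ₘ f = h' %ₘ f := by
      rw [← sub_eq_zero, ← sub_modByMonic]
      exact (modByMonic_eq_zero_iff_dvd hfm).mpr (hgf.dvd_of_dvd_mul_left e1)
    have e4 : (g * h) %ₘ f = (g * h') %ₘ f := by
      rw [← sub_eq_zero, ← sub_modByMonic, ← mul_sub]
      exact (modByMonic_eq_zero_iff_dvd hfm).mpr e1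
    have e5 : h - h %ₘ f + (g * h) %ₘ f = h' - h' %ₘ f + (g * h') %ₘ f := hhh
    rw [e3, e4] at e5
    linear_combination e5
  have himg : (mon F n).image Φ = mon F n := by
    refine Finset.eq_of_subset_of_card_le ?_ ?_
    · intro x hx
      obtain ⟨h, hh, rfl⟩ := Finset.mem_image.mp hx
      exact hΦm h hh
    · rw [Finset.card_image_of_injective _ fun h h' hh => hΦi h h' hh]
  have hmulP : ∀ P ∈ s ∪ s', ∀ t h, lgc χ t P (Φ h) = lgc χ t P g * lgc χ t P h := by
    intro P hP t h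
    rw [← suzero_lgc_mul hχ t P (hmem P hP).1 (hmem P hP).2]
    exact suzero_lgc_congr _ _ _ _ _
      ((Finset.dvd_prod_of_mem (fun P => P) hP).trans (hΦ1 h))
  have hsum : ∑ G ∈ mon F n, (∏ P ∈ s, lgc χ κ P G) * ∏ P ∈ s', lgc χ (-κ) P G =
      ZMod.stdAddChar κ *
        ∑ G ∈ mon F n, (∏ P ∈ s, lgc χ κ P G) * ∏ P ∈ s', lgc χ (-κ) P G := by
    conv_lhs => rw [← himg]
    rw [Finset.sum_image fun h _ h' _ hh => hΦi h h' hh, Finset.mul_sum]
    refine Finset.sum_congr rfl fun h _ => ?_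
    rw [Finset.prod_congr rfl fun P hP => hmulP P (Finset.mem_union_left _ hP) κ h,
      Finset.prod_congr rfl fun P hP => hmulP P (Finset.mem_union_right _ hP) (-κ) h,
      Finset.prod_mul_distrib, Finset.prod_mul_distrib, ← hχg]
    ring
  have hne1 : ZMod.stdAddChar κ ≠ 1 := by
    intro h1
    rw [← AddChar.map_zero_eq_one (ZMod.stdAddChar (N := ℓ))] at h1
    exact hκ (ZMod.injective_stdAddChar h1)
  by_contra h0
  exact hne1 (mul_right_cancel₀ h0 (by rw [one_mul]; exact hsum.symm))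

end MP72e2e6
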