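import Pool.Agent.Lib.MP_72e2e6_nt.PpStmtB

/-!
# MP_72e2e6_nt: positive proportion of twists, module PpCnt
-/

namespace MP72e2e6

open Polynomial

universe u

section

variable {F : Type u} [Field F] [Finite F]

theorem ppcnt_mem_irr {n : ℕ} {P : F[X]} :
    P ∈ irr F n ↔ (P.Monic ∧ P.natDegree = n) ∧ Irreducible P := by
  classical
  rw [irr, Finset.mem_filter, mem_mon]

open Classical in
/-- the multiples of a square -/
theorem ppcnt_bad (hmon : ∀ n, (mon F n).card = Nat.card F ^ n) (G : F[X]) (m d : ℕ) (P : F[X])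
    (hP : P ∈ irr F d) :
    ((mon F m).filter fun h => P ^ 2 ∣ 1 + G * h).card ≤ Nat.card F ^ (m - 2 * d) := by
  obtain ⟨⟨hPm, hPd⟩, hPi⟩ := ppcnt_mem_irr.1 hP
  have hP2 : (P ^ 2).Monic := hPm.pow 2
  have hP2d : (P ^ 2).natDegree = 2 * d := by rw [hPm.natDegree_pow, hPd]
  have hinj : Set.InjOn (fun h : F[X] => h /ₘ P ^ 2)
      ((mon F m).filter fun h => P ^ 2 ∣ 1 + G * h : Finset F[X]) := by
    intro h₁ hh₁ h₂ hh₂ heq
    have e1 := (Finset.mem_filter.1 (Finset.mem_coe.1 hh₁)).2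
    have e2 := (Finset.mem_filter.1 (Finset.mem_coe.1 hh₂)).2
    have heq' : h₁ /ₘ P ^ 2 = h₂ /ₘ P ^ 2 := heq
    have hcop : IsCoprime (P ^ 2) G := by
      refine IsCoprime.pow_left ((hPi.coprime_iff_not_dvd).2 fun h => ?_)
      have h3 : P ∣ 1 + G * h₁ := (dvd_pow_self P two_ne_zero).trans e1
      have h4 : P ∣ 1 := (dvd_add_left (h.mul_right h₁)).1 h3
      exact hPi.not_isUnit (isUnit_of_dvd_one h4)
    have h3 : P ^ 2 ∣ G * (h₁ - h₂) := by
      have h4 := dvd_sub e1 e2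
      have h5 : 1 + G * h₁ - (1 + G * h₂) = G * (h₁ - h₂) := by ring
      rwa [h5] at h4
    have h4 : P ^ 2 ∣ h₁ - h₂ := hcop.dvd_of_dvd_mul_left h3
    have h5 : (h₁ - h₂).degree < (P ^ 2).degree := by
      have e3 := modByMonic_add_div h₁ (P ^ 2)
      have e4 := modByMonic_add_div h₂ (P ^ 2)
      have h6 : h₁ - h₂ = h₁ %ₘ P ^ 2 - h₂ %ₘ P ^ 2 := by
        rw [heq'] at e3
        calc h₁ - h₂ = (h₁ %ₘ P ^ 2 + P ^ 2 * (h₂ /ₘ P ^ 2)) -
            (h₂ %ₘ P ^ 2 + P ^ 2 * (h₂ /ₘ P ^ 2)) := by rw [e3, e4]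
          _ = _ := by ring
      rw [h6]
      exact (degree_sub_le _ _).trans_lt (max_lt (degree_modByMonic_lt _ hP2)
        (degree_modByMonic_lt _ hP2))
    exact sub_eq_zero.1 (eq_zero_of_dvd_of_degree_lt h4 h5)
  by_cases hle : 2 * d ≤ m
  · rw [← hmon (m - 2 * d)]
    refine Finset.card_le_card_of_injOn (fun h : F[X] => h /ₘ P ^ 2) ?_ hinj
    intro h hh
    obtain ⟨hhm, hhd⟩ := mem_mon.1 (Finset.mem_filter.1 (Finset.mem_coe.1 hh)).1
    refine Finset.mem_coe.2 (mem_mon.2 ⟨?_, ?_⟩)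
    · have h1 : (P ^ 2).degree ≤ h.degree := by
        rw [degree_eq_natDegree hP2.ne_zero, degree_eq_natDegree hhm.ne_zero, hP2d, hhd]
        exact_mod_cast hle
      change (h /ₘ P ^ 2).leadingCoeff = 1
      rw [leadingCoeff_divByMonic_of_monic hP2 h1]
      exact hhm
    · rw [natDegree_divByMonic h hP2, hhd, hP2d]
  · have h1 : m - 2 * d = 0 := by omega
    rw [h1, pow_zero]
    have h2 : ((mon F m).filter fun h => P ^ 2 ∣ 1 + G * h).card ≤
        ({0} : Finset F[X]).card := by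
      refine Finset.card_le_card_of_injOn (fun h : F[X] => h /ₘ P ^ 2) ?_ hinj
      intro h hh
      obtain ⟨hhm, hhd⟩ := mem_mon.1 (Finset.mem_filter.1 (Finset.mem_coe.1 hh)).1
      refine Finset.mem_coe.2 (Finset.mem_singleton.2 ?_)
      refine (divByMonic_eq_zero_iff hP2).2 ?_
      rw [degree_eq_natDegree hP2.ne_zero, degree_eq_natDegree hhm.ne_zero, hP2d, hhd]
      exact_mod_cast (not_le.1 hle)
    simpa using h2

end

theorem tPpCnt.{v} (hTwMon : StmtTwMon.{v}) (hSuPsi : StmtSuPsi.{v}) (hPpBij : StmtPpBij.{v}) :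
    StmtPpCnt.{v} := by
  intro F _ _ hq4 V _ pr hpr
  classical
  have hmon := (hTwMon F).1
  obtain ⟨-, -, -, -, hirr⟩ := hSuPsi F 2 Nat.prime_two
  have : Fintype V := Fintype.ofFinite V
  set G : F[X] := ∏ v, pr v with hG
  have hGm : G.Monic := monic_prod_of_monic _ _ fun v _ => hpr.monic v
  set D := G.natDegree with hD
  set q := Nat.card F with hq
  have hq4' : (4 : ℝ) ≤ (q : ℝ) := by exact_mod_cast hq4
  have hq0 : (0 : ℝ) < (q : ℝ) := by linarith
  refine ⟨1 / (3 * (q : ℝ) ^ D), by positivity, 2 * D + 2, fun n hn => ?_⟩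
  set m := n - D with hm
  have hnm : n = D + m := by omega
  -- the polynomials `1 + G * h`
  have hH : ∀ h ∈ mon F m, (1 + G * h).Monic ∧ (1 + G * h).natDegree = n := by
    intro h hh
    obtain ⟨h1, h2⟩ := mem_mon.1 hh
    have h3 : (G * h).Monic := hGm.mul h1
    have h4 : (G * h).natDegree = n := by rw [hGm.natDegree_mul h1, h2, hnm]
    have h5 : (1 : F[X]).natDegree < (G * h).natDegree := by
      rw [natDegree_one, h4]
      omega
    refine ⟨?_, ?_⟩
    · refine h3.add_of_right ?_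
      rw [degree_one, degree_eq_natDegree h3.ne_zero, h4]
      exact_mod_cast (show 0 < n by omega)
    · rw [natDegree_add_eq_right_of_natDegree_lt h5, h4]
  have hHv : ∀ h v, ¬ pr v ∣ 1 + G * h := by
    intro h v hv
    have h1 : pr v ∣ G * h := (Finset.dvd_prod_of_mem pr (Finset.mem_univ v)).mul_right h
    have h2 : pr v ∣ 1 := (dvd_add_left h1).1 hv
    exact (hpr.irr v).not_isUnit (isUnit_of_dvd_one h2)
  have hHinj : Function.Injective fun h : F[X] => 1 + G * h := by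
    intro h₁ h₂ h
    have h' : 1 + G * h₁ = 1 + G * h₂ := h
    exact mul_left_cancel₀ hGm.ne_zero (add_left_cancel h')
  -- the good ones
  have hgood : ((mon F m).filter fun h => Squarefree (1 + G * h)).card ≤ (gs F pr n).card := by
    rw [← Finset.card_image_of_injective _ hHinj]
    refine Finset.card_le_card_of_surjOn (fun t : Finset F[X] => ∏ P ∈ t, P) ?_
    intro M hM
    obtain ⟨h, hh, rfl⟩ := Finset.mem_image.1 (Finset.mem_coe.1 hM)
    obtain ⟨hh1, hh2⟩ := Finset.mem_filter.1 hh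
    exact (hPpBij F V pr hpr n).surjOn ⟨(hH h hh1).1, (hH h hh1).2, hh2, hHv h⟩
  -- the bad ones
  have hbad : ((mon F m).filter fun h => ¬ Squarefree (1 + G * h)).card ≤
      ∑ d ∈ Finset.Icc 1 (n / 2), q ^ (d + (m - 2 * d)) := by
    have h1 : ((mon F m).filter fun h => ¬ Squarefree (1 + G * h)) ⊆
        (Finset.Icc 1 (n / 2)).biUnion fun d => (irr F d).biUnion fun P =>
          (mon F m).filter fun h => P ^ 2 ∣ 1 + G * h := by
      intro h hh
      obtain ⟨hh1, hh2⟩ := Finset.mem_filter.1 hh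
      have h2 : ∃ x, x * x ∣ 1 + G * h ∧ ¬ IsUnit x := by
        by_contra hcon
        push Not at hcon
        exact hh2 fun x hx => hcon x hx
      obtain ⟨x, hx, hxu⟩ := h2
      obtain ⟨P, hPm, hPi, hPx⟩ := exists_monic_irreducible_factor x hxu
      have h3 : P ^ 2 ∣ 1 + G * h := by
        rw [pow_two]
        exact (mul_dvd_mul hPx hPx).trans hx
      have h4 : 2 * P.natDegree ≤ n := by
        have h5 := natDegree_le_of_dvd h3 (hH h hh1).1.ne_zero
        rwa [hPm.natDegree_pow, (hH h hh1).2] at h5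
      have h5 := hPi.natDegree_pos
      refine Finset.mem_biUnion.2 ⟨P.natDegree, Finset.mem_Icc.2 ⟨h5, by omega⟩, ?_⟩
      exact Finset.mem_biUnion.2 ⟨P, ppcnt_mem_irr.2 ⟨⟨hPm, rfl⟩, hPi⟩,
        Finset.mem_filter.2 ⟨hh1, h3⟩⟩
    refine (Finset.card_le_card h1).trans (Finset.card_biUnion_le.trans ?_)
    refine Finset.sum_le_sum fun d hd => ?_
    refine Finset.card_biUnion_le.trans ((Finset.sum_le_sum fun P hP =>
      ppcnt_bad hmon G m d P hP).trans ?_)
    rw [Finset.sum_const, smul_eq_mul, pow_add]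
    have h2 := hirr d (Finset.mem_Icc.1 hd).1
    have h3 : (irr F d).card ≤ q ^ d := by
      refine le_trans ?_ h2
      exact Nat.le_mul_of_pos_left _ (Finset.mem_Icc.1 hd).1
    exact Nat.mul_le_mul_right _ h3
  have hsum : ((mon F m).filter fun h => Squarefree (1 + G * h)).card +
      ((mon F m).filter fun h => ¬ Squarefree (1 + G * h)).card = q ^ m := by
    rw [Finset.card_filter_add_card_filter_not, hmon]
  -- the estimates
  have hgeo : ∀ k : ℕ, (3 : ℝ) * ∑ d ∈ Finset.Icc 1 k, (q : ℝ) ^ d ≤ 4 * (q : ℝ) ^ k := by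
    intro k
    induction k with
    | zero => simp
    | succ k ih =>
      rw [Finset.sum_Icc_succ_top (by omega), mul_add]
      have h2 : (q : ℝ) ^ (k + 1) = q * (q : ℝ) ^ k := pow_succ' _ _
      have h3 : (0 : ℝ) < (q : ℝ) ^ k := by positivity
      nlinarith
  have hgeo2 : ∀ k : ℕ, (3 : ℝ) * ∑ d ∈ Finset.Icc 1 k, 1 / (q : ℝ) ^ d ≤ 1 - 1 / (q : ℝ) ^ k := by
    intro k
    induction k with
    | zero => simp
    | succ k ih =>
      rw [Finset.sum_Icc_succ_top (by omega), mul_add]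
      have h2 : (q : ℝ) ^ (k + 1) = q * (q : ℝ) ^ k := pow_succ' _ _
      have h3 : (0 : ℝ) < (q : ℝ) ^ k := by positivity
      have h4 : 1 / (q : ℝ) ^ k = q * (1 / (q : ℝ) ^ (k + 1)) := by
        rw [h2]
        field_simp
      have h5 : 0 < 1 / (q : ℝ) ^ (k + 1) := by positivity
      nlinarith
  have hbad' : (((mon F m).filter fun h => ¬ Squarefree (1 + G * h)).card : ℝ) ≤
      (q : ℝ) ^ m / 3 + (4 / 3) * (q : ℝ) ^ (n / 2) := by
    have h1 : (((mon F m).filter fun h => ¬ Squarefree (1 + G * h)).card : ℝ) ≤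
        ∑ d ∈ Finset.Icc 1 (n / 2), (q : ℝ) ^ (d + (m - 2 * d)) := by
      exact_mod_cast hbad
    refine h1.trans ?_
    have h2 : ∀ d ∈ Finset.Icc 1 (n / 2), (q : ℝ) ^ (d + (m - 2 * d)) ≤
        (q : ℝ) ^ m * (1 / (q : ℝ) ^ d) + (q : ℝ) ^ d := by
      intro d _
      by_cases hle : 2 * d ≤ m
      · have h3 : (q : ℝ) ^ m = (q : ℝ) ^ (d + (m - 2 * d)) * (q : ℝ) ^ d := by
          rw [← pow_add]
          congr 1
          omega
        have h4 : (0 : ℝ) < (q : ℝ) ^ d := by positivity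
        rw [h3]
        have h5 : (q : ℝ) ^ (d + (m - 2 * d)) * (q : ℝ) ^ d * (1 / (q : ℝ) ^ d) =
            (q : ℝ) ^ (d + (m - 2 * d)) := by field_simp
        rw [h5]
        linarith
      · have h3 : d + (m - 2 * d) = d := by omega
        rw [h3]
        have h4 : 0 ≤ (q : ℝ) ^ m * (1 / (q : ℝ) ^ d) := by positivity
        linarith
    refine (Finset.sum_le_sum h2).trans ?_
    rw [Finset.sum_add_distrib, ← Finset.mul_sum]
    have h3 := hgeo (n / 2)
    have h4 := hgeo2 (n / 2)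
    have h5 : (0 : ℝ) < (q : ℝ) ^ m := by positivity
    have h6 : 0 < 1 / (q : ℝ) ^ (n / 2) := by positivity
    have h7 : ∑ d ∈ Finset.Icc 1 (n / 2), 1 / (q : ℝ) ^ d ≤ 1 / 3 := by linarith
    have h8 : (q : ℝ) ^ m * ∑ d ∈ Finset.Icc 1 (n / 2), 1 / (q : ℝ) ^ d ≤ (q : ℝ) ^ m * (1 / 3) :=
      mul_le_mul_of_nonneg_left h7 h5.le
    linarith
  have hbig : 4 * (q : ℝ) ^ (n / 2) ≤ (q : ℝ) ^ m := by
    have h1 : (q : ℝ) ^ (n / 2 + 1) ≤ (q : ℝ) ^ m :=
      pow_le_pow_right₀ (by linarith) (by omega)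
    have h2 : (q : ℝ) ^ (n / 2 + 1) = q * (q : ℝ) ^ (n / 2) := pow_succ' _ _
    have h3 : (0 : ℝ) < (q : ℝ) ^ (n / 2) := by positivity
    nlinarith
  have hsum' : (((mon F m).filter fun h => Squarefree (1 + G * h)).card : ℝ) +
      (((mon F m).filter fun h => ¬ Squarefree (1 + G * h)).card : ℝ) = (q : ℝ) ^ m := by
    exact_mod_cast hsum
  have hgood' : (((mon F m).filter fun h => Squarefree (1 + G * h)).card : ℝ) ≤
      ((gs F pr n).card : ℝ) := by exact_mod_cast hgood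
  have hfin : 1 / (3 * (q : ℝ) ^ D) * (q : ℝ) ^ n = (q : ℝ) ^ m / 3 := by
    rw [hnm, pow_add]
    have : (q : ℝ) ^ D ≠ 0 := by positivity
    field_simp
  rw [hfin]
  linarith

end MP72e2e6
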