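import Pool.Agent.Lib.MP_72e2e6_nt.PpStmt

/-!
# MP_72e2e6_nt, module PpCol: sums over colourings
-/

namespace MP72e2e6

open Polynomial IsDedekindDomain

universe u

theorem ppcol_mem_fib {β U : Type*} [DecidableEq U] (t : Finset β) (g : t → U) (w : U) (P : β) :
    P ∈ fib t g w ↔ ∃ h : P ∈ t, g ⟨P, h⟩ = w := by
  rw [fib, Finset.mem_map]
  constructor
  · rintro ⟨Q, hQ, rfl⟩
    rw [Finset.mem_filter] at hQ
    exact ⟨Q.2, hQ.2⟩
  · rintro ⟨h, hw⟩
    exact ⟨⟨P, h⟩, Finset.mem_filter.mpr ⟨Finset.mem_univ _, hw⟩, rfl⟩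

theorem ppcol_sum_fib {β U : Type*} [Fintype U] [DecidableEq U] (t : Finset β) (g : t → U)
    (d : β → ℕ) : ∑ w, ∑ P ∈ fib t g w, d P = ∑ P ∈ t, d P := by
  simp only [fib, Finset.sum_map, Function.Embedding.subtype_apply]
  rw [Finset.sum_fiberwise]
  exact Finset.sum_coe_sort t d

theorem ppcol_inj {β U : Type*} [DecidableEq U] (t t' : Finset β) (g : t → U) (g' : t' → U)
    (h : fib t g = fib t' g') : (⟨t, g⟩ : Σ t : Finset β, (t → U)) = ⟨t', g'⟩ := by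
  have ht : t = t' := by
    ext P
    constructor
    · intro hP
      have h1 : P ∈ fib t g (g ⟨P, hP⟩) := (ppcol_mem_fib t g _ P).mpr ⟨hP, rfl⟩
      rw [h] at h1
      exact ((ppcol_mem_fib t' g' _ P).mp h1).1
    · intro hP
      have h1 : P ∈ fib t' g' (g' ⟨P, hP⟩) := (ppcol_mem_fib t' g' _ P).mpr ⟨hP, rfl⟩
      rw [← h] at h1
      exact ((ppcol_mem_fib t g _ P).mp h1).1
  subst ht
  have hg : g = g' := by
    funext P
    have h1 : P.1 ∈ fib t g (g P) := (ppcol_mem_fib t g _ P.1).mpr ⟨P.2, rfl⟩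
    rw [h] at h1
    exact (((ppcol_mem_fib t g' _ P.1).mp h1).2).symm
  rw [hg]

theorem ppcol_surj {β U : Type*} [Fintype U] [DecidableEq U] [DecidableEq β]
    (p : U → Finset β) (hp : ∀ w w', w ≠ w' → Disjoint (p w) (p w')) :
    ∃ g : ↥(Finset.univ.biUnion p) → U, fib (Finset.univ.biUnion p) g = p := by
  have h1 : ∀ P : ↥(Finset.univ.biUnion p), ∃ w, P.1 ∈ p w := by
    intro P
    have h2 := P.2
    rw [Finset.mem_biUnion] at h2
    obtain ⟨w, -, hw⟩ := h2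
    exact ⟨w, hw⟩
  choose g hg using h1
  refine ⟨g, ?_⟩
  funext w
  ext P
  rw [ppcol_mem_fib]
  constructor
  · rintro ⟨h, hw⟩
    have h2 := hg ⟨P, h⟩
    rw [hw] at h2
    exact h2
  · intro hP
    have h3 : P ∈ (Finset.univ.biUnion p : Finset β) :=
      Finset.mem_biUnion.mpr ⟨w, Finset.mem_univ _, hP⟩
    refine ⟨h3, ?_⟩
    by_contra hne
    exact Finset.disjoint_left.mp (hp _ _ hne) (hg ⟨P, h3⟩) hP

theorem ppcol_first {F : Type u} [Field F] [Finite F] {V U : Type} [Fintype U] [DecidableEq U]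
    (pr : V → F[X]) (n : ℕ) (Φ : (U → Finset F[X]) → ℂ)
    (cnd : (U → Finset F[X]) → Prop) [DecidablePred cnd]
    (hc : ∀ p, cnd p ↔ (∀ w w', w ≠ w' → Disjoint (p w) (p w')) ∧
      ∀ w, ∀ P ∈ p w, ∀ v, pr v ≠ P) [∀ t : Finset F[X], Fintype (t → U)] :
    ∑ t ∈ gs F pr n, ∑ g : t → U, Φ (fib t g) =
      ∑ ν ∈ (Finset.univ : Finset U).piAntidiag n,
        ∑ p ∈ Fintype.piFinset (fun w => ps F (ν w)), if cnd p then Φ p else 0 := by
  classical
  simp only [← Finset.sum_filter]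
  rw [Finset.sum_sigma', Finset.sum_sigma']
  refine Finset.sum_bij
    (fun x _ => (⟨fun w => ∑ P ∈ fib x.1 x.2 w, P.natDegree, fib x.1 x.2⟩ :
      Σ _ : U → ℕ, (U → Finset F[X]))) ?_ ?_ ?_ ?_
  · rintro ⟨t, g⟩ hx
    rw [Finset.mem_sigma] at hx
    have ht := hx.1
    rw [gs, Finset.mem_filter, mem_ps] at ht
    obtain ⟨⟨hMI, hdeg⟩, hpr⟩ := ht
    rw [Finset.mem_sigma, Finset.mem_filter, Finset.mem_piAntidiag, Fintype.mem_piFinset, hc]
    refine ⟨⟨?_, fun w _ => Finset.mem_univ w⟩, fun w => ?_, fun w w' hww => ?_,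
      fun w P hP v => ?_⟩
    · exact (ppcol_sum_fib t g fun P => P.natDegree).trans hdeg
    · rw [mem_ps]
      refine ⟨fun P hP => ?_, rfl⟩
      obtain ⟨h, -⟩ := (ppcol_mem_fib t g w P).mp hP
      exact hMI P h
    · rw [Finset.disjoint_left]
      intro P hP hP'
      obtain ⟨h, h1⟩ := (ppcol_mem_fib t g w P).mp hP
      obtain ⟨h', h1'⟩ := (ppcol_mem_fib t g w' P).mp hP'
      exact hww (h1.symm.trans h1')
    · obtain ⟨h, -⟩ := (ppcol_mem_fib t g w P).mp hP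
      exact hpr P h v
  · rintro ⟨t, g⟩ _ ⟨t', g'⟩ _ h
    have h1 : fib t g = fib t' g' := by
      have h2 := (Sigma.mk.inj_iff.mp h).2
      exact eq_of_heq h2
    exact ppcol_inj t t' g g' h1
  · rintro ⟨ν, p⟩ hx
    rw [Finset.mem_sigma, Finset.mem_filter, Finset.mem_piAntidiag, Fintype.mem_piFinset,
      hc] at hx
    obtain ⟨⟨hn, -⟩, hps, hdis, hpr⟩ := hx
    obtain ⟨g, hg⟩ := ppcol_surj p hdis
    have hν : ∀ w, ∑ P ∈ p w, P.natDegree = ν w := fun w => (mem_ps.mp (hps w)).2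
    refine ⟨⟨Finset.univ.biUnion p, g⟩, ?_, ?_⟩
    · rw [Finset.mem_sigma]
      refine ⟨?_, Finset.mem_univ _⟩
      rw [gs, Finset.mem_filter, mem_ps]
      refine ⟨⟨fun P hP => ?_, ?_⟩, fun P hP v => ?_⟩
      · rw [Finset.mem_biUnion] at hP
        obtain ⟨w, -, hw⟩ := hP
        exact (mem_ps.mp (hps w)).1 P hw
      · rw [← ppcol_sum_fib _ g fun P => P.natDegree, hg]
        simp only [hν]
        exact hn
      · rw [Finset.mem_biUnion] at hP
        obtain ⟨w, -, hw⟩ := hP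
        exact hpr w P hw v
    · have h1 : (fun w => ∑ P ∈ fib (Finset.univ.biUnion p) g w, P.natDegree) = ν := by
        rw [hg]
        exact funext hν
      exact Sigma.ext h1 (heq_of_eq hg)
  · rintro ⟨t, g⟩ _
    rfl

theorem tPpCol.{v} : StmtPpCol.{v} := by
  classical
  refine ⟨fun F _ _ V U _ _ pr n Φ => ppcol_first pr n Φ _ fun p => Iff.rfl, ?_⟩
  intro F _ _ ℓ _ χ V U _ _ _ pr α αi B N n
  rw [ppcol_first pr n (wgt χ pr α αi B N) (fun p => (∀ w w', w ≠ w' → Disjoint (p w) (p w')) ∧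
      ∀ w, ∀ P ∈ p w, ∀ v, pr v ≠ P) fun p => Iff.rfl]
  unfold TT Tnu
  refine Finset.sum_congr rfl fun ν _ => Finset.sum_congr rfl fun p _ => ?_
  by_cases h1 : ∀ w w', w ≠ w' → Disjoint (p w) (p w')
  · by_cases h2 : ∀ w, ∀ P ∈ p w, ∀ v, pr v ≠ P
    · rw [if_pos ⟨h1, h2⟩]
    · rw [if_neg fun h => h2 h.2]
      push Not at h2
      obtain ⟨w, P, hP, v, hv⟩ := h2
      unfold wgt
      rw [if_pos h1, Finset.prod_eq_zero (Finset.mem_univ w), zero_mul]
      refine Finset.prod_eq_zero hP ?_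
      unfold chc
      rw [if_pos ⟨v, hv⟩, mul_zero]
  · rw [if_neg fun h => h1 h.1]
    unfold wgt
    rw [if_neg h1]

end MP72e2e6
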