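import Pool.Agent.Lib.MP_72e2e6_nt.PpStmt

/-!
# MP_72e2e6_nt: convolution powers (PpCv)
-/

namespace MP72e2e6

/-- splitting off one coordinate of `piAntidiag` -/
theorem ppcv_split {U : Type} [DecidableEq U] {i : U} {s : Finset U} (hi : i ∉ s) (n : ℕ)
    (Φ : (U → ℕ) → ℝ) :
    ∑ ν ∈ (Finset.cons i s hi).piAntidiag n, Φ ν =
      ∑ x ∈ Finset.HasAntidiagonal.antidiagonal n, ∑ μ ∈ s.piAntidiag x.2,
        Φ (fun t => μ t + if t = i then x.1 else 0) := by
  rw [Finset.piAntidiag_cons, Finset.sum_disjiUnion]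
  refine Finset.sum_congr rfl fun x _ => ?_
  rw [Finset.sum_map]
  rfl

theorem ppcv_at {U : Type} [DecidableEq U] {i : U} {s : Finset U} (hi : i ∉ s) {n x : ℕ}
    {μ : U → ℕ} (hμ : μ ∈ s.piAntidiag n) :
    (μ i + if i = i then x else 0) = x ∧ ∀ w ∈ s, (μ w + if w = i then x else 0) = μ w := by
  rw [Finset.mem_piAntidiag] at hμ
  refine ⟨?_, fun w hw => ?_⟩
  · have h1 : μ i = 0 := by
      by_contra h
      exact hi (hμ.2 i h)
    rw [h1, if_pos rfl, zero_add]
  · have h1 : w ≠ i := fun h => hi (h ▸ hw)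
    rw [if_neg h1, add_zero]

theorem tPpCv (hNum : StmtPpNum) : StmtPpCv := by
  intro U _ 𝓥 z hz a ha
  obtain ⟨h1, -, -⟩ := hNum
  induction 𝓥 using Finset.cons_induction with
  | empty =>
    refine ⟨?_, ?_, ?_⟩
    · intro k
      exact Finset.sum_nonneg fun ν _ => by simp
    · simp
    · intro k
      rcases Nat.eq_zero_or_pos k with hk | hk
      · subst hk
        simp
      · have h2 : (∅ : Finset U).piAntidiag k = ∅ :=
          Finset.piAntidiag_empty_of_ne_zero (by omega)
        rw [h2]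
        simp
  | cons i s hi ih =>
    have h2 := h1 z (s.card * z) a (fun m => ∑ ν ∈ s.piAntidiag m, ∏ w ∈ s, a (ν w)) hz
      (by positivity) ha ih
    have h3 : ((Finset.cons i s hi).card : ℝ) * z = z + s.card * z := by
      rw [Finset.card_cons]
      push_cast
      ring
    rw [h3]
    have h4 : (fun m => ∑ ν ∈ (Finset.cons i s hi).piAntidiag m,
        ∏ w ∈ Finset.cons i s hi, a (ν w)) =
        fun k => ∑ x ∈ Finset.HasAntidiagonal.antidiagonal k, a x.1 *
          (fun m => ∑ ν ∈ s.piAntidiag m, ∏ w ∈ s, a (ν w)) x.2 := by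
      funext m
      rw [ppcv_split hi m (fun ν => ∏ w ∈ Finset.cons i s hi, a (ν w))]
      refine Finset.sum_congr rfl fun x _ => ?_
      rw [Finset.mul_sum]
      refine Finset.sum_congr rfl fun μ hμ => ?_
      obtain ⟨e1, e2⟩ := ppcv_at (x := x.1) hi hμ
      rw [Finset.prod_cons]
      have e3 : a (μ i + if i = i then x.1 else 0) = a x.1 := by rw [e1]
      have e4 : ∏ w ∈ s, a (μ w + if w = i then x.1 else 0) = ∏ w ∈ s, a (μ w) :=
        Finset.prod_congr rfl fun w hw => by rw [e2 w hw]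
      exact congrArg₂ (fun u v => u * v) e3 e4
    rw [h4]
    exact h2

end MP72e2e6
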