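import Pool.Agent.Lib.MP_72e2e6_nt.PpStmt

/-!
# MP_72e2e6_nt: positive proportion of twists, module PpEA
-/

namespace MP72e2e6

open Polynomial

universe u

theorem tPpEA.{v} (hPpLin : StmtPpLin.{v}) : StmtPpEA.{v} := by
  intro F _ _ ℓ _ hℓ hq χ hχ hr V U _ _ _ pr α αi B N hN hB n
  classical
  set M := Fintype.card U with hM
  have hF2 : (2 : ℝ) ≤ (Nat.card F : ℝ) := by
    have : 1 < Nat.card F := Finite.one_lt_card
    exact_mod_cast this
  have hF0 : (0 : ℝ) < (Nat.card F : ℝ) := by linarith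
  have hn0 : (0 : ℝ) ≤ n := n.cast_nonneg
  set τ := thr U n with hτ
  have hτ' : τ = (Nat.log 2 (n + 2) + 1) * (4 * (M + 2)) := by
    rw [hτ, thr]
    ring
  have hqτ : ((n : ℝ) + 2) ^ (4 * (M + 2)) ≤ (Nat.card F : ℝ) ^ τ := by
    rw [hτ', pow_mul (Nat.card F : ℝ)]
    refine pow_le_pow_left₀ (by linarith) ?_ _
    have h1 : ((n + 2 : ℕ) : ℝ) ≤ ((2 ^ (Nat.log 2 (n + 2) + 1) : ℕ) : ℝ) := by
      exact_mod_cast (Nat.lt_pow_succ_log_self (by norm_num) (n + 2)).le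
    push_cast at h1
    exact h1.trans (pow_le_pow_left₀ (by norm_num) hF2 _)
  have key : ∀ ν ∈ ((Finset.univ : Finset U).piAntidiag n).filter (fun ν : U → ℕ =>
        ∃ w w', τ ≤ ν w ∧ τ ≤ ν w' ∧ B w w' + B w' w ≠ 0),
      ‖Tnu χ pr α αi B N ν‖ ≤ (Nat.card F : ℝ) ^ n / ((n : ℝ) + 2) ^ (M + 1) := by
    intro ν hν
    obtain ⟨h1, w, w', hw, hw', hne⟩ := Finset.mem_filter.1 hν
    have hsum : ∑ x, ν x = n := (Finset.mem_piAntidiag.1 h1).1
    have hlin := hPpLin F ℓ hℓ hq χ hχ hr V U pr α αi B N hN hB ν w w' hne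
    rw [hsum] at hlin
    have hwn : ν w ≤ n := by
      rw [← hsum]
      exact Finset.single_le_sum (fun _ _ => Nat.zero_le _) (Finset.mem_univ w)
    have hτn : τ ≤ 4 * n := by omega
    have hle : (Nat.card F : ℝ) ^ (4 * n - min (ν w) (ν w')) ≤ (Nat.card F : ℝ) ^ (4 * n - τ) :=
      pow_le_pow_right₀ (by linarith) (by omega)
    have h3 : ‖Tnu χ pr α αi B N ν‖ ^ 4 ≤ ((Nat.card F : ℝ) ^ n / ((n : ℝ) + 2) ^ (M + 1)) ^ 4 := by
      refine hlin.trans ?_
      have h4 : (Nat.card F : ℝ) ^ (4 * n - τ) * (Nat.card F : ℝ) ^ τ =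
          ((Nat.card F : ℝ) ^ n) ^ 4 := by
        rw [← pow_add, ← pow_mul]
        congr 1
        omega
      rw [div_pow, le_div_iff₀ (by positivity), ← h4, ← pow_mul]
      have h5 : ((n : ℝ) + 1) * ((n : ℝ) + 2) ^ ((M + 1) * 4) ≤ (Nat.card F : ℝ) ^ τ := by
        refine le_trans ?_ hqτ
        have h6 : ((n : ℝ) + 2) ^ (4 * (M + 2)) = ((n : ℝ) + 2) ^ 4 *
            ((n : ℝ) + 2) ^ ((M + 1) * 4) := by
          rw [← pow_add]
          congr 1
          ring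
        rw [h6]
        refine mul_le_mul_of_nonneg_right ?_ (by positivity)
        have h7 : (1 : ℝ) ≤ ((n : ℝ) + 2) ^ 3 := one_le_pow₀ (by linarith)
        have h8 : ((n : ℝ) + 2) ^ 4 = ((n : ℝ) + 2) ^ 3 * ((n : ℝ) + 2) := pow_succ _ _
        nlinarith
      calc (Nat.card F : ℝ) ^ (4 * n - min (ν w) (ν w')) * ((n : ℝ) + 1) *
            ((n : ℝ) + 2) ^ ((M + 1) * 4) =
          (Nat.card F : ℝ) ^ (4 * n - min (ν w) (ν w')) * (((n : ℝ) + 1) *
            ((n : ℝ) + 2) ^ ((M + 1) * 4)) := by ring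
        _ ≤ (Nat.card F : ℝ) ^ (4 * n - τ) * (Nat.card F : ℝ) ^ τ :=
          mul_le_mul hle h5 (by positivity) (by positivity)
    exact le_of_pow_le_pow_left₀ (by norm_num) (by positivity) h3
  refine (Finset.sum_le_sum key).trans ?_
  rw [Finset.sum_const, nsmul_eq_mul]
  have hcard : (((Finset.univ : Finset U).piAntidiag n).filter (fun ν : U → ℕ =>
        ∃ w w', τ ≤ ν w ∧ τ ≤ ν w' ∧ B w w' + B w' w ≠ 0)).card ≤ (n + 1) ^ M := by
    have h1 : (((Finset.univ : Finset U).piAntidiag n).filter (fun ν : U → ℕ =>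
        ∃ w w', τ ≤ ν w ∧ τ ≤ ν w' ∧ B w w' + B w' w ≠ 0)) ⊆
        Fintype.piFinset fun _ : U => Finset.range (n + 1) := by
      intro ν hν
      have h2 := (Finset.mem_piAntidiag.1 (Finset.mem_filter.1 hν).1).1
      refine Fintype.mem_piFinset.2 fun w => Finset.mem_range.2 (Nat.lt_succ_of_le ?_)
      rw [← h2]
      exact Finset.single_le_sum (fun _ _ => Nat.zero_le _) (Finset.mem_univ w)
    refine (Finset.card_le_card h1).trans (le_of_eq ?_)
    rw [Fintype.card_piFinset, Finset.prod_const, Finset.card_univ, Finset.card_range]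
  have hcard' : ((((Finset.univ : Finset U).piAntidiag n).filter (fun ν : U → ℕ =>
        ∃ w w', τ ≤ ν w ∧ τ ≤ ν w' ∧ B w w' + B w' w ≠ 0)).card : ℝ) ≤ ((n : ℝ) + 2) ^ M := by
    have h1 : ((((Finset.univ : Finset U).piAntidiag n).filter (fun ν : U → ℕ =>
        ∃ w w', τ ≤ ν w ∧ τ ≤ ν w' ∧ B w w' + B w' w ≠ 0)).card : ℝ) ≤ ((n : ℝ) + 1) ^ M := by
      exact_mod_cast hcard
    exact h1.trans (pow_le_pow_left₀ (by linarith) (by linarith) _)
  refine (mul_le_mul_of_nonneg_right hcard' (by positivity)).trans (le_of_eq ?_)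
  rw [pow_succ]
  have h1 : ((n : ℝ) + 2) ^ M ≠ 0 := by positivity
  have h2 : (n : ℝ) + 2 ≠ 0 := by positivity
  field_simp

end MP72e2e6
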