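import Pool.Agent.Lib.MP_72e2e6_nt.PpStmt

/-!
# MP_72e2e6_nt, module PpEn: multiplicative energy
-/

namespace MP72e2e6

open Polynomial IsDedekindDomain

universe u

open Classical in
/-- The parametrization of the quadruples. -/
noncomputable def ppen_map {F : Type u} [Field F] :
    ((F[X] × F[X]) × (F[X] × F[X])) → (F[X] × F[X]) × (F[X] × F[X]) :=
  fun y => ((y.1.1 * y.2.1, y.2.2 * y.1.2), (y.1.1 * y.2.2, y.2.1 * y.1.2))

theorem ppen_gcd {F : Type u} [Field F] (g₁ g₃ : F[X]) (h₁ : g₁ ≠ 0) :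
    ∃ d₀ u₀ w₀ : F[X], g₁ = d₀ * u₀ ∧ g₃ = d₀ * w₀ ∧ IsCoprime u₀ w₀ ∧ d₀ ≠ 0 := by
  classical
  obtain ⟨u₀, hu₀⟩ := EuclideanDomain.gcd_dvd_left g₁ g₃
  obtain ⟨w₀, hw₀⟩ := EuclideanDomain.gcd_dvd_right g₁ g₃
  have hb := EuclideanDomain.gcd_eq_gcd_ab g₁ g₃
  generalize EuclideanDomain.gcd g₁ g₃ = d at hu₀ hw₀ hb
  generalize EuclideanDomain.gcdA g₁ g₃ = x at hb
  generalize EuclideanDomain.gcdB g₁ g₃ = y at hb
  have hd : d ≠ 0 := by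
    rintro rfl
    rw [zero_mul] at hu₀
    exact h₁ hu₀
  refine ⟨d, u₀, w₀, hu₀, hw₀, ⟨x, y, ?_⟩, hd⟩
  refine mul_left_cancel₀ hd ?_
  calc d * (x * u₀ + y * w₀) = (d * u₀) * x + (d * w₀) * y := by ring
    _ = d * 1 := by rw [← hu₀, ← hw₀, ← hb, mul_one]

theorem ppen_norm {F : Type u} [Field F] (g₁ g₃ : F[X]) (h₁ : g₁.Monic) (h₃ : g₃.Monic) :
    ∃ d u w : F[X], d.Monic ∧ u.Monic ∧ w.Monic ∧ g₁ = d * u ∧ g₃ = d * w ∧ IsCoprime u w := by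
  obtain ⟨d₀, u₀, w₀, hu₀, hw₀, hcop₀, hd0⟩ := ppen_gcd g₁ g₃ h₁.ne_zero
  obtain ⟨c, hc⟩ : ∃ c : F, c = d₀.leadingCoeff := ⟨_, rfl⟩
  have hc0 : c ≠ 0 := hc ▸ leadingCoeff_ne_zero.mpr hd0
  have hcc : (C c⁻¹ * C c : F[X]) = 1 := by rw [← C_mul, inv_mul_cancel₀ hc0, C_1]
  have hdm : (C c⁻¹ * d₀).Monic := by
    rw [Monic, leadingCoeff_mul, leadingCoeff_C, ← hc, inv_mul_cancel₀ hc0]
  have e1 : g₁ = C c⁻¹ * d₀ * (C c * u₀) := by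
    calc g₁ = (C c⁻¹ * C c) * (d₀ * u₀) := by rw [hcc, one_mul, hu₀]
      _ = _ := by ring
  have e3 : g₃ = C c⁻¹ * d₀ * (C c * w₀) := by
    calc g₃ = (C c⁻¹ * C c) * (d₀ * w₀) := by rw [hcc, one_mul, hw₀]
      _ = _ := by ring
  have hcu : IsUnit (C c : F[X]) := isUnit_C.mpr (isUnit_iff_ne_zero.mpr hc0)
  exact ⟨C c⁻¹ * d₀, C c * u₀, C c * w₀, hdm, hdm.of_mul_monic_left (e1 ▸ h₁),
    hdm.of_mul_monic_left (e3 ▸ h₃), e1, e3, (isCoprime_mul_unit_left hcu u₀ w₀).mpr hcop₀⟩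

/-- A quadruple comes from its parameters. -/
theorem ppen_par {F : Type u} [Field F] [Finite F] {a : ℕ} {g₁ g₂ g₃ g₄ : F[X]}
    (h₁ : g₁ ∈ mon F a) (h₂ : g₂ ∈ mon F a) (h₃ : g₃ ∈ mon F a) (h₄ : g₄ ∈ mon F a)
    (h : g₁ * g₂ = g₃ * g₄) :
    ∃ k ∈ Finset.range (a + 1), ∃ d ∈ mon F k, ∃ e ∈ mon F k, ∃ u ∈ mon F (a - k),
      ∃ w ∈ mon F (a - k), g₁ = d * u ∧ g₂ = w * e ∧ g₃ = d * w ∧ g₄ = u * e := by
  rw [mem_mon] at h₁ h₂ h₃ h₄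
  obtain ⟨d, u, w, hdm, hum, hwm, e1, e3, hcop⟩ := ppen_norm g₁ g₃ h₁.1 h₃.1
  have e4 : u * g₂ = w * g₄ := by
    have h5 : d * (u * g₂) = d * (w * g₄) := by
      rw [← mul_assoc, ← mul_assoc, ← e1, ← e3, h]
    exact mul_left_cancel₀ hdm.ne_zero h5
  obtain ⟨e, he⟩ : w ∣ g₂ := hcop.symm.dvd_of_dvd_mul_left ⟨g₄, e4⟩
  have e5 : g₄ = u * e := by
    rw [he] at e4
    have h5 : w * g₄ = w * (u * e) := by rw [← e4]; ring
    exact mul_left_cancel₀ hwm.ne_zero h5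
  have hem : e.Monic := hwm.of_mul_monic_left (he ▸ h₂.1)
  have n1 : a = d.natDegree + u.natDegree := by
    rw [← hdm.natDegree_mul hum, ← e1, h₁.2]
  have n3 : a = d.natDegree + w.natDegree := by
    rw [← hdm.natDegree_mul hwm, ← e3, h₃.2]
  have n2 : a = w.natDegree + e.natDegree := by
    rw [← hwm.natDegree_mul hem, ← he, h₂.2]
  exact ⟨d.natDegree, by rw [Finset.mem_range]; omega, d, mem_mon.mpr ⟨hdm, rfl⟩, e,
    mem_mon.mpr ⟨hem, by omega⟩, u, mem_mon.mpr ⟨hum, by omega⟩, w,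
    mem_mon.mpr ⟨hwm, by omega⟩, e1, he, e3, e5⟩

theorem tPpEn.{v} (hTwMon : StmtTwMon.{v}) : StmtPpEn.{v} := by
  classical
  intro F _ _ a
  obtain ⟨hcard, -⟩ := hTwMon F
  have hsub : ((mon F a ×ˢ mon F a) ×ˢ (mon F a ×ˢ mon F a)).filter
      (fun x => x.1.1 * x.1.2 = x.2.1 * x.2.2) ⊆
      (Finset.range (a + 1)).biUnion fun k =>
        ((mon F k ×ˢ mon F k) ×ˢ (mon F (a - k) ×ˢ mon F (a - k))).image ppen_map := by
    rintro ⟨⟨g₁, g₂⟩, ⟨g₃, g₄⟩⟩ hx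
    rw [Finset.mem_filter, Finset.mem_product, Finset.mem_product, Finset.mem_product] at hx
    obtain ⟨⟨⟨h1, h2⟩, ⟨h3, h4⟩⟩, h5⟩ := hx
    obtain ⟨k, hk, d, hd, e, he, u, hu, w, hw, e1, e2, e3, e4⟩ := ppen_par h1 h2 h3 h4 h5
    rw [Finset.mem_biUnion]
    refine ⟨k, hk, Finset.mem_image.mpr ⟨((d, e), (u, w)), ?_, ?_⟩⟩
    · rw [Finset.mem_product, Finset.mem_product, Finset.mem_product]
      exact ⟨⟨hd, he⟩, ⟨hu, hw⟩⟩
    · simp only [ppen_map] at *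
      rw [e1, e2, e3, e4]
  refine (Finset.card_le_card hsub).trans ?_
  refine Finset.card_biUnion_le.trans ?_
  have h1 : ∀ k ∈ Finset.range (a + 1),
      (((mon F k ×ˢ mon F k) ×ˢ (mon F (a - k) ×ˢ mon F (a - k))).image ppen_map).card ≤
        Nat.card F ^ (2 * a) := by
    intro k hk
    rw [Finset.mem_range] at hk
    refine Finset.card_image_le.trans ?_
    rw [Finset.card_product, Finset.card_product, Finset.card_product, hcard, hcard,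
      ← pow_add, ← pow_add, ← pow_add]
    refine le_of_eq (congrArg _ ?_)
    omega
  refine (Finset.sum_le_card_nsmul _ _ _ h1).trans ?_
  rw [Finset.card_range, smul_eq_mul]

end MP72e2e6
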