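import Pool.Agent.Lib.MP_72e2e6_nt.PpStmtB

/-!
# MP_72e2e6_nt: positive proportion of twists, module PpEvn
-/

namespace MP72e2e6

universe u

theorem tPpEvn.{v} : StmtPpEvn.{v} := by
  intro ℓ _ K _ _ Y _ _ _ ρ f hsa halt
  classical
  have hf0 : ∀ x, f x x = 0 := fun x => by
    have := halt 1 x
    rwa [map_one, Module.End.one_apply] at this
  have hanti : ∀ x y, f x y = - f y x := by
    intro x y
    have h := hf0 (x + y)
    rw [map_add, map_add, LinearMap.add_apply, LinearMap.add_apply, hf0, hf0, zero_add,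
      add_zero] at h
    exact eq_neg_of_add_eq_zero_right h
  let : Module K Y := Module.compHom Y ρ
  have hsm : ∀ (κ : K) (y : Y), κ • y = ρ κ y := fun _ _ => rfl
  have hfin : Finite (Submodule K Y) := inferInstance
  obtain ⟨L, hL⟩ : ∃ L, Maximal (fun L : Submodule K Y => ∀ x ∈ L, ∀ y ∈ L, f x y = 0) L := by
    obtain ⟨L, hL⟩ := (Set.toFinite {L : Submodule K Y | ∀ x ∈ L, ∀ y ∈ L, f x y = 0}).exists_maximal
      ⟨⊥, fun x hx y _ => by
        rw [(Submodule.mem_bot K).1 hx, map_zero, LinearMap.zero_apply]⟩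
    exact ⟨L, hL⟩
  have hiso := hL.1
  -- `L` is its own orthogonal space
  have hperp : ∀ z, (∀ x ∈ L, f x z = 0) → z ∈ L := by
    intro z hz
    have h1 : ∀ x ∈ L ⊔ Submodule.span K {z}, ∀ y ∈ L ⊔ Submodule.span K {z}, f x y = 0 := by
      intro x hx y hy
      obtain ⟨x₁, hx₁, x₂, hx₂, rfl⟩ := Submodule.mem_sup.1 hx
      obtain ⟨y₁, hy₁, y₂, hy₂, rfl⟩ := Submodule.mem_sup.1 hy
      obtain ⟨a, rfl⟩ := Submodule.mem_span_singleton.1 hx₂
      obtain ⟨b, rfl⟩ := Submodule.mem_span_singleton.1 hy₂
      have e1 : f x₁ (b • z) = 0 := by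
        rw [hsm, ← hsa]
        exact hz _ (L.smul_mem b hx₁)
      have e2 : f (a • z) y₁ = 0 := by
        rw [hsm, hsa, hanti, ← hsm, hz _ (L.smul_mem a hy₁), neg_zero]
      have e3 : f (a • z) (b • z) = 0 := by
        rw [hsm, hsa]
        have : ρ a (b • z) = ρ (a * b) z := by
          rw [hsm, map_mul, Module.End.mul_apply]
        rw [this]
        exact halt _ _
      rw [map_add, map_add, LinearMap.add_apply, LinearMap.add_apply,
        hiso _ hx₁ _ hy₁, e1, e2, e3]
      simp
    have h2 := hL.2 h1 le_sup_left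
    exact h2 (Submodule.mem_sup_right (Submodule.mem_span_singleton_self z))
  -- the space over the prime field
  let A : Submodule (ZMod ℓ) Y := AddSubgroup.toZModSubmodule ℓ L.toAddSubgroup
  have hA : ∀ x, x ∈ A ↔ x ∈ L := fun x => Iff.rfl
  let g := f.domRestrict A
  have hg1 := LinearMap.finrank_range_add_finrank_ker g
  have hg2 := Subspace.finrank_add_finrank_dualCoannihilator_eq (LinearMap.range g)
  have hg3 : (LinearMap.range g).dualCoannihilator = A := by
    ext z
    rw [Submodule.mem_dualCoannihilator, hA]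
    constructor
    · intro h
      exact hperp z fun x hx => h (g ⟨x, hx⟩) ⟨_, rfl⟩
    · rintro hz _ ⟨x, rfl⟩
      exact hiso _ x.2 _ hz
  have hkerA : LinearMap.ker f ≤ A := by
    intro z hz
    refine hperp z fun x _ => ?_
    rw [hanti, LinearMap.mem_ker.1 hz, LinearMap.zero_apply, neg_zero]
  have hg4 : Nat.card (LinearMap.ker g) = Nat.card (LinearMap.ker f) := by
    refine Nat.card_congr ⟨fun x => ⟨x.1.1, x.2⟩, fun x => ⟨⟨x.1, hkerA x.2⟩, x.2⟩, fun _ => rfl,
      fun _ => rfl⟩
  -- the kernel over `K`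
  let N : Submodule K Y :=
    { carrier := {x | f x = 0}
      add_mem' := fun {x y} hx hy => by
        change f (x + y) = 0
        rw [map_add, hx, hy, add_zero]
      zero_mem' := map_zero f
      smul_mem' := fun κ x hx => by
        refine LinearMap.ext fun y => ?_
        have hx' : f x = 0 := hx
        rw [hsm, hsa, hx', LinearMap.zero_apply, LinearMap.zero_apply] }
  have hN : Nat.card N = Nat.card (LinearMap.ker f) := rfl
  have hNL : N ≤ L := fun z hz => hkerA hz
  have c1 : Nat.card Y = Nat.card K ^ Module.finrank K Y := Module.natCard_eq_pow_finrank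
  have c2 : Nat.card N = Nat.card K ^ Module.finrank K N := Module.natCard_eq_pow_finrank
  have c3 : Nat.card L = Nat.card K ^ Module.finrank K L := Module.natCard_eq_pow_finrank
  have c4 : Nat.card Y = Nat.card (ZMod ℓ) ^ Module.finrank (ZMod ℓ) Y :=
    Module.natCard_eq_pow_finrank
  have c5 : Nat.card (LinearMap.ker g) =
    Nat.card (ZMod ℓ) ^ Module.finrank (ZMod ℓ) (LinearMap.ker g) := Module.natCard_eq_pow_finrank
  have c6 : Nat.card A = Nat.card (ZMod ℓ) ^ Module.finrank (ZMod ℓ) A :=
    Module.natCard_eq_pow_finrank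
  have c7 : Nat.card A = Nat.card L := rfl
  rw [hg3] at hg2
  have key : Nat.card Y * Nat.card (LinearMap.ker f) = Nat.card L * Nat.card L := by
    rw [← hg4, ← c7, c4, c5, c6, ← pow_add, ← pow_add]
    congr 1
    omega
  rw [← hN, c1, c2, c3, ← pow_add, ← pow_add] at key
  have hK : 1 < Nat.card K := Finite.one_lt_card
  have key2 := Nat.pow_right_injective hK key
  have key3 : Module.finrank K N ≤ Module.finrank K L := Submodule.finrank_mono hNL
  refine ⟨Module.finrank K L - Module.finrank K N, ?_⟩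
  rw [← hN, c1, c2, ← pow_add]
  congr 1
  omega

end MP72e2e6
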