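import Pool.Agent.Lib.MP_72e2e6_nt.PpStmt

/-!
# MP_72e2e6_nt: positive proportion of twists, module PpFul
-/

namespace MP72e2e6

open Polynomial

universe u

theorem ppful_mem_gs {F : Type u} [Field F] [Finite F] {V : Type} {pr : V → F[X]} {n : ℕ}
    {t : Finset F[X]} : t ∈ gs F pr n ↔ t ∈ ps F n ∧ ∀ P ∈ t, ∀ v, pr v ≠ P := by
  simp [gs]

theorem ppful_mem_fib {β U : Type*} [DecidableEq U] {t : Finset β} {g : t → U} {w : U} {P : β} :
    P ∈ fib t g w ↔ ∃ h : P ∈ t, g ⟨P, h⟩ = w := by
  unfold fib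
  rw [Finset.mem_map]
  constructor
  · rintro ⟨x, hx, rfl⟩
    exact ⟨x.2, (Finset.mem_filter.1 hx).2⟩
  · rintro ⟨h, hw⟩
    exact ⟨⟨P, h⟩, Finset.mem_filter.2 ⟨Finset.mem_univ _, hw⟩, rfl⟩

theorem ppful_prod_fib {β U M : Type*} [Fintype U] [DecidableEq U] [CommMonoid M] (t : Finset β)
    (g : t → U) (h : U → β → M) :
    ∏ w, ∏ P ∈ fib t g w, h w P = ∏ P : t, h (g P) P.1 := by
  unfold fib
  simp only [Finset.prod_map, Function.Embedding.subtype_apply]
  rw [← Finset.prod_fiberwise Finset.univ g]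
  refine Finset.prod_congr rfl fun w _ => Finset.prod_congr rfl fun P hP => ?_
  rw [(Finset.mem_filter.1 hP).2]

theorem ppful_disj {β U : Type*} [DecidableEq U] (t : Finset β) (g : t → U) {w w' : U}
    (h : w ≠ w') : Disjoint (fib t g w) (fib t g w') := by
  rw [Finset.disjoint_left]
  intro P hP hP'
  obtain ⟨h1, h2⟩ := ppful_mem_fib.1 hP
  obtain ⟨h3, h4⟩ := ppful_mem_fib.1 hP'
  exact h (h2.symm.trans h4)

theorem ppful_ps0 {F : Type u} [Field F] [Finite F] {t : Finset F[X]} (h : t ∈ ps F 0) :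
    t = ∅ := by
  obtain ⟨h1, h2⟩ := mem_ps.1 h
  rw [Finset.eq_empty_iff_forall_notMem]
  intro P hP
  have h3 := Finset.sum_eq_zero_iff.mp h2 P hP
  have h4 := (h1 P hP).2.natDegree_pos
  omega

theorem ppful_sys_symm {F : Type u} [Field F] {ℓ : ℕ} {χ : F → ZMod ℓ} (hr : Rcp χ)
    {s t : Finset F[X]} (hs : ∀ P ∈ s, P.Monic ∧ Irreducible P)
    (ht : ∀ P ∈ t, P.Monic ∧ Irreducible P) (hd : Disjoint s t) : sys χ s t = sys χ t s := by
  unfold sys
  rw [Finset.sum_comm]
  refine Finset.sum_congr rfl fun Q hQ => Finset.sum_congr rfl fun P hP => ?_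
  refine hr P Q (hs P hP).1 (hs P hP).2 (ht Q hQ).1 (ht Q hQ).2 fun h => ?_
  exact Finset.disjoint_left.1 hd hP (h ▸ hQ)

theorem tPpFul.{v} (hPpCol : StmtPpCol.{v}) : StmtPpFul.{v} := by
  intro F _ _ ℓ _ hℓ hq χ hχ hr V U _ _ _ pr α αi B N hB 𝓥 hunl hα n
  classical
  let Φ : (U → Finset F[X]) → ℂ := fun p =>
    if ∀ w, w ∉ 𝓥 → p w = ∅ then wgt χ pr α αi B N p else 0
  have hcol := hPpCol.1 F V U pr n Φ
  -- the right side
  have hright : ∑ t ∈ gs F pr n, ∑ g : t → U, Φ (fib t g) =
      ∑ ν ∈ 𝓥.piAntidiag n, Tnu χ pr α αi B N ν := by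
    rw [hcol]
    symm
    have hsub : 𝓥.piAntidiag n ⊆ (Finset.univ : Finset U).piAntidiag n := by
      intro ν hν
      obtain ⟨h1, h2⟩ := Finset.mem_piAntidiag.1 hν
      refine Finset.mem_piAntidiag.2 ⟨?_, fun w _ => Finset.mem_univ w⟩
      rw [← h1]
      symm
      refine Finset.sum_subset (Finset.subset_univ _) fun w _ hw => ?_
      by_contra h
      exact hw (h2 w h)
    rw [← Finset.sum_subset hsub]
    · refine Finset.sum_congr rfl fun ν hν => ?_
      obtain ⟨h1, h2⟩ := Finset.mem_piAntidiag.1 hν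
      unfold Tnu
      refine Finset.sum_congr rfl fun p hp => ?_
      have hp' := Fintype.mem_piFinset.1 hp
      have hΦ : Φ p = wgt χ pr α αi B N p := by
        refine if_pos fun w hw => ?_
        have h3 : ν w = 0 := by
          by_contra h
          exact hw (h2 w h)
        have h4 := hp' w
        rw [h3] at h4
        exact ppful_ps0 h4
      split_ifs with hc
      · exact hΦ.symm
      · unfold wgt
        split_ifs with hd
        · have h5 : ∃ w, ∃ P ∈ p w, ∃ v, pr v = P := by
            by_contra h6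
            push Not at h6
            exact hc ⟨hd, h6⟩
          obtain ⟨w, P, hP, v, hv⟩ := h5
          have h6 : ∏ P ∈ p w, ((N : ℂ)⁻¹ * chc χ pr α αi w P) = 0 := by
            refine Finset.prod_eq_zero hP ?_
            unfold chc
            rw [if_pos ⟨v, hv⟩, mul_zero]
          rw [Finset.prod_eq_zero (Finset.mem_univ w) h6, zero_mul]
        · rfl
    · intro ν hν hν'
      have h1 : ∃ w, w ∉ 𝓥 ∧ ν w ≠ 0 := by
        by_contra h2
        push Not at h2
        refine hν' (Finset.mem_piAntidiag.2 ⟨?_, fun w hw => ?_⟩)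
        · rw [← (Finset.mem_piAntidiag.1 hν).1]
          exact Finset.sum_subset (Finset.subset_univ _) fun w _ hw => h2 w hw
        · by_contra h3
          exact hw (h2 w h3)
      obtain ⟨w, hw, hνw⟩ := h1
      refine Finset.sum_eq_zero fun p hp => ?_
      have hp' := Fintype.mem_piFinset.1 hp w
      have hΦ : Φ p = 0 := by
        refine if_neg fun h => hνw ?_
        have h2 := (mem_ps.1 hp').2
        rw [h w hw, Finset.sum_empty] at h2
        exact h2.symm
      rw [hΦ, ite_self]
  rw [← hright]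
  refine Finset.sum_congr rfl fun t ht => ?_
  obtain ⟨ht1, ht2⟩ := ppful_mem_gs.1 ht
  have ht3 := (mem_ps.1 ht1).1
  -- the left side
  have hleft : ∀ g : t → U, Φ (fib t g) = if ∀ P, g P ∈ 𝓥 then
      ∏ P : t, ((N : ℂ)⁻¹ * ZMod.stdAddChar (αi (g P) * (P.1.natDegree : ZMod ℓ))) else 0 := by
    intro g
    have hiff : (∀ w, w ∉ 𝓥 → fib t g w = ∅) ↔ ∀ P, g P ∈ 𝓥 := by
      constructor
      · intro h P
        by_contra h1
        have h2 : P.1 ∈ fib t g (g P) := ppful_mem_fib.2 ⟨P.2, rfl⟩
        rw [h _ h1] at h2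
        exact absurd h2 (Finset.notMem_empty _)
      · intro h w hw
        rw [Finset.eq_empty_iff_forall_notMem]
        intro P hP
        obtain ⟨h1, h2⟩ := ppful_mem_fib.1 hP
        exact hw (h2 ▸ h _)
    by_cases hg : ∀ P, g P ∈ 𝓥
    · rw [if_pos hg]
      have hg' := hiff.2 hg
      have h1 : Φ (fib t g) = wgt χ pr α αi B N (fib t g) := if_pos hg'
      rw [h1]
      unfold wgt
      rw [if_pos fun w w' h => ppful_disj t g h]
      have hphase : ∑ w, ∑ w', B w w' * sys χ (fib t g w) (fib t g w') = 0 := by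
        rw [← Finset.sum_product']
        refine Finset.sum_involution (fun x _ => (x.2, x.1)) ?_ ?_ (fun _ _ => by simp)
          (fun _ _ => rfl)
        · rintro ⟨w, w'⟩ _
          by_cases hww : w = w'
          · subst hww
            change B w w * _ + B w w * _ = 0
            rw [hB, zero_mul, add_zero]
          · change B w w' * sys χ (fib t g w) (fib t g w') +
              B w' w * sys χ (fib t g w') (fib t g w) = 0
            by_cases hw : w ∈ 𝓥
            · by_cases hw' : w' ∈ 𝓥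
              · rw [ppful_sys_symm hr (s := fib t g w') (t := fib t g w)
                  (fun P hP => ht3 P (ppful_mem_fib.1 hP).1)
                  (fun P hP => ht3 P (ppful_mem_fib.1 hP).1) (ppful_disj t g fun h => hww h.symm),
                  ← add_mul, hunl w hw w' hw', zero_mul]
              · rw [hg' w' hw']
                simp [sys]
            · rw [hg' w hw]
              simp [sys]
        · rintro ⟨w, w'⟩ _ hne heq
          have hww : w' = w := congrArg Prod.fst heq
          subst hww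
          exact hne (by rw [hB, zero_mul])
      rw [hphase, AddChar.map_zero_eq_one, mul_one]
      rw [ppful_prod_fib t g fun w P => (N : ℂ)⁻¹ * chc χ pr α αi w P]
      refine Finset.prod_congr rfl fun P _ => ?_
      congr 1
      unfold chc
      rw [if_neg (by
        rintro ⟨v, hv⟩
        exact ht2 P.1 P.2 v hv)]
      congr 1
      rw [Finset.sum_eq_zero fun v _ => by rw [hα _ (hg P) v, zero_mul], zero_add]
    · rw [if_neg hg]
      exact if_neg fun h => hg (hiff.1 h)
  rw [Finset.sum_congr rfl fun g _ => hleft g, ← Finset.sum_filter]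
  have hfil : (Finset.univ : Finset (t → U)).filter (fun g => ∀ P, g P ∈ 𝓥) =
      Fintype.piFinset fun _ : t => 𝓥 := by
    ext g
    rw [Finset.mem_filter, Fintype.mem_piFinset]
    exact ⟨fun h => h.2, fun h => ⟨Finset.mem_univ _, h⟩⟩
  rw [hfil, ← Finset.prod_univ_sum (fun _ : t => 𝓥)
    fun (P : t) (w : U) => (N : ℂ)⁻¹ * ZMod.stdAddChar (αi w * (P.1.natDegree : ZMod ℓ))]
  rw [← Finset.prod_coe_sort t]
  refine Finset.prod_congr rfl fun P _ => ?_
  rw [Finset.mul_sum]

end MP72e2e6
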