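import Pool.Agent.Lib.MP_72e2e6_nt.PpRec

/-!
# MP_72e2e6_nt: positive proportion of twists, module PpHal
-/

namespace MP72e2e6

open Polynomial

universe u

/-- The sum of the weights. -/
noncomputable def pphG (F : Type u) [Field F] [Finite F] (w : ℕ → ℝ) (n : ℕ) : ℝ :=
  ∑ t ∈ ps F n, ∏ P ∈ t, w P.natDegree

theorem pphal_zero (F : Type u) [Field F] [Finite F] (w : ℕ → ℝ) : pphG F w 0 = 1 := by
  classical
  have h1 : ps F 0 = {∅} := by
    ext t
    rw [mem_ps, Finset.mem_singleton]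
    constructor
    · rintro ⟨h1, h2⟩
      rw [Finset.eq_empty_iff_forall_notMem]
      intro P hP
      have h3 := Finset.sum_eq_zero_iff.mp h2 P hP
      have h4 := (h1 P hP).2.natDegree_pos
      omega
    · rintro rfl
      exact ⟨fun P hP => absurd hP (Finset.notMem_empty P), Finset.sum_empty⟩
  rw [pphG, h1, Finset.sum_singleton, Finset.prod_empty]

theorem pphal_nonneg (F : Type u) [Field F] [Finite F] {w : ℕ → ℝ} (hw : ∀ j, 0 ≤ w j) (n : ℕ) :
    0 ≤ pphG F w n := Finset.sum_nonneg fun _ _ => Finset.prod_nonneg fun _ _ => hw _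

open Classical in
/-- the sets which contain a given prime -/
theorem pphal_fix (F : Type u) [Field F] [Finite F] {w : ℕ → ℝ} (hw : ∀ j, 0 ≤ w j) {n j : ℕ}
    {P : F[X]} (hP : P ∈ irr F j) :
    ∑ t ∈ (ps F n).filter (fun t => P ∈ t), ∏ Q ∈ t, w Q.natDegree ≤
      w j * pphG F w (n - j) := by
  rw [pprec_mem_irr] at hP
  have h1 : ∑ t ∈ (ps F n).filter (fun t => P ∈ t), ∏ Q ∈ t, w Q.natDegree =
      w j * ∑ t ∈ (ps F n).filter (fun t => P ∈ t), ∏ Q ∈ t.erase P, w Q.natDegree := by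
    rw [Finset.mul_sum]
    refine Finset.sum_congr rfl fun t ht => ?_
    have h2 := (Finset.mem_filter.mp ht).2
    rw [← hP.1.2]
    exact (Finset.mul_prod_erase t (fun Q : F[X] => w Q.natDegree) h2).symm
  rw [h1]
  apply mul_le_mul_of_nonneg_left _ (hw j)
  rw [pphG]
  have hinj : Set.InjOn (fun t : Finset F[X] => t.erase P)
      ((ps F n).filter (fun t => P ∈ t) : Set (Finset F[X])) := by
    intro s hs t ht h
    have hs2 : P ∈ s := (Finset.mem_filter.mp (Finset.mem_coe.mp hs)).2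
    have ht2 : P ∈ t := (Finset.mem_filter.mp (Finset.mem_coe.mp ht)).2
    have h3 := congrArg (insert P) h
    simp only [Finset.insert_erase hs2, Finset.insert_erase ht2] at h3
    exact h3
  have h3 : ∑ t ∈ (ps F n).filter (fun t => P ∈ t), ∏ Q ∈ t.erase P, w Q.natDegree =
      ∑ t ∈ ((ps F n).filter (fun t => P ∈ t)).image (fun t => t.erase P),
        ∏ Q ∈ t, w Q.natDegree :=
    (Finset.sum_image (f := fun t : Finset F[X] => ∏ Q ∈ t, w Q.natDegree) hinj).symm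
  rw [h3]
  apply Finset.sum_le_sum_of_subset_of_nonneg
  · intro t' ht'
    obtain ⟨t, ht, rfl⟩ := Finset.mem_image.mp ht'
    obtain ⟨ht1, ht2⟩ := Finset.mem_filter.mp ht
    rw [mem_ps] at ht1 ⊢
    refine ⟨fun Q hQ => ht1.1 Q (Finset.mem_of_mem_erase hQ), ?_⟩
    have h4 : P.natDegree + ∑ Q ∈ t.erase P, Q.natDegree = ∑ Q ∈ t, Q.natDegree :=
      Finset.add_sum_erase t (fun Q : F[X] => Q.natDegree) ht2
    rw [ht1.2, hP.1.2] at h4
    omega
  · intro t _ _
    exact Finset.prod_nonneg fun _ _ => hw _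

theorem pphal_main (hSuPsi : StmtSuPsi.{u}) (F : Type u) [Field F] [Finite F] {w : ℕ → ℝ}
    (hw : ∀ j, 0 ≤ w j) (n : ℕ) :
    (n : ℝ) * pphG F w n ≤
      ∑ j ∈ Finset.Icc 1 n, w j * ((Nat.card F : ℝ) ^ j * pphG F w (n - j)) := by
  classical
  have hGG : ∀ m, 0 ≤ pphG F w m := pphal_nonneg F hw
  obtain ⟨-, -, -, -, hirr⟩ := hSuPsi F 2 Nat.prime_two
  have h1 : (n : ℝ) * pphG F w n = ∑ j ∈ Finset.range (n + 1), ∑ P ∈ irr F j, (j : ℝ) *
      ∑ t ∈ (ps F n).filter (fun t => P ∈ t), ∏ Q ∈ t, w Q.natDegree := by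
    have h2 : (n : ℝ) * pphG F w n = ∑ t ∈ ps F n, ∑ j ∈ Finset.range (n + 1), ∑ P ∈ irr F j,
        (j : ℝ) * (if P ∈ t then ∏ Q ∈ t, w Q.natDegree else 0) := by
      rw [pphG, Finset.mul_sum]
      refine Finset.sum_congr rfl fun t ht => ?_
      rw [mem_ps] at ht
      have h3 : (n : ℝ) = ∑ P ∈ t, (P.natDegree : ℝ) := by
        rw [← ht.2]
        push_cast
        rfl
      rw [h3, Finset.sum_mul, ← Finset.sum_fiberwise_of_maps_to (t := Finset.range (n + 1))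
        (g := fun P : F[X] => P.natDegree)]
      · refine Finset.sum_congr rfl fun j _ => ?_
        have h4 : t.filter (fun P : F[X] => P.natDegree = j) =
            (irr F j).filter (fun P => P ∈ t) := by
          ext P
          rw [Finset.mem_filter, Finset.mem_filter, pprec_mem_irr]
          constructor
          · rintro ⟨hP, hd⟩
            exact ⟨⟨⟨(ht.1 P hP).1, hd⟩, (ht.1 P hP).2⟩, hP⟩
          · rintro ⟨⟨⟨_, hd⟩, _⟩, hP⟩
            exact ⟨hP, hd⟩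
        rw [h4, Finset.sum_filter]
        refine Finset.sum_congr rfl fun P hP => ?_
        rw [pprec_mem_irr] at hP
        rw [hP.1.2]
        split_ifs
        · rfl
        · rw [mul_zero]
      · intro P hP
        rw [Finset.mem_range, ← ht.2]
        exact Nat.lt_succ_of_le (Finset.single_le_sum (f := fun P : F[X] => P.natDegree)
          (fun _ _ => Nat.zero_le _) hP)
    rw [h2, Finset.sum_comm]
    refine Finset.sum_congr rfl fun j _ => ?_
    rw [Finset.sum_comm]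
    refine Finset.sum_congr rfl fun P _ => ?_
    rw [← Finset.mul_sum, Finset.sum_filter]
  rw [h1]
  have h5 : ∀ j ∈ Finset.range (n + 1), ∑ P ∈ irr F j, (j : ℝ) *
      ∑ t ∈ (ps F n).filter (fun t => P ∈ t), ∏ Q ∈ t, w Q.natDegree ≤
      if 1 ≤ j then w j * ((Nat.card F : ℝ) ^ j * pphG F w (n - j)) else 0 := by
    intro j _
    by_cases hj : 1 ≤ j
    · rw [if_pos hj]
      have h6 : ∑ P ∈ irr F j, (j : ℝ) * ∑ t ∈ (ps F n).filter (fun t => P ∈ t),
          ∏ Q ∈ t, w Q.natDegree ≤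
          ∑ _P ∈ irr F j, (j : ℝ) * (w j * pphG F w (n - j)) :=
        Finset.sum_le_sum fun P hP =>
          mul_le_mul_of_nonneg_left (pphal_fix F hw hP) (Nat.cast_nonneg _)
      refine le_trans h6 ?_
      rw [Finset.sum_const, nsmul_eq_mul]
      have h7 : (j : ℝ) * ((irr F j).card : ℝ) ≤ (Nat.card F : ℝ) ^ j := by
        exact_mod_cast hirr j hj
      have h8 : 0 ≤ w j * pphG F w (n - j) := mul_nonneg (hw j) (hGG _)
      calc ((irr F j).card : ℝ) * ((j : ℝ) * (w j * pphG F w (n - j))) =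
          ((j : ℝ) * ((irr F j).card : ℝ)) * (w j * pphG F w (n - j)) := by ring
        _ ≤ (Nat.card F : ℝ) ^ j * (w j * pphG F w (n - j)) := mul_le_mul_of_nonneg_right h7 h8
        _ = w j * ((Nat.card F : ℝ) ^ j * pphG F w (n - j)) := by ring
    · rw [if_neg hj]
      have hj0 : j = 0 := by omega
      rw [hj0]
      simp
  refine le_trans (Finset.sum_le_sum h5) (le_of_eq ?_)
  rw [← Finset.sum_filter]
  refine Finset.sum_congr ?_ fun _ _ => rfl
  ext j
  simp only [Finset.mem_filter, Finset.mem_range, Finset.mem_Icc]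
  omega

/-- the recursion for the normalised sums -/
theorem pphal_rec (hSuPsi : StmtSuPsi.{u}) (F : Type u) [Field F] [Finite F] {w : ℕ → ℝ}
    (hw : ∀ j, 0 ≤ w j) (n : ℕ) :
    (n : ℝ) * (pphG F w n / (Nat.card F : ℝ) ^ n) ≤
      ∑ j ∈ Finset.Icc 1 n, w j * (pphG F w (n - j) / (Nat.card F : ℝ) ^ (n - j)) := by
  have hq : (0 : ℝ) < (Nat.card F : ℝ) := by exact_mod_cast Nat.card_pos
  have h1 := pphal_main hSuPsi F hw n
  have h2 : (n : ℝ) * (pphG F w n / (Nat.card F : ℝ) ^ n) =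
      ((n : ℝ) * pphG F w n) / (Nat.card F : ℝ) ^ n := by ring
  rw [h2, div_le_iff₀ (pow_pos hq n)]
  refine le_trans h1 (le_of_eq ?_)
  rw [Finset.sum_mul]
  refine Finset.sum_congr rfl fun j hj => ?_
  rw [Finset.mem_Icc] at hj
  have h4 : (Nat.card F : ℝ) ^ n = (Nat.card F : ℝ) ^ j * (Nat.card F : ℝ) ^ (n - j) := by
    rw [← pow_add]
    congr 1
    omega
  have h5 : (Nat.card F : ℝ) ^ (n - j) ≠ 0 := ne_of_gt (pow_pos hq _)
  rw [h4]
  field_simp

/-- a sequence with a strictly contracting recursion tends to zero -/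
theorem pphal_lim (g w : ℕ → ℝ) (κ : ℝ) (hκ0 : 0 ≤ κ) (hκ : κ < 1) (hg0 : g 0 ≤ 1)
    (hg : ∀ n, 0 ≤ g n) (hw : ∀ j, 0 ≤ w j) (hw1 : ∀ j, w j ≤ 1)
    (hsum : ∀ n : ℕ, ∑ j ∈ Finset.Icc 1 n, w j ≤ κ * n)
    (hrec : ∀ n : ℕ, (n : ℝ) * g n ≤ ∑ j ∈ Finset.Icc 1 n, w j * g (n - j)) (ε : ℝ) (hε : 0 < ε) :
    ∃ n₀ : ℕ, ∀ n : ℕ, n₀ ≤ n → g n ≤ ε := by
  have h1 : ∀ n, g n ≤ 1 := by
    intro n
    induction n using Nat.strong_induction_on with
    | _ n ih =>
      rcases Nat.eq_zero_or_pos n with h0 | hpos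
      · rw [h0]
        exact hg0
      · have hn : (0 : ℝ) < n := by exact_mod_cast hpos
        have h2 : (n : ℝ) * g n ≤ ∑ j ∈ Finset.Icc 1 n, (1 : ℝ) := by
          refine (hrec n).trans (Finset.sum_le_sum fun j hj => ?_)
          rw [Finset.mem_Icc] at hj
          exact mul_le_one₀ (hw1 j) (hg _) (ih (n - j) (by omega))
        rw [Finset.sum_const, Nat.card_Icc, nsmul_eq_mul, mul_one] at h2
        have h3 : ((n + 1 - 1 : ℕ) : ℝ) = n := by
          rw [Nat.add_sub_cancel]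
        rw [h3] at h2
        nlinarith
  set κ' : ℝ := (1 + κ) / 2 with hκ'
  have hκ'0 : 0 < κ' := by rw [hκ']; linarith
  have hκ'1 : κ' < 1 := by rw [hκ']; linarith
  have hκκ' : κ < κ' := by rw [hκ']; linarith
  have h2 : ∀ k : ℕ, ∃ n₀ : ℕ, ∀ n : ℕ, n₀ ≤ n → g n ≤ κ' ^ k := by
    intro k
    induction k with
    | zero => exact ⟨0, fun n _ => by rw [pow_zero]; exact h1 n⟩
    | succ k ih =>
      obtain ⟨n₀, h0⟩ := ih
      have hd : 0 < κ' ^ k * (κ' - κ) := mul_pos (pow_pos hκ'0 _) (sub_pos.2 hκκ')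
      refine ⟨max (n₀ + 1) ⌈(n₀ : ℝ) / (κ' ^ k * (κ' - κ))⌉₊, fun n hn => ?_⟩
      have hn1 : n₀ + 1 ≤ n := (le_max_left _ _).trans hn
      have hn2 : (n₀ : ℝ) / (κ' ^ k * (κ' - κ)) ≤ n := by
        have h3 : (⌈(n₀ : ℝ) / (κ' ^ k * (κ' - κ))⌉₊ : ℝ) ≤ n := by
          exact_mod_cast (le_max_right _ _).trans hn
        exact (Nat.le_ceil _).trans h3
      rw [div_le_iff₀ hd] at hn2
      have hn0 : (0 : ℝ) < n := by
        exact_mod_cast (show 0 < n by omega)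
      have h3 : ∀ j ∈ Finset.Icc 1 n, w j * g (n - j) ≤
          κ' ^ k * w j + (if n - j < n₀ then 1 else 0) := by
        intro j hj
        by_cases hlt : n - j < n₀
        · rw [if_pos hlt]
          have := mul_le_one₀ (hw1 j) (hg (n - j)) (h1 (n - j))
          have h4 : 0 ≤ κ' ^ k * w j := mul_nonneg (pow_nonneg hκ'0.le _) (hw j)
          linarith
        · rw [if_neg hlt, add_zero, mul_comm]
          exact mul_le_mul_of_nonneg_right (h0 (n - j) (by omega)) (hw j)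
      have h4 : ∑ j ∈ Finset.Icc 1 n, (if n - j < n₀ then (1 : ℝ) else 0) ≤ n₀ := by
        rw [← Finset.sum_filter, Finset.sum_const, nsmul_eq_mul, mul_one]
        have h5 : ((Finset.Icc 1 n).filter fun j => n - j < n₀).card ≤
            (Finset.range n₀).card := by
          refine Finset.card_le_card_of_injOn (fun j => n - j) ?_ ?_
          · intro j hj
            have := (Finset.mem_filter.1 hj).2
            exact Finset.mem_coe.2 (Finset.mem_range.2 this)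
          · intro i hi j hj hij
            have h6 := Finset.mem_Icc.1 (Finset.mem_filter.1 hi).1
            have h7 := Finset.mem_Icc.1 (Finset.mem_filter.1 hj).1
            have h8 : n - i = n - j := hij
            omega
        rw [Finset.card_range] at h5
        exact_mod_cast h5
      have h5 : (n : ℝ) * g n ≤ κ' ^ k * (κ * n) + n₀ := by
        refine (hrec n).trans ((Finset.sum_le_sum h3).trans ?_)
        rw [Finset.sum_add_distrib, ← Finset.mul_sum]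
        have := mul_le_mul_of_nonneg_left (hsum n) (pow_nonneg hκ'0.le k)
        linarith
      have h6 : (n : ℝ) * g n ≤ n * κ' ^ (k + 1) := by
        rw [pow_succ]
        nlinarith
      exact le_of_mul_le_mul_left h6 hn0
  obtain ⟨k, hk⟩ := exists_pow_lt_of_lt_one hε hκ'1
  obtain ⟨n₀, h0⟩ := h2 k
  exact ⟨n₀, fun n hn => (h0 n hn).trans hk.le⟩

/-- strict triangle inequality -/
theorem pphal_strict {U : Type} (𝓥 : Finset U) (z : U → ℂ) (hz : ∀ w, ‖z w‖ = 1)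
    (h : ∃ w ∈ 𝓥, ∃ w' ∈ 𝓥, z w ≠ z w') : ‖∑ w ∈ 𝓥, z w‖ < 𝓥.card := by
  classical
  obtain ⟨w, hw, w', hw', hne⟩ := h
  have hww' : w' ≠ w := fun h => hne (h ▸ rfl)
  have hw'' : w' ∈ 𝓥.erase w := Finset.mem_erase.2 ⟨hww', hw'⟩
  rw [← Finset.add_sum_erase _ _ hw, ← Finset.add_sum_erase _ _ hw'', ← add_assoc]
  refine (norm_add_le _ _).trans_lt ?_
  have h1 : ‖z w + z w'‖ < 2 := by
    have h2 : ¬ SameRay ℝ (z w) (z w') := by
      rw [sameRay_iff_of_norm_eq (by rw [hz, hz])]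
      exact hne
    have h3 := norm_add_lt_of_not_sameRay h2
    rw [hz, hz] at h3
    linarith
  have h2 : ‖∑ x ∈ (𝓥.erase w).erase w', z x‖ ≤ (((𝓥.erase w).erase w').card : ℝ) := by
    refine (norm_sum_le _ _).trans ?_
    rw [Finset.sum_congr rfl fun x _ => hz x, Finset.sum_const, nsmul_eq_mul, mul_one]
  have h3 : ((𝓥.erase w).erase w').card + 1 + 1 = 𝓥.card := by
    rw [Finset.card_erase_add_one hw'', Finset.card_erase_add_one hw]
  have h4 : (((𝓥.erase w).erase w').card : ℝ) + 1 + 1 = 𝓥.card := by exact_mod_cast h3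
  linarith

theorem tPpHal.{v} (hSuPsi : StmtSuPsi.{v}) (_ : StmtPpRec.{v}) (_ : StmtPpNum) :
    StmtPpHal.{v} := by
  intro F _ _ ℓ _ hℓ V U pr αi N 𝓥 hcard hne ε hε
  have : Fact ℓ.Prime := ⟨hℓ⟩
  classical
  obtain ⟨w₁, hw₁, w₂, hw₂, h12⟩ := hne
  have hN : 0 < N := hcard ▸ Finset.card_pos.2 ⟨w₁, hw₁⟩
  have hN' : (0 : ℝ) < N := by exact_mod_cast hN
  let Wz : ZMod ℓ → ℝ := fun c => ‖(N : ℂ)⁻¹ * ∑ w ∈ 𝓥, ZMod.stdAddChar (αi w * c)‖
  have hWz0 : ∀ c, 0 ≤ Wz c := fun c => norm_nonneg _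
  have hWzle : ∀ c, ‖∑ w ∈ 𝓥, (ZMod.stdAddChar (αi w * c) : ℂ)‖ ≤ N := by
    intro c
    refine (norm_sum_le _ _).trans ?_
    rw [Finset.sum_congr rfl fun w _ => AddChar.norm_apply _ _, Finset.sum_const, nsmul_eq_mul,
      mul_one, hcard]
  have hWz1 : ∀ c, Wz c ≤ 1 := by
    intro c
    simp only [Wz]
    rw [norm_mul, norm_inv, Complex.norm_natCast, inv_mul_le_iff₀ hN', mul_one]
    exact hWzle c
  have hWzlt : ∀ c, c ≠ 0 → Wz c < 1 := by
    intro c hc
    simp only [Wz]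
    rw [norm_mul, norm_inv, Complex.norm_natCast, inv_mul_lt_iff₀ hN', mul_one, ← hcard]
    refine pphal_strict 𝓥 _ (fun w => AddChar.norm_apply _ _) ⟨w₁, hw₁, w₂, hw₂, fun h => h12 ?_⟩
    exact mul_right_cancel₀ hc (ZMod.injective_stdAddChar h)
  obtain ⟨ρ, hρ0, hρ1, hρ⟩ : ∃ ρ : ℝ, 0 ≤ ρ ∧ ρ < 1 ∧ ∀ c, c ≠ 0 → Wz c ≤ ρ := by
    obtain ⟨c₀, hc₀, hmax⟩ := Finset.exists_max_image
      ((Finset.univ : Finset (ZMod ℓ)).filter fun c => c ≠ 0) Wz
      ⟨1, Finset.mem_filter.2 ⟨Finset.mem_univ _, one_ne_zero⟩⟩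
    refine ⟨Wz c₀, hWz0 _, hWzlt _ (Finset.mem_filter.1 hc₀).2, fun c hc => ?_⟩
    exact hmax c (Finset.mem_filter.2 ⟨Finset.mem_univ _, hc⟩)
  let w : ℕ → ℝ := fun j => Wz (j : ZMod ℓ)
  have hℓ2 : (2 : ℝ) ≤ ℓ := by exact_mod_cast hℓ.two_le
  set κ : ℝ := ρ + (1 - ρ) / ℓ with hκ
  have hκ1 : κ < 1 := by
    have h1 : (1 - ρ) / ℓ < 1 - ρ := by
      rw [div_lt_iff₀ (by linarith)]
      nlinarith
    rw [hκ]
    linarith
  have hκ0 : 0 ≤ κ := by
    have h1 : 0 ≤ (1 - ρ) / ℓ := div_nonneg (by linarith) (by linarith)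
    rw [hκ]
    linarith
  have hsum : ∀ n : ℕ, ∑ j ∈ Finset.Icc 1 n, w j ≤ κ * n := by
    intro n
    have h1 : ∀ j ∈ Finset.Icc 1 n, w j ≤ ρ + (if ℓ ∣ j then 1 - ρ else 0) := by
      intro j _
      split_ifs with hj
      · have := hWz1 (j : ZMod ℓ)
        change Wz (j : ZMod ℓ) ≤ _
        linarith
      · rw [add_zero]
        exact hρ _ fun h => hj ((ZMod.natCast_eq_zero_iff _ _).1 h)
    refine (Finset.sum_le_sum h1).trans ?_
    rw [Finset.sum_add_distrib, Finset.sum_const, ← Finset.sum_filter, Finset.sum_const,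
      Nat.card_Icc, Nat.add_sub_cancel, nsmul_eq_mul, nsmul_eq_mul]
    have h2 : ((Finset.Icc 1 n).filter fun j => ℓ ∣ j).card = n / ℓ := by
      have h3 := Nat.Ioc_filter_dvd_card_eq_div n ℓ
      rw [← h3]
      rfl
    rw [h2]
    have h3 : ((n / ℓ : ℕ) : ℝ) ≤ (n : ℝ) / ℓ := Nat.cast_div_le
    have h4 : ((n / ℓ : ℕ) : ℝ) * (1 - ρ) ≤ (n : ℝ) / ℓ * (1 - ρ) :=
      mul_le_mul_of_nonneg_right h3 (by linarith)
    rw [hκ]
    have h5 : (ρ + (1 - ρ) / ℓ) * n = n * ρ + (n : ℝ) / ℓ * (1 - ρ) := by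
      field_simp
    rw [h5]
    linarith
  have hw0 : ∀ j, 0 ≤ w j := fun j => hWz0 _
  have hw1 : ∀ j, w j ≤ 1 := fun j => hWz1 _
  have hq : (0 : ℝ) < (Nat.card F : ℝ) := by exact_mod_cast Nat.card_pos
  obtain ⟨n₀, h0⟩ := pphal_lim (fun n => pphG F w n / (Nat.card F : ℝ) ^ n) w κ hκ0 hκ1
    (by simp only [pphal_zero, pow_zero, div_one]; exact le_refl _)
    (fun n => div_nonneg (pphal_nonneg F hw0 n) (pow_nonneg hq.le _)) hw0 hw1 hsum
    (fun n => pphal_rec hSuPsi F hw0 n) ε hε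
  refine ⟨n₀, fun n hn => ?_⟩
  have h1 := h0 n hn
  rw [div_le_iff₀ (pow_pos hq n)] at h1
  refine le_trans ?_ h1
  refine (norm_sum_le _ _).trans ?_
  rw [pphG]
  have hsub : gs F pr n ⊆ ps F n := Finset.filter_subset _ _
  refine le_trans (le_of_eq ?_) (Finset.sum_le_sum_of_subset_of_nonneg hsub fun _ _ _ =>
    Finset.prod_nonneg fun _ _ => hw0 _)
  refine Finset.sum_congr rfl fun t _ => ?_
  rw [norm_prod]

end MP72e2e6
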