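import Pool.Agent.Lib.MP_72e2e6_nt.PpStmt

/-!
# MP_72e2e6_nt: the inner sum over sets of primes (PpIn)
-/

namespace MP72e2e6

open Polynomial

universe u

theorem ppin_mem_irr {F : Type u} [Field F] [Finite F] {n : ℕ} {P : F[X]} :
    P ∈ irr F n ↔ (P.Monic ∧ P.natDegree = n) ∧ Irreducible P := by
  classical
  rw [irr, Finset.mem_filter, mem_mon]

theorem ppin_norm {F : Type u} [Field F] {ℓ : ℕ} (hℓ : ℓ.Prime) {φ : F[X] → ℂ}
    (hφ : IsChL ℓ φ) (h : F[X]) : ‖φ h‖ ≤ 1 := by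
  rcases hφ.val h with h0 | h1
  · rw [h0, norm_zero]
    exact zero_le_one
  · have h2 : ‖φ h‖ ^ ℓ = 1 := by rw [← norm_pow, h1, norm_one]
    exact le_of_eq ((pow_eq_one_iff_of_nonneg (norm_nonneg _) hℓ.ne_zero).mp h2)

theorem ppin_geom {q : ℕ} (hq : 4 ≤ q) (n : ℕ) :
    ∑ d ∈ Finset.Icc 1 n, (q : ℝ) ^ d ≤ 2 * (q : ℝ) ^ n := by
  have hq' : (4 : ℝ) ≤ (q : ℝ) := by exact_mod_cast hq
  induction n with
  | zero => simp
  | succ n ih =>
    rw [Finset.sum_Icc_succ_top (by omega)]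
    have h1 : 0 < (q : ℝ) ^ n := by positivity
    have h2 : (q : ℝ) ^ (n + 1) = (q : ℝ) ^ n * q := pow_succ _ _
    nlinarith

theorem ppin_irr_sum (hSuPsi : StmtSuPsi.{u}) {F : Type u} [Field F] [Finite F] {ℓ : ℕ}
    (hℓ : ℓ.Prime) (hq : 4 ≤ Nat.card F) {φ : F[X] → ℂ} (hφ : IsChL ℓ φ) {j : ℕ} (hj : 1 ≤ j) :
    ‖(j : ℂ) * ∑ P ∈ irr F j, φ P‖ ≤ ‖psiC φ j‖ + 2 * (Nat.card F : ℝ) ^ (j / 2) := by
  classical
  obtain ⟨-, -, -, -, hirr⟩ := hSuPsi F ℓ hℓ
  have h1 : psiC φ j = (j : ℂ) * ∑ P ∈ irr F j, φ P +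
      ∑ d ∈ j.properDivisors, ∑ P ∈ irr F d, (d : ℂ) * φ P ^ (j / d) := by
    rw [psiC, ← Nat.cons_self_properDivisors (by omega : j ≠ 0), Finset.sum_cons,
      Nat.div_self (by omega : 0 < j), Finset.mul_sum]
    congr 1
    refine Finset.sum_congr rfl fun P _ => ?_
    rw [pow_one]
  have h2 : (j : ℂ) * ∑ P ∈ irr F j, φ P = psiC φ j -
      ∑ d ∈ j.properDivisors, ∑ P ∈ irr F d, (d : ℂ) * φ P ^ (j / d) := by
    rw [h1]
    ring
  rw [h2]
  refine le_trans (norm_sub_le _ _) ?_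
  have h3 : ‖∑ d ∈ j.properDivisors, ∑ P ∈ irr F d, (d : ℂ) * φ P ^ (j / d)‖ ≤
      2 * (Nat.card F : ℝ) ^ (j / 2) := by
    refine le_trans (norm_sum_le _ _) ?_
    have h4 : ∀ d ∈ j.properDivisors, ‖∑ P ∈ irr F d, (d : ℂ) * φ P ^ (j / d)‖ ≤
        (Nat.card F : ℝ) ^ d := by
      intro d hd
      have hd1 : 1 ≤ d := Nat.pos_of_mem_properDivisors hd
      refine le_trans (norm_sum_le _ _) ?_
      have h5 : ∀ P ∈ irr F d, ‖(d : ℂ) * φ P ^ (j / d)‖ ≤ (d : ℝ) := by
        intro P _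
        rw [norm_mul, norm_pow, Complex.norm_natCast]
        have h6 : ‖φ P‖ ^ (j / d) ≤ 1 := pow_le_one₀ (norm_nonneg _) (ppin_norm hℓ hφ P)
        nlinarith [Nat.cast_nonneg (α := ℝ) d]
      refine le_trans (Finset.sum_le_sum h5) ?_
      rw [Finset.sum_const, nsmul_eq_mul, mul_comm]
      exact_mod_cast hirr d hd1
    refine le_trans (Finset.sum_le_sum h4) (le_trans ?_ (ppin_geom hq (j / 2)))
    apply Finset.sum_le_sum_of_subset_of_nonneg
    · intro d hd
      have hd1 : 1 ≤ d := Nat.pos_of_mem_properDivisors hd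
      rw [Nat.mem_properDivisors] at hd
      obtain ⟨⟨c, hc⟩, hlt⟩ := hd
      rw [Finset.mem_Icc]
      refine ⟨hd1, ?_⟩
      have hc2 : 2 ≤ c := by
        by_contra h
        have h7 : c = 0 ∨ c = 1 := by omega
        rcases h7 with rfl | rfl
        · omega
        · omega
      rw [Nat.le_div_iff_mul_le (by norm_num), hc]
      exact Nat.mul_le_mul_left d hc2
    · intro d _ _
      positivity
  linarith

/-- the number of primes of degree `j` in a finite set of bounded total degree -/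
theorem ppin_count (hSuPsi : StmtSuPsi.{u}) {F : Type u} [Field F] [Finite F]
    {j m : ℕ} (hj : 1 ≤ j) {T : Finset F[X]} (hT : ∑ P ∈ T, P.natDegree ≤ m) [DecidableEq F[X]] :
    (j : ℝ) * (((irr F j).filter (fun P => P ∈ T)).card : ℝ) ≤
      min ((Nat.card F : ℝ) ^ j) (m : ℝ) := by
  obtain ⟨-, -, -, -, hirr⟩ := hSuPsi F 2 Nat.prime_two
  apply le_min
  · have h1 : ((irr F j).filter (fun P => P ∈ T)).card ≤ (irr F j).card :=
      Finset.card_filter_le _ _
    have h2 : j * ((irr F j).filter (fun P => P ∈ T)).card ≤ Nat.card F ^ j :=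
      le_trans (Nat.mul_le_mul_left j h1) (hirr j hj)
    exact_mod_cast h2
  · have h3 : j * ((irr F j).filter (fun P => P ∈ T)).card ≤ m := by
      refine le_trans ?_ hT
      have h4 : ∑ P ∈ (irr F j).filter (fun P => P ∈ T), P.natDegree =
          j * ((irr F j).filter (fun P => P ∈ T)).card := by
        rw [Finset.sum_congr rfl (g := fun _ => j), Finset.sum_const, smul_eq_mul, mul_comm]
        intro P hP
        exact (ppin_mem_irr.mp (Finset.mem_filter.mp hP).1).1.2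
      rw [← h4]
      apply Finset.sum_le_sum_of_subset
      intro P hP
      exact (Finset.mem_filter.mp hP).2
    exact_mod_cast h3

theorem ppin_GG (hRec : StmtPpRec.{u}) (hNum : StmtPpNum) (F : Type u) [Field F] [Finite F]
    {z : ℝ} (hz : 0 ≤ z) (hz1 : z ≤ 1) (n : ℕ) : GG F z n ≤ (Nat.card F : ℝ) ^ n := by
  have hq : (0 : ℝ) < (Nat.card F : ℝ) := by exact_mod_cast Nat.card_pos
  have h1 := hNum.2.2 z _ hz hz1 (hRec F z hz).2 n
  have h2 : ((n : ℝ) + 1) ^ (z - 1) ≤ 1 := by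
    apply Real.rpow_le_one_of_one_le_of_nonpos
    · have : (0 : ℝ) ≤ n := Nat.cast_nonneg n
      linarith
    · linarith
  have h3 : GG F z n / (Nat.card F : ℝ) ^ n ≤ 1 := le_trans h1 h2
  rw [div_le_one (pow_pos hq n)] at h3
  exact h3

open Classical in
/-- the sets which contain a given prime -/
theorem ppin_fix (F : Type u) [Field F] [Finite F] (z : ℂ) (φ : F[X] → ℂ) (R : Finset F[X])
    {k j : ℕ} (hj : j ≤ k) {P : F[X]} (hP : P ∈ irr F j) (hR : P ∉ R) :
    ∑ t ∈ ((ps F k).filter (fun t => Disjoint t R)).filter (fun t => P ∈ t),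
      z ^ t.card * ∏ Q ∈ t, φ Q =
    ∑ t ∈ ((ps F (k - j)).filter (fun t => Disjoint t R)).filter (fun t => P ∉ t),
      z ^ (t.card + 1) * (∏ Q ∈ t, φ Q) * φ P := by
  rw [ppin_mem_irr] at hP
  refine Finset.sum_nbij' (fun t => t.erase P) (fun t => insert P t) ?_ ?_ ?_ ?_ ?_
  · intro t ht
    simp only [Finset.mem_filter] at ht ⊢
    obtain ⟨⟨h1, h2⟩, h3⟩ := ht
    rw [mem_ps] at h1 ⊢
    refine ⟨⟨⟨fun Q hQ => h1.1 Q (Finset.mem_of_mem_erase hQ), ?_⟩, ?_⟩,
      Finset.notMem_erase P t⟩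
    · have h4 : P.natDegree + ∑ Q ∈ t.erase P, Q.natDegree = ∑ Q ∈ t, Q.natDegree :=
        Finset.add_sum_erase t (fun Q : F[X] => Q.natDegree) h3
      rw [h1.2, hP.1.2] at h4
      omega
    · exact Finset.disjoint_of_subset_left (Finset.erase_subset _ _) h2
  · intro t ht
    simp only [Finset.mem_filter] at ht ⊢
    obtain ⟨⟨h1, h2⟩, h3⟩ := ht
    rw [mem_ps] at h1 ⊢
    refine ⟨⟨⟨fun Q hQ => ?_, ?_⟩, ?_⟩, Finset.mem_insert_self P t⟩
    · rw [Finset.mem_insert] at hQ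
      rcases hQ with rfl | hQ
      · exact ⟨hP.1.1, hP.2⟩
      · exact h1.1 Q hQ
    · rw [Finset.sum_insert h3, h1.2, hP.1.2]
      omega
    · rw [Finset.disjoint_insert_left]
      exact ⟨hR, h2⟩
  · intro t ht
    simp only [Finset.mem_filter] at ht
    exact Finset.insert_erase ht.2
  · intro t ht
    simp only [Finset.mem_filter] at ht
    exact Finset.erase_insert ht.2
  · intro t ht
    simp only [Finset.mem_filter] at ht
    rw [Finset.card_erase_add_one ht.2, ← Finset.prod_erase_mul t φ ht.2]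
    ring

open Classical in
theorem ppin_swap (F : Type u) [Field F] [Finite F] (z : ℂ) (φ : F[X] → ℂ) (R : Finset F[X])
    (k : ℕ) :
    (k : ℂ) * ∑ t ∈ (ps F k).filter (fun t => Disjoint t R), z ^ t.card * ∏ P ∈ t, φ P =
    ∑ j ∈ Finset.Icc 1 k, ∑ t ∈ (ps F (k - j)).filter (fun t => Disjoint t R),
      z ^ (t.card + 1) * (∏ Q ∈ t, φ Q) *
        ((j : ℂ) * ∑ P ∈ (irr F j).filter (fun P => P ∉ R ∪ t), φ P) := by
  have h1 : (k : ℂ) * ∑ t ∈ (ps F k).filter (fun t => Disjoint t R),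
      z ^ t.card * ∏ P ∈ t, φ P =
      ∑ j ∈ Finset.range (k + 1), ∑ P ∈ irr F j, (j : ℂ) *
      ∑ t ∈ ((ps F k).filter (fun t => Disjoint t R)).filter (fun t => P ∈ t),
        z ^ t.card * ∏ P ∈ t, φ P := by
    have h2 : (k : ℂ) * ∑ t ∈ (ps F k).filter (fun t => Disjoint t R),
        z ^ t.card * ∏ P ∈ t, φ P =
        ∑ t ∈ (ps F k).filter (fun t => Disjoint t R), ∑ j ∈ Finset.range (k + 1),
        ∑ P ∈ irr F j, (j : ℂ) * (if P ∈ t then z ^ t.card * ∏ P ∈ t, φ P else 0) := by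
      rw [Finset.mul_sum]
      refine Finset.sum_congr rfl fun t ht => ?_
      have ht := (Finset.mem_filter.mp ht).1
      rw [mem_ps] at ht
      have h3 : (k : ℂ) = ∑ P ∈ t, (P.natDegree : ℂ) := by
        rw [← ht.2]
        push_cast
        rfl
      rw [h3, Finset.sum_mul, ← Finset.sum_fiberwise_of_maps_to (t := Finset.range (k + 1))
        (g := fun P : F[X] => P.natDegree)]
      · refine Finset.sum_congr rfl fun j _ => ?_
        have h4 : t.filter (fun P : F[X] => P.natDegree = j) =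
            (irr F j).filter (fun P => P ∈ t) := by
          ext P
          rw [Finset.mem_filter, Finset.mem_filter, ppin_mem_irr]
          constructor
          · rintro ⟨hP, hd⟩
            exact ⟨⟨⟨(ht.1 P hP).1, hd⟩, (ht.1 P hP).2⟩, hP⟩
          · rintro ⟨⟨⟨_, hd⟩, _⟩, hP⟩
            exact ⟨hP, hd⟩
        rw [h4, Finset.sum_filter]
        refine Finset.sum_congr rfl fun P hP => ?_
        rw [ppin_mem_irr] at hP
        rw [hP.1.2]
        split_ifs
        · rfl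
        · rw [mul_zero]
      · intro P hP
        rw [Finset.mem_range, ← ht.2]
        exact Nat.lt_succ_of_le (Finset.single_le_sum (f := fun P : F[X] => P.natDegree)
          (fun _ _ => Nat.zero_le _) hP)
    rw [h2, Finset.sum_comm]
    refine Finset.sum_congr rfl fun j _ => ?_
    rw [Finset.sum_comm]
    refine Finset.sum_congr rfl fun P _ => ?_
    rw [← Finset.mul_sum]
    exact congrArg (fun x : ℂ => (j : ℂ) * x) (Finset.sum_filter _ _).symm
  rw [h1]
  have h5 : Finset.Icc 1 k ⊆ Finset.range (k + 1) := by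
    intro j hj
    rw [Finset.mem_Icc] at hj
    rw [Finset.mem_range]
    omega
  rw [← Finset.sum_subset h5]
  · refine Finset.sum_congr rfl fun j hj => ?_
    rw [Finset.mem_Icc] at hj
    have h6 : ∑ P ∈ irr F j, (j : ℂ) *
        ∑ t ∈ ((ps F k).filter (fun t => Disjoint t R)).filter (fun t => P ∈ t),
        z ^ t.card * ∏ P ∈ t, φ P =
        ∑ P ∈ irr F j, ∑ t ∈ (ps F (k - j)).filter (fun t => Disjoint t R),
          (if P ∉ R ∪ t then z ^ (t.card + 1) * (∏ Q ∈ t, φ Q) * ((j : ℂ) * φ P) else 0) := by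
      refine Finset.sum_congr rfl fun P hP => ?_
      by_cases hR : P ∈ R
      · have h7 : ((ps F k).filter (fun t => Disjoint t R)).filter (fun t => P ∈ t) = ∅ := by
          rw [Finset.filter_eq_empty_iff]
          intro t ht hPt
          have h8 := (Finset.mem_filter.mp ht).2
          exact Finset.disjoint_left.mp h8 hPt hR
        rw [h7, Finset.sum_empty, mul_zero]
        symm
        refine Finset.sum_eq_zero fun t _ => ?_
        rw [if_neg]
        rw [not_not, Finset.mem_union]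
        exact Or.inl hR
      · rw [ppin_fix F z φ R hj.2 hP hR, Finset.mul_sum, Finset.sum_filter]
        refine Finset.sum_congr rfl fun t _ => ?_
        have h9 : (P ∉ R ∪ t) ↔ P ∉ t := by
          rw [Finset.mem_union, not_or]
          exact ⟨fun h => h.2, fun h => ⟨hR, h⟩⟩
        by_cases hPt : P ∈ t
        · rw [if_neg (not_not.mpr hPt), if_neg (fun h => (h9.mp h) hPt)]
        · rw [if_pos hPt, if_pos (h9.mpr hPt)]
          ring
    rw [h6, Finset.sum_comm]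
    refine Finset.sum_congr rfl fun t _ => ?_
    rw [Finset.mul_sum, Finset.mul_sum, Finset.sum_filter]
  · intro j hj hj2
    rw [Finset.mem_range] at hj
    rw [Finset.mem_Icc] at hj2
    have hj0 : j = 0 := by omega
    rw [hj0]
    simp

theorem ppin_num {q k m : ℕ} (hq : 4 ≤ q) :
    ∑ j ∈ Finset.Icc 1 k, (2 * (q : ℝ) ^ (j / 2) / (q : ℝ) ^ j) ≤ 2 ∧
    ∑ j ∈ Finset.Icc 1 k, (min ((q : ℝ) ^ j) (m : ℝ) / (q : ℝ) ^ j) ≤
      (Nat.log 2 (m + 2) : ℝ) + 1 := by
  have hq' : (4 : ℝ) ≤ (q : ℝ) := by exact_mod_cast hq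
  have hgeo : ∀ s : Finset ℕ, (∀ j ∈ s, 1 ≤ j) → ∑ j ∈ s, (1 / 2 : ℝ) ^ j ≤ 1 := by
    intro s hs
    have h1 : s ⊆ Finset.Icc 1 (s.sup id) := by
      intro j hj
      rw [Finset.mem_Icc]
      exact ⟨hs j hj, Finset.le_sup (f := id) hj⟩
    refine le_trans (Finset.sum_le_sum_of_subset_of_nonneg h1 fun _ _ _ => by positivity) ?_
    have h2 : ∀ n : ℕ, ∑ j ∈ Finset.Icc 1 n, (1 / 2 : ℝ) ^ j = 1 - (1 / 2) ^ n := by
      intro n
      induction n with
      | zero => simp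
      | succ n ih =>
        rw [Finset.sum_Icc_succ_top (by omega), ih]
        ring
    rw [h2]
    have h3 : (0 : ℝ) ≤ (1 / 2) ^ (s.sup id) := by positivity
    linarith
  constructor
  · have h1 : ∀ j ∈ Finset.Icc 1 k, 2 * (q : ℝ) ^ (j / 2) / (q : ℝ) ^ j ≤
        2 * (1 / 2 : ℝ) ^ j := by
      intro j _
      have hqj : 0 < (q : ℝ) ^ j := by positivity
      rw [div_le_iff₀ hqj]
      have h2 : (q : ℝ) ^ j = (q : ℝ) ^ (j / 2) * (q : ℝ) ^ (j - j / 2) := by
        rw [← pow_add]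
        congr 1
        omega
      have h3 : (2 : ℝ) ^ j ≤ (q : ℝ) ^ (j - j / 2) := by
        calc (2 : ℝ) ^ j ≤ (2 : ℝ) ^ (2 * (j - j / 2)) :=
              pow_le_pow_right₀ (by norm_num) (by omega)
          _ = (4 : ℝ) ^ (j - j / 2) := by
              rw [pow_mul]
              norm_num
          _ ≤ (q : ℝ) ^ (j - j / 2) := pow_le_pow_left₀ (by norm_num) hq' _
      have h4 : 0 < (q : ℝ) ^ (j / 2) := by positivity
      have h5 : (1 / 2 : ℝ) ^ j * (2 : ℝ) ^ j = 1 := by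
        rw [← mul_pow]
        norm_num
      have h6 : 0 ≤ (1 / 2 : ℝ) ^ j := by positivity
      calc 2 * (q : ℝ) ^ (j / 2) = 2 * (q : ℝ) ^ (j / 2) * ((1 / 2 : ℝ) ^ j * (2 : ℝ) ^ j) := by
            rw [h5, mul_one]
        _ ≤ 2 * (q : ℝ) ^ (j / 2) * ((1 / 2 : ℝ) ^ j * (q : ℝ) ^ (j - j / 2)) := by
            apply mul_le_mul_of_nonneg_left _ (by positivity)
            exact mul_le_mul_of_nonneg_left h3 h6
        _ = 2 * (1 / 2 : ℝ) ^ j * (q : ℝ) ^ j := by
            rw [h2]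
            ring
    refine le_trans (Finset.sum_le_sum h1) ?_
    rw [← Finset.mul_sum]
    have := hgeo (Finset.Icc 1 k) (fun j hj => (Finset.mem_Icc.mp hj).1)
    linarith
  · have h1 : ∀ j ∈ Finset.Icc 1 k, min ((q : ℝ) ^ j) (m : ℝ) / (q : ℝ) ^ j ≤
        (if j ≤ Nat.log 2 (m + 2) then (1 : ℝ) else 0) + (1 / 2 : ℝ) ^ j := by
      intro j _
      have hqj : 0 < (q : ℝ) ^ j := by positivity
      have h6 : 0 ≤ (1 / 2 : ℝ) ^ j := by positivity
      split_ifs with hjL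
      · have h2 : min ((q : ℝ) ^ j) (m : ℝ) / (q : ℝ) ^ j ≤ 1 := by
          rw [div_le_one hqj]
          exact min_le_left _ _
        linarith
      · rw [zero_add, div_le_iff₀ hqj]
        refine le_trans (min_le_right _ _) ?_
        have h3 : m + 2 < 2 ^ j := by
          have h4 : m + 2 < 2 ^ (Nat.log 2 (m + 2) + 1) :=
            Nat.lt_pow_succ_log_self (by norm_num) _
          exact lt_of_lt_of_le h4 (Nat.pow_le_pow_right (by norm_num) (by omega))
        have h4 : (m : ℝ) ≤ 2 ^ j := by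
          have : m ≤ 2 ^ j := by omega
          exact_mod_cast this
        have h5 : (4 : ℝ) ^ j ≤ (q : ℝ) ^ j := pow_le_pow_left₀ (by norm_num) hq' _
        have h7 : (1 / 2 : ℝ) ^ j * (4 : ℝ) ^ j = 2 ^ j := by
          rw [← mul_pow]
          norm_num
        nlinarith [mul_le_mul_of_nonneg_left h5 h6]
    refine le_trans (Finset.sum_le_sum h1) ?_
    rw [Finset.sum_add_distrib, ← Finset.sum_filter]
    have h2 := hgeo (Finset.Icc 1 k) (fun j hj => (Finset.mem_Icc.mp hj).1)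
    have h3 : ∑ _j ∈ (Finset.Icc 1 k).filter (fun j => j ≤ Nat.log 2 (m + 2)), (1 : ℝ) ≤
        (Nat.log 2 (m + 2) : ℝ) := by
      rw [Finset.sum_const, nsmul_eq_mul, mul_one]
      have h4 : ((Finset.Icc 1 k).filter (fun j => j ≤ Nat.log 2 (m + 2))).card ≤
          (Finset.Icc 1 (Nat.log 2 (m + 2))).card := by
        apply Finset.card_le_card
        intro j hj
        rw [Finset.mem_filter, Finset.mem_Icc] at hj
        rw [Finset.mem_Icc]
        exact ⟨hj.1.1, hj.2⟩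
      rw [Nat.card_Icc] at h4
      have h5 : ((Finset.Icc 1 k).filter (fun j => j ≤ Nat.log 2 (m + 2))).card ≤
          Nat.log 2 (m + 2) := by omega
      exact_mod_cast h5
    linarith

theorem tPpIn.{v} (hSuPsi : StmtSuPsi.{v}) (hRec : StmtPpRec.{v}) (hNum : StmtPpNum) :
    StmtPpIn.{v} := by
  classical
  intro F _ _ ℓ hℓ hq φ hφ Y hY hpsi z hz hz1 R k m hk hm
  have hq0 : (0 : ℝ) < (Nat.card F : ℝ) := by exact_mod_cast Nat.card_pos
  have hk0 : (0 : ℝ) < (k : ℝ) := by exact_mod_cast hk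
  rw [le_div_iff₀ hk0]
  have h1 := ppin_swap F (z : ℂ) φ R k
  have h2 : ‖∑ t ∈ (ps F k).filter (fun t => Disjoint t R), (z : ℂ) ^ t.card * ∏ P ∈ t, φ P‖ *
      (k : ℝ) = ‖(k : ℂ) * ∑ t ∈ (ps F k).filter (fun t => Disjoint t R),
        (z : ℂ) ^ t.card * ∏ P ∈ t, φ P‖ := by
    rw [norm_mul, Complex.norm_natCast, mul_comm]
  rw [h2, h1]
  have h3 : ∀ j ∈ Finset.Icc 1 k, ∀ t ∈ (ps F (k - j)).filter (fun t => Disjoint t R),
      ‖(z : ℂ) ^ (t.card + 1) * (∏ Q ∈ t, φ Q) *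
        ((j : ℂ) * ∑ P ∈ (irr F j).filter (fun P => P ∉ R ∪ t), φ P)‖ ≤
      z ^ t.card * (‖psiC φ j‖ + 2 * (Nat.card F : ℝ) ^ (j / 2) +
        min ((Nat.card F : ℝ) ^ j) (m : ℝ)) := by
    intro j hj t ht
    rw [Finset.mem_Icc] at hj
    obtain ⟨ht1, ht2⟩ := Finset.mem_filter.mp ht
    rw [mem_ps] at ht1
    rw [norm_mul, norm_mul, norm_pow, Complex.norm_real, Real.norm_of_nonneg hz]
    have h4 : z ^ (t.card + 1) * ‖∏ Q ∈ t, φ Q‖ ≤ z ^ t.card := by
      have h5 : ‖∏ Q ∈ t, φ Q‖ ≤ 1 := by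
        rw [norm_prod]
        exact Finset.prod_le_one (fun Q _ => norm_nonneg _) (fun Q _ => ppin_norm hℓ hφ Q)
      have h6 : z ^ (t.card + 1) ≤ z ^ t.card := pow_le_pow_of_le_one hz hz1 (Nat.le_succ _)
      calc z ^ (t.card + 1) * ‖∏ Q ∈ t, φ Q‖ ≤ z ^ (t.card + 1) * 1 :=
            mul_le_mul_of_nonneg_left h5 (pow_nonneg hz _)
        _ ≤ z ^ t.card := by rw [mul_one]; exact h6
    have h7 : ‖(j : ℂ) * ∑ P ∈ (irr F j).filter (fun P => P ∉ R ∪ t), φ P‖ ≤
        ‖psiC φ j‖ + 2 * (Nat.card F : ℝ) ^ (j / 2) + min ((Nat.card F : ℝ) ^ j) (m : ℝ) := by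
      have h8 : (j : ℂ) * ∑ P ∈ (irr F j).filter (fun P => P ∉ R ∪ t), φ P =
          (j : ℂ) * ∑ P ∈ irr F j, φ P -
            (j : ℂ) * ∑ P ∈ (irr F j).filter (fun P => P ∈ R ∪ t), φ P := by
        rw [← Finset.sum_filter_add_sum_filter_not (irr F j) (fun P => P ∈ R ∪ t)]
        ring
      rw [h8]
      refine le_trans (norm_sub_le _ _) (add_le_add (ppin_irr_sum hSuPsi hℓ hq hφ hj.1) ?_)
      have h9 : ‖(j : ℂ) * ∑ P ∈ (irr F j).filter (fun P => P ∈ R ∪ t), φ P‖ ≤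
          (j : ℝ) * (((irr F j).filter (fun P => P ∈ R ∪ t)).card : ℝ) := by
        rw [norm_mul, Complex.norm_natCast]
        apply mul_le_mul_of_nonneg_left _ (Nat.cast_nonneg _)
        refine le_trans (norm_sum_le _ _) ?_
        refine le_trans (Finset.sum_le_sum fun P _ => ppin_norm hℓ hφ P) ?_
        rw [Finset.sum_const, nsmul_eq_mul, mul_one]
      refine le_trans h9 (ppin_count hSuPsi hj.1 ?_)
      have h10 : ∑ P ∈ R ∪ t, P.natDegree ≤ ∑ P ∈ R, P.natDegree + ∑ P ∈ t, P.natDegree := by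
        rw [← Finset.sum_union_inter]
        exact Nat.le_add_right _ _
      rw [ht1.2] at h10
      omega
    have h11 : 0 ≤ ‖psiC φ j‖ + 2 * (Nat.card F : ℝ) ^ (j / 2) +
        min ((Nat.card F : ℝ) ^ j) (m : ℝ) := by
      have h12 : 0 ≤ min ((Nat.card F : ℝ) ^ j) (m : ℝ) :=
        le_min (by positivity) (Nat.cast_nonneg _)
      positivity
    exact mul_le_mul h4 h7 (norm_nonneg _) (pow_nonneg hz _)
  refine le_trans (norm_sum_le _ _) ?_
  have h13 : ∀ j ∈ Finset.Icc 1 k, ‖∑ t ∈ (ps F (k - j)).filter (fun t => Disjoint t R),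
      (z : ℂ) ^ (t.card + 1) * (∏ Q ∈ t, φ Q) *
        ((j : ℂ) * ∑ P ∈ (irr F j).filter (fun P => P ∉ R ∪ t), φ P)‖ ≤
      (Nat.card F : ℝ) ^ k * (‖psiC φ j‖ / (Nat.card F : ℝ) ^ j +
        2 * (Nat.card F : ℝ) ^ (j / 2) / (Nat.card F : ℝ) ^ j +
        min ((Nat.card F : ℝ) ^ j) (m : ℝ) / (Nat.card F : ℝ) ^ j) := by
    intro j hj
    refine le_trans (norm_sum_le _ _) (le_trans (Finset.sum_le_sum (h3 j hj)) ?_)
    rw [Finset.mem_Icc] at hj
    rw [← Finset.sum_mul]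
    have h14 : ∑ t ∈ (ps F (k - j)).filter (fun t => Disjoint t R), z ^ t.card ≤
        (Nat.card F : ℝ) ^ (k - j) := by
      refine le_trans (Finset.sum_le_sum_of_subset_of_nonneg (Finset.filter_subset _ _)
        fun t _ _ => pow_nonneg hz _) ?_
      exact ppin_GG hRec hNum F hz hz1 (k - j)
    have h11 : 0 ≤ ‖psiC φ j‖ + 2 * (Nat.card F : ℝ) ^ (j / 2) +
        min ((Nat.card F : ℝ) ^ j) (m : ℝ) := by
      have h12 : 0 ≤ min ((Nat.card F : ℝ) ^ j) (m : ℝ) :=
        le_min (by positivity) (Nat.cast_nonneg _)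
      positivity
    refine le_trans (mul_le_mul_of_nonneg_right h14 h11) (le_of_eq ?_)
    have h15 : (Nat.card F : ℝ) ^ k = (Nat.card F : ℝ) ^ (k - j) * (Nat.card F : ℝ) ^ j := by
      rw [← pow_add]
      congr 1
      omega
    have h16 : (Nat.card F : ℝ) ^ j ≠ 0 := ne_of_gt (pow_pos hq0 j)
    rw [h15]
    field_simp
  refine le_trans (Finset.sum_le_sum h13) ?_
  rw [← Finset.mul_sum, Finset.sum_add_distrib, Finset.sum_add_distrib]
  obtain ⟨h17, h18⟩ := ppin_num (q := Nat.card F) (k := k) (m := m) hq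
  have h19 := hpsi k
  have h20 : (1 : ℝ) ≤ (Nat.log 2 (m + 2) : ℝ) := by
    have : 0 < Nat.log 2 (m + 2) := Nat.log_pos (by norm_num) (by omega)
    exact_mod_cast this
  have h21 : 0 < (Nat.card F : ℝ) ^ k := pow_pos hq0 k
  nlinarith

end MP72e2e6
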