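import Pool.Agent.Lib.MP_72e2e6_nt.PpStmt

/-!
# MP_72e2e6_nt: positive proportion of twists, module PpLim
-/

namespace MP72e2e6

open Filter Asymptotics

theorem tPpLim : StmtPpLim := by
  intro K s ε hs hε
  -- `L + 1 ≤ 4 * log (n + 2)`
  have h1 : ∀ n : ℕ, ((Nat.log 2 (n + 2) : ℝ) + 1) ≤ 4 * Real.log ((n : ℝ) + 2) := by
    intro n
    have hl2 : (0 : ℝ) < Real.log 2 := Real.log_pos (by norm_num)
    have hl2' : (1 : ℝ) / 2 ≤ Real.log 2 := by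
      have := Real.log_two_gt_d9
      linarith
    have h2 : ((2 : ℕ) : ℝ) ^ Nat.log 2 (n + 2) ≤ (n : ℝ) + 2 := by
      have := Nat.pow_log_le_self 2 (x := n + 2) (by omega)
      exact_mod_cast this
    have h3 : (Nat.log 2 (n + 2) : ℝ) * Real.log 2 ≤ Real.log ((n : ℝ) + 2) := by
      rw [← Real.log_pow]
      exact Real.log_le_log (by positivity) (by exact_mod_cast h2)
    have h4 : Real.log 2 ≤ Real.log ((n : ℝ) + 2) :=
      Real.log_le_log (by norm_num) (by linarith [n.cast_nonneg (α := ℝ)])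
    have h5 : (Nat.log 2 (n + 2) : ℝ) * (1 / 2) ≤ (Nat.log 2 (n + 2) : ℝ) * Real.log 2 := by
      gcongr
    linarith
  -- the limit
  have h2 : Tendsto (fun x : ℝ => (4 * Real.log x) ^ K / (x / 2) ^ s) atTop (nhds 0) := by
    have h3 := isLittleO_log_rpow_rpow_atTop (r := (K : ℝ)) hs
    have h4 := h3.tendsto_div_nhds_zero
    have h5 : Tendsto (fun x : ℝ => ((4 : ℝ) ^ K * 2 ^ s) * (Real.log x ^ (K : ℝ) / x ^ s)) atTop
        (nhds (((4 : ℝ) ^ K * 2 ^ s) * 0)) := h4.const_mul _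
    rw [mul_zero] at h5
    refine h5.congr' ?_
    filter_upwards [eventually_gt_atTop 1] with x hx
    rw [Real.rpow_natCast, Real.div_rpow (by linarith) (by norm_num), mul_pow]
    have : (2 : ℝ) ^ s ≠ 0 := by positivity
    have : x ^ s ≠ 0 := by
      have : (0 : ℝ) < x ^ s := Real.rpow_pos_of_pos (by linarith) _
      exact this.ne'
    field_simp
  have h3 := (h2.eventually (gt_mem_nhds hε)).and (eventually_ge_atTop (4 : ℝ))
  obtain ⟨x₀, hx₀⟩ := eventually_atTop.1 h3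
  refine ⟨max 2 ⌈x₀⌉₊, fun n hn => ?_⟩
  have hn2 : 2 ≤ n := (le_max_left _ _).trans hn
  have hn2' : (2 : ℝ) ≤ n := by exact_mod_cast hn2
  have hnx : x₀ ≤ (n : ℝ) + 2 := by
    have h4 : ⌈x₀⌉₊ ≤ n := (le_max_right _ _).trans hn
    have h5 : x₀ ≤ (⌈x₀⌉₊ : ℝ) := Nat.le_ceil _
    have h6 : ((⌈x₀⌉₊ : ℕ) : ℝ) ≤ n := by exact_mod_cast h4
    linarith
  have h4 := (hx₀ _ hnx).1
  have h5 : ((Nat.log 2 (n + 2) : ℝ) + 1) ^ K ≤ (4 * Real.log ((n : ℝ) + 2)) ^ K := by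
    gcongr
    exact h1 n
  have h6 : (n : ℝ) ^ (-s) ≤ ((((n : ℝ) + 2) / 2) ^ s)⁻¹ := by
    rw [Real.rpow_neg (by linarith)]
    have h7 : (0 : ℝ) < (((n : ℝ) + 2) / 2) ^ s := Real.rpow_pos_of_pos (by linarith) _
    refine inv_anti₀ h7 ?_
    exact Real.rpow_le_rpow (by linarith) (by linarith) hs.le
  have h7 : 0 ≤ (4 * Real.log ((n : ℝ) + 2)) ^ K := by
    have : 0 ≤ Real.log ((n : ℝ) + 2) := Real.log_nonneg (by linarith)
    positivity
  calc ((Nat.log 2 (n + 2) : ℝ) + 1) ^ K * (n : ℝ) ^ (-s) ≤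
      (4 * Real.log ((n : ℝ) + 2)) ^ K * ((((n : ℝ) + 2) / 2) ^ s)⁻¹ :=
        mul_le_mul h5 h6 (Real.rpow_nonneg (by linarith) _) h7
    _ = (4 * Real.log ((n : ℝ) + 2)) ^ K / (((n : ℝ) + 2) / 2) ^ s := (div_eq_mul_inv _ _).symm
    _ ≤ ε := h4.le

end MP72e2e6
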