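import Pool.Agent.Lib.MP_72e2e6_nt.PpStmt

/-!
# MP_72e2e6_nt: positive proportion of twists, module PpLin
-/

namespace MP72e2e6

open Polynomial

universe u

theorem pplin_card (hPpRec : StmtPpRec.{u}) (hPpNum : StmtPpNum) (F : Type u) [Field F]
    [Finite F] (k : ℕ) : ((ps F k).card : ℝ) ≤ (Nat.card F : ℝ) ^ k := by
  have h1 := (hPpRec F 1 zero_le_one).2
  have h2 := hPpNum.2.2 1 _ zero_le_one le_rfl h1 k
  rw [sub_self, Real.rpow_zero] at h2
  have hq : (0 : ℝ) < (Nat.card F : ℝ) ^ k := by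
    have : (0 : ℝ) < (Nat.card F : ℝ) := by exact_mod_cast Nat.card_pos
    positivity
  rw [div_le_iff₀ hq, one_mul] at h2
  refine le_trans (le_of_eq ?_) h2
  rw [GG, Finset.sum_congr rfl fun t _ => one_pow _, Finset.sum_const, nsmul_eq_mul, mul_one]

theorem pplin_sys_symm {F : Type u} [Field F] {ℓ : ℕ} {χ : F → ZMod ℓ} (hr : Rcp χ)
    {s t : Finset F[X]} (hs : ∀ P ∈ s, P.Monic ∧ Irreducible P)
    (ht : ∀ P ∈ t, P.Monic ∧ Irreducible P) (hd : Disjoint s t) : sys χ s t = sys χ t s := by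
  unfold sys
  rw [Finset.sum_comm]
  refine Finset.sum_congr rfl fun Q hQ => Finset.sum_congr rfl fun P hP => ?_
  refine hr P Q (hs P hP).1 (hs P hP).2 (ht Q hQ).1 (ht Q hQ).2 fun h => ?_
  exact Finset.disjoint_left.1 hd hP (h ▸ hQ)

theorem pplin_sum {U M : Type*} [Fintype U] [DecidableEq U] [CommMonoid M] {w w' : U}
    (h : w ≠ w') (φ : U → M) :
    ∏ u, φ u = φ w * (φ w' * ∏ u ∈ (Finset.univ.erase w).erase w', φ u) := by
  rw [Finset.mul_prod_erase _ _ (Finset.mem_erase.2 ⟨h.symm, Finset.mem_univ _⟩),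
    Finset.mul_prod_erase _ _ (Finset.mem_univ _)]

theorem pplin_add {U M : Type*} [Fintype U] [DecidableEq U] [AddCommMonoid M] {w w' : U}
    (h : w ≠ w') (φ : U → M) :
    ∑ u, φ u = φ w + (φ w' + ∑ u ∈ (Finset.univ.erase w).erase w', φ u) := by
  rw [Finset.add_sum_erase _ _ (Finset.mem_erase.2 ⟨h.symm, Finset.mem_univ _⟩),
    Finset.add_sum_erase _ _ (Finset.mem_univ _)]

section

variable {F : Type u} [Field F] {ℓ : ℕ} [NeZero ℓ] {V U : Type} [Fintype V]

theorem pplin_chc (χ : F → ZMod ℓ) (pr : V → F[X]) (α : V → U → ZMod ℓ) (αi : U → ZMod ℓ)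
    (w : U) (P : F[X]) : ‖chc χ pr α αi w P‖ ≤ 1 := by
  unfold chc
  split_ifs
  · rw [norm_zero]
    exact zero_le_one
  · exact (AddChar.norm_apply _ _).le

theorem pplin_norm (χ : F → ZMod ℓ) (pr : V → F[X]) (α : V → U → ZMod ℓ) (αi : U → ZMod ℓ)
    {N : ℕ} (hN : 1 ≤ N) (w : U) (s : Finset F[X]) :
    ‖∏ P ∈ s, ((N : ℂ)⁻¹ * chc χ pr α αi w P)‖ ≤ 1 := by
  rw [norm_prod]
  refine Finset.prod_le_one (fun _ _ => norm_nonneg _) fun P _ => ?_
  rw [norm_mul, norm_inv, Complex.norm_natCast]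
  have h1 : ((N : ℝ))⁻¹ ≤ 1 := inv_le_one_of_one_le₀ (by exact_mod_cast hN)
  exact mul_le_one₀ h1 (norm_nonneg _) (pplin_chc χ pr α αi w P)

variable [Fintype U] [DecidableEq U]

open Classical in
/-- The constant factor. -/
noncomputable def pplin_K (χ : F → ZMod ℓ) (pr : V → F[X]) (α : V → U → ZMod ℓ)
    (αi : U → ZMod ℓ) (B : U → U → ZMod ℓ) (N : ℕ) (R : Finset U) (p : U → Finset F[X]) : ℂ :=
  if ∀ u ∈ R, ∀ u' ∈ R, u ≠ u' → Disjoint (p u) (p u') then
    (∏ u ∈ R, ∏ P ∈ p u, ((N : ℂ)⁻¹ * chc χ pr α αi u P)) *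
      ZMod.stdAddChar (∑ u ∈ R, ∑ u' ∈ R, B u u' * sys χ (p u) (p u'))
  else 0

open Classical in
/-- The factor depending on one set. -/
noncomputable def pplin_f (χ : F → ZMod ℓ) (pr : V → F[X]) (α : V → U → ZMod ℓ)
    (αi : U → ZMod ℓ) (B : U → U → ZMod ℓ) (N : ℕ) (R : Finset U) (p : U → Finset F[X]) (w : U)
    (x : Finset F[X]) : ℂ :=
  if ∀ u ∈ R, Disjoint x (p u) then
    (∏ P ∈ x, ((N : ℂ)⁻¹ * chc χ pr α αi w P)) *
      ZMod.stdAddChar (∑ u ∈ R, (B w u * sys χ x (p u) + B u w * sys χ (p u) x))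
  else 0

theorem pplin_K_le (χ : F → ZMod ℓ) (pr : V → F[X]) (α : V → U → ZMod ℓ)
    (αi : U → ZMod ℓ) (B : U → U → ZMod ℓ) {N : ℕ} (hN : 1 ≤ N) (R : Finset U)
    (p : U → Finset F[X]) : ‖pplin_K χ pr α αi B N R p‖ ≤ 1 := by
  unfold pplin_K
  split_ifs
  · rw [norm_mul, AddChar.norm_apply, mul_one, norm_prod]
    exact Finset.prod_le_one (fun _ _ => norm_nonneg _) fun u _ => pplin_norm χ pr α αi hN u _
  · rw [norm_zero]
    exact zero_le_one

theorem pplin_f_le (χ : F → ZMod ℓ) (pr : V → F[X]) (α : V → U → ZMod ℓ)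
    (αi : U → ZMod ℓ) (B : U → U → ZMod ℓ) {N : ℕ} (hN : 1 ≤ N) (R : Finset U)
    (p : U → Finset F[X]) (w : U) (x : Finset F[X]) :
    ‖pplin_f χ pr α αi B N R p w x‖ ≤ 1 := by
  unfold pplin_f
  split_ifs
  · rw [norm_mul, AddChar.norm_apply, mul_one]
    exact pplin_norm χ pr α αi hN w x
  · rw [norm_zero]
    exact zero_le_one

open Classical in
theorem pplin_wgt {χ : F → ZMod ℓ} (hr : Rcp χ) (pr : V → F[X]) (α : V → U → ZMod ℓ)
    (αi : U → ZMod ℓ) (B : U → U → ZMod ℓ) (N : ℕ) (hB : ∀ w, B w w = 0)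
    {w w' : U} (hww : w ≠ w') (p : U → Finset F[X]) (x y : Finset F[X])
    (hx : ∀ P ∈ x, P.Monic ∧ Irreducible P) (hy : ∀ P ∈ y, P.Monic ∧ Irreducible P) :
    wgt χ pr α αi B N (Function.update (Function.update p w' y) w x) =
      pplin_K χ pr α αi B N ((Finset.univ.erase w).erase w') p *
        (if Disjoint x y then
          pplin_f χ pr α αi B N ((Finset.univ.erase w).erase w') p w x *
          pplin_f χ pr α αi B N ((Finset.univ.erase w).erase w') p w' y *
            ZMod.stdAddChar ((B w w' + B w' w) * sys χ x y) else 0) := by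
  set R : Finset U := (Finset.univ.erase w).erase w' with hR
  set p' : U → Finset F[X] := Function.update (Function.update p w' y) w x with hp'
  have hw : p' w = x := by rw [hp', Function.update_self]
  have hw' : p' w' = y := by
    rw [hp', Function.update_of_ne hww.symm, Function.update_self]
  have hRm : ∀ u, u ∈ R ↔ u ≠ w' ∧ u ≠ w := by
    intro u
    rw [hR, Finset.mem_erase, Finset.mem_erase]
    exact ⟨fun h => ⟨h.1, h.2.1⟩, fun h => ⟨h.1, h.2, Finset.mem_univ _⟩⟩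
  have hRp : ∀ u ∈ R, p' u = p u := by
    intro u hu
    obtain ⟨h1, h2⟩ := (hRm u).1 hu
    rw [hp', Function.update_of_ne h2, Function.update_of_ne h1]
  have hcase : ∀ u, u = w ∨ u = w' ∨ u ∈ R := by
    intro u
    by_cases h1 : u = w
    · exact Or.inl h1
    · by_cases h2 : u = w'
      · exact Or.inr (Or.inl h2)
      · exact Or.inr (Or.inr ((hRm u).2 ⟨h2, h1⟩))
  have hD : (∀ u u', u ≠ u' → Disjoint (p' u) (p' u')) ↔
      (∀ u ∈ R, ∀ u' ∈ R, u ≠ u' → Disjoint (p u) (p u')) ∧ (∀ u ∈ R, Disjoint x (p u)) ∧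
        (∀ u ∈ R, Disjoint y (p u)) ∧ Disjoint x y := by
    constructor
    · intro h
      refine ⟨fun u hu u' hu' hne => ?_, fun u hu => ?_, fun u hu => ?_, ?_⟩
      · have := h u u' hne
        rwa [hRp u hu, hRp u' hu'] at this
      · have := h w u ((hRm u).1 hu).2.symm
        rwa [hw, hRp u hu] at this
      · have := h w' u ((hRm u).1 hu).1.symm
        rwa [hw', hRp u hu] at this
      · have := h w w' hww
        rwa [hw, hw'] at this
    · rintro ⟨h0, h1, h2, h3⟩ u u' hne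
      rcases hcase u with hu | hu | hu
      · rcases hcase u' with hu' | hu' | hu'
        · exact absurd (hu.trans hu'.symm) hne
        · rw [hu, hu', hw, hw']
          exact h3
        · rw [hu, hw, hRp u' hu']
          exact h1 u' hu'
      · rcases hcase u' with hu' | hu' | hu'
        · rw [hu, hu', hw, hw']
          exact h3.symm
        · exact absurd (hu.trans hu'.symm) hne
        · rw [hu, hw', hRp u' hu']
          exact h2 u' hu'
      · rcases hcase u' with hu' | hu' | hu'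
        · rw [hu', hw, hRp u hu]
          exact (h1 u hu).symm
        · rw [hu', hw', hRp u hu]
          exact (h2 u hu).symm
        · rw [hRp u hu, hRp u' hu']
          exact h0 u hu u' hu' hne
  by_cases hc : (∀ u u', u ≠ u' → Disjoint (p' u) (p' u'))
  · obtain ⟨h0, h1, h2, h3⟩ := hD.1 hc
    rw [wgt, if_pos hc, pplin_K, if_pos h0, if_pos h3, pplin_f, if_pos h1, pplin_f, if_pos h2]
    have e1 : ∏ u, ∏ P ∈ p' u, ((N : ℂ)⁻¹ * chc χ pr α αi u P) =
        (∏ P ∈ x, ((N : ℂ)⁻¹ * chc χ pr α αi w P)) *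
          ((∏ P ∈ y, ((N : ℂ)⁻¹ * chc χ pr α αi w' P)) *
            ∏ u ∈ R, ∏ P ∈ p u, ((N : ℂ)⁻¹ * chc χ pr α αi u P)) := by
      rw [pplin_sum hww, hw, hw']
      congr 2
      exact Finset.prod_congr rfl fun u hu => by rw [hRp u hu]
    have e2 : ∑ u, ∑ u', B u u' * sys χ (p' u) (p' u') =
        (∑ u ∈ R, ∑ u' ∈ R, B u u' * sys χ (p u) (p u')) +
        (∑ u ∈ R, (B w u * sys χ x (p u) + B u w * sys χ (p u) x)) +
        (∑ u ∈ R, (B w' u * sys χ y (p u) + B u w' * sys χ (p u) y)) +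
        (B w w' + B w' w) * sys χ x y := by
      rw [pplin_add hww, pplin_add hww, pplin_add hww]
      have e3 : ∑ u ∈ R, ∑ u', B u u' * sys χ (p' u) (p' u') =
          ∑ u ∈ R, (B u w * sys χ (p u) x + (B u w' * sys χ (p u) y +
            ∑ u' ∈ R, B u u' * sys χ (p u) (p u'))) := by
        refine Finset.sum_congr rfl fun u hu => ?_
        rw [pplin_add hww, hw, hw', hRp u hu]
        congr 2
        exact Finset.sum_congr rfl fun u' hu' => by rw [hRp u' hu']
      rw [e3, hw, hw', hB, hB, pplin_sys_symm hr hy hx h3.symm]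
      have e4 : ∑ u ∈ R, B w u * sys χ x (p' u) = ∑ u ∈ R, B w u * sys χ x (p u) :=
        Finset.sum_congr rfl fun u hu => by rw [hRp u hu]
      have e5 : ∑ u ∈ R, B w' u * sys χ y (p' u) = ∑ u ∈ R, B w' u * sys χ y (p u) :=
        Finset.sum_congr rfl fun u hu => by rw [hRp u hu]
      rw [e4, e5]
      simp only [Finset.sum_add_distrib]
      ring
    rw [e1, e2, AddChar.map_add_eq_mul, AddChar.map_add_eq_mul, AddChar.map_add_eq_mul]
    ring
  · rw [wgt, if_neg hc]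
    have hc' := fun h => hc (hD.2 h)
    by_cases h0 : (∀ u ∈ R, ∀ u' ∈ R, u ≠ u' → Disjoint (p u) (p u'))
    · by_cases h1 : (∀ u ∈ R, Disjoint x (p u))
      · by_cases h2 : (∀ u ∈ R, Disjoint y (p u))
        · rw [if_neg fun h3 => hc' ⟨h0, h1, h2, h3⟩, mul_zero]
        · have e : pplin_f χ pr α αi B N R p w' y = 0 := if_neg h2
          rw [e]
          simp
      · have e : pplin_f χ pr α αi B N R p w x = 0 := if_neg h1
        rw [e]
        simp
    · rw [pplin_K, if_neg h0, zero_mul]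

end

theorem tPpLin.{v} (hPpRec : StmtPpRec.{v}) (hPpNum : StmtPpNum) (hPpBil : StmtPpBil.{v}) :
    StmtPpLin.{v} := by
  intro F _ _ ℓ _ hℓ hq χ hχ hr V U _ _ _ pr α αi B N hN hB ν w w' hκ
  classical
  have hww : w ≠ w' := by
    rintro rfl
    exact hκ (by rw [hB, add_zero])
  have hq1 : (1 : ℝ) ≤ (Nat.card F : ℝ) := by
    have : 0 < Nat.card F := Nat.card_pos
    exact_mod_cast this
  have hq0 : (0 : ℝ) < (Nat.card F : ℝ) := by linarith
  set R : Finset U := (Finset.univ.erase w).erase w' with hR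
  set A : ℝ := (Nat.card F : ℝ) ^ (4 * (ν w + ν w') - min (ν w) (ν w')) *
    ((max (ν w) (ν w') : ℕ) + 1) with hA
  have hA0 : 0 ≤ A := by positivity
  set c : ℝ := Real.sqrt (Real.sqrt A) with hc
  have hc0 : 0 ≤ c := Real.sqrt_nonneg _
  have hc4 : c ^ 4 = A := by
    have h1 : c ^ 4 = (c ^ 2) ^ 2 := by ring
    rw [h1, hc, Real.sq_sqrt (Real.sqrt_nonneg _), Real.sq_sqrt hA0]
  set Q : Finset (U → Finset F[X]) := Fintype.piFinset (Function.update (Function.update
    (fun u => ps F (ν u)) w {∅}) w' {∅}) with hQ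
  have hsplit : Tnu χ pr α αi B N ν = ∑ p ∈ Q, ∑ y ∈ ps F (ν w'), ∑ x ∈ ps F (ν w),
      wgt χ pr α αi B N (Function.update (Function.update p w' y) w x) := by
    rw [Tnu, sum_pi_split _ w ∅, sum_pi_split _ w' ∅, Function.update_of_ne hww.symm]
  have hin : ∀ p ∈ Q, ‖∑ y ∈ ps F (ν w'), ∑ x ∈ ps F (ν w),
      wgt χ pr α αi B N (Function.update (Function.update p w' y) w x)‖ ≤ c := by
    intro p _
    have h1 : ∑ y ∈ ps F (ν w'), ∑ x ∈ ps F (ν w),
        wgt χ pr α αi B N (Function.update (Function.update p w' y) w x) =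
        pplin_K χ pr α αi B N R p * ∑ x ∈ ps F (ν w), ∑ y ∈ ps F (ν w'),
          (if Disjoint x y then pplin_f χ pr α αi B N R p w x *
            pplin_f χ pr α αi B N R p w' y *
            ZMod.stdAddChar ((B w w' + B w' w) * sys χ x y) else 0) := by
      rw [Finset.sum_comm, Finset.mul_sum]
      refine Finset.sum_congr rfl fun x hx => ?_
      rw [Finset.mul_sum]
      refine Finset.sum_congr rfl fun y hy => ?_
      exact pplin_wgt hr pr α αi B N hB hww p x y (mem_ps.1 hx).1 (mem_ps.1 hy).1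
    have h2 := hPpBil F ℓ hℓ hq χ hχ hr (B w w' + B w' w) hκ (ν w) (ν w')
      (pplin_f χ pr α αi B N R p w) (pplin_f χ pr α αi B N R p w')
      (pplin_f_le χ pr α αi B hN R p w) (pplin_f_le χ pr α αi B hN R p w')
    rw [h1, norm_mul]
    have h3 := pplin_K_le χ pr α αi B hN R p
    refine (mul_le_of_le_one_left (norm_nonneg _) h3).trans ?_
    refine le_of_pow_le_pow_left₀ (n := 4) (by norm_num) hc0 ?_
    rw [hc4]
    refine le_trans (le_of_eq ?_) h2
    congr 2
  have hcard : (Q.card : ℝ) ≤ (Nat.card F : ℝ) ^ (∑ u ∈ R, ν u) := by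
    rw [hQ, Fintype.card_piFinset, Nat.cast_prod, pplin_sum hww, Function.update_of_ne hww,
      Function.update_self, Function.update_self, Finset.card_singleton, Nat.cast_one, one_mul,
      one_mul, ← Finset.prod_pow_eq_pow_sum]
    refine Finset.prod_le_prod (fun _ _ => Nat.cast_nonneg _) fun u hu => ?_
    rw [Finset.mem_erase, Finset.mem_erase] at hu
    rw [Function.update_of_ne hu.1, Function.update_of_ne hu.2.1]
    exact pplin_card hPpRec hPpNum F _
  have hbound : ‖Tnu χ pr α αi B N ν‖ ≤ (Nat.card F : ℝ) ^ (∑ u ∈ R, ν u) * c := by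
    rw [hsplit]
    refine (norm_sum_le _ _).trans ((Finset.sum_le_sum hin).trans ?_)
    rw [Finset.sum_const, nsmul_eq_mul]
    exact mul_le_mul_of_nonneg_right hcard hc0
  have hsum : ∑ x, ν x = ν w + (ν w' + ∑ u ∈ R, ν u) := pplin_add hww ν
  calc ‖Tnu χ pr α αi B N ν‖ ^ 4 ≤ ((Nat.card F : ℝ) ^ (∑ u ∈ R, ν u) * c) ^ 4 :=
        pow_le_pow_left₀ (norm_nonneg _) hbound 4
    _ = (Nat.card F : ℝ) ^ (4 * ∑ x, ν x - min (ν w) (ν w')) *
        ((max (ν w) (ν w') : ℕ) + 1) := by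
      rw [mul_pow, hc4, hA, ← pow_mul, ← mul_assoc, ← pow_add]
      congr 2
      rw [hsum]
      have h1 : min (ν w) (ν w') ≤ ν w := min_le_left _ _
      omega
    _ ≤ (Nat.card F : ℝ) ^ (4 * ∑ x, ν x - min (ν w) (ν w')) * ((∑ x, ν x : ℕ) + 1) := by
      refine mul_le_mul_of_nonneg_left ?_ (by positivity)
      have h1 : max (ν w) (ν w') ≤ ∑ x, ν x := by
        rw [hsum]
        omega
      have h2 : ((max (ν w) (ν w') : ℕ) : ℝ) ≤ ((∑ x, ν x : ℕ) : ℝ) := by exact_mod_cast h1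
      linarith

end MP72e2e6
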