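import Pool.Agent.Lib.MP_72e2e6_nt.PpStmt

/-!
# MP_72e2e6_nt: the sequences RecS (PpNum)
-/

namespace MP72e2e6

open Finset

theorem ppnum_left (a b : ℕ → ℝ) (k : ℕ) :
    ∑ x ∈ Finset.HasAntidiagonal.antidiagonal k, (∑ i ∈ Finset.range x.1, a i) * b x.2 =
      ∑ r ∈ Finset.range k, ∑ x ∈ Finset.HasAntidiagonal.antidiagonal r, a x.1 * b x.2 := by
  induction k with
  | zero => simp
  | succ k ih =>
    rw [Finset.Nat.sum_antidiagonal_succ, Finset.sum_range_succ, ← ih, Finset.range_zero,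
      Finset.sum_empty, zero_mul, zero_add, ← Finset.sum_add_distrib]
    refine Finset.sum_congr rfl fun x _ => ?_
    rw [Finset.sum_range_succ]
    ring

theorem ppnum_right (a b : ℕ → ℝ) (k : ℕ) :
    ∑ x ∈ Finset.HasAntidiagonal.antidiagonal k, a x.1 * (∑ i ∈ Finset.range x.2, b i) =
      ∑ r ∈ Finset.range k, ∑ x ∈ Finset.HasAntidiagonal.antidiagonal r, a x.1 * b x.2 := by
  induction k with
  | zero => simp
  | succ k ih =>
    rw [Finset.Nat.sum_antidiagonal_succ', Finset.sum_range_succ, ← ih, Finset.range_zero,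
      Finset.sum_empty, mul_zero, zero_add, ← Finset.sum_add_distrib]
    refine Finset.sum_congr rfl fun x _ => ?_
    rw [Finset.sum_range_succ]
    ring

theorem ppnum_conv (z w : ℝ) (a b : ℕ → ℝ) (ha : RecS z a) (hb : RecS w b) :
    RecS (z + w) (fun k => ∑ x ∈ Finset.HasAntidiagonal.antidiagonal k, a x.1 * b x.2) := by
  refine ⟨?_, ?_, ?_⟩
  · intro k
    exact Finset.sum_nonneg fun x _ => mul_nonneg (ha.nonneg _) (hb.nonneg _)
  · have h1 : ∑ x ∈ Finset.HasAntidiagonal.antidiagonal 0, a x.1 * b x.2 = a 0 * b 0 := by simp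
    rw [h1]
    calc a 0 * b 0 ≤ 1 * 1 := mul_le_mul ha.zero hb.zero (hb.nonneg 0) zero_le_one
      _ = 1 := one_mul 1
  · intro k
    have h1 : (k : ℝ) * ∑ x ∈ Finset.HasAntidiagonal.antidiagonal k, a x.1 * b x.2 =
        ∑ x ∈ Finset.HasAntidiagonal.antidiagonal k, (((x.1 : ℝ) * a x.1) * b x.2 +
          a x.1 * ((x.2 : ℝ) * b x.2)) := by
      rw [Finset.mul_sum]
      refine Finset.sum_congr rfl fun x hx => ?_
      have h2 : x.1 + x.2 = k := Finset.HasAntidiagonal.mem_antidiagonal.mp hx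
      rw [← h2]
      push_cast
      ring
    rw [h1]
    have h2 : ∀ x ∈ Finset.HasAntidiagonal.antidiagonal k, (((x.1 : ℝ) * a x.1) * b x.2 +
        a x.1 * ((x.2 : ℝ) * b x.2)) ≤
        z * ((∑ i ∈ Finset.range x.1, a i) * b x.2) +
          w * (a x.1 * (∑ i ∈ Finset.range x.2, b i)) := by
      intro x _
      have h3 := mul_le_mul_of_nonneg_right (ha.step x.1) (hb.nonneg x.2)
      have h4 := mul_le_mul_of_nonneg_left (hb.step x.2) (ha.nonneg x.1)
      nlinarith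
    refine le_trans (Finset.sum_le_sum h2) (le_of_eq ?_)
    rw [Finset.sum_add_distrib, ← Finset.mul_sum, ← Finset.mul_sum, ppnum_left, ppnum_right]
    ring

theorem ppnum_pow {z : ℝ} (hz0 : 0 ≤ z) (hz1 : z ≤ 1) {K : ℝ} (hK : 1 ≤ K) :
    (K - 1 + z) * K ^ (z - 1) ≤ K * (K + 1) ^ (z - 1) := by
  have hK0 : 0 < K := by linarith
  have hA : 0 < K ^ (1 - z) := Real.rpow_pos_of_pos hK0 _
  have hB : 0 < (K + 1) ^ (1 - z) := Real.rpow_pos_of_pos (by linarith) _
  have e1 : K ^ (z - 1) = (K ^ (1 - z))⁻¹ := by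
    rw [← Real.rpow_neg hK0.le]
    congr 1
    ring
  have e2 : (K + 1) ^ (z - 1) = ((K + 1) ^ (1 - z))⁻¹ := by
    rw [← Real.rpow_neg (by linarith)]
    congr 1
    ring
  have hBA : (K + 1) ^ (1 - z) ≤ K ^ (1 - z) * (1 + (1 - z) * (1 / K)) := by
    have h1 : K + 1 = K * (1 + 1 / K) := by
      field_simp
    have h2 : (0 : ℝ) ≤ 1 / K := by positivity
    rw [h1, Real.mul_rpow hK0.le (by linarith)]
    apply mul_le_mul_of_nonneg_left _ hA.le
    exact rpow_one_add_le_one_add_mul_self (by linarith) (by linarith) (by linarith)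
  rw [e1, e2]
  rw [← div_eq_mul_inv, ← div_eq_mul_inv, div_le_div_iff₀ hA hB]
  have hy : 0 ≤ K - 1 + z := by linarith
  have h3 : (K - 1 + z) * (K + 1) ^ (1 - z) ≤
      (K - 1 + z) * (K ^ (1 - z) * (1 + (1 - z) * (1 / K))) :=
    mul_le_mul_of_nonneg_left hBA hy
  refine le_trans h3 ?_
  have h4 : (K - 1 + z) * (1 + (1 - z) * (1 / K)) ≤ K := by
    have h5 : (K - 1 + z) * (1 + (1 - z) * (1 / K)) = K - (1 - z) ^ 2 * (1 / K) := by
      field_simp
      ring
    rw [h5]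
    have h6 : 0 ≤ (1 - z) ^ 2 * (1 / K) := by positivity
    linarith
  calc (K - 1 + z) * (K ^ (1 - z) * (1 + (1 - z) * (1 / K))) =
      ((K - 1 + z) * (1 + (1 - z) * (1 / K))) * K ^ (1 - z) := by ring
    _ ≤ K * K ^ (1 - z) := mul_le_mul_of_nonneg_right h4 hA.le

theorem ppnum_sum {z : ℝ} (hz0 : 0 ≤ z) (hz1 : z ≤ 1) (k : ℕ) :
    z * ∑ i ∈ Finset.range k, ((i : ℝ) + 1) ^ (z - 1) ≤ (k : ℝ) * ((k : ℝ) + 1) ^ (z - 1) := by
  induction k with
  | zero => simp
  | succ k ih =>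
    rw [Finset.sum_range_succ, mul_add]
    have h1 := ppnum_pow hz0 hz1 (K := (k : ℝ) + 1) (by
      have : (0 : ℝ) ≤ k := Nat.cast_nonneg k
      linarith)
    push_cast
    have h2 : (k : ℝ) * ((k : ℝ) + 1) ^ (z - 1) + z * ((k : ℝ) + 1) ^ (z - 1) =
        ((k : ℝ) + 1 - 1 + z) * ((k : ℝ) + 1) ^ (z - 1) := by ring
    linarith

theorem tPpNum : StmtPpNum := by
  refine ⟨?_, ?_, ?_⟩
  · intro z w a b _ _ ha hb
    exact ppnum_conv z w a b ha hb
  · intro z w a hzw ha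
    refine ⟨ha.nonneg, ha.zero, fun k => le_trans (ha.step k) ?_⟩
    exact mul_le_mul_of_nonneg_right hzw (Finset.sum_nonneg fun i _ => ha.nonneg i)
  · intro z a hz0 hz1 ha k
    induction k using Nat.strong_induction_on with
    | _ k ih =>
      rcases Nat.eq_zero_or_pos k with hk | hk
      · subst hk
        simpa using ha.zero
      · have hk0 : (0 : ℝ) < k := by exact_mod_cast hk
        have h1 : ∑ i ∈ Finset.range k, a i ≤ ∑ i ∈ Finset.range k, ((i : ℝ) + 1) ^ (z - 1) :=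
          Finset.sum_le_sum fun i hi => ih i (Finset.mem_range.mp hi)
        have h2 : (k : ℝ) * a k ≤ (k : ℝ) * ((k : ℝ) + 1) ^ (z - 1) :=
          le_trans (ha.step k) (le_trans (mul_le_mul_of_nonneg_left h1 hz0)
            (ppnum_sum hz0 hz1 k))
        exact le_of_mul_le_mul_left h2 hk0

end MP72e2e6
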