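import Pool.Agent.Lib.MP_72e2e6_nt.PpStmt

/-!
# MP_72e2e6_nt: growth of the sums over sets of primes (PpRec)
-/

namespace MP72e2e6

open Polynomial

universe u

theorem pprec_mem_irr {F : Type u} [Field F] [Finite F] {n : ℕ} {P : F[X]} :
    P ∈ irr F n ↔ (P.Monic ∧ P.natDegree = n) ∧ Irreducible P := by
  classical
  rw [irr, Finset.mem_filter, mem_mon]

theorem pprec_zero (F : Type u) [Field F] [Finite F] (z : ℝ) : GG F z 0 = 1 := by
  classical
  have h1 : ps F 0 = {∅} := by
    ext t
    rw [mem_ps, Finset.mem_singleton]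
    constructor
    · rintro ⟨h1, h2⟩
      rw [Finset.eq_empty_iff_forall_notMem]
      intro P hP
      have h3 := Finset.sum_eq_zero_iff.mp h2 P hP
      have h4 := (h1 P hP).2.natDegree_pos
      omega
    · rintro rfl
      exact ⟨fun P hP => absurd hP (Finset.notMem_empty P), Finset.sum_empty⟩
  rw [GG, h1, Finset.sum_singleton, Finset.card_empty, pow_zero]

open Classical in
/-- the sets which contain a given prime -/
theorem pprec_fix (F : Type u) [Field F] [Finite F] {z : ℝ} (hz : 0 ≤ z) {n j : ℕ} {P : F[X]}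
    (hP : P ∈ irr F j) :
    ∑ t ∈ (ps F n).filter (fun t => P ∈ t), z ^ t.card ≤ z * GG F z (n - j) := by
  rw [pprec_mem_irr] at hP
  have h1 : ∑ t ∈ (ps F n).filter (fun t => P ∈ t), z ^ t.card =
      z * ∑ t ∈ (ps F n).filter (fun t => P ∈ t), z ^ (t.erase P).card := by
    rw [Finset.mul_sum]
    refine Finset.sum_congr rfl fun t ht => ?_
    have h2 := (Finset.mem_filter.mp ht).2
    rw [← pow_succ', Finset.card_erase_add_one h2]
  rw [h1]
  apply mul_le_mul_of_nonneg_left _ hz
  rw [GG]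
  have hinj : Set.InjOn (fun t : Finset F[X] => t.erase P)
      ((ps F n).filter (fun t => P ∈ t) : Set (Finset F[X])) := by
    intro s hs t ht h
    have hs2 : P ∈ s := (Finset.mem_filter.mp (Finset.mem_coe.mp hs)).2
    have ht2 : P ∈ t := (Finset.mem_filter.mp (Finset.mem_coe.mp ht)).2
    have h3 := congrArg (insert P) h
    simp only [Finset.insert_erase hs2, Finset.insert_erase ht2] at h3
    exact h3
  have h3 : ∑ t ∈ (ps F n).filter (fun t => P ∈ t), z ^ (t.erase P).card =
      ∑ t ∈ ((ps F n).filter (fun t => P ∈ t)).image (fun t => t.erase P), z ^ t.card :=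
    (Finset.sum_image (f := fun t : Finset F[X] => z ^ t.card) hinj).symm
  rw [h3]
  apply Finset.sum_le_sum_of_subset_of_nonneg
  · intro t' ht'
    obtain ⟨t, ht, rfl⟩ := Finset.mem_image.mp ht'
    obtain ⟨ht1, ht2⟩ := Finset.mem_filter.mp ht
    rw [mem_ps] at ht1 ⊢
    refine ⟨fun Q hQ => ht1.1 Q (Finset.mem_of_mem_erase hQ), ?_⟩
    have h4 : P.natDegree + ∑ Q ∈ t.erase P, Q.natDegree = ∑ Q ∈ t, Q.natDegree :=
      Finset.add_sum_erase t (fun Q : F[X] => Q.natDegree) ht2
    rw [ht1.2, hP.1.2] at h4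
    omega
  · intro t _ _
    exact pow_nonneg hz _

theorem pprec_main (hSuPsi : StmtSuPsi.{u}) (F : Type u) [Field F] [Finite F] {z : ℝ}
    (hz : 0 ≤ z) (n : ℕ) :
    (n : ℝ) * GG F z n ≤
      z * ∑ j ∈ Finset.Icc 1 n, (Nat.card F : ℝ) ^ j * GG F z (n - j) := by
  classical
  have hGG : ∀ m, 0 ≤ GG F z m := fun m => Finset.sum_nonneg fun t _ => pow_nonneg hz _
  obtain ⟨-, -, -, -, hirr⟩ := hSuPsi F 2 Nat.prime_two
  have h1 : (n : ℝ) * GG F z n = ∑ j ∈ Finset.range (n + 1), ∑ P ∈ irr F j, (j : ℝ) *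
      ∑ t ∈ (ps F n).filter (fun t => P ∈ t), z ^ t.card := by
    have h2 : (n : ℝ) * GG F z n = ∑ t ∈ ps F n, ∑ j ∈ Finset.range (n + 1), ∑ P ∈ irr F j,
        (j : ℝ) * (if P ∈ t then z ^ t.card else 0) := by
      rw [GG, Finset.mul_sum]
      refine Finset.sum_congr rfl fun t ht => ?_
      rw [mem_ps] at ht
      have h3 : (n : ℝ) = ∑ P ∈ t, (P.natDegree : ℝ) := by
        rw [← ht.2]
        push_cast
        rfl
      rw [h3, Finset.sum_mul, ← Finset.sum_fiberwise_of_maps_to (t := Finset.range (n + 1))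
        (g := fun P : F[X] => P.natDegree)]
      · refine Finset.sum_congr rfl fun j _ => ?_
        have h4 : t.filter (fun P : F[X] => P.natDegree = j) =
            (irr F j).filter (fun P => P ∈ t) := by
          ext P
          rw [Finset.mem_filter, Finset.mem_filter, pprec_mem_irr]
          constructor
          · rintro ⟨hP, hd⟩
            exact ⟨⟨⟨(ht.1 P hP).1, hd⟩, (ht.1 P hP).2⟩, hP⟩
          · rintro ⟨⟨⟨_, hd⟩, _⟩, hP⟩
            exact ⟨hP, hd⟩
        rw [h4, Finset.sum_filter]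
        refine Finset.sum_congr rfl fun P hP => ?_
        rw [pprec_mem_irr] at hP
        rw [hP.1.2]
        split_ifs
        · rfl
        · rw [mul_zero]
      · intro P hP
        rw [Finset.mem_range, ← ht.2]
        exact Nat.lt_succ_of_le (Finset.single_le_sum (f := fun P : F[X] => P.natDegree)
          (fun _ _ => Nat.zero_le _) hP)
    rw [h2, Finset.sum_comm]
    refine Finset.sum_congr rfl fun j _ => ?_
    rw [Finset.sum_comm]
    refine Finset.sum_congr rfl fun P _ => ?_
    rw [← Finset.mul_sum, Finset.sum_filter]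
  rw [h1]
  have h5 : ∀ j ∈ Finset.range (n + 1), ∑ P ∈ irr F j, (j : ℝ) *
      ∑ t ∈ (ps F n).filter (fun t => P ∈ t), z ^ t.card ≤
      if 1 ≤ j then z * ((Nat.card F : ℝ) ^ j * GG F z (n - j)) else 0 := by
    intro j _
    by_cases hj : 1 ≤ j
    · rw [if_pos hj]
      have h6 : ∑ P ∈ irr F j, (j : ℝ) * ∑ t ∈ (ps F n).filter (fun t => P ∈ t), z ^ t.card ≤
          ∑ _P ∈ irr F j, (j : ℝ) * (z * GG F z (n - j)) :=
        Finset.sum_le_sum fun P hP =>
          mul_le_mul_of_nonneg_left (pprec_fix F hz hP) (Nat.cast_nonneg _)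
      refine le_trans h6 ?_
      rw [Finset.sum_const, nsmul_eq_mul]
      have h7 : (j : ℝ) * ((irr F j).card : ℝ) ≤ (Nat.card F : ℝ) ^ j := by
        exact_mod_cast hirr j hj
      have h8 : 0 ≤ z * GG F z (n - j) := mul_nonneg hz (hGG _)
      calc ((irr F j).card : ℝ) * ((j : ℝ) * (z * GG F z (n - j))) =
          ((j : ℝ) * ((irr F j).card : ℝ)) * (z * GG F z (n - j)) := by ring
        _ ≤ (Nat.card F : ℝ) ^ j * (z * GG F z (n - j)) := mul_le_mul_of_nonneg_right h7 h8
        _ = z * ((Nat.card F : ℝ) ^ j * GG F z (n - j)) := by ring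
    · rw [if_neg hj]
      have hj0 : j = 0 := by omega
      rw [hj0]
      simp
  refine le_trans (Finset.sum_le_sum h5) (le_of_eq ?_)
  rw [Finset.mul_sum, ← Finset.sum_filter]
  refine Finset.sum_congr ?_ fun _ _ => rfl
  ext j
  simp only [Finset.mem_filter, Finset.mem_range, Finset.mem_Icc]
  omega

theorem tPpRec.{v} (hSuPsi : StmtSuPsi.{v}) : StmtPpRec.{v} := by
  intro F _ _ z hz
  have hq : (0 : ℝ) < (Nat.card F : ℝ) := by exact_mod_cast Nat.card_pos
  refine ⟨pprec_zero F z, ?_, ?_, ?_⟩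
  · intro k
    exact div_nonneg (Finset.sum_nonneg fun t _ => pow_nonneg hz _) (pow_nonneg hq.le _)
  · rw [pprec_zero, pow_zero, div_one]
  · intro n
    have h1 := pprec_main hSuPsi F hz n
    have h2 : (n : ℝ) * (GG F z n / (Nat.card F : ℝ) ^ n) =
        ((n : ℝ) * GG F z n) / (Nat.card F : ℝ) ^ n := by ring
    rw [h2, div_le_iff₀ (pow_pos hq n)]
    refine le_trans h1 (le_of_eq ?_)
    have h3 : ∑ j ∈ Finset.Icc 1 n, (Nat.card F : ℝ) ^ j * GG F z (n - j) =
        ∑ i ∈ Finset.range n, (Nat.card F : ℝ) ^ (n - i) * GG F z i := by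
      refine Finset.sum_nbij' (fun j => n - j) (fun i => n - i) ?_ ?_ ?_ ?_ ?_
      · intro j hj
        rw [Finset.mem_Icc] at hj
        rw [Finset.mem_range]
        omega
      · intro i hi
        rw [Finset.mem_range] at hi
        rw [Finset.mem_Icc]
        omega
      · intro j hj
        rw [Finset.mem_Icc] at hj
        omega
      · intro i hi
        rw [Finset.mem_range] at hi
        omega
      · intro j hj
        rw [Finset.mem_Icc] at hj
        have : n - (n - j) = j := by omega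
        rw [this]
    rw [h3, mul_assoc, Finset.sum_mul]
    congr 1
    refine Finset.sum_congr rfl fun i hi => ?_
    rw [Finset.mem_range] at hi
    have h4 : (Nat.card F : ℝ) ^ n = (Nat.card F : ℝ) ^ (n - i) * (Nat.card F : ℝ) ^ i := by
      rw [← pow_add]
      congr 1
      omega
    have h5 : (Nat.card F : ℝ) ^ i ≠ 0 := ne_of_gt (pow_pos hq i)
    rw [h4]
    field_simp

end MP72e2e6
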