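import Pool.Agent.Lib.MP_72e2e6_nt.PpStmt

/-!
# MP_72e2e6_nt: few large degrees (PpSA)
-/

namespace MP72e2e6

open Classical in
/-- the sum over the `ν` with prescribed `min (ν w) τ` -/
theorem ppsa_cls {U : Type} [Fintype U] [DecidableEq U] (τ n : ℕ) (κ : U → ℕ)
    (A : Finset (U → ℕ)) (hA : ∀ ν ∈ A, ∑ w, ν w = n ∧ ∀ w, min (ν w) τ = κ w)
    (f g : (U → ℕ) → ℝ) (hg : ∀ μ, 0 ≤ g μ)
    (hfg : ∀ ν ∈ A, f ν ≤ g (fun w => if κ w = τ then ν w else 0)) :
    ∑ ν ∈ A, f ν ≤ ∑ μ ∈ (Finset.univ.filter fun w => κ w = τ).piAntidiag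
      (n - ∑ w ∈ Finset.univ.filter (fun w => ¬ κ w = τ), κ w), g μ := by
  have hinj : Set.InjOn (fun (ν : U → ℕ) => (fun w => if κ w = τ then ν w else 0))
      (A : Set (U → ℕ)) := by
    intro ν hν ν' hν' h
    funext w
    by_cases hw : κ w = τ
    · have h1 := congrFun h w
      simp only [if_pos hw] at h1
      exact h1
    · have h1 := (hA ν (Finset.mem_coe.mp hν)).2 w
      have h2 := (hA ν' (Finset.mem_coe.mp hν')).2 w
      omega
  refine le_trans (Finset.sum_le_sum hfg) ?_
  have h3 : ∑ ν ∈ A, g (fun w => if κ w = τ then ν w else 0) =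
      ∑ μ ∈ A.image (fun (ν : U → ℕ) => (fun w => if κ w = τ then ν w else 0)), g μ :=
    (Finset.sum_image (f := g) hinj).symm
  rw [h3]
  apply Finset.sum_le_sum_of_subset_of_nonneg
  · intro μ hμ
    obtain ⟨ν, hν, rfl⟩ := Finset.mem_image.mp hμ
    obtain ⟨h4, h5⟩ := hA ν hν
    rw [Finset.mem_piAntidiag]
    constructor
    · have h6 : ∑ w ∈ Finset.univ.filter (fun w => κ w = τ), (if κ w = τ then ν w else 0) =
          ∑ w ∈ Finset.univ.filter (fun w => κ w = τ), ν w :=
        Finset.sum_congr rfl fun w hw => if_pos (Finset.mem_filter.mp hw).2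
      have h7 : ∑ w ∈ Finset.univ.filter (fun w => ¬ κ w = τ), κ w =
          ∑ w ∈ Finset.univ.filter (fun w => ¬ κ w = τ), ν w := by
        refine Finset.sum_congr rfl fun w hw => ?_
        have h8 := (Finset.mem_filter.mp hw).2
        have h9 := h5 w
        omega
      have h8 := Finset.sum_filter_add_sum_filter_not Finset.univ (fun w => κ w = τ) ν
      rw [h6, h7]
      omega
    · intro w hw
      rw [Finset.mem_filter]
      refine ⟨Finset.mem_univ _, ?_⟩
      by_contra h
      exact hw (if_neg h)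
  · intro μ _ _
    exact hg μ

/-- the small coordinates have a small sum -/
theorem ppsa_small {U : Type} [Fintype U] [DecidableEq U] {τ n : ℕ} {κ : U → ℕ}
    (hκ : ∀ w, κ w ≤ τ) (h : 2 * (Fintype.card U * τ) ≤ n) :
    n ≤ 2 * (n - ∑ w ∈ Finset.univ.filter (fun w => ¬ κ w = τ), κ w) := by
  have h1 : ∑ w ∈ Finset.univ.filter (fun w => ¬ κ w = τ), κ w ≤ Fintype.card U * τ := by
    have h2 : ∑ w ∈ Finset.univ.filter (fun w => ¬ κ w = τ), κ w ≤ ∑ w : U, κ w :=
      Finset.sum_le_sum_of_subset (Finset.filter_subset _ _)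
    have h3 : ∑ w : U, κ w ≤ Fintype.card U * τ := by
      have h4 := Finset.sum_le_card_nsmul Finset.univ κ τ (fun w _ => hκ w)
      rw [Finset.card_univ, smul_eq_mul] at h4
      exact h4
    exact le_trans h2 h3
  omega

theorem ppsa_one (hNum : StmtPpNum) {N : ℕ} (hN : 2 ≤ N) {a : ℕ → ℝ}
    (ha : RecS (1 / N : ℝ) a) (k : ℕ) : a k ≤ 1 := by
  obtain ⟨-, -, h3⟩ := hNum
  have hN0 : (2 : ℝ) ≤ N := by exact_mod_cast hN
  have h1 : (1 / N : ℝ) ≤ 1 := by
    rw [div_le_one (by linarith)]
    linarith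
  refine le_trans (h3 (1 / N : ℝ) a (by positivity) h1 ha k) ?_
  apply Real.rpow_le_one_of_one_le_of_nonpos
  · have : (0 : ℝ) ≤ k := Nat.cast_nonneg k
    linarith
  · linarith

theorem tPpSA (hNum : StmtPpNum) (hCv : StmtPpCv) : StmtPpSA := by
  classical
  intro U _ _ N hN a ha τ n hn hτn
  have ha1 := ppsa_one hNum hN ha
  have hN0 : (2 : ℝ) ≤ N := by exact_mod_cast hN
  have hn0 : (1 : ℝ) ≤ n := by exact_mod_cast hn
  set A := (Finset.univ.piAntidiag n).filter (fun ν : U → ℕ =>
        (Finset.univ.filter fun w => τ ≤ ν w).card < N) with hA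
  have hmaps : ∀ ν ∈ A, (fun w => min (ν w) τ) ∈
      Fintype.piFinset (fun _ : U => Finset.range (τ + 1)) := by
    intro ν _
    rw [Fintype.mem_piFinset]
    intro w
    rw [Finset.mem_range]
    have := Nat.min_le_right (ν w) τ
    omega
  rw [← Finset.sum_fiberwise_of_maps_to hmaps]
  have hcls : ∀ κ ∈ Fintype.piFinset (fun _ : U => Finset.range (τ + 1)),
      ∑ ν ∈ A.filter (fun ν => (fun w => min (ν w) τ) = κ), ∏ w, a (ν w) ≤
        ((n : ℝ) / 2) ^ (-(1 / N : ℝ)) := by
    intro κ hκ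
    rw [Fintype.mem_piFinset] at hκ
    have hκ' : ∀ w, κ w ≤ τ := fun w => Nat.lt_succ_iff.mp (Finset.mem_range.mp (hκ w))
    rcases (A.filter (fun ν => (fun w => min (ν w) τ) = κ)).eq_empty_or_nonempty with he | hne
    · rw [he, Finset.sum_empty]
      exact Real.rpow_nonneg (by positivity) _
    · obtain ⟨ν₀, hν₀⟩ := hne
      rw [Finset.mem_filter, hA, Finset.mem_filter] at hν₀
      have hcard : (Finset.univ.filter fun w => κ w = τ).card < N := by
        have h1 : (Finset.univ.filter fun w => κ w = τ) =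
            (Finset.univ.filter fun w => τ ≤ ν₀ w) := by
          ext w
          simp only [Finset.mem_filter, Finset.mem_univ, true_and]
          have h2 : min (ν₀ w) τ = κ w := congrFun hν₀.2 w
          omega
        rw [h1]
        exact hν₀.1.2
      have h1 := ppsa_cls τ n κ (A.filter (fun ν => (fun w => min (ν w) τ) = κ))
        (by
          intro ν hν
          rw [Finset.mem_filter, hA, Finset.mem_filter, Finset.mem_piAntidiag] at hν
          exact ⟨hν.1.1.1, fun w => congrFun hν.2 w⟩)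
        (fun ν => ∏ w, a (ν w))
        (fun μ => ∏ w ∈ Finset.univ.filter (fun w => κ w = τ), a (μ w))
        (fun μ => Finset.prod_nonneg fun w _ => ha.nonneg _)
        (by
          intro ν _
          rw [← Finset.prod_filter_mul_prod_filter_not Finset.univ (fun w => κ w = τ)]
          have h2 : ∏ w ∈ Finset.univ.filter (fun w => κ w = τ),
              a (if κ w = τ then ν w else 0) =
              ∏ w ∈ Finset.univ.filter (fun w => κ w = τ), a (ν w) :=
            Finset.prod_congr rfl fun w hw => by rw [if_pos (Finset.mem_filter.mp hw).2]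
          rw [h2]
          apply mul_le_of_le_one_right (Finset.prod_nonneg fun w _ => ha.nonneg _)
          exact Finset.prod_le_one (fun w _ => ha.nonneg _) (fun w _ => ha1 _))
      refine le_trans h1 ?_
      have h2 := hCv U (Finset.univ.filter fun w => κ w = τ) (1 / N : ℝ) (by positivity) a ha
      set c := (Finset.univ.filter fun w => κ w = τ).card with hc
      set m := n - ∑ w ∈ Finset.univ.filter (fun w => ¬ κ w = τ), κ w with hm
      have hcN : (c : ℝ) + 1 ≤ N := by exact_mod_cast hcard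
      have hcz : (c : ℝ) * (1 / N : ℝ) ≤ 1 - 1 / N := by
        have h3 : (1 : ℝ) - 1 / N = (N - 1) * (1 / N) := by
          field_simp
        rw [h3]
        apply mul_le_mul_of_nonneg_right (by linarith) (by positivity)
      have h1N : (0 : ℝ) < 1 / N := by positivity
      obtain ⟨-, -, h3⟩ := hNum
      have h4 := h3 ((c : ℝ) * (1 / N : ℝ)) _ (by positivity) (by linarith) h2 m
      refine le_trans h4 ?_
      have hm2 : n ≤ 2 * m := ppsa_small hκ' hτn
      have hm3 : (n : ℝ) / 2 ≤ (m : ℝ) + 1 := by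
        have : (n : ℝ) ≤ 2 * m := by exact_mod_cast hm2
        linarith
      have hm1 : (1 : ℝ) ≤ (m : ℝ) + 1 := by
        have : (0 : ℝ) ≤ m := Nat.cast_nonneg m
        linarith
      calc ((m : ℝ) + 1) ^ ((c : ℝ) * (1 / N : ℝ) - 1) ≤ ((m : ℝ) + 1) ^ (-(1 / N : ℝ)) :=
            Real.rpow_le_rpow_of_exponent_le hm1 (by linarith)
        _ ≤ ((n : ℝ) / 2) ^ (-(1 / N : ℝ)) :=
            Real.rpow_le_rpow_of_nonpos (by linarith) hm3 (by linarith)
  have hX : 0 ≤ ((n : ℝ) / 2) ^ (-(1 / N : ℝ)) := Real.rpow_nonneg (by positivity) _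
  refine le_trans (Finset.sum_le_card_nsmul _ _ _ hcls) ?_
  rw [Fintype.card_piFinset, nsmul_eq_mul, Finset.prod_const, Finset.card_univ,
    Finset.card_range]
  apply mul_le_mul_of_nonneg_right _ hX
  push_cast
  apply pow_le_pow_left₀ (by positivity)
  have : (0 : ℝ) ≤ τ := Nat.cast_nonneg τ
  linarith

end MP72e2e6
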