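import Pool.Agent.Lib.MP_72e2e6_nt.PpStmtB

/-!
# MP_72e2e6_nt: positive proportion of twists, module PpTS
-/

namespace MP72e2e6

section ts

variable {ℓ : ℕ} [Fact ℓ.Prime] {W : Type} [AddCommGroup W] [Module (ZMod ℓ) W]

/-- the quadratic form -/
def pptsQ (u : W × Module.Dual (ZMod ℓ) W) : ZMod ℓ := u.2 u.1

/-- the polar form -/
def pptsB (x y : W × Module.Dual (ZMod ℓ) W) : ZMod ℓ := x.2 y.1 + y.2 x.1

theorem ppts_BW (w w' : W × Module.Dual (ZMod ℓ) W) : BW w w' + BW w' w = -pptsQ (w - w') := by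
  simp only [BW, pptsQ, Prod.fst_sub, Prod.snd_sub, map_sub, LinearMap.sub_apply]
  ring

theorem ppts_add (x y : W × Module.Dual (ZMod ℓ) W) :
    pptsQ (x + y) = pptsQ x + pptsQ y + pptsB x y := by
  simp only [pptsB, pptsQ, Prod.fst_add, Prod.snd_add, map_add, LinearMap.add_apply]
  ring

theorem ppts_sub (x y : W × Module.Dual (ZMod ℓ) W) :
    pptsQ (x - y) = pptsQ x + pptsQ y - pptsB x y := by
  simp only [pptsB, pptsQ, Prod.fst_sub, Prod.snd_sub, map_sub, LinearMap.sub_apply]
  ring

theorem ppts_smul (r : ZMod ℓ) (x : W × Module.Dual (ZMod ℓ) W) :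
    pptsQ (r • x) = r * r * pptsQ x := by
  simp only [pptsQ, Prod.smul_fst, Prod.smul_snd, map_smul, LinearMap.smul_apply, smul_eq_mul]
  ring

variable [Finite W]

/-- totally singular subspaces have at most `|W|` elements -/
theorem ppts_card_le (L : Submodule (ZMod ℓ) (W × Module.Dual (ZMod ℓ) W))
    (hL : ∀ x ∈ L, pptsQ x = 0) : Nat.card L ≤ Nat.card W := by
  have hfd : FiniteDimensional (ZMod ℓ) W := Module.Finite.of_finite
  let f : L →ₗ[ZMod ℓ] W := (LinearMap.fst (ZMod ℓ) W (Module.Dual (ZMod ℓ) W)).comp L.subtype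
  have hf : ∀ x : L, f x = x.1.1 := fun x => rfl
  -- the kernel embeds in the annihilator of the range
  have hker : Module.finrank (ZMod ℓ) (LinearMap.ker f) ≤
      Module.finrank (ZMod ℓ) (LinearMap.range f).dualAnnihilator := by
    let g : LinearMap.ker f →ₗ[ZMod ℓ] (LinearMap.range f).dualAnnihilator :=
      LinearMap.codRestrict _
        (((LinearMap.snd (ZMod ℓ) W (Module.Dual (ZMod ℓ) W)).comp L.subtype).comp
          (LinearMap.ker f).subtype) (by
        intro x
        rw [Submodule.mem_dualAnnihilator]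
        rintro _ ⟨y, rfl⟩
        have h1 : x.1.1.1 = 0 := x.2
        have h2 := hL _ (L.add_mem x.1.2 y.2)
        rw [ppts_add, hL _ x.1.2, hL _ y.2, zero_add, zero_add, pptsB, h1, map_zero,
          add_zero] at h2
        exact h2)
    refine LinearMap.finrank_le_finrank_of_injective (f := g) ?_
    intro x y hxy
    have h1 : x.1.1.2 = y.1.1.2 := congrArg Subtype.val hxy
    have h2 : x.1.1.1 = y.1.1.1 := by
      have h3 : x.1.1.1 = 0 := x.2
      have h4 : y.1.1.1 = 0 := y.2
      rw [h3, h4]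
    exact Subtype.ext (Subtype.ext (Prod.ext h2 h1))
  have h1 := LinearMap.finrank_range_add_finrank_ker f
  have h2 := Subspace.finrank_add_finrank_dualAnnihilator_eq (LinearMap.range f)
  have h3 : Module.finrank (ZMod ℓ) L ≤ Module.finrank (ZMod ℓ) W := by omega
  rw [Module.natCard_eq_pow_finrank (K := ZMod ℓ) (V := L),
    Module.natCard_eq_pow_finrank (K := ZMod ℓ) (V := W), Nat.card_zmod]
  exact Nat.pow_le_pow_right (Fact.out : ℓ.Prime).pos h3

omit [Finite W] in
/-- the span of a set of differences -/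
theorem ppts_span {S : Set (W × Module.Dual (ZMod ℓ) W)}
    (hQ : ∀ x ∈ S, pptsQ x = 0) (hB : ∀ x ∈ S, ∀ y ∈ S, pptsB x y = 0) :
    ∀ x ∈ Submodule.span (ZMod ℓ) S, pptsQ x = 0 := by
  have hBl : ∀ x ∈ S, ∀ y ∈ Submodule.span (ZMod ℓ) S, pptsB x y = 0 := by
    intro x hx y hy
    induction hy using Submodule.span_induction with
    | mem y hy => exact hB x hx y hy
    | zero => simp [pptsB]
    | add y z _ _ h1 h2 =>
      simp only [pptsB, Prod.fst_add, Prod.snd_add, map_add, LinearMap.add_apply] at h1 h2 ⊢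
      linear_combination h1 + h2
    | smul r y _ h1 =>
      simp only [pptsB, Prod.smul_fst, Prod.smul_snd, map_smul, LinearMap.smul_apply,
        smul_eq_mul] at h1 ⊢
      linear_combination r * h1
  have hBs : ∀ x ∈ Submodule.span (ZMod ℓ) S, ∀ y ∈ Submodule.span (ZMod ℓ) S,
      pptsB x y = 0 := by
    intro x hx y hy
    induction hx using Submodule.span_induction with
    | mem x hx => exact hBl x hx y hy
    | zero => simp [pptsB]
    | add x z _ _ h1 h2 =>
      simp only [pptsB, Prod.fst_add, Prod.snd_add, map_add, LinearMap.add_apply] at h1 h2 ⊢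
      linear_combination h1 + h2
    | smul r x _ h1 =>
      simp only [pptsB, Prod.smul_fst, Prod.smul_snd, map_smul, LinearMap.smul_apply,
        smul_eq_mul] at h1 ⊢
      linear_combination r * h1
  intro x hx
  induction hx using Submodule.span_induction with
  | mem x hx => exact hQ x hx
  | zero => simp [pptsQ]
  | add x z hx hz h1 h2 => rw [ppts_add, h1, h2, hBs x hx z hz, add_zero, add_zero]
  | smul r x _ h1 => rw [ppts_smul, h1, mul_zero]

end ts

theorem tPpTS : StmtPpTS := by
  classical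
  intro ℓ _ W _ _ _ 𝓥 h𝓥
  have hfD : Finite (Module.Dual (ZMod ℓ) W) := DFunLike.finite _
  have hQ : ∀ w ∈ 𝓥, ∀ w' ∈ 𝓥, pptsQ (w - w') = 0 := by
    intro w hw w' hw'
    have h1 := h𝓥 w hw w' hw'
    rwa [ppts_BW, neg_eq_zero] at h1
  have hpos : 0 < Nat.card W := Nat.card_pos
  -- the span of the differences
  have key : ∀ u₀ ∈ 𝓥, (∀ x ∈ Submodule.span (ZMod ℓ) {x | x + u₀ ∈ 𝓥}, pptsQ x = 0) ∧
      𝓥.card ≤ Nat.card (Submodule.span (ZMod ℓ) {x | x + u₀ ∈ 𝓥}) := by
    intro u₀ hu₀
    constructor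
    · have h1 : ∀ x ∈ {x | x + u₀ ∈ 𝓥}, pptsQ x = 0 := by
        intro x hx
        have h2 := hQ _ hx u₀ hu₀
        rwa [add_sub_cancel_right] at h2
      refine ppts_span h1 fun x hx y hy => ?_
      have h2 := hQ _ hx _ hy
      rw [add_sub_add_right_eq_sub, ppts_sub, h1 x hx, h1 y hy, zero_add, zero_sub,
        neg_eq_zero] at h2
      exact h2
    · have h1 : 𝓥.card = Nat.card 𝓥 := by rw [Nat.card_eq_fintype_card, Fintype.card_coe]
      rw [h1]
      refine Nat.card_le_card_of_injective (fun u : 𝓥 => (⟨u.1 - u₀, Submodule.subset_span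
        (by simp)⟩ : Submodule.span (ZMod ℓ) {x | x + u₀ ∈ 𝓥})) ?_
      intro u v huv
      have h2 : u.1 - u₀ = v.1 - u₀ := congrArg Subtype.val huv
      exact Subtype.ext (sub_left_injective h2)
  constructor
  · rcases 𝓥.eq_empty_or_nonempty with h | ⟨u₀, hu₀⟩
    · rw [h, Finset.card_empty]
      exact Nat.zero_le _
    · obtain ⟨h1, h2⟩ := key u₀ hu₀
      exact h2.trans (ppts_card_le _ h1)
  · intro hcard u₀ hu₀
    obtain ⟨h1, h2⟩ := key u₀ hu₀
    set L := Submodule.span (ZMod ℓ) {x | x + u₀ ∈ 𝓥} with hL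
    have h3 : Nat.card L = Nat.card W := le_antisymm (ppts_card_le _ h1) (hcard ▸ h2)
    have hsurj : ∀ x ∈ L, x + u₀ ∈ 𝓥 := by
      -- the injection from the set to the span is a bijection
      let φ : 𝓥 → L := fun u => ⟨u.1 - u₀, Submodule.subset_span (by simp)⟩
      have hφ : Function.Injective φ := by
        intro u v huv
        have h2 : u.1 - u₀ = v.1 - u₀ := congrArg Subtype.val huv
        exact Subtype.ext (sub_left_injective h2)
      have hfL : Finite L := Subtype.finite
      have h4 : Nat.card 𝓥 = Nat.card L := by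
        rw [h3, ← hcard, Nat.card_eq_fintype_card, Fintype.card_coe]
      have h5 : Function.Bijective φ := by
        have : Fintype L := Fintype.ofFinite L
        rw [Fintype.bijective_iff_injective_and_card]
        refine ⟨hφ, ?_⟩
        rw [Nat.card_eq_fintype_card, Nat.card_eq_fintype_card] at h4
        exact h4
      intro x hx
      obtain ⟨u, hu⟩ := h5.2 ⟨x, hx⟩
      have h6 : u.1 - u₀ = x := congrArg Subtype.val hu
      rw [← h6, sub_add_cancel]
      exact u.2
    refine ⟨L, fun u => ⟨fun hu => Submodule.subset_span (by simpa using hu), fun hu => ?_⟩,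
      h1, fun e he => ?_⟩
    · have h4 := hsurj _ hu
      rwa [sub_add_cancel] at h4
    · by_contra hne
      let L' := L ⊔ Submodule.span (ZMod ℓ) {((0 : W), e)}
      have h4 : ∀ x ∈ L', pptsQ x = 0 := by
        intro x hx
        obtain ⟨y, hy, z, hz, rfl⟩ := Submodule.mem_sup.1 hx
        obtain ⟨r, rfl⟩ := Submodule.mem_span_singleton.1 hz
        rw [ppts_add, h1 y hy]
        simp [pptsQ, pptsB, he y hy]
      have h5 : L < L' := by
        refine lt_of_le_of_ne le_sup_left fun h => hne ?_
        rw [h]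
        exact (le_sup_right : Submodule.span (ZMod ℓ) {((0 : W), e)} ≤ L')
          (Submodule.mem_span_singleton_self _)
      have h6 : Nat.card L < Nat.card L' := by
        have hfd : FiniteDimensional (ZMod ℓ) (W × Module.Dual (ZMod ℓ) W) :=
          Module.Finite.of_finite
        rw [Module.natCard_eq_pow_finrank (K := ZMod ℓ) (V := L),
          Module.natCard_eq_pow_finrank (K := ZMod ℓ) (V := L'), Nat.card_zmod]
        exact Nat.pow_lt_pow_right (Fact.out : ℓ.Prime).one_lt
          (Submodule.finrank_lt_finrank_of_lt h5)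
      have h7 := ppts_card_le L' h4
      omega

end MP72e2e6
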