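import Pool.Agent.Lib.MP_72e2e6_nt.PpStmt

/-!
# MP_72e2e6_nt: positive proportion of twists, module PpTri
-/

namespace MP72e2e6

open Polynomial

universe u

theorem pptri_chc {F : Type u} [Field F] {ℓ : ℕ} [NeZero ℓ] {V U : Type} [Fintype V]
    (χ : F → ZMod ℓ) (pr : V → F[X]) (α : V → U → ZMod ℓ) (αi : U → ZMod ℓ) (w : U) (P : F[X]) :
    ‖chc χ pr α αi w P‖ ≤ 1 := by
  unfold chc
  split_ifs
  · rw [norm_zero]
    exact zero_le_one
  · exact (AddChar.norm_apply _ _).le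

theorem pptri_wgt {F : Type u} [Field F] {ℓ : ℕ} [NeZero ℓ] {V U : Type} [Fintype V]
    [Fintype U] (χ : F → ZMod ℓ) (pr : V → F[X]) (α : V → U → ZMod ℓ) (αi : U → ZMod ℓ)
    (B : U → U → ZMod ℓ) (N : ℕ) (p : U → Finset F[X]) :
    ‖wgt χ pr α αi B N p‖ ≤ ∏ w, (1 / N : ℝ) ^ (p w).card := by
  unfold wgt
  split_ifs
  · rw [norm_mul, AddChar.norm_apply, mul_one, norm_prod]
    refine Finset.prod_le_prod (fun _ _ => norm_nonneg _) fun w _ => ?_
    rw [norm_prod, ← Finset.prod_const]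
    refine Finset.prod_le_prod (fun _ _ => norm_nonneg _) fun P _ => ?_
    rw [norm_mul, norm_inv, Complex.norm_natCast, one_div]
    exact mul_le_of_le_one_right (by positivity) (pptri_chc _ _ _ _ _ _)
  · rw [norm_zero]
    exact Finset.prod_nonneg fun w _ => by positivity

theorem tPpTri.{v} : StmtPpTri.{v} := by
  intro F _ _ ℓ _ χ V U _ _ _ pr α αi B N ν
  unfold Tnu GG
  rw [Finset.prod_univ_sum]
  refine (norm_sum_le _ _).trans (Finset.sum_le_sum fun p _ => ?_)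
  exact pptri_wgt _ _ _ _ _ _ _

end MP72e2e6
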