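import Pool.Agent.Lib.MP_72e2e6_nt.TwStmt

/-!
# MP_72e2e6_nt: factorization and symbols
-/

set_option autoImplicit false

namespace MP72e2e6

open Polynomial

universe u

theorem twfac_not_dvd {F : Type u} [Field F] {P Q : F[X]} (hP : P.Monic) (hPi : Irreducible P)
    (hQ : Q.Monic) (hQi : Irreducible Q) (h : Q ≠ P) : ¬ Q ∣ P := by
  intro hd
  exact h (Polynomial.eq_of_monic_of_associated hQ hP ((hQi.dvd_irreducible_iff_associated hPi).mp hd))

theorem tTwFac.{v} (hSy : StmtTwSy.{v}) : StmtTwFac.{v} := by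
  intro F _ _ hF ι _ pr hpr
  obtain ⟨hcs, hP⟩ := hSy F hF
  suffices H : ∀ (N : ℕ) (h : F[X]), h.natDegree = N → h ≠ 0 →
      (∀ P : F[X], P.Monic → Irreducible P → (∀ b, pr b ≠ P) → vp P h = 0) →
      (∀ b, sy (pr b) h = (pr b).natDegree * cs h.leadingCoeff +
        ∑ b', vp (pr b') h * sy (pr b) (pr b')) ∧
      (h.natDegree : ZMod 2) = ∑ b, (pr b).natDegree * vp (pr b) h ∧
      (cs h.leadingCoeff = 0 → (∀ b, vp (pr b) h = 0) → IsSquare h) by
    intro h h0 hv
    exact H _ h rfl h0 hv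
  intro N
  induction N using Nat.strong_induction_on with
  | _ N ih =>
  intro h hN h0 hv
  have key : ∀ P : F[X], P.Monic → Irreducible P → P ∣ h → vp P h = 0 →
      (∀ b, sy (pr b) h = (pr b).natDegree * cs h.leadingCoeff +
        ∑ b', vp (pr b') h * sy (pr b) (pr b')) ∧
      (h.natDegree : ZMod 2) = ∑ b, (pr b).natDegree * vp (pr b) h ∧
      (cs h.leadingCoeff = 0 → (∀ b, vp (pr b) h = 0) → IsSquare h) := by
    rintro P hPm hPi ⟨g, hg⟩ hv0
    have hP0 : P ≠ 0 := hPm.ne_zero
    have hg0 : g ≠ 0 := by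
      rintro rfl
      exact h0 (by rw [hg, mul_zero])
    obtain ⟨hmul, hnd, hPP, hsPP, hC⟩ := hP P hPm hPi
    have hdg : P ∣ g := by
      by_contra hcon
      rw [hg, (hmul P g hP0 hg0).1, hPP, (hnd g hcon).1, add_zero] at hv0
      exact one_ne_zero hv0
    obtain ⟨h₂, rfl⟩ := hdg
    have h20 : h₂ ≠ 0 := by
      rintro rfl
      exact hg0 (mul_zero _)
    have hvp : ∀ Q : F[X], Q.Monic → Irreducible Q → vp Q h = vp Q h₂ := by
      intro Q hQm hQi
      obtain ⟨hm, -⟩ := hP Q hQm hQi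
      rw [hg, (hm P _ hP0 hg0).1, (hm P _ hP0 h20).1, ← add_assoc, CharTwo.add_self_eq_zero,
        zero_add]
    have hsy : ∀ Q : F[X], Q.Monic → Irreducible Q → sy Q h = sy Q h₂ := by
      intro Q hQm hQi
      obtain ⟨hm, -⟩ := hP Q hQm hQi
      rw [hg, (hm P _ hP0 hg0).2, (hm P _ hP0 h20).2, ← add_assoc, CharTwo.add_self_eq_zero,
        zero_add]
    have hlc : h.leadingCoeff = h₂.leadingCoeff := by
      rw [hg, leadingCoeff_mul, leadingCoeff_mul, hPm.leadingCoeff, one_mul, one_mul]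
    have hdeg : h.natDegree = P.natDegree + (P.natDegree + h₂.natDegree) := by
      rw [hg, natDegree_mul hP0 hg0, natDegree_mul hP0 h20]
    have hpos : 0 < P.natDegree := hPi.natDegree_pos
    obtain ⟨a1, a2, a3⟩ := ih h₂.natDegree (by omega) h₂ rfl h20 (fun Q hQm hQi hQ => by
      rw [← hvp Q hQm hQi]
      exact hv Q hQm hQi hQ)
    refine ⟨?_, ?_, ?_⟩
    · intro b
      rw [hsy _ (hpr.monic b) (hpr.irr b), a1 b, hlc]
      congr 1
      refine Finset.sum_congr rfl fun b' _ => ?_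
      rw [hvp _ (hpr.monic b') (hpr.irr b')]
    · rw [hdeg, Nat.cast_add, Nat.cast_add, ← add_assoc, CharTwo.add_self_eq_zero, zero_add, a2]
      refine Finset.sum_congr rfl fun b' _ => ?_
      rw [hvp _ (hpr.monic b') (hpr.irr b')]
    · intro hc hb
      obtain ⟨r, hr⟩ := a3 (by rwa [← hlc]) (fun b => by
        rw [← hvp _ (hpr.monic b) (hpr.irr b)]
        exact hb b)
      refine ⟨P * r, ?_⟩
      rw [hg, hr]
      ring
  rcases Nat.eq_zero_or_pos h.natDegree with hd | hd
  · obtain ⟨x, hx⟩ : ∃ x, h = C x := ⟨_, eq_C_of_natDegree_eq_zero hd⟩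
    have hx0 : x ≠ 0 := by
      rintro rfl
      exact h0 (by rw [hx, C_0])
    have hvx : ∀ b, vp (pr b) h = 0 := by
      intro b
      obtain ⟨-, -, -, -, hC⟩ := hP _ (hpr.monic b) (hpr.irr b)
      rw [hx]
      exact (hC x hx0).1
    refine ⟨?_, ?_, ?_⟩
    · intro b
      obtain ⟨-, -, -, -, hC⟩ := hP _ (hpr.monic b) (hpr.irr b)
      rw [Finset.sum_eq_zero (fun b' _ => by rw [hvx b', zero_mul]), add_zero, hx,
        leadingCoeff_C]
      exact (hC x hx0).2
    · rw [hd, Nat.cast_zero, Finset.sum_eq_zero (fun b' _ => by rw [hvx b', mul_zero])]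
    · intro hc _
      rw [hx, leadingCoeff_C] at hc
      have hsq : IsSquare x := by
        by_contra hcon
        rw [cs, if_neg hcon] at hc
        exact one_ne_zero hc
      rw [hx]
      exact hsq.map C
  · obtain ⟨P, hPm, hPi, hPd⟩ := Polynomial.exists_monic_irreducible_factor h
      (fun hu => by rw [natDegree_eq_zero_of_isUnit hu] at hd; exact lt_irrefl _ hd)
    by_cases hrange : ∀ b, pr b ≠ P
    · exact key P hPm hPi hPd (hv P hPm hPi hrange)
    · push Not at hrange
      obtain ⟨b₀, hb₀⟩ := hrange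
      obtain ⟨g, hg⟩ := hPd
      have hP0 : P ≠ 0 := hPm.ne_zero
      have hg0 : g ≠ 0 := by
        rintro rfl
        exact h0 (by rw [hg, mul_zero])
      have hlc : h.leadingCoeff = g.leadingCoeff := by
        rw [hg, leadingCoeff_mul, hPm.leadingCoeff, one_mul]
      have hdeg : h.natDegree = P.natDegree + g.natDegree := by
        rw [hg, natDegree_mul hP0 hg0]
      have hpos : 0 < P.natDegree := hPi.natDegree_pos
      have hvp : ∀ Q : F[X], Q.Monic → Irreducible Q → Q ≠ P → vp Q h = vp Q g := by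
        intro Q hQm hQi hQ
        obtain ⟨hm, hnd, -⟩ := hP Q hQm hQi
        rw [hg, (hm P _ hP0 hg0).1, (hnd P (twfac_not_dvd hPm hPi hQm hQi hQ)).1, zero_add]
      have hvP : vp P h = 1 + vp P g := by
        obtain ⟨hm, -, hPP, -⟩ := hP P hPm hPi
        rw [hg, (hm P _ hP0 hg0).1, hPP]
      obtain ⟨a1, a2, -⟩ := ih g.natDegree (by omega) g rfl hg0 (fun Q hQm hQi hQ => by
        rw [← hvp Q hQm hQi (fun h => hQ b₀ (by rw [hb₀, h]))]
        exact hv Q hQm hQi hQ)
      classical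
      have hvb : ∀ b, vp (pr b) h = (if b = b₀ then 1 else 0) + vp (pr b) g := by
        intro b
        by_cases hb : b = b₀
        · subst hb
          rw [if_pos rfl, hb₀, hvP]
        · rw [if_neg hb, zero_add]
          exact hvp _ (hpr.monic b) (hpr.irr b) (fun h => hb (hpr.inj (by rw [h, hb₀])))
      refine ⟨?_, ?_, ?_⟩
      · intro b
        obtain ⟨hm, -⟩ := hP _ (hpr.monic b) (hpr.irr b)
        have e1 : sy (pr b) h = sy (pr b) P + sy (pr b) g := by
          rw [hg, (hm P _ hP0 hg0).2]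
        rw [e1, a1 b, hlc]
        simp_rw [hvb, add_mul]
        rw [Finset.sum_add_distrib]
        simp only [ite_mul, one_mul, zero_mul, Finset.sum_ite_eq', Finset.mem_univ, if_true]
        rw [hb₀]
        ring
      · rw [hdeg, Nat.cast_add, a2]
        simp_rw [hvb, mul_add]
        rw [Finset.sum_add_distrib]
        simp only [mul_ite, mul_one, mul_zero, Finset.sum_ite_eq', Finset.mem_univ, if_true]
        rw [hb₀]
      · intro hc hb
        exact (key P hPm hPi ⟨g, hg⟩ (by rw [← hb₀]; exact hb b₀)).2.2 hc hb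

end MP72e2e6
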