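import Pool.Agent.Lib.MP_72e2e6_nt.TwStmtB

/-!
# MP_72e2e6_nt: the order of the torsion group modulo squares (TwIdx)
-/

namespace MP72e2e6

open Polynomial IsDedekindDomain WithZero

universe u

section

theorem twidx_card (n : ℕ) :
    Nat.card {c : Fin (n + 1) → ZMod 2 // ∑ i, c i = 0} = 2 ^ n := by
  let e : {c : Fin (n + 1) → ZMod 2 // ∑ i, c i = 0} ≃ (Fin n → ZMod 2) :=
    { toFun := fun c i => c.1 i.succ
      invFun := fun f => ⟨Fin.cons (-∑ i, f i) f, by
        rw [Fin.sum_univ_succ]
        simp only [Fin.cons_zero, Fin.cons_succ]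
        ring⟩
      left_inv := by
        rintro ⟨c, hc⟩
        apply Subtype.ext
        funext i
        refine Fin.cases ?_ (fun i => ?_) i
        · rw [Fin.sum_univ_succ] at hc
          simp only [Fin.cons_zero]
          linear_combination -hc
        · simp only [Fin.cons_succ]
      right_inv := by
        intro f
        funext i
        simp only [Fin.cons_succ] }
  rw [Nat.card_congr e, Nat.card_fun, Nat.card_eq_fintype_card (α := Fin n), Fintype.card_fin,
    Nat.card_eq_fintype_card, ZMod.card]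

variable {F : Type u} [Field F]

/-- The valuation of `tau`. -/
theorem twidx_tau {m : ℕ} (E : F[X]) (a : Fin m → F[X]) (P : F[X])
    (hP : Irreducible P) (hPE : P ∣ E) (hPE2 : ¬ P ^ 2 ∣ E)
    (hPa : ∀ i j, i ≠ j → ¬ P ∣ a i - a j) (v : HeightOneSpectrum F[X])
    (hv : v.asIdeal = Ideal.span {P}) (c : Fin m → ZMod 2) (i : Fin m) :
    v.valuation (RatFunc F) (algebraMap F[X] (RatFunc F) (tau E a c i)) =
      WithZero.exp (-((c i).val : ℤ)) := by
  have h1 : ∀ k, v.valuation (RatFunc F) (algebraMap F[X] (RatFunc F)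
      ((a i - a k) ^ (c i + c k).val)) = 1 := by
    intro k
    by_cases hk : i = k
    · subst hk
      have h2 : c i + c i = 0 := by
        have : ∀ x : ZMod 2, x + x = 0 := by decide
        exact this _
      rw [h2, ZMod.val_zero, pow_zero, map_one, map_one]
    · rw [map_pow, map_pow]
      have h2 : v.valuation (RatFunc F) (algebraMap F[X] (RatFunc F) (a i - a k)) = 1 := by
        rw [HeightOneSpectrum.valuation_eq_one_iff_notMem, hv, Ideal.mem_span_singleton]
        exact hPa i k hk
      rw [h2, one_pow]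
  have h2 : v.valuation (RatFunc F) (algebraMap F[X] (RatFunc F)
      (∏ k, (a i - a k) ^ (c i + c k).val)) = 1 := by
    rw [map_prod, map_prod]
    exact Finset.prod_eq_one fun k _ => h1 k
  have h3 : v.valuation (RatFunc F) (algebraMap F[X] (RatFunc F) (-E)) =
      WithZero.exp (-1 : ℤ) := by
    obtain ⟨E', rfl⟩ := hPE
    have h4 : ¬ P ∣ E' := fun h5 => hPE2 (by rw [sq]; exact mul_dvd_mul_left P h5)
    have h5 : v.valuation (RatFunc F) (algebraMap F[X] (RatFunc F) E') = 1 := by
      rw [HeightOneSpectrum.valuation_eq_one_iff_notMem, hv, Ideal.mem_span_singleton]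
      exact h4
    rw [map_neg, Valuation.map_neg, map_mul, map_mul, h5, mul_one,
      HeightOneSpectrum.valuation_of_algebraMap,
      HeightOneSpectrum.intValuation_singleton v hP.ne_zero hv]
  rw [tau, map_mul, map_mul, h2, mul_one, map_pow, map_pow, h3, ← WithZero.exp_nsmul]
  congr 1
  simp

theorem twidx_tau_zero {m : ℕ} (E : F[X]) (a : Fin m → F[X]) (i : Fin m) :
    tau E a 0 i = 1 := by
  simp [tau]

end

theorem tTwIdx (_hSy : StmtTwSy.{u}) (hTor : StmtTwTor.{u}) : StmtTwIdx.{u} := by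
  classical
  intro F _ _ _ m hm E hE a ha P hPm hP hPE hPE2 hPa
  obtain ⟨hT1, hT2⟩ := hTor F m hm E hE a ha
  let v : HeightOneSpectrum F[X] :=
    ⟨Ideal.span {P}, (Ideal.span_singleton_prime hP.ne_zero).2 hP.prime, by
      rw [Ne, Ideal.span_singleton_eq_bot]; exact hP.ne_zero⟩
  have hv : v.asIdeal = Ideal.span {P} := rfl
  let Φ : (Fin m → (RatFunc F)ˣ) →* Multiplicative (Fin m → ZMod 2) :=
    logHomJ (RatFunc F) 2 m (fun _ : Fin m => v.valuation (RatFunc F)) id
  have hΦ : ∀ (t : Fin m → (RatFunc F)ˣ) (i : Fin m), (Φ t).toAdd i =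
      ((WithZero.log (v.valuation (RatFunc F) ((t i : (RatFunc F)ˣ) : (RatFunc F))) : ℤ) : ZMod 2) := fun _ _ => rfl
  have hval : ∀ (c : Fin m → ZMod 2) (t : Fin m → (RatFunc F)ˣ),
      (∀ i, ∃ z : (RatFunc F), (t i : (RatFunc F)) = algebraMap F[X] (RatFunc F) (tau E a c i) * z ^ 2) →
      (Φ t).toAdd = c := by
    intro c t h
    funext i
    obtain ⟨z, hz⟩ := h i
    have hz0 : z ≠ 0 := by
      rintro rfl
      rw [zero_pow two_ne_zero, mul_zero] at hz
      exact (t i).ne_zero hz
    have hvz : v.valuation (RatFunc F) z ≠ 0 := (Valuation.ne_zero_iff _).2 hz0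
    rw [hΦ, hz, map_mul, map_pow, twidx_tau E a P hP hPE hPE2 hPa v hv,
      WithZero.log_mul WithZero.exp_ne_zero (pow_ne_zero _ hvz), WithZero.log_exp,
      WithZero.log_pow]
    push_cast
    have h2 : (2 : ℕ) • ((WithZero.log (v.valuation (RatFunc F) z) : ℤ) : ZMod 2) = 0 := by
      rw [nsmul_eq_mul]
      have : ((2 : ℕ) : ZMod 2) = 0 := rfl
      rw [this, zero_mul]
    have h3 : ∀ x : ZMod 2, -x = x := by decide
    have h4 : (((c i).val : ℕ) : ZMod 2) = c i := ZMod.natCast_zmod_val _
    rw [h4, h3]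
    have h5 : ((2 : ZMod 2)) = 0 := rfl
    simp [h5]
  set T := torsionGroup 2 (pts E a) (fun _ => 1) with hT
  let Ψ := Φ.comp T.subtype
  have hker : Ψ.ker = (powGroup 2 (RatFunc F) m).subgroupOf T := by
    ext t
    rw [MonoidHom.mem_ker, Subgroup.mem_subgroupOf]
    constructor
    · intro h
      obtain ⟨c, _, hc⟩ := hT1 t.1 t.2
      have h1 := hval c t.1 hc
      have h2 : c = 0 := by
        rw [← h1]
        have h3 : Φ t.1 = 1 := h
        rw [h3]
        rfl
      subst h2
      choose z hz using hc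
      have hz0 : ∀ i, z i ≠ 0 := by
        intro i h4
        have h5 := hz i
        rw [h4, zero_pow two_ne_zero, mul_zero] at h5
        exact (t.1 i).ne_zero h5
      refine ⟨fun i => Units.mk0 (z i) (hz0 i), ?_⟩
      funext i
      apply Units.ext
      rw [powMonoidHom_apply, Pi.pow_apply, Units.val_pow_eq_pow_val, Units.val_mk0, hz i,
        twidx_tau_zero, map_one, one_mul]
    · intro h
      exact powGroup_le_ker_logHomJ _ _ h
  have hne : ∀ (c : Fin m → ZMod 2) (i : Fin m), algebraMap F[X] (RatFunc F) (tau E a c i) ≠ 0 := by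
    intro c i h
    have h1 := twidx_tau E a P hP hPE hPE2 hPa v hv c i
    rw [h, map_zero] at h1
    exact WithZero.exp_ne_zero h1.symm
  have hrange : ∀ x : Multiplicative (Fin m → ZMod 2), x ∈ Ψ.range ↔ ∑ i, x.toAdd i = 0 := by
    intro x
    constructor
    · rintro ⟨t, rfl⟩
      obtain ⟨c, hc0, hc⟩ := hT1 t.1 t.2
      have h1 : (Ψ t).toAdd = c := hval c t.1 hc
      rw [h1]
      exact hc0
    · intro hx
      let t : Fin m → (RatFunc F)ˣ := fun i => Units.mk0 _ (hne x.toAdd i)
      have ht : ∀ i, ∃ z : (RatFunc F), (t i : (RatFunc F)) = algebraMap F[X] (RatFunc F) (tau E a x.toAdd i) * z ^ 2 :=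
        fun i => ⟨1, by rw [one_pow, mul_one]; rfl⟩
      refine ⟨⟨t, hT2 x.toAdd hx t ht⟩, ?_⟩
      apply Multiplicative.toAdd.injective
      exact hval x.toAdd t ht
  obtain ⟨n, rfl⟩ : ∃ n, m = n + 1 := ⟨m - 1, by have := hm.pos; omega⟩
  rw [Subgroup.relIndex, ← hker, Subgroup.index_ker, Nat.add_sub_cancel, ← twidx_card n]
  exact Nat.card_congr (Equiv.subtypeEquiv Multiplicative.toAdd fun x => hrange x)

end MP72e2e6
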