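import Pool.Agent.Lib.MP_72e2e6_nt.TwStmt

/-!
# MP_72e2e6_nt: the local lemma for twists in normed fields
-/

namespace MP72e2e6

open Polynomial IntermediateField Module

universe u

section sq

variable {K : Type*} [Field K]

/-- equality up to a nonzero square -/
def twlocE (x y : K) : Prop := ∃ z : K, z ≠ 0 ∧ x = y * z ^ 2

theorem twloc_refl (x : K) : twlocE x x := ⟨1, one_ne_zero, by ring⟩

theorem twloc_symm {x y : K} (h : twlocE x y) : twlocE y x := by
  obtain ⟨z, hz, h⟩ := h
  refine ⟨z⁻¹, inv_ne_zero hz, ?_⟩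
  rw [h, mul_assoc, ← mul_pow, mul_inv_cancel₀ hz, one_pow, mul_one]

theorem twloc_trans {x y w : K} (h : twlocE x y) (h' : twlocE y w) : twlocE x w := by
  obtain ⟨z, hz, h⟩ := h
  obtain ⟨z', hz', h'⟩ := h'
  exact ⟨z' * z, mul_ne_zero hz' hz, by rw [h, h']; ring⟩

theorem twloc_mul {x y x' y' : K} (h : twlocE x y) (h' : twlocE x' y') :
    twlocE (x * x') (y * y') := by
  obtain ⟨z, hz, h⟩ := h
  obtain ⟨z', hz', h'⟩ := h'
  exact ⟨z * z', mul_ne_zero hz hz', by rw [h, h']; ring⟩

theorem twloc_prod {ι : Type*} (s : Finset ι) (f g : ι → K) (h : ∀ i ∈ s, twlocE (f i) (g i)) :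
    twlocE (∏ i ∈ s, f i) (∏ i ∈ s, g i) := by
  classical
  induction s using Finset.induction_on with
  | empty => simpa using twloc_refl (1 : K)
  | insert a s ha ih =>
    rw [Finset.prod_insert ha, Finset.prod_insert ha]
    exact twloc_mul (h a (Finset.mem_insert_self _ _))
      (ih fun i hi => h i (Finset.mem_insert_of_mem hi))

theorem twloc_sq {x : K} (h : x ≠ 0) : twlocE (x ^ 2) 1 := ⟨x, h, by ring⟩

theorem twloc_even {x : K} (h : x ≠ 0) {n : ℕ} (hn : Even n) : twlocE (x ^ n) 1 := by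
  obtain ⟨k, rfl⟩ := hn
  exact ⟨x ^ k, pow_ne_zero _ h, by ring⟩

theorem twloc_inv {x : K} (h : x ≠ 0) : twlocE x⁻¹ x := by
  refine ⟨x⁻¹, inv_ne_zero h, ?_⟩
  rw [pow_two, ← mul_assoc, mul_inv_cancel₀ h, one_mul]

theorem twloc_norm {M L : Type*} [Field M] [Field L] [Algebra M L] [FiniteDimensional M L]
    {x y : L} (h : twlocE x y) : twlocE (Algebra.norm M x) (Algebra.norm M y) := by
  obtain ⟨z, hz, h⟩ := h
  exact ⟨Algebra.norm M z, Algebra.norm_ne_zero_iff.2 hz, by rw [h, map_mul, map_pow]⟩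

theorem twloc_to_sq {x : K} (h : twlocE x 1) : ∃ z : K, x = z ^ 2 := by
  obtain ⟨z, -, h⟩ := h
  exact ⟨z, by rw [h, one_mul]⟩

theorem twloc_of_sq {x z : K} (h0 : x ≠ 0) (h : x = z ^ 2) : twlocE x 1 := by
  refine ⟨z, ?_, by rw [h, one_mul]⟩
  rintro rfl
  exact h0 (by rw [h]; ring)

end sq

theorem twloc_near {L : Type u} [NontriviallyNormedField L] [IsUltrametricDist L]
    [CompleteSpace L] (p : ℕ) [Fact p.Prime] [CharP L p] (hcop : Nat.Coprime 2 p) {x y : L}
    (h : ‖x - y‖ < ‖y‖) : twlocE x y := by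
  have hy : y ≠ 0 := by
    rintro rfl
    rw [norm_zero] at h
    exact absurd h (not_lt.2 (norm_nonneg _))
  have hyp : 0 < ‖y‖ := norm_pos_iff.2 hy
  obtain ⟨z, hz, hz1⟩ := exists_pow_eq_of_principal p (N := 2) hcop (y := x / y) (by
      rw [div_sub_one hy, norm_div, div_lt_one hyp]
      exact h)
  refine ⟨z, ?_, ?_⟩
  · rintro rfl
    rw [zero_sub, norm_neg, norm_one] at hz1
    exact lt_irrefl _ hz1
  · rw [hz, mul_div_cancel₀ _ hy]

theorem twloc_mem2 {K : Type*} [Field K] {n : ℕ} {a : Fin n → K} (ha : Function.Injective a)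
    {b : Fin n → ℕ} (j k : Fin n) {d : Fin n → Kˣ}
    (h : ∀ i, twlocE (d i : K) (torsionTuple a b j i * torsionTuple a b k i)) :
    d ∈ torsionGroup 2 a b := by
  classical
  let U : Fin n → Kˣ := fun i => Units.mk0 _ (torsionTuple_ne_zero ha b k i)
  have hU : U ∈ torsionGroup 2 a b := mem_torsionGroup_of two_ne_zero ha k 1 fun i =>
    ⟨1, by simp [U]⟩
  have hd : d * U⁻¹ ∈ torsionGroup 2 a b := by
    refine mem_torsionGroup_of two_ne_zero ha j 1 fun i => ?_
    obtain ⟨z, hz, h⟩ := h i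
    refine ⟨z, ?_⟩
    have h0 := torsionTuple_ne_zero ha b k i
    simp only [Pi.mul_apply, Pi.inv_apply, Units.val_mul, Units.val_inv_eq_inv_val, U,
      Units.val_mk0, h, pow_one]
    field_simp
  have := Subgroup.mul_mem _ hd hU
  rwa [inv_mul_cancel_right] at this

theorem twloc_norm_quad {M : Type u} [Field M] {L : Type u} [Field L] [Algebra M L]
    [FiniteDimensional M L] (u : M) (hu : ∀ b : M, b ^ 2 ≠ u) (s : L)
    (hs : s ^ 2 = algebraMap M L u) :
    Even (finrank M L) ∧ ∀ x : L, ∃ α β : M, Algebra.norm M x = α ^ 2 - u * β ^ 2 := by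
  set g : M[X] := X ^ 2 - C u with hg
  have hgm : g.Monic := monic_X_pow_sub_C u two_ne_zero
  have hgi : Irreducible g := X_pow_sub_C_irreducible_of_prime Nat.prime_two hu
  have hgd : g.natDegree = 2 := natDegree_X_pow_sub_C
  haveI : Fact (Irreducible g) := ⟨hgi⟩
  haveI : FiniteDimensional M (AdjoinRoot g) := (AdjoinRoot.powerBasis hgi.ne_zero).finite
  have h2 : finrank M (AdjoinRoot g) = 2 := by
    rw [(AdjoinRoot.powerBasis hgi.ne_zero).finrank, AdjoinRoot.powerBasis_dim, hgd]
  letI : Algebra (AdjoinRoot g) L := (AdjoinRoot.lift (algebraMap M L) s (by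
    rw [hg, eval₂_sub, eval₂_pow, eval₂_X, eval₂_C, hs, sub_self])).toAlgebra
  haveI : IsScalarTower M (AdjoinRoot g) L := IsScalarTower.of_algebraMap_eq fun y => by
    rw [RingHom.algebraMap_toAlgebra]
    exact (AdjoinRoot.lift_of _).symm
  haveI : FiniteDimensional (AdjoinRoot g) L :=
    Module.Finite.of_restrictScalars_finite M (AdjoinRoot g) L
  refine ⟨⟨finrank (AdjoinRoot g) L, ?_⟩, fun x => ?_⟩
  · rw [← Module.finrank_mul_finrank M (AdjoinRoot g) L, h2]
    ring
  · rw [← Algebra.norm_norm (S := AdjoinRoot g)]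
    obtain ⟨f, hf⟩ := AdjoinRoot.mk_surjective (Algebra.norm (AdjoinRoot g) x)
    have hf' : AdjoinRoot.mk g f = AdjoinRoot.mk g (f %ₘ g) := by
      rw [AdjoinRoot.mk_eq_mk]
      have := Polynomial.modByMonic_add_div f g
      exact ⟨f /ₘ g, by linear_combination this.symm⟩
    have hdeg : (f %ₘ g).natDegree ≤ 1 := by
      have := Polynomial.natDegree_modByMonic_lt f hgm (by
        intro h1
        rw [h1, natDegree_one] at hgd
        omega)
      omega
    obtain ⟨a, b, hab⟩ := Polynomial.exists_eq_X_add_C_of_natDegree_le_one hdeg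
    have hy : Algebra.norm (AdjoinRoot g) x =
        algebraMap M (AdjoinRoot g) a * AdjoinRoot.root g + algebraMap M (AdjoinRoot g) b := by
      rw [← hf, hf', hab, map_add, map_mul, AdjoinRoot.mk_X]
      rfl
    refine ⟨b, a, ?_⟩
    by_cases ha : a = 0
    · rw [hy, ha, map_zero, zero_mul, zero_add, Algebra.norm_algebraMap, h2]
      ring
    · have h3 : algebraMap M (AdjoinRoot g) a * AdjoinRoot.root g +
          algebraMap M (AdjoinRoot g) b = algebraMap M (AdjoinRoot g) a *
          (AdjoinRoot.root g - algebraMap M (AdjoinRoot g) (-b / a)) := by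
        have h4 : algebraMap M (AdjoinRoot g) a * algebraMap M (AdjoinRoot g) (-b / a) =
            -algebraMap M (AdjoinRoot g) b := by
          rw [← map_mul, mul_div_cancel₀ _ ha, map_neg]
        rw [mul_sub, h4, sub_neg_eq_add]
      rw [hy, h3, map_mul, norm_root_sub hgm hgi, Algebra.norm_algebraMap, h2, hgd, hg, eval_sub,
        eval_pow, eval_X, eval_C]
      field_simp

section core

variable {F : Type*} [Field F] [Finite F]
  {M : Type u} [NontriviallyNormedField M] [IsUltrametricDist M] [CompleteSpace M] [Algebra F M]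
  {L : Type u} [NontriviallyNormedField L] [IsUltrametricDist L]
  [NormedAlgebra M L] [FiniteDimensional M L] [Algebra F L] [IsScalarTower F M L]

theorem twloc_core (p : ℕ) [Fact p.Prime] [CharP F p] (hp2 : p ≠ 2)
    (hres : ∀ y : M, ‖y‖ ≤ 1 → ∃ α : F, ‖y - algebraMap F M α‖ < 1)
    (v : Valuation M (WithZero (Multiplicative ℤ))) (hv : ∀ x y : M, ‖x‖ ≤ ‖y‖ ↔ v x ≤ v y)
    (m : ℕ) (hm : Odd m) (A : Fin m → M) (hA : Function.Injective A) (r : M)
    (hr : ¬ (2 : ℤ) ∣ WithZero.log (v r)) (j k : Fin m) (hjk : j ≠ k)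
    (hdist : ∀ i l, i ≠ l → ¬ (i = j ∧ l = k) → ¬ (i = k ∧ l = j) → ‖A i - A l‖ = ‖r‖)
    (hjkr : ‖A j - A k‖ ≤ ‖r‖) (x w : L) (d : Fin m → Mˣ)
    (hx : ∏ i, (x - algebraMap M L (A i)) ^ 1 = w ^ 2)
    (hd : ∀ i, (d i : M) = Algebra.norm M (x - algebraMap M L (A i))) :
    d ∈ torsionGroup 2 A (fun _ => 1) := by
  classical
  have hcompl : CompleteSpace L := FiniteDimensional.complete M L
  have hcharL : CharP L p := charP_of_injective_algebraMap (algebraMap F L).injective p
  have hcharM : CharP M p := charP_of_injective_algebraMap (algebraMap F M).injective p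
  have hcop : Nat.Coprime 2 p := (Nat.coprime_primes Nat.prime_two Fact.out).2 (Ne.symm hp2)
  have hr0 : r ≠ 0 := by
    rintro rfl
    exact hr (by rw [map_zero, WithZero.log_zero]; exact dvd_zero _)
  have hrpos : 0 < ‖r‖ := norm_pos_iff.2 hr0
  set X : Fin m → L := fun i => x - algebraMap M L (A i) with hX
  have hdX : ∀ i, (d i : M) = Algebra.norm M (X i) := hd
  have hxX : ∏ i, X i = w ^ 2 := by simpa using hx
  have hX0 : ∀ i, X i ≠ 0 := by
    intro i h0
    have h1 := (d i).ne_zero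
    rw [hdX i, h0] at h1
    exact h1 (Algebra.norm_zero)
  have hw0 : w ≠ 0 := by
    rintro rfl
    have h1 : ∏ i, X i ≠ 0 := Finset.prod_ne_zero_iff.2 fun i _ => hX0 i
    exact h1 (by rw [hxX]; ring)
  have hdiff : ∀ i l, X i - X l = algebraMap M L (A l - A i) := by
    intro i l
    simp only [hX, map_sub]
    ring
  have hndiff : ∀ i l, ‖X i - X l‖ = ‖A i - A l‖ := by
    intro i l
    rw [hdiff, norm_algebraMap', norm_sub_rev]
  have hAle : ∀ i l, ‖A i - A l‖ ≤ ‖r‖ := by
    intro i l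
    by_cases h1 : i = l
    · subst h1
      rw [sub_self, norm_zero]
      exact norm_nonneg _
    by_cases h2 : i = j ∧ l = k
    · rw [h2.1, h2.2]
      exact hjkr
    by_cases h3 : i = k ∧ l = j
    · rw [h3.1, h3.2, norm_sub_rev]
      exact hjkr
    exact (hdist i l h1 h2 h3).le
  have hall : (∀ i, twlocE (d i : M) 1) → d ∈ torsionGroup 2 A (fun _ => 1) := by
    intro h
    refine mem_torsionGroup_of two_ne_zero hA j 0 fun i => ?_
    obtain ⟨z, hz⟩ := twloc_to_sq (h i)
    exact ⟨z, by rw [pow_zero, one_mul, hz]⟩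
  -- case 1
  by_cases c1 : ∃ i, ‖r‖ < ‖X i‖
  · obtain ⟨i, hi⟩ := c1
    have hE : ∀ l, twlocE (X l) (X i) := fun l => twloc_near p hcop (by
      rw [hndiff]
      exact lt_of_le_of_lt (hAle l i) hi)
    have hprod : twlocE (∏ l, X l) (X i ^ m) := by
      have := twloc_prod Finset.univ X (fun _ => X i) (fun l _ => hE l)
      rwa [Finset.prod_const, Finset.card_univ, Fintype.card_fin] at this
    have h1 : twlocE (X i) 1 := by
      obtain ⟨t, ht⟩ := hm
      have h2 : twlocE (X i ^ m) (X i) := ⟨X i ^ t, pow_ne_zero _ (hX0 i), by rw [ht]; ring⟩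
      rw [hxX] at hprod
      exact twloc_trans (twloc_symm h2) (twloc_trans (twloc_symm hprod) (twloc_sq hw0))
    refine hall fun l => ?_
    have h3 := twloc_norm (M := M) (twloc_trans (hE l) h1)
    rw [map_one] at h3
    rw [hdX l]
    exact h3
  -- case 2
  by_cases c2 : ∃ i₀, ∀ i, i ≠ i₀ → ‖X i₀‖ < ‖A i₀ - A i‖
  · obtain ⟨i₀, h0⟩ := c2
    exact mem_torsionGroup_of_close p two_ne_zero hcop hA i₀ (Nat.coprime_one_left 2) x w d hx hd h0
  push Not at c1 c2
  -- case 3
  by_cases c3 : ∀ i, ‖X i‖ = ‖r‖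
  · obtain ⟨t, ht⟩ := hm
    set R : L := algebraMap M L r with hR
    have hR0 : R ≠ 0 := by rwa [hR, Ne, map_eq_zero]
    have hRn : ‖R‖ = ‖r‖ := norm_algebraMap' L r
    set x' := X j / R with hx'
    have hx'n : ‖x'‖ = 1 := by rw [hx', norm_div, hRn, c3 j, div_self hrpos.ne']
    choose c hc using fun i => hres ((A i - A j) / r) (by
      rw [norm_div, div_le_one hrpos]
      exact hAle i j)
    have hXi : ∀ i, X i = R * (x' - algebraMap M L ((A i - A j) / r)) := by
      intro i
      have h1 : X j - X i = algebraMap M L (A i - A j) := hdiff j i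
      rw [mul_sub, hx', mul_div_cancel₀ _ hR0, hR, ← map_mul, mul_div_cancel₀ _ hr0, ← h1]
      ring
    have hn1 : ∀ i, ‖x' - algebraMap M L ((A i - A j) / r)‖ = 1 := by
      intro i
      have h1 := c3 i
      rw [hXi i, norm_mul, hRn] at h1
      exact mul_left_cancel₀ hrpos.ne' (by rw [h1, mul_one])
    have hn3 : ∀ i, ‖(x' - algebraMap F L (c i)) - (x' - algebraMap M L ((A i - A j) / r))‖ < 1 := by
      intro i
      have h1 : (x' - algebraMap F L (c i)) - (x' - algebraMap M L ((A i - A j) / r)) =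
          algebraMap M L ((A i - A j) / r - algebraMap F M (c i)) := by
        rw [map_sub, ← IsScalarTower.algebraMap_apply F M L]
        ring
      rw [h1, norm_algebraMap']
      exact hc i
    have hn2 : ∀ i, ‖x' - algebraMap F L (c i)‖ = 1 := fun i =>
      norm_eq_one_of_sub (hn1 i) (hn3 i)
    have hEi : ∀ i, twlocE (x' - algebraMap M L ((A i - A j) / r)) (x' - algebraMap F L (c i)) :=
      fun i => twloc_near p hcop (by rw [norm_sub_rev, hn2 i]; exact hn3 i)
    obtain ⟨⟨K, hK⟩, hsq⟩ := unit_trick p hres v hv Nat.prime_two hcop r hr0 (by exact_mod_cast hr)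
      x' (∏ i, (x' - algebraMap M L ((A i - A j) / r))) (w / R ^ t) hx'n.le (by
        rw [norm_prod]
        exact Finset.prod_eq_one fun i _ => hn1 i) (by
        have h1 : w ^ 2 = R ^ m * ∏ i, (x' - algebraMap M L ((A i - A j) / r)) := by
          rw [← hxX, Finset.prod_congr rfl (fun i _ => hXi i), Finset.prod_mul_distrib,
            Finset.prod_const, Finset.card_univ, Fintype.card_fin]
        have h2 : R ^ m = R * (R ^ t) ^ 2 := by
          rw [ht]
          ring
        have h3 : (R ^ t) ^ 2 ≠ 0 := pow_ne_zero _ (pow_ne_zero _ hR0)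
        rw [div_pow, h1, h2, mul_right_comm, mul_div_cancel_right₀ _ h3])
    refine hall fun i => ?_
    obtain ⟨z, hz⟩ := hsq (c i) (hn2 i)
    have h1 := twloc_norm (M := M) (hEi i)
    have h2 : Algebra.norm M (x' - algebraMap F L (c i)) ≠ 0 := by
      refine Algebra.norm_ne_zero_iff.2 fun h => ?_
      have := hn2 i
      rw [h, norm_zero] at this
      exact zero_ne_one this
    rw [hdX i, hXi i, map_mul, hR, Algebra.norm_algebraMap]
    have h3 := twloc_mul (twloc_even hr0 (n := finrank M L) ⟨K, by rw [hK]; ring⟩)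
      (twloc_trans h1 (twloc_of_sq h2 hz))
    rwa [one_mul] at h3
  -- cases 4 and 5
  push Not at c3
  obtain ⟨i₀, hi₀⟩ := c3
  have hi₀' : ‖X i₀‖ < ‖r‖ := lt_of_le_of_ne (c1 i₀) hi₀
  have hclose : ∀ i, ‖X i‖ < ‖r‖ → (i = j ∨ i = k) ∧ ‖A j - A k‖ ≤ ‖X i‖ := by
    intro i hi
    obtain ⟨l, hl, hle⟩ := c2 i
    have h1 : ‖A i - A l‖ ≠ ‖r‖ := fun h => absurd (lt_of_le_of_lt hle hi) (by rw [h]; exact lt_irrefl _)
    by_cases h2 : i = j ∧ l = k
    · exact ⟨Or.inl h2.1, by rw [h2.1, h2.2] at hle; rw [h2.1]; exact hle⟩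
    by_cases h3 : i = k ∧ l = j
    · exact ⟨Or.inr h3.1, by rw [h3.1, h3.2, norm_sub_rev] at hle; rw [h3.1]; exact hle⟩
    exact absurd (hdist i l (Ne.symm hl) h2 h3) h1
  obtain ⟨h00, h01⟩ := hclose i₀ hi₀'
  have hδr : ‖A j - A k‖ < ‖r‖ := lt_of_le_of_lt h01 hi₀'
  have hmax : ∀ i l, ‖X i‖ ≤ max ‖X l‖ ‖A i - A l‖ := by
    intro i l
    have h1 : X i = X l + (X i - X l) := by ring
    calc ‖X i‖ = ‖X l + (X i - X l)‖ := by rw [← h1]
      _ ≤ max ‖X l‖ ‖X i - X l‖ := IsUltrametricDist.norm_add_le_max _ _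
      _ = _ := by rw [hndiff]
  have hXj : ‖X j‖ < ‖r‖ := by
    rcases h00 with h | h
    · rw [← h]; exact hi₀'
    · rw [h] at hi₀'
      exact lt_of_le_of_lt (hmax j k) (max_lt hi₀' hδr)
  have hXk : ‖X k‖ < ‖r‖ :=
    lt_of_le_of_lt (hmax k j) (max_lt hXj (by rw [norm_sub_rev]; exact hδr))
  have hjδ : ‖A j - A k‖ ≤ ‖X j‖ := (hclose j hXj).2
  have hkδ : ‖A j - A k‖ ≤ ‖X k‖ := (hclose k hXk).2
  have hAj : ∀ i, i ≠ j → i ≠ k → ‖A j - A i‖ = ‖r‖ := fun i h1 h2 =>
    hdist j i (Ne.symm h1) (fun h => h2 h.2) (fun h => hjk h.1)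
  have hAj0 : ∀ i, i ≠ j → i ≠ k → A j - A i ≠ 0 := fun i h1 _ =>
    sub_ne_zero.2 fun h => h1 (hA h).symm
  have hAk0 : ∀ i, i ≠ j → i ≠ k → A k - A i ≠ 0 := fun i _ h2 =>
    sub_ne_zero.2 fun h => h2 (hA h).symm
  have hEX : ∀ i, i ≠ j → i ≠ k → twlocE (X i) (algebraMap M L (A j - A i)) := by
    intro i h1 h2
    refine twloc_near p hcop ?_
    have h3 : X i - algebraMap M L (A j - A i) = X j := by
      rw [← hdiff i j]; ring
    rw [h3, norm_algebraMap', hAj i h1 h2]
    exact hXj
  have hEA : ∀ i, i ≠ j → i ≠ k → twlocE (A k - A i) (A j - A i) := by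
    intro i h1 h2
    refine twloc_near p hcop ?_
    have h3 : A k - A i - (A j - A i) = A k - A j := by ring
    rw [h3, hAj i h1 h2, norm_sub_rev]
    exact hδr
  set S : Finset (Fin m) := (Finset.univ.erase j).erase k with hS
  have hSmem : ∀ i, i ∈ S → i ≠ j ∧ i ≠ k := by
    intro i hi
    rw [hS, Finset.mem_erase, Finset.mem_erase] at hi
    exact ⟨hi.2.1, hi.1⟩
  have hkmem : k ∈ (Finset.univ : Finset (Fin m)).erase j :=
    Finset.mem_erase.2 ⟨Ne.symm hjk, Finset.mem_univ _⟩
  have hScard : S.card = m - 2 := by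
    rw [hS, Finset.card_erase_of_mem hkmem, Finset.card_erase_of_mem (Finset.mem_univ _),
      Finset.card_univ, Fintype.card_fin]
    omega
  have hm2 : 2 ≤ m := by
    by_contra h
    have h1 := j.isLt
    have h2 := k.isLt
    exact hjk (Fin.ext (by omega))
  have hsplit : ∀ {K : Type u} [Field K] (f : Fin m → K), ∏ i, f i = f j * (f k * ∏ i ∈ S, f i) := by
    intro K _ f
    rw [hS, Finset.mul_prod_erase _ _ hkmem, Finset.mul_prod_erase _ _ (Finset.mem_univ _)]
  set u : M := ∏ i ∈ S, (A j - A i) with hu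
  have hu0 : u ≠ 0 := Finset.prod_ne_zero_iff.2 fun i hi =>
    hAj0 i (hSmem i hi).1 (hSmem i hi).2
  have hvr0 : v r ≠ 0 := (Valuation.ne_zero_iff v).2 hr0
  have hvu : v u = v r ^ (m - 2) := by
    rw [hu, map_prod, ← hScard, ← Finset.prod_const]
    refine Finset.prod_congr rfl fun i hi => ?_
    have h1 := hAj i (hSmem i hi).1 (hSmem i hi).2
    exact le_antisymm ((hv _ _).1 h1.le) ((hv _ _).1 h1.ge)
  have hulog : ¬ (2 : ℤ) ∣ WithZero.log (v u) := by
    rw [hvu, WithZero.log_pow, nsmul_eq_mul]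
    intro h
    rcases Int.prime_two.dvd_or_dvd h with h1 | h1
    · obtain ⟨t, ht⟩ := hm
      rw [ht] at h1
      omega
    · exact hr h1
  have hmain : twlocE (X j * X k * algebraMap M L u) 1 := by
    have h1 : twlocE (∏ i ∈ S, X i) (algebraMap M L u) := by
      rw [hu, map_prod]
      exact twloc_prod S _ _ fun i hi => hEX i (hSmem i hi).1 (hSmem i hi).2
    have h2 : twlocE (w ^ 2) (X j * X k * algebraMap M L u) := by
      rw [← hxX, hsplit X, ← mul_assoc]
      exact twloc_mul (twloc_refl _) h1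
    exact twloc_trans (twloc_symm h2) (twloc_sq hw0)
  have hdi : ∀ i, i ≠ j → i ≠ k → Even (finrank M L) → twlocE (d i : M) 1 := by
    intro i h1 h2 hev
    rw [hdX i]
    have h3 := twloc_norm (M := M) (hEX i h1 h2)
    rw [Algebra.norm_algebraMap] at h3
    exact twloc_trans h3 (twloc_even (hAj0 i h1 h2) hev)
  by_cases c4 : ‖X j‖ = ‖A j - A k‖
  · -- case 4
    have hXkn : ‖X k‖ = ‖A j - A k‖ := by
      refine le_antisymm ?_ hkδ
      refine le_trans (hmax k j) ?_
      rw [c4, norm_sub_rev, max_self]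
    set t : M := A k - A j with ht
    have ht0 : t ≠ 0 := sub_ne_zero.2 fun h => hjk (hA h).symm
    have htn : ‖t‖ = ‖A j - A k‖ := norm_sub_rev _ _
    have htpos : 0 < ‖t‖ := norm_pos_iff.2 ht0
    set T : L := algebraMap M L t with hT
    have hT0 : T ≠ 0 := by rwa [hT, Ne, map_eq_zero]
    have hTn : ‖T‖ = ‖t‖ := norm_algebraMap' L t
    set x' := X j / T with hx'
    have hXj' : X j = T * x' := by rw [hx', mul_div_cancel₀ _ hT0]
    have hXk' : X k = T * (x' - 1) := by
      rw [mul_sub, mul_one, ← hXj', hT, ht, ← hdiff j k]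
      ring
    have hx'n : ‖x'‖ = 1 := by rw [hx', norm_div, hTn, htn, c4, div_self (htn ▸ htpos.ne')]
    have hx'1 : ‖x' - 1‖ = 1 := by
      have h1 := hXkn
      rw [hXk', norm_mul, hTn, ← htn] at h1
      exact mul_left_cancel₀ htpos.ne' (by rw [h1, mul_one])
    obtain ⟨y, hy⟩ := twloc_to_sq hmain
    obtain ⟨⟨K, hK⟩, hsq⟩ := unit_trick p hres v hv Nat.prime_two hcop u hu0
      (by exact_mod_cast hulog) x' (x' * (x' - 1)) (y / T) hx'n.le (by
        rw [norm_mul, hx'n, hx'1, one_mul]) (by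
        rw [div_pow, ← hy, hXj', hXk']
        field_simp)
    have hev : Even (finrank M L) := ⟨K, by rw [hK]; ring⟩
    obtain ⟨z0, hz0⟩ := hsq 0 (by rw [map_zero, sub_zero, hx'n])
    obtain ⟨z1, hz1⟩ := hsq 1 (by rw [map_one, hx'1])
    rw [map_zero, sub_zero] at hz0
    rw [map_one] at hz1
    refine hall fun i => ?_
    by_cases h1 : i = j
    · have h3 := twloc_mul (twloc_even ht0 hev) (twloc_of_sq (K := M)
        (Algebra.norm_ne_zero_iff.2 (by
          intro h
          rw [h, norm_zero] at hx'n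
          exact zero_ne_one hx'n)) hz0)
      rw [h1, hdX j, hXj', map_mul, hT, Algebra.norm_algebraMap]
      rwa [one_mul] at h3
    by_cases h2 : i = k
    · have h3 := twloc_mul (twloc_even ht0 hev) (twloc_of_sq (K := M)
        (Algebra.norm_ne_zero_iff.2 (by
          intro h
          rw [h, norm_zero] at hx'1
          exact zero_ne_one hx'1)) hz1)
      rw [h2, hdX k, hXk', map_mul, hT, Algebra.norm_algebraMap]
      rwa [one_mul] at h3
    exact hdi i h1 h2 hev
  · -- case 5
    have hlt : ‖A j - A k‖ < ‖X j‖ := lt_of_le_of_ne hjδ (Ne.symm c4)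
    have hEkj : twlocE (X k) (X j) := twloc_near p hcop (by
      rw [hndiff, norm_sub_rev]
      exact hlt)
    have husq : twlocE (algebraMap M L u) 1 := by
      have h1 : twlocE (X j * X k * algebraMap M L u) (X j ^ 2 * algebraMap M L u) := by
        rw [pow_two]
        exact twloc_mul (twloc_mul (twloc_refl _) hEkj) (twloc_refl _)
      have h2 : twlocE (X j ^ 2 * algebraMap M L u) (1 * algebraMap M L u) :=
        twloc_mul (twloc_sq (hX0 j)) (twloc_refl _)
      rw [one_mul] at h2
      exact twloc_trans (twloc_symm (twloc_trans h1 h2)) hmain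
    obtain ⟨s, hs⟩ := twloc_to_sq husq
    have hunsq : ∀ b : M, b ^ 2 ≠ u := by
      intro b hb
      rw [← hb, map_pow, WithZero.log_pow, nsmul_eq_mul] at hulog
      exact hulog ⟨_, rfl⟩
    obtain ⟨hev, hnorm⟩ := twloc_norm_quad u hunsq s hs.symm
    obtain ⟨α, β, hαβ⟩ := hnorm (X j)
    have hdj0 : α ^ 2 - u * β ^ 2 ≠ 0 := by
      rw [← hαβ, ← hdX j]
      exact (d j).ne_zero
    have hdkj : twlocE (d k : M) (d j : M) := by
      rw [hdX k, hdX j]
      exact twloc_norm hEkj
    rcases lt_trichotomy ‖u * β ^ 2‖ ‖α ^ 2‖ with h | h | h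
    · -- all squares
      have hα0 : α ≠ 0 := by
        rintro rfl
        rw [zero_pow two_ne_zero, norm_zero] at h
        exact absurd h (not_lt.2 (norm_nonneg _))
      have hdj : twlocE (d j : M) 1 := by
        rw [hdX j, hαβ]
        refine twloc_trans (twloc_near p hcop ?_) (twloc_sq hα0)
        have h1 : α ^ 2 - u * β ^ 2 - α ^ 2 = -(u * β ^ 2) := by ring
        rw [h1, norm_neg]
        exact h
      refine hall fun i => ?_
      by_cases h1 : i = j
      · rw [h1]; exact hdj
      by_cases h2 : i = k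
      · rw [h2]; exact twloc_trans hdkj hdj
      exact hdi i h1 h2 hev
    · -- impossible
      exfalso
      have hβ0 : β ≠ 0 := by
        rintro rfl
        rw [zero_pow two_ne_zero, mul_zero, norm_zero] at h
        have h1 : α ^ 2 = 0 := norm_eq_zero.1 h.symm
        exact hdj0 (by rw [h1]; ring)
      have h1 : v (u * β ^ 2) = v (α ^ 2) := le_antisymm ((hv _ _).1 h.le) ((hv _ _).1 h.ge)
      have h2 := congrArg WithZero.log h1
      rw [map_mul, map_pow, map_pow, WithZero.log_mul ((Valuation.ne_zero_iff v).2 hu0)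
        (pow_ne_zero _ ((Valuation.ne_zero_iff v).2 hβ0)), WithZero.log_pow, WithZero.log_pow,
        nsmul_eq_mul, nsmul_eq_mul] at h2
      apply hulog
      push_cast at h2
      exact ⟨WithZero.log (v α) - WithZero.log (v β), by linear_combination h2⟩
    · have hβ0 : β ≠ 0 := by
        rintro rfl
        rw [zero_pow two_ne_zero, mul_zero, norm_zero] at h
        exact absurd h (not_lt.2 (norm_nonneg _))
      have hdj : twlocE (d j : M) (-u) := by
        rw [hdX j, hαβ]
        refine twloc_trans (twloc_near p hcop (y := -u * β ^ 2) ?_) ⟨β, hβ0, rfl⟩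
        have h1 : α ^ 2 - u * β ^ 2 - -u * β ^ 2 = α ^ 2 := by ring
        rw [h1, neg_mul, norm_neg]
        exact h
      refine twloc_mem2 hA j k fun i => ?_
      by_cases h1 : i = j
      · subst h1
        have h2 : torsionTuple A (fun _ => 1) i i * torsionTuple A (fun _ => 1) k i = (-u)⁻¹ := by
          rw [torsionTuple, if_pos rfl, torsionTuple, if_neg hjk]
          have h3 : ∏ l ∈ Finset.univ.erase i, (A i - A l) ^ 1 = (A i - A k) * u := by
            rw [hu, hS, ← Finset.mul_prod_erase _ _ hkmem]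
            simp
          rw [h3, pow_one, mul_inv]
          have h4 : A i - A k ≠ 0 := sub_ne_zero.2 fun h => hjk (hA h)
          have h5 : A k - A i = -(A i - A k) := by ring
          rw [h5]
          field_simp
        rw [h2]
        exact twloc_trans hdj (twloc_symm (twloc_inv (neg_ne_zero.2 hu0)))
      by_cases h2 : i = k
      · subst h2
        have hu'0 : ∏ l ∈ S, (A i - A l) ≠ 0 := Finset.prod_ne_zero_iff.2 fun l hl =>
          hAk0 l (hSmem l hl).1 (hSmem l hl).2
        have h2 : torsionTuple A (fun _ => 1) j i * torsionTuple A (fun _ => 1) i i =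
            (-∏ l ∈ S, (A i - A l))⁻¹ := by
          rw [torsionTuple, if_neg h1, torsionTuple, if_pos rfl]
          have h3 : ∏ l ∈ Finset.univ.erase i, (A i - A l) ^ 1 =
              (A i - A j) * ∏ l ∈ S, (A i - A l) := by
            rw [hS, Finset.erase_right_comm, ← Finset.mul_prod_erase _ _
              (Finset.mem_erase.2 ⟨hjk, Finset.mem_univ _⟩)]
            simp
          rw [h3, pow_one, mul_inv]
          have h4 : A i - A j ≠ 0 := sub_ne_zero.2 fun h => h1 (hA h)
          have h5 : A j - A i = -(A i - A j) := by ring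
          rw [h5]
          field_simp
        rw [h2]
        have h6 : twlocE (∏ l ∈ S, (A i - A l)) u := by
          rw [hu]
          exact twloc_prod S _ _ fun l hl => hEA l (hSmem l hl).1 (hSmem l hl).2
        have h7 : twlocE (-∏ l ∈ S, (A i - A l)) (-u) := by
          obtain ⟨z, hz, h8⟩ := h6
          exact ⟨z, hz, by rw [h8]; ring⟩
        exact twloc_trans (twloc_trans hdkj hdj)
          (twloc_symm (twloc_trans (twloc_inv (neg_ne_zero.2 hu'0)) h7))
      · rw [torsionTuple, if_neg h1, torsionTuple, if_neg h2, pow_one, pow_one]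
        have h3 : twlocE ((A j - A i) * (A k - A i)) ((A j - A i) * (A j - A i)) :=
          twloc_mul (twloc_refl _) (hEA i h1 h2)
        rw [← pow_two] at h3
        exact twloc_trans (hdi i h1 h2 hev)
          (twloc_symm (twloc_trans h3 (twloc_sq (hAj0 i h1 h2))))

end core

theorem tTwLoc : StmtTwLoc.{u} := by
  classical
  intro F M _ _ _ _ _ _ p _ _ hp2 hres v hv m hm A hA r hr j k hjk hdist hjkr
  refine localImage_le _ _ _ mem_torsionGroup_pow ?_
  intro L _ _ _ x w d hx hd
  let : NontriviallyNormedField L := spectralNorm.nontriviallyNormedField M L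
  let : NormedAlgebra M L := spectralNorm.normedAlgebra M L
  have : IsUltrametricDist L :=
    IsUltrametricDist.isUltrametricDist_of_isNonarchimedean_norm
      (isNonarchimedean_spectralNorm (K := M) (L := L))
  let : Algebra F L := ((algebraMap M L).comp (algebraMap F M)).toAlgebra
  have : IsScalarTower F M L := IsScalarTower.of_algebraMap_eq fun _ => rfl
  exact twloc_core p hp2 hres v hv m hm A hA r hr j k hjk hdist hjkr x w d hx hd

end MP72e2e6
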