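import Pool.Agent.Lib.MP_72e2e6_nt.TwStmt

/-!
# MP_72e2e6_nt: finite places dividing the twist exactly once (`StmtTwLocF`)
-/

namespace MP72e2e6

open Polynomial IsDedekindDomain WithZero

universe u

section helpers

variable {F : Type u} [Field F] {v : HeightOneSpectrum F[X]} {P : F[X]}

theorem twlocf_val_eq_one (hv : v.asIdeal = Ideal.span {P}) {g : F[X]} (hg : ¬ P ∣ g) :
    v.valuation (RatFunc F) (algebraMap F[X] (RatFunc F) g) = 1 := by
  rw [HeightOneSpectrum.valuation_eq_one_iff_notMem, hv, Ideal.mem_span_singleton]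
  exact hg

theorem twlocf_val_lt_one (hv : v.asIdeal = Ideal.span {P}) {g : F[X]} (hg : P ∣ g) :
    v.valuation (RatFunc F) (algebraMap F[X] (RatFunc F) g) < 1 := by
  rw [HeightOneSpectrum.valuation_lt_one_iff_mem, hv, Ideal.mem_span_singleton]
  exact hg

theorem twlocf_log (hv : v.asIdeal = Ideal.span {P}) (hP : Irreducible P) {E : F[X]} (h1 : P ∣ E)
    (h2 : ¬ P ^ 2 ∣ E) :
    WithZero.log (v.valuation (RatFunc F) (algebraMap F[X] (RatFunc F) E)) = -1 := by
  obtain ⟨E', rfl⟩ := h1
  have h3 : ¬ P ∣ E' := by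
    intro h
    apply h2
    rw [pow_two]
    exact mul_dvd_mul_left P h
  rw [map_mul, map_mul, twlocf_val_eq_one hv h3, mul_one, HeightOneSpectrum.valuation_of_algebraMap,
    HeightOneSpectrum.intValuation_singleton v hP.ne_zero hv, WithZero.log_exp]

/-- The residue field. -/
theorem twlocf_res [Finite F] (hv : v.asIdeal = Ideal.span {P}) (hm : P.Monic)
    (hP : Irreducible P) {Q : ℕ} (hQ : Q = Nat.card F ^ P.natDegree) (x : RatFunc F)
    (hx : v.valuation (RatFunc F) x ≤ 1) : v.valuation (RatFunc F) (x ^ Q - x) < 1 := by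
  obtain ⟨f, ⟨g, hg⟩, h⟩ := v.exists_primeCompl_mul_eq_of_integer x hx
  have hg' : ¬ P ∣ g := by
    intro h1
    apply hg
    rw [hv]
    exact Ideal.mem_span_singleton.2 h1
  have hvg := twlocf_val_eq_one hv hg'
  have hcard : ∀ y : AdjoinRoot P, y ^ Q = y := by
    intro y
    have : Fact (Irreducible P) := ⟨hP⟩
    have : Module.Finite F (AdjoinRoot P) := hm.finite_adjoinRoot
    have : Finite (AdjoinRoot P) := Module.finite_of_finite F
    have h1 : Nat.card (AdjoinRoot P) = Q := by
      rw [hQ, Module.natCard_eq_pow_finrank (K := F) (V := AdjoinRoot P)]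
      congr 1
      rw [(AdjoinRoot.powerBasis' hm).finrank]
      rfl
    have := Fintype.ofFinite (AdjoinRoot P)
    have h2 := FiniteField.pow_card y
    rw [Nat.card_eq_fintype_card] at h1
    rwa [h1] at h2
  have hdvd : P ∣ f ^ Q * g - f * g ^ Q := by
    rw [← AdjoinRoot.mk_eq_zero, map_sub, map_mul, map_mul, map_pow, map_pow, hcard, hcard,
      sub_self]
  have hval := twlocf_val_lt_one hv hdvd
  have hkey : (x ^ Q - x) * algebraMap F[X] (RatFunc F) g ^ (Q + 1) =
      algebraMap F[X] (RatFunc F) (f ^ Q * g - f * g ^ Q) := by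
    simp only [map_sub, map_mul, map_pow] at *
    rw [← h, pow_succ, sub_mul, mul_pow]
    ring
  rw [← hkey, map_mul, map_pow, hvg, one_pow, mul_one] at hval
  exact hval

theorem twlocf_comp [Finite F] (hv : v.asIdeal = Ideal.span {P}) (hm : P.Monic)
    (hP : Irreducible P) {Q : ℕ} (hQ : Q = Nat.card F ^ P.natDegree)
    (y : v.adicCompletion (RatFunc F)) (hy : Valued.v y ≤ 1) : Valued.v (y ^ Q - y) < 1 := by
  have h1 := res_comp (v.valuation (RatFunc F)) (Q := Q)
    (fun x hx => twlocf_res hv hm hP hQ x hx) y.toCompletion (by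
      rw [HeightOneSpectrum.adicCompletion.valued_toCompletion]
      exact hy)
  have h2 : (y ^ Q - y).toCompletion = y.toCompletion ^ Q - y.toCompletion := by
    have h3 := map_sub (HeightOneSpectrum.adicCompletion.equiv (RatFunc F) v) (y ^ Q) y
    rw [map_pow] at h3
    exact h3
  rw [← HeightOneSpectrum.adicCompletion.valued_toCompletion, h2]
  exact h1

end helpers

theorem tTwLocF.{w} (hLocV : StmtTwLocV.{w}) : StmtTwLocF.{w} := by
  intro F _ _ hodd m hm hm3 E hE a ha v P hmon hP hv hPE hP2 hpair d hd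
  -- the characteristic
  obtain ⟨p, hp⟩ := CharP.exists F
  have := Fintype.ofFinite F
  obtain ⟨r, hprime, hcard⟩ := FiniteField.card F p
  have : Fact p.Prime := ⟨hprime⟩
  rw [← Nat.card_eq_fintype_card] at hcard
  have hp2 : p ≠ 2 := by
    rintro rfl
    rw [hcard] at hodd
    exact (Nat.not_odd_iff_even.2 ((Nat.even_pow.2 ⟨even_two, r.pos.ne'⟩))) hodd
  have : CharP (v.adicCompletion (RatFunc F)) p :=
    charP_of_injective_ringHom (f := (algebraMap (RatFunc F) (v.adicCompletion (RatFunc F))).comp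
      (algebraMap F (RatFunc F))) (RingHom.injective _) p
  have hdeg : P.natDegree ≠ 0 := hP.natDegree_pos.ne'
  have hN : (r : ℕ) * P.natDegree ≠ 0 := Nat.mul_ne_zero r.pos.ne' hdeg
  have hQ : p ^ ((r : ℕ) * P.natDegree) = Nat.card F ^ P.natDegree := by
    rw [hcard, pow_mul]
  -- injectivity
  have hptsInj : Function.Injective (pts E a) := by
    intro i j hij
    apply ha
    have h1 := (IsFractionRing.injective F[X] (RatFunc F)) hij
    exact mul_left_cancel₀ hE h1
  have hAinj : Function.Injective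
      (fun i => algebraMap (RatFunc F) (v.adicCompletion (RatFunc F)) (pts E a i)) :=
    fun i j hij => hptsInj ((algebraMap (RatFunc F) (v.adicCompletion (RatFunc F))).injective hij)
  -- valuations
  have hdiff : ∀ i l, Valued.v (algebraMap (RatFunc F) (v.adicCompletion (RatFunc F)) (pts E a i) -
      algebraMap (RatFunc F) (v.adicCompletion (RatFunc F)) (pts E a l)) =
      v.valuation (RatFunc F) (algebraMap F[X] (RatFunc F) E) *
        v.valuation (RatFunc F) (algebraMap F[X] (RatFunc F) (a i - a l)) := by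
    intro i l
    rw [← map_sub, valued_adic, pts, pts, ← map_sub, ← mul_sub, map_mul, map_mul]
  have hle : ∀ i l, Valued.v (algebraMap (RatFunc F) (v.adicCompletion (RatFunc F)) (pts E a i) -
      algebraMap (RatFunc F) (v.adicCompletion (RatFunc F)) (pts E a l)) ≤
      v.valuation (RatFunc F) (algebraMap F[X] (RatFunc F) E) := by
    intro i l
    rw [hdiff]
    calc _ ≤ v.valuation (RatFunc F) (algebraMap F[X] (RatFunc F) E) * 1 := by
          gcongr
          exact v.valuation_le_one _
      _ = _ := mul_one _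
  have heq : ∀ i l, ¬ P ∣ a i - a l →
      Valued.v (algebraMap (RatFunc F) (v.adicCompletion (RatFunc F)) (pts E a i) -
      algebraMap (RatFunc F) (v.adicCompletion (RatFunc F)) (pts E a l)) =
      v.valuation (RatFunc F) (algebraMap F[X] (RatFunc F) E) := by
    intro i l h
    rw [hdiff, twlocf_val_eq_one hv h, mul_one]
  -- the pair
  obtain ⟨j, k, hjk, hother⟩ : ∃ j k : Fin m, j ≠ k ∧ ∀ i l, i ≠ l → ¬ (i = j ∧ l = k) →
      ¬ (i = k ∧ l = j) → ¬ P ∣ a i - a l := by
    by_cases hex : ∃ j k : Fin m, j ≠ k ∧ P ∣ a j - a k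
    · obtain ⟨j, k, hjk, hd⟩ := hex
      refine ⟨j, k, hjk, fun i l hil h1 h2 h3 => ?_⟩
      rcases hpair i l j k hil hjk h3 hd with ⟨h4, h5⟩ | ⟨h4, h5⟩
      · exact h1 ⟨h4, h5⟩
      · exact h2 ⟨h4, h5⟩
    · push Not at hex
      refine ⟨⟨0, by omega⟩, ⟨1, by omega⟩, ?_, fun i l hil _ _ => hex i l hil⟩
      intro h
      have := congrArg Fin.val h
      simp at this
  have hlog : ¬ (2 : ℤ) ∣ WithZero.log (Valued.v
      (algebraMap (RatFunc F) (v.adicCompletion (RatFunc F)) (algebraMap F[X] (RatFunc F) E))) := by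
    rw [valued_adic, twlocf_log hv hP hPE hP2]
    decide
  have hmain := hLocV (v.adicCompletion (RatFunc F)) p ((r : ℕ) * P.natDegree) hp2 hN
    (nontriv_adic v) (fun y hy => twlocf_comp hv hmon hP hQ y hy) m hm
    (fun i => algebraMap (RatFunc F) (v.adicCompletion (RatFunc F)) (pts E a i)) hAinj
    (algebraMap (RatFunc F) (v.adicCompletion (RatFunc F)) (algebraMap F[X] (RatFunc F) E)) hlog
    j k hjk
    (fun i l hil h1 h2 => by
      rw [valued_adic]
      exact heq i l (hother i l hil h1 h2))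
    (by
      rw [valued_adic]
      exact hle j k)
  exact exists_of_mem_torsionGroup hptsInj (v.adicCompletion (RatFunc F)) (hmain hd)

end MP72e2e6
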