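import Pool.Agent.Lib.MP_72e2e6_nt.TwStmt

/-!
# The local images at infinity
-/

namespace MP72e2e6

open Polynomial IsDedekindDomain WithZero

universe u

theorem twloci_ne_two {F : Type u} [Field F] [Finite F] (hF : Odd (Nat.card F)) {p : ℕ}
    [CharP F p] : p ≠ 2 := by
  rintro rfl
  have h0 := Fintype.ofFinite F
  obtain ⟨r, -, hr⟩ := FiniteField.card F 2
  rw [Nat.card_eq_fintype_card, hr] at hF
  exact (Nat.not_odd_iff_even.2 (Nat.even_pow.2 ⟨even_two, r.ne_zero⟩)) hF

open Classical in
theorem tTwLocI (hLV : StmtTwLocV.{u}) : StmtTwLocI.{u} := by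
  intro F _ _ hF m n hm hm3 E hE a ha hodd d hd
  obtain ⟨p, hpc⟩ := CharP.exists F
  have h0 := Fintype.ofFinite F
  obtain ⟨r, hp, hr⟩ := FiniteField.card F p
  have hpf : Fact p.Prime := ⟨hp⟩
  have hcard : Nat.card F = p ^ (r : ℕ) := by rw [Nat.card_eq_fintype_card, hr]
  have hcharK : CharP (RatFunc F) p :=
    charP_of_injective_algebraMap (algebraMap F (RatFunc F)).injective p
  have hcharM : CharP (RatFunc.inftyValuation F).Completion p :=
    charP_of_injective_algebraMap
      (algebraMap (RatFunc F) (RatFunc.inftyValuation F).Completion).injective p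
  have hne : ∀ i l, i ≠ l → a i - a l ≠ 0 := by
    intro i l hil h
    have h1 := ha i l hil
    rw [h, degree_zero] at h1
    exact absurd h1 (by simp)
  have hainj : Function.Injective a := by
    intro i l h
    by_contra hil
    exact hne i l hil (sub_eq_zero.2 h)
  have hpt : ∀ i k, pts E a i - pts E a k = algebraMap F[X] (RatFunc F) (E * (a i - a k)) := by
    intro i k
    unfold pts
    rw [← map_sub]
    congr 1
    ring
  have hinj : Function.Injective (pts E a) := by
    intro i k h
    have h1 := hpt i k
    rw [h, sub_self] at h1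
    by_contra hik
    have h2 := (map_eq_zero_iff _ (RatFunc.algebraMap_injective F)).1 h1.symm
    exact mul_ne_zero hE (hne i k hik) h2
  have hval : ∀ h : F[X], h ≠ 0 → Valued.v (algebraMap (RatFunc F)
      (RatFunc.inftyValuation F).Completion (algebraMap F[X] (RatFunc F) h)) =
        exp (h.natDegree : ℤ) := by
    intro h hh
    rw [valued_comp]
    exact RatFunc.inftyValuation.polynomial F hh
  have hr' : Valued.v (algebraMap (RatFunc F) (RatFunc.inftyValuation F).Completion
      (algebraMap F[X] (RatFunc F) (E * X ^ n))) = exp ((E.natDegree + n : ℕ) : ℤ) := by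
    rw [hval _ (mul_ne_zero hE (pow_ne_zero _ X_ne_zero)),
      natDegree_mul hE (pow_ne_zero _ X_ne_zero), natDegree_X_pow]
  have hdist : ∀ i l, i ≠ l → Valued.v (algebraMap (RatFunc F) (RatFunc.inftyValuation F).Completion
      (pts E a i) - algebraMap (RatFunc F) (RatFunc.inftyValuation F).Completion (pts E a l)) =
      exp ((E.natDegree + n : ℕ) : ℤ) := by
    intro i l hil
    rw [← map_sub, hpt, hval _ (mul_ne_zero hE (hne i l hil)), natDegree_mul hE (hne i l hil),
      natDegree_eq_of_degree_eq_some (ha i l hil)]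
  have hX : 1 < RatFunc.inftyValuation F (algebraMap F[X] (RatFunc F) X) := by
    have h1 : RatFunc.inftyValuation F (algebraMap F[X] (RatFunc F) X) =
        exp ((X : F[X]).natDegree : ℤ) := RatFunc.inftyValuation.polynomial F X_ne_zero
    rw [h1, natDegree_X, ← exp_zero, exp_lt_exp]
    norm_num
  obtain ⟨j, k, hjk⟩ : ∃ j k : Fin m, j ≠ k :=
    ⟨⟨0, by omega⟩, ⟨1, by omega⟩, by simp⟩
  have hmem : d ∈ torsionGroup 2 (fun i => algebraMap (RatFunc F)
      (RatFunc.inftyValuation F).Completion (pts E a i)) (fun _ => 1) := by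
    refine hLV (RatFunc.inftyValuation F).Completion p r (twloci_ne_two hF) r.ne_zero
      (nontriv_comp _ hX) (fun y hy => ?_) m hm
      (fun i => algebraMap (RatFunc F) (RatFunc.inftyValuation F).Completion (pts E a i))
      (fun i l h => hinj ((algebraMap (RatFunc F)
        (RatFunc.inftyValuation F).Completion).injective h))
      (algebraMap (RatFunc F) (RatFunc.inftyValuation F).Completion
        (algebraMap F[X] (RatFunc F) (E * X ^ n))) ?_ j k hjk (fun i l hil _ _ => ?_) ?_ hd
    · refine res_comp _ (fun x hx => ?_) y hy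
      have h1 := inftyValuation_res x hx
      rwa [pow_one, hcard] at h1
    · rw [hr', log_exp]
      intro h
      have h1 := Nat.odd_iff.1 hodd
      omega
    · rw [hdist i l hil, hr']
    · rw [hdist j k hjk, hr']
  exact exists_of_mem_torsionGroup hinj _ hmem

end MP72e2e6
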