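import Pool.Agent.Lib.MP_72e2e6_nt.TwStmt

/-!
# MP_72e2e6_nt: the vector of a prime
-/

set_option autoImplicit false

namespace MP72e2e6

open Polynomial

universe u

theorem twnu_zmod_eq {x y : ZMod 2} (h : x = 0 ↔ y = 0) : x = y := by
  revert x y
  decide

theorem twnu_cases (x : ZMod 2) : x = 0 ∨ x = 1 := by
  revert x
  decide

theorem twnu_sq (x : ZMod 2) : x * x = x := by
  revert x
  decide

/-- The combinatorial part: the multiplicities are concentrated at one pair. -/
theorem twnu_comb {m : ℕ} (V S : Fin m → Fin m → ZMod 2) (D o : ZMod 2) (j k : Fin m)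
    (hjk : j ≠ k) (hV : ∀ i l, V i l = o * ((if i = j then 1 else 0) * (if l = k then 1 else 0) +
      (if i = k then 1 else 0) * (if l = j then 1 else 0)))
    (hS : ∀ l, l ≠ j → l ≠ k → S j l = S k l) (ν : Fin m → ZMod 2) (hν : ∀ i, ν i = ∑ l, V i l) :
    ν = o • (Pi.single j 1 + Pi.single k 1 : Fin m → ZMod 2) ∧
    (∀ j' k', j' ≠ k' → (V j' k' = 1 ↔
      ν = (Pi.single j' 1 + Pi.single k' 1 : Fin m → ZMod 2))) ∧
    (∀ (c : Fin m → ZMod 2) (i : Fin m), ∑ k, (c i + c k) * V i k = ip ν c * ν i) ∧
    ip ν (fun i => ν i * D + ∑ l, (ν i + ν l) * S i l) = 0 := by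
  have hn : ∀ i, ν i = o * ((if i = j then 1 else 0) + (if i = k then 1 else 0)) := by
    intro i
    rw [hν]
    simp_rw [hV, mul_add]
    rw [Finset.sum_add_distrib]
    simp only [mul_ite, mul_one, mul_zero, Finset.sum_ite_eq', Finset.mem_univ, if_true]
  have hip : ∀ c : Fin m → ZMod 2, ip ν c = o * (c j + c k) := by
    intro c
    rw [ip]
    simp_rw [hn, mul_add, add_mul]
    rw [Finset.sum_add_distrib]
    simp only [mul_ite, mul_one, mul_zero, ite_mul, zero_mul, Finset.sum_ite_eq',
      Finset.mem_univ, if_true]
  have hfun : ν = o • (Pi.single j 1 + Pi.single k 1 : Fin m → ZMod 2) := by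
    funext i
    rw [hn, Pi.smul_apply, Pi.add_apply, Pi.single_apply, Pi.single_apply, smul_eq_mul]
  refine ⟨hfun, ?_, ?_, ?_⟩
  · intro j' k' hjk'
    constructor
    · intro h
      rw [hV] at h
      have ho : o = 1 := by
        rcases twnu_cases o with ho | ho
        · rw [ho, zero_mul] at h
          exact absurd h zero_ne_one
        · exact ho
      rw [ho, one_mul] at h
      rw [hfun, ho, one_smul]
      by_cases h1 : j' = j
      · subst h1
        by_cases h2 : k' = k
        · rw [h2]
        · simp [h2, hjk] at h
      · by_cases h2 : j' = k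
        · subst h2
          by_cases h3 : k' = j
          · rw [h3, add_comm]
          · simp [h3, h1] at h
        · simp [h1, h2] at h
    · intro h
      have e1 := congrFun h j'
      have e2 := congrFun h k'
      rw [hn, Pi.add_apply, Pi.single_apply, Pi.single_apply, if_pos rfl, if_neg hjk',
        add_zero] at e1
      rw [hn, Pi.add_apply, Pi.single_apply, Pi.single_apply, if_pos rfl,
        if_neg (Ne.symm hjk'), zero_add] at e2
      have ho : o = 1 := by
        rcases twnu_cases o with ho | ho
        · rw [ho, zero_mul] at e1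
          exact absurd e1 zero_ne_one
        · exact ho
      rw [ho, one_mul] at e1 e2
      rw [hV, ho, one_mul]
      by_cases h1 : j' = j
      · subst h1
        by_cases h2 : k' = k
        · subst h2
          simp [hjk]
        · simp [h2, Ne.symm hjk'] at e2
      · by_cases h2 : j' = k
        · subst h2
          by_cases h3 : k' = j
          · subst h3
            simp [h1]
          · simp [h3, Ne.symm hjk'] at e2
        · simp [h1, h2] at e1
  · intro c i
    rw [hip, hn]
    simp_rw [hV, mul_add]
    rw [Finset.sum_add_distrib]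
    have e1 : ∑ x, (c i + c x) * (o * ((if i = j then (1 : ZMod 2) else 0) *
        (if x = k then 1 else 0))) = o * ((c i + c k) * (if i = j then 1 else 0)) := by
      rw [Finset.sum_eq_single k]
      · rw [if_pos rfl, mul_one]
        ring
      · intro b _ hb
        rw [if_neg hb]
        ring
      · intro h
        exact absurd (Finset.mem_univ k) h
    have e2 : ∑ x, (c i + c x) * (o * ((if i = k then (1 : ZMod 2) else 0) *
        (if x = j then 1 else 0))) = o * ((c i + c j) * (if i = k then 1 else 0)) := by
      rw [Finset.sum_eq_single j]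
      · rw [if_pos rfl, mul_one]
        ring
      · intro b _ hb
        rw [if_neg hb]
        ring
      · intro h
        exact absurd (Finset.mem_univ j) h
    rw [e1, e2]
    have ho := twnu_sq o
    by_cases h1 : i = j
    · subst h1
      rw [if_pos rfl, if_neg hjk]
      linear_combination (-(c i + c k)) * ho
    · by_cases h2 : i = k
      · subst h2
        rw [if_pos rfl, if_neg h1]
        linear_combination (-(c j + c i)) * ho
      · rw [if_neg h1, if_neg h2]
        ring
  · rw [hip]
    rcases twnu_cases o with ho | ho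
    · rw [ho, zero_mul]
    · have hnj : ν j = 1 := by rw [hn, if_pos rfl, if_neg hjk, ho, one_mul, add_zero]
      have hnk : ν k = 1 := by rw [hn, if_pos rfl, if_neg (Ne.symm hjk), ho, one_mul, zero_add]
      have hsum : ∑ l, (ν j + ν l) * S j l = ∑ l, (ν k + ν l) * S k l := by
        refine Finset.sum_congr rfl fun l _ => ?_
        by_cases h1 : l = j
        · subst h1
          rw [hnj, hnk, CharTwo.add_self_eq_zero, zero_mul, zero_mul]
        · by_cases h2 : l = k
          · subst h2
            rw [hnj, hnk, CharTwo.add_self_eq_zero, zero_mul, zero_mul]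
          · rw [hnj, hnk, hS l h1 h2]
      rw [ho, one_mul]
      change ν j * D + ∑ l, (ν j + ν l) * S j l + (ν k * D + ∑ l, (ν k + ν l) * S k l) = 0
      rw [hsum, hnj, hnk]
      exact CharTwo.add_self_eq_zero _

theorem tTwNu.{v} (hSy : StmtTwSy.{v}) : StmtTwNu.{v} := by
  intro F _ _ hF m n a hpts P hPm hPi
  obtain ⟨-, hP⟩ := hSy F hF
  obtain ⟨hmul, hnd, hPP, hsPP, hC⟩ := hP P hPm hPi
  have hvp0 : vp P (0 : F[X]) = 0 := by rw [vp, if_pos rfl]
  by_cases hA : ∀ i j, i ≠ j → ¬ P ∣ a i - a j
  · have hv : ∀ i l, vp P (a i - a l) = 0 := by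
      intro i l
      by_cases h : i = l
      · rw [h, sub_self, hvp0]
      · exact (hnd _ (hA i l h)).1
    have hnu : nu P a = 0 := by
      funext i
      exact Finset.sum_eq_zero (fun l _ => hv i l)
    refine ⟨Or.inl hnu, fun _ => hnu, ?_, ?_, ?_⟩
    · intro j k hjk
      constructor
      · intro h
        rw [hv] at h
        exact absurd h zero_ne_one
      · intro h
        have e1 := congrFun h j
        rw [hnu, Pi.add_apply, Pi.single_apply, Pi.single_apply, if_pos rfl, if_neg hjk,
          add_zero, Pi.zero_apply] at e1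
        exact absurd e1 zero_ne_one
    · intro c i
      rw [hnu, Pi.zero_apply, mul_zero]
      exact Finset.sum_eq_zero (fun l _ => by rw [hv, mul_zero])
    · rw [hnu]
      exact Finset.sum_eq_zero (fun l _ => by rw [Pi.zero_apply, zero_mul])
  · push Not at hA
    obtain ⟨j, k, hjk, hd⟩ := hA
    have hne : ∀ i l, i ≠ l → a i - a l ≠ 0 := by
      intro i l hil h
      have h1 := hpts.deg i l hil
      rw [h, degree_zero] at h1
      exact absurd h1.symm (WithBot.coe_ne_bot)
    have hnot : ∀ i l, i ≠ l → ¬ (i = j ∧ l = k) → ¬ (i = k ∧ l = j) → ¬ P ∣ a i - a l := by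
      intro i l hil h1 h2 h3
      have hc := hpts.cop i l j k hil hjk h1 h2
      exact hPi.not_isUnit (hc.isUnit_of_dvd' h3 hd)
    have hsymm : vp P (a k - a j) = vp P (a j - a k) := by
      have e1 : a k - a j = C (-1) * (a j - a k) := by
        rw [C_neg, C_1]
        ring
      rw [e1, (hmul _ _ (by simp) (hne j k hjk)).1, (hC (-1) (by simp)).1, zero_add]
    have hV : ∀ i l, vp P (a i - a l) = vp P (a j - a k) *
        ((if i = j then 1 else 0) * (if l = k then 1 else 0) +
          (if i = k then 1 else 0) * (if l = j then 1 else 0)) := by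
      intro i l
      by_cases hil : i = l
      · subst hil
        rw [sub_self, hvp0]
        by_cases h1 : i = j
        · subst h1
          simp [hjk]
        · simp [h1]
      · by_cases h1 : i = j ∧ l = k
        · obtain ⟨rfl, rfl⟩ := h1
          simp [hjk]
        · by_cases h2 : i = k ∧ l = j
          · obtain ⟨rfl, rfl⟩ := h2
            simp [hsymm, Ne.symm hjk]
          · rw [(hnd _ (hnot i l hil h1 h2)).1]
            by_cases h3 : i = j
            · subst h3
              have h4 : l ≠ k := fun h => h1 ⟨rfl, h⟩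
              simp [h4, hjk]
            · by_cases h4 : i = k
              · subst h4
                have h5 : l ≠ j := fun h => h2 ⟨rfl, h⟩
                simp [h3, h5]
              · simp [h3, h4]
    have hS : ∀ l, l ≠ j → l ≠ k → sy P (a j - a l) = sy P (a k - a l) := by
      intro l hl1 hl2
      have n1 : ¬ P ∣ a j - a l :=
        hnot j l (Ne.symm hl1) (fun h => hl2 h.2) (fun h => hl1 h.2)
      have n2 : ¬ P ∣ a k - a l :=
        hnot k l (Ne.symm hl2) (fun h => hl2 h.2) (fun h => hl1 h.2)
      apply twnu_zmod_eq
      rw [(hnd _ n1).2, (hnd _ n2).2]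
      have e1 : AdjoinRoot.mk P (a j - a l) = AdjoinRoot.mk P (a k - a l) := by
        rw [AdjoinRoot.mk_eq_mk]
        have e2 : a j - a l - (a k - a l) = a j - a k := by ring
        rw [e2]
        exact hd
      rw [e1]
    obtain ⟨c1, c2, c3, c4⟩ := twnu_comb (fun i l => vp P (a i - a l))
      (fun i l => sy P (a i - a l)) ((P.natDegree : ZMod 2) * cs (-1 : F)) (vp P (a j - a k)) j k
      hjk hV hS (nu P a) (fun i => rfl)
    refine ⟨?_, ?_, c2, c3, c4⟩
    · rcases twnu_cases (vp P (a j - a k)) with ho | ho
      · left
        rw [c1, ho, zero_smul]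
      · right
        exact ⟨j, k, hjk, by rw [c1, ho, one_smul]⟩
    · intro h
      exact absurd hd (h j k hjk)

end MP72e2e6
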