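import Pool.Agent.Lib.MP_72e2e6_nt.TwStmt

/-!
# Quadratic reciprocity in `F[t]`
-/

namespace MP72e2e6

open Polynomial

universe u

variable {F : Type u} [Field F] [Finite F]

theorem twrec_finite (P : F[X]) (hP : P.Monic) [Fact (Irreducible P)] :
    Finite (AdjoinRoot P) := by
  have : Module.Finite F (AdjoinRoot P) := (AdjoinRoot.powerBasis' hP).finite
  exact Module.finite_of_finite F

theorem twrec_norm (P Q : F[X]) (hP : P.Monic) [hPi : Fact (Irreducible P)] :
    algebraMap F (AlgebraicClosure F) (Algebra.norm F (AdjoinRoot.mk P Q)) =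
      resultant (P.map (algebraMap F (AlgebraicClosure F)))
        (Q.map (algebraMap F (AlgebraicClosure F))) P.natDegree Q.natDegree := by
  classical
  have hfin : Module.Finite F (AdjoinRoot P) := (AdjoinRoot.powerBasis' hP).finite
  set K := AlgebraicClosure F
  have hmin : minpoly F (AdjoinRoot.powerBasis' hP).gen = P := by
    rw [AdjoinRoot.powerBasis'_gen, AdjoinRoot.minpoly_root hP.ne_zero, hP.leadingCoeff, inv_one,
      C_1, mul_one]
  have hsep : P.Separable := PerfectField.separable_of_irreducible hPi.out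
  rw [Algebra.norm_eq_prod_embeddings F K]
  have h1 : P.natDegree = (P.map (algebraMap F K)).natDegree := (natDegree_map _).symm
  rw [h1, resultant_eq_prod_eval _ _ _ (natDegree_map_le) (IsAlgClosed.splits _),
    (hP.map _).leadingCoeff, one_pow, one_mul]
  have h2 : ∀ σ : AdjoinRoot P →ₐ[F] K, σ (AdjoinRoot.mk P Q) =
      (Q.map (algebraMap F K)).eval (σ (AdjoinRoot.powerBasis' hP).gen) := by
    intro σ
    rw [AdjoinRoot.powerBasis'_gen, eval_map_algebraMap, aeval_algHom_apply, AdjoinRoot.aeval_eq]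
  simp_rw [h2]
  rw [Fintype.prod_equiv (AdjoinRoot.powerBasis' hP).liftEquiv'
    (fun σ : AdjoinRoot P →ₐ[F] K =>
      (Q.map (algebraMap F K)).eval (σ (AdjoinRoot.powerBasis' hP).gen))
    (fun x => (Q.map (algebraMap F K)).eval (x : K)) (fun σ => by simp)]
  rw [Finset.prod_mem_multiset _ (fun x => (Q.map (algebraMap F K)).eval (x : K))
    (fun x => (Q.map (algebraMap F K)).eval x) (fun x => rfl), Finset.prod_eq_multiset_prod,
    Multiset.toFinset_val, Multiset.dedup_eq_self.mpr, hmin]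
  rw [hmin]
  exact nodup_roots hsep.map

theorem twrec_ringChar (hF : Odd (Nat.card F)) : ringChar F ≠ 2 := by
  classical
  have := Fintype.ofFinite F
  intro h
  have h1 := FiniteField.even_card_of_char_two h
  rw [Fintype.card_eq_nat_card] at h1
  have := Nat.odd_iff.mp hF
  omega

theorem twrec_isSquare (hF : Odd (Nat.card F)) (P : F[X]) (hP : P.Monic) [Fact (Irreducible P)]
    (x : AdjoinRoot P) (hx : x ≠ 0) : IsSquare x ↔ IsSquare (Algebra.norm F x) := by
  classical
  have h1 := twrec_finite P hP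
  have h2 := Fintype.ofFinite F
  have h3 := Fintype.ofFinite (AdjoinRoot P)
  have hfin : Module.Finite F (AdjoinRoot P) := (AdjoinRoot.powerBasis' hP).finite
  have hcF := twrec_ringChar hF
  have hcA : ringChar (AdjoinRoot P) ≠ 2 := by
    rw [← Algebra.ringChar_eq F (AdjoinRoot P)]
    exact hcF
  have hoF := FiniteField.odd_card_of_char_ne_two hcF
  have hoA := FiniteField.odd_card_of_char_ne_two hcA
  rw [FiniteField.isSquare_iff hcA hx, FiniteField.isSquare_iff hcF (Algebra.norm_ne_zero_iff.mpr hx)]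
  have h4 : (Fintype.card (AdjoinRoot P) - 1) / (Fintype.card F - 1) * (Fintype.card F / 2) =
      Fintype.card (AdjoinRoot P) / 2 := by
    have h5 : (Fintype.card F - 1) ∣ (Fintype.card (AdjoinRoot P) - 1) := by
      rw [Module.card_eq_pow_finrank (K := F) (V := AdjoinRoot P)]
      exact Nat.sub_one_dvd_pow_sub_one _ _
    obtain ⟨k, hk⟩ := h5
    have h6 := Fintype.one_lt_card (α := F)
    rw [hk, Nat.mul_div_cancel_left _ (by omega)]
    have h7 : Fintype.card (AdjoinRoot P) = (Fintype.card F - 1) * k + 1 := by omega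
    rw [h7]
    have h8 : Fintype.card F = 2 * (Fintype.card F / 2) + 1 := by omega
    have h9 : (Fintype.card F - 1) * k = 2 * (k * (Fintype.card F / 2)) := by
      conv_lhs => rw [h8]
      simp only [Nat.add_sub_cancel]
      ring
    rw [h9]
    omega
  have h5 : algebraMap F (AdjoinRoot P) ((Algebra.norm F x) ^ (Fintype.card F / 2)) =
      x ^ (Fintype.card (AdjoinRoot P) / 2) := by
    rw [map_pow, FiniteField.algebraMap_norm_eq_pow, ← pow_mul, ← h4, Fintype.card_eq_nat_card,
      Fintype.card_eq_nat_card]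
  rw [← h5]
  constructor
  · intro h
    apply (algebraMap F (AdjoinRoot P)).injective
    rw [h, map_one]
  · intro h
    rw [h, map_one]

theorem twrec_cs_neg_one (hF : Odd (Nat.card F)) :
    cs (-1 : F) = (((Nat.card F - 1) / 2 : ℕ) : ZMod 2) := by
  classical
  have h2 := Fintype.ofFinite F
  have hcF := twrec_ringChar hF
  have hoF := FiniteField.odd_card_of_char_ne_two hcF
  have h3 : (Nat.card F - 1) / 2 = Fintype.card F / 2 := by
    rw [← Fintype.card_eq_nat_card]
    omega
  have h4 : (-1 : F) ≠ 1 := fun h => Ring.neg_one_ne_one_of_char_ne_two hcF h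
  rw [h3]
  unfold cs
  rw [FiniteField.isSquare_iff hcF (neg_ne_zero.mpr one_ne_zero)]
  rcases Nat.even_or_odd (Fintype.card F / 2) with h | h
  · rw [if_pos h.neg_one_pow, ((ZMod.natCast_eq_zero_iff_even).mpr h)]
  · rw [if_neg (by rw [h.neg_one_pow]; exact h4), ((ZMod.natCast_eq_one_iff_odd).mpr h)]

theorem twrec_cs_pow (hcs : ∀ x y : F, x ≠ 0 → y ≠ 0 → cs (x * y) = cs x + cs y) (k : ℕ) :
    cs ((-1 : F) ^ k) = k * cs (-1 : F) := by
  classical
  induction k with
  | zero =>
    unfold cs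
    rw [pow_zero, if_pos IsSquare.one, Nat.cast_zero, zero_mul]
  | succ k ih =>
    rw [pow_succ, hcs _ _ (pow_ne_zero _ (neg_ne_zero.mpr one_ne_zero))
      (neg_ne_zero.mpr one_ne_zero), ih, Nat.cast_succ, add_mul, one_mul]

theorem twrec_key (hF : Odd (Nat.card F)) (P Q : F[X]) (hP : P.Monic) [hPi : Fact (Irreducible P)]
    (hPQ : ¬ P ∣ Q) (h : sy P Q = 0 ↔ IsSquare (AdjoinRoot.mk P Q)) :
    sy P Q = cs (Algebra.norm F (AdjoinRoot.mk P Q)) := by
  classical
  have h0 : AdjoinRoot.mk P Q ≠ 0 := by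
    rw [Ne, AdjoinRoot.mk_eq_zero]
    exact hPQ
  rw [twrec_isSquare hF P hP _ h0] at h
  unfold cs
  by_cases h1 : IsSquare (Algebra.norm F (AdjoinRoot.mk P Q))
  · rw [if_pos h1, h.mpr h1]
  · rw [if_neg h1]
    have h2 : sy P Q ≠ 0 := fun h3 => h1 (h.mp h3)
    generalize sy P Q = z at h2
    revert z
    decide

theorem tTwRec (hSy : StmtTwSy.{u}) : StmtTwRec.{u} := by
  intro F _ _ hF P Q hP hPi hQ hQi hne
  have hPf : Fact (Irreducible P) := ⟨hPi⟩
  have hQf : Fact (Irreducible Q) := ⟨hQi⟩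
  obtain ⟨hcs, hsy⟩ := hSy F hF
  have hPQ : ¬ P ∣ Q := fun h =>
    hne (eq_of_monic_of_associated hP hQ (hPi.associated_of_dvd hQi h))
  have hQP : ¬ Q ∣ P := fun h =>
    hne (eq_of_monic_of_associated hQ hP (hQi.associated_of_dvd hPi h)).symm
  have hfP : Module.Finite F (AdjoinRoot P) := (AdjoinRoot.powerBasis' hP).finite
  have hfQ : Module.Finite F (AdjoinRoot Q) := (AdjoinRoot.powerBasis' hQ).finite
  have h0Q : Algebra.norm F (AdjoinRoot.mk Q P) ≠ 0 := by
    rw [Algebra.norm_ne_zero_iff, Ne, AdjoinRoot.mk_eq_zero]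
    exact hQP
  rw [twrec_key hF P Q hP hPQ ((hsy P hP hPi).2.1 Q hPQ).2,
    twrec_key hF Q P hQ hQP ((hsy Q hQ hQi).2.1 P hQP).2]
  have h1 : Algebra.norm F (AdjoinRoot.mk P Q) =
      (-1) ^ (P.natDegree * Q.natDegree) * Algebra.norm F (AdjoinRoot.mk Q P) := by
    apply (algebraMap F (AlgebraicClosure F)).injective
    rw [map_mul, twrec_norm P Q hP, twrec_norm Q P hQ, resultant_comm, map_pow, map_neg, map_one]
  rw [h1, hcs _ _ (pow_ne_zero _ (neg_ne_zero.mpr one_ne_zero)) h0Q, twrec_cs_pow hcs,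
    twrec_cs_neg_one hF, add_assoc, CharTwo.add_self_eq_zero, add_zero]
  push_cast
  ring

end MP72e2e6
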