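import Pool.Agent.Lib.MP_72e2e6_nt.TwStmt

/-! # MP_72e2e6_nt, TwSqF: squares in the completion at a finite place -/

set_option autoImplicit false

namespace MP72e2e6

open Polynomial IsDedekindDomain WithZero

universe u

theorem twsqf_near {K : Type*} [Field K] (w : Valuation K (WithZero (Multiplicative ℤ)))
    (y : w.Completion) : ∃ x : K, Valued.v (y - algebraMap K w.Completion x) < 1 := by
  have hopen : IsOpen {z : w.Completion | Valued.v (y - z) < 1} := by
    have h1 := Valued.isOpen_ball w.Completion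
      (1 : MonoidWithZeroHom.ValueGroup₀ (.ofClass
        (Valued.v : Valuation w.Completion (WithZero (Multiplicative ℤ)))))
    have h2 := h1.preimage (continuous_const.sub continuous_id : Continuous
      fun z : w.Completion => y - z)
    convert h2 using 1
    ext z
    simp
  obtain ⟨x, hx⟩ := (denseRange_comp w).exists_mem_open hopen ⟨y, by simp⟩
  exact ⟨x, hx⟩

section gen

variable {F : Type u} [Field F] {K : Type u} [Field K] [Algebra F[X] K] [IsFractionRing F[X] K]
  (v : HeightOneSpectrum F[X]) (w : Valuation K (WithZero (Multiplicative ℤ)))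
  (hw : w = v.valuation K)

include hw in
theorem twsqf_key (P : F[X]) (hv : v.asIdeal = Ideal.span {P}) (h₁ : F[X]) (hP : ¬ P ∣ h₁)
    (z : w.Completion)
    (hz : algebraMap K w.Completion (algebraMap F[X] K h₁) = z ^ 2) :
    IsSquare (AdjoinRoot.mk P h₁) := by
  have hmem : h₁ ∉ v.asIdeal := by
    rw [hv, Ideal.mem_span_singleton]
    exact hP
  have hv1 : w (algebraMap F[X] K h₁) = 1 := by
    rw [hw]
    exact (HeightOneSpectrum.valuation_eq_one_iff_notMem v).2 hmem
  have hz1 : Valued.v z = 1 := by
    have e1 := congrArg (Valued.v : w.Completion → _) hz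
    rw [valued_comp, hv1, map_pow] at e1
    exact (pow_eq_one_iff.1 e1.symm).resolve_right (by norm_num)
  obtain ⟨x, hx⟩ := twsqf_near _ z
  have hx1 : w x ≤ 1 := by
    rw [← valued_comp]
    have e : algebraMap K w.Completion x = z - (z - algebraMap K w.Completion x) := by ring
    rw [e]
    exact (Valuation.map_sub _ _ _).trans (max_le hz1.le hx.le)
  obtain ⟨a, ha⟩ := HeightOneSpectrum.exists_valuation_sub_lt_of_integer v (hw ▸ hx1) 1
  rw [Units.val_one, ← hw] at ha
  set A := algebraMap K w.Completion (algebraMap F[X] K a) with hA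
  have hzA : Valued.v (z - A) < 1 := by
    have e : z - A = (z - algebraMap K w.Completion x) -
        (A - algebraMap K w.Completion x) := by ring
    rw [e]
    refine (Valuation.map_sub _ _ _).trans_lt (max_lt hx ?_)
    rw [hA, ← map_sub, valued_comp]
    exact ha
  have hA1 : Valued.v A ≤ 1 := by
    rw [hA, valued_comp, hw]
    exact HeightOneSpectrum.valuation_le_one v a
  have h2 : w (algebraMap F[X] K (h₁ - a ^ 2)) < 1 := by
    rw [← valued_comp, map_sub, map_sub, hz, map_pow, map_pow, ← hA]
    have e : z ^ 2 - A ^ 2 = (z - A) * (z + A) := by ring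
    rw [e, map_mul]
    refine mul_lt_one_of_lt_of_le hzA ?_
    exact (Valuation.map_add _ _ _).trans (max_le hz1.le hA1)
  rw [hw] at h2
  have h3 : h₁ - a ^ 2 ∈ v.asIdeal := (HeightOneSpectrum.valuation_lt_one_iff_mem v _).1 h2
  rw [hv, Ideal.mem_span_singleton] at h3
  have h4 : AdjoinRoot.mk P h₁ = AdjoinRoot.mk P (a ^ 2) := AdjoinRoot.mk_eq_mk.2 h3
  rw [h4, map_pow]
  exact ⟨_, sq _⟩

include hw in
theorem twsqf_gen (P : F[X]) (hPm : P.Monic) (hPi : Irreducible P)
    (hv : v.asIdeal = Ideal.span {P}) (h : F[X]) (hh : h ≠ 0) (z' : w.Completion)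
    (hz2 : algebraMap K w.Completion (algebraMap F[X] K h) = z' ^ 2) :
    vp P h = 0 ∧ sy P h = 0 := by
  have hfin : FiniteMultiplicity P h := FiniteMultiplicity.of_not_isUnit hPi.not_isUnit hh
  obtain ⟨h₁, hh1, hP1⟩ := hfin.exists_eq_pow_mul_and_not_dvd
  set k := multiplicity P h with hk
  have hP0 : P ≠ 0 := hPi.ne_zero
  have hvP : w (algebraMap F[X] K P) = exp (-1 : ℤ) := by
    rw [hw, HeightOneSpectrum.valuation_of_algebraMap,
      HeightOneSpectrum.intValuation_singleton v hP0 hv]
  have hmem : h₁ ∉ v.asIdeal := by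
    rw [hv, Ideal.mem_span_singleton]
    exact hP1
  have hv1 : w (algebraMap F[X] K h₁) = 1 := by
    rw [hw]
    exact (HeightOneSpectrum.valuation_eq_one_iff_notMem v).2 hmem
  have hval : Valued.v z' ^ 2 = exp (-1 : ℤ) ^ k := by
    rw [← map_pow, ← hz2, valued_comp, hh1, map_mul, map_mul, map_pow, map_pow, hvP, hv1, mul_one]
  have hlog : 2 * log (Valued.v z') = -(k : ℤ) := by
    have e := congrArg log hval
    rw [log_pow, log_pow, log_exp] at e
    simpa using e
  obtain ⟨j, hj⟩ : ∃ j : ℕ, k = 2 * j := ⟨k / 2, by omega⟩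
  have hPc : algebraMap K w.Completion (algebraMap F[X] K P) ≠ 0 := by
    intro h0
    have e := valued_comp w (algebraMap F[X] K P)
    rw [h0, map_zero, hvP] at e
    exact exp_ne_zero e.symm
  have hsq : IsSquare (AdjoinRoot.mk P h₁) := by
    refine twsqf_key v w hw P hv h₁ hP1
      (z' / (algebraMap K w.Completion (algebraMap F[X] K P)) ^ j) ?_
    have e : algebraMap K w.Completion (algebraMap F[X] K h) =
        (algebraMap K w.Completion (algebraMap F[X] K P)) ^ (j * 2) *
          algebraMap K w.Completion (algebraMap F[X] K h₁) := by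
      conv_lhs => rw [hh1]
      rw [map_mul, map_mul, map_pow, map_pow, hj, mul_comm j 2]
    rw [div_pow, ← hz2, ← pow_mul, e, mul_div_cancel_left₀]
    exact pow_ne_zero _ hPc
  refine ⟨?_, ?_⟩
  · unfold vp
    rw [if_neg hh, ← hk, hj]
    push_cast
    have : (2 : ZMod 2) = 0 := by decide
    rw [this, zero_mul]
  · unfold sy
    have e : h /ₘ P ^ multiplicity P h = h₁ := by
      rw [← hk]
      conv_lhs => rw [hh1]
      exact Polynomial.mul_divByMonic_cancel_left _ (hPm.pow _)
    rw [e, if_pos hsq]

end gen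

theorem tTwSqF (_hSy : StmtTwSy.{u}) : StmtTwSqF.{u} := by
  intro F _ _ _ v P hPm hPi hv h hh z hz
  refine twsqf_gen v (v.valuation (RatFunc F)) rfl P hPm hPi hv h hh z.toCompletion ?_
  have e := congrArg (HeightOneSpectrum.adicCompletion.equiv (RatFunc F) v) hz
  rw [map_pow] at e
  exact e

end MP72e2e6
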