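import Pool.Agent.Lib.MP_72e2e6_nt.TwStmt

/-!
# MP_72e2e6_nt: squares in the completion at infinity (TwSqI)
-/

namespace MP72e2e6

open Polynomial IsDedekindDomain WithZero

universe u

section

variable {F : Type u} [Field F]

open Classical in
theorem twsqi_const (y : (RatFunc.inftyValuation F).Completion) (hy : Valued.v y ≤ 1) :
    ∃ α : F, Valued.v (y - algebraMap (RatFunc F) (RatFunc.inftyValuation F).Completion
      (RatFunc.C α)) < 1 := by
  have hopen : IsOpen {z : (RatFunc.inftyValuation F).Completion | Valued.v (y - z) < 1} := by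
    have h1 := Valued.isOpen_ball (RatFunc.inftyValuation F).Completion
      (1 : MonoidWithZeroHom.ValueGroup₀ (.ofClass
        (Valued.v : Valuation (RatFunc.inftyValuation F).Completion
          (WithZero (Multiplicative ℤ)))))
    have h2 := h1.preimage (continuous_const.sub continuous_id : Continuous
      fun z : (RatFunc.inftyValuation F).Completion => y - z)
    convert h2 using 1
    ext z
    simp
  obtain ⟨x, hx⟩ := (denseRange_comp (RatFunc.inftyValuation F)).exists_mem_open hopen
    ⟨y, by simp⟩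
  have hx1 : RatFunc.inftyValuation F x ≤ 1 := by
    rw [← valued_comp]
    have h1 : algebraMap (RatFunc F) (RatFunc.inftyValuation F).Completion x =
        y - (y - algebraMap (RatFunc F) (RatFunc.inftyValuation F).Completion x) := by ring
    rw [h1]
    exact (Valuation.map_sub _ _ _).trans (max_le hy (le_of_lt hx))
  obtain ⟨α, hα⟩ := exists_const_near x hx1
  refine ⟨α, ?_⟩
  have h2 : y - algebraMap (RatFunc F) (RatFunc.inftyValuation F).Completion (RatFunc.C α) =
      (y - algebraMap (RatFunc F) (RatFunc.inftyValuation F).Completion x) +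
        algebraMap (RatFunc F) (RatFunc.inftyValuation F).Completion (x - RatFunc.C α) := by
    rw [map_sub]; ring
  rw [h2]
  refine lt_of_le_of_lt (Valuation.map_add _ _ _) (max_lt hx ?_)
  rw [valued_comp]
  exact hα

open Classical in
/-- A polynomial divided by the power of `X` of its degree is near its leading coefficient. -/
theorem twsqi_lead (h : F[X]) (h0 : h ≠ 0) :
    RatFunc.inftyValuation F (algebraMap F[X] (RatFunc F) h /
      algebraMap F[X] (RatFunc F) (X ^ h.natDegree) - RatFunc.C h.leadingCoeff) < 1 := by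
  have hinj : Function.Injective (algebraMap F[X] (RatFunc F)) :=
    RatFunc.algebraMap_injective F
  have hval : ∀ p : F[X], p ≠ 0 → RatFunc.inftyValuation F (algebraMap F[X] (RatFunc F) p) =
      WithZero.exp (p.natDegree : ℤ) := fun p hp => RatFunc.inftyValuation.polynomial F hp
  have hX : (X ^ h.natDegree : F[X]) ≠ 0 := pow_ne_zero _ X_ne_zero
  have hX' : algebraMap F[X] (RatFunc F) (X ^ h.natDegree) ≠ 0 := by
    rw [Ne, map_eq_zero_iff _ hinj]
    exact hX
  have h1 : algebraMap F[X] (RatFunc F) h /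
      algebraMap F[X] (RatFunc F) (X ^ h.natDegree) - RatFunc.C h.leadingCoeff =
      algebraMap F[X] (RatFunc F) (h - C h.leadingCoeff * X ^ h.natDegree) /
      algebraMap F[X] (RatFunc F) (X ^ h.natDegree) := by
    rw [map_sub, map_mul, RatFunc.algebraMap_C, sub_div, mul_div_cancel_right₀ _ hX']
  rw [h1]
  by_cases h2 : h - C h.leadingCoeff * X ^ h.natDegree = 0
  · rw [h2, map_zero, zero_div, map_zero]
    exact zero_lt_one
  · have h3 : (h - C h.leadingCoeff * X ^ h.natDegree).degree < h.degree := by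
      refine Polynomial.degree_sub_lt_left ?_ h0 ?_
      · rw [degree_C_mul_X_pow _ (leadingCoeff_ne_zero.2 h0), degree_eq_natDegree h0]
      · rw [leadingCoeff_mul, leadingCoeff_C, leadingCoeff_X_pow, mul_one]
    have h4 : (h - C h.leadingCoeff * X ^ h.natDegree).natDegree < h.natDegree :=
      natDegree_lt_natDegree h2 h3
    rw [map_div₀, hval _ h2, hval _ hX, ← WithZero.exp_sub, ← WithZero.exp_zero,
      WithZero.exp_lt_exp, natDegree_X_pow]
    omega

end

open Classical in
theorem tTwSqI : StmtTwSqI.{u} := by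
  intro F _ _ h h0 z hz
  have hinj : Function.Injective (algebraMap F[X] (RatFunc F)) :=
    RatFunc.algebraMap_injective F
  have hval : ∀ p : F[X], p ≠ 0 → RatFunc.inftyValuation F (algebraMap F[X] (RatFunc F) p) =
      WithZero.exp (p.natDegree : ℤ) := fun p hp => RatFunc.inftyValuation.polynomial F hp
  have h1 : WithZero.exp (h.natDegree : ℤ) = Valued.v z ^ 2 := by
    rw [← hval h h0, ← valued_comp, hz, map_pow]
  have hz0 : Valued.v z ≠ 0 := by
    intro h2
    rw [h2, zero_pow two_ne_zero] at h1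
    exact WithZero.exp_ne_zero h1
  obtain ⟨k, hk⟩ : ∃ k : ℤ, Valued.v z = WithZero.exp k :=
    ⟨WithZero.log (Valued.v z), (WithZero.exp_log hz0).symm⟩
  rw [hk, ← WithZero.exp_nsmul, WithZero.exp_inj] at h1
  obtain ⟨k', rfl⟩ : ∃ k' : ℕ, k = k' := ⟨k.toNat, by simp at h1; omega⟩
  have hdeg : h.natDegree = k' * 2 := by simp at h1; omega
  refine ⟨by rw [hdeg]; push_cast; rw [show (2 : ZMod 2) = 0 from rfl, mul_zero], ?_⟩
  set A := algebraMap (RatFunc F) (RatFunc.inftyValuation F).Completion with hA
  set B := algebraMap F[X] (RatFunc F) with hB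
  have hXk : B (X ^ k') ≠ 0 := by
    rw [hB, Ne, map_eq_zero_iff _ hinj]
    exact pow_ne_zero _ X_ne_zero
  have hXk' : A (B (X ^ k')) ≠ 0 := by
    rw [Ne, map_eq_zero_iff _ A.injective]
    exact hXk
  have hv1 : Valued.v (z / A (B (X ^ k'))) = 1 := by
    rw [map_div₀, hA, valued_comp, hB, hval _ (pow_ne_zero _ X_ne_zero), natDegree_X_pow, hk,
      div_self WithZero.exp_ne_zero]
  obtain ⟨α, hα⟩ := twsqi_const (z / A (B (X ^ k'))) hv1.le
  rw [← hA] at hα
  have hvα : Valued.v (A (RatFunc.C α)) ≤ 1 := by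
    have h2 : A (RatFunc.C α) = z / A (B (X ^ k')) - (z / A (B (X ^ k')) - A (RatFunc.C α)) := by
      ring
    rw [h2]
    exact (Valuation.map_sub _ _ _).trans (max_le hv1.le hα.le)
  have h3 : Valued.v ((z / A (B (X ^ k'))) ^ 2 - A (RatFunc.C α) ^ 2) < 1 := by
    have h4 : (z / A (B (X ^ k'))) ^ 2 - A (RatFunc.C α) ^ 2 =
        (z / A (B (X ^ k')) - A (RatFunc.C α)) * (z / A (B (X ^ k')) + A (RatFunc.C α)) := by
      ring
    rw [h4, map_mul]
    calc Valued.v (z / A (B (X ^ k')) - A (RatFunc.C α)) * _ ≤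
        Valued.v (z / A (B (X ^ k')) - A (RatFunc.C α)) * 1 := by
          gcongr
          exact (Valuation.map_add _ _ _).trans (max_le hv1.le hvα)
      _ < 1 := by rw [mul_one]; exact hα
  have h5 : (z / A (B (X ^ k'))) ^ 2 - A (RatFunc.C α) ^ 2 =
      A (B h / B (X ^ h.natDegree) - RatFunc.C (α ^ 2)) := by
    have e1 : B (X ^ h.natDegree) = B (X ^ k') ^ 2 := by
      rw [hdeg, pow_mul, map_pow B (X ^ k') 2]
    rw [div_pow, ← hz, e1, map_sub, map_div₀, map_pow A, map_pow RatFunc.C, map_pow A]
  rw [h5, hA, valued_comp] at h3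
  have h6 : RatFunc.inftyValuation F (RatFunc.C (h.leadingCoeff - α ^ 2)) < 1 := by
    have h7 : RatFunc.C (h.leadingCoeff - α ^ 2) =
        (B h / B (X ^ h.natDegree) - RatFunc.C (α ^ 2)) -
          (B h / B (X ^ h.natDegree) - RatFunc.C h.leadingCoeff) := by
      rw [map_sub]; ring
    rw [h7]
    exact lt_of_le_of_lt (Valuation.map_sub _ _ _) (max_lt h3 (twsqi_lead h h0))
  have h8 : h.leadingCoeff - α ^ 2 = 0 := by
    by_contra h9
    rw [RatFunc.inftyValuation.C F h9] at h6
    exact lt_irrefl _ h6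
  rw [cs, if_pos]
  exact ⟨α, by rw [← sq]; exact sub_eq_zero.1 h8⟩

end MP72e2e6
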