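import Pool.Agent.Lib.MP_72e2e6_nt.TwStmt

/-!
# MP_72e2e6_nt: module TwSy (basic properties of the symbols)
-/

namespace MP72e2e6

open Polynomial

universe u

open Classical in
theorem twsy_mul {K : Type u} [Field K] [Finite K] (hK : ringChar K ≠ 2) {x y : K} (hx : x ≠ 0)
    (hy : y ≠ 0) : (if IsSquare (x * y) then (0 : ZMod 2) else 1) =
      (if IsSquare x then 0 else 1) + (if IsSquare y then 0 else 1) := by
  have := Fintype.ofFinite K
  have hxy : x * y ≠ 0 := mul_ne_zero hx hy
  have h := map_mul (quadraticChar K) x y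
  by_cases h1 : IsSquare x
  · by_cases h2 : IsSquare y
    · rw [(quadraticChar_one_iff_isSquare hx).2 h1, (quadraticChar_one_iff_isSquare hy).2 h2,
        mul_one, quadraticChar_one_iff_isSquare hxy] at h
      rw [if_pos h, if_pos h1, if_pos h2, add_zero]
    · rw [(quadraticChar_one_iff_isSquare hx).2 h1, quadraticChar_neg_one_iff_not_isSquare.2 h2,
        one_mul, quadraticChar_neg_one_iff_not_isSquare] at h
      rw [if_neg h, if_pos h1, if_neg h2, zero_add]
  · by_cases h2 : IsSquare y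
    · rw [(quadraticChar_one_iff_isSquare hy).2 h2, quadraticChar_neg_one_iff_not_isSquare.2 h1,
        mul_one, quadraticChar_neg_one_iff_not_isSquare] at h
      rw [if_neg h, if_neg h1, if_pos h2, add_zero]
    · rw [quadraticChar_neg_one_iff_not_isSquare.2 h2, quadraticChar_neg_one_iff_not_isSquare.2 h1,
        neg_mul_neg, one_mul, quadraticChar_one_iff_isSquare hxy] at h
      rw [if_pos h, if_neg h1, if_neg h2]
      rfl

theorem twsy_ringChar {F : Type u} [Field F] [Finite F] (hF : Odd (Nat.card F)) :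
    ringChar F ≠ 2 := by
  classical
  have := Fintype.ofFinite F
  intro h
  have h1 := FiniteField.even_card_of_char_two h
  rw [Fintype.card_eq_nat_card] at h1
  have := Nat.odd_iff.mp hF
  omega

section

variable {F : Type u} [Field F] [Finite F]

theorem twsy_finite (P : F[X]) (hP : P.Monic) : Finite (AdjoinRoot P) := by
  have : Module.Finite F (AdjoinRoot P) := (AdjoinRoot.powerBasis' hP).finite
  exact Module.finite_of_finite F

theorem twsy_card (P : F[X]) (hP : P.Monic) :
    Nat.card (AdjoinRoot P) = Nat.card F ^ P.natDegree := by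
  have h1 : Module.Finite F (AdjoinRoot P) := (AdjoinRoot.powerBasis' hP).finite
  rw [Module.natCard_eq_pow_finrank (K := F), (AdjoinRoot.powerBasis' hP).finrank,
    AdjoinRoot.powerBasis'_dim]

theorem twsy_ringChar' (hF : Odd (Nat.card F)) (P : F[X]) (hP : P.Monic)
    [Fact (Irreducible P)] : ringChar (AdjoinRoot P) ≠ 2 := by
  have h1 := twsy_finite P hP
  refine twsy_ringChar ?_
  rw [twsy_card P hP]
  exact hF.pow

theorem twsy_fm {P : F[X]} (hPi : Irreducible P) {h : F[X]} (hh : h ≠ 0) :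
    FiniteMultiplicity P h := FiniteMultiplicity.of_not_isUnit hPi.not_isUnit hh

theorem twsy_div {P : F[X]} (hP : P.Monic) (hPi : Irreducible P) {h : F[X]} (hh : h ≠ 0) :
    h = P ^ multiplicity P h * (h /ₘ P ^ multiplicity P h) ∧ ¬ P ∣ h /ₘ P ^ multiplicity P h := by
  obtain ⟨c, hc, hc'⟩ := (twsy_fm hPi hh).exists_eq_pow_mul_and_not_dvd
  have h1 : h /ₘ P ^ multiplicity P h = c := by
    conv_lhs => rw [hc]
    have h2 : multiplicity P (P ^ multiplicity P h * c) = multiplicity P h := by rw [← hc]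
    rw [h2]
    exact mul_divByMonic_cancel_left c (hP.pow _)
  rw [h1]
  exact ⟨hc, hc'⟩

theorem twsy_ne {P h : F[X]} (hh : ¬ P ∣ h) : AdjoinRoot.mk P h ≠ 0 := fun h0 =>
  hh (AdjoinRoot.mk_eq_zero.1 h0)

theorem twsy_not_dvd {P : F[X]} (hPi : Irreducible P) {h : F[X]} (hh : ¬ P ∣ h) :
    multiplicity P h = 0 := multiplicity_eq_zero.2 hh

theorem twsy_sy_not_dvd {P : F[X]} {h : F[X]} (hm : multiplicity P h = 0) :
    h /ₘ P ^ multiplicity P h = h := by
  rw [hm, pow_zero]
  have h1 := mul_divByMonic_cancel_left h (monic_one (R := F))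
  rwa [one_mul] at h1

theorem twsy_sum (q d : ℕ) (hq : Odd q) : Even (∑ i ∈ Finset.range d, q ^ i) ↔ Even d := by
  induction d with
  | zero => simp
  | succ n ih =>
    rw [Finset.sum_range_succ, Nat.even_add, ih, Nat.even_add_one]
    have h1 : ¬ Even (q ^ n) := Nat.not_even_iff_odd.2 hq.pow
    tauto

theorem twsy_C (hF : Odd (Nat.card F)) (P : F[X]) (hP : P.Monic) [hPi : Fact (Irreducible P)]
    (x : F) (hx : x ≠ 0) :
    IsSquare (AdjoinRoot.mk P (C x)) ↔ (IsSquare x ∨ Even P.natDegree) := by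
  classical
  have h1 := twsy_finite P hP
  have h2 := Fintype.ofFinite F
  have h3 := Fintype.ofFinite (AdjoinRoot P)
  have hx' : AdjoinRoot.mk P (C x) ≠ 0 := by
    rw [AdjoinRoot.mk_C]
    exact (_root_.map_ne_zero _).2 hx
  rw [FiniteField.isSquare_iff (twsy_ringChar' hF P hP) hx',
    FiniteField.isSquare_iff (twsy_ringChar hF) hx]
  have h4 : Fintype.card (AdjoinRoot P) / 2 =
      (Fintype.card F / 2) * ∑ i ∈ Finset.range P.natDegree, Nat.card F ^ i := by
    rw [Fintype.card_eq_nat_card, Fintype.card_eq_nat_card, twsy_card P hP]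
    obtain ⟨k, hk⟩ := hF
    have h5 : (∑ i ∈ Finset.range P.natDegree, Nat.card F ^ i) * (Nat.card F - 1) =
        Nat.card F ^ P.natDegree - 1 :=
      geom_sum_mul_of_one_le (Finite.one_lt_card).le _
    set G := ∑ i ∈ Finset.range P.natDegree, Nat.card F ^ i
    have h6 : Nat.card F ^ P.natDegree = 2 * (k * G) + 1 := by
      have h7 : 0 < Nat.card F ^ P.natDegree := pow_pos (Nat.card_pos) _
      have h8 : G * (Nat.card F - 1) = 2 * (k * G) := by
        rw [hk, Nat.add_sub_cancel]
        ring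
      omega
    rw [h6, hk]
    have h9 : (2 * k + 1) / 2 = k := by omega
    rw [h9]
    omega
  have h5 : AdjoinRoot.mk P (C x) ^ (Fintype.card (AdjoinRoot P) / 2) =
      AdjoinRoot.of P ((x ^ (Fintype.card F / 2)) ^
        ∑ i ∈ Finset.range P.natDegree, Nat.card F ^ i) := by
    rw [h4, AdjoinRoot.mk_C, ← map_pow, pow_mul]
  rw [h5, ← map_one (AdjoinRoot.of P), (AdjoinRoot.of P).injective.eq_iff]
  have hneg : (-1 : F) ≠ 1 := Ring.neg_one_ne_one_of_char_ne_two (twsy_ringChar hF)
  rcases FiniteField.pow_dichotomy (twsy_ringChar hF) hx with h6 | h6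
  · rw [h6, one_pow]
    simp
  · rw [h6]
    have h7 := twsy_sum (Nat.card F) P.natDegree hF
    constructor
    · intro h8
      right
      rw [← h7]
      by_contra h9
      rw [Nat.not_even_iff_odd] at h9
      rw [h9.neg_one_pow] at h8
      exact hneg h8
    · rintro (h8 | h8)
      · exact absurd h8 hneg
      · rw [← h7] at h8
        exact h8.neg_one_pow

end

theorem tTwSy : StmtTwSy.{u} := by
  classical
  intro F _ _ hF
  refine ⟨fun x y hx hy => ?_, fun P hP hPi => ?_⟩
  · unfold cs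
    exact twsy_mul (twsy_ringChar hF) hx hy
  have hfact : Fact (Irreducible P) := ⟨hPi⟩
  have hfin := twsy_finite P hP
  refine ⟨fun g h hg hh => ⟨?_, ?_⟩, fun h hh => ⟨?_, ?_⟩, ?_, ?_, fun x hx => ⟨?_, ?_⟩⟩
  · unfold vp
    rw [if_neg (mul_ne_zero hg hh), if_neg hg, if_neg hh,
      multiplicity_mul hPi.prime (twsy_fm hPi (mul_ne_zero hg hh)), Nat.cast_add]
  · obtain ⟨hg1, hg2⟩ := twsy_div hP hPi hg
    obtain ⟨hh1, hh2⟩ := twsy_div hP hPi hh
    have h1 : (g * h) /ₘ P ^ multiplicity P (g * h) =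
        (g /ₘ P ^ multiplicity P g) * (h /ₘ P ^ multiplicity P h) := by
      rw [multiplicity_mul hPi.prime (twsy_fm hPi (mul_ne_zero hg hh)), pow_add]
      set j := multiplicity P g
      set k := multiplicity P h
      set g₁ := g /ₘ P ^ j
      set h₁ := h /ₘ P ^ k
      have h2 : g * h = (P ^ j * P ^ k) * (g₁ * h₁) := by
        rw [hg1, hh1]
        ring
      rw [h2]
      exact mul_divByMonic_cancel_left _ ((hP.pow _).mul (hP.pow _))
    unfold sy
    rw [h1, map_mul]
    exact twsy_mul (twsy_ringChar' hF P hP) (twsy_ne hg2) (twsy_ne hh2)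
  · unfold vp
    split_ifs with h0
    · rfl
    · rw [twsy_not_dvd hPi hh, Nat.cast_zero]
  · unfold sy
    rw [twsy_sy_not_dvd (twsy_not_dvd hPi hh)]
    split_ifs with h1
    · simp [h1]
    · simp [h1]
  · unfold vp
    rw [if_neg hPi.ne_zero, multiplicity_self, Nat.cast_one]
  · unfold sy
    have h1 : P /ₘ P ^ multiplicity P P = 1 := by
      rw [multiplicity_self, pow_one]
      have h2 := mul_divByMonic_cancel_left 1 hP
      rwa [mul_one] at h2
    rw [h1, map_one, if_pos IsSquare.one]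
  · have h1 : ¬ P ∣ C x := by
      intro h2
      exact hPi.not_isUnit (isUnit_of_dvd_unit h2 (isUnit_C.2 (isUnit_iff_ne_zero.2 hx)))
    unfold vp
    split_ifs with h0
    · rfl
    · rw [twsy_not_dvd hPi h1, Nat.cast_zero]
  · have h1 : ¬ P ∣ C x := by
      intro h2
      exact hPi.not_isUnit (isUnit_of_dvd_unit h2 (isUnit_C.2 (isUnit_iff_ne_zero.2 hx)))
    have h2 := twsy_C hF P hP x hx
    unfold sy cs
    rw [twsy_sy_not_dvd (twsy_not_dvd hPi h1)]
    by_cases h3 : IsSquare x
    · rw [if_pos (h2.2 (Or.inl h3)), if_pos h3, mul_zero]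
    · rw [if_neg h3, mul_one]
      by_cases h4 : Even P.natDegree
      · rw [if_pos (h2.2 (Or.inr h4))]
        exact ((ZMod.natCast_eq_zero_iff_even).2 h4).symm
      · rw [if_neg (fun h5 => (h2.1 h5).elim h3 h4)]
        exact ((ZMod.natCast_eq_one_iff_odd).2 (Nat.not_even_iff_odd.1 h4)).symm

end MP72e2e6
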