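import Pool.Agent.Lib.MP_72e2e6_nt.PeMain
import Pool.Agent.Lib.MP_72e2e6_nt.PeAn
import Pool.Agent.Lib.MP_72e2e6_nt.PeChr
import Pool.Agent.Lib.MP_72e2e6_nt.PeEB
import Pool.Agent.Lib.MP_72e2e6_nt.PeEq
import Pool.Agent.Lib.MP_72e2e6_nt.PeErr
import Pool.Agent.Lib.MP_72e2e6_nt.PeExt
import Pool.Agent.Lib.MP_72e2e6_nt.PeFM
import Pool.Agent.Lib.MP_72e2e6_nt.PeFou
import Pool.Agent.Lib.MP_72e2e6_nt.PeFrm
import Pool.Agent.Lib.MP_72e2e6_nt.PeHas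
import Pool.Agent.Lib.MP_72e2e6_nt.PeHyp
import Pool.Agent.Lib.MP_72e2e6_nt.PeInj
import Pool.Agent.Lib.MP_72e2e6_nt.PeInn
import Pool.Agent.Lib.MP_72e2e6_nt.PeIrr
import Pool.Agent.Lib.MP_72e2e6_nt.PeMT
import Pool.Agent.Lib.MP_72e2e6_nt.PeMar
import Pool.Agent.Lib.MP_72e2e6_nt.PeNon
import Pool.Agent.Lib.MP_72e2e6_nt.PePar
import Pool.Agent.Lib.MP_72e2e6_nt.PeSel
import Pool.Agent.Lib.MP_72e2e6_nt.PeSte
import Pool.Agent.Lib.MP_72e2e6_nt.PeSyl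
import Pool.Agent.Lib.MP_72e2e6_nt.PeWei
import Pool.Agent.Lib.MP_72e2e6_nt.PpTS
import Pool.Agent.Lib.MP_72e2e6_nt.PpCol
import Pool.Agent.Lib.MP_72e2e6_nt.PpFul
import Pool.Agent.Lib.MP_72e2e6_nt.PpHal
import Pool.Agent.Lib.MP_72e2e6_nt.PpEA
import Pool.Agent.Lib.MP_72e2e6_nt.PpLin
import Pool.Agent.Lib.MP_72e2e6_nt.PpBil
import Pool.Agent.Lib.MP_72e2e6_nt.PpRec
import Pool.Agent.Lib.MP_72e2e6_nt.PpSA
import Pool.Agent.Lib.MP_72e2e6_nt.PpSB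
import Pool.Agent.Lib.MP_72e2e6_nt.PpLim
import Pool.Agent.Lib.MP_72e2e6_nt.PpTri
import Pool.Agent.Lib.MP_72e2e6_nt.PpIn
import Pool.Agent.Lib.MP_72e2e6_nt.PpEvn
import Pool.Agent.Lib.MP_72e2e6_nt.PpBij
import Pool.Agent.Lib.MP_72e2e6_nt.PpCnt
import Pool.Agent.Lib.MP_72e2e6_nt.PpCv
import Pool.Agent.Lib.MP_72e2e6_nt.PpNum
import Pool.Agent.Lib.MP_72e2e6_nt.PpCmp
import Pool.Agent.Lib.MP_72e2e6_nt.PpEn
import Pool.Agent.Lib.MP_72e2e6_nt.SuSy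
import Pool.Agent.Lib.MP_72e2e6_nt.SuMon
import Pool.Agent.Lib.MP_72e2e6_nt.SuPsi
import Pool.Agent.Lib.MP_72e2e6_nt.TwMon
import Pool.Agent.Lib.MP_72e2e6_nt.TwPsi
import Pool.Agent.Lib.MP_72e2e6_nt.TwSy
import Pool.Agent.Lib.MP_72e2e6_nt.TwRec
import Pool.Agent.Lib.MP_72e2e6_nt.TwFac
import Pool.Agent.Lib.MP_72e2e6_nt.TwNu
import Pool.Agent.Lib.MP_72e2e6_nt.TwTor
import Pool.Agent.Lib.MP_72e2e6_nt.TwLoc
import Pool.Agent.Lib.MP_72e2e6_nt.TwLocV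
import Pool.Agent.Lib.MP_72e2e6_nt.TwLocF
import Pool.Agent.Lib.MP_72e2e6_nt.TwLocI
import Pool.Agent.Lib.MP_72e2e6_nt.TwSqF
import Pool.Agent.Lib.MP_72e2e6_nt.TwSqI
import Pool.Agent.Lib.MP_72e2e6_nt.TwIdx

/-!
# MP_72e2e6_nt: positive proportion of quadratic twists, all the modules together
-/

set_option autoImplicit false

namespace MP72e2e6

open Polynomial IsDedekindDomain

universe u

open Classical in
theorem quadratic_proportion {F : Type u} [Field F] [Finite F] (hq : 4 ∣ Nat.card F - 1)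
    {m n₀ : ℕ} {a : Fin m → F[X]} (ha : Pts m n₀ a) (hconn : ConnE a) :
    (∃ c : ℝ, 0 < c ∧ ∃ N : ℕ, ∀ n : ℕ, N ≤ n → Odd (n + n₀) →
      c * (Nat.card F : ℝ) ^ n ≤ ({E : F[X] | E.Monic ∧ E.natDegree = n ∧ Squarefree E ∧
        placesSelmer F[X] (RatFunc.inftyValuation F) 2 (pts E a) (fun _ => 1) =
          torsionGroup 2 (pts E a) (fun _ => 1) ∧
        (powGroup 2 (RatFunc F) m).relIndex
          (placesSelmer F[X] (RatFunc.inftyValuation F) 2 (pts E a) (fun _ => 1)) =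
          2 ^ (m - 1)}.ncard : ℝ)) ∧
    ∀ D : F[X], D.Monic → Squarefree D →
      (∀ P : F[X], Irreducible P → ∀ i j, i ≠ j → P ∣ a i - a j → P ∣ D) →
      (∃ c : ℝ, 0 < c ∧ ∃ N : ℕ, ∀ n : ℕ, N ≤ n →
        c * (Nat.card F : ℝ) ^ n ≤ ((Msq D n).ncard : ℝ)) ∧
      ∀ ε : ℝ, 0 < ε → ∃ N : ℕ, ∀ n : ℕ, N ≤ n → Odd (D.natDegree + n + n₀) →
        (1 / 3 - ε) * ((Msq D n).ncard : ℝ) ≤
          ({M ∈ Msq D n |
            placesSelmer F[X] (RatFunc.inftyValuation F) 2 (pts (D * M) a) (fun _ => 1) =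
              torsionGroup 2 (pts (D * M) a) (fun _ => 1)}.ncard : ℝ) ∧
        ∑ᶠ M ∈ Msq D n, ((torsionGroup 2 (pts (D * M) a) (fun _ => 1)).relIndex
            (placesSelmer F[X] (RatFunc.inftyValuation F) 2 (pts (D * M) a) (fun _ => 1)) : ℝ)
            ≤ (3 + ε) * ((Msq D n).ncard : ℝ) := by
  -- symbols and local images
  have hSy : StmtTwSy.{u} := tTwSy
  have hRec : StmtTwRec.{u} := tTwRec hSy
  have hFac : StmtTwFac.{u} := tTwFac hSy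
  have hNu : StmtTwNu.{u} := tTwNu hSy
  have hLocV : StmtTwLocV.{u} := tTwLocV tTwLoc.{u}
  have hTor : StmtTwTor.{u} := tTwTor
  have hSel : StmtPeSel.{u} := tPeSel hSy (tTwLocF hLocV) (tTwLocI hLocV) (tTwSqF hSy)
    tTwSqI hTor
  have hEq : StmtPeEq.{u} := tPeEq hSy hFac hNu hSel
  have hSyl : StmtPeSyl.{u} := tPeSyl hSy hRec
  have hInj : StmtPeInj.{u} := tPeInj hSy hFac hNu hTor hSyl hEq
  have hHyp : StmtPeHyp.{u} := tPeHyp hSy hFac hNu hSyl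
  -- analytic part
  have hMon : StmtTwMon.{u} := tTwMon
  have hPsi : StmtSuPsi.{u} := tSuPsi hMon (tTwPsi hMon) tSuMon
  have hSuSy : StmtSuSy.{u} := tSuSy
  have hPRec : StmtPpRec.{u} := tPpRec hPsi
  have hNum : StmtPpNum := tPpNum
  have hCv : StmtPpCv := tPpCv hNum
  have hChr : StmtPeChr.{0} := tPeChr (tPeSte tPeHas.{0} tPeNon.{0})
  have hWei : StmtPeWei.{u} := tPeWei hSuSy hPsi hChr (tPeExt hSuSy hPsi)
  have hInn : StmtPeInn.{u} := tPeInn hSuSy hWei (tPpIn hPsi hPRec hNum)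
  have hEB : StmtPeEB.{u} := tPeEB hPRec (tPpSB hNum hCv) hInn
  have hBil : StmtPpBil.{u} := tPpBil hSuSy hMon tPpCmp (tPpEn hMon)
  have hEA : StmtPpEA.{u} := tPpEA (tPpLin hPRec hNum hBil)
  have hErr : StmtPeErr.{u} := tPeErr hPRec (tPpSA hNum hCv) tPpLim tPpTri hEA hEB
  have hCol : StmtPpCol.{u} := tPpCol
  have hAn : StmtPeAn.{u} := tPeAn hErr (tPpFul hCol) (tPpHal hPsi hPRec hNum)
  have hFM : StmtPeFM.{u} := tPeFM tPpTS hCol hAn (tPeMT tPpTS) (tPeFou hSuSy)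
  have hPar : StmtPePar.{u} := tPePar hSuSy (tPeFrm tPpEvn.{0} tPpEvn.{u})
  have hMar : StmtPeMar.{u} := tPeMar hFM hPar
  have hBij : StmtPpBij.{u} := tPpBij
  have hCnt : StmtPpCnt.{u} := tPpCnt hMon hPsi hBij
  refine ⟨pe_all hMar hBij hCnt hSyl hHyp tPeIrr hInj (tTwIdx hSy hTor) hq ha hconn,
    fun D hD hDs hDa => pe_main hMar hBij hCnt hSyl hHyp tPeIrr hInj hq ha hconn hD hDs hDa⟩

end MP72e2e6
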