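import Pool.Agent.Lib.MP_72e2e6_nt.Spec

/-!
# MP_72e2e6_nt: the local image is generated by closed points
-/

namespace MP72e2e6

open Polynomial IsDedekindDomain

universe u

variable {K : Type*} [Field K] {n : ℕ}

theorem norm_root_sub {M : Type u} [Field M] {g : M[X]} (hg : g.Monic) (hirr : Irreducible g)
    (a : M) :
    Algebra.norm M (AdjoinRoot.root g - algebraMap M (AdjoinRoot g) a) =
      (-1) ^ g.natDegree * g.eval a := by
  classical
  let pb := AdjoinRoot.powerBasis' hg
  have hgen : pb.gen = AdjoinRoot.root g := rfl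
  have hdim : pb.dim = g.natDegree := rfl
  have hcp : (Algebra.leftMulMatrix pb.basis pb.gen).charpoly = g := by
    rw [charpoly_leftMulMatrix, hgen, AdjoinRoot.minpoly_root hirr.ne_zero, hg.leadingCoeff]
    simp
  have h1 : Algebra.leftMulMatrix pb.basis (AdjoinRoot.root g - algebraMap M (AdjoinRoot g) a) =
      -(Matrix.scalar _ a - Algebra.leftMulMatrix pb.basis pb.gen) := by
    rw [hgen, map_sub, neg_sub]
    congr 1
    rw [AlgHom.commutes]
    rfl
  have h2 : (Matrix.scalar _ a - Algebra.leftMulMatrix pb.basis pb.gen).det = g.eval a := by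
    conv_rhs => rw [← hcp]
    rw [Matrix.charpoly, ← Polynomial.coe_evalRingHom, RingHom.map_det]
    congr 1
    ext i j
    by_cases hij : i = j
    · subst hij
      simp [Matrix.charmatrix_apply_eq]
    · simp [Matrix.charmatrix_apply_ne _ _ _ hij, Matrix.diagonal_apply_ne _ hij]
  rw [Algebra.norm_eq_matrix_det pb.basis, h1, Matrix.det_neg, h2, Fintype.card_fin, hdim]

/-- A subgroup which contains the `ℓ`-th powers and the tuples of closed points contains the
local image. -/
theorem localImage_le {ℓ : ℕ} (a : Fin n → K) (b : Fin n → ℕ) {M : Type u} [Field M] [Algebra K M]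
    (H : Subgroup (Fin n → Mˣ)) (hpow : ∀ z : Fin n → Mˣ, z ^ ℓ ∈ H)
    (hpt : ∀ (L : Type u) [Field L] [Algebra M L] [FiniteDimensional M L] (x w : L)
      (d : Fin n → Mˣ),
      ∏ i, (x - algebraMap M L (algebraMap K M (a i))) ^ (b i) = w ^ ℓ →
      (∀ i, (d i : M) = Algebra.norm M (x - algebraMap M L (algebraMap K M (a i)))) → d ∈ H) :
    localImage ℓ a b M ≤ H := by
  classical
  rw [localImage, Subgroup.closure_le]
  rintro d (⟨z, rfl⟩ | ⟨u, w, hu, hdvd, hd⟩)
  · exact hpow z
  · -- induction on the degree of `u`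
    suffices key : ∀ (N : ℕ) (u : M[X]) (d : Fin n → Mˣ), u.natDegree ≤ N → u.Monic →
        u ∣ curvePoly a b M - w ^ ℓ →
        (∀ i, (d i : M) = (-1) ^ u.natDegree * u.eval (algebraMap K M (a i))) → d ∈ H from
      key _ u d le_rfl hu hdvd hd
    clear hdvd hd hu u d
    intro N
    induction N with
    | zero =>
      intro u d hN hu _ hd
      have h1 : u = 1 := hu.natDegree_eq_zero.1 (Nat.le_zero.1 hN)
      have h2 : d = 1 := by
        ext i
        rw [hd i, h1]
        simp
      rw [h2]
      exact H.one_mem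
    | succ N ih =>
      intro u d hN hu hdvd hd
      by_cases h0 : u.natDegree = 0
      · exact ih u d (by omega) hu hdvd hd
      obtain ⟨g, hgm, hgi, hgd⟩ := Polynomial.exists_monic_irreducible_factor u
        (Polynomial.not_isUnit_of_natDegree_pos u (Nat.pos_of_ne_zero h0))
      obtain ⟨r, rfl⟩ := hgd
      have hr : r.Monic := hgm.of_mul_monic_left hu
      have hdeg : (g * r).natDegree = g.natDegree + r.natDegree := hgm.natDegree_mul hr
      have hgpos : 0 < g.natDegree := hgi.natDegree_pos
      have hne : ∀ i, g.eval (algebraMap K M (a i)) ≠ 0 ∧ r.eval (algebraMap K M (a i)) ≠ 0 := by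
        intro i
        have := hd i
        rw [eval_mul] at this
        have h3 : (d i : M) ≠ 0 := (d i).ne_zero
        rw [this] at h3
        exact ⟨fun h => h3 (by rw [h]; ring), fun h => h3 (by rw [h]; ring)⟩
      let d1 : Fin n → Mˣ := fun i => Units.mk0
        ((-1) ^ g.natDegree * g.eval (algebraMap K M (a i)))
        (mul_ne_zero (pow_ne_zero _ (by simp)) (hne i).1)
      let d2 : Fin n → Mˣ := fun i => Units.mk0
        ((-1) ^ r.natDegree * r.eval (algebraMap K M (a i)))
        (mul_ne_zero (pow_ne_zero _ (by simp)) (hne i).2)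
      have hmul : d = d1 * d2 := by
        ext i
        rw [hd i, Pi.mul_apply, Units.val_mul, Units.val_mk0, Units.val_mk0, hdeg, eval_mul]
        ring
      rw [hmul]
      refine H.mul_mem ?_ (ih r d2 (by omega) hr (dvd_trans (dvd_mul_left _ _) hdvd)
        (fun i => rfl))
      haveI : Fact (Irreducible g) := ⟨hgi⟩
      haveI : FiniteDimensional M (AdjoinRoot g) :=
        (AdjoinRoot.powerBasis hgi.ne_zero).finite
      refine hpt (AdjoinRoot g) (AdjoinRoot.root g) (AdjoinRoot.mk g w) d1 ?_ ?_
      · have h4 : AdjoinRoot.mk g (curvePoly a b M - w ^ ℓ) = 0 :=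
          AdjoinRoot.mk_eq_zero.2 (dvd_trans (dvd_mul_right _ _) hdvd)
        rw [map_sub, map_pow, sub_eq_zero] at h4
        rw [← h4, curvePoly, map_prod]
        refine Finset.prod_congr rfl fun i _ => ?_
        rw [map_pow, map_sub, AdjoinRoot.mk_X]
        rfl
      · intro i
        rw [norm_root_sub hgm hgi]
        rfl

end MP72e2e6
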