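import Pool.Agent.Lib.MP_72e2e6_nt.Count

/-!
# MP_72e2e6_nt: a bound for the Selmer group for every `P`
-/

namespace MP72e2e6

open Polynomial IsDedekindDomain WithZero

section

variable {F : Type*} [Field F] [Finite F] {ℓ m : ℕ} {c : Fin m → F} {b : Fin m → ℕ} {P : F[X]}

theorem coprime_expo (hℓ : ℓ.Prime) (hb : ∀ i, ¬ ℓ ∣ b i) : ∀ i, Nat.Coprime (expo b i) ℓ := by
  refine Fin.cases ?_ (fun i => ?_)
  · exact Nat.coprime_one_left ℓ
  · exact ((Nat.Prime.coprime_iff_not_dvd hℓ).2 (hb i)).symm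

theorem coprime_sum_expo (hB : ℓ ∣ ∑ i, b i) : Nat.Coprime (∑ i, expo b i) ℓ := by
  rw [Fin.sum_univ_succ, expo_zero]
  simp only [expo_succ]
  obtain ⟨q, hq⟩ := hB
  rw [hq]
  simp

open Classical in
/-- the class at infinity of a Selmer element comes from the torsion -/
theorem exists_torsion_of_mem_selmer (hℓ : ℓ.Prime) (hℓF : ℓ ∣ Nat.card F - 1)
    (hc : Function.Injective c) (hb : ∀ i, ¬ ℓ ∣ b i) (hB : ℓ ∣ ∑ i, b i)
    (hP : ¬ ℓ ∣ P.natDegree) {d : Fin (m + 1) → (RatFunc F)ˣ}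
    (hd : d ∈ selmerGroup F ℓ (branch c (algebraMap F[X] (RatFunc F) P)) (expo b)) :
    ∃ t ∈ torsionGroup ℓ (branch c (algebraMap F[X] (RatFunc F) P)) (expo b),
      ∃ z : Fin (m + 1) → (RatFunc.CompletionAtInfty F)ˣ,
        ∀ i, algebraMap (RatFunc F) (RatFunc.CompletionAtInfty F)
        ((d i : RatFunc F) / (t i : RatFunc F)) = (z i : RatFunc.CompletionAtInfty F) ^ ℓ := by
  have hPpos : 0 < P.natDegree := Nat.pos_of_ne_zero fun h => hP (h ▸ dvd_zero ℓ)
  have hP0 : P ≠ 0 := by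
    rintro rfl
    simp at hPpos
  have ha := branch_injective' (P := P) hc hPpos
  have hb' : ∀ i, Nat.Coprime (b i) ℓ := fun i =>
    ((Nat.Prime.coprime_iff_not_dvd hℓ).2 (hb i)).symm
  set a := branch c (algebraMap F[X] (RatFunc F) P) with hadef
  have hdinf' : baseChange (RatFunc.CompletionAtInfty F) d ∈
      localImage ℓ a (expo b) (RatFunc.CompletionAtInfty F) := (Subgroup.mem_inf.1 hd).2
  -- the torsion at infinity
  let : Algebra F (RatFunc.CompletionAtInfty F) :=
    ((algebraMap (RatFunc F) (RatFunc.CompletionAtInfty F)).comp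
      (algebraMap F (RatFunc F))).toAlgebra
  have := completeSpace_inf (F := F)
  set P' := algebraMap (RatFunc F) (RatFunc.CompletionAtInfty F)
    (algebraMap F[X] (RatFunc F) P) with hP'
  have hbr : branch c P' = fun i => algebraMap (RatFunc F) (RatFunc.CompletionAtInfty F)
      (a i) := by
    funext i
    refine Fin.cases ?_ (fun i => ?_) i
    · rw [hadef, branch_zero, branch_zero, map_neg]
    · rw [hadef, branch_succ, branch_succ]
      rfl
  have hvP : Valued.v P' = WithZero.exp (P.natDegree : ℤ) := by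
    rw [hP', valued_algebraMap_inf]
    exact RatFunc.inftyValuation.polynomial F hP0
  have hloc : localImage ℓ (branch c P') (expo b) (RatFunc.CompletionAtInfty F) ≤
      torsionGroup ℓ (branch c P') (expo b) := by
    refine localImage_le_torsionGroup' nontriv_inf (fun y hy => ?_) hℓ hℓF hc hb' hB ?_ ?_
    · obtain ⟨α, hα⟩ := exists_const_near' y hy
      exact ⟨α, hα⟩
    · rw [hvP, ← WithZero.exp_zero, WithZero.exp_lt_exp]
      exact_mod_cast hPpos
    · rw [hvP, WithZero.log_exp, Int.natCast_dvd_natCast]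
      exact hP
  have hmem : baseChange (RatFunc.CompletionAtInfty F) d ∈
      torsionGroup ℓ (fun i => algebraMap (RatFunc F) (RatFunc.CompletionAtInfty F) (a i))
        (expo b) := by
    rw [← hbr]
    refine hloc ?_
    have h1 : localImage ℓ (branch c P') (expo b) (RatFunc.CompletionAtInfty F) =
        localImage ℓ a (expo b) (RatFunc.CompletionAtInfty F) := by
      rw [hbr]
      rfl
    rw [h1]
    exact hdinf'
  obtain ⟨t, ht, z, hz⟩ := exists_of_mem_torsionGroup ha _ hmem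
  have hDinf : ∀ i, algebraMap (RatFunc F) (RatFunc.CompletionAtInfty F)
      ((d i : RatFunc F) / (t i : RatFunc F)) = (z i : RatFunc.CompletionAtInfty F) ^ ℓ := by
    intro i
    have h1 : algebraMap (RatFunc F) (RatFunc.CompletionAtInfty F) (d i : RatFunc F) =
        algebraMap (RatFunc F) (RatFunc.CompletionAtInfty F) (t i : RatFunc F) *
          (z i : RatFunc.CompletionAtInfty F) ^ ℓ := by
      have h2 := congrArg (fun x : Fin (m + 1) → (RatFunc.CompletionAtInfty F)ˣ =>
        ((x i : (RatFunc.CompletionAtInfty F)ˣ) : RatFunc.CompletionAtInfty F)) hz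
      exact h2
    have h3 : algebraMap (RatFunc F) (RatFunc.CompletionAtInfty F) (t i : RatFunc F) ≠ 0 := by
      rw [Ne, map_eq_zero]
      exact (t i).ne_zero
    rw [map_div₀, h1, mul_div_cancel_left₀ _ h3]
  exact ⟨t, ht, z, hDinf⟩

omit [Finite F] in
/-- finite places -/
theorem log_dvd_of_mem_selmer (hℓ : ℓ.Prime)
    (hc : Function.Injective c) (hb : ∀ i, ¬ ℓ ∣ b i) (hB : ℓ ∣ ∑ i, b i)
    {d : Fin (m + 1) → (RatFunc F)ˣ}
    (hd : d ∈ selmerGroup F ℓ (branch c (algebraMap F[X] (RatFunc F) P)) (expo b))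
    (i : Fin m) (v : HeightOneSpectrum F[X]) (hv : P + C (c i) ∉ v.asIdeal) :
    (ℓ : ℤ) ∣ WithZero.log (v.valuation (RatFunc F) (d i.succ : RatFunc F)) := by
  classical
  set a := branch c (algebraMap F[X] (RatFunc F) P) with hadef
  have hdv : baseChange (v.adicCompletion (RatFunc F)) d ∈
      localImage ℓ a (expo b) (v.adicCompletion (RatFunc F)) :=
    (Subgroup.mem_iInf.1 (Subgroup.mem_inf.1 hd).1) v
  have h1 := log_dvd_of_mem_localImage (M := v.adicCompletion (RatFunc F))
    (nontriv_fin v) hℓ.ne_zero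
    (a := fun k => algebraMap (RatFunc F) (v.adicCompletion (RatFunc F)) (a k))
    (b := expo b) (coprime_sum_expo hB) (fun k => ?_) i.succ (coprime_expo hℓ hb _)
    (fun k hk => ?_) hdv
  · have h2 : ((baseChange (v.adicCompletion (RatFunc F)) d i.succ :
        (v.adicCompletion (RatFunc F))ˣ) : v.adicCompletion (RatFunc F)) =
        algebraMap (RatFunc F) (v.adicCompletion (RatFunc F)) (d i.succ : RatFunc F) := rfl
    rw [h2, valued_algebraMap_fin] at h1
    exact h1
  · rw [valued_algebraMap_fin]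
    exact valuation_branch_le v k
  · rw [← map_sub, valued_algebraMap_fin]
    exact valuation_branch_sub hc v i hv k hk

/-- the product relation for Selmer elements -/
theorem exists_prod_eq_pow_selmer (hℓ : ℓ.Prime) {n : ℕ} {a : Fin n → RatFunc F} {β : Fin n → ℕ}
    {d : Fin n → (RatFunc F)ˣ} (hd : d ∈ selmerGroup F ℓ a β) :
    ∃ y : RatFunc F, ∏ i, (d i : RatFunc F) ^ (β i) = y ^ ℓ := by
  classical
  obtain ⟨hdfin, hdinf⟩ := Subgroup.mem_inf.1 hd
  refine exists_eq_pow hℓ Polynomial.irreducible_X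
    (by rw [Polynomial.natDegree_X]; exact fun h => hℓ.one_lt.ne' (Nat.dvd_one.1 h)) _
    (Finset.prod_ne_zero_iff.2 fun i _ => pow_ne_zero _ (d i).ne_zero) (fun v _ => ?_) ?_
  · have hdv : baseChange (v.adicCompletion (RatFunc F)) d ∈
        localImage ℓ a β (v.adicCompletion (RatFunc F)) := (Subgroup.mem_iInf.1 hdfin) v
    obtain ⟨y, hy⟩ := exists_prod_eq_pow hdv
    have h1 : algebraMap (RatFunc F) (v.adicCompletion (RatFunc F))
        (∏ i, (d i : RatFunc F) ^ (β i)) = y ^ ℓ := by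
      rw [← hy, map_prod]
      refine Finset.prod_congr rfl fun i _ => ?_
      rw [map_pow]
      rfl
    rw [← valued_algebraMap_fin, h1, map_pow, WithZero.log_pow, nsmul_eq_mul]
    exact dvd_mul_right _ _
  · obtain ⟨y, hy⟩ := exists_prod_eq_pow (K := RatFunc F) hdinf
    refine ⟨y, ?_⟩
    rw [← hy, map_prod]
    refine Finset.prod_congr rfl fun i _ => ?_
    rw [map_pow]
    rfl

omit [Finite F] in
theorem valuation_ne_zero_unit (w : Valuation (RatFunc F) (WithZero (Multiplicative ℤ)))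
    (x : (RatFunc F)ˣ) : w (x : RatFunc F) ≠ 0 := (Valuation.ne_zero_iff _).2 x.ne_zero

open Classical in
omit [Finite F] in
/-- if all finite valuations of `x` are divisible by `ℓ`, so is the valuation at infinity -/
theorem dvd_log_inftyValuation (hℓ : 0 < ℓ) (x : RatFunc F) (hx : x ≠ 0)
    (h : ∀ v : HeightOneSpectrum F[X], (ℓ : ℤ) ∣ WithZero.log (v.valuation (RatFunc F) x)) :
    (ℓ : ℤ) ∣ WithZero.log (RatFunc.inftyValuation F x) := by
  obtain ⟨ε, k, y, hε, hy, heq⟩ := exists_ratFunc_eq hℓ Polynomial.irreducible_X x hx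
    (fun v _ => h v)
  have hpoly : C ε * X ^ k ≠ (0 : F[X]) :=
    mul_ne_zero (C_ne_zero.2 hε) (pow_ne_zero _ Polynomial.X_ne_zero)
  have hk : (ℓ : ℤ) ∣ (k : ℤ) := by
    have h1 := h (idealX F)
    have h2 : (idealX F).valuation (RatFunc F) (algebraMap F[X] (RatFunc F) (C ε * X ^ k)) =
        WithZero.exp (-(k : ℤ)) := by
      rw [map_mul, map_pow, RatFunc.algebraMap_C, RatFunc.algebraMap_X, map_mul, map_pow,
        valuation_X_eq_neg_one]
      have h3 : (idealX F).valuation (RatFunc F) (RatFunc.C ε) = 1 := by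
        rw [← RatFunc.algebraMap_C, HeightOneSpectrum.valuation_eq_one_iff_notMem]
        intro h4
        exact (idealX F).isPrime.ne_top (Ideal.eq_top_of_isUnit_mem _ h4
          (Polynomial.isUnit_C.2 (isUnit_iff_ne_zero.2 hε)))
      rw [h3, one_mul, ← WithZero.exp_nsmul]
      congr 1
      simp
    rw [heq, map_mul, map_pow, h2, WithZero.log_mul WithZero.exp_ne_zero
      (pow_ne_zero _ ((Valuation.ne_zero_iff _).2 hy)), WithZero.log_exp, WithZero.log_pow,
      nsmul_eq_mul] at h1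
    have h5 := (dvd_add_left (dvd_mul_right (ℓ : ℤ) _)).1 h1
    rwa [dvd_neg] at h5
  have h2 : RatFunc.inftyValuation F (algebraMap F[X] (RatFunc F) (C ε * X ^ k)) =
      WithZero.exp ((C ε * X ^ k).natDegree : ℤ) := RatFunc.inftyValuation.polynomial F hpoly
  rw [Polynomial.natDegree_C_mul_X_pow _ _ hε] at h2
  rw [heq, map_mul, map_pow, h2, WithZero.log_mul WithZero.exp_ne_zero
      (pow_ne_zero _ ((Valuation.ne_zero_iff _).2 hy)), WithZero.log_exp, WithZero.log_pow,
      nsmul_eq_mul]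
  exact dvd_add hk (dvd_mul_right _ _)

/-- Selmer elements with trivial valuations are `ℓ`-th powers -/
theorem mem_powGroup_of_mem_selmer (hℓ : ℓ.Prime) (hℓF : ℓ ∣ Nat.card F - 1)
    (hc : Function.Injective c) (hb : ∀ i, ¬ ℓ ∣ b i) (hB : ℓ ∣ ∑ i, b i)
    (hP : ¬ ℓ ∣ P.natDegree) {d : Fin (m + 1) → (RatFunc F)ˣ}
    (hd : d ∈ selmerGroup F ℓ (branch c (algebraMap F[X] (RatFunc F) P)) (expo b))
    (hval : ∀ (i : Fin m) (v : HeightOneSpectrum F[X]), P + C (c i) ∈ v.asIdeal →
      (ℓ : ℤ) ∣ WithZero.log (v.valuation (RatFunc F) (d i.succ : RatFunc F))) :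
    d ∈ powGroup ℓ (RatFunc F) (m + 1) := by
  classical
  have hall : ∀ (i : Fin m) (v : HeightOneSpectrum F[X]),
      (ℓ : ℤ) ∣ WithZero.log (v.valuation (RatFunc F) (d i.succ : RatFunc F)) := by
    intro i v
    by_cases hv : P + C (c i) ∈ v.asIdeal
    · exact hval i v hv
    · exact log_dvd_of_mem_selmer hℓ hc hb hB hd i v hv
  obtain ⟨t, ht, z, hz⟩ := exists_torsion_of_mem_selmer hℓ hℓF hc hb hB hP hd
  have hlogt : logHom F ℓ m t = 1 := by
    apply Multiplicative.toAdd.injective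
    funext i
    change ((WithZero.log (RatFunc.inftyValuation F
      ((t i.succ : (RatFunc F)ˣ) : RatFunc F)) : ℤ) : ZMod ℓ) = 0
    rw [ZMod.intCast_zmod_eq_zero_iff_dvd]
    have h1 := dvd_log_inftyValuation hℓ.pos _ (d i.succ).ne_zero (hall i)
    have h2 := congrArg (fun x => WithZero.log (Valued.v x)) (hz i.succ)
    simp only [valued_algebraMap_inf, map_div₀, map_pow, WithZero.log_pow] at h2
    rw [WithZero.log_div (valuation_ne_zero_unit _ _) (valuation_ne_zero_unit _ _),
      nsmul_eq_mul] at h2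
    have h3 : WithZero.log (RatFunc.inftyValuation F ((t i.succ : (RatFunc F)ˣ) : RatFunc F)) =
        WithZero.log (RatFunc.inftyValuation F ((d i.succ : (RatFunc F)ˣ) : RatFunc F)) -
          ℓ * WithZero.log (Valued.v (z i.succ : RatFunc.CompletionAtInfty F)) := by
      linear_combination -h2
    rw [h3]
    exact dvd_sub h1 (dvd_mul_right _ _)
  obtain ⟨s, hs⟩ := mem_powGroup_of_logHom hℓ hc hb hB hP ht hlogt
  have hsucc : ∀ i : Fin m, ∃ y : RatFunc F, (d i.succ : RatFunc F) = y ^ ℓ := by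
    intro i
    refine exists_eq_pow hℓ Polynomial.irreducible_X
      (by rw [Polynomial.natDegree_X]; exact fun h => hℓ.one_lt.ne' (Nat.dvd_one.1 h)) _
      (d i.succ).ne_zero (fun v _ => hall i v) ?_
    refine ⟨algebraMap (RatFunc F) (RatFunc.CompletionAtInfty F) (s i.succ : RatFunc F) *
      (z i.succ : RatFunc.CompletionAtInfty F), ?_⟩
    have h1 : (t i.succ : RatFunc F) = (s i.succ : RatFunc F) ^ ℓ := by
      rw [← hs]
      rfl
    rw [mul_pow, ← hz i.succ, ← map_pow, ← h1, ← map_mul, mul_div_cancel₀ _ (t i.succ).ne_zero]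
  obtain ⟨w, hw⟩ := exists_prod_eq_pow_selmer hℓ hd
  choose y hy using hsucc
  have hall' : ∀ i, ∃ y : RatFunc F, (d i : RatFunc F) = y ^ ℓ := by
    refine Fin.cases ?_ (fun i => ⟨y i, hy i⟩)
    rw [Fin.prod_univ_succ, expo_zero, pow_one] at hw
    refine ⟨w / ∏ i : Fin m, y i ^ (b i), ?_⟩
    have h1 : ∏ i : Fin m, (d i.succ : RatFunc F) ^ (expo b i.succ) =
        (∏ i : Fin m, y i ^ (b i)) ^ ℓ := by
      rw [← Finset.prod_pow]
      refine Finset.prod_congr rfl fun i _ => ?_
      rw [expo_succ, hy i]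
      ring
    have h2 : ∏ i : Fin m, (d i.succ : RatFunc F) ^ (expo b i.succ) ≠ 0 :=
      Finset.prod_ne_zero_iff.2 fun i _ => pow_ne_zero _ (d _).ne_zero
    rw [div_pow, ← hw, ← h1, mul_div_cancel_right₀ _ h2]
  choose y' hy' using hall'
  have hy0 : ∀ i, y' i ≠ 0 := by
    intro i h
    have h1 := (d i).ne_zero
    rw [hy' i, h, zero_pow hℓ.ne_zero] at h1
    exact h1 rfl
  refine ⟨fun i => Units.mk0 (y' i) (hy0 i), ?_⟩
  ext i
  rw [powMonoidHom_apply, Pi.pow_apply, Units.val_pow_eq_pow_val, Units.val_mk0, hy' i]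

/-- valuations modulo `ℓ` -/
noncomputable def logHom' (F : Type*) [Field F] (ℓ n : ℕ) {J : Type*}
    (w : J → Valuation (RatFunc F) (WithZero (Multiplicative ℤ))) (idx : J → Fin n) :
    (Fin n → (RatFunc F)ˣ) →* Multiplicative (J → ZMod ℓ) where
  toFun t := Multiplicative.ofAdd fun j =>
    ((WithZero.log (w j ((t (idx j) : (RatFunc F)ˣ) : RatFunc F)) : ℤ) : ZMod ℓ)
  map_one' := by
    rw [← ofAdd_zero]
    congr 1
    funext i
    simp
  map_mul' s t := by
    rw [← ofAdd_add]
    congr 1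
    funext i
    rw [Pi.mul_apply, Units.val_mul, map_mul,
      WithZero.log_mul (valuation_ne_zero_unit _ _) (valuation_ne_zero_unit _ _), Pi.add_apply]
    push_cast
    rfl

omit [Finite F] in
theorem powGroup_le_ker' {n : ℕ} {J : Type*}
    (w : J → Valuation (RatFunc F) (WithZero (Multiplicative ℤ))) (idx : J → Fin n) :
    powGroup ℓ (RatFunc F) n ≤ (logHom' F ℓ n w idx).ker := by
  rintro _ ⟨z, rfl⟩
  rw [MonoidHom.mem_ker, powMonoidHom_apply, map_pow]
  apply Multiplicative.toAdd.injective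
  rw [toAdd_pow, toAdd_one]
  funext k
  rw [Pi.smul_apply, nsmul_eq_mul, ZMod.natCast_self, zero_mul]
  rfl

omit [Finite F] in
theorem finite_primes {N : F[X]} (hN : N ≠ 0) :
    {v : HeightOneSpectrum F[X] | N ∈ v.asIdeal}.Finite := by
  have h1 := Ideal.finite_factors (R := F[X]) (I := Ideal.span {N})
    (by rw [Ne, Ideal.zero_eq_bot, Ideal.span_singleton_eq_bot]; exact hN)
  refine h1.subset fun v hv => ?_
  exact Ideal.dvd_span_singleton.2 hv

/-- The Selmer group modulo `ℓ`-th powers has order dividing `ℓ ^ r`, where `r` is the sum of the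
numbers of primes dividing `P + c i`. -/
theorem relIndex_selmerGroup (hℓ : ℓ.Prime) (hℓF : ℓ ∣ Nat.card F - 1)
    (hc : Function.Injective c) (hb : ∀ i, ¬ ℓ ∣ b i) (hB : ℓ ∣ ∑ i, b i)
    (hP : ¬ ℓ ∣ P.natDegree) :
    (powGroup ℓ (RatFunc F) (m + 1)).relIndex
      (selmerGroup F ℓ (branch c (algebraMap F[X] (RatFunc F) P)) (expo b)) ∣
      ℓ ^ (∑ i : Fin m, {v : HeightOneSpectrum F[X] | P + C (c i) ∈ v.asIdeal}.ncard) := by
  classical
  have hPpos : 0 < P.natDegree := Nat.pos_of_ne_zero fun h => hP (h ▸ dvd_zero ℓ)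
  have hne : ∀ i, P + C (c i) ≠ 0 := by
    intro i h
    have h2 : (P + C (c i)).natDegree = P.natDegree := Polynomial.natDegree_add_C
    rw [h, Polynomial.natDegree_zero] at h2
    omega
  have hfact : Fact ℓ.Prime := ⟨hℓ⟩
  let J := Σ i : Fin m, {v : HeightOneSpectrum F[X] // P + C (c i) ∈ v.asIdeal}
  have hfin : ∀ i, Finite {v : HeightOneSpectrum F[X] // P + C (c i) ∈ v.asIdeal} :=
    fun i => (finite_primes (hne i)).to_subtype
  have hJ : Finite J := inferInstance
  have hcard : Nat.card J =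
      ∑ i : Fin m, {v : HeightOneSpectrum F[X] | P + C (c i) ∈ v.asIdeal}.ncard := by
    rw [Nat.card_sigma]
    rfl
  set S := selmerGroup F ℓ (branch c (algebraMap F[X] (RatFunc F) P)) (expo b) with hS
  let Φ := logHom' F ℓ (m + 1) (J := J) (fun j => j.2.1.valuation (RatFunc F))
    (fun j => j.1.succ)
  let Ψ := Φ.comp S.subtype
  have hker : Ψ.ker = (powGroup ℓ (RatFunc F) (m + 1)).subgroupOf S := by
    ext t
    rw [MonoidHom.mem_ker, Subgroup.mem_subgroupOf]
    constructor
    · intro h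
      refine mem_powGroup_of_mem_selmer hℓ hℓF hc hb hB hP t.2 fun i v hv => ?_
      have h1 := congrFun (congrArg Multiplicative.toAdd h) ⟨i, v, hv⟩
      have h2 : ((WithZero.log (v.valuation (RatFunc F)
        ((t.1 i.succ : (RatFunc F)ˣ) : RatFunc F)) : ℤ) : ZMod ℓ) = 0 := h1
      rwa [ZMod.intCast_zmod_eq_zero_iff_dvd] at h2
    · intro h
      exact powGroup_le_ker' _ _ h
  rw [Subgroup.relIndex, ← hker, Subgroup.index_ker]
  have hfin2 : Finite (Multiplicative (J → ZMod ℓ)) :=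
    Finite.of_equiv _ (Multiplicative.ofAdd (α := J → ZMod ℓ))
  have h3 : Nat.card (Multiplicative (J → ZMod ℓ)) = ℓ ^ Nat.card J := by
    rw [Nat.card_congr Multiplicative.toAdd, Nat.card_fun, Nat.card_zmod]
  rw [← hcard, ← h3]
  exact Subgroup.card_subgroup_dvd_card _

end

end MP72e2e6
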