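import Mathlib

/-!
# MP_72e2e6_nt: finite extensions of complete ultrametric fields
-/

namespace MP72e2e6

open Polynomial IntermediateField Module

universe u

section normNorm

variable {M : Type u} [NontriviallyNormedField M] [IsUltrametricDist M] [CompleteSpace M]
  {L : Type u}

theorem spectralNorm_pow_finrank [Field L] [Algebra M L] [FiniteDimensional M L] (y : L) :
    ‖Algebra.norm M y‖ = spectralNorm M L y ^ finrank M L := by
  have hint : IsIntegral M y := Algebra.IsIntegral.isIntegral y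
  have h1 := spectralNorm.spectralNorm_eq_norm_coeff_zero_rpow M L y
  have hpos : (minpoly M y).natDegree ≠ 0 := (minpoly.natDegree_pos hint).ne'
  have h2 : spectralNorm M L y ^ (minpoly M y).natDegree = ‖(minpoly M y).coeff 0‖ := by
    rw [h1, ← Real.rpow_natCast, ← Real.rpow_mul (norm_nonneg _), one_div,
      inv_mul_cancel₀ (by exact_mod_cast hpos), Real.rpow_one]
  have h3 : Algebra.norm M (AdjoinSimple.gen M y) =
      (-1) ^ (minpoly M y).natDegree * (minpoly M y).coeff 0 := by
    have h := Algebra.PowerBasis.norm_gen_eq_coeff_zero_minpoly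
      (IntermediateField.adjoin.powerBasis hint)
    rw [IntermediateField.adjoin.powerBasis_gen, IntermediateField.adjoin.powerBasis_dim,
      IntermediateField.minpoly_gen] at h
    exact h
  rw [Algebra.norm_eq_norm_adjoin M y, h3, norm_pow, norm_mul, norm_pow, norm_neg, norm_one,
    one_pow, one_mul, ← h2, ← pow_mul, ← IntermediateField.adjoin.finrank hint,
    Module.finrank_mul_finrank]

theorem norm_algebraNorm [NormedField L] [NormedAlgebra M L] [FiniteDimensional M L] (y : L) :
    ‖Algebra.norm M y‖ = ‖y‖ ^ finrank M L := by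
  rw [spectralNorm_pow_finrank, ← NormedAlgebra.norm_eq_spectralNorm M y]

end normNorm

section units

variable {L : Type u} [NontriviallyNormedField L] [IsUltrametricDist L] [CompleteSpace L]

omit [CompleteSpace L] in
theorem norm_eq_one_of_sub {x y : L} (hy : ‖y‖ = 1) (h : ‖x - y‖ < 1) : ‖x‖ = 1 := by
  have h1 : x = y + (x - y) := by ring
  rw [h1, IsUltrametricDist.norm_add_eq_max_of_norm_ne_norm (by rw [hy]; exact h.ne'), hy,
    max_eq_left h.le]

/-- In a complete ultrametric field of characteristic `p`, principal units are `N`-th powers for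
every `N` prime to `p`. -/
theorem exists_pow_eq_of_principal (p : ℕ) [Fact p.Prime] [CharP L p] {N : ℕ}
    (hN : N.Coprime p) {y : L} (hy : ‖y - 1‖ < 1) : ∃ z : L, z ^ N = y ∧ ‖z - 1‖ < 1 := by
  have hp : p.Prime := Fact.out
  rcases Nat.eq_zero_or_pos N with h0 | hNpos
  · subst h0
    rw [Nat.coprime_zero_left] at hN
    exact absurd hN hp.one_lt.ne'
  -- a power of `p` which is `1` modulo `N`
  obtain ⟨k, hk0, hk⟩ : ∃ k, 0 < k ∧ N ∣ p ^ k - 1 := by
    refine ⟨Nat.totient N, Nat.totient_pos.2 hNpos, ?_⟩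
    have h := Nat.ModEq.pow_totient hN.symm
    exact (Nat.modEq_iff_dvd' (Nat.one_le_pow _ _ hp.pos)).1 h.symm
  obtain ⟨r, hr⟩ := hk
  set Q := p ^ k with hQ
  have hQ2 : 2 ≤ Q := by
    calc 2 ≤ p := hp.two_le
      _ = p ^ 1 := (pow_one p).symm
      _ ≤ p ^ k := Nat.pow_le_pow_right hp.pos hk0
  have hy1 : ‖y‖ = 1 := norm_eq_one_of_sub norm_one hy
  have hy0 : y ≠ 0 := by
    intro h
    rw [h, norm_zero] at hy1
    exact zero_ne_one hy1
  -- Frobenius
  have hfrob : ∀ (x : L) (j : ℕ), ‖x ^ Q ^ j - 1‖ = ‖x - 1‖ ^ Q ^ j := by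
    intro x j
    have : ExpChar L p := ExpChar.prime hp
    have h1 : Q ^ j = p ^ (k * j) := by rw [hQ, pow_mul]
    rw [← norm_pow, h1, sub_pow_expChar_pow, one_pow]
  have hle : ∀ j : ℕ, j ≤ Q ^ j := fun j => (Nat.lt_pow_self (by omega)).le
  set x := (y⁻¹) ^ r with hx
  have hx1 : ‖x - 1‖ < 1 := by
    have h1 : ‖y⁻¹ - 1‖ < 1 := by
      have : y⁻¹ - 1 = -(y⁻¹ * (y - 1)) := by field_simp; ring
      rw [this, norm_neg, norm_mul, norm_inv, hy1]
      simpa using hy
    have h2 : ∀ m : ℕ, ‖(y⁻¹) ^ m - 1‖ < 1 := by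
      intro m
      induction m with
      | zero => simp
      | succ m ih =>
        have h3 : (y⁻¹) ^ (m + 1) - 1 = (y⁻¹) ^ m * (y⁻¹ - 1) + ((y⁻¹) ^ m - 1) := by ring
        rw [h3]
        refine lt_of_le_of_lt (IsUltrametricDist.norm_add_le_max _ _) (max_lt ?_ ih)
        rw [norm_mul, norm_pow, norm_inv, hy1]
        simpa using h1
    exact h2 r
  have hxn : ‖x‖ = 1 := norm_eq_one_of_sub norm_one hx1
  -- the sequence
  let z : ℕ → L := fun j => ∏ i ∈ Finset.range j, x ^ Q ^ i
  have hz1 : ∀ j, ‖z j‖ = 1 := by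
    intro j
    simp [z, hxn]
  have hzN : ∀ j, z j ^ N * y ^ Q ^ j = y := by
    intro j
    induction j with
    | zero => simp [z]
    | succ j ih =>
      have h1 : z (j + 1) = z j * x ^ Q ^ j := Finset.prod_range_succ _ _
      have h2 : Q ^ (j + 1) = Q ^ j + Q ^ j * (N * r) := by
        rw [← hr]
        have : Q ^ j * (Q - 1) = Q ^ j * Q - Q ^ j := by rw [Nat.mul_sub, mul_one]
        rw [this, pow_succ]
        have h3 : Q ^ j ≤ Q ^ j * Q := Nat.le_mul_of_pos_right _ (by omega)
        omega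
      have h4 : (x ^ Q ^ j) ^ N * y ^ (Q ^ j * (N * r)) = 1 := by
        rw [hx, ← pow_mul, ← pow_mul, show r * (Q ^ j * N) = Q ^ j * (N * r) by ring, ← mul_pow,
          inv_mul_cancel₀ hy0, one_pow]
      rw [h1, mul_pow, h2, pow_add]
      calc z j ^ N * (x ^ Q ^ j) ^ N * (y ^ Q ^ j * y ^ (Q ^ j * (N * r)))
          = (z j ^ N * y ^ Q ^ j) * ((x ^ Q ^ j) ^ N * y ^ (Q ^ j * (N * r))) := by ring
        _ = y := by rw [ih, h4, mul_one]
  have hstep : ∀ j, dist (z j) (z (j + 1)) ≤ 1 * ‖x - 1‖ ^ j := by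
    intro j
    have h1 : z (j + 1) = z j * x ^ Q ^ j := Finset.prod_range_succ _ _
    rw [dist_comm, dist_eq_norm, h1]
    have h2 : z j * x ^ Q ^ j - z j = z j * (x ^ Q ^ j - 1) := by ring
    rw [h2, norm_mul, hz1, one_mul, one_mul, hfrob]
    exact pow_le_pow_of_le_one (norm_nonneg _) hx1.le (hle j)
  have hcau : CauchySeq z := cauchySeq_of_le_geometric _ _ hx1 hstep
  obtain ⟨w, hw⟩ := cauchySeq_tendsto_of_complete hcau
  refine ⟨w, ?_, ?_⟩
  · have h1 : Filter.Tendsto (fun j => z j ^ N * y ^ Q ^ j) Filter.atTop (nhds (w ^ N * 1)) := by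
      refine (hw.pow N).mul ?_
      rw [tendsto_iff_norm_sub_tendsto_zero]
      have h2 : Filter.Tendsto (fun j : ℕ => ‖y - 1‖ ^ j) Filter.atTop (nhds 0) :=
        tendsto_pow_atTop_nhds_zero_of_lt_one (norm_nonneg _) hy
      refine squeeze_zero (fun _ => norm_nonneg _) (fun j => ?_) h2
      rw [hfrob]
      exact pow_le_pow_of_le_one (norm_nonneg _) hy.le (hle j)
    have h3 : Filter.Tendsto (fun j => z j ^ N * y ^ Q ^ j) Filter.atTop (nhds y) := by
      simp only [hzN]
      exact tendsto_const_nhds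
    rw [mul_one] at h1
    exact tendsto_nhds_unique h1 h3
  · have h1 : ∀ j, ‖z j - 1‖ ≤ ‖x - 1‖ := by
      intro j
      induction j with
      | zero => simp [z]
      | succ j ih =>
        have h1 : z (j + 1) = z j * x ^ Q ^ j := Finset.prod_range_succ _ _
        have h2 : z j * x ^ Q ^ j - 1 = z j * (x ^ Q ^ j - 1) + (z j - 1) := by ring
        rw [h1, h2]
        refine le_trans (IsUltrametricDist.norm_add_le_max _ _) (max_le ?_ ih)
        rw [norm_mul, hz1, one_mul, hfrob]
        exact pow_le_of_le_one (norm_nonneg _) hx1.le (by positivity)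
    have h2 : Filter.Tendsto (fun j => ‖z j - 1‖) Filter.atTop (nhds ‖w - 1‖) :=
      (hw.sub_const 1).norm
    exact lt_of_le_of_lt (le_of_tendsto h2 (Filter.Eventually.of_forall h1)) hx1

end units

section residue

variable {F : Type*} [Field F] [Finite F]

/-- elements of `F` have norm one -/
theorem norm_algebraMap_finite {M : Type*} [NormedField M] [Algebra F M] {α : F} (hα : α ≠ 0) :
    ‖algebraMap F M α‖ = 1 := by
  have := Fintype.ofFinite F
  have h1 : α ^ (Fintype.card F - 1) = 1 := FiniteField.pow_card_sub_one_eq_one α hα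
  have h2 : ‖algebraMap F M α‖ ^ (Fintype.card F - 1) = 1 := by
    rw [← norm_pow, ← map_pow, h1, map_one, norm_one]
  have h3 : Fintype.card F - 1 ≠ 0 := by
    have := Fintype.one_lt_card (α := F)
    omega
  exact (pow_eq_one_iff_of_nonneg (norm_nonneg _) h3).1 h2

theorem norm_algebraMap_finite_le {M : Type*} [NormedField M] [Algebra F M] (α : F) :
    ‖algebraMap F M α‖ ≤ 1 := by
  by_cases h : α = 0
  · simp [h]
  · exact (norm_algebraMap_finite h).le

/-- elements `x` with `x ^ Q = x` -/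
theorem norm_eq_one_of_pow_eq {L : Type*} [NormedField L] {x : L} {Q : ℕ} (hQ : 1 < Q)
    (hx : x ^ Q = x) (h0 : x ≠ 0) : ‖x‖ = 1 := by
  have h1 : x ^ (Q - 1) = 1 := by
    have h2 : x * x ^ (Q - 1) = x * 1 := by
      rw [← pow_succ', Nat.sub_add_cancel hQ.le, hx, mul_one]
    exact mul_left_cancel₀ h0 h2
  have h2 : ‖x‖ ^ (Q - 1) = 1 := by rw [← norm_pow, h1, norm_one]
  exact (pow_eq_one_iff_of_nonneg (norm_nonneg _) (by omega)).1 h2

variable {M : Type u} [NontriviallyNormedField M] [IsUltrametricDist M] [CompleteSpace M]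
  [Algebra F M]
  {L : Type u} [NontriviallyNormedField L] [IsUltrametricDist L] [NormedAlgebra M L]
  [FiniteDimensional M L] [Algebra F L] [IsScalarTower F M L]

/-- the residue field of `L` is algebraic over `F` -/
theorem exists_pow_card_sub_lt (hres : ∀ y : M, ‖y‖ ≤ 1 → ∃ α : F, ‖y - algebraMap F M α‖ < 1)
    (p r : ℕ) [Fact p.Prime] [CharP F p] (hcard : Nat.card F = p ^ r) (x : L) (hx : ‖x‖ ≤ 1) :
    ∃ f, 0 < f ∧ ‖x ^ (Nat.card F) ^ f - x‖ < 1 := by
  classical
  have hp : p.Prime := Fact.out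
  have hint : IsIntegral M x := Algebra.IsIntegral.isIntegral x
  have hmon := minpoly.monic hint
  have hcoeff : ∀ n, ‖(minpoly M x).coeff n‖ ≤ 1 := by
    rw [← spectralValue_le_one_iff hmon]
    have h := NormedAlgebra.norm_eq_spectralNorm M x
    rw [h] at hx
    exact hx
  choose! A hA using hres
  -- the reduction of the minimal polynomial
  set d := (minpoly M x).natDegree with hd
  let φ : F[X] := X ^ d + ∑ i ∈ Finset.range d, C (A ((minpoly M x).coeff i)) * X ^ i
  have hdegs : (∑ i ∈ Finset.range d, C (A ((minpoly M x).coeff i)) * X ^ i : F[X]).degree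
      < (d : WithBot ℕ) := by
    rw [← Polynomial.mem_degreeLT]
    refine Submodule.sum_mem _ fun i hi => ?_
    rw [Polynomial.mem_degreeLT]
    exact (Polynomial.degree_C_mul_X_pow_le _ _).trans_lt
      (WithBot.coe_lt_coe.2 (Finset.mem_range.1 hi))
  have hφmon : φ.Monic := Polynomial.monic_X_pow_add hdegs
  have hφx : ‖aeval x φ‖ < 1 := by
    have h0 : aeval x (minpoly M x) = 0 := minpoly.aeval M x
    rw [Polynomial.aeval_eq_sum_range, ← hd, Finset.sum_range_succ] at h0
    have hlead : (minpoly M x).coeff d = 1 := hmon.coeff_natDegree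
    rw [hlead, one_smul] at h0
    have h1 : aeval x φ = ∑ i ∈ Finset.range d,
        algebraMap M L (algebraMap F M (A ((minpoly M x).coeff i)) - (minpoly M x).coeff i)
          * x ^ i := by
      have h2 : x ^ d = -∑ i ∈ Finset.range d, (minpoly M x).coeff i • x ^ i := by
        linear_combination h0
      simp only [φ, map_add, map_pow, aeval_X, map_sum, map_mul, aeval_C]
      rw [h2, ← Finset.sum_neg_distrib, ← Finset.sum_add_distrib]
      refine Finset.sum_congr rfl fun i _ => ?_
      rw [Algebra.smul_def, map_sub, ← IsScalarTower.algebraMap_apply]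
      ring
    rw [h1]
    rcases Nat.eq_zero_or_pos d with hd0 | hdpos
    · rw [hd0]; simp
    · obtain ⟨i, hi, hle⟩ := IsUltrametricDist.exists_norm_finsetSum_le_of_nonempty
        (Finset.nonempty_range_iff.2 hdpos.ne') (fun i =>
          algebraMap M L (algebraMap F M (A ((minpoly M x).coeff i)) - (minpoly M x).coeff i)
          * x ^ i)
      refine lt_of_le_of_lt hle ?_
      rw [norm_mul, norm_pow, norm_algebraMap', norm_sub_rev]
      calc ‖(minpoly M x).coeff i - algebraMap F M (A ((minpoly M x).coeff i))‖ * ‖x‖ ^ i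
          ≤ ‖(minpoly M x).coeff i - algebraMap F M (A ((minpoly M x).coeff i))‖ * 1 := by
            gcongr
            exact pow_le_one₀ (norm_nonneg _) hx
        _ < 1 := by rw [mul_one]; exact hA _ (hcoeff i)
  -- pigeonhole in `F[X] / φ`
  have hfin : Finite (AdjoinRoot φ) := by
    have : Module.Finite F (AdjoinRoot φ) := (AdjoinRoot.powerBasis' hφmon).finite
    exact Module.finite_of_finite F
  obtain ⟨i, j, hij, heq⟩ := Finite.exists_ne_map_eq_of_infinite
    (fun k : ℕ => AdjoinRoot.mk φ (X ^ (Nat.card F) ^ k))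
  wlog hlt : i < j generalizing i j
  · exact this j i hij.symm heq.symm (lt_of_le_of_ne (not_lt.1 hlt) hij.symm)
  have hdvd : φ ∣ X ^ (Nat.card F) ^ i - X ^ (Nat.card F) ^ j := AdjoinRoot.mk_eq_mk.1 heq
  have hFL : Function.Injective (algebraMap F L) := (algebraMap F L).injective
  have : CharP L p := charP_of_injective_algebraMap hFL p
  have : ExpChar L p := ExpChar.prime hp
  refine ⟨j - i, by omega, ?_⟩
  have h3 : ‖x ^ (Nat.card F) ^ (j - i) - x‖ ^ (Nat.card F) ^ i < 1 := by
    obtain ⟨ψ, hψ⟩ := hdvd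
    have h4 : x ^ (Nat.card F) ^ i - x ^ (Nat.card F) ^ j = aeval x φ * aeval x ψ := by
      rw [← map_mul, ← hψ]
      simp
    have h5 : (Nat.card F) ^ i = p ^ (r * i) := by rw [hcard, pow_mul]
    have h6 : (x ^ (Nat.card F) ^ (j - i) - x) ^ (Nat.card F) ^ i =
        -(aeval x φ * aeval x ψ) := by
      rw [← h4, h5, sub_pow_expChar_pow, ← pow_mul, ← h5, ← pow_add]
      rw [show j - i + i = j by omega]
      ring
    rw [← norm_pow, h6, norm_neg, norm_mul]
    have h7 : ‖aeval x ψ‖ ≤ 1 := by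
      rw [Polynomial.aeval_eq_sum_range]
      refine IsUltrametricDist.norm_sum_le_of_forall_le_of_nonneg zero_le_one fun i _ => ?_
      rw [Algebra.smul_def, norm_mul, norm_pow]
      exact mul_le_one₀ (norm_algebraMap_finite_le _) (by positivity)
        (pow_le_one₀ (norm_nonneg _) hx)
    calc ‖aeval x φ‖ * ‖aeval x ψ‖ ≤ ‖aeval x φ‖ * 1 := by gcongr
      _ < 1 := by rw [mul_one]; exact hφx
  by_contra hcon
  exact absurd h3 (not_lt.2 (one_le_pow₀ (not_lt.1 hcon)))

/-- Teichmueller representatives -/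
theorem exists_teichmueller
    (hres : ∀ y : M, ‖y‖ ≤ 1 → ∃ α : F, ‖y - algebraMap F M α‖ < 1)
    (x : L) (hx : ‖x‖ ≤ 1) :
    ∃ (τ : L) (f : ℕ), 0 < f ∧ τ ^ (Nat.card F) ^ f = τ ∧ ‖x - τ‖ < 1 := by
  classical
  have := Fintype.ofFinite F
  obtain ⟨p, hpc⟩ := CharP.exists F
  obtain ⟨r, hp, hr⟩ := FiniteField.card F p
  have hpf : Fact p.Prime := ⟨hp⟩
  have hcard : Nat.card F = p ^ (r : ℕ) := by rw [Nat.card_eq_fintype_card, hr]
  have hFL : Function.Injective (algebraMap F L) := (algebraMap F L).injective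
  have : CharP L p := charP_of_injective_algebraMap hFL p
  have : CompleteSpace L := FiniteDimensional.complete M L
  have hcard1 : 1 < Nat.card F := Finite.one_lt_card
  obtain ⟨f, hf, hlt⟩ := exists_pow_card_sub_lt hres p r hcard x hx
  set Q := (Nat.card F) ^ f with hQ
  have hQ1 : 1 < Q := Nat.one_lt_pow hf.ne' hcard1
  by_cases hx1 : ‖x‖ < 1
  · exact ⟨0, f, hf, by rw [zero_pow (by omega)], by simpa using hx1⟩
  have hx1' : ‖x‖ = 1 := le_antisymm hx (not_lt.1 hx1)
  have hx0 : x ≠ 0 := by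
    intro h
    rw [h, norm_zero] at hx1'
    exact zero_ne_one hx1'
  have h1 : ‖x ^ (Q - 1) - 1‖ < 1 := by
    have h2 : x ^ Q - x = x * (x ^ (Q - 1) - 1) := by
      rw [mul_sub, ← pow_succ', Nat.sub_add_cancel hQ1.le, mul_one]
    rw [h2, norm_mul, hx1', one_mul] at hlt
    exact hlt
  have hcop : (Q - 1).Coprime p := by
    have h3 : p ∣ Q := by
      rw [hQ, hcard]
      exact dvd_pow (dvd_pow_self p r.ne_zero) hf.ne'
    have h4 : (Q - 1).Coprime Q := by
      have := Nat.coprime_self_sub_right (m := 1) (n := Q) hQ1.le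
      rw [Nat.coprime_comm]
      have h5 := (Nat.coprime_self_sub_right (m := 1) (n := Q) hQ1.le)
      simpa using h5
    exact Nat.Coprime.coprime_dvd_right h3 h4
  obtain ⟨z, hz, hz1⟩ := exists_pow_eq_of_principal p hcop h1
  have hzn : ‖z‖ = 1 := norm_eq_one_of_sub norm_one hz1
  have hz0 : z ≠ 0 := by
    intro h
    rw [h, norm_zero] at hzn
    exact zero_ne_one hzn
  refine ⟨x / z, f, hf, ?_, ?_⟩
  · have h5 : (x / z) ^ (Q - 1) = 1 := by
      rw [div_pow, hz, div_self (pow_ne_zero _ hx0)]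
    calc (x / z) ^ Q = (x / z) ^ (Q - 1 + 1) := by rw [Nat.sub_add_cancel hQ1.le]
      _ = x / z := by rw [pow_succ, h5, one_mul]
  · have h6 : x - x / z = x * z⁻¹ * (z - 1) := by field_simp
    rw [h6, norm_mul, norm_mul, norm_inv, hx1', hzn]
    simpa using hz1

end residue

end MP72e2e6
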