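import Pool.Agent.Lib.MP_72e2e6_nt.Alg
import Pool.Agent.Lib.MP_72e2e6_nt.Val

/-!
# MP_72e2e6_nt: the local image at finite places
-/

namespace MP72e2e6

open Polynomial IntermediateField Module

universe u

theorem exists_norm_eq_pow {L : Type*} [NormedField L] {ℓ e : ℕ}
    (he : Nat.Coprime e ℓ) {x w : L} (hx : x ≠ 0) (h : ‖x‖ ^ e = ‖w‖ ^ ℓ) :
    ∃ z : L, ‖x‖ = ‖z‖ ^ ℓ := by
  have h2 := Nat.gcd_eq_gcd_ab e ℓ
  rw [he] at h2
  refine ⟨w ^ (Nat.gcdA e ℓ) * x ^ (Nat.gcdB e ℓ), ?_⟩
  have hx0 : ‖x‖ ≠ 0 := norm_ne_zero_iff.2 hx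
  rw [norm_mul, norm_zpow, norm_zpow, mul_pow, ← zpow_natCast, ← zpow_natCast, ← zpow_mul,
    ← zpow_mul, mul_comm (Nat.gcdA e ℓ) (ℓ : ℤ), zpow_mul, zpow_natCast, ← h, ← zpow_natCast,
    ← zpow_mul, ← zpow_add₀ hx0, mul_comm (Nat.gcdB e ℓ) (ℓ : ℤ), ← h2]
  simp

/-- the product relation -/
theorem exists_prod_eq_pow {K : Type*} [Field K] {n ℓ : ℕ} {a : Fin n → K} {b : Fin n → ℕ}
    {M : Type u} [Field M] [Algebra K M] {d : Fin n → Mˣ} (hd : d ∈ localImage ℓ a b M) :
    ∃ z : M, ∏ i, (d i : M) ^ (b i) = z ^ ℓ := by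
  let φ : (Fin n → Mˣ) →* Mˣ :=
    { toFun := fun d => ∏ i, (d i) ^ (b i)
      map_one' := by simp
      map_mul' := by intro x y; simp [mul_pow, Finset.prod_mul_distrib] }
  let H : Subgroup (Fin n → Mˣ) := (powMonoidHom ℓ : Mˣ →* Mˣ).range.comap φ
  have hle : localImage ℓ a b M ≤ H := by
    refine localImage_le a b H (fun z => ⟨φ z, ?_⟩) ?_
    · rw [powMonoidHom_apply, map_pow]
    · intro L _ _ _ x w d hx hd
      have h1 : ∏ i, (d i : M) ^ (b i) = (Algebra.norm M w) ^ ℓ := by
        rw [← map_pow, ← hx, map_prod]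
        refine Finset.prod_congr rfl fun k _ => ?_
        rw [hd k, map_pow]
      have h2 : ∏ i, (d i : M) ^ (b i) ≠ 0 :=
        Finset.prod_ne_zero_iff.2 fun k _ => pow_ne_zero _ (d k).ne_zero
      rcases Nat.eq_zero_or_pos ℓ with h0 | hpos
      · refine ⟨1, ?_⟩
        ext
        simp only [φ, h0, pow_zero] at h1 ⊢
        simp [h1]
      · have h3 : Algebra.norm M w ≠ 0 := by
          intro h
          rw [h1, h, zero_pow hpos.ne'] at h2
          exact h2 rfl
        refine ⟨Units.mk0 _ h3, ?_⟩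
        ext
        simp [φ, h1]
  obtain ⟨z, hz⟩ := hle hd
  refine ⟨z, ?_⟩
  have h1 := congrArg (fun u : Mˣ => (u : M)) hz
  simp only [powMonoidHom_apply, Units.val_pow_eq_pow_val, φ] at h1
  rw [h1]
  simp

section finite

variable {M : Type u} [NontriviallyNormedField M] [IsUltrametricDist M] [CompleteSpace M]

/-- a branch point `a i0` which stays away from the others -/
theorem exists_val_eq_pow (v : Valuation M (WithZero (Multiplicative ℤ)))
    (hv : ∀ x y : M, ‖x‖ ≤ ‖y‖ ↔ v x ≤ v y) {n ℓ : ℕ} (hℓ : ℓ ≠ 0) {a : Fin n → M}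
    {b : Fin n → ℕ} (hB : Nat.Coprime (∑ i, b i) ℓ) (ha : ∀ i, ‖a i‖ ≤ 1) (i0 : Fin n)
    (hb : Nat.Coprime (b i0) ℓ) (hi0 : ∀ k, k ≠ i0 → ‖a i0 - a k‖ = 1) {d : Fin n → Mˣ}
    (hd : d ∈ localImage ℓ a b M) :
    ∃ y : Mˣ, v (d i0) = v y ^ ℓ := by
  classical
  let H : Subgroup (Fin n → Mˣ) :=
    { carrier := {d | ∃ y : Mˣ, v (d i0) = v y ^ ℓ}
      mul_mem' := by
        rintro d e ⟨y, hy⟩ ⟨z, hz⟩
        refine ⟨y * z, ?_⟩
        simp only [Pi.mul_apply, Units.val_mul, map_mul, hy, hz, mul_pow]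
      one_mem' := ⟨1, by simp⟩
      inv_mem' := by
        rintro d ⟨y, hy⟩
        refine ⟨y⁻¹, ?_⟩
        simp only [Pi.inv_apply, Units.val_inv_eq_inv_val, map_inv₀, hy, inv_pow] }
  have hle : localImage ℓ a b M ≤ H := by
    refine localImage_le a b H (fun z => ⟨z i0, ?_⟩) ?_
    · simp only [Pi.pow_apply, Units.val_pow_eq_pow_val, map_pow]
    · intro L _ _ _ x w d hx hd
      let : NontriviallyNormedField L := spectralNorm.nontriviallyNormedField M L
      let : NormedAlgebra M L := spectralNorm.normedAlgebra M L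
      have : IsUltrametricDist L :=
        IsUltrametricDist.isUltrametricDist_of_isNonarchimedean_norm
          (isNonarchimedean_spectralNorm (K := M) (L := L))
      simp only [Algebra.algebraMap_self, RingHom.id_apply] at hx hd
      have hxa : ∀ i, x - algebraMap M L (a i) ≠ 0 := by
        intro i h
        have h1 := (d i).ne_zero
        rw [hd i, h, Algebra.norm_zero] at h1
        exact h1 rfl
      have key : ∃ z : L, ‖x - algebraMap M L (a i0)‖ = ‖z‖ ^ ℓ := by
        have hprod : ∏ i, ‖x - algebraMap M L (a i)‖ ^ (b i) = ‖w‖ ^ ℓ := by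
          rw [← norm_pow, ← hx, norm_prod]
          refine Finset.prod_congr rfl fun i _ => ?_
          rw [norm_pow]
        by_cases hx1 : 1 < ‖x‖
        · have h1 : ∀ i, ‖x - algebraMap M L (a i)‖ = ‖x‖ := by
            intro i
            rw [sub_eq_add_neg, IsUltrametricDist.norm_add_eq_max_of_norm_ne_norm]
            · rw [norm_neg, norm_algebraMap', max_eq_left]
              exact (ha i).trans hx1.le
            · rw [norm_neg, norm_algebraMap']
              exact ((ha i).trans_lt hx1).ne'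
          simp only [h1, Finset.prod_pow_eq_pow_sum] at hprod
          rw [h1]
          refine exists_norm_eq_pow hB ?_ hprod
          intro h
          rw [h, norm_zero] at hx1
          exact absurd hx1 (by norm_num)
        · have hx1' : ‖x‖ ≤ 1 := not_lt.1 hx1
          by_cases hlt : ‖x - algebraMap M L (a i0)‖ < 1
          · have h1 : ∀ k, k ≠ i0 → ‖x - algebraMap M L (a k)‖ = 1 := by
              intro k hk
              have h2 : x - algebraMap M L (a k) =
                  (x - algebraMap M L (a i0)) + algebraMap M L (a i0 - a k) := by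
                rw [map_sub]; ring
              rw [h2, IsUltrametricDist.norm_add_eq_max_of_norm_ne_norm]
              · rw [norm_algebraMap', hi0 k hk, max_eq_right hlt.le]
              · rw [norm_algebraMap', hi0 k hk]
                exact hlt.ne
            have h3 : ‖x - algebraMap M L (a i0)‖ ^ (b i0) = ‖w‖ ^ ℓ := by
              rw [← hprod, ← Finset.mul_prod_erase _ _ (Finset.mem_univ i0),
                Finset.prod_eq_one, mul_one]
              intro k hk
              rw [h1 k (Finset.ne_of_mem_erase hk), one_pow]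
            exact exists_norm_eq_pow hb (hxa i0) h3
          · refine ⟨1, ?_⟩
            rw [norm_one, one_pow]
            refine le_antisymm ?_ (not_lt.1 hlt)
            rw [sub_eq_add_neg]
            refine le_trans (IsUltrametricDist.norm_add_le_max _ _) (max_le hx1' ?_)
            rw [norm_neg, norm_algebraMap']
            exact ha i0
      obtain ⟨z, hz⟩ := key
      have hz0 : z ≠ 0 := by
        intro h
        rw [h, norm_zero, zero_pow hℓ, norm_eq_zero] at hz
        exact hxa i0 hz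
      have hNz : Algebra.norm M z ≠ 0 := Algebra.norm_ne_zero_iff.2 hz0
      refine ⟨Units.mk0 _ hNz, ?_⟩
      have h1 : ‖(d i0 : M)‖ = ‖(Algebra.norm M z) ^ ℓ‖ := by
        rw [hd i0, norm_algebraNorm, hz, norm_pow, norm_algebraNorm, ← pow_mul, ← pow_mul,
          mul_comm]
      rw [Units.val_mk0, ← map_pow]
      exact le_antisymm ((hv _ _).1 h1.le) ((hv _ _).1 h1.ge)
  exact hle hd

end finite

end MP72e2e6
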