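import Pool.Agent.Lib.MP_72e2e6_nt.Infty
import Pool.Agent.Lib.MP_72e2e6_nt.Finp

/-!
# MP_72e2e6_nt: the local results for fields with a complete discrete valuation
-/

namespace MP72e2e6

open Polynomial IntermediateField Module

universe u

section

variable {M : Type u} [Field M] [Valued M (WithZero (Multiplicative ℤ))] [CompleteSpace M]

omit [CompleteSpace M] in
theorem nonempty_rankOne (hnt : ∃ x : M, Valued.v x ≠ 0 ∧ Valued.v x ≠ 1) :
    Nonempty (Valuation.RankOne (Valued.v : Valuation M (WithZero (Multiplicative ℤ)))) := by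
  have h1 : (Valued.v : Valuation M (WithZero (Multiplicative ℤ))).IsNontrivial := ⟨hnt⟩
  rw [Valuation.nonempty_rankOne_iff_mulArchimedean]
  exact MulArchimedean.comap
    (MonoidWithZeroHom.ValueGroup₀.embedding
      (f := MonoidWithZeroHom.ofClass
        (Valued.v : Valuation M (WithZero (Multiplicative ℤ))))).toMonoidHom
    MonoidWithZeroHom.ValueGroup₀.embedding_strictMono

open scoped Valued in
theorem log_dvd_of_mem_localImage (hnt : ∃ x : M, Valued.v x ≠ 0 ∧ Valued.v x ≠ 1) {n ℓ : ℕ}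
    (hℓ : ℓ ≠ 0) {a : Fin n → M}
    {b : Fin n → ℕ} (hB : Nat.Coprime (∑ i, b i) ℓ) (ha : ∀ i, Valued.v (a i) ≤ 1) (i0 : Fin n)
    (hb : Nat.Coprime (b i0) ℓ) (hi0 : ∀ k, k ≠ i0 → Valued.v (a i0 - a k) = 1)
    {d : Fin n → Mˣ} (hd : d ∈ localImage ℓ a b M) :
    (ℓ : ℤ) ∣ WithZero.log (Valued.v (d i0 : M)) := by
  obtain ⟨hr⟩ := nonempty_rankOne hnt
  let : NontriviallyNormedField M :=
    Valued.toNontriviallyNormedField M (WithZero (Multiplicative ℤ))
  have hv : ∀ x y : M, ‖x‖ ≤ ‖y‖ ↔ Valued.v x ≤ Valued.v y :=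
    fun x y => Valued.toNormedField.norm_le_iff
  have hone : ∀ x : M, ‖x‖ = 1 ↔ Valued.v x = 1 := by
    intro x
    have h1 := hv x 1
    have h2 := hv 1 x
    rw [norm_one, map_one] at h1 h2
    exact ⟨fun h => le_antisymm (h1.1 h.le) (h2.1 h.ge),
      fun h => le_antisymm (h1.2 h.le) (h2.2 h.ge)⟩
  obtain ⟨y, hy⟩ := exists_val_eq_pow Valued.v hv hℓ hB
    (fun i => by have := hv (a i) 1; rw [norm_one, map_one] at this; exact this.2 (ha i)) i0 hb
    (fun k hk => (hone _).2 (hi0 k hk)) hd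
  rw [hy, WithZero.log_pow, nsmul_eq_mul]
  exact dvd_mul_right _ _

open scoped Valued in
theorem localImage_le_torsionGroup' {F : Type*} [Field F] [Finite F] [Algebra F M]
    (hnt : ∃ x : M, Valued.v x ≠ 0 ∧ Valued.v x ≠ 1)
    (hres : ∀ y : M, Valued.v y ≤ 1 → ∃ α : F, Valued.v (y - algebraMap F M α) < 1)
    {ℓ : ℕ} (hℓ : ℓ.Prime) (hℓF : ℓ ∣ Nat.card F - 1)
    {m : ℕ} {c : Fin m → F} (hc : Function.Injective c) {b : Fin m → ℕ}
    (hb : ∀ i, Nat.Coprime (b i) ℓ) (hB : ℓ ∣ ∑ i, b i) {P : M}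
    (hP1 : 1 < Valued.v P) (hP : ¬ (ℓ : ℤ) ∣ WithZero.log (Valued.v P)) :
    localImage ℓ (branch c P) (expo b) M ≤ torsionGroup ℓ (branch c P) (expo b) := by
  classical
  obtain ⟨hr⟩ := nonempty_rankOne hnt
  let : NontriviallyNormedField M :=
    Valued.toNontriviallyNormedField M (WithZero (Multiplicative ℤ))
  have hv : ∀ x y : M, ‖x‖ ≤ ‖y‖ ↔ Valued.v x ≤ Valued.v y :=
    fun x y => Valued.toNormedField.norm_le_iff
  have hlt : ∀ x : M, ‖x‖ < 1 ↔ Valued.v x < 1 := by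
    intro x
    have h2 := hv 1 x
    rw [norm_one, map_one] at h2
    rw [← not_le, h2, not_le]
  have hgt : ∀ x : M, 1 < ‖x‖ ↔ 1 < Valued.v x := by
    intro x
    have h2 := hv x 1
    rw [norm_one, map_one] at h2
    rw [← not_le, h2, not_le]
  have hle : ∀ x : M, ‖x‖ ≤ 1 ↔ Valued.v x ≤ 1 := by
    intro x
    have h2 := hv x 1
    rwa [norm_one, map_one] at h2
  have := Fintype.ofFinite F
  obtain ⟨p, hpc⟩ := CharP.exists F
  obtain ⟨r, hp, hr⟩ := FiniteField.card F p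
  have hpf : Fact p.Prime := ⟨hp⟩
  have hcard : Nat.card F = p ^ (r : ℕ) := by rw [Nat.card_eq_fintype_card, hr]
  have hcard1 : 1 < Nat.card F := Finite.one_lt_card
  have hℓp : ℓ.Coprime p := by
    rw [Nat.coprime_primes hℓ hp]
    rintro rfl
    have h1 : ℓ ∣ Nat.card F := by
      rw [hcard]
      exact dvd_pow_self _ r.ne_zero
    have h2 : ℓ ∣ 1 := by
      have h3 := (Nat.dvd_sub h1 hℓF)
      rwa [Nat.sub_sub_self hcard1.le] at h3
    exact hℓ.one_lt.ne' (Nat.dvd_one.1 h2)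
  -- a primitive root of unity
  obtain ⟨ζ, hζ⟩ : ∃ ζ : F, IsPrimitiveRoot ζ ℓ := by
    obtain ⟨g, hg⟩ := IsCyclic.exists_generator (α := Fˣ)
    have hord : orderOf g = Nat.card F - 1 := by
      rw [orderOf_eq_card_of_forall_mem_zpowers hg, Nat.card_units]
    obtain ⟨q, hq⟩ := hℓF
    have hprim : IsPrimitiveRoot g (Nat.card F - 1) := hord ▸ IsPrimitiveRoot.orderOf g
    have h1 : IsPrimitiveRoot (g ^ q) ℓ :=
      hprim.pow (by omega) (by rw [hq, mul_comm])
    exact ⟨((g ^ q : Fˣ) : F), IsPrimitiveRoot.coe_units_iff.2 h1⟩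
  refine localImage_le_torsionGroup p (fun y hy => ?_) Valued.v hv hℓ hℓp
    (hζ.map_of_injective (algebraMap F M).injective) hc hb hB ((hgt P).2 hP1) hP
  obtain ⟨α, hα⟩ := hres y ((hle y).1 hy)
  exact ⟨α, (hlt _).2 hα⟩

end

end MP72e2e6
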