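import Pool.Agent.Lib.MP_72e2e6_nt.Main

/-!
# MP_72e2e6_nt: the order of the torsion group modulo `ℓ`-th powers
-/

namespace MP72e2e6

open Polynomial IsDedekindDomain WithZero

section general

variable {K : Type*} [Field K] {n ℓ : ℕ} {a : Fin n → K} {b : Fin n → ℕ}

/-- the torsion tuples as units -/
noncomputable def torsionUnit (ha : Function.Injective a) (b : Fin n → ℕ) (j : Fin n) :
    Fin n → Kˣ := fun i => Units.mk0 _ (torsionTuple_ne_zero ha b j i)

/-- elements of the torsion group are products of torsion tuples and `ℓ`-th powers -/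
theorem exists_exponents (ha : Function.Injective a) {t : Fin n → Kˣ}
    (ht : t ∈ torsionGroup ℓ a b) :
    ∃ (e : Fin n → ℤ) (z : Fin n → Kˣ), t = (∏ j, torsionUnit ha b j ^ e j) * z ^ ℓ := by
  classical
  let H : Subgroup (Fin n → Kˣ) :=
    { carrier := {t | ∃ (e : Fin n → ℤ) (z : Fin n → Kˣ),
        t = (∏ j, torsionUnit ha b j ^ e j) * z ^ ℓ}
      mul_mem' := by
        rintro x y ⟨e, z, rfl⟩ ⟨e', z', rfl⟩
        refine ⟨e + e', z * z', ?_⟩
        simp only [Pi.add_apply, zpow_add, Finset.prod_mul_distrib, mul_pow]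
        exact mul_mul_mul_comm _ _ _ _
      one_mem' := ⟨0, 1, by simp⟩
      inv_mem' := by
        rintro x ⟨e, z, rfl⟩
        refine ⟨-e, z⁻¹, ?_⟩
        simp only [Pi.neg_apply, zpow_neg, Finset.prod_inv_distrib, inv_pow, mul_inv] }
  have hle : torsionGroup ℓ a b ≤ H := by
    rw [torsionGroup, Subgroup.closure_le]
    rintro d (⟨z, rfl⟩ | ⟨j, hj⟩)
    · exact ⟨0, z, by simp⟩
    · refine ⟨Pi.single j 1, 1, ?_⟩
      rw [one_pow, mul_one, Finset.prod_eq_single j]
      · rw [Pi.single_eq_same, zpow_one]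
        ext i
        exact hj i
      · intro k _ hk
        rw [Pi.single_eq_of_ne hk, zpow_zero]
      · intro h
        exact absurd (Finset.mem_univ j) h
  exact hle ht

/-- the relation between the torsion tuples -/
theorem prod_torsionUnit_mem (hℓ : ℓ.Prime) (ha : Function.Injective a)
    (hb : ∀ i, Nat.Coprime (b i) ℓ) (hB : (∑ i, b i) ≡ 1 [MOD ℓ]) :
    ∏ j, torsionUnit ha b j ∈ powGroup ℓ K n := by
  classical
  have hkey : ∀ i, ((∏ j, torsionUnit ha b j) i : Kˣ) =
      ((-1) ^ (∑ j ∈ Finset.univ.erase i, b j)) := by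
    intro i
    ext
    rw [Finset.prod_apply, Units.coe_prod, ← Finset.mul_prod_erase _ _ (Finset.mem_univ i)]
    have h1 : ((torsionUnit ha b i i : Kˣ) : K) =
        (∏ k ∈ Finset.univ.erase i, (a i - a k) ^ (b k))⁻¹ := by
      change torsionTuple a b i i = _
      rw [torsionTuple, if_pos rfl]
    have h2 : ∏ j ∈ Finset.univ.erase i, ((torsionUnit ha b j i : Kˣ) : K) =
        (-1) ^ (∑ j ∈ Finset.univ.erase i, b j) *
          ∏ k ∈ Finset.univ.erase i, (a i - a k) ^ (b k) := by
      rw [← Finset.prod_pow_eq_pow_sum, ← Finset.prod_mul_distrib]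
      refine Finset.prod_congr rfl fun j hj => ?_
      change torsionTuple a b j i = _
      rw [torsionTuple, if_neg (Finset.ne_of_mem_erase hj).symm, ← mul_pow]
      congr 1
      ring
    have h3 : ∏ k ∈ Finset.univ.erase i, (a i - a k) ^ (b k) ≠ 0 :=
      Finset.prod_ne_zero_iff.2 fun k hk => pow_ne_zero _
        (sub_ne_zero.2 fun h => Finset.ne_of_mem_erase hk (ha h).symm)
    rw [h1, h2, mul_comm, mul_assoc, mul_inv_cancel₀ h3, mul_one]
    simp
  refine ⟨∏ j, torsionUnit ha b j, ?_⟩
  funext i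
  rw [powMonoidHom_apply, Pi.pow_apply, hkey i]
  rcases hℓ.eq_two_or_odd' with h2 | hodd
  · have hbi : Odd (b i) := by
      have h4 := hb i
      rw [h2, Nat.coprime_two_right] at h4
      exact h4
    have hsum : Odd (∑ j, b j) := by
      rw [h2] at hB
      rw [Nat.odd_iff]
      exact hB
    have heven : Even (∑ j ∈ Finset.univ.erase i, b j) := by
      have h5 := Finset.add_sum_erase Finset.univ b (Finset.mem_univ i)
      rw [← h5, Nat.odd_add] at hsum
      exact hsum.1 hbi
    rw [heven.neg_one_pow, one_pow]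
  · rw [← pow_mul, mul_comm, pow_mul, hodd.neg_one_pow]

end general

section

variable {F : Type*} [Field F] {ℓ m : ℕ} {c : Fin m → F} {b : Fin m → ℕ} {P : F[X]}

open Classical in
theorem inftyValuation_sub_zero (hP : 0 < P.natDegree) (i : Fin m) :
    RatFunc.inftyValuation F (branch c (algebraMap F[X] (RatFunc F) P) i.succ -
      branch c (algebraMap F[X] (RatFunc F) P) 0) = WithZero.exp (P.natDegree : ℤ) := by
  have h1 : branch c (algebraMap F[X] (RatFunc F) P) i.succ -
      branch c (algebraMap F[X] (RatFunc F) P) 0 =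
      algebraMap F[X] (RatFunc F) (P + C (c i)) := by
    rw [branch_succ, branch_zero, RatFunc.algebraMap_eq_C, map_add, RatFunc.algebraMap_C]
    ring
  have h2 : (P + C (c i)).natDegree = P.natDegree := Polynomial.natDegree_add_C
  have h3 : P + C (c i) ≠ 0 := by
    intro h
    rw [h, Polynomial.natDegree_zero] at h2
    omega
  rw [h1, ← h2]
  exact RatFunc.inftyValuation.polynomial F h3

open Classical in
theorem inftyValuation_sub_succ (hc : Function.Injective c) (i k : Fin m) (h : i ≠ k) :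
    RatFunc.inftyValuation F (branch c (algebraMap F[X] (RatFunc F) P) i.succ -
      branch c (algebraMap F[X] (RatFunc F) P) k.succ) = 1 := by
  have h1 : branch c (algebraMap F[X] (RatFunc F) P) i.succ -
      branch c (algebraMap F[X] (RatFunc F) P) k.succ = RatFunc.C (c i - c k) := by
    rw [branch_succ, branch_succ, RatFunc.algebraMap_eq_C, map_sub]
  rw [h1]
  exact RatFunc.inftyValuation.C F (sub_ne_zero.2 fun h2 => h (hc h2))

open Classical in
/-- the logarithmic valuations at infinity of the torsion tuples -/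
theorem log_torsionUnit (hc : Function.Injective c) (hP : 0 < P.natDegree)
    (ha : Function.Injective (branch c (algebraMap F[X] (RatFunc F) P))) (j : Fin (m + 1))
    (i : Fin m) :
    WithZero.log (RatFunc.inftyValuation F
      ((torsionUnit ha (expo b) j i.succ : (RatFunc F)ˣ) : RatFunc F)) =
      if j = 0 then (P.natDegree : ℤ) else if j = i.succ then -(P.natDegree : ℤ) else 0 := by
  change WithZero.log (RatFunc.inftyValuation F (torsionTuple _ (expo b) j i.succ)) = _
  rw [torsionTuple]
  by_cases hj0 : j = 0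
  · subst hj0
    rw [if_neg (Fin.succ_ne_zero i), if_pos rfl, expo_zero, pow_one, Valuation.map_sub_swap,
      inftyValuation_sub_zero hP, WithZero.log_exp]
  · rw [if_neg hj0]
    by_cases hji : j = i.succ
    · subst hji
      rw [if_pos rfl, if_pos rfl, map_inv₀, map_prod, WithZero.log_inv]
      congr 1
      rw [← Finset.mul_prod_erase _ _ (Finset.mem_erase.2 ⟨(Fin.succ_ne_zero i).symm,
        Finset.mem_univ 0⟩), Finset.prod_eq_one, mul_one, map_pow, expo_zero, pow_one,
        inftyValuation_sub_zero hP, WithZero.log_exp]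
      intro k hk
      have hk0 := Finset.ne_of_mem_erase hk
      have hki := Finset.ne_of_mem_erase (Finset.mem_of_mem_erase hk)
      obtain ⟨k', rfl⟩ := Fin.exists_succ_eq.2 hk0
      rw [map_pow, inftyValuation_sub_succ hc i k' (fun h => hki (congrArg Fin.succ h).symm),
        one_pow]
    · rw [if_neg (Ne.symm hji), if_neg hji]
      obtain ⟨j', rfl⟩ := Fin.exists_succ_eq.2 hj0
      rw [map_pow, inftyValuation_sub_succ hc j' i (fun h => hji (congrArg Fin.succ h)), one_pow,
        WithZero.log_one]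

open Classical in
/-- the valuations at infinity modulo `ℓ` -/
noncomputable def logHom (F : Type*) [Field F] (ℓ m : ℕ) :
    (Fin (m + 1) → (RatFunc F)ˣ) →* Multiplicative (Fin m → ZMod ℓ) where
  toFun t := Multiplicative.ofAdd fun i =>
    ((WithZero.log (RatFunc.inftyValuation F ((t i.succ : (RatFunc F)ˣ) : RatFunc F)) : ℤ) :
      ZMod ℓ)
  map_one' := by
    rw [← ofAdd_zero]
    congr 1
    funext i
    simp
  map_mul' s t := by
    rw [← ofAdd_add]
    congr 1
    funext i
    have h1 : ∀ x : (RatFunc F)ˣ, RatFunc.inftyValuation F (x : RatFunc F) ≠ 0 :=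
      fun x => (Valuation.ne_zero_iff _).2 x.ne_zero
    rw [Pi.mul_apply, Units.val_mul, map_mul, WithZero.log_mul (h1 _) (h1 _), Pi.add_apply]
    push_cast
    rfl

open Classical in
theorem logHom_torsionUnit (hc : Function.Injective c) (hP : 0 < P.natDegree)
    (ha : Function.Injective (branch c (algebraMap F[X] (RatFunc F) P))) (j : Fin (m + 1))
    (i : Fin m) :
    (logHom F ℓ m (torsionUnit ha (expo b) j)).toAdd i =
      if j = 0 then (P.natDegree : ZMod ℓ) else if j = i.succ then -(P.natDegree : ZMod ℓ)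
        else 0 := by
  have h := log_torsionUnit (b := b) hc hP ha j i
  change ((WithZero.log (RatFunc.inftyValuation F
      ((torsionUnit ha (expo b) j i.succ : (RatFunc F)ˣ) : RatFunc F)) : ℤ) : ZMod ℓ) = _
  rw [h]
  split_ifs <;> simp

/-- the kernel on the torsion group -/
theorem mem_powGroup_of_logHom (hℓ : ℓ.Prime) (hc : Function.Injective c)
    (hb : ∀ i, ¬ ℓ ∣ b i) (hB : ℓ ∣ ∑ i, b i) (hP : ¬ ℓ ∣ P.natDegree)
    {t : Fin (m + 1) → (RatFunc F)ˣ}
    (ht : t ∈ torsionGroup ℓ (branch c (algebraMap F[X] (RatFunc F) P)) (expo b))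
    (hlog : logHom F ℓ m t = 1) : t ∈ powGroup ℓ (RatFunc F) (m + 1) := by
  classical
  have hPpos : 0 < P.natDegree := Nat.pos_of_ne_zero fun h => hP (h ▸ dvd_zero ℓ)
  have ha := branch_injective' (P := P) hc hPpos
  have hβ : ∀ i, Nat.Coprime (expo b i) ℓ := by
    refine Fin.cases ?_ (fun i => ?_)
    · exact Nat.coprime_one_left ℓ
    · exact ((Nat.Prime.coprime_iff_not_dvd hℓ).2 (hb i)).symm
  have hsum : (∑ i, expo b i) ≡ 1 [MOD ℓ] := by
    rw [Fin.sum_univ_succ, expo_zero]
    simp only [expo_succ]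
    obtain ⟨q, hq⟩ := hB
    rw [hq, Nat.ModEq, Nat.add_mul_mod_self_left]
  have hfact : Fact ℓ.Prime := ⟨hℓ⟩
  obtain ⟨e, z, rfl⟩ := exists_exponents ha ht
  have hz : z ^ ℓ ∈ powGroup ℓ (RatFunc F) (m + 1) := ⟨z, rfl⟩
  -- all exponents agree modulo `ℓ`
  have hexp : ∀ i : Fin m, (ℓ : ℤ) ∣ e i.succ - e 0 := by
    intro i
    have h1 := congrFun (congrArg Multiplicative.toAdd hlog) i
    have h2 : logHom F ℓ m ((∏ j, torsionUnit ha (expo b) j ^ e j) * z ^ ℓ) =
        ∏ j, (logHom F ℓ m (torsionUnit ha (expo b) j)) ^ e j := by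
      rw [map_mul, map_prod, map_pow]
      have h3 : (logHom F ℓ m z) ^ ℓ = 1 := by
        apply Multiplicative.toAdd.injective
        rw [toAdd_pow, toAdd_one]
        funext k
        rw [Pi.smul_apply, nsmul_eq_mul, ZMod.natCast_self, zero_mul]
        rfl
      rw [h3, mul_one]
      refine Finset.prod_congr rfl fun j _ => ?_
      rw [map_zpow]
    rw [h2, toAdd_prod, toAdd_one, Finset.sum_apply, Fin.sum_univ_succ] at h1
    rw [Finset.sum_eq_single i] at h1
    · rw [toAdd_zpow, toAdd_zpow, Pi.smul_apply, Pi.smul_apply, logHom_torsionUnit hc hPpos,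
        logHom_torsionUnit hc hPpos, if_pos rfl, if_neg (Fin.succ_ne_zero i), if_pos rfl,
        zsmul_eq_mul, zsmul_eq_mul] at h1
      have h4 : ((e 0 - e i.succ : ℤ) : ZMod ℓ) * (P.natDegree : ZMod ℓ) = 0 := by
        push_cast
        have h5 : ((0 : Fin m → ZMod ℓ) i) = 0 := rfl
        rw [h5] at h1
        linear_combination h1
      have h6 : (P.natDegree : ZMod ℓ) ≠ 0 := by
        rw [Ne, ZMod.natCast_eq_zero_iff]
        exact hP
      have h7 := (mul_eq_zero.1 h4).resolve_right h6
      rw [ZMod.intCast_zmod_eq_zero_iff_dvd] at h7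
      rw [← dvd_neg]
      simpa using h7
    · intro k _ hk
      rw [toAdd_zpow, Pi.smul_apply, logHom_torsionUnit hc hPpos, if_neg (Fin.succ_ne_zero k),
        if_neg (fun h => hk (Fin.succ_injective _ h)), smul_zero]
    · intro h
      exact absurd (Finset.mem_univ i) h
  have hexp' : ∀ j, ∃ q : ℤ, e j = e 0 + ℓ * q := by
    intro j
    refine Fin.cases ⟨0, by ring⟩ (fun i => ?_) j
    obtain ⟨q, hq⟩ := hexp i
    exact ⟨q, by linear_combination hq⟩
  choose q hq using hexp'
  have hprod : ∏ j, torsionUnit ha (expo b) j ^ e j =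
      (∏ j, torsionUnit ha (expo b) j) ^ e 0 * (∏ j, torsionUnit ha (expo b) j ^ q j) ^ ℓ := by
    rw [← Finset.prod_zpow, ← Finset.prod_pow, ← Finset.prod_mul_distrib]
    refine Finset.prod_congr rfl fun j _ => ?_
    rw [← zpow_natCast, ← zpow_mul, ← zpow_add, mul_comm (q j) (ℓ : ℤ), ← hq j]
  rw [hprod]
  exact Subgroup.mul_mem _ (Subgroup.mul_mem _
    (Subgroup.zpow_mem _ (prod_torsionUnit_mem hℓ ha hβ hsum) _) ⟨_, rfl⟩) hz

theorem powGroup_le_ker : powGroup ℓ (RatFunc F) (m + 1) ≤ (logHom F ℓ m).ker := by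
  rintro _ ⟨z, rfl⟩
  rw [MonoidHom.mem_ker, powMonoidHom_apply, map_pow]
  apply Multiplicative.toAdd.injective
  rw [toAdd_pow, toAdd_one]
  funext k
  rw [Pi.smul_apply, nsmul_eq_mul, ZMod.natCast_self, zero_mul]
  rfl

/-- the order of the torsion group modulo `ℓ`-th powers -/
theorem relIndex_torsionGroup (hℓ : ℓ.Prime) (hc : Function.Injective c)
    (hb : ∀ i, ¬ ℓ ∣ b i) (hB : ℓ ∣ ∑ i, b i) (hP : ¬ ℓ ∣ P.natDegree) :
    (powGroup ℓ (RatFunc F) (m + 1)).relIndex
      (torsionGroup ℓ (branch c (algebraMap F[X] (RatFunc F) P)) (expo b)) = ℓ ^ m := by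
  classical
  have hPpos : 0 < P.natDegree := Nat.pos_of_ne_zero fun h => hP (h ▸ dvd_zero ℓ)
  have ha := branch_injective' (P := P) hc hPpos
  have hfact : Fact ℓ.Prime := ⟨hℓ⟩
  set T := torsionGroup ℓ (branch c (algebraMap F[X] (RatFunc F) P)) (expo b) with hT
  let Ψ := (logHom F ℓ m).comp T.subtype
  have hker : Ψ.ker = (powGroup ℓ (RatFunc F) (m + 1)).subgroupOf T := by
    ext t
    rw [MonoidHom.mem_ker, Subgroup.mem_subgroupOf]
    constructor
    · intro h
      exact mem_powGroup_of_logHom hℓ hc hb hB hP t.2 h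
    · intro h
      exact powGroup_le_ker h
  have hsurj : Function.Surjective Ψ := by
    intro x
    have hdeg : (P.natDegree : ZMod ℓ) ≠ 0 := by
      rw [Ne, ZMod.natCast_eq_zero_iff]
      exact hP
    let N : Fin m → ℤ := fun j => ((-(x.toAdd j) / (P.natDegree : ZMod ℓ) : ZMod ℓ).val : ℤ)
    let t : Fin (m + 1) → (RatFunc F)ˣ := ∏ j : Fin m, torsionUnit ha (expo b) j.succ ^ N j
    have ht : t ∈ T := by
      refine Subgroup.prod_mem _ fun j _ => Subgroup.zpow_mem _ ?_ _
      exact Subgroup.subset_closure (Or.inr ⟨j.succ, fun i => rfl⟩)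
    refine ⟨⟨t, ht⟩, ?_⟩
    apply Multiplicative.toAdd.injective
    funext i
    have h1 : Ψ ⟨t, ht⟩ = ∏ j : Fin m, (logHom F ℓ m (torsionUnit ha (expo b) j.succ)) ^ N j := by
      change logHom F ℓ m t = _
      simp only [t]
      rw [map_prod]
      refine Finset.prod_congr rfl fun j _ => ?_
      rw [map_zpow]
    rw [h1, toAdd_prod, Finset.sum_apply, Finset.sum_eq_single i]
    · rw [toAdd_zpow, Pi.smul_apply, logHom_torsionUnit hc hPpos, if_neg (Fin.succ_ne_zero i),
        if_pos rfl, zsmul_eq_mul]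
      simp only [N]
      rw [Int.cast_natCast, ZMod.natCast_zmod_val]
      field_simp
    · intro k _ hk
      rw [toAdd_zpow, Pi.smul_apply, logHom_torsionUnit hc hPpos, if_neg (Fin.succ_ne_zero k),
        if_neg (fun h => hk (Fin.succ_injective _ h)), smul_zero]
    · intro h
      exact absurd (Finset.mem_univ i) h
  rw [Subgroup.relIndex, ← hker, Subgroup.index_ker, MonoidHom.range_eq_top.2 hsurj,
    Subgroup.card_top, Nat.card_congr Multiplicative.toAdd, Nat.card_eq_fintype_card,
    Fintype.card_fun, ZMod.card, Fintype.card_fin]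

end

end MP72e2e6
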