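import Mathlib

/-!
# MP_72e2e6_nt: elements whose ideal is an `ℓ`-th power
-/

namespace MP72e2e6

open IsDedekindDomain WithZero FractionalIdeal

open scoped nonZeroDivisors

variable {R K : Type*} [CommRing R] [IsDedekindDomain R] [Field K] [Algebra R K]
  [IsFractionRing R K]

theorem exists_ideal_pow {ℓ : ℕ} {r : R} (hr : r ≠ 0)
    (h : ∀ v : HeightOneSpectrum R, (ℓ : ℤ) ∣ WithZero.log (v.intValuation r)) :
    ∃ J : Ideal R, Ideal.span {r} = J ^ ℓ := by
  classical
  have hne : Ideal.span {r} ≠ 0 := by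
    rw [Ne, Ideal.zero_eq_bot, Ideal.span_singleton_eq_bot]
    exact hr
  obtain ⟨b, hb⟩ := Associates.is_pow_of_dvd_count (a := Associates.mk (Ideal.span {r})) (k := ℓ)
    (by rw [Ne, Associates.mk_eq_zero]; exact hne) (fun p hp => by
      obtain ⟨q, rfl⟩ := Associates.mk_surjective p
      have hq : Irreducible q := Associates.irreducible_mk.1 hp
      let v : HeightOneSpectrum R :=
        ⟨q, Ideal.isPrime_of_prime (UniqueFactorizationMonoid.irreducible_iff_prime.1 hq),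
          hq.ne_zero⟩
      have h1 := h v
      rw [HeightOneSpectrum.intValuation_if_neg v hr, WithZero.log_exp, dvd_neg,
        Int.natCast_dvd_natCast] at h1
      exact h1)
  obtain ⟨J, rfl⟩ := Associates.mk_surjective b
  refine ⟨J, ?_⟩
  rw [← Associates.mk_pow, Associates.mk_eq_mk_iff_associated, associated_iff_eq] at hb
  exact hb

theorem pow_left_inj_ideal {ℓ : ℕ} (hℓ : ℓ ≠ 0) {J J' : (FractionalIdeal R⁰ K)ˣ}
    (h : J ^ ℓ = J' ^ ℓ) : J = J' := by
  classical
  have h1 : (J / J') ^ ℓ = 1 := by rw [div_pow, h, div_self']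
  have h2 : ∀ v : HeightOneSpectrum R,
      count K v ((J / J' : (FractionalIdeal R⁰ K)ˣ) : FractionalIdeal R⁰ K) = 0 := by
    intro v
    have h3 := congrArg (fun I : (FractionalIdeal R⁰ K)ˣ => count K v (I : FractionalIdeal R⁰ K))
      h1
    simp only [Units.val_pow_eq_pow_val, Units.val_one] at h3
    rw [count_pow, count_one] at h3
    have h4 : (ℓ : ℤ) ≠ 0 := by exact_mod_cast hℓ
    exact (mul_eq_zero.1 h3).resolve_left h4
  have h3 := finprod_heightOneSpectrum_factorization' K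
    (I := ((J / J' : (FractionalIdeal R⁰ K)ˣ) : FractionalIdeal R⁰ K)) (Units.ne_zero _)
  simp only [h2, zpow_zero, finprod_one] at h3
  have h4 : J / J' = 1 := by
    ext
    rw [← h3]
    rfl
  exact div_eq_one.1 h4

theorem unit_valuation_ne_zero (w : Valuation K (WithZero (Multiplicative ℤ))) (x : Kˣ) :
    w (x : K) ≠ 0 := (Valuation.ne_zero_iff _).2 x.ne_zero

/-- the ideal is an `ℓ`-th power -/
theorem exists_frac_pow {ℓ : ℕ} (hℓ : ℓ ≠ 0) (x : Kˣ)
    (h : ∀ v : HeightOneSpectrum R, (ℓ : ℤ) ∣ WithZero.log (v.valuation K (x : K))) :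
    ∃ J : (FractionalIdeal R⁰ K)ˣ, J ^ ℓ = toPrincipalIdeal R K x := by
  classical
  obtain ⟨r, s, hs, hrs⟩ := IsFractionRing.div_surjective (A := R) (x : K)
  have hs0 : s ≠ 0 := nonZeroDivisors.ne_zero hs
  have hsK : algebraMap R K s ≠ 0 := by
    rwa [Ne, map_eq_zero_iff _ (IsFractionRing.injective R K)]
  have hr0 : r ≠ 0 := by
    rintro rfl
    rw [map_zero, zero_div] at hrs
    exact x.ne_zero hrs.symm
  have hrK : algebraMap R K r ≠ 0 := by
    rwa [Ne, map_eq_zero_iff _ (IsFractionRing.injective R K)]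
  have hx : algebraMap R K (r * s ^ (ℓ - 1)) = (x : K) * (algebraMap R K s) ^ ℓ := by
    rw [← hrs, map_mul, map_pow, div_mul_eq_mul_div, eq_div_iff hsK, mul_assoc, ← pow_succ,
      Nat.sub_add_cancel (Nat.one_le_iff_ne_zero.2 hℓ)]
  have hne : r * s ^ (ℓ - 1) ≠ 0 := mul_ne_zero hr0 (pow_ne_zero _ hs0)
  obtain ⟨J, hJ⟩ := exists_ideal_pow (ℓ := ℓ) hne (fun v => by
    have h1 : v.intValuation (r * s ^ (ℓ - 1)) = v.valuation K (algebraMap R K (r * s ^ (ℓ - 1))) :=
      (v.valuation_of_algebraMap _).symm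
    rw [h1, hx, map_mul, map_pow, WithZero.log_mul (unit_valuation_ne_zero _ x)
      (pow_ne_zero _ ((Valuation.ne_zero_iff _).2 hsK)), WithZero.log_pow, nsmul_eq_mul]
    exact dvd_add (h v) (dvd_mul_right _ _))
  have hJ0 : J ≠ 0 := by
    rintro rfl
    rw [zero_pow hℓ, Ideal.zero_eq_bot, Ideal.span_singleton_eq_bot] at hJ
    exact hne hJ
  have hJ0' : (J : FractionalIdeal R⁰ K) ≠ 0 := coeIdeal_ne_zero.2 hJ0
  refine ⟨Units.mk0 _ hJ0' / toPrincipalIdeal R K (Units.mk0 _ hsK), ?_⟩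
  rw [div_pow, div_eq_iff_eq_mul, ← map_pow, ← map_mul]
  ext1
  rw [Units.val_pow_eq_pow_val, Units.val_mk0, coe_toPrincipalIdeal, ← coeIdeal_pow, ← hJ,
    coeIdeal_span_singleton, hx]
  simp

/-- kernel of the class map -/
theorem exists_unit_mul_pow {ℓ : ℕ} (x : Kˣ) (J : (FractionalIdeal R⁰ K)ˣ)
    (hJ : J ^ ℓ = toPrincipalIdeal R K x) (h : ClassGroup.mk K J = 1) :
    ∃ (u : Rˣ) (z : Kˣ), (x : K) = algebraMap R K (u : R) * (z : K) ^ ℓ := by
  classical
  obtain ⟨z, hz⟩ : ∃ z : Kˣ, toPrincipalIdeal R K z = J := by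
    have hI := ClassGroup.mk_eq_one_iff.1 h
    obtain ⟨x, hx⟩ := @Submodule.IsPrincipal.principal _ _ _ _ _ _ hI
    have hx' : (J : FractionalIdeal R⁰ K) = spanSingleton R⁰ x := by
      apply Subtype.coe_injective
      simp only [val_eq_coe, hx, coe_spanSingleton]
    refine ⟨Units.mk0 x ?_, ?_⟩
    · intro x_eq
      apply Units.ne_zero J
      simp [hx', x_eq]
    · rw [toPrincipalIdeal_eq_iff]
      exact hx'.symm
  have h1 : toPrincipalIdeal R K (x / z ^ ℓ) = 1 := by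
    rw [map_div, map_pow, hz, hJ, div_self']
  have h2 : ∀ y : Kˣ, toPrincipalIdeal R K y = 1 → ∃ r : R, algebraMap R K r = y := by
    intro y hy
    rw [toPrincipalIdeal_eq_iff] at hy
    have h3 : (y : K) ∈ (1 : FractionalIdeal R⁰ K) := by
      rw [← Units.val_one, ← hy]
      exact mem_spanSingleton_self R⁰ (y : K)
    exact (mem_one_iff R⁰).1 h3
  obtain ⟨r, hr⟩ := h2 _ h1
  obtain ⟨s, hs⟩ := h2 (x / z ^ ℓ)⁻¹ (by rw [map_inv, h1, inv_one])
  have hrs : r * s = 1 := by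
    apply IsFractionRing.injective R K
    rw [map_mul, hr, hs, ← Units.val_mul, mul_inv_cancel, Units.val_one, map_one]
  refine ⟨⟨r, s, hrs, by rw [mul_comm]; exact hrs⟩, z, ?_⟩
  change (x : K) = algebraMap R K r * (z : K) ^ ℓ
  rw [hr, ← Units.val_pow_eq_pow_val, ← Units.val_mul, div_mul_cancel]

variable (R K) in
/-- the elements all of whose valuations at the primes of `R` are divisible by `ℓ` -/
def ellSubgroup (ℓ : ℕ) : Subgroup Kˣ where
  carrier := {x | ∀ v : HeightOneSpectrum R, (ℓ : ℤ) ∣ WithZero.log (v.valuation K (x : K))}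
  mul_mem' := by
    intro x y hx hy v
    rw [Units.val_mul, map_mul, WithZero.log_mul (unit_valuation_ne_zero _ _)
      (unit_valuation_ne_zero _ _)]
    exact dvd_add (hx v) (hy v)
  one_mem' := by
    intro v
    simp
  inv_mem' := by
    intro x hx v
    rw [Units.val_inv_eq_inv_val, map_inv₀, WithZero.log_inv, dvd_neg]
    exact hx v

/-- the ideal whose `ℓ`-th power is generated by `x` -/
noncomputable def rootIdeal {ℓ : ℕ} (hℓ : ℓ ≠ 0) :
    ellSubgroup R K ℓ →* (FractionalIdeal R⁰ K)ˣ :=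
  MonoidHom.mk' (fun x => Classical.choose (exists_frac_pow hℓ x.1 x.2)) (by
    intro x y
    apply pow_left_inj_ideal hℓ
    rw [mul_pow, Classical.choose_spec (exists_frac_pow hℓ (x * y).1 (x * y).2),
      Classical.choose_spec (exists_frac_pow hℓ x.1 x.2),
      Classical.choose_spec (exists_frac_pow hℓ y.1 y.2), ← map_mul]
    rfl)

theorem rootIdeal_pow {ℓ : ℕ} (hℓ : ℓ ≠ 0) (x : ellSubgroup R K ℓ) :
    (rootIdeal hℓ x) ^ ℓ = toPrincipalIdeal R K x.1 :=
  Classical.choose_spec (exists_frac_pow hℓ x.1 x.2)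

/-- the class of the ideal whose `ℓ`-th power is generated by `x` -/
noncomputable def rootClass {ℓ : ℕ} (hℓ : ℓ ≠ 0) :
    ellSubgroup R K ℓ →* (powMonoidHom ℓ : ClassGroup R →* ClassGroup R).ker :=
  ((ClassGroup.mk K).comp (rootIdeal hℓ)).codRestrict _ (by
    intro x
    rw [MonoidHom.mem_ker, powMonoidHom_apply, MonoidHom.comp_apply, ← map_pow, rootIdeal_pow,
      ClassGroup.mk_eq_one_iff]
    rw [coe_toPrincipalIdeal, coe_spanSingleton]
    exact ⟨⟨_, rfl⟩⟩)

theorem exists_unit_mul_pow_of_rootClass {ℓ : ℕ} (hℓ : ℓ ≠ 0) (x : ellSubgroup R K ℓ)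
    (h : rootClass hℓ x = 1) :
    ∃ (u : Rˣ) (z : Kˣ), (x.1 : K) = algebraMap R K (u : R) * (z : K) ^ ℓ := by
  refine exists_unit_mul_pow x.1 (rootIdeal hℓ x) (rootIdeal_pow hℓ x) ?_
  exact congrArg Subtype.val h

end MP72e2e6
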