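import Pool.Agent.Lib.MP_72e2e6_nt.GInf
import Pool.Agent.Lib.MP_72e2e6_nt.Comp

/-!
# MP_72e2e6_nt: complete discretely valued fields with finite residue field
-/

namespace MP72e2e6

open Polynomial IntermediateField Module

universe u

theorem coprime_expo_of (ℓ : ℕ) {m : ℕ} {b : Fin m → ℕ} (hb : ∀ i, Nat.Coprime (b i) ℓ) :
    ∀ i, Nat.Coprime (expo b i) ℓ := by
  refine Fin.cases ?_ (fun i => ?_)
  · exact Nat.coprime_one_left ℓ
  · exact hb i

theorem sum_expo {m : ℕ} (b : Fin m → ℕ) : ∑ i, expo b i = 1 + ∑ i, b i := by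
  rw [Fin.sum_univ_succ, expo_zero]
  simp only [expo_succ]

section

variable {M : Type u} [Field M] [Valued M (WithZero (Multiplicative ℤ))] [CompleteSpace M]

open scoped Valued in
theorem localImage_le_torsionGroup_gen {F : Type*} [Field F] [Finite F] [Algebra F M]
    (hnt : ∃ x : M, Valued.v x ≠ 0 ∧ Valued.v x ≠ 1)
    (hres : ∀ y : M, Valued.v y ≤ 1 → ∃ α : F, Valued.v (y - algebraMap F M α) < 1)
    {ℓ : ℕ} (hℓ : ℓ.Prime) (hℓF : ℓ ∣ Nat.card F - 1)
    {m : ℕ} {c : Fin m → F} (hc : Function.Injective c) {b : Fin m → ℕ}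
    (hb : ∀ i, Nat.Coprime (b i) ℓ) (hB : Nat.Coprime (1 + ∑ i, b i) ℓ) {P : M}
    (hP1 : 1 < Valued.v P) (hP : ¬ (ℓ : ℤ) ∣ WithZero.log (Valued.v P)) :
    localImage ℓ (branch c P) (expo b) M ≤ torsionGroup ℓ (branch c P) (expo b) := by
  classical
  by_cases hBℓ : ℓ ∣ ∑ i, b i
  · exact localImage_le_torsionGroup' hnt hres hℓ hℓF hc hb hBℓ hP1 hP
  have hB0 : Nat.Coprime (∑ i, b i) ℓ := ((Nat.Prime.coprime_iff_not_dvd hℓ).2 hBℓ).symm
  obtain ⟨hr⟩ := nonempty_rankOne hnt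
  let : NontriviallyNormedField M :=
    Valued.toNontriviallyNormedField M (WithZero (Multiplicative ℤ))
  have hv : ∀ x y : M, ‖x‖ ≤ ‖y‖ ↔ Valued.v x ≤ Valued.v y :=
    fun x y => Valued.toNormedField.norm_le_iff
  have hlt : ∀ x : M, ‖x‖ < 1 ↔ Valued.v x < 1 := by
    intro x
    have h2 := hv 1 x
    rw [norm_one, map_one] at h2
    rw [← not_le, h2, not_le]
  have hgt : ∀ x : M, 1 < ‖x‖ ↔ 1 < Valued.v x := by
    intro x
    have h2 := hv x 1
    rw [norm_one, map_one] at h2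
    rw [← not_le, h2, not_le]
  have hle : ∀ x : M, ‖x‖ ≤ 1 ↔ Valued.v x ≤ 1 := by
    intro x
    have h2 := hv x 1
    rwa [norm_one, map_one] at h2
  have := Fintype.ofFinite F
  obtain ⟨p, hpc⟩ := CharP.exists F
  obtain ⟨r, hp, hr⟩ := FiniteField.card F p
  have hpf : Fact p.Prime := ⟨hp⟩
  have hcard : Nat.card F = p ^ (r : ℕ) := by rw [Nat.card_eq_fintype_card, hr]
  have hcard1 : 1 < Nat.card F := Finite.one_lt_card
  have hℓp : ℓ.Coprime p := by
    rw [Nat.coprime_primes hℓ hp]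
    rintro rfl
    have h1 : ℓ ∣ Nat.card F := by
      rw [hcard]
      exact dvd_pow_self _ r.ne_zero
    have h2 : ℓ ∣ 1 := by
      have h3 := (Nat.dvd_sub h1 hℓF)
      rwa [Nat.sub_sub_self hcard1.le] at h3
    exact hℓ.one_lt.ne' (Nat.dvd_one.1 h2)
  refine localImage_le_torsionGroup_coprime p (fun y hy => ?_) Valued.v hv hℓ hℓp hc hb hB0 hB
    ((hgt P).2 hP1) hP
  obtain ⟨α, hα⟩ := hres y ((hle y).1 hy)
  exact ⟨α, (hlt _).2 hα⟩

open scoped Valued in
/-- Teichmueller representatives in `M`. -/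
theorem exists_fixed_near (p : ℕ) [Fact p.Prime] [CharP M p]
    (hnt : ∃ x : M, Valued.v x ≠ 0 ∧ Valued.v x ≠ 1) {N : ℕ} (hN : N ≠ 0) (x : M)
    (hx : Valued.v x ≤ 1) (hlt : Valued.v (x ^ p ^ N - x) < 1) :
    ∃ τ : M, τ ^ p ^ N = τ ∧ Valued.v (x - τ) < 1 := by
  classical
  obtain ⟨hr⟩ := nonempty_rankOne hnt
  let : NontriviallyNormedField M :=
    Valued.toNontriviallyNormedField M (WithZero (Multiplicative ℤ))
  have hv : ∀ x y : M, ‖x‖ ≤ ‖y‖ ↔ Valued.v x ≤ Valued.v y :=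
    fun x y => Valued.toNormedField.norm_le_iff
  have hlt' : ∀ x : M, ‖x‖ < 1 ↔ Valued.v x < 1 := by
    intro x
    have h2 := hv 1 x
    rw [norm_one, map_one] at h2
    rw [← not_le, h2, not_le]
  have hle : ∀ x : M, ‖x‖ ≤ 1 ↔ Valued.v x ≤ 1 := by
    intro x
    have h2 := hv x 1
    rwa [norm_one, map_one] at h2
  rw [← hlt'] at hlt
  rw [← hle] at hx
  have hp : p.Prime := Fact.out
  set Q := p ^ N with hQ
  have hQ1 : 1 < Q := Nat.one_lt_pow hN hp.one_lt
  by_cases hx1 : ‖x‖ < 1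
  · exact ⟨0, by rw [zero_pow (by omega)], by rw [sub_zero]; exact (hlt' x).1 hx1⟩
  have hx1' : ‖x‖ = 1 := le_antisymm hx (not_lt.1 hx1)
  have hx0 : x ≠ 0 := by
    intro h
    rw [h, norm_zero] at hx1'
    exact zero_ne_one hx1'
  have h1 : ‖x ^ (Q - 1) - 1‖ < 1 := by
    have h2 : x ^ Q - x = x * (x ^ (Q - 1) - 1) := by
      rw [mul_sub, ← pow_succ', Nat.sub_add_cancel hQ1.le, mul_one]
    rw [h2, norm_mul, hx1', one_mul] at hlt
    exact hlt
  have hcop : (Q - 1).Coprime p := by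
    have h3 : p ∣ Q := dvd_pow_self p hN
    have h4 : (Q - 1).Coprime Q := by
      rw [Nat.coprime_comm]
      have h5 := (Nat.coprime_self_sub_right (m := 1) (n := Q) hQ1.le)
      simpa using h5
    exact Nat.Coprime.coprime_dvd_right h3 h4
  obtain ⟨z, hz, hz1⟩ := exists_pow_eq_of_principal p hcop h1
  have hzn : ‖z‖ = 1 := norm_eq_one_of_sub norm_one hz1
  have hz0 : z ≠ 0 := by
    intro h
    rw [h, norm_zero] at hzn
    exact zero_ne_one hzn
  refine ⟨x / z, ?_, ?_⟩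
  · have h5 : (x / z) ^ (Q - 1) = 1 := by
      rw [div_pow, hz, div_self (pow_ne_zero _ hx0)]
    calc (x / z) ^ Q = (x / z) ^ (Q - 1 + 1) := by rw [Nat.sub_add_cancel hQ1.le]
      _ = x / z := by rw [pow_succ, h5, one_mul]
  · rw [← hlt']
    have h6 : x - x / z = x * z⁻¹ * (z - 1) := by field_simp
    rw [h6, norm_mul, norm_mul, norm_inv, hx1', hzn]
    simpa using hz1

/-- the subfield of the elements with `x ^ (p ^ N) = x` -/
def fixedSubfield (M : Type*) [Field M] (p N : ℕ) [ExpChar M p] : Subfield M :=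
  (iterateFrobenius M p N).eqLocusField (RingHom.id M)

theorem mem_fixedSubfield {M : Type*} [Field M] {p N : ℕ} [ExpChar M p] {x : M} :
    x ∈ fixedSubfield M p N ↔ x ^ p ^ N = x := by
  rw [fixedSubfield, RingHom.mem_eqLocusField, iterateFrobenius_def]
  rfl

theorem finite_fixedSubfield {M : Type*} [Field M] {p N : ℕ} [Fact p.Prime] [CharP M p]
    (hN : N ≠ 0) : Finite (fixedSubfield M p N) := by
  classical
  have hp : p.Prime := Fact.out
  have hQ1 : 1 < p ^ N := Nat.one_lt_pow hN hp.one_lt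
  have hne : (X ^ p ^ N - X : M[X]) ≠ 0 := FiniteField.X_pow_card_sub_X_ne_zero M hQ1
  have h1 : ((fixedSubfield M p N : Subfield M) : Set M) ⊆ (X ^ p ^ N - X : M[X]).rootSet M := by
    intro x hx
    rw [Polynomial.mem_rootSet]
    refine ⟨hne, ?_⟩
    have h2 : x ^ p ^ N = x := mem_fixedSubfield.1 hx
    simp [h2]
  exact ((Polynomial.rootSet_finite _ _).subset h1).to_subtype

variable {F : Type*} [Field F] [Finite F] [Algebra F M]

/-- At a place whose residue field has degree over `F` dividing `e`, the local image is the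
torsion. -/
theorem localImage_le_torsionGroup_res
    (hnt : ∃ x : M, Valued.v x ≠ 0 ∧ Valued.v x ≠ 1) {e : ℕ} (he : e ≠ 0)
    (hres : ∀ y : M, Valued.v y ≤ 1 → Valued.v (y ^ Nat.card F ^ e - y) < 1)
    {ℓ : ℕ} (hℓ : ℓ.Prime) (hℓF : ℓ ∣ Nat.card F - 1)
    {m : ℕ} {c : Fin m → F} (hc : Function.Injective c) {b : Fin m → ℕ}
    (hb : ∀ i, Nat.Coprime (b i) ℓ) (hB : Nat.Coprime (1 + ∑ i, b i) ℓ) {P : M}
    (hP1 : 1 < Valued.v P) (hP : ¬ (ℓ : ℤ) ∣ WithZero.log (Valued.v P)) :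
    localImage ℓ (branch c P) (expo b) M ≤ torsionGroup ℓ (branch c P) (expo b) := by
  classical
  have := Fintype.ofFinite F
  obtain ⟨p, hpc⟩ := CharP.exists F
  obtain ⟨r, hp, hr⟩ := FiniteField.card F p
  have hpf : Fact p.Prime := ⟨hp⟩
  have hcard : Nat.card F = p ^ (r : ℕ) := by rw [Nat.card_eq_fintype_card, hr]
  have hcharM : CharP M p := charP_of_injective_algebraMap (algebraMap F M).injective p
  have hQ : Nat.card F ^ e = p ^ ((r : ℕ) * e) := by rw [hcard, pow_mul]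
  have hN : (r : ℕ) * e ≠ 0 := mul_ne_zero r.ne_zero he
  let F' := fixedSubfield M p ((r : ℕ) * e)
  have hfin : Finite F' := finite_fixedSubfield hN
  have hmem : ∀ α : F, algebraMap F M α ∈ F' := by
    intro α
    rw [mem_fixedSubfield, ← hQ, ← map_pow]
    congr 1
    rw [Nat.card_eq_fintype_card]
    exact FiniteField.pow_card_pow e α
  let c' : Fin m → F' := fun i => ⟨algebraMap F M (c i), hmem _⟩
  have hc' : Function.Injective c' := by
    intro i j h
    exact hc ((algebraMap F M).injective (congrArg Subtype.val h))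
  have hbr : branch c' P = branch c P := by
    funext i
    refine Fin.cases rfl (fun i => rfl) i
  have hdvd : Nat.card F - 1 ∣ Nat.card F' - 1 := by
    let f : F →+* F' := RingHom.codRestrict (algebraMap F M) F' hmem
    have h1 : Function.Injective (Units.map (f : F →* F')) :=
      Units.map_injective f.injective
    have h2 := Subgroup.card_dvd_of_injective _ h1
    rwa [Nat.card_units, Nat.card_units] at h2
  have h := localImage_le_torsionGroup_gen (F := F') hnt (fun y hy => ?_) hℓ (hℓF.trans hdvd) hc'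
    hb hB hP1 hP
  · rw [hbr] at h
    exact h
  · obtain ⟨τ, hτ, hlt⟩ := exists_fixed_near p hnt hN y hy (by rw [← hQ]; exact hres y hy)
    exact ⟨⟨τ, mem_fixedSubfield.2 hτ⟩, hlt⟩

/-- constants which are `ℓ`-th powers in `M` are `ℓ`-th powers in `F`, if the degree of the
residue field is prime to `ℓ` -/
theorem exists_const_eq_pow
    (hnt : ∃ x : M, Valued.v x ≠ 0 ∧ Valued.v x ≠ 1) {e : ℕ} (he : e ≠ 0)
    (hres : ∀ y : M, Valued.v y ≤ 1 → Valued.v (y ^ Nat.card F ^ e - y) < 1)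
    {ℓ : ℕ} (hℓ : ℓ.Prime) (hℓF : ℓ ∣ Nat.card F - 1) (heℓ : ¬ ℓ ∣ e) {α : F} {y : M}
    (h : algebraMap F M α = y ^ ℓ) : ∃ β : F, α = β ^ ℓ := by
  classical
  by_cases hα : α = 0
  · exact ⟨0, by rw [hα, zero_pow hℓ.ne_zero]⟩
  have := Fintype.ofFinite F
  obtain ⟨p, hpc⟩ := CharP.exists F
  obtain ⟨r, hp, hr⟩ := FiniteField.card F p
  have hpf : Fact p.Prime := ⟨hp⟩
  have hcard : Nat.card F = p ^ (r : ℕ) := by rw [Nat.card_eq_fintype_card, hr]
  have hcharM : CharP M p := charP_of_injective_algebraMap (algebraMap F M).injective p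
  have hQ : Nat.card F ^ e = p ^ ((r : ℕ) * e) := by rw [hcard, pow_mul]
  have hN : (r : ℕ) * e ≠ 0 := mul_ne_zero r.ne_zero he
  have hQ1 : 1 < p ^ ((r : ℕ) * e) := Nat.one_lt_pow hN hp.one_lt
  -- `v y = 1`
  have hα1 : α ^ (Nat.card F - 1) = 1 := by
    rw [Nat.card_eq_fintype_card]
    exact FiniteField.pow_card_sub_one_eq_one α hα
  have hcard1 : 1 < Nat.card F := Finite.one_lt_card
  have hvy : Valued.v y = 1 := by
    have h1 : y ^ (ℓ * (Nat.card F - 1)) = 1 := by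
      rw [pow_mul, ← h, ← map_pow, hα1, map_one]
    have h2 : Valued.v y ^ (ℓ * (Nat.card F - 1)) = 1 := by rw [← map_pow, h1, map_one]
    exact (pow_eq_one_iff.1 h2).resolve_right (mul_ne_zero hℓ.ne_zero (by omega))
  obtain ⟨τ, hτ, hlt⟩ := exists_fixed_near p hnt hN y hvy.le (by
    rw [← hQ]; exact hres y hvy.le)
  have hτ0 : τ ≠ 0 := by
    rintro rfl
    rw [sub_zero, hvy] at hlt
    exact lt_irrefl _ hlt
  have hvτ : Valued.v τ = 1 := by
    have h1 : τ = y - (y - τ) := by ring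
    rw [h1, Valuation.map_sub_eq_of_lt_left _ (by rw [hvy]; exact hlt), hvy]
  -- `α = τ ^ ℓ`
  have hατ : algebraMap F M α = τ ^ ℓ := by
    by_contra hne
    have hfix : (algebraMap F M α - τ ^ ℓ) ∈ fixedSubfield M p ((r : ℕ) * e) := by
      refine Subfield.sub_mem _ ?_ (Subfield.pow_mem _ (mem_fixedSubfield.2 hτ) _)
      rw [mem_fixedSubfield, ← hQ, ← map_pow]
      congr 1
      rw [Nat.card_eq_fintype_card]
      exact FiniteField.pow_card_pow e α
    have h1 := mem_fixedSubfield.1 hfix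
    have hne' : algebraMap F M α - τ ^ ℓ ≠ 0 := sub_ne_zero.2 hne
    have h2 : (algebraMap F M α - τ ^ ℓ) ^ (p ^ ((r : ℕ) * e) - 1) = 1 := by
      have h3 : (algebraMap F M α - τ ^ ℓ) * (algebraMap F M α - τ ^ ℓ) ^
          (p ^ ((r : ℕ) * e) - 1) = (algebraMap F M α - τ ^ ℓ) * 1 := by
        rw [← pow_succ', Nat.sub_add_cancel hQ1.le, h1, mul_one]
      exact mul_left_cancel₀ hne' h3
    have h3 : Valued.v (algebraMap F M α - τ ^ ℓ) = 1 := by
      have h4 := congrArg Valued.v h2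
      rw [map_pow, map_one] at h4
      exact (pow_eq_one_iff.1 h4).resolve_right (by omega)
    have h4 : Valued.v (algebraMap F M α - τ ^ ℓ) < 1 := by
      rw [h]
      obtain ⟨s, hs⟩ := sub_dvd_pow_sub_pow y τ ℓ
      have h5 : Valued.v s ≤ 1 := by
        have h6 : s = ∑ i ∈ Finset.range ℓ, y ^ i * τ ^ (ℓ - 1 - i) := by
          have h7 : (y - τ) * s = (y - τ) * ∑ i ∈ Finset.range ℓ, y ^ i * τ ^ (ℓ - 1 - i) := by
            rw [← hs, mul_comm, Commute.geom_sum₂_mul (Commute.all y τ)]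
          by_cases hyτ : y - τ = 0
          · exfalso
            rw [h, sub_eq_zero.1 hyτ] at hne
            exact hne rfl
          · exact mul_left_cancel₀ hyτ h7
        rw [h6]
        refine Valuation.map_sum_le _ fun i _ => ?_
        rw [map_mul, map_pow, map_pow, hvy, hvτ, one_pow, one_pow, one_mul]
      rw [hs, map_mul]
      calc Valued.v (y - τ) * Valued.v s ≤ Valued.v (y - τ) * 1 := by gcongr
        _ < 1 := by rw [mul_one]; exact hlt
    exact absurd h3 h4.ne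
  -- `α ^ ((Q - 1) / ℓ) = 1`
  obtain ⟨k, hk⟩ := hℓF
  have hgeom : (∑ i ∈ Finset.range e, Nat.card F ^ i) * (Nat.card F - 1) = Nat.card F ^ e - 1 :=
    geom_sum_mul_of_one_le hcard1.le e
  set G := ∑ i ∈ Finset.range e, Nat.card F ^ i with hG
  have h1 : α ^ (k * G) = 1 := by
    apply (algebraMap F M).injective
    rw [map_pow, hατ, ← pow_mul, map_one]
    have h2 : ℓ * (k * G) = p ^ ((r : ℕ) * e) - 1 := by
      rw [← hQ, ← hgeom, hk]
      ring
    rw [h2]
    have h3 : τ * τ ^ (p ^ ((r : ℕ) * e) - 1) = τ * 1 := by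
      rw [← pow_succ', Nat.sub_add_cancel hQ1.le, hτ, mul_one]
    exact mul_left_cancel₀ hτ0 h3
  -- `G` is prime to `ℓ`
  have hGℓ : Nat.Coprime G ℓ := by
    rw [Nat.Coprime, Nat.gcd_comm]
    refine (Nat.Prime.coprime_iff_not_dvd hℓ).2 fun hdvd => heℓ ?_
    have hmod : Nat.card F ≡ 1 [MOD ℓ] := by
      have h2 : (1 : ℕ) ≡ Nat.card F [MOD ℓ] := (Nat.modEq_iff_dvd' hcard1.le).2 ⟨k, hk⟩
      exact h2.symm
    have h3 : G ≡ ∑ i ∈ Finset.range e, 1 [MOD ℓ] := by
      refine Nat.ModEq.sum fun i _ => ?_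
      have := hmod.pow i
      rwa [one_pow] at this
    rw [Finset.sum_const, Finset.card_range, smul_eq_mul, mul_one] at h3
    exact (Nat.modEq_zero_iff_dvd.1 (h3.symm.trans (Nat.modEq_zero_iff_dvd.2 hdvd)))
  have h2 : α ^ k = 1 := by
    have h3 : (α ^ k) ^ G = 1 := by rw [← pow_mul, h1]
    have h4 : (α ^ k) ^ ℓ = 1 := by rw [← pow_mul, mul_comm, ← hk, hα1]
    have h5 := orderOf_dvd_of_pow_eq_one h3
    have h6 := orderOf_dvd_of_pow_eq_one h4
    have h7 : orderOf (α ^ k) ∣ 1 := by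
      rw [← hGℓ]
      exact Nat.dvd_gcd h5 h6
    exact orderOf_eq_one_iff.1 (Nat.dvd_one.1 h7)
  -- `α` is an `ℓ`-th power in the cyclic group
  obtain ⟨g, hg⟩ := IsCyclic.exists_generator (α := Fˣ)
  have hord : orderOf g = Nat.card F - 1 := by
    rw [orderOf_eq_card_of_forall_mem_zpowers hg, Nat.card_units]
  obtain ⟨N, hNg⟩ := (Subgroup.mem_zpowers_iff).1 (hg (Units.mk0 α hα))
  have h3 : g ^ (N * (k : ℤ)) = 1 := by
    rw [zpow_mul, hNg, zpow_natCast]
    ext
    simpa using h2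
  have h4 : ((Nat.card F - 1 : ℕ) : ℤ) ∣ N * k := by
    rw [← hord]
    exact orderOf_dvd_iff_zpow_eq_one.2 h3
  rw [hk] at h4
  have hk0 : (k : ℤ) ≠ 0 := by
    intro h0
    have : k = 0 := by exact_mod_cast h0
    rw [this, mul_zero] at hk
    omega
  have h5 : (ℓ : ℤ) ∣ N := by
    obtain ⟨s, hs⟩ := h4
    refine ⟨s, ?_⟩
    apply mul_right_cancel₀ hk0
    rw [hs]
    push_cast
    ring
  obtain ⟨s, hs⟩ := h5
  refine ⟨((g ^ s : Fˣ) : F), ?_⟩
  have h6 : Units.mk0 α hα = (g ^ s) ^ ℓ := by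
    rw [← hNg, hs, mul_comm, zpow_mul, zpow_natCast]
  have h7 := congrArg (fun u : Fˣ => (u : F)) h6
  simpa using h7

end

end MP72e2e6
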