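import Pool.Agent.Lib.MP_72e2e6_nt.Count
import Pool.Agent.Lib.MP_72e2e6_nt.GIdeal
import Pool.Agent.Lib.MP_72e2e6_nt.GRes

/-!
# MP_72e2e6_nt: the order of the torsion group modulo `ℓ`-th powers, general fields
-/

namespace MP72e2e6

open IsDedekindDomain WithZero

section general

variable {K : Type*} [Field K] {n ℓ : ℕ} {a : Fin n → K} {b : Fin n → ℕ}

/-- the relation between the torsion tuples -/
theorem prod_torsionUnit_mem' (hℓ : ℓ.Prime) (ha : Function.Injective a)
    (hb : ∀ i, Nat.Coprime (b i) ℓ) (hB : Nat.Coprime (∑ i, b i) ℓ) :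
    ∏ j, torsionUnit ha b j ∈ powGroup ℓ K n := by
  classical
  have hkey : ∀ i, ((∏ j, torsionUnit ha b j) i : Kˣ) =
      ((-1) ^ (∑ j ∈ Finset.univ.erase i, b j)) := by
    intro i
    ext
    rw [Finset.prod_apply, Units.coe_prod, ← Finset.mul_prod_erase _ _ (Finset.mem_univ i)]
    have h1 : ((torsionUnit ha b i i : Kˣ) : K) =
        (∏ k ∈ Finset.univ.erase i, (a i - a k) ^ (b k))⁻¹ := by
      change torsionTuple a b i i = _
      rw [torsionTuple, if_pos rfl]
    have h2 : ∏ j ∈ Finset.univ.erase i, ((torsionUnit ha b j i : Kˣ) : K) =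
        (-1) ^ (∑ j ∈ Finset.univ.erase i, b j) *
          ∏ k ∈ Finset.univ.erase i, (a i - a k) ^ (b k) := by
      rw [← Finset.prod_pow_eq_pow_sum, ← Finset.prod_mul_distrib]
      refine Finset.prod_congr rfl fun j hj => ?_
      change torsionTuple a b j i = _
      rw [torsionTuple, if_neg (Finset.ne_of_mem_erase hj).symm, ← mul_pow]
      congr 1
      ring
    have h3 : ∏ k ∈ Finset.univ.erase i, (a i - a k) ^ (b k) ≠ 0 :=
      Finset.prod_ne_zero_iff.2 fun k hk => pow_ne_zero _
        (sub_ne_zero.2 fun h => Finset.ne_of_mem_erase hk (ha h).symm)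
    rw [h1, h2, mul_comm, mul_assoc, mul_inv_cancel₀ h3, mul_one]
    simp
  refine ⟨∏ j, torsionUnit ha b j, ?_⟩
  funext i
  rw [powMonoidHom_apply, Pi.pow_apply, hkey i]
  rcases hℓ.eq_two_or_odd' with h2 | hodd
  · have hbi : Odd (b i) := by
      have h4 := hb i
      rw [h2, Nat.coprime_two_right] at h4
      exact h4
    have hsum : Odd (∑ j, b j) := by
      rw [h2, Nat.coprime_two_right] at hB
      exact hB
    have heven : Even (∑ j ∈ Finset.univ.erase i, b j) := by
      have h5 := Finset.add_sum_erase Finset.univ b (Finset.mem_univ i)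
      rw [← h5, Nat.odd_add] at hsum
      exact hsum.1 hbi
    rw [heven.neg_one_pow, one_pow]
  · rw [← pow_mul, mul_comm, pow_mul, hodd.neg_one_pow]

/-- valuations modulo `ℓ` -/
noncomputable def logHomJ (K : Type*) [Field K] (ℓ n : ℕ) {J : Type*}
    (w : J → Valuation K (WithZero (Multiplicative ℤ))) (idx : J → Fin n) :
    (Fin n → Kˣ) →* Multiplicative (J → ZMod ℓ) where
  toFun t := Multiplicative.ofAdd fun j =>
    ((WithZero.log (w j ((t (idx j) : Kˣ) : K)) : ℤ) : ZMod ℓ)
  map_one' := by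
    rw [← ofAdd_zero]
    congr 1
    funext i
    simp
  map_mul' s t := by
    rw [← ofAdd_add]
    congr 1
    funext i
    rw [Pi.mul_apply, Units.val_mul, map_mul,
      WithZero.log_mul (unit_valuation_ne_zero _ _) (unit_valuation_ne_zero _ _), Pi.add_apply]
    push_cast
    rfl

theorem powGroup_le_ker_logHomJ {n : ℕ} {J : Type*}
    (w : J → Valuation K (WithZero (Multiplicative ℤ))) (idx : J → Fin n) :
    powGroup ℓ K n ≤ (logHomJ K ℓ n w idx).ker := by
  rintro _ ⟨z, rfl⟩
  rw [MonoidHom.mem_ker, powMonoidHom_apply, map_pow]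
  apply Multiplicative.toAdd.injective
  rw [toAdd_pow, toAdd_one]
  funext k
  rw [Pi.smul_apply, nsmul_eq_mul, ZMod.natCast_self, zero_mul]
  rfl

theorem logHomJ_eq_one_iff {n : ℕ} {J : Type*}
    {w : J → Valuation K (WithZero (Multiplicative ℤ))} {idx : J → Fin n} {t : Fin n → Kˣ} :
    logHomJ K ℓ n w idx t = 1 ↔
      ∀ j, (ℓ : ℤ) ∣ WithZero.log (w j ((t (idx j) : Kˣ) : K)) := by
  constructor
  · intro h j
    have h1 := congrFun (congrArg Multiplicative.toAdd h) j
    have h2 : ((WithZero.log (w j ((t (idx j) : Kˣ) : K)) : ℤ) : ZMod ℓ) = 0 := h1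
    rwa [ZMod.intCast_zmod_eq_zero_iff_dvd] at h2
  · intro h
    apply Multiplicative.toAdd.injective
    funext j
    change ((WithZero.log (w j ((t (idx j) : Kˣ) : K)) : ℤ) : ZMod ℓ) = 0
    rw [ZMod.intCast_zmod_eq_zero_iff_dvd]
    exact h j

end general

section

variable {F : Type*} [Field F] [Finite F] {K : Type*} [Field K] [Algebra F K] {ℓ m : ℕ}
  {c : Fin m → F} {b : Fin m → ℕ} {P : K} (w : Valuation K (WithZero (Multiplicative ℤ)))

theorem valuation_const {α : F} (hα : α ≠ 0) : w (algebraMap F K α) = 1 := by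
  have := Fintype.ofFinite F
  have h1 : α ^ (Fintype.card F - 1) = 1 := FiniteField.pow_card_sub_one_eq_one α hα
  have h2 : w (algebraMap F K α) ^ (Fintype.card F - 1) = 1 := by
    rw [← map_pow, ← map_pow, h1, map_one, map_one]
  have h3 : Fintype.card F - 1 ≠ 0 := by
    have := Fintype.one_lt_card (α := F)
    omega
  exact (pow_eq_one_iff.1 h2).resolve_right h3

theorem valuation_const_le (α : F) : w (algebraMap F K α) ≤ 1 := by
  by_cases h : α = 0
  · simp [h]
  · exact (valuation_const w h).le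

variable {w}

theorem branch_injective_gen (hc : Function.Injective c) (hP : 1 < w P) :
    Function.Injective (branch c P) := by
  have h0 : ∀ i, -P ≠ algebraMap F K (c i) := by
    intro i h
    have h1 := valuation_const_le w (c i)
    rw [← h, Valuation.map_neg] at h1
    exact absurd hP (not_lt.2 h1)
  intro i j
  refine Fin.cases ?_ (fun i => ?_) i
  · refine Fin.cases (fun _ => rfl) (fun j h => ?_) j
    exact absurd h (h0 j)
  · refine Fin.cases (fun h => ?_) (fun j h => ?_) j
    · exact absurd h.symm (h0 i)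
    · exact congrArg Fin.succ (hc ((algebraMap F K).injective h))

theorem valuation_sub_zero (hP : 1 < w P) (i : Fin m) :
    w (branch c P i.succ - branch c P 0) = w P := by
  rw [branch_succ, branch_zero, sub_neg_eq_add, add_comm]
  exact Valuation.map_add_eq_of_lt_left _ ((valuation_const_le w (c i)).trans_lt hP)

theorem valuation_sub_succ (hc : Function.Injective c) (i k : Fin m) (h : i ≠ k) :
    w (branch c P i.succ - branch c P k.succ) = 1 := by
  rw [branch_succ, branch_succ, ← map_sub]
  exact valuation_const w (sub_ne_zero.2 fun h2 => h (hc h2))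

/-- the logarithmic valuations at infinity of the torsion tuples -/
theorem log_torsionUnit_gen (hc : Function.Injective c) (hP : 1 < w P)
    (ha : Function.Injective (branch c P)) (j : Fin (m + 1)) (i : Fin m) :
    WithZero.log (w ((torsionUnit ha (expo b) j i.succ : Kˣ) : K)) =
      if j = 0 then WithZero.log (w P) else if j = i.succ then -WithZero.log (w P) else 0 := by
  change WithZero.log (w (torsionTuple _ (expo b) j i.succ)) = _
  rw [torsionTuple]
  by_cases hj0 : j = 0
  · subst hj0
    rw [if_neg (Fin.succ_ne_zero i), if_pos rfl, expo_zero, pow_one, Valuation.map_sub_swap,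
      valuation_sub_zero hP]
  · rw [if_neg hj0]
    by_cases hji : j = i.succ
    · subst hji
      rw [if_pos rfl, if_pos rfl, map_inv₀, map_prod, WithZero.log_inv]
      congr 1
      rw [← Finset.mul_prod_erase _ _ (Finset.mem_erase.2 ⟨(Fin.succ_ne_zero i).symm,
        Finset.mem_univ 0⟩), Finset.prod_eq_one, mul_one, map_pow, expo_zero, pow_one,
        valuation_sub_zero hP]
      intro k hk
      have hk0 := Finset.ne_of_mem_erase hk
      have hki := Finset.ne_of_mem_erase (Finset.mem_of_mem_erase hk)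
      obtain ⟨k', rfl⟩ := Fin.exists_succ_eq.2 hk0
      rw [map_pow, valuation_sub_succ hc i k' (fun h => hki (congrArg Fin.succ h).symm),
        one_pow]
    · rw [if_neg (Ne.symm hji), if_neg hji]
      obtain ⟨j', rfl⟩ := Fin.exists_succ_eq.2 hj0
      rw [map_pow, valuation_sub_succ hc j' i (fun h => hji (congrArg Fin.succ h)), one_pow,
        WithZero.log_one]

variable (w) in
/-- the valuations at infinity modulo `ℓ` -/
noncomputable def logInf (ℓ m : ℕ) : (Fin (m + 1) → Kˣ) →* Multiplicative (Fin m → ZMod ℓ) :=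
  logHomJ K ℓ (m + 1) (fun _ => w) Fin.succ

theorem logInf_torsionUnit (hc : Function.Injective c) (hP : 1 < w P)
    (ha : Function.Injective (branch c P)) (j : Fin (m + 1)) (i : Fin m) :
    (logInf w ℓ m (torsionUnit ha (expo b) j)).toAdd i =
      if j = 0 then ((WithZero.log (w P) : ℤ) : ZMod ℓ)
        else if j = i.succ then -((WithZero.log (w P) : ℤ) : ZMod ℓ) else 0 := by
  have h := log_torsionUnit_gen (b := b) hc hP ha j i
  change ((WithZero.log (w ((torsionUnit ha (expo b) j i.succ : Kˣ) : K)) : ℤ) : ZMod ℓ) = _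
  rw [h]
  split_ifs <;> simp

/-- the kernel on the torsion group -/
theorem mem_powGroup_of_logInf (hℓ : ℓ.Prime) (hc : Function.Injective c)
    (hb : ∀ i, Nat.Coprime (b i) ℓ) (hB : Nat.Coprime (1 + ∑ i, b i) ℓ) (hP1 : 1 < w P)
    (hP : ¬ (ℓ : ℤ) ∣ WithZero.log (w P)) {t : Fin (m + 1) → Kˣ}
    (ht : t ∈ torsionGroup ℓ (branch c P) (expo b))
    (hlog : logInf w ℓ m t = 1) : t ∈ powGroup ℓ K (m + 1) := by
  classical
  have ha := branch_injective_gen (P := P) hc hP1
  have hβ := coprime_expo_of ℓ hb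
  have hsum : Nat.Coprime (∑ i, expo b i) ℓ := by
    rw [Fin.sum_univ_succ, expo_zero]
    simp only [expo_succ]
    exact hB
  have hfact : Fact ℓ.Prime := ⟨hℓ⟩
  obtain ⟨e, z, rfl⟩ := exists_exponents ha ht
  have hz : z ^ ℓ ∈ powGroup ℓ K (m + 1) := ⟨z, rfl⟩
  -- all exponents agree modulo `ℓ`
  have hexp : ∀ i : Fin m, (ℓ : ℤ) ∣ e i.succ - e 0 := by
    intro i
    have h1 := congrFun (congrArg Multiplicative.toAdd hlog) i
    have h2 : logInf w ℓ m ((∏ j, torsionUnit ha (expo b) j ^ e j) * z ^ ℓ) =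
        ∏ j, (logInf w ℓ m (torsionUnit ha (expo b) j)) ^ e j := by
      rw [map_mul, map_prod, map_pow]
      have h3 : (logInf w ℓ m z) ^ ℓ = 1 := by
        apply Multiplicative.toAdd.injective
        rw [toAdd_pow, toAdd_one]
        funext k
        rw [Pi.smul_apply, nsmul_eq_mul, ZMod.natCast_self, zero_mul]
        rfl
      rw [h3, mul_one]
      refine Finset.prod_congr rfl fun j _ => ?_
      rw [map_zpow]
    rw [h2, toAdd_prod, toAdd_one, Finset.sum_apply, Fin.sum_univ_succ] at h1
    rw [Finset.sum_eq_single i] at h1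
    · rw [toAdd_zpow, toAdd_zpow, Pi.smul_apply, Pi.smul_apply, logInf_torsionUnit hc hP1,
        logInf_torsionUnit hc hP1, if_pos rfl, if_neg (Fin.succ_ne_zero i), if_pos rfl,
        zsmul_eq_mul, zsmul_eq_mul] at h1
      have h4 : ((e 0 - e i.succ : ℤ) : ZMod ℓ) * ((WithZero.log (w P) : ℤ) : ZMod ℓ) = 0 := by
        push_cast
        have h5 : ((0 : Fin m → ZMod ℓ) i) = 0 := rfl
        rw [h5] at h1
        linear_combination h1
      have h6 : ((WithZero.log (w P) : ℤ) : ZMod ℓ) ≠ 0 := by
        rw [Ne, ZMod.intCast_zmod_eq_zero_iff_dvd]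
        exact hP
      have h7 := (mul_eq_zero.1 h4).resolve_right h6
      rw [ZMod.intCast_zmod_eq_zero_iff_dvd] at h7
      rw [← dvd_neg]
      simpa using h7
    · intro k _ hk
      rw [toAdd_zpow, Pi.smul_apply, logInf_torsionUnit hc hP1, if_neg (Fin.succ_ne_zero k),
        if_neg (fun h => hk (Fin.succ_injective _ h)), smul_zero]
    · intro h
      exact absurd (Finset.mem_univ i) h
  have hexp' : ∀ j, ∃ q : ℤ, e j = e 0 + ℓ * q := by
    intro j
    refine Fin.cases ⟨0, by ring⟩ (fun i => ?_) j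
    obtain ⟨q, hq⟩ := hexp i
    exact ⟨q, by linear_combination hq⟩
  choose q hq using hexp'
  have hprod : ∏ j, torsionUnit ha (expo b) j ^ e j =
      (∏ j, torsionUnit ha (expo b) j) ^ e 0 * (∏ j, torsionUnit ha (expo b) j ^ q j) ^ ℓ := by
    rw [← Finset.prod_zpow, ← Finset.prod_pow, ← Finset.prod_mul_distrib]
    refine Finset.prod_congr rfl fun j _ => ?_
    rw [← zpow_natCast, ← zpow_mul, ← zpow_add, mul_comm (q j) (ℓ : ℤ), ← hq j]
  rw [hprod]
  exact Subgroup.mul_mem _ (Subgroup.mul_mem _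
    (Subgroup.zpow_mem _ (prod_torsionUnit_mem' hℓ ha hβ hsum) _) ⟨_, rfl⟩) hz

/-- the order of the torsion group modulo `ℓ`-th powers -/
theorem relIndex_torsionGroup_gen (hℓ : ℓ.Prime) (hc : Function.Injective c)
    (hb : ∀ i, Nat.Coprime (b i) ℓ) (hB : Nat.Coprime (1 + ∑ i, b i) ℓ) (hP1 : 1 < w P)
    (hP : ¬ (ℓ : ℤ) ∣ WithZero.log (w P)) :
    (powGroup ℓ K (m + 1)).relIndex (torsionGroup ℓ (branch c P) (expo b)) = ℓ ^ m := by
  classical
  have ha := branch_injective_gen (P := P) hc hP1
  have hfact : Fact ℓ.Prime := ⟨hℓ⟩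
  set T := torsionGroup ℓ (branch c P) (expo b) with hT
  let Ψ := (logInf w ℓ m).comp T.subtype
  have hker : Ψ.ker = (powGroup ℓ K (m + 1)).subgroupOf T := by
    ext t
    rw [MonoidHom.mem_ker, Subgroup.mem_subgroupOf]
    constructor
    · intro h
      exact mem_powGroup_of_logInf hℓ hc hb hB hP1 hP t.2 h
    · intro h
      exact powGroup_le_ker_logHomJ _ _ h
  have hsurj : Function.Surjective Ψ := by
    intro x
    have hdeg : ((WithZero.log (w P) : ℤ) : ZMod ℓ) ≠ 0 := by
      rw [Ne, ZMod.intCast_zmod_eq_zero_iff_dvd]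
      exact hP
    let N : Fin m → ℤ :=
      fun j => ((-(x.toAdd j) / ((WithZero.log (w P) : ℤ) : ZMod ℓ) : ZMod ℓ).val : ℤ)
    let t : Fin (m + 1) → Kˣ := ∏ j : Fin m, torsionUnit ha (expo b) j.succ ^ N j
    have ht : t ∈ T := by
      refine Subgroup.prod_mem _ fun j _ => Subgroup.zpow_mem _ ?_ _
      exact Subgroup.subset_closure (Or.inr ⟨j.succ, fun i => rfl⟩)
    refine ⟨⟨t, ht⟩, ?_⟩
    apply Multiplicative.toAdd.injective
    funext i
    have h1 : Ψ ⟨t, ht⟩ = ∏ j : Fin m, (logInf w ℓ m (torsionUnit ha (expo b) j.succ)) ^ N j := by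
      change logInf w ℓ m t = _
      simp only [t]
      rw [map_prod]
      refine Finset.prod_congr rfl fun j _ => ?_
      rw [map_zpow]
    rw [h1, toAdd_prod, Finset.sum_apply, Finset.sum_eq_single i]
    · rw [toAdd_zpow, Pi.smul_apply, logInf_torsionUnit hc hP1, if_neg (Fin.succ_ne_zero i),
        if_pos rfl, zsmul_eq_mul]
      simp only [N]
      rw [Int.cast_natCast, ZMod.natCast_zmod_val]
      field_simp
    · intro k _ hk
      rw [toAdd_zpow, Pi.smul_apply, logInf_torsionUnit hc hP1, if_neg (Fin.succ_ne_zero k),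
        if_neg (fun h => hk (Fin.succ_injective _ h)), smul_zero]
    · intro h
      exact absurd (Finset.mem_univ i) h
  rw [Subgroup.relIndex, ← hker, Subgroup.index_ker, MonoidHom.range_eq_top.2 hsurj,
    Subgroup.card_top, Nat.card_congr Multiplicative.toAdd, Nat.card_eq_fintype_card,
    Fintype.card_fun, ZMod.card, Fintype.card_fin]

end

end MP72e2e6
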