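import Pool.Agent.Lib.MP_72e2e6_nt.Comp

/-!
# MP_72e2e6_nt: finite places where `P + c i` has valuation divisible by `ℓ`
-/

namespace MP72e2e6

open Polynomial IntermediateField Module

universe u

section finite

variable {M : Type u} [NontriviallyNormedField M] [IsUltrametricDist M] [CompleteSpace M]

/-- a branch point `a i0` whose distance to exactly one other branch point `a j0` is less than
one and is the `ℓ`-th power of an absolute value -/
theorem exists_val_eq_pow' (v : Valuation M (WithZero (Multiplicative ℤ)))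
    (hv : ∀ x y : M, ‖x‖ ≤ ‖y‖ ↔ v x ≤ v y) {n ℓ : ℕ} (hℓ : ℓ ≠ 0) {a : Fin n → M}
    {b : Fin n → ℕ} (hB : Nat.Coprime (∑ i, b i) ℓ) (ha : ∀ i, ‖a i‖ ≤ 1) (i0 j0 : Fin n)
    (hij : j0 ≠ i0) (hb : Nat.Coprime (b i0) ℓ) (hb2 : Nat.Coprime (b i0 + b j0) ℓ)
    (hi0 : ∀ k, k ≠ i0 → k ≠ j0 → ‖a i0 - a k‖ = 1) {s : M} (hs0 : s ≠ 0)
    (hs : ‖a i0 - a j0‖ = ‖s‖ ^ ℓ)
    {d : Fin n → Mˣ} (hd : d ∈ localImage ℓ a b M) :
    ∃ y : Mˣ, v (d i0) = v y ^ ℓ := by
  classical
  let H : Subgroup (Fin n → Mˣ) :=
    { carrier := {d | ∃ y : Mˣ, v (d i0) = v y ^ ℓ}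
      mul_mem' := by
        rintro d e ⟨y, hy⟩ ⟨z, hz⟩
        refine ⟨y * z, ?_⟩
        simp only [Pi.mul_apply, Units.val_mul, map_mul, hy, hz, mul_pow]
      one_mem' := ⟨1, by simp⟩
      inv_mem' := by
        rintro d ⟨y, hy⟩
        refine ⟨y⁻¹, ?_⟩
        simp only [Pi.inv_apply, Units.val_inv_eq_inv_val, map_inv₀, hy, inv_pow] }
  have hle : localImage ℓ a b M ≤ H := by
    refine localImage_le a b H (fun z => ⟨z i0, ?_⟩) ?_
    · simp only [Pi.pow_apply, Units.val_pow_eq_pow_val, map_pow]
    · intro L _ _ _ x w d hx hd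
      let : NontriviallyNormedField L := spectralNorm.nontriviallyNormedField M L
      let : NormedAlgebra M L := spectralNorm.normedAlgebra M L
      have : IsUltrametricDist L :=
        IsUltrametricDist.isUltrametricDist_of_isNonarchimedean_norm
          (isNonarchimedean_spectralNorm (K := M) (L := L))
      simp only [Algebra.algebraMap_self, RingHom.id_apply] at hx hd
      have hxa : ∀ i, x - algebraMap M L (a i) ≠ 0 := by
        intro i h
        have h1 := (d i).ne_zero
        rw [hd i, h, Algebra.norm_zero] at h1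
        exact h1 rfl
      have key : ∃ z : L, ‖x - algebraMap M L (a i0)‖ = ‖z‖ ^ ℓ := by
        have hprod : ∏ i, ‖x - algebraMap M L (a i)‖ ^ (b i) = ‖w‖ ^ ℓ := by
          rw [← norm_pow, ← hx, norm_prod]
          refine Finset.prod_congr rfl fun i _ => ?_
          rw [norm_pow]
        by_cases hx1 : 1 < ‖x‖
        · have h1 : ∀ i, ‖x - algebraMap M L (a i)‖ = ‖x‖ := by
            intro i
            rw [sub_eq_add_neg, IsUltrametricDist.norm_add_eq_max_of_norm_ne_norm]
            · rw [norm_neg, norm_algebraMap', max_eq_left]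
              exact (ha i).trans hx1.le
            · rw [norm_neg, norm_algebraMap']
              exact ((ha i).trans_lt hx1).ne'
          simp only [h1, Finset.prod_pow_eq_pow_sum] at hprod
          rw [h1]
          refine exists_norm_eq_pow hB ?_ hprod
          intro h
          rw [h, norm_zero] at hx1
          exact absurd hx1 (by norm_num)
        · have hx1' : ‖x‖ ≤ 1 := not_lt.1 hx1
          by_cases hlt : ‖x - algebraMap M L (a i0)‖ < 1
          · have h1 : ∀ k, k ≠ i0 → k ≠ j0 → ‖x - algebraMap M L (a k)‖ = 1 := by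
              intro k hk hk'
              have h2 : x - algebraMap M L (a k) =
                  (x - algebraMap M L (a i0)) + algebraMap M L (a i0 - a k) := by
                rw [map_sub]; ring
              rw [h2, IsUltrametricDist.norm_add_eq_max_of_norm_ne_norm]
              · rw [norm_algebraMap', hi0 k hk hk', max_eq_right hlt.le]
              · rw [norm_algebraMap', hi0 k hk hk']
                exact hlt.ne
            have h3 : ‖x - algebraMap M L (a i0)‖ ^ (b i0) *
                ‖x - algebraMap M L (a j0)‖ ^ (b j0) = ‖w‖ ^ ℓ := by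
              rw [← hprod, ← Finset.mul_prod_erase _ _ (Finset.mem_univ i0),
                ← Finset.mul_prod_erase _ _ (Finset.mem_erase.2 ⟨hij, Finset.mem_univ j0⟩),
                Finset.prod_eq_one, mul_one]
              intro k hk
              rw [h1 k (Finset.ne_of_mem_erase (Finset.mem_of_mem_erase hk))
                (Finset.ne_of_mem_erase hk), one_pow]
            have h4 : x - algebraMap M L (a j0) =
                (x - algebraMap M L (a i0)) + algebraMap M L (a i0 - a j0) := by
              rw [map_sub]; ring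
            rcases lt_trichotomy ‖x - algebraMap M L (a i0)‖ ‖a i0 - a j0‖ with h5 | h5 | h5
            · have h6 : ‖x - algebraMap M L (a j0)‖ = ‖s‖ ^ ℓ := by
                rw [h4, IsUltrametricDist.norm_add_eq_max_of_norm_ne_norm]
                · rw [norm_algebraMap', max_eq_right h5.le, hs]
                · rw [norm_algebraMap']
                  exact h5.ne
              have hs' : algebraMap M L s ≠ 0 := by rwa [Ne, map_eq_zero]
              refine exists_norm_eq_pow hb (w := w / (algebraMap M L s) ^ (b j0)) (hxa i0) ?_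
              rw [norm_div, norm_pow, norm_algebraMap', div_pow, ← h3, h6, ← pow_mul, ← pow_mul,
                mul_comm ℓ (b j0), mul_div_cancel_right₀]
              exact pow_ne_zero _ (norm_ne_zero_iff.2 hs0)
            · exact ⟨algebraMap M L s, by rw [norm_algebraMap', h5, hs]⟩
            · have h6 : ‖x - algebraMap M L (a j0)‖ = ‖x - algebraMap M L (a i0)‖ := by
                rw [h4, IsUltrametricDist.norm_add_eq_max_of_norm_ne_norm]
                · rw [norm_algebraMap', max_eq_left h5.le]
                · rw [norm_algebraMap']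
                  exact h5.ne'
              rw [h6, ← pow_add] at h3
              exact exists_norm_eq_pow hb2 (hxa i0) h3
          · refine ⟨1, ?_⟩
            rw [norm_one, one_pow]
            refine le_antisymm ?_ (not_lt.1 hlt)
            rw [sub_eq_add_neg]
            refine le_trans (IsUltrametricDist.norm_add_le_max _ _) (max_le hx1' ?_)
            rw [norm_neg, norm_algebraMap']
            exact ha i0
      obtain ⟨z, hz⟩ := key
      have hz0 : z ≠ 0 := by
        intro h
        rw [h, norm_zero, zero_pow hℓ, norm_eq_zero] at hz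
        exact hxa i0 hz
      have hNz : Algebra.norm M z ≠ 0 := Algebra.norm_ne_zero_iff.2 hz0
      refine ⟨Units.mk0 _ hNz, ?_⟩
      have h1 : ‖(d i0 : M)‖ = ‖(Algebra.norm M z) ^ ℓ‖ := by
        rw [hd i0, norm_algebraNorm, hz, norm_pow, norm_algebraNorm, ← pow_mul, ← pow_mul,
          mul_comm]
      rw [Units.val_mk0, ← map_pow]
      exact le_antisymm ((hv _ _).1 h1.le) ((hv _ _).1 h1.ge)
  exact hle hd

end finite

section

variable {M : Type u} [Field M] [Valued M (WithZero (Multiplicative ℤ))] [CompleteSpace M]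

open scoped Valued in
theorem log_dvd_of_mem_localImage' (hnt : ∃ x : M, Valued.v x ≠ 0 ∧ Valued.v x ≠ 1) {n ℓ : ℕ}
    (hℓ : ℓ ≠ 0) {a : Fin n → M}
    {b : Fin n → ℕ} (hB : Nat.Coprime (∑ i, b i) ℓ) (ha : ∀ i, Valued.v (a i) ≤ 1)
    (i0 j0 : Fin n) (hij : j0 ≠ i0)
    (hb : Nat.Coprime (b i0) ℓ) (hb2 : Nat.Coprime (b i0 + b j0) ℓ)
    (hi0 : ∀ k, k ≠ i0 → k ≠ j0 → Valued.v (a i0 - a k) = 1) {s : M} (hs0 : s ≠ 0)
    (hs : Valued.v (a i0 - a j0) = Valued.v s ^ ℓ)
    {d : Fin n → Mˣ} (hd : d ∈ localImage ℓ a b M) :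
    (ℓ : ℤ) ∣ WithZero.log (Valued.v (d i0 : M)) := by
  obtain ⟨hr⟩ := nonempty_rankOne hnt
  let : NontriviallyNormedField M :=
    Valued.toNontriviallyNormedField M (WithZero (Multiplicative ℤ))
  have hv : ∀ x y : M, ‖x‖ ≤ ‖y‖ ↔ Valued.v x ≤ Valued.v y :=
    fun x y => Valued.toNormedField.norm_le_iff
  have hone : ∀ x : M, ‖x‖ = 1 ↔ Valued.v x = 1 := by
    intro x
    have h1 := hv x 1
    have h2 := hv 1 x
    rw [norm_one, map_one] at h1 h2
    exact ⟨fun h => le_antisymm (h1.1 h.le) (h2.1 h.ge),
      fun h => le_antisymm (h1.2 h.le) (h2.2 h.ge)⟩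
  have heq : ‖a i0 - a j0‖ = ‖s‖ ^ ℓ := by
    rw [← norm_pow]
    rw [← map_pow] at hs
    exact le_antisymm ((hv _ _).2 hs.le) ((hv _ _).2 hs.ge)
  obtain ⟨y, hy⟩ := exists_val_eq_pow' Valued.v hv hℓ hB
    (fun i => by have := hv (a i) 1; rw [norm_one, map_one] at this; exact this.2 (ha i)) i0 j0
    hij hb hb2 (fun k hk hk' => (hone _).2 (hi0 k hk hk')) hs0 heq hd
  rw [hy, WithZero.log_pow, nsmul_eq_mul]
  exact dvd_mul_right _ _

end

end MP72e2e6
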