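import Pool.Agent.Lib.MP_72e2e6_nt.GComp
import Pool.Agent.Lib.MP_72e2e6_nt.GLoc
import Pool.Agent.Lib.MP_72e2e6_nt.GCount

/-!
# MP_72e2e6_nt: the bound for the Selmer group over a general global field
-/

namespace MP72e2e6

open IsDedekindDomain WithZero

variable {F : Type*} [Field F] [Finite F] {R K : Type*} [CommRing R] [IsDedekindDomain R] [Field K]
  [Algebra R K] [IsFractionRing R K] [Algebra F R] [Algebra F K] [IsScalarTower F R K]
  {w : Valuation K (WithZero (Multiplicative ℤ))} {ℓ m e : ℕ} {c : Fin m → F} {b : Fin m → ℕ}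
  {P : R}

omit [Finite F] in
theorem valuation_branch_le_gen (v : HeightOneSpectrum R) (k : Fin (m + 1)) :
    v.valuation K (branch c (algebraMap R K P) k) ≤ 1 := by
  refine Fin.cases ?_ (fun k => ?_) k
  · rw [branch_zero, Valuation.map_neg]
    exact v.valuation_le_one P
  · rw [branch_succ, IsScalarTower.algebraMap_apply F R K]
    exact v.valuation_le_one _

omit [Finite F] in
theorem valuation_branch_sub_gen (hc : Function.Injective c) (v : HeightOneSpectrum R) (i : Fin m)
    (hv : P + algebraMap F R (c i) ∉ v.asIdeal) (k : Fin (m + 1)) (hk : k ≠ i.succ) :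
    v.valuation K (branch c (algebraMap R K P) i.succ - branch c (algebraMap R K P) k) = 1 := by
  revert hk
  refine Fin.cases (fun _ => ?_) (fun k hk => ?_) k
  · have h1 : branch c (algebraMap R K P) i.succ - branch c (algebraMap R K P) 0 =
        algebraMap R K (P + algebraMap F R (c i)) := by
      rw [branch_succ, branch_zero, IsScalarTower.algebraMap_apply F R K, map_add]
      ring
    rw [h1, HeightOneSpectrum.valuation_eq_one_iff_notMem]
    exact hv
  · have h1 : branch c (algebraMap R K P) i.succ - branch c (algebraMap R K P) k.succ =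
        algebraMap R K (algebraMap F R (c i - c k)) := by
      rw [branch_succ, branch_succ, IsScalarTower.algebraMap_apply F R K,
        IsScalarTower.algebraMap_apply F R K, map_sub, map_sub]
    have h2 : c i - c k ≠ 0 := sub_ne_zero.2 fun h => hk (congrArg Fin.succ (hc h).symm)
    rw [h1, HeightOneSpectrum.valuation_eq_one_iff_notMem]
    intro h3
    exact v.isPrime.ne_top (Ideal.eq_top_of_isUnit_mem _ h3
      ((isUnit_iff_ne_zero.2 h2).map (algebraMap F R)))

omit [Finite F] in
/-- finite places -/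
theorem log_dvd_of_mem_places (hℓ : ℓ.Prime) (hc : Function.Injective c)
    (hb : ∀ i, Nat.Coprime (b i) ℓ) (hB : Nat.Coprime (1 + ∑ i, b i) ℓ)
    {d : Fin (m + 1) → Kˣ}
    (hd : d ∈ placesSelmer R w ℓ (branch c (algebraMap R K P)) (expo b))
    (i : Fin m) (v : HeightOneSpectrum R) (hv : P + algebraMap F R (c i) ∉ v.asIdeal) :
    (ℓ : ℤ) ∣ WithZero.log (v.valuation K (d i.succ : K)) := by
  classical
  set a := branch c (algebraMap R K P) with hadef
  have hdv : baseChange (v.adicCompletion K) d ∈ localImage ℓ a (expo b) (v.adicCompletion K) :=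
    (Subgroup.mem_iInf.1 (Subgroup.mem_inf.1 (Subgroup.mem_inf.1 hd).2).1) v
  have h1 := log_dvd_of_mem_localImage (M := v.adicCompletion K)
    (nontriv_adic v) hℓ.ne_zero
    (a := fun k => algebraMap K (v.adicCompletion K) (a k))
    (b := expo b) (by rw [sum_expo]; exact hB) (fun k => ?_) i.succ (coprime_expo_of ℓ hb _)
    (fun k hk => ?_) hdv
  · have h2 : ((baseChange (v.adicCompletion K) d i.succ :
        (v.adicCompletion K)ˣ) : v.adicCompletion K) =
        algebraMap K (v.adicCompletion K) (d i.succ : K) := rfl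
    rw [h2, valued_adic] at h1
    exact h1
  · rw [valued_adic]
    exact valuation_branch_le_gen v k
  · rw [← map_sub, valued_adic]
    exact valuation_branch_sub_gen hc v i hv k hk

omit [Finite F] in
/-- finite places where the valuation of `P + c i` is divisible by `ℓ` -/
theorem log_dvd_of_mem_places' (hℓ : ℓ.Prime) (hc : Function.Injective c)
    (hb : ∀ i, Nat.Coprime (b i) ℓ) (hB : Nat.Coprime (1 + ∑ i, b i) ℓ)
    {d : Fin (m + 1) → Kˣ}
    (hd : d ∈ placesSelmer R w ℓ (branch c (algebraMap R K P)) (expo b))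
    (i : Fin m) (v : HeightOneSpectrum R) (hne : P + algebraMap F R (c i) ≠ 0)
    (hv : (ℓ : ℤ) ∣ WithZero.log (v.intValuation (P + algebraMap F R (c i))))
    (hbi : ¬ ℓ ∣ b i + 1) :
    (ℓ : ℤ) ∣ WithZero.log (v.valuation K (d i.succ : K)) := by
  classical
  set a := branch c (algebraMap R K P) with hadef
  have hdv : baseChange (v.adicCompletion K) d ∈ localImage ℓ a (expo b) (v.adicCompletion K) :=
    (Subgroup.mem_iInf.1 (Subgroup.mem_inf.1 (Subgroup.mem_inf.1 hd).2).1) v
  obtain ⟨k, hk⟩ := hv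
  obtain ⟨s, hs⟩ := v.valuation_surjective K (WithZero.exp k)
  have hs0 : s ≠ 0 := by
    rintro rfl
    rw [map_zero] at hs
    exact WithZero.exp_ne_zero hs.symm
  have hint0 : v.intValuation (P + algebraMap F R (c i)) ≠ 0 := v.intValuation_ne_zero _ hne
  have hval : v.valuation K (a i.succ - a 0) = v.valuation K s ^ ℓ := by
    have h1 : a i.succ - a 0 = algebraMap R K (P + algebraMap F R (c i)) := by
      rw [hadef, branch_succ, branch_zero, IsScalarTower.algebraMap_apply F R K, map_add]
      ring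
    rw [h1, HeightOneSpectrum.valuation_of_algebraMap, hs, ← WithZero.exp_nsmul, nsmul_eq_mul,
      ← hk, WithZero.exp_log hint0]
  have h1 := log_dvd_of_mem_localImage' (M := v.adicCompletion K)
    (nontriv_adic v) hℓ.ne_zero
    (a := fun k => algebraMap K (v.adicCompletion K) (a k))
    (b := expo b) (by rw [sum_expo]; exact hB) (fun k => ?_) i.succ 0 (Fin.succ_ne_zero i).symm
    (coprime_expo_of ℓ hb _)
    (by
      rw [expo_zero, expo_succ]
      exact ((Nat.Prime.coprime_iff_not_dvd hℓ).2 hbi).symm)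
    (fun k hk hk0 => ?_) (s := algebraMap K (v.adicCompletion K) s)
    (by rwa [Ne, map_eq_zero]) ?_ hdv
  · have h2 : ((baseChange (v.adicCompletion K) d i.succ :
        (v.adicCompletion K)ˣ) : v.adicCompletion K) =
        algebraMap K (v.adicCompletion K) (d i.succ : K) := rfl
    rw [h2, valued_adic] at h1
    exact h1
  · rw [valued_adic]
    exact valuation_branch_le_gen v k
  · rw [← map_sub, valued_adic]
    obtain ⟨k', rfl⟩ := Fin.exists_succ_eq.2 hk0
    have h1 : a i.succ - a k'.succ = algebraMap R K (algebraMap F R (c i - c k')) := by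
      rw [hadef, branch_succ, branch_succ, IsScalarTower.algebraMap_apply F R K,
        IsScalarTower.algebraMap_apply F R K, map_sub, map_sub]
    have h2 : c i - c k' ≠ 0 := sub_ne_zero.2 fun h => hk (congrArg Fin.succ (hc h).symm)
    rw [h1, HeightOneSpectrum.valuation_eq_one_iff_notMem]
    intro h3
    exact v.isPrime.ne_top (Ideal.eq_top_of_isUnit_mem _ h3
      ((isUnit_iff_ne_zero.2 h2).map (algebraMap F R)))
  · rw [← map_sub, valued_adic, valued_adic]
    exact hval

omit [Finite F] in
/-- if the valuations of `d (i + 1)` at the bad primes of `P + c i` are divisible by `ℓ`, then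
all valuations at the primes of `R` are -/
theorem mem_ellSubgroup_of_mem_places (hℓ : ℓ.Prime) (hc : Function.Injective c)
    (hb : ∀ i, Nat.Coprime (b i) ℓ) (hB : Nat.Coprime (1 + ∑ i, b i) ℓ)
    {d : Fin (m + 1) → Kˣ}
    (hd : d ∈ placesSelmer R w ℓ (branch c (algebraMap R K P)) (expo b))
    (hne : ∀ i, P + algebraMap F R (c i) ≠ 0)
    (hval : ∀ (i : Fin m), ∀ v ∈ badPrimes ℓ (P + algebraMap F R (c i)) (b i),
      (ℓ : ℤ) ∣ WithZero.log (v.valuation K (d i.succ : K))) (k : Fin (m + 1)) :
    d k ∈ ellSubgroup R K ℓ := by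
  classical
  have hall : ∀ (i : Fin m) (v : HeightOneSpectrum R),
      (ℓ : ℤ) ∣ WithZero.log (v.valuation K (d i.succ : K)) := by
    intro i v
    by_cases hbad : v ∈ badPrimes ℓ (P + algebraMap F R (c i)) (b i)
    · exact hval i v hbad
    by_cases hv : P + algebraMap F R (c i) ∈ v.asIdeal
    · have h1 : ¬ (¬ (ℓ : ℤ) ∣ WithZero.log (v.intValuation (P + algebraMap F R (c i))) ∨
          ℓ ∣ b i + 1) := fun h => hbad ⟨hv, h⟩
      rw [not_or, not_not] at h1
      exact log_dvd_of_mem_places' hℓ hc hb hB hd i v (hne i) h1.1 h1.2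
    · exact log_dvd_of_mem_places hℓ hc hb hB hd i v hv
  refine Fin.cases ?_ (fun i => hall i) k
  intro v
  have hdv : baseChange (v.adicCompletion K) d ∈
      localImage ℓ (branch c (algebraMap R K P)) (expo b) (v.adicCompletion K) :=
    (Subgroup.mem_iInf.1 (Subgroup.mem_inf.1 (Subgroup.mem_inf.1 hd).2).1) v
  obtain ⟨y, hy⟩ := exists_prod_eq_pow hdv
  have h1 : algebraMap K (v.adicCompletion K) (∏ i, (d i : K) ^ (expo b i)) = y ^ ℓ := by
    rw [← hy, map_prod]
    refine Finset.prod_congr rfl fun i _ => ?_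
    rw [map_pow]
    rfl
  have h2 := congrArg (fun x => WithZero.log (Valued.v x)) h1
  simp only [valued_adic, map_pow, WithZero.log_pow] at h2
  rw [Fin.prod_univ_succ, expo_zero, pow_one, map_mul,
    WithZero.log_mul (unit_valuation_ne_zero _ _)
      ((Valuation.ne_zero_iff _).2 (Finset.prod_ne_zero_iff.2 fun i _ => pow_ne_zero _ (d _).ne_zero)),
    nsmul_eq_mul] at h2
  have h3 : (ℓ : ℤ) ∣ WithZero.log (v.valuation K (∏ i : Fin m, (d i.succ : K) ^ (expo b i.succ))) := by
    have h4 : ∀ s : Finset (Fin m),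
        (ℓ : ℤ) ∣ WithZero.log (v.valuation K (∏ i ∈ s, (d i.succ : K) ^ (expo b i.succ))) := by
      intro s
      induction s using Finset.induction_on with
      | empty => simp
      | insert i s hi ih =>
        rw [Finset.prod_insert hi, map_mul, WithZero.log_mul
          ((Valuation.ne_zero_iff _).2 (pow_ne_zero _ (d _).ne_zero))
          ((Valuation.ne_zero_iff _).2 (Finset.prod_ne_zero_iff.2 fun i _ =>
            pow_ne_zero _ (d _).ne_zero)), map_pow, WithZero.log_pow, nsmul_eq_mul]
        exact dvd_add ((hall i v).mul_left _) ih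
    exact h4 _
  have h5 : WithZero.log (v.valuation K (d 0 : K)) = (ℓ : ℤ) * WithZero.log (Valued.v y) -
      WithZero.log (v.valuation K (∏ i : Fin m, (d i.succ : K) ^ (expo b i.succ))) := by
    linear_combination h2
  rw [h5]
  exact dvd_sub (dvd_mul_right _ _) h3

/-- the class at infinity of a Selmer element comes from the torsion -/
theorem exists_torsion_of_mem_places (hℓ : ℓ.Prime) (hℓF : ℓ ∣ Nat.card F - 1)
    (he : e ≠ 0) (hw : ∀ x : K, w x ≤ 1 → w (x ^ Nat.card F ^ e - x) < 1)
    (hc : Function.Injective c)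
    (hb : ∀ i, Nat.Coprime (b i) ℓ) (hB : Nat.Coprime (1 + ∑ i, b i) ℓ)
    (hP1 : 1 < w (algebraMap R K P)) (hP : ¬ (ℓ : ℤ) ∣ WithZero.log (w (algebraMap R K P)))
    {d : Fin (m + 1) → Kˣ}
    (hd : d ∈ placesSelmer R w ℓ (branch c (algebraMap R K P)) (expo b)) :
    ∃ t ∈ torsionGroup ℓ (branch c (algebraMap R K P)) (expo b),
      ∃ z : Fin (m + 1) → (w.Completion)ˣ,
        ∀ i, algebraMap K w.Completion ((d i : K) / (t i : K)) = (z i : w.Completion) ^ ℓ := by
  have ha := branch_injective_gen (c := c) hc hP1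
  set a := branch c (algebraMap R K P) with hadef
  have hdinf' : baseChange w.Completion d ∈ localImage ℓ a (expo b) w.Completion :=
    (Subgroup.mem_inf.1 (Subgroup.mem_inf.1 hd).2).2
  let : Algebra F w.Completion :=
    ((algebraMap K w.Completion).comp (algebraMap F K)).toAlgebra
  set P' := algebraMap K w.Completion (algebraMap R K P) with hP'
  have hbr : branch c P' = fun i => algebraMap K w.Completion (a i) := by
    funext i
    refine Fin.cases ?_ (fun i => ?_) i
    · rw [hadef, branch_zero, branch_zero, map_neg]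
    · rw [hadef, branch_succ, branch_succ]
      rfl
  have hvP : Valued.v P' = w (algebraMap R K P) := valued_comp w _
  have hloc : localImage ℓ (branch c P') (expo b) w.Completion ≤
      torsionGroup ℓ (branch c P') (expo b) := by
    refine localImage_le_torsionGroup_res (nontriv_comp w hP1) he
      (fun y hy => res_comp w hw y hy) hℓ hℓF hc hb hB ?_ ?_
    · rw [hvP]
      exact hP1
    · rw [hvP]
      exact hP
  have hmem : baseChange w.Completion d ∈
      torsionGroup ℓ (fun i => algebraMap K w.Completion (a i)) (expo b) := by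
    rw [← hbr]
    refine hloc ?_
    have h1 : localImage ℓ (branch c P') (expo b) w.Completion =
        localImage ℓ a (expo b) w.Completion := by
      rw [hbr]
      rfl
    rw [h1]
    exact hdinf'
  obtain ⟨t, ht, z, hz⟩ := exists_of_mem_torsionGroup ha _ hmem
  refine ⟨t, ht, z, fun i => ?_⟩
  have h1 : algebraMap K w.Completion (d i : K) =
      algebraMap K w.Completion (t i : K) * (z i : w.Completion) ^ ℓ := by
    have h2 := congrArg (fun x : Fin (m + 1) → (w.Completion)ˣ =>
      ((x i : (w.Completion)ˣ) : w.Completion)) hz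
    exact h2
  have h3 : algebraMap K w.Completion (t i : K) ≠ 0 := by
    rw [Ne, map_eq_zero]
    exact (t i).ne_zero
  rw [map_div₀, h1, mul_div_cancel_left₀ _ h3]

/-- Selmer elements with trivial classes are `ℓ`-th powers -/
theorem mem_powGroup_of_mem_places (hunits : ∀ u : Rˣ, ∃ α : F, algebraMap F R α = u)
    (hℓ : ℓ.Prime) (hℓF : ℓ ∣ Nat.card F - 1)
    (he : ¬ ℓ ∣ e) (hw : ∀ x : K, w x ≤ 1 → w (x ^ Nat.card F ^ e - x) < 1)
    (hc : Function.Injective c)
    (hb : ∀ i, Nat.Coprime (b i) ℓ) (hB : Nat.Coprime (1 + ∑ i, b i) ℓ)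
    (hP1 : 1 < w (algebraMap R K P)) (hP : ¬ (ℓ : ℤ) ∣ WithZero.log (w (algebraMap R K P)))
    {d : Fin (m + 1) → Kˣ}
    (hd : d ∈ placesSelmer R w ℓ (branch c (algebraMap R K P)) (expo b))
    (hell : ∀ k : Fin m, d k.succ ∈ ellSubgroup R K ℓ)
    (hclass : ∀ k : Fin m, rootClass hℓ.ne_zero (⟨d k.succ, hell k⟩ : ellSubgroup R K ℓ) = 1) :
    d ∈ powGroup ℓ K (m + 1) := by
  classical
  have he0 : e ≠ 0 := fun h => he (h ▸ dvd_zero ℓ)
  have hform' : ∀ k : Fin m, ∃ (α : F) (z : Kˣ),
      (d k.succ : K) = algebraMap F K α * (z : K) ^ ℓ := by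
    intro k
    obtain ⟨u, z, h⟩ := exists_unit_mul_pow_of_rootClass hℓ.ne_zero _ (hclass k)
    obtain ⟨α, hα⟩ := hunits u
    refine ⟨α, z, ?_⟩
    rw [IsScalarTower.algebraMap_apply F R K, hα]
    exact h
  have hform : ∀ k, ∃ (α : F) (z : Kˣ), (d k : K) = algebraMap F K α * (z : K) ^ ℓ := by
    refine Fin.cases ?_ hform'
    choose α z hz using hform'
    have hα0 : ∀ k, algebraMap F K (α k) ≠ 0 := by
      intro k h
      have h1 := (d k.succ).ne_zero
      rw [hz k, h, zero_mul] at h1
      exact h1 rfl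
    obtain ⟨y, hy⟩ := (Subgroup.mem_inf.1 hd).1
    refine ⟨∏ i : Fin m, (α i ^ b i)⁻¹, y * (∏ i : Fin m, z i ^ b i)⁻¹, ?_⟩
    have h1 := congrArg (fun x : Kˣ => (x : K)) hy
    simp only [Fin.prod_univ_succ, expo_zero, expo_succ, pow_one, Units.val_mul,
      Units.coe_prod, Units.val_pow_eq_pow_val, hz, mul_pow, Finset.prod_mul_distrib] at h1
    have h2 : ∏ i : Fin m, algebraMap F K (α i) ^ b i ≠ 0 :=
      Finset.prod_ne_zero_iff.2 fun i _ => pow_ne_zero _ (hα0 i)
    have h3 : ∏ i : Fin m, (z i : K) ^ b i ≠ 0 :=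
      Finset.prod_ne_zero_iff.2 fun i _ => pow_ne_zero _ (z i).ne_zero
    have h4 : ∏ i : Fin m, ((z i : K) ^ ℓ) ^ b i = (∏ i : Fin m, (z i : K) ^ b i) ^ ℓ := by
      rw [← Finset.prod_pow]
      exact Finset.prod_congr rfl fun i _ => by rw [← pow_mul, ← pow_mul, mul_comm]
    rw [h4] at h1
    rw [map_prod, Units.val_mul, Units.val_inv_eq_inv_val, Units.coe_prod]
    simp only [map_inv₀, map_pow, Units.val_pow_eq_pow_val, Finset.prod_inv_distrib]
    rw [mul_pow, inv_pow, ← h1]
    field_simp
  choose α z hz using hform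
  have hα0 : ∀ k, α k ≠ 0 := by
    intro k h
    have h1 := (d k).ne_zero
    rw [hz k, h, map_zero, zero_mul] at h1
    exact h1 rfl
  obtain ⟨t, ht, y, hy⟩ := exists_torsion_of_mem_places hℓ hℓF he0 hw hc hb hB hP1 hP hd
  have hlogt : logInf w ℓ m t = 1 := by
    rw [logInf, logHomJ_eq_one_iff]
    intro i
    have h2 := congrArg (fun x => WithZero.log (Valued.v x)) (hy i.succ)
    simp only [valued_comp, map_div₀, map_pow, WithZero.log_pow] at h2
    rw [WithZero.log_div (unit_valuation_ne_zero _ _) (unit_valuation_ne_zero _ _),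
      nsmul_eq_mul, hz i.succ, map_mul, valuation_const w (hα0 _), one_mul, map_pow,
      WithZero.log_pow, nsmul_eq_mul] at h2
    have h3 : WithZero.log (w ((t i.succ : Kˣ) : K)) = (ℓ : ℤ) * WithZero.log (w (z i.succ : K)) -
        ℓ * WithZero.log (Valued.v (y i.succ : w.Completion)) := by
      linear_combination -h2
    rw [h3]
    exact dvd_sub (dvd_mul_right _ _) (dvd_mul_right _ _)
  obtain ⟨s, hs⟩ := mem_powGroup_of_logInf hℓ hc hb hB hP1 hP ht hlogt
  let : Algebra F w.Completion :=
    ((algebraMap K w.Completion).comp (algebraMap F K)).toAlgebra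
  have hconst : ∀ k, ∃ β : F, α k = β ^ ℓ := by
    intro k
    refine exists_const_eq_pow (M := w.Completion) (nontriv_comp w hP1) he0
      (fun y hy => res_comp w hw y hy) hℓ hℓF he
      (y := algebraMap K w.Completion ((s k : K) / (z k : K)) * (y k : w.Completion)) ?_
    have h1 : (t k : K) = (s k : K) ^ ℓ := by
      rw [← hs]
      rfl
    have h2 : algebraMap F w.Completion (α k) =
        algebraMap K w.Completion (algebraMap F K (α k)) := rfl
    have hz0 : (z k : K) ^ ℓ ≠ 0 := pow_ne_zero _ (z k).ne_zero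
    have ht0 : (t k : K) ≠ 0 := (t k).ne_zero
    rw [h2, mul_pow, ← hy k, ← map_pow, ← map_mul, div_pow, ← h1, hz k]
    congr 1
    field_simp
  choose β hβ using hconst
  have hβ0 : ∀ k, algebraMap F K (β k) ≠ 0 := by
    intro k h
    rw [map_eq_zero] at h
    apply hα0 k
    rw [hβ k, h, zero_pow hℓ.ne_zero]
  refine ⟨fun k => Units.mk0 _ (hβ0 k) * z k, ?_⟩
  ext k
  rw [powMonoidHom_apply, Pi.pow_apply, Units.val_pow_eq_pow_val, Units.val_mul, Units.val_mk0,
    hz k, hβ k, map_pow, mul_pow]

/-- The order of the Selmer group modulo `ℓ`-th powers. -/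
theorem relIndex_placesSelmer (hunits : ∀ u : Rˣ, ∃ α : F, algebraMap F R α = u)
    (hℓ : ℓ.Prime) (hℓF : ℓ ∣ Nat.card F - 1)
    (he : ¬ ℓ ∣ e) (hw : ∀ x : K, w x ≤ 1 → w (x ^ Nat.card F ^ e - x) < 1)
    (hc : Function.Injective c)
    (hb : ∀ i, Nat.Coprime (b i) ℓ) (hB : Nat.Coprime (1 + ∑ i, b i) ℓ)
    (hP1 : 1 < w (algebraMap R K P)) (hP : ¬ (ℓ : ℤ) ∣ WithZero.log (w (algebraMap R K P))) :
    (powGroup ℓ K (m + 1)).relIndex
      (placesSelmer R w ℓ (branch c (algebraMap R K P)) (expo b)) ∣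
      Nat.card (powMonoidHom ℓ : ClassGroup R →* ClassGroup R).ker ^ m *
      ℓ ^ (∑ i : Fin m, (badPrimes ℓ (P + algebraMap F R (c i)) (b i)).ncard) := by
  classical
  have hne : ∀ i, P + algebraMap F R (c i) ≠ 0 := by
    intro i h
    have h1 := valuation_sub_zero (c := c) hP1 i
    have h2 : branch c (algebraMap R K P) i.succ - branch c (algebraMap R K P) 0 =
        algebraMap R K (P + algebraMap F R (c i)) := by
      rw [branch_succ, branch_zero, IsScalarTower.algebraMap_apply F R K, map_add]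
      ring
    rw [h2, h, map_zero, map_zero] at h1
    rw [← h1] at hP1
    exact absurd hP1 (not_lt.2 zero_le_one)
  have hfact : Fact ℓ.Prime := ⟨hℓ⟩
  let J := Σ i : Fin m, badPrimes ℓ (P + algebraMap F R (c i)) (b i)
  have hfin : ∀ i, Finite (badPrimes ℓ (P + algebraMap F R (c i)) (b i)) := by
    intro i
    have h1 := Ideal.finite_factors (R := R) (I := Ideal.span {P + algebraMap F R (c i)})
      (by rw [Ne, Ideal.zero_eq_bot, Ideal.span_singleton_eq_bot]; exact hne i)
    exact (h1.subset fun v hv => Ideal.dvd_span_singleton.2 hv.1).to_subtype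
  have hJ : Finite J := inferInstance
  have hcard : Nat.card J =
      ∑ i : Fin m, (badPrimes ℓ (P + algebraMap F R (c i)) (b i)).ncard := by
    rw [Nat.card_sigma]
    rfl
  set S := placesSelmer R w ℓ (branch c (algebraMap R K P)) (expo b) with hS
  let Φ := logHomJ K ℓ (m + 1) (J := J) (fun j => j.2.1.valuation K) (fun j => j.1.succ)
  let S0 := S ⊓ Φ.ker
  have hpowS : powGroup ℓ K (m + 1) ≤ S := by
    rintro _ ⟨z, rfl⟩
    refine Subgroup.mem_inf.2 ⟨⟨∏ i, z i ^ expo b i, ?_⟩,
      Subgroup.mem_inf.2 ⟨Subgroup.mem_iInf.2 fun v => ?_, ?_⟩⟩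
    · rw [powMonoidHom_apply, ← Finset.prod_pow]
      exact Finset.prod_congr rfl fun i _ => by
        rw [Pi.pow_apply, ← pow_mul, ← pow_mul, mul_comm]
    · refine Subgroup.subset_closure (Or.inl ⟨baseChange _ z, ?_⟩)
      rw [powMonoidHom_apply, map_pow]
    · refine Subgroup.subset_closure (Or.inl ⟨baseChange _ z, ?_⟩)
      rw [powMonoidHom_apply, map_pow]
  have hpow0 : powGroup ℓ K (m + 1) ≤ S0 := le_inf hpowS (powGroup_le_ker_logHomJ _ _)
  have hmul := Subgroup.relIndex_mul_relIndex (powGroup ℓ K (m + 1)) S0 S hpow0 inf_le_left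
  rw [← hmul]
  refine mul_dvd_mul ?_ ?_
  · -- the class map
    have hell : ∀ (d : S0) (k : Fin m), d.1 k.succ ∈ ellSubgroup R K ℓ := by
      intro d k
      refine mem_ellSubgroup_of_mem_places (c := c) hℓ hc hb hB (Subgroup.mem_inf.1 d.2).1
        hne (fun i v hv => ?_) k.succ
      exact (logHomJ_eq_one_iff.1 (Subgroup.mem_inf.1 d.2).2) ⟨i, v, hv⟩
    let κ : S0 →* (Fin m → (powMonoidHom ℓ : ClassGroup R →* ClassGroup R).ker) :=
      { toFun := fun d k => rootClass hℓ.ne_zero ⟨d.1 k.succ, hell d k⟩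
        map_one' := by
          funext k
          exact map_one (rootClass (R := R) (K := K) hℓ.ne_zero)
        map_mul' := by
          intro x y
          funext k
          exact map_mul (rootClass (R := R) (K := K) hℓ.ne_zero) ⟨x.1 k.succ, hell x k⟩
            ⟨y.1 k.succ, hell y k⟩ }
    have hker : κ.ker ≤ (powGroup ℓ K (m + 1)).subgroupOf S0 := by
      intro d hd
      rw [Subgroup.mem_subgroupOf]
      refine mem_powGroup_of_mem_places hunits hℓ hℓF he hw hc hb hB hP1 hP
        (Subgroup.mem_inf.1 d.2).1 (hell d) fun k => ?_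
      exact congrFun hd k
    have h1 : (powGroup ℓ K (m + 1)).relIndex S0 ∣ κ.ker.index :=
      Subgroup.index_dvd_of_le hker
    refine h1.trans ?_
    rw [Subgroup.index_ker]
    have h2 : Nat.card (Fin m → (powMonoidHom ℓ : ClassGroup R →* ClassGroup R).ker) =
        Nat.card (powMonoidHom ℓ : ClassGroup R →* ClassGroup R).ker ^ m := by
      rw [Nat.card_fun, Nat.card_eq_fintype_card (α := Fin m), Fintype.card_fin]
    rw [← h2]
    exact Subgroup.card_subgroup_dvd_card _
  · have h1 : S0.relIndex S = (Φ.comp S.subtype).ker.index := by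
      rw [Subgroup.relIndex]
      congr 1
      ext d
      rw [Subgroup.mem_subgroupOf, MonoidHom.mem_ker]
      exact ⟨fun h => (Subgroup.mem_inf.1 h).2, fun h => Subgroup.mem_inf.2 ⟨d.2, h⟩⟩
    rw [h1, Subgroup.index_ker]
    have hfin2 : Finite (Multiplicative (J → ZMod ℓ)) :=
      Finite.of_equiv _ (Multiplicative.ofAdd (α := J → ZMod ℓ))
    have h3 : Nat.card (Multiplicative (J → ZMod ℓ)) = ℓ ^ Nat.card J := by
      rw [Nat.card_congr Multiplicative.toAdd, Nat.card_fun, Nat.card_zmod]
    rw [← hcard, ← h3]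
    exact Subgroup.card_subgroup_dvd_card _

end MP72e2e6
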