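import Pool.Agent.Lib.MP_72e2e6_nt.GSpec
import Pool.Agent.Lib.MP_72e2e6_nt.GRes

/-!
# MP_72e2e6_nt: completions of a general global field
-/

namespace MP72e2e6

open IsDedekindDomain WithZero

section adic

variable {R K : Type*} [CommRing R] [IsDedekindDomain R] [Field K] [Algebra R K]
  [IsFractionRing R K]

theorem valued_adic (v : HeightOneSpectrum R) (x : K) :
    Valued.v (algebraMap K (v.adicCompletion K) x) = v.valuation K x := by
  have h : algebraMap K (v.adicCompletion K) x = (x : v.adicCompletion K) := by
    rw [HeightOneSpectrum.algebraMap_adicCompletion]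
    rfl
  rw [h]
  exact HeightOneSpectrum.adicCompletion.valued_coe K v x

theorem nontriv_adic (v : HeightOneSpectrum R) :
    ∃ x : v.adicCompletion K, Valued.v x ≠ 0 ∧ Valued.v x ≠ 1 := by
  obtain ⟨x, hx⟩ := v.valuation_surjective K (WithZero.exp (-1 : ℤ))
  refine ⟨algebraMap K _ x, ?_, ?_⟩
  · rw [valued_adic, hx]
    exact WithZero.exp_ne_zero
  · rw [valued_adic, hx]
    intro h
    have h1 := congrArg WithZero.log h
    rw [WithZero.log_exp, WithZero.log_one] at h1
    omega

end adic

section completion

variable {K : Type*} [Field K] (w : Valuation K (WithZero (Multiplicative ℤ)))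

theorem valued_comp (x : K) : Valued.v (algebraMap K w.Completion x) = w x := by
  have h : algebraMap K w.Completion x = (((WithVal.equiv w).symm x : WithVal w) : w.Completion) :=
    rfl
  rw [h, Valued.valuedCompletion_apply]
  rfl

theorem denseRange_comp : DenseRange (algebraMap K w.Completion) := by
  have h1 : DenseRange ((↑) : WithVal w → w.Completion) :=
    UniformSpace.Completion.denseRange_coe (α := WithVal w)
  have h2 : (algebraMap K w.Completion : K → w.Completion) =
      ((↑) : WithVal w → w.Completion) ∘ (WithVal.equiv w).symm := rfl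
  rw [h2]
  unfold DenseRange
  rw [(WithVal.equiv w).symm.surjective.range_comp]
  exact h1

theorem res_comp {Q : ℕ} (hw : ∀ x : K, w x ≤ 1 → w (x ^ Q - x) < 1) (y : w.Completion)
    (hy : Valued.v y ≤ 1) : Valued.v (y ^ Q - y) < 1 := by
  have hopen : IsOpen {z : w.Completion | Valued.v (y - z) < 1} := by
    have h1 := Valued.isOpen_ball w.Completion
      (1 : MonoidWithZeroHom.ValueGroup₀ (.ofClass
        (Valued.v : Valuation w.Completion (WithZero (Multiplicative ℤ)))))
    have h2 := h1.preimage (continuous_const.sub continuous_id : Continuous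
      fun z : w.Completion => y - z)
    convert h2 using 1
    ext z
    simp
  obtain ⟨x, hx⟩ := (denseRange_comp w).exists_mem_open hopen ⟨y, by simp⟩
  set X := algebraMap K w.Completion x with hX
  have hvX : Valued.v X ≤ 1 := by
    have h1 : X = y - (y - X) := by ring
    rw [h1]
    exact (Valuation.map_sub _ _ _).trans (max_le hy (le_of_lt hx))
  have hx1 : w x ≤ 1 := by
    rw [← valued_comp]
    exact hvX
  have h2 : y ^ Q - y = (y ^ Q - X ^ Q) + ((X ^ Q - X) + -(y - X)) := by ring
  rw [h2]
  refine lt_of_le_of_lt (Valuation.map_add _ _ _) (max_lt ?_ (lt_of_le_of_lt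
    (Valuation.map_add _ _ _) (max_lt ?_ ?_)))
  · have h7 : y ^ Q - X ^ Q = (y - X) * ∑ i ∈ Finset.range Q, y ^ i * X ^ (Q - 1 - i) := by
      rw [mul_comm, Commute.geom_sum₂_mul (Commute.all y X)]
    rw [h7, map_mul]
    have h8 : Valued.v (∑ i ∈ Finset.range Q, y ^ i * X ^ (Q - 1 - i)) ≤ 1 := by
      refine Valuation.map_sum_le _ fun i _ => ?_
      rw [map_mul, map_pow, map_pow]
      exact mul_le_one' (pow_le_one' hy _) (pow_le_one' hvX _)
    calc Valued.v (y - X) * _ ≤ Valued.v (y - X) * 1 := by gcongr
      _ < 1 := by rw [mul_one]; exact hx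
  · rw [hX, ← map_pow, ← map_sub, valued_comp]
    exact hw x hx1
  · rw [Valuation.map_neg]
    exact hx

theorem nontriv_comp {x : K} (h1 : 1 < w x) :
    ∃ y : w.Completion, Valued.v y ≠ 0 ∧ Valued.v y ≠ 1 := by
  refine ⟨algebraMap K _ x, ?_, ?_⟩
  · rw [valued_comp]
    exact (lt_trans zero_lt_one h1).ne'
  · rw [valued_comp]
    exact h1.ne'

end completion

end MP72e2e6
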