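import Pool.Agent.Lib.MP_72e2e6_nt.Infty

/-!
# MP_72e2e6_nt: the local image at infinity, general exponents
-/

namespace MP72e2e6

open Polynomial IntermediateField Module

universe u

theorem exists_eq_pow_of_coprime {M : Type*} [Field M] {e ℓ : ℕ} (he : Nat.Coprime e ℓ) {x w : M}
    (hx : x ≠ 0) (h : x ^ e = w ^ ℓ) : ∃ z : M, x = z ^ ℓ := by
  have h2 := Nat.gcd_eq_gcd_ab e ℓ
  rw [he] at h2
  refine ⟨w ^ (Nat.gcdA e ℓ) * x ^ (Nat.gcdB e ℓ), ?_⟩
  rw [mul_pow, ← zpow_natCast, ← zpow_natCast, ← zpow_mul,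
    ← zpow_mul, mul_comm (Nat.gcdA e ℓ) (ℓ : ℤ), zpow_mul, zpow_natCast, ← h, ← zpow_natCast,
    ← zpow_mul, ← zpow_add₀ hx, mul_comm (Nat.gcdB e ℓ) (ℓ : ℤ), ← h2]
  simp

section trick

variable {F : Type*} [Field F] [Finite F]
  {M : Type u} [NontriviallyNormedField M] [IsUltrametricDist M] [CompleteSpace M] [Algebra F M]
  {L : Type u} [NontriviallyNormedField L] [IsUltrametricDist L]
  [NormedAlgebra M L] [FiniteDimensional M L] [Algebra F L] [IsScalarTower F M L]

/-- If `Q g` is an `ℓ`-th power with `ℓ` not dividing the valuation of `Q` and `g` a unit, then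
`ℓ` divides the ramified part of the degree and the norms of units are `ℓ`-th powers. -/
theorem unit_trick (p : ℕ) [Fact p.Prime] [CharP F p]
    (hres : ∀ y : M, ‖y‖ ≤ 1 → ∃ α : F, ‖y - algebraMap F M α‖ < 1)
    (v : Valuation M (WithZero (Multiplicative ℤ))) (hv : ∀ x y : M, ‖x‖ ≤ ‖y‖ ↔ v x ≤ v y)
    {ℓ : ℕ} (hℓ : ℓ.Prime) (hℓp : ℓ.Coprime p) (Q : M) (hQ0 : Q ≠ 0)
    (hQ : ¬ (ℓ : ℤ) ∣ WithZero.log (v Q)) (x g h : L) (hx1 : ‖x‖ ≤ 1) (hgn : ‖g‖ = 1)
    (hQg : algebraMap M L Q * g = h ^ ℓ) :
    (∃ k, finrank M L = ℓ * k) ∧ ∀ c : F, ‖x - algebraMap F L c‖ = 1 →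
      ∃ z : M, Algebra.norm M (x - algebraMap F L c) = z ^ ℓ := by
  classical
  have := Fintype.ofFinite F
  have hcompl : CompleteSpace L := FiniteDimensional.complete M L
  have hcharL : CharP L p := charP_of_injective_algebraMap (algebraMap F L).injective p
  have hQpos : 0 < ‖Q‖ := norm_pos_iff.2 hQ0
  have hg0 : g ≠ 0 := by
    intro h
    rw [h, norm_zero] at hgn
    exact zero_ne_one hgn
  obtain ⟨τ, f, hf, hτ, hxτ⟩ := exists_teichmueller hres x hx1
  let M' : IntermediateField M L := M⟮τ⟯
  have hfin1 : FiniteDimensional M M' := inferInstance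
  have hfin2 : FiniteDimensional M' L := inferInstance
  set n' := finrank M' L with hn'
  have hnn : finrank M M' * n' = finrank M L := Module.finrank_mul_finrank M M' L
  have hnpos : 0 < finrank M L := Module.finrank_pos
  have hnormM' : ∀ z : M', Algebra.norm M (algebraMap M' L z) = (Algebra.norm M z) ^ n' := by
    intro z
    rw [← Algebra.norm_norm (S := M'), Algebra.norm_algebraMap, map_pow]
  have hnormg : ‖algebraMap M' L (Algebra.norm M' g)‖ = 1 := by
    have h1 := norm_algebraNorm (M := M) (algebraMap M' L (Algebra.norm M' g))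
    rw [hnormM', Algebra.norm_norm, norm_pow, norm_algebraNorm, hgn, one_pow, one_pow] at h1
    exact (pow_eq_one_iff_of_nonneg (norm_nonneg _) hnpos.ne').1 h1.symm
  have hdvd : ℓ ∣ n' := by
    set h' := Algebra.norm M' h with hh
    have h1 : h' ^ ℓ = (algebraMap M M' Q) ^ n' * Algebra.norm M' g := by
      rw [hh, ← map_pow, ← hQg, map_mul, IsScalarTower.algebraMap_apply M M' L,
        Algebra.norm_algebraMap]
    have h2 : ‖algebraMap M' L h'‖ ^ ℓ = ‖Q‖ ^ n' := by
      rw [← norm_pow, ← map_pow, h1, map_mul, map_pow, norm_mul, hnormg, mul_one, norm_pow,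
        ← IsScalarTower.algebraMap_apply, norm_algebraMap']
    have h0 : algebraMap M' L h' ≠ 0 := by
      intro h3
      rw [h3, norm_zero, zero_pow hℓ.ne_zero] at h2
      exact (pow_pos hQpos n').ne h2
    obtain ⟨y0, hy0⟩ := exists_norm_eq_of_mem_adjoin hres hf hτ (algebraMap M' L h') h'.2 h0
    have h3 : ‖y0 ^ ℓ‖ = ‖Q ^ n'‖ := by rw [norm_pow, norm_pow, ← hy0, h2]
    have h4 : v (y0 ^ ℓ) = v (Q ^ n') := le_antisymm ((hv _ _).1 h3.le) ((hv _ _).1 h3.ge)
    have h5 := congrArg WithZero.log h4
    rw [map_pow, map_pow, WithZero.log_pow, WithZero.log_pow, nsmul_eq_mul, nsmul_eq_mul] at h5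
    have h6 : (ℓ : ℤ) ∣ (n' : ℤ) * WithZero.log (v Q) := ⟨_, h5.symm⟩
    exact Int.natCast_dvd_natCast.1
      (((Nat.prime_iff_prime_int.1 hℓ).dvd_or_dvd h6).resolve_right hQ)
  obtain ⟨n'', hn''⟩ := hdvd
  refine ⟨⟨finrank M M' * n'', by rw [← hnn, hn'']; ring⟩, fun c hxc1 => ?_⟩
  have hτc : ‖τ - algebraMap F L c‖ = 1 := by
    have h1 : τ - algebraMap F L c = (x - algebraMap F L c) + (τ - x) := by ring
    rw [h1, IsUltrametricDist.norm_add_eq_max_of_norm_ne_norm]
    · rw [hxc1, max_eq_left]
      rw [norm_sub_rev]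
      exact hxτ.le
    · rw [hxc1, norm_sub_rev]
      exact hxτ.ne'
  have hτc0 : τ - algebraMap F L c ≠ 0 := by
    intro h
    rw [h, norm_zero] at hτc
    exact zero_ne_one hτc
  obtain ⟨z, hz, -⟩ := exists_pow_eq_of_principal p hℓp
    (y := (x - algebraMap F L c) / (τ - algebraMap F L c)) (by
      have h1 : (x - algebraMap F L c) / (τ - algebraMap F L c) - 1 =
          (x - τ) / (τ - algebraMap F L c) := by
        rw [div_sub_one hτc0]
        congr 1
        ring
      rw [h1, norm_div, hτc, div_one]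
      exact hxτ)
  let t : M' := ⟨τ, IntermediateField.mem_adjoin_simple_self M τ⟩ -
    algebraMap M M' (algebraMap F M c)
  have ht : algebraMap M' L t = τ - algebraMap F L c := by
    simp only [t, map_sub]
    rw [← IsScalarTower.algebraMap_apply M M' L, ← IsScalarTower.algebraMap_apply F M L]
    rfl
  refine ⟨(Algebra.norm M t) ^ n'' * Algebra.norm M z, ?_⟩
  have h2 : x - algebraMap F L c = algebraMap M' L t * z ^ ℓ := by
    rw [ht, hz, mul_div_cancel₀ _ hτc0]
  rw [h2, map_mul, hnormM', map_pow, hn'']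
  ring

end trick

section final

variable {F : Type*} [Field F] [Finite F]
  {M : Type u} [NontriviallyNormedField M] [IsUltrametricDist M] [CompleteSpace M] [Algebra F M]

/-- At infinity the local image is generated by the torsion: the sum of the exponents `b i` is
prime to `ℓ`. -/
theorem localImage_le_torsionGroup_coprime (p : ℕ) [Fact p.Prime] [CharP F p]
    (hres : ∀ y : M, ‖y‖ ≤ 1 → ∃ α : F, ‖y - algebraMap F M α‖ < 1)
    (v : Valuation M (WithZero (Multiplicative ℤ))) (hv : ∀ x y : M, ‖x‖ ≤ ‖y‖ ↔ v x ≤ v y)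
    {ℓ : ℕ} (hℓ : ℓ.Prime) (hℓp : ℓ.Coprime p)
    {m : ℕ} {c : Fin m → F} (hc : Function.Injective c) {b : Fin m → ℕ}
    (hb : ∀ i, Nat.Coprime (b i) ℓ) (hB : Nat.Coprime (∑ i, b i) ℓ)
    (hB1 : Nat.Coprime (1 + ∑ i, b i) ℓ) {P : M}
    (hP1 : 1 < ‖P‖) (hP : ¬ (ℓ : ℤ) ∣ WithZero.log (v P)) :
    localImage ℓ (branch c P) (expo b) M ≤ torsionGroup ℓ (branch c P) (expo b) := by
  classical
  have ha := branch_injective hc hP1
  have hP0 : P ≠ 0 := by
    intro h
    rw [h, norm_zero] at hP1
    exact absurd hP1 (by norm_num)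
  have hPpos : 0 < ‖P‖ := norm_pos_iff.2 hP0
  have hcharM : CharP M p := charP_of_injective_algebraMap (algebraMap F M).injective p
  -- `ℓ` is odd
  have hodd : Even (ℓ - 1) := by
    have h2 : ℓ ≠ 2 := by
      rintro rfl
      rw [Nat.coprime_two_right] at hB hB1
      exact absurd (hB.one_add) (Nat.not_even_iff_odd.2 hB1)
    exact (hℓ.eq_two_or_odd'.resolve_left h2).tsub_odd odd_one
  refine localImage_le _ _ _ mem_torsionGroup_pow ?_
  intro L _ _ _ x w d hx hd
  let : NontriviallyNormedField L := spectralNorm.nontriviallyNormedField M L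
  let : NormedAlgebra M L := spectralNorm.normedAlgebra M L
  have : IsUltrametricDist L :=
    IsUltrametricDist.isUltrametricDist_of_isNonarchimedean_norm
      (isNonarchimedean_spectralNorm (K := M) (L := L))
  let : Algebra F L := ((algebraMap M L).comp (algebraMap F M)).toAlgebra
  have : IsScalarTower F M L := IsScalarTower.of_algebraMap_eq fun _ => rfl
  have hcompl : CompleteSpace L := FiniteDimensional.complete M L
  have hcharL : CharP L p := charP_of_injective_algebraMap (algebraMap F L).injective p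
  have hx' : (x + algebraMap M L P) * ∏ i, (x - algebraMap F L (c i)) ^ (b i) = w ^ ℓ := by
    rw [← hx, Fin.prod_univ_succ]
    simp only [Algebra.algebraMap_self, RingHom.id_apply, branch_zero, branch_succ, expo_zero,
      expo_succ, map_neg, sub_neg_eq_add, pow_one]
    rfl
  have hd0 : (d 0 : M) = Algebra.norm M (x + algebraMap M L P) := by
    rw [hd 0]
    simp only [Algebra.algebraMap_self, RingHom.id_apply, branch_zero, map_neg, sub_neg_eq_add]
  have hds : ∀ i : Fin m, (d i.succ : M) = Algebra.norm M (x - algebraMap F L (c i)) := by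
    intro i
    rw [hd i.succ]
    rfl
  -- `-P - c i` is `-P` times an `ℓ`-th power
  have key : ∀ i, ∃ y : M, -P - algebraMap F M (c i) = -P * y ^ ℓ ∧ y ≠ 0 := by
    intro i
    obtain ⟨y, hy, hy1⟩ := exists_pow_eq_of_principal p hℓp
      (y := (-P - algebraMap F M (c i)) / (-P)) (by
        have h1 : (-P - algebraMap F M (c i)) / (-P) - 1 = algebraMap F M (c i) / P := by
          field_simp
          ring
        rw [h1, norm_div, div_lt_one hPpos]
        exact lt_of_le_of_lt (norm_algebraMap_finite_le _) hP1)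
    refine ⟨y, ?_, ?_⟩
    · rw [hy, mul_div_cancel₀ _ (neg_ne_zero.2 hP0)]
    · intro h
      have h1 := norm_eq_one_of_sub norm_one hy1
      rw [h, norm_zero] at h1
      exact zero_ne_one h1
  choose y hy hy0 using key
  set B := ∑ i, b i with hBdef
  set n := finrank M L with hn
  have hnpos : 0 < n := Module.finrank_pos
  by_cases hx1 : 1 < ‖x‖
  · have hxpos : 0 < ‖x‖ := lt_trans one_pos hx1
    have hx0 : x ≠ 0 := norm_pos_iff.1 hxpos
    have hPL0 : algebraMap M L P ≠ 0 := by rwa [Ne, map_eq_zero]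
    have hNx0 : Algebra.norm M x ≠ 0 := Algebra.norm_ne_zero_iff.2 hx0
    have key2 : ∀ i, ∃ z : L, z ^ ℓ = (x - algebraMap F L (c i)) / x ∧ ‖z - 1‖ < 1 := by
      intro i
      refine exists_pow_eq_of_principal p hℓp ?_
      have h1 : (x - algebraMap F L (c i)) / x - 1 = -(algebraMap F L (c i)) / x := by
        rw [div_sub_one hx0]
        congr 1
        ring
      rw [h1, norm_div, norm_neg, div_lt_one hxpos]
      exact lt_of_le_of_lt (norm_algebraMap_finite_le _) hx1
    choose z hz hz1 using key2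
    have hz0 : ∀ i, z i ≠ 0 := by
      intro i h
      have h1 := norm_eq_one_of_sub norm_one (hz1 i)
      rw [h, norm_zero] at h1
      exact zero_ne_one h1
    have hxc : ∀ i, x - algebraMap F L (c i) = x * z i ^ ℓ := by
      intro i
      rw [hz i, mul_div_cancel₀ _ hx0]
    have hds' : ∀ i : Fin m, (d i.succ : M) = Algebra.norm M x * (Algebra.norm M (z i)) ^ ℓ := by
      intro i
      rw [hds, hxc, map_mul, map_pow]
    set Z := ∏ i, z i ^ (b i) with hZ
    have hZ0 : Z ≠ 0 := Finset.prod_ne_zero_iff.2 fun i _ => pow_ne_zero _ (hz0 i)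
    have hprod : ∏ i, (x - algebraMap F L (c i)) ^ (b i) = x ^ B * Z ^ ℓ := by
      rw [hZ, hBdef, ← Finset.prod_pow_eq_pow_sum, ← Finset.prod_pow, ← Finset.prod_mul_distrib]
      refine Finset.prod_congr rfl fun i _ => ?_
      rw [hxc i]
      ring
    have hmain : (x + algebraMap M L P) * x ^ B = (w / Z) ^ ℓ := by
      rw [div_pow, ← hx', hprod, ← mul_assoc, mul_div_cancel_right₀ _ (pow_ne_zero _ hZ0)]
    rcases lt_trichotomy ‖x‖ ‖P‖ with hlt | heq | hgt
    · -- `1 < |x| < |P|`
      obtain ⟨s, hs, hs1⟩ := exists_pow_eq_of_principal p hℓp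
        (y := (x + algebraMap M L P) / algebraMap M L P) (by
          have h1 : (x + algebraMap M L P) / algebraMap M L P - 1 = x / algebraMap M L P := by
            field_simp
            ring
          rw [h1, norm_div, norm_algebraMap', div_lt_one hPpos]
          exact hlt)
      have hxP : x + algebraMap M L P = algebraMap M L P * s ^ ℓ := by
        rw [hs, mul_div_cancel₀ _ hPL0]
      have hs0 : s ≠ 0 := by
        intro h
        have h1 := norm_eq_one_of_sub norm_one hs1
        rw [h, norm_zero] at h1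
        exact zero_ne_one h1
      have h1 : algebraMap M L P * x ^ B = (w / Z / s) ^ ℓ := by
        rw [div_pow, ← hmain, hxP]
        field_simp
      have h2 : P ^ n * (Algebra.norm M x) ^ B = (Algebra.norm M (w / Z / s)) ^ ℓ := by
        rw [← map_pow, ← map_pow, ← h1, map_mul, Algebra.norm_algebraMap]
      set W := Algebra.norm M (w / Z / s) with hW
      refine mem_torsionGroup_of_pow hB ?_
      refine mem_torsionGroup_of hℓ.ne_zero ha 0 (n * (ℓ - 1)) fun i => ?_
      have hsub : ℓ = (ℓ - 1) + 1 := (Nat.sub_add_cancel hℓ.one_lt.le).symm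
      have hneg : ∀ k : ℕ, (-P) ^ (k * (ℓ - 1)) = P ^ (k * (ℓ - 1)) :=
        fun k => (hodd.mul_left k).neg_pow P
      refine Fin.cases ?_ (fun i => ?_) i
      · have h3 : torsionTuple (branch c P) (expo b) 0 0 =
            ((-P) ^ B * (∏ i, y i ^ (b i)) ^ ℓ)⁻¹ := by
          rw [torsionTuple, if_pos rfl]
          congr 1
          have h2 : ∏ k ∈ Finset.univ.erase (0 : Fin (m + 1)),
              (branch c P 0 - branch c P k) ^ (expo b k) =
              ∏ i : Fin m, (-P - algebraMap F M (c i)) ^ (b i) := by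
            have h3 := Finset.mul_prod_erase Finset.univ
              (fun k => if k = 0 then (1 : M) else (branch c P 0 - branch c P k) ^ (expo b k))
              (Finset.mem_univ (0 : Fin (m + 1)))
            rw [if_pos rfl, one_mul, Fin.prod_univ_succ, if_pos rfl, one_mul] at h3
            rw [Finset.prod_congr rfl (fun k hk => if_neg (Finset.ne_of_mem_erase hk))] at h3
            rw [h3]
            refine Finset.prod_congr rfl fun i _ => ?_
            rw [if_neg (Fin.succ_ne_zero i)]
            simp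
          rw [h2, hBdef, ← Finset.prod_pow_eq_pow_sum, ← Finset.prod_pow,
            ← Finset.prod_mul_distrib]
          refine Finset.prod_congr rfl fun i _ => ?_
          rw [hy i]
          ring
        set Y := ∏ i, y i ^ (b i) with hY
        have hY0 : Y ≠ 0 := Finset.prod_ne_zero_iff.2 fun i _ => pow_ne_zero _ (hy0 i)
        refine ⟨P ^ (n * B) * (Algebra.norm M s) ^ B * Y ^ (n * (ℓ - 1)), ?_⟩
        have h4 : ((-P) ^ B) ^ (n * (ℓ - 1)) = P ^ (B * n * (ℓ - 1)) := by
          rw [← pow_mul, ← mul_assoc]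
          exact hneg (B * n)
        have h5 : (P ^ (n * B)) ^ ℓ = P ^ (n * B) * P ^ (B * n * (ℓ - 1)) := by
          rw [← pow_mul, ← pow_add]
          congr 1
          conv_lhs => rw [hsub]
          ring
        have h6 : P ^ (B * n * (ℓ - 1)) ≠ 0 := pow_ne_zero _ hP0
        have h7 : (Y ^ ℓ) ^ (n * (ℓ - 1)) = (Y ^ (n * (ℓ - 1))) ^ ℓ := by
          rw [← pow_mul, ← pow_mul, mul_comm ℓ]
        have h8 : (Y ^ (n * (ℓ - 1))) ^ ℓ ≠ 0 := pow_ne_zero _ (pow_ne_zero _ hY0)
        have h9 : ((-P) ^ B * Y ^ ℓ) ^ (n * (ℓ - 1)) =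
            P ^ (B * n * (ℓ - 1)) * (Y ^ (n * (ℓ - 1))) ^ ℓ := by rw [mul_pow, h4, h7]
        rw [Pi.pow_apply, Units.val_pow_eq_pow_val, hd0, hxP, map_mul, Algebra.norm_algebraMap,
          map_pow, h3, inv_pow, h9, mul_pow _ _ ℓ, mul_pow _ _ ℓ, h5, ← hn]
        field_simp
        ring
      · refine ⟨W * (Algebra.norm M (z i)) ^ B / (P ^ n * (y i) ^ (n * (ℓ - 1))), ?_⟩
        have hyi := hy0 i
        have h3 : (P ^ n) ^ ℓ = P ^ (n * (ℓ - 1)) * P ^ n := by
          rw [← pow_mul, ← pow_add]
          congr 1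
          conv_lhs => rw [hsub]
          ring
        have h4 : ((y i) ^ ℓ) ^ (n * (ℓ - 1)) = ((y i) ^ (n * (ℓ - 1))) ^ ℓ := by
          rw [← pow_mul, ← pow_mul, mul_comm ℓ]
        have h8 : ((y i) ^ (n * (ℓ - 1))) ^ ℓ ≠ 0 := pow_ne_zero _ (pow_ne_zero _ hyi)
        have h9 : P ^ n ≠ 0 := pow_ne_zero _ hP0
        have h10 : P ^ (n * (ℓ - 1)) ≠ 0 := pow_ne_zero _ hP0
        rw [Pi.pow_apply, Units.val_pow_eq_pow_val, hds', torsionTuple,
          if_neg (Fin.succ_ne_zero i), branch_zero, branch_succ, expo_zero, pow_one, hy i, mul_pow,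
          mul_pow _ _ (n * (ℓ - 1)), hneg, h4, div_pow, mul_pow _ _ ℓ, mul_pow _ _ ℓ, h3, ← h2]
        field_simp
        ring
    · -- `|x| = |P|`
      by_cases hclose : ‖x + algebraMap M L P‖ < ‖P‖
      · refine mem_torsionGroup_of_close p hℓ.ne_zero hℓp ha 0 (by simp) x w d hx hd
          fun i hi => ?_
        have h1 : x - algebraMap M L (branch c P 0) = x + algebraMap M L P := by
          simp
        rw [h1]
        refine lt_of_lt_of_le hclose ?_
        revert hi
        refine Fin.cases (fun h => absurd rfl h) (fun i _ => ?_) i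
        rw [branch_zero, branch_succ, sub_eq_add_neg,
          IsUltrametricDist.norm_add_eq_max_of_norm_ne_norm]
        · rw [norm_neg]
          exact le_max_left _ _
        · rw [norm_neg, norm_neg]
          exact ((norm_algebraMap_finite_le _).trans_lt hP1).ne'
      · have hPL0' := hPL0
        set U := -x / algebraMap M L P with hU
        have hUx : x = algebraMap M L (-P) * U := by
          rw [hU, map_neg]
          field_simp
        have hUn : ‖U‖ = 1 := by
          rw [hU, norm_div, norm_neg, norm_algebraMap', heq, div_self hPpos.ne']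
        have h1U : x + algebraMap M L P = algebraMap M L P * (1 - U) := by
          rw [hU]
          field_simp
          ring
        have h1Un : ‖1 - U‖ = 1 := by
          have h1 : ‖x + algebraMap M L P‖ = ‖P‖ := by
            refine le_antisymm ?_ (not_lt.1 hclose)
            refine le_trans (IsUltrametricDist.norm_add_le_max _ _) ?_
            rw [norm_algebraMap', heq, max_self]
          rw [h1U, norm_mul, norm_algebraMap'] at h1
          exact mul_left_cancel₀ hPpos.ne' (by rw [h1, mul_one])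
        have hQg : algebraMap M L (P * (-P) ^ B) * ((1 - U) * U ^ B) = (w / Z) ^ ℓ := by
          rw [← hmain, h1U]
          conv_rhs => rw [hUx]
          rw [map_mul, map_pow]
          ring
        obtain ⟨⟨k, hk⟩, hcc⟩ := unit_trick p hres v hv hℓ hℓp (P * (-P) ^ B)
          (mul_ne_zero hP0 (pow_ne_zero _ (neg_ne_zero.2 hP0))) (by
            rw [map_mul, map_pow, Valuation.map_neg, ← pow_succ', WithZero.log_pow, nsmul_eq_mul]
            intro h
            rcases (Nat.prime_iff_prime_int.1 hℓ).dvd_or_dvd h with h2 | h2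
            · have h3 : ℓ ∣ B + 1 := Int.natCast_dvd_natCast.1 h2
              rw [add_comm] at h3
              exact (hℓ.coprime_iff_not_dvd.1 hB1.symm) h3
            · exact hP h2) U ((1 - U) * U ^ B) (w / Z) hUn.le
          (by rw [norm_mul, norm_pow, hUn, h1Un, one_pow, one_mul]) hQg
        obtain ⟨z1, hz1'⟩ := hcc 0 (by simpa using hUn)
        obtain ⟨z2, hz2'⟩ := hcc 1 (by rw [map_one, norm_sub_rev]; exact h1Un)
        rw [map_zero, sub_zero] at hz1'
        rw [map_one] at hz2'
        refine mem_torsionGroup_of hℓ.ne_zero ha 0 0 fun i => ?_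
        refine Fin.cases ?_ (fun i => ?_) i
        · refine ⟨P ^ k * ((-1) ^ k * z2), ?_⟩
          have h3 : (1 - U) = algebraMap M L (-1) * (U - 1) := by
            rw [map_neg, map_one]
            ring
          rw [pow_zero, one_mul, hd0, h1U, map_mul, Algebra.norm_algebraMap, h3, map_mul,
            Algebra.norm_algebraMap, hz2', hk, mul_pow, mul_pow, ← pow_mul, ← pow_mul,
            mul_comm ℓ k]
        · refine ⟨(-P) ^ k * z1 * Algebra.norm M (z i), ?_⟩
          rw [pow_zero, one_mul, hds']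
          conv_lhs => rw [hUx]
          rw [map_mul, Algebra.norm_algebraMap, hz1', hk, mul_pow, mul_pow, ← pow_mul,
            mul_comm ℓ k]
    · -- `|x| > |P|`
      obtain ⟨s, hs, hs1⟩ := exists_pow_eq_of_principal p hℓp
        (y := (x + algebraMap M L P) / x) (by
          have h1 : (x + algebraMap M L P) / x - 1 = algebraMap M L P / x := by
            field_simp
            ring
          rw [h1, norm_div, norm_algebraMap', div_lt_one hxpos]
          exact hgt)
      have hxP : x + algebraMap M L P = x * s ^ ℓ := by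
        rw [hs, mul_div_cancel₀ _ hx0]
      have hs0 : s ≠ 0 := by
        intro h
        have h1 := norm_eq_one_of_sub norm_one hs1
        rw [h, norm_zero] at h1
        exact zero_ne_one h1
      have h1 : x ^ (1 + B) = (w / Z / s) ^ ℓ := by
        rw [div_pow, ← hmain, hxP]
        field_simp
        ring
      have h2 : (Algebra.norm M x) ^ (1 + B) = (Algebra.norm M (w / Z / s)) ^ ℓ := by
        rw [← map_pow, ← map_pow, h1]
      obtain ⟨t, ht⟩ := exists_eq_pow_of_coprime hB1 hNx0 h2
      refine mem_torsionGroup_of hℓ.ne_zero ha 0 0 fun i => ?_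
      refine Fin.cases ?_ (fun i => ?_) i
      · refine ⟨t * Algebra.norm M s, ?_⟩
        rw [pow_zero, one_mul, hd0, hxP, map_mul, map_pow, ht]
        ring
      · refine ⟨t * Algebra.norm M (z i), ?_⟩
        rw [pow_zero, one_mul, hds', ht]
        ring
  · have hx1' : ‖x‖ ≤ 1 := not_lt.1 hx1
    by_cases hclose : ∃ j, ‖x - algebraMap F L (c j)‖ < 1
    · obtain ⟨j, hj⟩ := hclose
      refine mem_torsionGroup_of_close p hℓ.ne_zero hℓp ha j.succ (hb j) x w d hx hd
        fun i hi => ?_
      have h1 : ‖x - algebraMap M L (branch c P j.succ)‖ < 1 := hj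
      refine lt_of_lt_of_le h1 ?_
      revert hi
      refine Fin.cases (fun _ => ?_) (fun i hi => ?_) i
      · rw [branch_succ, branch_zero, sub_neg_eq_add,
          IsUltrametricDist.norm_add_eq_max_of_norm_ne_norm]
        · exact le_max_of_le_right hP1.le
        · exact ((norm_algebraMap_finite_le _).trans_lt hP1).ne
      · rw [branch_succ, branch_succ, ← map_sub]
        refine (norm_algebraMap_finite (sub_ne_zero.2 fun h => hi ?_)).ge
        exact congrArg Fin.succ (hc h).symm
    · push Not at hclose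
      obtain ⟨h1, z0, hz0⟩ := norm_eq_pow_of_unit p hres v hv hℓ hℓp c b P hP1 hP x w hx' hx1'
        hclose
      refine mem_torsionGroup_of hℓ.ne_zero ha 0 0 fun i => ?_
      refine Fin.cases ?_ (fun i => ?_) i
      · exact ⟨z0, by rw [pow_zero, one_mul, hd0, hz0]⟩
      · obtain ⟨z, hz⟩ := h1 i
        exact ⟨z, by rw [pow_zero, one_mul, hds, hz]⟩

end final

end MP72e2e6
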