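import Pool.Agent.Lib.MP_72e2e6_nt.Bound

/-!
# MP_72e2e6_nt: Kummer towers
-/

namespace MP72e2e6

open Polynomial IsDedekindDomain WithZero

universe u

/-- irreducibility of `g (X ^ (r ^ n))` -/
theorem irreducible_comp_pow_monic {F : Type u} [Field F] {g : F[X]} (hg : g.Monic)
    (hirr : Irreducible g) {r : ℕ} (hr : r.Prime) (hr2 : r ≠ 2)
    (hN : ∀ x : F, x ^ r ≠ (-1) ^ g.natDegree * g.coeff 0) (n : ℕ) :
    Irreducible (g.comp (X ^ (r ^ n))) := by
  refine Polynomial.irreducible_comp hg (monic_X_pow _) hirr ?_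
  intro E _ _ x hx
  have hint : IsIntegral F x := by
    by_contra h
    rw [minpoly.eq_zero h] at hx
    exact hirr.ne_zero hx.symm
  rw [Polynomial.map_pow, map_X]
  refine X_pow_sub_C_irreducible_of_prime_pow hr hr2 n fun b hb => ?_
  have h1 : Algebra.norm F (IntermediateField.AdjoinSimple.gen F x) =
      (-1) ^ g.natDegree * g.coeff 0 := by
    have h := Algebra.PowerBasis.norm_gen_eq_coeff_zero_minpoly
      (IntermediateField.adjoin.powerBasis hint)
    rw [IntermediateField.adjoin.powerBasis_gen, IntermediateField.adjoin.powerBasis_dim,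
      IntermediateField.minpoly_gen, hx] at h
    exact h
  exact hN (Algebra.norm F b) (by rw [← map_pow, hb, h1])

/-- irreducibility of `P (X ^ (r ^ n)) + c` -/
theorem irreducible_comp_pow_add {F : Type u} [Field F] {P : F[X]} {c : F}
    (hirr : Irreducible (P + C c)) {r : ℕ} (hr : r.Prime) (hr2 : r ≠ 2)
    (hN : ∀ x : F, x ^ r * P.leadingCoeff ≠ (-1) ^ P.natDegree * (P.coeff 0 + c))
    (hP : 0 < P.natDegree) (n : ℕ) :
    Irreducible (P.comp (X ^ (r ^ n)) + C c) := by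
  have hlc : P.leadingCoeff ≠ 0 := by
    rw [Ne, Polynomial.leadingCoeff_eq_zero]
    rintro rfl
    simp at hP
  have hdeg : (P + C c).natDegree = P.natDegree := Polynomial.natDegree_add_C
  have hlcc : (P + C c).leadingCoeff = P.leadingCoeff := by
    rw [Polynomial.leadingCoeff, hdeg, Polynomial.coeff_add, Polynomial.coeff_C_of_ne_zero hP.ne',
      add_zero]
    rfl
  set κ := P.leadingCoeff with hκ
  have hunit : IsUnit (C κ⁻¹ : F[X]) :=
    Polynomial.isUnit_C.2 (isUnit_iff_ne_zero.2 (inv_ne_zero hlc))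
  have hg : (C κ⁻¹ * (P + C c)).Monic := by
    have h := Polynomial.monic_C_mul_of_mul_leadingCoeff_eq_one (p := P + C c) (b := κ⁻¹)
      (by rw [hlcc, inv_mul_cancel₀ hlc])
    exact h
  have hirr' : Irreducible (C κ⁻¹ * (P + C c)) := (irreducible_isUnit_mul hunit).2 hirr
  have hnd : (C κ⁻¹ * (P + C c)).natDegree = P.natDegree := by
    rw [Polynomial.natDegree_C_mul (inv_ne_zero hlc), hdeg]
  have h1 := irreducible_comp_pow_monic hg hirr' hr hr2 (fun x hx => by
    rw [hnd, Polynomial.coeff_C_mul, Polynomial.coeff_add, Polynomial.coeff_C_zero] at hx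
    refine hN x ?_
    rw [hx]
    field_simp) n
  have h2 : (C κ⁻¹ * (P + C c)).comp (X ^ (r ^ n)) =
      C κ⁻¹ * (P.comp (X ^ (r ^ n)) + C c) := by
    rw [Polynomial.mul_comp, Polynomial.add_comp, Polynomial.C_comp, Polynomial.C_comp]
  rw [h2] at h1
  exact (irreducible_isUnit_mul hunit).1 h1

section

variable {F : Type u} [Field F] [Finite F] {ℓ m : ℕ} {c : Fin m → F} {b : Fin m → ℕ} {P : F[X]}

/-- the Selmer groups over the layers `F (t ^ (1 / r ^ n))` of a Kummer tower -/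
theorem selmerGroup_tower (hℓ : ℓ.Prime) (hℓF : ℓ ∣ Nat.card F - 1) (hc : Function.Injective c)
    (hb : ∀ i, ¬ ℓ ∣ b i) (hB : ℓ ∣ ∑ i, b i) (hP : ¬ ℓ ∣ P.natDegree)
    (hirr : ∀ i, Irreducible (P + C (c i))) {r : ℕ} (hr : r.Prime) (hr2 : r ≠ 2) (hrℓ : r ≠ ℓ)
    (hN : ∀ (i : Fin m) (x : F),
      x ^ r * P.leadingCoeff ≠ (-1) ^ P.natDegree * (P.coeff 0 + c i)) (n : ℕ) :
    selmerGroup F ℓ (branch c (algebraMap F[X] (RatFunc F) (P.comp (X ^ (r ^ n))))) (expo b) =
      torsionGroup ℓ (branch c (algebraMap F[X] (RatFunc F) (P.comp (X ^ (r ^ n)))))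
        (expo b) := by
  have hPpos : 0 < P.natDegree := Nat.pos_of_ne_zero fun h => hP (h ▸ dvd_zero ℓ)
  refine selmerGroup_eq hℓ hℓF hc hb hB ?_ fun i =>
    irreducible_comp_pow_add (hirr i) hr hr2 (hN i) hPpos n
  rw [Polynomial.natDegree_comp, Polynomial.natDegree_X_pow, hℓ.dvd_mul, not_or]
  refine ⟨hP, fun h => hrℓ ?_⟩
  have h1 := hℓ.dvd_of_dvd_pow h
  exact ((Nat.prime_dvd_prime_iff_eq hℓ hr).1 h1).symm

end

end MP72e2e6
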