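import Pool.Agent.Lib.MP_72e2e6_nt.GBound
import Pool.Agent.Lib.MP_72e2e6_nt.Tower

/-!
# MP_72e2e6_nt: the main theorem over a general global field
-/

namespace MP72e2e6

open IsDedekindDomain WithZero

section

variable {F : Type*} [Field F] [Finite F] {R K : Type*} [CommRing R] [IsDedekindDomain R] [Field K]
  [Algebra R K] [IsFractionRing R K] [Algebra F R] [Algebra F K] [IsScalarTower F R K]
  {w : Valuation K (WithZero (Multiplicative ℤ))} {ℓ m e : ℕ} {c : Fin m → F} {b : Fin m → ℕ}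
  {P : R}

theorem torsionGroup_le_placesSelmer (hℓ : ℓ.Prime) (hc : Function.Injective c)
    (hb : ∀ i, Nat.Coprime (b i) ℓ) (hP1 : 1 < w (algebraMap R K P)) :
    torsionGroup ℓ (branch c (algebraMap R K P)) (expo b) ≤
      placesSelmer R w ℓ (branch c (algebraMap R K P)) (expo b) := by
  intro t ht
  have ha := branch_injective_gen (c := c) hc hP1
  refine Subgroup.mem_inf.2 ⟨?_, Subgroup.mem_inf.2 ⟨Subgroup.mem_iInf.2 fun v => ?_, ?_⟩⟩
  · obtain ⟨z, hz⟩ := exists_prod_eq_pow_torsion ha ht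
    have hz0 : z ≠ 0 := by
      rintro rfl
      rw [zero_pow hℓ.ne_zero] at hz
      exact Finset.prod_ne_zero_iff.2 (fun i _ => pow_ne_zero _ (t i).ne_zero) hz
    refine ⟨Units.mk0 z hz0, ?_⟩
    ext
    rw [Units.coe_prod, Units.val_pow_eq_pow_val, Units.val_mk0, ← hz]
    exact Finset.prod_congr rfl fun i _ => Units.val_pow_eq_pow_val _ _
  · exact baseChange_mem_localImage hℓ ha (coprime_expo_of ℓ hb) _ ht
  · exact baseChange_mem_localImage hℓ ha (coprime_expo_of ℓ hb) _ ht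

theorem powGroup_le_torsionGroup {n : ℕ} {a : Fin n → K} {β : Fin n → ℕ} :
    powGroup ℓ K n ≤ torsionGroup ℓ a β := by
  rintro _ ⟨z, rfl⟩
  exact Subgroup.subset_closure (Or.inl ⟨z, rfl⟩)

/-- one bad prime for every `i`: the Selmer group is the torsion group -/
theorem placesSelmer_eq (hunits : ∀ u : Rˣ, ∃ α : F, algebraMap F R α = u)
    (hcl : Nat.Coprime (Nat.card (ClassGroup R)) ℓ)
    (hℓ : ℓ.Prime) (hℓF : ℓ ∣ Nat.card F - 1)
    (he : ¬ ℓ ∣ e) (hw : ∀ x : K, w x ≤ 1 → w (x ^ Nat.card F ^ e - x) < 1)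
    (hc : Function.Injective c)
    (hb : ∀ i, Nat.Coprime (b i) ℓ) (hB : Nat.Coprime (1 + ∑ i, b i) ℓ)
    (hP1 : 1 < w (algebraMap R K P)) (hP : ¬ (ℓ : ℤ) ∣ WithZero.log (w (algebraMap R K P)))
    (hone : ∀ i, (badPrimes ℓ (P + algebraMap F R (c i)) (b i)).Subsingleton) :
    placesSelmer R w ℓ (branch c (algebraMap R K P)) (expo b) =
      torsionGroup ℓ (branch c (algebraMap R K P)) (expo b) := by
  classical
  have hle := torsionGroup_le_placesSelmer (ℓ := ℓ) (P := P) hℓ hc hb hP1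
  refine le_antisymm ?_ hle
  have h1 := relIndex_placesSelmer hunits hℓ hℓF he hw hc hb hB hP1 hP
  have h2 := relIndex_torsionGroup_gen hℓ hc hb hB hP1 hP
  have h3 := Subgroup.relIndex_mul_relIndex (powGroup ℓ K (m + 1))
    (torsionGroup ℓ (branch c (algebraMap R K P)) (expo b))
    (placesSelmer R w ℓ (branch c (algebraMap R K P)) (expo b)) powGroup_le_torsionGroup hle
  have hcl1 : Nat.card (powMonoidHom ℓ : ClassGroup R →* ClassGroup R).ker = 1 := by
    rw [Nat.card_eq_one_iff_unique]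
    refine ⟨⟨fun x y => ?_⟩, ⟨1⟩⟩
    have hx : ∀ x : (powMonoidHom ℓ : ClassGroup R →* ClassGroup R).ker, x = 1 := by
      intro x
      have h4 : (x : ClassGroup R) ^ ℓ = 1 := x.2
      have h5 : (x : ClassGroup R) ^ Nat.card (ClassGroup R) = 1 := pow_card_eq_one'
      have h6 : orderOf (x : ClassGroup R) ∣ 1 := by
        rw [← hcl]
        exact Nat.dvd_gcd (orderOf_dvd_of_pow_eq_one h5) (orderOf_dvd_of_pow_eq_one h4)
      exact Subtype.ext (orderOf_eq_one_iff.1 (Nat.dvd_one.1 h6))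
    rw [hx x, hx y]
  rw [hcl1, one_pow, one_mul] at h1
  have h4 : ∑ i : Fin m, (badPrimes ℓ (P + algebraMap F R (c i)) (b i)).ncard ≤ m := by
    have h5 : ∑ i : Fin m, (badPrimes ℓ (P + algebraMap F R (c i)) (b i)).ncard ≤
        ∑ _i : Fin m, 1 := by
      refine Finset.sum_le_sum fun i _ => ?_
      have h6 := (Set.ncard_le_one (hone i).finite).2 fun a ha b hb => hone i ha hb
      exact h6
    simpa using h5
  have h5 := h1.trans (pow_dvd_pow ℓ h4)
  rw [← h3, h2] at h5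
  have h6 : (torsionGroup ℓ (branch c (algebraMap R K P)) (expo b)).relIndex
      (placesSelmer R w ℓ (branch c (algebraMap R K P)) (expo b)) ∣ 1 := by
    have h7 : 0 < ℓ ^ m := pow_pos hℓ.pos m
    exact Nat.dvd_of_mul_dvd_mul_left h7 (by rw [mul_one]; exact h5)
  exact Subgroup.relIndex_eq_one.1 (Nat.dvd_one.1 h6)

end

section ratfunc

open Polynomial

variable {F : Type*} [Field F]

theorem units_polynomial (u : F[X]ˣ) : ∃ α : F, algebraMap F F[X] α = u := by
  obtain ⟨r, -, hr⟩ := Polynomial.isUnit_iff.1 u.isUnit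
  exact ⟨r, hr⟩

theorem card_classGroup_polynomial : Nat.card (ClassGroup F[X]) = 1 := by
  rw [Nat.card_eq_fintype_card]
  exact card_classGroup_eq_one

variable [Finite F]

open Classical in
theorem inftyValuation_res (x : RatFunc F) (hx : RatFunc.inftyValuation F x ≤ 1) :
    RatFunc.inftyValuation F (x ^ Nat.card F ^ 1 - x) < 1 := by
  have := Fintype.ofFinite F
  obtain ⟨α, hα⟩ := exists_const_near x hx
  obtain ⟨p, hpc⟩ := CharP.exists F
  obtain ⟨r, hp, hr⟩ := FiniteField.card F p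
  have hpf : Fact p.Prime := ⟨hp⟩
  have hcard : Nat.card F = p ^ (r : ℕ) := by rw [Nat.card_eq_fintype_card, hr]
  have hcharK : CharP (RatFunc F) p :=
    charP_of_injective_algebraMap (algebraMap F (RatFunc F)).injective p
  set y := x - RatFunc.C α with hy
  have hx' : x = RatFunc.C α + y := by rw [hy]; ring
  have hαq : α ^ Nat.card F = α := by
    rw [Nat.card_eq_fintype_card]
    exact FiniteField.pow_card α
  have h1 : x ^ Nat.card F ^ 1 - x = y ^ Nat.card F - y := by
    rw [pow_one, hx', hcard, add_pow_char_pow, ← hcard, ← map_pow, hαq]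
    ring
  rw [h1]
  refine lt_of_le_of_lt (Valuation.map_sub _ _ _) (max_lt ?_ hα)
  rw [map_pow]
  have h2 : Nat.card F ≠ 0 := Nat.card_pos.ne'
  exact pow_lt_one₀ zero_le' hα h2

open Classical in
/-- the Selmer groups over the layers `F (t ^ (1 / r ^ n))` of a Kummer tower -/
theorem placesSelmer_tower {ℓ m : ℕ} {c : Fin m → F} {b : Fin m → ℕ} {P : F[X]}
    (hℓ : ℓ.Prime) (hℓF : ℓ ∣ Nat.card F - 1) (hc : Function.Injective c)
    (hb : ∀ i, Nat.Coprime (b i) ℓ) (hB : Nat.Coprime (1 + ∑ i, b i) ℓ) (hP : ¬ ℓ ∣ P.natDegree)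
    (hirr : ∀ i, Irreducible (P + C (c i))) {r : ℕ} (hr : r.Prime) (hr2 : r ≠ 2) (hrℓ : r ≠ ℓ)
    (hN : ∀ (i : Fin m) (x : F),
      x ^ r * P.leadingCoeff ≠ (-1) ^ P.natDegree * (P.coeff 0 + c i)) (n : ℕ) :
    placesSelmer F[X] (RatFunc.inftyValuation F) ℓ
        (branch c (algebraMap F[X] (RatFunc F) (P.comp (X ^ (r ^ n))))) (expo b) =
      torsionGroup ℓ (branch c (algebraMap F[X] (RatFunc F) (P.comp (X ^ (r ^ n)))))
        (expo b) := by
  have hPpos : 0 < P.natDegree := Nat.pos_of_ne_zero fun h => hP (h ▸ dvd_zero ℓ)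
  set Q := P.comp (X ^ (r ^ n)) with hQ
  have hdeg : Q.natDegree = P.natDegree * r ^ n := by
    rw [hQ, Polynomial.natDegree_comp, Polynomial.natDegree_X_pow]
  have hQℓ : ¬ ℓ ∣ Q.natDegree := by
    rw [hdeg, hℓ.dvd_mul, not_or]
    refine ⟨hP, fun h => hrℓ ?_⟩
    have h1 := hℓ.dvd_of_dvd_pow h
    exact ((Nat.prime_dvd_prime_iff_eq hℓ hr).1 h1).symm
  have hQpos : 0 < Q.natDegree := Nat.pos_of_ne_zero fun h => hQℓ (h ▸ dvd_zero ℓ)
  have hQ0 : Q ≠ 0 := by
    intro h
    rw [h, Polynomial.natDegree_zero] at hQpos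
    exact lt_irrefl _ hQpos
  have hval : RatFunc.inftyValuation F (algebraMap F[X] (RatFunc F) Q) =
      WithZero.exp (Q.natDegree : ℤ) := RatFunc.inftyValuation.polynomial F hQ0
  refine placesSelmer_eq (e := 1) units_polynomial
    (by rw [card_classGroup_polynomial]; exact Nat.coprime_one_left ℓ) hℓ hℓF
    (fun h => hℓ.one_lt.ne' (Nat.dvd_one.1 h)) inftyValuation_res hc hb hB ?_ ?_ fun i => ?_
  · rw [hval, ← WithZero.exp_zero, WithZero.exp_lt_exp]
    exact_mod_cast hQpos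
  · rw [hval, WithZero.log_exp, Int.natCast_dvd_natCast]
    exact hQℓ
  · intro v hv v' hv'
    have h1 : Irreducible (Q + C (c i)) := irreducible_comp_pow_add (hirr i) hr hr2 (hN i) hPpos n
    have h2 : ∀ v : HeightOneSpectrum F[X], Q + C (c i) ∈ v.asIdeal →
        v.asIdeal = Ideal.span {Q + C (c i)} := by
      intro v hv
      have h3 : (Ideal.span {Q + C (c i)}).IsMaximal :=
        PrincipalIdealRing.isMaximal_of_irreducible h1
      exact (h3.eq_of_le v.isPrime.ne_top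
        ((Ideal.span_singleton_le_iff_mem _).2 hv)).symm
    ext1
    rw [h2 v hv.1, h2 v' hv'.1]

end ratfunc

end MP72e2e6
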