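import Pool.Agent.Lib.MP_72e2e6_nt.Spec

/-!
# MP_72e2e6_nt: the Selmer group over a general global field
-/

namespace MP72e2e6

open IsDedekindDomain

/-- `K` acts on its completion at the valuation `w`. -/
noncomputable instance completionAlgebra {K : Type*} [Field K]
    (w : Valuation K (WithZero (Multiplicative ℤ))) : Algebra K w.Completion :=
  ((UniformSpace.Completion.coeRingHom (α := WithVal w)).comp
    ((WithVal.equiv w).symm : K →+* WithVal w)).toAlgebra

/-- The tuples `d` for which `∏ i, d i ^ b i` is an `ℓ`-th power in `K`. -/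
def normGroup (ℓ : ℕ) (K : Type*) [Field K] {n : ℕ} (b : Fin n → ℕ) : Subgroup (Fin n → Kˣ) where
  carrier := {d | ∃ y : Kˣ, ∏ i, d i ^ b i = y ^ ℓ}
  mul_mem' := by
    rintro x y ⟨u, hu⟩ ⟨v, hv⟩
    refine ⟨u * v, ?_⟩
    simp only [Pi.mul_apply, mul_pow, Finset.prod_mul_distrib, hu, hv]
  one_mem' := ⟨1, by simp⟩
  inv_mem' := by
    rintro x ⟨u, hu⟩
    refine ⟨u⁻¹, ?_⟩
    simp only [Pi.inv_apply, inv_pow, Finset.prod_inv_distrib, hu]

/-- The Selmer group over `K`, whose places are the primes of the Dedekind domain `R` with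
fraction field `K` and one more place `w`: the tuples `d` which lie in the local image at every
place and for which `∏ i, d i ^ b i` is an `ℓ`-th power in `K`. -/
noncomputable def placesSelmer (R : Type*) [CommRing R] [IsDedekindDomain R] {K : Type*} [Field K]
    [Algebra R K] [IsFractionRing R K] (w : Valuation K (WithZero (Multiplicative ℤ))) (ℓ : ℕ)
    {n : ℕ} (a : Fin n → K) (b : Fin n → ℕ) : Subgroup (Fin n → Kˣ) :=
  normGroup ℓ K b ⊓ ((⨅ v : HeightOneSpectrum R,
    (localImage ℓ a b (v.adicCompletion K)).comap (baseChange _)) ⊓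
  (localImage ℓ a b w.Completion).comap (baseChange _))

/-- The primes of `R` which divide `Q` to an order not divisible by `ℓ`, together with all the
primes dividing `Q` if `k + 1` is divisible by `ℓ`. -/
def badPrimes {R : Type*} [CommRing R] [IsDedekindDomain R] (ℓ : ℕ) (Q : R) (k : ℕ) :
    Set (HeightOneSpectrum R) :=
  {v | Q ∈ v.asIdeal ∧ (¬ (ℓ : ℤ) ∣ WithZero.log (v.intValuation Q) ∨ ℓ ∣ k + 1)}

end MP72e2e6
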