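import Pool.Agent.Lib.MP_72e2e6_nt.GenEx

/-!
# MP_72e2e6_nt: criteria for `ConnG`
-/

namespace MP72e2e6

open Polynomial

universe u

section criteria

variable {F : Type u} [Field F] {ℓ m : ℕ} {a : Fin m → F[X]}

theorem gen_mult_prod {P : F[X]} (hPi : Irreducible P) {ι : Type*} (s : Finset ι)
    (f : ι → F[X]) (hf : ∀ i ∈ s, f i ≠ 0) :
    multiplicity P (∏ i ∈ s, f i) = ∑ i ∈ s, multiplicity P (f i) := by
  classical
  induction s using Finset.induction_on with
  | empty =>
    rw [Finset.prod_empty, Finset.sum_empty, multiplicity_eq_zero]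
    exact fun h => hPi.not_isUnit (isUnit_of_dvd_one h)
  | insert i s hi ih =>
    rw [Finset.prod_insert hi, Finset.sum_insert hi, multiplicity_mul hPi.prime,
      ih fun j hj => hf j (Finset.mem_insert_of_mem hj)]
    refine FiniteMultiplicity.of_prime_left hPi.prime (mul_ne_zero (hf i
      (Finset.mem_insert_self i s)) (Finset.prod_ne_zero_iff.2 fun j hj =>
        hf j (Finset.mem_insert_of_mem hj)))

theorem gen_mult_pow {P : F[X]} (hPi : Irreducible P) {f : F[X]} (hf : f ≠ 0) (n : ℕ) :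
    multiplicity P (f ^ n) = n * multiplicity P f := by
  rw [FiniteMultiplicity.multiplicity_pow hPi.prime
    (FiniteMultiplicity.of_prime_left hPi.prime hf)]

/-- a prime at which only `a i - a j` has a valuation prime to `ℓ` makes `i`, `j` an edge -/
theorem gen_edg (hℓ : ℓ.Prime) (ha : Function.Injective a) {i j : Fin m} (hij : i ≠ j)
    {P : F[X]} (hPi : Irreducible P) (hP : ¬ ℓ ∣ multiplicity P (a i - a j))
    (h : ∀ k l, k ≠ l → s(k, l) ≠ s(i, j) → ℓ ∣ multiplicity P (a k - a l)) : Edg ℓ a i j := by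
  intro n hn _ hz
  obtain ⟨z, hz⟩ := hz
  have h0 : ∀ k l, (a k - a l) ^ n k l ≠ 0 := by
    intro k l
    by_cases hkl : k = l
    · rw [hkl, hn l, pow_zero]
      exact one_ne_zero
    · exact pow_ne_zero _ (sub_ne_zero.2 fun h => hkl (ha h))
  have hz0 : z ≠ 0 := by
    rintro rfl
    rw [zero_pow hℓ.ne_zero] at hz
    exact Finset.prod_ne_zero_iff.2 (fun k _ => Finset.prod_ne_zero_iff.2 fun l _ => h0 k l) hz
  have h1 := congrArg (multiplicity P) hz
  rw [gen_mult_pow hPi hz0, gen_mult_prod hPi _ _ fun k _ =>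
    Finset.prod_ne_zero_iff.2 fun l _ => h0 k l] at h1
  have h2 : ∀ k, multiplicity P (∏ l, (a k - a l) ^ n k l) =
      ∑ l, n k l * multiplicity P (a k - a l) := by
    intro k
    rw [gen_mult_prod hPi _ _ fun l _ => h0 k l]
    refine Finset.sum_congr rfl fun l _ => ?_
    by_cases hkl : k = l
    · rw [hkl, hn l, pow_zero, zero_mul, multiplicity_eq_zero]
      exact fun h => hPi.not_isUnit (isUnit_of_dvd_one h)
    · exact gen_mult_pow hPi (sub_ne_zero.2 fun h => hkl (ha h)) _
  simp only [h2] at h1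
  have h3 : ((∑ k, ∑ l, n k l * multiplicity P (a k - a l) : ℕ) : ZMod ℓ) = 0 := by
    rw [h1]
    push_cast
    rw [ZMod.natCast_self, zero_mul]
  have hsym : multiplicity P (a j - a i) = multiplicity P (a i - a j) := by
    rw [← neg_sub, multiplicity_neg]
  have h4 : ∀ k l, ((n k l * multiplicity P (a k - a l) : ℕ) : ZMod ℓ) =
      (if k = i ∧ l = j then ((n i j * multiplicity P (a i - a j) : ℕ) : ZMod ℓ) else 0) +
      (if k = j ∧ l = i then ((n j i * multiplicity P (a i - a j) : ℕ) : ZMod ℓ) else 0) := by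
    intro k l
    by_cases h5 : k = i ∧ l = j
    · obtain ⟨rfl, rfl⟩ := h5
      rw [if_pos ⟨rfl, rfl⟩, if_neg fun h => hij h.1, add_zero]
    · by_cases h6 : k = j ∧ l = i
      · obtain ⟨rfl, rfl⟩ := h6
        rw [if_neg h5, if_pos ⟨rfl, rfl⟩, zero_add, hsym]
      · rw [if_neg h5, if_neg h6, add_zero]
        by_cases hkl : k = l
        · rw [hkl, hn l, zero_mul, Nat.cast_zero]
        · rw [ZMod.natCast_eq_zero_iff]
          refine (h k l hkl ?_).mul_left _
          rw [Ne, Sym2.eq_iff]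
          rintro (h7 | h7)
          · exact h5 h7
          · exact h6 h7
  have h5 : ∀ (p q : Fin m) (c : ZMod ℓ),
      ∑ k, ∑ l, (if k = p ∧ l = q then c else 0) = c := by
    intro p q c
    rw [Finset.sum_eq_single p, Finset.sum_eq_single q]
    · rw [if_pos ⟨rfl, rfl⟩]
    · intro l _ hl
      rw [if_neg fun h => hl h.2]
    · intro h
      exact absurd (Finset.mem_univ q) h
    · intro k _ hk
      exact Finset.sum_eq_zero fun l _ => by rw [if_neg fun h => hk h.1]
    · intro h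
      exact absurd (Finset.mem_univ p) h
  have h6 : ∀ k, ((∑ l, n k l * multiplicity P (a k - a l) : ℕ) : ZMod ℓ) =
      ∑ l, ((if k = i ∧ l = j then ((n i j * multiplicity P (a i - a j) : ℕ) : ZMod ℓ) else 0) +
      (if k = j ∧ l = i then ((n j i * multiplicity P (a i - a j) : ℕ) : ZMod ℓ) else 0)) := by
    intro k
    rw [Nat.cast_sum]
    exact Finset.sum_congr rfl fun l _ => h4 k l
  rw [Nat.cast_sum, Finset.sum_congr rfl fun k _ => h6 k] at h3
  simp only [Finset.sum_add_distrib, h5] at h3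
  rw [← Nat.cast_add, ← add_mul, ZMod.natCast_eq_zero_iff] at h3
  exact (hℓ.dvd_mul.1 h3).resolve_right hP

theorem Conn.connG (hℓ : ℓ.Prime) (ha : Function.Injective a) (h : Conn ℓ a) : ConnG ℓ a := by
  intro s hs hs'
  obtain ⟨i, hi, j, hj, P, -, hPi, hP, h1⟩ := h s hs hs'
  exact ⟨i, hi, j, hj, gen_edg hℓ ha (fun h => hj (h ▸ hi)) hPi hP h1⟩

theorem gen_exists_pair {s : Finset (Fin m)} (hs : s.Nonempty) (hs' : s ≠ Finset.univ) :
    ∃ i ∈ s, ∃ j, j ∉ s := by
  obtain ⟨i, hi⟩ := hs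
  obtain ⟨j, hj⟩ : ∃ j, j ∉ s := by
    by_contra h
    push Not at h
    exact hs' (Finset.eq_univ_iff_forall.2 h)
  exact ⟨i, hi, j, hj⟩

/-- two branch points are always connected -/
theorem connG_two (ℓ : ℕ) (a : Fin 2 → F[X]) : ConnG ℓ a := by
  intro s hs hs'
  obtain ⟨i, hi, j, hj⟩ := gen_exists_pair hs hs'
  refine ⟨i, hi, j, hj, ?_⟩
  have hij : i ≠ j := fun h => hj (h ▸ hi)
  intro n hn hd _
  have h1 : ∑ k, ∑ l, n k l = n i j + n j i := by
    have h2 := hn 0
    have h3 := hn 1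
    simp only [Fin.sum_univ_two, h2, h3, zero_add, add_zero]
    rcases i with ⟨_ | _ | i, hi'⟩
    · rcases j with ⟨_ | _ | j, hj'⟩
      · exact absurd rfl hij
      · rfl
      · omega
    · rcases j with ⟨_ | _ | j, hj'⟩
      · exact Nat.add_comm _ _
      · exact absurd rfl hij
      · omega
    · omega
  rwa [h1] at hd

theorem gen_third : ∀ i j : Fin 3, i ≠ j → ∃ k : Fin 3, i ≠ k ∧ j ≠ k := by decide

theorem gen_univ_three : ∀ i j k : Fin 3, i ≠ j → j ≠ k → i ≠ k →
    (Finset.univ : Finset (Fin 3)) = {i, j, k} := by decide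

theorem gen_sum_three {i j k : Fin 3} (hij : i ≠ j) (hjk : j ≠ k) (hik : i ≠ k)
    {M : Type*} [AddCommMonoid M] (f : Fin 3 → M) : ∑ l, f l = f i + (f j + f k) := by
  rw [gen_univ_three i j k hij hjk hik, Finset.sum_insert, Finset.sum_insert,
    Finset.sum_singleton]
  · rwa [Finset.mem_singleton]
  · rw [Finset.mem_insert, Finset.mem_singleton]
    rintro (h | h)
    · exact hij h
    · exact hik h

theorem gen_prod_three {i j k : Fin 3} (hij : i ≠ j) (hjk : j ≠ k) (hik : i ≠ k)
    {M : Type*} [CommMonoid M] (f : Fin 3 → M) : ∏ l, f l = f i * (f j * f k) := by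
  rw [gen_univ_three i j k hij hjk hik, Finset.prod_insert, Finset.prod_insert,
    Finset.prod_singleton]
  · rwa [Finset.mem_singleton]
  · rw [Finset.mem_insert, Finset.mem_singleton]
    rintro (h | h)
    · exact hij h
    · exact hik h

/-- cancelling a square -/
theorem gen_sq_cancel {x w z : F[X]} (hw : w ≠ 0) (h : x * w ^ 2 = z ^ 2) :
    ∃ y : F[X], x = y ^ 2 := by
  have h1 : w ^ 2 ∣ z ^ 2 := ⟨x, by rw [← h]; ring⟩
  obtain ⟨y, rfl⟩ := (IsIntegrallyClosed.pow_dvd_pow_iff two_ne_zero).1 h1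
  refine ⟨y, mul_right_cancel₀ (pow_ne_zero 2 hw) ?_⟩
  rw [h]
  ring

/-- three branch points, `ℓ = 2` -/
theorem connG_three (hm1 : ∃ z : F, z ^ 2 = -1) {a : Fin 3 → F[X]}
    (ha : Function.Injective a) :
    ConnG 2 a ↔ ∀ i j k : Fin 3, i ≠ j → j ≠ k → i ≠ k →
      ∀ z : F[X], (a i - a j) * (a i - a k) ≠ z ^ 2 := by
  obtain ⟨ζ, hζ⟩ := hm1
  have hC : (C ζ : F[X]) ^ 2 = -1 := by rw [← C_pow, hζ, C_neg, C_1]
  have hC0 : (C ζ : F[X]) ≠ 0 := by
    intro h
    rw [h] at hC
    norm_num at hC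
  have h0 : ∀ k l, k ≠ l → a k - a l ≠ 0 := fun k l hkl => sub_ne_zero.2 fun h => hkl (ha h)
  constructor
  · intro h i j k hij hjk hik z hz
    have key : ∀ j k : Fin 3, i ≠ j → j ≠ k → i ≠ k →
        (a i - a j) * (a i - a k) = z ^ 2 → ¬ Edg 2 a i j := by
      intro j k hij hjk hik hz hE
      have h1 := hE (fun p q => if p = i ∧ (q = j ∨ q = k) then 1 else 0) (fun p => by
        rw [if_neg]
        rintro ⟨rfl, h1 | h1⟩
        · exact hij h1
        · exact hik h1) ?_ ⟨z, ?_⟩
      · rw [if_pos ⟨rfl, Or.inl rfl⟩, if_neg fun h => hij h.1.symm] at h1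
        omega
      · simp only [gen_sum_three hij hjk hik]
        simp [hij, hik, hij.symm, hik.symm, hjk, hjk.symm]
      · simp only [gen_prod_three hij hjk hik]
        simp [hij, hik, hij.symm, hik.symm, hjk, hjk.symm, hz]
    obtain ⟨i', hi', j', hj', hE⟩ := h {i} (Finset.singleton_nonempty i) (by
      intro h
      have h1 : j ∈ ({i} : Finset (Fin 3)) := h ▸ Finset.mem_univ j
      exact hij (Finset.mem_singleton.1 h1).symm)
    rw [Finset.mem_singleton] at hi' hj'
    subst hi'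
    have h1 : j' ∈ ({i', j, k} : Finset (Fin 3)) :=
      gen_univ_three i' j k hij hjk hik ▸ Finset.mem_univ j'
    rw [Finset.mem_insert, Finset.mem_insert, Finset.mem_singleton] at h1
    rcases h1 with h1 | rfl | rfl
    · exact hj' h1
    · exact key j' k hij hjk hik hz hE
    · exact key j' j hik hjk.symm hij (by rw [mul_comm]; exact hz) hE
  · intro h s hs hs'
    obtain ⟨i, hi, j, hj⟩ := gen_exists_pair hs hs'
    have hij : i ≠ j := fun h => hj (h ▸ hi)
    refine ⟨i, hi, j, hj, ?_⟩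
    obtain ⟨k, hik, hjk⟩ := gen_third i j hij
    intro n hn hd hz
    obtain ⟨z, hz⟩ := hz
    simp only [gen_sum_three hij hjk hik, hn] at hd
    simp only [gen_prod_three hij hjk hik, hn, pow_zero] at hz
    by_contra hodd
    have hji : a j - a i = -(a i - a j) := by ring
    have hki : a k - a i = -(a i - a k) := by ring
    have hkj : a k - a j = -(a j - a k) := by ring
    rw [hji, hki, hkj, neg_pow (a i - a j), neg_pow (a i - a k), neg_pow (a j - a k)] at hz
    have hz' : (-1 : F[X]) ^ (n j i + n k i + n k j) *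
        ((a i - a j) ^ (n i j + n j i) * (a i - a k) ^ (n i k + n k i) *
          (a j - a k) ^ (n j k + n k j)) = z ^ 2 := by
      rw [← hz]
      ring
    have hA : ∃ A, n i j + n j i = 2 * A + 1 := ⟨(n i j + n j i) / 2, by omega⟩
    obtain ⟨A, hA⟩ := hA
    rcases Nat.even_or_odd' (n i k + n k i) with ⟨B, hB | hB⟩
    · have hCc : ∃ C', n j k + n k j = 2 * C' + 1 := ⟨(n j k + n k j) / 2, by omega⟩
      obtain ⟨C', hC'⟩ := hCc
      rw [hA, hB, hC', ← hC] at hz'
      obtain ⟨y, hy⟩ := gen_sq_cancel (x := (a i - a j) * (a j - a k))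
        (w := C ζ ^ (n j i + n k i + n k j) * ((a i - a j) ^ A * (a i - a k) ^ B *
          (a j - a k) ^ C')) (z := z)
        (mul_ne_zero (pow_ne_zero _ hC0) (mul_ne_zero (mul_ne_zero (pow_ne_zero _ (h0 i j hij))
          (pow_ne_zero _ (h0 i k hik))) (pow_ne_zero _ (h0 j k hjk)))) (by rw [← hz']; ring)
      refine h j i k hij.symm hik hjk (C ζ * y) ?_
      rw [mul_pow, hC, ← hy]
      ring
    · have hCc : ∃ C', n j k + n k j = 2 * C' := ⟨(n j k + n k j) / 2, by omega⟩
      obtain ⟨C', hC'⟩ := hCc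
      rw [hA, hB, hC', ← hC] at hz'
      obtain ⟨y, hy⟩ := gen_sq_cancel (x := (a i - a j) * (a i - a k))
        (w := C ζ ^ (n j i + n k i + n k j) * ((a i - a j) ^ A * (a i - a k) ^ B *
          (a j - a k) ^ C')) (z := z)
        (mul_ne_zero (pow_ne_zero _ hC0) (mul_ne_zero (mul_ne_zero (pow_ne_zero _ (h0 i j hij))
          (pow_ne_zero _ (h0 i k hik))) (pow_ne_zero _ (h0 j k hjk)))) (by rw [← hz']; ring)
      exact h i j k hij hjk hik y hy

end criteria

end MP72e2e6
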