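import Pool.Agent.Lib.MP_72e2e6_nt.SuCore

/-!
# MP_72e2e6_nt: twists of superelliptic curves, the twists
-/

namespace MP72e2e6

open Polynomial IsDedekindDomain

universe u

section

variable {F : Type u} [Field F] [Finite F]

/-- the bad primes -/
theorem su_exists_bad {m : ℕ} {a : Fin m → F[X]} (ha : Function.Injective a) :
    ∃ (s : ℕ) (prS : Fin s → F[X]), Fam prS ∧
      ∀ P : F[X], P.Monic → Irreducible P → ∀ i j, i ≠ j → P ∣ a i - a j → ∃ b, prS b = P := by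
  classical
  let S : Set F[X] := {P | P.Monic ∧ Irreducible P ∧ ∃ i j, i ≠ j ∧ P ∣ a i - a j}
  let n : ℕ := ∑ i, ∑ j, (a i - a j).natDegree
  have hfin : S.Finite := by
    refine ((Finset.range (n + 1)).biUnion (mon F)).finite_toSet.subset ?_
    rintro P ⟨hP, -, i, j, hij, hdvd⟩
    simp only [Finset.coe_biUnion, Finset.coe_range, Set.mem_Iio, Set.mem_iUnion,
      Finset.mem_coe, mem_mon]
    have h0 : a i - a j ≠ 0 := sub_ne_zero.2 fun h => hij (ha h)
    have h1 : P.natDegree ≤ n := by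
      have h2 : P.natDegree ≤ (a i - a j).natDegree := natDegree_le_of_dvd hdvd h0
      have h3 : (a i - a j).natDegree ≤ ∑ j, (a i - a j).natDegree :=
        Finset.single_le_sum (f := fun j => (a i - a j).natDegree) (fun _ _ => Nat.zero_le _)
          (Finset.mem_univ j)
      have h4 : ∑ j, (a i - a j).natDegree ≤ n :=
        Finset.single_le_sum (f := fun i => ∑ j, (a i - a j).natDegree)
          (fun _ _ => Nat.zero_le _) (Finset.mem_univ i)
      omega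
    exact ⟨P.natDegree, by omega, hP, rfl⟩
  let e := hfin.toFinset.equivFin
  refine ⟨hfin.toFinset.card, fun i => (e.symm i).1, ⟨?_, ?_, ?_⟩, ?_⟩
  · intro i j h
    exact e.symm.injective (Subtype.ext h)
  · exact fun i => (hfin.mem_toFinset.1 (e.symm i).2).1
  · exact fun i => (hfin.mem_toFinset.1 (e.symm i).2).2.1
  · intro P hP hPi i j hij hdvd
    exact ⟨e ⟨P, hfin.mem_toFinset.2 ⟨hP, hPi, i, j, hij, hdvd⟩⟩, by simp⟩

/-- the network -/
theorem su_exists_network (hPrime : StmtSuPrime.{u}) (hSeq : StmtSuSeq.{u}) {ℓ : ℕ}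
    [Fact ℓ.Prime] (hℓ2 : ℓ ≠ 2) (hq : ℓ ∣ Nat.card F - 1) {χ : F → ZMod ℓ} (hχ : IsLg ℓ χ)
    {m : ℕ} {a : Fin m → F[X]} (ha : Function.Injective a) {b : Fin m → ℕ}
    (hP : ∀ P : F[X], P.Monic → Irreducible P → ∃ e : ℤ, Tame ℓ b (wP P a) e) (θ : ZMod ℓ) :
    ∃ (s : ℕ) (e : Fin s → ZMod ℓ) (pr : Option (Fin s) ⊕ SuK (Fin s) (ZMod ℓ)ˣ ℕ → F[X]),
      SuNet χ a pr ∧
      (∀ v, Tame ℓ b (wP (pr (Sum.inl (some v))) a) ((e v).val : ℤ)) ∧
      ((pr (Sum.inl none)).natDegree : ZMod ℓ) +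
        ∑ v, e v * ((pr (Sum.inl (some v))).natDegree : ZMod ℓ) = θ := by
  classical
  have hℓ : ℓ.Prime := Fact.out
  obtain ⟨s, prS, hfamS, hcovS⟩ := su_exists_bad ha
  have hP' : ∀ v, ∃ e : ℤ, Tame ℓ b (wP (prS v) a) e := fun v =>
    hP _ (hfamS.monic v) (hfamS.irr v)
  choose e₀ he₀ using hP'
  let e : Fin s → ZMod ℓ := fun v => (e₀ v : ZMod ℓ)
  obtain ⟨R₀, hR₀m, hR₀i, hR₀ne, hR₀d, -⟩ := hPrime F ℓ hℓ hℓ2 hq χ hχ (Fin s) prS hfamS
    (fun _ => 0) (θ - ∑ v, e v * ((prS v).natDegree : ZMod ℓ))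
  let pr0 : Option (Fin s) → F[X] := fun o => o.elim R₀ prS
  have hfam0 : Fam pr0 := by
    refine ⟨?_, ?_, ?_⟩
    · rintro (_ | i) (_ | j) h
      · rfl
      · exact absurd h.symm (hR₀ne j)
      · exact absurd h (hR₀ne i)
      · exact congrArg some (hfamS.inj h)
    · rintro (_ | i)
      · exact hR₀m
      · exact hfamS.monic i
    · rintro (_ | i)
      · exact hR₀i
      · exact hfamS.irr i
  obtain ⟨pk, hfamk, hpk, hsyk, hlk⟩ := hSeq F ℓ hℓ hℓ2 hq χ hχ (Option (Fin s))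
    (SuK (Fin s) (ZMod ℓ)ˣ ℕ) pr0 hfam0 suA suL suL_symm
  let pr : Option (Fin s) ⊕ SuK (Fin s) (ZMod ℓ)ˣ ℕ → F[X] := Sum.elim pr0 pk
  have hfam : Fam pr := by
    refine ⟨?_, ?_, ?_⟩
    · rintro (v | k) (v' | k') h
      · exact congrArg Sum.inl (hfam0.inj h)
      · exact absurd h ((hpk k').2 v)
      · exact absurd h.symm ((hpk k).2 v')
      · exact congrArg Sum.inr (hfamk.inj h)
    · rintro (v | k)
      · exact hfam0.monic v
      · exact hfamk.monic k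
    · rintro (v | k)
      · exact hfam0.irr v
      · exact hfamk.irr k
  refine ⟨s, e, pr, ⟨hfam, ?_, fun k => (hpk k).1, fun k o => hsyk k o,
    fun k k' h => hlk k k' h⟩, ?_, ?_⟩
  · intro P hP hPi i j hij hdvd
    exact hcovS P hP hPi i j hij hdvd
  · intro v
    refine (he₀ v).congr ?_
    rw [Int.cast_natCast, ZMod.natCast_val, ZMod.cast_id', id]
  · change (R₀.natDegree : ZMod ℓ) + ∑ v, e v * ((prS v).natDegree : ZMod ℓ) = θ
    rw [hR₀d, sub_add_cancel]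

end

/-- the restriction of a network to fewer pendants -/
theorem SuNet.restrict {F : Type u} [Field F] {ℓ m : ℕ} {χ : F → ZMod ℓ} {a : Fin m → F[X]}
    {V U I J : Type} [DecidableEq V] [DecidableEq U] {pr : Option V ⊕ SuK V U I → F[X]}
    (h : SuNet χ a pr) (f : J → I) (hf : Function.Injective f) :
    SuNet χ a (fun β : Option V ⊕ SuK V U J =>
      pr (Sum.map id (Sum.map id (Sum.map id f)) β)) where
  fam := ⟨fun b b' hb => by
      have h1 : Function.Injective (Sum.map (id : Option V → Option V)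
          (Sum.map (id : V × U → V × U) (Sum.map (id : V × U → V × U) f))) :=
        Function.injective_id.sumMap (Function.injective_id.sumMap
          (Function.injective_id.sumMap hf))
      exact h1 (h.fam.inj hb), fun b => h.fam.monic _, fun b => h.fam.irr _⟩
  cov := h.cov
  deg := fun k => h.deg _
  symA := by
    intro k v
    have h1 := h.symA (Sum.map id (Sum.map id f) k) v
    rcases k with p | p | r <;> rcases v with _ | v <;> exact h1
  symL := by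
    intro k k' hkk
    have h2 : Function.Injective (Sum.map (id : V × U → V × U)
          (Sum.map (id : V × U → V × U) f)) :=
        Function.injective_id.sumMap (Function.injective_id.sumMap hf)
    have h1 := h.symL (Sum.map id (Sum.map id f) k)
      (Sum.map id (Sum.map id f) k') (fun h3 => hkk (h2 h3))
    rcases k with p | p | r <;> rcases k' with p' | p' | r' <;> exact h1

theorem twl_flag {F : Type u} [Field F] {ℓ : ℕ} [Fact ℓ.Prime] {V J : Type} [Fintype V]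
    [Fintype J] (pr : Option V ⊕ SuK V (ZMod ℓ)ˣ J → F[X]) (e : V → ZMod ℓ) (f : J → ZMod ℓ) :
    twl pr (suflag e f) = (pr (Sum.inl none) * ∏ v, pr (Sum.inl (some v)) ^ (e v).val) *
      ((∏ p, pr (Sum.inr (Sum.inl p))) *
        ((∏ p : V × (ZMod ℓ)ˣ, pr (Sum.inr (Sum.inr (Sum.inl p))) ^
          (-2 * (p.2 : ZMod ℓ)).val) *
          ∏ j, pr (Sum.inr (Sum.inr (Sum.inr j))) ^ (f j).val)) := by
  have h1 : ((1 : ZMod ℓ)).val = 1 := ZMod.val_one _
  rw [twl, Fintype.prod_sum_type, Fintype.prod_option, Fintype.prod_sum_type,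
    Fintype.prod_sum_type]
  simp only [suflag, h1, pow_one]

/-- the multiplicity of a prime in the twisting polynomial -/
theorem vl_twl (hSy : StmtSuSy.{u}) {F : Type u} [Field F] [Finite F] {ℓ : ℕ} [Fact ℓ.Prime]
    (hq : ℓ ∣ Nat.card F - 1) {χ : F → ZMod ℓ} (hχ : IsLg ℓ χ) {ι : Type} [Fintype ι]
    {pr : ι → F[X]} (hfam : Fam pr) (ρ : ι → ZMod ℓ) (β : ι) :
    vl ℓ (pr β) (twl pr ρ) = ρ β := by
  classical
  have hℓ : ℓ.Prime := Fact.out
  obtain ⟨-, -, h⟩ := hSy F ℓ hℓ hq χ hχ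
  obtain ⟨hmul, hprime, hPP, -, -⟩ := h (pr β) (hfam.monic β) (hfam.irr β)
  have hone : vl ℓ (pr β) 1 = 0 :=
    (hprime 1 fun h => (hfam.irr β).not_isUnit (isUnit_of_dvd_one h)).1
  have hpow : ∀ (g : F[X]) (_ : g ≠ 0) (n : ℕ), vl ℓ (pr β) (g ^ n) = n * vl ℓ (pr β) g := by
    intro g hg n
    induction n with
    | zero => rw [pow_zero, hone, Nat.cast_zero, zero_mul]
    | succ n ih =>
      rw [pow_succ, (hmul _ _ (pow_ne_zero _ hg) hg).1, ih]
      push_cast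
      ring
  have hprod : ∀ s : Finset ι, vl ℓ (pr β) (∏ γ ∈ s, pr γ ^ (ρ γ).val) =
      ∑ γ ∈ s, ρ γ * vl ℓ (pr β) (pr γ) := by
    intro s
    induction s using Finset.induction_on with
    | empty => simpa using hone
    | insert γ s hb ih =>
      rw [Finset.prod_insert hb, Finset.sum_insert hb, (hmul _ _ (pow_ne_zero _
        (hfam.monic γ).ne_zero) (Finset.prod_ne_zero_iff.2 fun b _ =>
          pow_ne_zero _ (hfam.monic b).ne_zero)).1, ih, hpow _ (hfam.monic γ).ne_zero,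
        ZMod.natCast_val, ZMod.cast_id', id]
  rw [twl, hprod, Finset.sum_eq_single β]
  · rw [hPP, mul_one]
  · intro γ _ hγ
    rw [(hprime (pr γ) fun hdvd => hγ ?_).1, mul_zero]
    have h2 : Associated (pr β) (pr γ) := (hfam.irr β).associated_of_dvd (hfam.irr γ) hdvd
    exact (hfam.inj (eq_of_monic_of_associated (hfam.monic β) (hfam.monic γ) h2)).symm
  · intro hβ
    exact absurd (Finset.mem_univ β) hβ

open Classical in
theorem main_su (hLg : StmtSuLg.{u}) (hSy : StmtSuSy.{u}) (hRec : StmtSuRec.{u})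
    (hFac : StmtSuFac.{u}) (hEq : StmtSuEq.{u}) (hFrob : StmtSuFrob) (hInj : StmtSuInj)
    (hStar : StmtSuStar) (hPrime : StmtSuPrime.{u}) (hSeq : StmtSuSeq.{u}) (hIdx : StmtSuIdx.{u})
    {F : Type u} [Field F] [Finite F] {ℓ : ℕ} (hℓ : ℓ.Prime) (hℓ2 : ℓ ≠ 2)
    (hq : ℓ ∣ Nat.card F - 1) {m : ℕ} (hm : 0 < m) {a : Fin m → F[X]}
    (ha : Function.Injective a) {b : Fin m → ℕ}
    (hP : ∀ P : F[X], P.Monic → Irreducible P → ∃ e : ℤ, Tame ℓ b (wP P a) e)
    (hI : ∃ e : ℤ, Tame ℓ b (wI a) e) :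
    ∃ (D : F[X]) (𝓡 : Set F[X]), D ≠ 0 ∧ 𝓡.Infinite ∧ (∀ R ∈ 𝓡, R.Monic ∧ Irreducible R) ∧
      ∀ I : Finset F[X], (I : Set F[X]) ⊆ 𝓡 → ∀ e : F[X] → ℕ, (∀ R ∈ I, 1 ≤ e R ∧ e R < ℓ) →
        placesSelmer F[X] (RatFunc.inftyValuation F) ℓ (pts (D * ∏ R ∈ I, R ^ e R) a) b =
          torsionGroup ℓ (pts (D * ∏ R ∈ I, R ^ e R) a) b ∧
        (powGroup ℓ (RatFunc F) m).relIndex
          (torsionGroup ℓ (pts (D * ∏ R ∈ I, R ^ e R) a) b) = ℓ ^ (m - 1) := by
  have : Fact ℓ.Prime := ⟨hℓ⟩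
  have : NeZero ℓ := ⟨hℓ.ne_zero⟩
  obtain ⟨χ, hχ⟩ := hLg F ℓ hℓ hq
  obtain ⟨e₁, he₁⟩ := hI
  obtain ⟨s, ev, pr, hN, hT, hdeg⟩ := su_exists_network hPrime hSeq hℓ2 hq hχ ha hP
    (-(e₁ : ZMod ℓ))
  let f : ℕ → F[X] := fun r => pr (Sum.inr (Sum.inr (Sum.inr r)))
  have hf : Function.Injective f := by
    intro r r' h
    have h1 := hN.fam.inj h
    simpa using h1
  let D : F[X] := (pr (Sum.inl none) * ∏ v, pr (Sum.inl (some v)) ^ (ev v).val) *
      ((∏ p, pr (Sum.inr (Sum.inl p))) *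
        ∏ p : Fin s × (ZMod ℓ)ˣ, pr (Sum.inr (Sum.inr (Sum.inl p))) ^
          (-2 * (p.2 : ZMod ℓ)).val)
  have hD : D ≠ 0 := by
    refine mul_ne_zero (mul_ne_zero (hN.fam.monic _).ne_zero ?_) (mul_ne_zero ?_ ?_)
    · exact Finset.prod_ne_zero_iff.2 fun v _ => pow_ne_zero _ (hN.fam.monic _).ne_zero
    · exact Finset.prod_ne_zero_iff.2 fun v _ => (hN.fam.monic _).ne_zero
    · exact Finset.prod_ne_zero_iff.2 fun v _ => pow_ne_zero _ (hN.fam.monic _).ne_zero
  refine ⟨D, Set.range f, hD, Set.infinite_range_of_injective hf, ?_, ?_⟩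
  · rintro _ ⟨r, rfl⟩
    exact ⟨hN.fam.monic _, hN.fam.irr _⟩
  · intro I hIR e he
    rw [← Set.image_univ] at hIR
    obtain ⟨J, -, rfl⟩ := Finset.subset_set_image_iff.1 hIR
    have hNJ := hN.restrict (J := J) Subtype.val Subtype.val_injective
    let fl : J → ZMod ℓ := fun j => ((e (f j) : ℕ) : ZMod ℓ)
    have hfl : ∀ j, (fl j).val = e (f j) := fun j =>
      ZMod.val_cast_of_lt (he (f j) (Finset.mem_image_of_mem _ j.2)).2
    have hfl0 : ∀ j, fl j ≠ 0 := by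
      intro j h
      have h1 := hfl j
      rw [h, ZMod.val_zero] at h1
      have h2 := (he (f j) (Finset.mem_image_of_mem _ j.2)).1
      omega
    have hE : D * ∏ R ∈ J.image f, R ^ e R = twl (fun β => pr
        (Sum.map id (Sum.map id (Sum.map id (Subtype.val : J → ℕ))) β)) (suflag ev fl) := by
      rw [Finset.prod_image fun r _ r' _ h => hf h,
        ← Finset.prod_coe_sort J (fun r => f r ^ e (f r)), twl_flag]
      simp only [Sum.map_inl, Sum.map_inr, id_eq, hfl]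
      change ((pr (Sum.inl none) * ∏ v, pr (Sum.inl (some v)) ^ (ev v).val) *
        ((∏ p, pr (Sum.inr (Sum.inl p))) *
          ∏ p : Fin s × (ZMod ℓ)ˣ, pr (Sum.inr (Sum.inr (Sum.inl p))) ^
            (-2 * (p.2 : ZMod ℓ)).val)) * _ = _
      ring
    rw [hE]
    have hdE : (((twl (fun β => pr (Sum.map id (Sum.map id (Sum.map id (Subtype.val : J → ℕ))) β))
        (suflag ev fl)).natDegree : ℕ) : ZMod ℓ) = -(e₁ : ZMod ℓ) := by
      rw [natDegree_twl hNJ.fam, Fintype.sum_sum_type, Fintype.sum_option,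
        Finset.sum_eq_zero (s := (Finset.univ : Finset (SuK (Fin s) (ZMod ℓ)ˣ J)))
          (fun k _ => by rw [hNJ.deg, mul_zero]), add_zero]
      simp only [suflag, one_mul]
      exact hdeg
    have hIE : Tame ℓ b (wI a) (-((twl (fun β => pr (Sum.map id (Sum.map id (Sum.map id
        (Subtype.val : J → ℕ))) β)) (suflag ev fl)).natDegree : ℤ)) := by
      refine he₁.congr ?_
      push_cast
      rw [hdE, neg_neg]
    refine ⟨?_, ?_⟩
    · exact su_core hSy hRec hFac hEq hFrob hInj hStar hℓ2 hq hχ hm ha hfl0 hNJ hT hIE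
    · refine hIdx F ℓ hℓ hℓ2 m hm _ (twl_ne_zero hNJ.fam _) a ha b (he₁.not_dvd_sum hm)
        (pr (Sum.inl none)) (hN.fam.monic _) (hN.fam.irr _) ?_ ?_
      · intro h
        have h1 := vl_twl hSy hq hχ hNJ.fam (suflag ev fl) (Sum.inl none)
        change vl ℓ (pr (Sum.inl none)) _ = 1 at h1
        rw [vl, if_neg (twl_ne_zero hNJ.fam _), (ZMod.natCast_eq_zero_iff _ _).2 h] at h1
        exact zero_ne_one h1
      · intro i j hij hdvd
        obtain ⟨v, hv⟩ := hN.cov _ (hN.fam.monic _) (hN.fam.irr _) i j hij hdvd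
        have h1 := hN.fam.inj hv
        simp at h1

/-- Exponents without subsums divisible by `ℓ`. -/
theorem tame_of_zero_sum_free (hEx : StmtSuEx) {F : Type u} [Field F] {ℓ : ℕ} (hℓ : ℓ.Prime)
    {m : ℕ} {a : Fin m → F[X]} (ha : Function.Injective a) {b : Fin m → ℕ}
    (hb : ∀ s : Finset (Fin m), s.Nonempty → ¬ ℓ ∣ ∑ k ∈ s, b k) :
    (∀ P : F[X], P.Monic → Irreducible P → ∃ e : ℤ, Tame ℓ b (wP P a) e) ∧
      ∃ e : ℤ, Tame ℓ b (wI a) e := by
  have : Fact ℓ.Prime := ⟨hℓ⟩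
  have hm := hEx.2 ℓ m hℓ b hb
  refine ⟨fun P hP hPi => ?_, ?_⟩
  · obtain ⟨e, -, he⟩ := hEx.1 ℓ m hm b (wP P a) (ultra_wP hPi ha)
      fun s j hj _ => hb s ⟨j, hj⟩
    exact ⟨e, he⟩
  · obtain ⟨e, -, he⟩ := hEx.1 ℓ m hm b (wI a) ultra_wI fun s j hj _ => hb s ⟨j, hj⟩
    exact ⟨e, he⟩

end MP72e2e6
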