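import Pool.Agent.Lib.MP_72e2e6_nt.SuStmt
import Pool.Agent.Lib.MP_72e2e6_nt.TwSel

/-!
# MP_72e2e6_nt: the Selmer conditions in terms of polynomials, exponent `ℓ`
-/

set_option autoImplicit false

namespace MP72e2e6

open Polynomial IsDedekindDomain WithZero

universe u

section tal

variable {F : Type u} [Field F] {ℓ m : ℕ}

/-- exponents which are congruent modulo `ℓ` -/
theorem susel_pow (x : F[X]) [NeZero ℓ] (e e' : ZMod ℓ) :
    ∃ z : F[X], x ^ e.val * x ^ e'.val = x ^ (e + e').val * z ^ ℓ := by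
  refine ⟨x ^ ((e.val + e'.val) / ℓ), ?_⟩
  rw [← pow_add, ← pow_mul, ← pow_add, ZMod.val_add, mul_comm _ ℓ, Nat.mod_add_div]

theorem susel_tal_add [NeZero ℓ] (b : Fin m → ℕ) (E : F[X]) (a : Fin m → F[X])
    (c c' : Fin m → ZMod ℓ) (i : Fin m) :
    ∃ z : F[X], tal b E a c i * tal b E a c' i = tal b E a (c + c') i * z ^ ℓ := by
  choose z hz using fun k : Fin m => susel_pow (E * (a i - a k))
    ((b k : ZMod ℓ) * (c i - c k) * (∑ k, (b k : ZMod ℓ))⁻¹)
    ((b k : ZMod ℓ) * (c' i - c' k) * (∑ k, (b k : ZMod ℓ))⁻¹)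
  refine ⟨∏ k, z k, ?_⟩
  rw [tal, tal, tal, ← Finset.prod_mul_distrib, ← Finset.prod_pow, ← Finset.prod_mul_distrib]
  refine Finset.prod_congr rfl fun k _ => ?_
  rw [hz k]
  congr 3
  rw [Pi.add_apply, Pi.add_apply]
  ring

theorem susel_tal_zero (b : Fin m → ℕ) (E : F[X]) (a : Fin m → F[X]) (i : Fin m) :
    tal b E a (0 : Fin m → ZMod ℓ) i = 1 := by
  rw [tal]
  refine Finset.prod_eq_one fun k _ => ?_
  rw [Pi.zero_apply, Pi.zero_apply, sub_self, mul_zero, zero_mul, ZMod.val_zero, pow_zero]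

theorem susel_tal_neg [NeZero ℓ] (b : Fin m → ℕ) (E : F[X]) (a : Fin m → F[X])
    (c : Fin m → ZMod ℓ) (i : Fin m) :
    ∃ z : F[X], tal b E a c i * tal b E a (-c) i = z ^ ℓ := by
  obtain ⟨z, hz⟩ := susel_tal_add b E a c (-c) i
  refine ⟨z, ?_⟩
  rw [hz, add_neg_cancel, susel_tal_zero, one_mul]

theorem susel_tal_ne (b : Fin m → ℕ) {E : F[X]} (hE : E ≠ 0) {a : Fin m → F[X]}
    (ha : Function.Injective a) (c : Fin m → ZMod ℓ) (i : Fin m) : tal b E a c i ≠ 0 := by
  rw [tal]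
  refine Finset.prod_ne_zero_iff.2 fun k _ => ?_
  by_cases h : i = k
  · subst h
    rw [sub_self (c i), mul_zero, zero_mul, ZMod.val_zero, pow_zero]
    exact one_ne_zero
  · exact pow_ne_zero _ (mul_ne_zero hE (sub_ne_zero.2 fun h' => h (ha h')))

variable {f : F[X] → ZMod ℓ} (hf : ∀ g h : F[X], g ≠ 0 → h ≠ 0 → f (g * h) = f g + f h)

include hf

theorem susel_one : f 1 = 0 := by
  have h := hf 1 1 one_ne_zero one_ne_zero
  rw [mul_one] at h
  exact left_eq_add.1 h

theorem susel_npow {x : F[X]} (hx : x ≠ 0) (n : ℕ) : f (x ^ n) = n * f x := by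
  induction n with
  | zero => rw [pow_zero, susel_one hf, Nat.cast_zero, zero_mul]
  | succ n ih =>
    rw [pow_succ, hf _ _ (pow_ne_zero _ hx) hx, ih]
    push_cast
    ring

theorem susel_pow_self {x : F[X]} (hx : x ≠ 0) : f (x ^ ℓ) = 0 := by
  rw [susel_npow hf hx, ZMod.natCast_self, zero_mul]

theorem susel_f_add [NeZero ℓ] (b : Fin m → ℕ) {E : F[X]} (hE : E ≠ 0) {a : Fin m → F[X]}
    (ha : Function.Injective a) (c c' : Fin m → ZMod ℓ) (i : Fin m) :
    f (tal b E a (c + c') i) = f (tal b E a c i) + f (tal b E a c' i) := by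
  obtain ⟨z, hz⟩ := susel_tal_add b E a c c' i
  have hz0 : z ≠ 0 := by
    rintro rfl
    rw [zero_pow (NeZero.ne ℓ), mul_zero] at hz
    exact mul_ne_zero (susel_tal_ne b hE ha c i) (susel_tal_ne b hE ha c' i) hz
  have h1 := congrArg f hz
  rw [hf _ _ (susel_tal_ne b hE ha c i) (susel_tal_ne b hE ha c' i),
    hf _ _ (susel_tal_ne b hE ha _ i) (pow_ne_zero _ hz0), susel_pow_self hf hz0, add_zero] at h1
  exact h1.symm

theorem susel_f_neg [NeZero ℓ] (b : Fin m → ℕ) {E : F[X]} (hE : E ≠ 0) {a : Fin m → F[X]}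
    (ha : Function.Injective a) (c : Fin m → ZMod ℓ) (i : Fin m) :
    f (tal b E a (-c) i) = -f (tal b E a c i) := by
  have h := susel_f_add hf b hE ha c (-c) i
  rw [add_neg_cancel, susel_tal_zero, susel_one hf] at h
  linear_combination -h

end tal

section places

variable {F : Type u} [Field F] {ℓ : ℕ}

theorem susel_vl {v : HeightOneSpectrum F[X]} {P : F[X]} (hP : Irreducible P)
    (hv : v.asIdeal = Ideal.span {P}) {h : F[X]} (h0 : h ≠ 0)
    (hd : (ℓ : ℤ) ∣ WithZero.log (v.valuation (RatFunc F) (algebraMap F[X] (RatFunc F) h))) :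
    vl ℓ P h = 0 := by
  rw [vl, if_neg h0, ZMod.natCast_eq_zero_iff]
  rw [twsel_log hP hv h0, dvd_neg] at hd
  exact_mod_cast hd

theorem susel_log_pow (v : Valuation (RatFunc F) (WithZero (Multiplicative ℤ))) {x y : RatFunc F}
    (hx : x ≠ 0) (hy : y ≠ 0) :
    WithZero.log (v (x * y ^ ℓ)) = WithZero.log (v x) + ℓ * WithZero.log (v y) := by
  rw [map_mul, map_pow, WithZero.log_mul ((Valuation.ne_zero_iff _).2 hx)
    (pow_ne_zero _ ((Valuation.ne_zero_iff _).2 hy)), WithZero.log_pow, nsmul_eq_mul]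

theorem susel_num (hl : 0 < ℓ) (x : RatFunc F) :
    algebraMap F[X] (RatFunc F) (x.num * x.denom ^ (ℓ - 1)) =
    x * algebraMap F[X] (RatFunc F) x.denom ^ ℓ := by
  have h1 : algebraMap F[X] (RatFunc F) x.denom ≠ 0 := by
    rw [Ne, map_eq_zero_iff _ (twsel_inj F)]
    exact RatFunc.denom_ne_zero x
  have h2 : algebraMap F[X] (RatFunc F) x.num = x * algebraMap F[X] (RatFunc F) x.denom :=
    (div_eq_iff h1).1 (RatFunc.num_div_denom x)
  obtain ⟨n, rfl⟩ : ∃ n, ℓ = n + 1 := ⟨ℓ - 1, by omega⟩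
  rw [map_mul, map_pow, h2, Nat.add_sub_cancel]
  ring

variable {ι : Type} [Fintype ι] {pr : ι → F[X]} (hpr : Fam pr) {ρ : ι → ZMod ℓ}

include hpr

theorem susel_twl_ne : twl pr ρ ≠ 0 := by
  rw [twl]
  exact Finset.prod_ne_zero_iff.2 fun b _ => pow_ne_zero _ (hpr.irr b).ne_zero

theorem susel_dvd_twl {P : F[X]} (hP : P.Monic) (hPi : Irreducible P) (h : P ∣ twl pr ρ) :
    ∃ b, pr b = P := by
  rw [twl] at h
  obtain ⟨b, -, hb⟩ := (hPi.prime.dvd_finsetProd_iff _).1 h
  exact ⟨b, (twsel_eq hP hPi (hpr.monic b) (hpr.irr b) (hPi.prime.dvd_of_dvd_pow hb)).symm⟩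

theorem susel_mult (β : ι) : multiplicity (pr β) (twl pr ρ) = (ρ β).val := by
  classical
  refine multiplicity_eq_of_dvd_of_not_dvd ?_ ?_
  · rw [twl]
    exact Finset.dvd_prod_of_mem (fun b => pr b ^ (ρ b).val) (Finset.mem_univ β)
  · intro h
    rw [twl, ← Finset.mul_prod_erase Finset.univ _ (Finset.mem_univ β), pow_succ] at h
    have h1 := (mul_dvd_mul_iff_left (pow_ne_zero _ (hpr.irr β).ne_zero)).1 h
    obtain ⟨β', hβ', h3⟩ := ((hpr.irr β).prime.dvd_finsetProd_iff _).1 h1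
    have h4 := twsel_eq (hpr.monic β) (hpr.irr β) (hpr.monic β') (hpr.irr β')
      ((hpr.irr β).prime.dvd_of_dvd_pow h3)
    exact Finset.ne_of_mem_erase hβ' (hpr.inj h4).symm

end places

section more

variable {F : Type u} [Field F] {ℓ : ℕ}

/-- A prime which divides neither the twist nor the differences. -/
theorem susel_good {m : ℕ} (hl : ℓ.Prime) {E : F[X]} {a : Fin m → F[X]} {b : Fin m → ℕ}
    (hb : ¬ ℓ ∣ ∑ k, b k) {v : HeightOneSpectrum F[X]} {P : F[X]} (hP : Irreducible P)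
    (hv : v.asIdeal = Ideal.span {P}) (hPE : ¬ P ∣ E) (hPa : ∀ i j, i ≠ j → ¬ P ∣ a i - a j)
    {d : Fin m → (RatFunc F)ˣ}
    (hd : baseChange (v.adicCompletion (RatFunc F)) d ∈
      localImage ℓ (pts E a) b (v.adicCompletion (RatFunc F))) (i : Fin m)
    (hbi : ¬ ℓ ∣ b i) :
    vl ℓ P ((d i : RatFunc F).num * (d i : RatFunc F).denom ^ (ℓ - 1)) = 0 := by
  have h1 := log_dvd_of_mem_localImage (M := v.adicCompletion (RatFunc F)) (nontriv_adic v)
    hl.ne_zero (a := fun k => algebraMap (RatFunc F) (v.adicCompletion (RatFunc F)) (pts E a k))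
    (b := b) ((Nat.Prime.coprime_iff_not_dvd hl).2 hb).symm (fun k => ?_) i
    ((Nat.Prime.coprime_iff_not_dvd hl).2 hbi).symm (fun k hk => ?_) hd
  · have h2 : ((baseChange (v.adicCompletion (RatFunc F)) d i :
        (v.adicCompletion (RatFunc F))ˣ) : v.adicCompletion (RatFunc F)) =
        algebraMap (RatFunc F) (v.adicCompletion (RatFunc F)) (d i : RatFunc F) := rfl
    rw [h2, valued_adic] at h1
    refine susel_vl hP hv (mul_ne_zero (RatFunc.num_ne_zero (d i).ne_zero)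
      (pow_ne_zero _ (RatFunc.denom_ne_zero _))) ?_
    have h3 : algebraMap F[X] (RatFunc F) (d i : RatFunc F).denom ≠ 0 := by
      rw [Ne, map_eq_zero_iff _ (twsel_inj F)]
      exact RatFunc.denom_ne_zero _
    rw [susel_num hl.pos, susel_log_pow _ (d i).ne_zero h3]
    exact dvd_add h1 (dvd_mul_right _ _)
  · rw [valued_adic]
    exact v.valuation_le_one _
  · rw [← map_sub, valued_adic, twsel_pts_sub, HeightOneSpectrum.valuation_eq_one_iff_notMem, hv,
      Ideal.mem_span_singleton]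
    intro h
    rcases hP.prime.dvd_or_dvd h with h | h
    · exact hPE h
    · exact hPa i k hk.symm h

end more

/-- **SuSel.** -/
theorem tSuSel (hSy : StmtSuSy.{u}) (hTal : StmtSuTal.{u}) (hLocF : StmtSuLocF.{u})
    (hLocI : StmtSuLocI.{u}) (hPwF : StmtSuPwF.{u}) (hPwI : StmtSuPwI.{u})
    (hTor : StmtSuTor.{u}) : StmtSuSel.{u} := by
  classical
  intro F _ _ ℓ hl hl2 hdvd χ hχ m hm a hainj b ι _ pr hpr hcov ρ htame htameI d hd
  have hne : NeZero ℓ := ⟨hl.ne_zero⟩
  have hE0 : twl pr ρ ≠ 0 := susel_twl_ne hpr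
  have hEdvd : ∀ P : F[X], P.Monic → Irreducible P → P ∣ twl pr ρ → ∃ b, pr b = P :=
    fun P hP hPi h => susel_dvd_twl hpr hP hPi h
  have hmul : ∀ β, Tame ℓ b (wP (pr β) a) (multiplicity (pr β) (twl pr ρ) : ℤ) := by
    intro β
    rw [susel_mult hpr β]
    exact htame β
  generalize twl pr ρ = E at hE0 hEdvd hmul htameI hd ⊢
  have hb : ¬ ℓ ∣ ∑ k, b k :=
    htameI.ball Finset.univ ⟨0, hm⟩ (Finset.mem_univ _)
      (fun i _ k hk => absurd (Finset.mem_univ k) hk)
  have hbi : ∀ i, ¬ ℓ ∣ b i := by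
    intro i
    have h := htameI.ball {i} i (Finset.mem_singleton_self i)
      (fun j hj k _ hji => absurd (Finset.mem_singleton.1 hj) hji)
    rwa [Finset.sum_singleton] at h
  obtain ⟨-, -, hsyP⟩ := hSy F ℓ hl hdvd χ hχ
  obtain ⟨-, hd'⟩ := Subgroup.mem_inf.1 hd
  obtain ⟨hdfin, hdinf⟩ := Subgroup.mem_inf.1 hd'
  have hdv : ∀ v : HeightOneSpectrum F[X], baseChange (v.adicCompletion (RatFunc F)) d ∈
      localImage ℓ (pts E a) b (v.adicCompletion (RatFunc F)) :=
    fun v => (Subgroup.mem_iInf.1 hdfin) v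
  -- the torsion class at infinity
  obtain ⟨t, ht, z, hz⟩ := hLocI F ℓ hl hl2 hdvd m hm E hE0 a hainj b htameI _ hdinf
  obtain ⟨c₀, hc₀, hc₀'⟩ := (hTor F ℓ hl hl2 m E hE0 a hainj b hb).1 t ht
  choose z' hz' using hc₀'
  have hAinj := twsel_inj F
  have hND0 : ∀ i, (d i : RatFunc F).num * (d i : RatFunc F).denom ^ (ℓ - 1) ≠ 0 := fun i =>
    mul_ne_zero (RatFunc.num_ne_zero (d i).ne_zero) (pow_ne_zero _ (RatFunc.denom_ne_zero _))
  have hD0 : ∀ i, algebraMap F[X] (RatFunc F) (d i : RatFunc F).denom ≠ 0 := by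
    intro i
    rw [Ne, map_eq_zero_iff _ hAinj]
    exact RatFunc.denom_ne_zero _
  have htal0 : ∀ (c : Fin m → ZMod ℓ) i, tal b E a c i ≠ 0 := fun c i =>
    susel_tal_ne b hE0 hainj c i
  choose s hs using fun (c : Fin m → ZMod ℓ) (i : Fin m) => susel_tal_neg b E a c i
  -- the polynomials
  have hδ0 : ∀ i, (d i : RatFunc F).num * (d i : RatFunc F).denom ^ (ℓ - 1) *
      tal b E a (-c₀) i ≠ 0 := fun i => mul_ne_zero (hND0 i) (htal0 _ i)
  have hneg : ∀ c : Fin m → ZMod ℓ, ∑ i, (b i : ZMod ℓ) * c i = 0 →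
      ∑ i, (b i : ZMod ℓ) * (-c) i = 0 := by
    intro c hc
    simp only [Pi.neg_apply, mul_neg, Finset.sum_neg_distrib, hc, neg_zero]
  refine ⟨fun i => (d i : RatFunc F).num * (d i : RatFunc F).denom ^ (ℓ - 1) *
    tal b E a (-c₀) i, hδ0, ?_, ?_, ?_, ?_⟩
  · -- primes outside of the family
    intro P hP hPi hPb i
    obtain ⟨hadd, hnd, -, -, -⟩ := hsyP P hP hPi
    have hPE : ¬ P ∣ E := fun h => by
      obtain ⟨b, hb⟩ := hEdvd P hP hPi h
      exact hPb b hb
    have hPa : ∀ i j, i ≠ j → ¬ P ∣ a i - a j := fun i j hij h => by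
      obtain ⟨b, hb⟩ := hcov P hP hPi i j hij h
      exact hPb b hb
    obtain ⟨v, hv⟩ := twsel_place hPi
    have h1 := susel_good hl hb hPi hv hPE hPa (hdv v) i (hbi i)
    have h2 : ∑ k, (b k : ZMod ℓ) * vl ℓ P (a i - a k) * ((-c₀) i - (-c₀) k) = 0 := by
      refine Finset.sum_eq_zero fun k _ => ?_
      by_cases hik : i = k
      · rw [hik, sub_self ((-c₀) k), mul_zero]
      · rw [(hnd _ (hPa i k hik)).1, mul_zero, zero_mul]
    rw [(hadd _ _ (hND0 i) (htal0 _ i)).1, h1, zero_add,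
      (hTal F ℓ hl hdvd χ hχ m E hE0 a hainj b hb P hP hPi (-c₀) (hneg c₀ hc₀) i).2.1, sg,
      (hnd E hPE).1, h2, zero_mul, zero_add, mul_zero]
  · -- infinity
    intro i
    refine hPwI F ℓ hl χ hχ _ (hδ0 i)
      (algebraMap (RatFunc F) (RatFunc.inftyValuation F).Completion
        (algebraMap F[X] (RatFunc F) (s c₀ i)) *
      algebraMap (RatFunc F) (RatFunc.inftyValuation F).Completion (z' i) *
      (z i : (RatFunc.inftyValuation F).Completion) *
      algebraMap (RatFunc F) (RatFunc.inftyValuation F).Completion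
        (algebraMap F[X] (RatFunc F) (d i : RatFunc F).denom)) ?_
    have h1 : algebraMap (RatFunc F) (RatFunc.inftyValuation F).Completion (d i : RatFunc F) =
        algebraMap (RatFunc F) (RatFunc.inftyValuation F).Completion (t i : RatFunc F) *
          (z i : (RatFunc.inftyValuation F).Completion) ^ ℓ := by
      have h2 := congrArg Units.val (congrFun hz i)
      exact h2
    have h2 : algebraMap F[X] (RatFunc F) (tal b E a c₀ i) *
        algebraMap F[X] (RatFunc F) (tal b E a (-c₀) i) =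
        algebraMap F[X] (RatFunc F) (s c₀ i) ^ ℓ := by
      rw [← map_mul, hs, map_pow]
    have h3 := congrArg (algebraMap (RatFunc F) (RatFunc.inftyValuation F).Completion) h2
    rw [map_mul, map_pow] at h3
    rw [map_mul, susel_num hl.pos, map_mul, map_mul, h1, hz' i, map_mul, map_pow, map_pow,
      mul_pow, mul_pow, mul_pow, ← h3]
    ring
  · -- primes of the family
    intro β
    obtain ⟨hadd, hnd, -, -, -⟩ := hsyP (pr β) (hpr.monic β) (hpr.irr β)
    obtain ⟨v, hv⟩ := twsel_place (hpr.irr β)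
    obtain ⟨t₁, ht₁, w, hw⟩ := hLocF F ℓ hl hl2 hdvd m hm E hE0 a hainj b v (pr β)
      (hpr.monic β) (hpr.irr β) hv (hmul β) _ (hdv v)
    obtain ⟨c₁, hc₁, hc₁'⟩ := (hTor F ℓ hl hl2 m E hE0 a hainj b hb).1 t₁ ht₁
    choose w' hw' using hc₁'
    refine ⟨c₁ + -c₀, ?_, fun i => ?_⟩
    · have h4 := hneg c₀ hc₀
      simp only [Pi.add_apply, mul_add, Finset.sum_add_distrib]
      rw [hc₁, h4, add_zero]
    have h1 : algebraMap (RatFunc F) (v.adicCompletion (RatFunc F)) (d i : RatFunc F) =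
        algebraMap (RatFunc F) (v.adicCompletion (RatFunc F)) (t₁ i : RatFunc F) *
          (w i : v.adicCompletion (RatFunc F)) ^ ℓ := by
      have h2 := congrArg Units.val (congrFun hw i)
      exact h2
    have h2 : algebraMap F[X] (RatFunc F) (tal b E a c₁ i) *
        algebraMap F[X] (RatFunc F) (tal b E a (-c₁) i) =
        algebraMap F[X] (RatFunc F) (s c₁ i) ^ ℓ := by
      rw [← map_mul, hs, map_pow]
    have h2' := congrArg (algebraMap (RatFunc F) (v.adicCompletion (RatFunc F))) h2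
    rw [map_mul, map_pow] at h2'
    have h3 := hPwF F ℓ hl hdvd χ hχ v (pr β) (hpr.monic β) (hpr.irr β) hv
      ((d i : RatFunc F).num * (d i : RatFunc F).denom ^ (ℓ - 1) * tal b E a (-c₁) i)
      (mul_ne_zero (hND0 i) (htal0 _ i))
      (algebraMap (RatFunc F) (v.adicCompletion (RatFunc F))
        (algebraMap F[X] (RatFunc F) (s c₁ i)) *
        algebraMap (RatFunc F) (v.adicCompletion (RatFunc F)) (w' i) *
        (w i : v.adicCompletion (RatFunc F)) *
        algebraMap (RatFunc F) (v.adicCompletion (RatFunc F))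
          (algebraMap F[X] (RatFunc F) (d i : RatFunc F).denom)) (by
        rw [map_mul, susel_num hl.pos, map_mul, map_mul, h1, hw' i, map_mul, map_pow, map_pow,
          mul_pow, mul_pow, mul_pow, ← h2']
        ring)
    have key : ∀ f : F[X] → ZMod ℓ, (∀ g h : F[X], g ≠ 0 → h ≠ 0 → f (g * h) = f g + f h) →
        f ((d i : RatFunc F).num * (d i : RatFunc F).denom ^ (ℓ - 1) *
          tal b E a (-c₁) i) = 0 →
        f ((d i : RatFunc F).num * (d i : RatFunc F).denom ^ (ℓ - 1) * tal b E a (-c₀) i) =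
          f (tal b E a (c₁ + -c₀) i) := by
      intro f hf h0
      rw [hf _ _ (hND0 i) (htal0 _ i), susel_f_neg hf b hE0 hainj] at h0
      rw [hf _ _ (hND0 i) (htal0 _ i), susel_f_add hf b hE0 hainj]
      linear_combination h0
    exact ⟨key _ (fun g h hg hh => (hadd g h hg hh).1) h3.1,
      key _ (fun g h hg hh => (hadd g h hg hh).2) h3.2⟩
  · -- the case of powers
    intro hpow
    refine (hTor F ℓ hl hl2 m E hE0 a hainj b hb).2 c₀ hc₀ d fun i => ?_
    obtain ⟨r, hr⟩ := hpow i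
    have h2 := congrArg (algebraMap F[X] (RatFunc F)) hr
    simp only at h2
    rw [map_mul, susel_num hl.pos, map_pow] at h2
    have h3 := hD0 i
    have h4 : algebraMap F[X] (RatFunc F) (tal b E a c₀ i) *
        algebraMap F[X] (RatFunc F) (tal b E a (-c₀) i) =
        algebraMap F[X] (RatFunc F) (s c₀ i) ^ ℓ := by
      rw [← map_mul, hs, map_pow]
    have h5 : s c₀ i ≠ 0 := by
      intro h6
      have h7 := hs c₀ i
      rw [h6, zero_pow hl.ne_zero] at h7
      exact mul_ne_zero (htal0 _ i) (htal0 _ i) h7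
    have h6 : algebraMap F[X] (RatFunc F) (s c₀ i) ≠ 0 := by
      rw [Ne, map_eq_zero_iff _ hAinj]
      exact h5
    refine ⟨algebraMap F[X] (RatFunc F) r / (algebraMap F[X] (RatFunc F) (s c₀ i) *
      algebraMap F[X] (RatFunc F) (d i : RatFunc F).denom), ?_⟩
    rw [div_pow, mul_pow, ← h2, ← h4]
    have h7 : algebraMap F[X] (RatFunc F) (tal b E a c₀ i) ≠ 0 := by
      rw [Ne, map_eq_zero_iff _ hAinj]
      exact htal0 _ i
    have h8 : algebraMap F[X] (RatFunc F) (tal b E a (-c₀) i) ≠ 0 := by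
      rw [Ne, map_eq_zero_iff _ hAinj]
      exact htal0 _ i
    field_simp

end MP72e2e6
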