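import Pool.Agent.Lib.MP_72e2e6_nt.PpStmtB
import Pool.Agent.Lib.MP_72e2e6_nt.SuSel
import Pool.Agent.Lib.MP_72e2e6_nt.SuMain

/-!
# MP_72e2e6_nt: positive proportion of twists, the theorem from the modules
-/

namespace MP72e2e6

open Polynomial IsDedekindDomain

universe u

section families

variable {F : Type u} [Field F] {m : ℕ}

/-- The squarefree monic polynomials of degree `n` prime to `D` and to the `a i - a j`. -/
def Msf (a : Fin m → F[X]) (D : F[X]) (n : ℕ) : Set F[X] :=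
  {M | M.Monic ∧ M.natDegree = n ∧ Squarefree M ∧ IsCoprime M D ∧
    ∀ i j, i ≠ j → IsCoprime M (a i - a j)}

theorem pp_isCoprime_iff {M D : F[X]} :
    IsCoprime M D ↔ ∀ P : F[X], P.Monic → Irreducible P → P ∣ D → ¬ P ∣ M := by
  constructor
  · intro h P _ hPi hPD hPM
    exact hPi.not_isUnit (h.isUnit_of_dvd' hPM hPD)
  · intro h
    classical
    rw [← EuclideanDomain.gcd_isUnit_iff]
    by_contra hu
    obtain ⟨P, hPm, hPi, hPd⟩ := exists_monic_irreducible_factor _ hu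
    exact h P hPm hPi (hPd.trans (EuclideanDomain.gcd_dvd_right _ _))
      (hPd.trans (EuclideanDomain.gcd_dvd_left _ _))

variable [Finite F]

/-- the primes of `D` and of the differences -/
theorem pp_exists_bad {a : Fin m → F[X]} (ha : Function.Injective a) {D : F[X]} (hD : D ≠ 0) :
    ∃ (s : ℕ) (pr : Fin s → F[X]), Fam pr ∧ ∀ P : F[X], P.Monic → Irreducible P →
      ((∃ v, pr v = P) ↔ P ∣ D ∨ ∃ i j, i ≠ j ∧ P ∣ a i - a j) := by
  classical
  let S : Set F[X] := {P | P.Monic ∧ Irreducible P ∧ (P ∣ D ∨ ∃ i j, i ≠ j ∧ P ∣ a i - a j)}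
  let n : ℕ := D.natDegree + ∑ i, ∑ j, (a i - a j).natDegree
  have hfin : S.Finite := by
    refine ((Finset.range (n + 1)).biUnion (mon F)).finite_toSet.subset ?_
    rintro P ⟨hP, -, h⟩
    simp only [Finset.coe_biUnion, Finset.coe_range, Set.mem_Iio, Set.mem_iUnion,
      Finset.mem_coe, mem_mon]
    have h1 : P.natDegree ≤ n := by
      rcases h with h | ⟨i, j, hij, hdvd⟩
      · exact (natDegree_le_of_dvd h hD).trans (Nat.le_add_right _ _)
      · have h0 : a i - a j ≠ 0 := sub_ne_zero.2 fun h => hij (ha h)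
        have h2 : P.natDegree ≤ (a i - a j).natDegree := natDegree_le_of_dvd hdvd h0
        have h3 : (a i - a j).natDegree ≤ ∑ j, (a i - a j).natDegree :=
          Finset.single_le_sum (f := fun j => (a i - a j).natDegree) (fun _ _ => Nat.zero_le _)
            (Finset.mem_univ j)
        have h4 : ∑ j, (a i - a j).natDegree ≤ ∑ i, ∑ j, (a i - a j).natDegree :=
          Finset.single_le_sum (f := fun i => ∑ j, (a i - a j).natDegree)
            (fun _ _ => Nat.zero_le _) (Finset.mem_univ i)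
        change P.natDegree ≤ D.natDegree + ∑ i, ∑ j, (a i - a j).natDegree
        omega
    exact ⟨P.natDegree, by omega, hP, rfl⟩
  let e := hfin.toFinset.equivFin
  refine ⟨hfin.toFinset.card, fun i => (e.symm i).1, ⟨?_, ?_, ?_⟩, ?_⟩
  · intro i j h
    exact e.symm.injective (Subtype.ext h)
  · exact fun i => (hfin.mem_toFinset.1 (e.symm i).2).1
  · exact fun i => (hfin.mem_toFinset.1 (e.symm i).2).2.1
  · intro P hP hPi
    constructor
    · rintro ⟨v, rfl⟩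
      exact (hfin.mem_toFinset.1 (e.symm v).2).2.2
    · intro h
      exact ⟨e ⟨P, hfin.mem_toFinset.2 ⟨hP, hPi, h⟩⟩, by simp⟩

omit [Finite F] in
theorem pp_prod_multiplicity {V : Type} [Fintype V] {pr : V → F[X]} (hpr : Fam pr) :
    ∀ (n : ℕ) (D : F[X]), D.Monic → D.natDegree = n →
      (∀ P : F[X], P.Monic → Irreducible P → P ∣ D → ∃ v, pr v = P) →
      ∏ v, pr v ^ multiplicity (pr v) D = D := by
  classical
  intro n
  induction n using Nat.strong_induction_on with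
  | _ n ih =>
    intro D hD hn hcov
    by_cases hu : IsUnit D
    · have h1 : D = 1 := hD.eq_one_of_isUnit hu
      subst h1
      refine Finset.prod_eq_one fun v _ => ?_
      rw [multiplicity_eq_zero.2 fun h => (hpr.irr v).not_isUnit (isUnit_of_dvd_one h), pow_zero]
    · obtain ⟨P, hPm, hPi, D₁, rfl⟩ := exists_monic_irreducible_factor D hu
      have hD₁ : D₁.Monic := hPm.of_mul_monic_left hD
      have hdeg : P.natDegree + D₁.natDegree = n := by rw [← hPm.natDegree_mul hD₁, hn]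
      have hPpos : 0 < P.natDegree := hPi.natDegree_pos
      obtain ⟨v₀, hv₀⟩ := hcov P hPm hPi (dvd_mul_right _ _)
      have hI := ih D₁.natDegree (by omega) D₁ hD₁ rfl fun Q hQ hQi hQd =>
        hcov Q hQ hQi (hQd.mul_left _)
      have hmul : ∀ v, multiplicity (pr v) (P * D₁) =
          (if v = v₀ then 1 else 0) + multiplicity (pr v) D₁ := by
        intro v
        have hfin : FiniteMultiplicity (pr v) (P * D₁) :=
          FiniteMultiplicity.of_prime_left (hpr.irr v).prime hD.ne_zero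
        rw [multiplicity_mul (hpr.irr v).prime hfin]
        congr 1
        split_ifs with h
        · rw [h, hv₀]
          exact multiplicity_self
        · refine multiplicity_eq_zero.2 fun hd => h (hpr.inj ?_)
          rw [hv₀]
          exact eq_of_monic_of_associated (hpr.monic v) hPm ((hpr.irr v).associated_of_dvd hPi hd)
      rw [Finset.prod_congr rfl fun v _ => by rw [hmul v, pow_add], Finset.prod_mul_distrib, hI]
      congr 1
      rw [Finset.prod_eq_single v₀]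
      · rw [if_pos rfl, pow_one, hv₀]
      · intro v _ hv
        rw [if_neg hv, pow_zero]
      · intro h
        exact absurd (Finset.mem_univ _) h

omit [Finite F] in
theorem pp_twl {ℓ : ℕ} [NeZero ℓ] {V : Type} [Fintype V] {pr : V → F[X]} (hpr : Fam pr)
    {D : F[X]} (hD : D.Monic) (hfree : ∀ P : F[X], P.Monic → Irreducible P → multiplicity P D < ℓ)
    (hcov : ∀ P : F[X], P.Monic → Irreducible P → P ∣ D → ∃ v, pr v = P) :
    twl pr (fun v => ((multiplicity (pr v) D : ℕ) : ZMod ℓ)) = D := by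
  unfold twl
  have h : ∀ v, (((multiplicity (pr v) D : ℕ) : ZMod ℓ)).val = multiplicity (pr v) D := fun v =>
    ZMod.val_cast_of_lt (hfree _ (hpr.monic v) (hpr.irr v))
  rw [Finset.prod_congr rfl fun v _ => by rw [h v]]
  exact pp_prod_multiplicity hpr _ D hD rfl hcov

theorem pp_bijOn (hBij : StmtPpBij.{u}) {a : Fin m → F[X]}
    {D : F[X]} {V : Type} {pr : V → F[X]} (hpr : Fam pr)
    (hcov : ∀ P : F[X], P.Monic → Irreducible P →
      ((∃ v, pr v = P) ↔ P ∣ D ∨ ∃ i j, i ≠ j ∧ P ∣ a i - a j)) (n : ℕ) :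
    Set.BijOn (fun t : Finset F[X] => ∏ P ∈ t, P) (gs F pr n : Set (Finset F[X]))
      (Msf a D n) := by
  have h := hBij F V pr hpr n
  have h2 : {M : F[X] | M.Monic ∧ M.natDegree = n ∧ Squarefree M ∧ ∀ v, ¬ pr v ∣ M} =
      Msf a D n := by
    ext M
    simp only [Msf, Set.mem_ofPred_eq]
    refine and_congr_right fun _ => and_congr_right fun _ => and_congr_right fun _ => ?_
    rw [pp_isCoprime_iff]
    constructor
    · intro h
      refine ⟨fun P hP hPi hd hM => ?_, fun i j hij => ?_⟩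
      · obtain ⟨v, rfl⟩ := (hcov P hP hPi).2 (Or.inl hd)
        exact h v hM
      · rw [pp_isCoprime_iff]
        intro P hP hPi hd hM
        obtain ⟨v, rfl⟩ := (hcov P hP hPi).2 (Or.inr ⟨i, j, hij, hd⟩)
        exact h v hM
    · rintro ⟨h1, h2⟩ v hv
      rcases (hcov (pr v) (hpr.monic v) (hpr.irr v)).1 ⟨v, rfl⟩ with h3 | ⟨i, j, hij, h3⟩
      · exact h1 _ (hpr.monic v) (hpr.irr v) h3 hv
      · exact pp_isCoprime_iff.1 (h2 i j hij) _
          (hpr.monic v) (hpr.irr v) h3 hv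
  rwa [h2] at h

/-- Twists which are tame at the primes of the differences. -/
structure TD (ℓ : ℕ) (b : Fin m → ℕ) (a : Fin m → F[X]) (D : F[X]) : Prop where
  monic : D.Monic
  free : ∀ P : F[X], P.Monic → Irreducible P → multiplicity P D < ℓ
  tame : ∀ P : F[X], P.Monic → Irreducible P → (∃ i j, i ≠ j ∧ P ∣ a i - a j) →
    Tame ℓ b (wP P a) (multiplicity P D : ℤ)

/-- Connected families. -/
def Conn (ℓ : ℕ) (a : Fin m → F[X]) : Prop :=
  ∀ s : Finset (Fin m), s.Nonempty → s ≠ Finset.univ → ∃ i ∈ s, ∃ j, j ∉ s ∧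
    ∃ P : F[X], P.Monic ∧ Irreducible P ∧ ¬ ℓ ∣ multiplicity P (a i - a j) ∧
      ∀ k l, k ≠ l → s(k, l) ≠ s(i, j) → ℓ ∣ multiplicity P (a k - a l)

theorem pp_finrank_le {ℓ : ℕ} [Fact ℓ.Prime] {b : Fin m → ℕ} (hm : 0 < m)
    (hb : ∀ i, ¬ ℓ ∣ b i) : Module.finrank (ZMod ℓ) (Vs ℓ b) ≤ m - 1 := by
  have h1 : Vs ℓ b ≠ ⊤ := by
    intro h
    have h2 : (Pi.single (⟨0, hm⟩ : Fin m) (1 : ZMod ℓ) : Fin m → ZMod ℓ) ∈ Vs ℓ b := by
      rw [h]
      trivial
    have h3 : ∑ i, (b i : ZMod ℓ) *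
      (Pi.single (⟨0, hm⟩ : Fin m) (1 : ZMod ℓ) : Fin m → ZMod ℓ) i = 0 := h2
    rw [Finset.sum_eq_single (⟨0, hm⟩ : Fin m)] at h3
    · rw [Pi.single_eq_same, mul_one, ZMod.natCast_eq_zero_iff] at h3
      exact hb _ h3
    · intro i _ hi
      rw [Pi.single_eq_of_ne hi, mul_zero]
    · intro h
      exact absurd (Finset.mem_univ _) h
  have h2 := Submodule.finrank_lt h1
  rw [Module.finrank_fin_fun] at h2
  omega

end families

section count

variable {F : Type u} [Field F] [Finite F] {ℓ m : ℕ} [Fact ℓ.Prime]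

open Classical in
/-- from an upper bound for the number of nontrivial systems to proportions -/
theorem pp_proportion {V W : Type} [Fintype V] [AddCommGroup W] [Module (ZMod ℓ) W]
    {χ : F → ZMod ℓ} {pr : V → F[X]} {σ : V → Module.End (ZMod ℓ) W}
    {Λ : Module.End (ZMod ℓ) W} {c : ℝ} (hc : 0 < c) {n₁ : ℕ}
    (hcnt : ∀ n : ℕ, n₁ ≤ n → c * (Nat.card F : ℝ) ^ n ≤ ((gs F pr n).card : ℝ)) {x : ℝ}
    (h : ∀ ε : ℝ, 0 < ε → ∃ n₀ : ℕ, ∀ n : ℕ, n₀ ≤ n → InfW pr σ n →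
      (((gs F pr n).filter fun t => nSol χ pr σ Λ t ≠ 1).card : ℝ) ≤
        x * ((gs F pr n).card : ℝ) + ε * (Nat.card F : ℝ) ^ n) (ε : ℝ) (hε : 0 < ε) :
    ∃ n₀ : ℕ, ∀ n : ℕ, n₀ ≤ n → InfW pr σ n → (1 - x - ε) * ((gs F pr n).card : ℝ) ≤
      (((gs F pr n).filter fun t => nSol χ pr σ Λ t = 1).card : ℝ) := by
  obtain ⟨n₀, h0⟩ := h (ε * c) (mul_pos hε hc)
  refine ⟨max n₀ n₁, fun n hn hI => ?_⟩
  have h1 := h0 n (le_trans (le_max_left _ _) hn) hI
  have h2 := hcnt n (le_trans (le_max_right _ _) hn)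
  have h3 : (((gs F pr n).filter fun t => nSol χ pr σ Λ t = 1).card : ℝ) +
      (((gs F pr n).filter fun t => nSol χ pr σ Λ t ≠ 1).card : ℝ) = ((gs F pr n).card : ℝ) := by
    have h4 := Finset.card_filter_add_card_filter_not (s := gs F pr n)
      (fun t => nSol χ pr σ Λ t = 1)
    exact_mod_cast h4
  have h4 : ε * c * (Nat.card F : ℝ) ^ n ≤ ε * ((gs F pr n).card : ℝ) := by
    rw [mul_assoc]
    exact mul_le_mul_of_nonneg_left h2 hε.le
  nlinarith

open Classical in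
/-- the counting theorem for a family of primes -/
theorem pp_core (hFM : StmtPpFM.{u}) (hMar : StmtPpMar.{u}) (hInd : StmtPpInd.{u})
    (hCnt : StmtPpCnt.{u}) (hHyp : StmtPpHyp.{u}) (hLnk : StmtPpLnk.{u}) (hIrr : StmtPpIrr.{u})
    (hPInj : StmtPpInj.{u})
    (hℓ2 : ℓ ≠ 2) (hq : ℓ ∣ Nat.card F - 1) {χ : F → ZMod ℓ} (hχ : IsLg ℓ χ)
    (hm : 0 < m) {a : Fin m → F[X]} (ha : Function.Injective a) {b : Fin m → ℕ}
    (hb : ∀ i, ¬ ℓ ∣ b i) (hB : ¬ ℓ ∣ ∑ i, b i) {V : Type} [Fintype V] {pr : V → F[X]}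
    (hpr : Fam pr)
    (hcov : ∀ P : F[X], P.Monic → Irreducible P → ∀ i j, i ≠ j → P ∣ a i - a j → ∃ v, pr v = P)
    {e : V → ZMod ℓ} (hT : ∀ v, Tame ℓ b (wP (pr v) a) ((e v).val : ℤ)) (ε : ℝ) (hε : 0 < ε) :
    ∃ n₀ : ℕ, ∀ n : ℕ, n₀ ≤ n →
      Tame ℓ b (wI a) (-(((twl pr e).natDegree + n : ℕ) : ℤ)) →
      (1 - ((m : ℝ) - 1) / ((ℓ : ℝ) - 1) - ε) * ((gs F pr n).card : ℝ) ≤
        (((gs F pr n).filter fun t =>
          placesSelmer F[X] (RatFunc.inftyValuation F) ℓ (pts (twl pr e * ∏ P ∈ t, P) a) b =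
            torsionGroup ℓ (pts (twl pr e * ∏ P ∈ t, P) a) b).card : ℝ) ∧
      (2 ≤ m → Conn ℓ a →
        (1 - 1 / ((ℓ : ℝ) - 1) - ε) * ((gs F pr n).card : ℝ) ≤
        (((gs F pr n).filter fun t =>
          placesSelmer F[X] (RatFunc.inftyValuation F) ℓ (pts (twl pr e * ∏ P ∈ t, P) a) b =
            torsionGroup ℓ (pts (twl pr e * ∏ P ∈ t, P) a) b).card : ℝ) ∧
        ∑ t ∈ gs F pr n, ((torsionGroup ℓ (pts (twl pr e * ∏ P ∈ t, P) a) b).relIndex
          (placesSelmer F[X] (RatFunc.inftyValuation F) ℓ (pts (twl pr e * ∏ P ∈ t, P) a) b) : ℝ)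
          ≤ (2 + ε) * ((gs F pr n).card : ℝ)) := by
  have hℓ : ℓ.Prime := Fact.out
  have hℓ3 : 3 ≤ ℓ := lt_of_le_of_ne hℓ.two_le fun h => hℓ2 h.symm
  have hq4 : 4 ≤ Nat.card F := by
    have h1 : 2 ≤ Nat.card F := Finite.one_lt_card
    have h2 := Nat.le_of_dvd (by omega) hq
    omega
  have hℓ1 : (0 : ℝ) < (ℓ : ℝ) - 1 := by
    have : (3 : ℝ) ≤ ℓ := by exact_mod_cast hℓ3
    linarith
  obtain ⟨c, hc, n₁, hcnt⟩ := hCnt F hq4 V pr hpr
  obtain ⟨hH, hInf⟩ := hHyp F ℓ hℓ2 hq χ hχ m a ha b V pr hpr hcov e hT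
  set σ : V → Module.End (ZMod ℓ) (Vs ℓ b) := fun v => sigV b a (pr v) (e v) with hσ
  set Λ : Module.End (ZMod ℓ) (Vs ℓ b) := lamV χ b a with hΛ
  -- the solutions and the Selmer groups
  have hle : ∀ n : ℕ, Tame ℓ b (wI a) (-(((twl pr e).natDegree + n : ℕ) : ℤ)) →
      (((gs F pr n).filter fun t => nSol χ pr σ Λ t = 1).card : ℝ) ≤
        (((gs F pr n).filter fun t =>
          placesSelmer F[X] (RatFunc.inftyValuation F) ℓ (pts (twl pr e * ∏ P ∈ t, P) a) b =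
            torsionGroup ℓ (pts (twl pr e * ∏ P ∈ t, P) a) b).card : ℝ) := by
    intro n hn
    have h1 : ((gs F pr n).filter fun t => nSol χ pr σ Λ t = 1) ⊆ (gs F pr n).filter fun t =>
          placesSelmer F[X] (RatFunc.inftyValuation F) ℓ (pts (twl pr e * ∏ P ∈ t, P) a) b =
            torsionGroup ℓ (pts (twl pr e * ∏ P ∈ t, P) a) b := by
      intro t ht
      rw [Finset.mem_filter] at ht ⊢
      exact ⟨ht.1, hLnk F ℓ hℓ2 hq χ hχ m hm a ha b V pr hpr hcov e hT n t ht.1 hn ht.2⟩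
    exact_mod_cast Finset.card_le_card h1
  -- the general case
  have hfr : (Module.finrank (ZMod ℓ) (Vs ℓ b) : ℝ) ≤ (m : ℝ) - 1 := by
    have h1 := pp_finrank_le (ℓ := ℓ) (b := b) hm hb
    have h2 : Module.finrank (ZMod ℓ) (Vs ℓ b) + 1 ≤ m := by omega
    have h3 : ((Module.finrank (ZMod ℓ) (Vs ℓ b) + 1 : ℕ) : ℝ) ≤ m := by exact_mod_cast h2
    push_cast at h3
    linarith
  obtain ⟨n₂, hn₂⟩ := pp_proportion (χ := χ) (pr := pr) (σ := σ) (Λ := Λ) hc hcnt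
    (x := ((m : ℝ) - 1) / ((ℓ : ℝ) - 1)) (fun ε hε => by
      obtain ⟨n₀, h0⟩ := hInd F ℓ hℓ2 hq χ hχ V (Vs ℓ b) pr hpr σ Λ hH ε hε
      refine ⟨n₀, fun n hn hI => (h0 n hn hI).trans ?_⟩
      have h1 : (Module.finrank (ZMod ℓ) (Vs ℓ b) : ℝ) *
          (((gs F pr n).card : ℝ) / ((ℓ : ℝ) - 1)) ≤
          ((m : ℝ) - 1) / ((ℓ : ℝ) - 1) * ((gs F pr n).card : ℝ) := by
        rw [div_mul_eq_mul_div, ← mul_div_assoc]
        exact div_le_div_of_nonneg_right
          (mul_le_mul_of_nonneg_right hfr (Nat.cast_nonneg _)) hℓ1.le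
      linarith) ε hε
  by_cases hConn : 2 ≤ m ∧ Conn ℓ a
  swap
  · refine ⟨n₂, fun n hn hI => ⟨(hn₂ n hn (hInf n hI)).trans (hle n hI), fun h1 h2 => ?_⟩⟩
    exact absurd ⟨h1, h2⟩ hConn
  obtain ⟨hm2, hconn⟩ := hConn
  -- the irreducible case
  have hcn : ∀ s : Finset (Fin m), s.Nonempty → s ≠ Finset.univ → ∃ i ∈ s, ∃ j, j ∉ s ∧
      ∃ v, vl ℓ (pr v) (a i - a j) ≠ 0 ∧ ∀ k l, k ≠ l → ¬ (k = i ∧ l = j) →
        ¬ (k = j ∧ l = i) → vl ℓ (pr v) (a k - a l) = 0 := by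
    intro s hs hs'
    obtain ⟨i, hi, j, hj, P, hP, hPi, hnd, h⟩ := hconn s hs hs'
    have hij : i ≠ j := fun h => hj (h ▸ hi)
    have h0 : ∀ k l, k ≠ l → a k - a l ≠ 0 := fun k l hkl => sub_ne_zero.2 fun h => hkl (ha h)
    have hd : P ∣ a i - a j := by
      by_contra hd
      exact hnd (by rw [multiplicity_eq_zero.2 hd]; exact dvd_zero _)
    obtain ⟨v, rfl⟩ := hcov P hP hPi i j hij hd
    refine ⟨i, hi, j, hj, v, ?_, fun k l hkl h1 h2 => ?_⟩
    · rw [vl, if_neg (h0 i j hij), Ne, ZMod.natCast_eq_zero_iff]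
      exact hnd
    · rw [vl, if_neg (h0 k l hkl), ZMod.natCast_eq_zero_iff]
      refine h k l hkl ?_
      rw [Ne, Sym2.eq_iff]
      rintro (h3 | h3)
      · exact h1 h3
      · exact h2 h3
  obtain ⟨hI1, hI2⟩ := hIrr F ℓ χ m hm2 a b hb hB V pr hcn e
  obtain ⟨n₃, hn₃⟩ := pp_proportion (χ := χ) (pr := pr) (σ := σ) (Λ := Λ) hc hcnt
    (x := 1 / ((ℓ : ℝ) - 1)) (fun ε hε => by
      obtain ⟨n₀, h0⟩ := hMar F ℓ hℓ2 hq χ hχ V (Vs ℓ b) pr hpr σ Λ hI1 hH ε hε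
      refine ⟨n₀, fun n hn hI => (h0 n hn hI).trans (le_of_eq ?_)⟩
      ring) ε hε
  obtain ⟨n₄, hn₄⟩ := hFM F ℓ hℓ hℓ2 hq χ hχ V (Vs ℓ b) pr hpr σ Λ hI1 hH.inj (ε * c)
    (mul_pos hε hc)
  refine ⟨max (max n₁ n₂) (max n₃ n₄), fun n hn hI => ⟨?_, fun _ _ => ⟨?_, ?_⟩⟩⟩
  · exact (hn₂ n (le_trans (le_trans (le_max_right _ _) (le_max_left _ _)) hn)
      (hInf n hI)).trans (hle n hI)
  · exact (hn₃ n (le_trans (le_trans (le_max_left _ _) (le_max_right _ _)) hn)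
      (hInf n hI)).trans (hle n hI)
  · have h1 := hn₄ n (le_trans (le_trans (le_max_right _ _) (le_max_right _ _)) hn) (hInf n hI)
    have h2 := hcnt n (le_trans (le_trans (le_max_left _ _) (le_max_left _ _)) hn)
    have h3 : (Nat.card (Sk σ Λ) : ℝ) = 1 := by
      have h4 : Sk σ Λ = ⊥ := hI2
      rw [h4]
      simp
    rw [h3] at h1
    have h4 : ε * c * (Nat.card F : ℝ) ^ n ≤ ε * ((gs F pr n).card : ℝ) := by
      rw [mul_assoc]
      exact mul_le_mul_of_nonneg_left h2 hε.le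
    have h5 : ∑ t ∈ gs F pr n, ((torsionGroup ℓ (pts (twl pr e * ∏ P ∈ t, P) a) b).relIndex
          (placesSelmer F[X] (RatFunc.inftyValuation F) ℓ (pts (twl pr e * ∏ P ∈ t, P) a) b) : ℝ)
          ≤ ∑ t ∈ gs F pr n, (nSol χ pr σ Λ t : ℝ) := by
      refine Finset.sum_le_sum fun t ht => ?_
      exact_mod_cast (hPInj F ℓ hℓ2 hq χ hχ m hm a ha b V pr hpr hcov e hT n t ht hI).2
    linarith

open Classical in
theorem pp_main (hLg : StmtSuLg.{u}) (hFM : StmtPpFM.{u}) (hMar : StmtPpMar.{u})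
    (hInd : StmtPpInd.{u}) (hBij : StmtPpBij.{u})
    (hCnt : StmtPpCnt.{u}) (hHyp : StmtPpHyp.{u}) (hLnk : StmtPpLnk.{u}) (hIrr : StmtPpIrr.{u})
    (hPInj : StmtPpInj.{u}) (hℓ2 : ℓ ≠ 2) (hq : ℓ ∣ Nat.card F - 1)
    (hm : 0 < m) {a : Fin m → F[X]} (ha : Function.Injective a) {b : Fin m → ℕ} {D : F[X]}
    (hD : TD ℓ b a D) :
    (∃ c : ℝ, 0 < c ∧ ∃ n₀ : ℕ, ∀ n : ℕ, n₀ ≤ n →
      c * (Nat.card F : ℝ) ^ n ≤ ((Msf a D n).ncard : ℝ)) ∧
    ∀ ε : ℝ, 0 < ε → ∃ n₀ : ℕ, ∀ n : ℕ, n₀ ≤ n →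
      Tame ℓ b (wI a) (-((D.natDegree + n : ℕ) : ℤ)) →
      (1 - ((m : ℝ) - 1) / ((ℓ : ℝ) - 1) - ε) * ((Msf a D n).ncard : ℝ) ≤
        ({M ∈ Msf a D n |
          placesSelmer F[X] (RatFunc.inftyValuation F) ℓ (pts (D * M) a) b =
            torsionGroup ℓ (pts (D * M) a) b}.ncard : ℝ) ∧
      (2 ≤ m → Conn ℓ a →
        (1 - 1 / ((ℓ : ℝ) - 1) - ε) * ((Msf a D n).ncard : ℝ) ≤
        ({M ∈ Msf a D n |
          placesSelmer F[X] (RatFunc.inftyValuation F) ℓ (pts (D * M) a) b =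
            torsionGroup ℓ (pts (D * M) a) b}.ncard : ℝ) ∧
        ∑ᶠ M ∈ Msf a D n, ((torsionGroup ℓ (pts (D * M) a) b).relIndex
          (placesSelmer F[X] (RatFunc.inftyValuation F) ℓ (pts (D * M) a) b) : ℝ)
          ≤ (2 + ε) * ((Msf a D n).ncard : ℝ)) := by
  have hℓ : ℓ.Prime := Fact.out
  have hq4 : 4 ≤ Nat.card F := by
    have h1 : 2 ≤ Nat.card F := Finite.one_lt_card
    have h2 := Nat.le_of_dvd (by omega) hq
    have h3 : 3 ≤ ℓ := lt_of_le_of_ne hℓ.two_le fun h => hℓ2 h.symm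
    omega
  obtain ⟨χ, hχ⟩ := hLg F ℓ hℓ hq
  obtain ⟨s, pr, hpr, hcov⟩ := pp_exists_bad ha hD.monic.ne_zero
  have hbij := fun n => pp_bijOn hBij hpr hcov n
  have hcard : ∀ n, ((Msf a D n).ncard : ℝ) = ((gs F pr n).card : ℝ) := by
    intro n
    rw [← (hbij n).image_eq, (hbij n).injOn.ncard_image, Set.ncard_coe_finset]
  constructor
  · obtain ⟨c, hc, n₀, h0⟩ := hCnt F hq4 (Fin s) pr hpr
    exact ⟨c, hc, n₀, fun n hn => by rw [hcard]; exact h0 n hn⟩
  · intro ε hε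
    by_cases hex : ∃ n : ℕ, Tame ℓ b (wI a) (-((D.natDegree + n : ℕ) : ℤ))
    swap
    · exact ⟨0, fun n _ h => absurd ⟨n, h⟩ hex⟩
    obtain ⟨n', hn'⟩ := hex
    have htw : twl pr (fun v => ((multiplicity (pr v) D : ℕ) : ZMod ℓ)) = D :=
      pp_twl hpr hD.monic hD.free fun P hP hPi hd => (hcov P hP hPi).2 (Or.inl hd)
    have hval : ∀ v, (((multiplicity (pr v) D : ℕ) : ZMod ℓ)).val = multiplicity (pr v) D :=
      fun v => ZMod.val_cast_of_lt (hD.free _ (hpr.monic v) (hpr.irr v))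
    have hT : ∀ v, Tame ℓ b (wP (pr v) a)
        ((((multiplicity (pr v) D : ℕ) : ZMod ℓ)).val : ℤ) := by
      intro v
      rw [hval]
      by_cases hdif : ∃ i j, i ≠ j ∧ pr v ∣ a i - a j
      · exact hD.tame _ (hpr.monic v) (hpr.irr v) hdif
      · have hvD : pr v ∣ D := by
          rcases (hcov _ (hpr.monic v) (hpr.irr v)).1 ⟨v, rfl⟩ with h | h
          · exact h
          · exact absurd h hdif
        refine tame_good hℓ (hn'.not_dvd_sum hm) (fun i => hn'.not_dvd i) ?_ ?_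
        · intro i k hik
          have h1 : ¬ pr v ∣ a i - a k := fun h => hdif ⟨i, k, hik, h⟩
          rw [wP, multiplicity_eq_zero.2 h1, Nat.cast_zero]
        · intro h
          rw [Int.natCast_dvd_natCast] at h
          have h1 := hD.free _ (hpr.monic v) (hpr.irr v)
          have h2 : multiplicity (pr v) D ≠ 0 := multiplicity_ne_zero.2 hvD
          exact absurd (Nat.le_of_dvd (Nat.pos_of_ne_zero h2) h) (not_le.2 h1)
    obtain ⟨n₀, h0⟩ := pp_core hFM hMar hInd hCnt hHyp hLnk hIrr hPInj hℓ2 hq hχ hm ha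
      (fun i => hn'.not_dvd i) (hn'.not_dvd_sum hm) hpr
      (fun P hP hPi i j hij hd => (hcov P hP hPi).2 (Or.inr ⟨i, j, hij, hd⟩)) hT ε hε
    rw [htw] at h0
    refine ⟨n₀, fun n hn hI => ?_⟩
    have h1 := h0 n hn hI
    have hfil : ({M ∈ Msf a D n |
          placesSelmer F[X] (RatFunc.inftyValuation F) ℓ (pts (D * M) a) b =
            torsionGroup ℓ (pts (D * M) a) b}.ncard : ℝ) = (((gs F pr n).filter fun t =>
          placesSelmer F[X] (RatFunc.inftyValuation F) ℓ (pts (D * ∏ P ∈ t, P) a) b =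
            torsionGroup ℓ (pts (D * ∏ P ∈ t, P) a) b).card : ℝ) := by
      have h2 : {M ∈ Msf a D n |
          placesSelmer F[X] (RatFunc.inftyValuation F) ℓ (pts (D * M) a) b =
            torsionGroup ℓ (pts (D * M) a) b} =
          (fun t : Finset F[X] => ∏ P ∈ t, P) '' (((gs F pr n).filter fun t =>
          placesSelmer F[X] (RatFunc.inftyValuation F) ℓ (pts (D * ∏ P ∈ t, P) a) b =
            torsionGroup ℓ (pts (D * ∏ P ∈ t, P) a) b : Finset (Finset F[X])) :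
              Set (Finset F[X])) := by
        ext M
        simp only [Set.mem_ofPred_eq, Set.mem_image, Finset.coe_filter]
        constructor
        · rintro ⟨hM, h⟩
          obtain ⟨t, ht, rfl⟩ := (hbij n).surjOn hM
          exact ⟨t, ⟨ht, h⟩, rfl⟩
        · rintro ⟨t, ⟨ht, h⟩, rfl⟩
          exact ⟨(hbij n).mapsTo ht, h⟩
      rw [h2, ((hbij n).injOn.mono ?_).ncard_image, Set.ncard_coe_finset]
      intro t ht
      rw [Finset.coe_filter] at ht
      exact ht.1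
    have hsum : ∑ᶠ M ∈ Msf a D n, ((torsionGroup ℓ (pts (D * M) a) b).relIndex
          (placesSelmer F[X] (RatFunc.inftyValuation F) ℓ (pts (D * M) a) b) : ℝ) =
        ∑ t ∈ gs F pr n, ((torsionGroup ℓ (pts (D * ∏ P ∈ t, P) a) b).relIndex
          (placesSelmer F[X] (RatFunc.inftyValuation F) ℓ (pts (D * ∏ P ∈ t, P) a) b) : ℝ) := by
      rw [← finsum_mem_coe_finset]
      exact (finsum_mem_eq_of_bijOn _ (hbij n) fun t _ => rfl).symm
    rw [hfil, hsum, hcard]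
    exact h1

/-- tame twists exist in every class of degrees -/
theorem pp_exists_TD (hLg : StmtSuLg.{u}) (hPrime : StmtSuPrime.{u}) (hℓ2 : ℓ ≠ 2)
    (hq : ℓ ∣ Nat.card F - 1) {a : Fin m → F[X]} (ha : Function.Injective a) {b : Fin m → ℕ}
    (hP : ∀ P : F[X], P.Monic → Irreducible P → ∃ e : ℤ, Tame ℓ b (wP P a) e)
    (hI : ∃ e : ℤ, Tame ℓ b (wI a) e) (θ : ZMod ℓ) :
    ∃ D : F[X], TD ℓ b a D ∧ ∀ n : ℕ, (n : ZMod ℓ) = θ →
      Tame ℓ b (wI a) (-((D.natDegree + n : ℕ) : ℤ)) := by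
  classical
  have hℓ : ℓ.Prime := Fact.out
  obtain ⟨χ, hχ⟩ := hLg F ℓ hℓ hq
  obtain ⟨e₁, he₁⟩ := hI
  obtain ⟨s, prS, hfamS, hcovS⟩ := su_exists_bad ha
  have hP' : ∀ v, ∃ e : ℤ, Tame ℓ b (wP (prS v) a) e := fun v =>
    hP _ (hfamS.monic v) (hfamS.irr v)
  choose e₀ he₀ using hP'
  let e : Fin s → ZMod ℓ := fun v => (e₀ v : ZMod ℓ)
  obtain ⟨R₀, hR₀m, hR₀i, hR₀ne, hR₀d, -⟩ := hPrime F ℓ hℓ hℓ2 hq χ hχ (Fin s) prS hfamS
    (fun _ => 0) (-(e₁ : ZMod ℓ) - θ - ∑ v, e v * ((prS v).natDegree : ZMod ℓ))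
  let pr0 : Option (Fin s) → F[X] := fun o => o.elim R₀ prS
  let ρ : Option (Fin s) → ZMod ℓ := fun o => o.elim 1 e
  have hfam0 : Fam pr0 := by
    refine ⟨?_, ?_, ?_⟩
    · rintro (_ | i) (_ | j) h
      · rfl
      · exact absurd h.symm (hR₀ne j)
      · exact absurd h (hR₀ne i)
      · exact congrArg some (hfamS.inj h)
    · rintro (_ | i)
      · exact hR₀m
      · exact hfamS.monic i
    · rintro (_ | i)
      · exact hR₀i
      · exact hfamS.irr i
  refine ⟨twl pr0 ρ, ⟨monic_twl hfam0 ρ, ?_, ?_⟩, ?_⟩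
  · intro P hPm hPi
    by_cases hd : P ∣ twl pr0 ρ
    · obtain ⟨β, rfl⟩ := susel_dvd_twl hfam0 hPm hPi hd
      rw [susel_mult hfam0]
      exact ZMod.val_lt _
    · rw [multiplicity_eq_zero.2 hd]
      exact hℓ.pos
  · rintro P hPm hPi ⟨i, j, hij, hd⟩
    obtain ⟨v, rfl⟩ := hcovS P hPm hPi i j hij hd
    have h1 := susel_mult hfam0 (ρ := ρ) (some v)
    change multiplicity (prS v) (twl pr0 ρ) = (e v).val at h1
    rw [h1]
    refine (he₀ v).congr ?_
    rw [Int.cast_natCast, ZMod.natCast_val, ZMod.cast_id', id]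
  · intro n hn
    refine he₁.congr ?_
    push_cast
    rw [natDegree_twl hfam0, Fintype.sum_option, hn]
    change (e₁ : ZMod ℓ) = -(1 * (R₀.natDegree : ZMod ℓ) +
      ∑ v, e v * ((prS v).natDegree : ZMod ℓ) + θ)
    rw [hR₀d]
    ring

/-- coprime differences of degrees prime to `ℓ` form a connected family -/
theorem pp_conn_of_coprime (hLg : StmtSuLg.{u}) (hFac : StmtSuFac.{u})
    (hq : ℓ ∣ Nat.card F - 1) {a : Fin m → F[X]} (ha : Function.Injective a)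
    (hdeg : ∀ i j, i ≠ j → ¬ ℓ ∣ (a i - a j).natDegree)
    (hcop : ∀ i j k l, i ≠ j → k ≠ l → s(i, j) ≠ s(k, l) → IsCoprime (a i - a j) (a k - a l)) :
    Conn ℓ a := by
  have hℓ : ℓ.Prime := Fact.out
  obtain ⟨χ, hχ⟩ := hLg F ℓ hℓ hq
  intro s hs hs'
  obtain ⟨i, hi⟩ := hs
  obtain ⟨j, hj⟩ : ∃ j, j ∉ s := by
    by_contra h
    push Not at h
    exact hs' (Finset.eq_univ_iff_forall.2 h)
  have hij : i ≠ j := fun h => hj (h ▸ hi)
  have h0 : a i - a j ≠ 0 := sub_ne_zero.2 fun h => hij (ha h)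
  refine ⟨i, hi, j, hj, ?_⟩
  by_contra hno
  push Not at hno
  refine hdeg i j hij ?_
  have hvl : ∀ P : F[X], P.Monic → Irreducible P → vl ℓ P (a i - a j) = 0 := by
    intro P hP hPi
    by_contra hne
    rw [vl, if_neg h0, ZMod.natCast_eq_zero_iff] at hne
    obtain ⟨k, l, hkl, h1, h2⟩ := hno P hP hPi hne
    have hd : P ∣ a i - a j := by
      by_contra hd
      exact hne (by rw [multiplicity_eq_zero.2 hd]; exact dvd_zero _)
    have hd2 : P ∣ a k - a l := by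
      by_contra hd2
      exact h2 (by rw [multiplicity_eq_zero.2 hd2]; exact dvd_zero _)
    exact hPi.not_isUnit ((hcop i j k l hij hkl h1.symm).isUnit_of_dvd' hd hd2)
  obtain ⟨-, h1, -⟩ := hFac F ℓ hℓ hq χ hχ (Fin 0) (fun v => v.elim0)
    ⟨fun v => v.elim0, fun v => v.elim0, fun v => v.elim0⟩ (a i - a j) h0
    (fun P hP hPi _ => hvl P hP hPi)
  rw [Finset.univ_eq_empty, Finset.sum_empty, ZMod.natCast_eq_zero_iff] at h1
  exact h1

end count

end MP72e2e6
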