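import Pool.Agent.Lib.MP_72e2e6_nt.PgStmt
import Pool.Agent.Lib.MP_72e2e6_nt.PpMain

/-!
# MP_72e2e6_nt: from twisting polynomials to families of primes, all primes `ℓ`
-/

set_option autoImplicit false

namespace MP72e2e6

open Polynomial

universe u

section

variable {m : ℕ}

/-- places without coincidences -/
theorem genfam_good {ℓ : ℕ} (hℓ : ℓ.Prime) {b : Fin m → ℕ} (hB : ¬ ℓ ∣ ∑ k, b k)
    {w : Fin m → Fin m → ℤ} (hw : ∀ i k, i ≠ k → w i k = 0) {e : ℤ} (he : ¬ (ℓ : ℤ) ∣ e) :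
    Tam ℓ b w e := by
  intro j i hji hdvd
  have h1 : lev b w j i = 0 := by
    refine Finset.sum_eq_zero fun k _ => ?_
    split_ifs with h
    · rw [hw j i hji, mul_zero]
    · rw [hw j i hji, hw j k fun h' => h h'.symm, min_self, mul_zero]
  rw [h1, add_zero] at hdvd
  rcases (Nat.prime_iff_prime_int.1 hℓ).dvd_or_dvd hdvd with h2 | h2
  · exact he h2
  · refine hB ?_
    rw [← Int.natCast_dvd_natCast]
    push_cast
    exact h2

variable {F : Type u} [Field F] [Finite F]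

/-- the family of the primes of `D` and of the differences -/
theorem gen_family (hBij : StmtPpBij.{u}) {ℓ : ℕ} (hℓ : ℓ.Prime) {a : Fin m → F[X]}
    (ha : Function.Injective a) {b : Fin m → ℕ} (hB : ¬ ℓ ∣ ∑ k, b k) {D : F[X]}
    (hD : TDg ℓ b a D) :
    ∃ (s : ℕ) (pr : Fin s → F[X]) (e : Fin s → ZMod ℓ), Fam pr ∧
      (∀ P : F[X], P.Monic → Irreducible P → ∀ i j, i ≠ j → P ∣ a i - a j → ∃ v, pr v = P) ∧
      twl pr e = D ∧ (∀ v, Tam ℓ b (wP (pr v) a) ((e v).val : ℤ)) ∧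
      ∀ n, Set.BijOn (fun t : Finset F[X] => ∏ P ∈ t, P) (gs F pr n : Set (Finset F[X]))
        (Msf a D n) := by
  have : Fact ℓ.Prime := ⟨hℓ⟩
  obtain ⟨s, pr, hpr, hcov⟩ := pp_exists_bad ha hD.monic.ne_zero
  refine ⟨s, pr, fun v => ((multiplicity (pr v) D : ℕ) : ZMod ℓ), hpr,
    fun P hP hPi i j hij hd => (hcov P hP hPi).2 (Or.inr ⟨i, j, hij, hd⟩),
    pp_twl hpr hD.monic hD.free fun P hP hPi hd => (hcov P hP hPi).2 (Or.inl hd), fun v => ?_,
    fun n => pp_bijOn hBij hpr hcov n⟩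
  have hval : (((multiplicity (pr v) D : ℕ) : ZMod ℓ)).val = multiplicity (pr v) D :=
    ZMod.val_cast_of_lt (hD.free _ (hpr.monic v) (hpr.irr v))
  rw [hval]
  by_cases hdif : ∃ i j, i ≠ j ∧ pr v ∣ a i - a j
  · exact hD.tame _ (hpr.monic v) (hpr.irr v) hdif
  · have hvD : pr v ∣ D := by
      rcases (hcov _ (hpr.monic v) (hpr.irr v)).1 ⟨v, rfl⟩ with h | h
      · exact h
      · exact absurd h hdif
    refine genfam_good hℓ hB ?_ ?_
    · intro i k hik
      have h1 : ¬ pr v ∣ a i - a k := fun h => hdif ⟨i, k, hik, h⟩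
      rw [wP, multiplicity_eq_zero.2 h1, Nat.cast_zero]
    · intro h
      rw [Int.natCast_dvd_natCast] at h
      have h1 := hD.free _ (hpr.monic v) (hpr.irr v)
      have h2 : multiplicity (pr v) D ≠ 0 := multiplicity_ne_zero.2 hvD
      exact absurd (Nat.le_of_dvd (Nat.pos_of_ne_zero h2) h) (not_le.2 h1)

end

end MP72e2e6
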