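import Pool.Agent.Lib.MP_72e2e6_nt.GenTwo
import Pool.Agent.Lib.MP_72e2e6_nt.GenFam

/-!
# MP_72e2e6_nt: the theorem for `ℓ = 2`, from the modules
-/

set_option autoImplicit false

namespace MP72e2e6

open Polynomial IsDedekindDomain

universe u

section

variable {F : Type u} [Field F] [Finite F]

open Classical in
/-- the theorem for `ℓ = 2` -/
theorem gentwo_main (hLg : StmtSuLg.{u}) (hFM : StmtPhFM.{u}) (hEq : StmtPhEq.{u})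
    (hMul : StmtPqMul.{u}) (hFun : StmtPqFun) (hMom : StmtPhMom) (hPow : StmtPrPow.{u})
    (hDis : StmtPhDis.{u}) (hCnt' : StmtPrCnt.{u}) (hRec : RecP.{u} 2) (hTor : StmtPgTor.{u})
    (hBij : StmtPpBij.{u}) (hCnt : StmtPpCnt.{u}) (hHyp : StmtPgHyp.{u}) (hRel : StmtPgRel.{u})
    (hEdg : StmtPgEdg.{u}) (hIrr : StmtPgIrr) (hHyG : StmtPgHyG.{u}) (hPar : StmtPgPar.{u})
    (hq : 2 ∣ Nat.card F - 1) (hz : ∃ z : F, z ^ 2 = -1)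
    {m : ℕ} (hm : 0 < m) {a : Fin m → F[X]} (ha : Function.Injective a) {b : Fin m → ℕ}
    (hb : ∀ i, ¬ 2 ∣ b i) (hB : ¬ 2 ∣ ∑ i, b i) {D : F[X]} (hD : TDg 2 b a D) :
    (∃ c : ℝ, 0 < c ∧ ∃ n₀ : ℕ, ∀ n : ℕ, n₀ ≤ n →
      c * (Nat.card F : ℝ) ^ n ≤ ((Msf a D n).ncard : ℝ)) ∧
    (∀ n : ℕ, Tam 2 b (wI a) (-((D.natDegree + n : ℕ) : ℤ)) → ∀ M ∈ Msf a D n,
      ∃ r : ℕ, ist 2 a b (D * M) = 4 ^ r) ∧
    (∀ k : ℕ, ∃ N : ℕ, (2 ≤ m → ConnG 2 a → N = ∏ i ∈ Finset.range k, (1 + 2 ^ (i + 1))) ∧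
      ∀ ε : ℝ, 0 < ε → ∃ n₀ : ℕ, ∀ n : ℕ, n₀ ≤ n →
        Tam 2 b (wI a) (-((D.natDegree + n : ℕ) : ℤ)) →
        |∑ᶠ M ∈ Msf a D n, (ist 2 a b (D * M) : ℝ) ^ k - (N : ℝ) * ((Msf a D n).ncard : ℝ)| ≤
          ε * ((Msf a D n).ncard : ℝ)) ∧
    (2 ≤ m → ConnG 2 a → ∀ (r : ℕ) (ε : ℝ), 0 < ε → ∃ n₀ : ℕ, ∀ n : ℕ, n₀ ≤ n →
      Tam 2 b (wI a) (-((D.natDegree + n : ℕ) : ℤ)) →
      |({M ∈ Msf a D n | ist 2 a b (D * M) = 4 ^ r}.ncard : ℝ) -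
        2 ^ (2 * r) * (∏' i : ℕ, (1 - ((2 : ℝ)⁻¹) ^ (2 * i + 1))) /
          (∏ i ∈ Finset.range (2 * r), ((2 : ℝ) ^ (i + 1) - 1)) * ((Msf a D n).ncard : ℝ)| ≤
        ε * ((Msf a D n).ncard : ℝ)) := by
  have hq4 : 4 ≤ Nat.card F := gentwo_four hq hz
  obtain ⟨χ, hχ⟩ := hLg F 2 Nat.prime_two hq
  obtain ⟨s, pr, e, hpr, hcov, htw, hT, hbij⟩ := gen_family hBij Nat.prime_two ha hB hD
  have hcard : ∀ n, ((Msf a D n).ncard : ℝ) = ((gs F pr n).card : ℝ) := by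
    intro n
    rw [← (hbij n).image_eq, (hbij n).injOn.ncard_image, Set.ncard_coe_finset]
  obtain ⟨h1, h2, h3⟩ := gentwo_core hFM hEq hMul hFun hMom hPow hDis hCnt' hRec hTor hCnt hHyp
    hRel hEdg hIrr hHyG hPar hq hz hχ hm ha hb hB hpr hcov hT
  rw [htw] at h1 h2 h3
  refine ⟨?_, fun n hn M hM => ?_, fun k => ?_, fun hm2 hcn r ε hε => ?_⟩
  · obtain ⟨c, hc, n₀, h0⟩ := hCnt F hq4 (Fin s) pr hpr
    exact ⟨c, hc, n₀, fun n hn => by rw [hcard]; exact h0 n hn⟩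
  · obtain ⟨t, ht, rfl⟩ := (hbij n).surjOn hM
    exact h1 n hn t ht
  · obtain ⟨N, hN, h5⟩ := h2 k
    refine ⟨N, hN, fun ε hε => ?_⟩
    obtain ⟨n₀, h0⟩ := h5 ε hε
    refine ⟨n₀, fun n hn hI => ?_⟩
    rw [hcard, pr_finsum (hbij n) fun M => (ist 2 a b (D * M) : ℝ) ^ k]
    exact h0 n hn hI
  · obtain ⟨n₀, h0⟩ := h3 hm2 hcn r ε hε
    refine ⟨n₀, fun n hn hI => ?_⟩
    rw [hcard, pr_ncard (hbij n) fun M => ist 2 a b (D * M) = 4 ^ r]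
    refine (le_of_eq ?_).trans (h0 n hn hI)
    congr 4
    exact Finset.filter_congr_decidable _ _ _

end

end MP72e2e6
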