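import Pool.Agent.Lib.MP_72e2e6_nt.PpStmtB

/-!
# MP_72e2e6_nt: positive proportion of twists, module PpInd
-/

namespace MP72e2e6

open Polynomial

universe u

section ind

variable {F : Type u} [Field F] {ℓ : ℕ} {V W : Type} [Fintype V] [AddCommGroup W]
  [Module (ZMod ℓ) W]

theorem ppind_zero (χ : F → ZMod ℓ) (pr : V → F[X]) (σ : V → Module.End (ZMod ℓ) W)
    (Λ : Module.End (ZMod ℓ) W) (t : Finset F[X]) : SolW χ pr σ Λ t 0 0 where
  inf := by simp
  bad := fun v => by simp
  good := fun P => by simp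

theorem ppind_iff {χ : F → ZMod ℓ} {pr : V → F[X]} {σ : V → Module.End (ZMod ℓ) W}
    {Λ : Module.End (ZMod ℓ) W} {t : Finset F[X]} :
    nSol χ pr σ Λ t = 1 ↔ ∀ (c : V → W) (f : t → W), SolW χ pr σ Λ t c f → c = 0 ∧ f = 0 := by
  unfold nSol
  rw [Nat.card_eq_one_iff_unique]
  constructor
  · rintro ⟨h, -⟩ c f hcf
    have h1 := congrArg Subtype.val (h.elim ⟨(c, f), hcf⟩ ⟨(0, 0), ppind_zero χ pr σ Λ t⟩)
    exact ⟨congrArg Prod.fst h1, congrArg Prod.snd h1⟩
  · intro h
    refine ⟨⟨fun x y => Subtype.ext ?_⟩, ⟨⟨(0, 0), ppind_zero χ pr σ Λ t⟩⟩⟩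
    obtain ⟨h1, h2⟩ := h _ _ x.2
    obtain ⟨h3, h4⟩ := h _ _ y.2
    exact Prod.ext (h1.trans h3.symm) (h2.trans h4.symm)

/-- an injective operator which preserves a finite subspace is injective on the quotient -/
theorem ppind_mem [Finite W] (A : Submodule (ZMod ℓ) W) (S : Module.End (ZMod ℓ) W)
    (hS : ∀ y, S y = 0 → y = 0) (hA : ∀ y ∈ A, S y ∈ A) {y : W} (hy : S y ∈ A) : y ∈ A := by
  have hinj : Function.Injective (S.restrict hA) := by
    rw [injective_iff_map_eq_zero]
    intro a ha
    exact Subtype.ext (hS a (congrArg Subtype.val ha))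
  obtain ⟨a, ha⟩ := (Finite.injective_iff_surjective.1 hinj) ⟨S y, hy⟩
  have h1 : S a = S y := congrArg Subtype.val ha
  have h2 : (a : W) - y = 0 := hS _ (by rw [map_sub, h1, sub_self])
  rw [← sub_eq_zero.1 h2]
  exact a.2

end ind

open Classical in
theorem ppind_aux.{v} (hPpMar : StmtPpMar.{v}) (F : Type v) [Field F] [Finite F] (ℓ : ℕ)
    [Fact ℓ.Prime] (hℓ2 : ℓ ≠ 2) (hq : ℓ ∣ Nat.card F - 1) (χ : F → ZMod ℓ) (hχ : IsLg ℓ χ)
    (V : Type) [Fintype V] (pr : V → F[X]) (hpr : Fam pr) : ∀ (N : ℕ) (W : Type)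
    [AddCommGroup W] [Module (ZMod ℓ) W] [Finite W]
    (σ : V → Module.End (ZMod ℓ) W) (Λ : Module.End (ZMod ℓ) W) (_ : HypW χ pr σ Λ),
    Module.finrank (ZMod ℓ) W = N → ∀ (ε : ℝ) (_ : 0 < ε),
    ∃ n₀ : ℕ, ∀ n : ℕ, n₀ ≤ n → InfW pr σ n →
      (((gs F pr n).filter fun t => nSol χ pr σ Λ t ≠ 1).card : ℝ) ≤
        Module.finrank (ZMod ℓ) W * (((gs F pr n).card : ℝ) / ((ℓ : ℝ) - 1)) +
          ε * (Nat.card F : ℝ) ^ n := by
  have hℓ : ℓ.Prime := Fact.out
  have hℓ1 : (0 : ℝ) < (ℓ : ℝ) - 1 := by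
    have : (2 : ℝ) ≤ ℓ := by exact_mod_cast hℓ.two_le
    linarith
  intro N
  induction N using Nat.strong_induction_on with
  | _ N ih =>
    intro W _ _ _ σ Λ hH hN ε hε
    have : FiniteDimensional (ZMod ℓ) W := Module.Finite.of_finite
    rcases subsingleton_or_nontrivial W with hW | hW
    · refine ⟨0, fun n _ _ => ?_⟩
      have h1 : ((gs F pr n).filter fun t => nSol χ pr σ Λ t ≠ 1) = ∅ := by
        refine Finset.filter_eq_empty_iff.2 fun t _ => not_not.2 ?_
        rw [ppind_iff]
        exact fun c f _ => ⟨Subsingleton.elim _ _, Subsingleton.elim _ _⟩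
      rw [h1, Finset.card_empty, Nat.cast_zero]
      positivity
    by_cases hirr : IrrW σ Λ
    · obtain ⟨n₀, h0⟩ := hPpMar F ℓ hℓ2 hq χ hχ V W pr hpr σ Λ hirr hH ε hε
      refine ⟨n₀, fun n hn hI => (h0 n hn hI).trans ?_⟩
      have h1 : (1 : ℝ) ≤ Module.finrank (ZMod ℓ) W := by
        have h2 : 0 < Module.finrank (ZMod ℓ) W := Module.finrank_pos
        exact_mod_cast h2
      have h2 : (0 : ℝ) ≤ ((gs F pr n).card : ℝ) / ((ℓ : ℝ) - 1) := by positivity
      nlinarith
    · -- an invariant subspace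
      obtain ⟨A, hAσ, hAΛ, hAb, hAt⟩ : ∃ A : Submodule (ZMod ℓ) W,
          (∀ v, ∀ y ∈ A, σ v y ∈ A) ∧ (∀ y ∈ A, Λ y ∈ A) ∧ A ≠ ⊥ ∧ A ≠ ⊤ := by
        by_contra hno
        push Not at hno
        refine hirr ⟨hW, fun A h1 h2 => ?_⟩
        by_cases h3 : A = ⊥
        · exact Or.inl h3
        · exact Or.inr (hno A h1 h2 h3)
      let σA : V → Module.End (ZMod ℓ) A := fun v => (σ v).restrict (hAσ v)
      let ΛA : Module.End (ZMod ℓ) A := Λ.restrict hAΛ
      let σQ : V → Module.End (ZMod ℓ) (W ⧸ A) := fun v => A.mapQ A (σ v) (fun y hy => hAσ v y hy)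
      let ΛQ : Module.End (ZMod ℓ) (W ⧸ A) := A.mapQ A Λ (fun y hy => hAΛ y hy)
      have eA : ∀ v (y : A), ((σA v y : A) : W) = σ v y := fun v y => rfl
      have eAΛ : ∀ (y : A), ((ΛA y : A) : W) = Λ y := fun y => rfl
      have eQ : ∀ v (y : W), σQ v (A.mkQ y) = A.mkQ (σ v y) := fun v y => rfl
      have eQΛ : ∀ (y : W), ΛQ (A.mkQ y) = A.mkQ (Λ y) := fun y => rfl
      have hHA : HypW χ pr σA ΛA := by
        refine ⟨fun v y hy => Subtype.ext (hH.inj v y (congrArg Subtype.val hy)), fun v y => ?_⟩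
        refine Subtype.ext ?_
        have h1 := hH.com v y
        simp only [map_add, map_sum, map_smul] at h1
        simp only [map_add, map_sum, map_smul, Submodule.coe_add, Submodule.coe_sum,
          Submodule.coe_smul, eA, eAΛ]
        exact h1
      have hmk : ∀ y : W, A.mkQ y = 0 ↔ y ∈ A := fun y => by
        rw [Submodule.mkQ_apply, Submodule.Quotient.mk_eq_zero]
      have hHQ : HypW χ pr σQ ΛQ := by
        refine ⟨fun v y hy => ?_, fun v y => ?_⟩
        · obtain ⟨y, rfl⟩ := A.mkQ_surjective y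
          rw [eQ, hmk] at hy
          rw [hmk]
          exact ppind_mem A (σ v) (hH.inj v) (hAσ v) hy
        · obtain ⟨y, rfl⟩ := A.mkQ_surjective y
          have h1 := congrArg A.mkQ (hH.com v y)
          simp only [map_add, map_sum, map_smul] at h1
          simp only [map_add, map_sum, map_smul, eQ, eQΛ]
          exact h1
      have hIA : ∀ n, InfW pr σ n → InfW pr σA n := by
        intro n hI y hy
        refine Subtype.ext (hI y ?_)
        have h1 := congrArg Subtype.val hy
        simp only [Submodule.coe_add, Submodule.coe_sum, Submodule.coe_smul, eA,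
          Submodule.coe_zero] at h1
        exact h1
      have hIQ : ∀ n, InfW pr σ n → InfW pr σQ n := by
        intro n hI y hy
        obtain ⟨y, rfl⟩ := A.mkQ_surjective y
        rw [hmk]
        have h1 : A.mkQ ((∑ v, ((pr v).natDegree : ZMod ℓ) • σ v + (n : ZMod ℓ) • 1 :
            Module.End (ZMod ℓ) W) y) = 0 := by
          rw [← hy]
          simp only [LinearMap.add_apply, LinearMap.sum_apply, LinearMap.smul_apply,
            Module.End.one_apply, map_add, map_sum, map_smul, eQ]
        rw [hmk] at h1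
        refine ppind_mem A _ (fun z hz => hI z ?_) (fun z hz => ?_) h1
        · rw [← hz]
          simp only [LinearMap.add_apply, LinearMap.sum_apply, LinearMap.smul_apply,
            Module.End.one_apply]
        · simp only [LinearMap.add_apply, LinearMap.sum_apply, LinearMap.smul_apply,
            Module.End.one_apply]
          exact A.add_mem (A.sum_mem fun v _ => A.smul_mem _ (hAσ v z hz)) (A.smul_mem _ hz)
      have hdim := A.finrank_quotient_add_finrank
      have hA0 : 0 < Module.finrank (ZMod ℓ) A := by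
        have hnt : Nontrivial A := Submodule.nontrivial_iff_ne_bot.2 hAb
        exact Module.finrank_pos
      have hA1 : Module.finrank (ZMod ℓ) A < N := by
        rw [← hN]
        exact Submodule.finrank_lt hAt
      have hfQ : Finite (W ⧸ A) := Finite.of_surjective A.mkQ A.mkQ_surjective
      obtain ⟨n₁, h1⟩ := ih _ hA1 A σA ΛA hHA rfl (ε / 2) (by positivity)
      obtain ⟨n₂, h2⟩ := ih (Module.finrank (ZMod ℓ) (W ⧸ A)) (by omega) (W ⧸ A) σQ ΛQ hHQ rfl
        (ε / 2) (by positivity)
      refine ⟨max n₁ n₂, fun n hn hI => ?_⟩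
      have h3 := h1 n ((le_max_left _ _).trans hn) (hIA n hI)
      have h4 := h2 n ((le_max_right _ _).trans hn) (hIQ n hI)
      have hsub : ((gs F pr n).filter fun t => nSol χ pr σ Λ t ≠ 1) ⊆
          ((gs F pr n).filter fun t => nSol χ pr σA ΛA t ≠ 1) ∪
          ((gs F pr n).filter fun t => nSol χ pr σQ ΛQ t ≠ 1) := by
        intro t ht
        rw [Finset.mem_filter] at ht
        rw [Finset.mem_union, Finset.mem_filter, Finset.mem_filter]
        by_contra hno
        push Not at hno
        obtain ⟨h5, h6⟩ := hno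
        have h5 := ppind_iff.1 (h5 ht.1)
        have h6 := ppind_iff.1 (h6 ht.1)
        refine ht.2 (ppind_iff.2 fun c f hcf => ?_)
        have h7 : SolW χ pr σQ ΛQ t (fun v => A.mkQ (c v)) (fun P => A.mkQ (f P)) := by
          refine ⟨?_, fun v => ?_, fun P => ?_⟩
          · have h8 := congrArg A.mkQ hcf.inf
            simp only [map_add, map_sum, map_smul, map_zero] at h8
            simp only [eQ]
            exact h8
          · have h8 := congrArg A.mkQ (hcf.bad v)
            simp only [map_add, map_sum, map_smul, map_sub] at h8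
            simp only [map_sub, eQ, eQΛ]
            exact h8
          · have h8 := congrArg A.mkQ (hcf.good P)
            simp only [map_add, map_sum, map_smul, map_sub] at h8
            simp only [map_sub, eQ, eQΛ]
            exact h8
        obtain ⟨h8, h9⟩ := h6 _ _ h7
        have hc : ∀ v, c v ∈ A := fun v => (hmk _).1 (congrFun h8 v)
        have hf : ∀ P, f P ∈ A := fun P => (hmk _).1 (congrFun h9 P)
        have h10 : SolW χ pr σA ΛA t (fun v => ⟨c v, hc v⟩) (fun P => ⟨f P, hf P⟩) := by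
          refine ⟨?_, fun v => ?_, fun P => ?_⟩
          · refine Subtype.ext ?_
            simp only [Submodule.coe_add, Submodule.coe_sum, Submodule.coe_smul, eA,
              Submodule.coe_zero]
            exact hcf.inf
          · refine Subtype.ext ?_
            simp only [Submodule.coe_add, Submodule.coe_sum, Submodule.coe_smul, eA, eAΛ,
              Submodule.coe_sub]
            exact hcf.bad v
          · refine Subtype.ext ?_
            simp only [Submodule.coe_add, Submodule.coe_sum, Submodule.coe_smul, eA, eAΛ,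
              Submodule.coe_sub]
            exact hcf.good P
        obtain ⟨h11, h12⟩ := h5 _ _ h10
        exact ⟨funext fun v => congrArg Subtype.val (congrFun h11 v),
          funext fun P => congrArg Subtype.val (congrFun h12 P)⟩
      have h5 := (Finset.card_le_card hsub).trans (Finset.card_union_le _ _)
      have h6 : (((gs F pr n).filter fun t => nSol χ pr σ Λ t ≠ 1).card : ℝ) ≤
          (((gs F pr n).filter fun t => nSol χ pr σA ΛA t ≠ 1).card : ℝ) +
          (((gs F pr n).filter fun t => nSol χ pr σQ ΛQ t ≠ 1).card : ℝ) := by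
        exact_mod_cast h5
      have h7 : (Module.finrank (ZMod ℓ) W : ℝ) = Module.finrank (ZMod ℓ) (W ⧸ A) +
          Module.finrank (ZMod ℓ) A := by exact_mod_cast hdim.symm
      rw [h7]
      linarith

open Classical in
theorem tPpInd.{v} (hPpMar : StmtPpMar.{v}) : StmtPpInd.{v} := by
  intro F _ _ ℓ _ hℓ2 hq χ hχ V W _ _ _ _ pr hpr σ Λ hH ε hε
  exact ppind_aux hPpMar F ℓ hℓ2 hq χ hχ V pr hpr _ W σ Λ hH rfl ε hε

end MP72e2e6
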