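import Pool.Agent.Lib.MP_72e2e6_nt.PqStmt

/-!
# MP_72e2e6_nt: primitive solutions (PqPrim)

The number of the solutions which do not lie in a proper invariant subspace is on average
`|Sk|` (induction over the invariant subspaces).
-/

set_option autoImplicit false

namespace MP72e2e6

open Polynomial

universe u

section

variable {ℓ : ℕ} {V : Type} {F : Type u} [Field F]

/-- Injective intertwining operators respect and detect the equations. -/
theorem pqprim_map [Fintype V] {χ : F → ZMod ℓ} {pr : V → F[X]} {S T : Sys ℓ V}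
    {i : S.W →ₗ[ZMod ℓ] T.W} (hi : Function.Injective i) (h : i ∈ HomS S T) {t : Finset F[X]}
    (c : V → S.W) (f : t → S.W) :
    SolW χ pr T.σ T.Λ t (fun v => i (c v)) (fun P => i (f P)) ↔ SolW χ pr S.σ S.Λ t c f := by
  have h1 : ∀ v y, i (S.σ v y) = T.σ v (i y) := h.1
  have h2 : ∀ y, i (S.Λ y) = T.Λ (i y) := h.2
  have e1 : i (∑ v, ((pr v).natDegree : ZMod ℓ) • S.σ v (c v) +
      ∑ P : t, (P.1.natDegree : ZMod ℓ) • f P) =
      ∑ v, ((pr v).natDegree : ZMod ℓ) • T.σ v (i (c v)) +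
      ∑ P : t, (P.1.natDegree : ZMod ℓ) • i (f P) := by
    simp only [map_add, map_sum, map_smul, h1]
  have e2 : ∀ v, i (∑ v', syl χ (pr v) (pr v') • S.σ v' (c v' - c v) +
      ∑ P : t, syl χ (pr v) P.1 • (f P - c v)) =
      ∑ v', syl χ (pr v) (pr v') • T.σ v' (i (c v') - i (c v)) +
      ∑ P : t, syl χ (pr v) P.1 • (i (f P) - i (c v)) := by
    intro v
    simp only [map_add, map_sum, map_smul, map_sub, h1]
  have e3 : ∀ P : t, i (∑ v, syl χ P.1 (pr v) • S.σ v (c v - f P) +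
      ∑ Q : t, syl χ P.1 Q.1 • (f Q - f P)) =
      ∑ v, syl χ P.1 (pr v) • T.σ v (i (c v) - i (f P)) +
      ∑ Q : t, syl χ P.1 Q.1 • (i (f Q) - i (f P)) := by
    intro P
    simp only [map_add, map_sum, map_smul, map_sub, h1]
  constructor
  · intro s
    refine ⟨?_, fun v => ?_, fun P => ?_⟩
    · apply hi
      rw [e1, s.inf, map_zero]
    · apply hi
      rw [e2, s.bad v, map_smul, h2]
    · apply hi
      rw [e3, s.good P, map_smul, h2]
  · intro s
    refine ⟨?_, fun v => ?_, fun P => ?_⟩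
    · rw [← e1, s.inf, map_zero]
    · rw [← e2, s.bad v, map_smul, h2]
    · rw [← e3, s.good P, map_smul, h2]

/-- The inclusion of an invariant subspace. -/
def pqprim_i (S : Sys ℓ V) (A : Submodule (ZMod ℓ) S.W) (hA : Inv S.σ S.Λ A) :
    (S.sub A hA).W →ₗ[ZMod ℓ] S.W := A.subtype

theorem pqprim_i_inj (S : Sys ℓ V) (A : Submodule (ZMod ℓ) S.W) (hA : Inv S.σ S.Λ A) :
    Function.Injective (pqprim_i S A hA) := Subtype.val_injective

theorem pqprim_i_mem (S : Sys ℓ V) (A : Submodule (ZMod ℓ) S.W) (hA : Inv S.σ S.Λ A) :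
    pqprim_i S A hA ∈ HomS (S.sub A hA) S := ⟨fun _ _ => rfl, fun _ => rfl⟩

/-- The smallest invariant subspace which contains the values. -/
def pqprim_hull (S : Sys ℓ V) {t : Finset F[X]} (x : (V → S.W) × (t → S.W)) :
    Submodule (ZMod ℓ) S.W :=
  sInf {A | Inv S.σ S.Λ A ∧ (∀ v, x.1 v ∈ A) ∧ ∀ P, x.2 P ∈ A}

theorem pqprim_hull_inv (S : Sys ℓ V) {t : Finset F[X]} (x : (V → S.W) × (t → S.W)) :
    Inv S.σ S.Λ (pqprim_hull S x) := by
  refine ⟨fun v y hy => ?_, fun y hy => ?_⟩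
  · rw [pqprim_hull, Submodule.mem_sInf] at hy ⊢
    exact fun A hA => hA.1.sg v y (hy A hA)
  · rw [pqprim_hull, Submodule.mem_sInf] at hy ⊢
    exact fun A hA => hA.1.lm y (hy A hA)

theorem pqprim_hull_fst (S : Sys ℓ V) {t : Finset F[X]} (x : (V → S.W) × (t → S.W)) (v : V) :
    x.1 v ∈ pqprim_hull S x := by
  rw [pqprim_hull, Submodule.mem_sInf]
  exact fun A hA => hA.2.1 v

theorem pqprim_hull_snd (S : Sys ℓ V) {t : Finset F[X]} (x : (V → S.W) × (t → S.W)) (P : t) :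
    x.2 P ∈ pqprim_hull S x := by
  rw [pqprim_hull, Submodule.mem_sInf]
  exact fun A hA => hA.2.2 P

theorem pqprim_hull_le (S : Sys ℓ V) {t : Finset F[X]} (x : (V → S.W) × (t → S.W))
    (A : Submodule (ZMod ℓ) S.W) (hA : Inv S.σ S.Λ A) (h1 : ∀ v, x.1 v ∈ A)
    (h2 : ∀ P, x.2 P ∈ A) : pqprim_hull S x ≤ A :=
  sInf_le ⟨hA, h1, h2⟩

/-- The hull of a solution. -/
def pqprim_f [Fintype V] (χ : F → ZMod ℓ) (pr : V → F[X]) (S : Sys ℓ V) (t : Finset F[X])
    (x : {x : (V → S.W) × (t → S.W) // SolW χ pr S.σ S.Λ t x.1 x.2}) :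
    {A : Submodule (ZMod ℓ) S.W // Inv S.σ S.Λ A} :=
  ⟨pqprim_hull S x.1, pqprim_hull_inv S x.1⟩

/-- The solutions with hull `A` are the primitive solutions of `A`. -/
theorem pqprim_fib [Fintype V] (χ : F → ZMod ℓ) (pr : V → F[X]) (S : Sys ℓ V) (t : Finset F[X])
    (A : {A : Submodule (ZMod ℓ) S.W // Inv S.σ S.Λ A}) :
    Nat.card {x // pqprim_f χ pr S t x = A} = (S.sub A.1 A.2).prim χ pr t := by
  obtain ⟨A, hA⟩ := A
  set i := pqprim_i S A hA with hi
  have hinj : Function.Injective i := pqprim_i_inj S A hA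
  have himem : i ∈ HomS (S.sub A hA) S := pqprim_i_mem S A hA
  symm
  rw [Sys.prim]
  refine Nat.card_eq_of_bijective (fun y => ⟨⟨(fun v => i (y.1.1 v), fun P => i (y.1.2 P)),
    (pqprim_map hinj himem y.1.1 y.1.2).2 y.2.1⟩, ?_⟩) ⟨?_, ?_⟩
  · apply Subtype.ext
    change pqprim_hull S _ = A
    refine le_antisymm (pqprim_hull_le _ _ _ hA (fun v => (y.1.1 v).2) fun P => (y.1.2 P).2) ?_
    set B := pqprim_hull S (fun v => i (y.1.1 v), fun P => i (y.1.2 P)) with hB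
    have hBi : Inv S.σ S.Λ B := pqprim_hull_inv S _
    have h1 := y.2.2 (B.comap i) ⟨fun v z hz => hBi.sg v _ hz, fun z hz => hBi.lm _ hz⟩
      (fun v => pqprim_hull_fst S (fun v => i (y.1.1 v), fun P => i (y.1.2 P)) v)
      (fun P => pqprim_hull_snd S (fun v => i (y.1.1 v), fun P => i (y.1.2 P)) P)
    intro a ha
    have h2 : ∀ z : (S.sub A hA).W, z ∈ B.comap i := fun z => h1 ▸ Submodule.mem_top
    exact h2 ⟨a, ha⟩
  · intro y y' h
    have h1 := congrArg (fun z => z.1.1) h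
    apply Subtype.ext
    refine Prod.ext (funext fun v => ?_) (funext fun P => ?_)
    · exact hinj (congrFun (congrArg Prod.fst h1) v)
    · exact hinj (congrFun (congrArg Prod.snd h1) P)
  · rintro ⟨x, hx⟩
    have hx' : pqprim_hull S x.1 = A := congrArg Subtype.val hx
    have h1 : ∀ v, x.1.1 v ∈ A := fun v => hx' ▸ pqprim_hull_fst S x.1 v
    have h2 : ∀ P, x.1.2 P ∈ A := fun P => hx' ▸ pqprim_hull_snd S x.1 P
    refine ⟨⟨(fun v => (⟨x.1.1 v, h1 v⟩ : A), fun P => (⟨x.1.2 P, h2 P⟩ : A)),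
      (pqprim_map hinj himem _ _).1 x.2, fun B hB b1 b2 => ?_⟩, rfl⟩
    have h3 : pqprim_hull S x.1 ≤ B.map i := by
      refine pqprim_hull_le _ _ _ ⟨?_, ?_⟩ (fun v => ?_) fun P => ?_
      · rintro v _ ⟨z, hz, rfl⟩
        exact ⟨_, hB.sg v z hz, rfl⟩
      · rintro _ ⟨z, hz, rfl⟩
        exact ⟨_, hB.lm z hz, rfl⟩
      · exact ⟨_, b1 v, rfl⟩
      · exact ⟨_, b2 P, rfl⟩
    rw [hx'] at h3
    refine (Submodule.eq_top_iff').2 fun z => ?_
    obtain ⟨w, hw, hwz⟩ := h3 (show i z ∈ A from z.2)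
    rw [← hinj hwz]
    exact hw

/-- The solutions with hull `⊤`. -/
theorem pqprim_top [Fintype V] (χ : F → ZMod ℓ) (pr : V → F[X]) (S : Sys ℓ V) (t : Finset F[X])
    (hT : Inv S.σ S.Λ ⊤) :
    Nat.card {x // pqprim_f χ pr S t x = ⟨⊤, hT⟩} = S.prim χ pr t := by
  rw [Sys.prim]
  refine Nat.card_eq_of_bijective (fun y => ⟨y.1.1, y.1.2, ?_⟩) ⟨?_, ?_⟩
  · intro A hA h1 h2
    have h3 : pqprim_hull S y.1.1 = ⊤ := congrArg Subtype.val y.2
    exact top_le_iff.1 (h3 ▸ pqprim_hull_le S y.1.1 A hA h1 h2)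
  · intro y y' h
    apply Subtype.ext
    apply Subtype.ext
    exact congrArg (fun z => z.1) h
  · rintro ⟨x, hx1, hx2⟩
    refine ⟨⟨⟨x, hx1⟩, ?_⟩, rfl⟩
    apply Subtype.ext
    exact hx2 _ (pqprim_hull_inv S x) (pqprim_hull_fst S x) (pqprim_hull_snd S x)

/-- Every solution has a hull. -/
theorem pqprim_sum [Fintype V] (χ : F → ZMod ℓ) (pr : V → F[X]) (S : Sys ℓ V) (t : Finset F[X])
    [Fintype {A : Submodule (ZMod ℓ) S.W // Inv S.σ S.Λ A}] :
    S.sol χ pr t = ∑ A : {A : Submodule (ZMod ℓ) S.W // Inv S.σ S.Λ A},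
      Nat.card {x // pqprim_f χ pr S t x = A} := by
  rw [Sys.sol, nSol, ← Nat.card_sigma]
  exact Nat.card_congr (Equiv.sigmaFiberEquiv (pqprim_f χ pr S t)).symm

theorem pqprim_skA (S : Sys ℓ V) (A : Submodule (ZMod ℓ) S.W) (hA : Inv S.σ S.Λ A) :
    Nat.card (Sk (S.sub A hA).σ (S.sub A hA).Λ) = Nat.card (SkA S.σ S.Λ A) := by
  refine Nat.card_congr (Equiv.subtypeEquivRight
    (α := A →ₗ[ZMod ℓ] Module.Dual (ZMod ℓ) A) fun g => ?_)
  constructor
  · intro h x y hxy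
    obtain ⟨h1, h2, h3⟩ := h x
    rcases hxy with hy | ⟨v, hy⟩ | hy
    · have : y = x := Subtype.ext hy
      rw [this]
      exact h1
    · have : y = (S.sub A hA).σ v x := Subtype.ext hy
      rw [this]
      exact h2 v
    · have : y = (S.sub A hA).Λ x := Subtype.ext hy
      rw [this]
      exact h3
  · intro h x
    exact ⟨h x x (Or.inl rfl), fun v => h x _ (Or.inr (Or.inl ⟨v, rfl⟩)),
      h x _ (Or.inr (Or.inr rfl))⟩

theorem pqprim_skT (S : Sys ℓ V) :
    Nat.card (Sk S.σ S.Λ) = Nat.card (SkA S.σ S.Λ ⊤) := by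
  let e : (⊤ : Submodule (ZMod ℓ) S.W) ≃ₗ[ZMod ℓ] S.W := Submodule.topEquiv
  refine Nat.card_eq_of_bijective
    (fun g => ⟨g.1.compl₁₂ e.toLinearMap e.toLinearMap, ?_⟩) ⟨?_, ?_⟩
  · intro x y hxy
    obtain ⟨h1, h2, h3⟩ := g.2 (e x)
    change g.1 (e x) (e y) = 0
    rcases hxy with hy | ⟨v, hy⟩ | hy
    · have : e y = e x := hy
      rw [this]
      exact h1
    · have : e y = S.σ v (e x) := hy
      rw [this]
      exact h2 v
    · have : e y = S.Λ (e x) := hy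
      rw [this]
      exact h3
  · intro g g' h
    apply Subtype.ext
    refine LinearMap.ext fun x => LinearMap.ext fun y => ?_
    have h1 := LinearMap.congr_fun (LinearMap.congr_fun (congrArg (fun z => z.1) h) (e.symm x))
      (e.symm y)
    have h2 : g.1 (e (e.symm x)) (e (e.symm y)) = g'.1 (e (e.symm x)) (e (e.symm y)) := h1
    rw [LinearEquiv.apply_symm_apply, LinearEquiv.apply_symm_apply] at h2
    exact h2
  · intro g
    refine ⟨⟨g.1.compl₁₂ e.symm.toLinearMap e.symm.toLinearMap, fun x => ⟨?_, fun v => ?_, ?_⟩⟩,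
      ?_⟩
    · exact g.2 _ _ (Or.inl rfl)
    · exact g.2 _ _ (Or.inr (Or.inl ⟨v, rfl⟩))
    · exact g.2 _ _ (Or.inr (Or.inr rfl))
    · apply Subtype.ext
      refine LinearMap.ext fun x => LinearMap.ext fun y => ?_
      change g.1 (e.symm (e x)) (e.symm (e y)) = g.1 x y
      rw [LinearEquiv.symm_apply_apply, LinearEquiv.symm_apply_apply]

theorem pqprim_hyp [Fintype V] {χ : F → ZMod ℓ} {pr : V → F[X]} {S : Sys ℓ V}
    (h : HypW χ pr S.σ S.Λ) (A : Submodule (ZMod ℓ) S.W) (hA : Inv S.σ S.Λ A) :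
    HypW χ pr (S.sub A hA).σ (S.sub A hA).Λ := by
  have hinj := pqprim_i_inj S A hA
  have h1 : ∀ v y, pqprim_i S A hA ((S.sub A hA).σ v y) = S.σ v (pqprim_i S A hA y) :=
    (pqprim_i_mem S A hA).1
  have h2 : ∀ y, pqprim_i S A hA ((S.sub A hA).Λ y) = S.Λ (pqprim_i S A hA y) :=
    (pqprim_i_mem S A hA).2
  refine ⟨fun v y hy => ?_, fun v y => ?_⟩
  · apply hinj
    rw [map_zero]
    refine h.inj v _ ?_
    rw [← h1, hy, map_zero]
  · apply hinj
    have := h.com v (pqprim_i S A hA y)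
    simpa only [map_add, map_sum, map_smul, h1, h2] using this

theorem pqprim_inf [Fintype V] {pr : V → F[X]} {S : Sys ℓ V} {n : ℕ}
    (h : InfW pr S.σ n) (A : Submodule (ZMod ℓ) S.W) (hA : Inv S.σ S.Λ A) :
    InfW pr (S.sub A hA).σ n := by
  have hinj := pqprim_i_inj S A hA
  have h1 : ∀ v y, pqprim_i S A hA ((S.sub A hA).σ v y) = S.σ v (pqprim_i S A hA y) :=
    (pqprim_i_mem S A hA).1
  intro y hy
  apply hinj
  rw [map_zero]
  refine h _ ?_
  have := congrArg (pqprim_i S A hA) hy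
  simpa only [map_add, map_sum, map_smul, h1, map_zero] using this

end

theorem tPqPrim.{v} (hPqFM : StmtPqFM.{v}) : StmtPqPrim.{v} := by
  intro F _ _ ℓ _ hℓ hdvd χ hχ V _ pr hpr S hS
  classical
  induction hN : Nat.card S.W using Nat.strong_induction_on generalizing S with
  | _ N ih =>
    intro ε hε
    have : Fintype {A : Submodule (ZMod ℓ) S.W // Inv S.σ S.Λ A} := Fintype.ofFinite _
    set I := {A : Submodule (ZMod ℓ) S.W // Inv S.σ S.Λ A} with hI
    have hT : Inv S.σ S.Λ ⊤ := ⟨fun _ _ _ => Submodule.mem_top, fun _ _ => Submodule.mem_top⟩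
    let T : I := ⟨⊤, hT⟩
    have hk : (0 : ℝ) < Fintype.card I + 1 := by positivity
    have hε' : 0 < ε / (Fintype.card I + 1) := div_pos hε hk
    set ε' := ε / (Fintype.card I + 1) with hε'd
    have key : ∀ A : I, ∃ n₀ : ℕ, A ≠ T → ∀ n : ℕ, n₀ ≤ n → InfW pr S.σ n →
        |∑ t ∈ gs F pr n, ((S.sub A.1 A.2).prim χ pr t : ℝ) -
          (Nat.card (SkA S.σ S.Λ A.1) : ℝ) * ((gs F pr n).card : ℝ)| ≤
            ε' * (Nat.card F : ℝ) ^ n := by
      intro A
      by_cases hAT : A = T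
      · exact ⟨0, fun h => absurd hAT h⟩
      have hlt : Nat.card (S.sub A.1 A.2).W < N := by
        have hne : A.1 ≠ ⊤ := fun h => hAT (Subtype.ext h)
        obtain ⟨y, hy⟩ : ∃ y, y ∉ A.1 := by
          by_contra hcon
          push Not at hcon
          exact hne ((Submodule.eq_top_iff').2 hcon)
        rw [← hN]
        exact Finite.card_subtype_lt (p := fun y => y ∈ A.1) hy
      obtain ⟨n₀, h₀⟩ := ih _ hlt (S.sub A.1 A.2) (pqprim_hyp hS A.1 A.2) rfl ε' hε'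
      refine ⟨n₀, fun _ n hn hinf => ?_⟩
      have := h₀ n hn (pqprim_inf hinf A.1 A.2)
      rwa [pqprim_skA] at this
    choose f hf using key
    obtain ⟨n₁, h₁⟩ := hPqFM F ℓ hℓ hdvd χ hχ V S.W pr hpr S.σ S.Λ hS ε' hε'
    refine ⟨max n₁ (Finset.univ.sup f), fun n hn hinf => ?_⟩
    have hn1 : n₁ ≤ n := le_trans (le_max_left _ _) hn
    have hn2 : ∀ A : I, f A ≤ n := fun A =>
      le_trans (le_trans (Finset.le_sup (Finset.mem_univ A)) (le_max_right _ _)) hn
    have e1 : ∀ t : Finset F[X], (nSol χ pr S.σ S.Λ t : ℝ) = (S.prim χ pr t : ℝ) +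
        ∑ A ∈ Finset.univ.erase T, ((S.sub A.1 A.2).prim χ pr t : ℝ) := by
      intro t
      have e2 : nSol χ pr S.σ S.Λ t = S.sol χ pr t := rfl
      rw [e2, pqprim_sum, ← Finset.add_sum_erase _ _ (Finset.mem_univ T), pqprim_top]
      push_cast
      congr 1
      exact Finset.sum_congr rfl fun A _ => by rw [pqprim_fib]
    have e2 : (muW S.σ S.Λ : ℝ) = (Nat.card (Sk S.σ S.Λ) : ℝ) +
        ∑ A ∈ Finset.univ.erase T, (Nat.card (SkA S.σ S.Λ A.1) : ℝ) := by
      rw [muW, finsum_eq_sum_of_fintype, ← Finset.add_sum_erase _ _ (Finset.mem_univ T),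
        pqprim_skT]
      push_cast
      rfl
    have h2 := h₁ n hn1 hinf
    have e3 : ∑ t ∈ gs F pr n, (S.prim χ pr t : ℝ) -
        (Nat.card (Sk S.σ S.Λ) : ℝ) * ((gs F pr n).card : ℝ) =
        (∑ t ∈ gs F pr n, (nSol χ pr S.σ S.Λ t : ℝ) -
          (muW S.σ S.Λ : ℝ) * ((gs F pr n).card : ℝ)) -
        ∑ A ∈ Finset.univ.erase T, (∑ t ∈ gs F pr n, ((S.sub A.1 A.2).prim χ pr t : ℝ) -
          (Nat.card (SkA S.σ S.Λ A.1) : ℝ) * ((gs F pr n).card : ℝ)) := by
      simp only [e1, e2]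
      rw [Finset.sum_add_distrib, Finset.sum_sub_distrib, Finset.sum_comm, add_mul,
        ← Finset.sum_mul]
      ring
    rw [e3]
    have e4 : |∑ A ∈ Finset.univ.erase T, (∑ t ∈ gs F pr n, ((S.sub A.1 A.2).prim χ pr t : ℝ) -
        (Nat.card (SkA S.σ S.Λ A.1) : ℝ) * ((gs F pr n).card : ℝ))| ≤
        Fintype.card I * (ε' * (Nat.card F : ℝ) ^ n) := by
      refine (Finset.abs_sum_le_sum_abs _ _).trans ?_
      refine (Finset.sum_le_card_nsmul _ _ (ε' * (Nat.card F : ℝ) ^ n) fun A hA => ?_).trans ?_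
      · exact hf A (Finset.ne_of_mem_erase hA) n (hn2 A) hinf
      · rw [nsmul_eq_mul]
        refine mul_le_mul_of_nonneg_right ?_ (by positivity)
        exact_mod_cast (Finset.card_le_univ _)
    have e5 : ε' * (Nat.card F : ℝ) ^ n + Fintype.card I * (ε' * (Nat.card F : ℝ) ^ n) =
        ε * (Nat.card F : ℝ) ^ n := by
      rw [hε'd]
      field_simp
      ring
    rw [← e5]
    exact (abs_sub _ _).trans (add_le_add h2 e4)

end MP72e2e6
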