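import Pool.Agent.Lib.MP_72e2e6_nt.SuStmt
import Pool.Agent.Lib.MP_72e2e6_nt.TwSy

/-!
# MP_72e2e6_nt: module SuSy (basic properties of the multiplicities and symbols modulo a prime)
-/

namespace MP72e2e6

open Polynomial

universe u

theorem susy_one {F : Type u} [Field F] {ℓ : ℕ} {χ : F → ZMod ℓ} (hχ : IsLg ℓ χ) : χ 1 = 0 := by
  have h := hχ.mul 1 1 one_ne_zero one_ne_zero
  rw [mul_one] at h
  exact left_eq_add.1 h

theorem susy_pow {F : Type u} [Field F] {ℓ : ℕ} {χ : F → ZMod ℓ} (hχ : IsLg ℓ χ) {x : F}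
    (hx : x ≠ 0) (n : ℕ) : χ (x ^ n) = n * χ x := by
  induction n with
  | zero => rw [pow_zero, susy_one hχ, Nat.cast_zero, zero_mul]
  | succ n ih =>
    rw [pow_succ, hχ.mul _ _ (pow_ne_zero n hx) hx, ih, Nat.cast_succ]
    ring

section

variable {F : Type u} [Field F] [Finite F]

theorem susy_norm_ne (P : F[X]) (hP : P.Monic) (hPi : Irreducible P) {h : F[X]} (hh : ¬ P ∣ h) :
    nm P h ≠ 0 := by
  have hfact : Fact (Irreducible P) := ⟨hPi⟩
  have hfin : Module.Finite F (AdjoinRoot P) := (AdjoinRoot.powerBasis' hP).finite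
  unfold nm
  rw [Algebra.norm_ne_zero_iff]
  exact twsy_ne hh

theorem susy_nm_mul (P g h : F[X]) : nm P (g * h) = nm P g * nm P h := by
  unfold nm
  rw [map_mul, map_mul]

/-- an element of a finite extension is an `ℓ`-th power iff its norm is one -/
theorem susy_pow_iff {A : Type u} [Field A] [Finite A] [Algebra F A] {ℓ : ℕ} (hℓ : ℓ.Prime)
    (hd : ℓ ∣ Nat.card F - 1) {x : A} (hx : x ≠ 0) :
    (∃ y : F, Algebra.norm F x = y ^ ℓ) ↔ ∃ z, x = z ^ ℓ := by
  have hmf : Module.Finite F A := Module.Finite.of_finite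
  constructor
  · rintro ⟨y, hy⟩
    have hN : Algebra.norm F x ≠ 0 := Algebra.norm_ne_zero_iff.2 hx
    have hy0 : y ≠ 0 := by
      rintro rfl
      rw [zero_pow hℓ.ne_zero] at hy
      exact hN hy
    obtain ⟨g, hg⟩ := IsCyclic.exists_monoid_generator (α := Aˣ)
    have hord : orderOf g = Nat.card A - 1 := by
      rw [← Nat.card_units]
      exact orderOf_eq_card_of_forall_mem_powers hg
    obtain ⟨M, hM⟩ := hd
    have hq : 1 < Nat.card F := Finite.one_lt_card
    have hM0 : 0 < M := by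
      rcases Nat.eq_zero_or_pos M with h | h
      · rw [h, mul_zero] at hM
        omega
      · exact h
    set S := ∑ i ∈ Finset.range (Module.finrank F A), Nat.card F ^ i with hS
    have hcard : Nat.card A - 1 = ℓ * (M * S) := by
      have h1 : S * (Nat.card F - 1) = Nat.card F ^ Module.finrank F A - 1 :=
        geom_sum_mul_of_one_le hq.le _
      rw [Module.natCard_eq_pow_finrank (K := F) (V := A), ← h1, hM]
      ring
    have hS0 : 0 < S := by
      have h1 : 1 < Nat.card A := Finite.one_lt_card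
      rcases Nat.eq_zero_or_pos S with h | h
      · rw [h, mul_zero, mul_zero] at hcard
        omega
      · exact h
    obtain ⟨k, hk⟩ := hg (Units.mk0 x hx)
    have hk' : (g : A) ^ k = x := by
      have h := congrArg (fun u : Aˣ => (u : A)) hk
      simpa using h
    have h1 : x ^ (M * S) = 1 := by
      have h2 : x ^ S = algebraMap F A (y ^ ℓ) := by
        rw [← hy, FiniteField.algebraMap_norm_eq_pow_sum]
      rw [mul_comm, pow_mul, h2, ← map_pow, ← pow_mul, ← hM]
      have := Fintype.ofFinite F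
      have h3 := FiniteField.pow_card_sub_one_eq_one y hy0
      rw [Fintype.card_eq_nat_card] at h3
      rw [h3, map_one]
    have h2 : g ^ (k * (M * S)) = 1 := by
      apply Units.ext
      rw [Units.val_pow_eq_pow_val, pow_mul, hk', h1, Units.val_one]
    have h3 := orderOf_dvd_of_pow_eq_one h2
    rw [hord, hcard] at h3
    obtain ⟨j, hj⟩ := Nat.dvd_of_mul_dvd_mul_right (Nat.mul_pos hM0 hS0) h3
    refine ⟨(g : A) ^ j, ?_⟩
    rw [← pow_mul, mul_comm j, ← hj, hk']
  · rintro ⟨z, rfl⟩
    exact ⟨Algebra.norm F z, map_pow _ _ _⟩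

end

theorem tSuSy : StmtSuSy.{u} := by
  classical
  intro F _ _ ℓ hℓ hd χ hχ
  refine ⟨susy_one hχ, fun h2 => ?_, fun P hP hPi => ?_⟩
  · rw [hχ.ker _ (neg_ne_zero.2 one_ne_zero)]
    exact ⟨-1, ((hℓ.odd_of_ne_two h2).neg_one_pow).symm⟩
  have hfact : Fact (Irreducible P) := ⟨hPi⟩
  have hfin := twsy_finite P hP
  refine ⟨fun g h hg hh => ⟨?_, ?_⟩, fun h hh => ?_, ?_, ?_, fun x hx => ?_⟩
  · unfold vl
    rw [if_neg (mul_ne_zero hg hh), if_neg hg, if_neg hh,
      multiplicity_mul hPi.prime (twsy_fm hPi (mul_ne_zero hg hh)), Nat.cast_add]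
  · obtain ⟨hg1, hg2⟩ := twsy_div hP hPi hg
    obtain ⟨hh1, hh2⟩ := twsy_div hP hPi hh
    have h1 : (g * h) /ₘ P ^ multiplicity P (g * h) =
        (g /ₘ P ^ multiplicity P g) * (h /ₘ P ^ multiplicity P h) := by
      rw [multiplicity_mul hPi.prime (twsy_fm hPi (mul_ne_zero hg hh)), pow_add]
      set j := multiplicity P g
      set k := multiplicity P h
      set g₁ := g /ₘ P ^ j
      set h₁ := h /ₘ P ^ k
      have h2 : g * h = (P ^ j * P ^ k) * (g₁ * h₁) := by
        rw [hg1, hh1]
        ring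
      rw [h2]
      exact mul_divByMonic_cancel_left _ ((hP.pow _).mul (hP.pow _))
    unfold syl
    rw [h1, susy_nm_mul]
    exact hχ.mul _ _ (susy_norm_ne P hP hPi hg2) (susy_norm_ne P hP hPi hh2)
  · have hm := twsy_not_dvd hPi hh
    have hs : syl χ P h = χ (nm P h) := by
      unfold syl
      rw [twsy_sy_not_dvd hm]
    have hN := susy_norm_ne P hP hPi hh
    refine ⟨?_, hN, hs, ?_⟩
    · unfold vl
      split_ifs with h0
      · rfl
      · rw [hm, Nat.cast_zero]
    · rw [hs, hχ.ker _ hN]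
      exact susy_pow_iff hℓ hd (twsy_ne hh)
  · unfold vl
    rw [if_neg hPi.ne_zero, multiplicity_self, Nat.cast_one]
  · unfold syl
    have h1 : P /ₘ P ^ multiplicity P P = 1 := by
      rw [multiplicity_self, pow_one]
      have h2 := mul_divByMonic_cancel_left 1 hP
      rwa [mul_one] at h2
    rw [h1]
    unfold nm
    rw [map_one, map_one, susy_one hχ]
  · have h1 : ¬ P ∣ C x := by
      intro h2
      exact hPi.not_isUnit (isUnit_of_dvd_unit h2 (isUnit_C.2 (isUnit_iff_ne_zero.2 hx)))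
    have hm := twsy_not_dvd hPi h1
    refine ⟨?_, ?_⟩
    · unfold vl
      split_ifs with h0
      · rfl
      · rw [hm, Nat.cast_zero]
    · have h2 : nm P (C x) = x ^ P.natDegree := by
        unfold nm
        rw [AdjoinRoot.mk_C]
        have h3 : AdjoinRoot.of P x = algebraMap F (AdjoinRoot P) x := rfl
        rw [h3, Algebra.norm_algebraMap, (AdjoinRoot.powerBasis' hP).finrank,
          AdjoinRoot.powerBasis'_dim]
      unfold syl
      rw [twsy_sy_not_dvd hm, h2, susy_pow hχ hx]

end MP72e2e6
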