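import Pool.Agent.Lib.MP_72e2e6_nt.PjLine
import Pool.Agent.Lib.MP_72e2e6_nt.GenTwoM
import Pool.Agent.Lib.MP_72e2e6_nt.GenCon2
import Pool.Agent.Lib.MP_72e2e6_nt.PpInd
import Pool.Agent.Lib.MP_72e2e6_nt.PqPrim
import Pool.Agent.Lib.MP_72e2e6_nt.SuSy

/-!
# MP_72e2e6_nt: three branch points, `ℓ = 2`, families which are not connected
-/

set_option autoImplicit false

namespace MP72e2e6

open Polynomial IsDedekindDomain

universe u

section exact

variable {F : Type u} [Field F] {ℓ : ℕ} {V : Type} [Fintype V] {χ : F → ZMod ℓ} {pr : V → F[X]}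

/-- intertwining operators map solutions to solutions -/
theorem genline_map {S T : Sys ℓ V} {i : S.W →ₗ[ZMod ℓ] T.W} (h : i ∈ HomS S T)
    {t : Finset F[X]} {c : V → S.W} {f : t → S.W} (hs : SolW χ pr S.σ S.Λ t c f) :
    SolW χ pr T.σ T.Λ t (fun v => i (c v)) (fun P => i (f P)) := by
  have h1 : ∀ v y, i (S.σ v y) = T.σ v (i y) := h.1
  have h2 : ∀ y, i (S.Λ y) = T.Λ (i y) := h.2
  refine ⟨?_, fun v => ?_, fun P => ?_⟩
  · have h3 := congrArg i hs.inf
    simpa only [map_add, map_sum, map_smul, h1, map_zero] using h3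
  · have h3 := congrArg i (hs.bad v)
    simpa only [map_add, map_sum, map_smul, map_sub, h1, h2] using h3
  · have h3 := congrArg i (hs.good P)
    simpa only [map_add, map_sum, map_smul, map_sub, h1, h2] using h3

/-- extensions of a system by itself -/
theorem genline_seq (S T : Sys ℓ V) {i : T.W →ₗ[ZMod ℓ] S.W} {p : S.W →ₗ[ZMod ℓ] T.W}
    (hi : i ∈ HomS T S) (hp : p ∈ HomS S T) (hinj : Function.Injective i)
    (hex : ∀ y, p y = 0 → ∃ x, i x = y) (t : Finset F[X]) :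
    S.sol χ pr t = 1 ↔ T.sol χ pr t = 1 := by
  rw [Sys.sol, Sys.sol, ppind_iff, ppind_iff]
  constructor
  · intro h c f hcf
    obtain ⟨h1, h2⟩ := h _ _ (genline_map hi hcf)
    have h0 : ∀ x, i x = 0 → x = 0 := fun x hx => hinj (by rw [hx, map_zero])
    exact ⟨funext fun v => h0 _ (congrFun h1 v), funext fun P => h0 _ (congrFun h2 P)⟩
  · intro h c f hcf
    obtain ⟨h1, h2⟩ := h _ _ (genline_map hp hcf)
    have h3 : ∀ v, ∃ x, i x = c v := fun v => hex _ (congrFun h1 v)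
    have h4 : ∀ P, ∃ x, i x = f P := fun P => hex _ (congrFun h2 P)
    choose c' hc' using h3
    choose f' hf' using h4
    have h5 : SolW χ pr T.σ T.Λ t c' f' := by
      rw [← pqprim_map hinj hi]
      simp only [hc', hf']
      exact hcf
    obtain ⟨h6, h7⟩ := h _ _ h5
    refine ⟨funext fun v => ?_, funext fun P => ?_⟩
    · rw [← hc' v, h6, Pi.zero_apply, map_zero, Pi.zero_apply]
    · rw [← hf' P, h7, Pi.zero_apply, map_zero, Pi.zero_apply]

end exact

section three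

/-- The operators for three branch points. -/
theorem genline_sg {b : Fin 3 → ℕ} (hb : ∀ i, (b i : ZMod 2) = 1) (ρ α : ZMod 2)
    (w : Fin 3 → Fin 3 → ZMod 2) {i j k : Fin 3} (hij : i ≠ j) (hjk : j ≠ k) (hik : i ≠ k)
    (h1 : w i j = α) (h2 : w i k = α) (x : Fin 3 → ZMod 2)
    (hx : ∑ l, (b l : ZMod 2) * x l = 0) : sg b ρ w x i = (ρ + α) * x i := by
  have hB : ∑ k, (b k : ZMod 2) = 1 := by
    rw [Finset.sum_congr rfl fun k _ => hb k, Finset.sum_const, Finset.card_univ,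
      Fintype.card_fin]
    decide
  rw [gen_sum_three hij hjk hik, hb, hb, hb] at hx
  have h4 : x i = x j + x k := by
    have h5 : x i + (x j + x k) = 0 := by linear_combination hx
    exact CharTwo.add_eq_zero.1 h5
  rw [sg, hB, inv_one, gen_sum_three hij hjk hik, hb, hb, hb, h1, h2, h4]
  have h6 : (2 : ZMod 2) = 0 := rfl
  linear_combination (α * (x j + x k) - α * (x j + x k)) * h6

theorem genline_sg' {b : Fin 3 → ℕ} (hb : ∀ i, (b i : ZMod 2) = 1) (ρ α : ZMod 2)
    (w : Fin 3 → Fin 3 → ZMod 2) (hw : ∀ i k, w i k = w k i) {i j k : Fin 3} (hij : i ≠ j)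
    (hjk : j ≠ k) (hik : i ≠ k)
    (h1 : w i j = α) (h2 : w i k = α) (c : ZMod 2) :
    sg b ρ w (fun l => if l = i then 0 else c) = fun l => if l = i then 0 else (ρ + α) * c := by
  have hB : ∑ k, (b k : ZMod 2) = 1 := by
    rw [Finset.sum_congr rfl fun k _ => hb k, Finset.sum_const, Finset.card_univ,
      Fintype.card_fin]
    decide
  have h6 : (2 : ZMod 2) = 0 := rfl
  funext l
  have hl : l = i ∨ l = j ∨ l = k := by
    have h3 : l ∈ ({i, j, k} : Finset (Fin 3)) :=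
      gen_univ_three i j k hij hjk hik ▸ Finset.mem_univ l
    rw [Finset.mem_insert, Finset.mem_insert, Finset.mem_singleton] at h3
    exact h3
  rw [sg, hB, inv_one, gen_sum_three hij hjk hik, hb, hb, hb]
  rcases hl with rfl | rfl | rfl
  · rw [if_pos rfl, if_neg hij.symm, if_neg hik.symm, h1, h2, if_pos rfl]
    linear_combination (-α * c) * h6
  · rw [if_neg hij.symm, if_pos rfl, if_neg hik.symm, hw l i, h1, if_neg hij.symm]
    ring
  · rw [if_neg hik.symm, if_pos rfl, if_neg hij.symm, hw l i, h2, if_neg hik.symm]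
    ring

end three

section core

variable {F : Type u} [Field F] [Finite F]

/-- the order of the Selmer group is the number of solutions -/
theorem genline_key (hCnt' : StmtPrCnt.{u}) (hRec : RecP.{u} 2) (hTor : StmtPgTor.{u})
    (hHyp : StmtPgHyp.{u}) (hRel : StmtPgRel.{u})
    (hq : 2 ∣ Nat.card F - 1) (hz : ∃ z : F, z ^ 2 = -1) {χ : F → ZMod 2} (hχ : IsLg 2 χ)
    {m : ℕ} (hm : 0 < m) {a : Fin m → F[X]} (ha : Function.Injective a) {b : Fin m → ℕ}
    (hb : ∀ i, ¬ 2 ∣ b i) (hB : ¬ 2 ∣ ∑ i, b i) {V : Type} [Fintype V] {pr : V → F[X]}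
    (hpr : Fam pr)
    (hcov : ∀ P : F[X], P.Monic → Irreducible P → ∀ i j, i ≠ j → P ∣ a i - a j → ∃ v, pr v = P)
    {e : V → ZMod 2} (hT : ∀ v, Tam 2 b (wP (pr v) a) ((e v).val : ℤ)) (n : ℕ)
    (hn : Tam 2 b (wI a) (-(((twl pr e).natDegree + n : ℕ) : ℤ))) (t : Finset F[X])
    (ht : t ∈ gs F pr n) :
    ist 2 a b (twl pr e * ∏ P ∈ t, P) = (prS χ b a pr e).sol χ pr t := by
  classical
  have hχ1 : χ (-1) = 0 := gentwo_chi hχ hz
  have hrcp : Rcp χ := fun P Q hP hPi hQ' hQi hne =>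
    hRec.sym F χ hq hχ hχ1 P Q hP hPi hQ' hQi hne
  obtain ⟨hH, hInf⟩ := hHyp F 2 hq χ hχ hχ1 m a ha b hB V pr hpr hcov e hT
  obtain ⟨h1, h2⟩ := hRel F 2 hq χ hχ hχ1 hrcp m hm a ha b hb hB V pr hpr hcov e hT n t ht hn
  have hE : twl pr e * ∏ P ∈ t, P ≠ 0 := by
    refine mul_ne_zero (monic_twl hpr e).ne_zero (Finset.prod_ne_zero_iff.2 fun P hP => ?_)
    have h3 : t ∈ ps F n := by
      have h4 := ht
      simp only [gs, Finset.mem_filter] at h4
      exact h4.1
    exact ((mem_ps.1 h3).1 P hP).1.ne_zero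
  exact le_antisymm h2 (hCnt' F 2 hRec hq χ hχ hχ1 m a ha b hb hB V pr hpr hcov e hH.inj n
    (hInf n hn) t ht (hTor F 2 Nat.prime_two hz m _ hE a ha b hB) h1)

/-- the system of a family of three branch points which is not connected -/
theorem genline_sys (hSy : StmtSuSy.{u}) (hq : 2 ∣ Nat.card F - 1) (hz : ∃ z : F, z ^ 2 = -1)
    {χ : F → ZMod 2} (hχ : IsLg 2 χ) {a : Fin 3 → F[X]} (ha : Function.Injective a)
    {b : Fin 3 → ℕ} (hb : ∀ i, ¬ 2 ∣ b i) {V : Type} [Fintype V] {pr : V → F[X]}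
    (hpr : Fam pr) {e : V → ZMod 2} (hH : HypW χ pr (prS χ b a pr e).σ (prS χ b a pr e).Λ)
    (hcon : ¬ ConnG 2 a) :
    ∃ l : ZMod 2, (∀ n, InfW pr (prS χ b a pr e).σ n → InfW pr (linS V l).σ n) ∧
      ∀ t : Finset F[X], (prS χ b a pr e).sol χ pr t = 1 ↔ (linS V l).sol χ pr t = 1 := by
  have hχ1 : χ (-1) = 0 := gentwo_chi hχ hz
  have hb1 : ∀ i, (b i : ZMod 2) = 1 := by
    intro i
    have h1 : ∀ x : ZMod 2, x ≠ 0 → x = 1 := by decide
    exact h1 _ fun h => hb i ((ZMod.natCast_eq_zero_iff _ _).1 h)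
  rw [connG_three hz ha] at hcon
  push Not at hcon
  obtain ⟨i, j, k, hij, hjk, hik, z, hzz⟩ := hcon
  have h0 : ∀ p q, p ≠ q → a p - a q ≠ 0 := fun p q hpq => sub_ne_zero.2 fun h => hpq (ha h)
  have hz0 : z ≠ 0 := by
    rintro rfl
    rw [zero_pow two_ne_zero] at hzz
    exact mul_ne_zero (h0 i j hij) (h0 i k hik) hzz
  have h2 : (2 : ZMod 2) = 0 := rfl
  have hvl : ∀ v, vl 2 (pr v) (a i - a j) = vl 2 (pr v) (a i - a k) := by
    intro v
    have h3 := (hSy F 2 Nat.prime_two hq χ hχ).2.2 (pr v) (hpr.monic v) (hpr.irr v)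
    have h4 := (h3.1 _ _ (h0 i j hij) (h0 i k hik)).1
    have h5 := (h3.1 _ _ hz0 hz0).1
    rw [hzz, sq, h5] at h4
    have h6 : vl 2 (pr v) (a i - a j) + vl 2 (pr v) (a i - a k) = 0 := by
      linear_combination vl 2 (pr v) z * h2 - h4
    exact CharTwo.add_eq_zero.1 h6
  have hlc : χ (a i - a j).leadingCoeff = χ (a i - a k).leadingCoeff := by
    have h4 := congrArg (fun x : F[X] => χ x.leadingCoeff) hzz
    simp only [leadingCoeff_mul, leadingCoeff_pow] at h4
    rw [hχ.mul _ _ (leadingCoeff_ne_zero.2 (h0 i j hij)) (leadingCoeff_ne_zero.2 (h0 i k hik)),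
      susy_pow hχ (leadingCoeff_ne_zero.2 hz0)] at h4
    have h6 : χ (a i - a j).leadingCoeff + χ (a i - a k).leadingCoeff = 0 := by
      rw [h4]
      push_cast
      rw [h2, zero_mul]
    exact CharTwo.add_eq_zero.1 h6
  have hsym : ∀ p q, χ (a p - a q).leadingCoeff = χ (a q - a p).leadingCoeff := by
    intro p q
    by_cases hpq : p = q
    · rw [hpq]
    · rw [← neg_sub (a q) (a p), leadingCoeff_neg, ← neg_one_mul, hχ.mul _ _
        (neg_ne_zero.2 one_ne_zero) (leadingCoeff_ne_zero.2 (h0 q p fun h => hpq h.symm)), hχ1,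
        zero_add]
  have hΛ : lamV χ b a = sgV b 0 (fun i k => χ (a i - a k).leadingCoeff) hsym := dif_pos hsym
  -- the two maps
  let p : Vs 2 b →ₗ[ZMod 2] ZMod 2 := (LinearMap.proj i).comp (Vs 2 b).subtype
  have hmem : ∀ c : ZMod 2, (fun l => if l = i then 0 else c) ∈ Vs 2 b := by
    intro c
    change ∑ l, (b l : ZMod 2) * (if l = i then 0 else c) = 0
    rw [gen_sum_three hij hjk hik, if_pos rfl, if_neg hij.symm, if_neg hik.symm, hb1, hb1, hb1]
    linear_combination c * h2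
  let ι : ZMod 2 →ₗ[ZMod 2] Vs 2 b :=
    { toFun := fun c => ⟨fun l => if l = i then 0 else c, hmem c⟩
      map_add' := fun c d => Subtype.ext (funext fun l => by
        change (if l = i then 0 else c + d) = (if l = i then 0 else c) + if l = i then 0 else d
        split_ifs
        · rw [add_zero]
        · rfl)
      map_smul' := fun c d => Subtype.ext (funext fun l => by
        change (if l = i then 0 else c * d) = c * if l = i then 0 else d
        split_ifs
        · rw [mul_zero]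
        · rfl) }
  have hιv : ∀ c l, (ι c).1 l = if l = i then 0 else c := fun c l => rfl
  have hinj : Function.Injective ι := by
    intro c d h
    have h3 := congrFun (congrArg Subtype.val h) j
    rw [hιv, hιv, if_neg hij.symm, if_neg hij.symm] at h3
    exact h3
  have hσι : ∀ v c, sigV b a (pr v) (e v) (ι c) =
      ι ((e v + vl 2 (pr v) (a i - a j)) * c) := by
    intro v c
    exact Subtype.ext (genline_sg' hb1 (e v) _ (fun i k => vl 2 (pr v) (a i - a k))
      (vl_symm (pr v) a) hij hjk hik rfl (hvl v).symm c)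
  have hσp : ∀ v y, p (sigV b a (pr v) (e v) y) =
      (e v + vl 2 (pr v) (a i - a j)) * p y := by
    intro v y
    exact genline_sg hb1 (e v) _ (fun i k => vl 2 (pr v) (a i - a k)) hij hjk hik rfl
      (hvl v).symm y.1 y.2
  have hone : ∀ v, e v + vl 2 (pr v) (a i - a j) = 1 := by
    intro v
    have h1 : ∀ x : ZMod 2, x ≠ 0 → x = 1 := by decide
    refine h1 _ fun h => ?_
    have h3 : sigV b a (pr v) (e v) (ι 1) = 0 := by rw [hσι, h, zero_mul, map_zero]
    have h4 : ι 1 = 0 := hH.inj v _ h3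
    have h5 : (1 : ZMod 2) = 0 := hinj (by rw [h4, map_zero])
    exact one_ne_zero h5
  have hσι' : ∀ v (c : ZMod 2), ι c = sigV b a (pr v) (e v) (ι c) := by
    intro v c
    rw [hσι, hone, one_mul]
  have hσp' : ∀ v y, p (sigV b a (pr v) (e v) y) = p y := by
    intro v y
    rw [hσp, hone, one_mul]
  have hΛι : ∀ c, lamV χ b a (ι c) = ι (χ (a i - a j).leadingCoeff * c) := by
    intro c
    rw [hΛ]
    have h3 := genline_sg' hb1 0 _ (fun i k => χ (a i - a k).leadingCoeff) hsym hij hjk hik rfl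
      hlc.symm c
    rw [zero_add] at h3
    exact Subtype.ext h3
  have hΛp : ∀ y, p (lamV χ b a y) = χ (a i - a j).leadingCoeff * p y := by
    intro y
    rw [hΛ]
    have h3 := genline_sg hb1 0 _ (fun i k => χ (a i - a k).leadingCoeff) hij hjk hik rfl
      hlc.symm y.1 y.2
    rw [zero_add] at h3
    exact h3
  have hinf : ∀ n : ℕ, InfW pr (prS χ b a pr e).σ n → ∀ y : ZMod 2,
      ∑ v, ((pr v).natDegree : ZMod 2) • y + (n : ZMod 2) • y = 0 → y = 0 := by
    intro n hn y hy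
    have h4 : ι y = 0 := by
      refine hn _ ?_
      have h5 := congrArg ι hy
      rw [map_add, map_sum, map_smul, map_zero] at h5
      simp only [map_smul] at h5
      refine Eq.trans ?_ h5
      change ∑ v, ((pr v).natDegree : ZMod 2) • sigV b a (pr v) (e v) (ι y) +
        (n : ZMod 2) • ι y = _
      congr 1
      exact Finset.sum_congr rfl fun v _ => by rw [← hσι' v y]
    exact hinj (h4.trans (map_zero ι).symm)
  refine ⟨χ (a i - a j).leadingCoeff, fun n hn y hy => ?_, fun t => ?_⟩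
  · exact hinf n hn y hy
  refine genline_seq (prS χ b a pr e) (linS V (χ (a i - a j).leadingCoeff)) (i := ι) (p := p)
    ⟨fun v x => ?_, fun x => ?_⟩ ⟨fun v y => ?_, fun y => ?_⟩ hinj ?_ t
  · exact hσι' v x
  · exact (hΛι x).symm
  · exact hσp' v y
  · exact hΛp y
  · intro y hy
    have hy1 : y.1 i = 0 := hy
    have hy2 : ∑ l, (b l : ZMod 2) * y.1 l = 0 := y.2
    rw [gen_sum_three hij hjk hik, hb1, hb1, hb1, hy1] at hy2
    have hy3 : y.1 j = y.1 k := by
      have h3 : y.1 j + y.1 k = 0 := by linear_combination hy2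
      exact CharTwo.add_eq_zero.1 h3
    refine ⟨y.1 j, Subtype.ext (funext fun l => ?_)⟩
    change (if l = i then 0 else y.1 j) = y.1 l
    have hl : l = i ∨ l = j ∨ l = k := by
      have h3 : l ∈ ({i, j, k} : Finset (Fin 3)) :=
        gen_univ_three i j k hij hjk hik ▸ Finset.mem_univ l
      rw [Finset.mem_insert, Finset.mem_insert, Finset.mem_singleton] at h3
      exact h3
    rcases hl with rfl | rfl | rfl
    · rw [if_pos rfl, hy1]
    · rw [if_neg hij.symm]
    · rw [if_neg hik.symm, hy3]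

open Classical in
/-- three branch points, `ℓ = 2`: the proportion of the twists without further classes -/
theorem genline_main (hLg : StmtSuLg.{u}) (hSy : StmtSuSy.{u}) (hPrim : StmtPhPrim.{u})
    (hCt : StmtPqCt.{u}) (hRT : StmtPhRT.{u}) (hMul : StmtPqMul.{u}) (hFun : StmtPqFun)
    (hCnt' : StmtPrCnt.{u}) (hRec : RecP.{u} 2) (hTor : StmtPgTor.{u})
    (hBij : StmtPpBij.{u}) (hCnt : StmtPpCnt.{u}) (hHyp : StmtPgHyp.{u}) (hRel : StmtPgRel.{u})
    (hq : 2 ∣ Nat.card F - 1) (hz : ∃ z : F, z ^ 2 = -1)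
    {a : Fin 3 → F[X]} (ha : Function.Injective a) {b : Fin 3 → ℕ}
    (hb : ∀ i, ¬ 2 ∣ b i) (hB : ¬ 2 ∣ ∑ i, b i) {D : F[X]} (hD : TDg 2 b a D)
    (hcon : ¬ ConnG 2 a) (ε : ℝ) (hε : 0 < ε) :
    ∃ n₀ : ℕ, ∀ n : ℕ, n₀ ≤ n → Tam 2 b (wI a) (-((D.natDegree + n : ℕ) : ℤ)) →
      |({M ∈ Msf a D n | ist 2 a b (D * M) = 1}.ncard : ℝ) -
        (∏' i : ℕ, (1 - ((2 : ℝ)⁻¹) ^ (2 * i + 1))) * ((Msf a D n).ncard : ℝ)| ≤
        ε * ((Msf a D n).ncard : ℝ) := by
  have hq4 : 4 ≤ Nat.card F := gentwo_four hq hz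
  have hQ : (0 : ℝ) < (Nat.card F : ℝ) := by
    have : 0 < Nat.card F := by omega
    exact_mod_cast this
  obtain ⟨χ, hχ⟩ := hLg F 2 Nat.prime_two hq
  have hχ1 : χ (-1) = 0 := gentwo_chi hχ hz
  have hrcp : Rcp χ := fun P Q hP hPi hQ' hQi hne =>
    hRec.sym F χ hq hχ hχ1 P Q hP hPi hQ' hQi hne
  obtain ⟨s, pr, e, hpr, hcov, htw, hT, hbij⟩ := gen_family hBij Nat.prime_two ha hB hD
  obtain ⟨hH, hInf⟩ := hHyp F 2 hq χ hχ hχ1 3 a ha b hB (Fin s) pr hpr hcov e hT
  obtain ⟨l, hl1, hl2⟩ := genline_sys hSy hq hz hχ ha hb hpr (e := e) hH hcon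
  obtain ⟨c, hc, n₁, hcnt⟩ := hCnt F hq4 (Fin s) pr hpr
  have hε2 : 0 < min (ε / 2) (ε / 2 * c) := lt_min (by linarith) (mul_pos (by linarith) hc)
  obtain ⟨n₀, h0⟩ := pjline_dis hPrim hCt hRT hMul hFun hq4 hq hχ hrcp hpr l 0 _ hε2
  refine ⟨max n₀ n₁, fun n hn hI => ?_⟩
  have hcard : ((Msf a D n).ncard : ℝ) = ((gs F pr n).card : ℝ) := by
    rw [← (hbij n).image_eq, (hbij n).injOn.ncard_image, Set.ncard_coe_finset]
  rw [hcard, pr_ncard (hbij n) fun M => ist 2 a b (D * M) = 1]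
  rw [← htw] at hI
  have h2 := h0 n ((le_max_left _ _).trans hn) (hl1 n (hInf n hI))
  have h4 := hcnt n ((le_max_right _ _).trans hn)
  have h5 : ((gs F pr n).filter fun t => ist 2 a b (D * ∏ P ∈ t, P) = 1) =
      (gs F pr n).filter fun t => (linS (Fin s) l).sol χ pr t = 2 ^ 0 := by
    refine Finset.filter_congr fun t ht => ?_
    rw [pow_zero, ← hl2 t, ← genline_key hCnt' hRec hTor hHyp hRel hq hz hχ (by norm_num) ha hb
      hB hpr hcov hT n hI t ht, htw]
  have h7 : min (ε / 2) (ε / 2 * c) * (Nat.card F : ℝ) ^ n ≤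
      ε / 2 * ((gs F pr n).card : ℝ) := by
    have h8 : min (ε / 2) (ε / 2 * c) * (Nat.card F : ℝ) ^ n ≤
        ε / 2 * c * (Nat.card F : ℝ) ^ n :=
      mul_le_mul_of_nonneg_right (min_le_right _ _) (pow_nonneg hQ.le _)
    exact pr_absorb h4 (by linarith) h8
  have h8 : min (ε / 2) (ε / 2 * c) * ((gs F pr n).card : ℝ) ≤
      ε / 2 * ((gs F pr n).card : ℝ) :=
    mul_le_mul_of_nonneg_right (min_le_left _ _) (Nat.cast_nonneg _)
  rw [Finset.range_zero, Finset.prod_empty, div_one] at h2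
  have h9 : (((gs F pr n).filter fun t => ist 2 a b (D * ∏ P ∈ t, P) = 1).card : ℝ) =
      (((gs F pr n).filter fun t => (linS (Fin s) l).sol χ pr t = 2 ^ 0).card : ℝ) := by
    rw [h5]
  have h10 : |(((gs F pr n).filter fun t => ist 2 a b (D * ∏ P ∈ t, P) = 1).card : ℝ) -
      (∏' i : ℕ, (1 - ((2 : ℝ)⁻¹) ^ (2 * i + 1))) * ((gs F pr n).card : ℝ)| ≤
      ε * ((gs F pr n).card : ℝ) := by
    rw [h9]
    refine h2.trans ?_
    linarith
  refine (le_of_eq ?_).trans h10
  congr 4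
  exact Finset.filter_congr_decidable _ _ _

end core

end MP72e2e6
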