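import Pool.Agent.Lib.MP_72e2e6_nt.GenAllT
import Pool.Agent.Lib.MP_72e2e6_nt.GenLine

/-!
# MP_72e2e6_nt: elliptic curves, connected or not
-/

set_option autoImplicit false

namespace MP72e2e6

open Polynomial IsDedekindDomain

universe u

open Classical in
/-- three branch points, `ℓ = 2`: the proportion of the twists with `Sel = Tor` -/
theorem gen_three {F : Type u} [Field F] [Finite F]
    (hq : 2 ∣ Nat.card F - 1) (hz : ∃ z : F, z ^ 2 = -1)
    {a : Fin 3 → F[X]} (ha : Function.Injective a) {b : Fin 3 → ℕ}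
    (hb : ∀ i, ¬ 2 ∣ b i) (hB : ¬ 2 ∣ ∑ i, b i) {D : F[X]} (hD : TDg 2 b a D)
    (ε : ℝ) (hε : 0 < ε) :
    ∃ n₀ : ℕ, ∀ n : ℕ, n₀ ≤ n → Tam 2 b (wI a) (-((D.natDegree + n : ℕ) : ℤ)) →
      |({M ∈ Msf a D n | ist 2 a b (D * M) = 1}.ncard : ℝ) -
        (∏' i : ℕ, (1 - ((2 : ℝ)⁻¹) ^ (2 * i + 1))) * ((Msf a D n).ncard : ℝ)| ≤
        ε * ((Msf a D n).ncard : ℝ) := by
  by_cases hcon : ConnG 2 a
  · obtain ⟨-, -, -, h4⟩ := gen_two hq hz (by norm_num) ha hb hB hD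
    obtain ⟨n₀, h0⟩ := h4 (by norm_num) hcon 0 ε hε
    refine ⟨n₀, fun n hn hI => ?_⟩
    have h1 := h0 n hn hI
    simpa only [mul_zero, pow_zero, one_mul, Finset.range_zero, Finset.prod_empty, div_one]
      using h1
  · exact genline_main tSuLg tSuSy (tPhPrim phFM_all tPhSub) pqCt_all tPhRT tPqMul tPqFun
      prCnt_all (recP_all Nat.prime_two) tPgTor tPpBij ppCnt_all pgHyp_all pgRel_all hq hz ha hb
      hB hD hcon ε hε

end MP72e2e6
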