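import Pool.Agent.Lib.MP_72e2e6_nt.GenEx
import Pool.Agent.Lib.MP_72e2e6_nt.PrMain

/-!
# MP_72e2e6_nt: the distribution of the Selmer groups for odd `ℓ`, weak tameness, the theorem from
the modules
-/

namespace MP72e2e6

open Polynomial IsDedekindDomain

universe u

section count

variable {F : Type u} [Field F] [Finite F] {ℓ m : ℕ} [Fact ℓ.Prime]

open Classical in
/-- the theorem for a family of primes -/
theorem go_core (hFM : StmtPqFM.{u}) (hPos : StmtPqPos.{u}) (hRep : StmtPqRep.{u})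
    (hMix : StmtPqMix.{u}) (hCt : StmtPqCt.{u}) (hMul : StmtPqMul.{u})
    (hFun : StmtPqFun) (hMom : StmtPqMom) (hPow : StmtPrPow.{u}) (hDis : StmtPrDis.{u})
    (hCnt' : StmtPrCnt.{u}) (hRec : RecP.{u} ℓ) (hTor : StmtPgTor.{u})
    (hCnt : StmtPpCnt.{u}) (hHyp : StmtPgHyp.{u}) (hRel : StmtPgRel.{u})
    (hℓ2 : ℓ ≠ 2) (hq : ℓ ∣ Nat.card F - 1) {χ : F → ZMod ℓ} (hχ : IsLg ℓ χ)
    (hχ1 : χ (-1) = 0)
    (hm : 0 < m) {a : Fin m → F[X]} (ha : Function.Injective a) {b : Fin m → ℕ}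
    (hb : ∀ i, ¬ ℓ ∣ b i) (hB : ¬ ℓ ∣ ∑ i, b i) {V : Type} [Fintype V] {pr : V → F[X]}
    (hpr : Fam pr)
    (hcov : ∀ P : F[X], P.Monic → Irreducible P → ∀ i j, i ≠ j → P ∣ a i - a j → ∃ v, pr v = P)
    {e : V → ZMod ℓ} (hT : ∀ v, Tam ℓ b (wP (pr v) a) ((e v).val : ℤ))
    (hcon : 2 ≤ m → ConnG ℓ a → IrrW (prS χ b a pr e).σ (prS χ b a pr e).Λ ∧
      Nat.card (HomS (prS χ b a pr e) (prS χ b a pr e)) = ℓ ∧
      Nat.card (BilS (prS χ b a pr e) (prS χ b a pr e)) = ℓ ∧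
      Nat.card (Sk (prS χ b a pr e).σ (prS χ b a pr e).Λ) = 1) :
    (∀ n : ℕ, Tam ℓ b (wI a) (-(((twl pr e).natDegree + n : ℕ) : ℤ)) → ∀ t ∈ gs F pr n,
      ist ℓ a b (twl pr e * ∏ P ∈ t, P) ≠ 0) ∧
    (∀ k : ℕ, ∃ N : ℕ, (2 ≤ m → ConnG ℓ a → N = ∏ i ∈ Finset.range k, (1 + ℓ ^ i)) ∧
      ∀ ε : ℝ, 0 < ε → ∃ n₀ : ℕ, ∀ n : ℕ, n₀ ≤ n →
        Tam ℓ b (wI a) (-(((twl pr e).natDegree + n : ℕ) : ℤ)) →
        |∑ t ∈ gs F pr n, (ist ℓ a b (twl pr e * ∏ P ∈ t, P) : ℝ) ^ k -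
          (N : ℝ) * ((gs F pr n).card : ℝ)| ≤ ε * ((gs F pr n).card : ℝ)) ∧
    (∀ ε : ℝ, 0 < ε → ∃ n₀ : ℕ, ∀ n : ℕ, n₀ ≤ n →
      Tam ℓ b (wI a) (-(((twl pr e).natDegree + n : ℕ) : ℤ)) →
      ((1 - 1 / ((ℓ : ℝ) - 1)) ^ (m - 1) - ε) * ((gs F pr n).card : ℝ) ≤
        (((gs F pr n).filter fun t => ist ℓ a b (twl pr e * ∏ P ∈ t, P) = 1).card : ℝ)) ∧
    (2 ≤ m → ConnG ℓ a → ∀ (r : ℕ) (ε : ℝ), 0 < ε → ∃ n₀ : ℕ, ∀ n : ℕ, n₀ ≤ n →
      Tam ℓ b (wI a) (-(((twl pr e).natDegree + n : ℕ) : ℤ)) →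
      |(((gs F pr n).filter fun t => ist ℓ a b (twl pr e * ∏ P ∈ t, P) = ℓ ^ r).card : ℝ) -
        (∏' i : ℕ, (1 - ((ℓ : ℝ)⁻¹) ^ (2 * i + 1))) /
          (∏ i ∈ Finset.range r, ((ℓ : ℝ) ^ (i + 1) - 1)) * ((gs F pr n).card : ℝ)| ≤
        ε * ((gs F pr n).card : ℝ)) := by
  have hℓ : ℓ.Prime := Fact.out
  have hℓ3 : 3 ≤ ℓ := lt_of_le_of_ne hℓ.two_le fun h => hℓ2 h.symm
  have hq4 : 4 ≤ Nat.card F := by
    have h1 : 2 ≤ Nat.card F := Finite.one_lt_card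
    have h2 := Nat.le_of_dvd (by omega) hq
    omega
  have hℓr : (3 : ℝ) ≤ ℓ := by exact_mod_cast hℓ3
  have hQ : (0 : ℝ) < (Nat.card F : ℝ) := by
    have : 0 < Nat.card F := by omega
    exact_mod_cast this
  obtain ⟨c, hc, n₁, hcnt⟩ := hCnt F hq4 V pr hpr
  have hRcp : Rcp χ := hRec.sym F χ hq hχ hχ1
  have hz : ∃ z : F, z ^ ℓ = -1 := by
    obtain ⟨z, hz⟩ := (hχ.ker (-1) (neg_ne_zero.2 one_ne_zero)).1 hχ1
    exact ⟨z, hz.symm⟩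
  obtain ⟨hH, hInf⟩ := hHyp F ℓ hq χ hχ hχ1 m a ha b hB V pr hpr hcov e hT
  set S : Sys ℓ V := prS χ b a pr e with hS
  have hHS : HypW χ pr S.σ S.Λ := hH
  -- the order of the Selmer group
  have hkey : ∀ n : ℕ, Tam ℓ b (wI a) (-(((twl pr e).natDegree + n : ℕ) : ℤ)) →
      ∀ t ∈ gs F pr n, ist ℓ a b (twl pr e * ∏ P ∈ t, P) = S.sol χ pr t ∧
        ist ℓ a b (twl pr e * ∏ P ∈ t, P) ≠ 0 := by
    intro n hn t ht
    obtain ⟨h1, h2⟩ := hRel F ℓ hq χ hχ hχ1 hRcp m hm a ha b hb hB V pr hpr hcov e hT n t ht hn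
    have hE : twl pr e * ∏ P ∈ t, P ≠ 0 := by
      refine mul_ne_zero (monic_twl hpr e).ne_zero (Finset.prod_ne_zero_iff.2 fun P hP => ?_)
      have h3 : t ∈ ps F n := by
        have h4 := ht
        simp only [gs, Finset.mem_filter] at h4
        exact h4.1
      exact ((mem_ps.1 h3).1 P hP).1.ne_zero
    exact ⟨le_antisymm h2 (hCnt' F ℓ hRec hq χ hχ hχ1 m a ha b hb hB V pr hpr hcov e hH.inj n
      (hInf n hn) t ht (hTor F ℓ hℓ hz m _ hE a ha b hB) h1), h1⟩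
  have hsum : ∀ (k n : ℕ), Tam ℓ b (wI a) (-(((twl pr e).natDegree + n : ℕ) : ℤ)) →
      ∑ t ∈ gs F pr n, (ist ℓ a b (twl pr e * ∏ P ∈ t, P) : ℝ) ^ k =
        ∑ t ∈ gs F pr n, (S.sol χ pr t : ℝ) ^ k := fun k n hn =>
    Finset.sum_congr rfl fun t ht => by rw [(hkey n hn t ht).1]
  have hfil : ∀ (x n : ℕ), Tam ℓ b (wI a) (-(((twl pr e).natDegree + n : ℕ) : ℤ)) →
      ((gs F pr n).filter fun t => ist ℓ a b (twl pr e * ∏ P ∈ t, P) = x) =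
        (gs F pr n).filter fun t => S.sol χ pr t = x := fun x n hn =>
    Finset.filter_congr fun t ht => by rw [(hkey n hn t ht).1]
  -- connected families
  have hconn : 2 ≤ m → ConnG ℓ a → FamS χ pr (fun _ : Unit => S) ∧
      Nat.card (HomS S S) = ℓ ∧ Nat.card (BilS S S) = ℓ ∧ Nat.card (Sk S.σ S.Λ) = 1 := by
    intro hm2 hconn
    obtain ⟨hI1, hI2⟩ := hcon hm2 hconn
    exact ⟨⟨fun _ => hI1, fun _ => hHS, fun i j h => absurd (Subsingleton.elim i j) h,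
      fun i j h => absurd (Subsingleton.elim i j) h⟩, hI2⟩
  -- the moments of `Eq_`
  have hEq : 2 ≤ m → ConnG ℓ a → ∀ (j : ℕ) (ε : ℝ), 0 < ε → ∃ n₀ : ℕ, ∀ n : ℕ, n₀ ≤ n →
      InfW pr S.σ n → |∑ t ∈ gs F pr n, (Eq_ (ℓ : ℝ) j).eval (S.sol χ pr t : ℝ) -
        (ℓ : ℝ) ^ (j * (j - 1) / 2) * ((gs F pr n).card : ℝ)| ≤ ε * (Nat.card F : ℝ) ^ n := by
    intro hm2 hcn j ε hε
    obtain ⟨hF, h1, h2, h3⟩ := hconn hm2 hcn
    obtain ⟨n₀, h0⟩ := hMix F ℓ hℓ2 hq χ hχ V pr hpr Unit (fun _ => S) hF (fun _ => j) ε hε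
    refine ⟨n₀, fun n hn hI => ?_⟩
    have h4 := h0 n hn fun _ => hI
    simp only [h1, h2, h3, Finset.univ_unique, Finset.prod_singleton, Nat.cast_one, one_pow,
      one_mul] at h4
    exact h4
  refine ⟨fun n hn t ht => (hkey n hn t ht).2, fun k => ?_, fun ε hε => ?_,
    fun hm2 hcn r ε hε => ?_⟩
  · -- moments
    by_cases hcon' : 2 ≤ m ∧ ConnG ℓ a
    · obtain ⟨hm2, hcn⟩ := hcon'
      refine ⟨∏ i ∈ Finset.range k, (1 + ℓ ^ i), fun _ _ => rfl, fun ε hε => ?_⟩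
      obtain ⟨L, hL⟩ := hFun (ℓ : ℝ) fun j => (ℓ : ℝ) ^ (j * (j - 1) / 2)
      obtain ⟨n₀, h0⟩ := hMul Unit (Finset F[X]) (gs F pr) (InfW pr S.σ) (Nat.card F) hQ
        (fun _ => (ℓ : ℝ)) (fun _ t => (S.sol χ pr t : ℝ)) (fun _ => L) (fun j ε hε => by
          obtain ⟨n₀, h0⟩ := hEq hm2 hcn (j ()) ε hε
          refine ⟨n₀, fun n hn hI => ?_⟩
          have h1 := h0 n hn hI
          rw [← hL] at h1
          simpa only [Finset.univ_unique, Finset.prod_singleton] using h1)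
        (fun _ => X ^ k) (ε * c) (mul_pos hε hc)
      refine ⟨max n₀ n₁, fun n hn hI => ?_⟩
      have h1 := h0 n ((le_max_left _ _).trans hn) (hInf n hI)
      simp only [Finset.univ_unique, Finset.prod_singleton, eval_pow, eval_X,
        hMom (ℓ : ℝ) L hL k] at h1
      rw [hsum k n hI]
      push_cast
      exact pr_absorb (hcnt n ((le_max_right _ _).trans hn)) hε h1
    · obtain ⟨hP1, hP2, hP3⟩ := hPow F ℓ V χ pr S k
      refine ⟨muW (Sys.pi fun _ : Fin k => S).σ (Sys.pi fun _ : Fin k => S).Λ,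
        fun h1 h2 => absurd ⟨h1, h2⟩ hcon', fun ε hε => ?_⟩
      obtain ⟨n₀, h0⟩ := hFM F ℓ hℓ2 hq χ hχ V (Sys.pi fun _ : Fin k => S).W pr hpr
        (Sys.pi fun _ : Fin k => S).σ (Sys.pi fun _ : Fin k => S).Λ (hP1 hHS) (ε * c)
        (mul_pos hε hc)
      refine ⟨max n₀ n₁, fun n hn hI => ?_⟩
      have h1 := h0 n ((le_max_left _ _).trans hn) (hP2 n (hInf n hI))
      have h2 : ∀ t, (nSol χ pr (Sys.pi fun _ : Fin k => S).σ (Sys.pi fun _ : Fin k => S).Λ t : ℝ)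
          = (S.sol χ pr t : ℝ) ^ k := by
        intro t
        have h3 := hP3 t
        rw [Sys.sol] at h3
        rw [h3]
        push_cast
        rfl
      rw [Finset.sum_congr rfl fun t _ => h2 t] at h1
      rw [hsum k n hI]
      exact pr_absorb (hcnt n ((le_max_right _ _).trans hn)) hε h1
  · -- positive proportion
    obtain ⟨ι, hι, S', hF, hcard, hsol⟩ := hRep F ℓ hℓ2 hq χ hχ V (Vs ℓ b) pr hpr S.σ S.Λ hHS
    have hε2 : 0 < min (ε / 2) (ε / 2 * c) := lt_min (by linarith) (mul_pos (by linarith) hc)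
    obtain ⟨n₀, h0⟩ := hPos F ℓ hℓ2 hq χ hχ V pr hpr ι S' hF _ hε2
    refine ⟨max n₀ n₁, fun n hn hI => ?_⟩
    obtain ⟨h1, h2⟩ := hsol n (hInf n hI)
    have h3 := h0 n ((le_max_left _ _).trans hn) h1
    have h4 := hcnt n ((le_max_right _ _).trans hn)
    rw [hfil 1 n hI]
    have h5 : (((gs F pr n).filter fun t => ∀ i, (S' i).sol χ pr t = 1).card : ℝ) ≤
        (((gs F pr n).filter fun t => S.sol χ pr t = 1).card : ℝ) := by
      have h6 : ((gs F pr n).filter fun t => ∀ i, (S' i).sol χ pr t = 1) ⊆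
          (gs F pr n).filter fun t => S.sol χ pr t = 1 := by
        intro t ht
        rw [Finset.mem_filter] at ht ⊢
        exact ⟨ht.1, h2 t ht.1 ht.2⟩
      exact_mod_cast Finset.card_le_card h6
    have hp0 : (0 : ℝ) ≤ 1 - 1 / ((ℓ : ℝ) - 1) := by
      rw [sub_nonneg, div_le_one (by linarith)]
      linarith
    have hp1 : 1 - 1 / ((ℓ : ℝ) - 1) ≤ 1 := by
      have : 0 ≤ 1 / ((ℓ : ℝ) - 1) := div_nonneg zero_le_one (by linarith)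
      linarith
    have h6 : (1 - 1 / ((ℓ : ℝ) - 1)) ^ (m - 1) ≤ (1 - 1 / ((ℓ : ℝ) - 1)) ^ Fintype.card ι :=
      pow_le_pow_of_le_one hp0 hp1 (hcard.trans (pp_finrank_le hm hb))
    have hg0 : (0 : ℝ) ≤ ((gs F pr n).card : ℝ) := Nat.cast_nonneg _
    have h7 : min (ε / 2) (ε / 2 * c) * (Nat.card F : ℝ) ^ n ≤
        ε / 2 * ((gs F pr n).card : ℝ) := by
      have h8 : min (ε / 2) (ε / 2 * c) * (Nat.card F : ℝ) ^ n ≤
          ε / 2 * c * (Nat.card F : ℝ) ^ n :=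
        mul_le_mul_of_nonneg_right (min_le_right _ _) (pow_nonneg hQ.le _)
      exact pr_absorb h4 (by linarith) h8
    have h8 : min (ε / 2) (ε / 2 * c) * ((gs F pr n).card : ℝ) ≤
        ε / 2 * ((gs F pr n).card : ℝ) :=
      mul_le_mul_of_nonneg_right (min_le_left _ _) hg0
    have h9 := mul_le_mul_of_nonneg_right h6 hg0
    nlinarith
  · -- the distribution
    obtain ⟨hF, h1, -, -⟩ := hconn hm2 hcn
    have hpow : ∀ t : Finset F[X], ∃ r : ℕ, (S.sol χ pr t : ℝ) = (ℓ : ℝ) ^ r := by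
      intro t
      obtain ⟨r, hr⟩ := (hCt F ℓ V χ pr Unit (fun _ => S) hF t).2 ()
      refine ⟨r, ?_⟩
      rw [hr, h1]
      push_cast
      rfl
    have hε2 : 0 < min (ε / 2) (ε / 2 * c) := lt_min (by linarith) (mul_pos (by linarith) hc)
    obtain ⟨n₀, h0⟩ := hDis (Finset F[X]) (gs F pr) (InfW pr S.σ) (Nat.card F) hQ (ℓ : ℝ) hℓr
      (fun t => (S.sol χ pr t : ℝ)) hpow (hEq hm2 hcn) r _ hε2
    refine ⟨max n₀ n₁, fun n hn hI => ?_⟩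
    have h2 := h0 n ((le_max_left _ _).trans hn) (hInf n hI)
    have h4 := hcnt n ((le_max_right _ _).trans hn)
    rw [hfil (ℓ ^ r) n hI]
    have h5 : ((gs F pr n).filter fun t => (S.sol χ pr t : ℝ) = (ℓ : ℝ) ^ r) =
        (gs F pr n).filter fun t => S.sol χ pr t = ℓ ^ r :=
      Finset.filter_congr fun t _ => by exact_mod_cast Iff.rfl
    rw [h5] at h2
    have hg0 : (0 : ℝ) ≤ ((gs F pr n).card : ℝ) := Nat.cast_nonneg _
    have h7 : min (ε / 2) (ε / 2 * c) * (Nat.card F : ℝ) ^ n ≤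
        ε / 2 * ((gs F pr n).card : ℝ) := by
      have h8 : min (ε / 2) (ε / 2 * c) * (Nat.card F : ℝ) ^ n ≤
          ε / 2 * c * (Nat.card F : ℝ) ^ n :=
        mul_le_mul_of_nonneg_right (min_le_right _ _) (pow_nonneg hQ.le _)
      exact pr_absorb h4 (by linarith) h8
    have h8 : min (ε / 2) (ε / 2 * c) * ((gs F pr n).card : ℝ) ≤
        ε / 2 * ((gs F pr n).card : ℝ) :=
      mul_le_mul_of_nonneg_right (min_le_left _ _) hg0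
    refine h2.trans ?_
    linarith

open Classical in
theorem go_main (hLg : StmtSuLg.{u}) (hFM : StmtPqFM.{u}) (hPos : StmtPqPos.{u})
    (hRep : StmtPqRep.{u})
    (hMix : StmtPqMix.{u}) (hCt : StmtPqCt.{u}) (hMul : StmtPqMul.{u})
    (hFun : StmtPqFun) (hMom : StmtPqMom) (hPow : StmtPrPow.{u}) (hDis : StmtPrDis.{u})
    (hCnt' : StmtPrCnt.{u}) (hRec : RecP.{u} ℓ) (hSy : StmtSuSy.{u}) (hTor : StmtPgTor.{u})
    (hBij : StmtPpBij.{u})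
    (hCnt : StmtPpCnt.{u}) (hHyp : StmtPgHyp.{u}) (hRel : StmtPgRel.{u})
    (hℓ2 : ℓ ≠ 2) (hq : ℓ ∣ Nat.card F - 1)
    (hm : 0 < m) {a : Fin m → F[X]} (ha : Function.Injective a) {b : Fin m → ℕ}
    (hb : ∀ i, ¬ ℓ ∣ b i) (hB : ¬ ℓ ∣ ∑ i, b i) {D : F[X]} (hD : TDg ℓ b a D)
    (hcon : ∀ (χ : F → ZMod ℓ), IsLg ℓ χ → χ (-1) = 0 → ∀ (V : Type) [Fintype V] (pr : V → F[X]),
      Fam pr → (∀ P : F[X], P.Monic → Irreducible P → ∀ i j, i ≠ j → P ∣ a i - a j →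
        ∃ v, pr v = P) → ∀ e : V → ZMod ℓ, 2 ≤ m → ConnG ℓ a →
      IrrW (prS χ b a pr e).σ (prS χ b a pr e).Λ ∧
      Nat.card (HomS (prS χ b a pr e) (prS χ b a pr e)) = ℓ ∧
      Nat.card (BilS (prS χ b a pr e) (prS χ b a pr e)) = ℓ ∧
      Nat.card (Sk (prS χ b a pr e).σ (prS χ b a pr e).Λ) = 1) :
    (∃ c : ℝ, 0 < c ∧ ∃ n₀ : ℕ, ∀ n : ℕ, n₀ ≤ n →
      c * (Nat.card F : ℝ) ^ n ≤ ((Msf a D n).ncard : ℝ)) ∧
    (∀ n : ℕ, Tam ℓ b (wI a) (-((D.natDegree + n : ℕ) : ℤ)) → ∀ M ∈ Msf a D n,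
      ist ℓ a b (D * M) ≠ 0) ∧
    (∀ k : ℕ, ∃ N : ℕ, (2 ≤ m → ConnG ℓ a → N = ∏ i ∈ Finset.range k, (1 + ℓ ^ i)) ∧
      ∀ ε : ℝ, 0 < ε → ∃ n₀ : ℕ, ∀ n : ℕ, n₀ ≤ n →
        Tam ℓ b (wI a) (-((D.natDegree + n : ℕ) : ℤ)) →
        |∑ᶠ M ∈ Msf a D n, (ist ℓ a b (D * M) : ℝ) ^ k - (N : ℝ) * ((Msf a D n).ncard : ℝ)| ≤
          ε * ((Msf a D n).ncard : ℝ)) ∧
    (∀ ε : ℝ, 0 < ε → ∃ n₀ : ℕ, ∀ n : ℕ, n₀ ≤ n →
      Tam ℓ b (wI a) (-((D.natDegree + n : ℕ) : ℤ)) →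
      ((1 - 1 / ((ℓ : ℝ) - 1)) ^ (m - 1) - ε) * ((Msf a D n).ncard : ℝ) ≤
        ({M ∈ Msf a D n |
          placesSelmer F[X] (RatFunc.inftyValuation F) ℓ (pts (D * M) a) b =
            torsionGroup ℓ (pts (D * M) a) b}.ncard : ℝ)) ∧
    (2 ≤ m → ConnG ℓ a → ∀ (r : ℕ) (ε : ℝ), 0 < ε → ∃ n₀ : ℕ, ∀ n : ℕ, n₀ ≤ n →
      Tam ℓ b (wI a) (-((D.natDegree + n : ℕ) : ℤ)) →
      |({M ∈ Msf a D n | ist ℓ a b (D * M) = ℓ ^ r}.ncard : ℝ) -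
        (∏' i : ℕ, (1 - ((ℓ : ℝ)⁻¹) ^ (2 * i + 1))) /
          (∏ i ∈ Finset.range r, ((ℓ : ℝ) ^ (i + 1) - 1)) * ((Msf a D n).ncard : ℝ)| ≤
        ε * ((Msf a D n).ncard : ℝ)) := by
  have hℓ : ℓ.Prime := Fact.out
  have hq4 : 4 ≤ Nat.card F := by
    have h1 : 2 ≤ Nat.card F := Finite.one_lt_card
    have h2 := Nat.le_of_dvd (by omega) hq
    have h3 : 3 ≤ ℓ := lt_of_le_of_ne hℓ.two_le fun h => hℓ2 h.symm
    omega
  obtain ⟨χ, hχ⟩ := hLg F ℓ hℓ hq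
  have hχ1 : χ (-1) = 0 := (hSy F ℓ hℓ hq χ hχ).2.1 hℓ2
  obtain ⟨s, pr, hpr, hcov⟩ := pp_exists_bad ha hD.monic.ne_zero
  have hbij := fun n => pp_bijOn hBij hpr hcov n
  have hcard : ∀ n, ((Msf a D n).ncard : ℝ) = ((gs F pr n).card : ℝ) := by
    intro n
    rw [← (hbij n).image_eq, (hbij n).injOn.ncard_image, Set.ncard_coe_finset]
  refine ⟨?_, ?_⟩
  · obtain ⟨c, hc, n₀, h0⟩ := hCnt F hq4 (Fin s) pr hpr
    exact ⟨c, hc, n₀, fun n hn => by rw [hcard]; exact h0 n hn⟩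
  have htw : twl pr (fun v => ((multiplicity (pr v) D : ℕ) : ZMod ℓ)) = D :=
    pp_twl hpr hD.monic hD.free fun P hP hPi hd => (hcov P hP hPi).2 (Or.inl hd)
  have hval : ∀ v, (((multiplicity (pr v) D : ℕ) : ZMod ℓ)).val = multiplicity (pr v) D :=
    fun v => ZMod.val_cast_of_lt (hD.free _ (hpr.monic v) (hpr.irr v))
  have hT : ∀ v, Tam ℓ b (wP (pr v) a)
      ((((multiplicity (pr v) D : ℕ) : ZMod ℓ)).val : ℤ) := by
    intro v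
    rw [hval]
    by_cases hdif : ∃ i j, i ≠ j ∧ pr v ∣ a i - a j
    · exact hD.tame _ (hpr.monic v) (hpr.irr v) hdif
    · have hvD : pr v ∣ D := by
        rcases (hcov _ (hpr.monic v) (hpr.irr v)).1 ⟨v, rfl⟩ with h | h
        · exact h
        · exact absurd h hdif
      refine tam_good hℓ hB ?_ ?_
      · intro i k hik
        have h1 : ¬ pr v ∣ a i - a k := fun h => hdif ⟨i, k, hik, h⟩
        rw [wP, multiplicity_eq_zero.2 h1, Nat.cast_zero]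
      · intro h
        rw [Int.natCast_dvd_natCast] at h
        have h1 := hD.free _ (hpr.monic v) (hpr.irr v)
        have h2 : multiplicity (pr v) D ≠ 0 := multiplicity_ne_zero.2 hvD
        exact absurd (Nat.le_of_dvd (Nat.pos_of_ne_zero h2) h) (not_le.2 h1)
  have hcov' : ∀ P : F[X], P.Monic → Irreducible P → ∀ i j, i ≠ j → P ∣ a i - a j →
      ∃ v, pr v = P := fun P hP hPi i j hij hd => (hcov P hP hPi).2 (Or.inr ⟨i, j, hij, hd⟩)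
  obtain ⟨h1, h2, h3, h4⟩ := go_core hFM hPos hRep hMix hCt hMul hFun hMom hPow hDis hCnt'
    hRec hTor hCnt hHyp hRel hℓ2 hq hχ hχ1 hm ha hb hB hpr hcov' hT
    (hcon χ hχ hχ1 (Fin s) pr hpr hcov' _)
  rw [htw] at h1 h2 h3 h4
  refine ⟨fun n hn M hM => ?_, fun k => ?_, fun ε hε => ?_, fun hm2 hcn r ε hε => ?_⟩
  · obtain ⟨t, ht, rfl⟩ := (hbij n).surjOn hM
    exact h1 n hn t ht
  · obtain ⟨N, hN, h5⟩ := h2 k
    refine ⟨N, hN, fun ε hε => ?_⟩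
    obtain ⟨n₀, h0⟩ := h5 ε hε
    refine ⟨n₀, fun n hn hI => ?_⟩
    rw [hcard, pr_finsum (hbij n) fun M => (ist ℓ a b (D * M) : ℝ) ^ k]
    exact h0 n hn hI
  · obtain ⟨n₀, h0⟩ := h3 ε hε
    refine ⟨n₀, fun n hn hI => ?_⟩
    have h5 := h0 n hn hI
    rw [hcard, pr_ncard (hbij n) fun M => placesSelmer F[X] (RatFunc.inftyValuation F) ℓ
      (pts (D * M) a) b = torsionGroup ℓ (pts (D * M) a) b]
    refine h5.trans (le_of_eq ?_)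
    congr 2
    refine Finset.filter_congr fun t ht => ?_
    refine pr_one_iff ha hb (mul_ne_zero hD.monic.ne_zero ?_)
    exact ((hbij n).mapsTo ht).1.ne_zero
  · obtain ⟨n₀, h0⟩ := h4 hm2 hcn r ε hε
    refine ⟨n₀, fun n hn hI => ?_⟩
    rw [hcard, pr_ncard (hbij n) fun M => ist ℓ a b (D * M) = ℓ ^ r]
    refine (le_of_eq ?_).trans (h0 n hn hI)
    congr 4
    exact Finset.filter_congr_decidable _ _ _

end count

end MP72e2e6
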