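import Pool.Agent.Lib.MP_72e2e6_nt.PpStmtB

/-!
# MP_72e2e6_nt: positive proportion of twists, module PpCom
-/

namespace MP72e2e6

section com

variable {ℓ m : ℕ}

/-- the bracket vanishes -/
theorem ppcom_bracket {w : Fin m → Fin m → ℤ} (hw : Ultra w) {y : Fin m → Fin m → ZMod ℓ}
    (hy : ∀ i k, y i k = y k i)
    (ht : ∀ i j k, i ≠ j → j ≠ k → i ≠ k → w i k < w i j → y j k = y i k) {i j k : Fin m}
    (hjk : j ≠ k) :
    (w i j : ZMod ℓ) * (y k j - y i k) + (w i k : ZMod ℓ) * (y i j - y k j) +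
      (w k j : ZMod ℓ) * (y i k - y i j) = 0 := by
  by_cases hik : i = k
  · subst hik
    ring
  by_cases hij : i = j
  · subst hij
    rw [hw.symm k i, hy k i]
    ring
  have t1 := hw.tri i k j hik hjk.symm hij
  have t2 := hw.tri i j k hij hjk hik
  have t3 := hw.tri k i j (Ne.symm hik) hij hjk.symm
  have s1 := hw.symm j k
  have s2 := hw.symm k i
  rcases lt_trichotomy (w i k) (w i j) with h | h | h
  · -- w i j is the largest
    have h1 : w k j = w i k := by omega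
    have h2 := ht i j k hij hjk hik h
    rw [h1, hy k j, h2]
    ring
  · by_cases h3 : w i j < w k j
    · have h4 := ht k j i hjk.symm (Ne.symm hij) (Ne.symm hik) (by omega)
      rw [hy j i, hy k i] at h4
      rw [h4, h]
      ring
    · have h4 : w k j = w i j := by omega
      rw [h4, h]
      ring
  · have h1 : w k j = w i j := by omega
    have h2 := ht i k j hik hjk.symm hij h
    rw [h1, h2]
    ring

/-- the sum operator -/
def ppcomN (b : Fin m → ℕ) (w : Fin m → Fin m → ZMod ℓ) (c : Fin m → ZMod ℓ) (i : Fin m) :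
    ZMod ℓ := ∑ k, (b k : ZMod ℓ) * w i k * (c i - c k)

theorem ppcom_comm [Fact ℓ.Prime] (hℓ2 : ℓ ≠ 2) (b : Fin m → ℕ) {w : Fin m → Fin m → ℤ}
    (hw : Ultra w) {y : Fin m → Fin m → ZMod ℓ} (hy : ∀ i k, y i k = y k i)
    (ht : ∀ i j k, i ≠ j → j ≠ k → i ≠ k → w i k < w i j → y j k = y i k)
    (c : Fin m → ZMod ℓ) (i : Fin m) :
    ppcomN b (fun i k => (w i k : ZMod ℓ)) (ppcomN b y c) i =
      ppcomN b y (ppcomN b (fun i k => (w i k : ZMod ℓ)) c) i := by
  have hℓ : ℓ.Prime := Fact.out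
  have h2 : (2 : ZMod ℓ) ≠ 0 := by
    intro h2
    have h3 : ((2 : ℕ) : ZMod ℓ) = 0 := by exact_mod_cast h2
    rw [ZMod.natCast_eq_zero_iff] at h3
    exact hℓ2 ((Nat.prime_dvd_prime_iff_eq hℓ Nat.prime_two).1 h3)
  let f : Fin m → Fin m → ZMod ℓ := fun k j =>
    (b k : ZMod ℓ) * (w i k : ZMod ℓ) * ((b j : ZMod ℓ) * y i j * (c i - c j) -
      (b j : ZMod ℓ) * y k j * (c k - c j)) -
    (b k : ZMod ℓ) * y i k * ((b j : ZMod ℓ) * (w i j : ZMod ℓ) * (c i - c j) -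
      (b j : ZMod ℓ) * (w k j : ZMod ℓ) * (c k - c j))
  have h3 : ppcomN b (fun i k => (w i k : ZMod ℓ)) (ppcomN b y c) i -
      ppcomN b y (ppcomN b (fun i k => (w i k : ZMod ℓ)) c) i = ∑ k, ∑ j, f k j := by
    simp only [ppcomN, f, Finset.sum_sub_distrib, ← Finset.mul_sum]
  have h4 : ∀ k j, f k j + f j k = 0 := by
    intro k j
    by_cases hjk : j = k
    · subst hjk
      simp only [f]
      ring
    have h5 := ppcom_bracket hw hy ht (i := i) hjk
    have h6 : f k j + f j k = (b k : ZMod ℓ) * (b j : ZMod ℓ) * (c k - c j) *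
        ((w i j : ZMod ℓ) * (y k j - y i k) + (w i k : ZMod ℓ) * (y i j - y k j) +
          (w k j : ZMod ℓ) * (y i k - y i j)) := by
      simp only [f]
      rw [hw.symm j k, hy j k]
      ring
    rw [h6, h5, mul_zero]
  have h5 : 2 * ∑ k, ∑ j, f k j = 0 := by
    have h6 : ∑ k, ∑ j, f k j = ∑ k, ∑ j, f j k := Finset.sum_comm
    have h7 : 2 * ∑ k, ∑ j, f k j = ∑ k, ∑ j, (f k j + f j k) := by
      simp only [Finset.sum_add_distrib]
      rw [two_mul]
      congr 1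
    rw [h7]
    exact Finset.sum_eq_zero fun k _ => Finset.sum_eq_zero fun j _ => h4 k j
  rw [← sub_eq_zero, h3]
  exact (mul_eq_zero.1 h5).resolve_left h2

theorem tPpCom : StmtPpCom := by
  intro ℓ hℓ hℓ2 m b w hw y hy ht ρ ρ' c i
  have : Fact ℓ.Prime := ⟨hℓ⟩
  have h1 : ∀ (ρ : ZMod ℓ) (v : Fin m → Fin m → ZMod ℓ) (x : Fin m → ZMod ℓ) (i : Fin m),
      sg b ρ v x i = ρ * x i + (∑ k, (b k : ZMod ℓ))⁻¹ * ppcomN b v x i := fun _ _ _ _ => rfl
  have h2 : ∀ (ρ : ZMod ℓ) (v v' : Fin m → Fin m → ZMod ℓ) (x : Fin m → ZMod ℓ) (i : Fin m),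
      ppcomN b v (fun i => ρ * x i + (∑ k, (b k : ZMod ℓ))⁻¹ * ppcomN b v' x i) i =
        ρ * ppcomN b v x i + (∑ k, (b k : ZMod ℓ))⁻¹ * ppcomN b v (ppcomN b v' x) i := by
    intro ρ v v' x i
    unfold ppcomN
    rw [Finset.mul_sum, Finset.mul_sum, ← Finset.sum_add_distrib]
    exact Finset.sum_congr rfl fun k _ => by ring
  have h3 : sg b ρ' y c = fun i => ρ' * c i + (∑ k, (b k : ZMod ℓ))⁻¹ * ppcomN b y c i :=
    funext fun i => h1 _ _ _ _
  have h4 : sg b ρ (fun i k => (w i k : ZMod ℓ)) c = fun i => ρ * c i +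
      (∑ k, (b k : ZMod ℓ))⁻¹ * ppcomN b (fun i k => (w i k : ZMod ℓ)) c i :=
    funext fun i => h1 _ _ _ _
  rw [h3, h4, h1, h1, h2, h2, ppcom_comm hℓ2 b hw hy ht]
  ring

end com

end MP72e2e6
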