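import Pool.Agent.Lib.MP_72e2e6_nt.PgStmt
import Pool.Agent.Lib.MP_72e2e6_nt.PpCom

/-!
# MP_72e2e6_nt: the operators commute, all primes (PgCom)
-/

set_option autoImplicit false

namespace MP72e2e6

section com

variable {m : ℕ}

theorem pgcom_add_self (x : ZMod 2) : x + x = 0 := by
  rw [← two_mul, show (2 : ZMod 2) = 0 from rfl, zero_mul]

/-- the sum of a symmetric function with zero diagonal -/
theorem pgcom_double (u : Fin m → Fin m → ZMod 2) (h1 : ∀ β β', u β β' = u β' β)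
    (h2 : ∀ β, u β β = 0) : ∑ β, ∑ β', u β β' = 0 := by
  rw [← Fintype.sum_prod_type']
  refine Finset.sum_involution (fun p _ => (p.2, p.1)) ?_ ?_ ?_ ?_
  · rintro ⟨β, β'⟩ _
    change u β β' + u β' β = 0
    rw [h1]
    exact pgcom_add_self _
  · rintro ⟨β, β'⟩ _ h3 h4
    have h5 : β' = β := (Prod.mk.inj h4).1
    refine h3 ?_
    change u β β' = 0
    rw [h5, h2]
  · intro p _
    exact Finset.mem_univ _
  · rintro ⟨β, β'⟩ _
    rfl

theorem pgcom_comm (b : Fin m → ℕ) {w : Fin m → Fin m → ℤ}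
    (hw : Ultra w) {y : Fin m → Fin m → ZMod 2} (hy : ∀ i k, y i k = y k i)
    (ht : ∀ i j k, i ≠ j → j ≠ k → i ≠ k → w i k < w i j → y j k = y i k)
    (c : Fin m → ZMod 2) (i : Fin m) :
    ppcomN b (fun i k => (w i k : ZMod 2)) (ppcomN b y c) i =
      ppcomN b y (ppcomN b (fun i k => (w i k : ZMod 2)) c) i := by
  let f : Fin m → Fin m → ZMod 2 := fun k j =>
    (b k : ZMod 2) * (w i k : ZMod 2) * ((b j : ZMod 2) * y i j * (c i - c j) -
      (b j : ZMod 2) * y k j * (c k - c j)) -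
    (b k : ZMod 2) * y i k * ((b j : ZMod 2) * (w i j : ZMod 2) * (c i - c j) -
      (b j : ZMod 2) * (w k j : ZMod 2) * (c k - c j))
  have h3 : ppcomN b (fun i k => (w i k : ZMod 2)) (ppcomN b y c) i -
      ppcomN b y (ppcomN b (fun i k => (w i k : ZMod 2)) c) i = ∑ k, ∑ j, f k j := by
    simp only [ppcomN, f, Finset.sum_sub_distrib, ← Finset.mul_sum]
  have h0 : ∀ k, f k k = 0 := by
    intro k
    simp only [f]
    ring
  have h4 : ∀ k j, f k j + f j k = 0 := by
    intro k j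
    by_cases hjk : j = k
    · subst hjk
      rw [h0, add_zero]
    have h5 := ppcom_bracket hw hy ht (i := i) hjk
    have h6 : f k j + f j k = (b k : ZMod 2) * (b j : ZMod 2) * (c k - c j) *
        ((w i j : ZMod 2) * (y k j - y i k) + (w i k : ZMod 2) * (y i j - y k j) +
          (w k j : ZMod 2) * (y i k - y i j)) := by
      simp only [f]
      rw [hw.symm j k, hy j k]
      ring
    rw [h6, h5, mul_zero]
  have h5 : ∀ k j, f k j = f j k := by
    intro k j
    have h6 := h4 k j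
    have h7 := pgcom_add_self (f j k)
    linear_combination h6 - h7
  rw [← sub_eq_zero, h3]
  exact pgcom_double f h5 h0

end com

theorem tPgCom (h1 : StmtPpCom) : StmtPgCom := by
  intro ℓ hℓ m b w hw y hy ht ρ ρ' c i
  by_cases hℓ2 : ℓ = 2
  · subst hℓ2
    have h1 : ∀ (ρ : ZMod 2) (v : Fin m → Fin m → ZMod 2) (x : Fin m → ZMod 2) (i : Fin m),
        sg b ρ v x i = ρ * x i + (∑ k, (b k : ZMod 2))⁻¹ * ppcomN b v x i := fun _ _ _ _ => rfl
    have h2 : ∀ (ρ : ZMod 2) (v v' : Fin m → Fin m → ZMod 2) (x : Fin m → ZMod 2) (i : Fin m),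
        ppcomN b v (fun i => ρ * x i + (∑ k, (b k : ZMod 2))⁻¹ * ppcomN b v' x i) i =
          ρ * ppcomN b v x i + (∑ k, (b k : ZMod 2))⁻¹ * ppcomN b v (ppcomN b v' x) i := by
      intro ρ v v' x i
      unfold ppcomN
      rw [Finset.mul_sum, Finset.mul_sum, ← Finset.sum_add_distrib]
      exact Finset.sum_congr rfl fun k _ => by ring
    have h3 : sg b ρ' y c = fun i => ρ' * c i + (∑ k, (b k : ZMod 2))⁻¹ * ppcomN b y c i :=
      funext fun i => h1 _ _ _ _
    have h4 : sg b ρ (fun i k => (w i k : ZMod 2)) c = fun i => ρ * c i +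
        (∑ k, (b k : ZMod 2))⁻¹ * ppcomN b (fun i k => (w i k : ZMod 2)) c i :=
      funext fun i => h1 _ _ _ _
    rw [h3, h4, h1, h1, h2, h2, pgcom_comm b hw hy ht]
    ring
  · exact h1 ℓ hℓ hℓ2 m b w hw y hy ht ρ ρ' c i

end MP72e2e6
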