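import Pool.Agent.Lib.MP_72e2e6_nt.PpStmtB

/-!
# MP_72e2e6_nt: positive proportion of twists, module PpIrr
-/

namespace MP72e2e6

open Polynomial

universe u

section

variable {ℓ m : ℕ}

/-- The vectors of the edges. -/
def ppirr_r (ℓ : ℕ) (b : Fin m → ℕ) (i j : Fin m) : Vs ℓ b :=
  ⟨fun k => (b j : ZMod ℓ) * (if k = i then 1 else 0) - (b i : ZMod ℓ) * (if k = j then 1 else 0),
    by
      change ∑ k, (b k : ZMod ℓ) * _ = 0
      have h1 : ∀ k, (b k : ZMod ℓ) * ((b j : ZMod ℓ) * (if k = i then 1 else 0) -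
          (b i : ZMod ℓ) * (if k = j then 1 else 0)) =
          (if k = i then (b k : ZMod ℓ) * (b j : ZMod ℓ) else 0) -
          (if k = j then (b k : ZMod ℓ) * (b i : ZMod ℓ) else 0) := by
        intro k
        split_ifs <;> ring
      rw [Finset.sum_congr rfl fun k _ => h1 k, Finset.sum_sub_distrib, Finset.sum_ite_eq',
        Finset.sum_ite_eq', if_pos (Finset.mem_univ _), if_pos (Finset.mem_univ _)]
      ring⟩

theorem ppirr_r_apply (b : Fin m → ℕ) (i j k : Fin m) : (ppirr_r ℓ b i j : Fin m → ZMod ℓ) k =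
    (b j : ZMod ℓ) * (if k = i then 1 else 0) - (b i : ZMod ℓ) * (if k = j then 1 else 0) := rfl

theorem ppirr_r_self (b : Fin m → ℕ) (i : Fin m) : ppirr_r ℓ b i i = 0 := by
  refine Subtype.ext (funext fun k => ?_)
  rw [ppirr_r_apply, sub_self]
  rfl

theorem ppirr_r_rel (b : Fin m → ℕ) (i k l : Fin m) :
    (b k : ZMod ℓ) • ppirr_r ℓ b i l = (b l : ZMod ℓ) • ppirr_r ℓ b i k +
      (b i : ZMod ℓ) • ppirr_r ℓ b k l := by
  refine Subtype.ext (funext fun x => ?_)
  change (b k : ZMod ℓ) * (ppirr_r ℓ b i l : Fin m → ZMod ℓ) x =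
    (b l : ZMod ℓ) * (ppirr_r ℓ b i k : Fin m → ZMod ℓ) x +
      (b i : ZMod ℓ) * (ppirr_r ℓ b k l : Fin m → ZMod ℓ) x
  rw [ppirr_r_apply, ppirr_r_apply, ppirr_r_apply]
  ring

theorem ppirr_top [Fact ℓ.Prime] {b : Fin m → ℕ} (hb : ∀ i, (b i : ZMod ℓ) ≠ 0)
    (A : Submodule (ZMod ℓ) (Vs ℓ b)) (i : Fin m) (h : ∀ k, ppirr_r ℓ b i k ∈ A) : A = ⊤ := by
  rw [eq_top_iff]
  intro c _
  have hc : ∑ k, (b k : ZMod ℓ) * (c : Fin m → ZMod ℓ) k = 0 := c.2
  have h1 : c = ∑ k, (-((c : Fin m → ZMod ℓ) k) * (b i : ZMod ℓ)⁻¹) • ppirr_r ℓ b i k := by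
    refine Subtype.ext (funext fun x => ?_)
    rw [AddSubmonoidClass.coe_finsetSum, Finset.sum_apply]
    have h2 : ∀ k, ((((-((c : Fin m → ZMod ℓ) k) * (b i : ZMod ℓ)⁻¹) •
        ppirr_r ℓ b i k : Vs ℓ b)) : Fin m → ZMod ℓ) x =
        -((b i : ZMod ℓ)⁻¹ * (if x = i then 1 else 0)) * ((b k : ZMod ℓ) *
          (c : Fin m → ZMod ℓ) k) + (if x = k then (c : Fin m → ZMod ℓ) k else 0) := by
      intro k
      change (-((c : Fin m → ZMod ℓ) k) * (b i : ZMod ℓ)⁻¹) *
        (ppirr_r ℓ b i k : Fin m → ZMod ℓ) x = _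
      rw [ppirr_r_apply]
      have := hb i
      split_ifs <;> field_simp <;> ring
    rw [Finset.sum_congr rfl fun k _ => h2 k, Finset.sum_add_distrib, ← Finset.mul_sum, hc,
      mul_zero, zero_add, Finset.sum_ite_eq, if_pos (Finset.mem_univ _)]
  rw [h1]
  exact A.sum_mem fun k _ => A.smul_mem _ (h k)

/-- The relation for a submodule. -/
theorem ppirr_mem [Fact ℓ.Prime] {b : Fin m → ℕ} (hb : ∀ i, (b i : ZMod ℓ) ≠ 0)
    (A : Submodule (ZMod ℓ) (Vs ℓ b)) {i k l : Fin m} (h1 : ppirr_r ℓ b i k ∈ A)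
    (h2 : ppirr_r ℓ b k l ∈ A) : ppirr_r ℓ b i l ∈ A := by
  have h3 : (b k : ZMod ℓ) • ppirr_r ℓ b i l ∈ A := by
    rw [ppirr_r_rel]
    exact A.add_mem (A.smul_mem _ h1) (A.smul_mem _ h2)
  exact (A.smul_mem_iff (hb k)).1 h3

variable {F : Type u} [Field F]

/-- The operator at an edge. -/
theorem ppirr_sig (b : Fin m → ℕ) (a : Fin m → F[X]) (P : F[X]) (e : ZMod ℓ) {i j : Fin m}
    (hij : i ≠ j) (h : ∀ k l, k ≠ l → ¬ (k = i ∧ l = j) → ¬ (k = j ∧ l = i) →
        vl ℓ P (a k - a l) = 0) (c : Vs ℓ b) :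
    sigV b a P e c = e • c + ((∑ k, (b k : ZMod ℓ))⁻¹ * vl ℓ P (a i - a j) *
      ((c : Fin m → ZMod ℓ) i - (c : Fin m → ZMod ℓ) j)) • ppirr_r ℓ b i j := by
  refine Subtype.ext (funext fun x => ?_)
  change sg b e (fun i k => vl ℓ P (a i - a k)) c x = e * (c : Fin m → ZMod ℓ) x +
    ((∑ k, (b k : ZMod ℓ))⁻¹ * vl ℓ P (a i - a j) *
      ((c : Fin m → ZMod ℓ) i - (c : Fin m → ZMod ℓ) j)) * (ppirr_r ℓ b i j : Fin m → ZMod ℓ) x
  rw [ppirr_r_apply, sg]
  set C : Fin m → ZMod ℓ := (c : Fin m → ZMod ℓ) with hC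
  by_cases hxi : x = i
  · subst hxi
    have h1 : ∑ k, (b k : ZMod ℓ) * vl ℓ P (a x - a k) * (C x - C k) =
        (b j : ZMod ℓ) * vl ℓ P (a x - a j) * (C x - C j) := by
      refine Finset.sum_eq_single j (fun k _ hk => ?_) fun h => absurd (Finset.mem_univ _) h
      by_cases hxk : x = k
      · rw [← hxk, sub_self (C x), mul_zero]
      · rw [h x k hxk (fun h' => hk h'.2) (fun h' => hij h'.1), mul_zero, zero_mul]
    rw [h1, if_pos rfl, if_neg hij]
    ring
  · by_cases hxj : x = j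
    · subst hxj
      have h1 : ∑ k, (b k : ZMod ℓ) * vl ℓ P (a x - a k) * (C x - C k) =
          (b i : ZMod ℓ) * vl ℓ P (a x - a i) * (C x - C i) := by
        refine Finset.sum_eq_single i (fun k _ hk => ?_) fun h => absurd (Finset.mem_univ _) h
        by_cases hxk : x = k
        · rw [← hxk, sub_self (C x), mul_zero]
        · rw [h x k hxk (fun h' => hxi h'.1) (fun h' => hk h'.2), mul_zero, zero_mul]
      rw [h1, if_neg hxi, if_pos rfl, vl_symm P a x i]
      ring
    · have h1 : ∑ k, (b k : ZMod ℓ) * vl ℓ P (a x - a k) * (C x - C k) = 0 := by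
        refine Finset.sum_eq_zero fun k _ => ?_
        by_cases hxk : x = k
        · rw [← hxk, sub_self (C x), mul_zero]
        · rw [h x k hxk (fun h' => hxi h'.1) (fun h' => hxj h'.1), mul_zero, zero_mul]
      rw [h1, if_neg hxi, if_neg hxj]
      ring

end

theorem tPpIrr.{v} : StmtPpIrr.{v} := by
  intro F _ ℓ _ χ m hm a b hb hB V pr hedge e
  have hb' : ∀ i, (b i : ZMod ℓ) ≠ 0 := fun i h => hb i ((ZMod.natCast_eq_zero_iff _ _).1 h)
  have hB' : (∑ k, (b k : ZMod ℓ)) ≠ 0 := by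
    intro h
    apply hB
    rw [← ZMod.natCast_eq_zero_iff]
    push_cast
    exact h
  -- the edge relation
  have hmem : ∀ (A : Submodule (ZMod ℓ) (Vs ℓ b)),
      (∀ v, ∀ y ∈ A, sigV b a (pr v) (e v) y ∈ A) → ∀ (i j : Fin m) (v : V), i ≠ j →
      vl ℓ (pr v) (a i - a j) ≠ 0 → (∀ k l, k ≠ l → ¬ (k = i ∧ l = j) → ¬ (k = j ∧ l = i) →
        vl ℓ (pr v) (a k - a l) = 0) → ∀ c ∈ A, (c : Fin m → ZMod ℓ) i ≠ (c : Fin m → ZMod ℓ) j →
      ppirr_r ℓ b i j ∈ A := by
    intro A hA i j v hij hv hz c hc hne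
    have h1 := hA v c hc
    rw [ppirr_sig b a (pr v) (e v) hij hz c] at h1
    have h2 := (A.add_mem_iff_right (A.smul_mem _ hc)).1 h1
    refine (A.smul_mem_iff ?_).1 h2
    exact mul_ne_zero (mul_ne_zero (inv_ne_zero hB') hv) (sub_ne_zero.2 hne)
  refine ⟨⟨?_, ?_⟩, ?_⟩
  · -- nontrivial
    have h01 : (⟨0, by omega⟩ : Fin m) ≠ ⟨1, by omega⟩ := by
      intro h
      exact absurd (congrArg Fin.val h) (by simp)
    refine ⟨ppirr_r ℓ b ⟨0, by omega⟩ ⟨1, by omega⟩, 0, fun h => ?_⟩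
    have h1 := congrFun (congrArg Subtype.val h) (⟨0, by omega⟩ : Fin m)
    rw [ppirr_r_apply, if_pos rfl, if_neg h01] at h1
    change _ = (0 : ZMod ℓ) at h1
    apply hb' ⟨1, by omega⟩
    linear_combination h1
  · -- irreducible
    intro A hA _
    by_cases hbot : A = ⊥
    · exact Or.inl hbot
    right
    classical
    obtain ⟨c, hc, hc0⟩ := A.ne_bot_iff.1 hbot
    have hcs : ∑ k, (b k : ZMod ℓ) * (c : Fin m → ZMod ℓ) k = 0 := c.2
    let k₀ : Fin m := ⟨0, by omega⟩
    obtain ⟨i, hi, j, hj, v, hv, hz⟩ := hedge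
      (Finset.univ.filter fun k => (c : Fin m → ZMod ℓ) k = (c : Fin m → ZMod ℓ) k₀)
      ⟨k₀, Finset.mem_filter.2 ⟨Finset.mem_univ _, rfl⟩⟩ (by
        intro huniv
        have h1 : ∀ k, (c : Fin m → ZMod ℓ) k = (c : Fin m → ZMod ℓ) k₀ := by
          intro k
          have h0 := Finset.mem_univ k
          rw [← huniv, Finset.mem_filter] at h0
          exact h0.2
        rw [Finset.sum_congr rfl fun k _ => by rw [h1 k], ← Finset.sum_mul] at hcs
        have h2 : (c : Fin m → ZMod ℓ) k₀ = 0 := (mul_eq_zero.1 hcs).resolve_left hB'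
        exact hc0 (Subtype.ext (funext fun k => (h1 k).trans h2)))
    have hci : (c : Fin m → ZMod ℓ) i = (c : Fin m → ZMod ℓ) k₀ := (Finset.mem_filter.1 hi).2
    have hcj : (c : Fin m → ZMod ℓ) j ≠ (c : Fin m → ZMod ℓ) k₀ := fun h =>
      hj (Finset.mem_filter.2 ⟨Finset.mem_univ _, h⟩)
    have hij : i ≠ j := fun h => hj (h ▸ hi)
    have hrij : ppirr_r ℓ b i j ∈ A := hmem A hA i j v hij hv hz c hc fun h => hcj (h ▸ hci)
    have hall : ∀ k, k = i ∨ ppirr_r ℓ b i k ∈ A := by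
      by_contra hcon
      push Not at hcon
      obtain ⟨k₁, hk₁, hk₁'⟩ := hcon
      obtain ⟨k, hk, l, hl, v', hv', hz'⟩ := hedge
        (Finset.univ.filter fun k => k = i ∨ ppirr_r ℓ b i k ∈ A)
        ⟨i, Finset.mem_filter.2 ⟨Finset.mem_univ _, Or.inl rfl⟩⟩ (by
          intro huniv
          have h1 := Finset.mem_univ k₁
          rw [← huniv, Finset.mem_filter] at h1
          rcases h1.2 with h1 | h1
          · exact hk₁ h1
          · exact hk₁' h1)
      have hkl : k ≠ l := fun h => hl (h ▸ hk)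
      have hk' := (Finset.mem_filter.1 hk).2
      have hl' : l ≠ i ∧ ppirr_r ℓ b i l ∉ A := by
        constructor
        · exact fun h => hl (Finset.mem_filter.2 ⟨Finset.mem_univ _, Or.inl h⟩)
        · exact fun h => hl (Finset.mem_filter.2 ⟨Finset.mem_univ _, Or.inr h⟩)
      by_cases hki : k = i
      · subst hki
        have hlj : l ≠ j := fun h => hl'.2 (h ▸ hrij)
        refine hl'.2 (hmem A hA k l v' hkl hv' hz' _ hrij ?_)
        rw [ppirr_r_apply, ppirr_r_apply, if_pos rfl, if_neg hij, if_neg hl'.1, if_neg hlj]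
        intro h
        apply hb' j
        linear_combination h
      · have hik : ppirr_r ℓ b i k ∈ A := hk'.resolve_left hki
        refine hl'.2 (ppirr_mem hb' A hik (hmem A hA k l v' hkl hv' hz' _ hik ?_))
        rw [ppirr_r_apply, ppirr_r_apply, if_neg hki, if_pos rfl, if_neg hl'.1,
          if_neg hkl.symm]
        intro h
        apply hb' i
        linear_combination -h
    refine ppirr_top hb' A i fun k => ?_
    rcases hall k with h | h
    · rw [h, ppirr_r_self]
      exact A.zero_mem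
    · exact h
  · -- no forms
    rw [eq_bot_iff]
    intro g hg
    have hg' : ∀ x, g x x = 0 ∧ (∀ v, g x (sigV b a (pr v) (e v) x) = 0) ∧
      g x (lamV χ b a x) = 0 := hg
    have h1 : ∀ (i j : Fin m) (v : V), i ≠ j →
      vl ℓ (pr v) (a i - a j) ≠ 0 → (∀ k l, k ≠ l → ¬ (k = i ∧ l = j) → ¬ (k = j ∧ l = i) →
        vl ℓ (pr v) (a k - a l) = 0) → ∀ x : Vs ℓ b,
        (x : Fin m → ZMod ℓ) i ≠ (x : Fin m → ZMod ℓ) j → g x (ppirr_r ℓ b i j) = 0 := by
      intro i j v hij hv hz x hx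
      have h2 := (hg' x).2.1 v
      rw [ppirr_sig b a (pr v) (e v) hij hz x, map_add, map_smul, map_smul, (hg' x).1, smul_zero,
        zero_add, smul_eq_mul] at h2
      refine (mul_eq_zero.1 h2).resolve_left ?_
      exact mul_ne_zero (mul_ne_zero (inv_ne_zero hB') hv) (sub_ne_zero.2 hx)
    have h2 : ∀ i j : Fin m, i ≠ j → ∃ y : Vs ℓ b,
        (y : Fin m → ZMod ℓ) i ≠ (y : Fin m → ZMod ℓ) j := by
      intro i j hij
      by_cases hs : (b i : ZMod ℓ) + b j = 0
      · obtain ⟨k, hki, hkj⟩ : ∃ k, k ≠ i ∧ k ≠ j := by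
          by_contra hcon
          push Not at hcon
          apply hB'
          have h3 : (Finset.univ : Finset (Fin m)) = {i, j} := by
            ext k
            simp only [Finset.mem_univ, Finset.mem_insert, Finset.mem_singleton, true_iff]
            by_cases hk : k = i
            · exact Or.inl hk
            · exact Or.inr (hcon k hk)
          rw [h3, Finset.sum_pair hij, hs]
        refine ⟨ppirr_r ℓ b i k, ?_⟩
        rw [ppirr_r_apply, ppirr_r_apply, if_pos rfl, if_neg hki.symm, if_neg hij.symm,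
          if_neg hkj.symm]
        intro h
        apply hb' k
        linear_combination h
      · refine ⟨ppirr_r ℓ b i j, ?_⟩
        rw [ppirr_r_apply, ppirr_r_apply, if_pos rfl, if_neg hij, if_neg hij.symm, if_pos rfl]
        intro h
        apply hs
        linear_combination h
    have h3 : ∀ (i j : Fin m) (v : V), i ≠ j →
      vl ℓ (pr v) (a i - a j) ≠ 0 → (∀ k l, k ≠ l → ¬ (k = i ∧ l = j) → ¬ (k = j ∧ l = i) →
        vl ℓ (pr v) (a k - a l) = 0) → ∀ x : Vs ℓ b, g x (ppirr_r ℓ b i j) = 0 := by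
      intro i j v hij hv hz x
      by_cases hx : (x : Fin m → ZMod ℓ) i = (x : Fin m → ZMod ℓ) j
      · obtain ⟨y, hy⟩ := h2 i j hij
        have h4 := h1 i j v hij hv hz y hy
        have h5 := h1 i j v hij hv hz (x + y) (by
          change (x : Fin m → ZMod ℓ) i + (y : Fin m → ZMod ℓ) i ≠
            (x : Fin m → ZMod ℓ) j + (y : Fin m → ZMod ℓ) j
          rw [hx]
          exact fun h => hy (add_left_cancel h))
        rw [map_add, LinearMap.add_apply, h4, add_zero] at h5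
        exact h5
      · exact h1 i j v hij hv hz x hx
    classical
    let S : Submodule (ZMod ℓ) (Vs ℓ b) :=
      { carrier := {z | ∀ x, g x z = 0}
        add_mem' := fun {y z} hy hz x => by
          rw [map_add, hy x, hz x, add_zero]
        zero_mem' := fun x => map_zero _
        smul_mem' := fun t z hz x => by rw [map_smul, hz x, smul_zero] }
    let i : Fin m := ⟨0, by omega⟩
    have hall : ∀ k, k = i ∨ ppirr_r ℓ b i k ∈ S := by
      by_contra hcon
      push Not at hcon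
      obtain ⟨k₁, hk₁, hk₁'⟩ := hcon
      obtain ⟨k, hk, l, hl, v', hv', hz'⟩ := hedge
        (Finset.univ.filter fun k => k = i ∨ ppirr_r ℓ b i k ∈ S)
        ⟨i, Finset.mem_filter.2 ⟨Finset.mem_univ _, Or.inl rfl⟩⟩ (by
          intro huniv
          have h1 := Finset.mem_univ k₁
          rw [← huniv, Finset.mem_filter] at h1
          rcases h1.2 with h1 | h1
          · exact hk₁ h1
          · exact hk₁' h1)
      have hkl : k ≠ l := fun h => hl (h ▸ hk)
      have hk' := (Finset.mem_filter.1 hk).2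
      have hrkl : ppirr_r ℓ b k l ∈ S := h3 k l v' hkl hv' hz'
      apply hl
      refine Finset.mem_filter.2 ⟨Finset.mem_univ _, Or.inr ?_⟩
      rcases hk' with h | h
      · rw [← h]
        exact hrkl
      · exact ppirr_mem hb' S h hrkl
    have htop : S = ⊤ := by
      refine ppirr_top hb' S i fun k => ?_
      rcases hall k with h | h
      · rw [h, ppirr_r_self]
        exact S.zero_mem
      · exact h
    rw [Submodule.mem_bot]
    refine LinearMap.ext fun x => LinearMap.ext fun z => ?_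
    have hz : z ∈ S := htop ▸ Submodule.mem_top
    exact hz x

end MP72e2e6
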