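import Pool.Agent.Lib.MP_72e2e6_nt.PqStmt
import Pool.Agent.Lib.MP_72e2e6_nt.PpIrr

/-!
# MP_72e2e6_nt: connected families (PqCon)

The operators which commute with the operators of a connected family are the scalars, and the
forms are the multiples of the standard form.
-/

set_option autoImplicit false

namespace MP72e2e6

open Polynomial

universe u

section

variable {ℓ m : ℕ}

/-- The operators are self-adjoint for the standard form. -/
theorem pqcon_sg (b : Fin m → ℕ) (ρ : ZMod ℓ) (w : Fin m → Fin m → ZMod ℓ)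
    (hw : ∀ i k, w i k = w k i) (x y : Fin m → ZMod ℓ) :
    ∑ i, (b i : ZMod ℓ) * sg b ρ w x i * y i = ∑ i, (b i : ZMod ℓ) * x i * sg b ρ w y i := by
  have h1 : ∀ i, (b i : ZMod ℓ) * sg b ρ w x i * y i = ρ * ((b i : ZMod ℓ) * x i * y i) +
      (∑ k, (b k : ZMod ℓ))⁻¹ * (∑ k, (b i : ZMod ℓ) * b k * w i k * (x i * y i) -
        ∑ k, (b i : ZMod ℓ) * b k * w i k * (x k * y i)) := by
    intro i
    rw [sg, ← Finset.sum_sub_distrib]
    have h2 : ∀ k, (b i : ZMod ℓ) * b k * w i k * (x i * y i) -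
        (b i : ZMod ℓ) * b k * w i k * (x k * y i) =
        (b i * y i) * ((b k : ZMod ℓ) * w i k * (x i - x k)) := fun k => by ring
    rw [Finset.sum_congr rfl fun k _ => h2 k, ← Finset.mul_sum]
    ring
  have h3 : ∀ i, (b i : ZMod ℓ) * x i * sg b ρ w y i = ρ * ((b i : ZMod ℓ) * x i * y i) +
      (∑ k, (b k : ZMod ℓ))⁻¹ * (∑ k, (b i : ZMod ℓ) * b k * w i k * (x i * y i) -
        ∑ k, (b i : ZMod ℓ) * b k * w i k * (x i * y k)) := by
    intro i
    rw [sg, ← Finset.sum_sub_distrib]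
    have h2 : ∀ k, (b i : ZMod ℓ) * b k * w i k * (x i * y i) -
        (b i : ZMod ℓ) * b k * w i k * (x i * y k) =
        (b i * x i) * ((b k : ZMod ℓ) * w i k * (y i - y k)) := fun k => by ring
    rw [Finset.sum_congr rfl fun k _ => h2 k, ← Finset.mul_sum]
    ring
  have h4 : ∑ i, ∑ k, (b i : ZMod ℓ) * b k * w i k * (x k * y i) =
      ∑ i, ∑ k, (b i : ZMod ℓ) * b k * w i k * (x i * y k) := by
    rw [Finset.sum_comm]
    refine Finset.sum_congr rfl fun i _ => Finset.sum_congr rfl fun k _ => ?_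
    rw [hw k i]
    ring
  rw [Finset.sum_congr rfl fun i _ => h1 i, Finset.sum_congr rfl fun i _ => h3 i,
    Finset.sum_add_distrib, Finset.sum_add_distrib, ← Finset.mul_sum, ← Finset.mul_sum,
    ← Finset.mul_sum, Finset.sum_sub_distrib, Finset.sum_sub_distrib, h4]

/-- The standard form. -/
def pqcon_h (ℓ : ℕ) (b : Fin m → ℕ) : Vs ℓ b →ₗ[ZMod ℓ] Module.Dual (ZMod ℓ) (Vs ℓ b) :=
  LinearMap.mk₂ (ZMod ℓ)
    (fun x y => ∑ i, (b i : ZMod ℓ) * (x : Fin m → ZMod ℓ) i * (y : Fin m → ZMod ℓ) i)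
    (fun x x' y => by
      rw [← Finset.sum_add_distrib]
      refine Finset.sum_congr rfl fun i _ => ?_
      change (b i : ZMod ℓ) * ((x : Fin m → ZMod ℓ) i + (x' : Fin m → ZMod ℓ) i) * _ = _
      ring)
    (fun r x y => by
      rw [smul_eq_mul, Finset.mul_sum]
      refine Finset.sum_congr rfl fun i _ => ?_
      change (b i : ZMod ℓ) * (r * (x : Fin m → ZMod ℓ) i) * _ = _
      ring)
    (fun x y y' => by
      rw [← Finset.sum_add_distrib]
      refine Finset.sum_congr rfl fun i _ => ?_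
      change (b i : ZMod ℓ) * _ * ((y : Fin m → ZMod ℓ) i + (y' : Fin m → ZMod ℓ) i) = _
      ring)
    (fun r x y => by
      rw [smul_eq_mul, Finset.mul_sum]
      refine Finset.sum_congr rfl fun i _ => ?_
      change (b i : ZMod ℓ) * _ * (r * (y : Fin m → ZMod ℓ) i) = _
      ring)

theorem pqcon_h_apply (b : Fin m → ℕ) (x y : Vs ℓ b) : pqcon_h ℓ b x y =
    ∑ i, (b i : ZMod ℓ) * (x : Fin m → ZMod ℓ) i * (y : Fin m → ZMod ℓ) i := rfl

theorem pqcon_h_r (b : Fin m → ℕ) (i j : Fin m) (y : Vs ℓ b) :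
    pqcon_h ℓ b (ppirr_r ℓ b i j) y = (b i : ZMod ℓ) * b j *
      ((y : Fin m → ZMod ℓ) i - (y : Fin m → ZMod ℓ) j) := by
  rw [pqcon_h_apply]
  have h1 : ∀ k, (b k : ZMod ℓ) * (ppirr_r ℓ b i j : Fin m → ZMod ℓ) k *
      (y : Fin m → ZMod ℓ) k =
      (if k = i then (b k : ZMod ℓ) * b j * (y : Fin m → ZMod ℓ) k else 0) -
      (if k = j then (b k : ZMod ℓ) * b i * (y : Fin m → ZMod ℓ) k else 0) := by
    intro k
    rw [ppirr_r_apply]
    split_ifs <;> ring
  rw [Finset.sum_congr rfl fun k _ => h1 k, Finset.sum_sub_distrib, Finset.sum_ite_eq',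
    Finset.sum_ite_eq', if_pos (Finset.mem_univ _), if_pos (Finset.mem_univ _)]
  ring

/-- The coordinates are different on the space of the torsion classes. -/
theorem pqcon_ne [Fact ℓ.Prime] {b : Fin m → ℕ} (hb : ∀ i, (b i : ZMod ℓ) ≠ 0)
    (hB : (∑ k, (b k : ZMod ℓ)) ≠ 0) {i j : Fin m} (hij : i ≠ j) :
    ∃ y : Vs ℓ b, (y : Fin m → ZMod ℓ) i ≠ (y : Fin m → ZMod ℓ) j := by
  by_cases hs : (b i : ZMod ℓ) + b j = 0
  · obtain ⟨k, hki, hkj⟩ : ∃ k, k ≠ i ∧ k ≠ j := by
      by_contra hcon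
      push Not at hcon
      apply hB
      have h3 : (Finset.univ : Finset (Fin m)) = {i, j} := by
        ext k
        simp only [Finset.mem_univ, Finset.mem_insert, Finset.mem_singleton, true_iff]
        by_cases hk : k = i
        · exact Or.inl hk
        · exact Or.inr (hcon k hk)
      rw [h3, Finset.sum_pair hij, hs]
    refine ⟨ppirr_r ℓ b i k, ?_⟩
    rw [ppirr_r_apply, ppirr_r_apply, if_pos rfl, if_neg hki.symm, if_neg hij.symm,
      if_neg hkj.symm]
    intro h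
    apply hb k
    linear_combination h
  · refine ⟨ppirr_r ℓ b i j, ?_⟩
    rw [ppirr_r_apply, ppirr_r_apply, if_pos rfl, if_neg hij, if_neg hij.symm, if_pos rfl]
    intro h
    apply hs
    linear_combination h

end

theorem tPqCon.{v} (hPqBil : StmtPqBil) : StmtPqCon.{v} := by
  intro F _ ℓ _ χ m hm a b hb hB V pr hedge e S hS
  subst hS
  have hb' : ∀ i, (b i : ZMod ℓ) ≠ 0 := fun i h => hb i ((ZMod.natCast_eq_zero_iff _ _).1 h)
  have hB' : (∑ k, (b k : ZMod ℓ)) ≠ 0 := by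
    intro h
    apply hB
    rw [← ZMod.natCast_eq_zero_iff]
    push_cast
    exact h
  obtain ⟨hirr, hSk⟩ := tPpIrr F ℓ χ m hm a b hb hB V pr hedge e
  set S : Sys ℓ V := ⟨Vs ℓ b, inferInstance, inferInstance, inferInstance,
      fun v => sigV b a (pr v) (e v), lamV χ b a⟩ with hSd
  let k₀ : Fin m := ⟨0, by omega⟩
  obtain ⟨i, hi, j, hj, v, hv, hz⟩ := hedge {k₀} ⟨k₀, Finset.mem_singleton_self _⟩ (by
    intro h
    have h1 : (⟨1, by omega⟩ : Fin m) ∈ ({k₀} : Finset (Fin m)) := h ▸ Finset.mem_univ _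
    rw [Finset.mem_singleton] at h1
    exact absurd (congrArg Fin.val h1) (by simp [k₀]))
  have hij : i ≠ j := fun h => hj (h ▸ hi)
  obtain ⟨y, hy⟩ := pqcon_ne hb' hB' hij
  have hr : ppirr_r ℓ b i j ≠ 0 := by
    intro h
    have h1 := pqcon_h_r b i j y
    rw [h, map_zero, LinearMap.zero_apply] at h1
    exact mul_ne_zero (mul_ne_zero (hb' i) (hb' j)) (sub_ne_zero.2 hy) h1.symm
  -- the intertwining operators
  have hH : ∀ κ : Vs ℓ b →ₗ[ZMod ℓ] Vs ℓ b, κ ∈ HomS S S → ∃ c : ZMod ℓ, κ = c • LinearMap.id := by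
    intro κ hκ
    have h1 : κ (sigV b a (pr v) (e v) y) = sigV b a (pr v) (e v) (κ y) := hκ.1 v y
    rw [ppirr_sig b a (pr v) (e v) hij hz y, ppirr_sig b a (pr v) (e v) hij hz (κ y), map_add,
      map_smul, map_smul] at h1
    have h2 := add_left_cancel h1
    set α := (∑ k, (b k : ZMod ℓ))⁻¹ * vl ℓ (pr v) (a i - a j) *
      ((y : Fin m → ZMod ℓ) i - (y : Fin m → ZMod ℓ) j) with hα
    set β := (∑ k, (b k : ZMod ℓ))⁻¹ * vl ℓ (pr v) (a i - a j) *
      (((κ y : Vs ℓ b) : Fin m → ZMod ℓ) i - ((κ y : Vs ℓ b) : Fin m → ZMod ℓ) j) with hβ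
    have hα0 : α ≠ 0 := mul_ne_zero (mul_ne_zero (inv_ne_zero hB') hv) (sub_ne_zero.2 hy)
    have h3 : κ (ppirr_r ℓ b i j) = (α⁻¹ * β) • ppirr_r ℓ b i j := by
      rw [mul_smul, ← h2, smul_smul, inv_mul_cancel₀ hα0, one_smul]
    refine ⟨α⁻¹ * β, ?_⟩
    set c := α⁻¹ * β
    have h4 := hirr.irr (LinearMap.ker (κ - c • LinearMap.id)) (fun v' z hz' => ?_)
      (fun z hz' => ?_)
    · rcases h4 with h4 | h4
      · exfalso
        apply hr
        have : ppirr_r ℓ b i j ∈ LinearMap.ker (κ - c • LinearMap.id) := by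
          rw [LinearMap.mem_ker, LinearMap.sub_apply, h3]
          exact sub_self _
        rw [h4] at this
        exact (Submodule.mem_bot _).1 this
      · refine LinearMap.ext fun z => ?_
        have h5 : z ∈ LinearMap.ker (κ - c • LinearMap.id) := h4 ▸ Submodule.mem_top
        rw [LinearMap.mem_ker, LinearMap.sub_apply] at h5
        exact sub_eq_zero.1 h5
    · rw [LinearMap.mem_ker, LinearMap.sub_apply, LinearMap.smul_apply, LinearMap.id_apply,
        sub_eq_zero] at hz' ⊢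
      have h5 : κ (sigV b a (pr v') (e v') z) = sigV b a (pr v') (e v') (κ z) := hκ.1 v' z
      rw [h5, hz', map_smul]
    · rw [LinearMap.mem_ker, LinearMap.sub_apply, LinearMap.smul_apply, LinearMap.id_apply,
        sub_eq_zero] at hz' ⊢
      have h5 : κ (lamV χ b a z) = lamV χ b a (κ z) := hκ.2 z
      rw [h5, hz', map_smul]
  have h1 : Nat.card (HomS S S) = ℓ := by
    refine Eq.trans (Eq.symm ?_) (Nat.card_zmod ℓ)
    refine Nat.card_eq_of_bijective
      (fun c => ⟨c • LinearMap.id, fun v z => ?_, fun z => ?_⟩) ⟨?_, ?_⟩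
    · rw [LinearMap.smul_apply, LinearMap.smul_apply, map_smul]
      rfl
    · rw [LinearMap.smul_apply, LinearMap.smul_apply, map_smul]
      rfl
    · intro c c' h
      have h1 : c • ppirr_r ℓ b i j = c' • ppirr_r ℓ b i j :=
        LinearMap.congr_fun (congrArg (fun z => z.1) h) (ppirr_r ℓ b i j)
      exact smul_left_injective _ hr h1
    · rintro ⟨κ, hκ⟩
      obtain ⟨c, hc⟩ := hH κ hκ
      exact ⟨c, Subtype.ext hc.symm⟩
  have hbil : pqcon_h ℓ b ∈ BilS S S := by
    refine ⟨fun v x y => ?_, fun x y => ?_⟩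
    · exact pqcon_sg b (e v) (fun i k => vl ℓ (pr v) (a i - a k)) (vl_symm (pr v) a) _ _
    · change pqcon_h ℓ b (lamV χ b a x) y = pqcon_h ℓ b x (lamV χ b a y)
      unfold lamV
      split_ifs with h
      · exact pqcon_sg b 0 (fun i k => χ (a i - a k).leadingCoeff) h _ _
      · rw [LinearMap.zero_apply, LinearMap.zero_apply, map_zero, map_zero,
          LinearMap.zero_apply]
  have hbil0 : pqcon_h ℓ b ≠ 0 := by
    intro h
    have h1 := pqcon_h_r b i j y
    rw [h, LinearMap.zero_apply, LinearMap.zero_apply] at h1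
    exact mul_ne_zero (mul_ne_zero (hb' i) (hb' j)) (sub_ne_zero.2 hy) h1.symm
  refine ⟨h1, ?_, ?_⟩
  · rcases (hPqBil ℓ V S hirr).2 with h2 | h2
    · exfalso
      have h3 := h2.1
      rw [Nat.card_eq_one_iff_unique] at h3
      have h4 := h3.1.elim ⟨pqcon_h ℓ b, hbil⟩ 0
      exact hbil0 (congrArg (fun z => z.1) h4)
    · rw [h2.1, h1]
  · have h2 : Sk S.σ S.Λ = ⊥ := hSk
    rw [h2]
    exact Nat.card_unique

end MP72e2e6
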