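import Pool.Agent.Lib.MP_72e2e6_nt.PgStmt
import Pool.Agent.Lib.MP_72e2e6_nt.PqCon
import Pool.Agent.Lib.MP_72e2e6_nt.PrMain

/-!
# MP_72e2e6_nt: families with a connected graph of edges

All primes `ℓ`: the system of the family is irreducible, the operators which commute with the
system are the scalars and the forms are the multiples of the standard form.
-/

set_option autoImplicit false

namespace MP72e2e6

open Polynomial

universe u

section

variable {F : Type u} [Field F] {ℓ m : ℕ}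

theorem pgcon_sigV (b : Fin m → ℕ) (a : Fin m → F[X]) (P : F[X]) (e : ZMod ℓ) (x y : Vs ℓ b) :
    stf b (sigV b a P e x).1 y.1 = stf b x.1 (sigV b a P e y).1 :=
  pqcon_sg b e (fun i k => vl ℓ P (a i - a k)) (vl_symm P a) _ _

theorem pgcon_lamV (χ : F → ZMod ℓ) (b : Fin m → ℕ) (a : Fin m → F[X]) (x y : Vs ℓ b) :
    stf b (lamV χ b a x).1 y.1 = stf b x.1 (lamV χ b a y).1 := by
  unfold lamV
  split_ifs with h
  · exact pqcon_sg b 0 (fun i k => χ (a i - a k).leadingCoeff) h _ _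
  · simp [stf]

theorem pgcon_stf_comm (b : Fin m → ℕ) (x y : Fin m → ZMod ℓ) : stf b x y = stf b y x := by
  unfold stf
  exact Finset.sum_congr rfl fun i _ => by ring

/-- No alternating forms if the forms are symmetric. -/
theorem pgcon_zero [Fact ℓ.Prime] {V W : Type} [AddCommGroup W] [Module (ZMod ℓ) W]
    (σ : V → Module.End (ZMod ℓ) W) (Λ : Module.End (ZMod ℓ) W)
    (g : W →ₗ[ZMod ℓ] Module.Dual (ZMod ℓ) W) (hg : g ∈ Sk σ Λ) (h20 : (2 : ZMod ℓ) ≠ 0)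
    (hs : (∀ v x y, g (σ v x) y = g x (σ v y)) → (∀ x y, g (Λ x) y = g x (Λ y)) →
      ∀ x y, g x y = g y x) : g = 0 := by
  have hsk : ∀ x y : W, g x y = - g y x := by
    intro x y
    have h5 := (hg (x + y)).1
    have h6 := (hg x).1
    have h7 := (hg y).1
    simp only [map_add, LinearMap.add_apply, h6, h7] at h5
    linear_combination h5
  have hpol : ∀ τ : W →ₗ[ZMod ℓ] W, (∀ x, g x (τ x) = 0) →
      ∀ x y, g (τ x) y = g x (τ y) := by
    intro τ hτ x y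
    have h5 := hτ (x + y)
    simp only [map_add, LinearMap.add_apply, hτ x, hτ y] at h5
    have h6 := hsk (τ x) y
    linear_combination h6 - h5
  have hs' := hs (fun v => hpol _ fun x => (hg x).2.1 v) (hpol _ fun x => (hg x).2.2)
  refine LinearMap.ext fun x => LinearMap.ext fun y => ?_
  have h5 := hsk x y
  have h6 := hs' x y
  have h7 : (2 : ZMod ℓ) * g x y = 0 := by linear_combination h5 + h6
  exact (mul_eq_zero.1 h7).resolve_left h20

variable [Finite F] [Fact ℓ.Prime] {χ : F → ZMod ℓ} {a : Fin m → F[X]} {b : Fin m → ℕ}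
  {V : Type} [Fintype V] {pr : V → F[X]}

/-- The system of a family with a connected graph of edges. -/
theorem pgcon_main (hEdg : StmtPgEdg.{u}) (hIrr : StmtPgIrr) (hq : ℓ ∣ Nat.card F - 1)
    (hχ : IsLg ℓ χ) (hχ1 : χ (-1) = 0) (hm : 2 ≤ m) (ha : Function.Injective a)
    (hb : ∀ i, ¬ ℓ ∣ b i) (hB : ¬ ℓ ∣ ∑ i, b i) (hpr : Fam pr)
    (hcov : ∀ P : F[X], P.Monic → Irreducible P → ∀ i j, i ≠ j → P ∣ a i - a j → ∃ v, pr v = P)
    (e : V → ZMod ℓ) (hcon : ConnG ℓ a) :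
    IrrW (prS χ b a pr e).σ (prS χ b a pr e).Λ ∧
    Nat.card (HomS (prS χ b a pr e) (prS χ b a pr e)) = ℓ ∧
    Nat.card (BilS (prS χ b a pr e) (prS χ b a pr e)) = ℓ ∧
    (ℓ ≠ 2 → Nat.card (Sk (prS χ b a pr e).σ (prS χ b a pr e).Λ) = 1) ∧
    pqcon_h ℓ b ≠ 0 ∧
    ∀ g ∈ BilS (prS χ b a pr e) (prS χ b a pr e), ∃ t : ZMod ℓ, g = t • pqcon_h ℓ b := by
  set S : Sys ℓ V := prS χ b a pr e with hSd
  have hb' : ∀ i, (b i : ZMod ℓ) ≠ 0 := fun i h => hb i ((ZMod.natCast_eq_zero_iff _ _).1 h)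
  have hB' : (∑ k, (b k : ZMod ℓ)) ≠ 0 := by
    intro h
    apply hB
    rw [← ZMod.natCast_eq_zero_iff]
    push_cast
    exact h
  obtain ⟨h1, h2, h3⟩ := hIrr ℓ m hm b hb hB V (fun v => sigV b a (pr v) (e v)) (lamV χ b a)
    (fun s hs hs' => by
      obtain ⟨i, hi, j, hj, hij⟩ := hcon s hs hs'
      exact ⟨i, hi, j, hj, hEdg F ℓ hq χ hχ hχ1 m a ha b hB V pr hpr hcov e i j
        (fun h => hj (h ▸ hi)) hij⟩)
    (fun v x y => pgcon_sigV b a (pr v) (e v) x y) (fun x y => pgcon_lamV χ b a x y)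
  have hnt : Nontrivial (Vs ℓ b) := h1.nontriv
  obtain ⟨i, j, hij⟩ : ∃ i j : Fin m, i ≠ j :=
    ⟨⟨0, by omega⟩, ⟨1, by omega⟩, fun h => absurd (congrArg Fin.val h) (by simp)⟩
  obtain ⟨y, hy⟩ := pqcon_ne hb' hB' hij
  have hbil0 : pqcon_h ℓ b ≠ 0 := by
    intro h
    have h1 := pqcon_h_r b i j y
    rw [h, LinearMap.zero_apply, LinearMap.zero_apply] at h1
    exact mul_ne_zero (mul_ne_zero (hb' i) (hb' j)) (sub_ne_zero.2 hy) h1.symm
  have hst : ∀ x y : Vs ℓ b, pqcon_h ℓ b x y = stf b x.1 y.1 := fun x y => rfl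
  have hbil : pqcon_h ℓ b ∈ BilS S S :=
    ⟨fun v x y => pgcon_sigV b a (pr v) (e v) x y, fun x y => pgcon_lamV χ b a x y⟩
  have hB1 : ∀ g : Vs ℓ b →ₗ[ZMod ℓ] Module.Dual (ZMod ℓ) (Vs ℓ b), g ∈ BilS S S →
      ∃ t : ZMod ℓ, g = t • pqcon_h ℓ b := by
    intro g hg
    obtain ⟨t, ht⟩ := h3 g (fun v x y => hg.1 v x y) (fun x y => hg.2 x y)
    refine ⟨t, LinearMap.ext fun x => LinearMap.ext fun y => ?_⟩
    rw [LinearMap.smul_apply, LinearMap.smul_apply, hst, ht, smul_eq_mul]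
  refine ⟨h1, ?_, ?_, fun hℓ2 => ?_, hbil0, hB1⟩
  · refine Eq.trans (Eq.symm ?_) (Nat.card_zmod ℓ)
    refine Nat.card_eq_of_bijective
      (fun c => ⟨c • LinearMap.id, fun v z => ?_, fun z => ?_⟩) ⟨?_, ?_⟩
    · rw [LinearMap.smul_apply, LinearMap.smul_apply, map_smul]
      rfl
    · rw [LinearMap.smul_apply, LinearMap.smul_apply, map_smul]
      rfl
    · intro c c' h
      obtain ⟨z, hz⟩ := exists_ne (0 : Vs ℓ b)
      have h1 : c • z = c' • z := LinearMap.congr_fun (congrArg (fun z => z.1) h) z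
      exact smul_left_injective _ hz h1
    · rintro ⟨κ, hκ⟩
      obtain ⟨c, hc⟩ := h2 κ (fun v x => hκ.1 v x) (fun x => hκ.2 x)
      exact ⟨c, Subtype.ext (LinearMap.ext fun x => (hc x).symm)⟩
  · refine Eq.trans (Eq.symm ?_) (Nat.card_zmod ℓ)
    refine Nat.card_eq_of_bijective
      (fun c => (⟨c • pqcon_h ℓ b, (BilS S S).smul_mem c hbil⟩ : BilS S S)) ⟨?_, ?_⟩
    · intro c c' h
      have h4 : c • pqcon_h ℓ b = c' • pqcon_h ℓ b := congrArg (fun z : BilS S S => z.1) h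
      have h5 : c * pqcon_h ℓ b (ppirr_r ℓ b i j) y = c' * pqcon_h ℓ b (ppirr_r ℓ b i j) y :=
        LinearMap.congr_fun (LinearMap.congr_fun h4 (ppirr_r ℓ b i j)) y
      refine mul_right_cancel₀ ?_ h5
      rw [pqcon_h_r]
      exact mul_ne_zero (mul_ne_zero (hb' i) (hb' j)) (sub_ne_zero.2 hy)
    · rintro ⟨g, hg⟩
      obtain ⟨t, ht⟩ := hB1 g hg
      exact ⟨t, Subtype.ext ht.symm⟩
  · rw [Nat.card_eq_one_iff_unique]
    refine ⟨⟨fun g g' => ?_⟩, ⟨0⟩⟩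
    have h20 : (2 : ZMod ℓ) ≠ 0 := by
      intro h
      have h5 : ((2 : ℕ) : ZMod ℓ) = 0 := by exact_mod_cast h
      rw [ZMod.natCast_eq_zero_iff] at h5
      exact hℓ2 ((Nat.prime_dvd_prime_iff_eq Fact.out Nat.prime_two).1 h5)
    have h4 : ∀ g : Sk S.σ S.Λ, g = 0 := by
      rintro ⟨g, hg⟩
      refine Subtype.ext (pgcon_zero S.σ S.Λ g hg h20 fun h5 h6 x y => ?_)
      obtain ⟨t, ht⟩ := hB1 g ⟨h5, h6⟩
      rw [ht]
      change t • stf b x.1 y.1 = t • stf b y.1 x.1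
      rw [pgcon_stf_comm]
    rw [h4 g, h4 g']

end

end MP72e2e6
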