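import Pool.Agent.Lib.MP_72e2e6_nt.PgStmt

/-!
# MP_72e2e6_nt: edges give edge operators (PgEdg)
-/

set_option autoImplicit false

namespace MP72e2e6

open Polynomial

universe u

section linear

variable {ℓ : ℕ} [Fact ℓ.Prime] {V X : Type} [Fintype V] [Fintype X]

/-- A vector which is orthogonal to all the relations is a linear combination. -/
theorem pgedg_span (u : V → X → ZMod ℓ) (u₀ w t : X → ZMod ℓ)
    (h : ∀ φ : X → ZMod ℓ, (∀ v, ∑ x, φ x * u v x = 0) → ∑ x, φ x * u₀ x = 0 →
      ∑ x, φ x * w x = 0 → ∑ x, φ x * t x = 0) :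
    ∃ (κ : V → ZMod ℓ) (κ₀ γ : ZMod ℓ), ∀ x,
      t x = ∑ v, κ v * u v x + κ₀ * u₀ x + γ * w x := by
  classical
  by_cases ht : t ∈ Submodule.span (ZMod ℓ) (insert u₀ (insert w (Set.range u)))
  · rw [Submodule.mem_span_insert] at ht
    obtain ⟨κ₀, z, hz, ht⟩ := ht
    rw [Submodule.mem_span_insert] at hz
    obtain ⟨γ, z', hz', hz⟩ := hz
    rw [Submodule.mem_span_range_iff_exists_fun] at hz'
    obtain ⟨κ, hκ⟩ := hz'
    refine ⟨κ, κ₀, γ, fun x => ?_⟩
    rw [ht, hz, ← hκ]
    simp only [Pi.add_apply, Pi.smul_apply, smul_eq_mul, Finset.sum_apply]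
    ring
  · exfalso
    obtain ⟨f, hft, hf⟩ := Submodule.exists_le_ker_of_notMem ht
    have hfs : ∀ g : X → ZMod ℓ, f g = ∑ x, (f fun j => if x = j then 1 else 0) * g x := by
      intro g
      rw [LinearMap.pi_apply_eq_sum_univ f g]
      exact Finset.sum_congr rfl fun x _ => by rw [smul_eq_mul, mul_comm]
    have hk : ∀ g ∈ (insert u₀ (insert w (Set.range u)) : Set (X → ZMod ℓ)), f g = 0 :=
      fun g hg => hf (Submodule.subset_span hg)
    apply hft
    rw [hfs]
    refine h _ (fun v => ?_) ?_ ?_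
    · rw [← hfs]
      exact hk _ (Or.inr (Or.inr ⟨v, rfl⟩))
    · rw [← hfs]
      exact hk _ (Or.inl rfl)
    · rw [← hfs]
      exact hk _ (Or.inr (Or.inl rfl))

/-- Additive functions on products of powers. -/
theorem pgedg_prod {R : Type*} [CommRing R] [IsDomain R] (f : R → ZMod ℓ)
    (hmul : ∀ g h, g ≠ 0 → h ≠ 0 → f (g * h) = f g + f h) {ι : Type*} (s : Finset ι)
    (g : ι → R) (n : ι → ℕ) (hg : ∀ i ∈ s, n i ≠ 0 → g i ≠ 0) :
    f (∏ i ∈ s, g i ^ n i) = ∑ i ∈ s, (n i : ZMod ℓ) * f (g i) := by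
  classical
  have h1 : f 1 = 0 := by
    have h := hmul 1 1 one_ne_zero one_ne_zero
    rw [mul_one] at h
    exact left_eq_add.1 h
  have hpow : ∀ (x : R) (k : ℕ), x ≠ 0 → f (x ^ k) = (k : ZMod ℓ) * f x := by
    intro x k hx
    induction k with
    | zero => rw [pow_zero, h1, Nat.cast_zero, zero_mul]
    | succ k ih =>
      rw [pow_succ, hmul _ _ (pow_ne_zero _ hx) hx, ih, Nat.cast_succ]
      ring
  have hne : ∀ i ∈ s, g i ^ n i ≠ 0 := by
    intro i hi
    by_cases h : n i = 0
    · rw [h, pow_zero]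
      exact one_ne_zero
    · exact pow_ne_zero _ (hg i hi h)
  induction s using Finset.induction_on with
  | empty => rw [Finset.prod_empty, Finset.sum_empty, h1]
  | insert i s hi ih =>
    rw [Finset.prod_insert hi, Finset.sum_insert hi, hmul _ _ (hne i (Finset.mem_insert_self i s))
      (Finset.prod_ne_zero_iff.2 fun j hj => hne j (Finset.mem_insert_of_mem hj)),
      ih (fun j hj => hg j (Finset.mem_insert_of_mem hj))
        (fun j hj => hne j (Finset.mem_insert_of_mem hj))]
    congr 1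
    by_cases h : n i = 0
    · rw [h, pow_zero, h1, Nat.cast_zero, zero_mul]
    · exact hpow _ _ (hg i (Finset.mem_insert_self i s) h)

end linear

theorem tPgEdg.{v} (hSuSy : StmtSuSy.{v}) (hSuFac : StmtSuFac.{v}) : StmtPgEdg.{v} := by
  intro F _ _ ℓ _ hq χ hχ hχn m a ha b hB V _ pr hpr hcov e i j hij hE
  classical
  have hℓ : ℓ.Prime := Fact.out
  obtain ⟨-, -, hSyP⟩ := hSuSy F ℓ hℓ hq χ hχ
  have hB' : (∑ k, (b k : ZMod ℓ)) ≠ 0 := by
    intro h
    apply hB
    rw [← ZMod.natCast_eq_zero_iff]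
    push_cast
    exact h
  have hne : ∀ i k, i ≠ k → a i - a k ≠ 0 := fun i k hik => sub_ne_zero.2 fun h => hik (ha h)
  have hlc : ∀ i k, χ (a i - a k).leadingCoeff = χ (a k - a i).leadingCoeff := by
    intro i k
    by_cases hik : i = k
    · rw [hik]
    · have h1 : (a k - a i).leadingCoeff ≠ 0 := leadingCoeff_ne_zero.2 (hne k i (Ne.symm hik))
      rw [← neg_sub (a k) (a i), leadingCoeff_neg, ← neg_one_mul,
        hχ.mul _ _ (neg_ne_zero.2 one_ne_zero) h1, hχn, zero_add]
  have hΛ : lamV χ b a = sgV b 0 (fun i k => χ (a i - a k).leadingCoeff) hlc := dif_pos hlc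
  -- the vectors
  let u : V → Fin m × Fin m → ZMod ℓ := fun v x =>
    if x.1 = x.2 then 0 else vl ℓ (pr v) (a x.1 - a x.2)
  let u₀ : Fin m × Fin m → ZMod ℓ := fun x =>
    if x.1 = x.2 then 0 else χ (a x.1 - a x.2).leadingCoeff
  let w : Fin m × Fin m → ZMod ℓ := fun x => if x.1 = x.2 then 0 else 1
  let t : Fin m × Fin m → ZMod ℓ := fun x =>
    (if x = (i, j) then 1 else 0) + (if x = (j, i) then 1 else 0)
  obtain ⟨κ, κ₀, γ, hκ⟩ := pgedg_span u u₀ w t (by
    intro φ h1 h2 h3
    let n : Fin m → Fin m → ℕ := fun k l => if k = l then 0 else (φ (k, l)).val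
    have hn : ∀ k l, k ≠ l → (n k l : ZMod ℓ) = φ (k, l) := by
      intro k l hkl
      simp only [n]
      rw [if_neg hkl, ZMod.natCast_val, ZMod.cast_id', id]
    have hn0 : ∀ k, n k k = 0 := fun k => if_pos rfl
    have hgen : ∀ (f : F[X] → ZMod ℓ), (∀ g h, g ≠ 0 → h ≠ 0 → f (g * h) = f g + f h) →
        f (∏ k, ∏ l, (a k - a l) ^ n k l) =
          ∑ x : Fin m × Fin m, φ x * (if x.1 = x.2 then 0 else f (a x.1 - a x.2)) := by
      intro f hf
      rw [← Fintype.prod_prod_type' (f := fun k l => (a k - a l) ^ n k l)]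
      rw [pgedg_prod f hf Finset.univ (fun x : Fin m × Fin m => a x.1 - a x.2)
        (fun x => n x.1 x.2) (by
          rintro ⟨k, l⟩ _ hkl
          refine hne k l fun h => hkl ?_
          change n k l = 0
          rw [h, hn0])]
      refine Finset.sum_congr rfl ?_
      rintro ⟨k, l⟩ _
      by_cases hkl : k = l
      · subst hkl
        rw [if_pos rfl, mul_zero]
        change ((n k k : ℕ) : ZMod ℓ) * _ = 0
        rw [hn0, Nat.cast_zero, zero_mul]
      · rw [if_neg hkl, hn k l hkl]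
    have hh0 : (∏ k, ∏ l, (a k - a l) ^ n k l : F[X]) ≠ 0 := by
      refine Finset.prod_ne_zero_iff.2 fun k _ => Finset.prod_ne_zero_iff.2 fun l _ => ?_
      by_cases hkl : k = l
      · subst hkl
        rw [hn0, pow_zero]
        exact one_ne_zero
      · exact pow_ne_zero _ (hne k l hkl)
    have hvl : ∀ P : F[X], P.Monic → Irreducible P →
        vl ℓ P (∏ k, ∏ l, (a k - a l) ^ n k l) = 0 := by
      intro P hP hPi
      rw [hgen (vl ℓ P) fun g h hg hh => ((hSyP P hP hPi).1 g h hg hh).1]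
      by_cases hPr : ∃ v, pr v = P
      · obtain ⟨v, rfl⟩ := hPr
        exact h1 v
      · refine Finset.sum_eq_zero ?_
        rintro ⟨k, l⟩ _
        by_cases hkl : k = l
        · rw [if_pos hkl, mul_zero]
        · rw [if_neg hkl]
          have h4 : ¬ P ∣ a k - a l := fun h4 => hPr (hcov P hP hPi k l hkl h4)
          rw [((hSyP P hP hPi).2.1 _ h4).1, mul_zero]
    have hlch : χ (∏ k, ∏ l, (a k - a l) ^ n k l : F[X]).leadingCoeff = 0 := by
      rw [hgen (fun h => χ h.leadingCoeff) fun g h hg hh => by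
        change χ (g * h).leadingCoeff = _
        rw [leadingCoeff_mul, hχ.mul _ _ (leadingCoeff_ne_zero.2 hg) (leadingCoeff_ne_zero.2 hh)]]
      exact h2
    obtain ⟨-, -, hfac⟩ := hSuFac F ℓ hℓ hq χ hχ V pr hpr _ hh0 fun P hP hPi _ => hvl P hP hPi
    have hsum : ℓ ∣ ∑ k, ∑ l, n k l := by
      rw [← ZMod.natCast_eq_zero_iff]
      push_cast
      rw [← Fintype.sum_prod_type' (f := fun k l => ((n k l : ℕ) : ZMod ℓ)), ← h3]
      refine Finset.sum_congr rfl ?_
      rintro ⟨k, l⟩ _
      simp only [w]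
      by_cases hkl : k = l
      · subst hkl
        rw [if_pos rfl, mul_zero, hn0, Nat.cast_zero]
      · rw [if_neg hkl, hn k l hkl, mul_one]
    have h4 := hE n hn0 hsum (hfac hlch fun v => hvl _ (hpr.monic v) (hpr.irr v))
    rw [← ZMod.natCast_eq_zero_iff] at h4
    push_cast at h4
    rw [hn i j hij, hn j i hij.symm] at h4
    have h5 : ∀ x, φ x * t x = (if x = (i, j) then φ x else 0) + (if x = (j, i) then φ x else 0) := by
      intro x
      simp only [t]
      rw [mul_add]
      congr 1 <;> split_ifs <;> simp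
    rw [Finset.sum_congr rfl fun x _ => h5 x, Finset.sum_add_distrib, Finset.sum_ite_eq',
      Finset.sum_ite_eq', if_pos (Finset.mem_univ _), if_pos (Finset.mem_univ _)]
    exact h4)
  -- the operator
  refine ⟨κ, κ₀, ∑ v, κ v * e v - γ, (∑ k, (b k : ZMod ℓ))⁻¹, inv_ne_zero hB', fun x k => ?_⟩
  have h1 : (∑ v, κ v • sigV b a (pr v) (e v) x + κ₀ • lamV χ b a x : Vs ℓ b).1 k =
      ∑ v, κ v * sg b (e v) (fun i k => vl ℓ (pr v) (a i - a k)) x k +
        κ₀ * sg b 0 (fun i k => χ (a i - a k).leadingCoeff) x k := by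
    rw [hΛ]
    simp only [Submodule.coe_add, Submodule.coe_sum, Submodule.coe_smul, Pi.add_apply,
      Finset.sum_apply, Pi.smul_apply, smul_eq_mul]
    rfl
  refine h1.trans ?_
  set c : Fin m → ZMod ℓ := x.1 with hc
  have hcs : ∑ l, (b l : ZMod ℓ) * c l = 0 := x.2
  set B := ∑ k, (b k : ZMod ℓ) with hBd
  have h2 : ∑ v, κ v * sg b (e v) (fun i k => vl ℓ (pr v) (a i - a k)) c k +
        κ₀ * sg b 0 (fun i k => χ (a i - a k).leadingCoeff) c k =
      (∑ v, κ v * e v) * c k + B⁻¹ * ∑ l, (b l : ZMod ℓ) * (∑ v, κ v * vl ℓ (pr v) (a k - a l) +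
        κ₀ * χ (a k - a l).leadingCoeff) * (c k - c l) := by
    simp only [sg, zero_mul, zero_add]
    have e1 : ∀ v, κ v * (e v * c k + B⁻¹ * ∑ l, (b l : ZMod ℓ) * vl ℓ (pr v) (a k - a l) *
        (c k - c l)) = κ v * e v * c k + B⁻¹ * ∑ l, κ v * ((b l : ZMod ℓ) *
          vl ℓ (pr v) (a k - a l) * (c k - c l)) := by
      intro v
      rw [← Finset.mul_sum]
      ring
    have e2 : ∀ l, (b l : ZMod ℓ) * (∑ v, κ v * vl ℓ (pr v) (a k - a l) +
        κ₀ * χ (a k - a l).leadingCoeff) * (c k - c l) =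
        ∑ v, κ v * ((b l : ZMod ℓ) * vl ℓ (pr v) (a k - a l) * (c k - c l)) +
          κ₀ * ((b l : ZMod ℓ) * χ (a k - a l).leadingCoeff * (c k - c l)) := by
      intro l
      rw [mul_add, add_mul, Finset.mul_sum, Finset.sum_mul]
      congr 1
      · exact Finset.sum_congr rfl fun v _ => by ring
      · ring
    rw [Finset.sum_congr rfl fun v _ => e1 v, Finset.sum_add_distrib, ← Finset.sum_mul,
      ← Finset.mul_sum, Finset.sum_congr rfl fun l _ => e2 l, Finset.sum_add_distrib,
      Finset.sum_comm, ← Finset.mul_sum]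
    ring
  have h3 : ∀ l, (b l : ZMod ℓ) * (∑ v, κ v * vl ℓ (pr v) (a k - a l) +
        κ₀ * χ (a k - a l).leadingCoeff) * (c k - c l) =
      (b l : ZMod ℓ) * t (k, l) * (c k - c l) - γ * ((b l : ZMod ℓ) * c k - b l * c l) := by
    intro l
    by_cases hkl : k = l
    · subst hkl
      ring
    · rw [hκ (k, l)]
      simp only [u, u₀, w]
      simp only [if_neg hkl]
      ring
  have h4 : ∑ l, (b l : ZMod ℓ) * t (k, l) * (c k - c l) =
      (c i - c j) * (if k = i then (b j : ZMod ℓ) else if k = j then -(b i : ZMod ℓ) else 0) := by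
    by_cases hki : k = i
    · subst hki
      rw [if_pos rfl, Finset.sum_eq_single j]
      · simp only [t]
        rw [if_pos trivial, if_neg (by
          intro h
          exact hij (Prod.mk.inj h).1)]
        ring
      · intro l _ hl
        simp only [t]
        rw [if_neg (fun h => hl (Prod.mk.inj h).2), if_neg (fun h => hij (Prod.mk.inj h).1)]
        ring
      · exact fun h => absurd (Finset.mem_univ _) h
    · by_cases hkj : k = j
      · subst hkj
        rw [if_neg hki, if_pos rfl, Finset.sum_eq_single i]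
        · simp only [t]
          rw [if_pos trivial, if_neg (fun h => hki (Prod.mk.inj h).1)]
          ring
        · intro l _ hl
          simp only [t]
          rw [if_neg (fun h => hki (Prod.mk.inj h).1), if_neg (fun h => hl (Prod.mk.inj h).2)]
          ring
        · exact fun h => absurd (Finset.mem_univ _) h
      · rw [if_neg hki, if_neg hkj, mul_zero]
        refine Finset.sum_eq_zero fun l _ => ?_
        simp only [t]
        rw [if_neg (fun h => hki (Prod.mk.inj h).1), if_neg (fun h => hkj (Prod.mk.inj h).1)]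
        ring
  rw [h2, Finset.sum_congr rfl fun l _ => h3 l, Finset.sum_sub_distrib, ← Finset.mul_sum,
    Finset.sum_sub_distrib, hcs, ← Finset.sum_mul, h4, ← hBd]
  have h5 : B⁻¹ * (γ * (B * c k - 0)) = γ * c k := by
    field_simp
    ring
  linear_combination -h5

end MP72e2e6
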