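import Pool.Agent.Lib.MP_72e2e6_nt.SuStmt

/-!
# MP_72e2e6_nt: the equations of a Selmer element (towers of twists, `ℓ` odd)
-/

namespace MP72e2e6

open Polynomial IsDedekindDomain

universe u

section

variable {F : Type u} [Field F] {ℓ m : ℕ}

/-- additive on nonzero polynomials -/
def sueq_Add (f : F[X] → ZMod ℓ) : Prop := ∀ g h : F[X], g ≠ 0 → h ≠ 0 → f (g * h) = f g + f h

theorem sueq_one {f : F[X] → ZMod ℓ} (hf : sueq_Add f) : f 1 = 0 := by
  have h := hf 1 1 one_ne_zero one_ne_zero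
  rw [mul_one] at h
  exact left_eq_add.1 h

theorem sueq_pow {f : F[X] → ZMod ℓ} (hf : sueq_Add f) {h : F[X]} (hh : h ≠ 0) (n : ℕ) :
    f (h ^ n) = n * f h := by
  induction n with
  | zero => rw [pow_zero, sueq_one hf, Nat.cast_zero, zero_mul]
  | succ n ih =>
    rw [pow_succ, hf _ _ (pow_ne_zero _ hh) hh, ih]
    push_cast
    ring

theorem sueq_prod {f : F[X] → ZMod ℓ} (hf : sueq_Add f) {ι : Type} (s : Finset ι) (g : ι → F[X])
    (hg : ∀ i ∈ s, g i ≠ 0) : f (∏ i ∈ s, g i) = ∑ i ∈ s, f (g i) := by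
  classical
  induction s using Finset.induction_on with
  | empty => rw [Finset.prod_empty, Finset.sum_empty, sueq_one hf]
  | insert a s ha ih =>
    rw [Finset.prod_insert ha, Finset.sum_insert ha, hf _ _ (hg a (Finset.mem_insert_self _ _))
      (Finset.prod_ne_zero_iff.2 fun i hi => hg i (Finset.mem_insert_of_mem hi)),
      ih fun i hi => hg i (Finset.mem_insert_of_mem hi)]

theorem sueq_twl_ne {ι : Type} [Fintype ι] {pr : ι → F[X]} (hpr : Fam pr) (ρ : ι → ZMod ℓ) :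
    twl pr ρ ≠ 0 :=
  Finset.prod_ne_zero_iff.2 fun b _ => pow_ne_zero _ (hpr.monic b).ne_zero

theorem sueq_twl [NeZero ℓ] {f : F[X] → ZMod ℓ} (hf : sueq_Add f) {ι : Type} [Fintype ι]
    {pr : ι → F[X]} (hpr : Fam pr) (ρ : ι → ZMod ℓ) :
    f (twl pr ρ) = ∑ b, ρ b * f (pr b) := by
  rw [twl, sueq_prod hf _ _ fun b _ => pow_ne_zero _ (hpr.monic b).ne_zero]
  refine Finset.sum_congr rfl fun b _ => ?_
  rw [sueq_pow hf (hpr.monic b).ne_zero, ZMod.natCast_zmod_val]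

theorem sueq_ndvd {ι : Type} {pr : ι → F[X]} (hpr : Fam pr) {b b' : ι} (h : b' ≠ b) :
    ¬ pr b ∣ pr b' := by
  intro hd
  have h1 : Associated (pr b) (pr b') := (hpr.irr b).associated_of_dvd (hpr.irr b') hd
  exact h (hpr.inj (eq_of_monic_of_associated (hpr.monic b) (hpr.monic b') h1)).symm

theorem sueq_sg_congr (b : Fin m → ℕ) (ρ : ZMod ℓ) (w w' : Fin m → Fin m → ZMod ℓ)
    (c : Fin m → ZMod ℓ) (i : Fin m) (h : ∀ k, i ≠ k → w i k = w' i k) :
    sg b ρ w c i = sg b ρ w' c i := by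
  unfold sg
  congr 2
  refine Finset.sum_congr rfl fun k _ => ?_
  by_cases hk : i = k
  · subst hk
    rw [sub_self, mul_zero, mul_zero]
  · rw [h k hk]

theorem sueq_sg_expand {ι : Type} [Fintype ι] (b : Fin m → ℕ) (ρ s : ι → ZMod ℓ) (d : ZMod ℓ)
    (u : Fin m → Fin m → ZMod ℓ) (v : ι → Fin m → Fin m → ZMod ℓ) (c : Fin m → ZMod ℓ)
    (i : Fin m) :
    sg b (∑ β, ρ β * s β) (fun i k => d * u i k + ∑ β, v β i k * s β) c i =
      d * sg b 0 u c i + ∑ β, s β * sg b (ρ β) (v β) c i := by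
  unfold sg
  have e1 : ∑ k, (b k : ZMod ℓ) * (d * u i k + ∑ β, v β i k * s β) * (c i - c k) =
      d * (∑ k, (b k : ZMod ℓ) * u i k * (c i - c k)) +
        ∑ β, s β * ∑ k, (b k : ZMod ℓ) * v β i k * (c i - c k) := by
    simp only [Finset.mul_sum]
    rw [Finset.sum_comm, ← Finset.sum_add_distrib]
    refine Finset.sum_congr rfl fun k _ => ?_
    have e2 : ∑ β, s β * ((b k : ZMod ℓ) * v β i k * (c i - c k)) =
        (b k : ZMod ℓ) * (∑ β, v β i k * s β) * (c i - c k) := by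
      rw [Finset.mul_sum, Finset.sum_mul]
      exact Finset.sum_congr rfl fun β _ => by ring
    rw [e2]
    ring
  rw [e1]
  have e3 : ∑ β, s β * (ρ β * c i + (∑ k, (b k : ZMod ℓ))⁻¹ *
      ∑ k, (b k : ZMod ℓ) * v β i k * (c i - c k)) =
      (∑ β, ρ β * s β) * c i + (∑ k, (b k : ZMod ℓ))⁻¹ *
        ∑ β, s β * ∑ k, (b k : ZMod ℓ) * v β i k * (c i - c k) := by
    rw [Finset.sum_mul, Finset.mul_sum, ← Finset.sum_add_distrib]
    exact Finset.sum_congr rfl fun β _ => by ring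
  rw [e3]
  ring

end

open Classical in
theorem tSuEq.{w} (hSuSy : StmtSuSy.{w}) (hSuFac : StmtSuFac.{w}) (hSuTal : StmtSuTal.{w})
    (hSuSel : StmtSuSel.{w}) : StmtSuEq.{w} := by
  intro F _ _ ℓ hℓ hℓ2 hℓd χ hχ m hm a hinj b ι _ pr hpr hP ρ hT hTI d hd
  obtain ⟨δ, hδ0, hδ2, hδ3, hδ4, hδ5⟩ :=
    hSuSel F ℓ hℓ hℓ2 hℓd χ hχ m hm a hinj b ι pr hpr hP ρ hT hTI d hd
  have : NeZero ℓ := ⟨hℓ.ne_zero⟩
  have hE := sueq_twl_ne (ℓ := ℓ) hpr ρ
  have hB : ¬ ℓ ∣ ∑ k, b k :=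
    hTI.ball Finset.univ ⟨0, hm⟩ (Finset.mem_univ _)
      fun i _ k hk => absurd (Finset.mem_univ k) hk
  obtain ⟨-, -, hSy⟩ := hSuSy F ℓ hℓ hℓd χ hχ
  have hvl : ∀ β, sueq_Add (vl ℓ (pr β)) := fun β g h hg hh =>
    ((hSy (pr β) (hpr.monic β) (hpr.irr β)).1 g h hg hh).1
  have hsy : ∀ β, sueq_Add (syl χ (pr β)) := fun β g h hg hh =>
    ((hSy (pr β) (hpr.monic β) (hpr.irr β)).1 g h hg hh).2
  have hnd : ∀ P : F[X], P.Monic → Irreducible P → ∀ h : F[X], ¬ P ∣ h → vl ℓ P h = 0 :=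
    fun P h1 h2 h hh => ((hSy P h1 h2).2.1 h hh).1
  have hvP : ∀ β, vl ℓ (pr β) (pr β) = 1 := fun β =>
    (hSy (pr β) (hpr.monic β) (hpr.irr β)).2.2.1
  have hfac := fun i => hSuFac F ℓ hℓ hℓd χ hχ ι pr hpr (δ i) (hδ0 i)
    fun P h1 h2 h3 => hδ2 P h1 h2 h3 i
  have hsyδ : ∀ β i, syl χ (pr β) (δ i) = ∑ β', vl ℓ (pr β') (δ i) * syl χ (pr β) (pr β') := by
    intro β i
    rw [(hfac i).1 β, (hδ3 i).2, mul_zero, zero_add]
  have hdiff : ∀ i k, i ≠ k → ∀ β, syl χ (pr β) (a i - a k) =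
      (pr β).natDegree * χ (a i - a k).leadingCoeff +
        ∑ β', vl ℓ (pr β') (a i - a k) * syl χ (pr β) (pr β') := by
    intro i k hik β
    exact (hSuFac F ℓ hℓ hℓd χ hχ ι pr hpr (a i - a k)
      (sub_ne_zero.2 fun h' => hik (hinj h')) (fun P h1 h2 h3 => hnd P h1 h2 _ fun h4 => by
        obtain ⟨β', hβ'⟩ := hP P h1 h2 i k hik h4
        exact h3 β' hβ')).1 β
  have hvE : ∀ β, vl ℓ (pr β) (twl pr ρ) = ρ β := by
    intro β
    rw [sueq_twl (hvl β) hpr ρ, Finset.sum_eq_single β]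
    · rw [hvP, mul_one]
    · intro β' _ hβ'
      rw [hnd _ (hpr.monic β) (hpr.irr β) _ (sueq_ndvd hpr hβ'), mul_zero]
    · intro h
      exact absurd (Finset.mem_univ _) h
  choose c hc1 hc2 using hδ4
  have htal := fun β i => hSuTal F ℓ hℓ hℓd χ hχ m (twl pr ρ) hE a hinj b hB (pr β)
    (hpr.monic β) (hpr.irr β) (c β) (hc1 β) i
  refine ⟨fun β i => vl ℓ (pr β) (δ i), c, ⟨hc1, ?_, ?_, ?_⟩, ?_⟩
  · intro β i
    show vl ℓ (pr β) (δ i) = _
    rw [(hc2 β i).1, (htal β i).2.1, hvE]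
  · intro i
    have h1 := (hfac i).2.1
    rw [(hδ3 i).1] at h1
    exact h1.symm
  · intro β i
    show ∑ β', syl χ (pr β) (pr β') * (vl ℓ (pr β') (δ i) -
      sg b (ρ β') (fun i k => vl ℓ (pr β') (a i - a k)) (c β) i) = _
    have h1 := (hc2 β i).2
    rw [(htal β i).2.2, sueq_twl (hsy β) hpr ρ,
      sueq_sg_congr b _ _ (fun i k => ((pr β).natDegree : ZMod ℓ) * χ (a i - a k).leadingCoeff +
        ∑ β', vl ℓ (pr β') (a i - a k) * syl χ (pr β) (pr β')) (c β) i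
        (fun k hk => hdiff i k hk β),
      sueq_sg_expand b ρ (fun β' => syl χ (pr β) (pr β')) ((pr β).natDegree : ZMod ℓ)
        (fun i k => χ (a i - a k).leadingCoeff) (fun β' i k => vl ℓ (pr β') (a i - a k)) (c β) i,
      hsyδ] at h1
    have h2 : ∑ β', syl χ (pr β) (pr β') * (vl ℓ (pr β') (δ i) -
        sg b (ρ β') (fun i k => vl ℓ (pr β') (a i - a k)) (c β) i) =
        ∑ β', vl ℓ (pr β') (δ i) * syl χ (pr β) (pr β') -
        ∑ β', syl χ (pr β) (pr β') *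
          sg b (ρ β') (fun i k => vl ℓ (pr β') (a i - a k)) (c β) i := by
      rw [← Finset.sum_sub_distrib]
      exact Finset.sum_congr rfl fun β' _ => by ring
    rw [h2, h1]
    ring
  · intro hx
    exact hδ5 fun i => (hfac i).2.2 (hδ3 i).2 fun β => hx β i

end MP72e2e6
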