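import Pool.Agent.Lib.MP_72e2e6_nt.PgStmt

/-!
# Tame twists exist

A proof of `StmtPgEx`: for `m ≤ ℓ` or `m ≤ 3` and an ultrametric `w` on `m` points there is an
integer `e` for which the branch points are tame.
-/

namespace MP72e2e6

/-- The levels `lev b w j i` are among those of the pairs `(j', i')` where `i' < j'` has maximal
`w j' i'`. -/
theorem pgex_key {m : ℕ} (b : Fin m → ℕ) (w : Fin m → Fin m → ℤ) (hw : Ultra w)
    (g : Fin m → Fin m)
    (hg : ∀ j, (∃ k, k < j) → g j < j ∧ ∀ k, k < j → w j k ≤ w j (g j))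
    (j i : Fin m) (hji : j ≠ i) :
    ∃ j', (∃ k, k < j') ∧ lev b w j i = lev b w j' (g j') := by
  classical
  set r := w j i with hr
  set S : Finset (Fin m) := Finset.univ.filter fun k => k = j ∨ r ≤ w j k with hS
  have hjS : j ∈ S := by simp [hS]
  have hiS : i ∈ S := by simp [hS, hr]
  have hmemS : ∀ k, k ∈ S ↔ (k = j ∨ r ≤ w j k) := by simp [hS]
  have hSS : ∀ k ∈ S, ∀ k' ∈ S, k ≠ k' → r ≤ w k k' := by
    intro k hk k' hk' hne
    rw [hmemS] at hk hk'
    by_cases h1 : k = j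
    · subst h1
      exact hk'.resolve_left fun h => hne h.symm
    · have h2 := hk.resolve_left h1
      by_cases h3 : k' = j
      · subst h3
        rw [hw.symm]
        exact h2
      · have h4 := hk'.resolve_left h3
        have h5 := hw.tri k j k' h1 (Ne.symm h3) hne
        rw [hw.symm k j] at h5
        exact le_trans (le_min h2 h4) h5
  obtain ⟨k₀, hk₀S, hk₀⟩ := S.exists_min_image id ⟨j, hjS⟩
  simp only [id] at hk₀
  set R : Finset (Fin m) := S.filter fun k => k ≠ k₀ ∧ w k k₀ = r with hR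
  have hmemR : ∀ k, k ∈ R ↔ k ∈ S ∧ k ≠ k₀ ∧ w k k₀ = r := by simp [hR]
  have hRne : R.Nonempty := by
    by_cases h1 : i = k₀
    · refine ⟨j, (hmemR j).2 ⟨hjS, ?_, ?_⟩⟩
      · rw [← h1]
        exact hji
      · rw [← h1]
    · by_cases h2 : j = k₀
      · refine ⟨i, (hmemR i).2 ⟨hiS, h1, ?_⟩⟩
        rw [← h2, hw.symm]
      · by_cases h3 : w i k₀ = r
        · exact ⟨i, (hmemR i).2 ⟨hiS, h1, h3⟩⟩
        · by_cases h4 : w j k₀ = r
          · exact ⟨j, (hmemR j).2 ⟨hjS, h2, h4⟩⟩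
          · exfalso
            have h5 : r < w i k₀ := lt_of_le_of_ne (hSS i hiS k₀ hk₀S h1) (Ne.symm h3)
            have h6 : r < w j k₀ := lt_of_le_of_ne (hSS j hjS k₀ hk₀S h2) (Ne.symm h4)
            have h7 := hw.tri j k₀ i h2 (Ne.symm h1) hji
            rw [hw.symm k₀ i] at h7
            exact absurd (lt_of_lt_of_le (lt_min h6 h5) h7) (lt_irrefl _)
  obtain ⟨j', hj'R, hj'⟩ := R.exists_min_image id hRne
  simp only [id] at hj'
  obtain ⟨hj'S, hj'k, hj'w⟩ := (hmemR j').1 hj'R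
  have hlt : k₀ < j' := lt_of_le_of_ne (hk₀ j' hj'S) (Ne.symm hj'k)
  have hbound : ∀ k, k < j' → w j' k ≤ r := by
    intro k hk
    by_contra hcon
    rw [not_le] at hcon
    by_cases hkS : k ∈ S
    · by_cases hk0 : k = k₀
      · rw [hk0, hj'w] at hcon
        exact lt_irrefl _ hcon
      · have h1 : r ≤ w k k₀ := hSS k hkS k₀ hk₀S hk0
        have h2 : w k k₀ ≠ r := by
          intro h
          exact absurd (hj' k ((hmemR k).2 ⟨hkS, hk0, h⟩)) (not_le.2 hk)
        have h3 : r < w k k₀ := lt_of_le_of_ne h1 (Ne.symm h2)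
        have h4 := hw.tri j' k k₀ (ne_of_gt hk) hk0 hj'k
        rw [hj'w] at h4
        exact absurd (lt_of_lt_of_le (lt_min hcon h3) h4) (lt_irrefl _)
    · have h1 : k ≠ j ∧ w j k < r := by
        rw [hmemS, not_or, not_le] at hkS
        exact hkS
      by_cases h2 : j' = j
      · rw [h2] at hcon
        exact absurd (hcon.trans h1.2) (lt_irrefl _)
      · have h3 : r ≤ w j j' := hSS j hjS j' hj'S (Ne.symm h2)
        have h4 := hw.tri j j' k (Ne.symm h2) (ne_of_gt hk) (Ne.symm h1.1)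
        exact absurd (lt_of_le_of_lt (le_trans (le_min h3 hcon.le) h4) h1.2) (lt_irrefl _)
  have hex : ∃ k, k < j' := ⟨k₀, hlt⟩
  have hgr : w j' (g j') = r :=
    le_antisymm (hbound _ (hg j' hex).1) (hj'w ▸ (hg j' hex).2 k₀ hlt)
  refine ⟨j', hex, ?_⟩
  unfold lev
  rw [hgr, ← hr]
  refine Finset.sum_congr rfl fun k _ => ?_
  refine congrArg _ ?_
  by_cases hkS : k ∈ S
  · have h1 : (if k = j then r else min (w j k) r) = r := by
      split_ifs with h
      · rfl
      · exact min_eq_right (((hmemS k).1 hkS).resolve_left h)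
    have h2 : (if k = j' then r else min (w j' k) r) = r := by
      split_ifs with h
      · rfl
      · exact min_eq_right (hSS j' hj'S k hkS (Ne.symm h))
    rw [h1, h2]
  · have h1 : k ≠ j ∧ w j k < r := by
      rw [hmemS, not_or, not_le] at hkS
      exact hkS
    have h2 : k ≠ j' := fun h => hkS (h ▸ hj'S)
    rw [if_neg h1.1, if_neg h2]
    by_cases h3 : j' = j
    · rw [h3]
    · have h4 : r ≤ w j j' := hSS j hjS j' hj'S (Ne.symm h3)
      have h5 := hw.tri j j' k (Ne.symm h3) (Ne.symm h2) (Ne.symm h1.1)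
      have h6 := hw.tri j' j k h3 (Ne.symm h1.1) (Ne.symm h2)
      rw [hw.symm j' j] at h6
      have h7 : w j' k < r := by
        by_contra hcon
        rw [not_lt] at hcon
        exact absurd (lt_of_le_of_lt (le_trans (le_min h4 hcon) h5) h1.2) (lt_irrefl _)
      have h8 : w j' k ≤ w j k := by
        rcases min_le_iff.1 h5 with h | h
        · exact absurd (lt_of_le_of_lt (h4.trans h) h1.2) (lt_irrefl _)
        · exact h
      have h9 : w j k ≤ w j' k := by
        rcases min_le_iff.1 h6 with h | h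
        · exact absurd (lt_of_le_of_lt (h4.trans h) h7) (lt_irrefl _)
        · exact h
      rw [le_antisymm h9 h8]

/-- The case `m ≤ ℓ`. -/
theorem pgex_large (ℓ m : ℕ) [Fact ℓ.Prime] (b : Fin m → ℕ) (hB : ¬ ℓ ∣ ∑ k, b k) (hm : m ≤ ℓ)
    (w : Fin m → Fin m → ℤ) (hw : Ultra w) : ∃ e : ℤ, Tam ℓ b w e := by
  classical
  rcases Nat.eq_zero_or_pos m with h0 | hpos
  · subst h0
    exact ⟨0, fun j => j.elim0⟩
  have hg : ∀ j : Fin m, ∃ g : Fin m, (∃ k, k < j) → g < j ∧ ∀ k, k < j → w j k ≤ w j g := by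
    intro j
    by_cases h : ∃ k, k < j
    · obtain ⟨k, hk⟩ := h
      obtain ⟨g, hg, hg'⟩ := (Finset.univ.filter fun k : Fin m => k < j).exists_max_image (w j)
        ⟨k, by simpa using hk⟩
      refine ⟨g, fun _ => ⟨by simpa using hg, fun k hk => hg' k (by simpa using hk)⟩⟩
    · exact ⟨j, fun h' => absurd h' h⟩
  choose g hg using hg
  set J : Finset (Fin m) := Finset.univ.erase ⟨0, hpos⟩ with hJ
  have hJc : J.card = m - 1 := by
    rw [hJ, Finset.card_erase_of_mem (Finset.mem_univ _), Finset.card_univ, Fintype.card_fin]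
  have hB' : ((∑ k, b k : ℕ) : ZMod ℓ) ≠ 0 := by
    rw [Ne, ZMod.natCast_eq_zero_iff]
    exact hB
  set bad : Finset (ZMod ℓ) := J.image fun j =>
    -((lev b w j (g j) : ℤ) : ZMod ℓ) / ((∑ k, b k : ℕ) : ZMod ℓ) with hbad
  have hcard : bad.card < (Finset.univ : Finset (ZMod ℓ)).card := by
    rw [Finset.card_univ, ZMod.card]
    calc bad.card ≤ J.card := Finset.card_image_le
      _ = m - 1 := hJc
      _ < ℓ := by omega
  obtain ⟨e₀, -, he₀⟩ := Finset.exists_mem_notMem_of_card_lt_card hcard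
  refine ⟨(e₀.val : ℤ), fun j i hji hdvd => he₀ ?_⟩
  obtain ⟨j', hj', hlev⟩ := pgex_key b w hw g hg j i hji
  rw [hbad, Finset.mem_image]
  refine ⟨j', ?_, ?_⟩
  · rw [hJ, Finset.mem_erase]
    refine ⟨?_, Finset.mem_univ _⟩
    rintro rfl
    obtain ⟨k, hk⟩ := hj'
    exact absurd hk (by simp [Fin.lt_def])
  · rw [hlev] at hdvd
    have h := (ZMod.intCast_zmod_eq_zero_iff_dvd _ ℓ).2 hdvd
    push_cast at h
    rw [ZMod.natCast_zmod_val] at h
    rw [div_eq_iff hB']
    push_cast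
    linear_combination -h

/-- The case `ℓ = 2`, `m = 3`. -/
theorem pgex_three (b : Fin 3 → ℕ) (hb : ∀ i, ¬ 2 ∣ b i) (w : Fin 3 → Fin 3 → ℤ)
    (hw : Ultra w) : ∃ e : ℤ, Tam 2 b w e := by
  obtain ⟨c₀, h0⟩ : ∃ c, b 0 = 2 * c + 1 := ⟨b 0 / 2, by have := hb 0; omega⟩
  obtain ⟨c₁, h1⟩ : ∃ c, b 1 = 2 * c + 1 := ⟨b 1 / 2, by have := hb 1; omega⟩
  obtain ⟨c₂, h2⟩ : ∃ c, b 2 = 2 * c + 1 := ⟨b 2 / 2, by have := hb 2; omega⟩
  have s01 := hw.symm 1 0
  have s02 := hw.symm 2 0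
  have s12 := hw.symm 2 1
  have t1 := hw.tri 0 1 2 (by decide) (by decide) (by decide)
  have t2 := hw.tri 1 0 2 (by decide) (by decide) (by decide)
  have t3 := hw.tri 0 2 1 (by decide) (by decide) (by decide)
  rw [s01] at t2
  rw [s12] at t3
  have key : ∃ r : ℤ, ∀ j i, j ≠ i → ∃ q : ℤ, lev b w j i = r + 2 * q := by
    obtain ⟨r, m1, m2, m3⟩ : ∃ r : ℤ, min (w 0 1) (w 0 2) = r ∧ min (w 0 1) (w 1 2) = r ∧
        min (w 0 2) (w 1 2) = r := by
      refine ⟨min (w 0 1) (w 0 2), rfl, ?_, ?_⟩ <;> omega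
    have m1' : min (w 0 2) (w 0 1) = r := by rw [min_comm]; exact m1
    have m2' : min (w 1 2) (w 0 1) = r := by rw [min_comm]; exact m2
    have m3' : min (w 1 2) (w 0 2) = r := by rw [min_comm]; exact m3
    refine ⟨r, fun j i hji => ?_⟩
    fin_cases j <;> fin_cases i
    · exact absurd rfl hji
    · refine ⟨(c₀ + c₁ + 1) * w 0 1 + c₂ * r, ?_⟩
      simp only [lev, Fin.sum_univ_three, h0, h1, h2]
      simp [m1']
      ring
    · refine ⟨(c₀ + c₂ + 1) * w 0 2 + c₁ * r, ?_⟩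
      simp only [lev, Fin.sum_univ_three, h0, h1, h2]
      simp [m1]
      ring
    · refine ⟨(c₀ + c₁ + 1) * w 0 1 + c₂ * r, ?_⟩
      simp only [lev, Fin.sum_univ_three, h0, h1, h2]
      simp [s01, m2']
      ring
    · exact absurd rfl hji
    · refine ⟨(c₁ + c₂ + 1) * w 1 2 + c₀ * r, ?_⟩
      simp only [lev, Fin.sum_univ_three, h0, h1, h2]
      simp [s01, m2]
      ring
    · refine ⟨(c₀ + c₂ + 1) * w 0 2 + c₁ * r, ?_⟩
      simp only [lev, Fin.sum_univ_three, h0, h1, h2]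
      simp [s02, s12, m3']
      ring
    · refine ⟨(c₁ + c₂ + 1) * w 1 2 + c₀ * r, ?_⟩
      simp only [lev, Fin.sum_univ_three, h0, h1, h2]
      simp [s02, s12, m3]
      ring
    · exact absurd rfl hji
  obtain ⟨r, hr⟩ := key
  refine ⟨r + 1, fun j i hji => ?_⟩
  obtain ⟨q, hq⟩ := hr j i hji
  rw [hq, Fin.sum_univ_three, h0, h1, h2]
  push_cast
  intro hdvd
  obtain ⟨x, hx⟩ := hdvd
  have h3 : (r + 1) * (2 * (c₀ : ℤ) + 1 + (2 * c₁ + 1) + (2 * c₂ + 1)) + (r + 2 * q) =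
      2 * ((r + 1) * (c₀ + c₁ + c₂ + 1) + r + q) + 1 := by ring
  rw [h3] at hx
  omega

theorem tPgEx : StmtPgEx := by
  intro ℓ m _ b hb hB hm w hw
  by_cases h : m ≤ ℓ
  · exact pgex_large ℓ m b hB h w hw
  · have h2 : 2 ≤ ℓ := (Fact.out : ℓ.Prime).two_le
    have hm3 : m = 3 := by omega
    have hl2 : ℓ = 2 := by omega
    subst hm3
    subst hl2
    exact pgex_three b hb w hw

end MP72e2e6
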