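import Pool.Agent.Lib.MP_72e2e6_nt.PgStmt
import Pool.Agent.Lib.MP_72e2e6_nt.PpHyp

/-!
# MP_72e2e6_nt: uniform tameness, arithmetic part, module PgHyp
-/

namespace MP72e2e6

open Polynomial IsDedekindDomain

universe u

section hyp

variable {F : Type u} [Field F] [Finite F] {ℓ m : ℕ} [Fact ℓ.Prime]

/-- the symbols of the differences are symmetric -/
theorem pghyp_syl_symm (hSy : StmtSuSy.{u})
    (hq : ℓ ∣ Nat.card F - 1) {χ : F → ZMod ℓ} (hχ : IsLg ℓ χ) (hχn : χ (-1) = 0)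
    {a : Fin m → F[X]}
    (ha : Function.Injective a) {P : F[X]} (hP : P.Monic) (hPi : Irreducible P) (i k : Fin m) :
    syl χ P (a i - a k) = syl χ P (a k - a i) := by
  obtain ⟨-, -, h⟩ := hSy F ℓ Fact.out hq χ hχ
  obtain ⟨hmul, -, -, -, hC⟩ := h P hP hPi
  by_cases hik : i = k
  · rw [hik]
  · have h1 : a k - a i ≠ 0 := sub_ne_zero.2 fun h => hik (ha h).symm
    have h2 : a i - a k = C (-1 : F) * (a k - a i) := by
      rw [C_neg, C_1]
      ring
    rw [h2, (hmul _ _ (by rw [Ne, C_eq_zero]; exact neg_ne_zero.2 one_ne_zero) h1).2,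
      (hC (-1) (neg_ne_zero.2 one_ne_zero)).2, hχn, mul_zero, zero_add]

theorem tPgHyp.{v} (hSuSy : StmtSuSy.{v}) (hSuFac : StmtSuFac.{v}) (hPgInj : StmtPgInj)
    (hPgCom : StmtPgCom) : StmtPgHyp.{v} := by
  intro F _ _ ℓ _ hq χ hχ hχn m a ha b hB V _ pr hpr hcov e hT
  have hℓ : ℓ.Prime := Fact.out
  have : NeZero ℓ := ⟨hℓ.ne_zero⟩
  have hwc : ∀ v i k, i ≠ k → vl ℓ (pr v) (a i - a k) = ((wP (pr v) a i k : ℤ) : ZMod ℓ) :=
    fun v i k hik => vl_eq_wP ha hik
  have hlc : ∀ i k, χ (a i - a k).leadingCoeff = χ (a k - a i).leadingCoeff := by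
    intro i k
    by_cases hik : i = k
    · rw [hik]
    · have h1 : (a k - a i).leadingCoeff ≠ 0 :=
        leadingCoeff_ne_zero.2 (sub_ne_zero.2 fun h => hik (ha h).symm)
      rw [← neg_sub (a k) (a i), leadingCoeff_neg, ← neg_one_mul,
        hχ.mul _ _ (neg_ne_zero.2 one_ne_zero) h1, hχn, zero_add]
  have hΛ : lamV χ b a = sgV b 0 (fun i k => χ (a i - a k).leadingCoeff) hlc := dif_pos hlc
  have hdiff : ∀ i k, i ≠ k →
      (∀ v, syl χ (pr v) (a i - a k) = (pr v).natDegree * χ (a i - a k).leadingCoeff +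
        ∑ v', vl ℓ (pr v') (a i - a k) * syl χ (pr v) (pr v')) ∧
      ((a i - a k).natDegree : ZMod ℓ) = ∑ v, (pr v).natDegree * vl ℓ (pr v) (a i - a k) := by
    intro i k hik
    have h0 : a i - a k ≠ 0 := sub_ne_zero.2 fun h => hik (ha h)
    obtain ⟨h1, h2, -⟩ := hSuFac F ℓ hℓ hq χ hχ V pr hpr (a i - a k) h0 (fun P hP hPi hne => by
      have h2 : ¬ P ∣ a i - a k := by
        intro h2
        obtain ⟨v, hv⟩ := hcov P hP hPi i k hik h2
        exact hne v hv
      rw [vl, if_neg h0, multiplicity_eq_zero.2 h2, Nat.cast_zero])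
    exact ⟨h1, h2⟩
  -- the sum over the primes
  have hop : ∀ (v : V) (y : Vs ℓ b) (i : Fin m),
      (∑ v', syl χ (pr v) (pr v') • sigV b a (pr v') (e v') y +
        ((pr v).natDegree : ZMod ℓ) • lamV χ b a y : Vs ℓ b).1 i =
      sg b (∑ v', syl χ (pr v) (pr v') * e v') (fun i k => syl χ (pr v) (a i - a k)) y i := by
    intro v y i
    have h1 : (∑ v', syl χ (pr v) (pr v') • sigV b a (pr v') (e v') y +
        ((pr v).natDegree : ZMod ℓ) • lamV χ b a y : Vs ℓ b).1 i =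
        ∑ v', syl χ (pr v) (pr v') * sg b (e v') (fun i k => vl ℓ (pr v') (a i - a k)) y i +
        ((pr v).natDegree : ZMod ℓ) * sg b 0 (fun i k => χ (a i - a k).leadingCoeff) y i := by
      rw [hΛ]
      simp only [Submodule.coe_add, Submodule.coe_sum, Submodule.coe_smul, Pi.add_apply,
        Finset.sum_apply, Pi.smul_apply, smul_eq_mul]
      rfl
    rw [h1]
    simp only [sg]
    have h2 : ∀ k, (b k : ZMod ℓ) * syl χ (pr v) (a i - a k) * (y.1 i - y.1 k) =
        ∑ v', syl χ (pr v) (pr v') * ((b k : ZMod ℓ) * vl ℓ (pr v') (a i - a k) *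
          (y.1 i - y.1 k)) + ((pr v).natDegree : ZMod ℓ) *
          ((b k : ZMod ℓ) * χ (a i - a k).leadingCoeff * (y.1 i - y.1 k)) := by
      intro k
      by_cases hik : i = k
      · subst hik
        simp
      · rw [(hdiff i k hik).1 v, mul_add, add_mul, Finset.mul_sum, Finset.sum_mul, add_comm]
        congr 1
        · exact Finset.sum_congr rfl fun v' _ => by ring
        · ring
    rw [Finset.sum_congr rfl fun k _ => h2 k, Finset.sum_add_distrib, Finset.sum_comm]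
    simp only [mul_add, Finset.sum_add_distrib, ← Finset.mul_sum, zero_mul, mul_zero, zero_add]
    rw [Finset.sum_mul]
    have h3 : ∀ v', syl χ (pr v) (pr v') * (e v' * y.1 i) =
        syl χ (pr v) (pr v') * e v' * y.1 i := fun v' => by ring
    have h4 : ∀ v', syl χ (pr v) (pr v') * ((∑ k, (b k : ZMod ℓ))⁻¹ *
        ∑ k, (b k : ZMod ℓ) * vl ℓ (pr v') (a i - a k) * (y.1 i - y.1 k)) =
        (∑ k, (b k : ZMod ℓ))⁻¹ * (syl χ (pr v) (pr v') *
        ∑ k, (b k : ZMod ℓ) * vl ℓ (pr v') (a i - a k) * (y.1 i - y.1 k)) := fun v' => by ring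
    rw [Finset.sum_congr rfl fun v' _ => h3 v', Finset.sum_congr rfl fun v' _ => h4 v',
      ← Finset.mul_sum]
    ring
  refine ⟨⟨fun v y hy => ?_, fun v y => ?_⟩, fun n hI y hy => ?_⟩
  · refine Subtype.ext (funext fun i => ?_)
    refine hPgInj ℓ m b hB _ (ultra_wP (hpr.irr v) ha) _ (hT v) y y.2 (fun i => ?_) i
    have h1 : sg b (e v) (fun i k => vl ℓ (pr v) (a i - a k)) y i = 0 :=
      congrFun (congrArg Subtype.val hy) i
    rw [sg_congr (hwc v)] at h1
    rw [Int.cast_natCast, ZMod.natCast_val, ZMod.cast_id', id]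
    exact h1
  · refine Subtype.ext (funext fun i => ?_)
    have h1 := hop v (sigV b a (pr v) (e v) y) i
    refine Eq.trans ?_ h1.symm
    have h2 : (sigV b a (pr v) (e v) (∑ v', syl χ (pr v) (pr v') • sigV b a (pr v') (e v') y +
        ((pr v).natDegree : ZMod ℓ) • lamV χ b a y)).1 i =
        sg b (e v) (fun i k => vl ℓ (pr v) (a i - a k))
          (∑ v', syl χ (pr v) (pr v') • sigV b a (pr v') (e v') y +
            ((pr v).natDegree : ZMod ℓ) • lamV χ b a y : Vs ℓ b).1 i := rfl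
    have h3 : (∑ v', syl χ (pr v) (pr v') • sigV b a (pr v') (e v') y +
            ((pr v).natDegree : ZMod ℓ) • lamV χ b a y : Vs ℓ b).1 =
        sg b (∑ v', syl χ (pr v) (pr v') * e v') (fun i k => syl χ (pr v) (a i - a k)) y :=
      funext fun i => hop v y i
    have h4 : (sigV b a (pr v) (e v) y).1 =
        sg b (e v) (fun i k => vl ℓ (pr v) (a i - a k)) y := rfl
    rw [h2, h3, h4, sg_congr (hwc v), sg_congr (hwc v)]
    exact hPgCom ℓ hℓ m b _ (ultra_wP (hpr.irr v) ha) _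
      (fun i k => pghyp_syl_symm hSuSy hq hχ hχn ha (hpr.monic v) (hpr.irr v) i k)
      (fun i j k hij hjk hik h => pphyp_tree ha (hpr.monic v) (hpr.irr v) hij hjk hik h) _ _ y i
  · refine Subtype.ext (funext fun i => ?_)
    refine hPgInj ℓ m b hB _ ultra_wI _ hI y y.2 (fun i => ?_) i
    have h1 : (∑ v, ((pr v).natDegree : ZMod ℓ) • sigV b a (pr v) (e v) y +
        (n : ZMod ℓ) • y : Vs ℓ b).1 i = 0 := by rw [hy]; rfl
    have h2 : (∑ v, ((pr v).natDegree : ZMod ℓ) • sigV b a (pr v) (e v) y +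
        (n : ZMod ℓ) • y : Vs ℓ b).1 i =
        ∑ v, ((pr v).natDegree : ZMod ℓ) * sg b (e v) (fun i k => vl ℓ (pr v) (a i - a k)) y i +
        (n : ZMod ℓ) * y.1 i := by
      simp only [Submodule.coe_add, Submodule.coe_sum, Submodule.coe_smul, Pi.add_apply,
        Finset.sum_apply, Pi.smul_apply, smul_eq_mul]
      rfl
    rw [h2] at h1
    simp only [sg, wI] at h1 ⊢
    push_cast
    rw [natDegree_twl hpr]
    have h3 : ∀ k, (b k : ZMod ℓ) * -((a i - a k).natDegree : ZMod ℓ) * (y.1 i - y.1 k) =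
        - ∑ v, ((pr v).natDegree : ZMod ℓ) * ((b k : ZMod ℓ) * vl ℓ (pr v) (a i - a k) *
          (y.1 i - y.1 k)) := by
      intro k
      by_cases hik : i = k
      · subst hik
        simp
      · rw [(hdiff i k hik).2, ← neg_mul_eq_mul_neg, neg_mul, Finset.mul_sum, Finset.sum_mul]
        congr 1
        exact Finset.sum_congr rfl fun v' _ => by ring
    rw [Finset.sum_congr rfl fun k _ => h3 k, Finset.sum_neg_distrib, Finset.sum_comm]
    simp only [mul_add, Finset.sum_add_distrib, ← Finset.mul_sum] at h1 ⊢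
    have h4 : ∀ v, ((pr v).natDegree : ZMod ℓ) * (e v * y.1 i) =
        (e v * ((pr v).natDegree : ZMod ℓ)) * y.1 i := fun v => by ring
    have h5 : ∀ v, ((pr v).natDegree : ZMod ℓ) * ((∑ k, (b k : ZMod ℓ))⁻¹ *
        ∑ k, (b k : ZMod ℓ) * vl ℓ (pr v) (a i - a k) * (y.1 i - y.1 k)) =
        (∑ k, (b k : ZMod ℓ))⁻¹ * (((pr v).natDegree : ZMod ℓ) *
        ∑ k, (b k : ZMod ℓ) * vl ℓ (pr v) (a i - a k) * (y.1 i - y.1 k)) := fun v => by ring
    rw [Finset.sum_congr rfl fun v _ => h4 v, Finset.sum_congr rfl fun v _ => h5 v,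
      ← Finset.sum_mul, ← Finset.mul_sum] at h1
    linear_combination -h1

end hyp

end MP72e2e6
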