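import Pool.Agent.Lib.MP_72e2e6_nt.PgStmt

/-!
# MP_72e2e6_nt: uniform tameness, arithmetic part, module PgInj
-/

namespace MP72e2e6

theorem pginj_term {ℓ m : ℕ} {w : Fin m → Fin m → ℤ} (hw : Ultra w) {c : Fin m → ZMod ℓ}
    {i i' : Fin m} (hii : i ≠ i')
    (hmax : ∀ k k', c k ≠ c k' → w k k' ≤ w i i') (k : Fin m) :
    (w i k : ZMod ℓ) * (c i - c k) - (w i' k : ZMod ℓ) * (c i' - c k) =
      ((if k = i then w i i' else min (w i k) (w i i') : ℤ) : ZMod ℓ) * (c i - c i') := by
  by_cases hki : k = i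
  · subst hki
    rw [if_pos rfl, hw.symm i' k]
    ring
  rw [if_neg hki]
  by_cases hki' : k = i'
  · subst hki'
    rw [min_self]
    ring
  have t1 := hw.tri i' i k hii.symm (Ne.symm hki) (Ne.symm hki')
  have t2 := hw.tri i i' k hii (Ne.symm hki') (Ne.symm hki)
  have t3 := hw.tri i k i' (Ne.symm hki) hki' hii
  rw [hw.symm i' i] at t1
  rw [hw.symm k i'] at t3
  rcases lt_trichotomy (w i k) (w i i') with h | h | h
  · have h1 : w i' k = w i k := by
      rw [min_eq_right h.le] at t1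
      refine le_antisymm ?_ t1
      by_contra h2
      push Not at h2
      have := lt_min h h2
      exact absurd t2 (not_le.2 this)
    rw [h1, min_eq_left h.le]
    ring
  · rw [h, min_self]
    by_cases h1 : w i' k = w i i'
    · rw [h1]
      ring
    · have h2 : w i i' < w i' k := by
        rw [h, min_self] at t1
        exact lt_of_le_of_ne t1 (Ne.symm h1)
      have h3 : c i' = c k := by
        by_contra h4
        exact absurd (hmax i' k h4) (not_le.2 h2)
      rw [h3]
      ring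
  · have h1 : w i' k = w i i' := by
      rw [min_eq_left h.le] at t1
      refine le_antisymm ?_ t1
      by_contra h2
      push Not at h2
      have := lt_min h h2
      exact absurd t3 (not_le.2 this)
    have h3 : c i = c k := by
      by_contra h4
      exact absurd (hmax i k h4) (not_le.2 h)
    rw [h1, min_eq_right h.le, h3]
    ring

theorem tPgInj : StmtPgInj := by
  intro ℓ m _ b hB w hw e hT c hc hs
  have hℓ : ℓ.Prime := Fact.out
  have hB0 : (∑ k, (b k : ZMod ℓ)) ≠ 0 := by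
    intro h
    rw [← Nat.cast_sum, ZMod.natCast_eq_zero_iff] at h
    exact hB h
  -- the equations
  have heq : ∀ i, (e : ZMod ℓ) * (∑ k, (b k : ZMod ℓ)) * c i +
      ∑ k, (b k : ZMod ℓ) * (w i k : ZMod ℓ) * (c i - c k) = 0 := by
    intro i
    have h1 := hs i
    rw [sg] at h1
    have h2 : (∑ k, (b k : ZMod ℓ)) * ((e : ZMod ℓ) * c i + (∑ k, (b k : ZMod ℓ))⁻¹ *
        ∑ k, (b k : ZMod ℓ) * (w i k : ZMod ℓ) * (c i - c k)) = 0 := by
      rw [h1, mul_zero]
    rw [mul_add, ← mul_assoc (∑ k, (b k : ZMod ℓ)) (∑ k, (b k : ZMod ℓ))⁻¹,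
      mul_inv_cancel₀ hB0, one_mul] at h2
    rw [← h2]
    ring
  by_cases hcon : ∀ k k', c k = c k'
  · intro i
    have h1 : (∑ k, (b k : ZMod ℓ)) * c i = 0 := by
      rw [Finset.sum_mul, ← hc]
      exact Finset.sum_congr rfl fun k _ => by rw [hcon i k]
    exact (mul_eq_zero.1 h1).resolve_left hB0
  exfalso
  push Not at hcon
  obtain ⟨k₀, k₀', hk₀⟩ := hcon
  obtain ⟨p, hp, hmax⟩ := Finset.exists_max_image
    (Finset.univ.filter fun p : Fin m × Fin m => c p.1 ≠ c p.2) (fun p => w p.1 p.2)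
    ⟨(k₀, k₀'), by simpa using hk₀⟩
  obtain ⟨i, i'⟩ := p
  have hcc : c i ≠ c i' := by simpa using hp
  have hii : i ≠ i' := fun h => hcc (by rw [h])
  have hmax' : ∀ k k', c k ≠ c k' → w k k' ≤ w i i' := fun k k' h =>
    hmax (k, k') (by simpa using h)
  have h1 : ((e : ZMod ℓ) * (∑ k, (b k : ZMod ℓ)) + ((lev b w i i' : ℤ) : ZMod ℓ)) *
      (c i - c i') = 0 := by
    have h2 : ((lev b w i i' : ℤ) : ZMod ℓ) * (c i - c i') =
        ∑ k, (b k : ZMod ℓ) * ((w i k : ZMod ℓ) * (c i - c k) -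
          (w i' k : ZMod ℓ) * (c i' - c k)) := by
      rw [lev, Int.cast_sum, Finset.sum_mul]
      refine Finset.sum_congr rfl fun k _ => ?_
      rw [pginj_term hw hii hmax' k, Int.cast_mul, Int.cast_natCast, mul_assoc]
    have h3 : ∑ k, (b k : ZMod ℓ) * ((w i k : ZMod ℓ) * (c i - c k) -
          (w i' k : ZMod ℓ) * (c i' - c k)) =
        ∑ k, (b k : ZMod ℓ) * (w i k : ZMod ℓ) * (c i - c k) -
          ∑ k, (b k : ZMod ℓ) * (w i' k : ZMod ℓ) * (c i' - c k) := by
      rw [← Finset.sum_sub_distrib]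
      exact Finset.sum_congr rfl fun k _ => by ring
    rw [add_mul, h2, h3]
    have h4 := heq i
    have h5 := heq i'
    linear_combination h4 - h5
  rcases mul_eq_zero.1 h1 with h2 | h2
  · refine hT i i' hii ?_
    rw [← ZMod.intCast_zmod_eq_zero_iff_dvd]
    push_cast
    exact h2
  · exact hcc (sub_eq_zero.1 h2)

end MP72e2e6
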