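import Pool.Agent.Lib.MP_72e2e6_nt.PgStmt
import Pool.Agent.Lib.MP_72e2e6_nt.PqCon

/-!
# MP_72e2e6_nt: irreducibility, intertwining operators and forms (PgIrr)
-/

set_option autoImplicit false

namespace MP72e2e6

section

variable {ℓ m : ℕ} {V : Type} [Fintype V] {b : Fin m → ℕ}
  {σ : V → Module.End (ZMod ℓ) (Vs ℓ b)} {Λ : Module.End (ZMod ℓ) (Vs ℓ b)}

/-- The operator of an edge. -/
theorem pgirr_op {i j : Fin m} (hij : i ≠ j) (h : EdOp b σ Λ i j) :
    ∃ (κ : V → ZMod ℓ) (κ₀ r μ : ZMod ℓ), μ ≠ 0 ∧ ∀ x : Vs ℓ b,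
      ∑ v, κ v • σ v x + κ₀ • Λ x = r • x +
        (μ * ((x : Fin m → ZMod ℓ) i - (x : Fin m → ZMod ℓ) j)) • ppirr_r ℓ b i j := by
  obtain ⟨κ, κ₀, r, μ, hμ, h⟩ := h
  refine ⟨κ, κ₀, r, μ, hμ, fun x => Subtype.ext (funext fun k => ?_)⟩
  refine (h x k).trans ?_
  change _ = r * (x : Fin m → ZMod ℓ) k +
    μ * ((x : Fin m → ZMod ℓ) i - (x : Fin m → ZMod ℓ) j) *
      (ppirr_r ℓ b i j : Fin m → ZMod ℓ) k
  rw [ppirr_r_apply]
  by_cases h1 : k = i
  · have h2 : k ≠ j := fun h2 => hij (h1.symm.trans h2)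
    rw [if_pos h1, if_pos h1, if_neg h2]
    ring
  · by_cases h2 : k = j
    · rw [if_neg h1, if_pos h2, if_neg h1, if_pos h2]
      ring
    · rw [if_neg h1, if_neg h2, if_neg h1, if_neg h2]
      ring

/-- Invariant subspaces. -/
theorem pgirr_mem [Fact ℓ.Prime] (A : Submodule (ZMod ℓ) (Vs ℓ b))
    (hA : ∀ v, ∀ y ∈ A, σ v y ∈ A) (hA' : ∀ y ∈ A, Λ y ∈ A) {i j : Fin m} (hij : i ≠ j)
    (h : EdOp b σ Λ i j) {c : Vs ℓ b} (hc : c ∈ A)
    (hne : (c : Fin m → ZMod ℓ) i ≠ (c : Fin m → ZMod ℓ) j) : ppirr_r ℓ b i j ∈ A := by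
  obtain ⟨κ, κ₀, r, μ, hμ, h⟩ := pgirr_op hij h
  have h1 : ∑ v, κ v • σ v c + κ₀ • Λ c ∈ A :=
    A.add_mem (A.sum_mem fun v _ => A.smul_mem _ (hA v c hc)) (A.smul_mem _ (hA' c hc))
  rw [h c] at h1
  have h2 := (A.add_mem_iff_right (A.smul_mem _ hc)).1 h1
  exact (A.smul_mem_iff (mul_ne_zero hμ (sub_ne_zero.2 hne))).1 h2

/-- Irreducibility. -/
theorem pgirr_irr [Fact ℓ.Prime] (hm : 2 ≤ m) (hb' : ∀ i, (b i : ZMod ℓ) ≠ 0)
    (hB' : (∑ k, (b k : ZMod ℓ)) ≠ 0)
    (hedge : ∀ s : Finset (Fin m), s.Nonempty → s ≠ Finset.univ → ∃ i ∈ s, ∃ j, j ∉ s ∧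
      EdOp b σ Λ i j) : IrrW σ Λ := by
  refine ⟨?_, ?_⟩
  · -- nontrivial
    have h01 : (⟨0, by omega⟩ : Fin m) ≠ ⟨1, by omega⟩ := by
      intro h
      exact absurd (congrArg Fin.val h) (by simp)
    refine ⟨ppirr_r ℓ b ⟨0, by omega⟩ ⟨1, by omega⟩, 0, fun h => ?_⟩
    have h1 := congrFun (congrArg Subtype.val h) (⟨0, by omega⟩ : Fin m)
    rw [ppirr_r_apply, if_pos rfl, if_neg h01] at h1
    change _ = (0 : ZMod ℓ) at h1
    apply hb' ⟨1, by omega⟩
    linear_combination h1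
  · intro A hA hA'
    by_cases hbot : A = ⊥
    · exact Or.inl hbot
    right
    classical
    obtain ⟨c, hc, hc0⟩ := A.ne_bot_iff.1 hbot
    have hcs : ∑ k, (b k : ZMod ℓ) * (c : Fin m → ZMod ℓ) k = 0 := c.2
    let k₀ : Fin m := ⟨0, by omega⟩
    obtain ⟨i, hi, j, hj, hv⟩ := hedge
      (Finset.univ.filter fun k => (c : Fin m → ZMod ℓ) k = (c : Fin m → ZMod ℓ) k₀)
      ⟨k₀, Finset.mem_filter.2 ⟨Finset.mem_univ _, rfl⟩⟩ (by
        intro huniv
        have h1 : ∀ k, (c : Fin m → ZMod ℓ) k = (c : Fin m → ZMod ℓ) k₀ := by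
          intro k
          have h0 := Finset.mem_univ k
          rw [← huniv, Finset.mem_filter] at h0
          exact h0.2
        rw [Finset.sum_congr rfl fun k _ => by rw [h1 k], ← Finset.sum_mul] at hcs
        have h2 : (c : Fin m → ZMod ℓ) k₀ = 0 := (mul_eq_zero.1 hcs).resolve_left hB'
        exact hc0 (Subtype.ext (funext fun k => (h1 k).trans h2)))
    have hci : (c : Fin m → ZMod ℓ) i = (c : Fin m → ZMod ℓ) k₀ := (Finset.mem_filter.1 hi).2
    have hcj : (c : Fin m → ZMod ℓ) j ≠ (c : Fin m → ZMod ℓ) k₀ := fun h =>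
      hj (Finset.mem_filter.2 ⟨Finset.mem_univ _, h⟩)
    have hij : i ≠ j := fun h => hj (h ▸ hi)
    have hrij : ppirr_r ℓ b i j ∈ A :=
      pgirr_mem A hA hA' hij hv hc fun h => hcj (h ▸ hci)
    have hall : ∀ k, k = i ∨ ppirr_r ℓ b i k ∈ A := by
      by_contra hcon
      push Not at hcon
      obtain ⟨k₁, hk₁, hk₁'⟩ := hcon
      obtain ⟨k, hk, l, hl, hv'⟩ := hedge
        (Finset.univ.filter fun k => k = i ∨ ppirr_r ℓ b i k ∈ A)
        ⟨i, Finset.mem_filter.2 ⟨Finset.mem_univ _, Or.inl rfl⟩⟩ (by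
          intro huniv
          have h1 := Finset.mem_univ k₁
          rw [← huniv, Finset.mem_filter] at h1
          rcases h1.2 with h1 | h1
          · exact hk₁ h1
          · exact hk₁' h1)
      have hkl : k ≠ l := fun h => hl (h ▸ hk)
      have hk' := (Finset.mem_filter.1 hk).2
      have hl' : l ≠ i ∧ ppirr_r ℓ b i l ∉ A := by
        constructor
        · exact fun h => hl (Finset.mem_filter.2 ⟨Finset.mem_univ _, Or.inl h⟩)
        · exact fun h => hl (Finset.mem_filter.2 ⟨Finset.mem_univ _, Or.inr h⟩)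
      by_cases hki : k = i
      · subst hki
        have hlj : l ≠ j := fun h => hl'.2 (h ▸ hrij)
        refine hl'.2 (pgirr_mem A hA hA' hkl hv' hrij ?_)
        rw [ppirr_r_apply, ppirr_r_apply, if_pos rfl, if_neg hij, if_neg hl'.1, if_neg hlj]
        intro h
        apply hb' j
        linear_combination h
      · have hik : ppirr_r ℓ b i k ∈ A := hk'.resolve_left hki
        refine hl'.2 (ppirr_mem hb' A hik (pgirr_mem A hA hA' hkl hv' hik ?_))
        rw [ppirr_r_apply, ppirr_r_apply, if_neg hki, if_pos rfl, if_neg hl'.1,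
          if_neg hkl.symm]
        intro h
        apply hb' i
        linear_combination -h
    refine ppirr_top hb' A i fun k => ?_
    rcases hall k with h | h
    · rw [h, ppirr_r_self]
      exact A.zero_mem
    · exact h

end

theorem tPgIrr : StmtPgIrr := by
  intro ℓ _ m hm b hb hB V _ σ Λ hedge hsa hsa'
  have hb' : ∀ i, (b i : ZMod ℓ) ≠ 0 := fun i h => hb i ((ZMod.natCast_eq_zero_iff _ _).1 h)
  have hB' : (∑ k, (b k : ZMod ℓ)) ≠ 0 := by
    intro h
    apply hB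
    rw [← ZMod.natCast_eq_zero_iff]
    push_cast
    exact h
  have hirr := pgirr_irr hm hb' hB' hedge
  let k₀ : Fin m := ⟨0, by omega⟩
  obtain ⟨i, hi, j, hj, hv⟩ := hedge {k₀} ⟨k₀, Finset.mem_singleton_self _⟩ (by
    intro h
    have h1 : (⟨1, by omega⟩ : Fin m) ∈ ({k₀} : Finset (Fin m)) := h ▸ Finset.mem_univ _
    rw [Finset.mem_singleton] at h1
    exact absurd (congrArg Fin.val h1) (by simp [k₀]))
  have hij : i ≠ j := fun h => hj (h ▸ hi)
  obtain ⟨y, hy⟩ := pqcon_ne hb' hB' hij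
  have hstf : ∀ z : Vs ℓ b, stf b (ppirr_r ℓ b i j).1 z.1 = (b i : ZMod ℓ) * b j *
      ((z : Fin m → ZMod ℓ) i - (z : Fin m → ZMod ℓ) j) := fun z => pqcon_h_r b i j z
  have hr : ppirr_r ℓ b i j ≠ 0 := by
    intro h
    have h1 := pqcon_h_r b i j y
    rw [h, map_zero, LinearMap.zero_apply] at h1
    exact mul_ne_zero (mul_ne_zero (hb' i) (hb' j)) (sub_ne_zero.2 hy) h1.symm
  obtain ⟨κ', κ₀, r, μ, hμ, hop⟩ := pgirr_op hij hv
  have hα0 : μ * ((y : Fin m → ZMod ℓ) i - (y : Fin m → ZMod ℓ) j) ≠ 0 :=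
    mul_ne_zero hμ (sub_ne_zero.2 hy)
  refine ⟨hirr, fun κ hκ hκ' => ?_, fun g hg hg' => ?_⟩
  · -- the intertwining operators
    have h1 : κ (∑ v, κ' v • σ v y + κ₀ • Λ y) = ∑ v, κ' v • σ v (κ y) + κ₀ • Λ (κ y) := by
      rw [map_add, map_sum, map_smul, hκ']
      congr 1
      exact Finset.sum_congr rfl fun v _ => by rw [map_smul, hκ]
    rw [hop, hop, map_add, map_smul, map_smul] at h1
    have h2 := add_left_cancel h1
    set α := μ * ((y : Fin m → ZMod ℓ) i - (y : Fin m → ZMod ℓ) j) with hα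
    set β := μ * (((κ y : Vs ℓ b) : Fin m → ZMod ℓ) i - ((κ y : Vs ℓ b) : Fin m → ZMod ℓ) j)
      with hβ
    have h3 : κ (ppirr_r ℓ b i j) = (α⁻¹ * β) • ppirr_r ℓ b i j := by
      rw [mul_smul, ← h2, smul_smul, inv_mul_cancel₀ hα0, one_smul]
    refine ⟨α⁻¹ * β, ?_⟩
    set c := α⁻¹ * β
    have h4 := hirr.irr (LinearMap.ker (κ - c • LinearMap.id)) (fun v' z hz' => ?_)
      (fun z hz' => ?_)
    · rcases h4 with h4 | h4
      · exfalso
        apply hr
        have : ppirr_r ℓ b i j ∈ LinearMap.ker (κ - c • LinearMap.id) := by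
          rw [LinearMap.mem_ker, LinearMap.sub_apply, h3]
          exact sub_self _
        rw [h4] at this
        exact (Submodule.mem_bot _).1 this
      · intro z
        have h5 : z ∈ LinearMap.ker (κ - c • LinearMap.id) := h4 ▸ Submodule.mem_top
        rw [LinearMap.mem_ker, LinearMap.sub_apply] at h5
        exact sub_eq_zero.1 h5
    · rw [LinearMap.mem_ker, LinearMap.sub_apply, LinearMap.smul_apply, LinearMap.id_apply,
        sub_eq_zero] at hz' ⊢
      rw [hκ, hz', map_smul]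
    · rw [LinearMap.mem_ker, LinearMap.sub_apply, LinearMap.smul_apply, LinearMap.id_apply,
        sub_eq_zero] at hz' ⊢
      rw [hκ', hz', map_smul]
  · -- the forms
    have h1 : ∀ x z : Vs ℓ b, g (∑ v, κ' v • σ v x + κ₀ • Λ x) z =
        g x (∑ v, κ' v • σ v z + κ₀ • Λ z) := by
      intro x z
      rw [map_add, map_add, map_sum, map_sum, LinearMap.add_apply, LinearMap.sum_apply]
      congr 1
      · refine Finset.sum_congr rfl fun v _ => ?_
        rw [map_smul, map_smul, LinearMap.smul_apply, hg]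
      · rw [map_smul, map_smul, LinearMap.smul_apply, hg']
    have h2 : ∀ x z : Vs ℓ b, ((x : Fin m → ZMod ℓ) i - (x : Fin m → ZMod ℓ) j) *
        g (ppirr_r ℓ b i j) z = ((z : Fin m → ZMod ℓ) i - (z : Fin m → ZMod ℓ) j) *
          g x (ppirr_r ℓ b i j) := by
      intro x z
      have h3 := h1 x z
      rw [hop, hop] at h3
      simp only [map_add, LinearMap.add_apply, map_smul, LinearMap.smul_apply,
        smul_eq_mul] at h3
      have h4 := add_left_cancel h3
      rw [mul_assoc, mul_assoc] at h4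
      exact mul_left_cancel₀ hμ h4
    set δ := (y : Fin m → ZMod ℓ) i - (y : Fin m → ZMod ℓ) j with hδ
    have hδ0 : δ ≠ 0 := sub_ne_zero.2 hy
    have hbb : (b i : ZMod ℓ) * b j ≠ 0 := mul_ne_zero (hb' i) (hb' j)
    set t := δ⁻¹ * g y (ppirr_r ℓ b i j) * ((b i : ZMod ℓ) * b j)⁻¹ with ht
    have h3 : ∀ z : Vs ℓ b, g (ppirr_r ℓ b i j) z = t * stf b (ppirr_r ℓ b i j).1 z.1 := by
      intro z
      rw [hstf]
      have h4 := h2 y z
      have h5 : δ * t * ((b i : ZMod ℓ) * b j) = g y (ppirr_r ℓ b i j) := by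
        rw [ht, mul_assoc, mul_assoc, inv_mul_cancel₀ hbb, mul_one, mul_inv_cancel_left₀ hδ0]
      apply mul_left_cancel₀ hδ0
      linear_combination h4 - ((z : Fin m → ZMod ℓ) i - (z : Fin m → ZMod ℓ) j) * h5
    refine ⟨t, ?_⟩
    let S : Submodule (ZMod ℓ) (Vs ℓ b) :=
      { carrier := {x | ∀ z : Vs ℓ b, g x z = t * stf b x.1 z.1}
        add_mem' := fun {x x'} hx hx' z => by
          have e1 : stf b (x + x').1 z.1 = stf b x.1 z.1 + stf b x'.1 z.1 :=
            LinearMap.congr_fun (map_add (pqcon_h ℓ b) x x') z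
          rw [map_add, LinearMap.add_apply, hx z, hx' z, e1, mul_add]
        zero_mem' := fun z => by
          have e1 : stf b (0 : Vs ℓ b).1 z.1 = 0 :=
            LinearMap.congr_fun (map_zero (pqcon_h ℓ b)) z
          rw [map_zero, LinearMap.zero_apply, e1, mul_zero]
        smul_mem' := fun s x hx z => by
          have e1 : stf b (s • x).1 z.1 = s * stf b x.1 z.1 :=
            LinearMap.congr_fun (map_smul (pqcon_h ℓ b) s x) z
          rw [map_smul, LinearMap.smul_apply, hx z, e1, smul_eq_mul]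
          ring }
    have h4 := hirr.irr S (fun v x hx z => by rw [hg, hx, hsa])
      (fun x hx z => by rw [hg', hx, hsa'])
    rcases h4 with h4 | h4
    · exfalso
      apply hr
      have : ppirr_r ℓ b i j ∈ S := h3
      rw [h4] at this
      exact (Submodule.mem_bot _).1 this
    · intro x z
      have h5 : x ∈ S := h4 ▸ Submodule.mem_top
      exact h5 z

end MP72e2e6
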