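import Pool.Agent.Lib.MP_72e2e6_nt.SuStmt

/-!
# MP_72e2e6_nt: the local lemma for twists of superelliptic curves
-/

namespace MP72e2e6

open Polynomial IntermediateField Module

universe u

section pw

variable {K : Type*} [Field K] {ℓ : ℕ}

/-- equality up to a nonzero `ℓ`-th power -/
def sulocE (ℓ : ℕ) (x y : K) : Prop := ∃ z : K, z ≠ 0 ∧ x = y * z ^ ℓ

theorem suloc_refl (x : K) : sulocE ℓ x x := ⟨1, one_ne_zero, by rw [one_pow, mul_one]⟩

theorem suloc_symm {x y : K} (h : sulocE ℓ x y) : sulocE ℓ y x := by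
  obtain ⟨z, hz, h⟩ := h
  refine ⟨z⁻¹, inv_ne_zero hz, ?_⟩
  rw [h, mul_assoc, ← mul_pow, mul_inv_cancel₀ hz, one_pow, mul_one]

theorem suloc_trans {x y w : K} (h : sulocE ℓ x y) (h' : sulocE ℓ y w) : sulocE ℓ x w := by
  obtain ⟨z, hz, h⟩ := h
  obtain ⟨z', hz', h'⟩ := h'
  exact ⟨z' * z, mul_ne_zero hz' hz, by rw [h, h', mul_pow]; ring⟩

theorem suloc_mul {x y x' y' : K} (h : sulocE ℓ x y) (h' : sulocE ℓ x' y') :
    sulocE ℓ (x * x') (y * y') := by
  obtain ⟨z, hz, h⟩ := h
  obtain ⟨z', hz', h'⟩ := h'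
  exact ⟨z * z', mul_ne_zero hz hz', by rw [h, h', mul_pow]; ring⟩

theorem suloc_pow {x y : K} (h : sulocE ℓ x y) (n : ℕ) : sulocE ℓ (x ^ n) (y ^ n) := by
  obtain ⟨z, hz, h⟩ := h
  exact ⟨z ^ n, pow_ne_zero _ hz, by rw [h, mul_pow, pow_right_comm]⟩

theorem suloc_prod {ι : Type*} (s : Finset ι) (f g : ι → K) (h : ∀ i ∈ s, sulocE ℓ (f i) (g i)) :
    sulocE ℓ (∏ i ∈ s, f i) (∏ i ∈ s, g i) := by
  classical
  induction s using Finset.induction_on with
  | empty => simpa using suloc_refl (1 : K)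
  | insert a s ha ih =>
    rw [Finset.prod_insert ha, Finset.prod_insert ha]
    exact suloc_mul (h a (Finset.mem_insert_self _ _))
      (ih fun i hi => h i (Finset.mem_insert_of_mem hi))

theorem suloc_cancel {x y z : K} (hy : y ≠ 0) (h : sulocE ℓ (x * y) (z * y)) : sulocE ℓ x z := by
  obtain ⟨t, ht, h⟩ := h
  refine ⟨t, ht, mul_right_cancel₀ hy ?_⟩
  rw [h]
  ring

theorem suloc_mod {x : K} (hx : x ≠ 0) {a b : ℕ} (h : (a : ZMod ℓ) = b) :
    sulocE ℓ (x ^ a) (x ^ b) := by
  rw [ZMod.natCast_eq_natCast_iff] at h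
  rcases le_total a b with hab | hab
  · obtain ⟨c, hc⟩ := (Nat.modEq_iff_dvd' hab).1 h
    have h1 : b = a + ℓ * c := by omega
    refine suloc_symm ⟨x ^ c, pow_ne_zero _ hx, ?_⟩
    rw [h1, pow_add, ← pow_mul, mul_comm c ℓ]
  · obtain ⟨c, hc⟩ := (Nat.modEq_iff_dvd' hab).1 h.symm
    have h1 : a = b + ℓ * c := by omega
    refine ⟨x ^ c, pow_ne_zero _ hx, ?_⟩
    rw [h1, pow_add, ← pow_mul, mul_comm c ℓ]

theorem suloc_mod_one {x : K} (hx : x ≠ 0) {a : ℕ} (h : (a : ZMod ℓ) = 0) :
    sulocE ℓ (x ^ a) 1 := by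
  have h1 := suloc_mod (ℓ := ℓ) hx (a := a) (b := 0) (by rw [h, Nat.cast_zero])
  rwa [pow_zero] at h1

theorem suloc_of_pow {x z : K} (hz : z ≠ 0) (h : x = z ^ ℓ) : sulocE ℓ x 1 :=
  ⟨z, hz, by rw [h, one_mul]⟩

theorem suloc_neg (hℓ : Odd ℓ) (x : K) : sulocE ℓ (-x) x :=
  ⟨-1, neg_ne_zero.2 one_ne_zero, by rw [hℓ.neg_one_pow, mul_neg_one]⟩

theorem suloc_norm {M L : Type*} [Field M] [Field L] [Algebra M L] [FiniteDimensional M L]
    {x y : L} (h : sulocE ℓ x y) : sulocE ℓ (Algebra.norm M x) (Algebra.norm M y) := by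
  obtain ⟨z, hz, h⟩ := h
  exact ⟨Algebra.norm M z, Algebra.norm_ne_zero_iff.2 hz, by rw [h, map_mul, map_pow]⟩

theorem suloc_to_pow {x : K} (h : sulocE ℓ x 1) : ∃ z : K, x = z ^ ℓ := by
  obtain ⟨z, -, h⟩ := h
  exact ⟨z, by rw [h, one_mul]⟩

theorem suloc_mem {n : ℕ} {a : Fin n → K} (ha : Function.Injective a) {b : Fin n → ℕ}
    (s : Finset (Fin n)) (e : ℕ) {d : Fin n → Kˣ}
    (h : ∀ i, sulocE ℓ (d i : K) ((∏ k ∈ s, torsionTuple a b k i) ^ e)) :
    d ∈ torsionGroup ℓ a b := by
  classical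
  choose z hz0 hz using h
  let U : Fin n → Fin n → Kˣ := fun k i => Units.mk0 _ (torsionTuple_ne_zero ha b k i)
  let Z : Fin n → Kˣ := fun i => Units.mk0 _ (hz0 i)
  have h1 : d = (∏ k ∈ s, U k) ^ e * Z ^ ℓ := by
    ext i
    have h2 : (((∏ k ∈ s, U k) i : Kˣ) : K) = ∏ k ∈ s, torsionTuple a b k i := by
      rw [Finset.prod_apply, Units.coe_prod]
      rfl
    simp only [Pi.mul_apply, Pi.pow_apply, Units.val_mul, Units.val_pow_eq_pow_val, h2]
    exact hz i
  rw [h1]
  refine Subgroup.mul_mem _ (Subgroup.pow_mem _ (Subgroup.prod_mem _ fun k _ => ?_) e)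
    (mem_torsionGroup_pow Z)
  exact Subgroup.subset_closure (Or.inr ⟨k, fun i => rfl⟩)

end pw

theorem suloc_near {L : Type u} [NontriviallyNormedField L] [IsUltrametricDist L]
    [CompleteSpace L] (p : ℕ) [Fact p.Prime] [CharP L p] {ℓ : ℕ} (hℓ : ℓ ≠ 0)
    (hcop : Nat.Coprime ℓ p) {x y : L} (h : ‖x - y‖ < ‖y‖) : sulocE ℓ x y := by
  have hy : y ≠ 0 := by
    rintro rfl
    rw [norm_zero] at h
    exact absurd h (not_lt.2 (norm_nonneg _))
  have hyp : 0 < ‖y‖ := norm_pos_iff.2 hy
  obtain ⟨z, hz, hz1⟩ := exists_pow_eq_of_principal p (N := ℓ) hcop (y := x / y) (by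
      rw [div_sub_one hy, norm_div, div_lt_one hyp]
      exact h)
  refine ⟨z, ?_, ?_⟩
  · rintro rfl
    rw [zero_sub, norm_neg, norm_one] at hz1
    exact lt_irrefl _ hz1
  · rw [hz, mul_div_cancel₀ _ hy]

section core

variable {F : Type*} [Field F] [Finite F]
  {M : Type u} [NontriviallyNormedField M] [IsUltrametricDist M] [CompleteSpace M] [Algebra F M]
  {L : Type u} [NontriviallyNormedField L] [IsUltrametricDist L]
  [NormedAlgebra M L] [FiniteDimensional M L] [Algebra F L] [IsScalarTower F M L]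

theorem suloc_core (p : ℕ) [Fact p.Prime] [CharP F p] (ℓ : ℕ) (hℓ : ℓ.Prime) (hℓ2 : ℓ ≠ 2)
    (hcop : ℓ.Coprime p)
    (hres : ∀ y : M, ‖y‖ ≤ 1 → ∃ α : F, ‖y - algebraMap F M α‖ < 1)
    (v : Valuation M (WithZero (Multiplicative ℤ))) (hv : ∀ x y : M, ‖x‖ ≤ ‖y‖ ↔ v x ≤ v y)
    (m : ℕ) (hm : 0 < m) (A : Fin m → M) (hA : Function.Injective A) (b : Fin m → ℕ)
    (hball : ∀ (s : Finset (Fin m)) (j : Fin m), j ∈ s →
      (∀ i ∈ s, ∀ k, k ∉ s → v (A j - A i) < v (A j - A k)) → ¬ ℓ ∣ ∑ k ∈ s, b k)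
    (hram : ∀ j i, j ≠ i →
      ¬ (ℓ : ℤ) ∣ ∑ k, (b k : ℤ) * WithZero.log (max (v (A j - A k)) (v (A j - A i))))
    (x w : L) (d : Fin m → Mˣ)
    (hx : ∏ i, (x - algebraMap M L (A i)) ^ (b i) = w ^ ℓ)
    (hd : ∀ i, (d i : M) = Algebra.norm M (x - algebraMap M L (A i))) :
    d ∈ torsionGroup ℓ A b := by
  classical
  haveI : Fact ℓ.Prime := ⟨hℓ⟩
  have hodd : Odd ℓ := hℓ.odd_of_ne_two hℓ2
  have hcompl : CompleteSpace L := FiniteDimensional.complete M L
  have hcharL : CharP L p := charP_of_injective_algebraMap (algebraMap F L).injective p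
  have hcharM : CharP M p := charP_of_injective_algebraMap (algebraMap F M).injective p
  have hvlt : ∀ x y : M, ‖x‖ < ‖y‖ → v x < v y := by
    intro x y h
    rw [← not_le, ← hv, not_le]
    exact h
  set X : Fin m → L := fun i => x - algebraMap M L (A i) with hX
  have hdX : ∀ i, (d i : M) = Algebra.norm M (X i) := hd
  have hxX : ∏ i, X i ^ b i = w ^ ℓ := hx
  have hX0 : ∀ i, X i ≠ 0 := by
    intro i h0
    have h1 := (d i).ne_zero
    rw [hdX i, h0] at h1
    exact h1 (Algebra.norm_zero)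
  have hw0 : w ≠ 0 := by
    rintro rfl
    have h1 : ∏ i, X i ^ b i ≠ 0 := Finset.prod_ne_zero_iff.2 fun i _ => pow_ne_zero _ (hX0 i)
    exact h1 (by rw [hxX, zero_pow hℓ.ne_zero])
  have hdiff : ∀ i l, X i - X l = algebraMap M L (A l - A i) := by
    intro i l
    simp only [hX, map_sub]
    ring
  have hndiff : ∀ i l, ‖X i - X l‖ = ‖A l - A i‖ := by
    intro i l
    rw [hdiff, norm_algebraMap']
  have hA0 : ∀ i l, i ≠ l → A i - A l ≠ 0 := fun i l h => sub_ne_zero.2 fun h' => h (hA h')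
  obtain ⟨j, -, hj⟩ := Finset.exists_min_image (Finset.univ : Finset (Fin m)) (fun i => ‖X i‖)
    ⟨⟨0, hm⟩, Finset.mem_univ _⟩
  replace hj : ∀ i, ‖X j‖ ≤ ‖X i‖ := fun i => hj i (Finset.mem_univ _)
  set r : ℝ := ‖X j‖ with hr
  have hrpos : 0 < r := norm_pos_iff.2 (hX0 j)
  -- points far from `A j`
  have hfar : ∀ k, r < ‖A j - A k‖ → sulocE ℓ (X k) (algebraMap M L (A j - A k)) := by
    intro k hk
    refine suloc_near p hℓ.ne_zero hcop ?_
    have h1 : X k - algebraMap M L (A j - A k) = X j := by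
      rw [← hdiff k j]; ring
    rw [h1, norm_algebraMap']
    exact hk
  have hfarn : ∀ k, r < ‖A j - A k‖ → ‖X k‖ = ‖A j - A k‖ := by
    intro k hk
    have h1 : X k = X j + algebraMap M L (A j - A k) := by
      rw [← hdiff k j]; ring
    rw [h1, IsUltrametricDist.norm_add_eq_max_of_norm_ne_norm (by
      rw [norm_algebraMap']; exact hk.ne), norm_algebraMap', max_eq_right hk.le]
  by_cases c1 : ∃ i, i ≠ j ∧ ‖A j - A i‖ = r
  · -- case 1
    obtain ⟨i, hij, hi⟩ := c1
    set R : M := A i - A j with hR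
    have hR0 : R ≠ 0 := hA0 i j hij
    have hRn : ‖R‖ = r := by rw [hR, norm_sub_rev]; exact hi
    have hRL0 : algebraMap M L R ≠ 0 := by rwa [Ne, map_eq_zero]
    have hRLn : ‖algebraMap M L R‖ = r := by rw [norm_algebraMap', hRn]
    set s : Finset (Fin m) := Finset.univ.filter (fun k => ‖A j - A k‖ ≤ r) with hs
    have hsmem : ∀ k, k ∈ s ↔ ‖A j - A k‖ ≤ r := by
      intro k
      simp [hs]
    set Q : M := R ^ (∑ k ∈ s, b k) * ∏ k ∈ sᶜ, (A j - A k) ^ b k with hQ
    have hsc : ∀ k, k ∈ sᶜ ↔ r < ‖A j - A k‖ := by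
      intro k
      rw [Finset.mem_compl, hsmem, not_le]
    have hsc0 : ∀ k, k ∈ sᶜ → A j - A k ≠ 0 := by
      intro k hk
      have := (hsc k).1 hk
      exact norm_pos_iff.1 (hrpos.trans this)
    have hQ0 : Q ≠ 0 := mul_ne_zero (pow_ne_zero _ hR0)
      (Finset.prod_ne_zero_iff.2 fun k hk => pow_ne_zero _ (hsc0 k hk))
    have hlog : WithZero.log (v Q) =
        ∑ k, (b k : ℤ) * WithZero.log (max (v (A j - A k)) (v (A j - A i))) := by
      have hvR : v R = v (A j - A i) := by
        rw [hR, ← Valuation.map_neg, neg_sub]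
      have hvR0 : v R ≠ 0 := (Valuation.ne_zero_iff v).2 hR0
      have hlp : ∀ (T : Finset (Fin m)) (f : Fin m → M), (∀ k ∈ T, f k ≠ 0) →
          WithZero.log (v (∏ k ∈ T, f k)) = ∑ k ∈ T, WithZero.log (v (f k)) := by
        intro T f
        induction T using Finset.induction_on with
        | empty => intro _; simp
        | insert a T ha ih =>
          intro hf
          rw [Finset.prod_insert ha, Finset.sum_insert ha, map_mul, WithZero.log_mul
            ((Valuation.ne_zero_iff v).2 (hf a (Finset.mem_insert_self _ _)))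
            ((Valuation.ne_zero_iff v).2 (Finset.prod_ne_zero_iff.2 fun k hk =>
              hf k (Finset.mem_insert_of_mem hk))), ih fun k hk =>
              hf k (Finset.mem_insert_of_mem hk)]
      have h1 : WithZero.log (v Q) = (∑ k ∈ s, (b k : ℤ)) * WithZero.log (v R) +
          ∑ k ∈ sᶜ, (b k : ℤ) * WithZero.log (v (A j - A k)) := by
        rw [hQ, map_mul, WithZero.log_mul ((Valuation.ne_zero_iff v).2 (pow_ne_zero _ hR0))
          ((Valuation.ne_zero_iff v).2 (Finset.prod_ne_zero_iff.2 fun k hk =>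
            pow_ne_zero _ (hsc0 k hk))), hlp sᶜ _ (fun k hk => pow_ne_zero _ (hsc0 k hk)),
          map_pow, WithZero.log_pow, nsmul_eq_mul, Nat.cast_sum]
        congr 1
        refine Finset.sum_congr rfl fun k _ => ?_
        rw [map_pow, WithZero.log_pow, nsmul_eq_mul]
      rw [h1, ← Finset.sum_add_sum_compl s, Finset.sum_mul]
      congr 1
      · refine Finset.sum_congr rfl fun k hk => ?_
        have h2 : v (A j - A k) ≤ v (A j - A i) := by
          rw [← hv, hi]
          exact (hsmem k).1 hk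
        rw [max_eq_right h2, hvR]
      · refine Finset.sum_congr rfl fun k hk => ?_
        have h2 : v (A j - A i) ≤ v (A j - A k) := by
          rw [← hv, hi]
          exact ((hsc k).1 hk).le
        rw [max_eq_left h2]
    have hQl : ¬ (ℓ : ℤ) ∣ WithZero.log (v Q) := by
      rw [hlog]
      exact hram j i hij.symm
    set x' : L := X j / algebraMap M L R with hx'
    have hx'n : ‖x'‖ = 1 := by rw [hx', norm_div, hRLn, ← hr, div_self hrpos.ne']
    have hXk : ∀ k, X k = algebraMap M L R * (x' - algebraMap M L ((A k - A j) / R)) := by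
      intro k
      have h1 : X j - X k = algebraMap M L (A k - A j) := hdiff j k
      rw [mul_sub, hx', mul_div_cancel₀ _ hRL0, ← map_mul, mul_div_cancel₀ _ hR0, ← h1]
      ring
    have hsn : ∀ k ∈ s, ‖X k‖ = r := by
      intro k hk
      refine le_antisymm ?_ (hj k)
      have h1 : X k = X j + algebraMap M L (A j - A k) := by
        rw [← hdiff k j]; ring
      rw [h1]
      refine (IsUltrametricDist.norm_add_le_max _ _).trans ?_
      rw [norm_algebraMap']
      exact max_le le_rfl ((hsmem k).1 hk)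
    have hn1 : ∀ k ∈ s, ‖x' - algebraMap M L ((A k - A j) / R)‖ = 1 := by
      intro k hk
      have h1 := hsn k hk
      rw [hXk k, norm_mul, hRLn] at h1
      exact mul_left_cancel₀ hrpos.ne' (by rw [h1, mul_one])
    have hcc : ∀ k, ∃ c : F, k ∈ s → ‖(A k - A j) / R - algebraMap F M c‖ < 1 := by
      intro k
      by_cases hk : k ∈ s
      · obtain ⟨c, hc⟩ := hres ((A k - A j) / R) (by
          rw [norm_div, hRn, div_le_one hrpos, norm_sub_rev]
          exact (hsmem k).1 hk)
        exact ⟨c, fun _ => hc⟩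
      · exact ⟨0, fun h => absurd h hk⟩
    choose c hc using hcc
    have hn3 : ∀ k ∈ s,
        ‖(x' - algebraMap F L (c k)) - (x' - algebraMap M L ((A k - A j) / R))‖ < 1 := by
      intro k hk
      have h1 : (x' - algebraMap F L (c k)) - (x' - algebraMap M L ((A k - A j) / R)) =
          algebraMap M L ((A k - A j) / R - algebraMap F M (c k)) := by
        rw [map_sub, ← IsScalarTower.algebraMap_apply F M L]
        ring
      rw [h1, norm_algebraMap']
      exact hc k hk
    have hn2 : ∀ k ∈ s, ‖x' - algebraMap F L (c k)‖ = 1 := fun k hk =>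
      norm_eq_one_of_sub (hn1 k hk) (hn3 k hk)
    have hEi : ∀ k ∈ s, sulocE ℓ (x' - algebraMap M L ((A k - A j) / R))
        (x' - algebraMap F L (c k)) := fun k hk =>
      suloc_near p hℓ.ne_zero hcop (by rw [norm_sub_rev, hn2 k hk]; exact hn3 k hk)
    set g : L := (∏ k ∈ s, (x' - algebraMap M L ((A k - A j) / R)) ^ b k) *
      ∏ k ∈ sᶜ, (X k / algebraMap M L (A j - A k)) ^ b k with hg
    have hgn : ‖g‖ = 1 := by
      rw [hg, norm_mul, norm_prod, norm_prod, Finset.prod_eq_one, Finset.prod_eq_one, one_mul]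
      · intro k hk
        have h1 := (hsc k).1 hk
        rw [norm_pow, norm_div, norm_algebraMap', hfarn k h1, div_self
          (hrpos.trans h1).ne', one_pow]
      · intro k hk
        rw [norm_pow, hn1 k hk, one_pow]
    have hQg : algebraMap M L Q * g = w ^ ℓ := by
      rw [← hxX, ← Finset.prod_mul_prod_compl s, hQ, hg, map_mul, map_pow, map_prod,
        mul_mul_mul_comm, ← Finset.prod_mul_distrib, ← Finset.prod_pow_eq_pow_sum,
        ← Finset.prod_mul_distrib]
      congr 1
      · refine Finset.prod_congr rfl fun k _ => ?_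
        rw [← mul_pow, ← hXk k]
      · refine Finset.prod_congr rfl fun k hk => ?_
        have h1 : algebraMap M L (A j - A k) ≠ 0 := by
          rw [Ne, map_eq_zero]
          exact hsc0 k hk
        rw [map_pow, ← mul_pow, mul_div_cancel₀ _ h1]
    obtain ⟨⟨K, hK⟩, hpw⟩ := unit_trick p hres v hv hℓ hcop Q hQ0 hQl x' g w hx'n.le hgn hQg
    have hf0 : ((finrank M L : ℕ) : ZMod ℓ) = 0 := by
      rw [hK, Nat.cast_mul, ZMod.natCast_self, zero_mul]
    refine mem_torsionGroup_of hℓ.ne_zero hA j 0 fun k => ?_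
    rw [pow_zero]
    simp only [one_mul]
    refine suloc_to_pow ?_
    rw [hdX k]
    by_cases hk : k ∈ s
    · rw [hXk k, map_mul, Algebra.norm_algebraMap]
      obtain ⟨z, hz⟩ := hpw (c k) (hn2 k hk)
      have h2 : Algebra.norm M (x' - algebraMap F L (c k)) ≠ 0 := by
        refine Algebra.norm_ne_zero_iff.2 fun h => ?_
        have := hn2 k hk
        rw [h, norm_zero] at this
        exact zero_ne_one this
      have hz0 : z ≠ 0 := by
        rintro rfl
        exact h2 (by rw [hz, zero_pow hℓ.ne_zero])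
      have h3 := suloc_mul (suloc_mod_one (ℓ := ℓ) hR0 hf0)
        (suloc_trans (suloc_norm (M := M) (hEi k hk)) (suloc_of_pow hz0 hz))
      rwa [one_mul] at h3
    · have hk' := Finset.mem_compl.2 hk
      have h1 := suloc_norm (M := M) (hfar k ((hsc k).1 hk'))
      rw [Algebra.norm_algebraMap] at h1
      exact suloc_trans h1 (suloc_mod_one (hsc0 k hk') hf0)
  · -- case 2
    push Not at c1
    set s : Finset (Fin m) := Finset.univ.filter (fun k => ‖A j - A k‖ < r) with hs
    have hsmem : ∀ k, k ∈ s ↔ ‖A j - A k‖ < r := by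
      intro k
      simp [hs]
    have hjs : j ∈ s := by
      rw [hsmem, sub_self, norm_zero]
      exact hrpos
    have hsc : ∀ k, k ∉ s → r < ‖A j - A k‖ := by
      intro k hk
      have hkj : k ≠ j := by
        rintro rfl
        exact hk hjs
      rw [hsmem, not_lt] at hk
      exact lt_of_le_of_ne hk (c1 k hkj).symm
    have hsc0 : ∀ k, k ∉ s → A j - A k ≠ 0 := fun k hk =>
      norm_pos_iff.1 (hrpos.trans (hsc k hk))
    have hβ := hball s j hjs (fun i hi k hk =>
      hvlt _ _ (((hsmem i).1 hi).trans (hsc k hk)))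
    set β : ℕ := ∑ k ∈ s, b k with hβdef
    have hβ0 : (β : ZMod ℓ) ≠ 0 := by
      rw [Ne, ZMod.natCast_eq_zero_iff]
      exact hβ
    set u : ℕ := (-(β : ZMod ℓ)⁻¹).val with hu
    have hu' : (u : ZMod ℓ) = -(β : ZMod ℓ)⁻¹ := by
      rw [hu, ZMod.natCast_val, ZMod.cast_id]
    have hβu : (β : ZMod ℓ) * u = -1 := by
      rw [hu', mul_neg, mul_inv_cancel₀ hβ0]
    set κ : M := ∏ k ∈ sᶜ, (A j - A k) ^ b k with hκ
    have hκ0 : κ ≠ 0 := Finset.prod_ne_zero_iff.2 fun k hk =>
      pow_ne_zero _ (hsc0 k (Finset.mem_compl.1 hk))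
    have hκL0 : algebraMap M L κ ≠ 0 := by rwa [Ne, map_eq_zero]
    have hXs : ∀ k ∈ s, sulocE ℓ (X k) (X j) := by
      intro k hk
      refine suloc_near p hℓ.ne_zero hcop ?_
      rw [hndiff]
      exact (hsmem k).1 hk
    have hmain : sulocE ℓ (X j ^ β * algebraMap M L κ) 1 := by
      have h1 : sulocE ℓ (w ^ ℓ) (X j ^ β * algebraMap M L κ) := by
        rw [← hxX, ← Finset.prod_mul_prod_compl s, hκ, map_prod, hβdef,
          ← Finset.prod_pow_eq_pow_sum]
        refine suloc_mul (suloc_prod _ _ _ fun k hk => suloc_pow (hXs k hk) _)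
          (suloc_prod _ _ _ fun k hk => ?_)
        rw [map_pow]
        exact suloc_pow (hfar k (hsc k (Finset.mem_compl.1 hk))) _
      exact suloc_trans (suloc_symm h1) (suloc_of_pow hw0 rfl)
    have hXj : sulocE ℓ (X j) (algebraMap M L (κ ^ u)) := by
      have h1 := suloc_pow hmain u
      rw [mul_pow, one_pow, ← pow_mul] at h1
      have h2 := suloc_mul h1 (suloc_refl (X j))
      rw [one_mul] at h2
      have h3 : X j ^ (β * u) * algebraMap M L κ ^ u * X j =
          X j ^ (β * u + 1) * algebraMap M L (κ ^ u) := by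
        rw [map_pow, pow_succ]
        ring
      rw [h3] at h2
      have h4 : sulocE ℓ (X j ^ (β * u + 1)) 1 := suloc_mod_one (hX0 j) (by
        push_cast
        rw [hβu, neg_add_cancel])
      have h5 := suloc_mul h4 (suloc_refl (algebraMap M L (κ ^ u)))
      rw [one_mul] at h5
      exact suloc_trans (suloc_symm h2) h5
    set f : ℕ := finrank M L with hf
    have hds : ∀ k ∈ s, sulocE ℓ (d k : M) (κ ^ (u * f)) := by
      intro k hk
      rw [hdX k]
      have h1 := suloc_norm (M := M) (suloc_trans (hXs k hk) hXj)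
      rwa [Algebra.norm_algebraMap, ← pow_mul] at h1
    have hdns : ∀ k, k ∉ s → sulocE ℓ (d k : M) ((A j - A k) ^ f) := by
      intro k hk
      rw [hdX k]
      have h1 := suloc_norm (M := M) (hfar k (hsc k hk))
      rwa [Algebra.norm_algebraMap] at h1
    -- differences
    have hdd : ∀ i ∈ s, ∀ k, k ∉ s → sulocE ℓ (A i - A k) (A j - A k) := by
      intro i hi k hk
      refine suloc_near p hℓ.ne_zero hcop ?_
      have h1 : A i - A k - (A j - A k) = -(A j - A i) := by ring
      rw [h1, norm_neg]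
      exact ((hsmem i).1 hi).trans (hsc k hk)
    have hTs : ∀ i ∈ s, sulocE ℓ ((∏ k ∈ s, torsionTuple A b k i) * κ) 1 := by
      intro i hi
      set P1 : M := ∏ k ∈ s.erase i, (A i - A k) ^ b k with hP1
      set P2 : M := ∏ k ∈ sᶜ, (A i - A k) ^ b k with hP2
      set P1' : M := ∏ k ∈ s.erase i, (A k - A i) ^ b k with hP1'
      have hP10 : P1 ≠ 0 := Finset.prod_ne_zero_iff.2 fun k hk =>
        pow_ne_zero _ (hA0 i k (Finset.ne_of_mem_erase hk).symm)
      have hP20 : P2 ≠ 0 := Finset.prod_ne_zero_iff.2 fun k hk =>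
        pow_ne_zero _ (hA0 i k (by
          rintro rfl
          exact (Finset.mem_compl.1 hk) hi))
      have hT : ∏ k ∈ s, torsionTuple A b k i = (P1 * P2)⁻¹ * P1' := by
        rw [← Finset.mul_prod_erase s _ hi]
        congr 1
        · rw [torsionTuple, if_pos rfl, hP1, hP2]
          congr 1
          rw [← Finset.prod_union]
          · congr 1
            ext k
            simp only [Finset.mem_erase, Finset.mem_univ, and_true, Finset.mem_union,
              Finset.mem_compl]
            constructor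
            · intro h
              by_cases hk : k ∈ s
              · exact Or.inl ⟨h, hk⟩
              · exact Or.inr hk
            · rintro (h | h)
              · exact h.1
              · rintro rfl
                exact h hi
          · rw [Finset.disjoint_left]
            intro k hk hk'
            exact (Finset.mem_compl.1 hk') (Finset.mem_of_mem_erase hk)
        · refine Finset.prod_congr rfl fun k hk => ?_
          rw [torsionTuple, if_neg (Finset.ne_of_mem_erase hk).symm]
      have h1 : sulocE ℓ P1' P1 := suloc_prod _ _ _ fun k _ => suloc_pow (by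
        have := suloc_neg hodd (A i - A k)
        rwa [neg_sub] at this) _
      have h2 : sulocE ℓ P2 κ := suloc_prod _ _ _ fun k hk =>
        suloc_pow (hdd i hi k (Finset.mem_compl.1 hk)) _
      have h3 : sulocE ℓ ((P1 * P2)⁻¹ * P1' * P2 * P1) (1 * P1) := by
        have h4 : (P1 * P2)⁻¹ * P1' * P2 * P1 = P1' := by
          field_simp
        rw [h4, one_mul]
        exact h1
      rw [hT]
      exact suloc_trans (suloc_mul (suloc_refl _) (suloc_symm h2)) (suloc_cancel hP10 h3)
    have hTns : ∀ i, i ∉ s → sulocE ℓ (∏ k ∈ s, torsionTuple A b k i) ((A j - A i) ^ β) := by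
      intro i hi
      rw [hβdef, ← Finset.prod_pow_eq_pow_sum]
      refine suloc_prod _ _ _ fun k hk => ?_
      rw [torsionTuple, if_neg (by
        rintro rfl
        exact hi hk)]
      exact suloc_pow (hdd k hk i hi) _
    have hℓ1 : ((ℓ - 1 : ℕ) : ZMod ℓ) = -1 := by
      rw [Nat.cast_sub hℓ.one_lt.le, ZMod.natCast_self, Nat.cast_one, zero_sub]
    refine suloc_mem hA s ((ℓ - 1) * (u * f)) fun i => ?_
    by_cases hi : i ∈ s
    · have h1 : sulocE ℓ (∏ k ∈ s, torsionTuple A b k i) (κ ^ (ℓ - 1)) := by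
        refine suloc_cancel hκ0 (suloc_trans (hTs i hi) (suloc_symm ?_))
        rw [← pow_succ, Nat.sub_add_cancel hℓ.one_lt.le]
        exact suloc_mod_one hκ0 (ZMod.natCast_self ℓ)
      refine suloc_trans (hds i hi) (suloc_symm ?_)
      refine suloc_trans (suloc_pow h1 _) ?_
      rw [← pow_mul]
      refine suloc_mod hκ0 ?_
      push_cast
      rw [hℓ1]
      ring
    · refine suloc_trans (hdns i hi) (suloc_symm ?_)
      refine suloc_trans (suloc_pow (hTns i hi) _) ?_
      rw [← pow_mul]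
      refine suloc_mod (hsc0 i hi) ?_
      push_cast
      rw [hℓ1]
      linear_combination (-(f : ZMod ℓ)) * hβu

end core

theorem tSuLoc : StmtSuLoc.{u} := by
  classical
  intro F M _ _ _ _ _ _ p _ _ ℓ hℓ hℓ2 hcop hres v hv m hm A hA b hball hram
  refine localImage_le _ _ _ mem_torsionGroup_pow ?_
  intro L _ _ _ x w d hx hd
  let : NontriviallyNormedField L := spectralNorm.nontriviallyNormedField M L
  let : NormedAlgebra M L := spectralNorm.normedAlgebra M L
  have : IsUltrametricDist L :=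
    IsUltrametricDist.isUltrametricDist_of_isNonarchimedean_norm
      (isNonarchimedean_spectralNorm (K := M) (L := L))
  let : Algebra F L := ((algebraMap M L).comp (algebraMap F M)).toAlgebra
  have : IsScalarTower F M L := IsScalarTower.of_algebraMap_eq fun _ => rfl
  exact suloc_core p ℓ hℓ hℓ2 hcop hres v hv m hm A hA b hball hram x w d hx hd

end MP72e2e6
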