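import Pool.Agent.Lib.MP_72e2e6_nt.PgStmt
import Pool.Agent.Lib.MP_72e2e6_nt.SuLoc

/-!
# MP_72e2e6_nt: uniform tameness, the local lemma
-/

namespace MP72e2e6

open Polynomial IntermediateField Module

universe u

theorem pgloc_neg {K : Type*} [Field K] {ℓ : ℕ} (hℓ : ℓ ≠ 0) {z₀ : K} (h : z₀ ^ ℓ = -1) (x : K) :
    sulocE ℓ (-x) x := by
  refine ⟨z₀, ?_, by rw [h, mul_neg_one]⟩
  rintro rfl
  rw [zero_pow hℓ] at h
  exact neg_ne_zero.2 (one_ne_zero (α := K)) h.symm

theorem pgloc_log {M : Type*} [Field M] (v : Valuation M (WithZero (Multiplicative ℤ)))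
    {ι : Type*} (T : Finset ι) (f : ι → M) (hf : ∀ k ∈ T, f k ≠ 0) :
    WithZero.log (v (∏ k ∈ T, f k)) = ∑ k ∈ T, WithZero.log (v (f k)) := by
  classical
  induction T using Finset.induction_on with
  | empty => simp
  | insert a T ha ih =>
    rw [Finset.prod_insert ha, Finset.sum_insert ha, map_mul, WithZero.log_mul
      ((Valuation.ne_zero_iff v).2 (hf a (Finset.mem_insert_self _ _)))
      ((Valuation.ne_zero_iff v).2 (Finset.prod_ne_zero_iff.2 fun k hk =>
        hf k (Finset.mem_insert_of_mem hk))), ih fun k hk =>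
        hf k (Finset.mem_insert_of_mem hk)]

section core

variable {F : Type*} [Field F] [Finite F]
  {M : Type u} [NontriviallyNormedField M] [IsUltrametricDist M] [CompleteSpace M] [Algebra F M]
  {L : Type u} [NontriviallyNormedField L] [IsUltrametricDist L]
  [NormedAlgebra M L] [FiniteDimensional M L] [Algebra F L] [IsScalarTower F M L]

theorem pgloc_core (hNrm : StmtPgNrm.{u}) (p : ℕ) [Fact p.Prime] [CharP F p] (ℓ : ℕ)
    (hℓ : ℓ.Prime) (hcop : ℓ.Coprime p) (z₀ : M) (hz₀ : z₀ ^ ℓ = -1)
    (hres : ∀ y : M, ‖y‖ ≤ 1 → ∃ α : F, ‖y - algebraMap F M α‖ < 1)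
    (v : Valuation M (WithZero (Multiplicative ℤ))) (hv : ∀ x y : M, ‖x‖ ≤ ‖y‖ ↔ v x ≤ v y)
    (m : ℕ) (hm : 0 < m) (A : Fin m → M) (hA : Function.Injective A) (b : Fin m → ℕ)
    (hb : ∀ i, ¬ ℓ ∣ b i)
    (hram : ∀ j i, j ≠ i →
      ¬ (ℓ : ℤ) ∣ ∑ k, (b k : ℤ) * WithZero.log (max (v (A j - A k)) (v (A j - A i))))
    (x w : L) (d : Fin m → Mˣ)
    (hx : ∏ i, (x - algebraMap M L (A i)) ^ (b i) = w ^ ℓ)
    (hd : ∀ i, (d i : M) = Algebra.norm M (x - algebraMap M L (A i))) :
    d ∈ torsionGroup ℓ A b := by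
  classical
  haveI : Fact ℓ.Prime := ⟨hℓ⟩
  have hcompl : CompleteSpace L := FiniteDimensional.complete M L
  have hcharL : CharP L p := charP_of_injective_algebraMap (algebraMap F L).injective p
  have hcharM : CharP M p := charP_of_injective_algebraMap (algebraMap F M).injective p
  have hvlt : ∀ x y : M, ‖x‖ < ‖y‖ → v x < v y := by
    intro x y h
    rw [← not_le, ← hv, not_le]
    exact h
  set X : Fin m → L := fun i => x - algebraMap M L (A i) with hX
  have hdX : ∀ i, (d i : M) = Algebra.norm M (X i) := hd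
  have hxX : ∏ i, X i ^ b i = w ^ ℓ := hx
  have hX0 : ∀ i, X i ≠ 0 := by
    intro i h0
    have h1 := (d i).ne_zero
    rw [hdX i, h0] at h1
    exact h1 (Algebra.norm_zero)
  have hw0 : w ≠ 0 := by
    rintro rfl
    have h1 : ∏ i, X i ^ b i ≠ 0 := Finset.prod_ne_zero_iff.2 fun i _ => pow_ne_zero _ (hX0 i)
    exact h1 (by rw [hxX, zero_pow hℓ.ne_zero])
  have hdiff : ∀ i l, X i - X l = algebraMap M L (A l - A i) := by
    intro i l
    simp only [hX, map_sub]
    ring
  have hndiff : ∀ i l, ‖X i - X l‖ = ‖A l - A i‖ := by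
    intro i l
    rw [hdiff, norm_algebraMap']
  have hA0 : ∀ i l, i ≠ l → A i - A l ≠ 0 := fun i l h => sub_ne_zero.2 fun h' => h (hA h')
  obtain ⟨j, -, hj⟩ := Finset.exists_min_image (Finset.univ : Finset (Fin m)) (fun i => ‖X i‖)
    ⟨⟨0, hm⟩, Finset.mem_univ _⟩
  replace hj : ∀ i, ‖X j‖ ≤ ‖X i‖ := fun i => hj i (Finset.mem_univ _)
  set r : ℝ := ‖X j‖ with hr
  have hrpos : 0 < r := norm_pos_iff.2 (hX0 j)
  -- points far from `A j`
  have hfar : ∀ k, r < ‖A j - A k‖ → sulocE ℓ (X k) (algebraMap M L (A j - A k)) := by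
    intro k hk
    refine suloc_near p hℓ.ne_zero hcop ?_
    have h1 : X k - algebraMap M L (A j - A k) = X j := by
      rw [← hdiff k j]; ring
    rw [h1, norm_algebraMap']
    exact hk
  have hfarn : ∀ k, r < ‖A j - A k‖ → ‖X k‖ = ‖A j - A k‖ := by
    intro k hk
    have h1 : X k = X j + algebraMap M L (A j - A k) := by
      rw [← hdiff k j]; ring
    rw [h1, IsUltrametricDist.norm_add_eq_max_of_norm_ne_norm (by
      rw [norm_algebraMap']; exact hk.ne), norm_algebraMap', max_eq_right hk.le]
  by_cases c1 : ∃ i, i ≠ j ∧ ‖A j - A i‖ = r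
  · -- case 1
    obtain ⟨i, hij, hi⟩ := c1
    set R : M := A i - A j with hR
    have hR0 : R ≠ 0 := hA0 i j hij
    have hRn : ‖R‖ = r := by rw [hR, norm_sub_rev]; exact hi
    have hRL0 : algebraMap M L R ≠ 0 := by rwa [Ne, map_eq_zero]
    have hRLn : ‖algebraMap M L R‖ = r := by rw [norm_algebraMap', hRn]
    set s : Finset (Fin m) := Finset.univ.filter (fun k => ‖A j - A k‖ ≤ r) with hs
    have hsmem : ∀ k, k ∈ s ↔ ‖A j - A k‖ ≤ r := by
      intro k
      simp [hs]
    set Q : M := R ^ (∑ k ∈ s, b k) * ∏ k ∈ sᶜ, (A j - A k) ^ b k with hQ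
    have hsc : ∀ k, k ∈ sᶜ ↔ r < ‖A j - A k‖ := by
      intro k
      rw [Finset.mem_compl, hsmem, not_le]
    have hsc0 : ∀ k, k ∈ sᶜ → A j - A k ≠ 0 := by
      intro k hk
      have := (hsc k).1 hk
      exact norm_pos_iff.1 (hrpos.trans this)
    have hQ0 : Q ≠ 0 := mul_ne_zero (pow_ne_zero _ hR0)
      (Finset.prod_ne_zero_iff.2 fun k hk => pow_ne_zero _ (hsc0 k hk))
    have hlog : WithZero.log (v Q) =
        ∑ k, (b k : ℤ) * WithZero.log (max (v (A j - A k)) (v (A j - A i))) := by
      have hvR : v R = v (A j - A i) := by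
        rw [hR, ← Valuation.map_neg, neg_sub]
      have hvR0 : v R ≠ 0 := (Valuation.ne_zero_iff v).2 hR0
      have hlp : ∀ (T : Finset (Fin m)) (f : Fin m → M), (∀ k ∈ T, f k ≠ 0) →
          WithZero.log (v (∏ k ∈ T, f k)) = ∑ k ∈ T, WithZero.log (v (f k)) := by
        intro T f
        induction T using Finset.induction_on with
        | empty => intro _; simp
        | insert a T ha ih =>
          intro hf
          rw [Finset.prod_insert ha, Finset.sum_insert ha, map_mul, WithZero.log_mul
            ((Valuation.ne_zero_iff v).2 (hf a (Finset.mem_insert_self _ _)))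
            ((Valuation.ne_zero_iff v).2 (Finset.prod_ne_zero_iff.2 fun k hk =>
              hf k (Finset.mem_insert_of_mem hk))), ih fun k hk =>
              hf k (Finset.mem_insert_of_mem hk)]
      have h1 : WithZero.log (v Q) = (∑ k ∈ s, (b k : ℤ)) * WithZero.log (v R) +
          ∑ k ∈ sᶜ, (b k : ℤ) * WithZero.log (v (A j - A k)) := by
        rw [hQ, map_mul, WithZero.log_mul ((Valuation.ne_zero_iff v).2 (pow_ne_zero _ hR0))
          ((Valuation.ne_zero_iff v).2 (Finset.prod_ne_zero_iff.2 fun k hk =>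
            pow_ne_zero _ (hsc0 k hk))), hlp sᶜ _ (fun k hk => pow_ne_zero _ (hsc0 k hk)),
          map_pow, WithZero.log_pow, nsmul_eq_mul, Nat.cast_sum]
        congr 1
        refine Finset.sum_congr rfl fun k _ => ?_
        rw [map_pow, WithZero.log_pow, nsmul_eq_mul]
      rw [h1, ← Finset.sum_add_sum_compl s, Finset.sum_mul]
      congr 1
      · refine Finset.sum_congr rfl fun k hk => ?_
        have h2 : v (A j - A k) ≤ v (A j - A i) := by
          rw [← hv, hi]
          exact (hsmem k).1 hk
        rw [max_eq_right h2, hvR]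
      · refine Finset.sum_congr rfl fun k hk => ?_
        have h2 : v (A j - A i) ≤ v (A j - A k) := by
          rw [← hv, hi]
          exact ((hsc k).1 hk).le
        rw [max_eq_left h2]
    have hQl : ¬ (ℓ : ℤ) ∣ WithZero.log (v Q) := by
      rw [hlog]
      exact hram j i hij.symm
    set x' : L := X j / algebraMap M L R with hx'
    have hx'n : ‖x'‖ = 1 := by rw [hx', norm_div, hRLn, ← hr, div_self hrpos.ne']
    have hXk : ∀ k, X k = algebraMap M L R * (x' - algebraMap M L ((A k - A j) / R)) := by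
      intro k
      have h1 : X j - X k = algebraMap M L (A k - A j) := hdiff j k
      rw [mul_sub, hx', mul_div_cancel₀ _ hRL0, ← map_mul, mul_div_cancel₀ _ hR0, ← h1]
      ring
    have hsn : ∀ k ∈ s, ‖X k‖ = r := by
      intro k hk
      refine le_antisymm ?_ (hj k)
      have h1 : X k = X j + algebraMap M L (A j - A k) := by
        rw [← hdiff k j]; ring
      rw [h1]
      refine (IsUltrametricDist.norm_add_le_max _ _).trans ?_
      rw [norm_algebraMap']
      exact max_le le_rfl ((hsmem k).1 hk)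
    have hn1 : ∀ k ∈ s, ‖x' - algebraMap M L ((A k - A j) / R)‖ = 1 := by
      intro k hk
      have h1 := hsn k hk
      rw [hXk k, norm_mul, hRLn] at h1
      exact mul_left_cancel₀ hrpos.ne' (by rw [h1, mul_one])
    have hcc : ∀ k, ∃ c : F, k ∈ s → ‖(A k - A j) / R - algebraMap F M c‖ < 1 := by
      intro k
      by_cases hk : k ∈ s
      · obtain ⟨c, hc⟩ := hres ((A k - A j) / R) (by
          rw [norm_div, hRn, div_le_one hrpos, norm_sub_rev]
          exact (hsmem k).1 hk)
        exact ⟨c, fun _ => hc⟩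
      · exact ⟨0, fun h => absurd h hk⟩
    choose c hc using hcc
    have hn3 : ∀ k ∈ s,
        ‖(x' - algebraMap F L (c k)) - (x' - algebraMap M L ((A k - A j) / R))‖ < 1 := by
      intro k hk
      have h1 : (x' - algebraMap F L (c k)) - (x' - algebraMap M L ((A k - A j) / R)) =
          algebraMap M L ((A k - A j) / R - algebraMap F M (c k)) := by
        rw [map_sub, ← IsScalarTower.algebraMap_apply F M L]
        ring
      rw [h1, norm_algebraMap']
      exact hc k hk
    have hn2 : ∀ k ∈ s, ‖x' - algebraMap F L (c k)‖ = 1 := fun k hk =>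
      norm_eq_one_of_sub (hn1 k hk) (hn3 k hk)
    have hEi : ∀ k ∈ s, sulocE ℓ (x' - algebraMap M L ((A k - A j) / R))
        (x' - algebraMap F L (c k)) := fun k hk =>
      suloc_near p hℓ.ne_zero hcop (by rw [norm_sub_rev, hn2 k hk]; exact hn3 k hk)
    set g : L := (∏ k ∈ s, (x' - algebraMap M L ((A k - A j) / R)) ^ b k) *
      ∏ k ∈ sᶜ, (X k / algebraMap M L (A j - A k)) ^ b k with hg
    have hgn : ‖g‖ = 1 := by
      rw [hg, norm_mul, norm_prod, norm_prod, Finset.prod_eq_one, Finset.prod_eq_one, one_mul]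
      · intro k hk
        have h1 := (hsc k).1 hk
        rw [norm_pow, norm_div, norm_algebraMap', hfarn k h1, div_self
          (hrpos.trans h1).ne', one_pow]
      · intro k hk
        rw [norm_pow, hn1 k hk, one_pow]
    have hQg : algebraMap M L Q * g = w ^ ℓ := by
      rw [← hxX, ← Finset.prod_mul_prod_compl s, hQ, hg, map_mul, map_pow, map_prod,
        mul_mul_mul_comm, ← Finset.prod_mul_distrib, ← Finset.prod_pow_eq_pow_sum,
        ← Finset.prod_mul_distrib]
      congr 1
      · refine Finset.prod_congr rfl fun k _ => ?_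
        rw [← mul_pow, ← hXk k]
      · refine Finset.prod_congr rfl fun k hk => ?_
        have h1 : algebraMap M L (A j - A k) ≠ 0 := by
          rw [Ne, map_eq_zero]
          exact hsc0 k hk
        rw [map_pow, ← mul_pow, mul_div_cancel₀ _ h1]
    obtain ⟨⟨K, hK⟩, hpw⟩ := unit_trick p hres v hv hℓ hcop Q hQ0 hQl x' g w hx'n.le hgn hQg
    have hf0 : ((finrank M L : ℕ) : ZMod ℓ) = 0 := by
      rw [hK, Nat.cast_mul, ZMod.natCast_self, zero_mul]
    refine mem_torsionGroup_of hℓ.ne_zero hA j 0 fun k => ?_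
    rw [pow_zero]
    simp only [one_mul]
    refine suloc_to_pow ?_
    rw [hdX k]
    by_cases hk : k ∈ s
    · rw [hXk k, map_mul, Algebra.norm_algebraMap]
      obtain ⟨z, hz⟩ := hpw (c k) (hn2 k hk)
      have h2 : Algebra.norm M (x' - algebraMap F L (c k)) ≠ 0 := by
        refine Algebra.norm_ne_zero_iff.2 fun h => ?_
        have := hn2 k hk
        rw [h, norm_zero] at this
        exact zero_ne_one this
      have hz0 : z ≠ 0 := by
        rintro rfl
        exact h2 (by rw [hz, zero_pow hℓ.ne_zero])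
      have h3 := suloc_mul (suloc_mod_one (ℓ := ℓ) hR0 hf0)
        (suloc_trans (suloc_norm (M := M) (hEi k hk)) (suloc_of_pow hz0 hz))
      rwa [one_mul] at h3
    · have hk' := Finset.mem_compl.2 hk
      have h1 := suloc_norm (M := M) (hfar k ((hsc k).1 hk'))
      rw [Algebra.norm_algebraMap] at h1
      exact suloc_trans h1 (suloc_mod_one (hsc0 k hk') hf0)
  · -- case 2
    push Not at c1
    set s : Finset (Fin m) := Finset.univ.filter (fun k => ‖A j - A k‖ < r) with hs
    have hsmem : ∀ k, k ∈ s ↔ ‖A j - A k‖ < r := by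
      intro k
      simp [hs]
    have hjs : j ∈ s := by
      rw [hsmem, sub_self, norm_zero]
      exact hrpos
    have hsc : ∀ k, k ∉ s → r < ‖A j - A k‖ := by
      intro k hk
      have hkj : k ≠ j := by
        rintro rfl
        exact hk hjs
      rw [hsmem, not_lt] at hk
      exact lt_of_le_of_ne hk (c1 k hkj).symm
    have hsc0 : ∀ k, k ∉ s → A j - A k ≠ 0 := fun k hk =>
      norm_pos_iff.1 (hrpos.trans (hsc k hk))
    set β : ℕ := ∑ k ∈ s, b k with hβdef
    set κ : M := ∏ k ∈ sᶜ, (A j - A k) ^ b k with hκ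
    have hκ0 : κ ≠ 0 := Finset.prod_ne_zero_iff.2 fun k hk =>
      pow_ne_zero _ (hsc0 k (Finset.mem_compl.1 hk))
    have hκL0 : algebraMap M L κ ≠ 0 := by rwa [Ne, map_eq_zero]
    have hXs : ∀ k ∈ s, sulocE ℓ (X k) (X j) := by
      intro k hk
      refine suloc_near p hℓ.ne_zero hcop ?_
      rw [hndiff]
      exact (hsmem k).1 hk
    have hmain : sulocE ℓ (X j ^ β * algebraMap M L κ) 1 := by
      have h1 : sulocE ℓ (w ^ ℓ) (X j ^ β * algebraMap M L κ) := by
        rw [← hxX, ← Finset.prod_mul_prod_compl s, hκ, map_prod, hβdef,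
          ← Finset.prod_pow_eq_pow_sum]
        refine suloc_mul (suloc_prod _ _ _ fun k hk => suloc_pow (hXs k hk) _)
          (suloc_prod _ _ _ fun k hk => ?_)
        rw [map_pow]
        exact suloc_pow (hfar k (hsc k (Finset.mem_compl.1 hk))) _
      exact suloc_trans (suloc_symm h1) (suloc_of_pow hw0 rfl)
    set f : ℕ := finrank M L with hf
    have hdns : ∀ k, k ∉ s → sulocE ℓ (d k : M) ((A j - A k) ^ f) := by
      intro k hk
      rw [hdX k]
      have h1 := suloc_norm (M := M) (hfar k (hsc k hk))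
      rwa [Algebra.norm_algebraMap] at h1
    -- differences
    have hdd : ∀ i ∈ s, ∀ k, k ∉ s → sulocE ℓ (A i - A k) (A j - A k) := by
      intro i hi k hk
      refine suloc_near p hℓ.ne_zero hcop ?_
      have h1 : A i - A k - (A j - A k) = -(A j - A i) := by ring
      rw [h1, norm_neg]
      exact ((hsmem i).1 hi).trans (hsc k hk)
    have hTs : ∀ i ∈ s, sulocE ℓ ((∏ k ∈ s, torsionTuple A b k i) * κ) 1 := by
      intro i hi
      set P1 : M := ∏ k ∈ s.erase i, (A i - A k) ^ b k with hP1
      set P2 : M := ∏ k ∈ sᶜ, (A i - A k) ^ b k with hP2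
      set P1' : M := ∏ k ∈ s.erase i, (A k - A i) ^ b k with hP1'
      have hP10 : P1 ≠ 0 := Finset.prod_ne_zero_iff.2 fun k hk =>
        pow_ne_zero _ (hA0 i k (Finset.ne_of_mem_erase hk).symm)
      have hP20 : P2 ≠ 0 := Finset.prod_ne_zero_iff.2 fun k hk =>
        pow_ne_zero _ (hA0 i k (by
          rintro rfl
          exact (Finset.mem_compl.1 hk) hi))
      have hT : ∏ k ∈ s, torsionTuple A b k i = (P1 * P2)⁻¹ * P1' := by
        rw [← Finset.mul_prod_erase s _ hi]
        congr 1
        · rw [torsionTuple, if_pos rfl, hP1, hP2]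
          congr 1
          rw [← Finset.prod_union]
          · congr 1
            ext k
            simp only [Finset.mem_erase, Finset.mem_univ, and_true, Finset.mem_union,
              Finset.mem_compl]
            constructor
            · intro h
              by_cases hk : k ∈ s
              · exact Or.inl ⟨h, hk⟩
              · exact Or.inr hk
            · rintro (h | h)
              · exact h.1
              · rintro rfl
                exact h hi
          · rw [Finset.disjoint_left]
            intro k hk hk'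
            exact (Finset.mem_compl.1 hk') (Finset.mem_of_mem_erase hk)
        · refine Finset.prod_congr rfl fun k hk => ?_
          rw [torsionTuple, if_neg (Finset.ne_of_mem_erase hk).symm]
      have h1 : sulocE ℓ P1' P1 := suloc_prod _ _ _ fun k _ => suloc_pow (by
        have := pgloc_neg hℓ.ne_zero hz₀ (A i - A k)
        rwa [neg_sub] at this) _
      have h2 : sulocE ℓ P2 κ := suloc_prod _ _ _ fun k hk =>
        suloc_pow (hdd i hi k (Finset.mem_compl.1 hk)) _
      have h3 : sulocE ℓ ((P1 * P2)⁻¹ * P1' * P2 * P1) (1 * P1) := by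
        have h4 : (P1 * P2)⁻¹ * P1' * P2 * P1 = P1' := by
          field_simp
        rw [h4, one_mul]
        exact h1
      rw [hT]
      exact suloc_trans (suloc_mul (suloc_refl _) (suloc_symm h2)) (suloc_cancel hP10 h3)
    have hTns : ∀ i, i ∉ s → sulocE ℓ (∏ k ∈ s, torsionTuple A b k i) ((A j - A i) ^ β) := by
      intro i hi
      rw [hβdef, ← Finset.prod_pow_eq_pow_sum]
      refine suloc_prod _ _ _ fun k hk => ?_
      rw [torsionTuple, if_neg (by
        rintro rfl
        exact hi hk)]
      exact suloc_pow (hdd k hk i hi) _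
    have hℓ1 : ((ℓ - 1 : ℕ) : ZMod ℓ) = -1 := by
      rw [Nat.cast_sub hℓ.one_lt.le, ZMod.natCast_self, Nat.cast_one, zero_sub]
    have hTs' : ∀ i ∈ s, sulocE ℓ (∏ k ∈ s, torsionTuple A b k i) (κ ^ (ℓ - 1)) := by
      intro i hi
      refine suloc_cancel hκ0 (suloc_trans (hTs i hi) (suloc_symm ?_))
      rw [← pow_succ, Nat.sub_add_cancel hℓ.one_lt.le]
      exact suloc_mod_one hκ0 (ZMod.natCast_self ℓ)
    by_cases hβ : ℓ ∣ β
    · have hβ0 : (β : ZMod ℓ) = 0 := (ZMod.natCast_eq_zero_iff _ _).2 hβ
      -- `κ` is an `ℓ`-th power in `L`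
      obtain ⟨s₀, hs₀⟩ : ∃ s₀ : L, algebraMap M L κ = s₀ ^ ℓ := by
        refine suloc_to_pow ?_
        have h2 := suloc_mul (suloc_mod_one (hX0 j) hβ0) (suloc_refl (ℓ := ℓ) (algebraMap M L κ))
        rw [one_mul] at h2
        exact suloc_trans (suloc_symm h2) hmain
      have hne : (s.erase j).Nonempty := by
        rw [Finset.nonempty_iff_ne_empty]
        intro h0
        have h2 : s = {j} := by
          rw [← Finset.insert_erase hjs, h0]
          rfl
        exact hb j (by rw [hβdef, h2, Finset.sum_singleton] at hβ; exact hβ)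
      obtain ⟨i, hi, himax⟩ := Finset.exists_max_image (s.erase j) (fun i => ‖A j - A i‖) hne
      have hij : i ≠ j := Finset.ne_of_mem_erase hi
      have his : i ∈ s := Finset.mem_of_mem_erase hi
      have hlogκ : WithZero.log (v κ) =
          ∑ k ∈ sᶜ, (b k : ℤ) * WithZero.log (v (A j - A k)) := by
        rw [hκ, pgloc_log v sᶜ _ (fun k hk => pow_ne_zero _ (hsc0 k (Finset.mem_compl.1 hk)))]
        refine Finset.sum_congr rfl fun k _ => ?_
        rw [map_pow, WithZero.log_pow, nsmul_eq_mul]
      have hsum : ∑ k, (b k : ℤ) * WithZero.log (max (v (A j - A k)) (v (A j - A i))) =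
          (β : ℤ) * WithZero.log (v (A j - A i)) + WithZero.log (v κ) := by
        rw [hlogκ, ← Finset.sum_add_sum_compl s, hβdef, Nat.cast_sum, Finset.sum_mul]
        congr 1
        · refine Finset.sum_congr rfl fun k hk => ?_
          have h2 : v (A j - A k) ≤ v (A j - A i) := by
            rw [← hv]
            by_cases hkj : k = j
            · rw [hkj, sub_self, norm_zero]
              exact norm_nonneg _
            · exact himax k (Finset.mem_erase.2 ⟨hkj, hk⟩)
          rw [max_eq_right h2]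
        · refine Finset.sum_congr rfl fun k hk => ?_
          have h2 : v (A j - A i) ≤ v (A j - A k) := by
            rw [← hv]
            exact (((hsmem i).1 his).trans (hsc k (Finset.mem_compl.1 hk))).le
          rw [max_eq_left h2]
      have hnd : ¬ (ℓ : ℤ) ∣ WithZero.log (v κ) := by
        intro h2
        refine hram j i hij.symm ?_
        rw [hsum]
        exact dvd_add (Dvd.dvd.mul_right (Int.natCast_dvd_natCast.2 hβ) _) h2
      obtain ⟨hfdvd, hN⟩ := hNrm M L p ℓ hℓ hcop v hv κ z₀ hκ0 hnd hz₀ s₀ hs₀.symm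
      obtain ⟨n, z, hz, hNj⟩ := hN (X j) (hX0 j)
      have hf0 : (f : ZMod ℓ) = 0 := (ZMod.natCast_eq_zero_iff _ _).2 hfdvd
      have hds : ∀ k ∈ s, sulocE ℓ (d k : M) (κ ^ n) := by
        intro k hk
        rw [hdX k]
        exact suloc_trans (suloc_norm (M := M) (hXs k hk)) ⟨z, hz, hNj⟩
      refine suloc_mem hA s ((ℓ - 1) * n) fun i => ?_
      by_cases hi : i ∈ s
      · refine suloc_trans (hds i hi) (suloc_symm ?_)
        refine suloc_trans (suloc_pow (hTs' i hi) _) ?_
        rw [← pow_mul]
        refine suloc_mod hκ0 ?_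
        push_cast
        rw [hℓ1]
        ring
      · refine suloc_trans (hdns i hi) (suloc_symm ?_)
        refine suloc_trans (suloc_pow (hTns i hi) _) ?_
        rw [← pow_mul]
        refine suloc_mod (hsc0 i hi) ?_
        push_cast
        rw [hβ0, hf0, zero_mul]
    · have hβ0 : (β : ZMod ℓ) ≠ 0 := by
        rw [Ne, ZMod.natCast_eq_zero_iff]
        exact hβ
      set u : ℕ := (-(β : ZMod ℓ)⁻¹).val with hu
      have hu' : (u : ZMod ℓ) = -(β : ZMod ℓ)⁻¹ := by
        rw [hu, ZMod.natCast_val, ZMod.cast_id]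
      have hβu : (β : ZMod ℓ) * u = -1 := by
        rw [hu', mul_neg, mul_inv_cancel₀ hβ0]
      have hXj : sulocE ℓ (X j) (algebraMap M L (κ ^ u)) := by
        have h1 := suloc_pow hmain u
        rw [mul_pow, one_pow, ← pow_mul] at h1
        have h2 := suloc_mul h1 (suloc_refl (X j))
        rw [one_mul] at h2
        have h3 : X j ^ (β * u) * algebraMap M L κ ^ u * X j =
            X j ^ (β * u + 1) * algebraMap M L (κ ^ u) := by
          rw [map_pow, pow_succ]
          ring
        rw [h3] at h2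
        have h4 : sulocE ℓ (X j ^ (β * u + 1)) 1 := suloc_mod_one (hX0 j) (by
          push_cast
          rw [hβu, neg_add_cancel])
        have h5 := suloc_mul h4 (suloc_refl (algebraMap M L (κ ^ u)))
        rw [one_mul] at h5
        exact suloc_trans (suloc_symm h2) h5
      have hds : ∀ k ∈ s, sulocE ℓ (d k : M) (κ ^ (u * f)) := by
        intro k hk
        rw [hdX k]
        have h1 := suloc_norm (M := M) (suloc_trans (hXs k hk) hXj)
        rwa [Algebra.norm_algebraMap, ← pow_mul] at h1
      refine suloc_mem hA s ((ℓ - 1) * (u * f)) fun i => ?_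
      by_cases hi : i ∈ s
      · have h1 : sulocE ℓ (∏ k ∈ s, torsionTuple A b k i) (κ ^ (ℓ - 1)) := by
          refine suloc_cancel hκ0 (suloc_trans (hTs i hi) (suloc_symm ?_))
          rw [← pow_succ, Nat.sub_add_cancel hℓ.one_lt.le]
          exact suloc_mod_one hκ0 (ZMod.natCast_self ℓ)
        refine suloc_trans (hds i hi) (suloc_symm ?_)
        refine suloc_trans (suloc_pow h1 _) ?_
        rw [← pow_mul]
        refine suloc_mod hκ0 ?_
        push_cast
        rw [hℓ1]
        ring
      · refine suloc_trans (hdns i hi) (suloc_symm ?_)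
        refine suloc_trans (suloc_pow (hTns i hi) _) ?_
        rw [← pow_mul]
        refine suloc_mod (hsc0 i hi) ?_
        push_cast
        rw [hℓ1]
        linear_combination (-(f : ZMod ℓ)) * hβu

end core

theorem tPgLoc (h1 : StmtPgNrm.{u}) : StmtPgLoc.{u} := by
  classical
  intro F M _ _ _ _ _ _ p _ _ ℓ hℓ hcop z₀ hz₀ hres v hv m hm A hA b hb hram
  refine localImage_le _ _ _ mem_torsionGroup_pow ?_
  intro L _ _ _ x w d hx hd
  let : NontriviallyNormedField L := spectralNorm.nontriviallyNormedField M L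
  let : NormedAlgebra M L := spectralNorm.normedAlgebra M L
  have : IsUltrametricDist L :=
    IsUltrametricDist.isUltrametricDist_of_isNonarchimedean_norm
      (isNonarchimedean_spectralNorm (K := M) (L := L))
  let : Algebra F L := ((algebraMap M L).comp (algebraMap F M)).toAlgebra
  have : IsScalarTower F M L := IsScalarTower.of_algebraMap_eq fun _ => rfl
  exact pgloc_core h1 p ℓ hℓ hcop z₀ hz₀ hres v hv m hm A hA b hb hram x w d hx hd

end MP72e2e6
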