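import Pool.Agent.Lib.MP_72e2e6_nt.PgStmt
import Pool.Agent.Lib.MP_72e2e6_nt.SuLocF

/-!
# MP_72e2e6_nt: uniform tameness, local images at the finite places
-/

set_option autoImplicit false

namespace MP72e2e6

open Polynomial IsDedekindDomain WithZero

universe u

/-- the hypothesis of the local lemma from `Tam` -/
theorem pglocf_tame {ℓ m : ℕ} {b : Fin m → ℕ} {w : Fin m → Fin m → ℤ} {e : ℤ}
    (hT : Tam ℓ b w e) (D : Fin m → Fin m → WithZero (Multiplicative ℤ))
    (h0 : ∀ i, D i i = 0) (hne : ∀ i k, i ≠ k → D i k ≠ 0)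
    (hD : ∀ i k, i ≠ k → WithZero.log (D i k) = -(e + w i k)) :
    (∀ j i, j ≠ i →
      ¬ (ℓ : ℤ) ∣ ∑ k, (b k : ℤ) * WithZero.log (max (D j k) (D j i))) := by
  intro j i hji
  have h1 : ∀ k, WithZero.log (max (D j k) (D j i)) =
      -(e + (if k = j then w j i else min (w j k) (w j i))) := by
    intro k
    by_cases hk : k = j
    · subst hk
      rw [if_pos rfl, h0, max_eq_right zero_le, hD k i hji]
    · rw [if_neg hk]
      have hjk : j ≠ k := fun h => hk h.symm
      rcases le_total (D j k) (D j i) with h | h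
      · have h2 := (WithZero.log_le_log (hne j k hjk) (hne j i hji)).2 h
        rw [max_eq_right h, hD j i hji]
        rw [hD j k hjk, hD j i hji] at h2
        rw [min_eq_right (by omega)]
      · have h2 := (WithZero.log_le_log (hne j i hji) (hne j k hjk)).2 h
        rw [max_eq_left h, hD j k hjk]
        rw [hD j k hjk, hD j i hji] at h2
        rw [min_eq_left (by omega)]
  have h2 : ∑ k, (b k : ℤ) * WithZero.log (max (D j k) (D j i)) =
      -(e * (∑ k, (b k : ℤ)) + lev b w j i) := by
    unfold lev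
    rw [Finset.mul_sum, ← Finset.sum_add_distrib, ← Finset.sum_neg_distrib]
    refine Finset.sum_congr rfl fun k _ => ?_
    rw [h1 k]
    ring
  rw [h2, dvd_neg]
  exact hT j i hji

theorem tPgLocF (h1 : StmtPgLocV.{u}) : StmtPgLocF.{u} := by
  intro F _ _ ℓ hℓ hdvd hz m hm E hE a ha b hb v P hmon hP hv hT d hd
  obtain ⟨z, hz⟩ := hz
  -- the characteristic
  obtain ⟨p, hp⟩ := CharP.exists F
  have := Fintype.ofFinite F
  obtain ⟨r, hprime, hcard⟩ := FiniteField.card F p
  have : Fact p.Prime := ⟨hprime⟩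
  rw [← Nat.card_eq_fintype_card] at hcard
  have hcop : ℓ.Coprime p := by
    rw [Nat.coprime_primes hℓ hprime]
    rintro rfl
    rw [hcard] at hdvd
    have h1 : ℓ ∣ ℓ ^ (r : ℕ) := dvd_pow_self _ r.pos.ne'
    have h2 : 1 ≤ ℓ ^ (r : ℕ) := Nat.one_le_pow _ _ hℓ.pos
    have h3 : ℓ ∣ 1 := by
      have := Nat.dvd_sub h1 hdvd
      rwa [Nat.sub_sub_self h2] at this
    exact hℓ.one_lt.ne' (Nat.dvd_one.1 h3)
  have : CharP (v.adicCompletion (RatFunc F)) p :=
    charP_of_injective_ringHom (f := (algebraMap (RatFunc F) (v.adicCompletion (RatFunc F))).comp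
      (algebraMap F (RatFunc F))) (RingHom.injective _) p
  have hdeg : P.natDegree ≠ 0 := hP.natDegree_pos.ne'
  have hN : (r : ℕ) * P.natDegree ≠ 0 := Nat.mul_ne_zero r.pos.ne' hdeg
  have hQ : p ^ ((r : ℕ) * P.natDegree) = Nat.card F ^ P.natDegree := by
    rw [hcard, pow_mul]
  -- injectivity
  have hptsInj : Function.Injective (pts E a) := by
    intro i j hij
    apply ha
    have h1 := (IsFractionRing.injective F[X] (RatFunc F)) hij
    exact mul_left_cancel₀ hE h1
  have hAinj : Function.Injective
      (fun i => algebraMap (RatFunc F) (v.adicCompletion (RatFunc F)) (pts E a i)) :=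
    fun i j hij => hptsInj ((algebraMap (RatFunc F) (v.adicCompletion (RatFunc F))).injective hij)
  -- valuations
  have hdiff : ∀ i l, Valued.v (algebraMap (RatFunc F) (v.adicCompletion (RatFunc F)) (pts E a i) -
      algebraMap (RatFunc F) (v.adicCompletion (RatFunc F)) (pts E a l)) =
      v.valuation (RatFunc F) (algebraMap F[X] (RatFunc F) (E * (a i - a l))) := by
    intro i l
    rw [← map_sub, valued_adic, pts, pts, ← map_sub, ← mul_sub]
  have hne0 : ∀ i l, i ≠ l → E * (a i - a l) ≠ 0 := fun i l hil =>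
    mul_ne_zero hE (sub_ne_zero.2 fun h => hil (ha h))
  have hram := pglocf_tame hT (fun i l => Valued.v
      (algebraMap (RatFunc F) (v.adicCompletion (RatFunc F)) (pts E a i) -
      algebraMap (RatFunc F) (v.adicCompletion (RatFunc F)) (pts E a l)))
    (fun i => by
      show Valued.v (_ - _) = 0
      rw [sub_self, map_zero])
    (fun i l hil => by
      show Valued.v (_ - _) ≠ 0
      rw [Valuation.ne_zero_iff, sub_ne_zero]
      exact fun h => hil (hAinj h))
    (fun i l hil => by
      show WithZero.log (Valued.v (_ - _)) = _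
      rw [hdiff, sulocf_log hv hP (hne0 i l hil)]
      have h1 : FiniteMultiplicity P (E * (a i - a l)) :=
        FiniteMultiplicity.of_not_isUnit hP.not_isUnit (hne0 i l hil)
      rw [multiplicity_mul hP.prime h1]
      unfold wP
      push_cast
      ring)
  have hmain := h1 (v.adicCompletion (RatFunc F)) p ((r : ℕ) * P.natDegree) ℓ hℓ hcop
    (algebraMap (RatFunc F) (v.adicCompletion (RatFunc F)) (algebraMap F (RatFunc F) z))
    (by rw [← map_pow, ← map_pow, hz, map_neg, map_neg, map_one, map_one]) hN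
    (nontriv_adic v) (fun y hy => twlocf_comp hv hmon hP hQ y hy) m hm
    (fun i => algebraMap (RatFunc F) (v.adicCompletion (RatFunc F)) (pts E a i)) hAinj b
    hb hram
  exact exists_of_mem_torsionGroup hptsInj (v.adicCompletion (RatFunc F)) (hmain hd)

end MP72e2e6
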