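import Pool.Agent.Lib.MP_72e2e6_nt.SuStmt
import Pool.Agent.Lib.MP_72e2e6_nt.SuLocF

/-!
# The local images at infinity (`StmtSuLocI`)
-/

set_option autoImplicit false

namespace MP72e2e6

open Polynomial IsDedekindDomain WithZero

universe u

open Classical in
theorem tSuLocI (hSuLocV : StmtSuLocV.{u}) : StmtSuLocI.{u} := by
  intro F _ _ ℓ hℓ hℓ2 hdvd m hm E hE a ha b hT d hd
  obtain ⟨p, hpc⟩ := CharP.exists F
  have h0 := Fintype.ofFinite F
  obtain ⟨r, hp, hr⟩ := FiniteField.card F p
  have hpf : Fact p.Prime := ⟨hp⟩
  have hcard : Nat.card F = p ^ (r : ℕ) := by rw [Nat.card_eq_fintype_card, hr]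
  have hcop : ℓ.Coprime p := by
    rw [Nat.coprime_primes hℓ hp]
    rintro rfl
    rw [hcard] at hdvd
    have h1 : ℓ ∣ ℓ ^ (r : ℕ) := dvd_pow_self _ r.pos.ne'
    have h2 : 1 ≤ ℓ ^ (r : ℕ) := Nat.one_le_pow _ _ hℓ.pos
    have h3 : ℓ ∣ 1 := by
      have := Nat.dvd_sub h1 hdvd
      rwa [Nat.sub_sub_self h2] at this
    exact hℓ.one_lt.ne' (Nat.dvd_one.1 h3)
  have hcharK : CharP (RatFunc F) p :=
    charP_of_injective_algebraMap (algebraMap F (RatFunc F)).injective p
  have hcharM : CharP (RatFunc.inftyValuation F).Completion p :=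
    charP_of_injective_algebraMap
      (algebraMap (RatFunc F) (RatFunc.inftyValuation F).Completion).injective p
  have hne : ∀ i l, i ≠ l → a i - a l ≠ 0 := fun i l hil => sub_ne_zero.2 fun h => hil (ha h)
  have hpt : ∀ i k, pts E a i - pts E a k = algebraMap F[X] (RatFunc F) (E * (a i - a k)) := by
    intro i k
    unfold pts
    rw [← map_sub]
    congr 1
    ring
  have hinj : Function.Injective (pts E a) := by
    intro i k h
    have h1 := hpt i k
    rw [h, sub_self] at h1
    by_contra hik
    have h2 := (map_eq_zero_iff _ (RatFunc.algebraMap_injective F)).1 h1.symm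
    exact mul_ne_zero hE (hne i k hik) h2
  have hAinj : Function.Injective (fun i => algebraMap (RatFunc F)
      (RatFunc.inftyValuation F).Completion (pts E a i)) :=
    fun i l h => hinj ((algebraMap (RatFunc F) (RatFunc.inftyValuation F).Completion).injective h)
  have hval : ∀ h : F[X], h ≠ 0 → Valued.v (algebraMap (RatFunc F)
      (RatFunc.inftyValuation F).Completion (algebraMap F[X] (RatFunc F) h)) =
        exp (h.natDegree : ℤ) := by
    intro h hh
    rw [valued_comp]
    exact RatFunc.inftyValuation.polynomial F hh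
  have hdist : ∀ i l, i ≠ l → Valued.v (algebraMap (RatFunc F) (RatFunc.inftyValuation F).Completion
      (pts E a i) - algebraMap (RatFunc F) (RatFunc.inftyValuation F).Completion (pts E a l)) =
      exp ((E.natDegree + (a i - a l).natDegree : ℕ) : ℤ) := by
    intro i l hil
    rw [← map_sub, hpt, hval _ (mul_ne_zero hE (hne i l hil)), natDegree_mul hE (hne i l hil)]
  have hX : 1 < RatFunc.inftyValuation F (algebraMap F[X] (RatFunc F) X) := by
    have h1 : RatFunc.inftyValuation F (algebraMap F[X] (RatFunc F) X) =
        exp ((X : F[X]).natDegree : ℤ) := RatFunc.inftyValuation.polynomial F X_ne_zero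
    rw [h1, natDegree_X, ← exp_zero, exp_lt_exp]
    norm_num
  obtain ⟨hball, hram⟩ := sulocf_tame hT (fun i l => Valued.v
      (algebraMap (RatFunc F) (RatFunc.inftyValuation F).Completion (pts E a i) -
      algebraMap (RatFunc F) (RatFunc.inftyValuation F).Completion (pts E a l)))
    (fun i => by
      show Valued.v (_ - _) = 0
      rw [sub_self, map_zero])
    (fun i l hil => by
      show Valued.v (_ - _) ≠ 0
      rw [Valuation.ne_zero_iff, sub_ne_zero]
      exact fun h => hil (hAinj h))
    (fun i l hil => by
      show WithZero.log (Valued.v (_ - _)) = _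
      rw [hdist i l hil, log_exp]
      unfold wI
      push_cast
      ring)
  have hmem := hSuLocV (RatFunc.inftyValuation F).Completion p r ℓ hℓ hℓ2 hcop r.ne_zero
    (nontriv_comp _ hX) (fun y hy => by
      refine res_comp _ (fun x hx => ?_) y hy
      have h1 := inftyValuation_res x hx
      rwa [pow_one, hcard] at h1) m hm
    (fun i => algebraMap (RatFunc F) (RatFunc.inftyValuation F).Completion (pts E a i)) hAinj b
    hball hram
  exact exists_of_mem_torsionGroup hinj _ (hmem hd)

end MP72e2e6
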