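import Pool.Agent.Lib.MP_72e2e6_nt.PgStmt
import Pool.Agent.Lib.MP_72e2e6_nt.SuLoc

/-!
# MP_72e2e6_nt: norms from a ramified extension
-/

namespace MP72e2e6

open Polynomial IntermediateField Module WithZero

universe u

section core

variable {M : Type u} [NontriviallyNormedField M] [IsUltrametricDist M] [CompleteSpace M]
  {L : Type u} [NontriviallyNormedField L] [IsUltrametricDist L]
  [NormedAlgebra M L] [FiniteDimensional M L]

theorem pgnrm_core (p : ℕ) [Fact p.Prime] [CharP M p] (ℓ : ℕ) (hℓ : ℓ.Prime) (hcop : ℓ.Coprime p)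
    (v : Valuation M (WithZero (Multiplicative ℤ))) (hv : ∀ x y : M, ‖x‖ ≤ ‖y‖ ↔ v x ≤ v y)
    (κ : M) (hκ : κ ≠ 0) (hlog : ¬ (ℓ : ℤ) ∣ log (v κ)) (pb : PowerBasis M L) (hd : pb.dim = ℓ)
    (hg : pb.gen ^ ℓ = algebraMap M L κ) (x : L) (hx : x ≠ 0) :
    ∃ (n : ℕ) (α : M), α ≠ 0 ∧ sulocE ℓ x (algebraMap M L α * pb.gen ^ n) := by
  classical
  have hcompl : CompleteSpace L := FiniteDimensional.complete M L
  have hcharL : CharP L p := charP_of_injective_algebraMap (algebraMap M L).injective p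
  have hg0 : pb.gen ≠ 0 := by
    intro h
    rw [h, zero_pow hℓ.ne_zero] at hg
    exact hκ ((map_eq_zero (algebraMap M L)).1 hg.symm)
  obtain ⟨c, hc⟩ : ∃ c : Fin pb.dim → M, c = fun i => pb.basis.repr x i := ⟨_, rfl⟩
  obtain ⟨T, hT⟩ : ∃ T : Fin pb.dim → L, T = fun i => algebraMap M L (c i) * pb.gen ^ (i : ℕ) :=
    ⟨_, rfl⟩
  have hsum : x = ∑ i, T i := by
    conv_lhs => rw [← pb.basis.sum_repr x]
    refine Finset.sum_congr rfl fun i _ => ?_
    rw [hT, hc, pb.basis_eq_pow, Algebra.smul_def]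
  have hnv : ∀ a b : M, ‖a‖ = ‖b‖ → v a = v b := fun a b h =>
    le_antisymm ((hv a b).1 h.le) ((hv b a).1 h.ge)
  have hTn : ∀ i, ‖T i‖ ^ ℓ = ‖c i ^ ℓ * κ ^ (i : ℕ)‖ := by
    intro i
    rw [← norm_pow, hT]
    have h1 : (algebraMap M L (c i) * pb.gen ^ (i : ℕ)) ^ ℓ =
        algebraMap M L (c i ^ ℓ * κ ^ (i : ℕ)) := by
      rw [mul_pow, ← pow_mul, mul_comm (i : ℕ) ℓ, pow_mul, hg, map_mul, map_pow, map_pow]
    rw [h1, norm_algebraMap']
  have hinj : ∀ i j, c i ≠ 0 → c j ≠ 0 → ‖T i‖ = ‖T j‖ → i = j := by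
    intro i j hi hj hij
    have h1 := hnv _ _ ((hTn i).symm.trans ((congrArg (fun z : ℝ => z ^ ℓ) hij).trans (hTn j)))
    have h2 := congrArg log h1
    have hvi : v (c i) ≠ 0 := (Valuation.ne_zero_iff v).2 hi
    have hvj : v (c j) ≠ 0 := (Valuation.ne_zero_iff v).2 hj
    have hvκ : v κ ≠ 0 := (Valuation.ne_zero_iff v).2 hκ
    rw [map_mul, map_mul, map_pow, map_pow, map_pow, map_pow,
      log_mul (pow_ne_zero _ hvi) (pow_ne_zero _ hvκ),
      log_mul (pow_ne_zero _ hvj) (pow_ne_zero _ hvκ), log_pow, log_pow, log_pow, log_pow,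
      nsmul_eq_mul, nsmul_eq_mul, nsmul_eq_mul, nsmul_eq_mul] at h2
    have h3 : (ℓ : ℤ) ∣ ((j : ℕ) - (i : ℕ) : ℤ) * log (v κ) :=
      ⟨log (v (c i)) - log (v (c j)), by linear_combination -h2⟩
    have h4 : (ℓ : ℤ) ∣ ((j : ℕ) - (i : ℕ) : ℤ) :=
      ((Nat.prime_iff_prime_int.1 hℓ).dvd_or_dvd h3).resolve_right hlog
    have hi' : (i : ℕ) < ℓ := hd ▸ i.2
    have hj' : (j : ℕ) < ℓ := hd ▸ j.2
    have h5 : ((j : ℕ) - (i : ℕ) : ℤ) = 0 := by
      refine Int.eq_zero_of_abs_lt_dvd h4 ?_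
      rw [abs_lt]
      constructor <;> omega
    apply Fin.ext
    omega
  have hne : (Finset.univ : Finset (Fin pb.dim)).Nonempty :=
    ⟨⟨0, by rw [hd]; exact hℓ.pos⟩, Finset.mem_univ _⟩
  obtain ⟨n, -, hn⟩ := Finset.exists_max_image (Finset.univ : Finset (Fin pb.dim))
    (fun i => ‖T i‖) hne
  have hTn0 : T n ≠ 0 := by
    intro h0
    apply hx
    rw [hsum]
    refine Finset.sum_eq_zero fun i _ => ?_
    have h1 := hn i (Finset.mem_univ _)
    rw [h0, norm_zero] at h1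
    exact norm_le_zero_iff.1 h1
  have hcn : c n ≠ 0 := by
    intro h0
    apply hTn0
    rw [hT]
    show algebraMap M L (c n) * _ = 0
    rw [h0, map_zero, zero_mul]
  refine ⟨n, c n, hcn, ?_⟩
  have hTe : algebraMap M L (c n) * pb.gen ^ (n : ℕ) = T n := by rw [hT]
  rw [hTe]
  refine suloc_near p hℓ.ne_zero hcop ?_
  have h1 : x - T n = ∑ i ∈ Finset.univ.erase n, T i := by
    rw [hsum, ← Finset.add_sum_erase _ _ (Finset.mem_univ n), add_sub_cancel_left]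
  rw [h1]
  rcases (Finset.univ.erase n).eq_empty_or_nonempty with h2 | h2
  · rw [h2, Finset.sum_empty, norm_zero]
    exact norm_pos_iff.2 hTn0
  · obtain ⟨i, hi, h3⟩ := IsUltrametricDist.exists_norm_finsetSum_le_of_nonempty h2 T
    refine lt_of_le_of_lt h3 (lt_of_le_of_ne (hn i (Finset.mem_univ _)) fun h4 => ?_)
    have hci : c i ≠ 0 := by
      intro h0
      have h5 : T i = 0 := by
        rw [hT]
        show algebraMap M L (c i) * _ = 0
        rw [h0, map_zero, zero_mul]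
      rw [h5, norm_zero] at h4
      exact hTn0 (norm_eq_zero.1 h4.symm)
    exact (Finset.ne_of_mem_erase hi) (hinj i n hci hcn h4)

end core

theorem pgnrm_field {M : Type u} [NontriviallyNormedField M] [IsUltrametricDist M] [CompleteSpace M]
    {L : Type u} [Field L] [Algebra M L] [FiniteDimensional M L]
    (p : ℕ) [Fact p.Prime] [CharP M p] (ℓ : ℕ) (hℓ : ℓ.Prime) (hcop : ℓ.Coprime p)
    (v : Valuation M (WithZero (Multiplicative ℤ))) (hv : ∀ x y : M, ‖x‖ ≤ ‖y‖ ↔ v x ≤ v y)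
    (κ : M) (hκ : κ ≠ 0) (hlog : ¬ (ℓ : ℤ) ∣ log (v κ)) (pb : PowerBasis M L) (hd : pb.dim = ℓ)
    (hg : pb.gen ^ ℓ = algebraMap M L κ) (x : L) (hx : x ≠ 0) :
    ∃ (n : ℕ) (α : M), α ≠ 0 ∧ sulocE ℓ x (algebraMap M L α * pb.gen ^ n) := by
  let : NontriviallyNormedField L := spectralNorm.nontriviallyNormedField M L
  let : NormedAlgebra M L := spectralNorm.normedAlgebra M L
  have : IsUltrametricDist L :=
    IsUltrametricDist.isUltrametricDist_of_isNonarchimedean_norm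
      (isNonarchimedean_spectralNorm (K := M) (L := L))
  exact pgnrm_core p ℓ hℓ hcop v hv κ hκ hlog pb hd hg x hx

theorem tPgNrm : StmtPgNrm.{u} := by
  intro M L _ _ _ p _ _ ℓ hℓ hcop v hv κ z₀ hκ hlog hz₀ _ _ _ s hs
  have hz00 : z₀ ≠ 0 := by
    rintro rfl
    rw [zero_pow hℓ.ne_zero] at hz₀
    exact one_ne_zero (neg_eq_zero.1 hz₀.symm)
  have hirr : Irreducible (X ^ ℓ - C κ : M[X]) := by
    refine X_pow_sub_C_irreducible_of_prime hℓ fun z hz => hlog ?_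
    rw [← hz, map_pow, log_pow, nsmul_eq_mul]
    exact dvd_mul_right _ _
  have hmon : (X ^ ℓ - C κ : M[X]).Monic := monic_X_pow_sub_C κ hℓ.ne_zero
  have hmin : X ^ ℓ - C κ = minpoly M s := by
    refine minpoly.eq_of_irreducible_of_monic hirr ?_ hmon
    rw [map_sub, map_pow, aeval_X, aeval_C, hs, sub_self]
  have hint : IsIntegral M s := Algebra.IsIntegral.isIntegral s
  have hdeg : (minpoly M s).natDegree = ℓ := by rw [← hmin, natDegree_X_pow_sub_C]
  have hfr : finrank M M⟮s⟯ = ℓ := by rw [adjoin.finrank hint, hdeg]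
  refine ⟨⟨finrank M⟮s⟯ L, by rw [← hfr, finrank_mul_finrank]⟩, fun y hy => ?_⟩
  have hx0 : Algebra.norm M⟮s⟯ y ≠ 0 := Algebra.norm_ne_zero_iff.2 hy
  have hgen : (adjoin.powerBasis hint).gen = AdjoinSimple.gen M s := adjoin.powerBasis_gen hint
  have hg : (adjoin.powerBasis hint).gen ^ ℓ = algebraMap M M⟮s⟯ κ := by
    rw [hgen]
    apply (algebraMap M⟮s⟯ L).injective
    rw [map_pow, AdjoinSimple.algebraMap_gen, hs, ← IsScalarTower.algebraMap_apply]
  have hdim : (adjoin.powerBasis hint).dim = ℓ := by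
    rw [adjoin.powerBasis_dim hint, hdeg]
  obtain ⟨n, α, hα, h1⟩ := pgnrm_field p ℓ hℓ hcop v hv κ hκ hlog (adjoin.powerBasis hint) hdim hg
    (Algebra.norm M⟮s⟯ y) hx0
  obtain ⟨z, hz, h2⟩ := suloc_norm (M := M) h1
  have hNg : Algebra.norm M (adjoin.powerBasis hint).gen = (z₀ ^ (ℓ + 1)) ^ ℓ * κ := by
    rw [Algebra.PowerBasis.norm_gen_eq_coeff_zero_minpoly, hdim, hgen, minpoly_gen, ← hmin,
      coeff_sub, coeff_X_pow, if_neg hℓ.ne_zero.symm, coeff_C_zero, ← pow_mul, mul_comm (ℓ + 1) ℓ,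
      pow_mul, hz₀]
    ring
  refine ⟨n, α * (z₀ ^ (ℓ + 1)) ^ n * z, mul_ne_zero (mul_ne_zero hα
    (pow_ne_zero _ (pow_ne_zero _ hz00))) hz, ?_⟩
  rw [← Algebra.norm_norm (R := M) (S := M⟮s⟯) (a := y), h2, map_mul, Algebra.norm_algebraMap, hfr, map_pow,
    hNg]
  ring

end MP72e2e6
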