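import Pool.Agent.Lib.MP_72e2e6_nt.PgStmt
import Pool.Agent.Lib.MP_72e2e6_nt.PpInj

/-!
# MP_72e2e6_nt: uniform tameness, arithmetic part, module PgRel
-/

namespace MP72e2e6

open Polynomial IsDedekindDomain

universe u

section rel

variable {F : Type u} [Field F] {ℓ m : ℕ}

theorem pgrel_lc {χ : F → ZMod ℓ} (hχ : IsLg ℓ χ) (hχn : χ (-1) = 0) {a : Fin m → F[X]}
    (ha : Function.Injective a) (i k : Fin m) :
    χ (a i - a k).leadingCoeff = χ (a k - a i).leadingCoeff := by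
  by_cases hik : i = k
  · rw [hik]
  · have h1 : (a k - a i).leadingCoeff ≠ 0 :=
      leadingCoeff_ne_zero.2 (sub_ne_zero.2 fun h => hik (ha h).symm)
    rw [← neg_sub (a k) (a i), leadingCoeff_neg, ← neg_one_mul,
      hχ.mul _ _ (neg_ne_zero.2 one_ne_zero) h1, hχn, zero_add]

/-- places without coincidences -/
theorem pgrel_good (hℓ : ℓ.Prime) {b : Fin m → ℕ} (hB : ¬ ℓ ∣ ∑ k, b k)
    {w : Fin m → Fin m → ℤ} (hw : ∀ i k, i ≠ k → w i k = 0) {e : ℤ} (he : ¬ (ℓ : ℤ) ∣ e) :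
    Tam ℓ b w e := by
  intro j i hji hdvd
  have h1 : lev b w j i = 0 := by
    refine Finset.sum_eq_zero fun k _ => ?_
    split_ifs with h
    · rw [hw j i hji, mul_zero]
    · rw [hw j i hji, hw j k fun h' => h h'.symm, min_self, mul_zero]
  rw [h1, add_zero] at hdvd
  rcases (Nat.prime_iff_prime_int.1 hℓ).dvd_or_dvd hdvd with h2 | h2
  · exact he h2
  · refine hB ?_
    rw [← Int.natCast_dvd_natCast]
    push_cast
    exact h2

/-- the solution attached to the equations -/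
theorem pgrel_sol [Fact ℓ.Prime] {χ : F → ZMod ℓ} (hχ : IsLg ℓ χ) (hχn : χ (-1) = 0)
    {a : Fin m → F[X]}
    (ha : Function.Injective a) {b : Fin m → ℕ} {V : Type} [Fintype V] {pr : V → F[X]}
    (hcov : ∀ P : F[X], P.Monic → Irreducible P → ∀ i j, i ≠ j → P ∣ a i - a j → ∃ v, pr v = P)
    {e : V → ZMod ℓ} {t : Finset F[X]}
    (ht : ∀ P ∈ t, P.Monic ∧ Irreducible P) (htp : ∀ P ∈ t, ∀ v, pr v ≠ P)
    {x c : V ⊕ Fin t.card → Fin m → ZMod ℓ}
    (hE : EqL χ b a (pplnkPr pr t) (pplnkRho e t) x c) :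
    SolW χ pr (fun v => sigV b a (pr v) (e v)) (lamV χ b a) t
      (fun v => ⟨c (Sum.inl v), hE.mem _⟩)
      (fun P => ⟨c (Sum.inr (t.equivFin P)), hE.mem _⟩) := by
  -- good primes
  have hg : ∀ P : t, ∀ i k, i ≠ k → vl ℓ P.1 (a i - a k) = 0 := by
    intro P i k hik
    have h1 : ¬ P.1 ∣ a i - a k := by
      intro h
      obtain ⟨v, hv⟩ := hcov P.1 (ht _ P.2).1 (ht _ P.2).2 i k hik h
      exact htp _ P.2 v hv
    rw [vl, if_neg (sub_ne_zero.2 fun h => hik (ha h)), multiplicity_eq_zero.2 h1, Nat.cast_zero]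
  have hprP : ∀ P : t, pplnkPr pr t (Sum.inr (t.equivFin P)) = P.1 := fun P => by
    simp [pplnkPr]
  have hprv : ∀ v, pplnkPr pr t (Sum.inl v) = pr v := fun v => rfl
  have hρP : ∀ P : t, pplnkRho e t (Sum.inr (t.equivFin P)) = 1 := fun P => rfl
  have hρv : ∀ v, pplnkRho e t (Sum.inl v) = e v := fun v => rfl
  have hlc := pgrel_lc (m := m) hχ hχn ha
  rw [pplnk_lamV hlc]
  -- the operators
  have hσ : ∀ v (y : Vs ℓ b) (i : Fin m), (sigV b a (pr v) (e v) y).1 i =
      sg b (e v) (fun i k => vl ℓ (pr v) (a i - a k)) y i := fun v y i => rfl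
  have hxv : ∀ v i, x (Sum.inl v) i = sg b (e v) (fun i k => vl ℓ (pr v) (a i - a k))
      (c (Sum.inl v)) i := fun v i => hE.val _ i
  have hxP : ∀ (P : t) i, x (Sum.inr (t.equivFin P)) i = c (Sum.inr (t.equivFin P)) i := by
    intro P i
    rw [hE.val, hρP, hprP, sg_good (hg P), one_mul]
  have hdv : ∀ β v i, x (Sum.inl v) i - sg b (pplnkRho e t (Sum.inl v))
      (fun i k => vl ℓ (pplnkPr pr t (Sum.inl v)) (a i - a k)) (c β) i =
      sg b (e v) (fun i k => vl ℓ (pr v) (a i - a k)) (c (Sum.inl v) - c β) i := by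
    intro β v i
    rw [hxv, ← sg_sub]
    rfl
  have hdP : ∀ β (P : t) i, x (Sum.inr (t.equivFin P)) i -
      sg b (pplnkRho e t (Sum.inr (t.equivFin P)))
      (fun i k => vl ℓ (pplnkPr pr t (Sum.inr (t.equivFin P))) (a i - a k)) (c β) i =
      c (Sum.inr (t.equivFin P)) i - c β i := by
    intro β P i
    rw [hxP, hρP, hprP, sg_good (hg P), one_mul]
  have hsym : ∀ β i, ∑ v, syl χ (pplnkPr pr t β) (pr v) *
        sg b (e v) (fun i k => vl ℓ (pr v) (a i - a k)) (c (Sum.inl v) - c β) i +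
      ∑ P : t, syl χ (pplnkPr pr t β) P.1 * (c (Sum.inr (t.equivFin P)) i - c β i) =
      ((pplnkPr pr t β).natDegree : ZMod ℓ) *
        sg b 0 (fun i k => χ (a i - a k).leadingCoeff) (c β) i := by
    intro β i
    rw [← hE.sym β i, pplnk_sum]
    simp only [hdv, hdP]
    simp only [hprP, hprv]
  refine ⟨?_, fun v => ?_, fun P => ?_⟩
  · refine Subtype.ext (funext fun i => ?_)
    have h1 := hE.inf i
    rw [pplnk_sum] at h1
    simp only [hxv, hxP, hprP, hprv] at h1
    simp only [Submodule.coe_add, Submodule.coe_sum, Submodule.coe_smul, Pi.add_apply,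
      Finset.sum_apply, Pi.smul_apply, smul_eq_mul]
    exact h1
  · refine Subtype.ext (funext fun i => ?_)
    have h1 := hsym (Sum.inl v) i
    simp only [Submodule.coe_add, Submodule.coe_sum, Submodule.coe_smul, Submodule.coe_sub,
      Pi.add_apply, Finset.sum_apply, Pi.smul_apply, Pi.sub_apply, smul_eq_mul]
    exact h1
  · refine Subtype.ext (funext fun i => ?_)
    have h1 := hsym (Sum.inr (t.equivFin P)) i
    simp only [hprP] at h1
    simp only [Submodule.coe_add, Submodule.coe_sum, Submodule.coe_smul, Submodule.coe_sub,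
      Pi.add_apply, Finset.sum_apply, Pi.smul_apply, Pi.sub_apply, smul_eq_mul]
    exact h1

open Classical in
theorem tPgRel.{v} (hSuSy : StmtSuSy.{v}) (hSuFac : StmtSuFac.{v}) (hPgTor : StmtPgTor.{v})
    (hPgEq : StmtPgEq.{v}) : StmtPgRel.{v} := by
  intro F _ _ ℓ _ hq χ hχ hχn _ m hm a ha b hb hB V _ pr hpr hcov e hT n t ht hI
  have hℓ : ℓ.Prime := Fact.out
  have : NeZero ℓ := ⟨hℓ.ne_zero⟩
  obtain ⟨ht1, htp⟩ := pplnk_mem_gs.1 ht
  obtain ⟨htm, htd⟩ := mem_ps.1 ht1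
  have hfam := pplnk_fam hpr htm htp
  have htw := pplnk_twl pr e t
  have hz0 : ∃ z : F, z ^ ℓ = -1 := by
    obtain ⟨z, hz⟩ := (hχ.ker (-1) (neg_ne_zero.2 one_ne_zero)).1 hχn
    exact ⟨z, hz.symm⟩
  have hdeg : (twl pr e * ∏ P ∈ t, P).natDegree = (twl pr e).natDegree + n := by
    rw [(monic_twl hpr e).natDegree_mul (monic_prod_of_monic _ _ fun P hP => (htm P hP).1),
      natDegree_prod_of_monic _ _ fun P hP => (htm P hP).1, htd]
  have hTame : ∀ β, Tam ℓ b (wP (pplnkPr pr t β) a) ((pplnkRho e t β).val : ℤ) := by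
    rintro (v | i)
    · exact hT v
    · refine pgrel_good hℓ hB ?_ ?_
      · intro j k hjk
        have h1 : ¬ pplnkPr pr t (Sum.inr i) ∣ a j - a k := by
          intro h
          obtain ⟨v, hv⟩ := hcov _ (hfam.monic _) (hfam.irr _) j k hjk h
          exact htp _ (t.equivFin.symm i).2 v hv
        rw [wP, multiplicity_eq_zero.2 h1, Nat.cast_zero]
      · intro h
        have h2 : (pplnkRho e t (Sum.inr i)).val = 1 := ZMod.val_one _
        rw [h2, Nat.cast_one] at h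
        have h3 := Int.eq_one_of_dvd_one (Int.natCast_nonneg _) h
        have h4 := hℓ.two_le
        omega
  have key := hPgEq F ℓ hℓ hq χ hχ hχn m hm a ha b hb hB _ (pplnkPr pr t) hfam
    (fun P hP hPi i j hij hd => by
      obtain ⟨v, hv⟩ := hcov P hP hPi i j hij hd
      exact ⟨Sum.inl v, hv⟩) (pplnkRho e t) hTame (by rw [htw, hdeg]; exact hI)
  have hE0 : twl (pplnkPr pr t) (pplnkRho e t) ≠ 0 := twl_ne_zero hfam _
  rw [← htw]
  set E := twl (pplnkPr pr t) (pplnkRho e t) with hE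
  set S := placesSelmer F[X] (RatFunc.inftyValuation F) ℓ (pts E a) b with hS
  set T := torsionGroup ℓ (pts E a) b with hTT
  choose! x c hEq δ hδ hδ2 hδ3 c₀ hc₀ hd using key
  -- the map
  let Sol := {x : (V → Vs ℓ b) × (t → Vs ℓ b) //
      SolW χ pr (fun v => sigV b a (pr v) (e v)) (lamV χ b a) t x.1 x.2}
  let X : (Fin m → (RatFunc F)ˣ) → (V ⊕ Fin t.card → Fin m → ZMod ℓ) := c
  let Φ : S → Sol := fun d => ⟨(_, _), pgrel_sol hχ hχn ha hcov htm htp (hEq d.1 d.2)⟩
  have hΦ : ∀ d d' : S, Φ d = Φ d' → ∀ β, c d.1 β = c d'.1 β := by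
    intro d d' h
    have h1 := congrArg Subtype.val h
    rintro (v | j)
    · exact congrArg Subtype.val (congrFun (congrArg Prod.fst h1) v)
    · have h2 : c d.1 (Sum.inr (t.equivFin (t.equivFin.symm j))) =
          c d'.1 (Sum.inr (t.equivFin (t.equivFin.symm j))) :=
        congrArg Subtype.val (congrFun (congrArg Prod.snd h1) (t.equivFin.symm j))
      rwa [Equiv.apply_symm_apply] at h2
  have hsyP := (hSuSy F ℓ hℓ hq χ hχ).2.2
  -- elements with the same solution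
  have hmem : ∀ d d' : S, Φ d = Φ d' → (d.1 / d'.1) ∈ T := by
    intro d d' h
    have hcc := hΦ d d' h
    have hxx : ∀ β i, x d.1 β i = x d'.1 β i := by
      intro β i
      rw [(hEq d.1 d.2).val, (hEq d'.1 d'.2).val, hcc]
    refine (hPgTor F ℓ hℓ hz0 m E hE0 a ha b hB).mem (c₀ d.1 - c₀ d'.1) ?_ _ fun i => ?_
    · simp only [Pi.sub_apply, mul_sub, Finset.sum_sub_distrib]
      rw [hc₀ d.1 d.2, hc₀ d'.1 d'.2, sub_zero]
    · have h1 := (hδ d.1 d.2 i).1
      have h2 := (hδ d'.1 d'.2 i).1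
      have h2' : δ d'.1 i ^ (ℓ - 1) ≠ 0 := pow_ne_zero _ h2
      have hpw : ∀ f : F[X] → ZMod ℓ, (∀ g h : F[X], g ≠ 0 → h ≠ 0 → f (g * h) = f g + f h) →
          f (δ d.1 i * δ d'.1 i ^ (ℓ - 1)) = f (δ d.1 i) - f (δ d'.1 i) := by
        intro f hf
        have h3 : ∀ n : ℕ, f (δ d'.1 i ^ n) = n * f (δ d'.1 i) := by
          intro n
          induction n with
          | zero =>
            have h4 := hf 1 1 one_ne_zero one_ne_zero
            rw [mul_one] at h4
            rw [pow_zero, Nat.cast_zero, zero_mul]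
            exact left_eq_add.1 h4
          | succ n ih =>
            rw [pow_succ, hf _ _ (pow_ne_zero _ h2) h2, ih]
            push_cast
            ring
        rw [hf _ _ h1 h2', h3, Nat.cast_sub hℓ.one_le, Nat.cast_one, ZMod.natCast_self]
        ring
      obtain ⟨z, hz⟩ : ∃ z, δ d.1 i * δ d'.1 i ^ (ℓ - 1) = z ^ ℓ := by
        refine (hSuFac F ℓ hℓ hq χ hχ _ (pplnkPr pr t) hfam _ (mul_ne_zero h1 h2')
          (fun P hP hPi hne => ?_)).2.2 ?_ (fun β => ?_)
        · rw [hpw _ fun g h hg hh => ((hsyP P hP hPi).1 g h hg hh).1,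
            hδ2 d.1 d.2 P hP hPi hne, hδ2 d'.1 d'.2 P hP hPi hne, sub_zero]
        · have h4 := hpw (fun g => χ g.leadingCoeff) (fun g h hg hh => by
            rw [leadingCoeff_mul, hχ.mul _ _ (leadingCoeff_ne_zero.2 hg)
              (leadingCoeff_ne_zero.2 hh)])
          rw [h4, (hδ d.1 d.2 i).2, (hδ d'.1 d'.2 i).2, sub_zero]
        · rw [hpw _ fun g h hg hh => ((hsyP _ (hfam.monic β) (hfam.irr β)).1 g h hg hh).1,
            hδ3 d.1 d.2, hδ3 d'.1 d'.2, hxx, sub_self]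
      obtain ⟨z₁, hz₁⟩ := hd d.1 d.2 i
      obtain ⟨z₂, hz₂⟩ := hd d'.1 d'.2 i
      obtain ⟨z₃, hz₃⟩ := susel_tal_add b E a (c₀ d.1 - c₀ d'.1) (c₀ d'.1) i
      rw [sub_add_cancel] at hz₃
      have hinj := twsel_inj F
      have a0 : ∀ g : F[X], g ≠ 0 → algebraMap F[X] (RatFunc F) g ≠ 0 := fun g hg => by
        rw [Ne, map_eq_zero_iff _ hinj]
        exact hg
      have t0 : ∀ c : Fin m → ZMod ℓ, tal b E a c i ≠ 0 := fun c => susel_tal_ne b hE0 ha c i
      have z3 : z₃ ≠ 0 := by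
        rintro rfl
        rw [zero_pow hℓ.ne_zero, mul_zero] at hz₃
        exact mul_ne_zero (t0 _) (t0 _) hz₃
      have z2 : z₂ ≠ 0 := by
        rintro rfl
        rw [zero_pow hℓ.ne_zero, mul_zero] at hz₂
        exact (d'.1 i).ne_zero hz₂
      refine ⟨algebraMap F[X] (RatFunc F) z / algebraMap F[X] (RatFunc F) (δ d'.1 i) * z₁ /
        (z₂ * algebraMap F[X] (RatFunc F) z₃), ?_⟩
      have hz' := congrArg (algebraMap F[X] (RatFunc F)) hz
      have hz₃' := congrArg (algebraMap F[X] (RatFunc F)) hz₃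
      rw [map_mul, map_pow, map_pow] at hz'
      rw [map_mul, map_mul, map_pow] at hz₃'
      have b1 := a0 _ h1
      have b2 := a0 _ h2
      have b3 := a0 _ z3
      have b4 := a0 _ (t0 (c₀ d.1))
      have b5 := a0 _ (t0 (c₀ d'.1))
      have b6 := a0 _ (t0 (c₀ d.1 - c₀ d'.1))
      have hpow : algebraMap F[X] (RatFunc F) (δ d'.1 i) ^ ℓ =
          algebraMap F[X] (RatFunc F) (δ d'.1 i) *
            algebraMap F[X] (RatFunc F) (δ d'.1 i) ^ (ℓ - 1) := by
        rw [← pow_succ', Nat.sub_add_cancel hℓ.one_le]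
      have hdd : ((d.1 / d'.1) i : (RatFunc F)ˣ) = d.1 i / d'.1 i := rfl
      rw [hdd, Units.val_div_eq_div_val, hz₁, hz₂, map_mul, map_mul, div_pow, mul_pow, mul_pow,
        div_pow, ← hz']
      have b7 : algebraMap F[X] (RatFunc F) (δ d'.1 i) ^ (ℓ - 1) ≠ 0 := pow_ne_zero _ b2
      have b8 : z₂ ^ ℓ ≠ 0 := pow_ne_zero _ z2
      have b9 : algebraMap F[X] (RatFunc F) z₃ ^ ℓ ≠ 0 := pow_ne_zero _ b3
      rw [hpow]
      exact ppinj_field b2 b7 b5 b8 b9 hz₃'
  -- the index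
  have hfin : Finite Sol := Subtype.finite
  have hle : Function.Injective (fun q : S ⧸ T.subgroupOf S => Φ q.out) := by
    intro q q' h
    have h1 := hmem q'.out q.out h.symm
    have h2 : (q.out⁻¹ * q'.out) ∈ T.subgroupOf S := by
      rw [Subgroup.mem_subgroupOf]
      have h3 : ((q.out⁻¹ * q'.out : S) : Fin m → (RatFunc F)ˣ) = q'.out.1 / q.out.1 := by
        rw [div_eq_mul_inv, mul_comm]
        rfl
      rw [h3]
      exact h1
    rw [← QuotientGroup.out_eq' q, ← QuotientGroup.out_eq' q']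
    exact QuotientGroup.eq.2 h2
  have hfq : Finite (S ⧸ T.subgroupOf S) := Finite.of_injective _ hle
  rw [Subgroup.relIndex, Subgroup.index]
  exact ⟨Nat.card_pos.ne', Nat.card_le_card_of_injective _ hle⟩

end rel

end MP72e2e6
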