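import Pool.Agent.Lib.MP_72e2e6_nt.SuStmt

/-!
# The torsion group in terms of `tal`
-/

set_option autoImplicit false

namespace MP72e2e6

open Polynomial IsDedekindDomain

universe u

section rel

variable {K : Type*} [Field K] {ℓ : ℕ}

/-- equality up to nonzero `ℓ`-th powers -/
def sutor_R (ℓ : ℕ) (x y : K) : Prop := ∃ z : K, z ≠ 0 ∧ x = y * z ^ ℓ

theorem sutor_refl (x : K) : sutor_R ℓ x x := ⟨1, one_ne_zero, by rw [one_pow, mul_one]⟩

theorem sutor_of_eq {x y : K} (h : x = y) : sutor_R ℓ x y := h ▸ sutor_refl x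

theorem sutor_symm {x y : K} (h : sutor_R ℓ x y) : sutor_R ℓ y x := by
  obtain ⟨z, hz, rfl⟩ := h
  refine ⟨z⁻¹, inv_ne_zero hz, ?_⟩
  rw [mul_assoc, ← mul_pow, mul_inv_cancel₀ hz, one_pow, mul_one]

theorem sutor_trans {x y z : K} (h : sutor_R ℓ x y) (h' : sutor_R ℓ y z) : sutor_R ℓ x z := by
  obtain ⟨s, hs, rfl⟩ := h
  obtain ⟨t, ht, rfl⟩ := h'
  exact ⟨t * s, mul_ne_zero ht hs, by rw [mul_pow, mul_assoc]⟩

theorem sutor_mul {x y x' y' : K} (h : sutor_R ℓ x y) (h' : sutor_R ℓ x' y') :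
    sutor_R ℓ (x * x') (y * y') := by
  obtain ⟨s, hs, rfl⟩ := h
  obtain ⟨t, ht, rfl⟩ := h'
  exact ⟨s * t, mul_ne_zero hs ht, by rw [mul_pow, mul_mul_mul_comm]⟩

theorem sutor_inv {x y : K} (h : sutor_R ℓ x y) : sutor_R ℓ x⁻¹ y⁻¹ := by
  obtain ⟨s, hs, rfl⟩ := h
  exact ⟨s⁻¹, inv_ne_zero hs, by rw [mul_inv, inv_pow]⟩

theorem sutor_powr {x y : K} (h : sutor_R ℓ x y) (n : ℕ) : sutor_R ℓ (x ^ n) (y ^ n) := by
  obtain ⟨s, hs, rfl⟩ := h
  refine ⟨s ^ n, pow_ne_zero _ hs, ?_⟩
  rw [mul_pow, ← pow_mul, ← pow_mul, mul_comm ℓ n]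

theorem sutor_prod {ι : Type*} (s : Finset ι) (f g : ι → K)
    (h : ∀ i ∈ s, sutor_R ℓ (f i) (g i)) :
    sutor_R ℓ (∏ i ∈ s, f i) (∏ i ∈ s, g i) := by
  classical
  induction s using Finset.induction_on with
  | empty => simpa using sutor_refl (ℓ := ℓ) (1 : K)
  | insert a s ha ih =>
    rw [Finset.prod_insert ha, Finset.prod_insert ha]
    exact sutor_mul (h a (Finset.mem_insert_self _ _))
      (ih fun i hi => h i (Finset.mem_insert_of_mem hi))

theorem sutor_congr {x : K} (hx : x ≠ 0) {e e' : ℕ} (h : (e : ZMod ℓ) = e') :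
    sutor_R ℓ (x ^ e) (x ^ e') := by
  rw [ZMod.natCast_eq_natCast_iff] at h
  rcases le_total e e' with hle | hle
  · obtain ⟨k, hk⟩ := (Nat.modEq_iff_dvd' hle).1 h
    apply sutor_symm
    refine ⟨x ^ k, pow_ne_zero _ hx, ?_⟩
    rw [← pow_mul, ← pow_add]
    congr 1
    rw [mul_comm k ℓ]
    omega
  · obtain ⟨k, hk⟩ := (Nat.modEq_iff_dvd' hle).1 h.symm
    refine ⟨x ^ k, pow_ne_zero _ hx, ?_⟩
    rw [← pow_mul, ← pow_add]
    congr 1
    rw [mul_comm k ℓ]
    omega

end rel

section tau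

variable {F : Type u} [Field F] {m ℓ : ℕ} {E : F[X]} {a : Fin m → F[X]} {b : Fin m → ℕ}

/-- the vector of a torsion tuple -/
def sutor_e (ℓ : ℕ) (b : Fin m → ℕ) (j i : Fin m) : ZMod ℓ :=
  (b j : ZMod ℓ) - (∑ k, (b k : ZMod ℓ)) * if i = j then 1 else 0

theorem sutor_phi_ne {h : F[X]} (hh : h ≠ 0) : algebraMap F[X] (RatFunc F) h ≠ 0 :=
  (map_ne_zero_iff _ (RatFunc.algebraMap_injective F)).2 hh

theorem sutor_fac_ne (hE : E ≠ 0) (ha : Function.Injective a) {i k : Fin m} (hk : k ≠ i) :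
    algebraMap F[X] (RatFunc F) (E * (a i - a k)) ≠ 0 :=
  sutor_phi_ne (mul_ne_zero hE (sub_ne_zero.2 fun h => hk (ha h).symm))

theorem sutor_tal_eq (c : Fin m → ZMod ℓ) (i : Fin m) :
    algebraMap F[X] (RatFunc F) (tal b E a c i) =
      ∏ k, algebraMap F[X] (RatFunc F) (E * (a i - a k)) ^
        ((b k : ZMod ℓ) * (c i - c k) * (∑ k, (b k : ZMod ℓ))⁻¹).val := by
  unfold tal
  simp only [map_prod, map_pow]

theorem sutor_exp_self [NeZero ℓ] (c : Fin m → ZMod ℓ) (i : Fin m) :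
    ((b i : ZMod ℓ) * (c i - c i) * (∑ k, (b k : ZMod ℓ))⁻¹).val = 0 := by
  rw [sub_self, mul_zero, zero_mul, ZMod.val_zero]

theorem sutor_tal_add [NeZero ℓ] (hE : E ≠ 0) (ha : Function.Injective a) (c c' : Fin m → ZMod ℓ)
    (i : Fin m) :
    sutor_R ℓ (algebraMap F[X] (RatFunc F) (tal b E a (c + c') i))
      (algebraMap F[X] (RatFunc F) (tal b E a c i) *
        algebraMap F[X] (RatFunc F) (tal b E a c' i)) := by
  rw [sutor_tal_eq, sutor_tal_eq, sutor_tal_eq, ← Finset.prod_mul_distrib]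
  refine sutor_prod _ _ _ fun k _ => ?_
  by_cases hk : k = i
  · subst hk
    rw [sutor_exp_self, sutor_exp_self, sutor_exp_self, pow_zero, mul_one]
    exact sutor_refl _
  · rw [← pow_add]
    refine sutor_congr (sutor_fac_ne hE ha hk) ?_
    rw [Nat.cast_add, ZMod.natCast_zmod_val, ZMod.natCast_zmod_val, ZMod.natCast_zmod_val,
      Pi.add_apply, Pi.add_apply]
    ring

theorem sutor_tal_smul [NeZero ℓ] (hE : E ≠ 0) (ha : Function.Injective a) (γ : ZMod ℓ)
    (c : Fin m → ZMod ℓ) (i : Fin m) :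
    sutor_R ℓ (algebraMap F[X] (RatFunc F) (tal b E a (γ • c) i))
      (algebraMap F[X] (RatFunc F) (tal b E a c i) ^ γ.val) := by
  rw [sutor_tal_eq, sutor_tal_eq, ← Finset.prod_pow]
  refine sutor_prod _ _ _ fun k _ => ?_
  by_cases hk : k = i
  · subst hk
    rw [sutor_exp_self, sutor_exp_self, pow_zero, one_pow]
    exact sutor_refl _
  · rw [← pow_mul]
    refine sutor_congr (sutor_fac_ne hE ha hk) ?_
    rw [Nat.cast_mul, ZMod.natCast_zmod_val, ZMod.natCast_zmod_val, ZMod.natCast_zmod_val,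
      Pi.smul_apply, Pi.smul_apply, smul_eq_mul, smul_eq_mul]
    ring

theorem sutor_tal_ne [NeZero ℓ] (hE : E ≠ 0) (ha : Function.Injective a) (c : Fin m → ZMod ℓ)
    (i : Fin m) : algebraMap F[X] (RatFunc F) (tal b E a c i) ≠ 0 := by
  rw [sutor_tal_eq]
  refine Finset.prod_ne_zero_iff.2 fun k _ => ?_
  by_cases hk : k = i
  · subst hk
    rw [sutor_exp_self, pow_zero]
    exact one_ne_zero
  · exact pow_ne_zero _ (sutor_fac_ne hE ha hk)

theorem sutor_tal_zero [NeZero ℓ] (i : Fin m) : tal b E a (0 : Fin m → ZMod ℓ) i = 1 := by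
  unfold tal
  refine Finset.prod_eq_one fun k _ => ?_
  rw [Pi.zero_apply, Pi.zero_apply, sub_zero, mul_zero, zero_mul, ZMod.val_zero, pow_zero]

theorem sutor_tuple [Fact ℓ.Prime] (hodd : Odd ℓ) (hE : E ≠ 0) (ha : Function.Injective a)
    (hB : (∑ k, (b k : ZMod ℓ)) ≠ 0) (j i : Fin m) :
    sutor_R ℓ (torsionTuple (pts E a) b j i)
      (algebraMap F[X] (RatFunc F) (tal b E a (sutor_e ℓ b j) i)) := by
  classical
  have : NeZero ℓ := ⟨(Fact.out : ℓ.Prime).ne_zero⟩
  have hpt : ∀ i k, pts E a i - pts E a k = algebraMap F[X] (RatFunc F) (E * (a i - a k)) := by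
    intro i k
    unfold pts
    rw [← map_sub, ← mul_sub]
  rw [sutor_tal_eq]
  unfold torsionTuple
  by_cases hij : i = j
  · subst hij
    rw [if_pos rfl, ← Finset.mul_prod_erase _ _ (Finset.mem_univ i), sutor_exp_self, pow_zero,
      one_mul, ← Finset.prod_inv_distrib]
    refine sutor_prod _ _ _ fun k hk => ?_
    have hki := Finset.ne_of_mem_erase hk
    have hx := sutor_fac_ne (E := E) hE ha hki
    rw [hpt]
    set x := algebraMap F[X] (RatFunc F) (E * (a i - a k)) with hxdef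
    set e := ((b k : ZMod ℓ) * (sutor_e ℓ b i i - sutor_e ℓ b i k) *
      (∑ k, (b k : ZMod ℓ))⁻¹).val with he
    have h1 : sutor_R ℓ (x ^ (b k + e)) (x ^ 0) := by
      refine sutor_congr hx ?_
      rw [Nat.cast_add, he, ZMod.natCast_zmod_val, sutor_e, sutor_e, if_pos rfl, if_neg hki]
      field_simp
      ring
    rw [pow_zero, pow_add] at h1
    obtain ⟨z, hz, h2⟩ := h1
    refine ⟨z⁻¹, inv_ne_zero hz, ?_⟩
    rw [one_mul] at h2
    rw [inv_pow, ← h2]
    have := pow_ne_zero (b k) hx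
    have := pow_ne_zero e hx
    field_simp
  · rw [if_neg hij, Finset.prod_eq_single j]
    · have hx := sutor_fac_ne (E := E) hE ha (i := i) (k := j) (fun h => hij h.symm)
      have h1 : sutor_R ℓ (algebraMap F[X] (RatFunc F) (E * (a i - a j)) ^ b j)
          (algebraMap F[X] (RatFunc F) (E * (a i - a j)) ^
            ((b j : ZMod ℓ) * (sutor_e ℓ b j i - sutor_e ℓ b j j) *
              (∑ k, (b k : ZMod ℓ))⁻¹).val) := by
        refine sutor_congr hx ?_
        rw [ZMod.natCast_zmod_val, sutor_e, sutor_e, if_pos rfl, if_neg hij]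
        field_simp
        ring
      refine sutor_trans ?_ h1
      refine ⟨(-1) ^ b j, pow_ne_zero _ (neg_ne_zero.2 one_ne_zero), ?_⟩
      rw [hpt, ← pow_mul, mul_comm (b j) ℓ, pow_mul, hodd.neg_one_pow, ← mul_pow, mul_neg, mul_one,
        ← map_neg]
      congr 2
      ring
    · intro k _ hk
      rw [sutor_e, sutor_e, if_neg hij, if_neg hk, sub_self, mul_zero, zero_mul, ZMod.val_zero,
        pow_zero]
    · intro h
      exact absurd (Finset.mem_univ j) h

theorem sutor_e_sum (j : Fin m) : ∑ i, (b i : ZMod ℓ) * sutor_e ℓ b j i = 0 := by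
  unfold sutor_e
  have h1 : ∀ i, (b i : ZMod ℓ) * ((b j : ZMod ℓ) - (∑ k, (b k : ZMod ℓ)) *
      if i = j then 1 else 0) = (b i : ZMod ℓ) * (b j : ZMod ℓ) -
      if i = j then (b i : ZMod ℓ) * (∑ k, (b k : ZMod ℓ)) else 0 := by
    intro i
    split_ifs <;> ring
  rw [Finset.sum_congr rfl fun i _ => h1 i, Finset.sum_sub_distrib, ← Finset.sum_mul,
    Finset.sum_ite_eq' Finset.univ j, if_pos (Finset.mem_univ j)]
  ring

theorem sutor_decomp [Fact ℓ.Prime] (hB : (∑ k, (b k : ZMod ℓ)) ≠ 0) (c : Fin m → ZMod ℓ)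
    (hc : ∑ i, (b i : ZMod ℓ) * c i = 0) :
    c = ∑ j, (-c j * (∑ k, (b k : ZMod ℓ))⁻¹) • sutor_e ℓ b j := by
  funext i
  rw [Finset.sum_apply]
  have h1 : ∀ j, ((-c j * (∑ k, (b k : ZMod ℓ))⁻¹) • sutor_e ℓ b j) i =
      -(∑ k, (b k : ZMod ℓ))⁻¹ * ((b j : ZMod ℓ) * c j) + if i = j then c j else 0 := by
    intro j
    rw [Pi.smul_apply, smul_eq_mul]
    unfold sutor_e
    by_cases hij : i = j
    · rw [if_pos hij, if_pos hij]
      field_simp
      ring
    · rw [if_neg hij, if_neg hij]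
      ring
  rw [Finset.sum_congr rfl fun j _ => h1 j, Finset.sum_add_distrib, ← Finset.mul_sum, hc,
    Finset.sum_ite_eq Finset.univ i, if_pos (Finset.mem_univ i), mul_zero, zero_add]

end tau

theorem tSuTor : StmtSuTor.{u} := by
  intro F _ ℓ hℓ hℓ2 m E hE a ha b hb
  classical
  have : Fact ℓ.Prime := ⟨hℓ⟩
  have : NeZero ℓ := ⟨hℓ.ne_zero⟩
  have hodd : Odd ℓ := hℓ.odd_of_ne_two hℓ2
  have hB : (∑ k, (b k : ZMod ℓ)) ≠ 0 := by
    rw [← Nat.cast_sum]
    exact fun h => hb ((ZMod.natCast_eq_zero_iff _ _).1 h)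
  have hpi : Function.Injective (pts E a) := by
    intro i k h
    unfold pts at h
    exact ha (mul_left_cancel₀ hE (RatFunc.algebraMap_injective F h))
  constructor
  · intro t ht
    let H : Subgroup (Fin m → (RatFunc F)ˣ) :=
      { carrier := {t | ∃ c : Fin m → ZMod ℓ, ∑ i, (b i : ZMod ℓ) * c i = 0 ∧
          ∀ i, sutor_R ℓ (t i : RatFunc F) (algebraMap F[X] (RatFunc F) (tal b E a c i))}
        mul_mem' := by
          rintro s t ⟨c, hc, h⟩ ⟨c', hc', h'⟩
          refine ⟨c + c', ?_, fun i => ?_⟩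
          · simp only [Pi.add_apply, mul_add]
            rw [Finset.sum_add_distrib, hc, hc', add_zero]
          · rw [Pi.mul_apply, Units.val_mul]
            exact sutor_trans (sutor_mul (h i) (h' i)) (sutor_symm (sutor_tal_add hE ha c c' i))
        one_mem' := ⟨0, by simp, fun i => by
          rw [sutor_tal_zero, map_one, Pi.one_apply, Units.val_one]
          exact sutor_refl _⟩
        inv_mem' := by
          rintro t ⟨c, hc, h⟩
          refine ⟨-c, by simp [hc], fun i => ?_⟩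
          rw [Pi.inv_apply, Units.val_inv_eq_inv_val]
          refine sutor_trans (sutor_inv (h i)) ?_
          have h1 := sutor_tal_add (b := b) hE ha c (-c) i
          rw [add_neg_cancel, sutor_tal_zero, map_one] at h1
          obtain ⟨z, hz, h2⟩ := h1
          have h3 := sutor_tal_ne (b := b) hE ha c i
          refine ⟨z, hz, ?_⟩
          rw [eq_comm, ← mul_right_inj' h3, ← mul_assoc, ← h2, mul_inv_cancel₀ h3] }
    have hle : torsionGroup ℓ (pts E a) b ≤ H := by
      rw [torsionGroup, Subgroup.closure_le]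
      rintro d (⟨z, rfl⟩ | ⟨j, hj⟩)
      · refine ⟨0, by simp, fun i => ⟨(z i : RatFunc F), (z i).ne_zero, ?_⟩⟩
        rw [sutor_tal_zero, map_one, one_mul, Pi.pow_apply, Units.val_pow_eq_pow_val]
      · refine ⟨sutor_e ℓ b j, sutor_e_sum j, fun i => ?_⟩
        rw [hj i]
        exact sutor_tuple hodd hE ha hB j i
    obtain ⟨c, hc, h⟩ := hle ht
    exact ⟨c, hc, fun i => ⟨(h i).choose, (h i).choose_spec.2⟩⟩
  · intro c hc t ht
    set γ : Fin m → ZMod ℓ := fun j => -c j * (∑ k, (b k : ZMod ℓ))⁻¹ with hγ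
    have key : ∀ (S : Finset (Fin m)) (t : Fin m → (RatFunc F)ˣ),
        (∀ i, sutor_R ℓ (t i : RatFunc F)
          (algebraMap F[X] (RatFunc F) (tal b E a (∑ j ∈ S, γ j • sutor_e ℓ b j) i))) →
        t ∈ torsionGroup ℓ (pts E a) b := by
      intro S
      induction S using Finset.induction_on with
      | empty =>
        intro t ht
        choose z hz0 hz using ht
        refine Subgroup.subset_closure (Or.inl ⟨fun i => Units.mk0 (z i) (hz0 i), ?_⟩)
        funext i
        ext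
        rw [hz i, Finset.sum_empty, sutor_tal_zero, map_one, one_mul, Pi.pow_apply,
          Units.val_pow_eq_pow_val, Units.val_mk0]
      | insert j S hj ih =>
        intro t ht
        let u : Fin m → (RatFunc F)ˣ := fun i =>
          Units.mk0 (torsionTuple (pts E a) b j i) (torsionTuple_ne_zero hpi b j i)
        have hu : u ∈ torsionGroup ℓ (pts E a) b :=
          Subgroup.subset_closure (Or.inr ⟨j, fun i => rfl⟩)
        have hu' : u ^ (γ j).val ∈ torsionGroup ℓ (pts E a) b := pow_mem hu _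
        have h1 : t * (u ^ (γ j).val)⁻¹ ∈ torsionGroup ℓ (pts E a) b := by
          refine ih _ fun i => ?_
          rw [Pi.mul_apply, Units.val_mul, Pi.inv_apply, Units.val_inv_eq_inv_val, Pi.pow_apply,
            Units.val_pow_eq_pow_val]
          have h2 : sutor_R ℓ (t i : RatFunc F)
              (algebraMap F[X] (RatFunc F) (tal b E a (γ j • sutor_e ℓ b j) i) *
                algebraMap F[X] (RatFunc F)
                  (tal b E a (∑ j ∈ S, γ j • sutor_e ℓ b j) i)) := by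
            have h3 := ht i
            rw [Finset.sum_insert hj] at h3
            exact sutor_trans h3 (sutor_tal_add hE ha _ _ i)
          have h4 : sutor_R ℓ ((u i : RatFunc F) ^ (γ j).val)
              (algebraMap F[X] (RatFunc F) (tal b E a (γ j • sutor_e ℓ b j) i)) :=
            sutor_trans (sutor_powr (sutor_tuple hodd hE ha hB j i) _)
              (sutor_symm (sutor_tal_smul hE ha _ _ i))
          refine sutor_trans (sutor_mul h2 (sutor_inv h4)) ?_
          apply sutor_of_eq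
          have h5 := sutor_tal_ne (b := b) hE ha (γ j • sutor_e ℓ b j) i
          rw [mul_comm, ← mul_assoc, inv_mul_cancel₀ h5, one_mul]
        have h5 := mul_mem h1 hu'
        rwa [inv_mul_cancel_right] at h5
    refine key Finset.univ t fun i => ?_
    rw [hγ, ← sutor_decomp hB c hc]
    obtain ⟨z, hz⟩ := ht i
    refine ⟨z, ?_, hz⟩
    rintro rfl
    refine (t i).ne_zero ?_
    rw [hz, zero_pow hℓ.ne_zero, mul_zero]

end MP72e2e6
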