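import Pool.Agent.Lib.MP_72e2e6_nt.PgStmt
import Pool.Agent.Lib.MP_72e2e6_nt.SuTor

/-!
# MP_72e2e6_nt: the torsion group in terms of `tal`, `-1` an `ℓ`-th power
-/

set_option autoImplicit false

namespace MP72e2e6

open Polynomial IsDedekindDomain

universe u

section tau

variable {F : Type u} [Field F] {m ℓ : ℕ} {E : F[X]} {a : Fin m → F[X]} {b : Fin m → ℕ}

theorem pgtor_tuple [Fact ℓ.Prime] {z₀ : F} (hz₀ : z₀ ^ ℓ = -1) (hE : E ≠ 0) (ha : Function.Injective a)
    (hB : (∑ k, (b k : ZMod ℓ)) ≠ 0) (j i : Fin m) :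
    sutor_R ℓ (torsionTuple (pts E a) b j i)
      (algebraMap F[X] (RatFunc F) (tal b E a (sutor_e ℓ b j) i)) := by
  classical
  have : NeZero ℓ := ⟨(Fact.out : ℓ.Prime).ne_zero⟩
  have hpt : ∀ i k, pts E a i - pts E a k = algebraMap F[X] (RatFunc F) (E * (a i - a k)) := by
    intro i k
    unfold pts
    rw [← map_sub, ← mul_sub]
  rw [sutor_tal_eq]
  unfold torsionTuple
  by_cases hij : i = j
  · subst hij
    rw [if_pos rfl, ← Finset.mul_prod_erase _ _ (Finset.mem_univ i), sutor_exp_self, pow_zero,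
      one_mul, ← Finset.prod_inv_distrib]
    refine sutor_prod _ _ _ fun k hk => ?_
    have hki := Finset.ne_of_mem_erase hk
    have hx := sutor_fac_ne (E := E) hE ha hki
    rw [hpt]
    set x := algebraMap F[X] (RatFunc F) (E * (a i - a k)) with hxdef
    set e := ((b k : ZMod ℓ) * (sutor_e ℓ b i i - sutor_e ℓ b i k) *
      (∑ k, (b k : ZMod ℓ))⁻¹).val with he
    have h1 : sutor_R ℓ (x ^ (b k + e)) (x ^ 0) := by
      refine sutor_congr hx ?_
      rw [Nat.cast_add, he, ZMod.natCast_zmod_val, sutor_e, sutor_e, if_pos rfl, if_neg hki]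
      field_simp
      ring
    rw [pow_zero, pow_add] at h1
    obtain ⟨z, hz, h2⟩ := h1
    refine ⟨z⁻¹, inv_ne_zero hz, ?_⟩
    rw [one_mul] at h2
    rw [inv_pow, ← h2]
    have := pow_ne_zero (b k) hx
    have := pow_ne_zero e hx
    field_simp
  · rw [if_neg hij, Finset.prod_eq_single j]
    · have hx := sutor_fac_ne (E := E) hE ha (i := i) (k := j) (fun h => hij h.symm)
      have h1 : sutor_R ℓ (algebraMap F[X] (RatFunc F) (E * (a i - a j)) ^ b j)
          (algebraMap F[X] (RatFunc F) (E * (a i - a j)) ^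
            ((b j : ZMod ℓ) * (sutor_e ℓ b j i - sutor_e ℓ b j j) *
              (∑ k, (b k : ZMod ℓ))⁻¹).val) := by
        refine sutor_congr hx ?_
        rw [ZMod.natCast_zmod_val, sutor_e, sutor_e, if_pos rfl, if_neg hij]
        field_simp
        ring
      refine sutor_trans ?_ h1
      have hz₁ : z₀ ≠ 0 := by
        rintro rfl
        rw [zero_pow (Fact.out : ℓ.Prime).ne_zero] at hz₀
        exact neg_ne_zero.2 (one_ne_zero (α := F)) hz₀.symm
      refine ⟨algebraMap F (RatFunc F) z₀ ^ b j,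
        pow_ne_zero _ ((map_ne_zero_iff _ (algebraMap F (RatFunc F)).injective).2 hz₁), ?_⟩
      have h2 : algebraMap F (RatFunc F) z₀ ^ ℓ = -1 := by
        rw [← map_pow, hz₀, map_neg, map_one]
      rw [hpt, ← pow_mul, mul_comm (b j) ℓ, pow_mul, h2, ← mul_pow, mul_neg, mul_one, ← map_neg]
      congr 2
      ring
    · intro k _ hk
      rw [sutor_e, sutor_e, if_neg hij, if_neg hk, sub_self, mul_zero, zero_mul, ZMod.val_zero,
        pow_zero]
    · intro h
      exact absurd (Finset.mem_univ j) h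

end tau

theorem tPgTor : StmtPgTor.{u} := by
  intro F _ ℓ hℓ hz m E hE a ha b hb
  obtain ⟨z₀, hz₀⟩ := hz
  classical
  have : Fact ℓ.Prime := ⟨hℓ⟩
  have : NeZero ℓ := ⟨hℓ.ne_zero⟩
  have hB : (∑ k, (b k : ZMod ℓ)) ≠ 0 := by
    rw [← Nat.cast_sum]
    exact fun h => hb ((ZMod.natCast_eq_zero_iff _ _).1 h)
  have hpi : Function.Injective (pts E a) := by
    intro i k h
    unfold pts at h
    exact ha (mul_left_cancel₀ hE (RatFunc.algebraMap_injective F h))
  constructor
  · intro t ht
    let H : Subgroup (Fin m → (RatFunc F)ˣ) :=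
      { carrier := {t | ∃ c : Fin m → ZMod ℓ, ∑ i, (b i : ZMod ℓ) * c i = 0 ∧
          ∀ i, sutor_R ℓ (t i : RatFunc F) (algebraMap F[X] (RatFunc F) (tal b E a c i))}
        mul_mem' := by
          rintro s t ⟨c, hc, h⟩ ⟨c', hc', h'⟩
          refine ⟨c + c', ?_, fun i => ?_⟩
          · simp only [Pi.add_apply, mul_add]
            rw [Finset.sum_add_distrib, hc, hc', add_zero]
          · rw [Pi.mul_apply, Units.val_mul]
            exact sutor_trans (sutor_mul (h i) (h' i)) (sutor_symm (sutor_tal_add hE ha c c' i))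
        one_mem' := ⟨0, by simp, fun i => by
          rw [sutor_tal_zero, map_one, Pi.one_apply, Units.val_one]
          exact sutor_refl _⟩
        inv_mem' := by
          rintro t ⟨c, hc, h⟩
          refine ⟨-c, by simp [hc], fun i => ?_⟩
          rw [Pi.inv_apply, Units.val_inv_eq_inv_val]
          refine sutor_trans (sutor_inv (h i)) ?_
          have h1 := sutor_tal_add (b := b) hE ha c (-c) i
          rw [add_neg_cancel, sutor_tal_zero, map_one] at h1
          obtain ⟨z, hz, h2⟩ := h1
          have h3 := sutor_tal_ne (b := b) hE ha c i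
          refine ⟨z, hz, ?_⟩
          rw [eq_comm, ← mul_right_inj' h3, ← mul_assoc, ← h2, mul_inv_cancel₀ h3] }
    have hle : torsionGroup ℓ (pts E a) b ≤ H := by
      rw [torsionGroup, Subgroup.closure_le]
      rintro d (⟨z, rfl⟩ | ⟨j, hj⟩)
      · refine ⟨0, by simp, fun i => ⟨(z i : RatFunc F), (z i).ne_zero, ?_⟩⟩
        rw [sutor_tal_zero, map_one, one_mul, Pi.pow_apply, Units.val_pow_eq_pow_val]
      · refine ⟨sutor_e ℓ b j, sutor_e_sum j, fun i => ?_⟩
        rw [hj i]
        exact pgtor_tuple hz₀ hE ha hB j i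
    obtain ⟨c, hc, h⟩ := hle ht
    exact ⟨c, hc, fun i => ⟨(h i).choose, (h i).choose_spec.2⟩⟩
  · intro c hc t ht
    set γ : Fin m → ZMod ℓ := fun j => -c j * (∑ k, (b k : ZMod ℓ))⁻¹ with hγ
    have key : ∀ (S : Finset (Fin m)) (t : Fin m → (RatFunc F)ˣ),
        (∀ i, sutor_R ℓ (t i : RatFunc F)
          (algebraMap F[X] (RatFunc F) (tal b E a (∑ j ∈ S, γ j • sutor_e ℓ b j) i))) →
        t ∈ torsionGroup ℓ (pts E a) b := by
      intro S
      induction S using Finset.induction_on with
      | empty =>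
        intro t ht
        choose z hz0 hz using ht
        refine Subgroup.subset_closure (Or.inl ⟨fun i => Units.mk0 (z i) (hz0 i), ?_⟩)
        funext i
        ext
        rw [hz i, Finset.sum_empty, sutor_tal_zero, map_one, one_mul, Pi.pow_apply,
          Units.val_pow_eq_pow_val, Units.val_mk0]
      | insert j S hj ih =>
        intro t ht
        let u : Fin m → (RatFunc F)ˣ := fun i =>
          Units.mk0 (torsionTuple (pts E a) b j i) (torsionTuple_ne_zero hpi b j i)
        have hu : u ∈ torsionGroup ℓ (pts E a) b :=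
          Subgroup.subset_closure (Or.inr ⟨j, fun i => rfl⟩)
        have hu' : u ^ (γ j).val ∈ torsionGroup ℓ (pts E a) b := pow_mem hu _
        have h1 : t * (u ^ (γ j).val)⁻¹ ∈ torsionGroup ℓ (pts E a) b := by
          refine ih _ fun i => ?_
          rw [Pi.mul_apply, Units.val_mul, Pi.inv_apply, Units.val_inv_eq_inv_val, Pi.pow_apply,
            Units.val_pow_eq_pow_val]
          have h2 : sutor_R ℓ (t i : RatFunc F)
              (algebraMap F[X] (RatFunc F) (tal b E a (γ j • sutor_e ℓ b j) i) *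
                algebraMap F[X] (RatFunc F)
                  (tal b E a (∑ j ∈ S, γ j • sutor_e ℓ b j) i)) := by
            have h3 := ht i
            rw [Finset.sum_insert hj] at h3
            exact sutor_trans h3 (sutor_tal_add hE ha _ _ i)
          have h4 : sutor_R ℓ ((u i : RatFunc F) ^ (γ j).val)
              (algebraMap F[X] (RatFunc F) (tal b E a (γ j • sutor_e ℓ b j) i)) :=
            sutor_trans (sutor_powr (pgtor_tuple hz₀ hE ha hB j i) _)
              (sutor_symm (sutor_tal_smul hE ha _ _ i))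
          refine sutor_trans (sutor_mul h2 (sutor_inv h4)) ?_
          apply sutor_of_eq
          have h5 := sutor_tal_ne (b := b) hE ha (γ j • sutor_e ℓ b j) i
          rw [mul_comm, ← mul_assoc, inv_mul_cancel₀ h5, one_mul]
        have h5 := mul_mem h1 hu'
        rwa [inv_mul_cancel_right] at h5
    refine key Finset.univ t fun i => ?_
    rw [hγ, ← sutor_decomp hB c hc]
    obtain ⟨z, hz⟩ := ht i
    refine ⟨z, ?_, hz⟩
    rintro rfl
    refine (t i).ne_zero ?_
    rw [hz, zero_pow hℓ.ne_zero, mul_zero]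

end MP72e2e6
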