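import Pool.Agent.Lib.MP_72e2e6_nt.PrAll
import Pool.Agent.Lib.MP_72e2e6_nt.GenOdd
import Pool.Agent.Lib.MP_72e2e6_nt.PgCon
import Pool.Agent.Lib.MP_72e2e6_nt.PgNrm
import Pool.Agent.Lib.MP_72e2e6_nt.PgLoc
import Pool.Agent.Lib.MP_72e2e6_nt.PgLocV
import Pool.Agent.Lib.MP_72e2e6_nt.PgLocF
import Pool.Agent.Lib.MP_72e2e6_nt.PgLocI
import Pool.Agent.Lib.MP_72e2e6_nt.PgTor
import Pool.Agent.Lib.MP_72e2e6_nt.PgSel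
import Pool.Agent.Lib.MP_72e2e6_nt.PgEq
import Pool.Agent.Lib.MP_72e2e6_nt.PgRel
import Pool.Agent.Lib.MP_72e2e6_nt.PgInj
import Pool.Agent.Lib.MP_72e2e6_nt.PgCom
import Pool.Agent.Lib.MP_72e2e6_nt.PgHyp
import Pool.Agent.Lib.MP_72e2e6_nt.PgEdg
import Pool.Agent.Lib.MP_72e2e6_nt.PgIrr
import Pool.Agent.Lib.MP_72e2e6_nt.PgEx

/-!
# MP_72e2e6_nt: weak tameness, the modules for all primes together, and the theorem for odd `ℓ`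
-/

namespace MP72e2e6

open Polynomial IsDedekindDomain

universe u

theorem pgRel_all : StmtPgRel.{u} := by
  have hSy : StmtSuSy.{u} := tSuSy
  have hFac := tSuFac hSy
  have hTal := tSuTal hSy
  have hLocV := tPgLocV (tPgLoc tPgNrm.{u})
  exact tPgRel hSy hFac tPgTor (tPgEq hSy hFac hTal
    (tPgSel hSy hTal (tPgLocF hLocV) (tPgLocI hLocV) (tSuPwF hSy) tSuPwI tPgTor))

theorem pgHyp_all : StmtPgHyp.{u} := by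
  have hSy : StmtSuSy.{u} := tSuSy
  exact tPgHyp hSy (tSuFac hSy) tPgInj (tPgCom tPpCom)

theorem pgEdg_all : StmtPgEdg.{u} := by
  have hSy : StmtSuSy.{u} := tSuSy
  exact tPgEdg hSy (tSuFac hSy)

open Classical in
/-- the distribution theorem for odd `ℓ` -/
theorem gen_odd {F : Type u} [Field F] [Finite F] {ℓ : ℕ} [Fact ℓ.Prime]
    (hℓ2 : ℓ ≠ 2) (hq : ℓ ∣ Nat.card F - 1) {m : ℕ} (hm : 0 < m) {a : Fin m → F[X]}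
    (ha : Function.Injective a) {b : Fin m → ℕ} (hb : ∀ i, ¬ ℓ ∣ b i) (hB : ¬ ℓ ∣ ∑ i, b i)
    {D : F[X]} (hD : TDg ℓ b a D) :
    (∃ c : ℝ, 0 < c ∧ ∃ n₀ : ℕ, ∀ n : ℕ, n₀ ≤ n →
      c * (Nat.card F : ℝ) ^ n ≤ ((Msf a D n).ncard : ℝ)) ∧
    (∀ n : ℕ, Tam ℓ b (wI a) (-((D.natDegree + n : ℕ) : ℤ)) → ∀ M ∈ Msf a D n,
      ist ℓ a b (D * M) ≠ 0) ∧
    (∀ k : ℕ, ∃ N : ℕ, (2 ≤ m → ConnG ℓ a → N = ∏ i ∈ Finset.range k, (1 + ℓ ^ i)) ∧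
      ∀ ε : ℝ, 0 < ε → ∃ n₀ : ℕ, ∀ n : ℕ, n₀ ≤ n →
        Tam ℓ b (wI a) (-((D.natDegree + n : ℕ) : ℤ)) →
        |∑ᶠ M ∈ Msf a D n, (ist ℓ a b (D * M) : ℝ) ^ k - (N : ℝ) * ((Msf a D n).ncard : ℝ)| ≤
          ε * ((Msf a D n).ncard : ℝ)) ∧
    (∀ ε : ℝ, 0 < ε → ∃ n₀ : ℕ, ∀ n : ℕ, n₀ ≤ n →
      Tam ℓ b (wI a) (-((D.natDegree + n : ℕ) : ℤ)) →
      ((1 - 1 / ((ℓ : ℝ) - 1)) ^ (m - 1) - ε) * ((Msf a D n).ncard : ℝ) ≤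
        ({M ∈ Msf a D n |
          placesSelmer F[X] (RatFunc.inftyValuation F) ℓ (pts (D * M) a) b =
            torsionGroup ℓ (pts (D * M) a) b}.ncard : ℝ)) ∧
    (2 ≤ m → ConnG ℓ a → ∀ (r : ℕ) (ε : ℝ), 0 < ε → ∃ n₀ : ℕ, ∀ n : ℕ, n₀ ≤ n →
      Tam ℓ b (wI a) (-((D.natDegree + n : ℕ) : ℤ)) →
      |({M ∈ Msf a D n | ist ℓ a b (D * M) = ℓ ^ r}.ncard : ℝ) -
        (∏' i : ℕ, (1 - ((ℓ : ℝ)⁻¹) ^ (2 * i + 1))) /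
          (∏ i ∈ Finset.range r, ((ℓ : ℝ) ^ (i + 1) - 1)) * ((Msf a D n).ncard : ℝ)| ≤
        ε * ((Msf a D n).ncard : ℝ)) := by
  have hℓ : ℓ.Prime := Fact.out
  have hSy : StmtSuSy.{u} := tSuSy
  have hRec := tSuRec hSy
  refine go_main tSuLg pqFM_all pqPos_all (tPqRep (tPqEqv hSy hRec)) pqMix_all pqCt_all
    tPqMul tPqFun tPqMom tPrPow (tPrDis tPqMul tPqFun tPrEul) prCnt_all
    (recP_odd hℓ hℓ2) hSy tPgTor tPpBij ppCnt_all pgHyp_all pgRel_all hℓ2 hq hm ha hb hB hD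
    fun χ hχ hχ1 V _ pr hpr hcov e hm2 hcn => ?_
  obtain ⟨h1, h2, h3, h4, -⟩ :=
    pgcon_main pgEdg_all tPgIrr hq hχ hχ1 hm2 ha hb hB hpr hcov e hcn
  exact ⟨h1, h2, h3, h4 hℓ2⟩

/-- tame exponents exist if there are few branch points -/
theorem gen_tam {F : Type u} [Field F] {ℓ m : ℕ} [Fact ℓ.Prime] {a : Fin m → F[X]}
    (ha : Function.Injective a) {b : Fin m → ℕ} (hb : ∀ i, ¬ ℓ ∣ b i) (hB : ¬ ℓ ∣ ∑ i, b i)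
    (hm : m ≤ ℓ ∨ m ≤ 3) :
    (∀ P : F[X], P.Monic → Irreducible P → ∃ e : ℤ, Tam ℓ b (wP P a) e) ∧
      ∃ e : ℤ, Tam ℓ b (wI a) e :=
  ⟨fun P hP hPi => tPgEx ℓ m b hb hB hm _ (ultra_wP hPi ha), tPgEx ℓ m b hb hB hm _ ultra_wI⟩

end MP72e2e6
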