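import Pool.Agent.Lib.MP_72e2e6_nt.PgStmt
import Pool.Agent.Lib.MP_72e2e6_nt.PeFrm

/-!
# MP_72e2e6_nt : the vector of a prime is fixed
-/

set_option autoImplicit false

namespace MP72e2e6

theorem pgfix_two : (2 : ZMod 2) = 0 := rfl

theorem pgfix_one : ∀ x : ZMod 2, x ≠ 0 → x = 1 := by decide

theorem pgfix_key (A B C : ℤ) (h1 : min A C ≤ B) (h2 : min A B ≤ C) (h3 : min B C ≤ A) :
    ((A : ZMod 2) + B) * (((min A B : ℤ) : ZMod 2) + C) = 0 := by
  have h20 := pgfix_two
  rcases lt_trichotomy A B with h | h | h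
  · have hC : C = A := by
      rcases min_choice A B with h4 | h4 <;> rcases min_choice B C with h5 | h5 <;> omega
    rw [min_eq_left h.le, hC]
    linear_combination ((A : ZMod 2) + B) * A * h20
  · rw [h]
    linear_combination ((B : ZMod 2) * (((min B B : ℤ) : ZMod 2) + C)) * h20
  · have hC : C = B := by
      rcases min_choice A B with h4 | h4 <;> rcases min_choice A C with h5 | h5 <;> omega
    rw [min_eq_right h.le, hC]
    linear_combination ((A : ZMod 2) + B) * B * h20

theorem tPgFix : StmtPgFix := by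
  intro m b hb hB w hw e he i
  classical
  have h20 := pgfix_two
  have hodd : ∀ n : ℕ, ¬ 2 ∣ n → (n : ZMod 2) = 1 := by
    intro n hn
    apply pgfix_one
    rwa [Ne, ZMod.natCast_eq_zero_iff]
  have hbk : ∀ k, (b k : ZMod 2) = 1 := fun k => hodd _ (hb k)
  have hBs : (∑ k, (b k : ZMod 2)) = 1 := by
    rw [← Nat.cast_sum]
    exact hodd _ hB
  obtain ⟨M, hM⟩ : ∃ M : Fin m → Fin m → ZMod 2, ∀ k j, M k j =
      ((min (w i j) (w i k) : ℤ) : ZMod 2) := ⟨_, fun _ _ => rfl⟩
  -- tameness
  have hT : ∀ k, k ≠ i → (e : ZMod 2) + 1 = ∑ j ∈ (Finset.univ.erase i).erase k, M k j := by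
    intro k hk
    have h1 := he i k hk.symm
    have h2 : ((e * (∑ k, (b k : ℤ)) + lev b w i k : ℤ) : ZMod 2) = 1 := by
      apply pgfix_one
      rw [Ne, ZMod.intCast_zmod_eq_zero_iff_dvd]
      exact_mod_cast h1
    have h3 : ((lev b w i k : ℤ) : ZMod 2) = ∑ j ∈ (Finset.univ.erase i).erase k, M k j := by
      have h4 : ((lev b w i k : ℤ) : ZMod 2) =
          ∑ j, (if j = i then (w i k : ZMod 2) else M k j) := by
        rw [lev]
        push_cast
        refine Finset.sum_congr rfl fun j _ => ?_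
        rw [hbk, one_mul, hM]
      rw [h4, ← Finset.add_sum_erase _ _ (Finset.mem_univ i), if_pos rfl]
      have h5 : ∑ j ∈ Finset.univ.erase i, (if j = i then (w i k : ZMod 2) else M k j) =
          ∑ j ∈ Finset.univ.erase i, M k j :=
        Finset.sum_congr rfl fun j hj => if_neg (Finset.ne_of_mem_erase hj)
      rw [h5, ← Finset.add_sum_erase _ _ (Finset.mem_erase.2 ⟨hk, Finset.mem_univ k⟩),
        hM k k, min_self]
      linear_combination (w i k : ZMod 2) * h20
    rw [← h3]
    push_cast at h2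
    rw [hBs] at h2
    linear_combination h2 + (1 - ((lev b w i k : ℤ) : ZMod 2)) * h20
  have hdiff : ∀ k, k ≠ i → (∑ j ∈ Finset.univ.erase i, (w i j : ZMod 2)) -
      ∑ j ∈ Finset.univ.erase k, (w k j : ZMod 2) =
      ∑ j ∈ (Finset.univ.erase i).erase k, ((w i j : ZMod 2) + w k j) := by
    intro k hk
    rw [← Finset.add_sum_erase (Finset.univ.erase i) _
        (Finset.mem_erase.2 ⟨hk, Finset.mem_univ k⟩),
      ← Finset.add_sum_erase (Finset.univ.erase k) _
        (Finset.mem_erase.2 ⟨hk.symm, Finset.mem_univ i⟩), Finset.erase_right_comm (a := k),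
      hw.symm k i, Finset.sum_add_distrib]
    linear_combination (-(∑ j ∈ (Finset.univ.erase i).erase k, (w k j : ZMod 2))) * h20
  rw [sg, hBs, inv_one, one_mul]
  have e1 : ∑ k, (b k : ZMod 2) * (w i k : ZMod 2) * ((∑ j ∈ Finset.univ.erase i,
      (w i j : ZMod 2)) - ∑ j ∈ Finset.univ.erase k, (w k j : ZMod 2)) =
      ∑ k ∈ Finset.univ.erase i, (w i k : ZMod 2) *
        ∑ j ∈ (Finset.univ.erase i).erase k, ((w i j : ZMod 2) + w k j) := by
    rw [← Finset.sum_erase (Finset.univ) (a := i)]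
    · refine Finset.sum_congr rfl fun k hk => ?_
      rw [hbk, one_mul, hdiff k (Finset.ne_of_mem_erase hk)]
    · rw [sub_self, mul_zero]
  rw [e1]
  obtain ⟨F, hF⟩ : ∃ F : Fin m → Fin m → ZMod 2, ∀ k j, F k j =
      if k ≠ i ∧ j ≠ i ∧ j ≠ k then (w i k : ZMod 2) * (M k j + w i j + w k j) else 0 :=
    ⟨_, fun _ _ => rfl⟩
  have e2 : ∑ k ∈ Finset.univ.erase i, (w i k : ZMod 2) *
      ∑ j ∈ (Finset.univ.erase i).erase k, (M k j + w i j + w k j) = ∑ k, ∑ j, F k j := by
    rw [← Finset.sum_subset (Finset.subset_univ (Finset.univ.erase i)) (f := fun k => ∑ j, F k j)]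
    · refine Finset.sum_congr rfl fun k hk => ?_
      have hki : k ≠ i := Finset.ne_of_mem_erase hk
      rw [← Finset.sum_subset (Finset.subset_univ ((Finset.univ.erase i).erase k))
        (f := fun j => F k j), Finset.mul_sum]
      · refine Finset.sum_congr rfl fun j hj => ?_
        rw [hF, if_pos ⟨hki, Finset.ne_of_mem_erase (Finset.mem_of_mem_erase hj),
          Finset.ne_of_mem_erase hj⟩]
      · intro j _ hj
        rw [hF, if_neg]
        rintro ⟨_, h2, h3⟩
        exact hj (Finset.mem_erase.2 ⟨h3, Finset.mem_erase.2 ⟨h2, Finset.mem_univ _⟩⟩)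
    · intro k _ hk
      refine Finset.sum_eq_zero fun j _ => ?_
      rw [hF, if_neg]
      rintro ⟨h1, _, _⟩
      exact hk (Finset.mem_erase.2 ⟨h1, Finset.mem_univ _⟩)
  have e3 : ∑ k, ∑ j, F k j = 0 := by
    refine pefrm_double F ?_ ?_
    · intro k j
      rw [hF, hF]
      by_cases h : k ≠ i ∧ j ≠ i ∧ j ≠ k
      · rw [if_pos h, if_pos ⟨h.2.1, h.1, h.2.2.symm⟩, hM, hM, min_comm (w i k) (w i j),
          hw.symm j k]
        have key := pgfix_key (w i j) (w i k) (w k j)
          (by
            have := hw.tri i j k h.2.1.symm h.2.2 h.1.symm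
            rwa [hw.symm j k] at this)
          (by
            have := hw.tri k i j h.1 h.2.1.symm h.2.2.symm
            rw [hw.symm k i, min_comm] at this
            exact this)
          (hw.tri i k j h.1.symm h.2.2.symm h.2.1.symm)
        linear_combination key - ((w i j : ZMod 2) *
          (((min (w i j) (w i k) : ℤ) : ZMod 2) + w k j)) * h20
      · rw [if_neg h, if_neg (fun h' => h ⟨h'.2.1, h'.1, h'.2.2.symm⟩)]
    · intro k
      rw [hF, if_neg (fun h => h.2.2 rfl)]
  rw [e3] at e2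
  have e4 : ∑ k ∈ Finset.univ.erase i, (w i k : ZMod 2) *
      ∑ j ∈ (Finset.univ.erase i).erase k, (M k j + w i j + w k j) =
      ∑ k ∈ Finset.univ.erase i, ((w i k : ZMod 2) * ((e : ZMod 2) + 1) + (w i k : ZMod 2) *
        ∑ j ∈ (Finset.univ.erase i).erase k, ((w i j : ZMod 2) + w k j)) := by
    refine Finset.sum_congr rfl fun k hk => ?_
    rw [hT k (Finset.ne_of_mem_erase hk), ← mul_add, ← Finset.sum_add_distrib]
    congr 1
    refine Finset.sum_congr rfl fun j _ => ?_
    ring
  rw [e4, Finset.sum_add_distrib, ← Finset.sum_mul] at e2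
  linear_combination e2 - (∑ k ∈ Finset.univ.erase i, (w i k : ZMod 2)) * h20

end MP72e2e6
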