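import Pool.Agent.Lib.MP_72e2e6_nt.PgStmt
import Pool.Agent.Lib.MP_72e2e6_nt.PeFrm

/-!
# MP_72e2e6_nt: parity for `ℓ = 2`, the form on the unknowns (module PgFrm)
-/

set_option autoImplicit false

open Polynomial

namespace MP72e2e6

universe u

section PgFrm

/-- the data of the statement -/
structure PgfrmD (ι : Type u) [Fintype ι] (W : Type) [AddCommGroup W] [Module (ZMod 2) W] where
  f : W →ₗ[ZMod 2] Module.Dual (ZMod 2) W
  nd : ∀ x, (∀ y, f x y = 0) → x = 0
  alt : ∀ x, f x x = 0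
  h : ι → W
  h₀ : W
  σ : ι → Module.End (ZMod 2) W
  τ : ι → Module.End (ZMod 2) W
  στ : ∀ β y, σ β (τ β y) = y
  τσ : ∀ β y, τ β (σ β y) = y
  Λ : Module.End (ZMod 2) W
  self : ∀ β x y, f x (σ β y) = f (σ β x) y
  selfL : ∀ x y, f x (Λ y) = f (Λ x) y
  l : ι → ι → ZMod 2
  lsymm : ∀ β β', l β β' = l β' β
  D : ι → ZMod 2
  com : ∀ β y, σ β (∑ β', l β β' • σ β' y + D β • Λ y) =
    ∑ β', l β β' • σ β' (σ β y) + D β • Λ (σ β y)
  rel : ∀ β x, f (σ β x) (∑ β', l β β' • σ β' x + D β • Λ x) =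
    f (σ β (∑ β', l β β' • h β' + D β • h₀) + (∑ β', l β β' • σ β' (h β) + D β • Λ (h β))) x
  fix : ∀ β, σ β (h β) = h β
  iso : ∀ β, f (h β) (∑ β', l β β' • σ β' (h β) + D β • Λ (h β)) = 0
  fixI : ∑ β, D β • σ β (∑ β, D β • h β) = ∑ β, D β • h β
  isoI : f (∑ β, D β • h β) (Λ (∑ β, D β • h β)) = 0
  inj : ∀ y, ∑ β, D β • σ β y = 0 → y = 0

namespace PgfrmD

variable {W : Type} [AddCommGroup W] [Module (ZMod 2) W]
variable {ι : Type u} [Fintype ι] (d : PgfrmD ι W)

/-- the operator `M β` -/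
noncomputable def M (β : ι) : Module.End (ZMod 2) W := ∑ β', d.l β β' • d.σ β' + d.D β • d.Λ

theorem M_apply (β : ι) (y : W) : d.M β y = ∑ β', d.l β β' • d.σ β' y + d.D β • d.Λ y := by
  simp [M, LinearMap.sum_apply]

/-- the vector `∑ D β • h β` -/
noncomputable def hI : W := ∑ β, d.D β • d.h β

/-- the vector `∑ l β β' • h β'` -/
noncomputable def hl (β : ι) : W := ∑ β', d.l β β' • d.h β'

theorem symm (x y : W) : d.f x y = d.f y x := pefrm_symm d.alt x y

theorem σM (β : ι) (y : W) : d.σ β (d.M β y) = d.M β (d.σ β y) := by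
  rw [M_apply, M_apply]
  exact d.com β y

theorem τM (β : ι) (y : W) : d.τ β (d.M β y) = d.M β (d.τ β y) := by
  have h1 := d.σM β (d.τ β y)
  rw [d.στ] at h1
  rw [← h1, d.τσ]

theorem τfix (β : ι) : d.τ β (d.h β) = d.h β := by
  have h1 := d.τσ β (d.h β)
  rwa [d.fix] at h1

theorem adjσ (β : ι) (x y : W) : d.f (d.σ β x) y = d.f x (d.σ β y) := (d.self β x y).symm

theorem adjτ (β : ι) (x y : W) : d.f (d.τ β x) y = d.f x (d.τ β y) := by
  have h1 := d.self β (d.τ β x) (d.τ β y)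
  rwa [d.στ, d.στ] at h1

theorem adjM (β : ι) (x y : W) : d.f (d.M β x) y = d.f x (d.M β y) := by
  rw [M_apply, M_apply, map_add, LinearMap.add_apply, map_sum, LinearMap.sum_apply, map_add, map_sum]
  congr 1
  · refine Finset.sum_congr rfl fun β' _ => ?_
    rw [map_smul, LinearMap.smul_apply, map_smul, d.adjσ]
  · rw [map_smul, LinearMap.smul_apply, map_smul, d.selfL]

theorem rel' (β : ι) (y : W) : d.f y (d.M β (d.τ β y)) =
    d.f (d.hl β) y + d.D β * d.f d.h₀ y + d.f (d.M β (d.h β)) y := by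
  have h1 := d.rel β (d.τ β y)
  rw [d.στ, ← M_apply, ← M_apply, map_add, LinearMap.add_apply, d.adjσ, d.στ] at h1
  have h2 : d.f (d.M β (d.h β)) (d.τ β y) = d.f (d.M β (d.h β)) y := by
    rw [← d.adjτ, d.τM, d.τfix]
  rw [h1, h2, map_add, LinearMap.add_apply, map_smul, LinearMap.smul_apply, smul_eq_mul]
  rfl

/-- the operator `T` -/
noncomputable def T : (ι → W) →ₗ[ZMod 2] (ι → W) :=
  LinearMap.pi fun β => ∑ β', d.l β β' • LinearMap.proj β' +
    (d.M β).comp ((d.τ β).comp (LinearMap.proj β))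

theorem T_apply (y : ι → W) (β : ι) : d.T y β = ∑ β', d.l β β' • y β' + d.M β (d.τ β (y β)) := by
  simp [T, LinearMap.sum_apply]

/-- `∑ D β • y β` -/
noncomputable def g : (ι → W) →ₗ[ZMod 2] W := ∑ β, d.D β • LinearMap.proj β

theorem g_apply (y : ι → W) : d.g y = ∑ β, d.D β • y β := by
  simp [g, LinearMap.sum_apply]

/-- the form is symmetric -/
theorem symm_B (y y' : ι → W) : ppfrm_fn d.f y (d.T y') = ppfrm_fn d.f y' (d.T y) := by
  have h1 : ∀ y y' : ι → W, ppfrm_fn d.f y (d.T y') =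
      ∑ β, ∑ β', d.l β β' * d.f (y β) (y' β') + ∑ β, d.f (y β) (d.M β (d.τ β (y' β))) := by
    intro y y'
    rw [ppfrm_fn_apply, ← Finset.sum_add_distrib]
    refine Finset.sum_congr rfl fun β _ => ?_
    rw [T_apply, map_add, map_sum]
    congr 1
    refine Finset.sum_congr rfl fun β' _ => ?_
    rw [map_smul, smul_eq_mul]
  rw [h1, h1]
  congr 1
  · rw [Finset.sum_comm]
    refine Finset.sum_congr rfl fun β _ => Finset.sum_congr rfl fun β' _ => ?_
    rw [d.lsymm, d.symm]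
  · refine Finset.sum_congr rfl fun β _ => ?_
    rw [← d.adjM, ← d.adjτ, d.τM, d.symm]

/-- the vector `z` -/
noncomputable def zz (β : ι) : W := d.h β + d.σ β d.hI

theorem g_zz : d.g d.zz = 0 := by
  rw [g_apply]
  have h1 : ∀ β, d.D β • d.zz β = d.D β • d.h β + d.D β • d.σ β d.hI := fun β => by
    rw [zz, smul_add]
  simp only [h1, Finset.sum_add_distrib]
  have h2 : ∑ β, d.D β • d.σ β d.hI = d.hI := d.fixI
  rw [h2]
  exact pefrm_add_self _

theorem T_zz (β : ι) : d.T d.zz β = d.hl β + d.M β (d.h β) + d.D β • d.Λ d.hI := by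
  have h1 : ∑ β', d.l β β' • d.zz β' = d.hl β + ∑ β', d.l β β' • d.σ β' d.hI := by
    rw [hl, ← Finset.sum_add_distrib]
    refine Finset.sum_congr rfl fun β' _ => ?_
    rw [zz, smul_add]
  have h2 : d.M β (d.τ β (d.zz β)) = d.M β (d.h β) +
      (∑ β', d.l β β' • d.σ β' d.hI + d.D β • d.Λ d.hI) := by
    rw [zz, map_add, d.τfix, d.τσ, map_add, d.M_apply β d.hI]
  rw [T_apply, h1, h2]
  have h3 := pefrm_add_self (∑ β', d.l β β' • d.σ β' d.hI)
  calc d.hl β + ∑ β', d.l β β' • d.σ β' d.hI + (d.M β (d.h β) +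
        (∑ β', d.l β β' • d.σ β' d.hI + d.D β • d.Λ d.hI)) =
      d.hl β + d.M β (d.h β) + d.D β • d.Λ d.hI +
        (∑ β', d.l β β' • d.σ β' d.hI + ∑ β', d.l β β' • d.σ β' d.hI) := by abel
    _ = _ := by rw [h3, add_zero]

/-- the value of a functional at `g y` -/
theorem sumD (φ : Module.Dual (ZMod 2) W) (y : ι → W) (hy : d.g y = 0) :
    ∑ β, d.D β * φ (y β) = 0 := by
  have h6 : ∑ β, d.D β * φ (y β) = φ (d.g y) := by
    rw [g_apply, map_sum]
    refine Finset.sum_congr rfl fun β _ => ?_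
    rw [map_smul, smul_eq_mul]
  rw [h6, hy, map_zero]

theorem B_zz' (y : ι → W) (hy : d.g y = 0) : ppfrm_fn d.f y (d.T d.zz) =
    ∑ β, (d.f (d.hl β) (y β) + d.f (d.M β (d.h β)) (y β)) := by
  have h1 : ∀ β, d.f (y β) (d.T d.zz β) = (d.f (d.hl β) (y β) + d.f (d.M β (d.h β)) (y β)) +
      d.D β * d.f (d.Λ d.hI) (y β) := by
    intro β
    rw [T_zz, map_add, map_add, map_smul, smul_eq_mul, d.symm (y β), d.symm (y β), d.symm (y β)]
  rw [ppfrm_fn_apply]
  simp only [h1]
  rw [Finset.sum_add_distrib, d.sumD _ y hy, add_zero]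

/-- the diagonal of the form -/
theorem diag_B (y : ι → W) (hy : d.g y = 0) :
    ppfrm_fn d.f y (d.T y) = ppfrm_fn d.f y (d.T d.zz) := by
  have h1 : ppfrm_fn d.f y (d.T y) =
      ∑ β, ∑ β', d.l β β' * d.f (y β) (y β') + ∑ β, d.f (y β) (d.M β (d.τ β (y β))) := by
    rw [ppfrm_fn_apply, ← Finset.sum_add_distrib]
    refine Finset.sum_congr rfl fun β _ => ?_
    rw [T_apply, map_add, map_sum]
    congr 1
    refine Finset.sum_congr rfl fun β' _ => ?_
    rw [map_smul, smul_eq_mul]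
  have h2 : ∑ β, ∑ β', d.l β β' * d.f (y β) (y β') = 0 := by
    refine pefrm_double _ (fun β β' => ?_) fun β => ?_
    · rw [d.lsymm, d.symm]
    · rw [d.alt, mul_zero]
  have h3 : ∀ β, d.f (y β) (d.M β (d.τ β (y β))) =
      (d.f (d.hl β) (y β) + d.f (d.M β (d.h β)) (y β)) + d.D β * d.f d.h₀ (y β) := by
    intro β
    rw [d.rel']
    ring
  rw [h1, h2, zero_add, d.B_zz' y hy]
  simp only [h3]
  rw [Finset.sum_add_distrib, d.sumD _ y hy, add_zero]

theorem B_zzzz : ppfrm_fn d.f d.zz (d.T d.zz) = 0 := by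
  rw [d.B_zz' d.zz d.g_zz]
  have h1 : ∀ β, d.f (d.hl β) (d.zz β) + d.f (d.M β (d.h β)) (d.zz β) =
      ∑ β', d.l β β' * d.f (d.h β) (d.h β') +
        d.f d.hI (∑ β', d.l β β' • d.σ β (d.h β') + d.M β (d.h β)) := by
    intro β
    have h2 : d.f (d.hl β) (d.h β) = ∑ β', d.l β β' * d.f (d.h β) (d.h β') := by
      rw [d.symm, hl, map_sum]
      refine Finset.sum_congr rfl fun β' _ => ?_
      rw [map_smul, smul_eq_mul]
    have h3 : d.f (d.M β (d.h β)) (d.h β) = 0 := by
      rw [d.symm, M_apply]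
      exact d.iso β
    have h4 : d.f (d.hl β) (d.σ β d.hI) = d.f d.hI (∑ β', d.l β β' • d.σ β (d.h β')) := by
      rw [d.symm, d.adjσ, hl, map_sum]
      simp only [map_smul]
    have h5 : d.f (d.M β (d.h β)) (d.σ β d.hI) = d.f d.hI (d.M β (d.h β)) := by
      rw [d.symm, d.adjσ, d.σM, d.fix]
    rw [zz, map_add, map_add, h2, h3, h4, h5, map_add]
    ring
  simp only [h1]
  rw [Finset.sum_add_distrib]
  have h2 : ∑ β, ∑ β', d.l β β' * d.f (d.h β) (d.h β') = 0 := by
    refine pefrm_double _ (fun β β' => ?_) fun β => ?_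
    · rw [d.lsymm, d.symm]
    · rw [d.alt, mul_zero]
  rw [h2, zero_add, ← map_sum, Finset.sum_add_distrib]
  have h3 : ∑ β, ∑ β', d.l β β' • d.σ β (d.h β') =
      ∑ β, d.M β (d.h β) + d.Λ d.hI := by
    rw [Finset.sum_comm]
    have h4 : ∀ β, ∑ β', d.l β' β • d.σ β' (d.h β) = d.M β (d.h β) + d.D β • d.Λ (d.h β) := by
      intro β
      rw [M_apply, add_assoc, pefrm_add_self, add_zero]
      refine Finset.sum_congr rfl fun β' _ => ?_
      rw [d.lsymm]
    simp only [h4]
    rw [Finset.sum_add_distrib, hI, map_sum]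
    simp only [map_smul]
  rw [h3, add_right_comm, pefrm_add_self, zero_add]
  exact d.isoI

theorem T_zero (y' : ι → W) (hy : d.g y' = 0)
    (h : ∀ y, d.g y = 0 → ppfrm_fn d.f y (d.T y') = 0) (β₀ : ι) (h0 : d.D β₀ ≠ 0) : d.T y' = 0 := by
  classical
  have h1 : ∀ β, d.T y' β = d.D β • ((d.D β₀)⁻¹ • d.T y' β₀) := by
    intro β
    rw [← sub_eq_zero]
    refine d.nd _ fun x => ?_
    rw [d.symm]
    have h2 := h (Pi.single β x - Pi.single β₀ ((d.D β * (d.D β₀)⁻¹) • x)) (by
      rw [map_sub, sub_eq_zero, g_apply, g_apply, Finset.sum_eq_single β, Finset.sum_eq_single β₀]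
      · rw [Pi.single_eq_same, Pi.single_eq_same, smul_smul]
        congr 1
        field_simp
      · intro γ _ hγ
        rw [Pi.single_eq_of_ne hγ, smul_zero]
      · intro h
        exact absurd (Finset.mem_univ _) h
      · intro γ _ hγ
        rw [Pi.single_eq_of_ne hγ, smul_zero]
      · intro h
        exact absurd (Finset.mem_univ _) h)
    rw [map_sub, LinearMap.sub_apply, ppfrm_fn_single, ppfrm_fn_single, map_smul,
      LinearMap.smul_apply] at h2
    rw [map_sub, map_smul, map_smul, smul_smul]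
    exact h2
  have h3 : ∑ β, d.σ β (d.T y' β) = 0 := by
    have h4 : ∀ β, d.σ β (d.T y' β) = ∑ β', d.l β β' • d.σ β (y' β') +
        (∑ β', d.l β β' • d.σ β' (y' β) + d.D β • d.Λ (y' β)) := by
      intro β
      rw [T_apply, map_add, d.σM, d.στ, M_apply, map_sum]
      congr 1
      refine Finset.sum_congr rfl fun β' _ => ?_
      rw [map_smul]
    simp only [h4, Finset.sum_add_distrib]
    have h5 : ∑ β, ∑ β', d.l β β' • d.σ β (y' β') = ∑ β, ∑ β', d.l β β' • d.σ β' (y' β) := by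
      rw [Finset.sum_comm]
      refine Finset.sum_congr rfl fun β _ => Finset.sum_congr rfl fun β' _ => ?_
      rw [d.lsymm]
    have h6 : ∑ β, d.D β • d.Λ (y' β) = 0 := by
      have h7 : ∑ β, d.D β • d.Λ (y' β) = d.Λ (d.g y') := by
        rw [g_apply, map_sum]
        exact Finset.sum_congr rfl fun β _ => (map_smul _ _ _).symm
      rw [h7, hy, map_zero]
    rw [h5, h6, add_zero, pefrm_add_self]
  have h8 : (d.D β₀)⁻¹ • d.T y' β₀ = 0 := by
    refine d.inj _ ?_
    rw [← h3]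
    refine Finset.sum_congr rfl fun β _ => ?_
    rw [h1 β]
    simp only [map_smul]
  funext β
  rw [h1 β, h8, smul_zero]
  rfl

/-- the form on the kernel of `g` -/
noncomputable def B : LinearMap.ker d.g →ₗ[ZMod 2] Module.Dual (ZMod 2) (LinearMap.ker d.g) :=
  (ppfrm_fn d.f).compl₁₂ (LinearMap.ker d.g).subtype (d.T.comp (LinearMap.ker d.g).subtype)

theorem B_apply (y y' : LinearMap.ker d.g) : d.B y y' = ppfrm_fn d.f y.1 (d.T y'.1) := rfl

theorem B_symm (y y' : LinearMap.ker d.g) : d.B y y' = d.B y' y := by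
  rw [B_apply, B_apply, d.symm_B]

/-- the vector `z` in the kernel of `g` -/
noncomputable def z : LinearMap.ker d.g := ⟨d.zz, by
  rw [LinearMap.mem_ker]
  exact d.g_zz⟩

theorem B_diag (y : LinearMap.ker d.g) : d.B y y = d.B y d.z := d.diag_B y.1 y.2

theorem B_zz : d.B d.z d.z = 0 := d.B_zzzz

/-- the functional `y ↦ B y z` -/
noncomputable def φ : Module.Dual (ZMod 2) (LinearMap.ker d.g) := d.B d.z

theorem φ_apply (y : LinearMap.ker d.g) : d.φ y = d.B y d.z := d.B_symm _ _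

/-- the alternating form -/
noncomputable def G : LinearMap.ker d.g →ₗ[ZMod 2] Module.Dual (ZMod 2) (LinearMap.ker d.g) :=
  d.B + d.φ.smulRight d.φ

theorem G_apply (y y' : LinearMap.ker d.g) : d.G y y' = d.B y y' + d.B y d.z * d.B y' d.z := by
  rw [← d.φ_apply, ← d.φ_apply]
  rfl

theorem G_alt (y : LinearMap.ker d.g) : d.G y y = 0 := by
  rw [G_apply, d.B_diag, pefrm_sq]
  exact pefrm_add_self _

theorem G_ker (y : LinearMap.ker d.g) : y ∈ LinearMap.ker d.G ↔ ∀ y', d.B y y' = 0 := by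
  rw [LinearMap.mem_ker]
  constructor
  · intro h
    have h1 : ∀ y', d.B y y' + d.B y d.z * d.B y' d.z = 0 := by
      intro y'
      rw [← G_apply, h, LinearMap.zero_apply]
    have h2 : d.B y d.z = 0 := by
      have h3 := h1 d.z
      rwa [d.B_zz, mul_zero, add_zero] at h3
    intro y'
    have h3 := h1 y'
    rwa [h2, zero_mul, add_zero] at h3
  · intro h
    refine LinearMap.ext fun y' => ?_
    rw [G_apply, h, h, zero_mul, add_zero, LinearMap.zero_apply]

theorem B_ker (β₀ : ι) (h0 : d.D β₀ ≠ 0) (y : LinearMap.ker d.g) :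
    y ∈ LinearMap.ker d.G ↔ d.T y.1 = 0 := by
  rw [G_ker]
  constructor
  · intro h
    refine d.T_zero y.1 y.2 (fun y' hy' => ?_) β₀ h0
    rw [← h ⟨y', hy'⟩, d.B_symm]
    rfl
  · intro h y'
    rw [d.B_symm, B_apply, h, map_zero]

theorem g_surj (β₀ : ι) (h0 : d.D β₀ ≠ 0) : Function.Surjective d.g := by
  classical
  intro w
  refine ⟨Pi.single β₀ ((d.D β₀)⁻¹ • w), ?_⟩
  rw [g_apply, Finset.sum_eq_single β₀]
  · rw [Pi.single_eq_same, smul_smul, mul_inv_cancel₀ h0, one_smul]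
  · intro γ _ hγ
    rw [Pi.single_eq_of_ne hγ, smul_zero]
  · intro h
    exact absurd (Finset.mem_univ _) h

/-- the solutions and the kernel of `G` -/
theorem card_sol (β₀ : ι) (h0 : d.D β₀ ≠ 0) :
    Nat.card {c : ι → W // ∑ β, d.D β • d.σ β (c β) = 0 ∧
      ∀ β, ∑ β', d.l β β' • d.σ β' (c β' - c β) = d.D β • d.Λ (c β)} =
    Nat.card (LinearMap.ker d.G) := by
  have key : ∀ c : ι → W, (∀ β, ∑ β', d.l β β' • d.σ β' (c β' - c β) = d.D β • d.Λ (c β)) ↔
      d.T (fun β => d.σ β (c β)) = 0 := by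
    intro c
    rw [funext_iff]
    refine forall_congr' fun β => ?_
    rw [T_apply, d.τσ, M_apply, Pi.zero_apply]
    simp only [map_sub, smul_sub, Finset.sum_sub_distrib]
    rw [sub_eq_iff_eq_add, add_comm, pefrm_eq]
  refine Nat.card_congr ⟨fun c => ⟨⟨fun β => d.σ β (c.1 β), ?_⟩, ?_⟩,
    fun y => ⟨fun β => d.τ β (y.1.1 β), ?_, ?_⟩, fun c => ?_, fun y => ?_⟩
  · rw [LinearMap.mem_ker, g_apply]
    exact c.2.1
  · exact (d.B_ker β₀ h0 _).mpr ((key c.1).mp c.2.2)
  · have h1 : d.g y.1.1 = 0 := y.1.2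
    rw [g_apply] at h1
    simpa only [d.στ] using h1
  · rw [key]
    have h1 := (d.B_ker β₀ h0 _).mp y.2
    simpa only [d.στ] using h1
  · refine Subtype.ext (funext fun β => ?_)
    exact d.τσ β _
  · refine Subtype.ext (Subtype.ext (funext fun β => ?_))
    exact d.στ β _

end PgfrmD

end PgFrm

theorem tPgFrm.{v} (h1 : StmtPpEvn.{0}) (h2 : StmtPpEvn.{v}) : StmtPgFrm.{v} := by
  intro ι W _ _ _ _ f nd alt h h₀ σ Λ injσ self selfL l lsymm D com rel fix iso fixI isoI inj
  have hinj : ∀ β, Function.Injective (σ β) := fun β => by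
    rw [injective_iff_map_eq_zero]
    exact injσ β
  let s : ∀ β, W ≃ₗ[ZMod 2] W := fun β =>
    LinearEquiv.ofBijective (σ β) ⟨hinj β, Finite.injective_iff_surjective.1 (hinj β)⟩
  let d : PgfrmD ι W :=
    { f := f, nd := nd, alt := alt, h := h, h₀ := h₀, σ := σ, Λ := Λ
      τ := fun β => ((s β).symm : W →ₗ[ZMod 2] W)
      στ := fun β y => (s β).apply_symm_apply y
      τσ := fun β y => (s β).symm_apply_apply y
      self := self, selfL := selfL
      l := l, lsymm := lsymm, D := D, com := com, rel := rel, fix := fix, iso := iso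
      fixI := fixI, isoI := isoI, inj := inj }
  by_cases h0 : ∃ β₀, D β₀ ≠ 0
  · obtain ⟨β₀, h0⟩ := h0
    obtain ⟨i, hi⟩ := h1 2 (ZMod 2) W (algebraMap (ZMod 2) (Module.End (ZMod 2) W)) f
      (fun κ x y => by
        rw [Module.algebraMap_end_apply, Module.algebraMap_end_apply, map_smul, map_smul,
          LinearMap.smul_apply])
      (fun κ x => by
        rw [Module.algebraMap_end_apply, map_smul, alt, smul_zero])
    obtain ⟨j, hj⟩ := h2 2 (ZMod 2) (LinearMap.ker d.g)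
      (algebraMap (ZMod 2) (Module.End (ZMod 2) (LinearMap.ker d.g))) d.G
      (fun κ x y => by
        rw [Module.algebraMap_end_apply, Module.algebraMap_end_apply, map_smul, map_smul,
          LinearMap.smul_apply])
      (fun κ x => by
        rw [Module.algebraMap_end_apply, map_smul, d.G_alt, smul_zero])
    have hker : Nat.card (LinearMap.ker f) = 1 := by
      have : LinearMap.ker f = ⊥ := by
        rw [eq_bot_iff]
        intro x hx
        rw [LinearMap.mem_ker] at hx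
        rw [Submodule.mem_bot]
        exact nd x fun y => by rw [hx, LinearMap.zero_apply]
      rw [this]
      exact Nat.card_unique
    rw [hker, one_mul] at hi
    rw [ppfrm_card d.g (d.g_surj β₀ h0) ⟨β₀⟩, hi] at hj
    obtain ⟨a, ha⟩ := ppfrm_arith Finite.one_lt_card hj
    refine ⟨a, (d.card_sol β₀ h0).trans ?_⟩
    rw [ha, Nat.card_zmod, pow_mul]
    norm_num
  · refine ⟨0, ?_⟩
    have h1 : ∀ y : W, y = 0 := by
      intro y
      refine inj y (Finset.sum_eq_zero fun β _ => ?_)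
      have h3 : D β = 0 := by
        by_contra h4
        exact h0 ⟨β, h4⟩
      rw [h3, zero_smul]
    have hs : Subsingleton W := ⟨fun a b => (h1 a).trans (h1 b).symm⟩
    rw [pow_zero, Nat.card_eq_one_iff_unique]
    refine ⟨⟨fun a b => Subtype.ext (Subsingleton.elim _ _)⟩, ⟨⟨0, ?_, fun β => ?_⟩⟩⟩
    · exact Subsingleton.elim _ _
    · exact Subsingleton.elim _ _

end MP72e2e6
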