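import Pool.Agent.Lib.MP_72e2e6_nt.PgStmt
import Pool.Agent.Lib.MP_72e2e6_nt.PgHyp
import Pool.Agent.Lib.MP_72e2e6_nt.PeFrm

/-!
# MP_72e2e6_nt: uniform tameness, arithmetic part, module PgHyG (the curves satisfy `HypG`)
-/

set_option autoImplicit false

namespace MP72e2e6

open Polynomial IsDedekindDomain

universe u

section lin

variable {m : ℕ}

/-- the operator of a matrix -/
def pghyg_N (w : Fin m → Fin m → ZMod 2) (x : Fin m → ZMod 2) (i : Fin m) : ZMod 2 :=
  ∑ k, w i k * (x i + x k)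

/-- the vector of a matrix -/
def pghyg_h (w : Fin m → Fin m → ZMod 2) (i : Fin m) : ZMod 2 := ∑ k ∈ Finset.univ.erase i, w i k

theorem pghyg_sq (s : ZMod 2) : s * s = s := by
  revert s
  decide

theorem pghyg_two (s : ZMod 2) : s + s = 0 := by
  revert s
  decide

theorem pghyg_dbl (u : Fin m → Fin m → ZMod 2) (h : ∀ i k, i ≠ k → u i k = u k i) :
    ∑ i, ∑ k ∈ Finset.univ.erase i, u i k = 0 := by
  have h1 : ∀ i, ∑ k ∈ Finset.univ.erase i, u i k = ∑ k, if i = k then 0 else u i k := by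
    intro i
    rw [← Finset.sum_erase (s := Finset.univ) (a := i) (f := fun k => if i = k then 0 else u i k)
      (if_pos rfl)]
    refine Finset.sum_congr rfl fun k hk => ?_
    rw [if_neg (Finset.ne_of_mem_erase hk).symm]
  simp only [h1]
  refine pefrm_double (fun i k => if i = k then 0 else u i k) (fun i k => ?_) fun i => ?_
  · by_cases hik : i = k
    · rw [if_pos hik, if_pos hik.symm]
    · rw [if_neg hik, if_neg (Ne.symm hik), h i k hik]
  · exact if_pos rfl

theorem pghyg_N_erase (w : Fin m → Fin m → ZMod 2) (x : Fin m → ZMod 2) (i : Fin m) :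
    pghyg_N w x i = ∑ k ∈ Finset.univ.erase i, w i k * (x i + x k) := by
  rw [pghyg_N, Finset.sum_erase]
  rw [pghyg_two, mul_zero]

theorem pghyg_hcongr {w w' : Fin m → Fin m → ZMod 2} (h : ∀ i k, i ≠ k → w i k = w' i k) :
    pghyg_h w = pghyg_h w' := by
  funext i
  exact Finset.sum_congr rfl fun k hk => h i k (Finset.ne_of_mem_erase hk).symm

theorem pghyg_Ncongr {w w' : Fin m → Fin m → ZMod 2} (h : ∀ i k, i ≠ k → w i k = w' i k) :
    pghyg_N w = pghyg_N w' := by
  funext x i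
  rw [pghyg_N_erase, pghyg_N_erase]
  exact Finset.sum_congr rfl fun k hk => by rw [h i k (Finset.ne_of_mem_erase hk).symm]

theorem pghyg_adj (w : Fin m → Fin m → ZMod 2) (hw : ∀ i k, w i k = w k i) (x y : Fin m → ZMod 2) :
    dotProduct x (pghyg_N w y) = dotProduct (pghyg_N w x) y := by
  simp only [dotProduct, pghyg_N, Finset.mul_sum, Finset.sum_mul]
  have h1 : ∀ i k, x i * (w i k * (y i + y k)) = w i k * x i * y i + w i k * x i * y k :=
    fun i k => by ring
  have h2 : ∀ i k, w i k * (x i + x k) * y i = w i k * x i * y i + w i k * x k * y i :=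
    fun i k => by ring
  simp only [h1, h2, Finset.sum_add_distrib]
  congr 1
  rw [Finset.sum_comm]
  exact Finset.sum_congr rfl fun i _ => Finset.sum_congr rfl fun k _ => by rw [hw k i]

theorem pghyg_diag (w : Fin m → Fin m → ZMod 2) (hw : ∀ i k, w i k = w k i) (x : Fin m → ZMod 2) :
    dotProduct x (pghyg_N w x) = dotProduct (pghyg_h w) x := by
  simp only [dotProduct, pghyg_N_erase, pghyg_h, Finset.mul_sum, Finset.sum_mul]
  have h1 : ∀ i k, x i * (w i k * (x i + x k)) = w i k * x i + w i k * x i * x k := by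
    intro i k
    have h2 := pghyg_sq (x i)
    linear_combination w i k * h2
  simp only [h1, Finset.sum_add_distrib]
  rw [pghyg_dbl (fun i k => w i k * x i * x k) (fun i k _ => by rw [hw i k]; ring), add_zero]

theorem pghyg_hsum (w : Fin m → Fin m → ZMod 2) (hw : ∀ i k, i ≠ k → w i k = w k i) :
    ∑ i, pghyg_h w i = 0 := pghyg_dbl w hw

/-- the sums over triples -/
theorem pghyg_tri (hT : StmtPgTri) (w : Fin m → Fin m → ℤ) (hw : Ultra w)
    (u : Fin m → Fin m → ZMod 2) (hu : ∀ i k, u i k = u k i)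
    (hu2 : ∀ i j k, i ≠ j → j ≠ k → i ≠ k → w i k < w i j → u j k = u i k)
    (θ : Fin m → Fin m → Fin m → ZMod 2) (h1 : ∀ i j k, θ i j k = θ j i k)
    (h2 : ∀ i j k, θ i j k = θ i k j) (h3 : ∀ i k, θ i k k = θ k i i) :
    ∑ i, ∑ j ∈ Finset.univ.erase i, ∑ k ∈ Finset.univ.erase i,
      (w i k : ZMod 2) * u i j * θ i j k = 0 := by
  have h4 := hT m w hw u hu hu2 θ h1 h2
  have h5 : ∀ i, ∀ j ∈ Finset.univ.erase i, ∑ k ∈ Finset.univ.erase i,
      (w i k : ZMod 2) * u i j * θ i j k = ∑ k ∈ (Finset.univ.erase i).erase j,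
      (w i k : ZMod 2) * u i j * θ i j k + (w i j : ZMod 2) * u i j * θ i j j := by
    intro i j hj
    exact (Finset.sum_erase_add (Finset.univ.erase i)
      (fun k => (w i k : ZMod 2) * u i j * θ i j k) hj).symm
  rw [Finset.sum_congr rfl fun i _ => Finset.sum_congr rfl fun j hj => h5 i j hj]
  simp only [Finset.sum_add_distrib]
  rw [h4, zero_add]
  refine pghyg_dbl (fun i j => (w i j : ZMod 2) * u i j * θ i j j) fun i j _ => ?_
  rw [hw.symm i j, hu i j, h3 i j]

theorem pghyg_E (hT : StmtPgTri) (w : Fin m → Fin m → ℤ) (hw : Ultra w)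
    (u : Fin m → Fin m → ZMod 2) (hu : ∀ i k, u i k = u k i)
    (hu2 : ∀ i j k, i ≠ j → j ≠ k → i ≠ k → w i k < w i j → u j k = u i k)
    (W : Fin m → Fin m → ZMod 2) (hW : W = fun i k => (w i k : ZMod 2)) (x : Fin m → ZMod 2) :
    dotProduct (pghyg_N W x) (pghyg_N u x) =
      dotProduct (pghyg_h u) (pghyg_N W x) + dotProduct (pghyg_h W) (pghyg_N u x) := by
  subst hW
  have h1 := pghyg_tri hT w hw u hu hu2
    (fun i j k => x i + x j + x k + x i * x j + x i * x k + x j * x k)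
    (fun i j k => by ring) (fun i j k => by ring) (fun i k => by
      have h2 := pghyg_sq (x i)
      have h3 := pghyg_sq (x k)
      have h4 := pghyg_two (x i)
      have h5 := pghyg_two (x k)
      linear_combination h3 - h2 + h5 - h4)
  rw [← sub_eq_zero, ← h1]
  simp only [dotProduct, pghyg_N_erase, pghyg_h, Finset.sum_mul_sum]
  rw [← Finset.sum_add_distrib, ← Finset.sum_sub_distrib]
  refine Finset.sum_congr rfl fun i _ => ?_
  rw [Finset.sum_comm]
  rw [Finset.sum_comm (s := Finset.univ.erase i) (t := Finset.univ.erase i)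
    (f := fun k j => (w i k : ZMod 2) * (u i j * (x i + x j)))]
  rw [← Finset.sum_add_distrib, ← Finset.sum_sub_distrib]
  refine Finset.sum_congr rfl fun j _ => ?_
  rw [← Finset.sum_add_distrib, ← Finset.sum_sub_distrib]
  refine Finset.sum_congr rfl fun k _ => ?_
  have h2 := pghyg_sq (x i)
  have h3 := pghyg_two (x i)
  have h4 := pghyg_two (x j)
  have h5 := pghyg_two (x k)
  linear_combination (w i k : ZMod 2) * u i j * (h2 - h3 - h4 - h5)

theorem pghyg_F (hT : StmtPgTri) (w : Fin m → Fin m → ℤ) (hw : Ultra w)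
    (u : Fin m → Fin m → ZMod 2) (hu : ∀ i k, u i k = u k i)
    (hu2 : ∀ i j k, i ≠ j → j ≠ k → i ≠ k → w i k < w i j → u j k = u i k)
    (W : Fin m → Fin m → ZMod 2) (hW : W = fun i k => (w i k : ZMod 2)) :
    dotProduct (pghyg_h u) (pghyg_h W) = 0 := by
  subst hW
  have h1 := pghyg_tri hT w hw u hu hu2 (fun i j k => 1) (fun i j k => rfl) (fun i j k => rfl)
    (fun i k => rfl)
  rw [← h1]
  simp only [dotProduct, pghyg_h, Finset.sum_mul_sum]
  refine Finset.sum_congr rfl fun i _ => Finset.sum_congr rfl fun j _ =>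
    Finset.sum_congr rfl fun k _ => ?_
  ring

/-- linear combinations of matrices -/
theorem pghyg_lin {V : Type} [Fintype V] (w : V → Fin m → Fin m → ZMod 2) (c : V → ZMod 2)
    (L : Fin m → Fin m → ZMod 2) (c₀ : ZMod 2) (u : Fin m → Fin m → ZMod 2)
    (hu : ∀ i k, i ≠ k → u i k = ∑ v, c v * w v i k + c₀ * L i k) :
    (∀ y i, pghyg_N u y i = ∑ v, c v * pghyg_N (w v) y i + c₀ * pghyg_N L y i) ∧
    ∀ i, pghyg_h u i = ∑ v, c v * pghyg_h (w v) i + c₀ * pghyg_h L i := by
  constructor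
  · intro y i
    simp only [pghyg_N_erase, Finset.mul_sum]
    rw [Finset.sum_comm, ← Finset.sum_add_distrib]
    refine Finset.sum_congr rfl fun k hk => ?_
    rw [hu i k (Finset.ne_of_mem_erase hk).symm, add_mul, Finset.sum_mul]
    congr 1
    · exact Finset.sum_congr rfl fun v _ => by ring
    · ring
  · intro i
    simp only [pghyg_h, Finset.mul_sum]
    rw [Finset.sum_comm, ← Finset.sum_add_distrib]
    exact Finset.sum_congr rfl fun k hk => hu i k (Finset.ne_of_mem_erase hk).symm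

theorem pghyg_sg (b : Fin m → ℕ) (hb : ∀ i, (b i : ZMod 2) = 1)
    (hB : ∑ k, (b k : ZMod 2) = 1) (ρ : ZMod 2) (w : Fin m → Fin m → ZMod 2)
    (x : Fin m → ZMod 2) : sg b ρ w x = ρ • x + pghyg_N w x := by
  funext i
  rw [sg, hB, inv_one, one_mul, Pi.add_apply, Pi.smul_apply, smul_eq_mul, pghyg_N]
  congr 1
  refine Finset.sum_congr rfl fun k _ => ?_
  rw [hb, one_mul]
  have h1 := pghyg_two (x k)
  linear_combination -(w i k) * h1

theorem pghyg_stf (b : Fin m → ℕ) (hb : ∀ i, (b i : ZMod 2) = 1) (x y : Fin m → ZMod 2) :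
    stf b x y = dotProduct x y := by
  rw [stf, dotProduct]
  exact Finset.sum_congr rfl fun i _ => by rw [hb, one_mul]

/-- the standard form as a bilinear map -/
noncomputable def pghyg_form (b : Fin m → ℕ) (hb : ∀ i, (b i : ZMod 2) = 1) :
    Vs 2 b →ₗ[ZMod 2] Module.Dual (ZMod 2) (Vs 2 b) :=
  LinearMap.mk₂ (ZMod 2) (fun x y : Vs 2 b => stf b x.1 y.1)
    (fun x x' y => by
      rw [pghyg_stf b hb, pghyg_stf b hb, pghyg_stf b hb]
      exact add_dotProduct _ _ _)
    (fun r x y => by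
      rw [pghyg_stf b hb, pghyg_stf b hb]
      exact smul_dotProduct _ _ _)
    (fun x y y' => by
      rw [pghyg_stf b hb, pghyg_stf b hb, pghyg_stf b hb]
      exact dotProduct_add _ _ _)
    (fun r x y => by
      rw [pghyg_stf b hb, pghyg_stf b hb]
      exact dotProduct_smul _ _ _)

theorem pghyg_form_apply (b : Fin m → ℕ) (hb : ∀ i, (b i : ZMod 2) = 1) (x y : Vs 2 b) :
    pghyg_form b hb x y = stf b x.1 y.1 := rfl

theorem pghyg_form_dot (b : Fin m → ℕ) (hb : ∀ i, (b i : ZMod 2) = 1) (x y : Vs 2 b) :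
    pghyg_form b hb x y = dotProduct x.1 y.1 := by
  rw [pghyg_form_apply, pghyg_stf b hb]

theorem pghyg_mem (b : Fin m → ℕ) (hb : ∀ i, (b i : ZMod 2) = 1) (x : Fin m → ZMod 2) :
    x ∈ Vs 2 b ↔ ∑ i, x i = 0 := by
  have h1 : x ∈ Vs 2 b ↔ ∑ i, (b i : ZMod 2) * x i = 0 := Iff.rfl
  rw [h1]
  simp only [hb, one_mul]

theorem pghyg_alt (x : Fin m → ZMod 2) (hx : ∑ i, x i = 0) : dotProduct x x = 0 := by
  rw [← hx, dotProduct]
  exact Finset.sum_congr rfl fun i _ => pghyg_sq (x i)

theorem pghyg_nondeg (b : Fin m → ℕ) (hb : ∀ i, (b i : ZMod 2) = 1)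
    (hB : ∑ k, (b k : ZMod 2) = 1) (x : Vs 2 b) (hx : ∀ y, pghyg_form b hb x y = 0) : x = 0 := by
  classical
  have hc : ∀ i j, x.1 i = x.1 j := by
    intro i j
    have h1 : (Pi.single i 1 + Pi.single j 1 : Fin m → ZMod 2) ∈ Vs 2 b := by
      rw [pghyg_mem b hb]
      simp only [Pi.add_apply, Finset.sum_add_distrib, Finset.sum_pi_single', Finset.mem_univ,
        if_true]
      exact pghyg_two 1
    have h2 := hx ⟨_, h1⟩
    rw [pghyg_form_dot] at h2
    have h3 : dotProduct x.1 (Pi.single i 1 + Pi.single j 1) = x.1 i + x.1 j := by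
      rw [dotProduct_add, dotProduct_single, dotProduct_single, mul_one, mul_one]
    rw [h3] at h2
    have h4 := pghyg_two (x.1 j)
    linear_combination h2 - h4
  refine Subtype.ext (funext fun i => ?_)
  have h5 : ∑ k, (b k : ZMod 2) * x.1 k = 0 := x.2
  have h6 : ∀ k, (b k : ZMod 2) * x.1 k = (b k : ZMod 2) * x.1 i := fun k => by rw [hc k i]
  rw [Finset.sum_congr rfl fun k _ => h6 k, ← Finset.sum_mul, hB, one_mul] at h5
  exact h5

end lin

open Classical in
theorem tPgHyG.{v} (hSy : StmtSuSy.{v}) (hFac : StmtSuFac.{v}) (hTri : StmtPgTri)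
    (hFix : StmtPgFix) : StmtPgHyG.{v} := by
  intro F _ _ hq χ hχ hχn m a ha b hb hB V _ pr hpr hcov e hT
  have hℓ : Nat.Prime 2 := Nat.prime_two
  have hwc : ∀ v i k, i ≠ k → vl 2 (pr v) (a i - a k) = ((wP (pr v) a i k : ℤ) : ZMod 2) :=
    fun v i k hik => vl_eq_wP ha hik
  have hlc : ∀ i k, χ (a i - a k).leadingCoeff = χ (a k - a i).leadingCoeff := by
    intro i k
    by_cases hik : i = k
    · rw [hik]
    · have h1 : (a k - a i).leadingCoeff ≠ 0 :=
        leadingCoeff_ne_zero.2 (sub_ne_zero.2 fun h => hik (ha h).symm)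
      rw [← neg_sub (a k) (a i), leadingCoeff_neg, ← neg_one_mul,
        hχ.mul _ _ (neg_ne_zero.2 one_ne_zero) h1, hχn, zero_add]
  have hΛ : lamV χ b a = sgV b 0 (fun i k => χ (a i - a k).leadingCoeff) hlc := dif_pos hlc
  have hdiff : ∀ i k, i ≠ k →
      (∀ v, syl χ (pr v) (a i - a k) = (pr v).natDegree * χ (a i - a k).leadingCoeff +
        ∑ v', vl 2 (pr v') (a i - a k) * syl χ (pr v) (pr v')) ∧
      ((a i - a k).natDegree : ZMod 2) = ∑ v, (pr v).natDegree * vl 2 (pr v) (a i - a k) := by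
    intro i k hik
    have h0 : a i - a k ≠ 0 := sub_ne_zero.2 fun h => hik (ha h)
    obtain ⟨h1, h2, -⟩ := hFac F 2 hℓ hq χ hχ V pr hpr (a i - a k) h0 (fun P hP hPi hne => by
      have h2 : ¬ P ∣ a i - a k := by
        intro h2
        obtain ⟨v, hv⟩ := hcov P hP hPi i k hik h2
        exact hne v hv
      rw [vl, if_neg h0, multiplicity_eq_zero.2 h2, Nat.cast_zero])
    exact ⟨h1, h2⟩
  have hb1 : ∀ i, (b i : ZMod 2) = 1 := by
    intro i
    have h1 : (b i : ZMod 2) ≠ 0 := fun h => hb i ((ZMod.natCast_eq_zero_iff _ _).1 h)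
    revert h1
    generalize (b i : ZMod 2) = r
    revert r
    decide
  have hB1 : ∑ k, (b k : ZMod 2) = 1 := by
    have h1 : ∑ k, (b k : ZMod 2) ≠ 0 := fun h => hB ((ZMod.natCast_eq_zero_iff _ _).1 (by
      rw [Nat.cast_sum]
      exact h))
    revert h1
    generalize ∑ k, (b k : ZMod 2) = r
    revert r
    decide
  -- the matrices
  let w : V → Fin m → Fin m → ZMod 2 := fun v i k => vl 2 (pr v) (a i - a k)
  let L : Fin m → Fin m → ZMod 2 := fun i k => χ (a i - a k).leadingCoeff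
  let u : V → Fin m → Fin m → ZMod 2 := fun v i k => syl χ (pr v) (a i - a k)
  let wd : Fin m → Fin m → ZMod 2 := fun i k => ((wI a i k : ℤ) : ZMod 2)
  have hws : ∀ v i k, w v i k = w v k i := fun v i k => vl_symm _ _ _ _
  have hus : ∀ v i k, u v i k = u v k i := fun v i k =>
    pghyp_syl_symm hSy hq hχ hχn ha (hpr.monic v) (hpr.irr v) i k
  have hut : ∀ v i j k, i ≠ j → j ≠ k → i ≠ k → wP (pr v) a i k < wP (pr v) a i j →
      u v j k = u v i k := fun v i j k hij hjk hik h =>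
    pphyp_tree ha (hpr.monic v) (hpr.irr v) hij hjk hik h
  have hLt : ∀ i j k, i ≠ j → j ≠ k → i ≠ k → wI a i k < wI a i j → L j k = L i k := by
    intro i j k _ _ _ h
    show χ (a j - a k).leadingCoeff = χ (a i - a k).leadingCoeff
    rw [wI, wI, neg_lt_neg_iff, Nat.cast_lt] at h
    have h1 : a j - a k = (a i - a k) - (a i - a j) := by ring
    rw [h1, leadingCoeff_sub_of_degree_lt (degree_lt_degree h)]
  let W : V → Fin m → Fin m → ZMod 2 := fun v i k => ((wP (pr v) a i k : ℤ) : ZMod 2)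
  have hWh : ∀ v, pghyg_h (W v) = pghyg_h (w v) := fun v =>
    pghyg_hcongr fun i k hik => (hwc v i k hik).symm
  have hWN : ∀ v, pghyg_N (W v) = pghyg_N (w v) := fun v =>
    pghyg_Ncongr fun i k hik => (hwc v i k hik).symm
  have hwd : ∀ i k, i ≠ k → wd i k = ∑ v, ((pr v).natDegree : ZMod 2) * w v i k + 0 * L i k := by
    intro i k hik
    show ((wI a i k : ℤ) : ZMod 2) = _
    rw [zero_mul, add_zero, wI, Int.cast_neg, Int.cast_natCast, (hdiff i k hik).2]
    exact CharTwo.neg_eq _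
  have hul : ∀ v i k, i ≠ k → u v i k = ∑ v', syl χ (pr v) (pr v') * w v' i k +
      ((pr v).natDegree : ZMod 2) * L i k := by
    intro v i k hik
    show syl χ (pr v) (a i - a k) = _
    rw [(hdiff i k hik).1 v, add_comm]
    congr 1
    exact Finset.sum_congr rfl fun v' _ => mul_comm _ _
  -- the vectors
  let h : V → Vs 2 b := fun v => ⟨pghyg_h (w v),
    (pghyg_mem b hb1 _).2 (pghyg_hsum _ fun i k _ => hws v i k)⟩
  let h₀ : Vs 2 b := ⟨pghyg_h L, (pghyg_mem b hb1 _).2 (pghyg_hsum _ fun i k _ => hlc i k)⟩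
  have hσ : ∀ v (x : Vs 2 b), (sigV b a (pr v) (e v) x).1 = e v • x.1 + pghyg_N (w v) x.1 :=
    fun v x => pghyg_sg b hb1 hB1 (e v) (w v) x.1
  have hΛ' : ∀ x : Vs 2 b, (lamV χ b a x).1 = pghyg_N L x.1 := by
    intro x
    have h1 : (sgV b 0 (fun i k => χ (a i - a k).leadingCoeff) hlc x).1 =
        (0 : ZMod 2) • x.1 + pghyg_N L x.1 := pghyg_sg b hb1 hB1 0 L x.1
    rw [hΛ, h1, zero_smul, zero_add]
  have hM : ∀ v (y : Vs 2 b), (∑ v', syl χ (pr v) (pr v') • sigV b a (pr v') (e v') y +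
      ((pr v).natDegree : ZMod 2) • lamV χ b a y : Vs 2 b).1 =
      (∑ v', syl χ (pr v) (pr v') * e v') • y.1 + pghyg_N (u v) y.1 := by
    intro v y
    funext i
    have h1 := (pghyg_lin w (fun v' => syl χ (pr v) (pr v')) L ((pr v).natDegree : ZMod 2) (u v)
      (hul v)).1 y.1 i
    simp only [Submodule.coe_add, Submodule.coe_sum, Submodule.coe_smul, Pi.add_apply,
      Finset.sum_apply, Pi.smul_apply, smul_eq_mul, hσ, hΛ', mul_add, Finset.sum_add_distrib]
    rw [h1, Finset.sum_mul, add_assoc]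
    congr 1
    exact Finset.sum_congr rfl fun v' _ => by ring
  have hH : ∀ v, (∑ v', syl χ (pr v) (pr v') • h v' +
      ((pr v).natDegree : ZMod 2) • h₀ : Vs 2 b).1 = pghyg_h (u v) := by
    intro v
    funext i
    have h1 := (pghyg_lin w (fun v' => syl χ (pr v) (pr v')) L ((pr v).natDegree : ZMod 2) (u v)
      (hul v)).2 i
    rw [h1]
    simp only [Submodule.coe_add, Submodule.coe_sum, Submodule.coe_smul, Pi.add_apply,
      Finset.sum_apply, Pi.smul_apply, smul_eq_mul]
    rfl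
  have hHd : (∑ v, ((pr v).natDegree : ZMod 2) • h v : Vs 2 b).1 = pghyg_h wd := by
    funext i
    have h1 := (pghyg_lin w (fun v' => ((pr v').natDegree : ZMod 2)) L 0 wd hwd).2 i
    rw [h1, zero_mul, add_zero]
    simp only [Submodule.coe_sum, Submodule.coe_smul, Finset.sum_apply, Pi.smul_apply, smul_eq_mul]
    rfl
  have hsum : ∀ x : Vs 2 b, ∑ i, x.1 i = 0 := fun x => (pghyg_mem b hb1 _).1 x.2
  refine ⟨pghyg_form b hb1, h, h₀, fun x y => rfl, ?_, fun n hn => ?_⟩
  · refine ⟨fun x => ?_, pghyg_nondeg b hb1 hB1, fun v x y => ?_, fun v x => ?_, fun x y => ?_,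
      fun x => ?_, fun v x => ?_, fun v => ?_, fun v => ?_, ?_⟩
    · rw [pghyg_form_dot, pghyg_alt _ (hsum x)]
    · rw [pghyg_form_dot, pghyg_form_dot, hσ, hσ, dotProduct_add, add_dotProduct,
        dotProduct_smul, smul_dotProduct, pghyg_adj _ (hws v)]
    · rw [pghyg_form_dot, pghyg_form_dot, hσ, dotProduct_add, dotProduct_smul,
        pghyg_alt _ (hsum x), smul_zero, zero_add, pghyg_diag _ (hws v)]
    · rw [pghyg_form_dot, pghyg_form_dot, hΛ', hΛ', pghyg_adj _ hlc]
    · rw [pghyg_form_dot, pghyg_form_dot, hΛ', pghyg_diag _ hlc]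
    · have hE := pghyg_E hTri (wP (pr v) a) (ultra_wP (hpr.irr v) ha) (u v) (hus v) (hut v) (W v)
        rfl x.1
      rw [hWh, hWN] at hE
      have h1 : (sigV b a (pr v) (e v) (∑ v', syl χ (pr v) (pr v') • h v' +
          ((pr v).natDegree : ZMod 2) • h₀) + (∑ v', syl χ (pr v) (pr v') •
            sigV b a (pr v') (e v') (h v) + ((pr v).natDegree : ZMod 2) •
            lamV χ b a (h v)) : Vs 2 b).1 =
          (e v • pghyg_h (u v) + pghyg_N (w v) (pghyg_h (u v))) +
          ((∑ v', syl χ (pr v) (pr v') * e v') • pghyg_h (w v) +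
            pghyg_N (u v) (pghyg_h (w v))) := by
        rw [Submodule.coe_add, hσ, hM, hH]
      rw [pghyg_form_dot, pghyg_form_dot, h1, hσ, hM]
      simp only [dotProduct_add, add_dotProduct, dotProduct_smul, smul_dotProduct, smul_eq_mul]
      rw [pghyg_alt _ (hsum x), hE, pghyg_diag _ (hus v), ← pghyg_adj _ (hws v) x.1 x.1,
        pghyg_diag _ (hws v), ← pghyg_adj _ (hws v) (pghyg_h (u v)),
        ← pghyg_adj _ (hus v) (pghyg_h (w v))]
      ring
    · refine Subtype.ext ?_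
      have h1 := hFix m b hb hB (wP (pr v) a) (ultra_wP (hpr.irr v) ha) _ (hT v)
      have h2 : sg b (((e v).val : ℤ) : ZMod 2) (W v) (pghyg_h (W v)) = pghyg_h (W v) :=
        funext h1
      rw [pghyg_sg b hb1 hB1, hWh, hWN, Int.cast_natCast, ZMod.natCast_val, ZMod.cast_id',
        id] at h2
      rw [hσ]
      exact h2
    · have hF := pghyg_F hTri (wP (pr v) a) (ultra_wP (hpr.irr v) ha) (u v) (hus v) (hut v) (W v)
        rfl
      rw [hWh] at hF
      rw [pghyg_form_dot, hM, dotProduct_add, dotProduct_smul, pghyg_alt _ (hsum (h v)),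
        smul_zero, zero_add, pghyg_diag _ (hus v)]
      exact hF
    · have hF := pghyg_F hTri (wI a) ultra_wI L hlc hLt wd rfl
      rw [pghyg_form_dot, hΛ', hHd, pghyg_diag _ hlc]
      exact hF
  · refine Subtype.ext ?_
    have h1 := hFix m b hb hB (wI a) ultra_wI _ hn
    have h2 : sg b ((-(((twl pr e).natDegree + n : ℕ) : ℤ) : ℤ) : ZMod 2) wd (pghyg_h wd) =
      pghyg_h wd := funext h1
    rw [pghyg_sg b hb1 hB1, Int.cast_neg, Int.cast_natCast, Nat.cast_add, natDegree_twl hpr,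
      CharTwo.neg_eq] at h2
    rw [Submodule.coe_add, Submodule.coe_smul, hHd, Submodule.coe_sum]
    refine Eq.trans ?_ h2
    funext i
    have h3 := (pghyg_lin w (fun v' => ((pr v').natDegree : ZMod 2)) L 0 wd hwd).1 (pghyg_h wd) i
    rw [zero_mul, add_zero] at h3
    simp only [Submodule.coe_smul, Pi.add_apply,
      Finset.sum_apply, Pi.smul_apply, smul_eq_mul, hσ, hHd, mul_add, Finset.sum_add_distrib]
    rw [h3, add_mul, Finset.sum_mul]
    have h4 : ∀ v, ((pr v).natDegree : ZMod 2) * (e v * pghyg_h wd i) =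
        e v * ((pr v).natDegree : ZMod 2) * pghyg_h wd i := fun v => by ring
    simp only [h4]
    ring

end MP72e2e6
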