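import Pool.Agent.Lib.MP_72e2e6_nt.PgStmt

/-!
# MP_72e2e6_nt: uniform tameness, module PgPar (parity)
-/

namespace MP72e2e6

open Polynomial

private theorem pgpar_mem_gs.{u} {F : Type u} [Field F] [Finite F] {V : Type} {pr : V → F[X]}
    {n : ℕ} {t : Finset F[X]} : t ∈ gs F pr n ↔ t ∈ ps F n ∧ ∀ P ∈ t, ∀ v, pr v ≠ P := by
  simp [gs]

theorem tPgPar.{u} (_h1 : StmtSuSy.{u}) (hPgFrm : StmtPgFrm.{u}) : StmtPgPar.{u} := by
  intro F _ _ hq χ hχ hR V W _ _ _ _ pr hpr σ Λ hW f h h₀ hG n hI hfix t ht
  obtain ⟨ht1, htp⟩ := pgpar_mem_gs.1 ht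
  obtain ⟨htm, htd⟩ := mem_ps.1 ht1
  let pr' : V ⊕ t → F[X] := Sum.elim pr (fun P => P.1)
  let σ' : V ⊕ t → Module.End (ZMod 2) W := Sum.elim σ (fun _ => 1)
  let h' : V ⊕ t → W := Sum.elim h (fun _ => 0)
  have hm : ∀ β, (pr' β).Monic := by
    rintro (v | P)
    · exact hpr.monic v
    · exact (htm P.1 P.2).1
  have hi : ∀ β, Irreducible (pr' β) := by
    rintro (v | P)
    · exact hpr.irr v
    · exact (htm P.1 P.2).2
  have hsym : ∀ β β', syl χ (pr' β) (pr' β') = syl χ (pr' β') (pr' β) := by
    intro β β'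
    by_cases h : pr' β = pr' β'
    · rw [h]
    · exact hR _ _ (hm β) (hi β) (hm β') (hi β') h
  have hsumh : ∑ β, ((pr' β).natDegree : ZMod 2) • h' β =
      ∑ v, ((pr v).natDegree : ZMod 2) • h v := by
    rw [Fintype.sum_sum_type]
    simp only [pr', h', Sum.elim_inl, Sum.elim_inr, smul_zero, Finset.sum_const_zero, add_zero]
  have hdeg : ∑ P : t, ((P.1.natDegree : ℕ) : ZMod 2) = (n : ZMod 2) := by
    rw [← htd, Nat.cast_sum, ← Finset.sum_coe_sort t (fun P => ((P.natDegree : ℕ) : ZMod 2))]
  have hsumσ : ∀ y : W, ∑ β, ((pr' β).natDegree : ZMod 2) • σ' β y =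
      ∑ v, ((pr v).natDegree : ZMod 2) • σ v y + (n : ZMod 2) • y := by
    intro y
    rw [Fintype.sum_sum_type]
    simp only [pr', σ', Sum.elim_inl, Sum.elim_inr, Module.End.one_apply]
    rw [← Finset.sum_smul, hdeg]
  -- sums over the unknowns at a prime
  have hsl : ∀ (Q : F[X]) (y : W), ∑ β, syl χ Q (pr' β) • σ' β y =
      ∑ v, syl χ Q (pr v) • σ v y + (∑ P : t, syl χ Q P.1) • y := by
    intro Q y
    rw [Fintype.sum_sum_type]
    simp only [pr', σ', Sum.elim_inl, Sum.elim_inr, Module.End.one_apply]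
    rw [← Finset.sum_smul]
  have hsh : ∀ Q : F[X], ∑ β, syl χ Q (pr' β) • h' β = ∑ v, syl χ Q (pr v) • h v := by
    intro Q
    rw [Fintype.sum_sum_type]
    simp only [pr', h', Sum.elim_inl, Sum.elim_inr, smul_zero, Finset.sum_const_zero, add_zero]
  obtain ⟨a, ha⟩ := hPgFrm (V ⊕ t) W f hG.nondeg hG.alt h' h₀ σ' Λ
    (by
      rintro (v | P) y hy
      · exact hW.inj v y hy
      · simpa only [σ', Sum.elim_inr, Module.End.one_apply] using hy)
    (by
      rintro (v | P) x y
      · exact hG.self v x y
      · simp only [σ', Sum.elim_inr, Module.End.one_apply])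
    hG.selfL (fun β β' => syl χ (pr' β) (pr' β')) hsym
    (fun β => ((pr' β).natDegree : ZMod 2))
    (by
      intro β y
      simp only [hsl]
      rcases β with v | P
      · simp only [pr', σ', Sum.elim_inl]
        rw [add_right_comm, map_add, hW.com v y, map_smul, add_right_comm]
      · simp only [pr', σ', Sum.elim_inr, Module.End.one_apply])
    (by
      intro β x
      simp only [hsl, hsh]
      rcases β with v | P
      · simp only [pr', σ', h', Sum.elim_inl]
        have e1 := hG.rel v x
        have e2 : f (σ v x) x = f (h v) x := by rw [← hG.self v x x, hG.diag v x]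
        simp only [map_add, LinearMap.add_apply, map_smul, LinearMap.smul_apply,
          smul_eq_mul] at e1 ⊢
        linear_combination e1 + (∑ P : t, syl χ (pr v) P.1) * e2
      · simp only [pr', σ', h', Sum.elim_inr, Module.End.one_apply, map_zero, smul_zero,
          Finset.sum_const_zero, add_zero]
        simp only [map_add, map_sum, map_smul, LinearMap.add_apply, LinearMap.sum_apply,
          LinearMap.smul_apply, hG.diag, hG.diagL, hG.alt, smul_zero, add_zero])
    (by
      rintro (v | P)
      · exact hG.fix v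
      · simp only [σ', h', Sum.elim_inr, Module.End.one_apply])
    (by
      intro β
      simp only [hsl]
      rcases β with v | P
      · simp only [pr', h', Sum.elim_inl]
        rw [add_right_comm, map_add, hG.iso v, map_smul, hG.alt, smul_zero, add_zero]
      · simp only [h', Sum.elim_inr, map_zero, LinearMap.zero_apply])
    (by
      simp only [hsumh, hsumσ]
      exact hfix)
    (by
      simp only [hsumh]
      exact hG.isoI)
    (by
      intro y hy
      simp only [hsumσ] at hy
      exact hI y hy)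
  refine ⟨a, ?_⟩
  rw [← ha, nSol]
  refine Nat.card_congr (Equiv.subtypeEquiv (Equiv.sumArrowEquivProdArrow V t W).symm ?_)
  rintro ⟨c, g⟩
  have e1 : ∀ v, (Equiv.sumArrowEquivProdArrow V t W).symm (c, g) (Sum.inl v) = c v :=
    fun v => rfl
  have e2 : ∀ P, (Equiv.sumArrowEquivProdArrow V t W).symm (c, g) (Sum.inr P) = g P :=
    fun P => rfl
  constructor
  · intro h
    refine ⟨?_, ?_⟩
    · rw [Fintype.sum_sum_type]
      simp only [e1, e2]
      exact h.inf
    · rintro (v | P)
      · rw [Fintype.sum_sum_type]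
        simp only [e1, e2]
        exact h.bad v
      · rw [Fintype.sum_sum_type]
        simp only [e1, e2]
        exact h.good P
  · rintro ⟨h1, h2⟩
    refine ⟨?_, fun v => ?_, fun P => ?_⟩
    · rw [Fintype.sum_sum_type] at h1
      simp only [e1, e2] at h1
      exact h1
    · have h3 := h2 (Sum.inl v)
      rw [Fintype.sum_sum_type] at h3
      simp only [e1, e2] at h3
      exact h3
    · have h3 := h2 (Sum.inr P)
      rw [Fintype.sum_sum_type] at h3
      simp only [e1, e2] at h3
      exact h3

end MP72e2e6
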