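import Pool.Agent.Lib.MP_72e2e6_nt.PgStmt

/-!
# MP_72e2e6_nt : symmetry of the symbols and primes with prescribed symbols
-/

set_option autoImplicit false

namespace MP72e2e6

open Polynomial

universe u

theorem pgrec_ndvd {F : Type u} [Field F] (P Q : F[X]) (hP : P.Monic) (hPi : Irreducible P)
    (hQ : Q.Monic) (hQi : Irreducible Q) (hne : P ≠ Q) : ¬ P ∣ Q := fun h =>
  hne (eq_of_monic_of_associated hP hQ (hPi.associated_of_dvd hQi h))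

theorem pgrec_eq {F : Type u} [Field F] (χ χ' : F → ZMod 2) (h : IsLg 2 χ) (h' : IsLg 2 χ')
    (x : F) (hx : x ≠ 0) : χ x = χ' x := by
  have key : ∀ a b : ZMod 2, (a = 0 ↔ b = 0) → a = b := by decide
  exact key _ _ ((h.ker x hx).trans (h'.ker x hx).symm)

theorem pgrec_syl (hSy : StmtSuSy.{u}) {F : Type u} [Field F] [Finite F]
    (hF : 2 ∣ Nat.card F - 1) (χ χ' : F → ZMod 2) (h : IsLg 2 χ) (h' : IsLg 2 χ')
    (P Q : F[X]) (hP : P.Monic) (hPi : Irreducible P) (hQ : ¬ P ∣ Q) :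
    syl χ P Q = syl χ' P Q := by
  obtain ⟨_, h1, h2, _⟩ := ((hSy F 2 Nat.prime_two hF χ h).2.2 P hP hPi).2.1 Q hQ
  obtain ⟨_, _, h3, _⟩ := ((hSy F 2 Nat.prime_two hF χ' h').2.2 P hP hPi).2.1 Q hQ
  rw [h2, h3]
  exact pgrec_eq χ χ' h h' _ h1

theorem tPgRec.{v} (h1 : StmtSuRec.{v}) (h2 : StmtSuPrime.{v}) (h3 : StmtSuSy.{v})
    (h4 : StmtPeSyl.{v}) (h5 : StmtTwPrime.{v}) (_h6 : StmtTwSy.{v}) : StmtPgRec.{v} := by
  intro ℓ hℓ
  by_cases hℓ2 : ℓ = 2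
  · subst hℓ2
    refine ⟨?_, ?_⟩
    · intro k _ _ χ hk hχ hm P Q hP hPi hQ hQi hne
      obtain ⟨hcs, _, hR⟩ := h4 k hk
      have h4k : 4 ∣ Nat.card k - 1 := by
        obtain ⟨z, hz⟩ := (hχ.ker (-1) (neg_ne_zero.2 one_ne_zero)).1 hm
        have hsq : IsSquare (-1 : k) := ⟨z, by rw [hz, pow_two]⟩
        have := Fintype.ofFinite k
        have h7 := FiniteField.isSquare_neg_one_iff.1 hsq
        rw [← Nat.card_eq_fintype_card] at h7
        have h8 : 0 < Nat.card k := Nat.card_pos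
        omega
      rw [pgrec_syl h3 hk χ cs hχ hcs P Q hP hPi (pgrec_ndvd P Q hP hPi hQ hQi hne),
        pgrec_syl h3 hk χ cs hχ hcs Q P hQ hQi (pgrec_ndvd Q P hQ hQi hP hPi hne.symm)]
      exact (hR h4k).2 P Q hP hPi hQ hQi hne
    · intro k _ _ χ hk hχ hm ι _ pr hpr t
      obtain ⟨hcs, hsy, _⟩ := h4 k hk
      have hodd : Odd (Nat.card k) := by
        have h8 : 0 < Nat.card k := Nat.card_pos
        rw [Nat.odd_iff]
        omega
      obtain ⟨R, hR, hRi, hRn, _, hRt⟩ := h5 k hodd ι pr hpr t 1 (Or.inl one_ne_zero)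
      refine ⟨R, hR, hRi, hRn, fun b => ?_⟩
      rw [pgrec_syl h3 hk χ cs hχ hcs (pr b) R (hpr.monic b) (hpr.irr b)
        (pgrec_ndvd _ _ (hpr.monic b) (hpr.irr b) hR hRi (hRn b)),
        hsy (pr b) R (hpr.monic b) (hpr.irr b) hR.ne_zero]
      exact hRt b
  · refine ⟨?_, ?_⟩
    · intro k _ _ χ hk hχ _ P Q hP hPi hQ hQi hne
      exact h1 k ℓ hℓ hℓ2 hk χ hχ P Q hP hPi hQ hQi hne
    · intro k _ _ χ hk hχ _ ι _ pr hpr t
      obtain ⟨R, hR, hRi, hRn, _, hRt⟩ := h2 k ℓ hℓ hℓ2 hk χ hχ ι pr hpr t 0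
      exact ⟨R, hR, hRi, hRn, hRt⟩

end MP72e2e6
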