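import Pool.Agent.Lib.MP_72e2e6_nt.PgStmt
import Pool.Agent.Lib.MP_72e2e6_nt.PeFrm

/-!
# MP_72e2e6_nt : sums over triples
-/

set_option autoImplicit false

namespace MP72e2e6

theorem pgtri_two : (2 : ZMod 2) = 0 := rfl

theorem pgtri_key (A B C : ℤ) (a b c : ZMod 2) (h1 : min A C ≤ B) (h2 : min A B ≤ C)
    (h3 : min B C ≤ A) (k1 : B < A → c = b) (k2 : A < B → c = a) (k3 : A < C → b = a) :
    (B : ZMod 2) * a + A * c + C * b = A * b + B * c + C * a := by
  have h20 := pgtri_two
  rcases lt_trichotomy A B with h | h | h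
  · have hC : C = A := by
      rcases min_choice A B with h4 | h4 <;> rcases min_choice B C with h5 | h5 <;> omega
    rw [k2 h, hC]
    ring
  · rcases lt_trichotomy A C with h' | h' | h'
    · rw [k3 h', ← h]
    · rw [← h, ← h']
      ring
    · exfalso
      rcases min_choice A B with h4 | h4 <;> omega
  · have hC : C = B := by
      rcases min_choice A B with h4 | h4 <;> rcases min_choice A C with h5 | h5 <;> omega
    rw [k1 h, hC]
    ring

theorem tPgTri : StmtPgTri := by
  intro m w hw u hu hst θ ht1 ht2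
  classical
  have h20 := pgtri_two
  obtain ⟨g, hg⟩ : ∃ g : Fin m → Fin m → Fin m → ZMod 2, ∀ i j k, g i j k =
      if i ≠ j ∧ j ≠ k ∧ i ≠ k then (w i k : ZMod 2) * u i j * θ i j k else 0 :=
    ⟨_, fun _ _ _ => rfl⟩
  have e1 : (∑ i, ∑ j ∈ Finset.univ.erase i, ∑ k ∈ (Finset.univ.erase i).erase j,
      (w i k : ZMod 2) * u i j * θ i j k) = ∑ i, ∑ j, ∑ k, g i j k := by
    refine Finset.sum_congr rfl fun i _ => ?_
    rw [← Finset.sum_subset (Finset.subset_univ (Finset.univ.erase i))
      (f := fun j => ∑ k, g i j k)]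
    · refine Finset.sum_congr rfl fun j hj => ?_
      have hji : j ≠ i := Finset.ne_of_mem_erase hj
      rw [← Finset.sum_subset (Finset.subset_univ ((Finset.univ.erase i).erase j))
        (f := fun k => g i j k)]
      · refine Finset.sum_congr rfl fun k hk => ?_
        have hkj : k ≠ j := Finset.ne_of_mem_erase hk
        have hki : k ≠ i := Finset.ne_of_mem_erase (Finset.mem_of_mem_erase hk)
        rw [hg, if_pos ⟨hji.symm, hkj.symm, hki.symm⟩]
      · intro k _ hk
        rw [hg, if_neg]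
        rintro ⟨_, h2, h3⟩
        exact hk (Finset.mem_erase.2 ⟨h2.symm, Finset.mem_erase.2 ⟨h3.symm, Finset.mem_univ _⟩⟩)
    · intro j _ hj
      refine Finset.sum_eq_zero fun k _ => ?_
      rw [hg, if_neg]
      rintro ⟨h1, _, _⟩
      exact hj (Finset.mem_erase.2 ⟨h1.symm, Finset.mem_univ _⟩)
  rw [e1]
  have e2 : ∑ i, ∑ j, ∑ k, g j k i = ∑ i, ∑ j, ∑ k, g i j k := by
    rw [Finset.sum_comm]
    refine Finset.sum_congr rfl fun j _ => ?_
    rw [Finset.sum_comm]
  have e3 : ∑ i, ∑ j, ∑ k, g k i j = ∑ i, ∑ j, ∑ k, g i j k := by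
    have e4 : ∑ i, ∑ j, ∑ k, g k i j = ∑ i, ∑ k, ∑ j, g k i j :=
      Finset.sum_congr rfl fun i _ => Finset.sum_comm
    rw [e4, Finset.sum_comm]
  have e5 : ∑ i, ∑ j, ∑ k, g i j k = ∑ i, ∑ j, ∑ k, (g i j k + g j k i + g k i j) := by
    simp only [Finset.sum_add_distrib]
    rw [e2, e3]
    linear_combination (-(∑ i, ∑ j, ∑ k, g i j k)) * h20
  rw [e5]
  refine Finset.sum_eq_zero fun i _ => ?_
  refine pefrm_double (fun j k => g i j k + g j k i + g k i j) ?_ ?_
  · intro j k
    by_cases h : i ≠ j ∧ j ≠ k ∧ i ≠ k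
    · obtain ⟨a, b, c⟩ := h
      rw [hg, hg, hg, hg, hg, hg, if_pos ⟨a, b, c⟩, if_pos ⟨b, c.symm, a.symm⟩,
        if_pos ⟨c.symm, a, b.symm⟩, if_pos ⟨c, b.symm, a⟩, if_pos ⟨b.symm, a.symm, c.symm⟩,
        if_pos ⟨a.symm, c, b⟩]
      have t1 : θ j k i = θ i j k := by rw [ht2 j k i, ht1 j i k]
      have t2 : θ k i j = θ i j k := by rw [ht1 k i j, ht2 i k j]
      have t3 : θ i k j = θ i j k := ht2 i k j
      have t4 : θ k j i = θ i j k := by rw [ht1 k j i, t1]
      have t5 : θ j i k = θ i j k := ht1 j i k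
      rw [t1, t2, t3, t4, t5, hw.symm j i, hw.symm k j, hw.symm k i, hu k i, hu k j, hu j i]
      have key := pgtri_key (w i j) (w i k) (w j k) (u i j) (u i k) (u j k)
        (hw.tri i j k a b c)
        (by
          have := hw.tri j i k a.symm c b
          rwa [hw.symm j i] at this)
        (by
          have := hw.tri i k j c b.symm a
          rwa [hw.symm k j] at this)
        (hst i j k a b c)
        (by
          intro h
          have := hst i k j c b.symm a h
          rwa [hu k j] at this)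
        (by
          intro h
          have := hst j k i b c.symm a.symm (by rwa [hw.symm j i])
          rwa [hu k i, hu j i] at this)
      linear_combination (θ i j k) * key
    · have z : ∀ x y z : Fin m, ¬ (x ≠ y ∧ y ≠ z ∧ x ≠ z) → g x y z = 0 := fun x y z h => by
        rw [hg, if_neg h]
      rw [z i j k h, z j k i (fun h' => h ⟨h'.2.2.symm, h'.1, h'.2.1.symm⟩),
        z k i j (fun h' => h ⟨h'.2.1, h'.2.2.symm, h'.1.symm⟩),
        z i k j (fun h' => h ⟨h'.2.2, h'.2.1.symm, h'.1⟩),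
        z k j i (fun h' => h ⟨h'.2.1.symm, h'.1.symm, h'.2.2.symm⟩),
        z j i k (fun h' => h ⟨h'.1.symm, h'.2.2, h'.2.1⟩)]
  · intro j
    rw [hg, hg, hg, if_neg (fun h => h.2.1 rfl), if_neg (fun h => h.1 rfl),
      if_neg (fun h => h.2.2 rfl)]
    ring

end MP72e2e6
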