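import Pool.Agent.Lib.MP_72e2e6_nt.PqStmt

/-!
# MP_72e2e6_nt: the exact moments, cancellation
-/

set_option autoImplicit false

namespace MP72e2e6

open Polynomial IsDedekindDomain

universe u

section

variable {ℓ : ℕ} [Fact ℓ.Prime] {V W : Type} [Fintype V] [AddCommGroup W] [Module (ZMod ℓ) W]
  [Fintype W]

/-- The vector `z` is not in `A`. -/
theorem pqa2_not_mem {F : Type u} [Field F] (pr : V → F[X]) (σ : V → Module.End (ZMod ℓ) W)
    (Λ : Module.End (ZMod ℓ) W) (n : ℕ) (hInf : InfW pr σ n) (c : V → W)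
    (A : Submodule (ZMod ℓ) W) (hInv : Inv σ Λ A) (c₀ : W) (hc₀ : c₀ ∉ A)
    (hcv : ∀ v, c v - c₀ ∈ A) :
    ∑ v, ((pr v).natDegree : ZMod ℓ) • σ v (c v) + (n : ZMod ℓ) • c₀ ∉ A := by
  intro hz
  let Y : W →+ W :=
    { toFun := fun y => ∑ v, ((pr v).natDegree : ZMod ℓ) • σ v y + (n : ZMod ℓ) • y
      map_zero' := by simp
      map_add' := by
        intro x y
        simp only [map_add, smul_add, Finset.sum_add_distrib]
        abel }
  have hY : ∀ y, Y y = ∑ v, ((pr v).natDegree : ZMod ℓ) • σ v y + (n : ZMod ℓ) • y :=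
    fun _ => rfl
  have hYA : ∀ y ∈ A, Y y ∈ A := by
    intro y hy
    rw [hY]
    exact A.add_mem (A.sum_mem fun v _ => A.smul_mem _ (hInv.sg v y hy)) (A.smul_mem _ hy)
  have hinj : Function.Injective (fun y : A => (⟨Y y, hYA y y.2⟩ : A)) := by
    intro x y hxy
    have h1 : Y (x : W) = Y (y : W) := congrArg Subtype.val hxy
    have h2 : Y ((x : W) - y) = 0 := by rw [map_sub, h1, sub_self]
    have h3 := hInf _ h2
    exact Subtype.ext (sub_eq_zero.1 h3)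
  have hsurj := Finite.surjective_of_injective hinj
  have h1 : Y c₀ ∈ A := by
    have h2 : Y c₀ = (∑ v, ((pr v).natDegree : ZMod ℓ) • σ v (c v) + (n : ZMod ℓ) • c₀) -
        ∑ v, ((pr v).natDegree : ZMod ℓ) • σ v (c v - c₀) := by
      rw [hY]
      simp only [map_sub, smul_sub, Finset.sum_sub_distrib]
      abel
    rw [h2]
    exact A.sub_mem hz (A.sum_mem fun v _ => A.smul_mem _ (hInv.sg v _ (hcv v)))
  obtain ⟨y, hy⟩ := hsurj ⟨Y c₀, h1⟩
  have h2 : Y (y : W) = Y c₀ := congrArg Subtype.val hy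
  have h3 : Y ((y : W) - c₀) = 0 := by rw [map_sub, h2, sub_self]
  have h4 := hInf _ h3
  rw [sub_eq_zero] at h4
  exact hc₀ (h4 ▸ y.2)

theorem pqa2_aiW (Λ : Module.End (ZMod ℓ) W) (A : Submodule (ZMod ℓ) W) (c₀ : W)
    (e : Module.Dual (ZMod ℓ) W) (he : A ≤ LinearMap.ker e) (η : Module.Dual (ZMod ℓ) W)
    (w : W × Module.Dual (ZMod ℓ) W) (hw : w.1 - c₀ ∈ A) :
    aiW Λ (η + e) w = aiW Λ η w + e c₀ := by
  have h1 : e (w.1 - c₀) = 0 := he hw
  rw [map_sub, sub_eq_zero] at h1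
  rw [aiW, aiW, LinearMap.add_apply, h1]
  ring

theorem pqa2_thW {F : Type u} [Field F] (χ : F → ZMod ℓ) (pr : V → F[X])
    (σ : V → Module.End (ZMod ℓ) W) (Λ : Module.End (ZMod ℓ) W) (c : V → W)
    (d : V → Module.Dual (ZMod ℓ) W) (η e : Module.Dual (ZMod ℓ) W) :
    thW χ pr σ Λ c d (η + e) = thW χ pr σ Λ c d η +
      e (∑ v, ((pr v).natDegree : ZMod ℓ) • σ v (c v)) := by
  rw [thW, thW, LinearMap.add_apply]
  ring

theorem pqa2_adm (σ : V → Module.End (ZMod ℓ) W) (Λ : Module.End (ZMod ℓ) W) (c : V → W)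
    (d : V → Module.Dual (ZMod ℓ) W) (η η' : Module.Dual (ZMod ℓ) W) (r : ZMod ℓ)
    (𝓥 : Finset (W × Module.Dual (ZMod ℓ) W))
    (h : ∀ w ∈ 𝓥, aiW Λ η' w = aiW Λ η w + r)
    (hA : Adm BW (Fintype.card W) (alW σ c d) (aiW Λ η) 𝓥) :
    Adm BW (Fintype.card W) (alW σ c d) (aiW Λ η') 𝓥 where
  card := hA.card
  unl := hA.unl
  bad := hA.bad
  inf w hw w' hw' := by rw [h w hw, h w' hw', hA.inf w hw w' hw']

end

theorem tPqA2.{v} (hPqA1 : StmtPqA1) : StmtPqA2.{v} := by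
  intro F _ ℓ _ h2 V W _ _ _ _ _ χ pr σ Λ hinj n hInf c d 𝓥 h0
  classical
  by_cases hex : ∃ η, Adm BW (Fintype.card W) (alW σ c d) (aiW Λ η) 𝓥
  swap
  · exact Finset.sum_eq_zero fun η _ => if_neg fun h' => hex ⟨η, h'⟩
  obtain ⟨η₀, hA0⟩ := hex
  obtain ⟨A, hInv, ⟨g, hg, δ, hC, hV⟩ | ⟨c₀, hc₀, hcv, hu⟩⟩ :=
    hPqA1 ℓ h2 V W σ Λ hinj c d η₀ 𝓥 hA0
  · exfalso
    obtain ⟨d₀, hd₀⟩ := LinearMap.exists_extend δ
    have h1 : ((0 : W), d₀) ∈ 𝓥 := by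
      rw [hV]
      refine ⟨0, rfl, fun y => ?_⟩
      rw [map_zero, LinearMap.zero_apply, add_zero, ← hd₀]
      rfl
    exact h0 _ h1 rfl
  have hz := pqa2_not_mem pr σ Λ n hInf c A hInv c₀ hc₀ hcv
  obtain ⟨e, hez, heA⟩ := Submodule.exists_le_ker_of_notMem hz
  set S := ∑ v, ((pr v).natDegree : ZMod ℓ) • σ v (c v) with hS
  have hai : ∀ η : Module.Dual (ZMod ℓ) W, ∀ w ∈ 𝓥, aiW Λ (η + e) w = aiW Λ η w + e c₀ :=
    fun η w hw => pqa2_aiW Λ A c₀ e heA η w (hu w hw)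
  have hadm : ∀ η : Module.Dual (ZMod ℓ) W,
      Adm BW (Fintype.card W) (alW σ c d) (aiW Λ (η + e)) 𝓥 ↔
        Adm BW (Fintype.card W) (alW σ c d) (aiW Λ η) 𝓥 := by
    intro η
    constructor
    · intro h
      exact pqa2_adm σ Λ c d (η + e) η (-e c₀) 𝓥 (fun w hw => by rw [hai η w hw]; ring) h
    · intro h
      exact pqa2_adm σ Λ c d η (η + e) (e c₀) 𝓥 (hai η) h
  set T : Module.Dual (ZMod ℓ) W → ℂ := fun η =>
    (if Adm BW (Fintype.card W) (alW σ c d) (aiW Λ η) 𝓥 then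
        ZMod.stdAddChar (thW χ pr σ Λ c d η) * ((Fintype.card W : ℂ)⁻¹ *
          ∑ w ∈ 𝓥, ZMod.stdAddChar (aiW Λ η w * (n : ZMod ℓ))) else 0) with hT
  have hTe : ∀ η, T (η + e) = ZMod.stdAddChar (e (S + (n : ZMod ℓ) • c₀)) * T η := by
    intro η
    by_cases h : Adm BW (Fintype.card W) (alW σ c d) (aiW Λ η) 𝓥
    · have h' := (hadm η).2 h
      have h1 : T (η + e) = ZMod.stdAddChar (thW χ pr σ Λ c d (η + e)) *
          ((Fintype.card W : ℂ)⁻¹ *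
            ∑ w ∈ 𝓥, ZMod.stdAddChar (aiW Λ (η + e) w * (n : ZMod ℓ))) := if_pos h'
      have h3 : T η = ZMod.stdAddChar (thW χ pr σ Λ c d η) *
          ((Fintype.card W : ℂ)⁻¹ *
            ∑ w ∈ 𝓥, ZMod.stdAddChar (aiW Λ η w * (n : ZMod ℓ))) := if_pos h
      have h4 : ∑ w ∈ 𝓥, (ZMod.stdAddChar (aiW Λ (η + e) w * (n : ZMod ℓ)) : ℂ) =
          (∑ w ∈ 𝓥, (ZMod.stdAddChar (aiW Λ η w * (n : ZMod ℓ)) : ℂ)) *
            ZMod.stdAddChar (e c₀ * (n : ZMod ℓ)) := by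
        rw [Finset.sum_mul]
        refine Finset.sum_congr rfl fun w hw => ?_
        rw [hai η w hw, add_mul, AddChar.map_add_eq_mul]
      rw [h1, h3, h4, pqa2_thW, AddChar.map_add_eq_mul, map_add, map_smul, smul_eq_mul,
        AddChar.map_add_eq_mul, mul_comm (n : ZMod ℓ)]
      ring
    · have h1 : T (η + e) = 0 := if_neg fun h' => h ((hadm η).1 h')
      have h3 : T η = 0 := if_neg h
      rw [h1, h3, mul_zero]
  have hsum : ∑ η, T η = ZMod.stdAddChar (e (S + (n : ZMod ℓ) • c₀)) * ∑ η, T η := by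
    rw [Finset.mul_sum, ← Equiv.sum_comp (Equiv.addRight e) T]
    exact Finset.sum_congr rfl fun η _ => hTe η
  have hne : (ZMod.stdAddChar (e (S + (n : ZMod ℓ) • c₀)) : ℂ) ≠ 1 := by
    intro h
    rw [← AddChar.map_zero_eq_one (ZMod.stdAddChar (N := ℓ))] at h
    exact hez (ZMod.injective_stdAddChar h)
  have h5 : (1 - (ZMod.stdAddChar (e (S + (n : ZMod ℓ) • c₀)) : ℂ)) * ∑ η, T η = 0 := by
    linear_combination hsum
  rcases mul_eq_zero.1 h5 with h6 | h6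
  · exact absurd (sub_eq_zero.1 h6).symm hne
  · exact h6

end MP72e2e6
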