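import Pool.Agent.Lib.MP_72e2e6_nt.PhStmt
import Pool.Agent.Lib.MP_72e2e6_nt.PqA2

/-!
# MP_72e2e6_nt: the exact moments for `ℓ = 2`, cancellation
-/

set_option autoImplicit false

namespace MP72e2e6

open Polynomial IsDedekindDomain

universe u

theorem tPhA2.{v} (hPhA1 : StmtPhA1) : StmtPhA2.{v} := by
  intro F _ V W _ _ _ _ _ χ pr σ Λ hinj n hInf c d 𝓥 h0
  classical
  by_cases hex : ∃ η, Adm BW (Fintype.card W) (alW σ c d) (aiW Λ η) 𝓥
  swap
  · exact Finset.sum_eq_zero fun η _ => if_neg fun h' => hex ⟨η, h'⟩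
  obtain ⟨η₀, hA0⟩ := hex
  obtain ⟨A, hInv, ⟨g, hg, δ, hC, hV⟩ | ⟨c₀, hc₀, hcv, hu⟩⟩ :=
    hPhA1 V W σ Λ hinj c d η₀ 𝓥 hA0
  · exfalso
    obtain ⟨d₀, hd₀⟩ := LinearMap.exists_extend δ
    have h1 : ((0 : W), d₀) ∈ 𝓥 := by
      rw [hV]
      refine ⟨0, rfl, fun y => ?_⟩
      rw [map_zero, LinearMap.zero_apply, add_zero, ← hd₀]
      rfl
    exact h0 _ h1 rfl
  have hz := pqa2_not_mem pr σ Λ n hInf c A hInv c₀ hc₀ hcv
  obtain ⟨e, hez, heA⟩ := Submodule.exists_le_ker_of_notMem hz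
  set S := ∑ v, ((pr v).natDegree : ZMod 2) • σ v (c v) with hS
  have hai : ∀ η : Module.Dual (ZMod 2) W, ∀ w ∈ 𝓥, aiW Λ (η + e) w = aiW Λ η w + e c₀ :=
    fun η w hw => pqa2_aiW Λ A c₀ e heA η w (hu w hw)
  have hadm : ∀ η : Module.Dual (ZMod 2) W,
      Adm BW (Fintype.card W) (alW σ c d) (aiW Λ (η + e)) 𝓥 ↔
        Adm BW (Fintype.card W) (alW σ c d) (aiW Λ η) 𝓥 := by
    intro η
    constructor
    · intro h
      exact pqa2_adm σ Λ c d (η + e) η (-e c₀) 𝓥 (fun w hw => by rw [hai η w hw]; ring) h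
    · intro h
      exact pqa2_adm σ Λ c d η (η + e) (e c₀) 𝓥 (hai η) h
  set T : Module.Dual (ZMod 2) W → ℂ := fun η =>
    (if Adm BW (Fintype.card W) (alW σ c d) (aiW Λ η) 𝓥 then
        ZMod.stdAddChar (thW χ pr σ Λ c d η) * ((Fintype.card W : ℂ)⁻¹ *
          ∑ w ∈ 𝓥, ZMod.stdAddChar (aiW Λ η w * (n : ZMod 2))) else 0) with hT
  have hTe : ∀ η, T (η + e) = ZMod.stdAddChar (e (S + (n : ZMod 2) • c₀)) * T η := by
    intro η
    by_cases h : Adm BW (Fintype.card W) (alW σ c d) (aiW Λ η) 𝓥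
    · have h' := (hadm η).2 h
      have h1 : T (η + e) = ZMod.stdAddChar (thW χ pr σ Λ c d (η + e)) *
          ((Fintype.card W : ℂ)⁻¹ *
            ∑ w ∈ 𝓥, ZMod.stdAddChar (aiW Λ (η + e) w * (n : ZMod 2))) := if_pos h'
      have h3 : T η = ZMod.stdAddChar (thW χ pr σ Λ c d η) *
          ((Fintype.card W : ℂ)⁻¹ *
            ∑ w ∈ 𝓥, ZMod.stdAddChar (aiW Λ η w * (n : ZMod 2))) := if_pos h
      have h4 : ∑ w ∈ 𝓥, (ZMod.stdAddChar (aiW Λ (η + e) w * (n : ZMod 2)) : ℂ) =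
          (∑ w ∈ 𝓥, (ZMod.stdAddChar (aiW Λ η w * (n : ZMod 2)) : ℂ)) *
            ZMod.stdAddChar (e c₀ * (n : ZMod 2)) := by
        rw [Finset.sum_mul]
        refine Finset.sum_congr rfl fun w hw => ?_
        rw [hai η w hw, add_mul, AddChar.map_add_eq_mul]
      rw [h1, h3, h4, pqa2_thW, AddChar.map_add_eq_mul, map_add, map_smul, smul_eq_mul,
        AddChar.map_add_eq_mul, mul_comm (n : ZMod 2)]
      ring
    · have h1 : T (η + e) = 0 := if_neg fun h' => h ((hadm η).1 h')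
      have h3 : T η = 0 := if_neg h
      rw [h1, h3, mul_zero]
  have hsum : ∑ η, T η = ZMod.stdAddChar (e (S + (n : ZMod 2) • c₀)) * ∑ η, T η := by
    rw [Finset.mul_sum, ← Equiv.sum_comp (Equiv.addRight e) T]
    exact Finset.sum_congr rfl fun η _ => hTe η
  have hne : (ZMod.stdAddChar (e (S + (n : ZMod 2) • c₀)) : ℂ) ≠ 1 := by
    intro h
    rw [← AddChar.map_zero_eq_one (ZMod.stdAddChar (N := 2))] at h
    exact hez (ZMod.injective_stdAddChar h)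
  have h5 : (1 - (ZMod.stdAddChar (e (S + (n : ZMod 2) • c₀)) : ℂ)) * ∑ η, T η = 0 := by
    linear_combination hsum
  rcases mul_eq_zero.1 h5 with h6 | h6
  · exact absurd (sub_eq_zero.1 h6).symm hne
  · exact h6

end MP72e2e6
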