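import Pool.Agent.Lib.MP_72e2e6_nt.PqA4

/-!
# MP_72e2e6_nt: exact moments, the phase is trivial (PqA3)
-/

namespace MP72e2e6

open Polynomial

universe u

theorem pqa3_two {ℓ : ℕ} [Fact ℓ.Prime] (h2 : ℓ ≠ 2) {a : ZMod ℓ} (h : a = -a) : a = 0 := by
  have h3 : (2 : ZMod ℓ) * a = 0 := by linear_combination h
  rcases mul_eq_zero.1 h3 with h4 | h4
  · exfalso
    have h5 : ((2 : ℕ) : ZMod ℓ) = 0 := by exact_mod_cast h4
    rw [ZMod.natCast_eq_zero_iff] at h5
    exact h2 ((Nat.prime_dvd_prime_iff_eq (Fact.out) Nat.prime_two).1 h5)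
  · exact h4

section

variable {ℓ : ℕ} [Fact ℓ.Prime] {W : Type} [AddCommGroup W] [Module (ZMod ℓ) W]

/-- skew forms -/
theorem pqa3_skew {A : Type} [AddCommGroup A] [Module (ZMod ℓ) A]
    {g : A →ₗ[ZMod ℓ] Module.Dual (ZMod ℓ) A} (hg : ∀ x, g x x = 0) (x y : A) :
    g x y = - g y x := by
  have h := hg (x + y)
  rw [map_add g, LinearMap.add_apply, map_add, map_add, hg, hg] at h
  linear_combination h

theorem pqa3_adj {A : Type} [AddCommGroup A] [Module (ZMod ℓ) A]
    {g : A →ₗ[ZMod ℓ] Module.Dual (ZMod ℓ) A} (hg : ∀ x, g x x = 0) {T : A →ₗ[ZMod ℓ] A}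
    (hT : ∀ x, g x (T x) = 0) (x y : A) : g (T x) y = g x (T y) := by
  have h := hT (x + y)
  rw [map_add g, LinearMap.add_apply, map_add T, map_add, map_add, hT, hT] at h
  rw [pqa3_skew hg (T x) y]
  linear_combination -h

/-- the phase, on the subspace -/
theorem pqa3_phase (h2 : ℓ ≠ 2) {A V : Type} [AddCommGroup A] [Module (ZMod ℓ) A] [Fintype V]
    (g : A →ₗ[ZMod ℓ] Module.Dual (ZMod ℓ) A) (hg : ∀ x, g x x = 0) (S : V → A →ₗ[ZMod ℓ] A)
    (L : A →ₗ[ZMod ℓ] A) (hS : ∀ v x, g x (S v x) = 0) (hL : ∀ x, g x (L x) = 0)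
    (D : V → ZMod ℓ) (s : V → V → ZMod ℓ) (hs : ∀ v v', s v v' = s v' v)
    (hcom : ∀ v y, S v (∑ v', s v v' • S v' y + D v • L y) =
      ∑ v', s v v' • S v' (S v y) + D v • L (S v y))
    (δ : Module.Dual (ZMod ℓ) A) (c : V → A) :
    δ (L (∑ v, D v • S v (c v))) + ∑ v, (δ + g (c v)) (S v
      (∑ v', s v v' • S v' (c v' - c v) - D v • L (c v))) = 0 := by
  have hadj : ∀ v x y, g (S v x) y = g x (S v y) := fun v => pqa3_adj hg (hS v)
  have hadjL : ∀ x y, g (L x) y = g x (L y) := pqa3_adj hg hL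
  have hw : ∀ v, S v (∑ v', s v v' • S v' (c v' - c v) - D v • L (c v)) =
      ∑ v', s v v' • S v (S v' (c v')) -
        (∑ v', s v v' • S v' (S v (c v)) + D v • L (S v (c v))) := by
    intro v
    have h1 : ∑ v', s v v' • S v' (c v' - c v) - D v • L (c v) =
        ∑ v', s v v' • S v' (c v') - (∑ v', s v v' • S v' (c v) + D v • L (c v)) := by
      have h3 : ∑ v', s v v' • S v' (c v' - c v) =
          ∑ v', s v v' • S v' (c v') - ∑ v', s v v' • S v' (c v) := by
        rw [← Finset.sum_sub_distrib]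
        refine Finset.sum_congr rfl fun v' _ => ?_
        rw [map_sub, smul_sub]
      rw [h3]
      abel
    rw [h1, map_sub, hcom]
    congr 1
    rw [map_sum]
    refine Finset.sum_congr rfl fun v' _ => ?_
    rw [map_smul]
  -- the part with the functional
  have hδ : L (∑ v, D v • S v (c v)) + ∑ v, S v
      (∑ v', s v v' • S v' (c v' - c v) - D v • L (c v)) = 0 := by
    have h4 : ∑ v, S v (∑ v', s v v' • S v' (c v' - c v) - D v • L (c v)) =
        ∑ v, ∑ v', s v v' • S v (S v' (c v')) - (∑ v, ∑ v', s v v' • S v' (S v (c v)) +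
          ∑ v, D v • L (S v (c v))) := by
      rw [← Finset.sum_add_distrib, ← Finset.sum_sub_distrib]
      exact Finset.sum_congr rfl fun v _ => hw v
    have h5 : ∑ v, ∑ v', s v v' • S v (S v' (c v')) = ∑ v, ∑ v', s v v' • S v' (S v (c v)) := by
      rw [Finset.sum_comm]
      refine Finset.sum_congr rfl fun v _ => Finset.sum_congr rfl fun v' _ => ?_
      rw [hs v' v]
    have h6 : L (∑ v, D v • S v (c v)) = ∑ v, D v • L (S v (c v)) := by
      rw [map_sum]
      refine Finset.sum_congr rfl fun v _ => ?_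
      rw [map_smul]
    rw [h4, h5, h6]
    abel
  -- the part with the form
  have hgz : ∀ v, g (c v) (S v (∑ v', s v v' • S v' (c v' - c v) - D v • L (c v))) =
      ∑ v', s v v' * g (S v (c v)) (S v' (c v')) := by
    intro v
    have hM : ∀ a b, g a (∑ v', s v v' • S v' b + D v • L b) =
        g (∑ v', s v v' • S v' a + D v • L a) b := by
      intro a b
      rw [map_add, map_sum, map_add, map_sum, LinearMap.add_apply, LinearMap.sum_apply]
      congr 1
      · refine Finset.sum_congr rfl fun v' _ => ?_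
        rw [map_smul, map_smul, LinearMap.smul_apply, hadj]
      · rw [map_smul, map_smul, LinearMap.smul_apply, hadjL]
    have h7 : g (c v) (∑ v', s v v' • S v' (S v (c v)) + D v • L (S v (c v))) = 0 := by
      apply pqa3_two h2
      have h8 : g (c v) (∑ v', s v v' • S v' (S v (c v)) + D v • L (S v (c v))) =
          g (S v (c v)) (∑ v', s v v' • S v' (c v) + D v • L (c v)) := by
        rw [← hcom, ← hadj]
      have h9 : g (S v (c v)) (∑ v', s v v' • S v' (c v) + D v • L (c v)) =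
          g (∑ v', s v v' • S v' (S v (c v)) + D v • L (S v (c v))) (c v) := hM _ _
      rw [← pqa3_skew hg, ← h9, ← h8]
    rw [hw, map_sub, h7, sub_zero, map_sum]
    refine Finset.sum_congr rfl fun v' _ => ?_
    rw [map_smul, smul_eq_mul, hadj]
  have hsum : ∑ v, g (c v) (S v (∑ v', s v v' • S v' (c v' - c v) - D v • L (c v))) = 0 := by
    apply pqa3_two h2
    have h10 : ∑ v, g (c v) (S v (∑ v', s v v' • S v' (c v' - c v) - D v • L (c v))) =
        ∑ v, ∑ v', s v v' * g (S v (c v)) (S v' (c v')) :=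
      Finset.sum_congr rfl fun v _ => hgz v
    rw [h10]
    conv_lhs => rw [Finset.sum_comm]
    rw [← Finset.sum_neg_distrib]
    refine Finset.sum_congr rfl fun v _ => ?_
    rw [← Finset.sum_neg_distrib]
    refine Finset.sum_congr rfl fun v' _ => ?_
    rw [hs v' v, pqa3_skew hg (S v' (c v'))]
    ring
  have h11 : ∑ v, (δ + g (c v)) (S v (∑ v', s v v' • S v' (c v' - c v) - D v • L (c v))) =
      δ (∑ v, S v (∑ v', s v v' • S v' (c v' - c v) - D v • L (c v))) +
        ∑ v, g (c v) (S v (∑ v', s v v' • S v' (c v' - c v) - D v • L (c v))) := by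
    rw [map_sum, ← Finset.sum_add_distrib]
    exact Finset.sum_congr rfl fun v _ => LinearMap.add_apply _ _ _
  rw [h11, hsum, add_zero, ← map_add, hδ, map_zero]

theorem pqa3_cardV [Fintype W] (A : Submodule (ZMod ℓ) W)
    (g : A →ₗ[ZMod ℓ] Module.Dual (ZMod ℓ) A) (δ : Module.Dual (ZMod ℓ) A)
    (𝓥 : Finset (W × Module.Dual (ZMod ℓ) W)) (h𝓥 : ∀ u, u ∈ 𝓥 ↔ Vst A g δ u) :
    𝓥.card = Fintype.card W := by
  obtain ⟨s, hs⟩ := pqa4_section A
  let K := LinearMap.ker (Submodule.dualRestrict (R := ZMod ℓ) A)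
  have hK : ∀ e : Module.Dual (ZMod ℓ) W, e ∈ K ↔ ∀ y : A, e (y : W) = 0 := by
    intro e
    rw [LinearMap.mem_ker]
    constructor
    · intro h y
      rw [← Submodule.dualRestrict_apply, h, LinearMap.zero_apply]
    · intro h
      ext y
      rw [Submodule.dualRestrict_apply, h y, LinearMap.zero_apply]
  have hmem : ∀ u : {u // u ∈ 𝓥}, u.1.1 ∈ A := by
    intro u
    obtain ⟨x, hx, -⟩ := (h𝓥 u.1).mp u.2
    rw [← hx]
    exact x.2
  have hval : ∀ u : {u // u ∈ 𝓥}, ∀ y : A, u.1.2 y = (δ + g ⟨u.1.1, hmem u⟩) y := by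
    intro u y
    obtain ⟨x, hx, hy⟩ := (h𝓥 u.1).mp u.2
    have hx' : x = ⟨u.1.1, hmem u⟩ := Subtype.ext hx
    rw [hy y, hx', LinearMap.add_apply]
  let e : {u // u ∈ 𝓥} ≃ A × K :=
    { toFun := fun u => (⟨u.1.1, hmem u⟩, ⟨u.1.2 - s (δ + g ⟨u.1.1, hmem u⟩), by
        rw [hK]
        intro y
        rw [LinearMap.sub_apply, hs, hval u y]
        exact sub_self _⟩)
      invFun := fun p => ⟨((p.1 : W), s (δ + g p.1) + (p.2 : Module.Dual (ZMod ℓ) W)), by
        rw [h𝓥]
        refine ⟨p.1, rfl, fun y => ?_⟩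
        show (s (δ + g p.1) + (p.2 : Module.Dual (ZMod ℓ) W)) (y : W) = _
        rw [LinearMap.add_apply, hs, (hK _).mp p.2.2 y, add_zero, LinearMap.add_apply]⟩
      left_inv := by
        rintro ⟨⟨x, f⟩, h⟩
        apply Subtype.ext
        exact Prod.ext rfl (add_sub_cancel _ _)
      right_inv := by
        rintro ⟨x, κ⟩
        refine Prod.ext rfl (Subtype.ext ?_)
        exact add_sub_cancel_left _ _ }
  have h1 : Nat.card {u // u ∈ 𝓥} = Nat.card (A × K) := Nat.card_congr e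
  rw [Nat.card_prod, mul_comm, pqa4_card A, Nat.card_eq_fintype_card,
    Nat.card_eq_fintype_card, Fintype.card_coe] at h1
  exact h1

end

theorem tPqA3.{v} : StmtPqA3.{v} := by
  intro F _ ℓ _ h2 V W _ _ _ _ χ pr σ Λ hyp hsym A hI g hg δ c d η hC 𝓥 h𝓥
  have hg0 : ∀ x : A, g x x = 0 := fun x => hg x x (Or.inl rfl)
  have hgS : ∀ (v : V) (x : A), g x ((σ v).restrict (hI.sg v) x) = 0 := fun v x =>
    hg x _ (Or.inr (Or.inl ⟨v, rfl⟩))
  have hgL : ∀ x : A, g x (Λ.restrict hI.lm x) = 0 := fun x => hg x _ (Or.inr (Or.inr rfl))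
  let cA : V → A := fun v => ⟨c v, hC.mem v⟩
  obtain ⟨hd, hη⟩ := (pqa4_cda hI cA fun _ => rfl).mp hC
  have hu : ∀ u ∈ 𝓥, ∃ x : A, (x : W) = u.1 ∧ ∀ y : A, u.2 y = δ y + g x y := fun u hu =>
    (h𝓥 u).mp hu
  have hinf : ∀ u ∈ 𝓥, aiW Λ η u = 0 := by
    intro u hu'
    obtain ⟨x, hx, hy⟩ := hu u hu'
    rw [aiW, ← hx, hη x]
    have h3 : u.2 (Λ (x : W)) = u.2 ((Λ.restrict hI.lm x : A) : W) := rfl
    rw [h3, hy, hgL, add_zero, sub_self]
  refine ⟨⟨pqa3_cardV A g δ 𝓥 h𝓥, ?_, ?_, ?_⟩, hinf, ?_⟩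
  · intro u hu' w hw'
    obtain ⟨x, hx, hy⟩ := hu u hu'
    obtain ⟨x', hx', hy'⟩ := hu w hw'
    rw [BW, BW, ← hx, ← hx']
    have h3 : (x' : W) - x = ((x' - x : A) : W) := rfl
    have h4 : (x : W) - x' = ((x - x' : A) : W) := rfl
    rw [h3, h4, hy, hy']
    have h5 := hg0 (x' - x)
    rw [map_sub g, LinearMap.sub_apply] at h5
    have h6 : δ (x - x') = - δ (x' - x) := by rw [← map_neg, neg_sub]
    have h7 : g x' (x - x') = - g x' (x' - x) := by rw [← map_neg, neg_sub]
    rw [h6, h7]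
    linear_combination -h5
  · intro u hu' v
    obtain ⟨x, hx, hy⟩ := hu u hu'
    rw [alW, ← hx]
    have h3 : (x : W) - c v = ((x - cA v : A) : W) := rfl
    have h4 : σ v (c v - (x : W)) = (((σ v).restrict (hI.sg v) (cA v - x) : A) : W) := rfl
    rw [h3, h4, hd, hy, LinearMap.add_apply]
    have h5 := hgS v (x - cA v)
    rw [map_sub g, LinearMap.sub_apply] at h5
    have h6 : (σ v).restrict (hI.sg v) (cA v - x) = -(σ v).restrict (hI.sg v) (x - cA v) := by
      rw [← map_neg, neg_sub]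
    rw [h6, map_neg, map_neg]
    linear_combination -h5
  · intro u hu' w hw'
    rw [hinf u hu', hinf w hw']
  · have h3 := pqa3_phase h2 g hg0 (fun v => (σ v).restrict (hI.sg v)) (Λ.restrict hI.lm) hgS hgL
      (fun v => ((pr v).natDegree : ZMod ℓ)) (fun v v' => syl χ (pr v) (pr v')) hsym ?_ δ cA
    · rw [← h3, thW]
      congr 1
      · have h4 : ∑ v, ((pr v).natDegree : ZMod ℓ) • σ v (c v) =
            ((∑ v, ((pr v).natDegree : ZMod ℓ) • (σ v).restrict (hI.sg v) (cA v) : A) : W) := by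
          rw [Submodule.coe_sum]
          rfl
        rw [h4, hη]
      · refine Finset.sum_congr rfl fun v _ => ?_
        have h4 : ∑ v', syl χ (pr v) (pr v') • σ v' (c v' - c v) -
            ((pr v).natDegree : ZMod ℓ) • Λ (c v) =
            ((∑ v', syl χ (pr v) (pr v') • (σ v').restrict (hI.sg v') (cA v' - cA v) -
            ((pr v).natDegree : ZMod ℓ) • Λ.restrict hI.lm (cA v) : A) : W) := by
          rw [Submodule.coe_sub, Submodule.coe_sum]
          rfl
        rw [h4, hd]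
    · intro v y
      apply Subtype.ext
      have h4 := hyp.com v (y : W)
      have h5 : ((((σ v).restrict (hI.sg v) (∑ v', syl χ (pr v) (pr v') •
          (σ v').restrict (hI.sg v') y + ((pr v).natDegree : ZMod ℓ) •
            Λ.restrict hI.lm y)) : A) : W) =
          σ v (∑ v', syl χ (pr v) (pr v') • σ v' (y : W) +
            ((pr v).natDegree : ZMod ℓ) • Λ (y : W)) := by
        have h6 : ((∑ v', syl χ (pr v) (pr v') • (σ v').restrict (hI.sg v') y +
            ((pr v).natDegree : ZMod ℓ) • Λ.restrict hI.lm y : A) : W) =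
            ∑ v', syl χ (pr v) (pr v') • σ v' (y : W) +
            ((pr v).natDegree : ZMod ℓ) • Λ (y : W) := by
          rw [Submodule.coe_add, Submodule.coe_sum]
          rfl
        rw [← h6]
        rfl
      refine h5.trans (h4.trans ?_)
      symm
      rw [Submodule.coe_add, Submodule.coe_sum]
      rfl

end MP72e2e6
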