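import Pool.Agent.Lib.MP_72e2e6_nt.PhStmt
import Pool.Agent.Lib.MP_72e2e6_nt.PqA3

/-!
# MP_72e2e6_nt: the exact moments for `ℓ = 2`, the sets `Vst A g δ` are admissible
-/

set_option autoImplicit false

namespace MP72e2e6

open Polynomial

theorem tPhA3 : StmtPhA3 := by
  intro V W _ _ _ σ Λ A hI g hg δ c d η hC 𝓥 h𝓥
  have hg0 : ∀ x : A, g x x = 0 := hg.1
  let cA : V → A := fun v => ⟨c v, hC.mem v⟩
  have hu : ∀ u ∈ 𝓥, ∃ x : A, (x : W) = u.1 ∧ ∀ y : A, u.2 y = δ y + g x y := fun u hu =>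
    (h𝓥 u).mp hu
  have hinf : ∀ u ∈ 𝓥, aiW Λ η u = 0 := by
    intro u hu'
    obtain ⟨x, hx, hy⟩ := hu u hu'
    rw [aiW, ← hx]
    have h3 : u.2 (Λ (x : W)) = u.2 ((Λ.restrict hI.lm x : A) : W) := rfl
    rw [h3, hy, hC.inf x (Λ.restrict hI.lm x) rfl, sub_self]
  refine ⟨⟨pqa3_cardV A g δ 𝓥 h𝓥, ?_, ?_, ?_⟩, hinf⟩
  · intro u hu' w hw'
    obtain ⟨x, hx, hy⟩ := hu u hu'
    obtain ⟨x', hx', hy'⟩ := hu w hw'
    rw [BW, BW, ← hx, ← hx']
    have h3 : (x' : W) - x = ((x' - x : A) : W) := rfl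
    have h4 : (x : W) - x' = ((x - x' : A) : W) := rfl
    rw [h3, h4, hy, hy']
    have h5 := hg0 (x' - x)
    rw [map_sub g, LinearMap.sub_apply] at h5
    have h6 : δ (x - x') = - δ (x' - x) := by rw [← map_neg, neg_sub]
    have h7 : g x' (x - x') = - g x' (x' - x) := by rw [← map_neg, neg_sub]
    rw [h6, h7]
    linear_combination -h5
  · intro u hu' v
    obtain ⟨x, hx, hy⟩ := hu u hu'
    rw [alW, ← hx]
    have h3 : (x : W) - c v = ((x - cA v : A) : W) := rfl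
    have h4 : σ v (c v - (x : W)) = (((σ v).restrict (hI.sg v) (cA v - x) : A) : W) := rfl
    have h6 : (σ v).restrict (hI.sg v) (cA v - x) = -(σ v).restrict (hI.sg v) (x - cA v) := by
      rw [← map_neg, neg_sub]
    have h7 := hC.bad v (cA v) (x - cA v) ((σ v).restrict (hI.sg v) (x - cA v)) rfl rfl
    rw [h3, h4, hy, h6, h7, map_neg, map_neg, map_sub g, LinearMap.sub_apply]
    ring
  · intro u hu' w hw'
    rw [hinf u hu', hinf w hw']

end MP72e2e6
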