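import Pool.Agent.Lib.MP_72e2e6_nt.PhStmt
import Pool.Agent.Lib.MP_72e2e6_nt.PqA3

/-!
# MP_72e2e6_nt: the exact moments for two, the sum of the phases (PhA4)
-/

namespace MP72e2e6

open Polynomial

universe u

section

variable {A : Type} [AddCommGroup A] [Module (ZMod 2) A]

theorem pha4_symm {g : A →ₗ[ZMod 2] Module.Dual (ZMod 2) A} (hg : ∀ x, g x x = 0) (x y : A) :
    g x y = g y x := by
  rw [pqa3_skew hg, ZMod.neg_eq_self_mod_two]

theorem pha4_add {g : A →ₗ[ZMod 2] Module.Dual (ZMod 2) A} (hg : ∀ x, g x x = 0)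
    {T : A →ₗ[ZMod 2] A} (hT : ∀ x y, g (T x) y = g x (T y)) (x y : A) :
    g (x + y) (T (x + y)) = g x (T x) + g y (T y) := by
  have h1 : g y (T x) = g x (T y) := by rw [pha4_symm hg, hT]
  have h2 : g x (T y) + g x (T y) = 0 := CharTwo.add_self_eq_zero _
  rw [map_add g, LinearMap.add_apply, map_add T, map_add, map_add, h1]
  linear_combination h2

/-- a symmetric sum -/
theorem pha4_sym {V : Type} [Fintype V] (f : V → V → ZMod 2) (h1 : ∀ v, f v v = 0)
    (h2 : ∀ v v', f v v' = f v' v) : ∑ v, ∑ v', f v v' = 0 := by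
  rw [← Finset.sum_product']
  refine Finset.sum_involution (fun a _ => (a.2, a.1)) ?_ ?_ ?_ ?_
  · rintro ⟨a, b⟩ _
    show f a b + f b a = 0
    rw [h2 b a]
    exact CharTwo.add_self_eq_zero _
  · rintro ⟨a, b⟩ _ h3 h4
    apply h3
    have h5 : b = a := congrArg Prod.fst h4
    show f a b = 0
    rw [h5, h1]
  · intro a _
    exact Finset.mem_product.2 ⟨Finset.mem_univ _, Finset.mem_univ _⟩
  · rintro ⟨a, b⟩ _
    rfl

variable {V : Type} [Fintype V]

/-- the part with the functional -/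
theorem pha4_dl (S : V → A →ₗ[ZMod 2] A) (L : A →ₗ[ZMod 2] A)
    (D : V → ZMod 2) (s : V → V → ZMod 2) (hs : ∀ v v', s v v' = s v' v)
    (hcom : ∀ v y, S v (∑ v', s v v' • S v' y + D v • L y) =
      ∑ v', s v v' • S v' (S v y) + D v • L (S v y)) (c : V → A) :
    L (∑ v, D v • S v (c v)) + ∑ v, S v
      (∑ v', s v v' • S v' (c v' - c v) - D v • L (c v)) = 0 := by
  have hw : ∀ v, S v (∑ v', s v v' • S v' (c v' - c v) - D v • L (c v)) =
      ∑ v', s v v' • S v (S v' (c v')) -
        (∑ v', s v v' • S v' (S v (c v)) + D v • L (S v (c v))) := by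
    intro v
    have h1 : ∑ v', s v v' • S v' (c v' - c v) - D v • L (c v) =
        ∑ v', s v v' • S v' (c v') - (∑ v', s v v' • S v' (c v) + D v • L (c v)) := by
      have h3 : ∑ v', s v v' • S v' (c v' - c v) =
          ∑ v', s v v' • S v' (c v') - ∑ v', s v v' • S v' (c v) := by
        rw [← Finset.sum_sub_distrib]
        refine Finset.sum_congr rfl fun v' _ => ?_
        rw [map_sub, smul_sub]
      rw [h3]
      abel
    rw [h1, map_sub, hcom]
    congr 1
    rw [map_sum]
    refine Finset.sum_congr rfl fun v' _ => ?_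
    rw [map_smul]
  have h4 : ∑ v, S v (∑ v', s v v' • S v' (c v' - c v) - D v • L (c v)) =
      ∑ v, ∑ v', s v v' • S v (S v' (c v')) - (∑ v, ∑ v', s v v' • S v' (S v (c v)) +
        ∑ v, D v • L (S v (c v))) := by
    rw [← Finset.sum_add_distrib, ← Finset.sum_sub_distrib]
    exact Finset.sum_congr rfl fun v _ => hw v
  have h5 : ∑ v, ∑ v', s v v' • S v (S v' (c v')) = ∑ v, ∑ v', s v v' • S v' (S v (c v)) := by
    rw [Finset.sum_comm]
    refine Finset.sum_congr rfl fun v _ => Finset.sum_congr rfl fun v' _ => ?_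
    rw [hs v' v]
  have h6 : L (∑ v, D v • S v (c v)) = ∑ v, D v • L (S v (c v)) := by
    rw [map_sum]
    refine Finset.sum_congr rfl fun v _ => ?_
    rw [map_smul]
  rw [h4, h5, h6]
  abel

/-- The operator. -/
noncomputable def pha4_M (S : V → A →ₗ[ZMod 2] A) (L : A →ₗ[ZMod 2] A)
    (D : V → ZMod 2) (s : V → V → ZMod 2) (v : V) : A →ₗ[ZMod 2] A :=
  ∑ v', s v v' • S v' + D v • L

theorem pha4_Ma (S : V → A →ₗ[ZMod 2] A) (L : A →ₗ[ZMod 2] A)
    (D : V → ZMod 2) (s : V → V → ZMod 2) (v : V) (x : A) :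
    pha4_M S L D s v x = ∑ v', s v v' • S v' x + D v • L x := by
  rw [pha4_M, LinearMap.add_apply, LinearMap.sum_apply]
  rfl

/-- the phase, on the subspace -/
theorem pha4_phase (g : A →ₗ[ZMod 2] Module.Dual (ZMod 2) A) (hg : ∀ x, g x x = 0)
    (S : V → A →ₗ[ZMod 2] A) (L : A →ₗ[ZMod 2] A) (hS : ∀ v x y, g (S v x) y = g x (S v y))
    (hL : ∀ x y, g (L x) y = g x (L y)) (D : V → ZMod 2) (s : V → V → ZMod 2)
    (hs : ∀ v v', s v v' = s v' v)
    (hcom : ∀ v y, S v (∑ v', s v v' • S v' y + D v • L y) =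
      ∑ v', s v v' • S v' (S v y) + D v • L (S v y)) :
    ∃ Θ : (V → A) →+ ZMod 2, ∀ (δ : Module.Dual (ZMod 2) A) (c : V → A) (y : A) (w : V → A),
      y = ∑ v, D v • S v (c v) →
      (∀ v, w v = ∑ v', s v v' • S v' (c v' - c v) - D v • L (c v)) →
      (δ (L y) + g y (L y)) +
        ∑ v, (δ (S v (w v)) + g (c v) (S v (w v)) + g (w v) (S v (w v))) = Θ c := by
  have hM : ∀ v a b, g (pha4_M S L D s v a) b = g a (pha4_M S L D s v b) := by
    intro v a b
    rw [pha4_Ma, pha4_Ma, map_add, map_sum, map_add, map_sum, LinearMap.add_apply,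
      LinearMap.sum_apply]
    congr 1
    · refine Finset.sum_congr rfl fun v' _ => ?_
      rw [map_smul, map_smul, LinearMap.smul_apply, hS]
    · rw [map_smul, map_smul, LinearMap.smul_apply, hL]
  have hcom' : ∀ v y, S v (pha4_M S L D s v y) = pha4_M S L D s v (S v y) := by
    intro v y
    rw [pha4_Ma, pha4_Ma, hcom]
  have hSM : ∀ v x y, g ((S v ∘ₗ pha4_M S L D s v) x) y = g x ((S v ∘ₗ pha4_M S L D s v) y) := by
    intro v x y
    rw [LinearMap.comp_apply, LinearMap.comp_apply, hS, hM, ← hcom']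
  let Y : (V → A) → A := fun c => ∑ v, D v • S v (c v)
  let U : (V → A) → V → A := fun c v => ∑ v', s v v' • S v' (c v' - c v) - D v • L (c v)
  have hY : ∀ c c', Y (c + c') = Y c + Y c' := by
    intro c c'
    show ∑ v, D v • S v (c v + c' v) = ∑ v, D v • S v (c v) + ∑ v, D v • S v (c' v)
    rw [← Finset.sum_add_distrib]
    refine Finset.sum_congr rfl fun v _ => ?_
    rw [map_add, smul_add]
  have hU : ∀ c c' v, U (c + c') v = U c v + U c' v := by
    intro c c' v
    show ∑ v', s v v' • S v' ((c v' + c' v') - (c v + c' v)) - D v • L (c v + c' v) =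
      (∑ v', s v v' • S v' (c v' - c v) - D v • L (c v)) +
      (∑ v', s v v' • S v' (c' v' - c' v) - D v • L (c' v))
    have h1 : ∑ v', s v v' • S v' ((c v' + c' v') - (c v + c' v)) =
        ∑ v', s v v' • S v' (c v' - c v) + ∑ v', s v v' • S v' (c' v' - c' v) := by
      rw [← Finset.sum_add_distrib]
      refine Finset.sum_congr rfl fun v' _ => ?_
      rw [← smul_add, ← map_add]
      congr 2
      abel
    rw [h1, map_add, smul_add]
    abel
  let f : (V → A) → ZMod 2 := fun c => g (Y c) (L (Y c)) +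
    ∑ v, (g (c v) ((S v ∘ₗ pha4_M S L D s v) (c v)) + g (U c v) (S v (U c v)))
  have hf : ∀ c c', f (c + c') = f c + f c' := by
    intro c c'
    show g (Y (c + c')) (L (Y (c + c'))) +
      ∑ v, (g (c v + c' v) ((S v ∘ₗ pha4_M S L D s v) (c v + c' v)) +
        g (U (c + c') v) (S v (U (c + c') v))) =
      (g (Y c) (L (Y c)) +
        ∑ v, (g (c v) ((S v ∘ₗ pha4_M S L D s v) (c v)) + g (U c v) (S v (U c v)))) +
      (g (Y c') (L (Y c')) +
        ∑ v, (g (c' v) ((S v ∘ₗ pha4_M S L D s v) (c' v)) + g (U c' v) (S v (U c' v))))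
    have h1 : ∑ v, (g (c v + c' v) ((S v ∘ₗ pha4_M S L D s v) (c v + c' v)) +
        g (U (c + c') v) (S v (U (c + c') v))) =
        ∑ v, (g (c v) ((S v ∘ₗ pha4_M S L D s v) (c v)) + g (U c v) (S v (U c v))) +
        ∑ v, (g (c' v) ((S v ∘ₗ pha4_M S L D s v) (c' v)) + g (U c' v) (S v (U c' v))) := by
      rw [← Finset.sum_add_distrib]
      refine Finset.sum_congr rfl fun v _ => ?_
      rw [hU, pha4_add hg (hSM v), pha4_add hg (hS v)]
      ring
    rw [h1, hY, pha4_add hg hL]
    ring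
  refine ⟨AddMonoidHom.mk' f hf, fun δ c y w hy hw => ?_⟩
  have hw' : w = U c := funext hw
  have hy' : y = Y c := hy
  rw [hw', hy']
  show _ = g (Y c) (L (Y c)) +
    ∑ v, (g (c v) ((S v ∘ₗ pha4_M S L D s v) (c v)) + g (U c v) (S v (U c v)))
  have h1 := congrArg δ (pha4_dl S L D s hs hcom c)
  rw [map_add, map_zero] at h1
  have h2 : δ (L (Y c)) + δ (∑ v, S v (U c v)) = 0 := h1
  rw [map_sum δ] at h2
  -- the part with the form
  have hUB : ∀ v, U c v = ∑ v', s v v' • S v' (c v') - pha4_M S L D s v (c v) := by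
    intro v
    show ∑ v', s v v' • S v' (c v' - c v) - D v • L (c v) = _
    have h3 : ∑ v', s v v' • S v' (c v' - c v) =
        ∑ v', s v v' • S v' (c v') - ∑ v', s v v' • S v' (c v) := by
      rw [← Finset.sum_sub_distrib]
      refine Finset.sum_congr rfl fun v' _ => ?_
      rw [map_sub, smul_sub]
    rw [h3, pha4_Ma]
    abel
  have h3 : ∑ v, g (c v) (S v (U c v)) =
      ∑ v, g (c v) ((S v ∘ₗ pha4_M S L D s v) (c v)) := by
    have h4 : ∀ v, g (c v) (S v (U c v)) = ∑ v', s v v' * g (S v (c v)) (S v' (c v')) +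
        g (c v) ((S v ∘ₗ pha4_M S L D s v) (c v)) := by
      intro v
      rw [hUB, map_sub, map_sub, LinearMap.comp_apply, sub_eq_add_neg,
        ZMod.neg_eq_self_mod_two, ← hS, map_sum]
      congr 1
      refine Finset.sum_congr rfl fun v' _ => ?_
      rw [map_smul, smul_eq_mul]
    rw [Finset.sum_congr rfl fun v _ => h4 v, Finset.sum_add_distrib,
      pha4_sym _ (fun v => by rw [hg, mul_zero]) (fun v v' => by
        rw [hs v' v, pha4_symm hg]), zero_add]
  rw [Finset.sum_add_distrib, Finset.sum_add_distrib, Finset.sum_add_distrib, h3]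
  linear_combination h2

theorem pha4_cdb {W : Type} [AddCommGroup W] [Module (ZMod 2) W] {V : Type}
    {σ : V → Module.End (ZMod 2) W} {Λ : Module.End (ZMod 2) W}
    {A : Submodule (ZMod 2) W} (hI : Inv σ Λ A) {g : A →ₗ[ZMod 2] Module.Dual (ZMod 2) A}
    {δ : Module.Dual (ZMod 2) A} {c : V → W} {d : V → Module.Dual (ZMod 2) W}
    {η : Module.Dual (ZMod 2) W} (cA : V → A) (hc : ∀ v, (cA v : W) = c v) :
    CdB σ Λ A g δ c d η ↔
      (∀ v (y : A), d v y = δ ((σ v).restrict (hI.sg v) y) +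
        g (cA v) ((σ v).restrict (hI.sg v) y) + g y ((σ v).restrict (hI.sg v) y)) ∧
      ∀ y : A, η y = δ (Λ.restrict hI.lm y) + g y (Λ.restrict hI.lm y) := by
  constructor
  · intro h
    refine ⟨fun v y => ?_, fun y => ?_⟩
    · exact h.bad v (cA v) y ((σ v).restrict (hI.sg v) y) (hc v) rfl
    · exact h.inf y _ rfl
  · rintro ⟨h1, h2⟩
    refine ⟨fun v => ?_, fun v x y z hx hz => ?_, fun y z hz => ?_⟩
    · rw [← hc v]
      exact (cA v).2
    · have hx' : x = cA v := Subtype.ext (hx.trans (hc v).symm)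
      have hz' : z = (σ v).restrict (hI.sg v) y := Subtype.ext hz
      rw [h1, hx', hz']
    · have hz' : z = Λ.restrict hI.lm y := Subtype.ext hz
      rw [h2, hz']

end

open Classical in
theorem tPhA4.{v} : StmtPhA4.{v} := by
  intro F _ V W _ _ _ _ χ pr σ Λ hyp hsym A hI g hg
  obtain ⟨hg0, hgs⟩ := hg
  let S : V → A →ₗ[ZMod 2] A := fun v => (σ v).restrict (hI.sg v)
  let L : A →ₗ[ZMod 2] A := Λ.restrict hI.lm
  have hS : ∀ v x y, g (S v x) y = g x (S v y) := fun v x y =>
    (hgs x y (S v x) (S v y) (Or.inl ⟨v, rfl, rfl⟩)).symm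
  have hL : ∀ x y, g (L x) y = g x (L y) := fun x y =>
    (hgs x y (L x) (L y) (Or.inr ⟨rfl, rfl⟩)).symm
  have hcom : ∀ v y, S v (∑ v', syl χ (pr v) (pr v') • S v' y +
      ((pr v).natDegree : ZMod 2) • L y) =
      ∑ v', syl χ (pr v) (pr v') • S v' (S v y) + ((pr v).natDegree : ZMod 2) • L (S v y) := by
    intro v y
    apply Subtype.ext
    have h4 := hyp.com v (y : W)
    have h6 : ((∑ v', syl χ (pr v) (pr v') • (σ v').restrict (hI.sg v') y +
        ((pr v).natDegree : ZMod 2) • Λ.restrict hI.lm y : A) : W) =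
        ∑ v', syl χ (pr v) (pr v') • σ v' (y : W) +
        ((pr v).natDegree : ZMod 2) • Λ (y : W) := by
      rw [Submodule.coe_add, Submodule.coe_sum]
      rfl
    have h5 : ((((σ v).restrict (hI.sg v) (∑ v', syl χ (pr v) (pr v') •
        (σ v').restrict (hI.sg v') y + ((pr v).natDegree : ZMod 2) •
          Λ.restrict hI.lm y)) : A) : W) =
        σ v (∑ v', syl χ (pr v) (pr v') • σ v' (y : W) +
          ((pr v).natDegree : ZMod 2) • Λ (y : W)) := by
      rw [← h6]
      rfl
    refine h5.trans (h4.trans ?_)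
    symm
    rw [Submodule.coe_add, Submodule.coe_sum]
    rfl
  obtain ⟨Θ, hΘ⟩ := pha4_phase g hg0 S L hS hL (fun v => ((pr v).natDegree : ZMod 2))
    (fun v v' => syl χ (pr v) (pr v')) hsym hcom
  -- the phase of the data
  have hth : ∀ δ c d η (hC : CdB σ Λ A g δ c d η),
      thW χ pr σ Λ c d η = Θ fun v => ⟨c v, hC.mem v⟩ := by
    intro δ c d η hC
    let cA : V → A := fun v => ⟨c v, hC.mem v⟩
    obtain ⟨hd, hη⟩ := (pha4_cdb hI cA fun _ => rfl).mp hC
    rw [← hΘ δ cA _ _ rfl (fun _ => rfl), thW]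
    congr 1
    · have h4 : ∑ v, ((pr v).natDegree : ZMod 2) • σ v (c v) =
          ((∑ v, ((pr v).natDegree : ZMod 2) • (σ v).restrict (hI.sg v) (cA v) : A) : W) := by
        rw [Submodule.coe_sum]
        rfl
      rw [h4, hη]
    · refine Finset.sum_congr rfl fun v _ => ?_
      have h4 : ∑ v', syl χ (pr v) (pr v') • σ v' (c v' - c v) -
          ((pr v).natDegree : ZMod 2) • Λ (c v) =
          ((∑ v', syl χ (pr v) (pr v') • (σ v').restrict (hI.sg v') (cA v' - cA v) -
          ((pr v).natDegree : ZMod 2) • Λ.restrict hI.lm (cA v) : A) : W) := by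
        rw [Submodule.coe_sub, Submodule.coe_sum]
        rfl
      rw [h4, hd]
  -- the parametrization
  obtain ⟨s, hs⟩ := pqa4_section A
  let K := LinearMap.ker (Submodule.dualRestrict (R := ZMod 2) A)
  have hK : ∀ e : Module.Dual (ZMod 2) W, e ∈ K ↔ ∀ y : A, e (y : W) = 0 := by
    intro e
    rw [LinearMap.mem_ker]
    constructor
    · intro h y
      rw [← Submodule.dualRestrict_apply, h, LinearMap.zero_apply]
    · intro h
      ext y
      rw [Submodule.dualRestrict_apply, h y, LinearMap.zero_apply]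
  let qS : V → Module.Dual (ZMod 2) A := fun v =>
    (AddMonoidHom.mk' (fun x : A => g x (S v x)) (pha4_add hg0 (hS v))).toZModLinearMap 2
  let qL : Module.Dual (ZMod 2) A :=
    (AddMonoidHom.mk' (fun x : A => g x (L x)) (pha4_add hg0 hL)).toZModLinearMap 2
  have hqS : ∀ v x, qS v x = g x (S v x) := fun v x => rfl
  have hqL : ∀ x, qL x = g x (L x) := fun x => rfl
  let φ : Module.Dual (ZMod 2) A → A → V → Module.Dual (ZMod 2) A := fun δ x v =>
    (δ + g x) ∘ₗ S v + qS v
  let φ' : Module.Dual (ZMod 2) A → Module.Dual (ZMod 2) A := fun δ => δ ∘ₗ L + qL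
  have hφ : ∀ δ x v y, φ δ x v y = δ (S v y) + g x (S v y) + g y (S v y) := fun δ x v y => rfl
  have hφ' : ∀ δ y, φ' δ y = δ (L y) + g y (L y) := fun δ y => rfl
  let e : {x : Module.Dual (ZMod 2) A × (V → W) × (V → Module.Dual (ZMod 2) W) ×
        Module.Dual (ZMod 2) W // CdB σ Λ A g x.1 x.2.1 x.2.2.1 x.2.2.2} ≃
      (V → A) × (Module.Dual (ZMod 2) A × (V → K) × K) :=
    { toFun := fun x => (fun v => ⟨x.1.2.1 v, x.2.mem v⟩, x.1.1,
        fun v => ⟨x.1.2.2.1 v - s (φ x.1.1 ⟨x.1.2.1 v, x.2.mem v⟩ v), by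
          rw [hK]
          intro y
          rw [LinearMap.sub_apply, hs]
          have h1 := ((pha4_cdb hI (fun v => ⟨x.1.2.1 v, x.2.mem v⟩) fun _ => rfl).mp x.2).1 v y
          rw [h1]
          exact sub_self _⟩,
        ⟨x.1.2.2.2 - s (φ' x.1.1), by
          rw [hK]
          intro y
          rw [LinearMap.sub_apply, hs]
          have h1 := ((pha4_cdb hI (fun v => ⟨x.1.2.1 v, x.2.mem v⟩) fun _ => rfl).mp x.2).2 y
          rw [h1]
          exact sub_self _⟩)
      invFun := fun y => ⟨(y.2.1, fun v => (y.1 v : W),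
        fun v => s (φ y.2.1 (y.1 v) v) + (y.2.2.1 v : Module.Dual (ZMod 2) W),
        s (φ' y.2.1) + (y.2.2.2 : Module.Dual (ZMod 2) W)), by
          rw [pha4_cdb hI y.1 fun _ => rfl]
          refine ⟨fun v z => ?_, fun z => ?_⟩
          · show (s (φ y.2.1 (y.1 v) v) + (y.2.2.1 v : Module.Dual (ZMod 2) W)) (z : W) = _
            rw [LinearMap.add_apply, hs, (hK _).mp (y.2.2.1 v).2 z, add_zero]
            rfl
          · show (s (φ' y.2.1) + (y.2.2.2 : Module.Dual (ZMod 2) W)) (z : W) = _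
            rw [LinearMap.add_apply, hs, (hK _).mp y.2.2.2.2 z, add_zero]
            rfl⟩
      left_inv := by
        rintro ⟨⟨δ, c, d, η⟩, h⟩
        apply Subtype.ext
        refine Prod.ext rfl (Prod.ext rfl (Prod.ext ?_ ?_))
        · funext v
          exact add_sub_cancel _ _
        · exact add_sub_cancel _ _
      right_inv := by
        rintro ⟨c, δ, κ, κ'⟩
        refine Prod.ext rfl (Prod.ext rfl (Prod.ext ?_ ?_))
        · funext v
          apply Subtype.ext
          exact add_sub_cancel_left _ _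
        · apply Subtype.ext
          exact add_sub_cancel_left _ _ }
  have he : ∀ x, Θ (e x).1 = thW χ pr σ Λ x.1.2.1 x.1.2.2.1 x.1.2.2.2 := fun x =>
    (hth _ _ _ _ x.2).symm
  -- trivial phases
  have hTr : TrA χ pr σ Λ A g ↔ Θ = 0 := by
    constructor
    · intro h
      refine AddMonoidHom.ext fun c => ?_
      obtain ⟨x, hx⟩ := e.surjective (c, 0, 0, 0)
      have h1 := he x
      rw [hx, h _ _ _ _ x.2] at h1
      exact h1
    · intro h δ c d η hC
      rw [hth δ c d η hC, h]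
      rfl
  have : Finite (Module.Dual (ZMod 2) W) := Module.finite_of_finite (ZMod 2)
  have : Finite (Module.Dual (ZMod 2) A) := Module.finite_of_finite (ZMod 2)
  have : Fintype A := Fintype.ofFinite A
  have : Fintype (Module.Dual (ZMod 2) A) := Fintype.ofFinite _
  have : Fintype K := Fintype.ofFinite _
  have h1 : (∑ᶠ x : {x : Module.Dual (ZMod 2) A × (V → W) × (V → Module.Dual (ZMod 2) W) ×
        Module.Dual (ZMod 2) W // CdB σ Λ A g x.1 x.2.1 x.2.2.1 x.2.2.2},
      (ZMod.stdAddChar (thW χ pr σ Λ x.1.2.1 x.1.2.2.1 x.1.2.2.2) : ℂ)) =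
      ∑ᶠ y : (V → A) × (Module.Dual (ZMod 2) A × (V → K) × K),
        (ZMod.stdAddChar (Θ y.1) : ℂ) := by
    rw [← finsum_comp_equiv e]
    refine finsum_congr fun x => ?_
    rw [he]
  rw [h1, finsum_eq_sum_of_fintype, Fintype.sum_prod_type]
  have h2 : ∀ c : V → A, ∑ _z : Module.Dual (ZMod 2) A × (V → K) × K,
      (ZMod.stdAddChar (Θ c) : ℂ) =
      (Fintype.card (Module.Dual (ZMod 2) A × (V → K) × K) : ℂ) *
        (ZMod.stdAddChar.compAddMonoidHom Θ) c := by
    intro c
    rw [Finset.sum_const, Finset.card_univ, nsmul_eq_mul]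
    rfl
  rw [Finset.sum_congr rfl fun c _ => h2 c, ← Finset.mul_sum, AddChar.sum_eq_ite]
  have h3 : (ZMod.stdAddChar (N := 2)).compAddMonoidHom Θ = 0 ↔ Θ = 0 := by
    constructor
    · intro h
      refine AddMonoidHom.ext fun c => ?_
      have h4 := DFunLike.congr_fun h c
      have h5 : ZMod.stdAddChar (Θ c) = (1 : ℂ) := h4
      apply ZMod.injective_stdAddChar (N := 2)
      rw [h5]
      exact (AddChar.map_zero_eq_one _).symm
    · intro h
      rw [h]
      ext c
      show (ZMod.stdAddChar (0 : ZMod 2) : ℂ) = 1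
      exact AddChar.map_zero_eq_one _
  by_cases hT : Θ = 0
  · rw [if_pos (h3.2 hT), if_pos (hTr.2 hT)]
    have h4 : Nat.card (Module.Dual (ZMod 2) A × (V → K) × K) * Nat.card (V → A) =
        Nat.card W ^ (Fintype.card V + 1) := by
      rw [Nat.card_prod, Nat.card_prod, Nat.card_fun, Nat.card_fun, pqa4_dual, ← pqa4_card A,
        Nat.card_eq_fintype_card (α := V)]
      show Nat.card A * (Nat.card K ^ Fintype.card V * Nat.card K) *
        Nat.card A ^ Fintype.card V = (Nat.card K * Nat.card A) ^ (Fintype.card V + 1)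
      ring
    rw [Nat.card_eq_fintype_card, Nat.card_eq_fintype_card] at h4
    exact_mod_cast h4
  · rw [if_neg fun h => hT (h3.1 h), if_neg fun h => hT (hTr.1 h), mul_zero]

end MP72e2e6
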