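import Pool.Agent.Lib.MP_72e2e6_nt.PrStmt

/-!
# MP_72e2e6_nt : the distribution
-/

set_option autoImplicit false

namespace MP72e2e6

open Polynomial

universe u

theorem prdis_monic (q : ℝ) (a : ℕ) : (Eq_ q a).Monic :=
  monic_prod_of_monic _ _ fun _ _ => monic_X_sub_C _

theorem prdis_natDegree (q : ℝ) (a : ℕ) : (Eq_ q a).natDegree = a := by
  unfold Eq_
  rw [natDegree_prod_of_monic _ _ fun _ _ => monic_X_sub_C _,
    Finset.sum_congr rfl fun j _ => natDegree_X_sub_C (q ^ j)]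
  simp

/-- two linear maps which agree on the `Eq_` are equal -/
theorem prdis_ext (q : ℝ) (A B : ℝ[X] →ₗ[ℝ] ℝ) (h : ∀ j, A (Eq_ q j) = B (Eq_ q j)) (f : ℝ[X]) :
    A f = B f := by
  induction hn : f.natDegree using Nat.strong_induction_on generalizing f with
  | _ n ih =>
    by_cases hf : f.natDegree = 0
    · rw [eq_C_of_natDegree_eq_zero hf]
      have h0 : C (f.coeff 0) = (f.coeff 0) • Eq_ q 0 := by
        rw [Eq_, Finset.range_zero, Finset.prod_empty, smul_eq_C_mul, mul_one]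
      rw [h0, map_smul, map_smul, h]
    · have hf0 : f ≠ 0 := fun h0 => hf (by rw [h0, natDegree_zero])
      have h1 : (f - C f.leadingCoeff * Eq_ q f.natDegree).degree < f.degree := by
        apply degree_sub_lt_left _ hf0
        · rw [leadingCoeff_mul, leadingCoeff_C, (prdis_monic q _).leadingCoeff, mul_one]
        · rw [degree_C_mul (leadingCoeff_ne_zero.2 hf0),
            degree_eq_natDegree (prdis_monic q _).ne_zero, prdis_natDegree,
            degree_eq_natDegree hf0]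
      have h2 : (f - C f.leadingCoeff * Eq_ q f.natDegree).natDegree < n := by
        rw [← hn]
        by_cases h4 : f - C f.leadingCoeff * Eq_ q f.natDegree = 0
        · rw [h4, natDegree_zero]
          omega
        · exact natDegree_lt_natDegree h4 h1
      have h3 := ih _ h2 _ rfl
      rw [map_sub, map_sub, ← smul_eq_C_mul, map_smul, map_smul, h] at h3
      linarith

/-- the transformed polynomial -/
noncomputable def prdisT (q : ℝ) (r : ℕ) (f : ℝ[X]) : ℝ[X] :=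
  C ((Eq_ q r).eval (q ^ r))⁻¹ * Eq_ q r * f.comp (C (q ^ r)⁻¹ * X)

theorem prdis_eval_Eq (q x : ℝ) (r : ℕ) :
    (Eq_ q r).eval x = ∏ j ∈ Finset.range r, (x - q ^ j) := by
  unfold Eq_
  rw [eval_prod]
  simp

theorem prdis_c (q : ℝ) (r : ℕ) : (Eq_ q r).eval (q ^ r) =
    q ^ (r * (r - 1) / 2) * ∏ i ∈ Finset.range r, (q ^ (i + 1) - 1) := by
  rw [prdis_eval_Eq]
  have h1 : ∀ n : ℕ, ∏ j ∈ Finset.range n, q ^ j = q ^ (n * (n - 1) / 2) := by
    intro n
    rw [Finset.prod_pow_eq_pow_sum, Finset.sum_range_id]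
  rw [← h1, ← Finset.prod_range_reflect (fun i => q ^ (i + 1) - 1) r, ← Finset.prod_mul_distrib]
  apply Finset.prod_congr rfl
  intro j hj
  rw [Finset.mem_range] at hj
  have h2 : r = j + (r - 1 - j + 1) := by omega
  have h3 : q ^ r = q ^ j * q ^ (r - 1 - j + 1) := by
    rw [← pow_add, ← h2]
  rw [h3]
  ring

theorem prdis_L {q : ℝ} (hq : 1 < q) (L : ℝ[X] →ₗ[ℝ] ℝ)
    (hL : ∀ j : ℕ, L (Eq_ q j) = q ^ (j * (j - 1) / 2)) (r : ℕ) (f : ℝ[X]) :
    L (prdisT q r f) = L f / ∏ i ∈ Finset.range r, (q ^ (i + 1) - 1) := by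
  have hq0 : 0 < q := by linarith
  have hP : ∏ i ∈ Finset.range r, (q ^ (i + 1) - 1) ≠ 0 := by
    apply Finset.prod_ne_zero_iff.2
    intro i _
    have := one_lt_pow₀ hq (n := i + 1) (by omega)
    linarith
  have hadd : ∀ f g : ℝ[X], L (prdisT q r (f + g)) = L (prdisT q r f) + L (prdisT q r g) := by
    intro f g
    rw [← map_add]
    congr 1
    simp only [prdisT, add_comp]
    ring
  have hsmul : ∀ (c : ℝ) (f : ℝ[X]), L (prdisT q r (c • f)) = c • L (prdisT q r f) := by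
    intro c f
    rw [← map_smul]
    congr 1
    simp only [prdisT, smul_comp, mul_smul_comm]
  obtain ⟨A, hA⟩ : ∃ A : ℝ[X] →ₗ[ℝ] ℝ, ∀ f, A f = L (prdisT q r f) :=
    ⟨⟨⟨fun f => L (prdisT q r f), hadd⟩, hsmul⟩, fun f => rfl⟩
  obtain ⟨B, hB⟩ : ∃ B : ℝ[X] →ₗ[ℝ] ℝ, ∀ f, B f =
      L f / ∏ i ∈ Finset.range r, (q ^ (i + 1) - 1) :=
    ⟨(∏ i ∈ Finset.range r, (q ^ (i + 1) - 1))⁻¹ • L, fun f => by
      rw [LinearMap.smul_apply, smul_eq_mul, div_eq_inv_mul]⟩
  rw [← hA, ← hB]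
  apply prdis_ext q
  intro j
  rw [hA, hB, hL]
  have hqr : q ^ r ≠ 0 := pow_ne_zero _ hq0.ne'
  have e1 : Eq_ q r * (Eq_ q j).comp (C (q ^ r)⁻¹ * X) = C ((q ^ (r * j))⁻¹) * Eq_ q (r + j) := by
    have h1 : Eq_ q (r + j) = Eq_ q r * ∏ i ∈ Finset.range j, (X - C (q ^ (r + i))) := by
      unfold Eq_
      rw [Finset.prod_range_add]
    have h2 : (Eq_ q j).comp (C (q ^ r)⁻¹ * X) =
        ∏ i ∈ Finset.range j, (C (q ^ r)⁻¹ * (X - C (q ^ (r + i)))) := by
      unfold Eq_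
      rw [prod_comp]
      apply Finset.prod_congr rfl
      intro i _
      rw [sub_comp, X_comp, C_comp, mul_sub, ← C_mul, pow_add, inv_mul_cancel_left₀ hqr]
    rw [h1, h2, Finset.prod_mul_distrib, Finset.prod_const, Finset.card_range, ← C_pow,
      inv_pow, ← pow_mul]
    ring
  rw [prdisT, mul_assoc, e1, ← smul_eq_C_mul, ← smul_eq_C_mul, map_smul, map_smul, hL,
    prdis_c, smul_eq_mul, smul_eq_mul]
  have e2 : (r + j) * (r + j - 1) / 2 = r * (r - 1) / 2 + j * (j - 1) / 2 + r * j := by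
    have h1 : ∀ n : ℕ, n * (n - 1) / 2 * 2 = n * (n - 1) := fun n =>
      Nat.div_mul_cancel (Nat.even_mul_pred_self n).two_dvd
    have h2 : (r + j) * (r + j - 1) = r * (r - 1) + j * (j - 1) + r * j * 2 := by
      rcases r with _ | r <;> rcases j with _ | j
      · simp
      · simp
      · simp
      · have a1 : r + 1 + (j + 1) - 1 = r + j + 1 := by omega
        rw [a1, Nat.add_sub_cancel, Nat.add_sub_cancel]
        ring
    have h3 := h1 (r + j)
    have h4 := h1 r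
    have h5 := h1 j
    omega
  have hq1 : q ^ (r * (r - 1) / 2) ≠ 0 := pow_ne_zero _ hq0.ne'
  have hq2 : q ^ (r * j) ≠ 0 := pow_ne_zero _ hq0.ne'
  rw [e2, pow_add, pow_add]
  field_simp

open Classical in
theorem tPrDis (hM : StmtPqMul.{u}) (hF : StmtPqFun) (hE : StmtPrEul) : StmtPrDis.{u} := by
  intro α G good Q hQ q hq x hx hmom r ε hε
  have hq0 : (0 : ℝ) < q := by linarith
  have hq1 : (1 : ℝ) < q := by linarith
  obtain ⟨L, hL⟩ := hF q fun j => q ^ (j * (j - 1) / 2)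
  obtain ⟨P, hP⟩ : ∃ P : ℝ, P = ∏ i ∈ Finset.range r, (q ^ (i + 1) - 1) := ⟨_, rfl⟩
  have hP1 : 1 ≤ P := by
    rw [hP]
    have h0 := Finset.prod_le_prod (s := Finset.range r) (f := fun _ => (1 : ℝ))
      (g := fun i => q ^ (i + 1) - 1) (fun _ _ => zero_le_one) (fun i _ => by
        have h1 : q ≤ q ^ (i + 1) := le_self_pow₀ hq1.le (by omega)
        linarith)
    rwa [Finset.prod_const_one] at h0
  obtain ⟨a, ha⟩ : ∃ a : ℝ, a = ∏' i : ℕ, (1 - (q⁻¹) ^ (2 * i + 1)) := ⟨_, rfl⟩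
  obtain ⟨fm, fp, hfr, hm, hp⟩ := hE q hq L hL ε hε
  rw [← ha] at hm hp
  -- polynomials
  have hpoly : ∀ (f : ℝ[X]) (ε' : ℝ), 0 < ε' → ∃ n₀ : ℕ, ∀ n : ℕ, n₀ ≤ n → good n →
      |∑ t ∈ G n, f.eval (x t) - L f * ((G n).card : ℝ)| ≤ ε' * Q ^ n := by
    intro f ε' hε'
    obtain ⟨n₀, h0⟩ := hM Unit α G good Q hQ (fun _ => q) (fun _ => x) (fun _ => L) (by
      intro k ε'' hε''
      obtain ⟨n₀, h0⟩ := hmom (k ()) ε'' hε''
      refine ⟨n₀, fun n hn hg => ?_⟩
      have h1 := h0 n hn hg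
      simpa only [Finset.univ_unique, PUnit.default_eq_unit, Finset.prod_singleton, hL] using h1)
      (fun _ => f) ε' hε'
    refine ⟨n₀, fun n hn hg => ?_⟩
    have h1 := h0 n hn hg
    simpa only [Finset.univ_unique, PUnit.default_eq_unit, Finset.prod_singleton] using h1
  obtain ⟨n₁, hn₁⟩ := hpoly (prdisT q r fm) ε hε
  obtain ⟨n₂, hn₂⟩ := hpoly (prdisT q r fp) ε hε
  refine ⟨max n₁ n₂, fun n hn hg => ?_⟩
  have b1 := abs_le.1 (hn₁ n (le_trans (le_max_left _ _) hn) hg)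
  have b2 := abs_le.1 (hn₂ n (le_trans (le_max_right _ _) hn) hg)
  rw [prdis_L hq1 L hL, ← hP] at b1 b2
  -- pointwise
  have hev : ∀ (f : ℝ[X]) (s : ℕ), (prdisT q r f).eval (q ^ s) =
      ((Eq_ q r).eval (q ^ r))⁻¹ * (Eq_ q r).eval (q ^ s) * f.eval ((q ^ r)⁻¹ * q ^ s) := by
    intro f s
    rw [prdisT, eval_mul, eval_mul, eval_C, eval_comp, eval_mul, eval_C, eval_X]
  have hc : 0 < (Eq_ q r).eval (q ^ r) := by
    rw [prdis_c, ← hP]
    exact mul_pos (pow_pos hq0 _) (by linarith)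
  have hpt : ∀ s : ℕ, (prdisT q r fm).eval (q ^ s) ≤ (if q ^ s = q ^ r then (1 : ℝ) else 0) ∧
      (if q ^ s = q ^ r then (1 : ℝ) else 0) ≤ (prdisT q r fp).eval (q ^ s) := by
    intro s
    rcases lt_trichotomy s r with h | h | h
    · have h1 : (Eq_ q r).eval (q ^ s) = 0 := by
        rw [prdis_eval_Eq]
        exact Finset.prod_eq_zero (Finset.mem_range.2 h) (sub_self _)
      have h2 : q ^ s ≠ q ^ r := fun h2 => h.ne (pow_right_injective₀ hq0 hq1.ne' h2)
      rw [hev, hev, h1, if_neg h2]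
      simp
    · rw [h, if_pos rfl, hev, hev, inv_mul_cancel₀ hc.ne', one_mul, one_mul,
        inv_mul_cancel₀ (pow_ne_zero _ hq0.ne')]
      have h2 := hfr 0
      rw [pow_zero, if_pos rfl] at h2
      exact h2
    · have h2 : q ^ s ≠ q ^ r := fun h2 => h.ne' (pow_right_injective₀ hq0 hq1.ne' h2)
      have h3 : 0 ≤ ((Eq_ q r).eval (q ^ r))⁻¹ * (Eq_ q r).eval (q ^ s) := by
        apply mul_nonneg (inv_nonneg.2 hc.le)
        rw [prdis_eval_Eq]
        apply Finset.prod_nonneg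
        intro j hj
        rw [Finset.mem_range] at hj
        have := pow_le_pow_right₀ hq1.le (show j ≤ s by omega)
        linarith
      have h4 : (q ^ r)⁻¹ * q ^ s = q ^ (s - r) := by
        have : q ^ s = q ^ r * q ^ (s - r) := by rw [← pow_add]; congr 1; omega
        rw [this, inv_mul_cancel_left₀ (pow_ne_zero _ hq0.ne')]
      have h5 := hfr (s - r)
      rw [if_neg (by omega)] at h5
      rw [if_neg h2, hev, hev, h4]
      exact ⟨mul_nonpos_of_nonneg_of_nonpos h3 h5.1, mul_nonneg h3 h5.2⟩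
  have hcard : (((G n).filter fun t => x t = q ^ r).card : ℝ) =
      ∑ t ∈ G n, (if x t = q ^ r then (1 : ℝ) else 0) := by
    rw [Finset.card_filter]
    push_cast
    rfl
  have hlow : ∑ t ∈ G n, (prdisT q r fm).eval (x t) ≤
      (((G n).filter fun t => x t = q ^ r).card : ℝ) := by
    rw [hcard]
    apply Finset.sum_le_sum
    intro t _
    obtain ⟨s, hs⟩ := hx t
    rw [hs]
    exact (hpt s).1
  have hupp : (((G n).filter fun t => x t = q ^ r).card : ℝ) ≤
      ∑ t ∈ G n, (prdisT q r fp).eval (x t) := by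
    rw [hcard]
    apply Finset.sum_le_sum
    intro t _
    obtain ⟨s, hs⟩ := hx t
    rw [hs]
    exact (hpt s).2
  have hP0 : 0 < P := by linarith
  have hN : (0 : ℝ) ≤ ((G n).card : ℝ) := Nat.cast_nonneg _
  have hεP : ε / P ≤ ε := div_le_self hε.le hP1
  have c1 : L fm / P * ((G n).card : ℝ) ≥ a / P * ((G n).card : ℝ) - ε * ((G n).card : ℝ) := by
    have h1 : (a - ε) / P ≤ L fm / P := div_le_div_of_nonneg_right hm hP0.le
    have h2 := mul_le_mul_of_nonneg_right h1 hN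
    have h3 := mul_le_mul_of_nonneg_right hεP hN
    rw [sub_div, sub_mul] at h2
    linarith
  have c2 : L fp / P * ((G n).card : ℝ) ≤ a / P * ((G n).card : ℝ) + ε * ((G n).card : ℝ) := by
    have h1 : L fp / P ≤ (a + ε) / P := div_le_div_of_nonneg_right hp hP0.le
    have h2 := mul_le_mul_of_nonneg_right h1 hN
    have h3 := mul_le_mul_of_nonneg_right hεP hN
    rw [add_div, add_mul] at h2
    linarith
  rw [← ha, ← hP, abs_le]
  constructor
  · linarith [b1.1]
  · linarith [b2.2]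

end MP72e2e6
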