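import Pool.Agent.Lib.MP_72e2e6_nt.PhStmt
import Pool.Agent.Lib.MP_72e2e6_nt.PrDis

/-!
# MP_72e2e6_nt : the distribution for `ℓ = 2`
-/

set_option autoImplicit false

namespace MP72e2e6

open Polynomial

universe u

theorem phdis_L (L L' : ℝ[X] →ₗ[ℝ] ℝ) (hL : ∀ j : ℕ, L (Eq_ 4 j) = 2 ^ j) (r : ℕ)
    (hL' : ∀ j : ℕ, L' (Eq_ 4 j) = (2 * (4 ^ r)⁻¹) ^ j) (f : ℝ[X]) :
    L (prdisT 4 r f) = 2 ^ r / (Eq_ 4 r).eval (4 ^ r) * L' f := by
  have hadd : ∀ f g : ℝ[X], L (prdisT 4 r (f + g)) = L (prdisT 4 r f) + L (prdisT 4 r g) := by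
    intro f g
    rw [← map_add]
    congr 1
    simp only [prdisT, add_comp]
    ring
  have hsmul : ∀ (c : ℝ) (f : ℝ[X]), L (prdisT 4 r (c • f)) = c • L (prdisT 4 r f) := by
    intro c f
    rw [← map_smul]
    congr 1
    simp only [prdisT, smul_comp, mul_smul_comm]
  obtain ⟨A, hA⟩ : ∃ A : ℝ[X] →ₗ[ℝ] ℝ, ∀ f, A f = L (prdisT 4 r f) :=
    ⟨⟨⟨fun f => L (prdisT 4 r f), hadd⟩, hsmul⟩, fun f => rfl⟩
  obtain ⟨B, hB⟩ : ∃ B : ℝ[X] →ₗ[ℝ] ℝ, ∀ f, B f =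
      2 ^ r / (Eq_ 4 r).eval (4 ^ r) * L' f :=
    ⟨(2 ^ r / (Eq_ 4 r).eval (4 ^ r)) • L', fun f => by
      rw [LinearMap.smul_apply, smul_eq_mul]⟩
  rw [← hA, ← hB]
  apply prdis_ext 4
  intro j
  rw [hA, hB, hL']
  have hqr : (4 : ℝ) ^ r ≠ 0 := pow_ne_zero _ (by norm_num)
  have e1 : Eq_ 4 r * (Eq_ 4 j).comp (C (4 ^ r)⁻¹ * X) =
      C (((4 : ℝ) ^ (r * j))⁻¹) * Eq_ 4 (r + j) := by
    have h1 : Eq_ 4 (r + j) = Eq_ 4 r * ∏ i ∈ Finset.range j, (X - C (4 ^ (r + i))) := by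
      unfold Eq_
      rw [Finset.prod_range_add]
    have h2 : (Eq_ 4 j).comp (C (4 ^ r)⁻¹ * X) =
        ∏ i ∈ Finset.range j, (C (4 ^ r)⁻¹ * (X - C (4 ^ (r + i)))) := by
      unfold Eq_
      rw [prod_comp]
      apply Finset.prod_congr rfl
      intro i _
      rw [sub_comp, X_comp, C_comp, mul_sub, ← C_mul, pow_add, inv_mul_cancel_left₀ hqr]
    rw [h1, h2, Finset.prod_mul_distrib, Finset.prod_const, Finset.card_range, ← C_pow,
      inv_pow, ← pow_mul]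
    ring
  rw [prdisT, mul_assoc, e1, ← smul_eq_C_mul, ← smul_eq_C_mul, map_smul, map_smul, hL,
    smul_eq_mul, smul_eq_mul, mul_pow, inv_pow, ← pow_mul, pow_add, div_eq_mul_inv]
  ring

theorem phdis_c (r : ℕ) : (Eq_ 4 r).eval (4 ^ r) =
    (4 : ℝ) ^ (r * (r - 1) / 2) * ∏ i ∈ Finset.range r, ((4 : ℝ) ^ (i + 1) - 1) :=
  prdis_c 4 r

theorem phdis_fin (r : ℕ) : 2 ^ r * ∏ i ∈ Finset.range (2 * r), ((2 : ℝ) ^ (i + 1) - 1) =
    2 ^ (2 * r) * (∏ i ∈ Finset.range r, (1 - ((2 : ℝ)⁻¹) ^ (2 * i + 1))) *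
      (Eq_ 4 r).eval (4 ^ r) := by
  rw [phdis_c]
  induction r with
  | zero => simp
  | succ r ih =>
    have h1 : 2 * (r + 1) = 2 * r + 1 + 1 := by ring
    have h2 : (r + 1) * (r + 1 - 1) / 2 = r * (r - 1) / 2 + r := by
      have h1 : ∀ n : ℕ, n * (n - 1) / 2 * 2 = n * (n - 1) := fun n =>
        Nat.div_mul_cancel (Nat.even_mul_pred_self n).two_dvd
      have h3 := h1 (r + 1)
      have h4 := h1 r
      have h5 : (r + 1) * (r + 1 - 1) = r * (r - 1) + r * 2 := by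
        rcases r with _ | r
        · simp
        · rw [Nat.add_sub_cancel, Nat.add_sub_cancel]
          ring
      omega
    rw [h1, Finset.prod_range_succ, Finset.prod_range_succ, Finset.prod_range_succ, h2,
      Finset.prod_range_succ]
    have h3 : (2 : ℝ) ^ (r + 1) * ((∏ i ∈ Finset.range (2 * r), ((2 : ℝ) ^ (i + 1) - 1)) *
        (2 ^ (2 * r + 1) - 1) * (2 ^ (2 * r + 1 + 1) - 1)) =
        (2 ^ r * ∏ i ∈ Finset.range (2 * r), ((2 : ℝ) ^ (i + 1) - 1)) *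
        (2 * (2 ^ (2 * r + 1) - 1) * (2 ^ (2 * r + 1 + 1) - 1)) := by
      rw [pow_succ]
      ring
    rw [h3, ih]
    have h4 : (4 : ℝ) ^ (r + 1) = 2 ^ (2 * r + 1 + 1) := by
      rw [show (4 : ℝ) = 2 ^ 2 by norm_num, ← pow_mul]
      congr 1
    have h5 : (4 : ℝ) ^ (r * (r - 1) / 2 + r) = 4 ^ (r * (r - 1) / 2) * 2 ^ (2 * r) := by
      rw [pow_add]
      congr 1
      rw [show (4 : ℝ) = 2 ^ 2 by norm_num, ← pow_mul]
    rw [h4, h5]
    have h6 : (2 : ℝ) ^ (2 * r + 1) - 1 = 2 ^ (2 * r + 1) * (1 - ((2 : ℝ)⁻¹) ^ (2 * r + 1)) := by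
      rw [mul_sub, mul_one, ← mul_pow, mul_inv_cancel₀ two_ne_zero, one_pow]
    rw [h6, pow_succ (2 : ℝ) (2 * r + 1), pow_succ (2 : ℝ) (2 * r)]
    ring

theorem phdis_tprod (r : ℕ) : (∏' i : ℕ, (1 - ((2 : ℝ)⁻¹) ^ (2 * i + 1))) =
    (∏ i ∈ Finset.range r, (1 - ((2 : ℝ)⁻¹) ^ (2 * i + 1))) *
      ∏' i : ℕ, (1 - 2 * ((4 : ℝ) ^ r)⁻¹ * (4⁻¹) ^ (i + 1)) := by
  have h0 : ∀ i : ℕ, 1 - 2 * ((4 : ℝ) ^ r)⁻¹ * (4⁻¹) ^ (i + 1) =
      1 - ((2 : ℝ)⁻¹) ^ (2 * (i + r) + 1) := by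
    intro i
    congr 1
    rw [show (4 : ℝ) = 2 ^ 2 by norm_num, ← pow_mul, inv_pow, ← pow_mul, inv_pow,
      show 2 * (i + r) + 1 = 2 * r + 2 * i + 1 by ring, show 2 * (i + 1) = 2 * i + 1 + 1 by ring,
      pow_succ (2 : ℝ) (2 * i + 1), pow_succ (2 : ℝ) (2 * r + 2 * i), pow_succ (2 : ℝ) (2 * i),
      pow_add]
    field_simp
  rw [tprod_congr h0]
  have hm : Multipliable fun i : ℕ => (1 - ((2 : ℝ)⁻¹) ^ (2 * (i + r) + 1)) := by
    have hs : Summable fun i : ℕ => -((2 : ℝ)⁻¹) ^ (2 * (i + r) + 1) := by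
      apply Summable.neg
      have h1 : ∀ i : ℕ, ((2 : ℝ)⁻¹) ^ (2 * (i + r) + 1) =
          ((2 : ℝ)⁻¹) ^ (2 * r + 1) * ((4 : ℝ)⁻¹) ^ i := by
        intro i
        rw [show 2 * (i + r) + 1 = 2 * r + 1 + 2 * i by ring, pow_add _ (2 * r + 1) (2 * i),
          pow_mul _ 2 i]
        norm_num
      rw [funext h1]
      exact (summable_geometric_of_lt_one (by norm_num) (by norm_num)).mul_left _
    have h3 := Real.multipliable_one_add_of_summable hs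
    simpa only [← sub_eq_add_neg] using h3
  exact (Multipliable.prod_mul_tprod_nat_mul' (f := fun i : ℕ =>
    (1 - ((2 : ℝ)⁻¹) ^ (2 * i + 1))) hm).symm

open Classical in
theorem tPhDis (hM : StmtPqMul.{u}) (hF : StmtPqFun) (hS : StmtPhSq) (hE : StmtPhEul) :
    StmtPhDis.{u} := by
  intro α G good Q hQ x hx hmom r ε hε
  obtain ⟨L, hL⟩ := hF 2 fun j => 2 ^ (j * (j + 1) / 2)
  have hL4 := hS L hL
  obtain ⟨L', hL'⟩ := hF 4 fun j => (2 * (4 ^ r)⁻¹) ^ j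
  obtain ⟨c, hc⟩ : ∃ c : ℝ, c = (Eq_ 4 r).eval (4 ^ r) := ⟨_, rfl⟩
  have hc0 : 0 < c := by
    rw [hc, phdis_c]
    refine mul_pos (pow_pos (by norm_num) _) (Finset.prod_pos fun i _ => ?_)
    have h1 := one_lt_pow₀ (show (1 : ℝ) < 4 by norm_num) (n := i + 1) (by omega)
    linarith
  obtain ⟨b, hb⟩ : ∃ b : ℝ, b = 2 ^ r / c := ⟨_, rfl⟩
  have hb0 : 0 < b := by
    rw [hb]
    positivity
  obtain ⟨a, ha⟩ : ∃ a : ℝ, a = ∏' i : ℕ, (1 - 2 * ((4 : ℝ) ^ r)⁻¹ * (4⁻¹) ^ (i + 1)) :=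
    ⟨_, rfl⟩
  have h4r : (1 : ℝ) ≤ 4 ^ r := one_le_pow₀ (by norm_num)
  obtain ⟨fm, fp, hfr, hm, hp⟩ := hE (2 * (4 ^ r)⁻¹) (by positivity) (by
    have := inv_le_one_of_one_le₀ h4r
    linarith) L' hL' (ε / b) (by positivity)
  rw [← ha] at hm hp
  -- polynomials
  have hpoly : ∀ (f : ℝ[X]) (ε' : ℝ), 0 < ε' → ∃ n₀ : ℕ, ∀ n : ℕ, n₀ ≤ n → good n →
      |∑ t ∈ G n, f.eval (x t) - L f * ((G n).card : ℝ)| ≤ ε' * Q ^ n := by
    intro f ε' hε'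
    obtain ⟨n₀, h0⟩ := hM Unit α G good Q hQ (fun _ => 2) (fun _ => x) (fun _ => L) (by
      intro k ε'' hε''
      obtain ⟨n₀, h0⟩ := hmom (k ()) ε'' hε''
      refine ⟨n₀, fun n hn hg => ?_⟩
      have h1 := h0 n hn hg
      simpa only [Finset.univ_unique, PUnit.default_eq_unit, Finset.prod_singleton, hL] using h1)
      (fun _ => f) ε' hε'
    refine ⟨n₀, fun n hn hg => ?_⟩
    have h1 := h0 n hn hg
    simpa only [Finset.univ_unique, PUnit.default_eq_unit, Finset.prod_singleton] using h1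
  obtain ⟨n₁, hn₁⟩ := hpoly (prdisT 4 r fm) ε hε
  obtain ⟨n₂, hn₂⟩ := hpoly (prdisT 4 r fp) ε hε
  refine ⟨max n₁ n₂, fun n hn hg => ?_⟩
  have b1 := abs_le.1 (hn₁ n (le_trans (le_max_left _ _) hn) hg)
  have b2 := abs_le.1 (hn₂ n (le_trans (le_max_right _ _) hn) hg)
  rw [phdis_L L L' hL4 r hL', ← hc, ← hb] at b1 b2
  -- pointwise
  have hev : ∀ (f : ℝ[X]) (s : ℕ), (prdisT 4 r f).eval (4 ^ s) =
      ((Eq_ 4 r).eval (4 ^ r))⁻¹ * (Eq_ 4 r).eval (4 ^ s) * f.eval ((4 ^ r)⁻¹ * 4 ^ s) := by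
    intro f s
    rw [prdisT, eval_mul, eval_mul, eval_C, eval_comp, eval_mul, eval_C, eval_X]
  have h40 : (0 : ℝ) < 4 := by norm_num
  have h41 : (1 : ℝ) < 4 := by norm_num
  have hpt : ∀ s : ℕ, (prdisT 4 r fm).eval (4 ^ s) ≤
      (if (4 : ℝ) ^ s = 4 ^ r then (1 : ℝ) else 0) ∧
      (if (4 : ℝ) ^ s = 4 ^ r then (1 : ℝ) else 0) ≤ (prdisT 4 r fp).eval (4 ^ s) := by
    intro s
    rcases lt_trichotomy s r with h | h | h
    · have h1 : (Eq_ 4 r).eval (4 ^ s) = 0 := by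
        rw [prdis_eval_Eq]
        exact Finset.prod_eq_zero (Finset.mem_range.2 h) (sub_self _)
      have h2 : (4 : ℝ) ^ s ≠ 4 ^ r := fun h2 => h.ne (pow_right_injective₀ h40 h41.ne' h2)
      rw [hev, hev, h1, if_neg h2]
      simp
    · rw [h, if_pos rfl, hev, hev, ← hc, inv_mul_cancel₀ hc0.ne', one_mul, one_mul,
        inv_mul_cancel₀ (pow_ne_zero _ h40.ne')]
      have h2 := hfr 0
      rw [pow_zero, if_pos rfl] at h2
      exact h2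
    · have h2 : (4 : ℝ) ^ s ≠ 4 ^ r := fun h2 => h.ne' (pow_right_injective₀ h40 h41.ne' h2)
      have h3 : 0 ≤ ((Eq_ 4 r).eval (4 ^ r))⁻¹ * (Eq_ 4 r).eval (4 ^ s) := by
        rw [← hc]
        apply mul_nonneg (inv_nonneg.2 hc0.le)
        rw [prdis_eval_Eq]
        apply Finset.prod_nonneg
        intro j hj
        rw [Finset.mem_range] at hj
        have := pow_le_pow_right₀ h41.le (show j ≤ s by omega)
        linarith
      have h4 : ((4 : ℝ) ^ r)⁻¹ * 4 ^ s = 4 ^ (s - r) := by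
        have : (4 : ℝ) ^ s = 4 ^ r * 4 ^ (s - r) := by rw [← pow_add]; congr 1; omega
        rw [this, inv_mul_cancel_left₀ (pow_ne_zero _ h40.ne')]
      have h5 := hfr (s - r)
      rw [if_neg (by omega)] at h5
      rw [if_neg h2, hev, hev, h4]
      exact ⟨mul_nonpos_of_nonneg_of_nonpos h3 h5.1, mul_nonneg h3 h5.2⟩
  have hcard : (((G n).filter fun t => x t = 4 ^ r).card : ℝ) =
      ∑ t ∈ G n, (if x t = 4 ^ r then (1 : ℝ) else 0) := by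
    rw [Finset.card_filter]
    push_cast
    rfl
  have hlow : ∑ t ∈ G n, (prdisT 4 r fm).eval (x t) ≤
      (((G n).filter fun t => x t = 4 ^ r).card : ℝ) := by
    rw [hcard]
    apply Finset.sum_le_sum
    intro t ht
    obtain ⟨s, hs⟩ := hx n hg t ht
    rw [hs]
    exact (hpt s).1
  have hupp : (((G n).filter fun t => x t = 4 ^ r).card : ℝ) ≤
      ∑ t ∈ G n, (prdisT 4 r fp).eval (x t) := by
    rw [hcard]
    apply Finset.sum_le_sum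
    intro t ht
    obtain ⟨s, hs⟩ := hx n hg t ht
    rw [hs]
    exact (hpt s).2
  have hN : (0 : ℝ) ≤ ((G n).card : ℝ) := Nat.cast_nonneg _
  have hεb : b * (ε / b) = ε := mul_div_cancel₀ ε hb0.ne'
  have c1 : b * L' fm * ((G n).card : ℝ) ≥ b * a * ((G n).card : ℝ) - ε * ((G n).card : ℝ) := by
    have h1 : b * (a - ε / b) ≤ b * L' fm := mul_le_mul_of_nonneg_left hm hb0.le
    have h2 := mul_le_mul_of_nonneg_right h1 hN
    rw [mul_sub, hεb, sub_mul] at h2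
    linarith
  have c2 : b * L' fp * ((G n).card : ℝ) ≤ b * a * ((G n).card : ℝ) + ε * ((G n).card : ℝ) := by
    have h1 : b * L' fp ≤ b * (a + ε / b) := mul_le_mul_of_nonneg_left hp hb0.le
    have h2 := mul_le_mul_of_nonneg_right h1 hN
    rw [mul_add, hεb, add_mul] at h2
    linarith
  have hfinal : 2 ^ (2 * r) * (∏' i : ℕ, (1 - ((2 : ℝ)⁻¹) ^ (2 * i + 1))) /
      (∏ i ∈ Finset.range (2 * r), ((2 : ℝ) ^ (i + 1) - 1)) = b * a := by
    have h1 := phdis_fin r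
    have hP : (∏ i ∈ Finset.range (2 * r), ((2 : ℝ) ^ (i + 1) - 1)) ≠ 0 := by
      apply Finset.prod_ne_zero_iff.2
      intro i _
      have := one_lt_pow₀ (show (1 : ℝ) < 2 by norm_num) (n := i + 1) (by omega)
      linarith
    rw [phdis_tprod r, ← ha, hb, div_eq_iff hP, div_mul_eq_mul_div, div_mul_eq_mul_div,
      eq_div_iff hc0.ne']
    rw [← hc] at h1
    linear_combination (-a) * h1
  rw [hfinal, abs_le]
  constructor
  · linarith [b1.1]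
  · linarith [b2.2]

end MP72e2e6
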