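import Pool.Agent.Lib.MP_72e2e6_nt.PqStmt

/-!
# MP_72e2e6_nt: the exact moments, the mixed moments
-/

set_option autoImplicit false

namespace MP72e2e6

open Polynomial

universe u

section

variable {ℓ : ℕ} {V I : Type} [Finite I]

/-- The projection to a factor. -/
def pqmix_pr (S : I → Sys ℓ V) (p : I) : (Sys.pi S).W →ₗ[ZMod ℓ] (S p).W :=
  LinearMap.proj (φ := fun q => (S q).W) p

theorem pqmix_pr_sg (S : I → Sys ℓ V) (v : V) (y : (Sys.pi S).W) (p : I) :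
    pqmix_pr S p ((Sys.pi S).σ v y) = (S p).σ v (pqmix_pr S p y) := rfl

theorem pqmix_pr_lm (S : I → Sys ℓ V) (y : (Sys.pi S).W) (p : I) :
    pqmix_pr S p ((Sys.pi S).Λ y) = (S p).Λ (pqmix_pr S p y) := rfl

theorem pqmix_ext (S : I → Sys ℓ V) {x y : (Sys.pi S).W}
    (h : ∀ p, pqmix_pr S p x = pqmix_pr S p y) : x = y := funext h

variable {F : Type u} [Field F] [Fintype V]

theorem pqmix_hyp (χ : F → ZMod ℓ) (pr : V → F[X]) (S : I → Sys ℓ V)
    (h : ∀ p, HypW χ pr (S p).σ (S p).Λ) : HypW χ pr (Sys.pi S).σ (Sys.pi S).Λ := by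
  refine ⟨fun v y hy => ?_, fun v y => ?_⟩
  · apply pqmix_ext
    intro p
    rw [map_zero]
    apply (h p).inj v
    rw [← pqmix_pr_sg, hy, map_zero]
  · apply pqmix_ext
    intro p
    simp only [map_add, map_sum, map_smul, pqmix_pr_sg, pqmix_pr_lm]
    have h1 := (h p).com v (pqmix_pr S p y)
    simp only [map_add, map_sum, map_smul] at h1
    exact h1

theorem pqmix_inf (pr : V → F[X]) (S : I → Sys ℓ V) (n : ℕ)
    (h : ∀ p, InfW pr (S p).σ n) : InfW pr (Sys.pi S).σ n := by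
  intro y hy
  apply pqmix_ext
  intro p
  rw [map_zero]
  apply h p
  have h1 := congrArg (pqmix_pr S p) hy
  simp only [map_add, map_sum, map_smul, pqmix_pr_sg, map_zero] at h1
  exact h1

end

theorem pqmix_eval (q x : ℝ) (a : ℕ) :
    (Eq_ q a).eval x = ∏ j ∈ Finset.range a, (x - q ^ j) := by
  rw [Eq_, Polynomial.eval_prod]
  simp only [eval_sub, eval_X, eval_C]

open Classical in
theorem tPqMix.{v} (hPqPrim : StmtPqPrim.{v}) (hPqCt : StmtPqCt.{v}) (hPqSkt : StmtPqSkt) :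
    StmtPqMix.{v} := by
  intro F _ _ ℓ _ hℓ2 hq χ hχ V _ pr hpr ι _ S hS a ε hε
  obtain ⟨n₀, hn₀⟩ := hPqPrim F ℓ hℓ2 hq χ hχ V pr hpr
    (Sys.pi fun p : (Σ i, Fin (a i)) => S p.1) (pqmix_hyp χ pr _ fun p => hS.hyp p.1) ε hε
  refine ⟨n₀, fun n hn hI => ?_⟩
  have h1 := hn₀ n hn (pqmix_inf pr _ n fun p => hI p.1)
  have h2 : ∀ t : Finset F[X],
      ((Sys.pi fun p : (Σ i, Fin (a i)) => S p.1).prim χ pr t : ℝ) =
      ∏ i, (Eq_ (Nat.card (HomS (S i) (S i))) (a i)).eval ((S i).sol χ pr t : ℝ) := by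
    intro t
    rw [(hPqCt F ℓ V χ pr ι S hS t).1 a]
    refine Finset.prod_congr rfl fun i _ => ?_
    rw [pqmix_eval]
  have h3 : (Nat.card (Sk (Sys.pi fun p : (Σ i, Fin (a i)) => S p.1).σ
      (Sys.pi fun p : (Σ i, Fin (a i)) => S p.1).Λ) : ℝ) =
      ∏ i, ((Nat.card (Sk (S i).σ (S i).Λ) : ℝ) ^ a i *
        (Nat.card (BilS (S i) (S i)) : ℝ) ^ (a i * (a i - 1) / 2)) := by
    rw [hPqSkt ℓ hℓ2 V ι S hS.bil a]
    push_cast
    rfl
  rw [h3, Finset.sum_congr rfl fun t _ => h2 t] at h1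
  exact h1

end MP72e2e6
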