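import Pool.Agent.Lib.MP_72e2e6_nt.PhStmt
import Pool.Agent.Lib.MP_72e2e6_nt.PqMix

/-!
# MP_72e2e6_nt: the exact moments for `ℓ = 2`, the moments of `Eq_`
-/

set_option autoImplicit false

namespace MP72e2e6

open Polynomial

universe u

open Classical in
theorem tPhEq.{v} (h1 : StmtPhPrim.{v}) (h2 : StmtPqCt.{v}) (h3 : StmtPhRT.{v})
    (h4 : StmtPhPw.{v}) : StmtPhEq.{v} := by
  intro F _ _ hF4 hF2 χ hχ hR V _ pr hpr S hS hHom f hf hf0 hfB hfR j ε hε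
  have hsym : ∀ v v', syl χ (pr v) (pr v') = syl χ (pr v') (pr v) := by
    intro v v'
    by_cases h : v = v'
    · rw [h]
    · exact hR _ _ (hpr.monic v) (hpr.irr v) (hpr.monic v') (hpr.irr v')
        fun h' => h (hpr.inj h')
  have hyp : HypW χ pr S.σ S.Λ := hS.hyp ()
  obtain ⟨hP1, hP2⟩ := h4 F V χ pr S hyp f hf hf0 hfB hfR (Σ _ : Unit, Fin j)
  have hT : HypW χ pr (Sys.pi fun _ : (Σ _ : Unit, Fin j) => S).σ
      (Sys.pi fun _ : (Σ _ : Unit, Fin j) => S).Λ := pqmix_hyp χ pr _ fun _ => hyp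
  obtain ⟨n₀, hn₀⟩ := h1 F hF4 hF2 χ hχ hR V pr hpr
    (Sys.pi fun _ : (Σ _ : Unit, Fin j) => S) hT ε hε
  refine ⟨n₀, fun n hn hI => ?_⟩
  have h5 := hn₀ n hn (pqmix_inf pr _ n fun _ => hI)
  have h6 : ∀ t : Finset F[X],
      ((Sys.pi fun _ : (Σ _ : Unit, Fin j) => S).prim χ pr t : ℝ) =
      (Eq_ 2 j).eval (S.sol χ pr t : ℝ) := by
    intro t
    have h7 := (h2 F 2 V χ pr Unit (fun _ => S) hS t).1 (fun _ => j)
    rw [Finset.univ_unique, Finset.prod_singleton, hHom] at h7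
    rw [pqmix_eval]
    exact h7
  have h8 : (Nat.card {g // g ∈ Sa (Sys.pi fun _ : (Σ _ : Unit, Fin j) => S).σ
      (Sys.pi fun _ : (Σ _ : Unit, Fin j) => S).Λ ∧
      TrW χ pr (Sys.pi fun _ : (Σ _ : Unit, Fin j) => S).σ
        (Sys.pi fun _ : (Σ _ : Unit, Fin j) => S).Λ g} : ℝ) = (2 : ℝ) ^ (j * (j + 1) / 2) := by
    have h9 : Nat.card {g // g ∈ Sa (Sys.pi fun _ : (Σ _ : Unit, Fin j) => S).σ
      (Sys.pi fun _ : (Σ _ : Unit, Fin j) => S).Λ ∧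
      TrW χ pr (Sys.pi fun _ : (Σ _ : Unit, Fin j) => S).σ
        (Sys.pi fun _ : (Σ _ : Unit, Fin j) => S).Λ g} =
        Nat.card (Sa (Sys.pi fun _ : (Σ _ : Unit, Fin j) => S).σ
          (Sys.pi fun _ : (Σ _ : Unit, Fin j) => S).Λ) := by
      refine Nat.card_congr (Equiv.subtypeEquivRight fun g => ⟨fun h => h.1, fun h => ⟨h, ?_⟩⟩)
      exact h3 F V _ χ pr _ _ hT hsym g h (hP1 g h)
    have h10 : Fintype.card (Σ _ : Unit, Fin j) = j := by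
      simp
    rw [h9, hP2, h10]
    push_cast
    rfl
  rw [h8, Finset.sum_congr rfl fun t _ => h6 t] at h5
  exact h5

end MP72e2e6
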