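import Pool.Agent.Lib.MP_72e2e6_nt.PqStmt

/-!
# MP_72e2e6_nt : one variable, the general inequality
-/

set_option autoImplicit false

namespace MP72e2e6

open Polynomial

/-- the denominators -/
noncomputable def pqonec_pi (Q : ℝ) (j : ℕ) : ℝ := ∏ i ∈ Finset.range j, (Q ^ (i + 1) - 1)

/-- the truncated series -/
noncomputable def pqonec_f (Q : ℝ) (J : ℕ) : ℝ[X] :=
  ∑ j ∈ Finset.range (J + 1), ((-1) ^ j / pqonec_pi Q j) • Eq_ Q j

theorem pqonec_pi_pos {Q : ℝ} (hQ : 1 < Q) (j : ℕ) : 0 < pqonec_pi Q j := by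
  unfold pqonec_pi
  apply Finset.prod_pos
  intro i _
  have := one_lt_pow₀ hQ (n := i + 1) (by omega)
  linarith

theorem pqonec_pi_succ (Q : ℝ) (j : ℕ) :
    pqonec_pi Q (j + 1) = pqonec_pi Q j * (Q ^ (j + 1) - 1) := by
  unfold pqonec_pi
  rw [Finset.prod_range_succ]

theorem pqonec_eval_Eq (Q x : ℝ) (J : ℕ) :
    (Eq_ Q (J + 1)).eval x = (x - 1) * ∏ i ∈ Finset.range J, (x - Q ^ (i + 1)) := by
  unfold Eq_
  rw [eval_prod, Finset.prod_range_succ']
  simp
  ring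

theorem pqonec_eval {Q : ℝ} (hQ : 1 < Q) (x : ℝ) (J : ℕ) :
    (pqonec_f Q J).eval x * pqonec_pi Q J =
      (-1) ^ J * ∏ i ∈ Finset.range J, (x - Q ^ (i + 1)) := by
  induction J with
  | zero => simp [pqonec_f, pqonec_pi, Eq_]
  | succ J ih =>
    have h1 : pqonec_f Q (J + 1) =
        pqonec_f Q J + ((-1) ^ (J + 1) / pqonec_pi Q (J + 1)) • Eq_ Q (J + 1) := by
      unfold pqonec_f
      rw [Finset.sum_range_succ]
    have hp := pqonec_pi_pos hQ (J + 1)
    rw [h1, eval_add, eval_smul, pqonec_eval_Eq, smul_eq_mul, add_mul, Finset.prod_range_succ]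
    have h2 : (-1) ^ (J + 1) / pqonec_pi Q (J + 1) *
        ((x - 1) * ∏ i ∈ Finset.range J, (x - Q ^ (i + 1))) * pqonec_pi Q (J + 1) =
        (-1) ^ (J + 1) * ((x - 1) * ∏ i ∈ Finset.range J, (x - Q ^ (i + 1))) := by
      field_simp
    rw [h2, pqonec_pi_succ, ← mul_assoc, ih]
    ring

theorem pqonec_eval_one {Q : ℝ} (hQ : 1 < Q) (J : ℕ) : (pqonec_f Q J).eval 1 = 1 := by
  have h1 := pqonec_eval hQ 1 J
  have h2 : (-1 : ℝ) ^ J * ∏ i ∈ Finset.range J, (1 - Q ^ (i + 1)) = pqonec_pi Q J := by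
    unfold pqonec_pi
    have : ∏ i ∈ Finset.range J, (Q ^ (i + 1) - 1) =
        ∏ i ∈ Finset.range J, (-1) * (1 - Q ^ (i + 1)) :=
      Finset.prod_congr rfl fun i _ => by ring
    rw [this, Finset.prod_mul_distrib, Finset.prod_const, Finset.card_range]
  rw [h2] at h1
  have hp := pqonec_pi_pos hQ J
  exact mul_right_cancel₀ hp.ne' (by rw [h1, one_mul])

theorem pqonec_sign {Q : ℝ} (hQ : 1 < Q) (J r : ℕ) (hr : r ≠ 0) :
    0 ≤ ∏ i ∈ Finset.range J, (Q ^ r - Q ^ (i + 1)) := by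
  by_cases h : r ≤ J
  · rw [Finset.prod_eq_zero (i := r - 1) (Finset.mem_range.2 (by omega))]
    have : r - 1 + 1 = r := by omega
    rw [this, sub_self]
  · apply Finset.prod_nonneg
    intro i hi
    rw [Finset.mem_range] at hi
    have := pow_le_pow_right₀ hQ.le (show i + 1 ≤ r by omega)
    linarith

theorem pqonec_even {Q : ℝ} (hQ : 1 < Q) (m r : ℕ) :
    (if r = 0 then (1 : ℝ) else 0) ≤ (pqonec_f Q (2 * m)).eval (Q ^ r) := by
  split_ifs with h
  · rw [h, pow_zero, pqonec_eval_one hQ]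
  · have h1 := pqonec_eval hQ (Q ^ r) (2 * m)
    rw [pow_mul, neg_one_sq, one_pow, one_mul] at h1
    have h2 := pqonec_sign hQ (2 * m) r h
    have hp := pqonec_pi_pos hQ (2 * m)
    rw [← h1] at h2
    exact nonneg_of_mul_nonneg_left h2 hp

theorem pqonec_odd {Q : ℝ} (hQ : 1 < Q) (m r : ℕ) :
    (pqonec_f Q (2 * m + 1)).eval (Q ^ r) ≤ if r = 0 then (1 : ℝ) else 0 := by
  split_ifs with h
  · rw [h, pow_zero, pqonec_eval_one hQ]
  · have h1 := pqonec_eval hQ (Q ^ r) (2 * m + 1)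
    rw [pow_succ, pow_mul, neg_one_sq, one_pow, one_mul] at h1
    have h2 := pqonec_sign hQ (2 * m + 1) r h
    have hp := pqonec_pi_pos hQ (2 * m + 1)
    by_contra hc
    push Not at hc
    have := mul_pos hc hp
    rw [h1] at this
    linarith

theorem pqonec_L {Q : ℝ} (hQ : 1 < Q) (L : ℝ[X] →ₗ[ℝ] ℝ) (w : ℕ → ℝ)
    (hL : ∀ j, L (Eq_ Q j) = w j * ∏ i ∈ Finset.range j, (Q ^ (i + 1) - 1)) (J : ℕ) :
    L (pqonec_f Q J) = ∑ j ∈ Finset.range (J + 1), (-1) ^ j * w j := by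
  unfold pqonec_f
  rw [map_sum]
  apply Finset.sum_congr rfl
  intro j _
  rw [map_smul, hL j, smul_eq_mul]
  have hp := pqonec_pi_pos hQ j
  change (-1) ^ j / pqonec_pi Q j * (w j * pqonec_pi Q j) = _
  field_simp

theorem tPqOneC : StmtPqOneC := by
  intro Q hQ L w hL hw0 hw hw2 η hη
  have hpow : ∀ n, w n ≤ (1 / 2) ^ n := by
    intro n
    induction n with
    | zero => rw [hw0]; norm_num
    | succ n ih =>
      have := hw2 n
      rw [pow_succ]
      linarith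
  obtain ⟨m, hm⟩ := exists_pow_lt_of_lt_one hη (show (1 / 2 : ℝ) < 1 by norm_num)
  have hS : ∀ m : ℕ, 1 - w 1 + w (2 * m + 1) ≤ L (pqonec_f Q (2 * m)) ∧
      L (pqonec_f Q (2 * m)) ≤ 1 := by
    intro m
    induction m with
    | zero =>
      rw [pqonec_L hQ L w hL]
      simp [hw0]
    | succ m ih =>
      have h1 : L (pqonec_f Q (2 * (m + 1))) =
          L (pqonec_f Q (2 * m)) - w (2 * m + 1) + w (2 * m + 2) := by
        rw [pqonec_L hQ L w hL, pqonec_L hQ L w hL, show 2 * (m + 1) + 1 = 2 * m + 1 + 1 + 1 by ring,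
          Finset.sum_range_succ, Finset.sum_range_succ]
        have e1 : (-1 : ℝ) ^ (2 * m + 1) = -1 := by
          rw [pow_succ, pow_mul, neg_one_sq, one_pow]; ring
        have e2 : (-1 : ℝ) ^ (2 * m + 1 + 1) = 1 := by
          rw [pow_succ, e1]; ring
        rw [e1, e2]
        ring
      have h2 := hw2 (2 * m + 1)
      have h3 := hw2 (2 * m + 2)
      have h4 := hw (2 * m + 1)
      have h5 := hw (2 * m + 2)
      have e3 : 2 * m + 1 + 1 = 2 * m + 2 := by ring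
      have e4 : 2 * (m + 1) + 1 = 2 * m + 2 + 1 := by ring
      rw [e3] at h2
      rw [h1, e4]
      constructor
      · linarith [ih.1]
      · linarith [ih.2]
  refine ⟨pqonec_f Q (2 * m + 1), pqonec_f Q (2 * m), fun r => ⟨pqonec_odd hQ m r,
    pqonec_even hQ m r⟩, ?_, ?_, (hS m).2⟩
  · have h1 : L (pqonec_f Q (2 * m + 1)) = L (pqonec_f Q (2 * m)) - w (2 * m + 1) := by
      rw [pqonec_L hQ L w hL, pqonec_L hQ L w hL, Finset.sum_range_succ _ (2 * m + 1)]
      have e1 : (-1 : ℝ) ^ (2 * m + 1) = -1 := by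
        rw [pow_succ, pow_mul, neg_one_sq, one_pow]; ring
      rw [e1]
      ring
    rw [h1]
    have h2 := hpow (2 * m + 1)
    have h3 : (1 / 2 : ℝ) ^ (2 * m + 1) ≤ (1 / 2) ^ m :=
      pow_le_pow_of_le_one (by norm_num) (by norm_num) (by omega)
    linarith
  · have := (hS m).1
    have := hw (2 * m + 1)
    linarith

end MP72e2e6
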