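import Pool.Agent.Lib.MP_72e2e6_nt.PhStmt
import Pool.Agent.Lib.MP_72e2e6_nt.PqOneC

/-!
# MP_72e2e6_nt : an identity of Euler
-/

set_option autoImplicit false

namespace MP72e2e6

open Polynomial Filter Topology

/-- the terms -/
noncomputable def pheul_a (z : ℝ) (j : ℕ) : ℝ := (-z) ^ j / pqonec_pi 4 j

/-- the series -/
noncomputable def pheul_G (z : ℝ) : ℝ := ∑' j, pheul_a z j

theorem pheul_pi_ge (j : ℕ) : (3 : ℝ) ^ j ≤ pqonec_pi 4 j := by
  induction j with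
  | zero => simp [pqonec_pi]
  | succ j ih =>
    rw [pqonec_pi_succ, pow_succ]
    have h2 : (4 : ℝ) ≤ 4 ^ (j + 1) := by
      rw [pow_succ]
      have : (1 : ℝ) ≤ 4 ^ j := one_le_pow₀ (by norm_num)
      linarith
    exact mul_le_mul ih (by linarith) (by norm_num) ((pow_nonneg (by norm_num) j).trans ih)

theorem pheul_a_le {z : ℝ} (hz : 0 ≤ z) (j : ℕ) : ‖pheul_a z j‖ ≤ (z / 3) ^ j := by
  have hd := pheul_pi_ge j
  have hp : (0 : ℝ) < 3 ^ j := pow_pos (by norm_num) j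
  rw [Real.norm_eq_abs, pheul_a, abs_div, abs_pow, abs_neg, abs_of_nonneg hz,
    abs_of_pos (hp.trans_le hd), div_pow]
  exact div_le_div_of_nonneg_left (pow_nonneg hz j) hp hd

theorem pheul_summable {z : ℝ} (hz : 0 ≤ z) (hz2 : z ≤ 2) : Summable (pheul_a z) := by
  have hr0 : 0 ≤ z / 3 := by positivity
  have hr1 : z / 3 < 1 := by linarith
  exact Summable.of_norm_bounded (summable_geometric_of_lt_one hr0 hr1)
    fun j => pheul_a_le hz j

theorem pheul_step {z : ℝ} (hz : 0 ≤ z) (hz2 : z ≤ 2) :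
    pheul_G z = (1 - z * 4⁻¹) * pheul_G (z * 4⁻¹) := by
  have hxz : 0 ≤ z * 4⁻¹ := by positivity
  have hxz2 : z * 4⁻¹ ≤ 2 := by linarith
  have s1 := pheul_summable hz hz2
  have s2 := pheul_summable hxz hxz2
  have e1 : pheul_G z = pheul_a z 0 + ∑' j, pheul_a z (j + 1) := s1.tsum_eq_zero_add
  have e2 : pheul_G (z * 4⁻¹) = pheul_a (z * 4⁻¹) 0 + ∑' j, pheul_a (z * 4⁻¹) (j + 1) :=
    s2.tsum_eq_zero_add
  have e3 : ∑' j, pheul_a z (j + 1) - ∑' j, pheul_a (z * 4⁻¹) (j + 1) =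
      -(z * 4⁻¹) * pheul_G (z * 4⁻¹) := by
    rw [← ((summable_nat_add_iff 1).2 s1).tsum_sub ((summable_nat_add_iff 1).2 s2), pheul_G,
      ← tsum_mul_left]
    congr 1
    funext j
    have hd : pqonec_pi 4 j ≠ 0 := (pqonec_pi_pos (by norm_num) j).ne'
    have hd2 : (4 : ℝ) ^ (j + 1) - 1 ≠ 0 := by
      have : (1 : ℝ) < 4 ^ (j + 1) := one_lt_pow₀ (by norm_num) (by omega)
      linarith
    rw [pheul_a, pheul_a, pheul_a, pqonec_pi_succ]
    have e4 : (-(z * 4⁻¹)) ^ j = (-z) ^ j * (4⁻¹) ^ j := by rw [← mul_pow]; congr 1; ring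
    have e5 : (-(z * 4⁻¹)) ^ (j + 1) = (-z) ^ (j + 1) * (4⁻¹) ^ (j + 1) := by
      rw [← mul_pow]; congr 1; ring
    have e6 : (4 : ℝ) ^ (j + 1) * (4⁻¹) ^ (j + 1) = 1 := by
      rw [← mul_pow, mul_inv_cancel₀ (by norm_num), one_pow]
    rw [e4, e5, ← sub_div, div_eq_iff (mul_ne_zero hd hd2)]
    have e7 : -(z * 4⁻¹) * ((-z) ^ j * 4⁻¹ ^ j / pqonec_pi 4 j) *
        (pqonec_pi 4 j * (4 ^ (j + 1) - 1)) =
        -(z * 4⁻¹) * ((-z) ^ j * 4⁻¹ ^ j) * (4 ^ (j + 1) - 1) := by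
      field_simp
    rw [e7]
    have e8 : ((4 : ℝ)⁻¹) ^ (j + 1) = 4⁻¹ ^ j * 4⁻¹ := pow_succ _ _
    have e9 : (-z) ^ (j + 1) = (-z) ^ j * (-z) := pow_succ _ _
    rw [e8] at e6
    rw [e8, e9]
    linear_combination (z * (-z) ^ j) * e6
  have e4 : pheul_a z 0 = pheul_a (z * 4⁻¹) 0 := by simp [pheul_a]
  linarith

theorem pheul_iter {z : ℝ} (hz : 0 ≤ z) (hz2 : z ≤ 2) (N : ℕ) :
    pheul_G z = (∏ i ∈ Finset.range N, (1 - z * (4⁻¹) ^ (i + 1))) *
      pheul_G (z * (4⁻¹) ^ N) := by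
  induction N with
  | zero => simp
  | succ N ih =>
    have h1 : 0 ≤ z * (4⁻¹) ^ N := by positivity
    have h2 : z * (4⁻¹) ^ N ≤ 2 :=
      (mul_le_of_le_one_right hz (pow_le_one₀ (by norm_num) (by norm_num))).trans hz2
    have h3 := pheul_step h1 h2
    rw [Finset.prod_range_succ, mul_assoc, pow_succ, ← mul_assoc z, ← h3]
    exact ih

theorem pheul_near {y : ℝ} (hy : 0 ≤ y) (hy2 : y ≤ 2) : |pheul_G y - 1| ≤ y := by
  have s1 := pheul_summable hy hy2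
  have e1 : pheul_G y = pheul_a y 0 + ∑' j, pheul_a y (j + 1) := s1.tsum_eq_zero_add
  have e0 : pheul_a y 0 = 1 := by simp [pheul_a, pqonec_pi]
  rw [e1, e0, add_sub_cancel_left, ← Real.norm_eq_abs]
  have hg : HasSum (fun j : ℕ => y / 3 * (2 / 3 : ℝ) ^ j) (y / 3 * (1 - 2 / 3)⁻¹) :=
    (hasSum_geometric_of_lt_one (by norm_num) (by norm_num)).mul_left (y / 3)
  have hy3 : y / 3 * (1 - 2 / 3)⁻¹ = y := by norm_num
  rw [hy3] at hg
  refine tsum_of_norm_bounded hg fun j => ?_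
  refine (pheul_a_le hy (j + 1)).trans ?_
  rw [pow_succ, mul_comm]
  have hy0 : 0 ≤ y / 3 := by positivity
  exact mul_le_mul_of_nonneg_left (pow_le_pow_left₀ hy0 (by linarith) j) hy0

theorem pheul_G_eq {z : ℝ} (hz : 0 ≤ z) (hz2 : z ≤ 2) :
    pheul_G z = ∏' i : ℕ, (1 - z * (4⁻¹) ^ (i + 1)) := by
  have hm : Multipliable fun i : ℕ => (1 - z * (4⁻¹ : ℝ) ^ (i + 1)) := by
    have hs : Summable fun i : ℕ => -(z * (4⁻¹ : ℝ) ^ (i + 1)) := by
      apply Summable.neg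
      have h2 : Summable fun i : ℕ => z * 4⁻¹ * (4⁻¹ : ℝ) ^ i :=
        (summable_geometric_of_lt_one (by norm_num) (by norm_num)).mul_left _
      refine h2.congr fun i => ?_
      rw [pow_succ]
      ring
    have h3 := Real.multipliable_one_add_of_summable hs
    refine h3.congr fun i => ?_
    ring
  have t1 := hm.hasProd.tendsto_prod_nat
  have t3 : Tendsto (fun N : ℕ => pheul_G (z * (4⁻¹) ^ N)) atTop (𝓝 1) := by
    rw [tendsto_iff_dist_tendsto_zero]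
    have h4 : Tendsto (fun N : ℕ => z * (4⁻¹ : ℝ) ^ N) atTop (𝓝 0) := by
      have := (tendsto_pow_atTop_nhds_zero_of_lt_one (r := (4⁻¹ : ℝ)) (by norm_num)
        (by norm_num)).const_mul z
      rwa [mul_zero] at this
    refine squeeze_zero (fun N => dist_nonneg) (fun N => ?_) h4
    have h1 : 0 ≤ z * (4⁻¹ : ℝ) ^ N := by positivity
    have h2 : z * (4⁻¹ : ℝ) ^ N ≤ 2 :=
      (mul_le_of_le_one_right hz (pow_le_one₀ (by norm_num) (by norm_num))).trans hz2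
    rw [Real.dist_eq]
    exact pheul_near h1 h2
  have t5 := t1.mul t3
  have t6 : Tendsto (fun _ : ℕ => pheul_G z) atTop (𝓝 (pheul_G z)) := tendsto_const_nhds
  have t7 : Tendsto (fun _ : ℕ => pheul_G z) atTop
      (𝓝 ((∏' i : ℕ, (1 - z * (4⁻¹) ^ (i + 1))) * 1)) :=
    t5.congr fun N => (pheul_iter hz hz2 N).symm
  have h8 := tendsto_nhds_unique t6 t7
  rw [mul_one] at h8
  exact h8

theorem tPhEul : StmtPhEul := by
  intro z hz hz2 L hL η hη
  have hq1 : (1 : ℝ) < 4 := by norm_num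
  have hw : ∀ j, L (Eq_ 4 j) = (z ^ j / pqonec_pi 4 j) *
      ∏ i ∈ Finset.range j, ((4 : ℝ) ^ (i + 1) - 1) := by
    intro j
    rw [hL]
    have hd : pqonec_pi 4 j ≠ 0 := (pqonec_pi_pos hq1 j).ne'
    change z ^ j = z ^ j / pqonec_pi 4 j * pqonec_pi 4 j
    field_simp
  have hsum := (pheul_summable hz hz2).hasSum.tendsto_sum_nat
  have hG : (∑' j, pheul_a z j) = ∏' i : ℕ, (1 - z * (4⁻¹) ^ (i + 1)) := pheul_G_eq hz hz2
  rw [hG] at hsum
  obtain ⟨N, hN⟩ := (Metric.tendsto_atTop.1 hsum) η hη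
  have hLf : ∀ J, L (pqonec_f 4 J) = ∑ j ∈ Finset.range (J + 1), pheul_a z j := by
    intro J
    rw [pqonec_L hq1 L (fun j => z ^ j / pqonec_pi 4 j) hw]
    apply Finset.sum_congr rfl
    intro j _
    rw [pheul_a, neg_pow]
    ring
  have hb : ∀ J, N ≤ J + 1 →
      |L (pqonec_f 4 J) - ∏' i : ℕ, (1 - z * (4⁻¹) ^ (i + 1))| < η := by
    intro J hJ
    have h2 := hN (J + 1) hJ
    rw [Real.dist_eq] at h2
    rw [hLf]
    exact h2
  refine ⟨pqonec_f 4 (2 * N + 1), pqonec_f 4 (2 * N), fun r => ⟨pqonec_odd hq1 N r,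
    pqonec_even hq1 N r⟩, ?_, ?_⟩
  · have := abs_lt.1 (hb (2 * N + 1) (by omega))
    linarith [this.1]
  · have := abs_lt.1 (hb (2 * N) (by omega))
    linarith [this.2]

end MP72e2e6
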