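import Pool.Agent.Lib.MP_72e2e6_nt.PqStmt

/-!
# MP_72e2e6_nt: the exact moments, module PqFM
-/

set_option autoImplicit false

namespace MP72e2e6

open Polynomial

universe u

/-- The trivial system: the number of solutions. -/
theorem pqfm_sol {F : Type u} [Field F] {ℓ : ℕ} {V W : Type} [Fintype V] [AddCommGroup W]
    [Module (ZMod ℓ) W] [Subsingleton W] (χ : F → ZMod ℓ) (pr : V → F[X])
    (σ : V → Module.End (ZMod ℓ) W) (Λ : Module.End (ZMod ℓ) W) (t : Finset F[X]) :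
    nSol χ pr σ Λ t = 1 := by
  have h1 : SolW χ pr σ Λ t (fun _ => 0) (fun _ => 0) :=
    ⟨Subsingleton.elim _ _, fun _ => Subsingleton.elim _ _, fun _ => Subsingleton.elim _ _⟩
  rw [nSol, Nat.card_eq_one_iff_unique]
  refine ⟨⟨fun x y => Subtype.ext (Subsingleton.elim _ _)⟩, ⟨⟨(fun _ => 0, fun _ => 0), h1⟩⟩⟩

/-- The trivial system: the limit. -/
theorem pqfm_mu {ℓ : ℕ} {V W : Type} [AddCommGroup W] [Module (ZMod ℓ) W] [Subsingleton W]
    (σ : V → Module.End (ZMod ℓ) W) (Λ : Module.End (ZMod ℓ) W) : muW σ Λ = 1 := by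
  have h0 : Inv σ Λ (⊥ : Submodule (ZMod ℓ) W) := by
    refine ⟨fun v y hy => ?_, fun y hy => ?_⟩
    · rw [Submodule.mem_bot] at hy ⊢
      rw [hy, map_zero]
    · rw [Submodule.mem_bot] at hy ⊢
      rw [hy, map_zero]
  have h1 : ∀ A B : Submodule (ZMod ℓ) W, A = B := by
    intro A B
    apply Submodule.ext
    intro x
    have hx : x = 0 := Subsingleton.elim _ _
    rw [hx]
    exact ⟨fun _ => B.zero_mem, fun _ => A.zero_mem⟩
  rw [muW, finsum_eq_single _ (⟨⊥, h0⟩ : {A : Submodule (ZMod ℓ) W // Inv σ Λ A})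
    (fun A hA => absurd (Subtype.ext (h1 _ _)) hA), Nat.card_eq_one_iff_unique]
  refine ⟨⟨fun x y => Subtype.ext ?_⟩, ⟨⟨0, fun x y _ => rfl⟩⟩⟩
  apply LinearMap.ext
  intro z
  have hz : z = 0 := Subsingleton.elim _ _
  rw [hz, map_zero, map_zero]

open Classical in
theorem tPqFM.{v} (hSuRec : StmtSuRec.{v}) (hPpTS : StmtPpTS) (hPpCol : StmtPpCol.{v})
    (hPpAn : StmtPpAn.{v}) (hPqMT : StmtPqMT.{v}) (hPpFou : StmtPpFou.{v}) : StmtPqFM.{v} := by
  intro F _ _ ℓ hFact hℓ2 hq χ hχ V W _ _ _ _ pr hpr σ Λ hyp ε hε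
  have hℓ : ℓ.Prime := hFact.out
  have : NeZero ℓ := ⟨hℓ.ne_zero⟩
  have hrcp : Rcp χ := fun P Q hP hPi hQ hQi hne =>
    hSuRec F ℓ hℓ hℓ2 hq χ hχ P Q hP hPi hQ hQi hne
  have hsym : ∀ v v', syl χ (pr v) (pr v') = syl χ (pr v') (pr v) := by
    intro v v'
    by_cases h : v = v'
    · rw [h]
    · exact hrcp _ _ (hpr.monic v) (hpr.irr v) (hpr.monic v') (hpr.irr v') fun h' =>
        h (hpr.inj h')
  rcases subsingleton_or_nontrivial W with hsub | hnt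
  · refine ⟨0, fun n _ _ => ?_⟩
    rw [pqfm_mu, Finset.sum_congr rfl fun t _ => by rw [pqfm_sol, Nat.cast_one],
      Finset.sum_const, nsmul_eq_mul, mul_one, Nat.cast_one, one_mul, sub_self, abs_zero]
    positivity
  let iW : Fintype W := Fintype.ofFinite W
  have hfd : Finite (Module.Dual (ZMod ℓ) W) := DFunLike.finite _
  let iD : Fintype (Module.Dual (ZMod ℓ) W) := Fintype.ofFinite _
  have hN : 2 ≤ Fintype.card W := Fintype.one_lt_card
  have hUnl : Unl (BW : W × Module.Dual (ZMod ℓ) W → W × Module.Dual (ZMod ℓ) W → ZMod ℓ)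
      (Fintype.card W) := by
    refine ⟨fun w => ?_, hN, fun 𝓥 h => ?_⟩
    · simp [BW]
    · have h1 := (hPpTS ℓ W 𝓥 h).1
      rwa [Nat.card_eq_fintype_card] at h1
  -- the number of triples
  set K : ℕ := Fintype.card ((V → W) × (V → Module.Dual (ZMod ℓ) W) × Module.Dual (ZMod ℓ) W)
    with hK
  have hK0 : 0 < K := Fintype.card_pos
  have hε' : 0 < ε / K := div_pos hε (by exact_mod_cast hK0)
  have key := fun x : (V → W) × (V → Module.Dual (ZMod ℓ) W) × Module.Dual (ZMod ℓ) W =>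
    hPpAn F ℓ hℓ hℓ2 hq χ hχ hrcp V (W × Module.Dual (ZMod ℓ) W) pr hpr (alW σ x.1 x.2.1)
      (aiW Λ x.2.2) BW (Fintype.card W) hUnl (ε / K) hε'
  choose N₀ hN₀ using key
  refine ⟨Finset.univ.sup N₀, fun n hn hI => ?_⟩
  have hn' : ∀ x, N₀ x ≤ n := fun x => (Finset.le_sup (Finset.mem_univ x)).trans hn
  set s1 : ℕ := Fintype.card V + 1 with hs1
  set g : ℂ := ((gs F pr n).card : ℂ) with hg
  let θ : (V → W) × (V → Module.Dual (ZMod ℓ) W) × Module.Dual (ZMod ℓ) W → ℂ := fun x =>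
    ZMod.stdAddChar (thW χ pr σ Λ x.1 x.2.1 x.2.2)
  let T : (V → W) × (V → Module.Dual (ZMod ℓ) W) × Module.Dual (ZMod ℓ) W → ℂ := fun x =>
    TT χ pr (alW σ x.1 x.2.1) (aiW Λ x.2.2) BW (Fintype.card W) n
  let M : (V → W) × (V → Module.Dual (ZMod ℓ) W) × Module.Dual (ZMod ℓ) W → ℂ := fun x =>
    ∑ 𝓥 ∈ (Finset.univ : Finset (Finset (W × Module.Dual (ZMod ℓ) W))).filter
        (Adm BW (Fintype.card W) (alW σ x.1 x.2.1) (aiW Λ x.2.2)),
      ((Fintype.card W : ℂ)⁻¹ *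
        ∑ w ∈ 𝓥, ZMod.stdAddChar (aiW Λ x.2.2 w * (n : ZMod ℓ)))
  have hθ : ∀ x, ‖θ x‖ = 1 := fun x => AddChar.norm_apply _ _
  -- the sum over the sets of primes
  have h1 : (∑ t ∈ gs F pr n, (nSol χ pr σ Λ t : ℂ)) * (Fintype.card W : ℂ) ^ s1 =
      ∑ x, θ x * T x := by
    rw [Finset.sum_mul]
    rw [Finset.sum_congr rfl fun t ht => hPpFou F ℓ hℓ hℓ2 hq χ hχ V W pr hpr σ Λ n t ht]
    have h2 : ∀ t : Finset F[X], ∑ c : V → W, ∑ d : V → Module.Dual (ZMod ℓ) W,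
        ∑ η : Module.Dual (ZMod ℓ) W, ZMod.stdAddChar (thW χ pr σ Λ c d η) *
          ∑ g : t → W × Module.Dual (ZMod ℓ) W,
            wgt χ pr (alW σ c d) (aiW Λ η) BW (Fintype.card W) (fib t g) =
        ∑ x : (V → W) × (V → Module.Dual (ZMod ℓ) W) × Module.Dual (ZMod ℓ) W,
          θ x * ∑ g : t → W × Module.Dual (ZMod ℓ) W,
            wgt χ pr (alW σ x.1 x.2.1) (aiW Λ x.2.2) BW (Fintype.card W) (fib t g) := by
      intro t
      rw [Fintype.sum_prod_type]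
      refine Finset.sum_congr rfl fun c _ => ?_
      rw [Fintype.sum_prod_type]
    rw [Finset.sum_congr rfl fun t _ => h2 t, Finset.sum_comm]
    refine Finset.sum_congr rfl fun x _ => ?_
    rw [← Finset.mul_sum]
    congr 1
    exact hPpCol.2 F ℓ χ V (W × Module.Dual (ZMod ℓ) W) pr (alW σ x.1 x.2.1) (aiW Λ x.2.2) BW
      (Fintype.card W) n
  have h2 : ∑ x, θ x * T x = (∑ x, θ x * M x) * g + ∑ x, θ x * (T x - M x * g) := by
    rw [Finset.sum_mul, ← Finset.sum_add_distrib]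
    exact Finset.sum_congr rfl fun x _ => by ring
  have h3 : ∑ x, θ x * M x = (Fintype.card W : ℂ) ^ s1 * (muW σ Λ : ℂ) := by
    have h4 := hPqMT F ℓ hℓ2 V W χ pr σ Λ hyp hsym n hI
    have h5 : ∑ c : V → W, ∑ d : V → Module.Dual (ZMod ℓ) W, ∑ η : Module.Dual (ZMod ℓ) W,
      ZMod.stdAddChar (thW χ pr σ Λ c d η) *
        ∑ 𝓥 ∈ (Finset.univ : Finset (Finset (W × Module.Dual (ZMod ℓ) W))).filter
            (Adm BW (Fintype.card W) (alW σ c d) (aiW Λ η)),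
          ((Fintype.card W : ℂ)⁻¹ *
            ∑ w ∈ 𝓥, ZMod.stdAddChar (aiW Λ η w * (n : ZMod ℓ))) = ∑ x, θ x * M x := by
      rw [Fintype.sum_prod_type]
      refine Finset.sum_congr rfl fun c _ => ?_
      rw [Fintype.sum_prod_type]
    rw [h5] at h4
    exact h4
  have h4 : ‖∑ x, θ x * (T x - M x * g)‖ ≤ ε * (Nat.card F : ℝ) ^ n := by
    refine (norm_sum_le _ _).trans ?_
    have h5 : ∀ x, ‖θ x * (T x - M x * g)‖ ≤ ε / K * (Nat.card F : ℝ) ^ n := by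
      intro x
      rw [norm_mul, hθ, one_mul]
      exact hN₀ x n (hn' x)
    refine (Finset.sum_le_sum fun x _ => h5 x).trans (le_of_eq ?_)
    rw [Finset.sum_const, Finset.card_univ, ← hK, nsmul_eq_mul]
    have hK1 : (K : ℝ) ≠ 0 := by exact_mod_cast hK0.ne'
    field_simp
  have h6 : (1 : ℝ) ≤ (Fintype.card W : ℝ) ^ s1 := by
    refine one_le_pow₀ ?_
    exact_mod_cast (show 1 ≤ Fintype.card W by omega)
  have h5 : |∑ t ∈ gs F pr n, (nSol χ pr σ Λ t : ℝ) -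
      (muW σ Λ : ℝ) * ((gs F pr n).card : ℝ)| * (Fintype.card W : ℝ) ^ s1 ≤
        ε * (Nat.card F : ℝ) ^ n := by
    have h7 : |∑ t ∈ gs F pr n, (nSol χ pr σ Λ t : ℝ) -
        (muW σ Λ : ℝ) * ((gs F pr n).card : ℝ)| * (Fintype.card W : ℝ) ^ s1 =
        ‖((∑ t ∈ gs F pr n, (nSol χ pr σ Λ t : ℂ)) - (muW σ Λ : ℂ) * g) *
          (Fintype.card W : ℂ) ^ s1‖ := by
      rw [norm_mul, norm_pow, Complex.norm_natCast]
      congr 1
      rw [hg]
      have h8 : (∑ t ∈ gs F pr n, (nSol χ pr σ Λ t : ℂ)) -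
          (muW σ Λ : ℂ) * ((gs F pr n).card : ℂ) =
          ((∑ t ∈ gs F pr n, (nSol χ pr σ Λ t : ℝ) -
            (muW σ Λ : ℝ) * ((gs F pr n).card : ℝ) : ℝ) : ℂ) := by
        push_cast
        rfl
      rw [h8, Complex.norm_real, Real.norm_eq_abs]
    rw [h7]
    have h8 : ((∑ t ∈ gs F pr n, (nSol χ pr σ Λ t : ℂ)) - (muW σ Λ : ℂ) * g) *
        (Fintype.card W : ℂ) ^ s1 = ∑ x, θ x * (T x - M x * g) := by
      rw [sub_mul, h1, h2, h3]
      ring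
    rw [h8]
    exact h4
  have h7 : |∑ t ∈ gs F pr n, (nSol χ pr σ Λ t : ℝ) -
      (muW σ Λ : ℝ) * ((gs F pr n).card : ℝ)| * 1 ≤
      |∑ t ∈ gs F pr n, (nSol χ pr σ Λ t : ℝ) -
      (muW σ Λ : ℝ) * ((gs F pr n).card : ℝ)| * (Fintype.card W : ℝ) ^ s1 :=
    mul_le_mul_of_nonneg_left h6 (abs_nonneg _)
  rw [mul_one] at h7
  exact h7.trans h5

end MP72e2e6
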