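import Pool.Agent.Lib.MP_72e2e6_nt.PhStmt
import Pool.Agent.Lib.MP_72e2e6_nt.PqFM

/-!
# MP_72e2e6_nt: the exact moments for `ℓ = 2`, module PhFM

A proof of `StmtPhFM`: the average number of solutions of a finite system over `ZMod 2` tends to
`muB`.
-/

set_option autoImplicit false

namespace MP72e2e6

open Polynomial

universe u

/-- The trivial system: the limit. -/
theorem phfm_mu {F : Type u} [Field F] {V W : Type} [Fintype V] [AddCommGroup W]
    [Module (ZMod 2) W] [Subsingleton W] (χ : F → ZMod 2) (pr : V → F[X])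
    (σ : V → Module.End (ZMod 2) W) (Λ : Module.End (ZMod 2) W) : muB χ pr σ Λ = 1 := by
  have h0 : Inv σ Λ (⊥ : Submodule (ZMod 2) W) := by
    refine ⟨fun v y hy => ?_, fun y hy => ?_⟩
    · rw [Submodule.mem_bot] at hy ⊢
      rw [hy, map_zero]
    · rw [Submodule.mem_bot] at hy ⊢
      rw [hy, map_zero]
  have h1 : ∀ A B : Submodule (ZMod 2) W, A = B := by
    intro A B
    apply Submodule.ext
    intro x
    have hx : x = 0 := Subsingleton.elim _ _
    rw [hx]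
    exact ⟨fun _ => B.zero_mem, fun _ => A.zero_mem⟩
  have hz : ∀ (φ : Module.Dual (ZMod 2) W) (x : W), φ x = 0 := by
    intro φ x
    have hx : x = 0 := Subsingleton.elim _ _
    rw [hx, map_zero]
  rw [muB, finsum_eq_single _ (⟨⊥, h0⟩ : {A : Submodule (ZMod 2) W // Inv σ Λ A})
    (fun A hA => absurd (Subtype.ext (h1 _ _)) hA), Nat.card_eq_one_iff_unique]
  refine ⟨⟨fun x y => Subtype.ext ?_⟩, ⟨⟨0, ⟨fun x => rfl, fun x y x' y' _ => rfl⟩, ?_⟩⟩⟩
  · apply LinearMap.ext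
    intro z
    have hz : z = 0 := Subsingleton.elim _ _
    rw [hz, map_zero, map_zero]
  · intro δ c d η _
    rw [thW, hz, zero_add]
    exact Finset.sum_eq_zero fun v _ => hz _ _

open Classical in
theorem tPhFM.{v} (hPpTS : StmtPpTS) (hPpCol : StmtPpCol.{v}) (hPeAn : StmtPeAn.{v})
    (hPhMT : StmtPhMT.{v}) (hPeFou : StmtPeFou.{v}) : StmtPhFM.{v} := by
  intro F _ _ hq4 hq χ hχ hrcp V W _ _ _ _ pr hpr σ Λ hyp ε hε
  have hsym : ∀ v v', syl χ (pr v) (pr v') = syl χ (pr v') (pr v) := by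
    intro v v'
    by_cases h : v = v'
    · rw [h]
    · exact hrcp _ _ (hpr.monic v) (hpr.irr v) (hpr.monic v') (hpr.irr v') fun h' =>
        h (hpr.inj h')
  rcases subsingleton_or_nontrivial W with hsub | hnt
  · refine ⟨0, fun n _ _ => ?_⟩
    rw [phfm_mu, Finset.sum_congr rfl fun t _ => by rw [pqfm_sol, Nat.cast_one],
      Finset.sum_const, nsmul_eq_mul, mul_one, Nat.cast_one, one_mul, sub_self, abs_zero]
    positivity
  let iW : Fintype W := Fintype.ofFinite W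
  have hfd : Finite (Module.Dual (ZMod 2) W) := DFunLike.finite _
  let iD : Fintype (Module.Dual (ZMod 2) W) := Fintype.ofFinite _
  have hN : 2 ≤ Fintype.card W := Fintype.one_lt_card
  have hUnl : Unl (BW : W × Module.Dual (ZMod 2) W → W × Module.Dual (ZMod 2) W → ZMod 2)
      (Fintype.card W) := by
    refine ⟨fun w => ?_, hN, fun 𝓥 h => ?_⟩
    · simp [BW]
    · have h1 := (hPpTS 2 W 𝓥 h).1
      rwa [Nat.card_eq_fintype_card] at h1
  -- the number of triples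
  set K : ℕ := Fintype.card ((V → W) × (V → Module.Dual (ZMod 2) W) × Module.Dual (ZMod 2) W)
    with hK
  have hK0 : 0 < K := Fintype.card_pos
  have hε' : 0 < ε / K := div_pos hε (by exact_mod_cast hK0)
  have key := fun x : (V → W) × (V → Module.Dual (ZMod 2) W) × Module.Dual (ZMod 2) W =>
    hPeAn F hq4 hq χ hχ hrcp V (W × Module.Dual (ZMod 2) W) pr hpr (alW σ x.1 x.2.1)
      (aiW Λ x.2.2) BW (Fintype.card W) hUnl (ε / K) hε'
  choose N₀ hN₀ using key
  refine ⟨Finset.univ.sup N₀, fun n hn hI => ?_⟩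
  have hn' : ∀ x, N₀ x ≤ n := fun x => (Finset.le_sup (Finset.mem_univ x)).trans hn
  set s1 : ℕ := Fintype.card V + 1 with hs1
  set g : ℂ := ((gs F pr n).card : ℂ) with hg
  let θ : (V → W) × (V → Module.Dual (ZMod 2) W) × Module.Dual (ZMod 2) W → ℂ := fun x =>
    ZMod.stdAddChar (thW χ pr σ Λ x.1 x.2.1 x.2.2)
  let T : (V → W) × (V → Module.Dual (ZMod 2) W) × Module.Dual (ZMod 2) W → ℂ := fun x =>
    TT χ pr (alW σ x.1 x.2.1) (aiW Λ x.2.2) BW (Fintype.card W) n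
  let M : (V → W) × (V → Module.Dual (ZMod 2) W) × Module.Dual (ZMod 2) W → ℂ := fun x =>
    ∑ 𝓥 ∈ (Finset.univ : Finset (Finset (W × Module.Dual (ZMod 2) W))).filter
        (Adm BW (Fintype.card W) (alW σ x.1 x.2.1) (aiW Λ x.2.2)),
      ((Fintype.card W : ℂ)⁻¹ *
        ∑ w ∈ 𝓥, ZMod.stdAddChar (aiW Λ x.2.2 w * (n : ZMod 2)))
  have hθ : ∀ x, ‖θ x‖ = 1 := fun x => AddChar.norm_apply _ _
  -- the sum over the sets of primes
  have h1 : (∑ t ∈ gs F pr n, (nSol χ pr σ Λ t : ℂ)) * (Fintype.card W : ℂ) ^ s1 =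
      ∑ x, θ x * T x := by
    rw [Finset.sum_mul]
    rw [Finset.sum_congr rfl fun t ht => hPeFou F hq χ hχ hrcp V W pr hpr σ Λ n t ht]
    have h2 : ∀ t : Finset F[X], ∑ c : V → W, ∑ d : V → Module.Dual (ZMod 2) W,
        ∑ η : Module.Dual (ZMod 2) W, ZMod.stdAddChar (thW χ pr σ Λ c d η) *
          ∑ g : t → W × Module.Dual (ZMod 2) W,
            wgt χ pr (alW σ c d) (aiW Λ η) BW (Fintype.card W) (fib t g) =
        ∑ x : (V → W) × (V → Module.Dual (ZMod 2) W) × Module.Dual (ZMod 2) W,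
          θ x * ∑ g : t → W × Module.Dual (ZMod 2) W,
            wgt χ pr (alW σ x.1 x.2.1) (aiW Λ x.2.2) BW (Fintype.card W) (fib t g) := by
      intro t
      rw [Fintype.sum_prod_type]
      refine Finset.sum_congr rfl fun c _ => ?_
      rw [Fintype.sum_prod_type]
    rw [Finset.sum_congr rfl fun t _ => h2 t, Finset.sum_comm]
    refine Finset.sum_congr rfl fun x _ => ?_
    rw [← Finset.mul_sum]
    congr 1
    exact hPpCol.2 F 2 χ V (W × Module.Dual (ZMod 2) W) pr (alW σ x.1 x.2.1) (aiW Λ x.2.2) BW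
      (Fintype.card W) n
  have h2 : ∑ x, θ x * T x = (∑ x, θ x * M x) * g + ∑ x, θ x * (T x - M x * g) := by
    rw [Finset.sum_mul, ← Finset.sum_add_distrib]
    exact Finset.sum_congr rfl fun x _ => by ring
  have h3 : ∑ x, θ x * M x = (Fintype.card W : ℂ) ^ s1 * (muB χ pr σ Λ : ℂ) := by
    have h4 := hPhMT F V W χ pr σ Λ hyp hsym n hI
    have h5 : ∑ c : V → W, ∑ d : V → Module.Dual (ZMod 2) W, ∑ η : Module.Dual (ZMod 2) W,
      ZMod.stdAddChar (thW χ pr σ Λ c d η) *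
        ∑ 𝓥 ∈ (Finset.univ : Finset (Finset (W × Module.Dual (ZMod 2) W))).filter
            (Adm BW (Fintype.card W) (alW σ c d) (aiW Λ η)),
          ((Fintype.card W : ℂ)⁻¹ *
            ∑ w ∈ 𝓥, ZMod.stdAddChar (aiW Λ η w * (n : ZMod 2))) = ∑ x, θ x * M x := by
      rw [Fintype.sum_prod_type]
      refine Finset.sum_congr rfl fun c _ => ?_
      rw [Fintype.sum_prod_type]
    rw [h5] at h4
    exact h4
  have h4 : ‖∑ x, θ x * (T x - M x * g)‖ ≤ ε * (Nat.card F : ℝ) ^ n := by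
    refine (norm_sum_le _ _).trans ?_
    have h5 : ∀ x, ‖θ x * (T x - M x * g)‖ ≤ ε / K * (Nat.card F : ℝ) ^ n := by
      intro x
      rw [norm_mul, hθ, one_mul]
      exact hN₀ x n (hn' x)
    refine (Finset.sum_le_sum fun x _ => h5 x).trans (le_of_eq ?_)
    rw [Finset.sum_const, Finset.card_univ, ← hK, nsmul_eq_mul]
    have hK1 : (K : ℝ) ≠ 0 := by exact_mod_cast hK0.ne'
    field_simp
  have h6 : (1 : ℝ) ≤ (Fintype.card W : ℝ) ^ s1 := by
    refine one_le_pow₀ ?_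
    exact_mod_cast (show 1 ≤ Fintype.card W by omega)
  have h5 : |∑ t ∈ gs F pr n, (nSol χ pr σ Λ t : ℝ) -
      (muB χ pr σ Λ : ℝ) * ((gs F pr n).card : ℝ)| * (Fintype.card W : ℝ) ^ s1 ≤
        ε * (Nat.card F : ℝ) ^ n := by
    have h7 : |∑ t ∈ gs F pr n, (nSol χ pr σ Λ t : ℝ) -
        (muB χ pr σ Λ : ℝ) * ((gs F pr n).card : ℝ)| * (Fintype.card W : ℝ) ^ s1 =
        ‖((∑ t ∈ gs F pr n, (nSol χ pr σ Λ t : ℂ)) - (muB χ pr σ Λ : ℂ) * g) *
          (Fintype.card W : ℂ) ^ s1‖ := by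
      rw [norm_mul, norm_pow, Complex.norm_natCast]
      congr 1
      rw [hg]
      have h8 : (∑ t ∈ gs F pr n, (nSol χ pr σ Λ t : ℂ)) -
          (muB χ pr σ Λ : ℂ) * ((gs F pr n).card : ℂ) =
          ((∑ t ∈ gs F pr n, (nSol χ pr σ Λ t : ℝ) -
            (muB χ pr σ Λ : ℝ) * ((gs F pr n).card : ℝ) : ℝ) : ℂ) := by
        push_cast
        rfl
      rw [h8, Complex.norm_real, Real.norm_eq_abs]
    rw [h7]
    have h8 : ((∑ t ∈ gs F pr n, (nSol χ pr σ Λ t : ℂ)) - (muB χ pr σ Λ : ℂ) * g) *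
        (Fintype.card W : ℂ) ^ s1 = ∑ x, θ x * (T x - M x * g) := by
      rw [sub_mul, h1, h2, h3]
      ring
    rw [h8]
    exact h4
  have h7 : |∑ t ∈ gs F pr n, (nSol χ pr σ Λ t : ℝ) -
      (muB χ pr σ Λ : ℝ) * ((gs F pr n).card : ℝ)| * 1 ≤
      |∑ t ∈ gs F pr n, (nSol χ pr σ Λ t : ℝ) -
      (muB χ pr σ Λ : ℝ) * ((gs F pr n).card : ℝ)| * (Fintype.card W : ℝ) ^ s1 :=
    mul_le_mul_of_nonneg_left h6 (abs_nonneg _)
  rw [mul_one] at h7
  exact h7.trans h5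

end MP72e2e6
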