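import Pool.Agent.Lib.MP_72e2e6_nt.PqA4

/-!
# MP_72e2e6_nt: exact moments, the main term (PqMT)
-/

namespace MP72e2e6

open Polynomial

universe u

section

variable {ℓ : ℕ} [Fact ℓ.Prime] {V W : Type} [AddCommGroup W] [Module (ZMod ℓ) W]

theorem pqmt_finite {M M' : Type} [AddCommGroup M] [Module (ZMod ℓ) M] [AddCommGroup M']
    [Module (ZMod ℓ) M'] [Finite M] [Finite M'] : Finite (M →ₗ[ZMod ℓ] M') :=
  Finite.of_injective (fun f : M →ₗ[ZMod ℓ] M' => (f : M → M')) DFunLike.coe_injective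

theorem pqmt_first (h1 : StmtPqA1) (h2 : ℓ ≠ 2) [Fintype W] {σ : V → Module.End (ZMod ℓ) W}
    {Λ : Module.End (ZMod ℓ) W} (hinj : ∀ v y, σ v y = 0 → y = 0)
    {c : V → W} {d : V → Module.Dual (ZMod ℓ) W} {η : Module.Dual (ZMod ℓ) W}
    {𝓥 : Finset (W × Module.Dual (ZMod ℓ) W)}
    (hA : Adm BW (Fintype.card W) (alW σ c d) (aiW Λ η) 𝓥) (hZ : ∃ u ∈ 𝓥, u.1 = 0) :
    ∃ A : Submodule (ZMod ℓ) W, Inv σ Λ A ∧ ∃ g ∈ SkA σ Λ A, ∃ δ, CdA σ Λ A g δ c d η ∧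
      ∀ u, u ∈ 𝓥 ↔ Vst A g δ u := by
  obtain ⟨A, hI, h | ⟨c₀, hc₀, -, hu⟩⟩ := h1 ℓ h2 V W σ Λ hinj c d η 𝓥 hA
  · exact ⟨A, hI, h⟩
  · exfalso
    obtain ⟨u, hu1, hu2⟩ := hZ
    have h3 := hu u hu1
    rw [hu2, zero_sub] at h3
    exact hc₀ (neg_neg c₀ ▸ A.neg_mem h3)

theorem pqmt_mem (A : Submodule (ZMod ℓ) W) (g : A →ₗ[ZMod ℓ] Module.Dual (ZMod ℓ) A)
    (δ : Module.Dual (ZMod ℓ) A) (x : A) :
    ∃ f : Module.Dual (ZMod ℓ) W, (∀ y : A, f y = δ y + g x y) ∧ Vst A g δ ((x : W), f) := by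
  obtain ⟨s, hs⟩ := pqa4_section A
  refine ⟨s (δ + g x), fun y => ?_, x, rfl, fun y => ?_⟩
  · rw [hs, LinearMap.add_apply]
  · show s (δ + g x) (y : W) = _
    rw [hs, LinearMap.add_apply]

theorem pqmt_le {A A' : Submodule (ZMod ℓ) W} {g : A →ₗ[ZMod ℓ] Module.Dual (ZMod ℓ) A}
    {δ : Module.Dual (ZMod ℓ) A} {g' : A' →ₗ[ZMod ℓ] Module.Dual (ZMod ℓ) A'}
    {δ' : Module.Dual (ZMod ℓ) A'} (h : ∀ u, Vst A g δ u → Vst A' g' δ' u) : A ≤ A' := by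
  intro x hx
  obtain ⟨f, -, hf⟩ := pqmt_mem A g δ ⟨x, hx⟩
  obtain ⟨x', hx', -⟩ := h _ hf
  have h3 : (x' : W) = x := hx'
  rw [← h3]
  exact x'.2

theorem pqmt_eq {A : Submodule (ZMod ℓ) W} {g g' : A →ₗ[ZMod ℓ] Module.Dual (ZMod ℓ) A}
    {δ δ' : Module.Dual (ZMod ℓ) A} (h : ∀ u, Vst A g δ u → Vst A g' δ' u) :
    δ = δ' ∧ g = g' := by
  have h1 : ∀ x y : A, δ y + g x y = δ' y + g' x y := by
    intro x y
    obtain ⟨f, hf1, hf⟩ := pqmt_mem A g δ x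
    obtain ⟨x', hx', hf2⟩ := h _ hf
    have h3 : x' = x := Subtype.ext hx'
    have h4 : f (y : W) = δ' y + g' x' y := hf2 y
    rw [← hf1, h4, h3]
  have h2 : δ = δ' := by
    ext y
    have h3 := h1 0 y
    rw [map_zero, map_zero, LinearMap.zero_apply, add_zero, add_zero] at h3
    exact h3
  refine ⟨h2, ?_⟩
  ext x y
  have h3 := h1 x y
  rw [h2] at h3
  exact add_left_cancel h3

end

open Classical in
/-- the number of the tuples -/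
theorem pqmt_count (h1 : StmtPqA1) (h3 : StmtPqA3.{u}) (h4 : StmtPqA4) (F : Type u) [Field F]
    (ℓ : ℕ) [Fact ℓ.Prime] (h2 : ℓ ≠ 2) (V W : Type) [Fintype V]
    [AddCommGroup W] [Module (ZMod ℓ) W] [Fintype W] [Fintype (Module.Dual (ZMod ℓ) W)]
    (χ : F → ZMod ℓ) (pr : V → F[X]) (σ : V → Module.End (ZMod ℓ) W)
    (Λ : Module.End (ZMod ℓ) W) (hyp : HypW χ pr σ Λ)
    (hsym : ∀ v v', syl χ (pr v) (pr v') = syl χ (pr v') (pr v)) :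
    Nat.card {y : (V → W) × (V → Module.Dual (ZMod ℓ) W) × Module.Dual (ZMod ℓ) W ×
        Finset (W × Module.Dual (ZMod ℓ) W) //
      Adm BW (Fintype.card W) (alW σ y.1 y.2.1) (aiW Λ y.2.2.1) y.2.2.2 ∧
        ∃ u ∈ y.2.2.2, u.1 = 0} =
      Fintype.card W ^ (Fintype.card V + 1) * muW σ Λ := by
  have hfinA : Finite {A : Submodule (ZMod ℓ) W // Inv σ Λ A} :=
    Finite.of_injective (fun A : {A : Submodule (ZMod ℓ) W // Inv σ Λ A} => (A.1 : Set W))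
      fun A B h => Subtype.ext (SetLike.coe_injective h)
  haveI := Fintype.ofFinite {A : Submodule (ZMod ℓ) W // Inv σ Λ A}
  have hfinD : ∀ A : Submodule (ZMod ℓ) W, Finite (Module.Dual (ZMod ℓ) A) := fun A =>
    pqmt_finite
  have hfinG : ∀ A : Submodule (ZMod ℓ) W, Finite (SkA σ Λ A) := by
    intro A
    haveI := hfinD A
    haveI : Finite (A →ₗ[ZMod ℓ] Module.Dual (ZMod ℓ) A) := pqmt_finite
    exact Finite.of_injective (fun g : SkA σ Λ A => g.1) Subtype.val_injective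
  haveI hfinG' : ∀ A : {A : Submodule (ZMod ℓ) W // Inv σ Λ A}, Finite (SkA σ Λ A.1) :=
    fun A => hfinG A.1
  haveI : ∀ A : {A : Submodule (ZMod ℓ) W // Inv σ Λ A}, Fintype (SkA σ Λ A.1) :=
    fun A => Fintype.ofFinite _
  let β : (A : {A : Submodule (ZMod ℓ) W // Inv σ Λ A}) → SkA σ Λ A.1 → Type := fun A g =>
    {x : Module.Dual (ZMod ℓ) A.1 × (V → W) × (V → Module.Dual (ZMod ℓ) W) ×
        Module.Dual (ZMod ℓ) W // CdA σ Λ A.1 g.1 x.1 x.2.1 x.2.2.1 x.2.2.2}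
  haveI hfinβ : ∀ A g, Finite (β A g) := by
    intro A g
    haveI := hfinD A.1
    exact Subtype.finite
  let T2 : Type := Σ A : {A : Submodule (ZMod ℓ) W // Inv σ Λ A}, Σ g : SkA σ Λ A.1, β A g
  let Vs' : (A : Submodule (ZMod ℓ) W) → (A →ₗ[ZMod ℓ] Module.Dual (ZMod ℓ) A) →
      Module.Dual (ZMod ℓ) A → Finset (W × Module.Dual (ZMod ℓ) W) := fun A g δ =>
    Finset.univ.filter (Vst A g δ)
  have hVs : ∀ A g δ u, u ∈ Vs' A g δ ↔ Vst A g δ u := by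
    intro A g δ u
    rw [Finset.mem_filter]
    exact and_iff_right (Finset.mem_univ u)
  let Φ : T2 → {y : (V → W) × (V → Module.Dual (ZMod ℓ) W) × Module.Dual (ZMod ℓ) W ×
        Finset (W × Module.Dual (ZMod ℓ) W) //
      Adm BW (Fintype.card W) (alW σ y.1 y.2.1) (aiW Λ y.2.2.1) y.2.2.2 ∧
        ∃ u ∈ y.2.2.2, u.1 = 0} := fun t =>
    ⟨(t.2.2.1.2.1, t.2.2.1.2.2.1, t.2.2.1.2.2.2, Vs' t.1.1 t.2.1.1 t.2.2.1.1), by
      refine ⟨(h3 F ℓ h2 V W χ pr σ Λ hyp hsym t.1.1 t.1.2 t.2.1.1 t.2.1.2 t.2.2.1.1 t.2.2.1.2.1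
        t.2.2.1.2.2.1 t.2.2.1.2.2.2 t.2.2.2 _ (hVs _ _ _)).1, ?_⟩
      obtain ⟨f, -, hf⟩ := pqmt_mem t.1.1 t.2.1.1 t.2.2.1.1 0
      exact ⟨_, (hVs _ _ _ _).mpr hf, rfl⟩⟩
  have hΦ : Function.Bijective Φ := by
    constructor
    · rintro ⟨⟨A, hA⟩, ⟨g, hg⟩, ⟨⟨δ, c, d, η⟩, hC⟩⟩ ⟨⟨A', hA'⟩, ⟨g', hg'⟩, ⟨⟨δ', c', d', η'⟩, hC'⟩⟩ h
      have h5 := congrArg Subtype.val h
      have h6 : c = c' := congrArg (fun y => y.1) h5
      have h7 : d = d' := congrArg (fun y => y.2.1) h5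
      have h8 : η = η' := congrArg (fun y => y.2.2.1) h5
      have h9 : Vs' A g δ = Vs' A' g' δ' := congrArg (fun y => y.2.2.2) h5
      have h10 : ∀ u, Vst A g δ u ↔ Vst A' g' δ' u := by
        intro u
        rw [← hVs, ← hVs, h9]
      have h11 : A = A' := le_antisymm (pqmt_le fun u hu => (h10 u).mp hu)
        (pqmt_le fun u hu => (h10 u).mpr hu)
      subst h11
      obtain ⟨h12, h13⟩ := pqmt_eq fun u hu => (h10 u).mp hu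
      subst h12 h13 h6 h7 h8
      rfl
    · rintro ⟨⟨c, d, η, 𝓥⟩, hA, hZ⟩
      obtain ⟨A, hI, g, hg, δ, hC, h𝓥⟩ := pqmt_first h1 h2 hyp.inj hA hZ
      refine ⟨⟨⟨A, hI⟩, ⟨g, hg⟩, ⟨(δ, c, d, η), hC⟩⟩, ?_⟩
      apply Subtype.ext
      refine Prod.ext rfl (Prod.ext rfl (Prod.ext rfl ?_))
      ext u
      exact (hVs _ _ _ _).trans (h𝓥 u).symm
  rw [← Nat.card_congr (Equiv.ofBijective Φ hΦ), Nat.card_sigma, muW, finsum_eq_sum_of_fintype,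
    Finset.mul_sum]
  refine Finset.sum_congr rfl fun A _ => ?_
  rw [Nat.card_sigma]
  have h14 : ∀ g : SkA σ Λ A.1, Nat.card (β A g) = Fintype.card W ^ (Fintype.card V + 1) := by
    intro g
    have h15 := h4 ℓ V W σ Λ A.1 A.2 g.1
    rw [Nat.card_eq_fintype_card (α := W)] at h15
    exact h15
  rw [Finset.sum_congr rfl fun g _ => h14 g, Finset.sum_const, Finset.card_univ,
    ← Nat.card_eq_fintype_card, smul_eq_mul, mul_comm]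

theorem tPqMT.{v} (h1 : StmtPqA1) (hA2 : StmtPqA2.{v}) (h3 : StmtPqA3.{v}) (h4 : StmtPqA4) :
    StmtPqMT.{v} := by
  intro F _ ℓ _ h2 V W _ _ _ _ _ χ pr σ Λ hyp hsym n hInf
  classical
  have hN0 : (Fintype.card W : ℂ) ≠ 0 := Nat.cast_ne_zero.2 Fintype.card_ne_zero
  let T : (V → W) → (V → Module.Dual (ZMod ℓ) W) → Module.Dual (ZMod ℓ) W →
      Finset (W × Module.Dual (ZMod ℓ) W) → ℂ := fun c d η 𝓥 =>
    ZMod.stdAddChar (thW χ pr σ Λ c d η) * ((Fintype.card W : ℂ)⁻¹ *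
      ∑ w ∈ 𝓥, ZMod.stdAddChar (aiW Λ η w * (n : ZMod ℓ)))
  let P : (V → W) → (V → Module.Dual (ZMod ℓ) W) → Module.Dual (ZMod ℓ) W →
      Finset (W × Module.Dual (ZMod ℓ) W) → Prop := fun c d η 𝓥 =>
    Adm BW (Fintype.card W) (alW σ c d) (aiW Λ η) 𝓥
  have hT : ∀ c d η 𝓥, P c d η 𝓥 → (∃ u ∈ 𝓥, u.1 = 0) → T c d η 𝓥 = 1 := by
    intro c d η 𝓥 hA hZ
    obtain ⟨A, hI, g, hg, δ, hC, h𝓥⟩ := pqmt_first h1 h2 hyp.inj hA hZ
    obtain ⟨-, h5, h6⟩ := h3 F ℓ h2 V W χ pr σ Λ hyp hsym A hI g hg δ c d η hC 𝓥 h𝓥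
    have h7 : ∀ w ∈ 𝓥, (ZMod.stdAddChar (aiW Λ η w * (n : ZMod ℓ)) : ℂ) = 1 := by
      intro w hw
      rw [h5 w hw, zero_mul, AddChar.map_zero_eq_one]
    show ZMod.stdAddChar (thW χ pr σ Λ c d η) * ((Fintype.card W : ℂ)⁻¹ *
      ∑ w ∈ 𝓥, ZMod.stdAddChar (aiW Λ η w * (n : ZMod ℓ))) = 1
    rw [h6, AddChar.map_zero_eq_one, one_mul, Finset.sum_congr rfl h7, Finset.sum_const,
      hA.card, nsmul_eq_mul, mul_one, inv_mul_cancel₀ hN0]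
  have hsplit : ∀ c d η, ZMod.stdAddChar (thW χ pr σ Λ c d η) *
        ∑ 𝓥 ∈ (Finset.univ : Finset (Finset (W × Module.Dual (ZMod ℓ) W))).filter
            (Adm BW (Fintype.card W) (alW σ c d) (aiW Λ η)),
          ((Fintype.card W : ℂ)⁻¹ * ∑ w ∈ 𝓥, ZMod.stdAddChar (aiW Λ η w * (n : ZMod ℓ))) =
      ∑ 𝓥, (if P c d η 𝓥 ∧ ∃ u ∈ 𝓥, u.1 = 0 then (1 : ℂ) else 0) +
      ∑ 𝓥 ∈ Finset.univ.filter (fun 𝓥 : Finset (W × Module.Dual (ZMod ℓ) W) =>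
        ∀ u ∈ 𝓥, u.1 ≠ 0), (if P c d η 𝓥 then T c d η 𝓥 else 0) := by
    intro c d η
    rw [Finset.mul_sum, Finset.sum_filter, Finset.sum_filter, ← Finset.sum_add_distrib]
    refine Finset.sum_congr rfl fun 𝓥 _ => ?_
    by_cases hP : P c d η 𝓥
    · by_cases hZ : ∃ u ∈ 𝓥, u.1 = 0
      · have h8 : ¬ ∀ u ∈ 𝓥, u.1 ≠ 0 := by
          push Not
          exact hZ
        rw [if_pos hP, if_pos ⟨hP, hZ⟩, if_neg h8, add_zero]
        exact hT c d η 𝓥 hP hZ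
      · have h8 : ∀ u ∈ 𝓥, u.1 ≠ 0 := by
          push Not at hZ
          exact hZ
        rw [if_pos hP, if_neg (fun h => hZ h.2), if_pos h8, zero_add]
    · rw [if_neg hP, if_neg (fun h => hP h.1), zero_add]
      split_ifs <;> rfl
  have hzero : ∀ c d, ∑ η, ∑ 𝓥 ∈ Finset.univ.filter
      (fun 𝓥 : Finset (W × Module.Dual (ZMod ℓ) W) => ∀ u ∈ 𝓥, u.1 ≠ 0),
        (if P c d η 𝓥 then T c d η 𝓥 else 0) = 0 := by
    intro c d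
    rw [Finset.sum_comm]
    refine Finset.sum_eq_zero fun 𝓥 h𝓥 => ?_
    exact hA2 F ℓ h2 V W χ pr σ Λ hyp.inj n hInf c d 𝓥 (Finset.mem_filter.mp h𝓥).2
  have hmain : ∑ c, ∑ d, ∑ η, ∑ 𝓥, (if P c d η 𝓥 ∧ ∃ u ∈ 𝓥, u.1 = 0 then (1 : ℂ) else 0) =
      (Fintype.card W : ℂ) ^ (Fintype.card V + 1) * (muW σ Λ : ℂ) := by
    have h9 : ∑ c, ∑ d, ∑ η, ∑ 𝓥, (if P c d η 𝓥 ∧ ∃ u ∈ 𝓥, u.1 = 0 then (1 : ℂ) else 0) =
        ∑ y : (V → W) × (V → Module.Dual (ZMod ℓ) W) × Module.Dual (ZMod ℓ) W ×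
          Finset (W × Module.Dual (ZMod ℓ) W),
          (if P y.1 y.2.1 y.2.2.1 y.2.2.2 ∧ ∃ u ∈ y.2.2.2, u.1 = 0 then (1 : ℂ) else 0) := by
      rw [Fintype.sum_prod_type]
      refine Finset.sum_congr rfl fun c _ => ?_
      rw [Fintype.sum_prod_type]
      refine Finset.sum_congr rfl fun d _ => ?_
      rw [Fintype.sum_prod_type]
    rw [h9, Finset.sum_boole, ← Fintype.card_subtype, ← Nat.card_eq_fintype_card]
    have h10 := pqmt_count h1 h3 h4 F ℓ h2 V W χ pr σ Λ hyp hsym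
    have h11 : Nat.card {y : (V → W) × (V → Module.Dual (ZMod ℓ) W) × Module.Dual (ZMod ℓ) W ×
        Finset (W × Module.Dual (ZMod ℓ) W) //
        P y.1 y.2.1 y.2.2.1 y.2.2.2 ∧ ∃ u ∈ y.2.2.2, u.1 = 0} =
        Fintype.card W ^ (Fintype.card V + 1) * muW σ Λ := h10
    rw [h11]
    push_cast
    rfl
  have hfin : ∀ c d η, ZMod.stdAddChar (thW χ pr σ Λ c d η) *
        ∑ 𝓥 ∈ (Finset.univ : Finset (Finset (W × Module.Dual (ZMod ℓ) W))).filter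
            (Adm BW (Fintype.card W) (alW σ c d) (aiW Λ η)),
          ((Fintype.card W : ℂ)⁻¹ * ∑ w ∈ 𝓥, ZMod.stdAddChar (aiW Λ η w * (n : ZMod ℓ))) = _ :=
    hsplit
  rw [Finset.sum_congr rfl fun c _ => Finset.sum_congr rfl fun d _ =>
    Finset.sum_congr rfl fun η _ => hfin c d η]
  have h12 : ∑ c, ∑ d, ∑ η, (∑ 𝓥, (if P c d η 𝓥 ∧ ∃ u ∈ 𝓥, u.1 = 0 then (1 : ℂ) else 0) +
      ∑ 𝓥 ∈ Finset.univ.filter (fun 𝓥 : Finset (W × Module.Dual (ZMod ℓ) W) =>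
        ∀ u ∈ 𝓥, u.1 ≠ 0), (if P c d η 𝓥 then T c d η 𝓥 else 0)) =
      ∑ c, ∑ d, ∑ η, ∑ 𝓥, (if P c d η 𝓥 ∧ ∃ u ∈ 𝓥, u.1 = 0 then (1 : ℂ) else 0) := by
    refine Finset.sum_congr rfl fun c _ => Finset.sum_congr rfl fun d _ => ?_
    rw [Finset.sum_add_distrib, hzero c d, add_zero]
  exact h12.trans hmain

end MP72e2e6
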