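import Pool.Agent.Lib.MP_72e2e6_nt.PhStmt
import Pool.Agent.Lib.MP_72e2e6_nt.PqMT

/-!
# MP_72e2e6_nt: exact moments for `ℓ = 2`, the main term (PhMT)
-/

namespace MP72e2e6

open Polynomial

universe u

theorem phmt_first {V W : Type} [AddCommGroup W] [Module (ZMod 2) W] (h1 : StmtPhA1)
    [Fintype W] {σ : V → Module.End (ZMod 2) W}
    {Λ : Module.End (ZMod 2) W} (hinj : ∀ v y, σ v y = 0 → y = 0)
    {c : V → W} {d : V → Module.Dual (ZMod 2) W} {η : Module.Dual (ZMod 2) W}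
    {𝓥 : Finset (W × Module.Dual (ZMod 2) W)}
    (hA : Adm BW (Fintype.card W) (alW σ c d) (aiW Λ η) 𝓥) (hZ : ∃ u ∈ 𝓥, u.1 = 0) :
    ∃ A : Submodule (ZMod 2) W, Inv σ Λ A ∧ ∃ g ∈ SaA σ Λ A, ∃ δ, CdB σ Λ A g δ c d η ∧
      ∀ u, u ∈ 𝓥 ↔ Vst A g δ u := by
  obtain ⟨A, hI, h | ⟨c₀, hc₀, -, hu⟩⟩ := h1 V W σ Λ hinj c d η 𝓥 hA
  · exact ⟨A, hI, h⟩
  · exfalso
    obtain ⟨u, hu1, hu2⟩ := hZ
    have h3 := hu u hu1
    rw [hu2, zero_sub] at h3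
    exact hc₀ (neg_neg c₀ ▸ A.neg_mem h3)

open Classical in
/-- the sum over the tuples -/
theorem phmt_sum (h1 : StmtPhA1) (h3 : StmtPhA3) (h4 : StmtPhA4.{u}) (F : Type u) [Field F]
    (V W : Type) [Fintype V]
    [AddCommGroup W] [Module (ZMod 2) W] [Fintype W] [Fintype (Module.Dual (ZMod 2) W)]
    (χ : F → ZMod 2) (pr : V → F[X]) (σ : V → Module.End (ZMod 2) W)
    (Λ : Module.End (ZMod 2) W) (hyp : HypW χ pr σ Λ)
    (hsym : ∀ v v', syl χ (pr v) (pr v') = syl χ (pr v') (pr v)) :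
    ∑ y : {y : (V → W) × (V → Module.Dual (ZMod 2) W) × Module.Dual (ZMod 2) W ×
        Finset (W × Module.Dual (ZMod 2) W) //
      Adm BW (Fintype.card W) (alW σ y.1 y.2.1) (aiW Λ y.2.2.1) y.2.2.2 ∧
        ∃ u ∈ y.2.2.2, u.1 = 0},
      (ZMod.stdAddChar (thW χ pr σ Λ y.1.1 y.1.2.1 y.1.2.2.1) : ℂ) =
      (Fintype.card W : ℂ) ^ (Fintype.card V + 1) * (muB χ pr σ Λ : ℂ) := by
  have hfinA : Finite {A : Submodule (ZMod 2) W // Inv σ Λ A} :=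
    Finite.of_injective (fun A : {A : Submodule (ZMod 2) W // Inv σ Λ A} => (A.1 : Set W))
      fun A B h => Subtype.ext (SetLike.coe_injective h)
  have := Fintype.ofFinite {A : Submodule (ZMod 2) W // Inv σ Λ A}
  have hfinD : ∀ A : Submodule (ZMod 2) W, Finite (Module.Dual (ZMod 2) A) := fun A =>
    pqmt_finite
  have hfinG0 : ∀ A : Submodule (ZMod 2) W, Finite (A →ₗ[ZMod 2] Module.Dual (ZMod 2) A) := by
    intro A
    have := hfinD A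
    exact pqmt_finite
  have hfinG : ∀ A : Submodule (ZMod 2) W, Finite (SaA σ Λ A) := by
    intro A
    have := hfinG0 A
    exact Finite.of_injective (fun g : SaA σ Λ A => g.1) Subtype.val_injective
  have hfinG' : ∀ A : {A : Submodule (ZMod 2) W // Inv σ Λ A}, Finite (SaA σ Λ A.1) :=
    fun A => hfinG A.1
  have : ∀ A : {A : Submodule (ZMod 2) W // Inv σ Λ A}, Fintype (SaA σ Λ A.1) :=
    fun A => Fintype.ofFinite _
  let β : (A : {A : Submodule (ZMod 2) W // Inv σ Λ A}) → SaA σ Λ A.1 → Type := fun A g =>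
    {x : Module.Dual (ZMod 2) A.1 × (V → W) × (V → Module.Dual (ZMod 2) W) ×
        Module.Dual (ZMod 2) W // CdB σ Λ A.1 g.1 x.1 x.2.1 x.2.2.1 x.2.2.2}
  have hfinβ : ∀ A g, Finite (β A g) := by
    intro A g
    have := hfinD A.1
    exact Subtype.finite
  have : ∀ A g, Fintype (β A g) := fun A g => Fintype.ofFinite _
  let T2 : Type := Σ A : {A : Submodule (ZMod 2) W // Inv σ Λ A}, Σ g : SaA σ Λ A.1, β A g
  let Vs' : (A : Submodule (ZMod 2) W) → (A →ₗ[ZMod 2] Module.Dual (ZMod 2) A) →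
      Module.Dual (ZMod 2) A → Finset (W × Module.Dual (ZMod 2) W) := fun A g δ =>
    Finset.univ.filter (Vst A g δ)
  have hVs : ∀ A g δ u, u ∈ Vs' A g δ ↔ Vst A g δ u := by
    intro A g δ u
    rw [Finset.mem_filter]
    exact and_iff_right (Finset.mem_univ u)
  let Φ : T2 → {y : (V → W) × (V → Module.Dual (ZMod 2) W) × Module.Dual (ZMod 2) W ×
        Finset (W × Module.Dual (ZMod 2) W) //
      Adm BW (Fintype.card W) (alW σ y.1 y.2.1) (aiW Λ y.2.2.1) y.2.2.2 ∧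
        ∃ u ∈ y.2.2.2, u.1 = 0} := fun t =>
    ⟨(t.2.2.1.2.1, t.2.2.1.2.2.1, t.2.2.1.2.2.2, Vs' t.1.1 t.2.1.1 t.2.2.1.1), by
      refine ⟨(h3 V W σ Λ t.1.1 t.1.2 t.2.1.1 t.2.1.2 t.2.2.1.1 t.2.2.1.2.1
        t.2.2.1.2.2.1 t.2.2.1.2.2.2 t.2.2.2 _ (hVs _ _ _)).1, ?_⟩
      obtain ⟨f, -, hf⟩ := pqmt_mem t.1.1 t.2.1.1 t.2.2.1.1 0
      exact ⟨_, (hVs _ _ _ _).mpr hf, rfl⟩⟩
  have hΦ : Function.Bijective Φ := by
    constructor
    · rintro ⟨⟨A, hA⟩, ⟨g, hg⟩, ⟨⟨δ, c, d, η⟩, hC⟩⟩ ⟨⟨A', hA'⟩, ⟨g', hg'⟩, ⟨⟨δ', c', d', η'⟩, hC'⟩⟩ h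
      have h5 := congrArg Subtype.val h
      have h6 : c = c' := congrArg (fun y => y.1) h5
      have h7 : d = d' := congrArg (fun y => y.2.1) h5
      have h8 : η = η' := congrArg (fun y => y.2.2.1) h5
      have h9 : Vs' A g δ = Vs' A' g' δ' := congrArg (fun y => y.2.2.2) h5
      have h10 : ∀ u, Vst A g δ u ↔ Vst A' g' δ' u := by
        intro u
        rw [← hVs, ← hVs, h9]
      have h11 : A = A' := le_antisymm (pqmt_le fun u hu => (h10 u).mp hu)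
        (pqmt_le fun u hu => (h10 u).mpr hu)
      subst h11
      obtain ⟨h12, h13⟩ := pqmt_eq fun u hu => (h10 u).mp hu
      subst h12 h13 h6 h7 h8
      rfl
    · rintro ⟨⟨c, d, η, 𝓥⟩, hA, hZ⟩
      obtain ⟨A, hI, g, hg, δ, hC, h𝓥⟩ := phmt_first h1 hyp.inj hA hZ
      refine ⟨⟨⟨A, hI⟩, ⟨g, hg⟩, ⟨(δ, c, d, η), hC⟩⟩, ?_⟩
      apply Subtype.ext
      refine Prod.ext rfl (Prod.ext rfl (Prod.ext rfl ?_))
      ext u
      exact (hVs _ _ _ _).trans (h𝓥 u).symm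
  have hsum : ∑ t : T2, (ZMod.stdAddChar
      (thW χ pr σ Λ t.2.2.1.2.1 t.2.2.1.2.2.1 t.2.2.1.2.2.2) : ℂ) =
      (Fintype.card W : ℂ) ^ (Fintype.card V + 1) * (muB χ pr σ Λ : ℂ) := by
    rw [Fintype.sum_sigma, muB, finsum_eq_sum_of_fintype, Nat.cast_sum, Finset.mul_sum]
    refine Finset.sum_congr rfl fun A _ => ?_
    rw [Fintype.sum_sigma]
    have h14 : ∀ g : SaA σ Λ A.1, ∑ x : β A g, (ZMod.stdAddChar
        (thW χ pr σ Λ x.1.2.1 x.1.2.2.1 x.1.2.2.2) : ℂ) =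
        if TrA χ pr σ Λ A.1 g.1 then (Fintype.card W : ℂ) ^ (Fintype.card V + 1) else 0 := by
      intro g
      have h15 := h4 F V W χ pr σ Λ hyp hsym A.1 A.2 g.1 g.2
      rw [Nat.card_eq_fintype_card (α := W), finsum_eq_sum_of_fintype] at h15
      exact h15
    have h16 : Nat.card {g // g ∈ SaA σ Λ A.1 ∧ TrA χ pr σ Λ A.1 g} =
        (Finset.univ.filter fun g : SaA σ Λ A.1 => TrA χ pr σ Λ A.1 g.1).card := by
      rw [← Fintype.card_subtype, ← Nat.card_eq_fintype_card]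
      exact Nat.card_congr (Equiv.subtypeSubtypeEquivSubtypeInter
        (fun g => g ∈ SaA σ Λ A.1) (fun g => TrA χ pr σ Λ A.1 g)).symm
    rw [h16, Finset.sum_congr rfl fun g _ => h14 g, ← Finset.sum_filter, Finset.sum_const,
      nsmul_eq_mul, mul_comm]
  rw [← hsum]
  exact ((Equiv.ofBijective Φ hΦ).sum_comp fun y =>
    (ZMod.stdAddChar (thW χ pr σ Λ y.1.1 y.1.2.1 y.1.2.2.1) : ℂ)).symm

theorem tPhMT (h1 : StmtPhA1) (h2 : StmtPhA2.{u}) (h3 : StmtPhA3) (h4 : StmtPhA4.{u}) :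
    StmtPhMT.{u} := by
  intro F _ V W _ _ _ _ _ χ pr σ Λ hyp hsym n hInf
  classical
  have hN0 : (Fintype.card W : ℂ) ≠ 0 := Nat.cast_ne_zero.2 Fintype.card_ne_zero
  let T : (V → W) → (V → Module.Dual (ZMod 2) W) → Module.Dual (ZMod 2) W →
      Finset (W × Module.Dual (ZMod 2) W) → ℂ := fun c d η 𝓥 =>
    ZMod.stdAddChar (thW χ pr σ Λ c d η) * ((Fintype.card W : ℂ)⁻¹ *
      ∑ w ∈ 𝓥, ZMod.stdAddChar (aiW Λ η w * (n : ZMod 2)))
  let P : (V → W) → (V → Module.Dual (ZMod 2) W) → Module.Dual (ZMod 2) W →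
      Finset (W × Module.Dual (ZMod 2) W) → Prop := fun c d η 𝓥 =>
    Adm BW (Fintype.card W) (alW σ c d) (aiW Λ η) 𝓥
  have hT : ∀ c d η 𝓥, P c d η 𝓥 → (∃ u ∈ 𝓥, u.1 = 0) →
      T c d η 𝓥 = ZMod.stdAddChar (thW χ pr σ Λ c d η) := by
    intro c d η 𝓥 hA hZ
    obtain ⟨A, hI, g, hg, δ, hC, h𝓥⟩ := phmt_first h1 hyp.inj hA hZ
    obtain ⟨-, h5⟩ := h3 V W σ Λ A hI g hg δ c d η hC 𝓥 h𝓥
    have h7 : ∀ w ∈ 𝓥, (ZMod.stdAddChar (aiW Λ η w * (n : ZMod 2)) : ℂ) = 1 := by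
      intro w hw
      rw [h5 w hw, zero_mul, AddChar.map_zero_eq_one]
    show ZMod.stdAddChar (thW χ pr σ Λ c d η) * ((Fintype.card W : ℂ)⁻¹ *
      ∑ w ∈ 𝓥, ZMod.stdAddChar (aiW Λ η w * (n : ZMod 2))) = _
    rw [Finset.sum_congr rfl h7, Finset.sum_const,
      hA.card, nsmul_eq_mul, mul_one, inv_mul_cancel₀ hN0, mul_one]
  have hsplit : ∀ c d η, ZMod.stdAddChar (thW χ pr σ Λ c d η) *
        ∑ 𝓥 ∈ (Finset.univ : Finset (Finset (W × Module.Dual (ZMod 2) W))).filter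
            (Adm BW (Fintype.card W) (alW σ c d) (aiW Λ η)),
          ((Fintype.card W : ℂ)⁻¹ * ∑ w ∈ 𝓥, ZMod.stdAddChar (aiW Λ η w * (n : ZMod 2))) =
      ∑ 𝓥, (if P c d η 𝓥 ∧ ∃ u ∈ 𝓥, u.1 = 0 then
        (ZMod.stdAddChar (thW χ pr σ Λ c d η) : ℂ) else 0) +
      ∑ 𝓥 ∈ Finset.univ.filter (fun 𝓥 : Finset (W × Module.Dual (ZMod 2) W) =>
        ∀ u ∈ 𝓥, u.1 ≠ 0), (if P c d η 𝓥 then T c d η 𝓥 else 0) := by
    intro c d η
    rw [Finset.mul_sum, Finset.sum_filter, Finset.sum_filter, ← Finset.sum_add_distrib]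
    refine Finset.sum_congr rfl fun 𝓥 _ => ?_
    by_cases hP : P c d η 𝓥
    · by_cases hZ : ∃ u ∈ 𝓥, u.1 = 0
      · have h8 : ¬ ∀ u ∈ 𝓥, u.1 ≠ 0 := by
          push Not
          exact hZ
        rw [if_pos hP, if_pos ⟨hP, hZ⟩, if_neg h8, add_zero]
        exact hT c d η 𝓥 hP hZ
      · have h8 : ∀ u ∈ 𝓥, u.1 ≠ 0 := by
          push Not at hZ
          exact hZ
        rw [if_pos hP, if_neg (fun h => hZ h.2), if_pos h8, zero_add]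
    · rw [if_neg hP, if_neg (fun h => hP h.1), zero_add]
      split_ifs <;> rfl
  have hzero : ∀ c d, ∑ η, ∑ 𝓥 ∈ Finset.univ.filter
      (fun 𝓥 : Finset (W × Module.Dual (ZMod 2) W) => ∀ u ∈ 𝓥, u.1 ≠ 0),
        (if P c d η 𝓥 then T c d η 𝓥 else 0) = 0 := by
    intro c d
    rw [Finset.sum_comm]
    refine Finset.sum_eq_zero fun 𝓥 h𝓥 => ?_
    exact h2 F V W χ pr σ Λ hyp.inj n hInf c d 𝓥 (Finset.mem_filter.mp h𝓥).2
  have hmain : ∑ c, ∑ d, ∑ η, ∑ 𝓥, (if P c d η 𝓥 ∧ ∃ u ∈ 𝓥, u.1 = 0 then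
        (ZMod.stdAddChar (thW χ pr σ Λ c d η) : ℂ) else 0) =
      (Fintype.card W : ℂ) ^ (Fintype.card V + 1) * (muB χ pr σ Λ : ℂ) := by
    have h9 : ∑ c, ∑ d, ∑ η, ∑ 𝓥, (if P c d η 𝓥 ∧ ∃ u ∈ 𝓥, u.1 = 0 then
          (ZMod.stdAddChar (thW χ pr σ Λ c d η) : ℂ) else 0) =
        ∑ y : (V → W) × (V → Module.Dual (ZMod 2) W) × Module.Dual (ZMod 2) W ×
          Finset (W × Module.Dual (ZMod 2) W),
          (if P y.1 y.2.1 y.2.2.1 y.2.2.2 ∧ ∃ u ∈ y.2.2.2, u.1 = 0 then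
            (ZMod.stdAddChar (thW χ pr σ Λ y.1 y.2.1 y.2.2.1) : ℂ) else 0) := by
      rw [Fintype.sum_prod_type]
      refine Finset.sum_congr rfl fun c _ => ?_
      rw [Fintype.sum_prod_type]
      refine Finset.sum_congr rfl fun d _ => ?_
      rw [Fintype.sum_prod_type]
    rw [h9, ← Finset.sum_filter, ← phmt_sum h1 h3 h4 F V W χ pr σ Λ hyp hsym]
    exact Finset.sum_subtype _ (fun y => by
      rw [Finset.mem_filter]
      exact and_iff_right (Finset.mem_univ y)) _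
  have hfin : ∀ c d η, ZMod.stdAddChar (thW χ pr σ Λ c d η) *
        ∑ 𝓥 ∈ (Finset.univ : Finset (Finset (W × Module.Dual (ZMod 2) W))).filter
            (Adm BW (Fintype.card W) (alW σ c d) (aiW Λ η)),
          ((Fintype.card W : ℂ)⁻¹ * ∑ w ∈ 𝓥, ZMod.stdAddChar (aiW Λ η w * (n : ZMod 2))) = _ :=
    hsplit
  rw [Finset.sum_congr rfl fun c _ => Finset.sum_congr rfl fun d _ =>
    Finset.sum_congr rfl fun η _ => hfin c d η]
  have h12 : ∑ c, ∑ d, ∑ η, (∑ 𝓥, (if P c d η 𝓥 ∧ ∃ u ∈ 𝓥, u.1 = 0 then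
        (ZMod.stdAddChar (thW χ pr σ Λ c d η) : ℂ) else 0) +
      ∑ 𝓥 ∈ Finset.univ.filter (fun 𝓥 : Finset (W × Module.Dual (ZMod 2) W) =>
        ∀ u ∈ 𝓥, u.1 ≠ 0), (if P c d η 𝓥 then T c d η 𝓥 else 0)) =
      ∑ c, ∑ d, ∑ η, ∑ 𝓥, (if P c d η 𝓥 ∧ ∃ u ∈ 𝓥, u.1 = 0 then
        (ZMod.stdAddChar (thW χ pr σ Λ c d η) : ℂ) else 0) := by
    refine Finset.sum_congr rfl fun c _ => Finset.sum_congr rfl fun d _ => ?_
    rw [Finset.sum_add_distrib, hzero c d, add_zero]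
  exact h12.trans hmain

end MP72e2e6
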