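import Pool.Agent.Lib.MP_72e2e6_nt.PhStmt
import Pool.Agent.Lib.MP_72e2e6_nt.PqPrim

/-!
# MP_72e2e6_nt : analytic part for the prime two, module PhPrim (primitive solutions)
-/

namespace MP72e2e6

open Polynomial

theorem tPhPrim.{v} (hPhFM : StmtPhFM.{v}) (hPhSub : StmtPhSub.{v}) : StmtPhPrim.{v} := by
  intro F _ _ h4 hdvd χ hχ hR V _ pr hpr S hS
  classical
  induction hN : Nat.card S.W using Nat.strong_induction_on generalizing S with
  | _ N ih =>
    intro ε hε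
    obtain ⟨hsub, htop⟩ := hPhSub F V χ pr S
    have : Fintype {A : Submodule (ZMod 2) S.W // Inv S.σ S.Λ A} := Fintype.ofFinite _
    set I := {A : Submodule (ZMod 2) S.W // Inv S.σ S.Λ A} with hI
    have hT : Inv S.σ S.Λ ⊤ := ⟨fun _ _ _ => Submodule.mem_top, fun _ _ => Submodule.mem_top⟩
    let T : I := ⟨⊤, hT⟩
    have hk : (0 : ℝ) < Fintype.card I + 1 := by positivity
    have hε' : 0 < ε / (Fintype.card I + 1) := div_pos hε hk
    set ε' := ε / (Fintype.card I + 1) with hε'd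
    have key : ∀ A : I, ∃ n₀ : ℕ, A ≠ T → ∀ n : ℕ, n₀ ≤ n → InfW pr S.σ n →
        |∑ t ∈ gs F pr n, ((S.sub A.1 A.2).prim χ pr t : ℝ) -
          (Nat.card {g // g ∈ SaA S.σ S.Λ A.1 ∧ TrA χ pr S.σ S.Λ A.1 g} : ℝ) *
            ((gs F pr n).card : ℝ)| ≤ ε' * (Nat.card F : ℝ) ^ n := by
      intro A
      by_cases hAT : A = T
      · exact ⟨0, fun h => absurd hAT h⟩
      have hlt : Nat.card (S.sub A.1 A.2).W < N := by
        have hne : A.1 ≠ ⊤ := fun h => hAT (Subtype.ext h)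
        obtain ⟨y, hy⟩ : ∃ y, y ∉ A.1 := by
          by_contra hcon
          push Not at hcon
          exact hne ((Submodule.eq_top_iff').2 hcon)
        rw [← hN]
        exact Finite.card_subtype_lt (p := fun y => y ∈ A.1) hy
      obtain ⟨n₀, h₀⟩ := ih _ hlt (S.sub A.1 A.2) (pqprim_hyp hS A.1 A.2) rfl ε' hε'
      refine ⟨n₀, fun _ n hn hinf => ?_⟩
      have := h₀ n hn (pqprim_inf hinf A.1 A.2)
      rwa [← hsub A.1 A.2] at this
    choose f hf using key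
    obtain ⟨n₁, h₁⟩ := hPhFM F h4 hdvd χ hχ hR V S.W pr hpr S.σ S.Λ hS ε' hε'
    refine ⟨max n₁ (Finset.univ.sup f), fun n hn hinf => ?_⟩
    have hn1 : n₁ ≤ n := le_trans (le_max_left _ _) hn
    have hn2 : ∀ A : I, f A ≤ n := fun A =>
      le_trans (le_trans (Finset.le_sup (Finset.mem_univ A)) (le_max_right _ _)) hn
    have e1 : ∀ t : Finset F[X], (nSol χ pr S.σ S.Λ t : ℝ) = (S.prim χ pr t : ℝ) +
        ∑ A ∈ Finset.univ.erase T, ((S.sub A.1 A.2).prim χ pr t : ℝ) := by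
      intro t
      have e2 : nSol χ pr S.σ S.Λ t = S.sol χ pr t := rfl
      rw [e2, pqprim_sum, ← Finset.add_sum_erase _ _ (Finset.mem_univ T), pqprim_top]
      push_cast
      congr 1
      exact Finset.sum_congr rfl fun A _ => by rw [pqprim_fib]
    have e2 : (muB χ pr S.σ S.Λ : ℝ) =
        (Nat.card {g // g ∈ Sa S.σ S.Λ ∧ TrW χ pr S.σ S.Λ g} : ℝ) +
        ∑ A ∈ Finset.univ.erase T,
          (Nat.card {g // g ∈ SaA S.σ S.Λ A.1 ∧ TrA χ pr S.σ S.Λ A.1 g} : ℝ) := by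
      rw [muB, finsum_eq_sum_of_fintype, ← Finset.add_sum_erase _ _ (Finset.mem_univ T),
        ← htop]
      push_cast
      rfl
    have h2 := h₁ n hn1 hinf
    have e3 : ∑ t ∈ gs F pr n, (S.prim χ pr t : ℝ) -
        (Nat.card {g // g ∈ Sa S.σ S.Λ ∧ TrW χ pr S.σ S.Λ g} : ℝ) * ((gs F pr n).card : ℝ) =
        (∑ t ∈ gs F pr n, (nSol χ pr S.σ S.Λ t : ℝ) -
          (muB χ pr S.σ S.Λ : ℝ) * ((gs F pr n).card : ℝ)) -
        ∑ A ∈ Finset.univ.erase T, (∑ t ∈ gs F pr n, ((S.sub A.1 A.2).prim χ pr t : ℝ) -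
          (Nat.card {g // g ∈ SaA S.σ S.Λ A.1 ∧ TrA χ pr S.σ S.Λ A.1 g} : ℝ) *
            ((gs F pr n).card : ℝ)) := by
      simp only [e1, e2]
      rw [Finset.sum_add_distrib, Finset.sum_sub_distrib, Finset.sum_comm, add_mul,
        ← Finset.sum_mul]
      ring
    rw [e3]
    have e4 : |∑ A ∈ Finset.univ.erase T, (∑ t ∈ gs F pr n, ((S.sub A.1 A.2).prim χ pr t : ℝ) -
        (Nat.card {g // g ∈ SaA S.σ S.Λ A.1 ∧ TrA χ pr S.σ S.Λ A.1 g} : ℝ) *
          ((gs F pr n).card : ℝ))| ≤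
        Fintype.card I * (ε' * (Nat.card F : ℝ) ^ n) := by
      refine (Finset.abs_sum_le_sum_abs _ _).trans ?_
      refine (Finset.sum_le_card_nsmul _ _ (ε' * (Nat.card F : ℝ) ^ n) fun A hA => ?_).trans ?_
      · exact hf A (Finset.ne_of_mem_erase hA) n (hn2 A) hinf
      · rw [nsmul_eq_mul]
        refine mul_le_mul_of_nonneg_right ?_ (by positivity)
        exact_mod_cast (Finset.card_le_univ _)
    have e5 : ε' * (Nat.card F : ℝ) ^ n + Fintype.card I * (ε' * (Nat.card F : ℝ) ^ n) =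
        ε * (Nat.card F : ℝ) ^ n := by
      rw [hε'd]
      field_simp
      ring
    rw [← e5]
    exact (abs_sub _ _).trans (add_le_add h2 e4)

end MP72e2e6
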