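import Pool.Agent.Lib.MP_72e2e6_nt.PqStmt

/-!
# MP_72e2e6_nt: the exact moments, generating tuples of a product of irreducible systems
-/

set_option autoImplicit false

namespace MP72e2e6

open Polynomial

universe u

section

variable {ℓ : ℕ} {V I : Type} [Finite I]

theorem pqgen_sg (S : I → Sys ℓ V) (v : V) (y : ∀ p, (S p).W) (p : I) :
    (Sys.pi S).σ v y p = (S p).σ v (y p) := rfl

theorem pqgen_lm (S : I → Sys ℓ V) (y : ∀ p, (S p).W) (p : I) :
    (Sys.pi S).Λ y p = (S p).Λ (y p) := rfl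

/-- The inclusion of a factor. -/
noncomputable def pqgen_in [DecidableEq I] (S : I → Sys ℓ V) (p : I) :
    (S p).W →ₗ[ZMod ℓ] (Sys.pi S).W :=
  LinearMap.single (ZMod ℓ) (fun q => (S q).W) p

theorem pqgen_in_apply [DecidableEq I] (S : I → Sys ℓ V) (p : I) (w : (S p).W) :
    pqgen_in S p w = Pi.single (M := fun q => (S q).W) p w := rfl

/-- The projection to a factor. -/
def pqgen_pr (S : I → Sys ℓ V) (p : I) : (Sys.pi S).W →ₗ[ZMod ℓ] (S p).W :=
  LinearMap.proj (φ := fun q => (S q).W) p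

theorem pqgen_in_mem [DecidableEq I] (S : I → Sys ℓ V) (p : I) :
    pqgen_in S p ∈ HomS (S p) (Sys.pi S) := by
  refine ⟨fun v x => ?_, fun x => ?_⟩
  · funext q
    change Pi.single (M := fun q => (S q).W) p ((S p).σ v x) q =
      (S q).σ v (Pi.single (M := fun q => (S q).W) p x q)
    by_cases h : q = p
    · subst h
      rw [Pi.single_eq_same, Pi.single_eq_same]
    · rw [Pi.single_eq_of_ne h, Pi.single_eq_of_ne h, map_zero]
  · funext q
    change Pi.single (M := fun q => (S q).W) p ((S p).Λ x) q =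
      (S q).Λ (Pi.single (M := fun q => (S q).W) p x q)
    by_cases h : q = p
    · subst h
      rw [Pi.single_eq_same, Pi.single_eq_same]
    · rw [Pi.single_eq_of_ne h, Pi.single_eq_of_ne h, map_zero]

theorem pqgen_sum [Fintype I] [DecidableEq I] (S : I → Sys ℓ V) (y : (Sys.pi S).W) :
    ∑ p, pqgen_in S p (y p) = y :=
  Finset.univ_sum_single (M := fun p => (S p).W) y

/-- The projection along a maximal invariant subspace. -/
theorem pqgen_proj [Fact ℓ.Prime] [DecidableEq I] (S : I → Sys ℓ V)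
    (hS : ∀ p, IrrW (S p).σ (S p).Λ)
    (B : Submodule (ZMod ℓ) (Sys.pi S).W) (hB : Inv (Sys.pi S).σ (Sys.pi S).Λ B) (hne : B ≠ ⊤)
    (hmax : ∀ C, Inv (Sys.pi S).σ (Sys.pi S).Λ C → C ≠ ⊤ → B ≤ C → C ≤ B) :
    ∃ (p₀ : I) (φ : (Sys.pi S).W →ₗ[ZMod ℓ] (S p₀).W), φ ∈ HomS (Sys.pi S) (S p₀) ∧
      (∀ y ∈ B, φ y = 0) ∧ ∀ w, φ (pqgen_in S p₀ w) = w := by
  have : Fintype I := Fintype.ofFinite I
  have h1 : ∃ p₀, ∃ w₀ : (S p₀).W, pqgen_in S p₀ w₀ ∉ B := by
    by_contra h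
    push Not at h
    apply hne
    rw [eq_top_iff]
    intro y _
    rw [← pqgen_sum S y]
    exact B.sum_mem fun p _ => h p (y p)
  obtain ⟨p₀, w₀, hw₀⟩ := h1
  obtain ⟨hi1, hi2⟩ := pqgen_in_mem S p₀
  have hP : B.comap (pqgen_in S p₀) = ⊥ := by
    have h1 : ∀ v, ∀ y ∈ B.comap (pqgen_in S p₀), (S p₀).σ v y ∈ B.comap (pqgen_in S p₀) := by
      intro v y hy
      rw [Submodule.mem_comap, hi1]
      exact hB.sg v _ hy
    have h3 : ∀ y ∈ B.comap (pqgen_in S p₀), (S p₀).Λ y ∈ B.comap (pqgen_in S p₀) := by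
      intro y hy
      rw [Submodule.mem_comap, hi2]
      exact hB.lm _ hy
    rcases (hS p₀).irr (B.comap (pqgen_in S p₀)) h1 h3 with h | h
    · exact h
    · exfalso
      apply hw₀
      have h2 : w₀ ∈ B.comap (pqgen_in S p₀) := by
        rw [h]
        exact Submodule.mem_top
      exact h2
  have hR : B ⊔ LinearMap.range (pqgen_in S p₀) = ⊤ := by
    by_contra h
    have h2 : Inv (Sys.pi S).σ (Sys.pi S).Λ (B ⊔ LinearMap.range (pqgen_in S p₀)) := by
      refine ⟨fun v y hy => ?_, fun y hy => ?_⟩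
      · obtain ⟨b, hb, z, ⟨w, rfl⟩, rfl⟩ := Submodule.mem_sup.1 hy
        rw [map_add, ← hi1]
        exact Submodule.mem_sup.2 ⟨_, hB.sg v b hb, _, ⟨_, rfl⟩, rfl⟩
      · obtain ⟨b, hb, z, ⟨w, rfl⟩, rfl⟩ := Submodule.mem_sup.1 hy
        rw [map_add, ← hi2]
        exact Submodule.mem_sup.2 ⟨_, hB.lm b hb, _, ⟨_, rfl⟩, rfl⟩
    have h3 := hmax _ h2 h le_sup_left
    apply hw₀
    exact h3 (Submodule.mem_sup_right ⟨w₀, rfl⟩)
  have hbij : Function.Bijective (B.mkQ ∘ₗ pqgen_in S p₀) := by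
    constructor
    · rw [← LinearMap.ker_eq_bot, LinearMap.ker_comp, Submodule.ker_mkQ, hP]
    · intro z
      obtain ⟨y, rfl⟩ := B.mkQ_surjective z
      have h2 : y ∈ B ⊔ LinearMap.range (pqgen_in S p₀) := by
        rw [hR]
        exact Submodule.mem_top
      obtain ⟨b, hb, z, ⟨w, rfl⟩, rfl⟩ := Submodule.mem_sup.1 h2
      refine ⟨w, ?_⟩
      rw [LinearMap.comp_apply, map_add]
      have h3 : B.mkQ b = 0 := (Submodule.Quotient.mk_eq_zero B).2 hb
      rw [h3, zero_add]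
  let e := LinearEquiv.ofBijective _ hbij
  let φ : (Sys.pi S).W →ₗ[ZMod ℓ] (S p₀).W := (e.symm : _ →ₗ[ZMod ℓ] (S p₀).W) ∘ₗ B.mkQ
  have hφ : ∀ y w, y - pqgen_in S p₀ w ∈ B → φ y = w := by
    intro y w h
    change e.symm (B.mkQ y) = w
    rw [LinearEquiv.symm_apply_eq]
    change B.mkQ y = B.mkQ (pqgen_in S p₀ w)
    rw [← sub_eq_zero, ← map_sub]
    exact (Submodule.Quotient.mk_eq_zero B).2 h
  have hφ' : ∀ y, y - pqgen_in S p₀ (φ y) ∈ B := by
    intro y
    have h2 : y ∈ B ⊔ LinearMap.range (pqgen_in S p₀) := by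
      rw [hR]
      exact Submodule.mem_top
    obtain ⟨b, hb, z, ⟨w, rfl⟩, rfl⟩ := Submodule.mem_sup.1 h2
    have h3 : φ (b + pqgen_in S p₀ w) = w := hφ _ _ (by rwa [add_sub_cancel_right])
    rw [h3, add_sub_cancel_right]
    exact hb
  refine ⟨p₀, φ, ⟨fun v y => ?_, fun y => ?_⟩, fun y hy => ?_, fun w => ?_⟩
  · apply hφ
    rw [hi1, ← map_sub]
    exact hB.sg v _ (hφ' y)
  · apply hφ
    rw [hi2, ← map_sub]
    exact hB.lm _ (hφ' y)
  · apply hφ
    rwa [map_zero, sub_zero]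
  · apply hφ
    rw [sub_self]
    exact B.zero_mem

end

theorem tPqGen.{v} : StmtPqGen.{v} := by
  intro ℓ _ V ι _ S hS hHom a κ x
  classical
  have hSp : ∀ p : (Σ i, Fin (a i)), IrrW (S p.1).σ (S p.1).Λ := fun p => hS p.1
  constructor
  · intro h i c hc hx j
    let Φ : (Sys.pi fun p : (Σ i, Fin (a i)) => S p.1).W →ₗ[ZMod ℓ] (S i).W :=
      ∑ j, c j ∘ₗ pqgen_pr (fun p : (Σ i, Fin (a i)) => S p.1) ⟨i, j⟩
    have hΦ : ∀ y : (Sys.pi fun p : (Σ i, Fin (a i)) => S p.1).W,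
        Φ y = ∑ j, c j (y ⟨i, j⟩) := by
      intro y
      change (∑ j, c j ∘ₗ pqgen_pr (fun p : (Σ i, Fin (a i)) => S p.1) ⟨i, j⟩) y = _
      rw [LinearMap.sum_apply]
      rfl
    have h1 : LinearMap.ker Φ = ⊤ := by
      refine h _ ⟨fun v y hy => ?_, fun y hy => ?_⟩ fun k => ?_
      · rw [LinearMap.mem_ker, hΦ] at hy ⊢
        have h2 : ∀ j, c j ((Sys.pi fun p : (Σ i, Fin (a i)) => S p.1).σ v y ⟨i, j⟩) =
            (S i).σ v (c j (y ⟨i, j⟩)) := fun j => (hc j).1 v _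
        rw [Finset.sum_congr rfl fun j _ => h2 j, ← map_sum, hy, map_zero]
      · rw [LinearMap.mem_ker, hΦ] at hy ⊢
        have h2 : ∀ j, c j ((Sys.pi fun p : (Σ i, Fin (a i)) => S p.1).Λ y ⟨i, j⟩) =
            (S i).Λ (c j (y ⟨i, j⟩)) := fun j => (hc j).2 _
        rw [Finset.sum_congr rfl fun j _ => h2 j, ← map_sum, hy, map_zero]
      · rw [LinearMap.mem_ker, hΦ]
        exact hx k
    apply LinearMap.ext
    intro w
    have h3 : pqgen_in (fun p : (Σ i, Fin (a i)) => S p.1) ⟨i, j⟩ w ∈ LinearMap.ker Φ := by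
      rw [h1]
      exact Submodule.mem_top
    rw [LinearMap.mem_ker, hΦ, Finset.sum_eq_single j] at h3
    · rw [pqgen_in_apply, Pi.single_eq_same] at h3
      rw [h3, LinearMap.zero_apply]
    · intro j' _ hj'
      have h4 : (⟨i, j'⟩ : Σ i, Fin (a i)) ≠ ⟨i, j⟩ := by
        intro h5
        exact hj' (by simpa using h5)
      rw [pqgen_in_apply, Pi.single_eq_of_ne h4, map_zero]
    · intro h4
      exact absurd (Finset.mem_univ j) h4
  · intro h A hA hx
    by_contra hne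
    have : Finite (Sys.pi fun p : (Σ i, Fin (a i)) => S p.1).W := inferInstance
    have hfin : Finite (Submodule (ZMod ℓ) (Sys.pi fun p : (Σ i, Fin (a i)) => S p.1).W) :=
      inferInstance
    obtain ⟨B, hAB, hB⟩ := (Set.toFinite {C | Inv (Sys.pi fun p : (Σ i, Fin (a i)) => S p.1).σ
        (Sys.pi fun p : (Σ i, Fin (a i)) => S p.1).Λ C ∧ C ≠ ⊤}).exists_le_maximal
        (a := A) ⟨hA, hne⟩
    obtain ⟨p₀, φ, hφ, hφB, hφi⟩ := pqgen_proj (fun p : (Σ i, Fin (a i)) => S p.1) hSp B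
      hB.1.1 hB.1.2 (fun C hC hC' hBC => hB.2 ⟨hC, hC'⟩ hBC)
    obtain ⟨i, j₀⟩ := p₀
    have h1 : ∀ p : (Σ i, Fin (a i)), φ ∘ₗ pqgen_in (fun p : (Σ i, Fin (a i)) => S p.1) p ∈
        HomS (S p.1) (S i) := by
      intro p
      obtain ⟨hi1, hi2⟩ := pqgen_in_mem (fun p : (Σ i, Fin (a i)) => S p.1) p
      refine ⟨fun v y => ?_, fun y => ?_⟩
      · rw [LinearMap.comp_apply, hi1, hφ.1]
        rfl
      · rw [LinearMap.comp_apply, hi2, hφ.2]
        rfl
    have h2 : ∀ y, φ y = ∑ j, φ (pqgen_in (fun p : (Σ i, Fin (a i)) => S p.1) ⟨i, j⟩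
        (y ⟨i, j⟩)) := by
      intro y
      conv_lhs => rw [← pqgen_sum (fun p : (Σ i, Fin (a i)) => S p.1) y]
      rw [map_sum, Fintype.sum_sigma, Finset.sum_eq_single i]
      · intro i' _ hi'
        apply Finset.sum_eq_zero
        intro j _
        have h3 := h1 ⟨i', j⟩
        rw [hHom i' i hi', Submodule.mem_bot] at h3
        exact congrArg (fun f : (S i').W →ₗ[ZMod ℓ] (S i).W => f (y ⟨i', j⟩)) h3
      · intro h4
        exact absurd (Finset.mem_univ i) h4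
    have h3 := h i (fun j => φ ∘ₗ pqgen_in (fun p : (Σ i, Fin (a i)) => S p.1) ⟨i, j⟩)
      (fun j => h1 ⟨i, j⟩) (fun k => by
        have h4 := h2 (x k)
        rw [hφB _ (hAB (hx k))] at h4
        exact h4.symm) j₀
    have := (hS i).nontriv
    obtain ⟨w, hw⟩ := exists_ne (0 : (S i).W)
    apply hw
    have h4 := congrArg (fun f : (S i).W →ₗ[ZMod ℓ] (S i).W => f w) h3
    rw [← hφi w]
    exact h4

end MP72e2e6
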