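import Pool.Agent.Lib.MP_72e2e6_nt.PhStmt
import Pool.Agent.Lib.MP_72e2e6_nt.PqGen

/-!
# MP_72e2e6_nt: the exact moments for `ℓ = 2`, the forms on the powers of a system
-/

set_option autoImplicit false

namespace MP72e2e6

open Polynomial

universe u

/-- Symmetric double sums modulo two. -/
theorem phpw_sum {I : Type} [Fintype I] (h : I → I → ZMod 2) (hs : ∀ p q, h p q = h q p) :
    ∑ p, ∑ q, h p q = ∑ p, h p p := by
  classical
  have h1 : ∑ x : I × I, (h x.1 x.2 - if x.1 = x.2 then h x.1 x.1 else 0) = 0 := by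
    refine Finset.sum_involution (fun x _ => (x.2, x.1)) (fun x _ => ?_) (fun x _ hx => ?_)
      (fun x _ => Finset.mem_univ _) (fun x _ => rfl)
    · by_cases hx : x.1 = x.2
      · rw [if_pos hx, if_pos hx.symm, ← hx, sub_self, add_zero]
      · rw [if_neg hx, if_neg (fun h' => hx h'.symm), sub_zero, sub_zero, hs x.2 x.1]
        exact CharTwo.add_self_eq_zero _
    · intro h2
      apply hx
      have h3 : x.2 = x.1 := congrArg Prod.fst h2
      rw [if_pos h3.symm, h3, sub_self]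
  rw [Finset.sum_sub_distrib, sub_eq_zero, Fintype.sum_prod_type, Fintype.sum_prod_type] at h1
  rw [h1]
  refine Finset.sum_congr rfl fun p _ => ?_
  rw [Finset.sum_ite_eq Finset.univ p, if_pos (Finset.mem_univ _)]

section

variable {V : Type} {S : Sys 2 V}

theorem phpw_symm {f : S.W →ₗ[ZMod 2] Module.Dual (ZMod 2) S.W} (hf : ∀ x, f x x = 0)
    (x y : S.W) : f x y = f y x := by
  have h1 := hf (x + y)
  simp only [map_add, LinearMap.add_apply] at h1
  rw [hf x, hf y, zero_add, add_zero] at h1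
  exact (CharTwo.add_eq_zero.1 h1).symm

variable {I : Type} [Fintype I]

/-- The form with the matrix `t`. -/
noncomputable def phpw_frm (f : S.W →ₗ[ZMod 2] Module.Dual (ZMod 2) S.W) (t : I → I → ZMod 2) :
    (Sys.pi fun _ : I => S).W →ₗ[ZMod 2] Module.Dual (ZMod 2) (Sys.pi fun _ : I => S).W :=
  ∑ p, ∑ q, t p q •
    LinearMap.compl₁₂ f (pqgen_pr (fun _ : I => S) p) (pqgen_pr (fun _ : I => S) q)

theorem phpw_frm_apply (f : S.W →ₗ[ZMod 2] Module.Dual (ZMod 2) S.W) (t : I → I → ZMod 2)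
    (x y : (Sys.pi fun _ : I => S).W) :
    phpw_frm f t x y = ∑ p, ∑ q, t p q * f (x p) (y q) := by
  unfold phpw_frm
  simp only [LinearMap.sum_apply, LinearMap.smul_apply, LinearMap.compl₁₂_apply, smul_eq_mul]
  rfl

theorem phpw_frm_mem {f : S.W →ₗ[ZMod 2] Module.Dual (ZMod 2) S.W} (hf : f ∈ Sa S.σ S.Λ)
    (t : I → I → ZMod 2) (ht : ∀ p q, t p q = t q p) :
    phpw_frm f t ∈ Sa (Sys.pi fun _ : I => S).σ (Sys.pi fun _ : I => S).Λ := by
  obtain ⟨f1, f2, f3⟩ := hf
  refine ⟨fun x => ?_, fun v x y => ?_, fun x y => ?_⟩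
  · rw [phpw_frm_apply, phpw_sum (fun p q => t p q * f (x p) (x q))]
    · exact Finset.sum_eq_zero fun p _ => by rw [f1, mul_zero]
    · intro p q
      rw [ht p q, phpw_symm f1]
  · rw [phpw_frm_apply, phpw_frm_apply]
    refine Finset.sum_congr rfl fun p _ => Finset.sum_congr rfl fun q _ => ?_
    rw [pqgen_sg, pqgen_sg, f2]
  · rw [phpw_frm_apply, phpw_frm_apply]
    refine Finset.sum_congr rfl fun p _ => Finset.sum_congr rfl fun q _ => ?_
    rw [pqgen_lm, pqgen_lm, f3]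

theorem phpw_ne {f : S.W →ₗ[ZMod 2] Module.Dual (ZMod 2) S.W} (hf0 : f ≠ 0) :
    ∃ x y, f x y ≠ 0 := by
  by_contra h
  push Not at h
  exact hf0 (LinearMap.ext fun x => LinearMap.ext fun y => h x y)

theorem phpw_rep {f : S.W →ₗ[ZMod 2] Module.Dual (ZMod 2) S.W} (hf : f ∈ Sa S.σ S.Λ)
    (hf0 : f ≠ 0) (hB : ∀ g ∈ BilS S S, ∃ t : ZMod 2, g = t • f)
    (g : (Sys.pi fun _ : I => S).W →ₗ[ZMod 2] Module.Dual (ZMod 2) (Sys.pi fun _ : I => S).W)
    (hg : g ∈ Sa (Sys.pi fun _ : I => S).σ (Sys.pi fun _ : I => S).Λ) :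
    ∃ t : I → I → ZMod 2, (∀ p q, t p q = t q p) ∧ g = phpw_frm f t := by
  classical
  obtain ⟨g1, g2, g3⟩ := hg
  have h1 : ∀ p q, ∃ t : ZMod 2, ∀ x y,
      g (pqgen_in (fun _ : I => S) p x) (pqgen_in (fun _ : I => S) q y) = t * f x y := by
    intro p q
    obtain ⟨p1, p2⟩ := pqgen_in_mem (fun _ : I => S) p
    obtain ⟨q1, q2⟩ := pqgen_in_mem (fun _ : I => S) q
    obtain ⟨t, ht⟩ := hB (LinearMap.compl₁₂ g (pqgen_in (fun _ : I => S) p)
      (pqgen_in (fun _ : I => S) q)) ⟨fun v x y => by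
        rw [LinearMap.compl₁₂_apply, LinearMap.compl₁₂_apply, p1, q1, g2], fun x y => by
        rw [LinearMap.compl₁₂_apply, LinearMap.compl₁₂_apply, p2, q2, g3]⟩
    refine ⟨t, fun x y => ?_⟩
    have h2 := congrArg (fun h : S.W →ₗ[ZMod 2] Module.Dual (ZMod 2) S.W => h x y) ht
    simpa using h2
  choose t ht using h1
  obtain ⟨x0, y0, hxy⟩ := phpw_ne hf0
  refine ⟨t, fun p q => ?_, LinearMap.ext fun x => LinearMap.ext fun y => ?_⟩
  · have a := ht p q x0 y0
    have b := ht q p y0 x0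
    rw [phpw_symm hf.1 y0 x0, phpw_symm (S := Sys.pi fun _ : I => S) g1, a] at b
    exact mul_right_cancel₀ hxy b
  · rw [phpw_frm_apply]
    conv_lhs => rw [← pqgen_sum (fun _ : I => S) x, ← pqgen_sum (fun _ : I => S) y]
    rw [map_sum g, LinearMap.sum_apply]
    refine Finset.sum_congr rfl fun p _ => ?_
    rw [map_sum]
    exact Finset.sum_congr rfl fun q _ => ht p q _ _

variable {F : Type u} [Field F] [Fintype V]

theorem phpw_M_self {f : S.W →ₗ[ZMod 2] Module.Dual (ZMod 2) S.W} (hf : f ∈ Sa S.σ S.Λ)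
    (χ : F → ZMod 2) (pr : V → F[X]) (v : V) (x y : S.W) :
    f (Mop χ pr S.σ S.Λ v x) y = f x (Mop χ pr S.σ S.Λ v y) := by
  obtain ⟨f1, f2, f3⟩ := hf
  unfold Mop
  simp only [map_add, map_sum, map_smul, LinearMap.add_apply, LinearMap.sum_apply,
    LinearMap.smul_apply]
  rw [f3]
  simp only [f2]

theorem phpw_M_pi (χ : F → ZMod 2) (pr : V → F[X]) (v : V) (x : (Sys.pi fun _ : I => S).W)
    (p : I) : Mop χ pr (Sys.pi fun _ : I => S).σ (Sys.pi fun _ : I => S).Λ v x p =
      Mop χ pr S.σ S.Λ v (x p) := by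
  change pqgen_pr (fun _ : I => S) p
    (Mop χ pr (Sys.pi fun _ : I => S).σ (Sys.pi fun _ : I => S).Λ v x) = _
  unfold Mop
  rw [map_add, map_sum, map_smul]
  simp only [map_smul]
  rfl

theorem phpw_rel {f : S.W →ₗ[ZMod 2] Module.Dual (ZMod 2) S.W} (hf : f ∈ Sa S.σ S.Λ)
    (χ : F → ZMod 2) (pr : V → F[X]) (hH : HypW χ pr S.σ S.Λ)
    (hr : RelF χ pr S.σ S.Λ f) (t : I → I → ZMod 2) (ht : ∀ p q, t p q = t q p) :
    RelF χ pr (Sys.pi fun _ : I => S).σ (Sys.pi fun _ : I => S).Λ (phpw_frm f t) := by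
  have hM := phpw_M_self hf χ pr
  obtain ⟨f1, f2, f3⟩ := hf
  have key : ∀ (O : S.W → S.W) (_ : ∀ a b, f (O a) b = f a (O b))
      (x y : (Sys.pi fun _ : I => S).W) (_ : ∀ p, y p = O (x p)),
      phpw_frm f t x y = ∑ p, t p p * f (x p) (O (x p)) := by
    intro O hO x y hy
    rw [phpw_frm_apply]
    simp only [hy]
    refine phpw_sum (fun p q => t p q * f (x p) (O (x q))) fun p q => ?_
    rw [ht p q, phpw_symm f1, hO]
  have hcom : ∀ v y, S.σ v (Mop χ pr S.σ S.Λ v y) = Mop χ pr S.σ S.Λ v (S.σ v y) :=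
    fun v y => hH.com v y
  intro v x
  rw [key (fun a => S.σ v (Mop χ pr S.σ S.Λ v a))
    (fun a b => by rw [f2, ← hM, ← hcom]) x _ (fun p => by rw [pqgen_sg, phpw_M_pi]),
    key (fun a => S.Λ a) (fun a b => (f3 a b).symm) _ _ (fun p => pqgen_lm _ _ _),
    key (fun a => S.σ v a) (fun a b => (f2 v a b).symm) _ _ (fun p => pqgen_sg _ _ _ _)]
  have h2 : ∀ v', phpw_frm f t ((Sys.pi fun _ : I => S).σ v x)
      ((Sys.pi fun _ : I => S).σ v' ((Sys.pi fun _ : I => S).σ v x)) =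
      ∑ p, t p p * f (S.σ v (x p)) (S.σ v' (S.σ v (x p))) := by
    intro v'
    rw [key (fun a => S.σ v' a) (fun a b => (f2 v' a b).symm) _ _ (fun p => pqgen_sg _ _ _ _)]
    rfl
  simp only [h2, Finset.mul_sum]
  rw [Finset.sum_comm, ← Finset.sum_add_distrib, ← Finset.sum_add_distrib]
  refine Finset.sum_congr rfl fun p _ => ?_
  rw [phpw_M_pi, pqgen_sg]
  have h3 := hr v (x p)
  rw [h3, mul_add, mul_add, Finset.mul_sum]
  refine congrArg₂ (· + ·) (congrArg₂ (· + ·) (Finset.sum_congr rfl fun v' _ => ?_) ?_) rfl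
  · ring
  · ring

end

theorem tPhPw.{v} : StmtPhPw.{v} := by
  intro F _ V _ χ pr S hH f hf hf0 hB hr I _
  classical
  refine ⟨fun g hg => ?_, ?_⟩
  · obtain ⟨t, ht, rfl⟩ := phpw_rep hf hf0 hB g hg
    exact phpw_rel hf χ pr hH hr t ht
  · let Φ : (Sym2 I → ZMod 2) → Sa (Sys.pi fun _ : I => S).σ (Sys.pi fun _ : I => S).Λ :=
      fun τ => ⟨phpw_frm f fun p q => τ s(p, q),
        phpw_frm_mem hf _ fun p q => by rw [Sym2.eq_swap]⟩
    have hΦ : Function.Bijective Φ := by
      constructor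
      · intro τ τ' h
        obtain ⟨x0, y0, hxy⟩ := phpw_ne hf0
        have h1 : ∀ (t : I → I → ZMod 2) (p q : I), phpw_frm f t
            (pqgen_in (fun _ : I => S) p x0) (pqgen_in (fun _ : I => S) q y0) =
            t p q * f x0 y0 := by
          intro t p q
          rw [phpw_frm_apply, Finset.sum_eq_single p, Finset.sum_eq_single q]
          · rw [pqgen_in_apply, pqgen_in_apply, Pi.single_eq_same, Pi.single_eq_same]
          · intro q' _ hq'
            rw [pqgen_in_apply (fun _ : I => S) q, Pi.single_eq_of_ne hq', map_zero, mul_zero]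
          · intro h'
            exact absurd (Finset.mem_univ _) h'
          · intro p' _ hp'
            refine Finset.sum_eq_zero fun q' _ => ?_
            rw [pqgen_in_apply (fun _ : I => S) p, Pi.single_eq_of_ne hp', map_zero,
              LinearMap.zero_apply, mul_zero]
          · intro h'
            exact absurd (Finset.mem_univ _) h'
        funext z
        induction z using Sym2.ind with
        | _ p q =>
          have h2 : phpw_frm f (fun p q => τ s(p, q)) = phpw_frm f (fun p q => τ' s(p, q)) :=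
            congrArg Subtype.val h
          have h3 := h1 (fun p q => τ s(p, q)) p q
          rw [h2, h1] at h3
          exact (mul_right_cancel₀ hxy h3).symm
      · rintro ⟨g, hg⟩
        obtain ⟨t, ht, rfl⟩ := phpw_rep hf hf0 hB g hg
        refine ⟨fun z => Sym2.lift ⟨t, ht⟩ z, Subtype.ext ?_⟩
        rfl
    rw [← Nat.card_eq_of_bijective Φ hΦ, Nat.card_eq_fintype_card, Fintype.card_fun,
      Sym2.card, Nat.choose_two_right, ZMod.card, Nat.add_sub_cancel, mul_comm (Fintype.card I + 1)]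

end MP72e2e6
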