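import Pool.Agent.Lib.MP_72e2e6_nt.PhStmt

/-!
# MP_72e2e6_nt : the relation implies that the phase is trivial
-/

set_option autoImplicit false

namespace MP72e2e6

open Polynomial

universe u

section aux

variable {W : Type} [AddCommGroup W] [Module (ZMod 2) W]

theorem phrt_symm {g : W →ₗ[ZMod 2] Module.Dual (ZMod 2) W} (hg : ∀ x, g x x = 0) (x y : W) :
    g x y = g y x := by
  have h := hg (x + y)
  rw [map_add, map_add, LinearMap.add_apply, LinearMap.add_apply, hg, hg, zero_add,
    add_zero] at h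
  have h2 : g y x = -(g x y) := by linear_combination h
  rw [h2, CharTwo.neg_eq]

theorem phrt_add {g : W →ₗ[ZMod 2] Module.Dual (ZMod 2) W} (hg : ∀ x, g x x = 0)
    {T : Module.End (ZMod 2) W} (hT : ∀ x y, g x (T y) = g (T x) y) (x y : W) :
    g (x + y) (T (x + y)) = g x (T x) + g y (T y) := by
  rw [map_add g, LinearMap.add_apply, map_add T, map_add, map_add]
  have h : g y (T x) = g x (T y) := by rw [hT, phrt_symm hg]
  have h2 : g x (T y) + g x (T y) = 0 := CharTwo.add_self_eq_zero _
  rw [h]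
  linear_combination h2

/-- the diagonal of a self-adjoint operator -/
def phrt_phi (g : W →ₗ[ZMod 2] Module.Dual (ZMod 2) W) (hg : ∀ x, g x x = 0)
    (T : Module.End (ZMod 2) W) (hT : ∀ x y, g x (T y) = g (T x) y) : W →ₗ[ZMod 2] ZMod 2 :=
  AddMonoidHom.toZModLinearMap 2
    { toFun := fun x => g x (T x)
      map_zero' := by simp
      map_add' := phrt_add hg hT }

theorem phrt_phi_apply (g : W →ₗ[ZMod 2] Module.Dual (ZMod 2) W) (hg : ∀ x, g x x = 0)
    (T : Module.End (ZMod 2) W) (hT : ∀ x y, g x (T y) = g (T x) y) (x : W) :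
    phrt_phi g hg T hT x = g x (T x) := rfl

/-- the phase -/
theorem phrt_phase {V : Type} [Fintype V]
    (g : W →ₗ[ZMod 2] Module.Dual (ZMod 2) W) (hg : ∀ x, g x x = 0)
    (S : V → Module.End (ZMod 2) W) (L : Module.End (ZMod 2) W)
    (hS : ∀ v x y, g x (S v y) = g (S v x) y) (hL : ∀ x y, g x (L y) = g (L x) y)
    (D : V → ZMod 2) (s : V → V → ZMod 2) (hs : ∀ v v', s v v' = s v' v)
    (hcom : ∀ v y, S v (∑ v', s v v' • S v' y + D v • L y) =
      ∑ v', s v v' • S v' (S v y) + D v • L (S v y))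
    (δ : Module.Dual (ZMod 2) W) (c : V → W)
    (hrel : ∀ v x, g x (S v (∑ v', s v v' • S v' x + D v • L x)) =
      ∑ v', s v v' * g (S v x) (S v' (S v x)) + D v * g (S v x) (L (S v x)) +
        g (∑ v', s v v' • S v' x + D v • L x) (S v (∑ v', s v v' • S v' x + D v • L x))) :
    (δ (L (∑ v, D v • S v (c v))) + g (∑ v, D v • S v (c v)) (L (∑ v, D v • S v (c v)))) +
      ∑ v, (δ (S v (∑ v', s v v' • S v' (c v' - c v) - D v • L (c v))) +
        g (c v) (S v (∑ v', s v v' • S v' (c v' - c v) - D v • L (c v))) +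
        g (∑ v', s v v' • S v' (c v' - c v) - D v • L (c v))
          (S v (∑ v', s v v' • S v' (c v' - c v) - D v • L (c v)))) = 0 := by
  have hE : ∀ v, ∑ v', s v v' • S v' (c v' - c v) - D v • L (c v) =
      ∑ v', s v v' • S v' (c v') - (∑ v', s v v' • S v' (c v) + D v • L (c v)) := by
    intro v
    have h3 : ∑ v', s v v' • S v' (c v' - c v) =
        ∑ v', s v v' • S v' (c v') - ∑ v', s v v' • S v' (c v) := by
      rw [← Finset.sum_sub_distrib]
      refine Finset.sum_congr rfl fun v' _ => ?_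
      rw [map_sub, smul_sub]
    rw [h3]
    abel
  have hw : ∀ v, S v (∑ v', s v v' • S v' (c v' - c v) - D v • L (c v)) =
      ∑ v', s v v' • S v (S v' (c v')) -
        (∑ v', s v v' • S v' (S v (c v)) + D v • L (S v (c v))) := by
    intro v
    rw [hE, map_sub, hcom]
    congr 1
    rw [map_sum]
    refine Finset.sum_congr rfl fun v' _ => ?_
    rw [map_smul]
  -- the part with the functional
  have hδ : L (∑ v, D v • S v (c v)) + ∑ v, S v
      (∑ v', s v v' • S v' (c v' - c v) - D v • L (c v)) = 0 := by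
    have h4 : ∑ v, S v (∑ v', s v v' • S v' (c v' - c v) - D v • L (c v)) =
        ∑ v, ∑ v', s v v' • S v (S v' (c v')) - (∑ v, ∑ v', s v v' • S v' (S v (c v)) +
          ∑ v, D v • L (S v (c v))) := by
      rw [← Finset.sum_add_distrib, ← Finset.sum_sub_distrib]
      exact Finset.sum_congr rfl fun v _ => hw v
    have h5 : ∑ v, ∑ v', s v v' • S v (S v' (c v')) = ∑ v, ∑ v', s v v' • S v' (S v (c v)) := by
      rw [Finset.sum_comm]
      refine Finset.sum_congr rfl fun v _ => Finset.sum_congr rfl fun v' _ => ?_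
      rw [hs v' v]
    have h6 : L (∑ v, D v • S v (c v)) = ∑ v, D v • L (S v (c v)) := by
      rw [map_sum]
      refine Finset.sum_congr rfl fun v _ => ?_
      rw [map_smul]
    rw [h4, h5, h6]
    abel
  -- notation
  set X := ∑ v, D v • S v (c v) with hX
  set E : V → W := fun v => ∑ v', s v v' • S v' (c v' - c v) - D v • L (c v) with hEdef
  set P : V → W := fun v => ∑ v', s v v' • S v' (c v') with hP
  set M : V → W := fun v => ∑ v', s v v' • S v' (c v) + D v • L (c v) with hM
  have hE' : ∀ v, E v = P v - M v := hE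
  have h1 : ∑ v, (δ (S v (E v)) + g (c v) (S v (E v)) + g (E v) (S v (E v))) =
      δ (∑ v, S v (E v)) + ∑ v, g (c v) (S v (E v)) + ∑ v, g (E v) (S v (E v)) := by
    rw [Finset.sum_add_distrib, Finset.sum_add_distrib, map_sum]
  have hδ' : δ (L X) + δ (∑ v, S v (E v)) = 0 := by
    rw [← map_add, hδ, map_zero]
  -- the alternating part
  have h2 : ∑ v, g (c v) (S v (P v)) = 0 := by
    have h3 : ∀ v, g (c v) (S v (P v)) = ∑ v', s v v' * g (S v (c v)) (S v' (c v')) := by
      intro v
      rw [hS, hP, map_sum]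
      refine Finset.sum_congr rfl fun v' _ => ?_
      rw [map_smul, smul_eq_mul]
    rw [Finset.sum_congr rfl fun v _ => h3 v, ← Finset.sum_product']
    apply Finset.sum_involution (fun p _ => (p.2, p.1))
    · rintro ⟨v, v'⟩ _
      rw [hs v' v, phrt_symm hg (S v' (c v'))]
      exact CharTwo.add_self_eq_zero _
    · rintro ⟨v, v'⟩ _ hne heq
      have hvv : v' = v := congrArg Prod.fst heq
      apply hne
      rw [hvv]
      dsimp only
      rw [hg, mul_zero]
    · rintro ⟨v, v'⟩ _
      exact Finset.mem_univ _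
    · rintro ⟨v, v'⟩ _
      rfl
  have h4 : ∀ v, g (c v) (S v (E v)) = g (c v) (S v (P v)) - g (c v) (S v (M v)) := by
    intro v
    rw [hE', map_sub, map_sub]
  have h5 : ∀ v, g (E v) (S v (E v)) = g (P v) (S v (P v)) + g (M v) (S v (M v)) := by
    intro v
    have e : phrt_phi g hg (S v) (hS v) (E v) =
        phrt_phi g hg (S v) (hS v) (P v) - phrt_phi g hg (S v) (hS v) (M v) := by
      rw [hE', map_sub]
    rw [phrt_phi_apply, phrt_phi_apply, phrt_phi_apply, CharTwo.sub_eq_add] at e
    exact e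
  have h6 : ∀ v, g (P v) (S v (P v)) = ∑ v', s v v' * g (S v' (c v')) (S v (S v' (c v'))) := by
    intro v
    have e : phrt_phi g hg (S v) (hS v) (P v) =
        ∑ v', s v v' * phrt_phi g hg (S v) (hS v) (S v' (c v')) := by
      rw [hP, map_sum]
      refine Finset.sum_congr rfl fun v' _ => ?_
      rw [map_smul, smul_eq_mul]
    simp only [phrt_phi_apply] at e
    exact e
  have h7 : g X (L X) = ∑ v, D v * g (S v (c v)) (L (S v (c v))) := by
    have e : phrt_phi g hg L hL X = ∑ v, D v * phrt_phi g hg L hL (S v (c v)) := by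
      rw [hX, map_sum]
      refine Finset.sum_congr rfl fun v' _ => ?_
      rw [map_smul, smul_eq_mul]
    simp only [phrt_phi_apply] at e
    exact e
  have h8 : ∀ v, g (c v) (S v (M v)) = ∑ v', s v v' * g (S v (c v)) (S v' (S v (c v))) +
      D v * g (S v (c v)) (L (S v (c v))) + g (M v) (S v (M v)) := fun v => hrel v (c v)
  have h9 : ∑ v, ∑ v', s v v' * g (S v' (c v')) (S v (S v' (c v'))) =
      ∑ v, ∑ v', s v v' * g (S v (c v)) (S v' (S v (c v))) := by
    rw [Finset.sum_comm]
    refine Finset.sum_congr rfl fun v _ => Finset.sum_congr rfl fun v' _ => ?_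
    rw [hs v' v]
  have h10 : ∑ v, g (c v) (S v (E v)) = -(∑ v, g (c v) (S v (M v))) := by
    rw [Finset.sum_congr rfl fun v _ => h4 v, Finset.sum_sub_distrib, h2, zero_sub]
  have h11 : ∑ v, g (c v) (S v (M v)) =
      ∑ v, ∑ v', s v v' * g (S v (c v)) (S v' (S v (c v))) +
        ∑ v, D v * g (S v (c v)) (L (S v (c v))) + ∑ v, g (M v) (S v (M v)) := by
    rw [Finset.sum_congr rfl fun v _ => h8 v, Finset.sum_add_distrib, Finset.sum_add_distrib]
  have h12 : ∑ v, g (E v) (S v (E v)) =
      ∑ v, ∑ v', s v v' * g (S v (c v)) (S v' (S v (c v))) + ∑ v, g (M v) (S v (M v)) := by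
    rw [Finset.sum_congr rfl fun v _ => h5 v, Finset.sum_add_distrib,
      Finset.sum_congr rfl fun v _ => h6 v, h9]
  change (δ (L X) + g X (L X)) +
    ∑ v, (δ (S v (E v)) + g (c v) (S v (E v)) + g (E v) (S v (E v))) = 0
  rw [h1, h10, h11, h12, h7]
  linear_combination hδ'

end aux

theorem tPhRT.{w} : StmtPhRT.{w} := by
  intro F _ V W _ _ _ _ χ pr σ Λ hW hs g hg hrel δ c d η hd hη
  obtain ⟨hg1, hg2, hg3⟩ := hg
  have h := phrt_phase g hg1 σ Λ hg2 hg3 (fun v => ((pr v).natDegree : ZMod 2))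
    (fun v v' => syl χ (pr v) (pr v')) hs hW.com δ c hrel
  rw [thW, hη]
  rw [Finset.sum_congr rfl fun v _ => hd v _]
  exact h

end MP72e2e6
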