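import Pool.Agent.Lib.MP_72e2e6_nt.PqStmt

/-!
# MP_72e2e6_nt : one variable, the case u = q, even exponents
-/

set_option autoImplicit false

namespace MP72e2e6

open Polynomial

/-- `(X - q) ... (X - q ^ a)` -/
noncomputable def pqoneb_R (q : ℝ) (a : ℕ) : ℝ[X] :=
  ∏ i ∈ Finset.range a, (X - C (q ^ (i + 1)))

/-- `(X - q) (X - q ^ 3) ...` -/
noncomputable def pqoneb_o (q : ℝ) (k : ℕ) : ℝ[X] :=
  ∏ i ∈ Finset.range k, (X - C (q ^ (2 * i + 1)))

/-- `(X - q ^ 2) (X - q ^ 4) ...` -/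
noncomputable def pqoneb_P (q : ℝ) (k : ℕ) : ℝ[X] :=
  ∏ i ∈ Finset.range k, (X - C (q ^ (2 * (i + 1))))

theorem pqoneb_R_deg (q : ℝ) (a : ℕ) : (pqoneb_R q a).degree = a := by
  unfold pqoneb_R
  rw [degree_prod, Finset.sum_congr rfl (fun i _ => degree_X_sub_C _)]
  simp

theorem pqoneb_R_monic (q : ℝ) (a : ℕ) : (pqoneb_R q a).Monic := by
  unfold pqoneb_R
  exact monic_prod_of_monic _ _ fun i _ => monic_X_sub_C _

/-- the sequence of the `R a` -/
noncomputable def pqoneb_seq (q : ℝ) : Polynomial.Sequence ℝ where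
  elems' := pqoneb_R q
  degree_eq' := pqoneb_R_deg q

theorem pqoneb_span (q : ℝ) : Submodule.span ℝ (Set.range (pqoneb_R q)) = ⊤ :=
  (pqoneb_seq q).span fun i => by
    have h : (pqoneb_R q i).leadingCoeff = 1 := pqoneb_R_monic q i
    change IsUnit (pqoneb_R q i).leadingCoeff
    rw [h]
    exact isUnit_one

theorem pqoneb_comp (q : ℝ) (_ : q ≠ 0) (f : ℕ → ℝ) (k : ℕ) :
    (∏ i ∈ Finset.range k, (X - C (q * f i)) : ℝ[X]).comp (C q * X) =
      C (q ^ k) * ∏ i ∈ Finset.range k, (X - C (f i)) := by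
  rw [prod_comp]
  have : ∀ i ∈ Finset.range k, (X - C (q * f i) : ℝ[X]).comp (C q * X) = C q * (X - C (f i)) := by
    intro i _
    rw [sub_comp, X_comp, C_comp, C_mul]
    ring
  rw [Finset.prod_congr rfl this, Finset.prod_mul_distrib, Finset.prod_const, Finset.card_range,
    C_pow]

theorem pqoneb_R_comp (q : ℝ) (hq : q ≠ 0) (a : ℕ) :
    (pqoneb_R q a).comp (C q * X) = C (q ^ a) * Eq_ q a := by
  unfold pqoneb_R Eq_
  rw [← pqoneb_comp q hq (fun i => q ^ i) a]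
  congr 1
  apply Finset.prod_congr rfl
  intro i _
  rw [pow_succ, mul_comm]

theorem pqoneb_R_mul (q : ℝ) (a : ℕ) : (X - 1) * pqoneb_R q a = Eq_ q (a + 1) := by
  unfold pqoneb_R Eq_
  rw [Finset.prod_range_succ', pow_zero, C_1]
  ring

theorem pqoneb_o_comp (q : ℝ) (hq : q ≠ 0) (k : ℕ) :
    (pqoneb_o q k).comp (C q * X) = C (q ^ k) * Eq_ (q ^ 2) k := by
  unfold pqoneb_o Eq_
  rw [← pqoneb_comp q hq (fun i => (q ^ 2) ^ i) k]
  congr 1
  apply Finset.prod_congr rfl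
  intro i _
  rw [pow_succ, pow_mul, mul_comm]

theorem pqoneb_P_comp (q : ℝ) (hq : q ≠ 0) (k : ℕ) :
    (pqoneb_P q k).comp (C q * X) = C (q ^ k) * pqoneb_o q k := by
  unfold pqoneb_o pqoneb_P
  rw [← pqoneb_comp q hq (fun i => q ^ (2 * i + 1)) k]
  congr 1
  apply Finset.prod_congr rfl
  intro i _
  congr 2
  ring

theorem pqoneb_P_mul (q : ℝ) (k : ℕ) : (X - 1) * pqoneb_P q k = Eq_ (q ^ 2) (k + 1) := by
  unfold pqoneb_P Eq_
  rw [Finset.prod_range_succ', pow_zero, C_1, mul_comm]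
  congr 1
  apply Finset.prod_congr rfl
  intro i _
  rw [pow_mul]

theorem pqoneb_scale (q : ℝ) (hq : q ≠ 0) (L : ℝ[X] →ₗ[ℝ] ℝ)
    (hL : ∀ j : ℕ, L (Eq_ q j) = q ^ j * q ^ (j * (j - 1) / 2)) (p : ℝ[X]) :
    L ((X - 1) * p) = q * L (p.comp (C q * X)) := by
  have hp : p ∈ Submodule.span ℝ (Set.range (pqoneb_R q)) := by
    rw [pqoneb_span]; trivial
  induction hp using Submodule.span_induction with
  | mem p hp =>
    obtain ⟨a, rfl⟩ := hp
    rw [pqoneb_R_mul, pqoneb_R_comp q hq, hL (a + 1), ← smul_eq_C_mul, map_smul, hL a, smul_eq_mul]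
    have e1 : (a + 1) * (a + 1 - 1) / 2 = a * (a - 1) / 2 + a := by
      rw [Nat.add_sub_cancel]
      have : (a + 1) * a = a * (a - 1) + a * 2 := by
        rcases a with _ | a
        · simp
        · simp only [Nat.add_sub_cancel]; ring
      rw [this, Nat.add_mul_div_right _ _ (by norm_num)]
    rw [e1, pow_add, pow_succ]
    ring
  | zero => simp
  | add p p' _ _ h1 h2 => rw [mul_add, map_add, add_comp, map_add, h1, h2]; ring
  | smul c p _ h1 =>
    rw [mul_smul_comm, map_smul, smul_comp, map_smul, h1, smul_eq_mul, smul_eq_mul]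
    ring

theorem pqoneb_main (q : ℝ) (hq : q ≠ 0) (L : ℝ[X] →ₗ[ℝ] ℝ)
    (hL : ∀ j : ℕ, L (Eq_ q j) = q ^ j * q ^ (j * (j - 1) / 2)) (k : ℕ) :
    L (pqoneb_o q k) = 1 ∧ L (Eq_ (q ^ 2) k) = q ^ k := by
  induction k with
  | zero =>
    have h0 := hL 0
    simp only [Eq_, Finset.range_zero, Finset.prod_empty, pow_zero, Nat.zero_mul, Nat.zero_div,
      mul_one] at h0
    constructor
    · simpa [pqoneb_o] using h0
    · simpa [Eq_] using h0
  | succ k ih =>
    constructor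
    · have h1 : pqoneb_o q (k + 1) =
          (X - 1) * pqoneb_o q k + (1 - q ^ (2 * k + 1)) • pqoneb_o q k := by
        unfold pqoneb_o
        rw [Finset.prod_range_succ, smul_eq_C_mul, C_sub, C_1]
        ring
      rw [h1, map_add, pqoneb_scale q hq L hL, pqoneb_o_comp q hq, ← smul_eq_C_mul, map_smul,
        map_smul, ih.1, ih.2, smul_eq_mul, smul_eq_mul]
      ring
    · rw [← pqoneb_P_mul, pqoneb_scale q hq L hL, pqoneb_P_comp q hq, ← smul_eq_C_mul, map_smul,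
        ih.1, smul_eq_mul]
      ring

theorem tPqOneB (hPqOneC : StmtPqOneC) : StmtPqOneB := by
  intro ℓ hℓ q hq L hL η hη
  have hℓ' : (3 : ℝ) ≤ ℓ := by exact_mod_cast hℓ
  have hq3 : (3 : ℝ) ≤ q := hℓ'.trans hq
  have hq0 : q ≠ 0 := by linarith
  have hQ1 : 1 < q ^ 2 := by nlinarith
  have hpi : ∀ j, 0 < ∏ i ∈ Finset.range j, ((q ^ 2) ^ (i + 1) - 1) := by
    intro j
    apply Finset.prod_pos
    intro i _
    have := one_lt_pow₀ hQ1 (n := i + 1) (by omega)
    linarith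
  have hfac : ∀ j : ℕ, 2 * q ≤ (q ^ 2) ^ (j + 1) - 1 := by
    intro j
    have h1 : q ^ 2 ≤ (q ^ 2) ^ (j + 1) := by
      calc q ^ 2 = (q ^ 2) ^ 1 := (pow_one _).symm
        _ ≤ (q ^ 2) ^ (j + 1) := pow_le_pow_right₀ hQ1.le (by omega)
    nlinarith
  obtain ⟨fm, fp, h1, h2, h3, h4⟩ := hPqOneC (q ^ 2) hQ1 L
    (fun j => q ^ j / ∏ i ∈ Finset.range j, ((q ^ 2) ^ (i + 1) - 1))
    (fun j => by
      have := hpi j
      rw [(pqoneb_main q hq0 L hL j).2]
      field_simp)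
    (by simp)
    (fun j => by
      have := hpi j
      have : 0 < q := by linarith
      positivity)
    (fun j => by
      have hp := hpi j
      have hq' : 0 < q := by linarith
      have hj := one_lt_pow₀ hQ1 (n := j + 1) (by omega)
      show q ^ (j + 1) / ∏ i ∈ Finset.range (j + 1), ((q ^ 2) ^ (i + 1) - 1) ≤
        q ^ j / (∏ i ∈ Finset.range j, ((q ^ 2) ^ (i + 1) - 1)) / 2
      have hp2 : 0 < (q ^ 2) ^ (j + 1) - 1 := by linarith
      rw [Finset.prod_range_succ, div_div, div_le_div_iff₀ (by positivity) (by positivity), pow_succ]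
      have h5 := hfac j
      have h6 : 0 ≤ q ^ j * ∏ i ∈ Finset.range j, ((q ^ 2) ^ (i + 1) - 1) := by positivity
      have h7 := mul_le_mul_of_nonneg_left h5 h6
      calc q ^ j * q * ((∏ i ∈ Finset.range j, ((q ^ 2) ^ (i + 1) - 1)) * 2)
          = q ^ j * (∏ i ∈ Finset.range j, ((q ^ 2) ^ (i + 1) - 1)) * (2 * q) := by ring
        _ ≤ _ := h7
        _ = _ := by ring)
    η hη
  refine ⟨fm, fp, fun r => ?_, h2, le_trans ?_ h3, h4⟩
  · rw [pow_mul]
    exact h1 r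
  · have h5 : q ^ 1 / ∏ i ∈ Finset.range 1, ((q ^ 2) ^ (i + 1) - 1) = q / (q ^ 2 - 1) := by simp
    rw [h5]
    have h6 : q / (q ^ 2 - 1) ≤ 1 / ((ℓ : ℝ) - 1) := by
      rw [div_le_div_iff₀ (by linarith) (by linarith)]
      nlinarith
    linarith

end MP72e2e6
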