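import Pool.Agent.Lib.MP_72e2e6_nt.PhStmt
import Pool.Agent.Lib.MP_72e2e6_nt.PqOneB

/-!
# MP_72e2e6_nt : analytic part for the prime two, module PhSq (only even exponents)
-/

namespace MP72e2e6

open Polynomial

theorem tPhSq : StmtPhSq := by
  intro L hL k
  have h : ∀ j : ℕ, L (Eq_ 2 j) = 2 ^ j * 2 ^ (j * (j - 1) / 2) := by
    intro j
    rw [hL j, ← pow_add]
    congr 1
    have e1 : j * (j + 1) = j * (j - 1) + j * 2 := by
      rcases j with _ | j
      · rfl
      · simp only [Nat.add_sub_cancel]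
        ring
    rw [e1, Nat.add_mul_div_right _ _ (by norm_num), add_comm]
  have h4 := (pqoneb_main 2 two_ne_zero L h k).2
  have e4 : ((2 : ℝ) ^ 2) = 4 := by norm_num
  rw [e4] at h4
  exact h4

end MP72e2e6
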