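import Pool.Agent.Lib.MP_72e2e6_nt.PhStmt

/-!
# MP_72e2e6_nt : forms on subspaces and on subsystems
-/

set_option autoImplicit false

namespace MP72e2e6

open Polynomial

universe u

section sub

variable {V : Type}

theorem phsub_sa (S : Sys 2 V) (A : Submodule (ZMod 2) S.W) (hA : Inv S.σ S.Λ A)
    (g : A →ₗ[ZMod 2] Module.Dual (ZMod 2) A) :
    g ∈ SaA S.σ S.Λ A ↔
      (g : (S.sub A hA).W →ₗ[ZMod 2] Module.Dual (ZMod 2) (S.sub A hA).W) ∈
        Sa (S.sub A hA).σ (S.sub A hA).Λ := by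
  constructor
  · rintro ⟨h1, h2⟩
    exact ⟨h1, fun v x y => h2 x y ((S.sub A hA).σ v x) ((S.sub A hA).σ v y)
      (Or.inl ⟨v, rfl, rfl⟩), fun x y => h2 x y ((S.sub A hA).Λ x) ((S.sub A hA).Λ y)
      (Or.inr ⟨rfl, rfl⟩)⟩
  · rintro ⟨h1, h2, h3⟩
    refine ⟨h1, ?_⟩
    rintro x y x' y' (⟨v, hx, hy⟩ | ⟨hx, hy⟩)
    · have ex : x' = (S.sub A hA).σ v x := Subtype.ext hx
      have ey : y' = (S.sub A hA).σ v y := Subtype.ext hy
      rw [ex, ey]
      exact h2 v x y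
    · have ex : x' = (S.sub A hA).Λ x := Subtype.ext hx
      have ey : y' = (S.sub A hA).Λ y := Subtype.ext hy
      rw [ex, ey]
      exact h3 x y

/-- the inclusion -/
def phsub_i (S : Sys 2 V) (A : Submodule (ZMod 2) S.W) (hA : Inv S.σ S.Λ A) :
    (S.sub A hA).W →ₗ[ZMod 2] S.W := A.subtype

theorem phsub_i_sg (S : Sys 2 V) (A : Submodule (ZMod 2) S.W) (hA : Inv S.σ S.Λ A) (v : V)
    (x : (S.sub A hA).W) : phsub_i S A hA ((S.sub A hA).σ v x) = S.σ v (phsub_i S A hA x) := rfl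

theorem phsub_i_lm (S : Sys 2 V) (A : Submodule (ZMod 2) S.W) (hA : Inv S.σ S.Λ A)
    (x : (S.sub A hA).W) : phsub_i S A hA ((S.sub A hA).Λ x) = S.Λ (phsub_i S A hA x) := rfl

variable {F : Type u} [Field F] [Fintype V]

theorem phsub_thW (χ : F → ZMod 2) (pr : V → F[X]) (S : Sys 2 V)
    (A : Submodule (ZMod 2) S.W) (hA : Inv S.σ S.Λ A) (c : V → (S.sub A hA).W)
    (d : V → Module.Dual (ZMod 2) S.W) (η : Module.Dual (ZMod 2) S.W) :
    thW χ pr S.σ S.Λ (fun v => phsub_i S A hA (c v)) d η =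
      thW χ pr (S.sub A hA).σ (S.sub A hA).Λ c
        (fun v => d v ∘ₗ phsub_i S A hA) (η ∘ₗ phsub_i S A hA) := by
  rw [thW, thW]
  simp only [LinearMap.comp_apply, map_sum, map_sub, map_smul, phsub_i_sg, phsub_i_lm]

theorem phsub_tr (χ : F → ZMod 2) (pr : V → F[X]) (S : Sys 2 V)
    (A : Submodule (ZMod 2) S.W) (hA : Inv S.σ S.Λ A)
    (g : A →ₗ[ZMod 2] Module.Dual (ZMod 2) A) :
    TrA χ pr S.σ S.Λ A g ↔
      TrW χ pr (S.sub A hA).σ (S.sub A hA).Λ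
        (g : (S.sub A hA).W →ₗ[ZMod 2] Module.Dual (ZMod 2) (S.sub A hA).W) := by
  constructor
  · intro h δ c d η hd hη
    have ed : ∀ v, ∃ d' : Module.Dual (ZMod 2) S.W, d' ∘ₗ A.subtype = d v := fun v =>
      LinearMap.exists_extend (p := A) (d v : A →ₗ[ZMod 2] ZMod 2)
    choose d' hd' using ed
    obtain ⟨η', hη'⟩ := LinearMap.exists_extend (p := A) (η : A →ₗ[ZMod 2] ZMod 2)
    have h1 := h δ (fun v => phsub_i S A hA (c v)) d' η'
      ⟨fun v => (show A from c v).2, ?_, ?_⟩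
    · rw [phsub_thW χ pr S A hA c d' η'] at h1
      have e1 : (fun v => d' v ∘ₗ phsub_i S A hA) = d := funext hd'
      have e2 : η' ∘ₗ phsub_i S A hA = η := hη'
      rw [e1, e2] at h1
      exact h1
    · intro v x y z hx hz
      have ex : x = c v := Subtype.ext hx
      have ez : z = (S.sub A hA).σ v y := Subtype.ext hz
      have e1 : d' v y = d v y := LinearMap.congr_fun (hd' v) y
      rw [e1, ex, ez]
      exact hd v y
    · intro y z hz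
      have ez : z = (S.sub A hA).Λ y := Subtype.ext hz
      have e1 : η' y = η y := LinearMap.congr_fun hη' y
      rw [e1, ez]
      exact hη y
  · intro h δ c d η hc
    have h1 := h δ (fun v => (⟨c v, hc.mem v⟩ : A)) (fun v => d v ∘ₗ phsub_i S A hA)
      (η ∘ₗ phsub_i S A hA)
      (fun v y => hc.bad v ⟨c v, hc.mem v⟩ y ((S.sub A hA).σ v y) rfl rfl)
      (fun y => hc.inf y ((S.sub A hA).Λ y) rfl)
    have h2 := phsub_thW χ pr S A hA (fun v => (⟨c v, hc.mem v⟩ : A)) d η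
    exact h2.trans h1

/-- forms on the whole space -/
def phsub_eqv (S : Sys 2 V) : (S.W →ₗ[ZMod 2] Module.Dual (ZMod 2) S.W) ≃
    ((⊤ : Submodule (ZMod 2) S.W) →ₗ[ZMod 2] Module.Dual (ZMod 2) (⊤ : Submodule (ZMod 2) S.W)) where
  toFun g := g.compl₁₂ (Submodule.topEquiv : (⊤ : Submodule (ZMod 2) S.W) ≃ₗ[ZMod 2] S.W).toLinearMap
    (Submodule.topEquiv : (⊤ : Submodule (ZMod 2) S.W) ≃ₗ[ZMod 2] S.W).toLinearMap
  invFun g := g.compl₁₂
    (Submodule.topEquiv : (⊤ : Submodule (ZMod 2) S.W) ≃ₗ[ZMod 2] S.W).symm.toLinearMap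
    (Submodule.topEquiv : (⊤ : Submodule (ZMod 2) S.W) ≃ₗ[ZMod 2] S.W).symm.toLinearMap
  left_inv _ := LinearMap.ext fun _ => LinearMap.ext fun _ => rfl
  right_inv _ := LinearMap.ext fun _ => LinearMap.ext fun _ => rfl

omit [Fintype V] in
theorem phsub_saT (S : Sys 2 V) (g : S.W →ₗ[ZMod 2] Module.Dual (ZMod 2) S.W) :
    g ∈ Sa S.σ S.Λ ↔ phsub_eqv S g ∈ SaA S.σ S.Λ ⊤ := by
  constructor
  · rintro ⟨h1, h2, h3⟩
    refine ⟨fun x => h1 x, ?_⟩
    rintro x y x' y' (⟨v, hx, hy⟩ | ⟨hx, hy⟩)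
    · change g x y' = g x' y
      rw [hx, hy]
      exact h2 v x y
    · change g x y' = g x' y
      rw [hx, hy]
      exact h3 x y
  · rintro ⟨h1, h2⟩
    exact ⟨fun x => h1 ⟨x, trivial⟩, fun v x y => h2 ⟨x, trivial⟩ ⟨y, trivial⟩ ⟨S.σ v x, trivial⟩
      ⟨S.σ v y, trivial⟩ (Or.inl ⟨v, rfl, rfl⟩), fun x y => h2 ⟨x, trivial⟩ ⟨y, trivial⟩
      ⟨S.Λ x, trivial⟩ ⟨S.Λ y, trivial⟩ (Or.inr ⟨rfl, rfl⟩)⟩

theorem phsub_trT (χ : F → ZMod 2) (pr : V → F[X]) (S : Sys 2 V)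
    (g : S.W →ₗ[ZMod 2] Module.Dual (ZMod 2) S.W) :
    TrW χ pr S.σ S.Λ g ↔ TrA χ pr S.σ S.Λ ⊤ (phsub_eqv S g) := by
  constructor
  · intro h δ c d η hc
    refine h (δ ∘ₗ (Submodule.topEquiv :
      (⊤ : Submodule (ZMod 2) S.W) ≃ₗ[ZMod 2] S.W).symm.toLinearMap) c d η (fun v y => ?_)
      (fun y => ?_)
    · exact hc.bad v ⟨c v, trivial⟩ ⟨y, trivial⟩ ⟨S.σ v y, trivial⟩ rfl rfl
    · exact hc.inf ⟨y, trivial⟩ ⟨S.Λ y, trivial⟩ rfl
  · intro h δ c d η hd hη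
    refine h (δ ∘ₗ (Submodule.topEquiv :
      (⊤ : Submodule (ZMod 2) S.W) ≃ₗ[ZMod 2] S.W).toLinearMap) c d η
      ⟨fun _ => trivial, ?_, ?_⟩
    · intro v x y z hx hz
      have h1 := hd v y
      rw [← hz, ← hx] at h1
      exact h1
    · intro y z hz
      have h1 := hη y
      rw [← hz] at h1
      exact h1

end sub

theorem tPhSub.{w} : StmtPhSub.{w} := by
  intro F _ V _ χ pr S
  refine ⟨fun A hA => ?_, ?_⟩
  · exact Nat.card_congr (Equiv.subtypeEquivRight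
      (α := A →ₗ[ZMod 2] Module.Dual (ZMod 2) A) fun g =>
        and_congr (phsub_sa S A hA g) (phsub_tr χ pr S A hA g))
  · exact (Nat.card_congr (Equiv.subtypeEquiv (phsub_eqv S) fun g =>
      and_congr (phsub_saT S g) (phsub_trT χ pr S g))).symm

end MP72e2e6
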