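import Pool.Agent.Lib.MP_72e2e6_nt.TwStmt

/-!
# MP_72e2e6_nt: bounded sums
-/

namespace MP72e2e6

open Polynomial

universe u

theorem twbdd_icc (M : ℕ) (f : ℕ → ℝ) :
    ∑ k ∈ Finset.Icc 1 M, f k = ∑ k ∈ Finset.range M, f (k + 1) := by
  induction M with
  | zero => rfl
  | succ M ih => rw [Finset.sum_Icc_succ_top (by omega), ih, Finset.sum_range_succ]

/-- The abstract summation argument. -/
theorem twbdd_abs (b π : ℕ → ℝ) (N : ℕ) (hb : ∀ n, |b n| ≤ 1) (hπ : ∀ k, |π (k + 1)| ≤ 1)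
    (hN : ∀ n, N ≤ n → b n = 0)
    (hrec : ∀ n : ℕ, (n : ℝ) * b n = ∑ k ∈ Finset.range n, π (k + 1) * b (n - (k + 1)))
    (hS : ∑ i ∈ Finset.range N, b i ≠ 0) :
    ∃ B : ℝ, ∀ M : ℕ, |∑ k ∈ Finset.range M, π (k + 1)| ≤ B := by
  set S := ∑ i ∈ Finset.range N, b i with hSd
  have hB : ∀ j, N ≤ j → ∑ i ∈ Finset.range j, b i = S := by
    intro j hj
    refine (Finset.sum_subset (Finset.range_mono hj) ?_).symm
    intro x _ hx
    exact hN x (by simpa using hx)
  have hBle : ∀ j, |∑ i ∈ Finset.range j, b i| ≤ (N : ℝ) := by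
    have h1 : ∀ j, j ≤ N → |∑ i ∈ Finset.range j, b i| ≤ (N : ℝ) := by
      intro j hj
      refine (Finset.abs_sum_le_sum_abs _ _).trans ?_
      refine (Finset.sum_le_sum (fun i _ => hb i)).trans ?_
      rw [Finset.sum_const, Finset.card_range, nsmul_eq_mul, mul_one]
      exact_mod_cast hj
    intro j
    rcases le_total j N with hj | hj
    · exact h1 j hj
    · rw [hB j hj]
      exact h1 N le_rfl
  have hT : ∀ M, ∑ k ∈ Finset.range M, π (k + 1) * ∑ i ∈ Finset.range (M - k), b i =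
      ∑ n ∈ Finset.range (M + 1), (n : ℝ) * b n := by
    intro M
    induction M with
    | zero => simp
    | succ M ih =>
      rw [Finset.sum_range_succ (fun n : ℕ => (n : ℝ) * b n), ← ih, hrec (M + 1)]
      have h1 : ∀ k ∈ Finset.range (M + 1), π (k + 1) * ∑ i ∈ Finset.range (M + 1 - k), b i =
          π (k + 1) * ∑ i ∈ Finset.range (M - k), b i + π (k + 1) * b (M + 1 - (k + 1)) := by
        intro k hk
        rw [Finset.mem_range] at hk
        have h2 : M + 1 - k = (M - k) + 1 := by omega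
        have h3 : M + 1 - (k + 1) = M - k := by omega
        rw [h2, h3, Finset.sum_range_succ, mul_add]
      rw [Finset.sum_congr rfl h1, Finset.sum_add_distrib]
      congr 1
      rw [Finset.sum_range_succ, Nat.sub_self, Finset.range_zero, Finset.sum_empty, mul_zero,
        add_zero]
  have hL : ∀ M, |∑ n ∈ Finset.range (M + N + 1), (n : ℝ) * b n| ≤ (N : ℝ) * N := by
    intro M
    have h1 : ∑ n ∈ Finset.range (M + N + 1), (n : ℝ) * b n =
        ∑ n ∈ Finset.range N, (n : ℝ) * b n := by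
      refine (Finset.sum_subset (Finset.range_mono (by omega)) ?_).symm
      intro x _ hx
      rw [hN x (by simpa using hx), mul_zero]
    rw [h1]
    refine (Finset.abs_sum_le_sum_abs _ _).trans ?_
    have h2 : ∀ n ∈ Finset.range N, |(n : ℝ) * b n| ≤ N := by
      intro n hn
      rw [Finset.mem_range] at hn
      rw [abs_mul, Nat.abs_cast]
      calc (n : ℝ) * |b n| ≤ n * 1 := mul_le_mul_of_nonneg_left (hb n) (Nat.cast_nonneg _)
        _ ≤ N := by rw [mul_one]; exact_mod_cast hn.le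
    refine (Finset.sum_le_sum h2).trans ?_
    rw [Finset.sum_const, Finset.card_range, nsmul_eq_mul]
  refine ⟨(2 * ((N : ℝ) * N)) / |S|, fun M => ?_⟩
  rw [le_div_iff₀ (abs_pos.mpr hS), ← abs_mul]
  have h1 := hT (M + N)
  rw [Finset.sum_range_add] at h1
  have h2 : ∀ k ∈ Finset.range M, π (k + 1) * ∑ i ∈ Finset.range (M + N - k), b i =
      π (k + 1) * S := by
    intro k hk
    rw [Finset.mem_range] at hk
    rw [hB _ (by omega)]
  rw [Finset.sum_congr rfl h2, ← Finset.sum_mul] at h1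
  have h3 : |∑ x ∈ Finset.range N, π (M + x + 1) * ∑ i ∈ Finset.range (M + N - (M + x)), b i| ≤
      (N : ℝ) * N := by
    refine (Finset.abs_sum_le_sum_abs _ _).trans ?_
    have h4 : ∀ x ∈ Finset.range N,
        |π (M + x + 1) * ∑ i ∈ Finset.range (M + N - (M + x)), b i| ≤ N := by
      intro x _
      rw [abs_mul]
      calc |π (M + x + 1)| * |∑ i ∈ Finset.range (M + N - (M + x)), b i| ≤ 1 * N :=
            mul_le_mul (hπ _) (hBle _) (abs_nonneg _) zero_le_one
        _ = N := one_mul _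
    refine (Finset.sum_le_sum h4).trans ?_
    rw [Finset.sum_const, Finset.card_range, nsmul_eq_mul]
  have h5 : (∑ k ∈ Finset.range M, π (k + 1)) * S =
      (∑ n ∈ Finset.range (M + N + 1), (n : ℝ) * b n) -
        ∑ x ∈ Finset.range N, π (M + x + 1) * ∑ i ∈ Finset.range (M + N - (M + x)), b i := by
    rw [← h1]
    ring
  rw [h5]
  refine (abs_sub _ _).trans ?_
  linarith [hL M]

theorem tTwBdd (hMon : StmtTwMon.{u}) (hPsi : StmtTwPsi.{u}) (hNonv : StmtTwNonv.{u}) :
    StmtTwBdd.{u} := by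
  intro F _ _ χ hχ N hN
  have hq : (0 : ℝ) < (Nat.card F : ℝ) := by exact_mod_cast Nat.card_pos
  have hav : ∀ n, |(av χ n : ℝ)| ≤ (Nat.card F : ℝ) ^ n := by
    intro n
    have h1 : |av χ n| ≤ (Nat.card F : ℤ) ^ n := by
      rw [av]
      refine (Finset.abs_sum_le_sum_abs _ _).trans ?_
      have h2 : ∀ h ∈ mon F n, |χ h| ≤ 1 := by
        intro h _
        rcases hχ.val h with h | h | h <;> rw [h] <;> norm_num
      refine (Finset.sum_le_sum h2).trans ?_
      rw [Finset.sum_const, (hMon F).1 n, nsmul_eq_mul, mul_one, Nat.cast_pow]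
    exact_mod_cast h1
  suffices h0 : ∃ B : ℝ, ∀ M : ℕ, |∑ k ∈ Finset.range M,
      (fun n => (psi χ n : ℝ) / (Nat.card F : ℝ) ^ n) (k + 1)| ≤ B by
    obtain ⟨B, hB⟩ := h0
    refine ⟨B, fun M => ?_⟩
    rw [twbdd_icc]
    exact hB M
  refine twbdd_abs (fun n => (av χ n : ℝ) / (Nat.card F : ℝ) ^ n)
    (fun n => (psi χ n : ℝ) / (Nat.card F : ℝ) ^ n) N ?_ ?_ ?_ ?_ (hNonv F χ hχ N hN)
  · intro n
    rw [abs_div, abs_of_pos (pow_pos hq n), div_le_one (pow_pos hq n)]
    exact hav n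
  · intro k
    rw [abs_div, abs_of_pos (pow_pos hq (k + 1)), div_le_one (pow_pos hq (k + 1))]
    have h1 := (hPsi F).2.2.1 χ hχ (k + 1) (by omega)
    exact_mod_cast h1
  · intro n hn
    rw [hN n hn, Int.cast_zero, zero_div]
  · intro n
    have h1 := (hPsi F).1 χ hχ n
    have h2 : (n : ℝ) * (av χ n : ℝ) = ∑ k ∈ Finset.range n,
        (psi χ (k + 1) : ℝ) * (av χ (n - (k + 1)) : ℝ) := by
      rw [← twbdd_icc n (fun k => (psi χ k : ℝ) * (av χ (n - k) : ℝ))]
      exact_mod_cast h1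
    rw [← mul_div_assoc, h2, Finset.sum_div]
    refine Finset.sum_congr rfl (fun k hk => ?_)
    rw [Finset.mem_range] at hk
    have h3 : (Nat.card F : ℝ) ^ n =
        (Nat.card F : ℝ) ^ (k + 1) * (Nat.card F : ℝ) ^ (n - (k + 1)) := by
      rw [← pow_add]
      congr 1
      omega
    rw [h3, mul_div_mul_comm]

end MP72e2e6
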