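import Pool.Agent.Lib.MP_72e2e6_nt.TwStmt

/-!
# MP_72e2e6_nt: module TwFor (spanning forest)
-/

namespace MP72e2e6

theorem twfor_step {V : Type} (G : SimpleGraph V) {a v : V} (h : G.Reachable a v) (hne : a ≠ v) :
    ∃ w, G.Adj v w ∧ G.dist a w < G.dist a v ∧ G.Reachable a w := by
  obtain ⟨p, hp⟩ := h.symm.exists_walk_length_eq_dist
  cases p with
  | nil => exact absurd rfl hne
  | @cons _ w _ hadj q =>
    refine ⟨w, hadj, ?_, q.reachable.symm⟩
    rw [SimpleGraph.Walk.length_cons] at hp
    have h1 : G.dist w a ≤ q.length := SimpleGraph.dist_le q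
    have h2 : G.dist a w = G.dist w a := SimpleGraph.dist_comm
    have h3 : G.dist a v = G.dist v a := SimpleGraph.dist_comm
    omega

theorem tTwFor : StmtTwFor := by
  classical
  intro V _ _ r hsymm hirr v₀
  let G : SimpleGraph V :=
    { Adj := r
      symm := ⟨fun v w h => hsymm v w h⟩
      loopless := ⟨fun v h => hirr v h⟩ }
  let f : G.ConnectedComponent → V := fun c =>
    if c = G.connectedComponentMk v₀ then v₀ else c.out
  have hf : ∀ c, G.connectedComponentMk (f c) = c := by
    intro c
    by_cases h : c = G.connectedComponentMk v₀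
    · simp only [f, if_pos h]
      exact h.symm
    · simp only [f, if_neg h]
      exact Quot.out_eq c
  let rt : V → V := fun v => f (G.connectedComponentMk v)
  have hrt : ∀ v, G.Reachable (rt v) v := fun v =>
    SimpleGraph.ConnectedComponent.exact (hf _)
  have hex : ∀ v, ∃ w, rt v ≠ v → G.Adj v w ∧ G.dist (rt v) w < G.dist (rt v) v ∧
      G.Reachable (rt v) w := by
    intro v
    by_cases h : rt v = v
    · exact ⟨v, fun h' => absurd h h'⟩
    · obtain ⟨w, hw⟩ := twfor_step G (hrt v) h
      exact ⟨w, fun _ => hw⟩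
  choose par hpar using hex
  have hadj : ∀ v w, r v w → rt v = rt w := by
    intro v w h
    have h1 : G.Adj v w := h
    have h2 : G.connectedComponentMk v = G.connectedComponentMk w :=
      SimpleGraph.ConnectedComponent.sound h1.reachable
    simp only [rt, h2]
  refine ⟨rt, par, fun v => G.dist (rt v) v, hadj, ?_, ?_, ?_⟩
  · intro v
    simp only [rt, hf]
  · intro v hv
    obtain ⟨h1, h2, -⟩ := hpar v hv
    refine ⟨h1, ?_⟩
    have h3 : rt v = rt (par v) := hadj v (par v) h1
    change G.dist (rt (par v)) (par v) < G.dist (rt v) v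
    rw [← h3]
    exact h2
  · simp only [rt, f, if_true]

end MP72e2e6
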