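import Pool.Agent.Lib.MP_72e2e6_nt.TwStmt

/-!
# MP_72e2e6_nt, module TwLin: elimination over the field with two elements
-/

namespace MP72e2e6

section twlin

variable {m : ℕ}

theorem twlin_ip_comm (a b : Fin m → ZMod 2) : ip a b = ip b a :=
  Finset.sum_congr rfl fun _ _ => mul_comm _ _

theorem twlin_ip_add (a b c : Fin m → ZMod 2) : ip a (b + c) = ip a b + ip a c := by
  unfold ip
  rw [← Finset.sum_add_distrib]
  exact Finset.sum_congr rfl fun i _ => by rw [Pi.add_apply, mul_add]

theorem twlin_ip_smul (a b : Fin m → ZMod 2) (r : ZMod 2) : ip a (r • b) = r * ip a b := by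
  unfold ip
  rw [Finset.mul_sum]
  exact Finset.sum_congr rfl fun i _ => by rw [Pi.smul_apply, smul_eq_mul]; ring

theorem twlin_ip_zero (a : Fin m → ZMod 2) : ip a 0 = 0 := by
  unfold ip
  exact Finset.sum_eq_zero fun i _ => by rw [Pi.zero_apply, mul_zero]

theorem twlin_zero_ip (a : Fin m → ZMod 2) : ip 0 a = 0 := by
  rw [twlin_ip_comm, twlin_ip_zero]

theorem twlin_ip_sum {κ : Type} (s : Finset κ) (a : Fin m → ZMod 2)
    (f : κ → Fin m → ZMod 2) : ip a (∑ k ∈ s, f k) = ∑ k ∈ s, ip a (f k) := by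
  classical
  induction s using Finset.induction_on with
  | empty => rw [Finset.sum_empty, Finset.sum_empty, twlin_ip_zero]
  | insert k s hk ih => rw [Finset.sum_insert hk, Finset.sum_insert hk, twlin_ip_add, ih]

theorem twlin_eq_of_add (a b : Fin m → ZMod 2) (h : a + b = 0) : a = b := by
  funext i
  have h1 := congrFun h i
  have h2 : ∀ x y : ZMod 2, x + y = 0 → x = y := by decide
  exact h2 _ _ h1

theorem twlin_cases (r : ZMod 2) : r = 0 ∨ r = 1 := by
  revert r
  decide

end twlin

theorem tTwLin : StmtTwLin := by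
  intro m V T I _ _ _ _ ν ρ D ch par s s₁ s₀ L L₀ hip hL hL0 hch x c u x₀ p q y h1 h2 h3 h4 h5
    h6 h7 h8 h9 h10
  -- the multiples
  have hl : ∀ v, ∃ l : ZMod 2, x v = l • ν v ∧ (ν v = 0 → l = 0) ∧
      ip (ν v) (u v) = ρ v * l ∧ (ρ v = 0 → u v = l • ν v) := by
    intro v
    rcases twlin_cases (ρ v) with hρ | hρ
    · obtain ⟨l', hl'⟩ := h2 v hρ
      obtain ⟨l, hl, hl0⟩ : ∃ l : ZMod 2, x v = l • ν v ∧ (ν v = 0 → l = 0) := by
        by_cases h0 : ν v = 0
        · exact ⟨0, by rw [hl', h0, smul_zero, smul_zero], fun _ => rfl⟩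
        · exact ⟨l', hl', fun h => absurd h h0⟩
      have e1 := h4 v
      rw [hρ, zero_smul, add_zero, hl] at e1
      have e2 : u v = (l + ip (ν v) (u v)) • ν v := by
        rw [add_smul]
        exact (twlin_eq_of_add _ _ e1).symm
      have e3 : ip (ν v) (u v) = 0 := by
        rw [e2, twlin_ip_smul, hip, mul_zero]
      rw [e3, add_zero] at e2
      exact ⟨l, hl, hl0, by rw [e3, hρ, zero_mul], fun _ => e2⟩
    · refine ⟨ip (ν v) (u v), ?_, ?_, ?_, ?_⟩
      · have e1 := h4 v
        rw [hρ, one_smul] at e1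
        funext i
        have e2 := congrFun e1 i
        have e3 : ∀ a b d : ZMod 2, (a + b + d) + b = 0 → a = d := by decide
        exact e3 _ _ _ e2
      · intro h0
        rw [h0, twlin_zero_ip]
      · rw [hρ, one_mul]
      · intro h0
        rw [hρ] at h0
        exact absurd h0 one_ne_zero
  choose l hl using hl
  have hx : ∀ v, x v = l v • ν v := fun v => (hl v).1
  have hz : ∀ v, ν v = 0 → l v = 0 := fun v => (hl v).2.1
  have hu : ∀ v, ip (ν v) (u v) = ρ v * l v := fun v => (hl v).2.2.1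
  have hu0 : ∀ v, ρ v = 0 → u v = l v • ν v := fun v => (hl v).2.2.2
  have hnx : ∀ v, ip (ν v) (x v) = 0 := fun v => by rw [hx, twlin_ip_smul, hip, mul_zero]
  have hq : ∀ t, q t = (l (ch t) + ip (ν (ch t)) (p t)) • ν (ch t) := by
    intro t
    have e1 := h5 t
    rw [(hch t).1, one_smul, hx] at e1
    funext i
    have e2 := congrFun e1 i
    have e3 : ∀ a b d e : ZMod 2, (a + b + d) + (e + b) = 0 → e = a + d := by decide
    rw [add_smul]
    exact e3 _ _ _ _ e2
  have hα : ∀ t, ip (ν (par t)) (q t) = l (ch t) + ip (ν (ch t)) (p t) := by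
    intro t
    have e1 := twlin_ip_smul (ν (par t)) (ν (ch t)) (l (ch t) + ip (ν (ch t)) (p t))
    rw [← hq, twlin_ip_comm (ν (par t)) (ν (ch t)), (hch t).2, mul_one] at e1
    exact e1
  have hp1 : ∀ t, ρ (par t) = 1 →
      p t = (l (par t) + ip (ν (par t)) (q t)) • ν (par t) := by
    intro t ht
    have e1 := h6 t
    rw [ht, one_smul, hx] at e1
    funext i
    have e2 := congrFun e1 i
    have e3 : ∀ a b d e : ZMod 2, (a + b + d) + (e + b) = 0 → e = a + d := by decide
    rw [add_smul]
    exact e3 _ _ _ _ e2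
  have hp0 : ∀ t, ρ (par t) = 0 →
      p t = (l (par t) + ip (ν (par t)) (q t)) • ν (par t) + q t := by
    intro t ht
    have e1 := h6 t
    rw [ht, zero_smul, add_zero, hx] at e1
    funext i
    have e2 := congrFun e1 i
    have e3 : ∀ a b d e : ZMod 2, (a + d) + (e + b) = 0 → e = a + d + b := by decide
    rw [add_smul]
    exact e3 _ _ _ _ e2
  have hβ : ∀ t, ip (ν (ch t)) (p t) = l (par t) + ip (ν (par t)) (q t) := by
    intro t
    rcases twlin_cases (ρ (par t)) with hρ | hρ
    · have e1 : ip (ν (ch t)) (q t) = 0 := by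
        rw [hq, twlin_ip_smul, hip, mul_zero]
      have e2 := congrArg (ip (ν (ch t))) (hp0 t hρ)
      rw [twlin_ip_add, twlin_ip_smul, (hch t).2, mul_one, e1, add_zero] at e2
      exact e2
    · have e2 := congrArg (ip (ν (ch t))) (hp1 t hρ)
      rw [twlin_ip_smul, (hch t).2, mul_one] at e2
      exact e2
  have hx0 : x₀ = ∑ v, (D v * l v) • ν v := by
    have e1 := twlin_eq_of_add _ _ h3
    rw [← e1]
    exact Finset.sum_congr rfl fun v _ => by rw [hx, smul_smul]
  have hU0 : x₀ = 0 → ∑ w, u w = ∑ v, (s₀ v * l v) • ν v := by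
    intro h0
    have e1 := h8
    have e2 : ∑ r, (y r + x₀) = 0 := Finset.sum_eq_zero fun r _ => by
      rw [add_comm]
      exact h7 r
    rw [e2, h0, hL0, add_zero, add_zero] at e1
    have e3 := twlin_eq_of_add _ _ e1
    rw [← e3]
    exact Finset.sum_congr rfl fun v _ => by rw [smul_zero, add_zero, hx, smul_smul]
  have hc : ∀ v, ρ v = 1 → ip (ν v) (c v) = 0 ∧ c v = l v • ν v := by
    intro v hρ
    have e1 := congrArg (ip (ν v)) (h1 v hρ)
    rw [hnx, twlin_ip_add, twlin_ip_smul, hip, mul_zero, add_zero] at e1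
    have e2 := h1 v hρ
    rw [← e1, zero_smul, add_zero, hx] at e2
    exact ⟨e1.symm, e2.symm⟩
  have hLc : ∀ v, ρ v = 1 → ip (ν v) (L v (c v)) = 0 := by
    intro v hρ
    rw [(hc v hρ).2]
    rcases twlin_cases (l v) with h0 | h0
    · rw [h0, zero_smul, (hL v).1, twlin_ip_zero]
    · rw [h0, one_smul, (hL v).2]
  refine ⟨l, fun t => ip (ν (par t)) (q t), fun t => ip (ν (ch t)) (p t),
    ⟨hz, ?_, hx0, hU0, ?_⟩, hx, ?_⟩
  · intro t
    have e1 := hα t
    have e2 := hβ t
    have e3 : ∀ a b α β : ZMod 2, α = a + β → β = b + α → a = b ∧ α + β = a := by decide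
    exact e3 _ _ _ _ e1 e2
  · intro v hv
    rcases twlin_cases (ρ v) with hρ | hρ
    · have e1 := h10 v hρ
      rw [twlin_ip_add, twlin_ip_add, twlin_ip_add, twlin_ip_add, twlin_ip_add, twlin_ip_smul,
        twlin_ip_smul, twlin_ip_sum, twlin_ip_sum, twlin_ip_sum, hu] at e1
      have e2 : ∑ w, ip (ν v) (s v w • x w) = ∑ w, s v w * (l w * ip (ν v) (ν w)) :=
        Finset.sum_congr rfl fun w _ => by rw [twlin_ip_smul, hx, twlin_ip_smul]
      have e3 : ∑ t ∈ Finset.univ.filter (fun t => ch t = v), ip (ν v) (p t) =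
          ∑ t ∈ Finset.univ.filter (fun t => ch t = v), ip (ν (ch t)) (p t) :=
        Finset.sum_congr rfl fun t ht => by rw [(Finset.mem_filter.mp ht).2]
      have e4 : ∑ t ∈ Finset.univ.filter (fun t => par t = v), ip (ν v) (q t) =
          ∑ t ∈ Finset.univ.filter (fun t => par t = v), ip (ν (par t)) (q t) :=
        Finset.sum_congr rfl fun t ht => by rw [(Finset.mem_filter.mp ht).2]
      rw [e2, e3, e4] at e1
      linear_combination e1
    · have e1 := congrArg (ip (ν v)) (h9 v hρ)
      rw [twlin_ip_zero, twlin_ip_add, twlin_ip_add, twlin_ip_add, twlin_ip_add, twlin_ip_add,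
        twlin_ip_add, twlin_ip_smul, twlin_ip_smul, twlin_ip_sum, twlin_ip_sum, twlin_ip_sum,
        twlin_ip_add, twlin_ip_add, hu, (hc v hρ).1, hLc v hρ] at e1
      have e2 : ∑ w, ip (ν v) (s v w • (x w + ρ w • c v)) =
          ∑ w, s v w * (l w * ip (ν v) (ν w)) :=
        Finset.sum_congr rfl fun w _ => by
          rw [twlin_ip_smul, twlin_ip_add, twlin_ip_smul (ν v) (c v), (hc v hρ).1, mul_zero,
            add_zero, hx, twlin_ip_smul]
      have e3 : ∑ t ∈ Finset.univ.filter (fun t => ch t = v), ip (ν v) (p t + c v) =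
          ∑ t ∈ Finset.univ.filter (fun t => ch t = v), ip (ν (ch t)) (p t) :=
        Finset.sum_congr rfl fun t ht => by
          rw [twlin_ip_add, (hc v hρ).1, add_zero, (Finset.mem_filter.mp ht).2]
      have e4 : ∑ t ∈ Finset.univ.filter (fun t => par t = v), ip (ν v) (q t + c v) =
          ∑ t ∈ Finset.univ.filter (fun t => par t = v), ip (ν (par t)) (q t) :=
        Finset.sum_congr rfl fun t ht => by
          rw [twlin_ip_add, (hc v hρ).1, add_zero, (Finset.mem_filter.mp ht).2]
      rw [e2, e3, e4] at e1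
      linear_combination e1
  · intro hl0 hα0
    have hβ0 : ∀ t, ip (ν (ch t)) (p t) = 0 := by
      intro t
      have e1 := hα t
      have e2 : ip (ν (par t)) (q t) = 0 := hα0 t
      rw [e2, hl0, zero_add] at e1
      exact e1.symm
    have hx' : ∀ v, x v = 0 := fun v => by rw [hx, hl0, zero_smul]
    have hx0' : x₀ = 0 := by
      rw [hx0]
      exact Finset.sum_eq_zero fun v _ => by rw [hl0, mul_zero, zero_smul]
    have hq' : ∀ t, q t = 0 := fun t => by rw [hq, hl0, hβ0, add_zero, zero_smul]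
    have hp' : ∀ t, p t = 0 := by
      intro t
      rcases twlin_cases (ρ (par t)) with hρ | hρ
      · rw [hp0 t hρ, hq', twlin_ip_zero, hl0, add_zero, add_zero, zero_smul]
      · rw [hp1 t hρ, hq', twlin_ip_zero, hl0, add_zero, zero_smul]
    have hy' : ∀ r, y r = 0 := by
      intro r
      have e1 := h7 r
      rw [hx0', zero_add] at e1
      exact e1
    have hU' : ∑ w, u w = 0 := by
      rw [hU0 hx0']
      exact Finset.sum_eq_zero fun v _ => by rw [hl0, mul_zero, zero_smul]
    have hu' : ∀ v, u v = 0 := by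
      intro v
      rcases twlin_cases (ρ v) with hρ | hρ
      · rw [hu0 v hρ, hl0, zero_smul]
      · have hcv : c v = 0 := by rw [(hc v hρ).2, hl0, zero_smul]
        have e1 := h9 v hρ
        have e2 : ∑ w, s v w • (x w + ρ w • c v) = 0 :=
          Finset.sum_eq_zero fun w _ => by rw [hx', hcv, smul_zero, add_zero, smul_zero]
        have e3 : ∑ t ∈ Finset.univ.filter (fun t => ch t = v), (p t + c v) = 0 :=
          Finset.sum_eq_zero fun t _ => by rw [hp', hcv, add_zero]
        have e4 : ∑ t ∈ Finset.univ.filter (fun t => par t = v), (q t + c v) = 0 :=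
          Finset.sum_eq_zero fun t _ => by rw [hq', hcv, add_zero]
        rw [e2, e3, e4, hU', hx0', hcv, (hL v).1] at e1
        simpa using e1
    exact ⟨fun v => ⟨hx' v, hu' v⟩, hx0', fun t => ⟨hp' t, hq' t⟩, hy'⟩

end MP72e2e6
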