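import Pool.Agent.Lib.MP_72e2e6_nt.TwStmt

/-!
# MP_72e2e6_nt: TwLinB, the reduced equations, one component
-/

namespace MP72e2e6

open Finset

section common

variable {m : ℕ} {V T : Type} [Fintype V] [DecidableEq V] [Fintype T]

theorem twlinb_ip_comm (x y : Fin m → ZMod 2) : ip x y = ip y x := by
  unfold ip
  exact sum_congr rfl fun i _ => mul_comm _ _

theorem twlinb_ip_zero_left (y : Fin m → ZMod 2) : ip 0 y = 0 := by
  unfold ip
  simp

theorem twlinb_ip_zero_right (x : Fin m → ZMod 2) : ip x 0 = 0 := by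
  unfold ip
  simp

theorem twlinb_ip_sum_smul {ι : Type} (x : Fin m → ZMod 2) (S : Finset ι) (f : ι → ZMod 2)
    (y : ι → Fin m → ZMod 2) : ip x (∑ v ∈ S, f v • y v) = ∑ v ∈ S, f v * ip x (y v) := by
  unfold ip
  simp only [Finset.sum_apply, Pi.smul_apply, smul_eq_mul, mul_sum]
  rw [sum_comm]
  refine sum_congr rfl fun v _ => sum_congr rfl fun i _ => ?_
  ring

theorem twlinb_z2 (x : ZMod 2) : x = 0 ∨ x = 1 := by
  revert x
  decide

theorem twlinb_add_self (x : ZMod 2) : x + x = 0 := by
  revert x
  decide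

theorem twlinb_eq_of_add (x y : ZMod 2) (h : x + y = 0) : x = y := by
  revert x y
  decide

theorem twlinb_mul_self (x : ZMod 2) : x * x = x := by
  revert x
  decide

theorem twlinb_ip_single (x : Fin m → ZMod 2) (j : Fin m) : ip x (Pi.single j 1) = x j := by
  unfold ip
  simp [Pi.single_apply]

theorem twlinb_ip_add (x y z : Fin m → ZMod 2) : ip x (y + z) = ip x y + ip x z := by
  unfold ip
  simp [mul_add, sum_add_distrib]

theorem twlinb_ip_pair (x : Fin m → ZMod 2) (j k : Fin m) :
    ip x (Pi.single j 1 + Pi.single k 1) = x j + x k := by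
  rw [twlinb_ip_add, twlinb_ip_single, twlinb_ip_single]

theorem twlinb_ip_self (j k : Fin m) (h : j ≠ k) :
    ip (Pi.single j 1 + Pi.single k 1 : Fin m → ZMod 2) (Pi.single j 1 + Pi.single k 1) = 0 := by
  rw [twlinb_ip_pair]
  simp only [Pi.add_apply, Pi.single_eq_same, Pi.single_eq_of_ne h, Pi.single_eq_of_ne h.symm]
  decide

theorem twlinb_qf_pair (j k : Fin m) (h : j ≠ k) :
    qf (Pi.single j 1 + Pi.single k 1 : Fin m → ZMod 2) = 1 := by
  have key : ∀ j k : Fin m, j < k →
      qf (Pi.single j 1 + Pi.single k 1 : Fin m → ZMod 2) = 1 := by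
    intro j k h
    have hne : j ≠ k := ne_of_lt h
    unfold qf
    rw [sum_eq_single j]
    · rw [sum_eq_single k]
      · rw [if_pos h]
        simp only [Pi.add_apply, Pi.single_eq_same, Pi.single_eq_of_ne hne,
          Pi.single_eq_of_ne hne.symm]
        decide
      · intro b _ hb
        by_cases hjb : j < b
        · rw [if_pos hjb]
          have h1 : b ≠ j := (ne_of_lt hjb).symm
          simp only [Pi.add_apply, Pi.single_eq_of_ne h1, Pi.single_eq_of_ne hb]
          simp
        · rw [if_neg hjb]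
      · intro h1
        exact absurd (mem_univ _) h1
    · intro b _ hb
      refine sum_eq_zero fun i _ => ?_
      by_cases hbi : b < i
      · rw [if_pos hbi]
        by_cases hbk : b = k
        · subst hbk
          have h1 : i ≠ b := (ne_of_lt hbi).symm
          have h2 : i ≠ j := (ne_of_lt (h.trans hbi)).symm
          simp only [Pi.add_apply, Pi.single_eq_of_ne h1, Pi.single_eq_of_ne h2]
          simp
        · simp only [Pi.add_apply, Pi.single_eq_of_ne hb, Pi.single_eq_of_ne hbk]
          simp
      · rw [if_neg hbi]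
    · intro h1
      exact absurd (mem_univ _) h1
  rcases lt_or_gt_of_ne h with h1 | h1
  · exact key j k h1
  · rw [add_comm]
    exact key k j h1

variable {n : ℕ} {ν : V → Fin m → ZMod 2} {ρ D : V → ZMod 2} {s : V → V → ZMod 2}
  {s₁ s₀ : V → ZMod 2} {ε : ZMod 2} {ch par : T → V} {rt : V → V} {rk : V → ℕ}
  {l : V → ZMod 2} {α β : T → ZMod 2} {x₀ U : Fin m → ZMod 2}

theorem twlinb_ipself (hc : Comb n ν D s ε ch par rt rk) (v : V) : ip (ν v) (ν v) = 0 := by
  rcases hc.pair v with h | ⟨j, k, hjk, h⟩
  · rw [h, twlinb_ip_zero_left]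
  · rw [h]
    exact twlinb_ip_self j k hjk

theorem twlinb_qf (hc : Comb n ν D s ε ch par rt rk) (v : V) (hv : ν v ≠ 0) :
    qf (ν v) = 1 := by
  rcases hc.pair v with h | ⟨j, k, hjk, h⟩
  · exact absurd h hv
  · rw [h]
    exact twlinb_qf_pair j k hjk

theorem twlinb_ne_left (v w : V) (h : ip (ν v) (ν w) = 1) : ν v ≠ 0 := by
  intro h1
  rw [h1, twlinb_ip_zero_left] at h
  exact zero_ne_one h

theorem twlinb_ne_right (v w : V) (h : ip (ν v) (ν w) = 1) : ν w ≠ 0 := by
  rw [twlinb_ip_comm] at h
  exact twlinb_ne_left w v h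

/-- `l` is constant on the components. -/
theorem twlinb_root (hc : Comb n ν D s ε ch par rt rk)
    (hs : Sol ν ρ D s s₁ s₀ ch par l α β x₀ U) :
    ∀ (N : ℕ) (v : V), rk v ≤ N → ν v ≠ 0 → l v = l (rt v) ∧ ν (rt v) ≠ 0 := by
  intro N
  induction N with
  | zero =>
    intro v hv hv0
    rcases hc.cov v hv0 with ⟨t, ht⟩ | h
    · have := (hc.edge t).2
      rw [ht] at this
      omega
    · rw [h]
      exact ⟨rfl, hv0⟩
  | succ N ih =>
    intro v hv hv0
    rcases hc.cov v hv0 with ⟨t, ht⟩ | h
    · have h1 := (hc.edge t).2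
      have h2 := (hc.edge t).1
      have h3 := hc.adj _ _ h2
      have h4 := (hs.edge t).1
      have h5 := twlinb_ne_right _ _ h2
      rw [ht] at h1 h3 h4
      obtain ⟨h6, h7⟩ := ih (par t) (by omega) h5
      rw [h3, h4]
      exact ⟨h6, h7⟩
    · rw [h]
      exact ⟨rfl, hv0⟩

/-- The end of the proof: if `l` vanishes then `α` vanishes. -/
theorem twlinb_alpha (hc : Comb n ν D s ε ch par rt rk)
    (hs : Sol ν ρ D s s₁ s₀ ch par l α β x₀ U) (hl : ∀ v, l v = 0) : ∀ t, α t = 0 := by
  have hx : x₀ = 0 := by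
    rw [hs.x0]
    refine sum_eq_zero fun v _ => ?_
    rw [hl v, mul_zero, zero_smul]
  have hU : U = 0 := by
    rw [hs.U0 hx]
    refine sum_eq_zero fun v _ => ?_
    rw [hl v, mul_zero, zero_smul]
  have hab : ∀ t, β t = α t := by
    intro t
    have := (hs.edge t).2
    rw [hl] at this
    exact (twlinb_eq_of_add _ _ this).symm
  have heq : ∀ v, ν v ≠ 0 → ∑ t ∈ univ.filter (fun t => ch t = v), β t +
      ∑ t ∈ univ.filter (fun t => par t = v), α t = 0 := by
    intro v hv
    have h := hs.eqn v hv
    rw [hx, hU, twlinb_ip_zero_right, hl v] at h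
    have h1 : ∑ w, s v w * (l w * ip (ν v) (ν w)) = 0 := by
      refine sum_eq_zero fun w _ => ?_
      rw [hl w]
      ring
    rw [h1] at h
    linear_combination h
  have hsup : ∀ t, rk (ch t) ≤ univ.sup (fun t => rk (ch t)) := fun t =>
    Finset.le_sup (f := fun t => rk (ch t)) (mem_univ t)
  have key : ∀ (N : ℕ) (t : T), univ.sup (fun t => rk (ch t)) ≤ rk (ch t) + N → α t = 0 := by
    intro N
    induction N with
    | zero =>
      intro t ht
      have h1 := heq (ch t) (twlinb_ne_left _ _ (hc.edge t).1)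
      have h2 : ∑ t' ∈ univ.filter (fun t' => ch t' = ch t), β t' = β t := by
        rw [sum_eq_single t]
        · intro b hb hbt
          exact absurd (hc.chi (mem_filter.mp hb).2) hbt
        · intro h
          exact (h (mem_filter.mpr ⟨mem_univ t, rfl⟩)).elim
      have h3 : ∑ t' ∈ univ.filter (fun t' => par t' = ch t), α t' = 0 := by
        refine sum_eq_zero fun t' ht' => ?_
        have h4 := (mem_filter.mp ht').2
        have h5 := (hc.edge t').2
        have h6 := hsup t'
        rw [h4] at h5
        omega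
      rw [h2, h3, add_zero, hab] at h1
      exact h1
    | succ N ih =>
      intro t ht
      have h1 := heq (ch t) (twlinb_ne_left _ _ (hc.edge t).1)
      have h2 : ∑ t' ∈ univ.filter (fun t' => ch t' = ch t), β t' = β t := by
        rw [sum_eq_single t]
        · intro b hb hbt
          exact absurd (hc.chi (mem_filter.mp hb).2) hbt
        · intro h
          exact (h (mem_filter.mpr ⟨mem_univ t, rfl⟩)).elim
      have h3 : ∑ t' ∈ univ.filter (fun t' => par t' = ch t), α t' = 0 := by
        refine sum_eq_zero fun t' ht' => ?_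
        have h4 := (mem_filter.mp ht').2
        have h5 := (hc.edge t').2
        rw [h4] at h5
        exact ih t' (by omega)
      rw [h2, h3, add_zero, hab] at h1
      exact h1
  intro t
  exact key _ t (Nat.le_add_left _ _)

/-- The component of `r`. -/
def twlinbC (ν : V → Fin m → ZMod 2) (rt : V → V) (r : V) : Finset V :=
  univ.filter (fun v => ν v ≠ 0 ∧ rt v = r)

theorem twlinb_memC (v r : V) : v ∈ twlinbC ν rt r ↔ ν v ≠ 0 ∧ rt v = r := by
  unfold twlinbC
  simp

/-- The sum of the equations over a component. -/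
theorem twlinb_comp (hPar : StmtTwPar) (hc : Comb n ν D s ε ch par rt rk)
    (hs : Sol ν ρ D s s₁ s₀ ch par l α β x₀ U) (hx : x₀ = 0) (r : V) (hr : ν r ≠ 0)
    (hrr : rt r = r) (hD : ∑ v ∈ twlinbC ν rt r, D v • ν v = 0) :
    l r * (ε * ∑ v ∈ twlinbC ν rt r, D v + ∑ v ∈ twlinbC ν rt r, ρ v +
      ((twlinbC ν rt r).card + 1 : ZMod 2)) = 0 := by
  have hl : ∀ v ∈ twlinbC ν rt r, l v = l r := by
    intro v hv
    obtain ⟨h1, h2⟩ := (twlinb_memC v r).mp hv
    rw [(twlinb_root hc hs (rk v) v le_rfl h1).1, h2]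
  have hsum : ∑ v ∈ twlinbC ν rt r, (∑ w, s v w * (l w * ip (ν v) (ν w)) +
      s₁ v * ip (ν v) x₀ + ρ v * l v + ∑ t ∈ univ.filter (fun t => ch t = v), β t +
      ∑ t ∈ univ.filter (fun t => par t = v), α t + D v * ip (ν v) U) = 0 := by
    refine sum_eq_zero fun v hv => ?_
    exact hs.eqn v ((twlinb_memC v r).mp hv).1
  rw [sum_add_distrib, sum_add_distrib, sum_add_distrib, sum_add_distrib, sum_add_distrib] at hsum
  -- the quadratic term
  have e1 : ∑ v ∈ twlinbC ν rt r, ∑ w, s v w * (l w * ip (ν v) (ν w)) =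
      l r * (ε * ∑ v ∈ twlinbC ν rt r, D v) := by
    have h1 : ∀ v ∈ twlinbC ν rt r, ∑ w, s v w * (l w * ip (ν v) (ν w)) =
        ∑ w ∈ twlinbC ν rt r, l r * (s v w * ip (ν v) (ν w)) := by
      intro v hv
      obtain ⟨hv1, hv2⟩ := (twlinb_memC v r).mp hv
      symm
      rw [← sum_subset (subset_univ (twlinbC ν rt r))]
      · refine sum_congr rfl fun w hw => ?_
        rw [hl w hw]
        ring
      · intro w _ hw
        rcases twlinb_z2 (ip (ν v) (ν w)) with h | h
        · rw [h]
          ring
        · exfalso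
          apply hw
          rw [twlinb_memC]
          refine ⟨twlinb_ne_right _ _ h, ?_⟩
          rw [← hc.adj v w h, hv2]
    rw [sum_congr rfl h1]
    simp_rw [← mul_sum]
    rw [hPar m V ν D s ε (twlinb_ipself hc) hc.sym _ hD]
    congr 2
    refine sum_congr rfl fun v hv => ?_
    rw [twlinb_qf hc v ((twlinb_memC v r).mp hv).1, mul_one]
  have e2 : ∑ v ∈ twlinbC ν rt r, s₁ v * ip (ν v) x₀ = 0 := by
    refine sum_eq_zero fun v _ => ?_
    rw [hx, twlinb_ip_zero_right, mul_zero]
  have e3 : ∑ v ∈ twlinbC ν rt r, ρ v * l v = l r * ∑ v ∈ twlinbC ν rt r, ρ v := by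
    rw [mul_sum]
    refine sum_congr rfl fun v hv => ?_
    rw [hl v hv]
    ring
  have e4 : ∑ v ∈ twlinbC ν rt r, D v * ip (ν v) U = 0 := by
    have : ip U (∑ v ∈ twlinbC ν rt r, D v • ν v) = 0 := by
      rw [hD, twlinb_ip_zero_right]
    rw [twlinb_ip_sum_smul] at this
    rw [← this]
    refine sum_congr rfl fun v _ => ?_
    rw [twlinb_ip_comm]
  have hpc : ∀ t, par t ∈ twlinbC ν rt r ↔ ch t ∈ twlinbC ν rt r := by
    intro t
    have h2 := (hc.edge t).1
    have h3 := hc.adj _ _ h2
    rw [twlinb_memC, twlinb_memC, h3]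
    exact ⟨fun h => ⟨twlinb_ne_left _ _ h2, h.2⟩, fun h => ⟨twlinb_ne_right _ _ h2, h.2⟩⟩
  have e5 : ∑ v ∈ twlinbC ν rt r, ∑ t ∈ univ.filter (fun t => ch t = v), β t =
      ∑ t ∈ univ.filter (fun t => ch t ∈ twlinbC ν rt r), β t := by
    rw [← sum_fiberwise_of_maps_to (s := univ.filter (fun t => ch t ∈ twlinbC ν rt r))
      (t := twlinbC ν rt r) (g := ch) (fun t ht => (mem_filter.mp ht).2)]
    refine sum_congr rfl fun v hv => sum_congr ?_ fun _ _ => rfl
    ext t
    simp only [mem_filter, mem_univ, true_and]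
    exact ⟨fun h => ⟨by rw [h]; exact hv, h⟩, fun h => h.2⟩
  have e6 : ∑ v ∈ twlinbC ν rt r, ∑ t ∈ univ.filter (fun t => par t = v), α t =
      ∑ t ∈ univ.filter (fun t => ch t ∈ twlinbC ν rt r), α t := by
    rw [← sum_fiberwise_of_maps_to (s := univ.filter (fun t => ch t ∈ twlinbC ν rt r))
      (t := twlinbC ν rt r) (g := par) (fun t ht => (hpc t).mpr (mem_filter.mp ht).2)]
    refine sum_congr rfl fun v hv => sum_congr ?_ fun _ _ => rfl
    ext t
    simp only [mem_filter, mem_univ, true_and]
    exact ⟨fun h => ⟨(hpc t).mp (by rw [h]; exact hv), h⟩, fun h => h.2⟩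
  have hcard : ((twlinbC ν rt r).card : ZMod 2) + 1 =
      ((univ.filter (fun t => ch t ∈ twlinbC ν rt r)).card : ZMod 2) := by
    have h1 : (twlinbC ν rt r).card =
        (univ.filter (fun t => ch t ∈ twlinbC ν rt r)).card + 1 := by
      have hrC : r ∈ twlinbC ν rt r := (twlinb_memC r r).mpr ⟨hr, hrr⟩
      rw [← card_erase_add_one hrC]
      congr 1
      symm
      refine card_bij (fun t _ => ch t) ?_ ?_ ?_
      · intro t ht
        have h1 := (mem_filter.mp ht).2
        refine mem_erase.mpr ⟨?_, h1⟩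
        intro h2
        apply hc.ncv t
        rw [h2, hrr]
      · intro t1 _ t2 _ h12
        exact hc.chi h12
      · intro v hv
        obtain ⟨h1, h2⟩ := mem_erase.mp hv
        obtain ⟨h3, h4⟩ := (twlinb_memC v r).mp h2
        rcases hc.cov v h3 with ⟨t, ht⟩ | h5
        · refine ⟨t, mem_filter.mpr ⟨mem_univ _, ?_⟩, ht⟩
          rw [ht]
          exact h2
        · exact absurd (h5.symm.trans h4) h1
    rw [h1]
    push_cast
    rw [add_assoc, twlinb_add_self, add_zero]
  have e7 : ∑ t ∈ univ.filter (fun t => ch t ∈ twlinbC ν rt r), β t +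
      ∑ t ∈ univ.filter (fun t => ch t ∈ twlinbC ν rt r), α t =
      l r * ((twlinbC ν rt r).card + 1) := by
    rw [hcard, ← sum_add_distrib]
    have : ∀ t ∈ univ.filter (fun t => ch t ∈ twlinbC ν rt r), β t + α t = l r := by
      intro t ht
      rw [add_comm, (hs.edge t).2]
      exact hl _ (mem_filter.mp ht).2
    rw [sum_congr rfl this, sum_const, nsmul_eq_mul]
    ring
  rw [e1, e2, e3, e4, e5, e6] at hsum
  linear_combination hsum - e7

end common

section pairs

variable {m : ℕ}

theorem twlinb_pair_apply (j k : Fin m) (h : j ≠ k) (i : Fin m) :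
    (Pi.single j 1 + Pi.single k 1 : Fin m → ZMod 2) i = if i = j ∨ i = k then 1 else 0 := by
  by_cases h1 : i = j
  · subst h1
    simp [Pi.single_eq_of_ne h]
  · by_cases h2 : i = k
    · subst h2
      simp [Pi.single_eq_of_ne h1]
    · simp [Pi.single_eq_of_ne h1, Pi.single_eq_of_ne h2, h1, h2]

theorem twlinb_pair_ne (j k : Fin m) (h : j ≠ k) :
    (Pi.single j 1 + Pi.single k 1 : Fin m → ZMod 2) ≠ 0 := by
  intro h1
  have := congrFun h1 j
  rw [twlinb_pair_apply j k h, if_pos (Or.inl rfl)] at this
  exact one_ne_zero this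

theorem twlinb_pair_inj (j k j' k' : Fin m) (h : j < k) (h' : j' < k')
    (he : (Pi.single j 1 + Pi.single k 1 : Fin m → ZMod 2) = Pi.single j' 1 + Pi.single k' 1) :
    j = j' ∧ k = k' := by
  have hj := congrFun he j
  have hk := congrFun he k
  rw [twlinb_pair_apply j k h.ne, twlinb_pair_apply j' k' h'.ne, if_pos (Or.inl rfl)] at hj
  rw [twlinb_pair_apply j k h.ne, twlinb_pair_apply j' k' h'.ne, if_pos (Or.inr rfl)] at hk
  have hj' : j = j' ∨ j = k' := by
    by_contra hcon
    rw [if_neg hcon] at hj
    exact one_ne_zero hj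
  have hk' : k = j' ∨ k = k' := by
    by_contra hcon
    rw [if_neg hcon] at hk
    exact one_ne_zero hk
  rcases hj' with h1 | h1 <;> rcases hk' with h2 | h2
  · exact absurd (h1.trans h2.symm) h.ne
  · exact ⟨h1, h2⟩
  · rw [h1, h2] at h
    exact absurd (h.trans h') (lt_irrefl _)
  · exact absurd (h1.trans h2.symm) h.ne

variable {V T : Type} [Fintype V] [DecidableEq V] [Fintype T]
  {n : ℕ} {ν : V → Fin m → ZMod 2} {D : V → ZMod 2} {s : V → V → ZMod 2} {ε : ZMod 2}
  {ch par : T → V} {rt : V → V} {rk : V → ℕ}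

theorem twlinb_total (hc : Comb n ν D s ε ch par rt rk) (g : (Fin m → ZMod 2) → ZMod 2) :
    ∑ v ∈ univ.filter (fun v => ν v ≠ 0), D v * g (ν v) =
      n * ∑ j, ∑ k, if j < k then g (Pi.single j 1 + Pi.single k 1) else 0 := by
  have h1 : ∀ v, (if ν v ≠ 0 then D v * g (ν v) else 0) = ∑ j, ∑ k, if j < k then
      (if ν v = Pi.single j 1 + Pi.single k 1 then D v * g (Pi.single j 1 + Pi.single k 1)
        else 0) else 0 := by
    intro v
    have key : ∀ j k : Fin m, j < k → ν v = Pi.single j 1 + Pi.single k 1 →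
        (if ν v ≠ 0 then D v * g (ν v) else 0) = ∑ j, ∑ k, if j < k then
      (if ν v = Pi.single j 1 + Pi.single k 1 then D v * g (Pi.single j 1 + Pi.single k 1)
        else 0) else 0 := by
      intro j k hjk hv
      rw [if_pos (by rw [hv]; exact twlinb_pair_ne j k hjk.ne)]
      rw [sum_eq_single j]
      · rw [sum_eq_single k]
        · rw [if_pos hjk, if_pos hv, hv]
        · intro b _ hb
          by_cases h2 : j < b
          · rw [if_pos h2, if_neg]
            intro h3
            rw [hv] at h3
            exact hb (twlinb_pair_inj j k j b hjk h2 h3).2.symm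
          · rw [if_neg h2]
        · intro h2
          exact absurd (mem_univ _) h2
      · intro b _ hb
        refine sum_eq_zero fun i _ => ?_
        by_cases h2 : b < i
        · rw [if_pos h2, if_neg]
          intro h3
          rw [hv] at h3
          exact hb (twlinb_pair_inj j k b i hjk h2 h3).1.symm
        · rw [if_neg h2]
      · intro h2
        exact absurd (mem_univ _) h2
    rcases hc.pair v with h | ⟨j, k, hjk, h⟩
    · rw [if_neg (not_not.mpr h)]
      symm
      refine sum_eq_zero fun j _ => sum_eq_zero fun k _ => ?_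
      by_cases h2 : j < k
      · rw [if_pos h2, if_neg]
        rw [h]
        exact (twlinb_pair_ne j k h2.ne).symm
      · rw [if_neg h2]
    · rcases lt_or_gt_of_ne hjk with h2 | h2
      · exact key j k h2 h
      · rw [add_comm] at h
        exact key k j h2 h
  rw [sum_filter, sum_congr rfl fun v _ => h1 v, sum_comm, mul_sum]
  refine sum_congr rfl fun j _ => ?_
  rw [sum_comm, mul_sum]
  refine sum_congr rfl fun k _ => ?_
  by_cases h2 : j < k
  · simp only [if_pos h2]
    rw [← hc.cls j k h2.ne, sum_filter, sum_mul]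
    refine sum_congr rfl fun v _ => ?_
    by_cases h3 : ν v = Pi.single j 1 + Pi.single k 1
    · rw [if_pos h3, if_pos h3]
    · rw [if_neg h3, if_neg h3, zero_mul]
  · simp only [if_neg h2]
    simp

theorem twlinb_count (m : ℕ) :
    (∑ j : Fin m, ∑ k : Fin m, if j < k then (1 : ZMod 2) else 0) = (m.choose 2 : ℕ) := by
  rw [sum_comm]
  have h1 : ∀ k : Fin m, (∑ j : Fin m, if j < k then (1 : ZMod 2) else 0) = ((k : ℕ) : ZMod 2) := by
    intro k
    rw [← sum_filter, sum_const, nsmul_eq_mul, mul_one]
    congr 1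
    have : (univ.filter fun j : Fin m => j < k) = Finset.Iio k := by
      ext j
      simp
    rw [this, Fin.card_Iio]
  rw [sum_congr rfl fun k _ => h1 k]
  have h2 : ∑ k : Fin m, ((k : ℕ) : ZMod 2) = ((∑ k ∈ range m, k : ℕ) : ZMod 2) := by
    rw [← Fin.sum_univ_eq_sum_range (fun k => k) m]
    push_cast
    rfl
  rw [h2, sum_range_id, Nat.choose_two_right]

theorem twlinb_count_at (i : Fin m) :
    (∑ j : Fin m, ∑ k : Fin m, if j < k then
      (Pi.single j 1 + Pi.single k 1 : Fin m → ZMod 2) i else 0) = (m : ZMod 2) + 1 := by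
  have h1 : ∀ j k : Fin m, (if j < k then
      (Pi.single j 1 + Pi.single k 1 : Fin m → ZMod 2) i else 0) =
      (if j = i then (if i < k then 1 else 0) else 0) +
      (if k = i then (if j < i then 1 else 0) else 0) := by
    intro j k
    by_cases h : j < k
    · rw [if_pos h, twlinb_pair_apply j k h.ne]
      by_cases h2 : j = i
      · subst h2
        rw [if_pos (Or.inl rfl), if_pos rfl, if_pos h, if_neg h.ne', add_zero]
      · by_cases h3 : k = i
        · subst h3
          rw [if_pos (Or.inr rfl), if_neg h2, if_pos rfl, if_pos h, zero_add]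
        · rw [if_neg, if_neg h2, if_neg h3, add_zero]
          rintro (h4 | h4)
          · exact h2 h4.symm
          · exact h3 h4.symm
    · rw [if_neg h]
      by_cases h2 : j = i
      · subst h2
        rw [if_pos rfl, if_neg h, zero_add]
        by_cases h3 : k = j
        · rw [if_pos h3, if_neg (lt_irrefl _)]
        · rw [if_neg h3]
      · rw [if_neg h2, zero_add]
        by_cases h3 : k = i
        · subst h3
          rw [if_pos rfl, if_neg h]
        · rw [if_neg h3]
  simp_rw [h1, sum_add_distrib]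
  have h2 : (∑ j : Fin m, ∑ k : Fin m, if j = i then (if i < k then (1 : ZMod 2) else 0) else 0) =
      ∑ k : Fin m, if i < k then (1 : ZMod 2) else 0 := by
    rw [sum_eq_single i]
    · simp
    · intro b _ hb
      simp [hb]
    · intro h
      exact absurd (mem_univ _) h
  have h3 : (∑ j : Fin m, ∑ k : Fin m, if k = i then (if j < i then (1 : ZMod 2) else 0) else 0) =
      ∑ j : Fin m, if j < i then (1 : ZMod 2) else 0 := by
    rw [sum_comm, sum_eq_single i]
    · simp
    · intro b _ hb
      simp [hb]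
    · intro h
      exact absurd (mem_univ _) h
  rw [h2, h3, ← sum_add_distrib]
  have h4 : ∀ k : Fin m, ((if i < k then (1 : ZMod 2) else 0) + if k < i then 1 else 0) =
      1 + if k = i then 1 else 0 := by
    intro k
    rcases lt_trichotomy i k with h | h | h
    · rw [if_pos h, if_neg h.asymm, if_neg h.ne']
    · subst h
      rw [if_neg (lt_irrefl _), if_pos rfl]
      decide
    · rw [if_neg h.asymm, if_pos h, if_neg h.ne, zero_add, add_zero]
  rw [sum_congr rfl fun k _ => h4 k, sum_add_distrib]
  simp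

end pairs

theorem tTwLinB (hPar : StmtTwPar) : StmtTwLinB := by
  intro m V T _ _ _ n ν ρ D s s₁ s₀ ε ch par rt rk hc hall r hr hrr hρr hρ l α β x₀ U hs
  have hadj : ∀ v w, ν v ≠ 0 → ν w ≠ 0 → rt v = rt w := by
    intro v w hv hw
    rcases hc.pair v with h | ⟨j, k, hjk, h⟩
    · exact absurd h hv
    rcases hc.pair w with h' | ⟨j', k', hjk', h'⟩
    · exact absurd h' hw
    -- a third pair
    have third : ∀ a b : Fin m, a ≠ b → ν v a + ν v b = 1 → ν w a + ν w b = 1 →
        rt v = rt w := by
      intro a b hab h1 h2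
      obtain ⟨u, hu⟩ := hall a b hab
      have h3 : ip (ν v) (ν u) = 1 := by
        rw [hu, twlinb_ip_pair]
        exact h1
      have h4 : ip (ν w) (ν u) = 1 := by
        rw [hu, twlinb_ip_pair]
        exact h2
      exact (hc.adj _ _ h3).trans (hc.adj _ _ h4).symm
    have hvj : ν v j = 1 := by
      rw [h, twlinb_pair_apply j k hjk, if_pos (Or.inl rfl)]
    have hvk : ν v k = 1 := by
      rw [h, twlinb_pair_apply j k hjk, if_pos (Or.inr rfl)]
    rcases twlinb_z2 (ν w j) with hj | hj
    · rcases twlinb_z2 (ν w k) with hk | hk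
      · -- disjoint
        have hwj : ν w j' = 1 := by
          rw [h', twlinb_pair_apply j' k' hjk', if_pos (Or.inl rfl)]
        have hne1 : j' ≠ j := by
          intro h1
          rw [h1, hj] at hwj
          exact zero_ne_one hwj
        have hne2 : j' ≠ k := by
          intro h1
          rw [h1, hk] at hwj
          exact zero_ne_one hwj
        refine third j j' hne1.symm ?_ ?_
        · rw [hvj, h, twlinb_pair_apply j k hjk, if_neg (by tauto), add_zero]
        · rw [hj, hwj, zero_add]
      · refine hc.adj v w ?_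
        rw [twlinb_ip_comm, h, twlinb_ip_pair, hj, hk, zero_add]
    · rcases twlinb_z2 (ν w k) with hk | hk
      · refine hc.adj v w ?_
        rw [twlinb_ip_comm, h, twlinb_ip_pair, hj, hk, add_zero]
      · -- equal pairs
        obtain ⟨i, -, hi⟩ : ∃ i ∈ (univ : Finset (Fin m)), i ∉ ({j, k} : Finset (Fin m)) := by
          refine exists_mem_notMem_of_card_lt_card ?_
          rw [card_pair hjk, card_univ, Fintype.card_fin]
          have := hc.three
          omega
        have hij : i ≠ j := fun h1 => hi (by simp [h1])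
        have hik : i ≠ k := fun h1 => hi (by simp [h1])
        refine third j i hij.symm ?_ ?_
        · rw [hvj, h, twlinb_pair_apply j k hjk, if_neg (by tauto), add_zero]
        · have hwi : ν w i = 0 := by
            rw [h', twlinb_pair_apply j' k' hjk', if_neg]
            have h1 : j = j' ∨ j = k' := by
              by_contra hcon
              rw [h', twlinb_pair_apply j' k' hjk', if_neg hcon] at hj
              exact zero_ne_one hj
            have h2 : k = j' ∨ k = k' := by
              by_contra hcon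
              rw [h', twlinb_pair_apply j' k' hjk', if_neg hcon] at hk
              exact zero_ne_one hk
            rintro (h3 | h3)
            · rcases h1 with h1 | h1
              · exact hij (h3.trans h1.symm)
              · rcases h2 with h2 | h2
                · exact hik (h3.trans h2.symm)
                · exact hjk (h1.trans h2.symm)
            · rcases h1 with h1 | h1
              · rcases h2 with h2 | h2
                · exact hjk (h1.trans h2.symm)
                · exact hik (h3.trans h2.symm)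
              · exact hij (h3.trans h1.symm)
          rw [hj, hwi, add_zero]
  have hC : twlinbC ν rt r = univ.filter (fun v => ν v ≠ 0) := by
    ext v
    rw [twlinb_memC]
    simp only [mem_filter, mem_univ, true_and]
    exact ⟨fun h => h.1, fun h => ⟨h, (hadj v r h hr).trans hrr⟩⟩
  have hl0 : ∀ v, l v = if ν v = 0 then 0 else l r := by
    intro v
    by_cases h : ν v = 0
    · rw [if_pos h]
      exact hs.zero v h
    · rw [if_neg h, (twlinb_root hc hs (rk v) v le_rfl h).1, hadj v r h hr, hrr]
  have hm : (m : ZMod 2) + 1 = 0 := by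
    obtain ⟨c, hc2⟩ := hc.odd
    rw [hc2]
    push_cast
    have : (2 : ZMod 2) = 0 := rfl
    linear_combination (c + 1 : ZMod 2) * this
  have hD : ∑ v ∈ twlinbC ν rt r, D v • ν v = 0 := by
    rw [hC]
    funext i
    rw [Finset.sum_apply]
    simp only [Pi.smul_apply, smul_eq_mul, Pi.zero_apply]
    rw [twlinb_total hc (fun y => y i), twlinb_count_at, hm, mul_zero]
  have hD1 : ∑ v ∈ twlinbC ν rt r, D v = ((m.choose 2 * n : ℕ) : ZMod 2) := by
    rw [hC]
    have h1 := twlinb_total hc (fun _ => 1)
    simp only [mul_one] at h1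
    rw [h1, twlinb_count]
    push_cast
    ring
  have hx : x₀ = 0 := by
    rw [hs.x0]
    have h1 : ∑ v, (D v * l v) • ν v = l r • ∑ v ∈ twlinbC ν rt r, D v • ν v := by
      rw [hC, sum_filter, smul_sum]
      refine sum_congr rfl fun v _ => ?_
      by_cases h : ν v = 0
      · rw [if_neg (not_not.mpr h), h, smul_zero, smul_zero]
      · rw [if_pos h, hl0 v, if_neg h, smul_smul, mul_comm]
    rw [h1, hD, smul_zero]
  have hρs : ∑ v ∈ twlinbC ν rt r, ρ v = ((twlinbC ν rt r).card : ZMod 2) + 1 + ρ r := by
    have hrC : r ∈ twlinbC ν rt r := (twlinb_memC r r).mpr ⟨hr, hrr⟩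
    rw [← add_sum_erase _ _ hrC]
    have h1 : ∑ v ∈ (twlinbC ν rt r).erase r, ρ v = ((twlinbC ν rt r).erase r).card := by
      rw [sum_congr rfl fun v hv => hρ v (mem_erase.mp hv).1, sum_const, nsmul_eq_mul, mul_one]
    rw [h1, ← card_erase_add_one hrC]
    push_cast
    rw [add_assoc, add_assoc]
    have := twlinb_add_self (1 : ZMod 2)
    linear_combination -this
  have hfin := twlinb_comp hPar hc hs hx r hr hrr hD
  rw [hD1, hρs, hρr] at hfin
  have hlr : l r = 0 := by
    have h1 : (ε * ((m.choose 2 * n : ℕ) : ZMod 2) + (((twlinbC ν rt r).card : ZMod 2) + 1 +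
        (1 + ε * ((m.choose 2 * n : ℕ) : ZMod 2))) + ((twlinbC ν rt r).card + 1 : ZMod 2)) = 1 := by
      have h2 := twlinb_add_self (ε * ((m.choose 2 * n : ℕ) : ZMod 2))
      have h3 := twlinb_add_self ((twlinbC ν rt r).card : ZMod 2)
      have h4 := twlinb_add_self (1 : ZMod 2)
      linear_combination h2 + h3 + h4
    rw [h1, mul_one] at hfin
    exact hfin
  have hl : ∀ v, l v = 0 := by
    intro v
    rw [hl0 v, hlr]
    split_ifs <;> rfl
  exact ⟨hl, twlinb_alpha hc hs hl⟩

end MP72e2e6
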