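import Pool.Agent.Lib.MP_72e2e6_nt.TwStmt
import Pool.Agent.Lib.MP_72e2e6_nt.TwLinB

/-!
# MP_72e2e6_nt: TwLinA, the reduced equations, several components
-/

namespace MP72e2e6

open Finset

section

variable {m : ℕ} {V T : Type} [Fintype V] [DecidableEq V] [Fintype T]
  {n : ℕ} {ν : V → Fin m → ZMod 2} {ρ D : V → ZMod 2} {s : V → V → ZMod 2}
  {s₁ s₀ : V → ZMod 2} {ε : ZMod 2} {ch par : T → V} {rt : V → V} {rk : V → ℕ}
  {l : V → ZMod 2} {α β : T → ZMod 2} {x₀ U : Fin m → ZMod 2}

/-- If `rt v` is different from `v` then `rt v` has a neighbour. -/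
theorem twlina_nbr (hc : Comb n ν D s ε ch par rt rk) :
    ∀ (N : ℕ) (v : V), rk v ≤ N → ν v ≠ 0 → rt v ≠ v → ∃ w, ip (ν (rt v)) (ν w) = 1 := by
  intro N
  induction N with
  | zero =>
    intro v hv hv0 hne
    rcases hc.cov v hv0 with ⟨t, ht⟩ | h
    · have := (hc.edge t).2
      rw [ht] at this
      omega
    · exact absurd h hne
  | succ N ih =>
    intro v hv hv0 hne
    rcases hc.cov v hv0 with ⟨t, ht⟩ | h
    · have h1 := (hc.edge t).2
      have h2 := (hc.edge t).1
      have h3 := hc.adj _ _ h2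
      have h5 := twlinb_ne_right _ _ h2
      rw [ht] at h1 h3
      by_cases h6 : rt (par t) = par t
      · refine ⟨ch t, ?_⟩
        rw [h3, h6, twlinb_ip_comm]
        exact h2
      · obtain ⟨w, hw⟩ := ih (par t) (by omega) h5 h6
        refine ⟨w, ?_⟩
        rw [h3]
        exact hw
    · exact absurd h hne

theorem twlina_nbr_all (hc : Comb n ν D s ε ch par rt rk) (v w : V) (hv : ν v ≠ 0)
    (hw : ν w ≠ 0) (hvw : rt v = rt w) (hn : ∃ u, ip (ν v) (ν u) = 1) :
    ∃ u, ip (ν w) (ν u) = 1 := by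
  have hr : ∃ u, ip (ν (rt v)) (ν u) = 1 := by
    by_cases h : rt v = v
    · rw [h]
      exact hn
    · exact twlina_nbr hc _ v le_rfl hv h
  rcases hc.cov w hw with ⟨t, ht⟩ | h
  · refine ⟨par t, ?_⟩
    rw [← ht]
    exact (hc.edge t).1
  · rw [hvw, h] at hr
    exact hr

/-- A sum over a union of classes. -/
theorem twlina_union (hc : Comb n ν D s ε ch par rt rk) (hn : Even n) (C : Finset V)
    (hC0 : ∀ v ∈ C, ν v ≠ 0) (hC : ∀ v ∈ C, ∀ w, ν w = ν v → w ∈ C)
    (g : (Fin m → ZMod 2) → ZMod 2) : ∑ v ∈ C, D v * g (ν v) = 0 := by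
  have hn0 : (n : ZMod 2) = 0 := by
    rw [ZMod.natCast_eq_zero_iff]
    exact hn.two_dvd
  rw [← sum_fiberwise_of_maps_to (s := C) (t := C.image ν) (g := ν)
    (fun v hv => mem_image_of_mem ν hv)]
  refine sum_eq_zero fun y hy => ?_
  obtain ⟨v, hv, rfl⟩ := mem_image.mp hy
  have h1 : ∑ w ∈ C.filter (fun w => ν w = ν v), D w * g (ν w) =
      (∑ w ∈ C.filter (fun w => ν w = ν v), D w) * g (ν v) := by
    rw [sum_mul]
    refine sum_congr rfl fun w hw => ?_
    rw [(mem_filter.mp hw).2]
  rw [h1]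
  rcases hc.pair v with h | ⟨j, k, hjk, h⟩
  · exact absurd h (hC0 v hv)
  have h2 : C.filter (fun w => ν w = ν v) =
      univ.filter (fun w => ν w = Pi.single j 1 + Pi.single k 1) := by
    ext w
    simp only [mem_filter, mem_univ, true_and]
    rw [← h]
    exact ⟨fun h3 => h3.2, fun h3 => ⟨hC v hv w h3, h3⟩⟩
  rw [h2, hc.cls j k hjk, hn0, zero_mul]

end

theorem tTwLinA (hPar : StmtTwPar) : StmtTwLinA := by
  intro m V T _ _ _ n ν ρ D s s₁ s₀ ε ch par rt rk hc hn hρ l α β x₀ U hs
  -- the equation for an element without neighbours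
  have hiso : ∀ v, ν v ≠ 0 → (∀ w, ip (ν v) (ν w) = 0) → l v + D v * ip (ν v) U = 0 := by
    intro v hv hw
    have h := hs.eqn v hv
    have h1 : ∑ w, s v w * (l w * ip (ν v) (ν w)) = 0 := by
      refine sum_eq_zero fun w _ => ?_
      rw [hw w]
      ring
    have h2 : ip (ν v) x₀ = 0 := by
      rw [hs.x0, twlinb_ip_sum_smul]
      refine sum_eq_zero fun w _ => ?_
      rw [hw w, mul_zero]
    have h3 : ∑ t ∈ univ.filter (fun t => ch t = v), β t = 0 := by
      refine sum_eq_zero fun t ht => ?_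
      exfalso
      have h4 := (hc.edge t).1
      rw [(mem_filter.mp ht).2, hw] at h4
      exact zero_ne_one h4
    have h4 : ∑ t ∈ univ.filter (fun t => par t = v), α t = 0 := by
      refine sum_eq_zero fun t ht => ?_
      exfalso
      have h4 := (hc.edge t).1
      rw [(mem_filter.mp ht).2, twlinb_ip_comm, hw] at h4
      exact zero_ne_one h4
    rw [h1, h2, h3, h4, hρ v] at h
    linear_combination h
  -- sums over classes
  have hcls : ∀ v, ν v ≠ 0 → ∑ w ∈ univ.filter (fun w => ν w = ν v), D w * l w = 0 := by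
    intro v hv
    have hDc : ∑ w ∈ univ.filter (fun w => ν w = ν v), D w = 0 := by
      have := twlina_union hc hn (univ.filter (fun w => ν w = ν v))
        (fun w hw => by rw [(mem_filter.mp hw).2]; exact hv)
        (fun w hw w' hw' => mem_filter.mpr ⟨mem_univ _, hw'.trans (mem_filter.mp hw).2⟩)
        (fun _ => 1)
      simpa using this
    by_cases hnb : ∃ u, ip (ν v) (ν u) = 1
    · obtain ⟨u, hu⟩ := hnb
      have h1 : ∀ w ∈ univ.filter (fun w => ν w = ν v), D w * l w = D w * l (rt u) := by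
        intro w hw
        have h2 := (mem_filter.mp hw).2
        have h3 : ip (ν w) (ν u) = 1 := by rw [h2, hu]
        have h4 := hc.adj _ _ h3
        rw [(twlinb_root hc hs (rk w) w le_rfl (by rw [h2]; exact hv)).1, h4]
      rw [sum_congr rfl h1, ← sum_mul, hDc, zero_mul]
    · have hw0 : ∀ u, ip (ν v) (ν u) = 0 := by
        intro u
        rcases twlinb_z2 (ip (ν v) (ν u)) with h | h
        · exact h
        · exact absurd ⟨u, h⟩ hnb
      have h1 : ∀ w ∈ univ.filter (fun w => ν w = ν v), D w * l w = D w * ip (ν v) U := by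
        intro w hw
        have h2 := (mem_filter.mp hw).2
        have h3 := hiso w (by rw [h2]; exact hv) (fun u => by rw [h2]; exact hw0 u)
        rw [h2] at h3
        rw [twlinb_eq_of_add _ _ h3, ← mul_assoc, twlinb_mul_self]
      rw [sum_congr rfl h1, ← sum_mul, hDc, zero_mul]
  have hx : x₀ = 0 := by
    rw [hs.x0, ← sum_fiberwise_of_maps_to (s := univ) (t := univ.image ν) (g := ν)
      (fun v _ => mem_image_of_mem ν (mem_univ v))]
    refine sum_eq_zero fun y hy => ?_
    obtain ⟨v, -, rfl⟩ := mem_image.mp hy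
    have h1 : ∑ w ∈ univ.filter (fun w => ν w = ν v), (D w * l w) • ν w =
        (∑ w ∈ univ.filter (fun w => ν w = ν v), D w * l w) • ν v := by
      rw [sum_smul]
      refine sum_congr rfl fun w hw => ?_
      rw [(mem_filter.mp hw).2]
    rw [h1]
    by_cases hv : ν v = 0
    · rw [hv, smul_zero]
    · rw [hcls v hv, zero_smul]
  have hU := hs.U0 hx
  have hl : ∀ v, l v = 0 := by
    intro v
    by_cases hv : ν v = 0
    · exact hs.zero v hv
    by_cases hnb : ∃ u, ip (ν v) (ν u) = 1
    · obtain ⟨h1, h2⟩ := twlinb_root hc hs (rk v) v le_rfl hv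
      have h3 : rt (rt v) = rt v := hc.idm v
      have hCu : ∀ w ∈ twlinbC ν rt (rt v), ∀ w', ν w' = ν w → w' ∈ twlinbC ν rt (rt v) := by
        intro w hw w' hw'
        obtain ⟨h4, h5⟩ := (twlinb_memC w (rt v)).mp hw
        obtain ⟨u, hu⟩ := twlina_nbr_all hc v w hv h4 h5.symm hnb
        rw [twlinb_memC]
        refine ⟨by rw [hw']; exact h4, ?_⟩
        have h6 : ip (ν w') (ν u) = 1 := by rw [hw']; exact hu
        rw [hc.adj _ _ h6, ← hc.adj _ _ hu, h5]
      have hC0 : ∀ w ∈ twlinbC ν rt (rt v), ν w ≠ 0 := fun w hw => ((twlinb_memC w (rt v)).mp hw).1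
      have hD : ∑ w ∈ twlinbC ν rt (rt v), D w • ν w = 0 := by
        funext i
        rw [Finset.sum_apply]
        simp only [Pi.smul_apply, smul_eq_mul, Pi.zero_apply]
        exact twlina_union hc hn _ hC0 hCu (fun y => y i)
      have hD1 : ∑ w ∈ twlinbC ν rt (rt v), D w = 0 := by
        have := twlina_union hc hn _ hC0 hCu (fun _ => 1)
        simpa using this
      have hfin := twlinb_comp hPar hc hs hx (rt v) h2 h3 hD
      have hρs : ∑ w ∈ twlinbC ν rt (rt v), ρ w = ((twlinbC ν rt (rt v)).card : ZMod 2) := by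
        rw [sum_congr rfl fun w _ => hρ w, sum_const, nsmul_eq_mul, mul_one]
      rw [hD1, hρs, mul_zero, zero_add, ← add_assoc, twlinb_add_self, zero_add, mul_one] at hfin
      rw [h1, hfin]
    · have hw0 : ∀ u, ip (ν v) (ν u) = 0 := by
        intro u
        rcases twlinb_z2 (ip (ν v) (ν u)) with h | h
        · exact h
        · exact absurd ⟨u, h⟩ hnb
      have h1 := hiso v hv hw0
      have h2 : ip (ν v) U = 0 := by
        rw [hU, twlinb_ip_sum_smul]
        refine sum_eq_zero fun w _ => ?_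
        rw [hw0 w, mul_zero]
      rw [h2, mul_zero, add_zero] at h1
      exact h1
  exact ⟨hl, twlinb_alpha hc hs hl⟩

end MP72e2e6
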