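import Pool.Agent.Lib.MP_72e2e6_nt.TwStmt

/-!
# MP_72e2e6_nt, module TwNet: the equations for a network
-/

namespace MP72e2e6

open Polynomial

universe u

theorem twnet_self (x : ZMod 2) : x + x = 0 := CharTwo.add_self_eq_zero x

theorem twnet_two : (2 : ZMod 2) = 0 := by decide

theorem twnet_val (x : ZMod 2) : ((x.val : ℕ) : ZMod 2) = x := ZMod.natCast_zmod_val x

theorem twnet_tw_natDegree {F : Type u} [Field F] {ι : Type} [Fintype ι] (pr : ι → F[X])
    (hm : ∀ b, (pr b).Monic) (ρ : ι → ZMod 2) (x₀ : F) (hx : x₀ ≠ 0) :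
    ((tw pr ρ x₀).natDegree : ZMod 2) = ∑ b, ρ b * ((pr b).natDegree : ZMod 2) := by
  have h1 : (∏ b, pr b ^ (ρ b).val).natDegree = ∑ b, (ρ b).val * (pr b).natDegree := by
    rw [natDegree_prod_of_monic _ _ (fun b _ => (hm b).pow _)]
    exact Finset.sum_congr rfl fun b _ => (hm b).natDegree_pow _
  rw [tw, natDegree_C_mul hx, h1, Nat.cast_sum]
  refine Finset.sum_congr rfl fun b _ => ?_
  rw [Nat.cast_mul, twnet_val]

theorem tTwNet.{v} (hSy : StmtTwSy.{v}) (hFac : StmtTwFac.{v}) (hNu : StmtTwNu.{v}) :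
    StmtTwNet.{v} := by
  intro F _ _ hF m n a ha V κ _ _ pr hfam hdiv ρ hρ0 hρk x₀ hx₀ hodd A e l hR hQ hA1 hA2 hl hcs
    x c hE
  classical
  obtain ⟨hcsm, hP⟩ := hSy F hF
  have h2 := twnet_two
  have hnd : ∀ b, (∀ v, b ≠ Sum.inl (some v)) → ∀ i j, i ≠ j → ¬ pr b ∣ a i - a j := by
    intro b hb i j hij hd
    obtain ⟨v, hv⟩ := hdiv (pr b) (hfam.monic b) (hfam.irr b) i j hij hd
    exact hb v (hfam.inj hv.symm)
  have hvp0 : ∀ b, (∀ v, b ≠ Sum.inl (some v)) → ∀ i j, i ≠ j → vp (pr b) (a i - a j) = 0 :=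
    fun b hb i j hij => ((hP (pr b) (hfam.monic b) (hfam.irr b)).2.1 _ (hnd b hb i j hij)).1
  have hne : ∀ i j, i ≠ j → a i - a j ≠ 0 := by
    intro i j hij h0
    have h1 := ha.deg i j hij
    rw [h0, degree_zero] at h1
    exact absurd h1 (by simp)
  have hfac := fun i j (hij : i ≠ j) => hFac F hF (Option V ⊕ κ) pr hfam (a i - a j) (hne i j hij)
    (fun P hm hi hPb => by
      by_cases hd : P ∣ a i - a j
      · obtain ⟨v, hv⟩ := hdiv P hm hi i j hij hd
        exact absurd hv (hPb _)
      · exact ((hP P hm hi).2.1 _ hd).1)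
  have hnu := fun b => hNu F hF m n a ha (pr b) (hfam.monic b) (hfam.irr b)
  have hnu0 : ∀ b, (∀ v, b ≠ Sum.inl (some v)) → nu (pr b) a = 0 :=
    fun b hb => (hnu b).2.1 (hnd b hb)
  have hvx : ∀ b, ρ b = 1 → ∀ i, x b i = c b i + ip (nu (pr b) a) (c b) * nu (pr b) a i := by
    intro b hb i
    rw [hE.val b hb i, (hnu b).2.2.2.1]
  have hxc : ∀ b, (∀ v, b ≠ Sum.inl (some v)) → ρ b = 1 → x b = c b := by
    intro b hb hb1
    funext i
    rw [hvx b hb1 i, hnu0 b hb, Pi.zero_apply, mul_zero, add_zero]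
  have hk : ∀ (k : κ) (v : V), (Sum.inr k : Option V ⊕ κ) ≠ Sum.inl (some v) := fun k v h => by
    cases h
  have hn : ∀ v : V, (Sum.inl none : Option V ⊕ κ) ≠ Sum.inl (some v) := fun v h => by
    cases h
  have hcs1 : cs (-x₀) = cs (-1 : F) + ∑ k, e k := by
    rw [← hcs, ← hcsm (-1) x₀ (by simp) hx₀, neg_one_mul]
  have hinf : ∀ i, ∑ v : V, ((pr (Sum.inl (some v))).natDegree : ZMod 2) *
      x (Sum.inl (some v)) i + x (Sum.inl none) i = 0 := by
    intro i
    have h1 := hE.inf i
    rw [Fintype.sum_sum_type, Fintype.sum_option, hR] at h1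
    simp only [hQ, zero_mul, Finset.sum_const_zero, add_zero] at h1
    rw [one_mul, add_comm] at h1
    exact h1
  -- the differences
  have hsyk : ∀ (k : κ) i j, i ≠ j → sy (pr (Sum.inr k)) (a i - a j) =
      ∑ v : V, vp (pr (Sum.inl (some v))) (a i - a j) *
        sy (pr (Sum.inr k)) (pr (Sum.inl (some v))) := by
    intro k i j hij
    rw [(hfac i j hij).1 (Sum.inr k), hQ, zero_mul, zero_add, Fintype.sum_sum_type,
      Fintype.sum_option, hvp0 _ hn i j hij, zero_mul, zero_add]
    have h1 : ∀ k' : κ, vp (pr (Sum.inr k')) (a i - a j) * sy (pr (Sum.inr k)) (pr (Sum.inr k')) =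
        0 := fun k' => by rw [hvp0 _ (hk k') i j hij, zero_mul]
    simp only [h1, Finset.sum_const_zero, add_zero]
  have hdegn : ∀ i j, i ≠ j → (n : ZMod 2) =
      ∑ v : V, ((pr (Sum.inl (some v))).natDegree : ZMod 2) *
        vp (pr (Sum.inl (some v))) (a i - a j) := by
    intro i j hij
    have h1 := (hfac i j hij).2.1
    rw [natDegree_eq_of_degree_eq_some (ha.deg i j hij), Fintype.sum_sum_type,
      Fintype.sum_option, hvp0 _ hn i j hij, mul_zero, zero_add] at h1
    have h3 : ∀ k' : κ, ((pr (Sum.inr k')).natDegree : ZMod 2) *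
        vp (pr (Sum.inr k')) (a i - a j) = 0 := fun k' => by rw [hQ, zero_mul]
    simp only [h3, Finset.sum_const_zero, add_zero] at h1
    exact h1
  have hsw : ∀ (y : Fin m → ZMod 2) (w : V → ZMod 2) i,
      ∑ j, (y i + y j) * ∑ v : V, vp (pr (Sum.inl (some v))) (a i - a j) * w v =
      ∑ v : V, w v * (ip (nu (pr (Sum.inl (some v))) a) y * nu (pr (Sum.inl (some v))) a i) := by
    intro y w i
    have h1 : ∀ v : V, w v * (ip (nu (pr (Sum.inl (some v))) a) y *
        nu (pr (Sum.inl (some v))) a i) =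
        ∑ j, (y i + y j) * (vp (pr (Sum.inl (some v))) (a i - a j) * w v) := by
      intro v
      rw [← (hnu (Sum.inl (some v))).2.2.2.1 y i, Finset.mul_sum]
      exact Finset.sum_congr rfl fun j _ => by ring
    simp only [h1]
    rw [Finset.sum_comm]
    exact Finset.sum_congr rfl fun j _ => by rw [Finset.mul_sum]
  have hm1 : (m : ZMod 2) = 1 := ZMod.natCast_eq_one_iff_odd.2 ha.odd
  have hdeg1 : ∑ v : V, ρ (Sum.inl (some v)) * ((pr (Sum.inl (some v))).natDegree : ZMod 2) + 1 +
      (n : ZMod 2) = 1 := by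
    have h1 : (((tw pr ρ x₀).natDegree + n : ℕ) : ZMod 2) = 1 :=
      ZMod.natCast_eq_one_iff_odd.2 hodd
    rw [Nat.cast_add, twnet_tw_natDegree pr hfam.monic ρ x₀ hx₀, Fintype.sum_sum_type,
      Fintype.sum_option, hR, hρ0] at h1
    simp only [hQ, mul_zero, Finset.sum_const_zero, add_zero, mul_one] at h1
    linear_combination h1
  -- the common part of the equations at the places
  have hsum : ∀ (b : Option V) (y : ZMod 2) (i : Fin m),
      ∑ b', sy (pr (Sum.inl b)) (pr b') * (x b' i + ρ b' * y) =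
      ∑ w : V, sy (pr (Sum.inl b)) (pr (Sum.inl (some w))) *
          (x (Sum.inl (some w)) i + ρ (Sum.inl (some w)) * y) +
        sy (pr (Sum.inl b)) (pr (Sum.inl none)) * (x (Sum.inl none) i + y) +
        ∑ k : κ, A k b * (x (Sum.inr k) i + y) +
        ((pr (Sum.inl b)).natDegree : ZMod 2) * ∑ k : κ, e k * x (Sum.inr k) i +
        y * (((pr (Sum.inl b)).natDegree : ZMod 2) * ∑ k : κ, e k) := by
    intro b y i
    rw [Fintype.sum_sum_type, Fintype.sum_option, hρ0, one_mul]
    have h1 : ∀ k : κ, sy (pr (Sum.inl b)) (pr (Sum.inr k)) *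
        (x (Sum.inr k) i + ρ (Sum.inr k) * y) = A k b * (x (Sum.inr k) i + y) +
          ((pr (Sum.inl b)).natDegree : ZMod 2) * (e k * x (Sum.inr k) i) +
          y * (((pr (Sum.inl b)).natDegree : ZMod 2) * e k) := by
      intro k
      rw [hA1, hρk]
      ring
    simp only [h1, Finset.sum_add_distrib, Finset.mul_sum]
    ring
  refine ⟨?_, ?_, ?_, ?_, ?_, ?_, ?_⟩
  · -- val
    intro v hv
    funext i
    exact hvx _ hv i
  · -- spl
    intro v hv
    obtain ⟨l', hl'⟩ := (hE.spl _ hv).1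
    exact ⟨l', funext hl'⟩
  · -- inf
    funext i
    simpa only [Pi.add_apply, Finset.sum_apply, Pi.smul_apply, smul_eq_mul, Pi.zero_apply] using
      hinf i
  · -- ker
    intro k
    funext i
    simp only [Pi.add_apply, Finset.sum_apply, Pi.smul_apply, smul_eq_mul, Pi.zero_apply]
    have hX : x (Sum.inr k) = c (Sum.inr k) := hxc _ (hk k) (hρk k)
    have h1 := hE.sym (Sum.inr k) (hρk k) i
    rw [← hX, hQ, zero_mul, mul_zero, add_zero] at h1
    have h3 : ∑ j, (x (Sum.inr k) i + x (Sum.inr k) j) * sy (pr (Sum.inr k)) (a i - a j) =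
        ∑ v : V, sy (pr (Sum.inr k)) (pr (Sum.inl (some v))) *
          (ip (nu (pr (Sum.inl (some v))) a) (x (Sum.inr k)) *
            nu (pr (Sum.inl (some v))) a i) := by
      rw [← hsw]
      refine Finset.sum_congr rfl fun j _ => ?_
      by_cases hij : i = j
      · subst hij
        rw [twnet_self, zero_mul, zero_mul]
      · rw [hsyk k i j hij]
    rw [h3, Fintype.sum_sum_type, Fintype.sum_option, hρ0, one_mul, hA2, hR] at h1
    simp only [hA2, hl, hρk, one_mul] at h1
    -- the coefficient of `e k`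
    have h4 : ∑ v : V, ((pr (Sum.inl (some v))).natDegree : ZMod 2) *
        (ip (nu (pr (Sum.inl (some v))) a) (x (Sum.inr k)) * nu (pr (Sum.inl (some v))) a i) =
        (n : ZMod 2) * x (Sum.inr k) i := by
      rw [← hsw]
      have h5 : ∀ j, (x (Sum.inr k) i + x (Sum.inr k) j) *
          ∑ v : V, vp (pr (Sum.inl (some v))) (a i - a j) *
            ((pr (Sum.inl (some v))).natDegree : ZMod 2) =
          (x (Sum.inr k) i + x (Sum.inr k) j) * (n : ZMod 2) := by
        intro j
        by_cases hij : i = j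
        · subst hij
          rw [twnet_self, zero_mul, zero_mul]
        · rw [hdegn i j hij]
          congr 1
          exact Finset.sum_congr rfl fun v _ => mul_comm _ _
      simp only [h5]
      rw [← Finset.sum_mul, Finset.sum_add_distrib]
      have h6 : ∑ j, x (Sum.inr k) j = 0 := by
        rw [hX]
        exact hE.even _ (hρk k)
      rw [h6, add_zero, Finset.sum_const, Finset.card_univ, Fintype.card_fin, nsmul_eq_mul, hm1,
        one_mul, mul_comm]
    have h7 := hinf i
    simp only [add_mul, mul_add, Finset.sum_add_distrib] at h1 ⊢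
    have h8 : ∑ v : V, e k * ((pr (Sum.inl (some v))).natDegree : ZMod 2) *
        x (Sum.inl (some v)) i = e k * ∑ v : V, ((pr (Sum.inl (some v))).natDegree : ZMod 2) *
        x (Sum.inl (some v)) i := by
      rw [Finset.mul_sum]
      exact Finset.sum_congr rfl fun v _ => by ring
    have h9 : ∑ v : V, e k * ((pr (Sum.inl (some v))).natDegree : ZMod 2) *
        (ρ (Sum.inl (some v)) * x (Sum.inr k) i) = e k * x (Sum.inr k) i *
        ∑ v : V, ρ (Sum.inl (some v)) * ((pr (Sum.inl (some v))).natDegree : ZMod 2) := by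
      rw [Finset.mul_sum]
      exact Finset.sum_congr rfl fun v _ => by ring
    have h10 : ∑ v : V, e k * ((pr (Sum.inl (some v))).natDegree : ZMod 2) *
        (ip (nu (pr (Sum.inl (some v))) a) (x (Sum.inr k)) * nu (pr (Sum.inl (some v))) a i) =
        e k * ((n : ZMod 2) * x (Sum.inr k) i) := by
      rw [← h4, Finset.mul_sum]
      exact Finset.sum_congr rfl fun v _ => by ring
    rw [h8, h9, h10] at h1
    linear_combination h1 - e k * h7 - e k * x (Sum.inr k) i * hdeg1
  · -- pl
    intro v hv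
    funext i
    simp only [Pi.add_apply, Finset.sum_apply, Pi.smul_apply, smul_eq_mul, Pi.zero_apply]
    have h1 := hE.sym _ hv i
    rw [hsum, hcs1] at h1
    rw [lsy]
    linear_combination h1 - c (Sum.inl (some v)) i *
      ((((pr (Sum.inl (some v))).natDegree : ZMod 2) * ∑ k : κ, e k)) * h2
  · -- pls
    intro v hv
    have h1 := (hE.spl _ hv).2
    rw [ip, ← h1]
    refine Finset.sum_congr rfl fun i _ => ?_
    congr 1
    simp only [Pi.add_apply, Finset.sum_apply, Pi.smul_apply, smul_eq_mul]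
    have h3 := hsum (some v) 0 i
    simp only [mul_zero, add_zero, zero_mul] at h3
    exact h3.symm
  · -- pl0
    funext i
    simp only [Pi.add_apply, Finset.sum_apply, Pi.smul_apply, smul_eq_mul, Pi.zero_apply]
    have hX : x (Sum.inl none) = c (Sum.inl none) := hxc _ hn hρ0
    have h1 := hE.sym _ hρ0 i
    rw [← hX, hsum, hcs1, hR,
      (hP (pr (Sum.inl none)) (hfam.monic _) (hfam.irr _)).2.2.2.1] at h1
    rw [lsy, hR]
    linear_combination h1 - x (Sum.inl none) i * (∑ k : κ, e k) * h2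

end MP72e2e6
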