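import Pool.Agent.Lib.MP_72e2e6_nt.TwStmt

/-!
# MP_72e2e6_nt, module TwNonv: nonvanishing at `1 / q`
-/

namespace MP72e2e6

open Polynomial

universe u

section twnonv

variable {F : Type u} [Field F] [Finite F]

theorem twnonv_finite (h : F[X]) (hh : h ≠ 0) : {d : F[X] | d.Monic ∧ d ∣ h}.Finite := by
  refine Set.Finite.subset (Set.finite_iUnion (ι := Fin (h.natDegree + 1))
    fun k => finite_mon F (k : ℕ)) ?_
  rintro d ⟨hd, hdh⟩
  refine Set.mem_iUnion.mpr ⟨⟨d.natDegree, ?_⟩, hd, rfl⟩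
  exact Nat.lt_succ_of_le (natDegree_le_of_dvd hdh hh)

open Classical in
/-- The monic divisors. -/
noncomputable def twnonv_D (h : F[X]) : Finset F[X] :=
  if hh : h ≠ 0 then (twnonv_finite h hh).toFinset else ∅

theorem twnonv_mem {h d : F[X]} (hh : h ≠ 0) : d ∈ twnonv_D h ↔ d.Monic ∧ d ∣ h := by
  unfold twnonv_D
  rw [dif_pos hh]
  simp

theorem twnonv_pow {χ : F[X] → ℤ} (hχ : IsChar χ) (P : F[X]) (hP : P.Monic) (j : ℕ) :
    χ (P ^ j) = χ P ^ j := by
  induction j with
  | zero => rw [pow_zero, pow_zero, hχ.one]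
  | succ j ih => rw [pow_succ, pow_succ, hχ.mul _ _ (hP.pow j) hP, ih]

theorem twnonv_prod {χ : F[X] → ℤ} (hχ : IsChar χ) (P h : F[X]) (hP : P.Monic)
    (hi : Irreducible P) (hh : h.Monic) (hPh : ¬ P ∣ h) (k : ℕ) :
    ∑ d ∈ twnonv_D (P ^ k * h), χ d =
      (∑ j ∈ Finset.range (k + 1), χ P ^ j) * ∑ d ∈ twnonv_D h, χ d := by
  classical
  have hne : P ^ k * h ≠ 0 := ((hP.pow k).mul hh).ne_zero
  have hnd : ∀ d ∈ twnonv_D h, ¬ P ∣ d := fun d hd hPd =>
    hPh (hPd.trans ((twnonv_mem hh.ne_zero).mp hd).2)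
  have hinj : ∀ j j' : ℕ, ∀ d d' : F[X], ¬ P ∣ d → P ^ j * d = P ^ j' * d' → j' ≤ j := by
    intro j j' d d' hd hjj
    by_contra hlt
    push Not at hlt
    obtain ⟨c, rfl⟩ := Nat.exists_eq_add_of_lt hlt
    have e1 : P ^ j * d = P ^ j * (P * (P ^ c * d')) := by
      rw [hjj]
      ring
    exact hd ⟨_, mul_left_cancel₀ (hP.pow j).ne_zero e1⟩
  have himg : twnonv_D (P ^ k * h) =
      (Finset.range (k + 1) ×ˢ twnonv_D h).image fun p => P ^ p.1 * p.2 := by
    ext d
    rw [twnonv_mem hne, Finset.mem_image]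
    constructor
    · rintro ⟨hd, hdvd⟩
      have hfin : FiniteMultiplicity P d :=
        Polynomial.finiteMultiplicity_of_degree_pos_of_monic
          (degree_pos_of_irreducible hi) hP hd.ne_zero
      obtain ⟨d₁, hd₁, hPd₁⟩ := hfin.exists_eq_pow_mul_and_not_dvd
      set j := multiplicity P d
      have hd₁m : d₁.Monic := Monic.of_mul_monic_left (hP.pow j) (hd₁ ▸ hd)
      have hcop : IsCoprime P d₁ := (hi.coprime_iff_not_dvd).mpr hPd₁
      have hcop' : IsCoprime P h := (hi.coprime_iff_not_dvd).mpr hPh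
      have h1 : d₁ ∣ h := by
        have h2 : d₁ ∣ P ^ k * h := (Dvd.intro_left _ hd₁.symm).trans hdvd
        exact (hcop.pow_left (m := k)).symm.dvd_of_dvd_mul_left h2
      have h2 : P ^ j ∣ P ^ k := by
        have h3 : P ^ j ∣ P ^ k * h := (Dvd.intro _ hd₁.symm).trans hdvd
        exact (hcop'.pow_left (m := j)).dvd_of_dvd_mul_right h3
      have h3 : j ≤ k := (pow_dvd_pow_iff hP.ne_zero hi.not_isUnit).mp h2
      exact ⟨(j, d₁), Finset.mem_product.mpr ⟨Finset.mem_range.mpr (Nat.lt_succ_of_le h3),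
        (twnonv_mem hh.ne_zero).mpr ⟨hd₁m, h1⟩⟩, hd₁.symm⟩
    · rintro ⟨⟨j, d₁⟩, hp, rfl⟩
      obtain ⟨hj, hd₁⟩ := Finset.mem_product.mp hp
      obtain ⟨hd₁m, hd₁h⟩ := (twnonv_mem hh.ne_zero).mp hd₁
      exact ⟨(hP.pow j).mul hd₁m, mul_dvd_mul (pow_dvd_pow P (by
        have := Finset.mem_range.mp hj
        simp only at this
        omega)) hd₁h⟩
  rw [himg, Finset.sum_image, Finset.sum_product, Finset.sum_mul]
  · refine Finset.sum_congr rfl fun j _ => ?_
    rw [Finset.mul_sum]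
    refine Finset.sum_congr rfl fun d hd => ?_
    rw [hχ.mul _ _ (hP.pow j) ((twnonv_mem hh.ne_zero).mp hd).1, twnonv_pow hχ P hP]
  · rintro ⟨j, d⟩ hp ⟨j', d'⟩ hp' he
    obtain ⟨-, hd⟩ := Finset.mem_product.mp hp
    obtain ⟨-, hd'⟩ := Finset.mem_product.mp hp'
    simp only at he hd hd'
    have h1 := hinj j j' d d' (hnd d hd) he
    have h2 := hinj j' j d' d (hnd d' hd') he.symm
    have h3 : j = j' := le_antisymm h2 h1
    subst h3
    have h4 := mul_left_cancel₀ (hP.pow j).ne_zero he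
    rw [h4]

theorem twnonv_one {χ : F[X] → ℤ} (hχ : IsChar χ) : ∑ d ∈ twnonv_D (1 : F[X]), χ d = 1 := by
  have h1 : twnonv_D (1 : F[X]) = {1} := by
    ext d
    rw [twnonv_mem one_ne_zero, Finset.mem_singleton]
    constructor
    · rintro ⟨hd, hd1⟩
      exact hd.eq_one_of_isUnit (isUnit_of_dvd_one hd1)
    · rintro rfl
      exact ⟨monic_one, dvd_rfl⟩
  rw [h1, Finset.sum_singleton, hχ.one]

theorem twnonv_geom (x : ℤ) (hx : x = 0 ∨ x = 1 ∨ x = -1) (k : ℕ) :
    0 ≤ ∑ j ∈ Finset.range (k + 1), x ^ j ∧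
      (Even k → 1 ≤ ∑ j ∈ Finset.range (k + 1), x ^ j) := by
  rcases hx with rfl | rfl | rfl
  · have h1 : ∑ j ∈ Finset.range (k + 1), (0 : ℤ) ^ j = 1 := by
      rw [Finset.sum_range_succ', pow_zero, Finset.sum_eq_zero fun j _ => by simp, zero_add]
    rw [h1]
    exact ⟨zero_le_one, fun _ => le_rfl⟩
  · have h1 : ∑ j ∈ Finset.range (k + 1), (1 : ℤ) ^ j = k + 1 := by simp
    rw [h1]
    constructor
    · positivity
    · intro _
      have : (0 : ℤ) ≤ k := by positivity
      linarith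
  · have h1 : ∀ n : ℕ, ∑ j ∈ Finset.range n, (-1 : ℤ) ^ j = if Even n then 0 else 1 := by
      intro n
      induction n with
      | zero => simp
      | succ n ih =>
        rw [Finset.sum_range_succ, ih]
        by_cases hn : Even n
        · rw [if_pos hn, if_neg (by rw [Nat.even_add_one, not_not]; exact hn), hn.neg_one_pow,
            zero_add]
        · rw [if_neg hn, if_pos (Nat.even_add_one.mpr hn),
            (Nat.not_even_iff_odd.mp hn).neg_one_pow]
          norm_num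
    rw [h1]
    constructor
    · split_ifs <;> norm_num
    · intro hk
      rw [if_neg (by rw [Nat.even_add_one, not_not]; exact hk)]

theorem twnonv_nonneg {χ : F[X] → ℤ} (hχ : IsChar χ) :
    ∀ (n : ℕ) (h : F[X]), h.Monic → h.natDegree = n → 0 ≤ ∑ d ∈ twnonv_D h, χ d := by
  intro n
  induction n using Nat.strong_induction_on with
  | _ n ih =>
    intro h hh hn
    by_cases hu : IsUnit h
    · rw [hh.eq_one_of_isUnit hu, twnonv_one hχ]
      exact zero_le_one
    · obtain ⟨P, hP, hi, hPh⟩ := exists_monic_irreducible_factor h hu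
      have hfin : FiniteMultiplicity P h :=
        Polynomial.finiteMultiplicity_of_degree_pos_of_monic
          (degree_pos_of_irreducible hi) hP hh.ne_zero
      obtain ⟨h₁, hh₁, hPh₁⟩ := hfin.exists_eq_pow_mul_and_not_dvd
      set k := multiplicity P h
      have hh₁m : h₁.Monic := Monic.of_mul_monic_left (hP.pow k) (hh₁ ▸ hh)
      have hk : k ≠ 0 := by
        intro h0
        rw [h0, pow_zero, one_mul] at hh₁
        exact hPh₁ (hh₁ ▸ hPh)
      have hdeg : h₁.natDegree < n := by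
        have e1 : h.natDegree = k * P.natDegree + h₁.natDegree := by
          conv_lhs => rw [hh₁]
          rw [(hP.pow k).natDegree_mul hh₁m, hP.natDegree_pow]
        have e2 : 0 < P.natDegree := hi.natDegree_pos
        have e3 : 0 < k * P.natDegree := Nat.mul_pos (Nat.pos_of_ne_zero hk) e2
        omega
      rw [hh₁, twnonv_prod hχ P h₁ hP hi hh₁m hPh₁ k]
      exact mul_nonneg (twnonv_geom _ (hχ.val P) k).1 (ih _ hdeg h₁ hh₁m rfl)

end twnonv

theorem tTwNonv (hMon : StmtTwMon.{u}) : StmtTwNonv.{u} := by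
  classical
  intro F _ _ χ hχ N hN hS
  obtain ⟨hcard, hMon2⟩ := hMon F
  -- the sum of the divisor sums
  have hR : ∀ n, ∑ h ∈ mon F n, ∑ d ∈ twnonv_D h, χ d =
      ∑ k ∈ Finset.range (n + 1), av χ k * (Nat.card F : ℤ) ^ (n - k) := by
    intro n
    have e1 : ∀ h ∈ mon F n, ∑ d ∈ twnonv_D h, χ d =
        ∑ k ∈ Finset.range (n + 1), ∑ d ∈ mon F k, if d ∣ h then χ d else 0 := by
      intro h hh
      obtain ⟨hm, hdeg⟩ := mem_mon.mp hh
      rw [← Finset.sum_fiberwise_of_maps_to (g := fun d : F[X] => d.natDegree)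
        (t := Finset.range (n + 1)) (s := twnonv_D h)]
      · refine Finset.sum_congr rfl fun k _ => ?_
        rw [← Finset.sum_filter]
        refine Finset.sum_congr ?_ fun _ _ => rfl
        ext d
        rw [Finset.mem_filter, Finset.mem_filter, twnonv_mem hm.ne_zero, mem_mon]
        tauto
      · intro d hd
        rw [Finset.mem_range]
        have := natDegree_le_of_dvd ((twnonv_mem hm.ne_zero).mp hd).2 hm.ne_zero
        omega
    rw [Finset.sum_congr rfl e1, Finset.sum_comm]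
    refine Finset.sum_congr rfl fun k hk => ?_
    have hkn : k ≤ n := Nat.lt_succ_iff.mp (Finset.mem_range.mp hk)
    rw [Finset.sum_comm]
    unfold av
    rw [Finset.sum_mul]
    refine Finset.sum_congr rfl fun d hd => ?_
    have e2 := (hMon2 k n d hd).1 hkn fun _ => χ d
    rw [e2, Finset.sum_const, hcard, nsmul_eq_mul, mul_comm]
    push_cast
    rfl
  have hq : (Nat.card F : ℝ) ≠ 0 := by
    have : Nat.card F ≠ 0 := Nat.card_pos.ne'
    exact_mod_cast this
  -- the sum vanishes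
  have hR0 : ∑ h ∈ mon F (2 * N), ∑ d ∈ twnonv_D h, χ d = 0 := by
    have e1 : ((∑ h ∈ mon F (2 * N), ∑ d ∈ twnonv_D h, χ d : ℤ) : ℝ) = 0 := by
      rw [hR]
      push_cast
      rw [← Finset.sum_subset (s₁ := Finset.range N)]
      · have e2 : ∑ k ∈ Finset.range N, (av χ k : ℝ) * (Nat.card F : ℝ) ^ (2 * N - k) =
            (Nat.card F : ℝ) ^ (2 * N) *
              ∑ k ∈ Finset.range N, (av χ k : ℝ) / (Nat.card F : ℝ) ^ k := by
          rw [Finset.mul_sum]
          refine Finset.sum_congr rfl fun k hk => ?_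
          have hk' : k ≤ 2 * N := by
            have := Finset.mem_range.mp hk
            omega
          rw [pow_sub₀ _ hq hk']
          ring
        rw [e2, hS, mul_zero]
      · intro k hk
        rw [Finset.mem_range] at hk ⊢
        omega
      · intro k _ hk
        rw [Finset.mem_range, not_lt] at hk
        rw [hN k hk]
        simp
    exact_mod_cast e1
  have hX : (X ^ (2 * N) : F[X]) ∈ mon F (2 * N) :=
    mem_mon.mpr ⟨monic_X_pow _, natDegree_X_pow _⟩
  have h1 : ∑ d ∈ twnonv_D (X ^ (2 * N) : F[X]), χ d ≤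
      ∑ h ∈ mon F (2 * N), ∑ d ∈ twnonv_D h, χ d :=
    Finset.single_le_sum (f := fun h => ∑ d ∈ twnonv_D h, χ d)
      (fun h hh => twnonv_nonneg hχ _ h (mem_mon.mp hh).1 rfl) hX
  have h2 : 1 ≤ ∑ d ∈ twnonv_D (X ^ (2 * N) : F[X]), χ d := by
    have h3 : ¬ (X : F[X]) ∣ 1 := fun h => irreducible_X.not_isUnit (isUnit_of_dvd_one h)
    have h4 := twnonv_prod hχ X 1 monic_X irreducible_X monic_one h3 (2 * N)
    rw [mul_one, twnonv_one hχ, mul_one] at h4
    rw [h4]
    exact (twnonv_geom _ (hχ.val X) (2 * N)).2 (even_two_mul N)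
  rw [hR0] at h1
  omega

end MP72e2e6
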