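import Pool.Agent.Lib.MP_72e2e6_nt.TwStmt

/-! # MP_72e2e6_nt, TwPar: the parity formula -/

set_option autoImplicit false

namespace MP72e2e6

theorem twpar_sq (x : ZMod 2) : x * x = x := by
  revert x; decide

theorem twpar_two (x : ZMod 2) : x + x = 0 := by
  revert x; decide

theorem twpar_ip_comm {m : ℕ} (x y : Fin m → ZMod 2) : ip x y = ip y x := by
  unfold ip
  exact Finset.sum_congr rfl fun i _ => mul_comm _ _

theorem twpar_sum {m : ℕ} (x : Fin m → ZMod 2) (h : ip x x = 0) : ∑ i, x i = 0 := by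
  rw [← h]
  unfold ip
  exact Finset.sum_congr rfl fun i _ => (twpar_sq _).symm

theorem twpar_qf_add {m : ℕ} (x y : Fin m → ZMod 2) (hx : ∑ i, x i = 0) :
    qf (x + y) = qf x + qf y + ip x y := by
  have h1 : ∑ i, ∑ k, x i * y k = 0 := by
    rw [← Finset.sum_mul_sum, hx, zero_mul]
  have h2 : ∑ i, ∑ k, x i * y k = (∑ i, ∑ k, if i < k then x i * y k else 0) +
      (∑ i, ∑ k, if i < k then y i * x k else 0) + ip x y := by
    have h3 : (∑ i, ∑ k, if i < k then y i * x k else 0) =
        ∑ i, ∑ k, if k < i then x i * y k else 0 := by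
      rw [Finset.sum_comm]
      refine Finset.sum_congr rfl fun i _ => Finset.sum_congr rfl fun k _ => ?_
      rw [mul_comm]
    have h4 : ip x y = ∑ i, ∑ k, if i = k then x i * y k else 0 := by
      unfold ip
      refine Finset.sum_congr rfl fun i _ => ?_
      rw [Finset.sum_ite_eq]
      simp
    rw [h3, h4, ← Finset.sum_add_distrib, ← Finset.sum_add_distrib]
    refine Finset.sum_congr rfl fun i _ => ?_
    rw [← Finset.sum_add_distrib, ← Finset.sum_add_distrib]
    refine Finset.sum_congr rfl fun k _ => ?_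
    rcases lt_trichotomy i k with h | h | h
    · rw [if_pos h, if_neg h.not_gt, if_neg h.ne]
      ring
    · rw [if_neg h.not_lt, if_neg h.not_gt, if_pos h]
      ring
    · rw [if_neg h.not_gt, if_pos h, if_neg h.ne']
      ring
  have h5 : qf (x + y) = qf x + qf y + ((∑ i, ∑ k, if i < k then x i * y k else 0) +
      (∑ i, ∑ k, if i < k then y i * x k else 0)) := by
    unfold qf
    rw [← Finset.sum_add_distrib, ← Finset.sum_add_distrib, ← Finset.sum_add_distrib]
    refine Finset.sum_congr rfl fun i _ => ?_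
    rw [← Finset.sum_add_distrib, ← Finset.sum_add_distrib, ← Finset.sum_add_distrib]
    refine Finset.sum_congr rfl fun k _ => ?_
    split_ifs
    · rw [Pi.add_apply, Pi.add_apply]
      ring
    · ring
  rw [h1] at h2
  rw [h5]
  have h6 := twpar_two (ip x y)
  linear_combination -h2 - h6

theorem twpar_qf_smul {m : ℕ} (a : ZMod 2) (x : Fin m → ZMod 2) : qf (a • x) = a * qf x := by
  have h : ∀ b : ZMod 2, b = 0 ∨ b = 1 := by decide
  rcases h a with rfl | rfl
  · rw [zero_smul, zero_mul]
    simp [qf]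
  · rw [one_smul, one_mul]

theorem twpar_ip_smul {m : ℕ} (a : ZMod 2) (x y : Fin m → ZMod 2) :
    ip (a • x) y = a * ip x y := by
  unfold ip
  rw [Finset.mul_sum]
  refine Finset.sum_congr rfl fun i _ => ?_
  rw [Pi.smul_apply, smul_eq_mul]
  ring

theorem twpar_ip_sum {m : ℕ} {V : Type} (D : V → ZMod 2) (ν : V → Fin m → ZMod 2)
    (x : Fin m → ZMod 2) (c : Finset V) :
    ip x (∑ w ∈ c, D w • ν w) = ∑ w ∈ c, D w * ip x (ν w) := by
  unfold ip
  simp_rw [Finset.sum_apply, Finset.mul_sum]
  rw [Finset.sum_comm]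
  refine Finset.sum_congr rfl fun w _ => Finset.sum_congr rfl fun i _ => ?_
  rw [Pi.smul_apply, smul_eq_mul]
  ring

theorem tTwPar : StmtTwPar := by
  intro m V _ _ ν D s ε h0 hs c hc
  have key : ∀ c : Finset V, ∑ v ∈ c, ∑ w ∈ c, s v w * ip (ν v) (ν w) =
      ε * (qf (∑ v ∈ c, D v • ν v) + ∑ v ∈ c, D v * qf (ν v)) := by
    intro c
    induction c using Finset.induction_on with
    | empty => simp [qf]
    | insert a c ha ih =>
      have h1 : ∑ v ∈ insert a c, ∑ w ∈ insert a c, s v w * ip (ν v) (ν w) =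
          (∑ w ∈ c, (s a w + s w a) * ip (ν a) (ν w)) +
            ∑ v ∈ c, ∑ w ∈ c, s v w * ip (ν v) (ν w) := by
        rw [Finset.sum_insert ha]
        simp_rw [Finset.sum_insert ha]
        rw [h0 a, mul_zero, zero_add, Finset.sum_add_distrib, ← add_assoc,
          ← Finset.sum_add_distrib]
        congr 1
        refine Finset.sum_congr rfl fun w _ => ?_
        rw [twpar_ip_comm (ν w) (ν a)]
        ring
      have h2 : ∑ w ∈ c, (s a w + s w a) * ip (ν a) (ν w) =
          ε * (D a * ip (ν a) (∑ w ∈ c, D w • ν w)) := by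
        rw [twpar_ip_sum, Finset.mul_sum, Finset.mul_sum]
        refine Finset.sum_congr rfl fun w hw => ?_
        rw [hs a w (fun h => ha (h ▸ hw))]
        ring
      have h3 : ∑ i, (D a • ν a) i = 0 := by
        simp_rw [Pi.smul_apply, smul_eq_mul]
        rw [← Finset.mul_sum, twpar_sum _ (h0 a), mul_zero]
      rw [h1, h2, ih, Finset.sum_insert ha, Finset.sum_insert ha, twpar_qf_add _ _ h3,
        twpar_qf_smul, twpar_ip_smul]
      have h6 := twpar_two (D a * qf (ν a))
      linear_combination (-ε) * h6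
  rw [key c, hc]
  simp [qf]

end MP72e2e6
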