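import Pool.Agent.Lib.MP_72e2e6_nt.TwStmt

/-!
# MP_72e2e6_nt, TwSeq: a countable family of primes with prescribed symbols
-/

set_option autoImplicit false

namespace MP72e2e6

open Polynomial

universe u

section

variable {F : Type u} [Field F] [Finite F] (hPrime : StmtTwPrime.{u}) (hodd : Odd (Nat.card F))
  {ι : Type} [Fintype ι] (pr : ι → F[X]) (t : ℕ → ι → ZMod 2) (ht : ∀ n, ∃ b, t n b ≠ 0)
  (l : ℕ → ℕ → ZMod 2)

open Classical in
/-- The next prime. -/
noncomputable def twseq_step (n : ℕ) (R : Fin n → F[X]) : F[X] :=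
  if h : Fam (Sum.elim pr R) then
    (hPrime F hodd (ι ⊕ Fin n) (Sum.elim pr R) h (Sum.elim (t n) (fun k => l k n)) 0
      (Or.inr ⟨Sum.inl (ht n).choose, (ht n).choose_spec⟩)).choose
  else 0

theorem twseq_step_spec (n : ℕ) (R : Fin n → F[X]) (h : Fam (Sum.elim pr R)) :
    (twseq_step hPrime hodd pr t ht l n R).Monic ∧
    Irreducible (twseq_step hPrime hodd pr t ht l n R) ∧
    (∀ b, Sum.elim pr R b ≠ twseq_step hPrime hodd pr t ht l n R) ∧
    ((twseq_step hPrime hodd pr t ht l n R).natDegree : ZMod 2) = 0 ∧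
    ∀ b, sy (Sum.elim pr R b) (twseq_step hPrime hodd pr t ht l n R) =
      Sum.elim (t n) (fun k : Fin n => l k n) b := by
  rw [twseq_step, dif_pos h]
  exact (hPrime F hodd (ι ⊕ Fin n) (Sum.elim pr R) h (Sum.elim (t n) (fun k => l k n)) 0
      (Or.inr ⟨Sum.inl (ht n).choose, (ht n).choose_spec⟩)).choose_spec

/-- The sequence of primes. -/
noncomputable def twseq_seq (n : ℕ) : F[X] :=
  twseq_step hPrime hodd pr t ht l n (fun k => twseq_seq k.1)
termination_by n
decreasing_by exact k.2

theorem twseq_seq_spec (hpr : Fam pr) (n : ℕ) :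
    (twseq_seq hPrime hodd pr t ht l n).Monic ∧
    Irreducible (twseq_seq hPrime hodd pr t ht l n) ∧
    (∀ b, pr b ≠ twseq_seq hPrime hodd pr t ht l n) ∧
    (∀ k, k < n → twseq_seq hPrime hodd pr t ht l k ≠ twseq_seq hPrime hodd pr t ht l n) ∧
    ((twseq_seq hPrime hodd pr t ht l n).natDegree : ZMod 2) = 0 ∧
    (∀ b, sy (pr b) (twseq_seq hPrime hodd pr t ht l n) = t n b) ∧
    ∀ k, k < n → sy (twseq_seq hPrime hodd pr t ht l k) (twseq_seq hPrime hodd pr t ht l n) =
      l k n := by
  induction n using Nat.strong_induction_on with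
  | _ n ih =>
    have hfam : Fam (Sum.elim pr (fun k : Fin n => twseq_seq hPrime hodd pr t ht l k.1)) := by
      refine ⟨?_, ?_, ?_⟩
      · rintro (b | k) (b' | k') h
        · exact congrArg Sum.inl (hpr.inj h)
        · exact absurd h ((ih k'.1 k'.2).2.2.1 b)
        · exact absurd h.symm ((ih k.1 k.2).2.2.1 b')
        · rcases lt_trichotomy k.1 k'.1 with hlt | heq | hgt
          · exact absurd h ((ih k'.1 k'.2).2.2.2.1 k.1 hlt)
          · exact congrArg Sum.inr (Fin.ext heq)
          · exact absurd h.symm ((ih k.1 k.2).2.2.2.1 k'.1 hgt)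
      · rintro (b | k)
        · exact hpr.monic b
        · exact (ih k.1 k.2).1
      · rintro (b | k)
        · exact hpr.irr b
        · exact (ih k.1 k.2).2.1
    obtain ⟨s1, s2, s3, s4, s5⟩ := twseq_step_spec hPrime hodd pr t ht l n _ hfam
    have he : twseq_seq hPrime hodd pr t ht l n = twseq_step hPrime hodd pr t ht l n
        (fun k => twseq_seq hPrime hodd pr t ht l k.1) := by
      conv_lhs => rw [twseq_seq]
    rw [← he] at s1 s2 s3 s4 s5
    exact ⟨s1, s2, fun b => s3 (Sum.inl b), fun k hk => s3 (Sum.inr ⟨k, hk⟩), s4,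
      fun b => s5 (Sum.inl b), fun k hk => s5 (Sum.inr ⟨k, hk⟩)⟩

end

theorem tTwSeq.{v} (hRec : StmtTwRec.{v}) (hPrime : StmtTwPrime.{v}) : StmtTwSeq.{v} := by
  intro F _ _ hodd ι κ _ _ pr hpr t ht l hl
  rcases isEmpty_or_nonempty κ with hκ | hκ
  · refine ⟨fun k => (hκ.false k).elim, ⟨fun k => (hκ.false k).elim, fun k => (hκ.false k).elim,
      fun k => (hκ.false k).elim⟩, fun k => (hκ.false k).elim, fun k => (hκ.false k).elim,
      fun k => (hκ.false k).elim⟩
  · obtain ⟨f, hf⟩ := Countable.exists_injective_nat κ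
    set g : ℕ → κ := Function.invFun f with hg
    have hgf : ∀ k, g (f k) = k := Function.leftInverse_invFun hf
    set R : ℕ → F[X] := twseq_seq hPrime hodd pr (fun n => t (g n)) (fun n => ht (g n))
      (fun n m => l (g n) (g m)) with hR
    have hspec := twseq_seq_spec hPrime hodd pr (fun n => t (g n)) (fun n => ht (g n))
      (fun n m => l (g n) (g m)) hpr
    rw [← hR] at hspec
    have hne : ∀ k k', k ≠ k' → R (f k) ≠ R (f k') := by
      intro k k' hkk'
      rcases lt_trichotomy (f k) (f k') with hlt | heq | hgt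
      · exact (hspec (f k')).2.2.2.1 _ hlt
      · exact absurd (hf heq) hkk'
      · exact ((hspec (f k)).2.2.2.1 _ hgt).symm
    have heven : ∀ k, Even (R (f k)).natDegree := fun k =>
      (ZMod.natCast_eq_zero_iff_even).1 (hspec (f k)).2.2.2.2.1
    have hlt : ∀ k k', f k < f k' → sy (R (f k)) (R (f k')) = l k k' := by
      intro k k' h
      have h1 := (hspec (f k')).2.2.2.2.2.2 (f k) h
      rw [h1, hgf, hgf]
    refine ⟨fun k => R (f k), ⟨?_, fun k => (hspec (f k)).1, fun k => (hspec (f k)).2.1⟩,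
      fun k => ⟨heven k, (hspec (f k)).2.2.1⟩, ?_, ?_⟩
    · intro k k' h
      by_contra hkk'
      exact hne k k' hkk' h
    · intro k b
      have h1 := (hspec (f k)).2.2.2.2.2.1 b
      rw [h1, hgf]
    · intro k k' hkk'
      rcases lt_trichotomy (f k) (f k') with h | h | h
      · exact hlt k k' h
      · exact absurd (hf h) hkk'
      · have h1 := hRec F hodd (R (f k)) (R (f k')) (hspec (f k)).1 (hspec (f k)).2.1
          (hspec (f k')).1 (hspec (f k')).2.1 (hne k k' hkk')
        have h2 : (((Nat.card F - 1) / 2 * ((R (f k)).natDegree * (R (f k')).natDegree) : ℕ) :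
            ZMod 2) = 0 := by
          rw [ZMod.natCast_eq_zero_iff_even]
          exact ((heven k).mul_right _).mul_left _
        rw [h2, hlt k' k h] at h1
        rw [hl k k']
        have h3 := CharTwo.add_eq_zero.1 h1
        exact h3

end MP72e2e6
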