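import Pool.Agent.Lib.MP_72e2e6_nt.TwStmt

/-!
# Split multiplicative places, normed fields
-/

namespace MP72e2e6

open Polynomial IntermediateField Module

universe u

section

variable {E : Type u} [NontriviallyNormedField E] [IsUltrametricDist E] [CompleteSpace E]

/-- elements which are close to each other differ by a square -/
theorem twspln_near (p : ℕ) [Fact p.Prime] [CharP E p] (hp : p ≠ 2) {x y : E}
    (h : ‖x - y‖ < ‖y‖) : ∃ z : E, x = y * z ^ 2 := by
  have hy : y ≠ 0 := by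
    rintro rfl
    rw [norm_zero] at h
    exact absurd h (not_lt.2 (norm_nonneg _))
  have hcop : Nat.Coprime 2 p := (Nat.coprime_primes Nat.prime_two Fact.out).2 hp.symm
  have h1 : ‖x / y - 1‖ < 1 := by
    have h2 : x / y - 1 = (x - y) / y := by field_simp
    rw [h2, norm_div, div_lt_one (norm_pos_iff.2 hy)]
    exact h
  obtain ⟨z, hz, -⟩ := exists_pow_eq_of_principal p hcop h1
  exact ⟨z, by rw [hz]; field_simp⟩

theorem twspln_key (p : ℕ) [Fact p.Prime] [CharP E p] (hp : p ≠ 2) {m : ℕ} (hm : Odd m)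
    (A : Fin m → E) (hA : ∀ i, ‖A i‖ ≤ 1) (j k : Fin m) (hjk : j ≠ k)
    (hd : ∀ i l, i ≠ l → ¬ (i = j ∧ l = k) → ¬ (i = k ∧ l = j) → ‖A i - A l‖ = 1)
    (hlt : ‖A j - A k‖ < 1) (s : E)
    (hs : ∏ i ∈ (Finset.univ.erase j).erase k, (A j - A i) = s ^ 2)
    (x w : E) (hx : ∀ i, x - A i ≠ 0) (hw : ∏ i, (x - A i) = w ^ 2) :
    (∃ z : E, (x - A j) * (x - A k) = z ^ 2) ∧
      ∀ i, i ≠ j → i ≠ k → ∃ z : E, z ≠ 0 ∧ ‖x - A i‖ = ‖z‖ ^ 2 := by
  classical
  have hwn : w ≠ 0 := by
    rintro rfl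
    rw [zero_pow two_ne_zero, Finset.prod_eq_zero_iff] at hw
    obtain ⟨i, -, hi⟩ := hw
    exact hx i hi
  by_cases h1 : 1 < ‖x‖
  · have hx0 : x ≠ 0 := by
      rintro rfl
      rw [norm_zero] at h1
      exact absurd h1 (by norm_num)
    have h2 : ∀ i, ∃ z : E, x - A i = x * z ^ 2 := by
      intro i
      apply twspln_near p hp
      rw [sub_sub_cancel_left, norm_neg]
      exact (hA i).trans_lt h1
    choose z hz using h2
    have hz0 : ∀ i, z i ≠ 0 := by
      intro i h
      apply hx i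
      rw [hz, h]
      ring
    obtain ⟨t, ht⟩ := hm
    have h3 : x = (w / (x ^ t * ∏ i, z i)) ^ 2 := by
      have h4 : ∏ i, (x - A i) = x * (x ^ t * ∏ i, z i) ^ 2 := by
        have hxm : x ^ m = x * (x ^ t) ^ 2 := by
          rw [ht]
          ring
        rw [Finset.prod_congr rfl fun i _ => hz i, Finset.prod_mul_distrib, Finset.prod_const,
          Finset.card_univ, Fintype.card_fin, Finset.prod_pow, hxm]
        ring
      rw [div_pow, ← hw, h4, mul_div_cancel_right₀]
      exact pow_ne_zero _ (mul_ne_zero (pow_ne_zero _ hx0)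
        (Finset.prod_ne_zero_iff.2 fun i _ => hz0 i))
    obtain ⟨y, hy⟩ : ∃ y, x = y ^ 2 := ⟨_, h3⟩
    have hy0 : y ≠ 0 := by
      rintro rfl
      exact hx0 (by rw [hy]; ring)
    refine ⟨⟨y * z j * (y * z k), ?_⟩, fun i _ _ => ⟨y * z i, mul_ne_zero hy0 (hz0 i), ?_⟩⟩
    · rw [hz j, hz k, hy]
      ring
    · rw [hz i, hy, ← norm_pow, mul_pow]
  have h1' : ‖x‖ ≤ 1 := not_lt.1 h1
  have hle : ∀ i, ‖x - A i‖ ≤ 1 := fun i => by
    rw [sub_eq_add_neg]
    refine (IsUltrametricDist.norm_add_le_max _ _).trans (max_le h1' ?_)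
    rw [norm_neg]
    exact hA i
  have htr : ∀ i l, ‖x - A i‖ < 1 → ‖A i - A l‖ = 1 → ‖x - A l‖ = 1 := by
    intro i l hi hil
    refine norm_eq_one_of_sub hil ?_
    rw [show x - A l - (A i - A l) = x - A i by ring]
    exact hi
  by_cases h4 : ‖x - A k‖ < 1
  · have h5 : ‖x - A j‖ < 1 := by
      rw [show x - A j = (x - A k) + -(A j - A k) by ring]
      refine (IsUltrametricDist.norm_add_le_max _ _).trans_lt (max_lt h4 ?_)
      rwa [norm_neg]
    have h6 : ∀ i, i ≠ j → i ≠ k → ‖A j - A i‖ = 1 := fun i hi hi' =>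
      hd j i hi.symm (fun h => hi' h.2) (fun h => hjk h.1)
    refine ⟨?_, fun i hi hi' => ⟨1, one_ne_zero, ?_⟩⟩
    · have h7 : ∀ i, ∃ z : E, i ≠ j → i ≠ k → x - A i = (A j - A i) * z ^ 2 := by
        intro i
        by_cases hi : i ≠ j ∧ i ≠ k
        · obtain ⟨z, hz⟩ := twspln_near p hp (x := x - A i) (y := A j - A i) (by
            rw [show x - A i - (A j - A i) = x - A j by ring, h6 i hi.1 hi.2]
            exact h5)
          exact ⟨z, fun _ _ => hz⟩
        · exact ⟨0, fun ha hb => absurd ⟨ha, hb⟩ hi⟩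
      choose z hz using h7
      have h8 : ∏ i ∈ (Finset.univ.erase j).erase k, (x - A i) =
          (s * ∏ i ∈ (Finset.univ.erase j).erase k, z i) ^ 2 := by
        rw [mul_pow, ← hs, ← Finset.prod_pow, ← Finset.prod_mul_distrib]
        refine Finset.prod_congr rfl fun i hi => ?_
        rw [Finset.mem_erase, Finset.mem_erase] at hi
        exact hz i hi.2.1 hi.1
      have h9 : (x - A j) * ((x - A k) * ∏ i ∈ (Finset.univ.erase j).erase k, (x - A i)) =
          w ^ 2 := by
        rw [← hw, ← Finset.mul_prod_erase _ _ (Finset.mem_univ j),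
          ← Finset.mul_prod_erase (Finset.univ.erase j) _
            (Finset.mem_erase.2 ⟨hjk.symm, Finset.mem_univ k⟩)]
      have h10 : (s * ∏ i ∈ (Finset.univ.erase j).erase k, z i) ^ 2 ≠ 0 := by
        rw [← h8]
        exact Finset.prod_ne_zero_iff.2 fun i _ => hx i
      refine ⟨w / (s * ∏ i ∈ (Finset.univ.erase j).erase k, z i), ?_⟩
      rw [div_pow, ← h9, h8, eq_div_iff h10]
      ring
    · rw [norm_one, one_pow]
      exact htr j i h5 (h6 i hi hi')
  · have h4' : ‖x - A k‖ = 1 := le_antisymm (hle k) (not_lt.1 h4)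
    refine ⟨?_, fun i hi hi' => ?_⟩
    · obtain ⟨z, hz⟩ := twspln_near p hp (x := x - A j) (y := x - A k) (by
        rw [show x - A j - (x - A k) = -(A j - A k) by ring, norm_neg, h4']
        exact hlt)
      exact ⟨(x - A k) * z, by rw [hz]; ring⟩
    · by_cases h5 : ‖x - A i‖ < 1
      · refine ⟨w, hwn, ?_⟩
        rw [← norm_pow, ← hw, norm_prod, ← Finset.mul_prod_erase _ _ (Finset.mem_univ i),
          Finset.prod_eq_one, mul_one]
        intro l hl
        exact htr i l h5 (hd i l (Finset.ne_of_mem_erase hl).symm (fun h => hi h.1)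
          (fun h => hi' h.1))
      · exact ⟨1, one_ne_zero, by
          rw [norm_one, one_pow]
          exact le_antisymm (hle i) (not_lt.1 h5)⟩

end

theorem tTwSplN : StmtTwSplN.{u} := by
  intro M _ _ _ p _ _ hp v hv m hm A hA j k hjk hdist hlt s hs d hd
  classical
  let H : Subgroup (Fin m → Mˣ) :=
    { carrier := {d | (∃ z : M, z ≠ 0 ∧ (d j : M) * (d k : M) = z ^ 2) ∧
        ∀ i, i ≠ j → i ≠ k → ∃ z : M, z ≠ 0 ∧ v (d i : M) = v z ^ 2}
      mul_mem' := by
        rintro d e ⟨⟨y, hy0, hy⟩, hy2⟩ ⟨⟨z, hz0, hz⟩, hz2⟩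
        refine ⟨⟨y * z, mul_ne_zero hy0 hz0, ?_⟩, fun i hi hi' => ?_⟩
        · simp only [Pi.mul_apply, Units.val_mul]
          linear_combination (↑(e j) * ↑(e k) : M) * hy + y ^ 2 * hz
        · obtain ⟨y', hy0', hy'⟩ := hy2 i hi hi'
          obtain ⟨z', hz0', hz'⟩ := hz2 i hi hi'
          refine ⟨y' * z', mul_ne_zero hy0' hz0', ?_⟩
          simp only [Pi.mul_apply, Units.val_mul, map_mul, hy', hz', mul_pow]
      one_mem' := ⟨⟨1, one_ne_zero, by simp⟩, fun i _ _ => ⟨1, one_ne_zero, by simp⟩⟩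
      inv_mem' := by
        rintro d ⟨⟨y, hy0, hy⟩, hy2⟩
        refine ⟨⟨y⁻¹, inv_ne_zero hy0, ?_⟩, fun i hi hi' => ?_⟩
        · simp only [Pi.inv_apply, Units.val_inv_eq_inv_val]
          rw [← mul_inv, hy, inv_pow]
        · obtain ⟨y', hy0', hy'⟩ := hy2 i hi hi'
          refine ⟨y'⁻¹, inv_ne_zero hy0', ?_⟩
          simp only [Pi.inv_apply, Units.val_inv_eq_inv_val, map_inv₀, hy', inv_pow] }
  have hle : localImage 2 A (fun _ => 1) M ≤ H := by
    refine localImage_le A (fun _ => 1) H (fun z => ⟨⟨z j * z k, ?_, ?_⟩, fun i _ _ =>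
      ⟨z i, (z i).ne_zero, ?_⟩⟩) ?_
    · exact mul_ne_zero (z j).ne_zero (z k).ne_zero
    · simp only [Pi.pow_apply, Units.val_pow_eq_pow_val]
      ring
    · simp only [Pi.pow_apply, Units.val_pow_eq_pow_val, map_pow]
    · intro L _ _ _ x w d hx hd
      let : NontriviallyNormedField L := spectralNorm.nontriviallyNormedField M L
      let : NormedAlgebra M L := spectralNorm.normedAlgebra M L
      have : IsUltrametricDist L :=
        IsUltrametricDist.isUltrametricDist_of_isNonarchimedean_norm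
          (isNonarchimedean_spectralNorm (K := M) (L := L))
      have : CompleteSpace L := FiniteDimensional.complete M L
      have : CharP L p := charP_of_injective_algebraMap (algebraMap M L).injective p
      simp only [Algebra.algebraMap_self, RingHom.id_apply, pow_one] at hx hd
      have hxa : ∀ i, x - algebraMap M L (A i) ≠ 0 := by
        intro i h
        have h1 := (d i).ne_zero
        rw [hd i, h, Algebra.norm_zero] at h1
        exact h1 rfl
      obtain ⟨⟨z, hz⟩, hz2⟩ := twspln_key p hp hm (fun i => algebraMap M L (A i))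
        (fun i => by rw [norm_algebraMap']; exact hA i) j k hjk
        (fun i l h1 h2 h3 => by rw [← map_sub, norm_algebraMap']; exact hdist i l h1 h2 h3)
        (by rw [← map_sub, norm_algebraMap']; exact hlt) (algebraMap M L s)
        (by
          rw [← map_pow, ← hs, map_prod]
          exact Finset.prod_congr rfl fun i _ => (map_sub _ _ _).symm) x w hxa hx
      refine ⟨⟨Algebra.norm M z, ?_, ?_⟩, fun i hi hi' => ?_⟩
      · rw [Algebra.norm_ne_zero_iff]
        rintro rfl
        rw [zero_pow two_ne_zero, mul_eq_zero] at hz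
        exact hz.elim (hxa j) (hxa k)
      · rw [hd j, hd k, ← map_mul, hz, map_pow]
      · obtain ⟨z, hz0, hz⟩ := hz2 i hi hi'
        refine ⟨Algebra.norm M z, Algebra.norm_ne_zero_iff.2 hz0, ?_⟩
        have h1 : ‖(d i : M)‖ = ‖(Algebra.norm M z) ^ 2‖ := by
          rw [hd i, norm_algebraNorm, hz, norm_pow, norm_algebraNorm, ← pow_mul, ← pow_mul,
            mul_comm]
        rw [← map_pow]
        exact le_antisymm ((hv _ _).1 h1.le) ((hv _ _).1 h1.ge)
  obtain ⟨⟨z, -, hz⟩, h2⟩ := hle hd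
  refine ⟨⟨z, hz⟩, fun i hi hi' => ?_⟩
  obtain ⟨y, hy0, hy⟩ := h2 i hi hi'
  rw [hy, WithZero.log_pow]
  exact ⟨WithZero.log (v y), by rw [nsmul_eq_mul]; rfl⟩

end MP72e2e6
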