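import Pool.Agent.Lib.MP_72e2e6_nt.TwStmt

/-!
# MP_72e2e6_nt, module TwZero: character sums over monic polynomials vanish
-/

namespace MP72e2e6

open Polynomial

universe u

section twzero

variable {F : Type u} [Field F]

theorem twzero_leg_congr (P g h : F[X]) (hgh : P ∣ g - h) : leg P g = leg P h := by
  have h1 : AdjoinRoot.mk P g = AdjoinRoot.mk P h := by
    rw [← sub_eq_zero, ← map_sub, AdjoinRoot.mk_eq_zero]
    exact hgh
  have h2 : P ∣ g ↔ P ∣ h := by
    rw [← AdjoinRoot.mk_eq_zero, ← AdjoinRoot.mk_eq_zero, h1]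
  unfold leg
  rw [h1]
  by_cases h3 : P ∣ h
  · rw [if_pos (h2.mpr h3), if_pos h3]
  · rw [if_neg fun h => h3 (h2.mp h), if_neg h3]

theorem twzero_finite [Finite F] (P : F[X]) (hP : P.Monic) : Finite (AdjoinRoot P) := by
  have : Module.Finite F (AdjoinRoot P) := hP.finite_adjoinRoot
  exact Module.finite_of_finite F

open Classical in
theorem twzero_leg_eq [Finite F] (P : F[X]) (hP : P.Monic) (hi : Irreducible P) :
    ∃ χ : AdjoinRoot P →* ℤ, (∀ h : F[X], leg P h = χ (AdjoinRoot.mk P h)) ∧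
      (Odd (Nat.card F) → ∃ x, χ x = -1) := by
  have : Fact (Irreducible P) := ⟨hi⟩
  have : Finite (AdjoinRoot P) := twzero_finite P hP
  have : Fintype (AdjoinRoot P) := Fintype.ofFinite _
  refine ⟨(quadraticChar (AdjoinRoot P)).toMonoidHom, fun h => ?_, fun hodd => ?_⟩
  · change leg P h = quadraticChar (AdjoinRoot P) (AdjoinRoot.mk P h)
    rw [quadraticChar_apply]
    unfold leg quadraticCharFun
    by_cases h1 : P ∣ h
    · rw [if_pos h1, if_pos (AdjoinRoot.mk_eq_zero.mpr h1)]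
    · rw [if_neg h1, if_neg fun h2 => h1 (AdjoinRoot.mk_eq_zero.mp h2)]
      by_cases h3 : IsSquare (AdjoinRoot.mk P h)
      · rw [if_pos h3, if_pos h3]
      · rw [if_neg h3, if_neg h3]
  · have : Fintype F := Fintype.ofFinite F
    have h1 : ringChar F ≠ 2 := by
      intro h
      rw [FiniteField.even_card_iff_char_two] at h
      rw [Nat.card_eq_fintype_card, Nat.odd_iff] at hodd
      omega
    have h2 : ringChar (AdjoinRoot P) ≠ 2 := by
      rw [← Algebra.ringChar_eq F (AdjoinRoot P)]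
      exact h1
    exact quadraticChar_exists_neg_one h2

theorem twzero_leg_mul [Finite F] (P : F[X]) (hP : P.Monic) (hi : Irreducible P) (g h : F[X]) :
    leg P (g * h) = leg P g * leg P h := by
  obtain ⟨χ, hχ, -⟩ := twzero_leg_eq P hP hi
  rw [hχ, hχ, hχ, map_mul, map_mul]

theorem twzero_leg_one [Finite F] (P : F[X]) (hP : P.Monic) (hi : Irreducible P) :
    leg P (1 : F[X]) = 1 := by
  obtain ⟨χ, hχ, -⟩ := twzero_leg_eq P hP hi
  rw [hχ, map_one, map_one]

theorem twzero_leg_neg [Finite F] (hodd : Odd (Nat.card F)) (P : F[X]) (hP : P.Monic)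
    (hi : Irreducible P) : ∃ g : F[X], leg P g = -1 := by
  obtain ⟨χ, hχ, h1⟩ := twzero_leg_eq P hP hi
  obtain ⟨x, hx⟩ := h1 hodd
  obtain ⟨g, rfl⟩ := AdjoinRoot.mk_surjective x
  exact ⟨g, by rw [hχ, hx]⟩

end twzero

theorem tTwZero : StmtTwZero.{u} := by
  classical
  intro F _ _ hodd ι _ pr hpr T hT n hn
  obtain ⟨b₀, hb₀⟩ := hT
  have hcop : ∀ b b', b ≠ b' → IsCoprime (pr b) (pr b') := by
    intro b b' hbb
    rw [(hpr.irr b).coprime_iff_not_dvd]
    intro hd
    have h1 : Associated (pr b) (pr b') := (hpr.irr b).associated_of_dvd (hpr.irr b') hd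
    exact hbb (hpr.inj (Polynomial.eq_of_monic_of_associated (hpr.monic b) (hpr.monic b') h1))
  set f : F[X] := ∏ b ∈ T, pr b with hf
  have hfm : f.Monic := monic_prod_of_monic _ _ fun b _ => hpr.monic b
  have hfd : f.natDegree ≤ n := by
    rw [hf, natDegree_prod_of_monic _ _ fun b _ => hpr.monic b]
    exact hn
  -- the multiplier
  obtain ⟨g, hg0, hg⟩ : ∃ g : F[X], leg (pr b₀) g = -1 ∧ ∀ b ∈ T, b ≠ b₀ → leg (pr b) g = 1 := by
    obtain ⟨g₀, hg₀⟩ := twzero_leg_neg hodd (pr b₀) (hpr.monic b₀) (hpr.irr b₀)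
    have h1 : IsCoprime (∏ b ∈ T.erase b₀, pr b) (pr b₀) :=
      IsCoprime.prod_left fun b hb => hcop b b₀ (Finset.ne_of_mem_erase hb)
    obtain ⟨u, v, huv⟩ := h1
    refine ⟨1 + u * (∏ b ∈ T.erase b₀, pr b) * (g₀ - 1), ?_, fun b hb hbb => ?_⟩
    · rw [← hg₀]
      refine twzero_leg_congr _ _ _ ⟨- v * (g₀ - 1), ?_⟩
      linear_combination (g₀ - 1) * huv
    · rw [← twzero_leg_one (pr b) (hpr.monic b) (hpr.irr b)]
      refine twzero_leg_congr _ _ _ ?_
      have h2 : pr b ∣ ∏ b ∈ T.erase b₀, pr b :=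
        Finset.dvd_prod_of_mem pr (Finset.mem_erase.mpr ⟨hbb, hb⟩)
      rw [add_sub_cancel_left]
      exact Dvd.dvd.mul_right (Dvd.dvd.mul_left h2 u) _
  have hχg : ∏ b ∈ T, leg (pr b) g = -1 := by
    rw [← Finset.mul_prod_erase T _ hb₀, hg0,
      Finset.prod_eq_one fun b hb => hg b (Finset.mem_of_mem_erase hb) (Finset.ne_of_mem_erase hb),
      mul_one]
  have hgf : IsCoprime f g := by
    rw [hf]
    refine IsCoprime.prod_left fun b hb => ?_
    rw [(hpr.irr b).coprime_iff_not_dvd]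
    intro hd
    have h1 : leg (pr b) g = 0 := by
      unfold leg
      rw [if_pos hd]
    by_cases hbb : b = b₀
    · rw [hbb, hg0] at h1
      exact absurd h1 (by norm_num)
    · rw [hg b hb hbb] at h1
      exact absurd h1 (by norm_num)
  -- the permutation
  let Φ : F[X] → F[X] := fun h => h - h %ₘ f + (g * h) %ₘ f
  have hΦ1 : ∀ h, f ∣ Φ h - g * h := by
    intro h
    have e1 := modByMonic_add_div h f
    have e2 := modByMonic_add_div (g * h) f
    refine ⟨h /ₘ f - (g * h) /ₘ f, ?_⟩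
    change h - h %ₘ f + (g * h) %ₘ f - g * h = _
    linear_combination (-1 : F[X]) * e1 + e2
  have hΦm : ∀ h ∈ mon F n, Φ h ∈ mon F n := by
    intro h hh
    rw [mem_mon] at hh ⊢
    have hne : f ≠ 1 := by
      intro h1
      have h2 : pr b₀ ∣ 1 := h1 ▸ Finset.dvd_prod_of_mem pr hb₀
      exact (hpr.irr b₀).not_isUnit (isUnit_of_dvd_one h2)
    have h1 : (-(h %ₘ f) + (g * h) %ₘ f).degree < h.degree := by
      have e1 : (-(h %ₘ f) + (g * h) %ₘ f).degree < f.degree := by
        refine (degree_add_le _ _).trans_lt (max_lt ?_ ?_)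
        · rw [degree_neg]
          exact degree_modByMonic_lt _ hfm
        · exact degree_modByMonic_lt _ hfm
      refine e1.trans_le ?_
      rw [degree_eq_natDegree hfm.ne_zero, degree_eq_natDegree hh.1.ne_zero, hh.2]
      exact_mod_cast hfd
    have h2 : Φ h = h + (-(h %ₘ f) + (g * h) %ₘ f) := by
      change h - h %ₘ f + (g * h) %ₘ f = _
      ring
    rw [h2]
    refine ⟨hh.1.add_of_left h1, ?_⟩
    rw [natDegree_add_eq_left_of_degree_lt h1, hh.2]
  have hΦi : ∀ h h', Φ h = Φ h' → h = h' := by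
    intro h h' hhh
    have e1 : f ∣ g * (h - h') := by
      have e2 := dvd_sub (hΦ1 h') (hΦ1 h)
      have e3 : Φ h' - g * h' - (Φ h - g * h) = g * (h - h') := by
        rw [hhh]
        ring
      rwa [e3] at e2
    have e2 : f ∣ h - h' := hgf.dvd_of_dvd_mul_left e1
    have e3 : h %ₘ f = h' %ₘ f := by
      rw [← sub_eq_zero, ← sub_modByMonic]
      exact (modByMonic_eq_zero_iff_dvd hfm).mpr e2
    have e4 : (g * h) %ₘ f = (g * h') %ₘ f := by
      rw [← sub_eq_zero, ← sub_modByMonic, ← mul_sub]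
      exact (modByMonic_eq_zero_iff_dvd hfm).mpr e1
    have e5 : h - h %ₘ f + (g * h) %ₘ f = h' - h' %ₘ f + (g * h') %ₘ f := hhh
    rw [e3, e4] at e5
    linear_combination e5
  have himg : (mon F n).image Φ = mon F n := by
    refine Finset.eq_of_subset_of_card_le ?_ ?_
    · intro x hx
      obtain ⟨h, hh, rfl⟩ := Finset.mem_image.mp hx
      exact hΦm h hh
    · rw [Finset.card_image_of_injective _ fun h h' hh => hΦi h h' hh]
  have hsum : ∑ h ∈ mon F n, ∏ b ∈ T, leg (pr b) h =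
      - ∑ h ∈ mon F n, ∏ b ∈ T, leg (pr b) h := by
    conv_lhs => rw [← himg]
    rw [Finset.sum_image fun h _ h' _ hh => hΦi h h' hh, ← Finset.sum_neg_distrib]
    refine Finset.sum_congr rfl fun h _ => ?_
    have e1 : ∀ b ∈ T, leg (pr b) (Φ h) = leg (pr b) g * leg (pr b) h := by
      intro b hb
      rw [← twzero_leg_mul (pr b) (hpr.monic b) (hpr.irr b)]
      exact twzero_leg_congr _ _ _ ((Finset.dvd_prod_of_mem pr hb).trans (hΦ1 h))
    rw [Finset.prod_congr rfl e1, Finset.prod_mul_distrib, hχg, neg_one_mul]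
  omega

end MP72e2e6
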