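import Pool.Agent.Lib.MP_72e2e6_nt.TwMain
import Pool.Agent.Lib.MP_72e2e6_nt.TwSy
import Pool.Agent.Lib.MP_72e2e6_nt.TwRec
import Pool.Agent.Lib.MP_72e2e6_nt.TwFac
import Pool.Agent.Lib.MP_72e2e6_nt.TwNu
import Pool.Agent.Lib.MP_72e2e6_nt.TwLoc
import Pool.Agent.Lib.MP_72e2e6_nt.TwLocV
import Pool.Agent.Lib.MP_72e2e6_nt.TwLocF
import Pool.Agent.Lib.MP_72e2e6_nt.TwLocI
import Pool.Agent.Lib.MP_72e2e6_nt.TwSplN
import Pool.Agent.Lib.MP_72e2e6_nt.TwSplF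
import Pool.Agent.Lib.MP_72e2e6_nt.TwSqF
import Pool.Agent.Lib.MP_72e2e6_nt.TwSqI
import Pool.Agent.Lib.MP_72e2e6_nt.TwTor
import Pool.Agent.Lib.MP_72e2e6_nt.TwSel
import Pool.Agent.Lib.MP_72e2e6_nt.TwEq
import Pool.Agent.Lib.MP_72e2e6_nt.TwNet
import Pool.Agent.Lib.MP_72e2e6_nt.TwLin
import Pool.Agent.Lib.MP_72e2e6_nt.TwPar
import Pool.Agent.Lib.MP_72e2e6_nt.TwFor
import Pool.Agent.Lib.MP_72e2e6_nt.TwLinA
import Pool.Agent.Lib.MP_72e2e6_nt.TwMon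
import Pool.Agent.Lib.MP_72e2e6_nt.TwPsi
import Pool.Agent.Lib.MP_72e2e6_nt.TwNonv
import Pool.Agent.Lib.MP_72e2e6_nt.TwBdd
import Pool.Agent.Lib.MP_72e2e6_nt.TwZero
import Pool.Agent.Lib.MP_72e2e6_nt.TwPrime
import Pool.Agent.Lib.MP_72e2e6_nt.TwSeq
import Pool.Agent.Lib.MP_72e2e6_nt.TwIdx

/-!
# MP_72e2e6_nt: the twists, all the modules together
-/

namespace MP72e2e6

open Polynomial IsDedekindDomain

universe u

open Classical in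
theorem twist_towers {F : Type u} [Field F] [Finite F] (hF : Odd (Nat.card F)) {m n : ℕ}
    {a : Fin m → F[X]} (ha : Pts m n a) :
    ∃ (D : F[X]) (𝓡 : Set F[X]), 𝓡.Infinite ∧ (∀ R ∈ 𝓡, R.Monic ∧ Irreducible R) ∧
      ∀ I : Finset F[X], (I : Set F[X]) ⊆ 𝓡 →
        Squarefree (D * ∏ R ∈ I, R) ∧
        placesSelmer F[X] (RatFunc.inftyValuation F) 2 (pts (D * ∏ R ∈ I, R) a) (fun _ => 1) =
          torsionGroup 2 (pts (D * ∏ R ∈ I, R) a) (fun _ => 1) ∧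
        (powGroup 2 (RatFunc F) m).relIndex
          (torsionGroup 2 (pts (D * ∏ R ∈ I, R) a) (fun _ => 1)) = 2 ^ (m - 1) := by
  have hSy : StmtTwSy.{u} := tTwSy
  have hRec := tTwRec hSy
  have hFac := tTwFac hSy
  have hNu := tTwNu hSy
  have hLocV := tTwLocV tTwLoc.{u}
  have hTor : StmtTwTor.{u} := tTwTor
  have hSel := tTwSel hSy (tTwLocF hLocV) (tTwLocI hLocV) (tTwSplF tTwSplN) (tTwSqF hSy)
    tTwSqI hTor
  have hEq := tTwEq hSy hFac hNu hSel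
  have hMon : StmtTwMon.{u} := tTwMon
  have hPsi := tTwPsi hMon
  have hPrime := tTwPrime hSy hMon hPsi (tTwBdd hMon hPsi (tTwNonv hMon)) tTwZero
  exact main_tw hSy hRec hFac hNu hEq (tTwNet hSy hFac hNu) tTwLin tTwFor (tTwLinA tTwPar)
    (tTwLinB tTwPar) hPrime (tTwSeq hRec hPrime) (tTwIdx hSy hTor) hF ha

end MP72e2e6
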