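import Pool.Agent.Lib.MP_72e2e6_nt.GenAllO
import Pool.Agent.Lib.MP_72e2e6_nt.GenTwoM
import Pool.Agent.Lib.MP_72e2e6_nt.PeAll
import Pool.Agent.Lib.MP_72e2e6_nt.TwAll
import Pool.Agent.Lib.MP_72e2e6_nt.PgHyG
import Pool.Agent.Lib.MP_72e2e6_nt.PgTri
import Pool.Agent.Lib.MP_72e2e6_nt.PgFix
import Pool.Agent.Lib.MP_72e2e6_nt.PgFrm
import Pool.Agent.Lib.MP_72e2e6_nt.PgPar
import Pool.Agent.Lib.MP_72e2e6_nt.PgRec
import Pool.Agent.Lib.MP_72e2e6_nt.PhA1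
import Pool.Agent.Lib.MP_72e2e6_nt.PhA2
import Pool.Agent.Lib.MP_72e2e6_nt.PhA3
import Pool.Agent.Lib.MP_72e2e6_nt.PhA4
import Pool.Agent.Lib.MP_72e2e6_nt.PhMT
import Pool.Agent.Lib.MP_72e2e6_nt.PhFM
import Pool.Agent.Lib.MP_72e2e6_nt.PhSub
import Pool.Agent.Lib.MP_72e2e6_nt.PhPrim
import Pool.Agent.Lib.MP_72e2e6_nt.PhRT
import Pool.Agent.Lib.MP_72e2e6_nt.PhPw
import Pool.Agent.Lib.MP_72e2e6_nt.PhEq
import Pool.Agent.Lib.MP_72e2e6_nt.PhMom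
import Pool.Agent.Lib.MP_72e2e6_nt.PhSq
import Pool.Agent.Lib.MP_72e2e6_nt.PhEul
import Pool.Agent.Lib.MP_72e2e6_nt.PhDis

/-!
# MP_72e2e6_nt: all the modules for `ℓ = 2` together
-/

set_option autoImplicit false

namespace MP72e2e6

open Polynomial IsDedekindDomain

universe u

theorem peAn_all : StmtPeAn.{u} := by
  have hMon : StmtTwMon.{u} := tTwMon
  have hPsi : StmtSuPsi.{u} := tSuPsi hMon (tTwPsi hMon) tSuMon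
  have hSuSy : StmtSuSy.{u} := tSuSy
  have hPRec : StmtPpRec.{u} := tPpRec hPsi
  have hNum : StmtPpNum := tPpNum
  have hCv : StmtPpCv := tPpCv hNum
  have hChr : StmtPeChr.{0} := tPeChr (tPeSte tPeHas.{0} tPeNon.{0})
  have hWei : StmtPeWei.{u} := tPeWei hSuSy hPsi hChr (tPeExt hSuSy hPsi)
  have hInn : StmtPeInn.{u} := tPeInn hSuSy hWei (tPpIn hPsi hPRec hNum)
  have hEB : StmtPeEB.{u} := tPeEB hPRec (tPpSB hNum hCv) hInn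
  have hBil : StmtPpBil.{u} := tPpBil hSuSy hMon tPpCmp (tPpEn hMon)
  have hEA : StmtPpEA.{u} := tPpEA (tPpLin hPRec hNum hBil)
  have hErr : StmtPeErr.{u} := tPeErr hPRec (tPpSA hNum hCv) tPpLim tPpTri hEA hEB
  have hCol : StmtPpCol.{u} := tPpCol
  exact tPeAn hErr (tPpFul hCol) (tPpHal hPsi hPRec hNum)

theorem twPrime_all : StmtTwPrime.{u} := by
  have hSy : StmtTwSy.{u} := tTwSy
  have hMon : StmtTwMon.{u} := tTwMon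
  have hPsi := tTwPsi hMon
  exact tTwPrime hSy hMon hPsi (tTwBdd hMon hPsi (tTwNonv hMon)) tTwZero

theorem recP_all {ℓ : ℕ} (hℓ : ℓ.Prime) : RecP.{u} ℓ := by
  by_cases hℓ2 : ℓ = 2
  · subst hℓ2
    have hSy : StmtTwSy.{u} := tTwSy
    have hRec : StmtTwRec.{u} := tTwRec hSy
    have hSuSy : StmtSuSy.{u} := tSuSy
    have hMon : StmtTwMon.{u} := tTwMon
    have hPsi := tSuPsi hMon (tTwPsi hMon) tSuMon
    exact tPgRec (tSuRec hSuSy)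
      (tSuPrime hSuSy hPsi (tSuBdd hMon hPsi (tSuNonv hMon hPsi)) (tSuZero hSuSy)) hSuSy
      (tPeSyl hSy hRec) twPrime_all hSy 2 hℓ
  · exact recP_odd hℓ hℓ2

theorem phMT_all : StmtPhMT.{u} := tPhMT (tPhA1 tPpTS) (tPhA2 (tPhA1 tPpTS)) tPhA3 tPhA4

theorem phFM_all : StmtPhFM.{u} := by
  have hSuSy : StmtSuSy.{u} := tSuSy
  exact tPhFM tPpTS tPpCol peAn_all phMT_all (tPeFou hSuSy)

theorem pgHyG_all : StmtPgHyG.{u} := by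
  have hSy : StmtSuSy.{u} := tSuSy
  exact tPgHyG hSy (tSuFac hSy) tPgTri tPgFix

theorem pgPar_all : StmtPgPar.{u} := tPgPar tSuSy (tPgFrm tPpEvn.{0} tPpEvn.{u})

open Classical in
/-- the distribution theorem for `ℓ = 2` -/
theorem gen_two {F : Type u} [Field F] [Finite F]
    (hq : 2 ∣ Nat.card F - 1) (hz : ∃ z : F, z ^ 2 = -1)
    {m : ℕ} (hm : 0 < m) {a : Fin m → F[X]} (ha : Function.Injective a) {b : Fin m → ℕ}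
    (hb : ∀ i, ¬ 2 ∣ b i) (hB : ¬ 2 ∣ ∑ i, b i) {D : F[X]} (hD : TDg 2 b a D) :
    (∃ c : ℝ, 0 < c ∧ ∃ n₀ : ℕ, ∀ n : ℕ, n₀ ≤ n →
      c * (Nat.card F : ℝ) ^ n ≤ ((Msf a D n).ncard : ℝ)) ∧
    (∀ n : ℕ, Tam 2 b (wI a) (-((D.natDegree + n : ℕ) : ℤ)) → ∀ M ∈ Msf a D n,
      ∃ r : ℕ, ist 2 a b (D * M) = 4 ^ r) ∧
    (∀ k : ℕ, ∃ N : ℕ, (2 ≤ m → ConnG 2 a → N = ∏ i ∈ Finset.range k, (1 + 2 ^ (i + 1))) ∧
      ∀ ε : ℝ, 0 < ε → ∃ n₀ : ℕ, ∀ n : ℕ, n₀ ≤ n →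
        Tam 2 b (wI a) (-((D.natDegree + n : ℕ) : ℤ)) →
        |∑ᶠ M ∈ Msf a D n, (ist 2 a b (D * M) : ℝ) ^ k - (N : ℝ) * ((Msf a D n).ncard : ℝ)| ≤
          ε * ((Msf a D n).ncard : ℝ)) ∧
    (2 ≤ m → ConnG 2 a → ∀ (r : ℕ) (ε : ℝ), 0 < ε → ∃ n₀ : ℕ, ∀ n : ℕ, n₀ ≤ n →
      Tam 2 b (wI a) (-((D.natDegree + n : ℕ) : ℤ)) →
      |({M ∈ Msf a D n | ist 2 a b (D * M) = 4 ^ r}.ncard : ℝ) -
        2 ^ (2 * r) * (∏' i : ℕ, (1 - ((2 : ℝ)⁻¹) ^ (2 * i + 1))) /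
          (∏ i ∈ Finset.range (2 * r), ((2 : ℝ) ^ (i + 1) - 1)) * ((Msf a D n).ncard : ℝ)| ≤
        ε * ((Msf a D n).ncard : ℝ)) :=
  gentwo_main tSuLg phFM_all
    (tPhEq (tPhPrim phFM_all tPhSub) pqCt_all tPhRT tPhPw) tPqMul tPqFun tPhMom tPrPow
    (tPhDis tPqMul tPqFun tPhSq tPhEul) prCnt_all (recP_all Nat.prime_two) tPgTor tPpBij
    ppCnt_all pgHyp_all pgRel_all pgEdg_all tPgIrr pgHyG_all pgPar_all hq hz hm ha hb hB hD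

end MP72e2e6
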