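import Pool.Agent.Lib.MP_72e2e6_nt.PgStmt
import Pool.Agent.Lib.MP_72e2e6_nt.PpMain

/-!
# MP_72e2e6_nt: weakly tame twists exist in every class of degrees, all primes `ℓ`
-/

namespace MP72e2e6

open Polynomial IsDedekindDomain

universe u

/-- weak tameness depends on the class of `e` -/
theorem Tam.congr {ℓ m : ℕ} {b : Fin m → ℕ} {w : Fin m → Fin m → ℤ} {e e' : ℤ}
    (h : Tam ℓ b w e) (he : (e : ZMod ℓ) = (e' : ZMod ℓ)) : Tam ℓ b w e' := by
  intro j i hji hdvd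
  refine h j i hji ?_
  rw [← ZMod.intCast_zmod_eq_zero_iff_dvd] at hdvd ⊢
  push_cast at hdvd ⊢
  rw [he]
  exact hdvd

theorem Tame.tam {ℓ m : ℕ} {b : Fin m → ℕ} {w : Fin m → Fin m → ℤ} {e : ℤ}
    (h : Tame ℓ b w e) : Tam ℓ b w e := h.ram

/-- places without coincidences -/
theorem tam_good {ℓ m : ℕ} (hℓ : ℓ.Prime) {b : Fin m → ℕ} (hB : ¬ ℓ ∣ ∑ k, b k)
    {w : Fin m → Fin m → ℤ} (hw : ∀ i k, i ≠ k → w i k = 0) {e : ℤ} (he : ¬ (ℓ : ℤ) ∣ e) :
    Tam ℓ b w e := by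
  intro j i hji hdvd
  have h1 : lev b w j i = 0 := by
    rw [lev]
    refine Finset.sum_eq_zero fun k _ => ?_
    by_cases hk : k = j
    · rw [if_pos hk, hw j i hji, mul_zero]
    · rw [if_neg hk, hw j i hji, hw j k (Ne.symm hk), min_self, mul_zero]
  rw [h1, add_zero] at hdvd
  rcases (Nat.prime_iff_prime_int.1 hℓ).dvd_or_dvd hdvd with h | h
  · exact he h
  · exact hB (by exact_mod_cast h)

/-- monic irreducible polynomials of every degree -/
theorem gen_prime (F : Type u) [Field F] [Finite F] (n : ℕ) (hn : n ≠ 0) :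
    ∃ R : F[X], R.Monic ∧ Irreducible R ∧ R.natDegree = n := by
  obtain ⟨p, hp⟩ := CharP.exists F
  haveI : Fact p.Prime := ⟨CharP.char_is_prime F p⟩
  haveI : NeZero n := ⟨hn⟩
  obtain ⟨α, hα⟩ := Field.exists_primitive_element F (FiniteField.Extension F p n)
  have hi : IsIntegral F α := IsIntegral.of_finite F α
  refine ⟨minpoly F α, minpoly.monic hi, minpoly.irreducible hi, ?_⟩
  rw [← IntermediateField.adjoin.finrank hi, hα, IntermediateField.finrank_top',
    FiniteField.finrank_extension]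

/-- weakly tame twists exist in every class of degrees -/
theorem gen_exists {F : Type u} [Field F] [Finite F] {ℓ m : ℕ} [Fact ℓ.Prime]
    {a : Fin m → F[X]} (ha : Function.Injective a) {b : Fin m → ℕ}
    (hP : ∀ P : F[X], P.Monic → Irreducible P → ∃ e : ℤ, Tam ℓ b (wP P a) e)
    (hI : ∃ e : ℤ, Tam ℓ b (wI a) e) (θ : ZMod ℓ) :
    ∃ D : F[X], TDg ℓ b a D ∧ ∀ n : ℕ, (n : ZMod ℓ) = θ →
      Tam ℓ b (wI a) (-((D.natDegree + n : ℕ) : ℤ)) := by
  classical
  have hℓ : ℓ.Prime := Fact.out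
  obtain ⟨e₁, he₁⟩ := hI
  obtain ⟨s, prS, hfamS, hcovS⟩ := su_exists_bad ha
  have hP' : ∀ v, ∃ e : ℤ, Tam ℓ b (wP (prS v) a) e := fun v =>
    hP _ (hfamS.monic v) (hfamS.irr v)
  choose e₀ he₀ using hP'
  let e : Fin s → ZMod ℓ := fun v => (e₀ v : ZMod ℓ)
  set c : ZMod ℓ := -(e₁ : ZMod ℓ) - θ - ∑ v, e v * ((prS v).natDegree : ZMod ℓ) with hc
  obtain ⟨R₀, hR₀m, hR₀i, hR₀n⟩ := gen_prime F
    (c.val + ℓ * (∑ v, (prS v).natDegree + 1)) (by
      have := hℓ.pos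
      have h1 : 0 < ℓ * (∑ v, (prS v).natDegree + 1) := by positivity
      omega)
  have hR₀d : (R₀.natDegree : ZMod ℓ) = c := by
    rw [hR₀n]
    push_cast
    rw [ZMod.natCast_zmod_val, ZMod.natCast_self, zero_mul, add_zero]
  have hR₀ne : ∀ v, prS v ≠ R₀ := by
    intro v h
    have h1 : (prS v).natDegree ≤ ∑ v, (prS v).natDegree :=
      Finset.single_le_sum (f := fun v => (prS v).natDegree) (fun _ _ => Nat.zero_le _)
        (Finset.mem_univ v)
    have h2 : ∑ v, (prS v).natDegree + 1 ≤ ℓ * (∑ v, (prS v).natDegree + 1) :=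
      Nat.le_mul_of_pos_left _ hℓ.pos
    rw [h, hR₀n] at h1
    omega
  let pr0 : Option (Fin s) → F[X] := fun o => o.elim R₀ prS
  let ρ : Option (Fin s) → ZMod ℓ := fun o => o.elim 1 e
  have hfam0 : Fam pr0 := by
    refine ⟨?_, ?_, ?_⟩
    · rintro (_ | i) (_ | j) h
      · rfl
      · exact absurd h.symm (hR₀ne j)
      · exact absurd h (hR₀ne i)
      · exact congrArg some (hfamS.inj h)
    · rintro (_ | i)
      · exact hR₀m
      · exact hfamS.monic i
    · rintro (_ | i)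
      · exact hR₀i
      · exact hfamS.irr i
  refine ⟨twl pr0 ρ, ⟨monic_twl hfam0 ρ, ?_, ?_⟩, ?_⟩
  · intro P hPm hPi
    by_cases hd : P ∣ twl pr0 ρ
    · obtain ⟨β, rfl⟩ := susel_dvd_twl hfam0 hPm hPi hd
      rw [susel_mult hfam0]
      exact ZMod.val_lt _
    · rw [multiplicity_eq_zero.2 hd]
      exact hℓ.pos
  · rintro P hPm hPi ⟨i, j, hij, hd⟩
    obtain ⟨v, rfl⟩ := hcovS P hPm hPi i j hij hd
    have h1 := susel_mult hfam0 (ρ := ρ) (some v)
    change multiplicity (prS v) (twl pr0 ρ) = (e v).val at h1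
    rw [h1]
    refine (he₀ v).congr ?_
    rw [Int.cast_natCast, ZMod.natCast_val, ZMod.cast_id', id]
  · intro n hn
    refine he₁.congr ?_
    push_cast
    rw [natDegree_twl hfam0, Fintype.sum_option, hn]
    change (e₁ : ZMod ℓ) = -(1 * (R₀.natDegree : ZMod ℓ) +
      ∑ v, e v * ((prS v).natDegree : ZMod ℓ) + θ)
    rw [hR₀d, hc]
    ring

end MP72e2e6
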