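import Pool.Agent.Lib.MP_72e2e6_nt.PhStmt
import Pool.Agent.Lib.MP_72e2e6_nt.PgCon

/-!
# MP_72e2e6_nt: the theorem for `ℓ = 2` and a family of primes, from the modules
-/

set_option autoImplicit false

namespace MP72e2e6

open Polynomial IsDedekindDomain

universe u

section

variable {F : Type u} [Field F]

/-- The relation of `HypG` is the relation `RelF`. -/
theorem gentwo_relF {V W : Type} [Fintype V] [AddCommGroup W] [Module (ZMod 2) W]
    {χ : F → ZMod 2} {pr : V → F[X]} {σ : V → Module.End (ZMod 2) W}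
    {Λ : Module.End (ZMod 2) W} {f : W →ₗ[ZMod 2] Module.Dual (ZMod 2) W} {h : V → W}
    {h₀ : W} (hG : HypG χ pr σ Λ f h h₀) : RelF χ pr σ Λ f := by
  intro v x
  have hM : ∀ x, Mop χ pr σ Λ v x =
      ∑ v', syl χ (pr v) (pr v') • σ v' x + ((pr v).natDegree : ZMod 2) • Λ x := fun _ => rfl
  have hself : ∀ x y, f x (Mop χ pr σ Λ v y) = f (Mop χ pr σ Λ v x) y := by
    intro x y
    simp only [hM, map_add, map_sum, map_smul, LinearMap.add_apply, LinearMap.sum_apply,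
      LinearMap.smul_apply, hG.self, hG.selfL]
  have h1 : ∑ v', syl χ (pr v) (pr v') * f (σ v x) (σ v' (σ v x)) +
      ((pr v).natDegree : ZMod 2) * f (σ v x) (Λ (σ v x)) =
      f (∑ v', syl χ (pr v) (pr v') • h v' + ((pr v).natDegree : ZMod 2) • h₀) (σ v x) := by
    simp only [map_add, map_sum, map_smul, LinearMap.add_apply, LinearMap.sum_apply,
      LinearMap.smul_apply, smul_eq_mul, hG.diag, hG.diagL]
  rw [h1, hG.self, hM x, hG.rel v x, map_add, LinearMap.add_apply, ← hM, ← hM, hG.diag, hself,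
    hG.self]

end

section

variable {F : Type u} [Field F] [Finite F]

/-- The field has at least four elements if `-1` is a square. -/
theorem gentwo_four (hq : 2 ∣ Nat.card F - 1) (hz : ∃ z : F, z ^ 2 = -1) :
    4 ≤ Nat.card F := by
  have : Fintype F := Fintype.ofFinite F
  have h1 : 2 ≤ Nat.card F := Finite.one_lt_card
  have h2 : Nat.card F = Fintype.card F := Nat.card_eq_fintype_card
  obtain ⟨z, hz⟩ := hz
  have h3 := (FiniteField.isSquare_neg_one_iff (F := F)).1 ⟨z, by rw [← hz, sq]⟩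
  omega

/-- `-1` is an `ℓ`-th power. -/
theorem gentwo_chi {F : Type u} [Field F] {ℓ : ℕ} {χ : F → ZMod ℓ} (hχ : IsLg ℓ χ) (hz : ∃ z : F, z ^ ℓ = -1) :
    χ (-1) = 0 := by
  obtain ⟨z, hz⟩ := hz
  exact (hχ.ker (-1) (neg_ne_zero.2 one_ne_zero)).2 ⟨z, hz.symm⟩

open Classical in
/-- the theorem for a family of primes -/
theorem gentwo_core (hFM : StmtPhFM.{u}) (hEq : StmtPhEq.{u})
    (hMul : StmtPqMul.{u}) (hFun : StmtPqFun) (hMom : StmtPhMom) (hPow : StmtPrPow.{u})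
    (hDis : StmtPhDis.{u}) (hCnt' : StmtPrCnt.{u}) (hRec : RecP.{u} 2) (hTor : StmtPgTor.{u})
    (hCnt : StmtPpCnt.{u}) (hHyp : StmtPgHyp.{u}) (hRel : StmtPgRel.{u}) (hEdg : StmtPgEdg.{u})
    (hIrr : StmtPgIrr) (hHyG : StmtPgHyG.{u}) (hPar : StmtPgPar.{u})
    (hq : 2 ∣ Nat.card F - 1) (hz : ∃ z : F, z ^ 2 = -1) {χ : F → ZMod 2} (hχ : IsLg 2 χ)
    {m : ℕ} (hm : 0 < m) {a : Fin m → F[X]} (ha : Function.Injective a) {b : Fin m → ℕ}
    (hb : ∀ i, ¬ 2 ∣ b i) (hB : ¬ 2 ∣ ∑ i, b i) {V : Type} [Fintype V] {pr : V → F[X]}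
    (hpr : Fam pr)
    (hcov : ∀ P : F[X], P.Monic → Irreducible P → ∀ i j, i ≠ j → P ∣ a i - a j → ∃ v, pr v = P)
    {e : V → ZMod 2} (hT : ∀ v, Tam 2 b (wP (pr v) a) ((e v).val : ℤ)) :
    (∀ n : ℕ, Tam 2 b (wI a) (-(((twl pr e).natDegree + n : ℕ) : ℤ)) → ∀ t ∈ gs F pr n,
      ∃ r : ℕ, ist 2 a b (twl pr e * ∏ P ∈ t, P) = 4 ^ r) ∧
    (∀ k : ℕ, ∃ N : ℕ, (2 ≤ m → ConnG 2 a → N = ∏ i ∈ Finset.range k, (1 + 2 ^ (i + 1))) ∧
      ∀ ε : ℝ, 0 < ε → ∃ n₀ : ℕ, ∀ n : ℕ, n₀ ≤ n →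
        Tam 2 b (wI a) (-(((twl pr e).natDegree + n : ℕ) : ℤ)) →
        |∑ t ∈ gs F pr n, (ist 2 a b (twl pr e * ∏ P ∈ t, P) : ℝ) ^ k -
          (N : ℝ) * ((gs F pr n).card : ℝ)| ≤ ε * ((gs F pr n).card : ℝ)) ∧
    (2 ≤ m → ConnG 2 a → ∀ (r : ℕ) (ε : ℝ), 0 < ε → ∃ n₀ : ℕ, ∀ n : ℕ, n₀ ≤ n →
      Tam 2 b (wI a) (-(((twl pr e).natDegree + n : ℕ) : ℤ)) →
      |(((gs F pr n).filter fun t => ist 2 a b (twl pr e * ∏ P ∈ t, P) = 4 ^ r).card : ℝ) -
        2 ^ (2 * r) * (∏' i : ℕ, (1 - ((2 : ℝ)⁻¹) ^ (2 * i + 1))) /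
          (∏ i ∈ Finset.range (2 * r), ((2 : ℝ) ^ (i + 1) - 1)) * ((gs F pr n).card : ℝ)| ≤
        ε * ((gs F pr n).card : ℝ)) := by
  have hq4 : 4 ≤ Nat.card F := gentwo_four hq hz
  have hχ1 : χ (-1) = 0 := gentwo_chi hχ hz
  have hQ : (0 : ℝ) < (Nat.card F : ℝ) := by
    have : 0 < Nat.card F := by omega
    exact_mod_cast this
  have hrcp : Rcp χ := fun P Q hP hPi hQ' hQi hne =>
    hRec.sym F χ hq hχ hχ1 P Q hP hPi hQ' hQi hne
  obtain ⟨c, hc, n₁, hcnt⟩ := hCnt F hq4 V pr hpr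
  obtain ⟨hH, hInf⟩ := hHyp F 2 hq χ hχ hχ1 m a ha b hB V pr hpr hcov e hT
  obtain ⟨f, h, h₀, hf, hG, hfix⟩ := hHyG F hq χ hχ hχ1 m a ha b hb hB V pr hpr hcov e hT
  set S : Sys 2 V := prS χ b a pr e with hS
  have hHS : HypW χ pr S.σ S.Λ := hH
  -- the order of the Selmer group
  have hkey : ∀ n : ℕ, Tam 2 b (wI a) (-(((twl pr e).natDegree + n : ℕ) : ℤ)) →
      ∀ t ∈ gs F pr n, ist 2 a b (twl pr e * ∏ P ∈ t, P) = S.sol χ pr t := by
    intro n hn t ht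
    obtain ⟨h1, h2⟩ := hRel F 2 hq χ hχ hχ1 hrcp m hm a ha b hb hB V pr hpr hcov e hT n t ht hn
    have hE : twl pr e * ∏ P ∈ t, P ≠ 0 := by
      refine mul_ne_zero (monic_twl hpr e).ne_zero (Finset.prod_ne_zero_iff.2 fun P hP => ?_)
      have h3 : t ∈ ps F n := by
        have h4 := ht
        simp only [gs, Finset.mem_filter] at h4
        exact h4.1
      exact ((mem_ps.1 h3).1 P hP).1.ne_zero
    exact le_antisymm h2 (hCnt' F 2 hRec hq χ hχ hχ1 m a ha b hb hB V pr hpr hcov e hH.inj n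
      (hInf n hn) t ht (hTor F 2 Nat.prime_two hz m _ hE a ha b hB) h1)
  have hpow : ∀ n : ℕ, Tam 2 b (wI a) (-(((twl pr e).natDegree + n : ℕ) : ℤ)) →
      ∀ t ∈ gs F pr n, ∃ r : ℕ, S.sol χ pr t = 4 ^ r := by
    intro n hn t ht
    exact hPar F hq χ hχ hrcp V (Vs 2 b) pr hpr _ _ hH f h h₀ hG n (hInf n hn) (hfix n hn) t ht
  have hsum : ∀ (k n : ℕ), Tam 2 b (wI a) (-(((twl pr e).natDegree + n : ℕ) : ℤ)) →
      ∑ t ∈ gs F pr n, (ist 2 a b (twl pr e * ∏ P ∈ t, P) : ℝ) ^ k =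
        ∑ t ∈ gs F pr n, (S.sol χ pr t : ℝ) ^ k := fun k n hn =>
    Finset.sum_congr rfl fun t ht => by rw [hkey n hn t ht]
  have hfil : ∀ (x n : ℕ), Tam 2 b (wI a) (-(((twl pr e).natDegree + n : ℕ) : ℤ)) →
      ((gs F pr n).filter fun t => ist 2 a b (twl pr e * ∏ P ∈ t, P) = x) =
        (gs F pr n).filter fun t => S.sol χ pr t = x := fun x n hn =>
    Finset.filter_congr fun t ht => by rw [hkey n hn t ht]
  -- connected families: the moments of `Eq_`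
  have hEq' : 2 ≤ m → ConnG 2 a → ∀ (j : ℕ) (ε : ℝ), 0 < ε → ∃ n₀ : ℕ, ∀ n : ℕ, n₀ ≤ n →
      InfW pr S.σ n → |∑ t ∈ gs F pr n, (Eq_ 2 j).eval (S.sol χ pr t : ℝ) -
        (2 : ℝ) ^ (j * (j + 1) / 2) * ((gs F pr n).card : ℝ)| ≤ ε * (Nat.card F : ℝ) ^ n := by
    intro hm2 hcn j ε hε
    obtain ⟨h1, h2, h3, -, h5, h6⟩ := pgcon_main hEdg hIrr hq hχ hχ1 hm2 ha hb hB hpr hcov e hcn
    have hfe : f = pqcon_h 2 b := LinearMap.ext fun x => LinearMap.ext fun y => by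
      rw [hf]
      rfl
    have hSa : f ∈ Sa S.σ S.Λ :=
      ⟨hG.alt, fun v x y => hG.self v x y, fun x y => hG.selfL x y⟩
    have hf0 : f ≠ 0 := by
      rw [hfe]
      exact h5
    have hbil : ∀ g ∈ BilS S S, ∃ t : ZMod 2, g = t • f := by
      intro g hg
      obtain ⟨t, ht⟩ := h6 g hg
      exact ⟨t, by rw [ht, hfe]⟩
    exact hEq F hq4 hq χ hχ hrcp V pr hpr S ⟨fun _ => h1, fun _ => hHS,
      fun i j h => absurd (Subsingleton.elim i j) h,
      fun i j h => absurd (Subsingleton.elim i j) h⟩ h2 f hSa hf0 hbil (gentwo_relF hG) j ε hε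
  refine ⟨fun n hn t ht => ?_, fun k => ?_, fun hm2 hcn r ε hε => ?_⟩
  · obtain ⟨r, hr⟩ := hpow n hn t ht
    exact ⟨r, by rw [hkey n hn t ht, hr]⟩
  · -- moments
    by_cases hcon : 2 ≤ m ∧ ConnG 2 a
    · obtain ⟨hm2, hcn⟩ := hcon
      refine ⟨∏ i ∈ Finset.range k, (1 + 2 ^ (i + 1)), fun _ _ => rfl, fun ε hε => ?_⟩
      obtain ⟨L, hL⟩ := hFun 2 fun j => (2 : ℝ) ^ (j * (j + 1) / 2)
      obtain ⟨n₀, h0⟩ := hMul Unit (Finset F[X]) (gs F pr) (InfW pr S.σ) (Nat.card F) hQ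
        (fun _ => (2 : ℝ)) (fun _ t => (S.sol χ pr t : ℝ)) (fun _ => L) (fun j ε hε => by
          obtain ⟨n₀, h0⟩ := hEq' hm2 hcn (j ()) ε hε
          refine ⟨n₀, fun n hn hI => ?_⟩
          have h1 := h0 n hn hI
          rw [← hL] at h1
          simpa only [Finset.univ_unique, Finset.prod_singleton] using h1)
        (fun _ => X ^ k) (ε * c) (mul_pos hε hc)
      refine ⟨max n₀ n₁, fun n hn hI => ?_⟩
      have h1 := h0 n ((le_max_left _ _).trans hn) (hInf n hI)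
      simp only [Finset.univ_unique, Finset.prod_singleton, eval_pow, eval_X,
        hMom L hL k] at h1
      rw [hsum k n hI]
      push_cast
      exact pr_absorb (hcnt n ((le_max_right _ _).trans hn)) hε h1
    · obtain ⟨hP1, hP2, hP3⟩ := hPow F 2 V χ pr S k
      refine ⟨muB χ pr (Sys.pi fun _ : Fin k => S).σ (Sys.pi fun _ : Fin k => S).Λ,
        fun h1 h2 => absurd ⟨h1, h2⟩ hcon, fun ε hε => ?_⟩
      obtain ⟨n₀, h0⟩ := hFM F hq4 hq χ hχ hrcp V (Sys.pi fun _ : Fin k => S).W pr hpr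
        (Sys.pi fun _ : Fin k => S).σ (Sys.pi fun _ : Fin k => S).Λ (hP1 hHS) (ε * c)
        (mul_pos hε hc)
      refine ⟨max n₀ n₁, fun n hn hI => ?_⟩
      have h1 := h0 n ((le_max_left _ _).trans hn) (hP2 n (hInf n hI))
      have h2 : ∀ t, (nSol χ pr (Sys.pi fun _ : Fin k => S).σ (Sys.pi fun _ : Fin k => S).Λ t : ℝ)
          = (S.sol χ pr t : ℝ) ^ k := by
        intro t
        have h3 := hP3 t
        rw [Sys.sol] at h3
        rw [h3]
        push_cast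
        rfl
      rw [Finset.sum_congr rfl fun t _ => h2 t] at h1
      rw [hsum k n hI]
      exact pr_absorb (hcnt n ((le_max_right _ _).trans hn)) hε h1
  · -- the distribution
    have hε2 : 0 < min (ε / 2) (ε / 2 * c) := lt_min (by linarith) (mul_pos (by linarith) hc)
    obtain ⟨n₀, h0⟩ := hDis (Finset F[X]) (gs F pr)
      (fun n => Tam 2 b (wI a) (-(((twl pr e).natDegree + n : ℕ) : ℤ))) (Nat.card F) hQ
      (fun t => (S.sol χ pr t : ℝ)) (fun n hn t ht => by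
        obtain ⟨r, hr⟩ := hpow n hn t ht
        exact ⟨r, by rw [hr]; push_cast; rfl⟩) (fun j ε hε => by
        obtain ⟨n₀, h0⟩ := hEq' hm2 hcn j ε hε
        exact ⟨n₀, fun n hn hI => h0 n hn (hInf n hI)⟩) r _ hε2
    refine ⟨max n₀ n₁, fun n hn hI => ?_⟩
    have h2 := h0 n ((le_max_left _ _).trans hn) hI
    have h4 := hcnt n ((le_max_right _ _).trans hn)
    rw [hfil (4 ^ r) n hI]
    have h5 : ((gs F pr n).filter fun t => (S.sol χ pr t : ℝ) = 4 ^ r) =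
        (gs F pr n).filter fun t => S.sol χ pr t = 4 ^ r :=
      Finset.filter_congr fun t _ => by exact_mod_cast Iff.rfl
    rw [h5] at h2
    have h7 : min (ε / 2) (ε / 2 * c) * (Nat.card F : ℝ) ^ n ≤
        ε / 2 * ((gs F pr n).card : ℝ) := by
      have h8 : min (ε / 2) (ε / 2 * c) * (Nat.card F : ℝ) ^ n ≤
          ε / 2 * c * (Nat.card F : ℝ) ^ n :=
        mul_le_mul_of_nonneg_right (min_le_right _ _) (pow_nonneg hQ.le _)
      exact pr_absorb h4 (by linarith) h8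
    have h8 : min (ε / 2) (ε / 2 * c) * ((gs F pr n).card : ℝ) ≤
        ε / 2 * ((gs F pr n).card : ℝ) :=
      mul_le_mul_of_nonneg_right (min_le_left _ _) (Nat.cast_nonneg _)
    refine h2.trans ?_
    linarith

end

end MP72e2e6
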