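import Pool.Agent.Lib.MP_72e2e6_nt.Comp

/-!
# MP_72e2e6_nt: the global field `F(t)`
-/

namespace MP72e2e6

open Polynomial IsDedekindDomain WithZero

theorem log_valuation_pow {F : Type*} [Field F] (v : HeightOneSpectrum F[X]) (N : F[X]) (n : ℕ)
    (hN : N ≠ 0) (h : (n : ℤ) ≤ -WithZero.log (v.intValuation N)) :
    v.asIdeal ^ n ∣ Ideal.span {N} := by
  rw [← HeightOneSpectrum.intValuation_le_pow_iff_dvd]
  have h1 : v.intValuation N ≠ 0 := v.intValuation_ne_zero N hN
  rw [← WithZero.exp_log h1]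
  simp only [WithZero.exp_le_exp]
  omega

theorem log_intValuation_mul {F : Type*} [Field F] (v : HeightOneSpectrum F[X]) (A B : F[X])
    (hA : A ≠ 0) (hB : B ≠ 0) : WithZero.log (v.intValuation (A * B)) =
      WithZero.log (v.intValuation A) + WithZero.log (v.intValuation B) := by
  rw [map_mul, WithZero.log_mul (v.intValuation_ne_zero A hA) (v.intValuation_ne_zero B hB)]

/-- polynomials all of whose valuations away from `Q` are divisible by `ℓ` -/
theorem exists_poly_eq {F : Type*} [Field F] {ℓ : ℕ} (hℓ : 0 < ℓ) {Q : F[X]} (hQ : Irreducible Q) :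
    ∀ (n : ℕ) (N : F[X]), N.natDegree ≤ n → N ≠ 0 →
      (∀ v : HeightOneSpectrum F[X], Q ∉ v.asIdeal →
        (ℓ : ℤ) ∣ WithZero.log (v.intValuation N)) →
      ∃ (ε : F) (k : ℕ) (y : F[X]), ε ≠ 0 ∧ y ≠ 0 ∧ N = C ε * Q ^ k * y ^ ℓ := by
  intro n
  induction n with
  | zero =>
    intro N hN h0 _
    have h1 := Polynomial.eq_C_of_natDegree_le_zero hN
    refine ⟨N.coeff 0, 0, 1, ?_, one_ne_zero, ?_⟩
    · intro h2
      rw [h2, map_zero] at h1
      exact h0 h1
    · rw [pow_zero, one_pow, mul_one, mul_one]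
      exact h1
  | succ n ih =>
    intro N hN h0 h
    by_cases hdeg : N.natDegree = 0
    · exact ih N (by omega) h0 h
    obtain ⟨π, hπm, hπi, hπN⟩ := Polynomial.exists_monic_irreducible_factor N
      (Polynomial.not_isUnit_of_natDegree_pos N (Nat.pos_of_ne_zero hdeg))
    by_cases hQπ : π ∣ Q
    · -- `Q` divides `N`
      have hass : Associated π Q := hπi.associated_of_dvd hQ hQπ
      obtain ⟨N', hN'⟩ := (hass.dvd_iff_dvd_left).1 hπN
      have hN'0 : N' ≠ 0 := by
        rintro rfl
        exact h0 (by rw [hN', mul_zero])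
      have hdeg' : N'.natDegree ≤ n := by
        have h1 : N.natDegree = Q.natDegree + N'.natDegree := by
          rw [hN', Polynomial.natDegree_mul hQ.ne_zero hN'0]
        have h2 := hQ.natDegree_pos
        omega
      obtain ⟨ε, k, y, hε, hy, heq⟩ := ih N' hdeg' hN'0 (fun v hv => by
        have h1 := h v hv
        rw [hN', log_intValuation_mul v _ _ hQ.ne_zero hN'0] at h1
        have h2 : v.intValuation Q = 1 := HeightOneSpectrum.intValuation_eq_one_iff.2 hv
        rw [h2, WithZero.log_one, zero_add] at h1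
        exact h1)
      refine ⟨ε, k + 1, y, hε, hy, ?_⟩
      rw [hN', heq]
      ring
    · let v : HeightOneSpectrum F[X] :=
        { asIdeal := Ideal.span {π}
          isPrime := (Ideal.span_singleton_prime hπi.ne_zero).2 hπi.prime
          ne_bot := by rw [Ne, Ideal.span_singleton_eq_bot]; exact hπi.ne_zero }
      have hQv : Q ∉ v.asIdeal := fun hmem => hQπ (Ideal.mem_span_singleton.1 hmem)
      have hlt : v.intValuation N < 1 := by
        rw [HeightOneSpectrum.intValuation_lt_one_iff_mem]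
        exact Ideal.mem_span_singleton.2 hπN
      have hlog : WithZero.log (v.intValuation N) < 0 := by
        have h1 : v.intValuation N ≠ 0 := v.intValuation_ne_zero N h0
        rw [← WithZero.exp_log h1, ← WithZero.exp_zero, WithZero.exp_lt_exp] at hlt
        exact hlt
      obtain ⟨q, hq⟩ := h v hQv
      have hle : (ℓ : ℤ) ≤ -WithZero.log (v.intValuation N) := by
        refine Int.le_of_dvd (by omega) ?_
        rw [dvd_neg]
        exact ⟨q, hq⟩
      have hdvd := log_valuation_pow v N ℓ h0 hle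
      have hdvd' : π ^ ℓ ∣ N := by
        have h1 : v.asIdeal = Ideal.span {π} := rfl
        rw [h1, Ideal.span_singleton_pow, Ideal.dvd_span_singleton,
          Ideal.mem_span_singleton] at hdvd
        exact hdvd
      obtain ⟨N', hN'⟩ := hdvd'
      have hπ0 : π ^ ℓ ≠ 0 := pow_ne_zero _ hπi.ne_zero
      have hN'0 : N' ≠ 0 := by
        rintro rfl
        exact h0 (by rw [hN', mul_zero])
      have hdeg' : N'.natDegree ≤ n := by
        have h1 : N.natDegree = ℓ * π.natDegree + N'.natDegree := by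
          rw [hN', Polynomial.natDegree_mul hπ0 hN'0, Polynomial.natDegree_pow]
        have h2 := hπi.natDegree_pos
        have h3 : 0 < ℓ * π.natDegree := Nat.mul_pos hℓ h2
        omega
      obtain ⟨ε, k, y, hε, hy, heq⟩ := ih N' hdeg' hN'0 (fun v' hv' => by
        have h1 := h v' hv'
        rw [hN', log_intValuation_mul v' _ _ hπ0 hN'0, map_pow, WithZero.log_pow,
          nsmul_eq_mul] at h1
        exact (dvd_add_right (dvd_mul_right _ _)).1 h1)
      refine ⟨ε, k, π * y, hε, mul_ne_zero hπi.ne_zero hy, ?_⟩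
      rw [hN', heq]
      ring

/-- rational functions all of whose valuations away from `Q` are divisible by `ℓ` -/
theorem exists_ratFunc_eq {F : Type*} [Field F] {ℓ : ℕ} (hℓ : 0 < ℓ) {Q : F[X]}
    (hQ : Irreducible Q) (x : RatFunc F) (hx : x ≠ 0)
    (h : ∀ v : HeightOneSpectrum F[X], Q ∉ v.asIdeal →
      (ℓ : ℤ) ∣ WithZero.log (v.valuation (RatFunc F) x)) :
    ∃ (ε : F) (k : ℕ) (y : RatFunc F), ε ≠ 0 ∧ y ≠ 0 ∧
      x = algebraMap F[X] (RatFunc F) (C ε * Q ^ k) * y ^ ℓ := by
  have hnum : x.num ≠ 0 := RatFunc.num_ne_zero hx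
  have hden : x.denom ≠ 0 := RatFunc.denom_ne_zero x
  have hinj : Function.Injective (algebraMap F[X] (RatFunc F)) :=
    RatFunc.algebraMap_injective F
  have hden' : algebraMap F[X] (RatFunc F) x.denom ≠ 0 := by
    rw [Ne, map_eq_zero_iff _ hinj]
    exact hden
  set N : F[X] := x.num * x.denom ^ (ℓ - 1) with hN
  have hN0 : N ≠ 0 := mul_ne_zero hnum (pow_ne_zero _ hden)
  have hxN : algebraMap F[X] (RatFunc F) N =
      x * (algebraMap F[X] (RatFunc F) x.denom) ^ ℓ := by
    conv_rhs => rw [← RatFunc.num_div_denom x]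
    rw [hN, map_mul, map_pow]
    obtain ⟨k, rfl⟩ : ∃ k, ℓ = k + 1 := ⟨ℓ - 1, by omega⟩
    rw [Nat.add_sub_cancel, pow_succ]
    field_simp
    rw [RatFunc.num_div_denom]
  obtain ⟨ε, k, y, hε, hy, heq⟩ := exists_poly_eq hℓ hQ _ N le_rfl hN0 (fun v hv => by
    have h1 : v.intValuation N = v.valuation (RatFunc F) (algebraMap F[X] (RatFunc F) N) :=
      (v.valuation_of_algebraMap N).symm
    rw [h1, hxN, map_mul, map_pow, WithZero.log_mul, WithZero.log_pow, nsmul_eq_mul]
    · exact dvd_add (h v hv) (dvd_mul_right _ _)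
    · exact (Valuation.ne_zero_iff _).2 hx
    · exact pow_ne_zero _ ((Valuation.ne_zero_iff _).2 hden'))
  have hy' : algebraMap F[X] (RatFunc F) y ≠ 0 := by
    rw [Ne, map_eq_zero_iff _ hinj]
    exact hy
  refine ⟨ε, k, algebraMap F[X] (RatFunc F) y / algebraMap F[X] (RatFunc F) x.denom, hε,
    div_ne_zero hy' hden', ?_⟩
  rw [div_pow, ← map_pow (algebraMap F[X] (RatFunc F)) y, mul_div_assoc', ← map_mul, ← heq, hxN,
    mul_div_cancel_right₀ _ (pow_ne_zero _ hden')]

end MP72e2e6
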