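import Pool.Agent.Lib.MP_72e2e6_nt.HStmt

/-!
# Statement HDed
-/

namespace MP72e2e6

open IsDedekindDomain WithZero

universe u

theorem tDed : StmtDed.{u} := by
  intro A _ _ 𝔮 p hp b hb
  have h1 : p ∈ 𝔮.asIdeal := by
    have := (𝔮.intValuation_le_pow_iff_mem p 1).1 (by rw [hp]; simp)
    rwa [pow_one] at this
  have h2 : p ∉ 𝔮.asIdeal ^ 2 := by
    intro h
    have := (𝔮.intValuation_le_pow_iff_mem p 2).2 h
    rw [hp, exp_le_exp] at this
    norm_num at this
  obtain ⟨J, hJ⟩ := (Ideal.dvd_span_singleton).2 h1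
  have h3 : ¬ J ≤ 𝔮.asIdeal := by
    intro h
    apply h2
    have : p ∈ Ideal.span {p} := Ideal.mem_span_singleton_self p
    rw [hJ] at this
    rw [pow_two]
    exact Ideal.mul_mono_right h this
  obtain ⟨s, hsJ, hs⟩ := Set.not_subset.1 h3
  refine ⟨s, hs, ?_⟩
  rw [← Ideal.mem_span_singleton, hJ, mul_comm s b]
  exact Ideal.mul_mem_mul hb hsJ

end MP72e2e6
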