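import Pool.Agent.Lib.MP_72e2e6_nt.HSpec
import Pool.Agent.Lib.MP_72e2e6_nt.GIdeal

/-!
# MP_72e2e6_nt: statements of the modules (branch curve theorem)

Every module proves one of the propositions `StmtX` below: file `HX.lean` with
`theorem tX.{u} : StmtX.{u}` (or `theorem tX.{u} (h : StmtY.{u}) : StmtX.{u}` if the docstring
says: uses `StmtY`). The complete proofs are in the docstrings.
-/

namespace MP72e2e6

open Polynomial IsDedekindDomain WithZero Module

universe u

/-- **HFix** (linear algebra with a group action; 150 lines). `G` is a finite `ℓ`-group acting on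
the commutative group `W`, `M` is a stable subgroup, `F` the subgroup of the `d` in `M` whose class
modulo `P := powers ℓ W = W^ℓ` is fixed by `G`. Then `[M : M ∩ P]` divides `[F : F ∩ P] ^ #G`.

Proof. If `P.relIndex F = 0` the right side is `0 ^ #G = 0` and there is nothing to prove. Let
`V ≤ W ⧸ P` be the image of `M`; it is a commutative group killed by `ℓ`, with an action of `G`
(action on `W ⧸ P` by `QuotientGroup.map`, as `P` is stable; `V` is stable by `hM`), and
`Nat.card V = P.relIndex M`. The fixed subgroup `V^G` is the image of `F` (if `d ∈ M` has a fixed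
class then `σ • d = d * z ^ ℓ`), so `Nat.card V^G = P.relIndex F`, finite.
(i) If `N ≤ V` is a `G`-stable subgroup and `N ≠ 1`, then `N` has a fixed element `≠ 1`: take
`x ∈ N`, `x ≠ 1`; the subgroup generated by the finite orbit `G x` is finitely generated,
commutative and killed by `ℓ`, so finite (`CommGroup.finite_of_fg_torsion`), `G`-stable, and its
order is a power of `ℓ` different from `1`; so the number of its fixed points is divisible by `ℓ`:
`IsPGroup.exists_fixed_point_of_prime_dvd_card_of_fixed_point`.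
(ii) `Additive V` is a vector space over `ZMod ℓ` (`AddCommGroup.zmodModule`), so there is a
homomorphism `π : V → V^G` which is the identity on `V^G` (complement of a subspace:
`LinearMap.exists_leftInverse_of_injective` or `Submodule.exists_isCompl`).
(iii) `Φ : V →* (G → V^G)`, `Φ v σ = π (σ • v)` is injective: its kernel is a `G`-stable subgroup
(`Φ (τ • v) σ = Φ v (σ * τ)`), and a fixed `v` in the kernel is `v = π v = Φ v 1 = 1`; so the
kernel is trivial by (i). Hence `Nat.card V ∣ Nat.card (G → V^G) = (Nat.card V^G) ^ Nat.card G`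
(`Subgroup.card_dvd_of_injective`, `Nat.card_fun`). -/
def StmtFix : Prop :=
  ∀ (ℓ : ℕ) (_ : ℓ.Prime) (G W : Type u) [Group G] [Finite G] [CommGroup W]
    [MulDistribMulAction G W] (_ : IsPGroup ℓ G) (M F : Subgroup W)
    (_ : ∀ (σ : G) (d : W), d ∈ M → σ • d ∈ M)
    (_ : ∀ d : W, d ∈ F ↔ d ∈ M ∧ ∀ σ : G, ∃ z : W, σ • d = d * z ^ ℓ),
    (powers ℓ W).relIndex M ∣ ((powers ℓ W).relIndex F) ^ Nat.card G

/-- **HRel** (elementary group theory; 40 lines). `P = W^ℓ`, `P' = W'^ℓ`. If every element of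
`F ≤ W'` is `φ e * b ^ ℓ` with `e ∈ E ≤ W`, then `[F : F ∩ P']` divides `[E : E ∩ P]`.

Proof. If `P.relIndex E = 0` nothing to prove. The image of `F` in `W' ⧸ P'` (of order
`P'.relIndex F`) is contained in the image of `φ(E)`, which is a quotient of `E ⧸ (E ∩ P)`, as `φ`
maps `P` into `P'`. All these groups are finite; use `Subgroup.card_dvd_of_le`,
`Subgroup.card_dvd_of_surjective`. -/
def StmtRel : Prop :=
  ∀ (ℓ : ℕ) (W W' : Type u) [CommGroup W] [CommGroup W'] (φ : W →* W') (E : Subgroup W)
    (F : Subgroup W') (_ : ∀ d ∈ F, ∃ e ∈ E, ∃ b : W', d = φ e * b ^ ℓ),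
    (powers ℓ W').relIndex F ∣ (powers ℓ W).relIndex E

/-- **HDesc** (descent by Hilbert 90; 150 lines). Fields `K ⊆ K'`, `L ⊆ L'`, `K ⊆ L`, `K' ⊆ L'`,
`L'/L` and `K'/K` finite Galois, `K` contains a primitive `ℓ`-th root of unity, `n = [L' : K']`
is prime to `ℓ`, `[L : K]` is prime to `[K' : K]`. If `d ∈ L'` has norm `y ^ ℓ` and
`σ d = d * z_σ ^ ℓ` for all `σ` in `Gal(L'/L)`, then `d = d₀ * b ^ ℓ` with `d₀ ∈ L` whose norm to
`K` is an `ℓ`-th power.

Proof. Write `N` for the norm `L' → K'`. For `σ ∈ Gal(L'/L)` let `σ'` be its restriction to `K'`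
(`K'/K` is normal: `(σ.restrictScalars K).restrictNormal K'`); then `N (σ x) = σ' (N x)`
(`Algebra.norm_eq_of_equiv_equiv`). From `N d = y ^ ℓ` and `σ d = d * z ^ ℓ` we get
`(σ' y) ^ ℓ = (y * N z) ^ ℓ`, so `σ' y = y * N z * ε` with `ε ^ ℓ = 1`, so `ε` is (the image of) a
power of `ζ`, and, `n` being prime to `ℓ`, `ε = η ^ n = N η` for some `ℓ`-th root of unity
`η ∈ K`. Replacing `z` by `z * η` we may assume (*) `N z_σ = σ' y / y`. An element `z` with
`z ^ ℓ` and `N z` given is unique: two of them differ by an `ℓ`-th root of unity `η` of `L'`, which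
is in `K` (`ζ` is primitive in the field `L'` too), and `η ^ n = N η = 1`, so `η = 1`. Hence
`z_{στ} = z_σ * σ (z_τ)`: both sides have the same `ℓ`-th power (`σ τ d / d`) and the same norm
(`σ' τ' y / y`). By Hilbert 90 (`groupCohomology.isMulCoboundary₁_of_isMulCocycle₁_of_aut_to_units`
for `L'/L`) there is `b` with `σ b / b = z_σ` for all `σ`. Put `d₁ = d / b ^ ℓ`; it is fixed by
`Gal(L'/L)`, so it is the image of `d₀ ∈ L` (`IsGalois.mem_bot_iff_fixed`/
`IsGalois.fixedField_top`). Put `y₁ = y / N b ∈ K'`; `N d₁ = y₁ ^ ℓ` and, by (*), `σ' y₁ = y₁` for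
all `σ`; so the image of `y₁` in `L'` is fixed by `Gal(L'/L)` and lies in `L ∩ K'`. This is `K`:
for `x` in both, `[K(x) : K]` divides `[L : K]` and `[K' : K]` (`minpoly.degree_dvd`,
`IntermediateField.adjoin.finrank`), so it is `1` and `y₁ = y₀ ∈ K`. Finally by `hnorm`
`N_{L/K} d₀` and `y₀ ^ ℓ` have the same image `N d₁ = y₁ ^ ℓ` in `K'`. -/
def StmtDesc : Prop :=
  ∀ (ℓ : ℕ) (_ : ℓ.Prime) (K K' L L' : Type u) [Field K] [Field K'] [Field L] [Field L']
    [Algebra K K'] [Algebra K L] [Algebra K' L'] [Algebra L L'] [Algebra K L']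
    [IsScalarTower K K' L'] [IsScalarTower K L L'] [FiniteDimensional K K'] [IsGalois K K']
    [FiniteDimensional K L] [FiniteDimensional L L'] [IsGalois L L']
    (_ : (finrank K' L').Coprime ℓ) (_ : (finrank K L).Coprime (finrank K K'))
    (_ : ∀ x : L, Algebra.norm K' (algebraMap L L' x) = algebraMap K K' (Algebra.norm K x))
    (ζ : K) (_ : IsPrimitiveRoot ζ ℓ) (d : L'ˣ) (y : K'ˣ)
    (_ : Algebra.norm K' (d : L') = (y : K') ^ ℓ)
    (_ : ∀ σ : L' ≃ₐ[L] L', ∃ z : L'ˣ, σ (d : L') = (d : L') * (z : L') ^ ℓ),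
    ∃ (d₀ : Lˣ) (b : L'ˣ) (y₀ : Kˣ), (d : L') = algebraMap L L' (d₀ : L) * (b : L') ^ ℓ ∧
      Algebra.norm K (d₀ : L) = (y₀ : K) ^ ℓ

/-- **HNorm** (norm and base change; 50 lines). For `g` monic over the field `K` and an extension
`K'` the norms of `x ∈ K[T]/(g)` and of its image in `K'[T]/(g)` agree.

Proof. In the bases `1, T, ..., T^(n-1)` (`AdjoinRoot.powerBasis'`) the matrices of the
multiplications by `x` and by its image are the same (write `T^j x` in the basis: the remainder of
the division by the monic polynomial `g` commutes with `K → K'`, `Polynomial.modByMonic`,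
`Polynomial.map_modByMonic`), and the norm is the determinant (`Algebra.norm_eq_matrix_det`). Or use
a lemma relating norm and resultant if there is one in Mathlib, or base change of the norm. -/
def StmtNorm : Prop :=
  ∀ (K K' : Type u) [Field K] [Field K'] [Algebra K K'] (g : K[X]) (_ : g.Monic)
    (x : AdjoinRoot g), Algebra.norm K' (branchMap K' g x) = algebraMap K K' (Algebra.norm K x)

/-- **HGal** (Galois theory; 80 lines). `K'/K` finite Galois, `L = K(θ)`, `L' = K'(θ)`,
`[L' : K'] = [L : K]`. Then `L'/L` is finite Galois of degree `[K' : K]`.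

Proof. Degrees: `[L' : L] [L : K] = [L' : K'] [K' : K]` and `[L : K]` is positive. Galois: `K'` is
the splitting field over `K` of a separable polynomial `h ∈ K[X]` (`IsGalois.tfae` or
`IsGalois.is_separable_splitting_field`); then `L'` is the splitting field over `L` of
`h.map (algebraMap K L)`: it splits in `L'` as it splits in `K'`, and the algebra generated over
`L` by the roots contains the image of `K'` (generated over `K` by the roots) and `θ ∈ L`, so it is
everything by `hθ'`. Now `IsGalois.of_separable_splitting_field`. -/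
def StmtGal : Prop :=
  ∀ (K K' L L' : Type u) [Field K] [Field K'] [Field L] [Field L']
    [Algebra K K'] [Algebra K L] [Algebra K' L'] [Algebra L L'] [Algebra K L']
    [IsScalarTower K K' L'] [IsScalarTower K L L'] [FiniteDimensional K K'] [IsGalois K K']
    [FiniteDimensional K L] [FiniteDimensional K' L'] (θ : L)
    (_ : Algebra.adjoin K' {algebraMap L L' θ} = ⊤) (_ : finrank K' L' = finrank K L),
    FiniteDimensional L L' ∧ IsGalois L L' ∧ finrank L L' = finrank K K'

/-- **HIrr** (40 lines). An irreducible polynomial whose degree is prime to `[K' : K]` stays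
irreducible over `K'`.

Proof. Let `h ∣ g.map` be an irreducible factor over `K'`, `L' = K'[T]/(h)`, `θ` its root. Then
`g.natDegree = [K(θ) : K]` divides `[L' : K] = h.natDegree * [K' : K]`, so it divides
`h.natDegree ≤ g.natDegree`; so `h` is associated to `g.map`. -/
def StmtIrr : Prop :=
  ∀ (K K' : Type u) [Field K] [Field K'] [Algebra K K'] [FiniteDimensional K K'] (g : K[X])
    (_ : Irreducible g) (_ : g.natDegree.Coprime (finrank K K')),
    Irreducible (g.map (algebraMap K K'))

/-- **HDed** (Dedekind domains; 40 lines). If `p` is a uniformizer at `𝔮` and `b ∈ 𝔮`, then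
`s b ∈ (p)` for some `s ∉ 𝔮`.

Proof. `p ∈ 𝔮`, `p ∉ 𝔮 ^ 2` (`HeightOneSpectrum.intValuation_le_pow_iff_mem` or similar). So
`(p) = 𝔮 * J` (`Ideal.dvd_span_singleton`), and `J` is not contained in `𝔮`; take `s ∈ J`,
`s ∉ 𝔮`: `s b ∈ J 𝔮 = (p)`. -/
def StmtDed : Prop :=
  ∀ (A : Type u) [CommRing A] [IsDedekindDomain A] (𝔮 : HeightOneSpectrum A) (p : A)
    (_ : 𝔮.intValuation p = exp (-1 : ℤ)) (b : A) (_ : b ∈ 𝔮.asIdeal),
    ∃ s, s ∉ 𝔮.asIdeal ∧ p ∣ s * b

/-- **HVal** (uniqueness of the adic valuation; 60 lines). A valuation `V` of the fraction field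
`F` of the Dedekind domain `A` with values in `ℤᵐ⁰`, which is `≤ 1` on `A`, equal to `1` on
`A` outside `𝔮`, and which takes the value `exp (-1)`, is the `𝔮`-adic valuation.

Proof. Let `p ∈ A` be a uniformizer at `𝔮` (`HeightOneSpectrum.intValuation_exists_uniformizer`).
Every `x ≠ 0` in `F` is `x = p ^ k * a / b` with `k : ℤ` and `a`, `b` in `A` outside `𝔮` (for
instance: write `x = r / s`; for `r ≠ 0` in `A` of valuation `exp (-m)`, there are `s ∉ 𝔮`, `a ∉ 𝔮`
with `s r = p ^ m a`: induction on `m` with the lemma of HDed, which you may prove again, or use a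
Mathlib lemma), and `exp (-k) = 𝔮.valuation F x`. So `V x = V p ^ k`. As `V` takes the value
`exp (-1)` and `V p ≤ 1` we get `V p = exp (-1)`, and `V x = exp (-k) = 𝔮.valuation F x`. -/
def StmtVal : Prop :=
  ∀ (A F : Type u) [CommRing A] [IsDedekindDomain A] [Field F] [Algebra A F]
    [IsFractionRing A F] (𝔮 : HeightOneSpectrum A) (V : Valuation F (WithZero (Multiplicative ℤ)))
    (_ : ∀ a : A, V (algebraMap A F a) ≤ 1)
    (_ : ∀ a : A, a ∉ 𝔮.asIdeal → V (algebraMap A F a) = 1)
    (_ : ∃ x : F, V x = exp (-1 : ℤ)), ∀ x : F, V x = 𝔮.valuation F x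

/-- **HUnif** (a uniformizer; 60 lines). `V` is a valuation of the field `F` with values in
`ℤᵐ⁰` which takes the value `exp (-1)`, `F` is the set of quotients of the ring `A` (mapped to `F`
by `φ`), `V ≤ 1` on `A`, `V (φ p) < 1`, and for every `a` with `V (φ a) < 1` there are `s`, `a'`
with `V (φ s) = 1` and `s a = p a'` in `F`. Then `V (φ p) = exp (-1)`.

Proof. First `φ p ≠ 0`: take `x` with `V x = exp (-1)` and write `x = φ a / φ b`; as
`V (φ b) ≤ 1`, `V (φ a) < 1`, and `φ a ≠ 0`; `φ s φ a = φ p φ a'` gives `φ p ≠ 0`. By strong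
induction on `k` for `V (φ a) = exp (-k)`, `k : ℕ`: there is `m : ℕ` with
`V (φ a) = V (φ p) ^ m` (if `k = 0`, `m = 0`; otherwise `V (φ a) = V (φ p) V (φ a')`, and
`V (φ a') = exp (-k')` with `k' < k`). So the values of `V` on `F` without `0` are the powers
`V (φ p) ^ (m : ℤ)`; `exp (-1)` is one of them, so `log V (φ p)` divides `-1` and is negative. -/
def StmtUnif : Prop :=
  ∀ (A F : Type u) [CommRing A] [Field F] (φ : A →+* F)
    (_ : ∀ x : F, ∃ a b : A, φ b ≠ 0 ∧ x = φ a / φ b)
    (V : Valuation F (WithZero (Multiplicative ℤ))) (_ : ∀ a : A, V (φ a) ≤ 1)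
    (_ : ∃ x : F, V x = exp (-1 : ℤ)) (p : A) (_ : V (φ p) < 1)
    (_ : ∀ a : A, V (φ a) < 1 → ∃ s a' : A, V (φ s) = 1 ∧ φ s * φ a = φ p * φ a'),
    V (φ p) = exp (-1 : ℤ)

/-- **HUnr** (unramified base change; 150 lines; may use HDed). `B = R[T]/(f)` is a Dedekind
domain, `R'` a finite `R`-algebra, `B' = R'[T]/(f)`, `𝔪` a prime of `B'` over the maximal ideal `𝔮`
of `B` and over the prime `v` of `R'`, which is unramified over `R`. Then the ideal `𝔪` is
generated by the uniformizer `p` of `B` at `𝔮`, locally at `𝔪`.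

Proof. Let `A' = Localization.AtPrime 𝔪`, an algebra over `R'`, over `R'_v`, over `B` and over
`B_𝔮`.
(1) `A'` is formally unramified over `B`: let `D : A' → Ω[A'⁄B]` be the universal derivation. The
composite `R'_v → A' → Ω[A'⁄B]` is an `R`-derivation, so it is zero, as `R'_v` is formally
unramified over `R` (`Algebra.FormallyUnramified.iff_subsingleton_kaehlerDifferential` and
`Derivation.liftKaehlerDifferential`). So `D` vanishes on the image of `R'`, and on the image of
`B`, so on the image of `B'`, which is generated by them (the root of `B'` comes from `B`). If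
`s a = b` with `s`, `b` in the image of `B'`, `s` a unit of `A'`, then `s D a = 0`, `D a = 0`. So
`Ω[A'⁄B]`, generated by the `D a` (`KaehlerDifferential.span_range_derivation`), is zero.
Alternatively: `Algebra.FormallyUnramified` is stable under base change (`B ⊗[R] R'_v` over `B`),
composition and localization.
(2) `A'` is formally unramified over `B_𝔮` (`Algebra.FormallyUnramified.of_restrictScalars`), and
essentially of finite type (`B'` is a finite `B`-algebra as `R'` is a finite `R`-algebra), and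
`B_𝔮 → A'` is local. So `Algebra.FormallyUnramified.map_maximalIdeal`: `𝔪 A' = 𝔮 A'`.
(3) `𝔮 B_𝔮 = p B_𝔮` (StmtDed). So `𝔪 A' = p A'`, and for `b ∈ 𝔪` we get `b / 1 = p (a / t)`, that
is `s b ∈ p B'` with `s ∉ 𝔪`. -/
def StmtUnr : Prop :=
  ∀ (R R' : Type u) [CommRing R] [CommRing R'] [Algebra R R'] [Module.Finite R R'] (f : R[X])
    (_ : f.Monic) [IsDedekindDomain (AdjoinRoot f)] (𝔮 : HeightOneSpectrum (AdjoinRoot f))
    (𝔪 : Ideal (AdjoinRoot (f.map (algebraMap R R')))) [𝔪.IsPrime]
    (_ : 𝔪.comap (branchMap R' f) = 𝔮.asIdeal) (v : Ideal R') [v.IsPrime]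
    (_ : 𝔪.comap (AdjoinRoot.of (f.map (algebraMap R R'))) = v) [Algebra.IsUnramifiedAt R v]
    (p : AdjoinRoot f) (_ : 𝔮.intValuation p = exp (-1 : ℤ))
    (b : AdjoinRoot (f.map (algebraMap R R'))) (_ : b ∈ 𝔪),
    ∃ s, s ∉ 𝔪 ∧ branchMap R' f p ∣ s * b

/-- **HSolo** (norms at a prime with a single prime above it; 120 lines). `B/R` integral
extension of Dedekind domains with fraction fields `L/K` finite of degree `n` prime to `ℓ`, `𝔮` the
only prime of `B` over `v`. If the norm of `x ∈ L` has `v`-valuation divisible by `ℓ`, then the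
`𝔮`-valuation of `x` is divisible by `ℓ`.

Proof. Write `v(z) = log (v.valuation K z)`, `w(z) = log (𝔮.valuation L z)`.
Claim: `w(y) ≤ 0` implies `v(N y) ≤ 0` for `y ≠ 0`. The ideal `I = {b ∈ B : b y ∈ B}` is not
contained in `𝔮`: write `y = a / c`, `(c) = 𝔮 ^ m J` with `J` not in `𝔮`, take `s ∈ J`, `s ∉ 𝔮`;
then `a ∈ 𝔮 ^ m`, `s a ∈ 𝔮 ^ m J = (c)`, so `s y ∈ B` (or induction with the lemma of HDed). By
`Ideal.exists_ideal_over_prime_of_isIntegral` (if `I ∩ R ⊆ v`, there would be a prime `Q ⊇ I` of
`B` over `v`, nonzero, so `Q = 𝔮` by uniqueness) there is `s ∈ R`, `s ∉ v`, with `s y ∈ B`. Then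
`N (s y) = s ^ n N y` is integral over `R` (`Algebra.isIntegral_norm`), so it is in `R`, and
`v(N y) = v(s ^ n N y) ≤ 0`. Applied to `y` and `1 / y`: `w(y) = 0` implies `v(N y) = 0`.
Now let `π ∈ K` with `v(π) = -1`, `e = - w(π)`, `a = w(x)`, `y = x ^ e * π ^ a`; then
`w(y) = e a - e a = 0`, so `0 = v(N y) = e v(N x) - n a`, so `ℓ ∣ n a` and `ℓ ∣ a`. -/
def StmtSolo : Prop :=
  ∀ (R K B L : Type u) [CommRing R] [IsDedekindDomain R] [Field K] [Algebra R K]
    [IsFractionRing R K] [CommRing B] [IsDedekindDomain B] [Field L] [Algebra B L]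
    [IsFractionRing B L] [Algebra R B] [Algebra K L] [Algebra R L] [IsScalarTower R B L]
    [IsScalarTower R K L] [Algebra.IsIntegral R B] [FiniteDimensional K L]
    (v : HeightOneSpectrum R) (𝔮 : HeightOneSpectrum B)
    (_ : 𝔮.asIdeal.comap (algebraMap R B) = v.asIdeal)
    (_ : ∀ 𝔮₂ : HeightOneSpectrum B, 𝔮₂.asIdeal.comap (algebraMap R B) = v.asIdeal → 𝔮₂ = 𝔮)
    (ℓ : ℕ) (_ : (finrank K L).Coprime ℓ) (x : Lˣ)
    (_ : (ℓ : ℤ) ∣ log (v.valuation K (Algebra.norm K (x : L)))),
    (ℓ : ℤ) ∣ log (𝔮.valuation L (x : L))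

/-- **HSig** (automorphisms permute the primes; 60 lines; uses StmtVal). `C` is the integral
closure of `B` in the field `L'`, `σ` an automorphism of `L'` over `B`.

Proof. `σ` and its inverse preserve `C` (`IsIntegral.map`). Let `𝔮''` be the preimage of `𝔮'` under
the restriction of `σ` to `C` (for example `MulSemiringAction`/`IsIntegralClosure.equiv`, or the
ideal of the `c` with `σ c ∈ 𝔮'`, defined with `IsIntegralClosure.mk'`). It is a nonzero prime with
the same intersection with `B`. The valuation `x ↦ 𝔮'.valuation L' (σ x)` is `≤ 1` on `C`, is `1`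
on `C` outside `𝔮''`, and takes the value `exp (-1)`: apply StmtVal. -/
def StmtSig : Prop :=
  ∀ (B C L' : Type u) [CommRing B] [CommRing C] [IsDedekindDomain C] [Field L'] [Algebra B C]
    [Algebra B L'] [Algebra C L'] [IsScalarTower B C L'] [IsFractionRing C L']
    [IsIntegralClosure C B L'] (σ : L' ≃ₐ[B] L') (𝔮' : HeightOneSpectrum C),
    ∃ 𝔮'' : HeightOneSpectrum C, 𝔮''.asIdeal.comap (algebraMap B C) =
      𝔮'.asIdeal.comap (algebraMap B C) ∧
      ∀ x : L', 𝔮'.valuation L' (σ x) = 𝔮''.valuation L' x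

/-- **HCount** (class group and units; 150 lines; may use the lemmas of the imported file
GIdeal.lean: `ellSubgroup`, `rootClass`, `exists_unit_mul_pow_of_rootClass`). `B` is a Dedekind
domain with fraction field `L`, `R → B` and `K → L`, `n = [L : K]` is prime to `ℓ`; `E` is the
group of the `d ∈ Lˣ` all of whose `𝔮`-adic valuations are divisible by `ℓ` and whose norm to `K`
is an `ℓ`-th power. Then `[E : E ∩ P]`, `P = L^ℓ`, divides the product of the order of the
`ℓ`-torsion of the class group of `B` and of the index of `Rˣ (Bˣ)^ℓ` in `Bˣ`.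

Proof. Let `E₁ ≤ E` be the subgroup of the `d = u z ^ ℓ` with `u ∈ Bˣ`, `z ∈ Lˣ`. The restriction
of `rootClass` to `E` has kernel in `E₁`, so `E₁.relIndex E` divides the order of the `ℓ`-torsion
(`Subgroup.relIndex_dvd_of_le_left`, `MonoidHom.ker`, `Subgroup.index_ker`,
`Subgroup.card_subgroup_dvd_card`). And `P.relIndex E = (P ⊓ E₁ ...)`: `P ⊓ E ≤ E₁ ≤ E` and
`Subgroup.relIndex_mul_relIndex`. Let `U = {u ∈ Bˣ : u ∈ E}`. Every element of `E₁` is in
`U * P` (if `u z ^ ℓ ∈ E` then `u ∈ E` as `ℓ`-th powers are in `E`), so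
`P.relIndex E₁ = P.relIndex (image of U)` divides the index in `U` of `U ∩ Rˣ (Bˣ)^ℓ`, because an
element `r v ^ ℓ` of `U`, `r ∈ Rˣ`, `v ∈ Bˣ`, is in `P`: its norm `r ^ n N(v) ^ ℓ` is an `ℓ`-th
power in `K`, so `r ^ n` is, and so is `r` (`n` is prime to `ℓ`: `r = (r ^ n) ^ a (r ^ ℓ) ^ b`).
This index divides the index of `Rˣ (Bˣ)^ℓ` in `Bˣ`. If one of the numbers is infinite (`0` in
Lean) the right side is `0`. -/
def StmtCount : Prop :=
  ∀ (ℓ : ℕ) (_ : ℓ.Prime) (R K B L : Type u) [CommRing R] [Field K] [Algebra R K]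
    [CommRing B] [IsDedekindDomain B] [Field L] [Algebra B L] [IsFractionRing B L] [Algebra R B]
    [Algebra K L] [Algebra R L] [IsScalarTower R B L] [IsScalarTower R K L]
    [FiniteDimensional K L] (_ : (finrank K L).Coprime ℓ),
    (powers ℓ Lˣ).relIndex (ellSubgroup B L ℓ ⊓
        (powers ℓ Kˣ).comap (Units.map (Algebra.norm K : L →* K))) ∣
      Nat.card (powMonoidHom ℓ : ClassGroup B →* ClassGroup B).ker *
        ((Units.map (algebraMap R B : R →* B)).range ⊔ powers ℓ Bˣ).index

/-- **HFrac** (60 lines). `R` integrally closed with fraction field `K`, `f ∈ R[T]` monic,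
`B = R[T]/(f)` a domain. Then `f` is irreducible over `K` and `K[T]/(f)` is the fraction field of
`B`.

Proof. `f` is prime in `R[T]` (`AdjoinRoot f` is a domain), so irreducible, so irreducible over `K`
(`Polynomial.Monic.irreducible_iff_irreducible_map_fraction_map`). The map from `B` to `K[T]/(f)` is
injective: if `f` divides `p` over `K` it does over `R` as it is monic (`Polynomial.map_dvd_map`).
Every element of `K[T]/(f)` is the class of `p / c` with `p ∈ R[T]`, `c ∈ R` nonzero
(`IsLocalization.integerNormalization`). So `IsFractionRing.of_field` or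
`IsLocalization` by hand. -/
def StmtFrac : Prop :=
  ∀ (R K : Type u) [CommRing R] [IsDomain R] [IsIntegrallyClosed R] [Field K] [Algebra R K]
    [IsFractionRing R K] (f : R[X]) (_ : f.Monic) [IsDomain (AdjoinRoot f)],
    Irreducible (f.map (algebraMap R K)) ∧
      ∀ [Algebra (AdjoinRoot f) (AdjoinRoot (f.map (algebraMap R K)))]
        (_ : algebraMap (AdjoinRoot f) (AdjoinRoot (f.map (algebraMap R K))) = branchMap K f),
        IsFractionRing (AdjoinRoot f) (AdjoinRoot (f.map (algebraMap R K)))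

/-- **HIso** (60 lines). For `R = F[t]` and `f = f₀(T) - t` the ring `B = R[T]/(f)` is the
polynomial ring `F[x]`, with `T ↦ x`, `t ↦ f₀(x)`.

Proof. `AdjoinRoot.lift` of the homomorphism `a ↦ a.comp f₀` from `F[X]` to `F[X]`
(`Polynomial.compRingHom`) and the element `X`: the equation is `f₀(X) - f₀ = 0`. The inverse is
the evaluation at the root; check both composites on generators
(`AdjoinRoot.ringHom_ext`/`Polynomial.ringHom_ext`). -/
def StmtIso : Prop :=
  ∀ (F : Type u) [Field F] (f₀ : F[X]),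
    ∃ e : AdjoinRoot (f₀.map (C : F →+* F[X]) - C X) ≃+* F[X],
      e (AdjoinRoot.root _) = X ∧ ∀ a : F[X], e (AdjoinRoot.of _ a) = a.comp f₀

/-- **HOne** (120 lines; uses StmtIso). For `f = f₀(T) - t` over `R = F[t]`: `B = R[T]/(f)` is a
Dedekind domain, its class group and the group `Bˣ / (Rˣ (Bˣ)^ℓ)` are trivial, and a prime `v` of
`F[t]` which contains some `P` such that `P (f₀(x))` divides a power of an irreducible polynomial
has at most one prime of `B` above it.

Proof. Transport by the isomorphism `e` of StmtIso. `F[X]` is a principal ideal domain, so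
`B` is (`IsPrincipalIdealRing.of_surjective`), so its class group is trivial
(`card_classGroup_eq_one` or `ClassGroup` subsingleton); the units of `F[X]` are
the nonzero constants (`Polynomial.isUnit_iff`), images of constants of `R`. If `𝔮₁`, `𝔮₂` lie
over `v`, then their images under `e` contain `P.comp f₀`, so they contain `Q`; as `(Q)` is maximal
(`Q` irreducible in a principal ideal domain) they are both equal to `(Q)`. -/
def StmtOne : Prop :=
  ∀ (F : Type u) [Field F] (f₀ : F[X]),
    IsDedekindDomain (AdjoinRoot (f₀.map (C : F →+* F[X]) - C X)) ∧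
    ∀ [IsDedekindDomain (AdjoinRoot (f₀.map (C : F →+* F[X]) - C X))],
    (∀ ℓ : ℕ, Nat.card (powMonoidHom ℓ :
          ClassGroup (AdjoinRoot (f₀.map (C : F →+* F[X]) - C X)) →* _).ker *
        ((Units.map (algebraMap F[X] (AdjoinRoot (f₀.map (C : F →+* F[X]) - C X)) :
          F[X] →* _)).range ⊔ powers ℓ (AdjoinRoot (f₀.map (C : F →+* F[X]) - C X))ˣ).index = 1) ∧
    ∀ (v : Ideal F[X]) (P Q : F[X]) (k : ℕ) (_ : P ∈ v) (_ : Irreducible Q)
      (_ : P.comp f₀ ∣ Q ^ k)
      (𝔮₁ 𝔮₂ : HeightOneSpectrum (AdjoinRoot (f₀.map (C : F →+* F[X]) - C X)))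
      (_ : 𝔮₁.asIdeal.comap (algebraMap F[X] _) = v)
      (_ : 𝔮₂.asIdeal.comap (algebraMap F[X] _) = v), 𝔮₁ = 𝔮₂

end MP72e2e6
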