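import Pool.Agent.Lib.MP_72e2e6_nt.HStmt

/-!
# MP_72e2e6_nt: a uniformizer
-/

namespace MP72e2e6

open Polynomial IsDedekindDomain WithZero Module

universe u

theorem tUnif : StmtUnif.{u} := by
  intro A F _ _ φ hquot V hle hex p hp h
  obtain ⟨x, hx⟩ := hex
  obtain ⟨a₀, b₀, hb₀, hxab⟩ := hquot x
  have hV0 : ∀ y : F, y ≠ 0 → V y ≠ 0 := fun y hy => (Valuation.ne_zero_iff V).2 hy
  have hx0 : x ≠ 0 := by
    rintro rfl
    rw [map_zero] at hx
    exact exp_ne_zero hx.symm
  have ha₀ : φ a₀ ≠ 0 := by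
    intro h0
    rw [h0, zero_div] at hxab
    exact hx0 hxab
  have hVa₀ : V (φ a₀) < 1 := by
    have h1 : V (φ a₀) = exp (-1 : ℤ) * V (φ b₀) := by
      rw [← hx, hxab, map_div₀, div_mul_cancel₀ _ (hV0 _ hb₀)]
    rw [h1]
    calc exp (-1 : ℤ) * V (φ b₀) ≤ exp (-1 : ℤ) * 1 := mul_le_mul_right (hle b₀) _
      _ = exp (-1 : ℤ) := mul_one _
      _ < 1 := by
        rw [← exp_zero, exp_lt_exp]
        norm_num
  have hφp : φ p ≠ 0 := by
    intro h0
    obtain ⟨s, a', hs, hsa⟩ := h a₀ hVa₀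
    rw [h0, zero_mul] at hsa
    have hs0 : φ s ≠ 0 := by
      intro h2
      rw [h2, map_zero] at hs
      exact zero_ne_one hs
    exact (mul_ne_zero hs0 ha₀) hsa
  set j : ℤ := -log (V (φ p)) with hj
  have hjp : V (φ p) = exp (-j) := by
    rw [hj, neg_neg, exp_log (hV0 _ hφp)]
  have hj1 : 0 < j := by
    have h1 : log (V (φ p)) < 0 := by
      have h2 := (log_lt_log (hV0 _ hφp) one_ne_zero).2 hp
      rwa [log_one] at h2
    omega
  have key : ∀ k : ℕ, ∀ a : A, V (φ a) = exp (-(k : ℤ)) → ∃ m : ℕ, V (φ a) = V (φ p) ^ m := by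
    intro k
    induction k using Nat.strong_induction_on with
    | _ k ih =>
      intro a ha
      rcases Nat.eq_zero_or_pos k with rfl | hk
      · refine ⟨0, ?_⟩
        rw [ha, pow_zero]
        simp
      · have hlt : V (φ a) < 1 := by
          rw [ha, ← exp_zero, exp_lt_exp]
          omega
        obtain ⟨s, a', hs, hsa⟩ := h a hlt
        have h1 := congrArg V hsa
        rw [map_mul, map_mul, hs, one_mul] at h1
        have h0 : V (φ a') ≠ 0 := by
          intro h0
          rw [h0, mul_zero, ha] at h1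
          exact exp_ne_zero h1
        have h2 : log (V (φ a')) = j - k := by
          have h3 := congrArg log h1
          rw [ha, log_mul (hV0 _ hφp) h0, hjp, log_exp, log_exp] at h3
          omega
        have h4 : log (V (φ a')) ≤ 0 := by
          have h5 := (log_le_log h0 one_ne_zero).2 (hle a')
          rwa [log_one] at h5
        obtain ⟨m, hm⟩ := ih (k - j).toNat (by omega) a' (by
          rw [← exp_log h0, h2]
          congr 1
          omega)
        exact ⟨m + 1, by rw [h1, hm, pow_succ, mul_comm]⟩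
  have key2 : ∀ a : A, φ a ≠ 0 → ∃ m : ℕ, V (φ a) = V (φ p) ^ m := by
    intro a ha
    have h1 : log (V (φ a)) ≤ 0 := by
      have h5 := (log_le_log (hV0 _ ha) one_ne_zero).2 (hle a)
      rwa [log_one] at h5
    refine key (-log (V (φ a))).toNat a ?_
    conv_lhs => rw [← exp_log (hV0 _ ha)]
    congr 1
    omega
  obtain ⟨m, hm⟩ := key2 a₀ ha₀
  obtain ⟨n, hn⟩ := key2 b₀ hb₀
  have h1 : (m : ℤ) * (-j) - n * (-j) = -1 := by
    have h2 := congrArg log hx
    rw [hxab, map_div₀, log_div (hV0 _ ha₀) (hV0 _ hb₀), hm, hn, log_pow, log_pow, hjp, log_exp,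
      log_exp] at h2
    simpa using h2
  have h3 : j ∣ 1 := ⟨m - n, by linarith⟩
  have h4 : j = 1 := by
    have := Int.le_of_dvd one_pos h3
    omega
  rw [hjp, h4]

end MP72e2e6
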