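import Pool.Agent.Lib.MP_72e2e6_nt.HStmt

/-!
# MP_72e2e6_nt: unramified base change
-/

namespace MP72e2e6

open Polynomial IsDedekindDomain WithZero Module

universe u

theorem unr_baseChange {R R' B B' : Type u} [CommRing R] [CommRing R'] [CommRing B] [CommRing B']
    [Algebra R R'] [Algebra R B] [Algebra R' B'] [Algebra B B'] [Algebra R B']
    [IsScalarTower R R' B'] [IsScalarTower R B B'] (𝔪 : Ideal B') [𝔪.IsPrime] (v : Ideal R')
    [v.IsPrime] (hv : v = 𝔪.comap (IsScalarTower.toAlgHom R R' B'))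
    [Algebra.IsUnramifiedAt R v]
    (hgen : ∀ (C : Type u) [CommRing C] (g₁ g₂ : B' →+* C),
      g₁.comp (algebraMap R' B') = g₂.comp (algebraMap R' B') →
      g₁.comp (algebraMap B B') = g₂.comp (algebraMap B B') → g₁ = g₂) :
    Algebra.IsUnramifiedAt B 𝔪 := by
  change Algebra.FormallyUnramified B (Localization.AtPrime 𝔪)
  rw [Algebra.FormallyUnramified.iff_comp_injective]
  intro C _ _ I hI g₁ g₂ e
  let _ : Algebra R C := ((algebraMap B C).comp (algebraMap R B)).toAlgebra
  have _ : IsScalarTower R B C := IsScalarTower.of_algebraMap_eq' rfl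
  let f₀ : Localization.AtPrime v →ₐ[R] Localization.AtPrime 𝔪 :=
    Localization.localAlgHom v 𝔪 (IsScalarTower.toAlgHom R R' B') hv
  have h1 : (g₁.restrictScalars R).comp f₀ = (g₂.restrictScalars R).comp f₀ := by
    refine Algebra.FormallyUnramified.ext I ⟨2, hI⟩ fun x => ?_
    exact AlgHom.congr_fun e (f₀ x)
  apply AlgHom.coe_ringHom_injective
  refine IsLocalization.ringHom_ext 𝔪.primeCompl ?_
  apply hgen
  · ext r
    have h2 := AlgHom.congr_fun h1 (algebraMap R' _ r)
    have h3 : f₀ (algebraMap R' _ r) = algebraMap B' _ (algebraMap R' B' r) :=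
      Localization.localRingHom_to_map v 𝔪 (IsScalarTower.toAlgHom R R' B').toRingHom hv r
    simp only [AlgHom.comp_apply, h3] at h2
    exact h2
  · ext c
    have h4 : algebraMap B' (Localization.AtPrime 𝔪) (algebraMap B B' c) =
        algebraMap B (Localization.AtPrime 𝔪) c :=
      (IsScalarTower.algebraMap_apply B B' (Localization.AtPrime 𝔪) c).symm
    change g₁ (algebraMap B' (Localization.AtPrime 𝔪) (algebraMap B B' c)) =
      g₂ (algebraMap B' (Localization.AtPrime 𝔪) (algebraMap B B' c))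
    rw [h4, g₁.commutes, g₂.commutes]

theorem tUnr (h : StmtDed.{u}) : StmtUnr.{u} := by
  intro R R' _ _ _ _ f hf _ 𝔮 𝔪 _ hq v _ hv _ p hp b hb
  let B := AdjoinRoot f
  let B' := AdjoinRoot (f.map (algebraMap R R'))
  let algB : Algebra B B' := (branchMap R' f).toAlgebra
  have halg : ∀ c : B, algebraMap B B' c = branchMap R' f c := fun _ => rfl
  have hroot : algebraMap B B' (AdjoinRoot.root f) = AdjoinRoot.root _ := by
    rw [halg, branchMap, AdjoinRoot.map_root]
  have hof : ∀ r : R, algebraMap B B' (AdjoinRoot.of f r) =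
      AdjoinRoot.of _ (algebraMap R R' r) := by
    intro r
    rw [halg, branchMap, AdjoinRoot.map_of]
  have tow : IsScalarTower R B B' := IsScalarTower.of_algebraMap_eq fun r => (hof r).symm
  have hunr : Algebra.IsUnramifiedAt B 𝔪 := by
    refine unr_baseChange (R := R) (R' := R') (B := B) (B' := B') 𝔪 v hv.symm ?_
    intro C _ g₁ g₂ h1 h2
    refine AdjoinRoot.ringHom_ext h1 ?_
    have h3 := RingHom.congr_fun h2 (AdjoinRoot.root f)
    simp only [RingHom.comp_apply, hroot] at h3
    exact h3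
  have hfin1 : Algebra.FiniteType R' B' := by
    refine Algebra.FiniteType.of_surjective (A := R'[X])
      (AdjoinRoot.mkₐ (f.map (algebraMap R R'))) AdjoinRoot.mk_surjective
  have hfin2 : Algebra.FiniteType R B' := Algebra.FiniteType.trans (S := R') inferInstance hfin1
  have hfin : Algebra.FiniteType B B' := Algebra.FiniteType.of_restrictScalars_finiteType R B B'
  have hover : 𝔪.LiesOver 𝔮.asIdeal := ⟨hq.symm⟩
  have hqp : 𝔮.asIdeal.IsPrime := 𝔮.isPrime
  let algL : Algebra (Localization.AtPrime 𝔮.asIdeal) (Localization.AtPrime 𝔪) :=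
    Localization.AtPrime.algebraOfLiesOver 𝔮.asIdeal 𝔪
  have key := ((Algebra.isUnramifiedAt_iff_map_eq B 𝔮.asIdeal 𝔪).1 hunr).2
  -- the maximal ideal is generated by `p`
  have hle : 𝔮.asIdeal.map (algebraMap B (Localization.AtPrime 𝔪)) ≤
      Ideal.span {algebraMap B (Localization.AtPrime 𝔪) p} := by
    rw [Ideal.map_le_iff_le_comap]
    intro c hc
    obtain ⟨s, hs, hps⟩ := h B 𝔮 p hp c hc
    rw [Ideal.mem_comap, Ideal.mem_span_singleton]
    have hu : IsUnit (algebraMap B (Localization.AtPrime 𝔪) s) := by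
      rw [IsScalarTower.algebraMap_apply B B' (Localization.AtPrime 𝔪)]
      refine IsLocalization.map_units (M := 𝔪.primeCompl) _ ⟨algebraMap B B' s, ?_⟩
      intro hm
      apply hs
      rw [← hq]
      exact hm
    have h5 := map_dvd (algebraMap B (Localization.AtPrime 𝔪)) hps
    rw [map_mul] at h5
    exact (IsUnit.dvd_mul_left hu).1 h5
  have hb1 : algebraMap B' (Localization.AtPrime 𝔪) b ∈
      IsLocalRing.maximalIdeal (Localization.AtPrime 𝔪) := by
    rw [← Localization.AtPrime.map_eq_maximalIdeal]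
    exact Ideal.mem_map_of_mem _ hb
  rw [← key] at hb1
  have hb2 := hle hb1
  rw [Ideal.mem_span_singleton] at hb2
  obtain ⟨a, ha⟩ := hb2
  obtain ⟨⟨a', t⟩, hat⟩ := IsLocalization.surj 𝔪.primeCompl a
  simp only at hat
  have h6 : algebraMap B' (Localization.AtPrime 𝔪) (t * b) =
      algebraMap B' (Localization.AtPrime 𝔪) (branchMap R' f p * a') := by
    rw [map_mul, map_mul, ha, ← hat, ← halg,
      ← IsScalarTower.algebraMap_apply B B' (Localization.AtPrime 𝔪)]
    ring
  obtain ⟨u, hu⟩ := (IsLocalization.eq_iff_exists 𝔪.primeCompl _).1 h6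
  refine ⟨u * t, ?_, ?_⟩
  · exact (u * t).2
  · refine ⟨u * a', ?_⟩
    rw [mul_assoc, hu]
    ring

end MP72e2e6
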