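import Pool.Agent.Lib.MP_72e2e6_nt.HPl
import Pool.Agent.Lib.MP_72e2e6_nt.HStmt
import Pool.Agent.Lib.MP_72e2e6_nt.HDed
import Pool.Agent.Lib.MP_72e2e6_nt.HUnif
import Pool.Agent.Lib.MP_72e2e6_nt.HUnr

/-!
# MP_72e2e6_nt: the Selmer group at the unramified primes
-/

namespace MP72e2e6

open IsDedekindDomain WithZero Polynomial

universe u

section unr

variable {R R' L' C : Type u} [CommRing R] [CommRing R'] [Algebra R R']
  [CommRing C] [Algebra R' C] (f : R[X])
  [Algebra (AdjoinRoot f) C] [Algebra R C] [IsScalarTower R (AdjoinRoot f) C] [IsScalarTower R R' C]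

omit [CommRing R'] [Algebra R R'] [Algebra R' C] [IsScalarTower R R' C] in
theorem aeval_root_eq (g : R[X]) : aeval (algebraMap (AdjoinRoot f) C (AdjoinRoot.root f)) g =
    algebraMap (AdjoinRoot f) C (AdjoinRoot.mk f g) := by
  rw [aeval_algebraMap_apply, AdjoinRoot.aeval_eq]

theorem eval_root_eq_zero : (f.map (algebraMap R R')).eval₂ (algebraMap R' C)
    (algebraMap (AdjoinRoot f) C (AdjoinRoot.root f)) = 0 := by
  rw [eval₂_map, ← IsScalarTower.algebraMap_eq R R' C, ← aeval_def, aeval_root_eq,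
    AdjoinRoot.mk_self, map_zero]

variable (R' C) in
/-- the map from `R'[T]/(f)` to `C` -/
noncomputable def towerHom : AdjoinRoot (f.map (algebraMap R R')) →+* C :=
  AdjoinRoot.lift (algebraMap R' C) (algebraMap (AdjoinRoot f) C (AdjoinRoot.root f))
    (eval_root_eq_zero f)

theorem towerHom_of (r : R') : towerHom R' C f (AdjoinRoot.of _ r) = algebraMap R' C r :=
  AdjoinRoot.lift_of _

theorem towerHom_branchMap (x : AdjoinRoot f) :
    towerHom R' C f (branchMap R' f x) = algebraMap (AdjoinRoot f) C x := by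
  have h1 : (towerHom R' C f).comp (branchMap R' f) = algebraMap (AdjoinRoot f) C := by
    apply AdjoinRoot.ringHom_ext
    · apply RingHom.ext
      intro r
      rw [RingHom.comp_apply, RingHom.comp_apply, RingHom.comp_apply, branchMap,
        AdjoinRoot.map_of, towerHom_of, ← IsScalarTower.algebraMap_apply,
        ← AdjoinRoot.algebraMap_eq, ← IsScalarTower.algebraMap_apply]
    · rw [RingHom.comp_apply, branchMap, AdjoinRoot.map_root]
      exact AdjoinRoot.lift_root _
  exact congrArg (fun F : _ →+* _ => F x) h1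

theorem towerHom_mk (g : R'[X]) : towerHom R' C f (AdjoinRoot.mk _ g) =
    aeval (algebraMap (AdjoinRoot f) C (AdjoinRoot.root f)) g :=
  AdjoinRoot.lift_mk _ g

end unr

section unr2

variable {R R' K' L' C : Type u} [CommRing R] [CommRing R'] [IsDedekindDomain R'] [Algebra R R']
  [Module.Finite R R'] [Field K'] [Algebra R' K'] [IsFractionRing R' K']
  [CommRing C] [IsDedekindDomain C] [Field L'] [Algebra C L'] [IsFractionRing C L']
  [Algebra R' C] [Module.IsTorsionFree R' C] [Algebra K' L'] [Algebra R' L']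
  [IsScalarTower R' C L'] [IsScalarTower R' K' L'] (f : R[X]) [IsDedekindDomain (AdjoinRoot f)]
  [Algebra (AdjoinRoot f) C] [Algebra R C] [IsScalarTower R (AdjoinRoot f) C]
  [IsScalarTower R R' C]

omit [IsDedekindDomain R'] [Field K'] [Algebra R' K'] [IsFractionRing R' K']
  [Module.IsTorsionFree R' C] [Algebra K' L'] [Algebra R' L'] [IsScalarTower R' C L']
  [IsScalarTower R' K' L'] in
/-- the local structure at an unramified prime -/
theorem unr_structure (hf : f.Monic)
    (hgen : ∀ x : L', ∃ a b : AdjoinRoot (f.map (algebraMap R R')),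
      algebraMap C L' (towerHom R' C f b) ≠ 0 ∧
      x = algebraMap C L' (towerHom R' C f a) / algebraMap C L' (towerHom R' C f b))
    (𝔮' : HeightOneSpectrum C) (𝔮 : HeightOneSpectrum (AdjoinRoot f))
    (h𝔮 : 𝔮'.asIdeal.comap (algebraMap (AdjoinRoot f) C) = 𝔮.asIdeal) (v : Ideal R') [v.IsPrime]
    (hv : 𝔮'.asIdeal.comap (algebraMap R' C) = v) [Algebra.IsUnramifiedAt R v] (p : R[X])
    (hp : 𝔮.intValuation (AdjoinRoot.mk f p) = exp (-1 : ℤ)) :
    𝔮'.intValuation (algebraMap (AdjoinRoot f) C (AdjoinRoot.mk f p)) = exp (-1 : ℤ) ∧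
    ∀ g : R'[X], aeval (algebraMap (AdjoinRoot f) C (AdjoinRoot.root f)) g ∈ 𝔮'.asIdeal →
      ∃ s : R'[X], aeval (algebraMap (AdjoinRoot f) C (AdjoinRoot.root f)) s ∉ 𝔮'.asIdeal ∧
        s * g ∈ Ideal.span {p.map (algebraMap R R'), f.map (algebraMap R R')} := by
  have hm1 : (𝔮'.asIdeal.comap (towerHom R' C f)).comap (branchMap R' f) = 𝔮.asIdeal := by
    ext x
    rw [← h𝔮, Ideal.mem_comap, Ideal.mem_comap, Ideal.mem_comap, towerHom_branchMap]
  have hm2 : (𝔮'.asIdeal.comap (towerHom R' C f)).comap (AdjoinRoot.of _) = v := by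
    ext x
    rw [← hv, Ideal.mem_comap, Ideal.mem_comap, Ideal.mem_comap, towerHom_of]
  have hprime : (𝔮'.asIdeal.comap (towerHom R' C f)).IsPrime := Ideal.IsPrime.comap _
  have hunr := fun b hb => tUnr.{u} tDed.{u} R R' f hf 𝔮 (𝔮'.asIdeal.comap (towerHom R' C f)) hm1
    v hm2 (AdjoinRoot.mk f p) hp b hb
  have hlt : ∀ a : AdjoinRoot (f.map (algebraMap R R')),
      𝔮'.valuation L' (algebraMap C L' (towerHom R' C f a)) < 1 ↔
        a ∈ 𝔮'.asIdeal.comap (towerHom R' C f) := fun a =>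
    HeightOneSpectrum.valuation_lt_one_iff_mem 𝔮' _
  have hle : ∀ a : AdjoinRoot (f.map (algebraMap R R')),
      𝔮'.valuation L' (algebraMap C L' (towerHom R' C f a)) ≤ 1 := fun a =>
    HeightOneSpectrum.valuation_le_one 𝔮' _
  have hpmem : branchMap R' f (AdjoinRoot.mk f p) ∈ 𝔮'.asIdeal.comap (towerHom R' C f) := by
    rw [← Ideal.mem_comap, hm1, ← HeightOneSpectrum.intValuation_lt_one_iff_mem, hp]
    exact exp_lt_exp.2 (by norm_num)
  constructor
  · have h1 := tUnif.{u} (AdjoinRoot (f.map (algebraMap R R'))) L'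
      ((algebraMap C L').comp (towerHom R' C f)) hgen (𝔮'.valuation L') hle
      (𝔮'.valuation_exists_uniformizer L') (branchMap R' f (AdjoinRoot.mk f p))
      ((hlt _).2 hpmem) (by
        intro a ha
        obtain ⟨s, hs, a', ha'⟩ := hunr a ((hlt a).1 ha)
        refine ⟨s, a', le_antisymm (hle s) (not_lt.1 fun h => hs ((hlt s).1 h)), ?_⟩
        rw [← map_mul, ← map_mul, ha'])
    rw [RingHom.comp_apply, towerHom_branchMap, HeightOneSpectrum.valuation_of_algebraMap] at h1
    exact h1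
  · intro g hg
    obtain ⟨s, hs, a', ha'⟩ := hunr (AdjoinRoot.mk _ g) (by
      rw [Ideal.mem_comap, towerHom_mk]
      exact hg)
    obtain ⟨s, rfl⟩ := AdjoinRoot.mk_surjective s
    obtain ⟨a', rfl⟩ := AdjoinRoot.mk_surjective a'
    rw [Ideal.mem_comap, towerHom_mk] at hs
    refine ⟨s, hs, ?_⟩
    rw [branchMap, AdjoinRoot.map, AdjoinRoot.lift_mk] at ha'
    have h2 : p.eval₂ ((AdjoinRoot.of (f.map (algebraMap R R'))).comp (algebraMap R R'))
        (AdjoinRoot.root (f.map (algebraMap R R'))) =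
        AdjoinRoot.mk _ (p.map (algebraMap R R')) := by
      rw [← eval₂_map, ← AdjoinRoot.algebraMap_eq, ← aeval_def, AdjoinRoot.aeval_eq]
    rw [h2, ← map_mul, ← map_mul, AdjoinRoot.mk_eq_mk] at ha'
    obtain ⟨c, hc⟩ := ha'
    rw [Ideal.mem_span_pair]
    exact ⟨a', c, by linear_combination -hc⟩

/-- **The Selmer condition at an unramified prime.** -/
theorem dvd_log_unr (hf : f.Monic)
    (hgen : ∀ x : L', ∃ a b : AdjoinRoot (f.map (algebraMap R R')),
      algebraMap C L' (towerHom R' C f b) ≠ 0 ∧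
      x = algebraMap C L' (towerHom R' C f a) / algebraMap C L' (towerHom R' C f b))
    (𝔮' : HeightOneSpectrum C) (𝔮 : HeightOneSpectrum (AdjoinRoot f))
    (h𝔮 : 𝔮'.asIdeal.comap (algebraMap (AdjoinRoot f) C) = 𝔮.asIdeal)
    (v : HeightOneSpectrum R') [𝔮'.asIdeal.LiesOver v.asIdeal]
    [Algebra.IsUnramifiedAt R v.asIdeal] {ℓ : ℕ} (hℓ : 0 < ℓ) (hn : f.natDegree.Coprime ℓ)
    {g : K'[X]} (hg : (f.map (algebraMap R R')).map (algebraMap R' K') = g) (d : (AdjoinRoot g)ˣ)
    (hd : Units.map (branchMap (v.adicCompletion K') g : AdjoinRoot g →* _) d ∈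
      branchImage ℓ (g.map (algebraMap K' (v.adicCompletion K'))))
    (φ : AdjoinRoot g →+* L') (hφK : ∀ x : K', φ (AdjoinRoot.of g x) = algebraMap K' L' x)
    (hφθ : φ (AdjoinRoot.root g) =
      algebraMap C L' (algebraMap (AdjoinRoot f) C (AdjoinRoot.root f))) :
    (ℓ : ℤ) ∣ log (𝔮'.valuation L' (φ (d : AdjoinRoot g))) := by
  obtain ⟨p, hp⟩ : ∃ p : R[X], 𝔮.intValuation (AdjoinRoot.mk f p) = exp (-1 : ℤ) := by
    obtain ⟨x, hx⟩ := 𝔮.intValuation_exists_uniformizer
    obtain ⟨p, rfl⟩ := AdjoinRoot.mk_surjective x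
    exact ⟨p, hx⟩
  have hv : 𝔮'.asIdeal.comap (algebraMap R' C) = v.asIdeal :=
    (Ideal.LiesOver.over (P := 𝔮'.asIdeal) (p := v.asIdeal)).symm
  obtain ⟨h1, h2⟩ := unr_structure f hf hgen 𝔮' 𝔮 h𝔮 v.asIdeal hv p hp
  have haev : ∀ q : R[X], aeval (algebraMap (AdjoinRoot f) C (AdjoinRoot.root f))
      (q.map (algebraMap R R')) = algebraMap (AdjoinRoot f) C (AdjoinRoot.mk f q) := by
    intro q
    rw [aeval_map_algebraMap, aeval_root_eq]
  refine dvd_log_place v 𝔮' (hf.map (algebraMap R R'))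
    (θ := algebraMap (AdjoinRoot f) C (AdjoinRoot.root f)) ?_ hℓ ?_
    (p := p.map (algebraMap R R')) ?_ h2 hg d hd φ hφK hφθ
  · rw [haev, AdjoinRoot.mk_self, map_zero]
  · rw [hf.natDegree_map]
    exact hn
  · rw [haev]
    exact h1

end unr2

end MP72e2e6
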