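import Pool.Agent.Lib.MP_72e2e6_nt.HTwr

/-!
# MP_72e2e6_nt: the bound over the `ℓ`-extensions, with the integral closure
-/

namespace MP72e2e6

open IsDedekindDomain WithZero Polynomial Module

universe u

section tower

variable {R K R' K' L L' : Type u}
  [CommRing R] [IsDedekindDomain R] [Field K] [Algebra R K] [IsFractionRing R K]
  [CommRing R'] [IsDedekindDomain R'] [Algebra R R'] [Module.Finite R R']
  [Field K'] [Algebra R' K'] [IsFractionRing R' K'] [Algebra K K'] [FiniteDimensional K K']
  [IsGalois K K'] [Algebra R K'] [IsScalarTower R R' K'] [IsScalarTower R K K']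
  (f : R[X]) [IsDedekindDomain (AdjoinRoot f)]
  [Field L] [Algebra (AdjoinRoot f) L] [IsFractionRing (AdjoinRoot f) L] [Algebra K L]
  [Algebra R L] [IsScalarTower R (AdjoinRoot f) L] [IsScalarTower R K L] [FiniteDimensional K L]
  [Field L'] [Algebra L L'] [FiniteDimensional L L'] [IsGalois L L'] [Algebra K' L']
  [Algebra K L'] [IsScalarTower K K' L'] [IsScalarTower K L L']
  [Algebra (AdjoinRoot f) L']
  [IsScalarTower (AdjoinRoot f) L L']
  [Algebra R' L'] [IsScalarTower R' K' L'] [Algebra R L'] [IsScalarTower R K L']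
  [IsScalarTower R (AdjoinRoot f) L'] [IsScalarTower R R' L']

/-- **The Selmer group over the extension.** -/
theorem bound_tower_cl {ℓ : ℕ} (hℓ : ℓ.Prime) (hf : f.Monic) (hnf : f.natDegree.Coprime ℓ)
    (hn1 : (finrank K L).Coprime ℓ) (hn2 : (finrank K' L').Coprime ℓ)
    (hcop : (finrank K L).Coprime (finrank K K'))
    (hnorm : ∀ x : L, Algebra.norm K' (algebraMap L L' x) = algebraMap K K' (Algebra.norm K x))
    (hG : IsPGroup ℓ (L' ≃ₐ[L] L')) {ζ : K} (hζ : IsPrimitiveRoot ζ ℓ)
    (hram : ∀ v : HeightOneSpectrum R', ¬ Algebra.IsUnramifiedAt R v.asIdeal →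
      ∀ 𝔮₁ 𝔮₂ : HeightOneSpectrum (AdjoinRoot f),
        𝔮₁.asIdeal.comap (algebraMap R (AdjoinRoot f)) = v.asIdeal.comap (algebraMap R R') →
        𝔮₂.asIdeal.comap (algebraMap R (AdjoinRoot f)) = v.asIdeal.comap (algebraMap R R') →
        𝔮₁ = 𝔮₂)
    {g' : K'[X]} (hg' : (f.map (algebraMap R R')).map (algebraMap R' K') = g')
    (φ : AdjoinRoot g' →+* L') (hφs : Function.Surjective φ)
    (hφK : ∀ x : K', φ (AdjoinRoot.of g' x) = algebraMap K' L' x)
    (hφθ : φ (AdjoinRoot.root g') = algebraMap (AdjoinRoot f) L' (AdjoinRoot.root f))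
    (hφN : ∀ x, Algebra.norm K' (φ x) = Algebra.norm K' x) :
    (powers ℓ L'ˣ).relIndex ((branchSelmer R' ℓ g').map (Units.map (φ : AdjoinRoot g' →* L'))) ∣
      ((powers ℓ Lˣ).relIndex (ellSubgroup (AdjoinRoot f) L ℓ ⊓
        (powers ℓ Kˣ).comap (Units.map (Algebra.norm K : L →* K)))) ^ Nat.card (L' ≃ₐ[L] L') := by
  classical
  have hD : IsDedekindDomain (integralClosure (AdjoinRoot f) L') :=
    integralClosure.isDedekindDomain (AdjoinRoot f) L L'
  have hF : IsFractionRing (integralClosure (AdjoinRoot f) L') L' :=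
    integralClosure.isFractionRing_of_finite_extension L L'
  have hmem : ∀ r : R', algebraMap R' L' r ∈ (integralClosure (AdjoinRoot f) L').toSubring := by
    intro r
    have h1 : IsIntegral R r := Algebra.IsIntegral.isIntegral r
    have h2 : IsIntegral R (algebraMap R' L' r) := h1.map (IsScalarTower.toAlgHom R R' L')
    exact h2.tower_top
  let ρ : R' →+* integralClosure (AdjoinRoot f) L' :=
    (algebraMap R' L').codRestrict (integralClosure (AdjoinRoot f) L').toSubring hmem
  letI : Algebra R' (integralClosure (AdjoinRoot f) L') := ρ.toAlgebra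
  have ht1 : IsScalarTower R' (integralClosure (AdjoinRoot f) L') L' :=
    IsScalarTower.of_algebraMap_eq fun r => rfl
  have ht2 : IsScalarTower R (AdjoinRoot f) (integralClosure (AdjoinRoot f) L') :=
    inferInstance
  have ht3 : IsScalarTower R R' (integralClosure (AdjoinRoot f) L') := by
    apply IsScalarTower.of_algebraMap_eq
    intro r
    apply Subtype.ext
    change algebraMap R L' r = algebraMap R' L' (algebraMap R R' r)
    rw [← IsScalarTower.algebraMap_apply]
  exact bound_tower_abs (C := integralClosure (AdjoinRoot f) L') f hℓ hf hnf hn1 hn2 hcop hnorm hG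
    hζ hram hg' φ hφs hφK hφθ hφN

end tower

end MP72e2e6
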