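import Pool.Agent.Lib.MP_72e2e6_nt.HSpec

/-!
# MP_72e2e6_nt: the map between the completions
-/

namespace MP72e2e6

open IsDedekindDomain WithZero

section AKLB

variable {A K L B : Type*}
variable [CommRing A] [IsDedekindDomain A] [CommRing B] [IsDedekindDomain B] [Algebra A B]
  [Module.IsTorsionFree A B]
variable [Field K] [Field L] [Algebra K L]
variable [Algebra A K] [IsFractionRing A K] [Algebra A L] [IsScalarTower A K L]
variable [Algebra B L] [IsFractionRing B L] [IsScalarTower A B L]
variable (v : HeightOneSpectrum A) (w : HeightOneSpectrum B) [w.asIdeal.LiesOver v.asIdeal]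

variable (K L) in
/-- the map between the completions -/
noncomputable def complHom : v.adicCompletion K →+* w.adicCompletion L :=
  ((HeightOneSpectrum.adicCompletion.equiv L w).symm :
      (w.valuation L).Completion →+* w.adicCompletion L).comp
    ((UniformSpace.Completion.mapRingHom
      (algebraMap (WithVal (v.valuation K)) (WithVal (w.valuation L)))
      (HeightOneSpectrum.uniformContinuous_algebraMap_liesOver (K := K) L v w).continuous).comp
      (HeightOneSpectrum.adicCompletion.equiv K v : v.adicCompletion K →+* _))

theorem complHom_algebraMap (x : K) :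
    complHom K L v w (algebraMap K (v.adicCompletion K) x) =
      algebraMap L (w.adicCompletion L) (algebraMap K L x) := by
  apply HeightOneSpectrum.adicCompletion.ext
  change UniformSpace.Completion.mapRingHom
      (algebraMap (WithVal (v.valuation K)) (WithVal (w.valuation L)))
      (HeightOneSpectrum.uniformContinuous_algebraMap_liesOver (K := K) L v w).continuous
      ((WithVal.toVal (v.valuation K) x : WithVal (v.valuation K)) :
        (v.valuation K).Completion) = _
  rw [UniformSpace.Completion.mapRingHom_coe]
  rfl

theorem continuous_complHom : Continuous (complHom K L v w) := by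
  have h1 : Continuous (UniformSpace.Completion.mapRingHom
      (algebraMap (WithVal (v.valuation K)) (WithVal (w.valuation L)))
      (HeightOneSpectrum.uniformContinuous_algebraMap_liesOver (K := K) L v w).continuous) := by
    rw [UniformSpace.Completion.coe_mapRingHom]
    exact UniformSpace.Completion.continuous_map
  exact (HeightOneSpectrum.adicCompletion.continuous_ofCompletion L w).comp
    (h1.comp (HeightOneSpectrum.adicCompletion.continuous_toCompletion K v))

/-- approximation of the elements of the completion -/
theorem exists_approx (a : v.adicCompletion K) :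
    ∃ x : K, Valued.v (a - algebraMap K (v.adicCompletion K) x) < (1 : WithZero (Multiplicative ℤ)) ∧
      Valued.v (complHom K L v w (a - algebraMap K (v.adicCompletion K) x)) <
        (1 : WithZero (Multiplicative ℤ)) := by
  have h1 : IsOpen {z : v.adicCompletion K | Valued.v z < (1 : WithZero (Multiplicative ℤ))} := by
    have h := Valued.isOpen_ball (v.adicCompletion K) 1
    simpa only [Valuation.restrict_lt_one_iff] using h
  have h2 : IsOpen {z : w.adicCompletion L | Valued.v z < (1 : WithZero (Multiplicative ℤ))} := by
    have h := Valued.isOpen_ball (w.adicCompletion L) 1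
    simpa only [Valuation.restrict_lt_one_iff] using h
  have h3 : IsOpen {y : v.adicCompletion K |
      Valued.v (a - y) < (1 : WithZero (Multiplicative ℤ)) ∧
      Valued.v (complHom K L v w (a - y)) < (1 : WithZero (Multiplicative ℤ))} :=
    (h1.preimage (continuous_const.sub continuous_id)).inter
      (h2.preimage ((continuous_complHom v w).comp (continuous_const.sub continuous_id)))
  obtain ⟨x, hx⟩ := (HeightOneSpectrum.denseRange_algebraMap K v).exists_mem_open h3
    ⟨a, by simp⟩
  exact ⟨x, hx⟩

/-- the map between the completions preserves integers -/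
theorem complHom_le_one (a : v.adicCompletion K)
    (ha : Valued.v a ≤ (1 : WithZero (Multiplicative ℤ))) :
    Valued.v (complHom K L v w a) ≤ (1 : WithZero (Multiplicative ℤ)) := by
  obtain ⟨x, hx1, hx2⟩ := exists_approx (K := K) (L := L) v w a
  have h1 : Valued.v (algebraMap K (v.adicCompletion K) x) ≤
      (1 : WithZero (Multiplicative ℤ)) := by
    have h2 : algebraMap K (v.adicCompletion K) x =
        a - (a - algebraMap K (v.adicCompletion K) x) := by ring
    rw [h2]
    exact (Valuation.map_sub _ _ _).trans (max_le ha hx1.le)
  have h2 : v.valuation K x ≤ 1 := by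
    rw [← HeightOneSpectrum.valuedAdicCompletion_eq_valuation']
    exact h1
  have h3 : w.valuation L (algebraMap K L x) ≤ 1 := by
    rw [← HeightOneSpectrum.valuation_liesOver L v w]
    exact pow_le_one' h2 _
  have h4 : complHom K L v w a = complHom K L v w (a - algebraMap K (v.adicCompletion K) x) +
      complHom K L v w (algebraMap K (v.adicCompletion K) x) := by
    rw [← map_add, sub_add_cancel]
  rw [h4]
  refine (Valuation.map_add _ _ _).trans (max_le hx2.le ?_)
  rw [complHom_algebraMap]
  have h5 : Valued.v (algebraMap L (w.adicCompletion L) (algebraMap K L x)) =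
      w.valuation L (algebraMap K L x) := HeightOneSpectrum.valuedAdicCompletion_eq_valuation' w _
  rw [h5]
  exact h3

/-- elements of `A` are dense in the integers of the completion -/
theorem exists_approx_int (a : v.adicCompletion K)
    (ha : Valued.v a ≤ (1 : WithZero (Multiplicative ℤ))) :
    ∃ r : A, Valued.v (a - algebraMap A (v.adicCompletion K) r) <
      (1 : WithZero (Multiplicative ℤ)) := by
  have h1 : IsOpen {z : v.adicCompletion K | Valued.v z < (1 : WithZero (Multiplicative ℤ))} := by
    have h := Valued.isOpen_ball (v.adicCompletion K) 1
    simpa only [Valuation.restrict_lt_one_iff] using h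
  have h3 : IsOpen {y : v.adicCompletion K |
      Valued.v (a - y) < (1 : WithZero (Multiplicative ℤ))} :=
    (h1.preimage (continuous_const.sub continuous_id))
  obtain ⟨x, hx⟩ := (HeightOneSpectrum.denseRange_algebraMap K v).exists_mem_open h3
    ⟨a, by simp⟩
  have h1 : Valued.v (algebraMap K (v.adicCompletion K) x) ≤
      (1 : WithZero (Multiplicative ℤ)) := by
    have h2 : algebraMap K (v.adicCompletion K) x =
        a - (a - algebraMap K (v.adicCompletion K) x) := by ring
    rw [h2]
    exact (Valuation.map_sub _ _ _).trans (max_le ha (le_of_lt hx))
  have h2 : v.valuation K x ≤ 1 := by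
    rw [← HeightOneSpectrum.valuedAdicCompletion_eq_valuation']
    exact h1
  obtain ⟨r, hr⟩ := HeightOneSpectrum.exists_valuation_sub_lt_of_integer v h2 1
  refine ⟨r, ?_⟩
  have h4 : a - algebraMap A (v.adicCompletion K) r =
      (a - algebraMap K (v.adicCompletion K) x) -
        algebraMap K (v.adicCompletion K) (algebraMap A K r - x) := by
    rw [map_sub, ← IsScalarTower.algebraMap_apply A K (v.adicCompletion K)]
    ring
  rw [h4]
  refine lt_of_le_of_lt (Valuation.map_sub _ _ _) (max_lt hx ?_)
  have h5 : Valued.v (algebraMap K (v.adicCompletion K) (algebraMap A K r - x)) =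
      v.valuation K (algebraMap A K r - x) := HeightOneSpectrum.valuedAdicCompletion_eq_valuation' v _
  rw [h5]
  simpa using hr

end AKLB

end MP72e2e6
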