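import Pool.Agent.Lib.MP_72e2e6_nt.HStmt

/-!
# MP_72e2e6_nt: class group and units
-/

namespace MP72e2e6

open Polynomial IsDedekindDomain WithZero Module

/-- An element whose `n`-th power is an `ℓ`-th power, `n` prime to `ℓ`, is an `ℓ`-th power. -/
theorem count_coprime {W : Type*} [CommGroup W] {n ℓ : ℕ} (h : n.Coprime ℓ) {r : W}
    (hr : r ^ n ∈ powers ℓ W) : r ∈ powers ℓ W := by
  obtain ⟨a, b, hab⟩ := Nat.isCoprime_iff_coprime.2 h
  have h1 : r = (r ^ n) ^ a * (r ^ ℓ) ^ b := by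
    rw [← zpow_natCast, ← zpow_natCast, ← zpow_mul, ← zpow_mul, ← zpow_add]
    have h2 : (n : ℤ) * a + (ℓ : ℤ) * b = 1 := by rw [← hab]; ring
    rw [h2, zpow_one]
  rw [h1]
  exact (powers ℓ W).mul_mem ((powers ℓ W).zpow_mem hr a)
    ((powers ℓ W).zpow_mem ⟨r, rfl⟩ b)

/-- the index of the units part -/
theorem count_units {W V : Type*} [CommGroup W] [CommGroup V] (ι : V →* W) (P E : Subgroup W)
    (S : Subgroup V) (hPE : P ≤ E) (hS : ∀ x ∈ S, ι x ∈ E → ι x ∈ P) :
    P.relIndex (E ⊓ (ι.range ⊔ P)) ∣ S.index := by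
  have h1 : E ⊓ (ι.range ⊔ P) = (E.comap ι).map ι ⊔ P := by
    apply le_antisymm
    · rintro x ⟨hxE, hx⟩
      obtain ⟨_, ⟨u, rfl⟩, z, hz, rfl⟩ := Subgroup.mem_sup.1 hx
      refine Subgroup.mul_mem_sup ⟨u, ?_, rfl⟩ hz
      exact (E.mul_mem_cancel_right (hPE hz)).1 hxE
    · refine sup_le ?_ (le_inf hPE le_sup_right)
      rintro _ ⟨u, hu, rfl⟩
      exact ⟨hu, (le_sup_left : ι.range ≤ ι.range ⊔ P) ⟨u, rfl⟩⟩
  rw [h1, Subgroup.relIndex_sup_right, ← Subgroup.relIndex_comap]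
  have h2 : (P.comap ι).relIndex (E.comap ι) ∣ (S ⊓ E.comap ι).relIndex (E.comap ι) := by
    refine Subgroup.relIndex_dvd_of_le_left _ ?_
    rintro x ⟨hx1, hx2⟩
    exact hS x hx1 hx2
  rw [Subgroup.inf_relIndex_right] at h2
  exact h2.trans (Subgroup.relIndex_dvd_index_of_normal _ _)

theorem tCount.{v} : StmtCount.{v} := by
  intro ℓ hℓ R K B L _ _ _ _ _ _ _ _ _ _ _ _ _ _ hcop
  set P : Subgroup Lˣ := powers ℓ Lˣ with hP
  set E : Subgroup Lˣ := ellSubgroup B L ℓ ⊓
    (powers ℓ Kˣ).comap (Units.map (Algebra.norm K : L →* K)) with hE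
  let ι : Bˣ →* Lˣ := Units.map (algebraMap B L : B →* L)
  set S : Subgroup Bˣ := (Units.map (algebraMap R B : R →* B)).range ⊔ powers ℓ Bˣ with hS
  have hPE : P ≤ E := by
    rintro _ ⟨z, rfl⟩
    refine ⟨fun v => ?_, ?_⟩
    · rw [powMonoidHom_apply, Units.val_pow_eq_pow_val, map_pow, WithZero.log_pow, nsmul_eq_mul]
      exact dvd_mul_right _ _
    · exact ⟨Units.map (Algebra.norm K : L →* K) z, by
        rw [powMonoidHom_apply, powMonoidHom_apply, map_pow]⟩
  have h1 : (E ⊓ (ι.range ⊔ P)).relIndex E ∣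
      Nat.card (powMonoidHom ℓ : ClassGroup B →* ClassGroup B).ker := by
    let f : E →* (powMonoidHom ℓ : ClassGroup B →* ClassGroup B).ker :=
      (rootClass hℓ.ne_zero).comp (Subgroup.inclusion inf_le_left)
    have h2 : f.ker ≤ (E ⊓ (ι.range ⊔ P)).subgroupOf E := by
      intro x hx
      rw [Subgroup.mem_subgroupOf]
      obtain ⟨u, z, huz⟩ := exists_unit_mul_pow_of_rootClass hℓ.ne_zero
        (Subgroup.inclusion inf_le_left x) hx
      refine ⟨x.2, ?_⟩
      have h3 : (x : Lˣ) = ι u * z ^ ℓ := by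
        ext
        exact huz
      rw [h3]
      exact Subgroup.mul_mem_sup ⟨u, rfl⟩ ⟨z, rfl⟩
    refine (Subgroup.index_dvd_of_le h2).trans ?_
    rw [Subgroup.index_ker]
    exact Subgroup.card_subgroup_dvd_card _
  have h2 : P.relIndex (E ⊓ (ι.range ⊔ P)) ∣ S.index := by
    refine count_units ι P E S hPE ?_
    intro x hx hxE
    obtain ⟨_, ⟨r, rfl⟩, _, ⟨w, rfl⟩, rfl⟩ := Subgroup.mem_sup.1 hx
    have h3 : Units.map (Algebra.norm K : L →* K) (ι (Units.map (algebraMap R B : R →* B) r)) =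
        (Units.map (algebraMap R K : R →* K) r) ^ finrank K L := by
      ext
      rw [Units.val_pow_eq_pow_val]
      change Algebra.norm K (algebraMap B L (algebraMap R B (r : R))) =
        (algebraMap R K (r : R)) ^ finrank K L
      rw [← IsScalarTower.algebraMap_apply R B L, IsScalarTower.algebraMap_apply R K L,
        Algebra.norm_algebraMap]
    have h4 : (Units.map (algebraMap R K : R →* K) r) ^ finrank K L ∈ powers ℓ Kˣ := by
      have h5 : Units.map (Algebra.norm K : L →* K) (ι (Units.map (algebraMap R B : R →* B) r *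
        powMonoidHom ℓ w)) ∈ powers ℓ Kˣ := hxE.2
      rw [map_mul, map_mul, h3] at h5
      refine ((powers ℓ Kˣ).mul_mem_cancel_right ?_).1 h5
      exact ⟨Units.map (Algebra.norm K : L →* K) (ι w), by
        rw [powMonoidHom_apply, powMonoidHom_apply, map_pow, map_pow]⟩
    obtain ⟨s, hs⟩ := count_coprime hcop h4
    refine ⟨Units.map (algebraMap K L : K →* L) s * ι w, ?_⟩
    rw [powMonoidHom_apply] at hs
    rw [powMonoidHom_apply, powMonoidHom_apply, mul_pow, ← map_pow, ← map_pow, hs, map_mul]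
    congr 1
    ext
    change algebraMap K L (algebraMap R K (r : R)) = algebraMap B L (algebraMap R B (r : R))
    rw [← IsScalarTower.algebraMap_apply R B L, ← IsScalarTower.algebraMap_apply R K L]
  rw [← Subgroup.relIndex_mul_relIndex P (E ⊓ (ι.range ⊔ P)) E (le_inf hPE le_sup_right)
    inf_le_left, mul_comm]
  exact mul_dvd_mul h1 h2

end MP72e2e6
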