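import Pool.Agent.Lib.MP_72e2e6_nt.HStmt

/-!
# MP_72e2e6_nt: descent by Hilbert 90
-/

namespace MP72e2e6

open Polynomial IsDedekindDomain WithZero Module

/-- The cocycle: abstract form. -/
theorem desc_cocycle {G W W' : Type*} [Group G] [CommGroup W] [CommGroup W']
    [MulDistribMulAction G W] (a : G → W' →* W') (ha : ∀ σ τ x, a (σ * τ) x = a σ (a τ x))
    (N : W →* W') (hN : ∀ (σ : G) (x : W), N (σ • x) = a σ (N x)) (ℓ : ℕ)
    (h1 : ∀ x : W, x ^ ℓ = 1 → N x = 1 → x = 1)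
    (h2 : ∀ ε : W', ε ^ ℓ = 1 → ∃ η : W, η ^ ℓ = 1 ∧ N η = ε) (d : W) (y : W')
    (hd : N d = y ^ ℓ) (hf : ∀ σ : G, ∃ z : W, σ • d = d * z ^ ℓ) :
    ∃ z : G → W, (∀ σ, σ • d = d * z σ ^ ℓ) ∧ (∀ σ, N (z σ) = a σ y / y) ∧
      ∀ σ τ, z (σ * τ) = σ • z τ * z σ := by
  have h3 : ∀ σ : G, ∃ z : W, σ • d = d * z ^ ℓ ∧ N z = a σ y / y := by
    intro σ
    obtain ⟨z, hz⟩ := hf σ
    have h4 : (a σ y / (y * N z)) ^ ℓ = 1 := by
      have h5 := congrArg N hz
      rw [hN, hd, map_mul, map_pow, map_pow, hd] at h5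
      rw [div_pow, mul_pow, h5, div_self']
    obtain ⟨η, hη1, hη2⟩ := h2 _ h4
    refine ⟨z * η, by rw [mul_pow, hη1, mul_one, hz], ?_⟩
    rw [map_mul, hη2, mul_div_assoc', mul_comm y, mul_div_mul_left_eq_div]
  choose z hz1 hz2 using h3
  refine ⟨z, hz1, hz2, fun σ τ => ?_⟩
  have h5 : z (σ * τ) / (σ • z τ * z σ) = 1 := by
    apply h1
    · have e1 : d * z (σ * τ) ^ ℓ = d * (σ • z τ * z σ) ^ ℓ := by
        rw [← hz1, mul_smul, hz1 τ, smul_mul', hz1 σ, smul_pow', mul_pow]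
        rw [mul_assoc, mul_comm (z σ ^ ℓ)]
      rw [div_pow, mul_left_cancel e1, div_self']
    · rw [_root_.map_div, map_mul, hN, hz2, hz2, hz2, ha, _root_.map_div, div_mul_div_cancel,
        div_self']
  exact div_eq_one.1 h5

/-- In a commutative group: `t ^ n = 1` and `t ^ ℓ = 1` imply `t = 1`. -/
theorem desc_one {W : Type*} [CommGroup W] {n ℓ : ℕ} (h : n.Coprime ℓ) {t : W}
    (h1 : t ^ n = 1) (h2 : t ^ ℓ = 1) : t = 1 := by
  have h3 : orderOf t ∣ 1 := by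
    rw [← h.gcd_eq_one]
    exact Nat.dvd_gcd (orderOf_dvd_of_pow_eq_one h1) (orderOf_dvd_of_pow_eq_one h2)
  exact orderOf_eq_one_iff.1 (Nat.dvd_one.1 h3)

/-- `ε ^ ℓ = 1` is an `n`-th power of such an element. -/
theorem desc_root {W : Type*} [CommGroup W] {n ℓ : ℕ} (h : n.Coprime ℓ) {ε : W}
    (h1 : ε ^ ℓ = 1) : ∃ η : W, η ^ ℓ = 1 ∧ η ^ n = ε := by
  obtain ⟨a, b, hab⟩ := Nat.isCoprime_iff_coprime.2 h
  refine ⟨ε ^ a, ?_, ?_⟩
  · rw [← zpow_natCast, ← zpow_mul, mul_comm, zpow_mul, zpow_natCast, h1, one_zpow]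
  · have h2 : a * (n : ℤ) = 1 - b * ℓ := by rw [← hab]; ring
    rw [← zpow_natCast, ← zpow_mul, h2, zpow_sub, zpow_one, mul_comm b, zpow_mul, zpow_natCast,
      h1, one_zpow, inv_one, mul_one]

/-- Elements of `L` and `K'` with the same image come from `K`. -/
theorem desc_inter {K K' L L' : Type*} [Field K] [Field K'] [Field L] [Field L']
    [Algebra K K'] [Algebra K L] [Algebra K' L'] [Algebra L L'] [Algebra K L']
    [IsScalarTower K K' L'] [IsScalarTower K L L'] [FiniteDimensional K K']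
    [FiniteDimensional K L] (h : (finrank K L).Coprime (finrank K K')) (w : L) (y : K')
    (hwy : algebraMap L L' w = algebraMap K' L' y) : ∃ y₀ : K, algebraMap K K' y₀ = y := by
  have h1 : minpoly K w = minpoly K y := by
    rw [← minpoly.algebraMap_eq (algebraMap L L').injective w, hwy,
      minpoly.algebraMap_eq (algebraMap K' L').injective y]
  have h2 := minpoly.degree_dvd (K := K) (x := w) (Algebra.IsIntegral.isIntegral w)
  have h3 := minpoly.degree_dvd (K := K) (x := y) (Algebra.IsIntegral.isIntegral y)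
  rw [h1] at h2
  have h4 : (minpoly K y).natDegree = 1 := by
    have := Nat.dvd_gcd h2 h3
    rw [h.gcd_eq_one] at this
    exact Nat.dvd_one.1 this
  exact (minpoly.natDegree_eq_one_iff).1 h4

theorem tDesc.{v} : StmtDesc.{v} := by
  intro ℓ hℓ K K' L L' _ _ _ _ _ _ _ _ _ _ _ _ _ _ _ _ hcop hcop2 hnorm ζ hζ d y hd hf
  set n := finrank K' L' with hn
  -- the restriction
  let res : (L' ≃ₐ[L] L') → (K' ≃ₐ[K] K') := fun σ =>
    (σ.restrictScalars K).restrictNormal K'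
  have hres : ∀ (σ : L' ≃ₐ[L] L') (x : K'), algebraMap K' L' (res σ x) = σ (algebraMap K' L' x) :=
    fun σ x => (σ.restrictScalars K).restrictNormal_commutes K' x
  let N : L'ˣ →* K'ˣ := Units.map (Algebra.norm K' : L' →* K')
  let a : (L' ≃ₐ[L] L') → K'ˣ →* K'ˣ := fun σ => Units.map ((res σ : K' ≃ₐ[K] K') : K' →* K')
  have hNval : ∀ x : L'ˣ, ((N x : K'ˣ) : K') = Algebra.norm K' (x : L') := fun x => rfl
  have haval : ∀ σ (x : K'ˣ), ((a σ x : K'ˣ) : K') = res σ (x : K') := fun σ x => rfl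
  have ha : ∀ σ τ x, a (σ * τ) x = a σ (a τ x) := by
    intro σ τ x
    ext
    rw [haval, haval, haval]
    apply (algebraMap K' L').injective
    rw [hres, hres, hres]
    rfl
  have hN : ∀ (σ : L' ≃ₐ[L] L') (x : L'ˣ), N (σ • x) = a σ (N x) := by
    intro σ x
    ext
    rw [hNval, haval, hNval]
    have h1 := Algebra.norm_eq_of_equiv_equiv (res σ).toRingEquiv σ.toRingEquiv (by
      ext z
      exact hres σ z) (x : L')
    rw [h1]
    change _ = res σ ((res σ).symm _)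
    rw [AlgEquiv.apply_symm_apply]
    rfl
  have hcard : ∀ x : K'ˣ, N (Units.map (algebraMap K' L' : K' →* L') x) = x ^ n := by
    intro x
    ext
    rw [hNval, Units.val_pow_eq_pow_val]
    exact Algebra.norm_algebraMap (x : K')
  have h1 : ∀ x : L'ˣ, x ^ ℓ = 1 → N x = 1 → x = 1 := by
    intro x hx hNx
    have : NeZero ℓ := ⟨hℓ.ne_zero⟩
    have hζ' : IsPrimitiveRoot (algebraMap K L' ζ) ℓ :=
      hζ.map_of_injective (algebraMap K L').injective
    obtain ⟨i, _, hi⟩ := hζ'.eq_pow_of_pow_eq_one (ξ := (x : L')) (by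
      rw [← Units.val_pow_eq_pow_val, hx, Units.val_one])
    have hζ0 : ζ ≠ 0 := hζ.ne_zero hℓ.ne_zero
    let t : K'ˣ := Units.mk0 (algebraMap K K' (ζ ^ i)) (by
      rw [Ne, map_eq_zero]
      exact pow_ne_zero _ hζ0)
    have ht : Units.map (algebraMap K' L' : K' →* L') t = x := by
      ext
      change algebraMap K' L' (algebraMap K K' (ζ ^ i)) = (x : L')
      rw [← IsScalarTower.algebraMap_apply K K' L', map_pow, hi]
    have ht1 : t ^ n = 1 := by rw [← hcard, ht, hNx]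
    have ht2 : t ^ ℓ = 1 := by
      ext
      rw [Units.val_pow_eq_pow_val, Units.val_mk0, ← map_pow, ← pow_mul, mul_comm, pow_mul,
        hζ.pow_eq_one, one_pow, map_one, Units.val_one]
    rw [← ht, desc_one hcop ht1 ht2, map_one]
  have h2 : ∀ ε : K'ˣ, ε ^ ℓ = 1 → ∃ η : L'ˣ, η ^ ℓ = 1 ∧ N η = ε := by
    intro ε hε
    obtain ⟨η, hη1, hη2⟩ := desc_root hcop hε
    exact ⟨Units.map (algebraMap K' L' : K' →* L') η, by rw [← map_pow, hη1, map_one],
      by rw [hcard, hη2]⟩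
  obtain ⟨z, hz1, hz2, hz3⟩ := desc_cocycle a ha N hN ℓ h1 h2 d y (by
    ext
    rw [hNval, hd, Units.val_pow_eq_pow_val]) (by
    intro σ
    obtain ⟨z, hz⟩ := hf σ
    refine ⟨z, ?_⟩
    ext
    rw [Units.val_mul, Units.val_pow_eq_pow_val, ← hz]
    rfl)
  obtain ⟨b, hb⟩ := groupCohomology.isMulCoboundary₁_of_isMulCocycle₁_of_aut_to_units z hz3
  have hb' : ∀ σ : L' ≃ₐ[L] L', σ • b = b * z σ := fun σ => by
    rw [← hb σ, mul_div_cancel]
  have hfix1 : ∀ σ : L' ≃ₐ[L] L', σ • (d / b ^ ℓ) = d / b ^ ℓ := by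
    intro σ
    rw [smul_div', smul_pow', hb', hz1, mul_pow, mul_div_mul_right_eq_div]
  obtain ⟨w₀, hw₀⟩ : ∃ w₀ : L, algebraMap L L' w₀ = ((d / b ^ ℓ : L'ˣ) : L') := by
    refine IntermediateField.mem_bot.1 ((IsGalois.mem_bot_iff_fixed _).2 fun σ => ?_)
    exact congrArg Units.val (hfix1 σ)
  have hw₀0 : w₀ ≠ 0 := by
    rintro rfl
    rw [map_zero] at hw₀
    exact Units.ne_zero _ hw₀.symm
  have hfix2 : ∀ σ : L' ≃ₐ[L] L', a σ (y / N b) = y / N b := by
    intro σ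
    rw [_root_.map_div, ← hN, hb', map_mul, hz2, mul_comm (N b), div_mul_eq_div_div, div_div_eq_mul_div, mul_comm,
      mul_div_cancel_right]
  obtain ⟨w₁, hw₁⟩ : ∃ w₁ : L, algebraMap L L' w₁ =
      algebraMap K' L' ((y / N b : K'ˣ) : K') := by
    refine IntermediateField.mem_bot.1 ((IsGalois.mem_bot_iff_fixed _).2 fun σ => ?_)
    rw [← hres]
    congr 1
    exact congrArg Units.val (hfix2 σ)
  obtain ⟨y₀, hy₀⟩ := desc_inter (L' := L') hcop2 w₁ _ hw₁
  have hy₀0 : y₀ ≠ 0 := by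
    rintro rfl
    rw [map_zero] at hy₀
    exact Units.ne_zero _ hy₀.symm
  refine ⟨Units.mk0 w₀ hw₀0, b, Units.mk0 y₀ hy₀0, ?_, ?_⟩
  · rw [Units.val_mk0, hw₀, ← Units.val_pow_eq_pow_val, ← Units.val_mul, div_mul_cancel]
  · apply (algebraMap K K').injective
    rw [Units.val_mk0, Units.val_mk0, ← hnorm, hw₀, map_pow, hy₀, ← hNval, _root_.map_div,
      map_pow, ← Units.val_pow_eq_pow_val, div_pow]
    congr 2
    ext
    rw [hNval, hd, Units.val_pow_eq_pow_val]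

end MP72e2e6
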