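import Pool.Agent.Lib.MP_72e2e6_nt.HDvr

/-!
# MP_72e2e6_nt: localizations of polynomial rings over a discrete valuation ring
-/

namespace MP72e2e6

open Polynomial

section general

variable {A : Type*} [CommRing A]

theorem quot_regular_of_prime [IsDomain A] {π g : A} (hπ : Prime π) (hg : ¬ π ∣ g) :
    Ideal.Quotient.mk (Ideal.span {g}) π ∈ nonZeroDivisors (A ⧸ Ideal.span {g}) := by
  rw [mem_nonZeroDivisors_iff_right]
  intro y hy
  obtain ⟨a, rfl⟩ := Ideal.Quotient.mk_surjective y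
  rw [← map_mul, Ideal.Quotient.eq_zero_iff_mem, Ideal.mem_span_singleton'] at hy
  obtain ⟨b, hb⟩ := hy
  have h2 : π ∣ b * g := ⟨a, by rw [hb, mul_comm]⟩
  obtain ⟨r, rfl⟩ := (hπ.dvd_or_dvd h2).resolve_right hg
  rw [Ideal.Quotient.eq_zero_iff_mem, Ideal.mem_span_singleton']
  refine ⟨r, mul_left_cancel₀ hπ.ne_zero ?_⟩
  rw [← mul_assoc, hb, mul_comm]

theorem quot_regular_of_coprime {g h c B E : A}
    (hc : Ideal.Quotient.mk (Ideal.span {g}) c ∈ nonZeroDivisors (A ⧸ Ideal.span {g}))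
    (hAB : E * h + B * g = c) :
    Ideal.Quotient.mk (Ideal.span {g}) h ∈ nonZeroDivisors (A ⧸ Ideal.span {g}) := by
  rw [← hAB, map_add, map_mul, map_mul,
    Ideal.Quotient.eq_zero_iff_mem.2 (Ideal.mem_span_singleton_self g), mul_zero, add_zero] at hc
  exact (mul_mem_nonZeroDivisors.1 hc).2

theorem map_prime_of_mem {P : Type*} [CommRing P] [IsDomain P] {𝔪 : Ideal P} [𝔪.IsPrime]
    (Q : Type*) [CommRing Q] [Algebra P Q] [IsLocalization.AtPrime Q 𝔪] {π : P}
    (hπ : Prime π) (hmem : π ∈ 𝔪) : Prime (algebraMap P Q π) := by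
  have hinj := IsLocalization.injective Q (Ideal.primeCompl_le_nonZeroDivisors 𝔪)
  have h0 : algebraMap P Q π ≠ 0 := by
    rw [Ne, map_eq_zero_iff _ hinj]
    exact hπ.ne_zero
  have h1 : (Ideal.span {π}).IsPrime := (Ideal.span_singleton_prime hπ.ne_zero).2 hπ
  have h2 : Disjoint (𝔪.primeCompl : Set P) (Ideal.span {π} : Ideal P) := by
    rw [Set.disjoint_left]
    intro x hx hx'
    exact hx ((Ideal.span_singleton_le_iff_mem _).2 hmem hx')
  have h3 := IsLocalization.isPrime_of_isPrime_disjoint 𝔪.primeCompl Q _ h1 h2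
  rw [Ideal.map_span, Set.image_singleton] at h3
  exact (Ideal.span_singleton_prime h0).1 h3

theorem map_not_dvd {P : Type*} [CommRing P] [IsDomain P] {𝔪 : Ideal P} [𝔪.IsPrime]
    (Q : Type*) [CommRing Q] [Algebra P Q] [IsLocalization.AtPrime Q 𝔪] {π g : P}
    (hπ : Prime π) (hmem : π ∈ 𝔪) (hg : ¬ π ∣ g) : ¬ algebraMap P Q π ∣ algebraMap P Q g := by
  have hinj := IsLocalization.injective Q (Ideal.primeCompl_le_nonZeroDivisors 𝔪)
  rintro ⟨a, ha⟩
  obtain ⟨⟨a', s⟩, has⟩ := IsLocalization.surj 𝔪.primeCompl a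
  simp only at has
  have h1 : g * s = π * a' := by
    apply hinj
    rw [map_mul, map_mul, ha, ← has, mul_assoc]
  have h2 : π ∣ g * s := ⟨a', h1⟩
  rcases hπ.dvd_or_dvd h2 with h | h
  · exact hg h
  · exact s.2 (Ideal.mem_of_dvd _ h hmem)

end general

variable {O : Type*} [CommRing O] [IsDomain O] [IsDiscreteValuationRing O]

theorem krullDimLE_localQuot {𝔪 : Ideal O[X]} [𝔪.IsPrime] {g : O[X]} (hg : g ≠ 0) :
    Ring.KrullDimLE 1 (Localization.AtPrime 𝔪 ⧸
      Ideal.span {algebraMap O[X] (Localization.AtPrime 𝔪) g}) := by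
  have h1 : ringKrullDim (Localization.AtPrime 𝔪) ≤ 2 := by
    rw [IsLocalization.AtPrime.ringKrullDim_eq_height 𝔪 (Localization.AtPrime 𝔪)]
    refine (Ideal.height_le_ringKrullDim_of_ne_top (Ideal.IsPrime.ne_top ‹_›)).trans ?_
    rw [Polynomial.ringKrullDim_of_isNoetherianRing, IsDiscreteValuationRing.ringKrullDim_eq_one]
    exact le_of_eq one_add_one_eq_two
  have h2 : algebraMap O[X] (Localization.AtPrime 𝔪) g ∈
      nonZeroDivisors (Localization.AtPrime 𝔪) := by
    rw [mem_nonZeroDivisors_iff_ne_zero, Ne, map_eq_zero_iff _ (IsLocalization.injective _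
      (Ideal.primeCompl_le_nonZeroDivisors 𝔪))]
    exact hg
  have h3 := ringKrullDim_quotient_succ_le_of_nonZeroDivisor h2
  rw [Ring.krullDimLE_iff]
  have h4 := h3.trans h1
  rw [← one_add_one_eq_two] at h4
  exact (ENat.WithBot.add_le_add_one_right_iff).1 h4

/-- constants are regular modulo a primitive polynomial -/
theorem C_regular {𝔪 : Ideal O[X]} [𝔪.IsPrime] (Q : Type*) [CommRing Q] [IsDomain Q]
    [Algebra O[X] Q] [IsLocalization.AtPrime Q 𝔪] {g : O[X]} {π : O}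
    (hπ : Irreducible π) (hg : ¬ C π ∣ g) {c : O} (hc : c ≠ 0) :
    Ideal.Quotient.mk (Ideal.span {algebraMap O[X] Q g}) (algebraMap O[X] Q (C c)) ∈
      nonZeroDivisors (Q ⧸ Ideal.span {algebraMap O[X] Q g}) := by
  obtain ⟨k, w, rfl⟩ := IsDiscreteValuationRing.eq_unit_mul_pow_irreducible hc hπ
  have hw : IsUnit (Ideal.Quotient.mk (Ideal.span {algebraMap O[X] Q g})
      (algebraMap O[X] Q (C (w : O)))) := ((w.isUnit.map (C : O →+* O[X])).map _).map _
  rw [map_mul, map_mul, map_mul]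
  refine mul_mem hw.mem_nonZeroDivisors ?_
  rw [map_pow, map_pow, map_pow]
  refine pow_mem ?_ k
  have hprime : Prime (C π : O[X]) := Polynomial.prime_C_iff.2 hπ.prime
  by_cases hmem : C π ∈ 𝔪
  · exact quot_regular_of_prime (map_prime_of_mem (𝔪 := 𝔪) Q hprime hmem)
      (map_not_dvd (𝔪 := 𝔪) Q hprime hmem hg)
  · have h1 : IsUnit (algebraMap O[X] Q (C π)) :=
      IsLocalization.map_units Q (⟨C π, hmem⟩ : 𝔪.primeCompl)
    exact (h1.map (Ideal.Quotient.mk (Ideal.span {algebraMap O[X] Q g}))).mem_nonZeroDivisors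

/-- polynomials which are coprime to `g` over the fraction field are regular modulo `g` -/
theorem mk_regular {𝔪 : Ideal O[X]} [𝔪.IsPrime] (Q : Type*) [CommRing Q] [IsDomain Q]
    [Algebra O[X] Q] [IsLocalization.AtPrime Q 𝔪] {g : O[X]} {π : O}
    (hπ : Irreducible π) (hg : ¬ C π ∣ g) {c : O} (hc : c ≠ 0) {h E B : O[X]}
    (hAB : E * h + B * g = C c) :
    Ideal.Quotient.mk (Ideal.span {algebraMap O[X] Q g}) (algebraMap O[X] Q h) ∈
      nonZeroDivisors (Q ⧸ Ideal.span {algebraMap O[X] Q g}) := by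
  refine quot_regular_of_coprime (C_regular (𝔪 := 𝔪) Q hπ hg hc)
    (B := algebraMap O[X] Q B) (E := algebraMap O[X] Q E) ?_
  rw [← hAB, map_add, map_mul, map_mul]

end MP72e2e6
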