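import Pool.Agent.Lib.MP_72e2e6_nt.HOrd

/-!
# MP_72e2e6_nt: orders of vanishing on a regular branch
-/

namespace MP72e2e6

open WithZero

section

variable {P : Type*} [CommRing P] [IsNoetherianRing P] {M : Type*} [Field M]
  {v : Valuation M (WithZero (Multiplicative ℤ))} {Λ : P →+* M} {𝔪 : Ideal P} [𝔪.IsPrime]
  {f p : P}

/-- order of vanishing along a branch on which `p` is a uniformizer -/
theorem ord_branch (hΛ : ∀ g, v (Λ g) ≤ 1) (h𝔪 : ∀ g, g ∈ 𝔪 ↔ v (Λ g) < 1)
    (hf : Λ f = 0) (hp : v (Λ p) = exp (-1 : ℤ))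
    (H : ∀ g ∈ 𝔪, ∃ s, s ∉ 𝔪 ∧ s * g ∈ Ideal.span {p, f}) {u : P} (hu : Λ u ≠ 0) :
    ∃ n : ℕ, Ring.ord (Localization.AtPrime 𝔪 ⧸
        Ideal.span {algebraMap P (Localization.AtPrime 𝔪) f})
        (Ideal.Quotient.mk _ (algebraMap P (Localization.AtPrime 𝔪) u)) = n ∧
      v (Λ u) = exp (-(n : ℤ)) := by
  classical
  set A := Localization.AtPrime 𝔪 with hA
  have hunit : ∀ s : 𝔪.primeCompl, IsUnit (Λ s) := by
    intro s
    rw [isUnit_iff_ne_zero]
    intro h
    refine s.2 ((h𝔪 _).2 ?_)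
    rw [h, map_zero]
    exact zero_lt_one
  have hone : ∀ s, s ∉ 𝔪 → v (Λ s) = 1 := by
    intro s hs
    exact le_antisymm (hΛ s) (not_lt.1 fun h => hs ((h𝔪 s).2 h))
  let ΛA : A →+* M := IsLocalization.lift (M := 𝔪.primeCompl) hunit
  have hΛA : ∀ g, ΛA (algebraMap P A g) = Λ g := fun g => IsLocalization.lift_eq hunit g
  set E := A ⧸ Ideal.span {algebraMap P A f} with hE
  have hker : ∀ a ∈ Ideal.span {algebraMap P A f}, ΛA a = 0 := by
    intro a ha
    obtain ⟨b, rfl⟩ := Ideal.mem_span_singleton'.1 ha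
    rw [map_mul, hΛA, hf, mul_zero]
  let ΛE : E →+* M := Ideal.Quotient.lift _ ΛA hker
  have hΛE : ∀ a, ΛE (Ideal.Quotient.mk _ a) = ΛA a := fun a => Ideal.Quotient.lift_mk _ _ _
  -- elements of E
  have hrep : ∀ z : E, ∃ g s : P, s ∉ 𝔪 ∧
      Ideal.Quotient.mk _ (algebraMap P A s) * z = Ideal.Quotient.mk _ (algebraMap P A g) := by
    intro z
    obtain ⟨a, rfl⟩ := Ideal.Quotient.mk_surjective z
    obtain ⟨⟨g, s⟩, hgs⟩ := IsLocalization.surj 𝔪.primeCompl a
    refine ⟨g, s, s.2, ?_⟩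
    rw [← map_mul, ← hgs, mul_comm]
  have hsunit : ∀ s, s ∉ 𝔪 →
      IsUnit (Ideal.Quotient.mk (Ideal.span {algebraMap P A f}) (algebraMap P A s)) := by
    intro s hs
    exact (IsLocalization.map_units A (⟨s, hs⟩ : 𝔪.primeCompl)).map _
  have hval : ∀ z : E, v (ΛE z) ≤ 1 := by
    intro z
    obtain ⟨g, s, hs, hgs⟩ := hrep z
    have h1 := congrArg (fun x => v (ΛE x)) hgs
    simp only [map_mul, hΛE, hΛA, hone s hs, one_mul] at h1
    rw [h1]
    exact hΛ g
  have hunitE : ∀ z : E, v (ΛE z) = 1 → IsUnit z := by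
    intro z hz
    obtain ⟨g, s, hs, hgs⟩ := hrep z
    have h1 := congrArg (fun x => v (ΛE x)) hgs
    simp only [map_mul, hΛE, hΛA, hone s hs, one_mul] at h1
    have h2 : g ∉ 𝔪 := by
      rw [h𝔪, ← h1, hz]
      exact lt_irrefl _
    have h3 := hsunit g h2
    rw [← hgs] at h3
    exact isUnit_of_mul_isUnit_right h3
  set π : E := Ideal.Quotient.mk _ (algebraMap P A p) with hπ
  have hΛπ : v (ΛE π) = exp (-1 : ℤ) := by rw [hπ, hΛE, hΛA, hp]
  have hdvd : ∀ z : E, v (ΛE z) < 1 → ∃ y, z = y * π := by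
    intro z hz
    obtain ⟨g, s, hs, hgs⟩ := hrep z
    have h1 := congrArg (fun x => v (ΛE x)) hgs
    simp only [map_mul, hΛE, hΛA, hone s hs, one_mul] at h1
    have h2 : g ∈ 𝔪 := by
      rw [h𝔪, ← h1]
      exact hz
    obtain ⟨t, ht, h3⟩ := H g h2
    obtain ⟨α, β, h4⟩ := Ideal.mem_span_pair.1 h3
    have h5 : Ideal.Quotient.mk (Ideal.span {algebraMap P A f}) (algebraMap P A (t * g)) =
        Ideal.Quotient.mk _ (algebraMap P A α) * π := by
      rw [← h4, map_add, map_add, map_mul, map_mul, map_mul, map_mul,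
        Ideal.Quotient.eq_zero_iff_mem.2 (Ideal.mem_span_singleton_self (algebraMap P A f)),
        mul_zero, add_zero]
    obtain ⟨w, hw⟩ := ((hsunit t ht).mul (hsunit s hs)).exists_left_inv
    refine ⟨w * Ideal.Quotient.mk _ (algebraMap P A α), ?_⟩
    rw [mul_assoc, ← h5, map_mul, map_mul, ← hgs, ← mul_assoc (Ideal.Quotient.mk _ _),
      ← mul_assoc, hw, one_mul]
  have hnontriv : Nontrivial E := ΛE.domain_nontrivial
  have hloc : IsLocalRing E := IsLocalRing.of_surjective' (Ideal.Quotient.mk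
    (Ideal.span {algebraMap P A f})) Ideal.Quotient.mk_surjective
  have hnoeth : IsNoetherianRing E := inferInstance
  have hnotop : Ideal.span {π} ≠ ⊤ := by
    intro h
    have h1 : IsUnit π := Ideal.span_singleton_eq_top.1 h
    obtain ⟨y, hy⟩ := h1.exists_left_inv
    have h2 := congrArg (fun x => v (ΛE x)) hy
    simp only [map_mul, hΛπ, map_one] at h2
    have h3 := hval y
    have h4 : v (ΛE y) * exp (-1 : ℤ) ≤ 1 * exp (-1 : ℤ) := mul_le_mul_left h3 _
    rw [h2, one_mul, ← exp_zero, exp_le_exp] at h4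
    omega
  have hinj : ∀ z : E, ΛE z = 0 → z = 0 := by
    intro z hz
    have h1 : ∀ (k : ℕ) (z : E), ΛE z = 0 → ∃ y, z = y * π ^ k := by
      intro k
      induction k with
      | zero => intro z _; exact ⟨z, by rw [pow_zero, mul_one]⟩
      | succ k ih =>
        intro z hz
        obtain ⟨y, rfl⟩ := hdvd z (by rw [hz, map_zero]; exact zero_lt_one)
        have h2 : ΛE y = 0 := by
          rw [map_mul] at hz
          refine (mul_eq_zero.1 hz).resolve_right fun h => ?_
          rw [h, map_zero] at hΛπ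
          exact exp_ne_zero hΛπ.symm
        obtain ⟨x, rfl⟩ := ih y h2
        exact ⟨x, by rw [pow_succ, mul_assoc]⟩
    have h2 := Ideal.iInf_pow_eq_bot_of_isLocalRing (Ideal.span {π}) hnotop
    have h3 : z ∈ ⨅ i : ℕ, Ideal.span {π} ^ i := by
      rw [Submodule.mem_iInf]
      intro k
      obtain ⟨y, rfl⟩ := h1 k z hz
      exact Ideal.mul_mem_left _ _ (Ideal.pow_mem_pow (Ideal.mem_span_singleton_self π) k)
    rw [h2] at h3
    exact h3
  have hπreg : π ∈ nonZeroDivisors E := by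
    rw [mem_nonZeroDivisors_iff_right]
    intro y hy
    apply hinj
    have h1 := congrArg ΛE hy
    rw [map_mul, map_zero] at h1
    refine (mul_eq_zero.1 h1).resolve_right fun h => ?_
    rw [h, map_zero] at hΛπ
    exact exp_ne_zero hΛπ.symm
  have hmax : (Ideal.span {π}).IsMaximal := by
    rw [Ideal.isMaximal_iff]
    refine ⟨fun h => hnotop ((Ideal.eq_top_iff_one _).2 h), fun J x hJ hx hxJ => ?_⟩
    have h1 : v (ΛE x) = 1 := by
      refine le_antisymm (hval x) (not_lt.1 fun h => hx ?_)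
      obtain ⟨y, rfl⟩ := hdvd x h
      exact Ideal.mul_mem_left _ _ (Ideal.mem_span_singleton_self π)
    have h2 := hunitE x h1
    exact (Ideal.eq_top_iff_one _).1 (Ideal.eq_top_of_isUnit_mem _ hxJ h2)
  have hord1 : Ring.ord E π = 1 := by
    rw [Ring.ord, Module.length_eq_one_iff]
    rw [isSimpleModule_iff_isSimpleModule_of_algebraMap_surjective (S := E ⧸ Ideal.span {π})
      Ideal.Quotient.mk_surjective]
    let := Ideal.Quotient.field (Ideal.span {π})
    exact instIsSimpleModule _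
  have hmain : ∀ (n : ℕ) (z : E), v (ΛE z) = exp (-(n : ℤ)) → Ring.ord E z = n := by
    intro n
    induction n with
    | zero =>
      intro z hz
      rw [Ring.ord_of_isUnit (hunitE z (by rw [hz]; simp))]
      simp
    | succ n ih =>
      intro z hz
      obtain ⟨y, rfl⟩ := hdvd z (by
        rw [hz, ← exp_zero, exp_lt_exp]
        push_cast
        omega)
      have h1 : v (ΛE y) = exp (-(n : ℤ)) := by
        rw [map_mul, map_mul, hΛπ] at hz
        have h2 : exp (-((n + 1 : ℕ) : ℤ)) = exp (-(n : ℤ)) * exp (-1 : ℤ) := by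
          rw [← exp_add]
          congr 1
          push_cast
          ring
        rw [h2] at hz
        exact mul_right_cancel₀ exp_ne_zero hz
      rw [Ring.ord_mul (R := E) hπreg, hord1, ih y h1]
      push_cast
      rfl
  have hu0 : v (Λ u) ≠ 0 := (Valuation.ne_zero_iff _).2 hu
  obtain ⟨k, hk⟩ : ∃ k : ℤ, v (Λ u) = exp k := ⟨log (v (Λ u)), (exp_log hu0).symm⟩
  have hk0 : k ≤ 0 := by
    have h1 := hΛ u
    rw [hk, ← exp_zero, exp_le_exp] at h1
    exact h1
  obtain ⟨n, rfl⟩ : ∃ n : ℕ, k = -(n : ℤ) := ⟨k.natAbs, by omega⟩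
  refine ⟨n, hmain n _ ?_, hk⟩
  rw [hΛE, hΛA, hk]

end

end MP72e2e6
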