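import Pool.Agent.Lib.MP_72e2e6_nt.HStmt

/-!
# MP_72e2e6_nt: the branch curve of `y ^ ℓ = f₀ (x) - t` is the affine line
-/

namespace MP72e2e6

open Polynomial IsDedekindDomain WithZero Module

universe u

theorem tOne (h : StmtIso.{u}) : StmtOne.{u} := by
  intro F _ f₀
  obtain ⟨e, he, hof⟩ := h F f₀
  have hdom : IsDomain (AdjoinRoot (f₀.map (C : F →+* F[X]) - C X)) := e.toMulEquiv.isDomain _
  have hpir : IsPrincipalIdealRing (AdjoinRoot (f₀.map (C : F →+* F[X]) - C X)) :=
    IsPrincipalIdealRing.of_surjective e.symm.toRingHom e.symm.surjective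
  refine ⟨inferInstance, ?_⟩
  intro _
  refine ⟨fun ℓ => ?_, ?_⟩
  · have h1 : Nat.card (powMonoidHom ℓ :
        ClassGroup (AdjoinRoot (f₀.map (C : F →+* F[X]) - C X)) →* _).ker = 1 := by
      have h2 : Subsingleton (ClassGroup (AdjoinRoot (f₀.map (C : F →+* F[X]) - C X))) :=
        inferInstance
      exact Nat.card_unique
    have h3 : (Units.map (algebraMap F[X] (AdjoinRoot (f₀.map (C : F →+* F[X]) - C X)) :
          F[X] →* _)).range ⊔ powers ℓ (AdjoinRoot (f₀.map (C : F →+* F[X]) - C X))ˣ = ⊤ := by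
      rw [eq_top_iff]
      intro u _
      refine Subgroup.mem_sup_left ?_
      have hu : IsUnit (e u) := u.isUnit.map e
      obtain ⟨a, ha, hau⟩ := Polynomial.isUnit_iff.1 hu
      refine ⟨(ha.map (C : F →+* F[X])).unit, ?_⟩
      apply Units.ext
      apply e.injective
      rw [Units.coe_map]
      change e (AdjoinRoot.of _ (C a)) = e u
      rw [hof, C_comp, hau]
    rw [h1, h3, Subgroup.index_top]
  · intro v P Q k hP hQ hdvd 𝔮₁ 𝔮₂ h1 h2
    have key : ∀ 𝔮 : HeightOneSpectrum (AdjoinRoot (f₀.map (C : F →+* F[X]) - C X)),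
        𝔮.asIdeal.comap (algebraMap F[X] _) = v → 𝔮.asIdeal = Ideal.span {e.symm Q} := by
      intro 𝔮 h𝔮
      have hp := 𝔮.isPrime
      have h3 : algebraMap F[X] _ P ∈ 𝔮.asIdeal := by
        rw [← h𝔮] at hP
        exact hP
      have h4 : e.symm (Q ^ k) ∈ 𝔮.asIdeal := by
        obtain ⟨c, hc⟩ := hdvd
        rw [hc, map_mul]
        refine Ideal.mul_mem_right _ _ ?_
        have h5 : e.symm (P.comp f₀) = algebraMap F[X] _ P := by
          rw [← hof, e.symm_apply_apply]
          rfl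
        rw [h5]
        exact h3
      rw [map_pow] at h4
      have h6 : e.symm Q ∈ 𝔮.asIdeal := hp.mem_of_pow_mem _ h4
      have h7 : Irreducible (e.symm Q) := (MulEquiv.irreducible_iff e.symm.toMulEquiv).2 hQ
      have h8 : (Ideal.span {e.symm Q}).IsMaximal :=
        PrincipalIdealRing.isMaximal_of_irreducible h7
      exact (h8.eq_of_le hp.ne_top ((Ideal.span_singleton_le_iff_mem _).2 h6)).symm
    exact HeightOneSpectrum.ext ((key 𝔮₁ h1).trans (key 𝔮₂ h2).symm)

end MP72e2e6
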