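import Pool.Agent.Lib.MP_72e2e6_nt.HIso
import Pool.Agent.Lib.MP_72e2e6_nt.HOne

/-!
# MP_72e2e6_nt: the curves `y ^ ℓ = f₀ (x) - t`, the ring `B`
-/

namespace MP72e2e6

open IsDedekindDomain WithZero Polynomial Module

universe u

variable {F : Type u} [Field F]

theorem graphPoly_dedekind (f₀ : F[X]) : IsDedekindDomain (AdjoinRoot (graphPoly f₀)) :=
  (tOne.{u} tIso.{u} F f₀).1

theorem graphPoly_bound (f₀ : F[X]) [hD : IsDedekindDomain (AdjoinRoot (graphPoly f₀))] (ℓ : ℕ) :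
    branchBound (graphPoly f₀) ℓ = 1 :=
  (@(tOne.{u} tIso.{u} F f₀).2 hD).1 ℓ

theorem graphPoly_one (f₀ : F[X]) [hD : IsDedekindDomain (AdjoinRoot (graphPoly f₀))]
    (v : Ideal F[X]) (P Q : F[X]) (k : ℕ) (hP : P ∈ v) (hQ : Irreducible Q)
    (hPQ : P.comp f₀ ∣ Q ^ k) (𝔮₁ 𝔮₂ : HeightOneSpectrum (AdjoinRoot (graphPoly f₀)))
    (h1 : 𝔮₁.asIdeal.comap (algebraMap F[X] _) = v)
    (h2 : 𝔮₂.asIdeal.comap (algebraMap F[X] _) = v) : 𝔮₁ = 𝔮₂ :=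
  (@(tOne.{u} tIso.{u} F f₀).2 hD).2 v P Q k hP hQ hPQ 𝔮₁ 𝔮₂ h1 h2

theorem graphPoly_monic {f₀ : F[X]} (hf₀ : f₀.Monic) (hdeg : 0 < f₀.natDegree) :
    (graphPoly f₀).Monic := by
  refine (hf₀.map C).sub_of_left (lt_of_le_of_lt degree_C_le ?_)
  rw [degree_map_eq_of_injective C_injective, ← natDegree_pos_iff_degree_pos]
  exact hdeg

theorem graphPoly_natDegree (f₀ : F[X]) : (graphPoly f₀).natDegree = f₀.natDegree := by
  rw [graphPoly, natDegree_sub_C, natDegree_map_eq_of_injective C_injective]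

end MP72e2e6
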