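import Pool.Agent.Lib.MP_72e2e6_nt.HFin
import Pool.Agent.Lib.MP_72e2e6_nt.HGr

/-!
# MP_72e2e6_nt: the curves `y ^ ℓ = f₀ (x) - t`
-/

namespace MP72e2e6

open IsDedekindDomain WithZero Polynomial Module

universe u

variable {F K R' K' : Type u} [Field F] [Field K] [Algebra F[X] K] [IsFractionRing F[X] K]
  [CommRing R'] [IsDedekindDomain R'] [Algebra F[X] R']
  [Field K'] [Algebra R' K'] [IsFractionRing R' K'] [Algebra K K'] [Algebra F[X] K']
  [IsScalarTower F[X] R' K'] [IsScalarTower F[X] K K'] [IsIntegralClosure R' F[X] K']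
  [FiniteDimensional K K'] [IsGalois K K']

theorem example_trivial (f₀ : F[X]) (hf₀ : f₀.Monic) {ℓ : ℕ} (hℓ : ℓ.Prime)
    (hn : f₀.natDegree.Coprime ℓ) {ζ : F} (hζ : IsPrimitiveRoot ζ ℓ)
    (hp : IsPGroup ℓ (K' ≃ₐ[K] K'))
    (hram : ∀ v : HeightOneSpectrum R', ¬ Algebra.IsUnramifiedAt F[X] v.asIdeal →
      ∃ (P Q : F[X]) (k : ℕ), algebraMap F[X] R' P ∈ v.asIdeal ∧ Irreducible Q ∧
        P.comp f₀ ∣ Q ^ k) :
    (powers ℓ (AdjoinRoot ((graphPoly f₀).map (algebraMap F[X] K')))ˣ).relIndex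
      (branchSelmer R' ℓ ((graphPoly f₀).map (algebraMap F[X] K'))) = 1 := by
  have hD := graphPoly_dedekind f₀
  have hdeg : 0 < f₀.natDegree := by
    rcases Nat.eq_zero_or_pos f₀.natDegree with h0 | h0
    · rw [h0, Nat.coprime_zero_left] at hn
      exact absurd hn hℓ.ne_one
    · exact h0
  have hζ' : IsPrimitiveRoot (algebraMap F[X] K (C ζ)) ℓ :=
    (hζ.map_of_injective C_injective).map_of_injective (IsFractionRing.injective F[X] K)
  have hone : OneAbove (graphPoly f₀) R' := by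
    intro v hv 𝔮₁ 𝔮₂ h1 h2
    obtain ⟨P, Q, k, hP, hQ, hPQ⟩ := hram v hv
    exact graphPoly_one f₀ _ P Q k hP hQ hPQ 𝔮₁ 𝔮₂ h1 h2
  have hmain := bound_tower (R' := R') (K' := K') (graphPoly f₀) (graphPoly_monic hf₀ hdeg) hℓ
    (by rw [graphPoly_natDegree]; exact hn) hp hζ' hone
  rw [graphPoly_bound, one_pow, Nat.dvd_one] at hmain
  exact hmain

end MP72e2e6
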