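import Pool.Agent.Lib.MP_72e2e6_nt.HCl

/-!
# MP_72e2e6_nt: the bound over the `ℓ`-extensions
-/

namespace MP72e2e6

open IsDedekindDomain WithZero Polynomial Module

universe u

attribute [local instance] branchAlgebra

variable {R K R' K' : Type u}
  [CommRing R] [IsDedekindDomain R] [Field K] [Algebra R K] [IsFractionRing R K]
  [CommRing R'] [IsDedekindDomain R'] [Algebra R R']
  [Field K'] [Algebra R' K'] [IsFractionRing R' K'] [Algebra K K'] [Algebra R K']
  [IsScalarTower R R' K'] [IsScalarTower R K K'] [IsIntegralClosure R' R K']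
  [FiniteDimensional K K'] [IsGalois K K']

theorem bound_tower_aux (f : R[X]) (hf : f.Monic) [IsDedekindDomain (AdjoinRoot f)]
    {ℓ : ℕ} (hℓ : ℓ.Prime) (hn : f.natDegree.Coprime ℓ) (hp : IsPGroup ℓ (K' ≃ₐ[K] K'))
    {ζ : K} (hζ : IsPrimitiveRoot ζ ℓ)
    (hram : ∀ v : HeightOneSpectrum R', ¬ Algebra.IsUnramifiedAt R v.asIdeal →
      ∀ 𝔮₁ 𝔮₂ : HeightOneSpectrum (AdjoinRoot f),
        𝔮₁.asIdeal.comap (algebraMap R (AdjoinRoot f)) = v.asIdeal.comap (algebraMap R R') →
        𝔮₂.asIdeal.comap (algebraMap R (AdjoinRoot f)) = v.asIdeal.comap (algebraMap R R') →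
        𝔮₁ = 𝔮₂) :
    (powers ℓ (AdjoinRoot ((f.map (algebraMap R K)).map (algebraMap K K')))ˣ).relIndex
      (branchSelmer R' ℓ ((f.map (algebraMap R K)).map (algebraMap K K'))) ∣
      branchBound f ℓ ^ finrank K K' := by
  classical
  obtain ⟨hirr, hfrac⟩ := tFrac.{u} R K f hf
  have : Fact (Irreducible (f.map (algebraMap R K))) := ⟨hirr⟩
  have := hfrac rfl
  have : Fact ℓ.Prime := ⟨hℓ⟩
  have hgm : (f.map (algebraMap R K)).Monic := hf.map _
  have hdeg : (f.map (algebraMap R K)).natDegree = f.natDegree := hf.natDegree_map _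
  obtain ⟨m, hm⟩ : ∃ m : ℕ, finrank K K' = ℓ ^ m := by
    obtain ⟨m, hm⟩ := (IsPGroup.iff_card (p := ℓ) (G := K' ≃ₐ[K] K')).1 hp
    exact ⟨m, by rw [← IsGalois.card_aut_eq_finrank, hm]⟩
  have hcop : (f.map (algebraMap R K)).natDegree.Coprime (finrank K K') := by
    rw [hdeg, hm]
    exact hn.pow_right m
  have hirr' := tIrr.{u} K K' (f.map (algebraMap R K)) hirr hcop
  have : Fact (Irreducible ((f.map (algebraMap R K)).map (algebraMap K K'))) := ⟨hirr'⟩
  have hfin1 : FiniteDimensional K (AdjoinRoot (f.map (algebraMap R K))) := hgm.finite_adjoinRoot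
  have hfin2 : FiniteDimensional K'
      (AdjoinRoot ((f.map (algebraMap R K)).map (algebraMap K K'))) :=
    (hgm.map _).finite_adjoinRoot
  have hr1 : finrank K (AdjoinRoot (f.map (algebraMap R K))) = f.natDegree := finrank_branch f hf
  have hr2 : finrank K' (AdjoinRoot ((f.map (algebraMap R K)).map (algebraMap K K'))) =
      f.natDegree := by
    rw [finrank_branch (f.map (algebraMap R K)) hgm, hdeg]
  obtain ⟨hfin3, hgal, hr3⟩ := tGal.{u} K K' (AdjoinRoot (f.map (algebraMap R K)))
    (AdjoinRoot ((f.map (algebraMap R K)).map (algebraMap K K')))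
    (AdjoinRoot.root (f.map (algebraMap R K))) (by
      rw [algebraMap_branch, branchMap, AdjoinRoot.map_root]
      exact AdjoinRoot.adjoinRoot_eq_top) (by rw [hr1, hr2])
  have hfinR : Module.Finite R R' := IsIntegralClosure.finite R K K' R'
  have hcard : Nat.card ((AdjoinRoot ((f.map (algebraMap R K)).map (algebraMap K K')))
      ≃ₐ[AdjoinRoot (f.map (algebraMap R K))]
      (AdjoinRoot ((f.map (algebraMap R K)).map (algebraMap K K')))) = finrank K K' := by
    rw [IsGalois.card_aut_eq_finrank, hr3]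
  have hG : IsPGroup ℓ ((AdjoinRoot ((f.map (algebraMap R K)).map (algebraMap K K')))
      ≃ₐ[AdjoinRoot (f.map (algebraMap R K))]
      (AdjoinRoot ((f.map (algebraMap R K)).map (algebraMap K K')))) :=
    IsPGroup.of_card (by rw [hcard, hm])
  letI : Algebra (AdjoinRoot f) (AdjoinRoot ((f.map (algebraMap R K)).map (algebraMap K K'))) :=
    ((branchMap K' (f.map (algebraMap R K))).comp (branchMap K f)).toAlgebra
  have ht1 : IsScalarTower (AdjoinRoot f) (AdjoinRoot (f.map (algebraMap R K)))
      (AdjoinRoot ((f.map (algebraMap R K)).map (algebraMap K K'))) :=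
    IsScalarTower.of_algebraMap_eq fun x => rfl
  have ht2 : IsScalarTower R (AdjoinRoot f)
      (AdjoinRoot ((f.map (algebraMap R K)).map (algebraMap K K'))) := by
    apply IsScalarTower.of_algebraMap_eq
    intro r
    rw [IsScalarTower.algebraMap_apply R K' (AdjoinRoot ((f.map (algebraMap R K)).map
      (algebraMap K K'))), IsScalarTower.algebraMap_apply R K K']
    change _ = branchMap K' (f.map (algebraMap R K)) (branchMap K f (AdjoinRoot.of f r))
    rw [branchMap, branchMap, AdjoinRoot.map_of, AdjoinRoot.map_of]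
    rfl
  have hmap : (f.map (algebraMap R R')).map (algebraMap R' K') =
      (f.map (algebraMap R K)).map (algebraMap K K') := by
    rw [Polynomial.map_map, Polynomial.map_map, ← IsScalarTower.algebraMap_eq,
      ← IsScalarTower.algebraMap_eq]
  have hmain := bound_tower_cl (R := R) (K := K) (R' := R') (K' := K')
    (L := AdjoinRoot (f.map (algebraMap R K)))
    (L' := AdjoinRoot ((f.map (algebraMap R K)).map (algebraMap K K'))) f hℓ hf hn
    (by rw [hr1]; exact hn) (by rw [hr2]; exact hn) (by rw [hr1, ← hdeg]; exact hcop)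
    (fun x => tNorm.{u} K K' (f.map (algebraMap R K)) hgm x) hG hζ hram hmap (RingHom.id _)
    Function.surjective_id (fun x => rfl) (by
      change AdjoinRoot.root _ = branchMap K' (f.map (algebraMap R K)) (branchMap K f
        (AdjoinRoot.root f))
      rw [branchMap, branchMap, AdjoinRoot.map_root, AdjoinRoot.map_root]) (fun x => rfl)
  have hid : (branchSelmer R' ℓ ((f.map (algebraMap R K)).map (algebraMap K K'))).map
      (Units.map ((RingHom.id (AdjoinRoot ((f.map (algebraMap R K)).map (algebraMap K K'))) :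
        _ →+* _) : AdjoinRoot ((f.map (algebraMap R K)).map (algebraMap K K')) →* _)) =
      branchSelmer R' ℓ ((f.map (algebraMap R K)).map (algebraMap K K')) := by
    have h1 : (Units.map ((RingHom.id (AdjoinRoot ((f.map (algebraMap R K)).map
        (algebraMap K K'))) : _ →+* _) :
        AdjoinRoot ((f.map (algebraMap R K)).map (algebraMap K K')) →* _)) = MonoidHom.id _ := by
      ext x
      rfl
    rw [h1, Subgroup.map_id]
  rw [hid, hcard] at hmain
  exact hmain.trans (pow_dvd_pow_of_dvd (index_base f hf hℓ hn) _)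

/-- **The bound over the `ℓ`-extensions.** -/
theorem bound_tower (f : R[X]) (hf : f.Monic) [IsDedekindDomain (AdjoinRoot f)]
    {ℓ : ℕ} (hℓ : ℓ.Prime) (hn : f.natDegree.Coprime ℓ) (hp : IsPGroup ℓ (K' ≃ₐ[K] K'))
    {ζ : K} (hζ : IsPrimitiveRoot ζ ℓ) (hram : OneAbove f R') :
    (powers ℓ (AdjoinRoot (f.map (algebraMap R K')))ˣ).relIndex
      (branchSelmer R' ℓ (f.map (algebraMap R K'))) ∣ branchBound f ℓ ^ finrank K K' := by
  have h1 := bound_tower_aux (R' := R') (K' := K') f hf hℓ hn hp hζ hram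
  have h2 : (f.map (algebraMap R K)).map (algebraMap K K') = f.map (algebraMap R K') := by
    rw [Polynomial.map_map, ← IsScalarTower.algebraMap_eq]
  rw [h2] at h1
  exact h1

/-- `ℓ`-th powers are in the Selmer group -/
theorem powers_le_branchSelmer {ℓ : ℕ} (g : K[X]) :
    powers ℓ (AdjoinRoot g)ˣ ≤ branchSelmer R ℓ g := by
  rintro _ ⟨z, rfl⟩
  rw [mem_branchSelmer]
  refine ⟨⟨Units.map (Algebra.norm K : AdjoinRoot g →* K) z, ?_⟩, fun v => ?_⟩
  · rw [← map_pow]
    rfl
  · refine Subgroup.subset_closure (Or.inl ⟨Units.map (branchMap (v.adicCompletion K) g :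
      AdjoinRoot g →* _) z, ?_⟩)
    rw [← map_pow]
    rfl

end MP72e2e6
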