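import Pool.Agent.Lib.MP_72e2e6_nt.HStmt

/-!
# MP_72e2e6_nt: an `ℓ`-group acting on an elementary abelian group
-/

namespace MP72e2e6

universe u

section

variable {ℓ : ℕ} [Fact ℓ.Prime] {G U : Type*} [Group G] [Finite G] [AddCommGroup U]
  [Module (ZMod ℓ) U]

/-- A nonzero stable subspace has a nonzero fixed vector. -/
theorem fix_exists (hG : IsPGroup ℓ G) (ρ : G →* Module.End (ZMod ℓ) U) (N : Submodule (ZMod ℓ) U)
    (hN : ∀ σ, ∀ v ∈ N, ρ σ v ∈ N) {x : U} (hx : x ∈ N) (hx0 : x ≠ 0) :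
    ∃ v ∈ N, v ≠ 0 ∧ ∀ σ, ρ σ v = v := by
  classical
  set H : Submodule (ZMod ℓ) U := Submodule.span (ZMod ℓ) (Set.range fun σ => ρ σ x) with hH
  have hHN : H ≤ N := Submodule.span_le.2 (by
    rintro _ ⟨σ, rfl⟩
    exact hN σ x hx)
  have hHs : ∀ σ, ∀ v ∈ H, ρ σ v ∈ H := by
    intro σ v hv
    have h1 : H.map (ρ σ) ≤ H := by
      rw [hH, Submodule.map_span, Submodule.span_le]
      rintro _ ⟨_, ⟨τ, rfl⟩, rfl⟩
      refine Submodule.subset_span ⟨σ * τ, ?_⟩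
      simp only [map_mul]
      rfl
    exact h1 (Submodule.mem_map_of_mem hv)
  have hxH : x ∈ H := Submodule.subset_span ⟨1, by simp⟩
  have : Module.Finite (ZMod ℓ) H := by
    rw [hH]
    exact Module.Finite.span_of_finite _ (Set.finite_range _)
  have : Finite H := Module.finite_of_finite (ZMod ℓ)
  let : MulAction G H :=
    { smul := fun σ v => ⟨ρ σ v.1, hHs σ v.1 v.2⟩
      one_smul := fun v => Subtype.ext (by
        change ρ 1 v.1 = v.1
        rw [map_one]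
        rfl)
      mul_smul := fun σ τ v => Subtype.ext (by
        change ρ (σ * τ) v.1 = ρ σ (ρ τ v.1)
        rw [map_mul]
        rfl) }
  have hcard : ℓ ∣ Nat.card H := by
    rw [Module.natCard_eq_pow_finrank (K := ZMod ℓ) (V := H), Nat.card_zmod]
    refine dvd_pow_self _ ?_
    intro h0
    have h2 : H = ⊥ := Submodule.finrank_eq_zero.1 h0
    rw [h2] at hxH
    exact hx0 ((Submodule.mem_bot _).1 hxH)
  obtain ⟨b, hb, hb0⟩ := hG.exists_fixed_point_of_prime_dvd_card_of_fixed_point H hcard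
    (a := (0 : H)) (by
      intro σ
      refine Subtype.ext ?_
      change ρ σ 0 = 0
      exact map_zero _)
  refine ⟨b.1, hHN b.2, fun h => hb0 (Subtype.ext h.symm), fun σ => ?_⟩
  exact congrArg Subtype.val (hb σ)

/-- The order of a stable subspace. -/
theorem fix_card (hG : IsPGroup ℓ G) (ρ : G →* Module.End (ZMod ℓ) U) (N F : Submodule (ZMod ℓ) U)
    (hN : ∀ σ, ∀ v ∈ N, ρ σ v ∈ N) (hF : ∀ v, v ∈ F ↔ v ∈ N ∧ ∀ σ, ρ σ v = v) :
    Nat.card N ∣ Nat.card F ^ Nat.card G := by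
  classical
  obtain ⟨π, hπ⟩ := F.subtype.exists_leftInverse_of_injective
    (LinearMap.ker_eq_bot.2 F.subtype_injective)
  let Φ : N →ₗ[ZMod ℓ] (G → F) := LinearMap.pi fun σ => π ∘ₗ ρ σ ∘ₗ N.subtype
  have hΦ : Function.Injective Φ := by
    rw [← LinearMap.ker_eq_bot, Submodule.eq_bot_iff]
    intro x hx
    by_contra hx0
    let N' : Submodule (ZMod ℓ) U := N ⊓ ⨅ σ, LinearMap.ker (π ∘ₗ ρ σ)
    have hmem : ∀ v, v ∈ N' ↔ v ∈ N ∧ ∀ σ, π (ρ σ v) = 0 := by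
      intro v
      simp only [N', Submodule.mem_inf, Submodule.mem_iInf, LinearMap.mem_ker,
        LinearMap.comp_apply]
    obtain ⟨v, hv, hv0, hvf⟩ := fix_exists hG ρ N' (by
      intro σ v hv
      rw [hmem] at hv ⊢
      refine ⟨hN σ v hv.1, fun τ => ?_⟩
      have := hv.2 (τ * σ)
      rw [map_mul] at this
      exact this) (x := x.1) ((hmem _).2 ⟨x.2, fun σ => congrFun (LinearMap.mem_ker.1 hx) σ⟩)
      (fun h => hx0 (Subtype.ext h))
    rw [hmem] at hv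
    have hvF : v ∈ F := (hF v).2 ⟨hv.1, hvf⟩
    have h1 : π v = ⟨v, hvF⟩ := LinearMap.congr_fun hπ ⟨v, hvF⟩
    have h2 := hv.2 1
    rw [hvf, h1] at h2
    exact hv0 (congrArg Subtype.val h2)
  have h3 : Nat.card N ∣ Nat.card (G → F) :=
    AddSubgroup.card_dvd_of_injective Φ.toAddMonoidHom hΦ
  rwa [Nat.card_fun] at h3

/-- The same for a commutative group killed by `ℓ`. -/
theorem fix_card_mul {Q : Type*} [CommGroup Q] (hG : IsPGroup ℓ G) (hkill : ∀ x : Q, x ^ ℓ = 1)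
    (a : G → Q →* Q) (h1 : ∀ x, a 1 x = x) (hmul : ∀ σ τ x, a (σ * τ) x = a σ (a τ x))
    (N F : Subgroup Q) (hN : ∀ σ, ∀ v ∈ N, a σ v ∈ N)
    (hF : ∀ v, v ∈ F ↔ v ∈ N ∧ ∀ σ, a σ v = v) :
    Nat.card N ∣ Nat.card F ^ Nat.card G := by
  let inst : Module (ZMod ℓ) (Additive Q) := AddCommGroup.zmodModule (n := ℓ) (fun x => hkill x.toMul)
  let ρ : G →* Module.End (ZMod ℓ) (Additive Q) :=
    { toFun := fun σ => AddMonoidHom.toZModLinearMap ℓ (MonoidHom.toAdditive (a σ))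
      map_one' := LinearMap.ext fun x => h1 x.toMul
      map_mul' := fun σ τ => LinearMap.ext fun x => hmul σ τ x.toMul }
  exact fix_card hG ρ (AddSubgroup.toZModSubmodule ℓ (Subgroup.toAddSubgroup N))
    (AddSubgroup.toZModSubmodule ℓ (Subgroup.toAddSubgroup F)) hN hF

end

theorem tFix.{v} : StmtFix.{v} := by
  intro ℓ hℓ G W _ _ _ _ hG M F hM hF
  have : Fact ℓ.Prime := ⟨hℓ⟩
  set P : Subgroup W := powers ℓ W with hP
  have hkill : ∀ x : W ⧸ P, x ^ ℓ = 1 := by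
    intro x
    obtain ⟨w, rfl⟩ := QuotientGroup.mk_surjective x
    rw [← QuotientGroup.mk_pow, QuotientGroup.eq_one_iff]
    exact ⟨w, rfl⟩
  -- the action
  let act : G → (W ⧸ P →* W ⧸ P) := fun σ =>
    QuotientGroup.map P P (MulDistribMulAction.toMonoidHom W σ) (by
      rintro _ ⟨w, rfl⟩
      exact ⟨σ • w, by simp⟩)
  have hact : ∀ (σ : G) (w : W), act σ (w : W ⧸ P) = ((σ • w : W) : W ⧸ P) := fun σ w => rfl
  have hcN : Nat.card (M.map (QuotientGroup.mk' P)) = P.relIndex M := by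
    have h1 := Subgroup.relIndex_ker (f := QuotientGroup.mk' P) M
    rw [QuotientGroup.ker_mk'] at h1
    exact h1.symm
  have hcF : Nat.card (F.map (QuotientGroup.mk' P)) = P.relIndex F := by
    have h1 := Subgroup.relIndex_ker (f := QuotientGroup.mk' P) F
    rw [QuotientGroup.ker_mk'] at h1
    exact h1.symm
  rw [← hcN, ← hcF]
  refine fix_card_mul hG hkill act ?_ ?_ _ _ ?_ ?_
  · intro x
    obtain ⟨w, rfl⟩ := QuotientGroup.mk_surjective x
    rw [hact, one_smul]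
  · intro σ τ x
    obtain ⟨w, rfl⟩ := QuotientGroup.mk_surjective x
    rw [hact, hact, hact, mul_smul]
  · rintro σ _ ⟨w, hw, rfl⟩
    exact ⟨σ • w, hM σ w hw, rfl⟩
  · intro v
    constructor
    · rintro ⟨w, hw, rfl⟩
      obtain ⟨hwM, hwf⟩ := (hF w).1 hw
      refine ⟨⟨w, hwM, rfl⟩, fun σ => ?_⟩
      obtain ⟨z, hz⟩ := hwf σ
      have h1 : ((z ^ ℓ : W) : W ⧸ P) = 1 := (QuotientGroup.eq_one_iff _).2 ⟨z, rfl⟩
      rw [QuotientGroup.mk'_apply, hact, hz, QuotientGroup.mk_mul, h1, mul_one]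
    · rintro ⟨⟨w, hwM, rfl⟩, hf⟩
      refine ⟨w, (hF w).2 ⟨hwM, fun σ => ?_⟩, rfl⟩
      have h1 : ((σ • w : W) : W ⧸ P) = (w : W ⧸ P) := hf σ
      obtain ⟨z, hz⟩ := QuotientGroup.eq.1 h1.symm
      refine ⟨z, ?_⟩
      have h2 : z ^ ℓ = w⁻¹ * σ • w := hz
      rw [h2, mul_inv_cancel_left]

end MP72e2e6
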