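import Pool.Agent.Lib.MP_72e2e6_nt.HStmt

/-!
# MP_72e2e6_nt, module HFrac: the fraction field of `R[T] / (f)`
-/

namespace MP72e2e6

open Polynomial IsDedekindDomain WithZero Module

universe u

theorem tFrac : StmtFrac.{u} := by
  intro R K _ _ _ _ _ _ f hf _
  have h0 : (Ideal.span {f} : Ideal R[X]).IsPrime :=
    (Ideal.Quotient.isDomain_iff_prime _).mp (inferInstanceAs (IsDomain (AdjoinRoot f)))
  have h1 : Prime f := (Ideal.span_singleton_prime hf.ne_zero).mp h0
  have h2 : Irreducible (f.map (algebraMap R K)) :=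
    (Polynomial.Monic.irreducible_iff_irreducible_map_fraction_map hf).mp h1.irreducible
  refine ⟨h2, ?_⟩
  intro _ hA
  have : Fact (Irreducible (f.map (algebraMap R K))) := ⟨h2⟩
  have hmk : ∀ p : R[X], branchMap K f (AdjoinRoot.mk f p) =
      AdjoinRoot.mk (f.map (algebraMap R K)) (p.map (algebraMap R K)) := by
    intro p
    have e1 : (branchMap K f).comp (AdjoinRoot.mk f) =
        (AdjoinRoot.mk (f.map (algebraMap R K))).comp (Polynomial.mapRingHom (algebraMap R K)) := by
      refine Polynomial.ringHom_ext (fun a => ?_) ?_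
      · rw [RingHom.comp_apply, RingHom.comp_apply, AdjoinRoot.mk_C, branchMap, AdjoinRoot.map_of,
          Polynomial.coe_mapRingHom, Polynomial.map_C, AdjoinRoot.mk_C]
      · rw [RingHom.comp_apply, RingHom.comp_apply, AdjoinRoot.mk_X, branchMap,
          AdjoinRoot.map_root, Polynomial.coe_mapRingHom, Polynomial.map_X, AdjoinRoot.mk_X]
    exact RingHom.congr_fun e1 p
  have hinj : ∀ x : AdjoinRoot f, branchMap K f x = 0 → x = 0 := by
    intro x hx
    obtain ⟨p, rfl⟩ := AdjoinRoot.mk_surjective x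
    rw [hmk, AdjoinRoot.mk_eq_zero] at hx
    rw [AdjoinRoot.mk_eq_zero]
    exact (Polynomial.map_dvd_map _ (IsFractionRing.injective R K) hf).mp hx
  refine ⟨?_, ?_, ?_⟩
  · intro y
    rw [hA]
    refine IsUnit.mk0 _ ?_
    intro h
    exact nonZeroDivisors.coe_ne_zero y (hinj _ h)
  · intro z
    obtain ⟨p, rfl⟩ := AdjoinRoot.mk_surjective z
    obtain ⟨b, hbm, hb⟩ := IsLocalization.integerNormalization_spec (nonZeroDivisors R) p
    have hb0 : b ≠ 0 := nonZeroDivisors.ne_zero hbm
    have h4 : AdjoinRoot.mk f (C b) ≠ 0 := by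
      intro h
      have h5 := congrArg (branchMap K f) h
      rw [hmk, map_zero, Polynomial.map_C, AdjoinRoot.mk_C] at h5
      have h6 : (algebraMap R K b) = 0 := by
        by_contra hne
        have h7 : IsUnit (AdjoinRoot.of (f.map (algebraMap R K)) (algebraMap R K b)) :=
          (IsUnit.mk0 _ hne).map _
        rw [h5] at h7
        exact not_isUnit_zero h7
      exact hb0 ((IsFractionRing.injective R K) (by rw [h6, map_zero]))
    refine ⟨⟨AdjoinRoot.mk f (IsLocalization.integerNormalization (nonZeroDivisors R) p),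
      ⟨AdjoinRoot.mk f (C b), mem_nonZeroDivisors_of_ne_zero h4⟩⟩, ?_⟩
    rw [hA]
    change _ * branchMap K f (AdjoinRoot.mk f (C b)) = branchMap K f (AdjoinRoot.mk f _)
    rw [hmk, hmk, hb, Polynomial.map_C, ← map_mul, Algebra.smul_def, mul_comm]
    rfl
  · intro x y hxy
    refine ⟨1, ?_⟩
    rw [hA] at hxy
    have h3 : x = y := sub_eq_zero.mp (hinj _ (by rw [map_sub, hxy, sub_self]))
    rw [h3]

end MP72e2e6
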