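import Pool.Agent.Lib.MP_72e2e6_nt.HStmt

/-!
# MP_72e2e6_nt: Galois theory
-/

namespace MP72e2e6

open Polynomial IsDedekindDomain WithZero Module

theorem tGal.{v} : StmtGal.{v} := by
  intro K K' L L' _ _ _ _ _ _ _ _ _ _ _ _ _ _ _ θ hθ hdeg
  have hfin : FiniteDimensional K L' := FiniteDimensional.trans K K' L'
  have hfin2 : FiniteDimensional L L' := Module.Finite.of_restrictScalars_finite K L L'
  obtain ⟨p, hp, hsp⟩ := IsGalois.is_separable_splitting_field K K'
  have h1 : finrank L L' = finrank K K' := by
    have h2 := Module.finrank_mul_finrank K K' L'
    have h3 := Module.finrank_mul_finrank K L L'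
    have h4 : 0 < finrank K L := Module.finrank_pos
    rw [hdeg] at h2
    rw [← h2, mul_comm] at h3
    exact Nat.eq_of_mul_eq_mul_right h4 h3
  have hsplit : IsSplittingField L L' (p.map (algebraMap K L)) := by
    constructor
    · rw [Polynomial.map_map, ← IsScalarTower.algebraMap_eq, IsScalarTower.algebraMap_eq K K' L',
        ← Polynomial.map_map]
      exact hsp.splits'.map _
    · rw [eq_top_iff]
      set S : Subalgebra L L' := Algebra.adjoin L ((p.map (algebraMap K L)).rootSet L') with hS
      have hA : ∀ c : K', algebraMap K' L' c ∈ S := by
        have h2 : Algebra.adjoin K (p.rootSet K') ≤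
            (S.restrictScalars K).comap (IsScalarTower.toAlgHom K K' L') := by
          rw [Algebra.adjoin_le_iff]
          intro c hc
          rw [mem_rootSet'] at hc
          refine Algebra.subset_adjoin ?_
          rw [mem_rootSet']
          constructor
          · intro h0
            rw [Polynomial.map_map, ← IsScalarTower.algebraMap_eq] at h0
            exact hp.ne_zero ((Polynomial.map_eq_zero _).1 h0)
          · change aeval (algebraMap K' L' c) (p.map (algebraMap K L)) = 0
            rw [aeval_map_algebraMap, aeval_algebraMap_apply, hc.2, map_zero]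
        intro c
        have h3 : c ∈ Algebra.adjoin K (p.rootSet K') := by
          rw [hsp.adjoin_rootSet']
          exact Algebra.mem_top
        exact h2 h3
      let U : Subalgebra K' L' :=
        { S.toSubsemiring with algebraMap_mem' := hA }
      have hU : (⊤ : Subalgebra K' L') ≤ U := by
        rw [← hθ, Algebra.adjoin_le_iff, Set.singleton_subset_iff]
        exact S.algebraMap_mem θ
      intro x _
      exact hU (Algebra.mem_top (x := x))
  exact ⟨hfin2, IsGalois.of_separable_splitting_field (p := p.map (algebraMap K L)) hp.map, h1⟩

end MP72e2e6
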