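import Pool.Agent.Lib.MP_72e2e6_nt.HStmt

/-!
# Statement HIrr
-/

namespace MP72e2e6

open Polynomial

universe u

theorem tIrr : StmtIrr.{u} := by
  intro K K' _ _ _ _ g hg hcop
  have hg0 : g.map (algebraMap K K') ≠ 0 := (Polynomial.map_ne_zero_iff
    (algebraMap K K').injective).2 hg.ne_zero
  have hdeg : 0 < g.natDegree := hg.natDegree_pos
  have hnu : ¬ IsUnit (g.map (algebraMap K K')) := by
    intro h
    have := natDegree_eq_zero_of_isUnit h
    rw [natDegree_map] at this
    omega
  obtain ⟨h, hh, hdvd⟩ := WfDvdMonoid.exists_irreducible_factor hnu hg0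
  haveI : Fact (Irreducible h) := ⟨hh⟩
  have hfr : Module.finrank K' (AdjoinRoot h) = h.natDegree := by
    rw [(AdjoinRoot.powerBasis hh.ne_zero).finrank, AdjoinRoot.powerBasis_dim]
  haveI : FiniteDimensional K' (AdjoinRoot h) :=
    (AdjoinRoot.powerBasis hh.ne_zero).finite
  haveI : FiniteDimensional K (AdjoinRoot h) := FiniteDimensional.trans K K' (AdjoinRoot h)
  have hroot : aeval (AdjoinRoot.root h) g = 0 := by
    rw [← aeval_map_algebraMap K' (AdjoinRoot.root h) g]
    obtain ⟨c, hc⟩ := hdvd
    rw [hc, map_mul, AdjoinRoot.aeval_eq, AdjoinRoot.mk_self, zero_mul]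
  have hmin : (minpoly K (AdjoinRoot.root h)).natDegree = g.natDegree := by
    rw [← minpoly.eq_of_irreducible hg hroot]
    exact natDegree_mul_C (inv_ne_zero (leadingCoeff_ne_zero.2 hg.ne_zero))
  have h1 : g.natDegree ∣ Module.finrank K (AdjoinRoot h) := by
    rw [← hmin]
    exact minpoly.degree_dvd (IsIntegral.of_finite K (AdjoinRoot.root h))
  rw [← Module.finrank_mul_finrank K K' (AdjoinRoot h), hfr] at h1
  have h2 : g.natDegree ∣ h.natDegree := hcop.dvd_of_dvd_mul_left h1
  have h3 : g.natDegree ≤ h.natDegree := Nat.le_of_dvd hh.natDegree_pos h2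
  have h4 : Associated h (g.map (algebraMap K K')) := by
    apply associated_of_dvd_of_natDegree_le hdvd hg0
    rw [natDegree_map]
    exact h3
  exact h4.irreducible hh

end MP72e2e6
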