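import Pool.Agent.Lib.MP_72e2e6_nt.HStmt

/-!
# MP_72e2e6_nt: norm and base change
-/

namespace MP72e2e6

open Polynomial IsDedekindDomain WithZero Module

/-- The matrix of the multiplication by the class of `f`. -/
theorem norm_entry {K : Type*} [Field K] {g : K[X]} (hg : g.Monic) (f : K[X])
    (i j : Fin g.natDegree) :
    Algebra.leftMulMatrix (AdjoinRoot.powerBasisAux' hg) (AdjoinRoot.mk g f) i j =
      ((f * X ^ (j : ℕ)) %ₘ g).coeff i := by
  have h1 : AdjoinRoot.powerBasisAux' hg j = AdjoinRoot.mk g (X ^ (j : ℕ)) := by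
    have h2 := (AdjoinRoot.powerBasis' hg).basis_eq_pow j
    rw [map_pow, AdjoinRoot.mk_X]
    exact h2
  rw [Algebra.leftMulMatrix_eq_repr_mul, h1, ← map_mul, AdjoinRoot.powerBasisAux'_repr_apply_to_fun,
    AdjoinRoot.modByMonicHom_mk]

theorem tNorm.{v} : StmtNorm.{v} := by
  intro K K' _ _ _ g hg x
  obtain ⟨f, rfl⟩ := AdjoinRoot.mk_surjective x
  have hg' : (g.map (algebraMap K K')).Monic := hg.map _
  have h1 : branchMap K' g (AdjoinRoot.mk g f) =
      AdjoinRoot.mk (g.map (algebraMap K K')) (f.map (algebraMap K K')) := by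
    have h2 : (branchMap K' g).comp (AdjoinRoot.mk g) =
        (AdjoinRoot.mk (g.map (algebraMap K K'))).comp (Polynomial.mapRingHom (algebraMap K K')) := by
      apply Polynomial.ringHom_ext
      · intro a
        simp [branchMap]
      · simp [branchMap]
    exact RingHom.congr_fun h2 f
  let e : Fin (g.map (algebraMap K K')).natDegree ≃ Fin g.natDegree :=
    finCongr (hg.natDegree_map _)
  rw [h1, Algebra.norm_eq_matrix_det (AdjoinRoot.powerBasisAux' hg),
    Algebra.norm_eq_matrix_det ((AdjoinRoot.powerBasisAux' hg').reindex e), RingHom.map_det]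
  congr 1
  ext i j
  have h2 : Algebra.leftMulMatrix ((AdjoinRoot.powerBasisAux' hg').reindex e)
      (AdjoinRoot.mk (g.map (algebraMap K K')) (f.map (algebraMap K K'))) i j =
      Algebra.leftMulMatrix (AdjoinRoot.powerBasisAux' hg')
      (AdjoinRoot.mk (g.map (algebraMap K K')) (f.map (algebraMap K K'))) (e.symm i)
        (e.symm j) := by
    rw [Algebra.leftMulMatrix_eq_repr_mul, Algebra.leftMulMatrix_eq_repr_mul,
      Basis.reindex_apply, Basis.repr_reindex_apply]
  rw [h2, norm_entry hg', RingHom.mapMatrix_apply, Matrix.map_apply, norm_entry hg,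
    ← Polynomial.coeff_map, Polynomial.map_modByMonic _ hg, Polynomial.map_mul, Polynomial.map_pow,
    Polynomial.map_X]
  rfl

end MP72e2e6
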