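import Pool.Agent.Lib.MP_72e2e6_nt.HTow
import Pool.Agent.Lib.MP_72e2e6_nt.HFrac
import Pool.Agent.Lib.MP_72e2e6_nt.HGal
import Pool.Agent.Lib.MP_72e2e6_nt.HNorm
import Pool.Agent.Lib.MP_72e2e6_nt.HIrr

/-!
# MP_72e2e6_nt: the theorem over `K` and over its `ℓ`-extensions
-/

namespace MP72e2e6

open IsDedekindDomain WithZero Polynomial Module

universe u

/-- `k[T]/(g) → M[T]/(g)` as an algebra -/
@[reducible] noncomputable def branchAlgebra {k : Type*} [CommRing k] (M : Type*) [CommRing M]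
    [Algebra k M] (g : k[X]) : Algebra (AdjoinRoot g) (AdjoinRoot (g.map (algebraMap k M))) :=
  (branchMap M g).toAlgebra

attribute [local instance] branchAlgebra

theorem algebraMap_branch {k : Type*} [CommRing k] (M : Type*) [CommRing M]
    [Algebra k M] (g : k[X]) (x : AdjoinRoot g) :
    algebraMap (AdjoinRoot g) (AdjoinRoot (g.map (algebraMap k M))) x = branchMap M g x := rfl

instance tower_branch {S k : Type*} [CommRing S] [CommRing k] [Algebra S k] (M : Type*)
    [CommRing M] [Algebra k M] [Algebra S M] [IsScalarTower S k M] (g : k[X]) :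
    IsScalarTower S (AdjoinRoot g) (AdjoinRoot (g.map (algebraMap k M))) := by
  apply IsScalarTower.of_algebraMap_eq
  intro r
  rw [algebraMap_branch, AdjoinRoot.algebraMap_eq', AdjoinRoot.algebraMap_eq',
    RingHom.comp_apply, RingHom.comp_apply, branchMap, AdjoinRoot.map_of,
    ← IsScalarTower.algebraMap_apply]

theorem finrank_branch {k M : Type*} [CommRing k] [Field M] [Algebra k M] (f : k[X])
    (hf : f.Monic) : finrank M (AdjoinRoot (f.map (algebraMap k M))) = f.natDegree := by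
  rw [(AdjoinRoot.powerBasis' (hf.map (algebraMap k M))).finrank, AdjoinRoot.powerBasis'_dim,
    hf.natDegree_map]

theorem relIndex_dvd_right {W : Type*} [CommGroup W] {P S E : Subgroup W} (h : S ≤ E) :
    P.relIndex S ∣ P.relIndex E := by
  rw [← Subgroup.relIndex_subgroupOf h]
  exact Subgroup.relIndex_dvd_index_of_normal _ _

section base

variable {R K : Type u} [CommRing R] [IsDedekindDomain R] [Field K] [Algebra R K]
  [IsFractionRing R K] (f : R[X]) [IsDedekindDomain (AdjoinRoot f)]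

/-- the bound for the group of elements with valuations divisible by `ℓ` -/
theorem index_base (hf : f.Monic) {ℓ : ℕ} (hℓ : ℓ.Prime) (hn : f.natDegree.Coprime ℓ)
    [Fact (Irreducible (f.map (algebraMap R K)))]
    [IsFractionRing (AdjoinRoot f) (AdjoinRoot (f.map (algebraMap R K)))] :
    (powers ℓ (AdjoinRoot (f.map (algebraMap R K)))ˣ).relIndex
      (ellSubgroup (AdjoinRoot f) (AdjoinRoot (f.map (algebraMap R K))) ℓ ⊓
        (powers ℓ Kˣ).comap (Units.map (Algebra.norm K :
          AdjoinRoot (f.map (algebraMap R K)) →* K))) ∣ branchBound f ℓ := by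
  have hfin : FiniteDimensional K (AdjoinRoot (f.map (algebraMap R K))) :=
    (hf.map (algebraMap R K)).finite_adjoinRoot
  exact tCount.{u} ℓ hℓ R K (AdjoinRoot f) (AdjoinRoot (f.map (algebraMap R K)))
    (by rw [finrank_branch f hf]; exact hn)

omit [IsFractionRing R K] [IsDedekindDomain (AdjoinRoot f)] in
theorem mem_branchSelmer [IsFractionRing R K] {ℓ : ℕ} {g : K[X]} (d : (AdjoinRoot g)ˣ) :
    d ∈ branchSelmer R ℓ g ↔
      (∃ y : Kˣ, y ^ ℓ = Units.map (Algebra.norm K : AdjoinRoot g →* K) d) ∧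
      ∀ v : HeightOneSpectrum R,
        Units.map (branchMap (v.adicCompletion K) g : AdjoinRoot g →* _) d ∈
          branchImage ℓ (g.map (algebraMap K (v.adicCompletion K))) := by
  rw [branchSelmer, Subgroup.mem_inf, Subgroup.mem_iInf]
  rfl

/-- the Selmer group consists of elements with valuations divisible by `ℓ` -/
theorem selmer_le_base (hf : f.Monic) {ℓ : ℕ} (hℓ : ℓ.Prime) (hn : f.natDegree.Coprime ℓ)
    [Fact (Irreducible (f.map (algebraMap R K)))]
    [IsFractionRing (AdjoinRoot f) (AdjoinRoot (f.map (algebraMap R K)))] :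
    branchSelmer R ℓ (f.map (algebraMap R K)) ≤
      ellSubgroup (AdjoinRoot f) (AdjoinRoot (f.map (algebraMap R K))) ℓ ⊓
        (powers ℓ Kˣ).comap (Units.map (Algebra.norm K :
          AdjoinRoot (f.map (algebraMap R K)) →* K)) := by
  intro d hd
  rw [mem_branchSelmer] at hd
  obtain ⟨⟨y, hy⟩, hd⟩ := hd
  refine ⟨?_, y, hy⟩
  intro 𝔮
  have hfin : Module.Finite R (AdjoinRoot f) := hf.finite_adjoinRoot
  have hfree : Module.Free R (AdjoinRoot f) := hf.free_adjoinRoot
  obtain ⟨v, hv⟩ := exists_under (A := R) 𝔮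
  have hover : 𝔮.asIdeal.LiesOver v.asIdeal := ⟨hv⟩
  obtain ⟨x, hx⟩ := 𝔮.intValuation_exists_uniformizer
  obtain ⟨p, rfl⟩ := AdjoinRoot.mk_surjective x
  have haev : ∀ q : R[X], aeval (AdjoinRoot.root f) q = AdjoinRoot.mk f q :=
    fun q => AdjoinRoot.aeval_eq q
  refine dvd_log_place v 𝔮 hf (θ := AdjoinRoot.root f) ?_ hℓ.pos hn (p := p) ?_ ?_ rfl d (hd v)
    (RingHom.id _) ?_ ?_
  · rw [haev, AdjoinRoot.mk_self]
  · rw [haev, hx]
  · intro g hg
    rw [haev] at hg
    obtain ⟨s, hs, hs'⟩ := tDed.{u} (AdjoinRoot f) 𝔮 _ hx _ hg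
    obtain ⟨s, rfl⟩ := AdjoinRoot.mk_surjective s
    obtain ⟨a, ha⟩ := hs'
    obtain ⟨a, rfl⟩ := AdjoinRoot.mk_surjective a
    refine ⟨s, by rw [haev]; exact hs, ?_⟩
    rw [← map_mul, ← map_mul, AdjoinRoot.mk_eq_mk] at ha
    obtain ⟨c, hc⟩ := ha
    rw [Ideal.mem_span_pair]
    exact ⟨a, c, by linear_combination -hc⟩
  · intro x
    rfl
  · rw [algebraMap_branch, branchMap, AdjoinRoot.map_root]
    rfl

/-- **The bound over `K`.** -/
theorem bound_base (hf : f.Monic) {ℓ : ℕ} (hℓ : ℓ.Prime) (hn : f.natDegree.Coprime ℓ) :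
    (powers ℓ (AdjoinRoot (f.map (algebraMap R K)))ˣ).relIndex
      (branchSelmer R ℓ (f.map (algebraMap R K))) ∣ branchBound f ℓ := by
  obtain ⟨hirr, hfrac⟩ := tFrac.{u} R K f hf
  have : Fact (Irreducible (f.map (algebraMap R K))) := ⟨hirr⟩
  have := hfrac rfl
  exact (relIndex_dvd_right (selmer_le_base f hf hℓ hn)).trans
    (index_base f hf hℓ hn)

end base

end MP72e2e6
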