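import Pool.Agent.Lib.MP_72e2e6_nt.HStmt

/-!
# MP_72e2e6_nt, module HIso: `F[t][T] / (f₀(T) - t)` is the polynomial ring in `T`
-/

namespace MP72e2e6

open Polynomial IsDedekindDomain WithZero Module

universe u

theorem tIso : StmtIso.{u} := by
  intro F _ f₀
  set f : F[X][X] := f₀.map (C : F →+* F[X]) - C X with hf
  have h1 : f.eval₂ (Polynomial.compRingHom f₀) (X : F[X]) = 0 := by
    have e1 : (Polynomial.compRingHom f₀).comp (C : F →+* F[X]) = C := by
      ext a
      simp [Polynomial.compRingHom]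
    rw [hf, eval₂_sub, eval₂_map, e1, eval₂_C, eval₂_C_X]
    simp [Polynomial.compRingHom]
  let φ : AdjoinRoot f →+* F[X] := AdjoinRoot.lift (Polynomial.compRingHom f₀) X h1
  let ψ : F[X] →+* AdjoinRoot f :=
    eval₂RingHom ((AdjoinRoot.of f).comp (C : F →+* F[X])) (AdjoinRoot.root f)
  have hφo : ∀ a : F[X], φ (AdjoinRoot.of f a) = a.comp f₀ := by
    intro a
    exact AdjoinRoot.lift_of h1
  have hφr : φ (AdjoinRoot.root f) = X := AdjoinRoot.lift_root h1
  have hψC : ∀ a : F, ψ (C a) = AdjoinRoot.of f (C a) := by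
    intro a
    simp [ψ]
  have hψX : ψ X = AdjoinRoot.root f := by
    simp [ψ]
  have h2 : φ.comp ψ = RingHom.id F[X] := by
    refine Polynomial.ringHom_ext (fun a => ?_) ?_
    · rw [RingHom.comp_apply, hψC, hφo, C_comp, RingHom.id_apply]
    · rw [RingHom.comp_apply, hψX, hφr, RingHom.id_apply]
  have h3 : ψ f₀ = AdjoinRoot.of f X := by
    have e1 : f.eval₂ (AdjoinRoot.of f) (AdjoinRoot.root f) = 0 := AdjoinRoot.eval₂_root f
    rw [hf, eval₂_sub, eval₂_map, eval₂_C, ← hf] at e1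
    exact sub_eq_zero.mp e1
  have h4 : ψ.comp φ = RingHom.id (AdjoinRoot f) := by
    refine AdjoinRoot.ringHom_ext ?_ ?_
    · refine Polynomial.ringHom_ext (fun a => ?_) ?_
      · rw [RingHom.comp_apply, RingHom.comp_apply, hφo, C_comp, hψC]
        rfl
      · rw [RingHom.comp_apply, RingHom.comp_apply, hφo, X_comp, h3]
        rfl
    · rw [RingHom.comp_apply, hφr, hψX, RingHom.id_apply]
  exact ⟨RingEquiv.ofRingHom φ ψ h2 h4, hφr, hφo⟩

end MP72e2e6
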