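import Pool.Agent.Lib.MP_72e2e6_nt.HDim

/-!
# MP_72e2e6_nt: the local lemma
-/

namespace MP72e2e6

open Polynomial WithZero

section prep

variable {O k : Type*} [CommRing O] [IsDomain O] [Field k] [Algebra O k] [IsFractionRing O k]

/-- clearing denominators -/
theorem exists_denom (w : k[X]) :
    ∃ (c : O) (W : O[X]), c ≠ 0 ∧ W.map (algebraMap O k) = C (algebraMap O k c) * w := by
  obtain ⟨b, hb, h⟩ := IsLocalization.integerNormalization_spec (nonZeroDivisors O) w
  refine ⟨b, _, nonZeroDivisors.ne_zero hb, h.trans ?_⟩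
  rw [← Polynomial.smul_eq_C_mul]
  ext i
  rw [coeff_smul, coeff_smul, Algebra.smul_def, smul_eq_mul]

theorem map_poly_injective : Function.Injective (Polynomial.map (algebraMap O k)) :=
  Polynomial.map_injective _ (IsFractionRing.injective O k)

variable [IsDiscreteValuationRing O]

/-- primitive multiples of monic polynomials -/
theorem exists_primitive {π : O} (hπ : Irreducible π) {u : k[X]} (hu : u.Monic) :
    ∃ (k0 : ℕ) (U : O[X]), U.map (algebraMap O k) = C (algebraMap O k π ^ k0) * u ∧ ¬ C π ∣ U := by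
  classical
  have hex : ∃ k0 : ℕ, ∃ U : O[X], U.map (algebraMap O k) = C (algebraMap O k π ^ k0) * u := by
    obtain ⟨c, W, hc, hW⟩ := exists_denom (O := O) u
    obtain ⟨k0, w, rfl⟩ := IsDiscreteValuationRing.eq_unit_mul_pow_irreducible hc hπ
    refine ⟨k0, C ((w⁻¹ : Oˣ) : O) * W, ?_⟩
    rw [Polynomial.map_mul, map_C, hW, ← mul_assoc, ← C_mul, ← map_pow, ← map_mul, ← mul_assoc,
      Units.inv_mul, one_mul]
  obtain ⟨U, hU⟩ := Nat.find_spec hex
  refine ⟨Nat.find hex, U, hU, ?_⟩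
  rintro ⟨V, hV⟩
  have hπk : algebraMap O k π ≠ 0 := by
    rw [Ne, map_eq_zero_iff _ (IsFractionRing.injective O k)]
    exact hπ.ne_zero
  rcases Nat.eq_zero_or_pos (Nat.find hex) with h0 | hpos
  · rw [h0, pow_zero, C_1, one_mul] at hU
    have h1 := congrArg (fun p => p.coeff u.natDegree) hU
    simp only [coeff_map, hV, coeff_C_mul, hu.coeff_natDegree] at h1
    have h2 : π * V.coeff u.natDegree = 1 := by
      apply IsFractionRing.injective O k
      rw [h1, map_one]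
    exact hπ.not_isUnit (IsUnit.of_mul_eq_one _ h2)
  · refine Nat.find_min hex (Nat.sub_lt hpos Nat.one_pos) ⟨V, ?_⟩
    have h1 : C (algebraMap O k π) * V.map (algebraMap O k) =
        C (algebraMap O k π) * (C (algebraMap O k π ^ (Nat.find hex - 1)) * u) := by
      rw [← mul_assoc, ← C_mul, ← pow_succ', Nat.sub_add_cancel hpos, ← hU, hV,
        Polynomial.map_mul, map_C]
    exact mul_left_cancel₀ (by rwa [Ne, C_eq_zero]) h1

theorem leading_primitive {π : O} {u : k[X]} (hu : u.Monic) {k0 : ℕ}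
    {U : O[X]} (hU : U.map (algebraMap O k) = C (algebraMap O k π ^ k0) * u) (hπ : π ≠ 0) :
    U.leadingCoeff = π ^ k0 := by
  apply IsFractionRing.injective O k
  have h0 : algebraMap O k π ^ k0 ≠ 0 := by
    apply pow_ne_zero
    rw [Ne, map_eq_zero_iff _ (IsFractionRing.injective O k)]
    exact hπ
  rw [← leadingCoeff_map_of_injective (IsFractionRing.injective O k), hU, leadingCoeff_C_mul_of_isUnit
    h0.isUnit, hu.leadingCoeff, mul_one, map_pow]

end prep

theorem reflect_pow {R : Type*} [CommRing R] {W : R[X]} {s : ℕ} (hs : W.natDegree ≤ s) (ℓ : ℕ) :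
    reflect (s * ℓ) (W ^ ℓ) = (reflect s W) ^ ℓ := by
  induction ℓ with
  | zero => simp
  | succ ℓ ih =>
    rw [pow_succ, pow_succ, Nat.mul_succ, reflect_mul _ _ ?_ hs, ih]
    exact natDegree_pow_le.trans (by rw [mul_comm]; exact Nat.mul_le_mul_right _ hs)

section local_

variable {O k M : Type*} [CommRing O] [IsDomain O] [IsDiscreteValuationRing O] [Field k]
  [Algebra O k] [IsFractionRing O k] [Field M]

/-- the integral relation -/
theorem exists_relation {ℓ : ℕ} {f : O[X]} {u w : k[X]}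
    (hdvd : u ∣ f.map (algebraMap O k) - w ^ ℓ) {a : k} (ha : a ≠ 0) {U : O[X]}
    (hU : U.map (algebraMap O k) = C a * u) :
    ∃ (c c' : O) (W h : O[X]), c ≠ 0 ∧ c' ≠ 0 ∧ C c' * (C c ^ ℓ * f - W ^ ℓ) = U * h := by
  obtain ⟨h, hh⟩ := hdvd
  obtain ⟨c, W, hc, hW⟩ := exists_denom (O := O) w
  obtain ⟨c', h', hc', hh'⟩ := exists_denom (O := O) (C a⁻¹ * C (algebraMap O k c) ^ ℓ * h)
  refine ⟨c, c', W, h', hc, hc', ?_⟩
  apply map_poly_injective (O := O) (k := k)
  have hCa : (C a : k[X]) * C a⁻¹ = 1 := by rw [← C_mul, mul_inv_cancel₀ ha, C_1]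
  simp only [Polynomial.map_mul, Polynomial.map_sub, Polynomial.map_pow, map_C, hW, hh', hU]
  have h1 : C (algebraMap O k c) ^ ℓ * f.map (algebraMap O k) -
      (C (algebraMap O k c) * w) ^ ℓ = C (algebraMap O k c) ^ ℓ * (u * h) := by
    rw [mul_pow, ← mul_sub, hh]
  rw [h1]
  linear_combination (-(C (algebraMap O k c') * C (algebraMap O k c) ^ ℓ * u * h)) * hCa

/-- the relation modulo `U` at a prime -/
theorem relation_mod {𝔪 : Ideal O[X]} [𝔪.IsPrime] (Q : Type*) [CommRing Q] [IsDomain Q]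
    [Algebra O[X] Q] [IsLocalization.AtPrime Q 𝔪] {g : O[X]} {π : O}
    (hπ : Irreducible π) (hg : ¬ C π ∣ g) {c' : O} (hc' : c' ≠ 0) {x y h : O[X]}
    (hrel : C c' * (x - y) = g * h) :
    Ideal.Quotient.mk (Ideal.span {algebraMap O[X] Q g}) (algebraMap O[X] Q x) =
      Ideal.Quotient.mk (Ideal.span {algebraMap O[X] Q g}) (algebraMap O[X] Q y) := by
  have h1 := C_regular (𝔪 := 𝔪) Q hπ hg hc'
  have h2 := congrArg (fun z => Ideal.Quotient.mk (Ideal.span {algebraMap O[X] Q g})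
    (algebraMap O[X] Q z)) hrel
  simp only [map_mul] at h2
  rw [Ideal.Quotient.eq_zero_iff_mem.2 (Ideal.mem_span_singleton_self (algebraMap O[X] Q g)),
    zero_mul] at h2
  have h3 := (mem_nonZeroDivisors_iff_left.1 h1) _ h2
  rwa [map_sub, map_sub, sub_eq_zero] at h3

/-- the prime of the polynomials with value in the maximal ideal -/
def valuePrime {P : Type*} [CommRing P] (v : Valuation M (WithZero (Multiplicative ℤ)))
    (Λ : P →+* M) (hΛ : ∀ g, v (Λ g) ≤ 1) : Ideal P where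
  carrier := {g | v (Λ g) < 1}
  add_mem' := by
    intro x y hx hy
    change v (Λ (x + y)) < 1
    rw [map_add]
    exact lt_of_le_of_lt (Valuation.map_add _ _ _) (max_lt hx hy)
  zero_mem' := by
    change v (Λ 0) < 1
    rw [map_zero, map_zero]
    exact zero_lt_one
  smul_mem' := by
    intro x y hy
    change v (Λ (x * y)) < 1
    rw [map_mul, map_mul]
    exact mul_lt_one_of_nonneg_of_lt_one_right (hΛ x) zero_le hy

theorem mem_valuePrime {P : Type*} [CommRing P] {v : Valuation M (WithZero (Multiplicative ℤ))}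
    {Λ : P →+* M} (hΛ : ∀ g, v (Λ g) ≤ 1) (g : P) : g ∈ valuePrime v Λ hΛ ↔ v (Λ g) < 1 := Iff.rfl

theorem valuePrime_isPrime {P : Type*} [CommRing P] {v : Valuation M (WithZero (Multiplicative ℤ))}
    {Λ : P →+* M} (hΛ : ∀ g, v (Λ g) ≤ 1) : (valuePrime v Λ hΛ).IsPrime where
  ne_top' := by
    rw [Ideal.ne_top_iff_one, mem_valuePrime, map_one, map_one]
    exact lt_irrefl _
  mem_or_mem' := by
    intro x y h
    by_contra hcon
    rw [not_or, mem_valuePrime, mem_valuePrime, not_lt, not_lt] at hcon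
    rw [mem_valuePrime, map_mul, map_mul, le_antisymm (hΛ x) hcon.1,
      le_antisymm (hΛ y) hcon.2, one_mul] at h
    exact lt_irrefl _ h

/-- the finite chart -/
theorem dvd_finite_chart {v : Valuation M (WithZero (Multiplicative ℤ))} {Λ : O[X] →+* M}
    (hΛ : ∀ g, v (Λ g) ≤ 1) {f p : O[X]} (hf : Λ f = 0) (hp : v (Λ p) = exp (-1 : ℤ))
    (H : ∀ g, v (Λ g) < 1 → ∃ s, v (Λ s) = 1 ∧ s * g ∈ Ideal.span {p, f})
    {π : O} (hπ : Irreducible π) {ℓ : ℕ} {u w : k[X]}
    (hcop : IsCoprime u (f.map (algebraMap O k)))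
    (hdvd : u ∣ f.map (algebraMap O k) - w ^ ℓ) {a : k} (ha : a ≠ 0) {U : O[X]}
    (hU : U.map (algebraMap O k) = C a * u) (hU0 : Λ U ≠ 0) (hUπ : ¬ C π ∣ U) :
    ∃ n : ℕ, ℓ ∣ n ∧ v (Λ U) = exp (-(n : ℤ)) := by
  have hprime := valuePrime_isPrime hΛ
  obtain ⟨n, hn, hn'⟩ := ord_branch (𝔪 := valuePrime v Λ hΛ) hΛ (mem_valuePrime hΛ) hf hp
    (fun g hg => by
      obtain ⟨s, hs, h⟩ := H g hg
      refine ⟨s, fun h' => ?_, h⟩
      rw [mem_valuePrime, hs] at h'
      exact lt_irrefl _ h') hU0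
  refine ⟨n, ?_, hn'⟩
  rw [← ord_symm] at hn
  have hU0' : U ≠ 0 := by
    rintro rfl
    exact hU0 (map_zero _)
  have hdim := krullDimLE_localQuot (𝔪 := valuePrime v Λ hΛ) hU0'
  obtain ⟨c, c', W, h, hc, hc', hrel⟩ := exists_relation hdvd ha hU
  have h1 := relation_mod (𝔪 := valuePrime v Λ hΛ) (Localization.AtPrime (valuePrime v Λ hΛ))
    hπ hUπ hc' hrel
  -- regularity of f
  obtain ⟨α, β, hαβ⟩ := hcop
  obtain ⟨c1, A1, hc1, hA1⟩ := exists_denom (O := O) (C a⁻¹ * α)
  obtain ⟨c2, B1, hc2, hB1⟩ := exists_denom (O := O) β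
  have hcop' : (C c1 * B1) * f + (C c2 * A1) * U = C (c1 * c2) := by
    apply map_poly_injective (O := O) (k := k)
    have hCa : (C a : k[X]) * C a⁻¹ = 1 := by rw [← C_mul, mul_inv_cancel₀ ha, C_1]
    simp only [Polynomial.map_add, Polynomial.map_mul, map_C, hA1, hB1, hU, map_mul]
    linear_combination (C (algebraMap O k c1) * C (algebraMap O k c2)) * hαβ +
      (C (algebraMap O k c1) * C (algebraMap O k c2) * α * u) * hCa
  have hfreg := mk_regular (𝔪 := valuePrime v Λ hΛ) (Localization.AtPrime (valuePrime v Λ hΛ))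
    hπ hUπ (mul_ne_zero hc1 hc2) hcop'
  have hcreg := C_regular (𝔪 := valuePrime v Λ hΛ) (Localization.AtPrime (valuePrime v Λ hΛ))
    hπ hUπ hc
  have h2 := dvd_ord (ℓ := ℓ) (a := 1) (E := 1) hfreg isUnit_one hcreg
    (W := Ideal.Quotient.mk _ (algebraMap O[X] (Localization.AtPrime (valuePrime v Λ hΛ)) W))
    (by
      simp only [map_mul, map_pow] at h1
      rw [pow_one, mul_one, mul_comm]
      exact h1) hn
  rwa [one_mul] at h2

/-- the chart at infinity -/
theorem dvd_infinite_chart {v : Valuation k (WithZero (Multiplicative ℤ))}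
    (hv : ∀ a : O, v (algebraMap O k a) ≤ 1) {π : O} (hπ : Irreducible π)
    (hvπ : v (algebraMap O k π) = exp (-1 : ℤ)) {ℓ : ℕ} (hℓ : 0 < ℓ) {f : O[X]} (hf : f.Monic)
    (hn : Nat.Coprime f.natDegree ℓ) {u w : k[X]} (hu : u.Monic)
    (hdvd : u ∣ f.map (algebraMap O k) - w ^ ℓ) {k0 : ℕ} {U : O[X]}
    (hU : U.map (algebraMap O k) = C (algebraMap O k π ^ k0) * u) (hUπ : ¬ C π ∣ U) :
    ℓ ∣ k0 := by
  classical
  have hπ0 : algebraMap O k π ≠ 0 := by
    rw [Ne, map_eq_zero_iff _ (IsFractionRing.injective O k)]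
    exact hπ.ne_zero
  have hlead := leading_primitive hu hU hπ.ne_zero
  set V := U.reverse with hV
  have hV0 : V.coeff 0 = π ^ k0 := by rw [hV, coeff_zero_reverse, hlead]
  let Λ : O[X] →+* k := (algebraMap O k).comp (evalRingHom (0 : O))
  have hΛdef : ∀ g : O[X], Λ g = algebraMap O k (g.coeff 0) := by
    intro g
    rw [coeff_zero_eq_eval_zero]
    rfl
  have hΛ : ∀ g, v (Λ g) ≤ 1 := fun g => hv _
  have hprime := valuePrime_isPrime hΛ
  have hΛV : Λ V = algebraMap O k π ^ k0 := by rw [hΛdef, hV0, map_pow]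
  obtain ⟨n, hn1, hn2⟩ := ord_branch (𝔪 := valuePrime v Λ hΛ) (f := X) (p := C π) hΛ
    (mem_valuePrime hΛ) (by rw [hΛdef, coeff_X_zero, map_zero])
    (by rw [hΛdef, coeff_C_zero, hvπ])
    (fun g hg => by
      refine ⟨1, Ideal.ne_top_iff_one _ |>.1 hprime.ne_top', ?_⟩
      rw [one_mul, Ideal.mem_span_pair]
      have h1 : ∃ b, g.coeff 0 = b * π := by
        by_contra hcon
        have h2 : IsUnit (g.coeff 0) := by
          by_contra hnu
          have h3 : g.coeff 0 ∈ IsLocalRing.maximalIdeal O := hnu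
          rw [hπ.maximalIdeal_eq] at h3
          obtain ⟨b, hb⟩ := Ideal.mem_span_singleton'.1 h3
          exact hcon ⟨b, hb.symm⟩
        obtain ⟨y, hy⟩ := h2.exists_left_inv
        have h3 := congrArg (fun z => v (algebraMap O k z)) hy
        simp only [map_mul, map_one] at h3
        rw [mem_valuePrime, hΛdef] at hg
        have h4 : v (algebraMap O k y) * v (algebraMap O k (g.coeff 0)) < 1 :=
          mul_lt_one_of_nonneg_of_lt_one_right (hv y) zero_le hg
        rw [h3] at h4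
        exact lt_irrefl _ h4
      obtain ⟨b, hb⟩ := h1
      refine ⟨C b, g.divX, ?_⟩
      rw [← C_mul, ← hb, add_comm]
      exact g.divX_mul_X_add) (by rw [hΛV]; exact pow_ne_zero _ hπ0 : Λ V ≠ 0)
  have hnk : n = k0 := by
    rw [hΛV, map_pow, hvπ, ← exp_nsmul, exp_inj] at hn2
    simp only [nsmul_eq_mul, mul_neg, mul_one, neg_inj] at hn2
    exact_mod_cast hn2.symm
  subst hnk
  rw [← ord_symm] at hn1
  have hVπ : ¬ C π ∣ V := by
    intro h
    apply hUπ
    rw [C_dvd_iff_dvd_coeff] at h ⊢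
    intro i
    have h1 := h (revAt U.natDegree i)
    rwa [hV, coeff_reverse, revAt_invol] at h1
  have hV0' : V ≠ 0 := by
    intro h
    rw [h, coeff_zero] at hV0
    exact pow_ne_zero _ hπ.ne_zero hV0.symm
  have hdim := krullDimLE_localQuot (𝔪 := valuePrime v Λ hΛ) hV0'
  obtain ⟨c, c', W, h, hc, hc', hrel⟩ := exists_relation hdvd (pow_ne_zero n hπ0) hU
  -- reflect the relation
  obtain ⟨s, hs1, hs2, hs3⟩ : ∃ s : ℕ, W.natDegree ≤ s ∧ f.natDegree ≤ s * ℓ ∧
      U.natDegree + h.natDegree ≤ s * ℓ := by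
    refine ⟨W.natDegree + f.natDegree + (U.natDegree + h.natDegree), by omega, ?_, ?_⟩
    · exact le_trans (by omega) (Nat.le_mul_of_pos_right _ hℓ)
    · exact le_trans (by omega) (Nat.le_mul_of_pos_right _ hℓ)
  have hrel' : C c' * (X ^ (s * ℓ - f.natDegree) * f.reverse * C c ^ ℓ - (reflect s W) ^ ℓ) =
      V * reflect (s * ℓ - U.natDegree) h := by
    have h1 := congrArg (reflect (s * ℓ)) hrel
    have h2 : reflect (s * ℓ) (U * h) = V * reflect (s * ℓ - U.natDegree) h := by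
      have h3 := reflect_mul U h (le_refl U.natDegree)
        (show h.natDegree ≤ s * ℓ - U.natDegree by omega)
      rw [Nat.add_sub_cancel' (by omega)] at h3
      exact h3
    have h4 : reflect (s * ℓ) f = X ^ (s * ℓ - f.natDegree) * f.reverse := by
      have h3 := reflect_mul f (1 : O[X]) (le_refl f.natDegree)
        (show (1 : O[X]).natDegree ≤ s * ℓ - f.natDegree by rw [natDegree_one]; exact Nat.zero_le _)
      rw [Nat.add_sub_cancel' hs2, mul_one, reflect_one] at h3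
      rw [h3, mul_comm]
      rfl
    rw [h2, reflect_C_mul, reflect_sub, reflect_pow hs1, ← C_pow, reflect_C_mul, h4] at h1
    rw [← h1, ← C_pow]
    ring
  have h1 := relation_mod (𝔪 := valuePrime v Λ hΛ) (Localization.AtPrime (valuePrime v Λ hΛ))
    hπ hVπ hc' hrel'
  have hXreg := mk_regular (𝔪 := valuePrime v Λ hΛ) (Localization.AtPrime (valuePrime v Λ hΛ))
    hπ hVπ (pow_ne_zero n hπ.ne_zero) (h := X) (E := - V.divX) (B := 1) (by
      have h2 := V.divX_mul_X_add
      rw [hV0] at h2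
      linear_combination (-1 : O[X]) * h2)
  have hcreg := C_regular (𝔪 := valuePrime v Λ hΛ) (Localization.AtPrime (valuePrime v Λ hΛ))
    hπ hVπ hc
  have hfunit : IsUnit (Ideal.Quotient.mk (Ideal.span
      {algebraMap O[X] (Localization.AtPrime (valuePrime v Λ hΛ)) V})
      (algebraMap O[X] (Localization.AtPrime (valuePrime v Λ hΛ)) f.reverse)) := by
    refine IsUnit.map _ (IsLocalization.map_units _
      (⟨f.reverse, ?_⟩ : (valuePrime v Λ hΛ).primeCompl))
    intro h2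
    have h3 : v (Λ f.reverse) < 1 := h2
    rw [hΛdef, coeff_zero_reverse, hf.leadingCoeff, map_one, map_one] at h3
    exact lt_irrefl _ h3
  have h2 := dvd_ord (ℓ := ℓ) (a := s * ℓ - f.natDegree) hXreg hfunit hcreg
    (W := Ideal.Quotient.mk _ (algebraMap O[X] (Localization.AtPrime (valuePrime v Λ hΛ))
      (reflect s W)))
    (by
      simp only [map_mul, map_pow] at h1
      exact h1) hn1
  have h3 : ℓ ∣ f.natDegree * n := by
    rw [Nat.sub_mul] at h2
    have h4 : ℓ ∣ s * ℓ * n := ⟨s * n, by ring⟩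
    have h5 : f.natDegree * n ≤ s * ℓ * n := Nat.mul_le_mul_right _ hs2
    exact (Nat.dvd_sub_iff_right h5 h4).1 h2
  exact (Nat.Coprime.symm hn).dvd_of_dvd_mul_left h3

/-- **The local lemma.** -/
theorem dvd_log_local {v : Valuation M (WithZero (Multiplicative ℤ))} {ι : k →+* M}
    {vk : Valuation k (WithZero (Multiplicative ℤ))}
    (hι : ∀ a : O, v (ι (algebraMap O k a)) ≤ 1) (hvk : ∀ a : O, vk (algebraMap O k a) ≤ 1)
    {π : O} (hπ : Irreducible π) (hvπ : vk (algebraMap O k π) = exp (-1 : ℤ))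
    {θ : M} (hθ : v θ ≤ 1) {f p : O[X]} (hf : f.Monic)
    (hfθ : f.eval₂ (ι.comp (algebraMap O k)) θ = 0)
    (hp : v (p.eval₂ (ι.comp (algebraMap O k)) θ) = exp (-1 : ℤ))
    (H : ∀ g : O[X], v (g.eval₂ (ι.comp (algebraMap O k)) θ) < 1 →
      ∃ s : O[X], v (s.eval₂ (ι.comp (algebraMap O k)) θ) = 1 ∧ s * g ∈ Ideal.span {p, f})
    {ℓ : ℕ} (hℓ : 0 < ℓ) (hn : Nat.Coprime f.natDegree ℓ) {u w : k[X]} (hu : u.Monic)
    (hcop : IsCoprime u (f.map (algebraMap O k)))
    (hdvd : u ∣ f.map (algebraMap O k) - w ^ ℓ) :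
    (ℓ : ℤ) ∣ log (v (u.eval₂ ι θ)) := by
  obtain ⟨k0, U, hU, hUπ⟩ := exists_primitive hπ hu
  have hπ0 : algebraMap O k π ≠ 0 := by
    rw [Ne, map_eq_zero_iff _ (IsFractionRing.injective O k)]
    exact hπ.ne_zero
  let Λ : O[X] →+* M := eval₂RingHom (ι.comp (algebraMap O k)) θ
  have hΛ : ∀ g, v (Λ g) ≤ 1 := by
    intro g
    change v (g.eval₂ (ι.comp (algebraMap O k)) θ) ≤ 1
    rw [eval₂_eq_sum, Polynomial.sum]
    refine Valuation.map_sum_le _ fun i _ => ?_
    rw [map_mul, map_pow]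
    exact mul_le_one' (hι _) (pow_le_one' hθ _)
  have huθ : u.eval₂ ι θ ≠ 0 := by
    intro h0
    obtain ⟨α, β, hαβ⟩ := hcop
    have h1 := congrArg (fun q => q.eval₂ ι θ) hαβ
    simp only [eval₂_add, eval₂_mul, h0, mul_zero, zero_add, eval₂_one, eval₂_map, hfθ] at h1
    exact zero_ne_one h1
  have hΛU : Λ U = ι (algebraMap O k π) ^ k0 * u.eval₂ ι θ := by
    change U.eval₂ (ι.comp (algebraMap O k)) θ = _
    rw [← eval₂_map, hU, eval₂_mul, eval₂_C, map_pow]
  have hιπ : ι (algebraMap O k π) ≠ 0 := by rwa [Ne, map_eq_zero]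
  have hU0 : Λ U ≠ 0 := by
    rw [hΛU]
    exact mul_ne_zero (pow_ne_zero _ hιπ) huθ
  obtain ⟨n, hn1, hn2⟩ := dvd_finite_chart hΛ (f := f) (p := p) hfθ hp H hπ hcop hdvd
    (pow_ne_zero k0 hπ0) hU hU0 hUπ
  have hk0 := dvd_infinite_chart hvk hπ hvπ hℓ hf hn hu hdvd hU hUπ
  rw [hΛU, map_mul, map_pow] at hn2
  have h1 := congrArg log hn2
  rw [log_mul (pow_ne_zero _ ((Valuation.ne_zero_iff _).2 hιπ)) ((Valuation.ne_zero_iff _).2 huθ),
    log_pow, log_exp, nsmul_eq_mul] at h1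
  have h2 : log (v (u.eval₂ ι θ)) = -(n : ℤ) - (k0 : ℤ) * log (v (ι (algebraMap O k π))) := by
    linear_combination h1
  rw [h2]
  exact dvd_sub (dvd_neg.2 (Int.natCast_dvd_natCast.2 hn1))
    (Dvd.dvd.mul_right (Int.natCast_dvd_natCast.2 hk0) _)

end local_

end MP72e2e6
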