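import Mathlib

/-!
# MP_72e2e6_nt: orders of vanishing and lengths
-/

namespace MP72e2e6

open Ring

/-- symmetry of the intersection number -/
theorem ord_symm {P : Type*} [CommRing P] (f u : P) :
    Ring.ord (P ⧸ Ideal.span {u}) (Ideal.Quotient.mk _ f) =
      Ring.ord (P ⧸ Ideal.span {f}) (Ideal.Quotient.mk _ u) := by
  have h1 : ∀ f u : P, Ring.ord (P ⧸ Ideal.span {u}) (Ideal.Quotient.mk _ f) =
      Module.length P (P ⧸ (Ideal.span {u} ⊔ Ideal.span {f})) := by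
    intro f u
    rw [Ring.ord, ← Module.length_eq_of_surjective (S := P) (R := P ⧸ Ideal.span {u})
      Ideal.Quotient.mk_surjective]
    have h2 : Ideal.span {(Ideal.Quotient.mk (Ideal.span {u})) f} =
        (Ideal.span {f}).map (Ideal.Quotient.mk (Ideal.span {u})) := by
      rw [Ideal.map_span, Set.image_singleton]
    rw [h2]
    exact (DoubleQuot.quotQuotEquivQuotSupₐ P (Ideal.span {u}) (Ideal.span {f})).toLinearEquiv.length_eq
  rw [h1, h1, sup_comm]

theorem ord_eq_natCast {D : Type*} [CommRing D] [IsNoetherianRing D] [Ring.KrullDimLE 1 D] {x : D}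
    (hx : x ∈ nonZeroDivisors D) : ∃ n : ℕ, Ring.ord D x = n := by
  obtain ⟨n, hn⟩ := ENat.ne_top_iff_exists.1 (Ring.ord_ne_top hx)
  exact ⟨n, hn.symm⟩

/-- the order of `F` is divisible by `ℓ` if `F ^ a * c ^ ℓ` is an `ℓ`-th power -/
theorem dvd_ord {D : Type*} [CommRing D] [IsNoetherianRing D] [Ring.KrullDimLE 1 D] {ℓ a : ℕ}
    {F E c W : D} (hF : F ∈ nonZeroDivisors D) (hE : IsUnit E) (hc : c ∈ nonZeroDivisors D)
    (h : F ^ a * E * c ^ ℓ = W ^ ℓ) {n : ℕ} (hn : Ring.ord D F = n) : ℓ ∣ a * n := by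
  rcases Nat.eq_zero_or_pos ℓ with rfl | hℓ
  · have h0 : F ^ a * E = 1 := by simpa using h
    have h1 : IsUnit (F ^ a) := IsUnit.of_mul_eq_one _ h0
    rcases Nat.eq_zero_or_pos a with rfl | ha
    · simp
    have h2 : IsUnit F := (isUnit_pow_iff ha.ne').1 h1
    rw [Ring.ord_of_isUnit h2] at hn
    have : n = 0 := by exact_mod_cast hn.symm
    simp [this]
  have hW : W ∈ nonZeroDivisors D := by
    have h1 : W ^ ℓ ∈ nonZeroDivisors D := by
      rw [← h]
      exact mul_mem (mul_mem (pow_mem hF _) hE.mem_nonZeroDivisors) (pow_mem hc _)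
    obtain ⟨k, rfl⟩ := Nat.exists_eq_succ_of_ne_zero hℓ.ne'
    rw [pow_succ] at h1
    exact (mul_mem_nonZeroDivisors.1 h1).2
  obtain ⟨s, hs⟩ := ord_eq_natCast hc
  obtain ⟨t, ht⟩ := ord_eq_natCast hW
  have h1 := congrArg (Ring.ord D) h
  rw [Ring.ord_mul (R := D) (pow_mem hc _), Ring.ord_mul_of_isUnit_right hE, Ring.ord_pow hF,
    Ring.ord_pow hc, Ring.ord_pow hW, hn, hs, ht] at h1
  have h2 : a * n + ℓ * s = ℓ * t := by
    have h3 : ((a * n + ℓ * s : ℕ) : ℕ∞) = ((ℓ * t : ℕ) : ℕ∞) := by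
      push_cast
      simpa [nsmul_eq_mul] using h1
    exact_mod_cast h3
  exact (Nat.dvd_add_left (dvd_mul_right ℓ s)).1 (h2 ▸ dvd_mul_right ℓ t)

end MP72e2e6
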