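import Pool.Agent.Lib.MP_72e2e6_nt.HPlc

/-!
# MP_72e2e6_nt: the local condition at a prime
-/

namespace MP72e2e6

open IsDedekindDomain WithZero Polynomial

variable {A K L B : Type*}
variable [CommRing A] [IsDedekindDomain A] [CommRing B] [IsDedekindDomain B] [Algebra A B]
  [Module.IsTorsionFree A B]
variable [Field K] [Field L] [Algebra K L]
variable [Algebra A K] [IsFractionRing A K] [Algebra A L] [IsScalarTower A K L]
variable [Algebra B L] [IsFractionRing B L] [IsScalarTower A B L]
variable (v : HeightOneSpectrum A) (w : HeightOneSpectrum B) [w.asIdeal.LiesOver v.asIdeal]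

theorem place_aux {f : A[X]} (hf : f.Monic) {θ : B} (hθ : aeval θ f = 0) {ℓ : ℕ} (hℓ : 0 < ℓ)
    (hn : f.natDegree.Coprime ℓ) {p : A[X]} (hp : w.intValuation (aeval θ p) = exp (-1 : ℤ))
    (H : ∀ g : A[X], aeval θ g ∈ w.asIdeal →
      ∃ s : A[X], aeval θ s ∉ w.asIdeal ∧ s * g ∈ Ideal.span {p, f})
    {g : K[X]} (hg : f.map (algebraMap A K) = g)
    (x : (AdjoinRoot (g.map (algebraMap K (v.adicCompletion K))))ˣ)
    (hx : x ∈ branchImage ℓ (g.map (algebraMap K (v.adicCompletion K)))) :
    (ℓ : ℤ) ∣ log (Valued.v (placeHom (L := L) v w hθ hg (x : AdjoinRoot _)) :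
      WithZero (Multiplicative ℤ)) := by
  obtain ⟨π, hπ⟩ := v.intValuation_exists_uniformizer
  have hn' : Nat.Coprime (f.map (algebraMap A (v.adicCompletionIntegers K))).natDegree ℓ := by
    rw [hf.natDegree_map]
    exact hn
  have h7 := dvd_log_branch (O := v.adicCompletionIntegers K) (k := v.adicCompletion K)
    (M := w.adicCompletion L) (V := Valued.v) (ι := complHom K L v w) (Vk := Valued.v)
    (valued_complHom_le v w) (valued_integer_le v)
    (π := algebraMap A (v.adicCompletionIntegers K) π) (irreducible_algebraMap K v hπ)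
    (valued_uniformizer v hπ) (θ := algebraMap L (w.adicCompletion L) (algebraMap B L θ))
    (valued_theta_le w θ) (f := f.map (algebraMap A (v.adicCompletionIntegers K)))
    (p := p.map (algebraMap A (v.adicCompletionIntegers K))) (hf.map _) (eval_f v w hθ)
    (valued_p v w hp) (span_place v w hπ H) hℓ hn'
    (gk := g.map (algebraMap K (v.adicCompletion K))) (map_place v hg)
    (placeHom (L := L) v w hθ hg)
  exact h7 (placeHom_mk (L := L) v w hθ hg) x hx

/-- **The local condition at a prime.** -/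
theorem dvd_log_place {f : A[X]} (hf : f.Monic) {θ : B} (hθ : aeval θ f = 0) {ℓ : ℕ} (hℓ : 0 < ℓ)
    (hn : f.natDegree.Coprime ℓ) {p : A[X]} (hp : w.intValuation (aeval θ p) = exp (-1 : ℤ))
    (H : ∀ g : A[X], aeval θ g ∈ w.asIdeal →
      ∃ s : A[X], aeval θ s ∉ w.asIdeal ∧ s * g ∈ Ideal.span {p, f})
    {g : K[X]} (hg : f.map (algebraMap A K) = g) (d : (AdjoinRoot g)ˣ)
    (hd : Units.map (branchMap (v.adicCompletion K) g : AdjoinRoot g →* _) d ∈
      branchImage ℓ (g.map (algebraMap K (v.adicCompletion K))))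
    (φ : AdjoinRoot g →+* L) (hφK : ∀ x : K, φ (AdjoinRoot.of g x) = algebraMap K L x)
    (hφθ : φ (AdjoinRoot.root g) = algebraMap B L θ) :
    (ℓ : ℤ) ∣ log (w.valuation L (φ (d : AdjoinRoot g))) := by
  have h1 := place_aux (L := L) v w hf hθ hℓ hn hp H hg _ hd
  have h2 := placeHom_branchMap (L := L) v w hθ hg φ hφK hφθ (d : AdjoinRoot g)
  have h3 := congrArg (fun z : w.adicCompletion L => (Valued.v z : WithZero (Multiplicative ℤ))) h2
  have h4 := h3.trans (valued_algebraMap_field w (φ (d : AdjoinRoot g)))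
  rw [← h4]
  exact h1

end MP72e2e6
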