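import Pool.Agent.Lib.MP_72e2e6_nt.HCompl
import Pool.Agent.Lib.MP_72e2e6_nt.HLocal

/-!
# MP_72e2e6_nt: the local condition at a prime
-/

namespace MP72e2e6

open IsDedekindDomain WithZero Polynomial

section AKLB

variable {A K L B : Type*}
variable [CommRing A] [IsDedekindDomain A] [CommRing B] [IsDedekindDomain B] [Algebra A B]
  [Module.IsTorsionFree A B]
variable [Field K] [Field L] [Algebra K L]
variable [Algebra A K] [IsFractionRing A K] [Algebra A L] [IsScalarTower A K L]
variable [Algebra B L] [IsFractionRing B L] [IsScalarTower A B L]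
variable (v : HeightOneSpectrum A) (w : HeightOneSpectrum B) [w.asIdeal.LiesOver v.asIdeal]

omit [IsDedekindDomain A] [IsDedekindDomain B] [Module.IsTorsionFree A B] in
/-- the reduction of the hypothesis to the polynomials over `A` -/
theorem exists_span_completion {O M : Type*} [CommRing O] [Algebra A O] [Field M]
    {V : Valuation M (WithZero (Multiplicative ℤ))} {P : Ideal B} {π : A}
    (hπ : algebraMap A B π ∈ P) {f p : A[X]} {θ : B}
    (H : ∀ g : A[X], aeval θ g ∈ P →
      ∃ s : A[X], aeval θ s ∉ P ∧ s * g ∈ Ideal.span {p, f})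
    (happ : ∀ a : O, ∃ (r : A) (b : O), a = algebraMap A O r + algebraMap A O π * b)
    (Λ : O[X] →+* M) (hΛ1 : ∀ g, V (Λ g) ≤ 1)
    (hΛ2 : ∀ g : A[X], V (Λ (g.map (algebraMap A O))) < 1 ↔ aeval θ g ∈ P)
    (g : O[X]) (hg : V (Λ g) < 1) :
    ∃ s, V (Λ s) = 1 ∧ s * g ∈
      Ideal.span {p.map (algebraMap A O), f.map (algebraMap A O)} := by
  classical
  have hpoly : ∀ g : O[X], ∃ (g₀ : A[X]) (h : O[X]),
      g = g₀.map (algebraMap A O) + C (algebraMap A O π) * h := by
    intro g
    induction g using Polynomial.induction_on' with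
    | add g₁ g₂ h₁ h₂ =>
      obtain ⟨a₁, b₁, rfl⟩ := h₁
      obtain ⟨a₂, b₂, rfl⟩ := h₂
      exact ⟨a₁ + a₂, b₁ + b₂, by rw [Polynomial.map_add]; ring⟩
    | monomial n a =>
      obtain ⟨r, b, rfl⟩ := happ a
      refine ⟨monomial n r, monomial n b, ?_⟩
      rw [Polynomial.map_monomial, C_mul_monomial, ← map_add]
  have hnmem : ∀ g : A[X], aeval θ g ∉ P → V (Λ (g.map (algebraMap A O))) = 1 := by
    intro g hg
    exact le_antisymm (hΛ1 _) (not_lt.1 fun h => hg ((hΛ2 g).1 h))
  have hspan : ∀ s : A[X], s ∈ Ideal.span {p, f} → s.map (algebraMap A O) ∈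
      Ideal.span {p.map (algebraMap A O), f.map (algebraMap A O)} := by
    intro s hs
    obtain ⟨a, b, rfl⟩ := Ideal.mem_span_pair.1 hs
    rw [Polynomial.map_add, Polynomial.map_mul, Polynomial.map_mul]
    exact Ideal.mem_span_pair.2 ⟨_, _, rfl⟩
  obtain ⟨g₀, h, rfl⟩ := hpoly g
  have hπv : V (Λ (C (algebraMap A O π))) < 1 := by
    have h1 := hΛ2 (C π)
    rw [Polynomial.map_C, aeval_C] at h1
    exact h1.2 hπ
  obtain ⟨s₁, hs₁, hs₁'⟩ := H (C π) (by rw [aeval_C]; exact hπ)
  have hg₀ : V (Λ (g₀.map (algebraMap A O))) < 1 := by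
    have h1 : Λ (g₀.map (algebraMap A O)) = Λ (g₀.map (algebraMap A O) +
        C (algebraMap A O π) * h) - Λ (C (algebraMap A O π)) * Λ h := by
      rw [map_add, map_mul]
      ring
    rw [h1]
    refine lt_of_le_of_lt (Valuation.map_sub _ _ _) (max_lt hg ?_)
    rw [map_mul]
    exact mul_lt_one_of_nonneg_of_lt_one_left zero_le hπv (hΛ1 h)
  obtain ⟨s₀, hs₀, hs₀'⟩ := H g₀ ((hΛ2 g₀).1 hg₀)
  refine ⟨(s₀.map (algebraMap A O)) * (s₁.map (algebraMap A O)), ?_, ?_⟩
  · rw [map_mul, map_mul, hnmem _ hs₀, hnmem _ hs₁, one_mul]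
  · have h1 := hspan _ hs₀'
    have h2 := hspan _ hs₁'
    rw [Polynomial.map_mul] at h1 h2
    rw [Polynomial.map_C] at h2
    have h3 : s₀.map (algebraMap A O) * s₁.map (algebraMap A O) *
        (g₀.map (algebraMap A O) + C (algebraMap A O π) * h) =
        s₁.map (algebraMap A O) * (s₀.map (algebraMap A O) * g₀.map (algebraMap A O)) +
          (s₀.map (algebraMap A O) * h) * (s₁.map (algebraMap A O) * C (algebraMap A O π)) := by
      ring
    rw [h3]
    exact add_mem (Ideal.mul_mem_left _ _ h1) (Ideal.mul_mem_left _ _ h2)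

variable (K) in
omit [Algebra A B] [Module.IsTorsionFree A B] [CommRing B] [IsDedekindDomain B] in
/-- approximation of the integers of the completion -/
theorem exists_approx_coeff {π : A} (hπ : v.intValuation π = exp (-1 : ℤ))
    (a : v.adicCompletionIntegers K) :
    ∃ (r : A) (b : v.adicCompletionIntegers K),
      a = algebraMap A (v.adicCompletionIntegers K) r +
        algebraMap A (v.adicCompletionIntegers K) π * b := by
  obtain ⟨r, hr⟩ := exists_approx_int (K := K) v (a : v.adicCompletion K) a.2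
  have h1 : Valued.v (algebraMap A (v.adicCompletion K) π) = exp (-1 : ℤ) := by
    have h2 := HeightOneSpectrum.valuedAdicCompletion_eq_valuation (K := K) v π
    rw [HeightOneSpectrum.valuation_of_algebraMap, hπ] at h2
    exact h2
  have hπ0 : algebraMap A (v.adicCompletion K) π ≠ 0 := by
    intro h0
    rw [h0, map_zero] at h1
    exact exp_ne_zero h1.symm
  have hb : Valued.v (((a : v.adicCompletion K) - algebraMap A (v.adicCompletion K) r) /
      algebraMap A (v.adicCompletion K) π) ≤ (1 : WithZero (Multiplicative ℤ)) := by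
    rw [map_div₀, h1]
    rcases eq_or_ne ((a : v.adicCompletion K) - algebraMap A (v.adicCompletion K) r) 0 with h0 | h0
    · rw [h0, map_zero, zero_div]
      exact zero_le_one
    · have h2 : Valued.v ((a : v.adicCompletion K) - algebraMap A (v.adicCompletion K) r) ≠
          (0 : WithZero (Multiplicative ℤ)) := (Valuation.ne_zero_iff _).2 h0
      rw [div_le_one₀ (by exact exp_pos), ← exp_log h2, exp_le_exp]
      rw [← exp_log h2, ← exp_zero, exp_lt_exp] at hr
      omega
  refine ⟨r, ⟨_, hb⟩, ?_⟩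
  apply Subtype.ext
  change (a : v.adicCompletion K) = algebraMap A (v.adicCompletion K) r +
    algebraMap A (v.adicCompletion K) π * (((a : v.adicCompletion K) -
      algebraMap A (v.adicCompletion K) r) / algebraMap A (v.adicCompletion K) π)
  rw [mul_div_cancel₀ _ hπ0]
  ring

end AKLB

/-- the local condition, abstract form -/
theorem dvd_log_branch {O k M : Type*} [CommRing O] [IsDomain O] [IsDiscreteValuationRing O]
    [Field k] [Algebra O k] [IsFractionRing O k] [Field M]
    {V : Valuation M (WithZero (Multiplicative ℤ))} {ι : k →+* M}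
    {Vk : Valuation k (WithZero (Multiplicative ℤ))}
    (hι : ∀ a : O, V (ι (algebraMap O k a)) ≤ 1) (hVk : ∀ a : O, Vk (algebraMap O k a) ≤ 1)
    {π : O} (hπ : Irreducible π) (hVπ : Vk (algebraMap O k π) = exp (-1 : ℤ))
    {θ : M} (hθ : V θ ≤ 1) {f p : O[X]} (hf : f.Monic)
    (hfθ : f.eval₂ (ι.comp (algebraMap O k)) θ = 0)
    (hp : V (p.eval₂ (ι.comp (algebraMap O k)) θ) = exp (-1 : ℤ))
    (H : ∀ g : O[X], V (g.eval₂ (ι.comp (algebraMap O k)) θ) < 1 →
      ∃ s : O[X], V (s.eval₂ (ι.comp (algebraMap O k)) θ) = 1 ∧ s * g ∈ Ideal.span {p, f})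
    {ℓ : ℕ} (hℓ : 0 < ℓ) (hn : Nat.Coprime f.natDegree ℓ) {gk : k[X]}
    (hgk : gk = f.map (algebraMap O k)) (ψ : AdjoinRoot gk →+* M)
    (hψ : ∀ u : k[X], ψ (AdjoinRoot.mk gk u) = u.eval₂ ι θ)
    (x : (AdjoinRoot gk)ˣ) (hx : x ∈ branchImage ℓ gk) :
    (ℓ : ℤ) ∣ log (V (ψ (x : AdjoinRoot gk))) := by
  classical
  let S : Subgroup (AdjoinRoot gk)ˣ :=
    { carrier := {x | (ℓ : ℤ) ∣ log (V (ψ (x : AdjoinRoot gk)))}
      mul_mem' := by
        intro x y hx hy
        have h1 : V (ψ (x : AdjoinRoot gk)) ≠ 0 :=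
          (Valuation.ne_zero_iff _).2 (x.isUnit.map ψ).ne_zero
        have h2 : V (ψ (y : AdjoinRoot gk)) ≠ 0 :=
          (Valuation.ne_zero_iff _).2 (y.isUnit.map ψ).ne_zero
        change (ℓ : ℤ) ∣ log (V (ψ ((x * y : (AdjoinRoot gk)ˣ) : AdjoinRoot gk)))
        rw [Units.val_mul, map_mul, map_mul, log_mul h1 h2]
        exact dvd_add hx hy
      one_mem' := by
        change (ℓ : ℤ) ∣ log (V (ψ ((1 : (AdjoinRoot gk)ˣ) : AdjoinRoot gk)))
        rw [Units.val_one, map_one, map_one, log_one]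
        exact dvd_zero _
      inv_mem' := by
        intro x hx
        have h1 : ψ ((x⁻¹ : (AdjoinRoot gk)ˣ) : AdjoinRoot gk) = (ψ (x : AdjoinRoot gk))⁻¹ := by
          have h2 : ψ ((x⁻¹ : (AdjoinRoot gk)ˣ) : AdjoinRoot gk) * ψ (x : AdjoinRoot gk) = 1 := by
            rw [← map_mul, Units.inv_mul, map_one]
          exact eq_inv_of_mul_eq_one_left h2
        change (ℓ : ℤ) ∣ log (V (ψ ((x⁻¹ : (AdjoinRoot gk)ˣ) : AdjoinRoot gk)))
        rw [h1, map_inv₀, log_inv, dvd_neg]
        exact hx }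
  have hS : branchImage ℓ gk ≤ S := by
    rw [branchImage, Subgroup.closure_le]
    rintro x (⟨z, rfl⟩ | ⟨u, w', hu, hdvd, hx⟩)
    · change (ℓ : ℤ) ∣ log (V (ψ ((z ^ ℓ : (AdjoinRoot gk)ˣ) : AdjoinRoot gk)))
      rw [Units.val_pow_eq_pow_val, map_pow, map_pow, log_pow, nsmul_eq_mul]
      exact dvd_mul_right _ _
    · change (ℓ : ℤ) ∣ log (V (ψ (x : AdjoinRoot gk)))
      rw [hx, map_mul, map_mul, map_pow, map_pow, map_neg, map_one, Valuation.map_neg, map_one,
        one_pow, one_mul, hψ]
      have hcop : IsCoprime u gk := by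
        have h1 : IsUnit (AdjoinRoot.mk gk u) := by
          have h2 := x.isUnit
          rw [hx] at h2
          exact isUnit_of_mul_isUnit_right h2
        obtain ⟨y, hy⟩ := h1.exists_left_inv
        obtain ⟨y, rfl⟩ := AdjoinRoot.mk_surjective y
        rw [← map_mul, ← map_one (AdjoinRoot.mk gk), AdjoinRoot.mk_eq_mk] at hy
        obtain ⟨c, hc⟩ := hy
        exact ⟨y, -c, by linear_combination hc⟩
      rw [hgk] at hcop hdvd
      exact dvd_log_local hι hVk hπ hVπ hθ hf hfθ hp H hℓ hn hu hcop hdvd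
  exact hS hx

section AKLB

variable {A K L B : Type*}
variable [CommRing A] [IsDedekindDomain A] [CommRing B] [IsDedekindDomain B] [Algebra A B]
  [Module.IsTorsionFree A B]
variable [Field K] [Field L] [Algebra K L]
variable [Algebra A K] [IsFractionRing A K] [Algebra A L] [IsScalarTower A K L]
variable [Algebra B L] [IsFractionRing B L] [IsScalarTower A B L]
variable (v : HeightOneSpectrum A) (w : HeightOneSpectrum B) [w.asIdeal.LiesOver v.asIdeal]

theorem irreducible_uniformizer {π : v.adicCompletionIntegers K}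
    (hπ : Valued.v (π : v.adicCompletion K) = exp (-1 : ℤ)) : Irreducible π := by
  have hunit : ∀ a : v.adicCompletionIntegers K, IsUnit a ↔
      Valued.v (a : v.adicCompletion K) = (1 : WithZero (Multiplicative ℤ)) := fun a =>
    HeightOneSpectrum.adicCompletionIntegers.isUnit_iff_valued_eq_one
  constructor
  · rw [hunit, hπ]
    exact ne_of_lt (exp_lt_exp.2 (by norm_num))
  · intro a b hab
    by_contra hcon
    rw [not_or, hunit, hunit] at hcon
    have h1 : Valued.v (π : v.adicCompletion K) = Valued.v (a : v.adicCompletion K) *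
        Valued.v (b : v.adicCompletion K) := by
      rw [hab, ← map_mul]
      rfl
    rw [hπ] at h1
    have ha : Valued.v (a : v.adicCompletion K) < (1 : WithZero (Multiplicative ℤ)) :=
      lt_of_le_of_ne a.2 hcon.1
    have hb : Valued.v (b : v.adicCompletion K) < (1 : WithZero (Multiplicative ℤ)) :=
      lt_of_le_of_ne b.2 hcon.2
    have ha0 : Valued.v (a : v.adicCompletion K) ≠ (0 : WithZero (Multiplicative ℤ)) := by
      intro h0
      rw [h0, zero_mul] at h1
      exact exp_ne_zero h1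
    have hb0 : Valued.v (b : v.adicCompletion K) ≠ (0 : WithZero (Multiplicative ℤ)) := by
      intro h0
      rw [h0, mul_zero] at h1
      exact exp_ne_zero h1
    have h2 := congrArg log h1
    rw [log_exp, log_mul ha0 hb0] at h2
    rw [← exp_log ha0, ← exp_zero, exp_lt_exp] at ha
    rw [← exp_log hb0, ← exp_zero, exp_lt_exp] at hb
    omega

end AKLB

end MP72e2e6
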