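import Pool.Agent.Lib.MP_72e2e6_nt.HPlace

/-!
# MP_72e2e6_nt: the local condition at a prime
-/

namespace MP72e2e6

open IsDedekindDomain WithZero Polynomial

variable {A K L B : Type*}
variable [CommRing A] [IsDedekindDomain A] [CommRing B] [IsDedekindDomain B] [Algebra A B]
  [Module.IsTorsionFree A B]
variable [Field K] [Field L] [Algebra K L]
variable [Algebra A K] [IsFractionRing A K] [Algebra A L] [IsScalarTower A K L]
variable [Algebra B L] [IsFractionRing B L] [IsScalarTower A B L]
variable (v : HeightOneSpectrum A) (w : HeightOneSpectrum B) [w.asIdeal.LiesOver v.asIdeal]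

theorem complHom_algebraMap_base (a : A) :
    complHom K L v w (algebraMap A (v.adicCompletion K) a) =
      algebraMap L (w.adicCompletion L) (algebraMap B L (algebraMap A B a)) := by
  rw [IsScalarTower.algebraMap_apply A K (v.adicCompletion K), complHom_algebraMap,
    ← IsScalarTower.algebraMap_apply A K L, IsScalarTower.algebraMap_apply A B L]

omit [IsDedekindDomain A] [CommRing A] [Algebra A B] [Module.IsTorsionFree A B] [Algebra A K]
  [IsFractionRing A K] [Algebra A L] [IsScalarTower A K L] [IsScalarTower A B L] [Algebra K L]
  [Field K] in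
theorem valued_algebraMap_field (x : L) :
    Valued.v (algebraMap L (w.adicCompletion L) x) = w.valuation L x :=
  HeightOneSpectrum.valuedAdicCompletion_eq_valuation' w x

theorem eval_place (θ : B) (q : A[X]) :
    (q.map (algebraMap A (v.adicCompletionIntegers K))).eval₂
      ((complHom K L v w).comp (algebraMap (v.adicCompletionIntegers K) (v.adicCompletion K)))
      (algebraMap L (w.adicCompletion L) (algebraMap B L θ)) =
      algebraMap L (w.adicCompletion L) (algebraMap B L (aeval θ q)) := by
  rw [eval₂_map]
  have h1 : ((complHom K L v w).comp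
      (algebraMap (v.adicCompletionIntegers K) (v.adicCompletion K))).comp
      (algebraMap A (v.adicCompletionIntegers K)) =
      ((algebraMap L (w.adicCompletion L)).comp (algebraMap B L)).comp (algebraMap A B) := by
    apply RingHom.ext
    intro a
    exact complHom_algebraMap_base v w a
  rw [h1, aeval_def, ← RingHom.comp_apply (algebraMap L (w.adicCompletion L)) (algebraMap B L),
    ← RingHom.comp_apply (algebraMap L (w.adicCompletion L)) (algebraMap B L), hom_eval₂]

omit [CommRing B] [IsDedekindDomain B] [Algebra A B] [Module.IsTorsionFree A B] [Field L]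
  [Algebra K L] [Algebra A L] [IsScalarTower A K L] [Algebra B L] [IsFractionRing B L]
  [IsScalarTower A B L] in
theorem map_place {f : A[X]} {g : K[X]} (hg : f.map (algebraMap A K) = g) :
    g.map (algebraMap K (v.adicCompletion K)) =
      (f.map (algebraMap A (v.adicCompletionIntegers K))).map
        (algebraMap (v.adicCompletionIntegers K) (v.adicCompletion K)) := by
  rw [← hg, Polynomial.map_map, Polynomial.map_map]
  rfl

theorem root_place {f : A[X]} {θ : B} (hθ : aeval θ f = 0) {g : K[X]}
    (hg : f.map (algebraMap A K) = g) :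
    (g.map (algebraMap K (v.adicCompletion K))).eval₂ (complHom K L v w)
      (algebraMap L (w.adicCompletion L) (algebraMap B L θ)) = 0 := by
  rw [map_place v hg, eval₂_map, eval_place, hθ, map_zero, map_zero]

/-- the map to the completion at `w` -/
noncomputable def placeHom {f : A[X]} {θ : B} (hθ : aeval θ f = 0) {g : K[X]}
    (hg : f.map (algebraMap A K) = g) :
    AdjoinRoot (g.map (algebraMap K (v.adicCompletion K))) →+* w.adicCompletion L :=
  AdjoinRoot.lift (complHom K L v w) (algebraMap L (w.adicCompletion L) (algebraMap B L θ))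
    (root_place v w hθ hg)

theorem placeHom_mk {f : A[X]} {θ : B} (hθ : aeval θ f = 0) {g : K[X]}
    (hg : f.map (algebraMap A K) = g) (u : (v.adicCompletion K)[X]) :
    placeHom (L := L) v w hθ hg (AdjoinRoot.mk _ u) = u.eval₂ (complHom K L v w)
      (algebraMap L (w.adicCompletion L) (algebraMap B L θ)) :=
  AdjoinRoot.lift_mk _ u

theorem placeHom_branchMap {f : A[X]} {θ : B} (hθ : aeval θ f = 0) {g : K[X]}
    (hg : f.map (algebraMap A K) = g)
    (φ : AdjoinRoot g →+* L) (hφK : ∀ x : K, φ (AdjoinRoot.of g x) = algebraMap K L x)
    (hφθ : φ (AdjoinRoot.root g) = algebraMap B L θ) (x : AdjoinRoot g) :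
    placeHom v w hθ hg (branchMap (v.adicCompletion K) g x) =
      algebraMap L (w.adicCompletion L) (φ x) := by
  have h1 : (placeHom v w hθ hg).comp
      (branchMap (v.adicCompletion K) g) = (algebraMap L (w.adicCompletion L)).comp φ := by
    apply AdjoinRoot.ringHom_ext
    · apply RingHom.ext
      intro x
      rw [RingHom.comp_apply, RingHom.comp_apply, RingHom.comp_apply, RingHom.comp_apply, hφK,
        branchMap, AdjoinRoot.map_of, placeHom, AdjoinRoot.lift_of, complHom_algebraMap]
    · rw [RingHom.comp_apply, RingHom.comp_apply, branchMap, AdjoinRoot.map_root, hφθ,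
        placeHom, AdjoinRoot.lift_root]
  exact congrArg (fun F : _ →+* _ => F x) h1

omit [CommRing B] [IsDedekindDomain B] [Algebra A B] [Module.IsTorsionFree A B] [Field L]
  [Algebra K L] [Algebra A L] [IsScalarTower A K L] [Algebra B L] [IsFractionRing B L]
  [IsScalarTower A B L] in
theorem valued_uniformizer {π : A} (hπ : v.intValuation π = exp (-1 : ℤ)) :
    Valued.v (algebraMap (v.adicCompletionIntegers K) (v.adicCompletion K)
      (algebraMap A (v.adicCompletionIntegers K) π)) = exp (-1 : ℤ) := by
  have h2 := HeightOneSpectrum.valuedAdicCompletion_eq_valuation (K := K) v π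
  rw [HeightOneSpectrum.valuation_of_algebraMap, hπ] at h2
  exact h2

omit [Field K] [Field L] [Algebra K L] [Algebra A K] [IsFractionRing A K] [Algebra A L]
  [IsScalarTower A K L] [Algebra B L] [IsFractionRing B L] [IsScalarTower A B L]
  [Module.IsTorsionFree A B] [IsDedekindDomain B] in
theorem uniformizer_mem {π : A} (hπ : v.intValuation π = exp (-1 : ℤ)) :
    algebraMap A B π ∈ w.asIdeal := by
  have h1 : π ∈ v.asIdeal := by
    rw [← HeightOneSpectrum.intValuation_lt_one_iff_mem, hπ]
    exact exp_lt_exp.2 (by norm_num)
  have h2 : v.asIdeal = w.asIdeal.under A := Ideal.LiesOver.over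
  rw [h2] at h1
  exact h1

omit [IsDedekindDomain A] [CommRing A] [Algebra A B] [Module.IsTorsionFree A B] [Algebra A K]
  [IsFractionRing A K] [Algebra A L] [IsScalarTower A K L] [IsScalarTower A B L] [Algebra K L]
  [Field K] in
theorem valued_theta_le (θ : B) :
    Valued.v (algebraMap L (w.adicCompletion L) (algebraMap B L θ)) ≤
      (1 : WithZero (Multiplicative ℤ)) := by
  rw [valued_algebraMap_field, HeightOneSpectrum.valuation_of_algebraMap]
  exact w.intValuation_le_one _

/-- polynomials with integral coefficients -/
theorem valued_eval_le (θ : B) (g : (v.adicCompletionIntegers K)[X]) :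
    Valued.v (g.eval₂
      ((complHom K L v w).comp (algebraMap (v.adicCompletionIntegers K) (v.adicCompletion K)))
      (algebraMap L (w.adicCompletion L) (algebraMap B L θ))) ≤
      (1 : WithZero (Multiplicative ℤ)) := by
  rw [eval₂_eq_sum, Polynomial.sum]
  refine Valuation.map_sum_le _ fun i _ => ?_
  rw [map_mul, map_pow]
  exact mul_le_one' (complHom_le_one v w _ (g.coeff i).2) (pow_le_one' (valued_theta_le w θ) _)

theorem valued_eval_lt_iff (θ : B) (g : A[X]) :
    Valued.v ((g.map (algebraMap A (v.adicCompletionIntegers K))).eval₂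
      ((complHom K L v w).comp (algebraMap (v.adicCompletionIntegers K) (v.adicCompletion K)))
      (algebraMap L (w.adicCompletion L) (algebraMap B L θ))) <
      (1 : WithZero (Multiplicative ℤ)) ↔ aeval θ g ∈ w.asIdeal := by
  rw [eval_place, valued_algebraMap_field]
  exact HeightOneSpectrum.valuation_lt_one_iff_mem w _

omit [CommRing B] [IsDedekindDomain B] [Algebra A B] [Module.IsTorsionFree A B] [Field L]
  [Algebra K L] [Algebra A L] [IsScalarTower A K L] [Algebra B L] [IsFractionRing B L]
  [IsScalarTower A B L] in
theorem valued_integer_le (a : v.adicCompletionIntegers K) :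
    Valued.v (algebraMap (v.adicCompletionIntegers K) (v.adicCompletion K) a) ≤
      (1 : WithZero (Multiplicative ℤ)) := a.2

theorem valued_complHom_le (a : v.adicCompletionIntegers K) :
    Valued.v (complHom K L v w
      (algebraMap (v.adicCompletionIntegers K) (v.adicCompletion K) a)) ≤
      (1 : WithZero (Multiplicative ℤ)) := complHom_le_one v w _ a.2

omit [CommRing B] [IsDedekindDomain B] [Algebra A B] [Module.IsTorsionFree A B] [Field L]
  [Algebra K L] [Algebra A L] [IsScalarTower A K L] [Algebra B L] [IsFractionRing B L]
  [IsScalarTower A B L] in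
variable (K) in
theorem irreducible_algebraMap {π : A} (hπ : v.intValuation π = exp (-1 : ℤ)) :
    Irreducible (algebraMap A (v.adicCompletionIntegers K) π) :=
  irreducible_uniformizer v (valued_uniformizer v hπ)

theorem span_place {π : A} (hπ : v.intValuation π = exp (-1 : ℤ)) {f p : A[X]} {θ : B}
    (H : ∀ g : A[X], aeval θ g ∈ w.asIdeal →
      ∃ s : A[X], aeval θ s ∉ w.asIdeal ∧ s * g ∈ Ideal.span {p, f})
    (g : (v.adicCompletionIntegers K)[X])
    (hg : Valued.v (g.eval₂
      ((complHom K L v w).comp (algebraMap (v.adicCompletionIntegers K) (v.adicCompletion K)))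
      (algebraMap L (w.adicCompletion L) (algebraMap B L θ))) <
      (1 : WithZero (Multiplicative ℤ))) :
    ∃ s : (v.adicCompletionIntegers K)[X], Valued.v (s.eval₂
      ((complHom K L v w).comp (algebraMap (v.adicCompletionIntegers K) (v.adicCompletion K)))
      (algebraMap L (w.adicCompletion L) (algebraMap B L θ))) =
      (1 : WithZero (Multiplicative ℤ)) ∧ s * g ∈
      Ideal.span {p.map (algebraMap A (v.adicCompletionIntegers K)),
        f.map (algebraMap A (v.adicCompletionIntegers K))} :=
  exists_span_completion (V := (Valued.v : Valuation (w.adicCompletion L) _))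
    (uniformizer_mem v w hπ) H (exists_approx_coeff K v hπ)
    (eval₂RingHom ((complHom K L v w).comp
      (algebraMap (v.adicCompletionIntegers K) (v.adicCompletion K)))
      (algebraMap L (w.adicCompletion L) (algebraMap B L θ)))
    (fun g => valued_eval_le v w θ g) (fun g => valued_eval_lt_iff v w θ g) g hg

theorem valued_p {p : A[X]} {θ : B} (hp : w.intValuation (aeval θ p) = exp (-1 : ℤ)) :
    Valued.v ((p.map (algebraMap A (v.adicCompletionIntegers K))).eval₂
      ((complHom K L v w).comp (algebraMap (v.adicCompletionIntegers K) (v.adicCompletion K)))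
      (algebraMap L (w.adicCompletion L) (algebraMap B L θ))) = exp (-1 : ℤ) := by
  rw [eval_place, valued_algebraMap_field, HeightOneSpectrum.valuation_of_algebraMap, hp]

theorem eval_f {f : A[X]} {θ : B} (hθ : aeval θ f = 0) :
    (f.map (algebraMap A (v.adicCompletionIntegers K))).eval₂
      ((complHom K L v w).comp (algebraMap (v.adicCompletionIntegers K) (v.adicCompletion K)))
      (algebraMap L (w.adicCompletion L) (algebraMap B L θ)) = 0 := by
  rw [eval_place, hθ, map_zero, map_zero]

end MP72e2e6
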