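import Pool.Agent.Lib.MP_72e2e6_nt.HStmt

/-!
# Statement HRel
-/

namespace MP72e2e6

universe u

theorem HRel_mono {G : Type u} [CommGroup G] (P F L : Subgroup G) (h : F ≤ L) :
    P.relIndex F ∣ P.relIndex L := by
  rw [← Subgroup.relIndex_subgroupOf h]
  exact Subgroup.relIndex_dvd_index_of_normal _ _

theorem tRel : StmtRel.{u} := by
  intro ℓ W W' _ _ φ E F h
  have h1 : F ≤ E.map φ ⊔ powers ℓ W' := by
    intro d hd
    obtain ⟨e, he, b, rfl⟩ := h d hd
    exact Subgroup.mul_mem_sup (Subgroup.mem_map_of_mem φ he) ⟨b, rfl⟩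
  refine (HRel_mono _ _ _ h1).trans ?_
  rw [Subgroup.relIndex_sup_right, ← Subgroup.relIndex_comap]
  apply Subgroup.relIndex_dvd_of_le_left
  rintro _ ⟨b, rfl⟩
  refine ⟨φ b, ?_⟩
  simp

end MP72e2e6
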