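import Pool.Agent.Lib.MP_72e2e6_nt.HStmt

/-!
# MP_72e2e6_nt: automorphisms permute the primes
-/

namespace MP72e2e6

open Polynomial IsDedekindDomain WithZero Module

universe u

section

variable {B C L' : Type u} [CommRing B] [CommRing C] [Field L'] [Algebra B C] [Algebra B L']
  [Algebra C L'] [IsScalarTower B C L'] [IsIntegralClosure C B L']

/-- The restriction of `σ` to `C`. -/
theorem sig_restrict (σ : L' ≃ₐ[B] L') :
    ∃ τ : C →+* C, ∀ c : C, algebraMap C L' (τ c) = σ (algebraMap C L' c) := by
  have hint : ∀ c : C, IsIntegral B (σ (algebraMap C L' c)) := by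
    intro c
    have h1 : IsIntegral B (algebraMap C L' c) :=
      (IsIntegralClosure.isIntegral_iff (A := C)).2 ⟨c, rfl⟩
    exact h1.map σ
  have hinj : Function.Injective (algebraMap C L') := IsIntegralClosure.algebraMap_injective C B L'
  refine ⟨{ toFun := fun c => IsIntegralClosure.mk' C (σ (algebraMap C L' c)) (hint c)
            map_one' := hinj (by rw [IsIntegralClosure.algebraMap_mk', map_one, map_one])
            map_mul' := fun a b => hinj (by
              rw [IsIntegralClosure.algebraMap_mk', map_mul, map_mul, map_mul,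
                IsIntegralClosure.algebraMap_mk', IsIntegralClosure.algebraMap_mk'])
            map_zero' := hinj (by rw [IsIntegralClosure.algebraMap_mk', map_zero, map_zero])
            map_add' := fun a b => hinj (by
              rw [IsIntegralClosure.algebraMap_mk', map_add, map_add, map_add,
                IsIntegralClosure.algebraMap_mk', IsIntegralClosure.algebraMap_mk']) }, ?_⟩
  intro c
  exact IsIntegralClosure.algebraMap_mk' C (σ (algebraMap C L' c)) (hint c)

end

theorem tSig (h : StmtVal.{u}) : StmtSig.{u} := by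
  intro B C L' _ _ _ _ _ _ _ _ _ _ σ 𝔮'
  have hinj : Function.Injective (algebraMap C L') := IsIntegralClosure.algebraMap_injective C B L'
  obtain ⟨τ, hτ⟩ := sig_restrict (C := C) σ
  obtain ⟨τ', hτ'⟩ := sig_restrict (C := C) σ.symm
  have hττ' : ∀ c, τ (τ' c) = c := by
    intro c
    apply hinj
    rw [hτ, hτ', AlgEquiv.apply_symm_apply]
  have hp := 𝔮'.isPrime
  have hne : 𝔮'.asIdeal.comap τ ≠ ⊥ := by
    intro h0
    apply 𝔮'.ne_bot
    rw [eq_bot_iff]
    intro c hc
    have h1 : τ' c ∈ 𝔮'.asIdeal.comap τ := by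
      rw [Ideal.mem_comap, hττ']
      exact hc
    rw [h0, Ideal.mem_bot] at h1
    rw [Ideal.mem_bot, ← hττ' c, h1, map_zero]
  let 𝔮'' : HeightOneSpectrum C := ⟨𝔮'.asIdeal.comap τ, Ideal.comap_isPrime _ _, hne⟩
  refine ⟨𝔮'', ?_, ?_⟩
  · ext b
    change τ (algebraMap B C b) ∈ 𝔮'.asIdeal ↔ algebraMap B C b ∈ 𝔮'.asIdeal
    have h1 : τ (algebraMap B C b) = algebraMap B C b := by
      apply hinj
      rw [hτ, ← IsScalarTower.algebraMap_apply, σ.commutes]
    rw [h1]
  · intro x
    refine h C L' 𝔮'' ((𝔮'.valuation L').comap (σ : L' →+* L')) ?_ ?_ ?_ x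
    · intro c
      change 𝔮'.valuation L' (σ (algebraMap C L' c)) ≤ 1
      rw [← hτ]
      exact 𝔮'.valuation_le_one _
    · intro c hc
      change 𝔮'.valuation L' (σ (algebraMap C L' c)) = 1
      rw [← hτ]
      exact (HeightOneSpectrum.valuation_eq_one_iff_notMem 𝔮').2 hc
    · obtain ⟨π, hπ⟩ := 𝔮'.valuation_exists_uniformizer L'
      refine ⟨σ.symm π, ?_⟩
      change 𝔮'.valuation L' (σ (σ.symm π)) = exp (-1 : ℤ)
      rw [AlgEquiv.apply_symm_apply]
      exact hπ

end MP72e2e6
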