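import Pool.Agent.Lib.MP_72e2e6_nt.HStmt

/-!
# MP_72e2e6_nt: norms at a prime with a single prime above it
-/

namespace MP72e2e6

open Polynomial IsDedekindDomain WithZero Module

universe u

section

variable {B L : Type u} [CommRing B] [IsDedekindDomain B] [Field L] [Algebra B L]
  [IsFractionRing B L]

/-- An element of valuation `≤ 1` at `𝔮` has a denominator outside `𝔮`. -/
theorem solo_denominator (𝔮 : HeightOneSpectrum B) (y : L) (hy : 𝔮.valuation L y ≤ 1) :
    ∃ s : B, s ∉ 𝔮.asIdeal ∧ ∃ c : B, algebraMap B L s * y = algebraMap B L c := by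
  obtain ⟨a, c, hc, rfl⟩ := IsFractionRing.div_surjective (A := B) y
  have hc0 : c ≠ 0 := nonZeroDivisors.ne_zero hc
  have hcL : algebraMap B L c ≠ 0 := by
    rw [Ne, map_eq_zero_iff _ (IsFractionRing.injective B L)]
    exact hc0
  rw [map_div₀, HeightOneSpectrum.valuation_of_algebraMap,
    HeightOneSpectrum.valuation_of_algebraMap] at hy
  have hle : 𝔮.intValuation a ≤ 𝔮.intValuation c := by
    have h1 : 0 < 𝔮.intValuation c := by
      rw [zero_lt_iff]
      exact 𝔮.intValuation_ne_zero c hc0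
    rwa [div_le_one₀ h1] at hy
  have hsr : Ideal.span {c} ≠ 0 := by
    intro h
    exact hc0 (Ideal.span_singleton_eq_bot.1 h)
  have hfm : FiniteMultiplicity 𝔮.asIdeal (Ideal.span {c}) :=
    FiniteMultiplicity.of_prime_left 𝔮.prime hsr
  obtain ⟨n, J, hJ, hJn⟩ : ∃ (n : ℕ) (J : Ideal B),
      Ideal.span {c} = 𝔮.asIdeal ^ n * J ∧ ¬ 𝔮.asIdeal ∣ J :=
    ⟨_, hfm.exists_eq_pow_mul_and_not_dvd⟩
  rw [Ideal.dvd_iff_le] at hJn
  obtain ⟨s, hsJ, hsq⟩ := Set.not_subset.1 hJn
  refine ⟨s, hsq, ?_⟩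
  have hca : c ∈ 𝔮.asIdeal ^ n := by
    have h2 : c ∈ Ideal.span {c} := Ideal.mem_span_singleton_self c
    rw [hJ] at h2
    have h3 : 𝔮.asIdeal ^ n * J ≤ 𝔮.asIdeal ^ n := Ideal.mul_le_left
    exact h3 h2
  have haa : a ∈ 𝔮.asIdeal ^ n := by
    rw [← HeightOneSpectrum.intValuation_le_pow_iff_mem] at hca ⊢
    exact hle.trans hca
  have hsa : a * s ∈ Ideal.span {c} := by
    rw [hJ]
    exact Ideal.mul_mem_mul haa hsJ
  obtain ⟨t, ht⟩ := Ideal.mem_span_singleton.1 hsa
  refine ⟨t, ?_⟩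
  have h3 : algebraMap B L a * algebraMap B L s = algebraMap B L c * algebraMap B L t := by
    rw [← map_mul, ← map_mul, ht]
  rw [mul_div_assoc', div_eq_iff hcL, mul_comm, h3, mul_comm]

end

theorem solo_norm_le {R K B L : Type u} [CommRing R] [IsDedekindDomain R] [Field K] [Algebra R K]
    [IsFractionRing R K] [CommRing B] [IsDedekindDomain B] [Field L] [Algebra B L]
    [IsFractionRing B L] [Algebra R B] [Algebra K L] [Algebra R L] [IsScalarTower R B L]
    [IsScalarTower R K L] [Algebra.IsIntegral R B] [FiniteDimensional K L]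
    (v : HeightOneSpectrum R) (𝔮 : HeightOneSpectrum B)
    (huniq : ∀ 𝔮₂ : HeightOneSpectrum B, 𝔮₂.asIdeal.comap (algebraMap R B) = v.asIdeal → 𝔮₂ = 𝔮)
    (y : L) (hy : 𝔮.valuation L y ≤ 1) : v.valuation K (Algebra.norm K y) ≤ 1 := by
  obtain ⟨s₀, hs₀, hs₀'⟩ := solo_denominator 𝔮 y hy
  let I : Ideal B :=
    { carrier := {b | ∃ c : B, algebraMap B L b * y = algebraMap B L c}
      add_mem' := by
        rintro a b ⟨c, hc⟩ ⟨c', hc'⟩
        exact ⟨c + c', by rw [map_add, add_mul, hc, hc', map_add]⟩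
      zero_mem' := ⟨0, by rw [map_zero, zero_mul]⟩
      smul_mem' := by
        rintro a b ⟨c, hc⟩
        exact ⟨a * c, by rw [smul_eq_mul, map_mul, mul_assoc, hc, map_mul]⟩ }
  have hinj : Function.Injective (algebraMap R B) := by
    have h1 : Function.Injective (algebraMap R L) := by
      rw [IsScalarTower.algebraMap_eq R K L]
      exact (algebraMap K L).injective.comp (IsFractionRing.injective R K)
    rw [IsScalarTower.algebraMap_eq R B L] at h1
    exact Function.Injective.of_comp h1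
  have hI : ¬ I.comap (algebraMap R B) ≤ v.asIdeal := by
    intro hle
    have hvp : v.asIdeal.IsPrime := v.isPrime
    obtain ⟨Q, hQI, hQp, hQc⟩ := Ideal.exists_ideal_over_prime_of_isIntegral v.asIdeal I hle
    have hQ0 : Q ≠ ⊥ := by
      rintro rfl
      apply v.ne_bot
      rw [← hQc, eq_bot_iff]
      intro r hr
      rw [Ideal.mem_comap, Ideal.mem_bot] at hr
      rw [Ideal.mem_bot]
      exact hinj (by rw [hr, map_zero])
    have h2 := huniq ⟨Q, hQp, hQ0⟩ hQc
    apply hs₀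
    rw [← h2]
    exact hQI hs₀'
  obtain ⟨s, hsI, hsv⟩ := Set.not_subset.1 hI
  obtain ⟨c, hc⟩ : ∃ c : B, algebraMap B L (algebraMap R B s) * y = algebraMap B L c := hsI
  rw [← IsScalarTower.algebraMap_apply, IsScalarTower.algebraMap_apply R K L] at hc
  have h3 : Algebra.norm K (algebraMap B L c) =
      algebraMap R K s ^ finrank K L * Algebra.norm K y := by
    rw [← hc, map_mul, Algebra.norm_algebraMap]
  have h4 : IsIntegral R (algebraMap B L c) :=
    (Algebra.IsIntegral.isIntegral (R := R) c).map (IsScalarTower.toAlgHom R B L)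
  have h5 : IsIntegral R (Algebra.norm K (algebraMap B L c)) := Algebra.isIntegral_norm K h4
  obtain ⟨z, hz⟩ := IsIntegrallyClosed.isIntegral_iff.1 h5
  have h6 : v.valuation K (algebraMap R K s) = 1 :=
    (HeightOneSpectrum.valuation_eq_one_iff_notMem v).2 hsv
  have h7 : v.valuation K (algebraMap R K z) ≤ 1 := v.valuation_le_one z
  rw [hz, h3, map_mul, map_pow, h6, one_pow, one_mul] at h7
  exact h7

theorem tSolo : StmtSolo.{u} := by
  intro R K B L _ _ _ _ _ _ _ _ _ _ _ _ _ _ _ _ _ v 𝔮 _ huniq ℓ hcop x hx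
  -- the norm on units
  let N : Lˣ →* Kˣ := Units.map (Algebra.norm K : L →* K)
  have hN : ∀ y : Lˣ, ((N y : Kˣ) : K) = Algebra.norm K (y : L) := fun _ => rfl
  have hle : ∀ y : Lˣ, 𝔮.valuation L (y : L) = 1 → v.valuation K ((N y : Kˣ) : K) = 1 := by
    intro y hy
    apply le_antisymm
    · rw [hN]
      exact solo_norm_le v 𝔮 huniq _ hy.le
    · have h1 : 𝔮.valuation L ((y⁻¹ : Lˣ) : L) ≤ 1 := by
        rw [Units.val_inv_eq_inv_val, map_inv₀, hy, inv_one]
      have h2 := solo_norm_le (K := K) v 𝔮 huniq _ h1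
      rw [← hN, map_inv, Units.val_inv_eq_inv_val, map_inv₀] at h2
      have h3 : 0 < v.valuation K ((N y : Kˣ) : K) := by
        rw [zero_lt_iff, Ne, map_eq_zero]
        exact Units.ne_zero _
      rwa [inv_le_one₀ h3] at h2
  obtain ⟨π, hπ⟩ := v.valuation_exists_uniformizer K
  have hπ0 : π ≠ 0 := by
    rintro rfl
    rw [map_zero] at hπ
    exact exp_ne_zero hπ.symm
  let ϖ : Kˣ := Units.mk0 π hπ0
  let ρ : Lˣ := Units.map (algebraMap K L : K →* L) ϖ
  have hNρ : N ρ = ϖ ^ finrank K L := by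
    apply Units.ext
    rw [hN, Units.val_pow_eq_pow_val]
    exact Algebra.norm_algebraMap π
  -- logarithms of the valuations
  let w : Lˣ → ℤ := fun y => log (𝔮.valuation L (y : L))
  let vv : Kˣ → ℤ := fun y => log (v.valuation K (y : K))
  have hq0 : ∀ y : Lˣ, 𝔮.valuation L (y : L) ≠ 0 := fun y => by
    rw [Ne, map_eq_zero]
    exact Units.ne_zero _
  have hv0 : ∀ y : Kˣ, v.valuation K (y : K) ≠ 0 := fun y => by
    rw [Ne, map_eq_zero]
    exact Units.ne_zero _
  set e : ℤ := -w ρ with he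
  set a : ℤ := w x with ha
  have hy1 : 𝔮.valuation L ((x ^ e * ρ ^ a : Lˣ) : L) = 1 := by
    have h1 : log (𝔮.valuation L ((x ^ e * ρ ^ a : Lˣ) : L)) = 0 := by
      rw [Units.val_mul, Units.val_zpow_eq_zpow_val, Units.val_zpow_eq_zpow_val, map_mul,
        map_zpow₀, map_zpow₀, log_mul (zpow_ne_zero _ (hq0 x)) (zpow_ne_zero _ (hq0 ρ)),
        log_zpow, log_zpow]
      change e • a + a • w ρ = 0
      rw [he, smul_eq_mul, smul_eq_mul]
      ring
    rw [← exp_log (hq0 _), h1, exp_zero]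
  have hNy := hle _ hy1
  have h2 : e * vv (N x) + a * ((finrank K L : ℤ) * (-1)) = 0 := by
    have h3 : log (v.valuation K ((N (x ^ e * ρ ^ a) : Kˣ) : K)) = 0 := by
      rw [hNy, log_one]
    rw [map_mul, map_zpow, map_zpow, hNρ, Units.val_mul, Units.val_zpow_eq_zpow_val,
      Units.val_zpow_eq_zpow_val, map_mul, map_zpow₀, map_zpow₀, Units.val_pow_eq_pow_val,
      map_pow, log_mul (zpow_ne_zero _ (hv0 (N x))) (zpow_ne_zero _ (pow_ne_zero _ (hv0 ϖ))),
      log_zpow, log_zpow, log_pow] at h3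
    have h4 : log (v.valuation K (ϖ : K)) = -1 := by
      change log (v.valuation K π) = -1
      rw [hπ, log_exp]
    rw [h4] at h3
    simpa [smul_eq_mul] using h3
  have h5 : (ℓ : ℤ) ∣ a * (finrank K L : ℤ) := by
    have h6 : a * (finrank K L : ℤ) = e * vv (N x) := by linarith
    rw [h6]
    exact Dvd.dvd.mul_left hx e
  have h7 : IsCoprime (ℓ : ℤ) (finrank K L : ℤ) :=
    Nat.isCoprime_iff_coprime.2 hcop.symm
  exact h7.dvd_of_dvd_mul_right h5

end MP72e2e6
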