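import Mathlib

/-!
# MP_72e2e6_nt: the branch curve and the Selmer group

For the curve `y ^ ℓ = g (x)` with `g` monic over a field `k`, the descent map `x - T` of its
Jacobian takes values in the units of the algebra `k[T] / (g)` modulo `ℓ`-th powers.
-/

namespace MP72e2e6

open Polynomial IsDedekindDomain

/-- The map from `k[T] / (g)` to `M[T] / (g)` for an extension `M` of `k`. -/
noncomputable def branchMap {k : Type*} [CommRing k] (M : Type*) [CommRing M] [Algebra k M]
    (g : k[X]) : AdjoinRoot g →+* AdjoinRoot (g.map (algebraMap k M)) :=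
  AdjoinRoot.map (algebraMap k M) g (g.map (algebraMap k M)) dvd_rfl

/-- The subgroup of the units of `k[T] / (g)` generated by the `ℓ`-th powers and by the values
`(-1) ^ deg u * u (T)` of the divisors of the affine curve `y ^ ℓ = g (x)` over `k`: such a divisor
is given by a monic polynomial `u`, prime to `g`, and by `y = w` modulo `u`, with `w ^ ℓ = g`
modulo `u`. -/
noncomputable def branchImage {k : Type*} [Field k] (ℓ : ℕ) (g : k[X]) : Subgroup (AdjoinRoot g)ˣ :=
  Subgroup.closure
    ({d | ∃ z : (AdjoinRoot g)ˣ, d = z ^ ℓ} ∪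
      {d | ∃ u w : k[X], u.Monic ∧ u ∣ g - w ^ ℓ ∧
        (d : AdjoinRoot g) = (-1) ^ u.natDegree * AdjoinRoot.mk g u})

/-- The Selmer group: the elements of `(K[T] / (g))ˣ` whose norm is an `ℓ`-th power in `K` and
which lie in the local image at every prime of the Dedekind domain `R` with fraction field `K`. -/
noncomputable def branchSelmer (R : Type*) [CommRing R] [IsDedekindDomain R] {K : Type*} [Field K]
    [Algebra R K] [IsFractionRing R K] (ℓ : ℕ) (g : K[X]) : Subgroup (AdjoinRoot g)ˣ :=
  (powMonoidHom ℓ : Kˣ →* Kˣ).range.comap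
      (Units.map (Algebra.norm K : AdjoinRoot g →* K)) ⊓
  ⨅ v : HeightOneSpectrum R,
    (branchImage ℓ (g.map (algebraMap K (v.adicCompletion K)))).comap
      (Units.map (branchMap (v.adicCompletion K) g : AdjoinRoot g →* _))

/-- The subgroup of `ℓ`-th powers of a commutative group. -/
def powers (ℓ : ℕ) (W : Type*) [CommGroup W] : Subgroup W := (powMonoidHom ℓ : W →* W).range

/-- The number `#Cl(B)[ℓ] * [Bˣ : Rˣ (Bˣ)^ℓ]` for the ring `B = R[T] / (f)` of the branch curve
(it is `0` if one of the factors is infinite). -/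
noncomputable def branchBound {R : Type*} [CommRing R] (f : R[X]) [IsDedekindDomain (AdjoinRoot f)]
    (ℓ : ℕ) : ℕ :=
  Nat.card (powMonoidHom ℓ : ClassGroup (AdjoinRoot f) →* ClassGroup (AdjoinRoot f)).ker *
    ((Units.map (algebraMap R (AdjoinRoot f) : R →* AdjoinRoot f)).range ⊔
      powers ℓ (AdjoinRoot f)ˣ).index

/-- If a prime of the extension `R'` of `R` is ramified over `R`, then there is at most one prime of
`R[T] / (f)` above the prime of `R` below it. -/
def OneAbove {R : Type*} [CommRing R] (f : R[X]) (R' : Type*) [CommRing R'] [Algebra R R'] :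
    Prop :=
  ∀ v : HeightOneSpectrum R', ¬ Algebra.IsUnramifiedAt R v.asIdeal →
    ∀ 𝔮₁ 𝔮₂ : HeightOneSpectrum (AdjoinRoot f),
      𝔮₁.asIdeal.comap (algebraMap R (AdjoinRoot f)) = v.asIdeal.comap (algebraMap R R') →
      𝔮₂.asIdeal.comap (algebraMap R (AdjoinRoot f)) = v.asIdeal.comap (algebraMap R R') →
      𝔮₁ = 𝔮₂

/-- The polynomial `f₀ (T) - t` over the ring `F[t]`. -/
noncomputable def graphPoly {F : Type*} [Field F] (f₀ : F[X]) : F[X][X] :=
  f₀.map (C : F →+* F[X]) - C X

/-- The order of the quotient of the Selmer group by the `ℓ`-th powers (`0` if it is infinite). -/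
noncomputable def selmerOrder (R : Type*) [CommRing R] [IsDedekindDomain R] {K : Type*} [Field K]
    [Algebra R K] [IsFractionRing R K] (ℓ : ℕ) (g : K[X]) : ℕ :=
  (powers ℓ (AdjoinRoot g)ˣ).relIndex (branchSelmer R ℓ g)

/-- `K'` is a finite Galois extension of `K` whose Galois group is an `ℓ`-group, and `R'` is the
integral closure of `R` in `K'`. -/
def IsEllExtension (ℓ : ℕ) (R K R' K' : Type*) [CommRing R] [Field K] [Algebra R K] [CommRing R']
    [Field K'] [Algebra R' K'] [Algebra R R'] [Algebra K K'] [Algebra R K'] : Prop :=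
  IsScalarTower R K K' ∧ IsScalarTower R R' K' ∧ IsIntegralClosure R' R K' ∧
    FiniteDimensional K K' ∧ IsGalois K K' ∧ IsPGroup ℓ (K' ≃ₐ[K] K')

/-- Over every `ℓ`-extension `K'` of `K` such that the primes which ramify have at most one prime
of `R[T] / (f)` above them, the order of the Selmer group of `f` modulo `ℓ`-th powers divides
`N ^ [K' : K]`. -/
def TowerBound.{u} (ℓ : ℕ) (R K : Type u) [CommRing R] [Field K] [Algebra R K] (f : R[X])
    (N : ℕ) : Prop :=
  ∀ (R' K' : Type u) [CommRing R'] [IsDedekindDomain R'] [Field K'] [Algebra R' K']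
    [IsFractionRing R' K'] [Algebra R R'] [Algebra K K'] [Algebra R K'],
    IsEllExtension ℓ R K R' K' → OneAbove f R' →
      selmerOrder R' ℓ (f.map (algebraMap R K')) ∣ N ^ Module.finrank K K'

/-- Every prime of the extension `R'` of `F[t]` which is ramified over `F[t]` contains a
polynomial `P (t)` such that `P (f₀ (x))` divides a power of an irreducible polynomial. -/
def PowerAbove {F : Type*} [Field F] (f₀ : F[X]) (R' : Type*) [CommRing R'] [Algebra F[X] R'] :
    Prop :=
  ∀ v : HeightOneSpectrum R', ¬ Algebra.IsUnramifiedAt F[X] v.asIdeal →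
    ∃ (P Q : F[X]) (k : ℕ), algebraMap F[X] R' P ∈ v.asIdeal ∧ Irreducible Q ∧ P.comp f₀ ∣ Q ^ k

/-- Over every `ℓ`-extension `K'` of `K = F(t)` with the property `PowerAbove`, the Selmer group of
`f₀ (T) - t` modulo `ℓ`-th powers is trivial. -/
def GraphTrivial.{u} (ℓ : ℕ) (F K : Type u) [Field F] [Field K] [Algebra F[X] K] (f₀ : F[X]) :
    Prop :=
  ∀ (R' K' : Type u) [CommRing R'] [IsDedekindDomain R'] [Field K'] [Algebra R' K']
    [IsFractionRing R' K'] [Algebra F[X] R'] [Algebra K K'] [Algebra F[X] K'],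
    IsEllExtension ℓ F[X] K R' K' → PowerAbove f₀ R' →
      selmerOrder R' ℓ ((graphPoly f₀).map (algebraMap F[X] K')) = 1

end MP72e2e6
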