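import Pool.Agent.Lib.MP_72e2e6_nt.HSolo

/-!
# MP_72e2e6_nt: uniqueness of the adic valuation
-/

namespace MP72e2e6

open Polynomial IsDedekindDomain WithZero Module

universe u

theorem tVal : StmtVal.{u} := by
  intro A F _ _ _ _ _ 𝔮 V hle h1 hex
  obtain ⟨p, hp⟩ := 𝔮.valuation_exists_uniformizer' F
  have hV0 : ∀ y : F, y ≠ 0 → V y ≠ 0 := fun y hy => (Valuation.ne_zero_iff V).2 hy
  have hq0 : ∀ y : F, y ≠ 0 → 𝔮.valuation F y ≠ 0 :=
    fun y hy => (Valuation.ne_zero_iff _).2 hy
  have hp' : 𝔮.valuation F (algebraMap A F p) = exp (-1 : ℤ) := hp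
  have hp0 : algebraMap A F p ≠ 0 := by
    intro h0
    rw [h0, map_zero] at hp'
    exact exp_ne_zero hp'.symm
  -- elements of valuation one
  have key1 : ∀ y : F, 𝔮.valuation F y = 1 → V y = 1 := by
    intro y hy
    obtain ⟨s, hs, c, hc⟩ := solo_denominator 𝔮 y hy.le
    have h2 : 𝔮.valuation F (algebraMap A F s) = 1 :=
      (HeightOneSpectrum.valuation_eq_one_iff_notMem 𝔮).2 hs
    have h3 : 𝔮.valuation F (algebraMap A F c) = 1 := by
      rw [← hc, map_mul, h2, hy, mul_one]
    have h4 : c ∉ 𝔮.asIdeal := (HeightOneSpectrum.valuation_eq_one_iff_notMem 𝔮).1 h3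
    have h5 := congrArg V hc
    rw [map_mul, h1 s hs, h1 c h4, one_mul] at h5
    exact h5
  have key2 : ∀ y : F, y ≠ 0 →
      V y = V (algebraMap A F p) ^ (-log (𝔮.valuation F y)) := by
    intro y hy
    set k : ℤ := -log (𝔮.valuation F y) with hk
    have h2 : 𝔮.valuation F (y / algebraMap A F p ^ k) = 1 := by
      rw [map_div₀, map_zpow₀, hp']
      have h3 : 𝔮.valuation F y = exp (-1 : ℤ) ^ k := by
        rw [← exp_zsmul, smul_eq_mul, hk]
        conv_lhs => rw [← exp_log (hq0 y hy)]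
        congr 1
        ring
      rw [h3]
      exact div_self (zpow_ne_zero _ exp_ne_zero)
    have h4 := key1 _ h2
    rw [map_div₀, map_zpow₀, div_eq_one_iff_eq (zpow_ne_zero _ (hV0 _ hp0))] at h4
    exact h4
  -- the value of the uniformizer
  have hVp : V (algebraMap A F p) = exp (-1 : ℤ) := by
    obtain ⟨x, hx⟩ := hex
    have hx0 : x ≠ 0 := by
      rintro rfl
      rw [map_zero] at hx
      exact exp_ne_zero hx.symm
    have h2 := key2 x hx0
    rw [hx] at h2
    have h3 := congrArg log h2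
    rw [log_exp, log_zpow, smul_eq_mul] at h3
    have h4 : log (V (algebraMap A F p)) ≤ 0 := by
      have h5 := (log_le_log (hV0 _ hp0) one_ne_zero).2 (hle p)
      rwa [log_one] at h5
    have h6 : -log (V (algebraMap A F p)) ∣ 1 :=
      ⟨-log (𝔮.valuation F x), by linarith⟩
    have h7 := Int.le_of_dvd one_pos h6
    have h8 : log (V (algebraMap A F p)) = -1 := by
      have h9 : log (V (algebraMap A F p)) ≠ 0 := by
        intro h0
        rw [h0, mul_zero] at h3
        norm_num at h3
      omega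
    rw [← exp_log (hV0 _ hp0), h8]
  intro x
  rcases eq_or_ne x 0 with rfl | hx
  · rw [map_zero, map_zero]
  · rw [key2 x hx, hVp, ← exp_zsmul, smul_eq_mul]
    conv_rhs => rw [← exp_log (hq0 x hx)]
    congr 1
    ring

end MP72e2e6
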