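import Pool.Agent.Lib.MP_72e2e6_nt.HAsm
import Pool.Agent.Lib.MP_72e2e6_nt.HFix
import Pool.Agent.Lib.MP_72e2e6_nt.HRel
import Pool.Agent.Lib.MP_72e2e6_nt.HDesc
import Pool.Agent.Lib.MP_72e2e6_nt.HVal
import Pool.Agent.Lib.MP_72e2e6_nt.HSolo
import Pool.Agent.Lib.MP_72e2e6_nt.HSig
import Pool.Agent.Lib.MP_72e2e6_nt.HCount

/-!
# MP_72e2e6_nt: the tower
-/

namespace MP72e2e6

open IsDedekindDomain WithZero Polynomial Module

universe u

/-- primes below -/
theorem exists_under {A B : Type*} [CommRing A] [IsDomain A] [CommRing B] [IsDomain B]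
    [Algebra A B] [Algebra.IsIntegral A B] (w : HeightOneSpectrum B) :
    ∃ v : HeightOneSpectrum A, v.asIdeal = w.asIdeal.comap (algebraMap A B) := by
  refine ⟨⟨w.asIdeal.comap (algebraMap A B), Ideal.IsPrime.comap _, ?_⟩, rfl⟩
  intro h
  exact w.ne_bot (Ideal.eq_bot_of_comap_eq_bot h)

/-- primes above -/
theorem exists_over {A B : Type*} [CommRing A] [IsDomain A] [CommRing B] [IsDomain B]
    [Algebra A B] [Algebra.IsIntegral A B] (hinj : Function.Injective (algebraMap A B))
    (v : HeightOneSpectrum A) :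
    ∃ w : HeightOneSpectrum B, w.asIdeal.comap (algebraMap A B) = v.asIdeal := by
  have hker : RingHom.ker (algebraMap A B) ≤ v.asIdeal := by
    rw [(RingHom.injective_iff_ker_eq_bot _).1 hinj]
    exact bot_le
  obtain ⟨Q, hQ1, hQ2, hQ3⟩ := Ideal.exists_ideal_over_prime_of_isIntegral v.asIdeal (⊥ : Ideal B)
    (by rw [← RingHom.ker_eq_comap_bot]; exact hker)
  refine ⟨⟨Q, hQ2, ?_⟩, hQ3⟩
  rintro rfl
  apply v.ne_bot
  rw [← hQ3, ← RingHom.ker_eq_comap_bot]
  exact (RingHom.injective_iff_ker_eq_bot _).1 hinj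

/-- the elements with valuations divisible by `ℓ` at the primes of a set -/
def ellOn {C L : Type*} [CommRing C] [IsDedekindDomain C] [Field L] [Algebra C L]
    [IsFractionRing C L] (ℓ : ℕ) (T : Set (HeightOneSpectrum C)) : Subgroup Lˣ where
  carrier := {x | ∀ v ∈ T, (ℓ : ℤ) ∣ WithZero.log (v.valuation L (x : L))}
  mul_mem' := by
    intro x y hx hy v hv
    rw [Units.val_mul, map_mul, WithZero.log_mul (unit_valuation_ne_zero _ _)
      (unit_valuation_ne_zero _ _)]
    exact dvd_add (hx v hv) (hy v hv)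
  one_mem' := by
    intro v _
    simp
  inv_mem' := by
    intro x hx v hv
    rw [Units.val_inv_eq_inv_val, map_inv₀, WithZero.log_inv, dvd_neg]
    exact hx v hv

section tower

variable {R K R' K' L L' C : Type u}
  [CommRing R] [IsDedekindDomain R] [Field K] [Algebra R K] [IsFractionRing R K]
  [CommRing R'] [IsDedekindDomain R'] [Algebra R R'] [Module.Finite R R']
  [Field K'] [Algebra R' K'] [IsFractionRing R' K'] [Algebra K K'] [FiniteDimensional K K']
  [IsGalois K K']
  (f : R[X]) [IsDedekindDomain (AdjoinRoot f)]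
  [Field L] [Algebra (AdjoinRoot f) L] [IsFractionRing (AdjoinRoot f) L] [Algebra K L]
  [Algebra R L] [IsScalarTower R (AdjoinRoot f) L] [IsScalarTower R K L] [FiniteDimensional K L]
  [Field L'] [Algebra L L'] [FiniteDimensional L L'] [IsGalois L L'] [Algebra K' L']
  [Algebra K L'] [IsScalarTower K K' L'] [IsScalarTower K L L']
  [CommRing C] [IsDedekindDomain C] [Algebra C L'] [IsFractionRing C L']
  [Algebra (AdjoinRoot f) C] [Algebra (AdjoinRoot f) L'] [IsScalarTower (AdjoinRoot f) C L']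
  [IsScalarTower (AdjoinRoot f) L L'] [IsIntegralClosure C (AdjoinRoot f) L']
  [Algebra R' C] [Algebra R C] [IsScalarTower R R' C] [IsScalarTower R (AdjoinRoot f) C]
  [Algebra R' L'] [IsScalarTower R' C L'] [IsScalarTower R' K' L']

/-- **The tower**, abstract form. `T` is the set of the primes of `C` above the primes of `R` all
of whose extensions to `R'` are unramified. -/
theorem tower_index {ℓ : ℕ} (hℓ : ℓ.Prime) (hf : f.Monic)
    (hgen : ∀ x : L', ∃ a b : AdjoinRoot (f.map (algebraMap R R')),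
      algebraMap C L' (towerHom R' C f b) ≠ 0 ∧
      x = algebraMap C L' (towerHom R' C f a) / algebraMap C L' (towerHom R' C f b))
    (hn1 : (finrank K L).Coprime ℓ) (hn2 : (finrank K' L').Coprime ℓ)
    (hcop : (finrank K L).Coprime (finrank K K'))
    (hnorm : ∀ x : L, Algebra.norm K' (algebraMap L L' x) = algebraMap K K' (Algebra.norm K x))
    (hG : IsPGroup ℓ (L' ≃ₐ[L] L')) {ζ : K} (hζ : IsPrimitiveRoot ζ ℓ)
    (hram : ∀ v : HeightOneSpectrum R', ¬ Algebra.IsUnramifiedAt R v.asIdeal →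
      ∀ 𝔮₁ 𝔮₂ : HeightOneSpectrum (AdjoinRoot f),
        𝔮₁.asIdeal.comap (algebraMap R (AdjoinRoot f)) = v.asIdeal.comap (algebraMap R R') →
        𝔮₂.asIdeal.comap (algebraMap R (AdjoinRoot f)) = v.asIdeal.comap (algebraMap R R') →
        𝔮₁ = 𝔮₂)
    (T : Set (HeightOneSpectrum C))
    (hT : ∀ 𝔮' : HeightOneSpectrum C, 𝔮' ∈ T ↔ ∀ v : HeightOneSpectrum R',
      v.asIdeal.comap (algebraMap R R') = 𝔮'.asIdeal.comap (algebraMap R C) →
      Algebra.IsUnramifiedAt R v.asIdeal) :
    (powers ℓ L'ˣ).relIndex (ellOn ℓ T ⊓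
        (powers ℓ K'ˣ).comap (Units.map (Algebra.norm K' : L' →* K'))) ∣
      ((powers ℓ Lˣ).relIndex (ellSubgroup (AdjoinRoot f) L ℓ ⊓
        (powers ℓ Kˣ).comap (Units.map (Algebra.norm K : L →* K)))) ^ Nat.card (L' ≃ₐ[L] L') := by
  classical
  have hinjBC : Function.Injective (algebraMap (AdjoinRoot f) C) := by
    have h1 : Function.Injective (algebraMap (AdjoinRoot f) L') := by
      rw [IsScalarTower.algebraMap_eq (AdjoinRoot f) L L']
      exact (algebraMap L L').injective.comp (IsFractionRing.injective (AdjoinRoot f) L)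
    rw [IsScalarTower.algebraMap_eq (AdjoinRoot f) C L'] at h1
    exact Function.Injective.of_comp h1
  have hintBC : Algebra.IsIntegral (AdjoinRoot f) C :=
    IsIntegralClosure.isIntegral_algebra (AdjoinRoot f) L'
  have hintRB : Algebra.IsIntegral R (AdjoinRoot f) := by
    have := hf.finite_adjoinRoot
    infer_instance
  have hintRR' : Algebra.IsIntegral R R' := inferInstance
  have hinjRC : ∀ x : AdjoinRoot f, algebraMap L L' (algebraMap (AdjoinRoot f) L x) =
      algebraMap C L' (algebraMap (AdjoinRoot f) C x) := by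
    intro x
    rw [← IsScalarTower.algebraMap_apply, ← IsScalarTower.algebraMap_apply]
  set M : Subgroup L'ˣ := ellOn ℓ T ⊓
    (powers ℓ K'ˣ).comap (Units.map (Algebra.norm K' : L' →* K')) with hM
  set E : Subgroup Lˣ := ellSubgroup (AdjoinRoot f) L ℓ ⊓
    (powers ℓ Kˣ).comap (Units.map (Algebra.norm K : L →* K)) with hE
  -- stability
  have hstab : ∀ (σ : L' ≃ₐ[L] L') (d : L'ˣ), d ∈ M → σ • d ∈ M := by
    rintro σ d ⟨hd1, hd2⟩
    refine ⟨?_, ?_⟩
    · intro 𝔮' h𝔮'
      obtain ⟨𝔮'', h1, h2⟩ := tSig.{u} tVal.{u} (AdjoinRoot f) C L'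
        (σ.restrictScalars (AdjoinRoot f)) 𝔮'
      have h3 : 𝔮'' ∈ T := by
        rw [hT]
        intro v hv
        refine (hT 𝔮').1 h𝔮' v ?_
        rw [hv]
        ext r
        rw [Ideal.mem_comap, Ideal.mem_comap, IsScalarTower.algebraMap_apply R (AdjoinRoot f) C,
          ← Ideal.mem_comap, ← Ideal.mem_comap, h1]
        rfl
      have h4 := hd1 𝔮'' h3
      rw [← h2] at h4
      exact h4
    · obtain ⟨y, hy⟩ := hd2
      let res : K' ≃ₐ[K] K' := (σ.restrictScalars K).restrictNormal K'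
      have hres : ∀ x : K', algebraMap K' L' (res x) = σ (algebraMap K' L' x) :=
        fun x => (σ.restrictScalars K).restrictNormal_commutes K' x
      refine ⟨Units.map (res : K' →* K') y, ?_⟩
      have h1 := Algebra.norm_eq_of_equiv_equiv res.toRingEquiv σ.toRingEquiv (by
        ext z
        exact hres z) (d : L')
      have hy' : ((y : K'ˣ) : K') ^ ℓ = Algebra.norm K' (d : L') := by
        have h2 := congrArg Units.val hy
        exact h2
      ext
      change (res (y : K')) ^ ℓ = Algebra.norm K' (σ (d : L'))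
      rw [← map_pow, hy', h1]
      change res (res.symm _) = _
      rw [AlgEquiv.apply_symm_apply]
      rfl
  -- the fixed part
  let F : Subgroup L'ˣ :=
    { carrier := {d | d ∈ M ∧ ∀ σ : L' ≃ₐ[L] L', ∃ z : L'ˣ, σ • d = d * z ^ ℓ}
      mul_mem' := by
        rintro a b ⟨ha1, ha2⟩ ⟨hb1, hb2⟩
        refine ⟨mul_mem ha1 hb1, fun σ => ?_⟩
        obtain ⟨z, hz⟩ := ha2 σ
        obtain ⟨z', hz'⟩ := hb2 σ
        exact ⟨z * z', by rw [smul_mul', hz, hz', mul_pow, mul_mul_mul_comm]⟩
      one_mem' := ⟨one_mem _, fun σ => ⟨1, by rw [smul_one, one_pow, mul_one]⟩⟩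
      inv_mem' := by
        rintro a ⟨ha1, ha2⟩
        refine ⟨inv_mem ha1, fun σ => ?_⟩
        obtain ⟨z, hz⟩ := ha2 σ
        exact ⟨z⁻¹, by rw [smul_inv', hz, mul_inv, inv_pow]⟩ }
  have hfix := tFix.{u} ℓ hℓ (L' ≃ₐ[L] L') L'ˣ hG M F hstab (fun d => Iff.rfl)
  refine hfix.trans (pow_dvd_pow_of_dvd ?_ _)
  refine tRel.{u} ℓ Lˣ L'ˣ (Units.map (algebraMap L L' : L →* L')) E F ?_
  rintro d ⟨⟨hd1, y, hy⟩, hd3⟩
  obtain ⟨d₀, b, y₀, hd₀, hy₀⟩ := tDesc.{u} ℓ hℓ K K' L L' hn2 hcop hnorm ζ hζ d y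
    (by
      have h2 := congrArg Units.val hy
      exact h2.symm) (by
      intro σ
      obtain ⟨z, hz⟩ := hd3 σ
      refine ⟨z, ?_⟩
      have h2 := congrArg Units.val hz
      rw [Units.val_mul, Units.val_pow_eq_pow_val] at h2
      exact h2)
  refine ⟨d₀, ⟨?_, y₀, ?_⟩, b, ?_⟩
  · -- the valuations of `d₀`
    intro 𝔮
    obtain ⟨v, hv⟩ := exists_under (A := R) 𝔮
    by_cases hcase : ∀ v' : HeightOneSpectrum R', v'.asIdeal.comap (algebraMap R R') =
        v.asIdeal → Algebra.IsUnramifiedAt R v'.asIdeal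
    · -- unramified case
      obtain ⟨𝔮', h𝔮'⟩ := exists_over hinjBC 𝔮
      have hRC : 𝔮'.asIdeal.comap (algebraMap R C) = v.asIdeal := by
        rw [hv]
        ext r
        rw [Ideal.mem_comap, Ideal.mem_comap, IsScalarTower.algebraMap_apply R (AdjoinRoot f) C,
          ← Ideal.mem_comap, h𝔮']
      have h𝔮'T : 𝔮' ∈ T := by
        rw [hT]
        intro v' hv'
        exact hcase v' (hv'.trans hRC)
      have hintRC : Algebra.IsIntegral R C :=
        Algebra.IsIntegral.trans (AdjoinRoot f)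
      have hintR'C : Algebra.IsIntegral R' C := Algebra.IsIntegral.tower_top (R := R)
      obtain ⟨v', hv'⟩ := exists_under (A := R') 𝔮'
      have hv'R : v'.asIdeal.comap (algebraMap R R') = 𝔮'.asIdeal.comap (algebraMap R C) := by
        ext r
        rw [hv', Ideal.mem_comap, Ideal.mem_comap, Ideal.mem_comap,
          IsScalarTower.algebraMap_apply R R' C]
      have hunr : Algebra.IsUnramifiedAt R v'.asIdeal := (hT 𝔮').1 h𝔮'T v' hv'R
      obtain ⟨x, hx⟩ := 𝔮.intValuation_exists_uniformizer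
      obtain ⟨p, rfl⟩ := AdjoinRoot.mk_surjective x
      have hpv := (unr_structure (L' := L') f hf hgen 𝔮' 𝔮 h𝔮' v'.asIdeal hv'.symm p hx).1
      have hval := tVal.{u} (AdjoinRoot f) L 𝔮 ((𝔮'.valuation L').comap (algebraMap L L'))
        (fun a => by
          rw [Valuation.comap_apply, hinjRC]
          exact HeightOneSpectrum.valuation_le_one 𝔮' _)
        (fun a ha => by
          rw [Valuation.comap_apply, hinjRC, HeightOneSpectrum.valuation_of_algebraMap,
            HeightOneSpectrum.intValuation_eq_one_iff]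
          intro h
          apply ha
          rw [← h𝔮']
          exact h)
        ⟨algebraMap (AdjoinRoot f) L (AdjoinRoot.mk f p), by
          rw [Valuation.comap_apply, hinjRC, HeightOneSpectrum.valuation_of_algebraMap, hpv]⟩
        (d₀ : L)
      rw [← hval, Valuation.comap_apply]
      have h5 := hd1 𝔮' h𝔮'T
      have hd₀0 : 𝔮'.valuation L' (algebraMap L L' (d₀ : L)) ≠ 0 := by
        rw [Valuation.ne_zero_iff, Ne, map_eq_zero]
        exact d₀.ne_zero
      have hb0 : 𝔮'.valuation L' (b : L') ^ ℓ ≠ 0 :=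
        pow_ne_zero _ ((Valuation.ne_zero_iff _).2 b.ne_zero)
      rw [hd₀, map_mul, map_pow, log_mul hd₀0 hb0, log_pow, nsmul_eq_mul] at h5
      exact (dvd_add_left (dvd_mul_right _ _)).1 h5
    · -- a single prime above
      push Not at hcase
      obtain ⟨v', hv', hram'⟩ := hcase
      refine tSolo.{u} R K (AdjoinRoot f) L v 𝔮 hv.symm ?_ ℓ hn1 d₀ ?_
      · intro 𝔮₂ h𝔮₂
        exact hram v' hram' 𝔮₂ 𝔮 (h𝔮₂.trans hv'.symm) (hv.symm.trans hv'.symm)
      · rw [hy₀, map_pow, log_pow, nsmul_eq_mul]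
        exact dvd_mul_right _ _
  · ext
    exact hy₀.symm
  · ext
    rw [hd₀, Units.val_mul, Units.val_pow_eq_pow_val]
    rfl

end tower

end MP72e2e6
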