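import Pool.Agent.Lib.MP_72e2e6_nt.HInst

/-!
# MP_72e2e6_nt: the bound over the `ℓ`-extensions, abstract form
-/

namespace MP72e2e6

open IsDedekindDomain WithZero Polynomial Module

universe u

section tower

variable {R K R' K' L L' C : Type u}
  [CommRing R] [IsDedekindDomain R] [Field K] [Algebra R K] [IsFractionRing R K]
  [CommRing R'] [IsDedekindDomain R'] [Algebra R R'] [Module.Finite R R']
  [Field K'] [Algebra R' K'] [IsFractionRing R' K'] [Algebra K K'] [FiniteDimensional K K']
  [IsGalois K K']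
  (f : R[X]) [IsDedekindDomain (AdjoinRoot f)]
  [Field L] [Algebra (AdjoinRoot f) L] [IsFractionRing (AdjoinRoot f) L] [Algebra K L]
  [Algebra R L] [IsScalarTower R (AdjoinRoot f) L] [IsScalarTower R K L] [FiniteDimensional K L]
  [Field L'] [Algebra L L'] [FiniteDimensional L L'] [IsGalois L L'] [Algebra K' L']
  [Algebra K L'] [IsScalarTower K K' L'] [IsScalarTower K L L']
  [CommRing C] [IsDedekindDomain C] [Algebra C L'] [IsFractionRing C L']
  [Algebra (AdjoinRoot f) C] [Algebra (AdjoinRoot f) L'] [IsScalarTower (AdjoinRoot f) C L']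
  [IsScalarTower (AdjoinRoot f) L L'] [IsIntegralClosure C (AdjoinRoot f) L']
  [Algebra R' C] [Algebra R C] [IsScalarTower R R' C] [IsScalarTower R (AdjoinRoot f) C]
  [Algebra R' L'] [IsScalarTower R' C L'] [IsScalarTower R' K' L']

omit [IsDedekindDomain R] [FiniteDimensional K K'] [IsGalois K K'] [IsFractionRing R K]
  [Module.Finite R R'] [IsDedekindDomain (AdjoinRoot f)] [Algebra R K] [Field L]
  [Algebra (AdjoinRoot f) L] [IsFractionRing (AdjoinRoot f) L] [Algebra K L] [Algebra R L]
  [IsScalarTower R (AdjoinRoot f) L] [IsScalarTower R K L] [FiniteDimensional K L]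
  [Algebra L L'] [FiniteDimensional L L'] [IsGalois L L'] [Algebra K L'] [IsScalarTower K K' L']
  [IsScalarTower K L L'] [Algebra (AdjoinRoot f) L'] [IsScalarTower (AdjoinRoot f) C L']
  [IsScalarTower (AdjoinRoot f) L L'] [IsIntegralClosure C (AdjoinRoot f) L'] [Algebra K K']
  [Field K] [IsDedekindDomain C] [IsFractionRing C L'] in
/-- every element of `L'` is a quotient of integral elements -/
theorem gen_of_surjective {g' : K'[X]} (φ : AdjoinRoot g' →+* L') (hφs : Function.Surjective φ)
    (hφK : ∀ x : K', φ (AdjoinRoot.of g' x) = algebraMap K' L' x)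
    (hφθ : φ (AdjoinRoot.root g') =
      algebraMap C L' (algebraMap (AdjoinRoot f) C (AdjoinRoot.root f))) (x : L') :
    ∃ a b : AdjoinRoot (f.map (algebraMap R R')),
      algebraMap C L' (towerHom R' C f b) ≠ 0 ∧
      x = algebraMap C L' (towerHom R' C f a) / algebraMap C L' (towerHom R' C f b) := by
  obtain ⟨y, rfl⟩ := hφs x
  obtain ⟨h, rfl⟩ := AdjoinRoot.mk_surjective y
  obtain ⟨c, W, hc, hW⟩ := exists_denom (O := R') h
  have hc0 : algebraMap R' L' c ≠ 0 := by
    rw [IsScalarTower.algebraMap_apply R' K' L', Ne, map_eq_zero,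
      map_eq_zero_iff _ (IsFractionRing.injective R' K')]
    exact hc
  have hmk : ∀ q : K'[X], φ (AdjoinRoot.mk g' q) = q.eval₂ (algebraMap K' L')
      (algebraMap C L' (algebraMap (AdjoinRoot f) C (AdjoinRoot.root f))) := by
    intro q
    induction q using Polynomial.induction_on' with
    | add a b ha hb => rw [map_add, map_add, ha, hb, eval₂_add]
    | monomial n a =>
      rw [← C_mul_X_pow_eq_monomial, map_mul, map_pow, map_mul, map_pow, AdjoinRoot.mk_C,
        AdjoinRoot.mk_X, hφK, hφθ, eval₂_mul, eval₂_C, eval₂_pow, eval₂_X]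
  refine ⟨AdjoinRoot.mk _ W, AdjoinRoot.of _ c, ?_, ?_⟩
  · rw [towerHom_of, ← IsScalarTower.algebraMap_apply]
    exact hc0
  · rw [towerHom_of, ← IsScalarTower.algebraMap_apply, eq_div_iff hc0, towerHom_mk, aeval_def,
      hom_eval₂, hmk]
    have h1 : (algebraMap C L').comp (algebraMap R' C) =
        (algebraMap K' L').comp (algebraMap R' K') := by
      rw [← IsScalarTower.algebraMap_eq, ← IsScalarTower.algebraMap_eq]
    rw [h1, ← eval₂_map, hW, eval₂_mul, eval₂_C, ← IsScalarTower.algebraMap_apply R' K' L',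
      mul_comm]

/-- **The Selmer group over the extension.** -/
theorem bound_tower_abs {ℓ : ℕ} (hℓ : ℓ.Prime) (hf : f.Monic) (hnf : f.natDegree.Coprime ℓ)
    (hn1 : (finrank K L).Coprime ℓ) (hn2 : (finrank K' L').Coprime ℓ)
    (hcop : (finrank K L).Coprime (finrank K K'))
    (hnorm : ∀ x : L, Algebra.norm K' (algebraMap L L' x) = algebraMap K K' (Algebra.norm K x))
    (hG : IsPGroup ℓ (L' ≃ₐ[L] L')) {ζ : K} (hζ : IsPrimitiveRoot ζ ℓ)
    (hram : ∀ v : HeightOneSpectrum R', ¬ Algebra.IsUnramifiedAt R v.asIdeal →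
      ∀ 𝔮₁ 𝔮₂ : HeightOneSpectrum (AdjoinRoot f),
        𝔮₁.asIdeal.comap (algebraMap R (AdjoinRoot f)) = v.asIdeal.comap (algebraMap R R') →
        𝔮₂.asIdeal.comap (algebraMap R (AdjoinRoot f)) = v.asIdeal.comap (algebraMap R R') →
        𝔮₁ = 𝔮₂)
    {g' : K'[X]} (hg' : (f.map (algebraMap R R')).map (algebraMap R' K') = g')
    (φ : AdjoinRoot g' →+* L') (hφs : Function.Surjective φ)
    (hφK : ∀ x : K', φ (AdjoinRoot.of g' x) = algebraMap K' L' x)
    (hφθ : φ (AdjoinRoot.root g') =
      algebraMap C L' (algebraMap (AdjoinRoot f) C (AdjoinRoot.root f)))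
    (hφN : ∀ x, Algebra.norm K' (φ x) = Algebra.norm K' x) :
    (powers ℓ L'ˣ).relIndex ((branchSelmer R' ℓ g').map (Units.map (φ : AdjoinRoot g' →* L'))) ∣
      ((powers ℓ Lˣ).relIndex (ellSubgroup (AdjoinRoot f) L ℓ ⊓
        (powers ℓ Kˣ).comap (Units.map (Algebra.norm K : L →* K)))) ^ Nat.card (L' ≃ₐ[L] L') := by
  classical
  have hgen := gen_of_surjective (R' := R') (K' := K') f φ hφs hφK hφθ
  let T : Set (HeightOneSpectrum C) := {𝔮' | ∀ v : HeightOneSpectrum R',
      v.asIdeal.comap (algebraMap R R') = 𝔮'.asIdeal.comap (algebraMap R C) →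
      Algebra.IsUnramifiedAt R v.asIdeal}
  have hidx := tower_index (K := K) (L := L) (K' := K') f hℓ hf hgen hn1 hn2 hcop hnorm hG hζ hram T
    (fun _ => Iff.rfl)
  refine (relIndex_dvd_right ?_).trans hidx
  rintro _ ⟨d, hd, rfl⟩
  have hd' := (mem_branchSelmer (R := R') d).1 hd
  obtain ⟨⟨y, hy⟩, hd'⟩ := hd'
  have hinjBC : Function.Injective (algebraMap (AdjoinRoot f) C) := by
    have h1 : Function.Injective (algebraMap (AdjoinRoot f) L') := by
      rw [IsScalarTower.algebraMap_eq (AdjoinRoot f) L L']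
      exact (algebraMap L L').injective.comp (IsFractionRing.injective (AdjoinRoot f) L)
    rw [IsScalarTower.algebraMap_eq (AdjoinRoot f) C L'] at h1
    exact Function.Injective.of_comp h1
  have hintBC : Algebra.IsIntegral (AdjoinRoot f) C :=
    IsIntegralClosure.isIntegral_algebra (AdjoinRoot f) L'
  have hintRB : Algebra.IsIntegral R (AdjoinRoot f) := by
    have := hf.finite_adjoinRoot
    infer_instance
  have hintRC : Algebra.IsIntegral R C := Algebra.IsIntegral.trans (AdjoinRoot f)
  have hintR'C : Algebra.IsIntegral R' C := Algebra.IsIntegral.tower_top (R := R)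
  have hinjR'C : Function.Injective (algebraMap R' C) := by
    have h1 : Function.Injective (algebraMap R' L') := by
      rw [IsScalarTower.algebraMap_eq R' K' L']
      exact (algebraMap K' L').injective.comp (IsFractionRing.injective R' K')
    rw [IsScalarTower.algebraMap_eq R' C L'] at h1
    exact Function.Injective.of_comp h1
  have htf : Module.IsTorsionFree R' C := by
    have : FaithfulSMul R' C := (faithfulSMul_iff_algebraMap_injective R' C).2 hinjR'C
    infer_instance
  refine ⟨?_, y, ?_⟩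
  · intro 𝔮' h𝔮'
    obtain ⟨𝔮, h𝔮⟩ := exists_under (A := AdjoinRoot f) 𝔮'
    obtain ⟨v', hv'⟩ := exists_under (A := R') 𝔮'
    have hover : 𝔮'.asIdeal.LiesOver v'.asIdeal := ⟨hv'⟩
    have hunr : Algebra.IsUnramifiedAt R v'.asIdeal := by
      refine h𝔮' v' ?_
      ext r
      rw [hv', Ideal.mem_comap, Ideal.mem_comap, Ideal.mem_comap,
        IsScalarTower.algebraMap_apply R R' C]
    exact dvd_log_unr f hf hgen 𝔮' 𝔮 h𝔮.symm v' hℓ.pos hnf hg' d (hd' v') φ hφK hφθ
  · ext
    have h2 := congrArg Units.val hy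
    refine h2.trans ?_
    exact (hφN _).symm

end tower

end MP72e2e6
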