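import Pool.Agent.Lib.MP_72e2e6_nt.Val

/-!
# MP_72e2e6_nt: unramified extensions, norms from a ramified Kummer extension
-/

namespace MP72e2e6

open Polynomial IntermediateField Module

universe u

section unramified

variable {F : Type*} [Field F] [Finite F]
variable {M : Type u} [NontriviallyNormedField M] [IsUltrametricDist M] [CompleteSpace M]
  [Algebra F M]
  {L : Type u} [NontriviallyNormedField L] [IsUltrametricDist L] [NormedAlgebra M L]
  [FiniteDimensional M L] [Algebra F L] [IsScalarTower F M L]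

omit [Finite F] [IsUltrametricDist M] [CompleteSpace M] [FiniteDimensional M L] in
/-- the values of `M(τ)` are values of `M` -/
theorem exists_norm_eq_of_mem_adjoin [Fintype F]
    (hres : ∀ y : M, ‖y‖ ≤ 1 → ∃ α : F, ‖y - algebraMap F M α‖ < 1)
    {τ : L} {f : ℕ} (hf : 0 < f) (hτ : τ ^ (Nat.card F) ^ f = τ) (z : L)
    (hz : z ∈ M⟮τ⟯) (hz0 : z ≠ 0) : ∃ y : M, ‖z‖ = ‖y‖ := by
  classical
  have hcard1 : 1 < Nat.card F := Finite.one_lt_card
  set Q := (Nat.card F) ^ f with hQ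
  have hQ1 : 1 < Q := Nat.one_lt_pow hf.ne' hcard1
  have hroot : aeval τ (X ^ Q - X : F[X]) = 0 := by simp [hτ]
  have hne : (X ^ Q - X : F[X]) ≠ 0 := FiniteField.X_pow_card_sub_X_ne_zero F hQ1
  have halgF : IsAlgebraic F τ := ⟨_, hne, hroot⟩
  have hintF : IsIntegral F τ := halgF.isIntegral
  have halgM : IsAlgebraic M τ := halgF.tower_top M
  -- `z` is a polynomial in `τ` over `M`
  obtain ⟨ρ0, hρ0⟩ : ∃ ρ : M[X], aeval τ ρ = z := by
    have h1 : z ∈ (M⟮τ⟯).toSubalgebra := hz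
    rw [IntermediateField.adjoin_simple_toSubalgebra_of_isAlgebraic halgM,
      Algebra.adjoin_singleton_eq_range_aeval] at h1
    exact h1
  set μ := minpoly F τ with hμ
  have hμm : μ.Monic := minpoly.monic hintF
  set ρ := ρ0 %ₘ (μ.map (algebraMap F M)) with hρ
  have hρz : aeval τ ρ = z := by
    rw [← hρ0, hρ]
    refine Polynomial.aeval_modByMonic_eq_self_of_root ?_
    rw [Polynomial.aeval_map_algebraMap]
    exact minpoly.aeval F τ
  have hρdeg : ρ.degree < μ.degree := by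
    have h := Polynomial.degree_modByMonic_lt ρ0 (hμm.map (algebraMap F M))
    rwa [hμm.degree_map] at h
  have hρ0' : ρ ≠ 0 := by
    intro h
    rw [h, map_zero] at hρz
    exact hz0 hρz.symm
  obtain ⟨i0, hi0, hmax⟩ := Finset.exists_max_image ρ.support (fun i => ‖ρ.coeff i‖)
    (Polynomial.support_nonempty.2 hρ0')
  set a := ρ.coeff i0 with ha
  have ha0 : a ≠ 0 := Polynomial.mem_support_iff.1 hi0
  have hle : ∀ i, ‖ρ.coeff i / a‖ ≤ 1 := by
    intro i
    rw [norm_div]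
    refine div_le_one_of_le₀ ?_ (norm_nonneg _)
    by_cases hi : i ∈ ρ.support
    · exact hmax i hi
    · rw [Polynomial.notMem_support_iff.1 hi, norm_zero]
      exact norm_nonneg _
  choose A hA using fun i => hres _ (hle i)
  set d := μ.natDegree with hd
  set ψ : F[X] := ∑ i ∈ Finset.range d, C (A i) * X ^ i with hψ
  have hi0d : i0 < d := by
    have h1 : (i0 : WithBot ℕ) ≤ ρ.degree := Polynomial.le_degree_of_mem_supp _ hi0
    have h2 := lt_of_le_of_lt h1 hρdeg
    rw [Polynomial.degree_eq_natDegree hμm.ne_zero] at h2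
    exact_mod_cast h2
  have hψcoeff : ∀ i, i < d → ψ.coeff i = A i := by
    intro i hi
    rw [hψ, Polynomial.finsetSum_coeff]
    simp only [Polynomial.coeff_C_mul, Polynomial.coeff_X_pow]
    rw [Finset.sum_eq_single i]
    · simp
    · intro j _ hj
      simp [hj.symm]
    · intro h
      exact absurd (Finset.mem_range.2 hi) h
  have hψ0 : ψ ≠ 0 := by
    intro h
    have h1 : A i0 = 0 := by rw [← hψcoeff i0 hi0d, h, Polynomial.coeff_zero]
    have h2 := hA i0
    rw [h1, ← ha, div_self ha0, map_zero, sub_zero, norm_one] at h2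
    exact lt_irrefl _ h2
  have hψdeg : ψ.degree < μ.degree := by
    rw [Polynomial.degree_eq_natDegree hμm.ne_zero, ← hd, ← Polynomial.mem_degreeLT]
    refine Submodule.sum_mem _ fun i hi => ?_
    rw [Polynomial.mem_degreeLT]
    exact (Polynomial.degree_C_mul_X_pow_le _ _).trans_lt
      (WithBot.coe_lt_coe.2 (Finset.mem_range.1 hi))
  have hψτ : aeval τ ψ ≠ 0 := by
    intro h
    exact absurd (minpoly.degree_le_of_ne_zero F τ hψ0 h) (not_le.2 hψdeg)
  have hψQ : (aeval τ ψ) ^ Q = aeval τ ψ := by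
    have h1 : ∀ x : L, ((FiniteField.frobeniusAlgHom F L) ^ f) x = x ^ Q := by
      intro x
      rw [AlgHom.coe_pow, FiniteField.coe_frobeniusAlgHom, pow_iterate, hQ,
        Nat.card_eq_fintype_card]
    rw [← h1, ← Polynomial.aeval_algHom_apply, h1, hτ]
  have hψ1 : ‖aeval τ ψ‖ = 1 := norm_eq_one_of_pow_eq hQ1 hψQ hψτ
  have hτle : ‖τ‖ ≤ 1 := by
    by_cases h : τ = 0
    · rw [h, norm_zero]; exact zero_le_one
    · exact (norm_eq_one_of_pow_eq hQ1 hτ h).le
  have hρnat : ρ.natDegree < d := by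
    rw [Polynomial.degree_eq_natDegree hμm.ne_zero] at hρdeg
    exact (Polynomial.natDegree_lt_iff_degree_lt hρ0').2 hρdeg
  have hdiff : ‖z / algebraMap M L a - aeval τ ψ‖ < 1 := by
    have h1 : z / algebraMap M L a - aeval τ ψ = ∑ i ∈ Finset.range d,
        algebraMap M L (ρ.coeff i / a - algebraMap F M (A i)) * τ ^ i := by
      rw [← hρz, Polynomial.aeval_eq_sum_range' hρnat, hψ, map_sum, Finset.sum_div,
        ← Finset.sum_sub_distrib]
      refine Finset.sum_congr rfl fun i _ => ?_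
      rw [map_mul, aeval_C, map_pow, aeval_X, map_sub, map_div₀, Algebra.smul_def,
        ← IsScalarTower.algebraMap_apply]
      ring
    rw [h1]
    obtain ⟨i, hi, hle2⟩ := IsUltrametricDist.exists_norm_finsetSum_le_of_nonempty
      (t := Finset.range d) ⟨i0, Finset.mem_range.2 hi0d⟩
      (fun i => algebraMap M L (ρ.coeff i / a - algebraMap F M (A i)) * τ ^ i)
    refine lt_of_le_of_lt hle2 ?_
    rw [norm_mul, norm_pow, norm_algebraMap']
    calc ‖ρ.coeff i / a - algebraMap F M (A i)‖ * ‖τ‖ ^ i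
        ≤ ‖ρ.coeff i / a - algebraMap F M (A i)‖ * 1 := by
          gcongr
          exact pow_le_one₀ (norm_nonneg _) hτle
      _ < 1 := by rw [mul_one]; exact hA i
  have hone := norm_eq_one_of_sub hψ1 hdiff
  refine ⟨a, ?_⟩
  rw [norm_div, norm_algebraMap', div_eq_one_iff_eq (norm_ne_zero_iff.2 ha0)] at hone
  exact hone

end unramified

section ramified

/-- `N (s ^ ℓ - P)` as a product of values of the characteristic polynomial of `s`. -/
theorem algebraMap_norm_pow_sub {M L E : Type*} [Field M] [Field L] [Algebra M L]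
    [FiniteDimensional M L] [Field E] [Algebra M E] {ℓ : ℕ} (hℓ : 0 < ℓ) {ζ : E}
    (hζ : IsPrimitiveRoot ζ ℓ) (P : M) (ϖ : E) (hϖ : ϖ ^ ℓ = algebraMap M E P) (s : L) :
    ∃ χ : M[X], algebraMap M E (Algebra.norm M (s ^ ℓ - algebraMap M L P)) =
      ∏ i ∈ Finset.range ℓ, ((-1) ^ finrank M L * aeval (ζ ^ i * ϖ) χ) := by
  classical
  let b := Module.finBasis M L
  let S := Algebra.leftMulMatrix b s
  refine ⟨S.charpoly, ?_⟩
  have h1 : Algebra.norm M (s ^ ℓ - algebraMap M L P) =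
      (S ^ ℓ - algebraMap M (Matrix (Fin (finrank M L)) (Fin (finrank M L)) M) P).det := by
    rw [Algebra.norm_eq_matrix_det b, map_sub, map_pow, AlgHom.commutes]
  let SE : Matrix (Fin (finrank M L)) (Fin (finrank M L)) E := S.map (algebraMap M E)
  have h2 : algebraMap M E (Algebra.norm M (s ^ ℓ - algebraMap M L P)) =
      (SE ^ ℓ - algebraMap E (Matrix (Fin (finrank M L)) (Fin (finrank M L)) E)
        (algebraMap M E P)).det := by
    rw [h1, RingHom.map_det]
    congr 1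
    rw [map_sub, map_pow]
    congr 1
    ext i j
    by_cases hij : i = j
    · subst hij
      simp [Matrix.algebraMap_matrix_apply]
    · simp [Matrix.algebraMap_matrix_apply, hij]
  have h3 : SE ^ ℓ - algebraMap E (Matrix (Fin (finrank M L)) (Fin (finrank M L)) E)
        (algebraMap M E P) = aeval SE (X ^ ℓ - C (algebraMap M E P)) := by
    simp
  let δ : E[X] →* E := Matrix.detMonoidHom.comp (aeval SE : E[X] →ₐ[E] _).toRingHom.toMonoidHom
  have hδ : ∀ p : E[X], (aeval SE p).det = δ p := fun p => rfl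
  rw [h2, h3, X_pow_sub_C_eq_prod hζ hℓ hϖ, hδ, map_prod]
  have h4 : ∀ c : E, (aeval SE (X - C c)).det =
      (-1) ^ finrank M L * aeval c S.charpoly := by
    intro c
    have h5 : aeval SE (X - C c) = -(Matrix.scalar _ c - SE) := by
      simp only [map_sub, aeval_X, aeval_C, neg_sub]
      rfl
    rw [h5, Matrix.det_neg, Fintype.card_fin]
    congr 1
    have h6 : aeval c S.charpoly = SE.charpoly.eval c := by
      have h7 : SE.charpoly = S.charpoly.map (algebraMap M E) :=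
        Matrix.charpoly_map S (algebraMap M E)
      rw [h7, Polynomial.eval_map_algebraMap]
    rw [h6, Matrix.charpoly, ← Polynomial.coe_evalRingHom, RingHom.map_det]
    congr 1
    ext i j
    by_cases hij : i = j
    · subst hij
      simp [Matrix.charmatrix_apply_eq]
    · simp [Matrix.charmatrix_apply_ne _ _ _ hij, Matrix.diagonal_apply_ne _ hij]
  refine Finset.prod_congr rfl fun i _ => ?_
  rw [← hδ, h4]

theorem norm_mul_sub_one_lt {E : Type*} [NormedField E] [IsUltrametricDist E] {x y : E}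
    (hx : ‖x - 1‖ < 1) (hy : ‖y - 1‖ < 1) : ‖x * y - 1‖ < 1 := by
  have hx1 : ‖x‖ = 1 := by
    have h1 : x = 1 + (x - 1) := by ring
    rw [h1, IsUltrametricDist.norm_add_eq_max_of_norm_ne_norm (by rw [norm_one]; exact hx.ne'),
      norm_one, max_eq_left hx.le]
  have h2 : x * y - 1 = x * (y - 1) + (x - 1) := by ring
  rw [h2]
  refine lt_of_le_of_lt (IsUltrametricDist.norm_add_le_max _ _) (max_lt ?_ hx)
  rw [norm_mul, hx1, one_mul]
  exact hy

theorem norm_prod_sub_one_lt {E ι : Type*} [NormedField E] [IsUltrametricDist E] (s : Finset ι)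
    (x : ι → E) (hx : ∀ i ∈ s, ‖x i - 1‖ < 1) : ‖∏ i ∈ s, x i - 1‖ < 1 := by
  classical
  induction s using Finset.induction_on with
  | empty => simp
  | insert i s hi ih =>
    rw [Finset.prod_insert hi]
    exact norm_mul_sub_one_lt (hx i (Finset.mem_insert_self _ _))
      (ih fun j hj => hx j (Finset.mem_insert_of_mem hj))

variable {M : Type u} [NontriviallyNormedField M] [IsUltrametricDist M] [CompleteSpace M]

theorem norm_pow_sub_eq {L E : Type*} [Field L] [Algebra M L]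
    [FiniteDimensional M L] [NormedField E] [NormedAlgebra M E] [IsUltrametricDist E]
    (p : ℕ) [Fact p.Prime] [CharP M p] {ℓ : ℕ} (hℓ : ℓ.Prime) (hℓp : ℓ.Coprime p)
    (v : Valuation M (WithZero (Multiplicative ℤ))) (hv : ∀ x y : M, ‖x‖ ≤ ‖y‖ ↔ v x ≤ v y)
    {ζ : M} (hζ : IsPrimitiveRoot ζ ℓ) (P : M) (hP0 : P ≠ 0)
    (hP : ¬ (ℓ : ℤ) ∣ WithZero.log (v P))
    (ϖ : E) (hϖ : ϖ ^ ℓ = algebraMap M E P) (s : L)
    (hN : Algebra.norm M (s ^ ℓ - algebraMap M L P) ≠ 0) :
    ∃ (r : ℕ) (z : M), z ≠ 0 ∧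
      Algebra.norm M (s ^ ℓ - algebraMap M L P) = (-P) ^ r * z ^ ℓ := by
  classical
  have hinj : Function.Injective (algebraMap M E) := (algebraMap M E).injective
  set ζ' := algebraMap M E ζ with hζ'
  have hζE : IsPrimitiveRoot ζ' ℓ := hζ.map_of_injective hinj
  obtain ⟨χ, hχ⟩ := algebraMap_norm_pow_sub hℓ.pos hζE P ϖ hϖ s
  set N := Algebra.norm M (s ^ ℓ - algebraMap M L P) with hNdef
  have hmon : (X ^ ℓ - C P : M[X]).Monic := monic_X_pow_sub_C P hℓ.ne_zero
  set ρ := χ %ₘ (X ^ ℓ - C P) with hρdef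
  have hρ : ∀ i : ℕ, aeval (ζ' ^ i * ϖ) χ = aeval (ζ' ^ i * ϖ) ρ := by
    intro i
    refine (Polynomial.aeval_modByMonic_eq_self_of_root ?_).symm
    simp only [map_sub, map_pow, aeval_X, aeval_C]
    rw [mul_pow, ← pow_mul, mul_comm i ℓ, pow_mul, hζE.pow_eq_one, one_pow, one_mul, hϖ, sub_self]
  have hdeg : ∀ j ∈ ρ.support, j < ℓ := by
    intro j hj
    have h1 := Polynomial.degree_modByMonic_lt χ hmon
    rw [Polynomial.degree_X_pow_sub_C hℓ.pos] at h1
    have h2 := Polynomial.le_degree_of_mem_supp _ hj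
    exact_mod_cast lt_of_le_of_lt h2 h1
  have hϖ0 : ϖ ≠ 0 := by
    intro h
    rw [h, zero_pow hℓ.ne_zero] at hϖ
    exact hP0 (hinj (by rw [← hϖ, map_zero]))
  have hζ0 : ζ' ≠ 0 := hζE.ne_zero hℓ.ne_zero
  have hζn : ‖ζ'‖ = 1 := by
    have h1 : ‖ζ'‖ ^ ℓ = 1 := by rw [← norm_pow, hζE.pow_eq_one, norm_one]
    exact (pow_eq_one_iff_of_nonneg (norm_nonneg _) hℓ.ne_zero).1 h1
  have hρ0 : ρ ≠ 0 := by
    intro h
    have h1 : algebraMap M E N = 0 := by
      rw [hχ]
      refine Finset.prod_eq_zero (Finset.mem_range.2 hℓ.pos) ?_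
      rw [hρ, h, map_zero, mul_zero]
    exact hN (hinj (by rw [h1, map_zero]))
  obtain ⟨r, hr, hmax⟩ := Finset.exists_max_image ρ.support
    (fun j => ‖ρ.coeff j‖ * ‖ϖ‖ ^ j) (Polynomial.support_nonempty.2 hρ0)
  set c := ρ.coeff r with hc
  have hc0 : c ≠ 0 := Polynomial.mem_support_iff.1 hr
  have hstrict : ∀ j ∈ ρ.support, j ≠ r → ‖ρ.coeff j‖ * ‖ϖ‖ ^ j < ‖c‖ * ‖ϖ‖ ^ r := by
    intro j hj hjr
    refine lt_of_le_of_ne (hmax j hj) fun heq => hjr ?_
    have hj0 : ρ.coeff j ≠ 0 := Polynomial.mem_support_iff.1 hj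
    have h1 : ‖(ρ.coeff j) ^ ℓ * P ^ j‖ = ‖c ^ ℓ * P ^ r‖ := by
      have h2 : ∀ (x : M) (k : ℕ), ‖x ^ ℓ * P ^ k‖ = (‖x‖ * ‖ϖ‖ ^ k) ^ ℓ := by
        intro x k
        have h3 : ‖P‖ = ‖ϖ‖ ^ ℓ := by rw [← norm_pow, hϖ, norm_algebraMap']
        rw [norm_mul, norm_pow, norm_pow, h3, mul_pow, ← pow_mul, ← pow_mul, mul_comm ℓ k]
      rw [h2, h2, heq]
    have h4 : v ((ρ.coeff j) ^ ℓ * P ^ j) = v (c ^ ℓ * P ^ r) :=
      le_antisymm ((hv _ _).1 h1.le) ((hv _ _).1 h1.ge)
    have h5 := congrArg WithZero.log h4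
    have hvP : v P ≠ 0 := (Valuation.ne_zero_iff v).2 hP0
    have hvj : v (ρ.coeff j) ≠ 0 := (Valuation.ne_zero_iff v).2 hj0
    have hvc : v c ≠ 0 := (Valuation.ne_zero_iff v).2 hc0
    rw [map_mul, map_mul, map_pow, map_pow, map_pow, map_pow,
      WithZero.log_mul (pow_ne_zero _ hvj) (pow_ne_zero _ hvP),
      WithZero.log_mul (pow_ne_zero _ hvc) (pow_ne_zero _ hvP),
      WithZero.log_pow, WithZero.log_pow, WithZero.log_pow, WithZero.log_pow] at h5
    have h6 : (ℓ : ℤ) ∣ ((j : ℤ) - r) * WithZero.log (v P) := by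
      refine ⟨WithZero.log (v c) - WithZero.log (v (ρ.coeff j)), ?_⟩
      simp only [nsmul_eq_mul] at h5
      linear_combination h5
    have h7 : (ℓ : ℤ) ∣ (j : ℤ) - r :=
      ((Nat.prime_iff_prime_int.1 hℓ).dvd_or_dvd h6).resolve_right hP
    have h8 := hdeg j hj
    have h9 := hdeg r hr
    obtain ⟨q, hq⟩ := h7
    have h10 : |(j : ℤ) - r| < ℓ := by
      rw [abs_lt]; omega
    have h11 : (j : ℤ) - r = 0 := Int.eq_zero_of_abs_lt_dvd ⟨q, hq⟩ h10
    omega
  -- the principal parts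
  let A : ℕ → E := fun i => algebraMap M E c * (ζ' ^ i * ϖ) ^ r
  have hA0 : ∀ i, A i ≠ 0 := fun i => mul_ne_zero
    (fun h => hc0 (hinj (by rw [h, map_zero])))
    (pow_ne_zero _ (mul_ne_zero (pow_ne_zero _ hζ0) hϖ0))
  have hη : ∀ i ∈ Finset.range ℓ, ‖aeval (ζ' ^ i * ϖ) ρ / A i - 1‖ < 1 := by
    intro i _
    have h1 : aeval (ζ' ^ i * ϖ) ρ - A i =
        ∑ j ∈ ρ.support.erase r, algebraMap M E (ρ.coeff j) * (ζ' ^ i * ϖ) ^ j := by
      rw [Polynomial.aeval_def, Polynomial.eval₂_eq_sum, Polynomial.sum_def,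
        ← Finset.add_sum_erase _ _ hr]
      simp only [A, hc]
      ring
    have h2 : aeval (ζ' ^ i * ϖ) ρ / A i - 1 = (aeval (ζ' ^ i * ϖ) ρ - A i) / A i := by
      field_simp [hA0 i]
    have hxn : ‖ζ' ^ i * ϖ‖ = ‖ϖ‖ := by rw [norm_mul, norm_pow, hζn, one_pow, one_mul]
    have hAn : ‖A i‖ = ‖c‖ * ‖ϖ‖ ^ r := by
      simp only [A]
      rw [norm_mul, norm_pow, hxn, norm_algebraMap']
    have hApos : 0 < ‖A i‖ := norm_pos_iff.2 (hA0 i)
    rw [h2, h1, norm_div, div_lt_one hApos, hAn]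
    rcases (ρ.support.erase r).eq_empty_or_nonempty with he | hne
    · rw [he, Finset.sum_empty, norm_zero, ← hAn]
      exact hApos
    · obtain ⟨j, hj, hle⟩ := IsUltrametricDist.exists_norm_finsetSum_le_of_nonempty hne
        (fun j => algebraMap M E (ρ.coeff j) * (ζ' ^ i * ϖ) ^ j)
      refine lt_of_le_of_lt hle ?_
      rw [norm_mul, norm_pow, hxn, norm_algebraMap']
      exact hstrict j (Finset.mem_of_mem_erase hj) (Finset.ne_of_mem_erase hj)
  have hprodϖ : ∏ i ∈ Finset.range ℓ, (ζ' ^ i * ϖ) = (-1) ^ ℓ * algebraMap M E (-P) := by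
    have h1 := congrArg (Polynomial.eval 0) (X_pow_sub_C_eq_prod hζE hℓ.pos hϖ)
    rw [Polynomial.eval_prod] at h1
    simp only [eval_sub, eval_pow, eval_X, eval_C, zero_sub, zero_pow hℓ.ne_zero] at h1
    rw [Finset.prod_neg, Finset.card_range] at h1
    have h2 : ((-1 : E) ^ ℓ) * ((-1) ^ ℓ) = 1 := by rw [← mul_pow]; simp
    rw [map_neg, h1, ← mul_assoc, h2, one_mul]
  set Z : M := (-P) ^ r * ((-1) ^ finrank M L * c * (-1) ^ r) ^ ℓ with hZ
  have hZ0 : Z ≠ 0 := by
    refine mul_ne_zero (pow_ne_zero _ (neg_ne_zero.2 hP0)) (pow_ne_zero _ ?_)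
    exact mul_ne_zero (mul_ne_zero (pow_ne_zero _ (by simp)) hc0) (pow_ne_zero _ (by simp))
  have hNZ : algebraMap M E (N / Z) = ∏ i ∈ Finset.range ℓ, (aeval (ζ' ^ i * ϖ) ρ / A i) := by
    have hZE : algebraMap M E Z ≠ 0 := fun h => hZ0 (hinj (by rw [h, map_zero]))
    rw [map_div₀, div_eq_iff hZE]
    have h1 : algebraMap M E Z = ∏ i ∈ Finset.range ℓ, ((-1) ^ finrank M L * A i) := by
      simp only [A]
      rw [Finset.prod_mul_distrib, Finset.prod_mul_distrib, Finset.prod_const, Finset.prod_const,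
        Finset.card_range, Finset.prod_pow, hprodϖ, hZ]
      simp only [map_mul, map_pow, map_neg, map_one]
      ring
    rw [h1, ← Finset.prod_mul_distrib, hχ]
    refine Finset.prod_congr rfl fun i _ => ?_
    rw [hρ i]
    field_simp [hA0 i]
  have hlt : ‖N / Z - 1‖ < 1 := by
    have h1 := norm_prod_sub_one_lt (Finset.range ℓ) _ hη
    rw [← hNZ, ← map_one (algebraMap M E), ← map_sub, norm_algebraMap'] at h1
    exact h1
  obtain ⟨z, hz, hz1⟩ := exists_pow_eq_of_principal p hℓp hlt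
  have hz0 : z ≠ 0 := by
    intro h
    rw [h, zero_pow hℓ.ne_zero, eq_comm, div_eq_zero_iff] at hz
    rcases hz with h | h
    · exact hN h
    · exact hZ0 h
  refine ⟨r, ((-1) ^ finrank M L * c * (-1) ^ r) * z, ?_, ?_⟩
  · refine mul_ne_zero ?_ hz0
    exact mul_ne_zero (mul_ne_zero (pow_ne_zero _ (by simp)) hc0) (pow_ne_zero _ (by simp))
  · rw [mul_pow, hz, ← mul_assoc, ← hZ, mul_div_cancel₀ _ hZ0]

end ramified

end MP72e2e6
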