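import Pool.Agent.Lib.MP_72e2e6_nt.Alg
import Pool.Agent.Lib.MP_72e2e6_nt.Val2

/-!
# MP_72e2e6_nt: the local image at infinity
-/

namespace MP72e2e6

open Polynomial IntermediateField Module

universe u

section tors

variable {K : Type*} [Field K] {n : ℕ}

theorem torsionTuple_ne_zero {a : Fin n → K} (ha : Function.Injective a) (b : Fin n → ℕ)
    (j i : Fin n) : torsionTuple a b j i ≠ 0 := by
  rw [torsionTuple]
  split_ifs with h
  · refine inv_ne_zero (Finset.prod_ne_zero_iff.2 fun k hk => pow_ne_zero _ (sub_ne_zero.2 ?_))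
    exact fun h1 => Finset.ne_of_mem_erase hk (ha h1).symm
  · exact pow_ne_zero _ (sub_ne_zero.2 fun h1 => h (ha h1).symm)

theorem mem_torsionGroup_pow {ℓ : ℕ} {a : Fin n → K} {b : Fin n → ℕ} (z : Fin n → Kˣ) :
    z ^ ℓ ∈ torsionGroup ℓ a b :=
  Subgroup.subset_closure (Or.inl ⟨z, rfl⟩)

theorem mem_torsionGroup_of {ℓ : ℕ} (hℓ : ℓ ≠ 0) {a : Fin n → K} (ha : Function.Injective a)
    {b : Fin n → ℕ} (j : Fin n) (k : ℕ) {d : Fin n → Kˣ}
    (h : ∀ i, ∃ z : K, (d i : K) = torsionTuple a b j i ^ k * z ^ ℓ) : d ∈ torsionGroup ℓ a b := by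
  choose z hz using h
  have hz0 : ∀ i, z i ≠ 0 := by
    intro i h0
    have h1 := (d i).ne_zero
    rw [hz i, h0, zero_pow hℓ, mul_zero] at h1
    exact h1 rfl
  let U : Fin n → Kˣ := fun i => Units.mk0 _ (torsionTuple_ne_zero ha b j i)
  let Z : Fin n → Kˣ := fun i => Units.mk0 _ (hz0 i)
  have h1 : d = U ^ k * Z ^ ℓ := by
    ext i
    simp only [Pi.mul_apply, Pi.pow_apply, Units.val_mul, Units.val_pow_eq_pow_val]
    exact hz i
  rw [h1]
  refine Subgroup.mul_mem _ (Subgroup.pow_mem _ ?_ k) (mem_torsionGroup_pow Z)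
  exact Subgroup.subset_closure (Or.inr ⟨j, fun i => rfl⟩)

theorem mem_torsionGroup_of_pow {ℓ r : ℕ} (hr : Nat.Coprime r ℓ) {a : Fin n → K} {b : Fin n → ℕ}
    {d : Fin n → Kˣ} (h : d ^ r ∈ torsionGroup ℓ a b) : d ∈ torsionGroup ℓ a b := by
  have h1 : d ^ ℓ ∈ torsionGroup ℓ a b := mem_torsionGroup_pow d
  have h2 := Nat.gcd_eq_gcd_ab r ℓ
  rw [hr] at h2
  have h3 : d = (d ^ r) ^ (Nat.gcdA r ℓ) * (d ^ ℓ) ^ (Nat.gcdB r ℓ) := by
    rw [← zpow_natCast, ← zpow_natCast, ← zpow_mul, ← zpow_mul, ← zpow_add, ← h2]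
    simp
  rw [h3]
  exact Subgroup.mul_mem _ (Subgroup.zpow_mem _ h _) (Subgroup.zpow_mem _ h1 _)

end tors

section generic

variable {M : Type u} [NontriviallyNormedField M] [IsUltrametricDist M] [CompleteSpace M]
  {L : Type u} [NontriviallyNormedField L] [IsUltrametricDist L] [CompleteSpace L]
  [NormedAlgebra M L] [FiniteDimensional M L] {n : ℕ}

omit [IsUltrametricDist M] [CompleteSpace M] in
/-- a point close to a branch point -/
theorem mem_torsionGroup_of_close (p : ℕ) [Fact p.Prime] [CharP L p] {ℓ : ℕ} (hℓ : ℓ ≠ 0)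
    (hℓp : ℓ.Coprime p) {a : Fin n → M} (ha : Function.Injective a) {b : Fin n → ℕ} (j : Fin n)
    (hbj : Nat.Coprime (b j) ℓ) (x w : L) (d : Fin n → Mˣ)
    (hx : ∏ i, (x - algebraMap M L (a i)) ^ (b i) = w ^ ℓ)
    (hd : ∀ i, (d i : M) = Algebra.norm M (x - algebraMap M L (a i)))
    (hclose : ∀ i, i ≠ j → ‖x - algebraMap M L (a j)‖ < ‖a j - a i‖) :
    d ∈ torsionGroup ℓ a b := by
  classical
  refine mem_torsionGroup_of_pow hbj ?_
  have hne : ∀ i, i ≠ j → a j - a i ≠ 0 := fun i hi => sub_ne_zero.2 fun h => hi (ha h).symm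
  have key : ∀ i, i ≠ j → ∃ y : M, (d i : M) = (a j - a i) ^ finrank M L * y ^ ℓ := by
    intro i hi
    have h0 : algebraMap M L (a j - a i) ≠ 0 := by
      rw [Ne, map_eq_zero]
      exact hne i hi
    have h1 : ‖(x - algebraMap M L (a i)) / algebraMap M L (a j - a i) - 1‖ < 1 := by
      have h2 : (x - algebraMap M L (a i)) / algebraMap M L (a j - a i) - 1 =
          (x - algebraMap M L (a j)) / algebraMap M L (a j - a i) := by
        rw [div_sub_one h0, map_sub]
        congr 1
        ring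
      rw [h2, norm_div, norm_algebraMap', div_lt_one (norm_pos_iff.2 (hne i hi))]
      exact hclose i hi
    obtain ⟨y, hy, -⟩ := exists_pow_eq_of_principal p hℓp h1
    refine ⟨Algebra.norm M y, ?_⟩
    rw [hd i, ← map_pow, hy, ← Algebra.norm_algebraMap, ← map_mul, mul_div_cancel₀ _ h0]
  choose! y hy using key
  refine mem_torsionGroup_of hℓ ha j (finrank M L) fun i => ?_
  by_cases hi : i = j
  · subst hi
    have h1 : ∏ k, (d k : M) ^ (b k) = (Algebra.norm M w) ^ ℓ := by
      rw [← map_pow, ← hx, map_prod]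
      refine Finset.prod_congr rfl fun k _ => ?_
      rw [hd k, map_pow]
    rw [← Finset.mul_prod_erase _ _ (Finset.mem_univ i)] at h1
    have h2 : ∏ k ∈ Finset.univ.erase i, (d k : M) ^ (b k) =
        (∏ k ∈ Finset.univ.erase i, (a i - a k) ^ (b k)) ^ finrank M L *
          (∏ k ∈ Finset.univ.erase i, y k ^ (b k)) ^ ℓ := by
      rw [← Finset.prod_pow, ← Finset.prod_pow, ← Finset.prod_mul_distrib]
      refine Finset.prod_congr rfl fun k hk => ?_
      rw [hy k (Finset.ne_of_mem_erase hk)]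
      ring
    have h3 : ∏ k ∈ Finset.univ.erase i, (d k : M) ^ (b k) ≠ 0 :=
      Finset.prod_ne_zero_iff.2 fun k _ => pow_ne_zero _ (d k).ne_zero
    have h4 : (∏ k ∈ Finset.univ.erase i, y k ^ (b k)) ≠ 0 := by
      intro h
      rw [h2, h, zero_pow hℓ, mul_zero] at h3
      exact h3 rfl
    have h5 : (∏ k ∈ Finset.univ.erase i, (a i - a k) ^ (b k)) ≠ 0 :=
      Finset.prod_ne_zero_iff.2 fun k hk => pow_ne_zero _ (hne k (Finset.ne_of_mem_erase hk))
    refine ⟨Algebra.norm M w / ∏ k ∈ Finset.univ.erase i, y k ^ (b k), ?_⟩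
    rw [Pi.pow_apply, Units.val_pow_eq_pow_val, torsionTuple, if_pos rfl, div_pow, ← h1, h2,
      inv_pow]
    have h6 := pow_ne_zero (finrank M L) h5
    have h7 := pow_ne_zero ℓ h4
    rw [mul_div_assoc, mul_div_cancel_right₀ _ h7, mul_comm, mul_assoc, mul_inv_cancel₀ h6, mul_one]
  · refine ⟨y i ^ (b j), ?_⟩
    rw [Pi.pow_apply, Units.val_pow_eq_pow_val, torsionTuple, if_neg hi, hy i hi]
    ring

end generic

section infty

variable {F : Type*} [Field F] [Finite F]
  {M : Type u} [NontriviallyNormedField M] [IsUltrametricDist M] [CompleteSpace M] [Algebra F M]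
  {L : Type u} [NontriviallyNormedField L] [IsUltrametricDist L]
  [NormedAlgebra M L] [FiniteDimensional M L] [Algebra F L] [IsScalarTower F M L]

/-- integral points with residue different from all `c i` -/
theorem norm_eq_pow_of_unit (p : ℕ) [Fact p.Prime] [CharP F p]
    (hres : ∀ y : M, ‖y‖ ≤ 1 → ∃ α : F, ‖y - algebraMap F M α‖ < 1)
    (v : Valuation M (WithZero (Multiplicative ℤ))) (hv : ∀ x y : M, ‖x‖ ≤ ‖y‖ ↔ v x ≤ v y)
    {ℓ : ℕ} (hℓ : ℓ.Prime) (hℓp : ℓ.Coprime p)
    {m : ℕ} (c : Fin m → F) (b : Fin m → ℕ) (P : M)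
    (hP1 : 1 < ‖P‖) (hP : ¬ (ℓ : ℤ) ∣ WithZero.log (v P)) (x w : L)
    (hx : (x + algebraMap M L P) * ∏ i, (x - algebraMap F L (c i)) ^ (b i) = w ^ ℓ)
    (hx1 : ‖x‖ ≤ 1) (hxc : ∀ i, 1 ≤ ‖x - algebraMap F L (c i)‖) :
    (∀ i, ∃ z : M, Algebra.norm M (x - algebraMap F L (c i)) = z ^ ℓ) ∧
      ∃ z : M, Algebra.norm M (x + algebraMap M L P) = z ^ ℓ := by
  classical
  have := Fintype.ofFinite F
  have hcompl : CompleteSpace L := FiniteDimensional.complete M L
  have hcharL : CharP L p := charP_of_injective_algebraMap (algebraMap F L).injective p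
  have hxc1 : ∀ i, ‖x - algebraMap F L (c i)‖ = 1 := by
    intro i
    refine le_antisymm ?_ (hxc i)
    rw [sub_eq_add_neg]
    refine le_trans (IsUltrametricDist.norm_add_le_max _ _) (max_le hx1 ?_)
    rw [norm_neg]
    exact norm_algebraMap_finite_le _
  have hP0 : P ≠ 0 := by
    intro h
    rw [h, norm_zero] at hP1
    exact absurd hP1 (by norm_num)
  have hPL0 : algebraMap M L P ≠ 0 := by rwa [Ne, map_eq_zero]
  have hPpos : 0 < ‖P‖ := norm_pos_iff.2 hP0
  -- `x + P` is `P` times an `ℓ`-th power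
  obtain ⟨y, hy, hy1⟩ := exists_pow_eq_of_principal p hℓp
    (y := (x + algebraMap M L P) / algebraMap M L P) (by
      have h1 : (x + algebraMap M L P) / algebraMap M L P - 1 = x / algebraMap M L P := by
        field_simp
        ring
      rw [h1, norm_div, norm_algebraMap', div_lt_one hPpos]
      exact lt_of_le_of_lt hx1 hP1)
  have hxP : x + algebraMap M L P = algebraMap M L P * y ^ ℓ := by
    rw [hy, mul_div_cancel₀ _ hPL0]
  have hyn : ‖y‖ = 1 := norm_eq_one_of_sub norm_one hy1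
  have hy0 : y ≠ 0 := by
    intro h
    rw [h, norm_zero] at hyn
    exact zero_ne_one hyn
  set g := ∏ i, (x - algebraMap F L (c i)) ^ (b i) with hg
  have hgn : ‖g‖ = 1 := by
    rw [hg, norm_prod]
    refine Finset.prod_eq_one fun i _ => ?_
    rw [norm_pow, hxc1, one_pow]
  have hg0 : g ≠ 0 := by
    intro h
    rw [h, norm_zero] at hgn
    exact zero_ne_one hgn
  have hPg : algebraMap M L P * g = (w / y) ^ ℓ := by
    rw [div_pow, ← hx, hxP]
    field_simp
  -- the Teichmueller representative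
  obtain ⟨τ, f, hf, hτ, hxτ⟩ := exists_teichmueller hres x hx1
  let M' : IntermediateField M L := M⟮τ⟯
  have hfin1 : FiniteDimensional M M' := inferInstance
  have hfin2 : FiniteDimensional M' L := inferInstance
  set n' := finrank M' L with hn'
  have hnn : finrank M M' * n' = finrank M L := Module.finrank_mul_finrank M M' L
  have hnpos : 0 < finrank M L := Module.finrank_pos
  -- norm of an element of `M'`
  have hnormM' : ∀ z : M', Algebra.norm M (algebraMap M' L z) = (Algebra.norm M z) ^ n' := by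
    intro z
    rw [← Algebra.norm_norm (S := M'), Algebra.norm_algebraMap, map_pow]
  have hnormg : ‖algebraMap M' L (Algebra.norm M' g)‖ = 1 := by
    have h1 := norm_algebraNorm (M := M) (algebraMap M' L (Algebra.norm M' g))
    rw [hnormM', Algebra.norm_norm, norm_pow, norm_algebraNorm, hgn, one_pow, one_pow] at h1
    exact (pow_eq_one_iff_of_nonneg (norm_nonneg _) hnpos.ne').1 h1.symm
  have hdvd : ℓ ∣ n' := by
    set h := Algebra.norm M' (w / y) with hh
    have h1 : h ^ ℓ = (algebraMap M M' P) ^ n' * Algebra.norm M' g := by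
      rw [hh, ← map_pow, ← hPg, map_mul, IsScalarTower.algebraMap_apply M M' L,
        Algebra.norm_algebraMap]
    have h2 : ‖algebraMap M' L h‖ ^ ℓ = ‖P‖ ^ n' := by
      rw [← norm_pow, ← map_pow, h1, map_mul, map_pow, norm_mul, hnormg, mul_one, norm_pow,
        ← IsScalarTower.algebraMap_apply, norm_algebraMap']
    have h0 : algebraMap M' L h ≠ 0 := by
      intro h3
      rw [h3, norm_zero, zero_pow hℓ.ne_zero] at h2
      exact (pow_pos hPpos n').ne h2
    obtain ⟨y0, hy0⟩ := exists_norm_eq_of_mem_adjoin hres hf hτ (algebraMap M' L h) h.2 h0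
    have h3 : ‖y0 ^ ℓ‖ = ‖P ^ n'‖ := by rw [norm_pow, norm_pow, ← hy0, h2]
    have h4 : v (y0 ^ ℓ) = v (P ^ n') := le_antisymm ((hv _ _).1 h3.le) ((hv _ _).1 h3.ge)
    have h5 := congrArg WithZero.log h4
    rw [map_pow, map_pow, WithZero.log_pow, WithZero.log_pow, nsmul_eq_mul, nsmul_eq_mul] at h5
    have h6 : (ℓ : ℤ) ∣ (n' : ℤ) * WithZero.log (v P) := ⟨_, h5.symm⟩
    exact Int.natCast_dvd_natCast.1
      (((Nat.prime_iff_prime_int.1 hℓ).dvd_or_dvd h6).resolve_right hP)
  obtain ⟨n'', hn''⟩ := hdvd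
  refine ⟨fun i => ?_, ?_⟩
  · have hτc : ‖τ - algebraMap F L (c i)‖ = 1 := by
      have h1 : τ - algebraMap F L (c i) = (x - algebraMap F L (c i)) + (τ - x) := by ring
      rw [h1, IsUltrametricDist.norm_add_eq_max_of_norm_ne_norm]
      · rw [hxc1, max_eq_left]
        rw [norm_sub_rev]
        exact hxτ.le
      · rw [hxc1, norm_sub_rev]
        exact hxτ.ne'
    have hτc0 : τ - algebraMap F L (c i) ≠ 0 := by
      intro h
      rw [h, norm_zero] at hτc
      exact zero_ne_one hτc
    obtain ⟨z, hz, -⟩ := exists_pow_eq_of_principal p hℓp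
      (y := (x - algebraMap F L (c i)) / (τ - algebraMap F L (c i))) (by
        have h1 : (x - algebraMap F L (c i)) / (τ - algebraMap F L (c i)) - 1 =
            (x - τ) / (τ - algebraMap F L (c i)) := by
          rw [div_sub_one hτc0]
          congr 1
          ring
        rw [h1, norm_div, hτc, div_one]
        exact hxτ)
    let t : M' := ⟨τ, IntermediateField.mem_adjoin_simple_self M τ⟩ -
      algebraMap M M' (algebraMap F M (c i))
    have ht : algebraMap M' L t = τ - algebraMap F L (c i) := by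
      simp only [t, map_sub]
      rw [← IsScalarTower.algebraMap_apply M M' L, ← IsScalarTower.algebraMap_apply F M L]
      rfl
    refine ⟨(Algebra.norm M t) ^ n'' * Algebra.norm M z, ?_⟩
    have h2 : x - algebraMap F L (c i) = algebraMap M' L t * z ^ ℓ := by
      rw [ht, hz, mul_div_cancel₀ _ hτc0]
    rw [h2, map_mul, hnormM', map_pow, hn'']
    ring
  · refine ⟨P ^ (finrank M M' * n'') * Algebra.norm M y, ?_⟩
    rw [hxP, map_mul, map_pow, Algebra.norm_algebraMap, ← hnn, hn'']
    ring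

omit [IsScalarTower F M L] in
/-- points with large first coordinate -/
theorem norm_eq_of_large (p : ℕ) [Fact p.Prime] [CharP F p]
    (v : Valuation M (WithZero (Multiplicative ℤ))) (hv : ∀ x y : M, ‖x‖ ≤ ‖y‖ ↔ v x ≤ v y)
    {ℓ : ℕ} (hℓ : ℓ.Prime) (hℓp : ℓ.Coprime p) {ζ : M} (hζ : IsPrimitiveRoot ζ ℓ)
    {m : ℕ} (c : Fin m → F) (b : Fin m → ℕ) (hB : ℓ ∣ ∑ i, b i) (P : M)
    (hP0 : P ≠ 0) (hP : ¬ (ℓ : ℤ) ∣ WithZero.log (v P)) (x w : L)
    (hx : (x + algebraMap M L P) * ∏ i, (x - algebraMap F L (c i)) ^ (b i) = w ^ ℓ)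
    (hx1 : 1 < ‖x‖) :
    ∃ r : ℕ, (∀ i, ∃ z : M, Algebra.norm M (x - algebraMap F L (c i)) = (-P) ^ r * z ^ ℓ) ∧
      ∃ z : M, Algebra.norm M (x + algebraMap M L P) = z ^ ℓ := by
  classical
  have hcompl : CompleteSpace L := FiniteDimensional.complete M L
  have hcharL : CharP L p := charP_of_injective_algebraMap (algebraMap F L).injective p
  have hcharM : CharP M p := charP_of_injective_algebraMap (algebraMap F M).injective p
  have hxpos : 0 < ‖x‖ := lt_trans one_pos hx1
  have hx0 : x ≠ 0 := norm_pos_iff.1 hxpos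
  have key : ∀ i, ∃ z : L, z ^ ℓ = (x - algebraMap F L (c i)) / x ∧ ‖z - 1‖ < 1 := by
    intro i
    refine exists_pow_eq_of_principal p hℓp ?_
    have h1 : (x - algebraMap F L (c i)) / x - 1 = -(algebraMap F L (c i)) / x := by
      rw [div_sub_one hx0]
      congr 1
      ring
    rw [h1, norm_div, norm_neg, div_lt_one hxpos]
    exact lt_of_le_of_lt (norm_algebraMap_finite_le _) hx1
  choose z hz hz1 using key
  have hz0 : ∀ i, z i ≠ 0 := by
    intro i h
    have h1 := norm_eq_one_of_sub norm_one (hz1 i)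
    rw [h, norm_zero] at h1
    exact zero_ne_one h1
  have hxc : ∀ i, x - algebraMap F L (c i) = x * z i ^ ℓ := by
    intro i
    rw [hz i, mul_div_cancel₀ _ hx0]
  obtain ⟨B', hB'⟩ := hB
  set Y := x ^ B' * ∏ i, z i ^ (b i) with hY
  have hY0 : Y ≠ 0 :=
    mul_ne_zero (pow_ne_zero _ hx0) (Finset.prod_ne_zero_iff.2 fun i _ => pow_ne_zero _ (hz0 i))
  have hprod : ∏ i, (x - algebraMap F L (c i)) ^ (b i) = Y ^ ℓ := by
    rw [hY, mul_pow, ← pow_mul, mul_comm B' ℓ, ← hB', ← Finset.prod_pow_eq_pow_sum,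
      ← Finset.prod_pow, ← Finset.prod_mul_distrib]
    refine Finset.prod_congr rfl fun i _ => ?_
    rw [hxc i]
    ring
  set s := w / Y with hs
  have hsP : x + algebraMap M L P = s ^ ℓ := by
    rw [hs, div_pow, ← hx, hprod, mul_div_cancel_right₀ _ (pow_ne_zero _ hY0)]
  have hxs : x = s ^ ℓ - algebraMap M L P := by rw [← hsP]; ring
  -- the algebraic closure with its spectral norm
  let : NontriviallyNormedField (AlgebraicClosure M) :=
    spectralNorm.nontriviallyNormedField M (AlgebraicClosure M)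
  let : NormedAlgebra M (AlgebraicClosure M) :=
    spectralNorm.normedAlgebra M (AlgebraicClosure M)
  have : IsUltrametricDist (AlgebraicClosure M) :=
    IsUltrametricDist.isUltrametricDist_of_isNonarchimedean_norm
      (isNonarchimedean_spectralNorm (K := M) (L := AlgebraicClosure M))
  obtain ⟨ϖ, hϖ⟩ := IsAlgClosed.exists_pow_nat_eq (algebraMap M (AlgebraicClosure M) P) hℓ.pos
  have hN : Algebra.norm M (s ^ ℓ - algebraMap M L P) ≠ 0 := by
    rw [← hxs]
    exact Algebra.norm_ne_zero_iff.2 hx0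
  obtain ⟨r, t, -, ht⟩ := norm_pow_sub_eq (E := AlgebraicClosure M) p hℓ hℓp v hv hζ P hP0 hP ϖ
    hϖ s hN
  rw [← hxs] at ht
  refine ⟨r, fun i => ⟨t * Algebra.norm M (z i), ?_⟩, Algebra.norm M s, ?_⟩
  · rw [hxc i, map_mul, map_pow, ht]
    ring
  · rw [hsP, map_pow]

end infty

section final

variable {F : Type*} [Field F] [Finite F]
  {M : Type u} [NontriviallyNormedField M] [IsUltrametricDist M] [CompleteSpace M] [Algebra F M]

omit [Finite F] in
@[simp] theorem branch_zero {M : Type*} [Field M] [Algebra F M] {m : ℕ} (c : Fin m → F) (P : M) :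
    branch c P 0 = -P := rfl

omit [Finite F] in
@[simp] theorem branch_succ {M : Type*} [Field M] [Algebra F M] {m : ℕ} (c : Fin m → F) (P : M)
    (i : Fin m) : branch c P i.succ = algebraMap F M (c i) := rfl

@[simp] theorem expo_zero {m : ℕ} (b : Fin m → ℕ) : expo b 0 = 1 := rfl

@[simp] theorem expo_succ {m : ℕ} (b : Fin m → ℕ) (i : Fin m) : expo b i.succ = b i := rfl

omit [IsUltrametricDist M] [CompleteSpace M] in
theorem branch_injective {m : ℕ} {c : Fin m → F} (hc : Function.Injective c) {P : M}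
    (hP : 1 < ‖P‖) : Function.Injective (branch c P) := by
  have h0 : ∀ i, -P ≠ algebraMap F M (c i) := by
    intro i h
    have h1 := norm_algebraMap_finite_le (M := M) (c i)
    rw [← h, norm_neg] at h1
    exact absurd hP (not_lt.2 h1)
  intro i j
  refine Fin.cases ?_ (fun i => ?_) i
  · refine Fin.cases (fun _ => rfl) (fun j h => ?_) j
    exact absurd h (h0 j)
  · refine Fin.cases (fun h => ?_) (fun j h => ?_) j
    · exact absurd h.symm (h0 i)
    · exact congrArg Fin.succ (hc ((algebraMap F M).injective h))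

/-- At infinity the local image is generated by the torsion. -/
theorem localImage_le_torsionGroup (p : ℕ) [Fact p.Prime] [CharP F p]
    (hres : ∀ y : M, ‖y‖ ≤ 1 → ∃ α : F, ‖y - algebraMap F M α‖ < 1)
    (v : Valuation M (WithZero (Multiplicative ℤ))) (hv : ∀ x y : M, ‖x‖ ≤ ‖y‖ ↔ v x ≤ v y)
    {ℓ : ℕ} (hℓ : ℓ.Prime) (hℓp : ℓ.Coprime p) {ζ : M} (hζ : IsPrimitiveRoot ζ ℓ)
    {m : ℕ} {c : Fin m → F} (hc : Function.Injective c) {b : Fin m → ℕ}
    (hb : ∀ i, Nat.Coprime (b i) ℓ) (hB : ℓ ∣ ∑ i, b i) {P : M}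
    (hP1 : 1 < ‖P‖) (hP : ¬ (ℓ : ℤ) ∣ WithZero.log (v P)) :
    localImage ℓ (branch c P) (expo b) M ≤ torsionGroup ℓ (branch c P) (expo b) := by
  classical
  have ha := branch_injective hc hP1
  have hP0 : P ≠ 0 := by
    intro h
    rw [h, norm_zero] at hP1
    exact absurd hP1 (by norm_num)
  have hPpos : 0 < ‖P‖ := norm_pos_iff.2 hP0
  have hcharM : CharP M p := charP_of_injective_algebraMap (algebraMap F M).injective p
  refine localImage_le _ _ _ mem_torsionGroup_pow ?_
  intro L _ _ _ x w d hx hd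
  let : NontriviallyNormedField L := spectralNorm.nontriviallyNormedField M L
  let : NormedAlgebra M L := spectralNorm.normedAlgebra M L
  have : IsUltrametricDist L :=
    IsUltrametricDist.isUltrametricDist_of_isNonarchimedean_norm
      (isNonarchimedean_spectralNorm (K := M) (L := L))
  let : Algebra F L := ((algebraMap M L).comp (algebraMap F M)).toAlgebra
  have : IsScalarTower F M L := IsScalarTower.of_algebraMap_eq fun _ => rfl
  have hcompl : CompleteSpace L := FiniteDimensional.complete M L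
  have hcharL : CharP L p := charP_of_injective_algebraMap (algebraMap F L).injective p
  have hx' : (x + algebraMap M L P) * ∏ i, (x - algebraMap F L (c i)) ^ (b i) = w ^ ℓ := by
    rw [← hx, Fin.prod_univ_succ]
    simp only [Algebra.algebraMap_self, RingHom.id_apply, branch_zero, branch_succ, expo_zero,
      expo_succ, map_neg, sub_neg_eq_add, pow_one]
    rfl
  have hd0 : (d 0 : M) = Algebra.norm M (x + algebraMap M L P) := by
    rw [hd 0]
    simp only [Algebra.algebraMap_self, RingHom.id_apply, branch_zero, map_neg, sub_neg_eq_add]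
  have hds : ∀ i : Fin m, (d i.succ : M) = Algebra.norm M (x - algebraMap F L (c i)) := by
    intro i
    rw [hd i.succ]
    rfl
  -- `-P - c i` is `-P` times an `ℓ`-th power
  have key : ∀ i, ∃ y : M, -P - algebraMap F M (c i) = -P * y ^ ℓ ∧ y ≠ 0 := by
    intro i
    obtain ⟨y, hy, hy1⟩ := exists_pow_eq_of_principal p hℓp
      (y := (-P - algebraMap F M (c i)) / (-P)) (by
        have h1 : (-P - algebraMap F M (c i)) / (-P) - 1 = algebraMap F M (c i) / P := by
          field_simp
          ring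
        rw [h1, norm_div, div_lt_one hPpos]
        exact lt_of_le_of_lt (norm_algebraMap_finite_le _) hP1)
    refine ⟨y, ?_, ?_⟩
    · rw [hy, mul_div_cancel₀ _ (neg_ne_zero.2 hP0)]
    · intro h
      have h1 := norm_eq_one_of_sub norm_one hy1
      rw [h, norm_zero] at h1
      exact zero_ne_one h1
  choose y hy hy0 using key
  by_cases hx1 : 1 < ‖x‖
  · obtain ⟨r, hr, z0, hz0⟩ := norm_eq_of_large p v hv hℓ hℓp hζ c b hB P hP0 hP x w hx' hx1
    refine mem_torsionGroup_of hℓ.ne_zero ha 0 r fun i => ?_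
    refine Fin.cases ?_ (fun i => ?_) i
    · obtain ⟨B', hB'⟩ := hB
      have h1 : torsionTuple (branch c P) (expo b) 0 0 =
          (((-P) ^ B' * ∏ i, y i ^ (b i))⁻¹) ^ ℓ := by
        rw [torsionTuple, if_pos rfl, inv_pow]
        congr 1
        have h2 : ∏ k ∈ Finset.univ.erase (0 : Fin (m + 1)),
            (branch c P 0 - branch c P k) ^ (expo b k) =
            ∏ i : Fin m, (-P - algebraMap F M (c i)) ^ (b i) := by
          have h3 := Finset.mul_prod_erase Finset.univ
            (fun k => if k = 0 then (1 : M) else (branch c P 0 - branch c P k) ^ (expo b k))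
            (Finset.mem_univ (0 : Fin (m + 1)))
          rw [if_pos rfl, one_mul, Fin.prod_univ_succ, if_pos rfl, one_mul] at h3
          rw [Finset.prod_congr rfl (fun k hk => if_neg (Finset.ne_of_mem_erase hk))] at h3
          rw [h3]
          refine Finset.prod_congr rfl fun i _ => ?_
          rw [if_neg (Fin.succ_ne_zero i)]
          simp
        rw [h2, mul_pow, ← pow_mul, mul_comm B' ℓ, ← hB', ← Finset.prod_pow_eq_pow_sum,
          ← Finset.prod_pow, ← Finset.prod_mul_distrib]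
        refine Finset.prod_congr rfl fun i _ => ?_
        rw [hy i]
        ring
      have h4 : ((-P) ^ B' * ∏ i, y i ^ (b i)) ≠ 0 :=
        mul_ne_zero (pow_ne_zero _ (neg_ne_zero.2 hP0))
          (Finset.prod_ne_zero_iff.2 fun i _ => pow_ne_zero _ (hy0 i))
      refine ⟨((-P) ^ B' * ∏ i, y i ^ (b i)) ^ r * z0, ?_⟩
      have h5 : ∀ A : M, A ≠ 0 → z0 ^ ℓ = ((A⁻¹) ^ ℓ) ^ r * (A ^ r * z0) ^ ℓ := by
        intro A hA
        have h6 : ((A⁻¹) ^ ℓ) ^ r * (A ^ r) ^ ℓ = 1 := by
          rw [← pow_mul, ← pow_mul, mul_comm ℓ r, ← mul_pow, inv_mul_cancel₀ hA, one_pow]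
        rw [mul_pow, ← mul_assoc, h6, one_mul]
      rw [hd0, hz0, h1]
      exact h5 _ h4
    · obtain ⟨z, hz⟩ := hr i
      refine ⟨z / y i ^ r, ?_⟩
      rw [hds, hz, torsionTuple, if_neg (Fin.succ_ne_zero i), branch_zero, branch_succ, expo_zero,
        pow_one, hy i, div_pow]
      have h1 := pow_ne_zero ℓ (pow_ne_zero r (hy0 i))
      rw [mul_pow (-P), ← pow_mul (y i) ℓ r, mul_comm ℓ r, pow_mul (y i) r ℓ, mul_assoc,
        mul_div_cancel₀ _ h1]
  · have hx1' : ‖x‖ ≤ 1 := not_lt.1 hx1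
    by_cases hclose : ∃ j, ‖x - algebraMap F L (c j)‖ < 1
    · obtain ⟨j, hj⟩ := hclose
      refine mem_torsionGroup_of_close p hℓ.ne_zero hℓp ha j.succ (hb j) x w d hx hd
        fun i hi => ?_
      have h1 : ‖x - algebraMap M L (branch c P j.succ)‖ < 1 := hj
      refine lt_of_lt_of_le h1 ?_
      revert hi
      refine Fin.cases (fun _ => ?_) (fun i hi => ?_) i
      · rw [branch_succ, branch_zero, sub_neg_eq_add,
          IsUltrametricDist.norm_add_eq_max_of_norm_ne_norm]
        · exact le_max_of_le_right hP1.le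
        · exact ((norm_algebraMap_finite_le _).trans_lt hP1).ne
      · rw [branch_succ, branch_succ, ← map_sub]
        refine (norm_algebraMap_finite (sub_ne_zero.2 fun h => hi ?_)).ge
        exact congrArg Fin.succ (hc h).symm
    · push Not at hclose
      obtain ⟨h1, z0, hz0⟩ := norm_eq_pow_of_unit p hres v hv hℓ hℓp c b P hP1 hP x w hx' hx1'
        hclose
      refine mem_torsionGroup_of hℓ.ne_zero ha 0 0 fun i => ?_
      refine Fin.cases ?_ (fun i => ?_) i
      · exact ⟨z0, by rw [pow_zero, one_mul, hd0, hz0]⟩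
      · obtain ⟨z, hz⟩ := h1 i
        exact ⟨z, by rw [pow_zero, one_mul, hds, hz]⟩

end final

end MP72e2e6
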