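import Pool.Agent.Lib.MP_72e2e6_nt.Tors

/-!
# MP_72e2e6_nt: the Selmer group equals the torsion group
-/

namespace MP72e2e6

open Polynomial IsDedekindDomain WithZero

section

variable {F : Type*} [Field F]

open Classical in
/-- a global criterion for `ℓ`-th powers -/
theorem exists_eq_pow [Finite F] {ℓ : ℕ} (hℓ : ℓ.Prime) {Q : F[X]} (hQ : Irreducible Q)
    (hdeg : ¬ ℓ ∣ Q.natDegree) (x : RatFunc F) (hx : x ≠ 0)
    (h : ∀ v : HeightOneSpectrum F[X], Q ∉ v.asIdeal →
      (ℓ : ℤ) ∣ WithZero.log (v.valuation (RatFunc F) x))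
    (hinf : ∃ z : RatFunc.CompletionAtInfty F, algebraMap (RatFunc F) _ x = z ^ ℓ) :
    ∃ y : RatFunc F, x = y ^ ℓ := by
  obtain ⟨z, hz⟩ := hinf
  obtain ⟨ε, k, y, hε, hy, heq⟩ := exists_ratFunc_eq hℓ.pos hQ x hx h
  have hinj : Function.Injective (algebraMap F[X] (RatFunc F)) :=
    RatFunc.algebraMap_injective F
  have hpoly : C ε * Q ^ k ≠ 0 := mul_ne_zero (C_ne_zero.2 hε) (pow_ne_zero _ hQ.ne_zero)
  have hpoly' : algebraMap F[X] (RatFunc F) (C ε * Q ^ k) ≠ 0 := by
    rw [Ne, map_eq_zero_iff _ hinj]
    exact hpoly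
  -- `ℓ` divides `k`
  have hlog : (ℓ : ℤ) ∣ (k : ℤ) * Q.natDegree := by
    have h1 : RatFunc.inftyValuation F x = Valued.v z ^ ℓ := by
      rw [← valued_algebraMap_inf, hz, map_pow]
    have h2 : RatFunc.inftyValuation F (algebraMap F[X] (RatFunc F) (C ε * Q ^ k)) =
        WithZero.exp ((C ε * Q ^ k).natDegree : ℤ) := RatFunc.inftyValuation.polynomial F hpoly
    have h3 : (C ε * Q ^ k).natDegree = k * Q.natDegree := by
      rw [Polynomial.natDegree_C_mul hε, Polynomial.natDegree_pow]
    rw [heq, map_mul, map_pow, h2, h3] at h1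
    have h4 := congrArg WithZero.log h1
    rw [WithZero.log_mul WithZero.exp_ne_zero
      (pow_ne_zero _ ((Valuation.ne_zero_iff _).2 hy)), WithZero.log_exp, WithZero.log_pow,
      WithZero.log_pow, nsmul_eq_mul, nsmul_eq_mul] at h4
    refine ⟨WithZero.log (Valued.v z) - WithZero.log (RatFunc.inftyValuation F y), ?_⟩
    push_cast at h4
    linear_combination h4
  have hk : ℓ ∣ k := by
    have h1 : (ℓ : ℤ) ∣ (k : ℤ) := by
      refine ((Nat.prime_iff_prime_int.1 hℓ).dvd_or_dvd hlog).resolve_right ?_
      rw [Int.natCast_dvd_natCast]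
      exact hdeg
    exact Int.natCast_dvd_natCast.1 h1
  obtain ⟨k', rfl⟩ := hk
  have hinj2 : Function.Injective (algebraMap (RatFunc F) (RatFunc.CompletionAtInfty F)) :=
    (algebraMap (RatFunc F) (RatFunc.CompletionAtInfty F)).injective
  -- `ε` is an `ℓ`-th power
  set s : RatFunc F := algebraMap F[X] (RatFunc F) Q ^ k' * y with hs
  have hs0 : s ≠ 0 := by
    refine mul_ne_zero (pow_ne_zero _ ?_) hy
    rw [Ne, map_eq_zero_iff _ hinj]
    exact hQ.ne_zero
  have hxs : x = RatFunc.C ε * s ^ ℓ := by
    rw [heq, hs, map_mul, map_pow, RatFunc.algebraMap_C]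
    ring
  set z' := z / algebraMap (RatFunc F) (RatFunc.CompletionAtInfty F) s with hz'
  have hs0' : algebraMap (RatFunc F) (RatFunc.CompletionAtInfty F) s ≠ 0 := by
    rw [Ne, map_eq_zero_iff _ hinj2]
    exact hs0
  have hεz : algebraMap (RatFunc F) (RatFunc.CompletionAtInfty F) (RatFunc.C ε) = z' ^ ℓ := by
    rw [hz', div_pow, ← hz, hxs, map_mul, map_pow, mul_div_cancel_right₀ _ (pow_ne_zero _ hs0')]
  have hvz : Valued.v z' = 1 := by
    have h1 : Valued.v z' ^ ℓ = 1 := by
      rw [← map_pow, ← hεz, valued_algebraMap_inf, RatFunc.inftyValuation.C F hε]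
    have h2 : Valued.v z' ≠ 0 := by
      intro h0
      rw [h0, zero_pow hℓ.ne_zero] at h1
      exact zero_ne_one h1
    have h3 := congrArg WithZero.log h1
    rw [WithZero.log_pow, WithZero.log_one, nsmul_eq_mul, mul_eq_zero] at h3
    have h4 : WithZero.log (Valued.v z') = 0 :=
      h3.resolve_left (by exact_mod_cast hℓ.ne_zero)
    rw [← WithZero.exp_log h2, h4, WithZero.exp_zero]
  obtain ⟨α, hα⟩ := exists_const_near' z' hvz.le
  have hpow : ε = α ^ ℓ := by
    by_contra hne
    have h1 : Valued.v (z' ^ ℓ - (algebraMap (RatFunc F) (RatFunc.CompletionAtInfty F)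
        (RatFunc.C α)) ^ ℓ) < 1 := by
      rw [(Commute.all _ _).mul_geom_sum₂ ℓ |>.symm, map_mul]
      refine mul_lt_one_of_lt_of_le hα ?_
      refine Valuation.map_sum_le _ fun i _ => ?_
      rw [map_mul, map_pow, map_pow, hvz, one_pow, one_mul]
      refine pow_le_one₀ zero_le ?_
      rw [valued_algebraMap_inf]
      by_cases h0 : α = 0
      · rw [h0, map_zero, map_zero]
        exact zero_le_one
      · rw [RatFunc.inftyValuation.C F h0]
    rw [← hεz, ← map_pow, ← map_pow, ← map_sub, ← map_sub, valued_algebraMap_inf,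
      RatFunc.inftyValuation.C F (sub_ne_zero.2 hne)] at h1
    exact lt_irrefl _ h1
  refine ⟨RatFunc.C α * s, ?_⟩
  rw [hxs, hpow, map_pow, ← mul_pow]

variable [Finite F] {ℓ m : ℕ} {c : Fin m → F} {b : Fin m → ℕ} {P : F[X]}

omit [Finite F] in
theorem branch_injective' (hc : Function.Injective c) (hP : 0 < P.natDegree) :
    Function.Injective (branch c (algebraMap F[X] (RatFunc F) P)) := by
  have h0 : ∀ i, -algebraMap F[X] (RatFunc F) P ≠ algebraMap F (RatFunc F) (c i) := by
    intro i h
    rw [RatFunc.algebraMap_eq_C, ← RatFunc.algebraMap_C, ← map_neg] at h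
    have h1 := RatFunc.algebraMap_injective F h
    have h2 := congrArg Polynomial.natDegree h1
    rw [Polynomial.natDegree_neg, Polynomial.natDegree_C] at h2
    omega
  intro i j
  refine Fin.cases ?_ (fun i => ?_) i
  · refine Fin.cases (fun _ => rfl) (fun j h => ?_) j
    exact absurd h (h0 j)
  · refine Fin.cases (fun h => ?_) (fun j h => ?_) j
    · exact absurd h.symm (h0 i)
    · exact congrArg Fin.succ (hc ((algebraMap F (RatFunc F)).injective h))

omit [Finite F] in
theorem valuation_branch_le (v : HeightOneSpectrum F[X]) (k : Fin (m + 1)) :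
    v.valuation (RatFunc F) (branch c (algebraMap F[X] (RatFunc F) P) k) ≤ 1 := by
  refine Fin.cases ?_ (fun k => ?_) k
  · rw [branch_zero, Valuation.map_neg]
    exact v.valuation_le_one P
  · rw [branch_succ, RatFunc.algebraMap_eq_C, ← RatFunc.algebraMap_C]
    exact v.valuation_le_one _

omit [Finite F] in
theorem valuation_branch_sub (hc : Function.Injective c) (v : HeightOneSpectrum F[X]) (i : Fin m)
    (hv : P + C (c i) ∉ v.asIdeal) (k : Fin (m + 1)) (hk : k ≠ i.succ) :
    v.valuation (RatFunc F) (branch c (algebraMap F[X] (RatFunc F) P) i.succ -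
      branch c (algebraMap F[X] (RatFunc F) P) k) = 1 := by
  revert hk
  refine Fin.cases (fun _ => ?_) (fun k hk => ?_) k
  · have h1 : branch c (algebraMap F[X] (RatFunc F) P) i.succ -
        branch c (algebraMap F[X] (RatFunc F) P) 0 =
        algebraMap F[X] (RatFunc F) (P + C (c i)) := by
      rw [branch_succ, branch_zero, RatFunc.algebraMap_eq_C, map_add, RatFunc.algebraMap_C]
      ring
    rw [h1, HeightOneSpectrum.valuation_eq_one_iff_notMem]
    exact hv
  · have h1 : branch c (algebraMap F[X] (RatFunc F) P) i.succ -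
        branch c (algebraMap F[X] (RatFunc F) P) k.succ =
        algebraMap F[X] (RatFunc F) (C (c i - c k)) := by
      rw [branch_succ, branch_succ, RatFunc.algebraMap_eq_C, RatFunc.algebraMap_C, map_sub]
    have h2 : c i - c k ≠ 0 := sub_ne_zero.2 fun h => hk (congrArg Fin.succ (hc h).symm)
    rw [h1, HeightOneSpectrum.valuation_eq_one_iff_notMem]
    intro h3
    exact v.isPrime.ne_top (Ideal.eq_top_of_isUnit_mem _ h3
      (Polynomial.isUnit_C.2 (isUnit_iff_ne_zero.2 h2)))

open Classical in
/-- the Selmer group is the torsion group -/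
theorem selmerGroup_eq (hℓ : ℓ.Prime) (hℓF : ℓ ∣ Nat.card F - 1) (hc : Function.Injective c)
    (hb : ∀ i, ¬ ℓ ∣ b i) (hB : ℓ ∣ ∑ i, b i) (hP : ¬ ℓ ∣ P.natDegree)
    (hirr : ∀ i, Irreducible (P + C (c i))) :
    selmerGroup F ℓ (branch c (algebraMap F[X] (RatFunc F) P)) (expo b) =
      torsionGroup ℓ (branch c (algebraMap F[X] (RatFunc F) P)) (expo b) := by
  have hPpos : 0 < P.natDegree := Nat.pos_of_ne_zero fun h => hP (h ▸ dvd_zero ℓ)
  have hP0 : P ≠ 0 := by
    rintro rfl
    simp at hPpos
  have ha := branch_injective' (P := P) hc hPpos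
  have hb' : ∀ i, Nat.Coprime (b i) ℓ := fun i =>
    ((Nat.Prime.coprime_iff_not_dvd hℓ).2 (hb i)).symm
  have hβ : ∀ i, Nat.Coprime (expo b i) ℓ := by
    refine Fin.cases ?_ (fun i => ?_)
    · exact Nat.coprime_one_left ℓ
    · exact hb' i
  have hβsum : Nat.Coprime (∑ i, expo b i) ℓ := by
    rw [Fin.sum_univ_succ, expo_zero]
    simp only [expo_succ]
    obtain ⟨q, hq⟩ := hB
    rw [hq]
    simp
  set a := branch c (algebraMap F[X] (RatFunc F) P) with hadef
  refine le_antisymm ?_ ?_
  · intro d hd
    obtain ⟨hdfin, hdinf⟩ := Subgroup.mem_inf.1 hd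
    have hdfin' : ∀ v : HeightOneSpectrum F[X],
        baseChange (v.adicCompletion (RatFunc F)) d ∈
          localImage ℓ a (expo b) (v.adicCompletion (RatFunc F)) := by
      intro v
      exact (Subgroup.mem_iInf.1 hdfin) v
    have hdinf' : baseChange (RatFunc.CompletionAtInfty F) d ∈
        localImage ℓ a (expo b) (RatFunc.CompletionAtInfty F) := hdinf
    -- the torsion at infinity
    let : Algebra F (RatFunc.CompletionAtInfty F) :=
      ((algebraMap (RatFunc F) (RatFunc.CompletionAtInfty F)).comp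
        (algebraMap F (RatFunc F))).toAlgebra
    have := completeSpace_inf (F := F)
    set P' := algebraMap (RatFunc F) (RatFunc.CompletionAtInfty F)
      (algebraMap F[X] (RatFunc F) P) with hP'
    have hbr : branch c P' = fun i => algebraMap (RatFunc F) (RatFunc.CompletionAtInfty F)
        (a i) := by
      funext i
      refine Fin.cases ?_ (fun i => ?_) i
      · rw [hadef, branch_zero, branch_zero, map_neg]
      · rw [hadef, branch_succ, branch_succ]
        rfl
    have hvP : Valued.v P' = WithZero.exp (P.natDegree : ℤ) := by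
      rw [hP', valued_algebraMap_inf]
      exact RatFunc.inftyValuation.polynomial F hP0
    have hloc : localImage ℓ (branch c P') (expo b) (RatFunc.CompletionAtInfty F) ≤
        torsionGroup ℓ (branch c P') (expo b) := by
      refine localImage_le_torsionGroup' nontriv_inf (fun y hy => ?_) hℓ hℓF hc hb' hB ?_ ?_
      · obtain ⟨α, hα⟩ := exists_const_near' y hy
        exact ⟨α, hα⟩
      · rw [hvP, ← WithZero.exp_zero, WithZero.exp_lt_exp]
        exact_mod_cast hPpos
      · rw [hvP, WithZero.log_exp, Int.natCast_dvd_natCast]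
        exact hP
    have hmem : baseChange (RatFunc.CompletionAtInfty F) d ∈
        torsionGroup ℓ (fun i => algebraMap (RatFunc F) (RatFunc.CompletionAtInfty F) (a i))
          (expo b) := by
      rw [← hbr]
      refine hloc ?_
      have h1 : localImage ℓ (branch c P') (expo b) (RatFunc.CompletionAtInfty F) =
          localImage ℓ a (expo b) (RatFunc.CompletionAtInfty F) := by
        rw [hbr]
        rfl
      rw [h1]
      exact hdinf'
    obtain ⟨t, ht, z, hz⟩ := exists_of_mem_torsionGroup ha _ hmem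
    -- the quotient is a tuple of `ℓ`-th powers
    have hDinf : ∀ i, algebraMap (RatFunc F) (RatFunc.CompletionAtInfty F)
        ((d i : RatFunc F) / (t i : RatFunc F)) = (z i : RatFunc.CompletionAtInfty F) ^ ℓ := by
      intro i
      have h1 : algebraMap (RatFunc F) (RatFunc.CompletionAtInfty F) (d i : RatFunc F) =
          algebraMap (RatFunc F) (RatFunc.CompletionAtInfty F) (t i : RatFunc F) *
            (z i : RatFunc.CompletionAtInfty F) ^ ℓ := by
        have h2 := congrArg (fun x : Fin (m + 1) → (RatFunc.CompletionAtInfty F)ˣ =>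
          ((x i : (RatFunc.CompletionAtInfty F)ˣ) : RatFunc.CompletionAtInfty F)) hz
        exact h2
      have h3 : algebraMap (RatFunc F) (RatFunc.CompletionAtInfty F) (t i : RatFunc F) ≠ 0 := by
        rw [Ne, map_eq_zero]
        exact (t i).ne_zero
      rw [map_div₀, h1, mul_div_cancel_left₀ _ h3]
    have hsucc : ∀ i : Fin m, ∃ y : RatFunc F,
        (d i.succ : RatFunc F) / (t i.succ : RatFunc F) = y ^ ℓ := by
      intro i
      have hdegi : (P + C (c i)).natDegree = P.natDegree := by
        rw [Polynomial.natDegree_add_C]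
      refine exists_eq_pow hℓ (hirr i) (by rw [hdegi]; exact hP) _
        (div_ne_zero (d _).ne_zero (t _).ne_zero) (fun v hv => ?_) ⟨_, hDinf _⟩
      rw [map_div₀, WithZero.log_div ((Valuation.ne_zero_iff _).2 (d _).ne_zero)
        ((Valuation.ne_zero_iff _).2 (t _).ne_zero)]
      refine dvd_sub ?_ ?_
      · have h1 := log_dvd_of_mem_localImage (M := v.adicCompletion (RatFunc F))
          (nontriv_fin v) hℓ.ne_zero
          (a := fun k => algebraMap (RatFunc F) (v.adicCompletion (RatFunc F)) (a k))
          (b := expo b) hβsum (fun k => ?_) i.succ (hβ _) (fun k hk => ?_) (hdfin' v)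
        · have h2 : ((baseChange (v.adicCompletion (RatFunc F)) d i.succ :
              (v.adicCompletion (RatFunc F))ˣ) : v.adicCompletion (RatFunc F)) =
              algebraMap (RatFunc F) (v.adicCompletion (RatFunc F)) (d i.succ : RatFunc F) := rfl
          rw [h2, valued_algebraMap_fin] at h1
          exact h1
        · rw [valued_algebraMap_fin]
          exact valuation_branch_le v k
        · rw [← map_sub, valued_algebraMap_fin]
          exact valuation_branch_sub hc v i hv k hk
      · exact log_dvd_of_mem_torsionGroup (v.valuation (RatFunc F))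
          (fun k hk => valuation_branch_sub hc v i hv k hk) ht
    have hzero : ∃ y : RatFunc F, (d 0 : RatFunc F) / (t 0 : RatFunc F) = y ^ ℓ := by
      -- the product relation
      obtain ⟨w, hw⟩ := exists_prod_eq_pow_torsion ha ht
      have hd' : ∃ y : RatFunc F, ∏ i, (d i : RatFunc F) ^ (expo b i) = y ^ ℓ := by
        refine exists_eq_pow hℓ Polynomial.irreducible_X
          (by rw [Polynomial.natDegree_X]; exact fun h => hℓ.one_lt.ne' (Nat.dvd_one.1 h)) _
          (Finset.prod_ne_zero_iff.2 fun i _ => pow_ne_zero _ (d i).ne_zero) (fun v _ => ?_) ?_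
        · obtain ⟨y, hy⟩ := exists_prod_eq_pow (hdfin' v)
          have h1 : algebraMap (RatFunc F) (v.adicCompletion (RatFunc F))
              (∏ i, (d i : RatFunc F) ^ (expo b i)) = y ^ ℓ := by
            rw [← hy, map_prod]
            refine Finset.prod_congr rfl fun i _ => ?_
            rw [map_pow]
            rfl
          rw [← valued_algebraMap_fin, h1, map_pow, WithZero.log_pow, nsmul_eq_mul]
          exact dvd_mul_right _ _
        · obtain ⟨y, hy⟩ := exists_prod_eq_pow hdinf'
          refine ⟨y, ?_⟩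
          rw [← hy, map_prod]
          refine Finset.prod_congr rfl fun i _ => ?_
          rw [map_pow]
          rfl
      obtain ⟨y, hy⟩ := hd'
      choose s hs using hsucc
      rw [Fin.prod_univ_succ, expo_zero, pow_one] at hy hw
      refine ⟨y / w * (∏ i : Fin m, s i ^ (b i))⁻¹, ?_⟩
      have h1 : (∏ i : Fin m, s i ^ (b i)) ^ ℓ =
          (∏ i : Fin m, (d i.succ : RatFunc F) ^ (expo b i.succ)) /
            (∏ i : Fin m, (t i.succ : RatFunc F) ^ (expo b i.succ)) := by
        rw [← Finset.prod_pow, ← Finset.prod_div_distrib]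
        refine Finset.prod_congr rfl fun i _ => ?_
        rw [expo_succ, ← div_pow, hs i]
        ring
      have h2 : (∏ i : Fin m, (d i.succ : RatFunc F) ^ (expo b i.succ)) ≠ 0 :=
        Finset.prod_ne_zero_iff.2 fun i _ => pow_ne_zero _ (d _).ne_zero
      have h3 : (∏ i : Fin m, (t i.succ : RatFunc F) ^ (expo b i.succ)) ≠ 0 :=
        Finset.prod_ne_zero_iff.2 fun i _ => pow_ne_zero _ (t _).ne_zero
      have h4 : (t 0 : RatFunc F) ≠ 0 := (t 0).ne_zero
      rw [mul_pow, div_pow, inv_pow, h1, ← hy, ← hw]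
      field_simp
    have hall : ∀ i, ∃ y : RatFunc F, (d i : RatFunc F) / (t i : RatFunc F) = y ^ ℓ :=
      fun i => Fin.cases hzero hsucc i
    choose y hy using hall
    have hy0 : ∀ i, y i ≠ 0 := by
      intro i h
      have h1 : (d i : RatFunc F) / (t i : RatFunc F) ≠ 0 :=
        div_ne_zero (d i).ne_zero (t i).ne_zero
      rw [hy i, h, zero_pow hℓ.ne_zero] at h1
      exact h1 rfl
    have hfin : d = t * (fun i => Units.mk0 (y i) (hy0 i)) ^ ℓ := by
      ext i
      rw [Pi.mul_apply, Pi.pow_apply, Units.val_mul, Units.val_pow_eq_pow_val, Units.val_mk0,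
        ← hy i, mul_div_cancel₀ _ (t i).ne_zero]
    rw [hfin]
    exact Subgroup.mul_mem _ ht (mem_torsionGroup_pow _)
  · intro t ht
    refine Subgroup.mem_inf.2 ⟨Subgroup.mem_iInf.2 fun v => ?_, ?_⟩
    · exact baseChange_mem_localImage hℓ ha hβ _ ht
    · exact baseChange_mem_localImage hℓ ha hβ _ ht

end

end MP72e2e6
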