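import Pool.Agent.Lib.MP_72e2e6_nt.TwAsm

/-!
# MP_72e2e6_nt: assembly, the Selmer group for a network of primes
-/

namespace MP72e2e6

open Polynomial IsDedekindDomain

universe u

section basics

variable {F : Type u} [Field F] {m : ℕ}

theorem pts_injective {E : F[X]} (hE : E ≠ 0) {a : Fin m → F[X]} (ha : Function.Injective a) :
    Function.Injective (pts E a) := by
  intro i j h
  have h1 := RatFunc.algebraMap_injective F h
  exact ha (mul_left_cancel₀ hE h1)

open Classical in
theorem torsionGroup_le_pts {E : F[X]} (hE : E ≠ 0) {a : Fin m → F[X]}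
    (ha : Function.Injective a) :
    torsionGroup 2 (pts E a) (fun _ => 1) ≤
      placesSelmer F[X] (RatFunc.inftyValuation F) 2 (pts E a) (fun _ => 1) := by
  intro t ht
  have hinj := pts_injective hE ha
  have hb : ∀ i : Fin m, Nat.Coprime ((fun _ : Fin m => 1) i) 2 :=
    fun _ => Nat.coprime_one_left 2
  refine Subgroup.mem_inf.2 ⟨?_, Subgroup.mem_inf.2 ⟨Subgroup.mem_iInf.2 fun v => ?_, ?_⟩⟩
  · obtain ⟨z, hz⟩ := exists_prod_eq_pow_torsion hinj ht
    have hz0 : z ≠ 0 := by
      rintro rfl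
      rw [zero_pow two_ne_zero] at hz
      exact Finset.prod_ne_zero_iff.2 (fun i _ => pow_ne_zero _ (t i).ne_zero) hz
    refine ⟨Units.mk0 z hz0, ?_⟩
    ext
    rw [Units.coe_prod, Units.val_pow_eq_pow_val, Units.val_mk0, ← hz]
    exact Finset.prod_congr rfl fun i _ => Units.val_pow_eq_pow_val _ _
  · exact baseChange_mem_localImage Nat.prime_two hinj hb _ ht
  · exact baseChange_mem_localImage Nat.prime_two hinj hb _ ht

theorem Pts.injective {n : ℕ} {a : Fin m → F[X]} (h : Pts m n a) : Function.Injective a := by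
  intro i j hij
  by_contra hne
  have h1 := h.deg i j hne
  rw [hij, sub_self, degree_zero] at h1
  exact absurd h1 (by simp)

variable {ι : Type} [Fintype ι] {pr : ι → F[X]}

theorem tw_ne_zero (hfam : Fam pr) (ρ : ι → ZMod 2) {x₀ : F} (hx : x₀ ≠ 0) : tw pr ρ x₀ ≠ 0 := by
  refine mul_ne_zero (C_ne_zero.2 hx) (Finset.prod_ne_zero_iff.2 fun b _ => ?_)
  exact pow_ne_zero _ (hfam.monic b).ne_zero

theorem natDegree_tw (hfam : Fam pr) (ρ : ι → ZMod 2) {x₀ : F} (hx : x₀ ≠ 0) :
    ((tw pr ρ x₀).natDegree : ZMod 2) = ∑ b, ρ b * ((pr b).natDegree : ZMod 2) := by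
  have h1 : (∏ b, pr b ^ (ρ b).val).Monic := monic_prod_of_monic _ _ fun b _ => (hfam.monic b).pow _
  rw [tw, natDegree_C_mul hx, natDegree_prod_of_monic _ _ fun b _ => (hfam.monic b).pow _,
    Nat.cast_sum]
  refine Finset.sum_congr rfl fun b _ => ?_
  rw [(hfam.monic b).natDegree_pow, Nat.cast_mul, ZMod.natCast_val, ZMod.cast_id]

/-- the symbol of a product -/
theorem sy_tw (hSy : StmtTwSy.{u}) [Finite F] (hF : Odd (Nat.card F)) (hfam : Fam pr)
    (ρ : ι → ZMod 2) {x₀ : F} (hx : x₀ ≠ 0) {P : F[X]} (hP : P.Monic) (hPi : Irreducible P) :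
    sy P (tw pr ρ x₀) = P.natDegree * cs x₀ + ∑ b, ρ b * sy P (pr b) := by
  obtain ⟨-, h⟩ := hSy F hF
  obtain ⟨hmul, hprime, hPP, hsP, hC⟩ := h P hP hPi
  have hone : sy P 1 = 0 := by
    have h1 := (hprime 1 (fun h => hPi.not_isUnit (isUnit_of_dvd_one h))).2
    rw [h1, map_one]
    exact ⟨1, by simp⟩
  have hpow : ∀ (g : F[X]) (_ : g ≠ 0) (e : ℕ), sy P (g ^ e) = e * sy P g := by
    intro g hg e
    induction e with
    | zero => rw [pow_zero, hone, Nat.cast_zero, zero_mul]
    | succ e ih =>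
      rw [pow_succ, (hmul _ _ (pow_ne_zero _ hg) hg).2, ih]
      push_cast
      ring
  have hprod : ∀ s : Finset ι, sy P (∏ b ∈ s, pr b ^ (ρ b).val) = ∑ b ∈ s, ρ b * sy P (pr b) := by
    classical
    intro s
    induction s using Finset.induction_on with
    | empty => simpa using hone
    | insert b s hb ih =>
      rw [Finset.prod_insert hb, Finset.sum_insert hb, (hmul _ _ (pow_ne_zero _
        (hfam.monic b).ne_zero) (Finset.prod_ne_zero_iff.2 fun b _ =>
          pow_ne_zero _ (hfam.monic b).ne_zero)).2, ih, hpow _ (hfam.monic b).ne_zero,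
        ZMod.natCast_val, ZMod.cast_id]
  rw [tw, (hmul _ _ (C_ne_zero.2 hx) (Finset.prod_ne_zero_iff.2 fun b _ =>
    pow_ne_zero _ (hfam.monic b).ne_zero)).2, (hC x₀ hx).2, hprod]

end basics

/-- A network of primes. -/
structure NetPr {F : Type u} [Field F] {m : ℕ} (n : ℕ) (a : Fin m → F[X]) {V T I : Type}
    [Fintype V] [DecidableEq V] [Fintype T] [DecidableEq T] (ρ : V → ZMod 2) (ch par : T → V)
    (pr : Option V ⊕ Kap V T I → F[X]) : Prop where
  fam : Fam pr
  cov : ∀ P : F[X], P.Monic → Irreducible P → ∀ i j, i ≠ j → P ∣ a i - a j →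
    ∃ v, pr (Sum.inl (some v)) = P
  deg0 : ((pr (Sum.inl none)).natDegree : ZMod 2) = 1
  degk : ∀ k, ((pr (Sum.inr k)).natDegree : ZMod 2) = 0
  degE : ∑ v, ρ v * ((pr (Sum.inl (some v))).natDegree : ZMod 2) + 1 + (n : ZMod 2) = 1
  symA : ∀ k v, sy (pr (Sum.inl v)) (pr (Sum.inr k)) =
    adA ch par k v + adE k * ((pr (Sum.inl v)).natDegree : ZMod 2)
  symL : ∀ k k', k ≠ k' → sy (pr (Sum.inr k)) (pr (Sum.inr k')) = adL k k'
  spl : ∀ v, ρ v = 0 → ∃ j k, j ≠ k ∧ vp (pr (Sum.inl (some v))) (a j - a k) = 1 ∧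
    ∑ w, ρ w * sy (pr (Sum.inl (some v))) (pr (Sum.inl (some w))) +
      sy (pr (Sum.inl (some v))) (pr (Sum.inl none)) +
      (1 + ∑ t ∈ Finset.univ.filter (fun t => ch t = v), (1 : ZMod 2) +
        ∑ t ∈ Finset.univ.filter (fun t => par t = v), (1 : ZMod 2)) +
      ∑ i ∈ (Finset.univ.erase j).erase k, sy (pr (Sum.inl (some v))) (a j - a i) = 0

/-- the flags of the network -/
def flag {V K : Type} (ρ : V → ZMod 2) : Option V ⊕ K → ZMod 2
  | Sum.inl none => 1
  | Sum.inl (some v) => ρ v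
  | Sum.inr _ => 1

theorem card_kap_sum {V T I : Type} [Fintype V] [Fintype T] [Fintype I] :
    ∑ k : Kap V T I, (adE k : ZMod 2) = (Fintype.card V : ZMod 2) := by
  simp [Fintype.sum_sum_type, adE]

theorem adL_self {V T I : Type} [DecidableEq T] (k : Kap V T I) : adL k k = 0 := by
  rcases k with v | t | t | r <;> rfl

open Classical in
theorem core (hSy : StmtTwSy.{u}) (hRec : StmtTwRec.{u}) (hNu : StmtTwNu.{u})
    (hEq : StmtTwEq.{u}) (hNet : StmtTwNet.{u}) (hLin : StmtTwLin) (hLA : StmtTwLinA)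
    (hLB : StmtTwLinB) {F : Type u} [Field F] [Finite F] (hF : Odd (Nat.card F)) {m n : ℕ}
    {a : Fin m → F[X]} (ha : Pts m n a) {V T I : Type} [Fintype V] [DecidableEq V] [Fintype T]
    [DecidableEq T] [Fintype I] {ρ : V → ZMod 2} {ch par : T → V}
    {pr : Option V ⊕ Kap V T I → F[X]} (hN : NetPr n a ρ ch par pr) {ε : ZMod 2} {rt : V → V}
    {rk : V → ℕ}
    (hC : Comb n (fun v => nu (pr (Sum.inl (some v))) a)
      (fun v => ((pr (Sum.inl (some v))).natDegree : ZMod 2))
      (fun v w => sy (pr (Sum.inl (some v))) (pr (Sum.inl (some w)))) ε ch par rt rk)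
    (hch : ∀ t, ρ (ch t) = 1)
    (hρ : (Even n ∧ ∀ v, ρ v = 1) ∨
      ((∀ j k : Fin m, j ≠ k → ∃ v, nu (pr (Sum.inl (some v))) a =
        Pi.single j 1 + Pi.single k 1) ∧
        ∃ r, nu (pr (Sum.inl (some r))) a ≠ 0 ∧ rt r = r ∧
          ρ r = 1 + ε * ((m.choose 2 * n : ℕ) : ZMod 2) ∧ ∀ v, v ≠ r → ρ v = 1))
    {x₀ : F} (hx₀ : x₀ ≠ 0) (hcs : cs x₀ = (Fintype.card V : ZMod 2)) :
    placesSelmer F[X] (RatFunc.inftyValuation F) 2 (pts (tw pr (flag ρ) x₀) a) (fun _ => 1) =
      torsionGroup 2 (pts (tw pr (flag ρ) x₀) a) (fun _ => 1) := by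
  have hfam := hN.fam
  refine le_antisymm ?_ (torsionGroup_le_pts (tw_ne_zero hfam _ hx₀) ha.injective)
  intro d hd
  have hdeg : ((tw pr (flag ρ) x₀).natDegree : ZMod 2) + (n : ZMod 2) = 1 := by
    rw [natDegree_tw hfam _ hx₀, Fintype.sum_sum_type, Fintype.sum_option]
    simp only [flag, one_mul]
    rw [Finset.sum_eq_zero (fun k _ => hN.degk k), hN.deg0, add_zero, add_comm (1 : ZMod 2)]
    exact hN.degE
  have hodd : Odd ((tw pr (flag ρ) x₀).natDegree + n) := by
    have h1 : (((tw pr (flag ρ) x₀).natDegree + n : ℕ) : ZMod 2) = 1 := by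
      push_cast
      exact hdeg
    rw [← Nat.not_even_iff_odd]
    intro h2
    rw [(ZMod.natCast_eq_zero_iff_even).2 h2] at h1
    exact zero_ne_one h1
  have hcov : ∀ P : F[X], P.Monic → Irreducible P → ∀ i j, i ≠ j → P ∣ a i - a j →
      ∃ b, pr b = P := by
    intro P hP hPi i j hij hdvd
    obtain ⟨v, hv⟩ := hN.cov P hP hPi i j hij hdvd
    exact ⟨_, hv⟩
  have hspl : ∀ b, flag ρ b = 0 → ∃ j k, j ≠ k ∧ vp (pr b) (a j - a k) = 1 ∧
      sy (pr b) (tw pr (flag ρ) x₀) +
        ∑ i ∈ (Finset.univ.erase j).erase k, sy (pr b) (a j - a i) = 0 := by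
    rintro ((_ | v) | k) hb
    · exact absurd hb (by simp [flag])
    · obtain ⟨j, k, hjk, hv, hs⟩ := hN.spl v hb
      refine ⟨j, k, hjk, hv, ?_⟩
      rw [sy_tw hSy hF hfam _ hx₀ (hfam.monic _) (hfam.irr _), Fintype.sum_sum_type,
        Fintype.sum_option]
      simp only [flag, one_mul]
      have h1 : ∑ k : Kap V T I, sy (pr (Sum.inl (some v))) (pr (Sum.inr k)) =
          (1 + ∑ t ∈ Finset.univ.filter (fun t => ch t = v), (1 : ZMod 2) +
            ∑ t ∈ Finset.univ.filter (fun t => par t = v), (1 : ZMod 2)) +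
          (Fintype.card V : ZMod 2) * ((pr (Sum.inl (some v))).natDegree : ZMod 2) := by
        rw [Finset.sum_congr rfl fun k _ => hN.symA k (some v), Finset.sum_add_distrib,
          ← Finset.sum_mul, card_kap_sum]
        congr 1
        simp only [Fintype.sum_sum_type, adA, Option.some.injEq, reduceCtorEq, if_false,
          Finset.sum_const_zero, add_zero, Finset.sum_ite_eq, Finset.mem_univ, if_true,
          Finset.sum_filter, ← add_assoc]
        congr 1
        · congr 1
          exact Finset.sum_congr rfl fun t _ => by simp only [eq_comm]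
        · exact Finset.sum_congr rfl fun t _ => by simp only [eq_comm]
      rw [h1, hcs]
      have h2 : ∀ d c : ZMod 2, d * c + c * d = 0 := by decide
      linear_combination hs + h2 ((pr (Sum.inl (some v))).natDegree : ZMod 2)
        (Fintype.card V : ZMod 2)
    · exact absurd hb (by simp [flag])
  obtain ⟨x, c, hE, hfin⟩ := hEq F hF m n a ha _ pr hfam hcov (flag ρ) x₀ hx₀ hodd hspl d hd
  have hrec : ∀ k v, sy (pr (Sum.inr k)) (pr (Sum.inl v)) =
      adA ch par k v + adE k * ((pr (Sum.inl v)).natDegree : ZMod 2) := by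
    intro k v
    have h1 := hRec F hF (pr (Sum.inr k)) (pr (Sum.inl v)) (hfam.monic _) (hfam.irr _)
      (hfam.monic _) (hfam.irr _) (fun h => by simpa using hfam.inj h)
    rw [Nat.cast_mul, Nat.cast_mul, hN.degk, zero_mul, mul_zero, CharTwo.add_eq_zero] at h1
    rw [h1, hN.symA]
  have hNS := hNet F hF m n a ha V (Kap V T I) pr hfam hN.cov (flag ρ) rfl (fun _ => rfl) x₀ hx₀
    hodd (adA ch par) adE adL hN.deg0 hN.degk hN.symA hrec (fun k k' => by
      by_cases hkk : k = k'
      · subst hkk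
        rw [adL_self]
        exact ((hSy F hF).2 _ (hfam.monic _) (hfam.irr _)).2.2.2.1
      · exact hN.symL k k' hkk) (by rw [hcs, card_kap_sum]) x c hE
  have hz := net_zero hLin hLA hLB (ρ := ρ) hC
    (fun v => by
      rcases (hNu F hF m n a ha _ (hfam.monic (Sum.inl (some v))) (hfam.irr _)).1 with h | ⟨j, k, hjk, h⟩
      · rw [h]
        simp [ip]
      · rw [h]
        simp only [ip, Pi.add_apply]
        have h1 : ∀ i, (Pi.single (M := fun _ => ZMod 2) j 1 i + Pi.single (M := fun _ => ZMod 2) k 1 i) *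
            (Pi.single (M := fun _ => ZMod 2) j 1 i + Pi.single (M := fun _ => ZMod 2) k 1 i) =
            Pi.single (M := fun _ => ZMod 2) j 1 i + Pi.single (M := fun _ => ZMod 2) k 1 i := by
          intro i
          generalize Pi.single (M := fun _ => ZMod 2) j 1 i + Pi.single (M := fun _ => ZMod 2) k 1 i = y
          revert y
          decide
        rw [Finset.sum_congr rfl fun i _ => h1 i, Finset.sum_add_distrib]
        simp
        decide)
    (fun v => ⟨by
      funext i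
      simp [lsy], (hNu F hF m n a ha _ (hfam.monic _) (hfam.irr _)).2.2.2.2⟩)
    (by
      funext i
      simp [lsy])
    hch hρ hNS
  refine hfin ?_
  rintro ((_ | v) | k) i
  · exact congrFun hz.2.1 i
  · exact congrFun (hz.1 v) i
  · exact congrFun (hz.2.2 k) i

end MP72e2e6
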