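import Pool.Agent.Lib.MP_72e2e6_nt.TwStmt

/-!
# MP_72e2e6_nt: one more statement (see TwStmt.lean)
-/

namespace MP72e2e6

open Polynomial IsDedekindDomain

universe u

/-- **TwIdx** (the order of the torsion group modulo squares; 120 lines; uses `StmtTwSy`,
`StmtTwTor`). `P` divides `E` exactly once and divides no difference.

Proof. `K = F(t)`, `G = Fin m → Kˣ`, `v` the place of `P`. Let
`Φ : G →* Multiplicative (Fin m → ZMod 2)` be `d ↦ (log (v (d i)) mod 2)_i` (the parity of the
valuation; `WithZero.log` of the valuation of a unit is additive). For a nonzero polynomial `h` the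
value is `vp P h`. `powGroup ≤ ker Φ`. If `t ∈ torsionGroup` and `c` is the vector of the first
part of `StmtTwTor` (`t i = tau E a c i * z ^ 2`), then `Φ t = c`, because
`vp P (tau E a c i) = c i * vp P (-E) + 0 = c i` (`P` divides no difference, `vp P E = 1`; in the
factor with `k = i` the exponent is `0`). So an element of `torsionGroup ⊓ ker Φ` has `c = 0`,
`tau E a 0 i = 1`, and is a square: `ker (Φ restricted to torsionGroup)` is
`powGroup.subgroupOf torsionGroup` (`powGroup ≤ torsionGroup`: `powGroup_le_torsionGroup`). By
`Subgroup.index_ker` the relative index is the order of the image of `torsionGroup` under `Φ`. The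
image is the set of the `c` with `∑ i, c i = 0`: by the second part of `StmtTwTor` every such `c`
occurs (take `t i` the unit `tau E a c i`, nonzero as `a` is injective and `E ≠ 0`). There are
`2 ^ (m - 1)` such vectors (kernel of the surjective map `c ↦ ∑ i, c i`; or drop one
coordinate). -/
def StmtTwIdx : Prop :=
  ∀ (F : Type u) [Field F] [Finite F] (_ : Odd (Nat.card F)) (m : ℕ) (_ : Odd m) (E : F[X])
    (_ : E ≠ 0) (a : Fin m → F[X]) (_ : Function.Injective a) (P : F[X]) (_ : P.Monic)
    (_ : Irreducible P) (_ : P ∣ E) (_ : ¬ P ^ 2 ∣ E) (_ : ∀ i j, i ≠ j → ¬ P ∣ a i - a j),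
    (powGroup 2 (RatFunc F) m).relIndex (torsionGroup 2 (pts E a) (fun _ => 1)) = 2 ^ (m - 1)

end MP72e2e6
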