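import Pool.Agent.Lib.MP_72e2e6_nt.PeStmtB
import Pool.Agent.Lib.MP_72e2e6_nt.PpMain
import Pool.Agent.Lib.MP_72e2e6_nt.TwCore
import Pool.Agent.Lib.MP_72e2e6_nt.TwStmtB

/-!
# MP_72e2e6_nt: positive proportion of quadratic twists, the theorem from the modules
-/

set_option autoImplicit false

namespace MP72e2e6

open Polynomial IsDedekindDomain

universe u

section

variable {F : Type u} [Field F] {m : ℕ}

/-- No partition of the branch points such that all differences between the parts are constants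
times squares. -/
def ConnE (a : Fin m → F[X]) : Prop :=
  ∀ s : Finset (Fin m), s.Nonempty → s ≠ Finset.univ → ∃ i ∈ s, ∃ j, j ∉ s ∧
    ∀ (c : F) (g : F[X]), a i - a j ≠ C c * g ^ 2

theorem ConnE.of_odd {n₀ : ℕ} {a : Fin m → F[X]} (ha : Pts m n₀ a) (hn : Odd n₀) :
    ConnE a := by
  intro s hs hs'
  obtain ⟨i, hi⟩ := hs
  obtain ⟨j, hj⟩ : ∃ j, j ∉ s := by
    by_contra h
    push Not at h
    exact hs' (Finset.eq_univ_iff_forall.2 h)
  have hij : i ≠ j := fun h => hj (h ▸ hi)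
  refine ⟨i, hi, j, hj, fun c g h => ?_⟩
  have h1 := ha.deg i j hij
  have h2 : (a i - a j).natDegree = n₀ := natDegree_eq_of_degree_eq_some h1
  rw [h] at h1 h2
  have hc : c ≠ 0 := by
    rintro rfl
    rw [C_0, zero_mul, degree_zero] at h1
    exact absurd h1.symm (WithBot.coe_ne_bot)
  rw [natDegree_C_mul hc, natDegree_pow] at h2
  obtain ⟨k, hk⟩ := hn
  omega

variable [Finite F]

omit [Finite F] in
theorem pe_one_le_gs {V : Type} [Fintype V] {pr : V → F[X]} (hpr : Fam pr) {D : F[X]}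
    (hD : D.Monic) (hDs : Squarefree D)
    (hcov : ∀ P : F[X], P.Monic → Irreducible P → ((∃ v, pr v = P) ↔ P ∣ D)) :
    ∏ v, pr v = D := by
  have h1 := pp_prod_multiplicity hpr _ D hD rfl fun P hP hPi h => (hcov P hP hPi).2 h
  have h2 : ∀ v, multiplicity (pr v) D = 1 := by
    intro v
    have h3 : pr v ∣ D := (hcov _ (hpr.monic v) (hpr.irr v)).1 ⟨v, rfl⟩
    have h4 : ¬ pr v ^ 2 ∣ D := by
      intro h
      rw [sq] at h
      exact (hpr.irr v).not_isUnit (hDs _ h)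
    have h5 : FiniteMultiplicity (pr v) D :=
      FiniteMultiplicity.of_prime_left (hpr.irr v).prime hD.ne_zero
    refine le_antisymm ?_ ?_
    · by_contra h6
      push Not at h6
      exact h4 ((pow_dvd_pow _ h6).trans (pow_multiplicity_dvd _ _))
    · rw [Nat.one_le_iff_ne_zero]
      exact multiplicity_ne_zero.2 h3
  rw [← h1]
  exact Finset.prod_congr rfl fun v _ => by rw [h2, pow_one]

omit [Finite F] in
theorem pe_degree {V : Type} [Fintype V] {pr : V → F[X]} (hpr : Fam pr) {D : F[X]}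
    (h : ∏ v, pr v = D) : ∑ v, (pr v).natDegree = D.natDegree := by
  rw [← h, natDegree_prod_of_monic _ _ fun v _ => hpr.monic v]

open Classical in
/-- the counting theorem for a family of primes -/
theorem pe_core (hMar : StmtPeMar.{u}) (hCnt : StmtPpCnt.{u}) (hSyl : StmtPeSyl.{u})
    (hHyp : StmtPeHyp.{u}) (hIrr : StmtPeIrr) (hPInj : StmtPeInj.{u})
    (hq : 4 ∣ Nat.card F - 1) {n₀ : ℕ} {a : Fin m → F[X]} (ha : Pts m n₀ a)
    (hconn : ConnE a) {V : Type} [Fintype V] {pr : V → F[X]} (hpr : Fam pr)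
    (hcov : ∀ P : F[X], P.Monic → Irreducible P → ∀ i j, i ≠ j → P ∣ a i - a j → ∃ v, pr v = P)
    (ε : ℝ) (hε : 0 < ε) :
    ∃ N : ℕ, ∀ n : ℕ, N ≤ n → Odd (∑ v, (pr v).natDegree + n + n₀) →
      (1 / 3 - ε) * ((gs F pr n).card : ℝ) ≤
        (((gs F pr n).filter fun t =>
          placesSelmer F[X] (RatFunc.inftyValuation F) 2 (pts ((∏ v, pr v) * ∏ P ∈ t, P) a)
            (fun _ => 1) =
          torsionGroup 2 (pts ((∏ v, pr v) * ∏ P ∈ t, P) a) (fun _ => 1)).card : ℝ) ∧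
      ∑ t ∈ gs F pr n,
        ((torsionGroup 2 (pts ((∏ v, pr v) * ∏ P ∈ t, P) a) (fun _ => 1)).relIndex
          (placesSelmer F[X] (RatFunc.inftyValuation F) 2 (pts ((∏ v, pr v) * ∏ P ∈ t, P) a)
            (fun _ => 1)) : ℝ) ≤ (3 + ε) * ((gs F pr n).card : ℝ) := by
  have hq2 : 2 ∣ Nat.card F - 1 := (by norm_num : (2 : ℕ) ∣ 4).trans hq
  have hq4 : 4 ≤ Nat.card F := by
    have h1 : 2 ≤ Nat.card F := Finite.one_lt_card
    have h2 := Nat.le_of_dvd (by omega) hq
    omega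
  obtain ⟨hLg, -, hR⟩ := hSyl F hq2
  obtain ⟨-, hRcp⟩ := hR hq
  obtain ⟨⟨h, hH⟩, hInf, hC⟩ := hHyp F hq m n₀ a ha V pr hpr hcov hconn
  obtain ⟨hI1, hI2⟩ := hIrr m ha.odd ha.three V (fun v => nuE (pr v) a) hC (laE a)
  obtain ⟨c, hc, n₁, hcnt⟩ := hCnt F hq4 V pr hpr
  obtain ⟨n₂, hn₂⟩ := hMar F hq4 hq2 cs hLg hRcp V (Ev m) pr hpr
    (fun v => trE (nuE (pr v) a)) (laE a) (ipE m) (fun v => nuE (pr v) a) h hH hI1 hI2
    (ε * c) (mul_pos hε hc)
  refine ⟨max n₁ n₂, fun n hn hodd => ?_⟩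
  have h1 := hcnt n (le_trans (le_max_left _ _) hn)
  obtain ⟨h2, h3⟩ := hn₂ n (le_trans (le_max_right _ _) hn) (hInf n hodd)
  have h4 : ε * c * (Nat.card F : ℝ) ^ n ≤ ε * ((gs F pr n).card : ℝ) := by
    rw [mul_assoc]
    exact mul_le_mul_of_nonneg_left h1 hε.le
  have hE0 : ∀ t ∈ gs F pr n, (∏ v, pr v) * ∏ P ∈ t, P ≠ 0 := by
    intro t ht
    refine mul_ne_zero (Finset.prod_ne_zero_iff.2 fun v _ => (hpr.irr v).ne_zero)
      (Finset.prod_ne_zero_iff.2 fun P hP => ?_)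
    have h5 : t ∈ ps F n := by
      simp only [gs, Finset.mem_filter] at ht
      exact ht.1
    exact ((mem_ps.1 h5).1 P hP).2.ne_zero
  have hinj := fun t (ht : t ∈ gs F pr n) => hPInj F hq m n₀ a ha V pr hpr hcov n t ht hodd
  constructor
  · have h5 : (((gs F pr n).filter fun t => nSol cs pr (fun v => trE (nuE (pr v) a)) (laE a) t
        = 1).card : ℝ) + (((gs F pr n).filter fun t =>
          nSol cs pr (fun v => trE (nuE (pr v) a)) (laE a) t ≠ 1).card : ℝ) =
          ((gs F pr n).card : ℝ) := by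
      have h6 := Finset.card_filter_add_card_filter_not (s := gs F pr n)
        (fun t => nSol cs pr (fun v => trE (nuE (pr v) a)) (laE a) t = 1)
      exact_mod_cast h6
    have h6 : ((gs F pr n).filter fun t => nSol cs pr (fun v => trE (nuE (pr v) a)) (laE a) t
        = 1) ⊆ (gs F pr n).filter fun t =>
          placesSelmer F[X] (RatFunc.inftyValuation F) 2 (pts ((∏ v, pr v) * ∏ P ∈ t, P) a)
            (fun _ => 1) =
          torsionGroup 2 (pts ((∏ v, pr v) * ∏ P ∈ t, P) a) (fun _ => 1) := by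
      intro t ht
      rw [Finset.mem_filter] at ht ⊢
      refine ⟨ht.1, le_antisymm ?_ ?_⟩
      · rw [← Subgroup.relIndex_eq_one]
        obtain ⟨h7, h8⟩ := hinj t ht.1
        rw [ht.2] at h8
        omega
      · exact torsionGroup_le_pts (hE0 t ht.1) ha.injective
    refine le_trans ?_ ((Nat.cast_le (α := ℝ)).2 (Finset.card_le_card h6))
    linarith
  · have h5 : ∑ t ∈ gs F pr n,
        ((torsionGroup 2 (pts ((∏ v, pr v) * ∏ P ∈ t, P) a) (fun _ => 1)).relIndex
          (placesSelmer F[X] (RatFunc.inftyValuation F) 2 (pts ((∏ v, pr v) * ∏ P ∈ t, P) a)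
            (fun _ => 1)) : ℝ) ≤
        ∑ t ∈ gs F pr n, (nSol cs pr (fun v => trE (nuE (pr v) a)) (laE a) t : ℝ) := by
      refine Finset.sum_le_sum fun t ht => ?_
      exact_mod_cast (hinj t ht).2
    linarith

/-- The squarefree monic polynomials of degree `n` prime to `D`. -/
def Msq (D : F[X]) (n : ℕ) : Set F[X] :=
  {M | M.Monic ∧ M.natDegree = n ∧ Squarefree M ∧ IsCoprime M D}

open Classical in
theorem pe_main (hMar : StmtPeMar.{u}) (hBij : StmtPpBij.{u}) (hCnt : StmtPpCnt.{u})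
    (hSyl : StmtPeSyl.{u}) (hHyp : StmtPeHyp.{u}) (hIrr : StmtPeIrr) (hPInj : StmtPeInj.{u})
    (hq : 4 ∣ Nat.card F - 1) {n₀ : ℕ} {a : Fin m → F[X]} (ha : Pts m n₀ a)
    (hconn : ConnE a) {D : F[X]} (hD : D.Monic) (hDs : Squarefree D)
    (hDa : ∀ P : F[X], Irreducible P → ∀ i j, i ≠ j → P ∣ a i - a j → P ∣ D) :
    (∃ c : ℝ, 0 < c ∧ ∃ N : ℕ, ∀ n : ℕ, N ≤ n →
      c * (Nat.card F : ℝ) ^ n ≤ ((Msq D n).ncard : ℝ)) ∧
    ∀ ε : ℝ, 0 < ε → ∃ N : ℕ, ∀ n : ℕ, N ≤ n → Odd (D.natDegree + n + n₀) →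
      (1 / 3 - ε) * ((Msq D n).ncard : ℝ) ≤
        ({M ∈ Msq D n |
          placesSelmer F[X] (RatFunc.inftyValuation F) 2 (pts (D * M) a) (fun _ => 1) =
            torsionGroup 2 (pts (D * M) a) (fun _ => 1)}.ncard : ℝ) ∧
      ∑ᶠ M ∈ Msq D n, ((torsionGroup 2 (pts (D * M) a) (fun _ => 1)).relIndex
          (placesSelmer F[X] (RatFunc.inftyValuation F) 2 (pts (D * M) a) (fun _ => 1)) : ℝ)
          ≤ (3 + ε) * ((Msq D n).ncard : ℝ) := by
  have hq4 : 4 ≤ Nat.card F := by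
    have h1 : 2 ≤ Nat.card F := Finite.one_lt_card
    have h2 := Nat.le_of_dvd (by omega) hq
    omega
  obtain ⟨s, pr, hpr, hcov⟩ := pp_exists_bad ha.injective hD.ne_zero
  have hcov' : ∀ P : F[X], P.Monic → Irreducible P → ((∃ v, pr v = P) ↔ P ∣ D) := by
    intro P hP hPi
    rw [hcov P hP hPi]
    exact ⟨fun h => h.elim id fun ⟨i, j, hij, h⟩ => hDa P hPi i j hij h, Or.inl⟩
  have hset : ∀ n, Msf a D n = Msq D n := by
    intro n
    ext M
    simp only [Msf, Msq, Set.mem_ofPred_eq]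
    refine and_congr_right fun _ => and_congr_right fun _ => and_congr_right fun _ => ?_
    refine ⟨fun h => h.1, fun h => ⟨h, fun i j hij => ?_⟩⟩
    rw [pp_isCoprime_iff] at h ⊢
    intro P hP hPi hd
    exact h P hP hPi (hDa P hPi i j hij hd)
  have hbij : ∀ n, Set.BijOn (fun t : Finset F[X] => ∏ P ∈ t, P)
      (gs F pr n : Set (Finset F[X])) (Msq D n) := by
    intro n
    rw [← hset]
    exact pp_bijOn hBij hpr hcov n
  have hcard : ∀ n, ((Msq D n).ncard : ℝ) = ((gs F pr n).card : ℝ) := by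
    intro n
    rw [← (hbij n).image_eq, (hbij n).injOn.ncard_image, Set.ncard_coe_finset]
  constructor
  · obtain ⟨c, hc, n₀, h0⟩ := hCnt F hq4 (Fin s) pr hpr
    exact ⟨c, hc, n₀, fun n hn => by rw [hcard]; exact h0 n hn⟩
  · intro ε hε
    have hprod := pe_one_le_gs hpr hD hDs hcov'
    obtain ⟨N, h0⟩ := pe_core hMar hCnt hSyl hHyp hIrr hPInj hq ha hconn hpr
      (fun P hP hPi i j hij hd => (hcov P hP hPi).2 (Or.inr ⟨i, j, hij, hd⟩)) ε hε
    rw [pe_degree hpr hprod, hprod] at h0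
    refine ⟨N, fun n hn hI => ?_⟩
    have h1 := h0 n hn hI
    have hfil : ({M ∈ Msq D n |
          placesSelmer F[X] (RatFunc.inftyValuation F) 2 (pts (D * M) a) (fun _ => 1) =
            torsionGroup 2 (pts (D * M) a) (fun _ => 1)}.ncard : ℝ) =
          (((gs F pr n).filter fun t =>
          placesSelmer F[X] (RatFunc.inftyValuation F) 2 (pts (D * ∏ P ∈ t, P) a)
            (fun _ => 1) =
            torsionGroup 2 (pts (D * ∏ P ∈ t, P) a) (fun _ => 1)).card : ℝ) := by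
      have h2 : {M ∈ Msq D n |
          placesSelmer F[X] (RatFunc.inftyValuation F) 2 (pts (D * M) a) (fun _ => 1) =
            torsionGroup 2 (pts (D * M) a) (fun _ => 1)} =
          (fun t : Finset F[X] => ∏ P ∈ t, P) '' (((gs F pr n).filter fun t =>
          placesSelmer F[X] (RatFunc.inftyValuation F) 2 (pts (D * ∏ P ∈ t, P) a)
            (fun _ => 1) =
            torsionGroup 2 (pts (D * ∏ P ∈ t, P) a) (fun _ => 1) : Finset (Finset F[X])) :
              Set (Finset F[X])) := by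
        ext M
        simp only [Set.mem_ofPred_eq, Set.mem_image, Finset.coe_filter]
        constructor
        · rintro ⟨hM, h⟩
          obtain ⟨t, ht, rfl⟩ := (hbij n).surjOn hM
          exact ⟨t, ⟨ht, h⟩, rfl⟩
        · rintro ⟨t, ⟨ht, h⟩, rfl⟩
          exact ⟨(hbij n).mapsTo ht, h⟩
      rw [h2, ((hbij n).injOn.mono ?_).ncard_image, Set.ncard_coe_finset]
      intro t ht
      rw [Finset.coe_filter] at ht
      exact ht.1
    have hsum : ∑ᶠ M ∈ Msq D n, ((torsionGroup 2 (pts (D * M) a) (fun _ => 1)).relIndex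
          (placesSelmer F[X] (RatFunc.inftyValuation F) 2 (pts (D * M) a) (fun _ => 1)) : ℝ) =
        ∑ t ∈ gs F pr n, ((torsionGroup 2 (pts (D * ∏ P ∈ t, P) a) (fun _ => 1)).relIndex
          (placesSelmer F[X] (RatFunc.inftyValuation F) 2 (pts (D * ∏ P ∈ t, P) a)
            (fun _ => 1)) : ℝ) := by
      rw [← finsum_mem_coe_finset]
      exact (finsum_mem_eq_of_bijOn _ (hbij n) fun t _ => rfl).symm
    rw [hfil, hsum, hcard]
    exact h1

open Classical in
/-- a positive proportion of all quadratic twists -/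
theorem pe_all (hMar : StmtPeMar.{u}) (hBij : StmtPpBij.{u}) (hCnt : StmtPpCnt.{u})
    (hSyl : StmtPeSyl.{u}) (hHyp : StmtPeHyp.{u}) (hIrr : StmtPeIrr) (hPInj : StmtPeInj.{u})
    (hIdx : StmtTwIdx.{u})
    (hq : 4 ∣ Nat.card F - 1) {n₀ : ℕ} {a : Fin m → F[X]} (ha : Pts m n₀ a)
    (hconn : ConnE a) :
    ∃ c : ℝ, 0 < c ∧ ∃ N : ℕ, ∀ n : ℕ, N ≤ n → Odd (n + n₀) →
      c * (Nat.card F : ℝ) ^ n ≤ ({E : F[X] | E.Monic ∧ E.natDegree = n ∧ Squarefree E ∧
        placesSelmer F[X] (RatFunc.inftyValuation F) 2 (pts E a) (fun _ => 1) =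
          torsionGroup 2 (pts E a) (fun _ => 1) ∧
        (powGroup 2 (RatFunc F) m).relIndex
          (placesSelmer F[X] (RatFunc.inftyValuation F) 2 (pts E a) (fun _ => 1)) =
          2 ^ (m - 1)}.ncard : ℝ) := by
  obtain ⟨s, pr, hpr, hcov⟩ := pp_exists_bad ha.injective (one_ne_zero : (1 : F[X]) ≠ 0)
  set D : F[X] := ∏ v, pr v with hD
  have hDm : D.Monic := monic_prod_of_monic _ _ fun v _ => hpr.monic v
  have hDdvd : ∀ P : F[X], P.Monic → Irreducible P → P ∣ D → ∃ v, pr v = P := by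
    intro P hP hPi h
    obtain ⟨v, -, hv⟩ := (hPi.prime.dvd_finsetProd_iff _).1 h
    exact ⟨v, (eq_of_monic_of_associated hP (hpr.monic v)
      (hPi.associated_of_dvd (hpr.irr v) hv)).symm⟩
  have hDs : Squarefree D := by
    rw [hD]
    refine Finset.squarefree_prod_of_pairwise_isCoprime ?_ fun v _ => (hpr.irr v).squarefree
    intro v _ w _ hvw
    refine IsCoprime.isRelPrime (((hpr.irr v).coprime_iff_not_dvd).2 fun h => hvw (hpr.inj ?_))
    exact eq_of_monic_of_associated (hpr.monic v) (hpr.monic w)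
      ((hpr.irr v).associated_of_dvd (hpr.irr w) h)
  have hDa : ∀ P : F[X], Irreducible P → ∀ i j, i ≠ j → P ∣ a i - a j → P ∣ D := by
    intro P hPi i j hij h
    have hass : Associated (normalize P) P := normalize_associated P
    have h1 : (normalize P).Monic := monic_normalize hPi.ne_zero
    have h2 : Irreducible (normalize P) := hass.symm.irreducible hPi
    obtain ⟨v, hv⟩ := (hcov _ h1 h2).2 (Or.inr ⟨i, j, hij, hass.dvd.trans h⟩)
    rw [← hass.dvd_iff_dvd_left, ← hv]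
    exact Finset.dvd_prod_of_mem _ (Finset.mem_univ v)
  obtain ⟨⟨c, hc, N₁, h1⟩, h2⟩ := pe_main hMar hBij hCnt hSyl hHyp hIrr hPInj hq ha hconn hDm
    hDs hDa
  obtain ⟨N₂, h3⟩ := h2 (1 / 6) (by norm_num)
  have hq2 : 2 ≤ Nat.card F := Finite.one_lt_card
  have hq0 : (0 : ℝ) < (Nat.card F : ℝ) := by exact_mod_cast (by omega : 0 < Nat.card F)
  have hodd : Odd (Nat.card F) := by
    have h4 := Nat.le_of_dvd (by omega) hq
    obtain ⟨k, hk⟩ := hq
    exact ⟨2 * k, by omega⟩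
  refine ⟨c / 6 / (Nat.card F : ℝ) ^ D.natDegree, by positivity,
    D.natDegree + N₁ + N₂ + 1, fun n hn hI => ?_⟩
  obtain ⟨k, rfl⟩ : ∃ k, n = D.natDegree + k := ⟨n - D.natDegree, by omega⟩
  have h4 := h1 k (by omega)
  have h5 := (h3 k (by omega) hI).1
  set S : Set F[X] := {M ∈ Msq D k |
      placesSelmer F[X] (RatFunc.inftyValuation F) 2 (pts (D * M) a) (fun _ => 1) =
        torsionGroup 2 (pts (D * M) a) (fun _ => 1)} with hS
  set T : Set F[X] := {E : F[X] | E.Monic ∧ E.natDegree = D.natDegree + k ∧ Squarefree E ∧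
        placesSelmer F[X] (RatFunc.inftyValuation F) 2 (pts E a) (fun _ => 1) =
          torsionGroup 2 (pts E a) (fun _ => 1) ∧
        (powGroup 2 (RatFunc F) m).relIndex
          (placesSelmer F[X] (RatFunc.inftyValuation F) 2 (pts E a) (fun _ => 1)) =
          2 ^ (m - 1)} with hT
  have h6 : (fun M => D * M) '' S ⊆ T := by
    rintro _ ⟨M, ⟨⟨hM1, hM2, hM3, hM4⟩, hM5⟩, rfl⟩
    refine ⟨hDm.mul hM1, by rw [hDm.natDegree_mul hM1, hM2], ?_, hM5, ?_⟩
    · rw [squarefree_mul_iff]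
      exact ⟨hM4.symm.isRelPrime, hDs, hM3⟩
    · have hMu : ¬ IsUnit M := by
        intro hu
        have h7 := natDegree_eq_zero_of_isUnit hu
        omega
      obtain ⟨P, hP, hPi, hPM⟩ := exists_monic_irreducible_factor M hMu
      have hPD : ¬ P ∣ D := fun h => hPi.not_isUnit (hM4.isUnit_of_dvd' hPM h)
      change (powGroup 2 (RatFunc F) m).relIndex
          (placesSelmer F[X] (RatFunc.inftyValuation F) 2 (pts (D * M) a) (fun _ => 1)) = _
      rw [hM5]
      refine hIdx F hodd m ha.odd (D * M) (mul_ne_zero hDm.ne_zero hM1.ne_zero) a ha.injective P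
        hP hPi (hPM.mul_left D) (fun h => ?_) fun i j hij h => hPD (hDa P hPi i j hij h)
      have h7 : Squarefree (D * M) := by
        rw [squarefree_mul_iff]
        exact ⟨hM4.symm.isRelPrime, hDs, hM3⟩
      rw [sq] at h
      exact hPi.not_isUnit (h7 P h)
  have hTfin : T.Finite := by
    refine ((mon F (D.natDegree + k)).finite_toSet).subset ?_
    rintro E ⟨hE1, hE2, -⟩
    exact mem_mon.2 ⟨hE1, hE2⟩
  have h7 : S.ncard ≤ T.ncard := by
    rw [← Set.ncard_image_of_injective S (mul_right_injective₀ hDm.ne_zero)]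
    exact Set.ncard_le_ncard h6 hTfin
  have h8 : (S.ncard : ℝ) ≤ (T.ncard : ℝ) := by exact_mod_cast h7
  have h9 : c / 6 / (Nat.card F : ℝ) ^ D.natDegree * (Nat.card F : ℝ) ^ (D.natDegree + k) =
      c * (Nat.card F : ℝ) ^ k / 6 := by
    rw [pow_add]
    field_simp
  rw [h9]
  linarith

end

end MP72e2e6
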