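import Pool.Agent.Lib.MP_72e2e6_nt.PpStmtB

/-!
# MP_72e2e6_nt: positive proportion of QUADRATIC twists, analytic part

THEOREM (file PeMain, later). `F` finite, `q ≡ 1` modulo `4`, `a_1, ..., a_m ∈ F[t]`, `m ≥ 3` odd,
all differences of one degree `n₀` and pairwise coprime, no partition of the branch points into two
parts such that all differences between the parts are constants times squares; `D` squarefree
monic, divisible by all the prime factors of the differences. For every `ε > 0` and all large `n`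
with `deg D + n + n₀` odd, at least a proportion `1 / 3 - ε` of all squarefree monic `M` of degree
`n`, prime to `D`, has the property that the `2`-Selmer group of the Jacobian of
`y ^ 2 = ∏ (x - D M a_i)` is the `2`-torsion.

RULES. Every module proves one of the propositions `StmtPeX` below or in PeStmtB.lean: file
`PeX.lean` (same folder, import this file, or PeStmtB.lean, and the files it uses as models) with
`theorem tPeX.{u} : StmtPeX.{u}` (or `theorem tPeX.{u} (h : StmtY.{u}) .. : StmtPeX.{u}` if the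
docstring says: uses `StmtY`, in this order; no universe parameter for `PeIrr`). The complete
proofs are in the docstrings. `q = Nat.card F`, `ψ = ZMod.stdAddChar`, `MI` means monic
irreducible. Several modules are copies of modules `Pp*` with `ℓ = 2`: copy the finished file.
-/

namespace MP72e2e6

open Polynomial

universe u

/-! ### The method of Stepanov: quadratic character sums of polynomials -/

/-- **PeHas** (Hasse derivatives; 120 lines). `Q` is the number of elements of `k`.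

Proof. (1) `Q = p ^ e` is a power of the characteristic (`FiniteField.card'`). By
`hasseDeriv_mul`, `hasseDeriv n (h * X ^ Q) = ∑_{i + j = n} hasseDeriv i h * hasseDeriv j (X ^ Q)`,
and `hasseDeriv j (X ^ Q) = choose Q j * X ^ (Q - j)` (`hasseDeriv_monomial`) is `0` for
`0 < j ≤ n < Q`, as `p ∣ choose (p ^ e) j` (`Nat.Prime.dvd_choose_pow`). So
`hasseDeriv n (h * X ^ Q) = hasseDeriv n h * X ^ Q`; induction on `j` for `X ^ (j * Q)`.
(2) Induction on `N` (for all `n`; `N = 0` gives `n = 0`, trivial). If `n ≤ N + 1`: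
`hasseDeriv n (f * (f ^ N * h)) = ∑_{i + j = n} hasseDeriv i f * hasseDeriv j (f ^ N * h)`. For
`i = 0` the summand is `f * hasseDeriv n (f ^ N * h)`; if `n ≤ N` it is divisible by
`f * f ^ (N - n) = f ^ (N + 1 - n)`, and if `n = N + 1` there is nothing to show. For `i ≥ 1`,
`j = n - i ≤ N` and `f ^ (N - j)` divides the summand, `N - j ≥ N + 1 - n`.
(3) `(taylor x r).coeff n = (hasseDeriv n r).eval x` (`taylor_coeff`) vanishes for `n < ℓ`, so
`X ^ ℓ ∣ taylor x r` (`X_pow_dvd_iff`); apply `taylor (- x)`, a ring automorphism inverse to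
`taylor x`, which maps `X` to `X - C x`.
(4) The `(X - C x) ^ ℓ`, `x ∈ S`, are pairwise coprime, so their product, of degree `|S| * ℓ`,
divides `r ≠ 0` (`Finset.prod_dvd_of_coprime`, `pairwise_coprime_X_sub_C`, `IsCoprime.pow`,
`natDegree_le_of_dvd`). -/
def StmtPeHas : Prop :=
  ∀ (k : Type u) [Field k] [Finite k],
    (∀ (h : k[X]) (j n : ℕ), n < Nat.card k →
      hasseDeriv n (h * X ^ (j * Nat.card k)) = hasseDeriv n h * X ^ (j * Nat.card k)) ∧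
    (∀ (f h : k[X]) (N n : ℕ), n ≤ N → f ^ (N - n) ∣ hasseDeriv n (f ^ N * h)) ∧
    (∀ (r : k[X]) (x : k) (ℓ : ℕ), (∀ n, n < ℓ → (hasseDeriv n r).eval x = 0) →
      (X - C x) ^ ℓ ∣ r) ∧
    ∀ (r : k[X]) (S : Finset k) (ℓ : ℕ), r ≠ 0 → (∀ x ∈ S, (X - C x) ^ ℓ ∣ r) →
      S.card * ℓ ≤ r.natDegree

/-- **PeNon** (the auxiliary polynomial is not zero; 150 lines). `c = (Q - 1) / 2`.

Proof. Suppose that not all of the `r j`, `s j`, `j < J`, are `0`; let `j₀` be the smallest `j` such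
that `r j ≠ 0` or `s j ≠ 0`. Then the sum is `X ^ (j₀ Q) * (H₀ + H₁ * f ^ c)` with
`H₀ = r j₀ + X ^ Q * G₀`, `H₁ = s j₀ + X ^ Q * G₁`, so `H₀ + H₁ * f ^ c = 0`. Hence
`f * H₀ ^ 2 = f * (f ^ c) ^ 2 * H₁ ^ 2 = f ^ Q * H₁ ^ 2` (`2 c + 1 = Q`), and
`f ^ Q = expand k Q f` (`FiniteField.expand_card`), which is `C (f.coeff 0) + X ^ Q * G₂` (write
`f = C (f.coeff 0) + X * f'`, `divX`). So `X ^ Q` divides
`T = f * r j₀ ^ 2 - C (f.coeff 0) * s j₀ ^ 2`; the degree of `T` is at most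
`m + 2 (A - 1) < Q` (`A ≥ 1`, since one of `r j₀`, `s j₀` is not `0`), so `T = 0`
(`eq_zero_of_dvd_of_natDegree_lt` or the version with `degree`). If `r j₀ = 0`, then
`s j₀ ^ 2 = 0` as `f.coeff 0 = f.eval 0 ≠ 0`: contradiction. So `r j₀ ≠ 0` and
`r j₀ ^ 2 ∣ C (f.coeff 0) * s j₀ ^ 2`, `r j₀ ^ 2 ∣ s j₀ ^ 2`, `r j₀ ∣ s j₀`
(`pow_dvd_pow_iff`), `s j₀ = r j₀ * u` and `f = C (f.coeff 0) * u ^ 2`, against the hypothesis. -/
def StmtPeNon : Prop :=
  ∀ (k : Type u) [Field k] [Finite k] (c : ℕ) (_ : 2 * c + 1 = Nat.card k) (f : k[X])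
    (_ : ∀ (x : k) (g : k[X]), f ≠ C x * g ^ 2) (_ : f.eval 0 ≠ 0) (A J : ℕ)
    (_ : 2 * A + f.natDegree ≤ Nat.card k + 1) (r s : ℕ → k[X])
    (_ : ∀ j, j < J → (r j).degree < A ∧ (s j).degree < A)
    (_ : ∑ j ∈ Finset.range J, (r j + s j * f ^ c) * X ^ (j * Nat.card k) = 0),
    ∀ j, j < J → r j = 0 ∧ s j = 0

open Classical in
/-- **PeSte** (the auxiliary polynomial; 300 lines; uses `StmtPeHas`, `StmtPeNon`).

Proof. `m = f.natDegree`. Let `E = Fin J → degreeLT k A × degreeLT k A`, of dimension `2 A J`, with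
elements `(r, s)`. For `n < ℓ` and `(r, s) ∈ E` let
`P n (r, s) = ∑_j X ^ j * (f ^ c * hasseDeriv n (f ^ ℓ * r j) + C x * hasseDeriv n (f ^ (ℓ + c) * s j))`,
linear in `(r, s)`. (i) By `StmtPeHas` (2), `f ^ (ℓ + c - n)` divides `P n (r, s)`, and
`natDegree (hasseDeriv n h) ≤ natDegree h - n`, so `P n (r, s) = f ^ (ℓ + c - n) * σ` with
`natDegree σ ≤ (J - 1) + (c + ℓ) m + (A - 1) - n - (ℓ + c - n) m < A + ℓ m + J` (`f` monic; if the
product is `0` take `σ = 0`): `P n (r, s)` is in the submodule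
`(degreeLT k (A + ℓ m + J)).map (LinearMap.mulLeft k (f ^ (ℓ + c - n)))` of dimension
`≤ A + ℓ m + J`. As `ℓ (A + ℓ m + J) < 2 A J`, the linear map `E → Π n < ℓ, (submodule n)` is not
injective (`LinearMap.exists_ne_zero...`: `LinearMap.ker_ne_bot_of_finrank_lt`); take `(r, s) ≠ 0`
with `P n (r, s) = 0` for all `n < ℓ`.
(ii) `R = f ^ ℓ * ∑_j (r j + s j * f ^ c) * X ^ (j Q)` is not `0` by `StmtPeNon`. (iii) Let
`y` be such that `f.eval y ^ c = x`. For `n < ℓ ≤ Q`, by `StmtPeHas` (1) and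
`y ^ (j Q) = y ^ j` (`FiniteField.pow_card`),
`(hasseDeriv n R).eval y = ∑_j ((hasseDeriv n (f ^ ℓ * r j)).eval y +
(hasseDeriv n (f ^ (ℓ + c) * s j)).eval y) * y ^ j`, and `x` times this is `(P n (r, s)).eval y = 0`
(`f ^ c` has the value `x` at `y`). So it is `0` (`x ≠ 0`), and by `StmtPeHas` (3), (4) the number of
these `y` times `ℓ` is at most `R.natDegree ≤ ℓ m + (A - 1) + c m + (J - 1) Q`. -/
def StmtPeSte : Prop :=
  ∀ (k : Type u) [Field k] [Fintype k] (c : ℕ) (_ : 2 * c + 1 = Nat.card k) (f : k[X])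
    (_ : f.Monic) (_ : ∀ (x : k) (g : k[X]), f ≠ C x * g ^ 2) (_ : f.eval 0 ≠ 0) (A J ℓ : ℕ)
    (_ : 2 * A + f.natDegree ≤ Nat.card k + 1) (_ : 1 ≤ ℓ) (_ : ℓ ≤ Nat.card k)
    (_ : ℓ * (A + ℓ * f.natDegree + J) < 2 * A * J) (x : k) (_ : x ≠ 0),
    (Finset.univ.filter fun y : k => f.eval y ^ c = x).card * ℓ ≤
      ℓ * f.natDegree + A + c * f.natDegree + J * Nat.card k

open Classical in
/-- **PeChr** (quadratic character sums; 200 lines; uses `StmtPeSte`).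

Proof. `m = f.natDegree`, `s = Nat.sqrt Q ≥ 4`, `s ^ 2 ≤ Q ≤ s ^ 2 + 2 s`. `f` has at most
`m < Q` roots, so `f.eval z ≠ 0` for some `z`; replace `f` by `f.comp (X + C z)` (monic, the same
degree, not a constant times a square, value `f.eval z ≠ 0` at `0`): the sum does not change
(`y ↦ y + z`). So assume `f.eval 0 ≠ 0`. Apply `StmtPeSte` with `ℓ = s`, `A = (Q - m) / 2`,
`J = s / 2 + 2 m + 1` (natural number divisions), `x = 1` and `x = - 1`. Hypotheses: `2 A ≤ Q - m`;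
`2 A ≥ Q - m - 1`, `2 J ≥ s + 4 m + 1`, so
`2 (2 A J - s A) ≥ (Q - m - 1) (4 m + 1) = 4 Q m + Q - (m + 1) (4 m + 1) ≥ 4 Q m + Q - 10 m ^ 2`, and
`2 s J ≤ s ^ 2 + (4 m + 2) s ≤ Q + 6 m s`, `2 s ^ 2 m ≤ 2 Q m`; what is needed is
`2 Q m > 10 m ^ 2 + 6 m s`, i.e. `Q > 5 m + 3 s`, which holds as `5 m < Q / 4` and `3 s ≤ 3 Q / 4`
(`4 s ≤ s ^ 2 ≤ Q`). Let `N₁` be the number of the `y` with `f.eval y ^ c = 1` and `N₂` of those with
value `- 1`. Twice the bound: `2 N s ≤ 2 s m + (Q - m) + (Q - 1) m + (s + 4 m + 2) Q ≤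
s Q + 2 s m + 8 m Q` for `N = N₁, N₂` (`3 Q ≤ 3 m Q`), and
`8 m Q ≤ 8 m s (s + 2) ≤ 12 m s ^ 2`, so `2 N ≤ Q + 2 m + 12 m s`. Now
`quadraticChar k (f.eval y)` is `1` if `f.eval y ^ c = 1`, `- 1` if `f.eval y ^ c = - 1`, and `0` if
`f.eval y = 0` (`quadraticChar_eq_pow_of_char_ne_two'`), so the sum is `N₁ - N₂`, and
`N₁ + N₂ ≥ Q - m`. So `|N₁ - N₂| ≤ 2 max - (Q - m) ≤ 3 m + 12 m s ≤ 15 m s`. -/
def StmtPeChr : Prop :=
  ∀ (k : Type u) [Field k] [Fintype k] [DecidableEq k] (_ : Odd (Nat.card k)) (f : k[X])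
    (_ : f.Monic) (_ : 1 ≤ f.natDegree) (_ : ∀ (x : k) (g : k[X]), f ≠ C x * g ^ 2)
    (_ : 20 * f.natDegree < Nat.card k) (_ : 16 ≤ Nat.card k),
    |∑ y : k, quadraticChar k (f.eval y)| ≤ ((15 * f.natDegree * Nat.sqrt (Nat.card k) : ℕ) : ℤ)

/-! ### The sums over prime powers -/

/-- The quadratic character of the family `pr`, times a character of the degree. -/
noncomputable def phE {F : Type u} [Field F] {ι : Type} [Fintype ι] (χ : F → ZMod 2)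
    (pr : ι → F[X]) (κ : ZMod 2) (h : F[X]) : ℂ :=
  ZMod.stdAddChar κ ^ h.natDegree * ∏ b, lgc χ 1 (pr b) h

open Classical in
/-- **PeExt** (the sum over the prime powers is a sum over a finite field; 300 lines; uses
`StmtSuSy`, `StmtSuPsi`). `K` is the extension of `F` of degree `k`.

Proof. (i) A nonzero `z ∈ K` is a square iff its norm in `F` is a square, i.e. iff
`χ (Algebra.norm F z) = 0` (`IsLg.ker`; this is in the proof of `StmtSuSy` and in TwSy.lean,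
TwRec.lean: `q` is odd as `2 ∣ q - 1`; `FiniteField.isSquare_iff`,
`FiniteField.algebraMap_norm_eq_pow`). So `quadraticChar K z = ψ (χ (norm z))` in `ℂ`, where
`ψ 0 = 1`, `ψ 1 = - 1`. (ii) Let `x ∈ K`, `P = minpoly F x`, MI of degree `d`, `d ∣ k`. For every
`b`: if `P = pr b` then `aeval x (pr b) = 0` and `lgc χ 1 (pr b) P = 0`. If `P ≠ pr b`, then
`aeval x (pr b) ≠ 0`, its norm from `F(x)` is `nm P (pr b)` (`AdjoinRoot P` is isomorphic to
`F(x)`, the root goes to `x`), so its norm from `K` is `nm P (pr b) ^ (k / d)`, and by (i)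
`quadraticChar K (aeval x (pr b)) = ψ (χ (nm P (pr b))) ^ (k / d)`. By `Rcp χ` and `StmtSuSy`
(`P ∤ pr b`, `pr b ∤ P`) `χ (nm P (pr b)) = syl χ P (pr b) = syl χ (pr b) P = χ (nm (pr b) P)`, so this
is `lgc χ 1 (pr b) P ^ (k / d)`. As `(ψ κ ^ d) ^ (k / d) = ψ κ ^ k`:
`phE χ pr κ P ^ (k / d) = ψ κ ^ k * quadraticChar K (aeval x (∏ b, pr b))` for `P = minpoly F x`.
(iii) Sort the `x ∈ K` by `P = minpoly F x`: for every `d ∣ k` and `P ∈ irr F d` exactly `d` of the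
`x` have minimal polynomial `P`: at most `d` (they are roots of `P`), and the sum of these numbers
over all `d ∣ k`, `P ∈ irr F d` is `|K| = q ^ k = ∑_{d ∣ k} d * |irr F d|` (`StmtSuPsi`, second
claim), so there is equality everywhere. (The degree of `minpoly F x` divides
`Module.finrank F K = k`.) -/
def StmtPeExt : Prop :=
  ∀ (F : Type u) [Field F] [Finite F] (_ : 2 ∣ Nat.card F - 1) (χ : F → ZMod 2) (_ : IsLg 2 χ)
    (_ : Rcp χ) (ι : Type) [Fintype ι] (pr : ι → F[X]) (_ : Fam pr) (κ : ZMod 2) (K : Type)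
    [Field K] [Fintype K] [DecidableEq K] [Algebra F K] (k : ℕ) (_ : 1 ≤ k)
    (_ : Module.finrank F K = k),
    psiC (phE χ pr κ) k =
      ZMod.stdAddChar κ ^ k * ((∑ x : K, quadraticChar K (aeval x (∏ b, pr b)) : ℤ) : ℂ)

/-- **PeWei** (the bound for the logarithmic derivative; 150 lines; uses `StmtSuSy`, `StmtSuPsi`,
`StmtPeChr.{0}`, `StmtPeExt`).

Proof. `f = ∏ b, pr b`, `m = f.natDegree = ∑ b, deg (pr b) ≥ 1`, `m < D`. For `k ≥ 1` let
`K = FiniteField.Extension F p k` (Mathlib, FieldTheory/Finite/Extension.lean; `p` the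
characteristic), `|K| = q ^ k`, odd. `f` is separable (the `pr b` are irreducible over a perfect
field and pairwise coprime), so its image `f'` in `K[X]` is separable, hence squarefree, of degree
`m ≥ 1`; if `f' = C x * g ^ 2`, then `g` is a unit by squarefreeness and the degree is `0`: a
contradiction. By `StmtPeExt` and `StmtPeChr` for `f'`: if `20 m < q ^ k` and `16 ≤ q ^ k`, then
`‖psiC φ k‖ ≤ 15 m √(q ^ k)`, so `‖psiC φ k‖ / q ^ k ≤ 15 m / √(q ^ k) ≤ 15 m / 2 ^ k` (`q ≥ 4`).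
For the other `k` the quotient is at most `1`: third claim of `StmtSuPsi` (`phE χ pr κ` satisfies
`IsChL 2`: `nm` is multiplicative, `χ` additive; degrees add). These `k` satisfy `q ^ k ≤ 20 m`, and
there are at most `20 m` of them (`k < 2 ^ k ≤ q ^ k`), or `q ^ k < 16`, which leaves only `k = 1`.
Total: `20 m + 1 + 15 m ≤ 36 m ≤ 40 D ^ 2`. -/
def StmtPeWei : Prop :=
  ∀ (F : Type u) [Field F] [Finite F] (_ : 4 ≤ Nat.card F) (_ : 2 ∣ Nat.card F - 1)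
    (χ : F → ZMod 2) (_ : IsLg 2 χ) (_ : Rcp χ) (ι : Type) [Fintype ι] [Nonempty ι]
    (pr : ι → F[X]) (_ : Fam pr) (κ : ZMod 2) (D : ℕ) (_ : ∑ b, (pr b).natDegree < D) (J : ℕ),
    ∑ k ∈ Finset.Icc 1 J, ‖psiC (phE χ pr κ) k‖ / (Nat.card F : ℝ) ^ k ≤ 40 * (D : ℝ) ^ 2

/-! ### Copies of the modules of PpStmt.lean for `ℓ = 2` -/

/-- **PeInn** (a nontrivial character; 300 lines; uses `StmtSuSy`, `StmtPeWei`, `StmtPpIn`; copy
PpInn.lean with `ℓ = 2`).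

Proof. As for `StmtPpInn` (read it): for fixed `p` the sum over `x` is bounded by `StmtPpIn` for
`φ = phE χ pr' κ`, `κ = αi w₀`, where `pr'` is the family of the primes `pr v`, `α v w₀ ≠ 0`, and
`Q ∈ p w`, `c w = B w₀ w + B w w₀ ≠ 0` (index type `Fin k`; injective, since otherwise `wgt = 0`;
nonempty by the last hypothesis); the nonzero exponents are `1` in `ZMod 2`. The total degree of
`pr'` is `< D = ∑_v deg (pr v) + |U| * τ + 1`, so `StmtPeWei` gives `Y = 40 D ^ 2`. -/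
def StmtPeInn : Prop :=
  ∀ (F : Type u) [Field F] [Finite F] (_ : 4 ≤ Nat.card F)
    (_ : 2 ∣ Nat.card F - 1) (χ : F → ZMod 2) (_ : IsLg 2 χ) (_ : Rcp χ) (V U : Type)
    [Fintype V] [Fintype U] [DecidableEq U] (pr : V → F[X]) (_ : Fam pr) (α : V → U → ZMod 2)
    (αi : U → ZMod 2) (B : U → U → ZMod 2) (N : ℕ) (_ : 1 ≤ N) (_ : ∀ w, B w w = 0)
    (ν : U → ℕ) (w₀ : U) (τ : ℕ) (_ : 1 ≤ ν w₀) (_ : ∀ w, B w₀ w + B w w₀ ≠ 0 → ν w ≤ τ)
    (_ : (∃ v, α v w₀ ≠ 0) ∨ ∃ w, B w₀ w + B w w₀ ≠ 0 ∧ 1 ≤ ν w),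
    ‖Tnu χ pr α αi B N ν‖ ≤ (∏ w ∈ Finset.univ.erase w₀, GG F (1 / N : ℝ) (ν w)) *
      (160 * (Nat.card F : ℝ) ^ ν w₀ *
        (((∑ v, (pr v).natDegree + Fintype.card U * τ + 1 : ℕ) : ℝ) ^ 2 +
          (Nat.log 2 (∑ v, (pr v).natDegree + ∑ w, ν w + 2) : ℝ)) / (ν w₀ : ℝ))

open Classical in
/-- **PeEB** (uses `StmtPpRec`, `StmtPpSB`, `StmtPeInn`; copy PpEB.lean with `ℓ = 2`). -/
def StmtPeEB : Prop :=
  ∀ (F : Type u) [Field F] [Finite F] (_ : 4 ≤ Nat.card F)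
    (_ : 2 ∣ Nat.card F - 1) (χ : F → ZMod 2) (_ : IsLg 2 χ) (_ : Rcp χ) (V U : Type)
    [Fintype V] [Fintype U] [DecidableEq U] (pr : V → F[X]) (_ : Fam pr) (α : V → U → ZMod 2)
    (αi : U → ZMod 2) (B : U → U → ZMod 2) (N : ℕ) (_ : Unl B N) (n : ℕ) (_ : 1 ≤ n)
    (_ : 2 * (Fintype.card U * thr U n) ≤ n) (𝓥 : Finset U) (_ : 𝓥.card = N)
    (_ : ∀ w ∈ 𝓥, ∀ w' ∈ 𝓥, B w w' + B w' w = 0),
    ∑ ν ∈ ((Finset.univ : Finset U).piAntidiag n).filter (fun ν : U → ℕ =>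
        (∀ w, (thr U n ≤ ν w ↔ w ∈ 𝓥)) ∧
          ((∃ w ∈ 𝓥, ∃ v, α v w ≠ 0) ∨ ∃ w, w ∉ 𝓥 ∧ 1 ≤ ν w)),
      ‖Tnu χ pr α αi B N ν‖ ≤ (Nat.card F : ℝ) ^ n * (N * (160 *
        (((∑ v, (pr v).natDegree + Fintype.card U * thr U n + 1 : ℕ) : ℝ) ^ 2 +
          (Nat.log 2 (∑ v, (pr v).natDegree + n + 2) : ℝ)) *
        (((thr U n : ℝ) + 1) ^ Fintype.card U *
          (((n : ℝ) / 4) ^ (-(1 / N : ℝ)) * (6 + Real.log n)))))

open Classical in
/-- **PeErr** (uses `StmtPpRec`, `StmtPpSA`, `StmtPpLim`, `StmtPpTri`, `StmtPpEA`, `StmtPeEB`; copy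
PpErr.lean with `ℓ = 2`). -/
def StmtPeErr : Prop :=
  ∀ (F : Type u) [Field F] [Finite F] (_ : 4 ≤ Nat.card F)
    (_ : 2 ∣ Nat.card F - 1) (χ : F → ZMod 2) (_ : IsLg 2 χ) (_ : Rcp χ) (V U : Type)
    [Fintype V] [Fintype U] [DecidableEq U] (pr : V → F[X]) (_ : Fam pr) (α : V → U → ZMod 2)
    (αi : U → ZMod 2) (B : U → U → ZMod 2) (N : ℕ) (_ : Unl B N) (ε : ℝ) (_ : 0 < ε),
    ∃ n₀ : ℕ, ∀ n : ℕ, n₀ ≤ n → ‖TT χ pr α αi B N n -
      ∑ 𝓥 ∈ (Finset.univ : Finset (Finset U)).filter (fun 𝓥 => 𝓥.card = N ∧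
        (∀ w ∈ 𝓥, ∀ w' ∈ 𝓥, B w w' + B w' w = 0) ∧ ∀ w ∈ 𝓥, ∀ v, α v w = 0),
        ∑ ν ∈ 𝓥.piAntidiag n, Tnu χ pr α αi B N ν‖ ≤ ε * (Nat.card F : ℝ) ^ n

open Classical in
/-- **PeAn** (the asymptotic formula; uses `StmtPeErr`, `StmtPpFul`, `StmtPpHal`; copy PpAn.lean with
`ℓ = 2`). -/
def StmtPeAn : Prop :=
  ∀ (F : Type u) [Field F] [Finite F] (_ : 4 ≤ Nat.card F)
    (_ : 2 ∣ Nat.card F - 1) (χ : F → ZMod 2) (_ : IsLg 2 χ) (_ : Rcp χ) (V U : Type)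
    [Fintype V] [Fintype U] [DecidableEq U] (pr : V → F[X]) (_ : Fam pr) (α : V → U → ZMod 2)
    (αi : U → ZMod 2) (B : U → U → ZMod 2) (N : ℕ) (_ : Unl B N) (ε : ℝ) (_ : 0 < ε),
    ∃ n₀ : ℕ, ∀ n : ℕ, n₀ ≤ n → ‖TT χ pr α αi B N n -
      (∑ 𝓥 ∈ (Finset.univ : Finset (Finset U)).filter (Adm B N α αi),
        (N : ℂ)⁻¹ * ∑ w ∈ 𝓥, ZMod.stdAddChar (αi w * (n : ZMod 2))) * ((gs F pr n).card : ℂ)‖ ≤
      ε * (Nat.card F : ℝ) ^ n

end MP72e2e6
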