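import Pool.Agent.Lib.MP_72e2e6_nt.PeStmt

/-!
# MP_72e2e6_nt: positive proportion of quadratic twists, algebraic part

See PeStmt.lean for the conventions. `N = |W|`; the dual of `W` also has `N` elements.
-/

namespace MP72e2e6

open Polynomial IsDedekindDomain

universe u

/-! ### Definitions -/

/-- The alternating forms for which the operators are self-adjoint. -/
def Sa {V W : Type} [AddCommGroup W] [Module (ZMod 2) W] (σ : V → Module.End (ZMod 2) W)
    (Λ : Module.End (ZMod 2) W) : Submodule (ZMod 2) (W →ₗ[ZMod 2] Module.Dual (ZMod 2) W) where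
  carrier := {g | (∀ x, g x x = 0) ∧ (∀ v x y, g x (σ v y) = g (σ v x) y) ∧
    ∀ x y, g x (Λ y) = g (Λ x) y}
  add_mem' := by
    rintro g h ⟨g1, g2, g3⟩ ⟨h1, h2, h3⟩
    refine ⟨fun x => ?_, fun v x y => ?_, fun x y => ?_⟩
    · rw [LinearMap.add_apply, LinearMap.add_apply, g1, h1, add_zero]
    · rw [LinearMap.add_apply, LinearMap.add_apply, g2, h2, LinearMap.add_apply,
        LinearMap.add_apply]
    · rw [LinearMap.add_apply, LinearMap.add_apply, g3, h3, LinearMap.add_apply,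
        LinearMap.add_apply]
  zero_mem' := ⟨fun _ => rfl, fun _ _ _ => rfl, fun _ _ => rfl⟩
  smul_mem' := by
    rintro r g ⟨g1, g2, g3⟩
    refine ⟨fun x => ?_, fun v x y => ?_, fun x y => ?_⟩
    · rw [LinearMap.smul_apply, LinearMap.smul_apply, g1, smul_zero]
    · rw [LinearMap.smul_apply, LinearMap.smul_apply, g2, LinearMap.smul_apply,
        LinearMap.smul_apply]
    · rw [LinearMap.smul_apply, LinearMap.smul_apply, g3, LinearMap.smul_apply,
        LinearMap.smul_apply]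

/-- The hypotheses on the operators: transvections `σ v`, self-adjoint `Λ`. -/
structure HypE {F : Type u} [Field F] {V W : Type} [Fintype V] [AddCommGroup W]
    [Module (ZMod 2) W] (χ : F → ZMod 2) (pr : V → F[X]) (σ : V → Module.End (ZMod 2) W)
    (Λ : Module.End (ZMod 2) W) (f : W →ₗ[ZMod 2] Module.Dual (ZMod 2) W) (ν : V → W)
    (h : W) : Prop where
  alt : ∀ x, f x x = 0
  nondeg : ∀ x, (∀ y, f x y = 0) → x = 0
  trans : ∀ v y, σ v y = y + f (ν v) y • ν v
  self : ∀ x y, f x (Λ y) = f (Λ x) y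
  diag : ∀ x, f x (Λ x) = f h x
  com : ∀ v, ∃ μ : ZMod 2, ∑ v', syl χ (pr v) (pr v') • σ v' (ν v) +
    ((pr v).natDegree : ZMod 2) • Λ (ν v) = μ • ν v
  deg : ∑ v, ((pr v).natDegree : ZMod 2) • ν v = 0

/-- The vectors with sum zero: the space of the torsion classes. -/
def Ev (m : ℕ) : Submodule (ZMod 2) (Fin m → ZMod 2) where
  carrier := {c | ∑ i, c i = 0}
  add_mem' := by
    intro x y hx hy
    simp only [Set.mem_ofPred_eq, Pi.add_apply, Finset.sum_add_distrib] at *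
    rw [hx, hy, add_zero]
  zero_mem' := by simp
  smul_mem' := by
    intro t x hx
    simp only [Set.mem_ofPred_eq, Pi.smul_apply, smul_eq_mul] at *
    rw [← Finset.mul_sum, hx, mul_zero]

/-- The scalar product on `Ev m`. -/
def ipE (m : ℕ) : Ev m →ₗ[ZMod 2] Module.Dual (ZMod 2) (Ev m) :=
  LinearMap.mk₂ (ZMod 2) (fun x y => ip (x : Fin m → ZMod 2) (y : Fin m → ZMod 2))
    (fun x y z => by simp [ip, add_mul, Finset.sum_add_distrib])
    (fun t x z => by simp [ip, mul_assoc, Finset.mul_sum])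
    (fun x y z => by simp [ip, mul_add, Finset.sum_add_distrib])
    (fun t x z => by simp [ip, mul_left_comm, Finset.mul_sum])

/-- The transvection `y ↦ y + ⟨ν, y⟩ ν`. -/
def trE {m : ℕ} (ν : Ev m) : Module.End (ZMod 2) (Ev m) :=
  LinearMap.id + (LinearMap.toSpanSingleton (ZMod 2) (Ev m) ν).comp (ipE m ν)

theorem trE_apply {m : ℕ} (ν y : Ev m) : trE ν y = y + ipE m ν y • ν := rfl

theorem ipE_apply {m : ℕ} (x y : Ev m) :
    ipE m x y = ip (x : Fin m → ZMod 2) (y : Fin m → ZMod 2) := rfl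

open Classical in
/-- The vector of a prime, as an element of `Ev m`. -/
noncomputable def nuE {F : Type u} [Field F] {m : ℕ} (P : F[X]) (a : Fin m → F[X]) : Ev m :=
  if h : nu P a ∈ Ev m then ⟨nu P a, h⟩ else 0

/-- The operator `c ↦ (∑ k, (c i + c k) e i k)_i` for a symmetric matrix `e`. -/
def lapE {m : ℕ} (e : Fin m → Fin m → ZMod 2) (he : ∀ i k, e i k = e k i) :
    Module.End (ZMod 2) (Ev m) where
  toFun c := ⟨fun i => ∑ k, ((c : Fin m → ZMod 2) i + (c : Fin m → ZMod 2) k) * e i k, by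
    change ∑ i, ∑ k, ((c : Fin m → ZMod 2) i + (c : Fin m → ZMod 2) k) * e i k = 0
    have h1 : ∑ i, ∑ k, ((c : Fin m → ZMod 2) i + (c : Fin m → ZMod 2) k) * e i k =
        ∑ i, ∑ k, (c : Fin m → ZMod 2) i * e i k + ∑ i, ∑ k, (c : Fin m → ZMod 2) k * e i k := by
      simp only [add_mul, Finset.sum_add_distrib]
    have h2 : ∑ i, ∑ k, (c : Fin m → ZMod 2) k * e i k =
        ∑ i, ∑ k, (c : Fin m → ZMod 2) i * e i k := by
      rw [Finset.sum_comm]
      exact Finset.sum_congr rfl fun i _ => Finset.sum_congr rfl fun k _ => by rw [he]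
    rw [h1, h2]
    exact CharTwo.add_self_eq_zero _⟩
  map_add' x y := by
    ext i
    simp only [Submodule.coe_add, Pi.add_apply]
    rw [← Finset.sum_add_distrib]
    exact Finset.sum_congr rfl fun k _ => by ring
  map_smul' t x := by
    ext i
    simp only [Submodule.coe_smul, Pi.smul_apply, smul_eq_mul, RingHom.id_apply]
    rw [Finset.mul_sum]
    exact Finset.sum_congr rfl fun k _ => by ring

open Classical in
/-- The operator of the leading coefficients. -/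
noncomputable def laE {F : Type u} [Field F] {m : ℕ} (a : Fin m → F[X]) :
    Module.End (ZMod 2) (Ev m) :=
  if h : ∀ i k, cs (a i - a k).leadingCoeff = cs (a k - a i).leadingCoeff then
    lapE (fun i k => cs (a i - a k).leadingCoeff) h
  else 0

/-! ### The main term -/

open Classical in
/-- **PeMT** (the main term; 400 lines; uses `StmtPpTS`; parts (i) and (ii) are the ones of PpMT).

Proof. `N = |W|`, `ψ = stdAddChar`. Let `(c, d, η)` and `𝓥` be given with `Adm`, `u₀ = (c₀, d₀) ∈ 𝓥`,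
`L` from `StmtPpTS`, `A = pr₁ L ≤ W`. (i), (ii): exactly as in the proof of `StmtPpMT` (they do not
use `ℓ ≠ 2`): `A = ⊥` or `A = ⊤`, and the part of the sum with `A = ⊥` is `N ^ (|V| + 1)`.
(iii) Case `A = ⊤`: `|L| = N = |W|`, so `L = {(x, g x)}` for a linear `g : W → Dual W`, with
`g x x = 0` (so `g x y = g y x`), and `𝓥 = {(x, d₀ + g x) | x ∈ W}` for a unique `d₀`. `alW v = 0` at
`x = c v + y` says `d v y = (d₀ + g (c v)) (σ v y) + g y (σ v y)` for all `y` (signs do not matter in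
`ZMod 2`). So `y ↦ g y (σ v y)` is additive, hence `g x (σ v y) + g y (σ v x) = 0`, i.e.
`g x (σ v y) = g y (σ v x) = g (σ v x) y`, and `d v` is determined by `g`, `d₀`, `c v`. `aiW` is constant
on `𝓥`, `0` at `x = 0`: `η x = d₀ (Λ x) + g x (Λ x)`, so in the same way `g x (Λ y) = g (Λ x) y` and `η`
is determined by `g`, `d₀`. So `g ∈ Sa σ Λ`, and `(c, d, η, 𝓥)` is determined by `(g, d₀, c)`: there are
at most `|Sa| * N * N ^ |V|` such quadruples, and every term has norm `≤ 1` (`|𝓥| = N`). -/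
def StmtPeMT : Prop :=
  ∀ (F : Type u) [Field F] (V W : Type) [Fintype V]
    [AddCommGroup W] [Module (ZMod 2) W] [Fintype W] [Fintype (Module.Dual (ZMod 2) W)]
    (χ : F → ZMod 2) (pr : V → F[X]) (σ : V → Module.End (ZMod 2) W)
    (Λ : Module.End (ZMod 2) W) (_ : IrrW σ Λ) (_ : ∀ v y, σ v y = 0 → y = 0) (n : ℕ)
    (_ : InfW pr σ n),
    ‖∑ c : V → W, ∑ d : V → Module.Dual (ZMod 2) W, ∑ η : Module.Dual (ZMod 2) W,
      ZMod.stdAddChar (thW χ pr σ Λ c d η) *
        ∑ 𝓥 ∈ (Finset.univ : Finset (Finset (W × Module.Dual (ZMod 2) W))).filter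
            (Adm BW (Fintype.card W) (alW σ c d) (aiW Λ η)),
          ((Fintype.card W : ℂ)⁻¹ *
            ∑ w ∈ 𝓥, ZMod.stdAddChar (aiW Λ η w * (n : ZMod 2)))‖ ≤
      (Fintype.card W : ℝ) ^ (Fintype.card V + 1) * (1 + Nat.card (Sa σ Λ))

/-! ### The number of solutions -/

open Classical in
/-- **PeFou** (the number of solutions as an exponential sum; uses `StmtSuSy`; copy PpFou.lean with
`ℓ = 2`, and with the hypothesis `Rcp χ` instead of `StmtSuRec`; the hypothesis `IsLg 2 χ` is there to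
have the same arguments). -/
def StmtPeFou : Prop :=
  ∀ (F : Type u) [Field F] [Finite F] (_ : 2 ∣ Nat.card F - 1) (χ : F → ZMod 2) (_ : IsLg 2 χ)
    (_ : Rcp χ) (V W : Type) [Fintype V]
    [AddCommGroup W] [Module (ZMod 2) W] [Fintype W] [Fintype (Module.Dual (ZMod 2) W)]
    (pr : V → F[X]) (_ : Fam pr) (σ : V → Module.End (ZMod 2) W) (Λ : Module.End (ZMod 2) W)
    (n : ℕ) (t : Finset F[X]) (_ : t ∈ gs F pr n),
    (nSol χ pr σ Λ t : ℂ) * (Fintype.card W : ℂ) ^ (Fintype.card V + 1) =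
      ∑ c : V → W, ∑ d : V → Module.Dual (ZMod 2) W, ∑ η : Module.Dual (ZMod 2) W,
        ZMod.stdAddChar (thW χ pr σ Λ c d η) *
          ∑ g : t → W × Module.Dual (ZMod 2) W,
            wgt χ pr (alW σ c d) (aiW Λ η) BW (Fintype.card W) (fib t g)

open Classical in
/-- **PeFM** (the first moment; 120 lines; uses `StmtPpTS`, `StmtPpCol`, `StmtPeAn`, `StmtPeMT`,
`StmtPeFou`; copy PpFM.lean with `ℓ = 2`; `Rcp χ` is a hypothesis). -/
def StmtPeFM : Prop :=
  ∀ (F : Type u) [Field F] [Finite F] (_ : 4 ≤ Nat.card F) (_ : 2 ∣ Nat.card F - 1)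
    (χ : F → ZMod 2) (_ : IsLg 2 χ) (_ : Rcp χ) (V W : Type) [Fintype V]
    [AddCommGroup W] [Module (ZMod 2) W] [Finite W] (pr : V → F[X]) (_ : Fam pr)
    (σ : V → Module.End (ZMod 2) W) (Λ : Module.End (ZMod 2) W) (_ : IrrW σ Λ)
    (_ : ∀ v y, σ v y = 0 → y = 0) (ε : ℝ) (_ : 0 < ε),
    ∃ n₀ : ℕ, ∀ n : ℕ, n₀ ≤ n → InfW pr σ n →
      ∑ t ∈ gs F pr n, (nSol χ pr σ Λ t : ℝ) ≤
        (1 + Nat.card (Sa σ Λ)) * ((gs F pr n).card : ℝ) + ε * (Nat.card F : ℝ) ^ n

/-! ### Parity -/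

/-- **PeFrm** (the form on the unknowns; 350 lines; uses `StmtPpEvn.{0}` and `StmtPpEvn.{u}`; model:
PpFrm.lean). Everything is in characteristic two: signs do not matter, `s ^ 2 = s` for `s ∈ ZMod 2`.

Proof. Write `M β = ∑ β', l β β' • σ β' + D β • Λ`. If `W` is trivial, `a = 0`. Otherwise some
`D β₀ ≠ 0` (last hypothesis), so `D β₀ = 1`.
(1) `f x y = f y x` (`f (x + y) (x + y) = 0`). `σ β` is self-adjoint
(`f x (σ β y) = f x y + f (ν β) y * f x (ν β)`), an involution (`f (ν β) (ν β) = 0`), and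
`σ β (ν β) = ν β`. `M β` is self-adjoint. `M β (ν β) = μ β • ν β`, so `M β` commutes with `σ β`:
`M β (σ β y) = M β y + (f (ν β) y * μ β) • ν β`, `σ β (M β y) = M β y + f (ν β) (M β y) • ν β` and
`f (ν β) (M β y) = f (M β (ν β)) y = μ β * f (ν β) y`.
(2) Put `y β = σ β (c β)`, `c β = σ β (y β)`: the set is in bijection with
`X = {y | ∑ D β • y β = 0, T y = 0}`, `(T y) β = ∑ β', l β β' • y β' + M β (σ β (y β))` (the equation for
`c` says `∑ β', l β β' • σ β' (c β') = M β (c β)`).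
(3) `Y = {y : ι → W | ∑ D β • y β = 0}`, `B y y' = ∑ β, f (y β) ((T y') β)`, bilinear on `Y`. It is
symmetric: `∑ l β β' * f (y β) (y' β')` is, and `f (y β) (M β (σ β (y' β))) = f (M β (σ β (y β))) (y' β)`.
(4) `z β = ν β` is in `Y` (hypothesis). `(T z) β = ∑ β', l β β' • ν β' + μ β • ν β`. Claim:
`B y y = B y z` for `y ∈ Y`. In `B y y` the terms `l β β' * f (y β) (y β')` cancel in pairs (and vanish
for `β = β'`). With `s = f (ν β) (y β)`: `M β (σ β (y β)) = M β (y β) + (s * μ β) • ν β`, and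
`f (y β) (M β (y β)) = ∑ β', l β β' * f (y β) (σ β' (y β)) + D β * f (y β) (Λ (y β))`, where
`f y (σ β' y) = f y y + (f (ν β') y) ^ 2 = f (ν β') y` and `f y (Λ y) = f h y`; and
`s * μ β * f (y β) (ν β) = μ β * s ^ 2 = μ β * f (ν β) (y β)`. So
`B y y = ∑ β, f (∑ β', l β β' • ν β' + D β • h + μ β • ν β) (y β)`, and this is `B y z`, as
`∑ β, D β * f h (y β) = f h (∑ β, D β • y β) = 0`.
(5) `B z z = 0`: `∑ β, f (ν β) (∑ β', l β β' • ν β' + μ β • ν β)`, the terms `l β β' * f (ν β) (ν β')`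
cancel in pairs or vanish (`β = β'`), and `f (ν β) (ν β) = 0`.
(6) `G y y' = B y y' + B y z * B y' z` is alternating on `Y` by (4): `G y y = B y z + (B y z) ^ 2 = 0`.
Its kernel is the one of `B`: if `B y y' = 0` for all `y' ∈ Y` then `B y z = 0` and `G y y' = 0`.
Conversely let `G y y' = 0` for all `y'`, `r = B y z`: then `B (y + r • z) y' = 0` for all `y'`
(`B z y' = B y' z`), in particular for `y' = z`: `r + r * B z z = r = 0`; so `B y y' = 0`.
(7) The kernel of `B` is `X`: let `y' ∈ Y` with `B y y' = 0` for all `y ∈ Y`, `w β = (T y') β`; test with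
`y = x` at `β` and `D β • x` at `β₀` (and `0` elsewhere; for `β = β₀` there is nothing to test):
`f x (w β + D β • w β₀) = 0` for all `x`, so `w β = D β • w β₀`. Now
`∑ β, σ β (w β) = ∑ β', (∑ β, l β β' • σ β) (y' β') + ∑ β, M β (y' β) = Λ (∑ β, D β • y' β) = 0`
(symmetry of `l`; `σ β ∘ M β ∘ σ β = M β`), so `∑ β, D β • σ β (w β₀) = 0` and `w β₀ = 0`, `T y' = 0`.
(8) Count: `StmtPpEvn` with `K = ZMod 2` (and the scalar multiplication as `ρ`) for `W`, `f`:
`|W| = 4 ^ i`; `|Y| = |W| ^ (|ι| - 1)` (`y ↦ ∑ D β • y β` is surjective); `StmtPpEvn` for `Y`, `G`: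
`|Y| = |X| * 4 ^ j`. So `|X| = 4 ^ a`. -/
def StmtPeFrm : Prop :=
  ∀ (ι : Type u) (W : Type) [Fintype ι] [AddCommGroup W] [Module (ZMod 2) W] [Finite W]
    (f : W →ₗ[ZMod 2] Module.Dual (ZMod 2) W)
    (_ : ∀ x, (∀ y, f x y = 0) → x = 0) (_ : ∀ x, f x x = 0) (ν : ι → W) (h : W)
    (σ : ι → Module.End (ZMod 2) W) (Λ : Module.End (ZMod 2) W)
    (_ : ∀ β y, σ β y = y + f (ν β) y • ν β) (_ : ∀ x y, f x (Λ y) = f (Λ x) y)
    (_ : ∀ x, f x (Λ x) = f h x)
    (l : ι → ι → ZMod 2) (_ : ∀ β β', l β β' = l β' β) (D : ι → ZMod 2)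
    (_ : ∀ β, ∃ μ : ZMod 2, ∑ β', l β β' • σ β' (ν β) + D β • Λ (ν β) = μ • ν β)
    (_ : ∑ β, D β • ν β = 0) (_ : ∀ y, ∑ β, D β • σ β y = 0 → y = 0),
    ∃ a : ℕ, Nat.card {c : ι → W // ∑ β, D β • σ β (c β) = 0 ∧
      ∀ β, ∑ β', l β β' • σ β' (c β' - c β) = D β • Λ (c β)} = 4 ^ a

/-- **PePar** (parity; 150 lines; uses `StmtSuSy`, `StmtPeFrm`; model: PpPar.lean).

Proof. Apply `StmtPeFrm` to `ι = V ⊕ t`, the family `pr`, `P`, with `σ v`, `ν v` at `v`, and the
identity and the vector `0` at `P ∈ t`, `l` the symbols (symmetric: `Rcp χ`, `P ≠ pr v`; on the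
diagonal nothing is to be shown), `D` the degrees. `μ` at `v`: the one of `HypE.com` plus
`∑_{P ∈ t} syl χ (pr v) P`. `∑ D β • ν β = 0` is `HypE.deg`. The last hypothesis is `InfW pr σ n`
(`∑_{P ∈ t} deg P = n`). The set of `StmtPeFrm` is in bijection with the one of `nSol` (`SolW`; at
`P ∈ t` the term with `β' = β` vanishes as `syl χ P P = 0` or as `f P - f P = 0`). So
`nSol = 4 ^ a`. -/
def StmtPePar : Prop :=
  ∀ (F : Type u) [Field F] [Finite F] (_ : 2 ∣ Nat.card F - 1) (χ : F → ZMod 2) (_ : IsLg 2 χ)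
    (_ : Rcp χ) (V W : Type) [Fintype V] [AddCommGroup W] [Module (ZMod 2) W] [Finite W]
    (pr : V → F[X]) (_ : Fam pr) (σ : V → Module.End (ZMod 2) W) (Λ : Module.End (ZMod 2) W)
    (f : W →ₗ[ZMod 2] Module.Dual (ZMod 2) W) (ν : V → W) (h : W)
    (_ : HypE χ pr σ Λ f ν h) (n : ℕ) (_ : InfW pr σ n) (t : Finset F[X])
    (_ : t ∈ gs F pr n),
    nSol χ pr σ Λ t = 1 ∨ 4 ≤ nSol χ pr σ Λ t

open Classical in
/-- **PeMar** (Markov's inequality; 100 lines; uses `StmtPeFM`, `StmtPePar`).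

Proof. `σ v` is injective (an involution by `HypE.trans` and `HypE.alt`). `|Sa| ≤ 2`, as `Sa` has at
most the elements `0`, `f`. `StmtPeFM` with `ε`: `∑_t (nSol t - 1) ≤ 2 g + ε q ^ n`, `g = |gs F pr n|`.
`nSol t ≥ 1` always (the zero solution, or `StmtPePar`), and `nSol t ≠ 1` implies `nSol t - 1 ≥ 3`. So
the number in question is at most `(2 g + ε q ^ n) / 3`. -/
def StmtPeMar : Prop :=
  ∀ (F : Type u) [Field F] [Finite F] (_ : 4 ≤ Nat.card F) (_ : 2 ∣ Nat.card F - 1)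
    (χ : F → ZMod 2) (_ : IsLg 2 χ) (_ : Rcp χ) (V W : Type) [Fintype V]
    [AddCommGroup W] [Module (ZMod 2) W] [Finite W] (pr : V → F[X]) (_ : Fam pr)
    (σ : V → Module.End (ZMod 2) W) (Λ : Module.End (ZMod 2) W)
    (f : W →ₗ[ZMod 2] Module.Dual (ZMod 2) W) (ν : V → W) (h : W)
    (_ : HypE χ pr σ Λ f ν h) (_ : IrrW σ Λ) (_ : ∀ g ∈ Sa σ Λ, g = 0 ∨ g = f) (ε : ℝ)
    (_ : 0 < ε),
    ∃ n₀ : ℕ, ∀ n : ℕ, n₀ ≤ n → InfW pr σ n →
      (∑ t ∈ gs F pr n, (nSol χ pr σ Λ t : ℝ) ≤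
        3 * ((gs F pr n).card : ℝ) + ε * (Nat.card F : ℝ) ^ n) ∧
      (((gs F pr n).filter fun t => nSol χ pr σ Λ t ≠ 1).card : ℝ) ≤
        2 / 3 * ((gs F pr n).card : ℝ) + ε * (Nat.card F : ℝ) ^ n

/-! ### The curves -/

/-- **PeSyl** (the two definitions of the quadratic symbol; 120 lines; uses `StmtTwSy`,
`StmtTwRec`).

Proof. `q` is odd. `IsLg 2 cs`: `StmtTwSy` (first claim); `x ≠ 0` has `cs x = 0` iff it is a square;
a nonsquare exists in a finite field of odd order. For `h ≠ 0`, `P` MI, `h = P ^ k * h₁`, `P ∤ h₁`,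
`h₁ = h /ₘ P ^ k`: `sy P h = 0` iff `mk P h₁` is a square in the field `AdjoinRoot P`, and
`syl cs P h = cs (nm P h₁) = 0` iff its norm is a square in `F`. These are equivalent: (i) in the proof
of `StmtTwRec` (TwRec.lean). If `4 ∣ q - 1` then `-1` is a square, so `cs (-1) = 0`, and
`StmtTwRec` says `sy P Q + sy Q P = 0` (`(q - 1) / 2` is even), so `sy P Q = sy Q P` and
`Rcp cs`. -/
def StmtPeSyl : Prop :=
  ∀ (F : Type u) [Field F] [Finite F] (_ : 2 ∣ Nat.card F - 1),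
    IsLg 2 (cs : F → ZMod 2) ∧
    (∀ P h : F[X], P.Monic → Irreducible P → h ≠ 0 → syl cs P h = sy P h) ∧
    (4 ∣ Nat.card F - 1 → cs (-1 : F) = 0 ∧ Rcp (cs : F → ZMod 2))

/-- **PeIrr** (irreducibility; 250 lines; no universe; model for (i): PpIrr.lean).

Proof. `r i j = single i 1 + single j 1 ∈ Ev m` for `i ≠ j`, `ip (r i j) y = y i + y j`. For `v` with
`ν v = r i j` (an edge `i, j`) `trE (ν v) c = c + (c i + c j) • r i j`. `Ev m` is spanned by the
`r i k`, `k ≠ i`, for every fixed `i` (`c = ∑_{k ≠ i} c k • r i k`). `Ev m` is nontrivial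
(`m ≥ 3`). (i) Let `A ≠ ⊥` be invariant. Then `c ∈ A` and `c i ≠ c j` imply `r i j ∈ A` for all edges
`i, j`. Take `c ∈ A` nonzero; it is not constant (`m` is odd), so by the hypothesis for
`s = {k | c k = 1}` there is an edge `i ∈ s`, `j ∉ s`, and `r i j ∈ A`. Let
`s = {k | k = i ∨ r i k ∈ A}`, and suppose `s ≠ univ`: edge `k ∈ s`, `l ∉ s`. If `k = i`: `j ≠ l` as
`j ∈ s`, and `r i j` has different entries at `i` and `l`, so `r i l ∈ A`, contradiction. If `k ≠ i`:
`r i k ∈ A` has different entries at `k` and `l`, so `r k l ∈ A` and `r i l = r i k + r k l ∈ A`,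
contradiction. So `A = ⊤`. (ii) Let `g ∈ Sa`; `g x y = g y x`. For an edge `i, j` with `ν v = r i j`:
`g x (σ v y) = g (σ v x) y` says `(y i + y j) * g x (r i j) = (x i + x j) * g (r i j) y` for all
`x`, `y`. There is `x` with `x i + x j = 1` (`x = r i k`, `k ≠ i, j`), so with `γ = g x (r i j)`:
`g (r i j) y = γ * (y i + y j)` for all `y`. Call `γ` the number of the edge. If `i, j` and `i, k` are
edges with numbers `γ`, `γ'`, `j ≠ k`, then `γ = g (r i j) (r i k) = g (r i k) (r i j) = γ'`. Fix an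
edge `i, j` (it exists: the hypothesis for a set with one element), with number `γ`, and let
`s = {k | k = i ∨ ∀ y, g (r i k) y = γ * (y i + y k)}`. Suppose `s ≠ univ`: edge `k ∈ s`, `l ∉ s`. If
`k = i`, then `i, l` is an edge with the number `γ` (`l ≠ j`), so `l ∈ s`, contradiction. If `k ≠ i`: the
edge `k, l` has the number `g (r k l) (r i k) = g (r i k) (r k l) = γ` (`l ≠ i` because `i ∈ s`), so
`g (r i l) y = g (r i k) y + g (r k l) y = γ * (y i + y l)`, `l ∈ s`, contradiction. So `s = univ`, and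
`g = γ • ipE m`, because the `r i k` span `Ev m`. -/
def StmtPeIrr : Prop :=
  ∀ (m : ℕ) (_ : Odd m) (_ : 3 ≤ m) (V : Type) (ν : V → Ev m)
    (_ : ∀ s : Finset (Fin m), s.Nonempty → s ≠ Finset.univ → ∃ i ∈ s, ∃ j, j ∉ s ∧
      ∃ v, (ν v : Fin m → ZMod 2) = Pi.single i 1 + Pi.single j 1)
    (Λ : Module.End (ZMod 2) (Ev m)),
    IrrW (fun v => trE (ν v)) Λ ∧ ∀ g ∈ Sa (fun v => trE (ν v)) Λ, g = 0 ∨ g = ipE m

/-- **PeHyp** (the hypotheses hold for the curves; 300 lines; uses `StmtTwSy`, `StmtTwFac`,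
`StmtTwNu`, `StmtPeSyl`).

Proof. `cs (-1) = 0`; `e i k = cs (a i - a k).leadingCoeff` is symmetric and `e i i = cs 0 = 0`, so
`laE a` is `lapE e`. `nuE P a` is `nu P a` (first claim of `StmtTwNu`: the sum of the entries is `0`).
`h i = ∑ k, e i k` (its sum is `0` by symmetry). (1) `alt`: `ip x x = ∑ x i = 0`. `nondeg`: test with
`single i 1 + single j 1`: `x` is constant, `∑ x i = 0` and `m` is odd. `trans`: `trE_apply`.
`self`: `ip x (Λ y) = ∑_{i < k} (x i + x k) (y i + y k) e i k`. `diag`: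
`ip x (Λ x) = ∑_{i < k} (x i + x k) e i k = ip h x`. (2) For `y ∈ Ev m` and a prime `P = pr v`, by
`StmtTwNu` (fourth claim), `StmtTwFac` (first claim for `a i - a k`, `i ≠ k`; its prime factors are
in the family) and `StmtPeSyl`: the `i`-th entry of
`∑ v', syl cs P (pr v') • σ v' y + deg P • Λ y` is
`S * y i + ∑ k, (y i + y k) * sy P (a i - a k)`, `S = ∑ v', sy P (pr v')`. `com`: if `ν v = 0` take
`μ = 0`. Otherwise `ν v = single j 1 + single k 1`, `P ∣ a j - a k` and `P` divides no other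
difference. For `i ≠ j, k` the entry at `y = ν v` is `sy P (a i - a j) + sy P (a i - a k) = 0` (the same
image in `AdjoinRoot P`); for `i = j` and `i = k` it is `S + ∑_{l ≠ j, k} sy P (a j - a l)` and
`S + ∑_{l ≠ j, k} sy P (a k - a l)`, which are equal: this is `μ`. (3) `deg`: the `i`-th entry is
`∑ v, deg (pr v) * ∑ k, vp (pr v) (a i - a k) = ∑_{k ≠ i} n₀ = (m - 1) n₀ = 0` (`StmtTwFac`, second
claim). (4) `InfW`: the `i`-th entry of `∑ v, deg (pr v) • σ v y + n • y` is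
`(∑ v, deg (pr v) + n) * y i + ∑ k, (y i + y k) * ∑ v, deg (pr v) * vp (pr v) (a i - a k)`, and the last
sum is `n₀ * ∑_{k ≠ i} (y i + y k) = n₀ * ((m - 1) y i + (∑ y) - y i) = n₀ * y i`; total `y i`.
(5) Last claim: for `s` take `i ∈ s`, `j ∉ s` of the hypothesis and let `c` be the leading coefficient
of `a i - a j`, `h = C c⁻¹ * (a i - a j)`, monic. If all `vp (pr v) (a i - a j)` were `0`, then
`vp (pr v) h = 0`, `h` would be a square (`StmtTwFac`, third claim; `cs 1 = 0`), and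
`a i - a j = C c * g ^ 2`. So `vp (pr v) (a i - a j) = 1` for some `v`, and
`nu (pr v) a = single i 1 + single j 1` (`StmtTwNu`, third claim). -/
def StmtPeHyp : Prop :=
  ∀ (F : Type u) [Field F] [Finite F] (_ : 4 ∣ Nat.card F - 1) (m n₀ : ℕ) (a : Fin m → F[X])
    (_ : Pts m n₀ a) (V : Type) [Fintype V] (pr : V → F[X]) (_ : Fam pr)
    (_ : ∀ P : F[X], P.Monic → Irreducible P → ∀ i j, i ≠ j → P ∣ a i - a j → ∃ v, pr v = P)
    (_ : ∀ s : Finset (Fin m), s.Nonempty → s ≠ Finset.univ → ∃ i ∈ s, ∃ j, j ∉ s ∧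
      ∀ (c : F) (g : F[X]), a i - a j ≠ C c * g ^ 2),
    (∃ h : Ev m, HypE cs pr (fun v => trE (nuE (pr v) a)) (laE a) (ipE m)
      (fun v => nuE (pr v) a) h) ∧
    (∀ n : ℕ, Odd (∑ v, (pr v).natDegree + n + n₀) →
      InfW pr (fun v => trE (nuE (pr v) a)) n) ∧
    ∀ s : Finset (Fin m), s.Nonempty → s ≠ Finset.univ → ∃ i ∈ s, ∃ j, j ∉ s ∧
      ∃ v, (nuE (pr v) a : Fin m → ZMod 2) = Pi.single i 1 + Pi.single j 1

open Classical in
/-- **PeSel** (a variant of `StmtTwSel` for `ρ = 1`, `x₀ = 1`; copy TwSel.lean, omit part (5) and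
change the end; uses `StmtTwSy`, `StmtTwLocF`, `StmtTwLocI`, `StmtTwSqF`, `StmtTwSqI`, `StmtTwTor`, in
this order).

Proof. As for `StmtTwSel`: in (1) of that proof `δ i = num (d i) * denom (d i) * tau E a c₀ i`, so
`δ i * tau E a c₀ i` is `d i` up to a square of `F(t)`. -/
def StmtPeSel : Prop :=
  ∀ (F : Type u) [Field F] [Finite F] (_ : Odd (Nat.card F)) (m n : ℕ) (a : Fin m → F[X])
    (_ : Pts m n a) (ι : Type) [Fintype ι] (pr : ι → F[X]) (_ : Fam pr)
    (_ : ∀ P : F[X], P.Monic → Irreducible P → ∀ i j, i ≠ j → P ∣ a i - a j → ∃ b, pr b = P)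
    (_ : Odd ((tw pr 1 1).natDegree + n))
    (d : Fin m → (RatFunc F)ˣ)
    (_ : d ∈ placesSelmer F[X] (RatFunc.inftyValuation F) 2 (pts (tw pr 1 1) a) (fun _ => 1)),
    ∃ δ : Fin m → F[X], (∀ i, δ i ≠ 0) ∧
      (∀ P : F[X], P.Monic → Irreducible P → (∀ b, pr b ≠ P) → ∀ i, vp P (δ i) = 0) ∧
      (∀ i, ((δ i).natDegree : ZMod 2) = 0 ∧ cs (δ i).leadingCoeff = 0) ∧
      (∀ b, ∃ c : Fin m → ZMod 2, ∑ i, c i = 0 ∧ ∀ i,
        vp (pr b) (δ i * tau (tw pr 1 1) a c i) = 0 ∧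
        sy (pr b) (δ i * tau (tw pr 1 1) a c i) = 0) ∧
      ∃ c₀ : Fin m → ZMod 2, ∑ i, c₀ i = 0 ∧ ∀ i, ∃ z : RatFunc F,
        (d i : RatFunc F) =
          algebraMap F[X] (RatFunc F) (δ i * tau (tw pr 1 1) a c₀ i) * z ^ 2

open Classical in
/-- **PeEq** (a variant of `StmtTwEq` for `ρ = 1`, `x₀ = 1`; copy TwEq.lean and change the end; uses
`StmtTwSy`, `StmtTwFac`, `StmtTwNu`, `StmtPeSel`).

Proof. As for `StmtTwEq`: `x b i = vp (pr b) (δ i)`, with the `δ` and `c₀` of `StmtPeSel`. -/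
def StmtPeEq : Prop :=
  ∀ (F : Type u) [Field F] [Finite F] (_ : Odd (Nat.card F)) (m n : ℕ) (a : Fin m → F[X])
    (_ : Pts m n a) (ι : Type) [Fintype ι] (pr : ι → F[X]) (_ : Fam pr)
    (_ : ∀ P : F[X], P.Monic → Irreducible P → ∀ i j, i ≠ j → P ∣ a i - a j → ∃ b, pr b = P)
    (_ : Odd ((tw pr 1 1).natDegree + n))
    (d : Fin m → (RatFunc F)ˣ)
    (_ : d ∈ placesSelmer F[X] (RatFunc.inftyValuation F) 2 (pts (tw pr 1 1) a) (fun _ => 1)),
    ∃ x c : ι → Fin m → ZMod 2, EqSys a pr 1 1 x c ∧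
      ∃ δ : Fin m → F[X], (∀ i, δ i ≠ 0 ∧ cs (δ i).leadingCoeff = 0) ∧
        (∀ P : F[X], P.Monic → Irreducible P → (∀ b, pr b ≠ P) → ∀ i, vp P (δ i) = 0) ∧
        (∀ b i, vp (pr b) (δ i) = x b i) ∧
        ∃ c₀ : Fin m → ZMod 2, ∑ i, c₀ i = 0 ∧ ∀ i, ∃ z : RatFunc F,
          (d i : RatFunc F) =
            algebraMap F[X] (RatFunc F) (δ i * tau (tw pr 1 1) a c₀ i) * z ^ 2

open Classical in
/-- **PeInj** (the order of the Selmer group; 350 lines; uses `StmtTwSy`, `StmtTwFac`, `StmtTwNu`,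
`StmtTwTor`, `StmtPeSyl`, `StmtPeEq`; model: PpInj.lean).

Proof. `E = (∏ v, pr v) * ∏ P ∈ t, P`. Index the primes of `t` by `Fin |t|` (the index type of
`StmtPeEq` is in `Type`): the family on `ι = V ⊕ Fin |t|` with all exponents `1`; `tw` of it (with
constant `1`) is `E`, of degree `∑ v, deg (pr v) + n`. For `d` in the Selmer group `S` choose `x`, `c`,
`δ`, `c₀` as in `StmtPeEq`. (1) `c β ∈ Ev m` (`EqSys.even`). By `StmtTwNu` (fourth claim) `EqSys.val`
says `x β = c β + ip (ν β) (c β) • ν β = σ β (c β)`, `ν β = nu (pr β) a`, and `ν P = 0`, `x P = c P` for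
`P ∈ t` (`P` is not a `pr v`, so divides no difference). `EqSys.sym`: by `StmtTwFac` for the
`a i - a k`, `i ≠ k` (prime factors in the family; `e i k = cs (a i - a k).leadingCoeff`, symmetric as
`cs (-1) = 0`, so `laE a = lapE e`), `∑ k, (c β i + c β k) * sy (pr β) (a i - a k) =
deg (pr β) * (Λ (c β)) i + ∑ β', sy (pr β) (pr β') * (ip (ν β') (c β) * ν β' i)`, so the equation is
`∑ β', sy (pr β) (pr β') • σ β' (c β' + c β) + deg (pr β) • Λ (c β) = 0` (`cs (-1) = 0`). With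
`StmtPeSyl` (`syl cs = sy`) and `EqSys.inf` this is `SolW` for `c v`, `f P = c P` (in characteristic
two signs do not matter; the term `β' = β` is `0`). So `c` gives an element `X d` of the finite set of
`nSol`. (2) If `X d = X d'` then `x = x'`, so `h i = δ i * δ' i` has `vp P (h i) = 0` for all MI `P` and
`cs (leadingCoeff) = 0`, and by `StmtTwFac` (third claim) it is a square. So
`d i * d' i` is `tau E a c₀ i * tau E a c₀' i`, i.e. `tau E a (c₀ + c₀') i`, up to squares of `F(t)`, and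
`d / d'`, which is `d * d'` up to a square, is in the torsion group `T` (`StmtTwTor`, second claim; see
there for `tau (c + c')`). So `X` induces an injective map on `S / T`, with values in a finite set of
order `nSol`: the relative index (the index of `T ⊓ S` in `S`) is not `0` and at most `nSol`. -/
def StmtPeInj : Prop :=
  ∀ (F : Type u) [Field F] [Finite F] (_ : 4 ∣ Nat.card F - 1) (m n₀ : ℕ) (a : Fin m → F[X])
    (_ : Pts m n₀ a) (V : Type) [Fintype V] (pr : V → F[X]) (_ : Fam pr)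
    (_ : ∀ P : F[X], P.Monic → Irreducible P → ∀ i j, i ≠ j → P ∣ a i - a j → ∃ v, pr v = P)
    (n : ℕ) (t : Finset F[X]) (_ : t ∈ gs F pr n)
    (_ : Odd (∑ v, (pr v).natDegree + n + n₀)),
    (torsionGroup 2 (pts ((∏ v, pr v) * ∏ P ∈ t, P) a) (fun _ => 1)).relIndex
        (placesSelmer F[X] (RatFunc.inftyValuation F) 2 (pts ((∏ v, pr v) * ∏ P ∈ t, P) a)
          (fun _ => 1)) ≠ 0 ∧
      (torsionGroup 2 (pts ((∏ v, pr v) * ∏ P ∈ t, P) a) (fun _ => 1)).relIndex
        (placesSelmer F[X] (RatFunc.inftyValuation F) 2 (pts ((∏ v, pr v) * ∏ P ∈ t, P) a)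
          (fun _ => 1)) ≤
      nSol cs pr (fun v => trE (nuE (pr v) a)) (laE a) t

end MP72e2e6
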