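import Pool.Agent.Lib.MP_72e2e6_nt.PeStmtB
import Pool.Agent.Lib.MP_72e2e6_nt.TwRec

/-!
# MP_72e2e6_nt: the two definitions of the quadratic symbol
-/

namespace MP72e2e6

open Polynomial

universe u

private theorem pesyl_odd {F : Type u} [Field F] [Finite F] (h : 2 ∣ Nat.card F - 1) :
    Odd (Nat.card F) := by
  have h1 : 0 < Nat.card F := Nat.card_pos
  rw [Nat.odd_iff]
  omega

private theorem pesyl_cs {F : Type u} [Field F] (x : F) : cs x = 0 ↔ IsSquare x := by
  classical
  unfold cs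
  split_ifs with h
  · simp [h]
  · simp [h]

/-- The prime to `P` part. -/
private theorem pesyl_ndvd {F : Type u} [Field F] (P h : F[X]) (hP : P.Monic)
    (hPi : Irreducible P) (hh : h ≠ 0) : ¬ P ∣ h /ₘ P ^ multiplicity P h := by
  intro hd
  have hfin : FiniteMultiplicity P h :=
    finiteMultiplicity_of_degree_pos_of_monic (degree_pos_of_irreducible hPi) hP hh
  obtain ⟨h₁, hh₁⟩ := pow_multiplicity_dvd P h
  have h2 : h /ₘ P ^ multiplicity P h = h₁ := by
    conv_lhs => rw [hh₁]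
    rw [← hh₁]
    have h3 := mul_divByMonic_cancel_left h₁ (hP.pow (multiplicity P h))
    rw [← hh₁] at h3
    exact h3
  rw [h2] at hd
  refine hfin.not_pow_dvd_of_multiplicity_lt (Nat.lt_succ_self _) ?_
  have h4 : P ^ multiplicity P h * P ∣ P ^ multiplicity P h * h₁ := mul_dvd_mul_left _ hd
  rw [← hh₁, ← pow_succ] at h4
  exact h4

private theorem pesyl_eq {F : Type u} [Field F] [Finite F] (hF : Odd (Nat.card F)) (P h : F[X])
    (hP : P.Monic) (hPi : Irreducible P) (hh : h ≠ 0) : syl cs P h = sy P h := by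
  classical
  have hPf : Fact (Irreducible P) := ⟨hPi⟩
  have h1 : AdjoinRoot.mk P (h /ₘ P ^ multiplicity P h) ≠ 0 := by
    rw [Ne, AdjoinRoot.mk_eq_zero]
    exact pesyl_ndvd P h hP hPi hh
  have h2 := twrec_isSquare hF P hP _ h1
  unfold syl sy nm cs
  by_cases h3 : IsSquare (AdjoinRoot.mk P (h /ₘ P ^ multiplicity P h))
  · rw [if_pos (h2.1 h3), if_pos h3]
  · rw [if_neg (fun h4 => h3 (h2.2 h4)), if_neg h3]

theorem tPeSyl.{v} (hTwSy : StmtTwSy.{v}) (hTwRec : StmtTwRec.{v}) : StmtPeSyl.{v} := by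
  intro F _ _ hq
  have hF := pesyl_odd hq
  refine ⟨⟨(hTwSy F hF).1, fun x hx => ?_, fun t => ?_⟩, fun P h hP hPi hh =>
    pesyl_eq hF P h hP hPi hh, fun h4 => ?_⟩
  · rw [pesyl_cs, isSquare_iff_exists_sq]
  · have ht : t = 0 ∨ t = 1 := by
      revert t
      decide
    rcases ht with rfl | rfl
    · exact ⟨1, one_ne_zero, (pesyl_cs 1).2 IsSquare.one⟩
    · obtain ⟨a, ha⟩ := FiniteField.exists_nonsquare (twrec_ringChar hF)
      refine ⟨a, ?_, ?_⟩
      · rintro rfl
        exact ha IsSquare.zero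
      · unfold cs
        rw [if_neg ha]
  · have h5 : (((Nat.card F - 1) / 2 : ℕ) : ZMod 2) = 0 := by
      rw [ZMod.natCast_eq_zero_iff_even, Nat.even_iff]
      omega
    refine ⟨?_, ?_⟩
    · rw [twrec_cs_neg_one hF, h5]
    · intro P Q hP hPi hQ hQi hne
      rw [pesyl_eq hF P Q hP hPi hQ.ne_zero, pesyl_eq hF Q P hQ hQi hP.ne_zero]
      have h6 := hTwRec F hF P Q hP hPi hQ hQi hne
      rw [Nat.cast_mul, h5, zero_mul] at h6
      generalize sy P Q = x at *
      generalize sy Q P = y at *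
      revert x y
      decide

end MP72e2e6
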