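import Pool.Agent.Lib.MP_72e2e6_nt.PqStmt

/-!
# MP_72e2e6_nt: the exact order of the Selmer group, statements of the modules

Every solution of the equations comes from a Selmer element, so `#(S / T) = nSol`, and the exact
moments (PqStmt.lean) give the limit distribution of `#(S / T)`.

Every module proves one of the propositions `StmtPrX` below: file `PrX.lean` (same folder, import
this file and the files it uses) with `theorem tPrX.{u} : StmtPrX.{u}` (or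
`theorem tPrX.{u} (h : StmtY.{u}) .. : StmtPrX.{u}` if the docstring says: uses `StmtY`, in this
order; `StmtPrEul` has no universe). The complete proofs are in the docstrings. There is no
hypothesis `ℓ ≠ 2` and no tameness here. `MI` means monic irreducible, `a ~ b` means: `a / b` is an
`ℓ`-th power.
-/

namespace MP72e2e6

open Polynomial IsDedekindDomain

universe u

/-- Symmetry of the symbols and existence of primes with prescribed symbols, for all the finite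
fields which contain the `ℓ`-th roots of unity. -/
structure RecP (ℓ : ℕ) : Prop where
  sym : ∀ (k : Type u) [Field k] [Finite k] (χ : k → ZMod ℓ), ℓ ∣ Nat.card k - 1 → IsLg ℓ χ →
    χ (-1) = 0 → ∀ P Q : k[X], P.Monic → Irreducible P → Q.Monic → Irreducible Q → P ≠ Q →
      syl χ P Q = syl χ Q P
  prm : ∀ (k : Type u) [Field k] [Finite k] (χ : k → ZMod ℓ), ℓ ∣ Nat.card k - 1 → IsLg ℓ χ →
    χ (-1) = 0 → ∀ (ι : Type) [Fintype ι] (pr : ι → k[X]), Fam pr → ∀ t : ι → ZMod ℓ,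
      ∃ R : k[X], R.Monic ∧ Irreducible R ∧ (∀ b, pr b ≠ R) ∧ ∀ b, syl χ (pr b) R = t b

/-- The torsion group consists of the classes `tal`. -/
structure TorP {F : Type u} [Field F] {m : ℕ} (ℓ : ℕ) (E : F[X]) (a : Fin m → F[X])
    (b : Fin m → ℕ) : Prop where
  ex : ∀ t ∈ torsionGroup ℓ (pts E a) b, ∃ c : Fin m → ZMod ℓ, ∑ i, (b i : ZMod ℓ) * c i = 0 ∧
    ∀ i, ∃ z : RatFunc F, (t i : RatFunc F) =
      algebraMap F[X] (RatFunc F) (tal b E a c i) * z ^ ℓ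
  mem : ∀ c : Fin m → ZMod ℓ, ∑ i, (b i : ZMod ℓ) * c i = 0 → ∀ t : Fin m → (RatFunc F)ˣ,
    (∀ i, ∃ z : RatFunc F, (t i : RatFunc F) =
      algebraMap F[X] (RatFunc F) (tal b E a c i) * z ^ ℓ) → t ∈ torsionGroup ℓ (pts E a) b

/-! ### Local fields -/

/-- **PrPwF** (`ℓ`-th powers in the completion at a finite place, converse of `StmtSuPwF`; 120
lines; uses `StmtSuSy`).

Proof. `multiplicity P h = ℓ n`, `h = P ^ (ℓ n) * g`, `P ∤ g`. `syl χ P g = 0` (`StmtSuSy`: additivity,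
`syl χ P P = 0`), so `mk P g = z ^ ℓ`, `z = mk P f`, `P ∤ f`, `P ∣ g - f ^ ℓ`. In the completion
`v (g / f ^ ℓ - 1) < 1`, so `g / f ^ ℓ` is an `ℓ`-th power (`exists_pow_eq_of_principal`, for the norm
of `Valued.toNontriviallyNormedField` as in TwSplF.lean; `ℓ` is prime to the characteristic because
`ℓ ∣ Nat.card F - 1`). -/
def StmtPrPwF : Prop :=
  ∀ (F : Type u) [Field F] [Finite F] (ℓ : ℕ) (_ : ℓ.Prime) (_ : ℓ ∣ Nat.card F - 1)
    (χ : F → ZMod ℓ) (_ : IsLg ℓ χ) (v : HeightOneSpectrum F[X])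
    (P : F[X]) (_ : P.Monic) (_ : Irreducible P) (_ : v.asIdeal = Ideal.span {P}) (h : F[X])
    (_ : h ≠ 0) (_ : vl ℓ P h = 0) (_ : syl χ P h = 0),
    ∃ z : v.adicCompletion (RatFunc F), algebraMap (RatFunc F) (v.adicCompletion (RatFunc F))
      (algebraMap F[X] (RatFunc F) h) = z ^ ℓ

open Classical in
/-- **PrPwI** (`ℓ`-th powers in the completion at infinity, converse of `StmtSuPwI`; 100 lines).

Proof. `h.natDegree = ℓ n`, `h.leadingCoeff = α ^ ℓ` (`IsLg.ker`), `α ≠ 0`. `g = (α X ^ n) ^ ℓ` has the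
same degree and leading coefficient as `h`, so `deg (h - g) < deg g` and `v (h / g - 1) < 1`. As in
`StmtPrPwF`, `h / g` is an `ℓ`-th power in the completion. -/
def StmtPrPwI : Prop :=
  ∀ (F : Type u) [Field F] [Finite F] (ℓ : ℕ) (_ : ℓ.Prime) (_ : ℓ ∣ Nat.card F - 1)
    (χ : F → ZMod ℓ) (_ : IsLg ℓ χ) (h : F[X]) (_ : h ≠ 0) (_ : (h.natDegree : ZMod ℓ) = 0)
    (_ : χ h.leadingCoeff = 0),
    ∃ z : (RatFunc.inftyValuation F).Completion,
      algebraMap (RatFunc F) (RatFunc.inftyValuation F).Completion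
        (algebraMap F[X] (RatFunc F) h) = z ^ ℓ

/-- **PrPi** (the residue map of the completion; 150 lines).

Proof. `φ : F[X] → M`, `M = v.adicCompletion (RatFunc F)`. `v (φ h) ≤ 1`, and `v (φ h) < 1` iff `P ∣ h`
(`valued_adic`, `valuation_lt_one_iff_mem`). For every `y` with `v y ≤ 1` there is `h : F[X]` with
`v (y - φ h) < 1`: first `x : RatFunc F` with `v (y - x) < 1` (`denseRange_algebraMap`, or as in
`res_comp` in GComp.lean), then `v x ≤ 1` and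
`HeightOneSpectrum.exists_valuation_sub_lt_of_integer`. Let `π y = mk P h` for such an `h`. It does
not depend on `h`: `v (φ (h - h')) < 1`, `P ∣ h - h'`. So `π` is additive and multiplicative
(`v (y y' - φ (h h')) < 1`), `π (φ h) = mk P h`, surjective, and `π y = 0` iff `P ∣ h` iff
`v (φ h) < 1` iff `v y < 1`. -/
def StmtPrPi : Prop :=
  ∀ (F : Type u) [Field F] (v : HeightOneSpectrum F[X]) (P : F[X]) (_ : Irreducible P)
    (_ : v.asIdeal = Ideal.span {P}),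
    ∃ π : (Valued.v : Valuation (v.adicCompletion (RatFunc F))
        (WithZero (Multiplicative ℤ))).valuationSubring →+* AdjoinRoot P,
      Function.Surjective π ∧
      (∀ y, π y = 0 ↔ Valued.v (y : v.adicCompletion (RatFunc F)) < 1) ∧
      ∀ (h : F[X]) (y : (Valued.v : Valuation (v.adicCompletion (RatFunc F))
          (WithZero (Multiplicative ℤ))).valuationSubring),
        (y : v.adicCompletion (RatFunc F)) =
          algebraMap (RatFunc F) (v.adicCompletion (RatFunc F))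
            (algebraMap F[X] (RatFunc F) h) → π y = AdjoinRoot.mk P h

/-- **PrRes** (the points over a finite field; 150 lines; uses `StmtSuSy`).

Proof. The `X - C (α i)` form a `Fam`. `RecP.prm` gives a MI `R ≠ X - C (α i)` with
`syl χ (X - C (α i)) R = s i`. `R.eval (α i) ≠ 0` (otherwise `X - C (α i) ∣ R`, equal). By `StmtSuSy`
`syl χ (X - C (α i)) R = χ (nm (X - C (α i)) R)`, and `nm (X - C α) R = R.eval α`:
`mk (X - C α) R = algebraMap (R.eval α)` (`X - C α ∣ R - C (R.eval α)`) and the norm of `algebraMap x`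
is `x ^ 1` (`Algebra.norm_algebraMap`, finrank 1). `χ ((-1) ^ n * x) = n χ (-1) + χ x = χ x`. For the
last claim let `f = ∏ i, (X - C (α i)) ^ b i`, `R ∤ f`.
`syl χ R f = ∑ i, b i * syl χ R (X - C (α i)) = ∑ i, b i * syl χ (X - C (α i)) R = ∑ i, b i * s i = 0`
(`StmtSuSy`, `RecP.sym`), so `mk R f = z ^ ℓ` with `z = mk R r`, i.e. `R ∣ f - r ^ ℓ`. -/
def StmtPrRes : Prop :=
  ∀ (ℓ : ℕ) (_ : ℓ.Prime) (_ : RecP.{u} ℓ) (k : Type u) [Field k] [Finite k]
    (_ : ℓ ∣ Nat.card k - 1) (χ : k → ZMod ℓ) (_ : IsLg ℓ χ) (_ : χ (-1) = 0) (m : ℕ)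
    (α : Fin m → k) (_ : Function.Injective α) (b : Fin m → ℕ) (s : Fin m → ZMod ℓ)
    (_ : ∑ i, (b i : ZMod ℓ) * s i = 0),
    ∃ R r : k[X], R.Monic ∧ Irreducible R ∧
      (∀ i, R.eval (α i) ≠ 0 ∧ χ ((-1) ^ R.natDegree * R.eval (α i)) = s i) ∧
      R ∣ ∏ i, (X - C (α i)) ^ b i - r ^ ℓ

/-- **PrHen** (lifting to a closed point of the curve; 300 lines; model for the extension field with
the spectral norm: SuLoc.lean, Finp.lean, Val.lean).

Proof. Let `O` be the valuation subring, with fraction field `M`; it is integrally closed. Choose a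
monic `u ∈ O[X]` with `u.map π = R` and the same degree (`Polynomial.lifts_and_natDegree_eq_and_monic`),
`r₀ ∈ O[X]` with `r₀.map π = r`, `g₀` lifting the quotient of `f̄ - r ^ ℓ` by `R`,
`f₀ = ∏ (X - C (A i)) ^ b i ∈ O[X]`. `u` is irreducible in `O[X]`
(`Polynomial.Monic.irreducible_of_irreducible_map`), so `u' = u.map (algebraMap O M)` is irreducible
in `M[X]` (`Polynomial.Monic.irreducible_iff_irreducible_map_fraction_map`). `L = AdjoinRoot u'` with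
the spectral norm, `x` the root: a complete ultrametric field of characteristic `p`. `‖x‖ ≤ 1`
(`x` is a root of a monic polynomial with coefficients of norm `≤ 1`), so `‖h x‖ ≤ 1` for
`h ∈ O[X]`, and `‖h x‖ < 1` if `h.map π = 0`. `(f₀ - r₀ ^ ℓ - u g₀).map π = 0` and `u x = 0`, so
`‖f₀ x - (r₀ x) ^ ℓ‖ < 1`. `R` is prime to `f̄` (it is irreducible, and if `R ∣ f̄` then
`R ∣ X - C (π (A i))` for some `i`, so they are associated and `R.eval (π (A i)) = 0`):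
`s f̄ + t R = 1`, and with a lift `s₀` of `s`: `‖s₀ x * f₀ x - 1‖ < 1`. So `‖f₀ x‖ = 1`, hence
`‖r₀ x‖ = 1`, and `f₀ x / (r₀ x) ^ ℓ` is principal: it is `z ^ ℓ` (`exists_pow_eq_of_principal`).
`f₀ x = (r₀ x * z) ^ ℓ`; let `w ∈ M[X]` with `mk u' w = r₀ x * z`. Then `u' ∣ f - w ^ ℓ`. -/
def StmtPrHen : Prop :=
  ∀ (M k : Type u) [Field M] [Valued M (WithZero (Multiplicative ℤ))] [CompleteSpace M] (p : ℕ)
    [Fact p.Prime] [CharP M p] (ℓ : ℕ) (_ : ℓ.Coprime p)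
    (_ : ∃ x : M, Valued.v x ≠ 0 ∧ Valued.v x ≠ 1) [Field k]
    (π : (Valued.v : Valuation M (WithZero (Multiplicative ℤ))).valuationSubring →+* k)
    (_ : Function.Surjective π) (_ : ∀ y, π y = 0 ↔ Valued.v (y : M) < 1) (m : ℕ)
    (A : Fin m → (Valued.v : Valuation M (WithZero (Multiplicative ℤ))).valuationSubring)
    (b : Fin m → ℕ) (R r : k[X]) (_ : R.Monic) (_ : Irreducible R)
    (_ : R ∣ ∏ i, (X - C (π (A i))) ^ b i - r ^ ℓ) (_ : ∀ i, R.eval (π (A i)) ≠ 0),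
    ∃ (u : (Valued.v : Valuation M (WithZero (Multiplicative ℤ))).valuationSubring[X])
      (w : M[X]), u.Monic ∧ u.map π = R ∧
      u.map (algebraMap (Valued.v : Valuation M
        (WithZero (Multiplicative ℤ))).valuationSubring M) ∣
        ∏ i, (X - C (A i : M)) ^ b i - w ^ ℓ

/-- **PrGood** (the local image at a good place; 250 lines; uses `StmtSuSy`, `StmtSuLg`,
`StmtPrPi`, `StmtPrRes`, `StmtPrHen`).

Proof. `M = v.adicCompletion (RatFunc F)`, `φ : F[X] → M`, `k = AdjoinRoot P`, a finite field with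
`Nat.card F ^ P.natDegree` elements, `ℓ ∣ Nat.card k - 1`, `χ'` a logarithm on `k` (`StmtSuLg`). `-1` is
an `ℓ`-th power in `F` (`IsLg.ker`), so also in `k`, `χ' (-1) = 0`. `multiplicity P (h i) = ℓ n i`,
`h i = P ^ (ℓ n i) * g i`, `P ∤ g i`, `syl χ P (h i) = syl χ P (g i)` (`StmtSuSy`). For
`G = ∏ i, g i ^ b i`: `syl χ P G = ∑ b i * syl χ P (g i) = 0`, so `mk P G` is an `ℓ`-th power,
`∑ b i * s i = χ' (mk P G) = 0` for `s i = χ' (mk P (g i))`. `α i = mk P (E * a i)` is injective. `R`, `r`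
from `StmtPrRes`, `π` from `StmtPrPi`, `A i = φ (E * a i)` (in the valuation subring), `u`, `w` from
`StmtPrHen` (`nontriv_adic`). `d₀ i = (-1) ^ deg u * u (A i)`: `d₀ i` is in the valuation subring,
`π (d₀ i) = (-1) ^ deg R * R.eval (α i) ≠ 0`, so it is a unit, and `d₀ ∈ localImage`
(`Subgroup.subset_closure`, second kind, for `u.map _`; `curvePoly (pts E a) b M` is the product).
`χ' (π (φ (g i))) = s i = χ' (π (d₀ i))`, so `π (φ (g i)) = π (d₀ i) * y ^ ℓ` with `y ≠ 0` in `k`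
(`IsLg`). Lift `y` to `y₀`: `φ (g i) / (d₀ i * y₀ ^ ℓ)` is principal, so an `ℓ`-th power
(`exists_pow_eq_of_principal`). So `d = d₀ * z ^ ℓ` (`φ (P) ^ (ℓ n i)` is an `ℓ`-th power). -/
def StmtPrGood : Prop :=
  ∀ (F : Type u) [Field F] [Finite F] (ℓ : ℕ) (_ : ℓ.Prime) (_ : RecP.{u} ℓ)
    (_ : ℓ ∣ Nat.card F - 1) (χ : F → ZMod ℓ) (_ : IsLg ℓ χ) (_ : χ (-1) = 0) (m : ℕ)
    (E : F[X]) (a : Fin m → F[X]) (b : Fin m → ℕ) (v : HeightOneSpectrum F[X]) (P : F[X])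
    (_ : P.Monic) (_ : Irreducible P) (_ : v.asIdeal = Ideal.span {P}) (_ : ¬ P ∣ E)
    (_ : ∀ i j, i ≠ j → ¬ P ∣ a i - a j) (h : Fin m → F[X])
    (_ : ∀ i, h i ≠ 0 ∧ vl ℓ P (h i) = 0) (_ : ∑ i, (b i : ZMod ℓ) * syl χ P (h i) = 0)
    (d : Fin m → (v.adicCompletion (RatFunc F))ˣ)
    (_ : ∀ i, (d i : v.adicCompletion (RatFunc F)) =
      algebraMap (RatFunc F) (v.adicCompletion (RatFunc F)) (algebraMap F[X] (RatFunc F) (h i))),
    d ∈ localImage ℓ (pts E a) b (v.adicCompletion (RatFunc F))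

/-! ### The Selmer group -/

/-- **PrEq** (from the equations to valuations and symbols; 150 lines; uses `StmtSuSy`, `StmtSuFac`,
`StmtSuTal`; model: SuEq.lean).

Proof. `δ i = twl pr fun β' => x β' i`, `E = twl pr ρ`, `P = pr β`. `vl P (δ i) = x β i`, `vl P E = ρ β`
(multiplicities: `susel_mult` in SuSel.lean, or `StmtSuSy`), `syl P (δ i) = ∑_{β'} x β' i * syl P (pr β')`,
the same for `E` and `ρ`. (i) `∑ b i * x β i = ρ β ∑ b i c i + B⁻¹ ∑_{i, k} b i b k w i k (c i - c k)`,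
and the last sum is antisymmetric (`w i k = vl P (a i - a k) = w k i`: `vl_symm`), so `0` even for
`ℓ = 2`: `∑_{i, k} b i b k w i k c i = ∑_{i, k} b i b k w i k c k` by exchanging `i` and `k`. (ii) is
`EqL.val` and `StmtSuTal`. (iii) as in the proof of `StmtSuEq`: by `StmtSuTal`, and `StmtSuFac` for
`a i - a k`, `syl P (tal b E a (c β) i) = ∑_{β'} syl P (pr β') * sg b (ρ β') (vl (pr β') (a i - a k))
(c β) i + deg P * sg b 0 (χ (leadingCoeff)) (c β) i`, and this is `syl P (δ i)` by `EqL.sym`. -/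
def StmtPrEq : Prop :=
  ∀ (F : Type u) [Field F] [Finite F] (ℓ : ℕ) (_ : ℓ.Prime) (_ : ℓ ∣ Nat.card F - 1)
    (χ : F → ZMod ℓ) (_ : IsLg ℓ χ) (m : ℕ) (a : Fin m → F[X]) (_ : Function.Injective a)
    (b : Fin m → ℕ) (_ : ¬ ℓ ∣ ∑ k, b k) (ι : Type) [Fintype ι] (pr : ι → F[X]) (_ : Fam pr)
    (_ : ∀ P : F[X], P.Monic → Irreducible P → ∀ i j, i ≠ j → P ∣ a i - a j → ∃ β, pr β = P)
    (ρ : ι → ZMod ℓ) (x c : ι → Fin m → ZMod ℓ) (_ : EqL χ b a pr ρ x c),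
    (∀ β, ∑ i, (b i : ZMod ℓ) * x β i = 0) ∧
    (∀ β i, vl ℓ (pr β) (twl pr fun β' => x β' i) =
      vl ℓ (pr β) (tal b (twl pr ρ) a (c β) i)) ∧
    ∀ β i, syl χ (pr β) (twl pr fun β' => x β' i) =
      syl χ (pr β) (tal b (twl pr ρ) a (c β) i)

open Classical in
/-- **PrSel** (solutions give Selmer elements; 250 lines; uses `StmtSuSy`, `StmtPrPwF`,
`StmtPrPwI`, `StmtPrGood`, `StmtPrEq`).

Proof. `δ i = twl pr fun β => x β i`, `E = twl pr ρ ≠ 0`. (1) `normGroup`: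
`∏ i, δ i ^ b i = ∏ β, pr β ^ (∑ i, b i * (x β i).val)`, and the exponents are divisible by `ℓ`
(`StmtPrEq`, first claim). (2) Let `v` be a prime of `F[X]`, `P` its MI generator. (2a) `P = pr β`. For
`h i = δ i * (tal b E a (c β) i) ^ (ℓ - 1)` (nonzero: `StmtPrEq` gives nothing about it, but `tal` is a
product of powers of `E (a i - a k)`, and the factor with `k = i` has exponent `0`), `vl P (h i)` and
`syl P (h i)` are `0` (`StmtPrEq`, `StmtSuSy`), so `h i` is an `ℓ`-th power in the completion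
(`StmtPrPwF`): `δ i = tal b E a (c β) i * z ^ ℓ` in the completion. The tuple `tal b E a (c β)` is in the
torsion group (`TorP.mem`), so its base change is in the local image
(`baseChange_mem_localImage`, Tors.lean; `pts_injective`), and `ℓ`-th powers are in the local image.
(2b) `P ∉ range pr`: `P ∤ E`, `P ∤ δ i`, `P ∤ a i - a j`, `vl P (δ i) = 0`, and `∑ b i * syl P (δ i) =
∑ β, (∑ i, b i * x β i) * syl P (pr β) = 0`: `StmtPrGood`. (3) Infinity: `δ i` is monic, of degree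
`∑ β, (x β i).val * deg (pr β)`, which is `0` modulo `ℓ` by `EqL.inf`; `χ 1 = 0`: `StmtPrPwI`. -/
def StmtPrSel : Prop :=
  ∀ (F : Type u) [Field F] [Finite F] (ℓ : ℕ) (_ : ℓ.Prime) (_ : RecP.{u} ℓ)
    (_ : ℓ ∣ Nat.card F - 1) (χ : F → ZMod ℓ) (_ : IsLg ℓ χ) (_ : χ (-1) = 0) (m : ℕ)
    (a : Fin m → F[X]) (_ : Function.Injective a) (b : Fin m → ℕ) (_ : ∀ i, ¬ ℓ ∣ b i)
    (_ : ¬ ℓ ∣ ∑ k, b k) (ι : Type) [Fintype ι] (pr : ι → F[X]) (_ : Fam pr)
    (_ : ∀ P : F[X], P.Monic → Irreducible P → ∀ i j, i ≠ j → P ∣ a i - a j → ∃ β, pr β = P)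
    (ρ : ι → ZMod ℓ) (_ : TorP ℓ (twl pr ρ) a b) (x c : ι → Fin m → ZMod ℓ)
    (_ : EqL χ b a pr ρ x c) (d : Fin m → (RatFunc F)ˣ)
    (_ : ∀ i, (d i : RatFunc F) = algebraMap F[X] (RatFunc F) (twl pr fun β => x β i)),
    d ∈ placesSelmer F[X] (RatFunc.inftyValuation F) ℓ (pts (twl pr ρ) a) b

/-- **PrInj** (different solutions, different classes; 200 lines; uses `StmtSuSy`, `StmtSuFac`,
`StmtSuTal`).

Proof. `E = twl pr ρ`. `TorP.ex` for `d / d'`: `c₀` with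
`twl (x · i) = twl (x' · i) * tal b E a c₀ i * z ^ ℓ`. Compare degrees modulo `ℓ` (write `z = f / g`):
`(tal b E a c₀ i).natDegree` is `0` in `ZMod ℓ`. By `StmtSuFac` (second claim; for `P ∉ range pr`,
`vl P (tal ..) = 0` by `StmtSuTal`) and `StmtSuTal`, it is
`∑ β, deg (pr β) * sg b (ρ β) (vl (pr β) (a i - a k)) c₀ i`. So `c₀ = 0` by the hypothesis on infinity,
`tal b E a 0 i = 1`, `twl (x · i) * g ^ ℓ = twl (x' · i) * f ^ ℓ`, and `vl (pr β)` gives
`x β i = x' β i` (`vl (pr β) (twl pr ρ) = ρ β`, as in `StmtPrEq`). -/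
def StmtPrInj : Prop :=
  ∀ (F : Type u) [Field F] [Finite F] (ℓ : ℕ) (_ : ℓ.Prime) (_ : ℓ ∣ Nat.card F - 1)
    (χ : F → ZMod ℓ) (_ : IsLg ℓ χ) (m : ℕ) (a : Fin m → F[X]) (_ : Function.Injective a)
    (b : Fin m → ℕ) (_ : ¬ ℓ ∣ ∑ k, b k) (ι : Type) [Fintype ι] (pr : ι → F[X]) (_ : Fam pr)
    (_ : ∀ P : F[X], P.Monic → Irreducible P → ∀ i j, i ≠ j → P ∣ a i - a j → ∃ β, pr β = P)
    (ρ : ι → ZMod ℓ) (_ : TorP ℓ (twl pr ρ) a b)
    (_ : ∀ c : Fin m → ZMod ℓ, ∑ i, (b i : ZMod ℓ) * c i = 0 →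
      (∀ i, ∑ β, ((pr β).natDegree : ZMod ℓ) *
        sg b (ρ β) (fun i k => vl ℓ (pr β) (a i - a k)) c i = 0) → ∀ i, c i = 0)
    (x x' : ι → Fin m → ZMod ℓ) (_ : ∀ i, ∑ β, ((pr β).natDegree : ZMod ℓ) * x β i = 0)
    (_ : ∀ i, ∑ β, ((pr β).natDegree : ZMod ℓ) * x' β i = 0) (d d' : Fin m → (RatFunc F)ˣ)
    (_ : ∀ i, (d i : RatFunc F) = algebraMap F[X] (RatFunc F) (twl pr fun β => x β i))
    (_ : ∀ i, (d' i : RatFunc F) = algebraMap F[X] (RatFunc F) (twl pr fun β => x' β i))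
    (_ : d / d' ∈ torsionGroup ℓ (pts (twl pr ρ) a) b), ∀ β i, x β i = x' β i

open Classical in
/-- **PrCnt** (`nSol ≤ #(S / T)`; 250 lines; uses `StmtPrSel`, `StmtPrInj`; model for the
translation between `SolW` and `EqL`: PpInj.lean).

Proof. Index set `ι = V ⊕ Fin |t|`, the primes `pr v` and those of `t`, `ρ = e v` and `1`:
`twl pr' ρ = twl pr e * ∏ P ∈ t, P`. For a solution `(c, f)` let `C β` be the vector `c v` or `f P` and
`x β i = sg b (ρ β) (vl (pr' β) (a i - a k)) (C β) i`. At `v` this is `(sigV b a (pr v) (e v) (c v)) i`,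
at `P ∈ t` it is `f P i` (`P` divides no `a i - a k`, otherwise `P = pr v`, so `vl = 0`). `EqL`: `mem` is
the condition of `Vs`, `inf`, `sym` are `SolW.inf`, `SolW.bad`, `SolW.good` (`lamV` is `sgV b 0 ..`, its
symmetry condition holds as `χ (-1) = 0`). Let `d i` be the unit `twl pr' (x · i)`: it is in the Selmer
group `S` (`StmtPrSel`). The map from the solutions to `S ⧸ T.subgroupOf S` is injective: if `d / d'`
is in `T`, then `x = x'` by `StmtPrInj` (the condition on infinity is `InfW`: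
`∑ v, deg (pr v) • σ v c + n • c = 0`, `n = ∑ P ∈ t, deg P`), so `f = f'` and, by the injectivity of
the `σ v`, `c = c'`. The quotient is finite, because the relative index is not `0`, and its order is
the relative index. -/
def StmtPrCnt : Prop :=
  ∀ (F : Type u) [Field F] [Finite F] (ℓ : ℕ) [Fact ℓ.Prime] (_ : RecP.{u} ℓ)
    (_ : ℓ ∣ Nat.card F - 1) (χ : F → ZMod ℓ) (_ : IsLg ℓ χ) (_ : χ (-1) = 0) (m : ℕ)
    (a : Fin m → F[X]) (_ : Function.Injective a) (b : Fin m → ℕ) (_ : ∀ i, ¬ ℓ ∣ b i)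
    (_ : ¬ ℓ ∣ ∑ k, b k) (V : Type) [Fintype V] (pr : V → F[X]) (_ : Fam pr)
    (_ : ∀ P : F[X], P.Monic → Irreducible P → ∀ i j, i ≠ j → P ∣ a i - a j → ∃ v, pr v = P)
    (e : V → ZMod ℓ) (_ : ∀ v y, sigV b a (pr v) (e v) y = 0 → y = 0) (n : ℕ)
    (_ : InfW pr (fun v => sigV b a (pr v) (e v)) n) (t : Finset F[X]) (_ : t ∈ gs F pr n)
    (_ : TorP ℓ (twl pr e * ∏ P ∈ t, P) a b)
    (_ : (torsionGroup ℓ (pts (twl pr e * ∏ P ∈ t, P) a) b).relIndex
      (placesSelmer F[X] (RatFunc.inftyValuation F) ℓ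
        (pts (twl pr e * ∏ P ∈ t, P) a) b) ≠ 0),
    nSol χ pr (fun v => sigV b a (pr v) (e v)) (lamV χ b a) t ≤
      (torsionGroup ℓ (pts (twl pr e * ∏ P ∈ t, P) a) b).relIndex
        (placesSelmer F[X] (RatFunc.inftyValuation F) ℓ (pts (twl pr e * ∏ P ∈ t, P) a) b)

/-! ### Powers and the distribution -/

/-- **PrPow** (powers of a system; 100 lines).

Proof. Everything is componentwise: a solution for `Sys.pi fun _ : Fin k => S` is a family of `k`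
solutions for `S`. -/
def StmtPrPow : Prop :=
  ∀ (F : Type u) [Field F] (ℓ : ℕ) (V : Type) [Fintype V] (χ : F → ZMod ℓ) (pr : V → F[X])
    (S : Sys ℓ V) (k : ℕ),
    (HypW χ pr S.σ S.Λ →
      HypW χ pr (Sys.pi fun _ : Fin k => S).σ (Sys.pi fun _ : Fin k => S).Λ) ∧
    (∀ n, InfW pr S.σ n → InfW pr (Sys.pi fun _ : Fin k => S).σ n) ∧
    ∀ t : Finset F[X], (Sys.pi fun _ : Fin k => S).sol χ pr t = S.sol χ pr t ^ k

/-- **PrEul** (the limit in the connected case, both bounds; 300 lines).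

Proof. `fm` as in `StmtPqEul` (read its proof first; `x = 1 / q`, `G z = ∑_j (- z) ^ j /
∏_{i = 1}^j (1 - x ^ i)`, `f_J` with `J` odd for `fm`). `fp = f_J` with `J` even: `f_J (1) = 1`,
`f_J (q ^ r) = 0` for `1 ≤ r ≤ J`, and it is positive for `r > J`, because
`f_J = ∏_{i = 1}^J (q ^ i - X) / (q ^ i - 1)`. `L f_J → G x` for all `J → ∞`. So it remains to show
`G x = ∏' i, (1 - x ^ (2 i + 1))`. `G x = G (x ^ (N + 1)) / ∏_{i = 1}^N (1 + x ^ i)` and
`G (x ^ (N + 1)) → 1`. `∏_{i = 1}^N (1 + x ^ i) = ∏_{i = 1}^N (1 - x ^ (2 i)) / ∏_{i = 1}^N (1 - x ^ i)` and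
`∏_{i = 1}^{2 N} (1 - x ^ i) = ∏_{i = 1}^N (1 - x ^ (2 i)) * ∏_{i < N} (1 - x ^ (2 i + 1))`, so
`1 / ∏_{i = 1}^N (1 + x ^ i) = ∏_{i < N} (1 - x ^ (2 i + 1)) / ∏_{i = N + 1}^{2 N} (1 - x ^ i)`, where
`∏_{i < N} (1 - x ^ (2 i + 1)) → ∏' i, (1 - x ^ (2 i + 1))` and `∏_{i = N + 1}^{2 N} (1 - x ^ i) → 1`
(it is between `1 - ∑_{i > N} x ^ i = 1 - x ^ (N + 1) / (1 - x)` and `1`). -/
def StmtPrEul : Prop :=
  ∀ (q : ℝ) (_ : 3 ≤ q) (L : ℝ[X] →ₗ[ℝ] ℝ)
    (_ : ∀ j : ℕ, L (Eq_ q j) = q ^ (j * (j - 1) / 2)) (η : ℝ) (_ : 0 < η),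
    ∃ fm fp : ℝ[X], (∀ r : ℕ, fm.eval (q ^ r) ≤ (if r = 0 then 1 else 0) ∧
      (if r = 0 then 1 else 0) ≤ fp.eval (q ^ r)) ∧
      (∏' i : ℕ, (1 - (q⁻¹) ^ (2 * i + 1))) - η ≤ L fm ∧
      L fp ≤ (∏' i : ℕ, (1 - (q⁻¹) ^ (2 * i + 1))) + η

open Classical in
/-- **PrDis** (the distribution; 200 lines; uses `StmtPqMul`, `StmtPqFun`, `StmtPrEul`).

Proof. `L` the functional with `L (Eq_ q j) = q ^ (j (j - 1) / 2)` (`StmtPqFun`). `StmtPqMul` for the
index set `Unit`: for all polynomials `f`, `|∑_t f (x t) - L f * |G n|| ≤ ε Q ^ n`. Fix `r` and let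
`c = (Eq_ q r).eval (q ^ r) = ∏_{j < r} (q ^ r - q ^ j) = q ^ (r (r - 1) / 2) * Π`,
`Π = ∏_{i < r} (q ^ (i + 1) - 1) ≥ 1`. For a polynomial `f` let
`T f = C c⁻¹ * Eq_ q r * f.comp (C (q ^ r)⁻¹ * X)`. `L (T f) = L f / Π`: both sides are linear in `f`, the
`Eq_ q j` span (monic of degree `j`), and `Eq_ q r * (Eq_ q j).comp (C (q ^ r)⁻¹ * X) =
C (q ^ (r j))⁻¹ * Eq_ q (r + j)`, `(r + j) (r + j - 1) / 2 = r (r - 1) / 2 + j (j - 1) / 2 + r j`. With
`fm`, `fp` from `StmtPrEul`: `T fm (q ^ s) ≤ [s = r] ≤ T fp (q ^ s)` for all `s`: for `s < r` all are `0`;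
for `s ≥ r` the factor `(Eq_ q r).eval (q ^ s)` is `≥ 0` and `fm`, `fp` are evaluated at `q ^ (s - r)`;
for `s = r` the factor is `c`. Sum over `t`: the number of the `t` with `x t = q ^ r` is at most
`∑_t T fp (x t) ≤ (α + η) / Π * |G n| + ε' Q ^ n` and at least `(α - η) / Π * |G n| - ε' Q ^ n`,
`α = ∏' i, (1 - (q⁻¹) ^ (2 i + 1))`. (`q ^ s = q ^ r` iff `s = r`, as `q > 1`.) -/
def StmtPrDis : Prop :=
  ∀ (α : Type u) (G : ℕ → Finset α) (good : ℕ → Prop) (Q : ℝ) (_ : 0 < Q) (q : ℝ) (_ : 3 ≤ q)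
    (x : α → ℝ) (_ : ∀ t, ∃ r : ℕ, x t = q ^ r)
    (_ : ∀ (j : ℕ) (ε : ℝ), 0 < ε → ∃ n₀ : ℕ, ∀ n : ℕ, n₀ ≤ n → good n →
      |∑ t ∈ G n, (Eq_ q j).eval (x t) - q ^ (j * (j - 1) / 2) * ((G n).card : ℝ)| ≤ ε * Q ^ n)
    (r : ℕ) (ε : ℝ) (_ : 0 < ε), ∃ n₀ : ℕ, ∀ n : ℕ, n₀ ≤ n → good n →
      |(((G n).filter fun t => x t = q ^ r).card : ℝ) -
        (∏' i : ℕ, (1 - (q⁻¹) ^ (2 * i + 1))) / (∏ i ∈ Finset.range r, (q ^ (i + 1) - 1)) *
          ((G n).card : ℝ)| ≤ ε * ((G n).card : ℝ) + ε * Q ^ n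

end MP72e2e6
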