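import Pool.Agent.Lib.MP_72e2e6_nt.PeStmtB
import Pool.Agent.Lib.MP_72e2e6_nt.PrStmt

/-!
# MP_72e2e6_nt: uniform tameness, arithmetic part, statements of the modules

All primes `ℓ` with `ℓ ∣ |F| - 1` and `χ (-1) = 0` (i.e. `4 ∣ |F| - 1` for `ℓ = 2`), exponents
`b i` and `∑ b i` prime to `ℓ`, and the weak tameness `Tam`: no condition on the balls. Moreover a
more general condition `ConnG` for the irreducibility, and the parity for `ℓ = 2`.

Every module proves one of the propositions `StmtPgX` below: file `PgX.lean` (same folder, import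
this file and the files it uses) with `theorem tPgX.{u} : StmtPgX.{u}` (or
`theorem tPgX.{u} (h : StmtY.{u}) .. : StmtPgX.{u}` if the docstring says: uses `StmtY`, in this
order; no universe for `PgInj`, `PgCom`, `PgIrr`, `PgEx`, `PgTri`, `PgFix`). The complete proofs are
in the docstrings. Many modules are copies of finished files with small changes. `MI` means monic
irreducible, `a ~ b` means: `a / b` is an `ℓ`-th power.
-/

namespace MP72e2e6

open Polynomial IsDedekindDomain WithZero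

universe u

/-! ### Definitions -/

/-- Weak tameness: no component of the special fibre is unramified; `e` is the valuation of the
twist and `w i k` the one of `a i - a k`. -/
def Tam (ℓ : ℕ) {m : ℕ} (b : Fin m → ℕ) (w : Fin m → Fin m → ℤ) (e : ℤ) : Prop :=
  ∀ j i, j ≠ i → ¬ (ℓ : ℤ) ∣ e * (∑ k, (b k : ℤ)) + lev b w j i

/-- The monic twisting polynomials without divisors `P ^ ℓ` which are tame at the primes dividing
the differences. -/
structure TDg {F : Type u} [Field F] {m : ℕ} (ℓ : ℕ) (b : Fin m → ℕ) (a : Fin m → F[X])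
    (D : F[X]) : Prop where
  monic : D.Monic
  free : ∀ P : F[X], P.Monic → Irreducible P → multiplicity P D < ℓ
  tame : ∀ P : F[X], P.Monic → Irreducible P → (∃ i j, i ≠ j ∧ P ∣ a i - a j) →
    Tam ℓ b (wP P a) (multiplicity P D : ℤ)

/-- The pair `i`, `j` is an edge if `a i - a j` does not occur in any relation of degree zero
between the differences modulo `ℓ`-th powers: if a product of powers of differences, with a sum of
exponents divisible by `ℓ`, is an `ℓ`-th power, then the exponent of `a i - a j` is divisible by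
`ℓ`. -/
def Edg {F : Type u} [Field F] {m : ℕ} (ℓ : ℕ) (a : Fin m → F[X]) (i j : Fin m) : Prop :=
  ∀ n : Fin m → Fin m → ℕ, (∀ k, n k k = 0) → ℓ ∣ ∑ k, ∑ l, n k l →
    (∃ z : F[X], ∏ k, ∏ l, (a k - a l) ^ n k l = z ^ ℓ) → ℓ ∣ n i j + n j i

/-- The graph of the edges is connected. -/
def ConnG {F : Type u} [Field F] {m : ℕ} (ℓ : ℕ) (a : Fin m → F[X]) : Prop :=
  ∀ s : Finset (Fin m), s.Nonempty → s ≠ Finset.univ → ∃ i ∈ s, ∃ j, j ∉ s ∧ Edg ℓ a i j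

/-- The edge operator `x ↦ (x i - x j) (b j u i - b i u j)` is, up to a scalar, in the span of the
operators. -/
def EdOp {ℓ m : ℕ} {V : Type} [Fintype V] (b : Fin m → ℕ)
    (σ : V → Module.End (ZMod ℓ) (Vs ℓ b)) (Λ : Module.End (ZMod ℓ) (Vs ℓ b)) (i j : Fin m) : Prop :=
  ∃ (κ : V → ZMod ℓ) (κ₀ r μ : ZMod ℓ), μ ≠ 0 ∧ ∀ (x : Vs ℓ b) (k : Fin m),
    (∑ v, κ v • σ v x + κ₀ • Λ x : Vs ℓ b).1 k =
      r * x.1 k + μ * (x.1 i - x.1 j) *
        (if k = i then (b j : ZMod ℓ) else if k = j then -(b i : ZMod ℓ) else 0)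

/-- The standard form `∑ b i x i y i`. -/
def stf {ℓ m : ℕ} (b : Fin m → ℕ) (x y : Fin m → ZMod ℓ) : ZMod ℓ :=
  ∑ i, (b i : ZMod ℓ) * x i * y i

/-! ### The local lemma -/

/-- **PgNrm** (norms from a ramified extension; 200 lines).

Proof. `κ` is not an `ℓ`-th power in `M` (`log (v (z ^ ℓ)) = ℓ * log (v z)`), so `X ^ ℓ - C κ` is
irreducible (`X_pow_sub_C_irreducible_of_prime`), it is the minimal polynomial of `s`, and
`M' = M⟮s⟯` has degree `ℓ` over `M`: `ℓ ∣ [L : M]`. By transitivity of the norm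
(`Algebra.norm_norm`) we may replace `y` by its norm `x ∈ M'`, `x ≠ 0`. `x = ∑_{i < ℓ} α i s ^ i`,
`α i ∈ M` (power basis). Give `M'` the spectral norm (as in `tSuLoc`, `suloc_core` in SuLoc.lean: a
complete ultrametric normed field, `NormedAlgebra M M'`, characteristic `p`), `‖s‖ ^ ℓ = ‖κ‖`. The
nonzero terms `α i s ^ i` have distinct norms: `‖α i s ^ i‖ = ‖α j s ^ j‖` with `i ≤ j` gives
`‖α i‖ ^ ℓ = ‖α j‖ ^ ℓ * ‖κ‖ ^ (j - i)`, so `v (α i) ^ ℓ = v (α j) ^ ℓ * v κ ^ (j - i)` (`hv` in both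
directions), and the logarithms give `ℓ ∣ (j - i) * log (v κ)`, so `i = j`. Let `α n s ^ n` be the
term of largest norm; then `‖x - α n s ^ n‖ < ‖α n s ^ n‖`, so `x = α n * s ^ n * z ^ ℓ` with `z ∈ M'`,
`z ≠ 0` (`suloc_near` in SuLoc.lean). So `N x = α n ^ ℓ * (N s) ^ n * (N z) ^ ℓ`, and
`N s = (-1) ^ (ℓ + 1) * κ` (the constant coefficient of the minimal polynomial:
`Algebra.norm_gen_eq_coeff_zero_minpoly` or `PowerBasis.norm_gen_eq_coeff_zero_minpoly`), and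
`(-1) ^ (ℓ + 1) = (z₀ ^ (ℓ + 1)) ^ ℓ`. -/
def StmtPgNrm : Prop :=
  ∀ (M L : Type u) [NontriviallyNormedField M] [IsUltrametricDist M]
    [CompleteSpace M] (p : ℕ) [Fact p.Prime] [CharP M p] (ℓ : ℕ) (_ : ℓ.Prime)
    (_ : ℓ.Coprime p)
    (v : Valuation M (WithZero (Multiplicative ℤ))) (_ : ∀ x y : M, ‖x‖ ≤ ‖y‖ ↔ v x ≤ v y)
    (κ z₀ : M) (_ : κ ≠ 0) (_ : ¬ (ℓ : ℤ) ∣ log (v κ)) (_ : z₀ ^ ℓ = -1)
    [Field L] [Algebra M L] [FiniteDimensional M L] (s : L) (_ : s ^ ℓ = algebraMap M L κ),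
    ℓ ∣ Module.finrank M L ∧
    ∀ y : L, y ≠ 0 → ∃ (n : ℕ) (z : M), z ≠ 0 ∧ Algebra.norm M y = κ ^ n * z ^ ℓ

/-- **PgLoc** (the local lemma; copy SuLoc.lean; 150 new lines; uses `StmtPgNrm`).

Proof. The proof of `StmtSuLoc` (read its docstring in SuStmt.lean) with two changes. (1) `ℓ = 2` is
allowed: `-1 = z₀ ^ ℓ` is an `ℓ`-th power in `M` (instead of `ℓ` odd). (2) There is no hypothesis on
balls: in case 2 (`‖A j - A i‖ ≠ r` for all `i ≠ j`, `s = {k | ‖A j - A k‖ < r}`, `β = ∑_{k ∈ s} b k`,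
`κ = ∏_{k ∉ s} (A j - A k) ^ b k`, `X j ^ β * κ ~ 1`) the proof of SuLoc.lean works if `ℓ ∤ β`. Let
`ℓ ∣ β`. Then `κ ~ 1` in `L`: `s₀ ^ ℓ = κ` for some `s₀ ∈ L`, `s₀ ≠ 0`. `s ≠ {j}` (`ℓ ∤ b j`); let
`i ∈ s`, `i ≠ j`, with `‖A j - A i‖` maximal. `ram` for `j, i`: `ℓ` does not divide
`∑ k, b k * log (max (v (A j - A k)) (v (A j - A i))) = β * log (v (A j - A i)) + log (v κ)`, so
`ℓ ∤ log (v κ)`. `StmtPgNrm` for `κ`, `s₀`: `ℓ ∣ f = [L : M]`, and
`N (X j) = κ ^ n * z ^ ℓ`. So `d k ~ κ ^ n` for `k ∈ s` (`X k ~ X j`) and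
`d k ~ (A j - A k) ^ f ~ 1` for `k ∉ s`. With `T i = ∏_{k ∈ s} torsionTuple A b k i`: `T i ~ κ⁻¹` for
`i ∈ s` and `T i ~ (A j - A i) ^ β ~ 1` for `i ∉ s` (`hTs`, `hTns` in SuLoc.lean). So
`d ~ T ^ ((ℓ - 1) n)`: `suloc_mem`. -/
def StmtPgLoc : Prop :=
  ∀ (F M : Type u) [Field F] [Finite F] [NontriviallyNormedField M] [IsUltrametricDist M]
    [CompleteSpace M] [Algebra F M] (p : ℕ) [Fact p.Prime] [CharP F p] (ℓ : ℕ) (_ : ℓ.Prime)
    (_ : ℓ.Coprime p) (z₀ : M) (_ : z₀ ^ ℓ = -1)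
    (_ : ∀ y : M, ‖y‖ ≤ 1 → ∃ α : F, ‖y - algebraMap F M α‖ < 1)
    (v : Valuation M (WithZero (Multiplicative ℤ))) (_ : ∀ x y : M, ‖x‖ ≤ ‖y‖ ↔ v x ≤ v y)
    (m : ℕ) (_ : 0 < m) (A : Fin m → M) (_ : Function.Injective A) (b : Fin m → ℕ)
    (_ : ∀ i, ¬ ℓ ∣ b i)
    (_ : ∀ j i, j ≠ i →
      ¬ (ℓ : ℤ) ∣ ∑ k, (b k : ℤ) * log (max (v (A j - A k)) (v (A j - A i)))),
    localImage ℓ A b M ≤ torsionGroup ℓ A b

/-- **PgLocV** (copy SuLocV.lean; uses `StmtPgLoc`). -/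
def StmtPgLocV : Prop :=
  ∀ (M : Type u) [Field M] [Valued M (WithZero (Multiplicative ℤ))] [CompleteSpace M] (p N : ℕ)
    [Fact p.Prime] [CharP M p] (ℓ : ℕ) (_ : ℓ.Prime) (_ : ℓ.Coprime p) (z₀ : M)
    (_ : z₀ ^ ℓ = -1) (_ : N ≠ 0)
    (_ : ∃ x : M, Valued.v x ≠ 0 ∧ Valued.v x ≠ 1)
    (_ : ∀ y : M, Valued.v y ≤ 1 → Valued.v (y ^ p ^ N - y) < 1)
    (m : ℕ) (_ : 0 < m) (A : Fin m → M) (_ : Function.Injective A) (b : Fin m → ℕ)
    (_ : ∀ i, ¬ ℓ ∣ b i)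
    (_ : ∀ j i, j ≠ i →
      ¬ (ℓ : ℤ) ∣ ∑ k, (b k : ℤ) * log (max (Valued.v (A j - A k)) (Valued.v (A j - A i)))),
    localImage ℓ A b M ≤ torsionGroup ℓ A b

/-- **PgLocF** (copy SuLocF.lean; uses `StmtPgLocV`). -/
def StmtPgLocF : Prop :=
  ∀ (F : Type u) [Field F] [Finite F] (ℓ : ℕ) (_ : ℓ.Prime) (_ : ℓ ∣ Nat.card F - 1)
    (_ : ∃ z : F, z ^ ℓ = -1)
    (m : ℕ) (_ : 0 < m) (E : F[X]) (_ : E ≠ 0) (a : Fin m → F[X]) (_ : Function.Injective a)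
    (b : Fin m → ℕ) (_ : ∀ i, ¬ ℓ ∣ b i) (v : HeightOneSpectrum F[X]) (P : F[X]) (_ : P.Monic)
    (_ : Irreducible P)
    (_ : v.asIdeal = Ideal.span {P}) (_ : Tam ℓ b (wP P a) (multiplicity P E : ℤ))
    (d : Fin m → (v.adicCompletion (RatFunc F))ˣ)
    (_ : d ∈ localImage ℓ (pts E a) b (v.adicCompletion (RatFunc F))),
    ∃ t ∈ torsionGroup ℓ (pts E a) b, ∃ z : Fin m → (v.adicCompletion (RatFunc F))ˣ,
      d = baseChange (v.adicCompletion (RatFunc F)) t * z ^ ℓ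

open Classical in
/-- **PgLocI** (copy SuLocI.lean; uses `StmtPgLocV`). -/
def StmtPgLocI : Prop :=
  ∀ (F : Type u) [Field F] [Finite F] (ℓ : ℕ) (_ : ℓ.Prime) (_ : ℓ ∣ Nat.card F - 1)
    (_ : ∃ z : F, z ^ ℓ = -1)
    (m : ℕ) (_ : 0 < m) (E : F[X]) (_ : E ≠ 0) (a : Fin m → F[X]) (_ : Function.Injective a)
    (b : Fin m → ℕ) (_ : ∀ i, ¬ ℓ ∣ b i) (_ : Tam ℓ b (wI a) (-(E.natDegree : ℤ)))
    (d : Fin m → ((RatFunc.inftyValuation F).Completion)ˣ)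
    (_ : d ∈ localImage ℓ (pts E a) b (RatFunc.inftyValuation F).Completion),
    ∃ t ∈ torsionGroup ℓ (pts E a) b,
      ∃ z : Fin m → ((RatFunc.inftyValuation F).Completion)ˣ,
        d = baseChange (RatFunc.inftyValuation F).Completion t * z ^ ℓ

/-- **PgTor** (copy SuTor.lean; `-1` is an `ℓ`-th power instead of `ℓ` odd). -/
def StmtPgTor : Prop :=
  ∀ (F : Type u) [Field F] (ℓ : ℕ) (_ : ℓ.Prime) (_ : ∃ z : F, z ^ ℓ = -1) (m : ℕ) (E : F[X])
    (_ : E ≠ 0) (a : Fin m → F[X]) (_ : Function.Injective a) (b : Fin m → ℕ)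
    (_ : ¬ ℓ ∣ ∑ k, b k), TorP ℓ E a b

open Classical in
/-- **PgSel** (copy PpSel.lean; uses `StmtSuSy`, `StmtSuTal`, `StmtPgLocF`, `StmtPgLocI`,
`StmtSuPwF`, `StmtSuPwI`, `StmtPgTor`, in this order). -/
def StmtPgSel : Prop :=
  ∀ (F : Type u) [Field F] [Finite F] (ℓ : ℕ) (_ : ℓ.Prime) (_ : ℓ ∣ Nat.card F - 1)
    (χ : F → ZMod ℓ) (_ : IsLg ℓ χ) (_ : χ (-1) = 0) (m : ℕ) (_ : 0 < m) (a : Fin m → F[X])
    (_ : Function.Injective a) (b : Fin m → ℕ) (_ : ∀ i, ¬ ℓ ∣ b i) (_ : ¬ ℓ ∣ ∑ k, b k)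
    (ι : Type) [Fintype ι] (pr : ι → F[X]) (_ : Fam pr)
    (_ : ∀ P : F[X], P.Monic → Irreducible P → ∀ i j, i ≠ j → P ∣ a i - a j → ∃ β, pr β = P)
    (ρ : ι → ZMod ℓ) (_ : ∀ β, Tam ℓ b (wP (pr β) a) ((ρ β).val : ℤ))
    (_ : Tam ℓ b (wI a) (-((twl pr ρ).natDegree : ℤ)))
    (d : Fin m → (RatFunc F)ˣ)
    (_ : d ∈ placesSelmer F[X] (RatFunc.inftyValuation F) ℓ (pts (twl pr ρ) a) b),
    ∃ δ : Fin m → F[X], (∀ i, δ i ≠ 0) ∧
      (∀ P : F[X], P.Monic → Irreducible P → (∀ β, pr β ≠ P) → ∀ i, vl ℓ P (δ i) = 0) ∧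
      (∀ i, ((δ i).natDegree : ZMod ℓ) = 0 ∧ χ (δ i).leadingCoeff = 0) ∧
      (∀ β, ∃ c : Fin m → ZMod ℓ, ∑ i, (b i : ZMod ℓ) * c i = 0 ∧ ∀ i,
        vl ℓ (pr β) (δ i) = vl ℓ (pr β) (tal b (twl pr ρ) a c i) ∧
        syl χ (pr β) (δ i) = syl χ (pr β) (tal b (twl pr ρ) a c i)) ∧
      ∃ c₀ : Fin m → ZMod ℓ, ∑ i, (b i : ZMod ℓ) * c₀ i = 0 ∧ ∀ i, ∃ z : RatFunc F,
        (d i : RatFunc F) =
          algebraMap F[X] (RatFunc F) (δ i * tal b (twl pr ρ) a c₀ i) * z ^ ℓ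

open Classical in
/-- **PgEq** (copy PpEq.lean; uses `StmtSuSy`, `StmtSuFac`, `StmtSuTal`, `StmtPgSel`). -/
def StmtPgEq : Prop :=
  ∀ (F : Type u) [Field F] [Finite F] (ℓ : ℕ) (_ : ℓ.Prime) (_ : ℓ ∣ Nat.card F - 1)
    (χ : F → ZMod ℓ) (_ : IsLg ℓ χ) (_ : χ (-1) = 0) (m : ℕ) (_ : 0 < m) (a : Fin m → F[X])
    (_ : Function.Injective a) (b : Fin m → ℕ) (_ : ∀ i, ¬ ℓ ∣ b i) (_ : ¬ ℓ ∣ ∑ k, b k)
    (ι : Type) [Fintype ι] (pr : ι → F[X]) (_ : Fam pr)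
    (_ : ∀ P : F[X], P.Monic → Irreducible P → ∀ i j, i ≠ j → P ∣ a i - a j → ∃ β, pr β = P)
    (ρ : ι → ZMod ℓ) (_ : ∀ β, Tam ℓ b (wP (pr β) a) ((ρ β).val : ℤ))
    (_ : Tam ℓ b (wI a) (-((twl pr ρ).natDegree : ℤ)))
    (d : Fin m → (RatFunc F)ˣ)
    (_ : d ∈ placesSelmer F[X] (RatFunc.inftyValuation F) ℓ (pts (twl pr ρ) a) b),
    ∃ x c : ι → Fin m → ZMod ℓ, EqL χ b a pr ρ x c ∧
      ∃ δ : Fin m → F[X], (∀ i, δ i ≠ 0 ∧ χ (δ i).leadingCoeff = 0) ∧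
        (∀ P : F[X], P.Monic → Irreducible P → (∀ β, pr β ≠ P) → ∀ i, vl ℓ P (δ i) = 0) ∧
        (∀ β i, vl ℓ (pr β) (δ i) = x β i) ∧
        ∃ c₀ : Fin m → ZMod ℓ, ∑ i, (b i : ZMod ℓ) * c₀ i = 0 ∧ ∀ i, ∃ z : RatFunc F,
          (d i : RatFunc F) =
            algebraMap F[X] (RatFunc F) (δ i * tal b (twl pr ρ) a c₀ i) * z ^ ℓ

open Classical in
/-- **PgRel** (the order of the Selmer group; copy PpInj.lean and the lemma `pplnk_sol` of
PpLnk.lean, with `χ (-1) = 0` instead of `ℓ ≠ 2`; uses `StmtSuSy`, `StmtSuFac`, `StmtPgTor`,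
`StmtPgEq`). -/
def StmtPgRel : Prop :=
  ∀ (F : Type u) [Field F] [Finite F] (ℓ : ℕ) [Fact ℓ.Prime]
    (_ : ℓ ∣ Nat.card F - 1) (χ : F → ZMod ℓ) (_ : IsLg ℓ χ) (_ : χ (-1) = 0)
    (_ : Rcp χ) (m : ℕ) (_ : 0 < m)
    (a : Fin m → F[X]) (_ : Function.Injective a) (b : Fin m → ℕ) (_ : ∀ i, ¬ ℓ ∣ b i)
    (_ : ¬ ℓ ∣ ∑ k, b k) (V : Type) [Fintype V]
    (pr : V → F[X]) (_ : Fam pr)
    (_ : ∀ P : F[X], P.Monic → Irreducible P → ∀ i j, i ≠ j → P ∣ a i - a j → ∃ v, pr v = P)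
    (e : V → ZMod ℓ) (_ : ∀ v, Tam ℓ b (wP (pr v) a) ((e v).val : ℤ)) (n : ℕ)
    (t : Finset F[X]) (_ : t ∈ gs F pr n)
    (_ : Tam ℓ b (wI a) (-(((twl pr e).natDegree + n : ℕ) : ℤ))),
    (torsionGroup ℓ (pts (twl pr e * ∏ P ∈ t, P) a) b).relIndex
        (placesSelmer F[X] (RatFunc.inftyValuation F) ℓ (pts (twl pr e * ∏ P ∈ t, P) a) b) ≠ 0 ∧
      (torsionGroup ℓ (pts (twl pr e * ∏ P ∈ t, P) a) b).relIndex
        (placesSelmer F[X] (RatFunc.inftyValuation F) ℓ (pts (twl pr e * ∏ P ∈ t, P) a) b) ≤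
      nSol χ pr (fun v => sigV b a (pr v) (e v)) (lamV χ b a) t

/-! ### The operators -/

/-- **PgInj** (injectivity; 150 lines; no universe).

Proof. `B = ∑ b k ≠ 0` in `ZMod ℓ`. The hypothesis says
`e B c i + ∑_k b k w i k (c i - c k) = 0` for all `i` (multiply by `B`). Suppose that `c` is not
constant; choose `i, i'` with `c i ≠ c i'` and `w i i'` maximal. Subtract the equations for `i`, `i'`:
`e B (c i - c i') + ∑_k b k (w i k (c i - c k) - w i' k (c i' - c k)) = 0`. Claim: the `k`-th term of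
the sum is `b k * μ k * (c i - c i')` with `μ k` the number in `lev b w i i'` (`w i i'` for `k = i`,
`min (w i k) (w i i')` otherwise). For `k = i` and `k = i'` clear (`w i' i = w i i'`). Let
`k ≠ i, i'`. If `w i k < w i i'` then `w i' k = w i k` (`Ultra`), clear. If `w i k > w i i'` then
`w i' k = w i i'`, and `c k = c i` by maximality: the term is `- b k w i i' (c i' - c i)`. If
`w i k = w i i'` then `w i' k ≥ w i i'`; if it is equal, clear; if it is larger then `c k = c i'` by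
maximality: the term is `b k w i i' (c i - c i')`. So `(e B + lev b w i i') (c i - c i') = 0`,
against `Tam`. So `c` is constant, and `∑ b i * c i = B * c i = 0` gives `c = 0`. -/
def StmtPgInj : Prop :=
  ∀ (ℓ m : ℕ) [Fact ℓ.Prime] (b : Fin m → ℕ) (_ : ¬ ℓ ∣ ∑ k, b k) (w : Fin m → Fin m → ℤ)
    (_ : Ultra w) (e : ℤ) (_ : Tam ℓ b w e) (c : Fin m → ZMod ℓ)
    (_ : ∑ i, (b i : ZMod ℓ) * c i = 0)
    (_ : ∀ i, sg b (e : ZMod ℓ) (fun i k => (w i k : ZMod ℓ)) c i = 0), ∀ i, c i = 0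

/-- **PgCom** (the operators commute; 150 lines; no universe; uses `StmtPpCom`).

Proof. For `ℓ ≠ 2`: `StmtPpCom`. Let `ℓ = 2`. As in the proof of `StmtPpCom` (PpCom.lean) it is
enough that `∑_{k, j} F k j = 0` with `F k j = b k b j (w i k (y i j (c i - c j) - y k j (c k - c j)) -
y i k (w i j (c i - c j) - w k j (c k - c j)))`. `F k k = 0`, and `F k j + F j k = b k b j (c k - c j) *
(w i j (y k j - y i k) + w i k (y i j - y k j) + w k j (y i k - y i j)) = 0` (the bracket vanishes by the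
proof of `StmtPpCom`). So `F k j = F j k` in characteristic two, and the sum of a symmetric function
with zero diagonal is `0` in characteristic two (`pefrm_double` in PeFrm.lean, or prove it). -/
def StmtPgCom : Prop :=
  ∀ (ℓ : ℕ) (_ : ℓ.Prime) (m : ℕ) (b : Fin m → ℕ) (w : Fin m → Fin m → ℤ)
    (_ : Ultra w) (y : Fin m → Fin m → ZMod ℓ) (_ : ∀ i k, y i k = y k i)
    (_ : ∀ i j k, i ≠ j → j ≠ k → i ≠ k → w i k < w i j → y j k = y i k) (ρ ρ' : ZMod ℓ)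
    (c : Fin m → ZMod ℓ) (i : Fin m),
    sg b ρ (fun i k => (w i k : ZMod ℓ)) (sg b ρ' y c) i =
      sg b ρ' y (sg b ρ (fun i k => (w i k : ZMod ℓ)) c) i

/-- **PgHyp** (copy PpHyp.lean; uses `StmtSuSy`, `StmtSuFac`, `StmtPgInj`, `StmtPgCom`). -/
def StmtPgHyp : Prop :=
  ∀ (F : Type u) [Field F] [Finite F] (ℓ : ℕ) [Fact ℓ.Prime]
    (_ : ℓ ∣ Nat.card F - 1) (χ : F → ZMod ℓ) (_ : IsLg ℓ χ) (_ : χ (-1) = 0) (m : ℕ)
    (a : Fin m → F[X]) (_ : Function.Injective a) (b : Fin m → ℕ) (_ : ¬ ℓ ∣ ∑ k, b k)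
    (V : Type) [Fintype V] (pr : V → F[X]) (_ : Fam pr)
    (_ : ∀ P : F[X], P.Monic → Irreducible P → ∀ i j, i ≠ j → P ∣ a i - a j → ∃ v, pr v = P)
    (e : V → ZMod ℓ) (_ : ∀ v, Tam ℓ b (wP (pr v) a) ((e v).val : ℤ)),
    HypW χ pr (fun v => sigV b a (pr v) (e v)) (lamV χ b a) ∧
    ∀ n : ℕ, Tam ℓ b (wI a) (-(((twl pr e).natDegree + n : ℕ) : ℤ)) →
      InfW pr (fun v => sigV b a (pr v) (e v)) n

/-- **PgEdg** (edges give edge operators; 250 lines; uses `StmtSuSy`, `StmtSuFac`).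

Proof. Consider the vectors `u v (k, l) = vl (pr v) (a k - a l)`, `u₀ (k, l) = χ (leadingCoeff
(a k - a l))` and `1`, for `k ≠ l`, and `0` for `k = l`, in `Fin m × Fin m → ZMod ℓ`, and let `t` be
`1` at `(i, j)` and `(j, i)` and `0` elsewhere. Claim: `t` is in the span of the `u v`, `u₀` and `1`.
Otherwise there is a functional `φ`, `φ f = ∑ φ_{k, l} f (k, l)`, which is `0` on the span and not `0`
at `t` (`Submodule.exists_le_ker_of_notMem` or `Submodule.exists_dual_map_eq_bot_of_notMem`). Let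
`n k l = (φ_{k, l}).val` for `k ≠ l` and `0` for `k = l`, and `h = ∏ k, ∏ l, (a k - a l) ^ n k l ≠ 0`.
`∑ n k l = φ 1 = 0` in `ZMod ℓ`, `vl P h = ∑ φ_{k, l} vl P (a k - a l) = 0` for `P = pr v` (`StmtSuSy`)
and for all other MI `P` (they divide no difference), `χ (leadingCoeff h) = φ u₀ = 0`. By `StmtSuFac`
(third claim; for the family `pr`) `h` is an `ℓ`-th power, so `Edg` gives `ℓ ∣ n i j + n j i`, i.e.
`φ t = 0`, a contradiction. So `t = ∑ κ v • u v + κ₀ • u₀ + γ • 1`. For `x ∈ Vs`, as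
`∑_l b l (x k - x l) = B * x k`, `B = ∑ b l`:
`(∑ κ v • σ v x + κ₀ • Λ x) k = (∑ κ v * e v) x k + B⁻¹ ∑_{l ≠ k} b l (t - γ) (k, l) (x k - x l) =
(∑ κ v * e v - γ) x k + B⁻¹ ∑_l b l t (k, l) (x k - x l)`, and the last sum is `b j (x i - x j)` for
`k = i`, `b i (x j - x i)` for `k = j`, and `0` otherwise: `μ = B⁻¹`. (`lamV χ b a` is
`sgV b 0 (χ (leadingCoeff))` as `χ (-1) = 0`: see PpHyp.lean.) -/
def StmtPgEdg : Prop :=
  ∀ (F : Type u) [Field F] [Finite F] (ℓ : ℕ) [Fact ℓ.Prime]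
    (_ : ℓ ∣ Nat.card F - 1) (χ : F → ZMod ℓ) (_ : IsLg ℓ χ) (_ : χ (-1) = 0) (m : ℕ)
    (a : Fin m → F[X]) (_ : Function.Injective a) (b : Fin m → ℕ) (_ : ¬ ℓ ∣ ∑ k, b k)
    (V : Type) [Fintype V] (pr : V → F[X]) (_ : Fam pr)
    (_ : ∀ P : F[X], P.Monic → Irreducible P → ∀ i j, i ≠ j → P ∣ a i - a j → ∃ v, pr v = P)
    (e : V → ZMod ℓ) (i j : Fin m) (_ : i ≠ j) (_ : Edg ℓ a i j),
    EdOp b (fun v => sigV b a (pr v) (e v)) (lamV χ b a) i j

/-- **PgIrr** (irreducibility, intertwining operators and forms; 300 lines; no universe; model: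
PpIrr.lean, see also `StmtPqCon`).

Proof. `B = ∑ b k ≠ 0`, `r i j = b j u i - b i u j ∈ Vs`; `Vs` is spanned by the `r i k`, `k ≠ i`, for
every fixed `i` (`c = ∑_{k ≠ i} (- c k / b i) r i k`; check at `k`: `(- c k / b i) * (- b i) = c k`, at
`i` use `∑ b k c k = 0`). For an edge `i, j` (i.e. `EdOp .. i j`) let `τ x = (x i - x j) r i j`: then
`τ = μ⁻¹ (∑ κ v • σ v + κ₀ • Λ - r)`. (i) `IrrW`: let `A ≠ ⊥` be invariant, then `c ∈ A` implies
`(c i - c j) r i j ∈ A` for all edges; now the proof of `StmtPpIrr` (i). (ii) Let `κ` commute with the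
`σ v`, `Λ`, so also with the `τ`: `(x i - x j) κ (r i j) = ((κ x) i - (κ x) j) r i j` for all `x`. Fix an
edge `i, j` (hypothesis for `s = {0}`); there is `x ∈ Vs` with `x i ≠ x j` (`m ≥ 3`: `r i k`,
`k ≠ i, j`; `m = 2`: `r i j`, as `b i + b j = B ≠ 0`), so `κ (r i j) = t • r i j` for some `t`. The kernel
of `κ - t` is invariant and contains `r i j ≠ 0`: by (i) it is `⊤`. (iii) Let `g` be given.
`g (τ x) y = g x (τ y)`: `(x i - x j) g (r i j) y = (y i - y j) g x (r i j)` for all `x`, `y`; with an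
`x` such that `x i ≠ x j`: `g (r i j) y = γ (y i - y j)` for all `y`. As
`stf b (r i j) y = b i b j (y i - y j)`, the form `g - t • stf`, `t = γ / (b i b j)`, vanishes at
`(r i j, y)` for all `y`. Its left kernel `{x | ∀ y, g x y = t * stf b x y}` is invariant, because the
operators are self-adjoint for `g` and for `stf`; it contains `r i j ≠ 0`, so it is `⊤`. -/
def StmtPgIrr : Prop :=
  ∀ (ℓ : ℕ) [Fact ℓ.Prime] (m : ℕ) (_ : 2 ≤ m) (b : Fin m → ℕ) (_ : ∀ i, ¬ ℓ ∣ b i)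
    (_ : ¬ ℓ ∣ ∑ i, b i) (V : Type) [Fintype V] (σ : V → Module.End (ZMod ℓ) (Vs ℓ b))
    (Λ : Module.End (ZMod ℓ) (Vs ℓ b))
    (_ : ∀ s : Finset (Fin m), s.Nonempty → s ≠ Finset.univ → ∃ i ∈ s, ∃ j, j ∉ s ∧
      EdOp b σ Λ i j)
    (_ : ∀ v (x y : Vs ℓ b), stf b (σ v x).1 y.1 = stf b x.1 (σ v y).1)
    (_ : ∀ x y : Vs ℓ b, stf b (Λ x).1 y.1 = stf b x.1 (Λ y).1),
    IrrW σ Λ ∧
    (∀ κ : Module.End (ZMod ℓ) (Vs ℓ b), (∀ v x, κ (σ v x) = σ v (κ x)) →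
      (∀ x, κ (Λ x) = Λ (κ x)) → ∃ t : ZMod ℓ, ∀ x, κ x = t • x) ∧
    ∀ g : Vs ℓ b →ₗ[ZMod ℓ] Module.Dual (ZMod ℓ) (Vs ℓ b),
      (∀ v x y, g (σ v x) y = g x (σ v y)) → (∀ x y, g (Λ x) y = g x (Λ y)) →
        ∃ t : ZMod ℓ, ∀ x y, g x y = t * stf b x.1 y.1

/-- **PgRec** (all primes; 60 lines; uses `StmtSuRec`, `StmtSuPrime`, `StmtSuSy`, `StmtPeSyl`,
`StmtTwPrime`, `StmtTwSy`, in this order).

Proof. `ℓ ≠ 2`: `sym` is `StmtSuRec` and `prm` is in `StmtSuPrime` (read it in SuStmt.lean). `ℓ = 2`: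
`IsLg 2 χ` and `IsLg 2 cs` imply `χ = cs` on the nonzero elements (`IsLg.ker`: both are `0` exactly at
the squares, and `ZMod 2` has two elements), so `syl χ P h = syl cs P h` for MI `P` and `h ≠ 0`
(`nm P (h /ₘ ..) ≠ 0`: `StmtSuSy`, see PeSyl.lean). `χ (-1) = 0` says that `-1` is a square, so
`4 ∣ Nat.card k - 1` (`FiniteField.isSquare_neg_one_iff`: `card % 4 ≠ 3`, and the cardinality is odd),
and `Rcp cs` is in `StmtPeSyl`. `prm`: `StmtTwPrime` (TwStmtB.lean) with `sy = syl cs`. -/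
def StmtPgRec : Prop := ∀ ℓ : ℕ, ℓ.Prime → RecP.{u} ℓ

/-- **PgEx** (tame twists exist; 200 lines; no universe).

Proof. (a) Let `m ≤ ℓ`. `lev b w j i` depends only on the ball `{k | k = j ∨ w j i ≤ w j k}` and on
`w j i`. For `j ≠ 0` (in `Fin m`) let `i j < j` be such that `w j (i j)` is maximal among the
`w j k`, `k < j`. Claim: for all `j ≠ i` there is a `j' ≠ 0` with `lev b w j i = lev b w j' (i j')`.
Let `r = w j i`, `S = {k | k = j ∨ r ≤ w j k}` (contains `j`, `i`; for `k ≠ k'` in `S`, `w k k' ≥ r`),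
`k₀ = min S`, and `j'` the smallest element of `S` with `j' ≠ k₀`, `w j' k₀ = r` (it exists: one of
`i`, `j` has this property, since otherwise `w i k₀ > r` or `i = k₀`, the same for `j`, and then
`w i j > r`). The elements `k < j'` of `S` satisfy `k = k₀` or `w k k₀ > r`, so `w k j' = r`; the
`k ∉ S` satisfy `w k j' < r`. So `w j' (i j') = r`, and `lev b w j' (i j') = lev b w j i`: for every
`k`, the number in `lev` is `r` if `k ∈ S` and `w j k = w j' k` if `k ∉ S`. So there are at most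
`m - 1` values `lev b w j i`, so at most `m - 1 < ℓ` classes `e` modulo `ℓ` with
`ℓ ∣ e B + lev b w j i` for some `j ≠ i` (`B` is invertible modulo `ℓ`). (b) Let `m ≤ 3`. If `m ≤ ℓ`
use (a). Otherwise `m = 3`, `ℓ = 2`, and the `b i` are odd. Among `w 0 1`, `w 0 2`, `w 1 2` the two
smallest are equal, say to `r` (`Ultra`). Modulo `2` every `lev b w j i` is congruent to `r`: compute
the six cases (`lev b w j i = (b j + b i) w j i + b k min (w j k) (w j i)`, and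
`min (w j k) (w j i) = r` always). So `e = r + 1` works. -/
def StmtPgEx : Prop :=
  ∀ (ℓ m : ℕ) [Fact ℓ.Prime] (b : Fin m → ℕ) (_ : ∀ i, ¬ ℓ ∣ b i) (_ : ¬ ℓ ∣ ∑ k, b k)
    (_ : m ≤ ℓ ∨ m ≤ 3) (w : Fin m → Fin m → ℤ) (_ : Ultra w), ∃ e : ℤ, Tam ℓ b w e

/-! ### Parity for `ℓ = 2` -/

/-- **PgTri** (sums over triples; 100 lines; no universe).

Proof. Let `g i j k = w i k * u i j * θ i j k` if `i, j, k` are distinct and `0` otherwise, in
`ZMod 2`; the sum in question is `S = ∑_{i, j, k} g i j k`. `S = S + S + S`, and by renaming the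
variables `S + S + S = ∑_{i, j, k} G i j k`, `G i j k = g i j k + g j k i + g k i j`. Claim:
`G i j k = G i k j`, `G i j j = 0`. Then for every `i`, `∑_{j, k} G i j k = 0` (a symmetric function
with zero diagonal, characteristic two; `pefrm_double` in PeFrm.lean), so `S = 0`. The second claim is
clear. The first: for distinct `i, j, k` (otherwise both sides are `0`), `θ` is symmetric, and
`w i k u i j + w j i u j k + w k j u k i = w i j u i k + w k i u k j + w j k u j i`, i.e.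
`w i k (u i j + u j k) + w i j (u j k + u i k) + w j k (u i k + u i j) = 0`: two of the integers
`w i j`, `w i k`, `w j k` are equal and the third is at least as large (`Ultra`). If all are equal: each
`u` occurs twice. If `w i j > w i k = w j k`: `u j k = u i k` (hypothesis), and the sum is
`w i k (2 u i j + u j k + u i k) = 0`; the other two cases in the same way. -/
def StmtPgTri : Prop :=
  ∀ (m : ℕ) (w : Fin m → Fin m → ℤ) (_ : Ultra w) (u : Fin m → Fin m → ZMod 2)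
    (_ : ∀ i k, u i k = u k i)
    (_ : ∀ i j k, i ≠ j → j ≠ k → i ≠ k → w i k < w i j → u j k = u i k)
    (θ : Fin m → Fin m → Fin m → ZMod 2) (_ : ∀ i j k, θ i j k = θ j i k)
    (_ : ∀ i j k, θ i j k = θ i k j),
    ∑ i, ∑ j ∈ Finset.univ.erase i, ∑ k ∈ (Finset.univ.erase i).erase j,
      (w i k : ZMod 2) * u i j * θ i j k = 0

/-- **PgFix** (the vector of a prime is fixed; 100 lines; no universe).

Proof. Everything in `ZMod 2`, `h i = ∑_{k ≠ i} w i k`, `b k = 1`, `∑ b k = 1`. The claim is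
`e h i + ∑_{k ≠ i} w i k (h i + h k) = h i`, i.e.
`∑_{k ≠ i} w i k (e + 1 + ∑_{j ≠ i, k} (w i j + w k j)) = 0` (in `h i + h k` the terms `w i k`
cancel). By `Tam` for `i, k` (`lev b w i k` is the sum of `w i k` for `j = i`, `w i k` for `j = k` and
`min (w i j) (w i k)` for `j ≠ i, k`): `e + 1 = ∑_{j ≠ i, k} min (w i j) (w i k)`. So the sum is
`∑_{k ≠ i} ∑_{j ≠ i, k} F k j`, `F k j = w i k (min (w i j) (w i k) + w i j + w k j)`, and
`F k j = F j k`: if `w i j < w i k` then `w k j = w i j`, `F k j = w i k w i j`,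
`F j k = w i j (w i j + w i k + w i j) = w i j w i k`; the case `w i j > w i k` is the same with `j`,
`k` exchanged; if `w i j = w i k` then `F k j = w i k w k j = F j k`. A symmetric function with zero
diagonal has sum `0`. -/
def StmtPgFix : Prop :=
  ∀ (m : ℕ) (b : Fin m → ℕ) (_ : ∀ i, ¬ 2 ∣ b i) (_ : ¬ 2 ∣ ∑ k, b k)
    (w : Fin m → Fin m → ℤ) (_ : Ultra w) (e : ℤ) (_ : Tam 2 b w e) (i : Fin m),
    sg b (e : ZMod 2) (fun i k => (w i k : ZMod 2))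
      (fun i => ∑ k ∈ Finset.univ.erase i, (w i k : ZMod 2)) i =
    ∑ k ∈ Finset.univ.erase i, (w i k : ZMod 2)

/-- The hypotheses for the parity; `M v = ∑ v', s v v' • σ v' + D v • Λ` commutes with `σ v`
(`HypW.com`). -/
structure HypG {F : Type u} [Field F] {V W : Type} [Fintype V] [AddCommGroup W]
    [Module (ZMod 2) W] (χ : F → ZMod 2) (pr : V → F[X]) (σ : V → Module.End (ZMod 2) W)
    (Λ : Module.End (ZMod 2) W) (f : W →ₗ[ZMod 2] Module.Dual (ZMod 2) W) (h : V → W)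
    (h₀ : W) : Prop where
  alt : ∀ x, f x x = 0
  nondeg : ∀ x, (∀ y, f x y = 0) → x = 0
  self : ∀ v x y, f x (σ v y) = f (σ v x) y
  diag : ∀ v x, f x (σ v x) = f (h v) x
  selfL : ∀ x y, f x (Λ y) = f (Λ x) y
  diagL : ∀ x, f x (Λ x) = f h₀ x
  rel : ∀ v x, f (σ v x)
      (∑ v', syl χ (pr v) (pr v') • σ v' x + ((pr v).natDegree : ZMod 2) • Λ x) =
    f (σ v (∑ v', syl χ (pr v) (pr v') • h v' + ((pr v).natDegree : ZMod 2) • h₀) +
      (∑ v', syl χ (pr v) (pr v') • σ v' (h v) + ((pr v).natDegree : ZMod 2) • Λ (h v))) x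
  fix : ∀ v, σ v (h v) = h v
  iso : ∀ v, f (h v)
    (∑ v', syl χ (pr v) (pr v') • σ v' (h v) + ((pr v).natDegree : ZMod 2) • Λ (h v)) = 0
  isoI : f (∑ v, ((pr v).natDegree : ZMod 2) • h v)
    (Λ (∑ v, ((pr v).natDegree : ZMod 2) • h v)) = 0

/-- **PgHyG** (the curves satisfy `HypG`; 350 lines; uses `StmtSuSy`, `StmtSuFac`, `StmtPgTri`,
`StmtPgFix`; model: PpHyp.lean, whose lemmas `hdiff`, `hop` compute
`∑ v', syl χ (pr v) (pr v') • σ v' y + deg (pr v) • Λ y = sg b ρ' (syl χ (pr v) (a i - a k)) y`).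

Proof. `ZMod 2`, `b i = 1`, `∑ b k = 1`. `f x y = ∑ x i y i` on `Vs` (`∑ x i = 0`): `f x x = ∑ x i = 0`;
nondegenerate: test with `u i + u j`, `x` is constant, and `∑ x i = 0` with `m` odd (`m ≡ ∑ b i`).
For a symmetric matrix `w` put `N_w x i = ∑_k w i k (x i + x k)`, `(h_w) i = ∑_{k ≠ i} w i k ∈ Vs`
(symmetric sum). `f x (N_w y) = ∑_{i, k} w i k x i (y i + y k)` is symmetric in `x`, `y`, and
`f x (N_w x) = f h_w x` (the terms `w i k x i x k` cancel in pairs, `x i ^ 2 = x i`). `sg b ρ w = ρ + N_w`.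
`h v = h_w` for `w = vl (pr v) (a i - a k)`, `h₀ = h_L`, `L i k = χ (leadingCoeff (a i - a k))`. This
gives `alt`, `nondeg`, `self`, `diag`, `selfL`, `diagL`. `fix` is `StmtPgFix` for `wP (pr v) a`
(`Ultra`: `ultra_wP`). `rel`: let `u i k = syl χ (pr v) (a i - a k)`. By `hop`, the operator
`M v = ∑ v', s v v' • σ v' + D v • Λ` is `s + N_u` (`s` a scalar), and (the same computation for
`h_w`, linear in the matrix) `∑ v', s v v' • h v' + D v • h₀ = h_u`. So `rel` says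
`f ((e + N_w) x) ((s + N_u) x) = f ((e + N_w) h_u + (s + N_u) h_w) x`; by `diag` for `N_w`, `N_u`
(and `f x x = 0`) this is `f (N_w x) (N_u x) = f h_u (N_w x) + f h_w (N_u x)`, i.e.
`∑_i ∑_{k ≠ i} ∑_{j ≠ i} w i k u i j ((x i + x k) (x i + x j) + (x i + x k) + (x i + x j)) = 0`. The terms
with `k = j` are `w i k u i k (x i + x k)`: symmetric in `i, k`, sum `0`. For `k ≠ j` the factor is
`θ i j k = x i + x j + x k + x i x j + x i x k + x j x k` (`x i ^ 2 = x i`), symmetric: `StmtPgTri`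
(the hypothesis on `u` is `pphyp_tree` in PpHyp.lean, `u` is symmetric because `χ (-1) = 0`). `iso`:
`f h_w ((s + N_u) h_w) = f h_u h_w = ∑_i ∑_{k ≠ i} ∑_{j ≠ i} w i k u i j`: the same with `θ = 1`.
`isoI`: `∑ v, D v • h v = h_{w'}`, `w' i k = deg (a i - a k)` (`StmtSuFac`, second claim), and
`f h_{w'} (Λ h_{w'}) = f h_L h_{w'}`: `StmtPgTri` for `wI a` (`ultra_wI`; modulo `2` signs do not
matter) and `u = L`: if `wI a i k < wI a i j`, i.e. `deg (a i - a k) > deg (a i - a j)`, then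
`a j - a k` and `a i - a k` have the same leading coefficient. The last claim (`fixI`): `StmtPgFix` for
`wI a`, `e = - (deg (twl pr e) + n)`. -/
def StmtPgHyG : Prop :=
  ∀ (F : Type u) [Field F] [Finite F] (_ : 2 ∣ Nat.card F - 1) (χ : F → ZMod 2) (_ : IsLg 2 χ)
    (_ : χ (-1) = 0) (m : ℕ)
    (a : Fin m → F[X]) (_ : Function.Injective a) (b : Fin m → ℕ) (_ : ∀ i, ¬ 2 ∣ b i)
    (_ : ¬ 2 ∣ ∑ k, b k)
    (V : Type) [Fintype V] (pr : V → F[X]) (_ : Fam pr)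
    (_ : ∀ P : F[X], P.Monic → Irreducible P → ∀ i j, i ≠ j → P ∣ a i - a j → ∃ v, pr v = P)
    (e : V → ZMod 2) (_ : ∀ v, Tam 2 b (wP (pr v) a) ((e v).val : ℤ)),
    ∃ (f : Vs 2 b →ₗ[ZMod 2] Module.Dual (ZMod 2) (Vs 2 b)) (h : V → Vs 2 b) (h₀ : Vs 2 b),
      (∀ x y, f x y = stf b x.1 y.1) ∧
      HypG χ pr (fun v => sigV b a (pr v) (e v)) (lamV χ b a) f h h₀ ∧
      ∀ n : ℕ, Tam 2 b (wI a) (-(((twl pr e).natDegree + n : ℕ) : ℤ)) →
        ∑ v, ((pr v).natDegree : ZMod 2) • sigV b a (pr v) (e v)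
            (∑ v, ((pr v).natDegree : ZMod 2) • h v) +
          (n : ZMod 2) • (∑ v, ((pr v).natDegree : ZMod 2) • h v) =
        ∑ v, ((pr v).natDegree : ZMod 2) • h v

/-- **PgFrm** (the form on the unknowns; copy PeFrm.lean with changes; 400 lines; uses
`StmtPpEvn.{0}` and `StmtPpEvn.{u}`). Characteristic two: signs do not matter, `s ^ 2 = s`.

Proof. Write `M β = ∑ β', l β β' • σ β' + D β • Λ`, `hM β = ∑ β', l β β' • h β' + D β • h₀`. If `W` is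
trivial, `a = 0`. Otherwise some `D β₀ ≠ 0` (last hypothesis), so `D β₀ = 1`.
(1) `f x y = f y x`. `M β` is self-adjoint and commutes with `σ β` (hypothesis). `σ β` is bijective.
(2) Put `y β = σ β (c β)`: the set is in bijection with `X = {y | ∑ D β • y β = 0, T y = 0}`,
`(T y) β = ∑ β', l β β' • y β' + M β (σ β ⁻¹ (y β))` (the equation for `c` says
`∑ β', l β β' • σ β' (c β') = M β (c β)`).
(3) `Y = {y : ι → W | ∑ D β • y β = 0}`, `B y y' = ∑ β, f (y β) ((T y') β)`, bilinear and symmetric on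
`Y` (`M β ∘ σ β ⁻¹` is self-adjoint).
(4) Let `h' = ∑ β, D β • h β`, `z β = h β + σ β h'`. `∑ D β • z β = h' + ∑ D β • σ β h' = 0`
(hypothesis on `h'`), so `z ∈ Y`. `(T z) β = ∑ β', l β β' • h β' + M β (h β) + D β • Λ h'`
(`σ β ⁻¹ (h β) = h β`, and `∑ β', l β β' • σ β' h' + M β h' = D β • Λ h'`). Claim: `B y y = B y z` for
`y ∈ Y`. In `B y y` the terms `l β β' * f (y β) (y β')` cancel in pairs (and vanish for `β = β'`). With
`x = σ β ⁻¹ (y β)`: `f (σ β x) (M β x) = f (σ β (hM β) + M β (h β)) x = f (hM β) (y β) +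
f (M β (h β)) (σ β ⁻¹ (y β))`, and the last term is `f (σ β ⁻¹ (M β (h β))) (y β) =
f (M β (σ β ⁻¹ (h β))) (y β) = f (M β (h β)) (y β)`. So
`B y y = ∑ β, f (∑ β', l β β' • h β' + D β • h₀ + M β (h β)) (y β)`, and this is `B y z`, as
`∑ β, D β * f h₀ (y β) = 0 = ∑ β, D β * f (Λ h') (y β)` on `Y`.
(5) `B z z = 0`: `B z z = ∑ β, f (z β) ((T z) β) = ∑ β, f (z β) (∑ β', l β β' • h β' + M β (h β))` (the
last term of `T z` does not contribute, as `z ∈ Y`). The part `h β` of `z β`: the terms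
`l β β' * f (h β) (h β')` cancel in pairs or vanish, and `f (h β) (M β (h β)) = 0` (hypothesis). The
part `σ β h'`: `∑ β, f h' (σ β (∑ β', l β β' • h β') + M β (σ β (h β)))`, `σ β (h β) = h β`, and
`∑ β, σ β (∑ β', l β β' • h β') = ∑ β', (M β' + D β' • Λ) (h β')` (symmetry of `l`), so it is
`f h' (∑ β, D β • Λ (h β)) = f h' (Λ h') = 0`.
(6), (7), (8) as in the proof of `StmtPeFrm` (`G y y' = B y y' + B y z * B y' z`; the kernel of `B` is
`X`: `∑ β, σ β ((T y') β) = Λ (∑ D β • y' β) = 0` as `σ β ∘ M β ∘ σ β ⁻¹ = M β`; count). -/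
def StmtPgFrm : Prop :=
  ∀ (ι : Type u) (W : Type) [Fintype ι] [AddCommGroup W] [Module (ZMod 2) W] [Finite W]
    (f : W →ₗ[ZMod 2] Module.Dual (ZMod 2) W)
    (_ : ∀ x, (∀ y, f x y = 0) → x = 0) (_ : ∀ x, f x x = 0) (h : ι → W) (h₀ : W)
    (σ : ι → Module.End (ZMod 2) W) (Λ : Module.End (ZMod 2) W)
    (_ : ∀ β y, σ β y = 0 → y = 0)
    (_ : ∀ β x y, f x (σ β y) = f (σ β x) y) (_ : ∀ x y, f x (Λ y) = f (Λ x) y)
    (l : ι → ι → ZMod 2) (_ : ∀ β β', l β β' = l β' β) (D : ι → ZMod 2)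
    (_ : ∀ β y, σ β (∑ β', l β β' • σ β' y + D β • Λ y) =
      ∑ β', l β β' • σ β' (σ β y) + D β • Λ (σ β y))
    (_ : ∀ β x, f (σ β x) (∑ β', l β β' • σ β' x + D β • Λ x) =
      f (σ β (∑ β', l β β' • h β' + D β • h₀) +
        (∑ β', l β β' • σ β' (h β) + D β • Λ (h β))) x)
    (_ : ∀ β, σ β (h β) = h β)
    (_ : ∀ β, f (h β) (∑ β', l β β' • σ β' (h β) + D β • Λ (h β)) = 0)
    (_ : ∑ β, D β • σ β (∑ β, D β • h β) = ∑ β, D β • h β)
    (_ : f (∑ β, D β • h β) (Λ (∑ β, D β • h β)) = 0)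
    (_ : ∀ y, ∑ β, D β • σ β y = 0 → y = 0),
    ∃ a : ℕ, Nat.card {c : ι → W // ∑ β, D β • σ β (c β) = 0 ∧
      ∀ β, ∑ β', l β β' • σ β' (c β' - c β) = D β • Λ (c β)} = 4 ^ a

/-- **PgPar** (parity; copy PePar.lean; 150 lines; uses `StmtSuSy`, `StmtPgFrm`).

Proof. As for `StmtPePar`: apply `StmtPgFrm` to `ι = V ⊕ t`, with `σ v`, `h v` at `v`, and the
identity and the vector `0` at `P ∈ t`. At `v`, `M v` gets the additional scalar
`s = ∑_{P ∈ t} syl χ (pr v) P`: the commutation is clear, the relation gets on the left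
`s * f (σ v x) x = s * f (h v) x` (`HypG.diag`, symmetry) and on the right `f (s • h v) x`; the third
one gets `s * f (h v) (h v) = 0`. At `P ∈ t`: `h P = 0`, and the relation says
`f x (∑_v syl χ P (pr v) • σ v x + ∑_Q syl χ P Q • x + deg P • Λ x) =
f (∑_v syl χ P (pr v) • h v + deg P • h₀) x`, which is `HypG.diag`, `HypG.diagL`, `HypG.alt`. -/
def StmtPgPar : Prop :=
  ∀ (F : Type u) [Field F] [Finite F] (_ : 2 ∣ Nat.card F - 1) (χ : F → ZMod 2) (_ : IsLg 2 χ)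
    (_ : Rcp χ) (V W : Type) [Fintype V] [AddCommGroup W] [Module (ZMod 2) W] [Finite W]
    (pr : V → F[X]) (_ : Fam pr) (σ : V → Module.End (ZMod 2) W) (Λ : Module.End (ZMod 2) W)
    (_ : HypW χ pr σ Λ) (f : W →ₗ[ZMod 2] Module.Dual (ZMod 2) W) (h : V → W) (h₀ : W)
    (_ : HypG χ pr σ Λ f h h₀) (n : ℕ) (_ : InfW pr σ n)
    (_ : ∑ v, ((pr v).natDegree : ZMod 2) • σ v (∑ v, ((pr v).natDegree : ZMod 2) • h v) +
        (n : ZMod 2) • (∑ v, ((pr v).natDegree : ZMod 2) • h v) =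
      ∑ v, ((pr v).natDegree : ZMod 2) • h v)
    (t : Finset F[X]) (_ : t ∈ gs F pr n),
    ∃ a : ℕ, nSol χ pr σ Λ t = 4 ^ a

end MP72e2e6
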