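import Pool.Agent.Lib.MP_72e2e6_nt.PhStmt
import Pool.Agent.Lib.MP_72e2e6_nt.PqOneB

/-!
# MP_72e2e6_nt : analytic part for the prime two, module PhMom (moments)
-/

namespace MP72e2e6

open Polynomial

theorem tPhMom : StmtPhMom := by
  intro L hL k
  have h : ∀ j : ℕ, L (Eq_ 2 j) = 2 ^ j * 2 ^ (j * (j - 1) / 2) := by
    intro j
    rw [hL j, ← pow_add]
    congr 1
    have e1 : j * (j + 1) = j * (j - 1) + j * 2 := by
      rcases j with _ | j
      · rfl
      · simp only [Nat.add_sub_cancel]
        ring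
    rw [e1, Nat.add_mul_div_right _ _ (by norm_num), add_comm]
  induction k with
  | zero =>
    have h0 := hL 0
    simp only [Eq_, Finset.range_zero, Finset.prod_empty, Nat.zero_mul, Nat.zero_div,
      pow_zero] at h0
    simpa using h0
  | succ k ih =>
    have h1 := pqoneb_scale 2 two_ne_zero L h (X ^ k)
    have h4 : (X - 1) * X ^ k = (X : ℝ[X]) ^ (k + 1) - X ^ k := by ring
    rw [h4, map_sub, pow_comp, X_comp, mul_pow, ← C_pow, ← smul_eq_C_mul, map_smul,
      smul_eq_mul] at h1
    rw [Finset.prod_range_succ, ← ih]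
    linear_combination h1

end MP72e2e6
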