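import Pool.Agent.Lib.MP_72e2e6_nt.PgStmt

/-!
# MP_72e2e6_nt: the exact moments for `ℓ = 2`, statements of the modules

The average number of solutions of an arbitrary finite system over `ZMod 2` tends to
`muB`, the number of the pairs `(A, g)`: `A` an invariant subspace, `g` an alternating form on `A`
for which the operators are self-adjoint, such that the phase is trivial (`TrA`). For the powers of
the system of a connected family all phases are trivial, and the `k`-th moment is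
`∏_{i = 1}^k (1 + 2 ^ i)`.

Every module proves one of the propositions `StmtPhX` below: file `PhX.lean` (same folder, import
this file and the files it uses) with `theorem tPhX.{u} : StmtPhX.{u}` (or
`theorem tPhX.{u} (h : StmtY.{u}) .. : StmtPhX.{u}` if the docstring says: uses `StmtY`, in this
order; no universe for `PhA1`, `PhA3`, `PhMom`, `PhSq`, `PhEul`). The complete proofs are in
the docstrings. Many modules are copies of finished files `PqX.lean` with small changes.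
`ψ = ZMod.stdAddChar`, `N = |W|`, `D v = deg (pr v)`, `s v v' = syl χ (pr v) (pr v')`. Everything is in
characteristic two: signs do not matter.
-/

namespace MP72e2e6

open Polynomial

universe u

/-! ### Definitions -/

section defs

variable {V W : Type} [AddCommGroup W] [Module (ZMod 2) W]

/-- The alternating forms on an (invariant) subspace for which the operators are self-adjoint. -/
def SaA (σ : V → Module.End (ZMod 2) W) (Λ : Module.End (ZMod 2) W)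
    (A : Submodule (ZMod 2) W) : Set (A →ₗ[ZMod 2] Module.Dual (ZMod 2) A) :=
  {g | (∀ x, g x x = 0) ∧ ∀ x y x' y' : A,
    ((∃ v, (x' : W) = σ v x ∧ (y' : W) = σ v y) ∨ ((x' : W) = Λ x ∧ (y' : W) = Λ y)) →
      g x y' = g x' y}

/-- The relations between `(A, g, δ)` and `(c, d, η)`. -/
structure CdB (σ : V → Module.End (ZMod 2) W) (Λ : Module.End (ZMod 2) W)
    (A : Submodule (ZMod 2) W) (g : A →ₗ[ZMod 2] Module.Dual (ZMod 2) A)
    (δ : Module.Dual (ZMod 2) A) (c : V → W) (d : V → Module.Dual (ZMod 2) W)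
    (η : Module.Dual (ZMod 2) W) : Prop where
  mem : ∀ v, c v ∈ A
  bad : ∀ v (x y z : A), (x : W) = c v → (z : W) = σ v y → d v y = δ z + g x z + g y z
  inf : ∀ y z : A, (z : W) = Λ y → η y = δ z + g y z

variable {F : Type u} [Field F] [Fintype V]

/-- The phase is trivial. -/
def TrA (χ : F → ZMod 2) (pr : V → F[X]) (σ : V → Module.End (ZMod 2) W)
    (Λ : Module.End (ZMod 2) W) (A : Submodule (ZMod 2) W)
    (g : A →ₗ[ZMod 2] Module.Dual (ZMod 2) A) : Prop :=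
  ∀ δ c d η, CdB σ Λ A g δ c d η → thW χ pr σ Λ c d η = 0

/-- The phase is trivial, for a form on the whole space. -/
def TrW (χ : F → ZMod 2) (pr : V → F[X]) (σ : V → Module.End (ZMod 2) W)
    (Λ : Module.End (ZMod 2) W) (g : W →ₗ[ZMod 2] Module.Dual (ZMod 2) W) : Prop :=
  ∀ (δ : Module.Dual (ZMod 2) W) (c : V → W) (d : V → Module.Dual (ZMod 2) W)
    (η : Module.Dual (ZMod 2) W),
    (∀ v y, d v y = δ (σ v y) + g (c v) (σ v y) + g y (σ v y)) →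
    (∀ y, η y = δ (Λ y) + g y (Λ y)) → thW χ pr σ Λ c d η = 0

/-- The limit of the average number of solutions. -/
noncomputable def muB (χ : F → ZMod 2) (pr : V → F[X]) (σ : V → Module.End (ZMod 2) W)
    (Λ : Module.End (ZMod 2) W) : ℕ :=
  ∑ᶠ A : {A : Submodule (ZMod 2) W // Inv σ Λ A},
    Nat.card {g // g ∈ SaA σ Λ A.1 ∧ TrA χ pr σ Λ A.1 g}

/-- The operator `∑ v', s v v' • σ v' + D v • Λ`. -/
noncomputable def Mop (χ : F → ZMod 2) (pr : V → F[X]) (σ : V → Module.End (ZMod 2) W)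
    (Λ : Module.End (ZMod 2) W) (v : V) (x : W) : W :=
  ∑ v', syl χ (pr v) (pr v') • σ v' x + ((pr v).natDegree : ZMod 2) • Λ x

/-- The relation between the diagonals of the operators, for the form `g`. -/
def RelF (χ : F → ZMod 2) (pr : V → F[X]) (σ : V → Module.End (ZMod 2) W)
    (Λ : Module.End (ZMod 2) W) (g : W →ₗ[ZMod 2] Module.Dual (ZMod 2) W) : Prop :=
  ∀ v x, g x (σ v (Mop χ pr σ Λ v x)) =
    ∑ v', syl χ (pr v) (pr v') * g (σ v x) (σ v' (σ v x)) +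
      ((pr v).natDegree : ZMod 2) * g (σ v x) (Λ (σ v x)) +
      g (Mop χ pr σ Λ v x) (σ v (Mop χ pr σ Λ v x))

end defs

/-! ### The main term -/

/-- **PhA1** (the structure of the admissible sets; copy PqA1.lean; uses `StmtPpTS`).

Proof. As for `StmtPqA1` (read PqA1.lean). The part which uses `ℓ ≠ 2` is replaced by the following:
`hbad` there says `d v y = δ z + g x z + g y z` for `x = c v`, `z = σ v y` (`x, y, z ∈ A`), and `hinf`
says `η y = δ z + g y z` for `z = Λ y`: this is `CdB`. As the left sides and `δ z`, `g x z` are additive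
in `y`, so is `y ↦ g y (σ v y)`: `g x (σ v y) + g y (σ v x) = 0` for all `x, y ∈ A`, i.e.
`g x (σ v y) = g (σ v x) y` (`g` is symmetric because it is alternating), and the same for `Λ`. So
`g ∈ SaA`. -/
def StmtPhA1 : Prop :=
  ∀ (V W : Type) [AddCommGroup W] [Module (ZMod 2) W]
    [Fintype W] (σ : V → Module.End (ZMod 2) W) (Λ : Module.End (ZMod 2) W)
    (_ : ∀ v y, σ v y = 0 → y = 0) (c : V → W) (d : V → Module.Dual (ZMod 2) W)
    (η : Module.Dual (ZMod 2) W) (𝓥 : Finset (W × Module.Dual (ZMod 2) W))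
    (_ : Adm BW (Fintype.card W) (alW σ c d) (aiW Λ η) 𝓥),
    ∃ A : Submodule (ZMod 2) W, Inv σ Λ A ∧
      ((∃ g ∈ SaA σ Λ A, ∃ δ, CdB σ Λ A g δ c d η ∧ ∀ u, u ∈ 𝓥 ↔ Vst A g δ u) ∨
        ∃ c₀, c₀ ∉ A ∧ (∀ v, c v - c₀ ∈ A) ∧ ∀ u ∈ 𝓥, u.1 - c₀ ∈ A)

open Classical in
/-- **PhA2** (cancellation; copy PqA2.lean with `ℓ = 2`; uses `StmtPhA1`). -/
def StmtPhA2 : Prop :=
  ∀ (F : Type u) [Field F] (V W : Type) [Fintype V]
    [AddCommGroup W] [Module (ZMod 2) W] [Fintype W] [Fintype (Module.Dual (ZMod 2) W)]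
    (χ : F → ZMod 2) (pr : V → F[X]) (σ : V → Module.End (ZMod 2) W)
    (Λ : Module.End (ZMod 2) W) (_ : ∀ v y, σ v y = 0 → y = 0) (n : ℕ) (_ : InfW pr σ n)
    (c : V → W) (d : V → Module.Dual (ZMod 2) W)
    (𝓥 : Finset (W × Module.Dual (ZMod 2) W)) (_ : ∀ u ∈ 𝓥, u.1 ≠ 0),
    ∑ η : Module.Dual (ZMod 2) W,
      (if Adm BW (Fintype.card W) (alW σ c d) (aiW Λ η) 𝓥 then
        ZMod.stdAddChar (thW χ pr σ Λ c d η) * ((Fintype.card W : ℂ)⁻¹ *
          ∑ w ∈ 𝓥, ZMod.stdAddChar (aiW Λ η w * (n : ZMod 2))) else 0) = 0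

/-- **PhA3** (the sets `Vst A g δ` are admissible; 120 lines; model: PqA3.lean).

Proof. `g x y = g y x`, and `g (σ v x) y = g x (σ v y)`, `g (Λ x) y = g x (Λ y)` on `A`. (card) the
fibres of `u ↦ u.1`, `𝓥 → A` are cosets of the annihilator of `A`, of order `N / |A|` (see PqA3.lean).
(unl) `BW u u' + BW u' u = (u'.2 - u.2) (u'.1 - u.1)` up to the sign, which is `g z z = 0` for
`z = u'.1 - u.1 ∈ A`. (bad) Let `u = (x, e)`, `y = x - c v ∈ A`, so `x = c v + y`. `alW v u = d v y +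
e (σ v y)` up to signs, `e (σ v y) = δ (σ v y) + g (c v) (σ v y) + g y (σ v y)`, which is `d v y` by
`CdB.bad`. (inf) `aiW u = η x - e (Λ x)`, `e (Λ x) = δ (Λ x) + g x (Λ x) = η x`. -/
def StmtPhA3 : Prop :=
  ∀ (V W : Type) [AddCommGroup W] [Module (ZMod 2) W] [Fintype W]
    (σ : V → Module.End (ZMod 2) W) (Λ : Module.End (ZMod 2) W)
    (A : Submodule (ZMod 2) W) (_ : Inv σ Λ A) (g : A →ₗ[ZMod 2] Module.Dual (ZMod 2) A)
    (_ : g ∈ SaA σ Λ A) (δ : Module.Dual (ZMod 2) A) (c : V → W)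
    (d : V → Module.Dual (ZMod 2) W) (η : Module.Dual (ZMod 2) W) (_ : CdB σ Λ A g δ c d η)
    (𝓥 : Finset (W × Module.Dual (ZMod 2) W)) (_ : ∀ u, u ∈ 𝓥 ↔ Vst A g δ u),
    Adm BW (Fintype.card W) (alW σ c d) (aiW Λ η) 𝓥 ∧ ∀ u ∈ 𝓥, aiW Λ η u = 0

open Classical in
/-- **PhA4** (the sum of the phases; 300 lines; models: PqA3.lean (`pqa3_phase`), PqA4.lean).

Proof. (1) On `A` let `φ v x = g x (σ v x)`, `φ₀ x = g x (Λ x)`: additive (so linear), because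
`g ∈ SaA`. Let `M v x = Mop χ pr σ Λ v x`; on `A` the operators `σ v`, `Λ`, `M v` are self-adjoint for
`g`, `M v` commutes with `σ v` (`HypW.com`), so `ψ' v x = g x (σ v (M v x))` is additive as well. For
`CdB` data `thW = η (∑ D v • σ v (c v)) + ∑ v, d v (E v)`,
`E v = ∑ v', s v v' • σ v' (c v') + M v (c v)` (char. 2), all vectors are in `A`, so `CdB` gives
`thW = δ (Λ (∑ D v • σ v (c v)) + ∑ v, σ v (E v)) + φ₀ (∑ D v • σ v (c v)) +
∑ v, (g (c v) (σ v (E v)) + φ v (E v))`. The argument of `δ` is `0` (the computation `hδ` in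
`pqa3_phase`: it does not use `ℓ ≠ 2`). `g (c v) (σ v (E v)) = g (σ v (c v)) (E v)`, and
`∑ v, g (σ v (c v)) (∑ v', s v v' • σ v' (c v')) = 0` (symmetric, `g x x = 0`). So
`thW = Θ c := φ₀ (∑ D v • σ v (c v)) + ∑ v, (ψ' v (c v) + φ v (∑ v', s v v' • σ v' (c v')) +
φ v (M v (c v)))`, which is additive in `c : V → A` and does not depend on `δ`, `d`, `η`. (2) Let
`r : Dual W → Dual A` be the restriction, surjective, `s` a linear right inverse. The data are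
parametrized by `δ`, `c : V → A`, `κ v, κ' ∈ ker r`: `d v = s (δ ∘ σ v + g (c v) ∘ σ v + φ v) + κ v`,
`η = s (δ ∘ Λ + φ₀) + κ'` (see PqA4.lean). So the sum is `|A| * |ker r| ^ (|V| + 1) * ∑_c ψ (Θ c)`, and
`∑_c ψ (Θ c)` over `c : V → A` is `|A| ^ |V|` if `Θ = 0` and `0` otherwise
(`AddChar.sum_eq_zero_of_ne_one`, or shift by a `c₀` with `Θ c₀ = 1`). `|ker r| * |A| = N`. `Θ = 0` iff
`TrA` (for every `c : V → A` there are data). -/
def StmtPhA4 : Prop :=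
  ∀ (F : Type u) [Field F] (V W : Type) [Fintype V]
    [AddCommGroup W] [Module (ZMod 2) W] [Finite W]
    (χ : F → ZMod 2) (pr : V → F[X]) (σ : V → Module.End (ZMod 2) W)
    (Λ : Module.End (ZMod 2) W) (_ : HypW χ pr σ Λ)
    (_ : ∀ v v', syl χ (pr v) (pr v') = syl χ (pr v') (pr v))
    (A : Submodule (ZMod 2) W) (_ : Inv σ Λ A) (g : A →ₗ[ZMod 2] Module.Dual (ZMod 2) A)
    (_ : g ∈ SaA σ Λ A),
    ∑ᶠ x : {x : Module.Dual (ZMod 2) A × (V → W) × (V → Module.Dual (ZMod 2) W) ×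
        Module.Dual (ZMod 2) W // CdB σ Λ A g x.1 x.2.1 x.2.2.1 x.2.2.2},
      (ZMod.stdAddChar (thW χ pr σ Λ x.1.2.1 x.1.2.2.1 x.1.2.2.2) : ℂ) =
      if TrA χ pr σ Λ A g then (Nat.card W : ℂ) ^ (Fintype.card V + 1) else 0

open Classical in
/-- **PhMT** (the main term; 250 lines; model: PqMT.lean; uses `StmtPhA1`, `StmtPhA2`, `StmtPhA3`,
`StmtPhA4`).

Proof. As for `StmtPqMT` (read PqMT.lean; `pqmt_mem`, `pqmt_le`, `pqmt_eq` are there for all `ℓ`: import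
it). The sum over the `(c, d, η, 𝓥)` with `Adm` and an element `u` with `u.1 = 0` is, by the
bijection `(A, g, δ, c, d, η) ↦ (c, d, η, {u | Vst A g δ u})` (`StmtPhA1`, `StmtPhA3`), the sum over
`A` and `g ∈ SaA σ Λ A` of `∑ ψ (thW)` over the `CdB` data (by `StmtPhA3` the last factor of every
summand is `N⁻¹ * N = 1`), i.e. `N ^ (|V| + 1)` times the number of the `(A, g)` with `TrA` by
`StmtPhA4`. The other part is `0` by `StmtPhA2`. -/
def StmtPhMT : Prop :=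
  ∀ (F : Type u) [Field F] (V W : Type) [Fintype V]
    [AddCommGroup W] [Module (ZMod 2) W] [Fintype W] [Fintype (Module.Dual (ZMod 2) W)]
    (χ : F → ZMod 2) (pr : V → F[X]) (σ : V → Module.End (ZMod 2) W)
    (Λ : Module.End (ZMod 2) W) (_ : HypW χ pr σ Λ)
    (_ : ∀ v v', syl χ (pr v) (pr v') = syl χ (pr v') (pr v)) (n : ℕ) (_ : InfW pr σ n),
    ∑ c : V → W, ∑ d : V → Module.Dual (ZMod 2) W, ∑ η : Module.Dual (ZMod 2) W,
      ZMod.stdAddChar (thW χ pr σ Λ c d η) *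
        ∑ 𝓥 ∈ (Finset.univ : Finset (Finset (W × Module.Dual (ZMod 2) W))).filter
            (Adm BW (Fintype.card W) (alW σ c d) (aiW Λ η)),
          ((Fintype.card W : ℂ)⁻¹ *
            ∑ w ∈ 𝓥, ZMod.stdAddChar (aiW Λ η w * (n : ZMod 2))) =
      (Fintype.card W : ℂ) ^ (Fintype.card V + 1) * (muB χ pr σ Λ : ℂ)

/-- **PhFM** (the first moment; copy PqFM.lean with `ℓ = 2`; uses `StmtPpTS`, `StmtPpCol`,
`StmtPeAn`, `StmtPhMT`, `StmtPeFou`; `Rcp χ` is a hypothesis). If `W` is trivial, `nSol = 1` and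
`muB = 1`. -/
def StmtPhFM : Prop :=
  ∀ (F : Type u) [Field F] [Finite F] (_ : 4 ≤ Nat.card F) (_ : 2 ∣ Nat.card F - 1)
    (χ : F → ZMod 2) (_ : IsLg 2 χ) (_ : Rcp χ) (V W : Type) [Fintype V]
    [AddCommGroup W] [Module (ZMod 2) W] [Finite W] (pr : V → F[X]) (_ : Fam pr)
    (σ : V → Module.End (ZMod 2) W) (Λ : Module.End (ZMod 2) W) (_ : HypW χ pr σ Λ)
    (ε : ℝ) (_ : 0 < ε),
    ∃ n₀ : ℕ, ∀ n : ℕ, n₀ ≤ n → InfW pr σ n →
      |∑ t ∈ gs F pr n, (nSol χ pr σ Λ t : ℝ) - (muB χ pr σ Λ : ℝ) * ((gs F pr n).card : ℝ)| ≤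
        ε * (Nat.card F : ℝ) ^ n

/-- **PhSub** (forms on subspaces and on subsystems; 200 lines).

Proof. `(S.sub A hA).W = A` by definition, and its operators are the restrictions. First claim, for
`g` on `A`: `g ∈ SaA S.σ S.Λ A` iff `g ∈ Sa (S.sub A hA).σ (S.sub A hA).Λ` (both say: alternating,
`g x (σ v y) = g (σ v x) y`, the same for `Λ`; see `pqprim_skA` in PqPrim.lean). `TrA` iff `TrW`: given
`CdB` data `(δ, c, d, η)`, the restrictions of `c`, `d`, `η` to `A` (`c v ∈ A`) satisfy the conditions in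
`TrW` for `S.sub A hA`, and `thW` is the same, because all vectors in `thW` are in `A`. Conversely the
functionals `d v`, `η` on `A` extend to `S.W` (`LinearMap.exists_extend`), and the extensions satisfy
`CdB`. Second claim: transport along `Submodule.topEquiv` (see `pqprim_skT`). -/
def StmtPhSub : Prop :=
  ∀ (F : Type u) [Field F] (V : Type) [Fintype V] (χ : F → ZMod 2) (pr : V → F[X])
    (S : Sys 2 V),
    (∀ (A : Submodule (ZMod 2) S.W) (hA : Inv S.σ S.Λ A),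
      Nat.card {g // g ∈ SaA S.σ S.Λ A ∧ TrA χ pr S.σ S.Λ A g} =
        Nat.card {g // g ∈ Sa (S.sub A hA).σ (S.sub A hA).Λ ∧
          TrW χ pr (S.sub A hA).σ (S.sub A hA).Λ g}) ∧
    Nat.card {g // g ∈ SaA S.σ S.Λ ⊤ ∧ TrA χ pr S.σ S.Λ ⊤ g} =
      Nat.card {g // g ∈ Sa S.σ S.Λ ∧ TrW χ pr S.σ S.Λ g}

/-- **PhPrim** (primitive solutions; import PqPrim.lean and copy its last theorem; uses `StmtPhFM`,
`StmtPhSub`).

Proof. As in PqPrim.lean (`pqprim_sum`, `pqprim_fib`, `pqprim_top`, `pqprim_hyp`, `pqprim_inf` are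
there for all `ℓ`), with `StmtPhSub` instead of `pqprim_skA`, `pqprim_skT`. -/
def StmtPhPrim : Prop :=
  ∀ (F : Type u) [Field F] [Finite F] (_ : 4 ≤ Nat.card F) (_ : 2 ∣ Nat.card F - 1)
    (χ : F → ZMod 2) (_ : IsLg 2 χ) (_ : Rcp χ) (V : Type) [Fintype V]
    (pr : V → F[X]) (_ : Fam pr) (S : Sys 2 V) (_ : HypW χ pr S.σ S.Λ) (ε : ℝ) (_ : 0 < ε),
    ∃ n₀ : ℕ, ∀ n : ℕ, n₀ ≤ n → InfW pr S.σ n →
      |∑ t ∈ gs F pr n, (S.prim χ pr t : ℝ) -
        (Nat.card {g // g ∈ Sa S.σ S.Λ ∧ TrW χ pr S.σ S.Λ g} : ℝ) * ((gs F pr n).card : ℝ)| ≤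
          ε * (Nat.card F : ℝ) ^ n

/-! ### Powers of a system -/

/-- **PhRT** (the relation implies that the phase is trivial; 150 lines; the computation (1) of
`StmtPhA4` for `A = W`).

Proof. With `φ v x = g x (σ v x)`, `φ₀ x = g x (Λ x)` (additive), `y v = σ v (c v)`, part (1) of the
proof of `StmtPhA4` gives `thW = φ₀ (∑ D v • y v) + ∑ v, (g (c v) (σ v (M v (c v))) +
φ v (∑ v', s v v' • y v') + φ v (M v (c v)))`. By `RelF` the second term is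
`∑ v', s v v' * φ v' (y v) + D v * φ₀ (y v) + φ v (M v (c v))`. So everything cancels:
`∑ v, ∑ v', s v v' * φ v' (y v) = ∑ v, φ v (∑ v', s v v' • y v')` by the symmetry of `s`. -/
def StmtPhRT : Prop :=
  ∀ (F : Type u) [Field F] (V W : Type) [Fintype V]
    [AddCommGroup W] [Module (ZMod 2) W] [Finite W]
    (χ : F → ZMod 2) (pr : V → F[X]) (σ : V → Module.End (ZMod 2) W)
    (Λ : Module.End (ZMod 2) W) (_ : HypW χ pr σ Λ)
    (_ : ∀ v v', syl χ (pr v) (pr v') = syl χ (pr v') (pr v))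
    (g : W →ₗ[ZMod 2] Module.Dual (ZMod 2) W) (_ : g ∈ Sa σ Λ) (_ : RelF χ pr σ Λ g),
    TrW χ pr σ Λ g

/-- **PhPw** (the forms on the powers; 250 lines).

Proof. `T = Sys.pi fun _ : I => S`. Let `g ∈ Sa T`, symmetric. For `p, p' ∈ I` the form
`(x, y) ↦ g (in p x) (in p' y)` is in `BilS S S` (`in p` the inclusion, intertwining), so it is
`t p p' • f`, and `g x y = ∑_{p, p'} t p p' * f (x p) (y p')`. `t` is symmetric (`g`, `f` are symmetric,
`f ≠ 0`). Conversely every symmetric `t` gives an element of `Sa T`: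
`g x x = ∑_p t p p * f (x p) (x p) + ∑_{p ≠ p'} .. = 0`. So `Sa T` is in bijection with the symmetric
matrices, i.e. with the functions `Sym2 I → ZMod 2`, and `Fintype.card (Sym2 I) =
(card I + 1).choose 2` (`Sym2.card`). `RelF`: for a self-adjoint operator `O` of `T` which acts
componentwise by a self-adjoint operator `O` of `S`, `g x (O x) = ∑_p t p p * f (x p) (O (x p))` (the
terms for `p ≠ p'` cancel in pairs). All terms in `RelF` are of this form (the first one with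
`O = σ v ∘ M v`, self-adjoint as a product of commuting self-adjoint operators, `HypW.com`), so
`RelF` for `g` is the sum of `t p p` times `RelF` for `f` at `x p`. -/
def StmtPhPw : Prop :=
  ∀ (F : Type u) [Field F] (V : Type) [Fintype V] (χ : F → ZMod 2) (pr : V → F[X])
    (S : Sys 2 V) (_ : HypW χ pr S.σ S.Λ) (f : S.W →ₗ[ZMod 2] Module.Dual (ZMod 2) S.W)
    (_ : f ∈ Sa S.σ S.Λ) (_ : f ≠ 0) (_ : ∀ g ∈ BilS S S, ∃ t : ZMod 2, g = t • f)
    (_ : RelF χ pr S.σ S.Λ f) (I : Type) [Fintype I],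
    (∀ g ∈ Sa (Sys.pi fun _ : I => S).σ (Sys.pi fun _ : I => S).Λ,
      RelF χ pr (Sys.pi fun _ : I => S).σ (Sys.pi fun _ : I => S).Λ g) ∧
    Nat.card (Sa (Sys.pi fun _ : I => S).σ (Sys.pi fun _ : I => S).Λ) =
      2 ^ (Fintype.card I * (Fintype.card I + 1) / 2)

open Classical in
/-- **PhEq** (the moments of `Eq_`; 120 lines; uses `StmtPhPrim`, `StmtPqCt`, `StmtPhRT`,
`StmtPhPw`; model: PqMix.lean).

Proof. `T = Sys.pi fun p : (Σ _ : Unit, Fin j) => S` (`fun i => S` for `ι = Unit`). `HypW` and `InfW`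
for `T` hold componentwise (PqMix.lean). By `StmtPhPw`, `StmtPhRT` every element of `Sa T` satisfies
`TrW`, so `StmtPhPrim` says that the average of `T.prim` tends to `|Sa T| = 2 ^ (j (j + 1) / 2)`
(the index type has `j` elements), and `StmtPqCt` says
`T.prim t = ∏_{i < j} (S.sol t - 2 ^ i) = (Eq_ 2 j).eval (S.sol t)`. The symmetry of `syl` is `Rcp χ`
(and trivial for `v = v'`). -/
def StmtPhEq : Prop :=
  ∀ (F : Type u) [Field F] [Finite F] (_ : 4 ≤ Nat.card F) (_ : 2 ∣ Nat.card F - 1)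
    (χ : F → ZMod 2) (_ : IsLg 2 χ) (_ : Rcp χ) (V : Type) [Fintype V]
    (pr : V → F[X]) (_ : Fam pr) (S : Sys 2 V) (_ : FamS χ pr (fun _ : Unit => S))
    (_ : Nat.card (HomS S S) = 2) (f : S.W →ₗ[ZMod 2] Module.Dual (ZMod 2) S.W)
    (_ : f ∈ Sa S.σ S.Λ) (_ : f ≠ 0) (_ : ∀ g ∈ BilS S S, ∃ t : ZMod 2, g = t • f)
    (_ : RelF χ pr S.σ S.Λ f) (j : ℕ) (ε : ℝ) (_ : 0 < ε),
    ∃ n₀ : ℕ, ∀ n : ℕ, n₀ ≤ n → InfW pr S.σ n →
      |∑ t ∈ gs F pr n, (Eq_ 2 j).eval (S.sol χ pr t : ℝ) -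
        (2 : ℝ) ^ (j * (j + 1) / 2) * ((gs F pr n).card : ℝ)| ≤ ε * (Nat.card F : ℝ) ^ n

/-! ### From moments to the distribution -/

/-- **PhMom** (moments; 60 lines; model: PqMom.lean).

Proof. `L ((X - 1) * p) = 2 * L (p.comp (C 2 * X))` for all `p`: for `p = ∏_{i = 1}^a (X - 2 ^ i)`,
`(X - 1) p = Eq_ 2 (a + 1)`, `p (2 X) = 2 ^ a Eq_ 2 a`, and
`(a + 1) (a + 2) / 2 = 1 + a + a (a + 1) / 2`; these `p` span `ℝ[X]`. For `p = X ^ k`:
`L (X ^ (k + 1)) = L (X ^ k) + 2 * 2 ^ k * L (X ^ k)`. -/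
def StmtPhMom : Prop :=
  ∀ (L : ℝ[X] →ₗ[ℝ] ℝ) (_ : ∀ j : ℕ, L (Eq_ 2 j) = 2 ^ (j * (j + 1) / 2)) (k : ℕ),
    L (X ^ k) = ∏ i ∈ Finset.range k, (1 + 2 ^ (i + 1))

/-- **PhSq** (only even exponents; 100 lines; copy the parts (i), (ii) of PqOneB.lean with `q = 2`).

Proof. As parts (i), (ii) of the proof of `StmtPqOneB`, which do not use `ℓ ≥ 3`:
`2 ^ (j (j + 1) / 2) = 2 ^ j * 2 ^ (j (j - 1) / 2)`. -/
def StmtPhSq : Prop :=
  ∀ (L : ℝ[X] →ₗ[ℝ] ℝ) (_ : ∀ j : ℕ, L (Eq_ 2 j) = 2 ^ (j * (j + 1) / 2)) (k : ℕ),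
    L (Eq_ 4 k) = 2 ^ k

/-- **PhEul** (an identity of Euler; 250 lines; model: PrEul.lean).

Proof. Let `Π j = ∏_{i = 1}^j (4 ^ i - 1)`, `f_J = ∑_{j ≤ J} (-1) ^ j • Eq_ 4 j / Π j =
∏_{i = 1}^J (4 ^ i - X) / (4 ^ i - 1)` (see `StmtPqOneC` and PqOneC.lean). `f_J (1) = 1`,
`f_J (4 ^ r) = 0` for `1 ≤ r ≤ J`, and for `r > J` it has the sign `(-1) ^ J`. Take `fm = f_J` with `J`
odd and `fp = f_J` with `J` even, large. `L f_J = ∑_{j ≤ J} (- z) ^ j / Π j`, which tends to `G z`,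
`G z = ∑_j (- z) ^ j / Π j`, absolutely convergent for all `z` (the ratio of successive terms is
`z / (4 ^ (j + 1) - 1)`). It remains to show `G z = ∏' i, (1 - z * (4⁻¹) ^ (i + 1))`:
`G z - G (z / 4) = ∑_j (- z) ^ j (1 - 4 ^ (- j)) / Π j = - (z / 4) G (z / 4)` (as
`(1 - 4 ^ (- j)) / Π j = 4 ^ (- j) / Π (j - 1)`), so `G z = (1 - z / 4) G (z / 4)`, and by induction
`G z = ∏_{i < N} (1 - z * (4⁻¹) ^ (i + 1)) * G (z / 4 ^ N)`, where `G (z / 4 ^ N) → G 0 = 1` (for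
`0 ≤ y ≤ 1`: `|G y - 1| ≤ y * ∑_{j ≥ 1} 1 / Π j ≤ y`). -/
def StmtPhEul : Prop :=
  ∀ (z : ℝ) (_ : 0 ≤ z) (_ : z ≤ 2) (L : ℝ[X] →ₗ[ℝ] ℝ) (_ : ∀ j : ℕ, L (Eq_ 4 j) = z ^ j)
    (η : ℝ) (_ : 0 < η),
    ∃ fm fp : ℝ[X], (∀ r : ℕ, fm.eval (4 ^ r) ≤ (if r = 0 then 1 else 0) ∧
      (if r = 0 then 1 else 0) ≤ fp.eval (4 ^ r)) ∧
      (∏' i : ℕ, (1 - z * (4⁻¹) ^ (i + 1))) - η ≤ L fm ∧
      L fp ≤ (∏' i : ℕ, (1 - z * (4⁻¹) ^ (i + 1))) + η

open Classical in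
/-- **PhDis** (the distribution; 250 lines; model: PrDis.lean; uses `StmtPqMul`, `StmtPqFun`,
`StmtPhSq`, `StmtPhEul`).

Proof. `L` the functional with `L (Eq_ 2 j) = 2 ^ (j (j + 1) / 2)` (`StmtPqFun`). `StmtPqMul` for the
index set `Unit` (`q = 2`): for all polynomials `f`, `|∑_t f (x t) - L f * |G n|| ≤ ε Q ^ n`. By
`StmtPhSq`, `L (Eq_ 4 k) = 2 ^ k`. Fix `r`, let `c = (Eq_ 4 r).eval (4 ^ r) = ∏_{j < r} (4 ^ r - 4 ^ j) =
2 ^ (r (r - 1)) * ∏_{i = 1}^r (4 ^ i - 1)`, and for a polynomial `f` let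
`T f = C c⁻¹ * Eq_ 4 r * f.comp (C (4 ^ r)⁻¹ * X)`. Let `L'` be the functional with
`L' (Eq_ 4 j) = (2 * (4 ^ r)⁻¹) ^ j` (`StmtPqFun` for `q = 4`). `L (T f) = 2 ^ r / c * L' f`: both sides
are linear in `f`, the `Eq_ 4 j` span, and
`Eq_ 4 r * (Eq_ 4 j).comp (C (4 ^ r)⁻¹ * X) = C (4 ^ (r j))⁻¹ * Eq_ 4 (r + j)`. With `fm`, `fp` from
`StmtPhEul` for `z = 2 * (4 ^ r)⁻¹`, `L'`: `T fm (4 ^ s) ≤ [s = r] ≤ T fp (4 ^ s)` for all `s` (as in the
proof of `StmtPrDis`). Sum over `t`. Finally, with `x = 2⁻¹`, `z * (4⁻¹) ^ (i + 1) = x ^ (2 (i + r) + 1)`,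
and `2 ^ r / c * ∏' i, (1 - x ^ (2 (i + r) + 1)) = 2 ^ (2 r) * ∏' i, (1 - x ^ (2 i + 1)) /
∏_{i < 2 r} (2 ^ (i + 1) - 1)`: split off the first `r` factors of the infinite product
(`Multipliable.prod_mul_tprod_nat_mul'` or similar),
`∏_{i < r} (1 - x ^ (2 i + 1)) = ∏_{i < r} (2 ^ (2 i + 1) - 1) / 2 ^ (r ^ 2)`, and
`∏_{i < 2 r} (2 ^ (i + 1) - 1) = ∏_{i < r} (2 ^ (2 i + 1) - 1) * ∏_{i = 1}^r (4 ^ i - 1)`. -/
def StmtPhDis : Prop :=
  ∀ (α : Type u) (G : ℕ → Finset α) (good : ℕ → Prop) (Q : ℝ) (_ : 0 < Q)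
    (x : α → ℝ) (_ : ∀ n, good n → ∀ t ∈ G n, ∃ r : ℕ, x t = 4 ^ r)
    (_ : ∀ (j : ℕ) (ε : ℝ), 0 < ε → ∃ n₀ : ℕ, ∀ n : ℕ, n₀ ≤ n → good n →
      |∑ t ∈ G n, (Eq_ 2 j).eval (x t) - 2 ^ (j * (j + 1) / 2) * ((G n).card : ℝ)| ≤ ε * Q ^ n)
    (r : ℕ) (ε : ℝ) (_ : 0 < ε), ∃ n₀ : ℕ, ∀ n : ℕ, n₀ ≤ n → good n →
      |(((G n).filter fun t => x t = 4 ^ r).card : ℝ) -
        2 ^ (2 * r) * (∏' i : ℕ, (1 - ((2 : ℝ)⁻¹) ^ (2 * i + 1))) /
          (∏ i ∈ Finset.range (2 * r), ((2 : ℝ) ^ (i + 1) - 1)) *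
          ((G n).card : ℝ)| ≤ ε * ((G n).card : ℝ) + ε * Q ^ n

end MP72e2e6
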