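import Pool.Agent.Lib.MP_72e2e6_nt.PrEul
import Pool.Agent.Lib.MP_72e2e6_nt.PrDis

/-!
# MP_72e2e6_nt : the law of the symmetric matrices, also for `q = 2`
-/

set_option autoImplicit false

namespace MP72e2e6

open Polynomial Filter Topology

universe u

theorem pjeul_d_ge {x : ℝ} (h0 : 0 ≤ x) (h1 : x ≤ 1 / 2) (j : ℕ) : 1 / 4 ≤ preul_d x j := by
  rcases j with _ | j
  · simp only [preul_d, Finset.range_zero, Finset.prod_empty]
    norm_num
  · have e : preul_d x (j + 1) = (∏ i ∈ Finset.range j, (1 - x ^ (1 + 1 + i))) * (1 - x) := by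
      rw [preul_d, Finset.prod_range_succ']
      simp only [zero_add, pow_one]
      congr 1
      exact Finset.prod_congr rfl fun i _ => by rw [show i + 1 + 1 = 1 + 1 + i by ring]
    have h2 := preul_lower h0 (by linarith) 1 j
    have h3 : x ^ (1 + 1) / (1 - x) * (1 - x ^ j) ≤ x ^ (1 + 1) / (1 - x) := by
      refine mul_le_of_le_one_right (div_nonneg (pow_nonneg h0 _) (by linarith)) ?_
      linarith [pow_nonneg h0 j]
    have h4 : (1 - x ^ (1 + 1) / (1 - x)) * (1 - x) = 1 - x - x ^ 2 := by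
      have : 1 - x ≠ 0 := by linarith
      field_simp
    have h5 : (1 - x ^ (1 + 1) / (1 - x)) * (1 - x) ≤ preul_d x (j + 1) := by
      rw [e]
      exact mul_le_mul_of_nonneg_right (by linarith) (by linarith)
    rw [h4] at h5
    nlinarith

theorem pjeul_a_le {x : ℝ} (h0 : 0 ≤ x) (h1 : x ≤ 1 / 2) {z : ℝ} (hz : 0 ≤ z) (j : ℕ) :
    ‖preul_a x z j‖ ≤ 4 * z ^ j := by
  have hd := pjeul_d_ge h0 h1 j
  rw [Real.norm_eq_abs, preul_a, abs_div, abs_pow, abs_neg, abs_of_nonneg hz,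
    abs_of_pos (by linarith), div_le_iff₀ (by linarith)]
  nlinarith [pow_nonneg hz j]

theorem pjeul_summable {x : ℝ} (h0 : 0 ≤ x) (h1 : x ≤ 1 / 2) {z : ℝ} (hz : 0 ≤ z)
    (hzx : z ≤ x) : Summable (preul_a x z) :=
  Summable.of_norm_bounded ((summable_geometric_of_lt_one hz (by linarith)).mul_left 4)
    fun j => pjeul_a_le h0 h1 hz j

theorem pjeul_step {x : ℝ} (h0 : 0 ≤ x) (h1 : x ≤ 1 / 2) {z : ℝ} (hz : 0 ≤ z)
    (hzx : z ≤ x) : (1 + z) * preul_G x z = preul_G x (x * z) := by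
  have hxz : 0 ≤ x * z := mul_nonneg h0 hz
  have hxz2 : x * z ≤ x := mul_le_of_le_one_right h0 (by linarith)
  have s1 := pjeul_summable h0 h1 hz hzx
  have s2 := pjeul_summable h0 h1 hxz hxz2
  have e1 : preul_G x z = preul_a x z 0 + ∑' j, preul_a x z (j + 1) := s1.tsum_eq_zero_add
  have e2 : preul_G x (x * z) = preul_a x (x * z) 0 + ∑' j, preul_a x (x * z) (j + 1) :=
    s2.tsum_eq_zero_add
  have e3 : ∑' j, preul_a x z (j + 1) - ∑' j, preul_a x (x * z) (j + 1) = -z * preul_G x z := by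
    rw [← ((summable_nat_add_iff 1).2 s1).tsum_sub ((summable_nat_add_iff 1).2 s2), preul_G,
      ← tsum_mul_left]
    congr 1
    funext j
    have hd : preul_d x j ≠ 0 := (preul_d_pos h0 (by linarith) j).ne'
    have hd2 : 1 - x ^ (j + 1) ≠ 0 := by
      have h2 : x ^ (j + 1) < 1 := pow_lt_one₀ h0 (by linarith) (by omega)
      linarith
    have e : preul_d x (j + 1) = preul_d x j * (1 - x ^ (j + 1)) := by
      rw [preul_d, Finset.prod_range_succ]
      rfl
    rw [preul_a, preul_a, preul_a, e]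
    field_simp
    ring
  have e4 : preul_a x z 0 = preul_a x (x * z) 0 := by simp [preul_a]
  linarith

theorem pjeul_iter {x : ℝ} (h0 : 0 ≤ x) (h1 : x ≤ 1 / 2) (N : ℕ) :
    (∏ i ∈ Finset.range N, (1 + x ^ (i + 1))) * preul_G x x = preul_G x (x ^ (N + 1)) := by
  induction N with
  | zero => simp
  | succ N ih =>
    have hz : 0 ≤ x ^ (N + 1) := pow_nonneg h0 _
    have hzx : x ^ (N + 1) ≤ x := by
      rw [pow_succ]
      exact mul_le_of_le_one_left h0 (pow_le_one₀ h0 (by linarith))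
    have h2 := pjeul_step h0 h1 hz hzx
    rw [Finset.prod_range_succ, pow_succ x (N + 1), mul_comm (x ^ (N + 1)) x, ← h2, ← ih]
    ring

theorem pjeul_near {x : ℝ} (h0 : 0 ≤ x) (h1 : x ≤ 1 / 2) {z : ℝ} (hz : 0 ≤ z)
    (hzx : z ≤ x) : |preul_G x z - 1| ≤ 8 * z := by
  have s1 := pjeul_summable h0 h1 hz hzx
  have e1 : preul_G x z = preul_a x z 0 + ∑' j, preul_a x z (j + 1) := s1.tsum_eq_zero_add
  have e0 : preul_a x z 0 = 1 := by simp [preul_a, preul_d]
  rw [e1, e0, add_sub_cancel_left, ← Real.norm_eq_abs]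
  have h2 : HasSum (fun j : ℕ => 4 * z * (1 / 2) ^ j) (4 * z * 2) :=
    hasSum_geometric_two.mul_left (4 * z)
  have h3 := tsum_of_norm_bounded h2 fun j => by
    refine (pjeul_a_le h0 h1 hz (j + 1)).trans ?_
    rw [pow_succ]
    have h4 : z ^ j ≤ (1 / 2) ^ j := pow_le_pow_left₀ hz (by linarith) j
    nlinarith
  linarith

theorem pjeul_G_eq {x : ℝ} (h0 : 0 ≤ x) (h1 : x ≤ 1 / 2) :
    preul_G x x = ∏' i : ℕ, (1 - x ^ (2 * i + 1)) := by
  have hx1 : x < 1 := by linarith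
  have hm : Multipliable fun i : ℕ => (1 - x ^ (2 * i + 1)) := by
    have hs : Summable fun i : ℕ => -x ^ (2 * i + 1) := by
      apply Summable.neg
      have h2 : Summable fun i : ℕ => x * (x ^ 2) ^ i := (summable_geometric_of_lt_one
        (pow_nonneg h0 2) (pow_lt_one₀ h0 hx1 (by norm_num))).mul_left x
      refine h2.congr fun i => ?_
      rw [← pow_mul, pow_succ, mul_comm]
    have h3 := Real.multipliable_one_add_of_summable hs
    refine h3.congr fun i => ?_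
    ring
  have t1 := hm.hasProd.tendsto_prod_nat
  have t2 : Tendsto (fun N : ℕ => ∏ i ∈ Finset.range N, (1 - x ^ (N + 1 + i))) atTop (𝓝 1) := by
    have h4 : Tendsto (fun N : ℕ => 1 - (1 - x)⁻¹ * x ^ (N + 1)) atTop (𝓝 (1 - 0)) :=
      (tendsto_const_nhds).sub (preul_tendsto_pow h0 hx1 _)
    rw [sub_zero] at h4
    refine tendsto_of_tendsto_of_tendsto_of_le_of_le h4 tendsto_const_nhds (fun N => ?_)
      (fun N => preul_upper h0 hx1 N N)
    refine le_trans ?_ (preul_lower h0 hx1 N N)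
    have h5 : 0 ≤ x ^ (N + 1) / (1 - x) := div_nonneg (pow_nonneg h0 _) (by linarith)
    have h6 : 0 ≤ x ^ N := pow_nonneg h0 _
    have h7 : (1 - x)⁻¹ * x ^ (N + 1) = x ^ (N + 1) / (1 - x) := by
      rw [div_eq_mul_inv, mul_comm]
    simp only [h7]
    nlinarith [mul_nonneg h5 h6]
  have t3 : Tendsto (fun N : ℕ => preul_G x (x ^ (N + 1))) atTop (𝓝 1) := by
    rw [tendsto_iff_dist_tendsto_zero]
    have h4 := preul_tendsto_pow h0 hx1 8
    refine squeeze_zero (fun N => dist_nonneg) (fun N => ?_) h4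
    have hz : 0 ≤ x ^ (N + 1) := pow_nonneg h0 _
    have hzx : x ^ (N + 1) ≤ x := by
      rw [pow_succ]
      exact mul_le_of_le_one_left h0 (pow_le_one₀ h0 (by linarith))
    have h5 := pjeul_near h0 h1 hz hzx
    rw [Real.dist_eq]
    exact h5
  have e : ∀ N : ℕ, preul_G x x * ∏ i ∈ Finset.range N, (1 - x ^ (N + 1 + i)) =
      preul_G x (x ^ (N + 1)) * ∏ i ∈ Finset.range N, (1 - x ^ (2 * i + 1)) := by
    intro N
    rw [← preul_prod h0 hx1, ← pjeul_iter h0 h1]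
    ring
  have t4 := (t2.const_mul (preul_G x x))
  have t5 := t3.mul t1
  simp only [e] at t4
  have h8 := tendsto_nhds_unique t4 t5
  rw [mul_one, one_mul] at h8
  exact h8

theorem pjeul_main (q : ℝ) (hq : 2 ≤ q) (L : ℝ[X] →ₗ[ℝ] ℝ)
    (hL : ∀ j : ℕ, L (Eq_ q j) = q ^ (j * (j - 1) / 2)) (η : ℝ) (hη : 0 < η) :
    ∃ fm fp : ℝ[X], (∀ r : ℕ, fm.eval (q ^ r) ≤ (if r = 0 then 1 else 0) ∧
      (if r = 0 then 1 else 0) ≤ fp.eval (q ^ r)) ∧
      (∏' i : ℕ, (1 - (q⁻¹) ^ (2 * i + 1))) - η ≤ L fm ∧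
      L fp ≤ (∏' i : ℕ, (1 - (q⁻¹) ^ (2 * i + 1))) + η := by
  have hq0 : (0 : ℝ) < q := by linarith
  have hq1 : (1 : ℝ) < q := by linarith
  obtain ⟨x, hx⟩ : ∃ x : ℝ, x = q⁻¹ := ⟨_, rfl⟩
  have h0 : 0 ≤ x := by rw [hx]; exact inv_nonneg.2 hq0.le
  have h1 : x ≤ 1 / 2 := by
    rw [hx, one_div]
    exact inv_anti₀ (by norm_num) hq
  have hxq : q * x = 1 := by rw [hx]; exact mul_inv_cancel₀ hq0.ne'
  have hw : ∀ j, L (Eq_ q j) = (x ^ j / preul_d x j) *
      ∏ i ∈ Finset.range j, (q ^ (i + 1) - 1) := by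
    intro j
    rw [hL]
    have hpi : ∏ i ∈ Finset.range j, (q ^ (i + 1) - 1) =
        q ^ (j * (j + 1) / 2) * preul_d x j := by
      induction j with
      | zero => simp [preul_d]
      | succ j ih =>
        have e1 : (j + 1) * (j + 1 + 1) / 2 = j * (j + 1) / 2 + (j + 1) := by
          have : (j + 1) * (j + 1 + 1) = j * (j + 1) + (j + 1) * 2 := by ring
          rw [this, Nat.add_mul_div_right _ _ (by norm_num)]
        have e2 : preul_d x (j + 1) = preul_d x j * (1 - x ^ (j + 1)) := by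
          rw [preul_d, Finset.prod_range_succ]
          rfl
        rw [Finset.prod_range_succ, ih, e1, e2, pow_add]
        have e3 : q ^ (j + 1) * x ^ (j + 1) = 1 := by rw [← mul_pow, hxq, one_pow]
        linear_combination (q ^ (j * (j + 1) / 2) * preul_d x j) * e3
    have hd : preul_d x j ≠ 0 := (preul_d_pos h0 (by linarith) j).ne'
    have e4 : j * (j + 1) / 2 = j * (j - 1) / 2 + j := by
      rcases j with _ | j
      · rfl
      · have : (j + 1) * (j + 1 + 1) = (j + 1) * (j + 1 - 1) + (j + 1) * 2 := by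
          rw [Nat.add_sub_cancel]
          ring
        rw [this, Nat.add_mul_div_right _ _ (by norm_num)]
    rw [hpi, e4, pow_add]
    have e5 : q ^ j * x ^ j = 1 := by rw [← mul_pow, hxq, one_pow]
    field_simp
    linear_combination (-1 : ℝ) * e5
  have hsum := (pjeul_summable h0 h1 h0 le_rfl).hasSum.tendsto_sum_nat
  have hG : (∑' j, preul_a x x j) = ∏' i : ℕ, (1 - x ^ (2 * i + 1)) := pjeul_G_eq h0 h1
  rw [hG] at hsum
  obtain ⟨N, hN⟩ := (Metric.tendsto_atTop.1 hsum) η hη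
  have hLf : ∀ J, L (pqonec_f q J) = ∑ j ∈ Finset.range (J + 1), preul_a x x j := by
    intro J
    rw [pqonec_L hq1 L (fun j => x ^ j / preul_d x j) hw]
    apply Finset.sum_congr rfl
    intro j _
    rw [preul_a, neg_pow]
    ring
  have hb : ∀ J, N ≤ J + 1 → |L (pqonec_f q J) - ∏' i : ℕ, (1 - (q⁻¹) ^ (2 * i + 1))| < η := by
    intro J hJ
    have h2 := hN (J + 1) hJ
    rw [Real.dist_eq] at h2
    rw [hLf, ← hx]
    exact h2
  refine ⟨pqonec_f q (2 * N + 1), pqonec_f q (2 * N), fun r => ⟨pqonec_odd hq1 N r,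
    pqonec_even hq1 N r⟩, ?_, ?_⟩
  · have := abs_lt.1 (hb (2 * N + 1) (by omega))
    linarith [this.1]
  · have := abs_lt.1 (hb (2 * N) (by omega))
    linarith [this.2]

open Classical in
theorem pjdis_main (hM : StmtPqMul.{u}) (hF : StmtPqFun) (α : Type u) (G : ℕ → Finset α)
    (good : ℕ → Prop) (Q : ℝ) (hQ : 0 < Q) (q : ℝ) (hq : 2 ≤ q)
    (x : α → ℝ) (hx : ∀ t, ∃ r : ℕ, x t = q ^ r)
    (hmom : ∀ (j : ℕ) (ε : ℝ), 0 < ε → ∃ n₀ : ℕ, ∀ n : ℕ, n₀ ≤ n → good n →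
      |∑ t ∈ G n, (Eq_ q j).eval (x t) - q ^ (j * (j - 1) / 2) * ((G n).card : ℝ)| ≤ ε * Q ^ n)
    (r : ℕ) (ε : ℝ) (hε : 0 < ε) : ∃ n₀ : ℕ, ∀ n : ℕ, n₀ ≤ n → good n →
      |(((G n).filter fun t => x t = q ^ r).card : ℝ) -
        (∏' i : ℕ, (1 - (q⁻¹) ^ (2 * i + 1))) / (∏ i ∈ Finset.range r, (q ^ (i + 1) - 1)) *
          ((G n).card : ℝ)| ≤ ε * ((G n).card : ℝ) + ε * Q ^ n := by
  have hq0 : (0 : ℝ) < q := by linarith
  have hq1 : (1 : ℝ) < q := by linarith
  obtain ⟨L, hL⟩ := hF q fun j => q ^ (j * (j - 1) / 2)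
  obtain ⟨P, hP⟩ : ∃ P : ℝ, P = ∏ i ∈ Finset.range r, (q ^ (i + 1) - 1) := ⟨_, rfl⟩
  have hP1 : 1 ≤ P := by
    rw [hP]
    have h0 := Finset.prod_le_prod (s := Finset.range r) (f := fun _ => (1 : ℝ))
      (g := fun i => q ^ (i + 1) - 1) (fun _ _ => zero_le_one) (fun i _ => by
        have h1 : q ≤ q ^ (i + 1) := le_self_pow₀ hq1.le (by omega)
        linarith)
    rwa [Finset.prod_const_one] at h0
  obtain ⟨a, ha⟩ : ∃ a : ℝ, a = ∏' i : ℕ, (1 - (q⁻¹) ^ (2 * i + 1)) := ⟨_, rfl⟩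
  obtain ⟨fm, fp, hfr, hm, hp⟩ := pjeul_main q hq L hL ε hε
  rw [← ha] at hm hp
  -- polynomials
  have hpoly : ∀ (f : ℝ[X]) (ε' : ℝ), 0 < ε' → ∃ n₀ : ℕ, ∀ n : ℕ, n₀ ≤ n → good n →
      |∑ t ∈ G n, f.eval (x t) - L f * ((G n).card : ℝ)| ≤ ε' * Q ^ n := by
    intro f ε' hε'
    obtain ⟨n₀, h0⟩ := hM Unit α G good Q hQ (fun _ => q) (fun _ => x) (fun _ => L) (by
      intro k ε'' hε''
      obtain ⟨n₀, h0⟩ := hmom (k ()) ε'' hε''
      refine ⟨n₀, fun n hn hg => ?_⟩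
      have h1 := h0 n hn hg
      simpa only [Finset.univ_unique, PUnit.default_eq_unit, Finset.prod_singleton, hL] using h1)
      (fun _ => f) ε' hε'
    refine ⟨n₀, fun n hn hg => ?_⟩
    have h1 := h0 n hn hg
    simpa only [Finset.univ_unique, PUnit.default_eq_unit, Finset.prod_singleton] using h1
  obtain ⟨n₁, hn₁⟩ := hpoly (prdisT q r fm) ε hε
  obtain ⟨n₂, hn₂⟩ := hpoly (prdisT q r fp) ε hε
  refine ⟨max n₁ n₂, fun n hn hg => ?_⟩
  have b1 := abs_le.1 (hn₁ n (le_trans (le_max_left _ _) hn) hg)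
  have b2 := abs_le.1 (hn₂ n (le_trans (le_max_right _ _) hn) hg)
  rw [prdis_L hq1 L hL, ← hP] at b1 b2
  -- pointwise
  have hev : ∀ (f : ℝ[X]) (s : ℕ), (prdisT q r f).eval (q ^ s) =
      ((Eq_ q r).eval (q ^ r))⁻¹ * (Eq_ q r).eval (q ^ s) * f.eval ((q ^ r)⁻¹ * q ^ s) := by
    intro f s
    rw [prdisT, eval_mul, eval_mul, eval_C, eval_comp, eval_mul, eval_C, eval_X]
  have hc : 0 < (Eq_ q r).eval (q ^ r) := by
    rw [prdis_c, ← hP]
    exact mul_pos (pow_pos hq0 _) (by linarith)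
  have hpt : ∀ s : ℕ, (prdisT q r fm).eval (q ^ s) ≤ (if q ^ s = q ^ r then (1 : ℝ) else 0) ∧
      (if q ^ s = q ^ r then (1 : ℝ) else 0) ≤ (prdisT q r fp).eval (q ^ s) := by
    intro s
    rcases lt_trichotomy s r with h | h | h
    · have h1 : (Eq_ q r).eval (q ^ s) = 0 := by
        rw [prdis_eval_Eq]
        exact Finset.prod_eq_zero (Finset.mem_range.2 h) (sub_self _)
      have h2 : q ^ s ≠ q ^ r := fun h2 => h.ne (pow_right_injective₀ hq0 hq1.ne' h2)
      rw [hev, hev, h1, if_neg h2]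
      simp
    · rw [h, if_pos rfl, hev, hev, inv_mul_cancel₀ hc.ne', one_mul, one_mul,
        inv_mul_cancel₀ (pow_ne_zero _ hq0.ne')]
      have h2 := hfr 0
      rw [pow_zero, if_pos rfl] at h2
      exact h2
    · have h2 : q ^ s ≠ q ^ r := fun h2 => h.ne' (pow_right_injective₀ hq0 hq1.ne' h2)
      have h3 : 0 ≤ ((Eq_ q r).eval (q ^ r))⁻¹ * (Eq_ q r).eval (q ^ s) := by
        apply mul_nonneg (inv_nonneg.2 hc.le)
        rw [prdis_eval_Eq]
        apply Finset.prod_nonneg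
        intro j hj
        rw [Finset.mem_range] at hj
        have := pow_le_pow_right₀ hq1.le (show j ≤ s by omega)
        linarith
      have h4 : (q ^ r)⁻¹ * q ^ s = q ^ (s - r) := by
        have : q ^ s = q ^ r * q ^ (s - r) := by rw [← pow_add]; congr 1; omega
        rw [this, inv_mul_cancel_left₀ (pow_ne_zero _ hq0.ne')]
      have h5 := hfr (s - r)
      rw [if_neg (by omega)] at h5
      rw [if_neg h2, hev, hev, h4]
      exact ⟨mul_nonpos_of_nonneg_of_nonpos h3 h5.1, mul_nonneg h3 h5.2⟩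
  have hcard : (((G n).filter fun t => x t = q ^ r).card : ℝ) =
      ∑ t ∈ G n, (if x t = q ^ r then (1 : ℝ) else 0) := by
    rw [Finset.card_filter]
    push_cast
    rfl
  have hlow : ∑ t ∈ G n, (prdisT q r fm).eval (x t) ≤
      (((G n).filter fun t => x t = q ^ r).card : ℝ) := by
    rw [hcard]
    apply Finset.sum_le_sum
    intro t _
    obtain ⟨s, hs⟩ := hx t
    rw [hs]
    exact (hpt s).1
  have hupp : (((G n).filter fun t => x t = q ^ r).card : ℝ) ≤
      ∑ t ∈ G n, (prdisT q r fp).eval (x t) := by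
    rw [hcard]
    apply Finset.sum_le_sum
    intro t _
    obtain ⟨s, hs⟩ := hx t
    rw [hs]
    exact (hpt s).2
  have hP0 : 0 < P := by linarith
  have hN : (0 : ℝ) ≤ ((G n).card : ℝ) := Nat.cast_nonneg _
  have hεP : ε / P ≤ ε := div_le_self hε.le hP1
  have c1 : L fm / P * ((G n).card : ℝ) ≥ a / P * ((G n).card : ℝ) - ε * ((G n).card : ℝ) := by
    have h1 : (a - ε) / P ≤ L fm / P := div_le_div_of_nonneg_right hm hP0.le
    have h2 := mul_le_mul_of_nonneg_right h1 hN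
    have h3 := mul_le_mul_of_nonneg_right hεP hN
    rw [sub_div, sub_mul] at h2
    linarith
  have c2 : L fp / P * ((G n).card : ℝ) ≤ a / P * ((G n).card : ℝ) + ε * ((G n).card : ℝ) := by
    have h1 : L fp / P ≤ (a + ε) / P := div_le_div_of_nonneg_right hp hP0.le
    have h2 := mul_le_mul_of_nonneg_right h1 hN
    have h3 := mul_le_mul_of_nonneg_right hεP hN
    rw [add_div, add_mul] at h2
    linarith
  rw [← ha, ← hP, abs_le]
  constructor
  · linarith [b1.1]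
  · linarith [b2.2]

end MP72e2e6
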