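import Pool.Agent.Lib.MP_72e2e6_nt.PhPw
import Pool.Agent.Lib.MP_72e2e6_nt.PqMix
import Pool.Agent.Lib.MP_72e2e6_nt.PjSym

/-!
# MP_72e2e6_nt: the one-dimensional system for `ℓ = 2`

The operators of the primes are the identity. The moments are those of the symmetric matrices over
the field with two elements.
-/

set_option autoImplicit false

namespace MP72e2e6

open Polynomial

universe u

theorem pjline_lin {M : Type*} [AddCommGroup M] [Module (ZMod 2) M] (φ : ZMod 2 →ₗ[ZMod 2] M)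
    (x : ZMod 2) : φ x = x • φ 1 := by
  rw [← map_smul, smul_eq_mul, mul_one]

section

variable {V : Type}

/-- The one-dimensional system. -/
noncomputable def linS (V : Type) (l : ZMod 2) : Sys 2 V where
  W := ZMod 2
  grp := inferInstance
  mod := inferInstance
  fin := inferInstance
  σ _ := LinearMap.id
  Λ := l • LinearMap.id

theorem linS_sg (l : ZMod 2) (v : V) (x : (linS V l).W) : (linS V l).σ v x = x := rfl

theorem linS_lm (l : ZMod 2) (x : (linS V l).W) : (linS V l).Λ x = l • x := rfl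

theorem linS_irr (l : ZMod 2) : IrrW (linS V l).σ (linS V l).Λ := by
  refine ⟨inferInstanceAs (Nontrivial (ZMod 2)), fun A _ _ => ?_⟩
  exact Ideal.eq_bot_or_top (K := ZMod 2) A

theorem linS_hom (l : ZMod 2) : Nat.card (HomS (linS V l) (linS V l)) = 2 := by
  refine Eq.trans (Eq.symm ?_) (Nat.card_zmod 2)
  refine Nat.card_eq_of_bijective
    (fun c => (⟨c • LinearMap.id, fun v z => ?_, fun z => ?_⟩ : HomS (linS V l) (linS V l)))
    ⟨?_, ?_⟩
  · rfl
  · rw [LinearMap.smul_apply, LinearMap.smul_apply, map_smul]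
    rfl
  · intro c c' h
    have h1 : c • (1 : ZMod 2) = c' • (1 : ZMod 2) :=
      LinearMap.congr_fun (congrArg (fun z => z.1) h) (1 : ZMod 2)
    simpa using h1
  · rintro ⟨κ, hκ⟩
    let κ' : ZMod 2 →ₗ[ZMod 2] ZMod 2 := κ
    refine ⟨κ' 1, Subtype.ext (LinearMap.ext fun x => ?_)⟩
    exact (mul_comm (κ' 1) _).trans (pjline_lin κ' x).symm

variable {F : Type u} [Field F] [Fintype V]

theorem linS_hyp (χ : F → ZMod 2) (pr : V → F[X]) (l : ZMod 2) :
    HypW χ pr (linS V l).σ (linS V l).Λ :=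
  ⟨fun _ _ h => h, fun _ _ => rfl⟩

theorem linS_fam (χ : F → ZMod 2) (pr : V → F[X]) (l : ZMod 2) :
    FamS χ pr (fun _ : Unit => linS V l) :=
  ⟨fun _ => linS_irr l, fun _ => linS_hyp χ pr l,
    fun i j h => absurd (Subsingleton.elim i j) h,
    fun i j h => absurd (Subsingleton.elim i j) h⟩

end

section forms

variable {V : Type} {I : Type} [Fintype I]

/-- The multiplication as a bilinear form. -/
noncomputable def pjline_f (V : Type) (l : ZMod 2) :
    (linS V l).W →ₗ[ZMod 2] Module.Dual (ZMod 2) (linS V l).W :=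
  LinearMap.mul (ZMod 2) (ZMod 2)

theorem pjline_f_comm (l : ZMod 2) (x y : (linS V l).W) :
    pjline_f V l x y = pjline_f V l y x := mul_comm (G := ZMod 2) x y

/-- The basis vector. -/
def pjline_e (V : Type) (l : ZMod 2) : (linS V l).W := (1 : ZMod 2)

theorem pjline_f_one (l : ZMod 2) : pjline_f V l (pjline_e V l) (pjline_e V l) = 1 :=
  mul_one (1 : ZMod 2)

/-- The matrix of a function on the pairs of different elements. -/
noncomputable def pjline_t [DecidableEq I] (τ : {z : Sym2 I // ¬ z.IsDiag} → ZMod 2) (p q : I) :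
    ZMod 2 :=
  if h : p = q then 0 else τ ⟨s(p, q), fun h' => h (Sym2.mk_isDiag_iff.1 h')⟩

omit [Fintype I] in
theorem pjline_t_symm [DecidableEq I] (τ : {z : Sym2 I // ¬ z.IsDiag} → ZMod 2) (p q : I) :
    pjline_t τ p q = pjline_t τ q p := by
  unfold pjline_t
  by_cases h : p = q
  · rw [dif_pos h, dif_pos h.symm]
  · rw [dif_neg h, dif_neg fun h' => h h'.symm]
    congr 1
    exact Subtype.ext Sym2.eq_swap

omit [Fintype I] in
theorem pjline_t_diag [DecidableEq I] (τ : {z : Sym2 I // ¬ z.IsDiag} → ZMod 2) (p : I) :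
    pjline_t τ p p = 0 := dif_pos rfl

theorem pjline_alt [DecidableEq I] (l : ZMod 2) (t : I → I → ZMod 2)
    (ht : ∀ p q, t p q = t q p) (ht0 : ∀ p, t p p = 0) (x : (Sys.pi fun _ : I => linS V l).W) :
    phpw_frm (pjline_f V l) t x x = 0 := by
  rw [phpw_frm_apply, phpw_sum (fun p q => t p q * pjline_f V l (x p) (x q))]
  · exact Finset.sum_eq_zero fun p _ => by rw [ht0, zero_mul]
  · intro p q
    rw [ht p q, pjline_f_comm]

theorem pjline_mem [DecidableEq I] (l : ZMod 2)
    (g : (Sys.pi fun _ : I => linS V l).W →ₗ[ZMod 2]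
      Module.Dual (ZMod 2) (Sys.pi fun _ : I => linS V l).W) :
    g ∈ Sa (Sys.pi fun _ : I => linS V l).σ (Sys.pi fun _ : I => linS V l).Λ ↔
      ∀ x, g x x = 0 := by
  have hs : ∀ v x, (Sys.pi fun _ : I => linS V l).σ v x = x := fun v x => rfl
  have hl : ∀ x, (Sys.pi fun _ : I => linS V l).Λ x = l • x := fun x => rfl
  refine ⟨fun h => h.1, fun h => ⟨h, fun v x y => ?_, fun x y => ?_⟩⟩
  · rw [hs, hs]
  · rw [hl, hl, map_smul, map_smul, LinearMap.smul_apply]

theorem pjline_rep [DecidableEq I] (l : ZMod 2)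
    (g : (Sys.pi fun _ : I => linS V l).W →ₗ[ZMod 2]
      Module.Dual (ZMod 2) (Sys.pi fun _ : I => linS V l).W) (hg : ∀ x, g x x = 0) :
    ∃ t : I → I → ZMod 2, (∀ p q, t p q = t q p) ∧ (∀ p, t p p = 0) ∧
      g = phpw_frm (pjline_f V l) t := by
  refine ⟨fun p q => g (pqgen_in (fun _ : I => linS V l) p (1 : ZMod 2))
    (pqgen_in (fun _ : I => linS V l) q (1 : ZMod 2)), fun p q => ?_, fun p => hg _,
    LinearMap.ext fun x => LinearMap.ext fun y => ?_⟩
  · exact phpw_symm (S := Sys.pi fun _ : I => linS V l) hg _ _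
  · rw [phpw_frm_apply]
    conv_lhs => rw [← pqgen_sum (fun _ : I => linS V l) x, ← pqgen_sum (fun _ : I => linS V l) y]
    rw [map_sum g, LinearMap.sum_apply]
    refine Finset.sum_congr rfl fun p _ => ?_
    rw [map_sum]
    refine Finset.sum_congr rfl fun q _ => ?_
    have h1 : ∀ (p : I) (c : ZMod 2), pqgen_in (fun _ : I => linS V l) p c =
        c • pqgen_in (fun _ : I => linS V l) p (1 : ZMod 2) := fun p c =>
      pjline_lin (pqgen_in (fun _ : I => linS V l) p : ZMod 2 →ₗ[ZMod 2] _) c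
    have h2 : ∀ c d : ZMod 2, g (pqgen_in (fun _ : I => linS V l) p c)
        (pqgen_in (fun _ : I => linS V l) q d) =
        g (pqgen_in (fun _ : I => linS V l) p (1 : ZMod 2))
          (pqgen_in (fun _ : I => linS V l) q (1 : ZMod 2)) * (c * d) := by
      intro c d
      rw [h1 p c, h1 q d, map_smul, map_smul, LinearMap.smul_apply, smul_eq_mul, smul_eq_mul]
      ring
    exact h2 (x p) (y q)

variable {F : Type u} [Field F] [Fintype V]

theorem pjline_relF (χ : F → ZMod 2) (pr : V → F[X]) (l : ZMod 2)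
    (g : (Sys.pi fun _ : I => linS V l).W →ₗ[ZMod 2]
      Module.Dual (ZMod 2) (Sys.pi fun _ : I => linS V l).W) (hg : ∀ x, g x x = 0) :
    RelF χ pr (Sys.pi fun _ : I => linS V l).σ (Sys.pi fun _ : I => linS V l).Λ g := by
  have hs : ∀ v x, (Sys.pi fun _ : I => linS V l).σ v x = x := fun v x => rfl
  have hl : ∀ x, (Sys.pi fun _ : I => linS V l).Λ x = l • x := fun x => rfl
  have hM : ∀ v x, ∃ c : ZMod 2, Mop χ pr (Sys.pi fun _ : I => linS V l).σ
      (Sys.pi fun _ : I => linS V l).Λ v x = c • x := by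
    intro v x
    refine ⟨∑ v', syl χ (pr v) (pr v') + ((pr v).natDegree : ZMod 2) * l, ?_⟩
    unfold Mop
    simp only [hs, hl]
    rw [add_smul, Finset.sum_smul, mul_smul]
  intro v x
  obtain ⟨c, hc⟩ := hM v x
  simp only [hs, hl, hc, map_smul, LinearMap.smul_apply, hg, smul_zero, mul_zero,
    Finset.sum_const_zero, add_zero]

theorem pjline_card (hRT : StmtPhRT.{u}) (χ : F → ZMod 2) (pr : V → F[X]) (l : ZMod 2)
    (hsym : ∀ v v', syl χ (pr v) (pr v') = syl χ (pr v') (pr v)) :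
    Nat.card {g // g ∈ Sa (Sys.pi fun _ : I => linS V l).σ (Sys.pi fun _ : I => linS V l).Λ ∧
      TrW χ pr (Sys.pi fun _ : I => linS V l).σ (Sys.pi fun _ : I => linS V l).Λ g} =
      2 ^ (Fintype.card I * (Fintype.card I - 1) / 2) := by
  classical
  have hT : HypW χ pr (Sys.pi fun _ : I => linS V l).σ (Sys.pi fun _ : I => linS V l).Λ :=
    pqmix_hyp χ pr _ fun _ => linS_hyp χ pr l
  let Φ : ({z : Sym2 I // ¬ z.IsDiag} → ZMod 2) → {g // g ∈ Sa (Sys.pi fun _ : I => linS V l).σ
      (Sys.pi fun _ : I => linS V l).Λ ∧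
      TrW χ pr (Sys.pi fun _ : I => linS V l).σ (Sys.pi fun _ : I => linS V l).Λ g} :=
    fun τ => ⟨phpw_frm (pjline_f V l) (pjline_t τ), by
      have h1 := pjline_alt (V := V) l (pjline_t τ) (pjline_t_symm τ) (pjline_t_diag τ)
      have h2 := (pjline_mem l _).2 h1
      exact ⟨h2, hRT F V _ χ pr _ _ hT hsym _ h2 (pjline_relF χ pr l _ h1)⟩⟩
  have hΦ : Function.Bijective Φ := by
    constructor
    · intro τ τ' h
      have h1 : ∀ (t : I → I → ZMod 2) (p q : I), phpw_frm (pjline_f V l) t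
          (pqgen_in (fun _ : I => linS V l) p (pjline_e V l))
          (pqgen_in (fun _ : I => linS V l) q (pjline_e V l)) = t p q := by
        intro t p q
        rw [phpw_frm_apply, Finset.sum_eq_single p, Finset.sum_eq_single q]
        · rw [pqgen_in_apply, pqgen_in_apply, Pi.single_eq_same, Pi.single_eq_same,
            pjline_f_one, mul_one]
        · intro q' _ hq'
          rw [pqgen_in_apply (fun _ : I => linS V l) q, Pi.single_eq_of_ne hq', map_zero,
            mul_zero]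
        · intro h'
          exact absurd (Finset.mem_univ _) h'
        · intro p' _ hp'
          refine Finset.sum_eq_zero fun q' _ => ?_
          rw [pqgen_in_apply (fun _ : I => linS V l) p, Pi.single_eq_of_ne hp', map_zero,
            LinearMap.zero_apply, mul_zero]
        · intro h'
          exact absurd (Finset.mem_univ _) h'
      funext z
      obtain ⟨z, hz⟩ := z
      induction z using Sym2.ind with
      | _ p q =>
        have hpq : p ≠ q := fun h' => hz (Sym2.mk_isDiag_iff.2 h')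
        have h2 : phpw_frm (pjline_f V l) (pjline_t τ) = phpw_frm (pjline_f V l) (pjline_t τ') :=
          congrArg Subtype.val h
        have h3 := h1 (pjline_t τ) p q
        rw [h2, h1] at h3
        rw [pjline_t, pjline_t, dif_neg hpq, dif_neg hpq] at h3
        exact h3.symm
    · rintro ⟨g, hg, hg'⟩
      obtain ⟨t, ht, ht0, rfl⟩ := pjline_rep l g ((pjline_mem l g).1 hg)
      refine ⟨fun z => Sym2.lift ⟨t, ht⟩ z.1, Subtype.ext ?_⟩
      have h4 : pjline_t (fun z : {z : Sym2 I // ¬ z.IsDiag} => Sym2.lift ⟨t, ht⟩ z.1) = t := by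
        funext p q
        unfold pjline_t
        split_ifs with h
        · rw [h, ht0]
        · rfl
      change phpw_frm (pjline_f V l) _ = phpw_frm (pjline_f V l) t
      rw [h4]
  rw [← Nat.card_eq_of_bijective Φ hΦ, Nat.card_eq_fintype_card, Fintype.card_fun,
    Sym2.card_subtype_not_diag, Nat.choose_two_right, ZMod.card]

end forms

section moments

open Classical in
/-- The moments of the one-dimensional system. -/
theorem pjline_mom (hPrim : StmtPhPrim.{u}) (hCt : StmtPqCt.{u}) (hRT : StmtPhRT.{u})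
    {F : Type u} [Field F] [Finite F] (hF4 : 4 ≤ Nat.card F) (hF2 : 2 ∣ Nat.card F - 1)
    {χ : F → ZMod 2} (hχ : IsLg 2 χ) (hR : Rcp χ) {V : Type} [Fintype V] {pr : V → F[X]}
    (hpr : Fam pr) (l : ZMod 2) (j : ℕ) (ε : ℝ) (hε : 0 < ε) :
    ∃ n₀ : ℕ, ∀ n : ℕ, n₀ ≤ n → InfW pr (linS V l).σ n →
      |∑ t ∈ gs F pr n, (Eq_ 2 j).eval ((linS V l).sol χ pr t : ℝ) -
        (2 : ℝ) ^ (j * (j - 1) / 2) * ((gs F pr n).card : ℝ)| ≤ ε * (Nat.card F : ℝ) ^ n := by
  have hsym : ∀ v v', syl χ (pr v) (pr v') = syl χ (pr v') (pr v) := by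
    intro v v'
    by_cases h : v = v'
    · rw [h]
    · exact hR _ _ (hpr.monic v) (hpr.irr v) (hpr.monic v') (hpr.irr v')
        fun h' => h (hpr.inj h')
  have hT : HypW χ pr (Sys.pi fun _ : (Σ _ : Unit, Fin j) => linS V l).σ
      (Sys.pi fun _ : (Σ _ : Unit, Fin j) => linS V l).Λ :=
    pqmix_hyp χ pr _ fun _ => linS_hyp χ pr l
  obtain ⟨n₀, hn₀⟩ := hPrim F hF4 hF2 χ hχ hR V pr hpr
    (Sys.pi fun _ : (Σ _ : Unit, Fin j) => linS V l) hT ε hε
  refine ⟨n₀, fun n hn hI => ?_⟩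
  have h5 := hn₀ n hn (pqmix_inf pr _ n fun _ => hI)
  have h6 : ∀ t : Finset F[X],
      ((Sys.pi fun _ : (Σ _ : Unit, Fin j) => linS V l).prim χ pr t : ℝ) =
      (Eq_ 2 j).eval ((linS V l).sol χ pr t : ℝ) := by
    intro t
    have h7 := (hCt F 2 V χ pr Unit (fun _ => linS V l) (linS_fam χ pr l) t).1 (fun _ => j)
    rw [Finset.univ_unique, Finset.prod_singleton, linS_hom] at h7
    rw [pqmix_eval]
    exact h7
  have h10 : Fintype.card (Σ _ : Unit, Fin j) = j := by
    simp
  rw [pjline_card hRT χ pr l hsym, h10, Finset.sum_congr rfl fun t _ => h6 t] at h5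
  push_cast at h5
  exact h5

open Classical in
/-- The distribution for the one-dimensional system. -/
theorem pjline_dis (hPrim : StmtPhPrim.{u}) (hCt : StmtPqCt.{u}) (hRT : StmtPhRT.{u})
    (hMul : StmtPqMul.{u}) (hFun : StmtPqFun)
    {F : Type u} [Field F] [Finite F] (hF4 : 4 ≤ Nat.card F) (hF2 : 2 ∣ Nat.card F - 1)
    {χ : F → ZMod 2} (hχ : IsLg 2 χ) (hR : Rcp χ) {V : Type} [Fintype V] {pr : V → F[X]}
    (hpr : Fam pr) (l : ZMod 2) (r : ℕ) (ε : ℝ) (hε : 0 < ε) :
    ∃ n₀ : ℕ, ∀ n : ℕ, n₀ ≤ n → InfW pr (linS V l).σ n →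
      |(((gs F pr n).filter fun t => (linS V l).sol χ pr t = 2 ^ r).card : ℝ) -
        (∏' i : ℕ, (1 - ((2 : ℝ)⁻¹) ^ (2 * i + 1))) /
          (∏ i ∈ Finset.range r, ((2 : ℝ) ^ (i + 1) - 1)) *
          ((gs F pr n).card : ℝ)| ≤ ε * ((gs F pr n).card : ℝ) + ε * (Nat.card F : ℝ) ^ n := by
  have hQ : (0 : ℝ) < (Nat.card F : ℝ) := by
    have : 0 < Nat.card F := by omega
    exact_mod_cast this
  obtain ⟨n₀, h0⟩ := pjdis_main hMul hFun (Finset F[X]) (gs F pr) (InfW pr (linS V l).σ)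
    (Nat.card F) hQ 2 le_rfl (fun t => ((linS V l).sol χ pr t : ℝ)) (fun t => by
      obtain ⟨s, hs⟩ := (hCt F 2 V χ pr Unit (fun _ => linS V l) (linS_fam χ pr l) t).2 ()
      rw [linS_hom] at hs
      exact ⟨s, by rw [hs]; push_cast; rfl⟩)
    (fun j ε hε => pjline_mom hPrim hCt hRT hF4 hF2 hχ hR hpr l j ε hε) r ε hε
  refine ⟨n₀, fun n hn hI => ?_⟩
  have h1 := h0 n hn hI
  have h5 : ((gs F pr n).filter fun t => ((linS V l).sol χ pr t : ℝ) = 2 ^ r) =
      (gs F pr n).filter fun t => (linS V l).sol χ pr t = 2 ^ r :=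
    Finset.filter_congr fun t _ => by exact_mod_cast Iff.rfl
  rw [h5] at h1
  exact h1

end moments

end MP72e2e6
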