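import Pool.Agent.Lib.MP_72e2e6_nt.Glob

/-!
# MP_72e2e6_nt: the completions of `F(t)`
-/

namespace MP72e2e6

open Polynomial IsDedekindDomain WithZero

section finite

variable {F : Type*} [Field F]

theorem valued_algebraMap_fin (v : HeightOneSpectrum F[X]) (x : RatFunc F) :
    Valued.v (algebraMap (RatFunc F) (v.adicCompletion (RatFunc F)) x) =
      v.valuation (RatFunc F) x := by
  have h : algebraMap (RatFunc F) (v.adicCompletion (RatFunc F)) x =
      (x : v.adicCompletion (RatFunc F)) := by
    rw [HeightOneSpectrum.algebraMap_adicCompletion]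
    rfl
  rw [h]
  exact HeightOneSpectrum.adicCompletion.valued_coe (RatFunc F) v x

theorem nontriv_fin (v : HeightOneSpectrum F[X]) :
    ∃ x : v.adicCompletion (RatFunc F), Valued.v x ≠ 0 ∧ Valued.v x ≠ 1 := by
  obtain ⟨x, hx⟩ := v.valuation_surjective (RatFunc F) (WithZero.exp (-1 : ℤ))
  refine ⟨algebraMap (RatFunc F) _ x, ?_, ?_⟩
  · rw [valued_algebraMap_fin, hx]
    exact WithZero.exp_ne_zero
  · rw [valued_algebraMap_fin, hx]
    intro h
    have h1 := congrArg WithZero.log h
    rw [WithZero.log_exp, WithZero.log_one] at h1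
    omega

end finite

section infinite

variable {F : Type*} [Field F]

attribute [-instance] RatFunc.valuedRatFunc

open Classical in
theorem valued_algebraMap_inf (x : RatFunc F) :
    Valued.v (algebraMap (RatFunc F) (RatFunc.CompletionAtInfty F) x) =
      RatFunc.inftyValuation F x :=
  @Valued.valuedCompletion_apply (RatFunc F) _ _ _ (RatFunc.inftyValued F) x

open Classical in
theorem completeSpace_inf : CompleteSpace (RatFunc.CompletionAtInfty F) := by
  let := (RatFunc.inftyValued F).toUniformSpace
  exact inferInstanceAs (CompleteSpace (UniformSpace.Completion (RatFunc F)))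

open Classical in
theorem denseRange_inf : DenseRange (algebraMap (RatFunc F) (RatFunc.CompletionAtInfty F)) := by
  let := (RatFunc.inftyValued F).toUniformSpace
  exact UniformSpace.Completion.denseRange_coe (α := RatFunc F)

open Classical in
theorem nontriv_inf :
    ∃ x : RatFunc.CompletionAtInfty F, Valued.v x ≠ 0 ∧ Valued.v x ≠ 1 := by
  refine ⟨algebraMap (RatFunc F) _ RatFunc.X, ?_, ?_⟩
  · rw [valued_algebraMap_inf, RatFunc.inftyValuation.X]
    exact WithZero.exp_ne_zero
  · rw [valued_algebraMap_inf, RatFunc.inftyValuation.X]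
    intro h
    have h1 := congrArg WithZero.log h
    rw [WithZero.log_exp, WithZero.log_one] at h1
    omega

open Classical in
theorem exists_const_near (x : RatFunc F) (hx : RatFunc.inftyValuation F x ≤ 1) :
    ∃ α : F, RatFunc.inftyValuation F (x - RatFunc.C α) < 1 := by
  by_cases hx0 : x = 0
  · refine ⟨0, ?_⟩
    rw [hx0, map_zero, sub_zero, map_zero]
    exact zero_lt_one
  have hinj : Function.Injective (algebraMap F[X] (RatFunc F)) :=
    RatFunc.algebraMap_injective F
  have hnum : x.num ≠ 0 := RatFunc.num_ne_zero hx0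
  have hden : x.denom ≠ 0 := RatFunc.denom_ne_zero x
  have hden' : algebraMap F[X] (RatFunc F) x.denom ≠ 0 := by
    rw [Ne, map_eq_zero_iff _ hinj]
    exact hden
  have hval : ∀ p : F[X], p ≠ 0 → RatFunc.inftyValuation F (algebraMap F[X] (RatFunc F) p) =
      WithZero.exp (p.natDegree : ℤ) := fun p hp => RatFunc.inftyValuation.polynomial F hp
  have hxdiv : x = algebraMap F[X] (RatFunc F) x.num / algebraMap F[X] (RatFunc F) x.denom :=
    (RatFunc.num_div_denom x).symm
  have hdeg : x.num.natDegree ≤ x.denom.natDegree := by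
    rw [hxdiv, map_div₀, hval _ hnum, hval _ hden, ← WithZero.exp_sub, ← WithZero.exp_zero,
      WithZero.exp_le_exp] at hx
    omega
  by_cases hlt : x.num.natDegree < x.denom.natDegree
  · refine ⟨0, ?_⟩
    rw [map_zero, sub_zero, hxdiv, map_div₀, hval _ hnum, hval _ hden, ← WithZero.exp_sub,
      ← WithZero.exp_zero, WithZero.exp_lt_exp]
    omega
  have heq : x.num.natDegree = x.denom.natDegree := le_antisymm hdeg (not_lt.1 hlt)
  have hmon : x.denom.Monic := RatFunc.monic_denom x
  set α := x.num.leadingCoeff with hα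
  refine ⟨α, ?_⟩
  have h1 : x - RatFunc.C α = algebraMap F[X] (RatFunc F) (x.num - C α * x.denom) /
      algebraMap F[X] (RatFunc F) x.denom := by
    rw [map_sub, map_mul, RatFunc.algebraMap_C, sub_div, mul_div_cancel_right₀ _ hden', ← hxdiv]
  by_cases h0 : x.num - C α * x.denom = 0
  · rw [h1, h0, map_zero, zero_div, map_zero]
    exact zero_lt_one
  · have hα0 : α ≠ 0 := Polynomial.leadingCoeff_ne_zero.2 hnum
    have h2 : (x.num - C α * x.denom).degree < x.num.degree := by
      refine Polynomial.degree_sub_lt_left ?_ hnum ?_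
      · rw [Polynomial.degree_C_mul hα0, Polynomial.degree_eq_natDegree hnum,
          Polynomial.degree_eq_natDegree hden, heq]
      · rw [Polynomial.leadingCoeff_mul, Polynomial.leadingCoeff_C, hmon.leadingCoeff, mul_one]
    have h3 : (x.num - C α * x.denom).natDegree < x.denom.natDegree := by
      rw [← heq]
      exact Polynomial.natDegree_lt_natDegree h0 h2
    rw [h1, map_div₀, hval _ h0, hval _ hden, ← WithZero.exp_sub, ← WithZero.exp_zero,
      WithZero.exp_lt_exp]
    omega

open Classical in
theorem exists_const_near' (y : RatFunc.CompletionAtInfty F) (hy : Valued.v y ≤ 1) :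
    ∃ α : F, Valued.v (y - algebraMap (RatFunc F) (RatFunc.CompletionAtInfty F)
      (RatFunc.C α)) < 1 := by
  have hopen : IsOpen {z : RatFunc.CompletionAtInfty F | Valued.v (y - z) < 1} := by
    have h1 := Valued.isOpen_ball (RatFunc.CompletionAtInfty F)
      (1 : MonoidWithZeroHom.ValueGroup₀ (.ofClass
        (Valued.v : Valuation (RatFunc.CompletionAtInfty F) (WithZero (Multiplicative ℤ)))))
    have h2 := h1.preimage (continuous_const.sub continuous_id : Continuous
      fun z : RatFunc.CompletionAtInfty F => y - z)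
    convert h2 using 1
    ext z
    simp
  obtain ⟨x, hx⟩ := denseRange_inf.exists_mem_open hopen ⟨y, by simp⟩
  have hx1 : RatFunc.inftyValuation F x ≤ 1 := by
    rw [← valued_algebraMap_inf]
    have h1 : algebraMap (RatFunc F) (RatFunc.CompletionAtInfty F) x =
        y - (y - algebraMap (RatFunc F) (RatFunc.CompletionAtInfty F) x) := by ring
    rw [h1]
    exact (Valuation.map_sub _ _ _).trans (max_le hy (le_of_lt hx))
  obtain ⟨α, hα⟩ := exists_const_near x hx1
  refine ⟨α, ?_⟩
  have h2 : y - algebraMap (RatFunc F) (RatFunc.CompletionAtInfty F) (RatFunc.C α) =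
      (y - algebraMap (RatFunc F) (RatFunc.CompletionAtInfty F) x) +
        algebraMap (RatFunc F) (RatFunc.CompletionAtInfty F) (x - RatFunc.C α) := by
    rw [map_sub]; ring
  rw [h2]
  refine lt_of_le_of_lt (Valuation.map_add _ _ _) (max_lt hx ?_)
  rw [valued_algebraMap_inf]
  exact hα

end infinite

end MP72e2e6
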