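import Pool.Agent.Lib.MP_72e2e6_nt.PpStmtB
import Pool.Agent.Lib.MP_72e2e6_nt.SuEq

/-!
# MP_72e2e6_nt: positive proportion of twists, module PpEq
-/

namespace MP72e2e6

open Polynomial IsDedekindDomain

universe u

open Classical in
theorem tPpEq.{w} (hSuSy : StmtSuSy.{w}) (hSuFac : StmtSuFac.{w}) (hSuTal : StmtSuTal.{w})
    (hPpSel : StmtPpSel.{w}) : StmtPpEq.{w} := by
  intro F _ _ ℓ hℓ hℓ2 hℓd χ hχ m hm a hinj b ι _ pr hpr hP ρ hT hTI d hd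
  obtain ⟨δ, hδ0, hδ2, hδ3, hδ4, c₀, hc₀, hδ5⟩ :=
    hPpSel F ℓ hℓ hℓ2 hℓd χ hχ m hm a hinj b ι pr hpr hP ρ hT hTI d hd
  have : NeZero ℓ := ⟨hℓ.ne_zero⟩
  have hE := sueq_twl_ne (ℓ := ℓ) hpr ρ
  have hB : ¬ ℓ ∣ ∑ k, b k :=
    hTI.ball Finset.univ ⟨0, hm⟩ (Finset.mem_univ _)
      fun i _ k hk => absurd (Finset.mem_univ k) hk
  obtain ⟨-, -, hSy⟩ := hSuSy F ℓ hℓ hℓd χ hχ
  have hvl : ∀ β, sueq_Add (vl ℓ (pr β)) := fun β g h hg hh =>
    ((hSy (pr β) (hpr.monic β) (hpr.irr β)).1 g h hg hh).1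
  have hsy : ∀ β, sueq_Add (syl χ (pr β)) := fun β g h hg hh =>
    ((hSy (pr β) (hpr.monic β) (hpr.irr β)).1 g h hg hh).2
  have hnd : ∀ P : F[X], P.Monic → Irreducible P → ∀ h : F[X], ¬ P ∣ h → vl ℓ P h = 0 :=
    fun P h1 h2 h hh => ((hSy P h1 h2).2.1 h hh).1
  have hvP : ∀ β, vl ℓ (pr β) (pr β) = 1 := fun β =>
    (hSy (pr β) (hpr.monic β) (hpr.irr β)).2.2.1
  have hfac := fun i => hSuFac F ℓ hℓ hℓd χ hχ ι pr hpr (δ i) (hδ0 i)
    fun P h1 h2 h3 => hδ2 P h1 h2 h3 i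
  have hsyδ : ∀ β i, syl χ (pr β) (δ i) = ∑ β', vl ℓ (pr β') (δ i) * syl χ (pr β) (pr β') := by
    intro β i
    rw [(hfac i).1 β, (hδ3 i).2, mul_zero, zero_add]
  have hdiff : ∀ i k, i ≠ k → ∀ β, syl χ (pr β) (a i - a k) =
      (pr β).natDegree * χ (a i - a k).leadingCoeff +
        ∑ β', vl ℓ (pr β') (a i - a k) * syl χ (pr β) (pr β') := by
    intro i k hik β
    exact (hSuFac F ℓ hℓ hℓd χ hχ ι pr hpr (a i - a k)
      (sub_ne_zero.2 fun h' => hik (hinj h')) (fun P h1 h2 h3 => hnd P h1 h2 _ fun h4 => by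
        obtain ⟨β', hβ'⟩ := hP P h1 h2 i k hik h4
        exact h3 β' hβ')).1 β
  have hvE : ∀ β, vl ℓ (pr β) (twl pr ρ) = ρ β := by
    intro β
    rw [sueq_twl (hvl β) hpr ρ, Finset.sum_eq_single β]
    · rw [hvP, mul_one]
    · intro β' _ hβ'
      rw [hnd _ (hpr.monic β) (hpr.irr β) _ (sueq_ndvd hpr hβ'), mul_zero]
    · intro h
      exact absurd (Finset.mem_univ _) h
  choose c hc1 hc2 using hδ4
  have htal := fun β i => hSuTal F ℓ hℓ hℓd χ hχ m (twl pr ρ) hE a hinj b hB (pr β)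
    (hpr.monic β) (hpr.irr β) (c β) (hc1 β) i
  refine ⟨fun β i => vl ℓ (pr β) (δ i), c, ⟨hc1, ?_, ?_, ?_⟩, ?_⟩
  · intro β i
    show vl ℓ (pr β) (δ i) = _
    rw [(hc2 β i).1, (htal β i).2.1, hvE]
  · intro i
    have h1 := (hfac i).2.1
    rw [(hδ3 i).1] at h1
    exact h1.symm
  · intro β i
    show ∑ β', syl χ (pr β) (pr β') * (vl ℓ (pr β') (δ i) -
      sg b (ρ β') (fun i k => vl ℓ (pr β') (a i - a k)) (c β) i) = _
    have h1 := (hc2 β i).2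
    rw [(htal β i).2.2, sueq_twl (hsy β) hpr ρ,
      sueq_sg_congr b _ _ (fun i k => ((pr β).natDegree : ZMod ℓ) * χ (a i - a k).leadingCoeff +
        ∑ β', vl ℓ (pr β') (a i - a k) * syl χ (pr β) (pr β')) (c β) i
        (fun k hk => hdiff i k hk β),
      sueq_sg_expand b ρ (fun β' => syl χ (pr β) (pr β')) ((pr β).natDegree : ZMod ℓ)
        (fun i k => χ (a i - a k).leadingCoeff) (fun β' i k => vl ℓ (pr β') (a i - a k)) (c β) i,
      hsyδ] at h1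
    have h2 : ∑ β', syl χ (pr β) (pr β') * (vl ℓ (pr β') (δ i) -
        sg b (ρ β') (fun i k => vl ℓ (pr β') (a i - a k)) (c β) i) =
        ∑ β', vl ℓ (pr β') (δ i) * syl χ (pr β) (pr β') -
        ∑ β', syl χ (pr β) (pr β') *
          sg b (ρ β') (fun i k => vl ℓ (pr β') (a i - a k)) (c β) i := by
      rw [← Finset.sum_sub_distrib]
      exact Finset.sum_congr rfl fun β' _ => by ring
    rw [h2, h1]
    ring
  · exact ⟨δ, fun i => ⟨hδ0 i, (hδ3 i).2⟩, hδ2, fun β i => rfl, c₀, hc₀, hδ5⟩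

end MP72e2e6
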