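import Pool.Agent.Lib.MP_72e2e6_nt.PpStmtB

/-!
# MP_72e2e6_nt: positive proportion of twists, module PpFM
-/

namespace MP72e2e6

open Polynomial

universe u

open Classical in
theorem tPpFM.{v} (hSuRec : StmtSuRec.{v}) (hPpTS : StmtPpTS) (hPpCol : StmtPpCol.{v})
    (hPpAn : StmtPpAn.{v}) (hPpMT : StmtPpMT.{v}) (hPpFou : StmtPpFou.{v}) : StmtPpFM.{v} := by
  intro F _ _ ℓ hℓ hℓ2 hq χ hχ V W _ _ _ _ pr hpr σ Λ hirr hinj ε hε
  have : Fact ℓ.Prime := ⟨hℓ⟩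
  have : NeZero ℓ := ⟨hℓ.ne_zero⟩
  have hnt : Nontrivial W := hirr.nontriv
  have hrcp : Rcp χ := fun P Q hP hPi hQ hQi hne =>
    hSuRec F ℓ hℓ hℓ2 hq χ hχ P Q hP hPi hQ hQi hne
  let iW : Fintype W := Fintype.ofFinite W
  have hfd : Finite (Module.Dual (ZMod ℓ) W) := DFunLike.finite _
  let iD : Fintype (Module.Dual (ZMod ℓ) W) := Fintype.ofFinite _
  have hN : 2 ≤ Fintype.card W := Fintype.one_lt_card
  have hUnl : Unl (BW : W × Module.Dual (ZMod ℓ) W → W × Module.Dual (ZMod ℓ) W → ZMod ℓ)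
      (Fintype.card W) := by
    refine ⟨fun w => ?_, hN, fun 𝓥 h => ?_⟩
    · simp [BW]
    · have h1 := (hPpTS ℓ W 𝓥 h).1
      rwa [Nat.card_eq_fintype_card] at h1
  -- the number of triples
  set K : ℕ := Fintype.card ((V → W) × (V → Module.Dual (ZMod ℓ) W) × Module.Dual (ZMod ℓ) W)
    with hK
  have hK0 : 0 < K := Fintype.card_pos
  have hε' : 0 < ε / K := div_pos hε (by exact_mod_cast hK0)
  have key := fun x : (V → W) × (V → Module.Dual (ZMod ℓ) W) × Module.Dual (ZMod ℓ) W =>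
    hPpAn F ℓ hℓ hℓ2 hq χ hχ hrcp V (W × Module.Dual (ZMod ℓ) W) pr hpr (alW σ x.1 x.2.1)
      (aiW Λ x.2.2) BW (Fintype.card W) hUnl (ε / K) hε'
  choose N₀ hN₀ using key
  refine ⟨Finset.univ.sup N₀, fun n hn hI => ?_⟩
  have hn' : ∀ x, N₀ x ≤ n := fun x => (Finset.le_sup (Finset.mem_univ x)).trans hn
  set s1 : ℕ := Fintype.card V + 1 with hs1
  set g : ℂ := ((gs F pr n).card : ℂ) with hg
  let θ : (V → W) × (V → Module.Dual (ZMod ℓ) W) × Module.Dual (ZMod ℓ) W → ℂ := fun x =>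
    ZMod.stdAddChar (thW χ pr σ Λ x.1 x.2.1 x.2.2)
  let T : (V → W) × (V → Module.Dual (ZMod ℓ) W) × Module.Dual (ZMod ℓ) W → ℂ := fun x =>
    TT χ pr (alW σ x.1 x.2.1) (aiW Λ x.2.2) BW (Fintype.card W) n
  let M : (V → W) × (V → Module.Dual (ZMod ℓ) W) × Module.Dual (ZMod ℓ) W → ℂ := fun x =>
    ∑ 𝓥 ∈ (Finset.univ : Finset (Finset (W × Module.Dual (ZMod ℓ) W))).filter
        (Adm BW (Fintype.card W) (alW σ x.1 x.2.1) (aiW Λ x.2.2)),
      ((Fintype.card W : ℂ)⁻¹ *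
        ∑ w ∈ 𝓥, ZMod.stdAddChar (aiW Λ x.2.2 w * (n : ZMod ℓ)))
  have hθ : ∀ x, ‖θ x‖ = 1 := fun x => AddChar.norm_apply _ _
  -- the sum over the sets of primes
  have h1 : (∑ t ∈ gs F pr n, (nSol χ pr σ Λ t : ℂ)) * (Fintype.card W : ℂ) ^ s1 =
      ∑ x, θ x * T x := by
    rw [Finset.sum_mul]
    rw [Finset.sum_congr rfl fun t ht => hPpFou F ℓ hℓ hℓ2 hq χ hχ V W pr hpr σ Λ n t ht]
    have h2 : ∀ t : Finset F[X], ∑ c : V → W, ∑ d : V → Module.Dual (ZMod ℓ) W,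
        ∑ η : Module.Dual (ZMod ℓ) W, ZMod.stdAddChar (thW χ pr σ Λ c d η) *
          ∑ g : t → W × Module.Dual (ZMod ℓ) W,
            wgt χ pr (alW σ c d) (aiW Λ η) BW (Fintype.card W) (fib t g) =
        ∑ x : (V → W) × (V → Module.Dual (ZMod ℓ) W) × Module.Dual (ZMod ℓ) W,
          θ x * ∑ g : t → W × Module.Dual (ZMod ℓ) W,
            wgt χ pr (alW σ x.1 x.2.1) (aiW Λ x.2.2) BW (Fintype.card W) (fib t g) := by
      intro t
      rw [Fintype.sum_prod_type]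
      refine Finset.sum_congr rfl fun c _ => ?_
      rw [Fintype.sum_prod_type]
    rw [Finset.sum_congr rfl fun t _ => h2 t, Finset.sum_comm]
    refine Finset.sum_congr rfl fun x _ => ?_
    rw [← Finset.mul_sum]
    congr 1
    exact hPpCol.2 F ℓ χ V (W × Module.Dual (ZMod ℓ) W) pr (alW σ x.1 x.2.1) (aiW Λ x.2.2) BW
      (Fintype.card W) n
  have h2 : ∑ x, θ x * T x = (∑ x, θ x * M x) * g + ∑ x, θ x * (T x - M x * g) := by
    rw [Finset.sum_mul, ← Finset.sum_add_distrib]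
    exact Finset.sum_congr rfl fun x _ => by ring
  have h3 : ‖∑ x, θ x * M x‖ ≤ (Fintype.card W : ℝ) ^ s1 * (1 + Nat.card (Sk σ Λ)) := by
    have h4 := hPpMT F ℓ hℓ2 V W χ pr σ Λ hirr hinj n hI
    have h5 : ∑ c : V → W, ∑ d : V → Module.Dual (ZMod ℓ) W, ∑ η : Module.Dual (ZMod ℓ) W,
      ZMod.stdAddChar (thW χ pr σ Λ c d η) *
        ∑ 𝓥 ∈ (Finset.univ : Finset (Finset (W × Module.Dual (ZMod ℓ) W))).filter
            (Adm BW (Fintype.card W) (alW σ c d) (aiW Λ η)),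
          ((Fintype.card W : ℂ)⁻¹ *
            ∑ w ∈ 𝓥, ZMod.stdAddChar (aiW Λ η w * (n : ZMod ℓ))) = ∑ x, θ x * M x := by
      rw [Fintype.sum_prod_type]
      refine Finset.sum_congr rfl fun c _ => ?_
      rw [Fintype.sum_prod_type]
    rw [h5] at h4
    exact h4
  have h4 : ‖∑ x, θ x * (T x - M x * g)‖ ≤ ε * (Nat.card F : ℝ) ^ n := by
    refine (norm_sum_le _ _).trans ?_
    have h5 : ∀ x, ‖θ x * (T x - M x * g)‖ ≤ ε / K * (Nat.card F : ℝ) ^ n := by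
      intro x
      rw [norm_mul, hθ, one_mul]
      exact hN₀ x n (hn' x)
    refine (Finset.sum_le_sum fun x _ => h5 x).trans (le_of_eq ?_)
    rw [Finset.sum_const, Finset.card_univ, ← hK, nsmul_eq_mul]
    have hK1 : (K : ℝ) ≠ 0 := by exact_mod_cast hK0.ne'
    field_simp
  have h5 : (∑ t ∈ gs F pr n, (nSol χ pr σ Λ t : ℝ)) * (Fintype.card W : ℝ) ^ s1 ≤
      (Fintype.card W : ℝ) ^ s1 * (1 + Nat.card (Sk σ Λ)) * ((gs F pr n).card : ℝ) +
        ε * (Nat.card F : ℝ) ^ n := by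
    have h6 : (∑ t ∈ gs F pr n, (nSol χ pr σ Λ t : ℝ)) * (Fintype.card W : ℝ) ^ s1 =
        ‖(∑ t ∈ gs F pr n, (nSol χ pr σ Λ t : ℂ)) * (Fintype.card W : ℂ) ^ s1‖ := by
      rw [norm_mul, norm_pow, Complex.norm_natCast]
      congr 1
      have h7 : (∑ t ∈ gs F pr n, (nSol χ pr σ Λ t : ℂ)) =
          ((∑ t ∈ gs F pr n, nSol χ pr σ Λ t : ℕ) : ℂ) := by push_cast; rfl
      rw [h7, Complex.norm_natCast]
      push_cast
      rfl
    rw [h6, h1, h2]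
    refine (norm_add_le _ _).trans (add_le_add ?_ h4)
    rw [norm_mul, hg, Complex.norm_natCast]
    exact mul_le_mul_of_nonneg_right h3 (Nat.cast_nonneg _)
  have h6 : (1 : ℝ) ≤ (Fintype.card W : ℝ) ^ s1 := by
    refine one_le_pow₀ ?_
    exact_mod_cast (show 1 ≤ Fintype.card W by omega)
  have h7 : 0 ≤ ε * (Nat.card F : ℝ) ^ n := by positivity
  have h8 : (∑ t ∈ gs F pr n, (nSol χ pr σ Λ t : ℝ)) * (Fintype.card W : ℝ) ^ s1 ≤
      ((1 + Nat.card (Sk σ Λ)) * ((gs F pr n).card : ℝ) + ε * (Nat.card F : ℝ) ^ n) *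
        (Fintype.card W : ℝ) ^ s1 := by
    nlinarith
  exact le_of_mul_le_mul_right h8 (by linarith)

end MP72e2e6
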