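import Pool.Agent.Lib.MP_72e2e6_nt.PpStmtB
import Mathlib.RingTheory.LittleWedderburn

/-!
# MP_72e2e6_nt: positive proportion of twists, the field of self-adjoint operators
-/

set_option autoImplicit false
set_option linter.unusedSectionVars false

namespace MP72e2e6

section

variable {ℓ : ℕ} {V W : Type} [AddCommGroup W] [Module (ZMod ℓ) W]

/-- The commutant of the operators. -/
def ppkf_E (σ : V → Module.End (ZMod ℓ) W) (Λ : Module.End (ZMod ℓ) W) :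
    Subring (Module.End (ZMod ℓ) W) :=
  Subring.centralizer (Set.range σ ∪ {Λ})

theorem ppkf_mem_E {σ : V → Module.End (ZMod ℓ) W} {Λ κ : Module.End (ZMod ℓ) W} :
    κ ∈ ppkf_E σ Λ ↔ (∀ v x, κ (σ v x) = σ v (κ x)) ∧ ∀ x, κ (Λ x) = Λ (κ x) := by
  rw [ppkf_E, Subring.mem_centralizer_iff]
  constructor
  · intro h
    refine ⟨fun v x => ?_, fun x => ?_⟩
    · have h1 := h (σ v) (Or.inl ⟨v, rfl⟩)
      exact (LinearMap.congr_fun h1 x).symm
    · have h1 := h Λ (Or.inr rfl)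
      exact (LinearMap.congr_fun h1 x).symm
  · rintro ⟨h1, h2⟩ g (⟨v, rfl⟩ | rfl)
    · exact LinearMap.ext fun x => (h1 v x).symm
    · exact LinearMap.ext fun x => (h2 x).symm

theorem ppkf_inj {σ : V → Module.End (ZMod ℓ) W} {Λ κ : Module.End (ZMod ℓ) W}
    (hI : IrrW σ Λ) (hκ : κ ∈ ppkf_E σ Λ) (h0 : κ ≠ 0) (x : W) (hx : κ x = 0) : x = 0 := by
  obtain ⟨h1, h2⟩ := ppkf_mem_E.1 hκ
  have h4 : ∀ v, ∀ y ∈ LinearMap.ker κ, σ v y ∈ LinearMap.ker κ := by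
    intro v y hy
    rw [LinearMap.mem_ker] at hy ⊢
    rw [h1, hy, map_zero]
  have h5 : ∀ y ∈ LinearMap.ker κ, Λ y ∈ LinearMap.ker κ := by
    intro y hy
    rw [LinearMap.mem_ker] at hy ⊢
    rw [h2, hy, map_zero]
  rcases hI.irr (LinearMap.ker κ) h4 h5 with h | h
  · have h3 : x ∈ LinearMap.ker κ := hx
    rwa [h, Submodule.mem_bot] at h3
  · exfalso
    apply h0
    exact LinearMap.ker_eq_top.1 h

theorem ppkf_dom {σ : V → Module.End (ZMod ℓ) W} {Λ : Module.End (ZMod ℓ) W}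
    (hI : IrrW σ Λ) (S : Subring (Module.End (ZMod ℓ) W)) (hS : S ≤ ppkf_E σ Λ) :
    IsDomain S := by
  have : Nontrivial W := hI.nontriv
  have : Nontrivial S := by
    refine ⟨⟨0, 1, fun h => ?_⟩⟩
    obtain ⟨x, hx⟩ := exists_ne (0 : W)
    have h1 : (0 : Module.End (ZMod ℓ) W) = 1 := congrArg Subtype.val h
    exact hx (LinearMap.congr_fun h1 x).symm
  have : NoZeroDivisors S := by
    refine ⟨fun {a b} h => ?_⟩
    by_cases ha : a = 0
    · exact Or.inl ha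
    · right
      have ha' : (a : Module.End (ZMod ℓ) W) ≠ 0 := fun h1 => ha (Subtype.ext h1)
      apply Subtype.ext
      apply LinearMap.ext
      intro x
      have h1 : (a : Module.End (ZMod ℓ) W) * (b : Module.End (ZMod ℓ) W) = 0 :=
        congrArg Subtype.val h
      have h2 : (a : Module.End (ZMod ℓ) W) ((b : Module.End (ZMod ℓ) W) x) = 0 :=
        LinearMap.congr_fun h1 x
      exact ppkf_inj hI (hS a.2) ha' _ h2
  exact NoZeroDivisors.to_isDomain S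

/-- The self-adjoint operators in the commutant. -/
def ppkf_K (σ : V → Module.End (ZMod ℓ) W) (Λ : Module.End (ZMod ℓ) W)
    (f : W →ₗ[ZMod ℓ] Module.Dual (ZMod ℓ) W)
    (hc : ∀ a ∈ ppkf_E σ Λ, ∀ b ∈ ppkf_E σ Λ, a * b = b * a) :
    Subring (Module.End (ZMod ℓ) W) where
  carrier := {κ | κ ∈ ppkf_E σ Λ ∧ ∀ x y, f (κ x) y = f x (κ y)}
  mul_mem' := by
    rintro a b ⟨ha, ha'⟩ ⟨hb, hb'⟩
    refine ⟨mul_mem ha hb, fun x y => ?_⟩
    have h1 := hc a ha b hb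
    rw [Module.End.mul_apply, ha', hb', h1, Module.End.mul_apply]
  one_mem' := ⟨one_mem _, fun x y => rfl⟩
  add_mem' := by
    rintro a b ⟨ha, ha'⟩ ⟨hb, hb'⟩
    refine ⟨add_mem ha hb, fun x y => ?_⟩
    rw [LinearMap.add_apply, LinearMap.add_apply, map_add, map_add, LinearMap.add_apply, ha', hb']
  zero_mem' := ⟨zero_mem _, fun x y => by
    rw [LinearMap.zero_apply, LinearMap.zero_apply, map_zero, map_zero, LinearMap.zero_apply]⟩
  neg_mem' := by
    rintro a ⟨ha, ha'⟩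
    refine ⟨neg_mem ha, fun x y => ?_⟩
    rw [LinearMap.neg_apply, LinearMap.neg_apply, map_neg, map_neg, LinearMap.neg_apply, ha']

theorem ppkf_mem_K {σ : V → Module.End (ZMod ℓ) W} {Λ : Module.End (ZMod ℓ) W}
    {f : W →ₗ[ZMod ℓ] Module.Dual (ZMod ℓ) W}
    {hc : ∀ a ∈ ppkf_E σ Λ, ∀ b ∈ ppkf_E σ Λ, a * b = b * a} {κ : Module.End (ZMod ℓ) W} :
    κ ∈ ppkf_K σ Λ f hc ↔ κ ∈ ppkf_E σ Λ ∧ ∀ x y, f (κ x) y = f x (κ y) := Iff.rfl

theorem ppkf_mem_Sk {σ : V → Module.End (ZMod ℓ) W} {Λ : Module.End (ZMod ℓ) W}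
    {g : W →ₗ[ZMod ℓ] Module.Dual (ZMod ℓ) W} :
    g ∈ Sk σ Λ ↔ ∀ x, g x x = 0 ∧ (∀ v, g x (σ v x) = 0) ∧ g x (Λ x) = 0 := Iff.rfl

theorem ppkf_anti {σ : V → Module.End (ZMod ℓ) W} {Λ : Module.End (ZMod ℓ) W}
    {g : W →ₗ[ZMod ℓ] Module.Dual (ZMod ℓ) W} (hg : g ∈ Sk σ Λ) (x y : W) :
    g x y = - g y x := by
  have h := (hg (x + y)).1
  simp only [map_add, LinearMap.add_apply] at h
  rw [(hg x).1, (hg y).1, zero_add, add_zero, add_comm] at h
  exact eq_neg_of_add_eq_zero_left h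

theorem ppkf_adj {σ : V → Module.End (ZMod ℓ) W} {Λ : Module.End (ZMod ℓ) W}
    {g : W →ₗ[ZMod ℓ] Module.Dual (ZMod ℓ) W} (hg : g ∈ Sk σ Λ) (v : V) (x y : W) :
    g (σ v x) y = g x (σ v y) := by
  have h := (hg (x + y)).2.1 v
  simp only [map_add, LinearMap.add_apply] at h
  rw [(hg x).2.1, (hg y).2.1, zero_add, add_zero, add_comm] at h
  rw [ppkf_anti hg (σ v x) y]
  exact (eq_neg_of_add_eq_zero_left h).symm

theorem ppkf_adjL {σ : V → Module.End (ZMod ℓ) W} {Λ : Module.End (ZMod ℓ) W}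
    {g : W →ₗ[ZMod ℓ] Module.Dual (ZMod ℓ) W} (hg : g ∈ Sk σ Λ) (x y : W) :
    g (Λ x) y = g x (Λ y) := by
  have h := (hg (x + y)).2.2
  simp only [map_add, LinearMap.add_apply] at h
  rw [(hg x).2.2, (hg y).2.2, zero_add, add_zero, add_comm] at h
  rw [ppkf_anti hg (Λ x) y]
  exact (eq_neg_of_add_eq_zero_left h).symm

end

theorem ppkf_two {ℓ : ℕ} [Fact ℓ.Prime] (h2 : ℓ ≠ 2) {a : ZMod ℓ} (h : a = -a) : a = 0 := by
  have h3 : (2 : ZMod ℓ) * a = 0 := by linear_combination h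
  rcases mul_eq_zero.1 h3 with h4 | h4
  · exfalso
    have h5 : ((2 : ℕ) : ZMod ℓ) = 0 := by exact_mod_cast h4
    rw [ZMod.natCast_eq_zero_iff] at h5
    exact h2 ((Nat.prime_dvd_prime_iff_eq (Fact.out) Nat.prime_two).1 h5)
  · exact h4

theorem tPpKf : StmtPpKf := by
  intro ℓ _ hℓ V W _ _ _ σ Λ hI hS
  have : Finite (Module.End (ZMod ℓ) W) :=
    Finite.of_injective (fun g : Module.End (ZMod ℓ) W => (g : W → W)) DFunLike.coe_injective
  have hc : ∀ a ∈ ppkf_E σ Λ, ∀ b ∈ ppkf_E σ Λ, a * b = b * a := by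
    intro a ha b hb
    have : IsDomain (ppkf_E σ Λ) := ppkf_dom hI _ le_rfl
    have : Finite (ppkf_E σ Λ) := Subtype.finite
    have h1 := (Finite.isDomain_to_isField (ppkf_E σ Λ)).mul_comm ⟨a, ha⟩ ⟨b, hb⟩
    exact congrArg Subtype.val h1
  obtain ⟨f, hf, hf0⟩ := (Submodule.ne_bot_iff _).1 hS
  have hnd : ∀ x, (∀ y, f x y = 0) → x = 0 := by
    intro x hx
    have hx' : x ∈ LinearMap.ker f := LinearMap.ext hx
    have h4 : ∀ v, ∀ y ∈ LinearMap.ker f, σ v y ∈ LinearMap.ker f := by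
      intro v y hy
      rw [LinearMap.mem_ker] at hy ⊢
      apply LinearMap.ext
      intro z
      rw [ppkf_adj hf, hy]
      rfl
    have h5 : ∀ y ∈ LinearMap.ker f, Λ y ∈ LinearMap.ker f := by
      intro y hy
      rw [LinearMap.mem_ker] at hy ⊢
      apply LinearMap.ext
      intro z
      rw [ppkf_adjL hf, hy]
      rfl
    rcases hI.irr (LinearMap.ker f) h4 h5 with h | h
    · rwa [h, Submodule.mem_bot] at hx'
    · exact absurd (LinearMap.ker_eq_top.1 h) hf0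
  have hinj : Function.Injective f := by
    rw [← LinearMap.ker_eq_bot]
    rw [Submodule.eq_bot_iff]
    intro x hx
    exact hnd x fun y => LinearMap.congr_fun hx y
  have hsur : Function.Surjective f :=
    (LinearMap.injective_iff_surjective_of_finrank_eq_finrank
      (Subspace.dual_finrank_eq (K := ZMod ℓ) (V := W)).symm).1 hinj
  have hdom : IsDomain (ppkf_K σ Λ f hc) := ppkf_dom hI _ fun κ hκ => hκ.1
  have hfin : Finite (ppkf_K σ Λ f hc) := Subtype.finite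
  have hmemS : ∀ κ ∈ ppkf_K σ Λ f hc, f ∘ₗ κ ∈ Sk σ Λ := by
    rintro κ ⟨hκ, hκ'⟩
    obtain ⟨h1, h2⟩ := ppkf_mem_E.1 hκ
    intro x
    refine ⟨?_, fun v => ?_, ?_⟩
    · exact ppkf_two hℓ ((hκ' x x).trans (ppkf_anti hf x (κ x)))
    · apply ppkf_two hℓ
      calc f (κ x) (σ v x) = f x (κ (σ v x)) := hκ' x _
        _ = f (σ v x) (κ x) := by rw [h1, ppkf_adj hf]
        _ = -f (κ x) (σ v x) := ppkf_anti hf _ _
    · apply ppkf_two hℓ
      calc f (κ x) (Λ x) = f x (κ (Λ x)) := hκ' x _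
        _ = f (Λ x) (κ x) := by rw [h2, ppkf_adjL hf]
        _ = -f (κ x) (Λ x) := ppkf_anti hf _ _
  have hbij : Function.Bijective
      (fun κ : ppkf_K σ Λ f hc => (⟨f ∘ₗ κ.1, hmemS κ.1 κ.2⟩ : Sk σ Λ)) := by
    constructor
    · intro κ κ' h
      apply Subtype.ext
      apply LinearMap.ext
      intro x
      apply hinj
      have h1 : f ∘ₗ κ.1 = f ∘ₗ κ'.1 := congrArg Subtype.val h
      exact LinearMap.congr_fun h1 x
    · rintro ⟨g, hg⟩
      have hκ : ∀ x, f ((LinearEquiv.ofBijective f ⟨hinj, hsur⟩).symm (g x)) = g x := fun x =>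
        (LinearEquiv.ofBijective f ⟨hinj, hsur⟩).apply_symm_apply (g x)
      set κ : Module.End (ZMod ℓ) W :=
        ((LinearEquiv.ofBijective f ⟨hinj, hsur⟩).symm : Module.Dual (ZMod ℓ) W →ₗ[ZMod ℓ] W) ∘ₗ g
        with hκd
      have hκ1 : ∀ x, f (κ x) = g x := hκ
      have hE : κ ∈ ppkf_E σ Λ := by
        rw [ppkf_mem_E]
        refine ⟨fun v x => hinj (LinearMap.ext fun y => ?_),
          fun x => hinj (LinearMap.ext fun y => ?_)⟩
        · rw [hκ1, ppkf_adj hg, ppkf_adj hf, hκ1]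
        · rw [hκ1, ppkf_adjL hg, ppkf_adjL hf, hκ1]
      have hK : κ ∈ ppkf_K σ Λ f hc := by
        refine ⟨hE, fun x y => ?_⟩
        rw [hκ1, ppkf_anti hg, ppkf_anti hf x (κ y), hκ1]
      exact ⟨⟨κ, hK⟩, Subtype.ext (LinearMap.ext fun x => hκ1 x)⟩
  refine ⟨ppkf_K σ Λ f hc, (Finite.isDomain_to_isField (ppkf_K σ Λ f hc)).toField, hfin,
    { toFun := fun κ => κ.1
      map_one' := rfl
      map_mul' := fun _ _ => rfl
      map_zero' := rfl
      map_add' := fun _ _ => rfl }, f, Nat.card_congr (Equiv.ofBijective _ hbij), hf, hnd,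
    fun κ v x => (ppkf_mem_E.1 κ.2.1).1 v x, fun κ x => (ppkf_mem_E.1 κ.2.1).2 x,
    fun κ x y => κ.2.2 x y⟩

end MP72e2e6
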