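import Pool.Agent.Lib.MP_72e2e6_nt.PpStmtB

/-!
# MP_72e2e6_nt: positive proportion of twists, module PpMar
-/

namespace MP72e2e6

open Polynomial

universe u

section mar

variable {F : Type u} [Field F] {ℓ : ℕ} {V W : Type} [Fintype V] [AddCommGroup W]
  [Module (ZMod ℓ) W]

theorem ppmar_smul {χ : F → ZMod ℓ} {pr : V → F[X]} {σ : V → Module.End (ZMod ℓ) W}
    {Λ : Module.End (ZMod ℓ) W} {t : Finset F[X]} {c : V → W} {f : t → W}
    (h : SolW χ pr σ Λ t c f) (r : ZMod ℓ) : SolW χ pr σ Λ t (r • c) (r • f) where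
  inf := by
    have h1 := congrArg (fun x => r • x) h.inf
    simp only [smul_add, Finset.smul_sum, smul_zero] at h1
    simp only [Pi.smul_apply, map_smul, smul_comm _ r]
    exact h1
  bad := by
    intro v
    have h1 := congrArg (fun x => r • x) (h.bad v)
    simp only [smul_add, Finset.smul_sum] at h1
    simp only [Pi.smul_apply, ← smul_sub, map_smul, smul_comm _ r]
    exact h1
  good := by
    intro P
    have h1 := congrArg (fun x => r • x) (h.good P)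
    simp only [smul_add, Finset.smul_sum] at h1
    simp only [Pi.smul_apply, ← smul_sub, map_smul, smul_comm _ r]
    exact h1

theorem ppmar_zero (χ : F → ZMod ℓ) (pr : V → F[X]) (σ : V → Module.End (ZMod ℓ) W)
    (Λ : Module.End (ZMod ℓ) W) (t : Finset F[X]) : SolW χ pr σ Λ t 0 0 where
  inf := by simp
  bad := fun v => by simp
  good := fun P => by simp

variable [Finite W]

theorem ppmar_pos (χ : F → ZMod ℓ) (pr : V → F[X]) (σ : V → Module.End (ZMod ℓ) W)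
    (Λ : Module.End (ZMod ℓ) W) (t : Finset F[X]) : 1 ≤ nSol χ pr σ Λ t := by
  unfold nSol
  have : Nonempty {x : (V → W) × (t → W) // SolW χ pr σ Λ t x.1 x.2} :=
    ⟨⟨(0, 0), ppmar_zero χ pr σ Λ t⟩⟩
  exact Nat.card_pos

theorem ppmar_ge [Fact ℓ.Prime] {χ : F → ZMod ℓ} {pr : V → F[X]}
    {σ : V → Module.End (ZMod ℓ) W} {Λ : Module.End (ZMod ℓ) W} {t : Finset F[X]}
    (h : nSol χ pr σ Λ t ≠ 1) : ℓ ≤ nSol χ pr σ Λ t := by
  have hex : ∃ x : (V → W) × (t → W), SolW χ pr σ Λ t x.1 x.2 ∧ x ≠ 0 := by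
    by_contra hno
    push Not at hno
    refine h ?_
    unfold nSol
    rw [Nat.card_eq_one_iff_unique]
    refine ⟨⟨fun x y => Subtype.ext ?_⟩, ⟨⟨(0, 0), ppmar_zero χ pr σ Λ t⟩⟩⟩
    rw [hno _ x.2, hno _ y.2]
  obtain ⟨x, hx, hx0⟩ := hex
  unfold nSol
  have h1 : Nat.card (ZMod ℓ) ≤ Nat.card {x : (V → W) × (t → W) // SolW χ pr σ Λ t x.1 x.2} := by
    refine Nat.card_le_card_of_injective
      (fun r : ZMod ℓ => ⟨r • x, ppmar_smul hx r⟩) ?_
    intro r s hrs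
    have h2 : r • x = s • x := congrArg Subtype.val hrs
    rw [← sub_eq_zero, ← sub_smul, smul_eq_zero] at h2
    rcases h2 with h2 | h2
    · exact sub_eq_zero.1 h2
    · exact absurd h2 hx0
  rwa [Nat.card_zmod] at h1

end mar

open Classical in
theorem tPpMar.{v} (hPpFM : StmtPpFM.{v}) (hPpPar : StmtPpPar.{v}) : StmtPpMar.{v} := by
  intro F _ _ ℓ _ hℓ2 hq χ hχ V W _ _ _ _ pr hpr σ Λ hirr hH ε hε
  have hℓ : ℓ.Prime := Fact.out
  have hℓ3 : 3 ≤ ℓ := lt_of_le_of_ne hℓ.two_le fun h => hℓ2 h.symm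
  have hℓr : (3 : ℝ) ≤ ℓ := by exact_mod_cast hℓ3
  obtain ⟨n₀, h0⟩ := hPpFM F ℓ hℓ hℓ2 hq χ hχ V W pr hpr σ Λ hirr hH.inj ε hε
  refine ⟨n₀, fun n hn hI => ?_⟩
  have h1 := h0 n hn hI
  set G := gs F pr n with hG
  set bad := G.filter fun t => nSol χ pr σ Λ t ≠ 1 with hbad
  have hq0 : 0 ≤ ε * (Nat.card F : ℝ) ^ n := by positivity
  -- the sum over the bad sets
  have key : ∀ k : ℝ, (∀ t ∈ bad, k ≤ (nSol χ pr σ Λ t : ℝ)) →
      (bad.card : ℝ) * (k - 1) + G.card ≤ ∑ t ∈ G, (nSol χ pr σ Λ t : ℝ) := by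
    intro k hk
    have h2 : ∑ t ∈ G, (nSol χ pr σ Λ t : ℝ) = ∑ t ∈ G, ((nSol χ pr σ Λ t : ℝ) - 1) + G.card := by
      rw [Finset.sum_sub_distrib, Finset.sum_const, nsmul_eq_mul, mul_one]
      ring
    rw [h2]
    gcongr
    calc (bad.card : ℝ) * (k - 1) = ∑ t ∈ bad, (k - 1) := by
          rw [Finset.sum_const, nsmul_eq_mul]
      _ ≤ ∑ t ∈ bad, ((nSol χ pr σ Λ t : ℝ) - 1) :=
          Finset.sum_le_sum fun t ht => by linarith [hk t ht]
      _ ≤ ∑ t ∈ G, ((nSol χ pr σ Λ t : ℝ) - 1) := by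
          refine Finset.sum_le_sum_of_subset_of_nonneg (Finset.filter_subset _ _) ?_
          intro t _ _
          have h3 := ppmar_pos χ pr σ Λ t
          have h4 : (1 : ℝ) ≤ (nSol χ pr σ Λ t : ℝ) := by exact_mod_cast h3
          linarith
  have hb0 : (0 : ℝ) ≤ bad.card := Nat.cast_nonneg _
  have hG0 : (0 : ℝ) ≤ G.card := Nat.cast_nonneg _
  have hℓ1 : (0 : ℝ) < (ℓ : ℝ) - 1 := by linarith
  by_cases hSk : Sk σ Λ = ⊥
  · have h2 : (Nat.card (Sk σ Λ) : ℝ) = 1 := by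
      rw [hSk]
      simp
    have h3 := key ℓ fun t ht => by
      exact_mod_cast ppmar_ge (Finset.mem_filter.1 ht).2
    rw [h2] at h1
    have h4 : (bad.card : ℝ) * ((ℓ : ℝ) - 1) ≤ G.card + ε * (Nat.card F : ℝ) ^ n := by linarith
    have h5 : (bad.card : ℝ) ≤ (G.card + ε * (Nat.card F : ℝ) ^ n) / ((ℓ : ℝ) - 1) := by
      rw [le_div_iff₀ hℓ1]
      exact h4
    refine h5.trans ?_
    rw [add_div]
    have h6 : ε * (Nat.card F : ℝ) ^ n / ((ℓ : ℝ) - 1) ≤ ε * (Nat.card F : ℝ) ^ n :=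
      div_le_self hq0 (by linarith)
    linarith
  · set k : ℝ := (Nat.card (Sk σ Λ) : ℝ) with hk
    have hfin : Finite (Sk σ Λ) := by
      have h2 : Finite (Module.Dual (ZMod ℓ) W) := DFunLike.finite _
      have h3 : Finite (W →ₗ[ZMod ℓ] Module.Dual (ZMod ℓ) W) := DFunLike.finite _
      exact Subtype.finite
    have hkℓ : (ℓ : ℝ) ≤ k := by
      have h2 : ∃ x ∈ Sk σ Λ, x ≠ 0 := Submodule.exists_mem_ne_zero_of_ne_bot hSk
      obtain ⟨x, hx, hx0⟩ := h2
      obtain ⟨w, y, hwy⟩ : ∃ w y, x w y ≠ 0 := by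
        by_contra hno
        push Not at hno
        exact hx0 (LinearMap.ext fun w => LinearMap.ext fun y => hno w y)
      have h3 : Nat.card (ZMod ℓ) ≤ Nat.card (Sk σ Λ) := by
        refine Nat.card_le_card_of_injective (fun r : ZMod ℓ => (⟨r • x,
          (Sk σ Λ).smul_mem r hx⟩ : Sk σ Λ)) ?_
        intro r s hrs
        have h2 : r • x = s • x := congrArg Subtype.val hrs
        have h4 : r * x w y = s * x w y := LinearMap.congr_fun (LinearMap.congr_fun h2 w) y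
        exact mul_right_cancel₀ hwy h4
      rw [Nat.card_zmod] at h3
      rw [hk]
      exact_mod_cast h3
    have h3 := key (k ^ 2) fun t ht => by
      rcases hPpPar F ℓ hℓ2 hq χ hχ V W pr hpr σ Λ hirr hH hSk n hI t
        (Finset.mem_filter.1 ht).1 with h4 | h4
      · exact absurd h4 (Finset.mem_filter.1 ht).2
      · rw [hk]
        exact_mod_cast h4
    have hk3 : 3 ≤ k := hℓr.trans hkℓ
    have h4 : (bad.card : ℝ) * (k ^ 2 - 1) ≤ k * G.card + ε * (Nat.card F : ℝ) ^ n := by linarith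
    have hpos : 0 < k ^ 2 - 1 := by nlinarith
    have h5 : (bad.card : ℝ) ≤ (k * G.card + ε * (Nat.card F : ℝ) ^ n) / (k ^ 2 - 1) := by
      rw [le_div_iff₀ hpos]
      exact h4
    refine h5.trans ?_
    rw [add_div]
    have h6 : ε * (Nat.card F : ℝ) ^ n / (k ^ 2 - 1) ≤ ε * (Nat.card F : ℝ) ^ n :=
      div_le_self hq0 (by nlinarith)
    have h7 : k * G.card / (k ^ 2 - 1) ≤ G.card / ((ℓ : ℝ) - 1) := by
      rw [div_le_div_iff₀ hpos hℓ1]
      have h8 : k * ((ℓ : ℝ) - 1) ≤ k ^ 2 - 1 := by nlinarith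
      nlinarith
    linarith

end MP72e2e6
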