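import Pool.Agent.Lib.MP_72e2e6_nt.PpStmtB

/-!
# MP_72e2e6_nt: positive proportion of twists, module PpPar
-/

namespace MP72e2e6

open Polynomial

universe u

theorem pppar_mem_gs {F : Type u} [Field F] [Finite F] {V : Type} {pr : V → F[X]} {n : ℕ}
    {t : Finset F[X]} : t ∈ gs F pr n ↔ t ∈ ps F n ∧ ∀ P ∈ t, ∀ v, pr v ≠ P := by
  simp [gs]

theorem tPpPar.{v} (hSuSy : StmtSuSy.{v}) (hSuRec : StmtSuRec.{v}) (hPpKf : StmtPpKf)
    (hPpFrm : StmtPpFrm.{v}) : StmtPpPar.{v} := by
  intro F _ _ ℓ _ hℓ2 hq χ hχ V W _ _ _ _ pr hpr σ Λ hirr hH hSk n hI t ht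
  have hℓ : ℓ.Prime := Fact.out
  obtain ⟨ht1, htp⟩ := pppar_mem_gs.1 ht
  obtain ⟨htm, htd⟩ := mem_ps.1 ht1
  obtain ⟨K, _, _, ρ, f, hcard, hf, hfn, hρσ, hρΛ, hρf⟩ := hPpKf ℓ hℓ2 V W σ Λ hirr hSk
  let pr' : V ⊕ t → F[X] := Sum.elim pr (fun P => P.1)
  let σ' : V ⊕ t → Module.End (ZMod ℓ) W := Sum.elim σ (fun _ => 1)
  have hm : ∀ β, (pr' β).Monic := by
    rintro (v | P)
    · exact hpr.monic v
    · exact (htm P.1 P.2).1
  have hi : ∀ β, Irreducible (pr' β) := by
    rintro (v | P)
    · exact hpr.irr v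
    · exact (htm P.1 P.2).2
  have hsym : ∀ β β', syl χ (pr' β) (pr' β') = syl χ (pr' β') (pr' β) := by
    intro β β'
    by_cases h : pr' β = pr' β'
    · rw [h]
    · exact hSuRec F ℓ hℓ hℓ2 hq χ hχ _ _ (hm β) (hi β) (hm β') (hi β') h
  obtain ⟨a, ha⟩ := hPpFrm ℓ hℓ2 K (V ⊕ t) W ρ f hfn (fun x => (hf x).1) hρf σ' Λ
    (by
      rintro (v | P) x
      · exact (hf x).2.1 v
      · exact (hf x).1) (fun x => (hf x).2.2)
    (by
      rintro κ (v | P) x
      · exact hρσ κ v x
      · rfl) hρΛ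
    (by
      rintro (v | P) y hy
      · exact hH.inj v y hy
      · exact hy)
    (fun β β' => syl χ (pr' β) (pr' β')) hsym (fun β => ((pr' β).natDegree : ZMod ℓ))
    (by
      rintro (v | P) y
      · have h1 := hH.com v y
        rw [map_add, map_sum] at h1
        simp only [Fintype.sum_sum_type]
        simp only [pr', σ', Sum.elim_inl, Sum.elim_inr, Module.End.one_apply, map_add, map_sum,
          map_smul] at h1 ⊢
        rw [add_right_comm, h1]
        abel
      · rfl)
    (by
      intro y hy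
      refine hI y ?_
      rw [Fintype.sum_sum_type] at hy
      simp only [pr', σ', Sum.elim_inl, Sum.elim_inr, Module.End.one_apply] at hy
      rw [← Finset.sum_smul] at hy
      rw [← hy, ← htd]
      congr 2
      rw [Nat.cast_sum, ← Finset.sum_coe_sort t (fun P => ((P.natDegree : ℕ) : ZMod ℓ))])
  have hN : nSol χ pr σ Λ t = Nat.card K ^ (2 * a) := by
    rw [← ha, nSol]
    refine Nat.card_congr (Equiv.subtypeEquiv (Equiv.sumArrowEquivProdArrow V t W).symm ?_)
    rintro ⟨c, g⟩
    have e1 : ∀ v, (Equiv.sumArrowEquivProdArrow V t W).symm (c, g) (Sum.inl v) = c v :=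
      fun v => rfl
    have e2 : ∀ P, (Equiv.sumArrowEquivProdArrow V t W).symm (c, g) (Sum.inr P) = g P :=
      fun P => rfl
    constructor
    · intro h
      refine ⟨?_, ?_⟩
      · rw [Fintype.sum_sum_type]
        simp only [e1, e2]
        exact h.inf
      · rintro (v | P)
        · rw [Fintype.sum_sum_type]
          simp only [e1, e2]
          exact h.bad v
        · rw [Fintype.sum_sum_type]
          simp only [e1, e2]
          exact h.good P
    · rintro ⟨h1, h2⟩
      refine ⟨?_, fun v => ?_, fun P => ?_⟩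
      · rw [Fintype.sum_sum_type] at h1
        simp only [e1, e2] at h1
        exact h1
      · have h3 := h2 (Sum.inl v)
        rw [Fintype.sum_sum_type] at h3
        simp only [e1, e2] at h3
        exact h3
      · have h3 := h2 (Sum.inr P)
        rw [Fintype.sum_sum_type] at h3
        simp only [e1, e2] at h3
        exact h3
  rw [hN, ← hcard]
  rcases Nat.eq_zero_or_pos a with h0 | h0
  · left
    rw [h0, mul_zero, pow_zero]
  · right
    exact Nat.pow_le_pow_right Nat.card_pos (by omega)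

end MP72e2e6
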