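import Pool.Agent.Lib.MP_72e2e6_nt.PpStmt

/-!
# MP_72e2e6_nt, package Pp: inverse zeros of a polynomial from power sums
-/

set_option autoImplicit false

namespace MP72e2e6

open Polynomial

theorem pproot_factor (d : ℕ) : ∀ p : ℂ[X], p.natDegree = d → p.coeff 0 = 1 →
    ∃ α : Fin d → ℂ, p = ∏ i, (1 - C (α i) * X) := by
  induction d with
  | zero =>
    intro p hd h0
    refine ⟨Fin.elim0, ?_⟩
    rw [Polynomial.eq_C_of_natDegree_eq_zero hd, h0]
    simp
  | succ d ih =>
    intro p hd h0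
    have hdeg : p.degree ≠ 0 := by
      intro h
      have h1 := Polynomial.natDegree_eq_zero_iff_degree_le_zero.mpr h.le
      omega
    obtain ⟨u, hu⟩ := IsAlgClosed.exists_root p hdeg
    have hu0 : u ≠ 0 := by
      rintro rfl
      rw [Polynomial.IsRoot, ← Polynomial.coeff_zero_eq_eval_zero, h0] at hu
      exact one_ne_zero hu
    obtain ⟨r, hr⟩ := Polynomial.dvd_iff_isRoot.mpr hu
    have hp : p = (1 - C u⁻¹ * X) * (C (-u) * r) := by
      have h1 : C u⁻¹ * C u = (1 : ℂ[X]) := by rw [← C_mul, inv_mul_cancel₀ hu0, C_1]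
      rw [hr, map_neg]
      linear_combination (-(X * r)) * h1
    have hr0 : r ≠ 0 := by
      rintro rfl
      rw [mul_zero] at hr
      rw [hr] at h0
      simp at h0
    have hd1 : (C (-u) * r).natDegree = d := by
      rw [Polynomial.natDegree_C_mul (neg_ne_zero.mpr hu0)]
      have h1 : p.natDegree = (X - C u).natDegree + r.natDegree := by
        rw [hr]
        exact Polynomial.natDegree_mul (Polynomial.X_sub_C_ne_zero u) hr0
      rw [Polynomial.natDegree_X_sub_C, hd] at h1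
      omega
    have hc1 : (C (-u) * r).coeff 0 = 1 := by
      rw [hp, Polynomial.mul_coeff_zero] at h0
      simpa using h0
    obtain ⟨α, hα⟩ := ih _ hd1 hc1
    refine ⟨Fin.cons u⁻¹ α, ?_⟩
    rw [Fin.prod_univ_succ]
    simp only [Fin.cons_zero, Fin.cons_succ]
    rw [← hα]
    exact hp

/-- The power series of the negative power sums. -/
noncomputable def pproot_Psi {e : ℕ} (α : Fin e → ℂ) : PowerSeries ℂ :=
  PowerSeries.mk fun k => if k = 0 then 0 else -∑ i, α i ^ k

theorem pproot_geom (a : ℂ) : (PowerSeries.mk fun k => if k = 0 then 0 else a ^ k) *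
    (1 - PowerSeries.C a * PowerSeries.X) = PowerSeries.C a * PowerSeries.X := by
  rw [mul_sub, mul_one, sub_eq_iff_eq_add]
  ext n
  rcases n with _ | n
  · simp
  · rw [map_add, mul_left_comm, PowerSeries.coeff_C_mul, PowerSeries.coeff_C_mul,
      PowerSeries.coeff_succ_mul_X, PowerSeries.coeff_mk, PowerSeries.coeff_mk,
      PowerSeries.coeff_X]
    rcases n with _ | n
    · simp
    · simp [pow_succ']

theorem pproot_log (e : ℕ) : ∀ α : Fin e → ℂ,
    PowerSeries.X * PowerSeries.derivative ℂ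
      ((∏ i, (1 - C (α i) * X) : ℂ[X]) : PowerSeries ℂ) =
    pproot_Psi α * ((∏ i, (1 - C (α i) * X) : ℂ[X]) : PowerSeries ℂ) := by
  induction e with
  | zero =>
    intro α
    ext n
    simp [pproot_Psi]
  | succ e ih =>
    intro α
    rw [Fin.prod_univ_succ, Polynomial.coe_mul]
    set p : PowerSeries ℂ := ((∏ i : Fin e, (1 - C (α i.succ) * X) : ℂ[X]) : PowerSeries ℂ)
      with hp
    have h1 : ((1 - C (α 0) * X : ℂ[X]) : PowerSeries ℂ) =
        1 - PowerSeries.C (α 0) * PowerSeries.X := by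
      simp
    have h2 : pproot_Psi α = pproot_Psi (fun i => α i.succ) -
        PowerSeries.mk fun k => if k = 0 then 0 else α 0 ^ k := by
      ext k
      simp only [pproot_Psi, PowerSeries.coeff_mk, map_sub]
      split_ifs
      · simp
      · rw [Fin.sum_univ_succ]
        ring
    have h3 := ih fun i => α i.succ
    rw [← hp] at h3
    have h4 := pproot_geom (α 0)
    rw [h1, h2, Derivation.leibniz, smul_eq_mul, smul_eq_mul, map_sub, Derivation.leibniz]
    have h5 : PowerSeries.derivative ℂ (PowerSeries.C (α 0)) = 0 := by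
      exact PowerSeries.derivative_C
    have h6 : PowerSeries.derivative ℂ (PowerSeries.X : PowerSeries ℂ) = 1 := by
      exact PowerSeries.derivative_X
    have h7 : PowerSeries.derivative ℂ (1 : PowerSeries ℂ) = 0 := Derivation.map_one_eq_zero _
    rw [h5, h6, h7, smul_zero, add_zero, smul_eq_mul, mul_one]
    linear_combination (1 - PowerSeries.C (α 0) * PowerSeries.X) * h3 + p * h4

theorem pproot_rec {e : ℕ} (α : Fin e → ℂ) (n : ℕ) :
    (n : ℂ) * (∏ i, (1 - C (α i) * X) : ℂ[X]).coeff n =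
      ∑ k ∈ Finset.Icc 1 n, (-∑ i, α i ^ k) *
        (∏ i, (1 - C (α i) * X) : ℂ[X]).coeff (n - k) := by
  have h := congrArg (PowerSeries.coeff n) (pproot_log e α)
  set P : ℂ[X] := ∏ i, (1 - C (α i) * X)
  have h1 : PowerSeries.coeff n (PowerSeries.X * PowerSeries.derivative ℂ (P : PowerSeries ℂ)) =
      (n : ℂ) * P.coeff n := by
    rcases n with _ | n
    · simp
    · rw [PowerSeries.coeff_succ_X_mul, PowerSeries.coeff_derivative, Polynomial.coeff_coe]
      push_cast
      ring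
  rw [h1, PowerSeries.coeff_mul, Finset.Nat.sum_antidiagonal_eq_sum_range_succ_mk] at h
  rw [h]
  symm
  have hsub : Finset.Icc 1 n ⊆ Finset.range n.succ := by
    intro k hk
    rw [Finset.mem_Icc] at hk
    rw [Finset.mem_range]
    omega
  rw [← Finset.sum_subset hsub]
  · refine Finset.sum_congr rfl fun k hk => ?_
    rw [Finset.mem_Icc] at hk
    simp only [pproot_Psi, PowerSeries.coeff_mk, Polynomial.coeff_coe]
    rw [if_neg (by omega)]
  · intro k hk hk'
    rw [Finset.mem_Icc] at hk'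
    rw [Finset.mem_range] at hk
    have hk0 : k = 0 := by omega
    simp only [pproot_Psi, PowerSeries.coeff_mk]
    rw [if_pos hk0, zero_mul]

theorem pproot_unique {L ψ ψ' : ℕ → ℂ} (h0 : L 0 = 1)
    (h : ∀ n : ℕ, (n : ℂ) * L n = ∑ k ∈ Finset.Icc 1 n, ψ k * L (n - k))
    (h' : ∀ n : ℕ, (n : ℂ) * L n = ∑ k ∈ Finset.Icc 1 n, ψ' k * L (n - k)) :
    ∀ k, 1 ≤ k → ψ k = ψ' k := by
  intro k
  induction k using Nat.strong_induction_on with
  | _ k ih =>
    intro hk
    obtain ⟨m, rfl⟩ : ∃ m, k = m + 1 := ⟨k - 1, by omega⟩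
    have h1 := (h (m + 1)).symm.trans (h' (m + 1))
    rw [Finset.sum_Icc_succ_top (by omega), Finset.sum_Icc_succ_top (by omega)] at h1
    have h2 : ∑ k ∈ Finset.Icc 1 m, ψ k * L (m + 1 - k) =
        ∑ k ∈ Finset.Icc 1 m, ψ' k * L (m + 1 - k) := by
      refine Finset.sum_congr rfl fun j hj => ?_
      rw [Finset.mem_Icc] at hj
      rw [ih j (by omega) hj.1]
    rw [h2, Nat.sub_self, h0, mul_one, mul_one] at h1
    exact add_left_cancel h1

theorem pproot_pow (z : ℂ) (hz : ‖z‖ ≤ 1) : ∃ M : ℝ, ∀ K : ℕ,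
    ‖∑ k ∈ Finset.Icc 1 K, z ^ k - (if z = 1 then (K : ℂ) else 0)‖ ≤ M := by
  by_cases h : z = 1
  · refine ⟨0, fun K => ?_⟩
    subst h
    simp
  · refine ⟨2 / ‖z - 1‖, fun K => ?_⟩
    rw [if_neg h, sub_zero]
    have h0 : ∑ k ∈ Finset.Icc 1 K, z ^ k = z * ∑ k ∈ Finset.range K, z ^ k := by
      induction K with
      | zero => simp
      | succ K ih =>
        rw [Finset.sum_Icc_succ_top (by omega), ih, Finset.sum_range_succ, mul_add, pow_succ']
    rw [h0, geom_sum_eq h, norm_mul, norm_div]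
    have h1 : ‖z ^ K - 1‖ ≤ 2 := by
      refine (norm_sub_le _ _).trans ?_
      rw [norm_pow, norm_one]
      have := pow_le_one₀ (norm_nonneg z) hz (n := K)
      linarith
    have h2 : 0 < ‖z - 1‖ := norm_pos_iff.mpr (sub_ne_zero.mpr h)
    calc ‖z‖ * (‖z ^ K - 1‖ / ‖z - 1‖) ≤ 1 * (2 / ‖z - 1‖) := by gcongr
      _ = _ := one_mul _

theorem pproot_bound {e : ℕ} (α : Fin e → ℂ) {q : ℝ} (hq : 0 < q)
    (h : ∀ k, 1 ≤ k → ‖∑ i, α i ^ k‖ ≤ q ^ k) (i : Fin e) : ‖α i‖ ≤ q := by
  by_contra hlt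
  push Not at hlt
  have : Nonempty (Fin e) := ⟨i⟩
  obtain ⟨i₀, hi₀⟩ := Finite.exists_max (fun i => ‖α i‖)
  have hρ : q < ‖α i₀‖ := hlt.trans_le (hi₀ i)
  have hρ0 : 0 < ‖α i₀‖ := hq.trans hρ
  have ha0 : α i₀ ≠ 0 := norm_pos_iff.mp hρ0
  have hz : ∀ i, ‖α i / α i₀‖ ≤ 1 := by
    intro i
    rw [norm_div]
    exact div_le_one_of_le₀ (hi₀ i) (norm_nonneg _)
  choose M hM using fun i => pproot_pow (α i / α i₀) (hz i)
  have hr1 : q / ‖α i₀‖ < 1 := by rwa [div_lt_one hρ0]
  have hL : ∀ K : ℕ, ‖∑ k ∈ Finset.Icc 1 K, ∑ i, (α i / α i₀) ^ k‖ ≤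
      (1 - q / ‖α i₀‖)⁻¹ := by
    intro K
    refine (norm_sum_le _ _).trans ?_
    have h1 : ∀ k ∈ Finset.Icc 1 K, ‖∑ i, (α i / α i₀) ^ k‖ ≤ (q / ‖α i₀‖) ^ k := by
      intro k hk
      have h2 : ∑ i, (α i / α i₀) ^ k = (∑ i, α i ^ k) / α i₀ ^ k := by
        rw [Finset.sum_div]
        exact Finset.sum_congr rfl fun i _ => div_pow _ _ _
      rw [h2, norm_div, norm_pow, div_pow]
      gcongr
      exact h k (Finset.mem_Icc.mp hk).1
    refine (Finset.sum_le_sum h1).trans ?_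
    have hs := summable_geometric_of_lt_one (r := q / ‖α i₀‖) (by positivity) hr1
    have h3 := hs.sum_le_tsum (Finset.Icc 1 K) (fun k _ => by positivity)
    rwa [tsum_geometric_of_lt_one (by positivity) hr1] at h3
  obtain ⟨K, hK⟩ := exists_nat_gt (∑ i, M i + (1 - q / ‖α i₀‖)⁻¹)
  have h2 : ‖∑ i, (if α i / α i₀ = 1 then (K : ℂ) else 0)‖ ≤
      ∑ i, M i + (1 - q / ‖α i₀‖)⁻¹ := by
    have h3 : ∑ i, (if α i / α i₀ = 1 then (K : ℂ) else 0) =
        ∑ k ∈ Finset.Icc 1 K, ∑ i, (α i / α i₀) ^ k -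
          ∑ i, (∑ k ∈ Finset.Icc 1 K, (α i / α i₀) ^ k -
            (if α i / α i₀ = 1 then (K : ℂ) else 0)) := by
      rw [Finset.sum_sub_distrib, Finset.sum_comm]
      ring
    rw [h3]
    refine (norm_sub_le _ _).trans ?_
    rw [add_comm]
    exact add_le_add ((norm_sum_le _ _).trans (Finset.sum_le_sum fun i _ => hM i K)) (hL K)
  have h4 : (K : ℝ) ≤ ‖∑ i, (if α i / α i₀ = 1 then (K : ℂ) else 0)‖ := by
    rw [← Finset.sum_filter, Finset.sum_const, nsmul_eq_mul, norm_mul]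
    have h5 : 1 ≤ (Finset.univ.filter fun i => α i / α i₀ = 1).card := by
      rw [Nat.one_le_iff_ne_zero, Finset.card_ne_zero]
      exact ⟨i₀, Finset.mem_filter.mpr ⟨Finset.mem_univ _, div_self ha0⟩⟩
    rw [Complex.norm_natCast, Complex.norm_natCast]
    have h6 : (1 : ℝ) ≤ ((Finset.univ.filter fun i => α i / α i₀ = 1).card : ℝ) := by
      exact_mod_cast h5
    nlinarith [(Nat.cast_nonneg K : (0 : ℝ) ≤ K)]
  linarith

theorem tPpRoot : StmtPpRoot := by
  intro q hq L ψ D h0 hD hrec hb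
  have hD1 : 1 ≤ D := by
    by_contra h
    have h1 := hD 0 (by omega)
    rw [h0] at h1
    exact one_ne_zero h1
  obtain ⟨p, hp⟩ : ∃ p : ℂ[X], ∀ n, p.coeff n = L n := by
    refine ⟨∑ n ∈ Finset.range D, C (L n) * X ^ n, fun n => ?_⟩
    simp only [finsetSum_coeff, coeff_C_mul, coeff_X_pow]
    by_cases hn : n < D
    · rw [Finset.sum_eq_single n]
      · simp
      · intro m _ hm
        rw [if_neg hm.symm, mul_zero]
      · intro h
        exact absurd (Finset.mem_range.mpr hn) h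
    · rw [hD n (by omega)]
      refine Finset.sum_eq_zero fun m hm => ?_
      rw [Finset.mem_range] at hm
      rw [if_neg (by omega), mul_zero]
  have hdeg : p.natDegree + 1 ≤ D := by
    have h1 : p.natDegree ≤ D - 1 := Polynomial.natDegree_le_iff_coeff_eq_zero.mpr
      (fun n hn => by rw [hp]; exact hD n (by omega))
    omega
  obtain ⟨α, hα⟩ := pproot_factor p.natDegree p rfl (by rw [hp, h0])
  have hpsi : ∀ k, 1 ≤ k → ψ k = -∑ i, α i ^ k := by
    refine pproot_unique h0 hrec ?_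
    intro n
    have h1 := pproot_rec α n
    rw [← hα] at h1
    simpa only [hp] using h1
  refine ⟨p.natDegree, α, hdeg, fun i => pproot_bound α hq ?_ i, hpsi⟩
  intro k hk
  have h1 := hb k hk
  rwa [hpsi k hk, norm_neg] at h1

end MP72e2e6
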