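import Pool.Agent.Lib.MP_72e2e6_nt.PpCv
import Pool.Agent.Lib.MP_72e2e6_nt.PpSA
import Pool.Agent.Lib.MP_72e2e6_nt.PpNum

/-!
# MP_72e2e6_nt: a small factor at one place (PpSB)
-/

namespace MP72e2e6

theorem ppsb_pt {s : ℝ} (hs0 : 0 < s) {m i : ℕ} (him : i < m) :
    (((m - (i + 1) : ℕ) : ℝ) + 1) ^ (-s) / ((i + 1 : ℕ) : ℝ) ≤
      ((m : ℝ) / 2) ^ (-s) * (((i + 1 : ℕ) : ℝ)⁻¹) +
        2 / m * (((m - 1 - i : ℕ) : ℝ) + 1) ^ (-s) := by
  have hm0 : (0 : ℝ) < m := by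
    have : 0 < m := by omega
    exact_mod_cast this
  have hi0 : (0 : ℝ) < ((i + 1 : ℕ) : ℝ) := by exact_mod_cast Nat.succ_pos i
  have e1 : m - (i + 1) = m - 1 - i := by omega
  have hk : 0 ≤ (((m - 1 - i : ℕ) : ℝ) + 1) ^ (-s) := Real.rpow_nonneg (by positivity) _
  rw [e1]
  by_cases h : 2 * (i + 1) ≤ m
  · have h1 : (m : ℝ) / 2 ≤ ((m - 1 - i : ℕ) : ℝ) + 1 := by
      have h2 : m ≤ 2 * (m - 1 - i + 1) := by omega
      have h3 : (m : ℝ) ≤ 2 * (((m - 1 - i : ℕ) : ℝ) + 1) := by exact_mod_cast h2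
      linarith
    have h4 : (((m - 1 - i : ℕ) : ℝ) + 1) ^ (-s) ≤ ((m : ℝ) / 2) ^ (-s) :=
      Real.rpow_le_rpow_of_nonpos (by linarith) h1 (by linarith)
    have h5 : 0 ≤ 2 / (m : ℝ) * (((m - 1 - i : ℕ) : ℝ) + 1) ^ (-s) := by positivity
    rw [div_eq_mul_inv]
    have h6 := mul_le_mul_of_nonneg_right h4 (inv_nonneg.mpr hi0.le)
    linarith
  · have h1 : (((i + 1 : ℕ) : ℝ))⁻¹ ≤ 2 / m := by
      rw [inv_eq_one_div, div_le_div_iff₀ hi0 hm0]
      have h2 : m ≤ 2 * (i + 1) := by omega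
      have h3 : (m : ℝ) ≤ 2 * ((i + 1 : ℕ) : ℝ) := by exact_mod_cast h2
      linarith
    have h5 : 0 ≤ ((m : ℝ) / 2) ^ (-s) * (((i + 1 : ℕ) : ℝ)⁻¹) := by positivity
    rw [div_eq_mul_inv]
    have h6 := mul_le_mul_of_nonneg_left h1 hk
    linarith

theorem ppsb_sum {s : ℝ} (hs0 : 0 < s) (hs1 : s ≤ 1 / 2) {m : ℕ} (hm : 1 ≤ m) (b : ℕ → ℝ)
    (hb : ∀ k : ℕ, b k ≤ ((k : ℝ) + 1) ^ (-s)) :
    ∑ x ∈ Finset.HasAntidiagonal.antidiagonal m, b x.2 / (x.1 : ℝ) ≤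
      ((m : ℝ) / 2) ^ (-s) * (5 + Real.log m) := by
  have hm0 : (0 : ℝ) < m := by exact_mod_cast hm
  have h1 : ∑ x ∈ Finset.HasAntidiagonal.antidiagonal m, b x.2 / (x.1 : ℝ) =
      ∑ i ∈ Finset.range m, b (m - (i + 1)) / ((i + 1 : ℕ) : ℝ) := by
    rw [Finset.Nat.sum_antidiagonal_eq_sum_range_succ (fun i j => b j / (i : ℝ)) m,
      Finset.sum_range_succ']
    simp
  have h2 : ∀ i ∈ Finset.range m, b (m - (i + 1)) / ((i + 1 : ℕ) : ℝ) ≤
      ((m : ℝ) / 2) ^ (-s) * (((i + 1 : ℕ) : ℝ)⁻¹) +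
        2 / m * (((m - 1 - i : ℕ) : ℝ) + 1) ^ (-s) := by
    intro i hi
    have hi0 : (0 : ℝ) ≤ ((i + 1 : ℕ) : ℝ) := Nat.cast_nonneg _
    exact le_trans (div_le_div_of_nonneg_right (hb _) hi0) (ppsb_pt hs0 (Finset.mem_range.mp hi))
  rw [h1]
  refine le_trans (Finset.sum_le_sum h2) ?_
  rw [Finset.sum_add_distrib, ← Finset.mul_sum, ← Finset.mul_sum,
    Finset.sum_range_reflect (fun i : ℕ => ((i : ℝ) + 1) ^ (-s)) m]
  have h3 : ∑ i ∈ Finset.range m, (((i + 1 : ℕ) : ℝ)⁻¹) ≤ 1 + Real.log m := by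
    have h4 := harmonic_le_one_add_log m
    rw [harmonic] at h4
    push_cast at h4 ⊢
    exact h4
  have h5 : (1 - s) * ∑ i ∈ Finset.range m, ((i : ℝ) + 1) ^ (-s) ≤
      (m : ℝ) * ((m : ℝ) + 1) ^ (-s) := by
    have h6 := ppnum_sum (z := 1 - s) (by linarith) (by linarith) m
    have h7 : (1 - s) - 1 = -s := by ring
    rw [h7] at h6
    exact h6
  have hS : 0 ≤ ∑ i ∈ Finset.range m, ((i : ℝ) + 1) ^ (-s) :=
    Finset.sum_nonneg fun i _ => Real.rpow_nonneg (by positivity) _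
  have h8 : ∑ i ∈ Finset.range m, ((i : ℝ) + 1) ^ (-s) ≤ 2 * ((m : ℝ) * ((m : ℝ) + 1) ^ (-s)) := by
    nlinarith
  have h9 : ((m : ℝ) + 1) ^ (-s) ≤ ((m : ℝ) / 2) ^ (-s) :=
    Real.rpow_le_rpow_of_nonpos (by positivity) (by linarith) (by linarith)
  have hX : 0 ≤ ((m : ℝ) / 2) ^ (-s) := Real.rpow_nonneg (by positivity) _
  have h10 : 2 / (m : ℝ) * ∑ i ∈ Finset.range m, ((i : ℝ) + 1) ^ (-s) ≤
      4 * ((m : ℝ) / 2) ^ (-s) := by
    calc 2 / (m : ℝ) * ∑ i ∈ Finset.range m, ((i : ℝ) + 1) ^ (-s)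
        ≤ 2 / (m : ℝ) * (2 * ((m : ℝ) * ((m : ℝ) + 1) ^ (-s))) :=
          mul_le_mul_of_nonneg_left h8 (by positivity)
      _ = 4 * ((m : ℝ) + 1) ^ (-s) := by
          field_simp
          ring
      _ ≤ 4 * ((m : ℝ) / 2) ^ (-s) := mul_le_mul_of_nonneg_left h9 (by norm_num)
  have h11 := mul_le_mul_of_nonneg_left h3 hX
  calc ((m : ℝ) / 2) ^ (-s) * ∑ i ∈ Finset.range m, (((i + 1 : ℕ) : ℝ)⁻¹) +
        2 / (m : ℝ) * ∑ i ∈ Finset.range m, ((i : ℝ) + 1) ^ (-s)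
      ≤ ((m : ℝ) / 2) ^ (-s) * (1 + Real.log m) + 4 * ((m : ℝ) / 2) ^ (-s) :=
        add_le_add h11 h10
    _ = ((m : ℝ) / 2) ^ (-s) * (5 + Real.log m) := by ring

theorem tPpSB (hNum : StmtPpNum) (hCv : StmtPpCv) : StmtPpSB := by
  classical
  intro U _ _ N hN a ha τ n hn hτ hτn 𝓥 w₀ hw₀ hcard
  have ha1 := ppsa_one hNum hN ha
  have hN0 : (2 : ℝ) ≤ N := by exact_mod_cast hN
  have hn0 : (1 : ℝ) ≤ n := by exact_mod_cast hn
  have hs0 : (0 : ℝ) < 1 / N := by positivity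
  have hs1 : (1 / N : ℝ) ≤ 1 / 2 := one_div_le_one_div_of_le (by norm_num) hN0
  set A := (Finset.univ.piAntidiag n).filter (fun ν : U → ℕ => ∀ w, (τ ≤ ν w ↔ w ∈ 𝓥)) with hA
  have hmaps : ∀ ν ∈ A, (fun w => min (ν w) τ) ∈
      Fintype.piFinset (fun _ : U => Finset.range (τ + 1)) := by
    intro ν _
    rw [Fintype.mem_piFinset]
    intro w
    rw [Finset.mem_range]
    have := Nat.min_le_right (ν w) τ
    omega
  rw [← Finset.sum_fiberwise_of_maps_to hmaps]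
  have hlogn : 0 ≤ Real.log n := Real.log_nonneg hn0
  have hcls : ∀ κ ∈ Fintype.piFinset (fun _ : U => Finset.range (τ + 1)),
      ∑ ν ∈ A.filter (fun ν => (fun w => min (ν w) τ) = κ),
        (∏ w ∈ Finset.univ.erase w₀, a (ν w)) / (ν w₀ : ℝ) ≤
        ((n : ℝ) / 4) ^ (-(1 / N : ℝ)) * (6 + Real.log n) := by
    intro κ hκ
    rw [Fintype.mem_piFinset] at hκ
    have hκ' : ∀ w, κ w ≤ τ := fun w => Nat.lt_succ_iff.mp (Finset.mem_range.mp (hκ w))
    rcases (A.filter (fun ν => (fun w => min (ν w) τ) = κ)).eq_empty_or_nonempty with he | hne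
    · rw [he, Finset.sum_empty]
      exact mul_nonneg (Real.rpow_nonneg (by positivity) _) (by linarith)
    · obtain ⟨ν₀, hν₀⟩ := hne
      rw [Finset.mem_filter, hA, Finset.mem_filter] at hν₀
      have hV : (Finset.univ.filter fun w => κ w = τ) = 𝓥 := by
        ext w
        simp only [Finset.mem_filter, Finset.mem_univ, true_and]
        have h2 : min (ν₀ w) τ = κ w := congrFun hν₀.2 w
        rw [← hν₀.1.2 w]
        omega
      have h1 := ppsa_cls τ n κ (A.filter (fun ν => (fun w => min (ν w) τ) = κ))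
        (by
          intro ν hν
          rw [Finset.mem_filter, hA, Finset.mem_filter, Finset.mem_piAntidiag] at hν
          exact ⟨hν.1.1.1, fun w => congrFun hν.2 w⟩)
        (fun ν => (∏ w ∈ Finset.univ.erase w₀, a (ν w)) / (ν w₀ : ℝ))
        (fun μ => (∏ w ∈ 𝓥.erase w₀, a (μ w)) / (μ w₀ : ℝ))
        (fun μ => div_nonneg (Finset.prod_nonneg fun w _ => ha.nonneg _) (Nat.cast_nonneg _))
        (by
          intro ν _
          have hk : ∀ w ∈ 𝓥, κ w = τ := by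
            intro w hw
            rw [← hV, Finset.mem_filter] at hw
            exact hw.2
          have h2 : ∏ w ∈ 𝓥.erase w₀, a (if κ w = τ then ν w else 0) =
              ∏ w ∈ 𝓥.erase w₀, a (ν w) :=
            Finset.prod_congr rfl fun w hw => by
              rw [if_pos (hk w (Finset.mem_of_mem_erase hw))]
          have h3 : ((if κ w₀ = τ then ν w₀ else 0 : ℕ) : ℝ) = (ν w₀ : ℝ) := by
            rw [if_pos (hk w₀ hw₀)]
          rw [h2, h3]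
          apply div_le_div_of_nonneg_right _ (Nat.cast_nonneg _)
          rw [← Finset.prod_sdiff (Finset.erase_subset_erase w₀ (Finset.subset_univ 𝓥))]
          apply mul_le_of_le_one_left (Finset.prod_nonneg fun w _ => ha.nonneg _)
          exact Finset.prod_le_one (fun w _ => ha.nonneg _) (fun w _ => ha1 _))
      refine le_trans h1 ?_
      set m := n - ∑ w ∈ Finset.univ.filter (fun w => ¬ κ w = τ), κ w with hm
      have hm2 : n ≤ 2 * m := ppsa_small hκ' hτn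
      have hmn : m ≤ n := Nat.sub_le _ _
      have hm1 : 1 ≤ m := by omega
      rw [hV]
      have hnot : w₀ ∉ 𝓥.erase w₀ := Finset.notMem_erase w₀ 𝓥
      have hcons : 𝓥 = Finset.cons w₀ (𝓥.erase w₀) hnot := by
        rw [Finset.cons_eq_insert, Finset.insert_erase hw₀]
      have h4 : ∑ μ ∈ 𝓥.piAntidiag m, (∏ w ∈ 𝓥.erase w₀, a (μ w)) / (μ w₀ : ℝ) =
          ∑ x ∈ Finset.HasAntidiagonal.antidiagonal m,
            (fun k => ∑ ν ∈ (𝓥.erase w₀).piAntidiag k, ∏ w ∈ 𝓥.erase w₀, a (ν w)) x.2 /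
              (x.1 : ℝ) := by
        have h5 := ppcv_split hnot m (fun μ => (∏ w ∈ 𝓥.erase w₀, a (μ w)) / (μ w₀ : ℝ))
        rw [← hcons] at h5
        rw [h5]
        refine Finset.sum_congr rfl fun x _ => ?_
        rw [Finset.sum_div]
        refine Finset.sum_congr rfl fun μ hμ => ?_
        obtain ⟨e1, e2⟩ := ppcv_at (x := x.1) hnot hμ
        have e3 : ((μ w₀ + if w₀ = w₀ then x.1 else 0 : ℕ) : ℝ) = (x.1 : ℝ) := by rw [e1]
        have e4 : ∏ w ∈ 𝓥.erase w₀, a (μ w + if w = w₀ then x.1 else 0) =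
            ∏ w ∈ 𝓥.erase w₀, a (μ w) :=
          Finset.prod_congr rfl fun w hw => by rw [e2 w hw]
        exact congrArg₂ (fun u v => u / v) e4 e3
      rw [h4]
      have h2 := hCv U (𝓥.erase w₀) (1 / N : ℝ) (by positivity) a ha
      obtain ⟨-, -, h3⟩ := hNum
      have hc : (((𝓥.erase w₀).card : ℕ) : ℝ) * (1 / N : ℝ) = 1 - 1 / N := by
        rw [Finset.card_erase_of_mem hw₀, hcard, Nat.cast_sub (by omega)]
        push_cast
        field_simp
      rw [hc] at h2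
      have hb : ∀ k : ℕ, (fun k => ∑ ν ∈ (𝓥.erase w₀).piAntidiag k,
          ∏ w ∈ 𝓥.erase w₀, a (ν w)) k ≤ ((k : ℝ) + 1) ^ (-(1 / N : ℝ)) := by
        intro k
        have h5 := h3 (1 - 1 / N : ℝ) _ (by linarith) (by linarith) h2 k
        have h6 : (1 - 1 / N : ℝ) - 1 = -(1 / N : ℝ) := by ring
        rw [h6] at h5
        exact h5
      refine le_trans (ppsb_sum hs0 hs1 hm1 _ hb) ?_
      have hm3 : (n : ℝ) / 4 ≤ (m : ℝ) / 2 := by
        have : (n : ℝ) ≤ 2 * m := by exact_mod_cast hm2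
        linarith
      have h7 : ((m : ℝ) / 2) ^ (-(1 / N : ℝ)) ≤ ((n : ℝ) / 4) ^ (-(1 / N : ℝ)) :=
        Real.rpow_le_rpow_of_nonpos (by positivity) hm3 (by linarith)
      have hmR : (1 : ℝ) ≤ m := by exact_mod_cast hm1
      have h8 : Real.log m ≤ Real.log n :=
        Real.log_le_log (by linarith) (by exact_mod_cast hmn)
      have h9 : 0 ≤ Real.log m := Real.log_nonneg hmR
      exact mul_le_mul h7 (by linarith) (by linarith) (Real.rpow_nonneg (by positivity) _)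
  refine le_trans (Finset.sum_le_card_nsmul _ _ _ hcls) ?_
  rw [Fintype.card_piFinset, nsmul_eq_mul, Finset.prod_const, Finset.card_univ,
    Finset.card_range]
  push_cast
  exact le_rfl

end MP72e2e6
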