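import Pool.Agent.Lib.MP_72e2e6_nt.PpStmtB
import Pool.Agent.Lib.MP_72e2e6_nt.SuSel

/-!
# MP_72e2e6_nt: positive proportion of twists, module PpSel
-/

namespace MP72e2e6

open Polynomial IsDedekindDomain WithZero

universe u

/-- **PpSel.** -/
theorem tPpSel (hSy : StmtSuSy.{u}) (hTal : StmtSuTal.{u}) (hLocF : StmtSuLocF.{u})
    (hLocI : StmtSuLocI.{u}) (hPwF : StmtSuPwF.{u}) (hPwI : StmtSuPwI.{u})
    (hTor : StmtSuTor.{u}) : StmtPpSel.{u} := by
  classical
  intro F _ _ ℓ hl hl2 hdvd χ hχ m hm a hainj b ι _ pr hpr hcov ρ htame htameI d hd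
  have hne : NeZero ℓ := ⟨hl.ne_zero⟩
  have hE0 : twl pr ρ ≠ 0 := susel_twl_ne hpr
  have hEdvd : ∀ P : F[X], P.Monic → Irreducible P → P ∣ twl pr ρ → ∃ b, pr b = P :=
    fun P hP hPi h => susel_dvd_twl hpr hP hPi h
  have hmul : ∀ β, Tame ℓ b (wP (pr β) a) (multiplicity (pr β) (twl pr ρ) : ℤ) := by
    intro β
    rw [susel_mult hpr β]
    exact htame β
  generalize twl pr ρ = E at hE0 hEdvd hmul htameI hd ⊢
  have hb : ¬ ℓ ∣ ∑ k, b k :=
    htameI.ball Finset.univ ⟨0, hm⟩ (Finset.mem_univ _)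
      (fun i _ k hk => absurd (Finset.mem_univ k) hk)
  have hbi : ∀ i, ¬ ℓ ∣ b i := by
    intro i
    have h := htameI.ball {i} i (Finset.mem_singleton_self i)
      (fun j hj k _ hji => absurd (Finset.mem_singleton.1 hj) hji)
    rwa [Finset.sum_singleton] at h
  obtain ⟨-, -, hsyP⟩ := hSy F ℓ hl hdvd χ hχ
  obtain ⟨-, hd'⟩ := Subgroup.mem_inf.1 hd
  obtain ⟨hdfin, hdinf⟩ := Subgroup.mem_inf.1 hd'
  have hdv : ∀ v : HeightOneSpectrum F[X], baseChange (v.adicCompletion (RatFunc F)) d ∈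
      localImage ℓ (pts E a) b (v.adicCompletion (RatFunc F)) :=
    fun v => (Subgroup.mem_iInf.1 hdfin) v
  -- the torsion class at infinity
  obtain ⟨t, ht, z, hz⟩ := hLocI F ℓ hl hl2 hdvd m hm E hE0 a hainj b htameI _ hdinf
  obtain ⟨c₀, hc₀, hc₀'⟩ := (hTor F ℓ hl hl2 m E hE0 a hainj b hb).1 t ht
  choose z' hz' using hc₀'
  have hAinj := twsel_inj F
  have hND0 : ∀ i, (d i : RatFunc F).num * (d i : RatFunc F).denom ^ (ℓ - 1) ≠ 0 := fun i =>
    mul_ne_zero (RatFunc.num_ne_zero (d i).ne_zero) (pow_ne_zero _ (RatFunc.denom_ne_zero _))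
  have hD0 : ∀ i, algebraMap F[X] (RatFunc F) (d i : RatFunc F).denom ≠ 0 := by
    intro i
    rw [Ne, map_eq_zero_iff _ hAinj]
    exact RatFunc.denom_ne_zero _
  have htal0 : ∀ (c : Fin m → ZMod ℓ) i, tal b E a c i ≠ 0 := fun c i =>
    susel_tal_ne b hE0 hainj c i
  choose s hs using fun (c : Fin m → ZMod ℓ) (i : Fin m) => susel_tal_neg b E a c i
  -- the polynomials
  have hδ0 : ∀ i, (d i : RatFunc F).num * (d i : RatFunc F).denom ^ (ℓ - 1) *
      tal b E a (-c₀) i ≠ 0 := fun i => mul_ne_zero (hND0 i) (htal0 _ i)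
  have hneg : ∀ c : Fin m → ZMod ℓ, ∑ i, (b i : ZMod ℓ) * c i = 0 →
      ∑ i, (b i : ZMod ℓ) * (-c) i = 0 := by
    intro c hc
    simp only [Pi.neg_apply, mul_neg, Finset.sum_neg_distrib, hc, neg_zero]
  refine ⟨fun i => (d i : RatFunc F).num * (d i : RatFunc F).denom ^ (ℓ - 1) *
    tal b E a (-c₀) i, hδ0, ?_, ?_, ?_, ?_⟩
  · -- primes outside of the family
    intro P hP hPi hPb i
    obtain ⟨hadd, hnd, -, -, -⟩ := hsyP P hP hPi
    have hPE : ¬ P ∣ E := fun h => by
      obtain ⟨b, hb⟩ := hEdvd P hP hPi h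
      exact hPb b hb
    have hPa : ∀ i j, i ≠ j → ¬ P ∣ a i - a j := fun i j hij h => by
      obtain ⟨b, hb⟩ := hcov P hP hPi i j hij h
      exact hPb b hb
    obtain ⟨v, hv⟩ := twsel_place hPi
    have h1 := susel_good hl hb hPi hv hPE hPa (hdv v) i (hbi i)
    have h2 : ∑ k, (b k : ZMod ℓ) * vl ℓ P (a i - a k) * ((-c₀) i - (-c₀) k) = 0 := by
      refine Finset.sum_eq_zero fun k _ => ?_
      by_cases hik : i = k
      · rw [hik, sub_self ((-c₀) k), mul_zero]
      · rw [(hnd _ (hPa i k hik)).1, mul_zero, zero_mul]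
    rw [(hadd _ _ (hND0 i) (htal0 _ i)).1, h1, zero_add,
      (hTal F ℓ hl hdvd χ hχ m E hE0 a hainj b hb P hP hPi (-c₀) (hneg c₀ hc₀) i).2.1, sg,
      (hnd E hPE).1, h2, zero_mul, zero_add, mul_zero]
  · -- infinity
    intro i
    refine hPwI F ℓ hl χ hχ _ (hδ0 i)
      (algebraMap (RatFunc F) (RatFunc.inftyValuation F).Completion
        (algebraMap F[X] (RatFunc F) (s c₀ i)) *
      algebraMap (RatFunc F) (RatFunc.inftyValuation F).Completion (z' i) *
      (z i : (RatFunc.inftyValuation F).Completion) *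
      algebraMap (RatFunc F) (RatFunc.inftyValuation F).Completion
        (algebraMap F[X] (RatFunc F) (d i : RatFunc F).denom)) ?_
    have h1 : algebraMap (RatFunc F) (RatFunc.inftyValuation F).Completion (d i : RatFunc F) =
        algebraMap (RatFunc F) (RatFunc.inftyValuation F).Completion (t i : RatFunc F) *
          (z i : (RatFunc.inftyValuation F).Completion) ^ ℓ := by
      have h2 := congrArg Units.val (congrFun hz i)
      exact h2
    have h2 : algebraMap F[X] (RatFunc F) (tal b E a c₀ i) *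
        algebraMap F[X] (RatFunc F) (tal b E a (-c₀) i) =
        algebraMap F[X] (RatFunc F) (s c₀ i) ^ ℓ := by
      rw [← map_mul, hs, map_pow]
    have h3 := congrArg (algebraMap (RatFunc F) (RatFunc.inftyValuation F).Completion) h2
    rw [map_mul, map_pow] at h3
    rw [map_mul, susel_num hl.pos, map_mul, map_mul, h1, hz' i, map_mul, map_pow, map_pow,
      mul_pow, mul_pow, mul_pow, ← h3]
    ring
  · -- primes of the family
    intro β
    obtain ⟨hadd, hnd, -, -, -⟩ := hsyP (pr β) (hpr.monic β) (hpr.irr β)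
    obtain ⟨v, hv⟩ := twsel_place (hpr.irr β)
    obtain ⟨t₁, ht₁, w, hw⟩ := hLocF F ℓ hl hl2 hdvd m hm E hE0 a hainj b v (pr β)
      (hpr.monic β) (hpr.irr β) hv (hmul β) _ (hdv v)
    obtain ⟨c₁, hc₁, hc₁'⟩ := (hTor F ℓ hl hl2 m E hE0 a hainj b hb).1 t₁ ht₁
    choose w' hw' using hc₁'
    refine ⟨c₁ + -c₀, ?_, fun i => ?_⟩
    · have h4 := hneg c₀ hc₀
      simp only [Pi.add_apply, mul_add, Finset.sum_add_distrib]
      rw [hc₁, h4, add_zero]
    have h1 : algebraMap (RatFunc F) (v.adicCompletion (RatFunc F)) (d i : RatFunc F) =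
        algebraMap (RatFunc F) (v.adicCompletion (RatFunc F)) (t₁ i : RatFunc F) *
          (w i : v.adicCompletion (RatFunc F)) ^ ℓ := by
      have h2 := congrArg Units.val (congrFun hw i)
      exact h2
    have h2 : algebraMap F[X] (RatFunc F) (tal b E a c₁ i) *
        algebraMap F[X] (RatFunc F) (tal b E a (-c₁) i) =
        algebraMap F[X] (RatFunc F) (s c₁ i) ^ ℓ := by
      rw [← map_mul, hs, map_pow]
    have h2' := congrArg (algebraMap (RatFunc F) (v.adicCompletion (RatFunc F))) h2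
    rw [map_mul, map_pow] at h2'
    have h3 := hPwF F ℓ hl hdvd χ hχ v (pr β) (hpr.monic β) (hpr.irr β) hv
      ((d i : RatFunc F).num * (d i : RatFunc F).denom ^ (ℓ - 1) * tal b E a (-c₁) i)
      (mul_ne_zero (hND0 i) (htal0 _ i))
      (algebraMap (RatFunc F) (v.adicCompletion (RatFunc F))
        (algebraMap F[X] (RatFunc F) (s c₁ i)) *
        algebraMap (RatFunc F) (v.adicCompletion (RatFunc F)) (w' i) *
        (w i : v.adicCompletion (RatFunc F)) *
        algebraMap (RatFunc F) (v.adicCompletion (RatFunc F))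
          (algebraMap F[X] (RatFunc F) (d i : RatFunc F).denom)) (by
        rw [map_mul, susel_num hl.pos, map_mul, map_mul, h1, hw' i, map_mul, map_pow, map_pow,
          mul_pow, mul_pow, mul_pow, ← h2']
        ring)
    have key : ∀ f : F[X] → ZMod ℓ, (∀ g h : F[X], g ≠ 0 → h ≠ 0 → f (g * h) = f g + f h) →
        f ((d i : RatFunc F).num * (d i : RatFunc F).denom ^ (ℓ - 1) *
          tal b E a (-c₁) i) = 0 →
        f ((d i : RatFunc F).num * (d i : RatFunc F).denom ^ (ℓ - 1) * tal b E a (-c₀) i) =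
          f (tal b E a (c₁ + -c₀) i) := by
      intro f hf h0
      rw [hf _ _ (hND0 i) (htal0 _ i), susel_f_neg hf b hE0 hainj] at h0
      rw [hf _ _ (hND0 i) (htal0 _ i), susel_f_add hf b hE0 hainj]
      linear_combination h0
    exact ⟨key _ (fun g h hg hh => (hadd g h hg hh).1) h3.1,
      key _ (fun g h hg hh => (hadd g h hg hh).2) h3.2⟩
  · -- the class
    refine ⟨c₀, hc₀, fun i => ?_⟩
    have h3 := hD0 i
    have h4 : algebraMap F[X] (RatFunc F) (tal b E a c₀ i) *
        algebraMap F[X] (RatFunc F) (tal b E a (-c₀) i) =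
        algebraMap F[X] (RatFunc F) (s c₀ i) ^ ℓ := by
      rw [← map_mul, hs, map_pow]
    have h5 : s c₀ i ≠ 0 := by
      intro h6
      have h7 := hs c₀ i
      rw [h6, zero_pow hl.ne_zero] at h7
      exact mul_ne_zero (htal0 _ i) (htal0 _ i) h7
    have h6 : algebraMap F[X] (RatFunc F) (s c₀ i) ≠ 0 := by
      rw [Ne, map_eq_zero_iff _ hAinj]
      exact h5
    refine ⟨(algebraMap F[X] (RatFunc F) (s c₀ i) *
      algebraMap F[X] (RatFunc F) (d i : RatFunc F).denom)⁻¹, ?_⟩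
    have h7 : ((algebraMap F[X] (RatFunc F) (s c₀ i) *
      algebraMap F[X] (RatFunc F) (d i : RatFunc F).denom)) ≠ 0 := mul_ne_zero h6 h3
    have h8 : algebraMap F[X] (RatFunc F) (((d i : RatFunc F).num *
        (d i : RatFunc F).denom ^ (ℓ - 1) * tal b E a (-c₀) i) * tal b E a c₀ i) =
        (d i : RatFunc F) * (algebraMap F[X] (RatFunc F) (s c₀ i) *
          algebraMap F[X] (RatFunc F) (d i : RatFunc F).denom) ^ ℓ := by
      rw [map_mul, map_mul, susel_num hl.pos, mul_pow, ← h4]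
      ring
    rw [h8, inv_pow, mul_assoc, mul_inv_cancel₀ (pow_ne_zero _ h7), mul_one]

end MP72e2e6
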