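import Pool.Agent.Lib.MP_72e2e6_nt.PpStmt

/-!
# MP_72e2e6_nt: the zero-free region (PpZer)
-/

namespace MP72e2e6

open Polynomial

universe u

theorem ppzer_trig {z : ℂ} (hz : z = 0 ∨ ‖z‖ = 1) : 0 ≤ 3 + 4 * z.re + (z ^ 2).re := by
  rcases hz with rfl | hz
  · norm_num
  · have h1 : (z ^ 2).re = z.re ^ 2 - z.im ^ 2 := by
      rw [pow_two, Complex.mul_re]
      ring
    have h2 : z.re ^ 2 + z.im ^ 2 = 1 := by
      have h3 := Complex.sq_norm z
      rw [hz, Complex.normSq_apply] at h3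
      nlinarith
    rw [h1]
    nlinarith [sq_nonneg (1 + z.re)]

theorem ppzer_ineq {F : Type u} [Field F] [Finite F]
    (h2 : ∀ k, 1 ≤ k → psiC (fun _ : F[X] => (1 : ℂ)) k = (Nat.card F : ℂ) ^ k) {ℓ : ℕ}
    (hℓ : ℓ ≠ 0) {φ : F[X] → ℂ} (hφ : IsChL ℓ φ) {ω : ℂ} (hω : ‖ω‖ = 1) {k : ℕ} (hk : 1 ≤ k) :
    0 ≤ 3 * (Nat.card F : ℝ) ^ k + 4 * (ω ^ k * psiC φ k).re +
      (ω ^ (2 * k) * psiC (fun h => φ h ^ 2) k).re := by
  have hT : 3 * psiC (fun _ : F[X] => (1 : ℂ)) k + 4 * (ω ^ k * psiC φ k) +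
      ω ^ (2 * k) * psiC (fun h => φ h ^ 2) k = ∑ d ∈ k.divisors, ∑ P ∈ irr F d,
        (d : ℂ) * (3 + 4 * (ω ^ k * φ P ^ (k / d)) + (ω ^ k * φ P ^ (k / d)) ^ 2) := by
    unfold psiC
    simp only [Finset.mul_sum]
    rw [← Finset.sum_add_distrib, ← Finset.sum_add_distrib]
    refine Finset.sum_congr rfl fun d _ => ?_
    rw [← Finset.sum_add_distrib, ← Finset.sum_add_distrib]
    refine Finset.sum_congr rfl fun P _ => ?_
    rw [one_pow, mul_pow, ← pow_mul, ← pow_mul, ← pow_mul, mul_comm k 2, mul_comm (k / d) 2]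
    ring
  have hL : 3 * (Nat.card F : ℝ) ^ k + 4 * (ω ^ k * psiC φ k).re +
      (ω ^ (2 * k) * psiC (fun h => φ h ^ 2) k).re =
      (3 * psiC (fun _ : F[X] => (1 : ℂ)) k + 4 * (ω ^ k * psiC φ k) +
      ω ^ (2 * k) * psiC (fun h => φ h ^ 2) k).re := by
    rw [h2 k hk, Complex.add_re, Complex.add_re]
    have e1 : (3 * (Nat.card F : ℂ) ^ k) = ((3 * (Nat.card F : ℝ) ^ k : ℝ) : ℂ) := by
      push_cast
      ring
    have e2 : (4 * (ω ^ k * psiC φ k)).re = 4 * (ω ^ k * psiC φ k).re := by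
      have : (4 : ℂ) = ((4 : ℝ) : ℂ) := by norm_num
      rw [this, Complex.re_ofReal_mul]
    rw [e1, Complex.ofReal_re, e2]
  rw [hL, hT, Complex.re_sum]
  refine Finset.sum_nonneg fun d hd => ?_
  rw [Complex.re_sum]
  refine Finset.sum_nonneg fun P _ => ?_
  have hz : ω ^ k * φ P ^ (k / d) = 0 ∨ ‖ω ^ k * φ P ^ (k / d)‖ = 1 := by
    rcases hφ.val P with h0 | h1
    · left
      have hdk : 0 < k / d := Nat.div_pos (Nat.divisor_le hd) (Nat.pos_of_mem_divisors hd)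
      rw [h0, zero_pow (by omega), mul_zero]
    · right
      have h3 : ‖φ P‖ = 1 := by
        have h4 : ‖φ P‖ ^ ℓ = 1 := by rw [← norm_pow, h1, norm_one]
        exact (pow_eq_one_iff_of_nonneg (norm_nonneg _) hℓ).mp h4
      rw [norm_mul, norm_pow, norm_pow, hω, h3, one_pow, one_pow, one_mul]
  have h5 := ppzer_trig hz
  have h6 : (3 + 4 * (ω ^ k * φ P ^ (k / d)) + (ω ^ k * φ P ^ (k / d)) ^ 2).re =
      3 + 4 * (ω ^ k * φ P ^ (k / d)).re + ((ω ^ k * φ P ^ (k / d)) ^ 2).re := by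
    rw [Complex.add_re, Complex.add_re]
    have e1 : (3 : ℂ).re = 3 := by norm_num
    have e2 : (4 * (ω ^ k * φ P ^ (k / d))).re = 4 * (ω ^ k * φ P ^ (k / d)).re := by
      have : (4 : ℂ) = ((4 : ℝ) : ℂ) := by norm_num
      rw [this, Complex.re_ofReal_mul]
    rw [e1, e2]
  have h7 : ((d : ℂ) * (3 + 4 * (ω ^ k * φ P ^ (k / d)) + (ω ^ k * φ P ^ (k / d)) ^ 2)).re =
      (d : ℝ) * (3 + 4 * (ω ^ k * φ P ^ (k / d)) + (ω ^ k * φ P ^ (k / d)) ^ 2).re := by
    rw [← Complex.ofReal_natCast, Complex.re_ofReal_mul]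
  rw [h7, h6]
  exact mul_nonneg (Nat.cast_nonneg _) h5

theorem ppzer_geom {z : ℂ} (hz : ‖z‖ < 1) :
    HasSum (fun n : ℕ => (z ^ (n + 1)).re) ((z / (1 - z)).re) := by
  have h := (hasSum_geometric_of_norm_lt_one hz).mul_left z
  have h2 : HasSum (fun n : ℕ => z ^ (n + 1)) (z / (1 - z)) := by
    rw [div_eq_mul_inv]
    refine h.congr_fun ?_
    intro n
    rw [pow_succ']
  exact Complex.reCLM.hasSum h2

theorem ppzer_half {z : ℂ} (hz : ‖z‖ < 1) : -(1 / 2) ≤ (z / (1 - z)).re := by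
  have hne : 1 - z ≠ 0 := by
    intro h
    have h1 : z = 1 := (sub_eq_zero.mp h).symm
    rw [h1, norm_one] at hz
    exact lt_irrefl _ hz
  have hB : 0 < Complex.normSq (1 - z) := Complex.normSq_pos.mpr hne
  have h3 : z.re ^ 2 + z.im ^ 2 < 1 := by
    have h4 := Complex.sq_norm z
    rw [Complex.normSq_apply] at h4
    have h5 : ‖z‖ ^ 2 < 1 := by
      have := norm_nonneg z
      nlinarith
    nlinarith
  rw [Complex.div_re, ← add_div, le_div_iff₀ hB, Complex.normSq_apply, Complex.sub_re,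
    Complex.sub_im, Complex.one_re, Complex.one_im]
  nlinarith

theorem ppzer_core {e e' : ℕ} (q : ℝ) (hq : 0 < q) (D : ℕ) (he : e + 1 ≤ D) (he' : e' + 1 ≤ D)
    (α : Fin e → ℂ) (β : Fin e' → ℂ) (hα : ∀ i, ‖α i‖ ≤ q) (hβ : ∀ i, ‖β i‖ ≤ q)
    (h : ∀ ω : ℂ, ‖ω‖ = 1 → ∀ k, 1 ≤ k → 0 ≤ 3 * q ^ k + 4 * (ω ^ k * (-∑ i, α i ^ k)).re +
      (ω ^ (2 * k) * (-∑ i, β i ^ k)).re) (i₀ : Fin e) :
    ‖α i₀‖ / q ≤ 1 - 1 / (37 * D) := by
  have hD1 : (1 : ℝ) ≤ D := by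
    have : 1 ≤ D := by omega
    exact_mod_cast this
  have hD0 : (0 : ℝ) < D := by linarith
  by_cases h0 : α i₀ = 0
  · rw [h0, norm_zero, zero_div, sub_nonneg, div_le_one (by positivity)]
    linarith
  have hn0 : 0 < ‖α i₀‖ := norm_pos_iff.mpr h0
  set ω : ℂ := (‖α i₀‖ : ℂ) / α i₀ with hω
  have hω1 : ‖ω‖ = 1 := by
    rw [hω, norm_div, Complex.norm_real, norm_norm, div_self (ne_of_gt hn0)]
  have hωα : ω * α i₀ = (‖α i₀‖ : ℂ) := by
    rw [hω, div_mul_cancel₀ _ h0]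
  set r : ℝ := 1 - 1 / (7 * D) with hr
  have ha0 : 0 < 1 / (7 * (D : ℝ)) := by positivity
  have ha1 : 1 / (7 * (D : ℝ)) ≤ 1 / 7 := by
    apply one_div_le_one_div_of_le (by norm_num)
    linarith
  have hr0 : 0 < r := by rw [hr]; linarith
  have hr1 : r < 1 := by rw [hr]; linarith
  set w : Fin e → ℂ := fun i => ((r / q : ℝ) : ℂ) * (ω * α i) with hw
  set v : Fin e' → ℂ := fun i => ((r / q : ℝ) : ℂ) * (ω ^ 2 * β i) with hv
  have hrq : 0 < r / q := div_pos hr0 hq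
  have hwn : ∀ i, ‖w i‖ < 1 := by
    intro i
    rw [hw]
    simp only
    rw [norm_mul, norm_mul, hω1, one_mul, Complex.norm_real, Real.norm_of_nonneg hrq.le]
    calc r / q * ‖α i‖ ≤ r / q * q := mul_le_mul_of_nonneg_left (hα i) hrq.le
      _ = r := by field_simp
      _ < 1 := hr1
  have hvn : ∀ i, ‖v i‖ < 1 := by
    intro i
    rw [hv]
    simp only
    rw [norm_mul, norm_mul, norm_pow, hω1, one_pow, one_mul, Complex.norm_real,
      Real.norm_of_nonneg hrq.le]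
    calc r / q * ‖β i‖ ≤ r / q * q := mul_le_mul_of_nonneg_left (hβ i) hrq.le
      _ = r := by field_simp
      _ < 1 := hr1
  have hsr : HasSum (fun n : ℕ => r ^ (n + 1)) (r / (1 - r)) := by
    have h1 := (hasSum_geometric_of_lt_one hr0.le hr1).mul_left r
    rw [div_eq_mul_inv]
    refine h1.congr_fun ?_
    intro n
    rw [pow_succ']
  have hS : HasSum (fun n : ℕ => 3 * r ^ (n + 1) - 4 * ∑ i, (w i ^ (n + 1)).re -
      ∑ i, (v i ^ (n + 1)).re)
      (3 * (r / (1 - r)) - 4 * ∑ i, (w i / (1 - w i)).re - ∑ i, (v i / (1 - v i)).re) := by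
    refine ((hsr.mul_left 3).sub ((hasSum_sum fun i _ => ppzer_geom (hwn i)).mul_left 4)).sub ?_
    exact hasSum_sum fun i _ => ppzer_geom (hvn i)
  have hpos : ∀ n : ℕ, 0 ≤ 3 * r ^ (n + 1) - 4 * ∑ i, (w i ^ (n + 1)).re -
      ∑ i, (v i ^ (n + 1)).re := by
    intro n
    have h1 := h ω hω1 (n + 1) (by omega)
    have h2 := mul_nonneg (pow_nonneg hrq.le (n + 1)) h1
    refine le_trans h2 (le_of_eq ?_)
    have e1 : (r / q) ^ (n + 1) * q ^ (n + 1) = r ^ (n + 1) := by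
      rw [← mul_pow, div_mul_cancel₀ _ (ne_of_gt hq)]
    have e2 : (r / q) ^ (n + 1) * (ω ^ (n + 1) * (-∑ i, α i ^ (n + 1))).re =
        -∑ i, (w i ^ (n + 1)).re := by
      rw [← Complex.re_ofReal_mul, ← Complex.re_sum, ← Complex.neg_re]
      congr 1
      rw [mul_neg, mul_neg, Finset.mul_sum, Finset.mul_sum]
      congr 1
      refine Finset.sum_congr rfl fun i _ => ?_
      rw [hw]
      simp only
      rw [mul_pow, mul_pow]
      push_cast
      ring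
    have e3 : (r / q) ^ (n + 1) * (ω ^ (2 * (n + 1)) * (-∑ i, β i ^ (n + 1))).re =
        -∑ i, (v i ^ (n + 1)).re := by
      rw [← Complex.re_ofReal_mul, ← Complex.re_sum, ← Complex.neg_re]
      congr 1
      rw [mul_neg, mul_neg, Finset.mul_sum, Finset.mul_sum]
      congr 1
      refine Finset.sum_congr rfl fun i _ => ?_
      rw [hv]
      simp only
      rw [mul_pow, mul_pow, ← pow_mul]
      push_cast
      ring
    calc (r / q) ^ (n + 1) * (3 * q ^ (n + 1) + 4 * (ω ^ (n + 1) * (-∑ i, α i ^ (n + 1))).re +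
          (ω ^ (2 * (n + 1)) * (-∑ i, β i ^ (n + 1))).re)
        = 3 * ((r / q) ^ (n + 1) * q ^ (n + 1)) +
          4 * ((r / q) ^ (n + 1) * (ω ^ (n + 1) * (-∑ i, α i ^ (n + 1))).re) +
          (r / q) ^ (n + 1) * (ω ^ (2 * (n + 1)) * (-∑ i, β i ^ (n + 1))).re := by ring
      _ = 3 * r ^ (n + 1) - 4 * ∑ i, (w i ^ (n + 1)).re - ∑ i, (v i ^ (n + 1)).re := by
          rw [e1, e2, e3]
          ring
  have hX := hS.nonneg hpos
  -- the lower bounds of the sums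
  set u : ℝ := ‖α i₀‖ / q with hu
  have hu1 : u ≤ 1 := by
    rw [hu, div_le_one hq]
    exact hα i₀
  have hu0 : 0 < u := div_pos hn0 hq
  have hru : r * u < 1 := by nlinarith
  have hw0 : (w i₀ / (1 - w i₀)).re = r * u / (1 - r * u) := by
    have h1 : w i₀ = ((r * u : ℝ) : ℂ) := by
      rw [hw]
      simp only
      rw [hωα, hu]
      push_cast
      ring
    have h2 : ((r * u : ℝ) : ℂ) / (1 - ((r * u : ℝ) : ℂ)) =
        ((r * u / (1 - r * u) : ℝ) : ℂ) := by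
      push_cast
      ring
    rw [h1, h2, Complex.ofReal_re]
  have hsw : r * u / (1 - r * u) - ((e : ℝ) - 1) / 2 ≤ ∑ i, (w i / (1 - w i)).re := by
    rw [← Finset.add_sum_erase Finset.univ _ (Finset.mem_univ i₀), hw0]
    have h1 : ∑ i ∈ Finset.univ.erase i₀, (-(1 / 2) : ℝ) ≤
        ∑ i ∈ Finset.univ.erase i₀, (w i / (1 - w i)).re :=
      Finset.sum_le_sum fun i _ => ppzer_half (hwn i)
    have h2 : ∑ i ∈ (Finset.univ : Finset (Fin e)).erase i₀, (-(1 / 2) : ℝ) =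
        -(((e : ℝ) - 1) / 2) := by
      rw [Finset.sum_const, Finset.card_erase_of_mem (Finset.mem_univ i₀), Finset.card_univ,
        Fintype.card_fin, nsmul_eq_mul, Nat.cast_sub (Nat.succ_le_of_lt (Fin.pos i₀))]
      push_cast
      ring
    linarith
  have hsv : -((e' : ℝ) / 2) ≤ ∑ i, (v i / (1 - v i)).re := by
    have h1 : ∑ _i : Fin e', (-(1 / 2) : ℝ) ≤ ∑ i, (v i / (1 - v i)).re :=
      Finset.sum_le_sum fun i _ => ppzer_half (hvn i)
    have h2 : ∑ _i : Fin e', (-(1 / 2) : ℝ) = -((e' : ℝ) / 2) := by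
      rw [Finset.sum_const, Finset.card_univ, Fintype.card_fin, nsmul_eq_mul]
      ring
    linarith
  have heD : (e : ℝ) + 1 ≤ D := by exact_mod_cast he
  have heD' : (e' : ℝ) + 1 ≤ D := by exact_mod_cast he'
  have hb0 : 0 < 1 - r * u := by linarith
  have hr2 : r / (1 - r) = 7 * D - 1 := by
    rw [hr]
    field_simp
    ring
  have hr3 : r * u / (1 - r * u) = 1 / (1 - r * u) - 1 := by
    field_simp
    ring
  rw [hr2] at hX
  rw [hr3] at hsw
  have hfin : 4 * (1 / (1 - r * u)) ≤ 47 / 2 * D := by linarith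
  have hb : 8 / (47 * D) ≤ 1 - r * u := by
    have h1 : 4 ≤ 47 / 2 * D * (1 - r * u) := by
      have h2 := mul_le_mul_of_nonneg_right hfin hb0.le
      have h3 : 4 * (1 / (1 - r * u)) * (1 - r * u) = 4 := by field_simp
      linarith
    rw [div_le_iff₀ (by positivity)]
    linarith
  have hru2 : 1 - r * u ≤ 1 / (7 * D) + (1 - u) := by
    have h1 : (1 - r) * (1 - u) ≥ 0 := mul_nonneg (by linarith) (by linarith)
    have h2 : 1 - r = 1 / (7 * D) := by rw [hr]; ring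
    nlinarith
  have h37 : 1 / (37 * (D : ℝ)) ≤ 8 / (47 * D) - 1 / (7 * D) := by
    have h1 : 8 / (47 * (D : ℝ)) - 1 / (7 * D) = 9 / 329 * (1 / D) := by
      field_simp
      ring
    have h2 : 1 / (37 * (D : ℝ)) = 1 / 37 * (1 / D) := by
      field_simp
    rw [h1, h2]
    apply mul_le_mul_of_nonneg_right (by norm_num) (by positivity)
  linarith

theorem tPpZer.{v} (hSuPsi : StmtSuPsi.{v}) (hPpRoot : StmtPpRoot) : StmtPpZer.{v} := by
  intro F _ _ ℓ hℓ hℓ2 φ hφ D hD J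
  obtain ⟨hP1, hP2, hP3, -, -⟩ := hSuPsi F ℓ hℓ
  have hℓ3 : 2 < ℓ := lt_of_le_of_ne hℓ.two_le (Ne.symm hℓ2)
  have hℓ0 : ℓ ≠ 0 := hℓ.ne_zero
  have hφ2 : IsChL ℓ (fun h => φ h ^ 2) := by
    refine ⟨?_, ?_, ?_⟩
    · rw [hφ.one, one_pow]
    · intro g h hg hh
      rw [hφ.mul g h hg hh, mul_pow]
    · intro h
      rcases hφ.val h with h0 | h1
      · left
        rw [h0, zero_pow (by norm_num)]
      · right
        rw [← pow_mul, mul_comm, pow_mul, h1, one_pow]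
  have hav0 : ∀ ψ : F[X] → ℂ, ψ 1 = 1 → avC ψ 0 = 1 := by
    intro ψ hψ
    have h1 : mon F 0 = {(1 : F[X])} := by
      ext h
      rw [mem_mon, Finset.mem_singleton]
      constructor
      · rintro ⟨hm, hd⟩
        exact hm.natDegree_eq_zero.mp hd
      · rintro rfl
        exact ⟨monic_one, natDegree_one⟩
    rw [avC, h1, Finset.sum_singleton, hψ]
  set q : ℝ := (Nat.card F : ℝ) with hq
  have hq0 : 0 < q := by
    rw [hq]
    exact_mod_cast Nat.card_pos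
  have hav1 : ∀ n, D ≤ n → avC φ n = 0 := by
    intro n hn
    have h1 := hD 1 le_rfl (by omega) n hn
    simp only [pow_one] at h1
    exact h1
  have hav2 : ∀ n, D ≤ n → avC (fun h => φ h ^ 2) n = 0 :=
    fun n hn => hD 2 (by norm_num) hℓ3 n hn
  obtain ⟨e, α, he, hα, hαψ⟩ := hPpRoot q hq0 (avC φ) (psiC φ) D (hav0 φ hφ.one) hav1
    (hP1 φ hφ) (hP3 φ hφ)
  obtain ⟨e', β, he', hβ, hβψ⟩ := hPpRoot q hq0 (avC (fun h => φ h ^ 2))
    (psiC (fun h => φ h ^ 2)) D (hav0 _ hφ2.one) hav2 (hP1 _ hφ2) (hP3 _ hφ2)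
  have hD1 : (1 : ℝ) ≤ D := by
    have : 1 ≤ D := by omega
    exact_mod_cast this
  have hD0 : (0 : ℝ) < D := by linarith
  have hcore : ∀ i, ‖α i‖ / q ≤ 1 - 1 / (37 * D) := by
    intro i
    refine ppzer_core q hq0 D he he' α β hα hβ ?_ i
    intro ω hω k hk
    rw [← hαψ k hk, ← hβψ k hk]
    exact ppzer_ineq hP2 hℓ0 hφ hω hk
  set s : ℝ := 1 - 1 / (37 * D) with hs
  have hs0 : 0 ≤ s := by
    rw [hs, sub_nonneg, div_le_one (by positivity)]
    linarith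
  have hs1 : 1 - s = 1 / (37 * D) := by rw [hs]; ring
  have hterm : ∀ k ∈ Finset.Icc 1 J, ‖psiC φ k‖ / q ^ k ≤ (e : ℝ) * s ^ k := by
    intro k hk
    rw [Finset.mem_Icc] at hk
    rw [hαψ k hk.1, norm_neg]
    have h1 : ‖∑ i, α i ^ k‖ ≤ ∑ i, ‖α i‖ ^ k := by
      refine le_trans (norm_sum_le _ _) (le_of_eq ?_)
      exact Finset.sum_congr rfl fun i _ => norm_pow _ _
    have h2 : (∑ i, ‖α i‖ ^ k) / q ^ k ≤ (e : ℝ) * s ^ k := by
      rw [Finset.sum_div]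
      have h3 : ∀ i ∈ (Finset.univ : Finset (Fin e)), ‖α i‖ ^ k / q ^ k ≤ s ^ k := by
        intro i _
        rw [← div_pow]
        exact pow_le_pow_left₀ (div_nonneg (norm_nonneg _) hq0.le) (hcore i) k
      refine le_trans (Finset.sum_le_sum h3) (le_of_eq ?_)
      rw [Finset.sum_const, Finset.card_univ, Fintype.card_fin, nsmul_eq_mul]
    exact le_trans (div_le_div_of_nonneg_right h1 (pow_nonneg hq0.le k)) h2
  have hgeo : ∑ k ∈ Finset.Icc 1 J, s ^ k ≤ 37 * D := by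
    have h1 : ∑ k ∈ Finset.Icc 1 J, s ^ k ≤ ∑ k ∈ Finset.range (J + 1), s ^ k := by
      apply Finset.sum_le_sum_of_subset_of_nonneg
      · intro k hk
        rw [Finset.mem_Icc] at hk
        rw [Finset.mem_range]
        omega
      · intro k _ _
        exact pow_nonneg hs0 k
    have h2 := mul_neg_geom_sum s (J + 1)
    rw [hs1] at h2
    have h3 : 0 ≤ s ^ (J + 1) := pow_nonneg hs0 _
    have h4 : 1 / (37 * (D : ℝ)) * ∑ k ∈ Finset.range (J + 1), s ^ k ≤ 1 := by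
      rw [h2]
      linarith
    have h5 : ∑ k ∈ Finset.range (J + 1), s ^ k ≤ 37 * D := by
      have h6 := mul_le_mul_of_nonneg_left h4 (show (0 : ℝ) ≤ 37 * D by positivity)
      have h7 : 37 * (D : ℝ) * (1 / (37 * (D : ℝ)) * ∑ k ∈ Finset.range (J + 1), s ^ k) =
          ∑ k ∈ Finset.range (J + 1), s ^ k := by
        field_simp
      rw [h7, mul_one] at h6
      exact h6
    exact le_trans h1 h5
  refine le_trans (Finset.sum_le_sum hterm) ?_
  rw [← Finset.mul_sum]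
  have heD : (e : ℝ) ≤ D := by
    have : e ≤ D := by omega
    exact_mod_cast this
  calc (e : ℝ) * ∑ k ∈ Finset.Icc 1 J, s ^ k ≤ (e : ℝ) * (37 * D) :=
        mul_le_mul_of_nonneg_left hgeo (Nat.cast_nonneg _)
    _ ≤ D * (37 * D) := mul_le_mul_of_nonneg_right heD (by positivity)
    _ ≤ 40 * (D : ℝ) ^ 2 := by nlinarith

end MP72e2e6
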