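import Pool.Agent.Lib.MP_72e2e6_nt.SuAll
import Pool.Agent.Lib.MP_72e2e6_nt.PpMain
import Pool.Agent.Lib.MP_72e2e6_nt.PpNum
import Pool.Agent.Lib.MP_72e2e6_nt.PpCv
import Pool.Agent.Lib.MP_72e2e6_nt.PpSA
import Pool.Agent.Lib.MP_72e2e6_nt.PpSB
import Pool.Agent.Lib.MP_72e2e6_nt.PpLim
import Pool.Agent.Lib.MP_72e2e6_nt.PpRoot
import Pool.Agent.Lib.MP_72e2e6_nt.PpZer
import Pool.Agent.Lib.MP_72e2e6_nt.PpIn
import Pool.Agent.Lib.MP_72e2e6_nt.PpCmp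
import Pool.Agent.Lib.MP_72e2e6_nt.PpEn
import Pool.Agent.Lib.MP_72e2e6_nt.PpBil
import Pool.Agent.Lib.MP_72e2e6_nt.PpTri
import Pool.Agent.Lib.MP_72e2e6_nt.PpLin
import Pool.Agent.Lib.MP_72e2e6_nt.PpInn
import Pool.Agent.Lib.MP_72e2e6_nt.PpCol
import Pool.Agent.Lib.MP_72e2e6_nt.PpFul
import Pool.Agent.Lib.MP_72e2e6_nt.PpHal
import Pool.Agent.Lib.MP_72e2e6_nt.PpEA
import Pool.Agent.Lib.MP_72e2e6_nt.PpEB
import Pool.Agent.Lib.MP_72e2e6_nt.PpErr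
import Pool.Agent.Lib.MP_72e2e6_nt.PpAn
import Pool.Agent.Lib.MP_72e2e6_nt.PpTS
import Pool.Agent.Lib.MP_72e2e6_nt.PpMT
import Pool.Agent.Lib.MP_72e2e6_nt.PpFou
import Pool.Agent.Lib.MP_72e2e6_nt.PpFM
import Pool.Agent.Lib.MP_72e2e6_nt.PpEvn
import Pool.Agent.Lib.MP_72e2e6_nt.PpKf
import Pool.Agent.Lib.MP_72e2e6_nt.PpFrm
import Pool.Agent.Lib.MP_72e2e6_nt.PpPar
import Pool.Agent.Lib.MP_72e2e6_nt.PpMar
import Pool.Agent.Lib.MP_72e2e6_nt.PpInd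
import Pool.Agent.Lib.MP_72e2e6_nt.PpBij
import Pool.Agent.Lib.MP_72e2e6_nt.PpCnt
import Pool.Agent.Lib.MP_72e2e6_nt.PpCom
import Pool.Agent.Lib.MP_72e2e6_nt.PpHyp
import Pool.Agent.Lib.MP_72e2e6_nt.PpLnk
import Pool.Agent.Lib.MP_72e2e6_nt.PpIrr
import Pool.Agent.Lib.MP_72e2e6_nt.PpSel
import Pool.Agent.Lib.MP_72e2e6_nt.PpEq
import Pool.Agent.Lib.MP_72e2e6_nt.PpInj

/-!
# MP_72e2e6_nt: positive proportion of twists, all the modules together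
-/

namespace MP72e2e6

open Polynomial IsDedekindDomain

universe u

theorem ppAn_all : StmtPpAn.{u} := by
  have hSy : StmtSuSy.{u} := tSuSy
  have hMon : StmtTwMon.{u} := tTwMon
  have hPsi := tSuPsi hMon (tTwPsi hMon) tSuMon
  have hRec := tPpRec hPsi
  have hCv := tPpCv tPpNum
  have hSA := tPpSA tPpNum hCv
  have hSB := tPpSB tPpNum hCv
  have hZer := tPpZer hPsi tPpRoot
  have hIn := tPpIn hPsi hRec tPpNum
  have hBil := tPpBil hSy hMon tPpCmp (tPpEn hMon)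
  have hLin := tPpLin hRec tPpNum hBil
  have hInn := tPpInn hSy (tSuZero hSy) hZer hIn
  have hFul := tPpFul tPpCol.{u}
  have hHal := tPpHal hPsi hRec tPpNum
  have hErr := tPpErr hRec hSA tPpLim tPpTri (tPpEA hLin) (tPpEB hRec hSB hInn)
  exact tPpAn hErr hFul hHal

theorem ppFM_all : StmtPpFM.{u} := by
  have hSy : StmtSuSy.{u} := tSuSy
  have hSuRec := tSuRec hSy
  exact tPpFM hSuRec tPpTS tPpCol ppAn_all (tPpMT tPpTS) (tPpFou hSy hSuRec)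

theorem ppMar_all : StmtPpMar.{u} := by
  have hSy : StmtSuSy.{u} := tSuSy
  exact tPpMar ppFM_all (tPpPar hSy (tSuRec hSy) tPpKf (tPpFrm tPpEvn tPpEvn))

theorem ppCnt_all : StmtPpCnt.{u} := by
  have hMon : StmtTwMon.{u} := tTwMon
  exact tPpCnt hMon (tSuPsi hMon (tTwPsi hMon) tSuMon) tPpBij

open Classical in
/-- the density theorem -/
theorem pp_density {F : Type u} [Field F] [Finite F] {ℓ : ℕ} [Fact ℓ.Prime]
    (hℓ2 : ℓ ≠ 2) (hq : ℓ ∣ Nat.card F - 1) {m : ℕ} (hm : 0 < m) {a : Fin m → F[X]}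
    (ha : Function.Injective a) {b : Fin m → ℕ} {D : F[X]} (hD : TD ℓ b a D) :
    (∃ c : ℝ, 0 < c ∧ ∃ n₀ : ℕ, ∀ n : ℕ, n₀ ≤ n →
      c * (Nat.card F : ℝ) ^ n ≤ ((Msf a D n).ncard : ℝ)) ∧
    ∀ ε : ℝ, 0 < ε → ∃ n₀ : ℕ, ∀ n : ℕ, n₀ ≤ n →
      Tame ℓ b (wI a) (-((D.natDegree + n : ℕ) : ℤ)) →
      (1 - ((m : ℝ) - 1) / ((ℓ : ℝ) - 1) - ε) * ((Msf a D n).ncard : ℝ) ≤
        ({M ∈ Msf a D n |
          placesSelmer F[X] (RatFunc.inftyValuation F) ℓ (pts (D * M) a) b =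
            torsionGroup ℓ (pts (D * M) a) b}.ncard : ℝ) ∧
      (2 ≤ m → Conn ℓ a →
        (1 - 1 / ((ℓ : ℝ) - 1) - ε) * ((Msf a D n).ncard : ℝ) ≤
        ({M ∈ Msf a D n |
          placesSelmer F[X] (RatFunc.inftyValuation F) ℓ (pts (D * M) a) b =
            torsionGroup ℓ (pts (D * M) a) b}.ncard : ℝ) ∧
        ∑ᶠ M ∈ Msf a D n, ((torsionGroup ℓ (pts (D * M) a) b).relIndex
          (placesSelmer F[X] (RatFunc.inftyValuation F) ℓ (pts (D * M) a) b) : ℝ)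
          ≤ (2 + ε) * ((Msf a D n).ncard : ℝ)) := by
  have hSy : StmtSuSy.{u} := tSuSy
  have hRec := tSuRec hSy
  have hFac := tSuFac hSy
  have hTal := tSuTal hSy
  have hLocV := tSuLocV tSuLoc.{u}
  have hTor : StmtSuTor.{u} := tSuTor
  have hLocF := tSuLocF hLocV
  have hLocI := tSuLocI hLocV
  have hPwF := tSuPwF hSy
  have hSel := tSuSel hSy hTal hLocF hLocI hPwF tSuPwI hTor
  have hEq := tSuEq hSy hFac hTal hSel
  have hPSel := tPpSel hSy hTal hLocF hLocI hPwF tSuPwI hTor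
  have hPEq := tPpEq hSy hFac hTal hPSel
  exact pp_main tSuLg ppFM_all ppMar_all (tPpInd ppMar_all) tPpBij ppCnt_all
    (tPpHyp hSy hFac tSuInj tPpCom) (tPpLnk hSy hRec hEq) tPpIrr
    (tPpInj hSy hRec hFac hTor hPEq) hℓ2 hq hm ha hD

theorem pp_exists {F : Type u} [Field F] [Finite F] {ℓ : ℕ} [Fact ℓ.Prime]
    (hℓ2 : ℓ ≠ 2) (hq : ℓ ∣ Nat.card F - 1) {m : ℕ} {a : Fin m → F[X]}
    (ha : Function.Injective a) {b : Fin m → ℕ}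
    (hP : ∀ P : F[X], P.Monic → Irreducible P → ∃ e : ℤ, Tame ℓ b (wP P a) e)
    (hI : ∃ e : ℤ, Tame ℓ b (wI a) e) (θ : ZMod ℓ) :
    ∃ D : F[X], TD ℓ b a D ∧ ∀ n : ℕ, (n : ZMod ℓ) = θ →
      Tame ℓ b (wI a) (-((D.natDegree + n : ℕ) : ℤ)) := by
  have hSy : StmtSuSy.{u} := tSuSy
  have hMon : StmtTwMon.{u} := tTwMon
  have hPsi := tSuPsi hMon (tTwPsi hMon) tSuMon
  have hPrime := tSuPrime hSy hPsi (tSuBdd hMon hPsi (tSuNonv hMon hPsi)) (tSuZero hSy)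
  exact pp_exists_TD tSuLg hPrime hℓ2 hq ha hP hI θ

theorem pp_conn {F : Type u} [Field F] [Finite F] {ℓ : ℕ} [Fact ℓ.Prime]
    (hq : ℓ ∣ Nat.card F - 1) {m : ℕ} {a : Fin m → F[X]} (ha : Function.Injective a)
    (hdeg : ∀ i j, i ≠ j → ¬ ℓ ∣ (a i - a j).natDegree)
    (hcop : ∀ i j k l, i ≠ j → k ≠ l → s(i, j) ≠ s(k, l) → IsCoprime (a i - a j) (a k - a l)) :
    Conn ℓ a :=
  pp_conn_of_coprime tSuLg (tSuFac tSuSy) hq ha hdeg hcop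

end MP72e2e6
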