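import Pool.Agent.Lib.MP_72e2e6_nt.SuAsm

/-!
# MP_72e2e6_nt: positive proportion of twists, definitions

THEOREM (file PpMain, later). `ℓ` an odd prime, `F` finite, `ℓ ∣ |F| - 1`, `a_1, ..., a_m ∈ F[t]`
distinct, tame at all places. There are `D ≠ 0` and a class `θ` modulo `ℓ` such that among all
squarefree monic polynomials `M` of degree `n ≡ θ`, prime to the `a_i - a_j`, at least a proportion
`(ℓ - m) / (ℓ - 1) - ε` has the property that the Selmer group of `y ^ ℓ = ∏ (x - D M a_i) ^ b_i` is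
the torsion group, for `n ≥ n₀(ε)`. Every module proves one of the propositions of PpStmt.lean.
-/

namespace MP72e2e6

open Polynomial IsDedekindDomain

universe u

/-! ### Finite sets of primes -/

section sets

variable (F : Type u) [Field F] [Finite F]

open Classical in
/-- The finite sets of monic irreducible polynomials of total degree `n`. -/
noncomputable def ps (n : ℕ) : Finset (Finset F[X]) :=
  ((Finset.range (n + 1)).biUnion (irr F)).powerset.filter fun t => ∑ P ∈ t, P.natDegree = n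

variable {F}

theorem mem_ps {n : ℕ} {t : Finset F[X]} :
    t ∈ ps F n ↔ (∀ P ∈ t, P.Monic ∧ Irreducible P) ∧ ∑ P ∈ t, P.natDegree = n := by
  classical
  rw [ps, Finset.mem_filter, Finset.mem_powerset]
  constructor
  · rintro ⟨h1, h2⟩
    refine ⟨fun P hP => ?_, h2⟩
    have h3 := h1 hP
    rw [Finset.mem_biUnion] at h3
    obtain ⟨d, -, hd⟩ := h3
    rw [irr, Finset.mem_filter, mem_mon] at hd
    exact ⟨hd.1.1, hd.2⟩
  · rintro ⟨h1, h2⟩
    refine ⟨fun P hP => ?_, h2⟩
    rw [Finset.mem_biUnion]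
    refine ⟨P.natDegree, ?_, ?_⟩
    · rw [Finset.mem_range, ← h2]
      exact Nat.lt_succ_of_le (Finset.single_le_sum (f := fun P : F[X] => P.natDegree)
        (fun _ _ => Nat.zero_le _) hP)
    · rw [irr, Finset.mem_filter, mem_mon]
      exact ⟨⟨(h1 P hP).1, rfl⟩, (h1 P hP).2⟩

variable (F)

open Classical in
/-- The sets in `ps F n` without elements of the family `pr`. -/
noncomputable def gs {V : Type} (pr : V → F[X]) (n : ℕ) : Finset (Finset F[X]) :=
  (ps F n).filter fun t => ∀ P ∈ t, ∀ v, pr v ≠ P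

/-- The sum of `z ^ |t|` over the sets of total degree `n`. -/
noncomputable def GG (z : ℝ) (n : ℕ) : ℝ := ∑ t ∈ ps F n, z ^ t.card

end sets

/-- Sequences with the growth of `k ^ (z - 1)`. -/
structure RecS (z : ℝ) (a : ℕ → ℝ) : Prop where
  nonneg : ∀ k, 0 ≤ a k
  zero : a 0 ≤ 1
  step : ∀ k : ℕ, (k : ℝ) * a k ≤ z * ∑ i ∈ Finset.range k, a i

/-! ### Coloured sums -/

section coloured

variable {F : Type u} [Field F] {ℓ : ℕ} [NeZero ℓ]

/-- The sum of the symbols of the pairs. -/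
noncomputable def sys (χ : F → ZMod ℓ) (s t : Finset F[X]) : ZMod ℓ :=
  ∑ P ∈ s, ∑ Q ∈ t, syl χ P Q

open Classical in
/-- The character of the colour `w` at the prime `P`; it is `0` at the primes of the family. -/
noncomputable def chc {V U : Type} [Fintype V] (χ : F → ZMod ℓ) (pr : V → F[X])
    (α : V → U → ZMod ℓ) (αi : U → ZMod ℓ) (w : U) (P : F[X]) : ℂ :=
  if ∃ v, pr v = P then 0
  else ZMod.stdAddChar (∑ v, α v w * syl χ (pr v) P + αi w * (P.natDegree : ZMod ℓ))

open Classical in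
/-- The weight of a coloured set of primes: `p w` are the primes of colour `w`. -/
noncomputable def wgt {V U : Type} [Fintype V] [Fintype U] (χ : F → ZMod ℓ) (pr : V → F[X])
    (α : V → U → ZMod ℓ) (αi : U → ZMod ℓ) (B : U → U → ZMod ℓ) (N : ℕ)
    (p : U → Finset F[X]) : ℂ :=
  if ∀ w w', w ≠ w' → Disjoint (p w) (p w') then
    (∏ w, ∏ P ∈ p w, ((N : ℂ)⁻¹ * chc χ pr α αi w P)) *
      ZMod.stdAddChar (∑ w, ∑ w', B w w' * sys χ (p w) (p w'))
  else 0

variable [Finite F]

/-- The sum over the coloured sets with prescribed degrees. -/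
noncomputable def Tnu {V U : Type} [Fintype V] [Fintype U] [DecidableEq U] (χ : F → ZMod ℓ)
    (pr : V → F[X]) (α : V → U → ZMod ℓ) (αi : U → ZMod ℓ) (B : U → U → ZMod ℓ) (N : ℕ)
    (ν : U → ℕ) : ℂ :=
  ∑ p ∈ Fintype.piFinset (fun w => ps F (ν w)), wgt χ pr α αi B N p

/-- The sum over the coloured sets of total degree `n`. -/
noncomputable def TT {V U : Type} [Fintype V] [Fintype U] [DecidableEq U] (χ : F → ZMod ℓ)
    (pr : V → F[X]) (α : V → U → ZMod ℓ) (αi : U → ZMod ℓ) (B : U → U → ZMod ℓ) (N n : ℕ) : ℂ :=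
  ∑ ν ∈ Finset.univ.piAntidiag n, Tnu χ pr α αi B N ν

end coloured

/-- `w` and `w'` are linked if `B w w' + B w' w ≠ 0`. -/
structure Unl {ℓ : ℕ} {U : Type} (B : U → U → ZMod ℓ) (N : ℕ) : Prop where
  diag : ∀ w, B w w = 0
  two : 2 ≤ N
  card : ∀ 𝓥 : Finset U, (∀ w ∈ 𝓥, ∀ w' ∈ 𝓥, B w w' + B w' w = 0) → 𝓥.card ≤ N

/-- The sets of colours which contribute to the main term. -/
structure Adm {ℓ : ℕ} {V U : Type} (B : U → U → ZMod ℓ) (N : ℕ) (α : V → U → ZMod ℓ)
    (αi : U → ZMod ℓ) (𝓥 : Finset U) : Prop where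
  card : 𝓥.card = N
  unl : ∀ w ∈ 𝓥, ∀ w' ∈ 𝓥, B w w' + B w' w = 0
  bad : ∀ w ∈ 𝓥, ∀ v, α v w = 0
  inf : ∀ w ∈ 𝓥, ∀ w' ∈ 𝓥, αi w = αi w'

/-- Splitting off one coordinate. -/
theorem sum_pi_split {U β M : Type*} [Fintype U] [DecidableEq U] [AddCommMonoid M]
    (s : U → Finset β) (w : U) (x₀ : β) (f : (U → β) → M) :
    ∑ p ∈ Fintype.piFinset s, f p =
      ∑ p ∈ Fintype.piFinset (Function.update s w {x₀}), ∑ x ∈ s w, f (Function.update p w x) := by
  rw [← Finset.sum_product']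
  refine Finset.sum_bij' (fun p _ => (Function.update p w x₀, p w))
    (fun y _ => Function.update y.1 w y.2) ?_ ?_ ?_ ?_ ?_
  · intro p hp
    rw [Fintype.mem_piFinset] at hp
    rw [Finset.mem_product, Fintype.mem_piFinset]
    refine ⟨fun w' => ?_, hp w⟩
    by_cases h : w' = w
    · subst h
      simp
    · simpa [Function.update_of_ne h] using hp w'
  · intro y hy
    rw [Finset.mem_product, Fintype.mem_piFinset] at hy
    rw [Fintype.mem_piFinset]
    intro w'
    by_cases h : w' = w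
    · subst h
      simpa using hy.2
    · have h1 := hy.1 w'
      rw [Function.update_of_ne h] at h1
      simpa [Function.update_of_ne h] using h1
  · intro p _
    simp
  · intro y hy
    rw [Finset.mem_product, Fintype.mem_piFinset] at hy
    have h1 := hy.1 w
    rw [Function.update_self, Finset.mem_singleton] at h1
    refine Prod.ext ?_ (by simp)
    change Function.update (Function.update y.1 w y.2) w x₀ = y.1
    rw [Function.update_idem, ← h1, Function.update_eq_self]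
  · intro p _
    rw [Function.update_idem, Function.update_eq_self]

/-! ### Systems of operators -/

section systems

variable {F : Type u} [Field F] {ℓ : ℕ} {V W : Type} [Fintype V] [AddCommGroup W]
  [Module (ZMod ℓ) W]

/-- The equations: `c v` at the primes of the family, `f P` at the primes of `t`. -/
structure SolW (χ : F → ZMod ℓ) (pr : V → F[X]) (σ : V → Module.End (ZMod ℓ) W)
    (Λ : Module.End (ZMod ℓ) W) (t : Finset F[X]) (c : V → W) (f : t → W) : Prop where
  inf : ∑ v, ((pr v).natDegree : ZMod ℓ) • σ v (c v) +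
    ∑ P : t, (P.1.natDegree : ZMod ℓ) • f P = 0
  bad : ∀ v, ∑ v', syl χ (pr v) (pr v') • σ v' (c v' - c v) +
    ∑ P : t, syl χ (pr v) P.1 • (f P - c v) = ((pr v).natDegree : ZMod ℓ) • Λ (c v)
  good : ∀ P : t, ∑ v, syl χ P.1 (pr v) • σ v (c v - f P) +
    ∑ Q : t, syl χ P.1 Q.1 • (f Q - f P) = (P.1.natDegree : ZMod ℓ) • Λ (f P)

/-- The number of solutions. -/
noncomputable def nSol (χ : F → ZMod ℓ) (pr : V → F[X]) (σ : V → Module.End (ZMod ℓ) W)
    (Λ : Module.End (ZMod ℓ) W) (t : Finset F[X]) : ℕ :=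
  Nat.card {x : (V → W) × (t → W) // SolW χ pr σ Λ t x.1 x.2}

/-- The hypotheses on the operators. -/
structure HypW (χ : F → ZMod ℓ) (pr : V → F[X]) (σ : V → Module.End (ZMod ℓ) W)
    (Λ : Module.End (ZMod ℓ) W) : Prop where
  inj : ∀ v y, σ v y = 0 → y = 0
  com : ∀ v y, σ v (∑ v', syl χ (pr v) (pr v') • σ v' y + ((pr v).natDegree : ZMod ℓ) • Λ y) =
    ∑ v', syl χ (pr v) (pr v') • σ v' (σ v y) + ((pr v).natDegree : ZMod ℓ) • Λ (σ v y)

/-- Infinity is tame for the degree `n`. -/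
def InfW (pr : V → F[X]) (σ : V → Module.End (ZMod ℓ) W) (n : ℕ) : Prop :=
  ∀ y : W, ∑ v, ((pr v).natDegree : ZMod ℓ) • σ v y + (n : ZMod ℓ) • y = 0 → y = 0

/-- No invariant subspaces. -/
structure IrrW (σ : V → Module.End (ZMod ℓ) W) (Λ : Module.End (ZMod ℓ) W) : Prop where
  nontriv : Nontrivial W
  irr : ∀ A : Submodule (ZMod ℓ) W, (∀ v, ∀ y ∈ A, σ v y ∈ A) → (∀ y ∈ A, Λ y ∈ A) →
    A = ⊥ ∨ A = ⊤

/-- The alternating forms for which the operators are self-adjoint. -/
def Sk (σ : V → Module.End (ZMod ℓ) W) (Λ : Module.End (ZMod ℓ) W) :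
    Submodule (ZMod ℓ) (W →ₗ[ZMod ℓ] Module.Dual (ZMod ℓ) W) where
  carrier := {g | ∀ x, g x x = 0 ∧ (∀ v, g x (σ v x) = 0) ∧ g x (Λ x) = 0}
  add_mem' := by
    intro g h hg hh x
    obtain ⟨g1, g2, g3⟩ := hg x
    obtain ⟨h1, h2, h3⟩ := hh x
    refine ⟨?_, fun v => ?_, ?_⟩
    · rw [LinearMap.add_apply, LinearMap.add_apply, g1, h1, add_zero]
    · rw [LinearMap.add_apply, LinearMap.add_apply, g2 v, h2 v, add_zero]
    · rw [LinearMap.add_apply, LinearMap.add_apply, g3, h3, add_zero]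
  zero_mem' := fun x => ⟨rfl, fun _ => rfl, rfl⟩
  smul_mem' := by
    intro r g hg x
    obtain ⟨g1, g2, g3⟩ := hg x
    refine ⟨?_, fun v => ?_, ?_⟩
    · rw [LinearMap.smul_apply, LinearMap.smul_apply, g1, smul_zero]
    · rw [LinearMap.smul_apply, LinearMap.smul_apply, g2 v, smul_zero]
    · rw [LinearMap.smul_apply, LinearMap.smul_apply, g3, smul_zero]

/-- The pairing of the colours `(c, d)`, `c ∈ W`, `d` in the dual. -/
def BW (w w' : W × Module.Dual (ZMod ℓ) W) : ZMod ℓ := w.2 (w'.1 - w.1)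

/-- The characters of the colours at the primes of the family. -/
def alW (σ : V → Module.End (ZMod ℓ) W) (c : V → W) (d : V → Module.Dual (ZMod ℓ) W) (v : V)
    (w : W × Module.Dual (ZMod ℓ) W) : ZMod ℓ :=
  d v (w.1 - c v) + w.2 (σ v (c v - w.1))

/-- The degree characters of the colours. -/
def aiW (Λ : Module.End (ZMod ℓ) W) (η : Module.Dual (ZMod ℓ) W)
    (w : W × Module.Dual (ZMod ℓ) W) : ZMod ℓ :=
  η w.1 - w.2 (Λ w.1)

/-- The constant phase. -/
noncomputable def thW (χ : F → ZMod ℓ) (pr : V → F[X]) (σ : V → Module.End (ZMod ℓ) W)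
    (Λ : Module.End (ZMod ℓ) W) (c : V → W) (d : V → Module.Dual (ZMod ℓ) W)
    (η : Module.Dual (ZMod ℓ) W) : ZMod ℓ :=
  η (∑ v, ((pr v).natDegree : ZMod ℓ) • σ v (c v)) +
    ∑ v, d v (∑ v', syl χ (pr v) (pr v') • σ v' (c v' - c v) -
      ((pr v).natDegree : ZMod ℓ) • Λ (c v))

end systems

/-- The operators of the primes. -/
noncomputable def sigV {F : Type u} [Field F] {ℓ m : ℕ} (b : Fin m → ℕ) (a : Fin m → F[X])
    (P : F[X]) (e : ZMod ℓ) : Module.End (ZMod ℓ) (Vs ℓ b) :=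
  sgV b e (fun i k => vl ℓ P (a i - a k)) (vl_symm P a)

open Classical in
/-- The operator of the leading coefficients. -/
noncomputable def lamV {F : Type u} [Field F] {ℓ m : ℕ} (χ : F → ZMod ℓ) (b : Fin m → ℕ)
    (a : Fin m → F[X]) : Module.End (ZMod ℓ) (Vs ℓ b) :=
  if h : ∀ i k, χ (a i - a k).leadingCoeff = χ (a k - a i).leadingCoeff then
    sgV b 0 (fun i k => χ (a i - a k).leadingCoeff) h
  else 0

/-- The primes of colour `w`. -/
def fib {β U : Type*} [DecidableEq U] (t : Finset β) (g : t → U) (w : U) : Finset β :=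
  (Finset.univ.filter fun P : t => g P = w).map (Function.Embedding.subtype _)

end MP72e2e6
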