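import Pool.Agent.Lib.MP_72e2e6_nt.PpSpec

/-!
# MP_72e2e6_nt: positive proportion of twists, statements of the modules (analytic part)

Every module proves one of the propositions `StmtPpX` below or in PpStmtB.lean: file `PpX.lean`
(same folder, import this file and the files it uses) with `theorem tPpX.{u} : StmtPpX.{u}` (or
`theorem tPpX.{u} (h : StmtPpY.{u}) .. : StmtPpX.{u}` if the docstring says: uses `StmtPpY`, in this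
order; no universe for `PpNum`, `PpCv`, `PpSA`, `PpSB`, `PpLim`, `PpRoot`, `PpTS`, `PpKf`, `PpCom`).
The complete proofs are in the docstrings. `q = Nat.card F`, `ψ = ZMod.stdAddChar`, `MI` means monic
irreducible.
-/

namespace MP72e2e6

open Polynomial

universe u

/-- Reciprocity for the symbols of two different monic irreducible polynomials. -/
def Rcp {F : Type u} [Field F] {ℓ : ℕ} (χ : F → ZMod ℓ) : Prop :=
  ∀ P Q : F[X], P.Monic → Irreducible P → Q.Monic → Irreducible Q → P ≠ Q →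
    syl χ P Q = syl χ Q P

/-! ### Growth -/

/-- **PpRec** (growth of the sums over sets of primes; 100 lines; uses `StmtSuPsi`).

Proof. `ps F 0 = {∅}` (`mem_ps`; irreducible polynomials have positive degree). For the sum:
`n * GG F z n = ∑_{t ∈ ps F n} z ^ |t| * ∑_{P ∈ t} deg P = ∑_{j = 1}^n ∑_{P ∈ irr F j} j *
∑_{t ∈ ps F n, P ∈ t} z ^ |t|`, and `t ↦ t.erase P` is a bijection from `{t ∈ ps F n | P ∈ t}` to
`{t' ∈ ps F (n - j) | P ∉ t'}`, so the inner sum is at most `z * GG F z (n - j)`. Since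
`j * |irr F j| ≤ q ^ j` (last claim of `StmtSuPsi`, `ℓ = 2`):
`n * GG F z n ≤ z * ∑_{j = 1}^n q ^ j * GG F z (n - j)`. Divide by `q ^ n`, `i = n - j`. -/
def StmtPpRec : Prop :=
  ∀ (F : Type u) [Field F] [Finite F] (z : ℝ) (_ : 0 ≤ z),
    GG F z 0 = 1 ∧ RecS z (fun n => GG F z n / (Nat.card F : ℝ) ^ n)

/-- **PpNum** (the sequences `RecS`; 120 lines).

Proof. (1) `c k = ∑_{i + j = k} a i * b j`. `c 0 = a 0 * b 0 ≤ 1`.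
`k * c k = ∑_{i + j = k} ((i * a i) * b j + a i * (j * b j)) ≤
z * ∑_{i + j = k} ∑_{i' < i} a i' * b j + w * ∑_{i + j = k} ∑_{j' < j} a i * b j'`, and both double
sums are sums over the pairs with `i' + j < k`: they are `∑_{r < k} c r`. (2) The sums are
nonnegative. (3) Let `h 0 = 1`, `h k = h (k - 1) * (k - 1 + z) / k`. By induction
`k * h k = z * ∑_{i < k} h i`, and by strong induction `a k ≤ h k`. Claim: `h k ≤ (k + 1) ^ (z - 1)`.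
Induction: `h k ≤ k ^ (z - 1) * (1 - x)`, `x = (1 - z) / k ∈ [0, 1]`, and
`(1 - x) * ((k + 1) / k) ^ (1 - z) ≤ (1 - x) * (1 + x) ≤ 1` (`Real.rpow_one_add_le_one_add_mul_self`
for the exponent `1 - z ∈ [0, 1]`), so `k ^ (z - 1) * (1 - x) ≤ (k + 1) ^ (z - 1)`. -/
def StmtPpNum : Prop :=
  (∀ (z w : ℝ) (a b : ℕ → ℝ), 0 ≤ z → 0 ≤ w → RecS z a → RecS w b →
    RecS (z + w) (fun k => ∑ x ∈ Finset.HasAntidiagonal.antidiagonal k, a x.1 * b x.2)) ∧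
  (∀ (z w : ℝ) (a : ℕ → ℝ), z ≤ w → RecS z a → RecS w a) ∧
  ∀ (z : ℝ) (a : ℕ → ℝ), 0 ≤ z → z ≤ 1 → RecS z a → ∀ k : ℕ, a k ≤ ((k : ℝ) + 1) ^ (z - 1)

/-- **PpCv** (convolution powers; 60 lines; uses `StmtPpNum`).

Proof. Induction on `𝓥` (`Finset.cons_induction`, `Finset.piAntidiag_cons`). For `𝓥 = ∅` the sum is
`1` for `m = 0` and `0` otherwise. For `𝓥 = cons i 𝓥'` the sum is
`∑_{(x, y) ∈ antidiagonal m} a x * ∑_{ν ∈ 𝓥'.piAntidiag y} ∏_{w ∈ 𝓥'} a (ν w)`: first claim of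
`StmtPpNum`, with `z` and `|𝓥'| * z`. -/
def StmtPpCv : Prop :=
  ∀ (U : Type) [DecidableEq U] (𝓥 : Finset U) (z : ℝ) (_ : 0 ≤ z) (a : ℕ → ℝ) (_ : RecS z a),
    RecS (𝓥.card * z) (fun m => ∑ ν ∈ 𝓥.piAntidiag m, ∏ w ∈ 𝓥, a (ν w))

/-- **PpSA** (few large degrees; 150 lines; uses `StmtPpNum`, `StmtPpCv`).

Proof. `a k ≤ (k + 1) ^ (1 / N - 1) ≤ 1`. Sort the `ν` by `𝓥 = {w | τ ≤ ν w}` (`|𝓥| < N`) and by the
restriction of `ν` to the complement of `𝓥`, with values `< τ`: at most `2 ^ |U| * (τ + 1) ^ |U|`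
classes. In a class let `m'` be the sum of the `ν w`, `w ∉ 𝓥`: `m' ≤ |U| * τ ≤ n / 2`, and
`m = n - m' ≥ n / 2`. The sum over the class is at most
`∑_{ν ∈ 𝓥.piAntidiag m} ∏_{w ∈ 𝓥} a (ν w) ≤ (m + 1) ^ (|𝓥| / N - 1)` (`StmtPpCv`, `StmtPpNum`), and
`|𝓥| / N - 1 ≤ - 1 / N`, `m + 1 ≥ 1`, `m + 1 ≥ n / 2`. -/
def StmtPpSA : Prop :=
  ∀ (U : Type) [Fintype U] [DecidableEq U] (N : ℕ) (_ : 2 ≤ N) (a : ℕ → ℝ)
    (_ : RecS (1 / N : ℝ) a) (τ n : ℕ) (_ : 1 ≤ n) (_ : 2 * (Fintype.card U * τ) ≤ n),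
    ∑ ν ∈ (Finset.univ.piAntidiag n).filter (fun ν : U → ℕ =>
        (Finset.univ.filter fun w => τ ≤ ν w).card < N), ∏ w, a (ν w) ≤
      (2 * ((τ : ℝ) + 1)) ^ Fintype.card U * ((n : ℝ) / 2) ^ (-(1 / N : ℝ))

/-- **PpSB** (a small factor at one place; 200 lines; uses `StmtPpNum`, `StmtPpCv`).

Proof. `s = 1 / N ∈ (0, 1 / 2]`, `a k ≤ (k + 1) ^ (s - 1) ≤ 1`. Sort by the restriction of `ν` to the
complement of `𝓥` (values `< τ`, at most `(τ + 1) ^ |U|` classes), with sum `m' ≤ |U| * τ ≤ n / 2`;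
`m = n - m' ≥ n / 2`, `m ≥ 1`. The sum over a class is at most
`∑_{j = 1}^m b (m - j) / j`, `j = ν w₀`, where `b` is the sequence of `StmtPpCv` for `𝓥.erase w₀`:
`b k ≤ (k + 1) ^ (- s)`. The part `j ≤ m / 2`: `m - j + 1 ≥ m / 2`, so it is at most
`(m / 2) ^ (- s) * ∑_{j = 1}^m 1 / j ≤ (m / 2) ^ (- s) * (1 + log m)`. The part `j > m / 2`:
`1 / j ≤ 2 / m` and `∑_{i = 1}^M i ^ (- s) ≤ M ^ (1 - s) / (1 - s) ≤ 2 * M ^ (1 - s)` with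
`M = m / 2 + 1 ≤ m` terms (induction on `M`:
`(M + 1) ^ (1 - s) - M ^ (1 - s) ≥ (1 - s) * (M + 1) ^ (- s)`), so it is at most
`(2 / m) * 2 * m ^ (1 - s) = 4 * m ^ (- s) ≤ 4 * (m / 2) ^ (- s)`. Finally `m / 2 ≥ n / 4`,
`m ≤ n`. -/
def StmtPpSB : Prop :=
  ∀ (U : Type) [Fintype U] [DecidableEq U] (N : ℕ) (_ : 2 ≤ N) (a : ℕ → ℝ)
    (_ : RecS (1 / N : ℝ) a) (τ n : ℕ) (_ : 1 ≤ n) (_ : 1 ≤ τ)
    (_ : 2 * (Fintype.card U * τ) ≤ n) (𝓥 : Finset U) (w₀ : U) (_ : w₀ ∈ 𝓥) (_ : 𝓥.card = N),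
    ∑ ν ∈ (Finset.univ.piAntidiag n).filter (fun ν : U → ℕ => ∀ w, (τ ≤ ν w ↔ w ∈ 𝓥)),
        (∏ w ∈ Finset.univ.erase w₀, a (ν w)) / (ν w₀ : ℝ) ≤
      ((τ : ℝ) + 1) ^ Fintype.card U * (((n : ℝ) / 4) ^ (-(1 / N : ℝ)) * (6 + Real.log n))

/-- **PpLim** (40 lines).

Proof. `Nat.log 2 (n + 2) + 1 ≤ 2 * log (n + 2) + 1`, and `log x ^ K = o(x ^ s)`
(`isLittleO_log_rpow_rpow_atTop` or `isLittleO_log_rpow_atTop` for `s / (K + 1)`). -/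
def StmtPpLim : Prop :=
  ∀ (K : ℕ) (s ε : ℝ) (_ : 0 < s) (_ : 0 < ε), ∃ n₀ : ℕ, ∀ n : ℕ, n₀ ≤ n →
    ((Nat.log 2 (n + 2) : ℝ) + 1) ^ K * (n : ℝ) ^ (-s) ≤ ε

/-! ### Character sums -/

/-- **PpRoot** (inverse zeros; 250 lines).

Proof. Let `p = ∑_{n < D} L n * X ^ n ∈ ℂ[X]`, `p.coeff 0 = 1`, `e = p.natDegree < D`. The reverse
polynomial is monic of degree `e` and splits: `p.reverse = ∏ (X - α i)`, so `p = ∏ (1 - α i X)`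
(alternative: prove by induction on the degree that every `p ∈ ℂ[X]` with `p.coeff 0 = 1` is such a
product, with a root `u₀ ≠ 0` and `α = 1 / u₀`). Put `ψ' k = - ∑ i, α i ^ k`. Then
`n * L n = ∑_{k = 1}^n ψ' k * L (n - k)`: in `ℂ⟦X⟧`, `X * p' = Ψ' * p` with `Ψ' = ∑_{k ≥ 1} ψ' k X ^ k`,
by induction on the number of factors (Leibniz rule; for `1 - α X`:
`- α X = - (∑_{k ≥ 1} α ^ k X ^ k) * (1 - α X)`). As `L 0 = 1`, the recursion determines `ψ k` by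
strong induction: `ψ k = ψ' k` for `k ≥ 1`. The bound: let `ρ = ‖α i₀‖` be maximal and suppose
`ρ > q`. For `K ≥ 1`: `∑_{k = 1}^K ψ k * (α i₀)⁻¹ ^ k = - ∑_i ∑_{k = 1}^K (α i / α i₀) ^ k`. The left
side is bounded by `∑ (q / ρ) ^ k ≤ q / (ρ - q)`. On the right side the terms with `α i = α i₀` give
`- c * K`, `c ≥ 1`, and for `z = α i / α i₀ ≠ 1`, `‖z‖ ≤ 1`, the inner sum
`z * (z ^ K - 1) / (z - 1)` is bounded by `2 / ‖z - 1‖`. This is a contradiction for large `K`. -/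
def StmtPpRoot : Prop :=
  ∀ (q : ℝ) (_ : 0 < q) (L ψ : ℕ → ℂ) (D : ℕ) (_ : L 0 = 1) (_ : ∀ n, D ≤ n → L n = 0)
    (_ : ∀ n : ℕ, (n : ℂ) * L n = ∑ k ∈ Finset.Icc 1 n, ψ k * L (n - k))
    (_ : ∀ k, 1 ≤ k → ‖ψ k‖ ≤ q ^ k),
    ∃ (e : ℕ) (α : Fin e → ℂ), e + 1 ≤ D ∧ (∀ i, ‖α i‖ ≤ q) ∧
      ∀ k, 1 ≤ k → ψ k = -∑ i, α i ^ k

/-- **PpZer** (zero-free region; 250 lines; uses `StmtSuPsi`, `StmtPpRoot`).

Proof. `avC φ 0 = φ 1 = 1`, so `D ≥ 1`. `φ` and `φ ^ 2` satisfy `IsChL ℓ`, and `1, 2 < ℓ`. By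
`StmtSuPsi` (claims 1 and 3) and `StmtPpRoot`: `psiC φ k = - ∑_{i < e} α i ^ k`,
`psiC (φ ^ 2) k = - ∑_{i < e'} β i ^ k` for `k ≥ 1`, with `e, e' ≤ D - 1`, `‖α i‖, ‖β i‖ ≤ q`.
(i) For `k ≥ 1` and `‖ω‖ = 1`:
`0 ≤ 3 * q ^ k + 4 * Re (ω ^ k * psiC φ k) + Re (ω ^ (2 * k) * psiC (φ ^ 2) k)`, because
`q ^ k = psiC 1 k` and the right side is the sum over `d ∣ k`, `P ∈ irr F d` of
`d * (3 + 4 Re z + Re z ^ 2)` with `z = ω ^ k * φ P ^ (k / d)`; if `z = 0` this is `3 * d`, and if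
`‖z‖ = 1` it is `d * 2 * (1 + Re z) ^ 2`.
(ii) Claim: `‖α i₀‖ ≤ q * (1 - 1 / (37 D))`. Let `α i₀ ≠ 0`, `u = ‖α i₀‖ / q ≤ 1`,
`ω = ‖α i₀‖ / α i₀`, `r = 1 - 1 / (7 D)`. Multiply (i) by `(r / q) ^ k` and sum over `k ≥ 1`
(absolutely convergent geometric series): with `w i = ω * α i / q`, `v i = ω ^ 2 * β i / q` in the
closed unit disc, `0 ≤ 3 r / (1 - r) - 4 ∑ i, Re (r w i / (1 - r w i)) - ∑ i, Re (r v i / (1 - r v i))`.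
For `‖w‖ ≤ 1`, `Re (r w / (1 - r w)) ≥ - 1 / 2` (as `Re ((1 + z) / (1 - z)) ≥ 0` for `‖z‖ < 1`), and
`w i₀ = u`. So `4 r u / (1 - r u) ≤ 3 r / (1 - r) + 2 (D - 2) + (D - 1) / 2`, i.e.
`4 / (1 - r u) ≤ 3 / (1 - r) + 5 D / 2 - 3.5 ≤ (21 + 5 / 2) D = 47 D / 2`, so `1 - r u ≥ 8 / (47 D)`.
As `1 - r u ≤ (1 - r) + (1 - u)`, `1 - u ≥ (8 / 47 - 1 / 7) / D = 9 / (329 D) ≥ 1 / (37 D)`.
(iii) `∑_{k = 1}^J ‖psiC φ k‖ / q ^ k ≤ ∑_i ∑_{k ≥ 1} (1 - 1 / (37 D)) ^ k ≤ (D - 1) * 37 D`. -/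
def StmtPpZer : Prop :=
  ∀ (F : Type u) [Field F] [Finite F] (ℓ : ℕ) (_ : ℓ.Prime) (_ : ℓ ≠ 2) (φ : F[X] → ℂ)
    (_ : IsChL ℓ φ) (D : ℕ)
    (_ : ∀ j, 1 ≤ j → j < ℓ → ∀ n, D ≤ n → avC (fun h => φ h ^ j) n = 0) (J : ℕ),
    ∑ k ∈ Finset.Icc 1 J, ‖psiC φ k‖ / (Nat.card F : ℝ) ^ k ≤ 40 * (D : ℝ) ^ 2

open Classical in
/-- **PpIn** (the inner sum; 250 lines; uses `StmtSuPsi`, `StmtPpRec`, `StmtPpNum`).

Proof. Let `S` be the sum. As in `StmtPpRec`: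
`k * S = ∑_{j = 1}^k ∑_{t' ∈ ps F (k - j), Disjoint t' R} z ^ (|t'| + 1) * ∏_{P ∈ t'} φ P *
(j * ∑_{P ∈ irr F j, P ∉ R, P ∉ t'} φ P)`. The last factor has norm at most
`‖j * ∑_{P ∈ irr F j} φ P‖ + j * |irr F j ∩ (R ∪ t')|` (`‖φ P‖ ≤ 1`). Here
`j * ∑_{P ∈ irr F j} φ P = psiC φ j - ∑_{d ∣ j, d < j} ∑_{P ∈ irr F d} d * φ P ^ (j / d)`, of norm
at most `‖psiC φ j‖ + ∑_{d ≤ j / 2} q ^ d ≤ ‖psiC φ j‖ + 2 * q ^ (j / 2)` (`d * |irr F d| ≤ q ^ d`),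
and `j * |irr F j ∩ (R ∪ t')| ≤ min (q ^ j) m` (the total degree of `R ∪ t'` is at most `m`). Also
`∑_{t' ∈ ps F (k - j)} z ^ |t'| ≤ q ^ (k - j)` (`StmtPpRec`, `StmtPpNum` with
`z ≤ 1`: `(k + 1) ^ (z - 1) ≤ 1`). So
`k * ‖S‖ ≤ q ^ k * ∑_{j = 1}^k (‖psiC φ j‖ / q ^ j + 2 * q ^ (j / 2) / q ^ j + min 1 (m / q ^ j))`.
The first sum is at most `Y`, the second at most `∑ 2 / 2 ^ j ≤ 2`
(`q ^ (j - j / 2) ≥ 2 ^ j`); the third: with `L = Nat.log 2 (m + 2)` the terms `j ≤ L` give at most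
`L`, and for `j > L`: `m / q ^ j ≤ 2 ^ (L + 1) / 4 ^ j ≤ 1 / 2 ^ j`, so at most `L + 1`. Total
`Y + 3 + L ≤ 4 (Y + L)`. -/
def StmtPpIn : Prop :=
  ∀ (F : Type u) [Field F] [Finite F] (ℓ : ℕ) (_ : ℓ.Prime) (_ : 4 ≤ Nat.card F)
    (φ : F[X] → ℂ) (_ : IsChL ℓ φ) (Y : ℝ) (_ : 1 ≤ Y)
    (_ : ∀ J, ∑ k ∈ Finset.Icc 1 J, ‖psiC φ k‖ / (Nat.card F : ℝ) ^ k ≤ Y)
    (z : ℝ) (_ : 0 ≤ z) (_ : z ≤ 1) (R : Finset F[X]) (k m : ℕ) (_ : 1 ≤ k)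
    (_ : k + ∑ P ∈ R, P.natDegree ≤ m),
    ‖∑ t ∈ (ps F k).filter (fun t => Disjoint t R), (z : ℂ) ^ t.card * ∏ P ∈ t, φ P‖ ≤
      4 * (Nat.card F : ℝ) ^ k * (Y + (Nat.log 2 (m + 2) : ℝ)) / k

/-! ### The large sieve -/

/-- **PpCmp** (orthogonality; 150 lines; model: SuZero.lean, import it for `suzero_lgc_mul`,
`suzero_lgc_congr`, `suzero_exists`).

Proof. Let `ξ G` be the summand and `f = ∏_{P ∈ s ∪ s'} P`, of degree `≤ 2 * a ≤ n`. `ξ` is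
multiplicative and depends only on `G` modulo `f`. `s ≠ s'` have the same total degree, so
neither contains the other properly, and there is `P₀ ∈ s`, `P₀ ∉ s'`. Choose `g` with
`lgc χ κ P₀ g = stdAddChar κ` (`suzero_exists`) and `g ≡ 1` modulo the other primes of `s ∪ s'`
(Chinese remainder theorem). Then `ξ g = stdAddChar κ ≠ 1` (for `P ∈ s ∪ s'`, `P ≠ P₀`, the factors
are `lgc χ _ P 1 = 1`), and `S = ξ g * S` for the sum `S`, because `G ↦ g * G` permutes the residue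
classes modulo `f` prime to `f` (`ξ` is `0` on the others) and every class modulo `f` contains the
same number of elements of `mon F n`. -/
def StmtPpCmp : Prop :=
  ∀ (F : Type u) [Field F] [Finite F] (ℓ : ℕ) [NeZero ℓ] (_ : ℓ.Prime) (_ : ℓ ∣ Nat.card F - 1)
    (χ : F → ZMod ℓ) (_ : IsLg ℓ χ) (κ : ZMod ℓ) (_ : κ ≠ 0) (a n : ℕ) (s s' : Finset F[X])
    (_ : s ∈ ps F a) (_ : s' ∈ ps F a) (_ : s ≠ s') (_ : 2 * a ≤ n),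
    ∑ G ∈ mon F n, (∏ P ∈ s, lgc χ κ P G) * ∏ P ∈ s', lgc χ (-κ) P G = 0

open Classical in
/-- **PpEn** (multiplicative energy; 120 lines; uses `StmtTwMon`).

Proof. For `g₁ g₂ = g₃ g₄`, all monic of degree `a`, let `d = gcd (g₁, g₃)` be the monic gcd, of
degree `k ≤ a`, `g₁ = d h₁`, `g₃ = d h₃`, `h₁` and `h₃` coprime. `h₁ g₂ = h₃ g₄`, so `g₂ = h₃ e`,
`g₄ = h₁ e`, `e` monic of degree `a - (a - k) = k`. So the quadruple is determined by `k ≤ a`,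
`d, e ∈ mon F k`, `h₁, h₃ ∈ mon F (a - k)`: at most
`∑_{k ≤ a} q ^ (k + k + (a - k) + (a - k)) = (a + 1) q ^ (2 a)` (`StmtTwMon`). -/
def StmtPpEn : Prop :=
  ∀ (F : Type u) [Field F] [Finite F] (a : ℕ),
    (((mon F a ×ˢ mon F a) ×ˢ (mon F a ×ˢ mon F a)).filter
      (fun x => x.1.1 * x.1.2 = x.2.1 * x.2.2)).card ≤ (a + 1) * Nat.card F ^ (2 * a)

open Classical in
/-- **PpBil** (bilinear sums; 300 lines; uses `StmtSuSy`, `StmtTwMon`, `StmtPpCmp`, `StmtPpEn`).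

Proof. By `Rcp χ`, `sys χ x y = sys χ y x` for disjoint `x ∈ ps F a`, `y ∈ ps F b`; so we may
assume `a ≤ b`. Let `ξ x H = ∏_{P ∈ x} lgc χ κ P H`, multiplicative in `H`, of norm `≤ 1`. For
`y ∈ ps F b` and `H = ∏_{Q ∈ y} Q ∈ mon F b`: `ξ x H` is `stdAddChar (κ * sys χ x y)` if `x`, `y` are
disjoint and `0` otherwise (`StmtSuSy`: `syl χ P Q = χ (nm P Q)` for `P ∤ Q`; `χ (nm P ·)` is
additive). So the sum is `Σ = ∑_x f x * S x`, `S x = ∑_y g y * ξ x (∏ y)`. The map `y ↦ ∏ y` is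
injective from `ps F b` to `mon F b` (unique factorization), so `|ps F b| ≤ q ^ b`, the same for
`a`. Cauchy-Schwarz twice (`sq_sum_le_card_mul_sum_sq`):
`‖Σ‖ ^ 4 ≤ (∑_x ‖S x‖) ^ 4 ≤ (q ^ a) ^ 3 * ∑_x ‖S x‖ ^ 4`. Now
`S x ^ 2 = ∑_{G ∈ mon F (2 b)} A G * ξ x G`, `A G = ∑_{y, y', ∏ y * ∏ y' = G} g y * g y'`. Duality: with `T x = S x ^ 2` and `c x = conj (T x)`,
`∑_x ‖T x‖ ^ 2 = ∑_x c x * T x = ∑_G A G * (∑_x c x * ξ x G)`, so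
`(∑_x ‖T x‖ ^ 2) ^ 2 ≤ (∑_G ‖A G‖ ^ 2) * ∑_G ‖∑_x c x * ξ x G‖ ^ 2`, and the last sum is
`∑_{x, x'} c x * conj (c x') * ∑_{G ∈ mon F (2 b)} ξ x G * conj (ξ x' G)`, where
`conj (lgc χ κ P G) = lgc χ (-κ) P G`: the terms with `x ≠ x'` vanish by `StmtPpCmp` (`2 a ≤ 2 b`), so
it is at most `q ^ (2 b) * ∑_x ‖T x‖ ^ 2`. Hence `∑_x ‖T x‖ ^ 2 ≤ q ^ (2 b) * ∑_G ‖A G‖ ^ 2`, and
`∑_G ‖A G‖ ^ 2` is at most the number of quadruples `(y₁, y₂, y₃, y₄)` with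
`∏ y₁ * ∏ y₂ = ∏ y₃ * ∏ y₄`, at most `(b + 1) q ^ (2 b)` by `StmtPpEn`. Total
`‖Σ‖ ^ 4 ≤ q ^ (3 a) * q ^ (4 b) * (b + 1)`, and `3 a + 4 b = 4 (a + b) - min a b`. -/
def StmtPpBil : Prop :=
  ∀ (F : Type u) [Field F] [Finite F] (ℓ : ℕ) [NeZero ℓ] (_ : ℓ.Prime)
    (_ : ℓ ∣ Nat.card F - 1) (χ : F → ZMod ℓ) (_ : IsLg ℓ χ) (_ : Rcp χ) (κ : ZMod ℓ) (_ : κ ≠ 0) (a b : ℕ)
    (f g : Finset F[X] → ℂ) (_ : ∀ t, ‖f t‖ ≤ 1) (_ : ∀ t, ‖g t‖ ≤ 1),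
    ‖∑ x ∈ ps F a, ∑ y ∈ ps F b, if Disjoint x y then
        f x * g y * ZMod.stdAddChar (κ * sys χ x y) else 0‖ ^ 4 ≤
      (Nat.card F : ℝ) ^ (4 * (a + b) - min a b) * ((max a b : ℕ) + 1)

/-! ### The pieces of the sum -/

/-- **PpTri** (the trivial bound; 60 lines).

Proof. `‖chc ..‖ ≤ 1`, so `‖wgt .. p‖ ≤ ∏ w, (1 / N) ^ |p w|`; sum over `p`
(`Finset.prod_univ_sum`). -/
def StmtPpTri : Prop :=
  ∀ (F : Type u) [Field F] [Finite F] (ℓ : ℕ) [NeZero ℓ] (χ : F → ZMod ℓ) (V U : Type)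
    [Fintype V] [Fintype U] [DecidableEq U] (pr : V → F[X]) (α : V → U → ZMod ℓ)
    (αi : U → ZMod ℓ) (B : U → U → ZMod ℓ) (N : ℕ) (ν : U → ℕ),
    ‖Tnu χ pr α αi B N ν‖ ≤ ∏ w, GG F (1 / N : ℝ) (ν w)

/-- **PpLin** (a linked pair of colours; 200 lines; uses `StmtPpRec`, `StmtPpNum`, `StmtPpBil`).

Proof. `w ≠ w'` by the diagonal condition. Let `κ = B w w' + B w' w`. Apply `sum_pi_split` twice
(at `w` and `w'`): `Tnu = ∑_p ∑_{x ∈ ps F (ν w)} ∑_{y ∈ ps F (ν w')} wgt (p; x, y)` over the `p`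
with `p w = p w' = ∅`, the other `p w''` in `ps F (ν w'')`. For fixed `p` (pairwise disjoint, otherwise
everything is `0`) `wgt (p; x, y)` is
`K p * [x, y disjoint] * f x * g y * stdAddChar (κ * sys χ x y)`, where `K p` contains the factors
independent of `x`, `y`, and `f x` contains the factors depending on `x` only: the condition that `x`
is disjoint from the `p w''`, `∏_{P ∈ x} N⁻¹ * chc .. w P`, and
`stdAddChar (∑_{w''} (B w w'' * sys χ x (p w'') + B w'' w * sys χ (p w'') x))` (`w'' ≠ w, w'`); the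
same for `g y`; the terms `B w w * sys χ x x` vanish; `sys χ y x = sys χ x y` (`Rcp χ`, disjoint
sets). All norms are `≤ 1`. By `StmtPpBil` and `|ps F k| = GG F 1 k ≤ q ^ k` (`StmtPpRec`,
`StmtPpNum` for `z = 1`): `‖Tnu‖ ≤ q ^ (∑_{w'' ≠ w, w'} ν w'') * X` with
`X ^ 4 = q ^ (4 (a + b) - min a b) * (max a b + 1)`, `a = ν w`, `b = ν w'`. -/
def StmtPpLin : Prop :=
  ∀ (F : Type u) [Field F] [Finite F] (ℓ : ℕ) [NeZero ℓ] (_ : ℓ.Prime)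
    (_ : ℓ ∣ Nat.card F - 1) (χ : F → ZMod ℓ) (_ : IsLg ℓ χ) (_ : Rcp χ) (V U : Type)
    [Fintype V] [Fintype U] [DecidableEq U] (pr : V → F[X]) (α : V → U → ZMod ℓ)
    (αi : U → ZMod ℓ) (B : U → U → ZMod ℓ) (N : ℕ) (_ : 1 ≤ N) (_ : ∀ w, B w w = 0)
    (ν : U → ℕ) (w w' : U) (_ : B w w' + B w' w ≠ 0),
    ‖Tnu χ pr α αi B N ν‖ ^ 4 ≤
      (Nat.card F : ℝ) ^ (4 * ∑ x, ν x - min (ν w) (ν w')) * ((∑ x, ν x : ℕ) + 1)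

/-- **PpInn** (a nontrivial character; 300 lines; uses `StmtSuSy`, `StmtSuZero`, `StmtPpZer`,
`StmtPpIn`).

Proof. (`StmtSuZero` needs an index type in `Type`: number the primes of the `p w` by a `Fin k`.)
Apply `sum_pi_split` at `w₀`: `Tnu = ∑_p ∑_{x ∈ ps F (ν w₀)} wgt (p; x)` over the `p` with
`p w₀ = ∅`. Fix `p`. If the `p w` are not pairwise disjoint, or some `P ∈ p w`, `w ≠ w₀`, is one of the
`pr v`, then `wgt (p; x) = 0` for all `x` (`chc .. = 0`). Otherwise let `R` be the union of the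
`p w` and of the `pr v` and `c w = B w₀ w + B w w₀`. For `x` disjoint from `R`,
`wgt (p; x) = K p * z ^ |x| * ∏_{P ∈ x} φ P`, `z = 1 / N`, where `‖K p‖ ≤ ∏_{w ≠ w₀} z ^ |p w|` and
`φ h = stdAddChar (αi w₀) ^ deg h * ∏_{v, α v w₀ ≠ 0} lgc χ (α v w₀) (pr v) h *
∏_{w, c w ≠ 0} ∏_{Q ∈ p w} lgc χ (c w) Q h`: for `P ∈ x`,
`chc .. w₀ P = stdAddChar (∑_v α v w₀ * syl χ (pr v) P + αi w₀ * deg P)` and the pairs with `P` give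
`∑_w ∑_{Q ∈ p w} (B w₀ w * syl χ P Q + B w w₀ * syl χ Q P) = ∑_w c w * ∑_Q syl χ Q P` (`Rcp χ`),
and `stdAddChar (s * syl χ Q P) = lgc χ s Q P` (`StmtSuSy`). If `x` is not disjoint from `R` then
`wgt (p; x) = 0`. `φ` satisfies `IsChL ℓ`. The powers `φ ^ j`, `1 ≤ j < ℓ`, are of the same form
with `j * αi w₀`, `j * α v w₀ ≠ 0`, `j * c w ≠ 0`, and the family of the primes `pr v`, `α v w₀ ≠ 0`,
and `Q ∈ p w`, `c w ≠ 0`, is injective and nonempty by the last hypothesis (`ν w ≥ 1` implies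
`p w ≠ ∅`), of total degree `≤ ∑_v deg (pr v) + |U| * τ < D`, `D = ∑_v deg (pr v) + |U| * τ + 1`
(`c w ≠ 0` implies `ν w ≤ τ`). So `avC (φ ^ j) n = 0` for `n ≥ D` (`StmtSuZero`; the factor
`stdAddChar (αi w₀) ^ (j n)` is constant on `mon F n`). `StmtPpZer` gives `Y = 40 D ^ 2` in `StmtPpIn`
(`q ≥ 4`, `D ≥ 1`), and `StmtPpIn` with `m = ∑_v deg (pr v) + ∑_w ν w` bounds the sum over `x`
(`4 (40 D ^ 2 + L) ≤ 160 (D ^ 2 + L)`). Then sum `‖K p‖` over `p`. -/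
def StmtPpInn : Prop :=
  ∀ (F : Type u) [Field F] [Finite F] (ℓ : ℕ) [NeZero ℓ] (_ : ℓ.Prime) (_ : ℓ ≠ 2)
    (_ : ℓ ∣ Nat.card F - 1) (χ : F → ZMod ℓ) (_ : IsLg ℓ χ) (_ : Rcp χ) (V U : Type)
    [Fintype V] [Fintype U] [DecidableEq U] (pr : V → F[X]) (_ : Fam pr) (α : V → U → ZMod ℓ)
    (αi : U → ZMod ℓ) (B : U → U → ZMod ℓ) (N : ℕ) (_ : 1 ≤ N) (_ : ∀ w, B w w = 0)
    (ν : U → ℕ) (w₀ : U) (τ : ℕ) (_ : 1 ≤ ν w₀) (_ : ∀ w, B w₀ w + B w w₀ ≠ 0 → ν w ≤ τ)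
    (_ : (∃ v, α v w₀ ≠ 0) ∨ ∃ w, B w₀ w + B w w₀ ≠ 0 ∧ 1 ≤ ν w),
    ‖Tnu χ pr α αi B N ν‖ ≤ (∏ w ∈ Finset.univ.erase w₀, GG F (1 / N : ℝ) (ν w)) *
      (160 * (Nat.card F : ℝ) ^ ν w₀ *
        (((∑ v, (pr v).natDegree + Fintype.card U * τ + 1 : ℕ) : ℝ) ^ 2 +
          (Nat.log 2 (∑ v, (pr v).natDegree + ∑ w, ν w + 2) : ℝ)) / (ν w₀ : ℝ))

open Classical in
/-- **PpCol** (sums over colourings; 150 lines).

Proof. First claim: `(t, g) ↦ p = fib t g` is a bijection from the pairs with `t ∈ gs F pr n`,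
`g : t → U` to the families `p : U → Finset F[X]` of pairwise disjoint finite sets of MI polynomials
different from the `pr v` of total degree `n` (inverse: `t = ⋃ w, p w`, `g P = w` for `P ∈ p w`), and
these are the terms of the right side, sorted by `ν w = ∑_{P ∈ p w} deg P`. Second claim: the first
claim for `Φ = wgt`, which is `0` if the `p w` are not pairwise disjoint or some `P ∈ p w` is one of
the `pr v` (`chc = 0`). -/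
def StmtPpCol : Prop :=
  (∀ (F : Type u) [Field F] [Finite F] (V U : Type) [Fintype U] [DecidableEq U]
    (pr : V → F[X]) (n : ℕ) (Φ : (U → Finset F[X]) → ℂ),
    ∑ t ∈ gs F pr n, ∑ g : t → U, Φ (fib t g) =
      ∑ ν ∈ (Finset.univ : Finset U).piAntidiag n,
        ∑ p ∈ Fintype.piFinset (fun w => ps F (ν w)),
          if (∀ w w', w ≠ w' → Disjoint (p w) (p w')) ∧ ∀ w, ∀ P ∈ p w, ∀ v, pr v ≠ P
            then Φ p else 0) ∧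
  ∀ (F : Type u) [Field F] [Finite F] (ℓ : ℕ) [NeZero ℓ] (χ : F → ZMod ℓ) (V U : Type)
    [Fintype V] [Fintype U] [DecidableEq U] (pr : V → F[X]) (α : V → U → ZMod ℓ)
    (αi : U → ZMod ℓ) (B : U → U → ZMod ℓ) (N n : ℕ),
    ∑ t ∈ gs F pr n, ∑ g : t → U, wgt χ pr α αi B N (fib t g) = TT χ pr α αi B N n

open Classical in
/-- **PpFul** (the sum over an unlinked set of colours; 120 lines; uses `StmtPpCol`).

Proof. Apply `StmtPpCol` (first claim) to `Φ p = if ∀ w ∉ 𝓥, p w = ∅ then wgt p else 0`. On the right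
side only the `ν` with `ν w = 0` for `w ∉ 𝓥` contribute (then `p w ∈ ps F 0 = {∅}`), and `wgt p = 0`
if the condition on `p` fails: the right side is `∑_{ν ∈ 𝓥.piAntidiag n} Tnu ν`. On the left side
`Φ (fib t g)` is `0` unless `g` has values in `𝓥`, and then
`wgt (fib t g) = ∏_{P ∈ t} N⁻¹ * stdAddChar (αi (g P) * deg P)`: `chc` has `α v w = 0`, and the
phase `∑_{w, w'} B w w' * sys χ (p w) (p w')` vanishes, since `sys` is symmetric on disjoint sets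
(`Rcp χ`), `B w w' = - B w' w` on `𝓥` and `B w w = 0`. Finally
`∑_{g : t → 𝓥} ∏_P F (g P) = ∏_P ∑_{w ∈ 𝓥} F w` (`Finset.prod_univ_sum`). -/
def StmtPpFul : Prop :=
  ∀ (F : Type u) [Field F] [Finite F] (ℓ : ℕ) [NeZero ℓ] (_ : ℓ.Prime)
    (_ : ℓ ∣ Nat.card F - 1) (χ : F → ZMod ℓ) (_ : IsLg ℓ χ) (_ : Rcp χ) (V U : Type)
    [Fintype V] [Fintype U] [DecidableEq U] (pr : V → F[X]) (α : V → U → ZMod ℓ)
    (αi : U → ZMod ℓ) (B : U → U → ZMod ℓ) (N : ℕ) (_ : ∀ w, B w w = 0) (𝓥 : Finset U)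
    (_ : ∀ w ∈ 𝓥, ∀ w' ∈ 𝓥, B w w' + B w' w = 0) (_ : ∀ w ∈ 𝓥, ∀ v, α v w = 0) (n : ℕ),
    ∑ ν ∈ 𝓥.piAntidiag n, Tnu χ pr α αi B N ν =
      ∑ t ∈ gs F pr n, ∏ P ∈ t,
        ((N : ℂ)⁻¹ * ∑ w ∈ 𝓥, ZMod.stdAddChar (αi w * (P.natDegree : ZMod ℓ)))

open Classical in
/-- **PpHal** (nonconstant degree characters; 200 lines; uses `StmtSuPsi`, `StmtPpRec`,
`StmtPpNum`).

Proof. Let `W j = ‖N⁻¹ * ∑_{w ∈ 𝓥} stdAddChar (αi w * j)‖ ≤ 1`, depending on `j` modulo `ℓ`. For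
`ℓ ∤ j` the numbers `stdAddChar (αi w * j)` of norm `1` are not all equal
(`ZMod.injective_stdAddChar`), so `W j < 1` (strict triangle inequality); let `ρ < 1` be the maximum
over the classes `j ≠ 0`. Let `G n = ∑_{t ∈ ps F n} ∏_{P ∈ t} W (deg P)`, `g n = G n / q ^ n`: the sum in
the statement has norm `≤ G n`, and `g n ≤ 1` (`G n ≤ GG F 1 n ≤ q ^ n` by `StmtPpRec`, `StmtPpNum`). As
in `StmtPpRec`: `n * g n ≤ ∑_{j = 1}^n W j * g (n - j)`, from `j * |irr F j| ≤ q ^ j`. Also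
`∑_{j = 1}^n W j ≤ κ n + 1`, `κ = ρ + (1 - ρ) / ℓ < 1` (at most `n / ℓ` multiples of `ℓ`). Let
`κ' = (1 + κ) / 2`. Claim: for every `k` there is `n_k` with `g n ≤ κ' ^ k` for `n ≥ n_k`. `k = 0` is
clear. Step: for `n ≥ n_k`, the terms with `n - j < n_k` give at most `n_k`, so
`n * g n ≤ n_k + κ' ^ k * (κ n + 1) ≤ n * κ' ^ (k + 1)` for large `n`. -/
def StmtPpHal : Prop :=
  ∀ (F : Type u) [Field F] [Finite F] (ℓ : ℕ) [NeZero ℓ] (_ : ℓ.Prime) (V U : Type)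
    (pr : V → F[X]) (αi : U → ZMod ℓ) (N : ℕ) (𝓥 : Finset U) (_ : 𝓥.card = N)
    (_ : ∃ w ∈ 𝓥, ∃ w' ∈ 𝓥, αi w ≠ αi w') (ε : ℝ) (_ : 0 < ε),
    ∃ n₀ : ℕ, ∀ n : ℕ, n₀ ≤ n → ‖∑ t ∈ gs F pr n, ∏ P ∈ t,
      ((N : ℂ)⁻¹ * ∑ w ∈ 𝓥, ZMod.stdAddChar (αi w * (P.natDegree : ZMod ℓ)))‖ ≤
        ε * (Nat.card F : ℝ) ^ n

/-! ### The error terms -/

/-- The threshold. -/
def thr (U : Type) [Fintype U] (n : ℕ) : ℕ :=
  4 * ((Fintype.card U + 2) * (Nat.log 2 (n + 2) + 1))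

open Classical in
/-- **PpEA** (linked pairs of large degree; 100 lines; uses `StmtPpLin`).

Proof. `τ = thr U n`, `2 ^ (Nat.log 2 (n + 2) + 1) > n + 2`, `q ≥ 2`, so
`q ^ τ ≥ (n + 2) ^ (4 (|U| + 2))`. For `ν` in the sum `StmtPpLin` gives
`‖Tnu ν‖ ^ 4 ≤ q ^ (4 n - τ) * (n + 1) ≤ (q ^ n / (n + 2) ^ (|U| + 1)) ^ 4` (as
`min (ν w) (ν w') ≥ τ`, and `(n + 2) ^ (4 (|U| + 2)) ≥ (n + 2) ^ (4 (|U| + 1)) * (n + 1)`). There are at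
most `(n + 1) ^ |U|` functions `ν : U → ℕ` of sum `n`. -/
def StmtPpEA : Prop :=
  ∀ (F : Type u) [Field F] [Finite F] (ℓ : ℕ) [NeZero ℓ] (_ : ℓ.Prime)
    (_ : ℓ ∣ Nat.card F - 1) (χ : F → ZMod ℓ) (_ : IsLg ℓ χ) (_ : Rcp χ) (V U : Type)
    [Fintype V] [Fintype U] [DecidableEq U] (pr : V → F[X]) (α : V → U → ZMod ℓ)
    (αi : U → ZMod ℓ) (B : U → U → ZMod ℓ) (N : ℕ) (_ : 1 ≤ N) (_ : ∀ w, B w w = 0) (n : ℕ),
    ∑ ν ∈ ((Finset.univ : Finset U).piAntidiag n).filter (fun ν : U → ℕ =>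
        ∃ w w', thr U n ≤ ν w ∧ thr U n ≤ ν w' ∧ B w w' + B w' w ≠ 0),
      ‖Tnu χ pr α αi B N ν‖ ≤ (Nat.card F : ℝ) ^ n / ((n : ℝ) + 2)

open Classical in
/-- **PpEB** (a nontrivial character at a large set of colours; 200 lines; uses `StmtPpRec`,
`StmtPpSB`, `StmtPpInn`).

Proof. `τ = thr U n ≥ 1`. Let `ν` be in the sum, i.e. `{w | τ ≤ ν w} = 𝓥`. There is `w₀ ∈ 𝓥` such that
`StmtPpInn` applies: if `α v w₀ ≠ 0` for some `w₀ ∈ 𝓥` and `v`, take this `w₀`; otherwise `ν w ≥ 1` for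
some `w ∉ 𝓥`, and `w` is linked to some `w₀ ∈ 𝓥` (`B w₀ w + B w w₀ ≠ 0`), because otherwise `insert w 𝓥`
would be unlinked with `N + 1` elements, against `Unl.card` (diagonal: `Unl.diag`). Every `w'` linked
to `w₀` is outside of `𝓥`, so `ν w' < τ`; and `ν w₀ ≥ τ ≥ 1`. So `‖Tnu ν‖` is at most the sum over all
`w₀ ∈ 𝓥` of the bound of `StmtPpInn`, and with `a k = GG F (1 / N) k / q ^ k` (`StmtPpRec`) the bound
for `w₀` is `q ^ n * 160 * Y * (∏_{w ≠ w₀} a (ν w)) / ν w₀`,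
`Y = (∑_v deg (pr v) + |U| * τ + 1) ^ 2 + Nat.log 2 (∑_v deg (pr v) + n + 2)`. Sum over `ν`: `StmtPpSB`
for every `w₀ ∈ 𝓥`. -/
def StmtPpEB : Prop :=
  ∀ (F : Type u) [Field F] [Finite F] (ℓ : ℕ) [NeZero ℓ] (_ : ℓ.Prime) (_ : ℓ ≠ 2)
    (_ : ℓ ∣ Nat.card F - 1) (χ : F → ZMod ℓ) (_ : IsLg ℓ χ) (_ : Rcp χ) (V U : Type)
    [Fintype V] [Fintype U] [DecidableEq U] (pr : V → F[X]) (_ : Fam pr) (α : V → U → ZMod ℓ)
    (αi : U → ZMod ℓ) (B : U → U → ZMod ℓ) (N : ℕ) (_ : Unl B N) (n : ℕ) (_ : 1 ≤ n)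
    (_ : 2 * (Fintype.card U * thr U n) ≤ n) (𝓥 : Finset U) (_ : 𝓥.card = N)
    (_ : ∀ w ∈ 𝓥, ∀ w' ∈ 𝓥, B w w' + B w' w = 0),
    ∑ ν ∈ ((Finset.univ : Finset U).piAntidiag n).filter (fun ν : U → ℕ =>
        (∀ w, (thr U n ≤ ν w ↔ w ∈ 𝓥)) ∧
          ((∃ w ∈ 𝓥, ∃ v, α v w ≠ 0) ∨ ∃ w, w ∉ 𝓥 ∧ 1 ≤ ν w)),
      ‖Tnu χ pr α αi B N ν‖ ≤ (Nat.card F : ℝ) ^ n * (N * (160 *
        (((∑ v, (pr v).natDegree + Fintype.card U * thr U n + 1 : ℕ) : ℝ) ^ 2 +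
          (Nat.log 2 (∑ v, (pr v).natDegree + n + 2) : ℝ)) *
        (((thr U n : ℝ) + 1) ^ Fintype.card U *
          (((n : ℝ) / 4) ^ (-(1 / N : ℝ)) * (6 + Real.log n)))))

open Classical in
/-- **PpErr** (all the error terms; 250 lines; uses `StmtPpRec`, `StmtPpSA`, `StmtPpLim`,
`StmtPpTri`, `StmtPpEA`, `StmtPpEB`).

Proof. Let `n` be large, `τ = thr U n`, so `2 * (|U| * τ) ≤ n`, and for `ν` of sum `n` let
`W ν = {w | τ ≤ ν w}`. Sort the `ν` in `TT`: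
(A) `W ν` contains a linked pair: total `≤ q ^ n / (n + 2)` (`StmtPpEA`).
(B) `|W ν| < N`: total `≤ q ^ n * (2 (τ + 1)) ^ |U| * (n / 2) ^ (- 1 / N)`: `StmtPpTri`, and
`∏_w GG F (1 / N) (ν w) = q ^ n * ∏_w a (ν w)` with `a k = GG F (1 / N) k / q ^ k` (`StmtPpRec`),
`StmtPpSA`.
(C) Otherwise `𝓥 = W ν` is unlinked with `N` elements (`Unl.card`). If `α v w ≠ 0` for some `w ∈ 𝓥` or
`ν w ≥ 1` for some `w ∉ 𝓥`: `StmtPpEB`, and there are at most `2 ^ |U|` sets `𝓥`. The remaining `ν`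
are the `ν ∈ 𝓥.piAntidiag n` with `τ ≤ ν w` for all `w ∈ 𝓥`, for the `𝓥` in the sum of the statement.
(D) Conversely the `ν ∈ 𝓥.piAntidiag n` in the sum of the statement with `ν w < τ` for some `w ∈ 𝓥`
satisfy `|W ν| < N`, so their total for every `𝓥` is bounded as in (B).
So the difference is at most `q ^ n` times the sum of `1 / (n + 2)`, `(1 + 2 ^ |U|)` times the bound of
(B), and `2 ^ |U|` times the bound of `StmtPpEB`. With `L = Nat.log 2 (n + 2) + 1` we have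
`τ + 1 ≤ C L`, `Nat.log 2 (D₀ + n + 2) ≤ C L`, `6 + log n ≤ C L`, `(n / 4) ^ (- 1 / N) ≤
4 * n ^ (- 1 / N)` with a constant `C`, so all of this is `≤ C' * L ^ K * n ^ (- 1 / N) + 1 / (n + 2)`
and tends to `0` (`StmtPpLim`). -/
def StmtPpErr : Prop :=
  ∀ (F : Type u) [Field F] [Finite F] (ℓ : ℕ) [NeZero ℓ] (_ : ℓ.Prime) (_ : ℓ ≠ 2)
    (_ : ℓ ∣ Nat.card F - 1) (χ : F → ZMod ℓ) (_ : IsLg ℓ χ) (_ : Rcp χ) (V U : Type)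
    [Fintype V] [Fintype U] [DecidableEq U] (pr : V → F[X]) (_ : Fam pr) (α : V → U → ZMod ℓ)
    (αi : U → ZMod ℓ) (B : U → U → ZMod ℓ) (N : ℕ) (_ : Unl B N) (ε : ℝ) (_ : 0 < ε),
    ∃ n₀ : ℕ, ∀ n : ℕ, n₀ ≤ n → ‖TT χ pr α αi B N n -
      ∑ 𝓥 ∈ (Finset.univ : Finset (Finset U)).filter (fun 𝓥 => 𝓥.card = N ∧
        (∀ w ∈ 𝓥, ∀ w' ∈ 𝓥, B w w' + B w' w = 0) ∧ ∀ w ∈ 𝓥, ∀ v, α v w = 0),
        ∑ ν ∈ 𝓥.piAntidiag n, Tnu χ pr α αi B N ν‖ ≤ ε * (Nat.card F : ℝ) ^ n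

open Classical in
/-- **PpAn** (the asymptotic formula; 100 lines; uses `StmtPpErr`, `StmtPpFul`, `StmtPpHal`).

Proof. `StmtPpErr` and, for every `𝓥` in its sum, `StmtPpFul`. If `αi` is not constant on `𝓥`:
`StmtPpHal`. If `αi = κ` on `𝓥` (`Adm`), then the factor of `P` is `stdAddChar (κ * deg P)`
(`|𝓥| = N ≥ 2`), and the product over `t ∈ gs F pr n` is `stdAddChar (κ * n)`, which is also
`N⁻¹ * ∑_{w ∈ 𝓥} stdAddChar (αi w * n)`. There are at most `2 ^ |U|` sets `𝓥`. -/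
def StmtPpAn : Prop :=
  ∀ (F : Type u) [Field F] [Finite F] (ℓ : ℕ) [NeZero ℓ] (_ : ℓ.Prime) (_ : ℓ ≠ 2)
    (_ : ℓ ∣ Nat.card F - 1) (χ : F → ZMod ℓ) (_ : IsLg ℓ χ) (_ : Rcp χ) (V U : Type)
    [Fintype V] [Fintype U] [DecidableEq U] (pr : V → F[X]) (_ : Fam pr) (α : V → U → ZMod ℓ)
    (αi : U → ZMod ℓ) (B : U → U → ZMod ℓ) (N : ℕ) (_ : Unl B N) (ε : ℝ) (_ : 0 < ε),
    ∃ n₀ : ℕ, ∀ n : ℕ, n₀ ≤ n → ‖TT χ pr α αi B N n -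
      (∑ 𝓥 ∈ (Finset.univ : Finset (Finset U)).filter (Adm B N α αi),
        (N : ℂ)⁻¹ * ∑ w ∈ 𝓥, ZMod.stdAddChar (αi w * (n : ZMod ℓ))) * ((gs F pr n).card : ℂ)‖ ≤
      ε * (Nat.card F : ℝ) ^ n

end MP72e2e6
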