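import Pool.Agent.Lib.MP_72e2e6_nt.PpStmt

/-!
# MP_72e2e6_nt: positive proportion of twists, statements of the modules (algebraic part)

See PpStmt.lean for the conventions. `N = |W|`; the dual of `W` also has `N` elements.
-/

namespace MP72e2e6

open Polynomial IsDedekindDomain

universe u

/-! ### Unlinked sets and the main term -/

/-- **PpTS** (unlinked sets are parts of totally singular subspaces; 200 lines).

Proof. Let `Q u = u.2 u.1`. `BW w w' + BW w' w = - Q (w - w')`. Let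
`b x y = x.2 y.1 + y.2 x.1 = Q (x + y) - Q x - Q y = Q x + Q y - Q (x - y)`. (i) If `L` is a submodule
with `Q = 0` on `L`, then `b = 0` on `L × L`, and `|L| ≤ |W|`: let `A = pr₁ L`; the kernel of `L → A` is
`{(0, e) ∈ L}`, and `0 = b (0, e) x = e x.1` for `x ∈ L`, so it embeds in the annihilator of `A`, and
`|A| * |dualAnnihilator A| = |W|` (`Subspace.finrank_add_finrank_dualAnnihilator_eq` or similar).
(ii) Let `u₀ ∈ 𝓥` (if `𝓥` is empty nothing is to be shown in the first claim), `S = {u - u₀ | u ∈ 𝓥}`,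
`0 ∈ S`. `Q = 0` on `S` and `b x y = Q x + Q y - Q (x - y) = 0` for `x, y ∈ S`. By `span_induction`
`b = 0` on `span S × span S`, and then `Q = 0` on `span S`. So `|𝓥| = |S| ≤ |span S| ≤ |W|`. (iii) If
`|𝓥| = |W|`, then `S = span S =: L`. If `e x.1 = 0` for all `x ∈ L`, then
`Q (x + t (0, e)) = Q x + t * e x.1 = 0`, so `|L ⊔ span {(0, e)}| ≤ |W| = |L|` by (i), and
`(0, e) ∈ L`. -/
def StmtPpTS : Prop :=
  ∀ (ℓ : ℕ) [Fact ℓ.Prime] (W : Type) [AddCommGroup W] [Module (ZMod ℓ) W] [Finite W]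
    (𝓥 : Finset (W × Module.Dual (ZMod ℓ) W))
    (_ : ∀ w ∈ 𝓥, ∀ w' ∈ 𝓥, BW w w' + BW w' w = 0),
    𝓥.card ≤ Nat.card W ∧
    (𝓥.card = Nat.card W → ∀ u₀ ∈ 𝓥,
      ∃ L : Submodule (ZMod ℓ) (W × Module.Dual (ZMod ℓ) W), (∀ u, u ∈ 𝓥 ↔ u - u₀ ∈ L) ∧
        (∀ x ∈ L, x.2 x.1 = 0) ∧
        ∀ e : Module.Dual (ZMod ℓ) W, (∀ x ∈ L, e x.1 = 0) → ((0 : W), e) ∈ L)

open Classical in
/-- **PpMT** (the main term; 400 lines; uses `StmtPpTS`).

Proof. `N = |W|`, `ψ = stdAddChar`. Let `(c, d, η)` and `𝓥` be given with `Adm`, `u₀ = (c₀, d₀) ∈ 𝓥`,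
`L` from `StmtPpTS`, `A = pr₁ L ≤ W`. (i) `A` is invariant: let `e` vanish on `A`. For `x ∈ L`,
`u = u₀ + x` and `u + (0, e)` are in `𝓥`, so `0 = alW v (u + (0, e)) - alW v u = e (σ v (c v - c₀ - x.1))`
and `0 = aiW (u + (0, e)) - aiW u = - e (Λ (c₀ + x.1))`. So (a subspace of a finite space is the
common kernel of its annihilator) `σ v (c v - c₀ - y) ∈ A` and `Λ (c₀ + y) ∈ A` for all `y ∈ A`;
subtract the case `y = 0`: `σ v y ∈ A`, `Λ y ∈ A`. By `IrrW`, `A = ⊥` or `A = ⊤`.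
(ii) Case `A = ⊥`: `L = {(0, e)}`, so `𝓥 = {(c₀, e) | e}`. By (i) `σ v (c v - c₀) = 0`, so `c v = c₀`
for all `v`, and `Λ c₀ = 0`; `aiW = η c₀` on `𝓥`. `thW = η (∑ v, deg (pr v) • σ v c₀)`. Conversely for
every `c₀` with `Λ c₀ = 0`, `c v = c₀`, and all `d`, `η` this `𝓥` is `Adm`. So the part of the sum with
`A = ⊥` (i.e. the `𝓥` on which the first coordinate is constant) is
`∑_{c₀, Λ c₀ = 0} ∑_d ∑_η ψ (η (∑ v, deg (pr v) • σ v c₀ + n • c₀))`, and the sum over `η` is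
`N * [∑ v, deg (pr v) • σ v c₀ + n • c₀ = 0] = N * [c₀ = 0]` by `InfW` (a nonzero vector has a
functional with value `1`): it is `N ^ (|V| + 1)`.
(iii) Case `A = ⊤`: `|L| = N = |W|`, so `L = {(x, g x)}` for a linear `g : W → Dual W`, with
`g x x = 0`, and `𝓥 = {(x, d₀ + g x) | x ∈ W}` for a unique `d₀`. `alW v = 0` at `x = c v + y` says
`d v y - (d₀ + g (c v)) (σ v y) = g y (σ v y)` for all `y`: the left side is odd in `y`, the right side
is even, `ℓ ≠ 2`, so both are `0`: `d v = (d₀ + g (c v)) ∘ σ v` and `g y (σ v y) = 0`. `aiW` is constant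
on `𝓥`, `0` at `x = 0`: `η x - d₀ (Λ x) = g x (Λ x)`, so in the same way `η = d₀ ∘ Λ`,
`g x (Λ x) = 0`. So `g ∈ Sk σ Λ`, and `(c, d, η, 𝓥)` is determined by `(g, d₀, c)`: there are at most
`|Sk| * N * N ^ |V|` such quadruples, and every term has norm `≤ 1` (`|𝓥| = N`). -/
def StmtPpMT : Prop :=
  ∀ (F : Type u) [Field F] (ℓ : ℕ) [Fact ℓ.Prime] (_ : ℓ ≠ 2) (V W : Type) [Fintype V]
    [AddCommGroup W] [Module (ZMod ℓ) W] [Fintype W] [Fintype (Module.Dual (ZMod ℓ) W)]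
    (χ : F → ZMod ℓ) (pr : V → F[X]) (σ : V → Module.End (ZMod ℓ) W)
    (Λ : Module.End (ZMod ℓ) W) (_ : IrrW σ Λ) (_ : ∀ v y, σ v y = 0 → y = 0) (n : ℕ)
    (_ : InfW pr σ n),
    ‖∑ c : V → W, ∑ d : V → Module.Dual (ZMod ℓ) W, ∑ η : Module.Dual (ZMod ℓ) W,
      ZMod.stdAddChar (thW χ pr σ Λ c d η) *
        ∑ 𝓥 ∈ (Finset.univ : Finset (Finset (W × Module.Dual (ZMod ℓ) W))).filter
            (Adm BW (Fintype.card W) (alW σ c d) (aiW Λ η)),
          ((Fintype.card W : ℂ)⁻¹ *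
            ∑ w ∈ 𝓥, ZMod.stdAddChar (aiW Λ η w * (n : ZMod ℓ)))‖ ≤
      (Fintype.card W : ℝ) ^ (Fintype.card V + 1) * (1 + Nat.card (Sk σ Λ))

/-! ### The number of solutions -/

open Classical in
/-- **PpFou** (the number of solutions as an exponential sum; 300 lines; uses `StmtSuSy`,
`StmtSuRec`).

Proof. `N = |W| = |Dual W|`, `ψ = stdAddChar`. For `z ∈ W`, `∑_{e ∈ Dual W} ψ (e z) = N * [z = 0]`.
Detect the equations of `SolW` with `η` for `inf`, `d v` for `bad v`, `e P` for `good P` (differences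
of the two sides): `nSol * N ^ (1 + |V| + |t|) = ∑_{c, f} ∑_{η, d, e} ψ (η (inf) + ∑_v d v (bad v) +
∑_P e P (good P))`. Put `g P = (f P, e P)`. The exponent is
`thW χ pr σ Λ c d η + ∑_P (∑_v alW σ c d v (g P) * syl χ (pr v) P + aiW Λ η (g P) * deg P) +
∑_{P, Q ∈ t} BW (g P) (g Q) * syl χ P Q`, where `syl χ P (pr v) = syl χ (pr v) P` is used
(`StmtSuRec`; `P ≠ pr v` as `t ∈ gs`). For `p = fib t g` this is
`thW + ∑_w ∑_{P ∈ p w} (..) + ∑_{w, w'} BW w w' * sys χ (p w) (p w')`, and `wgt` contains the factor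
`N⁻¹` for every `P ∈ t` and the `p w` are pairwise disjoint; `P ∈ t` is none of the `pr v`, so `chc` is
the exponential. Divide by `N ^ |t|`. -/
def StmtPpFou : Prop :=
  ∀ (F : Type u) [Field F] [Finite F] (ℓ : ℕ) [NeZero ℓ] (_ : ℓ.Prime) (_ : ℓ ≠ 2)
    (_ : ℓ ∣ Nat.card F - 1) (χ : F → ZMod ℓ) (_ : IsLg ℓ χ) (V W : Type) [Fintype V]
    [AddCommGroup W] [Module (ZMod ℓ) W] [Fintype W] [Fintype (Module.Dual (ZMod ℓ) W)]
    (pr : V → F[X]) (_ : Fam pr) (σ : V → Module.End (ZMod ℓ) W) (Λ : Module.End (ZMod ℓ) W)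
    (n : ℕ) (t : Finset F[X]) (_ : t ∈ gs F pr n),
    (nSol χ pr σ Λ t : ℂ) * (Fintype.card W : ℂ) ^ (Fintype.card V + 1) =
      ∑ c : V → W, ∑ d : V → Module.Dual (ZMod ℓ) W, ∑ η : Module.Dual (ZMod ℓ) W,
        ZMod.stdAddChar (thW χ pr σ Λ c d η) *
          ∑ g : t → W × Module.Dual (ZMod ℓ) W,
            wgt χ pr (alW σ c d) (aiW Λ η) BW (Fintype.card W) (fib t g)

/-- **PpFM** (the first moment; 120 lines; uses `StmtSuRec`, `StmtPpTS`, `StmtPpCol`, `StmtPpAn`,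
`StmtPpMT`, `StmtPpFou`).

Proof. `N = |W| ≥ 2` (`IrrW.nontriv`). `Unl BW N`: `BW w w = 0`, and the bound on unlinked sets is the
first claim of `StmtPpTS`. `Rcp χ` is `StmtSuRec`. Sum `StmtPpFou` over `t ∈ gs F pr n`, exchange the sums and use the second
claim of `StmtPpCol`: `N ^ (|V| + 1) * ∑_t nSol t = ∑_{c, d, η} stdAddChar (thW ..) * TT .. n`. Insert
`StmtPpAn` with `ε' = ε / (number of the (c, d, η))` for each of the finitely many `(c, d, η)` and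
take `n₀` as the maximum: this is `|gs F pr n|` times the sum of `StmtPpMT`, up to `ε * q ^ n`.
Divide by `N ^ (|V| + 1) ≥ 1`. -/
def StmtPpFM : Prop :=
  ∀ (F : Type u) [Field F] [Finite F] (ℓ : ℕ) (_ : ℓ.Prime) (_ : ℓ ≠ 2)
    (_ : ℓ ∣ Nat.card F - 1) (χ : F → ZMod ℓ) (_ : IsLg ℓ χ) (V W : Type) [Fintype V]
    [AddCommGroup W] [Module (ZMod ℓ) W] [Finite W] (pr : V → F[X]) (_ : Fam pr)
    (σ : V → Module.End (ZMod ℓ) W) (Λ : Module.End (ZMod ℓ) W) (_ : IrrW σ Λ)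
    (_ : ∀ v y, σ v y = 0 → y = 0) (ε : ℝ) (_ : 0 < ε),
    ∃ n₀ : ℕ, ∀ n : ℕ, n₀ ≤ n → InfW pr σ n →
      ∑ t ∈ gs F pr n, (nSol χ pr σ Λ t : ℝ) ≤
        (1 + Nat.card (Sk σ Λ)) * ((gs F pr n).card : ℝ) + ε * (Nat.card F : ℝ) ^ n

/-! ### Parity -/

/-- **PpEvn** (alternating forms over a field of operators; 250 lines).

Proof. Strong induction on `|Y|`. `f x x = 0` (`κ = 1`), so `f y x = - f x y`. If `ker f = ⊤`: `j = 0`.
Otherwise choose `x, y` with `f x y ≠ 0`, and let `φ : K × K → Y`, `φ (a, b) = ρ a x + ρ b y`, additive.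
`φ` is injective, more precisely: if `f (φ (a, b)) (φ (c, 0)) = 0 = f (φ (a, b)) (φ (0, c))` for all `c`
then `a = b = 0`. Indeed `f (ρ a x) (ρ c x) = f x (ρ (a c) x) = 0`, so
`0 = f (φ (a, b)) (ρ c x) = f (ρ b y) (ρ c x) = f y (ρ (b c) x)`; if `b ≠ 0` take `c = b⁻¹`:
`f y x = 0`, contradiction; in the same way `a = 0`. Let `Z` be the range of `φ` (a submodule,
stable under `ρ`), `|Z| = |K| ^ 2`, and `Z' = {z | ∀ p, f z (φ p) = 0}`, stable under `ρ`, the kernel of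
the restriction map `Y → Dual Z`. `Z ⊓ Z' = ⊥`, so `Z → Dual Z` is injective, hence bijective
(`|Dual Z| = |Z|`), so `Y = Z ⊕ Z'`, `|Y| = |Z| * |Z'|`. The kernel of `f` restricted to `Z'` is `ker f`
(`ker f ≤ Z'`; `z ∈ Z'` with `f z = 0` on `Z'` has `f z = 0` on `Y`). Induction for `Z'`. -/
def StmtPpEvn : Prop :=
  ∀ (ℓ : ℕ) [Fact ℓ.Prime] (K : Type) [Field K] [Finite K] (Y : Type u) [AddCommGroup Y]
    [Module (ZMod ℓ) Y] [Finite Y] (ρ : K →+* Module.End (ZMod ℓ) Y)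
    (f : Y →ₗ[ZMod ℓ] Module.Dual (ZMod ℓ) Y) (_ : ∀ κ x y, f (ρ κ x) y = f x (ρ κ y))
    (_ : ∀ κ x, f x (ρ κ x) = 0),
    ∃ j : ℕ, Nat.card Y = Nat.card (LinearMap.ker f) * Nat.card K ^ (2 * j)

/-- **PpKf** (the field of `Sk`; 300 lines).

Proof. Choose `f ≠ 0` in `Sk`. `f x y = - f y x`, and `f (σ v x) y = f x (σ v y)`,
`f (Λ x) y = f x (Λ y)` (polarize `f x (σ v x) = 0`: `f x (σ v y) = - f y (σ v x) = f (σ v x) y`). The
kernel of `f` is invariant under `σ`, `Λ`, so it is `⊥` (`IrrW`, `f ≠ 0`). Let `E` be the set of the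
endomorphisms `κ` of `W` which commute with all `σ v` and with `Λ`: a subring of `Module.End`; every
nonzero `κ ∈ E` is bijective (the kernel is invariant, `W` is finite), and its inverse is in `E`. So
`E` is a finite division ring, and commutative (`littleWedderburn`, or
`Finite.isDomain_to_isField` for the finite domain `E`). Let `K` be the set of the `κ ∈ E` with
`f (κ x) y = f x (κ y)`. It is a subring (for the product use commutativity:
`f (κ κ' x) y = f (κ' x) (κ y) = f x (κ' κ y) = f x (κ κ' y)`), closed under inverses, so a field. If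
`κ ∈ K` then `f ∘ κ ∈ Sk`: `f (κ x) x = f x (κ x) = - f (κ x) x`, and
`f (κ x) (σ v x) = f x (κ (σ v x)) = f x (σ v (κ x)) = f (σ v x) (κ x) = - f (κ x) (σ v x)`, the same
for `Λ`, and `ℓ ≠ 2`. Conversely let `g ∈ Sk`; `f : W → Dual W` is bijective, so `g = f ∘ κ` for a linear
`κ`; `f (κ (σ v x)) y = g (σ v x) y = g x (σ v y) = f (κ x) (σ v y) = f (σ v (κ x)) y`, so `κ` commutes
with `σ v`, the same for `Λ`; and `f (κ x) y = g x y = - g y x = - f (κ y) x = f x (κ y)`. So `κ ∈ K`, and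
`κ ↦ f ∘ κ` is a bijection from `K` to `Sk`. `K` is a type in `Type` because `W` is; `ρ` is the
inclusion. -/
def StmtPpKf : Prop :=
  ∀ (ℓ : ℕ) [Fact ℓ.Prime] (_ : ℓ ≠ 2) (V W : Type) [AddCommGroup W] [Module (ZMod ℓ) W]
    [Finite W] (σ : V → Module.End (ZMod ℓ) W) (Λ : Module.End (ZMod ℓ) W) (_ : IrrW σ Λ)
    (_ : Sk σ Λ ≠ ⊥),
    ∃ (K : Type) (_ : Field K) (_ : Finite K) (ρ : K →+* Module.End (ZMod ℓ) W)
      (f : W →ₗ[ZMod ℓ] Module.Dual (ZMod ℓ) W), Nat.card K = Nat.card (Sk σ Λ) ∧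
      f ∈ Sk σ Λ ∧ (∀ x, (∀ y, f x y = 0) → x = 0) ∧
      (∀ κ v x, ρ κ (σ v x) = σ v (ρ κ x)) ∧ (∀ κ x, ρ κ (Λ x) = Λ (ρ κ x)) ∧
      ∀ κ x y, f (ρ κ x) y = f x (ρ κ y)

/-- **PpFrm** (the form on the unknowns; 350 lines; uses `StmtPpEvn.{0}` and `StmtPpEvn.{u}`).

Proof. If `W` is trivial, `a = 0`. Otherwise some `D β₀ ≠ 0` (last hypothesis). Notation:
`M β = ∑ β', l β β' • σ β' + D β • Λ`, so the equations say
`∑ β', l β β' • σ β' (c β') = M β (c β)`. All of `σ β`, `Λ`, `M β` are self-adjoint for `f`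
(`f (σ β x) y = f x (σ β y)` by polarization), commute with `ρ κ`; `M β` commutes with `σ β`. `σ β` is
bijective. Put `y β = σ β (c β)`: the set is in bijection with `X = {y | ∑ D β • y β = 0, T y = 0}`,
`(T y) β = ∑ β', l β β' • y β' - M β (σ β ⁻¹ (y β))`. Let `Y = {y : ι → W | ∑ D β • y β = 0}` and
`B y y' = ∑ β, f (y β) ((T y') β)`, bilinear on `Y`. (i) `B (ρ κ y) y' = B y (ρ κ y')`: `T` commutes with
`ρ κ`. (ii) `B y (ρ κ y) = 0`: the part `∑_{β, β'} l β β' • f (y β) (ρ κ (y β'))` is `0`, because `l` is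
symmetric and `f x (ρ κ x') = f (ρ κ x) x' = - f x' (ρ κ x)` (so twice the sum is `0`, `ℓ ≠ 2`); and with
`z = σ β ⁻¹ (y β)`, `f (σ β z) (ρ κ (M β z)) = f z (G z)`, `G = σ β ∘ ρ κ ∘ M β`, self-adjoint as a
product of commuting self-adjoint operators, so `f z (G z) = f (G z) z = - f z (G z) = 0`.
(iii) The kernel of `y ↦ B y ·`, i.e. (as `B y y' = - B y' y`, by (ii) for `κ = 1`) the set of the
`y' ∈ Y` with `B y y' = 0` for all `y ∈ Y`, is `X`: let `z = T y'`; for `β` and `x ∈ W` test with `y = x`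
at `β` and `- (D β / D β₀) x` at `β₀`: `f x (z β - (D β / D β₀) z β₀) = 0` for all `x`, so
`z β = D β • w`, `w = z β₀ / D β₀`. Now
`∑ β, σ β (z β) = ∑ β', (∑ β, l β β' • σ β) (y' β') - ∑ β, M β (y' β) = - Λ (∑ β, D β • y' β) = 0`
(symmetry of `l`, `σ β ∘ M β ∘ σ β ⁻¹ = M β`), so `∑ β, D β • σ β w = 0`, `w = 0`, `T y' = 0`.
(iv) Count: `StmtPpEvn` for `W`, `f` (kernel `0`; `f x (ρ κ x) = 0`, as
`f x (ρ κ x) = f (ρ κ x) x = - f x (ρ κ x)`): `|W| = |K| ^ (2 i)`. `|Y| = |W| ^ (|ι| - 1)` (the map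
`y ↦ ∑ D β • y β` is surjective). `StmtPpEvn` for `Y`, `B`: `|Y| = |X| * |K| ^ (2 j)`. So
`|X| * |K| ^ (2 j) = |K| ^ (2 i (|ι| - 1))`, and `|X| = |K| ^ (2 a)`. -/
def StmtPpFrm : Prop :=
  ∀ (ℓ : ℕ) [Fact ℓ.Prime] (_ : ℓ ≠ 2) (K : Type) [Field K] [Finite K] (ι : Type u) (W : Type)
    [Fintype ι] [AddCommGroup W] [Module (ZMod ℓ) W] [Finite W]
    (ρ : K →+* Module.End (ZMod ℓ) W) (f : W →ₗ[ZMod ℓ] Module.Dual (ZMod ℓ) W)
    (_ : ∀ x, (∀ y, f x y = 0) → x = 0) (_ : ∀ x, f x x = 0)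
    (_ : ∀ κ x y, f (ρ κ x) y = f x (ρ κ y))
    (σ : ι → Module.End (ZMod ℓ) W) (Λ : Module.End (ZMod ℓ) W)
    (_ : ∀ β x, f x (σ β x) = 0) (_ : ∀ x, f x (Λ x) = 0)
    (_ : ∀ κ β x, ρ κ (σ β x) = σ β (ρ κ x)) (_ : ∀ κ x, ρ κ (Λ x) = Λ (ρ κ x))
    (_ : ∀ β y, σ β y = 0 → y = 0)
    (l : ι → ι → ZMod ℓ) (_ : ∀ β β', l β β' = l β' β) (D : ι → ZMod ℓ)
    (_ : ∀ β y, σ β (∑ β', l β β' • σ β' y + D β • Λ y) =
      ∑ β', l β β' • σ β' (σ β y) + D β • Λ (σ β y))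
    (_ : ∀ y, ∑ β, D β • σ β y = 0 → y = 0),
    ∃ a : ℕ, Nat.card {c : ι → W // ∑ β, D β • σ β (c β) = 0 ∧
      ∀ β, ∑ β', l β β' • σ β' (c β' - c β) = D β • Λ (c β)} = Nat.card K ^ (2 * a)

/-- **PpPar** (parity; 150 lines; uses `StmtSuSy`, `StmtSuRec`, `StmtPpKf`, `StmtPpFrm`).

Proof. `StmtPpKf` gives `K`, `ρ`, `f`. Apply `StmtPpFrm` to `ι = V ⊕ t`, the family `pr`, `P`, with
`σ` at `v` and the identity at `P ∈ t`, `l` the symbols (symmetric: `StmtSuRec`, `P ≠ pr v`; the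
diagonal symbols are `0`, `StmtSuSy`), `D` the degrees. The commutation hypothesis at `v`:
`HypW.com`, plus the terms `syl χ (pr v) P • y` for `P ∈ t`, which commute; at `P ∈ t` it is trivial.
The last hypothesis is `InfW pr σ n` (`∑_{P ∈ t} deg P = n`). The set of `StmtPpFrm` is in bijection
with the one of `nSol` (`SolW`). So `nSol = |K| ^ (2 a)`, `|K| = |Sk|`: `1` for `a = 0`, at least
`|K| ^ 2` otherwise. -/
def StmtPpPar : Prop :=
  ∀ (F : Type u) [Field F] [Finite F] (ℓ : ℕ) [Fact ℓ.Prime] (_ : ℓ ≠ 2)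
    (_ : ℓ ∣ Nat.card F - 1) (χ : F → ZMod ℓ) (_ : IsLg ℓ χ) (V W : Type) [Fintype V]
    [AddCommGroup W] [Module (ZMod ℓ) W] [Finite W] (pr : V → F[X]) (_ : Fam pr)
    (σ : V → Module.End (ZMod ℓ) W) (Λ : Module.End (ZMod ℓ) W) (_ : IrrW σ Λ)
    (_ : HypW χ pr σ Λ) (_ : Sk σ Λ ≠ ⊥) (n : ℕ) (_ : InfW pr σ n) (t : Finset F[X])
    (_ : t ∈ gs F pr n),
    nSol χ pr σ Λ t = 1 ∨ Nat.card (Sk σ Λ) ^ 2 ≤ nSol χ pr σ Λ t

open Classical in
/-- **PpMar** (Markov's inequality; 120 lines; uses `StmtPpFM`, `StmtPpPar`).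

Proof. The solutions form a `ZMod ℓ`-vector space, so `nSol` is a power of `ℓ`: `1` or `≥ ℓ`. Let `g` be
`|gs F pr n|` and `x` the number in question. `∑_t (nSol t - 1) ≤ |Sk| * g + ε' q ^ n`
(`StmtPpFM`). If `Sk = ⊥`: `x * (ℓ - 1) ≤ g + ε' q ^ n`. If `Sk ≠ ⊥`, `k = |Sk| ≥ ℓ` (a nonzero vector
space), `nSol ≠ 1` implies `nSol ≥ k ^ 2` (`StmtPpPar`), so `x * (k ^ 2 - 1) ≤ k * g + ε' q ^ n`, and
`k / (k ^ 2 - 1) ≤ 1 / (ℓ - 1)`, since `k (ℓ - 1) ≤ k (k - 1) ≤ k ^ 2 - 1`. -/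
def StmtPpMar : Prop :=
  ∀ (F : Type u) [Field F] [Finite F] (ℓ : ℕ) [Fact ℓ.Prime] (_ : ℓ ≠ 2)
    (_ : ℓ ∣ Nat.card F - 1) (χ : F → ZMod ℓ) (_ : IsLg ℓ χ) (V W : Type) [Fintype V]
    [AddCommGroup W] [Module (ZMod ℓ) W] [Finite W] (pr : V → F[X]) (_ : Fam pr)
    (σ : V → Module.End (ZMod ℓ) W) (Λ : Module.End (ZMod ℓ) W) (_ : IrrW σ Λ)
    (_ : HypW χ pr σ Λ) (ε : ℝ) (_ : 0 < ε),
    ∃ n₀ : ℕ, ∀ n : ℕ, n₀ ≤ n → InfW pr σ n →
      (((gs F pr n).filter fun t => nSol χ pr σ Λ t ≠ 1).card : ℝ) ≤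
        ((gs F pr n).card : ℝ) / ((ℓ : ℝ) - 1) + ε * (Nat.card F : ℝ) ^ n

open Classical in
/-- **PpInd** (composition series; 300 lines; uses `StmtPpMar`).

Proof. Strong induction on `finrank W`, for all `ε`. If `W` is trivial, `nSol = 1` (only the zero
solution). If `W` is irreducible (`IrrW`): `StmtPpMar`, `finrank ≥ 1`. Otherwise there is an invariant
`A`, `⊥ < A < ⊤`. Let `σ'`, `Λ'` be the restrictions to `A` and `σ''`, `Λ''` the induced maps on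
`W ⧸ A` (`LinearMap.restrict`, `Submodule.mapQ`). `HypW` for `A` is clear; for `W ⧸ A`: `σ v` is
injective on `W`, and maps the finite `A` bijectively to `A`, so `σ v y ∈ A` implies `y ∈ A`. In the
same way `InfW pr σ n` implies `InfW` for `A` and `W ⧸ A`. A solution for `W` gives one for `W ⧸ A`; if
`nSol = 1` for `W ⧸ A` then it has values in `A`, and if also `nSol = 1` for `A` then it is `0`. So
`nSol ≠ 1` for `W` implies `nSol ≠ 1` for `A` or for `W ⧸ A`; use the induction hypothesis with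
`ε / 2` and `finrank A + finrank (W ⧸ A) = finrank W`. -/
def StmtPpInd : Prop :=
  ∀ (F : Type u) [Field F] [Finite F] (ℓ : ℕ) [Fact ℓ.Prime] (_ : ℓ ≠ 2)
    (_ : ℓ ∣ Nat.card F - 1) (χ : F → ZMod ℓ) (_ : IsLg ℓ χ) (V W : Type) [Fintype V]
    [AddCommGroup W] [Module (ZMod ℓ) W] [Finite W] (pr : V → F[X]) (_ : Fam pr)
    (σ : V → Module.End (ZMod ℓ) W) (Λ : Module.End (ZMod ℓ) W) (_ : HypW χ pr σ Λ) (ε : ℝ)
    (_ : 0 < ε),
    ∃ n₀ : ℕ, ∀ n : ℕ, n₀ ≤ n → InfW pr σ n →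
      (((gs F pr n).filter fun t => nSol χ pr σ Λ t ≠ 1).card : ℝ) ≤
        Module.finrank (ZMod ℓ) W * (((gs F pr n).card : ℝ) / ((ℓ : ℝ) - 1)) +
          ε * (Nat.card F : ℝ) ^ n

/-! ### Squarefree polynomials -/

/-- **PpBij** (squarefree polynomials; 60 lines).

Proof. Unique factorization: a squarefree monic `M` is the product of its distinct monic
irreducible factors (`UniqueFactorizationMonoid.normalizedFactors`, `Squarefree` iff `Nodup`). -/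
def StmtPpBij : Prop :=
  ∀ (F : Type u) [Field F] [Finite F] (V : Type) (pr : V → F[X]) (_ : Fam pr) (n : ℕ),
    Set.BijOn (fun t : Finset F[X] => ∏ P ∈ t, P) (gs F pr n : Set (Finset F[X]))
      {M : F[X] | M.Monic ∧ M.natDegree = n ∧ Squarefree M ∧ ∀ v, ¬ pr v ∣ M}

/-- **PpCnt** (many squarefree polynomials; 200 lines; uses `StmtTwMon`, `StmtSuPsi`, `StmtPpBij`).

Proof. Let `Π = ∏ v, pr v`, `D = Π.natDegree`, `n ≥ D`. For a polynomial `r` and `k ≥ D` the number of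
`h ∈ mon F k` with `Π ∣ h - r` is `q ^ (k - D)` (`h = Π * h' + (r mod Π)`, `h' ∈ mon F (k - D)`), and
for `k < D` it is at most `1`. The `h ∈ mon F n` with `Π ∣ h - 1` are prime to `Π`. Such an `h` which
is not squarefree is divisible by `P ^ 2` for a MI `P`, prime to `Π`, of degree `d`, `2 d ≤ n`;
`h = P ^ 2 * k`, `k ∈ mon F (n - 2 d)` in a fixed residue class modulo `Π`: at most `q ^ (n - 2 d - D)`
of them if `n - 2 d ≥ D` and at most `1` otherwise. With `|irr F d| ≤ q ^ d`: the number of bad `h` is at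
most `∑_{d ≥ 1} q ^ d * q ^ (n - 2 d - D) + ∑_{2 d ≤ n} q ^ d ≤
q ^ (n - D) / (q - 1) + 2 q ^ (n / 2)`. So at least `q ^ (n - D) * (2 / 3) - 2 q ^ (n / 2) ≥
q ^ (n - D) / 3` squarefree ones for large `n` (`q ≥ 4`), and `StmtPpBij` gives
`|gs F pr n| ≥ q ^ (n - D) / 3`: `c = q ^ (- D) / 3`. -/
def StmtPpCnt : Prop :=
  ∀ (F : Type u) [Field F] [Finite F] (_ : 4 ≤ Nat.card F) (V : Type) [Finite V]
    (pr : V → F[X]) (_ : Fam pr),
    ∃ c : ℝ, 0 < c ∧ ∃ n₀ : ℕ, ∀ n : ℕ, n₀ ≤ n →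
      c * (Nat.card F : ℝ) ^ n ≤ ((gs F pr n).card : ℝ)

/-! ### The operators of the curves -/

/-- **PpCom** (the operators commute; 200 lines).

Proof. Both operators are `ρ • 1 + B⁻¹ • N`, so it is enough that `N c i = ∑ k, b k w i k (c i - c k)` and
`Y c i = ∑ k, b k y i k (c i - c k)` commute. `N (Y c) i = ∑_{k, j} b k b j w i k
(y i j (c i - c j) - y k j (c k - c j))` and `Y (N c) i = ∑_{k, j} b k b j y i k
(w i j (c i - c j) - w k j (c k - c j))`. Symmetrize the difference in `k, j` (`2` is invertible): it is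
`1 / 2 * ∑_{k, j} b k b j (c k - c j) [w i j (y k j - y i k) + w i k (y i j - y k j) +
w k j (y i k - y i j)]`: the terms `T k j (c i - c j)`, `T k j = w i k y i j - y i k w i j`, are
antisymmetric in `k, j` up to the factor and give `T k j (c k - c j)` in the symmetrization. The bracket
vanishes if `i, j, k` are not distinct (`k = i` or `j = i`: by the symmetry of `w` and `y`; for `j = k`
the factor `c k - c j` is `0`). For distinct `i, j, k` two of the three integers `w i j`, `w i k`,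
`w k j` are equal, and the third is at least as large (`Ultra`). If all are equal the bracket is `0`. If
`w i j > w i k = w k j`, then `y j k = y i k` (hypothesis) and the bracket is
`w i k (y i j - y k j + y i k - y i j) = 0`; the other two cases by the symmetries (for
`w i k > w i j = w k j`: `y k j = y i j`; for `w k j > w i k = w i j`: hypothesis for `(k, j, i)`:
`y j i = y k i`). -/
def StmtPpCom : Prop :=
  ∀ (ℓ : ℕ) (_ : ℓ.Prime) (_ : ℓ ≠ 2) (m : ℕ) (b : Fin m → ℕ) (w : Fin m → Fin m → ℤ)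
    (_ : Ultra w) (y : Fin m → Fin m → ZMod ℓ) (_ : ∀ i k, y i k = y k i)
    (_ : ∀ i j k, i ≠ j → j ≠ k → i ≠ k → w i k < w i j → y j k = y i k) (ρ ρ' : ZMod ℓ)
    (c : Fin m → ZMod ℓ) (i : Fin m),
    sg b ρ (fun i k => (w i k : ZMod ℓ)) (sg b ρ' y c) i =
      sg b ρ' y (sg b ρ (fun i k => (w i k : ZMod ℓ)) c) i

/-- **PpHyp** (the hypotheses hold for the curves; 250 lines; uses `StmtSuSy`, `StmtSuFac`,
`StmtSuInj`, `StmtPpCom`).

Proof. The lemmas `sgV_apply`, `sg_congr`, `vl_eq_wP`, `vl_symm`, `ultra_wP`, `ultra_wI`,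
`natDegree_twl` of SuAsm.lean, and the proofs of `hσi`, `hlc`, `hdiff`, `hprod`, `hD` in `su_linear`
(SuCore.lean) are models for all of this. `inj`: `StmtSuInj` for `w = wP (pr v) a`, `(e v).val`. `lamV`
is `sgV b 0 (χ (leadingCoeff))` (the condition holds, as `χ (-1) = 0`). `com`: by `StmtSuFac` for
`h = a i - a k`, `i ≠ k`: `syl χ (pr v) (a i - a k) = deg (pr v) * χ (leadingCoeff) +
∑ v', vl (pr v') (a i - a k) * syl χ (pr v) (pr v')`, so the operator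
`∑ v', syl χ (pr v) (pr v') • σ v' + deg (pr v) • Λ` is `c ↦ sg b ρ' y c` with
`ρ' = ∑ v', syl χ (pr v) (pr v') * e v'`, `y i k = syl χ (pr v) (a i - a k)`. `StmtPpCom` for
`w = wP (pr v) a`: if `i, j, k` are distinct and `w i k < w i j`, then with `P = pr v`,
`a i - a k = P ^ μ * h₁`, `P ∤ h₁`, `a i - a j = P ^ (μ + 1) * h₂`, so
`a j - a k = P ^ μ * (h₁ - P * h₂)` has the same symbol as `a i - a k` (`nm P` depends on the class
modulo `P`). `y` is symmetric by `χ (-1) = 0`. `InfW`: `StmtSuInj` for `w = wI a` and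
`e = - (deg E + n)`; the sum `∑ v, deg (pr v) * e v` is `deg (twl pr e)` modulo `ℓ`. -/
def StmtPpHyp : Prop :=
  ∀ (F : Type u) [Field F] [Finite F] (ℓ : ℕ) [Fact ℓ.Prime] (_ : ℓ ≠ 2)
    (_ : ℓ ∣ Nat.card F - 1) (χ : F → ZMod ℓ) (_ : IsLg ℓ χ) (m : ℕ) (a : Fin m → F[X])
    (_ : Function.Injective a) (b : Fin m → ℕ) (V : Type) [Fintype V] (pr : V → F[X])
    (_ : Fam pr)
    (_ : ∀ P : F[X], P.Monic → Irreducible P → ∀ i j, i ≠ j → P ∣ a i - a j → ∃ v, pr v = P)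
    (e : V → ZMod ℓ) (_ : ∀ v, Tame ℓ b (wP (pr v) a) ((e v).val : ℤ)),
    HypW χ pr (fun v => sigV b a (pr v) (e v)) (lamV χ b a) ∧
    ∀ n : ℕ, Tame ℓ b (wI a) (-(((twl pr e).natDegree + n : ℕ) : ℤ)) →
      InfW pr (fun v => sigV b a (pr v) (e v)) n

open Classical in
/-- **PpLnk** (no solutions, no Selmer elements; 200 lines; uses `StmtSuSy`, `StmtSuRec`,
`StmtSuEq`; model: `su_core` in SuCore.lean).

Proof. Index the primes of `t` by `Fin |t|` (the index type of `StmtSuEq` is in `Type`): the family on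
`ι = V ⊕ Fin |t|` with exponents `e v` and `1`; `twl` of it is `E = twl pr e * ∏ P ∈ t, P`, of degree
`deg (twl pr e) + n`. `Tame` at `P ∈ t`: `tame_good`. `torsionGroup_le_su` is one inclusion. For `d` in
the Selmer group `StmtSuEq` gives `x`, `c` with `EqL`. At `P ∈ t`, `vl P (a i - a k) = 0` for `i ≠ k`, so
`x P = c P` (`sg_good`). Then `c v`, `f P = c P` (elements of `Vs ℓ b`) satisfy `SolW`: `inf` is
`EqL.inf`; `EqL.sym` at `β`, with `x β' i - sg b (ρ β') _ (c β) i = sg b (ρ β') _ (c β' - c β) i`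
(`sg_sub`), is `bad` or `good` (`syl χ P P = 0` does not matter). As `nSol = 1` all the `c` are `0`, so
`x = 0` and `d` is in the torsion group. -/
def StmtPpLnk : Prop :=
  ∀ (F : Type u) [Field F] [Finite F] (ℓ : ℕ) [Fact ℓ.Prime] (_ : ℓ ≠ 2)
    (_ : ℓ ∣ Nat.card F - 1) (χ : F → ZMod ℓ) (_ : IsLg ℓ χ) (m : ℕ) (_ : 0 < m)
    (a : Fin m → F[X]) (_ : Function.Injective a) (b : Fin m → ℕ) (V : Type) [Fintype V]
    (pr : V → F[X]) (_ : Fam pr)
    (_ : ∀ P : F[X], P.Monic → Irreducible P → ∀ i j, i ≠ j → P ∣ a i - a j → ∃ v, pr v = P)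
    (e : V → ZMod ℓ) (_ : ∀ v, Tame ℓ b (wP (pr v) a) ((e v).val : ℤ)) (n : ℕ)
    (t : Finset F[X]) (_ : t ∈ gs F pr n)
    (_ : Tame ℓ b (wI a) (-(((twl pr e).natDegree + n : ℕ) : ℤ)))
    (_ : nSol χ pr (fun v => sigV b a (pr v) (e v)) (lamV χ b a) t = 1),
    placesSelmer F[X] (RatFunc.inftyValuation F) ℓ (pts (twl pr e * ∏ P ∈ t, P) a) b =
      torsionGroup ℓ (pts (twl pr e * ∏ P ∈ t, P) a) b

/-- **PpIrr** (irreducible families; 300 lines).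

`v` is an edge `i, j` if `vl (pr v)` is not `0` at `a i - a j` and `0` at all other differences; the
hypothesis says that the graph of the edges is connected.

Proof. `B = ∑ b k`, `u i` the unit vectors, `r i j = b j u i - b i u j ∈ Vs`; `Vs` is spanned by the
`r i k`, `k ≠ i`, for every fixed `i` (`c = ∑_{k ≠ i} (- c k / b i) r i k`). If `v` is an edge `i, j` then
`σ v c = e v • c + (μ / B) (c i - c j) r i j` with `μ = vl (pr v) (a i - a j) ≠ 0`. (i) Let `A ≠ ⊥` be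
invariant. Then `c ∈ A` implies `(c i - c j) r i j ∈ A` for all edges. Take `c ∈ A` nonzero; it is not
constant (`B ≠ 0`), so by the hypothesis for `s = {k | c k = c k₀}` there is an edge with `c i ≠ c j`,
and `r i j ∈ A`. Let `s = {k | k = i ∨ r i k ∈ A}`, and suppose `s ≠ univ`: edge `k ∈ s`, `l ∉ s`. If
`k = i`: `r i j ∈ A`, `j ≠ l`, `(r i j) i - (r i j) l = b j ≠ 0`, so `r i l ∈ A`, contradiction. If
`k ≠ i`: `(r i k) k - (r i k) l = - b i ≠ 0`, so `r k l ∈ A`, and `b k r i l = b l r i k + b i r k l ∈ A`,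
contradiction. So `A = ⊤`. `Vs` is nontrivial (`m ≥ 2`, `r i j ≠ 0`). (ii) Let `g ∈ Sk`. For an edge
`i, j`: `0 = g x (σ v x) = (μ / B) (x i - x j) g x (r i j)` (as `g x x = 0`), so `g x (r i j) = 0` if
`x i ≠ x j`. There is `y ∈ Vs` with `y i ≠ y j` (`m ≥ 3`: `r i k`, `k ≠ i, j`; `m = 2`: `r i j`, as
`b i + b j = B ≠ 0`); if `x i = x j` use `x = (x + y) - y`. So `g x (r i j) = 0` for all `x` and all edges.
The `r i j` of the edges span `Vs`: for a fixed `i`, `s = {k | k = i ∨ r i k ∈ span}` is everything, by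
`b k r i l = b l r i k + b i r k l`. So `g = 0`. -/
def StmtPpIrr : Prop :=
  ∀ (F : Type u) [Field F] (ℓ : ℕ) [Fact ℓ.Prime] (χ : F → ZMod ℓ) (m : ℕ) (_ : 2 ≤ m)
    (a : Fin m → F[X]) (b : Fin m → ℕ) (_ : ∀ i, ¬ ℓ ∣ b i) (_ : ¬ ℓ ∣ ∑ i, b i) (V : Type)
    (pr : V → F[X])
    (_ : ∀ s : Finset (Fin m), s.Nonempty → s ≠ Finset.univ → ∃ i ∈ s, ∃ j, j ∉ s ∧
      ∃ v, vl ℓ (pr v) (a i - a j) ≠ 0 ∧ ∀ k l, k ≠ l → ¬ (k = i ∧ l = j) → ¬ (k = j ∧ l = i) →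
        vl ℓ (pr v) (a k - a l) = 0)
    (e : V → ZMod ℓ),
    IrrW (fun v => sigV b a (pr v) (e v)) (lamV χ b a) ∧
    Sk (fun v => sigV b a (pr v) (e v)) (lamV χ b a) = ⊥

/-! ### The order of the Selmer group -/

open Classical in
/-- **PpSel** (a variant of `StmtSuSel`; copy SuSel.lean and change the end; uses `StmtSuSy`,
`StmtSuTal`, `StmtSuLocF`, `StmtSuLocI`, `StmtSuPwF`, `StmtSuPwI`, `StmtSuTor`, in this order).

Proof. As for `StmtSuSel`: in (1) of that proof `d i` is `δ i * tal b E a c₀ i` up to an `ℓ`-th power of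
`F(t)`, because `tal c₀ * tal (-c₀) ~ 1`. -/
def StmtPpSel : Prop :=
  ∀ (F : Type u) [Field F] [Finite F] (ℓ : ℕ) (_ : ℓ.Prime) (_ : ℓ ≠ 2) (_ : ℓ ∣ Nat.card F - 1)
    (χ : F → ZMod ℓ) (_ : IsLg ℓ χ) (m : ℕ) (_ : 0 < m) (a : Fin m → F[X])
    (_ : Function.Injective a) (b : Fin m → ℕ) (ι : Type) [Fintype ι] (pr : ι → F[X]) (_ : Fam pr)
    (_ : ∀ P : F[X], P.Monic → Irreducible P → ∀ i j, i ≠ j → P ∣ a i - a j → ∃ β, pr β = P)
    (ρ : ι → ZMod ℓ) (_ : ∀ β, Tame ℓ b (wP (pr β) a) ((ρ β).val : ℤ))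
    (_ : Tame ℓ b (wI a) (-((twl pr ρ).natDegree : ℤ)))
    (d : Fin m → (RatFunc F)ˣ)
    (_ : d ∈ placesSelmer F[X] (RatFunc.inftyValuation F) ℓ (pts (twl pr ρ) a) b),
    ∃ δ : Fin m → F[X], (∀ i, δ i ≠ 0) ∧
      (∀ P : F[X], P.Monic → Irreducible P → (∀ β, pr β ≠ P) → ∀ i, vl ℓ P (δ i) = 0) ∧
      (∀ i, ((δ i).natDegree : ZMod ℓ) = 0 ∧ χ (δ i).leadingCoeff = 0) ∧
      (∀ β, ∃ c : Fin m → ZMod ℓ, ∑ i, (b i : ZMod ℓ) * c i = 0 ∧ ∀ i,
        vl ℓ (pr β) (δ i) = vl ℓ (pr β) (tal b (twl pr ρ) a c i) ∧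
        syl χ (pr β) (δ i) = syl χ (pr β) (tal b (twl pr ρ) a c i)) ∧
      ∃ c₀ : Fin m → ZMod ℓ, ∑ i, (b i : ZMod ℓ) * c₀ i = 0 ∧ ∀ i, ∃ z : RatFunc F,
        (d i : RatFunc F) =
          algebraMap F[X] (RatFunc F) (δ i * tal b (twl pr ρ) a c₀ i) * z ^ ℓ

open Classical in
/-- **PpEq** (a variant of `StmtSuEq`; copy SuEq.lean and change the end; uses `StmtSuSy`,
`StmtSuFac`, `StmtSuTal`, `StmtPpSel`).

Proof. As for `StmtSuEq`: `x β i = vl (pr β) (δ i)`, with the `δ` and `c₀` of `StmtPpSel`. -/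
def StmtPpEq : Prop :=
  ∀ (F : Type u) [Field F] [Finite F] (ℓ : ℕ) (_ : ℓ.Prime) (_ : ℓ ≠ 2) (_ : ℓ ∣ Nat.card F - 1)
    (χ : F → ZMod ℓ) (_ : IsLg ℓ χ) (m : ℕ) (_ : 0 < m) (a : Fin m → F[X])
    (_ : Function.Injective a) (b : Fin m → ℕ) (ι : Type) [Fintype ι] (pr : ι → F[X]) (_ : Fam pr)
    (_ : ∀ P : F[X], P.Monic → Irreducible P → ∀ i j, i ≠ j → P ∣ a i - a j → ∃ β, pr β = P)
    (ρ : ι → ZMod ℓ) (_ : ∀ β, Tame ℓ b (wP (pr β) a) ((ρ β).val : ℤ))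
    (_ : Tame ℓ b (wI a) (-((twl pr ρ).natDegree : ℤ)))
    (d : Fin m → (RatFunc F)ˣ)
    (_ : d ∈ placesSelmer F[X] (RatFunc.inftyValuation F) ℓ (pts (twl pr ρ) a) b),
    ∃ x c : ι → Fin m → ZMod ℓ, EqL χ b a pr ρ x c ∧
      ∃ δ : Fin m → F[X], (∀ i, δ i ≠ 0 ∧ χ (δ i).leadingCoeff = 0) ∧
        (∀ P : F[X], P.Monic → Irreducible P → (∀ β, pr β ≠ P) → ∀ i, vl ℓ P (δ i) = 0) ∧
        (∀ β i, vl ℓ (pr β) (δ i) = x β i) ∧
        ∃ c₀ : Fin m → ZMod ℓ, ∑ i, (b i : ZMod ℓ) * c₀ i = 0 ∧ ∀ i, ∃ z : RatFunc F,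
          (d i : RatFunc F) =
            algebraMap F[X] (RatFunc F) (δ i * tal b (twl pr ρ) a c₀ i) * z ^ ℓ

open Classical in
/-- **PpInj** (the order of the Selmer group; 300 lines; uses `StmtSuSy`, `StmtSuRec`, `StmtSuFac`,
`StmtSuTor`, `StmtPpEq`; the first part as `StmtPpLnk`).

Proof. Index the primes of `t` by `Fin |t|`. For `d` in the Selmer group `S` choose `x`, `c`, `δ`, `c₀` as
in `StmtPpEq` (for the family `V ⊕ Fin |t|`, exponents `e v` and `1`). As in `StmtPpLnk`, `c` gives an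
element `X d` of the finite set of `nSol`. If `X d = X d'` then `x = x'` (`EqL.val`), so
`h i = δ i * δ' i ^ (ℓ - 1)` has `vl P (h i) = 0` for all MI `P` and `χ (leadingCoeff) = 0`, and by
`StmtSuFac` (third claim; `h i ≠ 0`) it is an `ℓ`-th power: `δ i ~ δ' i`. So
`d i / d' i ~ tal c₀ i / tal c₀' i ~ tal (c₀ - c₀') i` (natural exponents congruent modulo `ℓ` give the
same class modulo `ℓ`-th powers; `E (a i - a k) ≠ 0` for `k ≠ i`, and the exponent for `k = i` is `0`),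
and `d / d'` is in the torsion group `T` (`StmtSuTor`, second claim). So `X` induces an injective map on
`S ⧸ T`, with values in a finite set of order `nSol`: the relative index (the index of `T ⊓ S` in `S`)
is not `0` and at most `nSol`. -/
def StmtPpInj : Prop :=
  ∀ (F : Type u) [Field F] [Finite F] (ℓ : ℕ) [Fact ℓ.Prime] (_ : ℓ ≠ 2)
    (_ : ℓ ∣ Nat.card F - 1) (χ : F → ZMod ℓ) (_ : IsLg ℓ χ) (m : ℕ) (_ : 0 < m)
    (a : Fin m → F[X]) (_ : Function.Injective a) (b : Fin m → ℕ) (V : Type) [Fintype V]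
    (pr : V → F[X]) (_ : Fam pr)
    (_ : ∀ P : F[X], P.Monic → Irreducible P → ∀ i j, i ≠ j → P ∣ a i - a j → ∃ v, pr v = P)
    (e : V → ZMod ℓ) (_ : ∀ v, Tame ℓ b (wP (pr v) a) ((e v).val : ℤ)) (n : ℕ)
    (t : Finset F[X]) (_ : t ∈ gs F pr n)
    (_ : Tame ℓ b (wI a) (-(((twl pr e).natDegree + n : ℕ) : ℤ))),
    (torsionGroup ℓ (pts (twl pr e * ∏ P ∈ t, P) a) b).relIndex
        (placesSelmer F[X] (RatFunc.inftyValuation F) ℓ (pts (twl pr e * ∏ P ∈ t, P) a) b) ≠ 0 ∧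
      (torsionGroup ℓ (pts (twl pr e * ∏ P ∈ t, P) a) b).relIndex
        (placesSelmer F[X] (RatFunc.inftyValuation F) ℓ (pts (twl pr e * ∏ P ∈ t, P) a) b) ≤
      nSol χ pr (fun v => sigV b a (pr v) (e v)) (lamV χ b a) t

end MP72e2e6
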