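import Pool.Agent.Lib.MP_72e2e6_nt.PqStmt

/-!
# MP_72e2e6_nt: the exact moments, the structure of the admissible sets
-/

set_option autoImplicit false

namespace MP72e2e6

open Polynomial

theorem pqa1_two {ℓ : ℕ} [Fact ℓ.Prime] (h2 : ℓ ≠ 2) {a : ZMod ℓ} (h : a = -a) : a = 0 := by
  have h3 : (2 : ZMod ℓ) * a = 0 := by linear_combination h
  rcases mul_eq_zero.1 h3 with h4 | h4
  · exfalso
    have h5 : ((2 : ℕ) : ZMod ℓ) = 0 := by exact_mod_cast h4
    rw [ZMod.natCast_eq_zero_iff] at h5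
    exact h2 ((Nat.prime_dvd_prime_iff_eq (Fact.out) Nat.prime_two).1 h5)
  · exact h4

theorem tPqA1 (hPpTS : StmtPpTS) : StmtPqA1 := by
  intro ℓ _ h2 V W _ _ _ σ Λ hinj c d η 𝓥 hA
  have hcard : 𝓥.card = Nat.card W := by rw [hA.card, Nat.card_eq_fintype_card]
  have hne : 𝓥.Nonempty := by
    rw [← Finset.card_pos, hA.card]
    exact Fintype.card_pos
  obtain ⟨⟨c₀, δ₀⟩, hu₀⟩ := hne
  obtain ⟨L, hmem, hQ, hE⟩ := (hPpTS ℓ W 𝓥 hA.unl).2 hcard _ hu₀
  set A : Submodule (ZMod ℓ) W := L.map (LinearMap.fst (ZMod ℓ) W (Module.Dual (ZMod ℓ) W))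
    with hAd
  have hmA : ∀ y, y ∈ A ↔ ∃ e, (y, e) ∈ L := by
    intro y
    rw [hAd, Submodule.mem_map]
    constructor
    · rintro ⟨⟨a, e⟩, h, rfl⟩
      exact ⟨e, h⟩
    · rintro ⟨e, h⟩
      exact ⟨(y, e), h, rfl⟩
  have hL𝓥 : ∀ x ∈ L, ((c₀, δ₀) + x) ∈ 𝓥 := by
    intro x hx
    rw [hmem, add_sub_cancel_left]
    exact hx
  have hkey : ∀ e : Module.Dual (ZMod ℓ) W, (∀ y ∈ A, e y = 0) → ∀ y ∈ A,
      (∀ v, e (σ v (c v - c₀ - y)) = 0) ∧ e (Λ (c₀ + y)) = 0 := by
    intro e he y hy
    obtain ⟨x2, hx⟩ := (hmA y).1 hy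
    have hx' : (y, x2 + e) ∈ L := by
      have h1 : ((0 : W), e) ∈ L := hE e fun x hx => he x.1 ((hmA _).2 ⟨x.2, hx⟩)
      have h3 := L.add_mem hx h1
      rwa [Prod.mk_add_mk, add_zero] at h3
    have hu := hL𝓥 _ hx
    have hu' := hL𝓥 _ hx'
    rw [Prod.mk_add_mk] at hu hu'
    refine ⟨fun v => ?_, ?_⟩
    · have h3 := hA.bad _ hu v
      have h4 := hA.bad _ hu' v
      simp only [alW, LinearMap.add_apply] at h3 h4
      have h5 : c v - c₀ - y = c v - (c₀ + y) := by abel
      rw [h5]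
      linear_combination h4 - h3
    · have h3 := hA.inf _ hu _ hu'
      simp only [aiW, LinearMap.add_apply] at h3
      linear_combination h3
  have hk1 : ∀ v, ∀ y ∈ A, σ v (c v - c₀ - y) ∈ A := by
    intro v y hy
    refine (Subspace.forall_mem_dualAnnihilator_apply_eq_zero_iff A _).1 fun e he => ?_
    exact ((hkey e ((Submodule.mem_dualAnnihilator e).1 he) y hy).1 v)
  have hk2 : ∀ y ∈ A, Λ (c₀ + y) ∈ A := by
    intro y hy
    refine (Subspace.forall_mem_dualAnnihilator_apply_eq_zero_iff A _).1 fun e he => ?_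
    exact (hkey e ((Submodule.mem_dualAnnihilator e).1 he) y hy).2
  have hσA : ∀ v, ∀ y ∈ A, σ v y ∈ A := by
    intro v y hy
    have h3 := A.sub_mem (hk1 v 0 A.zero_mem) (hk1 v y hy)
    rw [← map_sub] at h3
    have h4 : c v - c₀ - 0 - (c v - c₀ - y) = y := by abel
    rwa [h4] at h3
  have hΛA : ∀ y ∈ A, Λ y ∈ A := by
    intro y hy
    have h3 := A.sub_mem (hk2 y hy) (hk2 0 A.zero_mem)
    rw [← map_sub] at h3
    have h4 : c₀ + y - (c₀ + 0) = y := by abel
    rwa [h4] at h3
  have hcA : ∀ v, c v - c₀ ∈ A := by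
    intro v
    have h3 := hk1 v 0 A.zero_mem
    rw [sub_zero] at h3
    let f : A → A := fun y => ⟨σ v y, hσA v y y.2⟩
    have hf : Function.Injective f := by
      intro y y' h
      have h4 : σ v (y : W) = σ v (y' : W) := congrArg (fun z : A => (z : W)) h
      apply Subtype.ext
      apply sub_eq_zero.1
      apply hinj v
      rw [map_sub, h4, sub_self]
    have hf' : Function.Surjective f := Finite.surjective_of_injective hf
    obtain ⟨a, ha⟩ := hf' ⟨_, h3⟩
    have h5 : σ v (a : W) = σ v (c v - c₀) := congrArg (fun z : A => (z : W)) ha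
    have h6 : (a : W) = c v - c₀ := by
      apply sub_eq_zero.1
      apply hinj v
      rw [map_sub, h5, sub_self]
    rw [← h6]
    exact a.2
  refine ⟨A, ⟨hσA, hΛA⟩, ?_⟩
  by_cases hc : c₀ ∈ A
  · left
    obtain ⟨e₀, he₀⟩ := (hmA c₀).1 hc
    set d₀ : Module.Dual (ZMod ℓ) W := δ₀ - e₀ with hd₀
    have hmem' : ∀ u : W × Module.Dual (ZMod ℓ) W, u ∈ 𝓥 ↔ (u.1, u.2 - d₀) ∈ L := by
      intro u
      rw [hmem]
      have h3 : (u.1, u.2 - d₀) = u - (c₀, δ₀) + (c₀, e₀) := by
        refine Prod.ext ?_ ?_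
        · change u.1 = u.1 - c₀ + c₀
          rw [sub_add_cancel]
        · change u.2 - d₀ = u.2 - δ₀ + e₀
          rw [hd₀]
          abel
      rw [h3]
      constructor
      · intro h
        exact L.add_mem h he₀
      · intro h
        have h4 := L.sub_mem h he₀
        rwa [add_sub_cancel_right] at h4
    have hcA' : ∀ v, c v ∈ A := by
      intro v
      have h3 := A.add_mem (hcA v) hc
      rwa [sub_add_cancel] at h3
    -- the projection and its section
    let φ : L →ₗ[ZMod ℓ] A :=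
      (LinearMap.fst (ZMod ℓ) W (Module.Dual (ZMod ℓ) W) ∘ₗ L.subtype).codRestrict A
        (fun x => (hmA _).2 ⟨x.1.2, x.2⟩)
    have hφ : Function.Surjective φ := by
      intro y
      obtain ⟨e, he⟩ := (hmA y.1).1 y.2
      exact ⟨⟨(y.1, e), he⟩, Subtype.ext rfl⟩
    obtain ⟨s, hs⟩ := φ.exists_rightInverse_of_surjective (LinearMap.range_eq_top.2 hφ)
    let E : A →ₗ[ZMod ℓ] Module.Dual (ZMod ℓ) W :=
      LinearMap.snd (ZMod ℓ) W (Module.Dual (ZMod ℓ) W) ∘ₗ L.subtype ∘ₗ s
    have hEL : ∀ x : A, ((x : W), E x) ∈ L := by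
      intro x
      have h3 : ((s x : L) : W × Module.Dual (ZMod ℓ) W) = ((x : W), E x) := by
        refine Prod.ext ?_ rfl
        have h4 : φ (s x) = x := by
          have h5 := congrArg (fun f : A →ₗ[ZMod ℓ] A => f x) hs
          exact h5
        exact congrArg (fun z : A => (z : W)) h4
      rw [← h3]
      exact (s x).2
    let g : A →ₗ[ZMod ℓ] Module.Dual (ZMod ℓ) A := A.subtype.dualMap ∘ₗ E
    have hgE : ∀ x y : A, g x y = E x (y : W) := fun x y => rfl
    let δ : Module.Dual (ZMod ℓ) A := d₀ ∘ₗ A.subtype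
    have hδ : ∀ y : A, δ y = d₀ (y : W) := fun y => rfl
    have hA0 : ∀ e, ((0 : W), e) ∈ L → ∀ y ∈ A, e y = 0 := by
      intro e he y hy
      obtain ⟨x2, hx⟩ := (hmA y).1 hy
      have h3 := hQ _ hx
      have h4 := hQ _ (L.add_mem hx he)
      rw [Prod.mk_add_mk, add_zero] at h4
      simp only [LinearMap.add_apply] at h3 h4
      rw [h3, zero_add] at h4
      exact h4
    have hg' : ∀ (x : A) (e : Module.Dual (ZMod ℓ) W),
        ((x : W), e) ∈ L ↔ ∀ y : A, e (y : W) = g x y := by
      intro x e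
      constructor
      · intro h y
        have h3 := L.sub_mem h (hEL x)
        rw [Prod.mk_sub_mk, sub_self] at h3
        have h4 := hA0 _ h3 y y.2
        rw [LinearMap.sub_apply] at h4
        rw [hgE]
        exact sub_eq_zero.1 h4
      · intro h
        have h3 : ((0 : W), e - E x) ∈ L := by
          apply hE
          intro z hz
          have h4 : z.1 ∈ A := (hmA _).2 ⟨z.2, hz⟩
          have h5 := h ⟨z.1, h4⟩
          rw [hgE] at h5
          rw [LinearMap.sub_apply]
          exact sub_eq_zero.2 h5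
        have h4 := L.add_mem (hEL x) h3
        rwa [Prod.mk_add_mk, add_zero, add_sub_cancel] at h4
    have hgx : ∀ x : A, g x x = 0 := fun x => hQ _ (hEL x)
    have h𝓥 : ∀ u, u ∈ 𝓥 ↔ Vst A g δ u := by
      intro u
      rw [hmem']
      constructor
      · intro h
        have h3 : u.1 ∈ A := (hmA _).2 ⟨_, h⟩
        refine ⟨⟨u.1, h3⟩, rfl, fun y => ?_⟩
        have h4 := (hg' ⟨u.1, h3⟩ (u.2 - d₀)).1 h y
        rw [LinearMap.sub_apply] at h4
        rw [hδ]
        linear_combination h4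
      · rintro ⟨x, hx, hy⟩
        rw [← hx]
        refine (hg' x _).2 fun y => ?_
        rw [LinearMap.sub_apply, hy y, hδ]
        ring
    have hxV : ∀ x : A, ((x : W), d₀ + E x) ∈ 𝓥 := by
      intro x
      rw [hmem']
      change ((x : W), d₀ + E x - d₀) ∈ L
      rw [add_sub_cancel_left]
      exact hEL x
    have hbad : ∀ v (x y z : A), (x : W) = c v → (z : W) = σ v y →
        d v y - (δ z + g x z) = g y z := by
      intro v x y z hx hz
      have h3 := hA.bad _ (hxV (x + y)) v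
      simp only [alW, map_add, LinearMap.add_apply, Submodule.coe_add, hx, add_sub_cancel_left,
        sub_add_cancel_left, map_neg] at h3
      rw [hδ, hgE, hgE, hz]
      linear_combination h3
    have hodd : ∀ v (x y z : A), (x : W) = c v → (z : W) = σ v y →
        d v y - (δ z + g x z) = 0 := by
      intro v x y z hx hz
      apply pqa1_two h2
      have h3 := hbad v x y z hx hz
      have h4 := hbad v x (-y) (-z) hx (by
        rw [Submodule.coe_neg, Submodule.coe_neg, map_neg, hz])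
      simp only [map_neg, LinearMap.neg_apply, neg_neg, Submodule.coe_neg] at h4
      linear_combination h3 - h4
    have hinf : ∀ x z : A, (z : W) = Λ x → η x - δ z = g x z := by
      intro x z hz
      have h3 := hA.inf _ (hxV x) _ (hxV 0)
      simp only [aiW, map_zero, LinearMap.add_apply, sub_zero, Submodule.coe_zero] at h3
      rw [hδ, hgE, hz]
      linear_combination h3
    have hodd' : ∀ x z : A, (z : W) = Λ x → η x - δ z = 0 := by
      intro x z hz
      apply pqa1_two h2
      have h3 := hinf x z hz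
      have h4 := hinf (-x) (-z) (by
        rw [Submodule.coe_neg, Submodule.coe_neg, map_neg, hz])
      simp only [map_neg, LinearMap.neg_apply, neg_neg, Submodule.coe_neg] at h4
      linear_combination h3 - h4
    refine ⟨g, ?_, δ, ⟨hcA', ?_, ?_⟩, h𝓥⟩
    · intro x y h
      rcases h with h | ⟨v, h⟩ | h
      · have h3 : y = x := Subtype.ext h
        rw [h3]
        exact hgx x
      · rw [← hbad v ⟨c v, hcA' v⟩ x y rfl h]
        exact hodd v ⟨c v, hcA' v⟩ x y rfl h
      · rw [← hinf x y h]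
        exact hodd' x y h
    · intro v x y z hx hz
      exact sub_eq_zero.1 (hodd v x y z hx hz)
    · intro y z hz
      exact sub_eq_zero.1 (hodd' y z hz)
  · right
    refine ⟨c₀, hc, hcA, fun u hu => ?_⟩
    rw [hmem] at hu
    exact (hmA _).2 ⟨_, hu⟩

end MP72e2e6
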