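import Pool.Agent.Lib.MP_72e2e6_nt.PqStmt

/-!
# MP_72e2e6_nt: exact moments, the number of the data (PqA4)
-/

namespace MP72e2e6

open Polynomial

section

variable {ℓ : ℕ} [Fact ℓ.Prime] {W : Type} [AddCommGroup W] [Module (ZMod ℓ) W]

theorem pqa4_section (A : Submodule (ZMod ℓ) W) :
    ∃ s : Module.Dual (ZMod ℓ) A →ₗ[ZMod ℓ] Module.Dual (ZMod ℓ) W,
      ∀ (e : Module.Dual (ZMod ℓ) A) (y : A), s e (y : W) = e y := by
  obtain ⟨s, hs⟩ := LinearMap.exists_rightInverse_of_surjective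
    (Submodule.dualRestrict (R := ZMod ℓ) A)
    (LinearMap.range_eq_top.mpr Subspace.dualRestrict_surjective)
  refine ⟨s, fun e y => ?_⟩
  have h1 : Submodule.dualRestrict A (s e) = e := by
    have h2 := LinearMap.congr_fun hs e
    exact h2
  rw [← Submodule.dualRestrict_apply, h1]

theorem pqa4_card [Finite W] (A : Submodule (ZMod ℓ) W) :
    Nat.card (LinearMap.ker (Submodule.dualRestrict (R := ZMod ℓ) A)) * Nat.card A =
      Nat.card W := by
  have h1 := LinearMap.finrank_range_add_finrank_ker (Submodule.dualRestrict (R := ZMod ℓ) A)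
  rw [LinearMap.range_eq_top.mpr Subspace.dualRestrict_surjective, finrank_top,
    Subspace.dual_finrank_eq, Subspace.dual_finrank_eq] at h1
  rw [Module.natCard_eq_pow_finrank (K := ZMod ℓ) (V := W),
    Module.natCard_eq_pow_finrank (K := ZMod ℓ) (V := A),
    Module.natCard_eq_pow_finrank (K := ZMod ℓ)
      (V := LinearMap.ker (Submodule.dualRestrict (R := ZMod ℓ) A)), ← pow_add, ← h1]
  congr 1
  omega

theorem pqa4_dual [Finite W] (A : Submodule (ZMod ℓ) W) :
    Nat.card (Module.Dual (ZMod ℓ) A) = Nat.card A := by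
  rw [Module.natCard_eq_pow_finrank (K := ZMod ℓ) (V := A),
    Module.natCard_eq_pow_finrank (K := ZMod ℓ) (V := Module.Dual (ZMod ℓ) A),
    Subspace.dual_finrank_eq]

theorem pqa4_cda {V : Type} {σ : V → Module.End (ZMod ℓ) W} {Λ : Module.End (ZMod ℓ) W}
    {A : Submodule (ZMod ℓ) W} (hI : Inv σ Λ A) {g : A →ₗ[ZMod ℓ] Module.Dual (ZMod ℓ) A}
    {δ : Module.Dual (ZMod ℓ) A} {c : V → W} {d : V → Module.Dual (ZMod ℓ) W}
    {η : Module.Dual (ZMod ℓ) W} (cA : V → A) (hc : ∀ v, (cA v : W) = c v) :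
    CdA σ Λ A g δ c d η ↔
      (∀ v (y : A), d v y = (δ + g (cA v)) ((σ v).restrict (hI.sg v) y)) ∧
      ∀ y : A, η y = δ (Λ.restrict hI.lm y) := by
  constructor
  · intro h
    refine ⟨fun v y => ?_, fun y => ?_⟩
    · rw [h.bad v (cA v) y ((σ v).restrict (hI.sg v) y) (hc v) rfl, LinearMap.add_apply]
    · exact h.inf y _ rfl
  · rintro ⟨h1, h2⟩
    refine ⟨fun v => ?_, fun v x y z hx hz => ?_, fun y z hz => ?_⟩
    · rw [← hc v]
      exact (cA v).2
    · have hx' : x = cA v := Subtype.ext (hx.trans (hc v).symm)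
      have hz' : z = (σ v).restrict (hI.sg v) y := Subtype.ext hz
      rw [h1, hx', hz', LinearMap.add_apply]
    · have hz' : z = Λ.restrict hI.lm y := Subtype.ext hz
      rw [h2, hz']

end

theorem tPqA4 : StmtPqA4 := by
  intro ℓ _ V W _ _ _ _ σ Λ A hI g
  obtain ⟨s, hs⟩ := pqa4_section A
  let K := LinearMap.ker (Submodule.dualRestrict (R := ZMod ℓ) A)
  have hK : ∀ e : Module.Dual (ZMod ℓ) W, e ∈ K ↔ ∀ y : A, e (y : W) = 0 := by
    intro e
    rw [LinearMap.mem_ker]
    constructor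
    · intro h y
      rw [← Submodule.dualRestrict_apply, h, LinearMap.zero_apply]
    · intro h
      ext y
      rw [Submodule.dualRestrict_apply, h y, LinearMap.zero_apply]
  let φ : Module.Dual (ZMod ℓ) A → A → V → Module.Dual (ZMod ℓ) A := fun δ x v =>
    (δ + g x) ∘ₗ (σ v).restrict (hI.sg v)
  let φ' : Module.Dual (ZMod ℓ) A → Module.Dual (ZMod ℓ) A := fun δ => δ ∘ₗ Λ.restrict hI.lm
  let e : {x : Module.Dual (ZMod ℓ) A × (V → W) × (V → Module.Dual (ZMod ℓ) W) ×
        Module.Dual (ZMod ℓ) W // CdA σ Λ A g x.1 x.2.1 x.2.2.1 x.2.2.2} ≃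
      Module.Dual (ZMod ℓ) A × (V → A) × (V → K) × K :=
    { toFun := fun x => (x.1.1, fun v => ⟨x.1.2.1 v, x.2.mem v⟩,
        fun v => ⟨x.1.2.2.1 v - s (φ x.1.1 ⟨x.1.2.1 v, x.2.mem v⟩ v), by
          rw [hK]
          intro y
          rw [LinearMap.sub_apply, hs]
          have h1 := ((pqa4_cda hI (fun v => ⟨x.1.2.1 v, x.2.mem v⟩) fun _ => rfl).mp x.2).1 v y
          rw [h1]
          exact sub_self _⟩,
        ⟨x.1.2.2.2 - s (φ' x.1.1), by
          rw [hK]
          intro y
          rw [LinearMap.sub_apply, hs]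
          have h1 := ((pqa4_cda hI (fun v => ⟨x.1.2.1 v, x.2.mem v⟩) fun _ => rfl).mp x.2).2 y
          rw [h1]
          exact sub_self _⟩)
      invFun := fun y => ⟨(y.1, fun v => (y.2.1 v : W),
        fun v => s (φ y.1 (y.2.1 v) v) + (y.2.2.1 v : Module.Dual (ZMod ℓ) W),
        s (φ' y.1) + (y.2.2.2 : Module.Dual (ZMod ℓ) W)), by
          rw [pqa4_cda hI y.2.1 fun _ => rfl]
          refine ⟨fun v z => ?_, fun z => ?_⟩
          · show (s (φ y.1 (y.2.1 v) v) + (y.2.2.1 v : Module.Dual (ZMod ℓ) W)) (z : W) = _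
            rw [LinearMap.add_apply, hs, (hK _).mp (y.2.2.1 v).2 z, add_zero]
            rfl
          · show (s (φ' y.1) + (y.2.2.2 : Module.Dual (ZMod ℓ) W)) (z : W) = _
            rw [LinearMap.add_apply, hs, (hK _).mp y.2.2.2.2 z, add_zero]
            rfl⟩
      left_inv := by
        rintro ⟨⟨δ, c, d, η⟩, h⟩
        apply Subtype.ext
        refine Prod.ext rfl (Prod.ext rfl (Prod.ext ?_ ?_))
        · funext v
          exact add_sub_cancel _ _
        · exact add_sub_cancel _ _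
      right_inv := by
        rintro ⟨δ, c, κ, κ'⟩
        refine Prod.ext rfl (Prod.ext rfl (Prod.ext ?_ ?_))
        · funext v
          apply Subtype.ext
          exact add_sub_cancel_left _ _
        · apply Subtype.ext
          exact add_sub_cancel_left _ _ }
  rw [Nat.card_congr e, Nat.card_prod, Nat.card_prod, Nat.card_prod, Nat.card_fun, Nat.card_fun,
    pqa4_dual, ← pqa4_card A, Nat.card_eq_fintype_card (α := V)]
  show Nat.card A * (Nat.card A ^ Fintype.card V * (Nat.card K ^ Fintype.card V * Nat.card K)) =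
    (Nat.card K * Nat.card A) ^ (Fintype.card V + 1)
  ring

end MP72e2e6
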