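import Pool.Agent.Lib.MP_72e2e6_nt.PqStmt

set_option autoImplicit false

/-!
# MP_72e2e6_nt: PqBil (orders of `HomS`, `BilS`, `Sk`)
-/

namespace MP72e2e6

section bil

variable {ℓ : ℕ} [Fact ℓ.Prime] {V : Type} (S : Sys ℓ V)

theorem pqbil_fin1 : Finite (S.W →ₗ[ZMod ℓ] S.W) :=
  Finite.of_injective (fun f : S.W →ₗ[ZMod ℓ] S.W => (f : S.W → S.W)) DFunLike.coe_injective

theorem pqbil_fin2 : Finite (Module.Dual (ZMod ℓ) S.W) := by
  have : NeZero ℓ := ⟨(Fact.out : ℓ.Prime).ne_zero⟩
  exact Finite.of_injective (fun f : Module.Dual (ZMod ℓ) S.W => (f : S.W → ZMod ℓ))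
    DFunLike.coe_injective

theorem pqbil_fin3 : Finite (S.W →ₗ[ZMod ℓ] Module.Dual (ZMod ℓ) S.W) := by
  have := pqbil_fin2 S
  exact Finite.of_injective (fun f : S.W →ₗ[ZMod ℓ] Module.Dual (ZMod ℓ) S.W =>
    (f : S.W → Module.Dual (ZMod ℓ) S.W)) DFunLike.coe_injective

theorem pqbil_card (hS : Nontrivial S.W) : ℓ ≤ Nat.card (HomS S S) := by
  have := pqbil_fin1 S
  have : NeZero ℓ := ⟨(Fact.out : ℓ.Prime).ne_zero⟩
  have hmem : ∀ c : ZMod ℓ, c • (LinearMap.id : S.W →ₗ[ZMod ℓ] S.W) ∈ HomS S S := by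
    intro c
    apply Submodule.smul_mem
    exact ⟨fun _ _ => rfl, fun _ => rfl⟩
  have h : Function.Injective fun c : ZMod ℓ =>
      (⟨c • (LinearMap.id : S.W →ₗ[ZMod ℓ] S.W), hmem c⟩ : HomS S S) := by
    intro a b hab
    have h1 := congrArg Subtype.val hab
    obtain ⟨w, hw⟩ := exists_ne (0 : S.W)
    have h2 : a • w = b • w := by
      have := LinearMap.congr_fun h1 w
      simpa using this
    exact smul_left_injective (ZMod ℓ) hw h2
  have h3 := Nat.card_le_card_of_injective _ h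
  rwa [Nat.card_zmod] at h3

theorem pqbil_sk : Sk S.σ S.Λ ≤ BilS S S := by
  intro g hg
  have h0 : ∀ x y, g x y = - g y x := by
    intro x y
    have h := (hg (x + y)).1
    rw [map_add, map_add, LinearMap.add_apply, LinearMap.add_apply, (hg x).1, (hg y).1] at h
    simp only [zero_add, add_zero] at h
    exact (eq_neg_of_add_eq_zero_right h)
  refine ⟨fun v x y => ?_, fun x y => ?_⟩
  · have h := (hg (x + y)).2.1 v
    rw [map_add, LinearMap.add_apply, map_add, map_add, map_add, (hg x).2.1 v, (hg y).2.1 v] at h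
    simp only [zero_add, add_zero] at h
    rw [h0 (S.σ v x) y]
    exact (eq_neg_of_add_eq_zero_left h).symm
  · have h := (hg (x + y)).2.2
    rw [map_add, LinearMap.add_apply, map_add, map_add, map_add, (hg x).2.2, (hg y).2.2] at h
    simp only [zero_add, add_zero] at h
    rw [h0 (S.Λ x) y]
    exact (eq_neg_of_add_eq_zero_left h).symm

theorem pqbil_bij (hS : IrrW S.σ S.Λ) (g : S.W →ₗ[ZMod ℓ] Module.Dual (ZMod ℓ) S.W)
    (hg : g ∈ BilS S S) (h0 : g ≠ 0) : Function.Bijective g := by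
  have hinj : Function.Injective g := by
    rw [← LinearMap.ker_eq_bot]
    have k1 : ∀ v, ∀ y ∈ LinearMap.ker g, S.σ v y ∈ LinearMap.ker g := by
      intro v y hy
      rw [LinearMap.mem_ker] at hy ⊢
      ext z
      rw [hg.1, hy]
      rfl
    have k2 : ∀ y ∈ LinearMap.ker g, S.Λ y ∈ LinearMap.ker g := by
      intro y hy
      rw [LinearMap.mem_ker] at hy ⊢
      ext z
      rw [hg.2, hy]
      rfl
    rcases hS.irr (LinearMap.ker g) k1 k2 with h | h
    · exact h
    · exact absurd (LinearMap.ker_eq_top.1 h) h0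
  refine ⟨hinj, ?_⟩
  have hf : Module.Finite (ZMod ℓ) S.W := Module.Finite.of_finite
  have hd : Module.finrank (ZMod ℓ) S.W = Module.finrank (ZMod ℓ) (Module.Dual (ZMod ℓ) S.W) :=
    (Subspace.dual_finrank_eq).symm
  exact (LinearMap.injective_iff_surjective_of_finrank_eq_finrank hd).1 hinj

theorem pqbil_eq (hS : IrrW S.σ S.Λ) (g : S.W →ₗ[ZMod ℓ] Module.Dual (ZMod ℓ) S.W)
    (hg : g ∈ BilS S S) (h0 : g ≠ 0) : Nat.card (BilS S S) = Nat.card (HomS S S) := by
  have hb := pqbil_bij S hS g hg h0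
  symm
  apply Nat.card_eq_of_bijective
    (fun κ : HomS S S => (⟨g ∘ₗ κ.1, by
      refine ⟨fun v x y => ?_, fun x y => ?_⟩
      · rw [LinearMap.comp_apply, LinearMap.comp_apply, κ.2.1, hg.1]
      · rw [LinearMap.comp_apply, LinearMap.comp_apply, κ.2.2, hg.2]⟩ : BilS S S))
  constructor
  · intro a b hab
    have h1 := congrArg Subtype.val hab
    apply Subtype.ext
    ext x
    have h2 := LinearMap.congr_fun h1 x
    exact hb.1 h2
  · intro h
    let e := LinearEquiv.ofBijective g hb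
    have he : ∀ x, g (e.symm x) = x := fun x => e.apply_symm_apply x
    refine ⟨⟨e.symm.toLinearMap ∘ₗ h.1, ?_⟩, ?_⟩
    · refine ⟨fun v x => ?_, fun x => ?_⟩
      · apply hb.1
        ext y
        rw [LinearMap.comp_apply, LinearMap.comp_apply, hg.1]
        simp only [LinearEquiv.coe_coe, he]
        rw [h.2.1]
      · apply hb.1
        ext y
        rw [LinearMap.comp_apply, LinearMap.comp_apply, hg.2]
        simp only [LinearEquiv.coe_coe, he]
        rw [h.2.2]
    · apply Subtype.ext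
      ext x y
      simp only [LinearMap.comp_apply, LinearEquiv.coe_coe, he]

theorem pqbil_lt (h : ¬ BilS S S ≤ Sk S.σ S.Λ) :
    Nat.card (Sk S.σ S.Λ) * ℓ ≤ Nat.card (BilS S S) := by
  have := pqbil_fin3 S
  have : NeZero ℓ := ⟨(Fact.out : ℓ.Prime).ne_zero⟩
  obtain ⟨b, hb1, hb2⟩ := SetLike.not_le_iff_exists.1 h
  have hmem : ∀ p : Sk S.σ S.Λ × ZMod ℓ, p.1.1 + p.2 • b ∈ BilS S S := fun p =>
    Submodule.add_mem _ (pqbil_sk S p.1.2) (Submodule.smul_mem _ _ hb1)
  have hinj : Function.Injective fun p : Sk S.σ S.Λ × ZMod ℓ =>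
      (⟨p.1.1 + p.2 • b, hmem p⟩ : BilS S S) := by
    rintro ⟨s, c⟩ ⟨s', c'⟩ hp
    have h1 : s.1 + c • b = s'.1 + c' • b := congrArg Subtype.val hp
    have h2 : ∀ x y, s.1 x y + c * b x y = s'.1 x y + c' * b x y := by
      intro x y
      have := LinearMap.congr_fun (LinearMap.congr_fun h1 x) y
      simpa using this
    by_cases hc : c = c'
    · subst hc
      have h3 : s = s' := by
        apply Subtype.ext
        ext x y
        exact add_right_cancel (h2 x y)
      rw [h3]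
    · exfalso
      apply hb2
      have h3 : c - c' ≠ 0 := sub_ne_zero.2 hc
      have h4 : ∀ x y, s.1 x y = 0 → s'.1 x y = 0 → b x y = 0 := by
        intro x y hs hs'
        have h5 := h2 x y
        rw [hs, hs', zero_add, zero_add] at h5
        have h6 : (c - c') * b x y = 0 := by rw [sub_mul, h5, sub_self]
        exact (mul_eq_zero.1 h6).resolve_left h3
      intro x
      exact ⟨h4 _ _ (s.2 x).1 (s'.2 x).1, fun v => h4 _ _ ((s.2 x).2.1 v) ((s'.2 x).2.1 v),
        h4 _ _ (s.2 x).2.2 (s'.2 x).2.2⟩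
  have h3 := Nat.card_le_card_of_injective _ hinj
  rwa [Nat.card_prod, Nat.card_zmod] at h3

end bil

theorem tPqBil : StmtPqBil := by
  intro ℓ _ V S hS
  have := pqbil_fin3 S
  refine ⟨pqbil_card S hS.nontriv, ?_⟩
  by_cases hb : BilS S S = ⊥
  · left
    have hs : Sk S.σ S.Λ = ⊥ := by
      rw [eq_bot_iff, ← hb]
      exact pqbil_sk S
    rw [hb, hs]
    constructor <;> exact Nat.card_unique
  · right
    obtain ⟨g, hg, h0⟩ := (Submodule.ne_bot_iff _).1 hb
    have e := pqbil_eq S hS g hg h0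
    refine ⟨e, ?_, ?_⟩
    · exact Nat.card_pos
    · by_cases h : BilS S S ≤ Sk S.σ S.Λ
      · left
        rw [← e, le_antisymm h (pqbil_sk S)]
      · right
        rw [← e]
        exact pqbil_lt S h

end MP72e2e6
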