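import Pool.Agent.Lib.MP_72e2e6_nt.PqStmt

/-!
# MP_72e2e6_nt: the exact moments, the number of primitive solutions of a product
-/

set_option autoImplicit false

namespace MP72e2e6

open Polynomial

universe u

/-! ### Linearly independent families -/

theorem pqct_pow {D : Type} {X : Type u} [Ring D] [Nontrivial D]
    (h : ∀ a : D, IsUnit a ∨ a = 0) [AddCommGroup X] [Module D X] [Finite X] :
    ∃ r : ℕ, Nat.card X = Nat.card D ^ r := by
  let _ : DivisionRing D := DivisionRing.ofIsUnitOrEqZero h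
  exact ⟨_, Module.natCard_eq_pow_finrank⟩

theorem pqct_li {D : Type} {X : Type u} [Ring D] [Nontrivial D] [Finite D]
    (h : ∀ a : D, IsUnit a ∨ a = 0) [AddCommGroup X] [Module D X] [Finite X] (a : ℕ) :
    (Nat.card {y : Fin a → X // LinearIndependent D y} : ℝ) =
      ∏ j ∈ Finset.range a, ((Nat.card X : ℝ) - (Nat.card D : ℝ) ^ j) := by
  let _ : DivisionRing D := DivisionRing.ofIsUnitOrEqZero h
  let _ : Fintype D := Fintype.ofFinite D
  have hX : Nat.card X = Nat.card D ^ Module.finrank D X := Module.natCard_eq_pow_finrank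
  by_cases har : a ≤ Module.finrank D X
  · rw [card_linearIndependent har, Nat.cast_prod,
      ← Fin.prod_univ_eq_prod_range (fun j => ((Nat.card X : ℝ) - (Nat.card D : ℝ) ^ j)) a]
    refine Finset.prod_congr rfl fun j _ => ?_
    rw [Nat.cast_sub (Nat.pow_le_pow_right Fintype.card_pos (by omega)), hX,
      Nat.card_eq_fintype_card]
    push_cast
    rfl
  · push Not at har
    have h1 : IsEmpty {y : Fin a → X // LinearIndependent D y} := ⟨fun y => by
      have h2 := y.2.fintype_card_le_finrank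
      rw [Fintype.card_fin] at h2
      omega⟩
    rw [Nat.card_of_isEmpty, Nat.cast_zero, eq_comm]
    apply Finset.prod_eq_zero (Finset.mem_range.2 har)
    rw [hX]
    push_cast
    exact sub_self _

/-! ### The ring of operators -/

section

variable {ℓ : ℕ} {V : Type}

/-- The ring of operators. -/
def pqct_D (T : Sys ℓ V) : Subring (Module.End (ZMod ℓ) T.W) where
  carrier := {κ | κ ∈ HomS T T}
  mul_mem' := by
    rintro a b ⟨ha1, ha2⟩ ⟨hb1, hb2⟩
    refine ⟨fun v x => ?_, fun x => ?_⟩
    · rw [Module.End.mul_apply, Module.End.mul_apply, hb1, ha1]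
    · rw [Module.End.mul_apply, Module.End.mul_apply, hb2, ha2]
  one_mem' := ⟨fun _ _ => rfl, fun _ => rfl⟩
  add_mem' := fun ha hb => (HomS T T).add_mem ha hb
  zero_mem' := (HomS T T).zero_mem
  neg_mem' := fun ha => (HomS T T).neg_mem ha

theorem pqct_D_mem (T : Sys ℓ V) (κ : Module.End (ZMod ℓ) T.W) :
    κ ∈ pqct_D T ↔ κ ∈ HomS T T := Iff.rfl

theorem pqct_unit (T : Sys ℓ V) (hT : IrrW T.σ T.Λ) (κ : pqct_D T) :
    IsUnit κ ∨ κ = 0 := by
  obtain ⟨κ, hκ⟩ := κ
  obtain ⟨h1, h2⟩ := (pqct_D_mem T κ).1 hκ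
  have h3 : ∀ v, ∀ y ∈ LinearMap.ker κ, T.σ v y ∈ LinearMap.ker κ := by
    intro v y hy
    rw [LinearMap.mem_ker] at hy ⊢
    rw [h1, hy, map_zero]
  have h4 : ∀ y ∈ LinearMap.ker κ, T.Λ y ∈ LinearMap.ker κ := by
    intro y hy
    rw [LinearMap.mem_ker] at hy ⊢
    rw [h2, hy, map_zero]
  rcases hT.irr _ h3 h4 with h | h
  · left
    have hinj : Function.Injective κ := LinearMap.ker_eq_bot.1 h
    have hbij : Function.Bijective κ := ⟨hinj, Finite.surjective_of_injective hinj⟩
    let e := LinearEquiv.ofBijective κ hbij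
    have he : ∀ x, κ (e.symm x) = x := fun x => e.apply_symm_apply x
    have he' : ∀ x, e.symm (κ x) = x := fun x => e.symm_apply_apply x
    have hs : (e.symm : T.W →ₗ[ZMod ℓ] T.W) ∈ pqct_D T := by
      rw [pqct_D_mem]
      refine ⟨fun v x => ?_, fun x => ?_⟩
      · apply hinj
        change κ (e.symm (T.σ v x)) = κ (T.σ v (e.symm x))
        rw [he, h1, he]
      · apply hinj
        change κ (e.symm (T.Λ x)) = κ (T.Λ (e.symm x))
        rw [he, h2, he]
    refine ⟨⟨⟨κ, hκ⟩, ⟨(e.symm : T.W →ₗ[ZMod ℓ] T.W), hs⟩, ?_, ?_⟩, rfl⟩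
    · apply Subtype.ext
      apply LinearMap.ext
      intro x
      exact he x
    · apply Subtype.ext
      apply LinearMap.ext
      intro x
      exact he' x
  · right
    apply Subtype.ext
    apply LinearMap.ext
    intro x
    have h5 : x ∈ LinearMap.ker κ := by
      rw [h]
      exact Submodule.mem_top
    exact h5

theorem pqct_finite (T : Sys ℓ V) : Finite (pqct_D T) := by
  have h1 : Finite (Module.End (ZMod ℓ) T.W) :=
    Finite.of_injective (fun f : Module.End (ZMod ℓ) T.W => (f : T.W → T.W))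
      DFunLike.coe_injective
  exact Subtype.finite

theorem pqct_nontrivial (T : Sys ℓ V) (hT : IrrW T.σ T.Λ) : Nontrivial (pqct_D T) := by
  have := hT.nontriv
  obtain ⟨x, hx⟩ := exists_ne (0 : T.W)
  refine ⟨⟨0, 1, fun h => ?_⟩⟩
  apply hx
  have h1 : (0 : Module.End (ZMod ℓ) T.W) = 1 := congrArg (fun z : pqct_D T => z.1) h
  have h2 := congrArg (fun f : Module.End (ZMod ℓ) T.W => f x) h1
  exact h2.symm

theorem pqct_card (T : Sys ℓ V) : Nat.card (pqct_D T) = Nat.card (HomS T T) := rfl

/-! ### The solutions -/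

variable {F : Type u} [Field F] [Fintype V]

/-- The module of the solutions. -/
def pqct_X (χ : F → ZMod ℓ) (pr : V → F[X]) (t : Finset F[X]) (T : Sys ℓ V) :
    Submodule (pqct_D T) ((V → T.W) × (t → T.W)) where
  carrier := {x | SolW χ pr T.σ T.Λ t x.1 x.2}
  add_mem' := by
    rintro x y hx hy
    refine ⟨?_, fun v => ?_, fun P => ?_⟩
    · have h1 := hx.inf
      have h2 := hy.inf
      simp only [Prod.fst_add, Prod.snd_add, Pi.add_apply, map_add, smul_add,
        Finset.sum_add_distrib]
      rw [add_add_add_comm, h1, h2, add_zero]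
    · have h1 := hx.bad v
      have h2 := hy.bad v
      have h3 : ∀ v', syl χ (pr v) (pr v') • T.σ v' ((x + y).1 v' - (x + y).1 v) =
          syl χ (pr v) (pr v') • T.σ v' (x.1 v' - x.1 v) +
          syl χ (pr v) (pr v') • T.σ v' (y.1 v' - y.1 v) := by
        intro v'
        rw [← smul_add, ← map_add, Prod.fst_add, Pi.add_apply, Pi.add_apply, add_sub_add_comm]
      have h4 : ∀ P : t, syl χ (pr v) P.1 • ((x + y).2 P - (x + y).1 v) =
          syl χ (pr v) P.1 • (x.2 P - x.1 v) + syl χ (pr v) P.1 • (y.2 P - y.1 v) := by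
        intro P
        rw [← smul_add, Prod.fst_add, Prod.snd_add, Pi.add_apply, Pi.add_apply,
          add_sub_add_comm]
      rw [Finset.sum_congr rfl fun v' _ => h3 v', Finset.sum_congr rfl fun P _ => h4 P,
        Finset.sum_add_distrib, Finset.sum_add_distrib, add_add_add_comm, h1, h2, ← smul_add,
        ← map_add]
      rfl
    · have h1 := hx.good P
      have h2 := hy.good P
      have h3 : ∀ v, syl χ P.1 (pr v) • T.σ v ((x + y).1 v - (x + y).2 P) =
          syl χ P.1 (pr v) • T.σ v (x.1 v - x.2 P) +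
          syl χ P.1 (pr v) • T.σ v (y.1 v - y.2 P) := by
        intro v
        rw [← smul_add, ← map_add, Prod.fst_add, Prod.snd_add, Pi.add_apply, Pi.add_apply,
          add_sub_add_comm]
      have h4 : ∀ Q : t, syl χ P.1 Q.1 • ((x + y).2 Q - (x + y).2 P) =
          syl χ P.1 Q.1 • (x.2 Q - x.2 P) + syl χ P.1 Q.1 • (y.2 Q - y.2 P) := by
        intro Q
        rw [← smul_add, Prod.snd_add, Pi.add_apply, Pi.add_apply, add_sub_add_comm]
      rw [Finset.sum_congr rfl fun v _ => h3 v, Finset.sum_congr rfl fun Q _ => h4 Q,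
        Finset.sum_add_distrib, Finset.sum_add_distrib, add_add_add_comm, h1, h2, ← smul_add,
        ← map_add]
      rfl
  zero_mem' := by
    refine ⟨?_, fun v => ?_, fun P => ?_⟩
    · simp
    · simp
    · simp
  smul_mem' := by
    intro κ x hx
    obtain ⟨hk1, hk2⟩ := (pqct_D_mem T κ.1).1 κ.2
    refine ⟨?_, fun v => ?_, fun P => ?_⟩
    · have h1 := congrArg κ.1 hx.inf
      simp only [map_add, map_sum, map_smul, map_zero, hk1] at h1
      exact h1
    · have h1 := congrArg κ.1 (hx.bad v)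
      simp only [map_add, map_sum, map_smul, hk1, hk2, map_sub] at h1
      simp only [map_sub]
      exact h1
    · have h1 := congrArg κ.1 (hx.good P)
      simp only [map_add, map_sum, map_smul, hk1, hk2, map_sub] at h1
      simp only [map_sub]
      exact h1

theorem pqct_X_card (χ : F → ZMod ℓ) (pr : V → F[X]) (t : Finset F[X]) (T : Sys ℓ V) :
    Nat.card (pqct_X χ pr t T) = T.sol χ pr t := rfl

/-! ### Products -/

variable {I : Type} [Finite I]

/-- The projection to a factor. -/
def pqct_pr (S : I → Sys ℓ V) (p : I) : (Sys.pi S).W →ₗ[ZMod ℓ] (S p).W :=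
  LinearMap.proj (φ := fun q => (S q).W) p

omit [Fintype V] in
theorem pqct_pr_sg (S : I → Sys ℓ V) (v : V) (y : (Sys.pi S).W) (p : I) :
    pqct_pr S p ((Sys.pi S).σ v y) = (S p).σ v (pqct_pr S p y) := rfl

omit [Fintype V] in
theorem pqct_pr_lm (S : I → Sys ℓ V) (y : (Sys.pi S).W) (p : I) :
    pqct_pr S p ((Sys.pi S).Λ y) = (S p).Λ (pqct_pr S p y) := rfl

omit [Fintype V] in
theorem pqct_ext (S : I → Sys ℓ V) {x y : (Sys.pi S).W}
    (h : ∀ p, pqct_pr S p x = pqct_pr S p y) : x = y := funext h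

theorem pqct_sol (χ : F → ZMod ℓ) (pr : V → F[X]) (t : Finset F[X]) (S : I → Sys ℓ V)
    (c : V → (Sys.pi S).W) (f : t → (Sys.pi S).W) :
    SolW χ pr (Sys.pi S).σ (Sys.pi S).Λ t c f ↔
      ∀ p, SolW χ pr (S p).σ (S p).Λ t (fun v => pqct_pr S p (c v))
        (fun P => pqct_pr S p (f P)) := by
  constructor
  · intro h p
    refine ⟨?_, fun v => ?_, fun P => ?_⟩
    · have h1 := congrArg (pqct_pr S p) h.inf
      simp only [map_add, map_sum, map_smul, map_zero, pqct_pr_sg] at h1
      exact h1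
    · have h1 := congrArg (pqct_pr S p) (h.bad v)
      simp only [map_add, map_sum, map_smul, map_sub, pqct_pr_sg, pqct_pr_lm] at h1
      simp only [map_sub]
      exact h1
    · have h1 := congrArg (pqct_pr S p) (h.good P)
      simp only [map_add, map_sum, map_smul, map_sub, pqct_pr_sg, pqct_pr_lm] at h1
      simp only [map_sub]
      exact h1
  · intro h
    refine ⟨?_, fun v => ?_, fun P => ?_⟩
    · apply pqct_ext
      intro p
      have h1 := (h p).inf
      simp only [map_add, map_sum, map_smul, map_zero, pqct_pr_sg]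
      exact h1
    · apply pqct_ext
      intro p
      have h1 := (h p).bad v
      simp only [map_add, map_sum, map_smul, map_sub, pqct_pr_sg, pqct_pr_lm]
      simp only [map_sub] at h1
      exact h1
    · apply pqct_ext
      intro p
      have h1 := (h p).good P
      simp only [map_add, map_sum, map_smul, map_sub, pqct_pr_sg, pqct_pr_lm]
      simp only [map_sub] at h1
      exact h1

/-- Linear independence. -/
theorem pqct_ind (χ : F → ZMod ℓ) (pr : V → F[X]) (t : Finset F[X]) (T : Sys ℓ V) (a : ℕ)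
    (y : Fin a → pqct_X χ pr t T) :
    LinearIndependent (pqct_D T) y ↔
      ∀ c : Fin a → (T.W →ₗ[ZMod ℓ] T.W), (∀ j, c j ∈ HomS T T) →
        (∀ k : V ⊕ t, ∑ j, c j (Sum.elim (y j).1.1 (y j).1.2 k) = 0) → ∀ j, c j = 0 := by
  rw [Fintype.linearIndependent_iff]
  constructor
  · intro h c hc h0 j
    have h1 := h (fun j => ⟨c j, hc j⟩) ?_ j
    · exact congrArg (fun z : pqct_D T => z.1) h1
    · apply Subtype.ext
      rw [Submodule.coe_sum, Submodule.coe_zero]
      apply Prod.ext
      · funext v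
        rw [Prod.fst_sum, Finset.sum_apply]
        exact h0 (Sum.inl v)
      · funext P
        rw [Prod.snd_sum, Finset.sum_apply]
        exact h0 (Sum.inr P)
  · intro h g hg j
    have h1 := h (fun j => (g j).1) (fun j => (g j).2) ?_ j
    · exact Subtype.ext h1
    · have h2 : (∑ j, g j • y j : pqct_X χ pr t T).1 = 0 := congrArg Subtype.val hg
      rw [Submodule.coe_sum] at h2
      rintro (v | P)
      · have h3 := congrArg (fun z : (V → T.W) × (t → T.W) => z.1 v) h2
        simp only [Prod.fst_sum, Finset.sum_apply] at h3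
        exact h3
      · have h3 := congrArg (fun z : (V → T.W) × (t → T.W) => z.2 P) h2
        simp only [Prod.snd_sum, Finset.sum_apply] at h3
        exact h3

end

theorem tPqCt.{v} (hPqGen : StmtPqGen.{v}) : StmtPqCt.{v} := by
  intro F _ ℓ _ V _ χ pr ι _ S hS t
  have hfD : ∀ i, Finite (pqct_D (S i)) := fun i => pqct_finite (S i)
  have hnD : ∀ i, Nontrivial (pqct_D (S i)) := fun i => pqct_nontrivial (S i) (hS.irr i)
  refine ⟨fun a => ?_, fun i => ?_⟩
  · -- the bijection
    let T : Sys ℓ V := Sys.pi fun p : (Σ i, Fin (a i)) => S p.1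
    let Y : ι → Type v := fun i => (V → (S i).W) × (t → (S i).W)
    let e : ((V → T.W) × (t → T.W)) ≃ (∀ i, Fin (a i) → Y i) :=
      { toFun := fun x i j => (fun v => x.1 v ⟨i, j⟩, fun P => x.2 P ⟨i, j⟩)
        invFun := fun y => (fun v p => (y p.1 p.2).1 v, fun P p => (y p.1 p.2).2 P)
        left_inv := fun _ => rfl
        right_inv := fun _ => rfl }
    let C : ∀ i, (Fin (a i) → Y i) → Prop := fun i z =>
      (∀ j, SolW χ pr (S i).σ (S i).Λ t (z j).1 (z j).2) ∧
        ∀ c : Fin (a i) → ((S i).W →ₗ[ZMod ℓ] (S i).W), (∀ j, c j ∈ HomS (S i) (S i)) →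
          (∀ k : V ⊕ t, ∑ j, c j (Sum.elim (z j).1 (z j).2 k) = 0) → ∀ j, c j = 0
    have h1 : ∀ x : (V → T.W) × (t → T.W),
        (SolW χ pr T.σ T.Λ t x.1 x.2 ∧
          ∀ A, Inv T.σ T.Λ A → (∀ v, x.1 v ∈ A) → (∀ P, x.2 P ∈ A) → A = ⊤) ↔
        ∀ i, C i (e x i) := by
      intro x
      have h2 := pqct_sol χ pr t (fun p : (Σ i, Fin (a i)) => S p.1) x.1 x.2
      have h3 := hPqGen ℓ V ι S hS.irr hS.hom a (V ⊕ t) (Sum.elim x.1 x.2)
      have h4 : (∀ A, Inv T.σ T.Λ A → (∀ v, x.1 v ∈ A) → (∀ P, x.2 P ∈ A) → A = ⊤) ↔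
          ∀ (i : ι) (c : Fin (a i) → ((S i).W →ₗ[ZMod ℓ] (S i).W)),
            (∀ j, c j ∈ HomS (S i) (S i)) →
            (∀ k : V ⊕ t, ∑ j, c j (Sum.elim (e x i j).1 (e x i j).2 k) = 0) →
              ∀ j, c j = 0 := by
        constructor
        · intro h i c hc h0 j
          refine h3.1 (fun A hA hk => h A hA (fun v => hk (Sum.inl v))
            (fun P => hk (Sum.inr P))) i c hc (fun k => ?_) j
          rcases k with v | P
          · exact h0 (Sum.inl v)
          · exact h0 (Sum.inr P)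
        · intro h A hA h5 h6
          refine h3.2 (fun i c hc h0 j => ?_) A hA ?_
          · refine h i c hc (fun k => ?_) j
            rcases k with v | P
            · exact h0 (Sum.inl v)
            · exact h0 (Sum.inr P)
          · rintro (v | P)
            · exact h5 v
            · exact h6 P
      rw [h4]
      constructor
      · rintro ⟨h5, h6⟩ i
        exact ⟨fun j => (h2.1 h5) ⟨i, j⟩, h6 i⟩
      · intro h
        exact ⟨h2.2 fun p => (h p.1).1 p.2, fun i => (h i).2⟩
    have h5 : (Sys.pi fun p : (Σ i, Fin (a i)) => S p.1).prim χ pr t =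
        ∏ i, Nat.card {z : Fin (a i) → Y i // C i z} := by
      rw [← Nat.card_pi]
      exact Nat.card_congr ((Equiv.subtypeEquiv e h1).trans Equiv.subtypePiEquivPi)
    have h6 : ∀ i, Nat.card {z : Fin (a i) → Y i // C i z} =
        Nat.card {y : Fin (a i) → pqct_X χ pr t (S i) // LinearIndependent (pqct_D (S i)) y} := by
      intro i
      refine Nat.card_congr
        { toFun := fun z => ⟨fun j => ⟨z.1 j, z.2.1 j⟩, (pqct_ind χ pr t (S i) (a i) _).2 z.2.2⟩
          invFun := fun y => ⟨fun j => (y.1 j).1,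
            ⟨fun j => (y.1 j).2, (pqct_ind χ pr t (S i) (a i) _).1 y.2⟩⟩
          left_inv := fun _ => rfl
          right_inv := fun _ => rfl }
    rw [h5, Nat.cast_prod]
    refine Finset.prod_congr rfl fun i _ => ?_
    rw [h6, pqct_li (pqct_unit (S i) (hS.irr i)) (a i), pqct_X_card, pqct_card]
  · obtain ⟨r, hr⟩ := pqct_pow (X := pqct_X χ pr t (S i)) (pqct_unit (S i) (hS.irr i))
    exact ⟨r, hr⟩

end MP72e2e6
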