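import Pool.Agent.Lib.MP_72e2e6_nt.PqPrim
import Pool.Agent.Lib.MP_72e2e6_nt.PpFrm

/-!
# MP_72e2e6_nt: isomorphic and dual systems (PqEqv)

Isomorphic irreducible systems and dual irreducible systems have the same number of solutions.
-/

set_option autoImplicit false

open Polynomial

namespace MP72e2e6

universe u

section

variable {ℓ : ℕ} [Fact ℓ.Prime]

theorem pqeqv_rk {Y : Type*} {Y' : Type*} [AddCommGroup Y] [Module (ZMod ℓ) Y]
    [AddCommGroup Y'] [Module (ZMod ℓ) Y'] [Finite Y] [Finite Y']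
    (B : Y →ₗ[ZMod ℓ] Y' →ₗ[ZMod ℓ] ZMod ℓ) :
    Module.finrank (ZMod ℓ) Y + Module.finrank (ZMod ℓ) (LinearMap.ker B.flip) =
      Module.finrank (ZMod ℓ) Y' + Module.finrank (ZMod ℓ) (LinearMap.ker B) := by
  have hfd : FiniteDimensional (ZMod ℓ) Y := Module.Finite.of_finite
  have hfd' : FiniteDimensional (ZMod ℓ) Y' := Module.Finite.of_finite
  have h2 := Subspace.finrank_add_finrank_dualAnnihilator_eq (LinearMap.ker B)
  have h3 : Module.finrank (ZMod ℓ) (LinearMap.range B.flip) +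
      Module.finrank (ZMod ℓ) (LinearMap.ker B.flip) = Module.finrank (ZMod ℓ) Y' :=
    LinearMap.finrank_range_add_finrank_ker B.flip
  have h4 : Module.finrank (ZMod ℓ) (LinearMap.ker B).dualAnnihilator =
      Module.finrank (ZMod ℓ) (LinearMap.range B.flip) := by
    rw [LinearMap.dualAnnihilator_ker_eq_range_flip]
  rw [h4] at h2
  omega

/-- The kernels of a pairing of spaces of the same dimension. -/
theorem pqeqv_ker {Y : Type*} {Y' : Type*} [AddCommGroup Y] [Module (ZMod ℓ) Y]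
    [AddCommGroup Y'] [Module (ZMod ℓ) Y'] [Finite Y] [Finite Y']
    (B : Y →ₗ[ZMod ℓ] Y' →ₗ[ZMod ℓ] ZMod ℓ) (h : Nat.card Y = Nat.card Y') :
    Nat.card (LinearMap.ker B) = Nat.card (LinearMap.ker B.flip) := by
  have hl : 1 < Nat.card (ZMod ℓ) := by
    rw [Nat.card_zmod]
    exact (Fact.out : ℓ.Prime).one_lt
  rw [Module.natCard_eq_pow_finrank (K := ZMod ℓ) (V := Y),
    Module.natCard_eq_pow_finrank (K := ZMod ℓ) (V := Y')] at h
  have h1 : Module.finrank (ZMod ℓ) Y = Module.finrank (ZMod ℓ) Y' := Nat.pow_right_injective hl h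
  have h2 := pqeqv_rk B
  have h4 : Module.finrank (ZMod ℓ) (LinearMap.ker B) =
      Module.finrank (ZMod ℓ) (LinearMap.ker B.flip) := by omega
  rw [Module.natCard_eq_pow_finrank (K := ZMod ℓ) (V := LinearMap.ker B),
    Module.natCard_eq_pow_finrank (K := ZMod ℓ) (V := LinearMap.ker B.flip), h4]

/-- the spaces of a perfect pairing -/
theorem pqeqv_card {Y : Type*} {Y' : Type*} [AddCommGroup Y] [Module (ZMod ℓ) Y]
    [AddCommGroup Y'] [Module (ZMod ℓ) Y'] [Finite Y] [Finite Y']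
    (B : Y →ₗ[ZMod ℓ] Y' →ₗ[ZMod ℓ] ZMod ℓ) (h : ∀ x, (∀ y, B x y = 0) → x = 0)
    (h' : ∀ y, (∀ x, B x y = 0) → y = 0) : Nat.card Y = Nat.card Y' := by
  have h1 : LinearMap.ker B = ⊥ := by
    rw [eq_bot_iff]
    intro x hx
    exact (Submodule.mem_bot _).2 (h x fun y => by rw [LinearMap.mem_ker.1 hx]; rfl)
  have h2 : LinearMap.ker B.flip = ⊥ := by
    rw [eq_bot_iff]
    intro y hy
    refine (Submodule.mem_bot _).2 (h' y fun x => ?_)
    have := LinearMap.congr_fun (LinearMap.mem_ker.1 hy) x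
    exact this
  have h3 := pqeqv_rk B
  rw [h1, h2, finrank_bot, finrank_bot] at h3
  rw [Module.natCard_eq_pow_finrank (K := ZMod ℓ) (V := Y),
    Module.natCard_eq_pow_finrank (K := ZMod ℓ) (V := Y')]
  congr 1

/-- a system indexed by a finite set -/
structure PqeqvD (ℓ : ℕ) [Fact ℓ.Prime] (ι : Type u) [Fintype ι] (W : Type)
    [AddCommGroup W] [Module (ZMod ℓ) W] (l : ι → ι → ZMod ℓ) (D : ι → ZMod ℓ) where
  lsymm : ∀ β β', l β β' = l β' β
  σ : ι → Module.End (ZMod ℓ) W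
  Λ : Module.End (ZMod ℓ) W
  τ : ι → Module.End (ZMod ℓ) W
  στ : ∀ β x, σ β (τ β x) = x
  τσ : ∀ β x, τ β (σ β x) = x
  com : ∀ β y, σ β (∑ β', l β β' • σ β' y + D β • Λ y) =
      ∑ β', l β β' • σ β' (σ β y) + D β • Λ (σ β y)
  inj : ∀ y, ∑ β, D β • σ β y = 0 → y = 0

variable {ι : Type u} [Fintype ι] {W W' : Type} [AddCommGroup W] [Module (ZMod ℓ) W]
  [AddCommGroup W'] [Module (ZMod ℓ) W'] {l : ι → ι → ZMod ℓ} {D : ι → ZMod ℓ}

namespace PqeqvD

variable (d : PqeqvD ℓ ι W l D)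

/-- the operator `M β` -/
noncomputable def M (β : ι) : Module.End (ZMod ℓ) W := ∑ β', l β β' • d.σ β' + D β • d.Λ

theorem M_apply (β : ι) (y : W) : d.M β y = ∑ β', l β β' • d.σ β' y + D β • d.Λ y := by
  simp [M, LinearMap.sum_apply]

theorem σM (β : ι) (y : W) : d.σ β (d.M β y) = d.M β (d.σ β y) := by
  rw [M_apply, M_apply]
  exact d.com β y

theorem τM (β : ι) (y : W) : d.τ β (d.M β y) = d.M β (d.τ β y) := by
  have h : d.σ β (d.M β (d.τ β y)) = d.M β y := by rw [σM, d.στ]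
  rw [← h, d.τσ]

/-- the operator `T` -/
noncomputable def T : (ι → W) →ₗ[ZMod ℓ] (ι → W) :=
  LinearMap.pi fun β => ∑ β', l β β' • LinearMap.proj β' -
    (d.M β).comp ((d.τ β).comp (LinearMap.proj β))

theorem T_apply (y : ι → W) (β : ι) :
    d.T y β = ∑ β', l β β' • y β' - d.M β (d.τ β (y β)) := by
  simp [T, LinearMap.sum_apply]

/-- `∑ D β • y β` -/
noncomputable def g (_ : PqeqvD ℓ ι W l D) : (ι → W) →ₗ[ZMod ℓ] W :=
  ∑ β, D β • LinearMap.proj β

theorem g_apply (y : ι → W) : d.g y = ∑ β, D β • y β := by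
  simp [g, LinearMap.sum_apply]

/-- the number of solutions -/
noncomputable def sol : ℕ :=
  Nat.card {c : ι → W // ∑ β, D β • d.σ β (c β) = 0 ∧
      ∀ β, ∑ β', l β β' • d.σ β' (c β' - c β) = D β • d.Λ (c β)}

theorem g_surj (β₀ : ι) (h0 : D β₀ ≠ 0) : Function.Surjective d.g := by
  classical
  intro w
  refine ⟨Pi.single β₀ ((D β₀)⁻¹ • w), ?_⟩
  rw [g_apply, Finset.sum_eq_single β₀]
  · rw [Pi.single_eq_same, smul_smul, mul_inv_cancel₀ h0, one_smul]
  · intro γ _ hγ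
    rw [Pi.single_eq_of_ne hγ, smul_zero]
  · intro h
    exact absurd (Finset.mem_univ _) h

/-- the solutions and the kernel of `T` -/
theorem card_sol : d.sol = Nat.card {y : LinearMap.ker d.g // d.T y.1 = 0} := by
  have key : ∀ c : ι → W, (∀ β, ∑ β', l β β' • d.σ β' (c β' - c β) = D β • d.Λ (c β)) ↔
      d.T (fun β => d.σ β (c β)) = 0 := by
    intro c
    rw [funext_iff]
    refine forall_congr' fun β => ?_
    rw [T_apply, d.τσ, M_apply, Pi.zero_apply, sub_eq_zero]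
    simp only [map_sub, smul_sub, Finset.sum_sub_distrib]
    rw [sub_eq_iff_eq_add, add_comm]
  rw [sol]
  refine Nat.card_congr ⟨fun c => ⟨⟨fun β => d.σ β (c.1 β), ?_⟩, ?_⟩,
    fun y => ⟨fun β => d.τ β (y.1.1 β), ?_, ?_⟩, fun c => ?_, fun y => ?_⟩
  · rw [LinearMap.mem_ker, g_apply]
    exact c.2.1
  · exact (key c.1).mp c.2.2
  · have h1 : d.g y.1.1 = 0 := y.1.2
    rw [g_apply] at h1
    simpa only [d.στ] using h1
  · rw [key]
    have h1 := y.2
    simpa only [d.στ] using h1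
  · refine Subtype.ext (funext fun β => ?_)
    exact d.τσ β _
  · refine Subtype.ext (Subtype.ext (funext fun β => ?_))
    exact d.στ β _

end PqeqvD

/-- the pairing `∑ f (y β) (z β)` -/
noncomputable def pqeqv_fn (ι : Type u) [Fintype ι] (f : W →ₗ[ZMod ℓ] Module.Dual (ZMod ℓ) W') :
    (ι → W) →ₗ[ZMod ℓ] (ι → W') →ₗ[ZMod ℓ] ZMod ℓ :=
  ∑ β, (f.compl₁₂ (LinearMap.proj β) (LinearMap.proj β))

theorem pqeqv_fn_apply (f : W →ₗ[ZMod ℓ] Module.Dual (ZMod ℓ) W') (y : ι → W) (z : ι → W') :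
    pqeqv_fn ι f y z = ∑ β, f (y β) (z β) := by
  unfold pqeqv_fn
  simp [LinearMap.sum_apply]

theorem pqeqv_fn_single [DecidableEq ι] (f : W →ₗ[ZMod ℓ] Module.Dual (ZMod ℓ) W') (β : ι)
    (x : W) (z : ι → W') : pqeqv_fn ι f (Pi.single β x) z = f x (z β) := by
  rw [pqeqv_fn_apply, Finset.sum_eq_single β]
  · rw [Pi.single_eq_same]
  · intro γ _ hγ
    rw [Pi.single_eq_of_ne hγ, map_zero, LinearMap.zero_apply]
  · intro h
    exact absurd (Finset.mem_univ _) h

/-- dual systems -/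
structure PqeqvP (d : PqeqvD ℓ ι W l D) (d' : PqeqvD ℓ ι W' l D)
    (f : W →ₗ[ZMod ℓ] Module.Dual (ZMod ℓ) W') : Prop where
  nd : ∀ x, (∀ y, f x y = 0) → x = 0
  nd' : ∀ y, (∀ x, f x y = 0) → y = 0
  aσ : ∀ β x y, f (d.σ β x) y = f x (d'.σ β y)
  aΛ : ∀ x y, f (d.Λ x) y = f x (d'.Λ y)

namespace PqeqvP

variable {d : PqeqvD ℓ ι W l D} {d' : PqeqvD ℓ ι W' l D}
  {f : W →ₗ[ZMod ℓ] Module.Dual (ZMod ℓ) W'}

theorem flip (p : PqeqvP d d' f) : PqeqvP d' d f.flip where
  nd x hx := p.nd' x hx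
  nd' y hy := p.nd y hy
  aσ β x y := (p.aσ β y x).symm
  aΛ x y := (p.aΛ y x).symm

theorem adjM (p : PqeqvP d d' f) (β : ι) (x : W) (y : W') :
    f (d.M β x) y = f x (d'.M β y) := by
  rw [PqeqvD.M_apply, PqeqvD.M_apply, map_add, LinearMap.add_apply, map_sum,
    LinearMap.sum_apply, map_add, map_sum]
  congr 1
  · refine Finset.sum_congr rfl fun β' _ => ?_
    rw [map_smul, LinearMap.smul_apply, map_smul, p.aσ]
  · rw [map_smul, LinearMap.smul_apply, map_smul, p.aΛ]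

theorem adjτ (p : PqeqvP d d' f) (β : ι) (x : W) (y : W') :
    f (d.τ β x) y = f x (d'.τ β y) := by
  rw [← d'.στ β y, ← p.aσ, d.στ, d'.στ]

theorem adjT (p : PqeqvP d d' f) (y : ι → W) (y' : ι → W') :
    pqeqv_fn ι f (d.T y) y' = pqeqv_fn ι f y (d'.T y') := by
  rw [pqeqv_fn_apply, pqeqv_fn_apply]
  have h1 : ∀ β, f (d.T y β) (y' β) =
      ∑ β', l β β' * f (y β') (y' β) - f (d.M β (d.τ β (y β))) (y' β) := by
    intro β
    rw [PqeqvD.T_apply, map_sub, LinearMap.sub_apply, map_sum, LinearMap.sum_apply]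
    congr 1
    refine Finset.sum_congr rfl fun β' _ => ?_
    rw [map_smul, LinearMap.smul_apply, smul_eq_mul]
  have h2 : ∀ β, f (y β) (d'.T y' β) =
      ∑ β', l β β' * f (y β) (y' β') - f (y β) (d'.M β (d'.τ β (y' β))) := by
    intro β
    rw [PqeqvD.T_apply, map_sub, map_sum]
    congr 1
    refine Finset.sum_congr rfl fun β' _ => ?_
    rw [map_smul, smul_eq_mul]
  have h3 : ∀ β, f (d.M β (d.τ β (y β))) (y' β) = f (y β) (d'.M β (d'.τ β (y' β))) := by
    intro β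
    rw [p.adjM, p.adjτ, d'.τM]
  simp only [h1, h2, h3, Finset.sum_sub_distrib]
  congr 1
  rw [Finset.sum_comm]
  refine Finset.sum_congr rfl fun β _ => Finset.sum_congr rfl fun β' _ => ?_
  rw [d.lsymm β' β]

theorem T_zero (p : PqeqvP d d' f) (y' : ι → W') (hy : d'.g y' = 0)
    (h : ∀ y, d.g y = 0 → pqeqv_fn ι f y (d'.T y') = 0) (β₀ : ι) (h0 : D β₀ ≠ 0) :
    d'.T y' = 0 := by
  classical
  have h1 : ∀ β, d'.T y' β = D β • ((D β₀)⁻¹ • d'.T y' β₀) := by
    intro β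
    rw [← sub_eq_zero]
    refine p.nd' _ fun x => ?_
    have h2 := h (Pi.single β x - Pi.single β₀ ((D β * (D β₀)⁻¹) • x)) (by
      rw [map_sub, sub_eq_zero, PqeqvD.g_apply, PqeqvD.g_apply, Finset.sum_eq_single β,
        Finset.sum_eq_single β₀]
      · rw [Pi.single_eq_same, Pi.single_eq_same, smul_smul]
        congr 1
        field_simp
      · intro γ _ hγ
        rw [Pi.single_eq_of_ne hγ, smul_zero]
      · intro h
        exact absurd (Finset.mem_univ _) h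
      · intro γ _ hγ
        rw [Pi.single_eq_of_ne hγ, smul_zero]
      · intro h
        exact absurd (Finset.mem_univ _) h)
    rw [map_sub, LinearMap.sub_apply, pqeqv_fn_single, pqeqv_fn_single, map_smul,
      LinearMap.smul_apply] at h2
    rw [map_sub, map_smul, map_smul, smul_smul]
    exact h2
  have h3 : ∑ β, d'.σ β (d'.T y' β) = 0 := by
    have h4 : ∀ β, d'.σ β (d'.T y' β) = ∑ β', l β β' • d'.σ β (y' β') -
        (∑ β', l β β' • d'.σ β' (y' β) + D β • d'.Λ (y' β)) := by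
      intro β
      rw [PqeqvD.T_apply, map_sub, d'.σM, d'.στ, PqeqvD.M_apply, map_sum]
      congr 1
      refine Finset.sum_congr rfl fun β' _ => ?_
      rw [map_smul]
    simp only [h4, Finset.sum_sub_distrib, Finset.sum_add_distrib]
    have h5 : ∑ β, ∑ β', l β β' • d'.σ β (y' β') = ∑ β, ∑ β', l β β' • d'.σ β' (y' β) := by
      rw [Finset.sum_comm]
      refine Finset.sum_congr rfl fun β _ => Finset.sum_congr rfl fun β' _ => ?_
      rw [d.lsymm]
    have h6 : ∑ β, D β • d'.Λ (y' β) = 0 := by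
      have h7 : ∑ β, D β • d'.Λ (y' β) = d'.Λ (d'.g y') := by
        rw [PqeqvD.g_apply, map_sum]
        exact Finset.sum_congr rfl fun β _ => (map_smul _ _ _).symm
      rw [h7, hy, map_zero]
    rw [h5, h6, add_zero, sub_self]
  have h8 : (D β₀)⁻¹ • d'.T y' β₀ = 0 := by
    refine d'.inj _ ?_
    rw [← h3]
    refine Finset.sum_congr rfl fun β _ => ?_
    rw [h1 β]
    simp only [map_smul]
  funext β
  rw [h1 β, h8, smul_zero]
  rfl

/-- the pairing on the kernels of `g` -/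
noncomputable def B (_ : PqeqvP d d' f) :
    LinearMap.ker d.g →ₗ[ZMod ℓ] LinearMap.ker d'.g →ₗ[ZMod ℓ] ZMod ℓ :=
  (pqeqv_fn ι f).compl₁₂ (LinearMap.ker d.g).subtype (d'.T.comp (LinearMap.ker d'.g).subtype)

theorem B_apply (p : PqeqvP d d' f) (y : LinearMap.ker d.g) (y' : LinearMap.ker d'.g) :
    p.B y y' = pqeqv_fn ι f y.1 (d'.T y'.1) := rfl

theorem B_flip (p : PqeqvP d d' f) : p.B.flip = p.flip.B := by
  refine LinearMap.ext fun y' => LinearMap.ext fun y => ?_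
  rw [LinearMap.flip_apply, B_apply, B_apply, ← p.adjT, pqeqv_fn_apply, pqeqv_fn_apply]
  rfl

theorem B_ker (p : PqeqvP d d' f) (β₀ : ι) (h0 : D β₀ ≠ 0) (y' : LinearMap.ker d'.g) :
    y' ∈ LinearMap.ker p.B.flip ↔ d'.T y'.1 = 0 := by
  rw [LinearMap.mem_ker]
  constructor
  · intro h
    refine p.T_zero y'.1 y'.2 (fun y hy => ?_) β₀ h0
    exact LinearMap.congr_fun h ⟨y, hy⟩
  · intro h
    refine LinearMap.ext fun y => ?_
    rw [LinearMap.flip_apply, B_apply, h, map_zero, LinearMap.zero_apply]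

theorem sol_eq [Finite W] [Finite W'] (p : PqeqvP d d' f) (β₀ : ι) (h0 : D β₀ ≠ 0) :
    d.sol = d'.sol := by
  have h1 : d'.sol = Nat.card (LinearMap.ker p.B.flip) := by
    rw [d'.card_sol]
    exact Nat.card_congr (Equiv.subtypeEquivRight fun y => (p.B_ker β₀ h0 y).symm)
  have h2 : d.sol = Nat.card (LinearMap.ker p.flip.B.flip) := by
    rw [d.card_sol]
    exact Nat.card_congr (Equiv.subtypeEquivRight fun y => (p.flip.B_ker β₀ h0 y).symm)
  have h3 : p.flip.B.flip = p.B := by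
    rw [← p.B_flip]
    exact LinearMap.flip_flip _
  rw [h1, h2, h3]
  refine pqeqv_ker p.B ?_
  rw [ppfrm_card d.g (d.g_surj β₀ h0) ⟨β₀⟩, ppfrm_card d'.g (d'.g_surj β₀ h0) ⟨β₀⟩,
    pqeqv_card f p.nd p.nd']

end PqeqvP

/-! ### The systems of the statement -/

/-- all the primes -/
def pqeqv_pr {F : Type u} [Field F] {V : Type} (pr : V → F[X]) (t : Finset F[X]) :
    V ⊕ t → F[X] := Sum.elim pr (fun P => P.1)

/-- all the operators -/
def pqeqv_sg {F : Type u} [Field F] {V : Type} (S : Sys ℓ V) (t : Finset F[X]) :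
    V ⊕ t → Module.End (ZMod ℓ) S.W := Sum.elim S.σ (fun _ => 1)

theorem pqeqv_bij {F : Type u} [Field F] {V : Type} [Fintype V] {χ : F → ZMod ℓ} {pr : V → F[X]}
    {S : Sys ℓ V} (hH : HypW χ pr S.σ S.Λ) (t : Finset F[X]) (β : V ⊕ t) :
    Function.Bijective (pqeqv_sg S t β) := by
  rcases β with v | P
  · have h : Function.Injective (S.σ v) := (injective_iff_map_eq_zero (S.σ v)).mpr (hH.inj v)
    exact ⟨h, Finite.injective_iff_surjective.mp h⟩
  · exact Function.bijective_id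

/-- the system -/
noncomputable def pqeqv_mk {F : Type u} [Field F] {V : Type} [Fintype V] {χ : F → ZMod ℓ}
    {pr : V → F[X]} {S : Sys ℓ V} (hH : HypW χ pr S.σ S.Λ) (t : Finset F[X])
    (hsym : ∀ β β' : V ⊕ t, syl χ (pqeqv_pr pr t β) (pqeqv_pr pr t β') =
      syl χ (pqeqv_pr pr t β') (pqeqv_pr pr t β))
    (hinj : ∀ y : S.W, ∑ β : V ⊕ t, ((pqeqv_pr pr t β).natDegree : ZMod ℓ) •
      pqeqv_sg S t β y = 0 → y = 0) :
    PqeqvD ℓ (V ⊕ t) S.W (fun β β' => syl χ (pqeqv_pr pr t β) (pqeqv_pr pr t β'))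
      (fun β => ((pqeqv_pr pr t β).natDegree : ZMod ℓ)) where
  lsymm := hsym
  σ := pqeqv_sg S t
  Λ := S.Λ
  τ β := (LinearEquiv.ofBijective (pqeqv_sg S t β) (pqeqv_bij hH t β)).symm.toLinearMap
  στ β x := (LinearEquiv.ofBijective (pqeqv_sg S t β) (pqeqv_bij hH t β)).apply_symm_apply x
  τσ β x := (LinearEquiv.ofBijective (pqeqv_sg S t β) (pqeqv_bij hH t β)).symm_apply_apply x
  com := by
    rintro (v | P) y
    · have h1 := hH.com v y
      rw [map_add, map_sum] at h1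
      simp only [Fintype.sum_sum_type]
      simp only [pqeqv_pr, pqeqv_sg, Sum.elim_inl, Sum.elim_inr, Module.End.one_apply, map_add,
        map_sum, map_smul] at h1 ⊢
      rw [add_right_comm, h1]
      abel
    · rfl
  inj := hinj

theorem pqeqv_sol {F : Type u} [Field F] {V : Type} [Fintype V] {χ : F → ZMod ℓ}
    {pr : V → F[X]} {S : Sys ℓ V} (hH : HypW χ pr S.σ S.Λ) (t : Finset F[X])
    (hsym : ∀ β β' : V ⊕ t, syl χ (pqeqv_pr pr t β) (pqeqv_pr pr t β') =
      syl χ (pqeqv_pr pr t β') (pqeqv_pr pr t β))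
    (hinj : ∀ y : S.W, ∑ β : V ⊕ t, ((pqeqv_pr pr t β).natDegree : ZMod ℓ) •
      pqeqv_sg S t β y = 0 → y = 0) : S.sol χ pr t = (pqeqv_mk hH t hsym hinj).sol := by
  rw [Sys.sol, nSol, PqeqvD.sol]
  refine Nat.card_congr (Equiv.subtypeEquiv (Equiv.sumArrowEquivProdArrow V t S.W).symm ?_)
  rintro ⟨c, g⟩
  have e1 : ∀ v, (Equiv.sumArrowEquivProdArrow V t S.W).symm (c, g) (Sum.inl v) = c v :=
    fun v => rfl
  have e2 : ∀ P, (Equiv.sumArrowEquivProdArrow V t S.W).symm (c, g) (Sum.inr P) = g P :=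
    fun P => rfl
  constructor
  · intro h
    refine ⟨?_, ?_⟩
    · rw [Fintype.sum_sum_type]
      simp only [e1, e2]
      exact h.inf
    · rintro (v | P)
      · rw [Fintype.sum_sum_type]
        simp only [e1, e2]
        exact h.bad v
      · rw [Fintype.sum_sum_type]
        simp only [e1, e2]
        exact h.good P
  · rintro ⟨h1, h2⟩
    refine ⟨?_, fun v => ?_, fun P => ?_⟩
    · rw [Fintype.sum_sum_type] at h1
      simp only [e1, e2] at h1
      exact h1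
    · have h3 := h2 (Sum.inl v)
      rw [Fintype.sum_sum_type] at h3
      simp only [e1, e2] at h3
      exact h3
    · have h3 := h2 (Sum.inr P)
      rw [Fintype.sum_sum_type] at h3
      simp only [e1, e2] at h3
      exact h3

theorem pqeqv_mem_gs {F : Type u} [Field F] [Finite F] {V : Type} {pr : V → F[X]} {n : ℕ}
    {t : Finset F[X]} : t ∈ gs F pr n ↔ t ∈ ps F n ∧ ∀ P ∈ t, ∀ v, pr v ≠ P := by
  simp [gs]

theorem pqeqv_inj {F : Type u} [Field F] {V : Type} [Fintype V] {pr : V → F[X]}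
    {S : Sys ℓ V} {t : Finset F[X]} {n : ℕ} (hI : InfW pr S.σ n)
    (htd : ∑ P ∈ t, P.natDegree = n) (y : S.W)
    (hy : ∑ β : V ⊕ t, ((pqeqv_pr pr t β).natDegree : ZMod ℓ) • pqeqv_sg S t β y = 0) :
    y = 0 := by
  refine hI y ?_
  rw [Fintype.sum_sum_type] at hy
  simp only [pqeqv_pr, pqeqv_sg, Sum.elim_inl, Sum.elim_inr, Module.End.one_apply] at hy
  rw [← Finset.sum_smul] at hy
  rw [← hy, ← htd]
  congr 2
  rw [Nat.cast_sum, ← Finset.sum_coe_sort t (fun P => ((P.natDegree : ℕ) : ZMod ℓ))]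

/-- isomorphic systems -/
theorem pqeqv_iso {F : Type u} [Field F] {V : Type} [Fintype V] (χ : F → ZMod ℓ)
    (pr : V → F[X]) {S S' : Sys ℓ V} (hirr : IrrW S.σ S.Λ) (hirr' : IrrW S'.σ S'.Λ)
    {κ : S.W →ₗ[ZMod ℓ] S'.W} (hκ : κ ∈ HomS S S') (h0 : κ ≠ 0) (t : Finset F[X]) :
    S.sol χ pr t = S'.sol χ pr t := by
  have h1 : LinearMap.ker κ = ⊥ := by
    have a1 : ∀ v, ∀ y ∈ LinearMap.ker κ, S.σ v y ∈ LinearMap.ker κ := by
      intro v y hy
      rw [LinearMap.mem_ker] at hy ⊢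
      rw [hκ.1, hy, map_zero]
    have a2 : ∀ y ∈ LinearMap.ker κ, S.Λ y ∈ LinearMap.ker κ := by
      intro y hy
      rw [LinearMap.mem_ker] at hy ⊢
      rw [hκ.2, hy, map_zero]
    rcases hirr.irr (LinearMap.ker κ) a1 a2 with h | h
    · exact h
    · exact absurd (LinearMap.ker_eq_top.1 h) h0
  have h2 : LinearMap.range κ = ⊤ := by
    have a1 : ∀ v, ∀ y ∈ LinearMap.range κ, S'.σ v y ∈ LinearMap.range κ := by
      rintro v _ ⟨x, rfl⟩
      exact ⟨_, hκ.1 v x⟩
    have a2 : ∀ y ∈ LinearMap.range κ, S'.Λ y ∈ LinearMap.range κ := by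
      rintro _ ⟨x, rfl⟩
      exact ⟨_, hκ.2 x⟩
    rcases hirr'.irr (LinearMap.range κ) a1 a2 with h | h
    · exact absurd (LinearMap.range_eq_bot.1 h) h0
    · exact h
  have hinj : Function.Injective κ := LinearMap.ker_eq_bot.1 h1
  have hsur : Function.Surjective κ := LinearMap.range_eq_top.1 h2
  rw [Sys.sol, Sys.sol, nSol, nSol]
  refine Nat.card_eq_of_bijective (fun x => ⟨(fun v => κ (x.1.1 v), fun P => κ (x.1.2 P)),
    (pqprim_map hinj hκ x.1.1 x.1.2).2 x.2⟩) ⟨fun x y h => ?_, fun x => ?_⟩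
  · have h1 := congrArg (fun z => z.1) h
    apply Subtype.ext
    refine Prod.ext (funext fun v => ?_) (funext fun P => ?_)
    · exact hinj (congrFun (congrArg Prod.fst h1) v)
    · exact hinj (congrFun (congrArg Prod.snd h1) P)
  · obtain ⟨⟨c, f⟩, hx⟩ := x
    choose c' hc' using fun v => hsur (c v)
    choose f' hf' using fun P => hsur (f P)
    obtain rfl : c = fun v => κ (c' v) := funext fun v => (hc' v).symm
    obtain rfl : f = fun P => κ (f' P) := funext fun P => (hf' P).symm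
    exact ⟨⟨(c', f'), (pqprim_map hinj hκ c' f').1 hx⟩, rfl⟩

end

theorem tPqEqv.{v} (_hSuSy : StmtSuSy.{v}) (hSuRec : StmtSuRec.{v}) : StmtPqEqv.{v} := by
  intro F _ _ ℓ _ hℓ2 hq χ hχ V _ pr hpr S S' hirr hirr' hH hH' hne n hI t ht
  rcases hne with hne | hne
  · obtain ⟨κ, hκ, hκ0⟩ := (HomS S S').ne_bot_iff.1 hne
    exact pqeqv_iso χ pr hirr hirr' hκ hκ0 t
  obtain ⟨g, hg, hg0⟩ := (BilS S S').ne_bot_iff.1 hne
  have hℓ : ℓ.Prime := Fact.out
  obtain ⟨ht1, htp⟩ := pqeqv_mem_gs.1 ht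
  obtain ⟨htm, htd⟩ := mem_ps.1 ht1
  have hm : ∀ β : V ⊕ t, (pqeqv_pr pr t β).Monic := by
    rintro (v | P)
    · exact hpr.monic v
    · exact (htm P.1 P.2).1
  have hi : ∀ β : V ⊕ t, Irreducible (pqeqv_pr pr t β) := by
    rintro (v | P)
    · exact hpr.irr v
    · exact (htm P.1 P.2).2
  have hsym : ∀ β β' : V ⊕ t, syl χ (pqeqv_pr pr t β) (pqeqv_pr pr t β') =
      syl χ (pqeqv_pr pr t β') (pqeqv_pr pr t β) := by
    intro β β'
    by_cases h : pqeqv_pr pr t β = pqeqv_pr pr t β'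
    · rw [h]
    · exact hSuRec F ℓ hℓ hℓ2 hq χ hχ _ _ (hm β) (hi β) (hm β') (hi β') h
  -- the pairing is perfect
  have nd : ∀ x, (∀ y, g x y = 0) → x = 0 := by
    have h1 : LinearMap.ker g = ⊥ := by
      have a1 : ∀ v, ∀ y ∈ LinearMap.ker g, S.σ v y ∈ LinearMap.ker g := by
        intro v y hy
        rw [LinearMap.mem_ker] at hy ⊢
        refine LinearMap.ext fun z => ?_
        rw [hg.1, hy, LinearMap.zero_apply, LinearMap.zero_apply]
      have a2 : ∀ y ∈ LinearMap.ker g, S.Λ y ∈ LinearMap.ker g := by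
        intro y hy
        rw [LinearMap.mem_ker] at hy ⊢
        refine LinearMap.ext fun z => ?_
        rw [hg.2, hy, LinearMap.zero_apply, LinearMap.zero_apply]
      rcases hirr.irr (LinearMap.ker g) a1 a2 with h | h
      · exact h
      · exact absurd (LinearMap.ker_eq_top.1 h) hg0
    intro x hx
    have h2 : x ∈ LinearMap.ker g := LinearMap.mem_ker.2 (LinearMap.ext hx)
    rw [h1] at h2
    exact (Submodule.mem_bot _).1 h2
  have nd' : ∀ y, (∀ x, g x y = 0) → y = 0 := by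
    have h1 : LinearMap.ker g.flip = ⊥ := by
      have a1 : ∀ v, ∀ y ∈ LinearMap.ker g.flip, S'.σ v y ∈ LinearMap.ker g.flip := by
        intro v y hy
        rw [LinearMap.mem_ker] at hy ⊢
        refine LinearMap.ext fun z => ?_
        rw [LinearMap.flip_apply, ← hg.1, ← LinearMap.flip_apply, hy, LinearMap.zero_apply,
          LinearMap.zero_apply]
      have a2 : ∀ y ∈ LinearMap.ker g.flip, S'.Λ y ∈ LinearMap.ker g.flip := by
        intro y hy
        rw [LinearMap.mem_ker] at hy ⊢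
        refine LinearMap.ext fun z => ?_
        rw [LinearMap.flip_apply, ← hg.2, ← LinearMap.flip_apply, hy, LinearMap.zero_apply,
          LinearMap.zero_apply]
      rcases hirr'.irr (LinearMap.ker g.flip) a1 a2 with h | h
      · exact h
      · exfalso
        apply hg0
        refine LinearMap.ext fun x => LinearMap.ext fun y => ?_
        have h2 : y ∈ LinearMap.ker g.flip := h ▸ Submodule.mem_top
        exact LinearMap.congr_fun (LinearMap.mem_ker.1 h2) x
    intro y hy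
    have h2 : y ∈ LinearMap.ker g.flip := LinearMap.mem_ker.2 (LinearMap.ext hy)
    rw [h1] at h2
    exact (Submodule.mem_bot _).1 h2
  have hσ : ∀ (β : V ⊕ t) x y, g (pqeqv_sg S t β x) y = g x (pqeqv_sg S' t β y) := by
    rintro (v | P) x y
    · exact hg.1 v x y
    · rfl
  have hinj : ∀ y : S.W, ∑ β : V ⊕ t, ((pqeqv_pr pr t β).natDegree : ZMod ℓ) •
      pqeqv_sg S t β y = 0 → y = 0 := fun y hy => pqeqv_inj hI htd y hy
  have hinj' : ∀ y : S'.W, ∑ β : V ⊕ t, ((pqeqv_pr pr t β).natDegree : ZMod ℓ) •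
      pqeqv_sg S' t β y = 0 → y = 0 := by
    let N : Module.End (ZMod ℓ) S.W :=
      ∑ β : V ⊕ t, ((pqeqv_pr pr t β).natDegree : ZMod ℓ) • pqeqv_sg S t β
    have hN : ∀ x, N x = ∑ β : V ⊕ t, ((pqeqv_pr pr t β).natDegree : ZMod ℓ) •
        pqeqv_sg S t β x := by
      intro x
      simp only [N, LinearMap.sum_apply, LinearMap.smul_apply]
    have hNi : Function.Injective N := (injective_iff_map_eq_zero N).mpr fun x hx =>
      hinj x (by rw [← hN, hx])
    have hNs : Function.Surjective N := Finite.injective_iff_surjective.mp hNi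
    intro y hy
    refine nd' y fun x => ?_
    obtain ⟨z, rfl⟩ := hNs x
    have h1 : g (N z) y = g z (∑ β : V ⊕ t, ((pqeqv_pr pr t β).natDegree : ZMod ℓ) •
        pqeqv_sg S' t β y) := by
      rw [hN, map_sum, LinearMap.sum_apply, map_sum]
      refine Finset.sum_congr rfl fun β _ => ?_
      rw [map_smul, LinearMap.smul_apply, map_smul, hσ]
    rw [h1, hy, map_zero]
  rw [pqeqv_sol hH t hsym hinj, pqeqv_sol hH' t hsym hinj']
  obtain ⟨β₀, h0⟩ : ∃ β₀ : V ⊕ t, ((pqeqv_pr pr t β₀).natDegree : ZMod ℓ) ≠ 0 := by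
    by_contra hcon
    push Not at hcon
    obtain ⟨y, y', hyy⟩ := hirr.nontriv
    have h1 : ∀ y : S.W, y = 0 := fun y =>
      hinj y (Finset.sum_eq_zero fun β _ => by rw [hcon β, zero_smul])
    exact hyy ((h1 y).trans (h1 y').symm)
  have p : PqeqvP (pqeqv_mk hH t hsym hinj) (pqeqv_mk hH' t hsym hinj') g :=
    ⟨nd, nd', hσ, hg.2⟩
  exact p.sol_eq β₀ h0

end MP72e2e6
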