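import Pool.Agent.Lib.MP_72e2e6_nt.PqStmt

set_option autoImplicit false

/-!
# MP_72e2e6_nt: PqEul (the limit in the connected case)
-/

open Polynomial

namespace MP72e2e6

/-- the polynomial `∏_{i = 1}^J (q ^ i - X) / (q ^ i - 1)` -/
noncomputable def pqeul_f (q : ℝ) (J : ℕ) : ℝ[X] :=
  ∏ i ∈ Finset.range J, (C ((q ^ (i + 1) - 1)⁻¹) * (C (q ^ (i + 1)) - X))

/-- the product `∏_{i = 1}^j (1 - x ^ i)` -/
noncomputable def pqeul_c (x : ℝ) (j : ℕ) : ℝ := ∏ i ∈ Finset.range j, (1 - x ^ (i + 1))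

/-- the terms of the series -/
noncomputable def pqeul_a (x z : ℝ) (j : ℕ) : ℝ := (-z) ^ j * (pqeul_c x j)⁻¹

theorem pqeul_c_zero (x : ℝ) : pqeul_c x 0 = 1 := by simp [pqeul_c]

theorem pqeul_c_succ (x : ℝ) (j : ℕ) : pqeul_c x (j + 1) = pqeul_c x j * (1 - x ^ (j + 1)) := by
  simp [pqeul_c, Finset.prod_range_succ]

theorem pqeul_pow_pos {q : ℝ} (hq : 1 < q) (i : ℕ) : 0 < q ^ (i + 1) - 1 := by
  have : 1 < q ^ (i + 1) := one_lt_pow₀ hq (by omega)
  linarith

theorem pqeul_mul (q : ℝ) (J : ℕ) : (X - 1) * pqeul_f q J =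
    C ((-1) ^ J * (∏ i ∈ Finset.range J, (q ^ (i + 1) - 1))⁻¹) * Eq_ q (J + 1) := by
  induction J with
  | zero => simp [pqeul_f, Eq_]
  | succ J ih =>
    have e1 : pqeul_f q (J + 1) =
        pqeul_f q J * (C ((q ^ (J + 1) - 1)⁻¹) * (C (q ^ (J + 1)) - X)) := by
      simp only [pqeul_f, Finset.prod_range_succ]
    have e2 : Eq_ q (J + 1 + 1) = Eq_ q (J + 1) * (X - C (q ^ (J + 1))) := by
      simp only [Eq_, Finset.prod_range_succ]
    have e3 : ∀ A B : ℝ, (C ((-1) ^ J * (-1) * (A * B)) : ℝ[X]) = - (C ((-1) ^ J * A) * C B) := by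
      intro A B
      rw [← C_mul, ← C_neg]; congr 1; ring
    rw [e1, ← mul_assoc, ih, e2, Finset.prod_range_succ, mul_inv, pow_succ (-1 : ℝ) J, e3]
    ring

theorem pqeul_step (q : ℝ) (hq : 1 < q) (J : ℕ) : pqeul_f q (J + 1) =
    pqeul_f q J - C ((q ^ (J + 1) - 1)⁻¹) * ((X - 1) * pqeul_f q J) := by
  have e1 : pqeul_f q (J + 1) =
      pqeul_f q J * (C ((q ^ (J + 1) - 1)⁻¹) * (C (q ^ (J + 1)) - X)) := by
    simp only [pqeul_f, Finset.prod_range_succ]
  have h := (pqeul_pow_pos hq J).ne'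
  have e2 : C ((q ^ (J + 1) - 1)⁻¹) * C (q ^ (J + 1)) = (1 : ℝ[X]) + C ((q ^ (J + 1) - 1)⁻¹) := by
    rw [← C_mul, ← C_1, ← C_add]
    congr 1
    field_simp
    ring
  rw [e1, mul_sub, e2]
  ring

theorem pqeul_L (q : ℝ) (hq : 1 < q) (L : ℝ[X] →ₗ[ℝ] ℝ)
    (hL : ∀ j : ℕ, L (Eq_ q j) = q ^ (j * (j - 1) / 2)) (J : ℕ) :
    L (pqeul_f q J) = ∑ j ∈ Finset.range (J + 1), pqeul_a q⁻¹ q⁻¹ j := by
  have hx : q⁻¹ < 1 := inv_lt_one_of_one_lt₀ hq
  have hq0 : (0 : ℝ) < q := by linarith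
  have key : ∀ j : ℕ, (-1) ^ j * q ^ (j * (j - 1) / 2) *
      (∏ i ∈ Finset.range j, (q ^ (i + 1) - 1))⁻¹ = pqeul_a q⁻¹ q⁻¹ j := by
    intro j
    induction j with
    | zero => simp [pqeul_a, pqeul_c]
    | succ j ih =>
      have e1 : (j + 1) * (j + 1 - 1) / 2 = j * (j - 1) / 2 + j := by
        rcases j with _ | j
        · rfl
        · have : (j + 1 + 1) * (j + 1 + 1 - 1) = (j + 1) * (j + 1 - 1) + (j + 1) * 2 := by
            simp only [Nat.add_sub_cancel]; ring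
          rw [this, Nat.add_mul_div_right _ _ (by norm_num)]
      have h1 := (pqeul_pow_pos hq j).ne'
      have h2 : (1 : ℝ) - q⁻¹ ^ (j + 1) ≠ 0 := by
        have : q⁻¹ ^ (j + 1) < 1 := pow_lt_one₀ (by positivity) hx (Nat.succ_ne_zero j)
        linarith
      have h3 : (1 : ℝ) - q⁻¹ ^ (j + 1) = (q ^ (j + 1) - 1) / q ^ (j + 1) := by
        rw [inv_pow]
        field_simp
      rw [e1, Finset.prod_range_succ]
      have e4 : pqeul_a q⁻¹ q⁻¹ (j + 1) = pqeul_a q⁻¹ q⁻¹ j * (-q⁻¹ / (1 - q⁻¹ ^ (j + 1))) := by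
        unfold pqeul_a
        rw [pqeul_c_succ, mul_inv, pow_succ]
        ring
      rw [e4, ← ih, h3, pow_add q (j * (j - 1) / 2) j, pow_succ q j, pow_succ (-1 : ℝ) j]
      generalize q ^ (j * (j - 1) / 2) = A
      generalize (∏ i ∈ Finset.range j, (q ^ (i + 1) - 1)) = B
      rw [mul_inv]
      rw [pow_succ] at h1
      have h5 : q ^ j ≠ 0 := by positivity
      generalize (B)⁻¹ = B'
      field_simp
  induction J with
  | zero =>
    have h0 := hL 0
    have h1 : pqeul_f q 0 = Eq_ q 0 := by simp [pqeul_f, Eq_]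
    rw [h1, h0]
    simp [pqeul_a, pqeul_c]
  | succ J ih =>
    rw [pqeul_step q hq, map_sub, ih, Finset.sum_range_succ _ (J + 1), ← key (J + 1), pqeul_mul,
      ← mul_assoc, ← C_mul, C_mul', map_smul, hL, smul_eq_mul, Finset.prod_range_succ, mul_inv,
      pow_succ]
    ring

theorem pqeul_eval (q : ℝ) (hq : 1 < q) (J : ℕ) (r : ℕ) :
    (pqeul_f q (2 * J + 1)).eval (q ^ r) ≤ (if r = 0 then 1 else 0) := by
  unfold pqeul_f
  rw [eval_prod]
  simp only [eval_mul, eval_C, eval_sub, eval_X]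
  split_ifs with h
  · subst h
    apply le_of_eq
    apply Finset.prod_eq_one
    intro i _
    have := (pqeul_pow_pos hq i).ne'
    rw [pow_zero]
    field_simp
  · by_cases h1 : r ≤ 2 * J + 1
    · apply le_of_eq
      apply Finset.prod_eq_zero (i := r - 1)
      · rw [Finset.mem_range]; omega
      · rw [show r - 1 + 1 = r by omega]; simp
    · have h2 : ∀ i ∈ Finset.range (2 * J + 1),
          (q ^ (i + 1) - 1)⁻¹ * (q ^ (i + 1) - q ^ r) =
          (-1) * ((q ^ (i + 1) - 1)⁻¹ * (q ^ r - q ^ (i + 1))) := by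
        intro i _; ring
      rw [Finset.prod_congr rfl h2, Finset.prod_mul_distrib, Finset.prod_const, Finset.card_range,
        pow_succ, pow_mul]
      have h3 : 0 ≤ ∏ i ∈ Finset.range (2 * J + 1), ((q ^ (i + 1) - 1)⁻¹ * (q ^ r - q ^ (i + 1))) := by
        apply Finset.prod_nonneg
        intro i hi
        rw [Finset.mem_range] at hi
        have h4 := pqeul_pow_pos hq i
        have h5 : q ^ (i + 1) ≤ q ^ r := pow_le_pow_right₀ hq.le (by omega)
        apply mul_nonneg (by positivity) (by linarith)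
      norm_num
      exact h3

section series

variable {x : ℝ} (hx0 : 0 < x) (hx : x ≤ 1 / 3)

include hx0 hx in
theorem pqeul_fac (j : ℕ) : 2 / 3 ≤ 1 - x ^ (j + 1) := by
  have : x ^ (j + 1) ≤ x ^ 1 := pow_le_pow_of_le_one hx0.le (by linarith) (by omega)
  rw [pow_one] at this
  linarith

include hx0 hx in
theorem pqeul_c_pos (j : ℕ) : 0 < pqeul_c x j := by
  apply Finset.prod_pos
  intro i _
  linarith [pqeul_fac hx0 hx i]

theorem pqeul_a_zero (z : ℝ) : pqeul_a x z 0 = 1 := by simp [pqeul_a, pqeul_c]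

theorem pqeul_a_succ (z : ℝ) (j : ℕ) :
    pqeul_a x z (j + 1) = pqeul_a x z j * (-z * (1 - x ^ (j + 1))⁻¹) := by
  unfold pqeul_a
  rw [pqeul_c_succ, mul_inv, pow_succ]
  ring

include hx0 hx in
theorem pqeul_a_abs (z : ℝ) (hz0 : 0 ≤ z) (hz : z ≤ x) (j : ℕ) :
    |pqeul_a x z (j + 1)| ≤ 3 / 2 * z * (1 / 2) ^ j := by
  have hf : ∀ j : ℕ, |(-z * (1 - x ^ (j + 1))⁻¹)| ≤ 3 / 2 * z := by
    intro j
    have h1 := pqeul_fac hx0 hx j
    have h2 : (1 - x ^ (j + 1))⁻¹ ≤ 3 / 2 := by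
      rw [inv_le_comm₀ (by linarith) (by norm_num)]
      linarith
    have h3 : 0 < (1 - x ^ (j + 1))⁻¹ := by
      apply inv_pos.2; linarith
    rw [neg_mul, abs_neg, abs_of_nonneg (by positivity), mul_comm]
    exact mul_le_mul_of_nonneg_right h2 hz0
  induction j with
  | zero =>
    rw [pqeul_a_succ, pqeul_a_zero]
    have := hf 0
    simpa using this
  | succ j ih =>
    rw [pqeul_a_succ, abs_mul, pow_succ]
    have h1 := hf (j + 1)
    have h2 : 3 / 2 * z ≤ 1 / 2 := by linarith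
    calc |pqeul_a x z (j + 1)| * |(-z * (1 - x ^ (j + 1 + 1))⁻¹)|
        ≤ (3 / 2 * z * (1 / 2) ^ j) * (1 / 2) :=
          mul_le_mul ih (h1.trans h2) (abs_nonneg _) (by positivity)
      _ = 3 / 2 * z * ((1 / 2) ^ j * (1 / 2)) := by ring

include hx0 hx in
theorem pqeul_summable (z : ℝ) (hz0 : 0 ≤ z) (hz : z ≤ x) : Summable (pqeul_a x z) := by
  rw [← summable_nat_add_iff 1]
  apply Summable.of_norm_bounded (g := fun j => 3 / 2 * z * (1 / 2 : ℝ) ^ j)
  · exact (summable_geometric_of_lt_one (by norm_num) (by norm_num)).mul_left _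
  · intro j
    exact pqeul_a_abs hx0 hx z hz0 hz j

include hx0 hx in
theorem pqeul_G_lower (z : ℝ) (hz0 : 0 ≤ z) (hz : z ≤ x) : 1 - 3 * z ≤ ∑' j, pqeul_a x z j := by
  have h1 := pqeul_summable hx0 hx z hz0 hz
  rw [h1.tsum_eq_zero_add, pqeul_a_zero]
  have h2 : Summable fun j => 3 / 2 * z * (1 / 2 : ℝ) ^ j :=
    (summable_geometric_of_lt_one (by norm_num) (by norm_num)).mul_left _
  have h3 : -(∑' j : ℕ, 3 / 2 * z * (1 / 2 : ℝ) ^ j) ≤ ∑' j, pqeul_a x z (j + 1) := by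
    rw [← tsum_neg]
    apply h2.neg.tsum_le_tsum _ ((summable_nat_add_iff 1).2 h1)
    intro j
    have := pqeul_a_abs hx0 hx z hz0 hz j
    have := (abs_le.1 this).1
    linarith
  rw [tsum_mul_left, tsum_geometric_of_lt_one (by norm_num) (by norm_num)] at h3
  norm_num at h3
  linarith

include hx0 hx in
theorem pqeul_G_eq (z : ℝ) (hz0 : 0 ≤ z) (hz : z ≤ x) :
    (1 + z) * ∑' j, pqeul_a x z j = ∑' j, pqeul_a x (x * z) j := by
  have hz1 : 0 ≤ x * z := by positivity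
  have hz2 : x * z ≤ x := by nlinarith
  have h1 := pqeul_summable hx0 hx z hz0 hz
  have h2 := pqeul_summable hx0 hx (x * z) hz1 hz2
  have h3 : ∀ j, pqeul_a x (x * z) (j + 1) = pqeul_a x z (j + 1) + z * pqeul_a x z j := by
    intro j
    have h4 := pqeul_fac hx0 hx j
    have h5 : pqeul_a x (x * z) (j + 1) = x ^ (j + 1) * pqeul_a x z (j + 1) := by
      unfold pqeul_a
      rw [show -(x * z) = x * (-z) by ring, mul_pow]
      ring
    have h6 : pqeul_a x z (j + 1) * (1 - x ^ (j + 1)) = - z * pqeul_a x z j := by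
      rw [pqeul_a_succ]
      have : (1 - x ^ (j + 1)) ≠ 0 := by linarith
      field_simp
    rw [h5]
    linarith
  rw [h2.tsum_eq_zero_add]
  simp only [h3]
  rw [Summable.tsum_add ((summable_nat_add_iff 1).2 h1) (h1.mul_left z), tsum_mul_left,
    h1.tsum_eq_zero_add]
  rw [pqeul_a_zero, pqeul_a_zero]
  ring

include hx0 hx in
theorem pqeul_G_iter (N : ℕ) :
    (∏ i ∈ Finset.range N, (1 + x ^ (i + 1))) * ∑' j, pqeul_a x x j =
      ∑' j, pqeul_a x (x ^ (N + 1)) j := by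
  induction N with
  | zero => simp
  | succ N ih =>
    have h1 : x ^ (N + 1) ≤ x := by
      calc x ^ (N + 1) ≤ x ^ 1 := pow_le_pow_of_le_one hx0.le (by linarith) (by omega)
        _ = x := pow_one x
    have h2 := pqeul_G_eq hx0 hx (x ^ (N + 1)) (by positivity) h1
    rw [Finset.prod_range_succ, show x ^ (N + 1 + 1) = x * x ^ (N + 1) by ring, ← h2, ← ih]
    ring

include hx0 hx in
theorem pqeul_prod (N : ℕ) :
    (∏ i ∈ Finset.range N, (1 + x ^ (i + 1))) * ∏ i ∈ Finset.range N, (1 - x ^ (2 * i + 1)) ≤ 1 := by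
  have h1 : ∀ N : ℕ, (∏ i ∈ Finset.range N, (1 + x ^ (i + 1))) *
      (∏ i ∈ Finset.range N, (1 - x ^ (2 * i + 1))) * pqeul_c x N = pqeul_c x (2 * N) := by
    intro N
    induction N with
    | zero => simp [pqeul_c]
    | succ N ih =>
      rw [show 2 * (N + 1) = 2 * N + 1 + 1 by ring, pqeul_c_succ x N, pqeul_c_succ x (2 * N + 1),
        pqeul_c_succ x (2 * N), ← ih, Finset.prod_range_succ, Finset.prod_range_succ]
      have : x ^ (2 * N + 1 + 1) = x ^ (N + 1) * x ^ (N + 1) := by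
        rw [← pow_add]; congr 1; ring
      rw [this]
      ring
  have h2 : pqeul_c x (2 * N) ≤ pqeul_c x N := by
    have hanti : Antitone (pqeul_c x) := by
      apply antitone_nat_of_succ_le
      intro n
      rw [pqeul_c_succ]
      have := pqeul_c_pos hx0 hx n
      have h4 : 0 < x ^ (n + 1) := by positivity
      nlinarith
    exact hanti (by omega)
  have h3 := pqeul_c_pos hx0 hx N
  rw [← h1 N] at h2
  by_contra h4
  push Not at h4
  nlinarith

include hx0 hx in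
theorem pqeul_tprod_le (N : ℕ) :
    (∏' i : ℕ, (1 - x ^ (2 * i + 1))) ≤ ∏ i ∈ Finset.range N, (1 - x ^ (2 * i + 1)) ∧
      0 ≤ (∏' i : ℕ, (1 - x ^ (2 * i + 1))) := by
  have hs : Summable fun i : ℕ => x ^ (2 * i + 1) := by
    have : (fun i : ℕ => x ^ (2 * i + 1)) = fun i : ℕ => x * (x ^ 2) ^ i := by
      funext i; rw [pow_succ, pow_mul]; ring
    rw [this]
    apply (summable_geometric_of_lt_one (by positivity) _).mul_left
    nlinarith
  have hm : Multipliable fun i : ℕ => (1 - x ^ (2 * i + 1)) := by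
    have := Real.multipliable_one_add_of_summable hs.neg
    simpa [sub_eq_add_neg] using this
  have ht := hm.hasProd.tendsto_prod_nat
  have hfac : ∀ i : ℕ, 0 ≤ 1 - x ^ (2 * i + 1) := by
    intro i
    linarith [pqeul_fac hx0 hx (2 * i)]
  constructor
  · have hanti : Antitone fun n => ∏ i ∈ Finset.range n, (1 - x ^ (2 * i + 1)) := by
      apply antitone_nat_of_succ_le
      intro n
      rw [Finset.prod_range_succ]
      have h1 : 0 ≤ ∏ i ∈ Finset.range n, (1 - x ^ (2 * i + 1)) :=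
        Finset.prod_nonneg fun i _ => hfac i
      have h4 : 0 < x ^ (2 * n + 1) := by positivity
      nlinarith
    exact hanti.le_of_tendsto ht N
  · exact ge_of_tendsto' ht fun n => Finset.prod_nonneg fun i _ => hfac i

include hx0 hx in
theorem pqeul_main : (∏' i : ℕ, (1 - x ^ (2 * i + 1))) ≤ ∑' j, pqeul_a x x j := by
  have h1 : ∀ N : ℕ, (1 - 3 * x ^ (N + 1)) * (∏' i : ℕ, (1 - x ^ (2 * i + 1))) ≤
      ∑' j, pqeul_a x x j := by
    intro N
    have hN : x ^ (N + 1) ≤ x := by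
      calc x ^ (N + 1) ≤ x ^ 1 := pow_le_pow_of_le_one hx0.le (by linarith) (by omega)
        _ = x := pow_one x
    have h2 := pqeul_G_lower hx0 hx (x ^ (N + 1)) (by positivity) hN
    rw [← pqeul_G_iter hx0 hx N] at h2
    obtain ⟨h3, h4⟩ := pqeul_tprod_le hx0 hx N
    have h5 := pqeul_prod hx0 hx N
    have h6 : 0 < ∏ i ∈ Finset.range N, (1 + x ^ (i + 1)) :=
      Finset.prod_pos fun i _ => by positivity
    have h7 : 0 ≤ 1 - 3 * x ^ (N + 1) := by nlinarith
    set A := ∏ i ∈ Finset.range N, (1 + x ^ (i + 1))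
    set B := ∏ i ∈ Finset.range N, (1 - x ^ (2 * i + 1))
    set T := (∏' i : ℕ, (1 - x ^ (2 * i + 1)))
    set G := ∑' j, pqeul_a x x j
    set e := 1 - 3 * x ^ (N + 1)
    have h8 : A * T ≤ 1 := (mul_le_mul_of_nonneg_left h3 h6.le).trans h5
    have h9 : A * (e * T) ≤ A * G := by nlinarith
    exact le_of_mul_le_mul_left h9 h6
  have h2 : Filter.Tendsto (fun N : ℕ => (1 - 3 * x ^ (N + 1)) *
      (∏' i : ℕ, (1 - x ^ (2 * i + 1)))) Filter.atTop
      (nhds ((1 - 3 * 0) * (∏' i : ℕ, (1 - x ^ (2 * i + 1))))) := by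
    apply Filter.Tendsto.mul_const
    apply Filter.Tendsto.const_sub
    apply Filter.Tendsto.const_mul
    exact (tendsto_pow_atTop_nhds_zero_of_lt_one hx0.le (by linarith)).comp
      (Filter.tendsto_add_atTop_nat 1)
  have h3 := le_of_tendsto' h2 h1
  simpa using h3

end series

theorem tPqEul : StmtPqEul := by
  intro q hq L hL η hη
  have hq1 : 1 < q := by linarith
  have hx0 : 0 < q⁻¹ := by positivity
  have hx : q⁻¹ ≤ 1 / 3 := by
    rw [one_div]
    exact inv_anti₀ (by norm_num) hq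
  have h1 := (pqeul_summable hx0 hx q⁻¹ hx0.le le_rfl).hasSum.tendsto_sum_nat
  have h2 := (Metric.tendsto_atTop.1 h1) η hη
  obtain ⟨N, hN⟩ := h2
  refine ⟨pqeul_f q (2 * N + 1), pqeul_eval q hq1 N, ?_⟩
  have h3 := hN (2 * N + 1 + 1) (by omega)
  rw [Real.dist_eq, ← pqeul_L q hq1 L hL] at h3
  have h4 := pqeul_main hx0 hx
  have h5 := (abs_lt.1 h3).1
  linarith

end MP72e2e6
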