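import Pool.Agent.Lib.MP_72e2e6_nt.PqStmt

set_option autoImplicit false

/-!
# MP_72e2e6_nt: PqFun (a functional with given values)
-/

open Polynomial

namespace MP72e2e6

theorem pqfun_degree (q : ℝ) (a : ℕ) : (Eq_ q a).degree = a := by
  unfold Eq_
  rw [degree_prod]
  simp only [degree_X_sub_C, Finset.sum_const, Finset.card_range]
  simp

theorem pqfun_monic (q : ℝ) (a : ℕ) : (Eq_ q a).Monic := by
  unfold Eq_
  exact monic_prod_of_monic _ _ fun i _ => monic_X_sub_C _

/-- the sequence of the polynomials `Eq_ q a` -/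
noncomputable def pqfun_seq (q : ℝ) : Polynomial.Sequence ℝ := ⟨Eq_ q, pqfun_degree q⟩

theorem tPqFun : StmtPqFun := by
  intro q m
  have h : ∀ i, IsUnit ((pqfun_seq q) i).leadingCoeff := by
    intro i
    have h1 : ((pqfun_seq q) i).leadingCoeff = 1 := pqfun_monic q i
    rw [h1]
    exact isUnit_one
  refine ⟨((pqfun_seq q).basis h).constr ℝ m, fun j => ?_⟩
  have h2 : Eq_ q j = ((pqfun_seq q).basis h) j := by
    rw [Polynomial.Sequence.basis_eq_self]
    rfl
  rw [h2, Module.Basis.constr_basis]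

end MP72e2e6
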