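import Pool.Agent.Lib.MP_72e2e6_nt.PqStmt

/-!
# Package Pq: the moments in the connected case
-/

set_option autoImplicit false

namespace MP72e2e6

open Polynomial

/-- The products `∏_{i = 1}^a (X - q ^ i)`. -/
noncomputable def pqmom_p (q : ℝ) (a : ℕ) : ℝ[X] := ∏ i ∈ Finset.range a, (X - C (q ^ (i + 1)))

theorem pqmom_tri (a : ℕ) : (a + 1) * (a + 1 - 1) / 2 = a + a * (a - 1) / 2 := by
  have h1 : (a + 1) * (a + 1 - 1) = 2 * a + a * (a - 1) := by
    cases a with
    | zero => rfl
    | succ b =>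
      rw [Nat.add_sub_cancel, Nat.add_sub_cancel]
      ring
  rw [h1, Nat.mul_add_div (by norm_num)]

theorem pqmom_mul (q : ℝ) (a : ℕ) : (X - 1) * pqmom_p q a = Eq_ q (a + 1) := by
  rw [Eq_, Finset.prod_range_succ', pow_zero, C_1, mul_comm, pqmom_p]

theorem pqmom_comp (q : ℝ) (a : ℕ) :
    (pqmom_p q a).comp (C q * X) = C (q ^ a) * Eq_ q a := by
  rw [pqmom_p, Eq_, Polynomial.prod_comp]
  have h1 : ∀ i ∈ Finset.range a, (X - C (q ^ (i + 1))).comp (C q * X) =
      C q * (X - C (q ^ i)) := by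
    intro i _
    rw [sub_comp, X_comp, C_comp, pow_succ, C_mul]
    ring
  rw [Finset.prod_congr rfl h1, Finset.prod_mul_distrib, Finset.prod_const, Finset.card_range,
    C_pow]

theorem pqmom_X (q : ℝ) (a : ℕ) :
    X * pqmom_p q a = pqmom_p q (a + 1) + C (q ^ (a + 1)) * pqmom_p q a := by
  rw [pqmom_p, pqmom_p, Finset.prod_range_succ]
  ring

theorem tPqMom : StmtPqMom := by
  intro q L hL k
  have hC : ∀ (c : ℝ) (p : ℝ[X]), L (C c * p) = c * L p := by
    intro c p
    rw [← smul_eq_C_mul, map_smul, smul_eq_mul]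
  have h1 : ∀ k a : ℕ, L ((X - 1) * (X ^ k * pqmom_p q a)) =
      L ((X ^ k * pqmom_p q a).comp (C q * X)) := by
    intro k
    induction k with
    | zero =>
      intro a
      rw [pow_zero, one_mul, pqmom_mul, pqmom_comp, hL, hC, hL, ← pow_add, pqmom_tri]
    | succ k ih =>
      intro a
      have h2 : X ^ (k + 1) * pqmom_p q a = X ^ k * pqmom_p q (a + 1) +
          C (q ^ (a + 1)) * (X ^ k * pqmom_p q a) := by
        rw [pow_succ, mul_assoc, pqmom_X]
        ring
      have h3 : (X - 1) * (X ^ k * pqmom_p q (a + 1) +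
          C (q ^ (a + 1)) * (X ^ k * pqmom_p q a)) = (X - 1) * (X ^ k * pqmom_p q (a + 1)) +
          C (q ^ (a + 1)) * ((X - 1) * (X ^ k * pqmom_p q a)) := by
        ring
      rw [h2, h3, map_add, hC, ih, ih, add_comp, mul_comp (C (q ^ (a + 1))), C_comp, map_add, hC]
  have h0 : L 1 = 1 := by
    have h2 := hL 0
    rwa [Eq_, Finset.range_zero, Finset.prod_empty, Nat.zero_mul, Nat.zero_div, pow_zero] at h2
  induction k with
  | zero => rw [pow_zero, h0, Finset.range_zero, Finset.prod_empty]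
  | succ k ih =>
    have h2 := h1 k 0
    have h3 : pqmom_p q 0 = 1 := by
      rw [pqmom_p, Finset.range_zero, Finset.prod_empty]
    have h4 : (X - 1) * X ^ k = (X : ℝ[X]) ^ (k + 1) - X ^ k := by ring
    rw [h3, mul_one, h4, map_sub, pow_comp, X_comp, mul_pow, ← C_pow, hC] at h2
    rw [Finset.prod_range_succ, ← ih]
    linear_combination h2

end MP72e2e6
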