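import Pool.Agent.Lib.MP_72e2e6_nt.PqStmt

set_option autoImplicit false

/-!
# MP_72e2e6_nt: PqMul (from products of the `Eq_` to all polynomials)
-/

open Polynomial

namespace MP72e2e6

universe u

theorem pqmul_degree (q : ℝ) (a : ℕ) : (Eq_ q a).degree = a := by
  unfold Eq_
  rw [degree_prod]
  simp only [degree_X_sub_C, Finset.sum_const, Finset.card_range]
  simp

/-- the sequence of the polynomials `Eq_ q a` -/
noncomputable def pqmul_seq (q : ℝ) : Polynomial.Sequence ℝ := ⟨Eq_ q, pqmul_degree q⟩

theorem pqmul_span (q : ℝ) (S : Submodule ℝ ℝ[X]) (h : ∀ a, Eq_ q a ∈ S) (p : ℝ[X]) : p ∈ S := by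
  have h0 : ∀ i, IsUnit ((pqmul_seq q) i).leadingCoeff := by
    intro i
    have h1 : ((pqmul_seq q) i).Monic := by
      show (Eq_ q i).Monic
      unfold Eq_
      exact monic_prod_of_monic _ _ fun i _ => monic_X_sub_C _
    rw [h1.leadingCoeff]
    exact isUnit_one
  have h1 := (pqmul_seq q).span h0
  have h2 : Submodule.span ℝ (Set.range (pqmul_seq q)) ≤ S := by
    rw [Submodule.span_le]
    rintro _ ⟨a, rfl⟩
    exact h a
  rw [h1] at h2
  exact h2 trivial

/-- smallness of a sequence of errors -/
def pqmul_sm (good : ℕ → Prop) (Q : ℝ) (D : ℕ → ℝ) : Prop :=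
  ∀ ε : ℝ, 0 < ε → ∃ n₀ : ℕ, ∀ n : ℕ, n₀ ≤ n → good n → |D n| ≤ ε * Q ^ n

theorem pqmul_sm_add {good : ℕ → Prop} {Q : ℝ} {D E : ℕ → ℝ} (hD : pqmul_sm good Q D)
    (hE : pqmul_sm good Q E) : pqmul_sm good Q fun n => D n + E n := by
  intro ε hε
  obtain ⟨n1, h1⟩ := hD (ε / 2) (by positivity)
  obtain ⟨n2, h2⟩ := hE (ε / 2) (by positivity)
  refine ⟨max n1 n2, fun n hn hg => ?_⟩
  have a1 := h1 n (le_trans (le_max_left _ _) hn) hg
  have a2 := h2 n (le_trans (le_max_right _ _) hn) hg
  have a3 := abs_add_le (D n) (E n)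
  linarith

theorem pqmul_sm_smul {good : ℕ → Prop} {Q : ℝ} (hQ : 0 < Q) {D : ℕ → ℝ} (r : ℝ)
    (hD : pqmul_sm good Q D) : pqmul_sm good Q fun n => r * D n := by
  intro ε hε
  have hr : 0 < |r| + 1 := by positivity
  obtain ⟨n1, h1⟩ := hD (ε / (|r| + 1)) (by positivity)
  refine ⟨n1, fun n hn hg => ?_⟩
  have a1 := h1 n hn hg
  have hQn : 0 < Q ^ n := by positivity
  rw [abs_mul]
  calc |r| * |D n| ≤ (|r| + 1) * (ε / (|r| + 1) * Q ^ n) := by
        apply mul_le_mul (by linarith) a1 (abs_nonneg _) hr.le
    _ = ε * Q ^ n := by field_simp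

theorem pqmul_sm_zero {good : ℕ → Prop} {Q : ℝ} (hQ : 0 < Q) : pqmul_sm good Q fun _ => 0 := by
  intro ε hε
  refine ⟨0, fun n _ _ => ?_⟩
  rw [abs_zero]
  positivity

section main

variable {ι : Type} [Fintype ι] {α : Type u} (G : ℕ → Finset α) (good : ℕ → Prop) (Q : ℝ)
  (x : ι → α → ℝ) (L : ι → (ℝ[X] →ₗ[ℝ] ℝ))

/-- the error term -/
noncomputable def pqmul_D (f : ι → ℝ[X]) (n : ℕ) : ℝ :=
  ∑ t ∈ G n, ∏ i, (f i).eval (x i t) - (∏ i, L i (f i)) * ((G n).card : ℝ)

open Classical in
theorem pqmul_D_update (f : ι → ℝ[X]) (i : ι) (p : ℝ[X]) (n : ℕ) :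
    pqmul_D G x L (Function.update f i p) n =
      ∑ t ∈ G n, p.eval (x i t) * ∏ j ∈ Finset.univ.erase i, (f j).eval (x j t) -
        L i p * (∏ j ∈ Finset.univ.erase i, L j (f j)) * ((G n).card : ℝ) := by
  unfold pqmul_D
  have e1 : ∀ t, ∏ j, ((Function.update f i p) j).eval (x j t) =
      p.eval (x i t) * ∏ j ∈ Finset.univ.erase i, (f j).eval (x j t) := by
    intro t
    rw [← Finset.mul_prod_erase _ _ (Finset.mem_univ i), Function.update_self]
    congr 1
    apply Finset.prod_congr rfl
    intro j hj
    rw [Function.update_of_ne (Finset.ne_of_mem_erase hj)]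
  have e2 : ∏ j, L j ((Function.update f i p) j) =
      L i p * ∏ j ∈ Finset.univ.erase i, L j (f j) := by
    rw [← Finset.mul_prod_erase _ _ (Finset.mem_univ i), Function.update_self]
    congr 1
    apply Finset.prod_congr rfl
    intro j hj
    rw [Function.update_of_ne (Finset.ne_of_mem_erase hj)]
  rw [e2]
  congr 1
  exact Finset.sum_congr rfl fun t _ => e1 t

open Classical in
/-- the polynomials for which the conclusion holds -/
noncomputable def pqmul_S (hQ : 0 < Q) (f : ι → ℝ[X]) (i : ι) : Submodule ℝ ℝ[X] where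
  carrier := {p | pqmul_sm good Q (pqmul_D G x L (Function.update f i p))}
  add_mem' := by
    intro p r hp hr
    have h := pqmul_sm_add hp hr
    have e : (fun n => pqmul_D G x L (Function.update f i p) n +
        pqmul_D G x L (Function.update f i r) n) = pqmul_D G x L (Function.update f i (p + r)) := by
      funext n
      rw [pqmul_D_update, pqmul_D_update, pqmul_D_update, map_add]
      simp only [eval_add, add_mul, Finset.sum_add_distrib]
      ring
    rw [e] at h
    exact h
  zero_mem' := by
    have h := pqmul_sm_zero (good := good) hQ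
    have e : (fun _ : ℕ => (0 : ℝ)) = pqmul_D G x L (Function.update f i 0) := by
      funext n
      rw [pqmul_D_update, map_zero]
      simp
    rw [e] at h
    exact h
  smul_mem' := by
    intro c p hp
    have h := pqmul_sm_smul hQ c hp
    have e : (fun n => c * pqmul_D G x L (Function.update f i p) n) =
        pqmul_D G x L (Function.update f i (c • p)) := by
      funext n
      rw [pqmul_D_update, pqmul_D_update, map_smul, mul_sub, Finset.mul_sum, smul_eq_mul]
      simp only [eval_smul, smul_eq_mul]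
      congr 1
      · apply Finset.sum_congr rfl
        intro t _
        ring
      · ring
    rw [e] at h
    exact h

end main

theorem tPqMul : StmtPqMul.{u} := by
  classical
  intro ι _ α G good Q hQ q x L h
  have key : ∀ s : Finset ι, ∀ f : ι → ℝ[X], (∀ i, i ∉ s → ∃ a, f i = Eq_ (q i) a) →
      pqmul_sm good Q (pqmul_D G x L f) := by
    intro s
    induction s using Finset.induction_on with
    | empty =>
      intro f hf
      choose a ha using fun i => hf i (Finset.notMem_empty i)
      intro ε hε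
      have e : f = fun i => Eq_ (q i) (a i) := funext ha
      rw [e]
      exact h a ε hε
    | insert i s hi ih =>
      intro f hf
      have h1 : ∀ a, Eq_ (q i) a ∈ pqmul_S G good Q x L hQ f i := by
        intro a
        apply ih
        intro j hj
        by_cases hji : j = i
        · subst hji
          exact ⟨a, Function.update_self _ _ _⟩
        · obtain ⟨b, hb⟩ := hf j (by simp [hji, hj])
          exact ⟨b, by rw [Function.update_of_ne hji]; exact hb⟩
      have h2 := pqmul_span (q i) _ h1 (f i)
      have h3 : pqmul_sm good Q (pqmul_D G x L (Function.update f i (f i))) := h2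
      rw [Function.update_eq_self] at h3
      exact h3
  intro f ε hε
  exact key Finset.univ f (fun i hi => absurd (Finset.mem_univ i) hi) ε hε

end MP72e2e6
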