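import Pool.Agent.Lib.MP_72e2e6_nt.PqStmt

/-!
# MP_72e2e6_nt : one variable, the case u < q
-/

set_option autoImplicit false

namespace MP72e2e6

open Polynomial

theorem tPqOneA (hPqOneC : StmtPqOneC) : StmtPqOneA := by
  intro ℓ hℓ q u β hq hβ L hL η hη
  have hℓ' : (3 : ℝ) ≤ ℓ := by exact_mod_cast hℓ
  have hq3 : (3 : ℝ) ≤ q := hℓ'.trans hq
  have hq1 : 1 < q := by linarith
  have hu1 : 1 ≤ u := by
    rcases hβ with h | h
    · rw [h.2]
    · exact h.2.1
  have hβ0 : 0 < β := by
    rcases hβ with h | h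
    · rw [h.1]; norm_num
    · rw [h.1]; linarith
  have hpi : ∀ j, 0 < ∏ i ∈ Finset.range j, (q ^ (i + 1) - 1) := by
    intro j
    apply Finset.prod_pos
    intro i _
    have := one_lt_pow₀ hq1 (n := i + 1) (by omega)
    linarith
  have hfac : ∀ j : ℕ, 2 * (u * β ^ j) ≤ q ^ (j + 1) - 1 := by
    intro j
    have h1 : q ≤ q ^ (j + 1) := by
      calc q = q ^ 1 := (pow_one q).symm
        _ ≤ q ^ (j + 1) := pow_le_pow_right₀ hq1.le (by omega)
    rcases hβ with h | h
    · rw [h.1, h.2, one_pow]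
      linarith
    · rw [h.1]
      have h2 : u * 3 ≤ q := (mul_le_mul_of_nonneg_left hℓ' (by linarith)).trans h.2.2
      have h3 : 0 < q ^ j := by positivity
      have h4 : u * 3 * q ^ j ≤ q * q ^ j := mul_le_mul_of_nonneg_right h2 h3.le
      rw [pow_succ] at h1 ⊢
      nlinarith
  obtain ⟨fm, fp, h1, h2, h3, h4⟩ := hPqOneC q hq1 L
    (fun j => u ^ j * β ^ (j * (j - 1) / 2) / ∏ i ∈ Finset.range j, (q ^ (i + 1) - 1))
    (fun j => by
      have := hpi j
      rw [hL j]
      field_simp)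
    (by simp)
    (fun j => by
      have := hpi j
      positivity)
    (fun j => by
      have hp := hpi j
      have hp1 := hpi (j + 1)
      have hj := one_lt_pow₀ hq1 (n := j + 1) (by omega)
      have e1 : (j + 1) * (j + 1 - 1) / 2 = j * (j - 1) / 2 + j := by
        rw [Nat.add_sub_cancel]
        have : (j + 1) * j = j * (j - 1) + j * 2 := by
          rcases j with _ | j
          · simp
          · simp only [Nat.add_sub_cancel]; ring
        rw [this, Nat.add_mul_div_right _ _ (by norm_num)]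
      show u ^ (j + 1) * β ^ ((j + 1) * (j + 1 - 1) / 2) /
          ∏ i ∈ Finset.range (j + 1), (q ^ (i + 1) - 1) ≤
        u ^ j * β ^ (j * (j - 1) / 2) / (∏ i ∈ Finset.range j, (q ^ (i + 1) - 1)) / 2
      have hj2 : 0 < q ^ (j + 1) - 1 := by linarith
      rw [e1, Finset.prod_range_succ, div_div, div_le_div_iff₀ (by positivity) (by positivity)]
      have h5 := hfac j
      have h6 : 0 ≤ u ^ j * β ^ (j * (j - 1) / 2) * ∏ i ∈ Finset.range j, (q ^ (i + 1) - 1) := by
        positivity
      have h7 := mul_le_mul_of_nonneg_left h5 h6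
      rw [pow_succ u j, pow_add β]
      linarith)
    η hη
  refine ⟨fm, fp, h1, h2, le_trans ?_ h3, h4⟩
  have h5 : u ^ 1 * β ^ (1 * (1 - 1) / 2) / ∏ i ∈ Finset.range 1, (q ^ (i + 1) - 1) =
      u / (q - 1) := by simp
  rw [h5]
  have h6 : u / (q - 1) ≤ 1 / ((ℓ : ℝ) - 1) := by
    rw [div_le_div_iff₀ (by linarith) (by linarith)]
    rcases hβ with h | h
    · rw [h.2]; linarith
    · have := h.2.2
      nlinarith
  linarith

end MP72e2e6
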