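import Pool.Agent.Lib.MP_72e2e6_nt.PqStmt

/-!
# MP_72e2e6_nt: exact moments, positive proportion for a family (PqPos)
-/

namespace MP72e2e6

open Polynomial

universe u

open Classical in
/-- the polynomials for one system -/
theorem pqpos_one (hCt : StmtPqCt.{u}) (hBil : StmtPqBil) (hSym : StmtPqSym.{u})
    (hOneA : StmtPqOneA) (hOneB : StmtPqOneB)
    (F : Type u) [Field F] [Finite F] (ℓ : ℕ) [Fact ℓ.Prime] (h2 : ℓ ≠ 2)
    (hdvd : ℓ ∣ Nat.card F - 1) (χ : F → ZMod ℓ) (hχ : IsLg ℓ χ) (V : Type) [Fintype V]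
    (pr : V → F[X]) (hpr : Fam pr) (ι : Type) [Fintype ι] (S : ι → Sys ℓ V)
    (hS : FamS χ pr S) (i : ι) (L : ℝ[X] →ₗ[ℝ] ℝ)
    (hL : ∀ j, L (Eq_ (Nat.card (HomS (S i) (S i))) j) =
      (Nat.card (Sk (S i).σ (S i).Λ) : ℝ) ^ j *
        (Nat.card (BilS (S i) (S i)) : ℝ) ^ (j * (j - 1) / 2)) (η : ℝ) (hη : 0 < η) :
    ∃ fm fp : ℝ[X], (∀ (n : ℕ) (t : Finset F[X]), InfW pr (S i).σ n → t ∈ gs F pr n →
      fm.eval ((S i).sol χ pr t : ℝ) ≤ (if (S i).sol χ pr t = 1 then 1 else 0) ∧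
      (if (S i).sol χ pr t = 1 then 1 else 0) ≤ fp.eval ((S i).sol χ pr t : ℝ)) ∧
      L fp - L fm ≤ η ∧ 1 - 1 / ((ℓ : ℝ) - 1) ≤ L fp ∧ L fp ≤ 1 := by
  have hℓ3 : 3 ≤ ℓ := by
    have := (Fact.out : ℓ.Prime).two_le
    omega
  obtain ⟨hq, hcase⟩ := hBil ℓ V (S i) (hS.irr i)
  have hq' : (ℓ : ℝ) ≤ (Nat.card (HomS (S i) (S i)) : ℝ) := by exact_mod_cast hq
  have hq1 : Nat.card (HomS (S i) (S i)) ≠ 1 := by omega
  by_cases hB : Nat.card (BilS (S i) (S i)) = Nat.card (HomS (S i) (S i)) ∧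
      Nat.card (Sk (S i).σ (S i).Λ) = Nat.card (HomS (S i) (S i))
  · -- even exponents
    obtain ⟨hB1, hB2⟩ := hB
    obtain ⟨fm, fp, h1, h3, h4, h5⟩ := hOneB ℓ hℓ3 _ hq' L (fun j => by
      rw [hL, hB1, hB2]) η hη
    refine ⟨fm, fp, fun n t hInf ht => ?_, h3, h4, h5⟩
    have hSk : Sk (S i).σ (S i).Λ ≠ ⊥ := by
      intro h
      rw [h] at hB2
      apply hq1
      rw [← hB2]
      exact Nat.card_unique
    obtain ⟨a, ha⟩ := hSym F ℓ h2 hdvd χ hχ V pr hpr (S i) (hS.irr i) (hS.hyp i) hSk n hInf t ht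
    rw [hB2] at ha
    have h6 := h1 a
    have h7 : ((S i).sol χ pr t : ℝ) = (Nat.card (HomS (S i) (S i)) : ℝ) ^ (2 * a) := by
      rw [ha]
      push_cast
      rfl
    have h8 : ((S i).sol χ pr t = 1) ↔ a = 0 := by
      rw [ha, Nat.pow_eq_one]
      constructor
      · rintro (h | h)
        · exact absurd h hq1
        · omega
      · intro h
        right
        omega
    rw [h7]
    by_cases ha0 : a = 0
    · rw [if_pos (h8.mpr ha0)]
      rw [if_pos ha0] at h6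
      exact h6
    · rw [if_neg fun h => ha0 (h8.mp h)]
      rw [if_neg ha0] at h6
      exact h6
  · have hcase' : ((Nat.card (BilS (S i) (S i)) : ℝ) = 1 ∧
        (Nat.card (Sk (S i).σ (S i).Λ) : ℝ) = 1) ∨
        ((Nat.card (BilS (S i) (S i)) : ℝ) = Nat.card (HomS (S i) (S i)) ∧
        1 ≤ (Nat.card (Sk (S i).σ (S i).Λ) : ℝ) ∧
        (Nat.card (Sk (S i).σ (S i).Λ) : ℝ) * ℓ ≤ Nat.card (HomS (S i) (S i))) := by
      rcases hcase with ⟨h1, h3⟩ | ⟨h1, h3, h4 | h4⟩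
      · left
        exact ⟨by exact_mod_cast h1, by exact_mod_cast h3⟩
      · exact absurd ⟨h1, h4⟩ hB
      · right
        exact ⟨by exact_mod_cast h1, by exact_mod_cast h3, by exact_mod_cast h4⟩
    obtain ⟨fm, fp, h1, h3, h4, h5⟩ := hOneA ℓ hℓ3 _ _ _ hq' hcase' L hL η hη
    refine ⟨fm, fp, fun n t hInf ht => ?_, h3, h4, h5⟩
    obtain ⟨r, hr⟩ := (hCt F ℓ V χ pr ι S hS t).2 i
    have h6 := h1 r
    have h7 : ((S i).sol χ pr t : ℝ) = (Nat.card (HomS (S i) (S i)) : ℝ) ^ r := by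
      rw [hr]
      push_cast
      rfl
    have h8 : ((S i).sol χ pr t = 1) ↔ r = 0 := by
      rw [hr, Nat.pow_eq_one]
      constructor
      · rintro (h | h)
        · exact absurd h hq1
        · exact h
      · intro h
        right
        exact h
    rw [h7]
    by_cases hr0 : r = 0
    · rw [if_pos (h8.mpr hr0)]
      rw [if_pos hr0] at h6
      exact h6
    · rw [if_neg fun h => hr0 (h8.mp h)]
      rw [if_neg hr0] at h6
      exact h6

theorem tPqPos.{v} (hMix : StmtPqMix.{v}) (hCt : StmtPqCt.{v}) (hBil : StmtPqBil)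
    (hSym : StmtPqSym.{v}) (hFun : StmtPqFun) (hMul : StmtPqMul.{v}) (hOneA : StmtPqOneA)
    (hOneB : StmtPqOneB) (hTel : StmtPqTel) : StmtPqPos.{v} := by
  intro F _ _ ℓ _ h2 hdvd χ hχ V _ pr hpr ι _ S hS ε hε
  classical
  have hℓ3 : 3 ≤ ℓ := by
    have := (Fact.out : ℓ.Prime).two_le
    omega
  have hℓ3' : (3 : ℝ) ≤ (ℓ : ℝ) := by exact_mod_cast hℓ3
  set p : ℝ := 1 - 1 / ((ℓ : ℝ) - 1) with hp
  have hp0 : 0 ≤ p := by
    have h3 : 1 / ((ℓ : ℝ) - 1) ≤ 1 := by
      rw [div_le_one (by linarith)]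
      linarith
    linarith
  have hQ : (0 : ℝ) < (Nat.card F : ℝ) := by exact_mod_cast Nat.card_pos
  let K : ℝ := (Fintype.card ι : ℝ) + 1
  have hK : 0 < K := by positivity
  let η : ℝ := ε / K
  have hη : 0 < η := div_pos hε hK
  choose L hL using fun i : ι => hFun (Nat.card (HomS (S i) (S i)) : ℝ) (fun j =>
    (Nat.card (Sk (S i).σ (S i).Λ) : ℝ) ^ j *
      (Nat.card (BilS (S i) (S i)) : ℝ) ^ (j * (j - 1) / 2))
  choose fm fp hf hLη hLp hL1 using fun i : ι => pqpos_one hCt hBil hSym hOneA hOneB F ℓ h2 hdvd χ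
    hχ V pr hpr ι S hS i (L i) (hL i) η hη
  let x : ι → Finset F[X] → ℝ := fun i t => ((S i).sol χ pr t : ℝ)
  have hmul := hMul ι (Finset F[X]) (fun n => gs F pr n) (fun n => ∀ i, InfW pr (S i).σ n)
    (Nat.card F : ℝ) hQ (fun i => (Nat.card (HomS (S i) (S i)) : ℝ)) x L (by
      intro a δ hδ
      obtain ⟨n₀, hn₀⟩ := hMix F ℓ h2 hdvd χ hχ V pr hpr ι S hS a δ hδ
      refine ⟨n₀, fun n hn hI => ?_⟩
      have h3 := hn₀ n hn hI
      have h4 : ∏ i, L i (Eq_ (Nat.card (HomS (S i) (S i))) (a i)) =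
          ∏ i, ((Nat.card (Sk (S i).σ (S i).Λ) : ℝ) ^ a i *
            (Nat.card (BilS (S i) (S i)) : ℝ) ^ (a i * (a i - 1) / 2)) :=
        Finset.prod_congr rfl fun i _ => hL i (a i)
      rw [← h4] at h3
      exact h3)
  obtain ⟨n₁, hn₁⟩ := hmul fp η hη
  choose n₂ hn₂ using fun i : ι => hmul (Function.update fp i (fp i - fm i)) η hη
  refine ⟨max n₁ (Finset.univ.sup n₂), fun n hn hI => ?_⟩
  have h3 := hn₁ n (le_trans (le_max_left _ _) hn) hI
  have h4 : ∀ i, _ := fun i => hn₂ i n (le_trans (le_trans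
    (Finset.le_sup (f := n₂) (Finset.mem_univ i)) (le_max_right _ _)) hn) hI
  -- the indicator functions
  let b : ι → Finset F[X] → ℝ := fun i t => if (S i).sol χ pr t = 1 then 1 else 0
  have hcount : (((gs F pr n).filter fun t => ∀ i, (S i).sol χ pr t = 1).card : ℝ) =
      ∑ t ∈ gs F pr n, ∏ i, b i t := by
    rw [Finset.card_filter]
    push_cast
    refine Finset.sum_congr rfl fun t _ => ?_
    by_cases h5 : ∀ i, (S i).sol χ pr t = 1
    · rw [if_pos h5]
      symm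
      exact Finset.prod_eq_one fun i _ => if_pos (h5 i)
    · rw [if_neg h5]
      push Not at h5
      obtain ⟨i, hi⟩ := h5
      symm
      exact Finset.prod_eq_zero (Finset.mem_univ i) (if_neg hi)
  have htel : ∀ t ∈ gs F pr n, ∏ i, (fp i).eval (x i t) -
      ∑ i, ∏ j, (Function.update fp i (fp i - fm i) j).eval (x j t) ≤ ∏ i, b i t := by
    intro t ht
    have h5 := hTel ι Finset.univ (fun i => b i t) (fun i => (fp i).eval (x i t))
      (fun i => (fm i).eval (x i t)) (fun i => by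
        show 0 ≤ (if (S i).sol χ pr t = 1 then (1 : ℝ) else 0)
        split_ifs
        · exact zero_le_one
        · exact le_rfl) (fun i => (hf i n t (hI i) ht).2) (fun i => (hf i n t (hI i) ht).1)
    refine le_trans (le_of_eq ?_) h5
    congr 1
    refine Finset.sum_congr rfl fun i _ => ?_
    rw [← Finset.mul_prod_erase Finset.univ _ (Finset.mem_univ i), Function.update_self,
      eval_sub]
    congr 1
    refine Finset.prod_congr rfl fun j hj => ?_
    rw [Function.update_of_ne (Finset.ne_of_mem_erase hj)]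
  have hlow : ∑ t ∈ gs F pr n, ∏ i, (fp i).eval (x i t) -
      ∑ i, ∑ t ∈ gs F pr n, ∏ j, (Function.update fp i (fp i - fm i) j).eval (x j t) ≤
      ∑ t ∈ gs F pr n, ∏ i, b i t := by
    rw [Finset.sum_comm, ← Finset.sum_sub_distrib]
    exact Finset.sum_le_sum htel
  have hL0 : ∀ i, 0 ≤ L i (fp i) := fun i => le_trans hp0 (hLp i)
  have hprod : p ^ Fintype.card ι ≤ ∏ i, L i (fp i) := by
    rw [← Finset.card_univ, ← Finset.prod_const]
    exact Finset.prod_le_prod (fun _ _ => hp0) fun i _ => hLp i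
  have hup : ∀ i, ∏ j, L j (Function.update fp i (fp i - fm i) j) ≤ η := by
    intro i
    rw [← Finset.mul_prod_erase Finset.univ _ (Finset.mem_univ i), Function.update_self]
    have h5 : ∏ j ∈ Finset.univ.erase i, L j (Function.update fp i (fp i - fm i) j) =
        ∏ j ∈ Finset.univ.erase i, L j (fp j) := by
      refine Finset.prod_congr rfl fun j hj => ?_
      rw [Function.update_of_ne (Finset.ne_of_mem_erase hj)]
    rw [h5, map_sub]
    have h6 : 0 ≤ ∏ j ∈ Finset.univ.erase i, L j (fp j) :=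
      Finset.prod_nonneg fun j _ => hL0 j
    have h7 : ∏ j ∈ Finset.univ.erase i, L j (fp j) ≤ 1 :=
      Finset.prod_le_one (fun j _ => hL0 j) fun j _ => hL1 j
    calc (L i (fp i) - L i (fm i)) * ∏ j ∈ Finset.univ.erase i, L j (fp j) ≤
          η * ∏ j ∈ Finset.univ.erase i, L j (fp j) := mul_le_mul_of_nonneg_right (hLη i) h6
      _ ≤ η * 1 := mul_le_mul_of_nonneg_left h7 hη.le
      _ = η := mul_one η
  have hG : (0 : ℝ) ≤ ((gs F pr n).card : ℝ) := Nat.cast_nonneg _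
  have hA : (∏ i, L i (fp i)) * ((gs F pr n).card : ℝ) - η * (Nat.card F : ℝ) ^ n ≤
      ∑ t ∈ gs F pr n, ∏ i, (fp i).eval (x i t) := by
    have h5 := (abs_le.mp h3).1
    linarith
  have hB : ∀ i, ∑ t ∈ gs F pr n, ∏ j, (Function.update fp i (fp i - fm i) j).eval (x j t) ≤
      η * ((gs F pr n).card : ℝ) + η * (Nat.card F : ℝ) ^ n := by
    intro i
    have h5 := (abs_le.mp (h4 i)).2
    have h6 := mul_le_mul_of_nonneg_right (hup i) hG
    linarith
  have hB' : ∑ i, ∑ t ∈ gs F pr n, ∏ j, (Function.update fp i (fp i - fm i) j).eval (x j t) ≤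
      (Fintype.card ι : ℝ) * (η * ((gs F pr n).card : ℝ) + η * (Nat.card F : ℝ) ^ n) := by
    refine le_trans (Finset.sum_le_sum fun i _ => hB i) (le_of_eq ?_)
    rw [Finset.sum_const, Finset.card_univ, nsmul_eq_mul]
  have hKη : K * η = ε := by
    show K * (ε / K) = ε
    field_simp
  have hcη : (Fintype.card ι : ℝ) * η ≤ ε := by
    have h5 : (Fintype.card ι : ℝ) * η + η = ε := by
      rw [← hKη]
      show (Fintype.card ι : ℝ) * η + η = ((Fintype.card ι : ℝ) + 1) * η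
      ring
    linarith
  rw [hcount]
  refine le_trans ?_ hlow
  have h5 : p ^ Fintype.card ι * ((gs F pr n).card : ℝ) ≤
      (∏ i, L i (fp i)) * ((gs F pr n).card : ℝ) := mul_le_mul_of_nonneg_right hprod hG
  have h6 : (Fintype.card ι : ℝ) * η * ((gs F pr n).card : ℝ) ≤ ε * ((gs F pr n).card : ℝ) :=
    mul_le_mul_of_nonneg_right hcη hG
  have h7 : (Fintype.card ι : ℝ) * η * (Nat.card F : ℝ) ^ n + η * (Nat.card F : ℝ) ^ n =
      ε * (Nat.card F : ℝ) ^ n := by
    rw [← hKη]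
    show _ = ((Fintype.card ι : ℝ) + 1) * η * (Nat.card F : ℝ) ^ n
    ring
  have h8 : (p ^ Fintype.card ι - ε) * ((gs F pr n).card : ℝ) =
      p ^ Fintype.card ι * ((gs F pr n).card : ℝ) - ε * ((gs F pr n).card : ℝ) := by ring
  rw [h8]
  have h9 : (Fintype.card ι : ℝ) * (η * ((gs F pr n).card : ℝ) + η * (Nat.card F : ℝ) ^ n) =
      (Fintype.card ι : ℝ) * η * ((gs F pr n).card : ℝ) +
        (Fintype.card ι : ℝ) * η * (Nat.card F : ℝ) ^ n := by ring
  rw [h9] at hB'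
  linarith

end MP72e2e6
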