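import Pool.Agent.Lib.MP_72e2e6_nt.PqStmt
import Pool.Agent.Lib.MP_72e2e6_nt.PpInd

/-!
# MP_72e2e6_nt: the exact moments, module PqRep (the constituents of a system)
-/

namespace MP72e2e6

open Polynomial

universe u

/-- The irreducible constituents. -/
structure PqRepC {F : Type u} [Field F] {ℓ : ℕ} {V W : Type} [Fintype V] [AddCommGroup W]
    [Module (ZMod ℓ) W] (χ : F → ZMod ℓ) (pr : V → F[X]) (σ : V → Module.End (ZMod ℓ) W)
    (Λ : Module.End (ZMod ℓ) W) (N : ℕ) {ι : Type} [Fintype ι] (S : ι → Sys ℓ V) : Prop where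
  irr : ∀ i, IrrW (S i).σ (S i).Λ
  hyp : ∀ i, HypW χ pr (S i).σ (S i).Λ
  card : Fintype.card ι ≤ N
  inf : ∀ n, InfW pr σ n → ∀ i, InfW pr (S i).σ n
  sol : ∀ t : Finset F[X], (∀ i, (S i).sol χ pr t = 1) → nSol χ pr σ Λ t = 1

theorem pqrep_aux (F : Type u) [Field F] (ℓ : ℕ)
    [Fact ℓ.Prime] (χ : F → ZMod ℓ) (V : Type) [Fintype V] (pr : V → F[X]) :
    ∀ (N : ℕ) (W : Type) [AddCommGroup W] [Module (ZMod ℓ) W] [Finite W]
    (σ : V → Module.End (ZMod ℓ) W) (Λ : Module.End (ZMod ℓ) W) (_ : HypW χ pr σ Λ),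
    Module.finrank (ZMod ℓ) W = N → ∃ (ι : Type) (_ : Fintype ι) (S : ι → Sys ℓ V),
      PqRepC χ pr σ Λ N S := by
  intro N
  induction N using Nat.strong_induction_on with
  | _ N ih =>
    intro W _ _ _ σ Λ hH hN
    have : FiniteDimensional (ZMod ℓ) W := Module.Finite.of_finite
    rcases subsingleton_or_nontrivial W with hW | hW
    · refine ⟨Empty, inferInstance, fun i => i.elim, fun i => i.elim, fun i => i.elim, ?_,
        fun n _ i => i.elim, fun t _ => ?_⟩
      · rw [Fintype.card_empty]
        exact Nat.zero_le _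
      · rw [ppind_iff]
        exact fun c f _ => ⟨Subsingleton.elim _ _, Subsingleton.elim _ _⟩
    by_cases hirr : IrrW σ Λ
    · refine ⟨Unit, inferInstance, fun _ => ⟨W, inferInstance, inferInstance, inferInstance, σ, Λ⟩,
        fun _ => hirr, fun _ => hH, ?_, fun n hn _ => hn, fun t ht => ht ()⟩
      rw [Fintype.card_unit, ← hN]
      exact Module.finrank_pos
    · -- an invariant subspace
      obtain ⟨A, hAσ, hAΛ, hAb, hAt⟩ : ∃ A : Submodule (ZMod ℓ) W,
          (∀ v, ∀ y ∈ A, σ v y ∈ A) ∧ (∀ y ∈ A, Λ y ∈ A) ∧ A ≠ ⊥ ∧ A ≠ ⊤ := by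
        by_contra hno
        push Not at hno
        refine hirr ⟨hW, fun A h1 h2 => ?_⟩
        by_cases h3 : A = ⊥
        · exact Or.inl h3
        · exact Or.inr (hno A h1 h2 h3)
      let σA : V → Module.End (ZMod ℓ) A := fun v => (σ v).restrict (hAσ v)
      let ΛA : Module.End (ZMod ℓ) A := Λ.restrict hAΛ
      let σQ : V → Module.End (ZMod ℓ) (W ⧸ A) := fun v => A.mapQ A (σ v) (fun y hy => hAσ v y hy)
      let ΛQ : Module.End (ZMod ℓ) (W ⧸ A) := A.mapQ A Λ (fun y hy => hAΛ y hy)
      have eA : ∀ v (y : A), ((σA v y : A) : W) = σ v y := fun v y => rfl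
      have eAΛ : ∀ (y : A), ((ΛA y : A) : W) = Λ y := fun y => rfl
      have eQ : ∀ v (y : W), σQ v (A.mkQ y) = A.mkQ (σ v y) := fun v y => rfl
      have eQΛ : ∀ (y : W), ΛQ (A.mkQ y) = A.mkQ (Λ y) := fun y => rfl
      have hHA : HypW χ pr σA ΛA := by
        refine ⟨fun v y hy => Subtype.ext (hH.inj v y (congrArg Subtype.val hy)), fun v y => ?_⟩
        refine Subtype.ext ?_
        have h1 := hH.com v y
        simp only [map_add, map_sum, map_smul] at h1
        simp only [map_add, map_sum, map_smul, Submodule.coe_add, Submodule.coe_sum,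
          Submodule.coe_smul, eA, eAΛ]
        exact h1
      have hmk : ∀ y : W, A.mkQ y = 0 ↔ y ∈ A := fun y => by
        rw [Submodule.mkQ_apply, Submodule.Quotient.mk_eq_zero]
      have hHQ : HypW χ pr σQ ΛQ := by
        refine ⟨fun v y hy => ?_, fun v y => ?_⟩
        · obtain ⟨y, rfl⟩ := A.mkQ_surjective y
          rw [eQ, hmk] at hy
          rw [hmk]
          exact ppind_mem A (σ v) (hH.inj v) (hAσ v) hy
        · obtain ⟨y, rfl⟩ := A.mkQ_surjective y
          have h1 := congrArg A.mkQ (hH.com v y)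
          simp only [map_add, map_sum, map_smul] at h1
          simp only [map_add, map_sum, map_smul, eQ, eQΛ]
          exact h1
      have hIA : ∀ n, InfW pr σ n → InfW pr σA n := by
        intro n hI y hy
        refine Subtype.ext (hI y ?_)
        have h1 := congrArg Subtype.val hy
        simp only [Submodule.coe_add, Submodule.coe_sum, Submodule.coe_smul, eA,
          Submodule.coe_zero] at h1
        exact h1
      have hIQ : ∀ n, InfW pr σ n → InfW pr σQ n := by
        intro n hI y hy
        obtain ⟨y, rfl⟩ := A.mkQ_surjective y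
        rw [hmk]
        have h1 : A.mkQ ((∑ v, ((pr v).natDegree : ZMod ℓ) • σ v + (n : ZMod ℓ) • 1 :
            Module.End (ZMod ℓ) W) y) = 0 := by
          rw [← hy]
          simp only [LinearMap.add_apply, LinearMap.sum_apply, LinearMap.smul_apply,
            Module.End.one_apply, map_add, map_sum, map_smul, eQ]
        rw [hmk] at h1
        refine ppind_mem A _ (fun z hz => hI z ?_) (fun z hz => ?_) h1
        · rw [← hz]
          simp only [LinearMap.add_apply, LinearMap.sum_apply, LinearMap.smul_apply,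
            Module.End.one_apply]
        · simp only [LinearMap.add_apply, LinearMap.sum_apply, LinearMap.smul_apply,
            Module.End.one_apply]
          exact A.add_mem (A.sum_mem fun v _ => A.smul_mem _ (hAσ v z hz)) (A.smul_mem _ hz)
      have hdim := A.finrank_quotient_add_finrank
      have hA0 : 0 < Module.finrank (ZMod ℓ) A := by
        have hnt : Nontrivial A := Submodule.nontrivial_iff_ne_bot.2 hAb
        exact Module.finrank_pos
      have hA1 : Module.finrank (ZMod ℓ) A < N := by
        rw [← hN]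
        exact Submodule.finrank_lt hAt
      have hfQ : Finite (W ⧸ A) := Finite.of_surjective A.mkQ A.mkQ_surjective
      obtain ⟨ι₁, i₁, S₁, H₁⟩ := ih _ hA1 A σA ΛA hHA rfl
      obtain ⟨ι₂, i₂, S₂, H₂⟩ := ih (Module.finrank (ZMod ℓ) (W ⧸ A)) (by omega) (W ⧸ A) σQ ΛQ hHQ rfl
      refine ⟨ι₁ ⊕ ι₂, inferInstance, Sum.elim S₁ S₂, ?_, ?_, ?_, ?_, ?_⟩
      · rintro (i | i)
        · exact H₁.irr i
        · exact H₂.irr i
      · rintro (i | i)
        · exact H₁.hyp i
        · exact H₂.hyp i
      · rw [Fintype.card_sum]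
        have h1 := H₁.card
        have h2 := H₂.card
        omega
      · rintro n hI (i | i)
        · exact H₁.inf n (hIA n hI) i
        · exact H₂.inf n (hIQ n hI) i
      · intro t ht
        have h5 := ppind_iff.1 (H₁.sol t fun i => ht (Sum.inl i))
        have h6 := ppind_iff.1 (H₂.sol t fun i => ht (Sum.inr i))
        refine ppind_iff.2 fun c f hcf => ?_
        have h7 : SolW χ pr σQ ΛQ t (fun v => A.mkQ (c v)) (fun P => A.mkQ (f P)) := by
          refine ⟨?_, fun v => ?_, fun P => ?_⟩
          · have h8 := congrArg A.mkQ hcf.inf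
            simp only [map_add, map_sum, map_smul, map_zero] at h8
            simp only [eQ]
            exact h8
          · have h8 := congrArg A.mkQ (hcf.bad v)
            simp only [map_add, map_sum, map_smul, map_sub] at h8
            simp only [map_sub, eQ, eQΛ]
            exact h8
          · have h8 := congrArg A.mkQ (hcf.good P)
            simp only [map_add, map_sum, map_smul, map_sub] at h8
            simp only [map_sub, eQ, eQΛ]
            exact h8
        obtain ⟨h8, h9⟩ := h6 _ _ h7
        have hc : ∀ v, c v ∈ A := fun v => (hmk _).1 (congrFun h8 v)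
        have hf : ∀ P, f P ∈ A := fun P => (hmk _).1 (congrFun h9 P)
        have h10 : SolW χ pr σA ΛA t (fun v => ⟨c v, hc v⟩) (fun P => ⟨f P, hf P⟩) := by
          refine ⟨?_, fun v => ?_, fun P => ?_⟩
          · refine Subtype.ext ?_
            simp only [Submodule.coe_add, Submodule.coe_sum, Submodule.coe_smul, eA,
              Submodule.coe_zero]
            exact hcf.inf
          · refine Subtype.ext ?_
            simp only [Submodule.coe_add, Submodule.coe_sum, Submodule.coe_smul, eA, eAΛ,
              Submodule.coe_sub]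
            exact hcf.bad v
          · refine Subtype.ext ?_
            simp only [Submodule.coe_add, Submodule.coe_sum, Submodule.coe_smul, eA, eAΛ,
              Submodule.coe_sub]
            exact hcf.good P
        obtain ⟨h11, h12⟩ := h5 _ _ h10
        exact ⟨funext fun v => congrArg Subtype.val (congrFun h11 v),
          funext fun P => congrArg Subtype.val (congrFun h12 P)⟩

open Classical in
theorem tPqRep.{v} (hPqEqv : StmtPqEqv.{v}) : StmtPqRep.{v} := by
  intro F _ _ ℓ _ hℓ2 hq χ hχ V W _ _ _ _ pr hpr σ Λ hH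
  obtain ⟨ι, iF, S, H⟩ := pqrep_aux F ℓ χ V pr _ W σ Λ hH rfl
  let good : Finset ι → Prop := fun R => ∀ i ∈ R, ∀ j ∈ R, i ≠ j →
    HomS (S i) (S j) = ⊥ ∧ BilS (S i) (S j) = ⊥
  obtain ⟨R, hR, hmax⟩ := Finset.exists_max_image (Finset.univ.filter good) Finset.card
    ⟨∅, Finset.mem_filter.2 ⟨Finset.mem_univ _, fun i hi => absurd hi (Finset.notMem_empty i)⟩⟩
  rw [Finset.mem_filter] at hR
  have hRg : good R := hR.2
  have hlink : ∀ i, i ∉ R → ∃ j ∈ R, (HomS (S i) (S j) ≠ ⊥ ∨ BilS (S i) (S j) ≠ ⊥) ∨
      (HomS (S j) (S i) ≠ ⊥ ∨ BilS (S j) (S i) ≠ ⊥) := by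
    intro i hi
    by_contra hno
    push Not at hno
    have h1 : good (insert i R) := by
      intro a ha b hb hab
      rw [Finset.mem_insert] at ha hb
      rcases ha with rfl | ha
      · rcases hb with rfl | hb
        · exact absurd rfl hab
        · exact (hno b hb).1
      · rcases hb with rfl | hb
        · exact (hno a ha).2
        · exact hRg a ha b hb hab
    have h2 := hmax (insert i R) (Finset.mem_filter.2 ⟨Finset.mem_univ _, h1⟩)
    rw [Finset.card_insert_of_notMem hi] at h2
    omega
  refine ⟨{i // i ∈ R}, inferInstance, fun i => S i.1, ⟨fun i => H.irr i, fun i => H.hyp i,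
    fun i j hij => ?_, fun i j hij => ?_⟩, ?_, fun n hI => ⟨fun i => H.inf n hI i,
    fun t ht h1 => H.sol t fun i => ?_⟩⟩
  · exact (hRg i.1 i.2 j.1 j.2 fun h => hij (Subtype.ext h)).1
  · exact (hRg i.1 i.2 j.1 j.2 fun h => hij (Subtype.ext h)).2
  · refine le_trans ?_ H.card
    exact Fintype.card_le_of_injective _ Subtype.val_injective
  · by_cases hi : i ∈ R
    · exact h1 ⟨i, hi⟩
    · obtain ⟨j, hj, h | h⟩ := hlink i hi
      · rw [hPqEqv F ℓ hℓ2 hq χ hχ V pr hpr (S i) (S j) (H.irr i) (H.irr j) (H.hyp i) (H.hyp j) h n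
          (H.inf n hI i) t ht]
        exact h1 ⟨j, hj⟩
      · rw [← hPqEqv F ℓ hℓ2 hq χ hχ V pr hpr (S j) (S i) (H.irr j) (H.irr i) (H.hyp j) (H.hyp i) h n
          (H.inf n hI j) t ht]
        exact h1 ⟨j, hj⟩

end MP72e2e6
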