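import Pool.Agent.Lib.MP_72e2e6_nt.PqStmt

/-!
# MP_72e2e6_nt: the exact moments, the forms on a product
-/

set_option autoImplicit false

namespace MP72e2e6

open Polynomial

section

variable {ℓ : ℕ} {V : Type}

theorem pqskt_anti {S : Sys ℓ V} {g : S.W →ₗ[ZMod ℓ] Module.Dual (ZMod ℓ) S.W}
    (hg : g ∈ Sk S.σ S.Λ) (x y : S.W) : g x y = - g y x := by
  have h1 := (hg (x + y)).1
  have h2 := (hg x).1
  have h3 := (hg y).1
  simp only [map_add, LinearMap.add_apply] at h1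
  rw [h2, h3] at h1
  linear_combination h1

theorem pqskt_sg {S : Sys ℓ V} {g : S.W →ₗ[ZMod ℓ] Module.Dual (ZMod ℓ) S.W}
    (hg : g ∈ Sk S.σ S.Λ) (v : V) (x y : S.W) : g (S.σ v x) y = g x (S.σ v y) := by
  have h1 := (hg (x + y)).2.1 v
  have h2 := (hg x).2.1 v
  have h3 := (hg y).2.1 v
  simp only [map_add, LinearMap.add_apply] at h1
  rw [h2, h3] at h1
  rw [pqskt_anti hg (S.σ v x) y]
  linear_combination -h1

theorem pqskt_lm {S : Sys ℓ V} {g : S.W →ₗ[ZMod ℓ] Module.Dual (ZMod ℓ) S.W}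
    (hg : g ∈ Sk S.σ S.Λ) (x y : S.W) : g (S.Λ x) y = g x (S.Λ y) := by
  have h1 := (hg (x + y)).2.2
  have h2 := (hg x).2.2
  have h3 := (hg y).2.2
  simp only [map_add, LinearMap.add_apply] at h1
  rw [h2, h3] at h1
  rw [pqskt_anti hg (S.Λ x) y]
  linear_combination -h1

variable {I : Type} [Finite I]

/-- The inclusion of a factor. -/
noncomputable def pqskt_in [DecidableEq I] (S : I → Sys ℓ V) (p : I) :
    (S p).W →ₗ[ZMod ℓ] (Sys.pi S).W :=
  LinearMap.single (ZMod ℓ) (fun q => (S q).W) p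

/-- The projection to a factor. -/
def pqskt_pr (S : I → Sys ℓ V) (p : I) : (Sys.pi S).W →ₗ[ZMod ℓ] (S p).W :=
  LinearMap.proj (φ := fun q => (S q).W) p

theorem pqskt_pr_sg (S : I → Sys ℓ V) (v : V) (y : (Sys.pi S).W) (p : I) :
    pqskt_pr S p ((Sys.pi S).σ v y) = (S p).σ v (pqskt_pr S p y) := rfl

theorem pqskt_pr_lm (S : I → Sys ℓ V) (y : (Sys.pi S).W) (p : I) :
    pqskt_pr S p ((Sys.pi S).Λ y) = (S p).Λ (pqskt_pr S p y) := rfl

theorem pqskt_same [DecidableEq I] (S : I → Sys ℓ V) (p : I) (w : (S p).W) :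
    pqskt_pr S p (pqskt_in S p w) = w :=
  Pi.single_eq_same (M := fun q => (S q).W) p w

theorem pqskt_ne [DecidableEq I] (S : I → Sys ℓ V) {p q : I} (h : q ≠ p) (w : (S p).W) :
    pqskt_pr S q (pqskt_in S p w) = 0 :=
  Pi.single_eq_of_ne (M := fun q => (S q).W) h w

theorem pqskt_ext (S : I → Sys ℓ V) {x y : (Sys.pi S).W}
    (h : ∀ p, pqskt_pr S p x = pqskt_pr S p y) : x = y := funext h

theorem pqskt_in_sg [DecidableEq I] (S : I → Sys ℓ V) (p : I) (v : V) (w : (S p).W) :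
    (Sys.pi S).σ v (pqskt_in S p w) = pqskt_in S p ((S p).σ v w) := by
  apply pqskt_ext
  intro q
  rw [pqskt_pr_sg]
  by_cases h : q = p
  · subst h
    rw [pqskt_same, pqskt_same]
  · rw [pqskt_ne S h, pqskt_ne S h, map_zero]

theorem pqskt_in_lm [DecidableEq I] (S : I → Sys ℓ V) (p : I) (w : (S p).W) :
    (Sys.pi S).Λ (pqskt_in S p w) = pqskt_in S p ((S p).Λ w) := by
  apply pqskt_ext
  intro q
  rw [pqskt_pr_lm]
  by_cases h : q = p
  · subst h
    rw [pqskt_same, pqskt_same]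
  · rw [pqskt_ne S h, pqskt_ne S h, map_zero]

theorem pqskt_sum [Fintype I] [DecidableEq I] (S : I → Sys ℓ V) (y : (Sys.pi S).W) :
    ∑ p, pqskt_in S p (pqskt_pr S p y) = y :=
  Finset.univ_sum_single (M := fun p => (S p).W) y

/-- The components of a form. -/
noncomputable def pqskt_comp [DecidableEq I] (S : I → Sys ℓ V)
    (g : (Sys.pi S).W →ₗ[ZMod ℓ] Module.Dual (ZMod ℓ) (Sys.pi S).W) (p q : I) :
    (S p).W →ₗ[ZMod ℓ] Module.Dual (ZMod ℓ) (S q).W :=
  (pqskt_in S q).dualMap ∘ₗ g ∘ₗ pqskt_in S p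

theorem pqskt_comp_apply [DecidableEq I] (S : I → Sys ℓ V)
    (g : (Sys.pi S).W →ₗ[ZMod ℓ] Module.Dual (ZMod ℓ) (Sys.pi S).W) (p q : I)
    (u : (S p).W) (w : (S q).W) :
    pqskt_comp S g p q u w = g (pqskt_in S p u) (pqskt_in S q w) := rfl

theorem pqskt_comp_bil [DecidableEq I] (S : I → Sys ℓ V)
    {g : (Sys.pi S).W →ₗ[ZMod ℓ] Module.Dual (ZMod ℓ) (Sys.pi S).W}
    (hg : g ∈ Sk (Sys.pi S).σ (Sys.pi S).Λ) (p q : I) :
    pqskt_comp S g p q ∈ BilS (S p) (S q) := by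
  refine ⟨fun v x y => ?_, fun x y => ?_⟩
  · rw [pqskt_comp_apply, pqskt_comp_apply, ← pqskt_in_sg, ← pqskt_in_sg]
    exact pqskt_sg hg v _ _
  · rw [pqskt_comp_apply, pqskt_comp_apply, ← pqskt_in_lm, ← pqskt_in_lm]
    exact pqskt_lm hg _ _

theorem pqskt_comp_sk [DecidableEq I] (S : I → Sys ℓ V)
    {g : (Sys.pi S).W →ₗ[ZMod ℓ] Module.Dual (ZMod ℓ) (Sys.pi S).W}
    (hg : g ∈ Sk (Sys.pi S).σ (Sys.pi S).Λ) (p : I) :
    pqskt_comp S g p p ∈ Sk (S p).σ (S p).Λ := by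
  intro x
  refine ⟨?_, fun v => ?_, ?_⟩
  · rw [pqskt_comp_apply]
    exact (hg _).1
  · rw [pqskt_comp_apply, ← pqskt_in_sg]
    exact (hg _).2.1 v
  · rw [pqskt_comp_apply, ← pqskt_in_lm]
    exact (hg _).2.2

theorem pqskt_zero [DecidableEq I] (S : I → Sys ℓ V)
    {g h : (Sys.pi S).W →ₗ[ZMod ℓ] Module.Dual (ZMod ℓ) (Sys.pi S).W}
    (hgh : ∀ p q u w, pqskt_comp S g p q u w = pqskt_comp S h p q u w) : g = h := by
  have : Fintype I := Fintype.ofFinite I
  apply LinearMap.ext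
  intro x
  apply LinearMap.ext
  intro y
  rw [← pqskt_sum S x, ← pqskt_sum S y]
  simp only [map_sum, LinearMap.sum_apply]
  refine Finset.sum_congr rfl fun p _ => Finset.sum_congr rfl fun q _ => ?_
  exact hgh _ _ _ _

/-- A form on a factor. -/
def pqskt_A (S : I → Sys ℓ V) (p : I) (s : (S p).W →ₗ[ZMod ℓ] Module.Dual (ZMod ℓ) (S p).W) :
    (Sys.pi S).W →ₗ[ZMod ℓ] Module.Dual (ZMod ℓ) (Sys.pi S).W :=
  (pqskt_pr S p).dualMap ∘ₗ s ∘ₗ pqskt_pr S p

theorem pqskt_A_apply (S : I → Sys ℓ V) (p : I)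
    (s : (S p).W →ₗ[ZMod ℓ] Module.Dual (ZMod ℓ) (S p).W) (x y : (Sys.pi S).W) :
    pqskt_A S p s x y = s (pqskt_pr S p x) (pqskt_pr S p y) := rfl

theorem pqskt_A_mem (S : I → Sys ℓ V) (p : I)
    {s : (S p).W →ₗ[ZMod ℓ] Module.Dual (ZMod ℓ) (S p).W} (hs : s ∈ Sk (S p).σ (S p).Λ) :
    pqskt_A S p s ∈ Sk (Sys.pi S).σ (Sys.pi S).Λ := by
  intro x
  refine ⟨?_, fun v => ?_, ?_⟩
  · rw [pqskt_A_apply]
    exact (hs _).1
  · rw [pqskt_A_apply, pqskt_pr_sg]
    exact (hs _).2.1 v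
  · rw [pqskt_A_apply, pqskt_pr_lm]
    exact (hs _).2.2

/-- A form on two factors. -/
def pqskt_B (S : I → Sys ℓ V) (p q : I)
    (b : (S p).W →ₗ[ZMod ℓ] Module.Dual (ZMod ℓ) (S q).W) :
    (Sys.pi S).W →ₗ[ZMod ℓ] Module.Dual (ZMod ℓ) (Sys.pi S).W :=
  (pqskt_pr S q).dualMap ∘ₗ b ∘ₗ pqskt_pr S p -
    (pqskt_pr S p).dualMap ∘ₗ LinearMap.flip b ∘ₗ pqskt_pr S q

theorem pqskt_B_apply (S : I → Sys ℓ V) (p q : I)
    (b : (S p).W →ₗ[ZMod ℓ] Module.Dual (ZMod ℓ) (S q).W) (x y : (Sys.pi S).W) :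
    pqskt_B S p q b x y = b (pqskt_pr S p x) (pqskt_pr S q y) -
      b (pqskt_pr S p y) (pqskt_pr S q x) := rfl

theorem pqskt_B_mem (S : I → Sys ℓ V) (p q : I)
    {b : (S p).W →ₗ[ZMod ℓ] Module.Dual (ZMod ℓ) (S q).W} (hb : b ∈ BilS (S p) (S q)) :
    pqskt_B S p q b ∈ Sk (Sys.pi S).σ (Sys.pi S).Λ := by
  intro x
  refine ⟨?_, fun v => ?_, ?_⟩
  · rw [pqskt_B_apply, sub_self]
  · rw [pqskt_B_apply, pqskt_pr_sg, pqskt_pr_sg, hb.1, sub_self]
  · rw [pqskt_B_apply, pqskt_pr_lm, pqskt_pr_lm, hb.2, sub_self]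

/-- The forms on a product. -/
theorem pqskt_count [Fintype I] {R : Type} [Fintype R] (S : I → Sys ℓ V) (α β : R → I)
    (h1 : ∀ r, α r ≠ β r) (h2 : ∀ r r', α r = α r' → β r = β r' → r = r')
    (h3 : ∀ r r', α r = β r' → β r ≠ α r')
    (h4 : ∀ p q, p ≠ q → BilS (S p) (S q) = ⊥ ∨ (∃ r, α r = p ∧ β r = q) ∨
      ∃ r, α r = q ∧ β r = p) :
    Nat.card (Sk (Sys.pi S).σ (Sys.pi S).Λ) =
      (∏ p, Nat.card (Sk (S p).σ (S p).Λ)) * ∏ r, Nat.card (BilS (S (α r)) (S (β r))) := by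
  classical
  let Φ : Sk (Sys.pi S).σ (Sys.pi S).Λ →
      (∀ p, Sk (S p).σ (S p).Λ) × (∀ r, BilS (S (α r)) (S (β r))) := fun g =>
    (fun p => ⟨pqskt_comp S g.1 p p, pqskt_comp_sk S g.2 p⟩,
      fun r => ⟨pqskt_comp S g.1 (α r) (β r), pqskt_comp_bil S g.2 (α r) (β r)⟩)
  have hΦ : Function.Bijective Φ := by
    constructor
    · rintro ⟨g, hg⟩ ⟨h, hh⟩ hgh
      have e1 : ∀ p, pqskt_comp S g p p = pqskt_comp S h p p := fun p =>
        congrArg (fun z : (∀ p, Sk (S p).σ (S p).Λ) × (∀ r, BilS (S (α r)) (S (β r))) =>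
          (z.1 p).1) hgh
      have e2 : ∀ r, pqskt_comp S g (α r) (β r) = pqskt_comp S h (α r) (β r) := fun r =>
        congrArg (fun z : (∀ p, Sk (S p).σ (S p).Λ) × (∀ r, BilS (S (α r)) (S (β r))) =>
          (z.2 r).1) hgh
      apply Subtype.ext
      apply pqskt_zero S
      intro p q u w
      by_cases hpq : p = q
      · subst hpq
        rw [e1]
      · rcases h4 p q hpq with h5 | ⟨r, rfl, rfl⟩ | ⟨r, rfl, rfl⟩
        · have h6 := pqskt_comp_bil S hg p q
          have h7 := pqskt_comp_bil S hh p q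
          rw [h5, Submodule.mem_bot] at h6 h7
          rw [h6, h7]
        · rw [e2]
        · rw [pqskt_comp_apply, pqskt_comp_apply, pqskt_anti hg, pqskt_anti hh,
            ← pqskt_comp_apply, ← pqskt_comp_apply, e2]
    · rintro ⟨s, b⟩
      have hmem : (∑ p, pqskt_A S p (s p).1 + ∑ r, pqskt_B S (α r) (β r) (b r).1) ∈
          Sk (Sys.pi S).σ (Sys.pi S).Λ :=
        Submodule.add_mem _ (Submodule.sum_mem _ fun p _ => pqskt_A_mem S p (s p).2)
          (Submodule.sum_mem _ fun r _ => pqskt_B_mem S _ _ (b r).2)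
      have hval : ∀ x y, (∑ p, pqskt_A S p (s p).1 +
          ∑ r, pqskt_B S (α r) (β r) (b r).1) x y =
          ∑ p, (s p).1 (pqskt_pr S p x) (pqskt_pr S p y) +
          ∑ r, ((b r).1 (pqskt_pr S (α r) x) (pqskt_pr S (β r) y) -
            (b r).1 (pqskt_pr S (α r) y) (pqskt_pr S (β r) x)) := by
        intro x y
        simp only [LinearMap.add_apply, LinearMap.sum_apply, pqskt_A_apply, pqskt_B_apply]
      refine ⟨⟨_, hmem⟩, ?_⟩
      apply Prod.ext
      · funext p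
        apply Subtype.ext
        apply LinearMap.ext
        intro u
        apply LinearMap.ext
        intro w
        change (∑ p, pqskt_A S p (s p).1 + ∑ r, pqskt_B S (α r) (β r) (b r).1)
          (pqskt_in S p u) (pqskt_in S p w) = (s p).1 u w
        rw [hval, Finset.sum_eq_single p, pqskt_same, pqskt_same, Finset.sum_eq_zero, add_zero]
        · intro r _
          by_cases h5 : α r = p
          · have h6 : β r ≠ p := fun h => h1 r (h5.trans h.symm)
            rw [pqskt_ne S h6, pqskt_ne S h6, map_zero, map_zero, sub_zero]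
          · rw [pqskt_ne S h5, pqskt_ne S h5, map_zero, LinearMap.zero_apply,
              LinearMap.zero_apply, sub_zero]
        · intro q _ hq
          rw [pqskt_ne S hq, map_zero, LinearMap.zero_apply]
        · intro h
          exact absurd (Finset.mem_univ _) h
      · funext r
        apply Subtype.ext
        apply LinearMap.ext
        intro u
        apply LinearMap.ext
        intro w
        change (∑ p, pqskt_A S p (s p).1 + ∑ r, pqskt_B S (α r) (β r) (b r).1)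
          (pqskt_in S (α r) u) (pqskt_in S (β r) w) = (b r).1 u w
        rw [hval, Finset.sum_eq_zero, zero_add, Finset.sum_eq_single r, pqskt_same, pqskt_same,
          pqskt_ne S (h1 r), map_zero, LinearMap.zero_apply, sub_zero]
        · intro r' _ hr'
          have h5 : (b r').1 (pqskt_pr S (α r') (pqskt_in S (α r) u))
              (pqskt_pr S (β r') (pqskt_in S (β r) w)) = 0 := by
            by_cases h6 : α r' = α r
            · have h7 : β r' ≠ β r := fun h => hr' (h2 _ _ h6 h)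
              rw [pqskt_ne S h7, map_zero]
            · rw [pqskt_ne S h6, map_zero, LinearMap.zero_apply]
          have h8 : (b r').1 (pqskt_pr S (α r') (pqskt_in S (β r) w))
              (pqskt_pr S (β r') (pqskt_in S (α r) u)) = 0 := by
            by_cases h6 : α r' = β r
            · have h7 : β r' ≠ α r := h3 _ _ h6
              rw [pqskt_ne S h7, map_zero]
            · rw [pqskt_ne S h6, map_zero, LinearMap.zero_apply]
          rw [h5, h8, sub_zero]
        · intro h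
          exact absurd (Finset.mem_univ _) h
        · intro p _
          by_cases h5 : p = α r
          · have h6 : p ≠ β r := fun h => h1 r (h5.symm.trans h)
            rw [pqskt_ne S h6, map_zero]
          · rw [pqskt_ne S h5, map_zero, LinearMap.zero_apply]
  rw [Nat.card_congr (Equiv.ofBijective Φ hΦ), Nat.card_prod, Nat.card_pi, Nat.card_pi]

end

theorem pqskt_pairs (n : ℕ) :
    Fintype.card {q : Fin n × Fin n // q.1 < q.2} = n * (n - 1) / 2 := by
  classical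
  have e : {q : Fin n × Fin n // q.1 < q.2} ≃ (Σ j : Fin n, {i : Fin n // i < j}) :=
    { toFun := fun q => ⟨q.1.2, ⟨q.1.1, q.2⟩⟩
      invFun := fun z => ⟨(z.2.1, z.1), z.2.2⟩
      left_inv := fun _ => rfl
      right_inv := fun _ => rfl }
  rw [Fintype.card_congr e, Fintype.card_sigma]
  have h1 : ∀ j : Fin n, Fintype.card {i : Fin n // i < j} = (j : ℕ) := by
    intro j
    rw [Fintype.card_subtype]
    have h2 : (Finset.univ.filter fun i : Fin n => i < j) = Finset.Iio j := by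
      ext i
      simp
    rw [h2, Fin.card_Iio]
  rw [Finset.sum_congr rfl fun j _ => h1 j, Fin.sum_univ_eq_sum_range (fun j => j) n,
    Finset.sum_range_id]

theorem tPqSkt : StmtPqSkt := by
  intro ℓ _ _ V ι _ S hB a
  classical
  let R : Type := Σ i : ι, {q : Fin (a i) × Fin (a i) // q.1 < q.2}
  let α : R → (Σ i, Fin (a i)) := fun r => ⟨r.1, r.2.1.1⟩
  let β : R → (Σ i, Fin (a i)) := fun r => ⟨r.1, r.2.1.2⟩
  rw [pqskt_count (R := R) (fun p : (Σ i, Fin (a i)) => S p.1) α β]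
  · rw [Fintype.prod_sigma, Fintype.prod_sigma, ← Finset.prod_mul_distrib]
    refine Finset.prod_congr rfl fun i _ => ?_
    have h1 : ∏ _j : Fin (a i), Nat.card (Sk (S i).σ (S i).Λ) =
        Nat.card (Sk (S i).σ (S i).Λ) ^ a i := by
      rw [Finset.prod_const, Finset.card_univ, Fintype.card_fin]
    have h2 : ∏ _q : {q : Fin (a i) × Fin (a i) // q.1 < q.2}, Nat.card (BilS (S i) (S i)) =
        Nat.card (BilS (S i) (S i)) ^ (a i * (a i - 1) / 2) := by
      rw [Finset.prod_const, Finset.card_univ, pqskt_pairs]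
    rw [← h1, ← h2]
  · rintro ⟨i, ⟨⟨j, j'⟩, hj⟩⟩ h
    have h5 : j = j' := by simpa [α, β] using h
    exact hj.ne h5
  · rintro ⟨i, ⟨⟨j, j'⟩, hj⟩⟩ ⟨i₂, ⟨⟨k, k'⟩, hk⟩⟩ h h'
    have h5 : i = i₂ := congrArg Sigma.fst h
    subst h5
    have h6 : j = k := by simpa [α] using h
    have h7 : j' = k' := by simpa [β] using h'
    subst h6
    subst h7
    rfl
  · rintro ⟨i, ⟨⟨j, j'⟩, hj⟩⟩ ⟨i₂, ⟨⟨k, k'⟩, hk⟩⟩ h h'
    have h5 : i = i₂ := congrArg Sigma.fst h
    subst h5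
    have h6 : j = k' := by simpa [α, β] using h
    have h7 : j' = k := by simpa [α, β] using h'
    subst h6
    subst h7
    exact lt_asymm hj hk
  · rintro ⟨i, j⟩ ⟨i', j'⟩ hne
    by_cases h : i = i'
    · subst h
      right
      have h5 : j ≠ j' := by
        rintro rfl
        exact hne rfl
      rcases lt_or_gt_of_ne h5 with h6 | h6
      · exact Or.inl ⟨⟨i, ⟨(j, j'), h6⟩⟩, rfl, rfl⟩
      · exact Or.inr ⟨⟨i, ⟨(j', j), h6⟩⟩, rfl, rfl⟩
    · exact Or.inl (hB i i' h)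

end MP72e2e6
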