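import Pool.Agent.Lib.MP_72e2e6_nt.PpStmtB

/-!
# MP_72e2e6_nt: the exact moments, definitions

For an arbitrary finite system `(W, σ, Λ)` (with `HypW`, `InfW`) the average number of solutions
tends to `muW = ∑ |SkA A|`, the sum over all invariant subspaces `A` (PqFM). This gives all mixed
moments of the numbers of solutions of the irreducible systems which occur in `W`, and a positive
proportion of the `t` without solutions for every `W` (no condition on the dimension).
-/

namespace MP72e2e6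

open Polynomial

universe u

section systems

variable {ℓ : ℕ} {V W : Type} [AddCommGroup W] [Module (ZMod ℓ) W]

/-- The invariant subspaces. -/
structure Inv (σ : V → Module.End (ZMod ℓ) W) (Λ : Module.End (ZMod ℓ) W)
    (A : Submodule (ZMod ℓ) W) : Prop where
  sg : ∀ v, ∀ y ∈ A, σ v y ∈ A
  lm : ∀ y ∈ A, Λ y ∈ A

/-- The alternating forms on an (invariant) subspace for which the operators are self-adjoint. -/
def SkA (σ : V → Module.End (ZMod ℓ) W) (Λ : Module.End (ZMod ℓ) W)
    (A : Submodule (ZMod ℓ) W) : Set (A →ₗ[ZMod ℓ] Module.Dual (ZMod ℓ) A) :=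
  {g | ∀ x y : A, ((y : W) = x ∨ (∃ v, (y : W) = σ v x) ∨ (y : W) = Λ x) → g x y = 0}

/-- The limit of the average number of solutions. -/
noncomputable def muW (σ : V → Module.End (ZMod ℓ) W) (Λ : Module.End (ZMod ℓ) W) : ℕ :=
  ∑ᶠ A : {A : Submodule (ZMod ℓ) W // Inv σ Λ A}, Nat.card (SkA σ Λ A.1)

/-- The relations between `(A, g, δ)` and `(c, d, η)`. -/
structure CdA (σ : V → Module.End (ZMod ℓ) W) (Λ : Module.End (ZMod ℓ) W)
    (A : Submodule (ZMod ℓ) W) (g : A →ₗ[ZMod ℓ] Module.Dual (ZMod ℓ) A)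
    (δ : Module.Dual (ZMod ℓ) A) (c : V → W) (d : V → Module.Dual (ZMod ℓ) W)
    (η : Module.Dual (ZMod ℓ) W) : Prop where
  mem : ∀ v, c v ∈ A
  bad : ∀ v (x y z : A), (x : W) = c v → (z : W) = σ v y → d v y = δ z + g x z
  inf : ∀ y z : A, (z : W) = Λ y → η y = δ z

/-- The colours of `(A, g, δ)`. -/
def Vst (A : Submodule (ZMod ℓ) W) (g : A →ₗ[ZMod ℓ] Module.Dual (ZMod ℓ) A)
    (δ : Module.Dual (ZMod ℓ) A) (u : W × Module.Dual (ZMod ℓ) W) : Prop :=
  ∃ x : A, (x : W) = u.1 ∧ ∀ y : A, u.2 y = δ y + g x y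

end systems

/-! ### Bundled systems -/

/-- A finite system of operators. -/
structure Sys (ℓ : ℕ) (V : Type) where
  W : Type
  grp : AddCommGroup W
  mod : Module (ZMod ℓ) W
  fin : Finite W
  σ : V → Module.End (ZMod ℓ) W
  Λ : Module.End (ZMod ℓ) W

attribute [instance] Sys.grp Sys.mod Sys.fin

section sys

variable {ℓ : ℕ} {V : Type}

/-- The product of systems. -/
def Sys.pi {I : Type} [Finite I] (S : I → Sys ℓ V) : Sys ℓ V where
  W := ∀ p, (S p).W
  grp := inferInstance
  mod := inferInstance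
  fin := inferInstance
  σ v := LinearMap.pi fun p => (S p).σ v ∘ₗ LinearMap.proj p
  Λ := LinearMap.pi fun p => (S p).Λ ∘ₗ LinearMap.proj p

/-- The system on an invariant subspace. -/
def Sys.sub (S : Sys ℓ V) (A : Submodule (ZMod ℓ) S.W) (hA : Inv S.σ S.Λ A) : Sys ℓ V where
  W := A
  grp := inferInstance
  mod := inferInstance
  fin := inferInstance
  σ v := (S.σ v).restrict (hA.sg v)
  Λ := S.Λ.restrict hA.lm

/-- The intertwining operators. -/
def HomS (S T : Sys ℓ V) : Submodule (ZMod ℓ) (S.W →ₗ[ZMod ℓ] T.W) where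
  carrier := {κ | (∀ v x, κ (S.σ v x) = T.σ v (κ x)) ∧ ∀ x, κ (S.Λ x) = T.Λ (κ x)}
  add_mem' := by
    intro a b ha hb
    refine ⟨fun v x => ?_, fun x => ?_⟩
    · rw [LinearMap.add_apply, LinearMap.add_apply, ha.1, hb.1, map_add]
    · rw [LinearMap.add_apply, LinearMap.add_apply, ha.2, hb.2, map_add]
  zero_mem' := by
    refine ⟨fun v x => ?_, fun x => ?_⟩
    · rw [LinearMap.zero_apply, LinearMap.zero_apply, map_zero]
    · rw [LinearMap.zero_apply, LinearMap.zero_apply, map_zero]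
  smul_mem' := by
    intro r a ha
    refine ⟨fun v x => ?_, fun x => ?_⟩
    · rw [LinearMap.smul_apply, LinearMap.smul_apply, ha.1, map_smul]
    · rw [LinearMap.smul_apply, LinearMap.smul_apply, ha.2, map_smul]

/-- The bilinear forms for which the operators are adjoint. -/
def BilS (S T : Sys ℓ V) : Submodule (ZMod ℓ) (S.W →ₗ[ZMod ℓ] Module.Dual (ZMod ℓ) T.W) where
  carrier := {g | (∀ v x y, g (S.σ v x) y = g x (T.σ v y)) ∧ ∀ x y, g (S.Λ x) y = g x (T.Λ y)}
  add_mem' := by
    intro a b ha hb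
    refine ⟨fun v x y => ?_, fun x y => ?_⟩
    · simp only [LinearMap.add_apply]
      rw [ha.1, hb.1]
    · simp only [LinearMap.add_apply]
      rw [ha.2, hb.2]
  zero_mem' := by
    refine ⟨fun v x y => ?_, fun x y => ?_⟩
    · simp only [LinearMap.zero_apply]
    · simp only [LinearMap.zero_apply]
  smul_mem' := by
    intro r a ha
    refine ⟨fun v x y => ?_, fun x y => ?_⟩
    · simp only [LinearMap.smul_apply]
      rw [ha.1]
    · simp only [LinearMap.smul_apply]
      rw [ha.2]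

section solutions

variable {F : Type u} [Field F] [Fintype V]

/-- The number of solutions. -/
noncomputable def Sys.sol (S : Sys ℓ V) (χ : F → ZMod ℓ) (pr : V → F[X]) (t : Finset F[X]) : ℕ :=
  nSol χ pr S.σ S.Λ t

/-- The number of the solutions which are not contained in a proper invariant subspace. -/
noncomputable def Sys.prim (S : Sys ℓ V) (χ : F → ZMod ℓ) (pr : V → F[X]) (t : Finset F[X]) : ℕ :=
  Nat.card {x : (V → S.W) × (t → S.W) // SolW χ pr S.σ S.Λ t x.1 x.2 ∧
    ∀ A, Inv S.σ S.Λ A → (∀ v, x.1 v ∈ A) → (∀ P, x.2 P ∈ A) → A = ⊤}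

/-- A family of irreducible systems which are neither isomorphic nor dual to each other. -/
structure FamS {ι : Type} (χ : F → ZMod ℓ) (pr : V → F[X]) (S : ι → Sys ℓ V) : Prop where
  irr : ∀ i, IrrW (S i).σ (S i).Λ
  hyp : ∀ i, HypW χ pr (S i).σ (S i).Λ
  hom : ∀ i j, i ≠ j → HomS (S i) (S j) = ⊥
  bil : ∀ i j, i ≠ j → BilS (S i) (S j) = ⊥

end solutions

end sys

/-! ### Polynomials -/

/-- `E_a = (X - 1) (X - q) ... (X - q ^ (a - 1))`. -/
noncomputable def Eq_ (q : ℝ) (a : ℕ) : ℝ[X] := ∏ j ∈ Finset.range a, (X - C (q ^ j))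

end MP72e2e6
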