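import Pool.Agent.Lib.MP_72e2e6_nt.PqSpec

/-!
# MP_72e2e6_nt: the exact moments, statements of the modules

Every module proves one of the propositions `StmtPqX` below: file `PqX.lean` (same folder, import
this file and the files it uses) with `theorem tPqX.{u} : StmtPqX.{u}` (or
`theorem tPqX.{u} (h : StmtY.{u}) .. : StmtPqX.{u}` if the docstring says: uses `StmtY`, in this
order; statements without universe: no `.{u}`). The complete proofs are in the docstrings.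
`q = Nat.card F`, `ψ = ZMod.stdAddChar`, `N = |W|` (also the order of the dual of `W`).
-/

namespace MP72e2e6

open Polynomial IsDedekindDomain

universe u

/-! ### The main term for arbitrary systems -/

/-- **PqA1** (the structure of the admissible sets; 300 lines; uses `StmtPpTS`; model: `ppmt_dich`
in PpMT.lean, most steps are the same).

Proof. Let `(c₀, d₀) ∈ 𝓥` and `L` from `StmtPpTS`, `A = pr₁ L`. (i) As in `ppmt_dich`:
`σ v (c v - c₀ - y) ∈ A` and `Λ (c₀ + y) ∈ A` for all `y ∈ A`, so `A` is invariant, and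
`σ v (c v - c₀) ∈ A`. `σ v` is injective and maps the finite `A` into itself, so bijectively:
`σ v a = σ v (c v - c₀)` for some `a ∈ A`, and `c v - c₀ = a ∈ A`. `u.1 - c₀ ∈ A` for `u ∈ 𝓥`. If
`c₀ ∉ A` this is the second alternative. (ii) Let `c₀ ∈ A`. Then `(- c₀, e) ∈ L` for some `e`, and
`(0, d₀ + e) ∈ 𝓥`: replace `(c₀, d₀)` by this element, so `c₀ = 0`, `c v ∈ A`. Let `δ` be the
restriction of `d₀` to `A`. (iii) If `(0, e) ∈ L` then `e = 0` on `A`: for `(y, e') ∈ L`,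
`0 = (e + e') y = e y` (as `e' y = 0`). Let `s : A → L` be a linear right inverse of the surjective
projection (`LinearMap.exists_rightInverse_of_surjective`) and `g x` the restriction of `(s x).2` to
`A`. Then `(x, e) ∈ L` iff `x ∈ A` and `e = g x` on `A` (`⇒`: `(0, e - (s x).2) ∈ L`; `⇐`:
`e - (s x).2` vanishes on `A`, third claim of `StmtPpTS`). So `u ∈ 𝓥` iff `Vst A g δ u`, and
`g x x = 0`. (iv) `alW v = 0` at `(x, e) ∈ 𝓥`, `x = c v + y`, `y ∈ A`, `e = δ + g x` on `A`: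
`d v y = e (σ v y) = δ (σ v y) + g (c v) (σ v y) + g y (σ v y)`. The left side and the first two
terms on the right are odd in `y`, the last one is even, `ℓ ≠ 2`: `g y (σ v y) = 0` and `CdA.bad`.
(v) `aiW` has the same value at `(x, e)` and at `(0, d₀)`, where it is `0`:
`η x = e (Λ x) = δ (Λ x) + g x (Λ x)`, so again `g x (Λ x) = 0` and `CdA.inf`. -/
def StmtPqA1 : Prop :=
  ∀ (ℓ : ℕ) [Fact ℓ.Prime] (_ : ℓ ≠ 2) (V W : Type) [AddCommGroup W] [Module (ZMod ℓ) W]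
    [Fintype W] (σ : V → Module.End (ZMod ℓ) W) (Λ : Module.End (ZMod ℓ) W)
    (_ : ∀ v y, σ v y = 0 → y = 0) (c : V → W) (d : V → Module.Dual (ZMod ℓ) W)
    (η : Module.Dual (ZMod ℓ) W) (𝓥 : Finset (W × Module.Dual (ZMod ℓ) W))
    (_ : Adm BW (Fintype.card W) (alW σ c d) (aiW Λ η) 𝓥),
    ∃ A : Submodule (ZMod ℓ) W, Inv σ Λ A ∧
      ((∃ g ∈ SkA σ Λ A, ∃ δ, CdA σ Λ A g δ c d η ∧ ∀ u, u ∈ 𝓥 ↔ Vst A g δ u) ∨
        ∃ c₀, c₀ ∉ A ∧ (∀ v, c v - c₀ ∈ A) ∧ ∀ u ∈ 𝓥, u.1 - c₀ ∈ A)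

open Classical in
/-- **PqA2** (cancellation; 150 lines; uses `StmtPqA1`; `ppmt_sum` in PpMT.lean may help).

Proof. Let `T η` be the summand. If no `η` is admissible the sum is `0`. Otherwise `StmtPqA1` gives
`A`; the first alternative is impossible (a functional which extends `δ` gives an element of `𝓥`
with first coordinate `0`). So we have `c₀ ∉ A`. Let `z = ∑ v, D v • σ v (c v) + n • c₀`,
`D v = deg (pr v)`. `z ∉ A`: let `Y y = ∑ v, D v • σ v y + n • y`; `Y` is injective (`InfW`) and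
`Y A ≤ A`, so `Y A = A` (finite), `z - Y c₀ = ∑ v, D v • σ v (c v - c₀) ∈ A`; `z ∈ A` would give
`Y c₀ ∈ A = Y A`, `c₀ ∈ A`. Choose a functional `e` with `e = 0` on `A`, `e z ≠ 0`
(`Submodule.exists_le_ker_of_notMem` or `Submodule.exists_dual_map_eq_bot_of_notMem`). For all
`η`: `aiW Λ (η + e) w = aiW Λ η w + e c₀` for `w ∈ 𝓥` (`w.1 - c₀ ∈ A`), so `η + e` is admissible iff
`η` is, and `thW (η + e) = thW η + e (∑ v, D v • σ v (c v))`. So `T (η + e) = ψ (e z) * T η` and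
`∑ T = ψ (e z) * ∑ T` (`Equiv.addRight`), `ψ (e z) ≠ 1`. -/
def StmtPqA2 : Prop :=
  ∀ (F : Type u) [Field F] (ℓ : ℕ) [Fact ℓ.Prime] (_ : ℓ ≠ 2) (V W : Type) [Fintype V]
    [AddCommGroup W] [Module (ZMod ℓ) W] [Fintype W] [Fintype (Module.Dual (ZMod ℓ) W)]
    (χ : F → ZMod ℓ) (pr : V → F[X]) (σ : V → Module.End (ZMod ℓ) W)
    (Λ : Module.End (ZMod ℓ) W) (_ : ∀ v y, σ v y = 0 → y = 0) (n : ℕ) (_ : InfW pr σ n)
    (c : V → W) (d : V → Module.Dual (ZMod ℓ) W)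
    (𝓥 : Finset (W × Module.Dual (ZMod ℓ) W)) (_ : ∀ u ∈ 𝓥, u.1 ≠ 0),
    ∑ η : Module.Dual (ZMod ℓ) W,
      (if Adm BW (Fintype.card W) (alW σ c d) (aiW Λ η) 𝓥 then
        ZMod.stdAddChar (thW χ pr σ Λ c d η) * ((Fintype.card W : ℂ)⁻¹ *
          ∑ w ∈ 𝓥, ZMod.stdAddChar (aiW Λ η w * (n : ZMod ℓ))) else 0) = 0

/-- **PqA3** (the phase is trivial; 250 lines).

Proof. `g x y = - g y x`, `g (σ x) y = g x (σ y)` for `x, y ∈ A` and `σ` one of the operators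
(polarize `g x x = 0`, `g x (σ x) = 0`). `Adm`: (card) the fibres of `u ↦ u.1`, `𝓥 → A` are cosets of
the annihilator of `A`, of order `N / |A|`. (unl) `BW u u' + BW u' u = - (u'.2 - u.2) (u'.1 - u.1) =
- g z z = 0` with `z = u'.1 - u.1 ∈ A`. (bad) `u = (x, e)`, `y = x - c v ∈ A`:
`alW v u = d v y - e (σ v y) = (δ + g (c v) - δ - g x) (σ v y) = - g y (σ v y) = 0`. (inf)
`aiW u = η x - e (Λ x) = δ (Λ x) - δ (Λ x) - g x (Λ x) = 0`. (phase) `s v v' = syl χ (pr v) (pr v')`,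
`D v = deg (pr v)`, `M v = ∑ v', s v v' • σ v' + D v • Λ`; `M v` commutes with `σ v` (hypothesis). All
vectors in `thW` are in `A`, so by `CdA`
`thW = δ (Λ (∑ v, D v • σ v (c v))) + ∑ v, (δ + g (c v)) (σ v (z v))`,
`z v = ∑ v', s v v' • σ v' (c v' - c v) - D v • Λ (c v) = ∑ v', s v v' • σ v' (c v') - M v (c v)`. The
`δ`-part is `δ` of `∑ v, D v • Λ (σ v (c v)) + ∑_{v, v'} s v v' • σ v (σ v' (c v')) -
∑ v, M v (σ v (c v))`, and `∑ v, M v (σ v (c v)) = ∑_{v, v'} s v v' • σ v' (σ v (c v)) +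
∑ v, D v • Λ (σ v (c v))`: it is `0` by the symmetry of `s`. The `g`-part:
`∑_{v, v'} s v v' * g (c v) (σ v (σ v' (c v'))) = ∑_{v, v'} s v v' * g (σ v (c v)) (σ v' (c v'))` is
its own negative, so `0`; and `g x (σ v (M v x)) = g (σ v x) (M v x) = g (M v (σ v x)) x =
g (σ v (M v x)) x = - g x (σ v (M v x))`, so `0`. -/
def StmtPqA3 : Prop :=
  ∀ (F : Type u) [Field F] (ℓ : ℕ) [Fact ℓ.Prime] (_ : ℓ ≠ 2) (V W : Type) [Fintype V]
    [AddCommGroup W] [Module (ZMod ℓ) W] [Fintype W]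
    (χ : F → ZMod ℓ) (pr : V → F[X]) (σ : V → Module.End (ZMod ℓ) W)
    (Λ : Module.End (ZMod ℓ) W) (_ : HypW χ pr σ Λ)
    (_ : ∀ v v', syl χ (pr v) (pr v') = syl χ (pr v') (pr v))
    (A : Submodule (ZMod ℓ) W) (_ : Inv σ Λ A) (g : A →ₗ[ZMod ℓ] Module.Dual (ZMod ℓ) A)
    (_ : g ∈ SkA σ Λ A) (δ : Module.Dual (ZMod ℓ) A) (c : V → W)
    (d : V → Module.Dual (ZMod ℓ) W) (η : Module.Dual (ZMod ℓ) W) (_ : CdA σ Λ A g δ c d η)
    (𝓥 : Finset (W × Module.Dual (ZMod ℓ) W)) (_ : ∀ u, u ∈ 𝓥 ↔ Vst A g δ u),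
    Adm BW (Fintype.card W) (alW σ c d) (aiW Λ η) 𝓥 ∧ (∀ u ∈ 𝓥, aiW Λ η u = 0) ∧
      thW χ pr σ Λ c d η = 0

/-- **PqA4** (the number of the data; 200 lines).

Proof. Let `r : Dual W → Dual A` be the restriction, surjective (`LinearMap.exists_extend`), `s` a
linear right inverse. For `δ` and `c : V → A` let `φ v y = δ (σ v y) + g (c v) (σ v y)` and
`φ' y = δ (Λ y)`, functionals on `A` (`A` is invariant: `LinearMap.restrict`). `CdA` says
`r (d v) = φ v` and `r η = φ'`, i.e. `d v = s (φ v) + κ v`, `η = s φ' + κ'` with `κ v, κ' ∈ ker r`. So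
the set is in bijection with `Dual A × (V → A) × (V → ker r) × ker r`. `|Dual A| = |A|` and
`|ker r| * |A| = N`. -/
def StmtPqA4 : Prop :=
  ∀ (ℓ : ℕ) [Fact ℓ.Prime] (V W : Type) [Fintype V] [AddCommGroup W] [Module (ZMod ℓ) W]
    [Finite W] (σ : V → Module.End (ZMod ℓ) W) (Λ : Module.End (ZMod ℓ) W)
    (A : Submodule (ZMod ℓ) W) (_ : Inv σ Λ A) (g : A →ₗ[ZMod ℓ] Module.Dual (ZMod ℓ) A),
    Nat.card {x : Module.Dual (ZMod ℓ) A × (V → W) × (V → Module.Dual (ZMod ℓ) W) ×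
        Module.Dual (ZMod ℓ) W // CdA σ Λ A g x.1 x.2.1 x.2.2.1 x.2.2.2} =
      Nat.card W ^ (Fintype.card V + 1)

open Classical in
/-- **PqMT** (the main term; 250 lines; uses `StmtPqA1`, `StmtPqA2`, `StmtPqA3`, `StmtPqA4`).

Proof. Split the sum over `𝓥` into the `𝓥` which contain an element `u` with `u.1 = 0` and the
others. Others: move the sum over `𝓥` to the outside (write the filter as an `if`), the inner sum
over `η` is `0` by `StmtPqA2`. For the first part `StmtPqA1` gives the first alternative (in the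
second one `u.1 - c₀ = - c₀ ∉ A`), and by `StmtPqA3` the summand is `ψ 0 * N⁻¹ * N = 1`. So this part
is the number of the `(c, d, η, 𝓥)` with `Adm` and such a `u`, and `(A, g, δ, c, d, η) ↦
(c, d, η, {u | Vst A g δ u})` is a bijection from the tuples with `Inv σ Λ A`, `g ∈ SkA σ Λ A`, `CdA`
to them: well defined by `StmtPqA3` (and a functional extending `δ` gives `u` with `u.1 = 0`),
surjective by `StmtPqA1`, injective because `A` is the set of the first coordinates (for every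
`x ∈ A` there is a functional extending `δ + g x`), and `δ`, `g` are determined by the values. By
`StmtPqA4` the number of tuples is `∑_A ∑_{g ∈ SkA} N ^ (|V| + 1)`. -/
def StmtPqMT : Prop :=
  ∀ (F : Type u) [Field F] (ℓ : ℕ) [Fact ℓ.Prime] (_ : ℓ ≠ 2) (V W : Type) [Fintype V]
    [AddCommGroup W] [Module (ZMod ℓ) W] [Fintype W] [Fintype (Module.Dual (ZMod ℓ) W)]
    (χ : F → ZMod ℓ) (pr : V → F[X]) (σ : V → Module.End (ZMod ℓ) W)
    (Λ : Module.End (ZMod ℓ) W) (_ : HypW χ pr σ Λ)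
    (_ : ∀ v v', syl χ (pr v) (pr v') = syl χ (pr v') (pr v)) (n : ℕ) (_ : InfW pr σ n),
    ∑ c : V → W, ∑ d : V → Module.Dual (ZMod ℓ) W, ∑ η : Module.Dual (ZMod ℓ) W,
      ZMod.stdAddChar (thW χ pr σ Λ c d η) *
        ∑ 𝓥 ∈ (Finset.univ : Finset (Finset (W × Module.Dual (ZMod ℓ) W))).filter
            (Adm BW (Fintype.card W) (alW σ c d) (aiW Λ η)),
          ((Fintype.card W : ℂ)⁻¹ *
            ∑ w ∈ 𝓥, ZMod.stdAddChar (aiW Λ η w * (n : ZMod ℓ))) =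
      (Fintype.card W : ℂ) ^ (Fintype.card V + 1) * (muW σ Λ : ℂ)

/-- **PqFM** (the first moment; 150 lines; uses `StmtSuRec`, `StmtPpTS`, `StmtPpCol`, `StmtPpAn`,
`StmtPqMT`, `StmtPpFou`; model: PpFM.lean).

Proof. As PpFM.lean, with the exact value `StmtPqMT` instead of the upper bound of `StmtPpMT`
(`syl χ (pr v) (pr v') = syl χ (pr v') (pr v)`: `StmtSuRec` for `v ≠ v'`). If `W` is trivial, `nSol = 1`
and `muW = 1` (there `Unl BW 1` fails, so treat this case separately). -/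
def StmtPqFM : Prop :=
  ∀ (F : Type u) [Field F] [Finite F] (ℓ : ℕ) [Fact ℓ.Prime] (_ : ℓ ≠ 2)
    (_ : ℓ ∣ Nat.card F - 1) (χ : F → ZMod ℓ) (_ : IsLg ℓ χ) (V W : Type) [Fintype V]
    [AddCommGroup W] [Module (ZMod ℓ) W] [Finite W] (pr : V → F[X]) (_ : Fam pr)
    (σ : V → Module.End (ZMod ℓ) W) (Λ : Module.End (ZMod ℓ) W) (_ : HypW χ pr σ Λ)
    (ε : ℝ) (_ : 0 < ε),
    ∃ n₀ : ℕ, ∀ n : ℕ, n₀ ≤ n → InfW pr σ n →
      |∑ t ∈ gs F pr n, (nSol χ pr σ Λ t : ℝ) - (muW σ Λ : ℝ) * ((gs F pr n).card : ℝ)| ≤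
        ε * (Nat.card F : ℝ) ^ n

/-- **PqPrim** (primitive solutions; 250 lines; uses `StmtPqFM`).

Proof. Strong induction on `Nat.card S.W`, for all `ε`. Every solution `x` has a smallest invariant
subspace `A` which contains its values (the intersection of all of them), and then `x` is a
primitive solution for `S.sub A`: `S.sol t = ∑_A (S.sub A).prim t` (sum over the invariant `A`), and
`(S.sub ⊤).prim t = S.prim t`. `HypW` and `InfW` hold for `S.sub A`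
(the equations in `A` are the equations in `W`). `Nat.card (Sk (S.sub A).σ (S.sub A).Λ) =
Nat.card (SkA S.σ S.Λ A)`, and `Sk S.σ S.Λ` has the same order as `SkA S.σ S.Λ ⊤`. By the induction
hypothesis for the `A ≠ ⊤` (finitely many, with `ε / (number + 1)`) and `StmtPqFM`:
`∑_t S.prim t = ∑_t S.sol t - ∑_{A ≠ ⊤} ∑_t (S.sub A).prim t`, which is
`(muW - ∑_{A ≠ ⊤} |SkA A|) * |gs| = |SkA ⊤| * |gs|` up to `ε * q ^ n`. -/
def StmtPqPrim : Prop :=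
  ∀ (F : Type u) [Field F] [Finite F] (ℓ : ℕ) [Fact ℓ.Prime] (_ : ℓ ≠ 2)
    (_ : ℓ ∣ Nat.card F - 1) (χ : F → ZMod ℓ) (_ : IsLg ℓ χ) (V : Type) [Fintype V]
    (pr : V → F[X]) (_ : Fam pr) (S : Sys ℓ V) (_ : HypW χ pr S.σ S.Λ) (ε : ℝ) (_ : 0 < ε),
    ∃ n₀ : ℕ, ∀ n : ℕ, n₀ ≤ n → InfW pr S.σ n →
      |∑ t ∈ gs F pr n, (S.prim χ pr t : ℝ) -
        (Nat.card (Sk S.σ S.Λ) : ℝ) * ((gs F pr n).card : ℝ)| ≤ ε * (Nat.card F : ℝ) ^ n

/-! ### Products of irreducible systems -/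

/-- **PqGen** (generating tuples; 250 lines).

Proof. `T = Sys.pi ..`, `in p : S p.1 → T`, `pr p` the inclusions and projections, intertwining.
Schur: a nonzero element of `HomS (S i) (S j)` is bijective (kernel and range are invariant), so it
is `0` for `i ≠ j` (its inverse would not matter: the hypothesis says `HomS (S i) (S j) = ⊥`).
(`⇒`) Let `∑ j, c j (x k ⟨i, j⟩) = 0` for all `k`. `A = ker (∑ j, c j ∘ pr ⟨i, j⟩)` is invariant and
contains all `x k`, so `A = ⊤` and `c j = (∑ j', c j' ∘ pr ⟨i, j'⟩) ∘ in ⟨i, j⟩ = 0`. (`⇐`) Let `A ≠ ⊤`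
be invariant with all `x k ∈ A`; we may assume that `A` is maximal among the invariant subspaces
`≠ ⊤` (finite). The ranges of the `in p` span `T`, so `in p₀` does not map into `A` for some
`p₀ = ⟨i, j₀⟩`. `(in p₀)⁻¹ A` is invariant and not `⊤`, so `⊥`; `A ⊔ range (in p₀)` is invariant and
larger than `A`, so `⊤`. So `A` and `range (in p₀)` are complementary
(`IsCompl`); let `φ : T → S i` be the projection along `A` composed with the inverse of `in p₀`: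
`φ (a + in p₀ y) = y`. It intertwines (the decomposition is unique and both parts are invariant),
`φ = 0` on `A`, `φ ∘ in p₀ = id`. Put `c j = φ ∘ in ⟨i, j⟩ ∈ HomS (S i) (S i)`; for `i' ≠ i`,
`φ ∘ in ⟨i', j⟩ ∈ HomS (S i') (S i) = ⊥`. So `0 = φ (x k) = ∑ j, c j (x k ⟨i, j⟩)` for all `k`, and
`c j₀ = id ≠ 0` (`S i` is nontrivial). -/
def StmtPqGen : Prop :=
  ∀ (ℓ : ℕ) [Fact ℓ.Prime] (V ι : Type) [Fintype ι] (S : ι → Sys ℓ V)
    (_ : ∀ i, IrrW (S i).σ (S i).Λ) (_ : ∀ i j, i ≠ j → HomS (S i) (S j) = ⊥) (a : ι → ℕ)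
    (κ : Type u) (x : κ → (Sys.pi fun p : (Σ i, Fin (a i)) => S p.1).W),
    (∀ A, Inv (Sys.pi fun p : (Σ i, Fin (a i)) => S p.1).σ
        (Sys.pi fun p : (Σ i, Fin (a i)) => S p.1).Λ A → (∀ k, x k ∈ A) → A = ⊤) ↔
      ∀ (i : ι) (c : Fin (a i) → ((S i).W →ₗ[ZMod ℓ] (S i).W)),
        (∀ j, c j ∈ HomS (S i) (S i)) → (∀ k, ∑ j, c j (x k ⟨i, j⟩) = 0) → ∀ j, c j = 0

/-- **PqCt** (the number of primitive solutions of a product; 250 lines; uses `StmtPqGen`).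

Proof. `D i = HomS (S i) (S i)` is a subring of `Module.End (ZMod ℓ) (S i).W`, and a division ring
(Schur; `DivisionRing.ofIsUnitOrEqZero`), of order `q i`. It acts on the space `X i` of the solutions
of `S i` (`(κ x) v = κ (x v)`, all equations are linear and `κ` intertwines). So `|X i| = q i ^ r i`
(`Module.natCard_eq_pow_finrank`), the second claim. A solution for `Sys.pi ..` is a family
`y i : Fin (a i) → X i` (componentwise), and by `StmtPqGen` (with `κ = V ⊕ t`) it is primitive iff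
every `y i` is linearly independent over `D i`. The number of the linearly independent
`y : Fin a → X i` is `∏_{j < a} (q ^ r - q ^ j)` for `a ≤ r` (`card_linearIndependent`) and `0` for
`a > r`, when the product contains the factor `0`. -/
def StmtPqCt : Prop :=
  ∀ (F : Type u) [Field F] (ℓ : ℕ) [Fact ℓ.Prime] (V : Type) [Fintype V] (χ : F → ZMod ℓ)
    (pr : V → F[X]) (ι : Type) [Fintype ι] (S : ι → Sys ℓ V) (_ : FamS χ pr S)
    (t : Finset F[X]),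
    (∀ a : ι → ℕ, ((Sys.pi fun p : (Σ i, Fin (a i)) => S p.1).prim χ pr t : ℝ) =
      ∏ i, ∏ j ∈ Finset.range (a i),
        (((S i).sol χ pr t : ℝ) - (Nat.card (HomS (S i) (S i)) : ℝ) ^ j)) ∧
    ∀ i, ∃ r : ℕ, (S i).sol χ pr t = Nat.card (HomS (S i) (S i)) ^ r

/-- **PqSkt** (the forms on a product; 250 lines).

Proof. `T = Sys.pi ..`, index set `I = Σ i, Fin (a i)` with a linear order (transport one from
`Fin (Fintype.card I)`). By polarization (`ℓ ≠ 2`) `g ∈ Sk T` iff `g x y = - g y x` and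
`g (σ x) y = g x (σ y)` for all the operators. Write `g x y = ∑_{p, p'} g_{p, p'} (x p) (y p')`,
`g_{p, p'} ∈ BilS (S p.1) (S p'.1)`. Then `g ∈ Sk T` iff `g_{p', p} y x = - g_{p, p'} x y` for all
`p, p'`, i.e. `g` corresponds to an arbitrary family `g_{p, p} ∈ Sk (S p.1)`,
`g_{p, p'} ∈ BilS (S p.1) (S p'.1)` for `p < p'`, and `BilS (S i) (S j) = ⊥` for `i ≠ j`. So the number is
`∏_p |Sk (S p.1)| * ∏_{p < p', p.1 = p'.1} |BilS (S p.1) (S p.1)|`, and there are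
`a i * (a i - 1) / 2` pairs over `i`. (Alternative: induction, one factor at a time:
`Sk (S × T) ≃ Sk S × BilS S T × Sk T`, `BilS S (∏ T p) ≃ ∏ BilS S (T p)`.) -/
def StmtPqSkt : Prop :=
  ∀ (ℓ : ℕ) [Fact ℓ.Prime] (_ : ℓ ≠ 2) (V ι : Type) [Fintype ι] (S : ι → Sys ℓ V)
    (_ : ∀ i j, i ≠ j → BilS (S i) (S j) = ⊥) (a : ι → ℕ),
    Nat.card (Sk (Sys.pi fun p : (Σ i, Fin (a i)) => S p.1).σ
        (Sys.pi fun p : (Σ i, Fin (a i)) => S p.1).Λ) =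
      ∏ i, (Nat.card (Sk (S i).σ (S i).Λ) ^ a i *
        Nat.card (BilS (S i) (S i)) ^ (a i * (a i - 1) / 2))

/-- **PqBil** (orders; 120 lines).

Proof. `HomS S S` contains the scalars and `S.W ≠ 0`, so it is a vector space of dimension `≥ 1` over
`ZMod ℓ`. Let `g ≠ 0` in `BilS S S`. The kernel of `g : S.W → Dual S.W` is invariant and not `⊤`, so
`⊥`, and `g` is bijective (`|Dual W| = |W|`). `κ ↦ g ∘ κ` is a bijection from `HomS S S` to `BilS S S`: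
`g (κ (σ x)) y = g (σ (κ x)) y = g (κ x) (σ y)`; conversely `h ∈ BilS S S` is `g ∘ κ` for a linear `κ`,
and `g (κ (σ x)) y = h (σ x) y = h x (σ y) = g (κ x) (σ y) = g (σ (κ x)) y`. `Sk` is contained in
`BilS S S` (polarization; no condition on `ℓ` is needed: `g x (σ x) = 0` and `g x x = 0` give
`g x (σ y) = - g y (σ x) = g (σ x) y`). A subspace of order `≠` the whole has order at most the whole
divided by `ℓ`. -/
def StmtPqBil : Prop :=
  ∀ (ℓ : ℕ) [Fact ℓ.Prime] (V : Type) (S : Sys ℓ V) (_ : IrrW S.σ S.Λ),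
    ℓ ≤ Nat.card (HomS S S) ∧
    ((Nat.card (BilS S S) = 1 ∧ Nat.card (Sk S.σ S.Λ) = 1) ∨
      (Nat.card (BilS S S) = Nat.card (HomS S S) ∧ 1 ≤ Nat.card (Sk S.σ S.Λ) ∧
        (Nat.card (Sk S.σ S.Λ) = Nat.card (HomS S S) ∨
          Nat.card (Sk S.σ S.Λ) * ℓ ≤ Nat.card (HomS S S))))

/-- **PqEqv** (isomorphic and dual systems; 250 lines; uses `StmtSuSy`, `StmtSuRec`; model:
PpFrm.lean, PpPar.lean).

Proof. (i) A nonzero `κ ∈ HomS S S'` is bijective (kernel, range invariant), and `x ↦ κ ∘ x` is a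
bijection of the solutions. (ii) Let `g ≠ 0` in `BilS S S'`. The kernel of `g : S.W → Dual S'.W` and
`{y | ∀ x, g x y = 0}` are invariant, so `0`: `g` is a perfect pairing, `|S.W| = |S'.W|`. Index set
`ι = V ⊕ t` as in PpPar.lean, `σ β` (identity at `P ∈ t`), `l` the symbols, `D` the degrees,
`M β = ∑ β', l β β' • σ β' + D β • Λ`, and `σ' β`, `M' β` for `S'`: `g (σ β x) y = g x (σ' β y)`,
`g (M β x) y = g x (M' β y)`, `σ β`, `M β` commute. As in PpFrm.lean (`y β = σ β (c β)`) the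
solutions of `S` are in bijection with `X = {y ∈ Y | T y = 0}`, `Y = {y : ι → S.W | ∑ D β • y β = 0}`,
`(T y) β = ∑ β', l β β' • y β' - M β ((σ β)⁻¹ (y β))`, the same for `S'`. The pairing
`B y y' = ∑ β, g ((T y) β) (y' β) = ∑ β, g (y β) ((T' y') β)` on `Y × Y'` (the two are equal by the
symmetry of `l` and because `M β (σ β)⁻¹` and `M' β (σ' β)⁻¹` are adjoint: `(σ β)⁻¹` and `M β`
commute). Its left kernel is `X` and its right kernel is `X'` (step (iii) of the proof of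
`StmtPpFrm`, `T_zero` in PpFrm.lean; `InfW` for `S'` follows from `InfW` for `S`: the two operators
are adjoint, and injective iff surjective). `|Y| = |Y'|` (if all `D β = 0` then `InfW` says that
`S.W` is trivial, which is excluded by `IrrW`; otherwise `|W| ^ (|ι| - 1)`). A pairing of
finite-dimensional spaces has left and right kernels of dimensions `dim Y - rank`, `dim Y' - rank`:
`|X| = |X'|`. -/
def StmtPqEqv : Prop :=
  ∀ (F : Type u) [Field F] [Finite F] (ℓ : ℕ) [Fact ℓ.Prime] (_ : ℓ ≠ 2)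
    (_ : ℓ ∣ Nat.card F - 1) (χ : F → ZMod ℓ) (_ : IsLg ℓ χ) (V : Type) [Fintype V]
    (pr : V → F[X]) (_ : Fam pr) (S S' : Sys ℓ V) (_ : IrrW S.σ S.Λ) (_ : IrrW S'.σ S'.Λ)
    (_ : HypW χ pr S.σ S.Λ) (_ : HypW χ pr S'.σ S'.Λ) (_ : HomS S S' ≠ ⊥ ∨ BilS S S' ≠ ⊥)
    (n : ℕ) (_ : InfW pr S.σ n) (t : Finset F[X]) (_ : t ∈ gs F pr n),
    S.sol χ pr t = S'.sol χ pr t

/-- **PqSym** (parity, exact form; 60 lines; uses `StmtSuSy`, `StmtSuRec`, `StmtPpKf`, `StmtPpFrm`).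

Proof. Copy PpPar.lean: its proof shows exactly this. -/
def StmtPqSym : Prop :=
  ∀ (F : Type u) [Field F] [Finite F] (ℓ : ℕ) [Fact ℓ.Prime] (_ : ℓ ≠ 2)
    (_ : ℓ ∣ Nat.card F - 1) (χ : F → ZMod ℓ) (_ : IsLg ℓ χ) (V : Type) [Fintype V]
    (pr : V → F[X]) (_ : Fam pr) (S : Sys ℓ V) (_ : IrrW S.σ S.Λ)
    (_ : HypW χ pr S.σ S.Λ) (_ : Sk S.σ S.Λ ≠ ⊥) (n : ℕ) (_ : InfW pr S.σ n)
    (t : Finset F[X]) (_ : t ∈ gs F pr n),
    ∃ a : ℕ, S.sol χ pr t = Nat.card (Sk S.σ S.Λ) ^ (2 * a)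

/-! ### From moments to probabilities -/

/-- **PqMul** (from the products of the `Eq_` to all polynomials; 150 lines).

Proof. For a finite set `s` of indices let `P s` be: the conclusion holds for all `f` such that for
every `i ∉ s`, `f i = Eq_ (q i) a` for some `a`. `P ∅` is the hypothesis. Step `s → insert i s`: let
`f` be given outside of `i`. The set of the `p : ℝ[X]` such that the conclusion holds for
`Function.update f i p` is closed under sums and scalars (the sum over `t` and the product of the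
`L i (f i)` are linear in `p`; use `ε / 2`, and `ε / (|r| + 1)` for the scalar `r`), and contains all
`Eq_ (q i) a`. These are monic of degree `a`, so they span `ℝ[X]` (strong induction on the degree:
`p - leadingCoeff p • Eq_ (q i) (natDegree p)` has smaller degree or is `0`). -/
def StmtPqMul : Prop :=
  ∀ (ι : Type) [Fintype ι] (α : Type u) (G : ℕ → Finset α) (good : ℕ → Prop) (Q : ℝ) (_ : 0 < Q)
    (q : ι → ℝ) (x : ι → α → ℝ) (L : ι → (ℝ[X] →ₗ[ℝ] ℝ))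
    (_ : ∀ (a : ι → ℕ) (ε : ℝ), 0 < ε → ∃ n₀ : ℕ, ∀ n : ℕ, n₀ ≤ n → good n →
      |∑ t ∈ G n, ∏ i, (Eq_ (q i) (a i)).eval (x i t) -
        (∏ i, L i (Eq_ (q i) (a i))) * ((G n).card : ℝ)| ≤ ε * Q ^ n)
    (f : ι → ℝ[X]) (ε : ℝ) (_ : 0 < ε), ∃ n₀ : ℕ, ∀ n : ℕ, n₀ ≤ n → good n →
      |∑ t ∈ G n, ∏ i, (f i).eval (x i t) - (∏ i, L i (f i)) * ((G n).card : ℝ)| ≤ ε * Q ^ n

/-- **PqOneC** (one variable, the general inequality; 150 lines).

Proof. Let `P j = Eq_ Q j`, `Π j = ∏_{i = 1}^j (Q ^ i - 1) > 0`, `w j = L (P j) / Π j` and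
`f_J = ∑_{j ≤ J} (-1) ^ j • P j / Π j`. By induction on `J`: `f_J = ∏_{i = 1}^J (Q ^ i - X) / (Q ^ i - 1)`
(`f_{J + 1} - f_J = (-1) ^ (J + 1) P_{J + 1} / Π_{J + 1}`, and with
`P_{J + 1} = (X - 1) ∏_{i = 1}^J (X - Q ^ i)`, `f_J = (-1) ^ J ∏_{i = 1}^J (X - Q ^ i) / Π_J`:
`f_J * (1 - (X - 1) / (Q ^ (J + 1) - 1)) = f_J * (Q ^ (J + 1) - X) / (Q ^ (J + 1) - 1)`). So
`f_J (1) = 1`, `f_J (Q ^ r) = 0` for `1 ≤ r ≤ J`, and for `r > J` it has the sign `(-1) ^ J`. Take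
`f⁺ = f_J` with `J` even, `f⁻ = f_{J + 1}`: `L f⁺ - L f⁻ = w_{J + 1} ≤ 2 ^ (- J - 1)`. `w 0 = 1`
(`L 1 = 1`, hypothesis for `j = 0`), `L f_J = ∑_{j ≤ J} (-1) ^ j w j`, the `w j` are nonnegative and
decreasing for `j ≥ 1`, `w 1 ≤ 1`: `1 - w 1 ≤ L f_J ≤ 1` for even `J` (induction in steps of two,
show more precisely `1 - w 1 + w (J + 1) ≤ L f_J`, for `J ≥ 2`; for `J = 0`, `L f_0 = 1`). -/
def StmtPqOneC : Prop :=
  ∀ (Q : ℝ) (_ : 1 < Q) (L : ℝ[X] →ₗ[ℝ] ℝ) (w : ℕ → ℝ)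
    (_ : ∀ j, L (Eq_ Q j) = w j * ∏ i ∈ Finset.range j, (Q ^ (i + 1) - 1)) (_ : w 0 = 1)
    (_ : ∀ j, 0 ≤ w j) (_ : ∀ j, w (j + 1) ≤ w j / 2) (η : ℝ) (_ : 0 < η),
    ∃ fm fp : ℝ[X], (∀ r : ℕ, fm.eval (Q ^ r) ≤ (if r = 0 then 1 else 0) ∧
      (if r = 0 then 1 else 0) ≤ fp.eval (Q ^ r)) ∧ L fp - L fm ≤ η ∧ 1 - w 1 ≤ L fp ∧ L fp ≤ 1

/-- **PqOneA** (the case `u < q`; 120 lines; uses `StmtPqOneC`).

Proof. `StmtPqOneC` for `Q = q`, `w j = u ^ j * β ^ (j (j - 1) / 2) / ∏_{i < j} (q ^ (i + 1) - 1)`.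
`w (j + 1) = w j * u * β ^ j / (q ^ (j + 1) - 1)`
(`(j + 1) * j / 2 = j * (j - 1) / 2 + j`). If `β = u = 1` the factor is `≤ 1 / (q - 1) ≤ 1 / 2`. If `β = q`,
`u ≤ q / ℓ`: the factor is at most `(q ^ (j + 1) / ℓ) / (q ^ (j + 1) - 1) ≤ 1 / 2`, because
`q ^ (j + 1) / (q ^ (j + 1) - 1) ≤ 3 / 2`. And `w 1 = u / (q - 1) ≤ 1 / (ℓ - 1)`: clear for `u = 1`, and
for `u ≤ q / ℓ`: `q (ℓ - 1) ≤ ℓ (q - 1)`. -/
def StmtPqOneA : Prop :=
  ∀ (ℓ : ℕ) (_ : 3 ≤ ℓ) (q u β : ℝ) (_ : (ℓ : ℝ) ≤ q)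
    (_ : (β = 1 ∧ u = 1) ∨ (β = q ∧ 1 ≤ u ∧ u * ℓ ≤ q)) (L : ℝ[X] →ₗ[ℝ] ℝ)
    (_ : ∀ j : ℕ, L (Eq_ q j) = u ^ j * β ^ (j * (j - 1) / 2)) (η : ℝ) (_ : 0 < η),
    ∃ fm fp : ℝ[X], (∀ r : ℕ, fm.eval (q ^ r) ≤ (if r = 0 then 1 else 0) ∧
      (if r = 0 then 1 else 0) ≤ fp.eval (q ^ r)) ∧ L fp - L fm ≤ η ∧
      1 - 1 / ((ℓ : ℝ) - 1) ≤ L fp ∧ L fp ≤ 1

/-- **PqOneB** (the case `u = q`, even exponents; 200 lines; uses `StmtPqOneC`).

Proof. (i) `L ((X - 1) * p) = q * L (p.comp (C q * X))` for all `p`: both sides are linear in `p`, and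
for `p = ∏_{i = 1}^a (X - q ^ i)`: `(X - 1) p = Eq_ q (a + 1)`, `p (q X) = q ^ a Eq_ q a`, and
`(a + 1) + (a + 1) a / 2 = 1 + a + a + a (a - 1) / 2` (the hypothesis says
`L (Eq_ q a) = q ^ a * q ^ (a (a - 1) / 2)`). These `p` are monic of degree `a` and span `ℝ[X]`.
(ii) Let `o k = ∏_{i = 1}^k (X - q ^ (2 i - 1))` and `P k = Eq_ (q ^ 2) k = ∏_{i < k} (X - q ^ (2 i))`.
`o k (q X) = q ^ k P k`, and with `P' k = ∏_{i = 1}^k (X - q ^ (2 i))`: `P (k + 1) = (X - 1) P' k`,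
`P' k (q X) = q ^ k o k`. So `L (P (k + 1)) = q * q ^ k * L (o k)`, and
`L (o (k + 1)) = L ((X - 1) o k) + (1 - q ^ (2 k + 1)) L (o k) =
q ^ (k + 1) L (P k) + (1 - q ^ (2 k + 1)) L (o k)`. `L (o 0) = L 1 = 1` (`a = 0`). By induction
`L (o k) = 1` and `L (P k) = q ^ k` for all `k` (`q ^ (k + 1) * q ^ k = q ^ (2 k + 1)`; for `k = 0`,
`L (P 0) = 1`). (iii) `StmtPqOneC` for `Q = q ^ 2`, `w j = q ^ j / ∏_{i < j} (q ^ (2 (i + 1)) - 1)`:
the factors `q / (q ^ (2 (j + 1)) - 1)` are at most `q / (q ^ 2 - 1) ≤ 1 / (q - 1) ≤ 1 / 2`. -/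
def StmtPqOneB : Prop :=
  ∀ (ℓ : ℕ) (_ : 3 ≤ ℓ) (q : ℝ) (_ : (ℓ : ℝ) ≤ q) (L : ℝ[X] →ₗ[ℝ] ℝ)
    (_ : ∀ j : ℕ, L (Eq_ q j) = q ^ j * q ^ (j * (j - 1) / 2)) (η : ℝ) (_ : 0 < η),
    ∃ fm fp : ℝ[X], (∀ r : ℕ, fm.eval (q ^ (2 * r)) ≤ (if r = 0 then 1 else 0) ∧
      (if r = 0 then 1 else 0) ≤ fp.eval (q ^ (2 * r))) ∧ L fp - L fm ≤ η ∧
      1 - 1 / ((ℓ : ℝ) - 1) ≤ L fp ∧ L fp ≤ 1

/-- **PqTel** (an inequality; 60 lines).

Proof. Induction on `s`. For `insert i s`: `∏ b = b i * ∏_s b`,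
`b i * ∏_s b ≥ b i * (∏_s y - ∑_{j ∈ s} (y j - z j) ∏_{s \ j} y)`. As `0 ≤ b i ≤ 1`, `b i ≤ y i` and the
sum `Σ ≥ 0`: this is at least `b i * ∏_s y - y i * Σ`, and
`b i ∏_s y ≥ z i ∏_s y = y i ∏_s y - (y i - z i) ∏_s y`. (`y i * Σ` is the part `j ∈ s` of the sum
for `insert i s`.) -/
def StmtPqTel : Prop :=
  ∀ (ι : Type) [DecidableEq ι] (s : Finset ι) (b y z : ι → ℝ) (_ : ∀ i, 0 ≤ b i)
    (_ : ∀ i, b i ≤ y i) (_ : ∀ i, z i ≤ b i),
    ∏ i ∈ s, y i - ∑ i ∈ s, (y i - z i) * ∏ j ∈ s.erase i, y j ≤ ∏ i ∈ s, b i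

open Classical in
/-- **PqMix** (the mixed moments; 100 lines; uses `StmtPqPrim`, `StmtPqCt`, `StmtPqSkt`).

Proof. `StmtPqPrim` for `Sys.pi fun p : (Σ i, Fin (a i)) => S p.1`: `HypW` and `InfW` hold componentwise.
Insert `StmtPqCt` and `StmtPqSkt`. -/
def StmtPqMix : Prop :=
  ∀ (F : Type u) [Field F] [Finite F] (ℓ : ℕ) [Fact ℓ.Prime] (_ : ℓ ≠ 2)
    (_ : ℓ ∣ Nat.card F - 1) (χ : F → ZMod ℓ) (_ : IsLg ℓ χ) (V : Type) [Fintype V]
    (pr : V → F[X]) (_ : Fam pr) (ι : Type) [Fintype ι] (S : ι → Sys ℓ V) (_ : FamS χ pr S)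
    (a : ι → ℕ) (ε : ℝ) (_ : 0 < ε),
    ∃ n₀ : ℕ, ∀ n : ℕ, n₀ ≤ n → (∀ i, InfW pr (S i).σ n) →
      |∑ t ∈ gs F pr n, ∏ i, (Eq_ (Nat.card (HomS (S i) (S i))) (a i)).eval
          ((S i).sol χ pr t : ℝ) -
        (∏ i, ((Nat.card (Sk (S i).σ (S i).Λ) : ℝ) ^ a i *
          (Nat.card (BilS (S i) (S i)) : ℝ) ^ (a i * (a i - 1) / 2))) *
            ((gs F pr n).card : ℝ)| ≤ ε * (Nat.card F : ℝ) ^ n

/-- **PqFun** (the functional with given values; 60 lines).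

Proof. The `Eq_ q a` are monic of degree `a`, so they form a basis of `ℝ[X]`
(`Polynomial.Sequence`: `Sequence.basis`, or prove linear independence and span), and `L` is
`Basis.constr`. -/
def StmtPqFun : Prop :=
  ∀ (q : ℝ) (m : ℕ → ℝ), ∃ L : ℝ[X] →ₗ[ℝ] ℝ, ∀ j, L (Eq_ q j) = m j

open Classical in
/-- **PqPos** (all the systems of a family; 250 lines; uses `StmtPqMix`, `StmtPqCt`, `StmtPqBil`,
`StmtPqSym`, `StmtPqFun`, `StmtPqMul`, `StmtPqOneA`, `StmtPqOneB`, `StmtPqTel`).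

Proof. `q i = |HomS (S i) (S i)|`, `u i = |Sk (S i)|`, `β i = |BilS (S i) (S i)|`, `x i t = (S i).sol t`,
`p = 1 - 1 / (ℓ - 1)`, `L i` the functional with `L i (Eq_ (q i) j) = u i ^ j * β i ^ (j (j - 1) / 2)`
(`StmtPqFun`), `η > 0` small. `StmtPqBil`: either `StmtPqOneA` applies to `(q i, u i, β i)` or
`β i = u i = q i` and `StmtPqOneB` applies. So there are `fm i`, `fp i` with
`fm i (x) ≤ [x = 1] ≤ fp i (x)` for `x = x i t` (`x i t` is a power of `q i`, `StmtPqCt`, with an even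
exponent in the second case, `StmtPqSym`: there `Sk ≠ ⊥` because `u i = q i ≥ ℓ > 1`), and
`L (fp i) - L (fm i) ≤ η`, `p ≤ L (fp i) ≤ 1`. By `StmtPqTel` with `b i = [x i t = 1]`, `y i = fp i (x i t)`,
`z i = fm i (x i t)`: the number of the `t` with `x i t = 1` for all `i` is at least
`∑_t (∏_i fp i (x i t) - ∑_i (fp i - fm i) (x i t) ∏_{j ≠ i} fp j (x j t))`. By `StmtPqMix` and
`StmtPqMul` (for the family `fp`, and for every `i` the family `fp` with `fp i - fm i` at `i`: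
`Function.update`) this is at least
`(∏ L (fp i) - ∑_i (L (fp i) - L (fm i)) ∏_{j ≠ i} L (fp j)) * |gs| - ε' q ^ n ≥
(p ^ |ι| - |ι| η) * |gs| - ε' q ^ n`. -/
def StmtPqPos : Prop :=
  ∀ (F : Type u) [Field F] [Finite F] (ℓ : ℕ) [Fact ℓ.Prime] (_ : ℓ ≠ 2)
    (_ : ℓ ∣ Nat.card F - 1) (χ : F → ZMod ℓ) (_ : IsLg ℓ χ) (V : Type) [Fintype V]
    (pr : V → F[X]) (_ : Fam pr) (ι : Type) [Fintype ι] (S : ι → Sys ℓ V) (_ : FamS χ pr S)
    (ε : ℝ) (_ : 0 < ε),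
    ∃ n₀ : ℕ, ∀ n : ℕ, n₀ ≤ n → (∀ i, InfW pr (S i).σ n) →
      ((1 - 1 / ((ℓ : ℝ) - 1)) ^ Fintype.card ι - ε) * ((gs F pr n).card : ℝ) -
          ε * (Nat.card F : ℝ) ^ n ≤
        (((gs F pr n).filter fun t => ∀ i, (S i).sol χ pr t = 1).card : ℝ)

/-- **PqRep** (the constituents; 300 lines; uses `StmtPqEqv`; model: PpInd.lean).

Proof. (i) By induction on `finrank W` (as in PpInd.lean: `HypW`, `InfW` for an invariant `A` and for
`W ⧸ A`, and `nSol = 1` for `A` and `W ⧸ A` implies `nSol = 1` for `W`): there are `r ≤ finrank W` and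
irreducible systems `S i`, `i : Fin r`, with `HypW`, such that `InfW` for `W` implies `InfW` for the
`S i`, and `sol (S i) = 1` for all `i` implies `nSol = 1` for `W` (`Fin.append` or `Sum.elim` and an
equivalence for the induction step; better: state it for an index type `ι` with `Fintype.card ι ≤
finrank W`). (ii) Choose a maximal set `R` of indices such that for all `i ≠ j` in `R`,
`HomS (S i) (S j) = ⊥` and `BilS (S i) (S j) = ⊥`. Restrict to `R` (a subtype). If `i ∉ R` then by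
maximality there is a `j ∈ R` such that one of `HomS (S i) (S j)`, `HomS (S j) (S i)`,
`BilS (S i) (S j)`, `BilS (S j) (S i)` is `≠ ⊥`, and `sol (S i) = sol (S j)` by `StmtPqEqv`. -/
def StmtPqRep : Prop :=
  ∀ (F : Type u) [Field F] [Finite F] (ℓ : ℕ) [Fact ℓ.Prime] (_ : ℓ ≠ 2)
    (_ : ℓ ∣ Nat.card F - 1) (χ : F → ZMod ℓ) (_ : IsLg ℓ χ) (V W : Type) [Fintype V]
    [AddCommGroup W] [Module (ZMod ℓ) W] [Finite W] (pr : V → F[X]) (_ : Fam pr)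
    (σ : V → Module.End (ZMod ℓ) W) (Λ : Module.End (ZMod ℓ) W) (_ : HypW χ pr σ Λ),
    ∃ (ι : Type) (_ : Fintype ι) (S : ι → Sys ℓ V), FamS χ pr S ∧
      Fintype.card ι ≤ Module.finrank (ZMod ℓ) W ∧
      ∀ n : ℕ, InfW pr σ n → (∀ i, InfW pr (S i).σ n) ∧
        ∀ t ∈ gs F pr n, (∀ i, (S i).sol χ pr t = 1) → nSol χ pr σ Λ t = 1

/-! ### Connected families -/

/-- **PqCon** (the operators and the forms of a connected family; 250 lines; uses `StmtPqBil`;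
import PpIrr.lean and use `tPpIrr` and its lemmas).

Proof. `B = ∑ b k`, `r i j = ppirr_r ℓ b i j`, `φ i j x = x i - x j`. For an edge `i, j` (at `v`),
`σ v x = e v • x + μ / B * φ i j x • r i j`, `μ ≠ 0` (`ppirr_sig`). (i) Let `κ` commute with the
`σ v`: `φ i j x • κ (r i j) = φ i j (κ x) • r i j` for all `x`; as `φ i j x ≠ 0` for some `x ∈ Vs` (see
PpIrr.lean), `κ (r i j) = λ i j • r i j`, and then `φ i j (κ x) = λ i j * φ i j x` for all `x` (`r i j ≠ 0`).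
Fix an edge `i₀, j₀` (there is one: `s = {0}`), `λ = λ i₀ j₀`, and replace `κ` by `κ - λ`. The kernel
is invariant and contains `r i₀ j₀ ≠ 0`, so `κ = λ` by irreducibility (`tPpIrr`). So
`HomS = {scalars}`, of order `ℓ`. (ii) The symmetric form `h x y = ∑ b i * x i * y i` is in `BilS`
(`sg` is self-adjoint for it: `∑_{i, k} b i b k w i k (x i - x k) y i` is symmetric in `x, y`, also for
`lamV`) and nonzero (`h (r i₀ j₀) y = b i₀ * b j₀ * φ i₀ j₀ y`). By `StmtPqBil` (`tPpIrr` gives the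
irreducibility) `|BilS| = |HomS| = ℓ`. (iii) `|Sk| = 1` is the second part of `tPpIrr`. -/
def StmtPqCon : Prop :=
  ∀ (F : Type u) [Field F] (ℓ : ℕ) [Fact ℓ.Prime] (χ : F → ZMod ℓ) (m : ℕ) (_ : 2 ≤ m)
    (a : Fin m → F[X]) (b : Fin m → ℕ) (_ : ∀ i, ¬ ℓ ∣ b i) (_ : ¬ ℓ ∣ ∑ i, b i) (V : Type)
    (pr : V → F[X])
    (_ : ∀ s : Finset (Fin m), s.Nonempty → s ≠ Finset.univ → ∃ i ∈ s, ∃ j, j ∉ s ∧
      ∃ v, vl ℓ (pr v) (a i - a j) ≠ 0 ∧ ∀ k l, k ≠ l → ¬ (k = i ∧ l = j) → ¬ (k = j ∧ l = i) →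
        vl ℓ (pr v) (a k - a l) = 0)
    (e : V → ZMod ℓ) (S : Sys ℓ V)
    (_ : S = ⟨Vs ℓ b, inferInstance, inferInstance, inferInstance,
      fun v => sigV b a (pr v) (e v), lamV χ b a⟩),
    Nat.card (HomS S S) = ℓ ∧ Nat.card (BilS S S) = ℓ ∧ Nat.card (Sk S.σ S.Λ) = 1

/-- **PqMom** (the moments in the connected case; 80 lines).

Proof. `L ((X - 1) * p) = L (p.comp (C q * X))` for all `p`: for `p = ∏_{i = 1}^a (X - q ^ i)`,
`(X - 1) p = Eq_ q (a + 1)`, `p (q X) = q ^ a Eq_ q a`, and `(a + 1) a / 2 = a + a (a - 1) / 2`; these `p`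
span `ℝ[X]`. For `p = X ^ k`: `L (X ^ (k + 1)) = L (X ^ k) + q ^ k L (X ^ k)`. -/
def StmtPqMom : Prop :=
  ∀ (q : ℝ) (L : ℝ[X] →ₗ[ℝ] ℝ) (_ : ∀ j : ℕ, L (Eq_ q j) = q ^ (j * (j - 1) / 2)) (k : ℕ),
    L (X ^ k) = ∏ i ∈ Finset.range k, (1 + q ^ i)

/-- **PqEul** (the limit in the connected case; 250 lines).

Proof. Let `x = 1 / q ∈ (0, 1)`. As in `StmtPqOneC`, `f_J = ∑_{j ≤ J} (-1) ^ j Eq_ q j / Π_j` with `J` odd
satisfies `f_J (q ^ r) ≤ [r = 0]`, and `L f_J = ∑_{j ≤ J} (-1) ^ j q ^ (j (j - 1) / 2) / ∏_{i = 1}^j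
(q ^ i - 1) = ∑_{j ≤ J} (- x) ^ j / ∏_{i = 1}^j (1 - x ^ i)` (`j (j + 1) / 2 - j (j - 1) / 2 = j`). This
tends to `G x` with `G z = ∑_j (- z) ^ j / ∏_{i = 1}^j (1 - x ^ i)`, absolutely convergent for
`|z| ≤ x` (ratio `z / (1 - x ^ (j + 1)) ≤ x / (1 - x) ≤ 1 / 2`, as `q ≥ 3`). `G z - G (x z) = - z G z`
(the terms get the factor `1 - x ^ j`), so `(1 + z) G z = G (x z)`, and
`G x = G (x ^ (N + 1)) / ∏_{i = 1}^N (1 + x ^ i)`. Multiply numerator and denominator by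
`∏_{i ≤ N} (1 - x ^ i)`: `∏_{i = 1}^N (1 + x ^ i) = ∏_{i = 1}^N (1 - x ^ (2 i)) / ∏_{i = 1}^N (1 - x ^ i)`,
and `∏_{i = 1}^{N} (1 - x ^ i) ≥ ∏_{i ≤ 2 N} (1 - x ^ i) = ∏_{i = 1}^N (1 - x ^ (2 i)) *
∏_{i < N} (1 - x ^ (2 i + 1))`. So
`1 / ∏_{i = 1}^N (1 + x ^ i) ≥ ∏_{i < N} (1 - x ^ (2 i + 1)) ≥ ∏' i, (1 - x ^ (2 i + 1))` (the
finite products decrease and tend to the infinite one, `Multipliable`), and `G (x ^ (N + 1)) → 1`
(`|G z - 1| ≤ 2 |z| / (1 - x)` for small `z`). So `G x ≥ ∏' i, (1 - x ^ (2 i + 1))`. -/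
def StmtPqEul : Prop :=
  ∀ (q : ℝ) (_ : 3 ≤ q) (L : ℝ[X] →ₗ[ℝ] ℝ)
    (_ : ∀ j : ℕ, L (Eq_ q j) = q ^ (j * (j - 1) / 2)) (η : ℝ) (_ : 0 < η),
    ∃ fm : ℝ[X], (∀ r : ℕ, fm.eval (q ^ r) ≤ (if r = 0 then 1 else 0)) ∧
      (∏' i : ℕ, (1 - (q⁻¹) ^ (2 * i + 1))) - η ≤ L fm

end MP72e2e6
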