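import Pool.Agent.Lib.MP_72e2e6_nt.PqStmt

/-!
# Package Pq: an inequality for products
-/

set_option autoImplicit false

namespace MP72e2e6

theorem tPqTel : StmtPqTel := by
  intro ι _ s b y z hb hy hz
  have hy0 : ∀ i, 0 ≤ y i := fun i => (hb i).trans (hy i)
  have hyz : ∀ i, 0 ≤ y i - z i := fun i => sub_nonneg.2 ((hz i).trans (hy i))
  induction s using Finset.induction_on with
  | empty => simp
  | insert i s hi ih =>
    have h1 : ∑ k ∈ insert i s, (y k - z k) * ∏ j ∈ (insert i s).erase k, y j =
        (y i - z i) * ∏ j ∈ s, y j + y i * ∑ k ∈ s, (y k - z k) * ∏ j ∈ s.erase k, y j := by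
      rw [Finset.sum_insert hi, Finset.erase_insert hi, Finset.mul_sum]
      congr 1
      refine Finset.sum_congr rfl fun k hk => ?_
      have hki : k ≠ i := fun h => hi (h ▸ hk)
      rw [Finset.erase_insert_of_ne hki.symm,
        Finset.prod_insert (fun h => hi (Finset.mem_of_mem_erase h))]
      ring
    rw [h1, Finset.prod_insert hi, Finset.prod_insert hi]
    set A := ∏ j ∈ s, y j
    set B := ∏ j ∈ s, b j
    set T := ∑ k ∈ s, (y k - z k) * ∏ j ∈ s.erase k, y j
    have hA : 0 ≤ A := Finset.prod_nonneg fun j _ => hy0 j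
    have hT : 0 ≤ T := Finset.sum_nonneg fun k _ =>
      mul_nonneg (hyz k) (Finset.prod_nonneg fun j _ => hy0 j)
    have h2 : b i * (A - T) ≤ b i * B := mul_le_mul_of_nonneg_left ih (hb i)
    have h3 : z i * A ≤ b i * A := mul_le_mul_of_nonneg_right (hz i) hA
    have h4 : b i * T ≤ y i * T := mul_le_mul_of_nonneg_right (hy i) hT
    linarith

end MP72e2e6
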