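import Pool.Agent.Lib.MP_72e2e6_nt.PrStmt
import Pool.Agent.Lib.MP_72e2e6_nt.PpLnk
import Pool.Agent.Lib.MP_72e2e6_nt.SuSel

/-!
# MP_72e2e6_nt: the exact order of the Selmer group, module PrCnt
-/

namespace MP72e2e6

open Polynomial IsDedekindDomain

universe u

section cnt

variable {F : Type u} [Field F] {ℓ m : ℕ}

theorem prcnt_lc {χ : F → ZMod ℓ} (hχ : IsLg ℓ χ) (hχ1 : χ (-1) = 0) {a : Fin m → F[X]}
    (ha : Function.Injective a) (i k : Fin m) :
    χ (a i - a k).leadingCoeff = χ (a k - a i).leadingCoeff := by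
  by_cases hik : i = k
  · rw [hik]
  · have h1 : (a k - a i).leadingCoeff ≠ 0 :=
      leadingCoeff_ne_zero.2 (sub_ne_zero.2 fun h => hik (ha h).symm)
    rw [← neg_sub (a k) (a i), leadingCoeff_neg, ← neg_one_mul,
      hχ.mul _ _ (neg_ne_zero.2 one_ne_zero) h1, hχ1, zero_add]

/-- the classes of a solution -/
noncomputable def prcntC {b : Fin m → ℕ} {V : Type} {t : Finset F[X]} (c : V → Vs ℓ b)
    (f : t → Vs ℓ b) : V ⊕ Fin t.card → Fin m → ZMod ℓ :=
  Sum.elim (fun v => (c v).1) fun j => (f (t.equivFin.symm j)).1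

/-- the valuations of a solution -/
noncomputable def prcntX {b : Fin m → ℕ} {V : Type} {t : Finset F[X]} (a : Fin m → F[X])
    (pr : V → F[X]) (e : V → ZMod ℓ) (c : V → Vs ℓ b)
    (f : t → Vs ℓ b) (β : V ⊕ Fin t.card) (i : Fin m) : ZMod ℓ :=
  sg b (pplnkRho e t β) (fun i k => vl ℓ (pplnkPr pr t β) (a i - a k)) (prcntC c f β) i

theorem prcnt_good {a : Fin m → F[X]} (ha : Function.Injective a) {V : Type} {pr : V → F[X]}
    (hcov : ∀ P : F[X], P.Monic → Irreducible P → ∀ i j, i ≠ j → P ∣ a i - a j → ∃ v, pr v = P)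
    {t : Finset F[X]} (ht : ∀ P ∈ t, P.Monic ∧ Irreducible P) (htp : ∀ P ∈ t, ∀ v, pr v ≠ P)
    (P : t) (i k : Fin m) (hik : i ≠ k) : vl ℓ P.1 (a i - a k) = 0 := by
  have h1 : ¬ P.1 ∣ a i - a k := by
    intro h
    obtain ⟨v, hv⟩ := hcov P.1 (ht _ P.2).1 (ht _ P.2).2 i k hik h
    exact htp _ P.2 v hv
  rw [vl, if_neg (sub_ne_zero.2 fun h => hik (ha h)), multiplicity_eq_zero.2 h1, Nat.cast_zero]

theorem prcnt_prP {V : Type} (pr : V → F[X]) (t : Finset F[X]) (P : t) :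
    pplnkPr pr t (Sum.inr (t.equivFin P)) = P.1 := by
  simp [pplnkPr]

theorem prcnt_cP {b : Fin m → ℕ} {V : Type} {t : Finset F[X]} (c : V → Vs ℓ b)
    (f : t → Vs ℓ b) (P : t) : prcntC c f (Sum.inr (t.equivFin P)) = (f P).1 := by
  simp [prcntC]

/-- the operator at a good prime -/
theorem prcnt_sgP {a : Fin m → F[X]} (ha : Function.Injective a) {b : Fin m → ℕ} {V : Type}
    {pr : V → F[X]}
    (hcov : ∀ P : F[X], P.Monic → Irreducible P → ∀ i j, i ≠ j → P ∣ a i - a j → ∃ v, pr v = P)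
    {e : V → ZMod ℓ} {t : Finset F[X]} (ht : ∀ P ∈ t, P.Monic ∧ Irreducible P)
    (htp : ∀ P ∈ t, ∀ v, pr v ≠ P) (P : t) (y : Fin m → ZMod ℓ) (i : Fin m) :
    sg b (pplnkRho e t (Sum.inr (t.equivFin P)))
      (fun i k => vl ℓ (pplnkPr pr t (Sum.inr (t.equivFin P))) (a i - a k)) y i = y i := by
  have hρP : pplnkRho e t (Sum.inr (t.equivFin P)) = 1 := rfl
  rw [hρP, prcnt_prP, sg_good (prcnt_good ha hcov ht htp P), one_mul]

/-- a solution satisfies the equations -/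
theorem prcnt_eq {χ : F → ZMod ℓ} (hχ : IsLg ℓ χ) (hχ1 : χ (-1) = 0) {a : Fin m → F[X]}
    (ha : Function.Injective a) {b : Fin m → ℕ} {V : Type} [Fintype V] {pr : V → F[X]}
    (hcov : ∀ P : F[X], P.Monic → Irreducible P → ∀ i j, i ≠ j → P ∣ a i - a j → ∃ v, pr v = P)
    {e : V → ZMod ℓ} {t : Finset F[X]}
    (ht : ∀ P ∈ t, P.Monic ∧ Irreducible P) (htp : ∀ P ∈ t, ∀ v, pr v ≠ P)
    {c : V → Vs ℓ b} {f : t → Vs ℓ b}
    (hS : SolW χ pr (fun v => sigV b a (pr v) (e v)) (lamV χ b a) t c f) :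
    EqL χ b a (pplnkPr pr t) (pplnkRho e t) (prcntX a pr e c f) (prcntC c f) := by
  have hlc := prcnt_lc hχ hχ1 ha
  have hlam : lamV χ b a = sgV b 0 (fun i k => χ (a i - a k).leadingCoeff) hlc := dif_pos hlc
  rw [hlam] at hS
  have hxv : ∀ v i, prcntX a pr e c f (Sum.inl v) i =
      sg b (e v) (fun i k => vl ℓ (pr v) (a i - a k)) (c v).1 i := fun v i => rfl
  have hxP : ∀ (P : t) i, prcntX a pr e c f (Sum.inr (t.equivFin P)) i = (f P).1 i := by
    intro P i
    rw [prcntX, prcnt_sgP ha hcov ht htp, prcnt_cP]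
  have hdv : ∀ (β : V ⊕ Fin t.card) v i, prcntX a pr e c f (Sum.inl v) i -
      sg b (pplnkRho e t (Sum.inl v))
      (fun i k => vl ℓ (pplnkPr pr t (Sum.inl v)) (a i - a k)) (prcntC c f β) i =
      sg b (e v) (fun i k => vl ℓ (pr v) (a i - a k)) ((c v).1 - prcntC c f β) i := by
    intro β v i
    rw [hxv, ← sg_sub]
    rfl
  have hdP : ∀ (β : V ⊕ Fin t.card) (P : t) i, prcntX a pr e c f (Sum.inr (t.equivFin P)) i -
      sg b (pplnkRho e t (Sum.inr (t.equivFin P)))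
      (fun i k => vl ℓ (pplnkPr pr t (Sum.inr (t.equivFin P))) (a i - a k)) (prcntC c f β) i =
      (f P).1 i - prcntC c f β i := by
    intro β P i
    rw [hxP, prcnt_sgP ha hcov ht htp]
  refine ⟨?_, fun β i => rfl, fun i => ?_, ?_⟩
  · rintro (v | j)
    · exact (c v).2
    · exact (f (t.equivFin.symm j)).2
  · have h1 := congrFun (congrArg Subtype.val hS.inf) i
    simp only [Submodule.coe_add, Submodule.coe_sum, Submodule.coe_smul, Pi.add_apply,
      Finset.sum_apply, Pi.smul_apply, smul_eq_mul] at h1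
    rw [pplnk_sum]
    simp only [hxv, hxP, prcnt_prP]
    exact h1
  · intro β i
    rw [pplnk_sum]
    simp only [hdv, hdP]
    simp only [prcnt_prP]
    rcases β with v | j
    · have h1 := congrFun (congrArg Subtype.val (hS.bad v)) i
      simp only [Submodule.coe_add, Submodule.coe_sum, Submodule.coe_smul, Submodule.coe_sub,
        Pi.add_apply, Finset.sum_apply, Pi.smul_apply, Pi.sub_apply, smul_eq_mul] at h1
      exact h1
    · obtain ⟨P, rfl⟩ := t.equivFin.surjective j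
      have h1 := congrFun (congrArg Subtype.val (hS.good P)) i
      simp only [Submodule.coe_add, Submodule.coe_sum, Submodule.coe_smul, Submodule.coe_sub,
        Pi.add_apply, Finset.sum_apply, Pi.smul_apply, Pi.sub_apply, smul_eq_mul] at h1
      simp only [prcnt_prP, prcnt_cP]
      exact h1

/-- a solution is determined by its valuations -/
theorem prcnt_inj {a : Fin m → F[X]} (ha : Function.Injective a) {b : Fin m → ℕ} {V : Type}
    {pr : V → F[X]}
    (hcov : ∀ P : F[X], P.Monic → Irreducible P → ∀ i j, i ≠ j → P ∣ a i - a j → ∃ v, pr v = P)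
    {e : V → ZMod ℓ} (he : ∀ v y, sigV b a (pr v) (e v) y = 0 → y = 0) {t : Finset F[X]}
    (ht : ∀ P ∈ t, P.Monic ∧ Irreducible P) (htp : ∀ P ∈ t, ∀ v, pr v ≠ P)
    {c c' : V → Vs ℓ b} {f f' : t → Vs ℓ b}
    (h : ∀ β i, prcntX a pr e c f β i = prcntX a pr e c' f' β i) : c = c' ∧ f = f' := by
  refine ⟨funext fun v => ?_, funext fun P => ?_⟩
  · refine sub_eq_zero.1 (he v _ ?_)
    rw [map_sub, sub_eq_zero]
    exact Subtype.ext (funext fun i => h (Sum.inl v) i)
  · refine Subtype.ext (funext fun i => ?_)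
    have h1 := h (Sum.inr (t.equivFin P)) i
    rwa [prcntX, prcntX, prcnt_sgP ha hcov ht htp, prcnt_sgP ha hcov ht htp, prcnt_cP,
      prcnt_cP] at h1

open Classical in
theorem tPrCnt.{v} (hPrSel : StmtPrSel.{v}) (hPrInj : StmtPrInj.{v}) : StmtPrCnt.{v} := by
  intro F _ _ ℓ _ hRec hq χ hχ hχ1 m a ha b hb hB V _ pr hpr hcov e he n hI t ht hT hfin
  have hℓ : ℓ.Prime := Fact.out
  have : NeZero ℓ := ⟨hℓ.ne_zero⟩
  obtain ⟨ht1, htp⟩ := pplnk_mem_gs.1 ht
  obtain ⟨htm, htd⟩ := mem_ps.1 ht1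
  have hfam := pplnk_fam hpr htm htp
  have htw := pplnk_twl pr e t
  have hcov' : ∀ P : F[X], P.Monic → Irreducible P → ∀ i j, i ≠ j → P ∣ a i - a j →
      ∃ β, pplnkPr pr t β = P := fun P hP hPi i j hij hd => by
    obtain ⟨v, hv⟩ := hcov P hP hPi i j hij hd
    exact ⟨Sum.inl v, hv⟩
  rw [← htw] at hT hfin ⊢
  set E := twl (pplnkPr pr t) (pplnkRho e t) with hE
  set S := placesSelmer F[X] (RatFunc.inftyValuation F) ℓ (pts E a) b with hS
  set T := torsionGroup ℓ (pts E a) b with hTT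
  let Sol := {x : (V → Vs ℓ b) × (t → Vs ℓ b) //
      SolW χ pr (fun v => sigV b a (pr v) (e v)) (lamV χ b a) t x.1 x.2}
  have hinj := twsel_inj F
  have h0 : ∀ g : F[X], g ≠ 0 → algebraMap F[X] (RatFunc F) g ≠ 0 := fun g hg => by
    rw [Ne, map_eq_zero_iff _ hinj]
    exact hg
  -- the tuple
  let D : Sol → Fin m → (RatFunc F)ˣ := fun s i =>
    Units.mk0 (algebraMap F[X] (RatFunc F)
      (twl (pplnkPr pr t) fun β => prcntX a pr e s.1.1 s.1.2 β i))
      (h0 _ (twl_ne_zero hfam _))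
  have hD : ∀ s i, (D s i : RatFunc F) = algebraMap F[X] (RatFunc F)
      (twl (pplnkPr pr t) fun β => prcntX a pr e s.1.1 s.1.2 β i) := fun s i => rfl
  have hEq : ∀ s : Sol, EqL χ b a (pplnkPr pr t) (pplnkRho e t) (prcntX a pr e s.1.1 s.1.2)
      (prcntC s.1.1 s.1.2) := fun s => prcnt_eq hχ hχ1 ha hcov htm htp s.2
  have hDS : ∀ s, D s ∈ S := fun s =>
    hPrSel F ℓ hℓ hRec hq χ hχ hχ1 m a ha b hb hB _ (pplnkPr pr t) hfam hcov' (pplnkRho e t)
      hT _ _ (hEq s) (D s) (hD s)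
  let Φ : Sol → S ⧸ T.subgroupOf S := fun s => QuotientGroup.mk ⟨D s, hDS s⟩
  have hinf : ∀ c : Fin m → ZMod ℓ, ∑ i, (b i : ZMod ℓ) * c i = 0 →
      (∀ i, ∑ β, ((pplnkPr pr t β).natDegree : ZMod ℓ) *
        sg b (pplnkRho e t β) (fun i k => vl ℓ (pplnkPr pr t β) (a i - a k)) c i = 0) →
      ∀ i, c i = 0 := by
    intro c hc h
    have h1 : (⟨c, hc⟩ : Vs ℓ b) = 0 := by
      refine hI _ (Subtype.ext (funext fun i => ?_))
      have h2 := h i
      rw [pplnk_sum] at h2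
      simp only [prcnt_sgP ha hcov htm htp] at h2
      simp only [prcnt_prP] at h2
      rw [← Finset.sum_mul, ← Nat.cast_sum, Finset.sum_coe_sort t (fun P => P.natDegree),
        htd] at h2
      simp only [Submodule.coe_add, Submodule.coe_sum, Submodule.coe_smul, Pi.add_apply,
        Finset.sum_apply, Pi.smul_apply, smul_eq_mul]
      exact h2
    intro i
    exact congrFun (congrArg Subtype.val h1) i
  have hΦ : Function.Injective Φ := by
    intro s s' h
    have h2 := QuotientGroup.eq.1 h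
    rw [Subgroup.mem_subgroupOf] at h2
    have h3 : D s' / D s ∈ T := by
      rw [div_eq_mul_inv, mul_comm]
      exact h2
    have h4 := hPrInj F ℓ hℓ hq χ hχ m a ha b hB _ (pplnkPr pr t) hfam hcov' (pplnkRho e t) hT
      hinf _ _ (hEq s').inf (hEq s).inf (D s') (D s) (hD s') (hD s) h3
    obtain ⟨h5, h6⟩ := prcnt_inj ha hcov he htm htp h4
    exact Subtype.ext (Prod.ext h5.symm h6.symm)
  rw [Subgroup.relIndex, Subgroup.index] at hfin ⊢
  have : Finite (S ⧸ T.subgroupOf S) := Nat.finite_of_card_ne_zero hfin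
  exact Nat.card_le_card_of_injective Φ hΦ

end cnt

end MP72e2e6
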