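import Pool.Agent.Lib.MP_72e2e6_nt.PrStmt
import Pool.Agent.Lib.MP_72e2e6_nt.SuEq

/-!
# MP_72e2e6_nt: from the equations to valuations and symbols
-/

namespace MP72e2e6

open Polynomial IsDedekindDomain

universe u

theorem preq_sum {ℓ m : ℕ} (b : Fin m → ℕ) (ρ : ZMod ℓ) (w : Fin m → Fin m → ZMod ℓ)
    (hw : ∀ i k, w i k = w k i) (c : Fin m → ZMod ℓ) (hc : ∑ i, (b i : ZMod ℓ) * c i = 0) :
    ∑ i, (b i : ZMod ℓ) * sg b ρ w c i = 0 := by
  have e1 : ∀ i, (b i : ZMod ℓ) * sg b ρ w c i = ρ * ((b i : ZMod ℓ) * c i) +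
      (∑ k, (b k : ZMod ℓ))⁻¹ * ∑ k, (b i : ZMod ℓ) * (b k : ZMod ℓ) * w i k * (c i - c k) := by
    intro i
    unfold sg
    have e2 : ∑ k, (b i : ZMod ℓ) * (b k : ZMod ℓ) * w i k * (c i - c k) =
        (b i : ZMod ℓ) * ∑ k, (b k : ZMod ℓ) * w i k * (c i - c k) := by
      rw [Finset.mul_sum]
      exact Finset.sum_congr rfl fun k _ => by ring
    rw [e2]
    ring
  rw [Finset.sum_congr rfl fun i _ => e1 i, Finset.sum_add_distrib, ← Finset.mul_sum, hc, mul_zero,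
    zero_add, ← Finset.mul_sum]
  have e3 : ∑ i, ∑ k, (b i : ZMod ℓ) * (b k : ZMod ℓ) * w i k * (c i - c k) = 0 := by
    have e4 : ∀ i k, (b i : ZMod ℓ) * (b k : ZMod ℓ) * w i k * (c i - c k) =
        (b i : ZMod ℓ) * (b k : ZMod ℓ) * w i k * c i - (b i : ZMod ℓ) * (b k : ZMod ℓ) * w i k * c k :=
      fun i k => by ring
    simp only [e4, Finset.sum_sub_distrib]
    rw [sub_eq_zero, Finset.sum_comm]
    refine Finset.sum_congr rfl fun i _ => Finset.sum_congr rfl fun k _ => ?_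
    rw [hw k i]
    ring
  rw [e3, mul_zero]

open Classical in
theorem tPrEq.{v} (hSuSy : StmtSuSy.{v}) (hSuFac : StmtSuFac.{v}) (hSuTal : StmtSuTal.{v}) :
    StmtPrEq.{v} := by
  intro F _ _ ℓ hℓ hℓd χ hχ m a hinj b hB ι _ pr hpr hP ρ x c hE
  have : NeZero ℓ := ⟨hℓ.ne_zero⟩
  have hE0 := sueq_twl_ne (ℓ := ℓ) hpr ρ
  obtain ⟨-, -, hSy⟩ := hSuSy F ℓ hℓ hℓd χ hχ
  have hvl : ∀ β, sueq_Add (vl ℓ (pr β)) := fun β g h hg hh =>
    ((hSy (pr β) (hpr.monic β) (hpr.irr β)).1 g h hg hh).1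
  have hsy : ∀ β, sueq_Add (syl χ (pr β)) := fun β g h hg hh =>
    ((hSy (pr β) (hpr.monic β) (hpr.irr β)).1 g h hg hh).2
  have hnd : ∀ P : F[X], P.Monic → Irreducible P → ∀ h : F[X], ¬ P ∣ h → vl ℓ P h = 0 :=
    fun P h1 h2 h hh => ((hSy P h1 h2).2.1 h hh).1
  have hvP : ∀ β, vl ℓ (pr β) (pr β) = 1 := fun β =>
    (hSy (pr β) (hpr.monic β) (hpr.irr β)).2.2.1
  have hdiff : ∀ i k, i ≠ k → ∀ β, syl χ (pr β) (a i - a k) =
      (pr β).natDegree * χ (a i - a k).leadingCoeff +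
        ∑ β', vl ℓ (pr β') (a i - a k) * syl χ (pr β) (pr β') := by
    intro i k hik β
    exact (hSuFac F ℓ hℓ hℓd χ hχ ι pr hpr (a i - a k)
      (sub_ne_zero.2 fun h' => hik (hinj h')) (fun P h1 h2 h3 => hnd P h1 h2 _ fun h4 => by
        obtain ⟨β', hβ'⟩ := hP P h1 h2 i k hik h4
        exact h3 β' hβ')).1 β
  have hvE : ∀ (ρ' : ι → ZMod ℓ) β, vl ℓ (pr β) (twl pr ρ') = ρ' β := by
    intro ρ' β
    rw [sueq_twl (hvl β) hpr ρ', Finset.sum_eq_single β]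
    · rw [hvP, mul_one]
    · intro β' _ hβ'
      rw [hnd _ (hpr.monic β) (hpr.irr β) _ (sueq_ndvd hpr hβ'), mul_zero]
    · intro h
      exact absurd (Finset.mem_univ _) h
  have htal := fun β i => hSuTal F ℓ hℓ hℓd χ hχ m (twl pr ρ) hE0 a hinj b hB (pr β)
    (hpr.monic β) (hpr.irr β) (c β) (hE.mem β) i
  refine ⟨fun β => ?_, fun β i => ?_, fun β i => ?_⟩
  · simp only [hE.val β]
    exact preq_sum b _ _ (vl_symm (pr β) a) _ (hE.mem β)
  · rw [hvE, (htal β i).2.1, hvE]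
    exact hE.val β i
  · rw [(htal β i).2.2, sueq_twl (hsy β) hpr ρ, sueq_twl (hsy β) hpr,
      sueq_sg_congr b _ _ (fun i k => ((pr β).natDegree : ZMod ℓ) * χ (a i - a k).leadingCoeff +
        ∑ β', vl ℓ (pr β') (a i - a k) * syl χ (pr β) (pr β')) (c β) i
        (fun k hk => hdiff i k hk β),
      sueq_sg_expand b ρ (fun β' => syl χ (pr β) (pr β')) ((pr β).natDegree : ZMod ℓ)
        (fun i k => χ (a i - a k).leadingCoeff) (fun β' i k => vl ℓ (pr β') (a i - a k)) (c β) i,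
      ← hE.sym β i, ← Finset.sum_add_distrib]
    exact Finset.sum_congr rfl fun β' _ => by ring

end MP72e2e6
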