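import Pool.Agent.Lib.MP_72e2e6_nt.PrStmt
import Pool.Agent.Lib.MP_72e2e6_nt.PqOneC

/-!
# MP_72e2e6_nt : the limit in the connected case, both bounds
-/

set_option autoImplicit false

namespace MP72e2e6

open Polynomial Filter Topology

/-- the denominators -/
noncomputable def preul_d (x : ℝ) (j : ℕ) : ℝ := ∏ i ∈ Finset.range j, (1 - x ^ (i + 1))

/-- the terms -/
noncomputable def preul_a (x z : ℝ) (j : ℕ) : ℝ := (-z) ^ j / preul_d x j

/-- the series -/
noncomputable def preul_G (x z : ℝ) : ℝ := ∑' j, preul_a x z j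

theorem preul_d_ge {x : ℝ} (h0 : 0 ≤ x) (h1 : x < 1) (j : ℕ) : (1 - x) ^ j ≤ preul_d x j := by
  induction j with
  | zero => simp [preul_d]
  | succ j ih =>
    have e : preul_d x (j + 1) = preul_d x j * (1 - x ^ (j + 1)) := by
      rw [preul_d, Finset.prod_range_succ]
      rfl
    rw [e, pow_succ]
    have h2 : x ^ (j + 1) ≤ x := by
      rw [pow_succ]
      exact mul_le_of_le_one_left h0 (pow_le_one₀ h0 h1.le)
    exact mul_le_mul ih (by linarith) (by linarith) ((pow_nonneg (by linarith) j).trans ih)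

theorem preul_d_pos {x : ℝ} (h0 : 0 ≤ x) (h1 : x < 1) (j : ℕ) : 0 < preul_d x j :=
  (pow_pos (by linarith) j).trans_le (preul_d_ge h0 h1 j)

theorem preul_a_le {x : ℝ} (h0 : 0 ≤ x) (h1 : x < 1) {z : ℝ} (hz : 0 ≤ z) (j : ℕ) :
    ‖preul_a x z j‖ ≤ (z / (1 - x)) ^ j := by
  have hd := preul_d_ge h0 h1 j
  have hp : 0 < (1 - x) ^ j := pow_pos (by linarith) j
  rw [Real.norm_eq_abs, preul_a, abs_div, abs_pow, abs_neg, abs_of_nonneg hz,
    abs_of_pos (hp.trans_le hd), div_pow]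
  exact div_le_div_of_nonneg_left (pow_nonneg hz j) hp hd

theorem preul_summable {x : ℝ} (h0 : 0 ≤ x) (h1 : x ≤ 1 / 3) {z : ℝ} (hz : 0 ≤ z)
    (hzx : z ≤ x) : Summable (preul_a x z) := by
  have hr0 : 0 ≤ z / (1 - x) := div_nonneg hz (by linarith)
  have hr1 : z / (1 - x) < 1 := by
    rw [div_lt_one (by linarith)]
    linarith
  exact Summable.of_norm_bounded (summable_geometric_of_lt_one hr0 hr1)
    fun j => preul_a_le h0 (by linarith) hz j

theorem preul_step {x : ℝ} (h0 : 0 ≤ x) (h1 : x ≤ 1 / 3) {z : ℝ} (hz : 0 ≤ z)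
    (hzx : z ≤ x) : (1 + z) * preul_G x z = preul_G x (x * z) := by
  have hxz : 0 ≤ x * z := mul_nonneg h0 hz
  have hxz2 : x * z ≤ x := mul_le_of_le_one_right h0 (by linarith)
  have s1 := preul_summable h0 h1 hz hzx
  have s2 := preul_summable h0 h1 hxz hxz2
  have e1 : preul_G x z = preul_a x z 0 + ∑' j, preul_a x z (j + 1) := s1.tsum_eq_zero_add
  have e2 : preul_G x (x * z) = preul_a x (x * z) 0 + ∑' j, preul_a x (x * z) (j + 1) :=
    s2.tsum_eq_zero_add
  have e3 : ∑' j, preul_a x z (j + 1) - ∑' j, preul_a x (x * z) (j + 1) = -z * preul_G x z := by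
    rw [← ((summable_nat_add_iff 1).2 s1).tsum_sub ((summable_nat_add_iff 1).2 s2), preul_G,
      ← tsum_mul_left]
    congr 1
    funext j
    have hd : preul_d x j ≠ 0 := (preul_d_pos h0 (by linarith) j).ne'
    have hd2 : 1 - x ^ (j + 1) ≠ 0 := by
      have h2 : x ^ (j + 1) < 1 := pow_lt_one₀ h0 (by linarith) (by omega)
      linarith
    have e : preul_d x (j + 1) = preul_d x j * (1 - x ^ (j + 1)) := by
      rw [preul_d, Finset.prod_range_succ]
      rfl
    rw [preul_a, preul_a, preul_a, e]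
    field_simp
    ring
  have e4 : preul_a x z 0 = preul_a x (x * z) 0 := by simp [preul_a]
  linarith

theorem preul_iter {x : ℝ} (h0 : 0 ≤ x) (h1 : x ≤ 1 / 3) (N : ℕ) :
    (∏ i ∈ Finset.range N, (1 + x ^ (i + 1))) * preul_G x x = preul_G x (x ^ (N + 1)) := by
  induction N with
  | zero => simp
  | succ N ih =>
    have hz : 0 ≤ x ^ (N + 1) := pow_nonneg h0 _
    have hzx : x ^ (N + 1) ≤ x := by
      rw [pow_succ]
      exact mul_le_of_le_one_left h0 (pow_le_one₀ h0 (by linarith))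
    have h2 := preul_step h0 h1 hz hzx
    rw [Finset.prod_range_succ, pow_succ x (N + 1), mul_comm (x ^ (N + 1)) x, ← h2, ← ih]
    ring

theorem preul_near {x : ℝ} (h0 : 0 ≤ x) (h1 : x ≤ 1 / 3) {z : ℝ} (hz : 0 ≤ z)
    (hzx : z ≤ x) : |preul_G x z - 1| ≤ z / (1 - x) * 2 := by
  have s1 := preul_summable h0 h1 hz hzx
  have e1 : preul_G x z = preul_a x z 0 + ∑' j, preul_a x z (j + 1) := s1.tsum_eq_zero_add
  have e0 : preul_a x z 0 = 1 := by simp [preul_a, preul_d]
  rw [e1, e0, add_sub_cancel_left]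
  have hr0 : 0 ≤ z / (1 - x) := div_nonneg hz (by linarith)
  have hr1 : z / (1 - x) ≤ 1 / 2 := by
    rw [div_le_iff₀ (by linarith)]
    linarith
  rw [← Real.norm_eq_abs]
  refine tsum_of_norm_bounded (hasSum_geometric_two.mul_left (z / (1 - x))) fun j => ?_
  refine (preul_a_le h0 (by linarith) hz (j + 1)).trans ?_
  rw [pow_succ, mul_comm]
  exact mul_le_mul_of_nonneg_left (pow_le_pow_left₀ hr0 hr1 j) hr0

theorem preul_prod {x : ℝ} (h0 : 0 ≤ x) (h1 : x < 1) (N : ℕ) :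
    (∏ i ∈ Finset.range N, (1 + x ^ (i + 1))) * (∏ i ∈ Finset.range N, (1 - x ^ (2 * i + 1))) =
      ∏ i ∈ Finset.range N, (1 - x ^ (N + 1 + i)) := by
  induction N with
  | zero => simp
  | succ N ih =>
    have hne : 1 - x ^ (N + 1) ≠ 0 := by
      have h2 : x ^ (N + 1) < 1 := pow_lt_one₀ h0 h1 (by omega)
      linarith
    have e1 : (∏ i ∈ Finset.range (N + 1), (1 - x ^ (N + 1 + 1 + i))) * (1 - x ^ (N + 1)) =
        (∏ i ∈ Finset.range N, (1 - x ^ (N + 1 + i))) * (1 - x ^ (2 * N + 1)) *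
          (1 - x ^ (2 * N + 2)) := by
      have e2 : ∏ i ∈ Finset.range (N + 1 + 1), (1 - x ^ (N + 1 + i)) =
          (∏ i ∈ Finset.range (N + 1), (1 - x ^ (N + 1 + (i + 1)))) * (1 - x ^ (N + 1)) :=
        Finset.prod_range_succ' (fun i => 1 - x ^ (N + 1 + i)) (N + 1)
      have e5 : ∏ i ∈ Finset.range (N + 1), (1 - x ^ (N + 1 + 1 + i)) =
          ∏ i ∈ Finset.range (N + 1), (1 - x ^ (N + 1 + (i + 1))) :=
        Finset.prod_congr rfl fun i _ => by rw [show N + 1 + 1 + i = N + 1 + (i + 1) by ring]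
      rw [e5, ← e2, Finset.prod_range_succ, Finset.prod_range_succ,
        show N + 1 + (N + 1) = 2 * N + 2 by ring, show N + 1 + N = 2 * N + 1 by ring]
    apply mul_right_cancel₀ hne
    rw [e1, Finset.prod_range_succ, Finset.prod_range_succ, ← ih]
    ring

theorem preul_lower {x : ℝ} (h0 : 0 ≤ x) (h1 : x < 1) (N M : ℕ) :
    1 - x ^ (N + 1) / (1 - x) * (1 - x ^ M) ≤ ∏ i ∈ Finset.range M, (1 - x ^ (N + 1 + i)) := by
  induction M with
  | zero => simp
  | succ M ih =>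
    rw [Finset.prod_range_succ]
    have h2 : x ^ (N + 1 + M) ≤ 1 := pow_le_one₀ h0 h1.le
    have h3 : 0 ≤ x ^ (N + 1 + M) := pow_nonneg h0 _
    have h4 : x ^ M ≤ 1 := pow_le_one₀ h0 h1.le
    have h5 : 0 ≤ x ^ (N + 1) / (1 - x) * (1 - x ^ M) :=
      mul_nonneg (div_nonneg (pow_nonneg h0 _) (by linarith)) (by linarith)
    have h6 : (1 - x ^ (N + 1) / (1 - x) * (1 - x ^ M)) * (1 - x ^ (N + 1 + M)) ≤
        (∏ i ∈ Finset.range M, (1 - x ^ (N + 1 + i))) * (1 - x ^ (N + 1 + M)) :=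
      mul_le_mul_of_nonneg_right ih (by linarith)
    refine le_trans ?_ h6
    have h7 : x ^ (N + 1) / (1 - x) * (1 - x ^ (M + 1)) =
        x ^ (N + 1) / (1 - x) * (1 - x ^ M) + x ^ (N + 1 + M) := by
      have : 1 - x ≠ 0 := by linarith
      field_simp
      ring
    rw [h7]
    nlinarith [mul_nonneg h5 h3]

theorem preul_upper {x : ℝ} (h0 : 0 ≤ x) (h1 : x < 1) (N M : ℕ) :
    ∏ i ∈ Finset.range M, (1 - x ^ (N + 1 + i)) ≤ 1 := by
  apply Finset.prod_le_one
  · intro i _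
    have : x ^ (N + 1 + i) ≤ 1 := pow_le_one₀ h0 h1.le
    linarith
  · intro i _
    have : 0 ≤ x ^ (N + 1 + i) := pow_nonneg h0 _
    linarith

theorem preul_tendsto_pow {x : ℝ} (h0 : 0 ≤ x) (h1 : x < 1) (c : ℝ) :
    Tendsto (fun N : ℕ => c * x ^ (N + 1)) atTop (𝓝 0) := by
  have h2 := (tendsto_pow_atTop_nhds_zero_of_lt_one h0 h1).comp (tendsto_add_atTop_nat 1)
  have h3 := h2.const_mul c
  rw [mul_zero] at h3
  exact h3

theorem preul_G_eq {x : ℝ} (h0 : 0 ≤ x) (h1 : x ≤ 1 / 3) :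
    preul_G x x = ∏' i : ℕ, (1 - x ^ (2 * i + 1)) := by
  have hx1 : x < 1 := by linarith
  have hm : Multipliable fun i : ℕ => (1 - x ^ (2 * i + 1)) := by
    have hs : Summable fun i : ℕ => -x ^ (2 * i + 1) := by
      apply Summable.neg
      have h2 : Summable fun i : ℕ => x * (x ^ 2) ^ i := (summable_geometric_of_lt_one
        (pow_nonneg h0 2) (pow_lt_one₀ h0 hx1 (by norm_num))).mul_left x
      refine h2.congr fun i => ?_
      rw [← pow_mul, pow_succ, mul_comm]
    have h3 := Real.multipliable_one_add_of_summable hs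
    refine h3.congr fun i => ?_
    ring
  have t1 := hm.hasProd.tendsto_prod_nat
  have t2 : Tendsto (fun N : ℕ => ∏ i ∈ Finset.range N, (1 - x ^ (N + 1 + i))) atTop (𝓝 1) := by
    have h4 : Tendsto (fun N : ℕ => 1 - (1 - x)⁻¹ * x ^ (N + 1)) atTop (𝓝 (1 - 0)) :=
      (tendsto_const_nhds).sub (preul_tendsto_pow h0 hx1 _)
    rw [sub_zero] at h4
    refine tendsto_of_tendsto_of_tendsto_of_le_of_le h4 tendsto_const_nhds (fun N => ?_)
      (fun N => preul_upper h0 hx1 N N)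
    refine le_trans ?_ (preul_lower h0 hx1 N N)
    have h5 : 0 ≤ x ^ (N + 1) / (1 - x) := div_nonneg (pow_nonneg h0 _) (by linarith)
    have h6 : 0 ≤ x ^ N := pow_nonneg h0 _
    have h7 : (1 - x)⁻¹ * x ^ (N + 1) = x ^ (N + 1) / (1 - x) := by
      rw [div_eq_mul_inv, mul_comm]
    simp only [h7]
    nlinarith [mul_nonneg h5 h6]
  have t3 : Tendsto (fun N : ℕ => preul_G x (x ^ (N + 1))) atTop (𝓝 1) := by
    rw [tendsto_iff_dist_tendsto_zero]
    have h4 := preul_tendsto_pow h0 hx1 (2 / (1 - x))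
    refine squeeze_zero (fun N => dist_nonneg) (fun N => ?_) h4
    have hz : 0 ≤ x ^ (N + 1) := pow_nonneg h0 _
    have hzx : x ^ (N + 1) ≤ x := by
      rw [pow_succ]
      exact mul_le_of_le_one_left h0 (pow_le_one₀ h0 (by linarith))
    have h5 := preul_near h0 h1 hz hzx
    rw [Real.dist_eq]
    refine h5.trans (le_of_eq ?_)
    ring
  have e : ∀ N : ℕ, preul_G x x * ∏ i ∈ Finset.range N, (1 - x ^ (N + 1 + i)) =
      preul_G x (x ^ (N + 1)) * ∏ i ∈ Finset.range N, (1 - x ^ (2 * i + 1)) := by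
    intro N
    rw [← preul_prod h0 hx1, ← preul_iter h0 h1]
    ring
  have t4 := (t2.const_mul (preul_G x x))
  have t5 := t3.mul t1
  simp only [e] at t4
  have h8 := tendsto_nhds_unique t4 t5
  rw [mul_one, one_mul] at h8
  exact h8

theorem tPrEul : StmtPrEul := by
  intro q hq L hL η hη
  have hq0 : (0 : ℝ) < q := by linarith
  have hq1 : (1 : ℝ) < q := by linarith
  obtain ⟨x, hx⟩ : ∃ x : ℝ, x = q⁻¹ := ⟨_, rfl⟩
  have h0 : 0 ≤ x := by rw [hx]; exact inv_nonneg.2 hq0.le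
  have h1 : x ≤ 1 / 3 := by
    rw [hx, one_div]
    exact inv_anti₀ (by norm_num) hq
  have hxq : q * x = 1 := by rw [hx]; exact mul_inv_cancel₀ hq0.ne'
  have hw : ∀ j, L (Eq_ q j) = (x ^ j / preul_d x j) *
      ∏ i ∈ Finset.range j, (q ^ (i + 1) - 1) := by
    intro j
    rw [hL]
    have hpi : ∏ i ∈ Finset.range j, (q ^ (i + 1) - 1) =
        q ^ (j * (j + 1) / 2) * preul_d x j := by
      induction j with
      | zero => simp [preul_d]
      | succ j ih =>
        have e1 : (j + 1) * (j + 1 + 1) / 2 = j * (j + 1) / 2 + (j + 1) := by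
          have : (j + 1) * (j + 1 + 1) = j * (j + 1) + (j + 1) * 2 := by ring
          rw [this, Nat.add_mul_div_right _ _ (by norm_num)]
        have e2 : preul_d x (j + 1) = preul_d x j * (1 - x ^ (j + 1)) := by
          rw [preul_d, Finset.prod_range_succ]
          rfl
        rw [Finset.prod_range_succ, ih, e1, e2, pow_add]
        have e3 : q ^ (j + 1) * x ^ (j + 1) = 1 := by rw [← mul_pow, hxq, one_pow]
        linear_combination (q ^ (j * (j + 1) / 2) * preul_d x j) * e3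
    have hd : preul_d x j ≠ 0 := (preul_d_pos h0 (by linarith) j).ne'
    have e4 : j * (j + 1) / 2 = j * (j - 1) / 2 + j := by
      rcases j with _ | j
      · rfl
      · have : (j + 1) * (j + 1 + 1) = (j + 1) * (j + 1 - 1) + (j + 1) * 2 := by
          rw [Nat.add_sub_cancel]
          ring
        rw [this, Nat.add_mul_div_right _ _ (by norm_num)]
    rw [hpi, e4, pow_add]
    have e5 : q ^ j * x ^ j = 1 := by rw [← mul_pow, hxq, one_pow]
    field_simp
    linear_combination (-1 : ℝ) * e5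
  have hsum := (preul_summable h0 h1 h0 le_rfl).hasSum.tendsto_sum_nat
  have hG : (∑' j, preul_a x x j) = ∏' i : ℕ, (1 - x ^ (2 * i + 1)) := preul_G_eq h0 h1
  rw [hG] at hsum
  obtain ⟨N, hN⟩ := (Metric.tendsto_atTop.1 hsum) η hη
  have hLf : ∀ J, L (pqonec_f q J) = ∑ j ∈ Finset.range (J + 1), preul_a x x j := by
    intro J
    rw [pqonec_L hq1 L (fun j => x ^ j / preul_d x j) hw]
    apply Finset.sum_congr rfl
    intro j _
    rw [preul_a, neg_pow]
    ring
  have hb : ∀ J, N ≤ J + 1 → |L (pqonec_f q J) - ∏' i : ℕ, (1 - (q⁻¹) ^ (2 * i + 1))| < η := by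
    intro J hJ
    have h2 := hN (J + 1) hJ
    rw [Real.dist_eq] at h2
    rw [hLf, ← hx]
    exact h2
  refine ⟨pqonec_f q (2 * N + 1), pqonec_f q (2 * N), fun r => ⟨pqonec_odd hq1 N r,
    pqonec_even hq1 N r⟩, ?_, ?_⟩
  · have := abs_lt.1 (hb (2 * N + 1) (by omega))
    linarith [this.1]
  · have := abs_lt.1 (hb (2 * N) (by omega))
    linarith [this.2]

end MP72e2e6
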