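import Pool.Agent.Lib.MP_72e2e6_nt.PrStmt
import Pool.Agent.Lib.MP_72e2e6_nt.Comp

/-!
# MP_72e2e6_nt: lifting to a closed point of the curve
-/

namespace MP72e2e6

open Polynomial Module

universe u

section prhen

variable {M : Type u} [NontriviallyNormedField M]
  {L : Type u} [NontriviallyNormedField L] [IsUltrametricDist L] [NormedAlgebra M L]

theorem prhen_le {x : L} (hx : ‖x‖ ≤ 1) (O : ValuationSubring M) (hO : ∀ y : O, ‖(y : M)‖ ≤ 1)
    (h : O[X]) : ‖aeval x (h.map (algebraMap O M))‖ ≤ 1 := by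
  rw [aeval_eq_sum_range]
  refine IsUltrametricDist.norm_sum_le_of_forall_le_of_nonneg zero_le_one fun i _ => ?_
  rw [Algebra.smul_def, norm_mul, norm_pow, norm_algebraMap', coeff_map]
  exact mul_le_one₀ (hO _) (by positivity) (pow_le_one₀ (norm_nonneg _) hx)

theorem prhen_lt {x : L} (hx : ‖x‖ ≤ 1) (O : ValuationSubring M) (h : O[X])
    (hc : ∀ i, ‖((h.coeff i : O) : M)‖ < 1) : ‖aeval x (h.map (algebraMap O M))‖ < 1 := by
  rw [aeval_eq_sum_range]
  obtain ⟨i, -, hi⟩ := IsUltrametricDist.exists_norm_finsetSum_le_of_nonempty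
    (t := Finset.range ((h.map (algebraMap O M)).natDegree + 1)) ⟨0, by simp⟩
    (fun i => (h.map (algebraMap O M)).coeff i • x ^ i)
  refine lt_of_le_of_lt hi ?_
  rw [Algebra.smul_def, norm_mul, norm_pow, norm_algebraMap', coeff_map]
  exact mul_lt_one_of_nonneg_of_lt_one_left (norm_nonneg _) (hc i)
    (pow_le_one₀ (norm_nonneg _) hx)

theorem prhen_root {x : L} (O : ValuationSubring M) (hO : ∀ y : O, ‖(y : M)‖ ≤ 1)
    (u : O[X]) (hu : u.Monic) (hx : aeval x (u.map (algebraMap O M)) = 0) : ‖x‖ ≤ 1 := by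
  by_contra hgt
  rw [not_le] at hgt
  have hxpos : 0 < ‖x‖ := lt_trans one_pos hgt
  have hm : (u.map (algebraMap O M)).Monic := hu.map _
  rw [aeval_eq_sum_range, Finset.sum_range_succ, hm.coeff_natDegree, one_smul] at hx
  rcases Nat.eq_zero_or_pos (u.map (algebraMap O M)).natDegree with h0 | hpos
  · rw [h0, Finset.sum_range_zero, zero_add, pow_zero] at hx
    exact one_ne_zero hx
  · obtain ⟨n, hn⟩ : ∃ n, (u.map (algebraMap O M)).natDegree = n + 1 :=
      ⟨_, (Nat.succ_pred_eq_of_pos hpos).symm⟩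
    rw [hn] at hx
    have h1 : ‖∑ i ∈ Finset.range (n + 1), (u.map (algebraMap O M)).coeff i • x ^ i‖ ≤
        ‖x‖ ^ n := by
      refine IsUltrametricDist.norm_sum_le_of_forall_le_of_nonneg (by positivity)
        fun i hi => ?_
      rw [Algebra.smul_def, norm_mul, norm_pow, norm_algebraMap', coeff_map]
      have hin : i ≤ n := Nat.lt_succ_iff.1 (Finset.mem_range.1 hi)
      calc _ ≤ 1 * ‖x‖ ^ n := by
            refine mul_le_mul (hO _) (pow_le_pow_right₀ hgt.le hin) (by positivity) zero_le_one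
        _ = _ := one_mul _
    have h2 : x ^ (n + 1) =
        -∑ i ∈ Finset.range (n + 1), (u.map (algebraMap O M)).coeff i • x ^ i :=
      eq_neg_of_add_eq_zero_right hx
    have h3 : ‖x‖ ^ (n + 1) ≤ ‖x‖ ^ n := by
      rw [← norm_pow, h2, norm_neg]
      exact h1
    exact absurd h3 (not_le.2 (pow_lt_pow_right₀ hgt (Nat.lt_succ_self n)))

theorem prhen_core [CompleteSpace M] [FiniteDimensional M L] (p : ℕ) [Fact p.Prime] [CharP M p]
    (ℓ : ℕ) (hcop : ℓ.Coprime p) (O : ValuationSubring M) (hO : ∀ y : O, ‖(y : M)‖ ≤ 1)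
    {k : Type u} [Field k] (π : O →+* k) (hπ : ∀ y, π y = 0 → ‖(y : M)‖ < 1)
    (u f₀ r₀ g₀ s₀ t₀ : O[X]) (hu : u.Monic) (x : L)
    (hx : aeval x (u.map (algebraMap O M)) = 0)
    (h1 : (f₀ - r₀ ^ ℓ - u * g₀).map π = 0) (h2 : (s₀ * f₀ + t₀ * u - 1).map π = 0) :
    ∃ w : L, aeval x (f₀.map (algebraMap O M)) = w ^ ℓ := by
  have hcompl : CompleteSpace L := FiniteDimensional.complete M L
  have hcharL : CharP L p := charP_of_injective_algebraMap (algebraMap M L).injective p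
  have hx1 : ‖x‖ ≤ 1 := prhen_root O hO u hu hx
  obtain ⟨ev, hev⟩ : ∃ ev : O[X] →+* L, ∀ h, ev h = aeval x (h.map (algebraMap O M)) :=
    ⟨((aeval x : M[X] →ₐ[M] L) : M[X] →+* L).comp (mapRingHom (algebraMap O M)), fun h => rfl⟩
  have hle : ∀ h, ‖ev h‖ ≤ 1 := fun h => by
    rw [hev]
    exact prhen_le hx1 O hO h
  have hlt : ∀ h : O[X], h.map π = 0 → ‖ev h‖ < 1 := fun h hh => by
    rw [hev]
    refine prhen_lt hx1 O h fun i => hπ _ ?_
    rw [← coeff_map, hh, coeff_zero]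
  have hu0 : ev u = 0 := by rw [hev, hx]
  have h3 := hlt _ h1
  rw [map_sub, map_sub, map_mul, hu0, zero_mul, sub_zero, map_pow] at h3
  have h4 := hlt _ h2
  rw [map_sub, map_add, map_mul, map_mul, hu0, mul_zero, add_zero, map_one] at h4
  have h5 : ‖ev s₀ * ev f₀‖ = 1 := norm_eq_one_of_sub norm_one h4
  have hf1 : ‖ev f₀‖ = 1 := by
    refine le_antisymm (hle _) ?_
    rw [norm_mul] at h5
    calc (1 : ℝ) = ‖ev s₀‖ * ‖ev f₀‖ := h5.symm
      _ ≤ 1 * ‖ev f₀‖ := mul_le_mul_of_nonneg_right (hle _) (norm_nonneg _)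
      _ = _ := one_mul _
  have hr1 : ‖ev r₀ ^ ℓ‖ = 1 := norm_eq_one_of_sub hf1 (by rw [norm_sub_rev]; exact h3)
  have hr0 : ev r₀ ^ ℓ ≠ 0 := by
    intro h
    rw [h, norm_zero] at hr1
    exact zero_ne_one hr1
  obtain ⟨z, hz, -⟩ := exists_pow_eq_of_principal p hcop (y := ev f₀ / ev r₀ ^ ℓ) (by
    rw [div_sub_one hr0, norm_div, hr1, div_one]
    exact h3)
  refine ⟨ev r₀ * z, ?_⟩
  rw [← hev, mul_pow, hz, mul_div_cancel₀ _ hr0]

end prhen

/-- The polynomials over the residue field are coprime. -/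
theorem prhen_coprime {k : Type u} [Field k] {m : ℕ} (a : Fin m → k) (b : Fin m → ℕ) (R : k[X])
    (hR : Irreducible R) (ha : ∀ i, R.eval (a i) ≠ 0) :
    IsCoprime R (∏ i, (X - C (a i)) ^ b i) := by
  rw [hR.coprime_iff_not_dvd]
  intro h
  obtain ⟨i, -, hi⟩ := (Prime.dvd_finsetProd_iff hR.prime _).1 h
  obtain ⟨c, hc⟩ := hR.prime.dvd_of_dvd_pow hi
  have h1 : IsUnit c := by
    rcases (irreducible_X_sub_C (a i)).isUnit_or_isUnit hc with h | h
    · exact absurd h hR.not_isUnit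
    · exact h
  have h2 : R.eval (a i) * c.eval (a i) = 0 := by
    rw [← eval_mul, ← hc, eval_sub, eval_X, eval_C, sub_self]
  have h3 : c.eval (a i) ≠ 0 := by
    have := h1.map (evalRingHom (a i))
    exact this.ne_zero
  exact (mul_ne_zero (ha i) h3) h2

theorem prhen_main {M : Type u} [NontriviallyNormedField M] [IsUltrametricDist M]
    [CompleteSpace M] (p : ℕ) [Fact p.Prime] [CharP M p]
    (ℓ : ℕ) (hcop : ℓ.Coprime p) (O : ValuationSubring M) (hO : ∀ y : O, ‖(y : M)‖ ≤ 1)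
    {k : Type u} [Field k] (π : O →+* k) (hs : Function.Surjective π)
    (hπ : ∀ y, π y = 0 → ‖(y : M)‖ < 1) (m : ℕ) (A : Fin m → O)
    (b : Fin m → ℕ) (R r : k[X]) (hRm : R.Monic) (hR : Irreducible R)
    (hd : R ∣ ∏ i, (X - C (π (A i))) ^ b i - r ^ ℓ) (hA : ∀ i, R.eval (π (A i)) ≠ 0) :
    ∃ (u : O[X]) (w : M[X]), u.Monic ∧ u.map π = R ∧
      u.map (algebraMap O M) ∣ ∏ i, (X - C (A i : M)) ^ b i - w ^ ℓ := by
  have hsurj : Function.Surjective (Polynomial.map π) := Polynomial.map_surjective π hs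
  obtain ⟨u, hu1, -, hu3⟩ := lifts_and_natDegree_eq_and_monic (f := π) (p := R)
    ((mem_lifts R).2 (hsurj R)) hRm
  obtain ⟨r₀, hr₀⟩ := hsurj r
  obtain ⟨g, hg⟩ := hd
  obtain ⟨g₀, hg₀⟩ := hsurj g
  obtain ⟨t, s, hts⟩ := prhen_coprime (fun i => π (A i)) b R hR hA
  obtain ⟨s₀, hs₀⟩ := hsurj s
  obtain ⟨t₀, ht₀⟩ := hsurj t
  obtain ⟨f₀, hf₀⟩ : ∃ f₀ : O[X], f₀ = ∏ i, (X - C (A i)) ^ b i := ⟨_, rfl⟩
  have hf₀π : f₀.map π = ∏ i, (X - C (π (A i))) ^ b i := by
    rw [hf₀, Polynomial.map_prod]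
    simp only [Polynomial.map_pow, Polynomial.map_sub, map_X, map_C]
  have hf₀M : f₀.map (algebraMap O M) = ∏ i, (X - C (A i : M)) ^ b i := by
    rw [hf₀, Polynomial.map_prod]
    simp only [Polynomial.map_pow, Polynomial.map_sub, map_X, map_C]
    rfl
  have huirr : Irreducible u := hu3.irreducible_of_irreducible_map π u (by rw [hu1]; exact hR)
  have hu' : Irreducible (u.map (algebraMap O M)) :=
    (hu3.irreducible_iff_irreducible_map_fraction_map (K := M)).1 huirr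
  have hum : (u.map (algebraMap O M)).Monic := hu3.map _
  obtain ⟨u', hu'd⟩ : ∃ u', u' = u.map (algebraMap O M) := ⟨_, rfl⟩
  rw [← hu'd] at hu' hum
  have hfact : Fact (Irreducible u') := ⟨hu'⟩
  have hfin : FiniteDimensional M (AdjoinRoot u') := hum.finite_adjoinRoot
  let : NontriviallyNormedField (AdjoinRoot u') :=
    spectralNorm.nontriviallyNormedField M (AdjoinRoot u')
  let : NormedAlgebra M (AdjoinRoot u') := spectralNorm.normedAlgebra M (AdjoinRoot u')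
  have : IsUltrametricDist (AdjoinRoot u') :=
    IsUltrametricDist.isUltrametricDist_of_isNonarchimedean_norm
      (isNonarchimedean_spectralNorm (K := M) (L := AdjoinRoot u'))
  obtain ⟨W, hW⟩ := prhen_core p ℓ hcop O hO π hπ u f₀ r₀ g₀ s₀ t₀ hu3 (AdjoinRoot.root u') (by
      rw [← hu'd, AdjoinRoot.aeval_eq, AdjoinRoot.mk_self]) (by
      rw [Polynomial.map_sub, Polynomial.map_sub, Polynomial.map_mul, Polynomial.map_pow, hf₀π,
        hr₀, hu1, hg₀, hg, sub_self]) (by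
      rw [Polynomial.map_sub, Polynomial.map_add, Polynomial.map_mul, Polynomial.map_mul, hf₀π,
        hs₀, hu1, ht₀, Polynomial.map_one, add_comm, hts, sub_self])
  obtain ⟨w, hw⟩ := AdjoinRoot.mk_surjective (g := u') W
  refine ⟨u, w, hu3, hu1, ?_⟩
  rw [← hu'd, ← AdjoinRoot.mk_eq_zero, map_sub, map_pow, hw, ← hf₀M, ← AdjoinRoot.aeval_eq]
  exact sub_eq_zero.2 hW

open scoped Valued in
theorem tPrHen : StmtPrHen.{u} := by
  intro M k _ _ _ p _ _ ℓ hcop hnt _ π hs hπ m A b R r hRm hR hd hA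
  obtain ⟨hr⟩ := nonempty_rankOne hnt
  let : NontriviallyNormedField M :=
    Valued.toNontriviallyNormedField M (WithZero (Multiplicative ℤ))
  have hv : ∀ x y : M, ‖x‖ ≤ ‖y‖ ↔ Valued.v x ≤ Valued.v y :=
    fun x y => Valued.toNormedField.norm_le_iff
  have hlt : ∀ x : M, ‖x‖ < 1 ↔ Valued.v x < 1 := by
    intro x
    have h2 := hv 1 x
    rw [norm_one, map_one] at h2
    rw [← not_le, h2, not_le]
  have hle : ∀ x : M, ‖x‖ ≤ 1 ↔ Valued.v x ≤ 1 := by
    intro x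
    have h2 := hv x 1
    rwa [norm_one, map_one] at h2
  exact prhen_main p ℓ hcop _ (fun y => (hle _).2 y.2) π hs
    (fun y hy => (hlt _).2 ((hπ y).1 hy)) m A b R r hRm hR hd hA

end MP72e2e6
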