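import Pool.Agent.Lib.MP_72e2e6_nt.PrStmt
import Pool.Agent.Lib.MP_72e2e6_nt.SuEq

/-!
# MP_72e2e6_nt: different solutions give different classes
-/

namespace MP72e2e6

open Polynomial IsDedekindDomain

universe u

/-- The degree modulo `ℓ`. -/
noncomputable def prinj_D {F : Type u} [Field F] (ℓ : ℕ) (h : F[X]) : ZMod ℓ :=
  (h.natDegree : ZMod ℓ)

/-- The degree modulo `ℓ` is additive. -/
theorem prinj_deg {F : Type u} [Field F] {ℓ : ℕ} : sueq_Add (prinj_D (F := F) ℓ) :=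
  fun g h hg hh => by
  unfold prinj_D
  rw [natDegree_mul hg hh, Nat.cast_add]

theorem prinj_tal_zero {F : Type u} [Field F] {ℓ m : ℕ} [NeZero ℓ] (b : Fin m → ℕ) (E : F[X])
    (a : Fin m → F[X]) (c : Fin m → ZMod ℓ) (hc : ∀ i, c i = 0) (i : Fin m) :
    tal b E a c i = 1 := by
  unfold tal
  refine Finset.prod_eq_one fun k _ => ?_
  rw [hc i, hc k, sub_self, mul_zero, zero_mul, ZMod.val_zero, pow_zero]

open Classical in
theorem tPrInj.{v} (hSuSy : StmtSuSy.{v}) (hSuFac : StmtSuFac.{v}) (hSuTal : StmtSuTal.{v}) :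
    StmtPrInj.{v} := by
  intro F _ _ ℓ hℓ hℓd χ hχ m a hinj b hB ι _ pr hpr hP ρ hT hI x x' hx hx' d d' hd hd' hdd
  have : NeZero ℓ := ⟨hℓ.ne_zero⟩
  have hE0 := sueq_twl_ne (ℓ := ℓ) hpr ρ
  obtain ⟨-, -, hSy⟩ := hSuSy F ℓ hℓ hℓd χ hχ
  have hvl : ∀ β, sueq_Add (vl ℓ (pr β)) := fun β g h hg hh =>
    ((hSy (pr β) (hpr.monic β) (hpr.irr β)).1 g h hg hh).1
  have hnd : ∀ P : F[X], P.Monic → Irreducible P → ∀ h : F[X], ¬ P ∣ h → vl ℓ P h = 0 :=
    fun P h1 h2 h hh => ((hSy P h1 h2).2.1 h hh).1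
  have hvP : ∀ β, vl ℓ (pr β) (pr β) = 1 := fun β =>
    (hSy (pr β) (hpr.monic β) (hpr.irr β)).2.2.1
  have hvE : ∀ (ρ' : ι → ZMod ℓ) β, vl ℓ (pr β) (twl pr ρ') = ρ' β := by
    intro ρ' β
    rw [sueq_twl (hvl β) hpr ρ', Finset.sum_eq_single β]
    · rw [hvP, mul_one]
    · intro β' _ hβ'
      rw [hnd _ (hpr.monic β) (hpr.irr β) _ (sueq_ndvd hpr hβ'), mul_zero]
    · intro h
      exact absurd (Finset.mem_univ _) h
  -- the torsion class
  obtain ⟨c, hc, hz⟩ := hT.ex _ hdd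
  have htal0 : ∀ i, tal b (twl pr ρ) a c i ≠ 0 := fun i =>
    (hSuTal F ℓ hℓ hℓd χ hχ m (twl pr ρ) hE0 a hinj b hB X monic_X irreducible_X c hc i).1
  -- the relation between polynomials
  have hrel : ∀ i, ∃ f g : F[X], f ≠ 0 ∧ g ≠ 0 ∧
      (twl pr fun β => x β i) * g ^ ℓ = (twl pr fun β => x' β i) * tal b (twl pr ρ) a c i * f ^ ℓ := by
    intro i
    obtain ⟨z, hz⟩ := hz i
    have e1 : (d i : RatFunc F) = (d' i : RatFunc F) *
        (algebraMap F[X] (RatFunc F) (tal b (twl pr ρ) a c i) * z ^ ℓ) := by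
      rw [← hz, Pi.div_apply, Units.val_div_eq_div_val, mul_div_cancel₀ _ (Units.ne_zero _)]
    have hz0 : z ≠ 0 := by
      rintro rfl
      rw [zero_pow hℓ.ne_zero, mul_zero, mul_zero] at e1
      exact (d i).ne_zero e1
    refine ⟨z.num, z.denom, RatFunc.num_ne_zero hz0, RatFunc.denom_ne_zero z, ?_⟩
    apply RatFunc.algebraMap_injective F
    have hden : algebraMap F[X] (RatFunc F) z.denom ≠ 0 :=
      RatFunc.algebraMap_ne_zero (RatFunc.denom_ne_zero z)
    have e2 : z * algebraMap F[X] (RatFunc F) z.denom = algebraMap F[X] (RatFunc F) z.num :=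
      (eq_div_iff hden).1 (RatFunc.num_div_denom z).symm
    rw [hd, hd'] at e1
    rw [map_mul, map_mul, map_mul, map_pow, map_pow, ← e2, mul_pow, e1]
    ring
  -- the degrees
  have hdeg : ∀ i, ((tal b (twl pr ρ) a c i).natDegree : ZMod ℓ) = 0 := by
    intro i
    obtain ⟨f, g, hf, hg, h⟩ := hrel i
    have hD := prinj_deg (F := F) (ℓ := ℓ)
    have h1 := congrArg (prinj_D ℓ) h
    rw [hD _ _ (sueq_twl_ne hpr _) (pow_ne_zero _ hg), hD _ _ (mul_ne_zero (sueq_twl_ne hpr _)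
      (htal0 i)) (pow_ne_zero _ hf), hD _ _ (sueq_twl_ne hpr _) (htal0 i), sueq_pow hD hg,
      sueq_pow hD hf, sueq_twl hD hpr, sueq_twl hD hpr, ZMod.natCast_self, zero_mul, zero_mul,
      add_zero, add_zero] at h1
    have e1 : ∀ y : ι → Fin m → ZMod ℓ, ∑ β, ((pr β).natDegree : ZMod ℓ) * y β i = 0 →
        ∑ β, y β i * ((pr β).natDegree : ZMod ℓ) = 0 := fun y hy => by
      rw [← hy]
      exact Finset.sum_congr rfl fun β _ => mul_comm _ _
    have h2 : (0 : ZMod ℓ) = 0 + ((tal b (twl pr ρ) a c i).natDegree : ZMod ℓ) := by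
      rw [← e1 x (hx i)]
      conv_rhs => rw [e1 x (hx i), ← e1 x' (hx' i)]
      exact h1
    rw [zero_add] at h2
    exact h2.symm
  have hc0 : ∀ i, c i = 0 := by
    refine hI c hc fun i => ?_
    have hfac := (hSuFac F ℓ hℓ hℓd χ hχ ι pr hpr (tal b (twl pr ρ) a c i) (htal0 i)
      (fun P h1 h2 h3 => by
        have hvlP : sueq_Add (vl ℓ P) := fun g h hg hh => ((hSy P h1 h2).1 g h hg hh).1
        rw [(hSuTal F ℓ hℓ hℓd χ hχ m (twl pr ρ) hE0 a hinj b hB P h1 h2 c hc i).2.1]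
        have e1 : vl ℓ P (twl pr ρ) = 0 := by
          rw [sueq_twl hvlP hpr ρ]
          refine Finset.sum_eq_zero fun β _ => ?_
          rw [hnd P h1 h2, mul_zero]
          intro h4
          exact h3 β (eq_of_monic_of_associated h1 (hpr.monic β)
            (h2.associated_of_dvd (hpr.irr β) h4)).symm
        have e2 : ∑ k, (b k : ZMod ℓ) * vl ℓ P (a i - a k) * (c i - c k) = 0 := by
          refine Finset.sum_eq_zero fun k _ => ?_
          by_cases hk : i = k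
          · rw [hk, sub_self (c k), mul_zero]
          · rw [hnd P h1 h2 (a i - a k), mul_zero, zero_mul]
            intro h4
            obtain ⟨β, hβ⟩ := hP P h1 h2 i k hk h4
            exact h3 β hβ
        unfold sg
        rw [e1, zero_mul, zero_add, e2, mul_zero])).2.1
    rw [hdeg i] at hfac
    rw [hfac]
    refine Finset.sum_congr rfl fun β _ => ?_
    rw [(hSuTal F ℓ hℓ hℓd χ hχ m (twl pr ρ) hE0 a hinj b hB (pr β) (hpr.monic β) (hpr.irr β) c
      hc i).2.1, hvE]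
  intro β i
  obtain ⟨f, g, hf, hg, h⟩ := hrel i
  rw [prinj_tal_zero b _ a c hc0 i, mul_one] at h
  have h1 := congrArg (vl ℓ (pr β)) h
  rw [hvl β _ _ (sueq_twl_ne hpr _) (pow_ne_zero _ hg), hvl β _ _ (sueq_twl_ne hpr _)
    (pow_ne_zero _ hf), sueq_pow (hvl β) hg, sueq_pow (hvl β) hf, hvE, hvE, ZMod.natCast_self,
    zero_mul, zero_mul, add_zero, add_zero] at h1
  exact h1

end MP72e2e6
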