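import Pool.Agent.Lib.MP_72e2e6_nt.PrStmt
import Pool.Agent.Lib.MP_72e2e6_nt.GComp

/-!
# MP_72e2e6_nt: the residue map of the completion at a finite place
-/

namespace MP72e2e6

open Polynomial IsDedekindDomain WithZero

universe u

section

variable {F : Type u} [Field F] (v : HeightOneSpectrum F[X])

/-- The polynomials inside the completion. -/
noncomputable def prpiMap : F[X] →+* v.adicCompletion (RatFunc F) :=
  (algebraMap (RatFunc F) (v.adicCompletion (RatFunc F))).comp (algebraMap F[X] (RatFunc F))

theorem prpi_le (h : F[X]) :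
    (Valued.v (prpiMap v h) : WithZero (Multiplicative ℤ)) ≤ 1 := by
  rw [prpiMap, RingHom.comp_apply, valued_adic]
  exact v.valuation_le_one h

theorem prpi_lt (P : F[X]) (hP : v.asIdeal = Ideal.span {P}) (h : F[X]) :
    (Valued.v (prpiMap v h) : WithZero (Multiplicative ℤ)) < 1 ↔ P ∣ h := by
  rw [prpiMap, RingHom.comp_apply, valued_adic]
  have h1 := HeightOneSpectrum.valuation_lt_one_iff_mem (K := RatFunc F) v h
  rw [hP, Ideal.mem_span_singleton] at h1
  exact h1

theorem prpi_ex (y : v.adicCompletion (RatFunc F))
    (hy : (Valued.v y : WithZero (Multiplicative ℤ)) ≤ 1) :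
    ∃ h : F[X], (Valued.v (y - prpiMap v h) : WithZero (Multiplicative ℤ)) < 1 := by
  have hopen : IsOpen {z : v.adicCompletion (RatFunc F) | Valued.v (y - z) < 1} := by
    have h1 := Valued.isOpen_ball (v.adicCompletion (RatFunc F))
      (1 : MonoidWithZeroHom.ValueGroup₀ (.ofClass
        (Valued.v : Valuation (v.adicCompletion (RatFunc F)) (WithZero (Multiplicative ℤ)))))
    have h2 := h1.preimage (continuous_const.sub continuous_id : Continuous
      fun z : v.adicCompletion (RatFunc F) => y - z)
    convert h2 using 1
    ext z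
    simp
  obtain ⟨x, hx⟩ := (HeightOneSpectrum.denseRange_algebraMap (RatFunc F) v).exists_mem_open
    hopen ⟨y, by simp⟩
  have hx' : Valued.v (y - algebraMap (RatFunc F) (v.adicCompletion (RatFunc F)) x) < 1 := hx
  have hvX : Valued.v (algebraMap (RatFunc F) (v.adicCompletion (RatFunc F)) x) ≤ 1 := by
    have h1 : algebraMap (RatFunc F) (v.adicCompletion (RatFunc F)) x =
        y - (y - algebraMap (RatFunc F) (v.adicCompletion (RatFunc F)) x) := by ring
    rw [h1]
    exact (Valuation.map_sub _ _ _).trans (max_le hy (le_of_lt hx'))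
  rw [valued_adic] at hvX
  obtain ⟨h, hh⟩ := v.exists_valuation_sub_lt_of_integer hvX 1
  refine ⟨h, ?_⟩
  have h3 : y - prpiMap v h =
      (y - algebraMap (RatFunc F) (v.adicCompletion (RatFunc F)) x) -
        algebraMap (RatFunc F) (v.adicCompletion (RatFunc F))
          (algebraMap F[X] (RatFunc F) h - x) := by
    rw [map_sub, prpiMap, RingHom.comp_apply]
    ring
  rw [h3]
  refine lt_of_le_of_lt (Valuation.map_sub _ _ _) (max_lt hx' ?_)
  rw [valued_adic]
  simpa using hh

end

/-- **PrPi.** -/
theorem tPrPi : StmtPrPi.{u} := by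
  intro F _ v P hP hv
  classical
  set O := (Valued.v : Valuation (v.adicCompletion (RatFunc F))
        (WithZero (Multiplicative ℤ))).valuationSubring with hO
  have hle : ∀ y : O, Valued.v (y : v.adicCompletion (RatFunc F)) ≤ 1 := fun y => y.2
  have hex : ∀ y : O, ∃ h : F[X],
      Valued.v ((y : v.adicCompletion (RatFunc F)) - prpiMap v h) < 1 :=
    fun y => prpi_ex v y (hle y)
  choose f hf using hex
  have hind : ∀ (y : O) (h : F[X]),
      Valued.v ((y : v.adicCompletion (RatFunc F)) - prpiMap v h) < 1 →
        AdjoinRoot.mk P (f y) = AdjoinRoot.mk P h := by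
    intro y h hh
    rw [AdjoinRoot.mk_eq_mk, ← prpi_lt v P hv]
    have h1 : prpiMap v (f y - h) =
        ((y : v.adicCompletion (RatFunc F)) - prpiMap v h) - (y - prpiMap v (f y)) := by
      rw [map_sub]
      ring
    rw [h1]
    exact lt_of_le_of_lt (Valuation.map_sub _ _ _) (max_lt hh (hf y))
  let π : O →+* AdjoinRoot P :=
    { toFun := fun y => AdjoinRoot.mk P (f y)
      map_one' := by
        rw [hind 1 1 (by simp), map_one]
      map_zero' := by
        rw [hind 0 0 (by simp), map_zero]
      map_add' := by
        intro x y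
        rw [hind (x + y) (f x + f y), map_add]
        have h1 : ((x + y : O) : v.adicCompletion (RatFunc F)) - prpiMap v (f x + f y) =
            ((x : v.adicCompletion (RatFunc F)) - prpiMap v (f x)) +
              ((y : v.adicCompletion (RatFunc F)) - prpiMap v (f y)) := by
          rw [map_add]
          push_cast
          ring
        rw [h1]
        exact lt_of_le_of_lt (Valuation.map_add _ _ _) (max_lt (hf x) (hf y))
      map_mul' := by
        intro x y
        rw [hind (x * y) (f x * f y), map_mul]
        have h1 : ((x * y : O) : v.adicCompletion (RatFunc F)) - prpiMap v (f x * f y) =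
            (x : v.adicCompletion (RatFunc F)) *
                ((y : v.adicCompletion (RatFunc F)) - prpiMap v (f y)) +
              prpiMap v (f y) * ((x : v.adicCompletion (RatFunc F)) - prpiMap v (f x)) := by
          rw [map_mul]
          push_cast
          ring
        rw [h1]
        refine lt_of_le_of_lt (Valuation.map_add _ _ _) (max_lt ?_ ?_)
        · rw [map_mul]
          exact mul_lt_one_of_nonneg_of_lt_one_right (hle x) zero_le (hf y)
        · rw [map_mul]
          exact mul_lt_one_of_nonneg_of_lt_one_right (prpi_le v _) zero_le (hf x) }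
  have hπ : ∀ (y : O) (h : F[X]),
      Valued.v ((y : v.adicCompletion (RatFunc F)) - prpiMap v h) < 1 →
        π y = AdjoinRoot.mk P h := hind
  have hπ2 : ∀ (h : F[X]) (y : O),
        (y : v.adicCompletion (RatFunc F)) =
          algebraMap (RatFunc F) (v.adicCompletion (RatFunc F))
            (algebraMap F[X] (RatFunc F) h) → π y = AdjoinRoot.mk P h := by
    intro h y hy
    refine hπ y h ?_
    have h1 : (y : v.adicCompletion (RatFunc F)) = prpiMap v h := hy
    rw [h1, sub_self, map_zero]
    exact zero_lt_one
  refine ⟨π, ?_, ?_, hπ2⟩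
  · intro z
    obtain ⟨h, rfl⟩ := AdjoinRoot.mk_surjective z
    exact ⟨⟨prpiMap v h, prpi_le v h⟩, hπ2 h _ rfl⟩
  · intro y
    have h1 : π y = AdjoinRoot.mk P (f y) := rfl
    rw [h1, AdjoinRoot.mk_eq_zero, ← prpi_lt v P hv]
    constructor
    · intro h2
      have h3 : (y : v.adicCompletion (RatFunc F)) = (y - prpiMap v (f y)) + prpiMap v (f y) := by
        ring
      rw [h3]
      exact lt_of_le_of_lt (Valuation.map_add _ _ _) (max_lt (hf y) h2)
    · intro h2
      have h3 : prpiMap v (f y) = (y : v.adicCompletion (RatFunc F)) - (y - prpiMap v (f y)) := by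
        ring
      rw [h3]
      exact lt_of_le_of_lt (Valuation.map_sub _ _ _) (max_lt h2 (hf y))

end MP72e2e6
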