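import Pool.Agent.Lib.MP_72e2e6_nt.PrStmt

/-!
# MP_72e2e6_nt: powers of a system
-/

set_option autoImplicit false

namespace MP72e2e6

open Polynomial

universe u

section pow

variable {ℓ : ℕ} {V W : Type} [AddCommGroup W] [Module (ZMod ℓ) W]

/-- The operator on `k` copies. -/
def prpow_op (k : ℕ) (g : Module.End (ZMod ℓ) W) : Module.End (ZMod ℓ) (Fin k → W) :=
  LinearMap.pi fun p => g ∘ₗ LinearMap.proj p

theorem prpow_op_apply (k : ℕ) (g : Module.End (ZMod ℓ) W) (y : Fin k → W) (p : Fin k) :
    prpow_op k g y p = g (y p) := rfl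

variable {F : Type u} [Field F] [Fintype V] (χ : F → ZMod ℓ) (pr : V → F[X])
  (σ : V → Module.End (ZMod ℓ) W) (Λ : Module.End (ZMod ℓ) W) (k : ℕ)

theorem prpow_hyp (h : HypW χ pr σ Λ) :
    HypW χ pr (fun v => prpow_op k (σ v)) (prpow_op k Λ) := by
  refine ⟨fun v y hy => ?_, fun v y => ?_⟩
  · funext p
    exact h.inj v (y p) (congrFun hy p)
  · funext p
    have h1 := h.com v (y p)
    simp only [prpow_op_apply, Finset.sum_apply, Pi.add_apply, Pi.smul_apply]
    exact h1

theorem prpow_inf (n : ℕ) (h : InfW pr σ n) : InfW pr (fun v => prpow_op k (σ v)) n := by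
  intro y hy
  funext p
  refine h (y p) ?_
  have h1 := congrFun hy p
  simp only [prpow_op_apply, Finset.sum_apply, Pi.add_apply, Pi.smul_apply] at h1
  exact h1

theorem prpow_iff (t : Finset F[X]) (c : V → (Fin k → W)) (f : t → (Fin k → W)) :
    SolW χ pr (fun v => prpow_op k (σ v)) (prpow_op k Λ) t c f ↔
      ∀ p, SolW χ pr σ Λ t (fun v => c v p) (fun P => f P p) := by
  constructor
  · intro h p
    refine ⟨?_, fun v => ?_, fun P => ?_⟩
    · have h1 := congrFun h.inf p
      simp only [prpow_op_apply, Finset.sum_apply, Pi.add_apply, Pi.smul_apply] at h1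
      exact h1
    · have h1 := congrFun (h.bad v) p
      simp only [prpow_op_apply, Finset.sum_apply, Pi.add_apply, Pi.smul_apply, Pi.sub_apply] at h1
      exact h1
    · have h1 := congrFun (h.good P) p
      simp only [prpow_op_apply, Finset.sum_apply, Pi.add_apply, Pi.smul_apply, Pi.sub_apply] at h1
      exact h1
  · intro h
    refine ⟨?_, fun v => ?_, fun P => ?_⟩
    · funext p
      simp only [prpow_op_apply, Finset.sum_apply, Pi.add_apply, Pi.smul_apply]
      exact (h p).inf
    · funext p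
      simp only [prpow_op_apply, Finset.sum_apply, Pi.add_apply, Pi.smul_apply, Pi.sub_apply]
      exact (h p).bad v
    · funext p
      simp only [prpow_op_apply, Finset.sum_apply, Pi.add_apply, Pi.smul_apply, Pi.sub_apply]
      exact (h p).good P

theorem prpow_card (t : Finset F[X]) :
    nSol χ pr (fun v => prpow_op k (σ v)) (prpow_op k Λ) t = nSol χ pr σ Λ t ^ k := by
  have e : {x : (V → (Fin k → W)) × (t → (Fin k → W)) //
      SolW χ pr (fun v => prpow_op k (σ v)) (prpow_op k Λ) t x.1 x.2} ≃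
      (Fin k → {x : (V → W) × (t → W) // SolW χ pr σ Λ t x.1 x.2}) :=
    { toFun := fun x p => ⟨(fun v => x.1.1 v p, fun P => x.1.2 P p),
        (prpow_iff χ pr σ Λ k t x.1.1 x.1.2).1 x.2 p⟩
      invFun := fun z => ⟨(fun v p => (z p).1.1 v, fun P p => (z p).1.2 P),
        (prpow_iff χ pr σ Λ k t _ _).2 fun p => (z p).2⟩
      left_inv := fun x => rfl
      right_inv := fun z => rfl }
  rw [nSol, nSol, Nat.card_congr e, Nat.card_fun, Nat.card_fin]

end pow

theorem tPrPow.{v} : StmtPrPow.{v} := by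
  intro F _ ℓ V _ χ pr S k
  exact ⟨fun h => prpow_hyp χ pr S.σ S.Λ k h, fun n h => prpow_inf pr S.σ k n h,
    fun t => prpow_card χ pr S.σ S.Λ k t⟩

end MP72e2e6
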