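import Pool.Agent.Lib.MP_72e2e6_nt.PrStmt

/-!
# MP_72e2e6_nt: powers in the completion at a finite place, the converse (PrPwF)
-/

set_option autoImplicit false

namespace MP72e2e6

open Polynomial IsDedekindDomain

universe u

open scoped Valued in
/-- elements which are near `1` are powers -/
theorem prpwf_root {M : Type u} [Field M] [Valued M (WithZero (Multiplicative ℤ))]
    [CompleteSpace M] (hnt : ∃ x : M, Valued.v x ≠ 0 ∧ Valued.v x ≠ 1) (p : ℕ) [Fact p.Prime]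
    [CharP M p] {N : ℕ} (hN : N.Coprime p) {y : M} (hy : Valued.v (y - 1) < 1) :
    ∃ z : M, z ^ N = y := by
  obtain ⟨hr⟩ := nonempty_rankOne hnt
  let : NontriviallyNormedField M :=
    Valued.toNontriviallyNormedField M (WithZero (Multiplicative ℤ))
  have hv : ∀ x y : M, ‖x‖ ≤ ‖y‖ ↔ Valued.v x ≤ Valued.v y :=
    fun x y => Valued.toNormedField.norm_le_iff
  have hlt : ∀ x : M, ‖x‖ < 1 ↔ Valued.v x < 1 := by
    intro x
    have h2 := hv 1 x
    rw [norm_one, map_one] at h2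
    rw [← not_le, h2, not_le]
  obtain ⟨z, hz, -⟩ := exists_pow_eq_of_principal p hN ((hlt _).2 hy)
  exact ⟨z, hz⟩

/-- the characteristic of a finite field with `ℓ`-th roots of unity -/
theorem prpwf_cop {F : Type u} [Field F] [Finite F] {ℓ : ℕ} (hℓ : ℓ.Prime)
    (hℓF : ℓ ∣ Nat.card F - 1) {p : ℕ} [CharP F p] : p.Prime ∧ ℓ.Coprime p := by
  have h0 := Fintype.ofFinite F
  obtain ⟨r, hp, hr⟩ := FiniteField.card F p
  have hcard : Nat.card F = p ^ (r : ℕ) := by rw [Nat.card_eq_fintype_card, hr]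
  have hcard1 : 1 < Nat.card F := Finite.one_lt_card
  refine ⟨hp, ?_⟩
  rw [Nat.coprime_primes hℓ hp]
  rintro rfl
  have h1 : ℓ ∣ Nat.card F := by
    rw [hcard]
    exact dvd_pow_self _ r.ne_zero
  have h2 : ℓ ∣ 1 := by
    have h3 := (Nat.dvd_sub h1 hℓF)
    rwa [Nat.sub_sub_self hcard1.le] at h3
  exact hℓ.one_lt.ne' (Nat.dvd_one.1 h2)

theorem tPrPwF (hSuSy : StmtSuSy.{u}) : StmtPrPwF.{u} := by
  classical
  intro F _ _ ℓ hℓ hℓF χ hχ v P hP hPi hv h h0 hvl hsy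
  obtain ⟨p, hpc⟩ := CharP.exists F
  obtain ⟨hp, hcop⟩ := prpwf_cop (p := p) hℓ hℓF
  have hpf : Fact p.Prime := ⟨hp⟩
  have hcharK : CharP (RatFunc F) p :=
    charP_of_injective_algebraMap (algebraMap F (RatFunc F)).injective p
  have hcharM : CharP (v.adicCompletion (RatFunc F)) p :=
    charP_of_injective_algebraMap
      (algebraMap (RatFunc F) (v.adicCompletion (RatFunc F))).injective p
  set φ : F[X] → v.adicCompletion (RatFunc F) := fun h =>
    algebraMap (RatFunc F) (v.adicCompletion (RatFunc F)) (algebraMap F[X] (RatFunc F) h) with hφ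
  have hφmul : ∀ g h, φ (g * h) = φ g * φ h := fun g h => by simp only [hφ, map_mul]
  have hφsub : ∀ g h, φ (g - h) = φ g - φ h := fun g h => by simp only [hφ, map_sub]
  have hφpow : ∀ g (n : ℕ), φ (g ^ n) = φ g ^ n := fun g h => by simp only [hφ, map_pow]
  have hφle : ∀ h, Valued.v (φ h) ≤ 1 := by
    intro h
    rw [hφ, valued_adic]
    exact v.valuation_le_one h
  have hφlt : ∀ h, Valued.v (φ h) < 1 ↔ P ∣ h := by
    intro h
    rw [hφ, valued_adic, v.valuation_lt_one_iff_mem, hv, Ideal.mem_span_singleton]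
  have hφone : ∀ h, ¬ P ∣ h → Valued.v (φ h) = 1 := fun h hh =>
    le_antisymm (hφle h) (not_lt.1 fun h2 => hh ((hφlt h).1 h2))
  have hprime : Prime P := hPi.prime
  -- the part prime to `P`
  have hfin : FiniteMultiplicity P h := FiniteMultiplicity.of_prime_left hprime h0
  obtain ⟨g, hg, hPg⟩ := hfin.exists_eq_pow_mul_and_not_dvd
  obtain ⟨n, hn⟩ : ℓ ∣ multiplicity P h := by
    rw [vl, if_neg h0] at hvl
    exact (ZMod.natCast_eq_zero_iff _ _).1 hvl
  obtain ⟨-, -, hS⟩ := hSuSy F ℓ hℓ hℓF χ hχ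
  obtain ⟨-, hS2, -⟩ := hS P hP hPi
  obtain ⟨-, -, hS3, hS4⟩ := hS2 g hPg
  have hsg : syl χ P g = 0 := by
    rw [hS3, ← hsy, syl]
    congr 2
    rw [eq_comm]
    nth_rewrite 1 [hg]
    exact mul_divByMonic_cancel_left g (hP.pow _)
  obtain ⟨z, hz⟩ := hS4.1 hsg
  obtain ⟨f, rfl⟩ := AdjoinRoot.mk_surjective z
  rw [← map_pow, AdjoinRoot.mk_eq_mk] at hz
  have hPf : ¬ P ∣ f := by
    intro h1
    apply hPg
    have h2 : g = (g - f ^ ℓ) + f ^ ℓ := by ring
    rw [h2]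
    exact dvd_add hz (dvd_pow h1 hℓ.ne_zero)
  have hf0 : φ f ≠ 0 := by
    intro h1
    have h2 := hφone f hPf
    rw [h1, map_zero] at h2
    exact zero_ne_one h2
  have hnear : Valued.v (φ g / φ f ^ ℓ - 1) < 1 := by
    have h1 : φ g / φ f ^ ℓ - 1 = φ (g - f ^ ℓ) / φ f ^ ℓ := by
      rw [hφsub, hφpow]
      field_simp
    rw [h1, map_div₀, map_pow, hφone f hPf, one_pow, div_one, hφlt]
    exact hz
  obtain ⟨w, hw⟩ := prpwf_root (nontriv_adic (K := RatFunc F) v) p hcop hnear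
  refine ⟨φ P ^ n * (φ f * w), ?_⟩
  have h1 : φ h = φ P ^ (ℓ * n) * φ g := by
    rw [← hφpow, ← hφmul, ← hn, ← hg]
  have h2 : φ g = φ f ^ ℓ * w ^ ℓ := by
    rw [hw]
    field_simp
  change φ h = _
  rw [h1, h2, mul_pow, mul_pow, ← pow_mul, mul_comm n ℓ]

end MP72e2e6
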