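import Pool.Agent.Lib.MP_72e2e6_nt.PrStmt

/-!
# MP_72e2e6_nt: powers in the completion at infinity, the converse (PrPwI)
-/

set_option autoImplicit false

namespace MP72e2e6

open Polynomial IsDedekindDomain

universe u

open scoped Valued in
/-- elements which are near `1` are powers -/
theorem prpwi_root {M : Type u} [Field M] [Valued M (WithZero (Multiplicative ℤ))]
    [CompleteSpace M] (hnt : ∃ x : M, Valued.v x ≠ 0 ∧ Valued.v x ≠ 1) (p : ℕ) [Fact p.Prime]
    [CharP M p] {N : ℕ} (hN : N.Coprime p) {y : M} (hy : Valued.v (y - 1) < 1) :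
    ∃ z : M, z ^ N = y := by
  obtain ⟨hr⟩ := nonempty_rankOne hnt
  let : NontriviallyNormedField M :=
    Valued.toNontriviallyNormedField M (WithZero (Multiplicative ℤ))
  have hv : ∀ x y : M, ‖x‖ ≤ ‖y‖ ↔ Valued.v x ≤ Valued.v y :=
    fun x y => Valued.toNormedField.norm_le_iff
  have hlt : ∀ x : M, ‖x‖ < 1 ↔ Valued.v x < 1 := by
    intro x
    have h2 := hv 1 x
    rw [norm_one, map_one] at h2
    rw [← not_le, h2, not_le]
  obtain ⟨z, hz, -⟩ := exists_pow_eq_of_principal p hN ((hlt _).2 hy)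
  exact ⟨z, hz⟩

/-- the characteristic of a finite field with `ℓ`-th roots of unity -/
theorem prpwi_cop {F : Type u} [Field F] [Finite F] {ℓ : ℕ} (hℓ : ℓ.Prime)
    (hℓF : ℓ ∣ Nat.card F - 1) {p : ℕ} [CharP F p] : p.Prime ∧ ℓ.Coprime p := by
  have h0 := Fintype.ofFinite F
  obtain ⟨r, hp, hr⟩ := FiniteField.card F p
  have hcard : Nat.card F = p ^ (r : ℕ) := by rw [Nat.card_eq_fintype_card, hr]
  have hcard1 : 1 < Nat.card F := Finite.one_lt_card
  refine ⟨hp, ?_⟩
  rw [Nat.coprime_primes hℓ hp]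
  rintro rfl
  have h1 : ℓ ∣ Nat.card F := by
    rw [hcard]
    exact dvd_pow_self _ r.ne_zero
  have h2 : ℓ ∣ 1 := by
    have h3 := (Nat.dvd_sub h1 hℓF)
    rwa [Nat.sub_sub_self hcard1.le] at h3
  exact hℓ.one_lt.ne' (Nat.dvd_one.1 h2)

open Classical in
theorem tPrPwI : StmtPrPwI.{u} := by
  intro F _ _ ℓ hℓ hℓF χ hχ h h0 hdeg hlc
  obtain ⟨p, hpc⟩ := CharP.exists F
  obtain ⟨hp, hcop⟩ := prpwi_cop (p := p) hℓ hℓF
  have hpf : Fact p.Prime := ⟨hp⟩
  have hcharK : CharP (RatFunc F) p :=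
    charP_of_injective_algebraMap (algebraMap F (RatFunc F)).injective p
  have hcharM : CharP (RatFunc.inftyValuation F).Completion p :=
    charP_of_injective_algebraMap
      (algebraMap (RatFunc F) (RatFunc.inftyValuation F).Completion).injective p
  have hinj : Function.Injective (algebraMap F[X] (RatFunc F)) :=
    RatFunc.algebraMap_injective F
  have hval : ∀ p : F[X], p ≠ 0 → RatFunc.inftyValuation F (algebraMap F[X] (RatFunc F) p) =
      WithZero.exp (p.natDegree : ℤ) := fun p hp => RatFunc.inftyValuation.polynomial F hp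
  set A := algebraMap (RatFunc F) (RatFunc.inftyValuation F).Completion with hA
  set B := algebraMap F[X] (RatFunc F) with hB
  obtain ⟨n, hn⟩ : ℓ ∣ h.natDegree := (ZMod.natCast_eq_zero_iff _ _).1 hdeg
  have hlc0 : h.leadingCoeff ≠ 0 := leadingCoeff_ne_zero.2 h0
  obtain ⟨α, hα⟩ := (hχ.ker _ hlc0).1 hlc
  have hα0 : α ≠ 0 := by
    rintro rfl
    rw [zero_pow hℓ.ne_zero] at hα
    exact hlc0 hα
  set g₀ : F[X] := C α * X ^ n with hg₀
  have hg₀0 : g₀ ≠ 0 := mul_ne_zero (C_ne_zero.2 hα0) (pow_ne_zero _ X_ne_zero)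
  have hg0 : g₀ ^ ℓ ≠ 0 := pow_ne_zero _ hg₀0
  have hgd : (g₀ ^ ℓ).natDegree = h.natDegree := by
    rw [natDegree_pow, hg₀, natDegree_C_mul_X_pow n α hα0, hn]
  have hgl : (g₀ ^ ℓ).leadingCoeff = h.leadingCoeff := by
    rw [leadingCoeff_pow, hg₀, leadingCoeff_C_mul_X_pow, hα]
  have hlt : (h - g₀ ^ ℓ).degree < h.degree :=
    degree_sub_lt (by rw [degree_eq_natDegree h0, degree_eq_natDegree hg0, hgd]) h0 hgl.symm
  have hBg : A (B g₀) ≠ 0 := by
    rw [Ne, map_eq_zero_iff _ A.injective, map_eq_zero_iff _ hinj]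
    exact hg₀0
  have hnear : Valued.v (A (B h) / A (B g₀) ^ ℓ - 1) < 1 := by
    have h1 : A (B h) / A (B g₀) ^ ℓ - 1 = A (B (h - g₀ ^ ℓ) / B (g₀ ^ ℓ)) := by
      rw [map_div₀, map_sub B, map_sub A, map_pow B, map_pow A]
      field_simp
    rw [h1, hA, valued_comp, map_div₀]
    rcases eq_or_ne (h - g₀ ^ ℓ) 0 with h2 | h2
    · rw [h2, map_zero, map_zero, zero_div]
      exact zero_lt_one
    · have h3 : (h - g₀ ^ ℓ).natDegree < h.natDegree := by
        rw [degree_eq_natDegree h2, degree_eq_natDegree h0] at hlt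
        exact_mod_cast hlt
      rw [hval _ h2, hval _ hg0, ← WithZero.exp_sub, ← WithZero.exp_zero, WithZero.exp_lt_exp, hgd]
      omega
  have hnt : ∃ y : (RatFunc.inftyValuation F).Completion, Valued.v y ≠ 0 ∧ Valued.v y ≠ 1 := by
    refine nontriv_comp (RatFunc.inftyValuation F) (x := RatFunc.X) ?_
    rw [RatFunc.inftyValuation.X, ← WithZero.exp_zero, WithZero.exp_lt_exp]
    norm_num
  obtain ⟨w, hw⟩ := prpwi_root hnt p hcop hnear
  refine ⟨A (B g₀) * w, ?_⟩
  rw [mul_pow, hw]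
  field_simp

end MP72e2e6
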