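import Pool.Agent.Lib.MP_72e2e6_nt.PrStmt

/-!
# The points over a finite field

A proof of `StmtPrRes`: for distinct elements `α i` of a finite field `k` and exponents `s i` with
`∑ b i * s i = 0` there is a monic irreducible `R` with `χ ((-1) ^ deg R * R (α i)) = s i`, modulo
which `∏ (X - α i) ^ b i` is an `ℓ`-th power.
-/

namespace MP72e2e6

open Polynomial

universe u

/-- The norm modulo `X - α` is the value at `α`. -/
theorem prres_nm {k : Type u} [Field k] (α : k) (R : k[X]) : nm (X - C α) R = R.eval α := by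
  have h1 : AdjoinRoot.mk (X - C α) R = algebraMap k (AdjoinRoot (X - C α)) (R.eval α) := by
    rw [AdjoinRoot.algebraMap_eq, ← AdjoinRoot.mk_C, AdjoinRoot.mk_eq_mk]
    exact dvd_iff_isRoot.2 (by simp)
  have h2 : Module.finrank k (AdjoinRoot (X - C α)) = 1 := by
    rw [(AdjoinRoot.powerBasis' (monic_X_sub_C α)).finrank]
    simp
  unfold nm
  rw [h1, Algebra.norm_algebraMap, h2, pow_one]

/-- The symbol of a power. -/
theorem prres_syl_pow {k : Type u} [Field k] {ℓ : ℕ} {χ : k → ZMod ℓ} {P : k[X]}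
    (hadd : ∀ g h : k[X], g ≠ 0 → h ≠ 0 → syl χ P (g * h) = syl χ P g + syl χ P h)
    (g : k[X]) (hg : g ≠ 0) (n : ℕ) : syl χ P (g ^ n) = n * syl χ P g := by
  have h1 : syl χ P 1 = 0 := by
    have h := hadd 1 1 one_ne_zero one_ne_zero
    rw [mul_one] at h
    exact left_eq_add.1 h
  induction n with
  | zero => simp [h1]
  | succ n ih =>
    rw [pow_succ, hadd _ _ (pow_ne_zero _ hg) hg, ih]
    push_cast
    ring

/-- The symbol of a product of powers. -/
theorem prres_syl_prod {k : Type u} [Field k] {ℓ : ℕ} {χ : k → ZMod ℓ} {P : k[X]}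
    (hadd : ∀ g h : k[X], g ≠ 0 → h ≠ 0 → syl χ P (g * h) = syl χ P g + syl χ P h)
    {ι : Type} (t : Finset ι) (f : ι → k[X]) (hf : ∀ i, f i ≠ 0) (b : ι → ℕ) :
    syl χ P (∏ i ∈ t, f i ^ b i) = ∑ i ∈ t, (b i : ZMod ℓ) * syl χ P (f i) := by
  classical
  have h1 : syl χ P 1 = 0 := by
    have h := hadd 1 1 one_ne_zero one_ne_zero
    rw [mul_one] at h
    exact left_eq_add.1 h
  induction t using Finset.induction_on with
  | empty => simp [h1]
  | insert a t ha ih =>
    rw [Finset.prod_insert ha, Finset.sum_insert ha,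
      hadd _ _ (pow_ne_zero _ (hf a)) (Finset.prod_ne_zero_iff.2 fun i _ => pow_ne_zero _ (hf i)),
      ih, prres_syl_pow hadd _ (hf a)]

theorem tPrRes.{v} (hSuSy : StmtSuSy.{v}) : StmtPrRes.{v} := by
  intro ℓ hℓ hrec k _ _ hk χ hχ hm1 m α hα b s hs
  obtain ⟨-, -, hP⟩ := hSuSy k ℓ hℓ hk χ hχ
  have hfam : Fam (fun i : Fin m => (X - C (α i) : k[X])) := by
    refine ⟨?_, fun i => monic_X_sub_C _, fun i => irreducible_X_sub_C _⟩
    intro i j hij
    apply hα
    have h := congrArg (fun q : k[X] => q.eval (α i)) hij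
    simp only [eval_sub, eval_X, eval_C, sub_self] at h
    exact (sub_eq_zero.1 h.symm)
  obtain ⟨R, hRm, hRi, hRne, hRs⟩ := hrec.prm k χ hk hχ hm1 (Fin m) _ hfam s
  have hne : ∀ i, R.eval (α i) ≠ 0 := by
    intro i h0
    have hdvd : X - C (α i) ∣ R := dvd_iff_isRoot.2 h0
    have hass : Associated (X - C (α i)) R :=
      (irreducible_X_sub_C (α i)).associated_of_dvd hRi hdvd
    exact hRne i (eq_of_monic_of_associated (monic_X_sub_C _) hRm hass)
  have hndvd : ∀ i, ¬ (X - C (α i)) ∣ R := fun i h => hne i (dvd_iff_isRoot.1 h)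
  have hadd := (hP R hRm hRi).1
  have hadd' : ∀ g h : k[X], g ≠ 0 → h ≠ 0 → syl χ R (g * h) = syl χ R g + syl χ R h :=
    fun g h hg hh => (hadd g h hg hh).2
  have hpow : ∀ n : ℕ, χ ((-1) ^ n) = 0 := by
    intro n
    rcases neg_one_pow_eq_or k n with h | h
    · rw [h]
      have h1 := hχ.mul 1 1 one_ne_zero one_ne_zero
      rw [mul_one] at h1
      exact left_eq_add.1 h1
    · rw [h, hm1]
  have hval : ∀ i, χ (R.eval (α i)) = s i := by
    intro i
    have h1 := ((hP (X - C (α i)) (monic_X_sub_C _) (irreducible_X_sub_C _)).2.1 R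
      (hndvd i)).2.2.1
    rw [prres_nm] at h1
    rw [← h1]
    exact hRs i
  have hf0 : ∀ i : Fin m, (X - C (α i) : k[X]) ≠ 0 := fun i => X_sub_C_ne_zero _
  have hRndvd : ¬ R ∣ ∏ i, (X - C (α i)) ^ b i := by
    intro h
    obtain ⟨i, -, hi⟩ := (hRi.prime.dvd_finsetProd_iff _).1 h
    have h2 := hRi.prime.dvd_of_dvd_pow hi
    have hass : Associated R (X - C (α i)) :=
      hRi.associated_of_dvd (irreducible_X_sub_C (α i)) h2
    exact hRne i (eq_of_monic_of_associated hRm (monic_X_sub_C _) hass).symm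
  have hzero : syl χ R (∏ i, (X - C (α i)) ^ b i) = 0 := by
    rw [prres_syl_prod hadd' _ _ hf0, ← hs]
    refine Finset.sum_congr rfl fun i _ => ?_
    rw [hrec.sym k χ hk hχ hm1 R (X - C (α i)) hRm hRi (monic_X_sub_C _)
      (irreducible_X_sub_C _) (hRne i).symm]
    exact congrArg _ (hRs i)
  obtain ⟨z, hz⟩ := ((hP R hRm hRi).2.1 _ hRndvd).2.2.2.1 hzero
  obtain ⟨r, rfl⟩ := AdjoinRoot.mk_surjective z
  refine ⟨R, r, hRm, hRi, fun i => ⟨hne i, ?_⟩, ?_⟩
  · rw [hχ.mul _ _ (pow_ne_zero _ (neg_ne_zero.2 one_ne_zero)) (hne i), hpow, zero_add, hval]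
  · rw [← map_pow, AdjoinRoot.mk_eq_mk] at hz
    exact hz

end MP72e2e6
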