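import Pool.Agent.Lib.MP_72e2e6_nt.PrStmt
import Pool.Agent.Lib.MP_72e2e6_nt.SuSel
import Pool.Agent.Lib.MP_72e2e6_nt.TwCore

/-!
# MP_72e2e6_nt: solutions of the equations give Selmer elements
-/

set_option autoImplicit false

namespace MP72e2e6

open Polynomial IsDedekindDomain WithZero

universe u

section prsel

variable {F : Type u} [Field F] {ℓ : ℕ}

/-- The monic generator of a prime. -/
theorem prsel_gen (v : HeightOneSpectrum F[X]) :
    ∃ P : F[X], P.Monic ∧ Irreducible P ∧ v.asIdeal = Ideal.span {P} := by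
  classical
  obtain ⟨g, hg⟩ := (IsPrincipalIdealRing.principal v.asIdeal).principal
  have hg' : v.asIdeal = Ideal.span {g} := hg
  have h0 : g ≠ 0 := by
    rintro rfl
    apply v.ne_bot
    rw [hg', Ideal.span_singleton_eq_bot]
  have hp : Prime g := by
    have h := v.isPrime
    rw [hg', Ideal.span_singleton_prime h0] at h
    exact h
  refine ⟨normalize g, monic_normalize h0, ?_, ?_⟩
  · exact (associated_normalize g).irreducible hp.irreducible
  · rw [hg', Ideal.span_singleton_eq_span_singleton]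
    exact associated_normalize g

theorem prsel_prod {f : F[X] → ZMod ℓ} (hf : ∀ g h : F[X], g ≠ 0 → h ≠ 0 → f (g * h) = f g + f h)
    {κ : Type} (s : Finset κ) (g : κ → F[X]) (hg : ∀ k ∈ s, g k ≠ 0) :
    f (∏ k ∈ s, g k) = ∑ k ∈ s, f (g k) := by
  classical
  induction s using Finset.induction_on with
  | empty => rw [Finset.prod_empty, Finset.sum_empty, susel_one hf]
  | insert k s hk ih =>
    rw [Finset.prod_insert hk, Finset.sum_insert hk,
      hf _ _ (hg k (Finset.mem_insert_self k s))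
        (Finset.prod_ne_zero_iff.2 fun j hj => hg j (Finset.mem_insert_of_mem hj)),
      ih fun j hj => hg j (Finset.mem_insert_of_mem hj)]

theorem prsel_twl [NeZero ℓ] {f : F[X] → ZMod ℓ}
    (hf : ∀ g h : F[X], g ≠ 0 → h ≠ 0 → f (g * h) = f g + f h)
    {ι : Type} [Fintype ι] {pr : ι → F[X]} (hpr : Fam pr) (ρ : ι → ZMod ℓ) :
    f (twl pr ρ) = ∑ β, ρ β * f (pr β) := by
  rw [twl, prsel_prod hf _ _ fun β _ => pow_ne_zero _ (hpr.irr β).ne_zero]
  refine Finset.sum_congr rfl fun β _ => ?_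
  rw [susel_npow hf (hpr.irr β).ne_zero, ZMod.natCast_zmod_val]

theorem prsel_monic {ι : Type} [Fintype ι] {pr : ι → F[X]} (hpr : Fam pr) (ρ : ι → ZMod ℓ) :
    (twl pr ρ).Monic :=
  monic_prod_of_monic _ _ fun β _ => (hpr.monic β).pow _

theorem prsel_deg [NeZero ℓ] {ι : Type} [Fintype ι] {pr : ι → F[X]} (hpr : Fam pr)
    (ρ : ι → ZMod ℓ) :
    ((twl pr ρ).natDegree : ZMod ℓ) = ∑ β, ((pr β).natDegree : ZMod ℓ) * ρ β := by
  rw [twl, natDegree_prod _ _ fun β _ => pow_ne_zero _ (hpr.irr β).ne_zero, Nat.cast_sum]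
  refine Finset.sum_congr rfl fun β _ => ?_
  rw [natDegree_pow, Nat.cast_mul, ZMod.natCast_zmod_val, mul_comm]

/-- The product is a power. -/
theorem prsel_norm (hl : ℓ ≠ 0) {ι : Type} [Fintype ι] {pr : ι → F[X]} (hpr : Fam pr) {m : ℕ}
    (b : Fin m → ℕ) (x : ι → Fin m → ZMod ℓ) (hx : ∀ β, ∑ i, (b i : ZMod ℓ) * x β i = 0)
    (d : Fin m → (RatFunc F)ˣ)
    (hd : ∀ i, (d i : RatFunc F) = algebraMap F[X] (RatFunc F) (twl pr fun β => x β i)) :
    d ∈ normGroup ℓ (RatFunc F) b := by
  have : NeZero ℓ := ⟨hl⟩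
  have h1 : ∀ β, ∃ n, ∑ i, (x β i).val * b i = ℓ * n := by
    intro β
    have h2 : ((∑ i, (x β i).val * b i : ℕ) : ZMod ℓ) = 0 := by
      rw [Nat.cast_sum, ← hx β]
      refine Finset.sum_congr rfl fun i _ => ?_
      rw [Nat.cast_mul, ZMod.natCast_zmod_val, mul_comm]
    rw [ZMod.natCast_eq_zero_iff] at h2
    exact h2
  choose n hn using h1
  have h0 : algebraMap F[X] (RatFunc F) (∏ β, pr β ^ n β) ≠ 0 := by
    rw [Ne, map_eq_zero_iff _ (twsel_inj F)]
    exact Finset.prod_ne_zero_iff.2 fun β _ => pow_ne_zero _ (hpr.irr β).ne_zero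
  refine ⟨Units.mk0 _ h0, Units.ext ?_⟩
  have h2 : ∏ i, (twl pr fun β => x β i) ^ b i = (∏ β, pr β ^ n β) ^ ℓ := by
    have h3 : ∀ i, (twl pr fun β => x β i) ^ b i = ∏ β, pr β ^ ((x β i).val * b i) := by
      intro i
      rw [twl, ← Finset.prod_pow]
      exact Finset.prod_congr rfl fun β _ => (pow_mul _ _ _).symm
    rw [Finset.prod_congr rfl fun i _ => h3 i, Finset.prod_comm, ← Finset.prod_pow]
    refine Finset.prod_congr rfl fun β _ => ?_
    rw [Finset.prod_pow_eq_pow_sum, hn, mul_comm, pow_mul]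
  rw [Units.val_pow_eq_pow_val, Units.val_mk0, Units.coe_prod, ← map_pow, ← h2, map_prod]
  refine Finset.prod_congr rfl fun i _ => ?_
  rw [Units.val_pow_eq_pow_val, hd, map_pow]

end prsel

/-- **PrSel.** -/
theorem tPrSel (hSuSy : StmtSuSy.{u}) (hPrPwF : StmtPrPwF.{u}) (hPrPwI : StmtPrPwI.{u})
    (hPrGood : StmtPrGood.{u}) (hPrEq : StmtPrEq.{u}) : StmtPrSel.{u} := by
  classical
  intro F _ _ ℓ hl hrec hdvd χ hχ hχ1 m a hainj b hbi hb ι _ pr hpr hcov ρ htor x c heq d hd
  have hne : NeZero ℓ := ⟨hl.ne_zero⟩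
  have hE0 : twl pr ρ ≠ 0 := susel_twl_ne hpr
  have hδ0 : ∀ i, (twl pr fun β => x β i) ≠ 0 := fun i => susel_twl_ne hpr
  obtain ⟨hq1, hq2, hq3⟩ := hPrEq F ℓ hl hdvd χ hχ m a hainj b hb ι pr hpr hcov ρ x c heq
  obtain ⟨hχ0, -, hsyP⟩ := hSuSy F ℓ hl hdvd χ hχ
  have hAinj := twsel_inj F
  refine Subgroup.mem_inf.2 ⟨prsel_norm hl.ne_zero hpr b x hq1 d hd,
    Subgroup.mem_inf.2 ⟨Subgroup.mem_iInf.2 fun v => ?_, ?_⟩⟩
  · -- finite places
    obtain ⟨P, hP, hPi, hv⟩ := prsel_gen v
    rw [Subgroup.mem_comap]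
    obtain ⟨hadd, hnd, -, -, -⟩ := hsyP P hP hPi
    by_cases hPr : ∃ β, pr β = P
    · obtain ⟨β, rfl⟩ := hPr
      have htal0 : ∀ i, tal b (twl pr ρ) a (c β) i ≠ 0 := fun i => susel_tal_ne b hE0 hainj _ i
      have hK0 : ∀ i, algebraMap F[X] (RatFunc F) (tal b (twl pr ρ) a (c β) i) ≠ 0 := by
        intro i
        rw [Ne, map_eq_zero_iff _ hAinj]
        exact htal0 i
      have hM0 : ∀ i, algebraMap (RatFunc F) (v.adicCompletion (RatFunc F))
          (algebraMap F[X] (RatFunc F) (tal b (twl pr ρ) a (c β) i)) ≠ 0 := fun i =>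
        (_root_.map_ne_zero _).2 (hK0 i)
      have key : ∀ f : F[X] → ZMod ℓ, (∀ g h : F[X], g ≠ 0 → h ≠ 0 → f (g * h) = f g + f h) →
          ∀ i, f (twl pr fun β' => x β' i) = f (tal b (twl pr ρ) a (c β) i) →
          f ((twl pr fun β' => x β' i) * tal b (twl pr ρ) a (c β) i ^ (ℓ - 1)) = 0 := by
        intro f hf i h0
        rw [hf _ _ (hδ0 i) (pow_ne_zero _ (htal0 i)), susel_npow hf (htal0 i), h0,
          Nat.cast_sub hl.one_le, ZMod.natCast_self]
        ring
      have hz : ∀ i, ∃ z : v.adicCompletion (RatFunc F),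
          algebraMap (RatFunc F) (v.adicCompletion (RatFunc F)) (algebraMap F[X] (RatFunc F)
            ((twl pr fun β' => x β' i) * tal b (twl pr ρ) a (c β) i ^ (ℓ - 1))) = z ^ ℓ := by
        intro i
        exact hPrPwF F ℓ hl hdvd χ hχ v (pr β) hP hPi hv _
          (mul_ne_zero (hδ0 i) (pow_ne_zero _ (htal0 i)))
          (key _ (fun g h hg hh => (hadd g h hg hh).1) i (hq2 β i))
          (key _ (fun g h hg hh => (hadd g h hg hh).2) i (hq3 β i))
      choose z hz using hz
      have hd0 : ∀ i, algebraMap (RatFunc F) (v.adicCompletion (RatFunc F)) (d i : RatFunc F) ≠ 0 :=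
        fun i => (_root_.map_ne_zero _).2 (d i).ne_zero
      have hz0 : ∀ i, z i ≠ 0 := by
        intro i h
        have h1 := hz i
        rw [h, zero_pow hl.ne_zero, map_mul, map_mul, ← hd i, map_pow, map_pow] at h1
        exact mul_ne_zero (hd0 i) (pow_ne_zero _ (hM0 i)) h1
      -- the torsion element
      set t : Fin m → (RatFunc F)ˣ := fun i => Units.mk0 _ (hK0 i) with ht
      have htm : t ∈ torsionGroup ℓ (pts (twl pr ρ) a) b :=
        htor.mem (c β) (heq.mem β) t fun i => ⟨1, by rw [one_pow, mul_one]; rfl⟩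
      have h1 := baseChange_mem_localImage hl (pts_injective hE0 hainj)
        (fun i => ((Nat.Prime.coprime_iff_not_dvd hl).2 (hbi i)).symm)
        (v.adicCompletion (RatFunc F)) htm
      have h2 : (fun i => Units.mk0 (z i / algebraMap (RatFunc F) (v.adicCompletion (RatFunc F))
          (algebraMap F[X] (RatFunc F) (tal b (twl pr ρ) a (c β) i)))
          (div_ne_zero (hz0 i) (hM0 i))) ^ ℓ ∈
          localImage ℓ (pts (twl pr ρ) a) b (v.adicCompletion (RatFunc F)) :=
        Subgroup.subset_closure (Or.inl ⟨_, rfl⟩)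
      have h3 : baseChange (v.adicCompletion (RatFunc F)) d =
          baseChange (v.adicCompletion (RatFunc F)) t *
          (fun i => Units.mk0 (z i / algebraMap (RatFunc F) (v.adicCompletion (RatFunc F))
          (algebraMap F[X] (RatFunc F) (tal b (twl pr ρ) a (c β) i)))
          (div_ne_zero (hz0 i) (hM0 i))) ^ ℓ := by
        funext i
        refine Units.ext ?_
        have h4 : ((baseChange (v.adicCompletion (RatFunc F)) d i :
            (v.adicCompletion (RatFunc F))ˣ) : v.adicCompletion (RatFunc F)) =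
            algebraMap (RatFunc F) (v.adicCompletion (RatFunc F)) (d i : RatFunc F) := rfl
        have h5 : ((baseChange (v.adicCompletion (RatFunc F)) t i :
            (v.adicCompletion (RatFunc F))ˣ) : v.adicCompletion (RatFunc F)) =
            algebraMap (RatFunc F) (v.adicCompletion (RatFunc F))
              (algebraMap F[X] (RatFunc F) (tal b (twl pr ρ) a (c β) i)) := rfl
        rw [Pi.mul_apply, Units.val_mul, Pi.pow_apply, Units.val_pow_eq_pow_val, Units.val_mk0, h4,
          h5]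
        have h6 := hz i
        rw [map_mul, map_mul, ← hd i, map_pow, map_pow] at h6
        rw [div_pow, ← h6]
        have h7 := hM0 i
        set A := algebraMap (RatFunc F) (v.adicCompletion (RatFunc F))
          (algebraMap F[X] (RatFunc F) (tal b (twl pr ρ) a (c β) i)) with hA
        have h8 : A ^ ℓ = A * A ^ (ℓ - 1) := by
          rw [← pow_succ', Nat.sub_add_cancel hl.one_le]
        rw [h8]
        field_simp
      rw [h3]
      exact Subgroup.mul_mem _ h1 h2
    · push Not at hPr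
      have hPE : ¬ P ∣ twl pr ρ := fun h => by
        obtain ⟨β, hβ⟩ := susel_dvd_twl hpr hP hPi h
        exact hPr β hβ
      have hPa : ∀ i j, i ≠ j → ¬ P ∣ a i - a j := fun i j hij h => by
        obtain ⟨β, hβ⟩ := hcov P hP hPi i j hij h
        exact hPr β hβ
      have hPd : ∀ i, ¬ P ∣ twl pr fun β => x β i := fun i h => by
        obtain ⟨β, hβ⟩ := susel_dvd_twl hpr hP hPi h
        exact hPr β hβ
      refine hPrGood F ℓ hl hrec hdvd χ hχ hχ1 m (twl pr ρ) a b v P hP hPi hv hPE hPa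
        (fun i => twl pr fun β => x β i) (fun i => ⟨hδ0 i, (hnd _ (hPd i)).1⟩) ?_ _ fun i => ?_
      · have h1 : ∀ i, (b i : ZMod ℓ) * syl χ P (twl pr fun β => x β i) =
            ∑ β, ((b i : ZMod ℓ) * x β i) * syl χ P (pr β) := by
          intro i
          rw [prsel_twl (fun g h hg hh => (hadd g h hg hh).2) hpr, Finset.mul_sum]
          exact Finset.sum_congr rfl fun β _ => (mul_assoc _ _ _).symm
        rw [Finset.sum_congr rfl fun i _ => h1 i, Finset.sum_comm]
        refine Finset.sum_eq_zero fun β _ => ?_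
        rw [← Finset.sum_mul, hq1, zero_mul]
      · rw [← hd i]
        rfl
  · -- infinity
    rw [Subgroup.mem_comap]
    have hz : ∀ i, ∃ z : (RatFunc.inftyValuation F).Completion,
        algebraMap (RatFunc F) (RatFunc.inftyValuation F).Completion
          (algebraMap F[X] (RatFunc F) (twl pr fun β => x β i)) = z ^ ℓ := by
      intro i
      refine hPrPwI F ℓ hl hdvd χ hχ _ (hδ0 i) ?_ ?_
      · rw [prsel_deg hpr, heq.inf i]
      · rw [(prsel_monic hpr _).leadingCoeff, hχ0]
    choose z hz using hz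
    have hz0 : ∀ i, z i ≠ 0 := by
      intro i h
      have h1 := hz i
      rw [h, zero_pow hl.ne_zero, ← hd i] at h1
      exact (_root_.map_ne_zero _).2 (d i).ne_zero h1
    refine Subgroup.subset_closure (Or.inl ⟨fun i => Units.mk0 (z i) (hz0 i), ?_⟩)
    funext i
    refine Units.ext ?_
    rw [Pi.pow_apply, Units.val_pow_eq_pow_val, Units.val_mk0, ← hz i, ← hd i]
    rfl

end MP72e2e6
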