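import Pool.Agent.Lib.MP_72e2e6_nt.PpAll
import Pool.Agent.Lib.MP_72e2e6_nt.PrMain
import Pool.Agent.Lib.MP_72e2e6_nt.PqA1
import Pool.Agent.Lib.MP_72e2e6_nt.PqA2
import Pool.Agent.Lib.MP_72e2e6_nt.PqA3
import Pool.Agent.Lib.MP_72e2e6_nt.PqA4
import Pool.Agent.Lib.MP_72e2e6_nt.PqMT
import Pool.Agent.Lib.MP_72e2e6_nt.PqFM
import Pool.Agent.Lib.MP_72e2e6_nt.PqPrim
import Pool.Agent.Lib.MP_72e2e6_nt.PqGen
import Pool.Agent.Lib.MP_72e2e6_nt.PqCt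
import Pool.Agent.Lib.MP_72e2e6_nt.PqSkt
import Pool.Agent.Lib.MP_72e2e6_nt.PqBil
import Pool.Agent.Lib.MP_72e2e6_nt.PqEqv
import Pool.Agent.Lib.MP_72e2e6_nt.PqSym
import Pool.Agent.Lib.MP_72e2e6_nt.PqMul
import Pool.Agent.Lib.MP_72e2e6_nt.PqOneC
import Pool.Agent.Lib.MP_72e2e6_nt.PqOneA
import Pool.Agent.Lib.MP_72e2e6_nt.PqOneB
import Pool.Agent.Lib.MP_72e2e6_nt.PqTel
import Pool.Agent.Lib.MP_72e2e6_nt.PqMix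
import Pool.Agent.Lib.MP_72e2e6_nt.PqFun
import Pool.Agent.Lib.MP_72e2e6_nt.PqPos
import Pool.Agent.Lib.MP_72e2e6_nt.PqRep
import Pool.Agent.Lib.MP_72e2e6_nt.PqCon
import Pool.Agent.Lib.MP_72e2e6_nt.PqMom
import Pool.Agent.Lib.MP_72e2e6_nt.PrPwF
import Pool.Agent.Lib.MP_72e2e6_nt.PrPwI
import Pool.Agent.Lib.MP_72e2e6_nt.PrPi
import Pool.Agent.Lib.MP_72e2e6_nt.PrRes
import Pool.Agent.Lib.MP_72e2e6_nt.PrHen
import Pool.Agent.Lib.MP_72e2e6_nt.PrGood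
import Pool.Agent.Lib.MP_72e2e6_nt.PrEq
import Pool.Agent.Lib.MP_72e2e6_nt.PrSel
import Pool.Agent.Lib.MP_72e2e6_nt.PrInj
import Pool.Agent.Lib.MP_72e2e6_nt.PrCnt
import Pool.Agent.Lib.MP_72e2e6_nt.PrPow
import Pool.Agent.Lib.MP_72e2e6_nt.PrEul
import Pool.Agent.Lib.MP_72e2e6_nt.PrDis

/-!
# MP_72e2e6_nt: the distribution of the Selmer groups, all the modules together
-/

namespace MP72e2e6

open Polynomial IsDedekindDomain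

universe u

theorem recP_odd {ℓ : ℕ} (hℓ : ℓ.Prime) (hℓ2 : ℓ ≠ 2) : RecP.{u} ℓ := by
  have hSy : StmtSuSy.{u} := tSuSy
  have hMon : StmtTwMon.{u} := tTwMon
  have hPsi := tSuPsi hMon (tTwPsi hMon) tSuMon
  have hPrime := tSuPrime hSy hPsi (tSuBdd hMon hPsi (tSuNonv hMon hPsi)) (tSuZero hSy)
  refine ⟨fun k _ _ χ hq hχ _ P Q hP hPi hQ hQi hne =>
    tSuRec hSy k ℓ hℓ hℓ2 hq χ hχ P Q hP hPi hQ hQi hne, fun k _ _ χ hq hχ _ ι _ pr hpr t => ?_⟩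
  obtain ⟨R, h1, h2, h3, -, h4⟩ := hPrime k ℓ hℓ hℓ2 hq χ hχ ι pr hpr t 0
  exact ⟨R, h1, h2, h3, h4⟩

theorem pqMT_all : StmtPqMT.{u} :=
  tPqMT (tPqA1 tPpTS) (tPqA2 (tPqA1 tPpTS)) tPqA3 tPqA4

theorem pqFM_all : StmtPqFM.{u} := by
  have hSy : StmtSuSy.{u} := tSuSy
  have hSuRec := tSuRec hSy
  exact tPqFM hSuRec tPpTS tPpCol ppAn_all pqMT_all (tPpFou hSy hSuRec)

theorem pqCt_all : StmtPqCt.{u} := tPqCt tPqGen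

theorem pqMix_all : StmtPqMix.{u} := tPqMix (tPqPrim pqFM_all) pqCt_all tPqSkt

theorem pqPos_all : StmtPqPos.{u} := by
  have hSy : StmtSuSy.{u} := tSuSy
  exact tPqPos pqMix_all pqCt_all tPqBil
    (tPqSym hSy (tSuRec hSy) tPpKf (tPpFrm tPpEvn tPpEvn)) tPqFun tPqMul
    (tPqOneA tPqOneC) (tPqOneB tPqOneC) tPqTel

theorem prGood_all : StmtPrGood.{u} := by
  have hSy : StmtSuSy.{u} := tSuSy
  exact tPrGood hSy tSuLg tPrPi (tPrRes hSy) tPrHen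

theorem prCnt_all : StmtPrCnt.{u} := by
  have hSy : StmtSuSy.{u} := tSuSy
  have hFac := tSuFac hSy
  have hTal := tSuTal hSy
  exact tPrCnt (tPrSel hSy (tPrPwF hSy) tPrPwI prGood_all (tPrEq hSy hFac hTal))
    (tPrInj hSy hFac hTal)

open Classical in
/-- the distribution theorem -/
theorem pr_distribution {F : Type u} [Field F] [Finite F] {ℓ : ℕ} [Fact ℓ.Prime]
    (hℓ2 : ℓ ≠ 2) (hq : ℓ ∣ Nat.card F - 1) {m : ℕ} (hm : 0 < m) {a : Fin m → F[X]}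
    (ha : Function.Injective a) {b : Fin m → ℕ} {D : F[X]} (hD : TD ℓ b a D) :
    (∃ c : ℝ, 0 < c ∧ ∃ n₀ : ℕ, ∀ n : ℕ, n₀ ≤ n →
      c * (Nat.card F : ℝ) ^ n ≤ ((Msf a D n).ncard : ℝ)) ∧
    (∀ n : ℕ, Tame ℓ b (wI a) (-((D.natDegree + n : ℕ) : ℤ)) → ∀ M ∈ Msf a D n,
      ist ℓ a b (D * M) ≠ 0) ∧
    (∀ k : ℕ, ∃ N : ℕ, (2 ≤ m → Conn ℓ a → N = ∏ i ∈ Finset.range k, (1 + ℓ ^ i)) ∧
      ∀ ε : ℝ, 0 < ε → ∃ n₀ : ℕ, ∀ n : ℕ, n₀ ≤ n →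
        Tame ℓ b (wI a) (-((D.natDegree + n : ℕ) : ℤ)) →
        |∑ᶠ M ∈ Msf a D n, (ist ℓ a b (D * M) : ℝ) ^ k - (N : ℝ) * ((Msf a D n).ncard : ℝ)| ≤
          ε * ((Msf a D n).ncard : ℝ)) ∧
    (∀ ε : ℝ, 0 < ε → ∃ n₀ : ℕ, ∀ n : ℕ, n₀ ≤ n →
      Tame ℓ b (wI a) (-((D.natDegree + n : ℕ) : ℤ)) →
      ((1 - 1 / ((ℓ : ℝ) - 1)) ^ (m - 1) - ε) * ((Msf a D n).ncard : ℝ) ≤
        ({M ∈ Msf a D n |
          placesSelmer F[X] (RatFunc.inftyValuation F) ℓ (pts (D * M) a) b =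
            torsionGroup ℓ (pts (D * M) a) b}.ncard : ℝ)) ∧
    (2 ≤ m → Conn ℓ a → ∀ (r : ℕ) (ε : ℝ), 0 < ε → ∃ n₀ : ℕ, ∀ n : ℕ, n₀ ≤ n →
      Tame ℓ b (wI a) (-((D.natDegree + n : ℕ) : ℤ)) →
      |({M ∈ Msf a D n | ist ℓ a b (D * M) = ℓ ^ r}.ncard : ℝ) -
        (∏' i : ℕ, (1 - ((ℓ : ℝ)⁻¹) ^ (2 * i + 1))) /
          (∏ i ∈ Finset.range r, ((ℓ : ℝ) ^ (i + 1) - 1)) * ((Msf a D n).ncard : ℝ)| ≤
        ε * ((Msf a D n).ncard : ℝ)) := by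
  have hℓ : ℓ.Prime := Fact.out
  have hSy : StmtSuSy.{u} := tSuSy
  have hRec := tSuRec hSy
  have hFac := tSuFac hSy
  have hTal := tSuTal hSy
  have hLocV := tSuLocV tSuLoc.{u}
  have hTor : StmtSuTor.{u} := tSuTor
  have hLocF := tSuLocF hLocV
  have hLocI := tSuLocI hLocV
  have hPwF := tSuPwF hSy
  have hPSel := tPpSel hSy hTal hLocF hLocI hPwF tSuPwI hTor
  have hPEq := tPpEq hSy hFac hTal hPSel
  exact pr_main tSuLg pqFM_all pqPos_all (tPqRep (tPqEqv hSy hRec)) pqMix_all pqCt_all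
    (tPqCon tPqBil) tPqMul tPqFun tPqMom tPrPow (tPrDis tPqMul tPqFun tPrEul) prCnt_all
    (recP_odd hℓ hℓ2) hSy hTor tPpBij ppCnt_all (tPpHyp hSy hFac tSuInj tPpCom) tPpIrr
    (tPpInj hSy hRec hFac hTor hPEq) hℓ2 hq hm ha hD

end MP72e2e6
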