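import Pool.Agent.Lib.MP_72e2e6_nt.PrStmt
import Pool.Agent.Lib.MP_72e2e6_nt.SuSy
import Pool.Agent.Lib.MP_72e2e6_nt.TwLocF

/-!
# MP_72e2e6_nt: the local image at a good place (`StmtPrGood`)
-/

set_option autoImplicit false

namespace MP72e2e6

open Polynomial IsDedekindDomain WithZero

universe u

theorem prgood_lg_prod {F : Type u} [Field F] {ℓ : ℕ} {χ : F → ZMod ℓ} (hχ : IsLg ℓ χ)
    {ι : Type} (s : Finset ι) (x : ι → F) (hx : ∀ i, x i ≠ 0) (b : ι → ℕ) :
    χ (∏ i ∈ s, x i ^ b i) = ∑ i ∈ s, (b i : ZMod ℓ) * χ (x i) := by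
  classical
  induction s using Finset.induction_on with
  | empty => rw [Finset.prod_empty, Finset.sum_empty, susy_one hχ]
  | insert i s hi ih =>
    rw [Finset.prod_insert hi, Finset.sum_insert hi,
      hχ.mul _ _ (pow_ne_zero _ (hx i)) (Finset.prod_ne_zero_iff.2 fun j _ =>
        pow_ne_zero _ (hx j)), ih, susy_pow hχ (hx i)]

section syl

variable {F : Type u} [Field F] {ℓ : ℕ} {χ : F → ZMod ℓ} {P : F[X]}
    (hadd : ∀ g h : F[X], g ≠ 0 → h ≠ 0 →
      vl ℓ P (g * h) = vl ℓ P g + vl ℓ P h ∧ syl χ P (g * h) = syl χ P g + syl χ P h)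

include hadd in
theorem prgood_syl_one : syl χ P 1 = 0 := by
  have h := (hadd 1 1 one_ne_zero one_ne_zero).2
  rw [mul_one] at h
  exact left_eq_add.1 h

include hadd in
theorem prgood_syl_pow {g : F[X]} (hg : g ≠ 0) (n : ℕ) :
    syl χ P (g ^ n) = n * syl χ P g := by
  induction n with
  | zero => rw [pow_zero, prgood_syl_one hadd, Nat.cast_zero, zero_mul]
  | succ n ih =>
    rw [pow_succ, (hadd _ _ (pow_ne_zero n hg) hg).2, ih, Nat.cast_succ]
    ring

include hadd in
theorem prgood_syl_prod {ι : Type} (s : Finset ι) (g : ι → F[X]) (hg : ∀ i, g i ≠ 0)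
    (b : ι → ℕ) : syl χ P (∏ i ∈ s, g i ^ b i) = ∑ i ∈ s, (b i : ZMod ℓ) * syl χ P (g i) := by
  classical
  induction s using Finset.induction_on with
  | empty => rw [Finset.prod_empty, Finset.sum_empty, prgood_syl_one hadd]
  | insert i s hi ih =>
    rw [Finset.prod_insert hi, Finset.sum_insert hi,
      (hadd _ _ (pow_ne_zero _ (hg i)) (Finset.prod_ne_zero_iff.2 fun j _ =>
        pow_ne_zero _ (hg j))).2, ih, prgood_syl_pow hadd (hg i)]

end syl

open scoped Valued in
/-- elements which are close to each other differ by an `ℓ`-th power -/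
theorem prgood_near {F : Type u} [Field F] (v : HeightOneSpectrum F[X]) (p : ℕ) [Fact p.Prime]
    [CharP (v.adicCompletion (RatFunc F)) p] {ℓ : ℕ} (hcop : ℓ.Coprime p)
    {x y : v.adicCompletion (RatFunc F)} (h : Valued.v (x - y) < Valued.v y) :
    ∃ z : v.adicCompletion (RatFunc F), x = y * z ^ ℓ := by
  obtain ⟨hr⟩ := nonempty_rankOne (nontriv_adic (K := RatFunc F) v)
  let : NontriviallyNormedField (v.adicCompletion (RatFunc F)) :=
    Valued.toNontriviallyNormedField (v.adicCompletion (RatFunc F))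
      (WithZero (Multiplicative ℤ))
  have hvn : ∀ x y : v.adicCompletion (RatFunc F), ‖x‖ ≤ ‖y‖ ↔ Valued.v x ≤ Valued.v y :=
    fun x y => Valued.toNormedField.norm_le_iff
  have h0 : ‖x - y‖ < ‖y‖ := by
    rw [← not_le, hvn, not_le]
    exact h
  have hy : y ≠ 0 := by
    rintro rfl
    rw [norm_zero] at h0
    exact absurd h0 (not_lt.2 (norm_nonneg _))
  have h1 : ‖x / y - 1‖ < 1 := by
    have h2 : x / y - 1 = (x - y) / y := by field_simp
    rw [h2, norm_div, div_lt_one (norm_pos_iff.2 hy)]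
    exact h0
  obtain ⟨z, hz, -⟩ := exists_pow_eq_of_principal p hcop h1
  exact ⟨z, by rw [hz]; field_simp⟩

theorem tPrGood (hSuSy : StmtSuSy.{u}) (hSuLg : StmtSuLg.{u}) (hPrPi : StmtPrPi.{u})
    (hPrRes : StmtPrRes.{u}) (hPrHen : StmtPrHen.{u}) : StmtPrGood.{u} := by
  classical
  intro F _ _ ℓ hℓ hrec hdvd χ hχ hχ1 m E a b v P hP hPi hv hPE hPa h hh hsum d hd
  -- the characteristic
  obtain ⟨p, hp⟩ := CharP.exists F
  have := Fintype.ofFinite F
  obtain ⟨r, hprime, hcard⟩ := FiniteField.card F p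
  have : Fact p.Prime := ⟨hprime⟩
  rw [← Nat.card_eq_fintype_card] at hcard
  have hcop : ℓ.Coprime p := by
    rw [Nat.coprime_primes hℓ hprime]
    rintro rfl
    rw [hcard] at hdvd
    have h1 : ℓ ∣ ℓ ^ (r : ℕ) := dvd_pow_self _ r.pos.ne'
    have h2 : 1 ≤ ℓ ^ (r : ℕ) := Nat.one_le_pow _ _ hℓ.pos
    have h3 : ℓ ∣ 1 := by
      have := Nat.dvd_sub h1 hdvd
      rwa [Nat.sub_sub_self h2] at this
    exact hℓ.one_lt.ne' (Nat.dvd_one.1 h3)
  have : CharP (v.adicCompletion (RatFunc F)) p :=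
    charP_of_injective_ringHom (f := (algebraMap (RatFunc F) (v.adicCompletion (RatFunc F))).comp
      (algebraMap F (RatFunc F))) (RingHom.injective _) p
  -- the residue field
  have hfact : Fact (Irreducible P) := ⟨hPi⟩
  have hfin : Finite (AdjoinRoot P) := twsy_finite P hP
  have hdvd' : ℓ ∣ Nat.card (AdjoinRoot P) - 1 := by
    rw [twsy_card P hP]
    refine hdvd.trans ?_
    have h1 := Nat.sub_dvd_pow_sub_pow (Nat.card F) 1 P.natDegree
    rwa [one_pow] at h1
  obtain ⟨χ', hχ'⟩ := hSuLg (AdjoinRoot P) ℓ hℓ hdvd'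
  have hχ1' : χ' (-1) = 0 := by
    rw [hχ'.ker _ (neg_ne_zero.2 one_ne_zero)]
    obtain ⟨z, hz⟩ := (hχ.ker (-1) (neg_ne_zero.2 one_ne_zero)).1 hχ1
    refine ⟨algebraMap F (AdjoinRoot P) z, ?_⟩
    rw [← map_pow, ← hz, map_neg, map_one]
  obtain ⟨-, -, hsy⟩ := hSuSy F ℓ hℓ hdvd χ hχ
  obtain ⟨hadd, hnd, -, hPP, -⟩ := hsy P hP hPi
  -- the prime to `P` parts
  have hg : ∀ i, ∃ (n : ℕ) (g : F[X]), h i = P ^ (ℓ * n) * g ∧ ¬ P ∣ g := by
    intro i
    obtain ⟨c, hc, hc'⟩ := (twsy_fm hPi (hh i).1).exists_eq_pow_mul_and_not_dvd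
    have h1 := (hh i).2
    rw [vl, if_neg (hh i).1, ZMod.natCast_eq_zero_iff] at h1
    obtain ⟨n, hn⟩ := h1
    rw [hn] at hc
    exact ⟨n, c, hc, hc'⟩
  choose n g hgh hgP using hg
  have hg0 : ∀ i, g i ≠ 0 := fun i h0 => hgP i (by rw [h0]; exact dvd_zero P)
  have hsg : ∀ i, syl χ P (h i) = syl χ P (g i) := by
    intro i
    rw [hgh i, (hadd _ _ (pow_ne_zero _ hP.ne_zero) (hg0 i)).2,
      prgood_syl_pow hadd hP.ne_zero, hPP, mul_zero, zero_add]
  have hG0 : (AdjoinRoot.mk P) (∏ i, g i ^ b i) = ∏ i, AdjoinRoot.mk P (g i) ^ b i := by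
    rw [map_prod]
    exact Finset.prod_congr rfl fun i _ => map_pow _ _ _
  have hmk0 : ∀ i, AdjoinRoot.mk P (g i) ≠ 0 := fun i => twsy_ne (hgP i)
  have hGd : ¬ P ∣ ∏ i, g i ^ b i := by
    rw [← AdjoinRoot.mk_eq_zero, hG0]
    exact Finset.prod_ne_zero_iff.2 fun i _ => pow_ne_zero _ (hmk0 i)
  have hsyG : syl χ P (∏ i, g i ^ b i) = 0 := by
    rw [prgood_syl_prod hadd Finset.univ g hg0 b, ← hsum]
    exact Finset.sum_congr rfl fun i _ => by rw [hsg]
  have hs : ∑ i, (b i : ZMod ℓ) * χ' (AdjoinRoot.mk P (g i)) = 0 := by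
    rw [← prgood_lg_prod hχ' Finset.univ _ hmk0 b, ← hG0, hχ'.ker _ (twsy_ne hGd)]
    exact ((hnd _ hGd).2.2.2).1 hsyG
  have hα : Function.Injective fun i => AdjoinRoot.mk P (E * a i) := by
    intro i j hij
    by_contra hne
    have h1 : AdjoinRoot.mk P (E * (a i - a j)) = 0 := by
      rw [mul_sub, map_sub, sub_eq_zero]
      exact hij
    rw [AdjoinRoot.mk_eq_zero] at h1
    rcases hPi.prime.dvd_or_dvd h1 with h2 | h2
    · exact hPE h2
    · exact hPa i j hne h2
  obtain ⟨R, q, hR, hRi, hRs, hRd⟩ := hPrRes ℓ hℓ hrec (AdjoinRoot P) hdvd' χ' hχ' hχ1' m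
    (fun i => AdjoinRoot.mk P (E * a i)) hα b (fun i => χ' (AdjoinRoot.mk P (g i))) hs
  -- the residue map
  obtain ⟨π, hπs, hπ0, hπm⟩ := hPrPi F v P hPi hv
  have hint : ∀ f : F[X], algebraMap (RatFunc F) (v.adicCompletion (RatFunc F))
      (algebraMap F[X] (RatFunc F) f) ∈ (Valued.v : Valuation (v.adicCompletion (RatFunc F))
        (WithZero (Multiplicative ℤ))).valuationSubring := by
    intro f
    rw [Valuation.mem_valuationSubring_iff, valued_adic]
    exact v.valuation_le_one f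
  let φ : F[X] → (Valued.v : Valuation (v.adicCompletion (RatFunc F))
        (WithZero (Multiplicative ℤ))).valuationSubring := fun f => ⟨_, hint f⟩
  have hφ : ∀ f, ((φ f : (Valued.v : Valuation (v.adicCompletion (RatFunc F))
        (WithZero (Multiplicative ℤ))).valuationSubring) : v.adicCompletion (RatFunc F)) =
      algebraMap (RatFunc F) (v.adicCompletion (RatFunc F))
        (algebraMap F[X] (RatFunc F) f) := fun f => rfl
  have hπφ : ∀ f, π (φ f) = AdjoinRoot.mk P f := fun f => hπm f (φ f) (hφ f)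
  obtain ⟨u, w, hu, huR, huw⟩ := hPrHen (v.adicCompletion (RatFunc F)) (AdjoinRoot P) p ℓ hcop
    (nontriv_adic v) π hπs hπ0 m (fun i => φ (E * a i)) b R q hR hRi
    (by simpa only [hπφ] using hRd) (fun i => by
      rw [hπφ]
      exact (hRs i).1)
  have hdeg : u.natDegree = R.natDegree := by
    rw [← huR, hu.natDegree_map]
  -- the divisor
  have hπd : ∀ i, π ((-1) ^ u.natDegree * u.eval (φ (E * a i))) =
      (-1) ^ R.natDegree * R.eval (AdjoinRoot.mk P (E * a i)) := by
    intro i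
    rw [map_mul, map_pow, map_neg, map_one, hdeg, ← huR, eval_map, ← hπφ, eval₂_at_apply]
  have hne1 : ∀ i, (-1) ^ R.natDegree * R.eval (AdjoinRoot.mk P (E * a i)) ≠ 0 := fun i =>
    mul_ne_zero (pow_ne_zero _ (neg_ne_zero.2 one_ne_zero)) (hRs i).1
  set d₀ : Fin m → (Valued.v : Valuation (v.adicCompletion (RatFunc F))
        (WithZero (Multiplicative ℤ))).valuationSubring := fun i =>
    (-1) ^ u.natDegree * u.eval (φ (E * a i)) with hd₀
  have hvu : ∀ y : (Valued.v : Valuation (v.adicCompletion (RatFunc F))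
        (WithZero (Multiplicative ℤ))).valuationSubring, π y ≠ 0 →
      Valued.v (y : v.adicCompletion (RatFunc F)) = 1 := by
    intro y hy
    refine le_antisymm ((Valuation.mem_valuationSubring_iff _ _).1 y.2) ?_
    rw [Ne, hπ0, not_lt] at hy
    exact hy
  have hd0 : ∀ i, (d₀ i : v.adicCompletion (RatFunc F)) ≠ 0 := by
    intro i h0
    have h1 := hvu (d₀ i) (by
      rw [hd₀]
      beta_reduce
      rw [hπd]
      exact hne1 i)
    rw [h0, map_zero] at h1
    exact zero_ne_one h1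
  have hmem : (fun i => Units.mk0 (d₀ i : v.adicCompletion (RatFunc F)) (hd0 i)) ∈
      localImage ℓ (pts E a) b (v.adicCompletion (RatFunc F)) := by
    apply Subgroup.subset_closure
    right
    refine ⟨u.map (algebraMap _ (v.adicCompletion (RatFunc F))), w, hu.map _, huw, fun i => ?_⟩
    rw [Units.val_mk0, hu.natDegree_map]
    have h1 : algebraMap (RatFunc F) (v.adicCompletion (RatFunc F)) (pts E a i) =
        algebraMap (Valued.v : Valuation (v.adicCompletion (RatFunc F))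
        (WithZero (Multiplicative ℤ))).valuationSubring (v.adicCompletion (RatFunc F))
          (φ (E * a i)) := rfl
    rw [h1, eval_map, eval₂_at_apply]
    have h2 : (d₀ i : v.adicCompletion (RatFunc F)) =
        algebraMap (Valued.v : Valuation (v.adicCompletion (RatFunc F))
        (WithZero (Multiplicative ℤ))).valuationSubring (v.adicCompletion (RatFunc F))
          ((-1) ^ u.natDegree * u.eval (φ (E * a i))) := rfl
    rw [h2, map_mul, map_pow, map_neg, map_one]
  -- the quotient is an `ℓ`-th power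
  have hz : ∀ i, ∃ z : (v.adicCompletion (RatFunc F))ˣ,
      d i = Units.mk0 (d₀ i : v.adicCompletion (RatFunc F)) (hd0 i) * z ^ ℓ := by
    intro i
    obtain ⟨y, hy⟩ : ∃ y, AdjoinRoot.mk P (g i) = π (d₀ i) * y ^ ℓ := by
      have h1 : π (d₀ i) ≠ 0 := by
        rw [hd₀]
        beta_reduce
        rw [hπd]
        exact hne1 i
      have h2 : AdjoinRoot.mk P (g i) / π (d₀ i) ≠ 0 := div_ne_zero (hmk0 i) h1
      have h3 : χ' (AdjoinRoot.mk P (g i) / π (d₀ i)) = 0 := by
        have h4 := hχ'.mul _ _ h2 h1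
        rw [div_mul_cancel₀ _ h1] at h4
        have h5 : χ' (π (d₀ i)) = χ' (AdjoinRoot.mk P (g i)) := by
          rw [← (hRs i).2, hd₀]
          beta_reduce
          rw [hπd]
        rw [h5] at h4
        exact right_eq_add.1 h4
      obtain ⟨y, hy⟩ := (hχ'.ker _ h2).1 h3
      exact ⟨y, by rw [← hy, mul_div_cancel₀ _ h1]⟩
    obtain ⟨y₀, rfl⟩ := hπs y
    have h1 : π (φ (g i) - d₀ i * y₀ ^ ℓ) = 0 := by
      rw [map_sub, hπφ, hy, map_mul π (d₀ i), map_pow π y₀, sub_self]
    have h2 := (hπ0 _).1 h1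
    have h3 : Valued.v ((d₀ i * y₀ ^ ℓ : (Valued.v : Valuation (v.adicCompletion (RatFunc F))
        (WithZero (Multiplicative ℤ))).valuationSubring) : v.adicCompletion (RatFunc F)) = 1 := by
      apply hvu
      rw [map_mul π (d₀ i), map_pow π y₀, ← hy]
      exact hmk0 i
    have h4 : Valued.v ((φ (g i) : v.adicCompletion (RatFunc F)) -
        ((d₀ i * y₀ ^ ℓ : (Valued.v : Valuation (v.adicCompletion (RatFunc F))
        (WithZero (Multiplicative ℤ))).valuationSubring) : v.adicCompletion (RatFunc F))) <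
        Valued.v ((d₀ i * y₀ ^ ℓ : (Valued.v : Valuation (v.adicCompletion (RatFunc F))
        (WithZero (Multiplicative ℤ))).valuationSubring) : v.adicCompletion (RatFunc F)) := by
      rw [h3]
      exact h2
    obtain ⟨z, hz⟩ := prgood_near v p hcop h4
    have h5 : (d i : v.adicCompletion (RatFunc F)) = (d₀ i : v.adicCompletion (RatFunc F)) *
        ((φ P : v.adicCompletion (RatFunc F)) ^ n i * y₀ * z) ^ ℓ := by
      have h6 : (d i : v.adicCompletion (RatFunc F)) =
          (φ P : v.adicCompletion (RatFunc F)) ^ (ℓ * n i) * (φ (g i) :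
            v.adicCompletion (RatFunc F)) := by
        rw [hd i, hgh i, hφ, hφ, map_mul, map_mul, map_pow, map_pow]
      rw [h6, hz]
      have h7 : ((d₀ i * y₀ ^ ℓ : (Valued.v : Valuation (v.adicCompletion (RatFunc F))
        (WithZero (Multiplicative ℤ))).valuationSubring) : v.adicCompletion (RatFunc F)) =
          (d₀ i : v.adicCompletion (RatFunc F)) * (y₀ : v.adicCompletion (RatFunc F)) ^ ℓ := rfl
      rw [h7, mul_pow, mul_pow, ← pow_mul, mul_comm ℓ (n i)]
      ring
    have h8 : (φ P : v.adicCompletion (RatFunc F)) ^ n i * y₀ * z ≠ 0 := by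
      intro h9
      rw [h9, zero_pow hℓ.ne_zero, mul_zero] at h5
      exact (d i).ne_zero h5
    refine ⟨Units.mk0 _ h8, Units.ext ?_⟩
    rw [Units.val_mul, Units.val_mk0, Units.val_pow_eq_pow_val, Units.val_mk0]
    exact h5
  choose z hz using hz
  have hfinal : d = (fun i => Units.mk0 (d₀ i : v.adicCompletion (RatFunc F)) (hd0 i)) *
      z ^ ℓ := by
    ext i
    rw [hz i]
    rfl
  rw [hfinal]
  refine mul_mem hmem (Subgroup.subset_closure ?_)
  left
  exact ⟨z, rfl⟩

end MP72e2e6
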