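import Pool.Agent.Lib.MP_72e2e6_nt.TwSpec

/-!
# MP_72e2e6_nt: statements of the modules of the theorem on towers of twists

Every module proves one of the propositions `StmtTwX` below: file `TwX.lean` (same folder, import
this file) with `theorem tTwX.{u} : StmtTwX.{u}` (or
`theorem tTwX.{u} (h : StmtTwY.{u}) : StmtTwX.{u}` if the docstring says: uses `StmtTwY`; for
the statements without universe: `theorem tTwX : StmtTwX`). The complete proofs are in the
docstrings. `MI` means monic irreducible.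
-/

namespace MP72e2e6

open Polynomial IsDedekindDomain WithZero

universe u

/-! ### Symbols -/

/-- **TwSy** (basic properties of `cs`, `vp`, `sy`; 150 lines).

Proof. `A = AdjoinRoot P` is a finite field (`Fact (Irreducible P)`, `AdjoinRoot.powerBasis'`,
`Module.finite_of_finite F`) of order `q ^ d`, `q = Nat.card F`, `d = P.natDegree`, of
characteristic `≠ 2`. In a finite field of odd order the product of two nonsquares is a square
(`quadraticChar` is multiplicative, `quadraticChar_one_iff_isSquare`, or the group of units is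
cyclic), so `x ↦ if IsSquare x then 0 else 1` is additive on nonzero elements: this is the first
claim. For `h ≠ 0` write `h = P ^ k * h₁`, `k = multiplicity P h`, `¬ P ∣ h₁`; then
`h /ₘ P ^ k = h₁` (`Polynomial.mul_divByMonic_cancel_left`). If `g = P ^ j * g₁` then
`g * h = P ^ (j + k) * (g₁ * h₁)` with `¬ P ∣ g₁ * h₁` (`P` is prime), so the multiplicities add
and `mk P (g₁ * h₁) = mk P g₁ * mk P h₁`. If `¬ P ∣ h` then `k = 0`. For `x ∈ F` nonzero the
image of `C x` in `A` is a square iff `x ^ ((q ^ d - 1) / 2) = 1`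
(`FiniteField.isSquare_iff`), and `(q ^ d - 1) / 2 = (q - 1) / 2 * ∑_{i < d} q ^ i` with
`∑_{i < d} q ^ i ≡ d` modulo `2`; as `x ^ ((q - 1) / 2) = ± 1`, this holds iff `x` is a square in
`F` or `d` is even. -/
def StmtTwSy : Prop :=
  ∀ (F : Type u) [Field F] [Finite F] (_ : Odd (Nat.card F)),
    (∀ x y : F, x ≠ 0 → y ≠ 0 → cs (x * y) = cs x + cs y) ∧
    ∀ (P : F[X]) (_ : P.Monic) (_ : Irreducible P),
      (∀ g h : F[X], g ≠ 0 → h ≠ 0 →
        vp P (g * h) = vp P g + vp P h ∧ sy P (g * h) = sy P g + sy P h) ∧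
      (∀ h : F[X], ¬ P ∣ h → vp P h = 0 ∧ (sy P h = 0 ↔ IsSquare (AdjoinRoot.mk P h))) ∧
      vp P P = 1 ∧ sy P P = 0 ∧
      ∀ x : F, x ≠ 0 → vp P (C x) = 0 ∧ sy P (C x) = P.natDegree * cs x

/-- **TwRec** (quadratic reciprocity in `F[t]`; 200 lines; uses `StmtTwSy`).

Proof. Let `A = F[X]/(P)`, `B = F[X]/(Q)`, finite fields, `d = P.natDegree`, `e = Q.natDegree`,
`q = Nat.card F`. (i) A nonzero `x ∈ A` is a square iff its norm `N x ∈ F` is: `x` is a square iff
`x ^ ((q ^ d - 1) / 2) = 1` (`FiniteField.isSquare_iff`), and by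
`FiniteField.algebraMap_norm_eq_pow`, `N x = x ^ ((q ^ d - 1) / (q - 1))` in `A`, so
`(N x) ^ ((q - 1) / 2) = x ^ ((q ^ d - 1) / 2)`. (ii) `N (Q mod P) = (-1) ^ (d e) N (P mod Q)`. Let
`E` be a splitting field of `P * Q` (or the algebraic closure), `α` running over the roots of `P`,
`β` over the roots of `Q` in `E`. Then `N (Q mod P) = ∏_α Q(α) = ∏_{α, β} (α - β)` and
`N (P mod Q) = ∏_β P(β) = ∏_{α, β} (β - α)`. For the formula `N (Q mod P) = ∏_α Q(α)`:
`Algebra.norm_eq_prod_embeddings` and the embeddings of `A` correspond to the roots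
(`AdjoinRoot`, `PowerBasis.liftEquiv'`); or, as in `norm_root_sub` (Alg.lean) and
`algebraMap_norm_pow_sub` (Val2.lean): `N (g (root))` is the determinant of `g(S)`, `S` the matrix
of the root, with characteristic polynomial `P`, and if `g = ∏ (X - β)` over `E` then
`det g(S) = ∏_β (-1) ^ d * P(β)`; this gives (ii) directly, from the formula
`N (P mod Q) = ∏_β P(β)`. Or with `Polynomial.resultant`, `resultant_comm`,
`resultant_eq_prod_roots_sub`. (iii) So by `StmtTwSy`, `P ∤ Q` and `Q ∤ P`: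
`sy P Q = cs (N (Q mod P))` and `sy Q P = cs (N (P mod Q))`, and the sum is
`cs ((-1) ^ (d e)) = d e * cs (-1)`, `cs (-1) = (q - 1) / 2` modulo `2` (`-1` is a square iff
`(-1) ^ ((q - 1) / 2) = 1`). -/
def StmtTwRec : Prop :=
  ∀ (F : Type u) [Field F] [Finite F] (_ : Odd (Nat.card F)) (P Q : F[X]) (_ : P.Monic)
    (_ : Irreducible P) (_ : Q.Monic) (_ : Irreducible Q) (_ : P ≠ Q),
    sy P Q + sy Q P = (((Nat.card F - 1) / 2 * (P.natDegree * Q.natDegree) : ℕ) : ZMod 2)

/-- **TwFac** (factorization; 120 lines; uses `StmtTwSy`). All the irreducible factors of odd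
multiplicity of `h` belong to the family.

Proof. The first two claims by strong induction on `h.natDegree`. If `h = C x` use `StmtTwSy`
(`vp (pr b) (C x) = 0`, `sy (pr b) (C x) = deg * cs x`). Otherwise let `P` be a monic irreducible
factor (`Polynomial.exists_monic_irreducible_factor`). If `P = pr b₀`: `h = P * h₁`, `h₁` satisfies
the hypotheses (for `P' ∉ range pr`, `vp P' P = 0` as `P' ∤ P`), and by additivity
`vp (pr b') h = [b' = b₀] + vp (pr b') h₁` and `sy (pr b) h = sy (pr b) (pr b₀) + sy (pr b) h₁`;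
leading coefficients agree, and degrees add. If `P ∉ range pr` then `vp P h = 0`, so the
multiplicity of `P` in `h` is even and positive, so `h = P ^ 2 * h₁`; all the quantities of `P ^ 2`
vanish in `ZMod 2` and `h₁` satisfies the hypotheses. Third claim: also by strong induction: all
`vp P h` vanish, `P` monic irreducible (in the family or not). If `h = C x`, `cs x = 0` says that
`x` is a square. Otherwise take a monic irreducible factor `P`, `h = P ^ 2 * h₁`, and `h₁` is a
square. -/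
def StmtTwFac : Prop :=
  ∀ (F : Type u) [Field F] [Finite F] (_ : Odd (Nat.card F)) (ι : Type) [Fintype ι]
    (pr : ι → F[X]) (_ : Fam pr) (h : F[X]) (_ : h ≠ 0)
    (_ : ∀ P : F[X], P.Monic → Irreducible P → (∀ b, pr b ≠ P) → vp P h = 0),
    (∀ b, sy (pr b) h = (pr b).natDegree * cs h.leadingCoeff +
      ∑ b', vp (pr b') h * sy (pr b) (pr b')) ∧
    (h.natDegree : ZMod 2) = ∑ b, (pr b).natDegree * vp (pr b) h ∧
    (cs h.leadingCoeff = 0 → (∀ b, vp (pr b) h = 0) → IsSquare h)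

/-- **TwNu** (the vector of a prime; 150 lines; uses `StmtTwSy`).

Proof. If `P` divides no difference `a i - a j` (`i ≠ j`), then all `vp P (a i - a k) = 0` (for
`i = k` the value is `0` by definition), `nu P a = 0`, and everything is clear (in the third claim
the left side of the equivalence is false as `vp = 0`, and `Pi.single j 1 + Pi.single k 1 ≠ 0`).
Otherwise let `P ∣ a j - a k`, `j ≠ k`; by the coprimality `P` divides no other difference
(`a i - a l`, `{i, l} ≠ {j, k}`), so `vp P (a i - a l) = 0` for these. Let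
`o = vp P (a j - a k) = vp P (a k - a j)` (`vp P (-h) = vp P h`, as `-1` is a unit). Then
`nu P a = o • (single j 1 + single k 1)`, which gives the first three claims (`o` is `0` or `1`).
Fourth claim: the left side is `o * (c j + c k)` for `i = j` and `i = k`, and `0` otherwise; the
right side is `o * (c j + c k) * o` in these cases, `o * o = o`. Fifth claim: it is trivial if
`nu P a = 0`. Otherwise `nu P a = single j 1 + single k 1` and the claim says
`lsy P a ν j + lsy P a ν k = 0` for `ν = nu P a`. The terms with `cs (-1)` cancel. In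
`∑_l (ν j + ν l) sy P (a j - a l)` the terms `l = j`, `l = k` vanish, so it is the sum over
`l ≠ j, k` of `sy P (a j - a l)`, and similarly for `k`; and `sy P (a j - a l) = sy P (a k - a l)`
as `P` divides neither polynomial and both have the same image in `AdjoinRoot P`. -/
def StmtTwNu : Prop :=
  ∀ (F : Type u) [Field F] [Finite F] (_ : Odd (Nat.card F)) (m n : ℕ) (a : Fin m → F[X])
    (_ : Pts m n a) (P : F[X]) (_ : P.Monic) (_ : Irreducible P),
    (nu P a = 0 ∨ ∃ j k, j ≠ k ∧ nu P a = Pi.single j 1 + Pi.single k 1) ∧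
    ((∀ i j, i ≠ j → ¬ P ∣ a i - a j) → nu P a = 0) ∧
    (∀ j k, j ≠ k → (vp P (a j - a k) = 1 ↔ nu P a = Pi.single j 1 + Pi.single k 1)) ∧
    (∀ (c : Fin m → ZMod 2) (i : Fin m),
      ∑ k, (c i + c k) * vp P (a i - a k) = ip (nu P a) c * nu P a i) ∧
    ip (nu P a) (lsy P a (nu P a)) = 0

/-! ### Local images -/

/-- **TwLoc** (the local lemma; 300 lines). `M` is a complete discretely valued field with finite
residue field (constants `F`) of odd characteristic. All the distances of the branch points are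
`‖r‖` with `v r` odd, except that `A j`, `A k` may be closer.

Proof. Write `a ~ b` if `a / b` is a nonzero square in `L`; elements `x` with `‖x - 1‖ < 1` are
squares (`exists_pow_eq_of_principal`, Val.lean). Use `localImage_le` (Alg.lean) as in the proof of
`localImage_le_torsionGroup` (Infty.lean, GInf.lean: how to put the norm on `L`): let `L / M` be
finite, `x, w ∈ L`, `∏ (x - A i) = w ^ 2`, `d i = N (x - A i)`. `N` of a square is a square, `N` of
`c ∈ M` is `c ^ [L : M]`. Fix `j`, `k`. Lemmas: `mem_torsionGroup_of` (with exponent `0`: all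
`d i` squares), `mem_torsionGroup_of_close` (Infty.lean), `unit_trick` (GInf.lean).
(1) `‖x - A i‖ > ‖r‖` for some `i`, so for all `i` (ultrametric). `(x - A i) / (x - A j)` is
principal, so `w ^ 2 ~ (x - A j) ^ m`, `m` odd: `x - A j` is a square, and so are all `x - A i`.
(2) `‖x - A i₀‖ < ‖A i₀ - A i‖` for some `i₀` and all `i ≠ i₀`: `mem_torsionGroup_of_close`.
(3) `‖x - A i‖ = ‖r‖` for all `i`. Put `x' = (x - A j) / r`, `a' i = (A i - A j) / r ∈ M`,
`‖a' i‖ ≤ 1`, choose `c i ∈ F` with `‖a' i - c i‖ < 1`. Then `x - A i = r (x' - a' i)`,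
`‖x' - a' i‖ = 1 = ‖x' - c i‖` and `x' - a' i ~ x' - c i`. `r * ∏ (x' - a' i)` is the square of
`w / r ^ ((m - 1) / 2)`, so `unit_trick` (`Q = r`, `g = ∏ (x' - a' i)`) gives `[L : M]` even and
`N (x' - c i)` a square. So all `d i` are squares.
If none of (1), (2), (3) holds: all `‖x - A i‖ ≤ ‖r‖` and some `‖x - A i₀‖ < ‖r‖`. Then
`‖A j - A k‖ < ‖r‖` and `i₀ ∈ {j, k}`, otherwise (2). Let `u = ∏_{i ≠ j, k} (A j - A i) ∈ M`; its
valuation is `(m - 2)` times the one of `r`: odd. For `i ≠ j, k`: `x - A i ~ A j - A i` (quotient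
principal), so `(x - A j) (x - A k) u` is a square in `L`. Let `δ = ‖A j - A k‖`; `x - A j`,
`x - A k` both have norm `≥ δ` (otherwise (2)).
(4) `‖x - A j‖ = δ` (then `‖x - A k‖ = δ`, by (2)). Put `x' = (x - A j) / (A k - A j)`: `‖x'‖ = 1`,
`‖x' - 1‖ = 1`, and `u * (x' (x' - 1))` is a square: `unit_trick` with `Q = u`, `g = x' (x' - 1)`,
constants `0` and `1`: `[L : M]` is even, `N x'` and `N (x' - 1)` are squares; so all `d i` are
squares.
(5) `δ < ‖x - A j‖ < ‖r‖`. `x - A k ~ x - A j`, so `u = s ^ 2` with `s ∈ L`, and `u` is not a square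
in `M` (odd valuation), so `M' = M(s)` has degree `2` over `M`, `[L : M]` is even and for
`i ≠ j, k`, `d i` is a square in `M`. `N (x - A j)` is the norm from `M'` of some `y = α + β s`, so
it is `α ^ 2 - u β ^ 2`; the valuations of `α ^ 2` and `u β ^ 2` are different, so it is a square
or `- u` times a square (factor out the bigger term: the rest is principal). `d k` has the same
class. In the first case all are squares. In the second case `d` is, up to squares, the product of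
the torsion tuples of `j` and `k`: at `i ≠ j, k`: `(A j - A i) (A k - A i) ~ 1`; at `j`:
`(∏_{i ≠ j} (A j - A i))⁻¹ (A k - A j) = - 1 / u ~ - u`; at `k`: `- 1 / u'` with
`u' = ∏_{i ≠ j, k} (A k - A i) ~ u` (quotients principal). -/
def StmtTwLoc : Prop :=
  ∀ (F M : Type u) [Field F] [Finite F] [NontriviallyNormedField M] [IsUltrametricDist M]
    [CompleteSpace M] [Algebra F M] (p : ℕ) [Fact p.Prime] [CharP F p] (_ : p ≠ 2)
    (_ : ∀ y : M, ‖y‖ ≤ 1 → ∃ α : F, ‖y - algebraMap F M α‖ < 1)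
    (v : Valuation M (WithZero (Multiplicative ℤ))) (_ : ∀ x y : M, ‖x‖ ≤ ‖y‖ ↔ v x ≤ v y)
    (m : ℕ) (_ : Odd m) (A : Fin m → M) (_ : Function.Injective A) (r : M)
    (_ : ¬ (2 : ℤ) ∣ WithZero.log (v r)) (j k : Fin m) (_ : j ≠ k)
    (_ : ∀ i l, i ≠ l → ¬ (i = j ∧ l = k) → ¬ (i = k ∧ l = j) → ‖A i - A l‖ = ‖r‖)
    (_ : ‖A j - A k‖ ≤ ‖r‖),
    localImage 2 A (fun _ => 1) M ≤ torsionGroup 2 A (fun _ => 1)

/-- **TwLocV** (100 lines; uses `StmtTwLoc`). The same for a `Valued` field, with a condition on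
the residue field.

Proof. As for `localImage_le_torsionGroup_gen` and `localImage_le_torsionGroup_res` (GRes.lean):
`nonempty_rankOne`, `Valued.toNontriviallyNormedField`, the finite field of constants is
`fixedSubfield M p N`, whose elements approximate by `exists_fixed_near`. -/
def StmtTwLocV : Prop :=
  ∀ (M : Type u) [Field M] [Valued M (WithZero (Multiplicative ℤ))] [CompleteSpace M] (p N : ℕ)
    [Fact p.Prime] [CharP M p] (_ : p ≠ 2) (_ : N ≠ 0)
    (_ : ∃ x : M, Valued.v x ≠ 0 ∧ Valued.v x ≠ 1)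
    (_ : ∀ y : M, Valued.v y ≤ 1 → Valued.v (y ^ p ^ N - y) < 1)
    (m : ℕ) (_ : Odd m) (A : Fin m → M) (_ : Function.Injective A) (r : M)
    (_ : ¬ (2 : ℤ) ∣ WithZero.log (Valued.v r)) (j k : Fin m) (_ : j ≠ k)
    (_ : ∀ i l, i ≠ l → ¬ (i = j ∧ l = k) → ¬ (i = k ∧ l = j) →
      Valued.v (A i - A l) = Valued.v r)
    (_ : Valued.v (A j - A k) ≤ Valued.v r),
    localImage 2 A (fun _ => 1) M ≤ torsionGroup 2 A (fun _ => 1)

/-- **TwLocF** (finite places dividing `E` exactly once; 150 lines; uses `StmtTwLocV`).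

Proof. `M = v.adicCompletion (RatFunc F)`. `valued_adic`, `nontriv_adic` (GComp.lean). Residue
field: with `Q = (Nat.card F) ^ P.natDegree = p ^ N` the order of the field `F[X]/(P)`, every
`x = f / g ∈ F(t)` with `v x ≤ 1` (write it with `P ∤ g`) satisfies `v (x ^ Q - x) < 1`, because
`P ∣ f ^ Q g - f g ^ Q`, as `y ^ Q = y` in `F[X]/(P)`; then pass to the completion by density, as in
`res_comp` (GComp.lean; `v.adicCompletion K` is the completion of `v.valuation K`). `M` has
characteristic `p`, odd. Apply `StmtTwLocV` with `A i = algebraMap (E * a i)`, `r = algebraMap E`: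
`v (E (a i - a l)) = v E` if `P ∤ a i - a l`, and `≤ v E` always; `log v E = -1`. For `j ≠ k` take
the pair with `P ∣ a j - a k` if there is one, otherwise any pair. `localImage` of `pts E a` over
`M` is `localImage` of `algebraMap ∘ pts E a` (by definition, `Algebra.algebraMap_self`). Then
`exists_of_mem_torsionGroup` (Tors.lean). -/
def StmtTwLocF : Prop :=
  ∀ (F : Type u) [Field F] [Finite F] (_ : Odd (Nat.card F)) (m : ℕ) (_ : Odd m) (_ : 3 ≤ m)
    (E : F[X]) (_ : E ≠ 0) (a : Fin m → F[X]) (_ : Function.Injective a)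
    (v : HeightOneSpectrum F[X]) (P : F[X]) (_ : P.Monic) (_ : Irreducible P)
    (_ : v.asIdeal = Ideal.span {P}) (_ : P ∣ E) (_ : ¬ P ^ 2 ∣ E)
    (_ : ∀ i j k l, i ≠ j → k ≠ l → P ∣ a i - a j → P ∣ a k - a l →
      (i = k ∧ j = l) ∨ (i = l ∧ j = k))
    (d : Fin m → (v.adicCompletion (RatFunc F))ˣ)
    (_ : d ∈ localImage 2 (pts E a) (fun _ => 1) (v.adicCompletion (RatFunc F))),
    ∃ t ∈ torsionGroup 2 (pts E a) (fun _ => 1), ∃ z : Fin m → (v.adicCompletion (RatFunc F))ˣ,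
      d = baseChange (v.adicCompletion (RatFunc F)) t * z ^ 2

open Classical in
/-- **TwLocI** (infinity; 100 lines; uses `StmtTwLocV`).

Proof. `M` is the completion of `F(t)` at `RatFunc.inftyValuation F`; `valued_comp`,
`nontriv_comp`, `res_comp` (GComp.lean) and `inftyValuation_res` (GMain.lean, with
`Q = Nat.card F ^ 1 = p ^ N`). `A i = algebraMap (E * a i)`, `r = algebraMap (E * X ^ n)`:
`inftyValuation` of a nonzero polynomial is `exp` of its degree
(`RatFunc.inftyValuation.polynomial`), and `E (a i - a l)` has degree `E.natDegree + n`, odd, for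
all `i ≠ l`. Any `j ≠ k`. The end as in TwLocF. -/
def StmtTwLocI : Prop :=
  ∀ (F : Type u) [Field F] [Finite F] (_ : Odd (Nat.card F)) (m n : ℕ) (_ : Odd m) (_ : 3 ≤ m)
    (E : F[X]) (_ : E ≠ 0) (a : Fin m → F[X]) (_ : ∀ i j, i ≠ j → (a i - a j).degree = n)
    (_ : Odd (E.natDegree + n))
    (d : Fin m → ((RatFunc.inftyValuation F).Completion)ˣ)
    (_ : d ∈ localImage 2 (pts E a) (fun _ => 1) (RatFunc.inftyValuation F).Completion),
    ∃ t ∈ torsionGroup 2 (pts E a) (fun _ => 1),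
      ∃ z : Fin m → ((RatFunc.inftyValuation F).Completion)ˣ,
        d = baseChange (RatFunc.inftyValuation F).Completion t * z ^ 2

/-- **TwSplN** (split multiplicative places, normed fields; 150 lines). `M` complete discretely
valued of odd residue characteristic, all `A i` integral, all distances `1` except that `A j`, `A k`
are closer, and `∏_{i ≠ j, k} (A j - A i)` is a square in `M`. Then for `d` in the local image
`d j * d k` is a square and the valuations of the other `d i` are even.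

Proof. The `d` with these properties form a subgroup `H` (containing the squares), so by
`localImage_le` (Alg.lean) we can take `d i = N (x - A i)`, `∏ (x - A i) = w ^ 2` in a finite
extension `L`. `~` as in TwLoc: equal up to a nonzero square of `L`; principal elements are squares.
`‖d i‖ = ‖x - A i‖ ^ [L : M]` (`norm_algebraNorm`, Val.lean), so an equation
`‖x - A i‖ = ‖z‖ ^ 2` with `z ∈ L` gives `‖d i‖ = ‖N z‖ ^ 2`.
(1) `‖x‖ > 1`: all `x - A i ~ x`, `w ^ 2 ~ x ^ m`, `m` odd, so all `x - A i` are squares in `L` and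
all `d i` are squares.
(2) `‖x‖ ≤ 1` and all `‖x - A i‖ = 1`: `‖d i‖ = 1`, and `(x - A j) / (x - A k)` is principal, so
`(x - A j) (x - A k)` is a square in `L` and `d j * d k` is a square.
(3) `‖x - A i₀‖ < 1`, `i₀ ≠ j, k`: for `i ≠ i₀`, `‖x - A i‖ = 1` and
`x - A i ~ A i₀ - A i`; `A i₀ - A j ~ A i₀ - A k` (quotient principal), so `(x - A j) (x - A k)` is a
square. `‖x - A i₀‖ = ‖w‖ ^ 2`.
(4) `‖x - A j‖ < 1` or `‖x - A k‖ < 1` (then both): for `i ≠ j, k`, `‖x - A i‖ = 1` and
`x - A i ~ A j - A i`, so `w ^ 2 ~ (x - A j) (x - A k) u`, `u = ∏_{i ≠ j, k} (A j - A i) = s ^ 2`: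
`(x - A j) (x - A k)` is a square in `L`. -/
def StmtTwSplN : Prop :=
  ∀ (M : Type u) [NontriviallyNormedField M] [IsUltrametricDist M] [CompleteSpace M] (p : ℕ)
    [Fact p.Prime] [CharP M p] (_ : p ≠ 2)
    (v : Valuation M (WithZero (Multiplicative ℤ))) (_ : ∀ x y : M, ‖x‖ ≤ ‖y‖ ↔ v x ≤ v y)
    (m : ℕ) (_ : Odd m) (A : Fin m → M) (_ : ∀ i, ‖A i‖ ≤ 1) (j k : Fin m) (_ : j ≠ k)
    (_ : ∀ i l, i ≠ l → ¬ (i = j ∧ l = k) → ¬ (i = k ∧ l = j) → ‖A i - A l‖ = 1)
    (_ : ‖A j - A k‖ < 1) (s : M)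
    (_ : ∏ i ∈ (Finset.univ.erase j).erase k, (A j - A i) = s ^ 2)
    (d : Fin m → Mˣ) (_ : d ∈ localImage 2 A (fun _ => 1) M),
    (∃ z : M, (d j : M) * (d k : M) = z ^ 2) ∧
      ∀ i, i ≠ j → i ≠ k → (2 : ℤ) ∣ WithZero.log (v (d i : M))

/-- **TwSplF** (split multiplicative places; 120 lines; uses `StmtTwSplN`).

Proof. `M = v.adicCompletion (RatFunc F)` with the norm of `Valued.toNontriviallyNormedField`
(`nonempty_rankOne`, `nontriv_adic`, as in the proof of `log_dvd_of_mem_localImage`, Comp.lean),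
`A i = algebraMap (E * a i)`. As `P ∤ E`: `v (E (a i - a l)) = 1` if `P ∤ a i - a l`, `< 1` for the
pair `j, k`. The product `∏_{i ≠ j, k} (A j - A i)` is the image of the polynomial
`E ^ (m - 2) * ∏ (a j - a i) = E ^ (m - 3) * h`, `h = E * ∏ (a j - a i)`, `m - 3` even; `h` is
prime to `P` and a square modulo `P`, `h ≡ g ^ 2`, so `h / g ^ 2` is principal and a square in `M`
(`exists_pow_eq_of_principal`, Val.lean). So the product is a square in `M`. -/
def StmtTwSplF : Prop :=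
  ∀ (F : Type u) [Field F] [Finite F] (_ : Odd (Nat.card F)) (m : ℕ) (_ : Odd m) (_ : 3 ≤ m)
    (E : F[X]) (a : Fin m → F[X]) (v : HeightOneSpectrum F[X]) (P : F[X]) (_ : P.Monic)
    (_ : Irreducible P) (_ : v.asIdeal = Ideal.span {P}) (_ : ¬ P ∣ E) (j k : Fin m) (_ : j ≠ k)
    (_ : ∀ i l, i ≠ l → ¬ (i = j ∧ l = k) → ¬ (i = k ∧ l = j) → ¬ P ∣ a i - a l)
    (_ : P ∣ a j - a k)
    (_ : IsSquare (AdjoinRoot.mk P (E * ∏ i ∈ (Finset.univ.erase j).erase k, (a j - a i))))
    (d : Fin m → (RatFunc F)ˣ)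
    (_ : baseChange (v.adicCompletion (RatFunc F)) d ∈
      localImage 2 (pts E a) (fun _ => 1) (v.adicCompletion (RatFunc F))),
    (∃ z : v.adicCompletion (RatFunc F),
      algebraMap (RatFunc F) (v.adicCompletion (RatFunc F)) ((d j : RatFunc F) * d k) = z ^ 2) ∧
      ∀ i, i ≠ j → i ≠ k → (2 : ℤ) ∣ WithZero.log (v.valuation (RatFunc F) (d i : RatFunc F))

/-- **TwSqF** (squares in the completion at a finite place; 120 lines; may use the definitions of
`vp`, `sy` directly or `StmtTwSy`: uses `StmtTwSy`).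

Proof. `v (h) = v (z) ^ 2` (`valued_adic`, GComp.lean), and `log v h = - multiplicity P h`, so the
multiplicity is even, `= 2 k`: `vp P h = 0`. `h = P ^ (2 k) * h₁`, `P ∤ h₁`, `z₁ = z / P ^ k`,
`z₁ ^ 2 = h₁`, `v z₁ = 1`. By density (`denseRange`, as in `res_comp`) there is `y ∈ F(t)` with
`v (z₁ - y) < 1`, so `v y = 1`, `v (h₁ - y ^ 2) = v ((z₁ - y) (z₁ + y)) < 1`. Write `y = f / g` with
`P ∤ g` (take the numerator and the denominator: they are coprime and `v y ≤ 1`); then
`v (h₁ g ^ 2 - f ^ 2) < 1`, so `P ∣ h₁ g ^ 2 - f ^ 2` and in the field `AdjoinRoot P`: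
`mk h₁ = (mk f / mk g) ^ 2`. So `sy P h = 0` (`h /ₘ P ^ (2 k) = h₁`). -/
def StmtTwSqF : Prop :=
  ∀ (F : Type u) [Field F] [Finite F] (_ : Odd (Nat.card F)) (v : HeightOneSpectrum F[X])
    (P : F[X]) (_ : P.Monic) (_ : Irreducible P) (_ : v.asIdeal = Ideal.span {P}) (h : F[X])
    (_ : h ≠ 0) (z : v.adicCompletion (RatFunc F))
    (_ : algebraMap (RatFunc F) (v.adicCompletion (RatFunc F))
      (algebraMap F[X] (RatFunc F) h) = z ^ 2),
    vp P h = 0 ∧ sy P h = 0

open Classical in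
/-- **TwSqI** (squares in the completion at infinity; 80 lines).

Proof. The valuation of `h` is `exp` of the degree (`RatFunc.inftyValuation.polynomial`,
`valued_comp`), equal to the square of the one of `z`: the degree is even, `= 2 k`. `z₁ = z / X ^ k`
has valuation `1`; by density (`denseRange_comp`) and `exists_const_near` (Place.lean), or by
`exists_const_near'` adapted, there is `α ∈ F` with `v (z₁ - α) < 1`. Then
`v (h / X ^ (2 k) - α ^ 2) < 1`; as `h / X ^ (2 k)` minus the leading coefficient of `h` has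
valuation `< 1`, the constant `h.leadingCoeff - α ^ 2` has valuation `< 1`, so it is `0`. -/
def StmtTwSqI : Prop :=
  ∀ (F : Type u) [Field F] [Finite F] (h : F[X]) (_ : h ≠ 0)
    (z : (RatFunc.inftyValuation F).Completion)
    (_ : algebraMap (RatFunc F) (RatFunc.inftyValuation F).Completion
      (algebraMap F[X] (RatFunc F) h) = z ^ 2),
    (h.natDegree : ZMod 2) = 0 ∧ cs h.leadingCoeff = 0

/-- **TwTor** (the torsion group in terms of `tau`; 150 lines).

Proof. Work in `K = F(t)`, write `~` for equality up to nonzero squares, `A i = E a_i`. For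
`x ≠ 0` and natural numbers `e ≡ e'` modulo `2`, `x ^ e ~ x ^ e'`; so `x ^ (c + c').val ~
x ^ c.val * x ^ c'.val` for `c c' : ZMod 2`. Hence `tau E a (c + c') i ~ tau E a c i * tau E a c' i`
(the factor with `k = i` has exponent `(c i + c i).val = 0`), and `tau E a 0 i = 1`. For
`c_j = 1 - e_j` (`c_j j = 0`, all other entries `1`; its sum is `m - 1 = 0`): for `i ≠ j`,
`tau E a c_j i = -E (a_i - a_j) = A j - A i`, the torsion tuple; for `i = j`,
`tau = ∏_{k ≠ j} (a_j - a_k) ~ (∏_{k ≠ j} E (a_j - a_k))⁻¹` as `m - 1` is even. First claim: the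
`t` with the property form a subgroup which contains the generators of `torsionGroup`. Second claim:
for `∑ c = 0` we have `c = ∑_{j : c j = 1} c_j` (the number of terms is even), so
`tau E a c i ~ ∏_{j : c j = 1}` (torsion tuple `j` at `i`), and `t` is the product of torsion
tuples and of a square (`mem_torsionGroup_pow`, `torsionTuple_ne_zero`, Infty.lean; induction
on the set of the `j` or `Subgroup.prod_mem`). -/
def StmtTwTor : Prop :=
  ∀ (F : Type u) [Field F] (m : ℕ) (_ : Odd m) (E : F[X]) (_ : E ≠ 0) (a : Fin m → F[X])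
    (_ : Function.Injective a),
    (∀ t ∈ torsionGroup 2 (pts E a) (fun _ => 1), ∃ c : Fin m → ZMod 2, ∑ i, c i = 0 ∧
      ∀ i, ∃ z : RatFunc F, (t i : RatFunc F) =
        algebraMap F[X] (RatFunc F) (tau E a c i) * z ^ 2) ∧
    ∀ c : Fin m → ZMod 2, ∑ i, c i = 0 → ∀ t : Fin m → (RatFunc F)ˣ,
      (∀ i, ∃ z : RatFunc F, (t i : RatFunc F) =
        algebraMap F[X] (RatFunc F) (tau E a c i) * z ^ 2) →
      t ∈ torsionGroup 2 (pts E a) (fun _ => 1)

open Classical in
/-- **TwSel** (the Selmer conditions in terms of polynomials; 300 lines; uses `StmtTwSy`,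
`StmtTwLocF`, `StmtTwLocI`, `StmtTwSplF`, `StmtTwSqF`, `StmtTwSqI`, `StmtTwTor`, in this order).

Proof. Let `E = tw pr ρ x₀`, `K = F(t)`. `E ≠ 0`, `a` is injective (degrees). A monic irreducible
`P` divides `E` iff `P = pr b` with `ρ b = 1`, and then `P ^ 2 ∤ E`. For `P` monic irreducible let
`v` be the place with `v.asIdeal = (P)`. Every `y ∈ Kˣ` is `h * z ^ 2`, `h` a nonzero polynomial
(numerator times denominator), `z ∈ K`.
(1) `StmtTwLocI` for `baseChange d`: `baseChange d = baseChange t * z ^ 2`; `StmtTwTor` for `t`: `c₀`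
with `t i ~ tau E a c₀ i`. Put `δ i = num (d i) * denom (d i) * tau E a c₀ i`, a nonzero polynomial,
equal to `d i * tau E a c₀ i` up to a square of `K`.
(2) `d i * tau E a c₀ i ~ t i * tau E a c₀ i ~ tau E a c₀ i ^ 2` in the completion at infinity, so
`δ i` is a square there: `StmtTwSqI` gives the third claim.
(3) `P ∉ range pr`: `P ∤ E` and `P` divides no difference, so `vp P (tau ..) = 0`, and
`log_dvd_of_mem_localImage` (Comp.lean, with `valued_adic`, `nontriv_adic`, `b = 1`, `∑ b = m`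
odd) says that the valuation of `d i` is even: `vp P (num * denom) = 0`. Second claim.
(4) `ρ b = 1`, `P = pr b`: `StmtTwLocF` (its hypothesis on the pairs follows from the
coprimality), `StmtTwTor`: `c₁` with `d i * tau E a c₁ i` a square in the completion; so
`StmtTwSqF` for `num * denom * tau E a c₁ i`: `vp P` and `sy P` of it vanish. Take `c = c₀ + c₁`.
By `StmtTwSy`, `vp P` and `sy P` are additive, so that `vp P (x ^ e)` only depends on `e`
modulo `2`, and `vp P (tau E a (c + c') i) = vp P (tau E a c i) + vp P (tau E a c' i)`, the same for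
`sy`. So `vp P (δ i * tau E a c i) = vp P (num * denom) + 2 * .. + vp P (tau E a c₁ i) = 0`.
(5) `ρ b = 0`, `P = pr b`: then `P ∤ E`. By `hspl` there are `j ≠ k` with `vp P (a j - a k) = 1` (so
`P ∣ a j - a k`, and by coprimality this is the only pair; a pair with `P ∣ a j' - a k'` is
`(j, k)` or `(k, j)`). `d * t ∈ localImage` at `v`, as `t` is in the torsion group
(`baseChange_mem_localImage`, Tors.lean), and `d i * t i ~ δ i`. `StmtTwSplF` for `d * t`: the
square condition follows from `hspl` and `StmtTwSy` (`sy` is additive; all the factors are prime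
to `P`). So the valuations of the `δ i`, `i ≠ j, k`, are even, and `δ j * δ k` is a square in the
completion: `StmtTwSqF` gives `vp` and `sy` of `δ j * δ k` equal to `0`.
(6) If all `δ i` are squares, then `d i ~ tau E a c₀ i` and `StmtTwTor` (second part) applies. -/
def StmtTwSel : Prop :=
  ∀ (F : Type u) [Field F] [Finite F] (_ : Odd (Nat.card F)) (m n : ℕ) (a : Fin m → F[X])
    (_ : Pts m n a) (ι : Type) [Fintype ι] (pr : ι → F[X]) (_ : Fam pr)
    (_ : ∀ P : F[X], P.Monic → Irreducible P → ∀ i j, i ≠ j → P ∣ a i - a j → ∃ b, pr b = P)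
    (ρ : ι → ZMod 2) (x₀ : F) (_ : x₀ ≠ 0) (_ : Odd ((tw pr ρ x₀).natDegree + n))
    (_ : ∀ b, ρ b = 0 → ∃ j k, j ≠ k ∧ vp (pr b) (a j - a k) = 1 ∧
      sy (pr b) (tw pr ρ x₀) +
        ∑ i ∈ (Finset.univ.erase j).erase k, sy (pr b) (a j - a i) = 0)
    (d : Fin m → (RatFunc F)ˣ)
    (_ : d ∈ placesSelmer F[X] (RatFunc.inftyValuation F) 2 (pts (tw pr ρ x₀) a) (fun _ => 1)),
    ∃ δ : Fin m → F[X], (∀ i, δ i ≠ 0) ∧
      (∀ P : F[X], P.Monic → Irreducible P → (∀ b, pr b ≠ P) → ∀ i, vp P (δ i) = 0) ∧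
      (∀ i, ((δ i).natDegree : ZMod 2) = 0 ∧ cs (δ i).leadingCoeff = 0) ∧
      (∀ b, ρ b = 1 → ∃ c : Fin m → ZMod 2, ∑ i, c i = 0 ∧ ∀ i,
        vp (pr b) (δ i * tau (tw pr ρ x₀) a c i) = 0 ∧
        sy (pr b) (δ i * tau (tw pr ρ x₀) a c i) = 0) ∧
      (∀ b, ρ b = 0 → ∀ j k, j ≠ k → pr b ∣ a j - a k →
        (∀ i, i ≠ j → i ≠ k → vp (pr b) (δ i) = 0) ∧ vp (pr b) (δ j) = vp (pr b) (δ k) ∧
        sy (pr b) (δ j) = sy (pr b) (δ k)) ∧
      ((∀ i, IsSquare (δ i)) →
        d ∈ torsionGroup 2 (pts (tw pr ρ x₀) a) (fun _ => 1))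

open Classical in
/-- **TwEq** (the equations; 200 lines; uses `StmtTwSy`, `StmtTwFac`, `StmtTwNu`, `StmtTwSel`).

Proof. Take `δ` from `StmtTwSel`, `x b i = vp (pr b) (δ i)`; for `ρ b = 1` let `c b` be the vector of
`StmtTwSel`, for `ρ b = 0` let `c b = 0`. By `StmtTwSy` for `P = pr b` (`E = tw pr ρ x₀`):
`vp P (tau E a c i) = c i * vp P (-E) + ∑_k (c i + c k) vp P (a i - a k)` (the term with `k = i`
vanishes; `(x : ZMod 2).val` as a coefficient is `x`), the same for `sy`;
`vp P (-E) = ρ b = 1` and `sy P (-E) = deg P * cs (-x₀) + ∑_{b'} ρ b' * sy P (pr b')`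
(`-E = C (-x₀) * ∏ ..`, additivity, `vp P (pr b') = 0` for `b' ≠ b`).
`StmtTwFac` for `δ i`, whose leading coefficient is a square and degree even:
`sy P (δ i) = ∑_{b'} x b' i * sy P (pr b')` and `0 = ∑_b deg * x b i`. This gives `even`, `inf`,
`val`, `sym`. For `ρ b = 0`: by the hypothesis there are `j ≠ k` with `vp P (a j - a k) = 1`, so
`P ∣ a j - a k` and by `StmtTwNu` `nu P a = single j 1 + single k 1`; the fifth claim of
`StmtTwSel` gives `x b = x b j • nu P a` and `∑_i nu P a i * sy P (δ i) = sy P (δ j) + sy P (δ k) = 0`.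
Last claim: if `x = 0`, every `δ i` is a square by `StmtTwFac` (third claim). -/
def StmtTwEq : Prop :=
  ∀ (F : Type u) [Field F] [Finite F] (_ : Odd (Nat.card F)) (m n : ℕ) (a : Fin m → F[X])
    (_ : Pts m n a) (ι : Type) [Fintype ι] (pr : ι → F[X]) (_ : Fam pr)
    (_ : ∀ P : F[X], P.Monic → Irreducible P → ∀ i j, i ≠ j → P ∣ a i - a j → ∃ b, pr b = P)
    (ρ : ι → ZMod 2) (x₀ : F) (_ : x₀ ≠ 0) (_ : Odd ((tw pr ρ x₀).natDegree + n))
    (_ : ∀ b, ρ b = 0 → ∃ j k, j ≠ k ∧ vp (pr b) (a j - a k) = 1 ∧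
      sy (pr b) (tw pr ρ x₀) +
        ∑ i ∈ (Finset.univ.erase j).erase k, sy (pr b) (a j - a i) = 0)
    (d : Fin m → (RatFunc F)ˣ)
    (_ : d ∈ placesSelmer F[X] (RatFunc.inftyValuation F) 2 (pts (tw pr ρ x₀) a) (fun _ => 1)),
    ∃ x c : ι → Fin m → ZMod 2, EqSys a pr ρ x₀ x c ∧
      ((∀ b i, x b i = 0) → d ∈ torsionGroup 2 (pts (tw pr ρ x₀) a) (fun _ => 1))

/-- **TwNet** (the equations for a network; 250 lines; uses `StmtTwSy`, `StmtTwFac`, `StmtTwNu`).
The family is `Option V ⊕ κ`: `some v` are the primes dividing the differences (and possibly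
others), `none` is a prime of odd degree, `κ` the auxiliary primes, of even degree, whose symbols
are prescribed by the adjacencies `A`, `e`, `l`. `D v` is the degree, `ν v` the vector of `v`.

Proof. Write `P_v`, `R = pr (inl none)`, `Q_k`, `x_v`, `x₀`, `X_k` and so on. As `R` and the `Q_k` do
not divide the differences (they are different from the `P_v` by injectivity), `vp` of the
differences at `R`, `Q_k` vanishes: `EqSys.val` gives `x₀ = c (inl none)` and `X_k = c (inr k)`.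
`StmtTwNu` (fourth claim) turns `EqSys.val` at `v` into `val`. `spl`: `EqSys.spl`. `inf`:
`EqSys.inf`, degrees of the `Q_k` are even, the one of `R` is odd. By `StmtTwSy`,
`cs (-x₀') = cs (-1) + cs x₀'` (`x₀'` the constant of `tw`), and `cs x₀' = ∑ e k` by hypothesis.
`pl`, `pls`, `pl0`: in `EqSys.sym` at `v` the sum over `b' = inr k` is
`∑_k (A k v + e k D v) (X_k + c_v)`; the terms `D v * e k * c_v` cancel with
`c_v * D v * ∑ e k`, and `D v * ∑ e k • X_k` remains; the sum over `b' = inl (some w)` is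
`∑ s v w (x_w + ρ w c_v)`, and the one of `b' = inl none` is `s₁ v (x₀ + c_v)`; the rest is
`lsy`. For `pls` use `EqSys.spl` with the same decomposition (no `c`). For `pl0` the term
`b' = inl none` vanishes as `sy R R = 0`.
`ker` at `k`: `EqSys.sym` at `inr k`, with `c = X_k`, `deg Q_k` even, so the `cs` term vanishes, and
by `StmtTwFac` for `a i - a j` (`i ≠ j`; its prime factors are among the `P_v`):
`sy Q_k (a i - a j) = ∑_v vp P_v (a i - a j) * sy Q_k P_v`. So by `StmtTwNu`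
`∑_j (X_k i + X_k j) sy Q_k (a i - a j) = ∑_v sy Q_k P_v * ip (ν v) X_k * ν v i`. Together:
`∑_v sy Q_k P_v (x_v + ρ v X_k + ip (ν v) X_k ν v) + sy Q_k R (x₀ + X_k) +
∑_{k'} l k k' (X_k' + X_k) = 0` (the term `b' = inr k` has `sy Q_k Q_k = l k k = 0`).
Insert `sy Q_k P_v = A k v + e k D v`, `sy Q_k R = A k none + e k`. The coefficient of `e k` is
`(∑_v D v x_v + x₀) + (∑_v ρ v D v + 1) X_k + ∑_v D v ip (ν v) X_k ν v`. The first bracket
vanishes by `inf`, the second is the degree of `tw` modulo `2`. In the third,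
`∑_v D v vp P_v (a i - a j) = n` for `i ≠ j` (`StmtTwFac`, degree of `a i - a j`), so by `StmtTwNu`
it is `∑_j (X_k i + X_k j) n = n (m X_k i + ∑_j X_k j) = n X_k i` as `m` is odd and
`∑_j X_k j = 0` (`EqSys.even`). The sum is `(deg tw + n) X_k = X_k`. -/
def StmtTwNet : Prop :=
  ∀ (F : Type u) [Field F] [Finite F] (_ : Odd (Nat.card F)) (m n : ℕ) (a : Fin m → F[X])
    (_ : Pts m n a) (V κ : Type) [Fintype V] [Fintype κ] (pr : Option V ⊕ κ → F[X]) (_ : Fam pr)
    (_ : ∀ P : F[X], P.Monic → Irreducible P → ∀ i j, i ≠ j → P ∣ a i - a j →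
      ∃ v : V, pr (Sum.inl (some v)) = P)
    (ρ : Option V ⊕ κ → ZMod 2) (_ : ρ (Sum.inl none) = 1) (_ : ∀ k, ρ (Sum.inr k) = 1)
    (x₀ : F) (_ : x₀ ≠ 0) (_ : Odd ((tw pr ρ x₀).natDegree + n))
    (A : κ → Option V → ZMod 2) (e : κ → ZMod 2) (l : κ → κ → ZMod 2)
    (_ : ((pr (Sum.inl none)).natDegree : ZMod 2) = 1)
    (_ : ∀ k, ((pr (Sum.inr k)).natDegree : ZMod 2) = 0)
    (_ : ∀ k v, sy (pr (Sum.inl v)) (pr (Sum.inr k)) =
      A k v + e k * ((pr (Sum.inl v)).natDegree : ZMod 2))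
    (_ : ∀ k v, sy (pr (Sum.inr k)) (pr (Sum.inl v)) =
      A k v + e k * ((pr (Sum.inl v)).natDegree : ZMod 2))
    (_ : ∀ k k', sy (pr (Sum.inr k)) (pr (Sum.inr k')) = l k k')
    (_ : cs x₀ = ∑ k, e k)
    (x c : Option V ⊕ κ → Fin m → ZMod 2) (_ : EqSys a pr ρ x₀ x c),
    NetSys (fun v => nu (pr (Sum.inl (some v))) a) (fun v => ρ (Sum.inl (some v)))
      (fun v => ((pr (Sum.inl (some v))).natDegree : ZMod 2))
      (fun v w => sy (pr (Sum.inl (some v))) (pr (Sum.inl (some w))))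
      (fun v => sy (pr (Sum.inl (some v))) (pr (Sum.inl none)))
      (fun w => sy (pr (Sum.inl none)) (pr (Sum.inl (some w))))
      (fun v => lsy (pr (Sum.inl (some v))) a) (lsy (pr (Sum.inl none)) a) A e l
      (fun v => x (Sum.inl (some v))) (fun v => c (Sum.inl (some v))) (x (Sum.inl none))
      (fun k => x (Sum.inr k))

/-! ### Linear algebra over the field with two elements -/

/-- **TwLin** (elimination; 200 lines; no universe). The network is `V ⊕ T ⊕ T ⊕ I`: unknowns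
`u v`, `p t`, `q t`, `y r`. Everything is in `ZMod 2` (`x + x = 0`: `CharTwo.add_self_eq_zero`;
every element is `0` or `1`).

Proof. Write `⟨a, b⟩ = ip a b`. For `v` with `ρ v = 1`: `h4` says `x v = ⟨ν v, u v⟩ ν v`; put
`l v = ⟨ν v, u v⟩` (`= 0` if `ν v = 0`). For `ρ v = 0`: `h2` gives `x v = l v • ν v` (choose
`l v = 0` if `ν v = 0`), and `h4` says `u v = (l v + ⟨ν v, u v⟩) ν v`, so `⟨ν v, u v⟩ = 0` by `hip`
and `u v = l v ν v`. In both cases `⟨ν v, u v⟩ = ρ v * l v`, and `⟨ν v, x v⟩ = 0`. Put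
`β t = ⟨ν (ch t), p t⟩`, `α t = ⟨ν (par t), q t⟩`. `h5` (`ρ (ch t) = 1`):
`q t = (l (ch t) + β t) ν (ch t)`, so `α t = l (ch t) + β t` (`⟨ν (par t), ν (ch t)⟩ = 1`). `h6`: if
`ρ (par t) = 1`, `p t = (l (par t) + α t) ν (par t)`; if `ρ (par t) = 0`,
`p t = (l (par t) + α t) ν (par t) + q t` with `⟨ν (ch t), q t⟩ = 0`; so
`β t = l (par t) + α t`, and `l (ch t) = l (par t)`. `x₀ = ∑ D v • x v` by `h3`. If `x₀ = 0`: `y r = 0`
by `h7` and `h8` says `∑ u v = ∑ s₀ v • x v` (`L₀ 0 = 0`). The equation at `v` with `ρ v = 1`: by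
`h1`, `⟨ν v, c v⟩ = ⟨ν v, x v⟩ = 0`, so `c v = x v = l v • ν v`, and `⟨ν v, L v (c v)⟩ = 0` by `hL`;
take the scalar product of `h9` with `ν v`: all the terms with `c v` vanish and
`⟨ν v, u v⟩ = l v`. For `ρ v = 0` it is `h10`. Last claim: if `l = 0`, `α = 0` then `β = 0`,
`x = 0`, `x₀ = 0`, `q = 0`, `p = 0`, `y = 0`, `∑ u = 0`, and for `ρ v = 1`, `c v = 0`,
`L v 0 = 0`, so `h9` says `u v = 0`; for `ρ v = 0`, `u v = l v ν v = 0`. -/
def StmtTwLin : Prop :=
  ∀ (m : ℕ) (V T I : Type) [Fintype V] [DecidableEq V] [Fintype T] [Fintype I]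
    (ν : V → Fin m → ZMod 2) (ρ D : V → ZMod 2) (ch par : T → V) (s : V → V → ZMod 2)
    (s₁ s₀ : V → ZMod 2) (L : V → (Fin m → ZMod 2) → Fin m → ZMod 2)
    (L₀ : (Fin m → ZMod 2) → Fin m → ZMod 2)
    (_hip : ∀ v, ip (ν v) (ν v) = 0) (_hL : ∀ v, L v 0 = 0 ∧ ip (ν v) (L v (ν v)) = 0)
    (_hL0 : L₀ 0 = 0) (_hch : ∀ t, ρ (ch t) = 1 ∧ ip (ν (ch t)) (ν (par t)) = 1)
    (x c u : V → Fin m → ZMod 2) (x₀ : Fin m → ZMod 2) (p q : T → Fin m → ZMod 2)
    (y : I → Fin m → ZMod 2)
    (_h1 : ∀ v, ρ v = 1 → x v = c v + ip (ν v) (c v) • ν v)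
    (_h2 : ∀ v, ρ v = 0 → ∃ l : ZMod 2, x v = l • ν v)
    (_h3 : ∑ v, D v • x v + x₀ = 0)
    (_h4 : ∀ v, (x v + ρ v • u v + ip (ν v) (u v) • ν v) + u v = 0)
    (_h5 : ∀ t, (x (ch t) + ρ (ch t) • p t + ip (ν (ch t)) (p t) • ν (ch t)) + (q t + p t) = 0)
    (_h6 : ∀ t, (x (par t) + ρ (par t) • q t + ip (ν (par t)) (q t) • ν (par t)) +
      (p t + q t) = 0)
    (_h7 : ∀ r, x₀ + y r = 0)
    (_h8 : ∑ w, s₀ w • (x w + ρ w • x₀) + L₀ x₀ + ∑ r, (y r + x₀) + ∑ w, u w = 0)
    (_h9 : ∀ v, ρ v = 1 → ∑ w, s v w • (x w + ρ w • c v) + s₁ v • (x₀ + c v) + L v (c v) +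
      ((u v + c v) + ∑ t ∈ Finset.univ.filter (fun t => ch t = v), (p t + c v) +
        ∑ t ∈ Finset.univ.filter (fun t => par t = v), (q t + c v)) + D v • ∑ w, u w = 0)
    (_h10 : ∀ v, ρ v = 0 → ip (ν v) (∑ w, s v w • x w + s₁ v • x₀ +
      (u v + ∑ t ∈ Finset.univ.filter (fun t => ch t = v), p t +
        ∑ t ∈ Finset.univ.filter (fun t => par t = v), q t) + D v • ∑ w, u w) = 0),
    ∃ (l : V → ZMod 2) (α β : T → ZMod 2), Sol ν ρ D s s₁ s₀ ch par l α β x₀ (∑ w, u w) ∧
      (∀ v, x v = l v • ν v) ∧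
      ((∀ v, l v = 0) → (∀ t, α t = 0) →
        (∀ v, x v = 0 ∧ u v = 0) ∧ x₀ = 0 ∧ (∀ t, p t = 0 ∧ q t = 0) ∧ ∀ r, y r = 0)

/-- **TwPar** (the parity formula; 100 lines; no universe).

Proof. Induction on the finite set `c` of the more general statement (without the hypothesis
`∑ D v • ν v = 0`): `∑_{v, w ∈ c} s v w ip (ν v) (ν w) =
ε * (qf (∑_{v ∈ c} D v • ν v) + ∑_{v ∈ c} D v * qf (ν v))`. Both sides are `0` for `c = ∅`. Adding
`v₀`: the left side grows by `∑_{w ∈ c} (s v₀ w + s w v₀) ip (ν v₀) (ν w)` (the diagonal term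
vanishes as `ip (ν v₀) (ν v₀) = 0`), which is
`ε D v₀ ip (ν v₀) X`, `X = ∑_{w ∈ c} D w • ν w`. For vectors `X`, `Y` with entries of sum `0`:
`qf (X + Y) = qf X + qf Y + ip X Y`, because
`∑_{i < k} (X i Y k + Y i X k) = ∑_{i ≠ k} X i Y k = (∑ X) (∑ Y) - ip X Y` and signs do not matter;
and `qf (D v₀ • ν v₀) = D v₀ * qf (ν v₀)`, as `D v₀ ^ 2 = D v₀`. The sum of the entries of `ν v` is
`ip (ν v) (ν v) = 0`. -/
def StmtTwPar : Prop :=
  ∀ (m : ℕ) (V : Type) [Fintype V] [DecidableEq V] (ν : V → Fin m → ZMod 2) (D : V → ZMod 2)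
    (s : V → V → ZMod 2) (ε : ZMod 2) (_ : ∀ v, ip (ν v) (ν v) = 0)
    (_ : ∀ v w, v ≠ w → s v w + s w v = ε * (D v * D w)) (c : Finset V)
    (_ : ∑ v ∈ c, D v • ν v = 0),
    ∑ v ∈ c, ∑ w ∈ c, s v w * ip (ν v) (ν w) = ε * ∑ v ∈ c, D v * qf (ν v)

/-- **TwFor** (a spanning forest; 100 lines; no universe).

Proof. Let `G` be the simple graph `r` (`SimpleGraph`). In the component of `v₀` take the root `v₀`,
in the other components any vertex (`Quot.out` or choice: `rt v` only depends on the connected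
component of `v`, and lies in it). `rk v` is the distance `G.dist (rt v) v`. If `v ≠ rt v`, a
shortest walk from `rt v` to `v` has a last step `w → v`, `w` at distance `rk v - 1` from `rt v`
(or: `SimpleGraph.Reachable.exists_walk_length_eq_dist`, the reversed walk is a `cons`); put
`par v = w`; then `rt w = rt v` and `rk w < rk v`. -/
def StmtTwFor : Prop :=
  ∀ (V : Type) [Fintype V] [DecidableEq V] (r : V → V → Prop) (_ : ∀ v w, r v w → r w v)
    (_ : ∀ v, ¬ r v v) (v₀ : V),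
    ∃ (rt par : V → V) (rk : V → ℕ), (∀ v w, r v w → rt v = rt w) ∧ (∀ v, rt (rt v) = rt v) ∧
      (∀ v, rt v ≠ v → r v (par v) ∧ rk (par v) < rk v) ∧ rt v₀ = v₀

/-- **TwLinB** (one component; 250 lines; no universe; uses `StmtTwPar`). All the classes of pairs
occur, one root `r`.

Proof. Let `O = {v | ν v ≠ 0}`. (0) `ip (ν v) (ν v) = 0` and `qf (ν v) = 1` for `v ∈ O` (`pair`).
`ip (single j 1 + single k 1) (single j' 1 + single k' 1) = 1` iff the pairs `{j, k}`, `{j', k'}` have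
exactly one common element. (1) All `v ∈ O` have the same root: for two pairs there is a third
pair (`m ≥ 3`) having exactly one element in common with both, unless the two pairs already have
exactly one common element; it occurs by hypothesis `hall`; so by `adj`, `rt v = rt w`. As
`rt r = r` and `r ∈ O`: `rt v = r` for all `v ∈ O`. (2) By `cov`, `ncv`: `ch` is a bijection from
`T` to `O \ {r}` (`ch t ∈ O` since `ip (ν (ch t)) _ = 1`; `ch t ≠ r` since `rt (ch t) ≠ ch t`).
(3) `l v = l r =: λ` for all `v ∈ O`: strong induction on `rk v`: if `v = ch t` then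
`l v = l (par t)`, `par t ∈ O`, `rk (par t) < rk v`. (4) `∑_{v ∈ O} D v • ν v = 0`: the `i`-th entry
is `∑_{k ≠ i}` of the sum of `D v` over the class of `{i, k}`, that is `(m - 1) n = 0`. So
`x₀ = λ • 0 = 0` (`Sol.x0`), `U = ∑ (s₀ v * l v) • ν v`. (5) Sum `Sol.eqn` over `v ∈ O`:
`∑_{v, w ∈ O} s v w λ ip (ν v) (ν w) = λ ε ∑_{v ∈ O} D v = λ ε (m choose 2) n` (`StmtTwPar` and
`cls`: every `v ∈ O` is in exactly one class `j < k`); the `x₀` terms vanish;
`∑ ρ v l v = λ (#O - 1 + ρ r)`; the sums over `T` give `∑_t (α t + β t) = #T λ = (#O - 1) λ`;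
`∑ D v ip (ν v) U = ip (∑ D v • ν v) U = 0`. Total (as `ρ r = 1 + ε (m choose 2) n`):
`λ (ε (m choose 2) n + #O + ε (m choose 2) n + #O - 1) = λ = 0`. (6) So `l = 0`, `U = 0`, `β = α`, and
`Sol.eqn` at `v = ch t` says `α t = ∑_{par t' = ch t} α t'`, where `rk (ch t') > rk (ch t)`; by
induction on `max rk - rk (ch t)`: `α t = 0`. -/
def StmtTwLinB : Prop :=
  ∀ (m : ℕ) (V T : Type) [Fintype V] [DecidableEq V] [Fintype T] (n : ℕ)
    (ν : V → Fin m → ZMod 2) (ρ D : V → ZMod 2) (s : V → V → ZMod 2) (s₁ s₀ : V → ZMod 2)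
    (ε : ZMod 2) (ch par : T → V) (rt : V → V) (rk : V → ℕ)
    (_ : Comb n ν D s ε ch par rt rk)
    (_hall : ∀ j k : Fin m, j ≠ k → ∃ v, ν v = Pi.single j 1 + Pi.single k 1)
    (r : V) (_ : ν r ≠ 0) (_ : rt r = r) (_ : ρ r = 1 + ε * ((m.choose 2 * n : ℕ) : ZMod 2))
    (_ : ∀ v, v ≠ r → ρ v = 1)
    (l : V → ZMod 2) (α β : T → ZMod 2) (x₀ U : Fin m → ZMod 2)
    (_ : Sol ν ρ D s s₁ s₀ ch par l α β x₀ U),
    (∀ v, l v = 0) ∧ ∀ t, α t = 0

/-- **TwLinA** (the case `n` even, several components; 300 lines; no universe; uses `StmtTwPar`).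

Proof. Let `O = {v | ν v ≠ 0}`; `v, w ∈ O` are adjacent if `ip (ν v) (ν w) = 1` (their pairs have
exactly one common element), then `rt v = rt w`. (0), (3) as in TwLinB: `qf (ν v) = 1`,
`l v = l (rt v)` for `v ∈ O` (and `rt v ∈ O`). (1) Call `v ∈ O` isolated if it has no neighbour.
Then it is not `ch t` or `par t` for any `t`, so `rt v = v`, and no other `w ∈ O` has `rt w = v` (`w`
would be some `ch t`, follow the parents, with decreasing `rk`, until the root `v = par t'`: but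
`par t'` has a neighbour). If `v` is not isolated, every `w ∈ O` with `rt w = rt v` is not isolated
(same argument), and if `w` has the same pair as `v` (`ν w = ν v`) then `w` is adjacent to the
neighbours of `v`, so `rt w = rt v`: the set `C_v = {w ∈ O | rt w = rt v}` is a union of classes
`{w | ν w = single j 1 + single k 1}`. (2) So for `v` not isolated: `∑_{w ∈ C_v} D w • ν w = 0` and
`∑_{w ∈ C_v} D w = 0`, because the sum of `D w` over a class is `n = 0`.
(3) `x₀ = 0`: `x₀ = ∑ (D v * l v) • ν v`, group by classes: it is enough that `∑ D v * l v = 0` over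
every class. For a class of non isolated elements `l` is constant on the class and `∑ D v = 0`.
For a class (pair `{j, k}`) of isolated elements: for `v` in it all `ip (ν v) (ν w) = 0`, so
`ip (ν v) x₀ = 0` and `Sol.eqn` says `ρ v * l v + D v * ip (ν v) U = 0`, `l v = D v * μ` with `μ`
depending only on the class, and `∑ D v * l v = μ ∑ D v = 0` (`D v ^ 2 = D v`). So `x₀ = 0` and
`U = ∑ (s₀ v * l v) • ν v`. (4) `l v = 0` for `v` isolated: `ip (ν v) U = 0` as all
`ip (ν v) (ν w) = 0`. (5) `l v = 0` for `v` not isolated, `λ = l v`: sum `Sol.eqn` over `C = C_v`: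
`∑_{v' ∈ C} ∑_w s v' w l w ip (ν v') (ν w)`, where only `w ∈ C` matter, is
`λ ε ∑_{C} D w qf (ν w) = 0` (`StmtTwPar` and (2)); `∑ ρ l = #C λ`; the sums over `T` give
`λ * #{t | ch t ∈ C} = λ (#C - 1)` (`ch t ∈ C` iff `par t ∈ C`; `ch` is a bijection from these `t`
onto `C` without the root); `∑_C D ip (ν) U = 0`. Total: `λ = 0`. (6) `α = 0` as in TwLinB (6). -/
def StmtTwLinA : Prop :=
  ∀ (m : ℕ) (V T : Type) [Fintype V] [DecidableEq V] [Fintype T] (n : ℕ)
    (ν : V → Fin m → ZMod 2) (ρ D : V → ZMod 2) (s : V → V → ZMod 2) (s₁ s₀ : V → ZMod 2)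
    (ε : ZMod 2) (ch par : T → V) (rt : V → V) (rk : V → ℕ)
    (_ : Comb n ν D s ε ch par rt rk) (_ : Even n) (_ : ∀ v, ρ v = 1)
    (l : V → ZMod 2) (α β : T → ZMod 2) (x₀ U : Fin m → ZMod 2)
    (_ : Sol ν ρ D s s₁ s₀ ch par l α β x₀ U),
    (∀ v, l v = 0) ∧ ∀ t, α t = 0

/-! ### Primes with prescribed quadratic symbols -/

open Classical in
/-- **TwMon** (60 lines).

Proof. `mon F n` is in bijection with the polynomials of degree `< n` (subtract `X ^ n`), or with
`Fin n → F` (coefficients). Second claim: `e ↦ d * e` is a bijection from `mon F (n - k)` to the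
multiples of `d` in `mon F n` (`Finset.sum_bij`; the quotient is monic: `Monic.of_mul_monic_left`;
degrees: `Monic.natDegree_mul`). Third claim: a multiple of `d` has degree `≥ k`. -/
def StmtTwMon : Prop :=
  ∀ (F : Type u) [Field F] [Finite F],
    (∀ n, (mon F n).card = Nat.card F ^ n) ∧
    ∀ (k n : ℕ) (d : F[X]), d ∈ mon F k →
      (k ≤ n → ∀ f : F[X] → ℤ, (∑ h ∈ mon F n, if d ∣ h then f h else 0) =
        ∑ e ∈ mon F (n - k), f (d * e)) ∧
      (n < k → ∀ h ∈ mon F n, ¬ d ∣ h)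

/-- **TwPsi** (the sum over prime powers; 200 lines; uses `StmtTwMon`).

Proof. For `h` monic of degree `n`: `n = ∑ deg P` over the pairs `(P, j)`, `P` monic irreducible,
`j ≥ 1`, `P ^ j ∣ h` (with `deg P ≤ n`, `j * deg P ≤ n`): prove it by induction on `n`
(`Polynomial.exists_monic_irreducible_factor`, `h = P₀ * h₁`: for `P = P₀` the number of `j` grows
by one, for `P ≠ P₀`, `P ^ j ∣ P₀ h₁` iff `P ^ j ∣ h₁`), or from `UniqueFactorizationMonoid`
(`n = ∑_P deg P * multiplicity P h`). Multiply by `χ h` and sum over `h ∈ mon F n`, exchange the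
sums: by `StmtTwMon` (`d = P ^ j`), `∑_{h, P ^ j ∣ h} χ h = χ (P ^ j) av χ (n - j deg P)`,
`χ (P ^ j) = χ P ^ j`. Group the pairs by `k = j * deg P` (so `deg P = d ∣ k`, `j = k / d`): first
claim. Second claim: by strong induction on `k` from the first one for `χ = 1`
(`av 1 n = q ^ n`): `k q ^ k = ∑_{j = 1}^k psi 1 j q ^ (k - j)` and `psi 1 j = q ^ j` for `j < k`.
Third claim: `|psi χ k| ≤ psi 1 k` as `|χ P ^ j| ≤ 1`. Fourth claim: if `j * deg P = k`, then
`((-1) ^ deg P) ^ j = (-1) ^ k`. -/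
def StmtTwPsi : Prop :=
  ∀ (F : Type u) [Field F] [Finite F],
    (∀ χ : F[X] → ℤ, IsChar χ → ∀ n : ℕ,
      (n : ℤ) * av χ n = ∑ k ∈ Finset.Icc 1 n, psi χ k * av χ (n - k)) ∧
    (∀ k, 1 ≤ k → psi (fun _ : F[X] => (1 : ℤ)) k = (Nat.card F : ℤ) ^ k) ∧
    (∀ χ : F[X] → ℤ, IsChar χ → ∀ k, 1 ≤ k → |psi χ k| ≤ (Nat.card F : ℤ) ^ k) ∧
    (∀ k, 1 ≤ k → psi (fun h : F[X] => (-1 : ℤ) ^ h.natDegree) k =
      (-1) ^ k * (Nat.card F : ℤ) ^ k)

/-- **TwNonv** (nonvanishing at `1 / q`; 200 lines; uses `StmtTwMon`).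

Proof. For `h` monic let `r h = ∑ χ d` over the monic divisors `d` of `h`. (i) `r h ≥ 0`: by
induction, write `h = P ^ k * h₁`, `P` monic irreducible, `P ∤ h₁`, `k ≥ 1`; the monic divisors of
`h` are uniquely `P ^ j * d`, `j ≤ k`, `d ∣ h₁` monic, so `r h = (∑_{j ≤ k} χ P ^ j) * r h₁` and
`∑_{j ≤ k} x ^ j ≥ 0` for `x ∈ {0, 1, -1}`. (ii) For `h = X ^ (2 N)` the monic divisors are the
`X ^ j`, `j ≤ 2 N`, so `r h = ∑_{j ≤ 2 N} χ X ^ j ≥ 1`. (iii) `R n = ∑_{h ∈ mon F n} r h =
∑_{k ≤ n} ∑_{d ∈ mon F k} χ d * #{h ∈ mon F n | d ∣ h} = ∑_{k ≤ n} av χ k * q ^ (n - k)`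
(`StmtTwMon`). If `S = ∑_{k < N} av χ k / q ^ k = 0`, then for `n = 2 N` (`N ≥ 1` since
`av χ 0 = χ 1 = 1`) `R n = q ^ n * S = 0`, as `av χ k = 0` for `k ≥ N`; but `R (2 N) ≥ r (X ^ (2 N))
≥ 1` by (i), (ii). -/
def StmtTwNonv : Prop :=
  ∀ (F : Type u) [Field F] [Finite F] (χ : F[X] → ℤ) (_ : IsChar χ) (N : ℕ)
    (_ : ∀ n, N ≤ n → av χ n = 0),
    ∑ k ∈ Finset.range N, (av χ k : ℝ) / (Nat.card F : ℝ) ^ k ≠ 0

/-- **TwBdd** (120 lines; uses `StmtTwMon`, `StmtTwPsi`, `StmtTwNonv`).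

Proof. `q = Nat.card F`, `b n = av χ n / q ^ n` (real), `π k = psi χ k / q ^ k`; `|b n| ≤ 1`
(`StmtTwMon`), `|π k| ≤ 1` for `k ≥ 1` (`StmtTwPsi`), `n b n = ∑_{k = 1}^n π k b (n - k)`. Sum over
`n ≤ M`: `∑_{n ≤ M} n b n = ∑_{k = 1}^M π k B (M - k)`, `B j = ∑_{i ≤ j} b i`. The left side is
bounded by `N * N`. `B j = S`, the number of `StmtTwNonv`, for `j ≥ N`, and `|B j| ≤ N` always. So
`|S| |∑_{k = 1}^{M - N} π k| ≤ N * N + N * N` for `M ≥ N`, and `S ≠ 0`. -/
def StmtTwBdd : Prop :=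
  ∀ (F : Type u) [Field F] [Finite F] (χ : F[X] → ℤ) (_ : IsChar χ) (N : ℕ)
    (_ : ∀ n, N ≤ n → av χ n = 0),
    ∃ B : ℝ, ∀ M : ℕ, |∑ k ∈ Finset.Icc 1 M, (psi χ k : ℝ) / (Nat.card F : ℝ) ^ k| ≤ B

/-- **TwZero** (character sums over monic polynomials; 200 lines).

Proof. Let `f = ∏_{b ∈ T} pr b`, monic of degree `N = ∑ deg ≤ n`, and `χ h = ∏_{b ∈ T} leg (pr b) h`;
`χ` only depends on `h` modulo `f`, `χ (g h) = χ g * χ h` (`leg P` is multiplicative: `AdjoinRoot P`
is a finite field, `leg P h` is the `quadraticChar` of `mk P h`). Every `h ∈ mon F n` is uniquely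
`f * w + r`, `w` monic of degree `n - N`, `r` of degree `< N` (`%ₘ`, `/ₘ`), `χ h = χ r`. So the sum
is `#(mon F (n - N)) * S`, `S = ∑ χ r` over the finite set of the `r` of degree `< N`. Choose
`b₀ ∈ T` and `g` with `leg (pr b₀) g = -1` (a nonsquare exists in a finite field of odd order) and
`g ≡ 1` modulo `pr b` for the other `b ∈ T` (Chinese remainder theorem, the `pr b` are pairwise
coprime, `Ideal.quotientInfToPiQuotient` or induction with `IsCoprime`). Then `χ g = -1`, `g` is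
prime to `f`, `r ↦ (g r) %ₘ f` is an injective map of the finite set of polynomials of degree `< N`
to itself, so a bijection, and `χ ((g r) %ₘ f) = χ g χ r = - χ r`: `S = - S`, `S = 0`. -/
def StmtTwZero : Prop :=
  ∀ (F : Type u) [Field F] [Finite F] (_ : Odd (Nat.card F)) (ι : Type) [Fintype ι]
    (pr : ι → F[X]) (_ : Fam pr) (T : Finset ι) (_ : T.Nonempty) (n : ℕ)
    (_ : ∑ b ∈ T, (pr b).natDegree ≤ n),
    ∑ h ∈ mon F n, ∏ b ∈ T, leg (pr b) h = 0

/-- **TwPrime** (a prime with prescribed symbols; 250 lines; uses `StmtTwSy`, `StmtTwMon`,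
`StmtTwPsi`, `StmtTwBdd`, `StmtTwZero`).

Proof. Suppose there is none. `q = Nat.card F`. For `T ⊆ ι` and `η ∈ {0, 1}` put
`χ_{T, η} h = (∏_{b ∈ T} leg (pr b) h) * (-1) ^ (η * deg h)`; it satisfies `IsChar` (`leg P` is
multiplicative, values `0, 1, -1`; for nonzero polynomials degrees add; at `h` not monic nothing is
asked about the product; if `T = ∅` and `h = 0` the value is `1`). The sign
`σ_{T, η} = (-1) ^ (∑_{b ∈ T} t b + η θ)` (values of `ZMod 2` lifted to `{0, 1}`). Then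
`w h := ∑_{T, η} σ_{T, η} χ_{T, η} h =
(∏_b (1 + (-1) ^ (t b) leg (pr b) h)) * (1 + (-1) ^ (θ + deg h))` (`Finset.prod_one_add`,
`Finset.prod_add`). Consider `Ψ M = ∑_{T, η} σ_{T, η} ∑_{k = 1}^M psi χ_{T, η} k / q ^ k`.
(i) The term `T = ∅`, `η = 0` is `M` (`StmtTwPsi`, second claim); `T = ∅`, `η = 1` is
`± ∑_{k ≤ M} (-1) ^ k`, bounded by `1` (fourth claim); for `T ≠ ∅` the terms are bounded:
`StmtTwBdd`, `av χ_{T, η} n = (-1) ^ (η n) ∑_h ∏ leg = 0` for `n ≥ ∑_{b ∈ T} deg (pr b)` by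
`StmtTwZero`. So `Ψ M = M + O(1)` is unbounded. (ii) On the other hand
`∑_{T, η} σ psi χ_{T, η} k = ∑_{d ∣ k} ∑_{P ∈ irr F d} d * W P (k / d)`,
`W P j = ∑ σ_{T, η} (χ_{T, η} P) ^ j = w (P ^ j)`. If `P ∉ range pr` then `w (P ^ j) = 0` for
`j ≥ 1`: `leg (pr b) P = (-1) ^ sy (pr b) P = ± 1` (`StmtTwSy`); for odd `j` we have
`leg (pr b) (P ^ j) = leg (pr b) P` and `deg (P ^ j) ≡ deg P`, and `w = 0` because
`sy (pr b) P ≠ t b` for some `b` or `deg P ≠ θ` modulo `2` by assumption; for even `j` all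
`leg (pr b) (P ^ j) = 1` and the degree is even, and `w = 0` because `t b ≠ 0` for some `b` or
`θ ≠ 0`. So only the finitely many `P = pr b` contribute: for every `k` the absolute value is at
most `C = ∑_b deg (pr b) * 2 ^ (#ι + 1)` (`|W P j| ≤ 2 ^ (#ι + 1)`), so
`|Ψ M| ≤ C ∑_k q ^ (-k) ≤ C`, contradiction. -/
def StmtTwPrime : Prop :=
  ∀ (F : Type u) [Field F] [Finite F] (_ : Odd (Nat.card F)) (ι : Type) [Fintype ι]
    (pr : ι → F[X]) (_ : Fam pr) (t : ι → ZMod 2) (θ : ZMod 2) (_ : θ ≠ 0 ∨ ∃ b, t b ≠ 0),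
    ∃ R : F[X], R.Monic ∧ Irreducible R ∧ (∀ b, pr b ≠ R) ∧ (R.natDegree : ZMod 2) = θ ∧
      ∀ b, sy (pr b) R = t b

/-- **TwSeq** (a countable family of primes with prescribed symbols; 150 lines; uses `StmtTwRec`,
`StmtTwPrime`).

Proof. Let `f : κ → ℕ` be injective. It is enough to find a sequence `R : ℕ → F[X]` with the
following properties, for symbols `t' : ℕ → ι → ZMod 2` (nonzero rows) and `l' : ℕ → ℕ → ZMod 2`
(symmetric) extending those of `κ` (for `n` not in the image of `f`: a fixed nonzero row, which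
exists if `κ` is nonempty, and `l' = 0`; if `κ` is empty there is nothing to do): every `R n` is
monic irreducible of even degree, different from the `pr b` and from the `R k`, `k < n`, and
`sy (pr b) (R n) = t' n b`, `sy (R k) (R n) = l' k n` for `k < n`. Construct it by strong recursion
(`Nat.strongRec` and choice): given the `R k` for `k < n`, apply `StmtTwPrime` with `θ = 0` to the
family `ι ⊕ Fin n` of the `pr b` and the `R k` (distinct monic irreducible polynomials). For the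
symbols `sy (R n) (R k)`, `k < n`, in the other direction: `StmtTwRec`, as the degrees are even. -/
def StmtTwSeq : Prop :=
  ∀ (F : Type u) [Field F] [Finite F] (_ : Odd (Nat.card F)) (ι κ : Type) [Fintype ι]
    [Countable κ] (pr : ι → F[X]) (_ : Fam pr) (t : κ → ι → ZMod 2) (_ : ∀ k, ∃ b, t k b ≠ 0)
    (l : κ → κ → ZMod 2) (_ : ∀ k k', l k k' = l k' k),
    ∃ pk : κ → F[X], Fam pk ∧ (∀ k, Even (pk k).natDegree ∧ ∀ b, pr b ≠ pk k) ∧
      (∀ k b, sy (pr b) (pk k) = t k b) ∧ ∀ k k', k ≠ k' → sy (pk k) (pk k') = l k k'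

end MP72e2e6
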