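import Pool.Agent.Lib.MP_72e2e6_nt.SuSpec
import Pool.Agent.Lib.MP_72e2e6_nt.TwStmt

/-!
# MP_72e2e6_nt: statements of the modules for twists of superelliptic curves

Every module proves one of the propositions `StmtSuX` below: file `SuX.lean` (same folder, import
this file) with `theorem tSuX.{u} : StmtSuX.{u}` (or `theorem tSuX.{u} (h : StmtSuY.{u}) ..` if the
docstring says: uses `StmtSuY`; no universe for `SuFrob`, `SuInj`, `SuEx`, `SuStar`). The complete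
proofs are in the docstrings. Many modules have a finished model for `ℓ = 2` in the files `TwX.lean`
of this folder. `MI` means monic irreducible, `a ~ b` means: `a / b` is an `ℓ`-th power.
-/

namespace MP72e2e6

open Polynomial IsDedekindDomain WithZero

universe u

/-! ### Symbols -/

/-- **SuLg** (existence of a logarithm; 60 lines).

Proof. `Fˣ` is cyclic, of order `q - 1`, `q = Nat.card F ≥ 2`; let `g` be a generator. For `x ≠ 0`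
choose `n` with `g ^ n = x` and put `χ x = n`; as `ℓ ∣ q - 1 = orderOf g`, the class of `n` modulo
`ℓ` does not depend on the choice (`χ 0 = 0`). `χ (g ^ n) = n` gives additivity and surjectivity.
If `χ x = 0`, `x = g ^ n` with `n = ℓ n'`, so `x = (g ^ n') ^ ℓ`; conversely `χ (z ^ ℓ) = ℓ χ z = 0`. -/
def StmtSuLg : Prop :=
  ∀ (F : Type u) [Field F] [Finite F] (ℓ : ℕ) (_ : ℓ.Prime) (_ : ℓ ∣ Nat.card F - 1),
    ∃ χ : F → ZMod ℓ, IsLg ℓ χ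

/-- **SuSy** (basic properties of `vl`, `syl`; 150 lines; model: TwSy.lean).

Proof. `χ 1 = 0` from `χ (1 * 1)`; `-1 = (-1) ^ ℓ` for odd `ℓ`. Let `A = AdjoinRoot P`, a finite field
of order `q ^ d`, `q = Nat.card F`, `d = P.natDegree`, and `N : A → F` the norm. The multiplicities
and the quotients `h /ₘ P ^ k` as in TwSy: if `g = P ^ j * g₁`, `h = P ^ k * h₁`, `P ∤ g₁`, `P ∤ h₁`,
then `g * h = P ^ (j + k) * (g₁ * h₁)`, and `nm P (g₁ * h₁) = nm P g₁ * nm P h₁`, both nonzero. If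
`P ∤ h` then `k = 0`, `syl χ P h = χ (nm P h)`. It is `0` iff `N x` is an `ℓ`-th power in `F`,
`x = mk P h ≠ 0`. If `x = z ^ ℓ` then `N x = (N z) ^ ℓ`. Conversely let `g` be a generator of `Aˣ`,
`x = g ^ k`. By `FiniteField.algebraMap_norm_eq_pow`, `N g = g ^ ((q ^ d - 1) / (q - 1))` has order
`q - 1`, so it generates `Fˣ`. If `N x = (N g) ^ k = y ^ ℓ`, `y = (N g) ^ n`, then `k ≡ ℓ n` modulo
`q - 1`, so `ℓ ∣ k` and `x` is an `ℓ`-th power. `nm P (P /ₘ P ^ 1) = nm P 1 = 1`. The norm of the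
constant `x` is `x ^ d`. -/
def StmtSuSy : Prop :=
  ∀ (F : Type u) [Field F] [Finite F] (ℓ : ℕ) (_ : ℓ.Prime) (_ : ℓ ∣ Nat.card F - 1)
    (χ : F → ZMod ℓ) (_ : IsLg ℓ χ),
    χ 1 = 0 ∧ (ℓ ≠ 2 → χ (-1) = 0) ∧
    ∀ (P : F[X]) (_ : P.Monic) (_ : Irreducible P),
      (∀ g h : F[X], g ≠ 0 → h ≠ 0 →
        vl ℓ P (g * h) = vl ℓ P g + vl ℓ P h ∧ syl χ P (g * h) = syl χ P g + syl χ P h) ∧
      (∀ h : F[X], ¬ P ∣ h → vl ℓ P h = 0 ∧ nm P h ≠ 0 ∧ syl χ P h = χ (nm P h) ∧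
        (syl χ P h = 0 ↔ ∃ z, AdjoinRoot.mk P h = z ^ ℓ)) ∧
      vl ℓ P P = 1 ∧ syl χ P P = 0 ∧
      ∀ x : F, x ≠ 0 → vl ℓ P (C x) = 0 ∧ syl χ P (C x) = P.natDegree * χ x

/-- **SuRec** (reciprocity, `ℓ` odd; 60 lines with the lemmas of TwRec.lean; uses `StmtSuSy`).

Proof. `nm P Q = (-1) ^ (deg P * deg Q) * nm Q P`: this is (ii) in the proof of `StmtTwRec`, proved
in TwRec.lean (import it). By `StmtSuSy`, `P ∤ Q`, `Q ∤ P`: `syl χ P Q = χ (nm P Q)`,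
`syl χ Q P = χ (nm Q P)`, and `χ (-1) = 0`. -/
def StmtSuRec : Prop :=
  ∀ (F : Type u) [Field F] [Finite F] (ℓ : ℕ) (_ : ℓ.Prime) (_ : ℓ ≠ 2) (_ : ℓ ∣ Nat.card F - 1)
    (χ : F → ZMod ℓ) (_ : IsLg ℓ χ) (P Q : F[X]) (_ : P.Monic) (_ : Irreducible P) (_ : Q.Monic)
    (_ : Irreducible Q) (_ : P ≠ Q), syl χ P Q = syl χ Q P

/-- **SuFac** (factorization; 120 lines; uses `StmtSuSy`; model: TwFac.lean).

Proof. Strong induction on `h.natDegree`. If `h = C x`: `StmtSuSy`. Otherwise let `P` be a MI factor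
of `h`. If `P = pr b₀`: `h = P * h₁`, `h₁` satisfies the hypotheses, and by additivity
`vl (pr b') h = [b' = b₀] + vl (pr b') h₁`, `syl (pr b) h = syl (pr b) (pr b₀) + syl (pr b) h₁`. If
`P ∉ range pr` then `vl P h = 0`, so the multiplicity of `P` in `h` is positive and divisible by `ℓ`,
`h = P ^ ℓ * h₁`; the contributions of `P ^ ℓ` vanish in `ZMod ℓ`. Third claim: all `vl P h` vanish,
so `h = C x` with `χ x = 0`, or `h = P ^ ℓ * h₁`, and `h₁` is an `ℓ`-th power by induction. -/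
def StmtSuFac : Prop :=
  ∀ (F : Type u) [Field F] [Finite F] (ℓ : ℕ) (_ : ℓ.Prime) (_ : ℓ ∣ Nat.card F - 1)
    (χ : F → ZMod ℓ) (_ : IsLg ℓ χ) (ι : Type) [Fintype ι] (pr : ι → F[X]) (_ : Fam pr)
    (h : F[X]) (_ : h ≠ 0)
    (_ : ∀ P : F[X], P.Monic → Irreducible P → (∀ b, pr b ≠ P) → vl ℓ P h = 0),
    (∀ b, syl χ (pr b) h = (pr b).natDegree * χ h.leadingCoeff +
      ∑ b', vl ℓ (pr b') h * syl χ (pr b) (pr b')) ∧
    (h.natDegree : ZMod ℓ) = ∑ b, (pr b).natDegree * vl ℓ (pr b) h ∧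
    (χ h.leadingCoeff = 0 → (∀ b, vl ℓ (pr b) h = 0) → ∃ z, h = z ^ ℓ)

/-! ### Local images -/

/-- **SuLoc** (the local lemma; 250 lines; model: TwLoc.lean, with `~` for `ℓ`-th powers).

Proof. Elements `x` with `‖x - 1‖ < 1` are `ℓ`-th powers (`exists_pow_eq_of_principal`). As in
TwLoc.lean use `localImage_le`: `L / M` finite with the spectral norm, `x, w ∈ L`,
`∏ (x - A i) ^ b i = w ^ ℓ`, `d i = N (x - A i)`, `f = [L : M]`. Put `X i = x - A i ≠ 0`, choose `j`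
with `r = ‖X j‖` minimal. `X i = X j + (A j - A i)`. If `‖A j - A i‖ > r` then
`X i ~ A j - A i` (the quotient is principal); if `‖A j - A i‖ ≤ r` then `‖X i‖ = r`.

Case 1: `‖A j - A i‖ = r` for some `i ≠ j`. `R = A i - A j`, `s = {k | ‖A j - A k‖ ≤ r}`,
`Q = R ^ (∑_{k ∈ s} b k) * ∏_{k ∉ s} (A j - A k) ^ b k ∈ M`. Then
`v Q = ∏_k (max (v (A j - A k)) (v (A j - A i))) ^ b k`, so `ℓ ∤ log (v Q)` by `ram`. Let
`x' = X j / R`, `‖x'‖ = 1`; for `k ∈ s` `a' k = (A k - A j) / R`, `‖a' k‖ ≤ 1`,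
`X k = R (x' - a' k)`, `‖x' - a' k‖ = 1`; choose `c k ∈ F` with `‖a' k - c k‖ < 1`, then
`‖x' - c k‖ = 1` and `x' - a' k ~ x' - c k`. With
`g = ∏_{k ∈ s} (x' - a' k) ^ b k * ∏_{k ∉ s} (X k / (A j - A k)) ^ b k`, `‖g‖ = 1`, we have
`Q * g = w ^ ℓ`. `unit_trick` (GInf.lean): `ℓ ∣ f` and the `N (x' - c k)` are `ℓ`-th powers. So
`d k ~ R ^ f * N (x' - c k) ~ 1` for `k ∈ s`, and `d k ~ (A j - A k) ^ f ~ 1` for `k ∉ s`:
`mem_torsionGroup_of` with exponent `0`.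

Case 2: `‖A j - A i‖ ≠ r` for all `i ≠ j`. `s = {k | ‖A j - A k‖ < r}` contains `j`. For `k ∈ s`
`X k ~ X j`, for `k ∉ s` `X k ~ A j - A k`. Let `β = ∑_{k ∈ s} b k`; `ℓ ∤ β` by `ball`
(`v (A j - A i) < v (A j - A k)` for `i ∈ s`, `k ∉ s`). `κ = ∏_{k ∉ s} (A j - A k) ^ b k ∈ M`,
`X j ^ β * κ ~ 1`. Take `u ∈ ℕ` with `β u ≡ -1` modulo `ℓ`. Then `X j ~ X j ^ (- β u) ~ κ ^ u`
(write it with natural exponents), so `d k ~ κ ^ (u f)` for `k ∈ s` and `d k ~ (A j - A k) ^ f` for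
`k ∉ s`. Let `T i = ∏_{k ∈ s} torsionTuple A b k i`. For `i ∈ s`:
`T i = (∏_{k ≠ i} (A i - A k) ^ b k)⁻¹ * ∏_{k ∈ s, k ≠ i} (A k - A i) ^ b k ~
(∏_{k ∉ s} (A i - A k) ^ b k)⁻¹ ~ κ⁻¹`, because `-1 = (-1) ^ ℓ` and
`A i - A k ~ A j - A k` (`‖A i - A j‖ < r < ‖A j - A k‖`). For `i ∉ s`:
`T i = ∏_{k ∈ s} (A k - A i) ^ b k ~ (A j - A i) ^ β`. So with `n = (ℓ - 1) u f` the tuple `d` is
`T ^ n` up to `ℓ`-th powers: `- n ≡ u f`, `β n ≡ - β u f ≡ f`. The tuples `torsionTuple A b k` (as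
units, `torsionTuple_ne_zero`) are in `torsionGroup`, and so are products, powers, and `ℓ`-th
powers. -/
def StmtSuLoc : Prop :=
  ∀ (F M : Type u) [Field F] [Finite F] [NontriviallyNormedField M] [IsUltrametricDist M]
    [CompleteSpace M] [Algebra F M] (p : ℕ) [Fact p.Prime] [CharP F p] (ℓ : ℕ) (_ : ℓ.Prime)
    (_ : ℓ ≠ 2) (_ : ℓ.Coprime p)
    (_ : ∀ y : M, ‖y‖ ≤ 1 → ∃ α : F, ‖y - algebraMap F M α‖ < 1)
    (v : Valuation M (WithZero (Multiplicative ℤ))) (_ : ∀ x y : M, ‖x‖ ≤ ‖y‖ ↔ v x ≤ v y)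
    (m : ℕ) (_ : 0 < m) (A : Fin m → M) (_ : Function.Injective A) (b : Fin m → ℕ)
    (_ : ∀ (s : Finset (Fin m)) (j : Fin m), j ∈ s →
      (∀ i ∈ s, ∀ k, k ∉ s → v (A j - A i) < v (A j - A k)) → ¬ ℓ ∣ ∑ k ∈ s, b k)
    (_ : ∀ j i, j ≠ i →
      ¬ (ℓ : ℤ) ∣ ∑ k, (b k : ℤ) * log (max (v (A j - A k)) (v (A j - A i)))),
    localImage ℓ A b M ≤ torsionGroup ℓ A b

/-- **SuLocV** (100 lines; uses `StmtSuLoc`; model: TwLocV.lean). The same for a `Valued` field,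
with a condition on the residue field. Proof as for `StmtTwLocV`. -/
def StmtSuLocV : Prop :=
  ∀ (M : Type u) [Field M] [Valued M (WithZero (Multiplicative ℤ))] [CompleteSpace M] (p N : ℕ)
    [Fact p.Prime] [CharP M p] (ℓ : ℕ) (_ : ℓ.Prime) (_ : ℓ ≠ 2) (_ : ℓ.Coprime p) (_ : N ≠ 0)
    (_ : ∃ x : M, Valued.v x ≠ 0 ∧ Valued.v x ≠ 1)
    (_ : ∀ y : M, Valued.v y ≤ 1 → Valued.v (y ^ p ^ N - y) < 1)
    (m : ℕ) (_ : 0 < m) (A : Fin m → M) (_ : Function.Injective A) (b : Fin m → ℕ)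
    (_ : ∀ (s : Finset (Fin m)) (j : Fin m), j ∈ s →
      (∀ i ∈ s, ∀ k, k ∉ s → Valued.v (A j - A i) < Valued.v (A j - A k)) → ¬ ℓ ∣ ∑ k ∈ s, b k)
    (_ : ∀ j i, j ≠ i →
      ¬ (ℓ : ℤ) ∣ ∑ k, (b k : ℤ) * log (max (Valued.v (A j - A k)) (Valued.v (A j - A i)))),
    localImage ℓ A b M ≤ torsionGroup ℓ A b

/-- **SuLocF** (finite places; 150 lines; uses `StmtSuLocV`; model: TwLocF.lean).

Proof. As for `StmtTwLocF`: `M = v.adicCompletion (RatFunc F)`, `A i = algebraMap (E * a i)`,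
residue condition with `p ^ N = (Nat.card F) ^ P.natDegree`; `ℓ` is prime to `p` because
`ℓ ∣ Nat.card F - 1`. For `i ≠ k`, `log (v (E (a i - a k))) = - (e + w i k)`, `w = wP P a`,
`e = multiplicity P E`. The hypothesis on balls: `v (A j - A i) < v (A j - A k)` for `i ∈ s`,
`k ∉ s`, `i ≠ j`, says `w j k < w j i`: this is `Tame.ball`. The hypothesis on components:
`log (max (v (A j - A k)) (v (A j - A i)))` is `- (e + min (w j k) (w j i))` for `k ≠ j` and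
`- (e + w j i)` for `k = j` (`v 0 = 0`), so the sum is `- (e ∑ b k + lev b w j i)`. Then
`exists_of_mem_torsionGroup` (Tors.lean). -/
def StmtSuLocF : Prop :=
  ∀ (F : Type u) [Field F] [Finite F] (ℓ : ℕ) (_ : ℓ.Prime) (_ : ℓ ≠ 2) (_ : ℓ ∣ Nat.card F - 1)
    (m : ℕ) (_ : 0 < m) (E : F[X]) (_ : E ≠ 0) (a : Fin m → F[X]) (_ : Function.Injective a)
    (b : Fin m → ℕ) (v : HeightOneSpectrum F[X]) (P : F[X]) (_ : P.Monic) (_ : Irreducible P)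
    (_ : v.asIdeal = Ideal.span {P}) (_ : Tame ℓ b (wP P a) (multiplicity P E : ℤ))
    (d : Fin m → (v.adicCompletion (RatFunc F))ˣ)
    (_ : d ∈ localImage ℓ (pts E a) b (v.adicCompletion (RatFunc F))),
    ∃ t ∈ torsionGroup ℓ (pts E a) b, ∃ z : Fin m → (v.adicCompletion (RatFunc F))ˣ,
      d = baseChange (v.adicCompletion (RatFunc F)) t * z ^ ℓ

open Classical in
/-- **SuLocI** (infinity; 100 lines; uses `StmtSuLocV`; model: TwLocI.lean).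

Proof. As for `StmtTwLocI`. For `i ≠ k`, `log` of the valuation of `E (a i - a k)` is
`E.natDegree + (a i - a k).natDegree = - (e + w i k)` with `e = - E.natDegree`, `w = wI a`. The rest
as in `StmtSuLocF`. -/
def StmtSuLocI : Prop :=
  ∀ (F : Type u) [Field F] [Finite F] (ℓ : ℕ) (_ : ℓ.Prime) (_ : ℓ ≠ 2) (_ : ℓ ∣ Nat.card F - 1)
    (m : ℕ) (_ : 0 < m) (E : F[X]) (_ : E ≠ 0) (a : Fin m → F[X]) (_ : Function.Injective a)
    (b : Fin m → ℕ) (_ : Tame ℓ b (wI a) (-(E.natDegree : ℤ)))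
    (d : Fin m → ((RatFunc.inftyValuation F).Completion)ˣ)
    (_ : d ∈ localImage ℓ (pts E a) b (RatFunc.inftyValuation F).Completion),
    ∃ t ∈ torsionGroup ℓ (pts E a) b,
      ∃ z : Fin m → ((RatFunc.inftyValuation F).Completion)ˣ,
        d = baseChange (RatFunc.inftyValuation F).Completion t * z ^ ℓ

/-- **SuPwF** (`ℓ`-th powers in the completion at a finite place; 120 lines; uses `StmtSuSy`; model:
TwSqF.lean).

Proof. `v h = v z ^ ℓ` gives `multiplicity P h = ℓ k`. `h = P ^ (ℓ k) * h₁`, `P ∤ h₁`,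
`z₁ = z / P ^ k`, `z₁ ^ ℓ = h₁`, `v z₁ = 1`. By density there is `y ∈ F(t)` with `v (z₁ - y) < 1`,
so `v (h₁ - y ^ ℓ) < 1`, `y = f / g`, `P ∤ g`, `P ∣ h₁ g ^ ℓ - f ^ ℓ`, so `mk h₁` is an `ℓ`-th
power in `AdjoinRoot P` and `syl χ P h = syl χ P h₁ = 0` (`h /ₘ P ^ (ℓ k) = h₁`). -/
def StmtSuPwF : Prop :=
  ∀ (F : Type u) [Field F] [Finite F] (ℓ : ℕ) (_ : ℓ.Prime) (_ : ℓ ∣ Nat.card F - 1)
    (χ : F → ZMod ℓ) (_ : IsLg ℓ χ) (v : HeightOneSpectrum F[X])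
    (P : F[X]) (_ : P.Monic) (_ : Irreducible P) (_ : v.asIdeal = Ideal.span {P}) (h : F[X])
    (_ : h ≠ 0) (z : v.adicCompletion (RatFunc F))
    (_ : algebraMap (RatFunc F) (v.adicCompletion (RatFunc F))
      (algebraMap F[X] (RatFunc F) h) = z ^ ℓ),
    vl ℓ P h = 0 ∧ syl χ P h = 0

open Classical in
/-- **SuPwI** (`ℓ`-th powers in the completion at infinity; 80 lines; model: TwSqI.lean).

Proof. The degree of `h` is `ℓ k`; `z₁ = z / X ^ k` has valuation `1`; there is `α ∈ F` with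
`v (z₁ - α) < 1`, so `v (h / X ^ (ℓ k) - α ^ ℓ) < 1`, `h.leadingCoeff = α ^ ℓ`, and `IsLg.ker`. -/
def StmtSuPwI : Prop :=
  ∀ (F : Type u) [Field F] [Finite F] (ℓ : ℕ) (_ : ℓ.Prime) (χ : F → ZMod ℓ) (_ : IsLg ℓ χ)
    (h : F[X]) (_ : h ≠ 0) (z : (RatFunc.inftyValuation F).Completion)
    (_ : algebraMap (RatFunc F) (RatFunc.inftyValuation F).Completion
      (algebraMap F[X] (RatFunc F) h) = z ^ ℓ),
    (h.natDegree : ZMod ℓ) = 0 ∧ χ h.leadingCoeff = 0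

/-- **SuTor** (the torsion group in terms of `tal`; 150 lines; model: TwTor.lean).

Proof. Work in `K = F(t)`, `A i = E a_i`, `B = ∑ b k ≠ 0` in `ZMod ℓ`. For `x ≠ 0` and natural
numbers `e ≡ e'` modulo `ℓ`, `x ^ e ~ x ^ e'`. Hence `tal b E a (c + c') i ~ tal b E a c i *
tal b E a c' i` and `tal b E a (γ c) i ~ (tal b E a c i) ^ γ.val` (the factor with `k = i` has
exponent `0`). Let `c_j = b_j - B e_j` (`c_j i = b_j` for `i ≠ j`, `c_j j = b_j - B`); it satisfies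
`∑ b i * c_j i = 0`. For `i ≠ j`, `c_j i - c_j k` is `0` for `k ≠ j` and `B` for `k = j`, so
`tal b E a c_j i ~ (E (a_i - a_j)) ^ b_j ~ (A j - A i) ^ b_j` (`-1 = (-1) ^ ℓ`), the torsion tuple;
for `i = j`, `c_j j - c_j k = -B` for `k ≠ j`, so `tal ~ (∏_{k ≠ j} (E (a_j - a_k)) ^ b_k)⁻¹`. First
claim: the `t` with the property form a subgroup which contains the generators of `torsionGroup`.
Second claim: if `∑ b i * c i = 0`, then `c = ∑_j γ_j c_j` with `γ_j = - c j / B`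
(`∑_j γ_j (c_j i) = (∑_j γ_j b_j) - B γ_i = 0 + c i`), so `t` is a product of powers of torsion
tuples and of an `ℓ`-th power. -/
def StmtSuTor : Prop :=
  ∀ (F : Type u) [Field F] (ℓ : ℕ) (_ : ℓ.Prime) (_ : ℓ ≠ 2) (m : ℕ) (E : F[X]) (_ : E ≠ 0)
    (a : Fin m → F[X]) (_ : Function.Injective a) (b : Fin m → ℕ) (_ : ¬ ℓ ∣ ∑ k, b k),
    (∀ t ∈ torsionGroup ℓ (pts E a) b, ∃ c : Fin m → ZMod ℓ, ∑ i, (b i : ZMod ℓ) * c i = 0 ∧
      ∀ i, ∃ z : RatFunc F, (t i : RatFunc F) =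
        algebraMap F[X] (RatFunc F) (tal b E a c i) * z ^ ℓ) ∧
    ∀ c : Fin m → ZMod ℓ, ∑ i, (b i : ZMod ℓ) * c i = 0 → ∀ t : Fin m → (RatFunc F)ˣ,
      (∀ i, ∃ z : RatFunc F, (t i : RatFunc F) =
        algebraMap F[X] (RatFunc F) (tal b E a c i) * z ^ ℓ) →
      t ∈ torsionGroup ℓ (pts E a) b

/-- **SuTal** (valuations and symbols of `tal`; 80 lines; uses `StmtSuSy`).

Proof. By `StmtSuSy` (additivity; `vl P (x ^ n) = n * vl P x`, the same for `syl`;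
`(z : ZMod ℓ).val` as a coefficient is `z`), with `B = ∑ b k ≠ 0`:
`vl P (tal b E a c i) = ∑_{k ≠ i} b_k (c_i - c_k) B⁻¹ (vl P E + vl P (a_i - a_k))` (the factor with
`k = i` is `1`, and its term vanishes also on the right). `∑_k b_k (c_i - c_k) B⁻¹ = c_i`, as
`∑ b_k c_k = 0`. The same for `syl`. -/
def StmtSuTal : Prop :=
  ∀ (F : Type u) [Field F] [Finite F] (ℓ : ℕ) (_ : ℓ.Prime) (_ : ℓ ∣ Nat.card F - 1)
    (χ : F → ZMod ℓ) (_ : IsLg ℓ χ) (m : ℕ) (E : F[X]) (_ : E ≠ 0)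
    (a : Fin m → F[X]) (_ : Function.Injective a) (b : Fin m → ℕ) (_ : ¬ ℓ ∣ ∑ k, b k)
    (P : F[X]) (_ : P.Monic) (_ : Irreducible P) (c : Fin m → ZMod ℓ)
    (_ : ∑ i, (b i : ZMod ℓ) * c i = 0) (i : Fin m),
    tal b E a c i ≠ 0 ∧
    vl ℓ P (tal b E a c i) = sg b (vl ℓ P E) (fun i k => vl ℓ P (a i - a k)) c i ∧
    syl χ P (tal b E a c i) = sg b (syl χ P E) (fun i k => syl χ P (a i - a k)) c i

open Classical in
/-- **SuSel** (the Selmer conditions in terms of polynomials; 300 lines; uses `StmtSuSy`,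
`StmtSuTal`, `StmtSuLocF`, `StmtSuLocI`, `StmtSuPwF`, `StmtSuPwI`, `StmtSuTor`, in this order; model:
TwSel.lean).

Proof. `E = twl pr ρ`, `K = F(t)`. For `P` MI let `v` be the place with `v.asIdeal = (P)`. The
multiplicity of `pr β` in `E` is `(ρ β).val`, and `P ∤ E` for `P ∉ range pr`. `ℓ ∤ ∑ b k` and
`ℓ ∤ b k` by `Tame.ball` (`s = univ`, `s = {k}`) for the hypothesis at infinity. Every `y ∈ Kˣ` is
`h * z ^ ℓ`, `h = num * denom ^ (ℓ - 1)` a nonzero polynomial.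
(1) `StmtSuLocI` for `baseChange d`: `baseChange d = baseChange t * z ^ ℓ`; `StmtSuTor` for `t`:
`c₀` with `t i ~ tal b E a c₀ i`. Put `δ i = num (d i) * denom (d i) ^ (ℓ - 1) * tal b E a (-c₀) i`,
equal to `d i * tal b E a (-c₀) i` up to an `ℓ`-th power of `K`.
(2) `tal c * tal (-c) ~ 1`, so `δ i` is an `ℓ`-th power in the completion at infinity: `StmtSuPwI`.
(3) `P ∉ range pr`: `P ∤ E` and `P` divides no difference, so `vl P (tal ..) = 0`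
(`StmtSuTal`), and `log_dvd_of_mem_localImage` (Comp.lean, with `valued_adic`, `nontriv_adic`) says
that the valuation of `d i` is divisible by `ℓ`. Second claim.
(4) `P = pr β`: `StmtSuLocF`, `StmtSuTor`: `c₁` with `d i * tal b E a (-c₁) i` an `ℓ`-th power in the
completion; `StmtSuPwF` for `num * denom ^ (ℓ - 1) * tal b E a (-c₁) i`: `vl P` and `syl P` of
it vanish. By `StmtSuTal` (`sg` is additive in `c`: `sgM`), `vl P (num ..) = vl P (tal b E a c₁ i)`,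
the same for `syl`. Take `c = c₁ - c₀`: `vl P (δ i) = vl P (tal c₁ i) + vl P (tal (-c₀) i) =
vl P (tal c i)`.
(5) If all `δ i` are `ℓ`-th powers, then `d i ~ tal b E a c₀ i` and `StmtSuTor` applies. -/
def StmtSuSel : Prop :=
  ∀ (F : Type u) [Field F] [Finite F] (ℓ : ℕ) (_ : ℓ.Prime) (_ : ℓ ≠ 2) (_ : ℓ ∣ Nat.card F - 1)
    (χ : F → ZMod ℓ) (_ : IsLg ℓ χ) (m : ℕ) (_ : 0 < m) (a : Fin m → F[X])
    (_ : Function.Injective a) (b : Fin m → ℕ) (ι : Type) [Fintype ι] (pr : ι → F[X]) (_ : Fam pr)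
    (_ : ∀ P : F[X], P.Monic → Irreducible P → ∀ i j, i ≠ j → P ∣ a i - a j → ∃ β, pr β = P)
    (ρ : ι → ZMod ℓ) (_ : ∀ β, Tame ℓ b (wP (pr β) a) ((ρ β).val : ℤ))
    (_ : Tame ℓ b (wI a) (-((twl pr ρ).natDegree : ℤ)))
    (d : Fin m → (RatFunc F)ˣ)
    (_ : d ∈ placesSelmer F[X] (RatFunc.inftyValuation F) ℓ (pts (twl pr ρ) a) b),
    ∃ δ : Fin m → F[X], (∀ i, δ i ≠ 0) ∧
      (∀ P : F[X], P.Monic → Irreducible P → (∀ β, pr β ≠ P) → ∀ i, vl ℓ P (δ i) = 0) ∧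
      (∀ i, ((δ i).natDegree : ZMod ℓ) = 0 ∧ χ (δ i).leadingCoeff = 0) ∧
      (∀ β, ∃ c : Fin m → ZMod ℓ, ∑ i, (b i : ZMod ℓ) * c i = 0 ∧ ∀ i,
        vl ℓ (pr β) (δ i) = vl ℓ (pr β) (tal b (twl pr ρ) a c i) ∧
        syl χ (pr β) (δ i) = syl χ (pr β) (tal b (twl pr ρ) a c i)) ∧
      ((∀ i, ∃ z, δ i = z ^ ℓ) → d ∈ torsionGroup ℓ (pts (twl pr ρ) a) b)

open Classical in
/-- **SuEq** (the equations; 200 lines; uses `StmtSuSy`, `StmtSuFac`, `StmtSuTal`, `StmtSuSel`;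
model: TwEq.lean).

Proof. Take `δ` and `c` from `StmtSuSel`, `x β i = vl (pr β) (δ i)`, `E = twl pr ρ`, `P = pr β`.
`vl P E = ρ β`, `syl P E = ∑_{β'} ρ β' * syl P (pr β')` (`StmtSuSy`, `(ρ β').val` as a coefficient is
`ρ β'`). `StmtSuTal` gives `val`. `StmtSuFac` for `δ i` (leading coefficient and degree trivial):
`syl P (δ i) = ∑_{β'} x β' i * syl P (pr β')`, and `inf`. `StmtSuFac` for `a i - a k`, `i ≠ k`:
`syl P (a i - a k) = deg P * χ (leadingCoeff) + ∑_{β'} vl (pr β') (a i - a k) * syl P (pr β')` (for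
`i = k` this is not used: the factor `c i - c k` in `sg` is `0`; its prime factors are in the
family by the hypothesis, for the other primes `vl = 0`). So by `StmtSuTal`
`syl P (tal b E a c i) = ∑_{β'} syl P (pr β') * sg b (ρ β') (vl (pr β') (a i - a k)) c i +
deg P * sg b 0 (χ (leadingCoeff)) c i`, which is `sym`. Last claim: if `x = 0`, every `δ i` is an
`ℓ`-th power by `StmtSuFac` (third claim). -/
def StmtSuEq : Prop :=
  ∀ (F : Type u) [Field F] [Finite F] (ℓ : ℕ) (_ : ℓ.Prime) (_ : ℓ ≠ 2) (_ : ℓ ∣ Nat.card F - 1)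
    (χ : F → ZMod ℓ) (_ : IsLg ℓ χ) (m : ℕ) (_ : 0 < m) (a : Fin m → F[X])
    (_ : Function.Injective a) (b : Fin m → ℕ) (ι : Type) [Fintype ι] (pr : ι → F[X]) (_ : Fam pr)
    (_ : ∀ P : F[X], P.Monic → Irreducible P → ∀ i j, i ≠ j → P ∣ a i - a j → ∃ β, pr β = P)
    (ρ : ι → ZMod ℓ) (_ : ∀ β, Tame ℓ b (wP (pr β) a) ((ρ β).val : ℤ))
    (_ : Tame ℓ b (wI a) (-((twl pr ρ).natDegree : ℤ)))
    (d : Fin m → (RatFunc F)ˣ)
    (_ : d ∈ placesSelmer F[X] (RatFunc.inftyValuation F) ℓ (pts (twl pr ρ) a) b),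
    ∃ x c : ι → Fin m → ZMod ℓ, EqL χ b a pr ρ x c ∧
      ((∀ β i, x β i = 0) → d ∈ torsionGroup ℓ (pts (twl pr ρ) a) b)

/-- **SuIdx** (order of the torsion group modulo `ℓ`-th powers; 120 lines; uses `StmtSuTor`; model:
TwIdx.lean). `P` divides no difference and its multiplicity in `E` is prime to `ℓ`.

Proof. As for `StmtTwIdx`: `Φ : (Fin m → Kˣ) →* Multiplicative (Fin m → ZMod ℓ)`, the valuations at
`P` modulo `ℓ`. On an element `t` of the torsion group with vector `c` (`StmtSuTor`) it is, up to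
sign, `e * c` with `e` the multiplicity of `P` in `E` (the valuation of `tal b E a c i` is
`∑_k b_k (c_i - c_k) B⁻¹ e = e c_i` modulo `ℓ`). So the kernel of `Φ` on `torsionGroup` is
`powGroup` (if `e c = 0` then `c = 0`, `tal = 1`), and the image is `{e c | ∑ b i * c i = 0}`, of
order `ℓ ^ (m - 1)`: the kernel of the surjective functional `c ↦ ∑ b i * c i` (surjective since some
`b i` is not `0` modulo `ℓ`). -/
def StmtSuIdx : Prop :=
  ∀ (F : Type u) [Field F] [Finite F] (ℓ : ℕ) (_ : ℓ.Prime) (_ : ℓ ≠ 2)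
    (m : ℕ) (_ : 0 < m) (E : F[X]) (_ : E ≠ 0) (a : Fin m → F[X]) (_ : Function.Injective a)
    (b : Fin m → ℕ) (_ : ¬ ℓ ∣ ∑ k, b k) (P : F[X]) (_ : P.Monic) (_ : Irreducible P)
    (_ : ¬ ℓ ∣ multiplicity P E) (_ : ∀ i j, i ≠ j → ¬ P ∣ a i - a j),
    (powGroup ℓ (RatFunc F) m).relIndex (torsionGroup ℓ (pts E a) b) = ℓ ^ (m - 1)

/-! ### Linear algebra -/

/-- **SuFrob** (the operators are diagonalizable; 150 lines).

Proof. For `r : ℤ` put `i ~ k` iff `i = k` or `r ≤ w i k`, an equivalence relation (`Ultra`);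
`S r i` the class of `i`, `β r i = ∑_{k ∈ S r i} b k ∈ ZMod ℓ`, which is not `0`: hypothesis for
`s = S r i`, `j = i` (for `x ∈ s`, `x ≠ i`, and `k ∉ s`, `w i k < r ≤ w i x`). Operators on
`Fin m → ZMod ℓ`: `(M r c) i = β r i * c i`, `(Π r c) i = (β r i)⁻¹ * ∑_{k ∈ S r i} b k * c k`,
`N r = M r * (1 - Π r)`, so `(N r c) i = ∑_{k ∈ S r i} b k (c i - c k)`. `Π r` is idempotent, `Π r`
and `M r` commute (`β r` is constant on the classes), `M r ^ ℓ = M r` (`x ^ ℓ = x` in `ZMod ℓ`), so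
`N r ^ ℓ = N r`. For `r' ≤ r` (`S r i ⊆ S r' i`): `Π r * Π r' = Π r'`, `Π r' * Π r = Π r'`,
`M r'` commutes with `Π r`, and `Π r' * M r * (1 - Π r) = 0` (the function `M r (1 - Π r) c` has
weighted sum `0` on every class of level `r`), so `N r' * N r = M r' * M r * (1 - Π r) =
N r * N r'`: all `N r` commute. Choose `r₀ ≤ r₁` with `r₀ ≤ w i k ≤ r₁` for all `i ≠ k`; then
`w i k = r₀ + #{r | r₀ < r ≤ r₁, r ≤ w i k}`, so
`∑_k b k * w i k * (c i - c k) = r₀ (N r₀ c) i + ∑_{r₀ < r ≤ r₁} (N r c) i` (`S r₀ i` is everything).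
So `sgM b ρ w = ρ • 1 + B⁻¹ • (r₀ • N r₀ + ∑_r N r)` is a sum of commuting operators `Y` with
`Y ^ ℓ = Y` (scalars: `t ^ ℓ = t`), and in characteristic `ℓ` the `ℓ`-th power of a sum of commuting
elements is the sum of the `ℓ`-th powers (`add_pow_char_of_commute`; `CharP` of the endomorphism
ring: if `m = 0` everything is trivial; or use `Commute.add_pow` with `ZMod` scalars). -/
def StmtSuFrob : Prop :=
  ∀ (ℓ : ℕ) [Fact ℓ.Prime] (m : ℕ) (b : Fin m → ℕ) (w : Fin m → Fin m → ℤ) (_ : Ultra w)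
    (_ : ∀ (s : Finset (Fin m)) (j : Fin m), j ∈ s →
      (∀ i ∈ s, ∀ k, k ∉ s → i ≠ j → w j k < w j i) → ¬ ℓ ∣ ∑ k ∈ s, b k) (ρ : ZMod ℓ),
    sgM b ρ (fun i k => (w i k : ZMod ℓ)) ^ ℓ = sgM b ρ (fun i k => (w i k : ZMod ℓ))

/-- **SuInj** (injectivity of the operators; 150 lines).

Proof. `S r x` the class of `x` at level `r` as in `StmtSuFrob`. Let `∑ b i * c i = 0`,
`sg b e w c = 0`, `c ≠ 0`. Put `σ r x = ∑_{k ∈ S r x} b k * c k`. For small `r` all classes are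
everything and `σ r = 0`; for large `r`, `σ r x = b x * c x`, which is not `0` for some `x`
(`b x ≠ 0` by `ball` with `s = {x}`). So there are `r` and `x` with `σ r = 0` and
`S := σ (r + 1) x ≠ 0` (`Int` induction, or the least such `r + 1`), and then `σ t = 0` for all
`t ≤ r` (a class of level `t` is a disjoint union of classes of level `r`). Let
`s' = S (r + 1) x`, `β' = ∑_{s'} b`, `B = ∑ b k`. For `y ∈ s'` and `k ∉ s'`: `w y k = w x k ≤ r`.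
`0 = ∑_{y ∈ s'} b y * B * (sg b e w c y) = e B S + ∑_{y ∈ s'} ∑_k b y * b k * w y k * (c y - c k)`.
The part with `k ∈ s'` is antisymmetric, so `0`; the part with `k ∉ s'` is
`∑_{k ∉ s'} b k * w x k * (S - β' * c k)`. And `∑_{k ∉ s'} b k * w x k * c k = - r S`: with a lower
bound `r₀ ≤ r` of all `w`, `w x k = r - #{t | r₀ < t ≤ r, w x k < t}` for `k ∉ s'`, so the sum is
`r ∑_{k ∉ s'} b k c k - ∑_{r₀ < t ≤ r} ∑_{k ∉ S t x} b k c k`, where `∑_{k ∉ s'} b k c k = - S` and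
`∑_{k ∉ S t x} b k c k = - σ t x = 0`. Together:
`0 = S * (e B + ∑_{k ∉ s'} b k * w x k + β' * r)`. As `σ r x = 0 ≠ S`, `S r x ≠ s'`; take
`i ∈ S r x`, `i ∉ s'`: `i ≠ x`, `w x i = r`. Then `lev b w x i = ∑_k b k min (w x k) r` (`r` for
`k ∈ s'`) `= β' r + ∑_{k ∉ s'} b k * w x k`, so `e B + lev b w x i = 0` in `ZMod ℓ`, against `ram`. -/
def StmtSuInj : Prop :=
  ∀ (ℓ : ℕ) [Fact ℓ.Prime] (m : ℕ) (b : Fin m → ℕ) (w : Fin m → Fin m → ℤ) (_ : Ultra w) (e : ℤ)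
    (_ : Tame ℓ b w e) (c : Fin m → ZMod ℓ) (_ : ∑ i, (b i : ZMod ℓ) * c i = 0)
    (_ : ∀ i, sg b (e : ZMod ℓ) (fun i k => (w i k : ZMod ℓ)) c i = 0), ∀ i, c i = 0

/-- **SuEx** (existence of the twist; 150 lines). (1) If `m < ℓ` and the condition on balls holds,
then some `e` is tame. (2) If no nonempty sum of exponents is divisible by `ℓ`, then `m < ℓ`.

Proof. (1) Suppose that for every `e < ℓ` there are `j ≠ i` with `e B + lev b w j i = 0` in `ZMod ℓ`,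
`B = ∑ b k`. Let `s = {k | k = j ∨ w j i ≤ w j k}`, `s' = {k | k = j ∨ w j i < w j k}`,
`s'' = s \ s'`, `j ∈ s'`, `i ∈ s''`, `β' = ∑_{s'} b`, `β'' = ∑_{s''} b`; `s'` is a ball around `j`
and `s''` is a union of balls: `β' ≠ 0` by the hypothesis. Let `u = β''` on `s'`, `u = - β'` on
`s''`, `u = 0` outside of `s`. Then `u ≠ 0` (at `i`), `∑ b k * u k = 0`, and with
`(N u) x = ∑_k b k * w x k * (u x - u k)` we have `N u = lev b w j i • u`: for `x ∈ s'`, `k ∈ s''` or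
`x ∈ s''`, `k ∈ s'` the value is `w x k = w j i`; for `x ∈ s`, `k ∉ s` it is `w x k = w j k`. So for
`x ∈ s'`: `(N u) x = w j i * β'' * (β'' + β') + ∑_{k ∉ s} b k * w j k * β''`, for `x ∈ s''`:
`w j i * β' * (- β' - β'') - ∑_{k ∉ s} b k * w j k * β'`, and
`lev b w j i = w j i * (β' + β'') + ∑_{k ∉ s} b k * w j k`; for `x ∉ s`:
`(N u) x = - ∑_{k ∈ s} b k * w x j * u k = 0`. So `u` is an eigenvector of `N` for the eigenvalue
`lev b w j i = - e B`. `B ≠ 0` (`s = univ`; if `m = 0` the claim is trivial), so these are `ℓ`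
different eigenvalues on a space of dimension `m < ℓ`: contradiction
(`Module.End.eigenvectors_linearIndependent'`).
(2) The `m + 1` numbers `∑_{i < j} b i`, `0 ≤ j ≤ m`, are different modulo `ℓ` (differences are sums
over intervals). -/
def StmtSuEx : Prop :=
  (∀ (ℓ : ℕ) [Fact ℓ.Prime] (m : ℕ) (_ : m < ℓ) (b : Fin m → ℕ) (w : Fin m → Fin m → ℤ)
    (_ : Ultra w)
    (_ : ∀ (s : Finset (Fin m)) (j : Fin m), j ∈ s →
      (∀ i ∈ s, ∀ k, k ∉ s → i ≠ j → w j k < w j i) → ¬ ℓ ∣ ∑ k ∈ s, b k),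
    ∃ e : ℕ, e < ℓ ∧ Tame ℓ b w (e : ℤ)) ∧
  ∀ (ℓ m : ℕ) (_ : ℓ.Prime) (b : Fin m → ℕ)
    (_ : ∀ s : Finset (Fin m), s.Nonempty → ¬ ℓ ∣ ∑ k ∈ s, b k), m < ℓ

/-- **SuStar** (the elimination; 120 lines).

Proof. Fix `v`. From `hQ'`, `2 X' = c₀ + X`, so `2 μ (X' - X) = μ (c₀ - X)` and `hQ` says
`σ v (c v - X v μ) = μ (c₀ - X v μ)`. Let `y = σ v (c v - c₀)`. Then
`y = σ v (c v - X) + σ v (X - c₀) = μ (c₀ - X) - σ v (c₀ - X) = - (σ v - μ) (c₀ - X v μ)` for every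
`μ`. `σ v ^ (ℓ - 1) = 1` (apply injectivity to `σ v (σ v ^ (ℓ - 1) z - z) = 0`). For every unit `μ`
put `p μ = ∑_{j < ℓ - 1} μ ^ j σ v ^ (ℓ - 2 - j)`; `p μ * (σ v - μ) = σ v ^ (ℓ - 1) - μ ^ (ℓ - 1) = 0`
(`Commute.geom_sum₂_mul` or similar), so `p μ y = 0` for all `μ`. `∑_μ μ * p μ = - 1`, because
`∑_μ μ ^ (j + 1) = 0` for `j + 1 < ℓ - 1` and `- 1` for `j = ℓ - 2`
(`FiniteField.sum_pow_units`). So `y = 0`, and `c v = c₀` by injectivity. Then `hI` and the hypothesis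
on `D` give `c₀ = 0`, so all `c v = 0`, `Y = 0`. Now `X' = X / 2` and `hQ` is
`σ v (X v μ) = μ X v μ`; `hv` is `∑_μ X v μ = 0`. Apply `p μ`: `p μ (X v μ') = 0` for `μ' ≠ μ`
(`(μ' - μ) p μ (X v μ') = p μ (σ v - μ) (X v μ') = 0`) and
`p μ (X v μ) = (ℓ - 1) μ ^ (ℓ - 2) X v μ`, so `X v μ = 0` (or use the independence of eigenvectors,
`Module.End.eigenspaces_iSupIndep`). -/
def StmtSuStar : Prop :=
  ∀ (ℓ : ℕ) [Fact ℓ.Prime] (_ : ℓ ≠ 2) (W : Type) [AddCommGroup W] [Module (ZMod ℓ) W]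
    (V J : Type) [Fintype V] (σ : V → Module.End (ZMod ℓ) W) (_ : ∀ v, σ v ^ ℓ = σ v)
    (_ : ∀ v y, σ v y = 0 → y = 0) (D : V → ZMod ℓ) (D₀ : ZMod ℓ)
    (_ : ∀ y : W, ∑ v, D v • σ v y + D₀ • y = 0 → y = 0)
    (s : V → V → ZMod ℓ) (s₀ : V → ZMod ℓ) (Λ : W →ₗ[ZMod ℓ] W)
    (c : V → W) (c₀ : W) (X X' : V → (ZMod ℓ)ˣ → W) (Y : J → W)
    (_ : ∀ v μ, σ v (c v - X v μ) + (-2 * (μ : ZMod ℓ)) • (X' v μ - X v μ) = 0)
    (_ : ∀ v μ, (c₀ - X' v μ) + (X v μ - X' v μ) = 0)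
    (_ : ∀ j, c₀ - Y j = 0)
    (_ : ∀ v, ∑ w, s v w • σ w (c w - c v) + s₀ v • (c₀ - c v) + ∑ μ, (X v μ - c v) =
      D v • Λ (c v))
    (_ : ∑ v, D v • σ v (c v) + D₀ • c₀ = 0),
    (∀ v, c v = 0) ∧ c₀ = 0 ∧ (∀ v μ, X v μ = 0 ∧ X' v μ = 0) ∧ ∀ j, Y j = 0

/-! ### Primes with prescribed symbols -/

open Classical in
/-- **SuMon** (50 lines; model: the second claim of `StmtTwMon`, TwMon.lean).

Proof. `e ↦ d * e` is a bijection from `mon F (n - k)` to the multiples of `d` in `mon F n`. -/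
def StmtSuMon : Prop :=
  ∀ (F : Type u) [Field F] [Finite F] (k n : ℕ) (d : F[X]), d ∈ mon F k → k ≤ n →
    ∀ f : F[X] → ℂ, (∑ h ∈ mon F n, if d ∣ h then f h else 0) = ∑ e ∈ mon F (n - k), f (d * e)

/-- **SuPsi** (the sum over prime powers; 200 lines; uses `StmtTwMon`, `StmtTwPsi`, `StmtSuMon`;
model: TwPsi.lean).

Proof. First claim as the first claim of `StmtTwPsi`, with values in `ℂ`. Second claim: from
`StmtTwPsi` (cast to `ℂ`). Third claim: `‖φ P ^ j‖ ≤ 1` (`‖z‖ = 1` if `z ^ ℓ = 1`, `ℓ ≠ 0`), so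
`‖psiC φ k‖ ≤ psi 1 k = q ^ k`. Fourth claim: `(ω ^ deg P) ^ j = ω ^ k` if `j * deg P = k`. Fifth
claim: `d * #(irr F d)` is one of the nonnegative terms (`P` of degree `d`, `j = 1`) of
`psi 1 d = q ^ d`. -/
def StmtSuPsi : Prop :=
  ∀ (F : Type u) [Field F] [Finite F] (ℓ : ℕ) (_ : ℓ.Prime),
    (∀ φ : F[X] → ℂ, IsChL ℓ φ → ∀ n : ℕ,
      (n : ℂ) * avC φ n = ∑ k ∈ Finset.Icc 1 n, psiC φ k * avC φ (n - k)) ∧
    (∀ k, 1 ≤ k → psiC (fun _ : F[X] => (1 : ℂ)) k = (Nat.card F : ℂ) ^ k) ∧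
    (∀ φ : F[X] → ℂ, IsChL ℓ φ → ∀ k, 1 ≤ k → ‖psiC φ k‖ ≤ (Nat.card F : ℝ) ^ k) ∧
    (∀ (ω : ℂ) (φ : F[X] → ℂ) (k : ℕ),
      psiC (fun h : F[X] => ω ^ h.natDegree * φ h) k = ω ^ k * psiC φ k) ∧
    ∀ d, 1 ≤ d → d * (irr F d).card ≤ Nat.card F ^ d

/-- **SuNonv** (nonvanishing at `1 / q`; 250 lines; uses `StmtTwMon`, `StmtSuPsi`).

Proof. `q = Nat.card F`. For `j < ℓ` let `φ j h = 1` if `j = 0` and `φ h ^ j` otherwise; `IsChL ℓ`.
In `ℂ⟦X⟧` let `A j = mk (avC (φ j))`, `Ψ j = mk (psiC (φ j))` (`psiC _ 0 = 0`). By `StmtSuPsi`,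
`X * A j' = A j * Ψ j` (`PowerSeries.derivative`), so the product `A = ∏_{j < ℓ} A j` satisfies
`X * A' = A * Ψ`, `Ψ = ∑ Ψ j` (Leibniz, induction): for the coefficients `α n` of `A` and `γ k` of `Ψ`,
`n α n = ∑_{k = 1}^n γ k α (n - k)`, `α 0 = 1`. Now
`γ k = ∑_{d ∣ k} ∑_{P ∈ irr F d} d * ∑_{j < ℓ} φ j P ^ (k / d)`. With `z = φ P ^ (k / d)` the inner
sum is `1` if `z = 0`, `ℓ` if `z = 1`, and `∑_{j < ℓ} z ^ j = 0` if `z ≠ 1`, `z ^ ℓ = 1`. So `γ k` is a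
nonnegative real number, and for `k = ℓ k'`, `k' ≥ 1`, the term `d = 1`, `P = X` has `z = 1` or
`z = 0`, so `γ k ≥ 1`. By strong induction all `α n` are nonnegative reals, and
`α (ℓ k') ≥ γ (ℓ k') α 0 / (ℓ k') > 0`: infinitely many `α n` are not `0`.
On the other hand `A j` is a polynomial (of degree `< N`) for `1 ≤ j < ℓ`, and
`A 0 = ∑ q ^ n X ^ n` (`StmtTwMon`) satisfies `(1 - q X) * A 0 = 1`. If
`∑_{k < N} avC φ k / q ^ k = 0` then the polynomial `A 1` has the root `1 / q`, so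
`A 1 = (1 - q X) * p`, `A 0 * A 1 = p` and `A` is a polynomial: contradiction. -/
def StmtSuNonv : Prop :=
  ∀ (F : Type u) [Field F] [Finite F] (ℓ : ℕ) (_ : ℓ.Prime) (φ : F[X] → ℂ) (_ : IsChL ℓ φ) (N : ℕ)
    (_ : ∀ j, 1 ≤ j → j < ℓ → ∀ n, N ≤ n → avC (fun h => φ h ^ j) n = 0),
    ∑ k ∈ Finset.range N, avC φ k / (Nat.card F : ℂ) ^ k ≠ 0

/-- **SuBdd** (120 lines; uses `StmtTwMon`, `StmtSuPsi`, `StmtSuNonv`; model: TwBdd.lean).

Proof. As for `StmtTwBdd`, with complex numbers: `avC φ n = 0` for `n ≥ N` is the hypothesis for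
`j = 1`. -/
def StmtSuBdd : Prop :=
  ∀ (F : Type u) [Field F] [Finite F] (ℓ : ℕ) (_ : ℓ.Prime) (φ : F[X] → ℂ) (_ : IsChL ℓ φ) (N : ℕ)
    (_ : ∀ j, 1 ≤ j → j < ℓ → ∀ n, N ≤ n → avC (fun h => φ h ^ j) n = 0),
    ∃ B : ℝ, ∀ M : ℕ, ‖∑ k ∈ Finset.Icc 1 M, psiC φ k / (Nat.card F : ℂ) ^ k‖ ≤ B

/-- **SuZero** (character sums over monic polynomials; 200 lines; uses `StmtSuSy`; model:
TwZero.lean).

Proof. As for `StmtTwZero`: `χ' h = ∏_{b ∈ T} lgc χ (s b) (pr b) h` depends on `h` modulo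
`f = ∏_{b ∈ T} pr b` and is multiplicative (`nm` is multiplicative, `χ` additive on nonzero
elements). Choose `b₀ ∈ T` and `g` prime to `pr b₀` with `χ (nm (pr b₀) g) = 1` (the norm is
surjective, `FiniteField` or `StmtSuSy`: `syl χ (pr b₀)` is additive and not identically `0`, as not
every element of the field `AdjoinRoot (pr b₀)` is an `ℓ`-th power, so it takes the value `1` on a
power), `g ≡ 1` modulo the other `pr b`. Then `χ' g = stdAddChar (s b₀) ≠ 1`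
(`ZMod.injective_stdAddChar`), and `S = χ' g * S` for the sum `S` over the residues modulo `f`. -/
def StmtSuZero : Prop :=
  ∀ (F : Type u) [Field F] [Finite F] (ℓ : ℕ) [NeZero ℓ] (_ : ℓ.Prime) (_ : ℓ ∣ Nat.card F - 1)
    (χ : F → ZMod ℓ) (_ : IsLg ℓ χ) (ι : Type) [Fintype ι]
    (pr : ι → F[X]) (_ : Fam pr) (T : Finset ι) (_ : T.Nonempty) (s : ι → ZMod ℓ)
    (_ : ∀ b ∈ T, s b ≠ 0) (n : ℕ) (_ : ∑ b ∈ T, (pr b).natDegree ≤ n),
    ∑ h ∈ mon F n, ∏ b ∈ T, lgc χ (s b) (pr b) h = 0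

/-- **SuPrime** (a prime with prescribed symbols and degree; 300 lines; uses `StmtSuSy`,
`StmtSuPsi`, `StmtSuBdd`, `StmtSuZero`; model: TwPrime.lean).

Proof. Suppose there is none. `q = Nat.card F ≥ 4`, `ψ = ZMod.stdAddChar`, `ω = ψ 1`. For
`s : ι → ZMod ℓ` and `η : ZMod ℓ` put `T s = {b | s b ≠ 0}` and
`φ_{s, η} h = ψ η ^ (deg h) * ∏_{b ∈ T s} lgc χ (s b) (pr b) h`: it satisfies `IsChL ℓ` (`StmtSuSy`;
`nm`, degrees). Let `σ_{s, η} = ψ (- ∑_b s b * t b - η * θ)` and `w h = ∑_{s, η} σ_{s, η} φ_{s, η} h`.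
If `h` is prime to all the `pr b`, then `lgc χ (s b) (pr b) h = ψ (s b * syl χ (pr b) h)` and
`w h = ∑_{s, η} ψ (∑_b s b (syl χ (pr b) h - t b) + η (deg h - θ))`, which is `ℓ ^ (#ι + 1)` if
`syl χ (pr b) h = t b` for all `b` and `deg h = θ`, and `0` otherwise (product of the sums over
the coordinates; `AddChar.sum_eq_zero_of_ne_one`, `AddChar.sum_mulShift`). Consider
`Ψ M = ∑_{s, η} σ_{s, η} ∑_{k = 1}^M psiC φ_{s, η} k / q ^ k`.
(i) The term `s = 0`, `η = 0` is `M` (`StmtSuPsi`, second claim); `s = 0`, `η ≠ 0` is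
`σ ∑_{k ≤ M} (ψ η) ^ k` (fourth claim), bounded because `ψ η ≠ 1`, `‖ψ η‖ = 1` (geometric sum);
for `s ≠ 0` the terms are bounded: `StmtSuBdd`, as
`φ_{s, η} h ^ j = ψ (j η) ^ (deg h) * ∏_{b ∈ T s} lgc χ (j s b) (pr b) h` and `avC` of it is `0` for
`n ≥ ∑_{b ∈ T s} deg (pr b)` by `StmtSuZero` (`j s b ≠ 0` for `1 ≤ j < ℓ`). So `Ψ M = M + O(1)`.
(ii) On the other hand `∑ σ psiC φ_{s, η} k = ∑_{d ∣ k} ∑_{P ∈ irr F d} d * w (P ^ (k / d))`
(`φ P ^ j = φ (P ^ j)`, `‖w‖ ≤ ℓ ^ (#ι + 1)`). If `P ∉ range pr` and `k / d = 1` then `w P = 0` by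
the assumption. So the absolute value is at most
`ℓ ^ (#ι + 1) * (∑_b deg (pr b) + ∑_{d ∣ k, d < k} d #(irr F d))`, and
`d #(irr F d) ≤ q ^ d` (fifth claim), `∑_{d ≤ k / 2} q ^ d ≤ 2 q ^ (k / 2)`, so that
`‖Ψ M‖ ≤ ℓ ^ (#ι + 1) ∑_k (C + 2 q ^ (k / 2)) / q ^ k` is bounded (`q ^ (k / 2) / q ^ k ≤ 1 / 2 ^ k`
as `q ≥ 4`). Contradiction. -/
def StmtSuPrime : Prop :=
  ∀ (F : Type u) [Field F] [Finite F] (ℓ : ℕ) (_ : ℓ.Prime) (_ : ℓ ≠ 2) (_ : ℓ ∣ Nat.card F - 1)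
    (χ : F → ZMod ℓ) (_ : IsLg ℓ χ) (ι : Type) [Fintype ι]
    (pr : ι → F[X]) (_ : Fam pr) (t : ι → ZMod ℓ) (θ : ZMod ℓ),
    ∃ R : F[X], R.Monic ∧ Irreducible R ∧ (∀ b, pr b ≠ R) ∧ (R.natDegree : ZMod ℓ) = θ ∧
      ∀ b, syl χ (pr b) R = t b

/-- **SuSeq** (a countable family of primes with prescribed symbols; 150 lines; uses `StmtSuRec`,
`StmtSuPrime`; model: TwSeq.lean). Proof as for `StmtTwSeq`. -/
def StmtSuSeq : Prop :=
  ∀ (F : Type u) [Field F] [Finite F] (ℓ : ℕ) (_ : ℓ.Prime) (_ : ℓ ≠ 2) (_ : ℓ ∣ Nat.card F - 1)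
    (χ : F → ZMod ℓ) (_ : IsLg ℓ χ) (ι κ : Type) [Fintype ι]
    [Countable κ] (pr : ι → F[X]) (_ : Fam pr) (t : κ → ι → ZMod ℓ)
    (l : κ → κ → ZMod ℓ) (_ : ∀ k k', l k k' = l k' k),
    ∃ pk : κ → F[X], Fam pk ∧ (∀ k, ((pk k).natDegree : ZMod ℓ) = 0 ∧ ∀ b, pr b ≠ pk k) ∧
      (∀ k b, syl χ (pr b) (pk k) = t k b) ∧ ∀ k k', k ≠ k' → syl χ (pk k) (pk k') = l k k'

end MP72e2e6
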