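import Mathlib

/-!
# MP_72e2e6_nt: definitions

Superelliptic curves `y ^ ℓ = ∏ (x - a i) ^ (b i)` over a field `K` and the explicit
descriptions of the images of the descent maps.
-/

namespace MP72e2e6

open Polynomial IsDedekindDomain

variable {K : Type*} [Field K] {n : ℕ}

/-- The polynomial `f = ∏ (X - a i) ^ (b i)`, with coefficients in an extension `M` of `K`. -/
noncomputable def curvePoly (a : Fin n → K) (b : Fin n → ℕ) (M : Type*) [Field M] [Algebra K M] :
    M[X] :=
  ∏ i, (X - C (algebraMap K M (a i))) ^ (b i)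

/-- The subgroup of `∏ Mˣ` generated by the `ℓ`-th powers and by the values
`((-1) ^ deg u * u (a i))` of the divisors of the affine curve `y ^ ℓ = f (x)` over `M`: such a
divisor is given by a monic polynomial `u` with no zero at the `a i` and by `y = w` modulo `u`,
with `w ^ ℓ = f` modulo `u`. -/
def localImage (ℓ : ℕ) (a : Fin n → K) (b : Fin n → ℕ) (M : Type*) [Field M] [Algebra K M] :
    Subgroup (Fin n → Mˣ) :=
  Subgroup.closure
    ({d | ∃ z : Fin n → Mˣ, d = z ^ ℓ} ∪
      {d | ∃ u w : M[X], u.Monic ∧ u ∣ curvePoly a b M - w ^ ℓ ∧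
        ∀ i, (d i : M) = (-1) ^ u.natDegree * u.eval (algebraMap K M (a i))})

/-- Base change of tuples of units. -/
def baseChange (M : Type*) [Field M] [Algebra K M] : (Fin n → Kˣ) →* (Fin n → Mˣ) where
  toFun d i := Units.map (algebraMap K M : K →* M) (d i)
  map_one' := by ext; simp
  map_mul' _ _ := by ext; simp

/-- The value at `i` of the divisor `b j • (A j - ∞)`, where `A j = (a j, 0)`. For `i ≠ j` this is
`(a j - a i) ^ (b j)`; the value at `j` is determined, modulo `ℓ`-th powers, by
`∏ i, d i ^ b i = 1`. -/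
noncomputable def torsionTuple (a : Fin n → K) (b : Fin n → ℕ) (j i : Fin n) : K :=
  if i = j then (∏ k ∈ Finset.univ.erase j, (a j - a k) ^ (b k))⁻¹ else (a j - a i) ^ (b j)

/-- The subgroup of `∏ Kˣ` generated by the `ℓ`-th powers and by the values at the divisors
`b j • (A j - ∞)`. -/
def torsionGroup (ℓ : ℕ) (a : Fin n → K) (b : Fin n → ℕ) : Subgroup (Fin n → Kˣ) :=
  Subgroup.closure
    ({d | ∃ z : Fin n → Kˣ, d = z ^ ℓ} ∪ {d | ∃ j, ∀ i, (d i : K) = torsionTuple a b j i})

/-- The subgroup of `ℓ`-th powers. -/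
def powGroup (ℓ : ℕ) (K : Type*) [Field K] (n : ℕ) : Subgroup (Fin n → Kˣ) :=
  (powMonoidHom ℓ : (Fin n → Kˣ) →* (Fin n → Kˣ)).range

open Classical in
/-- The Selmer group over `K = F(t)`: the tuples which lie in the local image at every place
of `F(t)`. -/
noncomputable def selmerGroup (F : Type*) [Field F] (ℓ : ℕ) (a : Fin n → RatFunc F)
    (b : Fin n → ℕ) : Subgroup (Fin n → (RatFunc F)ˣ) :=
  (⨅ v : HeightOneSpectrum F[X],
    (localImage ℓ a b (v.adicCompletion (RatFunc F))).comap (baseChange _)) ⊓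
  (localImage ℓ a b (RatFunc.CompletionAtInfty F)).comap (baseChange _)

/-- The branch points `-P, c 0, ..., c (m - 1)`. -/
def branch {F : Type*} [Field F] {M : Type*} [Field M] [Algebra F M] {m : ℕ} (c : Fin m → F)
    (P : M) : Fin (m + 1) → M :=
  Fin.cons (-P) fun i => algebraMap F M (c i)

/-- The exponents `1, b 0, ..., b (m - 1)`. -/
def expo {m : ℕ} (b : Fin m → ℕ) : Fin (m + 1) → ℕ := Fin.cons 1 b

end MP72e2e6
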