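import Pool.Agent.Lib.MP_72e2e6_nt.SuStmt

/-!
# MP_72e2e6_nt, SuBdd: bounded prime sums with complex values
-/

namespace MP72e2e6

open Polynomial

universe u

theorem subdd_icc (M : ℕ) (f : ℕ → ℂ) :
    ∑ k ∈ Finset.Icc 1 M, f k = ∑ k ∈ Finset.range M, f (k + 1) := by
  induction M with
  | zero => rfl
  | succ M ih => rw [Finset.sum_Icc_succ_top (by omega), ih, Finset.sum_range_succ]

/-- The abstract summation argument. -/
theorem subdd_abs (b π : ℕ → ℂ) (N : ℕ) (hb : ∀ n, ‖b n‖ ≤ 1) (hπ : ∀ k, ‖π (k + 1)‖ ≤ 1)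
    (hN : ∀ n, N ≤ n → b n = 0)
    (hrec : ∀ n : ℕ, (n : ℂ) * b n = ∑ k ∈ Finset.range n, π (k + 1) * b (n - (k + 1)))
    (hS : ∑ i ∈ Finset.range N, b i ≠ 0) :
    ∃ B : ℝ, ∀ M : ℕ, ‖∑ k ∈ Finset.range M, π (k + 1)‖ ≤ B := by
  set S := ∑ i ∈ Finset.range N, b i with hSd
  have hB : ∀ j, N ≤ j → ∑ i ∈ Finset.range j, b i = S := by
    intro j hj
    refine (Finset.sum_subset (Finset.range_mono hj) ?_).symm
    intro x _ hx
    exact hN x (by simpa using hx)
  have hBle : ∀ j, ‖∑ i ∈ Finset.range j, b i‖ ≤ (N : ℝ) := by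
    have h1 : ∀ j, j ≤ N → ‖∑ i ∈ Finset.range j, b i‖ ≤ (N : ℝ) := by
      intro j hj
      refine (norm_sum_le _ _).trans ?_
      refine (Finset.sum_le_sum (fun i _ => hb i)).trans ?_
      rw [Finset.sum_const, Finset.card_range, nsmul_eq_mul, mul_one]
      exact_mod_cast hj
    intro j
    rcases le_total j N with hj | hj
    · exact h1 j hj
    · rw [hB j hj]
      exact h1 N le_rfl
  have hT : ∀ M, ∑ k ∈ Finset.range M, π (k + 1) * ∑ i ∈ Finset.range (M - k), b i =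
      ∑ n ∈ Finset.range (M + 1), (n : ℂ) * b n := by
    intro M
    induction M with
    | zero => simp
    | succ M ih =>
      rw [Finset.sum_range_succ (fun n : ℕ => (n : ℂ) * b n), ← ih, hrec (M + 1)]
      have h1 : ∀ k ∈ Finset.range (M + 1), π (k + 1) * ∑ i ∈ Finset.range (M + 1 - k), b i =
          π (k + 1) * ∑ i ∈ Finset.range (M - k), b i + π (k + 1) * b (M + 1 - (k + 1)) := by
        intro k hk
        rw [Finset.mem_range] at hk
        have h2 : M + 1 - k = (M - k) + 1 := by omega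
        have h3 : M + 1 - (k + 1) = M - k := by omega
        rw [h2, h3, Finset.sum_range_succ, mul_add]
      rw [Finset.sum_congr rfl h1, Finset.sum_add_distrib]
      congr 1
      rw [Finset.sum_range_succ, Nat.sub_self, Finset.range_zero, Finset.sum_empty, mul_zero,
        add_zero]
  have hL : ∀ M, ‖∑ n ∈ Finset.range (M + N + 1), (n : ℂ) * b n‖ ≤ (N : ℝ) * N := by
    intro M
    have h1 : ∑ n ∈ Finset.range (M + N + 1), (n : ℂ) * b n =
        ∑ n ∈ Finset.range N, (n : ℂ) * b n := by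
      refine (Finset.sum_subset (Finset.range_mono (by omega)) ?_).symm
      intro x _ hx
      rw [hN x (by simpa using hx), mul_zero]
    rw [h1]
    refine (norm_sum_le _ _).trans ?_
    have h2 : ∀ n ∈ Finset.range N, ‖(n : ℂ) * b n‖ ≤ N := by
      intro n hn
      rw [Finset.mem_range] at hn
      rw [norm_mul, Complex.norm_natCast]
      calc (n : ℝ) * ‖b n‖ ≤ n * 1 := mul_le_mul_of_nonneg_left (hb n) (Nat.cast_nonneg _)
        _ ≤ N := by rw [mul_one]; exact_mod_cast hn.le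
    refine (Finset.sum_le_sum h2).trans ?_
    rw [Finset.sum_const, Finset.card_range, nsmul_eq_mul]
  refine ⟨(2 * ((N : ℝ) * N)) / ‖S‖, fun M => ?_⟩
  rw [le_div_iff₀ (norm_pos_iff.mpr hS), ← norm_mul]
  have h1 := hT (M + N)
  rw [Finset.sum_range_add] at h1
  have h2 : ∀ k ∈ Finset.range M, π (k + 1) * ∑ i ∈ Finset.range (M + N - k), b i =
      π (k + 1) * S := by
    intro k hk
    rw [Finset.mem_range] at hk
    rw [hB _ (by omega)]
  rw [Finset.sum_congr rfl h2, ← Finset.sum_mul] at h1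
  have h3 : ‖∑ x ∈ Finset.range N, π (M + x + 1) * ∑ i ∈ Finset.range (M + N - (M + x)), b i‖ ≤
      (N : ℝ) * N := by
    refine (norm_sum_le _ _).trans ?_
    have h4 : ∀ x ∈ Finset.range N,
        ‖π (M + x + 1) * ∑ i ∈ Finset.range (M + N - (M + x)), b i‖ ≤ N := by
      intro x _
      rw [norm_mul]
      calc ‖π (M + x + 1)‖ * ‖∑ i ∈ Finset.range (M + N - (M + x)), b i‖ ≤ 1 * N :=
            mul_le_mul (hπ _) (hBle _) (norm_nonneg _) zero_le_one
        _ = N := one_mul _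
    refine (Finset.sum_le_sum h4).trans ?_
    rw [Finset.sum_const, Finset.card_range, nsmul_eq_mul]
  have h5 : (∑ k ∈ Finset.range M, π (k + 1)) * S =
      (∑ n ∈ Finset.range (M + N + 1), (n : ℂ) * b n) -
        ∑ x ∈ Finset.range N, π (M + x + 1) * ∑ i ∈ Finset.range (M + N - (M + x)), b i := by
    rw [← h1]
    ring
  rw [h5]
  refine (norm_sub_le _ _).trans ?_
  linarith [hL M]

theorem tSuBdd (hTwMon : StmtTwMon.{u}) (hSuPsi : StmtSuPsi.{u}) (hSuNonv : StmtSuNonv.{u}) :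
    StmtSuBdd.{u} := by
  intro F _ _ ℓ hℓ φ hφ N hN
  have hq : (0 : ℝ) < (Nat.card F : ℝ) := by exact_mod_cast Nat.card_pos
  have hval : ∀ h, ‖φ h‖ ≤ 1 := by
    intro h
    rcases hφ.val h with h1 | h1
    · rw [h1, norm_zero]; exact zero_le_one
    · exact (Complex.norm_eq_one_of_pow_eq_one h1 hℓ.ne_zero).le
  have hav : ∀ n, ‖avC φ n‖ ≤ (Nat.card F : ℝ) ^ n := by
    intro n
    rw [avC]
    refine (norm_sum_le _ _).trans ?_
    refine (Finset.sum_le_sum (fun h _ => hval h)).trans ?_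
    rw [Finset.sum_const, (hTwMon F).1 n, nsmul_eq_mul, mul_one, Nat.cast_pow]
  have hN1 : ∀ n, N ≤ n → avC φ n = 0 := by
    intro n hn
    have h1 := hN 1 le_rfl hℓ.one_lt n hn
    simpa only [pow_one] using h1
  have hnorm : ∀ (z : ℂ) (n : ℕ), ‖z / (Nat.card F : ℂ) ^ n‖ = ‖z‖ / (Nat.card F : ℝ) ^ n := by
    intro z n
    rw [norm_div, norm_pow, Complex.norm_natCast]
  suffices h0 : ∃ B : ℝ, ∀ M : ℕ, ‖∑ k ∈ Finset.range M,
      (fun n => psiC φ n / (Nat.card F : ℂ) ^ n) (k + 1)‖ ≤ B by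
    obtain ⟨B, hB⟩ := h0
    refine ⟨B, fun M => ?_⟩
    rw [subdd_icc]
    exact hB M
  refine subdd_abs (fun n => avC φ n / (Nat.card F : ℂ) ^ n)
    (fun n => psiC φ n / (Nat.card F : ℂ) ^ n) N ?_ ?_ ?_ ?_ (hSuNonv F ℓ hℓ φ hφ N hN)
  · intro n
    rw [hnorm, div_le_one (pow_pos hq n)]
    exact hav n
  · intro k
    rw [hnorm, div_le_one (pow_pos hq (k + 1))]
    exact (hSuPsi F ℓ hℓ).2.2.1 φ hφ (k + 1) (by omega)
  · intro n hn
    rw [hN1 n hn, zero_div]
  · intro n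
    have h1 := (hSuPsi F ℓ hℓ).1 φ hφ n
    rw [subdd_icc n (fun k => psiC φ k * avC φ (n - k))] at h1
    rw [← mul_div_assoc, h1, Finset.sum_div]
    refine Finset.sum_congr rfl (fun k hk => ?_)
    rw [Finset.mem_range] at hk
    have h3 : (Nat.card F : ℂ) ^ n =
        (Nat.card F : ℂ) ^ (k + 1) * (Nat.card F : ℂ) ^ (n - (k + 1)) := by
      rw [← pow_add]
      congr 1
      omega
    rw [h3, mul_div_mul_comm]

end MP72e2e6
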