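import Pool.Agent.Lib.MP_72e2e6_nt.SuAsm

/-!
# MP_72e2e6_nt: twists of superelliptic curves, coprime differences
-/

namespace MP72e2e6

open Polynomial IsDedekindDomain

universe u

section

variable {F : Type u} [Field F] {ℓ m n : ℕ}

/-- If all the differences of the branch points have the same degree and the differences of
different pairs are coprime, the branch points are tame everywhere. -/
theorem tame_of_coprime (hℓ : ℓ.Prime) (hℓ2 : ℓ ≠ 2) {a : Fin m → F[X]}
    (hdeg : ∀ i j, i ≠ j → (a i - a j).degree = n)
    (hcop : ∀ i j k l, i ≠ j → k ≠ l → s(i, j) ≠ s(k, l) → IsCoprime (a i - a j) (a k - a l))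
    {b : Fin m → ℕ} (hb : ∀ i, ¬ ℓ ∣ b i) (hb2 : ∀ i j, i ≠ j → ¬ ℓ ∣ b i + b j)
    (hB : ¬ ℓ ∣ ∑ k, b k) :
    (∀ P : F[X], P.Monic → Irreducible P → ∃ e : ℤ, Tame ℓ b (wP P a) e) ∧
      ∃ e : ℤ, Tame ℓ b (wI a) e := by
  classical
  have hp := Nat.prime_iff_prime_int.1 hℓ
  have hne : ∀ i j, i ≠ j → a i - a j ≠ 0 := by
    intro i j hij h
    have h1 := hdeg i j hij
    rw [h, degree_zero] at h1
    exact absurd h1 (by simp)
  have hBz : ¬ (ℓ : ℤ) ∣ ∑ k, (b k : ℤ) := by
    intro h
    refine hB ?_
    rw [← Int.natCast_dvd_natCast]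
    push_cast
    exact h
  refine ⟨fun P hP hPi => ?_, ?_⟩
  · by_cases hgood : ∀ i j, i ≠ j → ¬ P ∣ a i - a j
    · refine ⟨1, tame_good hℓ hB hb (fun i k hik => ?_) ?_⟩
      · rw [wP, multiplicity_eq_zero.2 (hgood i k hik), Nat.cast_zero]
      · intro h
        have h1 : ℓ ∣ 1 := by exact_mod_cast h
        exact hℓ.one_lt.ne' (Nat.dvd_one.1 h1)
    · push Not at hgood
      obtain ⟨j₀, k₀, hjk, hdvd⟩ := hgood
      have hzero : ∀ i k, i ≠ k → s(i, k) ≠ s(j₀, k₀) → wP P a i k = 0 := by
        intro i k hik hs
        have h1 : ¬ P ∣ a i - a k := fun h =>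
          hPi.not_isUnit ((hcop i k j₀ k₀ hik hjk hs).isUnit_of_dvd' h hdvd)
        rw [wP, multiplicity_eq_zero.2 h1, Nat.cast_zero]
      set μ : ℤ := wP P a j₀ k₀ with hμ
      have hμ0 : 0 ≤ μ := Int.natCast_nonneg _
      have hpair : ∀ i k, s(i, k) = s(j₀, k₀) → wP P a i k = μ := by
        intro i k h
        rcases Sym2.eq_iff.1 h with ⟨rfl, rfl⟩ | ⟨rfl, rfl⟩
        · rfl
        · exact wP_symm P a _ _
      have hball : ∀ (s : Finset (Fin m)) (j : Fin m), j ∈ s →
          (∀ i ∈ s, ∀ k, k ∉ s → i ≠ j → wP P a j k < wP P a j i) → ¬ ℓ ∣ ∑ k ∈ s, b k := by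
        intro s j hj h
        by_cases h1 : s = {j}
        · rw [h1, Finset.sum_singleton]
          exact hb j
        · by_cases h2 : s = Finset.univ
          · rw [h2]
            exact hB
          · obtain ⟨i, hi, hij⟩ : ∃ i ∈ s, i ≠ j := by
              by_contra h3
              push Not at h3
              exact h1 (Finset.eq_singleton_iff_unique_mem.2 ⟨hj, h3⟩)
            obtain ⟨k, hk⟩ : ∃ k, k ∉ s := by
              by_contra h3
              push Not at h3
              exact h2 (Finset.eq_univ_iff_forall.2 h3)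
            have h3 : ∀ i' ∈ s, i' ≠ j → s(j, i') = s(j₀, k₀) := by
              intro i' hi' hij'
              by_contra h4
              have h5 := h i' hi' k hk hij'
              rw [hzero j i' hij'.symm h4] at h5
              have h6 : (0 : ℤ) ≤ wP P a j k := Int.natCast_nonneg _
              omega
            have h4 : s = {j, i} := by
              ext i'
              simp only [Finset.mem_insert, Finset.mem_singleton]
              constructor
              · intro hi'
                by_contra h5
                rw [not_or] at h5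
                have h6 := (h3 i' hi' h5.1).trans (h3 i hi hij).symm
                rcases Sym2.eq_iff.1 h6 with ⟨-, h7⟩ | ⟨h7, -⟩
                · exact h5.2 h7
                · exact hij h7.symm
              · rintro (rfl | rfl)
                · exact hj
                · exact hi
            rw [h4, Finset.sum_pair hij.symm]
            exact hb2 j i hij.symm
      -- the levels
      have hlev0 : ∀ j i, j ≠ i → s(j, i) ≠ s(j₀, k₀) → lev b (wP P a) j i = 0 := by
        intro j i hji hs
        refine Finset.sum_eq_zero fun k _ => ?_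
        rw [hzero j i hji hs]
        split_ifs with h
        · rw [mul_zero]
        · have h6 : (0 : ℤ) ≤ wP P a j k := Int.natCast_nonneg _
          rw [min_eq_right h6, mul_zero]
      have hlev1 : ∀ j i, j ≠ i → s(j, i) = s(j₀, k₀) → lev b (wP P a) j i =
          ((b j : ℤ) + b i) * μ := by
        intro j i hji hs
        have h1 : ∀ k, (b k : ℤ) * (if k = j then wP P a j i else min (wP P a j k) (wP P a j i)) =
            (if k = j then (b k : ℤ) * μ else 0) + if k = i then (b k : ℤ) * μ else 0 := by
          intro k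
          rw [hpair j i hs]
          by_cases hkj : k = j
          · subst hkj
            rw [if_pos rfl, if_pos rfl, if_neg hji, add_zero]
          · rw [if_neg hkj, if_neg hkj, zero_add]
            by_cases hki : k = i
            · subst hki
              rw [if_pos rfl, hpair j k hs, min_self]
            · rw [if_neg hki, hzero j k (fun h => hkj h.symm) ?_, min_eq_left hμ0, mul_zero]
              rw [← hs]
              intro h
              rcases Sym2.eq_iff.1 h with ⟨-, h7⟩ | ⟨h7, -⟩
              · exact hki h7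
              · exact hji h7
        rw [lev, Finset.sum_congr rfl fun k _ => h1 k, Finset.sum_add_distrib,
          Finset.sum_ite_eq', Finset.sum_ite_eq', if_pos (Finset.mem_univ _),
          if_pos (Finset.mem_univ _)]
        ring
      -- the choice of the twist
      obtain ⟨e, he1, he2⟩ : ∃ e : ℤ, ¬ (ℓ : ℤ) ∣ e * ∑ k, (b k : ℤ) ∧
          ¬ (ℓ : ℤ) ∣ e * (∑ k, (b k : ℤ)) + ((b j₀ : ℤ) + b k₀) * μ := by
        by_cases h : (ℓ : ℤ) ∣ 1 * (∑ k, (b k : ℤ)) + ((b j₀ : ℤ) + b k₀) * μ
        · refine ⟨2, ?_, ?_⟩
          · intro h1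
            rcases hp.dvd_or_dvd h1 with h2 | h2
            · have h3 : ℓ ∣ 2 := by exact_mod_cast h2
              exact hℓ2 ((Nat.prime_dvd_prime_iff_eq hℓ Nat.prime_two).1 h3)
            · exact hBz h2
          · intro h1
            refine hBz ?_
            have h2 := dvd_sub h1 h
            have h3 : 2 * (∑ k, (b k : ℤ)) + ((b j₀ : ℤ) + b k₀) * μ -
              (1 * (∑ k, (b k : ℤ)) + ((b j₀ : ℤ) + b k₀) * μ) = ∑ k, (b k : ℤ) := by ring
            rwa [h3] at h2
        · exact ⟨1, by rwa [one_mul], h⟩
      refine ⟨e, hball, fun j i hji => ?_⟩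
      by_cases hs : s(j, i) = s(j₀, k₀)
      · rw [hlev1 j i hji hs]
        rcases Sym2.eq_iff.1 hs with ⟨rfl, rfl⟩ | ⟨rfl, rfl⟩
        · exact he2
        · rw [add_comm (b j : ℤ)]
          exact he2
      · rw [hlev0 j i hji hs, add_zero]
        exact he1
  · have hw : ∀ i k, i ≠ k → wI a i k = -(n : ℤ) := by
      intro i k hik
      rw [wI, natDegree_eq_of_degree_eq_some (hdeg i k hik)]
    refine ⟨n + 1, ?_, ?_⟩
    · intro s j hj h
      by_cases h1 : s = {j}
      · rw [h1, Finset.sum_singleton]
        exact hb j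
      · by_cases h2 : s = Finset.univ
        · rw [h2]
          exact hB
        · exfalso
          obtain ⟨i, hi, hij⟩ : ∃ i ∈ s, i ≠ j := by
            by_contra h3
            push Not at h3
            exact h1 (Finset.eq_singleton_iff_unique_mem.2 ⟨hj, h3⟩)
          obtain ⟨k, hk⟩ : ∃ k, k ∉ s := by
            by_contra h3
            push Not at h3
            exact h2 (Finset.eq_univ_iff_forall.2 h3)
          have h3 := h i hi k hk hij
          rw [hw j k fun h => hk (h ▸ hj), hw j i hij.symm] at h3
          exact lt_irrefl _ h3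
    · intro j i hji hdvd
      have h1 : lev b (wI a) j i = -(n : ℤ) * ∑ k, (b k : ℤ) := by
        rw [lev, Finset.mul_sum]
        refine Finset.sum_congr rfl fun k _ => ?_
        split_ifs with h
        · rw [hw j i hji, mul_comm]
        · rw [hw j i hji, hw j k fun h' => h h'.symm, min_self, mul_comm]
      rw [h1] at hdvd
      refine hBz ?_
      have h2 : ((n : ℤ) + 1) * (∑ k, (b k : ℤ)) + -(n : ℤ) * ∑ k, (b k : ℤ) =
        ∑ k, (b k : ℤ) := by ring
      rwa [h2] at hdvd

end

end MP72e2e6
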