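import Pool.Agent.Lib.MP_72e2e6_nt.SuStmt

/-!
# MP_72e2e6_nt: existence of the twist exponent (`StmtSuEx`)
-/

namespace MP72e2e6

open Polynomial IsDedekindDomain

/-- the eigenvector belonging to the ball around `j` of level `w j i` -/
theorem suex_eigen (ℓ : ℕ) [Fact ℓ.Prime] (m : ℕ) (b : Fin m → ℕ) (w : Fin m → Fin m → ℤ)
    (hw : Ultra w)
    (hball : ∀ (s : Finset (Fin m)) (j : Fin m), j ∈ s →
      (∀ i ∈ s, ∀ k, k ∉ s → i ≠ j → w j k < w j i) → ¬ ℓ ∣ ∑ k ∈ s, b k)
    (i j : Fin m) (hji : j ≠ i) :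
    ∃ u : Fin m → ZMod ℓ, u ≠ 0 ∧
      ∀ x, ∑ k, (b k : ZMod ℓ) * (w x k : ZMod ℓ) * (u x - u k) = (lev b w j i : ZMod ℓ) * u x := by
  classical
  have cast_ne : ∀ s : Finset (Fin m), ¬ ℓ ∣ ∑ k ∈ s, b k → (∑ k ∈ s, (b k : ZMod ℓ)) ≠ 0 := by
    intro s h1 h2
    apply h1
    rw [← ZMod.natCast_eq_zero_iff]
    push_cast
    exact h2
  obtain ⟨A, hA⟩ : ∃ A : Finset (Fin m), A = Finset.univ.filter fun k => k = j ∨ w j i < w j k :=
    ⟨_, rfl⟩
  obtain ⟨B, hB⟩ : ∃ B : Finset (Fin m), B = Finset.univ.filter fun k => k ≠ j ∧ w j k = w j i :=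
    ⟨_, rfl⟩
  obtain ⟨C, hC⟩ : ∃ C : Finset (Fin m), C = Finset.univ.filter fun k => k ≠ j ∧ w j k < w j i :=
    ⟨_, rfl⟩
  have mA : ∀ k, k ∈ A ↔ k = j ∨ w j i < w j k := fun k => by rw [hA, Finset.mem_filter]; simp
  have mB : ∀ k, k ∈ B ↔ k ≠ j ∧ w j k = w j i := fun k => by rw [hB, Finset.mem_filter]; simp
  have mC : ∀ k, k ∈ C ↔ k ≠ j ∧ w j k < w j i := fun k => by rw [hC, Finset.mem_filter]; simp
  have dAB : ∀ k, k ∈ A → k ∉ B := by
    intro k h1 h2
    rw [mA] at h1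
    rw [mB] at h2
    rcases h1 with h1 | h1
    · exact h2.1 h1
    · omega
  have dAC : ∀ k, k ∈ A → k ∉ C := by
    intro k h1 h2
    rw [mA] at h1
    rw [mC] at h2
    rcases h1 with h1 | h1
    · exact h2.1 h1
    · omega
  have dBC : ∀ k, k ∈ B → k ∉ C := by
    intro k h1 h2
    rw [mB] at h1
    rw [mC] at h2
    omega
  have cov : ∀ k, k ∈ A ∨ k ∈ B ∨ k ∈ C := by
    intro k
    rw [mA, mB, mC]
    by_cases hk : k = j
    · exact Or.inl (Or.inl hk)
    · rcases lt_trichotomy (w j k) (w j i) with h | h | h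
      · exact Or.inr (Or.inr ⟨hk, h⟩)
      · exact Or.inr (Or.inl ⟨hk, h⟩)
      · exact Or.inl (Or.inr h)
  have split3 : ∀ f : Fin m → ZMod ℓ, ∑ k, f k = ∑ k ∈ A, f k + ∑ k ∈ B, f k + ∑ k ∈ C, f k := by
    intro f
    rw [← Finset.sum_union (Finset.disjoint_left.2 dAB), ← Finset.sum_union]
    · apply Finset.sum_congr _ (fun _ _ => rfl)
      ext k
      simp only [Finset.mem_univ, Finset.mem_union, true_iff, or_assoc]
      exact cov k
    · rw [Finset.disjoint_left]
      intro k hk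
      rcases Finset.mem_union.1 hk with h | h
      · exact dAC k h
      · exact dBC k h
  have F1 : ∀ x ∈ A, ∀ k ∈ B, w x k = w j i ∧ w k x = w j i := by
    intro x hx k hk
    rw [mA] at hx
    rw [mB] at hk
    rcases hx with rfl | hx
    · exact ⟨hk.2, (hw.symm k x).trans hk.2⟩
    · by_cases hxj : x = j
      · rw [hxj]
        exact ⟨hk.2, (hw.symm k j).trans hk.2⟩
      · have hxk : x ≠ k := by
          rintro rfl
          omega
        have h1 := hw.tri x j k hxj (Ne.symm hk.1) hxk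
        have h2 := hw.tri j x k (Ne.symm hxj) hxk (Ne.symm hk.1)
        have h3 := hw.symm x j
        have h4 := hw.symm k x
        omega
  have F2 : ∀ x, x ∉ C → ∀ k ∈ C, w x k = w j k ∧ w k x = w j k := by
    intro x hx k hk
    rw [mC] at hk
    by_cases hxj : x = j
    · rw [hxj]
      exact ⟨rfl, hw.symm k j⟩
    · rw [mC, not_and, not_lt] at hx
      have hx' := hx hxj
      have hxk : x ≠ k := by
        rintro rfl
        omega
      have h1 := hw.tri x j k hxj (Ne.symm hk.1) hxk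
      have h2 := hw.tri j x k (Ne.symm hxj) hxk (Ne.symm hk.1)
      have h3 := hw.symm x j
      have h4 := hw.symm k x
      omega
  obtain ⟨β, hβ⟩ : ∃ β : ZMod ℓ, β = ∑ k ∈ A, (b k : ZMod ℓ) := ⟨_, rfl⟩
  obtain ⟨γ, hγ⟩ : ∃ γ : ZMod ℓ, γ = ∑ k ∈ B, (b k : ZMod ℓ) := ⟨_, rfl⟩
  have hβ0 : β ≠ 0 := by
    rw [hβ]
    apply cast_ne
    apply hball A j ((mA j).2 (Or.inl rfl))
    intro x hx k hk hxj
    rw [mA] at hx
    rw [mA, not_or, not_lt] at hk
    have := hx.resolve_left hxj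
    omega
  obtain ⟨u, hu⟩ : ∃ u : Fin m → ZMod ℓ, u = fun x => if x ∈ A then γ else if x ∈ B then -β else 0 :=
    ⟨_, rfl⟩
  have uA : ∀ x ∈ A, u x = γ := fun x hx => by rw [hu]; exact if_pos hx
  have uB : ∀ x ∈ B, u x = -β := fun x hx => by
    rw [hu]
    show (if x ∈ A then γ else if x ∈ B then -β else 0) = -β
    rw [if_neg (fun h => dAB x h hx), if_pos hx]
  have uC : ∀ x ∈ C, u x = 0 := fun x hx => by
    rw [hu]
    show (if x ∈ A then γ else if x ∈ B then -β else 0) = 0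
    rw [if_neg (fun h => dAC x h hx), if_neg (fun h => dBC x h hx)]
  have hiB : i ∈ B := (mB i).2 ⟨Ne.symm hji, rfl⟩
  have hlev : (lev b w j i : ZMod ℓ) =
      (w j i : ZMod ℓ) * (β + γ) + ∑ k ∈ C, (b k : ZMod ℓ) * (w j k : ZMod ℓ) := by
    rw [lev, Int.cast_sum, split3]
    congr 1
    · rw [mul_add, hβ, hγ, Finset.mul_sum, Finset.mul_sum]
      congr 1
      · refine Finset.sum_congr rfl fun k hk => ?_
        rw [mA] at hk
        split_ifs with h
        · push_cast
          ring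
        · rw [min_eq_right (hk.resolve_left h).le]
          push_cast
          ring
      · refine Finset.sum_congr rfl fun k hk => ?_
        rw [mB] at hk
        rw [if_neg hk.1, hk.2, min_self]
        push_cast
        ring
    · refine Finset.sum_congr rfl fun k hk => ?_
      rw [mC] at hk
      rw [if_neg hk.1, min_eq_left hk.2.le]
      push_cast
      rfl
  refine ⟨u, fun h => ?_, fun x => ?_⟩
  · have h1 := uB i hiB
    rw [h] at h1
    exact hβ0 (neg_eq_zero.1 h1.symm)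
  · rw [split3, hlev]
    rcases cov x with hx | hx | hx
    · have e1 : ∑ k ∈ A, (b k : ZMod ℓ) * (w x k : ZMod ℓ) * (u x - u k) = 0 :=
        Finset.sum_eq_zero fun k hk => by rw [uA x hx, uA k hk, sub_self, mul_zero]
      have e2 : ∑ k ∈ B, (b k : ZMod ℓ) * (w x k : ZMod ℓ) * (u x - u k) =
          γ * ((w j i : ZMod ℓ) * (γ + β)) := by
        rw [hγ, Finset.sum_mul, ← hγ]
        refine Finset.sum_congr rfl fun k hk => ?_
        rw [uA x hx, uB k hk, (F1 x hx k hk).1]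
        ring
      have e3 : ∑ k ∈ C, (b k : ZMod ℓ) * (w x k : ZMod ℓ) * (u x - u k) =
          (∑ k ∈ C, (b k : ZMod ℓ) * (w j k : ZMod ℓ)) * γ := by
        rw [Finset.sum_mul]
        refine Finset.sum_congr rfl fun k hk => ?_
        rw [uA x hx, uC k hk, (F2 x (dAC x hx) k hk).1, sub_zero]
      rw [e1, e2, e3, uA x hx]
      ring
    · have e1 : ∑ k ∈ A, (b k : ZMod ℓ) * (w x k : ZMod ℓ) * (u x - u k) =
          β * ((w j i : ZMod ℓ) * (-β - γ)) := by
        rw [hβ, Finset.sum_mul, ← hβ]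
        refine Finset.sum_congr rfl fun k hk => ?_
        rw [uB x hx, uA k hk, (F1 k hk x hx).2]
        ring
      have e2 : ∑ k ∈ B, (b k : ZMod ℓ) * (w x k : ZMod ℓ) * (u x - u k) = 0 :=
        Finset.sum_eq_zero fun k hk => by rw [uB x hx, uB k hk, sub_self, mul_zero]
      have e3 : ∑ k ∈ C, (b k : ZMod ℓ) * (w x k : ZMod ℓ) * (u x - u k) =
          (∑ k ∈ C, (b k : ZMod ℓ) * (w j k : ZMod ℓ)) * (-β) := by
        rw [Finset.sum_mul]
        refine Finset.sum_congr rfl fun k hk => ?_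
        rw [uB x hx, uC k hk, (F2 x (dBC x hx) k hk).1, sub_zero]
      rw [e1, e2, e3, uB x hx]
      ring
    · have e1 : ∑ k ∈ A, (b k : ZMod ℓ) * (w x k : ZMod ℓ) * (u x - u k) =
          β * (-(w j x : ZMod ℓ) * γ) := by
        rw [hβ, Finset.sum_mul]
        refine Finset.sum_congr rfl fun k hk => ?_
        rw [uC x hx, uA k hk, (F2 k (dAC k hk) x hx).2]
        ring
      have e2 : ∑ k ∈ B, (b k : ZMod ℓ) * (w x k : ZMod ℓ) * (u x - u k) =
          γ * ((w j x : ZMod ℓ) * β) := by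
        rw [hγ, Finset.sum_mul]
        refine Finset.sum_congr rfl fun k hk => ?_
        rw [uC x hx, uB k hk, (F2 k (dBC k hk) x hx).2]
        ring
      have e3 : ∑ k ∈ C, (b k : ZMod ℓ) * (w x k : ZMod ℓ) * (u x - u k) = 0 :=
        Finset.sum_eq_zero fun k hk => by rw [uC x hx, uC k hk, sub_self, mul_zero]
      rw [e1, e2, e3, uC x hx]
      ring

theorem tSuEx : StmtSuEx := by
  refine ⟨?_, ?_⟩
  · intro ℓ hp m hm b w hw hball
    by_contra hne
    push Not at hne
    rcases Nat.eq_zero_or_pos m with rfl | hm0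
    · exact hne 0 hp.out.pos ⟨fun _ j => j.elim0, fun j => j.elim0⟩
    have hB : (∑ k, (b k : ZMod ℓ)) ≠ 0 := by
      intro h2
      apply hball Finset.univ ⟨0, hm0⟩ (Finset.mem_univ _)
        (fun i _ k hk => absurd (Finset.mem_univ k) hk)
      rw [← ZMod.natCast_eq_zero_iff]
      push_cast
      exact h2
    have hex : ∀ e : Fin ℓ, ∃ u : Fin m → ZMod ℓ,
        (sgM b 0 (fun i k => (w i k : ZMod ℓ))).HasEigenvector (-(e : ℕ) : ZMod ℓ) u := by
      intro e
      have h1 : ∃ j i : Fin m, j ≠ i ∧ (ℓ : ℤ) ∣ (e : ℕ) * (∑ k, (b k : ℤ)) + lev b w j i := by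
        by_contra h
        apply hne e e.2
        exact ⟨hball, fun j i hji hd => h ⟨j, i, hji, hd⟩⟩
      obtain ⟨j, i, hji, hd⟩ := h1
      rw [← ZMod.intCast_zmod_eq_zero_iff_dvd] at hd
      push_cast at hd
      obtain ⟨u, hu0, hu⟩ := suex_eigen ℓ m b w hw hball i j hji
      refine ⟨u, ?_, hu0⟩
      rw [Module.End.mem_eigenspace_iff]
      ext x
      show sg b 0 (fun i k => (w i k : ZMod ℓ)) u x = (-((e : ℕ) : ZMod ℓ)) * u x
      rw [sg, hu x, zero_mul, zero_add, ← mul_assoc]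
      congr 1
      rw [eq_neg_of_add_eq_zero_right hd, mul_neg, mul_comm ((e : ℕ) : ZMod ℓ), ← mul_assoc,
        inv_mul_cancel₀ hB, one_mul]
    choose u hu using hex
    have hinj : Function.Injective (fun e : Fin ℓ => (-((e : ℕ) : ZMod ℓ))) := by
      intro e e' h
      have h1 : ((e : ℕ) : ZMod ℓ) = ((e' : ℕ) : ZMod ℓ) := neg_injective h
      rw [ZMod.natCast_eq_natCast_iff', Nat.mod_eq_of_lt e.2, Nat.mod_eq_of_lt e'.2] at h1
      exact Fin.ext h1
    have hli := Module.End.eigenvectors_linearIndependent'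
      (sgM b 0 (fun i k => (w i k : ZMod ℓ))) _ hinj u hu
    have hcard := hli.fintype_card_le_finrank
    rw [Fintype.card_fin, Module.finrank_fintype_fun_eq_card, Fintype.card_fin] at hcard
    omega
  · intro ℓ m hℓ b hb
    haveI : Fact ℓ.Prime := ⟨hℓ⟩
    by_contra hm
    rw [not_lt] at hm
    let P : Fin (m + 1) → ZMod ℓ :=
      fun j => ∑ i ∈ Finset.univ.filter (fun i : Fin m => (i : ℕ) < (j : ℕ)), (b i : ZMod ℓ)
    have key : ∀ j j' : Fin (m + 1), (j : ℕ) < (j' : ℕ) → P j ≠ P j' := by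
      intro j j' hjj h
      have hlt : (j : ℕ) < m := lt_of_lt_of_le hjj (Nat.lt_succ_iff.1 j'.2)
      have hne : (Finset.univ.filter (fun i : Fin m => (i : ℕ) < (j' : ℕ) ∧
          ¬ (i : ℕ) < (j : ℕ))).Nonempty :=
        ⟨⟨j, hlt⟩, by
          rw [Finset.mem_filter]
          exact ⟨Finset.mem_univ _, hjj, lt_irrefl _⟩⟩
      apply hb _ hne
      rw [← ZMod.natCast_eq_zero_iff]
      push_cast
      have h1 : P j' = P j + ∑ i ∈ Finset.univ.filter (fun i : Fin m => (i : ℕ) < (j' : ℕ) ∧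
          ¬ (i : ℕ) < (j : ℕ)), (b i : ZMod ℓ) := by
        show ∑ i ∈ Finset.univ.filter (fun i : Fin m => (i : ℕ) < (j' : ℕ)), (b i : ZMod ℓ) = _
        rw [← Finset.sum_filter_add_sum_filter_not
          (Finset.univ.filter (fun i : Fin m => (i : ℕ) < (j' : ℕ)))
          (fun i : Fin m => (i : ℕ) < (j : ℕ)), Finset.filter_filter, Finset.filter_filter]
        congr 1
        apply Finset.sum_congr _ (fun _ _ => rfl)
        ext i
        simp only [Finset.mem_filter, Finset.mem_univ, true_and]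
        constructor
        · exact fun h => h.2
        · exact fun h => ⟨h.trans hjj, h⟩
      rw [← h] at h1
      exact left_eq_add.1 h1
    have hcard : Fintype.card (ZMod ℓ) < Fintype.card (Fin (m + 1)) := by
      rw [ZMod.card, Fintype.card_fin]
      omega
    obtain ⟨j, j', hne, heq⟩ := Fintype.exists_ne_map_eq_of_card_lt P hcard
    rcases lt_or_gt_of_ne (fun h => hne (Fin.ext h) : (j : ℕ) ≠ (j' : ℕ)) with h | h
    · exact key j j' h heq
    · exact key j' j h heq.symm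

end MP72e2e6
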