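import Pool.Agent.Lib.MP_72e2e6_nt.SuStmt

/-!
# MP_72e2e6_nt: factorization and symbols (superelliptic case)
-/

set_option autoImplicit false

namespace MP72e2e6

open Polynomial

universe u

theorem sufac_not_dvd {F : Type u} [Field F] {P Q : F[X]} (hP : P.Monic) (hPi : Irreducible P)
    (hQ : Q.Monic) (hQi : Irreducible Q) (h : Q ≠ P) : ¬ Q ∣ P := by
  intro hd
  exact h (Polynomial.eq_of_monic_of_associated hQ hP ((hQi.dvd_irreducible_iff_associated hPi).mp hd))

theorem sufac_pow {F : Type u} [Field F] {ℓ : ℕ} {f : F[X] → ZMod ℓ}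
    (hf : ∀ g h : F[X], g ≠ 0 → h ≠ 0 → f (g * h) = f g + f h) {P g : F[X]} (hP : P ≠ 0)
    (hg : g ≠ 0) : ∀ k : ℕ, f (P ^ k * g) = k * f P + f g := by
  intro k
  induction k with
  | zero => simp
  | succ k ih =>
    have e : P ^ (k + 1) * g = P * (P ^ k * g) := by ring
    rw [e, hf P _ hP (mul_ne_zero (pow_ne_zero _ hP) hg), ih]
    push_cast
    ring

theorem sufac_dvd {F : Type u} [Field F] {ℓ : ℕ} {P h : F[X]} (hPi : Irreducible P)
    (h0 : h ≠ 0) (hPh : P ∣ h) (hv : vl ℓ P h = 0) : P ^ ℓ ∣ h := by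
  unfold vl at hv
  rw [if_neg h0, ZMod.natCast_eq_zero_iff] at hv
  have hfin : FiniteMultiplicity P h := FiniteMultiplicity.of_prime_left hPi.prime h0
  have hne : 1 ≤ multiplicity P h := hfin.le_multiplicity_of_pow_dvd (by rwa [pow_one])
  exact (pow_dvd_pow P (Nat.le_of_dvd hne hv)).trans (pow_multiplicity_dvd P h)

theorem tSuFac.{v} (hSy : StmtSuSy.{v}) : StmtSuFac.{v} := by
  intro F _ _ ℓ hℓ hdℓ χ hχ ι _ pr hpr
  obtain ⟨-, -, hP⟩ := hSy F ℓ hℓ hdℓ χ hχ
  have hℓ0 : ((ℓ : ℕ) : ZMod ℓ) = 0 := ZMod.natCast_self ℓ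
  suffices H : ∀ (N : ℕ) (h : F[X]), h.natDegree = N → h ≠ 0 →
      (∀ P : F[X], P.Monic → Irreducible P → (∀ b, pr b ≠ P) → vl ℓ P h = 0) →
      (∀ b, syl χ (pr b) h = (pr b).natDegree * χ h.leadingCoeff +
        ∑ b', vl ℓ (pr b') h * syl χ (pr b) (pr b')) ∧
      (h.natDegree : ZMod ℓ) = ∑ b, (pr b).natDegree * vl ℓ (pr b) h ∧
      (χ h.leadingCoeff = 0 → (∀ b, vl ℓ (pr b) h = 0) → ∃ z, h = z ^ ℓ) by
    intro h h0 hv
    exact H _ h rfl h0 hv
  intro N
  induction N using Nat.strong_induction_on with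
  | _ N ih =>
  intro h hN h0 hv
  have key : ∀ P : F[X], P.Monic → Irreducible P → P ∣ h → vl ℓ P h = 0 →
      (∀ b, syl χ (pr b) h = (pr b).natDegree * χ h.leadingCoeff +
        ∑ b', vl ℓ (pr b') h * syl χ (pr b) (pr b')) ∧
      (h.natDegree : ZMod ℓ) = ∑ b, (pr b).natDegree * vl ℓ (pr b) h ∧
      (χ h.leadingCoeff = 0 → (∀ b, vl ℓ (pr b) h = 0) → ∃ z, h = z ^ ℓ) := by
    intro P hPm hPi hPh hv0
    have hP0 : P ≠ 0 := hPm.ne_zero
    obtain ⟨h₂, hg⟩ := sufac_dvd hPi h0 hPh hv0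
    have h20 : h₂ ≠ 0 := by
      rintro rfl
      exact h0 (by rw [hg, mul_zero])
    have hvp : ∀ Q : F[X], Q.Monic → Irreducible Q → vl ℓ Q h = vl ℓ Q h₂ := by
      intro Q hQm hQi
      obtain ⟨hm, -⟩ := hP Q hQm hQi
      rw [hg, sufac_pow (f := vl ℓ Q) (fun g h hg hh => (hm g h hg hh).1) hP0 h20 ℓ, hℓ0, zero_mul,
        zero_add]
    have hsy : ∀ Q : F[X], Q.Monic → Irreducible Q → syl χ Q h = syl χ Q h₂ := by
      intro Q hQm hQi
      obtain ⟨hm, -⟩ := hP Q hQm hQi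
      rw [hg, sufac_pow (f := syl χ Q) (fun g h hg hh => (hm g h hg hh).2) hP0 h20 ℓ, hℓ0, zero_mul,
        zero_add]
    have hlc : h.leadingCoeff = h₂.leadingCoeff := by
      rw [hg, leadingCoeff_mul, leadingCoeff_pow, hPm.leadingCoeff, one_pow, one_mul]
    have hdeg : h.natDegree = ℓ * P.natDegree + h₂.natDegree := by
      rw [hg, natDegree_mul (pow_ne_zero _ hP0) h20, natDegree_pow]
    have hpos : 0 < P.natDegree := hPi.natDegree_pos
    have hpos2 : 0 < ℓ * P.natDegree := Nat.mul_pos hℓ.pos hpos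
    obtain ⟨a1, a2, a3⟩ := ih h₂.natDegree (by omega) h₂ rfl h20 (fun Q hQm hQi hQ => by
      rw [← hvp Q hQm hQi]
      exact hv Q hQm hQi hQ)
    refine ⟨?_, ?_, ?_⟩
    · intro b
      rw [hsy _ (hpr.monic b) (hpr.irr b), a1 b, hlc]
      congr 1
      refine Finset.sum_congr rfl fun b' _ => ?_
      rw [hvp _ (hpr.monic b') (hpr.irr b')]
    · rw [hdeg, Nat.cast_add, Nat.cast_mul, hℓ0, zero_mul, zero_add, a2]
      refine Finset.sum_congr rfl fun b' _ => ?_
      rw [hvp _ (hpr.monic b') (hpr.irr b')]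
    · intro hc hb
      obtain ⟨r, hr⟩ := a3 (by rwa [← hlc]) (fun b => by
        rw [← hvp _ (hpr.monic b) (hpr.irr b)]
        exact hb b)
      refine ⟨P * r, ?_⟩
      rw [hg, hr, mul_pow]
  rcases Nat.eq_zero_or_pos h.natDegree with hd | hd
  · obtain ⟨x, hx⟩ : ∃ x, h = C x := ⟨_, eq_C_of_natDegree_eq_zero hd⟩
    have hx0 : x ≠ 0 := by
      rintro rfl
      exact h0 (by rw [hx, C_0])
    have hvx : ∀ b, vl ℓ (pr b) h = 0 := by
      intro b
      obtain ⟨-, -, -, -, hC⟩ := hP _ (hpr.monic b) (hpr.irr b)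
      rw [hx]
      exact (hC x hx0).1
    refine ⟨?_, ?_, ?_⟩
    · intro b
      obtain ⟨-, -, -, -, hC⟩ := hP _ (hpr.monic b) (hpr.irr b)
      rw [Finset.sum_eq_zero (fun b' _ => by rw [hvx b', zero_mul]), add_zero, hx,
        leadingCoeff_C]
      exact (hC x hx0).2
    · rw [hd, Nat.cast_zero, Finset.sum_eq_zero (fun b' _ => by rw [hvx b', mul_zero])]
    · intro hc _
      rw [hx, leadingCoeff_C] at hc
      obtain ⟨z, hz⟩ := (hχ.ker x hx0).1 hc
      exact ⟨C z, by rw [hx, hz, C_pow]⟩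
  · obtain ⟨P, hPm, hPi, hPd⟩ := Polynomial.exists_monic_irreducible_factor h
      (fun hu => by rw [natDegree_eq_zero_of_isUnit hu] at hd; exact lt_irrefl _ hd)
    by_cases hrange : ∀ b, pr b ≠ P
    · exact key P hPm hPi hPd (hv P hPm hPi hrange)
    · push Not at hrange
      obtain ⟨b₀, hb₀⟩ := hrange
      obtain ⟨g, hg⟩ := hPd
      have hP0 : P ≠ 0 := hPm.ne_zero
      have hg0 : g ≠ 0 := by
        rintro rfl
        exact h0 (by rw [hg, mul_zero])
      have hlc : h.leadingCoeff = g.leadingCoeff := by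
        rw [hg, leadingCoeff_mul, hPm.leadingCoeff, one_mul]
      have hdeg : h.natDegree = P.natDegree + g.natDegree := by
        rw [hg, natDegree_mul hP0 hg0]
      have hpos : 0 < P.natDegree := hPi.natDegree_pos
      have hvp : ∀ Q : F[X], Q.Monic → Irreducible Q → Q ≠ P → vl ℓ Q h = vl ℓ Q g := by
        intro Q hQm hQi hQ
        obtain ⟨hm, hnd, -⟩ := hP Q hQm hQi
        rw [hg, (hm P _ hP0 hg0).1, (hnd P (sufac_not_dvd hPm hPi hQm hQi hQ)).1, zero_add]
      have hvP : vl ℓ P h = 1 + vl ℓ P g := by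
        obtain ⟨hm, -, hPP, -⟩ := hP P hPm hPi
        rw [hg, (hm P _ hP0 hg0).1, hPP]
      obtain ⟨a1, a2, -⟩ := ih g.natDegree (by omega) g rfl hg0 (fun Q hQm hQi hQ => by
        rw [← hvp Q hQm hQi (fun h => hQ b₀ (by rw [hb₀, h]))]
        exact hv Q hQm hQi hQ)
      classical
      have hvb : ∀ b, vl ℓ (pr b) h = (if b = b₀ then 1 else 0) + vl ℓ (pr b) g := by
        intro b
        by_cases hb : b = b₀
        · subst hb
          rw [if_pos rfl, hb₀, hvP]
        · rw [if_neg hb, zero_add]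
          exact hvp _ (hpr.monic b) (hpr.irr b) (fun h => hb (hpr.inj (by rw [h, hb₀])))
      refine ⟨?_, ?_, ?_⟩
      · intro b
        obtain ⟨hm, -⟩ := hP _ (hpr.monic b) (hpr.irr b)
        have e1 : syl χ (pr b) h = syl χ (pr b) P + syl χ (pr b) g := by
          rw [hg, (hm P _ hP0 hg0).2]
        rw [e1, a1 b, hlc]
        simp_rw [hvb, add_mul]
        rw [Finset.sum_add_distrib]
        simp only [ite_mul, one_mul, zero_mul, Finset.sum_ite_eq', Finset.mem_univ, if_true]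
        rw [hb₀]
        ring
      · rw [hdeg, Nat.cast_add, a2]
        simp_rw [hvb, mul_add]
        rw [Finset.sum_add_distrib]
        simp only [mul_ite, mul_one, mul_zero, Finset.sum_ite_eq', Finset.mem_univ, if_true]
        rw [hb₀]
      · intro hc hb
        exact (key P hPm hPi ⟨g, hg⟩ (by rw [← hb₀]; exact hb b₀)).2.2 hc hb

end MP72e2e6
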