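import Pool.Agent.Lib.MP_72e2e6_nt.SuStmt

/-!
# MP_72e2e6_nt: the operators satisfy `N ^ ℓ = N`
-/

namespace MP72e2e6

open Finset

section frob

variable {ℓ m : ℕ}

/-- the class of `i` at the level `r` -/
def sufrobS (w : Fin m → Fin m → ℤ) (r : ℤ) (i : Fin m) : Finset (Fin m) :=
  univ.filter fun k => k = i ∨ r ≤ w i k

theorem sufrob_mem {w : Fin m → Fin m → ℤ} {r : ℤ} {i k : Fin m} :
    k ∈ sufrobS w r i ↔ k = i ∨ r ≤ w i k := by
  simp [sufrobS]

theorem sufrob_symm {w : Fin m → Fin m → ℤ} (hw : Ultra w) {r : ℤ} {i k : Fin m} :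
    k ∈ sufrobS w r i ↔ i ∈ sufrobS w r k := by
  rw [sufrob_mem, sufrob_mem, hw.symm i k, eq_comm]

theorem sufrob_sub {w : Fin m → Fin m → ℤ} (hw : Ultra w) {r : ℤ} {i k : Fin m}
    (h : k ∈ sufrobS w r i) : sufrobS w r k ⊆ sufrobS w r i := by
  intro l hl
  rw [sufrob_mem] at h hl ⊢
  by_cases h1 : l = i
  · exact Or.inl h1
  · right
    rcases h with rfl | h
    · rcases hl with rfl | hl
      · exact absurd rfl h1
      · exact hl
    · rcases hl with rfl | hl
      · exact h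
      · by_cases h2 : i = k
        · rw [h2]
          exact hl
        · by_cases h3 : k = l
          · rw [← h3]
            exact h
          · exact (le_min h hl).trans (hw.tri i k l h2 h3 (Ne.symm h1))

theorem sufrob_eq {w : Fin m → Fin m → ℤ} (hw : Ultra w) {r : ℤ} {i k : Fin m}
    (h : k ∈ sufrobS w r i) : sufrobS w r k = sufrobS w r i :=
  Finset.Subset.antisymm (sufrob_sub hw h) (sufrob_sub hw ((sufrob_symm hw).1 h))

theorem sufrob_mono {w : Fin m → Fin m → ℤ} {r r' : ℤ} (h : r' ≤ r) (i : Fin m) :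
    sufrobS w r i ⊆ sufrobS w r' i := by
  intro k hk
  rw [sufrob_mem] at hk ⊢
  rcases hk with hk | hk
  · exact Or.inl hk
  · exact Or.inr (h.trans hk)

/-- the sum of the exponents in a class -/
def sufrobB (ℓ : ℕ) (b : Fin m → ℕ) (w : Fin m → Fin m → ℤ) (r : ℤ) (i : Fin m) : ZMod ℓ :=
  ∑ k ∈ sufrobS w r i, (b k : ZMod ℓ)

/-- the operators -/
def sufrobN (ℓ : ℕ) (b : Fin m → ℕ) (w : Fin m → Fin m → ℤ) (r : ℤ) :
    Module.End (ZMod ℓ) (Fin m → ZMod ℓ) where
  toFun c i := ∑ k ∈ sufrobS w r i, (b k : ZMod ℓ) * (c i - c k)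
  map_add' x y := by
    ext i
    simp only [Pi.add_apply]
    rw [← Finset.sum_add_distrib]
    exact Finset.sum_congr rfl fun k _ => by ring
  map_smul' t x := by
    ext i
    simp only [Pi.smul_apply, smul_eq_mul, RingHom.id_apply]
    rw [Finset.mul_sum]
    exact Finset.sum_congr rfl fun k _ => by ring

theorem sufrob_N (b : Fin m → ℕ) (w : Fin m → Fin m → ℤ) (r : ℤ) (c : Fin m → ZMod ℓ)
    (i : Fin m) : sufrobN ℓ b w r c i = ∑ k ∈ sufrobS w r i, (b k : ZMod ℓ) * (c i - c k) := rfl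

theorem sufrob_N' (b : Fin m → ℕ) (w : Fin m → Fin m → ℤ) (r : ℤ) (c : Fin m → ZMod ℓ)
    (i : Fin m) : sufrobN ℓ b w r c i =
      sufrobB ℓ b w r i * c i - ∑ k ∈ sufrobS w r i, (b k : ZMod ℓ) * c k := by
  rw [sufrob_N, sufrobB, Finset.sum_mul, ← Finset.sum_sub_distrib]
  exact Finset.sum_congr rfl fun k _ => by ring

theorem sufrob_zero {w : Fin m → Fin m → ℤ} (hw : Ultra w) (b : Fin m → ℕ) {r r' : ℤ}
    (h : r' ≤ r) (c : Fin m → ZMod ℓ) (i : Fin m) :
    ∑ k ∈ sufrobS w r' i, (b k : ZMod ℓ) * sufrobN ℓ b w r c k = 0 := by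
  have h1 : ∑ k ∈ sufrobS w r' i, ∑ l ∈ sufrobS w r k, (b k : ZMod ℓ) * b l * c k =
      ∑ k ∈ sufrobS w r' i, ∑ l ∈ sufrobS w r k, (b k : ZMod ℓ) * b l * c l := by
    rw [Finset.sum_comm' (s' := fun l => sufrobS w r l) (t' := sufrobS w r' i)]
    · refine Finset.sum_congr rfl fun k _ => Finset.sum_congr rfl fun l _ => ?_
      ring
    · intro k l
      constructor
      · rintro ⟨hk, hl⟩
        refine ⟨(sufrob_symm hw).1 hl, ?_⟩
        exact sufrob_sub hw hk (sufrob_mono h k hl)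
      · rintro ⟨hk, hl⟩
        refine ⟨sufrob_sub hw hl (sufrob_mono h l hk), (sufrob_symm hw).1 hk⟩
  have h2 : ∑ k ∈ sufrobS w r' i, (b k : ZMod ℓ) * sufrobN ℓ b w r c k =
      ∑ k ∈ sufrobS w r' i, ∑ l ∈ sufrobS w r k, (b k : ZMod ℓ) * b l * c k -
      ∑ k ∈ sufrobS w r' i, ∑ l ∈ sufrobS w r k, (b k : ZMod ℓ) * b l * c l := by
    rw [← Finset.sum_sub_distrib]
    refine Finset.sum_congr rfl fun k _ => ?_
    rw [← Finset.sum_sub_distrib, sufrob_N, Finset.mul_sum]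
    exact Finset.sum_congr rfl fun l _ => by ring
  rw [h2, h1, sub_self]

theorem sufrob_left {w : Fin m → Fin m → ℤ} (hw : Ultra w) (b : Fin m → ℕ) {r r' : ℤ}
    (h : r' ≤ r) (c : Fin m → ZMod ℓ) (i : Fin m) :
    sufrobN ℓ b w r' (sufrobN ℓ b w r c) i = sufrobB ℓ b w r' i * sufrobN ℓ b w r c i := by
  rw [sufrob_N', sufrob_zero hw b h, sub_zero]

theorem sufrob_right {w : Fin m → Fin m → ℤ} (hw : Ultra w) (b : Fin m → ℕ) {r r' : ℤ}
    (h : r' ≤ r) (c : Fin m → ZMod ℓ) (i : Fin m) :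
    sufrobN ℓ b w r (sufrobN ℓ b w r' c) i = sufrobB ℓ b w r' i * sufrobN ℓ b w r c i := by
  rw [sufrob_N b w r _ i, sufrob_N b w r c i, Finset.mul_sum]
  refine Finset.sum_congr rfl fun k hk => ?_
  have h1 := sufrob_eq hw (sufrob_mono h i hk)
  rw [sufrob_N' b w r' c i, sufrob_N' b w r' c k, h1]
  have h2 : sufrobB ℓ b w r' k = sufrobB ℓ b w r' i := by
    unfold sufrobB
    rw [h1]
  rw [h2]
  ring

theorem sufrob_comm {w : Fin m → Fin m → ℤ} (hw : Ultra w) (b : Fin m → ℕ) (r r' : ℤ) :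
    Commute (sufrobN ℓ b w r) (sufrobN ℓ b w r') := by
  rcases le_total r' r with h | h
  · refine LinearMap.ext fun c => funext fun i => ?_
    rw [Module.End.mul_apply, Module.End.mul_apply, sufrob_left hw b h, sufrob_right hw b h]
  · refine LinearMap.ext fun c => funext fun i => ?_
    rw [Module.End.mul_apply, Module.End.mul_apply, sufrob_left hw b h, sufrob_right hw b h]

theorem sufrob_pow {w : Fin m → Fin m → ℤ} (hw : Ultra w) (b : Fin m → ℕ) (r : ℤ) (j : ℕ)
    (c : Fin m → ZMod ℓ) (i : Fin m) :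
    (sufrobN ℓ b w r ^ (j + 1)) c i = sufrobB ℓ b w r i ^ j * sufrobN ℓ b w r c i := by
  induction j with
  | zero => rw [zero_add, pow_one, pow_zero, one_mul]
  | succ j ih =>
    have h1 : sufrobN ℓ b w r ^ (j + 1 + 1) =
        sufrobN ℓ b w r * (sufrobN ℓ b w r * sufrobN ℓ b w r ^ j) := by
      rw [pow_succ', pow_succ']
    have h2 : sufrobN ℓ b w r ^ (j + 1) = sufrobN ℓ b w r * sufrobN ℓ b w r ^ j := pow_succ' _ _
    rw [h1, Module.End.mul_apply, Module.End.mul_apply, sufrob_left hw b le_rfl,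
      ← Module.End.mul_apply, ← h2, ih]
    ring

theorem sufrob_powcard [Fact ℓ.Prime] {w : Fin m → Fin m → ℤ} (hw : Ultra w) (b : Fin m → ℕ)
    (hball : ∀ (s : Finset (Fin m)) (j : Fin m), j ∈ s →
      (∀ i ∈ s, ∀ k, k ∉ s → i ≠ j → w j k < w j i) → ¬ ℓ ∣ ∑ k ∈ s, b k) (r : ℤ) :
    sufrobN ℓ b w r ^ ℓ = sufrobN ℓ b w r := by
  refine LinearMap.ext fun c => funext fun i => ?_
  have hB : sufrobB ℓ b w r i ≠ 0 := by
    have h1 := hball (sufrobS w r i) i (sufrob_mem.2 (Or.inl rfl)) ?_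
    · intro h2
      apply h1
      rw [sufrobB, ← Nat.cast_sum] at h2
      exact (ZMod.natCast_eq_zero_iff _ _).1 h2
    · intro x hx k hk hxi
      rw [sufrob_mem] at hx hk
      rcases hx with hx | hx
      · exact absurd hx hxi
      · push Not at hk
        exact hk.2.trans_le hx
  have hl : ℓ = (ℓ - 1) + 1 := by
    have := (Fact.out : ℓ.Prime).one_lt
    omega
  have h5 : sufrobN ℓ b w r ^ ℓ = sufrobN ℓ b w r ^ ((ℓ - 1) + 1) := by rw [← hl]
  rw [h5, sufrob_pow hw, ZMod.pow_card_sub_one_eq_one hB, one_mul]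

theorem sufrob_sum {R ι : Type*} [Ring R] (p : ℕ) [Fact p.Prime] [CharP R p] (s : Finset ι)
    (f : ι → R) (hf : ∀ i ∈ s, f i ^ p = f i) (hc : ∀ i j, Commute (f i) (f j)) :
    (∑ i ∈ s, f i) ^ p = ∑ i ∈ s, f i := by
  classical
  induction s using Finset.induction_on with
  | empty => rw [Finset.sum_empty, zero_pow (Fact.out : p.Prime).ne_zero]
  | insert a s ha ih =>
    rw [Finset.sum_insert ha, add_pow_char_of_commute p
      (Commute.sum_right _ _ _ fun i _ => hc a i), hf a (Finset.mem_insert_self a s),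
      ih fun i hi => hf i (Finset.mem_insert_of_mem hi)]

end frob

/-- **SuFrob.** -/
theorem tSuFrob : StmtSuFrob := by
  intro ℓ _ m b w hw hball ρ
  rcases Nat.eq_zero_or_pos m with rfl | hm
  · refine LinearMap.ext fun c => funext fun i => i.elim0
  · have : Nonempty (Fin m) := ⟨⟨0, hm⟩⟩
    have : CharP (Module.End (ZMod ℓ) (Fin m → ZMod ℓ)) ℓ :=
      charP_of_injective_algebraMap
        (FaithfulSMul.algebraMap_injective (ZMod ℓ) (Module.End (ZMod ℓ) (Fin m → ZMod ℓ))) ℓ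
    obtain ⟨r₁, hr₁⟩ : ∃ r₁ : ℤ, ∀ i k, w i k ≤ r₁ := by
      obtain ⟨r₁, h⟩ := (Set.finite_range fun p : Fin m × Fin m => w p.1 p.2).bddAbove
      exact ⟨r₁, fun i k => h ⟨(i, k), rfl⟩⟩
    obtain ⟨r₀, hr₀⟩ : ∃ r₀ : ℤ, ∀ i k, r₀ ≤ w i k := by
      obtain ⟨r₀, h⟩ := (Set.finite_range fun p : Fin m × Fin m => w p.1 p.2).bddBelow
      exact ⟨r₀, fun i k => h ⟨(i, k), rfl⟩⟩
    have hdec : sgM b ρ (fun i k => (w i k : ZMod ℓ)) = ρ • 1 +
        ((∑ k, (b k : ZMod ℓ))⁻¹ * r₀) • sufrobN ℓ b w r₀ +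
        ∑ r ∈ Finset.Ioc r₀ r₁, (∑ k, (b k : ZMod ℓ))⁻¹ • sufrobN ℓ b w r := by
      refine LinearMap.ext fun c => funext fun i => ?_
      have h0 : sufrobS w r₀ i = univ := by
        rw [Finset.eq_univ_iff_forall]
        exact fun k => sufrob_mem.2 (Or.inr (hr₀ i k))
      simp only [LinearMap.add_apply, LinearMap.smul_apply, Pi.add_apply, Pi.smul_apply,
        LinearMap.sum_apply, Finset.sum_apply, smul_eq_mul, Module.End.one_apply, sufrob_N, h0]
      have key : ∀ k, (b k : ZMod ℓ) * (w i k : ZMod ℓ) * (c i - c k) =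
          (r₀ : ZMod ℓ) * ((b k : ZMod ℓ) * (c i - c k)) +
            ∑ r ∈ Finset.Ioc r₀ r₁, if k = i ∨ r ≤ w i k then (b k : ZMod ℓ) * (c i - c k)
              else 0 := by
        intro k
        by_cases hk : k = i
        · subst hk
          simp
        · rw [← Finset.sum_filter, Finset.sum_const]
          have h1 : (Finset.Ioc r₀ r₁).filter (fun r => k = i ∨ r ≤ w i k) =
              Finset.Ioc r₀ (w i k) := by
            ext r
            rw [Finset.mem_filter, Finset.mem_Ioc, Finset.mem_Ioc]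
            have h2 := hr₁ i k
            constructor
            · rintro ⟨⟨h3, h4⟩, h5 | h5⟩
              · exact absurd h5 hk
              · exact ⟨h3, h5⟩
            · rintro ⟨h3, h4⟩
              exact ⟨⟨h3, h4.trans h2⟩, Or.inr h4⟩
          rw [h1, Int.card_Ioc, nsmul_eq_mul]
          have h2 : (((w i k - r₀).toNat : ℕ) : ZMod ℓ) = (w i k : ZMod ℓ) - r₀ := by
            have h3 : (((w i k - r₀).toNat : ℕ) : ℤ) = w i k - r₀ :=
              Int.toNat_of_nonneg (by have := hr₀ i k; omega)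
            rw [← Int.cast_natCast (R := ZMod ℓ), h3, Int.cast_sub]
          rw [h2]
          ring
      change ρ * c i + (∑ k, (b k : ZMod ℓ))⁻¹ *
        ∑ k, (b k : ZMod ℓ) * (w i k : ZMod ℓ) * (c i - c k) = _
      rw [Finset.sum_congr rfl fun k _ => key k, Finset.sum_add_distrib, ← Finset.mul_sum,
        Finset.sum_comm, mul_add, add_assoc, mul_assoc, ← Finset.mul_sum]
      congr 3
      refine Finset.sum_congr rfl fun r _ => ?_
      rw [sufrobS, Finset.sum_filter]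
    rw [hdec]
    have hs : ∀ (t : ZMod ℓ) (Y : Module.End (ZMod ℓ) (Fin m → ZMod ℓ)), Y ^ ℓ = Y →
        (t • Y) ^ ℓ = t • Y := by
      intro t Y hY
      rw [smul_pow, hY, ZMod.pow_card]
    have hN := sufrob_powcard hw b hball
    have hcomm := sufrob_comm (ℓ := ℓ) hw b
    have c1 : Commute (ρ • (1 : Module.End (ZMod ℓ) (Fin m → ZMod ℓ)))
        (((∑ k, (b k : ZMod ℓ))⁻¹ * r₀) • sufrobN ℓ b w r₀) := (Commute.one_left _).smul_left _
    have c2 : Commute (ρ • (1 : Module.End (ZMod ℓ) (Fin m → ZMod ℓ)) +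
        ((∑ k, (b k : ZMod ℓ))⁻¹ * r₀) • sufrobN ℓ b w r₀)
        (∑ r ∈ Finset.Ioc r₀ r₁, (∑ k, (b k : ZMod ℓ))⁻¹ • sufrobN ℓ b w r) := by
      refine Commute.add_left ?_ ?_
      · exact (Commute.one_left _).smul_left _
      · refine Commute.sum_right _ _ _ fun r _ => ?_
        exact ((hcomm r₀ r).smul_left _).smul_right _
    rw [add_pow_char_of_commute ℓ c2, add_pow_char_of_commute ℓ c1, hs _ _ (one_pow _),
      hs _ _ (hN r₀), sufrob_sum ℓ _ _ (fun r _ => hs _ _ (hN r))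
        (fun r r' => ((hcomm r r').smul_left _).smul_right _)]

end MP72e2e6
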