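import Pool.Agent.Lib.MP_72e2e6_nt.SuStmt

/-!
# MP_72e2e6_nt: the order of the torsion group modulo powers (SuIdx)
-/

namespace MP72e2e6

open Polynomial IsDedekindDomain WithZero

universe u

section

theorem suidx_card (ℓ m : ℕ) [Fact ℓ.Prime] (b : Fin m → ZMod ℓ) (hb : ∑ k, b k ≠ 0) :
    Nat.card {c : Fin m → ZMod ℓ // ∑ i, b i * c i = 0} = ℓ ^ (m - 1) := by
  classical
  let f : (Fin m → ZMod ℓ) →ₗ[ZMod ℓ] ZMod ℓ := ∑ i, b i • LinearMap.proj i
  have hf : ∀ c, f c = ∑ i, b i * c i := by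
    intro c
    simp only [f, LinearMap.sum_apply, LinearMap.smul_apply, LinearMap.proj_apply, smul_eq_mul]
  have hsurj : Function.Surjective f := by
    intro y
    refine ⟨fun _ => (∑ k, b k)⁻¹ * y, ?_⟩
    rw [hf, ← Finset.sum_mul, ← mul_assoc, mul_inv_cancel₀ hb, one_mul]
  have h1 := LinearMap.finrank_range_add_finrank_ker f
  rw [LinearMap.range_eq_top.2 hsurj, finrank_top, Module.finrank_self, Module.finrank_fin_fun]
    at h1
  have h2 : Module.finrank (ZMod ℓ) (LinearMap.ker f) = m - 1 := by omega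
  have h3 : Nat.card (LinearMap.ker f) = ℓ ^ (m - 1) := by
    rw [Module.natCard_eq_pow_finrank (K := ZMod ℓ), h2, Nat.card_zmod]
  rw [← h3]
  refine Nat.card_congr (Equiv.subtypeEquivRight fun c => ?_)
  rw [LinearMap.mem_ker, hf]

variable {F : Type u} [Field F]

/-- The valuation of `tal`. -/
theorem suidx_tal {ℓ m : ℕ} [Fact ℓ.Prime] (E : F[X]) (hE : E ≠ 0) (a : Fin m → F[X])
    (b : Fin m → ℕ) (hb : ∑ k, (b k : ZMod ℓ) ≠ 0) (P : F[X])
    (hP : Irreducible P)
    (hPa : ∀ i j, i ≠ j → ¬ P ∣ a i - a j) (v : HeightOneSpectrum F[X])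
    (hv : v.asIdeal = Ideal.span {P}) (c : Fin m → ZMod ℓ)
    (hc : ∑ i, (b i : ZMod ℓ) * c i = 0) (i : Fin m) :
    ∃ n : ℕ, v.valuation (RatFunc F) (algebraMap F[X] (RatFunc F) (tal b E a c i)) =
      WithZero.exp (-((multiplicity P E * n : ℕ) : ℤ)) ∧ (n : ZMod ℓ) = c i := by
  have hvE : v.valuation (RatFunc F) (algebraMap F[X] (RatFunc F) E) =
      WithZero.exp (-((multiplicity P E : ℕ) : ℤ)) := by
    have hfin : FiniteMultiplicity P E := FiniteMultiplicity.of_not_isUnit hP.not_isUnit hE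
    obtain ⟨E', hE', hPE'⟩ := hfin.exists_eq_pow_mul_and_not_dvd
    have h5 : v.valuation (RatFunc F) (algebraMap F[X] (RatFunc F) E') = 1 := by
      rw [HeightOneSpectrum.valuation_eq_one_iff_notMem, hv, Ideal.mem_span_singleton]
      exact hPE'
    conv_lhs => rw [hE']
    rw [map_mul, map_mul, h5, mul_one, map_pow, map_pow, HeightOneSpectrum.valuation_of_algebraMap,
      HeightOneSpectrum.intValuation_singleton v hP.ne_zero hv, ← WithZero.exp_nsmul]
    congr 1
    simp
  set nn : Fin m → ℕ := fun k =>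
    ((b k : ZMod ℓ) * (c i - c k) * (∑ k, (b k : ZMod ℓ))⁻¹).val with hnn
  have h1 : ∀ k, v.valuation (RatFunc F) (algebraMap F[X] (RatFunc F)
      ((E * (a i - a k)) ^ nn k)) = WithZero.exp (-((multiplicity P E * nn k : ℕ) : ℤ)) := by
    intro k
    by_cases hk : i = k
    · subst hk
      have h2 : nn i = 0 := by
        simp only [hnn, sub_self, mul_zero, zero_mul, ZMod.val_zero]
      rw [h2, pow_zero, map_one, map_one, mul_zero]
      simp
    · have h2 : v.valuation (RatFunc F) (algebraMap F[X] (RatFunc F) (a i - a k)) = 1 := by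
        rw [HeightOneSpectrum.valuation_eq_one_iff_notMem, hv, Ideal.mem_span_singleton]
        exact hPa i k hk
      rw [map_pow, map_pow, map_mul, map_mul, h2, mul_one, hvE, ← WithZero.exp_nsmul]
      congr 1
      rw [nsmul_eq_mul]
      push_cast
      ring
  refine ⟨∑ k, nn k, ?_, ?_⟩
  · rw [tal, map_prod, map_prod]
    rw [Finset.prod_congr rfl fun k _ => h1 k]
    have h2 : ∀ s : Finset (Fin m), ∏ k ∈ s, WithZero.exp (-((multiplicity P E * nn k : ℕ) : ℤ)) =
        WithZero.exp (-((multiplicity P E * ∑ k ∈ s, nn k : ℕ) : ℤ)) := by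
      intro s
      induction s using Finset.induction_on with
      | empty => simp
      | insert k s hk ih =>
        rw [Finset.prod_insert hk, ih, Finset.sum_insert hk, ← WithZero.exp_add]
        congr 1
        push_cast
        ring
    exact h2 Finset.univ
  · rw [Nat.cast_sum]
    have h2 : ∀ k, ((nn k : ℕ) : ZMod ℓ) =
        (b k : ZMod ℓ) * (c i - c k) * (∑ k, (b k : ZMod ℓ))⁻¹ := fun k =>
      ZMod.natCast_zmod_val _
    rw [Finset.sum_congr rfl fun k _ => h2 k, ← Finset.sum_mul]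
    have h3 : ∑ k, (b k : ZMod ℓ) * (c i - c k) = (∑ k, (b k : ZMod ℓ)) * c i := by
      simp only [mul_sub, Finset.sum_sub_distrib, hc, sub_zero, Finset.sum_mul]
    rw [h3, mul_comm, ← mul_assoc, inv_mul_cancel₀ hb, one_mul]

theorem suidx_tal_zero {ℓ m : ℕ} (b : Fin m → ℕ) (E : F[X]) (a : Fin m → F[X]) (i : Fin m) :
    tal (ℓ := ℓ) b E a 0 i = 1 := by
  simp [tal]

end

theorem tSuIdx (hTor : StmtSuTor.{u}) : StmtSuIdx.{u} := by
  classical
  intro F _ _ ℓ hℓ hℓ2 m hm E hE a ha b hb P hPm hP hPE hPa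
  obtain ⟨hT1, hT2⟩ := hTor F ℓ hℓ hℓ2 m E hE a ha b hb
  have : Fact ℓ.Prime := ⟨hℓ⟩
  have hb' : ∑ k, (b k : ZMod ℓ) ≠ 0 := by
    intro h
    apply hb
    rw [← ZMod.natCast_eq_zero_iff, Nat.cast_sum]
    exact h
  set e : ZMod ℓ := ((multiplicity P E : ℕ) : ZMod ℓ) with he
  have he0 : e ≠ 0 := by
    intro h
    rw [he, ZMod.natCast_eq_zero_iff] at h
    exact hPE h
  let v : HeightOneSpectrum F[X] :=
    ⟨Ideal.span {P}, (Ideal.span_singleton_prime hP.ne_zero).2 hP.prime, by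
      rw [Ne, Ideal.span_singleton_eq_bot]; exact hP.ne_zero⟩
  have hv : v.asIdeal = Ideal.span {P} := rfl
  let Φ : (Fin m → (RatFunc F)ˣ) →* Multiplicative (Fin m → ZMod ℓ) :=
    logHomJ (RatFunc F) ℓ m (fun _ : Fin m => v.valuation (RatFunc F)) id
  have hΦ : ∀ (t : Fin m → (RatFunc F)ˣ) (i : Fin m), (Φ t).toAdd i =
      ((WithZero.log (v.valuation (RatFunc F) ((t i : (RatFunc F)ˣ) : (RatFunc F))) : ℤ) : ZMod ℓ) := fun _ _ => rfl
  have hval : ∀ (c : Fin m → ZMod ℓ) (_ : ∑ i, (b i : ZMod ℓ) * c i = 0)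
      (t : Fin m → (RatFunc F)ˣ),
      (∀ i, ∃ z : (RatFunc F), (t i : (RatFunc F)) =
        algebraMap F[X] (RatFunc F) (tal b E a c i) * z ^ ℓ) →
      (Φ t).toAdd = fun i => -(e * c i) := by
    intro c hc0 t h
    funext i
    obtain ⟨z, hz⟩ := h i
    have hz0 : z ≠ 0 := by
      rintro rfl
      rw [zero_pow hℓ.ne_zero, mul_zero] at hz
      exact (t i).ne_zero hz
    have hvz : v.valuation (RatFunc F) z ≠ 0 := (Valuation.ne_zero_iff _).2 hz0
    obtain ⟨n, hn1, hn2⟩ := suidx_tal E hE a b hb' P hP hPa v hv c hc0 i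
    rw [hΦ, hz, map_mul, map_pow, hn1,
      WithZero.log_mul WithZero.exp_ne_zero (pow_ne_zero _ hvz), WithZero.log_exp,
      WithZero.log_pow, Int.cast_add, nsmul_eq_mul, Int.cast_mul, Int.cast_natCast,
      ZMod.natCast_self, zero_mul, add_zero, Int.cast_neg, Int.cast_natCast, Nat.cast_mul, hn2]
  set T := torsionGroup ℓ (pts E a) b with hT
  let Ψ := Φ.comp T.subtype
  have hker : Ψ.ker = (powGroup ℓ (RatFunc F) m).subgroupOf T := by
    ext t
    rw [MonoidHom.mem_ker, Subgroup.mem_subgroupOf]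
    constructor
    · intro h
      obtain ⟨c, hc0, hc⟩ := hT1 t.1 t.2
      have h1 := hval c hc0 t.1 hc
      have h2 : c = 0 := by
        have h3 : Φ t.1 = 1 := h
        rw [h3] at h1
        funext i
        have h4 := congrFun h1 i
        have h5 : e * c i = 0 := neg_eq_zero.1 h4.symm
        exact (mul_eq_zero.1 h5).resolve_left he0
      subst h2
      choose z hz using hc
      have hz0 : ∀ i, z i ≠ 0 := by
        intro i h4
        have h5 := hz i
        rw [h4, zero_pow hℓ.ne_zero, mul_zero] at h5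
        exact (t.1 i).ne_zero h5
      refine ⟨fun i => Units.mk0 (z i) (hz0 i), ?_⟩
      funext i
      apply Units.ext
      rw [powMonoidHom_apply, Pi.pow_apply, Units.val_pow_eq_pow_val, Units.val_mk0, hz i,
        suidx_tal_zero, map_one, one_mul]
    · intro h
      exact powGroup_le_ker_logHomJ _ _ h
  have hne : ∀ (c : Fin m → ZMod ℓ) (_ : ∑ i, (b i : ZMod ℓ) * c i = 0) (i : Fin m),
      algebraMap F[X] (RatFunc F) (tal b E a c i) ≠ 0 := by
    intro c hc0 i h
    obtain ⟨n, hn1, -⟩ := suidx_tal E hE a b hb' P hP hPa v hv c hc0 i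
    rw [h, map_zero] at hn1
    exact WithZero.exp_ne_zero hn1.symm
  have hrange : ∀ x : Multiplicative (Fin m → ZMod ℓ),
      x ∈ Ψ.range ↔ ∑ i, (b i : ZMod ℓ) * x.toAdd i = 0 := by
    intro x
    constructor
    · rintro ⟨t, rfl⟩
      obtain ⟨c, hc0, hc⟩ := hT1 t.1 t.2
      have h1 : (Ψ t).toAdd = fun i => -(e * c i) := hval c hc0 t.1 hc
      rw [h1]
      have h2 : ∀ i, (b i : ZMod ℓ) * -(e * c i) = -e * ((b i : ZMod ℓ) * c i) := fun i => by ring
      simp only [h2]
      rw [← Finset.mul_sum, hc0, mul_zero]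
    · intro hx
      set c : Fin m → ZMod ℓ := fun i => -(e⁻¹ * x.toAdd i) with hcdef
      have hc0 : ∑ i, (b i : ZMod ℓ) * c i = 0 := by
        have h2 : ∀ i, (b i : ZMod ℓ) * c i = -e⁻¹ * ((b i : ZMod ℓ) * x.toAdd i) := by
          intro i
          simp only [hcdef]
          ring
        simp only [h2]
        rw [← Finset.mul_sum, hx, mul_zero]
      let t : Fin m → (RatFunc F)ˣ := fun i => Units.mk0 _ (hne c hc0 i)
      have ht : ∀ i, ∃ z : (RatFunc F), (t i : (RatFunc F)) =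
          algebraMap F[X] (RatFunc F) (tal b E a c i) * z ^ ℓ :=
        fun i => ⟨1, by rw [one_pow, mul_one]; rfl⟩
      refine ⟨⟨t, hT2 c hc0 t ht⟩, ?_⟩
      apply Multiplicative.toAdd.injective
      refine (hval c hc0 t ht).trans ?_
      funext i
      simp only [hcdef]
      rw [mul_neg, neg_neg, ← mul_assoc, mul_inv_cancel₀ he0, one_mul]
  rw [Subgroup.relIndex, ← hker, Subgroup.index_ker, ← suidx_card ℓ m (fun k => (b k : ZMod ℓ)) hb']
  exact Nat.card_congr (Equiv.subtypeEquiv Multiplicative.toAdd fun x => hrange x)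

end MP72e2e6
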