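import Pool.Agent.Lib.MP_72e2e6_nt.SuStmt

/-!
# MP_72e2e6_nt: injectivity of the operators (`StmtSuInj`)
-/

namespace MP72e2e6

open Polynomial IsDedekindDomain

section

variable {m : ℕ}

/-- the class of `x` at level `r` -/
def suinj_S (w : Fin m → Fin m → ℤ) (r : ℤ) (x : Fin m) : Finset (Fin m) :=
  Finset.univ.filter fun k => k = x ∨ r ≤ w x k

theorem suinj_mem {w : Fin m → Fin m → ℤ} {r : ℤ} {x k : Fin m} :
    k ∈ suinj_S w r x ↔ k = x ∨ r ≤ w x k := by
  simp [suinj_S]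

theorem suinj_bound (w : Fin m → Fin m → ℤ) : ∃ M : ℤ, ∀ i k, -M ≤ w i k ∧ w i k ≤ M := by
  refine ⟨∑ i, ∑ k, |w i k|, fun i k => ?_⟩
  have h : |w i k| ≤ ∑ i, ∑ k, |w i k| := by
    refine le_trans ?_ (Finset.single_le_sum (f := fun i => ∑ k, |w i k|)
      (fun j _ => Finset.sum_nonneg fun _ _ => abs_nonneg _) (Finset.mem_univ i))
    exact Finset.single_le_sum (f := fun k => |w i k|) (fun _ _ => abs_nonneg _)
      (Finset.mem_univ k)
  exact abs_le.1 h

/-- `w x k` as the number of levels above it -/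
theorem suinj_count {a r₀ r : ℤ} (h1 : r₀ ≤ a) (h2 : a ≤ r) :
    a = r - ((Finset.Ioc r₀ r).filter fun t => a < t).card := by
  have h : (Finset.Ioc r₀ r).filter (fun t => a < t) = Finset.Ioc a r := by
    ext t
    simp only [Finset.mem_filter, Finset.mem_Ioc]
    constructor
    · rintro ⟨⟨_, h3⟩, h4⟩
      exact ⟨h4, h3⟩
    · rintro ⟨h3, h4⟩
      exact ⟨⟨by omega, h4⟩, h3⟩
  rw [h, Int.card_Ioc]
  omega

end

theorem tSuInj : StmtSuInj := by
  intro ℓ hp m b w hw e hT c hc hs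
  by_contra hne
  rw [not_forall] at hne
  obtain ⟨x₀, hx₀⟩ := hne
  have cast_ne : ∀ s : Finset (Fin m), ¬ ℓ ∣ ∑ k ∈ s, b k → (∑ k ∈ s, (b k : ZMod ℓ)) ≠ 0 := by
    intro s h1 h2
    apply h1
    rw [← ZMod.natCast_eq_zero_iff]
    push_cast
    exact h2
  have hB : (∑ k, (b k : ZMod ℓ)) ≠ 0 :=
    cast_ne _ (hT.ball Finset.univ x₀ (Finset.mem_univ _)
      (fun i _ k hk => absurd (Finset.mem_univ k) hk))
  have hb₀ : (b x₀ : ZMod ℓ) ≠ 0 := by
    have h1 := cast_ne _ (hT.ball {x₀} x₀ (Finset.mem_singleton_self _)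
      (fun i hi k _ hix => absurd (Finset.mem_singleton.1 hi) hix))
    rwa [Finset.sum_singleton] at h1
  obtain ⟨M, hM⟩ := suinj_bound w
  -- the first level with a class of nonzero weighted sum
  obtain ⟨R, ⟨x, hx⟩, hR⟩ := Int.exists_least_of_bdd
    (P := fun r => ∃ x, ∑ k ∈ suinj_S w r x, (b k : ZMod ℓ) * c k ≠ 0)
    ⟨-M, fun r hr => by
      obtain ⟨x, hx⟩ := hr
      by_contra hlt
      apply hx
      have h1 : suinj_S w r x = Finset.univ := by
        ext k
        rw [suinj_mem]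
        exact ⟨fun _ => Finset.mem_univ _, fun _ => Or.inr (by have := (hM x k).1; omega)⟩
      rw [h1]
      exact hc⟩
    ⟨M + 1, x₀, by
      have h1 : suinj_S w (M + 1) x₀ = {x₀} := by
        ext k
        rw [suinj_mem, Finset.mem_singleton]
        exact ⟨fun h => h.elim id (fun h2 => by have := (hM x₀ k).2; omega), Or.inl⟩
      rw [h1, Finset.sum_singleton]
      exact mul_ne_zero hb₀ hx₀⟩
  have hlow : ∀ t < R, ∀ y, ∑ k ∈ suinj_S w t y, (b k : ZMod ℓ) * c k = 0 := by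
    intro t ht y
    by_contra h
    have := hR t ⟨y, h⟩
    omega
  generalize hs' : suinj_S w R x = s' at hx
  have mem' : ∀ k, k ∈ s' ↔ k = x ∨ R ≤ w x k := by
    intro k
    rw [← hs', suinj_mem]
  have hxs : x ∈ s' := (mem' x).2 (Or.inl rfl)
  have hout : ∀ k, k ∉ s' → k ≠ x ∧ w x k < R := by
    intro k hk
    rw [mem', not_or, not_le] at hk
    exact hk
  have heq : ∀ y ∈ s', ∀ k ∉ s', w y k = w x k := by
    intro y hy k hk
    obtain ⟨hkx, hkR⟩ := hout k hk
    rcases (mem' y).1 hy with rfl | hyR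
    · rfl
    · by_cases hyx : y = x
      · rw [hyx]
      · have hyk : y ≠ k := fun h => hk (h ▸ hy)
        have h1 := hw.tri x y k (Ne.symm hyx) hyk (Ne.symm hkx)
        have h2 := hw.tri y x k hyx (Ne.symm hkx) hyk
        have h3 := hw.symm x y
        omega
  generalize hS : ∑ k ∈ s', (b k : ZMod ℓ) * c k = S at hx
  -- equations
  have h0 : ∀ y, (e : ZMod ℓ) * (∑ k, (b k : ZMod ℓ)) * c y +
      ∑ k, (b k : ZMod ℓ) * (w y k : ZMod ℓ) * (c y - c k) = 0 := by
    intro y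
    have h1 := hs y
    rw [sg] at h1
    have h2 := congrArg (fun z => (∑ k, (b k : ZMod ℓ)) * z) h1
    simp only [mul_zero, mul_add] at h2
    rw [← mul_assoc (∑ k, (b k : ZMod ℓ)) (∑ k, (b k : ZMod ℓ))⁻¹, mul_inv_cancel₀ hB,
      one_mul] at h2
    rw [← h2]
    ring
  have hA : ∑ y ∈ s', ∑ k ∈ s', (b y : ZMod ℓ) * ((b k : ZMod ℓ) * (w y k : ZMod ℓ) *
      (c y - c k)) = 0 := by
    have h1 : ∀ y k, (b y : ZMod ℓ) * ((b k : ZMod ℓ) * (w y k : ZMod ℓ) * (c y - c k)) =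
        (b y : ZMod ℓ) * (b k : ZMod ℓ) * (w y k : ZMod ℓ) * c y -
        (b y : ZMod ℓ) * (b k : ZMod ℓ) * (w y k : ZMod ℓ) * c k := fun y k => by ring
    simp only [h1, Finset.sum_sub_distrib]
    rw [sub_eq_zero]
    conv_rhs => rw [Finset.sum_comm]
    refine Finset.sum_congr rfl fun y _ => Finset.sum_congr rfl fun k _ => ?_
    rw [hw.symm y k]
    ring
  have hC : ∑ y ∈ s', ∑ k ∈ s'ᶜ, (b y : ZMod ℓ) * ((b k : ZMod ℓ) * (w y k : ZMod ℓ) *
      (c y - c k)) =
      S * (∑ k ∈ s'ᶜ, (b k : ZMod ℓ) * (w x k : ZMod ℓ)) -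
        (∑ k ∈ s', (b k : ZMod ℓ)) * ∑ k ∈ s'ᶜ, (b k : ZMod ℓ) * (w x k : ZMod ℓ) * c k := by
    rw [Finset.sum_comm, Finset.mul_sum, Finset.mul_sum, ← Finset.sum_sub_distrib]
    refine Finset.sum_congr rfl fun k hk => ?_
    have hk' : k ∉ s' := Finset.mem_compl.1 hk
    have h1 : ∀ y ∈ s', (b y : ZMod ℓ) * ((b k : ZMod ℓ) * (w y k : ZMod ℓ) * (c y - c k)) =
        (b y : ZMod ℓ) * c y * ((b k : ZMod ℓ) * (w x k : ZMod ℓ)) -
        (b y : ZMod ℓ) * ((b k : ZMod ℓ) * (w x k : ZMod ℓ) * c k) := by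
      intro y hy
      rw [heq y hy k hk']
      ring
    rw [Finset.sum_congr rfl h1, Finset.sum_sub_distrib, ← Finset.sum_mul, ← Finset.sum_mul, hS]
  have hD : ∑ k ∈ s'ᶜ, (b k : ZMod ℓ) * (w x k : ZMod ℓ) * c k = -((R - 1 : ℤ) : ZMod ℓ) * S := by
    have h1 : ∀ k ∈ s'ᶜ, (b k : ZMod ℓ) * (w x k : ZMod ℓ) * c k =
        ((R - 1 : ℤ) : ZMod ℓ) * ((b k : ZMod ℓ) * c k) -
        ∑ t ∈ Finset.Ioc (min (-M) (R - 1)) (R - 1),
          if w x k < t then (b k : ZMod ℓ) * c k else 0 := by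
      intro k hk
      have hk' := hout k (Finset.mem_compl.1 hk)
      have h2 := suinj_count (a := w x k) (r₀ := min (-M) (R - 1)) (r := R - 1)
        ((min_le_left _ _).trans (hM x k).1) (by omega)
      rw [← Finset.sum_filter, Finset.sum_const, nsmul_eq_mul]
      have h3 : (w x k : ZMod ℓ) = ((R - 1 : ℤ) : ZMod ℓ) -
          (((Finset.Ioc (min (-M) (R - 1)) (R - 1)).filter fun t => w x k < t).card : ZMod ℓ) := by
        have h4 := congrArg (fun z : ℤ => (z : ZMod ℓ)) h2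
        simp only [Int.cast_sub, Int.cast_natCast] at h4
        rw [h4]
        push_cast
        rfl
      rw [h3]
      ring
    rw [Finset.sum_congr rfl h1, Finset.sum_sub_distrib, ← Finset.mul_sum, Finset.sum_comm]
    have h5 : ∀ t ∈ Finset.Ioc (min (-M) (R - 1)) (R - 1),
        ∑ k ∈ s'ᶜ, (if w x k < t then (b k : ZMod ℓ) * c k else 0) = 0 := by
      intro t ht
      rw [Finset.mem_Ioc] at ht
      have h6 := hlow t (by omega) x
      have h7 := Finset.sum_compl_add_sum (suinj_S w t x) (fun k => (b k : ZMod ℓ) * c k)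
      rw [h6, add_zero, hc] at h7
      rw [← Finset.sum_filter, ← h7]
      apply Finset.sum_congr _ (fun _ _ => rfl)
      ext k
      rw [Finset.mem_filter, Finset.mem_compl, Finset.mem_compl, mem', suinj_mem]
      constructor
      · rintro ⟨h8, h9⟩ h10
        rcases h10 with h10 | h10
        · exact h8 (Or.inl h10)
        · omega
      · intro h8
        rw [not_or, not_le] at h8
        refine ⟨?_, h8.2⟩
        rintro (h9 | h9)
        · exact h8.1 h9
        · omega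
    rw [Finset.sum_eq_zero h5, sub_zero]
    have h8 := Finset.sum_compl_add_sum s' (fun k => (b k : ZMod ℓ) * c k)
    rw [hc, hS] at h8
    rw [eq_neg_of_add_eq_zero_left h8]
    ring
  have hmain : S * ((e : ZMod ℓ) * (∑ k, (b k : ZMod ℓ)) +
      (∑ k ∈ s'ᶜ, (b k : ZMod ℓ) * (w x k : ZMod ℓ)) +
      (∑ k ∈ s', (b k : ZMod ℓ)) * ((R - 1 : ℤ) : ZMod ℓ)) = 0 := by
    have h1 : ∑ y ∈ s', (b y : ZMod ℓ) * ((e : ZMod ℓ) * (∑ k, (b k : ZMod ℓ)) * c y +
        ∑ k, (b k : ZMod ℓ) * (w y k : ZMod ℓ) * (c y - c k)) = 0 :=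
      Finset.sum_eq_zero fun y _ => by rw [h0 y, mul_zero]
    have h2 : ∀ y, (b y : ZMod ℓ) * ((e : ZMod ℓ) * (∑ k, (b k : ZMod ℓ)) * c y +
        ∑ k, (b k : ZMod ℓ) * (w y k : ZMod ℓ) * (c y - c k)) =
        (e : ZMod ℓ) * (∑ k, (b k : ZMod ℓ)) * ((b y : ZMod ℓ) * c y) +
        (∑ k ∈ s'ᶜ, (b y : ZMod ℓ) * ((b k : ZMod ℓ) * (w y k : ZMod ℓ) * (c y - c k)) +
        ∑ k ∈ s', (b y : ZMod ℓ) * ((b k : ZMod ℓ) * (w y k : ZMod ℓ) * (c y - c k))) := by
      intro y
      rw [Finset.sum_compl_add_sum, ← Finset.mul_sum]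
      ring
    simp only [h2] at h1
    rw [Finset.sum_add_distrib, Finset.sum_add_distrib, hA, hC, hD, ← Finset.mul_sum, hS] at h1
    rw [← h1]
    ring
  have hzero := (mul_eq_zero.1 hmain).resolve_left hx
  -- an index at the boundary
  obtain ⟨i, hi1, hi2⟩ : ∃ i, i ∉ s' ∧ w x i = R - 1 := by
    by_contra hno
    have h1 : suinj_S w (R - 1) x = s' := by
      ext k
      rw [suinj_mem, mem']
      constructor
      · rintro (h2 | h2)
        · exact Or.inl h2
        · by_contra h3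
          rw [not_or, not_le] at h3
          apply hno
          refine ⟨k, ?_, by omega⟩
          rw [mem', not_or, not_le]
          exact h3
      · rintro (h2 | h2)
        · exact Or.inl h2
        · exact Or.inr (by omega)
    apply hx
    rw [← hS, ← h1]
    exact hlow (R - 1) (by omega) x
  have hix : x ≠ i := fun h => hi1 (h ▸ hxs)
  apply hT.ram x i hix
  rw [← ZMod.intCast_zmod_eq_zero_iff_dvd]
  have hlev : ((lev b w x i : ℤ) : ZMod ℓ) =
      (∑ k ∈ s'ᶜ, (b k : ZMod ℓ) * (w x k : ZMod ℓ)) +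
      (∑ k ∈ s', (b k : ZMod ℓ)) * ((R - 1 : ℤ) : ZMod ℓ) := by
    rw [lev, Int.cast_sum, ← Finset.sum_compl_add_sum s', Finset.sum_mul]
    congr 1
    · refine Finset.sum_congr rfl fun k hk => ?_
      have hk' := hout k (Finset.mem_compl.1 hk)
      rw [if_neg hk'.1, hi2, min_eq_left (by omega)]
      push_cast
      rfl
    · refine Finset.sum_congr rfl fun k hk => ?_
      rw [hi2]
      rcases (mem' k).1 hk with h1 | h1
      · rw [if_pos h1]
        push_cast
        rfl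
      · split_ifs with h2
        · push_cast
          rfl
        · rw [min_eq_right (by omega)]
          push_cast
          rfl
  rw [Int.cast_add, Int.cast_mul, hlev]
  push_cast at hzero ⊢
  rw [← hzero]
  ring

end MP72e2e6
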