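import Pool.Agent.Lib.MP_72e2e6_nt.SuStmt

/-!
# MP_72e2e6_nt: module SuLg (existence of a logarithm modulo a prime on a finite field)
-/

namespace MP72e2e6

open Polynomial

universe u

theorem tSuLg : StmtSuLg.{u} := by
  classical
  intro F _ _ ℓ hℓ hd
  have hne : NeZero ℓ := ⟨hℓ.ne_zero⟩
  obtain ⟨g, hg⟩ := IsCyclic.exists_monoid_generator (α := Fˣ)
  have hord : orderOf g = Nat.card F - 1 := by
    rw [← Nat.card_units]
    exact orderOf_eq_card_of_forall_mem_powers hg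
  have hex : ∀ x : F, x ≠ 0 → ∃ n : ℕ, ((g ^ n : Fˣ) : F) = x := by
    intro x hx
    obtain ⟨n, hn⟩ := hg (Units.mk0 x hx)
    refine ⟨n, ?_⟩
    have h := congrArg (fun u : Fˣ => (u : F)) hn
    simpa using h
  choose! n hn using hex
  have key : ∀ a b : ℕ, ((g ^ a : Fˣ) : F) = ((g ^ b : Fˣ) : F) → (a : ZMod ℓ) = b := by
    intro a b hab
    have h1 : g ^ a = g ^ b := Units.ext hab
    rw [pow_eq_pow_iff_modEq, hord] at h1
    exact (ZMod.natCast_eq_natCast_iff a b ℓ).2 (h1.of_dvd hd)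
  refine ⟨fun x => (n x : ZMod ℓ), ⟨?_, ?_, ?_⟩⟩
  · intro x y hx hy
    show ((n (x * y) : ℕ) : ZMod ℓ) = (n x : ZMod ℓ) + (n y : ZMod ℓ)
    rw [← Nat.cast_add]
    apply key
    rw [hn _ (mul_ne_zero hx hy), pow_add, Units.val_mul, hn _ hx, hn _ hy]
  · intro x hx
    show ((n x : ℕ) : ZMod ℓ) = 0 ↔ _
    constructor
    · intro h
      obtain ⟨k, hk⟩ := (ZMod.natCast_eq_zero_iff _ _).1 h
      refine ⟨((g ^ k : Fˣ) : F), ?_⟩
      rw [← Units.val_pow_eq_pow_val, ← pow_mul, mul_comm, ← hk, hn _ hx]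
    · rintro ⟨z, hz⟩
      have hz0 : z ≠ 0 := by
        rintro rfl
        rw [zero_pow hℓ.ne_zero] at hz
        exact hx hz
      have h1 : ((n x : ℕ) : ZMod ℓ) = ((n z * ℓ : ℕ) : ZMod ℓ) := by
        apply key
        rw [hn _ hx, pow_mul, Units.val_pow_eq_pow_val, hn _ hz0, ← hz]
      rw [h1, Nat.cast_mul, ZMod.natCast_self, mul_zero]
  · intro t
    refine ⟨((g ^ t.val : Fˣ) : F), Units.ne_zero _, ?_⟩
    have h1 : ((n ((g ^ t.val : Fˣ) : F) : ℕ) : ZMod ℓ) = ((t.val : ℕ) : ZMod ℓ) := by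
      apply key
      rw [hn _ (Units.ne_zero _)]
    show ((n ((g ^ t.val : Fˣ) : F) : ℕ) : ZMod ℓ) = t
    rw [h1, ZMod.natCast_zmod_val]

end MP72e2e6
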