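import Pool.Agent.Lib.MP_72e2e6_nt.SuStmt

/-!
# MP_72e2e6_nt: module SuLocV (the local lemma for Valued fields)
-/

namespace MP72e2e6

universe u

open scoped Valued in
theorem tSuLocV (hLoc : StmtSuLoc.{u}) : StmtSuLocV.{u} := by
  classical
  intro M _ _ _ p N _ _ ℓ hℓ hℓ2 hℓp hN hnt hres m hm A hA b hball hram
  obtain ⟨hrk⟩ := nonempty_rankOne hnt
  let : NontriviallyNormedField M :=
    Valued.toNontriviallyNormedField M (WithZero (Multiplicative ℤ))
  have hv : ∀ x y : M, ‖x‖ ≤ ‖y‖ ↔ Valued.v x ≤ Valued.v y :=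
    fun x y => Valued.toNormedField.norm_le_iff
  have hlt : ∀ x : M, ‖x‖ < 1 ↔ Valued.v x < 1 := by
    intro x
    have h2 := hv 1 x
    rw [norm_one, map_one] at h2
    rw [← not_le, h2, not_le]
  have hle : ∀ x : M, ‖x‖ ≤ 1 ↔ Valued.v x ≤ 1 := by
    intro x
    have h2 := hv x 1
    rwa [norm_one, map_one] at h2
  let F' := fixedSubfield M p N
  have hfin : Finite F' := finite_fixedSubfield hN
  have hcF : CharP F' p :=
    (RingHom.charP_iff (algebraMap F' M) (algebraMap F' M).injective p).2 inferInstance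
  refine hLoc F' M p ℓ hℓ hℓ2 hℓp (fun y hy => ?_) Valued.v hv m hm A hA b hball hram
  obtain ⟨τ, hτ, hlt'⟩ := exists_fixed_near p hnt hN y ((hle y).1 hy) (hres y ((hle y).1 hy))
  exact ⟨⟨τ, mem_fixedSubfield.2 hτ⟩, (hlt _).2 hlt'⟩

end MP72e2e6
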