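import Pool.Agent.Lib.MP_72e2e6_nt.SuStmt

/-!
# MP_72e2e6_nt: nonvanishing at `1 / q` for characters of order `ℓ`
-/

namespace MP72e2e6

open Finset
open scoped ComplexOrder

universe u

section nonv

variable {F : Type u} [Field F] [Finite F]

omit [Finite F] in
theorem sunonv_isChL {ℓ : ℕ} {φ : Polynomial F → ℂ} (h : IsChL ℓ φ) (j : ℕ) :
    IsChL ℓ (fun g => φ g ^ j) where
  one := by rw [h.one, one_pow]
  mul g k hg hk := by rw [h.mul g k hg hk, mul_pow]
  val g := by
    rcases Nat.eq_zero_or_pos j with rfl | hj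
    · right
      simp
    · rcases h.val g with h1 | h1
      · left
        rw [h1, zero_pow hj.ne']
      · right
        rw [← pow_mul, mul_comm, pow_mul, h1, one_pow]

theorem sunonv_geom (ℓ : ℕ) (hl : ℓ.Prime) (z : ℂ) (hz : z = 0 ∨ z ^ ℓ = 1) :
    ∑ j ∈ range ℓ, z ^ j = if z = 0 then 1 else if z = 1 then (ℓ : ℂ) else 0 := by
  by_cases h0 : z = 0
  · subst h0
    rw [if_pos rfl]
    obtain ⟨n, rfl⟩ : ∃ n, ℓ = n + 1 := ⟨ℓ - 1, by have := hl.pos; omega⟩
    rw [Finset.sum_range_succ', pow_zero, Finset.sum_eq_zero, zero_add]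
    intro j _
    exact zero_pow (Nat.succ_ne_zero j)
  · rw [if_neg h0]
    by_cases h1 : z = 1
    · subst h1
      simp
    · rw [if_neg h1, geom_sum_eq h1, hz.resolve_left h0, sub_self, zero_div]

theorem sunonv_psi_nonneg {ℓ : ℕ} (hl : ℓ.Prime) {φ : Polynomial F → ℂ} (h : IsChL ℓ φ)
    (k : ℕ) : 0 ≤ ∑ j ∈ range ℓ, psiC (fun g => φ g ^ j) k ∧
      (1 ≤ k → ℓ ∣ k → 1 ≤ ∑ j ∈ range ℓ, psiC (fun g => φ g ^ j) k) := by
  have h1 : ∑ j ∈ range ℓ, psiC (fun g => φ g ^ j) k =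
      ∑ d ∈ k.divisors, ∑ P ∈ irr F d, (d : ℂ) * ∑ j ∈ range ℓ, (φ P ^ (k / d)) ^ j := by
    simp only [psiC]
    rw [Finset.sum_comm]
    refine Finset.sum_congr rfl fun d _ => ?_
    rw [Finset.sum_comm]
    refine Finset.sum_congr rfl fun P _ => ?_
    rw [Finset.mul_sum]
    refine Finset.sum_congr rfl fun j _ => ?_
    rw [← pow_mul, ← pow_mul, mul_comm j]
  have hz : ∀ (P : Polynomial F) (n : ℕ), φ P ^ n = 0 ∨ (φ P ^ n) ^ ℓ = 1 := fun P n =>
    (sunonv_isChL h n).val P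
  have h2 : ∀ (P : Polynomial F) (n : ℕ), 0 ≤ ∑ j ∈ range ℓ, (φ P ^ n) ^ j := by
    intro P n
    rw [sunonv_geom ℓ hl _ (hz P n)]
    split_ifs
    · exact zero_le_one
    · exact Nat.cast_nonneg _
    · exact le_rfl
  have h3 : ∀ d ∈ k.divisors,
      0 ≤ ∑ P ∈ irr F d, (d : ℂ) * ∑ j ∈ range ℓ, (φ P ^ (k / d)) ^ j := fun d _ =>
    Finset.sum_nonneg fun P _ => mul_nonneg (Nat.cast_nonneg _) (h2 P _)
  rw [h1]
  refine ⟨Finset.sum_nonneg h3, fun hk hlk => ?_⟩
  have h4 : (1 : ℕ) ∈ k.divisors := Nat.one_mem_divisors.2 (by omega)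
  refine le_trans ?_ (Finset.single_le_sum h3 h4)
  have hX : (Polynomial.X : Polynomial F) ∈ irr F 1 := by
    classical
    unfold irr
    exact Finset.mem_filter.2 ⟨mem_mon.2 ⟨Polynomial.monic_X, Polynomial.natDegree_X⟩,
      Polynomial.irreducible_X⟩
  have h5 : ∀ P ∈ irr F 1, 0 ≤ ((1 : ℕ) : ℂ) * ∑ j ∈ range ℓ, (φ P ^ (k / 1)) ^ j := fun P _ =>
    mul_nonneg (Nat.cast_nonneg _) (h2 P _)
  refine le_trans ?_ (Finset.single_le_sum h5 hX)
  rw [Nat.cast_one, one_mul, Nat.div_one, sunonv_geom ℓ hl _ (hz _ _)]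
  obtain ⟨k', rfl⟩ := hlk
  rcases h.val Polynomial.X with h6 | h6
  · rw [h6, zero_pow (by omega), if_pos rfl]
  · have h7 : φ Polynomial.X ^ (ℓ * k') = 1 := by rw [pow_mul, h6, one_pow]
    rw [h7, if_neg one_ne_zero, if_pos rfl]
    exact_mod_cast hl.one_lt.le

/-- the power series of the averages -/
noncomputable def sunonvA (φ : Polynomial F → ℂ) : PowerSeries ℂ := PowerSeries.mk (avC φ)

/-- the power series of the prime power sums -/
noncomputable def sunonvP (φ : Polynomial F → ℂ) : PowerSeries ℂ := PowerSeries.mk (psiC φ)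

theorem sunonv_psi_zero (φ : Polynomial F → ℂ) : psiC φ 0 = 0 := by
  simp [psiC]

theorem sunonv_der (φ : Polynomial F → ℂ)
    (h : ∀ n : ℕ, (n : ℂ) * avC φ n = ∑ k ∈ Finset.Icc 1 n, psiC φ k * avC φ (n - k)) :
    PowerSeries.X * PowerSeries.derivative ℂ (sunonvA φ) = sunonvA φ * sunonvP φ := by
  ext n
  have h1 : PowerSeries.coeff n (PowerSeries.X * PowerSeries.derivative ℂ (sunonvA φ)) =
      (n : ℂ) * avC φ n := by
    rcases n with _ | n
    · simp
    · rw [PowerSeries.coeff_succ_X_mul, PowerSeries.coeff_derivative, sunonvA,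
        PowerSeries.coeff_mk]
      push_cast
      ring
  rw [h1, h, mul_comm (sunonvA φ), PowerSeries.coeff_mul,
    Finset.Nat.sum_antidiagonal_eq_sum_range_succ_mk]
  simp only [sunonvA, sunonvP, PowerSeries.coeff_mk]
  rw [Finset.range_eq_Ico, Finset.sum_eq_sum_Ico_succ_bot (Nat.succ_pos n), sunonv_psi_zero,
    zero_mul, zero_add]
  rfl

theorem sunonv_prod (φ : ℕ → Polynomial F → ℂ)
    (h : ∀ j, PowerSeries.X * PowerSeries.derivative ℂ (sunonvA (φ j)) =
      sunonvA (φ j) * sunonvP (φ j)) (J : ℕ) :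
    PowerSeries.X * PowerSeries.derivative ℂ (∏ j ∈ range J, sunonvA (φ j)) =
      (∏ j ∈ range J, sunonvA (φ j)) * ∑ j ∈ range J, sunonvP (φ j) := by
  induction J with
  | zero => simp
  | succ J ih =>
    rw [Finset.prod_range_succ, Finset.sum_range_succ, Derivation.leibniz, smul_eq_mul,
      smul_eq_mul, mul_add]
    linear_combination (sunonvA (φ J)) * ih + (∏ j ∈ range J, sunonvA (φ j)) * h J

theorem sunonv_av_zero {ℓ : ℕ} {φ : Polynomial F → ℂ} (h : IsChL ℓ φ) : avC φ 0 = 1 := by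
  have h1 : mon F 0 = {1} := by
    ext g
    rw [mem_mon, Finset.mem_singleton]
    constructor
    · rintro ⟨h2, h3⟩
      exact h2.natDegree_eq_zero.1 h3
    · rintro rfl
      exact ⟨Polynomial.monic_one, Polynomial.natDegree_one⟩
  rw [avC, h1, Finset.sum_singleton, h.one]

/-- the averages as a polynomial -/
noncomputable def sunonvp (φ : Polynomial F → ℂ) (N : ℕ) : Polynomial ℂ :=
  ∑ n ∈ range N, Polynomial.monomial n (avC φ n)

theorem sunonv_p (φ : Polynomial F → ℂ) (N : ℕ) (h : ∀ n, N ≤ n → avC φ n = 0) :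
    ((sunonvp φ N : Polynomial ℂ) : PowerSeries ℂ) = sunonvA φ := by
  ext n
  rw [Polynomial.coeff_coe, sunonvp, Polynomial.finsetSum_coeff, sunonvA, PowerSeries.coeff_mk]
  simp only [Polynomial.coeff_monomial]
  by_cases hn : n < N
  · rw [Finset.sum_eq_single n]
    · rw [if_pos rfl]
    · intro k _ hk
      rw [if_neg hk]
    · intro h1
      exact absurd (Finset.mem_range.2 hn) h1
  · rw [h n (not_lt.1 hn), Finset.sum_eq_zero]
    intro k hk
    rw [if_neg]
    rintro rfl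
    exact hn (Finset.mem_range.1 hk)

end nonv

/-- **SuNonv.** -/
theorem tSuNonv.{v} (hTwMon : StmtTwMon.{v}) (hSuPsi : StmtSuPsi.{v}) : StmtSuNonv.{v} := by
  intro F _ _ ℓ hl φ hφ N hN h0
  obtain ⟨hP1, -⟩ := hSuPsi F ℓ hl
  have hq : (Nat.card F : ℂ) ≠ 0 := by
    have : Nat.card F ≠ 0 := Nat.card_pos.ne'
    exact_mod_cast this
  -- the recursion
  have hder := fun j => sunonv_der (fun g => φ g ^ j) (hP1 _ (sunonv_isChL hφ j))
  have hprod := sunonv_prod (fun j g => φ g ^ j) hder ℓ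
  obtain ⟨A, hA⟩ : ∃ A : PowerSeries ℂ, A = ∏ j ∈ range ℓ, sunonvA (fun g => φ g ^ j) :=
    ⟨_, rfl⟩
  obtain ⟨γ, hγ⟩ : ∃ γ : ℕ → ℂ, γ = fun k => ∑ j ∈ range ℓ, psiC (fun g => φ g ^ j) k :=
    ⟨_, rfl⟩
  rw [← hA] at hprod
  have hγ0 : ∀ k, 0 ≤ γ k := fun k => by
    rw [hγ]
    exact (sunonv_psi_nonneg hl hφ k).1
  have hrec : ∀ n : ℕ, (n : ℂ) * PowerSeries.coeff n A =
      ∑ k ∈ Finset.range (n + 1), PowerSeries.coeff k A * γ (n - k) := by
    intro n
    have h1 : PowerSeries.coeff n (PowerSeries.X * PowerSeries.derivative ℂ A) =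
        (n : ℂ) * PowerSeries.coeff n A := by
      rcases n with _ | n
      · simp
      · rw [PowerSeries.coeff_succ_X_mul, PowerSeries.coeff_derivative]
        push_cast
        ring
    rw [← h1, hprod, PowerSeries.coeff_mul, Finset.Nat.sum_antidiagonal_eq_sum_range_succ_mk]
    refine Finset.sum_congr rfl fun k _ => ?_
    rw [map_sum, hγ]
    simp only [sunonvP, PowerSeries.coeff_mk]
  have hα0 : PowerSeries.coeff 0 A = 1 := by
    rw [PowerSeries.coeff_zero_eq_constantCoeff, hA, map_prod]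
    refine Finset.prod_eq_one fun j _ => ?_
    rw [← PowerSeries.coeff_zero_eq_constantCoeff_apply, sunonvA, PowerSeries.coeff_mk]
    exact sunonv_av_zero (sunonv_isChL hφ j)
  have hα : ∀ n, 0 ≤ PowerSeries.coeff n A := by
    intro n
    induction n using Nat.strong_induction_on with
    | _ n ih =>
      rcases Nat.eq_zero_or_pos n with rfl | hn
      · rw [hα0]
        exact zero_le_one
      · have h1 : 0 ≤ (n : ℂ) * PowerSeries.coeff n A := by
          rw [hrec, Finset.sum_range_succ, Nat.sub_self]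
          have h2 : γ 0 = 0 := by
            rw [hγ]
            exact Finset.sum_eq_zero fun j _ => sunonv_psi_zero _
          rw [h2, mul_zero, add_zero]
          exact Finset.sum_nonneg fun k hk =>
            mul_nonneg (ih k (Finset.mem_range.1 hk)) (hγ0 _)
        have h2 : PowerSeries.coeff n A =
            (((n : ℝ)⁻¹ : ℝ) : ℂ) * ((n : ℂ) * PowerSeries.coeff n A) := by
          have h3 : (n : ℂ) ≠ 0 := by exact_mod_cast hn.ne'
          push_cast
          field_simp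
        rw [h2]
        exact mul_nonneg (Complex.zero_le_real.2 (inv_nonneg.2 (Nat.cast_nonneg n))) h1
  have hpos : ∀ k' : ℕ, 1 ≤ k' → PowerSeries.coeff (ℓ * k') A ≠ 0 := by
    intro k' hk' h1
    have h2 := hrec (ℓ * k')
    rw [h1, mul_zero] at h2
    have h3 : ∀ k ∈ Finset.range (ℓ * k' + 1),
        0 ≤ PowerSeries.coeff k A * γ (ℓ * k' - k) := fun k _ => mul_nonneg (hα k) (hγ0 _)
    have h4 := Finset.single_le_sum h3 (Finset.mem_range.2 (Nat.succ_pos (ℓ * k')))
    rw [← h2, hα0, one_mul, Nat.sub_zero] at h4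
    have h5 : 1 ≤ γ (ℓ * k') := by
      rw [hγ]
      exact (sunonv_psi_nonneg hl hφ (ℓ * k')).2 (Nat.mul_pos hl.pos hk') ⟨k', rfl⟩
    exact absurd (h5.trans h4) (not_le_of_gt zero_lt_one)
  -- the product is a polynomial
  obtain ⟨n, hn⟩ : ∃ n, ℓ = n + 2 := ⟨ℓ - 2, by have := hl.two_le; omega⟩
  have hA0 : (1 - PowerSeries.C (Nat.card F : ℂ) * PowerSeries.X) *
      sunonvA (fun g : Polynomial F => φ g ^ 0) = 1 := by
    have h1 : ∀ k, avC (fun g : Polynomial F => φ g ^ 0) k = (Nat.card F : ℂ) ^ k := by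
      intro k
      simp only [avC, pow_zero, Finset.sum_const, nsmul_eq_mul, mul_one]
      rw [(hTwMon F).1 k]
      push_cast
      rfl
    ext k
    rw [sub_mul, one_mul, map_sub, mul_assoc, PowerSeries.coeff_C_mul]
    rcases k with _ | k
    · have h2 := h1 0
      simp only [pow_zero] at h2
      simp [sunonvA, h2]
    · rw [PowerSeries.coeff_succ_X_mul, sunonvA, PowerSeries.coeff_mk, PowerSeries.coeff_mk,
        h1, h1, PowerSeries.coeff_one, if_neg (Nat.succ_ne_zero k)]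
      ring
  have hroot : (sunonvp φ N).IsRoot ((Nat.card F : ℂ)⁻¹) := by
    rw [Polynomial.IsRoot, sunonvp, Polynomial.eval_finsetSum, ← h0]
    refine Finset.sum_congr rfl fun k _ => ?_
    rw [Polynomial.eval_monomial, inv_pow, div_eq_mul_inv]
  obtain ⟨r, hr⟩ := Polynomial.dvd_iff_isRoot.2 hroot
  obtain ⟨t, ht⟩ : ∃ t : Polynomial ℂ, sunonvp φ N =
      (1 - Polynomial.C (Nat.card F : ℂ) * Polynomial.X) * t := by
    refine ⟨-Polynomial.C (Nat.card F : ℂ)⁻¹ * r, ?_⟩
    have h1 : Polynomial.C (Nat.card F : ℂ) * Polynomial.C (Nat.card F : ℂ)⁻¹ = 1 := by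
      rw [← Polynomial.C_mul, mul_inv_cancel₀ hq, Polynomial.C_1]
    rw [hr]
    linear_combination (-Polynomial.X * r) * h1
  have hA1 : sunonvA (fun g : Polynomial F => φ g ^ 1) =
      (1 - PowerSeries.C (Nat.card F : ℂ) * PowerSeries.X) * (t : PowerSeries ℂ) := by
    have h1 : (fun g : Polynomial F => φ g ^ 1) = φ := funext fun g => pow_one _
    have h2 : ∀ k, N ≤ k → avC φ k = 0 := by
      have h3 := hN 1 le_rfl hl.one_lt
      rwa [h1] at h3
    rw [h1, ← sunonv_p φ N h2, ht, Polynomial.coe_mul, Polynomial.coe_sub, Polynomial.coe_one,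
      Polynomial.coe_mul, Polynomial.coe_C, Polynomial.coe_X]
  have hpoly : ∃ P : Polynomial ℂ, A = (P : PowerSeries ℂ) := by
    refine ⟨(∏ j ∈ range n, sunonvp (fun g => φ g ^ (j + 2)) N) * t, ?_⟩
    rw [hA, hn, Finset.prod_range_succ', Finset.prod_range_succ', zero_add, hA1]
    have h1 : ∀ j ∈ range n, sunonvA (fun g : Polynomial F => φ g ^ (j + 1 + 1)) =
        ((sunonvp (fun g => φ g ^ (j + 2)) N : Polynomial ℂ) : PowerSeries ℂ) := by
      intro j hj
      have h2 := Finset.mem_range.1 hj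
      exact (sunonv_p _ N (hN (j + 2) (by omega) (by omega))).symm
    rw [Finset.prod_congr rfl h1, Polynomial.coe_mul]
    have h2 : ((∏ j ∈ range n, sunonvp (fun g => φ g ^ (j + 2)) N : Polynomial ℂ) :
        PowerSeries ℂ) =
        ∏ j ∈ range n, ((sunonvp (fun g => φ g ^ (j + 2)) N : Polynomial ℂ) :
          PowerSeries ℂ) := by
      have h3 := map_prod (Polynomial.coeToPowerSeries.ringHom (R := ℂ))
        (fun j => sunonvp (fun g => φ g ^ (j + 2)) N) (range n)
      simpa only [Polynomial.coeToPowerSeries.ringHom_apply] using h3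
    rw [h2]
    linear_combination ((∏ j ∈ range n, ((sunonvp (fun g => φ g ^ (j + 2)) N : Polynomial ℂ) :
      PowerSeries ℂ)) * (t : PowerSeries ℂ)) * hA0
  obtain ⟨P, hP⟩ := hpoly
  refine hpos (P.natDegree + 1) (Nat.succ_pos _) ?_
  rw [hP, Polynomial.coeff_coe]
  apply Polynomial.coeff_eq_zero_of_natDegree_lt
  have h1 := hl.one_lt
  nlinarith

end MP72e2e6
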