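import Pool.Agent.Lib.MP_72e2e6_nt.SuStmt
import Pool.Agent.Lib.MP_72e2e6_nt.TwSqI

/-!
# MP_72e2e6_nt: powers in the completion at infinity (SuPwI)
-/

namespace MP72e2e6

open Polynomial IsDedekindDomain WithZero

universe u

open Classical in
theorem tSuPwI : StmtSuPwI.{u} := by
  intro F _ _ ℓ hℓ χ hχ h h0 z hz
  have hinj : Function.Injective (algebraMap F[X] (RatFunc F)) :=
    RatFunc.algebraMap_injective F
  have hval : ∀ p : F[X], p ≠ 0 → RatFunc.inftyValuation F (algebraMap F[X] (RatFunc F) p) =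
      WithZero.exp (p.natDegree : ℤ) := fun p hp => RatFunc.inftyValuation.polynomial F hp
  have h1 : WithZero.exp (h.natDegree : ℤ) = Valued.v z ^ ℓ := by
    rw [← hval h h0, ← valued_comp, hz, map_pow]
  have hz0 : Valued.v z ≠ 0 := by
    intro h2
    rw [h2, zero_pow hℓ.ne_zero] at h1
    exact WithZero.exp_ne_zero h1
  obtain ⟨k, hk⟩ : ∃ k : ℤ, Valued.v z = WithZero.exp k :=
    ⟨WithZero.log (Valued.v z), (WithZero.exp_log hz0).symm⟩
  rw [hk, ← WithZero.exp_nsmul, WithZero.exp_inj] at h1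
  rw [nsmul_eq_mul] at h1
  obtain ⟨k', rfl⟩ : ∃ k' : ℕ, k = k' := by
    refine ⟨k.toNat, (Int.toNat_of_nonneg ?_).symm⟩
    by_contra hk0
    push Not at hk0
    have h2 : (ℓ : ℤ) * k < 0 := mul_neg_of_pos_of_neg (by exact_mod_cast hℓ.pos) hk0
    omega
  have hdeg : h.natDegree = k' * ℓ := by
    rw [mul_comm]
    exact_mod_cast h1
  refine ⟨by rw [hdeg, Nat.cast_mul, ZMod.natCast_self, mul_zero], ?_⟩
  set A := algebraMap (RatFunc F) (RatFunc.inftyValuation F).Completion with hA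
  set B := algebraMap F[X] (RatFunc F) with hB
  have hXk : B (X ^ k') ≠ 0 := by
    rw [hB, Ne, map_eq_zero_iff _ hinj]
    exact pow_ne_zero _ X_ne_zero
  have hXk' : A (B (X ^ k')) ≠ 0 := by
    rw [Ne, map_eq_zero_iff _ A.injective]
    exact hXk
  have hv1 : Valued.v (z / A (B (X ^ k'))) = 1 := by
    rw [map_div₀, hA, valued_comp, hB, hval _ (pow_ne_zero _ X_ne_zero), natDegree_X_pow, hk,
      div_self WithZero.exp_ne_zero]
  obtain ⟨α, hα⟩ := twsqi_const (z / A (B (X ^ k'))) hv1.le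
  rw [← hA] at hα
  have hvα : Valued.v (A (RatFunc.C α)) ≤ 1 := by
    have h2 : A (RatFunc.C α) = z / A (B (X ^ k')) - (z / A (B (X ^ k')) - A (RatFunc.C α)) := by
      ring
    rw [h2]
    exact (Valuation.map_sub _ _ _).trans (max_le hv1.le hα.le)
  have h3 : Valued.v ((z / A (B (X ^ k'))) ^ ℓ - A (RatFunc.C α) ^ ℓ) < 1 := by
    rw [← geom_sum₂_mul (z / A (B (X ^ k'))) (A (RatFunc.C α)) ℓ, map_mul]
    have h4 : Valued.v (∑ i ∈ Finset.range ℓ, (z / A (B (X ^ k'))) ^ i *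
        A (RatFunc.C α) ^ (ℓ - 1 - i)) ≤ 1 := by
      refine Valuation.map_sum_le _ fun i _ => ?_
      rw [map_mul, Valuation.map_pow, Valuation.map_pow, hv1, one_pow, one_mul]
      exact pow_le_one' hvα _
    calc _ ≤ 1 * Valued.v (z / A (B (X ^ k')) - A (RatFunc.C α)) := by
          gcongr
      _ < 1 := by rw [one_mul]; exact hα
  have h5 : (z / A (B (X ^ k'))) ^ ℓ - A (RatFunc.C α) ^ ℓ =
      A (B h / B (X ^ h.natDegree) - RatFunc.C (α ^ ℓ)) := by
    have e1 : B (X ^ h.natDegree) = B (X ^ k') ^ ℓ := by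
      rw [hdeg, pow_mul, map_pow B (X ^ k') ℓ]
    rw [div_pow, ← hz, e1, map_sub, map_div₀, map_pow A, map_pow RatFunc.C, map_pow A]
  rw [h5, hA, valued_comp] at h3
  have h6 : RatFunc.inftyValuation F (RatFunc.C (h.leadingCoeff - α ^ ℓ)) < 1 := by
    have h7 : RatFunc.C (h.leadingCoeff - α ^ ℓ) =
        (B h / B (X ^ h.natDegree) - RatFunc.C (α ^ ℓ)) -
          (B h / B (X ^ h.natDegree) - RatFunc.C h.leadingCoeff) := by
      rw [map_sub]; ring
    rw [h7]
    exact lt_of_le_of_lt (Valuation.map_sub _ _ _) (max_lt h3 (twsqi_lead h h0))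
  have h8 : h.leadingCoeff - α ^ ℓ = 0 := by
    by_contra h9
    rw [RatFunc.inftyValuation.C F h9] at h6
    exact lt_irrefl _ h6
  rw [hχ.ker _ (leadingCoeff_ne_zero.2 h0)]
  exact ⟨α, sub_eq_zero.1 h8⟩

end MP72e2e6
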