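import Pool.Agent.Lib.MP_72e2e6_nt.SuStmt
import Pool.Agent.Lib.MP_72e2e6_nt.TwRec

/-!
# MP_72e2e6_nt, SuRec: reciprocity for `ℓ`-th power symbols in `F[t]`
-/

set_option autoImplicit false

namespace MP72e2e6

open Polynomial

universe u

theorem surec_lg_pow {F : Type u} [Field F] {ℓ : ℕ} {χ : F → ZMod ℓ} (hχ : IsLg ℓ χ)
    (h1 : χ 1 = 0) (h2 : χ (-1) = 0) (k : ℕ) : χ ((-1 : F) ^ k) = 0 := by
  induction k with
  | zero => rw [pow_zero, h1]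
  | succ k ih =>
    rw [pow_succ, hχ.mul _ _ (pow_ne_zero _ (neg_ne_zero.mpr one_ne_zero))
      (neg_ne_zero.mpr one_ne_zero), ih, h2, add_zero]

theorem surec_nm {F : Type u} [Field F] [Finite F] (P Q : F[X]) (hP : P.Monic) (hQ : Q.Monic)
    (hPi : Irreducible P) (hQi : Irreducible Q) :
    nm P Q = (-1) ^ (P.natDegree * Q.natDegree) * nm Q P := by
  have hPf : Fact (Irreducible P) := ⟨hPi⟩
  have hQf : Fact (Irreducible Q) := ⟨hQi⟩
  unfold nm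
  apply (algebraMap F (AlgebraicClosure F)).injective
  rw [map_mul, twrec_norm P Q hP, twrec_norm Q P hQ, resultant_comm, map_pow, map_neg, map_one]

theorem tSuRec.{v} (hSuSy : StmtSuSy.{v}) : StmtSuRec.{v} := by
  intro F _ _ ℓ hℓ hℓ2 hdvd χ hχ P Q hP hPi hQ hQi hne
  obtain ⟨hχ1, hχ2, hsy⟩ := hSuSy F ℓ hℓ hdvd χ hχ
  have hPQ : ¬ P ∣ Q := fun h =>
    hne (eq_of_monic_of_associated hP hQ (hPi.associated_of_dvd hQi h))
  have hQP : ¬ Q ∣ P := fun h =>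
    hne (eq_of_monic_of_associated hQ hP (hQi.associated_of_dvd hPi h)).symm
  have h1 := (hsy P hP hPi).2.1 Q hPQ
  have h2 := (hsy Q hQ hQi).2.1 P hQP
  rw [h1.2.2.1, h2.2.2.1, surec_nm P Q hP hQ hPi hQi,
    hχ.mul _ _ (pow_ne_zero _ (neg_ne_zero.mpr one_ne_zero)) h2.2.1,
    surec_lg_pow hχ hχ1 (hχ2 hℓ2), zero_add]

end MP72e2e6
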