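import Pool.Agent.Lib.MP_72e2e6_nt.SuStmt

/-!
# MP_72e2e6_nt, SuSeq: a countable family of primes with prescribed symbols
-/

set_option autoImplicit false

namespace MP72e2e6

open Polynomial

universe u

section

variable {F : Type u} [Field F] [Finite F] (hPrime : StmtSuPrime.{u}) {ℓ : ℕ} (hℓ : ℓ.Prime)
  (hℓ2 : ℓ ≠ 2) (hdvd : ℓ ∣ Nat.card F - 1) {χ : F → ZMod ℓ} (hχ : IsLg ℓ χ)
  {ι : Type} [Fintype ι] (pr : ι → F[X]) (t : ℕ → ι → ZMod ℓ)
  (l : ℕ → ℕ → ZMod ℓ)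

open Classical in
/-- The next prime. -/
noncomputable def suseq_step (n : ℕ) (R : Fin n → F[X]) : F[X] :=
  if h : Fam (Sum.elim pr R) then
    (hPrime F ℓ hℓ hℓ2 hdvd χ hχ (ι ⊕ Fin n) (Sum.elim pr R) h
      (Sum.elim (t n) (fun k => l k n)) 0).choose
  else 0

theorem suseq_step_spec (n : ℕ) (R : Fin n → F[X]) (h : Fam (Sum.elim pr R)) :
    (suseq_step hPrime hℓ hℓ2 hdvd hχ pr t l n R).Monic ∧
    Irreducible (suseq_step hPrime hℓ hℓ2 hdvd hχ pr t l n R) ∧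
    (∀ b, Sum.elim pr R b ≠ suseq_step hPrime hℓ hℓ2 hdvd hχ pr t l n R) ∧
    ((suseq_step hPrime hℓ hℓ2 hdvd hχ pr t l n R).natDegree : ZMod ℓ) = 0 ∧
    ∀ b, syl χ (Sum.elim pr R b) (suseq_step hPrime hℓ hℓ2 hdvd hχ pr t l n R) =
      Sum.elim (t n) (fun k : Fin n => l k n) b := by
  rw [suseq_step, dif_pos h]
  exact (hPrime F ℓ hℓ hℓ2 hdvd χ hχ (ι ⊕ Fin n) (Sum.elim pr R) h
      (Sum.elim (t n) (fun k => l k n)) 0).choose_spec

/-- The sequence of primes. -/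
noncomputable def suseq_seq (n : ℕ) : F[X] :=
  suseq_step hPrime hℓ hℓ2 hdvd hχ pr t l n (fun k => suseq_seq k.1)
termination_by n
decreasing_by exact k.2

theorem suseq_seq_spec (hpr : Fam pr) (n : ℕ) :
    (suseq_seq hPrime hℓ hℓ2 hdvd hχ pr t l n).Monic ∧
    Irreducible (suseq_seq hPrime hℓ hℓ2 hdvd hχ pr t l n) ∧
    (∀ b, pr b ≠ suseq_seq hPrime hℓ hℓ2 hdvd hχ pr t l n) ∧
    (∀ k, k < n → suseq_seq hPrime hℓ hℓ2 hdvd hχ pr t l k ≠
      suseq_seq hPrime hℓ hℓ2 hdvd hχ pr t l n) ∧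
    ((suseq_seq hPrime hℓ hℓ2 hdvd hχ pr t l n).natDegree : ZMod ℓ) = 0 ∧
    (∀ b, syl χ (pr b) (suseq_seq hPrime hℓ hℓ2 hdvd hχ pr t l n) = t n b) ∧
    ∀ k, k < n → syl χ (suseq_seq hPrime hℓ hℓ2 hdvd hχ pr t l k)
      (suseq_seq hPrime hℓ hℓ2 hdvd hχ pr t l n) = l k n := by
  induction n using Nat.strong_induction_on with
  | _ n ih =>
    have hfam : Fam (Sum.elim pr (fun k : Fin n =>
        suseq_seq hPrime hℓ hℓ2 hdvd hχ pr t l k.1)) := by
      refine ⟨?_, ?_, ?_⟩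
      · rintro (b | k) (b' | k') h
        · exact congrArg Sum.inl (hpr.inj h)
        · exact absurd h ((ih k'.1 k'.2).2.2.1 b)
        · exact absurd h.symm ((ih k.1 k.2).2.2.1 b')
        · rcases lt_trichotomy k.1 k'.1 with hlt | heq | hgt
          · exact absurd h ((ih k'.1 k'.2).2.2.2.1 k.1 hlt)
          · exact congrArg Sum.inr (Fin.ext heq)
          · exact absurd h.symm ((ih k.1 k.2).2.2.2.1 k'.1 hgt)
      · rintro (b | k)
        · exact hpr.monic b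
        · exact (ih k.1 k.2).1
      · rintro (b | k)
        · exact hpr.irr b
        · exact (ih k.1 k.2).2.1
    obtain ⟨s1, s2, s3, s4, s5⟩ := suseq_step_spec hPrime hℓ hℓ2 hdvd hχ pr t l n _ hfam
    have he : suseq_seq hPrime hℓ hℓ2 hdvd hχ pr t l n = suseq_step hPrime hℓ hℓ2 hdvd hχ pr t l n
        (fun k => suseq_seq hPrime hℓ hℓ2 hdvd hχ pr t l k.1) := by
      conv_lhs => rw [suseq_seq]
    rw [← he] at s1 s2 s3 s4 s5
    exact ⟨s1, s2, fun b => s3 (Sum.inl b), fun k hk => s3 (Sum.inr ⟨k, hk⟩), s4,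
      fun b => s5 (Sum.inl b), fun k hk => s5 (Sum.inr ⟨k, hk⟩)⟩

end

theorem tSuSeq.{v} (hSuRec : StmtSuRec.{v}) (hSuPrime : StmtSuPrime.{v}) : StmtSuSeq.{v} := by
  intro F _ _ ℓ hℓ hℓ2 hdvd χ hχ ι κ _ _ pr hpr t l hl
  rcases isEmpty_or_nonempty κ with hκ | hκ
  · refine ⟨fun k => (hκ.false k).elim, ⟨fun k => (hκ.false k).elim, fun k => (hκ.false k).elim,
      fun k => (hκ.false k).elim⟩, fun k => (hκ.false k).elim, fun k => (hκ.false k).elim,
      fun k => (hκ.false k).elim⟩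
  · obtain ⟨f, hf⟩ := Countable.exists_injective_nat κ
    set g : ℕ → κ := Function.invFun f with hg
    have hgf : ∀ k, g (f k) = k := Function.leftInverse_invFun hf
    set R : ℕ → F[X] := suseq_seq hSuPrime hℓ hℓ2 hdvd hχ pr (fun n => t (g n))
      (fun n m => l (g n) (g m)) with hR
    have hspec := suseq_seq_spec hSuPrime hℓ hℓ2 hdvd hχ pr (fun n => t (g n))
      (fun n m => l (g n) (g m)) hpr
    rw [← hR] at hspec
    have hne : ∀ k k', k ≠ k' → R (f k) ≠ R (f k') := by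
      intro k k' hkk'
      rcases lt_trichotomy (f k) (f k') with hlt | heq | hgt
      · exact (hspec (f k')).2.2.2.1 _ hlt
      · exact absurd (hf heq) hkk'
      · exact ((hspec (f k)).2.2.2.1 _ hgt).symm
    have hlt : ∀ k k', f k < f k' → syl χ (R (f k)) (R (f k')) = l k k' := by
      intro k k' h
      have h1 := (hspec (f k')).2.2.2.2.2.2 (f k) h
      rw [h1, hgf, hgf]
    refine ⟨fun k => R (f k), ⟨?_, fun k => (hspec (f k)).1, fun k => (hspec (f k)).2.1⟩,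
      fun k => ⟨(hspec (f k)).2.2.2.2.1, (hspec (f k)).2.2.1⟩, ?_, ?_⟩
    · intro k k' h
      by_contra hkk'
      exact hne k k' hkk' h
    · intro k b
      have h1 := (hspec (f k)).2.2.2.2.2.1 b
      rw [h1, hgf]
    · intro k k' hkk'
      rcases lt_trichotomy (f k) (f k') with h | h | h
      · exact hlt k k' h
      · exact absurd (hf h) hkk'
      · have h1 := hSuRec F ℓ hℓ hℓ2 hdvd χ hχ (R (f k)) (R (f k')) (hspec (f k)).1
          (hspec (f k)).2.1 (hspec (f k')).1 (hspec (f k')).2.1 (hne k k' hkk')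
        rw [h1, hlt k' k h]
        exact (hl k k').symm

end MP72e2e6
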