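import Pool.Agent.Lib.MP_72e2e6_nt.SuStmt

/-!
# MP_72e2e6_nt: the elimination (`StmtSuStar`)
-/

namespace MP72e2e6

open Polynomial IsDedekindDomain

section

variable {ℓ : ℕ} [Fact ℓ.Prime] {W : Type} [AddCommGroup W] [Module (ZMod ℓ) W]

/-- `∑_k μ ^ (-k) T ^ k` -/
noncomputable def sustar_p (T : Module.End (ZMod ℓ) W) (μ : (ZMod ℓ)ˣ) : Module.End (ZMod ℓ) W :=
  ∑ k ∈ Finset.range (ℓ - 1), ((μ⁻¹ : (ZMod ℓ)ˣ) : ZMod ℓ) ^ k • T ^ k

theorem sustar_p_apply (T : Module.End (ZMod ℓ) W) (μ : (ZMod ℓ)ˣ) (z : W) :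
    sustar_p T μ z =
      ∑ k ∈ Finset.range (ℓ - 1), ((μ⁻¹ : (ZMod ℓ)ˣ) : ZMod ℓ) ^ k • (T ^ k) z := by
  rw [sustar_p, LinearMap.sum_apply]
  rfl

theorem sustar_pow {T : Module.End (ZMod ℓ) W} (h : T ^ ℓ = T) (hT : ∀ y, T y = 0 → y = 0) :
    T ^ (ℓ - 1) = 1 := by
  have hℓ : 0 < ℓ := (Fact.out : ℓ.Prime).pos
  ext z
  have h1 : T ((T ^ (ℓ - 1)) z - z) = 0 := by
    rw [map_sub, ← Module.End.mul_apply, ← pow_succ', Nat.sub_add_cancel hℓ, h, sub_self]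
  exact sub_eq_zero.1 (hT _ h1)

theorem sustar_inv_pow (μ : (ZMod ℓ)ˣ) : ((μ⁻¹ : (ZMod ℓ)ˣ) : ZMod ℓ) ^ (ℓ - 1) = 1 := by
  rw [← Units.val_pow_eq_pow_val, ZMod.units_pow_card_sub_one_eq_one, Units.val_one]

theorem sustar_shift {T : Module.End (ZMod ℓ) W} (h : T ^ (ℓ - 1) = 1) (μ : (ZMod ℓ)ˣ) (z : W) :
    sustar_p T μ (T z) = (μ : ZMod ℓ) • sustar_p T μ z := by
  have h1 : ∀ k, (μ : ZMod ℓ) • (((μ⁻¹ : (ZMod ℓ)ˣ) : ZMod ℓ) ^ (k + 1) • (T ^ (k + 1)) z) =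
      ((μ⁻¹ : (ZMod ℓ)ˣ) : ZMod ℓ) ^ k • (T ^ k) (T z) := by
    intro k
    rw [smul_smul, pow_succ' _ k, ← mul_assoc, Units.mul_inv, one_mul, pow_succ T k,
      Module.End.mul_apply]
  have h2 := Finset.sum_range_succ
    (fun k => ((μ⁻¹ : (ZMod ℓ)ˣ) : ZMod ℓ) ^ k • (T ^ k) z) (ℓ - 1)
  have h3 := Finset.sum_range_succ'
    (fun k => ((μ⁻¹ : (ZMod ℓ)ˣ) : ZMod ℓ) ^ k • (T ^ k) z) (ℓ - 1)
  rw [h2] at h3
  simp only [h, sustar_inv_pow, pow_zero] at h3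
  have h4 := add_right_cancel h3
  rw [sustar_p_apply, sustar_p_apply, h4, Finset.smul_sum]
  exact (Finset.sum_congr rfl fun k _ => (h1 k)).symm

theorem sustar_eigen {T : Module.End (ZMod ℓ) W} (h : T ^ (ℓ - 1) = 1) {μ ν : (ZMod ℓ)ˣ}
    (hμ : μ ≠ ν) {z : W} (hz : T z = (ν : ZMod ℓ) • z) : sustar_p T μ z = 0 := by
  have h1 := sustar_shift h μ z
  rw [hz, map_smul, ← sub_eq_zero, ← sub_smul] at h1
  rcases smul_eq_zero.1 h1 with h2 | h2
  · exfalso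
    apply hμ
    exact (Units.ext (sub_eq_zero.1 h2)).symm
  · exact h2

theorem sustar_eigen_self {T : Module.End (ZMod ℓ) W} {μ : (ZMod ℓ)ˣ} {z : W}
    (hz : T z = (μ : ZMod ℓ) • z) : sustar_p T μ z = -z := by
  have h1 : ∀ k : ℕ, (T ^ k) z = (μ : ZMod ℓ) ^ k • z := by
    intro k
    induction k with
    | zero => simp
    | succ k ih => rw [pow_succ', Module.End.mul_apply, ih, map_smul, hz, smul_smul, pow_succ]
  have h2 : ∀ k : ℕ, ((μ⁻¹ : (ZMod ℓ)ˣ) : ZMod ℓ) ^ k • (T ^ k) z = z := by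
    intro k
    rw [h1, smul_smul, ← mul_pow, Units.inv_mul, one_pow, one_smul]
  rw [sustar_p_apply]
  simp only [h2]
  rw [Finset.sum_const, Finset.card_range, ← Nat.cast_smul_eq_nsmul (ZMod ℓ),
    Nat.cast_pred (Fact.out : ℓ.Prime).pos, ZMod.natCast_self, zero_sub, neg_smul, one_smul]

theorem sustar_total (T : Module.End (ZMod ℓ) W) (y : W) : ∑ μ, sustar_p T μ y = -y := by
  have hℓ : 1 < ℓ := (Fact.out : ℓ.Prime).one_lt
  simp only [sustar_p_apply]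
  rw [Finset.sum_comm]
  simp only [← Finset.sum_smul]
  have h1 : ∀ k : ℕ, ∑ μ : (ZMod ℓ)ˣ, ((μ⁻¹ : (ZMod ℓ)ˣ) : ZMod ℓ) ^ k =
      if ℓ - 1 ∣ k then -1 else 0 := by
    intro k
    have h2 := FiniteField.sum_pow_units (ZMod ℓ) k
    rw [ZMod.card] at h2
    exact (Equiv.sum_comp (Equiv.inv (ZMod ℓ)ˣ)
      (fun μ => ((μ : (ZMod ℓ)ˣ) : ZMod ℓ) ^ k)).trans h2
  simp only [h1]
  rw [Finset.sum_eq_single 0]
  · rw [if_pos (dvd_zero _), pow_zero, neg_smul, one_smul]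
    rfl
  · intro k hk hk0
    rw [Finset.mem_range] at hk
    rw [if_neg (fun h => absurd (Nat.le_of_dvd (Nat.pos_of_ne_zero hk0) h) (by omega)), zero_smul]
  · intro h
    exact absurd (Finset.mem_range.2 (by omega)) h

end

theorem tSuStar : StmtSuStar := by
  intro ℓ hp hℓ2 W _ _ V J _ σ hσ hinj D D₀ hD s s₀ Λ c c₀ X X' Y hQ hQ' hR hv hI
  have hℓ : ℓ.Prime := hp.out
  have hpow : ∀ v, σ v ^ (ℓ - 1) = 1 := fun v => sustar_pow (hσ v) (hinj v)
  -- the first relation without `X'`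
  have hX' : ∀ v μ, X' v μ + X' v μ = c₀ + X v μ := by
    intro v μ
    have h := hQ' v μ
    have h2 : c₀ + X v μ - (X' v μ + X' v μ) = 0 := by
      rw [← h]
      abel
    exact (sub_eq_zero.1 h2).symm
  have hrel : ∀ v μ, σ v (c v - X v μ) = (μ : ZMod ℓ) • (c₀ - X v μ) := by
    intro v μ
    have h := hQ v μ
    have h2 : (-2 * (μ : ZMod ℓ)) • (X' v μ - X v μ) = -((μ : ZMod ℓ) • (c₀ - X v μ)) := by
      have h3 : c₀ - X v μ = (2 : ZMod ℓ) • (X' v μ - X v μ) := by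
        rw [two_smul]
        have h4 := hX' v μ
        have h5 : c₀ = X' v μ + X' v μ - X v μ := by
          rw [h4]
          abel
        rw [h5]
        abel
      rw [h3, smul_smul, ← neg_smul]
      congr 1
      ring
    rw [h2] at h
    exact sub_eq_zero.1 (by rw [sub_eq_add_neg]; exact h)
  have hc : ∀ v, c v = c₀ := by
    intro v
    have h1 : ∀ μ : (ZMod ℓ)ˣ, sustar_p (σ v) μ (σ v (c v - c₀)) = 0 := by
      intro μ
      have h2 : σ v (c v - c₀) = (μ : ZMod ℓ) • (c₀ - X v μ) - σ v (c₀ - X v μ) := by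
        rw [← hrel v μ, ← map_sub]
        congr 1
        abel
      rw [h2, map_sub, map_smul, sustar_shift (hpow v), sub_self]
    have h3 := sustar_total (σ v) (σ v (c v - c₀))
    simp only [h1, Finset.sum_const_zero] at h3
    exact sub_eq_zero.1 (hinj v _ (neg_eq_zero.1 h3.symm))
  have hc0 : c₀ = 0 := by
    apply hD
    simp only [hc] at hI
    exact hI
  have hcv : ∀ v, c v = 0 := fun v => (hc v).trans hc0
  have hT : ∀ v (μ : (ZMod ℓ)ˣ), σ v (X v μ) = (μ : ZMod ℓ) • X v μ := by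
    intro v μ
    have h := hrel v μ
    rw [hcv, hc0, zero_sub, map_neg, smul_neg] at h
    exact neg_injective h
  have hX : ∀ v μ, X v μ = 0 := by
    intro v μ
    have h1 := hv v
    simp only [hcv, hc0, sub_zero, map_zero, smul_zero, Finset.sum_const_zero, zero_add] at h1
    have h2 := congrArg (sustar_p (σ v) μ) h1
    rw [map_sum, map_zero, Finset.sum_eq_single μ] at h2
    · rw [sustar_eigen_self (hT v μ)] at h2
      exact neg_eq_zero.1 h2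
    · intro ν _ hν
      exact sustar_eigen (hpow v) hν.symm (hT v ν)
    · intro h
      exact absurd (Finset.mem_univ _) h
  refine ⟨hcv, hc0, fun v μ => ⟨hX v μ, ?_⟩, fun j => ?_⟩
  · have h := hX' v μ
    rw [hX, hc0, add_zero, ← two_smul (ZMod ℓ)] at h
    rcases smul_eq_zero.1 h with h2 | h2
    · exfalso
      have h3 : ((2 : ℕ) : ZMod ℓ) = 0 := by exact_mod_cast h2
      rw [ZMod.natCast_eq_zero_iff] at h3
      exact hℓ2 ((Nat.prime_dvd_prime_iff_eq hℓ Nat.prime_two).1 h3)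
    · exact h2
  · have h := hR j
    rw [hc0, zero_sub] at h
    exact neg_eq_zero.1 h

end MP72e2e6
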