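import Pool.Agent.Lib.MP_72e2e6_nt.SuStmt

/-!
# MP_72e2e6_nt: SuTal, valuations and symbols of `tal`
-/

namespace MP72e2e6

open Polynomial IsDedekindDomain

universe u

section sutal

variable {F : Type u} [Field F] {ℓ m : ℕ}

lemma sutal_one (f : F[X] → ZMod ℓ)
    (hf : ∀ g h : F[X], g ≠ 0 → h ≠ 0 → f (g * h) = f g + f h) : f 1 = 0 := by
  have h := hf 1 1 one_ne_zero one_ne_zero
  rw [one_mul] at h
  have h2 : f 1 + 0 = f 1 + f 1 := by rw [add_zero]; exact h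
  exact (add_left_cancel h2).symm

lemma sutal_pow (f : F[X] → ZMod ℓ)
    (hf : ∀ g h : F[X], g ≠ 0 → h ≠ 0 → f (g * h) = f g + f h) (x : F[X]) (hx : x ≠ 0) (n : ℕ) :
    f (x ^ n) = n * f x := by
  induction n with
  | zero => rw [pow_zero, sutal_one f hf]; simp
  | succ n ih =>
    rw [pow_succ, hf _ _ (pow_ne_zero n hx) hx, ih]
    push_cast
    ring

lemma sutal_prod (f : F[X] → ZMod ℓ)
    (hf : ∀ g h : F[X], g ≠ 0 → h ≠ 0 → f (g * h) = f g + f h) {κ : Type} (s : Finset κ)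
    (x : κ → F[X]) (hx : ∀ k ∈ s, x k ≠ 0) : f (∏ k ∈ s, x k) = ∑ k ∈ s, f (x k) := by
  classical
  induction s using Finset.induction_on with
  | empty => simp [sutal_one f hf]
  | insert k s hk ih =>
    rw [Finset.prod_insert hk, Finset.sum_insert hk,
      hf _ _ (hx k (Finset.mem_insert_self k s))
        (Finset.prod_ne_zero_iff.2 fun j hj => hx j (Finset.mem_insert_of_mem hj)),
      ih fun j hj => hx j (Finset.mem_insert_of_mem hj)]

lemma sutal_factor_ne_zero (E : F[X]) (hE : E ≠ 0) (a : Fin m → F[X])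
    (ha : Function.Injective a) (b : Fin m → ℕ) (c : Fin m → ZMod ℓ) (i k : Fin m) :
    (E * (a i - a k)) ^ ((b k : ZMod ℓ) * (c i - c k) * (∑ k, (b k : ZMod ℓ))⁻¹).val ≠ 0 := by
  by_cases hk : i = k
  · subst hk
    simp
  · exact pow_ne_zero _ (mul_ne_zero hE (sub_ne_zero.2 fun h => hk (ha h)))

lemma sutal_apply [Fact ℓ.Prime] (f : F[X] → ZMod ℓ)
    (hf : ∀ g h : F[X], g ≠ 0 → h ≠ 0 → f (g * h) = f g + f h) (E : F[X]) (hE : E ≠ 0)
    (a : Fin m → F[X]) (ha : Function.Injective a) (b : Fin m → ℕ) (hb : ¬ ℓ ∣ ∑ k, b k)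
    (c : Fin m → ZMod ℓ) (hc : ∑ i, (b i : ZMod ℓ) * c i = 0) (i : Fin m) :
    f (tal b E a c i) = sg b (f E) (fun i k => f (a i - a k)) c i := by
  have hB : (∑ k, (b k : ZMod ℓ)) ≠ 0 := by
    intro h
    apply hb
    rw [← ZMod.natCast_eq_zero_iff]
    push_cast
    exact h
  have key : ∀ k, f ((E * (a i - a k)) ^
      ((b k : ZMod ℓ) * (c i - c k) * (∑ k, (b k : ZMod ℓ))⁻¹).val) =
      (b k : ZMod ℓ) * (c i - c k) * (∑ k, (b k : ZMod ℓ))⁻¹ * (f E + f (a i - a k)) := by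
    intro k
    by_cases hk : i = k
    · subst hk
      rw [sub_self (c i), mul_zero, zero_mul, ZMod.val_zero, pow_zero, sutal_one f hf, zero_mul]
    · have h1 : a i - a k ≠ 0 := sub_ne_zero.2 fun h => hk (ha h)
      rw [sutal_pow f hf _ (mul_ne_zero hE h1), ZMod.natCast_val, ZMod.cast_id, hf _ _ hE h1]
  have hsum : ∑ k, (b k : ZMod ℓ) * (c i - c k) = (∑ k, (b k : ZMod ℓ)) * c i := by
    simp only [mul_sub, Finset.sum_sub_distrib]
    rw [hc, sub_zero, Finset.sum_mul]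
  unfold tal sg
  rw [sutal_prod f hf Finset.univ _
    fun k _ => sutal_factor_ne_zero E hE a ha b c i k]
  simp only [key]
  have h3 : ∀ k, (b k : ZMod ℓ) * (c i - c k) * (∑ k, (b k : ZMod ℓ))⁻¹ *
      (f E + f (a i - a k)) = f E * (∑ k, (b k : ZMod ℓ))⁻¹ * ((b k : ZMod ℓ) * (c i - c k)) +
      (∑ k, (b k : ZMod ℓ))⁻¹ * ((b k : ZMod ℓ) * f (a i - a k) * (c i - c k)) :=
    fun k => by ring
  simp only [h3, Finset.sum_add_distrib, ← Finset.mul_sum]
  rw [hsum]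
  congr 1
  field_simp

end sutal

theorem tSuTal.{v} (hSuSy : StmtSuSy.{v}) : StmtSuTal.{v} := by
  intro F _ _ ℓ hℓ hdvd χ hχ m E hE a ha b hb P hP hPi c hc i
  have : Fact ℓ.Prime := ⟨hℓ⟩
  have hadd := ((hSuSy F ℓ hℓ hdvd χ hχ).2.2 P hP hPi).1
  refine ⟨?_, ?_, ?_⟩
  · unfold tal
    exact Finset.prod_ne_zero_iff.2 fun k _ => sutal_factor_ne_zero E hE a ha b c i k
  · exact sutal_apply (fun h => vl ℓ P h) (fun g h hg hh => (hadd g h hg hh).1) E hE a ha b hb c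
      hc i
  · exact sutal_apply (fun h => syl χ P h) (fun g h hg hh => (hadd g h hg hh).2) E hE a ha b hb c
      hc i

end MP72e2e6
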