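import Pool.Agent.Lib.MP_72e2e6_nt.SuMain
import Pool.Agent.Lib.MP_72e2e6_nt.SuCop
import Pool.Agent.Lib.MP_72e2e6_nt.SuLg
import Pool.Agent.Lib.MP_72e2e6_nt.SuSy
import Pool.Agent.Lib.MP_72e2e6_nt.SuRec
import Pool.Agent.Lib.MP_72e2e6_nt.SuFac
import Pool.Agent.Lib.MP_72e2e6_nt.SuLoc
import Pool.Agent.Lib.MP_72e2e6_nt.SuLocV
import Pool.Agent.Lib.MP_72e2e6_nt.SuLocF
import Pool.Agent.Lib.MP_72e2e6_nt.SuLocI
import Pool.Agent.Lib.MP_72e2e6_nt.SuPwF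
import Pool.Agent.Lib.MP_72e2e6_nt.SuPwI
import Pool.Agent.Lib.MP_72e2e6_nt.SuTor
import Pool.Agent.Lib.MP_72e2e6_nt.SuTal
import Pool.Agent.Lib.MP_72e2e6_nt.SuSel
import Pool.Agent.Lib.MP_72e2e6_nt.SuEq
import Pool.Agent.Lib.MP_72e2e6_nt.SuIdx
import Pool.Agent.Lib.MP_72e2e6_nt.SuFrob
import Pool.Agent.Lib.MP_72e2e6_nt.SuInj
import Pool.Agent.Lib.MP_72e2e6_nt.SuEx
import Pool.Agent.Lib.MP_72e2e6_nt.SuStar
import Pool.Agent.Lib.MP_72e2e6_nt.SuMon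
import Pool.Agent.Lib.MP_72e2e6_nt.SuPsi
import Pool.Agent.Lib.MP_72e2e6_nt.SuNonv
import Pool.Agent.Lib.MP_72e2e6_nt.SuBdd
import Pool.Agent.Lib.MP_72e2e6_nt.SuZero
import Pool.Agent.Lib.MP_72e2e6_nt.SuPrime
import Pool.Agent.Lib.MP_72e2e6_nt.SuSeq
import Pool.Agent.Lib.MP_72e2e6_nt.TwMon
import Pool.Agent.Lib.MP_72e2e6_nt.TwPsi

/-!
# MP_72e2e6_nt: twists of superelliptic curves, all the modules together
-/

namespace MP72e2e6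

open Polynomial IsDedekindDomain

universe u

open Classical in
theorem superelliptic_twists {F : Type u} [Field F] [Finite F] {ℓ : ℕ} (hℓ : ℓ.Prime)
    (hℓ2 : ℓ ≠ 2) (hq : ℓ ∣ Nat.card F - 1) {m : ℕ} (hm : 0 < m) {a : Fin m → F[X]}
    (ha : Function.Injective a) {b : Fin m → ℕ}
    (hP : ∀ P : F[X], P.Monic → Irreducible P → ∃ e : ℤ, Tame ℓ b (wP P a) e)
    (hI : ∃ e : ℤ, Tame ℓ b (wI a) e) :
    ∃ (D : F[X]) (𝓡 : Set F[X]), D ≠ 0 ∧ 𝓡.Infinite ∧ (∀ R ∈ 𝓡, R.Monic ∧ Irreducible R) ∧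
      ∀ I : Finset F[X], (I : Set F[X]) ⊆ 𝓡 → ∀ e : F[X] → ℕ, (∀ R ∈ I, 1 ≤ e R ∧ e R < ℓ) →
        placesSelmer F[X] (RatFunc.inftyValuation F) ℓ (pts (D * ∏ R ∈ I, R ^ e R) a) b =
          torsionGroup ℓ (pts (D * ∏ R ∈ I, R ^ e R) a) b ∧
        (powGroup ℓ (RatFunc F) m).relIndex
          (torsionGroup ℓ (pts (D * ∏ R ∈ I, R ^ e R) a) b) = ℓ ^ (m - 1) := by
  have hSy : StmtSuSy.{u} := tSuSy
  have hRec := tSuRec hSy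
  have hFac := tSuFac hSy
  have hTal := tSuTal hSy
  have hLocV := tSuLocV tSuLoc.{u}
  have hTor : StmtSuTor.{u} := tSuTor
  have hSel := tSuSel hSy hTal (tSuLocF hLocV) (tSuLocI hLocV) (tSuPwF hSy) tSuPwI hTor
  have hEq := tSuEq hSy hFac hTal hSel
  have hMon : StmtTwMon.{u} := tTwMon
  have hPsi := tSuPsi hMon (tTwPsi hMon) tSuMon
  have hPrime := tSuPrime hSy hPsi (tSuBdd hMon hPsi (tSuNonv hMon hPsi)) (tSuZero hSy)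
  exact main_su tSuLg hSy hRec hFac hEq tSuFrob tSuInj tSuStar hPrime (tSuSeq hRec hPrime)
    (tSuIdx hTor) hℓ hℓ2 hq hm ha hP hI

theorem tame_free {F : Type u} [Field F] {ℓ : ℕ} (hℓ : ℓ.Prime)
    {m : ℕ} {a : Fin m → F[X]} (ha : Function.Injective a) {b : Fin m → ℕ}
    (hb : ∀ s : Finset (Fin m), s.Nonempty → ¬ ℓ ∣ ∑ k ∈ s, b k) :
    (∀ P : F[X], P.Monic → Irreducible P → ∃ e : ℤ, Tame ℓ b (wP P a) e) ∧
      ∃ e : ℤ, Tame ℓ b (wI a) e := tame_of_zero_sum_free tSuEx hℓ ha hb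

end MP72e2e6
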