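import Pool.Agent.Lib.MP_72e2e6_nt.SuStmt
import Pool.Agent.Lib.MP_72e2e6_nt.TwCore

/-!
# MP_72e2e6_nt: twists of superelliptic curves, assembly, basic lemmas
-/

namespace MP72e2e6

open Polynomial IsDedekindDomain

universe u

section operators

variable {ℓ m : ℕ}

theorem sgM_apply (b : Fin m → ℕ) (ρ : ZMod ℓ) (w : Fin m → Fin m → ZMod ℓ)
    (c : Fin m → ZMod ℓ) : sgM b ρ w c = sg b ρ w c := rfl

theorem sg_congr {b : Fin m → ℕ} {ρ : ZMod ℓ} {w w' : Fin m → Fin m → ZMod ℓ}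
    (h : ∀ i k, i ≠ k → w i k = w' i k) (c : Fin m → ZMod ℓ) : sg b ρ w c = sg b ρ w' c := by
  funext i
  unfold sg
  congr 2
  refine Finset.sum_congr rfl fun k _ => ?_
  by_cases hik : i = k
  · subst hik
    simp
  · rw [h i k hik]

theorem sgM_congr {b : Fin m → ℕ} {ρ : ZMod ℓ} {w w' : Fin m → Fin m → ZMod ℓ}
    (h : ∀ i k, i ≠ k → w i k = w' i k) : sgM b ρ w = sgM b ρ w' :=
  LinearMap.ext fun c => sg_congr h c

theorem sg_sub (b : Fin m → ℕ) (ρ : ZMod ℓ) (w : Fin m → Fin m → ZMod ℓ)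
    (c c' : Fin m → ZMod ℓ) (i : Fin m) : sg b ρ w c i - sg b ρ w c' i = sg b ρ w (c - c') i := by
  have h := congrFun (map_sub (sgM b ρ w) c c') i
  simp only [sgM_apply, Pi.sub_apply] at h
  exact h.symm

/-- the weighted sum of a valuation vector vanishes -/
theorem sg_mem {b : Fin m → ℕ} {ρ : ZMod ℓ} {w : Fin m → Fin m → ZMod ℓ}
    (hw : ∀ i k, w i k = w k i) {c : Fin m → ZMod ℓ} (hc : c ∈ Vs ℓ b) :
    sg b ρ w c ∈ Vs ℓ b := by
  have hc' : ∑ i, (b i : ZMod ℓ) * c i = 0 := hc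
  change ∑ i, (b i : ZMod ℓ) * sg b ρ w c i = 0
  have h1 : ∀ i, (b i : ZMod ℓ) * sg b ρ w c i = ρ * ((b i : ZMod ℓ) * c i) +
      (∑ k, (b k : ZMod ℓ))⁻¹ * ∑ k, ((b i : ZMod ℓ) * (b k : ZMod ℓ) * w i k * c i -
        (b i : ZMod ℓ) * (b k : ZMod ℓ) * w i k * c k) := by
    intro i
    unfold sg
    rw [mul_add, mul_left_comm _ ρ, mul_left_comm _ (_)⁻¹, Finset.mul_sum]
    congr 2
    exact Finset.sum_congr rfl fun k _ => by ring
  rw [Finset.sum_congr rfl fun i _ => h1 i, Finset.sum_add_distrib, ← Finset.mul_sum,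
    ← Finset.mul_sum, hc', mul_zero, zero_add]
  have h2 : ∑ i, ∑ k, ((b i : ZMod ℓ) * (b k : ZMod ℓ) * w i k * c i -
        (b i : ZMod ℓ) * (b k : ZMod ℓ) * w i k * c k) = 0 := by
    simp only [Finset.sum_sub_distrib]
    rw [sub_eq_zero]
    conv_rhs => rw [Finset.sum_comm]
    refine Finset.sum_congr rfl fun i _ => Finset.sum_congr rfl fun k _ => ?_
    rw [hw k i]
    ring
  rw [h2, mul_zero]

theorem sgM_mem {b : Fin m → ℕ} {ρ : ZMod ℓ} {w : Fin m → Fin m → ZMod ℓ}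
    (hw : ∀ i k, w i k = w k i) : ∀ c ∈ Vs ℓ b, sgM b ρ w c ∈ Vs ℓ b := fun _ hc => sg_mem hw hc

/-- the operator on the space of torsion classes -/
noncomputable def sgV (b : Fin m → ℕ) (ρ : ZMod ℓ) (w : Fin m → Fin m → ZMod ℓ)
    (hw : ∀ i k, w i k = w k i) : Module.End (ZMod ℓ) (Vs ℓ b) :=
  (sgM b ρ w).restrict (sgM_mem hw)

theorem sgV_apply (b : Fin m → ℕ) (ρ : ZMod ℓ) (w : Fin m → Fin m → ZMod ℓ)
    (hw : ∀ i k, w i k = w k i) (c : Vs ℓ b) : (sgV b ρ w hw c : Fin m → ZMod ℓ) = sg b ρ w c :=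
  rfl

theorem sgV_pow {b : Fin m → ℕ} {ρ : ZMod ℓ} {w : Fin m → Fin m → ZMod ℓ}
    (hw : ∀ i k, w i k = w k i) (h : sgM b ρ w ^ ℓ = sgM b ρ w) :
    sgV b ρ w hw ^ ℓ = sgV b ρ w hw := by
  unfold sgV
  rw [Module.End.pow_restrict]
  refine LinearMap.ext fun c => Subtype.ext ?_
  rw [LinearMap.coe_restrict_apply, LinearMap.coe_restrict_apply, h]

/-- the condition depends only on the residue class of the valuation -/
theorem Tame.congr {b : Fin m → ℕ} {w : Fin m → Fin m → ℤ} {e e' : ℤ} (h : Tame ℓ b w e)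
    (he : (e : ZMod ℓ) = (e' : ZMod ℓ)) : Tame ℓ b w e' where
  ball := h.ball
  ram := by
    intro j i hji hdvd
    refine h.ram j i hji ?_
    rw [← ZMod.intCast_zmod_eq_zero_iff_dvd] at hdvd ⊢
    push_cast at hdvd ⊢
    rw [he]
    exact hdvd

theorem Tame.not_dvd_sum {b : Fin m → ℕ} {w : Fin m → Fin m → ℤ} {e : ℤ} (h : Tame ℓ b w e)
    (hm : 0 < m) : ¬ ℓ ∣ ∑ k, b k :=
  h.ball Finset.univ ⟨0, hm⟩ (Finset.mem_univ _) fun _ _ k hk => absurd (Finset.mem_univ k) hk

theorem Tame.not_dvd {b : Fin m → ℕ} {w : Fin m → Fin m → ℤ} {e : ℤ} (h : Tame ℓ b w e)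
    (i : Fin m) : ¬ ℓ ∣ b i := by
  have h1 := h.ball {i} i (Finset.mem_singleton_self i) fun j hj _ _ hne =>
    absurd (Finset.mem_singleton.1 hj) hne
  rwa [Finset.sum_singleton] at h1

/-- places without coincidences -/
theorem tame_good (hℓ : ℓ.Prime) {b : Fin m → ℕ} (hB : ¬ ℓ ∣ ∑ k, b k) (hb : ∀ i, ¬ ℓ ∣ b i)
    {w : Fin m → Fin m → ℤ} (hw : ∀ i k, i ≠ k → w i k = 0) {e : ℤ} (he : ¬ (ℓ : ℤ) ∣ e) :
    Tame ℓ b w e where
  ball := by
    intro s j hj h
    by_cases h1 : s = {j}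
    · rw [h1, Finset.sum_singleton]
      exact hb j
    · by_cases h2 : s = Finset.univ
      · rw [h2]
        exact hB
      · exfalso
        obtain ⟨i, hi, hij⟩ : ∃ i ∈ s, i ≠ j := by
          by_contra h3
          push Not at h3
          exact h1 (Finset.eq_singleton_iff_unique_mem.2 ⟨hj, h3⟩)
        obtain ⟨k, hk⟩ : ∃ k, k ∉ s := by
          by_contra h3
          push Not at h3
          exact h2 (Finset.eq_univ_iff_forall.2 h3)
        have h3 := h i hi k hk hij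
        rw [hw j k fun h => hk (h ▸ hj), hw j i hij.symm] at h3
        exact lt_irrefl _ h3
  ram := by
    intro j i hji hdvd
    have h1 : lev b w j i = 0 := by
      refine Finset.sum_eq_zero fun k _ => ?_
      split_ifs with h
      · rw [hw j i hji, mul_zero]
      · rw [hw j i hji, hw j k fun h' => h h'.symm, min_self, mul_zero]
    rw [h1, add_zero] at hdvd
    rcases (Nat.prime_iff_prime_int.1 hℓ).dvd_or_dvd hdvd with h2 | h2
    · exact he h2
    · refine hB ?_
      rw [← Int.natCast_dvd_natCast]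
      push_cast
      exact h2

end operators

section basics

variable {F : Type u} [Field F] {ℓ m : ℕ}

theorem wP_symm (P : F[X]) (a : Fin m → F[X]) (i k : Fin m) : wP P a i k = wP P a k i := by
  unfold wP
  rw [← neg_sub (a k) (a i), multiplicity_neg]

theorem wI_symm (a : Fin m → F[X]) (i k : Fin m) : wI a i k = wI a k i := by
  unfold wI
  rw [← neg_sub (a k) (a i), natDegree_neg]

theorem ultra_wP {P : F[X]} (hP : Irreducible P) {a : Fin m → F[X]} (ha : Function.Injective a) :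
    Ultra (wP P a) where
  symm := wP_symm P a
  tri := by
    intro i j k hij hjk hik
    unfold wP
    have h1 : a i - a j ≠ 0 := sub_ne_zero.2 fun h => hij (ha h)
    have h2 : a j - a k ≠ 0 := sub_ne_zero.2 fun h => hjk (ha h)
    have h3 : a i - a k ≠ 0 := sub_ne_zero.2 fun h => hik (ha h)
    have hf : ∀ x : F[X], x ≠ 0 → FiniteMultiplicity P x := fun x hx =>
      FiniteMultiplicity.of_prime_left hP.prime hx
    have h4 : P ^ min (multiplicity P (a i - a j)) (multiplicity P (a j - a k)) ∣ a i - a k := by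
      have h5 := dvd_add
        ((pow_dvd_pow P (min_le_left (multiplicity P (a i - a j)) _)).trans
          (pow_multiplicity_dvd P (a i - a j)))
        ((pow_dvd_pow P (min_le_right _ (multiplicity P (a j - a k)))).trans
          (pow_multiplicity_dvd P (a j - a k)))
      rwa [sub_add_sub_cancel] at h5
    have h5 := (hf _ h3).le_multiplicity_of_pow_dvd h4
    exact_mod_cast h5

theorem ultra_wI {a : Fin m → F[X]} : Ultra (wI a) where
  symm := wI_symm a
  tri := by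
    intro i j k _ _ _
    unfold wI
    have h1 : (a i - a k).natDegree ≤ max (a i - a j).natDegree (a j - a k).natDegree := by
      rw [← sub_add_sub_cancel (a i) (a j) (a k)]
      exact natDegree_add_le _ _
    rcases le_max_iff.1 h1 with h2 | h2
    · exact (min_le_left _ _).trans (neg_le_neg (by exact_mod_cast h2))
    · exact (min_le_right _ _).trans (neg_le_neg (by exact_mod_cast h2))

theorem vl_eq_wP {P : F[X]} {a : Fin m → F[X]} (ha : Function.Injective a) {i k : Fin m}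
    (hik : i ≠ k) : vl ℓ P (a i - a k) = (wP P a i k : ZMod ℓ) := by
  rw [vl, if_neg (sub_ne_zero.2 fun h => hik (ha h)), wP, Int.cast_natCast]

theorem vl_symm (P : F[X]) (a : Fin m → F[X]) (i k : Fin m) :
    vl ℓ P (a i - a k) = vl ℓ P (a k - a i) := by
  have h : ∀ h : F[X], vl ℓ P (-h) = vl ℓ P h := by
    intro h
    unfold vl
    rw [multiplicity_neg]
    by_cases h0 : h = 0
    · rw [if_pos h0, if_pos (by rw [h0, neg_zero])]
    · rw [if_neg h0, if_neg (neg_ne_zero.2 h0)]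
  rw [← h, neg_sub]

variable {ι : Type} [Fintype ι] {pr : ι → F[X]}

theorem monic_twl (hfam : Fam pr) (ρ : ι → ZMod ℓ) : (twl pr ρ).Monic :=
  monic_prod_of_monic _ _ fun b _ => (hfam.monic b).pow _

theorem twl_ne_zero (hfam : Fam pr) (ρ : ι → ZMod ℓ) : twl pr ρ ≠ 0 := (monic_twl hfam ρ).ne_zero

theorem natDegree_twl [NeZero ℓ] (hfam : Fam pr) (ρ : ι → ZMod ℓ) :
    ((twl pr ρ).natDegree : ZMod ℓ) = ∑ b, ρ b * ((pr b).natDegree : ZMod ℓ) := by
  rw [twl, natDegree_prod_of_monic _ _ fun b _ => (hfam.monic b).pow _, Nat.cast_sum]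
  refine Finset.sum_congr rfl fun b _ => ?_
  rw [(hfam.monic b).natDegree_pow, Nat.cast_mul, ZMod.natCast_val, ZMod.cast_id', id]

end basics

end MP72e2e6
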