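import Pool.Agent.Lib.MP_72e2e6_nt.SuStmt
import Pool.Agent.Lib.MP_72e2e6_nt.TwSqF

/-! # MP_72e2e6_nt, SuPwF: `ℓ`-th powers in the completion at a finite place -/

set_option autoImplicit false

namespace MP72e2e6

open Polynomial IsDedekindDomain WithZero

universe u

theorem supwf_pow_sub {M : Type*} [Field M] (w : Valuation M (WithZero (Multiplicative ℤ)))
    (x y : M) (hx : w x ≤ 1) (hy : w y ≤ 1) (hxy : w (x - y) < 1) (n : ℕ) :
    w (x ^ n - y ^ n) < 1 := by
  induction n with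
  | zero => simp
  | succ n ih =>
    have e : x ^ (n + 1) - y ^ (n + 1) = x ^ n * (x - y) + (x ^ n - y ^ n) * y := by ring
    rw [e]
    refine (Valuation.map_add _ _ _).trans_lt (max_lt ?_ ?_)
    · rw [map_mul, map_pow, mul_comm]
      exact mul_lt_one_of_lt_of_le hxy (pow_le_one₀ zero_le hx)
    · rw [map_mul]
      exact mul_lt_one_of_lt_of_le ih hy

section gen

variable {F : Type u} [Field F] {K : Type u} [Field K] [Algebra F[X] K] [IsFractionRing F[X] K]
  (v : HeightOneSpectrum F[X]) (w : Valuation K (WithZero (Multiplicative ℤ)))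
  (hw : w = v.valuation K)

include hw in
theorem supwf_key (P : F[X]) (hv : v.asIdeal = Ideal.span {P}) (h₁ : F[X]) (hP : ¬ P ∣ h₁)
    (ℓ : ℕ) (hℓ : ℓ ≠ 0) (z : w.Completion)
    (hz : algebraMap K w.Completion (algebraMap F[X] K h₁) = z ^ ℓ) :
    ∃ y, AdjoinRoot.mk P h₁ = y ^ ℓ := by
  have hmem : h₁ ∉ v.asIdeal := by
    rw [hv, Ideal.mem_span_singleton]
    exact hP
  have hv1 : w (algebraMap F[X] K h₁) = 1 := by
    rw [hw]
    exact (HeightOneSpectrum.valuation_eq_one_iff_notMem v).2 hmem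
  have hz1 : Valued.v z = 1 := by
    have e1 := congrArg (Valued.v : w.Completion → _) hz
    rw [valued_comp, hv1, map_pow] at e1
    exact (pow_eq_one_iff.1 e1.symm).resolve_right hℓ
  obtain ⟨x, hx⟩ := twsqf_near _ z
  have hx1 : w x ≤ 1 := by
    rw [← valued_comp]
    have e : algebraMap K w.Completion x = z - (z - algebraMap K w.Completion x) := by ring
    rw [e]
    exact (Valuation.map_sub _ _ _).trans (max_le hz1.le hx.le)
  obtain ⟨a, ha⟩ := HeightOneSpectrum.exists_valuation_sub_lt_of_integer v (hw ▸ hx1) 1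
  rw [Units.val_one, ← hw] at ha
  set A := algebraMap K w.Completion (algebraMap F[X] K a) with hA
  have hzA : Valued.v (z - A) < 1 := by
    have e : z - A = (z - algebraMap K w.Completion x) -
        (A - algebraMap K w.Completion x) := by ring
    rw [e]
    refine (Valuation.map_sub _ _ _).trans_lt (max_lt hx ?_)
    rw [hA, ← map_sub, valued_comp]
    exact ha
  have hA1 : Valued.v A ≤ 1 := by
    rw [hA, valued_comp, hw]
    exact HeightOneSpectrum.valuation_le_one v a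
  have h2 : w (algebraMap F[X] K (h₁ - a ^ ℓ)) < 1 := by
    rw [← valued_comp, map_sub, map_sub, hz, map_pow, map_pow, ← hA]
    exact supwf_pow_sub _ _ _ hz1.le hA1 hzA ℓ
  rw [hw] at h2
  have h3 : h₁ - a ^ ℓ ∈ v.asIdeal := (HeightOneSpectrum.valuation_lt_one_iff_mem v _).1 h2
  rw [hv, Ideal.mem_span_singleton] at h3
  have h4 : AdjoinRoot.mk P h₁ = AdjoinRoot.mk P (a ^ ℓ) := AdjoinRoot.mk_eq_mk.2 h3
  rw [h4, map_pow]
  exact ⟨_, rfl⟩

include hw in
theorem supwf_gen (P : F[X]) (hPm : P.Monic) (hPi : Irreducible P)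
    (hv : v.asIdeal = Ideal.span {P}) (ℓ : ℕ) (hℓ : ℓ ≠ 0) (h : F[X]) (hh : h ≠ 0)
    (z' : w.Completion)
    (hz2 : algebraMap K w.Completion (algebraMap F[X] K h) = z' ^ ℓ) :
    ℓ ∣ multiplicity P h ∧ ∃ h₁ : F[X], h /ₘ P ^ multiplicity P h = h₁ ∧ ¬ P ∣ h₁ ∧
      ∃ y, AdjoinRoot.mk P h₁ = y ^ ℓ := by
  have hfin : FiniteMultiplicity P h := FiniteMultiplicity.of_not_isUnit hPi.not_isUnit hh
  obtain ⟨h₁, hh1, hP1⟩ := hfin.exists_eq_pow_mul_and_not_dvd
  set k := multiplicity P h with hk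
  have hP0 : P ≠ 0 := hPi.ne_zero
  have hvP : w (algebraMap F[X] K P) = exp (-1 : ℤ) := by
    rw [hw, HeightOneSpectrum.valuation_of_algebraMap,
      HeightOneSpectrum.intValuation_singleton v hP0 hv]
  have hmem : h₁ ∉ v.asIdeal := by
    rw [hv, Ideal.mem_span_singleton]
    exact hP1
  have hv1 : w (algebraMap F[X] K h₁) = 1 := by
    rw [hw]
    exact (HeightOneSpectrum.valuation_eq_one_iff_notMem v).2 hmem
  have hval : Valued.v z' ^ ℓ = exp (-1 : ℤ) ^ k := by
    rw [← map_pow, ← hz2, valued_comp, hh1, map_mul, map_mul, map_pow, map_pow, hvP, hv1, mul_one]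
  have hlog : ℓ * log (Valued.v z') = -(k : ℤ) := by
    have e := congrArg log hval
    rw [log_pow, log_pow, log_exp] at e
    simpa using e
  obtain ⟨j, hj⟩ : ℓ ∣ k := by
    have h5 : (ℓ : ℤ) ∣ (k : ℤ) := ⟨-log (Valued.v z'), by rw [mul_neg, hlog, neg_neg]⟩
    exact Int.natCast_dvd_natCast.1 h5
  have hPc : algebraMap K w.Completion (algebraMap F[X] K P) ≠ 0 := by
    intro h0
    have e := valued_comp w (algebraMap F[X] K P)
    rw [h0, map_zero, hvP] at e
    exact exp_ne_zero e.symm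
  have hsq : ∃ y, AdjoinRoot.mk P h₁ = y ^ ℓ := by
    refine supwf_key v w hw P hv h₁ hP1 ℓ hℓ
      (z' / (algebraMap K w.Completion (algebraMap F[X] K P)) ^ j) ?_
    have e : algebraMap K w.Completion (algebraMap F[X] K h) =
        (algebraMap K w.Completion (algebraMap F[X] K P)) ^ (j * ℓ) *
          algebraMap K w.Completion (algebraMap F[X] K h₁) := by
      conv_lhs => rw [hh1]
      rw [map_mul, map_mul, map_pow, map_pow, hj, mul_comm j ℓ]
    rw [div_pow, ← hz2, ← pow_mul, e, mul_div_cancel_left₀]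
    exact pow_ne_zero _ hPc
  refine ⟨⟨j, hj⟩, h₁, ?_, hP1, hsq⟩
  conv_lhs => rw [hh1]
  exact Polynomial.mul_divByMonic_cancel_left _ (hPm.pow _)

end gen

theorem tSuPwF (hSuSy : StmtSuSy.{u}) : StmtSuPwF.{u} := by
  intro F _ _ ℓ hℓ hdvd χ hχ v P hPm hPi hv h hh z hz
  have e : algebraMap (RatFunc F) (v.valuation (RatFunc F)).Completion
      (algebraMap F[X] (RatFunc F) h) = z.toCompletion ^ ℓ := by
    have e := congrArg (HeightOneSpectrum.adicCompletion.equiv (RatFunc F) v) hz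
    rw [map_pow] at e
    exact e
  obtain ⟨h1, h₁, h2, h3, h4⟩ := supwf_gen v (v.valuation (RatFunc F)) rfl P hPm hPi hv ℓ
    hℓ.ne_zero h hh z.toCompletion e
  obtain ⟨-, -, hs⟩ := hSuSy F ℓ hℓ hdvd χ hχ
  obtain ⟨-, hs2, -, -, -⟩ := hs P hPm hPi
  obtain ⟨-, -, h5, h6⟩ := hs2 h₁ h3
  refine ⟨?_, ?_⟩
  · unfold vl
    rw [if_neg hh]
    exact (ZMod.natCast_eq_zero_iff _ _).2 h1
  · unfold syl
    rw [h2, ← h5]
    exact h6.2 h4

end MP72e2e6
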