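import Pool.Agent.Lib.MP_72e2e6_nt.TwSpec

/-!
# MP_72e2e6_nt: twists of superelliptic curves, definitions

THEOREM (file SuMain, later). `ℓ` an odd prime, `F` finite of order `q ≡ 1` modulo `ℓ`,
`a_1, ..., a_m ∈ F[t]` distinct, `b_1, ..., b_m` exponents. Assume that the branch points are tame
at every place (`Tame` below; this is automatic if no nonempty sum of exponents is divisible by
`ℓ`). Then there are `D ∈ F[t]` and an infinite set `𝓡` of monic irreducible polynomials such that
for every finite subset `I` of `𝓡` and all exponents `1 ≤ e_R < ℓ`, `E = D * ∏_{R ∈ I} R ^ e_R`,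
the Selmer group of `y ^ ℓ = ∏ (x - E a_i) ^ b_i` over `F(t)` is the torsion group.

Every module proves one of the propositions `StmtSuX` of SuStmt.lean.
-/

namespace MP72e2e6

open Polynomial IsDedekindDomain

universe u

section symbols

variable {F : Type u} [Field F]

/-- A logarithm modulo `ℓ` on the nonzero elements of `F`: additive, the kernel consists of the
`ℓ`-th powers, surjective. -/
structure IsLg (ℓ : ℕ) (χ : F → ZMod ℓ) : Prop where
  mul : ∀ x y, x ≠ 0 → y ≠ 0 → χ (x * y) = χ x + χ y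
  ker : ∀ x, x ≠ 0 → (χ x = 0 ↔ ∃ z, x = z ^ ℓ)
  surj : ∀ t, ∃ x, x ≠ 0 ∧ χ x = t

open Classical in
/-- The multiplicity of `P` in `h`, modulo `ℓ` (and `0` for `h = 0`). -/
noncomputable def vl (ℓ : ℕ) (P h : F[X]) : ZMod ℓ :=
  if h = 0 then 0 else (multiplicity P h : ZMod ℓ)

/-- The norm of `h` modulo `P`. -/
noncomputable def nm (P h : F[X]) : F := Algebra.norm F (AdjoinRoot.mk P h)

/-- For a monic irreducible `P`: the `ℓ`-th power symbol modulo `P` of the prime to `P` part of `h`,
written additively. -/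
noncomputable def syl {ℓ : ℕ} (χ : F → ZMod ℓ) (P h : F[X]) : ZMod ℓ :=
  χ (nm P (h /ₘ P ^ multiplicity P h))

open Classical in
/-- The `ℓ`-th power character `h ↦ ζ ^ (s * symbol)` modulo `P`, with value `0` if `P ∣ h`. -/
noncomputable def lgc {ℓ : ℕ} [NeZero ℓ] (χ : F → ZMod ℓ) (s : ZMod ℓ) (P h : F[X]) : ℂ :=
  if P ∣ h then 0 else ZMod.stdAddChar (s * χ (nm P h))

end symbols

section operators

variable {ℓ m : ℕ}

/-- The valuation vector of the torsion class `c` at a place: `ρ` is the valuation of `E`,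
`w i k` the one of `a i - a k`. -/
noncomputable def sg (b : Fin m → ℕ) (ρ : ZMod ℓ) (w : Fin m → Fin m → ZMod ℓ)
    (c : Fin m → ZMod ℓ) (i : Fin m) : ZMod ℓ :=
  ρ * c i + (∑ k, (b k : ZMod ℓ))⁻¹ * ∑ k, (b k : ZMod ℓ) * w i k * (c i - c k)

/-- `sg` as a linear map. -/
noncomputable def sgM (b : Fin m → ℕ) (ρ : ZMod ℓ) (w : Fin m → Fin m → ZMod ℓ) :
    Module.End (ZMod ℓ) (Fin m → ZMod ℓ) where
  toFun := sg b ρ w
  map_add' x y := by
    ext i
    simp only [sg, Pi.add_apply]
    have h : ∀ k, (b k : ZMod ℓ) * w i k * (x i + y i - (x k + y k)) =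
        (b k : ZMod ℓ) * w i k * (x i - x k) + (b k : ZMod ℓ) * w i k * (y i - y k) :=
      fun k => by ring
    simp only [h, Finset.sum_add_distrib]
    ring
  map_smul' t x := by
    ext i
    simp only [sg, Pi.smul_apply, smul_eq_mul, RingHom.id_apply]
    have h : ∀ k, (b k : ZMod ℓ) * w i k * (t * x i - t * x k) =
        t * ((b k : ZMod ℓ) * w i k * (x i - x k)) := fun k => by ring
    simp only [h, ← Finset.mul_sum]
    ring

/-- The space of the torsion classes. -/
def Vs (ℓ : ℕ) {m : ℕ} (b : Fin m → ℕ) : Submodule (ZMod ℓ) (Fin m → ZMod ℓ) where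
  carrier := {c | ∑ i, (b i : ZMod ℓ) * c i = 0}
  add_mem' := by
    intro x y hx hy
    simp only [Set.mem_ofPred_eq, Pi.add_apply, mul_add, Finset.sum_add_distrib] at *
    rw [hx, hy, add_zero]
  zero_mem' := by simp
  smul_mem' := by
    intro t x hx
    simp only [Set.mem_ofPred_eq, Pi.smul_apply, smul_eq_mul] at *
    have h : ∀ i, (b i : ZMod ℓ) * (t * x i) = t * ((b i : ZMod ℓ) * x i) := fun i => by ring
    simp only [h, ← Finset.mul_sum, hx, mul_zero]

/-- `w i k` is the valuation of `a i - a k` (for `i ≠ k`). -/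
structure Ultra (w : Fin m → Fin m → ℤ) : Prop where
  symm : ∀ i k, w i k = w k i
  tri : ∀ i j k, i ≠ j → j ≠ k → i ≠ k → min (w i j) (w j k) ≤ w i k

/-- `∑ k, b k * min (w j k) (w j i)`, where `w j j` is infinite. -/
def lev (b : Fin m → ℕ) (w : Fin m → Fin m → ℤ) (j i : Fin m) : ℤ :=
  ∑ k, (b k : ℤ) * (if k = j then w j i else min (w j k) (w j i))

/-- The branch points `E a i` are tame and totally ramified at a place; `e` is the valuation of `E`
and `w i k` the one of `a i - a k`. No ball `s` has `∑_{k ∈ s} b k` divisible by `ℓ`, and no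
component of the special fibre is unramified. -/
structure Tame (ℓ : ℕ) (b : Fin m → ℕ) (w : Fin m → Fin m → ℤ) (e : ℤ) : Prop where
  ball : ∀ (s : Finset (Fin m)) (j : Fin m), j ∈ s →
    (∀ i ∈ s, ∀ k, k ∉ s → i ≠ j → w j k < w j i) → ¬ ℓ ∣ ∑ k ∈ s, b k
  ram : ∀ j i, j ≠ i → ¬ (ℓ : ℤ) ∣ e * (∑ k, (b k : ℤ)) + lev b w j i

end operators

section equations

variable {F : Type u} [Field F] {ℓ m : ℕ}

/-- The valuations of the differences at `P`. -/
noncomputable def wP (P : F[X]) (a : Fin m → F[X]) (i k : Fin m) : ℤ :=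
  (multiplicity P (a i - a k) : ℤ)

/-- The valuations of the differences at infinity. -/
noncomputable def wI (a : Fin m → F[X]) (i k : Fin m) : ℤ := -((a i - a k).natDegree : ℤ)

/-- The classes of the torsion points. -/
noncomputable def tal (b : Fin m → ℕ) (E : F[X]) (a : Fin m → F[X]) (c : Fin m → ZMod ℓ)
    (i : Fin m) : F[X] :=
  ∏ k, (E * (a i - a k)) ^ ((b k : ZMod ℓ) * (c i - c k) * (∑ k, (b k : ZMod ℓ))⁻¹).val

/-- The twisting polynomial. -/
noncomputable def twl {ι : Type} [Fintype ι] (pr : ι → F[X]) (ρ : ι → ZMod ℓ) : F[X] :=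
  ∏ β, pr β ^ (ρ β).val

/-- The equations satisfied by a Selmer element: `x β` is the valuation vector and `c β` the torsion
class at the prime `pr β`, normalised at infinity. -/
structure EqL {ι : Type} [Fintype ι] (χ : F → ZMod ℓ) (b : Fin m → ℕ) (a : Fin m → F[X])
    (pr : ι → F[X]) (ρ : ι → ZMod ℓ) (x c : ι → Fin m → ZMod ℓ) : Prop where
  mem : ∀ β, ∑ i, (b i : ZMod ℓ) * c β i = 0
  val : ∀ β i, x β i = sg b (ρ β) (fun i k => vl ℓ (pr β) (a i - a k)) (c β) i
  inf : ∀ i, ∑ β, ((pr β).natDegree : ZMod ℓ) * x β i = 0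
  sym : ∀ β i, ∑ β', syl χ (pr β) (pr β') *
      (x β' i - sg b (ρ β') (fun i k => vl ℓ (pr β') (a i - a k)) (c β) i) =
    ((pr β).natDegree : ZMod ℓ) * sg b 0 (fun i k => χ (a i - a k).leadingCoeff) (c β) i

end equations

section counting

variable (F : Type u) [Field F] [Finite F]

variable {F}

/-- Completely multiplicative functions on monic polynomials whose values are `0` and `ℓ`-th roots
of unity. -/
structure IsChL (ℓ : ℕ) (φ : F[X] → ℂ) : Prop where
  one : φ 1 = 1
  mul : ∀ g h : F[X], g.Monic → h.Monic → φ (g * h) = φ g * φ h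
  val : ∀ h : F[X], φ h = 0 ∨ φ h ^ ℓ = 1

/-- The sum over the monic polynomials of degree `n`. -/
noncomputable def avC (φ : F[X] → ℂ) (n : ℕ) : ℂ := ∑ h ∈ mon F n, φ h

/-- The sum `∑ deg P * φ (P ^ j)` over the monic irreducible `P` and `j` with `j * deg P = k`. -/
noncomputable def psiC (φ : F[X] → ℂ) (k : ℕ) : ℂ :=
  ∑ d ∈ k.divisors, ∑ P ∈ irr F d, (d : ℂ) * φ P ^ (k / d)

end counting

end MP72e2e6
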