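import Pool.Agent.Lib.MP_72e2e6_nt.GMain

/-!
# The Selmer groups of the curves `y ^ ℓ = (x + P) * ∏ (x - c i) ^ (b i)`

Let `ℓ` be a prime and `F` a finite field which contains the `ℓ`-th roots of unity. Let
`c 0, ..., c (m - 1)` be distinct elements of `F` and `b 0, ..., b (m - 1)` integers prime to `ℓ`
such that `1 + ∑ b i` is prime to `ℓ`.

Let `K` be a global function field with field of constants `F`, let `∞` be a place of `K` of
degree `e` prime to `ℓ` and let `R` be the ring of the functions regular outside `∞`. In the
theorem `R` is a Dedekind domain with `Rˣ = Fˣ`, `K` is its fraction field and `w` is a valuation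
of `K` with `w (x ^ (q ^ e) - x) < 1` for all `x` with `w x ≤ 1`, where `q` is the order of `F`.
Let `P` be an element of `R` whose order of pole at `∞` is not divisible by `ℓ`.

The group `placesSelmer` consists of the tuples `(d 0, ..., d m)` of elements of `K` which are,
at every place of `K`, values of a divisor of the curve at the functions `x + P`, `x - c i`
(up to `ℓ`-th powers), and for which `d 0 * ∏ d (i + 1) ^ (b i)` is an `ℓ`-th power. It contains
the group `torsionGroup` generated by the values of the ramification points `(-P, 0)`, `(c i, 0)`.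

Modulo `ℓ`-th powers the torsion group has order `ℓ ^ m`, and the order of the Selmer group
divides `h ^ m * ℓ ^ r`, where `h` is the order of the `ℓ`-torsion of the class group of `R` and
`r` is the sum over `i` of the number of primes at which the order of `P + c i` is not divisible
by `ℓ` (all primes dividing `P + c i` if `ℓ` divides `b i + 1`). If `ℓ` does not divide the class
number of `R` and there is at most one such prime for every `i`, the two groups are equal.

For `R = F[t]` and irreducible `P + c i` the two groups stay equal over all the layers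
`F(t ^ (1 / r ^ n))` of the Kummer tower of an odd prime `r ≠ ℓ`, if the norms
`(-1) ^ deg P * (P(0) + c i) / lc P` of the roots of the `P + c i` are not `r`-th powers in `F`.
-/

namespace MP72e2e6.SuperellipticSelmer

open Polynomial IsDedekindDomain MP72e2e6

universe u₁ u₂ u₃

open Classical in
theorem result (F : Type u₁) [Field F] [Finite F] (ℓ : ℕ) (hℓ : ℓ.Prime)
    (hF : ℓ ∣ Nat.card F - 1) (m : ℕ) (c : Fin m → F) (hc : Function.Injective c)
    (b : Fin m → ℕ) (hb : ∀ i, Nat.Coprime (b i) ℓ) (hB : Nat.Coprime (1 + ∑ i, b i) ℓ) :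
    (∀ (R : Type u₂) (K : Type u₃) [CommRing R] [IsDedekindDomain R] [Field K] [Algebra R K]
        [IsFractionRing R K] [Algebra F R] [Algebra F K] [IsScalarTower F R K]
        (w : Valuation K (WithZero (Multiplicative ℤ))) (e : ℕ) (P : R),
        (∀ u : Rˣ, ∃ α : F, algebraMap F R α = u) →
        ¬ ℓ ∣ e → (∀ x : K, w x ≤ 1 → w (x ^ Nat.card F ^ e - x) < 1) →
        1 < w (algebraMap R K P) → ¬ (ℓ : ℤ) ∣ WithZero.log (w (algebraMap R K P)) →
        torsionGroup ℓ (branch c (algebraMap R K P)) (expo b) ≤
            placesSelmer R w ℓ (branch c (algebraMap R K P)) (expo b) ∧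
          (powGroup ℓ K (m + 1)).relIndex
            (torsionGroup ℓ (branch c (algebraMap R K P)) (expo b)) = ℓ ^ m ∧
          (powGroup ℓ K (m + 1)).relIndex
            (placesSelmer R w ℓ (branch c (algebraMap R K P)) (expo b)) ∣
            Nat.card (powMonoidHom ℓ : ClassGroup R →* ClassGroup R).ker ^ m *
              ℓ ^ (∑ i : Fin m, (badPrimes ℓ (P + algebraMap F R (c i)) (b i)).ncard) ∧
          (Nat.Coprime (Nat.card (ClassGroup R)) ℓ →
            (∀ i, (badPrimes ℓ (P + algebraMap F R (c i)) (b i)).Subsingleton) →
            placesSelmer R w ℓ (branch c (algebraMap R K P)) (expo b) =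
              torsionGroup ℓ (branch c (algebraMap R K P)) (expo b))) ∧
      ∀ P : F[X], ¬ ℓ ∣ P.natDegree → (∀ i, Irreducible (P + C (c i))) →
        ∀ r : ℕ, r.Prime → r ≠ 2 → r ≠ ℓ →
          (∀ (i : Fin m) (x : F),
            x ^ r * P.leadingCoeff ≠ (-1) ^ P.natDegree * (P.coeff 0 + c i)) →
          ∀ n : ℕ,
            placesSelmer F[X] (RatFunc.inftyValuation F) ℓ
                (branch c (algebraMap F[X] (RatFunc F) (P.comp (X ^ (r ^ n))))) (expo b) =
              torsionGroup ℓ
                (branch c (algebraMap F[X] (RatFunc F) (P.comp (X ^ (r ^ n))))) (expo b) := by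
  refine ⟨?_, fun P hP hirr r hr hr2 hrℓ hN n =>
    placesSelmer_tower hℓ hF hc hb hB hP hirr hr hr2 hrℓ hN n⟩
  intro R K _ _ _ _ _ _ _ _ w e P hunits he hw hP1 hP
  exact ⟨torsionGroup_le_placesSelmer hℓ hc hb hP1,
    relIndex_torsionGroup_gen hℓ hc hb hB hP1 hP,
    relIndex_placesSelmer hunits hℓ hF he hw hc hb hB hP1 hP,
    fun hcl hone => placesSelmer_eq hunits hcl hℓ hF he hw hc hb hB hP1 hP hone⟩

end MP72e2e6.SuperellipticSelmer
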