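import Pool.Agent.Lib.MP_72e2e6_nt.SuAll
import Pool.Agent.Lib.MP_72e2e6_nt.TwAll

/-!
# Twists of superelliptic and hyperelliptic curves with trivial Selmer groups

Let `ℓ` be a prime, `F` a finite field which contains the `ℓ`-th roots of unity,
`a 0, ..., a (m - 1)` distinct polynomials over `F` and `b 0, ..., b (m - 1)` exponents. For a
polynomial `E ≠ 0` let `J_E` be the Jacobian of `y ^ ℓ = ∏ (x - E a i) ^ b i` over `F(t)`, a twist
of the Jacobian of `y ^ ℓ = ∏ (x - a i) ^ b i`.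

`Tower ℓ a b` says: there are `D ≠ 0` and an infinite set `𝓡` of monic irreducible polynomials such
that for all finite subsets `I` of `𝓡` and all exponents `1 ≤ e R < ℓ`, `E = D * ∏_{R ∈ I} R ^ e R`,
the explicit Selmer group `placesSelmer` of `J_E` for the isogeny `1 - ζ` is the group
`torsionGroup` of the classes of the ramification points, which has order `ℓ ^ (m - 1)` modulo
`ℓ`-th powers. So the rank is zero and the Tate-Shafarevich group has no element of order `ℓ`.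

The theorem says: `Tower ℓ a b` holds
(1) if `ℓ` is odd and no nonempty sum of the exponents is divisible by `ℓ`, for arbitrary distinct
`a i`;
(2) more generally if `ℓ` is odd and the branch points are tame at all places (`Tame`);
(3) if the `a i - a j` have the same degree and are coprime for different pairs, and either `ℓ` is
odd and does not divide the `b i`, `b i + b j` (`i ≠ j`) and `∑ b i`, or `ℓ = 2`, `m ≥ 3` is odd and
all `b i` are `1` (quadratic twists of the hyperelliptic curve `y ^ 2 = ∏ (x - a i)`); here `m` and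
the genus are arbitrary.
-/

namespace Pool.Agent.Lib.MP_72e2e6_nt.SuperellipticTwists

open Polynomial IsDedekindDomain MP72e2e6

universe u

open Classical in
/-- A tower of twists of `y ^ ℓ = ∏ (x - a i) ^ b i` whose Selmer groups are torsion groups. -/
def Tower {F : Type u} [Field F] (ℓ : ℕ) {m : ℕ} (a : Fin m → F[X]) (b : Fin m → ℕ) : Prop :=
  ∃ (D : F[X]) (𝓡 : Set F[X]), D ≠ 0 ∧ 𝓡.Infinite ∧ (∀ R ∈ 𝓡, R.Monic ∧ Irreducible R) ∧
    ∀ I : Finset F[X], (I : Set F[X]) ⊆ 𝓡 → ∀ e : F[X] → ℕ, (∀ R ∈ I, 1 ≤ e R ∧ e R < ℓ) →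
      ∀ E : F[X], E = D * ∏ R ∈ I, R ^ e R →
        placesSelmer F[X] (RatFunc.inftyValuation F) ℓ
            (fun i => algebraMap F[X] (RatFunc F) (E * a i)) b =
          torsionGroup ℓ (fun i => algebraMap F[X] (RatFunc F) (E * a i)) b ∧
        (powGroup ℓ (RatFunc F) m).relIndex
          (torsionGroup ℓ (fun i => algebraMap F[X] (RatFunc F) (E * a i)) b) = ℓ ^ (m - 1)

theorem result (F : Type u) [Field F] [Finite F] (ℓ : ℕ) (hℓ : ℓ.Prime)
    (hq : ℓ ∣ Nat.card F - 1) (m : ℕ) (hm : 0 < m) (a : Fin m → F[X])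
    (ha : Function.Injective a) (b : Fin m → ℕ) :
    (ℓ ≠ 2 → (∀ s : Finset (Fin m), s.Nonempty → ¬ ℓ ∣ ∑ k ∈ s, b k) → Tower ℓ a b) ∧
    (ℓ ≠ 2 → (∀ P : F[X], P.Monic → Irreducible P → ∃ e : ℤ, Tame ℓ b (wP P a) e) →
      (∃ e : ℤ, Tame ℓ b (wI a) e) → Tower ℓ a b) ∧
    (∀ n : ℕ, (∀ i j, i ≠ j → (a i - a j).degree = n) →
      (∀ i j k l, i ≠ j → k ≠ l → s(i, j) ≠ s(k, l) → IsCoprime (a i - a j) (a k - a l)) →
      ((ℓ ≠ 2 ∧ (∀ i, ¬ ℓ ∣ b i) ∧ (∀ i j, i ≠ j → ¬ ℓ ∣ b i + b j) ∧ ¬ ℓ ∣ ∑ k, b k) ∨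
        (ℓ = 2 ∧ Odd m ∧ 3 ≤ m ∧ ∀ i, b i = 1)) → Tower ℓ a b) := by
  have key : ℓ ≠ 2 → (∀ P : F[X], P.Monic → Irreducible P → ∃ e : ℤ, Tame ℓ b (wP P a) e) →
      (∃ e : ℤ, Tame ℓ b (wI a) e) → Tower ℓ a b := by
    intro hℓ2 hP hI
    obtain ⟨D, 𝓡, h0, h1, h2, h3⟩ := superelliptic_twists hℓ hℓ2 hq hm ha hP hI
    refine ⟨D, 𝓡, h0, h1, h2, ?_⟩
    rintro I hI e he E rfl
    exact h3 I hI e he
  refine ⟨fun hℓ2 h => ?_, key, fun n h1 h2 h => ?_⟩
  · obtain ⟨h1, h2⟩ := tame_free hℓ ha h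
    exact key hℓ2 h1 h2
  · rcases h with ⟨hℓ2, h3, h4, h5⟩ | ⟨rfl, hodd, hm3, hb1⟩
    · obtain ⟨h6, h7⟩ := tame_of_coprime hℓ hℓ2 h1 h2 h3 h4 h5
      exact key hℓ2 h6 h7
    · have hb : b = fun _ => 1 := funext hb1
      subst hb
      have hF : Odd (Nat.card F) := by
        have h3 : 1 < Nat.card F := Finite.one_lt_card
        obtain ⟨k, hk⟩ := hq
        exact ⟨k, by omega⟩
      have hpts : Pts m n a := ⟨hodd, hm3, h1, fun i j k l hij hkl h3 h4 =>
        h2 i j k l hij hkl fun h => (Sym2.eq_iff.1 h).elim h3 h4⟩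
      obtain ⟨D, 𝓡, h3, h4, h5⟩ := twist_towers hF hpts
      refine ⟨D, 𝓡, ?_, h3, h4, ?_⟩
      · have h6 := (h5 ∅ (by simp)).1
        rw [Finset.prod_empty, mul_one] at h6
        exact h6.ne_zero
      · rintro I hI e he E rfl
        have h6 : ∏ R ∈ I, R ^ e R = ∏ R ∈ I, R := by
          refine Finset.prod_congr rfl fun R hR => ?_
          obtain ⟨h7, h8⟩ := he R hR
          have h9 : e R = 1 := by omega
          rw [h9, pow_one]
        rw [h6]
        exact (h5 I hI).2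

end Pool.Agent.Lib.MP_72e2e6_nt.SuperellipticTwists
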