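import Pool.Agent.Lib.MP_72e2e6_nt.Place

/-!
# MP_72e2e6_nt: properties of the torsion group
-/

namespace MP72e2e6

open Polynomial IsDedekindDomain WithZero

section general

variable {K : Type*} [Field K] {n ℓ : ℕ} {a : Fin n → K} {b : Fin n → ℕ}

theorem algebraMap_torsionTuple (M : Type*) [Field M] [Algebra K M] (j i : Fin n) :
    algebraMap K M (torsionTuple a b j i) =
      torsionTuple (fun i => algebraMap K M (a i)) b j i := by
  rw [torsionTuple, torsionTuple]
  split_ifs with h
  · rw [map_inv₀, map_prod]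
    simp
  · simp

/-- the torsion group lies in every local image -/
theorem baseChange_mem_localImage (hℓ : ℓ.Prime) (ha : Function.Injective a)
    (hb : ∀ i, Nat.Coprime (b i) ℓ) (M : Type*) [Field M] [Algebra K M] {d : Fin n → Kˣ}
    (hd : d ∈ torsionGroup ℓ a b) : baseChange M d ∈ localImage ℓ a b M := by
  classical
  suffices hle : torsionGroup ℓ a b ≤ (localImage ℓ a b M).comap (baseChange M) from hle hd
  clear hd d
  rw [torsionGroup, Subgroup.closure_le]
  rintro d (⟨z, rfl⟩ | ⟨j, hj⟩)
  · refine Subgroup.subset_closure (Or.inl ⟨baseChange M z, ?_⟩)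
    rw [map_pow]
  · have hb0 : ∀ i, b i ≠ 0 := by
      intro i h
      have h1 := hb i
      rw [h, Nat.coprime_zero_left] at h1
      exact hℓ.one_lt.ne' h1
    let A : Fin n → M := fun i => algebraMap K M (a i)
    have hA : Function.Injective A := fun i k h => ha ((algebraMap K M).injective h)
    set k := ∑ i, b i with hk
    have hbk : b j ≤ k := Finset.single_le_sum (f := b) (fun i _ => Nat.zero_le _)
      (Finset.mem_univ j)
    have hkpos : 0 < k := lt_of_lt_of_le (Nat.pos_of_ne_zero (hb0 j)) hbk
    set N := k * ℓ - b j with hN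
    have h2k : 2 * k ≤ k * ℓ := by
      rw [mul_comm]
      exact Nat.mul_le_mul_left k hℓ.two_le
    have hNk : N + b j = k * ℓ := by omega
    have hNlt : k < N + b j := by omega
    let R : M[X] := ∏ i ∈ Finset.univ.erase j, (X - C (A i)) ^ (b i)
    have hRdeg : R.natDegree = ∑ i ∈ Finset.univ.erase j, b i := by
      rw [Polynomial.natDegree_prod_of_monic _ _ (fun i _ => (monic_X_sub_C _).pow _)]
      refine Finset.sum_congr rfl fun i _ => ?_
      rw [(monic_X_sub_C _).natDegree_pow, natDegree_X_sub_C, mul_one]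
    have hRlt : R.natDegree < N := by
      rw [hRdeg]
      have h1 := Finset.add_sum_erase Finset.univ b (Finset.mem_univ j)
      omega
    let u : M[X] := (X - C (A j)) ^ N - R
    have hpdeg : ((X - C (A j)) ^ N).natDegree = N := by
      rw [(monic_X_sub_C _).natDegree_pow, natDegree_X_sub_C, mul_one]
    have hudeg : u.natDegree = N := by
      have h1 : u.natDegree = ((X - C (A j)) ^ N).natDegree :=
        Polynomial.natDegree_sub_eq_left_of_natDegree_lt (by rw [hpdeg]; exact hRlt)
      rw [h1, hpdeg]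
    have hum : u.Monic := by
      refine ((monic_X_sub_C _).pow N).sub_of_left ?_
      refine Polynomial.degree_lt_degree ?_
      rw [hpdeg]
      exact hRlt
    have hdvd : u ∣ curvePoly a b M - ((X - C (A j)) ^ k) ^ ℓ := by
      refine ⟨-(X - C (A j)) ^ (b j), ?_⟩
      have h1 : curvePoly a b M = (X - C (A j)) ^ (b j) * R := by
        rw [curvePoly]
        exact (Finset.mul_prod_erase Finset.univ (fun i => (X - C (A i)) ^ (b i))
          (Finset.mem_univ j)).symm
      rw [h1, ← pow_mul, ← hNk, pow_add]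
      simp only [u]
      ring
    have heval : ∀ i, i ≠ j → u.eval (A i) = (A i - A j) ^ N := by
      intro i hi
      have h1 : R.eval (A i) = 0 := by
        rw [Polynomial.eval_prod]
        refine Finset.prod_eq_zero (Finset.mem_erase.2 ⟨hi, Finset.mem_univ i⟩) ?_
        rw [eval_pow, eval_sub, eval_X, eval_C, sub_self, zero_pow (hb0 i)]
      simp only [u]
      rw [eval_sub, h1, eval_pow, eval_sub, eval_X, eval_C, sub_zero]
    have hNpos : N ≠ 0 := by omega
    have hevalj : u.eval (A j) = -∏ i ∈ Finset.univ.erase j, (A j - A i) ^ (b i) := by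
      simp only [u, R]
      rw [eval_sub, eval_pow, eval_sub, eval_X, eval_C, sub_self, zero_pow hNpos, zero_sub,
        Polynomial.eval_prod]
      simp
    have hprod0 : ∏ i ∈ Finset.univ.erase j, (A j - A i) ^ (b i) ≠ 0 :=
      Finset.prod_ne_zero_iff.2 fun i hi => pow_ne_zero _
        (sub_ne_zero.2 fun h => Finset.ne_of_mem_erase hi (hA h).symm)
    have hu0 : ∀ i, (-1) ^ u.natDegree * u.eval (A i) ≠ 0 := by
      intro i
      refine mul_ne_zero (pow_ne_zero _ (by simp)) ?_
      by_cases hi : i = j
      · rw [hi, hevalj]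
        exact neg_ne_zero.2 hprod0
      · rw [heval i hi]
        exact pow_ne_zero _ (sub_ne_zero.2 fun h => hi (hA h))
    let e : Fin n → Mˣ := fun i => Units.mk0 _ (hu0 i)
    have he : e ∈ localImage ℓ a b M :=
      Subgroup.subset_closure (Or.inr ⟨u, _, hum, hdvd, fun i => rfl⟩)
    have hz0 : ∀ i, (if i = j then (-1) ^ (N + 1) else (A j - A i) ^ k : M) ≠ 0 := by
      intro i
      split_ifs with hi
      · exact pow_ne_zero _ (by simp)
      · exact pow_ne_zero _ (sub_ne_zero.2 fun h => hi (hA h).symm)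
    let z : Fin n → Mˣ := fun i => Units.mk0 _ (hz0 i)
    have hz : z ^ ℓ ∈ localImage ℓ a b M := Subgroup.subset_closure (Or.inl ⟨z, rfl⟩)
    have hkey : baseChange M d * e = z ^ ℓ := by
      ext i
      simp only [Pi.mul_apply, Pi.pow_apply, Units.val_mul, Units.val_pow_eq_pow_val, e, z,
        Units.val_mk0, hudeg]
      have h1 : ((baseChange M d i : Mˣ) : M) = torsionTuple A b j i := by
        have h2 : ((baseChange M d i : Mˣ) : M) = algebraMap K M (d i : K) := rfl
        rw [h2, hj i, algebraMap_torsionTuple]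
      rw [h1, torsionTuple]
      by_cases hi : i = j
      · subst hi
        rw [if_pos rfl, if_pos rfl, hevalj]
        have h3 : ((-1 : M) ^ (N + 1)) ^ ℓ = (-1) ^ (N + 1) := by
          rcases hℓ.eq_two_or_odd' with h2 | hodd
          · have hodd : Odd (b i) := by
              have h4 := hb i
              rw [h2, Nat.coprime_two_right] at h4
              exact h4
            have heven : Even (N + 1) := by
              rw [h2] at hNk
              have h5 : Even (N + b i) := hNk ▸ (even_two.mul_left k)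
              have h6 : ¬ Even N := fun h7 =>
                (Nat.not_even_iff_odd.2 hodd) ((Nat.even_add.1 h5).1 h7)
              exact Nat.even_add_one.2 h6
            rw [heven.neg_one_pow, one_pow]
          · rw [← pow_mul, mul_comm, pow_mul, hodd.neg_one_pow]
        rw [h3, pow_succ]
        field_simp
      · rw [if_neg hi, if_neg hi, heval i hi, ← mul_pow, ← pow_mul, ← hNk, pow_add, mul_comm]
        congr 2
        ring
    have hfin : baseChange M d = z ^ ℓ * e⁻¹ := by rw [← hkey, mul_inv_cancel_right]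
    change baseChange M d ∈ localImage ℓ a b M
    rw [hfin]
    exact Subgroup.mul_mem _ hz (Subgroup.inv_mem _ he)

/-- the torsion group over an extension -/
theorem exists_of_mem_torsionGroup (ha : Function.Injective a) (M : Type*) [Field M] [Algebra K M]
    {x : Fin n → Mˣ} (hx : x ∈ torsionGroup ℓ (fun i => algebraMap K M (a i)) b) :
    ∃ t ∈ torsionGroup ℓ a b, ∃ z : Fin n → Mˣ, x = baseChange M t * z ^ ℓ := by
  have hle : torsionGroup ℓ (fun i => algebraMap K M (a i)) b ≤
      (torsionGroup ℓ a b).map (baseChange M) ⊔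
        (powMonoidHom ℓ : (Fin n → Mˣ) →* (Fin n → Mˣ)).range := by
    rw [torsionGroup, Subgroup.closure_le]
    rintro d (⟨z, rfl⟩ | ⟨j, hj⟩)
    · exact Subgroup.mem_sup_right ⟨z, rfl⟩
    · refine Subgroup.mem_sup_left ⟨fun i => Units.mk0 _ (torsionTuple_ne_zero ha b j i),
        Subgroup.subset_closure (Or.inr ⟨j, fun i => rfl⟩), ?_⟩
      ext i
      rw [hj i, ← algebraMap_torsionTuple]
      rfl
  obtain ⟨y, ⟨t, ht, rfl⟩, w, ⟨z, rfl⟩, rfl⟩ := Subgroup.mem_sup.1 (hle hx)
  exact ⟨t, ht, z, rfl⟩

/-- the product relation on the torsion group -/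
theorem exists_prod_eq_pow_torsion (ha : Function.Injective a) {t : Fin n → Kˣ}
    (ht : t ∈ torsionGroup ℓ a b) : ∃ z : K, ∏ i, (t i : K) ^ (b i) = z ^ ℓ := by
  let φ : (Fin n → Kˣ) →* Kˣ :=
    { toFun := fun d => ∏ i, (d i) ^ (b i)
      map_one' := by simp
      map_mul' := by intro x y; simp [mul_pow, Finset.prod_mul_distrib] }
  have hle : torsionGroup ℓ a b ≤ ((powMonoidHom ℓ : Kˣ →* Kˣ).range).comap φ := by
    rw [torsionGroup, Subgroup.closure_le]
    rintro d (⟨z, rfl⟩ | ⟨j, hj⟩)
    · exact ⟨φ z, by rw [powMonoidHom_apply, map_pow]⟩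
    · refine ⟨1, ?_⟩
      rw [map_one]
      ext
      have h1 : ((φ d : Kˣ) : K) = ∏ i, (d i : K) ^ (b i) := by simp [φ]
      rw [h1, Units.val_one, ← Finset.mul_prod_erase _ _ (Finset.mem_univ j), hj j, torsionTuple,
        if_pos rfl]
      have h2 : ∏ i ∈ Finset.univ.erase j, (d i : K) ^ (b i) =
          (∏ i ∈ Finset.univ.erase j, (a j - a i) ^ (b i)) ^ (b j) := by
        rw [← Finset.prod_pow]
        refine Finset.prod_congr rfl fun i hi => ?_
        rw [hj i, torsionTuple, if_neg (Finset.ne_of_mem_erase hi)]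
        ring
      rw [h2, inv_pow, inv_mul_cancel₀]
      exact pow_ne_zero _ (Finset.prod_ne_zero_iff.2 fun i hi => pow_ne_zero _
        (sub_ne_zero.2 fun h => Finset.ne_of_mem_erase hi (ha h).symm))
  obtain ⟨z, hz⟩ := hle ht
  refine ⟨z, ?_⟩
  have h1 := congrArg (fun u : Kˣ => (u : K)) hz
  simp only [powMonoidHom_apply, Units.val_pow_eq_pow_val, φ] at h1
  rw [h1]
  simp

/-- valuations of the torsion group -/
theorem log_dvd_of_mem_torsionGroup (v : Valuation K (WithZero (Multiplicative ℤ))) {i0 : Fin n}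
    (hi0 : ∀ k, k ≠ i0 → v (a i0 - a k) = 1) {t : Fin n → Kˣ} (ht : t ∈ torsionGroup ℓ a b) :
    (ℓ : ℤ) ∣ WithZero.log (v (t i0 : K)) := by
  have hv0 : ∀ x : Kˣ, v (x : K) ≠ 0 := fun x => (Valuation.ne_zero_iff v).2 x.ne_zero
  let H : Subgroup (Fin n → Kˣ) :=
    { carrier := {t | (ℓ : ℤ) ∣ WithZero.log (v (t i0 : K))}
      mul_mem' := by
        intro x y hx hy
        simp only [Set.mem_ofPred_eq, Pi.mul_apply, Units.val_mul, map_mul] at hx hy ⊢
        rw [WithZero.log_mul (hv0 _) (hv0 _)]
        exact dvd_add hx hy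
      one_mem' := by simp
      inv_mem' := by
        intro x hx
        simp only [Set.mem_ofPred_eq, Pi.inv_apply, Units.val_inv_eq_inv_val, map_inv₀,
          WithZero.log_inv, dvd_neg] at hx ⊢
        exact hx }
  have hle : torsionGroup ℓ a b ≤ H := by
    rw [torsionGroup, Subgroup.closure_le]
    rintro d (⟨z, rfl⟩ | ⟨j, hj⟩)
    · change (ℓ : ℤ) ∣ WithZero.log (v (((z ^ ℓ) i0 : Kˣ) : K))
      rw [Pi.pow_apply, Units.val_pow_eq_pow_val, map_pow, WithZero.log_pow, nsmul_eq_mul]
      exact dvd_mul_right _ _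
    · change (ℓ : ℤ) ∣ WithZero.log (v (d i0 : K))
      have h1 : v (d i0 : K) = 1 := by
        rw [hj i0, torsionTuple]
        split_ifs with h
        · subst h
          rw [map_inv₀, map_prod, Finset.prod_eq_one, inv_one]
          intro k hk
          rw [map_pow, hi0 k (Finset.ne_of_mem_erase hk), one_pow]
        · rw [map_pow, Valuation.map_sub_swap, hi0 j (Ne.symm h), one_pow]
      rw [h1, WithZero.log_one]
      exact dvd_zero _
  exact hle ht

end general

end MP72e2e6
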