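import Pool.Agent.Lib.MP_72e2e6_nt.TwStmt

/-!
# MP_72e2e6_nt: assembly, the network
-/

namespace MP72e2e6

open Polynomial IsDedekindDomain

/-- The auxiliary primes: one for every place `v`, two for every edge `t`, and the pendants. -/
abbrev Kap (V T I : Type) := V ⊕ (T ⊕ (T ⊕ I))

/-- Adjacency of the auxiliary primes to the places; `none` is the place `R_0`. -/
def adA {V T I : Type} [DecidableEq V] (ch par : T → V) : Kap V T I → Option V → ZMod 2
  | Sum.inl v, w => if w = some v then 1 else 0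
  | Sum.inr (Sum.inl t), w => if w = some (ch t) then 1 else 0
  | Sum.inr (Sum.inr (Sum.inl t)), w => if w = some (par t) then 1 else 0
  | Sum.inr (Sum.inr (Sum.inr _)), w => if w = none then 1 else 0

/-- Adjacency of the auxiliary primes to infinity. -/
def adE {V T I : Type} : Kap V T I → ZMod 2
  | Sum.inl _ => 1
  | Sum.inr _ => 0

/-- Adjacency between the auxiliary primes. -/
def adL {V T I : Type} [DecidableEq T] : Kap V T I → Kap V T I → ZMod 2
  | Sum.inr (Sum.inl t), Sum.inr (Sum.inr (Sum.inl t')) => if t = t' then 1 else 0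
  | Sum.inr (Sum.inr (Sum.inl t)), Sum.inr (Sum.inl t') => if t = t' then 1 else 0
  | _, _ => 0

theorem adL_symm {V T I : Type} [DecidableEq T] (k k' : Kap V T I) : adL k k' = adL k' k := by
  rcases k with v | t | t | r <;> rcases k' with v' | t' | t' | r' <;> simp [adL, eq_comm]

theorem net_zero (hLin : StmtTwLin) (hLA : StmtTwLinA) (hLB : StmtTwLinB) {m n : ℕ}
    {V T I : Type} [Fintype V] [DecidableEq V] [Fintype T] [DecidableEq T] [Fintype I]
    {ν : V → Fin m → ZMod 2} {ρ D : V → ZMod 2} {s : V → V → ZMod 2} {s₁ s₀ : V → ZMod 2}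
    {L : V → (Fin m → ZMod 2) → Fin m → ZMod 2} {L₀ : (Fin m → ZMod 2) → Fin m → ZMod 2}
    {ε : ZMod 2} {ch par : T → V} {rt : V → V} {rk : V → ℕ}
    (hC : Comb n ν D s ε ch par rt rk) (hip : ∀ v, ip (ν v) (ν v) = 0)
    (hL : ∀ v, L v 0 = 0 ∧ ip (ν v) (L v (ν v)) = 0) (hL0 : L₀ 0 = 0)
    (hch : ∀ t, ρ (ch t) = 1)
    (hρ : (Even n ∧ ∀ v, ρ v = 1) ∨
      ((∀ j k : Fin m, j ≠ k → ∃ v, ν v = Pi.single j 1 + Pi.single k 1) ∧
        ∃ r, ν r ≠ 0 ∧ rt r = r ∧ ρ r = 1 + ε * ((m.choose 2 * n : ℕ) : ZMod 2) ∧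
          ∀ v, v ≠ r → ρ v = 1))
    {x c : V → Fin m → ZMod 2} {x₀ : Fin m → ZMod 2} {X : Kap V T I → Fin m → ZMod 2}
    (hN : NetSys ν ρ D s s₁ s₀ L L₀ (adA ch par) adE adL x c x₀ X) :
    (∀ v, x v = 0) ∧ x₀ = 0 ∧ ∀ k, X k = 0 := by
  have hE : ∑ k : Kap V T I, (adE k : ZMod 2) • X k = ∑ w, X (Sum.inl w) := by
    simp [Fintype.sum_sum_type, adE]
  have hsplit : ∀ (v : V) (Y : Kap V T I → Fin m → ZMod 2),
      ∑ k : Kap V T I, adA ch par k (some v) • Y k = Y (Sum.inl v) +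
        ∑ t ∈ Finset.univ.filter (fun t => ch t = v), Y (Sum.inr (Sum.inl t)) +
        ∑ t ∈ Finset.univ.filter (fun t => par t = v), Y (Sum.inr (Sum.inr (Sum.inl t))) := by
    intro v Y
    simp only [Fintype.sum_sum_type, adA, Option.some.injEq, reduceCtorEq, if_false, zero_smul,
      Finset.sum_const_zero, add_zero, ite_smul, one_smul, Finset.sum_ite_eq, Finset.mem_univ,
      if_true, Finset.sum_filter]
    rw [add_assoc]
    congr 1
    congr 1
    · exact Finset.sum_congr rfl fun t _ => by simp only [eq_comm]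
    · exact Finset.sum_congr rfl fun t _ => by simp only [eq_comm]
  have hker : ∀ k : Kap V T I, ∑ v, adA ch par k (some v) •
      (x v + ρ v • X k + ip (ν v) (X k) • ν v) + adA ch par k none • (x₀ + X k) +
      ∑ k', adL k k' • (X k' + X k) + adE k • X k = 0 := hN.ker
  have h4 : ∀ v, (x v + ρ v • X (Sum.inl v) + ip (ν v) (X (Sum.inl v)) • ν v) +
      X (Sum.inl v) = 0 := by
    intro v
    have h := hker (Sum.inl v)
    simpa [adA, adL, adE, Fintype.sum_sum_type, -smul_add] using h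
  have h5 : ∀ t, (x (ch t) + ρ (ch t) • X (Sum.inr (Sum.inl t)) +
      ip (ν (ch t)) (X (Sum.inr (Sum.inl t))) • ν (ch t)) +
      (X (Sum.inr (Sum.inr (Sum.inl t))) + X (Sum.inr (Sum.inl t))) = 0 := by
    intro t
    have h := hker (Sum.inr (Sum.inl t))
    simpa [adA, adL, adE, Fintype.sum_sum_type, -smul_add] using h
  have h6 : ∀ t, (x (par t) + ρ (par t) • X (Sum.inr (Sum.inr (Sum.inl t))) +
      ip (ν (par t)) (X (Sum.inr (Sum.inr (Sum.inl t)))) • ν (par t)) +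
      (X (Sum.inr (Sum.inl t)) + X (Sum.inr (Sum.inr (Sum.inl t)))) = 0 := by
    intro t
    have h := hker (Sum.inr (Sum.inr (Sum.inl t)))
    simpa [adA, adL, adE, Fintype.sum_sum_type, -smul_add] using h
  have h7 : ∀ r, x₀ + X (Sum.inr (Sum.inr (Sum.inr r))) = 0 := by
    intro r
    have h := hker (Sum.inr (Sum.inr (Sum.inr r)))
    simpa [adA, adL, adE, Fintype.sum_sum_type, -smul_add] using h
  have h8 : ∑ w, s₀ w • (x w + ρ w • x₀) + L₀ x₀ +
      ∑ r, (X (Sum.inr (Sum.inr (Sum.inr r))) + x₀) + ∑ w, X (Sum.inl w) = 0 := by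
    have h := hN.pl0
    rw [hE] at h
    have h1 : ∑ k : Kap V T I, adA ch par k none • (X k + x₀) =
        ∑ r, (X (Sum.inr (Sum.inr (Sum.inr r))) + x₀) := by
      simp [adA, Fintype.sum_sum_type]
    rwa [h1] at h
  obtain ⟨l, α, β, hS, hx, hfin⟩ := hLin m V T I ν ρ D ch par s s₁ s₀ L L₀ hip hL hL0
    (fun t => ⟨hch t, (hC.edge t).1⟩) x c (fun v => X (Sum.inl v)) x₀
    (fun t => X (Sum.inr (Sum.inl t))) (fun t => X (Sum.inr (Sum.inr (Sum.inl t))))
    (fun r => X (Sum.inr (Sum.inr (Sum.inr r)))) hN.val hN.spl hN.inf h4 h5 h6 h7 h8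
    (fun v hv => by
      have h := hN.pl v hv
      rw [hE, hsplit v (fun k => X k + c v)] at h
      exact h)
    (fun v hv => by
      have h := hN.pls v hv
      rw [hE, hsplit v X] at h
      exact h)
  have hzero : (∀ v, l v = 0) ∧ ∀ t, α t = 0 := by
    rcases hρ with ⟨hn, hr⟩ | ⟨hall, r, hr, hrt, hρr, hρ'⟩
    · exact hLA m V T n ν ρ D s s₁ s₀ ε ch par rt rk hC hn hr l α β x₀ _ hS
    · exact hLB m V T n ν ρ D s s₁ s₀ ε ch par rt rk hC hall r hr hrt hρr hρ' l α β x₀ _ hS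
  obtain ⟨h1, h2, h3, h4'⟩ := hfin hzero.1 hzero.2
  refine ⟨fun v => (h1 v).1, h2, ?_⟩
  rintro (v | t | t | r)
  · exact (h1 v).2
  · exact (h3 t).1
  · exact (h3 t).2
  · exact h4' r

end MP72e2e6
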