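import Pool.Agent.Lib.MP_72e2e6_nt.TwCore
import Pool.Agent.Lib.MP_72e2e6_nt.TwStmtB

/-!
# MP_72e2e6_nt: assembly, the construction of the network
-/

namespace MP72e2e6

open Polynomial IsDedekindDomain

universe u

section

variable {F : Type u} [Field F] [Finite F]

/-- the bad primes -/
theorem exists_bad {m n : ℕ} {a : Fin m → F[X]} (ha : Pts m n a) :
    ∃ (s : ℕ) (prS : Fin s → F[X]), Fam prS ∧ (∀ i, ∃ j k, j ≠ k ∧ prS i ∣ a j - a k) ∧
      ∀ P : F[X], P.Monic → Irreducible P → ∀ i j, i ≠ j → P ∣ a i - a j → ∃ b, prS b = P := by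
  classical
  let S : Set F[X] := {P | P.Monic ∧ Irreducible P ∧ ∃ i j, i ≠ j ∧ P ∣ a i - a j}
  have hfin : S.Finite := by
    refine ((Finset.range (n + 1)).biUnion (mon F)).finite_toSet.subset ?_
    rintro P ⟨hP, -, i, j, hij, hdvd⟩
    simp only [Finset.coe_biUnion, Finset.coe_range, Set.mem_Iio, Set.mem_iUnion,
      Finset.mem_coe, mem_mon]
    have h0 : a i - a j ≠ 0 := by
      intro h
      have h1 := ha.deg i j hij
      rw [h, degree_zero] at h1
      exact absurd h1 (by simp)
    have h1 : P.natDegree ≤ n := by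
      rw [← natDegree_eq_of_degree_eq_some (ha.deg i j hij)]
      exact natDegree_le_of_dvd hdvd h0
    exact ⟨P.natDegree, by omega, hP, rfl⟩
  let e := hfin.toFinset.equivFin
  refine ⟨hfin.toFinset.card, fun i => (e.symm i).1, ⟨?_, ?_, ?_⟩, ?_, ?_⟩
  · intro i j h
    exact e.symm.injective (Subtype.ext h)
  · exact fun i => (hfin.mem_toFinset.1 (e.symm i).2).1
  · exact fun i => (hfin.mem_toFinset.1 (e.symm i).2).2.1
  · intro i
    obtain ⟨j, k, hjk, hdvd⟩ := (hfin.mem_toFinset.1 (e.symm i).2).2.2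
    exact ⟨j, k, hjk, hdvd⟩
  · intro P hP hPi i j hij hdvd
    exact ⟨e ⟨P, hfin.mem_toFinset.2 ⟨hP, hPi, i, j, hij, hdvd⟩⟩, by simp⟩

theorem zmod_cases (x : ZMod 2) : x = 0 ∨ x = 1 := by
  revert x
  decide

theorem single_add_single_ne {m : ℕ} {j k : Fin m} (hjk : j ≠ k) :
    (Pi.single j 1 + Pi.single k 1 : Fin m → ZMod 2) ≠ 0 := by
  intro h
  have h1 := congrFun h j
  simp [hjk] at h1

theorem ip_self_pair {m : ℕ} {x : Fin m → ZMod 2}
    (h : x = 0 ∨ ∃ j k, j ≠ k ∧ x = Pi.single j 1 + Pi.single k 1) : ip x x = 0 := by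
  rcases h with rfl | ⟨j, k, hjk, rfl⟩
  · simp [ip]
  · have h1 : ∀ y : ZMod 2, y * y = y := by decide
    simp only [ip, h1, Pi.add_apply, Finset.sum_add_distrib]
    simp
    decide

theorem ip_comm {m : ℕ} (x y : Fin m → ZMod 2) : ip x y = ip y x := by
  unfold ip
  exact Finset.sum_congr rfl fun i _ => mul_comm _ _

/-- the sum of the degrees over a class -/
theorem cls_sum (hFac : StmtTwFac.{u}) (hNu : StmtTwNu.{u}) (hF : Odd (Nat.card F)) {m n : ℕ}
    {a : Fin m → F[X]} (ha : Pts m n a) {V : Type} [Fintype V] [DecidableEq V] {pr : V → F[X]}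
    (hfam : Fam pr) (hcov : ∀ P : F[X], P.Monic → Irreducible P → ∀ i j, i ≠ j → P ∣ a i - a j →
      ∃ b, pr b = P) (j k : Fin m) (hjk : j ≠ k) :
    ∑ v ∈ Finset.univ.filter (fun v => nu (pr v) a = Pi.single j 1 + Pi.single k 1),
      ((pr v).natDegree : ZMod 2) = n := by
  classical
  have h0 : a j - a k ≠ 0 := by
    intro h
    have h1 := ha.deg j k hjk
    rw [h, degree_zero] at h1
    exact absurd h1 (by simp)
  have hdeg : (a j - a k).natDegree = n := natDegree_eq_of_degree_eq_some (ha.deg j k hjk)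
  have h1 := (hFac F hF V pr hfam (a j - a k) h0 (fun P hP hPi hne => by
    have h2 : ¬ P ∣ a j - a k := by
      intro h2
      obtain ⟨b, hb⟩ := hcov P hP hPi j k hjk h2
      exact hne b hb
    rw [vp, if_neg h0]
    rw [multiplicity_eq_zero.2 h2, Nat.cast_zero])).2.1
  rw [hdeg] at h1
  rw [h1, Finset.sum_filter]
  refine Finset.sum_congr rfl fun v _ => ?_
  have h2 := (hNu F hF m n a ha (pr v) (hfam.monic v) (hfam.irr v)).2.2.1 j k hjk
  split_ifs with h3
  · rw [h2.2 h3, mul_one]
  · have h4 : vp (pr v) (a j - a k) ≠ 1 := fun h => h3 (h2.1 h)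
    rw [(zmod_cases _).resolve_right h4, mul_zero]

/-- the combinatorial data of a family of primes -/
theorem comb_mk (hSy : StmtTwSy.{u}) (hRec : StmtTwRec.{u}) (hFac : StmtTwFac.{u})
    (hNu : StmtTwNu.{u}) (hF : Odd (Nat.card F)) {m n : ℕ}
    {a : Fin m → F[X]} (ha : Pts m n a) {V T : Type} [Fintype V] [DecidableEq V] [Fintype T]
    {pr : V → F[X]}
    (hfam : Fam pr) (hcov : ∀ P : F[X], P.Monic → Irreducible P → ∀ i j, i ≠ j → P ∣ a i - a j →
      ∃ b, pr b = P) {ch par : T → V} {rt : V → V} {rk : V → ℕ}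
    (adj : ∀ v w, ip (nu (pr v) a) (nu (pr w) a) = 1 → rt v = rt w)
    (chi : Function.Injective ch)
    (edge : ∀ t, ip (nu (pr (ch t)) a) (nu (pr (par t)) a) = 1 ∧ rk (par t) < rk (ch t))
    (cov : ∀ v, nu (pr v) a ≠ 0 → (∃ t, ch t = v) ∨ rt v = v)
    (ncv : ∀ t, rt (ch t) ≠ ch t) (idm : ∀ v, rt (rt v) = rt v) :
    Comb n (fun v => nu (pr v) a) (fun v => ((pr v).natDegree : ZMod 2))
      (fun v w => sy (pr v) (pr w)) (((Nat.card F - 1) / 2 : ℕ) : ZMod 2) ch par rt rk where
  odd := ha.odd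
  three := ha.three
  pair := fun v => (hNu F hF m n a ha (pr v) (hfam.monic v) (hfam.irr v)).1
  cls := cls_sum hFac hNu hF ha hfam hcov
  sym := by
    intro v w hvw
    rw [hRec F hF (pr v) (pr w) (hfam.monic v) (hfam.irr v) (hfam.monic w) (hfam.irr w)
      (fun h => hvw (hfam.inj h))]
    push_cast
    ring
  diag := fun v => ((hSy F hF).2 _ (hfam.monic v) (hfam.irr v)).2.2.2.1
  adj := adj
  chi := chi
  edge := edge
  cov := cov
  ncv := ncv
  idm := idm

/-- a constant with prescribed symbol -/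
theorem exists_cs (hF : Odd (Nat.card F)) (θ : ZMod 2) : ∃ x : F, x ≠ 0 ∧ cs x = θ := by
  have := Fintype.ofFinite F
  rcases zmod_cases θ with rfl | rfl
  · exact ⟨1, one_ne_zero, by rw [cs, if_pos ⟨1, by simp⟩]⟩
  · have h2 : ringChar F ≠ 2 := by
      intro h
      have h3 := FiniteField.even_card_of_char_two h
      rw [Nat.card_eq_fintype_card, ← Nat.not_even_iff_odd, Nat.even_iff] at hF
      exact hF h3
    obtain ⟨x, hx⟩ := FiniteField.exists_nonsquare h2
    refine ⟨x, ?_, by rw [cs, if_neg hx]⟩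
    rintro rfl
    exact hx ⟨0, by simp⟩

end

/-- the restriction of a network to fewer pendants -/
theorem NetPr.restrict {F : Type u} [Field F] {m n : ℕ} {a : Fin m → F[X]} {V T I J : Type}
    [Fintype V] [DecidableEq V] [Fintype T] [DecidableEq T] {ρ : V → ZMod 2} {ch par : T → V}
    {pr : Option V ⊕ Kap V T I → F[X]} (h : NetPr n a ρ ch par pr) (f : J → I)
    (hf : Function.Injective f) :
    NetPr n a ρ ch par (fun b : Option V ⊕ Kap V T J =>
      pr (Sum.map id (Sum.map id (Sum.map id (Sum.map id f))) b)) where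
  fam := ⟨fun b b' hb => by
      have h1 : Function.Injective (Sum.map (id : Option V → Option V)
          (Sum.map (id : V → V) (Sum.map (id : T → T) (Sum.map (id : T → T) f)))) :=
        Function.injective_id.sumMap (Function.injective_id.sumMap
          (Function.injective_id.sumMap (Function.injective_id.sumMap hf)))
      exact h1 (h.fam.inj hb), fun b => h.fam.monic _, fun b => h.fam.irr _⟩
  cov := h.cov
  deg0 := h.deg0
  degk := fun k => h.degk _
  degE := h.degE
  symA := by
    intro k v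
    have h1 := h.symA (Sum.map id (Sum.map id (Sum.map id f)) k) v
    rcases k with w | t | t | r <;> exact h1
  symL := by
    intro k k' hkk
    have h2 : Function.Injective (Sum.map (id : V → V)
          (Sum.map (id : T → T) (Sum.map (id : T → T) f))) :=
        (Function.injective_id.sumMap
          (Function.injective_id.sumMap (Function.injective_id.sumMap hf)))
    have h1 := h.symL (Sum.map id (Sum.map id (Sum.map id f)) k)
      (Sum.map id (Sum.map id (Sum.map id f)) k') (fun h3 => hkk (h2 h3))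
    rcases k with w | t | t | r <;> rcases k' with w' | t' | t' | r' <;> exact h1
  spl := h.spl

open Classical in
/-- the network -/
theorem exists_network (hSy : StmtTwSy.{u}) (hRec : StmtTwRec.{u}) (hFac : StmtTwFac.{u})
    (hNu : StmtTwNu.{u}) (hFor : StmtTwFor) (hPrime : StmtTwPrime.{u}) (hSeq : StmtTwSeq.{u})
    {F : Type u} [Field F] [Finite F] (hF : Odd (Nat.card F)) {m n : ℕ}
    {a : Fin m → F[X]} (ha : Pts m n a) :
    ∃ (s : ℕ) (rt : Option (Fin s) → Option (Fin s)) (par : {v // rt v ≠ v} → Option (Fin s))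
      (rk : Option (Fin s) → ℕ) (ρ : Option (Fin s) → ZMod 2)
      (pr : Option (Option (Fin s)) ⊕ Kap (Option (Fin s)) {v // rt v ≠ v} ℕ → F[X]),
      NetPr n a ρ Subtype.val par pr ∧
      Comb n (fun v => nu (pr (Sum.inl (some v))) a)
        (fun v => ((pr (Sum.inl (some v))).natDegree : ZMod 2))
        (fun v w => sy (pr (Sum.inl (some v))) (pr (Sum.inl (some w))))
        (((Nat.card F - 1) / 2 : ℕ) : ZMod 2) Subtype.val par rt rk ∧
      (∀ t : {v // rt v ≠ v}, ρ t.1 = 1) ∧
      ((Even n ∧ ∀ v, ρ v = 1) ∨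
        ((∀ j k : Fin m, j ≠ k → ∃ v, nu (pr (Sum.inl (some v))) a =
          Pi.single j 1 + Pi.single k 1) ∧
          ∃ r, nu (pr (Sum.inl (some r))) a ≠ 0 ∧ rt r = r ∧
            ρ r = 1 + (((Nat.card F - 1) / 2 : ℕ) : ZMod 2) * ((m.choose 2 * n : ℕ) : ZMod 2) ∧
            ∀ v, v ≠ r → ρ v = 1)) := by
  obtain ⟨s, prS, hfamS, hdvdS, hcovS⟩ := exists_bad ha
  have hm := ha.three
  -- the vectors
  let ν0 : Option (Fin s) → Fin m → ZMod 2 := fun v => v.elim 0 (fun i => nu (prS i) a)
  have hpair : ∀ v, ν0 v = 0 ∨ ∃ j k, j ≠ k ∧ ν0 v = Pi.single j 1 + Pi.single k 1 := by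
    rintro (_ | i)
    · exact Or.inl rfl
    · exact (hNu F hF m n a ha (prS i) (hfamS.monic i) (hfamS.irr i)).1
  have hclsS : ∀ j k : Fin m, j ≠ k → Odd n → ∃ i, nu (prS i) a =
      Pi.single j 1 + Pi.single k 1 := by
    intro j k hjk hn
    have h1 := cls_sum hFac hNu hF ha hfamS hcovS j k hjk
    by_contra hne
    push Not at hne
    rw [Finset.filter_false_of_mem (fun i _ => hne i), Finset.sum_empty] at h1
    have h2 : ((n : ℕ) : ZMod 2) = 1 := (ZMod.natCast_eq_one_iff_odd).2 hn
    rw [h2] at h1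
    exact zero_ne_one h1
  -- the root
  obtain ⟨v₀, hv₀⟩ : ∃ v₀ : Option (Fin s), Odd n → ν0 v₀ ≠ 0 := by
    by_cases hn : Odd n
    · obtain ⟨i, hi⟩ := hclsS ⟨0, by omega⟩ ⟨1, by omega⟩ (by simp) hn
      refine ⟨some i, fun _ => ?_⟩
      change nu (prS i) a ≠ 0
      rw [hi]
      exact single_add_single_ne (by simp)
    · exact ⟨none, fun h => absurd h hn⟩
  obtain ⟨rt, par0, rk, hadj, hidm, hpar, hroot⟩ := hFor (Option (Fin s))
    (fun v w => ip (ν0 v) (ν0 w) = 1) (fun v w h => by rw [ip_comm]; exact h)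
    (fun v h => by rw [ip_self_pair (hpair v)] at h; exact zero_ne_one h) v₀
  let T := {v // rt v ≠ v}
  let ch : T → Option (Fin s) := Subtype.val
  let par : T → Option (Fin s) := fun t => par0 t.1
  let ε : ZMod 2 := (((Nat.card F - 1) / 2 : ℕ) : ZMod 2)
  let ρ : Option (Fin s) → ZMod 2 := fun v =>
    if v = v₀ then 1 + ε * ((m.choose 2 * n : ℕ) : ZMod 2) else 1
  have hρne : ∀ v, v ≠ v₀ → ρ v = 1 := fun v hv => if_neg hv
  have hρeven : Even n → ∀ v, ρ v = 1 := by
    intro hn v
    simp only [ρ]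
    split_ifs
    · have h2 : ((n : ℕ) : ZMod 2) = 0 := (ZMod.natCast_eq_zero_iff_even).2 hn
      rw [Nat.cast_mul, h2, mul_zero, mul_zero, add_zero]
    · rfl
  have hρnone : ρ none = 1 := by
    by_cases h : (none : Option (Fin s)) = v₀
    · refine hρeven ?_ none
      rw [← Nat.not_odd_iff_even]
      intro hn
      exact hv₀ hn (h ▸ rfl)
    · exact hρne _ h
  -- the prime R₀
  obtain ⟨R₀, hR₀m, hR₀i, hR₀ne, hR₀d, -⟩ := hPrime F hF (Fin s) prS hfamS (fun _ => 0) 1
    (Or.inl one_ne_zero)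
  let pr1 : Option (Fin s) → F[X] := fun v => v.elim R₀ prS
  have hfam1 : Fam pr1 := by
    refine ⟨?_, ?_, ?_⟩
    · rintro (_ | i) (_ | j) h
      · rfl
      · exact absurd h.symm (hR₀ne j)
      · exact absurd h (hR₀ne i)
      · exact congrArg some (hfamS.inj h)
    · rintro (_ | i)
      · exact hR₀m
      · exact hfamS.monic i
    · rintro (_ | i)
      · exact hR₀i
      · exact hfamS.irr i
  -- the prescribed symbols of R₁
  let σ : Fin s → Fin m → Fin m → ZMod 2 := fun i j k =>
    ∑ i', ρ (some i') * sy (prS i) (prS i') + sy (prS i) R₀ +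
      (1 + ∑ _t ∈ Finset.univ.filter (fun t => ch t = some i), (1 : ZMod 2) +
        ∑ _t ∈ Finset.univ.filter (fun t => par t = some i), (1 : ZMod 2)) +
      ∑ l ∈ (Finset.univ.erase j).erase k, sy (prS i) (a j - a l)
  have hjkS : ∀ i, ∃ j k, j ≠ k ∧ prS i ∣ a j - a k := hdvdS
  choose J K hJK hJKdvd using hjkS
  let t1 : Option (Fin s) → ZMod 2 := fun v => v.elim 1 (fun i => σ i (J i) (K i))
  let θ : ZMod 2 := (n : ZMod 2) + ∑ i, ρ (some i) * ((prS i).natDegree : ZMod 2)
  obtain ⟨R₁, hR₁m, hR₁i, hR₁ne, hR₁d, hR₁s⟩ := hPrime F hF (Option (Fin s)) pr1 hfam1 t1 θ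
    (Or.inr ⟨none, one_ne_zero⟩)
  let pr0 : Option (Option (Fin s)) → F[X] := fun o => o.elim R₀ (fun v => v.elim R₁ prS)
  have hfam0 : Fam pr0 := by
    refine ⟨?_, ?_, ?_⟩
    · rintro (_ | _ | i) (_ | _ | j) h
      · rfl
      · exact absurd h (hR₁ne none)
      · exact absurd h.symm (hR₀ne j)
      · exact absurd h.symm (hR₁ne none)
      · rfl
      · exact absurd h.symm (hR₁ne (some j))
      · exact absurd h (hR₀ne i)
      · exact absurd h (hR₁ne (some i))
      · exact congrArg (fun x => some (some x)) (hfamS.inj h)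
    · rintro (_ | _ | i)
      · exact hR₀m
      · exact hR₁m
      · exact hfamS.monic i
    · rintro (_ | _ | i)
      · exact hR₀i
      · exact hR₁i
      · exact hfamS.irr i
  have hcovV : ∀ P : F[X], P.Monic → Irreducible P → ∀ i j, i ≠ j → P ∣ a i - a j →
      ∃ v, pr0 (some v) = P := by
    intro P hP hPi i j hij hdvd
    obtain ⟨b, hb⟩ := hcovS P hP hPi i j hij hdvd
    exact ⟨some b, hb⟩
  have hν : ∀ v, nu (pr0 (some v)) a = ν0 v := by
    rintro (_ | i)
    · refine (hNu F hF m n a ha R₁ hR₁m hR₁i).2.1 fun i j hij hdvd => ?_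
      obtain ⟨b, hb⟩ := hcovS R₁ hR₁m hR₁i i j hij hdvd
      exact hR₁ne (some b) hb
    · rfl
  -- the auxiliary primes
  obtain ⟨pk, hfamk, hpk, hsyk, hlk⟩ := hSeq F hF (Option (Option (Fin s)))
    (Kap (Option (Fin s)) T ℕ) pr0 hfam0
    (fun k v => adA ch par k v + adE k * ((pr0 v).natDegree : ZMod 2))
    (by
      rintro (v | t | t | r)
      · refine ⟨none, ?_⟩
        have h1 : ((pr0 none).natDegree : ZMod 2) = 1 := hR₀d
        simp [adA, adE, h1]
      · exact ⟨some (ch t), by simp [adA, adE]⟩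
      · exact ⟨some (par t), by simp [adA, adE]⟩
      · exact ⟨none, by simp [adA, adE]⟩) adL adL_symm
  let pr : Option (Option (Fin s)) ⊕ Kap (Option (Fin s)) T ℕ → F[X] := Sum.elim pr0 pk
  have hfam : Fam pr := by
    refine ⟨?_, ?_, ?_⟩
    · rintro (v | k) (v' | k') h
      · exact congrArg Sum.inl (hfam0.inj h)
      · exact absurd h ((hpk k').2 v)
      · exact absurd h.symm ((hpk k).2 v')
      · exact congrArg Sum.inr (hfamk.inj h)
    · rintro (v | k)
      · exact hfam0.monic v
      · exact hfamk.monic k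
    · rintro (v | k)
      · exact hfam0.irr v
      · exact hfamk.irr k
  have hfamV : Fam (fun v => pr0 (some v)) :=
    ⟨fun v w h => Option.some_injective _ (hfam0.inj h), fun v => hfam0.monic _,
      fun v => hfam0.irr _⟩
  refine ⟨s, rt, par, rk, ρ, pr, ?_, ?_, ?_, ?_⟩
  · refine ⟨hfam, hcovV, hR₀d, fun k => ?_, ?_, ?_, ?_, ?_⟩
    · exact (ZMod.natCast_eq_zero_iff_even).2 (hpk k).1
    · change ∑ v, ρ v * ((pr0 (some v)).natDegree : ZMod 2) + 1 + (n : ZMod 2) = 1
      rw [Fintype.sum_option, hρnone, one_mul]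
      have h1 : ((pr0 (some none)).natDegree : ZMod 2) = θ := hR₁d
      rw [h1]
      simp only [θ, pr0, Option.elim]
      have h2 : ∀ x y : ZMod 2, x + y + y + 1 + x = 1 := by decide
      exact h2 _ _
    · exact fun k v => hsyk k v
    · exact fun k k' h => hlk k k' h
    · intro v hv
      have hvv : v = v₀ := by
        by_contra hne
        rw [hρne v hne] at hv
        exact one_ne_zero hv
      have hn : Odd n := by
        rw [← Nat.not_even_iff_odd]
        intro hn
        rw [hρeven hn v] at hv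
        exact one_ne_zero hv
      have hν0 : ν0 v ≠ 0 := hvv ▸ hv₀ hn
      rcases v with _ | i
      · exact absurd rfl hν0
      have hNi := hNu F hF m n a ha (prS i) (hfamS.monic i) (hfamS.irr i)
      have hvp : vp (prS i) (a (J i) - a (K i)) = 1 := by
        rcases hNi.1 with h | ⟨j, k, hjk, h⟩
        · exact absurd h hν0
        · have h1 : vp (prS i) (a j - a k) = 1 := (hNi.2.2.1 j k hjk).2 h
          -- the pair `j, k` is the pair `J i, K i`
          have h2 : prS i ∣ a j - a k := by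
            by_contra h3
            rw [vp] at h1
            split_ifs at h1
            · exact zero_ne_one h1
            · rw [multiplicity_eq_zero.2 h3, Nat.cast_zero] at h1
              exact zero_ne_one h1
          have h3 : (J i = j ∧ K i = k) ∨ (J i = k ∧ K i = j) := by
            by_contra h4
            rw [not_or] at h4
            have h5 := ha.cop (J i) (K i) j k (hJK i) hjk h4.1 h4.2
            exact (hfamS.irr i).not_isUnit (h5.isUnit_of_dvd' (hJKdvd i) h2)
          refine (hNi.2.2.1 _ _ (hJK i)).2 ?_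
          rcases h3 with ⟨h4, h5⟩ | ⟨h4, h5⟩
          · rw [h4, h5]
            exact h
          · rw [h4, h5, add_comm]
            exact h
      refine ⟨J i, K i, hJK i, hvp, ?_⟩
      change ∑ w, ρ w * sy (prS i) (pr0 (some w)) + sy (prS i) R₀ +
        (1 + ∑ _t ∈ Finset.univ.filter (fun t => ch t = some i), (1 : ZMod 2) +
          ∑ _t ∈ Finset.univ.filter (fun t => par t = some i), (1 : ZMod 2)) +
        ∑ l ∈ (Finset.univ.erase (J i)).erase (K i), sy (prS i) (a (J i) - a l) = 0
      rw [Fintype.sum_option, hρnone, one_mul]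
      have h1 : sy (prS i) (pr0 (some none)) = σ i (J i) (K i) := hR₁s (some i)
      rw [h1]
      have h2 : ∀ x y z w : ZMod 2, (x + y + z + w) + x + y + z + w = 0 := by decide
      exact h2 _ _ _ _
  · refine comb_mk hSy hRec hFac hNu hF ha hfamV hcovV ?_ Subtype.val_injective ?_ ?_ ?_ hidm
    · intro v w h
      rw [hν, hν] at h
      exact hadj v w h
    · intro t
      rw [hν, hν]
      exact hpar t.1 t.2
    · intro v _
      by_cases h : rt v = v
      · exact Or.inr h
      · exact Or.inl ⟨⟨v, h⟩, rfl⟩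
    · exact fun t => t.2
  · intro t
    refine hρne _ fun h => t.2 ?_
    rw [h]
    exact hroot
  · by_cases hn : Even n
    · exact Or.inl ⟨hn, hρeven hn⟩
    · have hn' : Odd n := Nat.not_even_iff_odd.1 hn
      refine Or.inr ⟨fun j k hjk => ?_, v₀, ?_, hroot, if_pos rfl, hρne⟩
      · obtain ⟨i, hi⟩ := hclsS j k hjk hn'
        exact ⟨some i, hi⟩
      · change nu (pr0 (some v₀)) a ≠ 0
        rw [hν]
        exact hv₀ hn'

end MP72e2e6
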