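import Pool.Agent.Lib.MP_72e2e6_nt.TwCon

/-!
# MP_72e2e6_nt: assembly, the twists
-/

namespace MP72e2e6

open Polynomial IsDedekindDomain

universe u

theorem tw_flag {F : Type u} [Field F] {V T I : Type} [Fintype V] [Fintype T] [Fintype I]
    (pr : Option V ⊕ Kap V T I → F[X]) (ρ : V → ZMod 2) (x₀ : F) :
    tw pr (flag ρ) x₀ = C x₀ * ((pr (Sum.inl none) * ∏ v, pr (Sum.inl (some v)) ^ (ρ v).val) *
      ((∏ v, pr (Sum.inr (Sum.inl v))) * ((∏ t, pr (Sum.inr (Sum.inr (Sum.inl t)))) *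
        ((∏ t, pr (Sum.inr (Sum.inr (Sum.inr (Sum.inl t))))) *
          ∏ r, pr (Sum.inr (Sum.inr (Sum.inr (Sum.inr r)))))))) := by
  have h1 : ((1 : ZMod 2)).val = 1 := rfl
  rw [tw, Fintype.prod_sum_type, Fintype.prod_option, Fintype.prod_sum_type,
    Fintype.prod_sum_type, Fintype.prod_sum_type]
  simp only [flag, h1, pow_one]

/-- the twisting polynomial is squarefree -/
theorem squarefree_tw {F : Type u} [Field F] {ι : Type} [Fintype ι] {pr : ι → F[X]}
    (hfam : Fam pr) (ρ : ι → ZMod 2) {x₀ : F} (hx : x₀ ≠ 0) : Squarefree (tw pr ρ x₀) := by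
  have h1 : Squarefree (∏ b, pr b ^ (ρ b).val) := by
    refine Finset.squarefree_prod_of_pairwise_isCoprime ?_ ?_
    · intro b _ b' _ hbb
      have h3 : IsCoprime (pr b) (pr b') → IsRelPrime (pr b ^ (ρ b).val) (pr b' ^ (ρ b').val) :=
        fun h => (h.pow).isRelPrime
      refine h3 (((hfam.irr b).coprime_iff_not_dvd).2 fun hdvd => hbb ?_)
      have h2 : Associated (pr b) (pr b') := (hfam.irr b).associated_of_dvd (hfam.irr b') hdvd
      exact hfam.inj (eq_of_monic_of_associated (hfam.monic b) (hfam.monic b') h2)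
    · intro b _
      rcases zmod_cases (ρ b) with h | h
      · rw [h]
        exact squarefree_one
      · rw [h]
        change Squarefree (pr b ^ 1)
        rw [pow_one]
        exact (hfam.irr b).squarefree
  have h2 : IsUnit (C x₀ : F[X]) := isUnit_C.2 (isUnit_iff_ne_zero.2 hx)
  rw [tw, squarefree_mul_iff]
  exact ⟨h2.isRelPrime_left, h2.squarefree, h1⟩

open Classical in
theorem main_tw (hSy : StmtTwSy.{u}) (hRec : StmtTwRec.{u}) (hFac : StmtTwFac.{u})
    (hNu : StmtTwNu.{u}) (hEq : StmtTwEq.{u}) (hNet : StmtTwNet.{u}) (hLin : StmtTwLin)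
    (hFor : StmtTwFor) (hLA : StmtTwLinA) (hLB : StmtTwLinB) (hPrime : StmtTwPrime.{u})
    (hSeq : StmtTwSeq.{u}) (hIdx : StmtTwIdx.{u})
    {F : Type u} [Field F] [Finite F] (hF : Odd (Nat.card F)) {m n : ℕ}
    {a : Fin m → F[X]} (ha : Pts m n a) :
    ∃ (D : F[X]) (𝓡 : Set F[X]), 𝓡.Infinite ∧ (∀ R ∈ 𝓡, R.Monic ∧ Irreducible R) ∧
      ∀ I : Finset F[X], (I : Set F[X]) ⊆ 𝓡 →
        Squarefree (D * ∏ R ∈ I, R) ∧
        placesSelmer F[X] (RatFunc.inftyValuation F) 2 (pts (D * ∏ R ∈ I, R) a) (fun _ => 1) =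
          torsionGroup 2 (pts (D * ∏ R ∈ I, R) a) (fun _ => 1) ∧
        (powGroup 2 (RatFunc F) m).relIndex
          (torsionGroup 2 (pts (D * ∏ R ∈ I, R) a) (fun _ => 1)) = 2 ^ (m - 1) := by
  obtain ⟨s, rt, par, rk, ρ, pr, hN, hC, hch, hρ⟩ :=
    exists_network hSy hRec hFac hNu hFor hPrime hSeq hF ha
  obtain ⟨x₀, hx₀, hcs⟩ := exists_cs hF ((Fintype.card (Option (Fin s)) : ℕ) : ZMod 2)
  let f : ℕ → F[X] := fun r => pr (Sum.inr (Sum.inr (Sum.inr (Sum.inr r))))
  have hf : Function.Injective f := by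
    intro r r' h
    have h1 := hN.fam.inj h
    simpa using h1
  let D : F[X] := C x₀ * ((pr (Sum.inl none) * ∏ v, pr (Sum.inl (some v)) ^ (ρ v).val) *
      ((∏ v, pr (Sum.inr (Sum.inl v))) * ((∏ t, pr (Sum.inr (Sum.inr (Sum.inl t)))) *
        (∏ t, pr (Sum.inr (Sum.inr (Sum.inr (Sum.inl t))))))))
  refine ⟨D, Set.range f, Set.infinite_range_of_injective hf, ?_, ?_⟩
  · rintro _ ⟨r, rfl⟩
    exact ⟨hN.fam.monic _, hN.fam.irr _⟩
  · intro I hI
    rw [← Set.image_univ] at hI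
    obtain ⟨J, -, rfl⟩ := Finset.subset_set_image_iff.1 hI
    have hNJ := hN.restrict (J := J) Subtype.val Subtype.val_injective
    have hE : D * ∏ R ∈ J.image f, R = tw (fun b => pr
        (Sum.map id (Sum.map id (Sum.map id (Sum.map id (Subtype.val : J → ℕ)))) b))
          (flag ρ) x₀ := by
      rw [Finset.prod_image fun r _ r' _ h => hf h, ← Finset.prod_coe_sort J f, tw_flag]
      simp only [Sum.map_inl, Sum.map_inr, id_eq]
      change (C x₀ * ((pr (Sum.inl none) * ∏ v, pr (Sum.inl (some v)) ^ (ρ v).val) *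
        ((∏ v, pr (Sum.inr (Sum.inl v))) * ((∏ t, pr (Sum.inr (Sum.inr (Sum.inl t)))) *
          (∏ t, pr (Sum.inr (Sum.inr (Sum.inr (Sum.inl t))))))))) * _ = _
      ring
    rw [hE]
    have hsq := squarefree_tw hNJ.fam (flag ρ) hx₀
    refine ⟨hsq, ?_, ?_⟩
    · exact core hSy hRec hNu hEq hNet hLin hLA hLB hF ha hNJ hC hch hρ hx₀ hcs
    · refine hIdx F hF m ha.odd _ (tw_ne_zero hNJ.fam _ hx₀) a ha.injective
        (pr (Sum.inl none)) (hN.fam.monic _) (hN.fam.irr _) ?_ ?_ ?_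
      · rw [tw_flag]
        exact Dvd.dvd.mul_left (Dvd.dvd.mul_right (dvd_mul_right _ _) _) _
      · intro h
        rw [pow_two] at h
        exact (hN.fam.irr _).not_isUnit (hsq _ h)
      · intro i j hij hdvd
        obtain ⟨v, hv⟩ := hN.cov _ (hN.fam.monic _) (hN.fam.irr _) i j hij hdvd
        have h1 := hN.fam.inj hv
        simp at h1

end MP72e2e6
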