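import Pool.Agent.Lib.MP_72e2e6_nt.GMain

/-!
# MP_72e2e6_nt: twists with trivial Selmer groups, definitions and statements of the modules

Every module proves one of the propositions `StmtX` below: file `TwX.lean` with
`theorem tX.{u} : StmtX.{u}` (or `theorem tX.{u} (h : StmtY.{u}) : StmtX.{u}` if the docstring
says: uses `StmtY`; statements without universe: `theorem tX : StmtX`). The complete proofs are in
the docstrings. Import this file.

THEOREM (file TwMain, later). `F` finite of odd order `q`, `m ≥ 3` odd, `a_1, ..., a_m ∈ F[t]` with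
all differences `a_i - a_j` of the same degree `n` and pairwise coprime. There are a squarefree
`D ∈ F[t]` and an infinite set `𝓡` of monic irreducible polynomials such that for every finite
subset `I` of `𝓡`, `E = D * ∏_{R ∈ I} R`, the `2`-Selmer group of the Jacobian of
`y ^ 2 = ∏ (x - E a_i)` over `F(t)` is the image of the `2`-torsion.

Conventions: symbols are additive, with values in `ZMod 2`: `cs u` for constants, `sy P h` is the
quadratic symbol modulo the monic irreducible `P` of the prime-to-`P` part of `h`, `vp P h` the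
multiplicity of `P` in `h`.
-/

namespace MP72e2e6

open Polynomial IsDedekindDomain

universe u

section definitions

variable {F : Type u} [Field F]

open Classical in
/-- `0` if `x` is a square, `1` otherwise. -/
noncomputable def cs (x : F) : ZMod 2 := if IsSquare x then 0 else 1

open Classical in
/-- The multiplicity of `P` in `h`, modulo `2` (and `0` for `h = 0`). -/
noncomputable def vp (P h : F[X]) : ZMod 2 := if h = 0 then 0 else (multiplicity P h : ZMod 2)

open Classical in
/-- For a monic irreducible `P`: the quadratic symbol of `h / P ^ k` modulo `P`, `k` the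
multiplicity of `P` in `h`: `0` for squares, `1` for nonsquares. -/
noncomputable def sy (P h : F[X]) : ZMod 2 :=
  if IsSquare (AdjoinRoot.mk P (h /ₘ P ^ multiplicity P h)) then 0 else 1

open Classical in
/-- The quadratic symbol modulo `P` with values `0`, `1`, `-1`. -/
noncomputable def leg (P h : F[X]) : ℤ :=
  if P ∣ h then 0 else if IsSquare (AdjoinRoot.mk P h) then 1 else -1

/-- The classes of the `2`-torsion: for `∑ i, c i = 0` this is the product over the `j` with
`c j = 1` of the torsion tuples of `y ^ 2 = ∏ (x - E a_i)`, up to squares. -/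
noncomputable def tau {m : ℕ} (E : F[X]) (a : Fin m → F[X]) (c : Fin m → ZMod 2) (i : Fin m) :
    F[X] :=
  (-E) ^ (c i).val * ∏ k, (a i - a k) ^ (c i + c k).val

/-- The vector of a prime `P`: `e_j + e_k` if `P` divides `a j - a k` to odd order. -/
noncomputable def nu {m : ℕ} (P : F[X]) (a : Fin m → F[X]) (i : Fin m) : ZMod 2 :=
  ∑ k, vp P (a i - a k)

/-- The scalar product. -/
def ip {m : ℕ} (x y : Fin m → ZMod 2) : ZMod 2 := ∑ i, x i * y i

/-- The quadratic form `∑_{i < k} x_i x_k`. -/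
def qf {m : ℕ} (x : Fin m → ZMod 2) : ZMod 2 := ∑ i, ∑ k, if i < k then x i * x k else 0

/-- The part of the condition at `P` which only depends on `P` and the differences. -/
noncomputable def lsy {m : ℕ} (P : F[X]) (a : Fin m → F[X]) (c : Fin m → ZMod 2) (i : Fin m) :
    ZMod 2 :=
  c i * ((P.natDegree : ZMod 2) * cs (-1 : F)) + ∑ k, (c i + c k) * sy P (a i - a k)

/-- The branch points: `m` odd, all differences of degree `n` and pairwise coprime. -/
structure Pts (m n : ℕ) (a : Fin m → F[X]) : Prop where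
  odd : Odd m
  three : 3 ≤ m
  deg : ∀ i j, i ≠ j → (a i - a j).degree = n
  cop : ∀ i j k l, i ≠ j → k ≠ l → ¬ (i = k ∧ j = l) → ¬ (i = l ∧ j = k) →
    IsCoprime (a i - a j) (a k - a l)

/-- A family of distinct monic irreducible polynomials. -/
structure Fam {ι : Type} (pr : ι → F[X]) : Prop where
  inj : Function.Injective pr
  monic : ∀ b, (pr b).Monic
  irr : ∀ b, Irreducible (pr b)

/-- The branch points `E a_i` in `F(t)`. -/
noncomputable def pts {m : ℕ} (E : F[X]) (a : Fin m → F[X]) (i : Fin m) : RatFunc F :=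
  algebraMap F[X] (RatFunc F) (E * a i)

/-- The twisting polynomial. -/
noncomputable def tw {ι : Type} [Fintype ι] (pr : ι → F[X]) (ρ : ι → ZMod 2) (x : F) : F[X] :=
  C x * ∏ b, pr b ^ (ρ b).val

/-- The equations satisfied by a Selmer element: `x b` is the valuation vector at the prime
`pr b`, `c b` the torsion class at `pr b`. The primes with `ρ b = 1` divide `E = tw pr ρ x₀`. -/
structure EqSys {m : ℕ} {ι : Type} [Fintype ι] (a : Fin m → F[X]) (pr : ι → F[X])
    (ρ : ι → ZMod 2) (x₀ : F) (x c : ι → Fin m → ZMod 2) : Prop where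
  even : ∀ b, ρ b = 1 → ∑ i, c b i = 0
  inf : ∀ i, ∑ b, ((pr b).natDegree : ZMod 2) * x b i = 0
  val : ∀ b, ρ b = 1 → ∀ i, x b i = c b i + ∑ k, (c b i + c b k) * vp (pr b) (a i - a k)
  sym : ∀ b, ρ b = 1 → ∀ i,
    ∑ b', sy (pr b) (pr b') * (x b' i + ρ b' * c b i) +
      c b i * (((pr b).natDegree : ZMod 2) * cs (-x₀)) +
      ∑ k, (c b i + c b k) * sy (pr b) (a i - a k) = 0
  spl : ∀ b, ρ b = 0 → (∃ l : ZMod 2, ∀ i, x b i = l * nu (pr b) a i) ∧
    ∑ i, nu (pr b) a i * ∑ b', sy (pr b) (pr b') * x b' i = 0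

end definitions

/-- The equations for a network `κ` of auxiliary primes: `A k v = 1` if `k` is adjacent to the
place `v` (`none` is the place `R_0`), `e k = 1` if `k` is adjacent to infinity, `l` is the
adjacency in `κ`. -/
structure NetSys {m : ℕ} {V κ : Type} [Fintype V] [Fintype κ] (ν : V → Fin m → ZMod 2)
    (ρ D : V → ZMod 2) (s : V → V → ZMod 2) (s₁ s₀ : V → ZMod 2)
    (L : V → (Fin m → ZMod 2) → Fin m → ZMod 2) (L₀ : (Fin m → ZMod 2) → Fin m → ZMod 2)
    (A : κ → Option V → ZMod 2) (e : κ → ZMod 2) (l : κ → κ → ZMod 2)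
    (x c : V → Fin m → ZMod 2) (x₀ : Fin m → ZMod 2) (X : κ → Fin m → ZMod 2) : Prop where
  val : ∀ v, ρ v = 1 → x v = c v + ip (ν v) (c v) • ν v
  spl : ∀ v, ρ v = 0 → ∃ l : ZMod 2, x v = l • ν v
  inf : ∑ v, D v • x v + x₀ = 0
  ker : ∀ k, ∑ v, A k (some v) • (x v + ρ v • X k + ip (ν v) (X k) • ν v) +
    A k none • (x₀ + X k) + ∑ k', l k k' • (X k' + X k) + e k • X k = 0
  pl : ∀ v, ρ v = 1 → ∑ w, s v w • (x w + ρ w • c v) + s₁ v • (x₀ + c v) + L v (c v) +
    ∑ k, A k (some v) • (X k + c v) + D v • ∑ k, e k • X k = 0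
  pls : ∀ v, ρ v = 0 → ip (ν v) (∑ w, s v w • x w + s₁ v • x₀ +
    ∑ k, A k (some v) • X k + D v • ∑ k, e k • X k) = 0
  pl0 : ∑ w, s₀ w • (x w + ρ w • x₀) + L₀ x₀ + ∑ k, A k none • (X k + x₀) +
    ∑ k, e k • X k = 0

/-- The combinatorial data of the network: `T` is the set of the edges of a forest on the odd
places (`ν v ≠ 0`), `t` joins `ch t` to its parent `par t`, `rt v` is the root of the component of
`v`, `rk` the height. -/
structure Comb {m : ℕ} {V T : Type} [Fintype V] [DecidableEq V] [Fintype T] (n : ℕ)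
    (ν : V → Fin m → ZMod 2) (D : V → ZMod 2) (s : V → V → ZMod 2) (ε : ZMod 2)
    (ch par : T → V) (rt : V → V) (rk : V → ℕ) : Prop where
  odd : Odd m
  three : 3 ≤ m
  pair : ∀ v, ν v = 0 ∨ ∃ j k, j ≠ k ∧ ν v = Pi.single j 1 + Pi.single k 1
  cls : ∀ j k, j ≠ k →
    ∑ v ∈ Finset.univ.filter (fun v => ν v = Pi.single j 1 + Pi.single k 1), D v = n
  sym : ∀ v w, v ≠ w → s v w + s w v = ε * (D v * D w)
  diag : ∀ v, s v v = 0
  adj : ∀ v w, ip (ν v) (ν w) = 1 → rt v = rt w
  chi : Function.Injective ch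
  edge : ∀ t, ip (ν (ch t)) (ν (par t)) = 1 ∧ rk (par t) < rk (ch t)
  cov : ∀ v, ν v ≠ 0 → (∃ t, ch t = v) ∨ rt v = v
  ncv : ∀ t, rt (ch t) ≠ ch t
  idm : ∀ v, rt (rt v) = rt v

/-- The reduced equations. -/
structure Sol {m : ℕ} {V T : Type} [Fintype V] [DecidableEq V] [Fintype T]
    (ν : V → Fin m → ZMod 2) (ρ D : V → ZMod 2) (s : V → V → ZMod 2) (s₁ s₀ : V → ZMod 2)
    (ch par : T → V) (l : V → ZMod 2) (α β : T → ZMod 2) (x₀ U : Fin m → ZMod 2) : Prop where
  zero : ∀ v, ν v = 0 → l v = 0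
  edge : ∀ t, l (ch t) = l (par t) ∧ α t + β t = l (ch t)
  x0 : x₀ = ∑ v, (D v * l v) • ν v
  U0 : x₀ = 0 → U = ∑ v, (s₀ v * l v) • ν v
  eqn : ∀ v, ν v ≠ 0 → ∑ w, s v w * (l w * ip (ν v) (ν w)) + s₁ v * ip (ν v) x₀ + ρ v * l v +
    ∑ t ∈ Finset.univ.filter (fun t => ch t = v), β t +
    ∑ t ∈ Finset.univ.filter (fun t => par t = v), α t + D v * ip (ν v) U = 0

section counting

variable (F : Type u) [Field F] [Finite F]

theorem finite_mon (n : ℕ) : {h : F[X] | h.Monic ∧ h.natDegree = n}.Finite := by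
  refine Set.Finite.of_finite_image (f := fun (h : F[X]) (i : Fin (n + 1)) => h.coeff i)
    (Set.toFinite _) ?_
  rintro g ⟨-, hg⟩ h ⟨-, hh⟩ hgh
  ext i
  by_cases hi : i < n + 1
  · exact congrFun hgh ⟨i, hi⟩
  · rw [coeff_eq_zero_of_natDegree_lt (by omega), coeff_eq_zero_of_natDegree_lt (by omega)]

/-- The monic polynomials of degree `n`. -/
noncomputable def mon (n : ℕ) : Finset F[X] := (finite_mon F n).toFinset

variable {F} in
theorem mem_mon {n : ℕ} {h : F[X]} : h ∈ mon F n ↔ h.Monic ∧ h.natDegree = n := by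
  simp [mon]

open Classical in
/-- The monic irreducible polynomials of degree `n`. -/
noncomputable def irr (n : ℕ) : Finset F[X] := (mon F n).filter Irreducible

variable {F}

/-- Completely multiplicative functions on monic polynomials with values `0`, `1`, `-1`. -/
structure IsChar (χ : F[X] → ℤ) : Prop where
  one : χ 1 = 1
  mul : ∀ g h : F[X], g.Monic → h.Monic → χ (g * h) = χ g * χ h
  val : ∀ h : F[X], χ h = 0 ∨ χ h = 1 ∨ χ h = -1

/-- The sum over the monic polynomials of degree `n`. -/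
noncomputable def av (χ : F[X] → ℤ) (n : ℕ) : ℤ := ∑ h ∈ mon F n, χ h

/-- The sum `∑ deg P * χ (P ^ j)` over the monic irreducible `P` and `j` with `j * deg P = k`. -/
noncomputable def psi (χ : F[X] → ℤ) (k : ℕ) : ℤ :=
  ∑ d ∈ k.divisors, ∑ P ∈ irr F d, (d : ℤ) * χ P ^ (k / d)

end counting

end MP72e2e6
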