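import Pool.Agent.Lib.MP_72e2e6_nt.TwStmt

/-!
# Split multiplicative places
-/

namespace MP72e2e6

open Polynomial IsDedekindDomain WithZero

universe u

theorem twsplf_ne_two {F : Type u} [Field F] [Finite F] (hF : Odd (Nat.card F)) {p : ℕ}
    [CharP F p] : p ≠ 2 := by
  rintro rfl
  have h0 := Fintype.ofFinite F
  obtain ⟨r, -, hr⟩ := FiniteField.card F 2
  rw [Nat.card_eq_fintype_card, hr] at hF
  exact (Nat.not_odd_iff_even.2 (Nat.even_pow.2 ⟨even_two, r.ne_zero⟩)) hF

/-- elements which are close to each other differ by a square -/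
theorem twsplf_near {E : Type u} [NontriviallyNormedField E] [IsUltrametricDist E]
    [CompleteSpace E] (p : ℕ) [Fact p.Prime] [CharP E p] (hp : p ≠ 2) {x y : E}
    (h : ‖x - y‖ < ‖y‖) : ∃ z : E, x = y * z ^ 2 := by
  have hy : y ≠ 0 := by
    rintro rfl
    rw [norm_zero] at h
    exact absurd h (not_lt.2 (norm_nonneg _))
  have hcop : Nat.Coprime 2 p := (Nat.coprime_primes Nat.prime_two Fact.out).2 hp.symm
  have h1 : ‖x / y - 1‖ < 1 := by
    have h2 : x / y - 1 = (x - y) / y := by field_simp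
    rw [h2, norm_div, div_lt_one (norm_pos_iff.2 hy)]
    exact h
  obtain ⟨z, hz, -⟩ := exists_pow_eq_of_principal p hcop h1
  exact ⟨z, by rw [hz]; field_simp⟩

open scoped Valued in
theorem tTwSplF (hSN : StmtTwSplN.{u}) : StmtTwSplF.{u} := by
  classical
  intro F _ _ hF m hm hm3 E a v P hP hPi hv hPE j k hjk hpair hPjk hsq d hd
  obtain ⟨p, hpc⟩ := CharP.exists F
  have h0 := Fintype.ofFinite F
  obtain ⟨r, hp, hr⟩ := FiniteField.card F p
  have hpf : Fact p.Prime := ⟨hp⟩
  have hcharK : CharP (RatFunc F) p :=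
    charP_of_injective_algebraMap (algebraMap F (RatFunc F)).injective p
  have hcharM : CharP (v.adicCompletion (RatFunc F)) p :=
    charP_of_injective_algebraMap
      (algebraMap (RatFunc F) (v.adicCompletion (RatFunc F))).injective p
  obtain ⟨hr⟩ := nonempty_rankOne (nontriv_adic (K := RatFunc F) v)
  let : NontriviallyNormedField (v.adicCompletion (RatFunc F)) :=
    Valued.toNontriviallyNormedField (v.adicCompletion (RatFunc F))
      (WithZero (Multiplicative ℤ))
  have hvn : ∀ x y : v.adicCompletion (RatFunc F), ‖x‖ ≤ ‖y‖ ↔ Valued.v x ≤ Valued.v y :=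
    fun x y => Valued.toNormedField.norm_le_iff
  set φ : F[X] → v.adicCompletion (RatFunc F) := fun h =>
    algebraMap (RatFunc F) (v.adicCompletion (RatFunc F)) (algebraMap F[X] (RatFunc F) h) with hφ
  have hφmul : ∀ g h, φ (g * h) = φ g * φ h := fun g h => by simp only [hφ, map_mul]
  have hφsub : ∀ g h, φ (g - h) = φ g - φ h := fun g h => by simp only [hφ, map_sub]
  have hφpow : ∀ g (n : ℕ), φ (g ^ n) = φ g ^ n := fun g h => by simp only [hφ, map_pow]
  have hφle : ∀ h, ‖φ h‖ ≤ 1 := by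
    intro h
    have h1 := hvn (φ h) 1
    rw [norm_one, map_one, valued_adic] at h1
    exact h1.2 (v.valuation_le_one h)
  have hφlt : ∀ h, ‖φ h‖ < 1 ↔ P ∣ h := by
    intro h
    have h1 := hvn 1 (φ h)
    rw [norm_one, map_one, valued_adic] at h1
    rw [← not_le, h1, not_le, v.valuation_lt_one_iff_mem, hv, Ideal.mem_span_singleton]
  have hφone : ∀ h, ¬ P ∣ h → ‖φ h‖ = 1 := fun h hh =>
    le_antisymm (hφle h) (not_lt.1 fun h2 => hh ((hφlt h).1 h2))
  have hprime : Prime P := hPi.prime
  have hpt : ∀ i l, algebraMap (RatFunc F) (v.adicCompletion (RatFunc F)) (pts E a i) -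
      algebraMap (RatFunc F) (v.adicCompletion (RatFunc F)) (pts E a l) =
        φ (E * (a i - a l)) := by
    intro i l
    rw [mul_sub, hφsub]
    rfl
  have hji : ∀ i ∈ (Finset.univ.erase j).erase k, ¬ P ∣ a j - a i := by
    intro i hi
    rw [Finset.mem_erase, Finset.mem_erase] at hi
    exact hpair j i hi.2.1.symm (fun h => hi.1 h.2) (fun h => hjk h.1)
  -- the product is a square
  obtain ⟨s, hs⟩ : ∃ s : v.adicCompletion (RatFunc F),
      ∏ i ∈ (Finset.univ.erase j).erase k,
        (algebraMap (RatFunc F) (v.adicCompletion (RatFunc F)) (pts E a j) -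
          algebraMap (RatFunc F) (v.adicCompletion (RatFunc F)) (pts E a i)) = s ^ 2 := by
    obtain ⟨y, hy⟩ := hsq
    obtain ⟨g, rfl⟩ := AdjoinRoot.mk_surjective y
    rw [← map_mul, AdjoinRoot.mk_eq_mk] at hy
    set h := E * ∏ i ∈ (Finset.univ.erase j).erase k, (a j - a i) with hh
    have hPh : ¬ P ∣ h := by
      rw [hh, hprime.dvd_mul, hprime.dvd_finsetProd_iff]
      rintro (h1 | ⟨i, hi, h1⟩)
      · exact hPE h1
      · exact hji i hi h1
    have hPg : ¬ P ∣ g := by
      intro h1
      apply hPh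
      have h2 : h = (h - g * g) + g * g := by ring
      rw [h2]
      exact dvd_add hy (Dvd.dvd.mul_right h1 g)
    have h1 : ‖φ h - φ g ^ 2‖ < ‖φ g ^ 2‖ := by
      rw [norm_pow, hφone g hPg, one_pow, ← hφpow, ← hφsub, hφlt, sq]
      exact hy
    obtain ⟨z, hz⟩ := twsplf_near p (twsplf_ne_two hF) h1
    obtain ⟨t, ht⟩ := hm
    refine ⟨φ (E ^ (t - 1)) * (φ g * z), ?_⟩
    have h2 : ((Finset.univ.erase j).erase k).card = 2 * (t - 1) + 1 := by
      rw [Finset.card_erase_of_mem (Finset.mem_erase.2 ⟨hjk.symm, Finset.mem_univ k⟩),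
        Finset.card_erase_of_mem (Finset.mem_univ j), Finset.card_univ, Fintype.card_fin]
      omega
    have h3 : ∏ i ∈ (Finset.univ.erase j).erase k, φ (E * (a j - a i)) =
        φ (E ^ (t - 1)) ^ 2 * φ h := by
      rw [Finset.prod_congr rfl fun i _ => hφmul E (a j - a i), Finset.prod_mul_distrib,
        Finset.prod_const, h2, hh, hφmul, hφpow]
      have h4 : φ (∏ i ∈ (Finset.univ.erase j).erase k, (a j - a i)) =
          ∏ i ∈ (Finset.univ.erase j).erase k, φ (a j - a i) := by
        simp only [hφ, map_prod]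
      rw [h4]
      ring
    rw [Finset.prod_congr rfl fun i _ => hpt j i, h3, hz]
    ring
  obtain ⟨⟨z, hz⟩, h2⟩ := hSN (v.adicCompletion (RatFunc F)) p (twsplf_ne_two hF) Valued.v hvn m hm
    (fun i => algebraMap (RatFunc F) (v.adicCompletion (RatFunc F)) (pts E a i))
    (fun i => hφle (E * a i)) j k hjk
    (fun i l h1 h2 h3 => by
      rw [hpt, hφone]
      rw [hprime.dvd_mul]
      rintro (h4 | h4)
      · exact hPE h4
      · exact hpair i l h1 h2 h3 h4)
    (by
      rw [hpt, hφlt]
      exact Dvd.dvd.mul_left hPjk E) s hs (baseChange (v.adicCompletion (RatFunc F)) d) hd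
  refine ⟨⟨z, ?_⟩, fun i hi hi' => ?_⟩
  · rw [← hz, map_mul]
    rfl
  · have h3 := h2 i hi hi'
    have h4 : ((baseChange (v.adicCompletion (RatFunc F)) d i :
        (v.adicCompletion (RatFunc F))ˣ) : v.adicCompletion (RatFunc F)) =
        algebraMap (RatFunc F) (v.adicCompletion (RatFunc F)) (d i : RatFunc F) := rfl
    rwa [h4, valued_adic] at h3

end MP72e2e6
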