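import Pool.Agent.Lib.MP_72e2e6_nt.W2.All
import Pool.Agent.Lib.MP_72e2e6_nt.W2.Fin.Eqv

/-!
# One hundred percent of the wild quadratic twists of an elliptic curve over `F(t)`

Let `F` be a finite field of characteristic two and `E` a Weierstrass curve over `K = F(t)` with
`Δ ≠ 0` and `a₁ ≠ 0`, i.e. an elliptic curve with `j ≠ 0` (an ordinary elliptic curve). Its quadratic
twist `E_D` by the extension `θ ^ 2 + θ = D` of `K` is `twist E D`. Let `PP` be a finite set of monic
irreducible polynomials which contains all `P` such that some `a_i` is not integral at `P` or `a₁` or
`Δ` is not a unit at `P`. For `e : PP → ℕ` and `n ∈ ℕ` let `Tw PP e n = H⁰(O(∑ e_P P + n ∞))` be the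
finite set of the functions `D ∈ K` with poles of order at most `e_P` at `P ∈ PP`, at most `n` at
infinity, and no other poles.

THEOREM. For every `ε > 0` there is `e₀` such that for all `e_P ≥ e₀` and `n ≥ e₀`, for at least
`(1 - ε) #(Tw PP e n)` elements `D` of `Tw PP e n` the group `E_D(K)` is finite and the `2`-primary
part of the Tate-Shafarevich group of `E_D` over `K` is finite.

All groups are the literal ones: `(twist E D).toAffine.Point` is the Mordell-Weil group of Mathlib,
`InSha` is the kernel of the localization maps (to all completions of `K` at nontrivial absolute
values) on locally constant crossed homomorphisms of the absolute Galois group of `K` with values in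
`E_D(K^s)`, and `ShaTwoFin` says that the classes of `2`-power order in this kernel are finite in
number.

The proof is self-contained. Let `D` be in the family, `[2 ^ k] = V ^ k F ^ k` the decomposition into
the Frobenius isogeny and its dual. The Selmer groups of `V ^ k` and of `F ^ k` are both bounded in
terms of the number `X(D)` of the solutions of a system of linear equations `T_v(a) = 0` modulo
`2 ^ (k + 1)` (for `F ^ k` by an explicit reciprocity law for crossed homomorphisms modulo
`2 ^ k`-th powers of `K^s`). The average of `X(D)` over the family is computed by iterated
applications of the Cauchy-Schwarz inequality in `D` (van der Corput's method); the derivatives of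
`T_v` in `D` are computed with group rings. It follows that the Selmer group of `[2 ^ k]` has less
than `2 ^ k` elements for a proportion of the `D` which tends to one as `k → ∞`, and then `2 ^ (k - 1)`
kills the `2`-primary part of the Tate-Shafarevich group and `2 ^ (k - 1) E_D(K) = 2 ^ k E_D(K)`.
-/

namespace Pool.Agent.Results.MP_72e2e6_nt.WildTwists

/-- One hundred percent of the wild quadratic twists of an ordinary elliptic curve over `F(t)`,
`F` finite of characteristic two, have finitely many rational points and a finite `2`-primary part of
the Tate-Shafarevich group. -/
theorem result : Pool.Agent.MP72Y.T3 := Pool.Agent.MP72Y.t3_of Pool.Agent.MP72W.aT3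

end Pool.Agent.Results.MP_72e2e6_nt.WildTwists
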